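import Pool.Agent.Strip051.G.I3_64_1_16.Gn
import Pool.Agent.Strip051.PB.Corns
import Pool.Agent.Strip051.PB.CornK

/-! # Certificates of the aligned corners (generated) -/

set_option linter.all false

namespace Pool.Agent.Strip051.G.I3_64_1_16.Tab.CF

open Pool.Agent.Strip051.PB

def A022E_002_1_2_1 :
    ∃ t, chk3 (onCell 0 50331648 0 1073741824 50331648 16777216 (corTK [[⟨0, 0, 1, 25165824⟩, ⟨1, 1, 0, 8388608⟩, ⟨2, 1, 1, 25165824⟩, ⟨0, 0, 0, 83886080⟩, ⟨0, 1, 0, 1040187392⟩, ⟨2, 1, 0, 83886080⟩, ⟨2, 2, 0, 1040187392⟩]] true 1 c0F cA022E gF0q0 gF0q2 gF2q2 gF3q2 true false)) t 1 2 1 = true :=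
  ⟨(T.b (T.a (T.a (T.a (T.b (T.b (T.b (T.l 204) (T.l 204)) (T.l 204)) (T.l 204)) (T.a (T.b (T.a (T.b (T.b (T.l 204) (T.l 204)) (T.l 204)) (T.b (T.l 204) (T.l 204))) (T.a (T.l 204) (T.l 220))) (T.b (T.a (T.l 204) (T.l 204)) (T.b (T.l 204) (T.l 204))))) (T.a (T.a (T.b (T.a (T.l 204) (T.l 204)) (T.l 220)) (T.b (T.b (T.a (T.l 204) (T.l 204)) (T.b (T.l 204) (T.l 204))) (T.b (T.b (T.l 204) (T.l 204)) (T.l 204)))) (T.b (T.a (T.b (T.b (T.l 204) (T.l 204)) (T.b (T.l 204) (T.l 204))) (T.b (T.l 204) (T.l 204))) (T.a (T.b (T.b (T.l 204) (T.l 204)) (T.b (T.l 204) (T.l 204))) (T.b (T.l 204) (T.l 204)))))) (T.a (T.a (T.b (T.a (T.b (T.l 204) (T.l 204)) (T.b (T.l 204) (T.l 204))) (T.a (T.b (T.l 204) (T.l 204)) (T.b (T.l 204) (T.l 204)))) (T.b (T.a (T.b (T.l 204) (T.l 204)) (T.b (T.l 204) (T.l 204))) (T.a (T.b (T.l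 204) (T.l 204)) (T.b (T.l 204) (T.l 204))))) (T.a (T.b (T.a (T.b (T.l 204) (T.l 204)) (T.b (T.l 204) (T.l 204))) (T.a (T.b (T.l 204) (T.l 204)) (T.b (T.l 204) (T.l 204)))) (T.b (T.b (T.b (T.l 460) (T.l 460)) (T.b (T.l 460) (T.l 460))) (T.b (T.b (T.l 460) (T.l 460)) (T.b (T.l 460) (T.l 460))))))) (T.b (T.a (T.a (T.a (T.l 204) (T.a (T.a (T.l 204) (T.l 0)) (T.b (T.l 204) (T.l 0)))) (T.a (T.a (T.l 0) (T.l 204)) (T.a (T.b (T.b (T.l 204) (T.l 204)) (T.l 204)) (T.b (T.l 204) (T.l 204))))) (T.a (T.a (T.b (T.b (T.l 204) (T.l 204)) (T.b (T.l 204) (T.l 204))) (T.a (T.b (T.l 204) (T.l 204)) (T.b (T.l 204) (T.l 204)))) (T.a (T.b (T.b (T.l 460) (T.l 460)) (T.b (T.l 460) (T.l 460))) (T.b (T.b (T.l 460) (T.l 460)) (T.b (T.l 460) (T.l 460)))))) (T.a (T.a (T.a (T.l 0) (T.a (T.l 0) (T.b (T.l 0) (T.l 0)))) (T.a (T.a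 (T.l 0) (T.l 0)) (T.b (T.l 220) (T.l 0)))) (T.a (T.a (T.b (T.b (T.l 204) (T.l 204)) (T.b (T.l 204) (T.l 204))) (T.a (T.b (T.l 204) (T.l 204)) (T.b (T.l 204) (T.l 204)))) (T.a (T.b (T.b (T.l 460) (T.l 460)) (T.b (T.l 460) (T.l 256))) (T.b (T.b (T.l 460) (T.l 460)) (T.b (T.l 460) (T.l 460)))))))), by decide +kernel⟩

def A022E_002_1_6_1 :
    ∃ t, chk3 (onCell 0 50331648 0 1073741824 50331648 16777216 (corTK [[⟨0, 0, 1, 25165824⟩, ⟨1, 1, 0, 8388608⟩, ⟨2, 1, 1, 25165824⟩, ⟨0, 0, 0, 83886080⟩, ⟨0, 1, 0, 1040187392⟩, ⟨2, 1, 0, 83886080⟩, ⟨2, 2, 0, 1040187392⟩]] true 1 c0F cA022E gF0q0 gF0q2 gF2q2 gF3q2 true false)) t 1 6 1 = true :=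
  ⟨(T.b (T.a (T.a (T.l 0) (T.a (T.a (T.l 4) (T.l 0)) (T.b (T.l 0) (T.l 0)))) (T.a (T.a (T.b (T.l 0) (T.l 0)) (T.a (T.b (T.l 0) (T.l 0)) (T.b (T.l 0) (T.l 0)))) (T.a (T.b (T.a (T.l 204) (T.l 204)) (T.a (T.l 0) (T.l 0))) (T.b (T.b (T.l 460) (T.l 460)) (T.a (T.l 256) (T.l 460)))))) (T.b (T.a (T.a (T.l 816) (T.a (T.b (T.l 0) (T.l 816)) (T.b (T.l 0) (T.l 0)))) (T.a (T.a (T.l 0) (T.a (T.l 0) (T.l 0))) (T.a (T.a (T.l 0) (T.l 320)) (T.a (T.l 320) (T.b (T.l 0) (T.l 0)))))) (T.a (T.a (T.l 816) (T.a (T.l 816) (T.b (T.l 816) (T.l 816)))) (T.a (T.a (T.l 4) (T.a (T.l 0) (T.l 0))) (T.a (T.b (T.l 320) (T.l 320)) (T.b (T.l 320) (T.l 64))))))), by decide +kernel⟩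

def A022E_002_1_14_1 :
    ∃ t, chk3 (onCell 0 50331648 0 1073741824 50331648 16777216 (corTK [[⟨0, 0, 1, 25165824⟩, ⟨1, 1, 0, 8388608⟩, ⟨2, 1, 1, 25165824⟩, ⟨0, 0, 0, 83886080⟩, ⟨0, 1, 0, 1040187392⟩, ⟨2, 1, 0, 83886080⟩, ⟨2, 2, 0, 1040187392⟩]] true 1 c0F cA022E gF0q0 gF0q2 gF2q2 gF3q2 true false)) t 1 14 1 = true :=
  ⟨(T.b (T.b (T.a (T.a (T.l 816) (T.a (T.b (T.l 816) (T.l 816)) (T.l 816))) (T.a (T.a (T.l 816) (T.a (T.l 816) (T.l 816))) (T.a (T.b (T.l 64) (T.l 64)) (T.l 64)))) (T.a (T.a (T.l 816) (T.a (T.c (T.l 820) (T.l 816)) (T.l 816))) (T.a (T.a (T.l 816) (T.a (T.l 816) (T.l 816))) (T.a (T.b (T.l 68) (T.l 68)) (T.b (T.l 0) (T.l 880)))))) (T.b (T.b (T.b (T.a (T.a (T.l 816) (T.a (T.l 820) (T.l 816))) (T.a (T.a (T.l 816) (T.a (T.l 816) (T.l 816))) (T.a (T.l 68) (T.l 816)))) (T.b (T.a (T.a (T.l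 816) (T.a (T.l 816) (T.l 816))) (T.a (T.a (T.l 816) (T.a (T.l 816) (T.l 816))) (T.a (T.l 68) (T.l 816)))) (T.a (T.a (T.l 816) (T.a (T.l 820) (T.l 816))) (T.a (T.a (T.l 816) (T.a (T.l 816) (T.l 816))) (T.a (T.l 884) (T.l 816)))))) (T.b (T.b (T.a (T.a (T.l 816) (T.a (T.l 820) (T.l 816))) (T.a (T.a (T.l 816) (T.a (T.l 816) (T.l 816))) (T.a (T.l 884) (T.l 880)))) (T.a (T.a (T.l 816) (T.a (T.l 820) (T.l 816))) (T.a (T.a (T.l 816) (T.a (T.l 816) (T.l 816))) (T.a (T.l 884) (T.l 880))))) (T.b (T.a (T.a (T.l 816) (T.a (T.l 820) (T.l 816))) (T.a (T.a (T.l 816) (T.a (T.l 816) (T.l 816))) (T.a (T.l 884) (T.l 880)))) (T.a (T.a (T.l 816) (T.a (T.c (T.l 816) (T.l 816)) (T.l 816))) (T.a (T.a (T.l 816) (T.a (T.l 816) (T.l 816))) (T.a (T.l 884) (T.l 880))))))) (T.b (T.b (T.b (T.a (T.a (T.l 816) (T.a (T.c (T.l 816)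 (T.l 816)) (T.l 816))) (T.a (T.a (T.l 816) (T.a (T.l 816) (T.l 816))) (T.a (T.c (T.l 816) (T.l 816)) (T.l 880)))) (T.a (T.a (T.l 816) (T.a (T.c (T.l 816) (T.l 816)) (T.l 816))) (T.a (T.a (T.l 816) (T.a (T.l 816) (T.l 816))) (T.a (T.c (T.l 880) (T.l 816)) (T.l 880))))) (T.b (T.a (T.a (T.l 816) (T.a (T.c (T.l 816) (T.l 816)) (T.l 816))) (T.a (T.a (T.l 816) (T.a (T.l 816) (T.l 816))) (T.a (T.c (T.l 880) (T.l 816)) (T.l 880)))) (T.a (T.a (T.l 816) (T.a (T.c (T.l 820) (T.l 816)) (T.l 816))) (T.a (T.a (T.l 816) (T.a (T.l 816) (T.l 816))) (T.a (T.c (T.l 880) (T.l 816)) (T.l 880)))))) (T.b (T.b (T.a (T.a (T.l 816) (T.a (T.c (T.l 820) (T.l 816)) (T.l 816))) (T.a (T.a (T.l 816) (T.a (T.l 816) (T.l 816))) (T.a (T.c (T.l 880) (T.l 816)) (T.l 880)))) (T.a (T.a (T.l 816) (T.a (T.c (T.l 820) (T.l 820)) (T.l 816)))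 (T.a (T.a (T.l 816) (T.a (T.l 816) (T.l 816))) (T.a (T.c (T.l 880) (T.l 816)) (T.l 880))))) (T.b (T.a (T.a (T.l 816) (T.a (T.c (T.l 820) (T.l 820)) (T.l 816))) (T.a (T.a (T.l 816) (T.a (T.l 816) (T.l 816))) (T.a (T.c (T.l 884) (T.l 816)) (T.l 880)))) (T.a (T.a (T.l 816) (T.a (T.c (T.l 820) (T.l 820)) (T.l 816))) (T.a (T.a (T.l 816) (T.a (T.l 816) (T.l 816))) (T.a (T.c (T.l 884) (T.l 880)) (T.l 880))))))))), by decide +kernel⟩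

def A022E_002_1_30_1 :
    ∃ t, chk3 (onCell 0 50331648 0 1073741824 50331648 16777216 (corTK [[⟨0, 0, 1, 25165824⟩, ⟨1, 1, 0, 8388608⟩, ⟨2, 1, 1, 25165824⟩, ⟨0, 0, 0, 83886080⟩, ⟨0, 1, 0, 1040187392⟩, ⟨2, 1, 0, 83886080⟩, ⟨2, 2, 0, 1040187392⟩]] true 1 c0F cA022E gF0q0 gF0q2 gF2q2 gF3q2 true false)) t 1 30 1 = true :=
  ⟨(T.b (T.b (T.b (T.b (T.a (T.a (T.l 816) (T.a (T.a (T.l 816) (T.l 816)) (T.l 816))) (T.a (T.a (T.l 816) (T.a (T.l 816) (T.l 816))) (T.a (T.c (T.l 884) (T.l 884)) (T.l 880)))) (T.a (T.a (T.l 816) (T.a (T.a (T.l 816) (T.l 816)) (T.l 816))) (T.a (T.a (T.l 816) (T.a (T.l 816) (T.l 816))) (T.a (T.c (T.l 884) (T.l 884)) (T.l 884))))) (T.b (T.a (T.a (T.l 816) (T.a (T.a (T.l 816) (T.l 816)) (T.l 816))) (T.a (T.a (T.l 816) (T.a (T.l 816) (T.l 816))) (T.a (T.c (T.l 884) (T.l 884)) (T.l 884))))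 (T.a (T.a (T.l 816) (T.a (T.a (T.l 816) (T.l 816)) (T.l 816))) (T.a (T.a (T.l 816) (T.a (T.l 816) (T.l 816))) (T.a (T.c (T.l 884) (T.l 884)) (T.l 884)))))) (T.b (T.b (T.a (T.a (T.l 816) (T.a (T.a (T.l 816) (T.l 816)) (T.l 816))) (T.a (T.a (T.l 816) (T.a (T.l 816) (T.l 816))) (T.c (T.l 1024) (T.a (T.l 884) (T.l 816))))) (T.a (T.a (T.l 816) (T.a (T.a (T.l 816) (T.l 816)) (T.l 816))) (T.a (T.a (T.l 816) (T.a (T.l 820) (T.l 816))) (T.c (T.l 1024) (T.a (T.l 884) (T.l 816)))))) (T.b (T.a (T.a (T.l 816) (T.a (T.a (T.l 816) (T.l 816)) (T.l 820))) (T.a (T.a (T.l 816) (T.a (T.l 820) (T.l 816))) (T.c (T.l 1024) (T.a (T.l 884) (T.l 880))))) (T.a (T.a (T.l 816) (T.a (T.a (T.l 816) (T.l 816)) (T.l 820))) (T.a (T.a (T.l 816) (T.a (T.l 820) (T.l 816))) (T.c (T.l 1024) (T.a (T.a (T.l 816) (T.l 816)) (T.l 880))))))))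 (T.b (T.b (T.b (T.a (T.a (T.l 816) (T.a (T.a (T.l 816) (T.l 816)) (T.l 820))) (T.a (T.a (T.l 816) (T.a (T.l 884) (T.l 816))) (T.c (T.l 1024) (T.a (T.a (T.l 816) (T.l 816)) (T.l 880))))) (T.a (T.a (T.l 816) (T.a (T.a (T.l 816) (T.l 816)) (T.l 820))) (T.a (T.a (T.l 816) (T.a (T.l 884) (T.l 816))) (T.c (T.l 1024) (T.a (T.a (T.l 816) (T.l 816)) (T.l 880)))))) (T.b (T.a (T.a (T.l 816) (T.a (T.a (T.l 816) (T.l 816)) (T.c (T.l 816) (T.l 816)))) (T.a (T.a (T.l 816) (T.a (T.l 884) (T.l 816))) (T.c (T.l 1024) (T.a (T.a (T.l 816) (T.l 816)) (T.l 884))))) (T.a (T.a (T.l 816) (T.a (T.a (T.l 816) (T.l 816)) (T.c (T.l 820) (T.l 816)))) (T.a (T.a (T.l 816) (T.a (T.c (T.l 816) (T.l 816)) (T.l 816))) (T.c (T.l 1024) (T.a (T.a (T.l 816) (T.l 816)) (T.l 884))))))) (T.b (T.b (T.a (T.a (T.l 816) (T.a (T.a (T.l 816) (T.l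 816)) (T.c (T.l 820) (T.l 816)))) (T.a (T.a (T.l 816) (T.a (T.c (T.l 820) (T.l 816)) (T.l 816))) (T.c (T.l 1024) (T.a (T.a (T.l 816) (T.l 816)) (T.l 884))))) (T.a (T.a (T.l 816) (T.a (T.a (T.l 816) (T.l 816)) (T.c (T.l 820) (T.l 820)))) (T.a (T.a (T.l 820) (T.a (T.c (T.l 820) (T.l 820)) (T.l 820))) (T.c (T.l 1024) (T.a (T.a (T.l 816) (T.l 816)) (T.l 884)))))) (T.b (T.a (T.a (T.l 816) (T.a (T.a (T.l 816) (T.l 816)) (T.c (T.l 820) (T.l 820)))) (T.a (T.a (T.l 820) (T.a (T.c (T.l 884) (T.l 820)) (T.l 884))) (T.c (T.l 1024) (T.a (T.a (T.l 816) (T.l 816)) (T.l 884))))) (T.a (T.a (T.l 816) (T.a (T.a (T.l 816) (T.l 816)) (T.a (T.l 816) (T.l 816)))) (T.a (T.a (T.l 820) (T.a (T.c (T.l 884) (T.l 820)) (T.l 884))) (T.c (T.l 1024) (T.a (T.a (T.l 816) (T.l 816)) (T.a (T.l 816) (T.l 1024)))))))))), by decide +kernel⟩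

def A022E_002_1_62_1 :
    ∃ t, chk3 (onCell 0 50331648 0 1073741824 50331648 16777216 (corTK [[⟨0, 0, 1, 25165824⟩, ⟨1, 1, 0, 8388608⟩, ⟨2, 1, 1, 25165824⟩, ⟨0, 0, 0, 83886080⟩, ⟨0, 1, 0, 1040187392⟩, ⟨2, 1, 0, 83886080⟩, ⟨2, 2, 0, 1040187392⟩]] true 1 c0F cA022E gF0q0 gF0q2 gF2q2 gF3q2 true false)) t 1 62 1 = true :=
  ⟨(T.b (T.b (T.b (T.a (T.a (T.l 816) (T.a (T.a (T.l 816) (T.l 816)) (T.a (T.l 816) (T.l 816)))) (T.a (T.a (T.l 820) (T.a (T.c (T.l 884) (T.l 884)) (T.l 884))) (T.c (T.l 1024) (T.a (T.a (T.l 816) (T.l 816)) (T.a (T.l 816) (T.l 1024)))))) (T.a (T.a (T.l 816) (T.a (T.a (T.l 816) (T.l 816)) (T.a (T.l 816) (T.l 816)))) (T.a (T.a (T.l 884) (T.a (T.c (T.l 884) (T.l 884)) (T.l 884))) (T.c (T.l 1024) (T.a (T.a (T.l 816) (T.l 816)) (T.a (T.l 816) (T.l 1024))))))) (T.b (T.a (T.a (T.l 816)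 (T.a (T.a (T.l 816) (T.l 816)) (T.a (T.l 816) (T.l 816)))) (T.a (T.a (T.a (T.l 816) (T.l 816)) (T.a (T.a (T.l 816) (T.l 816)) (T.l 884))) (T.c (T.l 1024) (T.a (T.a (T.l 816) (T.l 816)) (T.a (T.l 816) (T.l 1024)))))) (T.a (T.a (T.l 816) (T.a (T.a (T.l 816) (T.l 816)) (T.a (T.l 816) (T.l 816)))) (T.a (T.a (T.a (T.l 816) (T.l 816)) (T.a (T.a (T.l 816) (T.l 816)) (T.c (T.l 884) (T.l 820)))) (T.c (T.l 1024) (T.a (T.a (T.l 816) (T.l 816)) (T.a (T.l 816) (T.l 1024)))))))) (T.b (T.b (T.a (T.a (T.l 816) (T.a (T.a (T.l 816) (T.l 816)) (T.a (T.l 816) (T.l 816)))) (T.a (T.a (T.a (T.l 816) (T.l 816)) (T.a (T.a (T.l 816) (T.l 816)) (T.c (T.l 884) (T.l 820)))) (T.a (T.a (T.l 884) (T.l 884)) (T.l 1024)))) (T.a (T.a (T.l 816) (T.a (T.a (T.l 816) (T.l 816)) (T.a (T.l 816) (T.l 816)))) (T.a (T.a (T.a (T.l 816) (T.l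 816)) (T.a (T.a (T.l 816) (T.l 816)) (T.c (T.l 884) (T.l 884)))) (T.a (T.a (T.c (T.l 1024) (T.l 820)) (T.l 884)) (T.l 1024))))) (T.b (T.a (T.a (T.l 816) (T.a (T.a (T.l 816) (T.l 816)) (T.a (T.l 816) (T.l 816)))) (T.a (T.a (T.a (T.l 816) (T.l 820)) (T.a (T.a (T.l 816) (T.l 816)) (T.c (T.l 884) (T.l 884)))) (T.a (T.a (T.c (T.l 1024) (T.l 884)) (T.l 884)) (T.l 1024)))) (T.a (T.a (T.l 816) (T.a (T.a (T.l 816) (T.l 816)) (T.a (T.l 816) (T.l 816)))) (T.a (T.a (T.a (T.l 816) (T.l 884)) (T.a (T.a (T.l 816) (T.l 820)) (T.a (T.l 816) (T.l 816)))) (T.a (T.c (T.l 1024) (T.a (T.l 884) (T.l 884))) (T.l 1024))))))), by decide +kernel⟩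

def A022E_002_1_63_1 :
    ∃ t, chk3 (onCell 0 50331648 0 1073741824 50331648 16777216 (corTK [[⟨0, 0, 1, 25165824⟩, ⟨1, 1, 0, 8388608⟩, ⟨2, 1, 1, 25165824⟩, ⟨0, 0, 0, 83886080⟩, ⟨0, 1, 0, 1040187392⟩, ⟨2, 1, 0, 83886080⟩, ⟨2, 2, 0, 1040187392⟩]] true 1 c0F cA022E gF0q0 gF0q2 gF2q2 gF3q2 true false)) t 1 63 1 = true :=
  ⟨(T.b (T.b (T.b (T.a (T.a (T.l 816) (T.a (T.a (T.l 816) (T.l 820)) (T.a (T.l 816) (T.l 816)))) (T.a (T.a (T.a (T.l 816) (T.l 884)) (T.a (T.a (T.l 816) (T.l 884)) (T.a (T.l 820) (T.l 820)))) (T.a (T.c (T.l 1024) (T.a (T.l 884) (T.l 884))) (T.l 1024)))) (T.a (T.a (T.l 816) (T.a (T.a (T.l 816) (T.l 884)) (T.a (T.l 820) (T.l 820)))) (T.a (T.a (T.a (T.l 820) (T.c (T.l 820) (T.l 816))) (T.a (T.a (T.l 816) (T.l 884)) (T.a (T.l 884) (T.l 884)))) (T.a (T.c (T.l 1024) (T.a (T.c (T.l 884)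 (T.l 884)) (T.l 884))) (T.l 1024))))) (T.b (T.a (T.a (T.l 816) (T.a (T.a (T.l 816) (T.c (T.l 816) (T.l 816))) (T.a (T.l 884) (T.l 884)))) (T.a (T.a (T.a (T.l 884) (T.c (T.l 884) (T.l 820))) (T.a (T.a (T.l 816) (T.c (T.l 884) (T.l 820))) (T.a (T.l 884) (T.l 884)))) (T.a (T.c (T.l 1024) (T.a (T.c (T.l 884) (T.l 884)) (T.l 884))) (T.l 1024)))) (T.a (T.a (T.l 816) (T.a (T.a (T.l 880) (T.c (T.l 880) (T.l 816))) (T.a (T.c (T.l 816) (T.l 816)) (T.c (T.l 820) (T.l 816))))) (T.a (T.a (T.a (T.c (T.l 820) (T.l 816)) (T.c (T.l 884) (T.l 884))) (T.a (T.a (T.l 884) (T.c (T.l 884) (T.l 884))) (T.a (T.c (T.l 1024) (T.l 820)) (T.l 884)))) (T.a (T.c (T.l 1024) (T.a (T.a (T.l 820) (T.l 884)) (T.c (T.l 1024) (T.l 884)))) (T.l 1024)))))) (T.b (T.b (T.a (T.a (T.l 816) (T.a (T.a (T.c (T.l 880) (T.l 816)) (T.a (T.l 816)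 (T.l 816))) (T.a (T.c (T.l 884) (T.l 816)) (T.c (T.l 884) (T.l 820))))) (T.a (T.a (T.a (T.c (T.l 884) (T.l 820)) (T.a (T.l 816) (T.l 884))) (T.a (T.a (T.l 884) (T.a (T.l 884) (T.l 884))) (T.c (T.l 1024) (T.a (T.l 884) (T.l 884))))) (T.a (T.c (T.l 1024) (T.a (T.a (T.l 884) (T.l 884)) (T.a (T.l 884) (T.l 884)))) (T.l 1024)))) (T.a (T.a (T.l 816) (T.a (T.a (T.a (T.l 816) (T.l 816)) (T.a (T.l 880) (T.l 816))) (T.a (T.a (T.l 816) (T.l 816)) (T.a (T.l 816) (T.l 880))))) (T.c (T.a (T.a (T.a (T.c (T.l 884) (T.l 884)) (T.a (T.l 816) (T.l 884))) (T.a (T.a (T.l 884) (T.a (T.l 884) (T.l 884))) (T.l 1024))) (T.l 1024)) (T.a (T.a (T.a (T.l 884) (T.c (T.l 884) (T.l 884))) (T.a (T.a (T.l 884) (T.a (T.l 884) (T.l 820))) (T.a (T.c (T.l 884) (T.l 884)) (T.l 884)))) (T.a (T.a (T.a (T.l 884) (T.l 884)) (T.a (T.l 884)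 (T.l 1024))) (T.l 1024)))))) (T.b (T.a (T.a (T.l 816) (T.a (T.a (T.a (T.l 816) (T.l 816)) (T.a (T.c (T.l 880) (T.l 816)) (T.c (T.l 880) (T.l 816)))) (T.a (T.a (T.c (T.l 816) (T.l 816)) (T.c (T.l 816) (T.l 816))) (T.a (T.c (T.l 880) (T.l 816)) (T.c (T.l 880) (T.l 816)))))) (T.c (T.a (T.a (T.a (T.a (T.l 880) (T.l 884)) (T.a (T.l 884) (T.c (T.l 884) (T.l 884)))) (T.a (T.a (T.c (T.l 884) (T.l 884)) (T.a (T.l 884) (T.l 884))) (T.l 1024))) (T.l 1024)) (T.b (T.a (T.a (T.a (T.l 884) (T.a (T.l 816) (T.l 884))) (T.a (T.a (T.l 884) (T.a (T.l 884) (T.l 884))) (T.a (T.c (T.l 884) (T.l 884)) (T.c (T.l 884) (T.l 884))))) (T.a (T.a (T.a (T.c (T.l 884) (T.l 884)) (T.l 884)) (T.a (T.l 884) (T.l 1024))) (T.l 1024))) (T.a (T.a (T.a (T.c (T.l 884) (T.l 884)) (T.a (T.l 816) (T.l 884))) (T.a (T.a (T.l 884) (T.a (T.l 884)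 (T.l 884))) (T.a (T.a (T.l 884) (T.l 884)) (T.a (T.l 884) (T.l 884))))) (T.a (T.a (T.a (T.a (T.l 884) (T.l 884)) (T.c (T.l 1024) (T.l 884))) (T.a (T.c (T.l 1024) (T.l 884)) (T.l 1024))) (T.l 1024)))))) (T.a (T.a (T.a (T.l 816) (T.l 816)) (T.a (T.a (T.a (T.l 816) (T.a (T.l 816) (T.l 880))) (T.a (T.c (T.a (T.c (T.l 880) (T.l 816)) (T.l 880)) (T.l 880)) (T.c (T.a (T.l 880) (T.l 880)) (T.l 816)))) (T.a (T.a (T.c (T.c (T.l 880) (T.l 816)) (T.l 816)) (T.c (T.c (T.l 880) (T.l 816)) (T.l 816))) (T.a (T.c (T.c (T.l 880) (T.l 880)) (T.l 816)) (T.c (T.c (T.l 880) (T.l 880)) (T.l 880)))))) (T.c (T.a (T.a (T.a (T.a (T.a (T.l 880) (T.l 880)) (T.a (T.l 884) (T.l 884))) (T.a (T.a (T.l 884) (T.a (T.l 884) (T.l 884))) (T.a (T.c (T.b (T.l 884) (T.l 884)) (T.l 884)) (T.c (T.c (T.l 884) (T.l 884)) (T.l 884))))) (T.a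 (T.a (T.c (T.a (T.c (T.l 884) (T.l 884)) (T.c (T.l 884) (T.l 884))) (T.a (T.l 884) (T.l 884))) (T.a (T.c (T.a (T.l 884) (T.b (T.l 884) (T.l 884))) (T.a (T.l 884) (T.l 884))) (T.l 1024))) (T.l 1024))) (T.l 1024)) (T.b (T.a (T.a (T.a (T.a (T.l 816) (T.l 880)) (T.a (T.l 884) (T.c (T.l 884) (T.l 884)))) (T.a (T.a (T.c (T.l 884) (T.l 884)) (T.a (T.c (T.l 884) (T.l 884)) (T.l 884))) (T.a (T.a (T.l 884) (T.l 884)) (T.a (T.l 884) (T.l 884))))) (T.a (T.a (T.a (T.a (T.l 884) (T.l 884)) (T.a (T.l 884) (T.l 884))) (T.a (T.a (T.l 884) (T.l 884)) (T.l 1024))) (T.l 1024))) (T.a (T.a (T.a (T.a (T.l 880) (T.l 884)) (T.a (T.a (T.l 880) (T.l 884)) (T.a (T.l 884) (T.l 884)))) (T.a (T.a (T.a (T.l 884) (T.l 884)) (T.a (T.a (T.l 884) (T.l 884)) (T.a (T.l 884) (T.l 884)))) (T.a (T.a (T.a (T.l 884) (T.l 884)) (T.a (T.l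 884) (T.l 884))) (T.a (T.a (T.l 884) (T.l 884)) (T.a (T.l 884) (T.l 884)))))) (T.a (T.a (T.a (T.a (T.a (T.l 884) (T.l 884)) (T.c (T.l 1024) (T.l 884))) (T.c (T.l 1024) (T.a (T.l 884) (T.l 884)))) (T.a (T.c (T.l 1024) (T.a (T.l 884) (T.l 884))) (T.l 1024))) (T.l 1024))))))))), by decide +kernel⟩

theorem A022E_002_1_31_1 :
    ∃ t, chk3 (onCell 0 50331648 0 1073741824 50331648 16777216 (corTK [[⟨0, 0, 1, 25165824⟩, ⟨1, 1, 0, 8388608⟩, ⟨2, 1, 1, 25165824⟩, ⟨0, 0, 0, 83886080⟩, ⟨0, 1, 0, 1040187392⟩, ⟨2, 1, 0, 83886080⟩, ⟨2, 2, 0, 1040187392⟩]] true 1 c0F cA022E gF0q0 gF0q2 gF2q2 gF3q2 true false)) t 1 31 1 = true :=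
  ex3_b A022E_002_1_62_1 A022E_002_1_63_1
theorem A022E_002_1_15_1 :
    ∃ t, chk3 (onCell 0 50331648 0 1073741824 50331648 16777216 (corTK [[⟨0, 0, 1, 25165824⟩, ⟨1, 1, 0, 8388608⟩, ⟨2, 1, 1, 25165824⟩, ⟨0, 0, 0, 83886080⟩, ⟨0, 1, 0, 1040187392⟩, ⟨2, 1, 0, 83886080⟩, ⟨2, 2, 0, 1040187392⟩]] true 1 c0F cA022E gF0q0 gF0q2 gF2q2 gF3q2 true false)) t 1 15 1 = true :=
  ex3_b A022E_002_1_30_1 A022E_002_1_31_1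
theorem A022E_002_1_7_1 :
    ∃ t, chk3 (onCell 0 50331648 0 1073741824 50331648 16777216 (corTK [[⟨0, 0, 1, 25165824⟩, ⟨1, 1, 0, 8388608⟩, ⟨2, 1, 1, 25165824⟩, ⟨0, 0, 0, 83886080⟩, ⟨0, 1, 0, 1040187392⟩, ⟨2, 1, 0, 83886080⟩, ⟨2, 2, 0, 1040187392⟩]] true 1 c0F cA022E gF0q0 gF0q2 gF2q2 gF3q2 true false)) t 1 7 1 = true :=
  ex3_b A022E_002_1_14_1 A022E_002_1_15_1
theorem A022E_002_1_3_1 :
    ∃ t, chk3 (onCell 0 50331648 0 1073741824 50331648 16777216 (corTK [[⟨0, 0, 1, 25165824⟩, ⟨1, 1, 0, 8388608⟩, ⟨2, 1, 1, 25165824⟩, ⟨0, 0, 0, 83886080⟩, ⟨0, 1, 0, 1040187392⟩, ⟨2, 1, 0, 83886080⟩, ⟨2, 2, 0, 1040187392⟩]] true 1 c0F cA022E gF0q0 gF0q2 gF2q2 gF3q2 true false)) t 1 3 1 = true :=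
  ex3_b A022E_002_1_6_1 A022E_002_1_7_1
theorem A022E_002 :
    ∃ t, chk3 (onCell 0 50331648 0 1073741824 50331648 16777216 (corTK [[⟨0, 0, 1, 25165824⟩, ⟨1, 1, 0, 8388608⟩, ⟨2, 1, 1, 25165824⟩, ⟨0, 0, 0, 83886080⟩, ⟨0, 1, 0, 1040187392⟩, ⟨2, 1, 0, 83886080⟩, ⟨2, 2, 0, 1040187392⟩]] true 1 c0F cA022E gF0q0 gF0q2 gF2q2 gF3q2 true false)) t 1 1 1 = true :=
  ex3_b A022E_002_1_2_1 A022E_002_1_3_1

def A022E_010 :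
    ∃ t, chk3 (onCell 0 50331648 0 1073741824 50331648 16777216 (corTK [[⟨0, 0, 1, 33554432⟩, ⟨1, 1, 0, 16777216⟩, ⟨2, 1, 1, 33554432⟩, ⟨0, 0, 0, 83886080⟩, ⟨0, 1, 0, 1040187392⟩, ⟨2, 1, 0, 83886080⟩, ⟨2, 2, 0, 1040187392⟩]] true 1 c0F cA022E gF0q0 gF1q2 gF0q2 gF1q2 true true)) t 1 1 1 = true :=
  ⟨(T.l 2), by decide +kernel⟩

def A022E_011 :
    ∃ t, chk3 (onCell 0 50331648 0 1073741824 50331648 16777216 (corTK [[⟨0, 0, 1, 33554432⟩, ⟨1, 1, 0, 16777216⟩, ⟨2, 1, 1, 33554432⟩, ⟨0, 0, 0, 83886080⟩, ⟨0, 1, 0, 1040187392⟩, ⟨2, 1, 0, 83886080⟩, ⟨2, 2, 0, 1040187392⟩]] true 1 c0F cA022E gF0q0 gF1q2 gF1q2 gF2q2 true true)) t 1 1 1 = true :=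
  ⟨(T.b (T.l 2) (T.b (T.l 2) (T.b (T.l 2) (T.b (T.l 2) (T.b (T.l 2) (T.b (T.l 2) (T.b (T.l 2) (T.b (T.l 2) (T.a (T.c (T.a (T.l 880) (T.b (T.l 2) (T.c (T.b (T.l 2) (T.a (T.c (T.b (T.l 2) (T.a (T.a (T.l 816) (T.l 880)) (T.c (T.b (T.l 2) (T.a (T.a (T.l 880) (T.l 880)) (T.a (T.l 816) (T.l 816)))) (T.b (T.l 2) (T.a (T.a (T.l 880) (T.l 816)) (T.a (T.l 816) (T.l 816))))))) (T.b (T.l 2) (T.a (T.a (T.l 816) (T.l 816)) (T.c (T.b (T.l 2) (T.a (T.a (T.l 816) (T.l 816)) (T.a (T.l 816) (T.l 816)))) (T.b (T.l 2) (T.a (T.a (T.l 816) (T.l 816)) (T.a (T.l 816) (T.l 816)))))))) (T.c (T.b (T.l 2) (T.a (T.c (T.b (T.l 2) (T.a (T.a (T.l 816) (T.l 816)) (T.a (T.l 816) (T.l 816)))) (T.b (T.l 2) (T.a (T.a (T.l 816) (T.l 816)) (T.a (T.l 816) (T.l 816))))) (T.c (T.b (T.l 2) (T.a (T.a (T.l 816) (T.l 880)) (T.a (T.l 880) (T.l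 880)))) (T.a (T.l 880) (T.l 880))))) (T.b (T.l 2) (T.a (T.c (T.a (T.a (T.l 816) (T.l 816)) (T.l 880)) (T.a (T.l 880) (T.l 880))) (T.c (T.a (T.l 880) (T.l 880)) (T.a (T.l 880) (T.l 880)))))))) (T.b (T.l 2) (T.a (T.c (T.b (T.l 2) (T.a (T.a (T.l 816) (T.l 816)) (T.c (T.b (T.l 2) (T.a (T.a (T.l 816) (T.l 816)) (T.a (T.l 816) (T.l 816)))) (T.a (T.a (T.l 816) (T.l 816)) (T.l 880))))) (T.b (T.l 2) (T.a (T.a (T.l 816) (T.l 816)) (T.c (T.a (T.a (T.l 816) (T.l 816)) (T.l 880)) (T.a (T.a (T.l 816) (T.l 816)) (T.l 880)))))) (T.c (T.b (T.l 2) (T.a (T.a (T.a (T.l 816) (T.l 816)) (T.l 880)) (T.a (T.l 880) (T.l 880)))) (T.b (T.l 2) (T.a (T.a (T.l 880) (T.l 880)) (T.a (T.l 880) (T.l 880)))))))))) (T.a (T.l 816) (T.b (T.l 2) (T.c (T.b (T.l 2) (T.a (T.c (T.b (T.l 2) (T.a (T.a (T.l 816) (T.l 816)) (T.a (T.a (T.l 816)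 (T.l 816)) (T.l 880)))) (T.b (T.l 2) (T.a (T.a (T.l 816) (T.l 816)) (T.a (T.l 880) (T.l 816))))) (T.c (T.b (T.l 2) (T.a (T.a (T.l 816) (T.l 816)) (T.a (T.l 880) (T.l 880)))) (T.b (T.l 2) (T.a (T.a (T.l 816) (T.l 816)) (T.a (T.l 816) (T.l 816))))))) (T.b (T.l 2) (T.a (T.c (T.b (T.l 2) (T.a (T.a (T.l 816) (T.l 816)) (T.a (T.l 880) (T.l 816)))) (T.b (T.l 2) (T.a (T.a (T.l 816) (T.l 816)) (T.a (T.l 816) (T.l 816))))) (T.c (T.b (T.l 2) (T.a (T.a (T.l 816) (T.l 816)) (T.a (T.l 816) (T.l 816)))) (T.b (T.l 2) (T.a (T.a (T.l 816) (T.l 816)) (T.a (T.l 816) (T.l 816))))))))))) (T.a (T.c (T.b (T.l 2) (T.c (T.b (T.l 2) (T.a (T.c (T.b (T.l 2) (T.a (T.c (T.b (T.l 2) (T.a (T.a (T.l 880) (T.l 880)) (T.a (T.l 880) (T.l 884)))) (T.b (T.l 2) (T.a (T.a (T.l 880) (T.l 880)) (T.a (T.l 880) (T.l 884))))) (T.c (T.b (T.l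 2) (T.a (T.a (T.l 884) (T.l 884)) (T.a (T.l 884) (T.l 884)))) (T.b (T.l 2) (T.a (T.a (T.l 884) (T.l 884)) (T.a (T.l 884) (T.l 884))))))) (T.b (T.l 2) (T.a (T.c (T.a (T.l 884) (T.a (T.l 880) (T.l 880))) (T.a (T.l 884) (T.l 884))) (T.c (T.b (T.l 2) (T.a (T.a (T.l 884) (T.l 884)) (T.a (T.l 884) (T.l 884)))) (T.b (T.l 2) (T.a (T.a (T.l 884) (T.l 884)) (T.a (T.l 884) (T.l 884)))))))) (T.a (T.c (T.b (T.l 2) (T.c (T.b (T.l 2) (T.a (T.a (T.l 884) (T.l 884)) (T.a (T.a (T.l 884) (T.l 884)) (T.l 1024)))) (T.b (T.l 2) (T.a (T.a (T.l 884) (T.l 884)) (T.a (T.a (T.l 884) (T.l 884)) (T.l 1024)))))) (T.b (T.l 2) (T.c (T.b (T.l 2) (T.a (T.a (T.l 884) (T.l 884)) (T.a (T.a (T.l 884) (T.l 884)) (T.l 1024)))) (T.b (T.l 2) (T.a (T.a (T.l 884) (T.l 884)) (T.a (T.a (T.l 884) (T.l 884)) (T.l 1024))))))) (T.l 1024)))) (T.b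 (T.l 2) (T.a (T.c (T.b (T.l 2) (T.a (T.a (T.l 884) (T.a (T.l 880) (T.l 880))) (T.c (T.b (T.l 2) (T.a (T.a (T.l 884) (T.l 884)) (T.a (T.l 884) (T.l 884)))) (T.b (T.l 2) (T.a (T.a (T.l 880) (T.l 884)) (T.a (T.l 884) (T.l 884))))))) (T.b (T.l 2) (T.a (T.a (T.l 884) (T.l 884)) (T.c (T.b (T.l 2) (T.a (T.a (T.l 880) (T.l 884)) (T.a (T.l 884) (T.l 884)))) (T.b (T.l 2) (T.a (T.a (T.l 880) (T.l 884)) (T.a (T.l 884) (T.l 884)))))))) (T.a (T.c (T.b (T.l 2) (T.c (T.b (T.l 2) (T.a (T.a (T.l 884) (T.l 884)) (T.a (T.a (T.l 884) (T.l 884)) (T.l 1024)))) (T.b (T.l 2) (T.a (T.a (T.l 884) (T.l 884)) (T.a (T.a (T.l 884) (T.l 884)) (T.l 1024)))))) (T.b (T.l 2) (T.c (T.b (T.l 2) (T.a (T.a (T.l 884) (T.l 884)) (T.a (T.a (T.l 884) (T.l 884)) (T.l 1024)))) (T.b (T.l 2) (T.a (T.a (T.l 884) (T.l 884)) (T.a (T.a (T.l 884)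 (T.l 884)) (T.l 1024))))))) (T.l 1024)))))) (T.b (T.l 2) (T.c (T.b (T.l 2) (T.a (T.c (T.b (T.l 2) (T.a (T.a (T.l 884) (T.l 884)) (T.c (T.b (T.l 2) (T.a (T.a (T.l 880) (T.l 880)) (T.a (T.l 884) (T.l 884)))) (T.a (T.l 884) (T.a (T.l 884) (T.l 884)))))) (T.b (T.l 2) (T.a (T.a (T.l 880) (T.l 884)) (T.c (T.a (T.l 884) (T.a (T.l 884) (T.l 884))) (T.a (T.l 884) (T.a (T.l 880) (T.l 884))))))) (T.a (T.c (T.b (T.l 2) (T.c (T.b (T.l 2) (T.a (T.a (T.l 884) (T.l 884)) (T.a (T.a (T.l 884) (T.l 884)) (T.l 1024)))) (T.b (T.l 2) (T.a (T.a (T.l 884) (T.l 884)) (T.a (T.l 884) (T.l 1024)))))) (T.b (T.l 2) (T.c (T.b (T.l 2) (T.a (T.a (T.l 884) (T.l 884)) (T.a (T.l 884) (T.l 1024)))) (T.b (T.l 2) (T.a (T.a (T.l 884) (T.l 884)) (T.a (T.l 884) (T.l 1024))))))) (T.l 1024)))) (T.b (T.l 2) (T.a (T.c (T.b (T.l 2) (T.a (T.a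 (T.l 880) (T.l 884)) (T.a (T.l 884) (T.a (T.l 880) (T.l 884))))) (T.b (T.l 2) (T.a (T.a (T.l 816) (T.l 880)) (T.a (T.l 884) (T.a (T.l 880) (T.l 880)))))) (T.a (T.c (T.b (T.l 2) (T.c (T.a (T.l 884) (T.a (T.l 884) (T.l 1024))) (T.a (T.l 884) (T.a (T.l 884) (T.l 1024))))) (T.b (T.l 2) (T.c (T.a (T.l 884) (T.a (T.l 884) (T.l 1024))) (T.a (T.l 884) (T.a (T.l 884) (T.l 1024)))))) (T.l 1024))))))) (T.l 1024))))))))))), by decide +kernel⟩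

def A022E_012_1_2_1 :
    ∃ t, chk3 (onCell 0 50331648 0 1073741824 50331648 16777216 (corTK [[⟨0, 0, 1, 33554432⟩, ⟨1, 1, 0, 16777216⟩, ⟨2, 1, 1, 33554432⟩, ⟨0, 0, 0, 83886080⟩, ⟨0, 1, 0, 1040187392⟩, ⟨2, 1, 0, 83886080⟩, ⟨2, 2, 0, 1040187392⟩]] true 1 c0F cA022E gF0q0 gF1q2 gF2q2 gF3q2 true false)) t 1 2 1 = true :=
  ⟨(T.b (T.a (T.a (T.b (T.b (T.b (T.a (T.b (T.l 204) (T.l 204)) (T.l 204)) (T.l 204)) (T.l 204)) (T.l 204)) (T.a (T.a (T.l 220) (T.b (T.b (T.b (T.l 220) (T.l 204)) (T.l 204)) (T.b (T.l 204) (T.l 204)))) (T.b (T.a (T.b (T.l 204) (T.l 204)) (T.b (T.l 204) (T.l 204))) (T.a (T.l 204) (T.l 204))))) (T.a (T.a (T.b (T.a (T.l 204) (T.l 204)) (T.b (T.l 204) (T.l 204))) (T.a (T.b (T.l 220) (T.l 204)) (T.b (T.l 204) (T.l 204)))) (T.a (T.b (T.a (T.l 204) (T.l 204)) (T.l 220)) (T.b (T.l 204) (T.l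 204))))) (T.b (T.a (T.a (T.l 0) (T.a (T.l 0) (T.b (T.l 204) (T.l 0)))) (T.a (T.a (T.l 0) (T.a (T.l 0) (T.l 0))) (T.a (T.b (T.l 0) (T.l 16)) (T.l 20)))) (T.a (T.a (T.l 816) (T.a (T.l 0) (T.l 0))) (T.a (T.a (T.b (T.l 0) (T.l 0)) (T.a (T.l 4) (T.l 0))) (T.a (T.b (T.l 16) (T.l 16)) (T.l 20)))))), by decide +kernel⟩

def A022E_012_1_6_1 :
    ∃ t, chk3 (onCell 0 50331648 0 1073741824 50331648 16777216 (corTK [[⟨0, 0, 1, 33554432⟩, ⟨1, 1, 0, 16777216⟩, ⟨2, 1, 1, 33554432⟩, ⟨0, 0, 0, 83886080⟩, ⟨0, 1, 0, 1040187392⟩, ⟨2, 1, 0, 83886080⟩, ⟨2, 2, 0, 1040187392⟩]] true 1 c0F cA022E gF0q0 gF1q2 gF2q2 gF3q2 true false)) t 1 6 1 = true :=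
  ⟨(T.b (T.b (T.a (T.a (T.l 816) (T.a (T.l 816) (T.l 816))) (T.a (T.a (T.l 816) (T.a (T.l 0) (T.l 0))) (T.a (T.l 4) (T.l 0)))) (T.b (T.a (T.a (T.l 816) (T.a (T.l 816) (T.l 816))) (T.a (T.a (T.l 816) (T.a (T.l 0) (T.l 816))) (T.a (T.l 0) (T.l 0)))) (T.a (T.a (T.l 816) (T.a (T.l 816) (T.l 816))) (T.a (T.a (T.l 816) (T.a (T.l 816) (T.l 816))) (T.a (T.l 0) (T.l 0)))))) (T.b (T.b (T.a (T.a (T.l 816) (T.a (T.l 816) (T.l 816))) (T.a (T.a (T.l 816) (T.a (T.l 816) (T.l 816))) (T.a (T.l 4) (T.l 0)))) (T.b (T.a (T.a (T.l 816) (T.a (T.l 816) (T.l 816))) (T.a (T.a (T.l 816) (T.a (T.l 816) (T.l 816))) (T.a (T.l 0) (T.l 0)))) (T.a (T.a (T.l 816) (T.a (T.l 816) (T.l 816))) (T.a (T.a (T.l 816) (T.a (T.l 816) (T.l 816))) (T.a (T.l 4) (T.l 816)))))) (T.b (T.b (T.a (T.a (T.l 816) (T.a (T.l 816) (T.l 816))) (T.a (T.a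 (T.l 816) (T.a (T.l 816) (T.l 816))) (T.a (T.l 4) (T.l 816)))) (T.a (T.a (T.l 816) (T.a (T.l 816) (T.l 816))) (T.a (T.a (T.l 816) (T.a (T.l 816) (T.l 816))) (T.a (T.l 4) (T.l 816))))) (T.b (T.a (T.a (T.l 816) (T.a (T.l 816) (T.l 816))) (T.a (T.a (T.l 816) (T.a (T.l 816) (T.l 816))) (T.a (T.l 4) (T.l 816)))) (T.a (T.a (T.l 816) (T.a (T.l 816) (T.l 816))) (T.a (T.a (T.l 816) (T.a (T.l 816) (T.l 816))) (T.a (T.l 820) (T.l 816)))))))), by decide +kernel⟩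

def A022E_012_1_14_1 :
    ∃ t, chk3 (onCell 0 50331648 0 1073741824 50331648 16777216 (corTK [[⟨0, 0, 1, 33554432⟩, ⟨1, 1, 0, 16777216⟩, ⟨2, 1, 1, 33554432⟩, ⟨0, 0, 0, 83886080⟩, ⟨0, 1, 0, 1040187392⟩, ⟨2, 1, 0, 83886080⟩, ⟨2, 2, 0, 1040187392⟩]] true 1 c0F cA022E gF0q0 gF1q2 gF2q2 gF3q2 true false)) t 1 14 1 = true :=
  ⟨(T.b (T.b (T.b (T.a (T.a (T.l 816) (T.a (T.c (T.l 820) (T.l 820)) (T.l 816))) (T.a (T.a (T.l 816) (T.a (T.l 816) (T.l 816))) (T.a (T.l 820) (T.l 816)))) (T.a (T.a (T.l 816) (T.a (T.a (T.l 816) (T.l 816)) (T.l 816))) (T.a (T.a (T.l 816) (T.a (T.l 816) (T.l 816))) (T.a (T.l 820) (T.l 1024))))) (T.b (T.a (T.a (T.l 816) (T.a (T.a (T.l 816) (T.l 816)) (T.l 816))) (T.a (T.a (T.l 816) (T.a (T.l 816) (T.l 816))) (T.a (T.b (T.l 820) (T.l 820)) (T.l 1024)))) (T.a (T.a (T.l 816) (T.a (T.a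 (T.l 816) (T.l 816)) (T.l 816))) (T.a (T.a (T.l 816) (T.a (T.l 816) (T.l 816))) (T.a (T.c (T.l 820) (T.l 820)) (T.l 1024)))))) (T.b (T.b (T.b (T.a (T.a (T.l 816) (T.a (T.a (T.l 816) (T.l 816)) (T.l 816))) (T.a (T.a (T.l 816) (T.a (T.l 816) (T.l 816))) (T.a (T.c (T.l 820) (T.l 820)) (T.l 1024)))) (T.a (T.a (T.l 816) (T.a (T.a (T.l 816) (T.l 816)) (T.l 816))) (T.a (T.a (T.l 816) (T.a (T.l 816) (T.l 816))) (T.a (T.c (T.l 820) (T.l 820)) (T.l 1024))))) (T.b (T.a (T.a (T.l 816) (T.a (T.a (T.l 816) (T.l 816)) (T.l 820))) (T.a (T.a (T.l 816) (T.a (T.l 816) (T.l 816))) (T.a (T.c (T.l 820) (T.l 820)) (T.l 1024)))) (T.a (T.a (T.l 816) (T.a (T.a (T.l 816) (T.l 816)) (T.l 820))) (T.a (T.a (T.l 816) (T.a (T.l 820) (T.l 816))) (T.a (T.c (T.l 820) (T.l 820)) (T.l 1024)))))) (T.b (T.b (T.a (T.a (T.l 816) (T.a (T.a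 (T.l 816) (T.l 816)) (T.l 820))) (T.a (T.a (T.l 816) (T.a (T.l 820) (T.l 816))) (T.a (T.c (T.l 820) (T.l 820)) (T.l 1024)))) (T.a (T.a (T.l 816) (T.a (T.a (T.l 816) (T.l 816)) (T.l 820))) (T.a (T.a (T.l 816) (T.a (T.l 820) (T.l 816))) (T.a (T.a (T.l 816) (T.l 1024)) (T.l 1024))))) (T.b (T.a (T.a (T.l 816) (T.a (T.a (T.l 816) (T.l 816)) (T.l 820))) (T.a (T.a (T.l 816) (T.a (T.l 820) (T.l 816))) (T.a (T.a (T.l 816) (T.l 1024)) (T.l 1024)))) (T.a (T.a (T.l 816) (T.a (T.a (T.l 816) (T.l 816)) (T.c (T.l 820) (T.l 820)))) (T.a (T.a (T.l 816) (T.a (T.l 820) (T.l 816))) (T.a (T.a (T.l 816) (T.l 1024)) (T.l 1024)))))))), by decide +kernel⟩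

def A022E_012_1_30_1 :
    ∃ t, chk3 (onCell 0 50331648 0 1073741824 50331648 16777216 (corTK [[⟨0, 0, 1, 33554432⟩, ⟨1, 1, 0, 16777216⟩, ⟨2, 1, 1, 33554432⟩, ⟨0, 0, 0, 83886080⟩, ⟨0, 1, 0, 1040187392⟩, ⟨2, 1, 0, 83886080⟩, ⟨2, 2, 0, 1040187392⟩]] true 1 c0F cA022E gF0q0 gF1q2 gF2q2 gF3q2 true false)) t 1 30 1 = true :=
  ⟨(T.b (T.b (T.b (T.a (T.a (T.l 816) (T.a (T.a (T.l 816) (T.l 816)) (T.c (T.l 820) (T.l 820)))) (T.a (T.a (T.l 820) (T.a (T.l 820) (T.l 816))) (T.a (T.a (T.l 816) (T.l 1024)) (T.l 1024)))) (T.a (T.a (T.l 816) (T.a (T.a (T.l 816) (T.l 816)) (T.c (T.l 820) (T.l 820)))) (T.a (T.a (T.l 820) (T.a (T.c (T.l 820) (T.l 820)) (T.l 820))) (T.a (T.a (T.l 816) (T.l 1024)) (T.l 1024))))) (T.b (T.a (T.a (T.l 816) (T.a (T.a (T.l 816) (T.l 816)) (T.c (T.l 820) (T.l 820)))) (T.a (T.a (T.l 820)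 (T.a (T.c (T.l 820) (T.l 820)) (T.l 820))) (T.l 1024))) (T.a (T.a (T.l 816) (T.a (T.a (T.l 816) (T.l 816)) (T.a (T.l 816) (T.l 816)))) (T.a (T.a (T.l 820) (T.a (T.c (T.l 820) (T.l 820)) (T.l 820))) (T.l 1024))))) (T.b (T.b (T.a (T.a (T.l 816) (T.a (T.a (T.l 816) (T.l 816)) (T.a (T.l 816) (T.l 816)))) (T.a (T.a (T.l 820) (T.a (T.c (T.l 820) (T.l 820)) (T.l 820))) (T.l 1024))) (T.a (T.a (T.l 816) (T.a (T.a (T.l 816) (T.l 816)) (T.a (T.l 816) (T.l 816)))) (T.a (T.a (T.c (T.l 820) (T.l 820)) (T.a (T.a (T.l 816) (T.l 816)) (T.l 820))) (T.l 1024)))) (T.b (T.b (T.a (T.a (T.l 816) (T.a (T.a (T.l 816) (T.l 816)) (T.a (T.l 816) (T.l 816)))) (T.a (T.a (T.c (T.l 820) (T.l 820)) (T.a (T.a (T.l 816) (T.l 816)) (T.l 820))) (T.l 1024))) (T.a (T.a (T.l 816) (T.a (T.a (T.l 816) (T.l 816)) (T.a (T.l 816) (T.l 816))))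 (T.a (T.a (T.c (T.l 820) (T.l 820)) (T.a (T.a (T.l 816) (T.l 816)) (T.l 820))) (T.l 1024)))) (T.b (T.a (T.a (T.l 816) (T.a (T.a (T.l 816) (T.l 816)) (T.a (T.l 816) (T.l 816)))) (T.a (T.a (T.c (T.l 820) (T.l 820)) (T.a (T.a (T.l 816) (T.l 816)) (T.c (T.l 820) (T.l 820)))) (T.l 1024))) (T.a (T.a (T.l 816) (T.a (T.a (T.l 816) (T.l 816)) (T.a (T.l 816) (T.l 816)))) (T.a (T.a (T.c (T.l 820) (T.l 820)) (T.a (T.a (T.l 816) (T.l 816)) (T.c (T.l 820) (T.l 820)))) (T.l 1024))))))), by decide +kernel⟩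

def A022E_012_1_62_1 :
    ∃ t, chk3 (onCell 0 50331648 0 1073741824 50331648 16777216 (corTK [[⟨0, 0, 1, 33554432⟩, ⟨1, 1, 0, 16777216⟩, ⟨2, 1, 1, 33554432⟩, ⟨0, 0, 0, 83886080⟩, ⟨0, 1, 0, 1040187392⟩, ⟨2, 1, 0, 83886080⟩, ⟨2, 2, 0, 1040187392⟩]] true 1 c0F cA022E gF0q0 gF1q2 gF2q2 gF3q2 true false)) t 1 62 1 = true :=
  ⟨(T.b (T.b (T.b (T.a (T.a (T.l 816) (T.a (T.a (T.l 816) (T.l 816)) (T.a (T.l 816) (T.l 816)))) (T.a (T.a (T.c (T.l 820) (T.l 820)) (T.a (T.a (T.l 816) (T.l 816)) (T.c (T.l 820) (T.l 820)))) (T.l 1024))) (T.a (T.a (T.l 816) (T.a (T.a (T.l 816) (T.l 816)) (T.a (T.l 816) (T.l 816)))) (T.a (T.a (T.a (T.l 816) (T.l 816)) (T.a (T.a (T.l 816) (T.l 816)) (T.c (T.l 820) (T.l 820)))) (T.l 1024)))) (T.b (T.a (T.a (T.l 816) (T.a (T.a (T.l 816) (T.l 816)) (T.a (T.l 816) (T.l 816)))) (T.a (T.a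 (T.a (T.l 816) (T.l 820)) (T.a (T.a (T.l 816) (T.l 820)) (T.c (T.l 820) (T.l 820)))) (T.l 1024))) (T.a (T.a (T.l 816) (T.a (T.a (T.l 816) (T.l 816)) (T.a (T.l 816) (T.l 816)))) (T.a (T.a (T.a (T.l 816) (T.l 820)) (T.a (T.a (T.l 816) (T.l 820)) (T.c (T.l 820) (T.l 820)))) (T.l 1024))))) (T.b (T.b (T.a (T.a (T.l 816) (T.a (T.a (T.l 816) (T.l 820)) (T.a (T.l 816) (T.l 816)))) (T.a (T.a (T.a (T.l 816) (T.l 820)) (T.a (T.a (T.l 816) (T.l 820)) (T.a (T.l 820) (T.l 1024)))) (T.l 1024))) (T.a (T.a (T.l 816) (T.a (T.a (T.l 816) (T.l 820)) (T.a (T.l 820) (T.l 816)))) (T.a (T.a (T.a (T.l 816) (T.l 820)) (T.a (T.a (T.l 816) (T.l 820)) (T.a (T.l 820) (T.l 1024)))) (T.l 1024)))) (T.b (T.a (T.a (T.l 816) (T.a (T.a (T.l 816) (T.l 820)) (T.a (T.l 820) (T.l 820)))) (T.a (T.a (T.a (T.l 820) (T.l 820)) (T.a (T.a (T.l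 816) (T.l 820)) (T.a (T.l 820) (T.l 1024)))) (T.l 1024))) (T.a (T.a (T.l 816) (T.a (T.a (T.l 816) (T.c (T.l 816) (T.l 816))) (T.a (T.l 820) (T.l 820)))) (T.a (T.a (T.a (T.l 820) (T.c (T.l 820) (T.l 820))) (T.a (T.a (T.l 816) (T.l 820)) (T.a (T.l 820) (T.l 1024)))) (T.l 1024)))))), by decide +kernel⟩

def A022E_012_1_63_1 :
    ∃ t, chk3 (onCell 0 50331648 0 1073741824 50331648 16777216 (corTK [[⟨0, 0, 1, 33554432⟩, ⟨1, 1, 0, 16777216⟩, ⟨2, 1, 1, 33554432⟩, ⟨0, 0, 0, 83886080⟩, ⟨0, 1, 0, 1040187392⟩, ⟨2, 1, 0, 83886080⟩, ⟨2, 2, 0, 1040187392⟩]] true 1 c0F cA022E gF0q0 gF1q2 gF2q2 gF3q2 true false)) t 1 63 1 = true :=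
  ⟨(T.b (T.b (T.b (T.a (T.a (T.l 816) (T.a (T.a (T.l 816) (T.c (T.l 816) (T.l 816))) (T.a (T.l 820) (T.l 820)))) (T.a (T.a (T.a (T.l 820) (T.c (T.l 820) (T.l 820))) (T.a (T.a (T.l 820) (T.l 820)) (T.a (T.l 820) (T.l 1024)))) (T.l 1024))) (T.a (T.a (T.l 816) (T.a (T.a (T.l 816) (T.c (T.l 816) (T.l 816))) (T.a (T.c (T.l 816) (T.l 816)) (T.l 820)))) (T.a (T.a (T.a (T.l 820) (T.c (T.l 820) (T.l 820))) (T.a (T.a (T.l 820) (T.c (T.l 820) (T.l 820))) (T.l 1024))) (T.l 1024)))) (T.b (T.a (T.a (T.l 816) (T.a (T.a (T.l 816) (T.c (T.l 820) (T.l 816))) (T.a (T.c (T.l 820) (T.l 816)) (T.c (T.l 820) (T.l 820))))) (T.a (T.a (T.a (T.c (T.l 820) (T.l 820)) (T.a (T.l 816) (T.l 820))) (T.a (T.a (T.l 820) (T.c (T.l 820) (T.l 820))) (T.l 1024))) (T.l 1024))) (T.a (T.a (T.l 816) (T.a (T.a (T.l 816) (T.c (T.l 820) (T.l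 820))) (T.a (T.c (T.l 820) (T.l 820)) (T.c (T.l 820) (T.l 820))))) (T.a (T.a (T.a (T.c (T.l 820) (T.l 820)) (T.a (T.l 820) (T.l 820))) (T.a (T.a (T.l 820) (T.a (T.l 820) (T.l 820))) (T.l 1024))) (T.l 1024))))) (T.b (T.b (T.a (T.a (T.l 816) (T.a (T.a (T.c (T.l 880) (T.l 816)) (T.a (T.l 816) (T.l 816))) (T.a (T.a (T.l 816) (T.l 816)) (T.a (T.l 816) (T.l 816))))) (T.a (T.a (T.a (T.a (T.l 816) (T.l 820)) (T.a (T.l 820) (T.l 820))) (T.a (T.a (T.c (T.l 820) (T.l 820)) (T.a (T.l 820) (T.l 820))) (T.l 1024))) (T.l 1024))) (T.a (T.a (T.l 816) (T.a (T.a (T.a (T.l 816) (T.l 816)) (T.a (T.l 880) (T.l 816))) (T.a (T.a (T.l 816) (T.l 816)) (T.a (T.l 816) (T.l 820))))) (T.a (T.a (T.a (T.a (T.l 820) (T.l 820)) (T.a (T.l 820) (T.c (T.l 884) (T.l 820)))) (T.a (T.a (T.c (T.l 884) (T.l 820)) (T.a (T.c (T.l 884) (T.l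 820)) (T.c (T.l 820) (T.l 820)))) (T.l 1024))) (T.l 1024)))) (T.b (T.a (T.a (T.l 816) (T.a (T.a (T.a (T.l 816) (T.l 816)) (T.a (T.c (T.l 880) (T.l 816)) (T.c (T.l 816) (T.l 816)))) (T.a (T.a (T.l 880) (T.l 880)) (T.a (T.l 884) (T.l 884))))) (T.a (T.a (T.a (T.a (T.l 884) (T.l 884)) (T.a (T.c (T.l 884) (T.l 820)) (T.a (T.l 884) (T.l 884)))) (T.a (T.a (T.c (T.c (T.l 884) (T.l 884)) (T.l 884)) (T.a (T.c (T.c (T.l 884) (T.l 884)) (T.l 884)) (T.a (T.l 884) (T.l 1024)))) (T.l 1024))) (T.l 1024))) (T.a (T.a (T.a (T.l 816) (T.l 816)) (T.c (T.b (T.a (T.a (T.a (T.l 816) (T.l 816)) (T.a (T.c (T.l 880) (T.l 816)) (T.l 880))) (T.a (T.a (T.l 880) (T.l 880)) (T.a (T.l 880) (T.l 880)))) (T.c (T.b (T.a (T.a (T.a (T.l 816) (T.l 816)) (T.a (T.c (T.l 880) (T.l 816)) (T.l 880))) (T.a (T.a (T.l 880) (T.l 880)) (T.a (T.l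 880) (T.l 880)))) (T.a (T.a (T.a (T.l 816) (T.l 880)) (T.a (T.a (T.l 880) (T.l 816)) (T.c (T.l 880) (T.l 816)))) (T.a (T.a (T.l 880) (T.l 880)) (T.a (T.l 880) (T.l 880))))) (T.b (T.a (T.a (T.a (T.l 816) (T.l 816)) (T.a (T.l 816) (T.l 816))) (T.a (T.a (T.l 816) (T.l 816)) (T.a (T.l 816) (T.l 816)))) (T.a (T.a (T.a (T.l 816) (T.l 816)) (T.a (T.l 880) (T.l 816))) (T.a (T.a (T.l 816) (T.l 816)) (T.a (T.l 816) (T.l 880))))))) (T.b (T.a (T.a (T.a (T.l 816) (T.l 816)) (T.a (T.l 816) (T.l 816))) (T.a (T.a (T.l 816) (T.l 816)) (T.a (T.l 816) (T.l 816)))) (T.c (T.b (T.a (T.a (T.a (T.l 816) (T.l 816)) (T.a (T.l 816) (T.l 816))) (T.a (T.a (T.l 816) (T.l 816)) (T.a (T.l 816) (T.l 816)))) (T.a (T.a (T.a (T.l 816) (T.l 816)) (T.a (T.l 816) (T.l 816))) (T.a (T.a (T.l 816) (T.l 816)) (T.a (T.l 816) (T.l 816)))))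 (T.b (T.a (T.a (T.a (T.l 816) (T.l 816)) (T.a (T.l 816) (T.l 816))) (T.a (T.l 884) (T.a (T.l 816) (T.l 816)))) (T.a (T.a (T.a (T.l 816) (T.l 816)) (T.a (T.l 816) (T.l 816))) (T.a (T.a (T.l 816) (T.l 816)) (T.a (T.l 816) (T.l 816))))))))) (T.a (T.c (T.b (T.a (T.a (T.a (T.l 884) (T.l 884)) (T.a (T.l 884) (T.c (T.l 884) (T.l 884)))) (T.a (T.a (T.a (T.l 884) (T.l 884)) (T.a (T.a (T.l 884) (T.l 884)) (T.l 1024))) (T.l 1024))) (T.c (T.b (T.a (T.a (T.a (T.l 880) (T.l 884)) (T.a (T.l 884) (T.c (T.l 884) (T.l 884)))) (T.a (T.a (T.a (T.l 884) (T.l 884)) (T.a (T.a (T.l 884) (T.l 884)) (T.l 1024))) (T.l 1024))) (T.a (T.a (T.a (T.l 884) (T.l 884)) (T.a (T.a (T.l 884) (T.l 884)) (T.a (T.l 884) (T.l 884)))) (T.a (T.a (T.a (T.l 884) (T.c (T.l 884) (T.l 884))) (T.a (T.a (T.l 884) (T.l 884)) (T.l 1024))) (T.l 1024))))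 (T.b (T.a (T.a (T.a (T.l 880) (T.l 884)) (T.a (T.l 884) (T.l 884))) (T.a (T.a (T.c (T.l 884) (T.l 884)) (T.a (T.c (T.l 884) (T.l 884)) (T.l 1024))) (T.l 1024))) (T.a (T.a (T.a (T.l 880) (T.l 884)) (T.a (T.c (T.l 884) (T.l 884)) (T.a (T.l 884) (T.l 884)))) (T.a (T.a (T.a (T.l 884) (T.l 884)) (T.a (T.a (T.l 884) (T.l 884)) (T.l 1024))) (T.l 1024)))))) (T.b (T.a (T.a (T.a (T.l 816) (T.l 820)) (T.a (T.l 884) (T.l 884))) (T.a (T.a (T.c (T.l 884) (T.l 884)) (T.a (T.c (T.l 884) (T.l 884)) (T.l 1024))) (T.l 1024))) (T.c (T.b (T.a (T.a (T.a (T.l 816) (T.l 816)) (T.a (T.l 884) (T.l 884))) (T.a (T.a (T.l 884) (T.a (T.l 884) (T.l 1024))) (T.l 1024))) (T.a (T.a (T.a (T.l 816) (T.l 880)) (T.a (T.l 884) (T.c (T.l 884) (T.l 884)))) (T.a (T.a (T.c (T.l 884) (T.l 884)) (T.a (T.c (T.l 884) (T.l 884)) (T.l 1024)))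 (T.l 1024)))) (T.b (T.a (T.a (T.a (T.l 816) (T.l 816)) (T.a (T.l 816) (T.l 884))) (T.a (T.a (T.l 884) (T.a (T.l 884) (T.l 1024))) (T.l 1024))) (T.a (T.a (T.a (T.l 816) (T.l 816)) (T.a (T.l 884) (T.l 884))) (T.a (T.a (T.l 884) (T.a (T.l 884) (T.l 1024))) (T.l 1024))))))) (T.l 1024)))))), by decide +kernel⟩

theorem A022E_012_1_31_1 :
    ∃ t, chk3 (onCell 0 50331648 0 1073741824 50331648 16777216 (corTK [[⟨0, 0, 1, 33554432⟩, ⟨1, 1, 0, 16777216⟩, ⟨2, 1, 1, 33554432⟩, ⟨0, 0, 0, 83886080⟩, ⟨0, 1, 0, 1040187392⟩, ⟨2, 1, 0, 83886080⟩, ⟨2, 2, 0, 1040187392⟩]] true 1 c0F cA022E gF0q0 gF1q2 gF2q2 gF3q2 true false)) t 1 31 1 = true :=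
  ex3_b A022E_012_1_62_1 A022E_012_1_63_1
theorem A022E_012_1_15_1 :
    ∃ t, chk3 (onCell 0 50331648 0 1073741824 50331648 16777216 (corTK [[⟨0, 0, 1, 33554432⟩, ⟨1, 1, 0, 16777216⟩, ⟨2, 1, 1, 33554432⟩, ⟨0, 0, 0, 83886080⟩, ⟨0, 1, 0, 1040187392⟩, ⟨2, 1, 0, 83886080⟩, ⟨2, 2, 0, 1040187392⟩]] true 1 c0F cA022E gF0q0 gF1q2 gF2q2 gF3q2 true false)) t 1 15 1 = true :=
  ex3_b A022E_012_1_30_1 A022E_012_1_31_1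
theorem A022E_012_1_7_1 :
    ∃ t, chk3 (onCell 0 50331648 0 1073741824 50331648 16777216 (corTK [[⟨0, 0, 1, 33554432⟩, ⟨1, 1, 0, 16777216⟩, ⟨2, 1, 1, 33554432⟩, ⟨0, 0, 0, 83886080⟩, ⟨0, 1, 0, 1040187392⟩, ⟨2, 1, 0, 83886080⟩, ⟨2, 2, 0, 1040187392⟩]] true 1 c0F cA022E gF0q0 gF1q2 gF2q2 gF3q2 true false)) t 1 7 1 = true :=
  ex3_b A022E_012_1_14_1 A022E_012_1_15_1
theorem A022E_012_1_3_1 :
    ∃ t, chk3 (onCell 0 50331648 0 1073741824 50331648 16777216 (corTK [[⟨0, 0, 1, 33554432⟩, ⟨1, 1, 0, 16777216⟩, ⟨2, 1, 1, 33554432⟩, ⟨0, 0, 0, 83886080⟩, ⟨0, 1, 0, 1040187392⟩, ⟨2, 1, 0, 83886080⟩, ⟨2, 2, 0, 1040187392⟩]] true 1 c0F cA022E gF0q0 gF1q2 gF2q2 gF3q2 true false)) t 1 3 1 = true :=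
  ex3_b A022E_012_1_6_1 A022E_012_1_7_1
theorem A022E_012 :
    ∃ t, chk3 (onCell 0 50331648 0 1073741824 50331648 16777216 (corTK [[⟨0, 0, 1, 33554432⟩, ⟨1, 1, 0, 16777216⟩, ⟨2, 1, 1, 33554432⟩, ⟨0, 0, 0, 83886080⟩, ⟨0, 1, 0, 1040187392⟩, ⟨2, 1, 0, 83886080⟩, ⟨2, 2, 0, 1040187392⟩]] true 1 c0F cA022E gF0q0 gF1q2 gF2q2 gF3q2 true false)) t 1 1 1 = true :=
  ex3_b A022E_012_1_2_1 A022E_012_1_3_1

def A022E_020 :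
    ∃ t, chk3 (onCell 0 50331648 0 1073741824 50331648 16777216 (corTK [[⟨0, 0, 1, 33554432⟩, ⟨1, 1, 0, 16777216⟩, ⟨2, 1, 1, 33554432⟩, ⟨0, 0, 0, 83886080⟩, ⟨0, 1, 0, 1040187392⟩, ⟨2, 1, 0, 83886080⟩, ⟨2, 2, 0, 1040187392⟩]] true 1 c0F cA022E gF0q0 gF2q2 gF0q2 gF1q2 true true)) t 1 1 1 = true :=
  ⟨(T.l 2), by decide +kernel⟩

def A022E_021 :
    ∃ t, chk3 (onCell 0 50331648 0 1073741824 50331648 16777216 (corTK [[⟨0, 0, 1, 33554432⟩, ⟨1, 1, 0, 16777216⟩, ⟨2, 1, 1, 33554432⟩, ⟨0, 0, 0, 83886080⟩, ⟨0, 1, 0, 1040187392⟩, ⟨2, 1, 0, 83886080⟩, ⟨2, 2, 0, 1040187392⟩]] true 1 c0F cA022E gF0q0 gF2q2 gF1q2 gF2q2 true true)) t 1 1 1 = true :=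
  ⟨(T.b (T.a (T.a (T.b (T.b (T.b (T.b (T.l 204) (T.l 204)) (T.l 204)) (T.l 0)) (T.l 816)) (T.l 2)) (T.l 2)) (T.b (T.a (T.a (T.b (T.l 816) (T.l 816)) (T.l 2)) (T.l 2)) (T.b (T.a (T.a (T.l 816) (T.l 2)) (T.l 2)) (T.b (T.a (T.a (T.l 816) (T.l 2)) (T.l 2)) (T.a (T.b (T.a (T.l 816) (T.l 2)) (T.a (T.b (T.l 816) (T.a (T.l 816) (T.l 880))) (T.b (T.l 2) (T.b (T.l 2) (T.b (T.l 2) (T.c (T.b (T.l 2) (T.c (T.b (T.l 2) (T.a (T.c (T.b (T.l 2) (T.a (T.a (T.l 816) (T.l 880)) (T.c (T.b (T.l 2) (T.a (T.a (T.l 880) (T.l 880)) (T.a (T.l 816) (T.l 816)))) (T.b (T.l 2) (T.a (T.a (T.l 880) (T.l 816)) (T.a (T.l 816) (T.l 816))))))) (T.b (T.l 2) (T.a (T.a (T.l 816) (T.l 816)) (T.c (T.b (T.l 2) (T.a (T.a (T.l 816) (T.l 816)) (T.a (T.l 816) (T.l 816)))) (T.b (T.l 2) (T.a (T.a (T.l 816) (T.l 816)) (T.a (T.l 816) (T.l 816))))))))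 (T.c (T.b (T.l 2) (T.a (T.c (T.b (T.l 2) (T.a (T.a (T.l 816) (T.l 816)) (T.a (T.l 816) (T.l 816)))) (T.b (T.l 2) (T.a (T.a (T.l 816) (T.l 816)) (T.a (T.l 816) (T.l 816))))) (T.c (T.b (T.l 2) (T.a (T.a (T.l 816) (T.l 880)) (T.a (T.l 880) (T.l 880)))) (T.a (T.l 880) (T.l 880))))) (T.b (T.l 2) (T.a (T.c (T.a (T.a (T.l 816) (T.l 816)) (T.l 880)) (T.a (T.l 880) (T.l 880))) (T.c (T.a (T.l 880) (T.l 880)) (T.a (T.l 880) (T.l 880)))))))) (T.b (T.l 2) (T.a (T.c (T.b (T.l 2) (T.a (T.a (T.l 816) (T.l 816)) (T.c (T.b (T.l 2) (T.a (T.a (T.l 816) (T.l 816)) (T.a (T.l 816) (T.l 816)))) (T.a (T.a (T.l 816) (T.l 816)) (T.l 880))))) (T.b (T.l 2) (T.a (T.a (T.l 816) (T.l 816)) (T.c (T.a (T.a (T.l 816) (T.l 816)) (T.l 880)) (T.a (T.a (T.l 816) (T.l 816)) (T.l 880)))))) (T.c (T.b (T.l 2) (T.a (T.a (T.a (T.l 816) (T.l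 816)) (T.l 880)) (T.a (T.l 880) (T.l 880)))) (T.b (T.l 2) (T.a (T.a (T.l 880) (T.l 880)) (T.a (T.l 880) (T.l 880))))))))) (T.b (T.l 2) (T.c (T.b (T.l 2) (T.a (T.c (T.b (T.l 2) (T.a (T.a (T.l 816) (T.l 816)) (T.a (T.a (T.l 816) (T.l 816)) (T.l 880)))) (T.b (T.l 2) (T.a (T.a (T.l 816) (T.l 816)) (T.a (T.l 880) (T.l 816))))) (T.c (T.b (T.l 2) (T.a (T.a (T.l 816) (T.l 816)) (T.a (T.l 880) (T.l 880)))) (T.b (T.l 2) (T.a (T.a (T.l 816) (T.l 816)) (T.a (T.l 816) (T.l 816))))))) (T.b (T.l 2) (T.a (T.c (T.b (T.l 2) (T.a (T.a (T.l 816) (T.l 816)) (T.a (T.l 880) (T.l 816)))) (T.b (T.l 2) (T.a (T.a (T.l 816) (T.l 816)) (T.a (T.l 816) (T.l 816))))) (T.c (T.b (T.l 2) (T.a (T.a (T.l 816) (T.l 816)) (T.a (T.l 816) (T.l 816)))) (T.b (T.l 2) (T.a (T.a (T.l 816) (T.l 816)) (T.a (T.l 816) (T.l 816))))))))))))))) (T.b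 (T.l 2) (T.a (T.b (T.l 2) (T.b (T.l 2) (T.b (T.l 2) (T.c (T.b (T.l 2) (T.c (T.b (T.l 2) (T.a (T.c (T.b (T.l 2) (T.a (T.c (T.b (T.l 2) (T.a (T.a (T.l 880) (T.l 880)) (T.a (T.l 880) (T.l 884)))) (T.b (T.l 2) (T.a (T.a (T.l 880) (T.l 880)) (T.a (T.l 880) (T.l 884))))) (T.c (T.b (T.l 2) (T.a (T.a (T.l 884) (T.l 884)) (T.a (T.l 884) (T.l 884)))) (T.b (T.l 2) (T.a (T.a (T.l 884) (T.l 884)) (T.a (T.l 884) (T.l 884))))))) (T.b (T.l 2) (T.a (T.c (T.a (T.l 884) (T.a (T.l 880) (T.l 880))) (T.a (T.l 884) (T.l 884))) (T.c (T.b (T.l 2) (T.a (T.a (T.l 884) (T.l 884)) (T.a (T.l 884) (T.l 884)))) (T.b (T.l 2) (T.a (T.a (T.l 884) (T.l 884)) (T.a (T.l 884) (T.l 884)))))))) (T.a (T.c (T.b (T.l 2) (T.c (T.b (T.l 2) (T.a (T.a (T.l 884) (T.l 884)) (T.a (T.a (T.l 884) (T.l 884)) (T.l 1024)))) (T.b (T.l 2) (T.a (T.a (T.l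 884) (T.l 884)) (T.a (T.a (T.l 884) (T.l 884)) (T.l 1024)))))) (T.b (T.l 2) (T.c (T.b (T.l 2) (T.a (T.a (T.l 884) (T.l 884)) (T.a (T.a (T.l 884) (T.l 884)) (T.l 1024)))) (T.b (T.l 2) (T.a (T.a (T.l 884) (T.l 884)) (T.a (T.a (T.l 884) (T.l 884)) (T.l 1024))))))) (T.l 1024)))) (T.b (T.l 2) (T.a (T.c (T.b (T.l 2) (T.a (T.a (T.l 884) (T.a (T.l 880) (T.l 880))) (T.c (T.b (T.l 2) (T.a (T.a (T.l 884) (T.l 884)) (T.a (T.l 884) (T.l 884)))) (T.b (T.l 2) (T.a (T.a (T.l 880) (T.l 884)) (T.a (T.l 884) (T.l 884))))))) (T.b (T.l 2) (T.a (T.a (T.l 884) (T.l 884)) (T.c (T.b (T.l 2) (T.a (T.a (T.l 880) (T.l 884)) (T.a (T.l 884) (T.l 884)))) (T.b (T.l 2) (T.a (T.a (T.l 880) (T.l 884)) (T.a (T.l 884) (T.l 884)))))))) (T.a (T.c (T.b (T.l 2) (T.c (T.b (T.l 2) (T.a (T.a (T.l 884) (T.l 884)) (T.a (T.a (T.l 884) (T.l 884))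 (T.l 1024)))) (T.b (T.l 2) (T.a (T.a (T.l 884) (T.l 884)) (T.a (T.a (T.l 884) (T.l 884)) (T.l 1024)))))) (T.b (T.l 2) (T.c (T.b (T.l 2) (T.a (T.a (T.l 884) (T.l 884)) (T.a (T.a (T.l 884) (T.l 884)) (T.l 1024)))) (T.b (T.l 2) (T.a (T.a (T.l 884) (T.l 884)) (T.a (T.a (T.l 884) (T.l 884)) (T.l 1024))))))) (T.l 1024)))))) (T.b (T.l 2) (T.c (T.b (T.l 2) (T.a (T.c (T.b (T.l 2) (T.a (T.a (T.l 884) (T.l 884)) (T.c (T.b (T.l 2) (T.a (T.a (T.l 880) (T.l 880)) (T.a (T.l 884) (T.l 884)))) (T.a (T.l 884) (T.a (T.l 884) (T.l 884)))))) (T.b (T.l 2) (T.a (T.a (T.l 880) (T.l 884)) (T.c (T.a (T.l 884) (T.a (T.l 884) (T.l 884))) (T.a (T.l 884) (T.l 884)))))) (T.a (T.c (T.b (T.l 2) (T.c (T.b (T.l 2) (T.a (T.a (T.l 884) (T.l 884)) (T.a (T.a (T.l 884) (T.l 884)) (T.l 1024)))) (T.b (T.l 2) (T.a (T.a (T.l 884) (T.l 884))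 (T.a (T.l 884) (T.l 1024)))))) (T.b (T.l 2) (T.c (T.b (T.l 2) (T.a (T.a (T.l 884) (T.l 884)) (T.a (T.l 884) (T.l 1024)))) (T.b (T.l 2) (T.a (T.a (T.l 884) (T.l 884)) (T.a (T.l 884) (T.l 1024))))))) (T.l 1024)))) (T.b (T.l 2) (T.a (T.c (T.b (T.l 2) (T.a (T.a (T.l 880) (T.l 884)) (T.a (T.l 884) (T.a (T.l 880) (T.l 884))))) (T.b (T.l 2) (T.a (T.a (T.l 816) (T.l 880)) (T.a (T.l 884) (T.a (T.l 880) (T.l 880)))))) (T.a (T.c (T.b (T.l 2) (T.c (T.a (T.l 884) (T.a (T.l 884) (T.l 1024))) (T.a (T.l 884) (T.a (T.l 884) (T.l 1024))))) (T.b (T.l 2) (T.c (T.a (T.l 884) (T.a (T.l 884) (T.l 1024))) (T.a (T.l 884) (T.a (T.l 884) (T.l 1024)))))) (T.l 1024)))))))))) (T.l 1024)))))))), by decide +kernel⟩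

end Pool.Agent.Strip051.G.I3_64_1_16.Tab.CF
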