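import Pool.Agent.Strip051.PB.Cuts

/-! # Tables I3_64_1_16 (generated) -/

namespace Pool.Agent.Strip051.G.I3_64_1_16.Tab

open Pool.Agent.Strip051.PB

noncomputable def c1g : Fn1 := ⟨_, _, fun h1 => (enc_sqrtg (enc_sub (enc_pnc _ 1) (enc_scale 3 4 (enc_sq h1))))⟩
noncomputable def kcg_3 : Fn2 := ⟨_, _, fun h1 h2 => (enc_subr 7 128 h2)⟩
noncomputable def kcg_6 : Fn2 := ⟨_, _, fun h1 h2 => (enc_add h1 (enc_rat _ 41 100))⟩
noncomputable def kcg_9 : Fn2 := ⟨_, _, fun h1 h2 => (enc_add h1 (enc_rat _ 661 1387))⟩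
noncomputable def kcg_12 : Fn2 := ⟨_, _, fun h1 h2 => (enc_add h1 (enc_rat _ 49 100))⟩
noncomputable def kcg_13 : Fn2 := ⟨_, _, fun h1 h2 => (enc_scale 890359 1000000 h1)⟩
noncomputable def kcg_18 : Fn2 := ⟨_, _, fun h1 h2 => (enc_scale 51293 100000 h1)⟩
noncomputable def kcg_30 : Fn2 := ⟨_, _, fun h1 h2 => (enc_sub (enc_rat _ 3287 125000) (enc_scale 380443 200000 (kcg_3.enc h1 h2)))⟩
noncomputable def kcg_38 : Fn2 := ⟨_, _, fun h1 h2 => (enc_scale 207632513 232875000 h1)⟩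
noncomputable def kcg_43 : Fn2 := ⟨_, _, fun h1 h2 => (enc_scale 26132467 62100000 h1)⟩
noncomputable def kcg_55 : Fn2 := ⟨_, _, fun h1 h2 => (enc_sub (enc_rat _ 73097 1000000) (enc_scale 1088311 200000 (kcg_3.enc h1 h2)))⟩
noncomputable def kcg_63 : Fn2 := ⟨_, _, fun h1 h2 => (enc_add h1 (enc_rat _ 23 50))⟩
noncomputable def kcg_64 : Fn2 := ⟨_, _, fun h1 h2 => (enc_scale 2054742023 2298000000 h1)⟩
noncomputable def kcg_69 : Fn2 := ⟨_, _, fun h1 h2 => (enc_scale 20606659 76600000 h1)⟩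
noncomputable def kcg_81 : Fn2 := ⟨_, _, fun h1 h2 => (enc_sub (enc_rat _ 47 500) (enc_scale 950167 200000 (kcg_3.enc h1 h2)))⟩
noncomputable def kcg_88 : Fn2 := ⟨_, _, fun h1 h2 => (enc_add h1 (enc_rat _ 191 434))⟩
noncomputable def kcg_89 : Fn2 := ⟨_, _, fun h1 h2 => (enc_scale 38757719 43200000 h1)⟩
noncomputable def kcg_94 : Fn2 := ⟨_, _, fun h1 h2 => (enc_scale 2959229 21600000 h1)⟩
noncomputable def kcg_106 : Fn2 := ⟨_, _, fun h1 h2 => (enc_sub (enc_rat _ 147493 2000000) (enc_scale 535451 200000 (kcg_3.enc h1 h2)))⟩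
noncomputable def kcg_111 : Fn2 := ⟨_, _, fun h1 h2 => (enc_scale 2936227 3265000 h1)⟩
noncomputable def kcg_116 : Fn2 := ⟨_, _, fun h1 h2 => (enc_scale 313131 8162500 h1)⟩
noncomputable def kcg_128 : Fn2 := ⟨_, _, fun h1 h2 => (enc_sub (enc_rat _ 44307 2000000) (enc_scale 301329 200000 (kcg_3.enc h1 h2)))⟩
noncomputable def kcg_138 : Fn2 := ⟨_, _, fun h1 h2 => (enc_add h1 (enc_rat _ 1 4))⟩
noncomputable def kcg_141 : Fn2 := ⟨_, _, fun h1 h2 => (enc_add h1 (enc_rat _ 7 20))⟩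
noncomputable def kcg_142 : Fn2 := ⟨_, _, fun h1 h2 => (enc_scale 5396893 6000000 h1)⟩
noncomputable def kcg_147 : Fn2 := ⟨_, _, fun h1 h2 => (enc_scale 1067 24000 h1)⟩
noncomputable def kcg_159 : Fn2 := ⟨_, _, fun h1 h2 => (enc_subr 4071 500000 (enc_neg (enc_scale 124951 200000 (kcg_3.enc h1 h2))))⟩
noncomputable def kcg_164 : Fn2 := ⟨_, _, fun h1 h2 => (enc_scale 448109 500000 h1)⟩
noncomputable def kcg_169 : Fn2 := ⟨_, _, fun h1 h2 => (enc_scale 12279 125000 h1)⟩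
noncomputable def kcg_180 : Fn2 := ⟨_, _, fun h1 h2 => (enc_subr 11103 400000 (enc_neg (enc_scale 1303 8000 (kcg_3.enc h1 h2))))⟩
noncomputable def kcg_188 : Fn2 := ⟨_, _, fun h1 h2 => (enc_add h1 (enc_rat _ 3 20))⟩
noncomputable def kcg_189 : Fn2 := ⟨_, _, fun h1 h2 => (enc_scale 442261 500000 h1)⟩
noncomputable def kcg_194 : Fn2 := ⟨_, _, fun h1 h2 => (enc_scale 99693 1000000 h1)⟩
noncomputable def kcg_203 : Fn2 := ⟨_, _, fun h1 h2 => (enc_subr 89201 1000000 (enc_scale 29651 200000 (kcg_3.enc h1 h2)))⟩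
noncomputable def kcg_211 : Fn2 := ⟨_, _, fun h1 h2 => (enc_scale 1266763 2250000 h1)⟩
noncomputable def kcg_216 : Fn2 := ⟨_, _, fun h1 h2 => (enc_scale 38191 900000 h1)⟩
noncomputable def kcg_225 : Fn2 := ⟨_, _, fun h1 h2 => (enc_subr 6946583 2000000 (enc_scale 47149 100000 (kcg_3.enc h1 h2)))⟩
noncomputable def kcg_230 : Fn2 := ⟨_, _, fun h1 h2 => (enc_scale 500819 2000000 h1)⟩
noncomputable def kcg_238 : Fn2 := ⟨_, _, fun h1 h2 => (enc_sub (enc_rat _ 41 100) h1)⟩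
noncomputable def kcg_239 : Fn2 := ⟨_, _, fun h1 h2 => (enc_sub (enc_rat _ 661 1387) h1)⟩
noncomputable def kcg_240 : Fn2 := ⟨_, _, fun h1 h2 => (enc_sub (enc_rat _ 49 100) h1)⟩
noncomputable def kcg_259 : Fn2 := ⟨_, _, fun h1 h2 => (enc_sub (enc_rat _ 23 50) h1)⟩
noncomputable def kcg_268 : Fn2 := ⟨_, _, fun h1 h2 => (enc_sub (enc_rat _ 191 434) h1)⟩
noncomputable def kcg_288 : Fn2 := ⟨_, _, fun h1 h2 => (enc_sub (enc_rat _ 1 4) h1)⟩
noncomputable def kcg_289 : Fn2 := ⟨_, _, fun h1 h2 => (enc_sub (enc_rat _ 7 20) h1)⟩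
noncomputable def kcg_309 : Fn2 := ⟨_, _, fun h1 h2 => (enc_sub (enc_rat _ 3 20) h1)⟩
noncomputable def kcg : Fn2 := ⟨_, _, fun h1 h2 => (enc_norm (enc_case h1 (enc_case (kcg_6.enc h1 h2) (enc_case (kcg_9.enc h1 h2) (enc_case (kcg_12.enc h1 h2) (enc_add (enc_add (enc_subr 3341249 50000000 (enc_neg (kcg_13.enc h1 h2))) (enc_mul (enc_norm (kcg_3.enc h1 h2)) (enc_norm (enc_subr 659059 2500000 (enc_neg (kcg_18.enc h1 h2)))))) (enc_mul (enc_norm (kcg_30.enc h1 h2)) (enc_norm (enc_mul (enc_norm (enc_add h1 (enc_rat _ 1 2))) (enc_norm (enc_sub (enc_neg (enc_rat _ 49 100)) h1)))))) (enc_add (enc_add (enc_subr 12563236837 186300000000 (enc_neg (kcg_38.enc h1 h2))) (enc_mul (enc_norm (kcg_3.enc h1 h2)) (enc_norm (enc_subr 678399371 3105000000 (enc_neg (kcg_43.enc h1 h2)))))) (enc_mul (enc_norm (kcg_55.enc h1 h2)) (enc_norm (enc_mul (enc_norm (kcg_12.enc h1 h2)) (enc_norm (enc_sub (enc_neg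 (enc_rat _ 661 1387)) h1))))))) (enc_case (kcg_63.enc h1 h2) (enc_add (enc_add (enc_subr 7887349801 114900000000 (enc_neg (kcg_64.enc h1 h2))) (enc_mul (enc_norm (kcg_3.enc h1 h2)) (enc_norm (enc_subr 17491713 119687500 (enc_neg (kcg_69.enc h1 h2)))))) (enc_mul (enc_norm (kcg_81.enc h1 h2)) (enc_norm (enc_mul (enc_norm (kcg_9.enc h1 h2)) (enc_norm (enc_sub (enc_neg (enc_rat _ 23 50)) h1)))))) (enc_case (kcg_88.enc h1 h2) (enc_add (enc_add (enc_subr 756401909 10800000000 (enc_neg (kcg_89.enc h1 h2))) (enc_mul (enc_norm (kcg_3.enc h1 h2)) (enc_norm (enc_subr 92251351 1080000000 (enc_neg (kcg_94.enc h1 h2)))))) (enc_mul (enc_norm (kcg_106.enc h1 h2)) (enc_norm (enc_mul (enc_norm (kcg_63.enc h1 h2)) (enc_norm (enc_sub (enc_neg (enc_rat _ 191 434)) h1)))))) (enc_add (enc_add (enc_subr 2317384347 32650000000 (enc_neg (kcg_111.enc h1 h2))) (enc_mul (enc_norm (kcg_3.enc h1 h2)) (enc_norm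 (enc_subr 274309491 6530000000 (enc_neg (kcg_116.enc h1 h2)))))) (enc_mul (enc_norm (kcg_128.enc h1 h2)) (enc_norm (enc_mul (enc_norm (kcg_88.enc h1 h2)) (enc_norm (enc_sub (enc_neg (enc_rat _ 41 100)) h1))))))))) (enc_case (kcg_138.enc h1 h2) (enc_case (kcg_141.enc h1 h2) (enc_add (enc_add (enc_subr 42629801 600000000 (enc_neg (kcg_142.enc h1 h2))) (enc_mul (enc_norm (kcg_3.enc h1 h2)) (enc_norm (enc_subr 483071 60000000 (kcg_147.enc h1 h2))))) (enc_mul (enc_norm (kcg_159.enc h1 h2)) (enc_norm (enc_mul (enc_norm (kcg_6.enc h1 h2)) (enc_norm (enc_sub (enc_neg (enc_rat _ 7 20)) h1)))))) (enc_add (enc_add (enc_subr 6990721 100000000 (enc_neg (kcg_164.enc h1 h2))) (enc_mul (enc_norm (kcg_3.enc h1 h2)) (enc_norm (enc_add (kcg_169.enc h1 h2) (enc_rat _ 6731 625000))))) (enc_mul (enc_norm (kcg_180.enc h1 h2)) (enc_norm (enc_mul (enc_norm (kcg_141.enc h1 h2)) (enc_norm (enc_sub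 (enc_neg (enc_rat _ 1 4)) h1))))))) (enc_case (kcg_188.enc h1 h2) (enc_add (enc_add (enc_subr 6698321 100000000 (enc_neg (kcg_189.enc h1 h2))) (enc_mul (enc_norm (kcg_3.enc h1 h2)) (enc_norm (enc_add (kcg_194.enc h1 h2) (enc_rat _ 222697 20000000))))) (enc_mul (enc_norm (kcg_203.enc h1 h2)) (enc_norm (enc_mul (enc_norm (kcg_138.enc h1 h2)) (enc_norm (enc_sub (enc_neg (enc_rat _ 3 20)) h1)))))) (enc_case (enc_add h1 (enc_rat _ 3 50)) (enc_add (enc_add (enc_subr 5626733 300000000 (enc_neg (kcg_211.enc h1 h2))) (enc_mul (enc_norm (kcg_3.enc h1 h2)) (enc_norm (enc_add (kcg_216.enc h1 h2) (enc_rat _ 38191 15000000))))) (enc_mul (enc_norm (kcg_225.enc h1 h2)) (enc_norm (enc_mul (enc_norm (kcg_188.enc h1 h2)) (enc_norm (enc_sub (enc_neg (enc_rat _ 3 50)) h1)))))) (enc_neg (kcg_230.enc h1 h2)))))) (enc_neg (enc_case (kcg_238.enc h1 h2) (enc_case (kcg_239.enc h1 h2) (enc_case (kcg_240.enc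 h1 h2) (enc_add (enc_add (enc_subr 3341249 50000000 (kcg_13.enc h1 h2)) (enc_mul (enc_norm (kcg_3.enc h1 h2)) (enc_norm (enc_subr 659059 2500000 (kcg_18.enc h1 h2))))) (enc_mul (enc_norm (kcg_30.enc h1 h2)) (enc_norm (enc_mul (enc_norm (enc_sub (enc_rat _ 1 2) h1)) (enc_norm (enc_subr 49 100 h1)))))) (enc_add (enc_add (enc_subr 12563236837 186300000000 (kcg_38.enc h1 h2)) (enc_mul (enc_norm (kcg_3.enc h1 h2)) (enc_norm (enc_subr 678399371 3105000000 (kcg_43.enc h1 h2))))) (enc_mul (enc_norm (kcg_55.enc h1 h2)) (enc_norm (enc_mul (enc_norm (kcg_240.enc h1 h2)) (enc_norm (enc_subr 661 1387 h1))))))) (enc_case (kcg_259.enc h1 h2) (enc_add (enc_add (enc_subr 7887349801 114900000000 (kcg_64.enc h1 h2)) (enc_mul (enc_norm (kcg_3.enc h1 h2)) (enc_norm (enc_subr 17491713 119687500 (kcg_69.enc h1 h2))))) (enc_mul (enc_norm (kcg_81.enc h1 h2)) (enc_norm (enc_mul (enc_norm (kcg_239.enc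 h1 h2)) (enc_norm (enc_subr 23 50 h1)))))) (enc_case (kcg_268.enc h1 h2) (enc_add (enc_add (enc_subr 756401909 10800000000 (kcg_89.enc h1 h2)) (enc_mul (enc_norm (kcg_3.enc h1 h2)) (enc_norm (enc_subr 92251351 1080000000 (kcg_94.enc h1 h2))))) (enc_mul (enc_norm (kcg_106.enc h1 h2)) (enc_norm (enc_mul (enc_norm (kcg_259.enc h1 h2)) (enc_norm (enc_subr 191 434 h1)))))) (enc_add (enc_add (enc_subr 2317384347 32650000000 (kcg_111.enc h1 h2)) (enc_mul (enc_norm (kcg_3.enc h1 h2)) (enc_norm (enc_subr 274309491 6530000000 (kcg_116.enc h1 h2))))) (enc_mul (enc_norm (kcg_128.enc h1 h2)) (enc_norm (enc_mul (enc_norm (kcg_268.enc h1 h2)) (enc_norm (enc_subr 41 100 h1))))))))) (enc_case (kcg_288.enc h1 h2) (enc_case (kcg_289.enc h1 h2) (enc_add (enc_add (enc_subr 42629801 600000000 (kcg_142.enc h1 h2)) (enc_mul (enc_norm (kcg_3.enc h1 h2)) (enc_norm (enc_subr 483071 60000000 (enc_neg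 (kcg_147.enc h1 h2)))))) (enc_mul (enc_norm (kcg_159.enc h1 h2)) (enc_norm (enc_mul (enc_norm (kcg_238.enc h1 h2)) (enc_norm (enc_subr 7 20 h1)))))) (enc_add (enc_add (enc_subr 6990721 100000000 (kcg_164.enc h1 h2)) (enc_mul (enc_norm (kcg_3.enc h1 h2)) (enc_norm (enc_sub (enc_rat _ 6731 625000) (kcg_169.enc h1 h2))))) (enc_mul (enc_norm (kcg_180.enc h1 h2)) (enc_norm (enc_mul (enc_norm (kcg_289.enc h1 h2)) (enc_norm (enc_subr 1 4 h1))))))) (enc_case (kcg_309.enc h1 h2) (enc_add (enc_add (enc_subr 6698321 100000000 (kcg_189.enc h1 h2)) (enc_mul (enc_norm (kcg_3.enc h1 h2)) (enc_norm (enc_sub (enc_rat _ 222697 20000000) (kcg_194.enc h1 h2))))) (enc_mul (enc_norm (kcg_203.enc h1 h2)) (enc_norm (enc_mul (enc_norm (kcg_288.enc h1 h2)) (enc_norm (enc_subr 3 20 h1)))))) (enc_case (enc_sub (enc_rat _ 3 50) h1) (enc_add (enc_add (enc_subr 5626733 300000000 (kcg_211.enc h1 h2)) (enc_mul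 (enc_norm (kcg_3.enc h1 h2)) (enc_norm (enc_sub (enc_rat _ 38191 15000000) (kcg_216.enc h1 h2))))) (enc_mul (enc_norm (kcg_225.enc h1 h2)) (enc_norm (enc_mul (enc_norm (kcg_309.enc h1 h2)) (enc_norm (enc_subr 3 50 h1)))))) (kcg_230.enc h1 h2))))))))⟩
noncomputable def kf0q0_9 : Fn2 := ⟨_, _, fun h1 h2 => (enc_scale 3 2 h1)⟩
noncomputable def kf0q0_12 : Fn2 := ⟨_, _, fun h1 h2 => (enc_add (enc_pnc _ 1) (c1g.enc h1))⟩
noncomputable def kf0q0 : Fn2 := ⟨_, _, fun h1 h2 => (enc_norm (enc_add (enc_mul (enc_norm (enc_mul (enc_norm (enc_sub (c1g.enc h1) (kf0q0_9.enc h1 h2))) (enc_norm (kf0q0_12.enc h1 h2)))) (enc_inv (enc_sub (kf0q0_12.enc h1 h2) (kf0q0_9.enc h1 h2)))) (enc_mul h1 (kcg.enc (enc_norm (enc_sub (enc_scale 3 4 h1) (enc_half (c1g.enc h1)))) h2))))⟩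
noncomputable def txg_4 : Fn3 := ⟨_, _, fun h1 h2 h3 => (enc_subr 7 128 h3)⟩
noncomputable def txg_6 : Fn3 := ⟨_, _, fun h1 h2 h3 => (enc_add h1 (enc_half h2))⟩
noncomputable def txg_27 : Fn3 := ⟨_, _, fun h1 h2 h3 => (enc_add h1 (enc_rat _ 479 1000))⟩
noncomputable def txg_63 : Fn3 := ⟨_, _, fun h1 h2 h3 => (enc_sq (enc_norm (txg_4.enc h1 h2 h3)))⟩
noncomputable def txg_77 : Fn3 := ⟨_, _, fun h1 h2 h3 => (enc_add h1 (enc_rat _ 191 434))⟩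
noncomputable def txg_80 : Fn3 := ⟨_, _, fun h1 h2 h3 => (enc_add h1 (enc_rat _ 3 50))⟩
noncomputable def txg_83 : Fn3 := ⟨_, _, fun h1 h2 h3 => (enc_add h1 (enc_rat _ 3 10))⟩
noncomputable def txg_86 : Fn3 := ⟨_, _, fun h1 h2 h3 => (enc_add h1 (enc_rat _ 41 100))⟩
noncomputable def txg_113 : Fn3 := ⟨_, _, fun h1 h2 h3 => (enc_add h1 (enc_rat _ 9 25))⟩
noncomputable def txg_157 : Fn3 := ⟨_, _, fun h1 h2 h3 => (enc_add h1 (enc_rat _ 9 50))⟩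
noncomputable def txg_160 : Fn3 := ⟨_, _, fun h1 h2 h3 => (enc_add h1 (enc_rat _ 6 25))⟩
noncomputable def txg_198 : Fn3 := ⟨_, _, fun h1 h2 h3 => (enc_add h1 (enc_rat _ 3 25))⟩
noncomputable def txg_234 : Fn3 := ⟨_, _, fun h1 h2 h3 => (enc_subr 6 25 h1)⟩
noncomputable def txg_235 : Fn3 := ⟨_, _, fun h1 h2 h3 => (enc_subr 3 25 h1)⟩
noncomputable def txg_236 : Fn3 := ⟨_, _, fun h1 h2 h3 => (enc_subr 3 50 h1)⟩
noncomputable def txg_275 : Fn3 := ⟨_, _, fun h1 h2 h3 => (enc_subr 9 50 h1)⟩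
noncomputable def txg_314 : Fn3 := ⟨_, _, fun h1 h2 h3 => (enc_subr 9 25 h1)⟩
noncomputable def txg_315 : Fn3 := ⟨_, _, fun h1 h2 h3 => (enc_subr 3 10 h1)⟩
noncomputable def txg_353 : Fn3 := ⟨_, _, fun h1 h2 h3 => (enc_subr 43 100 h1)⟩
noncomputable def txg : Fn3 := ⟨_, _, fun h1 h2 h3 => (enc_case (enc_add h1 (enc_rat _ 661 1387)) (enc_case (txg_27.enc h1 h2 h3) (enc_add (enc_add (enc_add (enc_scale 4591 175000 h1) (enc_rat _ 4591 350000)) (enc_mul (enc_norm (txg_4.enc h1 h2 h3)) (enc_norm (enc_add (enc_scale 6031 13125 h1) (enc_rat _ 6031 26250))))) (enc_mul (enc_norm (enc_subr 1476373 20000000 (enc_neg (enc_scale 18076397 5000000 (txg_4.enc h1 h2 h3))))) (enc_norm (enc_mul (enc_norm (enc_add h1 (enc_rat _ 1 2))) (enc_norm (enc_sub (enc_neg (enc_rat _ 479 1000)) h1)))))) (enc_add (enc_add (enc_add (enc_add (enc_scale 808889043933 29941446400000 h1) (enc_rat _ 80790638738919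 5988289280000000)) (enc_mul (enc_norm (txg_4.enc h1 h2 h3)) (enc_norm (enc_add (enc_scale 3577591390199 7485361600000 h1) (enc_rat _ 1785897021200681 7485361600000000))))) (enc_mul (txg_63.enc h1 h2 h3) (enc_norm (enc_subr 902302359 8432500000 (enc_neg (enc_scale 1883721 8432500 h1)))))) (enc_mul (enc_norm (enc_add (enc_scale 29556427 1250000 (txg_4.enc h1 h2 h3)) (enc_rat _ 7926567 25000000))) (enc_norm (enc_mul (enc_norm (txg_27.enc h1 h2 h3)) (enc_norm (enc_sub (enc_neg (enc_rat _ 661 1387)) h1))))))) (enc_case (txg_77.enc h1 h2 h3) (enc_sub (enc_mul (enc_norm (enc_sub (enc_pnc _ 1) h2)) (enc_norm (enc_subn 1 (enc_nat 2 h2)))) (enc_mul (enc_norm (enc_nat 2 (enc_sub (enc_scale 4 3 (txg_6.enc h1 h2 h3)) h3))) (enc_norm (enc_mul (enc_norm (enc_subn 1 (enc_add (enc_scale 2 3 (txg_6.enc h1 h2 h3)) h2))) (kcg.enc h1 h3))))) (enc_case (txg_80.enc h1 h2 h3) (enc_case (txg_83.enc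 h1 h2 h3) (enc_case (txg_86.enc h1 h2 h3) (enc_add (enc_add (enc_add (enc_add (enc_scale 51223494549 566804000000 h1) (enc_rat _ 2352196642737 56680400000000)) (enc_mul (enc_norm (txg_4.enc h1 h2 h3)) (enc_norm (enc_subr 3893939633011 56680400000000 (enc_neg (enc_scale 119380164651 566804000000 h1)))))) (enc_mul (txg_63.enc h1 h2 h3) (enc_norm (enc_add (enc_scale 251247 4081250 h1) (enc_rat _ 10301127 408125000))))) (enc_mul (enc_norm (enc_subr 35468811 20000000 (enc_scale 171200989 10000000 (txg_4.enc h1 h2 h3)))) (enc_norm (enc_mul (enc_norm (txg_77.enc h1 h2 h3)) (enc_norm (enc_sub (enc_neg (enc_rat _ 41 100)) h1)))))) (enc_case (txg_113.enc h1 h2 h3) (enc_add (enc_add (enc_add (enc_scale 24549 156250 h1) (enc_rat _ 34431573 500000000)) (enc_mul (enc_norm (txg_4.enc h1 h2 h3)) (enc_norm (enc_subr 1148989 12500000 (enc_neg (enc_scale 66813 250000 h1)))))) (enc_mul (enc_norm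 (enc_subr 26748587 100000000 (enc_neg (enc_scale 91709497 10000000 (txg_4.enc h1 h2 h3))))) (enc_norm (enc_mul (enc_norm (txg_86.enc h1 h2 h3)) (enc_norm (enc_sub (enc_neg (enc_rat _ 9 25)) h1)))))) (enc_add (enc_add (enc_add (enc_scale 511399 3000000 h1) (enc_rat _ 7367013 100000000)) (enc_mul (enc_norm (txg_4.enc h1 h2 h3)) (enc_norm (enc_add (enc_scale 10169 40000 h1) (enc_rat _ 479063 5000000))))) (enc_mul (enc_norm (enc_sub (enc_rat _ 143 400000) (enc_scale 52441 50000 (txg_4.enc h1 h2 h3)))) (enc_norm (enc_mul (enc_norm (txg_113.enc h1 h2 h3)) (enc_norm (enc_sub (enc_neg (enc_rat _ 3 10)) h1)))))))) (enc_case (txg_157.enc h1 h2 h3) (enc_case (txg_160.enc h1 h2 h3) (enc_add (enc_add (enc_add (enc_scale 253639 1500000 h1) (enc_rat _ 7325803 100000000)) (enc_mul (enc_norm (txg_4.enc h1 h2 h3)) (enc_norm (enc_add (enc_scale 8363 25000 h1) (enc_rat _ 1199011 10000000)))))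 (enc_mul (enc_norm (enc_sub (enc_rat _ 22539 1000000) (enc_scale 57891 200000 (txg_4.enc h1 h2 h3)))) (enc_norm (enc_mul (enc_norm (txg_83.enc h1 h2 h3)) (enc_norm (enc_sub (enc_neg (enc_rat _ 6 25)) h1)))))) (enc_add (enc_add (enc_add (enc_scale 970351 6000000 h1) (enc_rat _ 7148983 100000000)) (enc_mul (enc_norm (txg_4.enc h1 h2 h3)) (enc_norm (enc_add (enc_scale 195229 600000 h1) (enc_rat _ 1177079 10000000))))) (enc_mul (enc_norm (enc_add (enc_scale 17671 40000 (txg_4.enc h1 h2 h3)) (enc_rat _ 100251 1000000))) (enc_norm (enc_mul (enc_norm (txg_160.enc h1 h2 h3)) (enc_norm (enc_sub (enc_neg (enc_rat _ 9 50)) h1))))))) (enc_case (txg_198.enc h1 h2 h3) (enc_add (enc_add (enc_add (enc_scale 419677 3000000 h1) (enc_rat _ 844499 12500000)) (enc_mul (enc_norm (txg_4.enc h1 h2 h3)) (enc_norm (enc_add (enc_scale 9313 40000 h1) (enc_rat _ 1010477 10000000))))) (enc_mul (enc_norm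 (enc_add (enc_scale 22017 20000 (txg_4.enc h1 h2 h3)) (enc_rat _ 527259 2000000))) (enc_norm (enc_mul (enc_norm (txg_157.enc h1 h2 h3)) (enc_norm (enc_sub (enc_neg (enc_rat _ 3 25)) h1)))))) (enc_add (enc_add (enc_add (enc_scale 618019 6000000 h1) (enc_rat _ 3156661 50000000)) (enc_mul (enc_norm (txg_4.enc h1 h2 h3)) (enc_norm (enc_add (enc_scale 7121 100000 h1) (enc_rat _ 816539 10000000))))) (enc_mul (enc_norm (enc_add (enc_scale 159271 100000 (txg_4.enc h1 h2 h3)) (enc_rat _ 351191 1000000))) (enc_norm (enc_mul (enc_norm (txg_198.enc h1 h2 h3)) (enc_norm (enc_sub (enc_neg (enc_rat _ 3 50)) h1))))))))) (enc_case (txg_234.enc h1 h2 h3) (enc_case (txg_235.enc h1 h2 h3) (enc_case (txg_236.enc h1 h2 h3) (enc_add (enc_add (enc_sub (enc_rat _ 1136709 20000000) (enc_scale 5879 3000000 h1)) (enc_mul (enc_norm (txg_4.enc h1 h2 h3)) (enc_norm (enc_sub (enc_rat _ 1510591 20000000)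 (enc_scale 2469 80000 h1))))) (enc_mul (enc_norm (enc_add (enc_scale 10851 200000 (txg_4.enc h1 h2 h3)) (enc_rat _ 1398189 2000000))) (enc_norm (enc_mul (enc_norm (txg_80.enc h1 h2 h3)) (enc_norm (enc_sub (enc_rat _ 3 50) h1)))))) (enc_add (enc_add (enc_sub (enc_rat _ 3192399 50000000) (enc_scale 713011 6000000 h1)) (enc_mul (enc_norm (txg_4.enc h1 h2 h3)) (enc_norm (enc_add (enc_scale 3817 150000 h1) (enc_rat _ 72151 1000000))))) (enc_mul (enc_norm (enc_sub (enc_rat _ 43979 80000) (enc_scale 52351 50000 (txg_4.enc h1 h2 h3)))) (enc_norm (enc_mul (enc_norm (txg_236.enc h1 h2 h3)) (enc_norm (enc_sub (enc_rat _ 3 25) h1))))))) (enc_case (txg_275.enc h1 h2 h3) (enc_add (enc_add (enc_sub (enc_rat _ 1715301 25000000) (enc_scale 475607 3000000 h1)) (enc_mul (enc_norm (txg_4.enc h1 h2 h3)) (enc_norm (enc_add (enc_scale 2123 18750 h1) (enc_rat _ 308087 5000000))))) (enc_mul (enc_norm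 (enc_sub (enc_rat _ 1749 15625) (enc_scale 10399 25000 (txg_4.enc h1 h2 h3)))) (enc_norm (enc_mul (enc_norm (txg_235.enc h1 h2 h3)) (enc_norm (enc_sub (enc_rat _ 9 50) h1)))))) (enc_add (enc_add (enc_sub (enc_rat _ 3509121 50000000) (enc_scale 8363 50000 h1)) (enc_mul (enc_norm (txg_4.enc h1 h2 h3)) (enc_norm (enc_add (enc_scale 35317 300000 h1) (enc_rat _ 7601 125000))))) (enc_mul (enc_norm (enc_add (enc_scale 68203 200000 (txg_4.enc h1 h2 h3)) (enc_rat _ 33469 1000000))) (enc_norm (enc_mul (enc_norm (txg_275.enc h1 h2 h3)) (enc_norm (enc_sub (enc_rat _ 6 25) h1)))))))) (enc_case (txg_314.enc h1 h2 h3) (enc_case (txg_315.enc h1 h2 h3) (enc_add (enc_add (enc_sub (enc_rat _ 3544989 50000000) (enc_scale 170249 1000000 h1)) (enc_mul (enc_norm (txg_4.enc h1 h2 h3)) (enc_norm (enc_add (enc_scale 1757 120000 h1) (enc_rat _ 213869 2500000))))) (enc_mul (enc_norm (enc_add (enc_scale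 68851 50000 (txg_4.enc h1 h2 h3)) (enc_rat _ 6539 400000))) (enc_norm (enc_mul (enc_norm (txg_234.enc h1 h2 h3)) (enc_norm (enc_sub (enc_rat _ 3 10) h1)))))) (enc_add (enc_add (enc_sub (enc_rat _ 7125363 100000000) (enc_scale 342857 2000000 h1)) (enc_mul (enc_norm (txg_4.enc h1 h2 h3)) (enc_norm (enc_sub (enc_rat _ 1650601 10000000) (enc_scale 313 1250 h1))))) (enc_mul (enc_norm (enc_add (enc_scale 608067 200000 (txg_4.enc h1 h2 h3)) (enc_rat _ 6627 2000000))) (enc_norm (enc_mul (enc_norm (txg_315.enc h1 h2 h3)) (enc_norm (enc_sub (enc_rat _ 9 25) h1))))))) (enc_case (txg_353.enc h1 h2 h3) (enc_add (enc_add (enc_sub (enc_rat _ 33684291 700000000) (enc_scale 750187 7000000 h1)) (enc_mul (enc_norm (txg_4.enc h1 h2 h3)) (enc_norm (enc_sub (enc_rat _ 3968879 14000000) (enc_scale 405563 700000 h1))))) (enc_mul (enc_norm (enc_subr 920827 1000000 (enc_scale 41873 20000 (txg_4.enc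 h1 h2 h3)))) (enc_norm (enc_mul (enc_norm (txg_314.enc h1 h2 h3)) (enc_norm (enc_sub (enc_rat _ 43 100) h1)))))) (enc_add (enc_add (enc_sub (enc_rat _ 163 11200) (enc_scale 163 5600 h1)) (enc_mul (enc_norm (txg_4.enc h1 h2 h3)) (enc_norm (enc_sub (enc_rat _ 171799 700000) (enc_scale 171799 350000 h1))))) (enc_mul (enc_norm (enc_subr 3887 20000 (enc_neg (enc_scale 671647 200000 (txg_4.enc h1 h2 h3))))) (enc_norm (enc_mul (enc_norm (txg_353.enc h1 h2 h3)) (enc_norm (enc_sub (enc_rat _ 1 2) h1))))))))))))⟩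
noncomputable def l0q0 : Fn2 := ⟨_, _, fun h1 h2 => (enc_norm (txg.enc (enc_norm (enc_sub (enc_scale 3 4 h1) (enc_half (c1g.enc h1)))) (c1g.enc h1) h2))⟩
noncomputable def kf0q1_10 : Fn2 := ⟨_, _, fun h1 h2 => (enc_scale 3 2 h1)⟩
noncomputable def kf0q1 : Fn2 := ⟨_, _, fun h1 h2 => (enc_norm (enc_add (enc_mul (enc_norm (enc_mul (enc_norm (enc_add (enc_pnc _ 1) (enc_nat 2 (c1g.enc h1)))) (enc_norm (enc_sub (kf0q1_10.enc h1 h2) (c1g.enc h1))))) (enc_inv (enc_nat 2 (enc_sub (enc_add (enc_pnc _ 1) (kf0q1_10.enc h1 h2)) (c1g.enc h1))))) (enc_mul (enc_norm (enc_subn 1 h1)) (kcg.enc (enc_norm (enc_sub (enc_scale 3 4 h1) (enc_half (c1g.enc h1)))) h2))))⟩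
noncomputable def l0q1 : Fn2 := ⟨_, _, fun h1 h2 => (enc_norm (txg.enc (enc_norm (enc_sub (enc_scale 3 4 h1) (enc_half (c1g.enc h1)))) (c1g.enc h1) h2))⟩
noncomputable def yag : Fn1 := ⟨_, _, fun h1 => (enc_sqrt (enc_scale 4 3 (enc_sub (enc_pnc _ 1) (enc_sq h1))))⟩
noncomputable def kfc02 : Fn2 := ⟨_, _, fun h1 h2 => (enc_norm (enc_add h1 (enc_mul (enc_norm (enc_subn 1 (yag.enc h1))) (kcg.enc (enc_neg h1) h2))))⟩
noncomputable def lc02_7 : Fn2 := ⟨_, _, fun h1 h2 => (enc_scale 3 4 (yag.enc h1))⟩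
noncomputable def lc02_8 : Fn2 := ⟨_, _, fun h1 h2 => (enc_half h1)⟩
noncomputable def lc02 : Fn2 := ⟨_, _, fun h1 h2 => (enc_norm (enc_sub (txg.enc (enc_neg h1) (enc_norm (enc_add (lc02_7.enc h1 h2) (lc02_8.enc h1 h2))) h2) (txg.enc h1 (enc_norm (enc_sub (lc02_7.enc h1 h2) (lc02_8.enc h1 h2))) h2)))⟩
noncomputable def swg : Fn1 := ⟨_, _, fun h1 => (enc_sqrt (enc_sub (enc_pnc _ 1) (enc_scale 3 4 (enc_sq (enc_norm (enc_subn 1 h1))))))⟩
noncomputable def cv1m : Fn1 := ⟨_, _, fun h1 => (enc_norm (enc_add (enc_scale 2 5 (c1g.enc h1)) (enc_scale 3 5 (enc_add (swg.enc h1) (enc_rat _ 1 2)))))⟩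
noncomputable def bf1q0_3 : Fn2 := ⟨_, _, fun h1 h2 => (enc_subr 7 128 h2)⟩
noncomputable def bf1q0_11 : Fn2 := ⟨_, _, fun h1 h2 => (enc_sub (enc_pnc _ 1) (enc_scale 64933 50000 h1))⟩
noncomputable def bf1q0 : Fn2 := ⟨_, _, fun h1 h2 => (enc_norm (enc_case (enc_subr 1 20 h1) (enc_case (enc_subr 3 200 h1) (enc_sub (bf1q0_11.enc h1 h2) (enc_mul (enc_norm (bf1q0_3.enc h1 h2)) (enc_scale 1 200 h1))) (enc_add (bf1q0_11.enc h1 h2) (enc_mul (enc_norm (bf1q0_3.enc h1 h2)) (enc_norm (enc_sub (enc_rat _ 9 7000000) (enc_scale 89 17500 h1)))))) (enc_case (enc_subr 3 25 h1) (enc_add (enc_sub (enc_rat _ 14000003 14000000) (enc_scale 181813 140000 h1)) (enc_mul (enc_norm (bf1q0_3.enc h1 h2)) (enc_norm (enc_sub (enc_rat _ 19 7000000) (enc_scale 179 35000 h1))))) (enc_case (enc_subr 1 4 h1) (enc_add (enc_sub (enc_rat _ 130000069 130000000) (enc_scale 1688267 1300000 h1)) (enc_mul (enc_norm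 (bf1q0_3.enc h1 h2)) (enc_norm (enc_sub (enc_rat _ 1 520000) (enc_scale 83 16250 h1))))) (enc_add (enc_sub (enc_rat _ 1000001 1000000) (enc_scale 202917 156250 h1)) (enc_mul (enc_norm (bf1q0_3.enc h1 h2)) (enc_norm (enc_subr 1 1000000 (enc_neg (enc_scale 637 125000 h1))))))))))⟩
noncomputable def kf1q0 : Fn2 := ⟨_, _, fun h1 h2 => (enc_norm (enc_mul (cv1m.enc h1) (bf1q0.enc h1 h2)))⟩
noncomputable def bx1q0_3 : Fn2 := ⟨_, _, fun h1 h2 => (enc_subr 7 128 h2)⟩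
noncomputable def bx1q0 : Fn2 := ⟨_, _, fun h1 h2 => (enc_norm (enc_case (enc_subr 1 20 h1) (enc_case (enc_subr 3 200 h1) (enc_sub (enc_scale 32629 150000 h1) (enc_mul (enc_norm (bx1q0_3.enc h1 h2)) (enc_scale 111 5000 h1))) (enc_add (enc_subr 1 14000000 (enc_scale 9517 43750 h1)) (enc_mul (enc_norm (bx1q0_3.enc h1 h2)) (enc_norm (enc_subr 3 200000 (enc_neg (enc_scale 53 2500 h1))))))) (enc_case (enc_subr 3 25 h1) (enc_add (enc_subr 1 2800000 (enc_scale 38069 175000 h1)) (enc_mul (enc_norm (bx1q0_3.enc h1 h2)) (enc_norm (enc_subr 37 700000 (enc_neg (enc_scale 1431 70000 h1)))))) (enc_case (enc_subr 1 4 h1) (enc_add (enc_subr 7 130000000 (enc_scale 56559 260000 h1)) (enc_mul (enc_norm (bx1q0_3.enc h1 h2)) (enc_norm (enc_subr 677 6500000 (enc_neg (enc_scale 1301 65000 h1)))))) (enc_add (enc_add (enc_scale 543833 2500000 h1) (enc_rat _ 3 10000000)) (enc_mul (enc_norm (bx1q0_3.enc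 h1 h2)) (enc_norm (enc_subr 69 500000 (enc_neg (enc_scale 497 25000 h1))))))))))⟩
noncomputable def l1q0 : Fn2 := ⟨_, _, fun h1 h2 => (enc_norm (enc_mul (cv1m.enc h1) (bx1q0.enc h1 h2)))⟩
noncomputable def bf1q1_3 : Fn2 := ⟨_, _, fun h1 h2 => (enc_subr 7 128 h2)⟩
noncomputable def bf1q1 : Fn2 := ⟨_, _, fun h1 h2 => (enc_norm (enc_case (enc_subr 22 25 h1) (enc_case (enc_subr 3 4 h1) (enc_add (enc_sub (enc_rat _ 13405911 10000000) (enc_scale 1460571 2500000 h1)) (enc_mul (enc_norm (bf1q1_3.enc h1 h2)) (enc_norm (enc_subr 32643 1000000 (enc_scale 13157 250000 h1))))) (enc_add (enc_sub (enc_rat _ 174276849 130000000) (enc_scale 759497 1300000 h1)) (enc_mul (enc_norm (bf1q1_3.enc h1 h2)) (enc_norm (enc_subr 426561 13000000 (enc_scale 6871 130000 h1)))))) (enc_case (enc_subr 19 20 h1) (enc_add (enc_sub (enc_rat _ 536237 400000) (enc_scale 58423 100000 h1)) (enc_mul (enc_norm (bf1q1_3.enc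 h1 h2)) (enc_norm (enc_subr 231467 7000000 (enc_scale 93 1750 h1))))) (enc_case (enc_subr 197 200 h1) (enc_add (enc_sub (enc_rat _ 9384157 7000000) (enc_scale 204481 350000 h1)) (enc_mul (enc_norm (bf1q1_3.enc h1 h2)) (enc_norm (enc_subr 232987 7000000 (enc_scale 467 8750 h1))))) (enc_add (enc_sub (enc_rat _ 1608707 1200000) (enc_scale 43817 75000 h1)) (enc_mul (enc_norm (bf1q1_3.enc h1 h2)) (enc_norm (enc_subr 10033 300000 (enc_scale 803 15000 h1)))))))))⟩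
noncomputable def kf1q1 : Fn2 := ⟨_, _, fun h1 h2 => (enc_norm (enc_mul (cv1m.enc h1) (bf1q1.enc h1 h2)))⟩
noncomputable def bx1q1_3 : Fn2 := ⟨_, _, fun h1 h2 => (enc_subr 7 128 h2)⟩
noncomputable def bx1q1 : Fn2 := ⟨_, _, fun h1 h2 => (enc_norm (enc_case (enc_subr 22 25 h1) (enc_case (enc_subr 3 4 h1) (enc_add (enc_sub (enc_rat _ 74177 5000000) (enc_scale 18887 2500000 h1)) (enc_mul (enc_norm (bx1q1_3.enc h1 h2)) (enc_norm (enc_subr 41359 125000 (enc_scale 112391 250000 h1))))) (enc_add (enc_sub (enc_rat _ 1931359 130000000) (enc_scale 4929 650000 h1)) (enc_mul (enc_norm (bx1q1_3.enc h1 h2)) (enc_norm (enc_subr 4315187 13000000 (enc_scale 14657 32500 h1)))))) (enc_case (enc_subr 19 20 h1) (enc_add (enc_sub (enc_rat _ 208553 14000000) (enc_scale 267 35000 h1)) (enc_mul (enc_norm (bx1q1_3.enc h1 h2)) (enc_norm (enc_subr 333623 1000000 (enc_scale 4529 10000 h1))))) (enc_case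 (enc_subr 197 200 h1) (enc_add (enc_sub (enc_rat _ 8371 560000) (enc_scale 2689 350000 h1)) (enc_mul (enc_norm (bx1q1_3.enc h1 h2)) (enc_norm (enc_subr 586809 1750000 (enc_scale 7957 17500 h1))))) (enc_add (enc_sub (enc_rat _ 18731 1250000) (enc_scale 193 25000 h1)) (enc_mul (enc_norm (bx1q1_3.enc h1 h2)) (enc_norm (enc_subr 1010827 3000000 (enc_scale 1369 3000 h1)))))))))⟩
noncomputable def l1q1 : Fn2 := ⟨_, _, fun h1 h2 => (enc_norm (enc_mul (cv1m.enc h1) (bx1q1.enc h1 h2)))⟩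
noncomputable def xc12a : Fn1 := ⟨_, _, fun h1 => (enc_norm (enc_add (enc_scale 2 5 h1) (enc_scale 3 5 (enc_subr 1 2 (swg.enc (yag.enc h1))))))⟩
noncomputable def bf1q2_3 : Fn2 := ⟨_, _, fun h1 h2 => (enc_subr 7 128 h2)⟩
noncomputable def bf1q2_52 : Fn2 := ⟨_, _, fun h1 h2 => (enc_scale 500819 2000000 h1)⟩
noncomputable def bf1q2 : Fn2 := ⟨_, _, fun h1 h2 => (enc_norm (enc_case (enc_subr 27 25 h1) (enc_case (enc_subr 203 200 h1) (enc_add (enc_add (enc_scale 6257 25000 h1) (enc_rat _ 18743 25000)) (enc_mul (enc_norm (bf1q2_3.enc h1 h2)) (enc_norm (enc_subr 127 7500 (enc_scale 127 7500 h1))))) (enc_case (enc_subr 21 20 h1) (enc_add (enc_add (enc_scale 8763 35000 h1) (enc_rat _ 468517 625000)) (enc_mul (enc_norm (bf1q2_3.enc h1 h2)) (enc_norm (enc_subr 163 500000 (enc_scale 1 1750 h1))))) (enc_add (enc_add (enc_scale 75127 300000 h1) (enc_rat _ 7495727 10000000)) (enc_mul (enc_norm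 (bf1q2_3.enc h1 h2)) (enc_norm (enc_sub (enc_rat _ 1303 125000) (enc_scale 29 3000 h1))))))) (enc_case (enc_subr 231 200 h1) (enc_case (enc_subr 577 500 h1) (enc_add (enc_add (enc_scale 18533163 74000000 h1) (enc_rat _ 693329957 925000000)) (enc_mul (enc_norm (bf1q2_3.enc h1 h2)) (enc_norm (enc_subr 577 2312500 (enc_scale 1 4625 h1))))) (enc_add (bf1q2_52.enc h1 h2) (enc_rat _ 1499181 2000000))) (enc_case (enc_subr 13 10 h1) (enc_add (enc_add (enc_scale 14523731 58000000 h1) (enc_rat _ 434762721 580000000)) (enc_mul (enc_norm (bf1q2_3.enc h1 h2)) (enc_norm (enc_sub (enc_rat _ 497343 29000000) (enc_scale 2153 145000 h1))))) (enc_add (enc_add (bf1q2_52.enc h1 h2) (enc_rat _ 14991809 20000000)) (enc_mul (enc_norm (bf1q2_3.enc h1 h2)) (enc_norm (enc_sub (enc_rat _ 2797 400000) (enc_scale 1407 200000 h1)))))))))⟩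
noncomputable def kfc12a : Fn2 := ⟨_, _, fun h1 h2 => (enc_norm (enc_mul (enc_norm (enc_add (enc_scale 2 5 h1) (enc_scale 3 5 (enc_subr 1 2 (swg.enc (yag.enc h1)))))) (bf1q2.enc (yag.enc h1) h2)))⟩
noncomputable def bx1q2_3 : Fn2 := ⟨_, _, fun h1 h2 => (enc_subr 7 128 h2)⟩
noncomputable def bx1q2 : Fn2 := ⟨_, _, fun h1 h2 => (enc_norm (enc_case (enc_subr 27 25 h1) (enc_case (enc_subr 203 200 h1) (enc_add (enc_subr 173 5000 (enc_scale 173 5000 h1)) (enc_mul (enc_norm (bx1q2_3.enc h1 h2)) (enc_norm (enc_subr 5033 7500 (enc_scale 5033 7500 h1))))) (enc_case (enc_subr 21 20 h1) (enc_add (enc_subr 85891 2500000 (enc_scale 859 25000 h1)) (enc_mul (enc_norm (bx1q2_3.enc h1 h2)) (enc_norm (enc_subr 20357 31250 (enc_scale 2281 3500 h1))))) (enc_add (enc_subr 289909 10000000 (enc_scale 117 4000 h1)) (enc_mul (enc_norm (bx1q2_3.enc h1 h2)) (enc_norm (enc_subr 429369 1000000 (enc_scale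 13207 30000 h1))))))) (enc_case (enc_subr 231 200 h1) (enc_case (enc_subr 577 500 h1) (enc_add (enc_subr 6167593 370000000 (enc_scale 39607 2220000 h1)) (enc_mul (enc_norm (bx1q2_3.enc h1 h2)) (enc_norm (enc_subr 6741609 37000000 (enc_scale 7821 37000 h1))))) (enc_add (enc_rat _ 5879 1500000) (enc_scale 2469 40000 (bx1q2_3.enc h1 h2)))) (enc_case (enc_subr 13 10 h1) (enc_add (enc_add (enc_scale 1 870000 h1) (enc_rat _ 681733 174000000)) (enc_mul (enc_norm (bx1q2_3.enc h1 h2)) (enc_norm (enc_sub (enc_rat _ 1879191 29000000) (enc_scale 193 72500 h1))))) (enc_add (enc_add (enc_scale 1 500000 h1) (enc_rat _ 39169 10000000)) (enc_mul (enc_norm (bx1q2_3.enc h1 h2)) (enc_norm (enc_sub (enc_rat _ 26483 400000) (enc_scale 749 200000 h1)))))))))⟩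
noncomputable def lc12a : Fn2 := ⟨_, _, fun h1 h2 => (enc_norm (enc_mul (enc_norm (enc_add (enc_scale 2 5 h1) (enc_scale 3 5 (enc_subr 1 2 (swg.enc (yag.enc h1)))))) (bx1q2.enc (yag.enc h1) h2)))⟩
noncomputable def xc12b : Fn1 := ⟨_, _, fun h1 => (enc_norm (enc_scale 3 5 (enc_subr 1 2 (swg.enc h1))))⟩
noncomputable def kfc12b : Fn2 := ⟨_, _, fun h1 h2 => (enc_norm (enc_mul (enc_norm (enc_scale 3 5 (enc_subr 1 2 (swg.enc h1)))) (bf1q2.enc h1 h2)))⟩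
noncomputable def lc12b : Fn2 := ⟨_, _, fun h1 h2 => (enc_norm (enc_mul (enc_norm (enc_scale 3 5 (enc_subr 1 2 (swg.enc h1)))) (bx1q2.enc h1 h2)))⟩
noncomputable def cv1r : Fn1 := ⟨_, _, fun h1 => (enc_norm (enc_scale 3 5 (enc_subr 1 2 (swg.enc h1))))⟩
noncomputable def bf1q3_3 : Fn2 := ⟨_, _, fun h1 h2 => (enc_subr 7 128 h2)⟩
noncomputable def bf1q3_34 : Fn2 := ⟨_, _, fun h1 h2 => (enc_subr 445706273 70000000 (enc_scale 671577 175000 h1))⟩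
noncomputable def bf1q3 : Fn2 := ⟨_, _, fun h1 h2 => (enc_norm (enc_case (enc_subr 47 25 h1) (enc_case (enc_subr 7 4 h1) (enc_add (enc_subr 63672323 10000000 (enc_scale 9593957 2500000 h1)) (enc_mul (enc_norm (bf1q3_3.enc h1 h2)) (enc_norm (enc_subr 1859 500000 (enc_scale 121 62500 h1))))) (enc_add (enc_subr 827740087 130000000 (enc_scale 4988857 1300000 h1)) (enc_mul (enc_norm (bf1q3_3.enc h1 h2)) (enc_norm (enc_subr 9643 2600000 (enc_scale 251 130000 h1)))))) (enc_case (enc_subr 39 20 h1) (enc_add (bf1q3_34.enc h1 h2) (enc_mul (enc_norm (bf1q3_3.enc h1 h2)) (enc_norm (enc_subr 25933 7000000 (enc_scale 27 14000 h1))))) (enc_case (enc_subr 397 200 h1) (enc_add (bf1q3_34.enc h1 h2) (enc_mul (enc_norm (bf1q3_3.enc h1 h2)) (enc_norm (enc_subr 1633 437500 (enc_scale 17 8750 h1))))) (enc_add (enc_subr 15918067 2500000 (enc_scale 191879 50000 h1)) (enc_mul (enc_norm (bf1q3_3.enc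 h1 h2)) (enc_norm (enc_subr 11141 3000000 (enc_scale 29 15000 h1)))))))))⟩
noncomputable def kf1q3 : Fn2 := ⟨_, _, fun h1 h2 => (enc_norm (enc_mul (cv1r.enc h1) (bf1q3.enc h1 h2)))⟩
noncomputable def bx1q3_3 : Fn2 := ⟨_, _, fun h1 h2 => (enc_subr 7 128 h2)⟩
noncomputable def bx1q3 : Fn2 := ⟨_, _, fun h1 h2 => (enc_norm (enc_case (enc_subr 47 25 h1) (enc_case (enc_subr 7 4 h1) (enc_add (enc_subr 3745481 2000000 (enc_scale 2653813 2500000 h1)) (enc_mul (enc_norm (bx1q3_3.enc h1 h2)) (enc_norm (enc_sub (enc_rat _ 326283 1000000) (enc_scale 42213 250000 h1))))) (enc_add (enc_subr 121728241 65000000 (enc_scale 86249 81250 h1)) (enc_mul (enc_norm (bx1q3_3.enc h1 h2)) (enc_norm (enc_sub (enc_rat _ 529187 1625000) (enc_scale 1369 8125 h1)))))) (enc_case (enc_subr 39 20 h1) (enc_add (enc_subr 65545853 35000000 (enc_scale 743067 700000 h1)) (enc_mul (enc_norm (bx1q3_3.enc h1 h2)) (enc_norm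 (enc_sub (enc_rat _ 569167 1750000) (enc_scale 11779 70000 h1))))) (enc_case (enc_subr 397 200 h1) (enc_add (enc_subr 131091901 70000000 (enc_scale 185767 175000 h1)) (enc_mul (enc_norm (bx1q3_3.enc h1 h2)) (enc_norm (enc_sub (enc_rat _ 325099 1000000) (enc_scale 841 5000 h1))))) (enc_add (enc_subr 561823 300000 (enc_scale 159229 150000 h1)) (enc_mul (enc_norm (bx1q3_3.enc h1 h2)) (enc_norm (enc_sub (enc_rat _ 9749 30000) (enc_scale 1261 7500 h1)))))))))⟩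
noncomputable def l1q3 : Fn2 := ⟨_, _, fun h1 h2 => (enc_norm (enc_mul (cv1r.enc h1) (bx1q3.enc h1 h2)))⟩
noncomputable def cv2m : Fn1 := ⟨_, _, fun h1 => (enc_norm (enc_add (swg.enc h1) (enc_rat _ 1 2)))⟩
noncomputable def bf2q0_3 : Fn2 := ⟨_, _, fun h1 h2 => (enc_subr 7 128 h2)⟩
noncomputable def bf2q0 : Fn2 := ⟨_, _, fun h1 h2 => (enc_norm (enc_case (enc_subr 1 20 h1) (enc_case (enc_subr 3 200 h1) (enc_sub (enc_sub (enc_pnc _ 1) (enc_scale 604597 150000 h1)) (enc_mul (enc_norm (bf2q0_3.enc h1 h2)) (enc_scale 3 200 h1))) (enc_add (enc_sub (enc_rat _ 35000001 35000000) (enc_scale 1410727 350000 h1)) (enc_mul (enc_norm (bf2q0_3.enc h1 h2)) (enc_norm (enc_sub (enc_rat _ 9 7000000) (enc_scale 66 4375 h1)))))) (enc_case (enc_subr 3 25 h1) (enc_add (enc_sub (enc_rat _ 70000017 70000000) (enc_scale 2821457 700000 h1)) (enc_mul (enc_norm (bf2q0_3.enc h1 h2)) (enc_norm (enc_sub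 (enc_rat _ 59 7000000) (enc_scale 533 35000 h1))))) (enc_case (enc_subr 1 4 h1) (enc_add (enc_sub (enc_rat _ 130000083 130000000) (enc_scale 5239853 1300000 h1)) (enc_mul (enc_norm (bf2q0_3.enc h1 h2)) (enc_norm (enc_sub (enc_rat _ 413 13000000) (enc_scale 401 26000 h1))))) (enc_add (enc_sub (enc_rat _ 5000007 5000000) (enc_scale 1259581 312500 h1)) (enc_mul (enc_norm (bf2q0_3.enc h1 h2)) (enc_norm (enc_sub (enc_rat _ 67 1000000) (enc_scale 3891 250000 h1)))))))))⟩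
noncomputable def kf2q0 : Fn2 := ⟨_, _, fun h1 h2 => (enc_norm (enc_mul (cv2m.enc h1) (bf2q0.enc h1 h2)))⟩
noncomputable def bx2q0_3 : Fn2 := ⟨_, _, fun h1 h2 => (enc_subr 7 128 h2)⟩
noncomputable def bx2q0 : Fn2 := ⟨_, _, fun h1 h2 => (enc_norm (enc_case (enc_subr 1 20 h1) (enc_case (enc_subr 3 200 h1) (enc_sub (enc_scale 22061 150000 h1) (enc_mul (enc_norm (bx2q0_3.enc h1 h2)) (enc_scale 5917 15000 h1))) (enc_add (enc_subr 1 7000000 (enc_scale 51479 350000 h1)) (enc_mul (enc_norm (bx2q0_3.enc h1 h2)) (enc_norm (enc_subr 1 1750000 (enc_neg (enc_scale 2761 7000 h1))))))) (enc_case (enc_subr 3 25 h1) (enc_add (enc_subr 9 7000000 (enc_scale 51487 350000 h1)) (enc_mul (enc_norm (bx2q0_3.enc h1 h2)) (enc_norm (enc_subr 3 250000 (enc_neg (enc_scale 1971 5000 h1)))))) (enc_case (enc_subr 1 4 h1) (enc_add (enc_subr 309 65000000 (enc_scale 7651 52000 h1)) (enc_mul (enc_norm (bx2q0_3.enc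 h1 h2)) (enc_norm (enc_subr 33 812500 (enc_neg (enc_scale 10243 26000 h1)))))) (enc_add (enc_subr 21 2000000 (enc_scale 183947 1250000 h1)) (enc_mul (enc_norm (bx2q0_3.enc h1 h2)) (enc_norm (enc_sub (enc_rat _ 7 250000) (enc_scale 98559 250000 h1)))))))))⟩
noncomputable def l2q0 : Fn2 := ⟨_, _, fun h1 h2 => (enc_norm (enc_mul (cv2m.enc h1) (bx2q0.enc h1 h2)))⟩
noncomputable def gsg : Fn1 := ⟨_, _, fun h1 => (enc_sqrt (enc_sub (enc_pnc _ 1) (enc_scale 3 4 (enc_sq h1))))⟩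
noncomputable def esg : Fn1 := ⟨_, _, fun h1 => (enc_norm (enc_subn 1 (enc_add (enc_half h1) (gsg.enc h1))))⟩
noncomputable def kf2q1_4 : Fn2 := ⟨_, _, fun h1 h2 => (enc_subr 7 128 h2)⟩
noncomputable def kf2q1_66 : Fn2 := ⟨_, _, fun h1 h2 => (enc_sub (enc_pnc _ 1) h1)⟩
noncomputable def kf2q1_67 : Fn2 := ⟨_, _, fun h1 h2 => (gsg.enc (enc_norm (kf2q1_66.enc h1 h2)))⟩
noncomputable def kf2q1_73 : Fn2 := ⟨_, _, fun h1 h2 => (enc_scale 3 2 (kf2q1_66.enc h1 h2))⟩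
noncomputable def kf2q1_75 : Fn2 := ⟨_, _, fun h1 h2 => (enc_add (enc_pnc _ 1) (kf2q1_67.enc h1 h2))⟩
noncomputable def kf2q1 : Fn2 := ⟨_, _, fun h1 h2 => (enc_norm (enc_case (enc_subr 59 64 h1) (enc_mul (cv2m.enc h1) (enc_norm (enc_case (enc_subr 3 4 h1) (enc_add (enc_subr 36058193 10000000 (enc_scale 6183471 1250000 h1)) (enc_mul (enc_norm (kf2q1_4.enc h1 h2)) (enc_norm (enc_sub (enc_rat _ 14923 1000000) (enc_scale 2223 125000 h1))))) (enc_case (enc_subr 22 25 h1) (enc_add (enc_subr 468756671 130000000 (enc_scale 1607703 325000 h1)) (enc_mul (enc_norm (kf2q1_4.enc h1 h2)) (enc_norm (enc_sub (enc_rat _ 19423 1300000) (enc_scale 463 26000 h1))))) (enc_add (enc_subr 301987410413 83750000000 (enc_scale 1035731569 209375000 h1)) (enc_mul (enc_norm (kf2q1_4.enc h1 h2)) (enc_norm (enc_sub (enc_rat _ 47969133 4187500000) (enc_scale 579841 41875000 h1))))))))) (enc_case (enc_subr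 31 32 h1) (enc_add (enc_add (enc_mul (enc_norm (enc_mul (enc_norm (enc_sub (kf2q1_67.enc h1 h2) (kf2q1_73.enc h1 h2))) (enc_norm (kf2q1_75.enc h1 h2)))) (enc_inv (enc_sub (kf2q1_75.enc h1 h2) (kf2q1_73.enc h1 h2)))) (enc_mul (enc_norm (enc_sub (enc_half (kf2q1_66.enc h1 h2)) (enc_mul (enc_scale 3 4 (enc_sq (enc_norm (kf2q1_66.enc h1 h2)))) (enc_inv (kf2q1_67.enc h1 h2))))) (enc_inv (enc_nat 2 (esg.enc (enc_norm (kf2q1_66.enc h1 h2))))))) (enc_mul (kcg.enc (enc_norm (enc_sub (enc_scale 3 4 (kf2q1_66.enc h1 h2)) (enc_half (kf2q1_67.enc h1 h2)))) h2) (enc_norm (kf2q1_66.enc h1 h2)))) (enc_mul (cv2m.enc h1) (enc_norm (enc_case (enc_subr 197 200 h1) (enc_add (enc_add (enc_scale 45702967 81250000 h1) (enc_rat _ 7125826751 16250000000)) (enc_mul (enc_norm (kf2q1_4.enc h1 h2)) (enc_norm (enc_sub (enc_rat _ 513363 325000000) (enc_scale 3279 1625000 h1))))) (enc_add (enc_add (enc_scale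 7427 15000 h1) (enc_rat _ 7573 15000)) (enc_mul (enc_norm (kf2q1_4.enc h1 h2)) (enc_norm (enc_subr 17 625 (enc_scale 17 625 h1)))))))))))⟩
noncomputable def qsg : Fn1 := ⟨_, _, fun h1 => (enc_norm (enc_mul (enc_norm (enc_sub (enc_pnc _ 1) (gsg.enc h1))) (enc_norm (enc_subn 1 (enc_nat 2 (gsg.enc h1))))))⟩
noncomputable def l2q1_4 : Fn2 := ⟨_, _, fun h1 h2 => (enc_subr 7 128 h2)⟩
noncomputable def l2q1_43 : Fn2 := ⟨_, _, fun h1 h2 => (enc_sq (enc_norm (l2q1_4.enc h1 h2)))⟩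
noncomputable def l2q1_81 : Fn2 := ⟨_, _, fun h1 h2 => (enc_sub (enc_pnc _ 1) h1)⟩
noncomputable def l2q1 : Fn2 := ⟨_, _, fun h1 h2 => (enc_norm (enc_case (enc_subr 59 64 h1) (enc_mul (cv2m.enc h1) (enc_norm (enc_case (enc_subr 3 4 h1) (enc_add (enc_sub (enc_rat _ 799773 10000000) (enc_scale 213777 2500000 h1)) (enc_mul (enc_norm (l2q1_4.enc h1 h2)) (enc_norm (enc_sub (enc_rat _ 1300751 1000000) (enc_scale 17639 12500 h1))))) (enc_case (enc_subr 22 25 h1) (enc_add (enc_sub (enc_rat _ 10396221 130000000) (enc_scale 111153 1300000 h1)) (enc_mul (enc_norm (l2q1_4.enc h1 h2)) (enc_norm (enc_sub (enc_rat _ 162517 125000) (enc_scale 14103 10000 h1))))) (enc_add (enc_add (enc_sub (enc_rat _ 6696698767 83750000000) (enc_scale 35799167 418750000 h1)) (enc_mul (enc_norm (l2q1_4.enc h1 h2)) (enc_norm (enc_sub (enc_rat _ 504877379 523437500) (enc_scale 43086989 41875000 h1))))) (enc_mul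 (l2q1_43.enc h1 h2) (enc_norm (enc_sub (enc_rat _ 27126 1046875) (enc_scale 1233 41875 h1))))))))) (enc_case (enc_subr 31 32 h1) (enc_sub (qsg.enc (enc_norm (l2q1_81.enc h1 h2))) (enc_mul (enc_norm (enc_nat 2 (enc_sub (l2q1_81.enc h1 h2) h2))) (enc_norm (enc_mul (esg.enc (enc_norm (l2q1_81.enc h1 h2))) (kcg.enc (enc_norm (enc_sub (enc_scale 3 4 (l2q1_81.enc h1 h2)) (enc_half (gsg.enc (enc_norm (l2q1_81.enc h1 h2)))))) h2))))) (enc_mul (cv2m.enc h1) (enc_norm (enc_case (enc_subr 197 200 h1) (enc_add (enc_add (enc_sub (enc_rat _ 457320783 32500000000) (enc_scale 2290839 162500000 h1)) (enc_mul (enc_norm (l2q1_4.enc h1 h2)) (enc_norm (enc_sub (enc_rat _ 37567341 130000000) (enc_scale 189023 650000 h1))))) (enc_mul (l2q1_43.enc h1 h2) (enc_norm (enc_subr 36051 1625000 (enc_scale 183 8125 h1))))) (enc_add (enc_sub (enc_rat _ 309 25000) (enc_scale 309 25000 h1)) (enc_mul (enc_norm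 (l2q1_4.enc h1 h2)) (enc_norm (enc_sub (enc_rat _ 2537 15000) (enc_scale 2537 15000 h1)))))))))))⟩
noncomputable def cv2p : Fn1 := ⟨_, _, fun h1 => (enc_norm (enc_subr 1 2 (swg.enc h1)))⟩
noncomputable def xc22a : Fn1 := ⟨_, _, fun h1 => (cv2p.enc (yag.enc h1))⟩
noncomputable def kfc22a_3 : Fn2 := ⟨_, _, fun h1 h2 => (cv2p.enc (yag.enc h1))⟩
noncomputable def kfc22a_5 : Fn2 := ⟨_, _, fun h1 h2 => (enc_subr 7 128 h2)⟩
noncomputable def kfc22a_68 : Fn2 := ⟨_, _, fun h1 h2 => (enc_subn 1 (yag.enc h1))⟩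
noncomputable def kfc22a_69 : Fn2 := ⟨_, _, fun h1 h2 => (gsg.enc (enc_norm (kfc22a_68.enc h1 h2)))⟩
noncomputable def kfc22a_75 : Fn2 := ⟨_, _, fun h1 h2 => (enc_scale 3 2 (kfc22a_68.enc h1 h2))⟩
noncomputable def kfc22a_77 : Fn2 := ⟨_, _, fun h1 h2 => (enc_add (enc_pnc _ 1) (kfc22a_69.enc h1 h2))⟩
noncomputable def kfc22a : Fn2 := ⟨_, _, fun h1 h2 => (enc_norm (enc_case (enc_subr 33 32 (yag.enc h1)) (enc_mul (kfc22a_3.enc h1 h2) (enc_norm (enc_case (enc_subr 203 200 (yag.enc h1)) (enc_add (enc_sub (enc_rat _ 157991 150000) (enc_scale 7991 150000 (yag.enc h1))) (enc_mul (enc_norm (kfc22a_5.enc h1 h2)) (enc_norm (enc_sub (enc_rat _ 137 3000) (enc_scale 137 3000 (yag.enc h1)))))) (enc_add (enc_sub (enc_rat _ 106976101 101562500) (enc_scale 866169 16250000 (yag.enc h1))) (enc_mul (enc_norm (kfc22a_5.enc h1 h2)) (enc_norm (enc_sub (enc_rat _ 87333087 3250000000) (enc_scale 441179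 16250000 (yag.enc h1))))))))) (enc_case (enc_subr 69 64 (yag.enc h1)) (enc_add (enc_sub (enc_mul (enc_norm (enc_mul (enc_norm (enc_sub (kfc22a_69.enc h1 h2) (kfc22a_75.enc h1 h2))) (enc_norm (kfc22a_77.enc h1 h2)))) (enc_inv (enc_sub (kfc22a_77.enc h1 h2) (kfc22a_75.enc h1 h2)))) (enc_mul (enc_norm (enc_sub (enc_half (kfc22a_68.enc h1 h2)) (enc_mul (enc_scale 3 4 (enc_sq (enc_norm (kfc22a_68.enc h1 h2)))) (enc_inv (kfc22a_69.enc h1 h2))))) (enc_inv (enc_nat 2 (esg.enc (enc_norm (kfc22a_68.enc h1 h2))))))) (enc_mul (kcg.enc (enc_norm (enc_sub (enc_scale 3 4 (kfc22a_68.enc h1 h2)) (enc_half (kfc22a_69.enc h1 h2)))) h2) (enc_norm (kfc22a_68.enc h1 h2)))) (enc_mul (kfc22a_3.enc h1 h2) (enc_norm (enc_case (enc_subr 29 25 (yag.enc h1)) (enc_add (enc_sub (enc_rat _ 1623277181641 163750000000) (enc_scale 6777518763 818750000 (yag.enc h1))) (enc_mul (enc_norm (kfc22a_5.enc h1 h2))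 (enc_norm (enc_subr 115889369 8187500000 (enc_scale 96948 10234375 (yag.enc h1)))))) (enc_case (enc_subr 13 10 (yag.enc h1)) (enc_add (enc_sub (enc_rat _ 3965257 400000) (enc_scale 1655577 200000 (yag.enc h1))) (enc_mul (enc_norm (kfc22a_5.enc h1 h2)) (enc_norm (enc_subr 5301 250000 (enc_scale 311 20000 (yag.enc h1)))))) (enc_add (enc_sub (enc_rat _ 198262837 20000000) (enc_scale 16555769 2000000 (yag.enc h1))) (enc_mul (enc_norm (kfc22a_5.enc h1 h2)) (enc_norm (enc_subr 661 31250 (enc_scale 1551 100000 (yag.enc h1)))))))))))))⟩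
noncomputable def lc22a_3 : Fn2 := ⟨_, _, fun h1 h2 => (cv2p.enc (yag.enc h1))⟩
noncomputable def lc22a_5 : Fn2 := ⟨_, _, fun h1 h2 => (enc_subr 7 128 h2)⟩
noncomputable def lc22a_32 : Fn2 := ⟨_, _, fun h1 h2 => (enc_sq (enc_norm (lc22a_5.enc h1 h2)))⟩
noncomputable def lc22a_81 : Fn2 := ⟨_, _, fun h1 h2 => (enc_subn 1 (yag.enc h1))⟩
noncomputable def lc22a : Fn2 := ⟨_, _, fun h1 h2 => (enc_norm (enc_case (enc_subr 33 32 (yag.enc h1)) (enc_mul (lc22a_3.enc h1 h2) (enc_norm (enc_case (enc_subr 203 200 (yag.enc h1)) (enc_add (enc_subr 1123 30000 (enc_scale 1123 30000 (yag.enc h1))) (enc_mul (enc_norm (lc22a_5.enc h1 h2)) (enc_norm (enc_subr 4963 7500 (enc_scale 4963 7500 (yag.enc h1)))))) (enc_add (enc_add (enc_subr 683673619 16250000000 (enc_scale 1706399 40625000 (yag.enc h1))) (enc_mul (enc_norm (lc22a_5.enc h1 h2)) (enc_norm (enc_subr 1188916211 1625000000 (enc_scale 5936187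 8125000 (yag.enc h1)))))) (enc_mul (lc22a_32.enc h1 h2) (enc_norm (enc_sub (enc_rat _ 2233 32500) (enc_scale 22 325 (yag.enc h1))))))))) (enc_case (enc_subr 69 64 (yag.enc h1)) (enc_sub (qsg.enc (enc_norm (lc22a_81.enc h1 h2))) (enc_mul (enc_norm (enc_nat 2 (enc_sub (lc22a_81.enc h1 h2) h2))) (enc_norm (enc_mul (esg.enc (enc_norm (lc22a_81.enc h1 h2))) (kcg.enc (enc_norm (enc_sub (enc_scale 3 4 (lc22a_81.enc h1 h2)) (enc_half (gsg.enc (enc_norm (lc22a_81.enc h1 h2)))))) h2))))) (enc_mul (lc22a_3.enc h1 h2) (enc_norm (enc_case (enc_subr 29 25 (yag.enc h1)) (enc_add (enc_add (enc_subr 12426033989 163750000000 (enc_scale 30126851 409375000 (yag.enc h1))) (enc_mul (enc_norm (lc22a_5.enc h1 h2)) (enc_norm (enc_sub (enc_rat _ 2514575809 4093750000) (enc_scale 42994223 81875000 (yag.enc h1)))))) (enc_mul (lc22a_32.enc h1 h2) (enc_norm (enc_subr 21518 409375 (enc_scale 742 16375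 (yag.enc h1)))))) (enc_case (enc_subr 13 10 (yag.enc h1)) (enc_add (enc_subr 5312401 70000000 (enc_scale 51519 700000 (yag.enc h1))) (enc_mul (enc_norm (lc22a_5.enc h1 h2)) (enc_norm (enc_subr 32797 500000 (enc_scale 1219 20000 (yag.enc h1)))))) (enc_add (enc_subr 18973 250000 (enc_scale 73599 1000000 (yag.enc h1))) (enc_mul (enc_norm (lc22a_5.enc h1 h2)) (enc_norm (enc_subr 130239 2000000 (enc_scale 12117 200000 (yag.enc h1)))))))))))))⟩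
noncomputable def xc22b : Fn1 := ⟨_, _, fun h1 => (cv2p.enc h1)⟩
noncomputable def kfc22b_5 : Fn2 := ⟨_, _, fun h1 h2 => (enc_subr 7 128 h2)⟩
noncomputable def kfc22b_68 : Fn2 := ⟨_, _, fun h1 h2 => (enc_subn 1 h1)⟩
noncomputable def kfc22b_69 : Fn2 := ⟨_, _, fun h1 h2 => (gsg.enc (enc_norm (kfc22b_68.enc h1 h2)))⟩
noncomputable def kfc22b_75 : Fn2 := ⟨_, _, fun h1 h2 => (enc_scale 3 2 (kfc22b_68.enc h1 h2))⟩
noncomputable def kfc22b_77 : Fn2 := ⟨_, _, fun h1 h2 => (enc_add (enc_pnc _ 1) (kfc22b_69.enc h1 h2))⟩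
noncomputable def kfc22b : Fn2 := ⟨_, _, fun h1 h2 => (enc_norm (enc_case (enc_subr 33 32 h1) (enc_mul (cv2p.enc h1) (enc_norm (enc_case (enc_subr 203 200 h1) (enc_add (enc_sub (enc_rat _ 157991 150000) (enc_scale 7991 150000 h1)) (enc_mul (enc_norm (kfc22b_5.enc h1 h2)) (enc_norm (enc_sub (enc_rat _ 137 3000) (enc_scale 137 3000 h1))))) (enc_add (enc_sub (enc_rat _ 106976101 101562500) (enc_scale 866169 16250000 h1)) (enc_mul (enc_norm (kfc22b_5.enc h1 h2)) (enc_norm (enc_sub (enc_rat _ 87333087 3250000000) (enc_scale 441179 16250000 h1)))))))) (enc_case (enc_subr 69 64 h1) (enc_add (enc_sub (enc_mul (enc_norm (enc_mul (enc_norm (enc_sub (kfc22b_69.enc h1 h2) (kfc22b_75.enc h1 h2))) (enc_norm (kfc22b_77.enc h1 h2)))) (enc_inv (enc_sub (kfc22b_77.enc h1 h2) (kfc22b_75.enc h1 h2)))) (enc_mul (enc_norm (enc_sub (enc_half (kfc22b_68.enc h1 h2)) (enc_mul (enc_scale 3 4 (enc_sq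 (enc_norm (kfc22b_68.enc h1 h2)))) (enc_inv (kfc22b_69.enc h1 h2))))) (enc_inv (enc_nat 2 (esg.enc (enc_norm (kfc22b_68.enc h1 h2))))))) (enc_mul (kcg.enc (enc_norm (enc_sub (enc_scale 3 4 (kfc22b_68.enc h1 h2)) (enc_half (kfc22b_69.enc h1 h2)))) h2) (enc_norm (kfc22b_68.enc h1 h2)))) (enc_mul (cv2p.enc h1) (enc_norm (enc_case (enc_subr 29 25 h1) (enc_add (enc_sub (enc_rat _ 1623277181641 163750000000) (enc_scale 6777518763 818750000 h1)) (enc_mul (enc_norm (kfc22b_5.enc h1 h2)) (enc_norm (enc_subr 115889369 8187500000 (enc_scale 96948 10234375 h1))))) (enc_case (enc_subr 13 10 h1) (enc_add (enc_sub (enc_rat _ 3965257 400000) (enc_scale 1655577 200000 h1)) (enc_mul (enc_norm (kfc22b_5.enc h1 h2)) (enc_norm (enc_subr 5301 250000 (enc_scale 311 20000 h1))))) (enc_add (enc_sub (enc_rat _ 198262837 20000000) (enc_scale 16555769 2000000 h1)) (enc_mul (enc_norm (kfc22b_5.enc h1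 h2)) (enc_norm (enc_subr 661 31250 (enc_scale 1551 100000 h1))))))))))))⟩
noncomputable def lc22b_5 : Fn2 := ⟨_, _, fun h1 h2 => (enc_subr 7 128 h2)⟩
noncomputable def lc22b_32 : Fn2 := ⟨_, _, fun h1 h2 => (enc_sq (enc_norm (lc22b_5.enc h1 h2)))⟩
noncomputable def lc22b_81 : Fn2 := ⟨_, _, fun h1 h2 => (enc_subn 1 h1)⟩
noncomputable def lc22b : Fn2 := ⟨_, _, fun h1 h2 => (enc_norm (enc_case (enc_subr 33 32 h1) (enc_mul (cv2p.enc h1) (enc_norm (enc_case (enc_subr 203 200 h1) (enc_add (enc_subr 1123 30000 (enc_scale 1123 30000 h1)) (enc_mul (enc_norm (lc22b_5.enc h1 h2)) (enc_norm (enc_subr 4963 7500 (enc_scale 4963 7500 h1))))) (enc_add (enc_add (enc_subr 683673619 16250000000 (enc_scale 1706399 40625000 h1)) (enc_mul (enc_norm (lc22b_5.enc h1 h2)) (enc_norm (enc_subr 1188916211 1625000000 (enc_scale 5936187 8125000 h1))))) (enc_mul (lc22b_32.enc h1 h2) (enc_norm (enc_sub (enc_rat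 _ 2233 32500) (enc_scale 22 325 h1)))))))) (enc_case (enc_subr 69 64 h1) (enc_sub (qsg.enc (enc_norm (lc22b_81.enc h1 h2))) (enc_mul (enc_norm (enc_nat 2 (enc_sub (lc22b_81.enc h1 h2) h2))) (enc_norm (enc_mul (esg.enc (enc_norm (lc22b_81.enc h1 h2))) (kcg.enc (enc_norm (enc_sub (enc_scale 3 4 (lc22b_81.enc h1 h2)) (enc_half (gsg.enc (enc_norm (lc22b_81.enc h1 h2)))))) h2))))) (enc_mul (cv2p.enc h1) (enc_norm (enc_case (enc_subr 29 25 h1) (enc_add (enc_add (enc_subr 12426033989 163750000000 (enc_scale 30126851 409375000 h1)) (enc_mul (enc_norm (lc22b_5.enc h1 h2)) (enc_norm (enc_sub (enc_rat _ 2514575809 4093750000) (enc_scale 42994223 81875000 h1))))) (enc_mul (lc22b_32.enc h1 h2) (enc_norm (enc_subr 21518 409375 (enc_scale 742 16375 h1))))) (enc_case (enc_subr 13 10 h1) (enc_add (enc_subr 5312401 70000000 (enc_scale 51519 700000 h1)) (enc_mul (enc_norm (lc22b_5.enc h1 h2))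 (enc_norm (enc_subr 32797 500000 (enc_scale 1219 20000 h1))))) (enc_add (enc_subr 18973 250000 (enc_scale 73599 1000000 h1)) (enc_mul (enc_norm (lc22b_5.enc h1 h2)) (enc_norm (enc_subr 130239 2000000 (enc_scale 12117 200000 h1))))))))))))⟩
noncomputable def cv2r : Fn1 := ⟨_, _, fun h1 => (enc_norm (enc_subr 1 2 (swg.enc h1)))⟩
noncomputable def bf2q3_3 : Fn2 := ⟨_, _, fun h1 h2 => (enc_subr 7 128 h2)⟩
noncomputable def bf2q3 : Fn2 := ⟨_, _, fun h1 h2 => (enc_norm (enc_case (enc_subr 47 25 h1) (enc_case (enc_subr 7 4 h1) (enc_add (enc_subr 178861789 10000000 (enc_scale 7758867 625000 h1)) (enc_mul (enc_norm (bf2q3_3.enc h1 h2)) (enc_norm (enc_subr 783 500000 (enc_scale 97 125000 h1))))) (enc_add (enc_subr 2325203369 130000000 (enc_scale 4034611 325000 h1)) (enc_mul (enc_norm (bf2q3_3.enc h1 h2)) (enc_norm (enc_subr 20379 13000000 (enc_scale 101 130000 h1)))))) (enc_case (enc_subr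 39 20 h1) (enc_add (enc_subr 1252032511 70000000 (enc_scale 8689931 700000 h1)) (enc_mul (enc_norm (bf2q3_3.enc h1 h2)) (enc_norm (enc_subr 11089 7000000 (enc_scale 11 14000 h1))))) (enc_case (enc_subr 397 200 h1) (enc_add (enc_subr 313008079 17500000 (enc_scale 868993 70000 h1)) (enc_mul (enc_norm (bf2q3_3.enc h1 h2)) (enc_norm (enc_subr 5447 3500000 (enc_scale 27 35000 h1))))) (enc_add (enc_subr 134146433 7500000 (enc_scale 1862129 150000 h1)) (enc_mul (enc_norm (bf2q3_3.enc h1 h2)) (enc_norm (enc_subr 2221 1500000 (enc_scale 11 15000 h1)))))))))⟩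
noncomputable def kf2q3 : Fn2 := ⟨_, _, fun h1 h2 => (enc_norm (enc_mul (cv2r.enc h1) (bf2q3.enc h1 h2)))⟩
noncomputable def bx2q3_3 : Fn2 := ⟨_, _, fun h1 h2 => (enc_subr 7 128 h2)⟩
noncomputable def bx2q3 : Fn2 := ⟨_, _, fun h1 h2 => (enc_norm (enc_case (enc_subr 47 25 h1) (enc_case (enc_subr 7 4 h1) (enc_add (enc_subr 2109351 10000000 (enc_scale 235193 2500000 h1)) (enc_mul (enc_norm (bx2q3_3.enc h1 h2)) (enc_norm (enc_sub (enc_rat _ 410037 1000000) (enc_scale 52383 250000 h1))))) (enc_add (enc_subr 1096853 5200000 (enc_scale 122299 1300000 h1)) (enc_mul (enc_norm (bx2q3_3.enc h1 h2)) (enc_norm (enc_sub (enc_rat _ 1331257 3250000) (enc_scale 3401 16250 h1)))))) (enc_case (enc_subr 39 20 h1) (enc_add (enc_subr 14765271 70000000 (enc_scale 65853 700000 h1)) (enc_mul (enc_norm (bx2q3_3.enc h1 h2)) (enc_norm (enc_sub (enc_rat _ 179073 437500) (enc_scale 14639 70000 h1)))))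 (enc_case (enc_subr 397 200 h1) (enc_add (enc_subr 7382733 35000000 (enc_scale 32927 350000 h1)) (enc_mul (enc_norm (bx2q3_3.enc h1 h2)) (enc_norm (enc_sub (enc_rat _ 2864583 7000000) (enc_scale 3659 17500 h1))))) (enc_add (enc_subr 632783 3000000 (enc_scale 14111 150000 h1)) (enc_mul (enc_norm (bx2q3_3.enc h1 h2)) (enc_norm (enc_sub (enc_rat _ 245513 600000) (enc_scale 392 1875 h1)))))))))⟩
noncomputable def l2q3 : Fn2 := ⟨_, _, fun h1 h2 => (enc_norm (enc_mul (cv2r.enc h1) (bx2q3.enc h1 h2)))⟩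
noncomputable def c3g : Fn1 := ⟨_, _, fun h1 => (enc_sqrtg (enc_sub (enc_pnc _ 3) (enc_scale 3 4 (enc_sq h1))))⟩
noncomputable def cv3m : Fn1 := ⟨_, _, fun h1 => (enc_norm (enc_add (enc_scale 3 5 (enc_add (swg.enc h1) (enc_rat _ 1 2))) (enc_scale 2 5 (c3g.enc h1))))⟩
noncomputable def bf3q0_3 : Fn2 := ⟨_, _, fun h1 h2 => (enc_subr 7 128 h2)⟩
noncomputable def bf3q0_16 : Fn2 := ⟨_, _, fun h1 h2 => (enc_mul (enc_norm (bf3q0_3.enc h1 h2)) (enc_norm (enc_sub (enc_rat _ 4959 1000000) (enc_scale 153 5000 h1))))⟩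
noncomputable def bf3q0 : Fn2 := ⟨_, _, fun h1 h2 => (enc_norm (enc_case (enc_subr 1 20 h1) (enc_case (enc_subr 3 200 h1) (enc_add (enc_subr 12572137 10000000 (enc_scale 160507 37500 h1)) (bf3q0_16.enc h1 h2)) (enc_add (enc_subr 44002479 35000000 (enc_scale 299613 70000 h1)) (bf3q0_16.enc h1 h2))) (enc_case (enc_subr 3 25 h1) (enc_add (enc_subr 88004953 70000000 (enc_scale 2996129 700000 h1)) (bf3q0_16.enc h1 h2)) (enc_case (enc_subr 1 4 h1) (enc_add (enc_subr 6537511 5200000 (enc_scale 69553 16250 h1)) (enc_mul (enc_norm (bf3q0_3.enc h1 h2)) (enc_norm (enc_sub (enc_rat _ 64443 13000000) (enc_scale 497 16250 h1))))) (enc_add (enc_subr 1571517 1250000 (enc_scale 10700461 2500000 h1)) (enc_mul (enc_norm (bf3q0_3.enc h1 h2)) (enc_norm (enc_sub (enc_rat _ 4967 1000000) (enc_scale 957 31250 h1)))))))))⟩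
noncomputable def kf3q0 : Fn2 := ⟨_, _, fun h1 h2 => (enc_norm (enc_mul (cv3m.enc h1) (bf3q0.enc h1 h2)))⟩
noncomputable def bx3q0_3 : Fn2 := ⟨_, _, fun h1 h2 => (enc_subr 7 128 h2)⟩
noncomputable def bx3q0 : Fn2 := ⟨_, _, fun h1 h2 => (enc_norm (enc_case (enc_subr 1 20 h1) (enc_case (enc_subr 3 200 h1) (enc_add (enc_add (enc_scale 4247 50000 h1) (enc_rat _ 145253 10000000)) (enc_mul (enc_norm (bx3q0_3.enc h1 h2)) (enc_norm (enc_sub (enc_rat _ 47413 500000) (enc_scale 1243 7500 h1))))) (enc_add (enc_add (enc_scale 29727 350000 h1) (enc_rat _ 1016777 70000000)) (enc_mul (enc_norm (bx3q0_3.enc h1 h2)) (enc_norm (enc_sub (enc_rat _ 663753 7000000) (enc_scale 5791 35000 h1)))))) (enc_case (enc_subr 3 25 h1) (enc_add (enc_add (enc_scale 59461 700000 h1) (enc_rat _ 508371 35000000)) (enc_mul (enc_norm (bx3q0_3.enc h1 h2)) (enc_norm (enc_sub (enc_rat _ 165857 1750000) (enc_scale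 11517 70000 h1))))) (enc_case (enc_subr 1 4 h1) (enc_add (enc_add (enc_scale 110431 1300000 h1) (enc_rat _ 944097 65000000)) (enc_mul (enc_norm (bx3q0_3.enc h1 h2)) (enc_norm (enc_sub (enc_rat _ 38437 406250) (enc_scale 10607 65000 h1))))) (enc_add (enc_add (enc_scale 21237 250000 h1) (enc_rat _ 145243 10000000)) (enc_mul (enc_norm (bx3q0_3.enc h1 h2)) (enc_norm (enc_sub (enc_rat _ 11789 125000) (enc_scale 20247 125000 h1)))))))))⟩
noncomputable def l3q0 : Fn2 := ⟨_, _, fun h1 h2 => (enc_norm (enc_mul (cv3m.enc h1) (bx3q0.enc h1 h2)))⟩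
noncomputable def bf3q1_3 : Fn2 := ⟨_, _, fun h1 h2 => (enc_subr 7 128 h2)⟩
noncomputable def bf3q1 : Fn2 := ⟨_, _, fun h1 h2 => (enc_norm (enc_case (enc_subr 22 25 h1) (enc_case (enc_subr 3 4 h1) (enc_add (enc_add (enc_scale 690363 2500000 h1) (enc_rat _ 113103 156250)) (enc_mul (enc_norm (bf3q1_3.enc h1 h2)) (enc_norm (enc_subr 297149 1000000 (enc_scale 36941 125000 h1))))) (enc_add (enc_add (enc_scale 358981 1300000 h1) (enc_rat _ 47051139 65000000)) (enc_mul (enc_norm (bf3q1_3.enc h1 h2)) (enc_norm (enc_subr 1944757 6500000 (enc_scale 38773 130000 h1)))))) (enc_case (enc_subr 19 20 h1) (enc_add (enc_add (enc_scale 19329 70000 h1) (enc_rat _ 25335557 35000000)) (enc_mul (enc_norm (bf3q1_3.enc h1 h2)) (enc_norm (enc_subr 212403 700000 (enc_scale 4243 14000 h1))))) (enc_case (enc_subr 197 200 h1) (enc_add (enc_add (enc_scale 48319 175000 h1) (enc_rat _ 12668111 17500000))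 (enc_mul (enc_norm (bf3q1_3.enc h1 h2)) (enc_norm (enc_subr 432539 1400000 (enc_scale 10811 35000 h1))))) (enc_add (enc_add (enc_scale 4141 15000 h1) (enc_rat _ 10859 15000)) (enc_mul (enc_norm (bf3q1_3.enc h1 h2)) (enc_norm (enc_subr 196 625 (enc_scale 196 625 h1)))))))))⟩
noncomputable def kf3q1 : Fn2 := ⟨_, _, fun h1 h2 => (enc_norm (enc_mul (cv3m.enc h1) (bf3q1.enc h1 h2)))⟩
noncomputable def bx3q1_3 : Fn2 := ⟨_, _, fun h1 h2 => (enc_subr 7 128 h2)⟩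
noncomputable def bx3q1 : Fn2 := ⟨_, _, fun h1 h2 => (enc_norm (enc_case (enc_subr 22 25 h1) (enc_case (enc_subr 3 4 h1) (enc_add (enc_sub (enc_rat _ 146913 10000000) (enc_scale 36849 2500000 h1)) (enc_mul (enc_norm (bx3q1_3.enc h1 h2)) (enc_norm (enc_sub (enc_rat _ 45251 200000) (enc_scale 28239 125000 h1))))) (enc_add (enc_sub (enc_rat _ 237651 16250000) (enc_scale 9523 650000 h1)) (enc_mul (enc_norm (bx3q1_3.enc h1 h2)) (enc_norm (enc_sub (enc_rat _ 2921473 13000000) (enc_scale 1819 8125 h1)))))) (enc_case (enc_subr 19 20 h1) (enc_add (enc_sub (enc_rat _ 12697 875000) (enc_scale 2033 140000 h1)) (enc_mul (enc_norm (bx3q1_3.enc h1 h2)) (enc_norm (enc_sub (enc_rat _ 1561187 7000000) (enc_scale 971 4375 h1))))) (enc_case (enc_subr 197 200 h1) (enc_add (enc_sub (enc_rat _ 28981 2000000) (enc_scale 29 2000 h1)) (enc_mul (enc_norm (bx3q1_3.enc h1 h2)) (enc_norm (enc_sub (enc_rat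 _ 1763347 7000000) (enc_scale 1104 4375 h1))))) (enc_add (enc_sub (enc_rat _ 26 1875) (enc_scale 26 1875 h1)) (enc_mul (enc_norm (bx3q1_3.enc h1 h2)) (enc_norm (enc_sub (enc_rat _ 3349 15000) (enc_scale 3349 15000 h1)))))))))⟩
noncomputable def l3q1 : Fn2 := ⟨_, _, fun h1 h2 => (enc_norm (enc_mul (cv3m.enc h1) (bx3q1.enc h1 h2)))⟩
noncomputable def cv3p : Fn1 := ⟨_, _, fun h1 => (enc_norm (enc_add (enc_scale 3 5 (enc_subr 1 2 (swg.enc h1))) (enc_scale 2 5 (c3g.enc h1))))⟩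
noncomputable def bf3q2_3 : Fn2 := ⟨_, _, fun h1 h2 => (enc_subr 7 128 h2)⟩
noncomputable def bf3q2_8 : Fn2 := ⟨_, _, fun h1 h2 => (enc_scale 109273 37500 h1)⟩
noncomputable def bf3q2 : Fn2 := ⟨_, _, fun h1 h2 => (enc_norm (enc_case (enc_subr 27 25 h1) (enc_case (enc_subr 203 200 h1) (enc_add (enc_sub (enc_rat _ 112237931 30000000) (bf3q2_8.enc h1 h2)) (enc_mul (enc_norm (bf3q2_3.enc h1 h2)) (enc_norm (enc_subr 2561801 3000000 (enc_scale 9547 15000 h1))))) (enc_case (enc_subr 21 20 h1) (enc_add (enc_sub (enc_rat _ 7482521 2000000) (enc_scale 25497 8750 h1)) (enc_mul (enc_norm (bf3q2_3.enc h1 h2)) (enc_norm (enc_subr 853141 1000000 (enc_scale 22249 35000 h1))))) (enc_add (enc_sub (enc_rat _ 7482529 2000000) (bf3q2_8.enc h1 h2)) (enc_mul (enc_norm (bf3q2_3.enc h1 h2)) (enc_norm (enc_subr 851231 1000000 (enc_scale 2377 3750 h1))))))) (enc_case (enc_subr 29 25 h1) (enc_add (enc_sub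 (enc_rat _ 74825281 20000000) (enc_scale 2331157 800000 h1)) (enc_mul (enc_norm (bf3q2_3.enc h1 h2)) (enc_norm (enc_subr 848783 1000000 (enc_scale 1579 2500 h1))))) (enc_case (enc_subr 13 10 h1) (enc_add (enc_sub (enc_rat _ 6547211 1750000) (enc_scale 1019881 350000 h1)) (enc_mul (enc_norm (bf3q2_3.enc h1 h2)) (enc_norm (enc_subr 5921123 7000000 (enc_scale 88073 140000 h1))))) (enc_add (enc_sub (enc_rat _ 299301 80000) (enc_scale 582789 200000 h1)) (enc_mul (enc_norm (bf3q2_3.enc h1 h2)) (enc_norm (enc_subr 843687 1000000 (enc_scale 62741 100000 h1)))))))))⟩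
noncomputable def kf3q2 : Fn2 := ⟨_, _, fun h1 h2 => (enc_norm (enc_mul (cv3p.enc h1) (bf3q2.enc h1 h2)))⟩
noncomputable def bx3q2_3 : Fn2 := ⟨_, _, fun h1 h2 => (enc_subr 7 128 h2)⟩
noncomputable def bx3q2 : Fn2 := ⟨_, _, fun h1 h2 => (enc_norm (enc_case (enc_subr 27 25 h1) (enc_case (enc_subr 203 200 h1) (enc_add (enc_sub (enc_rat _ 304933 1875000) (enc_scale 12343 75000 h1)) (enc_mul (enc_norm (bx3q2_3.enc h1 h2)) (enc_norm (enc_subr 774511 3000000 (enc_scale 409 1875 h1))))) (enc_case (enc_subr 21 20 h1) (enc_add (enc_sub (enc_rat _ 1625681 10000000) (enc_scale 57579 350000 h1)) (enc_mul (enc_norm (bx3q2_3.enc h1 h2)) (enc_norm (enc_subr 51839 200000 (enc_scale 767 3500 h1))))) (enc_add (enc_sub (enc_rat _ 812763 5000000) (enc_scale 49349 300000 h1)) (enc_mul (enc_norm (bx3q2_3.enc h1 h2)) (enc_norm (enc_subr 5197 20000 (enc_scale 6593 30000 h1))))))) (enc_case (enc_subr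 29 25 h1) (enc_add (enc_sub (enc_rat _ 1625481 10000000) (enc_scale 65797 400000 h1)) (enc_mul (enc_norm (bx3q2_3.enc h1 h2)) (enc_norm (enc_subr 259211 1000000 (enc_scale 8767 40000 h1))))) (enc_case (enc_subr 13 10 h1) (enc_add (enc_sub (enc_rat _ 5689517 35000000) (enc_scale 230301 1400000 h1)) (enc_mul (enc_norm (bx3q2_3.enc h1 h2)) (enc_norm (enc_subr 450741 1750000 (enc_scale 15243 70000 h1))))) (enc_add (enc_sub (enc_rat _ 50801 312500) (enc_scale 32901 200000 h1)) (enc_mul (enc_norm (bx3q2_3.enc h1 h2)) (enc_norm (enc_subr 513151 2000000 (enc_scale 43399 200000 h1)))))))))⟩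
noncomputable def l3q2 : Fn2 := ⟨_, _, fun h1 h2 => (enc_norm (enc_mul (cv3p.enc h1) (bx3q2.enc h1 h2)))⟩
noncomputable def ycg : Fn1 := ⟨_, _, fun h1 => (enc_sqrtg (enc_scale 4 3 (enc_sub (enc_pnc _ 3) (enc_sq h1))))⟩
noncomputable def xc33 : Fn1 := ⟨_, _, fun h1 => (enc_norm (enc_add (enc_scale 3 5 (enc_subr 1 2 (swg.enc (ycg.enc h1)))) (enc_scale 2 5 h1)))⟩
noncomputable def bf3q3_3 : Fn2 := ⟨_, _, fun h1 h2 => (enc_subr 7 128 h2)⟩
noncomputable def bf3q3_34 : Fn2 := ⟨_, _, fun h1 h2 => (enc_sub (enc_rat _ 463185201 35000000) (enc_scale 1114213 175000 h1))⟩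
noncomputable def bf3q3 : Fn2 := ⟨_, _, fun h1 h2 => (enc_norm (enc_case (enc_subr 47 25 h1) (enc_case (enc_subr 7 4 h1) (enc_add (enc_sub (enc_rat _ 132338639 10000000) (enc_scale 1591733 250000 h1)) (enc_mul (enc_norm (bf3q3_3.enc h1 h2)) (enc_norm (enc_subr 4833 500000 (enc_scale 151 31250 h1))))) (enc_add (enc_sub (enc_rat _ 860201101 65000000) (enc_scale 8277011 1300000 h1)) (enc_mul (enc_norm (bf3q3_3.enc h1 h2)) (enc_norm (enc_subr 25161 2600000 (enc_scale 629 130000 h1)))))) (enc_case (enc_subr 39 20 h1) (enc_add (bf3q3_34.enc h1 h2) (enc_mul (enc_norm (bf3q3_3.enc h1 h2)) (enc_norm (enc_subr 67799 7000000 (enc_scale 339 70000 h1))))) (enc_case (enc_subr 397 200 h1) (enc_add (bf3q3_34.enc h1 h2) (enc_mul (enc_norm (bf3q3_3.enc h1 h2)) (enc_norm (enc_subr 16901 1750000 (enc_scale 169 35000 h1))))) (enc_add (enc_sub (enc_rat _ 49627 3750) (enc_scale 11938 1875 h1))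 (enc_mul (enc_norm (bf3q3_3.enc h1 h2)) (enc_norm (enc_subr 73 7500 (enc_scale 73 15000 h1)))))))))⟩
noncomputable def kfc33 : Fn2 := ⟨_, _, fun h1 h2 => (enc_norm (enc_mul (enc_norm (enc_add (enc_scale 3 5 (enc_subr 1 2 (swg.enc (ycg.enc h1)))) (enc_scale 2 5 h1))) (bf3q3.enc (ycg.enc h1) h2)))⟩
noncomputable def bx3q3_3 : Fn2 := ⟨_, _, fun h1 h2 => (enc_subr 7 128 h2)⟩
noncomputable def bx3q3 : Fn2 := ⟨_, _, fun h1 h2 => (enc_norm (enc_case (enc_subr 47 25 h1) (enc_case (enc_subr 7 4 h1) (enc_add (enc_sub (enc_rat _ 3312717 10000000) (enc_scale 82027 500000 h1)) (enc_mul (enc_norm (bx3q3_3.enc h1 h2)) (enc_norm (enc_subr 107047 1000000 (enc_scale 21353 250000 h1))))) (enc_add (enc_sub (enc_rat _ 43067561 130000000) (enc_scale 213283 1300000 h1)) (enc_mul (enc_norm (bx3q3_3.enc h1 h2)) (enc_norm (enc_subr 700919 6500000 (enc_scale 5581 65000 h1)))))) (enc_case (enc_subr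 39 20 h1) (enc_add (enc_sub (enc_rat _ 23190847 70000000) (enc_scale 3589 21875 h1)) (enc_mul (enc_norm (bx3q3_3.enc h1 h2)) (enc_norm (enc_subr 381337 3500000 (enc_scale 1513 17500 h1))))) (enc_case (enc_subr 397 200 h1) (enc_add (enc_sub (enc_rat _ 23191237 70000000) (enc_scale 2297 14000 h1)) (enc_mul (enc_norm (bx3q3_3.enc h1 h2)) (enc_norm (enc_subr 192131 1750000 (enc_scale 3041 35000 h1))))) (enc_add (enc_sub (enc_rat _ 13251779433 40000000000) (enc_scale 32813389 200000000 h1)) (enc_mul (enc_norm (bx3q3_3.enc h1 h2)) (enc_norm (enc_subr 69467521069 630000000000 (enc_scale 274446577 3150000000 h1)))))))))⟩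
noncomputable def lc33 : Fn2 := ⟨_, _, fun h1 h2 => (enc_norm (enc_mul (enc_norm (enc_add (enc_scale 3 5 (enc_subr 1 2 (swg.enc (ycg.enc h1)))) (enc_scale 2 5 h1))) (bx3q3.enc (ycg.enc h1) h2)))⟩
noncomputable def kf4q0 : Fn2 := ⟨_, _, fun h1 h2 => (enc_norm (enc_sub (enc_mul h1 (kcg.enc (enc_half h1) h2)) (enc_mul (enc_norm (enc_mul (enc_sq h1) (enc_norm (enc_add (c3g.enc h1) (enc_rat _ 3 2))))) (enc_inv (enc_mul (enc_norm (enc_sub (enc_pnc _ 1) h1)) (enc_norm (enc_add (enc_pnc _ 1) h1)))))))⟩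
noncomputable def l4q0_6 : Fn2 := ⟨_, _, fun h1 h2 => (enc_half h1)⟩
noncomputable def l4q0_7 : Fn2 := ⟨_, _, fun h1 h2 => (enc_half (c3g.enc h1))⟩
noncomputable def l4q0_8 : Fn2 := ⟨_, _, fun h1 h2 => (enc_scale 1 4 h1)⟩
noncomputable def l4q0 : Fn2 := ⟨_, _, fun h1 h2 => (enc_norm (enc_add (txg.enc (l4q0_6.enc h1 h2) (enc_norm (enc_sub (l4q0_7.enc h1 h2) (l4q0_8.enc h1 h2))) h2) (txg.enc (enc_neg (l4q0_6.enc h1 h2)) (enc_norm (enc_add (l4q0_7.enc h1 h2) (l4q0_8.enc h1 h2))) h2)))⟩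
noncomputable def kf4q1 : Fn2 := ⟨_, _, fun h1 h2 => (enc_norm (enc_add (enc_mul (enc_norm (enc_mul h1 (enc_norm (enc_add (c3g.enc h1) (enc_rat _ 3 2))))) (enc_inv (enc_add (enc_pnc _ 1) h1))) (enc_mul (enc_norm (enc_subn 1 h1)) (kcg.enc (enc_half h1) h2))))⟩
noncomputable def l4q1_7 : Fn2 := ⟨_, _, fun h1 h2 => (enc_half h1)⟩
noncomputable def l4q1_8 : Fn2 := ⟨_, _, fun h1 h2 => (enc_half (c3g.enc h1))⟩
noncomputable def l4q1_9 : Fn2 := ⟨_, _, fun h1 h2 => (enc_scale 1 4 h1)⟩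
noncomputable def l4q1 : Fn2 := ⟨_, _, fun h1 h2 => (enc_norm (enc_add (txg.enc (l4q1_7.enc h1 h2) (enc_norm (enc_sub (l4q1_8.enc h1 h2) (l4q1_9.enc h1 h2))) h2) (txg.enc (enc_neg (l4q1_7.enc h1 h2)) (enc_norm (enc_add (l4q1_8.enc h1 h2) (l4q1_9.enc h1 h2))) h2)))⟩
noncomputable def kf4q2 : Fn2 := ⟨_, _, fun h1 h2 => (enc_norm (enc_add (enc_mul (enc_norm (enc_mul (enc_norm (enc_sub (enc_nat 2 (c3g.enc h1)) h1)) (enc_norm (enc_sub (enc_add (c3g.enc h1) (enc_pnc _ 3)) (enc_scale 3 2 h1))))) (enc_inv (enc_nat 4 (enc_sub (enc_pnc _ 2) h1)))) (enc_mul (enc_norm (enc_subn 1 h1)) (kcg.enc (enc_norm (enc_sub (enc_scale 1 4 h1) (enc_half (c3g.enc h1)))) h2))))⟩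
noncomputable def l4q2_7 : Fn2 := ⟨_, _, fun h1 h2 => (enc_half (c3g.enc h1))⟩
noncomputable def l4q2_8 : Fn2 := ⟨_, _, fun h1 h2 => (enc_scale 1 4 h1)⟩
noncomputable def l4q2_9 : Fn2 := ⟨_, _, fun h1 h2 => (enc_sub (l4q2_7.enc h1 h2) (l4q2_8.enc h1 h2))⟩
noncomputable def l4q2_12 : Fn2 := ⟨_, _, fun h1 h2 => (enc_add (enc_scale 1 4 (c3g.enc h1)) (enc_scale 3 8 h1))⟩
noncomputable def l4q2_14 : Fn2 := ⟨_, _, fun h1 h2 => (enc_half (l4q2_9.enc h1 h2))⟩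
noncomputable def l4q2 : Fn2 := ⟨_, _, fun h1 h2 => (enc_norm (enc_sub (enc_nat 2 (txg.enc (enc_norm (enc_sub (l4q2_8.enc h1 h2) (l4q2_7.enc h1 h2))) (enc_norm (enc_add (l4q2_12.enc h1 h2) (l4q2_14.enc h1 h2))) h2)) (txg.enc (enc_norm (l4q2_9.enc h1 h2)) (enc_norm (enc_sub (l4q2_12.enc h1 h2) (l4q2_14.enc h1 h2))) h2)))⟩
noncomputable def kfc43 : Fn2 := ⟨_, _, fun h1 h2 => (enc_norm (enc_sub (enc_mul (enc_norm (enc_subn 2 (ycg.enc h1))) (kcg.enc (enc_norm (enc_sub (enc_scale 1 4 (ycg.enc h1)) (enc_half h1))) h2)) (enc_mul (enc_norm (enc_mul (enc_norm (enc_sub (enc_nat 2 h1) (ycg.enc h1))) (enc_norm (enc_sub (enc_add h1 (enc_pnc _ 3)) (enc_scale 3 2 (ycg.enc h1)))))) (enc_inv (enc_nat 4 (enc_subn 1 (ycg.enc h1)))))))⟩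
noncomputable def lc43_7 : Fn2 := ⟨_, _, fun h1 h2 => (enc_half h1)⟩
noncomputable def lc43_8 : Fn2 := ⟨_, _, fun h1 h2 => (enc_scale 1 4 (ycg.enc h1))⟩
noncomputable def lc43_9 : Fn2 := ⟨_, _, fun h1 h2 => (enc_sub (lc43_7.enc h1 h2) (lc43_8.enc h1 h2))⟩
noncomputable def lc43_12 : Fn2 := ⟨_, _, fun h1 h2 => (enc_add (enc_scale 1 4 h1) (enc_scale 3 8 (ycg.enc h1)))⟩
noncomputable def lc43_14 : Fn2 := ⟨_, _, fun h1 h2 => (enc_half (lc43_9.enc h1 h2))⟩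
noncomputable def lc43 : Fn2 := ⟨_, _, fun h1 h2 => (enc_norm (enc_sub (enc_nat 2 (txg.enc (enc_norm (enc_sub (lc43_8.enc h1 h2) (lc43_7.enc h1 h2))) (enc_norm (enc_add (lc43_12.enc h1 h2) (lc43_14.enc h1 h2))) h2)) (txg.enc (enc_norm (lc43_9.enc h1 h2)) (enc_norm (enc_sub (lc43_12.enc h1 h2) (lc43_14.enc h1 h2))) h2)))⟩
noncomputable def lm3m : Fn2 := ⟨_, _, fun h1 h2 => (enc_lam (enc_norm (enc_sub h1 (cv3m.enc h2))) (enc_sub (c3g.enc h2) (cv3m.enc h2)))⟩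
noncomputable def lm2m : Fn2 := ⟨_, _, fun h1 h2 => (enc_lam (enc_norm (enc_sub h1 (cv2m.enc h2))) (enc_sub (cv3m.enc h2) (cv2m.enc h2)))⟩
noncomputable def lm1m : Fn2 := ⟨_, _, fun h1 h2 => (enc_lam (enc_norm (enc_sub h1 (cv1m.enc h2))) (enc_sub (cv2m.enc h2) (cv1m.enc h2)))⟩
noncomputable def lm0m : Fn2 := ⟨_, _, fun h1 h2 => (enc_lam (enc_norm (enc_sub h1 (c1g.enc h2))) (enc_sub (cv1m.enc h2) (c1g.enc h2)))⟩
noncomputable def rkfq0 : Fn3 := ⟨_, _, fun h1 h2 h3 => (enc_case (enc_sub h1 (cv1m.enc h2)) (enc_add (enc_mul h1 (bf1q0.enc h2 h3)) (enc_mul (enc_norm (enc_sub (enc_pnc _ 1) (lm0m.enc h1 h2))) (enc_norm (enc_sub (kf0q0.enc h2 h3) (enc_mul (c1g.enc h2) (bf1q0.enc h2 h3)))))) (enc_case (enc_sub h1 (cv2m.enc h2)) (enc_add (enc_mul h1 (bf2q0.enc h2 h3)) (enc_mul (enc_norm (enc_mul (enc_norm (enc_sub (enc_pnc _ 1) (lm1m.enc h1 h2))) (cv1m.enc h2))) (enc_norm (enc_sub (bf1q0.enc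 h2 h3) (bf2q0.enc h2 h3))))) (enc_case (enc_sub h1 (cv3m.enc h2)) (enc_add (enc_mul h1 (bf3q0.enc h2 h3)) (enc_mul (enc_norm (enc_mul (enc_norm (enc_sub (enc_pnc _ 1) (lm2m.enc h1 h2))) (cv2m.enc h2))) (enc_norm (enc_sub (bf2q0.enc h2 h3) (bf3q0.enc h2 h3))))) (enc_add (kf3q0.enc h2 h3) (enc_mul (lm3m.enc h1 h2) (enc_norm (enc_sub (kf4q0.enc h2 h3) (kf3q0.enc h2 h3))))))))⟩
noncomputable def rsfq0 : Fn3 := ⟨_, _, fun h1 h2 h3 => (enc_case h1 (enc_neg (rkfq0.enc (enc_neg h1) h2 h3)) (rkfq0.enc h1 h2 h3))⟩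
noncomputable def bf2q1_3 : Fn2 := ⟨_, _, fun h1 h2 => (enc_subr 7 128 h2)⟩
noncomputable def bf2q1 : Fn2 := ⟨_, _, fun h1 h2 => (enc_norm (enc_case (enc_subr 121 128 h1) (enc_case (enc_subr 3 4 h1) (enc_add (enc_subr 36058193 10000000 (enc_scale 6183471 1250000 h1)) (enc_mul (enc_norm (bf2q1_3.enc h1 h2)) (enc_norm (enc_sub (enc_rat _ 14923 1000000) (enc_scale 2223 125000 h1))))) (enc_case (enc_subr 22 25 h1) (enc_add (enc_subr 468756671 130000000 (enc_scale 1607703 325000 h1)) (enc_mul (enc_norm (bf2q1_3.enc h1 h2)) (enc_norm (enc_sub (enc_rat _ 19423 1300000) (enc_scale 463 26000 h1))))) (enc_add (enc_subr 301987410413 83750000000 (enc_scale 1035731569 209375000 h1)) (enc_mul (enc_norm (bf2q1_3.enc h1 h2)) (enc_norm (enc_sub (enc_rat _ 47969133 4187500000) (enc_scale 579841 41875000 h1))))))) (enc_case (enc_subr 197 200 h1) (enc_add (enc_add (enc_scale 45702967 81250000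 h1) (enc_rat _ 7125826751 16250000000)) (enc_mul (enc_norm (bf2q1_3.enc h1 h2)) (enc_norm (enc_sub (enc_rat _ 513363 325000000) (enc_scale 3279 1625000 h1))))) (enc_add (enc_add (enc_scale 7427 15000 h1) (enc_rat _ 7573 15000)) (enc_mul (enc_norm (bf2q1_3.enc h1 h2)) (enc_norm (enc_subr 17 625 (enc_scale 17 625 h1))))))))⟩
noncomputable def rkfq1_35 : Fn3 := ⟨_, _, fun h1 h2 h3 => (enc_add (enc_mul h1 (bf2q1.enc h2 h3)) (enc_mul (enc_norm (enc_mul (enc_norm (enc_sub (enc_pnc _ 1) (lm1m.enc h1 h2))) (cv1m.enc h2))) (enc_norm (enc_sub (bf1q1.enc h2 h3) (bf2q1.enc h2 h3)))))⟩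
noncomputable def rkfq1_37 : Fn3 := ⟨_, _, fun h1 h2 h3 => (enc_sub (enc_pnc _ 1) h2)⟩
noncomputable def rkfq1_38 : Fn3 := ⟨_, _, fun h1 h2 h3 => (gsg.enc (enc_norm (rkfq1_37.enc h1 h2 h3)))⟩
noncomputable def rkfq1_44 : Fn3 := ⟨_, _, fun h1 h2 h3 => (enc_scale 3 2 (rkfq1_37.enc h1 h2 h3))⟩
noncomputable def rkfq1_46 : Fn3 := ⟨_, _, fun h1 h2 h3 => (enc_add (enc_pnc _ 1) (rkfq1_38.enc h1 h2 h3))⟩
noncomputable def rkfq1 : Fn3 := ⟨_, _, fun h1 h2 h3 => (enc_case (enc_sub h1 (cv1m.enc h2)) (enc_add (enc_mul h1 (bf1q1.enc h2 h3)) (enc_mul (enc_norm (enc_sub (enc_pnc _ 1) (lm0m.enc h1 h2))) (enc_norm (enc_sub (kf0q1.enc h2 h3) (enc_mul (c1g.enc h2) (bf1q1.enc h2 h3)))))) (enc_case (enc_sub h1 (cv2m.enc h2)) (enc_case (enc_subr 59 64 h2) (rkfq1_35.enc h1 h2 h3) (enc_case (enc_subr 31 32 h2) (enc_add (kf1q1.enc h2 h3) (enc_mul (lm1m.enc h1 h2) (enc_norm (enc_sub (enc_add (enc_add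 (enc_mul (enc_norm (enc_mul (enc_norm (enc_sub (rkfq1_38.enc h1 h2 h3) (rkfq1_44.enc h1 h2 h3))) (enc_norm (rkfq1_46.enc h1 h2 h3)))) (enc_inv (enc_sub (rkfq1_46.enc h1 h2 h3) (rkfq1_44.enc h1 h2 h3)))) (enc_mul (enc_norm (enc_sub (enc_half (rkfq1_37.enc h1 h2 h3)) (enc_mul (enc_scale 3 4 (enc_sq (enc_norm (rkfq1_37.enc h1 h2 h3)))) (enc_inv (rkfq1_38.enc h1 h2 h3))))) (enc_inv (enc_nat 2 (esg.enc (enc_norm (rkfq1_37.enc h1 h2 h3))))))) (enc_mul (kcg.enc (enc_norm (enc_sub (enc_scale 3 4 (rkfq1_37.enc h1 h2 h3)) (enc_half (rkfq1_38.enc h1 h2 h3)))) h3) (enc_norm (rkfq1_37.enc h1 h2 h3)))) (kf1q1.enc h2 h3))))) (rkfq1_35.enc h1 h2 h3))) (enc_case (enc_sub h1 (cv3m.enc h2)) (enc_add (enc_mul h1 (bf3q1.enc h2 h3)) (enc_mul (enc_norm (enc_sub (enc_pnc _ 1) (lm2m.enc h1 h2))) (enc_norm (enc_sub (kf2q1.enc h2 h3) (enc_mul (cv2m.enc h2) (bf3q1.enc h2 h3)))))) (enc_add (kf3q1.enc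 h2 h3) (enc_mul (lm3m.enc h1 h2) (enc_norm (enc_sub (kf4q1.enc h2 h3) (kf3q1.enc h2 h3))))))))⟩
noncomputable def rsfq1 : Fn3 := ⟨_, _, fun h1 h2 h3 => (enc_case h1 (enc_neg (rkfq1.enc (enc_neg h1) h2 h3)) (rkfq1.enc h1 h2 h3))⟩
noncomputable def cv1p : Fn1 := ⟨_, _, fun h1 => (enc_norm (enc_add (enc_scale 2 5 (c1g.enc h1)) (enc_scale 3 5 (enc_subr 1 2 (swg.enc h1)))))⟩
noncomputable def lm3p : Fn2 := ⟨_, _, fun h1 h2 => (enc_lam (enc_norm (enc_sub h1 (cv3p.enc h2))) (enc_sub (c3g.enc h2) (cv3p.enc h2)))⟩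
noncomputable def lm2p : Fn2 := ⟨_, _, fun h1 h2 => (enc_lam (enc_norm (enc_sub h1 (cv2p.enc h2))) (enc_sub (cv3p.enc h2) (cv2p.enc h2)))⟩
noncomputable def kf2q2_4 : Fn2 := ⟨_, _, fun h1 h2 => (enc_subr 7 128 h2)⟩
noncomputable def kf2q2_67 : Fn2 := ⟨_, _, fun h1 h2 => (enc_subn 1 h1)⟩
noncomputable def kf2q2_68 : Fn2 := ⟨_, _, fun h1 h2 => (gsg.enc (enc_norm (kf2q2_67.enc h1 h2)))⟩
noncomputable def kf2q2_74 : Fn2 := ⟨_, _, fun h1 h2 => (enc_scale 3 2 (kf2q2_67.enc h1 h2))⟩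
noncomputable def kf2q2_76 : Fn2 := ⟨_, _, fun h1 h2 => (enc_add (enc_pnc _ 1) (kf2q2_68.enc h1 h2))⟩
noncomputable def kf2q2 : Fn2 := ⟨_, _, fun h1 h2 => (enc_norm (enc_case (enc_subr 33 32 h1) (enc_mul (cv2p.enc h1) (enc_norm (enc_case (enc_subr 203 200 h1) (enc_add (enc_sub (enc_rat _ 157991 150000) (enc_scale 7991 150000 h1)) (enc_mul (enc_norm (kf2q2_4.enc h1 h2)) (enc_norm (enc_sub (enc_rat _ 137 3000) (enc_scale 137 3000 h1))))) (enc_add (enc_sub (enc_rat _ 106976101 101562500) (enc_scale 866169 16250000 h1)) (enc_mul (enc_norm (kf2q2_4.enc h1 h2)) (enc_norm (enc_sub (enc_rat _ 87333087 3250000000) (enc_scale 441179 16250000 h1)))))))) (enc_case (enc_subr 69 64 h1) (enc_add (enc_sub (enc_mul (enc_norm (enc_mul (enc_norm (enc_sub (kf2q2_68.enc h1 h2) (kf2q2_74.enc h1 h2))) (enc_norm (kf2q2_76.enc h1 h2)))) (enc_inv (enc_sub (kf2q2_76.enc h1 h2) (kf2q2_74.enc h1 h2))))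 (enc_mul (enc_norm (enc_sub (enc_half (kf2q2_67.enc h1 h2)) (enc_mul (enc_scale 3 4 (enc_sq (enc_norm (kf2q2_67.enc h1 h2)))) (enc_inv (kf2q2_68.enc h1 h2))))) (enc_inv (enc_nat 2 (esg.enc (enc_norm (kf2q2_67.enc h1 h2))))))) (enc_mul (kcg.enc (enc_norm (enc_sub (enc_scale 3 4 (kf2q2_67.enc h1 h2)) (enc_half (kf2q2_68.enc h1 h2)))) h2) (enc_norm (kf2q2_67.enc h1 h2)))) (enc_mul (cv2p.enc h1) (enc_norm (enc_case (enc_subr 29 25 h1) (enc_add (enc_sub (enc_rat _ 1623277181641 163750000000) (enc_scale 6777518763 818750000 h1)) (enc_mul (enc_norm (kf2q2_4.enc h1 h2)) (enc_norm (enc_subr 115889369 8187500000 (enc_scale 96948 10234375 h1))))) (enc_case (enc_subr 13 10 h1) (enc_add (enc_sub (enc_rat _ 3965257 400000) (enc_scale 1655577 200000 h1)) (enc_mul (enc_norm (kf2q2_4.enc h1 h2)) (enc_norm (enc_subr 5301 250000 (enc_scale 311 20000 h1))))) (enc_add (enc_sub (enc_rat _ 198262837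 20000000) (enc_scale 16555769 2000000 h1)) (enc_mul (enc_norm (kf2q2_4.enc h1 h2)) (enc_norm (enc_subr 661 31250 (enc_scale 1551 100000 h1))))))))))))⟩
noncomputable def bf2q2_3 : Fn2 := ⟨_, _, fun h1 h2 => (enc_subr 7 128 h2)⟩
noncomputable def bf2q2 : Fn2 := ⟨_, _, fun h1 h2 => (enc_norm (enc_case (enc_subr 135 128 h1) (enc_case (enc_subr 203 200 h1) (enc_add (enc_sub (enc_rat _ 157991 150000) (enc_scale 7991 150000 h1)) (enc_mul (enc_norm (bf2q2_3.enc h1 h2)) (enc_norm (enc_sub (enc_rat _ 137 3000) (enc_scale 137 3000 h1))))) (enc_add (enc_sub (enc_rat _ 106976101 101562500) (enc_scale 866169 16250000 h1)) (enc_mul (enc_norm (bf2q2_3.enc h1 h2)) (enc_norm (enc_sub (enc_rat _ 87333087 3250000000) (enc_scale 441179 16250000 h1)))))) (enc_case (enc_subr 29 25 h1) (enc_add (enc_sub (enc_rat _ 1623277181641 163750000000) (enc_scale 6777518763 818750000 h1)) (enc_mul (enc_norm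 (bf2q2_3.enc h1 h2)) (enc_norm (enc_subr 115889369 8187500000 (enc_scale 96948 10234375 h1))))) (enc_case (enc_subr 13 10 h1) (enc_add (enc_sub (enc_rat _ 3965257 400000) (enc_scale 1655577 200000 h1)) (enc_mul (enc_norm (bf2q2_3.enc h1 h2)) (enc_norm (enc_subr 5301 250000 (enc_scale 311 20000 h1))))) (enc_add (enc_sub (enc_rat _ 198262837 20000000) (enc_scale 16555769 2000000 h1)) (enc_mul (enc_norm (bf2q2_3.enc h1 h2)) (enc_norm (enc_subr 661 31250 (enc_scale 1551 100000 h1)))))))))⟩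
noncomputable def lm1p : Fn2 := ⟨_, _, fun h1 h2 => (enc_lam (enc_norm (enc_sub h1 (cv1p.enc h2))) (enc_sub (cv2p.enc h2) (cv1p.enc h2)))⟩
noncomputable def kf1q2 : Fn2 := ⟨_, _, fun h1 h2 => (enc_norm (enc_mul (cv1p.enc h1) (bf1q2.enc h1 h2)))⟩
noncomputable def kf0q2 : Fn2 := ⟨_, _, fun h1 h2 => (enc_norm (enc_add (c1g.enc h1) (enc_mul (enc_norm (enc_subn 1 h1)) (kcg.enc (enc_neg (c1g.enc h1)) h2))))⟩
noncomputable def lm0p : Fn2 := ⟨_, _, fun h1 h2 => (enc_lam (enc_norm (enc_sub h1 (c1g.enc h2))) (enc_sub (cv1p.enc h2) (c1g.enc h2)))⟩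
noncomputable def n0b : Fn2 := ⟨_, _, fun h1 h2 => (enc_norm (enc_add (enc_pnc _ 1) (enc_scale 500819 2000000 (enc_subn 1 h1))))⟩
noncomputable def rkfq2_35 : Fn3 := ⟨_, _, fun h1 h2 h3 => (enc_add (enc_mul h1 (bf2q2.enc h2 h3)) (enc_mul (enc_norm (enc_mul (enc_norm (enc_sub (enc_pnc _ 1) (lm1p.enc h1 h2))) (cv1p.enc h2))) (enc_norm (enc_sub (bf1q2.enc h2 h3) (bf2q2.enc h2 h3)))))⟩
noncomputable def rkfq2_36 : Fn3 := ⟨_, _, fun h1 h2 h3 => (enc_subn 1 h2)⟩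
noncomputable def rkfq2_37 : Fn3 := ⟨_, _, fun h1 h2 h3 => (gsg.enc (enc_norm (rkfq2_36.enc h1 h2 h3)))⟩
noncomputable def rkfq2_43 : Fn3 := ⟨_, _, fun h1 h2 h3 => (enc_scale 3 2 (rkfq2_36.enc h1 h2 h3))⟩
noncomputable def rkfq2_45 : Fn3 := ⟨_, _, fun h1 h2 h3 => (enc_add (enc_pnc _ 1) (rkfq2_37.enc h1 h2 h3))⟩
noncomputable def rkfq2_77 : Fn3 := ⟨_, _, fun h1 h2 h3 => (enc_mul h1 (bf1q2.enc h2 h3))⟩
noncomputable def rkfq2_79 : Fn3 := ⟨_, _, fun h1 h2 h3 => (enc_sub (enc_pnc _ 1) (lm0p.enc h1 h2))⟩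
noncomputable def rkfq2 : Fn3 := ⟨_, _, fun h1 h2 h3 => (enc_case (enc_sub h1 (cv1p.enc h2)) (enc_case (enc_subr 1153 1000 h2) (enc_add (rkfq2_77.enc h1 h2 h3) (enc_mul (enc_norm (rkfq2_79.enc h1 h2 h3)) (enc_norm (enc_sub (kf0q2.enc h2 h3) (enc_mul (c1g.enc h2) (bf1q2.enc h2 h3)))))) (enc_case (enc_subr 2887 2500 h2) (enc_add (rkfq2_77.enc h1 h2 h3) (enc_mul (enc_norm (rkfq2_79.enc h1 h2 h3)) (enc_norm (enc_mul (c1g.enc h2) (enc_norm (enc_sub (n0b.enc h2 h3) (bf1q2.enc h2 h3))))))) (rkfq2_77.enc h1 h2 h3))) (enc_case (enc_sub h1 (cv2p.enc h2)) (enc_case (enc_subr 33 32 h2) (rkfq2_35.enc h1 h2 h3) (enc_case (enc_subr 69 64 h2) (enc_add (kf1q2.enc h2 h3) (enc_mul (lm1p.enc h1 h2) (enc_norm (enc_sub (enc_add (enc_sub (enc_mul (enc_norm (enc_mul (enc_norm (enc_sub (rkfq2_37.enc h1 h2 h3) (rkfq2_43.enc h1 h2 h3))) (enc_norm (rkfq2_45.enc h1 h2 h3)))) (enc_inv (enc_sub (rkfq2_45.enc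 h1 h2 h3) (rkfq2_43.enc h1 h2 h3)))) (enc_mul (enc_norm (enc_sub (enc_half (rkfq2_36.enc h1 h2 h3)) (enc_mul (enc_scale 3 4 (enc_sq (enc_norm (rkfq2_36.enc h1 h2 h3)))) (enc_inv (rkfq2_37.enc h1 h2 h3))))) (enc_inv (enc_nat 2 (esg.enc (enc_norm (rkfq2_36.enc h1 h2 h3))))))) (enc_mul (kcg.enc (enc_norm (enc_sub (enc_scale 3 4 (rkfq2_36.enc h1 h2 h3)) (enc_half (rkfq2_37.enc h1 h2 h3)))) h3) (enc_norm (rkfq2_36.enc h1 h2 h3)))) (kf1q2.enc h2 h3))))) (rkfq2_35.enc h1 h2 h3))) (enc_case (enc_sub h1 (cv3p.enc h2)) (enc_add (enc_mul h1 (bf3q2.enc h2 h3)) (enc_mul (enc_norm (enc_sub (enc_pnc _ 1) (lm2p.enc h1 h2))) (enc_norm (enc_sub (kf2q2.enc h2 h3) (enc_mul (cv2p.enc h2) (bf3q2.enc h2 h3)))))) (enc_add (kf3q2.enc h2 h3) (enc_mul (lm3p.enc h1 h2) (enc_norm (enc_sub (kf4q2.enc h2 h3) (kf3q2.enc h2 h3))))))))⟩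
noncomputable def rsfq2 : Fn3 := ⟨_, _, fun h1 h2 h3 => (enc_case h1 (enc_neg (rkfq2.enc (enc_neg h1) h2 h3)) (rkfq2.enc h1 h2 h3))⟩
noncomputable def cv3r : Fn1 := ⟨_, _, fun h1 => (enc_norm (enc_add (enc_scale 3 5 (enc_subr 1 2 (swg.enc h1))) (enc_scale 2 5 (c3g.enc h1))))⟩
noncomputable def kf3q3 : Fn2 := ⟨_, _, fun h1 h2 => (enc_norm (enc_mul (cv3r.enc h1) (bf3q3.enc h1 h2)))⟩
noncomputable def kf4q3 : Fn2 := ⟨_, _, fun h1 h2 => (enc_norm (enc_sub (enc_mul (enc_norm (enc_subn 2 h1)) (kcg.enc (enc_norm (enc_sub (enc_scale 1 4 h1) (enc_half (c3g.enc h1)))) h2)) (enc_mul (enc_norm (enc_mul (enc_norm (enc_sub (enc_nat 2 (c3g.enc h1)) h1)) (enc_norm (enc_sub (enc_add (c3g.enc h1) (enc_pnc _ 3)) (enc_scale 3 2 h1))))) (enc_inv (enc_nat 4 (enc_subn 1 h1))))))⟩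
noncomputable def lm3r : Fn2 := ⟨_, _, fun h1 h2 => (enc_lam (enc_norm (enc_sub h1 (cv3r.enc h2))) (enc_sub (c3g.enc h2) (cv3r.enc h2)))⟩
noncomputable def lm2r : Fn2 := ⟨_, _, fun h1 h2 => (enc_lam (enc_norm (enc_sub h1 (cv2r.enc h2))) (enc_sub (cv3r.enc h2) (cv2r.enc h2)))⟩
noncomputable def lm1r : Fn2 := ⟨_, _, fun h1 h2 => (enc_lam (enc_norm (enc_sub h1 (cv1r.enc h2))) (enc_sub (cv2r.enc h2) (cv1r.enc h2)))⟩
noncomputable def rkfq3 : Fn3 := ⟨_, _, fun h1 h2 h3 => (enc_case (enc_sub h1 (cv1r.enc h2)) (enc_mul h1 (bf1q3.enc h2 h3)) (enc_case (enc_sub h1 (cv2r.enc h2)) (enc_add (enc_mul h1 (bf2q3.enc h2 h3)) (enc_mul (enc_norm (enc_mul (enc_norm (enc_sub (enc_pnc _ 1) (lm1r.enc h1 h2))) (cv1r.enc h2))) (enc_norm (enc_sub (bf1q3.enc h2 h3) (bf2q3.enc h2 h3))))) (enc_case (enc_sub h1 (cv3r.enc h2)) (enc_add (enc_mul h1 (bf3q3.enc h2 h3)) (enc_mul (enc_norm (enc_mul (enc_norm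 (enc_sub (enc_pnc _ 1) (lm2r.enc h1 h2))) (cv2r.enc h2))) (enc_norm (enc_sub (bf2q3.enc h2 h3) (bf3q3.enc h2 h3))))) (enc_add (kf3q3.enc h2 h3) (enc_mul (lm3r.enc h1 h2) (enc_norm (enc_sub (kf4q3.enc h2 h3) (kf3q3.enc h2 h3))))))))⟩
noncomputable def rsfq3 : Fn3 := ⟨_, _, fun h1 h2 h3 => (enc_case h1 (enc_neg (rkfq3.enc (enc_neg h1) h2 h3)) (rkfq3.enc h1 h2 h3))⟩
noncomputable def rxq0 : Fn3 := ⟨_, _, fun h1 h2 h3 => (enc_case (enc_sub h1 (cv1m.enc h2)) (enc_add (enc_mul h1 (bx1q0.enc h2 h3)) (enc_mul (enc_norm (enc_sub (enc_pnc _ 1) (lm0m.enc h1 h2))) (enc_norm (enc_sub (l0q0.enc h2 h3) (enc_mul (c1g.enc h2) (bx1q0.enc h2 h3)))))) (enc_case (enc_sub h1 (cv2m.enc h2)) (enc_add (enc_mul h1 (bx2q0.enc h2 h3)) (enc_mul (enc_norm (enc_mul (enc_norm (enc_sub (enc_pnc _ 1) (lm1m.enc h1 h2))) (cv1m.enc h2))) (enc_norm (enc_sub (bx1q0.enc h2 h3) (bx2q0.enc h2 h3))))) (enc_case (enc_sub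 h1 (cv3m.enc h2)) (enc_add (enc_mul h1 (bx3q0.enc h2 h3)) (enc_mul (enc_norm (enc_mul (enc_norm (enc_sub (enc_pnc _ 1) (lm2m.enc h1 h2))) (cv2m.enc h2))) (enc_norm (enc_sub (bx2q0.enc h2 h3) (bx3q0.enc h2 h3))))) (enc_add (l3q0.enc h2 h3) (enc_mul (lm3m.enc h1 h2) (enc_norm (enc_sub (l4q0.enc h2 h3) (l3q0.enc h2 h3))))))))⟩
noncomputable def rlq0 : Fn3 := ⟨_, _, fun h1 h2 h3 => (enc_case h1 (enc_neg (rxq0.enc (enc_neg h1) h2 h3)) (rxq0.enc h1 h2 h3))⟩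
noncomputable def bx2q1_3 : Fn2 := ⟨_, _, fun h1 h2 => (enc_subr 7 128 h2)⟩
noncomputable def bx2q1_42 : Fn2 := ⟨_, _, fun h1 h2 => (enc_sq (enc_norm (bx2q1_3.enc h1 h2)))⟩
noncomputable def bx2q1 : Fn2 := ⟨_, _, fun h1 h2 => (enc_norm (enc_case (enc_subr 121 128 h1) (enc_case (enc_subr 3 4 h1) (enc_add (enc_sub (enc_rat _ 799773 10000000) (enc_scale 213777 2500000 h1)) (enc_mul (enc_norm (bx2q1_3.enc h1 h2)) (enc_norm (enc_sub (enc_rat _ 1300751 1000000) (enc_scale 17639 12500 h1))))) (enc_case (enc_subr 22 25 h1) (enc_add (enc_sub (enc_rat _ 10396221 130000000) (enc_scale 111153 1300000 h1)) (enc_mul (enc_norm (bx2q1_3.enc h1 h2)) (enc_norm (enc_sub (enc_rat _ 162517 125000) (enc_scale 14103 10000 h1))))) (enc_add (enc_add (enc_sub (enc_rat _ 6696698767 83750000000) (enc_scale 35799167 418750000 h1)) (enc_mul (enc_norm (bx2q1_3.enc h1 h2)) (enc_norm (enc_sub (enc_rat _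 504877379 523437500) (enc_scale 43086989 41875000 h1))))) (enc_mul (bx2q1_42.enc h1 h2) (enc_norm (enc_sub (enc_rat _ 27126 1046875) (enc_scale 1233 41875 h1))))))) (enc_case (enc_subr 197 200 h1) (enc_add (enc_add (enc_sub (enc_rat _ 457320783 32500000000) (enc_scale 2290839 162500000 h1)) (enc_mul (enc_norm (bx2q1_3.enc h1 h2)) (enc_norm (enc_sub (enc_rat _ 37567341 130000000) (enc_scale 189023 650000 h1))))) (enc_mul (bx2q1_42.enc h1 h2) (enc_norm (enc_subr 36051 1625000 (enc_scale 183 8125 h1))))) (enc_add (enc_sub (enc_rat _ 309 25000) (enc_scale 309 25000 h1)) (enc_mul (enc_norm (bx2q1_3.enc h1 h2)) (enc_norm (enc_sub (enc_rat _ 2537 15000) (enc_scale 2537 15000 h1))))))))⟩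
noncomputable def rxq1_35 : Fn3 := ⟨_, _, fun h1 h2 h3 => (enc_add (enc_mul h1 (bx2q1.enc h2 h3)) (enc_mul (enc_norm (enc_mul (enc_norm (enc_sub (enc_pnc _ 1) (lm1m.enc h1 h2))) (cv1m.enc h2))) (enc_norm (enc_sub (bx1q1.enc h2 h3) (bx2q1.enc h2 h3)))))⟩
noncomputable def rxq1_37 : Fn3 := ⟨_, _, fun h1 h2 h3 => (enc_sub (enc_pnc _ 1) h2)⟩
noncomputable def rxq1 : Fn3 := ⟨_, _, fun h1 h2 h3 => (enc_case (enc_sub h1 (cv1m.enc h2)) (enc_add (enc_mul h1 (bx1q1.enc h2 h3)) (enc_mul (enc_norm (enc_sub (enc_pnc _ 1) (lm0m.enc h1 h2))) (enc_norm (enc_sub (l0q1.enc h2 h3) (enc_mul (c1g.enc h2) (bx1q1.enc h2 h3)))))) (enc_case (enc_sub h1 (cv2m.enc h2)) (enc_case (enc_subr 59 64 h2) (rxq1_35.enc h1 h2 h3) (enc_case (enc_subr 31 32 h2) (enc_add (l1q1.enc h2 h3) (enc_mul (lm1m.enc h1 h2) (enc_norm (enc_sub (enc_sub (qsg.enc (enc_norm (rxq1_37.enc h1 h2 h3))) (enc_mul (enc_norm (enc_nat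 2 (enc_sub (rxq1_37.enc h1 h2 h3) h3))) (enc_norm (enc_mul (esg.enc (enc_norm (rxq1_37.enc h1 h2 h3))) (kcg.enc (enc_norm (enc_sub (enc_scale 3 4 (rxq1_37.enc h1 h2 h3)) (enc_half (gsg.enc (enc_norm (rxq1_37.enc h1 h2 h3)))))) h3))))) (l1q1.enc h2 h3))))) (rxq1_35.enc h1 h2 h3))) (enc_case (enc_sub h1 (cv3m.enc h2)) (enc_add (enc_mul h1 (bx3q1.enc h2 h3)) (enc_mul (enc_norm (enc_sub (enc_pnc _ 1) (lm2m.enc h1 h2))) (enc_norm (enc_sub (l2q1.enc h2 h3) (enc_mul (cv2m.enc h2) (bx3q1.enc h2 h3)))))) (enc_add (l3q1.enc h2 h3) (enc_mul (lm3m.enc h1 h2) (enc_norm (enc_sub (l4q1.enc h2 h3) (l3q1.enc h2 h3))))))))⟩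
noncomputable def rlq1 : Fn3 := ⟨_, _, fun h1 h2 h3 => (enc_case h1 (enc_neg (rxq1.enc (enc_neg h1) h2 h3)) (rxq1.enc h1 h2 h3))⟩
noncomputable def l2q2_4 : Fn2 := ⟨_, _, fun h1 h2 => (enc_subr 7 128 h2)⟩
noncomputable def l2q2_31 : Fn2 := ⟨_, _, fun h1 h2 => (enc_sq (enc_norm (l2q2_4.enc h1 h2)))⟩
noncomputable def l2q2_80 : Fn2 := ⟨_, _, fun h1 h2 => (enc_subn 1 h1)⟩
noncomputable def l2q2 : Fn2 := ⟨_, _, fun h1 h2 => (enc_norm (enc_case (enc_subr 33 32 h1) (enc_mul (cv2p.enc h1) (enc_norm (enc_case (enc_subr 203 200 h1) (enc_add (enc_subr 1123 30000 (enc_scale 1123 30000 h1)) (enc_mul (enc_norm (l2q2_4.enc h1 h2)) (enc_norm (enc_subr 4963 7500 (enc_scale 4963 7500 h1))))) (enc_add (enc_add (enc_subr 683673619 16250000000 (enc_scale 1706399 40625000 h1)) (enc_mul (enc_norm (l2q2_4.enc h1 h2)) (enc_norm (enc_subr 1188916211 1625000000 (enc_scale 5936187 8125000 h1))))) (enc_mul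 (l2q2_31.enc h1 h2) (enc_norm (enc_sub (enc_rat _ 2233 32500) (enc_scale 22 325 h1)))))))) (enc_case (enc_subr 69 64 h1) (enc_sub (qsg.enc (enc_norm (l2q2_80.enc h1 h2))) (enc_mul (enc_norm (enc_nat 2 (enc_sub (l2q2_80.enc h1 h2) h2))) (enc_norm (enc_mul (esg.enc (enc_norm (l2q2_80.enc h1 h2))) (kcg.enc (enc_norm (enc_sub (enc_scale 3 4 (l2q2_80.enc h1 h2)) (enc_half (gsg.enc (enc_norm (l2q2_80.enc h1 h2)))))) h2))))) (enc_mul (cv2p.enc h1) (enc_norm (enc_case (enc_subr 29 25 h1) (enc_add (enc_add (enc_subr 12426033989 163750000000 (enc_scale 30126851 409375000 h1)) (enc_mul (enc_norm (l2q2_4.enc h1 h2)) (enc_norm (enc_sub (enc_rat _ 2514575809 4093750000) (enc_scale 42994223 81875000 h1))))) (enc_mul (l2q2_31.enc h1 h2) (enc_norm (enc_subr 21518 409375 (enc_scale 742 16375 h1))))) (enc_case (enc_subr 13 10 h1) (enc_add (enc_subr 5312401 70000000 (enc_scale 51519 700000 h1))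 (enc_mul (enc_norm (l2q2_4.enc h1 h2)) (enc_norm (enc_subr 32797 500000 (enc_scale 1219 20000 h1))))) (enc_add (enc_subr 18973 250000 (enc_scale 73599 1000000 h1)) (enc_mul (enc_norm (l2q2_4.enc h1 h2)) (enc_norm (enc_subr 130239 2000000 (enc_scale 12117 200000 h1))))))))))))⟩
noncomputable def bx2q2_3 : Fn2 := ⟨_, _, fun h1 h2 => (enc_subr 7 128 h2)⟩
noncomputable def bx2q2_30 : Fn2 := ⟨_, _, fun h1 h2 => (enc_sq (enc_norm (bx2q2_3.enc h1 h2)))⟩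
noncomputable def bx2q2 : Fn2 := ⟨_, _, fun h1 h2 => (enc_norm (enc_case (enc_subr 135 128 h1) (enc_case (enc_subr 203 200 h1) (enc_add (enc_subr 1123 30000 (enc_scale 1123 30000 h1)) (enc_mul (enc_norm (bx2q2_3.enc h1 h2)) (enc_norm (enc_subr 4963 7500 (enc_scale 4963 7500 h1))))) (enc_add (enc_add (enc_subr 683673619 16250000000 (enc_scale 1706399 40625000 h1)) (enc_mul (enc_norm (bx2q2_3.enc h1 h2)) (enc_norm (enc_subr 1188916211 1625000000 (enc_scale 5936187 8125000 h1))))) (enc_mul (bx2q2_30.enc h1 h2) (enc_norm (enc_sub (enc_rat _ 2233 32500) (enc_scale 22 325 h1)))))) (enc_case (enc_subr 29 25 h1) (enc_add (enc_add (enc_subr 12426033989 163750000000 (enc_scale 30126851 409375000 h1)) (enc_mul (enc_norm (bx2q2_3.enc h1 h2)) (enc_norm (enc_sub (enc_rat _ 2514575809 4093750000) (enc_scale 42994223 81875000 h1))))) (enc_mul (bx2q2_30.enc h1 h2) (enc_norm (enc_subr 21518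 409375 (enc_scale 742 16375 h1))))) (enc_case (enc_subr 13 10 h1) (enc_add (enc_subr 5312401 70000000 (enc_scale 51519 700000 h1)) (enc_mul (enc_norm (bx2q2_3.enc h1 h2)) (enc_norm (enc_subr 32797 500000 (enc_scale 1219 20000 h1))))) (enc_add (enc_subr 18973 250000 (enc_scale 73599 1000000 h1)) (enc_mul (enc_norm (bx2q2_3.enc h1 h2)) (enc_norm (enc_subr 130239 2000000 (enc_scale 12117 200000 h1)))))))))⟩
noncomputable def l1q2 : Fn2 := ⟨_, _, fun h1 h2 => (enc_norm (enc_mul (cv1p.enc h1) (bx1q2.enc h1 h2)))⟩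
noncomputable def l0q2_7 : Fn2 := ⟨_, _, fun h1 h2 => (enc_scale 3 4 h1)⟩
noncomputable def l0q2_8 : Fn2 := ⟨_, _, fun h1 h2 => (enc_half (c1g.enc h1))⟩
noncomputable def l0q2 : Fn2 := ⟨_, _, fun h1 h2 => (enc_norm (enc_sub (txg.enc (enc_neg (c1g.enc h1)) (enc_norm (enc_add (l0q2_7.enc h1 h2) (l0q2_8.enc h1 h2))) h2) (txg.enc (c1g.enc h1) (enc_norm (enc_sub (l0q2_7.enc h1 h2) (l0q2_8.enc h1 h2))) h2)))⟩
noncomputable def n0x : Fn2 := ⟨_, _, fun h1 h2 => (enc_norm (enc_add (enc_scale 2469 40000 (enc_subr 7 128 h2)) (enc_rat _ 5879 1500000)))⟩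
noncomputable def rxq2_35 : Fn3 := ⟨_, _, fun h1 h2 h3 => (enc_add (enc_mul h1 (bx2q2.enc h2 h3)) (enc_mul (enc_norm (enc_mul (enc_norm (enc_sub (enc_pnc _ 1) (lm1p.enc h1 h2))) (cv1p.enc h2))) (enc_norm (enc_sub (bx1q2.enc h2 h3) (bx2q2.enc h2 h3)))))⟩
noncomputable def rxq2_36 : Fn3 := ⟨_, _, fun h1 h2 h3 => (enc_subn 1 h2)⟩
noncomputable def rxq2_64 : Fn3 := ⟨_, _, fun h1 h2 h3 => (enc_mul h1 (bx1q2.enc h2 h3))⟩
noncomputable def rxq2_66 : Fn3 := ⟨_, _, fun h1 h2 h3 => (enc_sub (enc_pnc _ 1) (lm0p.enc h1 h2))⟩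
noncomputable def rxq2 : Fn3 := ⟨_, _, fun h1 h2 h3 => (enc_case (enc_sub h1 (cv1p.enc h2)) (enc_case (enc_subr 1153 1000 h2) (enc_add (rxq2_64.enc h1 h2 h3) (enc_mul (enc_norm (rxq2_66.enc h1 h2 h3)) (enc_norm (enc_sub (l0q2.enc h2 h3) (enc_mul (c1g.enc h2) (bx1q2.enc h2 h3)))))) (enc_case (enc_subr 2887 2500 h2) (enc_add (rxq2_64.enc h1 h2 h3) (enc_mul (enc_norm (rxq2_66.enc h1 h2 h3)) (enc_norm (enc_mul (c1g.enc h2) (enc_norm (enc_sub (n0x.enc h2 h3) (bx1q2.enc h2 h3))))))) (rxq2_64.enc h1 h2 h3))) (enc_case (enc_sub h1 (cv2p.enc h2)) (enc_case (enc_subr 33 32 h2) (rxq2_35.enc h1 h2 h3) (enc_case (enc_subr 69 64 h2) (enc_add (l1q2.enc h2 h3) (enc_mul (lm1p.enc h1 h2) (enc_norm (enc_sub (enc_sub (qsg.enc (enc_norm (rxq2_36.enc h1 h2 h3))) (enc_mul (enc_norm (enc_nat 2 (enc_sub (rxq2_36.enc h1 h2 h3) h3))) (enc_norm (enc_mul (esg.enc (enc_norm (rxq2_36.enc h1 h2 h3))) (kcg.enc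 (enc_norm (enc_sub (enc_scale 3 4 (rxq2_36.enc h1 h2 h3)) (enc_half (gsg.enc (enc_norm (rxq2_36.enc h1 h2 h3)))))) h3))))) (l1q2.enc h2 h3))))) (rxq2_35.enc h1 h2 h3))) (enc_case (enc_sub h1 (cv3p.enc h2)) (enc_add (enc_mul h1 (bx3q2.enc h2 h3)) (enc_mul (enc_norm (enc_sub (enc_pnc _ 1) (lm2p.enc h1 h2))) (enc_norm (enc_sub (l2q2.enc h2 h3) (enc_mul (cv2p.enc h2) (bx3q2.enc h2 h3)))))) (enc_add (l3q2.enc h2 h3) (enc_mul (lm3p.enc h1 h2) (enc_norm (enc_sub (l4q2.enc h2 h3) (l3q2.enc h2 h3))))))))⟩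
noncomputable def rlq2 : Fn3 := ⟨_, _, fun h1 h2 h3 => (enc_case h1 (enc_neg (rxq2.enc (enc_neg h1) h2 h3)) (rxq2.enc h1 h2 h3))⟩
noncomputable def l3q3 : Fn2 := ⟨_, _, fun h1 h2 => (enc_norm (enc_mul (cv3r.enc h1) (bx3q3.enc h1 h2)))⟩
noncomputable def l4q3_7 : Fn2 := ⟨_, _, fun h1 h2 => (enc_half (c3g.enc h1))⟩
noncomputable def l4q3_8 : Fn2 := ⟨_, _, fun h1 h2 => (enc_scale 1 4 h1)⟩
noncomputable def l4q3_9 : Fn2 := ⟨_, _, fun h1 h2 => (enc_sub (l4q3_7.enc h1 h2) (l4q3_8.enc h1 h2))⟩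
noncomputable def l4q3_12 : Fn2 := ⟨_, _, fun h1 h2 => (enc_add (enc_scale 1 4 (c3g.enc h1)) (enc_scale 3 8 h1))⟩
noncomputable def l4q3_14 : Fn2 := ⟨_, _, fun h1 h2 => (enc_half (l4q3_9.enc h1 h2))⟩
noncomputable def l4q3 : Fn2 := ⟨_, _, fun h1 h2 => (enc_norm (enc_sub (enc_nat 2 (txg.enc (enc_norm (enc_sub (l4q3_8.enc h1 h2) (l4q3_7.enc h1 h2))) (enc_norm (enc_add (l4q3_12.enc h1 h2) (l4q3_14.enc h1 h2))) h2)) (txg.enc (enc_norm (l4q3_9.enc h1 h2)) (enc_norm (enc_sub (l4q3_12.enc h1 h2) (l4q3_14.enc h1 h2))) h2)))⟩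
noncomputable def rxq3 : Fn3 := ⟨_, _, fun h1 h2 h3 => (enc_case (enc_sub h1 (cv1r.enc h2)) (enc_mul h1 (bx1q3.enc h2 h3)) (enc_case (enc_sub h1 (cv2r.enc h2)) (enc_add (enc_mul h1 (bx2q3.enc h2 h3)) (enc_mul (enc_norm (enc_mul (enc_norm (enc_sub (enc_pnc _ 1) (lm1r.enc h1 h2))) (cv1r.enc h2))) (enc_norm (enc_sub (bx1q3.enc h2 h3) (bx2q3.enc h2 h3))))) (enc_case (enc_sub h1 (cv3r.enc h2)) (enc_add (enc_mul h1 (bx3q3.enc h2 h3)) (enc_mul (enc_norm (enc_mul (enc_norm (enc_sub (enc_pnc _ 1) (lm2r.enc h1 h2))) (cv2r.enc h2))) (enc_norm (enc_sub (bx2q3.enc h2 h3) (bx3q3.enc h2 h3))))) (enc_add (l3q3.enc h2 h3) (enc_mul (lm3r.enc h1 h2) (enc_norm (enc_sub (l4q3.enc h2 h3) (l3q3.enc h2 h3))))))))⟩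
noncomputable def rlq3 : Fn3 := ⟨_, _, fun h1 h2 h3 => (enc_case h1 (enc_neg (rxq3.enc (enc_neg h1) h2 h3)) (rxq3.enc h1 h2 h3))⟩
noncomputable def mug3 : Fn1 := ⟨_, _, fun h1 => (enc_inv (enc_add (enc_nat 2 (gsg.enc h1)) (enc_pnc _ 3)))⟩
noncomputable def gug : Fn1 := ⟨_, _, fun h1 => (enc_norm (enc_add (enc_scale 3 4 h1) (enc_scale 3 2 (enc_sub (enc_pnc _ 1) (gsg.enc h1)))))⟩
noncomputable def kug_2 : Fn1 := ⟨_, _, fun h1 => (enc_sq h1)⟩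
noncomputable def kug : Fn1 := ⟨_, _, fun h1 => (enc_norm (enc_add (enc_add (enc_scale 3 4 h1) (enc_scale 3 2 (kug_2.enc h1))) (enc_mul (enc_norm (enc_mul (enc_scale 3 4 (kug_2.enc h1)) (enc_inv (gsg.enc h1)))) (gug.enc h1))))⟩
noncomputable def kp0q0_3 : Fn2 := ⟨_, _, fun h1 h2 => (enc_subr 7 128 h2)⟩
noncomputable def kp0q0_8 : Fn2 := ⟨_, _, fun h1 h2 => (enc_sub (enc_scale 3 4 h1) (enc_half (c1g.enc h1)))⟩
noncomputable def kp0q0 : Fn2 := ⟨_, _, fun h1 h2 => (enc_norm (enc_case (enc_add (kp0q0_8.enc h1 h2) (enc_rat _ 661 1387)) (enc_mul h1 (enc_norm (enc_add (enc_subr 252488811833 650000000000 (enc_neg (enc_scale 315272116833 325000000000 (kp0q0_8.enc h1 h2)))) (enc_mul (enc_norm (kp0q0_3.enc h1 h2)) (enc_norm (enc_add (enc_scale 1447283251737 325000000000 (kp0q0_8.enc h1 h2)) (enc_rat _ 1403049451737 650000000000))))))) (enc_case (enc_add (kp0q0_8.enc h1 h2) (enc_rat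 _ 191 434)) (enc_sub (kug.enc h1) (enc_mul h1 (enc_norm (enc_mul (kcg.enc (enc_norm (kp0q0_8.enc h1 h2)) h2) (enc_norm (enc_add (gug.enc h1) (enc_nat 2 (c1g.enc h1)))))))) (enc_mul h1 (enc_norm (enc_case (enc_add (kp0q0_8.enc h1 h2) (enc_rat _ 3 10)) (enc_case (enc_add (kp0q0_8.enc h1 h2) (enc_rat _ 2 5)) (enc_add (enc_sub (enc_rat _ 44065346579 217500000000) (enc_scale 52636171 87000000000 (kp0q0_8.enc h1 h2))) (enc_mul (enc_norm (kp0q0_3.enc h1 h2)) (enc_norm (enc_subr 6153490967 72500000000 (enc_neg (enc_scale 8999478467 29000000000 (kp0q0_8.enc h1 h2))))))) (enc_add (enc_sub (enc_rat _ 2026017 10000000) (enc_scale 599 1000000 (kp0q0_8.enc h1 h2))) (enc_mul (enc_norm (kp0q0_3.enc h1 h2)) (enc_norm (enc_subr 30381 200000 (enc_neg (enc_scale 4779 10000 (kp0q0_8.enc h1 h2)))))))) (enc_case (kp0q0_8.enc h1 h2) (enc_add (enc_sub (enc_rat _ 405233 2000000) (enc_scale 1649 3000000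 (kp0q0_8.enc h1 h2))) (enc_mul (enc_norm (kp0q0_3.enc h1 h2)) (enc_norm (enc_subr 79101 500000 (enc_neg (enc_scale 49889 100000 (kp0q0_8.enc h1 h2))))))) (enc_add (enc_sub (enc_rat _ 405233 2000000) (enc_scale 2381 5000000 (kp0q0_8.enc h1 h2))) (enc_mul (enc_norm (kp0q0_3.enc h1 h2)) (enc_norm (enc_subr 79101 500000 (enc_neg (enc_scale 14159 25000 (kp0q0_8.enc h1 h2))))))))))))))⟩
noncomputable def kn0q0 : Fn2 := ⟨_, _, fun h1 h2 => (enc_norm (enc_add (enc_mul (enc_norm (enc_add (enc_pnc _ 1) (enc_mul (mug3.enc h2) (gug.enc h2)))) (kf0q0.enc h1 h2)) (enc_mul (mug3.enc h2) (kp0q0.enc h1 h2))))⟩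
noncomputable def kp0q1_3 : Fn2 := ⟨_, _, fun h1 h2 => (enc_subr 7 128 h2)⟩
noncomputable def kp0q1_9 : Fn2 := ⟨_, _, fun h1 h2 => (enc_sub (enc_scale 3 4 h1) (enc_half (c1g.enc h1)))⟩
noncomputable def kp0q1 : Fn2 := ⟨_, _, fun h1 h2 => (enc_norm (enc_mul (enc_norm (enc_subn 1 h1)) (enc_norm (enc_case (enc_add (kp0q1_9.enc h1 h2) (enc_rat _ 3 10)) (enc_case (enc_add (kp0q1_9.enc h1 h2) (enc_rat _ 2 5)) (enc_add (enc_sub (enc_rat _ 44065346579 217500000000) (enc_scale 52636171 87000000000 (kp0q1_9.enc h1 h2))) (enc_mul (enc_norm (kp0q1_3.enc h1 h2)) (enc_norm (enc_subr 6153490967 72500000000 (enc_neg (enc_scale 8999478467 29000000000 (kp0q1_9.enc h1 h2))))))) (enc_add (enc_sub (enc_rat _ 2026017 10000000) (enc_scale 599 1000000 (kp0q1_9.enc h1 h2))) (enc_mul (enc_norm (kp0q1_3.enc h1 h2)) (enc_norm (enc_subr 30381 200000 (enc_neg (enc_scale 4779 10000 (kp0q1_9.enc h1 h2))))))))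 (enc_case (kp0q1_9.enc h1 h2) (enc_add (enc_sub (enc_rat _ 405233 2000000) (enc_scale 1649 3000000 (kp0q1_9.enc h1 h2))) (enc_mul (enc_norm (kp0q1_3.enc h1 h2)) (enc_norm (enc_subr 79101 500000 (enc_neg (enc_scale 49889 100000 (kp0q1_9.enc h1 h2))))))) (enc_add (enc_sub (enc_rat _ 405233 2000000) (enc_scale 2381 5000000 (kp0q1_9.enc h1 h2))) (enc_mul (enc_norm (kp0q1_3.enc h1 h2)) (enc_norm (enc_subr 79101 500000 (enc_neg (enc_scale 14159 25000 (kp0q1_9.enc h1 h2))))))))))))⟩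
noncomputable def kn0q1 : Fn2 := ⟨_, _, fun h1 h2 => (enc_norm (enc_add (enc_mul (enc_norm (enc_add (enc_pnc _ 1) (enc_mul (mug3.enc h2) (gug.enc h2)))) (kf0q1.enc h1 h2)) (enc_mul (mug3.enc h2) (kp0q1.enc h1 h2))))⟩
noncomputable def kpc02_4 : Fn2 := ⟨_, _, fun h1 h2 => (enc_subr 7 128 h2)⟩
noncomputable def kpc02 : Fn2 := ⟨_, _, fun h1 h2 => (enc_norm (enc_mul (enc_norm (enc_subn 1 (yag.enc h1))) (enc_norm (enc_case (enc_subr 1 10 h1) (enc_sub (enc_neg (enc_scale 434041 1000000 h1)) (enc_mul (enc_norm (kpc02_4.enc h1 h2)) (enc_scale 1657 100000 h1))) (enc_add (enc_subr 167 20000000 (enc_neg (enc_scale 173583 400000 h1))) (enc_mul (enc_norm (kpc02_4.enc h1 h2)) (enc_norm (enc_sub (enc_rat _ 1583 2000000) (enc_scale 4897 200000 h1)))))))))⟩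
noncomputable def knc02 : Fn2 := ⟨_, _, fun h1 h2 => (enc_norm (enc_add (enc_mul (enc_norm (enc_add (enc_pnc _ 1) (enc_mul (mug3.enc h2) (gug.enc h2)))) (kfc02.enc h1 h2)) (enc_mul (mug3.enc h2) (kpc02.enc h1 h2))))⟩
noncomputable def bd1q0_3 : Fn2 := ⟨_, _, fun h1 h2 => (enc_subr 7 128 h2)⟩
noncomputable def bd1q0 : Fn2 := ⟨_, _, fun h1 h2 => (enc_norm (enc_case (enc_subr 1 10 h1) (enc_sub (enc_neg (enc_scale 11186827 1000000 h1)) (enc_mul (enc_norm (bd1q0_3.enc h1 h2)) (enc_scale 23 50000 h1))) (enc_add (enc_sub (enc_rat _ 3 20000000) (enc_scale 22373657 2000000 h1)) (enc_mul (enc_norm (bd1q0_3.enc h1 h2)) (enc_norm (enc_sub (enc_rat _ 1 400000) (enc_scale 97 200000 h1)))))))⟩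
noncomputable def kp1q0 : Fn2 := ⟨_, _, fun h1 h2 => (enc_norm (enc_mul (cv1m.enc h1) (bd1q0.enc h1 h2)))⟩
noncomputable def kn1q0 : Fn2 := ⟨_, _, fun h1 h2 => (enc_norm (enc_add (enc_mul (enc_norm (enc_add (enc_pnc _ 1) (enc_mul (mug3.enc h2) (gug.enc h2)))) (kf1q0.enc h1 h2)) (enc_mul (mug3.enc h2) (kp1q0.enc h1 h2))))⟩
noncomputable def bd1q1_3 : Fn2 := ⟨_, _, fun h1 h2 => (enc_subr 7 128 h2)⟩
noncomputable def bd1q1_9 : Fn2 := ⟨_, _, fun h1 h2 => (enc_subr 29292461 5000000 (enc_scale 1235841 200000 h1))⟩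
noncomputable def bd1q1 : Fn2 := ⟨_, _, fun h1 h2 => (enc_norm (enc_case (enc_subr 9 10 h1) (enc_add (bd1q1_9.enc h1 h2) (enc_mul (enc_norm (bd1q1_3.enc h1 h2)) (enc_norm (enc_subr 393 500000 (enc_scale 189 100000 h1))))) (enc_add (bd1q1_9.enc h1 h2) (enc_mul (enc_norm (bd1q1_3.enc h1 h2)) (enc_norm (enc_subr 429 500000 (enc_scale 197 100000 h1)))))))⟩
noncomputable def kp1q1 : Fn2 := ⟨_, _, fun h1 h2 => (enc_norm (enc_mul (cv1m.enc h1) (bd1q1.enc h1 h2)))⟩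
noncomputable def kn1q1 : Fn2 := ⟨_, _, fun h1 h2 => (enc_norm (enc_add (enc_mul (enc_norm (enc_add (enc_pnc _ 1) (enc_mul (mug3.enc h2) (gug.enc h2)))) (kf1q1.enc h1 h2)) (enc_mul (mug3.enc h2) (kp1q1.enc h1 h2))))⟩
noncomputable def bd1q2_3 : Fn2 := ⟨_, _, fun h1 h2 => (enc_subr 7 128 h2)⟩
noncomputable def bd1q2_16 : Fn2 := ⟨_, _, fun h1 h2 => (enc_mul (enc_norm (bd1q2_3.enc h1 h2)) (enc_norm (enc_sub (enc_rat _ 1657 100000) (enc_scale 1657 100000 h1))))⟩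
noncomputable def bd1q2 : Fn2 := ⟨_, _, fun h1 h2 => (enc_norm (enc_case (enc_subr 577 500 h1) (enc_case (enc_subr 11 10 h1) (enc_add (enc_sub (enc_rat _ 434047 1000000) (enc_scale 434047 1000000 h1)) (bd1q2_16.enc h1 h2)) (enc_add (enc_sub (enc_rat _ 4882817 11250000) (enc_scale 3906269 9000000 h1)) (bd1q2_16.enc h1 h2))) (enc_case (enc_subr 231 200 h1) (enc_add (enc_sub (enc_rat _ 434041 1000000) (enc_scale 434041 1000000 h1)) (bd1q2_16.enc h1 h2)) (enc_add (enc_sub (enc_rat _ 6239349 14375000) (enc_scale 29948869 69000000 h1)) (enc_mul (enc_norm (bd1q2_3.enc h1 h2)) (enc_norm (enc_sub (enc_rat _ 78299 5750000) (enc_scale 32231 2300000 h1))))))))⟩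
noncomputable def kpc12a : Fn2 := ⟨_, _, fun h1 h2 => (enc_norm (enc_mul (enc_norm (enc_add (enc_scale 2 5 h1) (enc_scale 3 5 (enc_subr 1 2 (swg.enc (yag.enc h1)))))) (bd1q2.enc (yag.enc h1) h2)))⟩
noncomputable def knc12a : Fn2 := ⟨_, _, fun h1 h2 => (enc_norm (enc_add (enc_mul (enc_norm (enc_add (enc_pnc _ 1) (enc_mul (mug3.enc h2) (gug.enc h2)))) (kfc12a.enc h1 h2)) (enc_mul (mug3.enc h2) (kpc12a.enc h1 h2))))⟩
noncomputable def kpc12b : Fn2 := ⟨_, _, fun h1 h2 => (enc_norm (enc_mul (enc_norm (enc_scale 3 5 (enc_subr 1 2 (swg.enc h1)))) (bd1q2.enc h1 h2)))⟩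
noncomputable def knc12b : Fn2 := ⟨_, _, fun h1 h2 => (enc_norm (enc_add (enc_mul (enc_norm (enc_add (enc_pnc _ 1) (enc_mul (mug3.enc h2) (gug.enc h2)))) (kfc12b.enc h1 h2)) (enc_mul (mug3.enc h2) (kpc12b.enc h1 h2))))⟩
noncomputable def bd1q3_3 : Fn2 := ⟨_, _, fun h1 h2 => (enc_subr 7 128 h2)⟩
noncomputable def bd1q3 : Fn2 := ⟨_, _, fun h1 h2 => (enc_norm (enc_case (enc_subr 19 10 h1) (enc_add (enc_sub (enc_rat _ 555204241 40000000) (enc_scale 28387819 4000000 h1)) (enc_mul (enc_norm (bd1q3_3.enc h1 h2)) (enc_norm (enc_subr 97 2000000 (enc_scale 1 40000 h1))))) (enc_add (enc_sub (enc_rat _ 27760213 2000000) (enc_scale 1419391 200000 h1)) (enc_mul (enc_norm (bd1q3_3.enc h1 h2)) (enc_norm (enc_subr 39 1000000 (enc_scale 1 50000 h1)))))))⟩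
noncomputable def kp1q3 : Fn2 := ⟨_, _, fun h1 h2 => (enc_norm (enc_mul (cv1r.enc h1) (bd1q3.enc h1 h2)))⟩
noncomputable def kn1q3 : Fn2 := ⟨_, _, fun h1 h2 => (enc_norm (enc_add (enc_mul (enc_norm (enc_add (enc_pnc _ 1) (enc_mul (mug3.enc h2) (gug.enc h2)))) (kf1q3.enc h1 h2)) (enc_mul (mug3.enc h2) (kp1q3.enc h1 h2))))⟩
noncomputable def bd2q0_3 : Fn2 := ⟨_, _, fun h1 h2 => (enc_subr 7 128 h2)⟩
noncomputable def bd2q0 : Fn2 := ⟨_, _, fun h1 h2 => (enc_norm (enc_case (enc_subr 1 10 h1) (enc_sub (enc_neg (enc_scale 1662587 1000000 h1)) (enc_mul (enc_norm (bd2q0_3.enc h1 h2)) (enc_scale 177 100000 h1))) (enc_add (enc_sub (enc_rat _ 3 8000000) (enc_scale 6650363 4000000 h1)) (enc_mul (enc_norm (bd2q0_3.enc h1 h2)) (enc_norm (enc_sub (enc_rat _ 29 2000000) (enc_scale 383 200000 h1)))))))⟩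
noncomputable def kp2q0 : Fn2 := ⟨_, _, fun h1 h2 => (enc_norm (enc_mul (cv2m.enc h1) (bd2q0.enc h1 h2)))⟩
noncomputable def kn2q0 : Fn2 := ⟨_, _, fun h1 h2 => (enc_norm (enc_add (enc_mul (enc_norm (enc_add (enc_pnc _ 1) (enc_mul (mug3.enc h2) (gug.enc h2)))) (kf2q0.enc h1 h2)) (enc_mul (mug3.enc h2) (kp2q0.enc h1 h2))))⟩
noncomputable def kp2q1_4 : Fn2 := ⟨_, _, fun h1 h2 => (enc_subr 7 128 h2)⟩
noncomputable def kp2q1_42 : Fn2 := ⟨_, _, fun h1 h2 => (enc_sub (enc_pnc _ 1) h1)⟩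
noncomputable def kp2q1_43 : Fn2 := ⟨_, _, fun h1 h2 => (gsg.enc (enc_norm (kp2q1_42.enc h1 h2)))⟩
noncomputable def kp2q1_47 : Fn2 := ⟨_, _, fun h1 h2 => (esg.enc (enc_norm (kp2q1_42.enc h1 h2)))⟩
noncomputable def kp2q1_55 : Fn2 := ⟨_, _, fun h1 h2 => (enc_mul (enc_scale 3 4 (enc_sq (enc_norm (kp2q1_42.enc h1 h2)))) (enc_inv (kp2q1_43.enc h1 h2)))⟩
noncomputable def kp2q1 : Fn2 := ⟨_, _, fun h1 h2 => (enc_norm (enc_case (enc_subr 59 64 h1) (enc_mul (cv2m.enc h1) (enc_norm (enc_case (enc_subr 9 10 h1) (enc_add (enc_sub (enc_rat _ 48841791 20000000) (enc_scale 1052911 400000 h1)) (enc_mul (enc_norm (kp2q1_4.enc h1 h2)) (enc_norm (enc_subr 1907 400000 (enc_scale 2013 200000 h1))))) (enc_add (enc_sub (enc_rat _ 10684134651 4375000000) (enc_scale 575810307 218750000 h1)) (enc_mul (enc_norm (kp2q1_4.enc h1 h2)) (enc_norm (enc_sub (enc_rat _ 14058869 875000000) (enc_scale 286229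 21875000 h1)))))))) (enc_case (enc_subr 31 32 h1) (enc_sub (enc_add (kug.enc (enc_norm (kp2q1_42.enc h1 h2))) (enc_mul (enc_norm (enc_sub (enc_mul (enc_norm (enc_mul (enc_norm (kp2q1_55.enc h1 h2)) (enc_norm (enc_subn 3 (enc_nat 4 (kp2q1_43.enc h1 h2)))))) (kp2q1_47.enc h1 h2)) (enc_mul (qsg.enc (enc_norm (kp2q1_42.enc h1 h2))) (enc_norm (enc_sub (enc_half (kp2q1_42.enc h1 h2)) (kp2q1_55.enc h1 h2)))))) (enc_inv (enc_mul (enc_nat 2 (kp2q1_47.enc h1 h2)) (kp2q1_47.enc h1 h2))))) (enc_mul (enc_norm (enc_mul (enc_norm (kp2q1_42.enc h1 h2)) (kcg.enc (enc_norm (enc_sub (enc_scale 3 4 (kp2q1_42.enc h1 h2)) (enc_half (kp2q1_43.enc h1 h2)))) h2))) (enc_norm (enc_add (enc_add (enc_pnc _ 1) (gug.enc (enc_norm (kp2q1_42.enc h1 h2)))) (enc_nat 2 (kp2q1_43.enc h1 h2)))))) (enc_mul (cv2m.enc h1) (enc_norm (enc_add (enc_sub (enc_rat _ 714976 9765625) (enc_scale 714976 9765625 h1)) (enc_mul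 (enc_norm (kp2q1_4.enc h1 h2)) (enc_norm (enc_sub (enc_rat _ 226871 6250000) (enc_scale 226871 6250000 h1))))))))))⟩
noncomputable def kn2q1 : Fn2 := ⟨_, _, fun h1 h2 => (enc_norm (enc_add (enc_mul (enc_norm (enc_add (enc_pnc _ 1) (enc_mul (mug3.enc h2) (gug.enc h2)))) (kf2q1.enc h1 h2)) (enc_mul (mug3.enc h2) (kp2q1.enc h1 h2))))⟩
noncomputable def kpc22a_3 : Fn2 := ⟨_, _, fun h1 h2 => (cv2p.enc (yag.enc h1))⟩
noncomputable def kpc22a_5 : Fn2 := ⟨_, _, fun h1 h2 => (enc_subr 7 128 h2)⟩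
noncomputable def kpc22a_42 : Fn2 := ⟨_, _, fun h1 h2 => (enc_subn 1 (yag.enc h1))⟩
noncomputable def kpc22a_43 : Fn2 := ⟨_, _, fun h1 h2 => (gsg.enc (enc_norm (kpc22a_42.enc h1 h2)))⟩
noncomputable def kpc22a_47 : Fn2 := ⟨_, _, fun h1 h2 => (esg.enc (enc_norm (kpc22a_42.enc h1 h2)))⟩
noncomputable def kpc22a_55 : Fn2 := ⟨_, _, fun h1 h2 => (enc_mul (enc_scale 3 4 (enc_sq (enc_norm (kpc22a_42.enc h1 h2)))) (enc_inv (kpc22a_43.enc h1 h2)))⟩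
noncomputable def kpc22a : Fn2 := ⟨_, _, fun h1 h2 => (enc_norm (enc_case (enc_subr 33 32 (yag.enc h1)) (enc_mul (kpc22a_3.enc h1 h2) (enc_norm (enc_add (enc_subr 4908269 62500000 (enc_scale 4908269 62500000 (yag.enc h1))) (enc_mul (enc_norm (kpc22a_5.enc h1 h2)) (enc_norm (enc_subr 72023 1953125 (enc_scale 72023 1953125 (yag.enc h1)))))))) (enc_case (enc_subr 69 64 (yag.enc h1)) (enc_add (enc_sub (kug.enc (enc_norm (kpc22a_42.enc h1 h2))) (enc_mul (enc_norm (enc_sub (enc_mul (enc_norm (enc_mul (enc_norm (kpc22a_55.enc h1 h2)) (enc_norm (enc_subn 3 (enc_nat 4 (kpc22a_43.enc h1 h2)))))) (kpc22a_47.enc h1 h2)) (enc_mul (qsg.enc (enc_norm (kpc22a_42.enc h1 h2))) (enc_norm (enc_sub (enc_half (kpc22a_42.enc h1 h2)) (kpc22a_55.enc h1 h2)))))) (enc_inv (enc_mul (enc_nat 2 (kpc22a_47.enc h1 h2)) (kpc22a_47.enc h1 h2))))) (enc_mul (enc_norm (enc_mul (enc_norm (kpc22a_42.enc h1 h2))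 (kcg.enc (enc_norm (enc_sub (enc_scale 3 4 (kpc22a_42.enc h1 h2)) (enc_half (kpc22a_43.enc h1 h2)))) h2))) (enc_norm (enc_sub (enc_sub (enc_pnc _ 1) (gug.enc (enc_norm (kpc22a_42.enc h1 h2)))) (enc_nat 2 (kpc22a_43.enc h1 h2)))))) (enc_mul (kpc22a_3.enc h1 h2) (enc_norm (enc_case (enc_subr 11 10 (yag.enc h1)) (enc_add (enc_subr 2310165769 546875000 (enc_scale 215137479 54687500 (yag.enc h1))) (enc_mul (enc_norm (kpc22a_5.enc h1 h2)) (enc_norm (enc_subr 1160743 125000000 (enc_scale 38997 3125000 (yag.enc h1)))))) (enc_add (enc_subr 10560751 2500000 (enc_scale 196697 50000 (yag.enc h1))) (enc_mul (enc_norm (kpc22a_5.enc h1 h2)) (enc_norm (enc_sub (enc_rat _ 34457 2000000) (enc_scale 93 8000 (yag.enc h1))))))))))))⟩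
noncomputable def knc22a : Fn2 := ⟨_, _, fun h1 h2 => (enc_norm (enc_add (enc_mul (enc_norm (enc_add (enc_pnc _ 1) (enc_mul (mug3.enc h2) (gug.enc h2)))) (kfc22a.enc h1 h2)) (enc_mul (mug3.enc h2) (kpc22a.enc h1 h2))))⟩
noncomputable def kpc22b_5 : Fn2 := ⟨_, _, fun h1 h2 => (enc_subr 7 128 h2)⟩
noncomputable def kpc22b_42 : Fn2 := ⟨_, _, fun h1 h2 => (enc_subn 1 h1)⟩
noncomputable def kpc22b_43 : Fn2 := ⟨_, _, fun h1 h2 => (gsg.enc (enc_norm (kpc22b_42.enc h1 h2)))⟩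
noncomputable def kpc22b_47 : Fn2 := ⟨_, _, fun h1 h2 => (esg.enc (enc_norm (kpc22b_42.enc h1 h2)))⟩
noncomputable def kpc22b_55 : Fn2 := ⟨_, _, fun h1 h2 => (enc_mul (enc_scale 3 4 (enc_sq (enc_norm (kpc22b_42.enc h1 h2)))) (enc_inv (kpc22b_43.enc h1 h2)))⟩
noncomputable def kpc22b : Fn2 := ⟨_, _, fun h1 h2 => (enc_norm (enc_case (enc_subr 33 32 h1) (enc_mul (cv2p.enc h1) (enc_norm (enc_add (enc_subr 4908269 62500000 (enc_scale 4908269 62500000 h1)) (enc_mul (enc_norm (kpc22b_5.enc h1 h2)) (enc_norm (enc_subr 72023 1953125 (enc_scale 72023 1953125 h1))))))) (enc_case (enc_subr 69 64 h1) (enc_add (enc_sub (kug.enc (enc_norm (kpc22b_42.enc h1 h2))) (enc_mul (enc_norm (enc_sub (enc_mul (enc_norm (enc_mul (enc_norm (kpc22b_55.enc h1 h2)) (enc_norm (enc_subn 3 (enc_nat 4 (kpc22b_43.enc h1 h2)))))) (kpc22b_47.enc h1 h2)) (enc_mul (qsg.enc (enc_norm (kpc22b_42.enc h1 h2))) (enc_norm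 (enc_sub (enc_half (kpc22b_42.enc h1 h2)) (kpc22b_55.enc h1 h2)))))) (enc_inv (enc_mul (enc_nat 2 (kpc22b_47.enc h1 h2)) (kpc22b_47.enc h1 h2))))) (enc_mul (enc_norm (enc_mul (enc_norm (kpc22b_42.enc h1 h2)) (kcg.enc (enc_norm (enc_sub (enc_scale 3 4 (kpc22b_42.enc h1 h2)) (enc_half (kpc22b_43.enc h1 h2)))) h2))) (enc_norm (enc_sub (enc_sub (enc_pnc _ 1) (gug.enc (enc_norm (kpc22b_42.enc h1 h2)))) (enc_nat 2 (kpc22b_43.enc h1 h2)))))) (enc_mul (cv2p.enc h1) (enc_norm (enc_case (enc_subr 11 10 h1) (enc_add (enc_subr 2310165769 546875000 (enc_scale 215137479 54687500 h1)) (enc_mul (enc_norm (kpc22b_5.enc h1 h2)) (enc_norm (enc_subr 1160743 125000000 (enc_scale 38997 3125000 h1))))) (enc_add (enc_subr 10560751 2500000 (enc_scale 196697 50000 h1)) (enc_mul (enc_norm (kpc22b_5.enc h1 h2)) (enc_norm (enc_sub (enc_rat _ 34457 2000000) (enc_scale 93 8000 h1)))))))))))⟩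
noncomputable def knc22b : Fn2 := ⟨_, _, fun h1 h2 => (enc_norm (enc_add (enc_mul (enc_norm (enc_add (enc_pnc _ 1) (enc_mul (mug3.enc h2) (gug.enc h2)))) (kfc22b.enc h1 h2)) (enc_mul (mug3.enc h2) (kpc22b.enc h1 h2))))⟩
noncomputable def bd2q3_3 : Fn2 := ⟨_, _, fun h1 h2 => (enc_subr 7 128 h2)⟩
noncomputable def bd2q3 : Fn2 := ⟨_, _, fun h1 h2 => (enc_norm (enc_case (enc_subr 19 10 h1) (enc_add (enc_subr 752009411 40000000 (enc_scale 7230233 800000 h1)) (enc_mul (enc_norm (bd2q3_3.enc h1 h2)) (enc_norm (enc_sub (enc_rat _ 639 4000000) (enc_scale 37 400000 h1))))) (enc_add (enc_subr 188002367 10000000 (enc_scale 282431 31250 h1)) (enc_mul (enc_norm (bd2q3_3.enc h1 h2)) (enc_norm (enc_sub (enc_rat _ 31 200000) (enc_scale 9 100000 h1)))))))⟩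
noncomputable def kp2q3 : Fn2 := ⟨_, _, fun h1 h2 => (enc_norm (enc_mul (cv2r.enc h1) (bd2q3.enc h1 h2)))⟩
noncomputable def kn2q3 : Fn2 := ⟨_, _, fun h1 h2 => (enc_norm (enc_add (enc_mul (enc_norm (enc_add (enc_pnc _ 1) (enc_mul (mug3.enc h2) (gug.enc h2)))) (kf2q3.enc h1 h2)) (enc_mul (mug3.enc h2) (kp2q3.enc h1 h2))))⟩
noncomputable def bd3q0_3 : Fn2 := ⟨_, _, fun h1 h2 => (enc_subr 7 128 h2)⟩
noncomputable def bd3q0_9 : Fn2 := ⟨_, _, fun h1 h2 => (enc_sub (enc_rat _ 62619589 10000000) (enc_scale 7268679 1000000 h1))⟩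
noncomputable def bd3q0 : Fn2 := ⟨_, _, fun h1 h2 => (enc_norm (enc_case (enc_subr 1 10 h1) (enc_add (bd3q0_9.enc h1 h2) (enc_mul (enc_norm (bd3q0_3.enc h1 h2)) (enc_norm (enc_subr 113 1000000 (enc_neg (enc_scale 159 100000 h1)))))) (enc_add (bd3q0_9.enc h1 h2) (enc_mul (enc_norm (bd3q0_3.enc h1 h2)) (enc_norm (enc_subr 429 4000000 (enc_neg (enc_scale 659 400000 h1))))))))⟩
noncomputable def kp3q0 : Fn2 := ⟨_, _, fun h1 h2 => (enc_norm (enc_mul (cv3m.enc h1) (bd3q0.enc h1 h2)))⟩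
noncomputable def kn3q0 : Fn2 := ⟨_, _, fun h1 h2 => (enc_norm (enc_add (enc_mul (enc_norm (enc_add (enc_pnc _ 1) (enc_mul (mug3.enc h2) (gug.enc h2)))) (kf3q0.enc h1 h2)) (enc_mul (mug3.enc h2) (kp3q0.enc h1 h2))))⟩
noncomputable def bd3q1_3 : Fn2 := ⟨_, _, fun h1 h2 => (enc_subr 7 128 h2)⟩
noncomputable def bd3q1 : Fn2 := ⟨_, _, fun h1 h2 => (enc_norm (enc_case (enc_subr 9 10 h1) (enc_add (enc_subr 22458267 40000000 (enc_scale 2245831 4000000 h1)) (enc_mul (enc_norm (bd3q1_3.enc h1 h2)) (enc_norm (enc_subr 489 80000 (enc_scale 1211 200000 h1))))) (enc_add (enc_subr 561447 1000000 (enc_scale 561447 1000000 h1)) (enc_mul (enc_norm (bd3q1_3.enc h1 h2)) (enc_norm (enc_subr 663 100000 (enc_scale 663 100000 h1)))))))⟩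
noncomputable def kp3q1 : Fn2 := ⟨_, _, fun h1 h2 => (enc_norm (enc_mul (cv3m.enc h1) (bd3q1.enc h1 h2)))⟩
noncomputable def kn3q1 : Fn2 := ⟨_, _, fun h1 h2 => (enc_norm (enc_add (enc_mul (enc_norm (enc_add (enc_pnc _ 1) (enc_mul (mug3.enc h2) (gug.enc h2)))) (kf3q1.enc h1 h2)) (enc_mul (mug3.enc h2) (kp3q1.enc h1 h2))))⟩
noncomputable def bd3q2_3 : Fn2 := ⟨_, _, fun h1 h2 => (enc_subr 7 128 h2)⟩
noncomputable def bd3q2 : Fn2 := ⟨_, _, fun h1 h2 => (enc_norm (enc_case (enc_subr 11 10 h1) (enc_add (enc_sub (enc_rat _ 20867579 2500000) (enc_scale 8087517 1000000 h1)) (enc_mul (enc_norm (bd3q2_3.enc h1 h2)) (enc_norm (enc_subr 17743 200000 (enc_scale 6203 100000 h1))))) (enc_add (enc_sub (enc_rat _ 166940621 20000000) (enc_scale 16175033 2000000 h1)) (enc_mul (enc_norm (bd3q2_3.enc h1 h2)) (enc_norm (enc_subr 348029 4000000 (enc_scale 24191 400000 h1)))))))⟩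
noncomputable def kp3q2 : Fn2 := ⟨_, _, fun h1 h2 => (enc_norm (enc_mul (cv3p.enc h1) (bd3q2.enc h1 h2)))⟩
noncomputable def kn3q2 : Fn2 := ⟨_, _, fun h1 h2 => (enc_norm (enc_add (enc_mul (enc_norm (enc_add (enc_pnc _ 1) (enc_mul (mug3.enc h2) (gug.enc h2)))) (kf3q2.enc h1 h2)) (enc_mul (mug3.enc h2) (kp3q2.enc h1 h2))))⟩
noncomputable def bd3q3_3 : Fn2 := ⟨_, _, fun h1 h2 => (enc_subr 7 128 h2)⟩
noncomputable def bd3q3 : Fn2 := ⟨_, _, fun h1 h2 => (enc_norm (enc_case (enc_subr 19 10 h1) (enc_add (enc_sub (enc_rat _ 457229859 20000000) (enc_scale 22861493 2000000 h1)) (enc_mul (enc_norm (bd3q3_3.enc h1 h2)) (enc_norm (enc_subr 621 4000000 (enc_scale 31 400000 h1))))) (enc_add (enc_sub (enc_rat _ 5715373 250000) (enc_scale 5715373 500000 h1)) (enc_mul (enc_norm (bd3q3_3.enc h1 h2)) (enc_norm (enc_subr 1 6250 (enc_scale 1 12500 h1)))))))⟩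
noncomputable def kpc33 : Fn2 := ⟨_, _, fun h1 h2 => (enc_norm (enc_mul (enc_norm (enc_add (enc_scale 3 5 (enc_subr 1 2 (swg.enc (ycg.enc h1)))) (enc_scale 2 5 h1))) (bd3q3.enc (ycg.enc h1) h2)))⟩
noncomputable def knc33 : Fn2 := ⟨_, _, fun h1 h2 => (enc_norm (enc_add (enc_mul (enc_norm (enc_add (enc_pnc _ 1) (enc_mul (mug3.enc h2) (gug.enc h2)))) (kfc33.enc h1 h2)) (enc_mul (mug3.enc h2) (kpc33.enc h1 h2))))⟩
noncomputable def kp4q0_3 : Fn2 := ⟨_, _, fun h1 h2 => (enc_subr 7 128 h2)⟩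
noncomputable def kp4q0 : Fn2 := ⟨_, _, fun h1 h2 => (enc_norm (enc_mul h1 (enc_norm (enc_case (enc_subr 1 10 (enc_half h1)) (enc_add (enc_sub (enc_rat _ 6600927 10000000) (enc_scale 353563 500000 h1)) (enc_mul (enc_norm (kp4q0_3.enc h1 h2)) (enc_norm (enc_sub (enc_rat _ 17 12500) (enc_scale 859 100000 h1))))) (enc_add (enc_sub (enc_rat _ 26403707 40000000) (enc_scale 5657007 8000000 h1)) (enc_mul (enc_norm (kp4q0_3.enc h1 h2)) (enc_norm (enc_sub (enc_rat _ 1391 1000000) (enc_scale 1749 200000 h1)))))))))⟩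
noncomputable def kn4q0 : Fn2 := ⟨_, _, fun h1 h2 => (enc_norm (enc_add (enc_mul (enc_norm (enc_add (enc_pnc _ 1) (enc_mul (mug3.enc h2) (gug.enc h2)))) (kf4q0.enc h1 h2)) (enc_mul (mug3.enc h2) (kp4q0.enc h1 h2))))⟩
noncomputable def kp4q1_3 : Fn2 := ⟨_, _, fun h1 h2 => (enc_subr 7 128 h2)⟩
noncomputable def kp4q1 : Fn2 := ⟨_, _, fun h1 h2 => (enc_norm (enc_mul (enc_norm (enc_subn 1 h1)) (enc_norm (enc_case (enc_subr 1 10 (enc_half h1)) (enc_add (enc_sub (enc_rat _ 6600927 10000000) (enc_scale 353563 500000 h1)) (enc_mul (enc_norm (kp4q1_3.enc h1 h2)) (enc_norm (enc_sub (enc_rat _ 17 12500) (enc_scale 859 100000 h1))))) (enc_add (enc_sub (enc_rat _ 26403707 40000000) (enc_scale 5657007 8000000 h1)) (enc_mul (enc_norm (kp4q1_3.enc h1 h2)) (enc_norm (enc_sub (enc_rat _ 1391 1000000) (enc_scale 1749 200000 h1)))))))))⟩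
noncomputable def kn4q1 : Fn2 := ⟨_, _, fun h1 h2 => (enc_norm (enc_add (enc_mul (enc_norm (enc_add (enc_pnc _ 1) (enc_mul (mug3.enc h2) (gug.enc h2)))) (kf4q1.enc h1 h2)) (enc_mul (mug3.enc h2) (kp4q1.enc h1 h2))))⟩
noncomputable def kp4q2_3 : Fn2 := ⟨_, _, fun h1 h2 => (enc_subr 7 128 h2)⟩
noncomputable def kp4q2_9 : Fn2 := ⟨_, _, fun h1 h2 => (enc_sub (enc_half (c3g.enc h1)) (enc_scale 1 4 h1))⟩
noncomputable def kp4q2 : Fn2 := ⟨_, _, fun h1 h2 => (enc_norm (enc_mul (enc_norm (enc_subn 1 h1)) (enc_norm (enc_case (enc_add (kp4q2_9.enc h1 h2) (enc_rat _ 2 5)) (enc_add (enc_add (enc_scale 7133 200000 (kp4q2_9.enc h1 h2)) (enc_rat _ 701043 5000000)) (enc_mul (enc_norm (kp4q2_3.enc h1 h2)) (enc_norm (enc_subr 23073 500000 (enc_neg (enc_scale 10223 100000 (kp4q2_9.enc h1 h2))))))) (enc_add (enc_add (enc_scale 320983 9000000 (kp4q2_9.enc h1 h2)) (enc_rat _ 6309383 45000000))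 (enc_mul (enc_norm (kp4q2_3.enc h1 h2)) (enc_norm (enc_subr 69751 1500000 (enc_neg (enc_scale 6187 60000 (kp4q2_9.enc h1 h2)))))))))))⟩
noncomputable def kn4q2 : Fn2 := ⟨_, _, fun h1 h2 => (enc_norm (enc_add (enc_mul (enc_norm (enc_add (enc_pnc _ 1) (enc_mul (mug3.enc h2) (gug.enc h2)))) (kf4q2.enc h1 h2)) (enc_mul (mug3.enc h2) (kp4q2.enc h1 h2))))⟩
noncomputable def kpc43_4 : Fn2 := ⟨_, _, fun h1 h2 => (enc_subr 7 128 h2)⟩
noncomputable def kpc43_9 : Fn2 := ⟨_, _, fun h1 h2 => (enc_sub (enc_half h1) (enc_scale 1 4 (ycg.enc h1)))⟩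
noncomputable def kpc43 : Fn2 := ⟨_, _, fun h1 h2 => (enc_norm (enc_mul (enc_norm (enc_subn 2 (ycg.enc h1))) (enc_norm (enc_case (enc_add (kpc43_9.enc h1 h2) (enc_rat _ 2 5)) (enc_add (enc_add (enc_scale 7133 200000 (kpc43_9.enc h1 h2)) (enc_rat _ 701043 5000000)) (enc_mul (enc_norm (kpc43_4.enc h1 h2)) (enc_norm (enc_subr 23073 500000 (enc_neg (enc_scale 10223 100000 (kpc43_9.enc h1 h2))))))) (enc_add (enc_add (enc_scale 320983 9000000 (kpc43_9.enc h1 h2)) (enc_rat _ 6309383 45000000)) (enc_mul (enc_norm (kpc43_4.enc h1 h2)) (enc_norm (enc_subr 69751 1500000 (enc_neg (enc_scale 6187 60000 (kpc43_9.enc h1 h2)))))))))))⟩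
noncomputable def knc43 : Fn2 := ⟨_, _, fun h1 h2 => (enc_norm (enc_add (enc_mul (enc_norm (enc_add (enc_pnc _ 1) (enc_mul (mug3.enc h2) (gug.enc h2)))) (kfc43.enc h1 h2)) (enc_mul (mug3.enc h2) (kpc43.enc h1 h2))))⟩
noncomputable def bn3q0 : Fn2 := ⟨_, _, fun h1 h2 => (enc_norm (enc_add (enc_mul (enc_norm (enc_add (enc_pnc _ 1) (enc_mul (mug3.enc h2) (gug.enc h2)))) (bf3q0.enc h1 h2)) (enc_mul (mug3.enc h2) (bd3q0.enc h1 h2))))⟩
noncomputable def bn2q0 : Fn2 := ⟨_, _, fun h1 h2 => (enc_norm (enc_add (enc_mul (enc_norm (enc_add (enc_pnc _ 1) (enc_mul (mug3.enc h2) (gug.enc h2)))) (bf2q0.enc h1 h2)) (enc_mul (mug3.enc h2) (bd2q0.enc h1 h2))))⟩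
noncomputable def bn1q0 : Fn2 := ⟨_, _, fun h1 h2 => (enc_norm (enc_add (enc_mul (enc_norm (enc_add (enc_pnc _ 1) (enc_mul (mug3.enc h2) (gug.enc h2)))) (bf1q0.enc h1 h2)) (enc_mul (mug3.enc h2) (bd1q0.enc h1 h2))))⟩
noncomputable def rknq0 : Fn3 := ⟨_, _, fun h1 h2 h3 => (enc_case (enc_sub h1 (cv1m.enc h2)) (enc_add (enc_mul h1 (bn1q0.enc h2 h3)) (enc_mul (enc_norm (enc_sub (enc_pnc _ 1) (lm0m.enc h1 h2))) (enc_norm (enc_sub (kn0q0.enc h2 h3) (enc_mul (c1g.enc h2) (bn1q0.enc h2 h3)))))) (enc_case (enc_sub h1 (cv2m.enc h2)) (enc_add (enc_mul h1 (bn2q0.enc h2 h3)) (enc_mul (enc_norm (enc_mul (enc_norm (enc_sub (enc_pnc _ 1) (lm1m.enc h1 h2))) (cv1m.enc h2))) (enc_norm (enc_sub (bn1q0.enc h2 h3) (bn2q0.enc h2 h3))))) (enc_case (enc_sub h1 (cv3m.enc h2)) (enc_add (enc_mul h1 (bn3q0.enc h2 h3)) (enc_mul (enc_norm (enc_mul (enc_norm (enc_sub (enc_pnc _ 1) (lm2m.enc h1 h2))) (cv2m.enc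 h2))) (enc_norm (enc_sub (bn2q0.enc h2 h3) (bn3q0.enc h2 h3))))) (enc_add (kn3q0.enc h2 h3) (enc_mul (lm3m.enc h1 h2) (enc_norm (enc_sub (kn4q0.enc h2 h3) (kn3q0.enc h2 h3))))))))⟩
noncomputable def rsnq0 : Fn3 := ⟨_, _, fun h1 h2 h3 => (enc_case h1 (enc_neg (rknq0.enc (enc_neg h1) h2 h3)) (rknq0.enc h1 h2 h3))⟩
noncomputable def bn3q1 : Fn2 := ⟨_, _, fun h1 h2 => (enc_norm (enc_add (enc_mul (enc_norm (enc_add (enc_pnc _ 1) (enc_mul (mug3.enc h2) (gug.enc h2)))) (bf3q1.enc h1 h2)) (enc_mul (mug3.enc h2) (bd3q1.enc h1 h2))))⟩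
noncomputable def bd2q1_3 : Fn2 := ⟨_, _, fun h1 h2 => (enc_subr 7 128 h2)⟩
noncomputable def bd2q1 : Fn2 := ⟨_, _, fun h1 h2 => (enc_norm (enc_case (enc_subr 121 128 h1) (enc_case (enc_subr 9 10 h1) (enc_add (enc_sub (enc_rat _ 48841791 20000000) (enc_scale 1052911 400000 h1)) (enc_mul (enc_norm (bd2q1_3.enc h1 h2)) (enc_norm (enc_subr 1907 400000 (enc_scale 2013 200000 h1))))) (enc_add (enc_sub (enc_rat _ 10684134651 4375000000) (enc_scale 575810307 218750000 h1)) (enc_mul (enc_norm (bd2q1_3.enc h1 h2)) (enc_norm (enc_sub (enc_rat _ 14058869 875000000) (enc_scale 286229 21875000 h1)))))) (enc_add (enc_sub (enc_rat _ 714976 9765625) (enc_scale 714976 9765625 h1)) (enc_mul (enc_norm (bd2q1_3.enc h1 h2)) (enc_norm (enc_sub (enc_rat _ 226871 6250000) (enc_scale 226871 6250000 h1)))))))⟩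
noncomputable def bn2q1 : Fn2 := ⟨_, _, fun h1 h2 => (enc_norm (enc_add (enc_mul (enc_norm (enc_add (enc_pnc _ 1) (enc_mul (mug3.enc h2) (gug.enc h2)))) (bf2q1.enc h1 h2)) (enc_mul (mug3.enc h2) (bd2q1.enc h1 h2))))⟩
noncomputable def bn1q1 : Fn2 := ⟨_, _, fun h1 h2 => (enc_norm (enc_add (enc_mul (enc_norm (enc_add (enc_pnc _ 1) (enc_mul (mug3.enc h2) (gug.enc h2)))) (bf1q1.enc h1 h2)) (enc_mul (mug3.enc h2) (bd1q1.enc h1 h2))))⟩
noncomputable def rknq1_35 : Fn3 := ⟨_, _, fun h1 h2 h3 => (enc_add (enc_mul h1 (bn2q1.enc h2 h3)) (enc_mul (enc_norm (enc_mul (enc_norm (enc_sub (enc_pnc _ 1) (lm1m.enc h1 h2))) (cv1m.enc h2))) (enc_norm (enc_sub (bn1q1.enc h2 h3) (bn2q1.enc h2 h3)))))⟩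
noncomputable def rknq1_41 : Fn3 := ⟨_, _, fun h1 h2 h3 => (enc_sub (enc_pnc _ 1) h2)⟩
noncomputable def rknq1_42 : Fn3 := ⟨_, _, fun h1 h2 h3 => (gsg.enc (enc_norm (rknq1_41.enc h1 h2 h3)))⟩
noncomputable def rknq1_46 : Fn3 := ⟨_, _, fun h1 h2 h3 => (esg.enc (enc_norm (rknq1_41.enc h1 h2 h3)))⟩
noncomputable def rknq1_47 : Fn3 := ⟨_, _, fun h1 h2 h3 => (kcg.enc (enc_norm (enc_sub (enc_scale 3 4 (rknq1_41.enc h1 h2 h3)) (enc_half (rknq1_42.enc h1 h2 h3)))) h3)⟩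
noncomputable def rknq1_48 : Fn3 := ⟨_, _, fun h1 h2 h3 => (enc_scale 3 2 (rknq1_41.enc h1 h2 h3))⟩
noncomputable def rknq1_50 : Fn3 := ⟨_, _, fun h1 h2 h3 => (enc_add (enc_pnc _ 1) (rknq1_42.enc h1 h2 h3))⟩
noncomputable def rknq1_59 : Fn3 := ⟨_, _, fun h1 h2 h3 => (enc_mul (enc_scale 3 4 (enc_sq (enc_norm (rknq1_41.enc h1 h2 h3)))) (enc_inv (rknq1_42.enc h1 h2 h3)))⟩
noncomputable def rknq1_60 : Fn3 := ⟨_, _, fun h1 h2 h3 => (enc_sub (enc_half (rknq1_41.enc h1 h2 h3)) (rknq1_59.enc h1 h2 h3))⟩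
noncomputable def rknq1_61 : Fn3 := ⟨_, _, fun h1 h2 h3 => (enc_nat 2 (rknq1_46.enc h1 h2 h3))⟩
noncomputable def rknq1 : Fn3 := ⟨_, _, fun h1 h2 h3 => (enc_case (enc_sub h1 (cv1m.enc h2)) (enc_add (enc_mul h1 (bn1q1.enc h2 h3)) (enc_mul (enc_norm (enc_sub (enc_pnc _ 1) (lm0m.enc h1 h2))) (enc_norm (enc_sub (kn0q1.enc h2 h3) (enc_mul (c1g.enc h2) (bn1q1.enc h2 h3)))))) (enc_case (enc_sub h1 (cv2m.enc h2)) (enc_case (enc_subr 59 64 h2) (rknq1_35.enc h1 h2 h3) (enc_case (enc_subr 31 32 h2) (enc_add (kn1q1.enc h2 h3) (enc_mul (lm1m.enc h1 h2) (enc_norm (enc_sub (enc_add (enc_mul (enc_norm (enc_add (enc_pnc _ 1) (enc_mul (mug3.enc h3) (gug.enc h3)))) (enc_norm (enc_add (enc_add (enc_mul (enc_norm (enc_mul (enc_norm (enc_sub (rknq1_42.enc h1 h2 h3) (rknq1_48.enc h1 h2 h3))) (enc_norm (rknq1_50.enc h1 h2 h3)))) (enc_inv (enc_sub (rknq1_50.enc h1 h2 h3) (rknq1_48.enc h1 h2 h3))))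 (enc_mul (enc_norm (rknq1_60.enc h1 h2 h3)) (enc_inv (rknq1_61.enc h1 h2 h3)))) (enc_mul (rknq1_47.enc h1 h2 h3) (enc_norm (rknq1_41.enc h1 h2 h3)))))) (enc_mul (mug3.enc h3) (enc_norm (enc_sub (enc_add (kug.enc (enc_norm (rknq1_41.enc h1 h2 h3))) (enc_mul (enc_norm (enc_sub (enc_mul (enc_norm (enc_mul (enc_norm (rknq1_59.enc h1 h2 h3)) (enc_norm (enc_subn 3 (enc_nat 4 (rknq1_42.enc h1 h2 h3)))))) (rknq1_46.enc h1 h2 h3)) (enc_mul (qsg.enc (enc_norm (rknq1_41.enc h1 h2 h3))) (enc_norm (rknq1_60.enc h1 h2 h3))))) (enc_inv (enc_mul (rknq1_61.enc h1 h2 h3) (rknq1_46.enc h1 h2 h3))))) (enc_mul (enc_norm (enc_mul (enc_norm (rknq1_41.enc h1 h2 h3)) (rknq1_47.enc h1 h2 h3))) (enc_norm (enc_add (enc_add (enc_pnc _ 1) (gug.enc (enc_norm (rknq1_41.enc h1 h2 h3)))) (enc_nat 2 (rknq1_42.enc h1 h2 h3))))))))) (kn1q1.enc h2 h3))))) (rknq1_35.enc h1 h2 h3))) (enc_case (enc_sub h1 (cv3m.enc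 h2)) (enc_add (enc_mul h1 (bn3q1.enc h2 h3)) (enc_mul (enc_norm (enc_sub (enc_pnc _ 1) (lm2m.enc h1 h2))) (enc_norm (enc_sub (kn2q1.enc h2 h3) (enc_mul (cv2m.enc h2) (bn3q1.enc h2 h3)))))) (enc_add (kn3q1.enc h2 h3) (enc_mul (lm3m.enc h1 h2) (enc_norm (enc_sub (kn4q1.enc h2 h3) (kn3q1.enc h2 h3))))))))⟩
noncomputable def rsnq1 : Fn3 := ⟨_, _, fun h1 h2 h3 => (enc_case h1 (enc_neg (rknq1.enc (enc_neg h1) h2 h3)) (rknq1.enc h1 h2 h3))⟩
noncomputable def bn3q2 : Fn2 := ⟨_, _, fun h1 h2 => (enc_norm (enc_add (enc_mul (enc_norm (enc_add (enc_pnc _ 1) (enc_mul (mug3.enc h2) (gug.enc h2)))) (bf3q2.enc h1 h2)) (enc_mul (mug3.enc h2) (bd3q2.enc h1 h2))))⟩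
noncomputable def kp2q2_4 : Fn2 := ⟨_, _, fun h1 h2 => (enc_subr 7 128 h2)⟩
noncomputable def kp2q2_41 : Fn2 := ⟨_, _, fun h1 h2 => (enc_subn 1 h1)⟩
noncomputable def kp2q2_42 : Fn2 := ⟨_, _, fun h1 h2 => (gsg.enc (enc_norm (kp2q2_41.enc h1 h2)))⟩
noncomputable def kp2q2_46 : Fn2 := ⟨_, _, fun h1 h2 => (esg.enc (enc_norm (kp2q2_41.enc h1 h2)))⟩
noncomputable def kp2q2_54 : Fn2 := ⟨_, _, fun h1 h2 => (enc_mul (enc_scale 3 4 (enc_sq (enc_norm (kp2q2_41.enc h1 h2)))) (enc_inv (kp2q2_42.enc h1 h2)))⟩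
noncomputable def kp2q2 : Fn2 := ⟨_, _, fun h1 h2 => (enc_norm (enc_case (enc_subr 33 32 h1) (enc_mul (cv2p.enc h1) (enc_norm (enc_add (enc_subr 4908269 62500000 (enc_scale 4908269 62500000 h1)) (enc_mul (enc_norm (kp2q2_4.enc h1 h2)) (enc_norm (enc_subr 72023 1953125 (enc_scale 72023 1953125 h1))))))) (enc_case (enc_subr 69 64 h1) (enc_add (enc_sub (kug.enc (enc_norm (kp2q2_41.enc h1 h2))) (enc_mul (enc_norm (enc_sub (enc_mul (enc_norm (enc_mul (enc_norm (kp2q2_54.enc h1 h2)) (enc_norm (enc_subn 3 (enc_nat 4 (kp2q2_42.enc h1 h2)))))) (kp2q2_46.enc h1 h2)) (enc_mul (qsg.enc (enc_norm (kp2q2_41.enc h1 h2))) (enc_norm (enc_sub (enc_half (kp2q2_41.enc h1 h2)) (kp2q2_54.enc h1 h2)))))) (enc_inv (enc_mul (enc_nat 2 (kp2q2_46.enc h1 h2)) (kp2q2_46.enc h1 h2))))) (enc_mul (enc_norm (enc_mul (enc_norm (kp2q2_41.enc h1 h2)) (kcg.enc (enc_norm (enc_sub (enc_scale 3 4 (kp2q2_41.enc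 h1 h2)) (enc_half (kp2q2_42.enc h1 h2)))) h2))) (enc_norm (enc_sub (enc_sub (enc_pnc _ 1) (gug.enc (enc_norm (kp2q2_41.enc h1 h2)))) (enc_nat 2 (kp2q2_42.enc h1 h2)))))) (enc_mul (cv2p.enc h1) (enc_norm (enc_case (enc_subr 11 10 h1) (enc_add (enc_subr 2310165769 546875000 (enc_scale 215137479 54687500 h1)) (enc_mul (enc_norm (kp2q2_4.enc h1 h2)) (enc_norm (enc_subr 1160743 125000000 (enc_scale 38997 3125000 h1))))) (enc_add (enc_subr 10560751 2500000 (enc_scale 196697 50000 h1)) (enc_mul (enc_norm (kp2q2_4.enc h1 h2)) (enc_norm (enc_sub (enc_rat _ 34457 2000000) (enc_scale 93 8000 h1)))))))))))⟩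
noncomputable def kn2q2 : Fn2 := ⟨_, _, fun h1 h2 => (enc_norm (enc_add (enc_mul (enc_norm (enc_add (enc_pnc _ 1) (enc_mul (mug3.enc h2) (gug.enc h2)))) (kf2q2.enc h1 h2)) (enc_mul (mug3.enc h2) (kp2q2.enc h1 h2))))⟩
noncomputable def bd2q2_3 : Fn2 := ⟨_, _, fun h1 h2 => (enc_subr 7 128 h2)⟩
noncomputable def bd2q2 : Fn2 := ⟨_, _, fun h1 h2 => (enc_norm (enc_case (enc_subr 135 128 h1) (enc_add (enc_subr 4908269 62500000 (enc_scale 4908269 62500000 h1)) (enc_mul (enc_norm (bd2q2_3.enc h1 h2)) (enc_norm (enc_subr 72023 1953125 (enc_scale 72023 1953125 h1))))) (enc_case (enc_subr 11 10 h1) (enc_add (enc_subr 2310165769 546875000 (enc_scale 215137479 54687500 h1)) (enc_mul (enc_norm (bd2q2_3.enc h1 h2)) (enc_norm (enc_subr 1160743 125000000 (enc_scale 38997 3125000 h1))))) (enc_add (enc_subr 10560751 2500000 (enc_scale 196697 50000 h1)) (enc_mul (enc_norm (bd2q2_3.enc h1 h2))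 (enc_norm (enc_sub (enc_rat _ 34457 2000000) (enc_scale 93 8000 h1))))))))⟩
noncomputable def bn2q2 : Fn2 := ⟨_, _, fun h1 h2 => (enc_norm (enc_add (enc_mul (enc_norm (enc_add (enc_pnc _ 1) (enc_mul (mug3.enc h2) (gug.enc h2)))) (bf2q2.enc h1 h2)) (enc_mul (mug3.enc h2) (bd2q2.enc h1 h2))))⟩
noncomputable def bn1q2 : Fn2 := ⟨_, _, fun h1 h2 => (enc_norm (enc_add (enc_mul (enc_norm (enc_add (enc_pnc _ 1) (enc_mul (mug3.enc h2) (gug.enc h2)))) (bf1q2.enc h1 h2)) (enc_mul (mug3.enc h2) (bd1q2.enc h1 h2))))⟩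
noncomputable def kp1q2 : Fn2 := ⟨_, _, fun h1 h2 => (enc_norm (enc_mul (cv1p.enc h1) (bd1q2.enc h1 h2)))⟩
noncomputable def kn1q2 : Fn2 := ⟨_, _, fun h1 h2 => (enc_norm (enc_add (enc_mul (enc_norm (enc_add (enc_pnc _ 1) (enc_mul (mug3.enc h2) (gug.enc h2)))) (kf1q2.enc h1 h2)) (enc_mul (mug3.enc h2) (kp1q2.enc h1 h2))))⟩
noncomputable def kp0q2_3 : Fn2 := ⟨_, _, fun h1 h2 => (enc_subr 7 128 h2)⟩
noncomputable def kp0q2 : Fn2 := ⟨_, _, fun h1 h2 => (enc_norm (enc_mul (enc_norm (enc_subn 1 h1)) (enc_norm (enc_case (enc_subr 1 10 (c1g.enc h1)) (enc_sub (enc_neg (enc_scale 434041 1000000 (c1g.enc h1))) (enc_mul (enc_norm (kp0q2_3.enc h1 h2)) (enc_scale 1657 100000 (c1g.enc h1)))) (enc_add (enc_subr 167 20000000 (enc_neg (enc_scale 173583 400000 (c1g.enc h1)))) (enc_mul (enc_norm (kp0q2_3.enc h1 h2)) (enc_norm (enc_sub (enc_rat _ 1583 2000000) (enc_scale 4897 200000 (c1g.enc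 h1))))))))))⟩
noncomputable def kn0q2 : Fn2 := ⟨_, _, fun h1 h2 => (enc_norm (enc_add (enc_mul (enc_norm (enc_add (enc_pnc _ 1) (enc_mul (mug3.enc h2) (gug.enc h2)))) (kf0q2.enc h1 h2)) (enc_mul (mug3.enc h2) (kp0q2.enc h1 h2))))⟩
noncomputable def n0d : Fn2 := ⟨_, _, fun h1 h2 => (enc_norm (enc_mul (enc_norm (enc_subn 1 h1)) (enc_norm (enc_subr 434041 1000000 (enc_neg (enc_scale 1657 100000 (enc_subr 7 128 h2)))))))⟩
noncomputable def n0n : Fn2 := ⟨_, _, fun h1 h2 => (enc_norm (enc_add (enc_mul (enc_norm (enc_add (enc_pnc _ 1) (enc_mul (mug3.enc h2) (gug.enc h2)))) (n0b.enc h1 h2)) (enc_mul (mug3.enc h2) (n0d.enc h1 h2))))⟩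
noncomputable def rknq2_35 : Fn3 := ⟨_, _, fun h1 h2 h3 => (enc_add (enc_mul h1 (bn2q2.enc h2 h3)) (enc_mul (enc_norm (enc_mul (enc_norm (enc_sub (enc_pnc _ 1) (lm1p.enc h1 h2))) (cv1p.enc h2))) (enc_norm (enc_sub (bn1q2.enc h2 h3) (bn2q2.enc h2 h3)))))⟩
noncomputable def rknq2_40 : Fn3 := ⟨_, _, fun h1 h2 h3 => (enc_subn 1 h2)⟩
noncomputable def rknq2_41 : Fn3 := ⟨_, _, fun h1 h2 h3 => (gsg.enc (enc_norm (rknq2_40.enc h1 h2 h3)))⟩
noncomputable def rknq2_45 : Fn3 := ⟨_, _, fun h1 h2 h3 => (esg.enc (enc_norm (rknq2_40.enc h1 h2 h3)))⟩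
noncomputable def rknq2_46 : Fn3 := ⟨_, _, fun h1 h2 h3 => (kcg.enc (enc_norm (enc_sub (enc_scale 3 4 (rknq2_40.enc h1 h2 h3)) (enc_half (rknq2_41.enc h1 h2 h3)))) h3)⟩
noncomputable def rknq2_47 : Fn3 := ⟨_, _, fun h1 h2 h3 => (enc_scale 3 2 (rknq2_40.enc h1 h2 h3))⟩
noncomputable def rknq2_49 : Fn3 := ⟨_, _, fun h1 h2 h3 => (enc_add (enc_pnc _ 1) (rknq2_41.enc h1 h2 h3))⟩
noncomputable def rknq2_58 : Fn3 := ⟨_, _, fun h1 h2 h3 => (enc_mul (enc_scale 3 4 (enc_sq (enc_norm (rknq2_40.enc h1 h2 h3)))) (enc_inv (rknq2_41.enc h1 h2 h3)))⟩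
noncomputable def rknq2_59 : Fn3 := ⟨_, _, fun h1 h2 h3 => (enc_sub (enc_half (rknq2_40.enc h1 h2 h3)) (rknq2_58.enc h1 h2 h3))⟩
noncomputable def rknq2_60 : Fn3 := ⟨_, _, fun h1 h2 h3 => (enc_nat 2 (rknq2_45.enc h1 h2 h3))⟩
noncomputable def rknq2_104 : Fn3 := ⟨_, _, fun h1 h2 h3 => (enc_mul h1 (bn1q2.enc h2 h3))⟩
noncomputable def rknq2_106 : Fn3 := ⟨_, _, fun h1 h2 h3 => (enc_sub (enc_pnc _ 1) (lm0p.enc h1 h2))⟩
noncomputable def rknq2 : Fn3 := ⟨_, _, fun h1 h2 h3 => (enc_case (enc_sub h1 (cv1p.enc h2)) (enc_case (enc_subr 1153 1000 h2) (enc_add (rknq2_104.enc h1 h2 h3) (enc_mul (enc_norm (rknq2_106.enc h1 h2 h3)) (enc_norm (enc_sub (kn0q2.enc h2 h3) (enc_mul (c1g.enc h2) (bn1q2.enc h2 h3)))))) (enc_case (enc_subr 2887 2500 h2) (enc_add (rknq2_104.enc h1 h2 h3) (enc_mul (enc_norm (rknq2_106.enc h1 h2 h3)) (enc_norm (enc_mul (c1g.enc h2) (enc_norm (enc_sub (n0n.enc h2 h3)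 (bn1q2.enc h2 h3))))))) (rknq2_104.enc h1 h2 h3))) (enc_case (enc_sub h1 (cv2p.enc h2)) (enc_case (enc_subr 33 32 h2) (rknq2_35.enc h1 h2 h3) (enc_case (enc_subr 69 64 h2) (enc_add (kn1q2.enc h2 h3) (enc_mul (lm1p.enc h1 h2) (enc_norm (enc_sub (enc_add (enc_mul (enc_norm (enc_add (enc_pnc _ 1) (enc_mul (mug3.enc h3) (gug.enc h3)))) (enc_norm (enc_add (enc_sub (enc_mul (enc_norm (enc_mul (enc_norm (enc_sub (rknq2_41.enc h1 h2 h3) (rknq2_47.enc h1 h2 h3))) (enc_norm (rknq2_49.enc h1 h2 h3)))) (enc_inv (enc_sub (rknq2_49.enc h1 h2 h3) (rknq2_47.enc h1 h2 h3)))) (enc_mul (enc_norm (rknq2_59.enc h1 h2 h3)) (enc_inv (rknq2_60.enc h1 h2 h3)))) (enc_mul (rknq2_46.enc h1 h2 h3) (enc_norm (rknq2_40.enc h1 h2 h3)))))) (enc_mul (mug3.enc h3) (enc_norm (enc_add (enc_sub (kug.enc (enc_norm (rknq2_40.enc h1 h2 h3))) (enc_mul (enc_norm (enc_sub (enc_mul (enc_norm (enc_mul (enc_norm (rknq2_58.enc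 h1 h2 h3)) (enc_norm (enc_subn 3 (enc_nat 4 (rknq2_41.enc h1 h2 h3)))))) (rknq2_45.enc h1 h2 h3)) (enc_mul (qsg.enc (enc_norm (rknq2_40.enc h1 h2 h3))) (enc_norm (rknq2_59.enc h1 h2 h3))))) (enc_inv (enc_mul (rknq2_60.enc h1 h2 h3) (rknq2_45.enc h1 h2 h3))))) (enc_mul (enc_norm (enc_mul (enc_norm (rknq2_40.enc h1 h2 h3)) (rknq2_46.enc h1 h2 h3))) (enc_norm (enc_sub (enc_sub (enc_pnc _ 1) (gug.enc (enc_norm (rknq2_40.enc h1 h2 h3)))) (enc_nat 2 (rknq2_41.enc h1 h2 h3))))))))) (kn1q2.enc h2 h3))))) (rknq2_35.enc h1 h2 h3))) (enc_case (enc_sub h1 (cv3p.enc h2)) (enc_add (enc_mul h1 (bn3q2.enc h2 h3)) (enc_mul (enc_norm (enc_sub (enc_pnc _ 1) (lm2p.enc h1 h2))) (enc_norm (enc_sub (kn2q2.enc h2 h3) (enc_mul (cv2p.enc h2) (bn3q2.enc h2 h3)))))) (enc_add (kn3q2.enc h2 h3) (enc_mul (lm3p.enc h1 h2) (enc_norm (enc_sub (kn4q2.enc h2 h3) (kn3q2.enc h2 h3))))))))⟩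
noncomputable def rsnq2 : Fn3 := ⟨_, _, fun h1 h2 h3 => (enc_case h1 (enc_neg (rknq2.enc (enc_neg h1) h2 h3)) (rknq2.enc h1 h2 h3))⟩
noncomputable def kp3q3 : Fn2 := ⟨_, _, fun h1 h2 => (enc_norm (enc_mul (cv3r.enc h1) (bd3q3.enc h1 h2)))⟩
noncomputable def kn3q3 : Fn2 := ⟨_, _, fun h1 h2 => (enc_norm (enc_add (enc_mul (enc_norm (enc_add (enc_pnc _ 1) (enc_mul (mug3.enc h2) (gug.enc h2)))) (kf3q3.enc h1 h2)) (enc_mul (mug3.enc h2) (kp3q3.enc h1 h2))))⟩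
noncomputable def kp4q3_3 : Fn2 := ⟨_, _, fun h1 h2 => (enc_subr 7 128 h2)⟩
noncomputable def kp4q3_9 : Fn2 := ⟨_, _, fun h1 h2 => (enc_sub (enc_half (c3g.enc h1)) (enc_scale 1 4 h1))⟩
noncomputable def kp4q3 : Fn2 := ⟨_, _, fun h1 h2 => (enc_norm (enc_mul (enc_norm (enc_subn 2 h1)) (enc_norm (enc_case (enc_add (kp4q3_9.enc h1 h2) (enc_rat _ 2 5)) (enc_add (enc_add (enc_scale 7133 200000 (kp4q3_9.enc h1 h2)) (enc_rat _ 701043 5000000)) (enc_mul (enc_norm (kp4q3_3.enc h1 h2)) (enc_norm (enc_subr 23073 500000 (enc_neg (enc_scale 10223 100000 (kp4q3_9.enc h1 h2))))))) (enc_add (enc_add (enc_scale 320983 9000000 (kp4q3_9.enc h1 h2)) (enc_rat _ 6309383 45000000)) (enc_mul (enc_norm (kp4q3_3.enc h1 h2)) (enc_norm (enc_subr 69751 1500000 (enc_neg (enc_scale 6187 60000 (kp4q3_9.enc h1 h2)))))))))))⟩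
noncomputable def kn4q3 : Fn2 := ⟨_, _, fun h1 h2 => (enc_norm (enc_add (enc_mul (enc_norm (enc_add (enc_pnc _ 1) (enc_mul (mug3.enc h2) (gug.enc h2)))) (kf4q3.enc h1 h2)) (enc_mul (mug3.enc h2) (kp4q3.enc h1 h2))))⟩
noncomputable def bn3q3 : Fn2 := ⟨_, _, fun h1 h2 => (enc_norm (enc_add (enc_mul (enc_norm (enc_add (enc_pnc _ 1) (enc_mul (mug3.enc h2) (gug.enc h2)))) (bf3q3.enc h1 h2)) (enc_mul (mug3.enc h2) (bd3q3.enc h1 h2))))⟩
noncomputable def bn2q3 : Fn2 := ⟨_, _, fun h1 h2 => (enc_norm (enc_add (enc_mul (enc_norm (enc_add (enc_pnc _ 1) (enc_mul (mug3.enc h2) (gug.enc h2)))) (bf2q3.enc h1 h2)) (enc_mul (mug3.enc h2) (bd2q3.enc h1 h2))))⟩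
noncomputable def bn1q3 : Fn2 := ⟨_, _, fun h1 h2 => (enc_norm (enc_add (enc_mul (enc_norm (enc_add (enc_pnc _ 1) (enc_mul (mug3.enc h2) (gug.enc h2)))) (bf1q3.enc h1 h2)) (enc_mul (mug3.enc h2) (bd1q3.enc h1 h2))))⟩
noncomputable def rknq3 : Fn3 := ⟨_, _, fun h1 h2 h3 => (enc_case (enc_sub h1 (cv1r.enc h2)) (enc_mul h1 (bn1q3.enc h2 h3)) (enc_case (enc_sub h1 (cv2r.enc h2)) (enc_add (enc_mul h1 (bn2q3.enc h2 h3)) (enc_mul (enc_norm (enc_mul (enc_norm (enc_sub (enc_pnc _ 1) (lm1r.enc h1 h2))) (cv1r.enc h2))) (enc_norm (enc_sub (bn1q3.enc h2 h3) (bn2q3.enc h2 h3))))) (enc_case (enc_sub h1 (cv3r.enc h2)) (enc_add (enc_mul h1 (bn3q3.enc h2 h3)) (enc_mul (enc_norm (enc_mul (enc_norm (enc_sub (enc_pnc _ 1) (lm2r.enc h1 h2))) (cv2r.enc h2))) (enc_norm (enc_sub (bn2q3.enc h2 h3) (bn3q3.enc h2 h3))))) (enc_add (kn3q3.enc h2 h3) (enc_mul (lm3r.enc h1 h2) (enc_norm (enc_sub (kn4q3.enc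 h2 h3) (kn3q3.enc h2 h3))))))))⟩
noncomputable def rsnq3 : Fn3 := ⟨_, _, fun h1 h2 h3 => (enc_case h1 (enc_neg (rknq3.enc (enc_neg h1) h2 h3)) (rknq3.enc h1 h2 h3))⟩

noncomputable def ndF0q0 : Node := ⟨idf, c1g, kf0q0, l0q0⟩
noncomputable def ndF0q1 : Node := ⟨idf, c1g, kf0q1, l0q1⟩
noncomputable def ndF0q2 : Node := ⟨yag, idf, kfc02, lc02⟩
noncomputable def ndF1q0 : Node := ⟨idf, cv1m, kf1q0, l1q0⟩
noncomputable def ndF1q1 : Node := ⟨idf, cv1m, kf1q1, l1q1⟩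
noncomputable def ndF1q2a : Node := ⟨yag, xc12a, kfc12a, lc12a⟩
noncomputable def ndF1q2b : Node := ⟨idf, xc12b, kfc12b, lc12b⟩
noncomputable def ndF1q3 : Node := ⟨idf, cv1r, kf1q3, l1q3⟩
noncomputable def ndF2q0 : Node := ⟨idf, cv2m, kf2q0, l2q0⟩
noncomputable def ndF2q1 : Node := ⟨idf, cv2m, kf2q1, l2q1⟩
noncomputable def ndF2q2a : Node := ⟨yag, xc22a, kfc22a, lc22a⟩
noncomputable def ndF2q2b : Node := ⟨idf, xc22b, kfc22b, lc22b⟩
noncomputable def ndF2q3 : Node := ⟨idf, cv2r, kf2q3, l2q3⟩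
noncomputable def ndF3q0 : Node := ⟨idf, cv3m, kf3q0, l3q0⟩
noncomputable def ndF3q1 : Node := ⟨idf, cv3m, kf3q1, l3q1⟩
noncomputable def ndF3q2 : Node := ⟨idf, cv3p, kf3q2, l3q2⟩
noncomputable def ndF3q3 : Node := ⟨ycg, xc33, kfc33, lc33⟩
noncomputable def ndF4q0 : Node := ⟨idf, c3g, kf4q0, l4q0⟩
noncomputable def ndF4q1 : Node := ⟨idf, c3g, kf4q1, l4q1⟩
noncomputable def ndF4q2 : Node := ⟨idf, c3g, kf4q2, l4q2⟩
noncomputable def ndF4q3 : Node := ⟨ycg, idf, kfc43, lc43⟩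
noncomputable def pcF0 : Piece := ⟨rsfq0, rlq0⟩
noncomputable def pcF1 : Piece := ⟨rsfq1, rlq1⟩
noncomputable def pcF2 : Piece := ⟨rsfq2, rlq2⟩
noncomputable def pcF3 : Piece := ⟨rsfq3, rlq3⟩
noncomputable def ndN0q0 : Node := ⟨idf, c1g, kn0q0, l0q0⟩
noncomputable def ndN0q1 : Node := ⟨idf, c1g, kn0q1, l0q1⟩
noncomputable def ndN0q2 : Node := ⟨yag, idf, knc02, lc02⟩
noncomputable def ndN1q0 : Node := ⟨idf, cv1m, kn1q0, l1q0⟩
noncomputable def ndN1q1 : Node := ⟨idf, cv1m, kn1q1, l1q1⟩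
noncomputable def ndN1q2a : Node := ⟨yag, xc12a, knc12a, lc12a⟩
noncomputable def ndN1q2b : Node := ⟨idf, xc12b, knc12b, lc12b⟩
noncomputable def ndN1q3 : Node := ⟨idf, cv1r, kn1q3, l1q3⟩
noncomputable def ndN2q0 : Node := ⟨idf, cv2m, kn2q0, l2q0⟩
noncomputable def ndN2q1 : Node := ⟨idf, cv2m, kn2q1, l2q1⟩
noncomputable def ndN2q2a : Node := ⟨yag, xc22a, knc22a, lc22a⟩
noncomputable def ndN2q2b : Node := ⟨idf, xc22b, knc22b, lc22b⟩
noncomputable def ndN2q3 : Node := ⟨idf, cv2r, kn2q3, l2q3⟩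
noncomputable def ndN3q0 : Node := ⟨idf, cv3m, kn3q0, l3q0⟩
noncomputable def ndN3q1 : Node := ⟨idf, cv3m, kn3q1, l3q1⟩
noncomputable def ndN3q2 : Node := ⟨idf, cv3p, kn3q2, l3q2⟩
noncomputable def ndN3q3 : Node := ⟨ycg, xc33, knc33, lc33⟩
noncomputable def ndN4q0 : Node := ⟨idf, c3g, kn4q0, l4q0⟩
noncomputable def ndN4q1 : Node := ⟨idf, c3g, kn4q1, l4q1⟩
noncomputable def ndN4q2 : Node := ⟨idf, c3g, kn4q2, l4q2⟩
noncomputable def ndN4q3 : Node := ⟨ycg, idf, knc43, lc43⟩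
noncomputable def pcN0 : Piece := ⟨rsnq0, rlq0⟩
noncomputable def pcN1 : Piece := ⟨rsnq1, rlq1⟩
noncomputable def pcN2 : Piece := ⟨rsnq2, rlq2⟩
noncomputable def pcN3 : Piece := ⟨rsnq3, rlq3⟩
noncomputable def ndF1q2 : Node := ⟨idf, cv1p, kf1q2, l1q2⟩
noncomputable def ndF2q2 : Node := ⟨idf, cv2p, kf2q2, l2q2⟩
noncomputable def ndN1q2 : Node := ⟨idf, cv1p, kn1q2, l1q2⟩
noncomputable def ndN2q2 : Node := ⟨idf, cv2p, kn2q2, l2q2⟩
end Pool.Agent.Strip051.G.I3_64_1_16.Tab
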