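import Pool.Agent.Strip051.G.I3_64_1_16.MolD

/-! # The tight charts of a table: certificates (generated) -/

set_option linter.all false
set_option maxRecDepth 100000

namespace Pool.Agent.Strip051.G.I3_64_1_16.Tab.Mo

open Pool.Agent.Strip051.PB Pool.Agent.Strip051.PB.Mol Pool.Agent.Strip051.PB.T
open Pool.Agent.Strip051.G.I3_64_1_16.Tab

noncomputable def f0Ap : ℕ → ℕ → ℕ → ℕ → Bool :=
  onCell 0 50331648 0 8388608 50331648 16777216 (c0_Ap.row false 25165824)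

def h0_0Ap : ∃ t, chk3 f0Ap t 1 1 1 = true :=
  ⟨(a (a (b (c (l 16) (l 16)) (c (a (l 16) (l 16)) (l 16))) (c (a (b (l 16) (a (l 16) (c (l 22) (l 22)))) (b (c (a (b (l 16) (l 22)) (b (a (b (l 16) (l 22)) (l 20)) (l 20))) (a (b (l 16) (l 22)) (b (a (b (l 16) (l 20)) (l 20)) (l 20)))) (a (b (l 22) (l 22)) (l 12)))) (a (b (l 16) (a (l 16) (l 22))) (b (c (a (b (l 16) (l 22)) (b (l 20) (l 20))) (a (b (l 16) (l 22)) (l 20))) (a (b (l 22) (l 22)) (l 12)))))) (a (a (c (b (l 20) (l 12)) (l 20)) (l 12)) (l 12))), by decide +kernel⟩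

theorem ct_0Ap : ∃ t, chk3 f0Ap t 1 1 1 = true := h0_0Ap

noncomputable def f0Apk1 : ℕ → ℕ → ℕ → ℕ → Bool :=
  onCell 0 67108864 0 16777216 50331648 16777216 (c0_Apk1.row false 33554432)

def h0_0Apk1 : ∃ t, chk3 f0Apk1 t 1 1 1 = true :=
  ⟨(b (a (a (b (c (a (a (l 16) (l 16)) (l 16)) (l 16)) (c (a (l 16) (l 16)) (l 16))) (a (b (l 16) (a (l 16) (c (c (l 16) (l 16)) (l 16)))) (c (b (a (c (l 16) (l 16)) (c (b (a (l 16) (l 20)) (a (l 22) (l 20))) (a (b (l 16) (l 22)) (l 20)))) (a (b (l 22) (l 22)) (b (a (l 22) (l 12)) (l 12)))) (b (a (l 16) (a (b (l 16) (l 22)) (l 20))) (a (b (l 22) (l 22)) (l 20)))))) (a (a (b (c (l 20) (l 20)) (l 12)) (l 12)) (l 12))) (a (a (a (c (a (l 80) (l 80)) (l 80)) (b (l 16) (a (l 16) (c (a (l 16) (l 22)) (l 22))))) (a (c (b (a (a (l 16) (l 22)) (b (l 22) (l 22))) (a (c (l 22) (l 22)) (b (l 22) (l 14)))) (b (a (l 22)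 (l 22)) (a (l 22) (c (l 22) (l 22))))) (c (a (b (b (l 22) (l 14)) (c (l 14) (l 12))) (l 12)) (a (b (a (l 22) (l 12)) (l 12)) (l 12))))) (a (a (l 12) (l 12)) (l 12)))), by decide +kernel⟩

theorem ct_0Apk1 : ∃ t, chk3 f0Apk1 t 1 1 1 = true := h0_0Apk1

noncomputable def f0Apk2 : ℕ → ℕ → ℕ → ℕ → Bool :=
  onCell 0 67108864 0 16777216 50331648 16777216 (c0_Apk2.row false 33554432)

def h0_0Apk2 : ∃ t, chk3 f0Apk2 t 1 1 1 = true :=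
  ⟨(a (b (a (c (a (a (l 16) (l 16)) (l 16)) (l 16)) (a (b (l 16) (a (l 16) (c (c (l 16) (l 16)) (l 16)))) (c (b (a (c (l 16) (l 16)) (c (b (a (l 16) (b (a (l 16) (l 20)) (l 20))) (a (l 22) (l 20))) (b (a (l 16) (c (l 20) (l 20))) (a (l 22) (l 20))))) (a (c (b (l 22) (l 22)) (b (l 22) (l 22))) (b (a (l 22) (l 12)) (l 12)))) (b (a (l 16) (c (a (b (l 16) (l 22)) (l 20)) (a (b (l 16) (l 22)) (l 20)))) (a (b (l 22) (l 22)) (c (a (l 20) (l 12)) (l 20))))))) (a (a (c (l 16) (l 16)) (b (l 16) (a (l 16) (c (c (l 16) (l 16)) (l 16))))) (a (c (b (a (c (l 16) (l 16)) (b (l 22) (l 22))) (a (b (l 22) (l 22)) (b (c (l 22) (l 22)) (l 14)))) (b (a (l 16) (c (l 22) (l 22))) (a (l 22) (a (l 22) (l 14))))) (c (a (b (b (c (l 22) (l 22)) (l 14)) (c (l 14) (l 14))) (l 12)) (a (b (b (l 22) (l 14)) (l 14)) (l 12)))))) (a (a (b (b (a (l 20) (l 12)) (l 12)) (l 12)) (l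 12)) (l 12))), by decide +kernel⟩

theorem ct_0Apk2 : ∃ t, chk3 f0Apk2 t 1 1 1 = true := h0_0Apk2

noncomputable def f0Am : ℕ → ℕ → ℕ → ℕ → Bool :=
  onCell 0 50331648 0 8388608 50331648 16777216 (c0_Am.row true 25165824)

def h0_0Am : ∃ t, chk3 f0Am t 8 4 4 = true :=
  ⟨(a (b (c (a (c (a (b (l 24) (c (l 16) (l 16))) (b (l 16) (l 24))) (a (b (l 16) (l 24)) (b (l 16) (l 16)))) (c (a (b (l 16) (l 16)) (b (l 16) (l 16))) (a (b (l 16) (l 16)) (b (l 16) (l 16))))) (a (c (a (b (l 16) (l 16)) (b (l 16) (l 16))) (a (b (l 16) (l 16)) (b (l 16) (l 16)))) (c (a (b (l 16) (l 16)) (l 16)) (a (l 16) (l 16))))) (c (a (a (l 3) (c (b (c (l 16) (l 16)) (c (l 16) (l 16))) (b (l 24) (l 24)))) (c (a (b (l 24) (c (l 16) (l 16))) (b (l 16) (l 16))) (a (b (l 16) (l 16)) (b (l 16) (l 16))))) (a (a (l 3) (c (b (l 16) (l 16)) (b (l 16) (l 16)))) (c (a (b (l 16) (l 16))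 (b (l 16) (l 16))) (a (b (l 16) (l 16)) (b (l 16) (l 16))))))) (b (c (a (c (a (b (l 16) (l 16)) (l 16)) (a (l 16) (l 16))) (c (a (l 16) (l 16)) (a (l 16) (l 16)))) (a (c (a (l 16) (l 16)) (a (l 16) (l 16))) (c (a (l 16) (l 16)) (l 16)))) (c (a (c (a (b (l 16) (l 16)) (b (l 16) (l 16))) (a (b (l 16) (l 16)) (l 16))) (c (a (l 16) (l 16)) (a (l 16) (l 16)))) (a (c (a (l 16) (l 16)) (a (l 16) (l 16))) (c (a (l 16) (l 16)) (a (l 16) (l 16))))))), by decide +kernel⟩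

def h1_0Am : ∃ t, chk3 f0Am t 8 4 5 = true :=
  ⟨(a (b (c (a (c (a (b (l 16) (l 16)) (l 16)) (a (l 16) (l 16))) (c (a (l 16) (l 16)) (a (l 16) (l 16)))) (a (c (a (l 16) (l 16)) (a (l 16) (l 16))) (c (a (l 16) (l 16)) (l 16)))) (c (a (a (l 3) (c (b (l 16) (l 16)) (b (l 16) (l 16)))) (c (a (b (l 16) (l 16)) (l 16)) (a (l 16) (l 16)))) (a (a (l 3) (c (l 16) (l 16))) (c (a (l 16) (l 16)) (a (l 16) (l 16)))))) (c (b (a (c (a (l 16) (l 16)) (l 16)) (c (l 16) (l 16))) (a (c (a (l 16) (l 16)) (a (l 16) (l 16))) (c (l 16) (l 16)))) (b (a (c (l 16) (l 16)) (c (l 16) (l 16))) (a (c (l 16) (l 16)) (c (l 16) (l 16)))))), by decide +kernel⟩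

def h2_0Am : ∃ t, chk3 f0Am t 8 5 4 = true :=
  ⟨(a (a (l 3) (c (b (c (a (b (c (l 16) (l 16)) (l 3)) (b (l 24) (c (l 16) (l 16)))) (a (b (l 24) (l 3)) (b (l 16) (l 24)))) (a (l 3) (b (a (l 3) (c (l 16) (l 16))) (l 3)))) (b (c (a (b (l 16) (l 3)) (b (l 16) (l 16))) (a (b (l 16) (l 3)) (b (l 16) (l 16)))) (a (l 3) (b (c (l 24) (l 16)) (l 3)))))) (c (b (a (c (a (b (l 16) (l 24)) (b (l 16) (l 16))) (a (b (l 16) (l 16)) (b (l 16) (l 16)))) (c (a (b (l 16) (l 16)) (b (l 16) (l 16))) (a (b (l 16) (l 16)) (l 16)))) (a (c (a (b (c (l 16) (l 16)) (c (l 16) (l 16))) (b (l 24) (c (l 16) (l 16)))) (a (b (l 24) (l 24)) (b (l 16) (l 16)))) (c (a (b (l 16) (l 16)) (b (l 16) (l 16))) (a (b (l 16) (l 16)) (b (l 16) (l 16)))))) (b (a (c (a (b (l 16) (l 16)) (b (l 16) (l 16))) (a (b (l 16) (l 16)) (l 16))) (c (a (l 16) (l 16)) (a (l 16) (l 16)))) (a (c (a (b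 (l 16) (l 16)) (b (l 16) (l 16))) (a (b (l 16) (l 16)) (b (l 16) (l 16)))) (c (a (b (l 16) (l 16)) (l 16)) (a (l 16) (l 16))))))), by decide +kernel⟩

def h3_0Am : ∃ t, chk3 f0Am t 8 5 5 = true :=
  ⟨(a (a (l 3) (c (b (c (a (b (l 16) (l 3)) (b (l 16) (l 16))) (a (b (l 16) (l 3)) (l 16))) (a (l 3) (b (c (l 16) (l 16)) (l 3)))) (b (c (a (l 16) (l 16)) (a (l 16) (l 16))) (a (l 3) (c (l 16) (l 16)))))) (c (a (b (c (a (l 16) (l 16)) (a (l 16) (l 16))) (c (a (b (l 16) (l 16)) (l 16)) (a (l 16) (l 16)))) (b (c (a (l 16) (l 16)) (a (l 16) (l 16))) (c (a (l 16) (l 16)) (a (l 16) (l 16))))) (a (b (c (a (l 16) (l 16)) (a (l 16) (l 16))) (c (a (l 16) (l 16)) (a (l 16) (l 16)))) (b (c (l 16) (l 16)) (c (a (l 16) (l 16)) (l 16)))))), by decide +kernel⟩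

def h4_0Am : ∃ t, chk3 f0Am t 9 4 2 = true :=
  ⟨(c (a (c (b (a (c (l 16) (l 16)) (c (l 16) (l 16))) (a (c (a (l 16) (l 16)) (a (l 16) (l 16))) (c (l 16) (l 16)))) (b (a (c (l 16) (l 16)) (l 16)) (a (c (l 16) (l 16)) (c (l 16) (l 16))))) (c (a (b (l 16) (c (l 16) (l 16))) (b (l 16) (l 16))) (a (b (l 16) (l 16)) (b (l 16) (l 16))))) (a (c (a (b (c (l 16) (l 16)) (c (l 16) (l 16))) (b (l 16) (l 16))) (a (b (l 16) (l 16)) (b (l 16) (l 16)))) (c (a (b (l 16) (l 16)) (l 16)) (a (b (l 16) (l 16)) (l 16))))), by decide +kernel⟩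

def h5_0Am : ∃ t, chk3 f0Am t 9 5 2 = true :=
  ⟨(c (a (c (a (b (c (a (l 16) (l 16)) (a (l 16) (l 16))) (c (a (b (l 16) (l 16)) (l 16)) (a (l 16) (l 16)))) (b (c (a (l 16) (l 16)) (l 16)) (c (a (l 16) (l 16)) (a (l 16) (l 16))))) (a (b (c (a (l 16) (l 16)) (l 16)) (c (a (l 16) (l 16)) (a (l 16) (l 16)))) (b (c (l 16) (l 16)) (c (a (l 16) (l 16)) (l 16))))) (c (a (b (c (l 16) (l 16)) (c (a (l 16) (l 16)) (l 16))) (b (c (l 16) (l 16)) (c (l 16) (l 16)))) (a (b (c (l 16) (l 16)) (c (l 16) (l 16))) (b (l 16) (c (l 16) (l 16)))))) (a (c (a (b (c (l 16) (l 16)) (c (a (l 16) (l 16)) (l 16))) (b (c (l 16) (l 16)) (c (l 16) (l 16)))) (a (b (c (l 16) (l 16)) (c (l 16) (l 16))) (b (l 16) (c (l 16) (l 16))))) (c (a (b (l 16) (c (l 16) (l 16))) (b (l 16) (l 16))) (a (b (l 16) (l 16)) (b (l 16) (l 16)))))), by decide +kernel⟩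

def h6_0Am : ∃ t, chk3 f0Am t 16 3 2 = true :=
  ⟨(l 3), by decide +kernel⟩

def h7_0Am : ∃ t, chk3 f0Am t 17 3 4 = true :=
  ⟨(b (c (b (a (a (l 3) (c (b (c (l 16) (l 16)) (c (l 16) (l 16))) (b (l 24) (c (l 16) (l 16))))) (c (a (b (l 24) (c (l 16) (l 16))) (b (l 16) (l 24))) (a (b (l 16) (l 24)) (b (l 16) (l 16))))) (a (l 3) (c (a (b (c (l 16) (l 16)) (l 3)) (b (c (l 16) (l 16)) (c (l 16) (l 16)))) (a (b (c (l 16) (l 16)) (l 3)) (b (l 24) (c (l 16) (l 16))))))) (a (b (a (l 3) (c (b (l 16) (l 24)) (b (l 16) (l 16)))) (l 3)) (b (c (a (b (l 16) (l 16)) (b (l 16) (l 16))) (a (b (l 16) (l 16)) (b (l 16) (l 16)))) (c (a (b (l 16) (l 3)) (b (l 16) (l 16))) (a (b (l 16) (l 3)) (b (l 16) (l 16))))))) (b (a (l 3) (a (l 3) (b (a (l 3) (b (a (l 3) (c (c (l 16) (l 16)) (l 24))) (l 3))) (l 3)))) (l 3))), by decide +kernel⟩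

def h8_0Am : ∃ t, chk3 f0Am t 17 3 5 = true :=
  ⟨(b (c (a (b (a (l 3) (c (b (l 16) (l 16)) (b (l 16) (l 16)))) (l 3)) (b (c (a (b (l 16) (l 16)) (l 16)) (a (l 16) (l 16))) (c (a (b (l 16) (l 3)) (b (l 16) (l 16))) (a (b (l 16) (l 3)) (l 16))))) (a (b (a (l 3) (c (l 16) (l 16))) (l 3)) (b (c (a (l 16) (l 16)) (a (l 16) (l 16))) (c (a (l 16) (l 16)) (a (l 16) (l 16)))))) (b (a (l 3) (a (l 3) (b (a (l 3) (c (c (l 16) (l 16)) (l 16))) (l 3)))) (l 3))), by decide +kernel⟩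

def h9_0Am : ∃ t, chk3 f0Am t 9 6 4 = true :=
  ⟨(a (c (a (b (c (a (b (l 16) (l 16)) (b (l 16) (l 16))) (a (b (l 16) (l 16)) (b (l 16) (l 16)))) (c (a (b (l 24) (c (l 16) (l 16))) (b (l 16) (l 16))) (a (b (l 16) (l 16)) (b (l 16) (l 16))))) (b (c (a (b (l 16) (l 16)) (l 16)) (a (l 16) (l 16))) (c (a (b (l 16) (l 16)) (b (l 16) (l 16))) (a (b (l 16) (l 16)) (l 16))))) (a (b (c (a (b (l 16) (l 16)) (l 16)) (a (l 16) (l 16))) (c (a (b (l 16) (l 16)) (b (l 16) (l 16))) (a (b (l 16) (l 16)) (l 16)))) (b (c (a (l 16) (l 16)) (a (l 16) (l 16))) (c (a (l 16) (l 16)) (a (l 16) (l 16)))))) (c (a (b (c (a (l 16) (l 16)) (a (l 16) (l 16))) (c (a (l 16) (l 16)) (a (l 16) (l 16)))) (b (c (l 16) (l 16)) (c (a (l 16) (l 16)) (a (l 16) (l 16))))) (a (b (c (l 16) (l 16)) (c (a (l 16) (l 16)) (a (l 16) (l 16)))) (b (c (l 16) (l 16)) (c (l 16) (l 16)))))), by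 decide +kernel⟩

def h10_0Am : ∃ t, chk3 f0Am t 18 7 4 = true :=
  ⟨(c (a (b (c (a (b (c (l 16) (l 16)) (c (l 16) (l 16))) (b (l 24) (c (l 16) (l 16)))) (a (b (l 24) (c (l 16) (l 16))) (b (l 16) (l 24)))) (a (l 3) (c (b (c (l 16) (l 16)) (c (l 16) (l 16))) (b (c (l 16) (l 16)) (c (l 16) (l 16)))))) (b (c (a (b (l 16) (l 24)) (b (l 16) (l 16))) (a (b (l 16) (l 16)) (b (l 16) (l 16)))) (c (a (b (c (l 16) (l 16)) (c (l 16) (l 16))) (b (l 24) (c (l 16) (l 16)))) (a (b (l 24) (c (l 16) (l 16))) (b (l 16) (l 16)))))) (a (b (c (a (b (l 16) (l 24)) (b (l 16) (l 16))) (a (b (l 16) (l 16)) (b (l 16) (l 16)))) (a (l 3) (c (b (l 16) (l 24)) (b (l 16) (l 16))))) (b (c (a (b (l 16) (l 16)) (b (l 16) (l 16))) (a (b (l 16) (l 16)) (l 16))) (c (a (b (l 16) (l 16)) (b (l 16) (l 16))) (a (b (l 16) (l 16)) (b (l 16) (l 16))))))), by decide +kernel⟩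

def h11_0Am : ∃ t, chk3 f0Am t 19 7 4 = true :=
  ⟨(c (a (b (c (a (b (l 16) (l 16)) (b (l 16) (l 16))) (a (b (l 16) (l 16)) (l 16))) (c (a (b (l 16) (l 16)) (b (l 16) (l 16))) (a (b (l 16) (l 16)) (b (l 16) (l 16))))) (b (c (a (l 16) (l 16)) (a (l 16) (l 16))) (c (a (b (l 16) (l 16)) (l 16)) (a (l 16) (l 16))))) (a (b (c (a (l 16) (l 16)) (a (l 16) (l 16))) (c (a (b (l 16) (l 16)) (l 16)) (a (l 16) (l 16)))) (b (c (a (l 16) (l 16)) (l 16)) (c (a (l 16) (l 16)) (a (l 16) (l 16)))))), by decide +kernel⟩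

def h12_0Am : ∃ t, chk3 f0Am t 9 3 5 = true :=
  ⟨(b (a (c (a (b (c (a (l 16) (l 16)) (a (l 16) (l 16))) (c (a (l 16) (l 16)) (a (l 16) (l 16)))) (b (c (l 16) (l 16)) (c (a (l 16) (l 16)) (a (l 16) (l 16))))) (a (b (c (l 16) (l 16)) (c (a (l 16) (l 16)) (a (l 16) (l 16)))) (b (c (l 16) (l 16)) (c (l 16) (l 16))))) (c (a (b (c (l 16) (l 16)) (c (l 16) (l 16))) (b (c (l 16) (l 16)) (c (l 16) (l 16)))) (a (b (c (l 16) (l 16)) (c (l 16) (l 16))) (b (l 16) (l 16))))) (a (c (a (b (c (a (b (l 16) (l 16)) (l 24)) (a (l 24) (l 16))) (a (l 3) (c (b (l 16) (l 16)) (b (l 16) (l 16))))) (b (c (a (l 16) (l 16)) (a (l 16) (l 16))) (c (a (b (l 16) (l 16)) (l 16)) (a (l 16) (l 16))))) (a (b (c (a (l 16) (l 16)) (a (l 16) (l 16))) (a (l 3) (c (l 16) (l 16)))) (b (c (a (l 16) (l 16)) (l 16)) (c (a (l 16) (l 16)) (a (l 16) (l 16)))))) (c (a (b (c (a (l 16) (l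 16)) (l 16)) (c (a (l 16) (l 16)) (a (l 16) (l 16)))) (b (c (l 16) (l 16)) (c (a (l 16) (l 16)) (l 16)))) (a (b (c (l 16) (l 16)) (c (a (l 16) (l 16)) (l 16))) (b (c (l 16) (l 16)) (c (l 16) (l 16))))))), by decide +kernel⟩

def h13_0Am : ∃ t, chk3 f0Am t 8 2 3 = true :=
  ⟨(b (c (a (c (b (a (c (a (l 16) (l 16)) (l 16)) (c (l 16) (l 16))) (a (a (l 3) (c (l 16) (l 16))) (c (l 16) (l 16)))) (b (a (c (l 16) (l 16)) (c (l 16) (l 16))) (a (c (l 16) (l 16)) (c (l 16) (l 16))))) (c (a (b (c (l 16) (l 16)) (c (l 16) (l 16))) (b (l 16) (l 16))) (a (b (l 16) (c (l 16) (l 16))) (b (l 16) (l 16))))) (a (c (a (b (c (l 16) (l 16)) (c (l 16) (l 16))) (b (l 16) (c (l 16) (l 16)))) (a (b (l 16) (c (l 16) (l 16))) (b (l 16) (l 16)))) (c (a (b (l 16) (l 16)) (b (l 16) (l 16))) (a (b (l 16) (l 16)) (l 16))))) (c (a (a (l 3) (c (b (c (a (l 16) (l 16)) (a (l 16)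 (l 16))) (a (l 3) (c (l 16) (l 16)))) (b (c (l 16) (l 16)) (c (a (l 3) (l 16)) (l 16))))) (c (a (b (c (l 16) (l 16)) (c (a (l 16) (l 16)) (l 16))) (b (c (l 16) (l 16)) (c (l 16) (l 16)))) (a (b (c (l 16) (l 16)) (c (l 16) (l 16))) (b (l 16) (c (l 16) (l 16)))))) (a (a (l 3) (c (b (c (l 16) (l 16)) (c (l 16) (l 16))) (b (l 16) (c (l 16) (l 16))))) (c (a (b (l 16) (c (l 16) (l 16))) (b (l 16) (l 16))) (a (b (l 16) (l 16)) (b (l 16) (l 16))))))), by decide +kernel⟩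

def h14_0Am : ∃ t, chk3 f0Am t 9 2 3 = true :=
  ⟨(b (c (a (c (a (b (l 16) (l 16)) (b (l 16) (l 16))) (a (b (l 16) (l 16)) (l 16))) (c (a (l 16) (l 16)) (a (l 16) (l 16)))) (a (c (a (l 16) (l 16)) (a (l 16) (l 16))) (c (a (l 16) (l 16)) (l 16)))) (c (a (c (a (b (l 16) (c (l 16) (l 16))) (b (l 16) (l 16))) (a (b (l 16) (l 16)) (b (l 16) (l 16)))) (c (a (b (l 16) (l 16)) (l 16)) (a (l 16) (l 16)))) (a (c (a (b (l 16) (l 16)) (l 16)) (a (l 16) (l 16))) (c (a (l 16) (l 16)) (a (l 16) (l 16)))))), by decide +kernel⟩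

def h15_0Am : ∃ t, chk3 f0Am t 8 3 3 = true :=
  ⟨(a (l 3) (c (b (c (a (b (a (l 3) (c (l 16) (l 16))) (l 3)) (b (c (l 16) (l 16)) (c (a (l 16) (l 16)) (a (l 16) (l 16))))) (a (b (c (l 16) (l 16)) (l 3)) (b (c (l 16) (l 16)) (c (l 16) (l 16))))) (a (l 3) (b (a (l 3) (b (c (l 16) (l 16)) (l 3))) (l 3)))) (b (c (a (b (c (l 16) (l 16)) (l 3)) (b (c (l 16) (l 16)) (c (l 16) (l 16)))) (a (b (c (l 16) (l 16)) (l 3)) (b (l 16) (l 16)))) (a (l 3) (b (a (l 3) (c (l 16) (l 16))) (l 3)))))), by decide +kernel⟩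

def h16_0Am : ∃ t, chk3 f0Am t 9 3 3 = true :=
  ⟨(c (b (a (c (a (b (c (l 16) (l 16)) (c (l 16) (l 16))) (b (c (l 16) (l 16)) (c (l 16) (l 16)))) (a (b (c (l 16) (l 16)) (c (l 16) (l 16))) (b (l 16) (l 16)))) (c (a (b (l 16) (l 16)) (b (l 16) (l 16))) (a (b (l 16) (l 16)) (b (l 16) (l 16))))) (a (c (a (b (c (a (l 16) (l 16)) (l 16)) (a (l 3) (c (l 16) (l 16)))) (b (c (l 16) (l 16)) (c (l 24) (l 16)))) (a (b (c (l 16) (l 16)) (c (l 16) (l 16))) (b (c (l 16) (l 16)) (c (l 16) (l 16))))) (c (a (b (c (l 16) (l 16)) (c (l 16) (l 16))) (b (l 16) (c (l 16) (l 16)))) (a (b (l 16) (c (l 16) (l 16))) (b (l 16) (l 16)))))) (b (a (c (a (b (l 16) (l 16)) (b (l 16) (l 16))) (a (b (l 16) (l 16)) (b (l 16) (l 16)))) (c (a (b (l 16) (l 16)) (l 16)) (a (l 16) (l 16)))) (a (c (a (b (c (l 16) (l 16)) (c (l 16) (l 16))) (b (l 16) (c (l 16) (l 16)))) (a (b (l 16)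 (c (l 16) (l 16))) (b (l 16) (l 16)))) (c (a (b (l 16) (l 16)) (b (l 16) (l 16))) (a (b (l 16) (l 16)) (l 16)))))), by decide +kernel⟩

def h17_0Am : ∃ t, chk3 f0Am t 5 2 2 = true :=
  ⟨(a (b (c (a (c (a (b (l 16) (l 16)) (l 16)) (a (l 16) (l 16))) (c (a (l 16) (l 16)) (a (l 16) (l 16)))) (a (c (a (l 16) (l 16)) (a (l 16) (l 16))) (c (l 16) (l 16)))) (c (a (c (a (b (l 16) (c (l 16) (l 16))) (b (l 16) (l 16))) (a (b (l 16) (l 16)) (b (l 16) (l 16)))) (c (a (b (l 16) (l 16)) (l 16)) (a (l 16) (l 16)))) (a (c (a (b (l 16) (l 16)) (l 16)) (a (l 16) (l 16))) (c (a (l 16) (l 16)) (a (l 16) (l 16)))))) (c (b (a (c (l 16) (l 16)) (a (l 16) (l 20))) (a (c (a (l 16) (l 16)) (l 16)) (a (l 16) (c (l 16) (l 16))))) (a (b (l 16) (c (l 16) (l 16))) (b (a (l 16) (l 20)) (a (l 16) (l 16)))))), by decide +kernel⟩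

def h18_0Am : ∃ t, chk3 f0Am t 10 3 2 = true :=
  ⟨(c (b (a (c (a (b (c (l 16) (l 16)) (c (l 16) (l 16))) (b (l 16) (c (l 16) (l 16)))) (a (b (l 16) (c (l 16) (l 16))) (b (l 16) (l 16)))) (c (a (b (l 16) (l 16)) (b (l 16) (l 16))) (a (b (l 16) (l 16)) (l 16)))) (a (c (a (b (c (a (l 16) (l 16)) (l 16)) (c (a (l 16) (l 16)) (a (l 16) (l 16)))) (b (c (l 16) (l 16)) (c (a (l 16) (l 16)) (l 16)))) (a (b (c (l 16) (l 16)) (c (a (l 16) (l 16)) (l 16))) (b (c (l 16) (l 16)) (c (l 16) (l 16))))) (c (a (b (c (l 16) (l 16)) (c (l 16) (l 16))) (b (l 16) (c (l 16) (l 16)))) (a (b (l 16) (c (l 16) (l 16))) (b (l 16) (l 16)))))) (a (b (c (a (b (l 16) (l 16)) (b (l 16) (l 16))) (a (b (l 16) (l 16)) (b (l 16) (l 16)))) (c (a (b (c (l 16) (l 16)) (c (l 16) (l 16))) (b (l 16) (c (l 16) (l 16)))) (a (b (l 16) (c (l 16) (l 16))) (b (l 16) (l 16))))) (b (c (a (l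 16) (l 16)) (a (l 16) (l 16))) (c (a (b (l 16) (l 16)) (b (l 16) (l 16))) (a (b (l 16) (l 16)) (l 16)))))), by decide +kernel⟩

def h19_0Am : ∃ t, chk3 f0Am t 11 3 2 = true :=
  ⟨(c (a (b (c (a (l 16) (l 16)) (a (l 16) (l 16))) (c (a (b (l 16) (l 16)) (b (l 16) (l 16))) (a (b (l 16) (l 16)) (l 16)))) (b (c (a (l 16) (l 16)) (a (l 16) (l 16))) (c (a (l 16) (l 16)) (a (l 16) (l 16))))) (a (b (c (a (l 16) (l 16)) (l 16)) (c (a (l 16) (l 16)) (a (l 16) (l 16)))) (b (a (l 16) (l 16)) (c (a (l 16) (l 16)) (l 16))))), by decide +kernel⟩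

def h20_0Am : ∃ t, chk3 f0Am t 5 1 3 = true :=
  ⟨(b (a (b (c (a (c (l 16) (l 16)) (c (l 16) (l 16))) (a (c (l 16) (l 16)) (l 16))) (c (a (c (a (l 16) (l 16)) (a (l 16) (l 16))) (c (l 16) (l 16))) (a (c (l 16) (l 16)) (c (l 16) (l 16))))) (c (a (b (l 16) (c (l 16) (l 16))) (a (l 16) (l 20))) (a (b (l 16) (l 16)) (a (l 16) (l 20))))) (a (c (a (b (c (a (b (l 16) (l 16)) (l 16)) (a (l 16) (l 16))) (c (a (b (l 16) (l 16)) (b (l 16) (l 16))) (a (b (l 16) (l 16)) (l 16)))) (b (c (a (l 16) (l 16)) (l 16)) (c (a (l 16) (l 16)) (a (l 16) (l 16))))) (a (b (c (a (l 16) (l 16)) (a (l 16) (l 16))) (c (a (l 16) (l 16)) (a (l 16) (l 16)))) (b (c (l 16) (l 16)) (c (a (l 16) (l 16)) (l 16))))) (c (a (b (c (l 16) (l 16)) (c (a (l 16) (l 16)) (l 16))) (b (c (l 16) (l 16)) (c (l 16) (l 16)))) (a (b (c (l 16) (l 16)) (c (l 16) (l 16))) (b (l 16) (l 16)))))), by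 decide +kernel⟩

def h21_0Am : ∃ t, chk3 f0Am t 3 1 1 = true :=
  ⟨(a (b (a (c (a (c (b (a (l 20) (l 14)) (c (a (l 20) (l 14)) (a (l 20) (l 14)))) (b (a (l 20) (l 14)) (a (l 20) (c (l 14) (l 14))))) (c (b (l 14) (c (l 14) (l 14))) (a (l 14) (l 14)))) (a (c (b (a (l 20) (l 14)) (a (l 20) (l 14))) (b (a (l 20) (l 14)) (a (l 20) (l 14)))) (a (c (l 14) (l 14)) (l 14)))) (c (a (c (l 14) (l 14)) (l 14)) (a (l 14) (l 14)))) (c (a (a (c (b (c (a (l 20) (l 14)) (a (l 20) (l 14))) (c (a (b (l 20) (l 20)) (b (l 14) (l 14))) (a (b (l 20) (l 20)) (l 14)))) (b (c (a (l 20) (l 14)) (a (l 20) (l 14))) (c (a (l 20) (l 14)) (a (l 20) (l 14))))) (c (b (a (l 14) (l 14)) (a (c (l 14) (l 14)) (l 14))) (b (c (l 14) (l 14)) (a (l 14) (l 14))))) (c (a (b (l 14) (l 14)) (l 14)) (a (b (l 14) (l 14)) (l 14)))) (a (a (c (b (a (l 20) (l 14)) (c (a (l 20) (l 14)) (a (l 20)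 (l 14)))) (b (a (l 20) (l 14)) (a (l 20) (l 14)))) (c (a (b (l 14) (l 14)) (l 14)) (a (b (l 14) (l 14)) (l 14)))) (c (a (b (l 14) (l 14)) (l 14)) (a (l 14) (l 14)))))) (c (a (b (l 14) (a (l 14) (l 14))) (b (l 14) (l 14))) (a (b (l 14) (c (l 14) (l 14))) (b (l 14) (l 14))))), by decide +kernel⟩

theorem h22_0Am : ∃ t, chk3 f0Am t 5 3 2 = true := ex3_a h18_0Am h19_0Am

theorem h23_0Am : ∃ t, chk3 f0Am t 5 1 2 = true := ex3_b h17_0Am h22_0Am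

theorem h24_0Am : ∃ t, chk3 f0Am t 5 1 1 = true := ex3_c h23_0Am h20_0Am

theorem h25_0Am : ∃ t, chk3 f0Am t 4 3 3 = true := ex3_a h15_0Am h16_0Am

theorem h26_0Am : ∃ t, chk3 f0Am t 4 2 3 = true := ex3_a h13_0Am h14_0Am

theorem h27_0Am : ∃ t, chk3 f0Am t 4 1 3 = true := ex3_b h26_0Am h25_0Am

theorem h28_0Am : ∃ t, chk3 f0Am t 9 7 4 = true := ex3_a h10_0Am h11_0Am

theorem h29_0Am : ∃ t, chk3 f0Am t 9 3 4 = true := ex3_b h9_0Am h28_0Am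

theorem h30_0Am : ∃ t, chk3 f0Am t 9 3 2 = true := ex3_c h29_0Am h12_0Am

theorem h31_0Am : ∃ t, chk3 f0Am t 17 3 2 = true := ex3_c h7_0Am h8_0Am

theorem h32_0Am : ∃ t, chk3 f0Am t 8 3 2 = true := ex3_a h6_0Am h31_0Am

theorem h33_0Am : ∃ t, chk3 f0Am t 4 3 2 = true := ex3_a h32_0Am h30_0Am

theorem h34_0Am : ∃ t, chk3 f0Am t 9 2 2 = true := ex3_b h4_0Am h5_0Am

theorem h35_0Am : ∃ t, chk3 f0Am t 8 5 2 = true := ex3_c h2_0Am h3_0Am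

theorem h36_0Am : ∃ t, chk3 f0Am t 8 4 2 = true := ex3_c h0_0Am h1_0Am

theorem h37_0Am : ∃ t, chk3 f0Am t 8 2 2 = true := ex3_b h36_0Am h35_0Am

theorem h38_0Am : ∃ t, chk3 f0Am t 4 2 2 = true := ex3_a h37_0Am h34_0Am

theorem h39_0Am : ∃ t, chk3 f0Am t 4 1 2 = true := ex3_b h38_0Am h33_0Am

theorem h40_0Am : ∃ t, chk3 f0Am t 4 1 1 = true := ex3_c h39_0Am h27_0Am

theorem h41_0Am : ∃ t, chk3 f0Am t 2 1 1 = true := ex3_a h40_0Am h24_0Am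

theorem h42_0Am : ∃ t, chk3 f0Am t 1 1 1 = true := ex3_a h41_0Am h21_0Am

theorem ct_0Am : ∃ t, chk3 f0Am t 1 1 1 = true := h42_0Am

noncomputable def f0Bp : ℕ → ℕ → ℕ → ℕ → Bool :=
  onCell 0 50331648 0 8388608 50331648 16777216 (c0_Bp.row false 25165824)

def h0_0Bp : ∃ t, chk3 f0Bp t 1 1 1 = true :=
  ⟨(a (a (b (c (a (b (c (l 16) (l 16)) (c (a (l 16) (l 16)) (l 16))) (c (l 16) (l 16))) (a (c (l 16) (l 16)) (l 16))) (c (a (a (l 3) (c (l 16) (l 16))) (b (l 16) (c (l 16) (l 16)))) (a (c (l 16) (l 16)) (l 16)))) (b (c (a (l 16) (l 20)) (a (l 16) (l 20))) (c (a (l 16) (c (l 20) (l 20))) (a (l 16) (l 20))))) (a (b (c (a (l 20) (l 12)) (a (l 20) (l 12))) (c (a (l 20) (l 12)) (a (l 20) (l 12)))) (a (l 12) (l 12)))), by decide +kernel⟩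

theorem ct_0Bp : ∃ t, chk3 f0Bp t 1 1 1 = true := h0_0Bp

noncomputable def f0Bpk1 : ℕ → ℕ → ℕ → ℕ → Bool :=
  onCell 0 67108864 0 16777216 50331648 16777216 (c0_Bpk1.row false 33554432)

def h0_0Bpk1 : ∃ t, chk3 f0Bpk1 t 1 1 1 = true :=
  ⟨(a (a (b (b (a (c (b (c (a (l 16) (l 16)) (l 16)) (a (c (l 16) (l 16)) (l 16))) (a (l 16) (l 16))) (c (a (l 16) (l 16)) (l 16))) (c (a (a (b (c (a (l 3) (l 16)) (l 16)) (l 3)) (c (a (l 16) (l 16)) (l 16))) (c (a (l 16) (l 16)) (l 16))) (a (c (a (l 16) (l 16)) (l 16)) (l 16)))) (a (b (a (l 3) (b (c (c (a (l 3) (l 16)) (l 16)) (l 16)) (l 3))) (l 3)) (c (b (a (c (a (l 16) (l 16)) (l 16)) (c (l 16) (l 16))) (a (b (c (a (l 3) (l 16)) (l 16)) (l 3)) (c (a (l 80) (l 16)) (l 16)))) (b (a (l 16) (l 16)) (a (c (l 16) (l 16)) (l 16)))))) (b (a (c (a (l 16) (l 16)) (l 16)) (a (l 16) (c (l 20) (l 20)))) (a (c (b (a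 (l 16) (l 16)) (a (c (l 16) (l 16)) (l 16))) (a (l 16) (l 16))) (c (a (l 16) (l 20)) (a (l 16) (l 20)))))) (a (a (b (c (a (l 20) (l 12)) (l 20)) (c (a (l 20) (l 12)) (a (l 20) (l 12)))) (b (c (l 12) (l 12)) (c (l 12) (l 12)))) (a (b (l 12) (l 12)) (l 12)))), by decide +kernel⟩

theorem ct_0Bpk1 : ∃ t, chk3 f0Bpk1 t 1 1 1 = true := h0_0Bpk1

noncomputable def f0Bpk2 : ℕ → ℕ → ℕ → ℕ → Bool :=
  onCell 0 67108864 0 16777216 50331648 16777216 (c0_Bpk2.row false 33554432)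

def h0_0Bpk2 : ∃ t, chk3 f0Bpk2 t 1 1 1 = true :=
  ⟨(a (a (b (a (c (b (l 16) (a (l 80) (l 16))) (l 16)) (c (l 16) (l 16))) (a (b (a (l 3) (c (l 80) (l 16))) (l 3)) (c (b (l 80) (a (l 80) (l 80))) (l 80)))) (b (a (l 16) (a (l 16) (c (l 20) (l 20)))) (a (c (a (l 80) (l 80)) (l 16)) (c (a (l 16) (l 20)) (a (l 16) (l 20)))))) (a (a (b (c (a (l 20) (l 12)) (l 20)) (c (a (l 20) (l 12)) (l 20))) (c (l 12) (l 12))) (a (l 12) (l 12)))), by decide +kernel⟩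

theorem ct_0Bpk2 : ∃ t, chk3 f0Bpk2 t 1 1 1 = true := h0_0Bpk2

noncomputable def f0Bm : ℕ → ℕ → ℕ → ℕ → Bool :=
  onCell 0 50331648 0 8388608 50331648 16777216 (c0_Bm.row true 25165824)

def h0_0Bm : ∃ t, chk3 f0Bm t 16 4 4 = true :=
  ⟨(b (c (a (b (c (a (c (l 16) (l 16)) (l 16)) (a (l 16) (l 16))) (c (a (l 16) (l 16)) (a (l 16) (l 16)))) (b (c (a (l 16) (l 16)) (a (l 16) (l 16))) (c (a (l 16) (l 16)) (a (l 16) (l 16))))) (a (b (c (a (l 16) (l 16)) (a (l 16) (l 16))) (c (a (l 16) (l 16)) (a (l 16) (l 16)))) (b (c (a (l 16) (l 16)) (a (l 16) (l 16))) (c (a (l 16) (l 16)) (a (l 16) (l 16)))))) (c (a (c (b (a (l 16) (l 16)) (a (l 16) (l 16))) (b (a (l 16) (l 16)) (a (l 16) (l 16)))) (c (b (a (l 16) (l 16)) (a (l 16) (l 16))) (b (a (l 16) (l 16)) (a (l 16) (l 16))))) (a (c (b (a (l 16) (l 16)) (a (l 16) (l 16))) (a (b (l 16) (l 16)) (l 16)))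 (c (a (b (l 16) (l 16)) (l 16)) (a (l 16) (l 16)))))), by decide +kernel⟩

def h1_0Bm : ∃ t, chk3 f0Bm t 17 4 4 = true :=
  ⟨(b (c (a (b (c (a (l 16) (l 16)) (a (l 16) (l 16))) (c (a (l 16) (l 16)) (a (l 16) (l 16)))) (b (c (a (l 16) (l 16)) (l 16)) (c (a (l 16) (l 16)) (l 16)))) (a (b (c (a (l 16) (l 16)) (l 16)) (c (l 16) (l 16))) (b (c (l 16) (l 16)) (c (l 16) (l 16))))) (c (a (c (a (b (l 16) (l 16)) (l 16)) (a (l 16) (l 16))) (c (a (l 16) (l 16)) (a (l 16) (l 16)))) (a (c (a (l 16) (l 16)) (a (l 16) (l 16))) (c (a (l 16) (l 16)) (a (l 16) (l 16)))))), by decide +kernel⟩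

def h2_0Bm : ∃ t, chk3 f0Bm t 8 4 5 = true :=
  ⟨(a (b (c (a (b (c (a (l 16) (l 16)) (a (l 16) (l 16))) (c (a (l 16) (l 16)) (l 16))) (b (c (l 16) (l 16)) (c (l 16) (l 16)))) (a (b (c (l 16) (l 16)) (c (l 16) (l 16))) (b (c (l 16) (l 16)) (c (l 16) (l 16))))) (c (a (c (a (l 16) (l 16)) (a (l 16) (l 16))) (c (a (l 16) (l 16)) (a (l 16) (l 16)))) (a (c (a (l 16) (l 16)) (a (l 16) (l 16))) (c (a (l 16) (l 16)) (l 16))))) (b (c (a (b (c (l 16) (l 16)) (c (l 16) (l 16))) (c (a (l 16) (l 16)) (l 16))) (a (c (a (l 16) (l 16)) (l 16)) (c (l 16) (l 16)))) (c (a (c (a (l 16) (l 16)) (a (l 16) (l 16))) (c (a (l 16) (l 16)) (l 16))) (a (c (l 16) (l 16)) (c (l 16) (l 16)))))), by decide +kernel⟩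

def h3_0Bm : ∃ t, chk3 f0Bm t 8 5 4 = true :=
  ⟨(a (c (b (a (c (b (a (l 80) (l 80)) (a (l 80) (l 80))) (b (a (l 80) (l 80)) (a (l 80) (l 80)))) (c (a (b (l 80) (l 80)) (b (l 16) (l 80))) (a (b (l 16) (l 80)) (l 80)))) (a (c (b (a (c (l 80) (l 80)) (l 80)) (a (b (l 80) (c (l 80) (l 80))) (c (l 80) (l 80)))) (b (a (l 80) (l 80)) (a (c (l 80) (l 80)) (c (l 80) (l 80))))) (c (b (a (l 80) (l 80)) (a (c (l 80) (l 80)) (l 80))) (b (a (l 80) (l 80)) (a (l 80) (l 80)))))) (b (a (c (a (b (l 80) (l 80)) (b (l 16) (l 80))) (a (l 80) (l 80))) (c (a (l 80) (l 80)) (a (l 80) (l 80)))) (a (c (b (a (l 80) (l 80)) (a (l 80) (l 80))) (b (a (l 80) (l 80)) (a (l 80) (l 80)))) (c (b (l 80) (a (l 80) (l 80))) (b (l 80) (l 80)))))) (c (b (a (c (a (b (l 16) (l 80)) (l 80)) (a (l 80) (l 80))) (c (a (l 80) (l 80)) (a (l 80) (l 80)))) (a (c (b (a (l 80) (l 80)) (a (l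 80) (l 80))) (b (l 80) (a (l 80) (l 80)))) (c (a (b (l 80) (l 80)) (l 80)) (a (l 80) (l 80))))) (b (a (c (a (l 80) (l 80)) (a (l 80) (l 80))) (c (a (l 80) (l 80)) (a (l 16) (l 16)))) (a (c (a (l 80) (l 80)) (a (l 80) (l 80))) (c (a (l 80) (l 80)) (a (l 80) (l 80))))))), by decide +kernel⟩

def h4_0Bm : ∃ t, chk3 f0Bm t 8 5 5 = true :=
  ⟨(a (c (b (a (c (a (l 80) (l 80)) (a (l 80) (l 80))) (c (a (l 80) (l 80)) (a (l 80) (l 80)))) (a (c (b (l 80) (a (l 80) (l 80))) (a (l 80) (l 80))) (c (a (l 80) (l 80)) (a (l 80) (l 80))))) (b (a (c (a (l 80) (l 80)) (a (l 80) (l 16))) (c (a (l 16) (l 16)) (l 80))) (a (c (a (l 80) (l 80)) (a (l 80) (l 80))) (c (l 80) (l 80))))) (c (b (a (c (a (l 80) (l 16)) (l 80)) (c (l 80) (l 80))) (a (c (a (l 80) (l 80)) (l 80)) (c (l 80) (l 80)))) (b (a (c (l 80) (l 16)) (c (l 16) (l 16))) (a (c (l 80) (l 80)) (c (l 80)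 (l 80)))))), by decide +kernel⟩

def h5_0Bm : ∃ t, chk3 f0Bm t 9 4 2 = true :=
  ⟨(c (a (b (c (a (b (c (l 16) (l 16)) (c (l 16) (l 16))) (b (c (l 16) (l 16)) (c (l 16) (l 16)))) (a (b (c (l 16) (l 16)) (c (l 16) (l 16))) (c (l 16) (l 16)))) (c (a (c (a (l 16) (l 16)) (a (l 16) (l 16))) (c (a (l 16) (l 16)) (a (l 16) (l 16)))) (a (c (a (l 16) (l 16)) (l 16)) (c (l 16) (l 16))))) (b (c (a (c (a (l 16) (l 16)) (l 16)) (c (l 16) (l 16))) (a (c (l 16) (l 16)) (c (l 16) (l 16)))) (c (a (c (l 16) (l 16)) (c (l 16) (l 16))) (a (c (l 16) (l 16)) (c (l 16) (l 16)))))) (a (b (c (a (c (l 16) (l 16)) (c (l 16) (l 16))) (a (c (l 16) (l 16)) (c (l 16) (l 16)))) (c (a (c (l 16) (l 16)) (c (l 16) (l 16))) (a (c (l 16) (l 16)) (c (l 16) (l 16))))) (b (c (a (c (l 16) (l 16)) (c (l 16) (l 16))) (a (l 16) (l 16))) (c (a (c (l 16) (l 16)) (l 16)) (a (l 16) (l 16)))))),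 by decide +kernel⟩

def h6_0Bm : ∃ t, chk3 f0Bm t 9 5 2 = true :=
  ⟨(c (a (c (b (a (c (a (l 80) (l 80)) (a (l 80) (l 16))) (c (a (l 16) (l 16)) (l 80))) (a (c (a (l 80) (l 80)) (a (l 80) (l 80))) (c (a (l 80) (l 80)) (l 80)))) (b (a (c (a (l 16) (l 16)) (l 80)) (c (l 80) (l 16))) (a (c (l 80) (l 80)) (c (l 80) (l 80))))) (c (b (a (c (l 80) (l 16)) (c (l 16) (l 16))) (a (c (l 80) (l 80)) (c (l 80) (l 80)))) (b (a (c (l 16) (l 16)) (c (l 16) (l 16))) (a (c (l 80) (l 80)) (c (l 80) (l 80)))))) (a (b (c (a (c (l 16) (l 16)) (c (l 16) (l 16))) (a (c (l 16) (l 16)) (c (l 16) (l 16)))) (c (a (c (l 80) (l 80)) (c (l 80) (l 80))) (a (c (l 80) (l 80)) (l 80)))) (c (b (a (c (l 16) (l 16)) (l 16)) (a (c (l 80) (l 80)) (l 80))) (b (a (l 16) (l 16)) (a (l 80) (l 80)))))), by decide +kernel⟩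

def h7_0Bm : ∃ t, chk3 f0Bm t 8 4 3 = true :=
  ⟨(c (a (b (c (a (b (c (l 16) (l 16)) (c (l 16) (l 16))) (c (l 16) (l 16))) (a (c (l 16) (l 16)) (c (l 16) (l 16)))) (c (a (c (a (l 16) (l 16)) (l 16)) (c (l 16) (l 16))) (a (c (l 16) (l 16)) (c (l 16) (l 16))))) (b (c (a (c (l 16) (l 16)) (c (l 16) (l 16))) (a (c (l 16) (l 16)) (c (l 16) (l 16)))) (c (a (c (l 16) (l 16)) (c (l 16) (l 16))) (a (c (l 16) (l 16)) (l 16))))) (a (b (c (a (c (l 16) (l 16)) (c (l 16) (l 16))) (a (c (l 16) (l 16)) (l 16))) (c (a (c (l 16) (l 16)) (c (l 16) (l 16))) (a (c (l 16) (l 16)) (l 16)))) (b (c (a (l 16) (l 16)) (a (l 16) (l 16))) (c (a (l 16) (l 16)) (a (l 16) (l 16)))))), by decide +kernel⟩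

def h8_0Bm : ∃ t, chk3 f0Bm t 8 5 3 = true :=
  ⟨(c (a (b (c (a (c (l 80) (l 80)) (c (l 80) (l 16))) (a (c (l 16) (l 16)) (c (l 16) (l 16)))) (c (a (c (l 80) (l 80)) (c (l 80) (l 80))) (a (c (l 80) (l 80)) (c (l 80) (l 80))))) (c (b (a (c (l 16) (l 16)) (c (l 16) (l 16))) (a (c (l 80) (l 80)) (c (l 80) (l 80)))) (b (a (c (l 16) (l 16)) (l 16)) (a (c (l 80) (l 80)) (l 80))))) (a (c (b (a (c (l 16) (l 16)) (c (l 16) (l 16))) (a (c (l 80) (l 80)) (l 80))) (b (a (l 16) (l 16)) (a (l 80) (l 80)))) (c (b (a (l 16) (l 16)) (a (l 80) (l 80))) (b (a (l 16) (l 16)) (a (l 80) (l 80)))))), by decide +kernel⟩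

def h9_0Bm : ∃ t, chk3 f0Bm t 9 2 3 = true :=
  ⟨(b (c (a (b (c (a (c (l 16) (l 16)) (l 16)) (a (l 16) (l 16))) (c (a (c (l 16) (l 16)) (l 16)) (a (l 16) (l 16)))) (b (c (a (l 16) (l 16)) (a (l 16) (l 16))) (c (a (l 16) (l 16)) (a (l 16) (l 16))))) (a (b (c (a (l 16) (l 16)) (a (l 16) (l 16))) (c (a (l 16) (l 16)) (a (l 16) (l 16)))) (b (c (a (l 16) (l 16)) (a (l 16) (l 16))) (c (a (l 16) (l 16)) (a (l 16) (l 16)))))) (c (a (c (b (a (l 16) (l 16)) (a (l 80) (l 80))) (b (a (l 16) (l 16)) (a (l 80) (l 80)))) (c (b (a (l 16) (l 16)) (a (l 80) (l 80))) (b (a (l 16) (l 16)) (a (l 16) (l 16))))) (a (c (b (a (l 16) (l 16)) (a (l 80) (l 16))) (b (a (l 16) (l 16)) (a (l 16) (l 16)))) (c (a (b (l 16) (l 16)) (l 80)) (a (l 16) (l 16)))))), by decide +kernel⟩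

def h10_0Bm : ∃ t, chk3 f0Bm t 10 2 2 = true :=
  ⟨(b (c (a (b (c (a (c (l 16) (l 16)) (c (l 16) (l 16))) (a (c (l 16) (l 16)) (l 16))) (c (a (c (l 16) (l 16)) (c (l 16) (l 16))) (a (c (l 16) (l 16)) (l 16)))) (b (c (a (c (l 16) (l 16)) (l 16)) (a (l 16) (l 16))) (c (a (c (l 16) (l 16)) (l 16)) (a (l 16) (l 16))))) (a (b (c (a (l 16) (l 16)) (a (l 16) (l 16))) (c (a (l 16) (l 16)) (a (l 16) (l 16)))) (b (c (a (l 16) (l 16)) (a (l 16) (l 16))) (c (a (l 16) (l 16)) (a (l 16) (l 16)))))) (c (a (c (b (a (c (l 16) (l 16)) (c (l 16) (l 16))) (a (c (l 80) (l 80)) (c (l 80) (l 80)))) (b (a (c (l 16) (l 16)) (l 16)) (a (c (l 80) (l 80)) (l 80)))) (c (b (a (l 16) (l 16)) (a (c (l 80) (l 80)) (c (l 16) (l 16)))) (a (b (l 16) (l 80)) (b (l 16) (l 80))))) (a (c (b (a (l 16) (l 16)) (a (l 80) (l 80))) (b (a (l 16) (l 16)) (a (l 80) (l 16)))) (c (a (b (l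 16) (l 16)) (b (l 16) (l 16))) (a (b (l 16) (l 16)) (b (l 16) (l 16))))))), by decide +kernel⟩

def h11_0Bm : ∃ t, chk3 f0Bm t 11 4 4 = true :=
  ⟨(a (b (c (a (l 16) (l 16)) (a (l 16) (l 16))) (c (a (l 16) (l 16)) (a (l 16) (l 16)))) (b (c (a (l 16) (c (a (b (l 16) (a (l 16) (l 22))) (b (a (b (l 16) (l 22)) (l 20)) (a (c (l 22) (l 22)) (l 12)))) (a (b (l 16) (a (l 16) (l 22))) (a (b (b (l 16) (l 22)) (l 22)) (l 20))))) (a (l 16) (c (a (b (l 16) (a (l 16) (l 22))) (a (b (b (l 16) (l 22)) (l 22)) (l 20))) (a (b (l 16) (c (l 22) (l 22))) (a (b (b (l 16) (l 22)) (l 22)) (l 20)))))) (c (a (a (l 16) (b (l 16) (c (l 22) (l 22)))) (c (a (b (l 22) (l 22)) (b (l 12) (l 12))) (a (b (l 22) (l 22)) (b (l 12) (l 12))))) (a (a (l 16) (b (l 16) (c (l 22) (l 22)))) (c (a (b (l 22) (l 22)) (l 12)) (a (b (l 22) (l 22)) (l 12))))))), by decide +kernel⟩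

def h12_0Bm : ∃ t, chk3 f0Bm t 11 4 5 = true :=
  ⟨(a (b (c (a (l 16) (l 16)) (a (l 16) (l 16))) (c (a (l 16) (l 16)) (a (l 16) (l 16)))) (c (a (b (l 16) (a (l 16) (b (l 16) (l 22)))) (b (c (a (b (l 16) (c (l 22) (l 22))) (a (b (b (l 16) (l 22)) (l 22)) (l 20))) (a (b (l 16) (l 22)) (a (b (b (l 16) (l 22)) (l 22)) (l 20)))) (c (a (b (l 22) (l 22)) (l 12)) (a (b (l 22) (l 22)) (l 12))))) (a (b (l 16) (a (l 16) (b (l 16) (l 22)))) (b (c (a (b (l 16) (l 22)) (a (b (b (l 16) (l 22)) (l 22)) (l 20))) (a (b (l 16) (l 22)) (a (b (b (l 16) (l 22)) (l 22)) (l 20)))) (a (b (l 22) (l 22)) (l 12)))))), by decide +kernel⟩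

def h13_0Bm : ∃ t, chk3 f0Bm t 11 5 4 = true :=
  ⟨(a (c (b (a (l 16) (a (l 16) (b (l 16) (c (l 16) (l 16))))) (a (c (l 16) (l 16)) (c (a (b (l 16) (c (l 22) (l 22))) (b (l 22) (l 22))) (a (b (l 16) (l 22)) (b (l 22) (l 22)))))) (b (a (l 16) (a (l 16) (b (l 16) (l 16)))) (a (l 16) (c (a (b (l 16) (l 22)) (b (l 22) (l 22))) (a (b (l 16) (l 22)) (b (l 22) (l 22))))))) (a (c (b (c (a (b (l 22) (l 22)) (b (l 22) (l 14))) (a (b (l 22) (l 22)) (b (l 22) (l 14)))) (c (a (b (l 22) (l 14)) (b (l 14) (l 14))) (a (b (l 22) (l 14)) (b (l 14) (l 14))))) (b (c (a (b (l 22) (l 22)) (b (l 22) (l 14))) (a (b (l 22) (l 22)) (b (l 22) (l 14)))) (c (a (b (l 22) (l 14)) (b (l 14) (l 14))) (a (b (l 22) (l 14)) (b (l 14) (l 14)))))) (c (b (a (b (c (l 14) (l 14)) (l 14)) (l 12)) (a (c (l 14) (l 14)) (l 12))) (a (b (b (c (l 14) (l 14)) (l 14)) (c (l 14) (l 14))) (l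 12))))), by decide +kernel⟩

def h14_0Bm : ∃ t, chk3 f0Bm t 11 5 5 = true :=
  ⟨(a (b (c (a (l 16) (a (l 16) (b (l 16) (l 16)))) (a (l 16) (a (l 16) (b (l 16) (l 16))))) (c (a (l 16) (c (a (b (l 16) (l 22)) (b (l 22) (l 22))) (a (b (l 16) (l 22)) (b (l 22) (l 22))))) (a (l 16) (c (a (b (l 16) (l 22)) (b (l 22) (l 22))) (a (b (l 16) (l 22)) (l 22)))))) (a (c (b (c (a (b (l 22) (l 22)) (b (l 22) (l 14))) (a (b (l 22) (l 22)) (b (l 22) (l 14)))) (c (a (b (l 22) (l 14)) (b (l 14) (l 14))) (a (b (l 22) (l 14)) (b (l 14) (l 14))))) (b (c (b (a (l 22) (l 22)) (l 22)) (a (l 22) (b (l 22) (l 14)))) (c (a (b (l 22) (l 14)) (b (l 14) (l 14))) (a (b (l 22) (l 14)) (l 14))))) (c (a (b (b (l 14) (l 14)) (c (l 14) (l 14))) (l 12)) (a (b (b (l 14) (l 14)) (l 14)) (l 12))))), by decide +kernel⟩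

def h15_0Bm : ∃ t, chk3 f0Bm t 10 2 3 = true :=
  ⟨(b (c (a (b (c (a (l 16) (l 16)) (a (l 16) (l 16))) (c (a (l 16) (l 16)) (a (l 16) (l 16)))) (b (c (a (l 16) (l 16)) (l 16)) (c (a (l 16) (l 16)) (l 16)))) (a (b (c (a (l 16) (l 16)) (l 16)) (c (l 16) (l 16))) (b (c (l 16) (l 16)) (c (l 16) (l 16))))) (c (a (c (a (b (l 16) (l 16)) (b (l 16) (l 16))) (a (b (l 16) (l 16)) (l 16))) (c (a (b (l 16) (l 16)) (b (l 16) (l 16))) (a (l 16) (l 16)))) (a (c (a (l 16) (l 16)) (a (l 16) (l 16))) (c (a (l 16) (l 16)) (a (l 16) (l 16)))))), by decide +kernel⟩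

def h16_0Bm : ∃ t, chk3 f0Bm t 11 4 3 = true :=
  ⟨(a (c (b (a (l 16) (l 16)) (a (l 16) (l 16))) (b (c (l 16) (l 16)) (c (l 16) (l 16)))) (c (c (a (b (l 16) (a (l 16) (b (l 16) (l 22)))) (b (c (a (b (l 16) (l 22)) (b (a (b (l 16) (l 22)) (l 20)) (l 20))) (a (b (l 16) (l 22)) (b (a (b (l 16) (l 22)) (l 20)) (l 20)))) (a (b (l 22) (l 22)) (l 12)))) (a (b (l 16) (a (l 16) (c (l 22) (l 22)))) (b (c (a (b (l 16) (l 22)) (b (a (b (l 16) (l 22)) (l 20)) (l 20))) (a (b (l 16) (l 22)) (b (a (b (l 16) (l 20)) (l 20)) (l 20)))) (a (b (l 22) (l 22)) (l 12))))) (c (a (b (l 16) (a (l 16) (c (l 22) (l 22)))) (b (c (a (b (l 16) (l 22)) (b (a (b (l 16) (l 20)) (l 20)) (l 20))) (a (b (l 16) (l 22)) (b (a (b (l 16) (l 20)) (l 20)) (l 20)))) (a (b (l 22) (l 22)) (l 12)))) (a (b (l 16) (a (l 16) (l 22))) (b (c (a (b (l 16) (l 22)) (b (c (a (l 20) (l 20)) (l 20))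 (l 20))) (a (b (l 16) (l 22)) (b (l 20) (l 20)))) (a (c (l 22) (l 22)) (l 12))))))), by decide +kernel⟩

def h17_0Bm : ∃ t, chk3 f0Bm t 11 5 3 = true :=
  ⟨(c (a (c (a (b (l 16) (l 16)) (b (b (l 16) (l 16)) (c (a (b (l 16) (l 22)) (l 22)) (a (l 22) (l 22))))) (a (l 16) (b (b (l 16) (l 16)) (c (a (l 22) (l 22)) (a (l 22) (l 22)))))) (a (c (b (c (a (l 22) (l 22)) (a (l 22) (l 22))) (c (a (l 22) (l 14)) (a (l 22) (l 14)))) (b (c (a (l 22) (l 22)) (a (l 22) (l 22))) (c (a (l 22) (l 14)) (a (l 22) (l 14))))) (c (a (b (c (l 14) (l 14)) (l 14)) (l 12)) (a (b (c (l 14) (l 14)) (l 12)) (l 12))))) (a (c (a (l 16) (b (a (l 16) (l 16)) (c (a (l 22) (l 22)) (a (l 22) (l 22))))) (a (l 16) (b (a (l 16) (l 16)) (a (l 22) (l 22))))) (a (c (b (a (l 22) (c (l 22) (l 22))) (a (c (l 22) (l 22)) (l 14))) (b (a (l 22) (l 22)) (a (l 22) (l 14)))) (c (a (b (c (l 14)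 (l 14)) (l 12)) (l 12)) (b (a (l 14) (l 12)) (l 12)))))), by decide +kernel⟩

def h18_0Bm : ∃ t, chk3 f0Bm t 3 2 1 = true :=
  ⟨(a (c (a (b (a (c (a (b (a (c (l 20) (l 20)) (l 12)) (l 12)) (l 12)) (a (b (a (l 20) (l 12)) (l 12)) (l 12))) (c (l 12) (l 12))) (c (a (a (c (l 12) (l 12)) (l 44)) (c (l 12) (l 12))) (a (a (c (l 12) (l 12)) (l 12)) (l 44)))) (c (a (b (l 12) (l 44)) (l 46)) (a (b (l 12) (l 12)) (l 46)))) (a (a (b (c (a (b (c (l 20) (l 20)) (l 12)) (l 12)) (a (b (l 20) (l 12)) (l 12))) (c (c (l 12) (l 12)) (c (l 12) (l 12)))) (c (b (l 12) (l 12)) (b (l 12) (l 12)))) (c (a (b (l 12) (l 12)) (l 12)) (a (l 12) (l 12))))) (c (a (c (l 46) (l 46)) (l 46)) (a (c (l 46) (l 14)) (l 46)))), by decide +kernel⟩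

def h19_0Bm : ∃ t, chk3 f0Bm t 16 12 4 = true :=
  ⟨(c (a (c (b (a (c (a (l 80) (l 80)) (a (l 80) (l 80))) (c (a (l 80) (l 80)) (a (l 80) (l 80)))) (a (c (a (l 80) (l 80)) (a (l 80) (l 80))) (c (a (l 80) (l 80)) (a (l 80) (l 80))))) (b (a (c (a (l 80) (l 80)) (a (l 80) (l 80))) (b (l 80) (l 80))) (a (c (a (l 80) (l 80)) (a (l 80) (l 80))) (c (a (l 80) (l 80)) (l 80))))) (c (b (a (c (a (l 80) (l 80)) (a (l 80) (l 80))) (c (l 80) (l 80))) (a (c (a (l 80) (l 80)) (l 80)) (c (l 80) (l 80)))) (b (a (c (l 80) (l 80)) (c (l 80) (l 80))) (a (c (l 80) (l 80)) (c (l 80) (l 80)))))) (a (c (b (a (c (l 80) (l 80)) (c (l 80) (l 80))) (a (c (l 80) (l 80)) (c (l 80) (l 80)))) (b (a (c (l 80) (l 80)) (c (l 80) (l 80))) (a (c (l 80) (l 80)) (c (l 80) (l 80))))) (c (b (a (c (l 80) (l 80)) (c (l 80) (l 80))) (a (c (l 80) (l 80)) (c (l 80) (l 80)))) (b (a (l 80)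 (l 80)) (a (c (l 80) (l 80)) (c (l 80) (l 80))))))), by decide +kernel⟩

def h20_0Bm : ∃ t, chk3 f0Bm t 16 13 8 = true :=
  ⟨(a (c (b (a (c (a (l 80) (l 80)) (a (l 80) (l 80))) (c (a (l 80) (l 80)) (a (l 80) (l 80)))) (a (c (a (b (l 80) (l 80)) (b (l 80) (l 80))) (a (b (l 80) (l 80)) (l 80))) (c (a (l 80) (l 80)) (a (l 80) (l 80))))) (b (a (c (a (l 80) (l 80)) (a (l 80) (l 80))) (c (a (l 80) (l 80)) (a (l 80) (l 80)))) (a (c (a (l 80) (l 80)) (a (l 80) (l 80))) (c (a (l 80) (l 80)) (a (l 80) (l 80)))))) (c (b (a (c (a (l 80) (l 80)) (a (l 80) (l 80))) (c (a (l 80) (l 80)) (l 80))) (a (c (a (l 80) (l 80)) (a (l 80) (l 80))) (c (a (l 80) (l 80)) (a (l 80) (l 80))))) (b (a (c (a (l 80) (l 80)) (l 80)) (c (l 80) (l 80))) (a (c (a (l 80) (l 80)) (a (l 80) (l 80))) (c (a (l 80) (l 80)) (l 80)))))), by decide +kernel⟩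

def h21_0Bm : ∃ t, chk3 f0Bm t 16 13 9 = true :=
  ⟨(a (c (b (a (c (a (l 80) (l 80)) (a (l 80) (l 80))) (c (l 80) (l 80))) (a (c (a (l 80) (l 80)) (a (l 80) (l 80))) (c (a (l 80) (l 80)) (a (l 80) (l 80))))) (b (a (c (l 80) (l 80)) (c (l 80) (l 80))) (a (c (a (l 80) (l 80)) (l 80)) (c (l 80) (l 80))))) (c (b (a (c (l 80) (l 80)) (c (l 80) (l 80))) (a (c (l 80) (l 80)) (c (l 80) (l 80)))) (b (a (c (l 80) (l 80)) (c (l 80) (l 80))) (a (c (l 80) (l 80)) (c (l 80) (l 80)))))), by decide +kernel⟩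

def h22_0Bm : ∃ t, chk3 f0Bm t 17 6 4 = true :=
  ⟨(b (c (a (c (b (a (c (l 80) (l 80)) (c (l 80) (l 80))) (a (c (l 80) (l 80)) (c (l 80) (l 80)))) (b (a (c (l 80) (l 80)) (l 80)) (a (c (l 80) (l 80)) (c (l 80) (l 80))))) (c (b (a (l 80) (l 80)) (a (c (l 80) (l 80)) (c (l 80) (l 80)))) (b (a (l 80) (l 80)) (a (c (l 80) (l 80)) (c (l 80) (l 80)))))) (a (c (b (a (l 80) (l 80)) (a (c (l 80) (l 80)) (c (l 80) (l 80)))) (b (a (l 80) (l 80)) (a (c (l 80) (l 80)) (l 80)))) (c (b (l 80) (a (l 80) (l 80))) (b (l 80) (a (l 80) (l 80)))))) (c (a (c (b (a (c (l 80) (l 80)) (c (l 80) (l 80))) (a (c (a (l 80) (l 80)) (l 80)) (c (l 80) (l 80)))) (b (a (c (l 80) (l 80)) (c (l 80) (l 80))) (a (c (l 80) (l 80)) (c (l 80) (l 80))))) (c (b (a (c (l 80) (l 80)) (c (l 80) (l 80))) (a (c (l 80) (l 80)) (c (l 80) (l 80)))) (b (a (c (l 80) (l 64)) (l 80)) (a (c (l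 80) (l 80)) (c (l 80) (l 64)))))) (a (c (b (a (c (l 80) (l 80)) (c (l 80) (l 64))) (a (c (l 80) (l 80)) (c (l 80) (l 80)))) (b (a (l 80) (l 80)) (a (c (l 80) (l 80)) (c (l 64) (l 64))))) (c (b (a (l 80) (l 80)) (a (c (l 80) (l 64)) (l 80))) (b (a (l 80) (l 80)) (a (l 80) (l 80))))))), by decide +kernel⟩

def h23_0Bm : ∃ t, chk3 f0Bm t 16 6 5 = true :=
  ⟨(b (c (a (c (b (a (c (l 80) (l 80)) (l 80)) (a (c (l 80) (l 80)) (c (l 80) (l 80)))) (b (a (l 80) (l 80)) (a (c (l 80) (l 80)) (c (l 80) (l 80))))) (c (b (a (l 80) (l 80)) (a (c (l 80) (l 80)) (l 80))) (b (l 80) (a (l 80) (l 80))))) (a (c (b (a (l 80) (l 80)) (a (c (l 80) (l 80)) (l 80))) (b (l 80) (a (l 80) (l 80)))) (c (b (l 80) (a (l 80) (l 80))) (a (l 80) (l 80))))) (c (a (c (b (a (c (l 80) (l 80)) (c (l 80) (l 80))) (a (c (l 80) (l 80)) (c (l 80) (l 80)))) (b (a (c (l 80) (l 80)) (c (l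 80) (l 64))) (a (c (l 80) (l 80)) (c (l 80) (l 80))))) (c (b (a (c (l 80) (l 64)) (l 80)) (a (c (l 80) (l 80)) (c (l 80) (l 64)))) (b (a (l 80) (l 80)) (a (c (l 80) (l 64)) (l 80))))) (a (c (b (a (l 80) (l 80)) (a (c (l 80) (l 80)) (l 80))) (b (a (l 80) (l 80)) (a (l 80) (l 80)))) (c (b (a (l 80) (l 80)) (a (l 80) (l 80))) (b (a (l 80) (l 80)) (a (l 80) (l 80))))))), by decide +kernel⟩

def h24_0Bm : ∃ t, chk3 f0Bm t 17 6 5 = true :=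
  ⟨(b (c (a (c (b (l 80) (a (l 80) (l 80))) (a (b (l 80) (l 80)) (l 80))) (c (b (l 80) (l 80)) (a (l 80) (l 80)))) (a (c (a (l 80) (l 80)) (a (l 80) (l 80))) (c (a (l 80) (l 80)) (l 80)))) (c (a (c (b (a (l 80) (l 80)) (a (l 80) (l 80))) (b (a (l 80) (l 80)) (a (l 80) (l 80)))) (c (b (a (l 80) (l 80)) (a (l 80) (l 80))) (b (a (l 80) (l 80)) (a (l 80) (l 64))))) (a (c (b (a (l 80) (l 80)) (a (l 80) (l 80))) (b (a (l 80) (l 80)) (a (l 80) (l 64)))) (c (b (a (l 80) (l 80)) (a (l 64) (l 64))) (b (l 80) (a (l 64) (l 64))))))), by decide +kernel⟩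

def h25_0Bm : ∃ t, chk3 f0Bm t 16 14 8 = true :=
  ⟨(a (c (a (b (c (a (b (l 80) (l 80)) (b (l 80) (l 80))) (a (b (l 80) (l 80)) (b (l 80) (l 80)))) (c (a (b (l 80) (l 80)) (b (l 80) (l 80))) (a (b (l 80) (l 80)) (b (l 80) (l 80))))) (b (c (a (b (l 80) (l 80)) (b (l 80) (l 80))) (a (b (l 80) (l 80)) (l 80))) (c (a (b (l 80) (l 80)) (b (l 80) (l 80))) (a (b (l 80) (l 80)) (b (l 80) (l 80)))))) (a (b (c (a (b (l 80) (l 80)) (l 80)) (a (l 80) (l 80))) (c (a (b (l 80) (l 80)) (b (l 80) (l 80))) (a (b (l 80) (l 80)) (b (l 80) (l 80))))) (b (c (a (l 80) (l 80)) (a (l 80) (l 80))) (c (a (b (l 80) (l 80)) (l 80)) (a (l 80) (l 80)))))) (c (a (b (c (a (l 80) (l 80)) (a (l 80) (l 80))) (c (a (b (l 80) (l 80)) (b (l 80) (l 80))) (a (b (l 64) (l 80)) (l 80)))) (b (c (a (l 80) (l 80)) (a (l 80) (l 80))) (c (a (l 80) (l 80)) (a (l 80) (l 80))))) (a (b (c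 (a (l 80) (l 80)) (a (l 80) (l 80))) (c (a (l 80) (l 80)) (a (l 80) (l 80)))) (b (c (a (l 80) (l 80)) (a (l 80) (l 80))) (c (a (l 80) (l 80)) (a (l 80) (l 80))))))), by decide +kernel⟩

def h26_0Bm : ∃ t, chk3 f0Bm t 32 15 8 = true :=
  ⟨(c (a (b (c (a (b (l 80) (l 80)) (b (l 80) (l 80))) (a (b (l 80) (l 80)) (b (l 80) (l 80)))) (c (a (b (c (l 80) (l 80)) (c (l 80) (l 80))) (b (l 80) (c (l 80) (l 80)))) (a (b (l 80) (l 80)) (b (l 80) (l 80))))) (b (c (a (b (l 80) (l 80)) (b (l 80) (l 80))) (a (b (l 80) (l 80)) (b (l 80) (l 80)))) (c (a (b (l 80) (l 80)) (b (l 80) (l 80))) (a (b (l 80) (l 80)) (b (l 80) (l 80)))))) (a (b (c (a (b (l 80) (l 80)) (b (l 80) (l 80))) (a (b (l 80) (l 80)) (b (l 80) (l 80)))) (c (a (b (l 80) (l 80)) (b (l 80) (l 80))) (a (b (l 80) (l 80)) (b (l 80) (l 80))))) (b (c (a (b (l 80) (l 80)) (b (l 80) (l 80))) (a (b (l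 80) (l 80)) (l 80))) (c (a (b (l 80) (l 80)) (b (l 80) (l 80))) (a (b (l 80) (l 80)) (b (l 80) (l 80))))))), by decide +kernel⟩

def h27_0Bm : ∃ t, chk3 f0Bm t 33 15 8 = true :=
  ⟨(c (a (b (c (a (b (l 80) (l 80)) (b (l 80) (l 80))) (a (b (l 80) (l 80)) (b (l 80) (l 80)))) (c (a (b (l 80) (l 80)) (b (l 80) (l 80))) (a (b (l 80) (l 80)) (b (l 80) (l 80))))) (b (c (a (b (l 80) (l 80)) (b (l 64) (l 80))) (a (l 80) (l 80))) (c (a (b (l 80) (l 80)) (b (l 80) (l 80))) (a (b (l 80) (l 80)) (b (l 80) (l 80)))))) (a (b (c (a (b (l 80) (l 80)) (l 80)) (a (l 80) (l 80))) (c (a (b (l 80) (l 80)) (b (l 80) (l 80))) (a (b (l 80) (l 80)) (l 80)))) (b (c (a (l 80) (l 80)) (a (l 80) (l 80))) (c (a (l 80) (l 80)) (a (l 80) (l 80)))))), by decide +kernel⟩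

def h28_0Bm : ∃ t, chk3 f0Bm t 16 14 9 = true :=
  ⟨(a (c (a (b (c (a (l 80) (l 80)) (a (l 80) (l 80))) (c (a (l 80) (l 80)) (a (l 80) (l 80)))) (b (c (a (l 80) (l 80)) (a (l 80) (l 80))) (c (a (l 80) (l 80)) (a (l 80) (l 80))))) (a (b (c (a (l 80) (l 80)) (a (l 80) (l 80))) (c (a (l 80) (l 80)) (a (l 80) (l 80)))) (b (c (a (l 80) (l 80)) (l 80)) (c (a (l 80) (l 80)) (a (l 80) (l 80)))))) (c (a (b (c (a (l 80) (l 80)) (a (l 80) (l 64))) (c (a (l 80) (l 80)) (a (l 80) (l 80)))) (b (c (l 80) (l 80)) (c (a (l 80) (l 80)) (a (l 80) (l 64))))) (a (b (c (l 80) (l 80)) (c (a (l 80) (l 80)) (l 80))) (b (c (l 80) (l 80)) (c (l 80) (l 80)))))), by decide +kernel⟩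

def h29_0Bm : ∃ t, chk3 f0Bm t 16 15 9 = true :=
  ⟨(a (c (a (b (c (a (b (l 80) (l 80)) (b (l 80) (l 80))) (a (b (l 80) (l 80)) (l 80))) (c (a (b (l 80) (l 80)) (b (l 80) (l 80))) (a (b (l 80) (l 80)) (b (l 80) (l 80))))) (b (c (a (l 80) (l 80)) (a (l 80) (l 80))) (c (a (b (l 80) (l 80)) (b (l 80) (l 80))) (a (l 80) (l 80))))) (a (b (c (a (l 80) (l 80)) (a (l 80) (l 80))) (c (a (b (l 80) (l 80)) (l 80)) (a (l 80) (l 80)))) (b (c (a (l 80) (l 80)) (a (l 80) (l 80))) (c (a (l 80) (l 80)) (a (l 80) (l 80)))))) (c (a (b (c (a (l 80) (l 80)) (a (l 80) (l 80))) (c (a (l 80) (l 80)) (a (l 80) (l 80)))) (b (c (a (l 80) (l 80)) (a (l 80) (l 80))) (c (a (l 80) (l 80)) (a (l 80) (l 80))))) (a (b (c (a (l 80) (l 80)) (a (l 80) (l 80))) (c (a (l 80) (l 80)) (a (l 80) (l 80)))) (b (c (a (l 80) (l 64)) (l 80)) (c (a (l 80) (l 80)) (a (l 80) (l 80))))))),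 by decide +kernel⟩

def h30_0Bm : ∃ t, chk3 f0Bm t 17 14 8 = true :=
  ⟨(a (c (a (b (c (a (l 80) (l 80)) (a (l 80) (l 80))) (c (a (l 80) (l 80)) (a (l 80) (l 80)))) (b (c (a (l 80) (l 80)) (l 80)) (c (a (l 80) (l 80)) (a (l 80) (l 80))))) (a (b (c (a (l 80) (l 64)) (l 80)) (c (a (l 80) (l 80)) (a (l 80) (l 80)))) (b (c (l 80) (l 80)) (c (a (l 80) (l 64)) (l 80))))) (c (a (b (c (l 80) (l 80)) (c (a (l 80) (l 64)) (l 80))) (b (c (l 80) (l 80)) (c (l 80) (l 80)))) (a (b (c (l 80) (l 80)) (c (l 80) (l 80))) (b (c (l 80) (l 80)) (c (l 80) (l 80)))))), by decide +kernel⟩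

def h31_0Bm : ∃ t, chk3 f0Bm t 17 15 8 = true :=
  ⟨(a (c (a (b (c (a (l 80) (l 80)) (a (l 80) (l 80))) (c (a (b (l 80) (l 80)) (l 80)) (a (l 80) (l 80)))) (b (c (a (l 80) (l 80)) (a (l 80) (l 80))) (c (a (l 80) (l 80)) (a (l 80) (l 80))))) (a (b (c (a (l 80) (l 80)) (a (l 80) (l 80))) (c (a (l 80) (l 80)) (a (l 80) (l 80)))) (b (c (a (l 80) (l 80)) (a (l 80) (l 64))) (c (a (l 80) (l 80)) (a (l 80) (l 80)))))) (c (a (b (c (a (l 80) (l 80)) (a (l 80) (l 80))) (c (a (l 80) (l 80)) (a (l 80) (l 80)))) (b (c (a (l 80) (l 64)) (l 80)) (c (a (l 80) (l 80)) (a (l 80) (l 64))))) (a (b (c (a (l 64) (l 64)) (l 80)) (c (a (l 80) (l 80)) (a (l 80) (l 64)))) (b (c (l 80) (l 80)) (c (l 80) (l 80)))))), by decide +kernel⟩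

def h32_0Bm : ∃ t, chk3 f0Bm t 17 7 9 = true :=
  ⟨(b (a (c (a (b (c (l 80) (l 80)) (c (l 80) (l 80))) (b (c (l 80) (l 80)) (c (l 80) (l 80)))) (a (b (c (l 80) (l 80)) (c (l 80) (l 80))) (b (c (l 80) (l 80)) (c (l 80) (l 80))))) (c (a (b (c (l 80) (l 80)) (c (l 80) (l 80))) (b (c (l 64) (l 64)) (c (l 80) (l 80)))) (a (b (c (l 64) (l 64)) (c (l 80) (l 64))) (b (l 80) (c (l 64) (l 64)))))) (a (c (a (b (c (a (l 80) (l 80)) (l 80)) (c (a (l 80) (l 80)) (a (l 80) (l 80)))) (b (c (l 80) (l 80)) (c (a (l 80) (l 80)) (l 80)))) (a (b (c (l 80) (l 80)) (c (a (l 80) (l 64)) (l 80))) (b (c (l 80) (l 80)) (c (l 80) (l 80))))) (c (a (b (c (l 80) (l 80)) (c (l 80) (l 80))) (b (c (l 80) (l 80)) (c (l 80) (l 80)))) (a (b (c (l 80) (l 80)) (c (l 80) (l 80))) (b (c (l 80) (l 64)) (c (l 80) (l 80))))))), by decide +kernel⟩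

def h33_0Bm : ∃ t, chk3 f0Bm t 16 7 10 = true :=
  ⟨(b (a (c (a (b (c (a (l 80) (l 64)) (l 80)) (c (a (l 80) (l 80)) (a (l 80) (l 80)))) (b (c (l 80) (l 80)) (c (a (l 80) (l 64)) (l 80)))) (a (b (c (l 80) (l 80)) (c (l 80) (l 80))) (b (c (l 80) (l 80)) (c (l 80) (l 80))))) (c (a (b (c (l 80) (l 80)) (c (l 80) (l 80))) (b (c (l 80) (l 80)) (c (l 80) (l 80)))) (a (b (c (l 80) (l 80)) (c (l 80) (l 80))) (b (c (l 80) (l 64)) (c (l 80) (l 80)))))) (a (c (a (b (c (a (l 80) (l 80)) (a (l 80) (l 80))) (c (a (l 80) (l 80)) (a (l 80) (l 80)))) (b (c (a (l 80) (l 80)) (a (l 80) (l 64))) (c (a (l 80) (l 80)) (a (l 80) (l 80))))) (a (b (c (a (l 80) (l 80)) (l 80)) (c (a (l 80) (l 80)) (a (l 80) (l 80)))) (b (c (l 80) (l 80)) (c (a (l 80) (l 80)) (l 80))))) (c (a (b (c (l 80) (l 80)) (c (a (l 80) (l 80)) (a (l 80) (l 64)))) (b (c (l 80) (l 80)) (c (l 80)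 (l 80)))) (a (b (c (l 80) (l 80)) (c (l 80) (l 80))) (b (c (l 80) (l 80)) (c (l 80) (l 80))))))), by decide +kernel⟩

def h34_0Bm : ∃ t, chk3 f0Bm t 16 7 11 = true :=
  ⟨(b (a (c (a (b (c (l 80) (l 80)) (c (l 80) (l 80))) (b (c (l 80) (l 80)) (c (l 80) (l 80)))) (b (a (c (l 80) (l 64)) (l 80)) (a (c (l 80) (l 80)) (c (l 80) (l 64))))) (c (b (a (c (l 64) (l 64)) (l 80)) (a (c (l 80) (l 80)) (c (l 64) (l 64)))) (b (a (l 80) (l 80)) (a (l 80) (l 80))))) (a (c (a (b (c (l 80) (l 80)) (c (a (l 80) (l 64)) (l 80))) (b (c (l 80) (l 80)) (c (l 80) (l 80)))) (a (b (c (l 80) (l 80)) (c (l 80) (l 80))) (b (c (l 80) (l 80)) (c (l 80) (l 80))))) (c (a (b (c (l 80) (l 80)) (c (l 80) (l 80))) (b (c (l 80) (l 64)) (c (l 80) (l 80)))) (a (b (c (l 80) (l 64)) (c (l 80) (l 80))) (b (l 80) (c (l 80) (l 64))))))), by decide +kernel⟩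

def h35_0Bm : ∃ t, chk3 f0Bm t 17 7 5 = true :=
  ⟨(c (b (a (c (a (b (c (l 80) (l 64)) (c (l 80) (l 80))) (b (l 80) (c (l 80) (l 64)))) (a (b (l 80) (c (l 80) (l 64))) (b (l 80) (l 80)))) (c (a (b (l 80) (l 80)) (b (l 80) (l 80))) (a (b (l 80) (l 80)) (b (l 80) (l 80))))) (a (c (a (b (c (l 80) (l 80)) (c (l 80) (l 80))) (b (c (l 80) (l 80)) (c (l 80) (l 80)))) (a (b (c (l 80) (l 80)) (c (l 80) (l 80))) (b (c (l 64) (l 64)) (c (l 80) (l 80))))) (c (a (b (c (l 80) (l 64)) (c (l 80) (l 80))) (b (l 80) (c (l 64) (l 64)))) (a (b (l 80) (c (l 64) (l 64))) (b (l 80) (l 80)))))) (b (a (c (b (a (l 80) (l 80)) (a (l 80) (l 80))) (b (a (l 80) (l 80)) (a (l 80) (l 80)))) (c (a (b (l 80) (l 80)) (b (l 64) (l 80))) (b (a (l 64) (l 64)) (a (l 80) (l 64))))) (a (c (a (b (c (l 64) (l 64)) (c (l 80) (l 64))) (b (l 80) (c (l 64) (l 64)))) (a (b (l 80) (l 80))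 (b (l 80) (l 80)))) (c (a (b (l 80) (l 80)) (b (l 80) (l 80))) (a (b (l 80) (l 80)) (b (l 80) (l 80))))))), by decide +kernel⟩

def h36_0Bm : ∃ t, chk3 f0Bm t 9 6 4 = true :=
  ⟨(a (b (c (a (c (b (a (l 80) (l 80)) (a (c (l 80) (l 80)) (l 80))) (b (l 80) (a (l 80) (l 80)))) (c (b (l 80) (a (l 80) (l 80))) (b (l 80) (l 80)))) (a (c (a (b (l 80) (l 80)) (l 80)) (a (l 80) (l 80))) (c (a (l 80) (l 80)) (a (l 80) (l 80))))) (c (a (c (b (a (c (l 64) (l 64)) (l 80)) (a (c (l 80) (l 80)) (c (l 64) (l 64)))) (b (a (l 80) (l 80)) (a (c (l 64) (l 64)) (l 80)))) (c (b (a (l 80) (l 80)) (a (l 80) (l 80))) (b (a (l 80) (l 80)) (a (l 80) (l 80))))) (a (c (b (a (l 80) (l 80)) (a (l 80) (l 80))) (b (a (l 80) (l 80)) (a (l 80) (l 80)))) (c (b (a (l 80) (l 80)) (a (l 80) (l 64))) (b (a (l 80) (l 80)) (a (l 64) (l 64))))))) (b (c (a (c (a (l 80) (l 80)) (a (l 80)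 (l 80))) (c (a (l 80) (l 80)) (a (l 80) (l 80)))) (a (c (a (l 80) (l 80)) (l 80)) (c (l 80) (l 80)))) (c (a (c (b (a (l 80) (l 80)) (a (l 80) (l 80))) (b (a (l 80) (l 80)) (a (l 64) (l 64)))) (c (b (a (l 80) (l 80)) (a (l 64) (l 64))) (b (l 80) (a (l 64) (l 64))))) (a (c (b (l 80) (a (l 64) (l 64))) (b (l 80) (a (l 64) (l 64)))) (c (b (l 80) (a (l 64) (l 64))) (a (l 80) (l 80))))))), by decide +kernel⟩

def h37_0Bm : ∃ t, chk3 f0Bm t 9 6 5 = true :=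
  ⟨(a (b (c (a (b (l 80) (c (l 80) (l 80))) (c (l 80) (l 80))) (a (c (l 80) (l 80)) (c (l 80) (l 80)))) (c (a (c (b (a (l 80) (l 80)) (a (l 64) (l 64))) (b (l 80) (a (l 64) (l 64)))) (c (b (l 80) (a (l 64) (l 64))) (a (b (l 80) (l 64)) (l 80)))) (a (c (b (l 80) (a (l 64) (l 64))) (b (l 80) (l 80))) (b (l 80) (c (l 80) (l 80)))))) (c (b (a (c (l 80) (l 80)) (c (l 80) (l 80))) (a (c (b (l 80) (l 80)) (a (l 80) (l 80))) (c (a (l 80) (l 80)) (l 80)))) (b (a (c (l 80) (l 80)) (l 80)) (a (c (l 80) (l 80)) (c (l 80) (l 80)))))), by decide +kernel⟩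

def h38_0Bm : ∃ t, chk3 f0Bm t 18 7 8 = true :=
  ⟨(b (a (c (a (b (c (l 80) (l 80)) (c (l 80) (l 80))) (b (c (l 80) (l 64)) (c (l 80) (l 80)))) (a (b (c (l 80) (l 64)) (c (l 80) (l 80))) (b (c (l 64) (l 64)) (c (l 80) (l 64))))) (c (a (b (c (l 64) (l 64)) (c (l 80) (l 64))) (b (l 80) (c (l 64) (l 64)))) (a (b (l 80) (c (l 64) (l 64))) (b (l 80) (l 80))))) (a (c (a (b (c (l 80) (l 80)) (c (a (l 80) (l 64)) (l 80))) (b (c (l 80) (l 80)) (c (l 80) (l 80)))) (a (b (c (l 80) (l 80)) (c (l 80) (l 80))) (b (c (l 80) (l 80)) (c (l 80) (l 80))))) (c (a (b (c (l 80) (l 80)) (c (l 80) (l 80))) (b (c (l 80) (l 64)) (c (l 80) (l 80)))) (a (b (c (l 80) (l 64)) (c (l 80) (l 80))) (b (c (l 64) (l 64)) (c (l 64) (l 64))))))), by decide +kernel⟩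

def h39_0Bm : ∃ t, chk3 f0Bm t 18 7 9 = true :=
  ⟨(b (a (c (a (b (l 80) (c (l 64) (l 64))) (b (l 80) (l 80))) (a (b (l 80) (l 80)) (b (l 80) (l 80)))) (c (a (b (l 80) (l 80)) (b (l 80) (l 80))) (a (b (l 80) (l 80)) (b (l 64) (l 80))))) (a (c (a (b (c (l 80) (l 80)) (c (l 80) (l 80))) (b (c (l 64) (l 64)) (c (l 80) (l 64)))) (a (b (c (l 64) (l 64)) (c (l 80) (l 64))) (b (l 80) (c (l 64) (l 64))))) (c (a (b (l 80) (c (l 64) (l 64))) (b (l 80) (l 80))) (a (b (l 80) (l 80)) (b (l 80) (l 80)))))), by decide +kernel⟩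

def h40_0Bm : ∃ t, chk3 f0Bm t 19 7 4 = true :=
  ⟨(c (b (a (c (a (b (l 80) (l 80)) (b (l 80) (l 80))) (a (b (l 80) (l 80)) (b (l 64) (l 80)))) (c (a (b (l 80) (l 80)) (b (l 64) (l 80))) (a (b (l 64) (l 64)) (b (l 64) (l 64))))) (a (c (a (b (c (l 64) (l 64)) (c (l 80) (l 64))) (b (l 80) (c (l 64) (l 64)))) (a (b (l 80) (l 80)) (b (l 80) (l 80)))) (c (a (b (l 80) (l 80)) (b (l 80) (l 80))) (a (b (l 80) (l 80)) (b (l 64) (l 80)))))) (b (a (c (a (b (l 64) (l 80)) (b (l 64) (l 64))) (a (b (l 64) (l 64)) (b (l 64) (l 64)))) (c (a (b (l 64) (l 64)) (b (l 64) (l 64))) (a (b (l 64) (l 64)) (b (l 64) (l 64))))) (a (c (a (b (l 80) (l 80)) (b (l 80) (l 80))) (a (b (l 80) (l 80)) (b (l 64) (l 80)))) (c (a (b (l 64) (l 80)) (b (l 64) (l 64))) (a (b (l 64) (l 64)) (b (l 64) (l 64))))))), by decide +kernel⟩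

def h41_0Bm : ∃ t, chk3 f0Bm t 9 7 5 = true :=
  ⟨(a (c (b (a (c (a (b (l 80) (l 80)) (b (l 64) (l 80))) (a (b (l 64) (l 80)) (b (l 64) (l 64)))) (c (a (b (l 64) (l 64)) (b (l 64) (l 64))) (a (b (l 64) (l 64)) (b (l 64) (l 64))))) (a (c (a (b (l 80) (l 80)) (b (l 80) (l 80))) (a (b (l 80) (l 80)) (b (l 80) (l 80)))) (c (a (b (l 80) (l 80)) (b (l 64) (l 80))) (a (b (l 64) (l 80)) (b (l 64) (l 64)))))) (b (a (c (a (b (l 64) (l 64)) (b (l 64) (l 64))) (b (l 80) (a (l 64) (l 64)))) (c (b (l 80) (a (l 64) (l 64))) (b (l 80) (l 80)))) (a (c (a (b (l 80) (l 80)) (b (l 64) (l 80))) (a (b (l 64) (l 64)) (b (l 64) (l 64)))) (c (a (b (l 64) (l 64)) (b (l 64) (l 64))) (b (l 80) (a (l 64) (l 64))))))) (c (b (a (c (a (b (l 64) (l 64)) (b (l 64) (l 64))) (b (l 80) (l 80))) (c (b (l 80) (l 80)) (b (l 80) (l 80)))) (a (c (a (b (l 64) (l 64)) (b (l 64) (l 64)))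 (a (b (l 64) (l 64)) (b (l 64) (l 64)))) (c (a (b (l 64) (l 64)) (b (l 64) (l 64))) (b (l 80) (l 80))))) (b (a (c (b (l 80) (l 80)) (b (l 80) (l 80))) (c (b (l 80) (l 64)) (a (l 80) (l 80)))) (a (c (a (b (l 64) (l 64)) (l 80)) (a (l 80) (l 80))) (c (a (l 80) (l 80)) (a (l 64) (l 64))))))), by decide +kernel⟩

def h42_0Bm : ∃ t, chk3 f0Bm t 8 6 3 = true :=
  ⟨(c (a (b (c (a (c (a (b (l 80) (l 80)) (l 80)) (a (l 80) (l 80))) (b (l 80) (c (l 80) (l 80)))) (a (c (a (l 80) (l 80)) (l 80)) (c (l 80) (l 80)))) (c (a (c (b (a (l 80) (l 80)) (a (l 80) (l 80))) (b (a (l 80) (l 80)) (a (l 80) (l 80)))) (c (b (a (l 80) (l 80)) (a (l 80) (l 64))) (b (l 80) (a (l 64) (l 64))))) (a (c (b (a (l 80) (l 80)) (a (l 80) (l 64))) (b (l 80) (a (l 64) (l 64)))) (c (b (l 80) (a (l 64) (l 64))) (b (l 80) (l 80)))))) (c (b (a (c (l 80) (l 80)) (c (l 80) (l 80))) (a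 (c (b (l 80) (a (l 64) (l 64))) (b (l 80) (a (l 64) (l 64)))) (c (a (b (l 80) (l 64)) (l 80)) (a (l 80) (l 80))))) (b (a (c (l 80) (l 80)) (l 80)) (a (c (b (l 80) (l 80)) (a (l 80) (l 80))) (c (a (l 80) (l 80)) (l 80)))))) (a (c (b (a (c (l 80) (l 80)) (c (l 80) (l 80))) (a (c (b (l 80) (a (l 64) (l 64))) (a (l 80) (l 80))) (b (l 80) (c (l 80) (l 80))))) (b (a (l 80) (l 80)) (a (c (a (l 80) (l 80)) (l 80)) (c (l 80) (l 80))))) (c (b (a (l 80) (l 80)) (a (c (l 80) (l 80)) (c (l 80) (l 80)))) (b (a (l 80) (l 80)) (a (c (l 80) (l 80)) (l 80)))))), by decide +kernel⟩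

def h43_0Bm : ∃ t, chk3 f0Bm t 16 7 6 = true :=
  ⟨(c (b (a (c (b (a (l 80) (l 80)) (a (c (l 80) (l 64)) (l 80))) (b (a (l 80) (l 80)) (a (l 80) (l 80)))) (c (b (a (l 80) (l 80)) (a (l 80) (l 80))) (b (a (l 80) (l 64)) (a (l 80) (l 80))))) (a (c (a (b (c (l 80) (l 80)) (c (l 80) (l 80))) (b (c (l 64) (l 64)) (c (l 80) (l 80)))) (a (b (c (l 64) (l 64)) (c (l 80) (l 64))) (b (l 80) (c (l 64) (l 64))))) (c (a (b (l 80) (c (l 64) (l 64))) (b (l 80) (l 80))) (a (b (l 80) (l 80)) (b (l 80) (l 80)))))) (b (a (c (b (a (l 80) (l 80)) (a (l 80) (l 80))) (b (a (l 64) (l 64)) (a (l 80) (l 64)))) (c (b (a (l 64) (l 64)) (a (l 80) (l 64))) (b (l 80) (a (l 64) (l 64))))) (a (c (a (b (l 80) (l 80)) (b (l 80) (l 80))) (a (b (l 80) (l 80)) (b (l 80) (l 80)))) (c (a (b (l 80) (l 80)) (b (l 80) (l 80))) (a (b (l 64) (l 80)) (b (l 64) (l 64))))))), by decide +kernel⟩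

def h44_0Bm : ∃ t, chk3 f0Bm t 17 7 6 = true :=
  ⟨(c (b (a (c (b (a (l 64) (l 64)) (a (l 80) (l 64))) (b (a (l 64) (l 64)) (a (l 64) (l 64)))) (c (b (l 80) (a (l 64) (l 64))) (b (l 80) (l 80)))) (a (c (a (b (l 80) (l 80)) (b (l 80) (l 80))) (a (b (l 80) (l 80)) (b (l 64) (l 80)))) (c (a (b (l 64) (l 80)) (b (l 64) (l 64))) (a (b (l 64) (l 64)) (b (l 64) (l 64)))))) (b (a (c (b (l 80) (a (l 64) (l 64))) (b (l 80) (l 80))) (c (b (l 80) (l 80)) (b (l 80) (l 80)))) (a (c (a (b (l 64) (l 80)) (b (l 64) (l 64))) (b (l 80) (a (l 64) (l 64)))) (c (b (l 80) (a (l 64) (l 64))) (a (l 80) (l 80)))))), by decide +kernel⟩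

def h45_0Bm : ∃ t, chk3 f0Bm t 8 7 7 = true :=
  ⟨(a (c (b (a (c (b (l 80) (a (l 64) (l 64))) (b (l 80) (l 80))) (c (b (l 80) (l 80)) (b (l 80) (l 80)))) (a (c (a (b (l 80) (l 80)) (b (l 64) (l 80))) (a (b (l 64) (l 80)) (b (l 64) (l 64)))) (c (a (b (l 64) (l 64)) (b (l 64) (l 64))) (b (l 80) (a (l 64) (l 64)))))) (b (a (c (b (l 80) (l 80)) (b (l 80) (l 80))) (c (b (l 80) (l 80)) (a (l 80) (l 80)))) (a (c (b (l 80) (a (l 64) (l 64))) (b (l 80) (l 80))) (c (a (l 80) (l 80)) (a (l 80) (l 80)))))) (b (c (a (c (b (l 80) (l 80)) (b (l 80) (l 80))) (c (a (l 80) (l 80)) (a (l 80) (l 80)))) (a (c (a (l 80) (l 80)) (a (l 80) (l 80))) (c (a (l 80) (l 80)) (l 80)))) (c (a (c (b (l 80) (l 80)) (a (l 80) (l 80))) (c (a (l 80) (l 80)) (a (l 80) (l 64)))) (a (c (a (l 80) (l 64)) (a (l 64) (l 64))) (c (a (l 64) (l 64)) (a (l 64) (l 64))))))), by decide +kernel⟩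

def h46_0Bm : ∃ t, chk3 f0Bm t 9 6 3 = true :=
  ⟨(c (a (c (b (a (c (l 80) (l 80)) (l 80)) (a (c (a (l 80) (l 80)) (l 80)) (c (l 80) (l 80)))) (b (a (l 80) (l 80)) (a (c (l 80) (l 80)) (c (l 80) (l 80))))) (c (b (a (l 80) (l 80)) (a (c (l 80) (l 80)) (c (l 80) (l 80)))) (b (a (l 80) (l 80)) (a (l 80) (l 80))))) (a (c (b (a (l 80) (l 80)) (a (l 80) (l 80))) (b (a (l 80) (l 80)) (a (l 80) (l 80)))) (c (b (a (l 80) (l 80)) (a (l 80) (l 80))) (b (l 80) (a (l 80) (l 80)))))), by decide +kernel⟩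

def h47_0Bm : ∃ t, chk3 f0Bm t 9 7 3 = true :=
  ⟨(c (a (b (c (a (c (b (l 80) (l 80)) (b (l 80) (l 80))) (c (b (l 80) (l 80)) (a (l 80) (l 80)))) (a (c (b (l 80) (l 80)) (a (l 80) (l 80))) (c (a (l 80) (l 80)) (a (l 80) (l 80))))) (c (a (c (a (b (l 64) (l 64)) (b (l 64) (l 64))) (b (l 80) (l 80))) (c (b (l 80) (l 80)) (a (l 80) (l 80)))) (a (c (a (l 80) (l 80)) (a (l 80) (l 64))) (c (a (l 64) (l 64)) (a (l 64) (l 64)))))) (b (c (a (c (a (l 80) (l 80)) (a (l 80) (l 80))) (b (l 80) (c (l 64) (l 64)))) (a (c (a (l 80) (l 80)) (l 80)) (c (l 80) (l 80)))) (c (a (c (a (l 80) (l 64)) (a (l 64) (l 64))) (c (a (l 64) (l 64)) (a (l 64) (l 64)))) (a (c (a (l 64) (l 64)) (a (l 64) (l 64))) (c (a (l 64) (l 64)) (a (l 64) (l 64))))))) (a (b (c (a (b (l 80) (c (l 64) (l 64))) (c (l 80) (l 80))) (a (c (l 80) (l 80)) (c (l 80) (l 80)))) (c (a (c (a (l 64)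 (l 64)) (a (l 64) (l 64))) (c (a (l 64) (l 64)) (a (l 64) (l 64)))) (a (c (a (l 64) (l 64)) (a (l 64) (l 64))) (b (l 80) (l 80))))) (b (c (a (c (l 80) (l 80)) (l 80)) (a (l 80) (l 80))) (c (a (c (a (l 64) (l 64)) (a (l 64) (l 64))) (b (l 80) (l 80))) (a (c (l 80) (l 80)) (c (l 80) (l 80))))))), by decide +kernel⟩

def h48_0Bm : ∃ t, chk3 f0Bm t 10 6 2 = true :=
  ⟨(c (a (c (b (a (c (a (l 80) (l 80)) (l 80)) (c (l 80) (l 80))) (a (c (b (l 80) (a (l 64) (l 64))) (a (b (l 80) (l 64)) (l 80))) (c (a (b (l 80) (l 64)) (l 80)) (a (l 80) (l 80))))) (b (a (c (l 80) (l 80)) (c (l 80) (l 80))) (a (c (a (l 80) (l 80)) (a (l 80) (l 80))) (c (a (l 80) (l 80)) (l 80))))) (c (a (b (c (l 80) (l 80)) (c (a (l 80) (l 80)) (a (l 80) (l 80)))) (b (c (l 80) (l 80)) (c (a (l 80) (b (l 80) (l 82))) (a (l 80) (b (l 80) (l 82)))))) (a (b (c (l 80) (l 80)) (c (l 80)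 (l 80))) (b (c (l 80) (l 80)) (a (l 80) (b (l 80) (c (l 82) (c (l 82) (l 82))))))))) (a (c (b (a (c (l 80) (l 80)) (l 80)) (a (c (l 80) (l 80)) (c (l 80) (l 80)))) (b (a (l 80) (l 80)) (a (c (l 80) (l 80)) (c (l 80) (l 80))))) (c (a (b (l 80) (c (l 80) (l 80))) (b (c (l 80) (l 80)) (a (l 80) (b (l 80) (c (c (l 82) (l 82)) (l 86)))))) (a (b (l 80) (c (l 80) (l 80))) (b (l 80) (a (l 80) (b (l 80) (c (l 86) (l 86))))))))), by decide +kernel⟩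

def h49_0Bm : ∃ t, chk3 f0Bm t 20 7 4 = true :=
  ⟨(c (b (a (c (a (b (l 64) (l 64)) (b (l 64) (l 64))) (a (b (l 64) (l 64)) (b (l 64) (l 64)))) (c (a (b (l 64) (l 64)) (b (l 64) (l 64))) (a (b (l 64) (l 64)) (b (l 64) (l 64))))) (a (c (a (b (l 80) (l 80)) (b (l 64) (l 64))) (a (b (l 64) (l 64)) (b (l 64) (l 64)))) (c (a (b (l 64) (l 64)) (b (l 64) (l 64))) (a (b (l 64) (l 64)) (b (l 64) (l 64)))))) (b (a (c (a (b (l 64) (l 64)) (b (l 64) (l 64))) (b (l 80) (l 80))) (c (b (l 80) (l 80)) (b (l 80) (l 64)))) (a (c (a (b (l 64) (l 64)) (b (l 64) (l 64))) (b (l 80) (a (l 64) (l 64)))) (c (a (b (l 64) (l 64)) (l 80)) (a (l 80) (l 64)))))), by decide +kernel⟩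

def h50_0Bm : ∃ t, chk3 f0Bm t 21 14 4 = true :=
  ⟨(c (a (c (b (a (l 64) (l 64)) (l 80)) (b (l 80) (l 64))) (c (a (b (l 64) (c (l 66) (l 66))) (b (a (l 66) (c (b (l 66) (l 66)) (l 70))) (c (a (b (l 66) (l 70)) (b (l 70) (l 70))) (a (b (l 66) (l 70)) (b (l 70) (l 70)))))) (a (b (l 64) (c (l 66) (l 66))) (b (a (l 66) (c (l 70) (l 70))) (c (a (b (l 66) (l 70)) (b (l 70) (l 70))) (b (a (l 66) (l 70)) (l 70))))))) (a (c (b (l 80) (l 64)) (a (l 80) (l 80))) (c (a (b (l 64) (c (l 66) (l 66))) (b (a (l 66) (c (l 70) (l 70))) (c (b (a (l 66) (l 70)) (l 70)) (b (l 70) (a (l 70) (l 70)))))) (a (b (l 64) (l 66)) (b (a (l 66) (l 70)) (c (a (l 70) (l 70)) (a (l 70) (l 70)))))))), by decide +kernel⟩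

def h51_0Bm : ∃ t, chk3 f0Bm t 21 15 8 = true :=
  ⟨(a (c (a (b (l 64) (l 66)) (b (l 66) (a (l 66) (b (l 66) (c (l 70) (l 70)))))) (a (b (l 64) (l 66)) (b (l 66) (a (l 66) (b (l 66) (c (l 66) (l 66))))))) (c (a (b (c (a (l 66) (b (l 66) (l 70))) (a (l 66) (b (l 66) (l 70)))) (c (a (b (l 70) (l 70)) (b (l 70) (l 70))) (a (b (l 70) (l 70)) (b (l 70) (l 70))))) (b (c (a (b (l 70) (l 70)) (b (l 70) (l 38))) (a (b (l 70) (l 70)) (b (l 70) (l 38)))) (c (a (b (l 38) (l 38)) (b (l 38) (l 38))) (a (b (l 38) (l 38)) (b (l 38) (l 38)))))) (a (b (c (a (l 66) (b (l 66) (l 70))) (a (l 66) (b (l 66) (l 70)))) (c (a (b (l 70) (l 70)) (b (l 70) (l 70))) (a (b (l 70) (l 70)) (b (l 70) (l 70))))) (b (c (a (b (l 70) (l 70)) (l 70)) (a (l 70) (l 70))) (c (a (b (l 38) (l 38)) (b (l 38) (l 38))) (a (b (l 70) (l 38)) (l 38))))))), by decide +kernel⟩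

def h52_0Bm : ∃ t, chk3 f0Bm t 21 15 9 = true :=
  ⟨(a (c (a (b (l 64) (l 66)) (b (l 66) (a (l 66) (b (l 66) (c (l 66) (l 66)))))) (a (b (l 64) (l 64)) (b (l 66) (a (l 66) (c (b (l 66) (l 66)) (l 66)))))) (c (a (b (c (a (l 66) (l 70)) (a (l 66) (l 70))) (c (a (b (l 70) (l 70)) (b (l 70) (l 70))) (a (b (l 70) (l 70)) (l 70)))) (b (c (a (l 70) (l 70)) (a (l 70) (l 70))) (c (a (l 70) (l 38)) (a (l 70) (l 38))))) (a (b (a (l 66) (c (l 70) (l 70))) (c (a (l 70) (l 70)) (a (l 70) (l 70)))) (b (c (a (l 70) (l 70)) (a (l 70) (l 70))) (c (a (l 70) (l 38)) (a (l 70) (l 38))))))), by decide +kernel⟩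

def h53_0Bm : ∃ t, chk3 f0Bm t 20 7 5 = true :=
  ⟨(b (c (a (c (b (l 80) (l 64)) (a (l 80) (l 80))) (c (a (l 80) (l 80)) (a (l 80) (l 80)))) (a (b (l 80) (c (l 64) (l 64))) (c (a (l 80) (l 80)) (l 80)))) (c (a (c (a (l 80) (l 80)) (a (l 80) (l 64))) (c (a (l 64) (l 64)) (a (l 64) (l 64)))) (a (c (a (l 64) (l 64)) (a (l 64) (l 64))) (c (a (l 64) (l 64)) (a (l 64) (l 64)))))), by decide +kernel⟩

def h54_0Bm : ∃ t, chk3 f0Bm t 21 7 5 = true :=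
  ⟨(b (c (a (b (l 80) (c (l 64) (l 64))) (c (a (b (l 64) (l 66)) (b (c (l 70) (l 70)) (c (a (l 70) (l 70)) (l 70)))) (a (b (l 64) (l 66)) (b (c (l 70) (l 70)) (c (l 70) (l 70)))))) (a (c (l 80) (l 80)) (c (a (b (l 80) (l 66)) (b (c (l 70) (l 70)) (c (l 70) (l 70)))) (a (b (l 80) (l 66)) (b (l 86) (c (l 70) (l 70))))))) (c (a (c (a (l 66) (b (l 66) (a (l 66) (c (l 66) (l 66))))) (a (l 66) (b (l 66) (c (a (l 66) (l 66)) (l 66))))) (a (c (b (a (l 66) (c (l 70) (l 70))) (c (a (l 70) (l 70)) (a (l 70) (l 70)))) (b (a (l 66) (c (l 70) (l 70))) (c (a (l 70) (l 70)) (a (l 70) (l 70))))) (c (b (c (a (l 70) (l 70)) (a (l 70) (l 70))) (c (a (l 70) (l 38)) (a (l 70) (l 38)))) (b (c (a (l 70) (l 70)) (a (l 70) (l 70))) (c (a (l 70) (l 38)) (a (l 70) (l 38))))))) (a (c (a (l 66) (b (l 66) (c (l 66) (l 66)))) (a (l 66) (b (l 66) (c (l 66) (l 66))))) (a (c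 (b (a (l 66) (c (l 70) (l 70))) (c (a (l 70) (l 70)) (a (l 70) (l 70)))) (b (a (l 66) (c (l 70) (l 70))) (c (l 70) (l 70)))) (c (b (b (l 70) (c (l 70) (l 70))) (c (l 70) (l 70))) (b (c (l 70) (l 70)) (c (l 70) (a (l 70) (l 38))))))))), by decide +kernel⟩

def h55_0Bm : ∃ t, chk3 f0Bm t 22 6 4 = true :=
  ⟨(c (a (b (a (l 80) (c (b (c (l 22) (l 22)) (c (l 86) (l 86))) (b (c (l 22) (l 22)) (c (l 86) (l 22))))) (c (a (b (a (l 80) (l 86)) (c (a (l 70) (l 70)) (a (l 70) (l 70)))) (b (a (l 86) (l 46)) (c (a (l 70) (l 38)) (l 70)))) (a (b (c (l 86) (l 86)) (a (c (l 70) (l 70)) (l 86))) (b (c (l 86) (l 86)) (c (l 78) (l 46)))))) (b (a (c (b (c (l 22) (l 22)) (c (l 54) (l 54))) (b (c (l 22) (l 22)) (c (l 22) (l 22)))) (c (b (c (l 14) (l 14)) (c (l 14) (l 14))) (b (l 14) (l 14)))) (c (a (b (c (l 46) (l 46)) (c (l 38) (l 46))) (b (c (l 46) (l 46)) (l 46)))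 (a (b (c (l 46) (l 46)) (c (l 46) (l 46))) (b (l 46) (l 46)))))) (a (b (a (l 80) (c (b (l 22) (c (l 22) (l 22))) (b (l 22) (l 22)))) (c (a (b (c (l 86) (l 86)) (c (l 86) (l 86))) (b (c (l 86) (l 86)) (c (l 46) (l 46)))) (a (b (c (l 86) (l 86)) (c (l 86) (l 86))) (b (c (l 86) (l 86)) (c (l 46) (l 46)))))) (b (a (c (b (l 22) (l 22)) (b (l 22) (l 22))) (c (b (l 14) (l 14)) (b (l 14) (l 14)))) (c (a (b (c (l 46) (l 46)) (c (l 46) (l 46))) (b (l 46) (l 46))) (a (b (l 46) (l 46)) (b (l 46) (l 46))))))), by decide +kernel⟩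

def h56_0Bm : ∃ t, chk3 f0Bm t 23 6 4 = true :=
  ⟨(a (c (b (c (a (b (l 14) (l 14)) (b (l 14) (l 14))) (a (b (l 14) (l 14)) (l 14))) (c (a (b (l 46) (l 46)) (l 46)) (a (b (l 46) (l 46)) (l 46)))) (b (c (a (b (l 14) (l 14)) (l 14)) (a (b (l 14) (l 14)) (l 14))) (c (a (b (l 46) (l 46)) (l 46)) (a (l 46) (l 46))))) (c (a (b (l 46) (l 44)) (l 44)) (b (c (l 12) (l 12)) (l 44)))), by decide +kernel⟩

def h57_0Bm : ∃ t, chk3 f0Bm t 11 6 5 = true :=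
  ⟨(a (c (a (b (a (l 80) (c (b (l 22) (l 22)) (b (l 22) (l 22)))) (c (a (b (c (l 86) (l 86)) (c (l 86) (l 86))) (b (l 86) (l 46))) (a (b (l 86) (c (l 86) (l 86))) (b (l 86) (l 46))))) (b (c (a (b (l 22) (l 22)) (b (l 14) (l 14))) (a (b (l 22) (l 22)) (b (l 14) (l 14)))) (c (a (b (l 46) (l 46)) (b (l 46) (l 46))) (a (b (l 46) (l 46)) (b (l 14) (l 46)))))) (a (b (a (l 80) (c (b (l 16) (l 22)) (b (l 16) (l 22)))) (c (a (b (l 86) (l 86)) (b (l 86) (l 46))) (a (b (l 86) (l 86)) (b (l 22) (l 46))))) (b (c (a (b (l 22) (l 22)) (b (l 14) (l 14))) (a (b (l 22) (l 22)) (b (l 14) (l 14)))) (c (a (b (l 14) (l 46)) (b (l 14) (l 46))) (a (b (l 14) (l 46)) (b (l 14) (l 46))))))) (c (a (b (c (a (b (l 14) (l 14)) (l 14)) (a (b (l 14) (l 14)) (l 14))) (a (c (l 46) (l 46)) (l 46))) (b (c (l 12) (l 12)) (l 44))) (a (b (c (a (b (l 14) (l 14)) (l 14)) (a (l 14)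 (l 14))) (a (c (l 46) (l 46)) (l 46))) (b (l 12) (l 44))))), by decide +kernel⟩

def h58_0Bm : ∃ t, chk3 f0Bm t 22 7 8 = true :=
  ⟨(b (a (a (c (b (c (a (l 70) (l 70)) (a (l 70) (l 70))) (c (a (b (l 70) (l 38)) (b (l 38) (l 38))) (b (a (l 70) (l 38)) (l 70)))) (b (c (a (l 70) (l 70)) (a (l 70) (l 70))) (c (b (a (l 70) (l 38)) (l 70)) (b (l 70) (l 70))))) (c (b (c (a (l 38) (l 38)) (a (l 38) (l 38))) (c (a (b (l 38) (l 38)) (l 38)) (b (l 38) (l 38)))) (b (a (l 38) (l 38)) (c (a (l 38) (l 38)) (a (l 38) (l 38)))))) (c (a (b (c (l 38) (l 38)) (a (c (l 38) (l 38)) (l 38))) (b (l 38) (l 38))) (a (b (c (l 38) (l 38)) (a (l 38) (l 38))) (b (l 38) (l 38))))) (a (a (c (b (c (a (b (l 38) (l 38)) (l 38)) (a (l 38) (l 38))) (c (a (b (l 38) (l 38)) (l 38)) (a (l 38) (l 38)))) (b (c (a (l 38) (l 38)) (a (l 38) (l 38))) (c (a (l 38) (l 38)) (a (l 38) (l 38)))))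 (c (b (c (a (l 38) (l 38)) (a (l 38) (l 38))) (a (c (l 38) (l 38)) (l 38))) (b (a (c (l 38) (l 38)) (l 38)) (a (c (l 38) (l 38)) (l 38))))) (c (a (b (c (l 38) (l 38)) (c (l 38) (l 38))) (b (l 38) (l 38))) (a (b (c (l 38) (l 38)) (c (l 38) (l 38))) (b (l 38) (l 38)))))), by decide +kernel⟩

def h59_0Bm : ∃ t, chk3 f0Bm t 22 7 9 = true :=
  ⟨(b (a (a (c (b (c (a (l 70) (l 70)) (l 70)) (c (a (l 70) (l 38)) (a (l 70) (l 38)))) (b (c (l 70) (l 70)) (c (a (l 70) (l 38)) (l 70)))) (c (b (c (l 38) (l 38)) (a (c (l 38) (l 38)) (l 38))) (b (c (l 38) (l 38)) (c (l 38) (l 38))))) (c (a (b (c (l 38) (l 38)) (c (l 38) (l 38))) (b (l 38) (l 38))) (a (b (l 38) (l 38)) (b (l 46) (l 38))))) (a (c (a (b (c (a (l 38) (l 38)) (a (l 38) (l 38))) (c (a (l 38) (l 38)) (a (l 38) (l 38)))) (b (c (a (l 38) (l 38)) (a (l 38) (l 38))) (c (l 38) (l 38)))) (a (b (c (a (l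 38) (l 38)) (a (l 38) (l 38))) (c (a (l 38) (l 38)) (a (l 38) (l 38)))) (b (b (c (l 38) (l 38)) (l 38)) (c (l 38) (l 38))))) (c (a (b (c (l 38) (l 38)) (l 38)) (b (l 38) (l 38))) (a (b (c (l 38) (l 38)) (l 38)) (b (l 38) (l 38)))))), by decide +kernel⟩

def h60_0Bm : ∃ t, chk3 f0Bm t 23 7 4 = true :=
  ⟨(a (c (b (a (b (l 46) (l 46)) (l 46)) (c (a (b (l 38) (l 38)) (l 38)) (a (b (l 38) (l 38)) (l 38)))) (b (a (c (l 46) (l 46)) (l 46)) (c (b (l 38) (l 38)) (a (l 38) (l 38))))) (c (b (l 44) (c (l 44) (l 44))) (b (l 44) (l 44)))), by decide +kernel⟩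

def h61_0Bm : ∃ t, chk3 f0Bm t 22 7 5 = true :=
  ⟨(c (b (a (a (c (b (c (l 70) (l 70)) (c (l 70) (l 70))) (b (c (l 70) (l 70)) (c (l 70) (l 70)))) (c (b (c (l 38) (l 38)) (c (l 38) (l 38))) (b (l 46) (c (l 38) (l 38))))) (c (a (b (l 46) (l 38)) (b (l 46) (l 38))) (a (b (l 46) (l 38)) (b (l 46) (l 38))))) (a (c (a (b (c (a (l 38) (l 38)) (a (l 38) (l 38))) (a (c (l 38) (l 38)) (l 38))) (b (b (l 38) (l 38)) (c (l 38) (l 38)))) (a (b (b (l 38) (c (l 38) (l 38))) (c (l 38) (l 38))) (b (c (l 38) (l 38)) (c (l 38) (l 38))))) (c (a (b (c (l 38) (l 38)) (l 38)) (b (l 38) (l 38))) (a (b (l 38) (l 38)) (b (l 38) (l 38)))))) (a (b (c (a (b (l 86) (l 70)) (b (l 46) (l 38))) (a (b (l 86) (l 70)) (b (l 46) (l 38)))) (c (a (b (c (l 38) (l 38)) (c (l 38) (l 38))) (b (l 38) (c (l 38) (l 38)))) (a (b (c (l 38) (l 38)) (c (l 38) (l 38))) (b (l 38) (c (l 38)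 (l 38)))))) (b (c (a (b (l 46) (l 38)) (l 46)) (a (b (l 46) (l 38)) (l 46))) (c (a (b (l 38) (l 38)) (b (l 38) (l 38))) (a (b (l 38) (l 38)) (l 38)))))), by decide +kernel⟩

def h62_0Bm : ∃ t, chk3 f0Bm t 23 7 5 = true :=
  ⟨(c (a (b (a (c (l 46) (l 46)) (l 46)) (a (c (l 38) (l 38)) (l 46))) (b (l 44) (l 44))) (a (b (a (c (l 46) (l 46)) (l 46)) (c (a (l 38) (l 36)) (l 46))) (b (l 44) (l 44)))), by decide +kernel⟩

def h63_0Bm : ∃ t, chk3 f0Bm t 10 6 3 = true :=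
  ⟨(c (a (c (a (b (l 80) (l 80)) (b (l 80) (l 80))) (a (b (l 80) (l 80)) (b (l 80) (l 80)))) (c (a (b (l 80) (l 80)) (b (l 80) (a (l 80) (b (l 80) (c (l 86) (l 86)))))) (a (b (l 80) (l 80)) (b (l 16) (a (l 80) (b (l 16) (c (l 86) (l 86)))))))) (a (c (a (b (l 80) (l 80)) (b (l 80) (l 80))) (b (l 80) (a (l 80) (l 80)))) (c (a (b (l 16) (l 80)) (b (l 16) (a (l 80) (c (l 86) (l 22))))) (a (b (l 16) (l 80)) (b (l 16) (a (l 80) (c (l 22) (l 22)))))))), by decide +kernel⟩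

def h64_0Bm : ∃ t, chk3 f0Bm t 10 7 6 = true :=
  ⟨(a (b (c (a (c (l 80) (l 80)) (c (l 80) (l 80))) (a (c (l 80) (l 80)) (l 80))) (c (a (c (a (l 64) (l 64)) (a (l 64) (l 64))) (c (a (l 64) (l 64)) (a (l 64) (l 64)))) (a (b (l 80) (l 80)) (c (l 80) (l 80))))) (c (b (a (c (l 80) (l 80)) (c (a (b (l 80) (l 66)) (b (l 86) (l 70))) (a (b (l 80) (l 66)) (b (l 86) (l 70))))) (a (c (a (l 66) (b (l 66) (c (l 66) (l 66)))) (a (l 66) (b (l 66) (l 66)))) (c (a (b (c (l 70) (l 70)) (b (c (l 70) (l 70)) (l 70))) (b (l 70) (b (l 70) (l 70)))) (a (b (l 70) (b (l 70) (l 70))) (b (l 70) (c (l 70) (l 70))))))) (a (b (l 80) (c (a (l 66) (b (l 66) (l 66))) (a (l 66) (b (l 66) (l 66))))) (b (c (a (b (l 80) (l 70)) (b (l 86) (l 70))) (a (b (l 80) (l 70)) (b (l 86) (l 86)))) (c (a (b (l 70) (c (l 70) (l 70))) (b (l 70) (c (l 70) (l 70)))) (a (b (l 70) (c (l 70) (l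 70))) (b (l 70) (l 70)))))))), by decide +kernel⟩

def h65_0Bm : ∃ t, chk3 f0Bm t 10 7 7 = true :=
  ⟨(a (c (b (a (l 80) (l 80)) (a (c (l 80) (l 80)) (c (l 80) (l 80)))) (a (b (l 80) (c (l 80) (l 80))) (b (l 80) (l 80)))) (c (a (b (l 80) (a (l 82) (b (l 66) (c (l 66) (l 66))))) (b (c (a (b (l 80) (l 86)) (b (l 86) (l 86))) (a (b (l 80) (l 86)) (l 86))) (c (a (b (l 70) (l 70)) (b (l 70) (l 70))) (a (b (l 70) (l 70)) (b (l 70) (l 70)))))) (a (b (l 80) (a (l 82) (b (l 82) (c (l 66) (l 66))))) (b (c (a (l 86) (l 86)) (a (l 86) (l 86))) (c (a (b (l 70) (l 70)) (l 70)) (a (l 86) (l 78))))))), by decide +kernel⟩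

def h66_0Bm : ∃ t, chk3 f0Bm t 11 6 6 = true :=
  ⟨(a (c (a (b (a (l 16) (b (l 22) (c (l 22) (l 22)))) (c (a (b (l 22) (l 86)) (b (l 22) (l 46))) (a (b (l 22) (l 86)) (b (l 22) (l 46))))) (b (c (a (l 22) (b (l 14) (l 14))) (a (l 22) (l 14))) (c (a (b (l 14) (l 46)) (l 46)) (a (b (l 14) (l 46)) (l 46))))) (a (b (a (l 16) (c (l 22) (l 22))) (c (a (b (l 22) (l 86)) (l 54)) (a (b (l 22) (l 86)) (l 54)))) (b (c (a (l 22) (l 14)) (a (l 22) (l 14))) (c (a (l 46) (l 46)) (a (l 14) (l 14)))))) (c (a (b (a (c (l 14) (l 14)) (l 14)) (a (c (l 46) (l 46)) (l 46))) (b (l 12) (l 44))) (a (b (a (c (l 14) (l 14)) (l 14)) (a (l 46) (l 46))) (b (l 12) (l 44))))), by decide +kernel⟩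

def h67_0Bm : ∃ t, chk3 f0Bm t 11 7 6 = true :=
  ⟨(a (c (a (b (c (a (b (l 86) (l 38)) (b (l 46) (l 38))) (a (b (l 86) (l 38)) (b (l 46) (l 38)))) (c (a (b (l 38) (c (l 38) (l 38))) (b (l 38) (l 38))) (a (b (l 38) (c (l 38) (l 38))) (b (l 38) (l 38))))) (b (c (a (b (l 46) (l 38)) (l 46)) (a (b (l 46) (l 46)) (l 46))) (c (a (b (l 38) (l 38)) (l 38)) (a (l 38) (l 38))))) (a (b (c (a (b (l 86) (l 46)) (b (l 46) (l 46))) (a (b (l 86) (l 46)) (l 46))) (c (a (b (l 38) (l 38)) (b (l 38) (l 38))) (a (b (l 38) (l 38)) (b (l 38) (l 38))))) (b (c (a (l 46) (l 46)) (a (l 46) (l 46))) (c (a (l 38) (l 38)) (a (l 38) (l 38)))))) (c (a (b (a (l 46) (l 46)) (c (l 46) (l 46))) (l 44)) (a (b (c (l 46) (l 46)) (c (l 46) (l 46))) (l 44)))), by decide +kernel⟩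

def h68_0Bm : ∃ t, chk3 f0Bm t 11 3 7 = true :=
  ⟨(a (b (c (b (a (a (l 16) (c (l 22) (l 22))) (c (a (l 22) (l 14)) (a (l 22) (l 14)))) (a (c (a (l 86) (l 22)) (a (l 22) (l 22))) (c (a (l 14) (l 14)) (a (l 14) (l 14))))) (a (b (a (l 16) (c (l 22) (l 22))) (c (a (l 22) (l 22)) (a (l 22) (l 22)))) (b (a (l 22) (l 14)) (a (c (l 14) (l 14)) (l 14))))) (c (a (b (c (a (l 86) (l 46)) (a (l 86) (l 46))) (c (a (b (l 38) (l 38)) (l 38)) (a (l 38) (l 46)))) (b (c (a (l 46) (l 46)) (a (l 46) (l 46))) (a (c (l 38) (l 46)) (l 46)))) (a (b (c (a (l 54) (l 46)) (a (l 54) (l 46))) (c (a (l 46) (l 46)) (a (l 46) (l 46)))) (b (a (c (l 46) (l 46)) (l 46)) (a (c (l 46) (l 46)) (l 46)))))) (b (c (a (b (a (c (l 14) (l 14)) (l 14)) (c (l 14) (l 14))) (b (l 12) (l 12))) (a (b (a (l 14) (l 14)) (c (l 14) (l 14))) (l 12))) (c (a (b (c (l 46) (l 46)) (l 46)) (l 44))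 (a (b (c (l 46) (l 46)) (l 46)) (l 44))))), by decide +kernel⟩

def h69_0Bm : ∃ t, chk3 f0Bm t 3 3 1 = true :=
  ⟨(a (c (a (c (a (b (a (c (l 44) (l 44)) (l 44)) (c (a (l 44) (l 44)) (a (l 44) (l 44)))) (b (c (l 44) (l 44)) (c (l 44) (l 44)))) (b (a (c (l 44) (l 44)) (l 44)) (a (c (a (l 44) (l 44)) (l 44)) (c (l 44) (l 44))))) (c (a (b (l 44) (l 46)) (l 46)) (a (b (l 44) (l 46)) (l 46)))) (a (a (c (b (c (l 44) (l 44)) (c (l 44) (l 44))) (b (c (l 44) (l 44)) (c (l 44) (l 44)))) (c (b (l 44) (l 44)) (b (l 44) (l 44)))) (c (a (b (l 44) (l 44)) (l 46)) (a (b (l 44) (l 44)) (l 46))))) (c (a (a (c (l 46) (l 46)) (l 46)) (c (l 46) (l 46))) (a (c (l 46) (l 46)) (l 46)))), by decide +kernel⟩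

theorem h70_0Bm : ∃ t, chk3 f0Bm t 11 3 6 = true := ex3_b h66_0Bm h67_0Bm

theorem h71_0Bm : ∃ t, chk3 f0Bm t 11 3 3 = true := ex3_c h70_0Bm h68_0Bm

theorem h72_0Bm : ∃ t, chk3 f0Bm t 10 7 3 = true := ex3_c h64_0Bm h65_0Bm

theorem h73_0Bm : ∃ t, chk3 f0Bm t 10 3 3 = true := ex3_b h63_0Bm h72_0Bm

theorem h74_0Bm : ∃ t, chk3 f0Bm t 5 3 3 = true := ex3_a h73_0Bm h71_0Bm

theorem h75_0Bm : ∃ t, chk3 f0Bm t 11 7 5 = true := ex3_a h61_0Bm h62_0Bm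

theorem h76_0Bm : ∃ t, chk3 f0Bm t 22 7 4 = true := ex3_c h58_0Bm h59_0Bm

theorem h77_0Bm : ∃ t, chk3 f0Bm t 11 7 4 = true := ex3_a h76_0Bm h60_0Bm

theorem h78_0Bm : ∃ t, chk3 f0Bm t 11 7 2 = true := ex3_c h77_0Bm h75_0Bm

theorem h79_0Bm : ∃ t, chk3 f0Bm t 11 6 4 = true := ex3_a h55_0Bm h56_0Bm

theorem h80_0Bm : ∃ t, chk3 f0Bm t 11 6 2 = true := ex3_c h79_0Bm h57_0Bm

theorem h81_0Bm : ∃ t, chk3 f0Bm t 11 3 2 = true := ex3_b h80_0Bm h78_0Bm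

theorem h82_0Bm : ∃ t, chk3 f0Bm t 10 7 5 = true := ex3_a h53_0Bm h54_0Bm

theorem h83_0Bm : ∃ t, chk3 f0Bm t 21 15 4 = true := ex3_c h51_0Bm h52_0Bm

theorem h84_0Bm : ∃ t, chk3 f0Bm t 21 7 4 = true := ex3_b h50_0Bm h83_0Bm

theorem h85_0Bm : ∃ t, chk3 f0Bm t 10 7 4 = true := ex3_a h49_0Bm h84_0Bm

theorem h86_0Bm : ∃ t, chk3 f0Bm t 10 7 2 = true := ex3_c h85_0Bm h82_0Bm

theorem h87_0Bm : ∃ t, chk3 f0Bm t 10 3 2 = true := ex3_b h48_0Bm h86_0Bm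

theorem h88_0Bm : ∃ t, chk3 f0Bm t 5 3 2 = true := ex3_a h87_0Bm h81_0Bm

theorem h89_0Bm : ∃ t, chk3 f0Bm t 5 3 1 = true := ex3_c h88_0Bm h74_0Bm

theorem h90_0Bm : ∃ t, chk3 f0Bm t 9 3 3 = true := ex3_b h46_0Bm h47_0Bm

theorem h91_0Bm : ∃ t, chk3 f0Bm t 8 7 6 = true := ex3_a h43_0Bm h44_0Bm

theorem h92_0Bm : ∃ t, chk3 f0Bm t 8 7 3 = true := ex3_c h91_0Bm h45_0Bm

theorem h93_0Bm : ∃ t, chk3 f0Bm t 8 3 3 = true := ex3_b h42_0Bm h92_0Bm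

theorem h94_0Bm : ∃ t, chk3 f0Bm t 4 3 3 = true := ex3_a h93_0Bm h90_0Bm

theorem h95_0Bm : ∃ t, chk3 f0Bm t 18 7 4 = true := ex3_c h38_0Bm h39_0Bm

theorem h96_0Bm : ∃ t, chk3 f0Bm t 9 7 4 = true := ex3_a h95_0Bm h40_0Bm

theorem h97_0Bm : ∃ t, chk3 f0Bm t 9 7 2 = true := ex3_c h96_0Bm h41_0Bm

theorem h98_0Bm : ∃ t, chk3 f0Bm t 9 6 2 = true := ex3_c h36_0Bm h37_0Bm

theorem h99_0Bm : ∃ t, chk3 f0Bm t 9 3 2 = true := ex3_b h98_0Bm h97_0Bm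

theorem h100_0Bm : ∃ t, chk3 f0Bm t 16 7 5 = true := ex3_c h33_0Bm h34_0Bm

theorem h101_0Bm : ∃ t, chk3 f0Bm t 8 7 5 = true := ex3_a h100_0Bm h35_0Bm

theorem h102_0Bm : ∃ t, chk3 f0Bm t 17 7 8 = true := ex3_b h30_0Bm h31_0Bm

theorem h103_0Bm : ∃ t, chk3 f0Bm t 17 7 4 = true := ex3_c h102_0Bm h32_0Bm

theorem h104_0Bm : ∃ t, chk3 f0Bm t 16 7 9 = true := ex3_b h28_0Bm h29_0Bm

theorem h105_0Bm : ∃ t, chk3 f0Bm t 16 15 8 = true := ex3_a h26_0Bm h27_0Bm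

theorem h106_0Bm : ∃ t, chk3 f0Bm t 16 7 8 = true := ex3_b h25_0Bm h105_0Bm

theorem h107_0Bm : ∃ t, chk3 f0Bm t 16 7 4 = true := ex3_c h106_0Bm h104_0Bm

theorem h108_0Bm : ∃ t, chk3 f0Bm t 8 7 4 = true := ex3_a h107_0Bm h103_0Bm

theorem h109_0Bm : ∃ t, chk3 f0Bm t 8 7 2 = true := ex3_c h108_0Bm h101_0Bm

theorem h110_0Bm : ∃ t, chk3 f0Bm t 8 6 5 = true := ex3_a h23_0Bm h24_0Bm

theorem h111_0Bm : ∃ t, chk3 f0Bm t 16 13 4 = true := ex3_c h20_0Bm h21_0Bm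

theorem h112_0Bm : ∃ t, chk3 f0Bm t 16 6 4 = true := ex3_b h19_0Bm h111_0Bm

theorem h113_0Bm : ∃ t, chk3 f0Bm t 8 6 4 = true := ex3_a h112_0Bm h22_0Bm

theorem h114_0Bm : ∃ t, chk3 f0Bm t 8 6 2 = true := ex3_c h113_0Bm h110_0Bm

theorem h115_0Bm : ∃ t, chk3 f0Bm t 8 3 2 = true := ex3_b h114_0Bm h109_0Bm

theorem h116_0Bm : ∃ t, chk3 f0Bm t 4 3 2 = true := ex3_a h115_0Bm h99_0Bm

theorem h117_0Bm : ∃ t, chk3 f0Bm t 4 3 1 = true := ex3_c h116_0Bm h94_0Bm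

theorem h118_0Bm : ∃ t, chk3 f0Bm t 2 3 1 = true := ex3_a h117_0Bm h89_0Bm

theorem h119_0Bm : ∃ t, chk3 f0Bm t 1 3 1 = true := ex3_a h118_0Bm h69_0Bm

theorem h120_0Bm : ∃ t, chk3 f0Bm t 11 2 3 = true := ex3_b h16_0Bm h17_0Bm

theorem h121_0Bm : ∃ t, chk3 f0Bm t 5 2 3 = true := ex3_a h15_0Bm h120_0Bm

theorem h122_0Bm : ∃ t, chk3 f0Bm t 11 5 2 = true := ex3_c h13_0Bm h14_0Bm

theorem h123_0Bm : ∃ t, chk3 f0Bm t 11 4 2 = true := ex3_c h11_0Bm h12_0Bm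

theorem h124_0Bm : ∃ t, chk3 f0Bm t 11 2 2 = true := ex3_b h123_0Bm h122_0Bm

theorem h125_0Bm : ∃ t, chk3 f0Bm t 5 2 2 = true := ex3_a h10_0Bm h124_0Bm

theorem h126_0Bm : ∃ t, chk3 f0Bm t 5 2 1 = true := ex3_c h125_0Bm h121_0Bm

theorem h127_0Bm : ∃ t, chk3 f0Bm t 8 2 3 = true := ex3_b h7_0Bm h8_0Bm

theorem h128_0Bm : ∃ t, chk3 f0Bm t 4 2 3 = true := ex3_a h127_0Bm h9_0Bm

theorem h129_0Bm : ∃ t, chk3 f0Bm t 9 2 2 = true := ex3_b h5_0Bm h6_0Bm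

theorem h130_0Bm : ∃ t, chk3 f0Bm t 8 5 2 = true := ex3_c h3_0Bm h4_0Bm

theorem h131_0Bm : ∃ t, chk3 f0Bm t 8 4 4 = true := ex3_a h0_0Bm h1_0Bm

theorem h132_0Bm : ∃ t, chk3 f0Bm t 8 4 2 = true := ex3_c h131_0Bm h2_0Bm

theorem h133_0Bm : ∃ t, chk3 f0Bm t 8 2 2 = true := ex3_b h132_0Bm h130_0Bm

theorem h134_0Bm : ∃ t, chk3 f0Bm t 4 2 2 = true := ex3_a h133_0Bm h129_0Bm

theorem h135_0Bm : ∃ t, chk3 f0Bm t 4 2 1 = true := ex3_c h134_0Bm h128_0Bm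

theorem h136_0Bm : ∃ t, chk3 f0Bm t 2 2 1 = true := ex3_a h135_0Bm h126_0Bm

theorem h137_0Bm : ∃ t, chk3 f0Bm t 1 2 1 = true := ex3_a h136_0Bm h18_0Bm

theorem h138_0Bm : ∃ t, chk3 f0Bm t 1 1 1 = true := ex3_b h137_0Bm h119_0Bm

theorem ct_0Bm : ∃ t, chk3 f0Bm t 1 1 1 = true := h138_0Bm

noncomputable def f0T3 : ℕ → ℕ → ℕ → ℕ → Bool :=
  onCell 0 67108864 0 16777216 50331648 16777216 (c0_T3.row false 33554432)

def h0_0T3 : ∃ t, chk3 f0T3 t 1 1 1 = true :=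
  ⟨(b (a (a (a (c (b (l 16) (l 80)) (l 16)) (l 16)) (a (l 16) (a (l 16) (c (l 20) (l 20))))) (a (a (c (a (l 20) (l 12)) (l 20)) (c (l 12) (l 12))) (a (l 12) (l 12)))) (a (a (a (c (a (l 3) (l 80)) (l 80)) (c (l 80) (l 80))) (a (c (l 80) (l 16)) (a (l 16) (c (l 20) (l 20))))) (a (a (c (a (l 20) (l 12)) (l 20)) (c (l 12) (l 12))) (a (l 12) (l 12))))), by decide +kernel⟩

theorem ct_0T3 : ∃ t, chk3 f0T3 t 1 1 1 = true := h0_0T3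

noncomputable def f0T4 : ℕ → ℕ → ℕ → ℕ → Bool :=
  onCell 0 67108864 0 16777216 50331648 16777216 (c0_T4.row false 33554432)

def h0_0T4 : ∃ t, chk3 f0T4 t 1 1 1 = true :=
  ⟨(a (b (a (c (a (a (l 16) (l 16)) (l 16)) (l 16)) (a (b (l 16) (a (l 16) (c (c (l 16) (l 16)) (l 16)))) (c (b (a (c (l 16) (l 16)) (c (b (a (l 16) (b (a (l 16) (l 20)) (l 20))) (a (l 22) (l 20))) (b (a (l 16) (c (l 20) (l 20))) (a (l 22) (l 20))))) (a (c (b (l 22) (l 22)) (b (l 22) (l 22))) (b (a (l 22) (l 12)) (l 12)))) (b (a (l 16) (c (a (b (l 16) (l 22)) (l 20)) (a (b (l 16) (l 22)) (l 20)))) (a (b (l 22) (l 22)) (c (a (l 20) (l 12)) (l 20))))))) (a (a (l 16) (b (l 16) (a (l 16) (c (c (l 16) (l 16)) (l 16))))) (a (c (b (a (c (l 16) (l 16)) (b (l 22) (l 22))) (a (b (l 22) (l 22)) (b (c (l 22) (l 22)) (l 14)))) (b (a (l 16) (c (l 22) (l 22))) (a (l 22) (a (l 22) (l 14)))))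 (c (a (b (b (c (l 22) (l 22)) (l 14)) (c (l 14) (l 14))) (l 12)) (a (b (b (l 22) (l 14)) (l 14)) (l 12)))))) (a (a (b (b (a (l 20) (l 12)) (l 12)) (l 12)) (l 12)) (l 12))), by decide +kernel⟩

theorem ct_0T4 : ∃ t, chk3 f0T4 t 1 1 1 = true := h0_0T4

noncomputable def f0T5 : ℕ → ℕ → ℕ → ℕ → Bool :=
  onCell 0 50331648 0 8388608 50331648 16777216 (c0_T5.row true 25165824)

def h0_0T5 : ∃ t, chk3 f0T5 t 1 1 1 = true :=
  ⟨(a (a (c (a (l 16) (l 16)) (l 16)) (c (l 20) (l 20))) (l 20)), by decide +kernel⟩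

theorem ct_0T5 : ∃ t, chk3 f0T5 t 1 1 1 = true := h0_0T5

noncomputable def f0T7 : ℕ → ℕ → ℕ → ℕ → Bool :=
  onCell 0 67108864 0 16777216 50331648 16777216 (c0_T7.row false 33554432)

def h0_0T7 : ∃ t, chk3 f0T7 t 1 1 1 = true :=
  ⟨(a (a (b (b (b (a (l 16) (l 16)) (b (l 80) (l 80))) (a (b (l 80) (l 80)) (l 80))) (c (a (b (a (l 3) (l 80)) (l 3)) (b (l 64) (a (l 80) (l 64)))) (a (a (l 3) (l 80)) (l 80)))) (b (b (l 20) (l 84)) (a (l 80) (l 84)))) (a (b (b (l 20) (l 84)) (l 84)) (l 44))), by decide +kernel⟩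

theorem ct_0T7 : ∃ t, chk3 f0T7 t 1 1 1 = true := h0_0T7

noncomputable def f0T7k1 : ℕ → ℕ → ℕ → ℕ → Bool :=
  onCell 0 67108864 0 16777216 50331648 16777216 (c0_T7k1.row false 33554432)

def h0_0T7k1 : ∃ t, chk3 f0T7k1 t 1 1 1 = true :=
  ⟨(b (a (a (b (b (l 16) (a (l 80) (l 16))) (a (c (l 80) (l 80)) (l 80))) (a (c (l 16) (l 16)) (l 20))) (a (l 20) (l 12))) (a (a (c (a (a (l 3) (l 80)) (l 80)) (a (l 80) (l 80))) (a (l 80) (l 84))) (a (l 84) (l 44)))), by decide +kernel⟩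

theorem ct_0T7k1 : ∃ t, chk3 f0T7k1 t 1 1 1 = true := h0_0T7k1

noncomputable def f0T7k2 : ℕ → ℕ → ℕ → ℕ → Bool :=
  onCell 0 67108864 0 16777216 50331648 16777216 (c0_T7k2.row false 33554432)

def h0_0T7k2 : ∃ t, chk3 f0T7k2 t 1 1 1 = true :=
  ⟨(b (a (a (a (c (b (l 16) (l 80)) (l 16)) (l 16)) (a (l 16) (a (l 16) (l 20)))) (a (a (c (l 20) (l 20)) (l 12)) (l 12))) (a (a (a (c (a (l 3) (b (l 80) (l 3))) (l 80)) (b (l 80) (l 80))) (a (c (l 80) (l 16)) (a (l 80) (l 20)))) (a (a (c (l 20) (l 20)) (l 12)) (l 12)))), by decide +kernel⟩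

theorem ct_0T7k2 : ∃ t, chk3 f0T7k2 t 1 1 1 = true := h0_0T7k2

end Pool.Agent.Strip051.G.I3_64_1_16.Tab.Mo
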