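import Pool.Agent.Strip051.PB.MoR7
import Pool.Agent.Strip051.PB.MolWn
import Pool.Agent.Strip051.G.I3_64_1_16.MolC0
import Pool.Agent.Strip051.G.I3_64_1_16.MolC1
import Pool.Agent.Strip051.G.I3_64_1_16.Fact

/-! # The tight charts of a table: facts (generated) -/

set_option linter.all false

namespace Pool.Agent.Strip051.G.I3_64_1_16.Tab.Mo

open Pool.Agent.StripNear Pool.Agent.StripSquare Pool.Agent.Strip051.Sweep
open Pool.Agent.Strip051.LC Pool.Agent.Strip051.LC.MolN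
open Pool.Agent.Strip051.PB Pool.Agent.Strip051.PB.Mol
open Pool.Agent.Strip051.LC.Line (tau)
open Pool.Agent.Strip051.G.I3_64_1_16.Tab

theorem gsg_v : gsg.v = c1n := by funext y; simp [gsg, c1n]
theorem esg_v (y : ℝ) : esg.v y = y / 2 + c1n y - 1 := by
  simp only [esg, gsg_v]
  push_cast
  ring
theorem qsg_v (y : ℝ) : qsg.v y = (1 - c1n y) * (2 * c1n y - 1) := by
  simp only [qsg, gsg_v]
  push_cast
  ring
theorem gug_v (y : ℝ) : gug.v y = cR y := by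
  simp only [gug, gsg_v]
  push_cast
  unfold cR
  ring
theorem kug_v {y : ℝ} (h : y ^ 2 < 4 / 3) : kug.v y = y * cP y := by
  rw [cP_eq h]
  simp only [kug, kug_2, gsg_v, gug_v]
  push_cast
  ring
theorem kf0_t0 {y x : ℝ} (h0 : 0 < y) (h1 : y < 1) : kf0q0.v y x = (c1n y * cG y + kcg.v (psn y) x) * y := by
  have e := kA0_eq h0 h1
  unfold kA0 at e
  simp only [kf0q0, kf0q0_9, kf0q0_12, c1g_v]
  push_cast
  simp only [psn_def]
  linear_combination e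
theorem l0_t0 {y x : ℝ} (a : -(661 / 1387) < psn y) (b : psn y ≤ -(191 / 434)) : l0q0.v y x = cQ x y (kcg.v (psn y) x) := by
  have e1 := y_psn y
  have e2 := y_psn' y
  simp only [l0q0, txg, txg_4, txg_6, txg_27, txg_63, txg_77, txg_80, txg_83, txg_86, txg_113, txg_157, txg_160, txg_198, txg_234, txg_235, txg_236, txg_275, txg_314, txg_315, txg_353, c1g_v]
  push_cast
  simp only [psn_def]
  (repeat first | rw [if_pos (by linarith)] | rw [if_neg (by linarith)])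
  unfold cQ
  simp only [e1, e2]
  ring
theorem kp0_t0 {y x : ℝ} (h0 : 0 < y) (h1 : y < 1) (a : -(661 / 1387) < psn y) (b : psn y ≤ -(191 / 434)) : kp0q0.v y x = (cP y - (cR y + 2 * c1n y) * kcg.v (psn y) x) * y := by
  have h : y ^ 2 < 4 / 3 := by nlinarith
  have e := cP_eq h
  simp only [kp0q0, kp0q0_3, kp0q0_8, c1g_v, gug_v, kug_v h]
  push_cast
  simp only [psn_def]
  (repeat first | rw [if_pos (by linarith)] | rw [if_neg (by linarith)])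
  linear_combination (-(y)) * e * 0
theorem kf0_t1 {y x : ℝ} (h0 : 0 < y) (h1 : y < 1) : kf0q1.v y x = (c1n y * cG y + kcg.v (psn y) x) * (y - 1) := by
  have e := kA1_eq h0 h1
  unfold kA1 at e
  simp only [kf0q1, kf0q1_10, c1g_v]
  push_cast
  simp only [psn_def]
  linear_combination e
theorem nW_q1 (y : ℝ) : cv2m.v y = (w3W true).v y := by
  simp only [cv2m, swg_v, w3W, swn_c', zf, hfs, cond_true, cond_false, c1f]
  push_cast
  ring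
theorem nK_q1 {y x : ℝ} (a : 59 / 64 < y) (b : y < 31 / 32) (b0 : 0 < y) (b2 : y < 1) : kf2q1.v y x = (w3K true 1 kcg).v y x := by
  have z0 : 0 < (1 - y) := by linarith
  have z1 : (1 - y) < 1 := by linarith
  have z2 : (1 - y) ^ 2 < 4 / 3 := by nlinarith
  have e1 := kA0_eq z0 z1
  have e2 := wK2 (1 - y)
  unfold kA0 at e1
  simp only [kf2q1, kf2q1_4, kf2q1_66, kf2q1_67, kf2q1_73, kf2q1_75, c1g_v, gsg_v, esg_v, qsg_v, gug_v, swg_v, swn_c', w3W, w3K, zf, cwK, kcz, hfs, cond_true, cond_false, c1f, cGf, cPf, cDf, cRf, exf, zcf]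
  push_cast
  simp only [psn_def, kug_v z2]
  (repeat first | rw [if_pos (by linarith)] | rw [if_neg (by linarith)])
  skip
  linear_combination e1 + e2
theorem nX_q1 {y x : ℝ} (a : 59 / 64 < y) (b : y < 31 / 32) (b0 : 0 < y) (b2 : y < 1) : l2q1.v y x = (w3Q true kcg).v y x := by
  have z0 : 0 < (1 - y) := by linarith
  have z1 : (1 - y) < 1 := by linarith
  have z2 : (1 - y) ^ 2 < 4 / 3 := by nlinarith
  skip
  simp only [l2q1, l2q1_4, l2q1_43, l2q1_81, c1g_v, gsg_v, esg_v, qsg_v, gug_v, swg_v, swn_c', w3W, w3Q, zf, cwQ, kcz, hfs, cond_true, cond_false, c1f, cGf, cPf, cDf, cRf, exf, zcf]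
  push_cast
  simp only [psn_def, kug_v z2]
  (repeat first | rw [if_pos (by linarith)] | rw [if_neg (by linarith)])
  unfold cQ
  ring
theorem nD_q1 {y x : ℝ} (a : 59 / 64 < y) (b : y < 31 / 32) (b0 : 0 < y) (b2 : y < 1) : kp2q1.v y x = (w3D true 1 kcg).v y x := by
  have z0 : 0 < (1 - y) := by linarith
  have z1 : (1 - y) < 1 := by linarith
  have z2 : (1 - y) ^ 2 < 4 / 3 := by nlinarith
  have e3 := wD2 z0 z1
  simp only [kp2q1, kp2q1_4, kp2q1_42, kp2q1_43, kp2q1_47, kp2q1_55, c1g_v, gsg_v, esg_v, qsg_v, gug_v, swg_v, swn_c', w3W, w3D, zf, cwD, kcz, hfs, cond_true, cond_false, c1f, cGf, cPf, cDf, cRf, exf, zcf]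
  push_cast
  simp only [psn_def, kug_v z2]
  (repeat first | rw [if_pos (by linarith)] | rw [if_neg (by linarith)])
  skip
  linear_combination e3
theorem nW_q2 (y : ℝ) : cv2p.v y = (w3W false).v y := by
  simp only [cv2p, swg_v, w3W, swn_c, zf, hfs, cond_true, cond_false, c1f]
  push_cast
  ring
theorem nK_q2 {y x : ℝ} (a : 33 / 32 < y) (b : y < 69 / 64) (b0 : 1 < y) (b2 : y < 2) : kf2q2.v y x = (w3K false 1 kcg).v y x := by
  have z0 : 0 < (y - 1) := by linarith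
  have z1 : (y - 1) < 1 := by linarith
  have z2 : (y - 1) ^ 2 < 4 / 3 := by nlinarith
  have e1 := kA0_eq z0 z1
  have e2 := wK2 (y - 1)
  unfold kA0 at e1
  simp only [kf2q2, kf2q2_4, kf2q2_67, kf2q2_68, kf2q2_74, kf2q2_76, c1g_v, gsg_v, esg_v, qsg_v, gug_v, swg_v, swn_c, w3W, w3K, zf, cwK, kcz, hfs, cond_true, cond_false, c1f, cGf, cPf, cDf, cRf, exf, zcf]
  push_cast
  simp only [psn_def, kug_v z2]
  (repeat first | rw [if_pos (by linarith)] | rw [if_neg (by linarith)])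
  skip
  linear_combination e1 - e2
theorem nX_q2 {y x : ℝ} (a : 33 / 32 < y) (b : y < 69 / 64) (b0 : 1 < y) (b2 : y < 2) : l2q2.v y x = (w3Q false kcg).v y x := by
  have z0 : 0 < (y - 1) := by linarith
  have z1 : (y - 1) < 1 := by linarith
  have z2 : (y - 1) ^ 2 < 4 / 3 := by nlinarith
  skip
  simp only [l2q2, l2q2_4, l2q2_31, l2q2_80, c1g_v, gsg_v, esg_v, qsg_v, gug_v, swg_v, swn_c, w3W, w3Q, zf, cwQ, kcz, hfs, cond_true, cond_false, c1f, cGf, cPf, cDf, cRf, exf, zcf]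
  push_cast
  simp only [psn_def, kug_v z2]
  (repeat first | rw [if_pos (by linarith)] | rw [if_neg (by linarith)])
  unfold cQ
  ring
theorem nD_q2 {y x : ℝ} (a : 33 / 32 < y) (b : y < 69 / 64) (b0 : 1 < y) (b2 : y < 2) : kp2q2.v y x = (w3D false 1 kcg).v y x := by
  have z0 : 0 < (y - 1) := by linarith
  have z1 : (y - 1) < 1 := by linarith
  have z2 : (y - 1) ^ 2 < 4 / 3 := by nlinarith
  have e3 := wD2 z0 z1
  simp only [kp2q2, kp2q2_4, kp2q2_41, kp2q2_42, kp2q2_46, kp2q2_54, c1g_v, gsg_v, esg_v, qsg_v, gug_v, swg_v, swn_c, w3W, w3D, zf, cwD, kcz, hfs, cond_true, cond_false, c1f, cGf, cPf, cDf, cRf, exf, zcf]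
  push_cast
  simp only [psn_def, kug_v z2]
  (repeat first | rw [if_pos (by linarith)] | rw [if_neg (by linarith)])
  skip
  linear_combination -e3
theorem psr {y : ℝ} (a : 1 / 32 ≤ y) (b : y ≤ 5 / 64) : -(9527589 / 20000000) ≤ psn y ∧ psn y ≤ -(8805209 / 20000000) :=
  ⟨psn_ge' (lo := 1 / 32) (r := 9996339 / 10000000) (by norm_num) a (by linarith) (by norm_num) (by norm_num) (by norm_num),
    psn_le' (hi := 5 / 64) (r := 2494271 / 2500000) (by linarith) b (by norm_num) (by norm_num) (by norm_num) (by norm_num)⟩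
theorem kcg_t {p x : ℝ} (a : -(9527589 / 20000000) ≤ p) (b : p ≤ -(8805209 / 20000000)) : kcg.v p x = (-(10917967076249 / 129199050000000) + (18126058681651 / 17226540000000) * (x - 7 / 128)) + (lnF true 248645697020593 258398100000000 false 83356143199453 17226540000000 7 128).v x * p + (lnF true 73097 1000000 false 1088311 200000 7 128).v x * p ^ 2 + (lnF false 60827830469 98966472300000000 true 42702925937 6597764820000000 7 128).v x * max (p - sgv true 661 1387) 0 + (lnF true 20903 1000000 true 4317 6250 7 128).v x * max (p - sgv true 661 1387) 0 ^ 2 + (lnF true 168442384283 622484767800000000 false 38065155947 8892639540000000 7 128).v x * max (p - sgv true 23 50) 0 + (lnF false 40507 2000000 true 103679 50000 7 128).v x * max (p - sgv true 23 50) 0 ^ 2 + (lnF false 8911951 23912043750000 false 14423549 5465610000000 7 128).v x * max (p - sgv true 191 434)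 0 + (lnF false 51593 1000000 true 117061 100000 7 128).v x * max (p - sgv true 191 434) 0 ^ 2 := by
  rcases le_or_gt p (-(23 / 50)) with c1 | c1
  · have m0 : max (p - sgv true 661 1387) 0 = p - (-(661 / 1387)) := by
      rw [show sgv true 661 1387 = -(661 / 1387) by norm_num [sgv]]
      exact max_eq_left (by linarith)
    have m1 : max (p - sgv true 23 50) 0 = 0 := by
      rw [show sgv true 23 50 = -(23 / 50) by norm_num [sgv]]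
      exact max_eq_right (by linarith)
    have m2 : max (p - sgv true 191 434) 0 = 0 := by
      rw [show sgv true 191 434 = -(191 / 434) by norm_num [sgv]]
      exact max_eq_right (by linarith)
    rw [m0, m1, m2]
    simp only [kcg, kcg_3, kcg_6, kcg_9, kcg_12, kcg_13, kcg_18, kcg_30, kcg_38, kcg_43, kcg_55, kcg_63, kcg_64, kcg_69, kcg_81, kcg_88, kcg_89, kcg_94, kcg_106, kcg_111, kcg_116, kcg_128, kcg_138, kcg_141, kcg_142, kcg_147, kcg_159, kcg_164, kcg_169, kcg_180, kcg_188, kcg_189, kcg_194, kcg_203, kcg_211, kcg_216, kcg_225, kcg_230, kcg_238, kcg_239, kcg_240, kcg_259, kcg_268, kcg_288, kcg_289, kcg_309, lnF, cnF, lqF, sgv, cond_true, cond_false]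
    push_cast
    (repeat first | rw [if_pos (by linarith)] | rw [if_neg (by linarith)])
    first
      | ring1
      | (split_ifs <;> first | (exfalso; linarith) | ring1 | (rw [show p = -(23 / 50) by linarith]; ring1))
  · have m0 : max (p - sgv true 661 1387) 0 = p - (-(661 / 1387)) := by
      rw [show sgv true 661 1387 = -(661 / 1387) by norm_num [sgv]]
      exact max_eq_left (by linarith)
    have m1 : max (p - sgv true 23 50) 0 = p - (-(23 / 50)) := by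
      rw [show sgv true 23 50 = -(23 / 50) by norm_num [sgv]]
      exact max_eq_left (by linarith)
    have m2 : max (p - sgv true 191 434) 0 = 0 := by
      rw [show sgv true 191 434 = -(191 / 434) by norm_num [sgv]]
      exact max_eq_right (by linarith)
    rw [m0, m1, m2]
    simp only [kcg, kcg_3, kcg_6, kcg_9, kcg_12, kcg_13, kcg_18, kcg_30, kcg_38, kcg_43, kcg_55, kcg_63, kcg_64, kcg_69, kcg_81, kcg_88, kcg_89, kcg_94, kcg_106, kcg_111, kcg_116, kcg_128, kcg_138, kcg_141, kcg_142, kcg_147, kcg_159, kcg_164, kcg_169, kcg_180, kcg_188, kcg_189, kcg_194, kcg_203, kcg_211, kcg_216, kcg_225, kcg_230, kcg_238, kcg_239, kcg_240, kcg_259, kcg_268, kcg_288, kcg_289, kcg_309, lnF, cnF, lqF, sgv, cond_true, cond_false]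
    push_cast
    (repeat first | rw [if_pos (by linarith)] | rw [if_neg (by linarith)])
    first
      | ring1
      | (split_ifs <;> first | (exfalso; linarith) | ring1 | (rw [show p = -(191 / 434) by linarith]; ring1))
theorem dq_t (x : ℝ) : DqOk kcg dq (-(9527589 / 20000000)) (-(8805209 / 20000000)) x := by
  have b0 := dqQ_ok (f := fun p : ℝ => (-(10917967076249 / 129199050000000) + (18126058681651 / 17226540000000) * (x - 7 / 128)) + (lnF true 248645697020593 258398100000000 false 83356143199453 17226540000000 7 128).v x * p + (lnF true 73097 1000000 false 1088311 200000 7 128).v x * p ^ 2) (s := (lnF true 248645697020593 258398100000000 false 83356143199453 17226540000000 7 128)) (e := (lnF true 73097 1000000 false 1088311 200000 7 128)) (A := (-(10917967076249 / 129199050000000) + (18126058681651 / 17226540000000) * (x - 7 / 128))) (x := x) (lo := -(9527589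 / 20000000)) (hi := -(8805209 / 20000000)) (fun p _ _ => rfl)
  have b1 := dqK2_ok (f := fun p : ℝ => (-(10917967076249 / 129199050000000) + (18126058681651 / 17226540000000) * (x - 7 / 128)) + (lnF true 248645697020593 258398100000000 false 83356143199453 17226540000000 7 128).v x * p + (lnF true 73097 1000000 false 1088311 200000 7 128).v x * p ^ 2 + (lnF false 60827830469 98966472300000000 true 42702925937 6597764820000000 7 128).v x * max (p - sgv true 661 1387) 0 + (lnF true 20903 1000000 true 4317 6250 7 128).v x * max (p - sgv true 661 1387) 0 ^ 2) (d := (lnF false 60827830469 98966472300000000 true 42702925937 6597764820000000 7 128)) (e := (lnF true 20903 1000000 true 4317 6250 7 128)) (s := true) (m := 661) (q := 1387) b0 (fun p h1 h2 => rfl)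
  have b2 := dqK2_ok (f := fun p : ℝ => (-(10917967076249 / 129199050000000) + (18126058681651 / 17226540000000) * (x - 7 / 128)) + (lnF true 248645697020593 258398100000000 false 83356143199453 17226540000000 7 128).v x * p + (lnF true 73097 1000000 false 1088311 200000 7 128).v x * p ^ 2 + (lnF false 60827830469 98966472300000000 true 42702925937 6597764820000000 7 128).v x * max (p - sgv true 661 1387) 0 + (lnF true 20903 1000000 true 4317 6250 7 128).v x * max (p - sgv true 661 1387) 0 ^ 2 + (lnF true 168442384283 622484767800000000 false 38065155947 8892639540000000 7 128).v x * max (p - sgv true 23 50) 0 + (lnF false 40507 2000000 true 103679 50000 7 128).v x * max (p - sgv true 23 50) 0 ^ 2) (d := (lnF true 168442384283 622484767800000000 false 38065155947 8892639540000000 7 128)) (e := (lnF false 40507 2000000 true 103679 50000 7 128)) (s := true) (m :=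 23) (q := 50) b1 (fun p h1 h2 => rfl)
  have b3 := dqK2_ok (f := fun p : ℝ => kcg.v p x) (d := (lnF false 8911951 23912043750000 false 14423549 5465610000000 7 128)) (e := (lnF false 51593 1000000 true 117061 100000 7 128)) (s := true) (m := 191) (q := 434) b2 (fun p h1 h2 => kcg_t h1 h2)
  exact b3
theorem txg_l {p c x : ℝ} (a : -(1 / 2) ≤ p) (b : p ≤ -(1 / 2) + 113233 / 5000000) : txg.v p c x = (p + 1 / 2) * mL.v p x := by
  have hD : edv false p = p + 1 / 2 := by simp only [edv, cond_true, cond_false]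
  have e0 := hng_eq (D := p + 1 / 2) (d := 21 / 1000) (by norm_num)
  rcases le_or_gt p (-(479 / 1000)) with c0 | c0
  · have m0 : max (p + 1 / 2 - 21 / 1000) 0 = 0 := max_eq_right (by linarith)
    rw [m0] at e0
    simp only [txg, txg_4, txg_6, txg_27, txg_63, txg_77, txg_80, txg_83, txg_86, txg_113, txg_157, txg_160, txg_198, txg_234, txg_235, txg_236, txg_275, txg_314, txg_315, txg_353, mL, exC, exH, exH2, exQ, lnF, cnF, lqF, sgv, hD, cond_true, cond_false]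
    push_cast
    simp only [m0]
    (repeat first | rw [if_pos (by linarith)] | rw [if_neg (by linarith)])
    linear_combination -(((3723532502737 / 1637422850000000000 + (130484546429 / 6140335687500000) * (x - 7 / 128) + (-(1883721 / 8432500)) * (x - 7 / 128) ^ 2) + (-(39088133 / 100000000) + (-(27260421 / 1000000)) * (x - 7 / 128)) * 0)) * e0
  · have m0 : max (p + 1 / 2 - 21 / 1000) 0 = p + 1 / 2 - 21 / 1000 := max_eq_left (by linarith)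
    rw [m0] at e0
    simp only [txg, txg_4, txg_6, txg_27, txg_63, txg_77, txg_80, txg_83, txg_86, txg_113, txg_157, txg_160, txg_198, txg_234, txg_235, txg_236, txg_275, txg_314, txg_315, txg_353, mL, exC, exH, exH2, exQ, lnF, cnF, lqF, sgv, hD, cond_true, cond_false]
    push_cast
    simp only [m0]
    (repeat first | rw [if_pos (by linarith)] | rw [if_neg (by linarith)])
    linear_combination -(((3723532502737 / 1637422850000000000 + (130484546429 / 6140335687500000) * (x - 7 / 128) + (-(1883721 / 8432500)) * (x - 7 / 128) ^ 2) + (-(39088133 / 100000000) + (-(27260421 / 1000000)) * (x - 7 / 128)) * (p + 1 / 2 - 21 / 1000))) * e0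
theorem txg_r {p c x : ℝ} (a : 1 / 2 - 242067 / 10000000 ≤ p) (b : p ≤ 1 / 2) : txg.v p c x = (p - 1 / 2) * mR.v p x := by
  have hD : edv true p = 1 / 2 - p := by simp only [edv, cond_true, cond_false]
  simp only [txg, txg_4, txg_6, txg_27, txg_63, txg_77, txg_80, txg_83, txg_86, txg_113, txg_157, txg_160, txg_198, txg_234, txg_235, txg_236, txg_275, txg_314, txg_315, txg_353, mR, exC, exH, exH2, exQ, lnF, cnF, lqF, sgv, hD, cond_true, cond_false]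
  push_cast
  (repeat first | rw [if_pos (by linarith)] | rw [if_neg (by linarith)])
  ring
theorem kp_t {w x : ℝ} (a : 1 / 2 - 242067 / 10000000 ≤ w) (b : w ≤ 1 / 2) : kpc02.v w x = (yag.v w - 1) * kp.v w x := by
  simp only [kpc02, kpc02_4, kp, plA, plH, lnF, cnF, lqF, sgv, c1g_v, cond_true, cond_false]
  push_cast
  skip
  (repeat first | rw [if_pos (by linarith)] | rw [if_neg (by linarith)])
  ring
theorem kb_t {y x : ℝ} (a : 1 / 2 - 461751 / 20000000 ≤ psn y) (b : psn y ≤ 1 / 2) : kp0q1.v y x = (y - 1) * kb.v (psn y) x := by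
  simp only [kp0q1, kp0q1_3, kp0q1_9, kb, plA, plH, lnF, cnF, lqF, sgv, c1g_v, cond_true, cond_false]
  push_cast
  simp only [psn_def]
  (repeat first | rw [if_pos (by linarith)] | rw [if_neg (by linarith)])
  ring
theorem kn_v (f g h : ℝ → ℝ → ℝ) (x y : ℝ) (e : h y x = (1 + mug3.v x * gug.v x) * f y x + mug3.v x * g y x) :
    h y x = (1 + mun 3 x * cR x) * f y x + mun 3 x * g y x := by
  rw [e, mu_v, gug_v]
theorem on0 {y : ℝ} (h : InQ 0 y) : OnC (0 : Fin 5) 0 y := ⟨h, fun _ => by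
  have h1 := h.2
  have h2 := h0_lt_one
  have h3 := h0_pos
  nlinarith⟩
theorem shK0 {y x : ℝ} (h : InQ 0 y) (a : 1 / 32 ≤ y) (b : y ≤ 5 / 64) : tKF 0 0 y x = (c1n y * cG y + kcg.v (psn y) x) * y :=
  (tbF_on (on0 h)).trans (kf0_t0 (y := y) (by linarith) (by linarith))
theorem shL0 {y x : ℝ} (h : InQ 0 y) (a : 1 / 32 ≤ y) (b : y ≤ 5 / 64) : tL 0 0 y x = cQ x y (kcg.v (psn y) x) :=
  (tbF_on (on0 h)).trans (l0_t0 (lt_of_lt_of_le (by norm_num) (psr a b).1) ((psr a b).2.trans (by norm_num)))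
theorem shN0 {y x : ℝ} (h : InQ 0 y) (a : 1 / 32 ≤ y) (b : y ≤ 5 / 64) : tKN 0 0 y x = (1 + mun 3 x * cR x) * ((c1n y * cG y + kcg.v (psn y) x) * y) + mun 3 x * ((cP y - (cR y + 2 * c1n y) * kcg.v (psn y) x) * y) := by
  rw [← kf0_t0 (by linarith) (by linarith), ← kp0_t0 (by linarith) (by linarith) (lt_of_lt_of_le (by norm_num) (psr a b).1) ((psr a b).2.trans (by norm_num))]
  refine (tbF_on (on0 h)).trans (kn_v kf0q0.v kp0q0.v kn0q0.v x y ?_)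
  simp only [kn0q0]
  push_cast
  ring
theorem on1 {y : ℝ} (h : InQ 1 y) : OnC (0 : Fin 5) 1 y := ⟨h, fun _ => by
  have h1 := h.2
  have h2 := h0_lt_one
  have h3 := h0_pos
  nlinarith⟩
theorem kcb {y x : ℝ} (a : 1 / 32 ≤ y) (b : y ≤ 5 / 64) (h1 : 3 / 64 ≤ x) (h2 : x ≤ 1 / 16) : |kcg.v (psn y) x| ≤ 1 / 2 := by
  have e := psr a b
  rw [kcg_t e.1 e.2]
  obtain ⟨e1, e2⟩ := e
  rcases le_or_gt (psn y) (-(23 / 50)) with c1 | c1
  · have m0 : max (psn y - sgv true 661 1387) 0 = psn y - (-(661 / 1387)) := by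
      rw [show sgv true 661 1387 = -(661 / 1387) by norm_num [sgv]]
      exact max_eq_left (by linarith)
    have m1 : max (psn y - sgv true 23 50) 0 = 0 := by
      rw [show sgv true 23 50 = -(23 / 50) by norm_num [sgv]]
      exact max_eq_right (by linarith)
    have m2 : max (psn y - sgv true 191 434) 0 = 0 := by
      rw [show sgv true 191 434 = -(191 / 434) by norm_num [sgv]]
      exact max_eq_right (by linarith)
    rw [m0, m1, m2]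
    simp only [lnF, cnF, lqF, sgv, cond_true, cond_false]
    push_cast
    rw [abs_le]
    have f1 := mul_nonneg (sub_nonneg.2 (show -(9527589 / 20000000) ≤ psn y by linarith)) (sub_nonneg.2 h1)
    have f2 := mul_nonneg (sub_nonneg.2 (show psn y ≤ -(23 / 50) by linarith)) (sub_nonneg.2 h1)
    have f3 := mul_nonneg (sub_nonneg.2 (show -(9527589 / 20000000) ≤ psn y by linarith)) (sub_nonneg.2 h2)
    have f4 := mul_nonneg (sub_nonneg.2 (show psn y ≤ -(23 / 50) by linarith)) (sub_nonneg.2 h2)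
    constructor <;> nlinarith
  · have m0 : max (psn y - sgv true 661 1387) 0 = psn y - (-(661 / 1387)) := by
      rw [show sgv true 661 1387 = -(661 / 1387) by norm_num [sgv]]
      exact max_eq_left (by linarith)
    have m1 : max (psn y - sgv true 23 50) 0 = psn y - (-(23 / 50)) := by
      rw [show sgv true 23 50 = -(23 / 50) by norm_num [sgv]]
      exact max_eq_left (by linarith)
    have m2 : max (psn y - sgv true 191 434) 0 = 0 := by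
      rw [show sgv true 191 434 = -(191 / 434) by norm_num [sgv]]
      exact max_eq_right (by linarith)
    rw [m0, m1, m2]
    simp only [lnF, cnF, lqF, sgv, cond_true, cond_false]
    push_cast
    rw [abs_le]
    have f1 := mul_nonneg (sub_nonneg.2 (show -(23 / 50) ≤ psn y by linarith)) (sub_nonneg.2 h1)
    have f2 := mul_nonneg (sub_nonneg.2 (show psn y ≤ -(8805209 / 20000000) by linarith)) (sub_nonneg.2 h1)
    have f3 := mul_nonneg (sub_nonneg.2 (show -(23 / 50) ≤ psn y by linarith)) (sub_nonneg.2 h2)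
    have f4 := mul_nonneg (sub_nonneg.2 (show psn y ≤ -(8805209 / 20000000) by linarith)) (sub_nonneg.2 h2)
    constructor <;> nlinarith
theorem on2 {y : ℝ} (h : InQ 2 y) (h1 : h0 * y < 1) : OnC (0 : Fin 5) 2 y := ⟨h, fun _ => h1⟩
theorem spK {b x : ℝ} (u : ℝ) (hb : 0 ≤ b) (h : InQ 2 (1 + b)) (h1 : h0 * (1 + b) < 1) (b1 : b ≤ 1 / 64) : tKF 0 2 (1 + b) x = 1 / 2 + b * sp.rs.v u b x := by
  refine (tbF_on (on2 h h1)).trans ?_
  show kfc02.v (c1n (1 + b)) x = _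
  have e := stP_k (kc := kcg) (mL := mL) (mR := mR) (kp := kp) (u := u) (b := b) (x := x) (by linarith) (by linarith)
  have hy := yag_v (y := 1 + b) (by linarith) h1
  simp only [kfc02, hy]
  push_cast
  rw [add_sub_cancel_left]
  exact e
theorem wr {b : ℝ} (hb : 0 ≤ b) (b1 : b ≤ 1 / 64) : 1 / 2 - 242067 / 10000000 ≤ c1n (1 + b) ∧ c1n (1 + b) ≤ 1 / 2 :=
  ⟨c1n_ge (hi := 1 + 1 / 64) (by linarith) (by linarith) (by norm_num), c1n_half hb⟩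
theorem pr {b : ℝ} (hb : b < 0) (b1 : -(1 / 64) ≤ b) : 1 / 2 - 461751 / 20000000 ≤ psn (1 + b) ∧ psn (1 + b) ≤ 1 / 2 :=
  ⟨psn_ge' (lo := 1 - 1 / 64) (r := 326711 / 625000) (by norm_num) (by linarith) (by linarith) (by norm_num) (by norm_num) (by norm_num), psn_half hb.le (by linarith)⟩
theorem wrL {b : ℝ} (hb : 0 ≤ b) (b1 : b ≤ 15 / 1024) : 1 / 2 - 113233 / 5000000 ≤ c1n (1 + b) :=
  c1n_ge (hi := 1 + 15 / 1024) (by linarith) (by linarith) (by norm_num)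
theorem spL {b x : ℝ} (u : ℝ) (hb : 0 ≤ b) (h : InQ 2 (1 + b)) (h1 : h0 * (1 + b) < 1) (b1 : b ≤ 15 / 1024) : tL 0 2 (1 + b) x = b * sp.xk.v u b x := by
  refine (tbF_on (on2 h h1)).trans ?_
  show lc02.v (c1n (1 + b)) x = b * -(w1n b * (mL.v (-c1n (1 + b)) x + mR.v (c1n (1 + b)) x))
  obtain ⟨e1, e2⟩ := wr hb (b1.trans (by norm_num))
  have e3 := wrL hb b1
  have hw := w1n_eq (b := b) (by linarith) (by linarith)
  have kL := fun c => txg_l (p := -c1n (1 + b)) (c := c) (x := x) (by linarith) (by linarith)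
  have kR := fun c => txg_r (p := c1n (1 + b)) (c := c) (x := x) (by linarith) e2
  simp only [lc02, lc02_7, lc02_8, kL, kR]
  linear_combination (-(mL.v (-c1n (1 + b)) x + mR.v (c1n (1 + b)) x)) * hw
theorem spD {b x : ℝ} (u : ℝ) (hb : 0 ≤ b) (h1 : h0 * (1 + b) < 1) (b1 : b ≤ 1 / 64) : kpc02.v (c1n (1 + b)) x = b * sp.k2.v u b x := by
  obtain ⟨e1, e2⟩ := wr hb b1
  rw [kp_t e1 e2, yag_v (by linarith) h1, add_sub_cancel_left]
  rfl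
theorem spN {b x : ℝ} (hb : 0 ≤ b) (h : InQ 2 (1 + b)) (h1 : h0 * (1 + b) < 1) : tKN 0 2 (1 + b) x = (1 + mun 3 x * cR x) * tKF 0 2 (1 + b) x + mun 3 x * kpc02.v (c1n (1 + b)) x := by
  rw [show tKF 0 2 (1 + b) x = kfc02.v (c1n (1 + b)) x from tbF_on (on2 h h1)]
  refine (tbF_on (on2 h h1)).trans (kn_v kfc02.v kpc02.v knc02.v x (c1n (1 + b)) ?_)
  simp only [knc02]
  push_cast
  ring
theorem smK {b x : ℝ} (u : ℝ) (hb : b < 0) (h : InQ 1 (1 + b)) (b1 : -(1 / 64) ≤ b) : tKF 0 1 (1 + b) x = 1 / 2 + b * sm.rs.v u b x := by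
  refine (tbF_on (on1 h)).trans ?_
  show kf0q1.v (1 + b) x = _
  have e : kA1 (1 + b) + b * kcg.v (psn (1 + b)) x = 1 / 2 + b * sm.rs.v u b x := stM_k (kc := kcg) (mR := mR) (kb := kb) (u := u) (b := b) (x := x) (by linarith) (by linarith)
  have e2 := kA1_eq (y := 1 + b) (by linarith) (by linarith)
  rw [kf0_t1 (by linarith) (by linarith)]
  linear_combination e - e2
theorem smL {b x : ℝ} (u : ℝ) (hb : b < 0) (h : InQ 1 (1 + b)) (b1 : -(1 / 64) ≤ b) : tL 0 1 (1 + b) x = b * sm.xk.v u b x := by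
  refine (tbF_on (on1 h)).trans ?_
  show l0q1.v (1 + b) x = b * (mR.v (psn (1 + b)) x * (3 / 4 - w1n b / 2))
  obtain ⟨e1, e2⟩ := pr hb b1
  have hw := w1n_eq (b := b) (by linarith) (by linarith)
  have hp := psn_def (1 + b)
  have kR := fun c => txg_r (p := psn (1 + b)) (c := c) (x := x) (by linarith) e2
  simp only [l0q1, c1g_v]
  push_cast
  simp only [psn_def, kR]
  linear_combination (-(mR.v (psn (1 + b)) x)) * hp - (mR.v (psn (1 + b)) x / 2) * hw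
theorem smD {b x : ℝ} (u : ℝ) (hb : b < 0) (b1 : -(1 / 64) ≤ b) : kp0q1.v (1 + b) x = b * sm.k2.v u b x := by
  obtain ⟨e1, e2⟩ := pr hb b1
  rw [kb_t e1 e2, add_sub_cancel_left]
  rfl
theorem smN {b x : ℝ} (h : InQ 1 (1 + b)) : tKN 0 1 (1 + b) x = (1 + mun 3 x * cR x) * tKF 0 1 (1 + b) x + mun 3 x * kp0q1.v (1 + b) x := by
  rw [show tKF 0 1 (1 + b) x = kf0q1.v (1 + b) x from tbF_on (on1 h)]
  refine (tbF_on (on1 h)).trans (kn_v kf0q1.v kp0q1.v kn0q1.v x (1 + b) ?_)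
  simp only [kn0q1]
  push_cast
  ring
theorem rowK1 {b x : ℝ} (hb : 0 ≤ b) (b1 : b ≤ 1 / 64) : bf1q2.v (1 + b) x = 1 + b * rK1.v b x := by
  have e0 := hng_eq (D := b) (d := 3 / 200) (by norm_num)
  rcases le_or_gt b (3 / 200) with c0 | c0
  · have m0 : max (b - 3 / 200) 0 = 0 := max_eq_right (by linarith)
    rw [m0] at e0
    simp only [bf1q2, bf1q2_3, bf1q2_52, rK1, exC, scH, lnF, cnF, lqF, sgv, cond_true, cond_false]
    push_cast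
    (repeat first | rw [if_pos (by linarith)] | rw [if_neg (by linarith)])
    linear_combination -((2 / 21875 + (-(859 / 52500)) * (x - 7 / 128))) * e0
  · have m0 : max (b - 3 / 200) 0 = b - 3 / 200 := max_eq_left (by linarith)
    rw [m0] at e0
    simp only [bf1q2, bf1q2_3, bf1q2_52, rK1, exC, scH, lnF, cnF, lqF, sgv, cond_true, cond_false]
    push_cast
    (repeat first | rw [if_pos (by linarith)] | rw [if_neg (by linarith)])
    linear_combination -((2 / 21875 + (-(859 / 52500)) * (x - 7 / 128))) * e0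
theorem rowX1 {b x : ℝ} (hb : 0 ≤ b) (b1 : b ≤ 1 / 64) : bx1q2.v (1 + b) x = b * rX1.v b x := by
  have e0 := hng_eq (D := b) (d := 3 / 200) (by norm_num)
  rcases le_or_gt b (3 / 200) with c0 | c0
  · have m0 : max (b - 3 / 200) 0 = 0 := max_eq_right (by linarith)
    rw [m0] at e0
    simp only [bx1q2, bx1q2_3, rX1, exC, scH, lnF, cnF, lqF, sgv, cond_true, cond_false]
    push_cast
    (repeat first | rw [if_pos (by linarith)] | rw [if_neg (by linarith)])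
    linear_combination -((-(3 / 12500) + (-(254 / 13125)) * (x - 7 / 128))) * e0
  · have m0 : max (b - 3 / 200) 0 = b - 3 / 200 := max_eq_left (by linarith)
    rw [m0] at e0
    simp only [bx1q2, bx1q2_3, rX1, exC, scH, lnF, cnF, lqF, sgv, cond_true, cond_false]
    push_cast
    (repeat first | rw [if_pos (by linarith)] | rw [if_neg (by linarith)])
    linear_combination -((-(3 / 12500) + (-(254 / 13125)) * (x - 7 / 128))) * e0
theorem rowD1 {b x : ℝ} (hb : 0 ≤ b) (b1 : b ≤ 1 / 64) : bd1q2.v (1 + b) x = b * rD1.v b x := by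
  simp only [bd1q2, bd1q2_3, bd1q2_16, rD1, exC, scH, lnF, cnF, lqF, sgv, cond_true, cond_false]
  push_cast
  (repeat first | rw [if_pos (by linarith)] | rw [if_neg (by linarith)])
  ring
theorem cx1 {b x : ℝ} (u : ℝ) : cv1p.v (1 + b) = (fXS 2 3 5).v u b x := by
  show _ = ((2 : ℕ) : ℝ) / (5 : ℕ) * c1n (1 + b) + ((3 : ℕ) : ℝ) / (5 : ℕ) * (c1n b - 1 / 2)
  rw [cv1p_v, swn_c, add_sub_cancel_left]
  push_cast
  ring
theorem sX1 {b x : ℝ} (u : ℝ) : crv PP 1 2 (1 + b) = sk1.xs.v u b x := ecv1q2.trans (cx1 u)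
theorem sk1K {b x : ℝ} (u : ℝ) (hb : 0 ≤ b) (h : InQ 2 (1 + b)) (b1 : b ≤ 1 / 64) : tKF 1 2 (1 + b) x = 1 / 2 + b * sk1.rs.v u b x := by
  have e := stK_k (r := 2) (p := 3) (q := 5) (s := rK1) (sx := rX1) (sd := rD1) (u := u) (b := b) (x := x) (by norm_num) (by linarith) (by linarith)
  refine (tbF_on (onc h (by decide))).trans ?_
  show kf1q2.v (1 + b) x = _
  simp only [kf1q2, rowK1 hb b1, cx1 (x := x) u]
  exact e
theorem sk1L {b x : ℝ} (u : ℝ) (hb : 0 ≤ b) (h : InQ 2 (1 + b)) (b1 : b ≤ 1 / 64) : tL 1 2 (1 + b) x = b * sk1.xk.v u b x := by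
  refine (tbF_on (onc h (by decide))).trans ?_
  show l1q2.v (1 + b) x = b * ((fXS 2 3 5).v u b x * rX1.v b x)
  simp only [l1q2, rowX1 hb b1, cx1 (x := x) u]
  ring
theorem sk1D {b x : ℝ} (u : ℝ) (hb : 0 ≤ b) (b1 : b ≤ 1 / 64) : kp1q2.v (1 + b) x = b * sk1.k2.v u b x := by
  show kp1q2.v (1 + b) x = b * ((fXS 2 3 5).v u b x * rD1.v b x)
  simp only [kp1q2, rowD1 hb b1, cx1 (x := x) u]
  ring
theorem sk1N {b x : ℝ} (h : InQ 2 (1 + b)) : tKN 1 2 (1 + b) x = (1 + mun 3 x * cR x) * tKF 1 2 (1 + b) x + mun 3 x * kp1q2.v (1 + b) x := by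
  rw [show tKF 1 2 (1 + b) x = kf1q2.v (1 + b) x from tbF_on (onc h (by decide))]
  refine (tbF_on (onc h (by decide))).trans (kn_v kf1q2.v kp1q2.v kn1q2.v x (1 + b) ?_)
  simp only [kn1q2]
  push_cast
  ring
theorem rowK2 {b x : ℝ} (hb : 0 ≤ b) (b1 : b ≤ 1 / 64) : kf2q2.v (1 + b) x = cv2p.v (1 + b) * (1 + b * rK2.v b x) := by
  have e0 := hng_eq (D := b) (d := 3 / 200) (by norm_num)
  rcases le_or_gt b (3 / 200) with c0 | c0
  · have m0 : max (b - 3 / 200) 0 = 0 := max_eq_right (by linarith)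
    rw [m0] at e0
    simp only [kf2q2, kf2q2_4, kf2q2_67, kf2q2_68, kf2q2_74, kf2q2_76, rK2, exC, scH, lnF, cnF, lqF, sgv, cond_true, cond_false]
    push_cast
    (repeat first | rw [if_pos (by linarith)] | rw [if_neg (by linarith)])
    linear_combination cv2p.v (1 + b) * (-1) * ((-(179 / 6093750) + (902713 / 48750000) * (x - 7 / 128))) * e0
  · have m0 : max (b - 3 / 200) 0 = b - 3 / 200 := max_eq_left (by linarith)
    rw [m0] at e0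
    simp only [kf2q2, kf2q2_4, kf2q2_67, kf2q2_68, kf2q2_74, kf2q2_76, rK2, exC, scH, lnF, cnF, lqF, sgv, cond_true, cond_false]
    push_cast
    (repeat first | rw [if_pos (by linarith)] | rw [if_neg (by linarith)])
    linear_combination cv2p.v (1 + b) * (-1) * ((-(179 / 6093750) + (902713 / 48750000) * (x - 7 / 128))) * e0
theorem rowX2 {b x : ℝ} (hb : 0 ≤ b) (b1 : b ≤ 1 / 64) : l2q2.v (1 + b) x = cv2p.v (1 + b) * (b * rX2.v b x) := by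
  have e0 := hng_eq (D := b) (d := 3 / 200) (by norm_num)
  rcases le_or_gt b (3 / 200) with c0 | c0
  · have m0 : max (b - 3 / 200) 0 = 0 := max_eq_right (by linarith)
    rw [m0] at e0
    simp only [l2q2, l2q2_4, l2q2_31, l2q2_80, rX2, exC, scH, lnF, cnF, lqF, sgv, cond_true, cond_false]
    push_cast
    (repeat first | rw [if_pos (by linarith)] | rw [if_neg (by linarith)])
    linear_combination cv2p.v (1 + b) * (-1) * ((1114019 / 243750000 + (1678811 / 24375000) * (x - 7 / 128) + (-(22 / 325)) * (x - 7 / 128) ^ 2)) * e0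
  · have m0 : max (b - 3 / 200) 0 = b - 3 / 200 := max_eq_left (by linarith)
    rw [m0] at e0
    simp only [l2q2, l2q2_4, l2q2_31, l2q2_80, rX2, exC, scH, lnF, cnF, lqF, sgv, cond_true, cond_false]
    push_cast
    (repeat first | rw [if_pos (by linarith)] | rw [if_neg (by linarith)])
    linear_combination cv2p.v (1 + b) * (-1) * ((1114019 / 243750000 + (1678811 / 24375000) * (x - 7 / 128) + (-(22 / 325)) * (x - 7 / 128) ^ 2)) * e0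
theorem rowD2 {b x : ℝ} (hb : 0 ≤ b) (b1 : b ≤ 1 / 64) : kp2q2.v (1 + b) x = cv2p.v (1 + b) * (b * rD2.v b x) := by
  simp only [kp2q2, kp2q2_4, kp2q2_41, kp2q2_42, kp2q2_46, kp2q2_54, rD2, exC, scH, lnF, cnF, lqF, sgv, cond_true, cond_false]
  push_cast
  (repeat first | rw [if_pos (by linarith)] | rw [if_neg (by linarith)])
  ring
theorem cx2 {b x : ℝ} (u : ℝ) : cv2p.v (1 + b) = (fXS 0 1 1).v u b x := by
  show _ = ((0 : ℕ) : ℝ) / (1 : ℕ) * c1n (1 + b) + ((1 : ℕ) : ℝ) / (1 : ℕ) * (c1n b - 1 / 2)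
  rw [cv2p_v, swn_c, add_sub_cancel_left]
  push_cast
  ring
theorem sX2 {b x : ℝ} (u : ℝ) : crv PP 2 2 (1 + b) = sk2.xs.v u b x := ecv2q2.trans (cx2 u)
theorem sk2K {b x : ℝ} (u : ℝ) (hb : 0 ≤ b) (h : InQ 2 (1 + b)) (b1 : b ≤ 1 / 64) : tKF 2 2 (1 + b) x = 1 / 2 + b * sk2.rs.v u b x := by
  have e := stK_k (r := 0) (p := 1) (q := 1) (s := rK2) (sx := rX2) (sd := rD2) (u := u) (b := b) (x := x) (by norm_num) (by linarith) (by linarith)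
  refine (tbF_on (onc h (by decide))).trans ?_
  show kf2q2.v (1 + b) x = _
  simp only [rowK2 hb b1, cx2 (x := x) u]
  exact e
theorem sk2L {b x : ℝ} (u : ℝ) (hb : 0 ≤ b) (h : InQ 2 (1 + b)) (b1 : b ≤ 1 / 64) : tL 2 2 (1 + b) x = b * sk2.xk.v u b x := by
  refine (tbF_on (onc h (by decide))).trans ?_
  show l2q2.v (1 + b) x = b * ((fXS 0 1 1).v u b x * rX2.v b x)
  simp only [rowX2 hb b1, cx2 (x := x) u]
  ring
theorem sk2D {b x : ℝ} (u : ℝ) (hb : 0 ≤ b) (b1 : b ≤ 1 / 64) : kp2q2.v (1 + b) x = b * sk2.k2.v u b x := by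
  show kp2q2.v (1 + b) x = b * ((fXS 0 1 1).v u b x * rD2.v b x)
  simp only [rowD2 hb b1, cx2 (x := x) u]
  ring
theorem sk2N {b x : ℝ} (h : InQ 2 (1 + b)) : tKN 2 2 (1 + b) x = (1 + mun 3 x * cR x) * tKF 2 2 (1 + b) x + mun 3 x * kp2q2.v (1 + b) x := by
  rw [show tKF 2 2 (1 + b) x = kf2q2.v (1 + b) x from tbF_on (onc h (by decide))]
  refine (tbF_on (onc h (by decide))).trans (kn_v kf2q2.v kp2q2.v kn2q2.v x (1 + b) ?_)
  simp only [kn2q2]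
  push_cast
  ring
theorem gK_0_0 {Y x : ℝ} (hF : SideOk PP tKF tL pcF x) (hq : InQ 0 Y) : LinB (fun X => (pcF 0).K.v X Y x) (c1g.v Y) (cv1m.v Y) (kf0q0.v Y x) (kf1q0.v Y x) :=
  linT hF.pinK hq (fun X k1 k3 => hF.thK 0 X Y hq k1 k3) (0 : Fin 4) ((crv0 0 Y).trans (congrFun c1g_v Y).symm) (ecv1q0) (tbF_on (on0 hq)) (tbF_on (onc hq (by decide)))
theorem gL_0_0 {Y x : ℝ} (hF : SideOk PP tKF tL pcF x) (hq : InQ 0 Y) : LinB (fun X => (pcF 0).L.v X Y x) (c1g.v Y) (cv1m.v Y) (l0q0.v Y x) (l1q0.v Y x) :=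
  linT hF.pinL hq (fun X k1 k3 => hF.thL 0 X Y hq k1 k3) (0 : Fin 4) ((crv0 0 Y).trans (congrFun c1g_v Y).symm) (ecv1q0) (tbF_on (on0 hq)) (tbF_on (onc hq (by decide)))
theorem gD_0_0 {Y x : ℝ} (hF : SideOk PP tKF tL pcF x) (hN : SideOk PP tKN tL pcN x) (hm : mun 3 x ≠ 0) (hq : InQ 0 Y) :
    LinB (fun X => ((pcN 0).K.v X Y x - (1 + mun 3 x * cR x) * (pcF 0).K.v X Y x) / mun 3 x) (c1g.v Y) (cv1m.v Y) (kp0q0.v Y x) (kp1q0.v Y x) :=
  linB_sub hm (linT hN.pinK hq (fun X k1 k3 => hN.thK 0 X Y hq k1 k3) (0 : Fin 4) ((crv0 0 Y).trans (congrFun c1g_v Y).symm) (ecv1q0)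
    ((tbF_on (on0 hq)).trans (kn_v kf0q0.v kp0q0.v kn0q0.v x Y (by simp only [kn0q0]; push_cast; ring)))
    ((tbF_on (onc hq (by decide))).trans (kn_v kf1q0.v kp1q0.v kn1q0.v x Y (by simp only [kn1q0]; push_cast; ring)))) (gK_0_0 hF hq)
theorem gK_0_1 {Y x : ℝ} (hF : SideOk PP tKF tL pcF x) (hq : InQ 0 Y) : LinB (fun X => (pcF 0).K.v X Y x) (cv1m.v Y) (cv2m.v Y) (kf1q0.v Y x) (kf2q0.v Y x) :=
  linT hF.pinK hq (fun X k1 k3 => hF.thK 0 X Y hq k1 k3) (1 : Fin 4) (ecv1q0) (ecv2q0) (tbF_on (onc hq (by decide))) (tbF_on (onc hq (by decide)))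
theorem gL_0_1 {Y x : ℝ} (hF : SideOk PP tKF tL pcF x) (hq : InQ 0 Y) : LinB (fun X => (pcF 0).L.v X Y x) (cv1m.v Y) (cv2m.v Y) (l1q0.v Y x) (l2q0.v Y x) :=
  linT hF.pinL hq (fun X k1 k3 => hF.thL 0 X Y hq k1 k3) (1 : Fin 4) (ecv1q0) (ecv2q0) (tbF_on (onc hq (by decide))) (tbF_on (onc hq (by decide)))
theorem gD_0_1 {Y x : ℝ} (hF : SideOk PP tKF tL pcF x) (hN : SideOk PP tKN tL pcN x) (hm : mun 3 x ≠ 0) (hq : InQ 0 Y) :
    LinB (fun X => ((pcN 0).K.v X Y x - (1 + mun 3 x * cR x) * (pcF 0).K.v X Y x) / mun 3 x) (cv1m.v Y) (cv2m.v Y) (kp1q0.v Y x) (kp2q0.v Y x) :=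
  linB_sub hm (linT hN.pinK hq (fun X k1 k3 => hN.thK 0 X Y hq k1 k3) (1 : Fin 4) (ecv1q0) (ecv2q0)
    ((tbF_on (onc hq (by decide))).trans (kn_v kf1q0.v kp1q0.v kn1q0.v x Y (by simp only [kn1q0]; push_cast; ring)))
    ((tbF_on (onc hq (by decide))).trans (kn_v kf2q0.v kp2q0.v kn2q0.v x Y (by simp only [kn2q0]; push_cast; ring)))) (gK_0_1 hF hq)
theorem gK_1_1 {Y x : ℝ} (hF : SideOk PP tKF tL pcF x) (hq : InQ 1 Y) : LinB (fun X => (pcF 1).K.v X Y x) (cv1m.v Y) (cv2m.v Y) (kf1q1.v Y x) (kf2q1.v Y x) :=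
  linT hF.pinK hq (fun X k1 k3 => hF.thK 1 X Y hq k1 k3) (1 : Fin 4) (ecv1q1) (ecv2q1) (tbF_on (onc hq (by decide))) (tbF_on (onc hq (by decide)))
theorem gL_1_1 {Y x : ℝ} (hF : SideOk PP tKF tL pcF x) (hq : InQ 1 Y) : LinB (fun X => (pcF 1).L.v X Y x) (cv1m.v Y) (cv2m.v Y) (l1q1.v Y x) (l2q1.v Y x) :=
  linT hF.pinL hq (fun X k1 k3 => hF.thL 1 X Y hq k1 k3) (1 : Fin 4) (ecv1q1) (ecv2q1) (tbF_on (onc hq (by decide))) (tbF_on (onc hq (by decide)))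
theorem gD_1_1 {Y x : ℝ} (hF : SideOk PP tKF tL pcF x) (hN : SideOk PP tKN tL pcN x) (hm : mun 3 x ≠ 0) (hq : InQ 1 Y) :
    LinB (fun X => ((pcN 1).K.v X Y x - (1 + mun 3 x * cR x) * (pcF 1).K.v X Y x) / mun 3 x) (cv1m.v Y) (cv2m.v Y) (kp1q1.v Y x) (kp2q1.v Y x) :=
  linB_sub hm (linT hN.pinK hq (fun X k1 k3 => hN.thK 1 X Y hq k1 k3) (1 : Fin 4) (ecv1q1) (ecv2q1)
    ((tbF_on (onc hq (by decide))).trans (kn_v kf1q1.v kp1q1.v kn1q1.v x Y (by simp only [kn1q1]; push_cast; ring)))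
    ((tbF_on (onc hq (by decide))).trans (kn_v kf2q1.v kp2q1.v kn2q1.v x Y (by simp only [kn2q1]; push_cast; ring)))) (gK_1_1 hF hq)
theorem gK_1_2 {Y x : ℝ} (hF : SideOk PP tKF tL pcF x) (hq : InQ 1 Y) : LinB (fun X => (pcF 1).K.v X Y x) (cv2m.v Y) (cv3m.v Y) (kf2q1.v Y x) (kf3q1.v Y x) :=
  linT hF.pinK hq (fun X k1 k3 => hF.thK 1 X Y hq k1 k3) (2 : Fin 4) (ecv2q1) (ecv3q1) (tbF_on (onc hq (by decide))) (tbF_on (onc hq (by decide)))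
theorem gL_1_2 {Y x : ℝ} (hF : SideOk PP tKF tL pcF x) (hq : InQ 1 Y) : LinB (fun X => (pcF 1).L.v X Y x) (cv2m.v Y) (cv3m.v Y) (l2q1.v Y x) (l3q1.v Y x) :=
  linT hF.pinL hq (fun X k1 k3 => hF.thL 1 X Y hq k1 k3) (2 : Fin 4) (ecv2q1) (ecv3q1) (tbF_on (onc hq (by decide))) (tbF_on (onc hq (by decide)))
theorem gD_1_2 {Y x : ℝ} (hF : SideOk PP tKF tL pcF x) (hN : SideOk PP tKN tL pcN x) (hm : mun 3 x ≠ 0) (hq : InQ 1 Y) :
    LinB (fun X => ((pcN 1).K.v X Y x - (1 + mun 3 x * cR x) * (pcF 1).K.v X Y x) / mun 3 x) (cv2m.v Y) (cv3m.v Y) (kp2q1.v Y x) (kp3q1.v Y x) :=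
  linB_sub hm (linT hN.pinK hq (fun X k1 k3 => hN.thK 1 X Y hq k1 k3) (2 : Fin 4) (ecv2q1) (ecv3q1)
    ((tbF_on (onc hq (by decide))).trans (kn_v kf2q1.v kp2q1.v kn2q1.v x Y (by simp only [kn2q1]; push_cast; ring)))
    ((tbF_on (onc hq (by decide))).trans (kn_v kf3q1.v kp3q1.v kn3q1.v x Y (by simp only [kn3q1]; push_cast; ring)))) (gK_1_2 hF hq)
theorem gK_1_3 {Y x : ℝ} (hF : SideOk PP tKF tL pcF x) (hq : InQ 1 Y) : LinB (fun X => (pcF 1).K.v X Y x) (cv3m.v Y) (c3g.v Y) (kf3q1.v Y x) (kf4q1.v Y x) :=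
  linT hF.pinK hq (fun X k1 k3 => hF.thK 1 X Y hq k1 k3) (3 : Fin 4) (ecv3q1) ((crv4 1 Y).trans (congrFun c3g_v Y).symm) (tbF_on (onc hq (by decide))) (tbF_on (onc hq (by decide)))
theorem gL_1_3 {Y x : ℝ} (hF : SideOk PP tKF tL pcF x) (hq : InQ 1 Y) : LinB (fun X => (pcF 1).L.v X Y x) (cv3m.v Y) (c3g.v Y) (l3q1.v Y x) (l4q1.v Y x) :=
  linT hF.pinL hq (fun X k1 k3 => hF.thL 1 X Y hq k1 k3) (3 : Fin 4) (ecv3q1) ((crv4 1 Y).trans (congrFun c3g_v Y).symm) (tbF_on (onc hq (by decide))) (tbF_on (onc hq (by decide)))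
theorem gD_1_3 {Y x : ℝ} (hF : SideOk PP tKF tL pcF x) (hN : SideOk PP tKN tL pcN x) (hm : mun 3 x ≠ 0) (hq : InQ 1 Y) :
    LinB (fun X => ((pcN 1).K.v X Y x - (1 + mun 3 x * cR x) * (pcF 1).K.v X Y x) / mun 3 x) (cv3m.v Y) (c3g.v Y) (kp3q1.v Y x) (kp4q1.v Y x) :=
  linB_sub hm (linT hN.pinK hq (fun X k1 k3 => hN.thK 1 X Y hq k1 k3) (3 : Fin 4) (ecv3q1) ((crv4 1 Y).trans (congrFun c3g_v Y).symm)
    ((tbF_on (onc hq (by decide))).trans (kn_v kf3q1.v kp3q1.v kn3q1.v x Y (by simp only [kn3q1]; push_cast; ring)))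
    ((tbF_on (onc hq (by decide))).trans (kn_v kf4q1.v kp4q1.v kn4q1.v x Y (by simp only [kn4q1]; push_cast; ring)))) (gK_1_3 hF hq)
theorem gK_2_1 {Y x : ℝ} (hF : SideOk PP tKF tL pcF x) (hq : InQ 2 Y) : LinB (fun X => (pcF 2).K.v X Y x) (cv1p.v Y) (cv2p.v Y) (kf1q2.v Y x) (kf2q2.v Y x) :=
  linT hF.pinK hq (fun X k1 k3 => hF.thK 2 X Y hq k1 k3) (1 : Fin 4) (ecv1q2) (ecv2q2) (tbF_on (onc hq (by decide))) (tbF_on (onc hq (by decide)))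
theorem gL_2_1 {Y x : ℝ} (hF : SideOk PP tKF tL pcF x) (hq : InQ 2 Y) : LinB (fun X => (pcF 2).L.v X Y x) (cv1p.v Y) (cv2p.v Y) (l1q2.v Y x) (l2q2.v Y x) :=
  linT hF.pinL hq (fun X k1 k3 => hF.thL 2 X Y hq k1 k3) (1 : Fin 4) (ecv1q2) (ecv2q2) (tbF_on (onc hq (by decide))) (tbF_on (onc hq (by decide)))
theorem gD_2_1 {Y x : ℝ} (hF : SideOk PP tKF tL pcF x) (hN : SideOk PP tKN tL pcN x) (hm : mun 3 x ≠ 0) (hq : InQ 2 Y) :
    LinB (fun X => ((pcN 2).K.v X Y x - (1 + mun 3 x * cR x) * (pcF 2).K.v X Y x) / mun 3 x) (cv1p.v Y) (cv2p.v Y) (kp1q2.v Y x) (kp2q2.v Y x) :=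
  linB_sub hm (linT hN.pinK hq (fun X k1 k3 => hN.thK 2 X Y hq k1 k3) (1 : Fin 4) (ecv1q2) (ecv2q2)
    ((tbF_on (onc hq (by decide))).trans (kn_v kf1q2.v kp1q2.v kn1q2.v x Y (by simp only [kn1q2]; push_cast; ring)))
    ((tbF_on (onc hq (by decide))).trans (kn_v kf2q2.v kp2q2.v kn2q2.v x Y (by simp only [kn2q2]; push_cast; ring)))) (gK_2_1 hF hq)
theorem gK_2_2 {Y x : ℝ} (hF : SideOk PP tKF tL pcF x) (hq : InQ 2 Y) : LinB (fun X => (pcF 2).K.v X Y x) (cv2p.v Y) (cv3p.v Y) (kf2q2.v Y x) (kf3q2.v Y x) :=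
  linT hF.pinK hq (fun X k1 k3 => hF.thK 2 X Y hq k1 k3) (2 : Fin 4) (ecv2q2) (ecv3q2) (tbF_on (onc hq (by decide))) (tbF_on (onc hq (by decide)))
theorem gL_2_2 {Y x : ℝ} (hF : SideOk PP tKF tL pcF x) (hq : InQ 2 Y) : LinB (fun X => (pcF 2).L.v X Y x) (cv2p.v Y) (cv3p.v Y) (l2q2.v Y x) (l3q2.v Y x) :=
  linT hF.pinL hq (fun X k1 k3 => hF.thL 2 X Y hq k1 k3) (2 : Fin 4) (ecv2q2) (ecv3q2) (tbF_on (onc hq (by decide))) (tbF_on (onc hq (by decide)))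
theorem gD_2_2 {Y x : ℝ} (hF : SideOk PP tKF tL pcF x) (hN : SideOk PP tKN tL pcN x) (hm : mun 3 x ≠ 0) (hq : InQ 2 Y) :
    LinB (fun X => ((pcN 2).K.v X Y x - (1 + mun 3 x * cR x) * (pcF 2).K.v X Y x) / mun 3 x) (cv2p.v Y) (cv3p.v Y) (kp2q2.v Y x) (kp3q2.v Y x) :=
  linB_sub hm (linT hN.pinK hq (fun X k1 k3 => hN.thK 2 X Y hq k1 k3) (2 : Fin 4) (ecv2q2) (ecv3q2)
    ((tbF_on (onc hq (by decide))).trans (kn_v kf2q2.v kp2q2.v kn2q2.v x Y (by simp only [kn2q2]; push_cast; ring)))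
    ((tbF_on (onc hq (by decide))).trans (kn_v kf3q2.v kp3q2.v kn3q2.v x Y (by simp only [kn3q2]; push_cast; ring)))) (gK_2_2 hF hq)
theorem sKAp {X Y x : ℝ} (hF : SideOk PP tKF tL pcF x) (hq : InQ 2 Y) (a : 33 / 32 < Y) (b : Y < 69 / 64)
    (t0 : 0 < cv3p.v Y - X)
    (hX : (w3W false).v Y ≤ X) :
    (pcF 2).K.v X Y x = (w3K false 1 kcg).v Y x + sK_Ap.v X Y x * (X - (w3W false).v Y) :=
by
  have h0 := (gK_2_2 hF hq)
  rw [nW_q2, nK_q2 a b (by linarith) (by linarith)] at h0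
  exact rw0 h0 hX t0
theorem sLAp {X Y x : ℝ} (hF : SideOk PP tKF tL pcF x) (hq : InQ 2 Y) (a : 33 / 32 < Y) (b : Y < 69 / 64)
    (t0 : 0 < cv3p.v Y - X)
    (hX : (w3W false).v Y ≤ X) :
    (pcF 2).L.v X Y x = (w3Q false kcg).v Y x + sX_Ap.v X Y x * (X - (w3W false).v Y) :=
by
  have h0 := (gL_2_2 hF hq)
  rw [nW_q2, nX_q2 a b (by linarith) (by linarith)] at h0
  exact rw0 h0 hX t0
theorem sDAp {X Y x : ℝ} (hF : SideOk PP tKF tL pcF x) (hN : SideOk PP tKN tL pcN x) (hm : mun 3 x ≠ 0) (hq : InQ 2 Y) (a : 33 / 32 < Y) (b : Y < 69 / 64)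
    (t0 : 0 < cv3p.v Y - X)
    (hX : (w3W false).v Y ≤ X) :
    ((pcN 2).K.v X Y x - (1 + mun 3 x * cR x) * (pcF 2).K.v X Y x) / mun 3 x = (w3D false 1 kcg).v Y x + sD_Ap.v X Y x * (X - (w3W false).v Y) :=
by
  have h0 := (gD_2_2 hF hN hm hq)
  rw [nW_q2, nD_q2 a b (by linarith) (by linarith)] at h0
  exact rw0 h0 hX t0
theorem sKApk1 {X Y x : ℝ} (hF : SideOk PP tKF tL pcF x) (hq : InQ 2 Y) (a : 33 / 32 < Y) (b : Y < 69 / 64)
    (t0 : 0 < cv3p.v Y - X)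
    (hX : (w3W false).v Y ≤ X) :
    (pcF 2).K.v X Y x = (w3K false 1 kcg).v Y x + sK_Apk1.v X Y x * (X - (w3W false).v Y) :=
by
  have h0 := (gK_2_2 hF hq)
  rw [nW_q2, nK_q2 a b (by linarith) (by linarith)] at h0
  exact rw0 h0 hX t0
theorem sLApk1 {X Y x : ℝ} (hF : SideOk PP tKF tL pcF x) (hq : InQ 2 Y) (a : 33 / 32 < Y) (b : Y < 69 / 64)
    (t0 : 0 < cv3p.v Y - X)
    (hX : (w3W false).v Y ≤ X) :
    (pcF 2).L.v X Y x = (w3Q false kcg).v Y x + sX_Apk1.v X Y x * (X - (w3W false).v Y) :=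
by
  have h0 := (gL_2_2 hF hq)
  rw [nW_q2, nX_q2 a b (by linarith) (by linarith)] at h0
  exact rw0 h0 hX t0
theorem sDApk1 {X Y x : ℝ} (hF : SideOk PP tKF tL pcF x) (hN : SideOk PP tKN tL pcN x) (hm : mun 3 x ≠ 0) (hq : InQ 2 Y) (a : 33 / 32 < Y) (b : Y < 69 / 64)
    (t0 : 0 < cv3p.v Y - X)
    (hX : (w3W false).v Y ≤ X) :
    ((pcN 2).K.v X Y x - (1 + mun 3 x * cR x) * (pcF 2).K.v X Y x) / mun 3 x = (w3D false 1 kcg).v Y x + sD_Apk1.v X Y x * (X - (w3W false).v Y) :=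
by
  have h0 := (gD_2_2 hF hN hm hq)
  rw [nW_q2, nD_q2 a b (by linarith) (by linarith)] at h0
  exact rw0 h0 hX t0
theorem sKApk2 {X Y x : ℝ} (hF : SideOk PP tKF tL pcF x) (hq : InQ 2 Y) (a : 33 / 32 < Y) (b : Y < 69 / 64)
    (t0 : 0 < cv3p.v Y - X)
    (hX : (w3W false).v Y ≤ X) :
    (pcF 2).K.v X Y x = (w3K false 1 kcg).v Y x + sK_Apk2.v X Y x * (X - (w3W false).v Y) :=
by
  have h0 := (gK_2_2 hF hq)
  rw [nW_q2, nK_q2 a b (by linarith) (by linarith)] at h0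
  exact rw0 h0 hX t0
theorem sLApk2 {X Y x : ℝ} (hF : SideOk PP tKF tL pcF x) (hq : InQ 2 Y) (a : 33 / 32 < Y) (b : Y < 69 / 64)
    (t0 : 0 < cv3p.v Y - X)
    (hX : (w3W false).v Y ≤ X) :
    (pcF 2).L.v X Y x = (w3Q false kcg).v Y x + sX_Apk2.v X Y x * (X - (w3W false).v Y) :=
by
  have h0 := (gL_2_2 hF hq)
  rw [nW_q2, nX_q2 a b (by linarith) (by linarith)] at h0
  exact rw0 h0 hX t0
theorem sDApk2 {X Y x : ℝ} (hF : SideOk PP tKF tL pcF x) (hN : SideOk PP tKN tL pcN x) (hm : mun 3 x ≠ 0) (hq : InQ 2 Y) (a : 33 / 32 < Y) (b : Y < 69 / 64)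
    (t0 : 0 < cv3p.v Y - X)
    (hX : (w3W false).v Y ≤ X) :
    ((pcN 2).K.v X Y x - (1 + mun 3 x * cR x) * (pcF 2).K.v X Y x) / mun 3 x = (w3D false 1 kcg).v Y x + sD_Apk2.v X Y x * (X - (w3W false).v Y) :=
by
  have h0 := (gD_2_2 hF hN hm hq)
  rw [nW_q2, nD_q2 a b (by linarith) (by linarith)] at h0
  exact rw0 h0 hX t0
theorem sKAm {X Y x : ℝ} (hF : SideOk PP tKF tL pcF x) (hq : InQ 2 Y) (a : 33 / 32 < Y) (b : Y < 69 / 64)
    (t0 : 0 < (w3W false).v Y - cv1p.v Y) (t1 : 0 < X - cv1p.v Y)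
    (hX : X ≤ (w3W false).v Y) :
    (pcF 2).K.v X Y x = (w3K false 1 kcg).v Y x + sK_Am.v X Y x * (X - (w3W false).v Y) :=
by
  have h0 := (gK_2_1 hF hq)
  rw [nW_q2, nK_q2 a b (by linarith) (by linarith)] at h0
  exact lw0 h0 t0 hX t1
theorem sLAm {X Y x : ℝ} (hF : SideOk PP tKF tL pcF x) (hq : InQ 2 Y) (a : 33 / 32 < Y) (b : Y < 69 / 64)
    (t0 : 0 < (w3W false).v Y - cv1p.v Y) (t1 : 0 < X - cv1p.v Y)
    (hX : X ≤ (w3W false).v Y) :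
    (pcF 2).L.v X Y x = (w3Q false kcg).v Y x + sX_Am.v X Y x * (X - (w3W false).v Y) :=
by
  have h0 := (gL_2_1 hF hq)
  rw [nW_q2, nX_q2 a b (by linarith) (by linarith)] at h0
  exact lw0 h0 t0 hX t1
theorem sDAm {X Y x : ℝ} (hF : SideOk PP tKF tL pcF x) (hN : SideOk PP tKN tL pcN x) (hm : mun 3 x ≠ 0) (hq : InQ 2 Y) (a : 33 / 32 < Y) (b : Y < 69 / 64)
    (t0 : 0 < (w3W false).v Y - cv1p.v Y) (t1 : 0 < X - cv1p.v Y)
    (hX : X ≤ (w3W false).v Y) :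
    ((pcN 2).K.v X Y x - (1 + mun 3 x * cR x) * (pcF 2).K.v X Y x) / mun 3 x = (w3D false 1 kcg).v Y x + sD_Am.v X Y x * (X - (w3W false).v Y) :=
by
  have h0 := (gD_2_1 hF hN hm hq)
  rw [nW_q2, nD_q2 a b (by linarith) (by linarith)] at h0
  exact lw0 h0 t0 hX t1
theorem sKBp {X Y x : ℝ} (hF : SideOk PP tKF tL pcF x) (hq : InQ 1 Y) (a : 59 / 64 < Y) (b : Y < 31 / 32)
    (t0 : 0 < (w3W true).v Y - cv1m.v Y) (t1 : 0 < X - cv1m.v Y)
    (hX : X ≤ (w3W true).v Y) :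
    (pcF 1).K.v X Y x = (w3K true 1 kcg).v Y x + sK_Bp.v X Y x * (X - (w3W true).v Y) :=
by
  have h0 := (gK_1_1 hF hq)
  rw [nW_q1, nK_q1 a b (by linarith) (by linarith)] at h0
  exact lw0 h0 t0 hX t1
theorem sLBp {X Y x : ℝ} (hF : SideOk PP tKF tL pcF x) (hq : InQ 1 Y) (a : 59 / 64 < Y) (b : Y < 31 / 32)
    (t0 : 0 < (w3W true).v Y - cv1m.v Y) (t1 : 0 < X - cv1m.v Y)
    (hX : X ≤ (w3W true).v Y) :
    (pcF 1).L.v X Y x = (w3Q true kcg).v Y x + sX_Bp.v X Y x * (X - (w3W true).v Y) :=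
by
  have h0 := (gL_1_1 hF hq)
  rw [nW_q1, nX_q1 a b (by linarith) (by linarith)] at h0
  exact lw0 h0 t0 hX t1
theorem sDBp {X Y x : ℝ} (hF : SideOk PP tKF tL pcF x) (hN : SideOk PP tKN tL pcN x) (hm : mun 3 x ≠ 0) (hq : InQ 1 Y) (a : 59 / 64 < Y) (b : Y < 31 / 32)
    (t0 : 0 < (w3W true).v Y - cv1m.v Y) (t1 : 0 < X - cv1m.v Y)
    (hX : X ≤ (w3W true).v Y) :
    ((pcN 1).K.v X Y x - (1 + mun 3 x * cR x) * (pcF 1).K.v X Y x) / mun 3 x = (w3D true 1 kcg).v Y x + sD_Bp.v X Y x * (X - (w3W true).v Y) :=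
by
  have h0 := (gD_1_1 hF hN hm hq)
  rw [nW_q1, nD_q1 a b (by linarith) (by linarith)] at h0
  exact lw0 h0 t0 hX t1
theorem sKBpk1 {X Y x : ℝ} (hF : SideOk PP tKF tL pcF x) (hq : InQ 1 Y) (a : 59 / 64 < Y) (b : Y < 31 / 32)
    (t0 : 0 < (w3W true).v Y - cv1m.v Y) (t1 : 0 < X - cv1m.v Y)
    (hX : X ≤ (w3W true).v Y) :
    (pcF 1).K.v X Y x = (w3K true 1 kcg).v Y x + sK_Bpk1.v X Y x * (X - (w3W true).v Y) :=
by
  have h0 := (gK_1_1 hF hq)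
  rw [nW_q1, nK_q1 a b (by linarith) (by linarith)] at h0
  exact lw0 h0 t0 hX t1
theorem sLBpk1 {X Y x : ℝ} (hF : SideOk PP tKF tL pcF x) (hq : InQ 1 Y) (a : 59 / 64 < Y) (b : Y < 31 / 32)
    (t0 : 0 < (w3W true).v Y - cv1m.v Y) (t1 : 0 < X - cv1m.v Y)
    (hX : X ≤ (w3W true).v Y) :
    (pcF 1).L.v X Y x = (w3Q true kcg).v Y x + sX_Bpk1.v X Y x * (X - (w3W true).v Y) :=
by
  have h0 := (gL_1_1 hF hq)
  rw [nW_q1, nX_q1 a b (by linarith) (by linarith)] at h0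
  exact lw0 h0 t0 hX t1
theorem sDBpk1 {X Y x : ℝ} (hF : SideOk PP tKF tL pcF x) (hN : SideOk PP tKN tL pcN x) (hm : mun 3 x ≠ 0) (hq : InQ 1 Y) (a : 59 / 64 < Y) (b : Y < 31 / 32)
    (t0 : 0 < (w3W true).v Y - cv1m.v Y) (t1 : 0 < X - cv1m.v Y)
    (hX : X ≤ (w3W true).v Y) :
    ((pcN 1).K.v X Y x - (1 + mun 3 x * cR x) * (pcF 1).K.v X Y x) / mun 3 x = (w3D true 1 kcg).v Y x + sD_Bpk1.v X Y x * (X - (w3W true).v Y) :=
by
  have h0 := (gD_1_1 hF hN hm hq)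
  rw [nW_q1, nD_q1 a b (by linarith) (by linarith)] at h0
  exact lw0 h0 t0 hX t1
theorem sKBpk2 {X Y x : ℝ} (hF : SideOk PP tKF tL pcF x) (hq : InQ 1 Y) (a : 59 / 64 < Y) (b : Y < 31 / 32)
    (t0 : 0 < (w3W true).v Y - cv1m.v Y) (t1 : 0 < X - cv1m.v Y)
    (hX : X ≤ (w3W true).v Y) :
    (pcF 1).K.v X Y x = (w3K true 1 kcg).v Y x + sK_Bpk2.v X Y x * (X - (w3W true).v Y) :=
by
  have h0 := (gK_1_1 hF hq)
  rw [nW_q1, nK_q1 a b (by linarith) (by linarith)] at h0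
  exact lw0 h0 t0 hX t1
theorem sLBpk2 {X Y x : ℝ} (hF : SideOk PP tKF tL pcF x) (hq : InQ 1 Y) (a : 59 / 64 < Y) (b : Y < 31 / 32)
    (t0 : 0 < (w3W true).v Y - cv1m.v Y) (t1 : 0 < X - cv1m.v Y)
    (hX : X ≤ (w3W true).v Y) :
    (pcF 1).L.v X Y x = (w3Q true kcg).v Y x + sX_Bpk2.v X Y x * (X - (w3W true).v Y) :=
by
  have h0 := (gL_1_1 hF hq)
  rw [nW_q1, nX_q1 a b (by linarith) (by linarith)] at h0
  exact lw0 h0 t0 hX t1
theorem sDBpk2 {X Y x : ℝ} (hF : SideOk PP tKF tL pcF x) (hN : SideOk PP tKN tL pcN x) (hm : mun 3 x ≠ 0) (hq : InQ 1 Y) (a : 59 / 64 < Y) (b : Y < 31 / 32)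
    (t0 : 0 < (w3W true).v Y - cv1m.v Y) (t1 : 0 < X - cv1m.v Y)
    (hX : X ≤ (w3W true).v Y) :
    ((pcN 1).K.v X Y x - (1 + mun 3 x * cR x) * (pcF 1).K.v X Y x) / mun 3 x = (w3D true 1 kcg).v Y x + sD_Bpk2.v X Y x * (X - (w3W true).v Y) :=
by
  have h0 := (gD_1_1 hF hN hm hq)
  rw [nW_q1, nD_q1 a b (by linarith) (by linarith)] at h0
  exact lw0 h0 t0 hX t1
theorem sKBm {X Y x : ℝ} (hF : SideOk PP tKF tL pcF x) (hq : InQ 1 Y) (a : 59 / 64 < Y) (b : Y < 31 / 32)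
    (t0 : 0 < cv3m.v Y - (w3W true).v Y) (t1 : X ≤ c3g.v Y)
    (hX : (w3W true).v Y ≤ X) :
    (pcF 1).K.v X Y x = (w3K true 1 kcg).v Y x + sK_Bm.v X Y x * (X - (w3W true).v Y) :=
by
  have h0 := (gK_1_2 hF hq)
  rw [nW_q1, nK_q1 a b (by linarith) (by linarith)] at h0
  exact rz1 h0 (gK_1_3 hF hq) t0 hX t1
theorem sLBm {X Y x : ℝ} (hF : SideOk PP tKF tL pcF x) (hq : InQ 1 Y) (a : 59 / 64 < Y) (b : Y < 31 / 32)
    (t0 : 0 < cv3m.v Y - (w3W true).v Y) (t1 : X ≤ c3g.v Y)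
    (hX : (w3W true).v Y ≤ X) :
    (pcF 1).L.v X Y x = (w3Q true kcg).v Y x + sX_Bm.v X Y x * (X - (w3W true).v Y) :=
by
  have h0 := (gL_1_2 hF hq)
  rw [nW_q1, nX_q1 a b (by linarith) (by linarith)] at h0
  exact rz1 h0 (gL_1_3 hF hq) t0 hX t1
theorem sDBm {X Y x : ℝ} (hF : SideOk PP tKF tL pcF x) (hN : SideOk PP tKN tL pcN x) (hm : mun 3 x ≠ 0) (hq : InQ 1 Y) (a : 59 / 64 < Y) (b : Y < 31 / 32)
    (t0 : 0 < cv3m.v Y - (w3W true).v Y) (t1 : X ≤ c3g.v Y)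
    (hX : (w3W true).v Y ≤ X) :
    ((pcN 1).K.v X Y x - (1 + mun 3 x * cR x) * (pcF 1).K.v X Y x) / mun 3 x = (w3D true 1 kcg).v Y x + sD_Bm.v X Y x * (X - (w3W true).v Y) :=
by
  have h0 := (gD_1_2 hF hN hm hq)
  rw [nW_q1, nD_q1 a b (by linarith) (by linarith)] at h0
  exact rz1 h0 (gD_1_3 hF hN hm hq) t0 hX t1
theorem rX {x : ℝ} (x0 : 3 / 64 ≤ x) (x1 : x ≤ 1 / 16) : ((50331648 : ℕ) : ℝ) / S ≤ x ∧ x ≤ (((50331648 : ℕ) : ℝ) + (16777216 : ℕ)) / S := by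
  unfold S
  push_cast
  constructor <;> linarith
theorem xr {x : ℝ} (hx : ((50331648 : ℕ) : ℝ) / S ≤ x) (hx' : x ≤ (((50331648 : ℕ) : ℝ) + (16777216 : ℕ)) / S) : 3 / 64 ≤ x ∧ x ≤ 1 / 16 := by
  unfold S at hx hx'
  push_cast at hx hx'
  constructor <;> linarith
theorem w_Ap {u b x : ℝ} (x0 : 3 / 64 ≤ x) (x1 : x ≤ 1 / 16) (h1 : |u| < 3 / 128) (h2 : |b| < 1 / 128) (h3 : |u + b| < 3 / 128) (wy : 1 / 32 < x + u ∧ x + u < 5 / 64) (wz : 1 / 32 < x + u + b ∧ x + u + b < 5 / 64) (hb : 0 ≤ b) : (w3W false).v (1 + (x + u + b)) ≤ c1n (x + u) - sp.xs.v u b x := by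
  obtain ⟨u1, u2⟩ := abs_lt.1 h1
  obtain ⟨b1, b2⟩ := abs_lt.1 h2
  obtain ⟨v1, v2⟩ := abs_lt.1 h3
  obtain ⟨y1, y2⟩ := wy
  obtain ⟨z1, z2⟩ := wz
  have cm1 : c1n (1 + b) ≤ 1 / 2 := c1n_half hb
  have cm2 : c1n (x + u) ≥ c1n (x + u + b) := c1n_le' (by linarith) (by linarith)
  rw [w3W_A]
  show c1n (x + u + b) - 1 / 2 ≤ c1n (x + u) - c1n (1 + b)
  linarith
theorem zKAp {u b x : ℝ} (hF : SideOk PP tKF tL pcF x) (x0 : 3 / 64 ≤ x) (x1 : x ≤ 1 / 16) (h1 : |u| < 3 / 128) (h2 : |b| < 1 / 128) (h3 : |u + b| < 3 / 128) (wy : 1 / 32 < x + u ∧ x + u < 5 / 64) (wz : 1 / 32 < x + u + b ∧ x + u + b < 5 / 64) (hb : 0 ≤ b) (q3 : InQ 2 (1 + (x + u + b)))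
    (hc : ∀ G ∈ cx_Ap, 0 < G.v u b x) : (pcF 2).K.v (c1n (x + u) - sp.xs.v u b x) (1 + (x + u + b)) x =
    ((c1n (x + u + b) - 1 / 2) * cG (x + u + b) + kcg.v (psn (x + u + b)) x) * (x + u + b) + sK_Ap.v (c1n (x + u) - sp.xs.v u b x) (1 + (x + u + b)) x * (c1n (x + u) - sp.xs.v u b x - (c1n (x + u + b) - 1 / 2)) := by
  have hw := w_Ap x0 x1 h1 h2 h3 wy wz hb
  obtain ⟨u1, u2⟩ := abs_lt.1 h1
  obtain ⟨b1, b2⟩ := abs_lt.1 h2
  obtain ⟨v1, v2⟩ := abs_lt.1 h3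
  obtain ⟨y1, y2⟩ := wy
  obtain ⟨z1, z2⟩ := wz
  have c0 : 0 < (tCX cv3p).v (c1n (x + u) - sp.xs.v u b x) (1 + (x + u + b)) x := hc (f3A sp.xs (tCX cv3p)) (by unfold cx_Ap; simp only [List.mem_cons, true_or, or_true])
  refine (sKAp hF q3 (by linarith) (by linarith) c0 hw).trans ?_
  rw [w3K_A, w3W_A]
  push_cast
  ring
theorem zLAp {u b x : ℝ} (hF : SideOk PP tKF tL pcF x) (x0 : 3 / 64 ≤ x) (x1 : x ≤ 1 / 16) (h1 : |u| < 3 / 128) (h2 : |b| < 1 / 128) (h3 : |u + b| < 3 / 128) (wy : 1 / 32 < x + u ∧ x + u < 5 / 64) (wz : 1 / 32 < x + u + b ∧ x + u + b < 5 / 64) (hb : 0 ≤ b) (q3 : InQ 2 (1 + (x + u + b)))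
    (hc : ∀ G ∈ cx_Ap, 0 < G.v u b x) : (pcF 2).L.v (c1n (x + u) - sp.xs.v u b x) (1 + (x + u + b)) x =
    cQ x (x + u + b) (kcg.v (psn (x + u + b)) x) + sX_Ap.v (c1n (x + u) - sp.xs.v u b x) (1 + (x + u + b)) x * (c1n (x + u) - sp.xs.v u b x - (c1n (x + u + b) - 1 / 2)) := by
  have hw := w_Ap x0 x1 h1 h2 h3 wy wz hb
  obtain ⟨u1, u2⟩ := abs_lt.1 h1
  obtain ⟨b1, b2⟩ := abs_lt.1 h2
  obtain ⟨v1, v2⟩ := abs_lt.1 h3
  obtain ⟨y1, y2⟩ := wy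
  obtain ⟨z1, z2⟩ := wz
  have c0 : 0 < (tCX cv3p).v (c1n (x + u) - sp.xs.v u b x) (1 + (x + u + b)) x := hc (f3A sp.xs (tCX cv3p)) (by unfold cx_Ap; simp only [List.mem_cons, true_or, or_true])
  refine (sLAp hF q3 (by linarith) (by linarith) c0 hw).trans ?_
  rw [w3Q_A, w3W_A]
theorem zDAp {u b x : ℝ} (hF : SideOk PP tKF tL pcF x) (hN : SideOk PP tKN tL pcN x) (x0 : 3 / 64 ≤ x) (x1 : x ≤ 1 / 16) (h1 : |u| < 3 / 128) (h2 : |b| < 1 / 128) (h3 : |u + b| < 3 / 128) (wy : 1 / 32 < x + u ∧ x + u < 5 / 64) (wz : 1 / 32 < x + u + b ∧ x + u + b < 5 / 64) (hb : 0 ≤ b) (q3 : InQ 2 (1 + (x + u + b)))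
    (hc : ∀ G ∈ cx_Ap, 0 < G.v u b x) : ((pcN 2).K.v (c1n (x + u) - sp.xs.v u b x) (1 + (x + u + b)) x - (1 + mun 3 x * cR x) * (pcF 2).K.v (c1n (x + u) - sp.xs.v u b x) (1 + (x + u + b)) x) / mun 3 x =
    (cP (x + u + b) - 1 / 2 * cD (x + u + b) - (cR (x + u + b) + 2 * c1n (x + u + b) - 1) * kcg.v (psn (x + u + b)) x) * (x + u + b) + sD_Ap.v (c1n (x + u) - sp.xs.v u b x) (1 + (x + u + b)) x * (c1n (x + u) - sp.xs.v u b x - (c1n (x + u + b) - 1 / 2)) := by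
  have hw := w_Ap x0 x1 h1 h2 h3 wy wz hb
  obtain ⟨u1, u2⟩ := abs_lt.1 h1
  obtain ⟨b1, b2⟩ := abs_lt.1 h2
  obtain ⟨v1, v2⟩ := abs_lt.1 h3
  obtain ⟨y1, y2⟩ := wy
  obtain ⟨z1, z2⟩ := wz
  have c0 : 0 < (tCX cv3p).v (c1n (x + u) - sp.xs.v u b x) (1 + (x + u + b)) x := hc (f3A sp.xs (tCX cv3p)) (by unfold cx_Ap; simp only [List.mem_cons, true_or, or_true])
  refine (sDAp hF hN (mun_ne x) q3 (by linarith) (by linarith) c0 hw).trans ?_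
  rw [w3D_A, w3W_A]
  push_cast
  ring
theorem fF_Ap {x u b κ : ℝ} (hF : SideOk PP tKF tL pcF x) (hκ : κ * h0 = ken x)
    (x0 : 3 / 64 ≤ x) (x1 : x ≤ 1 / 16) (h1 : |u| < 3 / 128) (h2 : |b| < 1 / 128) (h3 : |u + b| < 3 / 128) (wy : 1 / 32 < x + u ∧ x + u < 5 / 64) (wz : 1 / 32 < x + u + b ∧ x + u + b < 5 / 64) (F : FactsA PP 0 2 2 0 0 1 (-1) (x + u) (1 + b)) :
    StA (VF κ) PP tKF tL pcF 0 2 2 0 0 1 (-1) x (x + u) (1 + b) := by
  have qs := F.q2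
  have hs1 := F.k0 rfl
  obtain ⟨u1, u2⟩ := abs_lt.1 h1
  obtain ⟨b1, b2⟩ := abs_lt.1 h2
  obtain ⟨v1, v2⟩ := abs_lt.1 h3
  obtain ⟨y1, y2⟩ := wy
  obtain ⟨z1, z2⟩ := wz
  have hb : 0 ≤ b := by linarith [qs.1]
  have D : DomA u b x := ⟨by linarith, by linarith, by linarith, by linarith, by linarith, by linarith, by linarith, by linarith⟩
  have hY : x + u + (1 + b) = 1 + (x + u + b) := by ring
  have q3 : InQ 2 (1 + (x + u + b)) := hY ▸ F.q3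
  obtain ⟨p1, p2⟩ := psr (y := x + u) y1.le y2.le
  obtain ⟨p3, p4⟩ := psr (y := x + u + b) z1.le z2.le
  have hd := dqAp (dq_t x) hb (by linarith) (by linarith) (by linarith) (by linarith) p1 p2 p3 p4
  obtain ⟨r1, r2⟩ := rX x0 x1
  have K := Cht3.cert (ng := false) (r := 25165824) ct_0Ap (u := u) (b := b) (x := x) (by unfold S; norm_num; linarith) (by unfold S; norm_num; linarith) (by simp only [cond_true, cond_false]; linarith) (by simp only [cond_true, cond_false]; unfold S; norm_num; linarith) r1 r2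
  have t3 := t3A2 F.q3
  have hit : ((T_Ap.a true).at_ u b x).it * (x + u + b) = 1 := by
    show (x + u + b)⁻¹ * _ = _
    exact inv_mul_cancel₀ (ne_of_gt (by linarith))
  have hx : sp.xs.v u b x = 1 / 2 + b * sp.ws.v u b x := stP_x (by linarith) (by linarith)
  have hX : crv PP 0 2 (1 + b) = sp.xs.v u b x := crv0 2 (1 + b)
  have od : 1 ≤ qqn (c1n (x + u) - sp.xs.v u b x) (1 + (x + u + b)) ∧ qqn (c1n (x + u) - sp.xs.v u b x) (1 + (x + u + b)) ≤ 3 := by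
    have l1 := F.len1
    have l3 := F.len3
    have e : (1 : ℝ) * crv PP 0 0 (x + u) + -1 * crv PP 0 2 (1 + b) = c1n (x + u) - sp.xs.v u b x := by
      rw [hX, crv0]
      ring
    rw [e, hY] at l1 l3
    exact ⟨l1, l3⟩
  have hs : ∀ G ∈ sk_Ap, G.v u b x ≤ 0 := skPM (A := true) (v := 25165824) (u := u) (b := b) (x := x) (abs_le.2 ⟨by simp only [cond_true, cond_false]; unfold S; norm_num; linarith, by simp only [cond_true, cond_false]; unfold S; norm_num; linarith⟩)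
  have K3 : (∀ G ∈ cx_Ap, 0 < G.v u b x) → (pcF 2).K.v (c1n (x + u) - sp.xs.v u b x) (x + u + (1 + b)) x = ((c1n (x + u + b) - 1 / 2) * cG (x + u + b) + kcg.v (psn (x + u + b)) x) * (x + u + b) + sK_Ap.v (c1n (x + u) - sp.xs.v u b x) (1 + (x + u + b)) x * (c1n (x + u) - sp.xs.v u b x - (c1n (x + u + b) - 1 / 2)) := fun hc => by
    rw [hY]
    exact zKAp hF x0 x1 h1 h2 h3 ⟨y1, y2⟩ ⟨z1, z2⟩ hb q3 hc
  have L3 : (∀ G ∈ cx_Ap, 0 < G.v u b x) → (pcF 2).L.v (c1n (x + u) - sp.xs.v u b x) (x + u + (1 + b)) x = cQ x (x + u + b) (kcg.v (psn (x + u + b)) x) + sX_Ap.v (c1n (x + u) - sp.xs.v u b x) (1 + (x + u + b)) x * (c1n (x + u) - sp.xs.v u b x - (c1n (x + u + b) - 1 / 2)) := fun hc => by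
    rw [hY]
    exact zLAp hF x0 x1 h1 h2 h3 ⟨y1, y2⟩ ⟨z1, z2⟩ hb q3 hc
  exact farJAp (T := T_Ap) (sk := sk_Ap) (cx := cx_Ap) D hb hκ hd hit (t1_0 F.q1) t3 hx hX K hs (shK0 F.q1 y1.le y2.le) (spK u hb qs hs1 (by linarith)) K3 (shL0 F.q1 y1.le y2.le) (spL u hb qs hs1 (by linarith)) L3
theorem WmolF_A_022_00_0_p {x κ y y' : ℝ} (hF : SideOk PP tKF tL pcF x) (hκ : κ * h0 = ken x) (x0 : 3 / 64 ≤ x) (x1 : x ≤ 1 / 16)
    (F : FactsA PP 0 2 2 0 0 1 (-1) y y') (h1 : |y - x| < 3 / 128) (h2 : |y' - 1| < 1 / 128) (h3 : |y + y' - (1 + x)| < 3 / 128) (gy : 1 / 32 < y ∧ y < 5 / 64) (gz : 33 / 32 < y + y' ∧ y + y' < 69 / 64) :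
    StA (VF κ) PP tKF tL pcF 0 2 2 0 0 1 (-1) x y y' := by
  obtain ⟨u, rfl⟩ : ∃ u, y = x + u := ⟨y - x, by ring⟩
  obtain ⟨b, rfl⟩ : ∃ b, y' = 1 + b := ⟨y' - 1, by ring⟩
  rw [show x + u - x = u by ring] at h1
  rw [show 1 + b - 1 = b by ring] at h2
  rw [show x + u + (1 + b) - (1 + x) = u + b by ring] at h3
  have wy := gy
  have wz : 1 / 32 < x + u + b ∧ x + u + b < 5 / 64 := ⟨by linarith [gz.1], by linarith [gz.2]⟩
  exact fF_Ap hF hκ x0 x1 h1 h2 h3 wy wz F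
theorem molF_A_022_00_0 {κ x : ℝ} (hκ : κ * h0 = ken x) (hx : ((50331648 : ℕ) : ℝ) / S ≤ x) (hx' : x ≤ (((50331648 : ℕ) : ℝ) + (16777216 : ℕ)) / S) :
    AltA (VF κ) PP tKF tL pcF [⟨0, 0, 1, 25165824⟩, ⟨1, 1, 0, 8388608⟩, ⟨2, 1, 1, 25165824⟩, ⟨0, 0, 0, 83886080⟩, ⟨0, 1, 0, 1040187392⟩, ⟨2, 1, 0, 83886080⟩, ⟨2, 2, 0, 1040187392⟩] 0 2 2 0 0 (sgb true) (sgb false) x := by
  obtain ⟨x0, x1⟩ := xr hx hx'
  intro y y' F h
  obtain ⟨h1, h2, h3, gy, gz⟩ := winA h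
  exact WmolF_A_022_00_0_p (sideF hx hx') hκ x0 x1 F (h1.trans_eq (by norm_num)) (h2.trans_eq (by norm_num)) (h3.trans_eq (by norm_num)) ⟨lt_of_eq_of_lt (by norm_num) gy.1, lt_of_lt_of_eq gy.2 (by norm_num)⟩ ⟨lt_of_eq_of_lt (by norm_num) gz.1, lt_of_lt_of_eq gz.2 (by norm_num)⟩
theorem WmolF_A_202_00_1_p {x κ y y' : ℝ} (hF : SideOk PP tKF tL pcF x) (hκ : κ * h0 = ken x) (x0 : 3 / 64 ≤ x) (x1 : x ≤ 1 / 16)
    (F : FactsA PP 2 0 2 0 0 1 (-1) y y') (h2 : |y - 1| < 1 / 128) (h1 : |y' - x| < 3 / 128) (h3 : |y + y' - (1 + x)| < 3 / 128) (gy : 1 / 32 < y' ∧ y' < 5 / 64) (gz : 33 / 32 < y + y' ∧ y + y' < 69 / 64) :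
    StA (VF κ) PP tKF tL pcF 2 0 2 0 0 1 (-1) x y y' := by
  have F2 := factsA_mirror F
  rw [neg_neg] at F2
  have h3' := h3
  rw [add_comm y y'] at h3'
  have gz' := gz
  rw [add_comm y y'] at gz'
  have H := WmolF_A_022_00_0_p hF hκ x0 x1 F2 h1 h2 h3' gy gz'
  obtain ⟨u1, u2⟩ := abs_lt.1 h1
  obtain ⟨b1, b2⟩ := abs_lt.1 h2
  have hX : (1 : ℝ) * crv PP 0 2 y + -1 * crv PP 0 0 y' ≠ 0 := by
    rw [crv0, crv0]
    have := c1n_lt (y := y') (z := y) (by linarith) (by linarith) (by nlinarith)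
    intro h
    linarith
  refine StA.mirF hF F hX ?_
  rw [neg_neg]
  exact H
theorem molF_A_202_00_1 {κ x : ℝ} (hκ : κ * h0 = ken x) (hx : ((50331648 : ℕ) : ℝ) / S ≤ x) (hx' : x ≤ (((50331648 : ℕ) : ℝ) + (16777216 : ℕ)) / S) :
    AltA (VF κ) PP tKF tL pcF [⟨0, 1, 0, 8388608⟩, ⟨1, 0, 1, 25165824⟩, ⟨2, 1, 1, 25165824⟩, ⟨1, 0, 0, 83886080⟩, ⟨1, 1, 0, 1040187392⟩, ⟨2, 1, 0, 83886080⟩, ⟨2, 2, 0, 1040187392⟩] 2 0 2 0 0 (sgb true) (sgb false) x := by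
  obtain ⟨x0, x1⟩ := xr hx hx'
  intro y y' F h
  obtain ⟨h2, h1, h3, gy, gz⟩ := winM h
  exact WmolF_A_202_00_1_p (sideF hx hx') hκ x0 x1 F (h2.trans_eq (by norm_num)) (h1.trans_eq (by norm_num)) (h3.trans_eq (by norm_num)) ⟨lt_of_eq_of_lt (by norm_num) gy.1, lt_of_lt_of_eq gy.2 (by norm_num)⟩ ⟨lt_of_eq_of_lt (by norm_num) gz.1, lt_of_lt_of_eq gz.2 (by norm_num)⟩
theorem fN_Ap {x u b κ : ℝ} (hF : SideOk PP tKF tL pcF x) (hN : SideOk PP tKN tL pcN x) (hκ : κ * h0 = ken x)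
    (x0 : 3 / 64 ≤ x) (x1 : x ≤ 1 / 16) (h1 : |u| < 3 / 128) (h2 : |b| < 1 / 128) (h3 : |u + b| < 3 / 128) (wy : 1 / 32 < x + u ∧ x + u < 5 / 64) (wz : 1 / 32 < x + u + b ∧ x + u + b < 5 / 64) (F : FactsA PP 0 2 2 0 0 1 (-1) (x + u) (1 + b)) :
    StA (VN 3 κ) PP tKN tL pcN 0 2 2 0 0 1 (-1) x (x + u) (1 + b) := by
  have qs := F.q2
  have hs1 := F.k0 rfl
  obtain ⟨u1, u2⟩ := abs_lt.1 h1
  obtain ⟨b1, b2⟩ := abs_lt.1 h2
  obtain ⟨v1, v2⟩ := abs_lt.1 h3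
  obtain ⟨y1, y2⟩ := wy
  obtain ⟨z1, z2⟩ := wz
  have hb : 0 ≤ b := by linarith [qs.1]
  have D : DomA u b x := ⟨by linarith, by linarith, by linarith, by linarith, by linarith, by linarith, by linarith, by linarith⟩
  have hY : x + u + (1 + b) = 1 + (x + u + b) := by ring
  have q3 : InQ 2 (1 + (x + u + b)) := hY ▸ F.q3
  obtain ⟨p1, p2⟩ := psr (y := x + u) y1.le y2.le
  obtain ⟨p3, p4⟩ := psr (y := x + u + b) z1.le z2.le
  have hd := dqAp (dq_t x) hb (by linarith) (by linarith) (by linarith) (by linarith) p1 p2 p3 p4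
  obtain ⟨r1, r2⟩ := rX x0 x1
  have K := Cht3.cert (ng := false) (r := 25165824) ct_1Ap (u := u) (b := b) (x := x) (by unfold S; norm_num; linarith) (by unfold S; norm_num; linarith) (by simp only [cond_true, cond_false]; linarith) (by simp only [cond_true, cond_false]; unfold S; norm_num; linarith) r1 r2
  have t3 := t3A2 F.q3
  have hit : ((T_Ap.a true).at_ u b x).it * (x + u + b) = 1 := by
    show (x + u + b)⁻¹ * _ = _
    exact inv_mul_cancel₀ (ne_of_gt (by linarith))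
  have hx : sp.xs.v u b x = 1 / 2 + b * sp.ws.v u b x := stP_x (by linarith) (by linarith)
  have hX : crv PP 0 2 (1 + b) = sp.xs.v u b x := crv0 2 (1 + b)
  have od : 1 ≤ qqn (c1n (x + u) - sp.xs.v u b x) (1 + (x + u + b)) ∧ qqn (c1n (x + u) - sp.xs.v u b x) (1 + (x + u + b)) ≤ 3 := by
    have l1 := F.len1
    have l3 := F.len3
    have e : (1 : ℝ) * crv PP 0 0 (x + u) + -1 * crv PP 0 2 (1 + b) = c1n (x + u) - sp.xs.v u b x := by
      rw [hX, crv0]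
      ring
    rw [e, hY] at l1 l3
    exact ⟨l1, l3⟩
  have hs : ∀ G ∈ sk_Ap, G.v u b x ≤ 0 := skPM (A := true) (v := 25165824) (u := u) (b := b) (x := x) (abs_le.2 ⟨by simp only [cond_true, cond_false]; unfold S; norm_num; linarith, by simp only [cond_true, cond_false]; unfold S; norm_num; linarith⟩)
  have K3 : (∀ G ∈ cx_Ap, 0 < G.v u b x) → (pcF 2).K.v (c1n (x + u) - sp.xs.v u b x) (x + u + (1 + b)) x = ((c1n (x + u + b) - 1 / 2) * cG (x + u + b) + kcg.v (psn (x + u + b)) x) * (x + u + b) + sK_Ap.v (c1n (x + u) - sp.xs.v u b x) (1 + (x + u + b)) x * (c1n (x + u) - sp.xs.v u b x - (c1n (x + u + b) - 1 / 2)) := fun hc => by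
    rw [hY]
    exact zKAp hF x0 x1 h1 h2 h3 ⟨y1, y2⟩ ⟨z1, z2⟩ hb q3 hc
  have L3 : (∀ G ∈ cx_Ap, 0 < G.v u b x) → (pcF 2).L.v (c1n (x + u) - sp.xs.v u b x) (x + u + (1 + b)) x = cQ x (x + u + b) (kcg.v (psn (x + u + b)) x) + sX_Ap.v (c1n (x + u) - sp.xs.v u b x) (1 + (x + u + b)) x * (c1n (x + u) - sp.xs.v u b x - (c1n (x + u + b) - 1 / 2)) := fun hc => by
    rw [hY]
    exact zLAp hF x0 x1 h1 h2 h3 ⟨y1, y2⟩ ⟨z1, z2⟩ hb q3 hc
  have D3 : (∀ G ∈ cx_Ap, 0 < G.v u b x) → ((pcN 2).K.v (c1n (x + u) - sp.xs.v u b x) (x + u + (1 + b)) x - (1 + mun 3 x * cR x) * (pcF 2).K.v (c1n (x + u) - sp.xs.v u b x) (x + u + (1 + b)) x) / mun 3 x = (cP (x + u + b) - 1 / 2 * cD (x + u + b) - (cR (x + u + b) + 2 * c1n (x + u + b) - 1) * kcg.v (psn (x + u + b)) x) * (x + u + b) + sD_Ap.v (c1n (x + u) - sp.xs.v u b x) (1 + (x + u + b)) x * (c1n (x + u) - sp.xs.v u b x - (c1n (x + u +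 b) - 1 / 2)) := fun hc => by
    rw [hY]
    exact zDAp hF hN x0 x1 h1 h2 h3 ⟨y1, y2⟩ ⟨z1, z2⟩ hb q3 hc
  exact nearJAp (T := T_Ap) (sk := sk_Ap) (cx := cx_Ap) D hb hκ hd hit (t1_0 F.q1) t3 hx hX K hs (kcb y1.le y2.le x0 x1) (shN0 F.q1 y1.le y2.le) (spN hb qs hs1) (spK u hb qs hs1 (by linarith)) (spD u hb hs1 (by linarith)) (fun _ => div_mun) K3 D3 (shL0 F.q1 y1.le y2.le) (spL u hb qs hs1 (by linarith)) L3
theorem WmolN_A_022_00_0_p {x κ y y' : ℝ} (hF : SideOk PP tKF tL pcF x) (hN : SideOk PP tKN tL pcN x) (hκ : κ * h0 = ken x) (x0 : 3 / 64 ≤ x) (x1 : x ≤ 1 / 16)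
    (F : FactsA PP 0 2 2 0 0 1 (-1) y y') (h1 : |y - x| < 3 / 128) (h2 : |y' - 1| < 1 / 128) (h3 : |y + y' - (1 + x)| < 3 / 128) (gy : 1 / 32 < y ∧ y < 5 / 64) (gz : 33 / 32 < y + y' ∧ y + y' < 69 / 64) :
    StA (VN 3 κ) PP tKN tL pcN 0 2 2 0 0 1 (-1) x y y' := by
  obtain ⟨u, rfl⟩ : ∃ u, y = x + u := ⟨y - x, by ring⟩
  obtain ⟨b, rfl⟩ : ∃ b, y' = 1 + b := ⟨y' - 1, by ring⟩
  rw [show x + u - x = u by ring] at h1
  rw [show 1 + b - 1 = b by ring] at h2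
  rw [show x + u + (1 + b) - (1 + x) = u + b by ring] at h3
  have wy := gy
  have wz : 1 / 32 < x + u + b ∧ x + u + b < 5 / 64 := ⟨by linarith [gz.1], by linarith [gz.2]⟩
  exact fN_Ap hF hN hκ x0 x1 h1 h2 h3 wy wz F
theorem molN_A_022_00_0 {κ x : ℝ} (hκ : κ * h0 = ken x) (hx : ((50331648 : ℕ) : ℝ) / S ≤ x) (hx' : x ≤ (((50331648 : ℕ) : ℝ) + (16777216 : ℕ)) / S) :
    AltA (VN 3 κ) PP tKN tL pcN [⟨0, 0, 1, 25165824⟩, ⟨1, 1, 0, 8388608⟩, ⟨2, 1, 1, 25165824⟩, ⟨0, 0, 0, 83886080⟩, ⟨0, 1, 0, 1040187392⟩, ⟨2, 1, 0, 83886080⟩, ⟨2, 2, 0, 1040187392⟩] 0 2 2 0 0 (sgb true) (sgb false) x := by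
  obtain ⟨x0, x1⟩ := xr hx hx'
  intro y y' F h
  obtain ⟨h1, h2, h3, gy, gz⟩ := winA h
  exact WmolN_A_022_00_0_p (sideF hx hx') (sideN hx hx') hκ x0 x1 F (h1.trans_eq (by norm_num)) (h2.trans_eq (by norm_num)) (h3.trans_eq (by norm_num)) ⟨lt_of_eq_of_lt (by norm_num) gy.1, lt_of_lt_of_eq gy.2 (by norm_num)⟩ ⟨lt_of_eq_of_lt (by norm_num) gz.1, lt_of_lt_of_eq gz.2 (by norm_num)⟩
theorem WmolN_A_202_00_1_p {x κ y y' : ℝ} (hF : SideOk PP tKF tL pcF x) (hN : SideOk PP tKN tL pcN x) (hκ : κ * h0 = ken x) (x0 : 3 / 64 ≤ x) (x1 : x ≤ 1 / 16)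
    (F : FactsA PP 2 0 2 0 0 1 (-1) y y') (h2 : |y - 1| < 1 / 128) (h1 : |y' - x| < 3 / 128) (h3 : |y + y' - (1 + x)| < 3 / 128) (gy : 1 / 32 < y' ∧ y' < 5 / 64) (gz : 33 / 32 < y + y' ∧ y + y' < 69 / 64) :
    StA (VN 3 κ) PP tKN tL pcN 2 0 2 0 0 1 (-1) x y y' := by
  have F2 := factsA_mirror F
  rw [neg_neg] at F2
  have h3' := h3
  rw [add_comm y y'] at h3'
  have gz' := gz
  rw [add_comm y y'] at gz'
  have H := WmolN_A_022_00_0_p hF hN hκ x0 x1 F2 h1 h2 h3' gy gz'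
  obtain ⟨u1, u2⟩ := abs_lt.1 h1
  obtain ⟨b1, b2⟩ := abs_lt.1 h2
  have hX : (1 : ℝ) * crv PP 0 2 y + -1 * crv PP 0 0 y' ≠ 0 := by
    rw [crv0, crv0]
    have := c1n_lt (y := y') (z := y) (by linarith) (by linarith) (by nlinarith)
    intro h
    linarith
  refine StA.mirN hN F hX ?_
  rw [neg_neg]
  exact H
theorem molN_A_202_00_1 {κ x : ℝ} (hκ : κ * h0 = ken x) (hx : ((50331648 : ℕ) : ℝ) / S ≤ x) (hx' : x ≤ (((50331648 : ℕ) : ℝ) + (16777216 : ℕ)) / S) :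
    AltA (VN 3 κ) PP tKN tL pcN [⟨0, 1, 0, 8388608⟩, ⟨1, 0, 1, 25165824⟩, ⟨2, 1, 1, 25165824⟩, ⟨1, 0, 0, 83886080⟩, ⟨1, 1, 0, 1040187392⟩, ⟨2, 1, 0, 83886080⟩, ⟨2, 2, 0, 1040187392⟩] 2 0 2 0 0 (sgb true) (sgb false) x := by
  obtain ⟨x0, x1⟩ := xr hx hx'
  intro y y' F h
  obtain ⟨h2, h1, h3, gy, gz⟩ := winM h
  exact WmolN_A_202_00_1_p (sideF hx hx') (sideN hx hx') hκ x0 x1 F (h2.trans_eq (by norm_num)) (h1.trans_eq (by norm_num)) (h3.trans_eq (by norm_num)) ⟨lt_of_eq_of_lt (by norm_num) gy.1, lt_of_lt_of_eq gy.2 (by norm_num)⟩ ⟨lt_of_eq_of_lt (by norm_num) gz.1, lt_of_lt_of_eq gz.2 (by norm_num)⟩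
theorem w_Apk1 {u b x : ℝ} (x0 : 3 / 64 ≤ x) (x1 : x ≤ 1 / 16) (h1 : |u| < 1 / 32) (h2 : |b| < 1 / 64) (h3 : |u + b| < 1 / 32) (wy : 1 / 32 < x + u ∧ x + u < 5 / 64) (wz : 1 / 32 < x + u + b ∧ x + u + b < 5 / 64) (hb : 0 ≤ b) : (w3W false).v (1 + (x + u + b)) ≤ c1n (x + u) - sk1.xs.v u b x := by
  obtain ⟨u1, u2⟩ := abs_lt.1 h1
  obtain ⟨b1, b2⟩ := abs_lt.1 h2
  obtain ⟨v1, v2⟩ := abs_lt.1 h3
  obtain ⟨y1, y2⟩ := wy
  obtain ⟨z1, z2⟩ := wz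
  have cm1 : (fXS 2 3 5).v u b x ≤ 1 / 2 := fXS_le (by norm_num) hb
  have cm2 : c1n (x + u) ≥ c1n (x + u + b) := c1n_le' (by linarith) (by linarith)
  rw [w3W_A]
  show c1n (x + u + b) - 1 / 2 ≤ c1n (x + u) - (fXS 2 3 5).v u b x
  linarith
theorem zKApk1 {u b x : ℝ} (hF : SideOk PP tKF tL pcF x) (x0 : 3 / 64 ≤ x) (x1 : x ≤ 1 / 16) (h1 : |u| < 1 / 32) (h2 : |b| < 1 / 64) (h3 : |u + b| < 1 / 32) (wy : 1 / 32 < x + u ∧ x + u < 5 / 64) (wz : 1 / 32 < x + u + b ∧ x + u + b < 5 / 64) (hb : 0 ≤ b) (q3 : InQ 2 (1 + (x + u + b)))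
    (hc : ∀ G ∈ cx_Apk1, 0 < G.v u b x) : (pcF 2).K.v (c1n (x + u) - sk1.xs.v u b x) (1 + (x + u + b)) x =
    ((c1n (x + u + b) - 1 / 2) * cG (x + u + b) + kcg.v (psn (x + u + b)) x) * (x + u + b) + sK_Apk1.v (c1n (x + u) - sk1.xs.v u b x) (1 + (x + u + b)) x * (c1n (x + u) - sk1.xs.v u b x - (c1n (x + u + b) - 1 / 2)) := by
  have hw := w_Apk1 x0 x1 h1 h2 h3 wy wz hb
  obtain ⟨u1, u2⟩ := abs_lt.1 h1
  obtain ⟨b1, b2⟩ := abs_lt.1 h2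
  obtain ⟨v1, v2⟩ := abs_lt.1 h3
  obtain ⟨y1, y2⟩ := wy
  obtain ⟨z1, z2⟩ := wz
  have c0 : 0 < (tCX cv3p).v (c1n (x + u) - sk1.xs.v u b x) (1 + (x + u + b)) x := hc (f3A sk1.xs (tCX cv3p)) (by unfold cx_Apk1; simp only [List.mem_cons, true_or, or_true])
  refine (sKApk1 hF q3 (by linarith) (by linarith) c0 hw).trans ?_
  rw [w3K_A, w3W_A]
  push_cast
  ring
theorem zLApk1 {u b x : ℝ} (hF : SideOk PP tKF tL pcF x) (x0 : 3 / 64 ≤ x) (x1 : x ≤ 1 / 16) (h1 : |u| < 1 / 32) (h2 : |b| < 1 / 64) (h3 : |u + b| < 1 / 32) (wy : 1 / 32 < x + u ∧ x + u < 5 / 64) (wz : 1 / 32 < x + u + b ∧ x + u + b < 5 / 64) (hb : 0 ≤ b) (q3 : InQ 2 (1 + (x + u + b)))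
    (hc : ∀ G ∈ cx_Apk1, 0 < G.v u b x) : (pcF 2).L.v (c1n (x + u) - sk1.xs.v u b x) (1 + (x + u + b)) x =
    cQ x (x + u + b) (kcg.v (psn (x + u + b)) x) + sX_Apk1.v (c1n (x + u) - sk1.xs.v u b x) (1 + (x + u + b)) x * (c1n (x + u) - sk1.xs.v u b x - (c1n (x + u + b) - 1 / 2)) := by
  have hw := w_Apk1 x0 x1 h1 h2 h3 wy wz hb
  obtain ⟨u1, u2⟩ := abs_lt.1 h1
  obtain ⟨b1, b2⟩ := abs_lt.1 h2
  obtain ⟨v1, v2⟩ := abs_lt.1 h3
  obtain ⟨y1, y2⟩ := wy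
  obtain ⟨z1, z2⟩ := wz
  have c0 : 0 < (tCX cv3p).v (c1n (x + u) - sk1.xs.v u b x) (1 + (x + u + b)) x := hc (f3A sk1.xs (tCX cv3p)) (by unfold cx_Apk1; simp only [List.mem_cons, true_or, or_true])
  refine (sLApk1 hF q3 (by linarith) (by linarith) c0 hw).trans ?_
  rw [w3Q_A, w3W_A]
theorem zDApk1 {u b x : ℝ} (hF : SideOk PP tKF tL pcF x) (hN : SideOk PP tKN tL pcN x) (x0 : 3 / 64 ≤ x) (x1 : x ≤ 1 / 16) (h1 : |u| < 1 / 32) (h2 : |b| < 1 / 64) (h3 : |u + b| < 1 / 32) (wy : 1 / 32 < x + u ∧ x + u < 5 / 64) (wz : 1 / 32 < x + u + b ∧ x + u + b < 5 / 64) (hb : 0 ≤ b) (q3 : InQ 2 (1 + (x + u + b)))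
    (hc : ∀ G ∈ cx_Apk1, 0 < G.v u b x) : ((pcN 2).K.v (c1n (x + u) - sk1.xs.v u b x) (1 + (x + u + b)) x - (1 + mun 3 x * cR x) * (pcF 2).K.v (c1n (x + u) - sk1.xs.v u b x) (1 + (x + u + b)) x) / mun 3 x =
    (cP (x + u + b) - 1 / 2 * cD (x + u + b) - (cR (x + u + b) + 2 * c1n (x + u + b) - 1) * kcg.v (psn (x + u + b)) x) * (x + u + b) + sD_Apk1.v (c1n (x + u) - sk1.xs.v u b x) (1 + (x + u + b)) x * (c1n (x + u) - sk1.xs.v u b x - (c1n (x + u + b) - 1 / 2)) := by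
  have hw := w_Apk1 x0 x1 h1 h2 h3 wy wz hb
  obtain ⟨u1, u2⟩ := abs_lt.1 h1
  obtain ⟨b1, b2⟩ := abs_lt.1 h2
  obtain ⟨v1, v2⟩ := abs_lt.1 h3
  obtain ⟨y1, y2⟩ := wy
  obtain ⟨z1, z2⟩ := wz
  have c0 : 0 < (tCX cv3p).v (c1n (x + u) - sk1.xs.v u b x) (1 + (x + u + b)) x := hc (f3A sk1.xs (tCX cv3p)) (by unfold cx_Apk1; simp only [List.mem_cons, true_or, or_true])
  refine (sDApk1 hF hN (mun_ne x) q3 (by linarith) (by linarith) c0 hw).trans ?_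
  rw [w3D_A, w3W_A]
  push_cast
  ring
theorem fF_Apk1 {x u b κ : ℝ} (hF : SideOk PP tKF tL pcF x) (hκ : κ * h0 = ken x)
    (x0 : 3 / 64 ≤ x) (x1 : x ≤ 1 / 16) (h1 : |u| < 1 / 32) (h2 : |b| < 1 / 64) (h3 : |u + b| < 1 / 32) (wy : 1 / 32 < x + u ∧ x + u < 5 / 64) (wz : 1 / 32 < x + u + b ∧ x + u + b < 5 / 64) (F : FactsA PP 0 2 2 0 1 1 (-1) (x + u) (1 + b)) :
    StA (VF κ) PP tKF tL pcF 0 2 2 0 1 1 (-1) x (x + u) (1 + b) := by
  have qs := F.q2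
  obtain ⟨u1, u2⟩ := abs_lt.1 h1
  obtain ⟨b1, b2⟩ := abs_lt.1 h2
  obtain ⟨v1, v2⟩ := abs_lt.1 h3
  obtain ⟨y1, y2⟩ := wy
  obtain ⟨z1, z2⟩ := wz
  have hb : 0 ≤ b := by linarith [qs.1]
  have D : DomA u b x := ⟨by linarith, by linarith, by linarith, by linarith, by linarith, by linarith, by linarith, by linarith⟩
  have hY : x + u + (1 + b) = 1 + (x + u + b) := by ring
  have q3 : InQ 2 (1 + (x + u + b)) := hY ▸ F.q3
  obtain ⟨p1, p2⟩ := psr (y := x + u) y1.le y2.le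
  obtain ⟨p3, p4⟩ := psr (y := x + u + b) z1.le z2.le
  have hd := dqAp (dq_t x) hb (by linarith) (by linarith) (by linarith) (by linarith) p1 p2 p3 p4
  obtain ⟨r1, r2⟩ := rX x0 x1
  have K := Cht3.cert (ng := false) (r := 33554432) ct_0Apk1 (u := u) (b := b) (x := x) (by unfold S; norm_num; linarith) (by unfold S; norm_num; linarith) (by simp only [cond_true, cond_false]; linarith) (by simp only [cond_true, cond_false]; unfold S; norm_num; linarith) r1 r2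
  have t3 := t3A2 F.q3
  have hit : ((T_Apk1.a true).at_ u b x).it * (x + u + b) = 1 := by
    show (x + u + b)⁻¹ * _ = _
    exact inv_mul_cancel₀ (ne_of_gt (by linarith))
  have hx : sk1.xs.v u b x = 1 / 2 + b * sk1.ws.v u b x := stK_x (by norm_num) (by linarith) (by linarith)
  have hX : crv PP 1 2 (1 + b) = sk1.xs.v u b x := sX1 u
  have od : 1 ≤ qqn (c1n (x + u) - sk1.xs.v u b x) (1 + (x + u + b)) ∧ qqn (c1n (x + u) - sk1.xs.v u b x) (1 + (x + u + b)) ≤ 3 := by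
    have l1 := F.len1
    have l3 := F.len3
    have e : (1 : ℝ) * crv PP 0 0 (x + u) + -1 * crv PP 1 2 (1 + b) = c1n (x + u) - sk1.xs.v u b x := by
      rw [hX, crv0]
      ring
    rw [e, hY] at l1 l3
    exact ⟨l1, l3⟩
  have hs : ∀ G ∈ sk_Apk1, G.v u b x ≤ 0 := skPM (A := true) (v := 33554432) (u := u) (b := b) (x := x) (abs_le.2 ⟨by simp only [cond_true, cond_false]; unfold S; norm_num; linarith, by simp only [cond_true, cond_false]; unfold S; norm_num; linarith⟩)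
  have K3 : (∀ G ∈ cx_Apk1, 0 < G.v u b x) → (pcF 2).K.v (c1n (x + u) - sk1.xs.v u b x) (x + u + (1 + b)) x = ((c1n (x + u + b) - 1 / 2) * cG (x + u + b) + kcg.v (psn (x + u + b)) x) * (x + u + b) + sK_Apk1.v (c1n (x + u) - sk1.xs.v u b x) (1 + (x + u + b)) x * (c1n (x + u) - sk1.xs.v u b x - (c1n (x + u + b) - 1 / 2)) := fun hc => by
    rw [hY]
    exact zKApk1 hF x0 x1 h1 h2 h3 ⟨y1, y2⟩ ⟨z1, z2⟩ hb q3 hc
  have L3 : (∀ G ∈ cx_Apk1, 0 < G.v u b x) → (pcF 2).L.v (c1n (x + u) - sk1.xs.v u b x) (x + u + (1 + b)) x = cQ x (x + u + b) (kcg.v (psn (x + u + b)) x) + sX_Apk1.v (c1n (x + u) - sk1.xs.v u b x) (1 + (x + u + b)) x * (c1n (x + u) - sk1.xs.v u b x - (c1n (x + u + b) - 1 / 2)) := fun hc => by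
    rw [hY]
    exact zLApk1 hF x0 x1 h1 h2 h3 ⟨y1, y2⟩ ⟨z1, z2⟩ hb q3 hc
  exact farJAp (T := T_Apk1) (sk := sk_Apk1) (cx := cx_Apk1) D hb hκ hd hit (t1_0 F.q1) t3 hx hX K hs (shK0 F.q1 y1.le y2.le) (sk1K u hb qs (by linarith)) K3 (shL0 F.q1 y1.le y2.le) (sk1L u hb qs (by linarith)) L3
theorem WmolF_A_022_01_0_p {x κ y y' : ℝ} (hF : SideOk PP tKF tL pcF x) (hκ : κ * h0 = ken x) (x0 : 3 / 64 ≤ x) (x1 : x ≤ 1 / 16)
    (F : FactsA PP 0 2 2 0 1 1 (-1) y y') (h1 : |y - x| < 1 / 32) (h2 : |y' - 1| < 1 / 64) (h3 : |y + y' - (1 + x)| < 1 / 32) (gy : 1 / 32 < y ∧ y < 5 / 64) (gz : 33 / 32 < y + y' ∧ y + y' < 69 / 64) :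
    StA (VF κ) PP tKF tL pcF 0 2 2 0 1 1 (-1) x y y' := by
  obtain ⟨u, rfl⟩ : ∃ u, y = x + u := ⟨y - x, by ring⟩
  obtain ⟨b, rfl⟩ : ∃ b, y' = 1 + b := ⟨y' - 1, by ring⟩
  rw [show x + u - x = u by ring] at h1
  rw [show 1 + b - 1 = b by ring] at h2
  rw [show x + u + (1 + b) - (1 + x) = u + b by ring] at h3
  have wy := gy
  have wz : 1 / 32 < x + u + b ∧ x + u + b < 5 / 64 := ⟨by linarith [gz.1], by linarith [gz.2]⟩
  exact fF_Apk1 hF hκ x0 x1 h1 h2 h3 wy wz F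
theorem molF_A_022_01_0 {κ x : ℝ} (hκ : κ * h0 = ken x) (hx : ((50331648 : ℕ) : ℝ) / S ≤ x) (hx' : x ≤ (((50331648 : ℕ) : ℝ) + (16777216 : ℕ)) / S) :
    AltA (VF κ) PP tKF tL pcF [⟨0, 0, 1, 33554432⟩, ⟨1, 1, 0, 16777216⟩, ⟨2, 1, 1, 33554432⟩, ⟨0, 0, 0, 83886080⟩, ⟨0, 1, 0, 1040187392⟩, ⟨2, 1, 0, 83886080⟩, ⟨2, 2, 0, 1040187392⟩] 0 2 2 0 1 (sgb true) (sgb false) x := by
  obtain ⟨x0, x1⟩ := xr hx hx'
  intro y y' F h
  obtain ⟨h1, h2, h3, gy, gz⟩ := winA h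
  exact WmolF_A_022_01_0_p (sideF hx hx') hκ x0 x1 F (h1.trans_eq (by norm_num)) (h2.trans_eq (by norm_num)) (h3.trans_eq (by norm_num)) ⟨lt_of_eq_of_lt (by norm_num) gy.1, lt_of_lt_of_eq gy.2 (by norm_num)⟩ ⟨lt_of_eq_of_lt (by norm_num) gz.1, lt_of_lt_of_eq gz.2 (by norm_num)⟩
theorem fN_Apk1 {x u b κ : ℝ} (hF : SideOk PP tKF tL pcF x) (hN : SideOk PP tKN tL pcN x) (hκ : κ * h0 = ken x)
    (x0 : 3 / 64 ≤ x) (x1 : x ≤ 1 / 16) (h1 : |u| < 1 / 32) (h2 : |b| < 1 / 64) (h3 : |u + b| < 1 / 32) (wy : 1 / 32 < x + u ∧ x + u < 5 / 64) (wz : 1 / 32 < x + u + b ∧ x + u + b < 5 / 64) (F : FactsA PP 0 2 2 0 1 1 (-1) (x + u) (1 + b)) :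
    StA (VN 3 κ) PP tKN tL pcN 0 2 2 0 1 1 (-1) x (x + u) (1 + b) := by
  have qs := F.q2
  obtain ⟨u1, u2⟩ := abs_lt.1 h1
  obtain ⟨b1, b2⟩ := abs_lt.1 h2
  obtain ⟨v1, v2⟩ := abs_lt.1 h3
  obtain ⟨y1, y2⟩ := wy
  obtain ⟨z1, z2⟩ := wz
  have hb : 0 ≤ b := by linarith [qs.1]
  have D : DomA u b x := ⟨by linarith, by linarith, by linarith, by linarith, by linarith, by linarith, by linarith, by linarith⟩
  have hY : x + u + (1 + b) = 1 + (x + u + b) := by ring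
  have q3 : InQ 2 (1 + (x + u + b)) := hY ▸ F.q3
  obtain ⟨p1, p2⟩ := psr (y := x + u) y1.le y2.le
  obtain ⟨p3, p4⟩ := psr (y := x + u + b) z1.le z2.le
  have hd := dqAp (dq_t x) hb (by linarith) (by linarith) (by linarith) (by linarith) p1 p2 p3 p4
  obtain ⟨r1, r2⟩ := rX x0 x1
  have K := Cht3.cert (ng := false) (r := 33554432) ct_1Apk1 (u := u) (b := b) (x := x) (by unfold S; norm_num; linarith) (by unfold S; norm_num; linarith) (by simp only [cond_true, cond_false]; linarith) (by simp only [cond_true, cond_false]; unfold S; norm_num; linarith) r1 r2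
  have t3 := t3A2 F.q3
  have hit : ((T_Apk1.a true).at_ u b x).it * (x + u + b) = 1 := by
    show (x + u + b)⁻¹ * _ = _
    exact inv_mul_cancel₀ (ne_of_gt (by linarith))
  have hx : sk1.xs.v u b x = 1 / 2 + b * sk1.ws.v u b x := stK_x (by norm_num) (by linarith) (by linarith)
  have hX : crv PP 1 2 (1 + b) = sk1.xs.v u b x := sX1 u
  have od : 1 ≤ qqn (c1n (x + u) - sk1.xs.v u b x) (1 + (x + u + b)) ∧ qqn (c1n (x + u) - sk1.xs.v u b x) (1 + (x + u + b)) ≤ 3 := by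
    have l1 := F.len1
    have l3 := F.len3
    have e : (1 : ℝ) * crv PP 0 0 (x + u) + -1 * crv PP 1 2 (1 + b) = c1n (x + u) - sk1.xs.v u b x := by
      rw [hX, crv0]
      ring
    rw [e, hY] at l1 l3
    exact ⟨l1, l3⟩
  have hs : ∀ G ∈ sk_Apk1, G.v u b x ≤ 0 := skPM (A := true) (v := 33554432) (u := u) (b := b) (x := x) (abs_le.2 ⟨by simp only [cond_true, cond_false]; unfold S; norm_num; linarith, by simp only [cond_true, cond_false]; unfold S; norm_num; linarith⟩)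
  have K3 : (∀ G ∈ cx_Apk1, 0 < G.v u b x) → (pcF 2).K.v (c1n (x + u) - sk1.xs.v u b x) (x + u + (1 + b)) x = ((c1n (x + u + b) - 1 / 2) * cG (x + u + b) + kcg.v (psn (x + u + b)) x) * (x + u + b) + sK_Apk1.v (c1n (x + u) - sk1.xs.v u b x) (1 + (x + u + b)) x * (c1n (x + u) - sk1.xs.v u b x - (c1n (x + u + b) - 1 / 2)) := fun hc => by
    rw [hY]
    exact zKApk1 hF x0 x1 h1 h2 h3 ⟨y1, y2⟩ ⟨z1, z2⟩ hb q3 hc
  have L3 : (∀ G ∈ cx_Apk1, 0 < G.v u b x) → (pcF 2).L.v (c1n (x + u) - sk1.xs.v u b x) (x + u + (1 + b)) x = cQ x (x + u + b) (kcg.v (psn (x + u + b)) x) + sX_Apk1.v (c1n (x + u) - sk1.xs.v u b x) (1 + (x + u + b)) x * (c1n (x + u) - sk1.xs.v u b x - (c1n (x + u + b) - 1 / 2)) := fun hc => by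
    rw [hY]
    exact zLApk1 hF x0 x1 h1 h2 h3 ⟨y1, y2⟩ ⟨z1, z2⟩ hb q3 hc
  have D3 : (∀ G ∈ cx_Apk1, 0 < G.v u b x) → ((pcN 2).K.v (c1n (x + u) - sk1.xs.v u b x) (x + u + (1 + b)) x - (1 + mun 3 x * cR x) * (pcF 2).K.v (c1n (x + u) - sk1.xs.v u b x) (x + u + (1 + b)) x) / mun 3 x = (cP (x + u + b) - 1 / 2 * cD (x + u + b) - (cR (x + u + b) + 2 * c1n (x + u + b) - 1) * kcg.v (psn (x + u + b)) x) * (x + u + b) + sD_Apk1.v (c1n (x + u) - sk1.xs.v u b x) (1 + (x + u + b)) x * (c1n (x + u) - sk1.xs.v u b x - (c1n (x + u + b) - 1 / 2)) := fun hc => by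
    rw [hY]
    exact zDApk1 hF hN x0 x1 h1 h2 h3 ⟨y1, y2⟩ ⟨z1, z2⟩ hb q3 hc
  exact nearJAp (T := T_Apk1) (sk := sk_Apk1) (cx := cx_Apk1) D hb hκ hd hit (t1_0 F.q1) t3 hx hX K hs (kcb y1.le y2.le x0 x1) (shN0 F.q1 y1.le y2.le) (sk1N qs) (sk1K u hb qs (by linarith)) (sk1D u hb (by linarith)) (fun _ => div_mun) K3 D3 (shL0 F.q1 y1.le y2.le) (sk1L u hb qs (by linarith)) L3
theorem WmolN_A_022_01_0_p {x κ y y' : ℝ} (hF : SideOk PP tKF tL pcF x) (hN : SideOk PP tKN tL pcN x) (hκ : κ * h0 = ken x) (x0 : 3 / 64 ≤ x) (x1 : x ≤ 1 / 16)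
    (F : FactsA PP 0 2 2 0 1 1 (-1) y y') (h1 : |y - x| < 1 / 32) (h2 : |y' - 1| < 1 / 64) (h3 : |y + y' - (1 + x)| < 1 / 32) (gy : 1 / 32 < y ∧ y < 5 / 64) (gz : 33 / 32 < y + y' ∧ y + y' < 69 / 64) :
    StA (VN 3 κ) PP tKN tL pcN 0 2 2 0 1 1 (-1) x y y' := by
  obtain ⟨u, rfl⟩ : ∃ u, y = x + u := ⟨y - x, by ring⟩
  obtain ⟨b, rfl⟩ : ∃ b, y' = 1 + b := ⟨y' - 1, by ring⟩
  rw [show x + u - x = u by ring] at h1
  rw [show 1 + b - 1 = b by ring] at h2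
  rw [show x + u + (1 + b) - (1 + x) = u + b by ring] at h3
  have wy := gy
  have wz : 1 / 32 < x + u + b ∧ x + u + b < 5 / 64 := ⟨by linarith [gz.1], by linarith [gz.2]⟩
  exact fN_Apk1 hF hN hκ x0 x1 h1 h2 h3 wy wz F
theorem molN_A_022_01_0 {κ x : ℝ} (hκ : κ * h0 = ken x) (hx : ((50331648 : ℕ) : ℝ) / S ≤ x) (hx' : x ≤ (((50331648 : ℕ) : ℝ) + (16777216 : ℕ)) / S) :
    AltA (VN 3 κ) PP tKN tL pcN [⟨0, 0, 1, 33554432⟩, ⟨1, 1, 0, 16777216⟩, ⟨2, 1, 1, 33554432⟩, ⟨0, 0, 0, 83886080⟩, ⟨0, 1, 0, 1040187392⟩, ⟨2, 1, 0, 83886080⟩, ⟨2, 2, 0, 1040187392⟩] 0 2 2 0 1 (sgb true) (sgb false) x := by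
  obtain ⟨x0, x1⟩ := xr hx hx'
  intro y y' F h
  obtain ⟨h1, h2, h3, gy, gz⟩ := winA h
  exact WmolN_A_022_01_0_p (sideF hx hx') (sideN hx hx') hκ x0 x1 F (h1.trans_eq (by norm_num)) (h2.trans_eq (by norm_num)) (h3.trans_eq (by norm_num)) ⟨lt_of_eq_of_lt (by norm_num) gy.1, lt_of_lt_of_eq gy.2 (by norm_num)⟩ ⟨lt_of_eq_of_lt (by norm_num) gz.1, lt_of_lt_of_eq gz.2 (by norm_num)⟩
theorem w_Apk2 {u b x : ℝ} (x0 : 3 / 64 ≤ x) (x1 : x ≤ 1 / 16) (h1 : |u| < 1 / 32) (h2 : |b| < 1 / 64) (h3 : |u + b| < 1 / 32) (wy : 1 / 32 < x + u ∧ x + u < 5 / 64) (wz : 1 / 32 < x + u + b ∧ x + u + b < 5 / 64) (hb : 0 ≤ b) : (w3W false).v (1 + (x + u + b)) ≤ c1n (x + u) - sk2.xs.v u b x := by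
  obtain ⟨u1, u2⟩ := abs_lt.1 h1
  obtain ⟨b1, b2⟩ := abs_lt.1 h2
  obtain ⟨v1, v2⟩ := abs_lt.1 h3
  obtain ⟨y1, y2⟩ := wy
  obtain ⟨z1, z2⟩ := wz
  have cm1 : (fXS 0 1 1).v u b x ≤ 1 / 2 := fXS_le (by norm_num) hb
  have cm2 : c1n (x + u) ≥ c1n (x + u + b) := c1n_le' (by linarith) (by linarith)
  rw [w3W_A]
  show c1n (x + u + b) - 1 / 2 ≤ c1n (x + u) - (fXS 0 1 1).v u b x
  linarith
theorem zKApk2 {u b x : ℝ} (hF : SideOk PP tKF tL pcF x) (x0 : 3 / 64 ≤ x) (x1 : x ≤ 1 / 16) (h1 : |u| < 1 / 32) (h2 : |b| < 1 / 64) (h3 : |u + b| < 1 / 32) (wy : 1 / 32 < x + u ∧ x + u < 5 / 64) (wz : 1 / 32 < x + u + b ∧ x + u + b < 5 / 64) (hb : 0 ≤ b) (q3 : InQ 2 (1 + (x + u + b)))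
    (hc : ∀ G ∈ cx_Apk2, 0 < G.v u b x) : (pcF 2).K.v (c1n (x + u) - sk2.xs.v u b x) (1 + (x + u + b)) x =
    ((c1n (x + u + b) - 1 / 2) * cG (x + u + b) + kcg.v (psn (x + u + b)) x) * (x + u + b) + sK_Apk2.v (c1n (x + u) - sk2.xs.v u b x) (1 + (x + u + b)) x * (c1n (x + u) - sk2.xs.v u b x - (c1n (x + u + b) - 1 / 2)) := by
  have hw := w_Apk2 x0 x1 h1 h2 h3 wy wz hb
  obtain ⟨u1, u2⟩ := abs_lt.1 h1
  obtain ⟨b1, b2⟩ := abs_lt.1 h2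
  obtain ⟨v1, v2⟩ := abs_lt.1 h3
  obtain ⟨y1, y2⟩ := wy
  obtain ⟨z1, z2⟩ := wz
  have c0 : 0 < (tCX cv3p).v (c1n (x + u) - sk2.xs.v u b x) (1 + (x + u + b)) x := hc (f3A sk2.xs (tCX cv3p)) (by unfold cx_Apk2; simp only [List.mem_cons, true_or, or_true])
  refine (sKApk2 hF q3 (by linarith) (by linarith) c0 hw).trans ?_
  rw [w3K_A, w3W_A]
  push_cast
  ring
theorem zLApk2 {u b x : ℝ} (hF : SideOk PP tKF tL pcF x) (x0 : 3 / 64 ≤ x) (x1 : x ≤ 1 / 16) (h1 : |u| < 1 / 32) (h2 : |b| < 1 / 64) (h3 : |u + b| < 1 / 32) (wy : 1 / 32 < x + u ∧ x + u < 5 / 64) (wz : 1 / 32 < x + u + b ∧ x + u + b < 5 / 64) (hb : 0 ≤ b) (q3 : InQ 2 (1 + (x + u + b)))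
    (hc : ∀ G ∈ cx_Apk2, 0 < G.v u b x) : (pcF 2).L.v (c1n (x + u) - sk2.xs.v u b x) (1 + (x + u + b)) x =
    cQ x (x + u + b) (kcg.v (psn (x + u + b)) x) + sX_Apk2.v (c1n (x + u) - sk2.xs.v u b x) (1 + (x + u + b)) x * (c1n (x + u) - sk2.xs.v u b x - (c1n (x + u + b) - 1 / 2)) := by
  have hw := w_Apk2 x0 x1 h1 h2 h3 wy wz hb
  obtain ⟨u1, u2⟩ := abs_lt.1 h1
  obtain ⟨b1, b2⟩ := abs_lt.1 h2
  obtain ⟨v1, v2⟩ := abs_lt.1 h3
  obtain ⟨y1, y2⟩ := wy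
  obtain ⟨z1, z2⟩ := wz
  have c0 : 0 < (tCX cv3p).v (c1n (x + u) - sk2.xs.v u b x) (1 + (x + u + b)) x := hc (f3A sk2.xs (tCX cv3p)) (by unfold cx_Apk2; simp only [List.mem_cons, true_or, or_true])
  refine (sLApk2 hF q3 (by linarith) (by linarith) c0 hw).trans ?_
  rw [w3Q_A, w3W_A]
theorem zDApk2 {u b x : ℝ} (hF : SideOk PP tKF tL pcF x) (hN : SideOk PP tKN tL pcN x) (x0 : 3 / 64 ≤ x) (x1 : x ≤ 1 / 16) (h1 : |u| < 1 / 32) (h2 : |b| < 1 / 64) (h3 : |u + b| < 1 / 32) (wy : 1 / 32 < x + u ∧ x + u < 5 / 64) (wz : 1 / 32 < x + u + b ∧ x + u + b < 5 / 64) (hb : 0 ≤ b) (q3 : InQ 2 (1 + (x + u + b)))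
    (hc : ∀ G ∈ cx_Apk2, 0 < G.v u b x) : ((pcN 2).K.v (c1n (x + u) - sk2.xs.v u b x) (1 + (x + u + b)) x - (1 + mun 3 x * cR x) * (pcF 2).K.v (c1n (x + u) - sk2.xs.v u b x) (1 + (x + u + b)) x) / mun 3 x =
    (cP (x + u + b) - 1 / 2 * cD (x + u + b) - (cR (x + u + b) + 2 * c1n (x + u + b) - 1) * kcg.v (psn (x + u + b)) x) * (x + u + b) + sD_Apk2.v (c1n (x + u) - sk2.xs.v u b x) (1 + (x + u + b)) x * (c1n (x + u) - sk2.xs.v u b x - (c1n (x + u + b) - 1 / 2)) := by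
  have hw := w_Apk2 x0 x1 h1 h2 h3 wy wz hb
  obtain ⟨u1, u2⟩ := abs_lt.1 h1
  obtain ⟨b1, b2⟩ := abs_lt.1 h2
  obtain ⟨v1, v2⟩ := abs_lt.1 h3
  obtain ⟨y1, y2⟩ := wy
  obtain ⟨z1, z2⟩ := wz
  have c0 : 0 < (tCX cv3p).v (c1n (x + u) - sk2.xs.v u b x) (1 + (x + u + b)) x := hc (f3A sk2.xs (tCX cv3p)) (by unfold cx_Apk2; simp only [List.mem_cons, true_or, or_true])
  refine (sDApk2 hF hN (mun_ne x) q3 (by linarith) (by linarith) c0 hw).trans ?_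
  rw [w3D_A, w3W_A]
  push_cast
  ring
theorem fF_Apk2 {x u b κ : ℝ} (hF : SideOk PP tKF tL pcF x) (hκ : κ * h0 = ken x)
    (x0 : 3 / 64 ≤ x) (x1 : x ≤ 1 / 16) (h1 : |u| < 1 / 32) (h2 : |b| < 1 / 64) (h3 : |u + b| < 1 / 32) (wy : 1 / 32 < x + u ∧ x + u < 5 / 64) (wz : 1 / 32 < x + u + b ∧ x + u + b < 5 / 64) (F : FactsA PP 0 2 2 0 2 1 (-1) (x + u) (1 + b)) :
    StA (VF κ) PP tKF tL pcF 0 2 2 0 2 1 (-1) x (x + u) (1 + b) := by
  have qs := F.q2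
  obtain ⟨u1, u2⟩ := abs_lt.1 h1
  obtain ⟨b1, b2⟩ := abs_lt.1 h2
  obtain ⟨v1, v2⟩ := abs_lt.1 h3
  obtain ⟨y1, y2⟩ := wy
  obtain ⟨z1, z2⟩ := wz
  have hb : 0 ≤ b := by linarith [qs.1]
  have D : DomA u b x := ⟨by linarith, by linarith, by linarith, by linarith, by linarith, by linarith, by linarith, by linarith⟩
  have hY : x + u + (1 + b) = 1 + (x + u + b) := by ring
  have q3 : InQ 2 (1 + (x + u + b)) := hY ▸ F.q3
  obtain ⟨p1, p2⟩ := psr (y := x + u) y1.le y2.le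
  obtain ⟨p3, p4⟩ := psr (y := x + u + b) z1.le z2.le
  have hd := dqAp (dq_t x) hb (by linarith) (by linarith) (by linarith) (by linarith) p1 p2 p3 p4
  obtain ⟨r1, r2⟩ := rX x0 x1
  have K := Cht3.cert (ng := false) (r := 33554432) ct_0Apk2 (u := u) (b := b) (x := x) (by unfold S; norm_num; linarith) (by unfold S; norm_num; linarith) (by simp only [cond_true, cond_false]; linarith) (by simp only [cond_true, cond_false]; unfold S; norm_num; linarith) r1 r2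
  have t3 := t3A2 F.q3
  have hit : ((T_Apk2.a true).at_ u b x).it * (x + u + b) = 1 := by
    show (x + u + b)⁻¹ * _ = _
    exact inv_mul_cancel₀ (ne_of_gt (by linarith))
  have hx : sk2.xs.v u b x = 1 / 2 + b * sk2.ws.v u b x := stK_x (by norm_num) (by linarith) (by linarith)
  have hX : crv PP 2 2 (1 + b) = sk2.xs.v u b x := sX2 u
  have od : 1 ≤ qqn (c1n (x + u) - sk2.xs.v u b x) (1 + (x + u + b)) ∧ qqn (c1n (x + u) - sk2.xs.v u b x) (1 + (x + u + b)) ≤ 3 := by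
    have l1 := F.len1
    have l3 := F.len3
    have e : (1 : ℝ) * crv PP 0 0 (x + u) + -1 * crv PP 2 2 (1 + b) = c1n (x + u) - sk2.xs.v u b x := by
      rw [hX, crv0]
      ring
    rw [e, hY] at l1 l3
    exact ⟨l1, l3⟩
  have hs : ∀ G ∈ sk_Apk2, G.v u b x ≤ 0 := skPM (A := true) (v := 33554432) (u := u) (b := b) (x := x) (abs_le.2 ⟨by simp only [cond_true, cond_false]; unfold S; norm_num; linarith, by simp only [cond_true, cond_false]; unfold S; norm_num; linarith⟩)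
  have K3 : (∀ G ∈ cx_Apk2, 0 < G.v u b x) → (pcF 2).K.v (c1n (x + u) - sk2.xs.v u b x) (x + u + (1 + b)) x = ((c1n (x + u + b) - 1 / 2) * cG (x + u + b) + kcg.v (psn (x + u + b)) x) * (x + u + b) + sK_Apk2.v (c1n (x + u) - sk2.xs.v u b x) (1 + (x + u + b)) x * (c1n (x + u) - sk2.xs.v u b x - (c1n (x + u + b) - 1 / 2)) := fun hc => by
    rw [hY]
    exact zKApk2 hF x0 x1 h1 h2 h3 ⟨y1, y2⟩ ⟨z1, z2⟩ hb q3 hc
  have L3 : (∀ G ∈ cx_Apk2, 0 < G.v u b x) → (pcF 2).L.v (c1n (x + u) - sk2.xs.v u b x) (x + u + (1 + b)) x = cQ x (x + u + b) (kcg.v (psn (x + u + b)) x) + sX_Apk2.v (c1n (x + u) - sk2.xs.v u b x) (1 + (x + u + b)) x * (c1n (x + u) - sk2.xs.v u b x - (c1n (x + u + b) - 1 / 2)) := fun hc => by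
    rw [hY]
    exact zLApk2 hF x0 x1 h1 h2 h3 ⟨y1, y2⟩ ⟨z1, z2⟩ hb q3 hc
  exact farJAp (T := T_Apk2) (sk := sk_Apk2) (cx := cx_Apk2) D hb hκ hd hit (t1_0 F.q1) t3 hx hX K hs (shK0 F.q1 y1.le y2.le) (sk2K u hb qs (by linarith)) K3 (shL0 F.q1 y1.le y2.le) (sk2L u hb qs (by linarith)) L3
theorem WmolF_A_022_02_0_p {x κ y y' : ℝ} (hF : SideOk PP tKF tL pcF x) (hκ : κ * h0 = ken x) (x0 : 3 / 64 ≤ x) (x1 : x ≤ 1 / 16)
    (F : FactsA PP 0 2 2 0 2 1 (-1) y y') (h1 : |y - x| < 1 / 32) (h2 : |y' - 1| < 1 / 64) (h3 : |y + y' - (1 + x)| < 1 / 32) (gy : 1 / 32 < y ∧ y < 5 / 64) (gz : 33 / 32 < y + y' ∧ y + y' < 69 / 64) :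
    StA (VF κ) PP tKF tL pcF 0 2 2 0 2 1 (-1) x y y' := by
  obtain ⟨u, rfl⟩ : ∃ u, y = x + u := ⟨y - x, by ring⟩
  obtain ⟨b, rfl⟩ : ∃ b, y' = 1 + b := ⟨y' - 1, by ring⟩
  rw [show x + u - x = u by ring] at h1
  rw [show 1 + b - 1 = b by ring] at h2
  rw [show x + u + (1 + b) - (1 + x) = u + b by ring] at h3
  have wy := gy
  have wz : 1 / 32 < x + u + b ∧ x + u + b < 5 / 64 := ⟨by linarith [gz.1], by linarith [gz.2]⟩
  exact fF_Apk2 hF hκ x0 x1 h1 h2 h3 wy wz F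
theorem molF_A_022_02_0 {κ x : ℝ} (hκ : κ * h0 = ken x) (hx : ((50331648 : ℕ) : ℝ) / S ≤ x) (hx' : x ≤ (((50331648 : ℕ) : ℝ) + (16777216 : ℕ)) / S) :
    AltA (VF κ) PP tKF tL pcF [⟨0, 0, 1, 33554432⟩, ⟨1, 1, 0, 16777216⟩, ⟨2, 1, 1, 33554432⟩, ⟨0, 0, 0, 83886080⟩, ⟨0, 1, 0, 1040187392⟩, ⟨2, 1, 0, 83886080⟩, ⟨2, 2, 0, 1040187392⟩] 0 2 2 0 2 (sgb true) (sgb false) x := by
  obtain ⟨x0, x1⟩ := xr hx hx'
  intro y y' F h
  obtain ⟨h1, h2, h3, gy, gz⟩ := winA h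
  exact WmolF_A_022_02_0_p (sideF hx hx') hκ x0 x1 F (h1.trans_eq (by norm_num)) (h2.trans_eq (by norm_num)) (h3.trans_eq (by norm_num)) ⟨lt_of_eq_of_lt (by norm_num) gy.1, lt_of_lt_of_eq gy.2 (by norm_num)⟩ ⟨lt_of_eq_of_lt (by norm_num) gz.1, lt_of_lt_of_eq gz.2 (by norm_num)⟩
theorem fN_Apk2 {x u b κ : ℝ} (hF : SideOk PP tKF tL pcF x) (hN : SideOk PP tKN tL pcN x) (hκ : κ * h0 = ken x)
    (x0 : 3 / 64 ≤ x) (x1 : x ≤ 1 / 16) (h1 : |u| < 1 / 32) (h2 : |b| < 1 / 64) (h3 : |u + b| < 1 / 32) (wy : 1 / 32 < x + u ∧ x + u < 5 / 64) (wz : 1 / 32 < x + u + b ∧ x + u + b < 5 / 64) (F : FactsA PP 0 2 2 0 2 1 (-1) (x + u) (1 + b)) :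
    StA (VN 3 κ) PP tKN tL pcN 0 2 2 0 2 1 (-1) x (x + u) (1 + b) := by
  have qs := F.q2
  obtain ⟨u1, u2⟩ := abs_lt.1 h1
  obtain ⟨b1, b2⟩ := abs_lt.1 h2
  obtain ⟨v1, v2⟩ := abs_lt.1 h3
  obtain ⟨y1, y2⟩ := wy
  obtain ⟨z1, z2⟩ := wz
  have hb : 0 ≤ b := by linarith [qs.1]
  have D : DomA u b x := ⟨by linarith, by linarith, by linarith, by linarith, by linarith, by linarith, by linarith, by linarith⟩
  have hY : x + u + (1 + b) = 1 + (x + u + b) := by ring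
  have q3 : InQ 2 (1 + (x + u + b)) := hY ▸ F.q3
  obtain ⟨p1, p2⟩ := psr (y := x + u) y1.le y2.le
  obtain ⟨p3, p4⟩ := psr (y := x + u + b) z1.le z2.le
  have hd := dqAp (dq_t x) hb (by linarith) (by linarith) (by linarith) (by linarith) p1 p2 p3 p4
  obtain ⟨r1, r2⟩ := rX x0 x1
  have K := Cht3.cert (ng := false) (r := 33554432) ct_1Apk2 (u := u) (b := b) (x := x) (by unfold S; norm_num; linarith) (by unfold S; norm_num; linarith) (by simp only [cond_true, cond_false]; linarith) (by simp only [cond_true, cond_false]; unfold S; norm_num; linarith) r1 r2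
  have t3 := t3A2 F.q3
  have hit : ((T_Apk2.a true).at_ u b x).it * (x + u + b) = 1 := by
    show (x + u + b)⁻¹ * _ = _
    exact inv_mul_cancel₀ (ne_of_gt (by linarith))
  have hx : sk2.xs.v u b x = 1 / 2 + b * sk2.ws.v u b x := stK_x (by norm_num) (by linarith) (by linarith)
  have hX : crv PP 2 2 (1 + b) = sk2.xs.v u b x := sX2 u
  have od : 1 ≤ qqn (c1n (x + u) - sk2.xs.v u b x) (1 + (x + u + b)) ∧ qqn (c1n (x + u) - sk2.xs.v u b x) (1 + (x + u + b)) ≤ 3 := by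
    have l1 := F.len1
    have l3 := F.len3
    have e : (1 : ℝ) * crv PP 0 0 (x + u) + -1 * crv PP 2 2 (1 + b) = c1n (x + u) - sk2.xs.v u b x := by
      rw [hX, crv0]
      ring
    rw [e, hY] at l1 l3
    exact ⟨l1, l3⟩
  have hs : ∀ G ∈ sk_Apk2, G.v u b x ≤ 0 := skPM (A := true) (v := 33554432) (u := u) (b := b) (x := x) (abs_le.2 ⟨by simp only [cond_true, cond_false]; unfold S; norm_num; linarith, by simp only [cond_true, cond_false]; unfold S; norm_num; linarith⟩)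
  have K3 : (∀ G ∈ cx_Apk2, 0 < G.v u b x) → (pcF 2).K.v (c1n (x + u) - sk2.xs.v u b x) (x + u + (1 + b)) x = ((c1n (x + u + b) - 1 / 2) * cG (x + u + b) + kcg.v (psn (x + u + b)) x) * (x + u + b) + sK_Apk2.v (c1n (x + u) - sk2.xs.v u b x) (1 + (x + u + b)) x * (c1n (x + u) - sk2.xs.v u b x - (c1n (x + u + b) - 1 / 2)) := fun hc => by
    rw [hY]
    exact zKApk2 hF x0 x1 h1 h2 h3 ⟨y1, y2⟩ ⟨z1, z2⟩ hb q3 hc
  have L3 : (∀ G ∈ cx_Apk2, 0 < G.v u b x) → (pcF 2).L.v (c1n (x + u) - sk2.xs.v u b x) (x + u + (1 + b)) x = cQ x (x + u + b) (kcg.v (psn (x + u + b)) x) + sX_Apk2.v (c1n (x + u) - sk2.xs.v u b x) (1 + (x + u + b)) x * (c1n (x + u) - sk2.xs.v u b x - (c1n (x + u + b) - 1 / 2)) := fun hc => by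
    rw [hY]
    exact zLApk2 hF x0 x1 h1 h2 h3 ⟨y1, y2⟩ ⟨z1, z2⟩ hb q3 hc
  have D3 : (∀ G ∈ cx_Apk2, 0 < G.v u b x) → ((pcN 2).K.v (c1n (x + u) - sk2.xs.v u b x) (x + u + (1 + b)) x - (1 + mun 3 x * cR x) * (pcF 2).K.v (c1n (x + u) - sk2.xs.v u b x) (x + u + (1 + b)) x) / mun 3 x = (cP (x + u + b) - 1 / 2 * cD (x + u + b) - (cR (x + u + b) + 2 * c1n (x + u + b) - 1) * kcg.v (psn (x + u + b)) x) * (x + u + b) + sD_Apk2.v (c1n (x + u) - sk2.xs.v u b x) (1 + (x + u + b)) x * (c1n (x + u) - sk2.xs.v u b x - (c1n (x + u + b) - 1 / 2)) := fun hc => by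
    rw [hY]
    exact zDApk2 hF hN x0 x1 h1 h2 h3 ⟨y1, y2⟩ ⟨z1, z2⟩ hb q3 hc
  exact nearJAp (T := T_Apk2) (sk := sk_Apk2) (cx := cx_Apk2) D hb hκ hd hit (t1_0 F.q1) t3 hx hX K hs (kcb y1.le y2.le x0 x1) (shN0 F.q1 y1.le y2.le) (sk2N qs) (sk2K u hb qs (by linarith)) (sk2D u hb (by linarith)) (fun _ => div_mun) K3 D3 (shL0 F.q1 y1.le y2.le) (sk2L u hb qs (by linarith)) L3
theorem WmolN_A_022_02_0_p {x κ y y' : ℝ} (hF : SideOk PP tKF tL pcF x) (hN : SideOk PP tKN tL pcN x) (hκ : κ * h0 = ken x) (x0 : 3 / 64 ≤ x) (x1 : x ≤ 1 / 16)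
    (F : FactsA PP 0 2 2 0 2 1 (-1) y y') (h1 : |y - x| < 1 / 32) (h2 : |y' - 1| < 1 / 64) (h3 : |y + y' - (1 + x)| < 1 / 32) (gy : 1 / 32 < y ∧ y < 5 / 64) (gz : 33 / 32 < y + y' ∧ y + y' < 69 / 64) :
    StA (VN 3 κ) PP tKN tL pcN 0 2 2 0 2 1 (-1) x y y' := by
  obtain ⟨u, rfl⟩ : ∃ u, y = x + u := ⟨y - x, by ring⟩
  obtain ⟨b, rfl⟩ : ∃ b, y' = 1 + b := ⟨y' - 1, by ring⟩
  rw [show x + u - x = u by ring] at h1
  rw [show 1 + b - 1 = b by ring] at h2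
  rw [show x + u + (1 + b) - (1 + x) = u + b by ring] at h3
  have wy := gy
  have wz : 1 / 32 < x + u + b ∧ x + u + b < 5 / 64 := ⟨by linarith [gz.1], by linarith [gz.2]⟩
  exact fN_Apk2 hF hN hκ x0 x1 h1 h2 h3 wy wz F
theorem molN_A_022_02_0 {κ x : ℝ} (hκ : κ * h0 = ken x) (hx : ((50331648 : ℕ) : ℝ) / S ≤ x) (hx' : x ≤ (((50331648 : ℕ) : ℝ) + (16777216 : ℕ)) / S) :
    AltA (VN 3 κ) PP tKN tL pcN [⟨0, 0, 1, 33554432⟩, ⟨1, 1, 0, 16777216⟩, ⟨2, 1, 1, 33554432⟩, ⟨0, 0, 0, 83886080⟩, ⟨0, 1, 0, 1040187392⟩, ⟨2, 1, 0, 83886080⟩, ⟨2, 2, 0, 1040187392⟩] 0 2 2 0 2 (sgb true) (sgb false) x := by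
  obtain ⟨x0, x1⟩ := xr hx hx'
  intro y y' F h
  obtain ⟨h1, h2, h3, gy, gz⟩ := winA h
  exact WmolN_A_022_02_0_p (sideF hx hx') (sideN hx hx') hκ x0 x1 F (h1.trans_eq (by norm_num)) (h2.trans_eq (by norm_num)) (h3.trans_eq (by norm_num)) ⟨lt_of_eq_of_lt (by norm_num) gy.1, lt_of_lt_of_eq gy.2 (by norm_num)⟩ ⟨lt_of_eq_of_lt (by norm_num) gz.1, lt_of_lt_of_eq gz.2 (by norm_num)⟩
theorem w_Am {u b x : ℝ} (x0 : 3 / 64 ≤ x) (x1 : x ≤ 1 / 16) (h1 : |u| < 3 / 128) (h2 : |b| < 1 / 128) (h3 : |u + b| < 3 / 128) (wy : 1 / 32 < x + u ∧ x + u < 5 / 64) (wz : 1 / 32 < x + u + b ∧ x + u + b < 5 / 64) (hb : b < 0) : c1n (x + u) - sm.xs.v u b x ≤ (w3W false).v (1 + (x + u + b)) := by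
  obtain ⟨u1, u2⟩ := abs_lt.1 h1
  obtain ⟨b1, b2⟩ := abs_lt.1 h2
  obtain ⟨v1, v2⟩ := abs_lt.1 h3
  obtain ⟨y1, y2⟩ := wy
  obtain ⟨z1, z2⟩ := wz
  have cm1 : c1n (1 + b) ≥ 1 / 2 := c1n_half' hb.le (by linarith)
  have cm2 : c1n (x + u) ≤ c1n (x + u + b) := c1n_le' (by linarith) (by linarith)
  rw [w3W_A]
  show c1n (x + u) - c1n (1 + b) ≤ c1n (x + u + b) - 1 / 2
  linarith
theorem zKAm {u b x : ℝ} (hF : SideOk PP tKF tL pcF x) (x0 : 3 / 64 ≤ x) (x1 : x ≤ 1 / 16) (h1 : |u| < 3 / 128) (h2 : |b| < 1 / 128) (h3 : |u + b| < 3 / 128) (wy : 1 / 32 < x + u ∧ x + u < 5 / 64) (wz : 1 / 32 < x + u + b ∧ x + u + b < 5 / 64) (hb : b < 0) (q3 : InQ 2 (1 + (x + u + b)))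
    (hc : ∀ G ∈ cx_Am, 0 < G.v u b x) : (pcF 2).K.v (c1n (x + u) - sm.xs.v u b x) (1 + (x + u + b)) x =
    ((c1n (x + u + b) - 1 / 2) * cG (x + u + b) + kcg.v (psn (x + u + b)) x) * (x + u + b) + sK_Am.v (c1n (x + u) - sm.xs.v u b x) (1 + (x + u + b)) x * (c1n (x + u) - sm.xs.v u b x - (c1n (x + u + b) - 1 / 2)) := by
  have hw := w_Am x0 x1 h1 h2 h3 wy wz hb
  obtain ⟨u1, u2⟩ := abs_lt.1 h1
  obtain ⟨b1, b2⟩ := abs_lt.1 h2
  obtain ⟨v1, v2⟩ := abs_lt.1 h3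
  obtain ⟨y1, y2⟩ := wy
  obtain ⟨z1, z2⟩ := wz
  have c0 : 0 < (tCC (w3W false) cv1p).v (c1n (x + u) - sm.xs.v u b x) (1 + (x + u + b)) x := hc (f3A sm.xs (tCC (w3W false) cv1p)) (by unfold cx_Am; simp only [List.mem_cons, true_or, or_true])
  have c1 : 0 < (tXC cv1p).v (c1n (x + u) - sm.xs.v u b x) (1 + (x + u + b)) x := hc (f3A sm.xs (tXC cv1p)) (by unfold cx_Am; simp only [List.mem_cons, true_or, or_true])
  refine (sKAm hF q3 (by linarith) (by linarith) c0 c1 hw).trans ?_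
  rw [w3K_A, w3W_A]
  push_cast
  ring
theorem zLAm {u b x : ℝ} (hF : SideOk PP tKF tL pcF x) (x0 : 3 / 64 ≤ x) (x1 : x ≤ 1 / 16) (h1 : |u| < 3 / 128) (h2 : |b| < 1 / 128) (h3 : |u + b| < 3 / 128) (wy : 1 / 32 < x + u ∧ x + u < 5 / 64) (wz : 1 / 32 < x + u + b ∧ x + u + b < 5 / 64) (hb : b < 0) (q3 : InQ 2 (1 + (x + u + b)))
    (hc : ∀ G ∈ cx_Am, 0 < G.v u b x) : (pcF 2).L.v (c1n (x + u) - sm.xs.v u b x) (1 + (x + u + b)) x =
    cQ x (x + u + b) (kcg.v (psn (x + u + b)) x) + sX_Am.v (c1n (x + u) - sm.xs.v u b x) (1 + (x + u + b)) x * (c1n (x + u) - sm.xs.v u b x - (c1n (x + u + b) - 1 / 2)) := by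
  have hw := w_Am x0 x1 h1 h2 h3 wy wz hb
  obtain ⟨u1, u2⟩ := abs_lt.1 h1
  obtain ⟨b1, b2⟩ := abs_lt.1 h2
  obtain ⟨v1, v2⟩ := abs_lt.1 h3
  obtain ⟨y1, y2⟩ := wy
  obtain ⟨z1, z2⟩ := wz
  have c0 : 0 < (tCC (w3W false) cv1p).v (c1n (x + u) - sm.xs.v u b x) (1 + (x + u + b)) x := hc (f3A sm.xs (tCC (w3W false) cv1p)) (by unfold cx_Am; simp only [List.mem_cons, true_or, or_true])
  have c1 : 0 < (tXC cv1p).v (c1n (x + u) - sm.xs.v u b x) (1 + (x + u + b)) x := hc (f3A sm.xs (tXC cv1p)) (by unfold cx_Am; simp only [List.mem_cons, true_or, or_true])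
  refine (sLAm hF q3 (by linarith) (by linarith) c0 c1 hw).trans ?_
  rw [w3Q_A, w3W_A]
theorem zDAm {u b x : ℝ} (hF : SideOk PP tKF tL pcF x) (hN : SideOk PP tKN tL pcN x) (x0 : 3 / 64 ≤ x) (x1 : x ≤ 1 / 16) (h1 : |u| < 3 / 128) (h2 : |b| < 1 / 128) (h3 : |u + b| < 3 / 128) (wy : 1 / 32 < x + u ∧ x + u < 5 / 64) (wz : 1 / 32 < x + u + b ∧ x + u + b < 5 / 64) (hb : b < 0) (q3 : InQ 2 (1 + (x + u + b)))
    (hc : ∀ G ∈ cx_Am, 0 < G.v u b x) : ((pcN 2).K.v (c1n (x + u) - sm.xs.v u b x) (1 + (x + u + b)) x - (1 + mun 3 x * cR x) * (pcF 2).K.v (c1n (x + u) - sm.xs.v u b x) (1 + (x + u + b)) x) / mun 3 x =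
    (cP (x + u + b) - 1 / 2 * cD (x + u + b) - (cR (x + u + b) + 2 * c1n (x + u + b) - 1) * kcg.v (psn (x + u + b)) x) * (x + u + b) + sD_Am.v (c1n (x + u) - sm.xs.v u b x) (1 + (x + u + b)) x * (c1n (x + u) - sm.xs.v u b x - (c1n (x + u + b) - 1 / 2)) := by
  have hw := w_Am x0 x1 h1 h2 h3 wy wz hb
  obtain ⟨u1, u2⟩ := abs_lt.1 h1
  obtain ⟨b1, b2⟩ := abs_lt.1 h2
  obtain ⟨v1, v2⟩ := abs_lt.1 h3
  obtain ⟨y1, y2⟩ := wy
  obtain ⟨z1, z2⟩ := wz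
  have c0 : 0 < (tCC (w3W false) cv1p).v (c1n (x + u) - sm.xs.v u b x) (1 + (x + u + b)) x := hc (f3A sm.xs (tCC (w3W false) cv1p)) (by unfold cx_Am; simp only [List.mem_cons, true_or, or_true])
  have c1 : 0 < (tXC cv1p).v (c1n (x + u) - sm.xs.v u b x) (1 + (x + u + b)) x := hc (f3A sm.xs (tXC cv1p)) (by unfold cx_Am; simp only [List.mem_cons, true_or, or_true])
  refine (sDAm hF hN (mun_ne x) q3 (by linarith) (by linarith) c0 c1 hw).trans ?_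
  rw [w3D_A, w3W_A]
  push_cast
  ring
theorem fF_Am {x u b κ : ℝ} (hF : SideOk PP tKF tL pcF x) (hκ : κ * h0 = ken x)
    (x0 : 3 / 64 ≤ x) (x1 : x ≤ 1 / 16) (h1 : |u| < 3 / 128) (h2 : |b| < 1 / 128) (h3 : |u + b| < 3 / 128) (wy : 1 / 32 < x + u ∧ x + u < 5 / 64) (wz : 1 / 32 < x + u + b ∧ x + u + b < 5 / 64) (F : FactsA PP 0 1 2 0 0 1 (-1) (x + u) (1 + b)) :
    StA (VF κ) PP tKF tL pcF 0 1 2 0 0 1 (-1) x (x + u) (1 + b) := by
  have qs := F.q2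
  have hs1 := F.k0 rfl
  obtain ⟨u1, u2⟩ := abs_lt.1 h1
  obtain ⟨b1, b2⟩ := abs_lt.1 h2
  obtain ⟨v1, v2⟩ := abs_lt.1 h3
  obtain ⟨y1, y2⟩ := wy
  obtain ⟨z1, z2⟩ := wz
  have hb : b < 0 := by linarith [qs.2]
  have D : DomA u b x := ⟨by linarith, by linarith, by linarith, by linarith, by linarith, by linarith, by linarith, by linarith⟩
  have hY : x + u + (1 + b) = 1 + (x + u + b) := by ring
  have q3 : InQ 2 (1 + (x + u + b)) := hY ▸ F.q3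
  obtain ⟨p1, p2⟩ := psr (y := x + u) y1.le y2.le
  obtain ⟨p3, p4⟩ := psr (y := x + u + b) z1.le z2.le
  have hd := dqAm (dq_t x) hb (by linarith) (by linarith) (by linarith) (by linarith) p1 p2 p3 p4
  obtain ⟨r1, r2⟩ := rX x0 x1
  have K := Cht3.cert (ng := true) (r := 25165824) ct_0Am (u := u) (b := b) (x := x) (by unfold S; norm_num; linarith) (by unfold S; norm_num; linarith) (by simp only [cond_true, cond_false]; linarith) (by simp only [cond_true, cond_false]; unfold S; norm_num; linarith) r1 r2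
  have t3 := t3A2 F.q3
  have hit : ((T_Am.a false).at_ u b x).it * (x + u + b) = 1 := by
    show (x + u + b)⁻¹ * _ = _
    exact inv_mul_cancel₀ (ne_of_gt (by linarith))
  have hx : sm.xs.v u b x = 1 / 2 + b * sm.ws.v u b x := stM_x (by linarith) (by linarith)
  have hX : crv PP 0 1 (1 + b) = sm.xs.v u b x := crv0 1 (1 + b)
  have od : 1 ≤ qqn (c1n (x + u) - sm.xs.v u b x) (1 + (x + u + b)) ∧ qqn (c1n (x + u) - sm.xs.v u b x) (1 + (x + u + b)) ≤ 3 := by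
    have l1 := F.len1
    have l3 := F.len3
    have e : (1 : ℝ) * crv PP 0 0 (x + u) + -1 * crv PP 0 1 (1 + b) = c1n (x + u) - sm.xs.v u b x := by
      rw [hX, crv0]
      ring
    rw [e, hY] at l1 l3
    exact ⟨l1, l3⟩
  have hs : ∀ G ∈ sk_Am, G.v u b x ≤ 0 := skPM (A := true) (v := 25165824) (u := u) (b := b) (x := x) (abs_le.2 ⟨by simp only [cond_true, cond_false]; unfold S; norm_num; linarith, by simp only [cond_true, cond_false]; unfold S; norm_num; linarith⟩)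
  have K3 : (∀ G ∈ cx_Am, 0 < G.v u b x) → (pcF 2).K.v (c1n (x + u) - sm.xs.v u b x) (x + u + (1 + b)) x = ((c1n (x + u + b) - 1 / 2) * cG (x + u + b) + kcg.v (psn (x + u + b)) x) * (x + u + b) + sK_Am.v (c1n (x + u) - sm.xs.v u b x) (1 + (x + u + b)) x * (c1n (x + u) - sm.xs.v u b x - (c1n (x + u + b) - 1 / 2)) := fun hc => by
    rw [hY]
    exact zKAm hF x0 x1 h1 h2 h3 ⟨y1, y2⟩ ⟨z1, z2⟩ hb q3 hc
  have L3 : (∀ G ∈ cx_Am, 0 < G.v u b x) → (pcF 2).L.v (c1n (x + u) - sm.xs.v u b x) (x + u + (1 + b)) x = cQ x (x + u + b) (kcg.v (psn (x + u + b)) x) + sX_Am.v (c1n (x + u) - sm.xs.v u b x) (1 + (x + u + b)) x * (c1n (x + u) - sm.xs.v u b x - (c1n (x + u + b) - 1 / 2)) := fun hc => by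
    rw [hY]
    exact zLAm hF x0 x1 h1 h2 h3 ⟨y1, y2⟩ ⟨z1, z2⟩ hb q3 hc
  exact farJAm (T := T_Am) (sk := sk_Am) (cx := cx_Am) D hb hκ hd hit (t1_0 F.q1) t3 hx hX K hs (shK0 F.q1 y1.le y2.le) (smK u hb qs (by linarith)) K3 (shL0 F.q1 y1.le y2.le) (smL u hb qs (by linarith)) L3
theorem WmolF_A_012_00_0_p {x κ y y' : ℝ} (hF : SideOk PP tKF tL pcF x) (hκ : κ * h0 = ken x) (x0 : 3 / 64 ≤ x) (x1 : x ≤ 1 / 16)
    (F : FactsA PP 0 1 2 0 0 1 (-1) y y') (h1 : |y - x| < 3 / 128) (h2 : |y' - 1| < 1 / 128) (h3 : |y + y' - (1 + x)| < 3 / 128) (gy : 1 / 32 < y ∧ y < 5 / 64) (gz : 33 / 32 < y + y' ∧ y + y' < 69 / 64) :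
    StA (VF κ) PP tKF tL pcF 0 1 2 0 0 1 (-1) x y y' := by
  obtain ⟨u, rfl⟩ : ∃ u, y = x + u := ⟨y - x, by ring⟩
  obtain ⟨b, rfl⟩ : ∃ b, y' = 1 + b := ⟨y' - 1, by ring⟩
  rw [show x + u - x = u by ring] at h1
  rw [show 1 + b - 1 = b by ring] at h2
  rw [show x + u + (1 + b) - (1 + x) = u + b by ring] at h3
  have wy := gy
  have wz : 1 / 32 < x + u + b ∧ x + u + b < 5 / 64 := ⟨by linarith [gz.1], by linarith [gz.2]⟩
  exact fF_Am hF hκ x0 x1 h1 h2 h3 wy wz F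
theorem molF_A_012_00_0 {κ x : ℝ} (hκ : κ * h0 = ken x) (hx : ((50331648 : ℕ) : ℝ) / S ≤ x) (hx' : x ≤ (((50331648 : ℕ) : ℝ) + (16777216 : ℕ)) / S) :
    AltA (VF κ) PP tKF tL pcF [⟨0, 0, 1, 25165824⟩, ⟨1, 1, 0, 8388608⟩, ⟨2, 1, 1, 25165824⟩, ⟨0, 0, 0, 83886080⟩, ⟨0, 1, 0, 1040187392⟩, ⟨2, 1, 0, 83886080⟩, ⟨2, 2, 0, 1040187392⟩] 0 1 2 0 0 (sgb true) (sgb false) x := by
  obtain ⟨x0, x1⟩ := xr hx hx'
  intro y y' F h
  obtain ⟨h1, h2, h3, gy, gz⟩ := winA h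
  exact WmolF_A_012_00_0_p (sideF hx hx') hκ x0 x1 F (h1.trans_eq (by norm_num)) (h2.trans_eq (by norm_num)) (h3.trans_eq (by norm_num)) ⟨lt_of_eq_of_lt (by norm_num) gy.1, lt_of_lt_of_eq gy.2 (by norm_num)⟩ ⟨lt_of_eq_of_lt (by norm_num) gz.1, lt_of_lt_of_eq gz.2 (by norm_num)⟩
theorem WmolF_A_102_00_1_p {x κ y y' : ℝ} (hF : SideOk PP tKF tL pcF x) (hκ : κ * h0 = ken x) (x0 : 3 / 64 ≤ x) (x1 : x ≤ 1 / 16)
    (F : FactsA PP 1 0 2 0 0 1 (-1) y y') (h2 : |y - 1| < 1 / 128) (h1 : |y' - x| < 3 / 128) (h3 : |y + y' - (1 + x)| < 3 / 128) (gy : 1 / 32 < y' ∧ y' < 5 / 64) (gz : 33 / 32 < y + y' ∧ y + y' < 69 / 64) :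
    StA (VF κ) PP tKF tL pcF 1 0 2 0 0 1 (-1) x y y' := by
  have F2 := factsA_mirror F
  rw [neg_neg] at F2
  have h3' := h3
  rw [add_comm y y'] at h3'
  have gz' := gz
  rw [add_comm y y'] at gz'
  have H := WmolF_A_012_00_0_p hF hκ x0 x1 F2 h1 h2 h3' gy gz'
  obtain ⟨u1, u2⟩ := abs_lt.1 h1
  obtain ⟨b1, b2⟩ := abs_lt.1 h2
  have hX : (1 : ℝ) * crv PP 0 1 y + -1 * crv PP 0 0 y' ≠ 0 := by
    rw [crv0, crv0]
    have := c1n_lt (y := y') (z := y) (by linarith) (by linarith) (by nlinarith)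
    intro h
    linarith
  refine StA.mirF hF F hX ?_
  rw [neg_neg]
  exact H
theorem molF_A_102_00_1 {κ x : ℝ} (hκ : κ * h0 = ken x) (hx : ((50331648 : ℕ) : ℝ) / S ≤ x) (hx' : x ≤ (((50331648 : ℕ) : ℝ) + (16777216 : ℕ)) / S) :
    AltA (VF κ) PP tKF tL pcF [⟨0, 1, 0, 8388608⟩, ⟨1, 0, 1, 25165824⟩, ⟨2, 1, 1, 25165824⟩, ⟨1, 0, 0, 83886080⟩, ⟨1, 1, 0, 1040187392⟩, ⟨2, 1, 0, 83886080⟩, ⟨2, 2, 0, 1040187392⟩] 1 0 2 0 0 (sgb true) (sgb false) x := by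
  obtain ⟨x0, x1⟩ := xr hx hx'
  intro y y' F h
  obtain ⟨h2, h1, h3, gy, gz⟩ := winM h
  exact WmolF_A_102_00_1_p (sideF hx hx') hκ x0 x1 F (h2.trans_eq (by norm_num)) (h1.trans_eq (by norm_num)) (h3.trans_eq (by norm_num)) ⟨lt_of_eq_of_lt (by norm_num) gy.1, lt_of_lt_of_eq gy.2 (by norm_num)⟩ ⟨lt_of_eq_of_lt (by norm_num) gz.1, lt_of_lt_of_eq gz.2 (by norm_num)⟩
theorem fN_Am {x u b κ : ℝ} (hF : SideOk PP tKF tL pcF x) (hN : SideOk PP tKN tL pcN x) (hκ : κ * h0 = ken x)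
    (x0 : 3 / 64 ≤ x) (x1 : x ≤ 1 / 16) (h1 : |u| < 3 / 128) (h2 : |b| < 1 / 128) (h3 : |u + b| < 3 / 128) (wy : 1 / 32 < x + u ∧ x + u < 5 / 64) (wz : 1 / 32 < x + u + b ∧ x + u + b < 5 / 64) (F : FactsA PP 0 1 2 0 0 1 (-1) (x + u) (1 + b)) :
    StA (VN 3 κ) PP tKN tL pcN 0 1 2 0 0 1 (-1) x (x + u) (1 + b) := by
  have qs := F.q2
  have hs1 := F.k0 rfl
  obtain ⟨u1, u2⟩ := abs_lt.1 h1
  obtain ⟨b1, b2⟩ := abs_lt.1 h2
  obtain ⟨v1, v2⟩ := abs_lt.1 h3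
  obtain ⟨y1, y2⟩ := wy
  obtain ⟨z1, z2⟩ := wz
  have hb : b < 0 := by linarith [qs.2]
  have D : DomA u b x := ⟨by linarith, by linarith, by linarith, by linarith, by linarith, by linarith, by linarith, by linarith⟩
  have hY : x + u + (1 + b) = 1 + (x + u + b) := by ring
  have q3 : InQ 2 (1 + (x + u + b)) := hY ▸ F.q3
  obtain ⟨p1, p2⟩ := psr (y := x + u) y1.le y2.le
  obtain ⟨p3, p4⟩ := psr (y := x + u + b) z1.le z2.le
  have hd := dqAm (dq_t x) hb (by linarith) (by linarith) (by linarith) (by linarith) p1 p2 p3 p4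
  obtain ⟨r1, r2⟩ := rX x0 x1
  have K := Cht3.cert (ng := true) (r := 25165824) ct_1Am (u := u) (b := b) (x := x) (by unfold S; norm_num; linarith) (by unfold S; norm_num; linarith) (by simp only [cond_true, cond_false]; linarith) (by simp only [cond_true, cond_false]; unfold S; norm_num; linarith) r1 r2
  have t3 := t3A2 F.q3
  have hit : ((T_Am.a false).at_ u b x).it * (x + u + b) = 1 := by
    show (x + u + b)⁻¹ * _ = _
    exact inv_mul_cancel₀ (ne_of_gt (by linarith))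
  have hx : sm.xs.v u b x = 1 / 2 + b * sm.ws.v u b x := stM_x (by linarith) (by linarith)
  have hX : crv PP 0 1 (1 + b) = sm.xs.v u b x := crv0 1 (1 + b)
  have od : 1 ≤ qqn (c1n (x + u) - sm.xs.v u b x) (1 + (x + u + b)) ∧ qqn (c1n (x + u) - sm.xs.v u b x) (1 + (x + u + b)) ≤ 3 := by
    have l1 := F.len1
    have l3 := F.len3
    have e : (1 : ℝ) * crv PP 0 0 (x + u) + -1 * crv PP 0 1 (1 + b) = c1n (x + u) - sm.xs.v u b x := by
      rw [hX, crv0]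
      ring
    rw [e, hY] at l1 l3
    exact ⟨l1, l3⟩
  have hs : ∀ G ∈ sk_Am, G.v u b x ≤ 0 := skPM (A := true) (v := 25165824) (u := u) (b := b) (x := x) (abs_le.2 ⟨by simp only [cond_true, cond_false]; unfold S; norm_num; linarith, by simp only [cond_true, cond_false]; unfold S; norm_num; linarith⟩)
  have K3 : (∀ G ∈ cx_Am, 0 < G.v u b x) → (pcF 2).K.v (c1n (x + u) - sm.xs.v u b x) (x + u + (1 + b)) x = ((c1n (x + u + b) - 1 / 2) * cG (x + u + b) + kcg.v (psn (x + u + b)) x) * (x + u + b) + sK_Am.v (c1n (x + u) - sm.xs.v u b x) (1 + (x + u + b)) x * (c1n (x + u) - sm.xs.v u b x - (c1n (x + u + b) - 1 / 2)) := fun hc => by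
    rw [hY]
    exact zKAm hF x0 x1 h1 h2 h3 ⟨y1, y2⟩ ⟨z1, z2⟩ hb q3 hc
  have L3 : (∀ G ∈ cx_Am, 0 < G.v u b x) → (pcF 2).L.v (c1n (x + u) - sm.xs.v u b x) (x + u + (1 + b)) x = cQ x (x + u + b) (kcg.v (psn (x + u + b)) x) + sX_Am.v (c1n (x + u) - sm.xs.v u b x) (1 + (x + u + b)) x * (c1n (x + u) - sm.xs.v u b x - (c1n (x + u + b) - 1 / 2)) := fun hc => by
    rw [hY]
    exact zLAm hF x0 x1 h1 h2 h3 ⟨y1, y2⟩ ⟨z1, z2⟩ hb q3 hc
  have D3 : (∀ G ∈ cx_Am, 0 < G.v u b x) → ((pcN 2).K.v (c1n (x + u) - sm.xs.v u b x) (x + u + (1 + b)) x - (1 + mun 3 x * cR x) * (pcF 2).K.v (c1n (x + u) - sm.xs.v u b x) (x + u + (1 + b)) x) / mun 3 x = (cP (x + u + b) - 1 / 2 * cD (x + u + b) - (cR (x + u + b) + 2 * c1n (x + u + b) - 1) * kcg.v (psn (x + u + b)) x) * (x + u + b) + sD_Am.v (c1n (x + u) - sm.xs.v u b x) (1 + (x + u + b)) x * (c1n (x + u) - sm.xs.v u b x - (c1n (x + u +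 b) - 1 / 2)) := fun hc => by
    rw [hY]
    exact zDAm hF hN x0 x1 h1 h2 h3 ⟨y1, y2⟩ ⟨z1, z2⟩ hb q3 hc
  exact nearJAm (T := T_Am) (sk := sk_Am) (cx := cx_Am) D hb hκ hd hit (t1_0 F.q1) t3 hx hX K hs (kcb y1.le y2.le x0 x1) (shN0 F.q1 y1.le y2.le) (smN qs) (smK u hb qs (by linarith)) (smD u hb (by linarith)) (fun _ => div_mun) K3 D3 (shL0 F.q1 y1.le y2.le) (smL u hb qs (by linarith)) L3
theorem WmolN_A_012_00_0_p {x κ y y' : ℝ} (hF : SideOk PP tKF tL pcF x) (hN : SideOk PP tKN tL pcN x) (hκ : κ * h0 = ken x) (x0 : 3 / 64 ≤ x) (x1 : x ≤ 1 / 16)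
    (F : FactsA PP 0 1 2 0 0 1 (-1) y y') (h1 : |y - x| < 3 / 128) (h2 : |y' - 1| < 1 / 128) (h3 : |y + y' - (1 + x)| < 3 / 128) (gy : 1 / 32 < y ∧ y < 5 / 64) (gz : 33 / 32 < y + y' ∧ y + y' < 69 / 64) :
    StA (VN 3 κ) PP tKN tL pcN 0 1 2 0 0 1 (-1) x y y' := by
  obtain ⟨u, rfl⟩ : ∃ u, y = x + u := ⟨y - x, by ring⟩
  obtain ⟨b, rfl⟩ : ∃ b, y' = 1 + b := ⟨y' - 1, by ring⟩
  rw [show x + u - x = u by ring] at h1
  rw [show 1 + b - 1 = b by ring] at h2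
  rw [show x + u + (1 + b) - (1 + x) = u + b by ring] at h3
  have wy := gy
  have wz : 1 / 32 < x + u + b ∧ x + u + b < 5 / 64 := ⟨by linarith [gz.1], by linarith [gz.2]⟩
  exact fN_Am hF hN hκ x0 x1 h1 h2 h3 wy wz F
theorem molN_A_012_00_0 {κ x : ℝ} (hκ : κ * h0 = ken x) (hx : ((50331648 : ℕ) : ℝ) / S ≤ x) (hx' : x ≤ (((50331648 : ℕ) : ℝ) + (16777216 : ℕ)) / S) :
    AltA (VN 3 κ) PP tKN tL pcN [⟨0, 0, 1, 25165824⟩, ⟨1, 1, 0, 8388608⟩, ⟨2, 1, 1, 25165824⟩, ⟨0, 0, 0, 83886080⟩, ⟨0, 1, 0, 1040187392⟩, ⟨2, 1, 0, 83886080⟩, ⟨2, 2, 0, 1040187392⟩] 0 1 2 0 0 (sgb true) (sgb false) x := by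
  obtain ⟨x0, x1⟩ := xr hx hx'
  intro y y' F h
  obtain ⟨h1, h2, h3, gy, gz⟩ := winA h
  exact WmolN_A_012_00_0_p (sideF hx hx') (sideN hx hx') hκ x0 x1 F (h1.trans_eq (by norm_num)) (h2.trans_eq (by norm_num)) (h3.trans_eq (by norm_num)) ⟨lt_of_eq_of_lt (by norm_num) gy.1, lt_of_lt_of_eq gy.2 (by norm_num)⟩ ⟨lt_of_eq_of_lt (by norm_num) gz.1, lt_of_lt_of_eq gz.2 (by norm_num)⟩
theorem WmolN_A_102_00_1_p {x κ y y' : ℝ} (hF : SideOk PP tKF tL pcF x) (hN : SideOk PP tKN tL pcN x) (hκ : κ * h0 = ken x) (x0 : 3 / 64 ≤ x) (x1 : x ≤ 1 / 16)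
    (F : FactsA PP 1 0 2 0 0 1 (-1) y y') (h2 : |y - 1| < 1 / 128) (h1 : |y' - x| < 3 / 128) (h3 : |y + y' - (1 + x)| < 3 / 128) (gy : 1 / 32 < y' ∧ y' < 5 / 64) (gz : 33 / 32 < y + y' ∧ y + y' < 69 / 64) :
    StA (VN 3 κ) PP tKN tL pcN 1 0 2 0 0 1 (-1) x y y' := by
  have F2 := factsA_mirror F
  rw [neg_neg] at F2
  have h3' := h3
  rw [add_comm y y'] at h3'
  have gz' := gz
  rw [add_comm y y'] at gz'
  have H := WmolN_A_012_00_0_p hF hN hκ x0 x1 F2 h1 h2 h3' gy gz'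
  obtain ⟨u1, u2⟩ := abs_lt.1 h1
  obtain ⟨b1, b2⟩ := abs_lt.1 h2
  have hX : (1 : ℝ) * crv PP 0 1 y + -1 * crv PP 0 0 y' ≠ 0 := by
    rw [crv0, crv0]
    have := c1n_lt (y := y') (z := y) (by linarith) (by linarith) (by nlinarith)
    intro h
    linarith
  refine StA.mirN hN F hX ?_
  rw [neg_neg]
  exact H
theorem molN_A_102_00_1 {κ x : ℝ} (hκ : κ * h0 = ken x) (hx : ((50331648 : ℕ) : ℝ) / S ≤ x) (hx' : x ≤ (((50331648 : ℕ) : ℝ) + (16777216 : ℕ)) / S) :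
    AltA (VN 3 κ) PP tKN tL pcN [⟨0, 1, 0, 8388608⟩, ⟨1, 0, 1, 25165824⟩, ⟨2, 1, 1, 25165824⟩, ⟨1, 0, 0, 83886080⟩, ⟨1, 1, 0, 1040187392⟩, ⟨2, 1, 0, 83886080⟩, ⟨2, 2, 0, 1040187392⟩] 1 0 2 0 0 (sgb true) (sgb false) x := by
  obtain ⟨x0, x1⟩ := xr hx hx'
  intro y y' F h
  obtain ⟨h2, h1, h3, gy, gz⟩ := winM h
  exact WmolN_A_102_00_1_p (sideF hx hx') (sideN hx hx') hκ x0 x1 F (h2.trans_eq (by norm_num)) (h1.trans_eq (by norm_num)) (h3.trans_eq (by norm_num)) ⟨lt_of_eq_of_lt (by norm_num) gy.1, lt_of_lt_of_eq gy.2 (by norm_num)⟩ ⟨lt_of_eq_of_lt (by norm_num) gz.1, lt_of_lt_of_eq gz.2 (by norm_num)⟩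
theorem w_Bp {u b x : ℝ} (x0 : 3 / 64 ≤ x) (x1 : x ≤ 1 / 16) (h1 : |u| < 3 / 128) (h2 : |b| < 1 / 128) (h3 : |u - b| < 3 / 128) (wy : 1 / 32 < x + u ∧ x + u < 5 / 64) (wz : 1 / 32 < x + u - b ∧ x + u - b < 5 / 64) (hb : 0 ≤ b) : c1n (x + u) + sp.xs.v u b x ≤ (w3W true).v (1 - (x + u - b)) := by
  obtain ⟨u1, u2⟩ := abs_lt.1 h1
  obtain ⟨b1, b2⟩ := abs_lt.1 h2
  obtain ⟨v1, v2⟩ := abs_lt.1 h3
  obtain ⟨y1, y2⟩ := wy
  obtain ⟨z1, z2⟩ := wz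
  have cm1 : c1n (1 + b) ≤ 1 / 2 := c1n_half hb
  have cm2 : c1n (x + u) ≤ c1n (x + u - b) := c1n_le' (by linarith) (by linarith)
  rw [w3W_B]
  show c1n (x + u) + c1n (1 + b) ≤ c1n (x + u - b) + 1 / 2
  linarith
theorem zKBp {u b x : ℝ} (hF : SideOk PP tKF tL pcF x) (x0 : 3 / 64 ≤ x) (x1 : x ≤ 1 / 16) (h1 : |u| < 3 / 128) (h2 : |b| < 1 / 128) (h3 : |u - b| < 3 / 128) (wy : 1 / 32 < x + u ∧ x + u < 5 / 64) (wz : 1 / 32 < x + u - b ∧ x + u - b < 5 / 64) (hb : 0 ≤ b) (q3 : InQ 1 (1 - (x + u - b)))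
    (hc : ∀ G ∈ cx_Bp, 0 < G.v u b x) : (pcF 1).K.v (c1n (x + u) + sp.xs.v u b x) (1 - (x + u - b)) x =
    -(((c1n (x + u - b) + 1 / 2) * cG (x + u - b) + kcg.v (psn (x + u - b)) x) * -(x + u - b)) + sK_Bp.v (c1n (x + u) + sp.xs.v u b x) (1 - (x + u - b)) x * (c1n (x + u) + sp.xs.v u b x - (c1n (x + u - b) + 1 / 2)) := by
  have hw := w_Bp x0 x1 h1 h2 h3 wy wz hb
  obtain ⟨u1, u2⟩ := abs_lt.1 h1
  obtain ⟨b1, b2⟩ := abs_lt.1 h2
  obtain ⟨v1, v2⟩ := abs_lt.1 h3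
  obtain ⟨y1, y2⟩ := wy
  obtain ⟨z1, z2⟩ := wz
  have c0 : 0 < (tCC (w3W true) cv1m).v (c1n (x + u) + sp.xs.v u b x) (1 - (x + u - b)) x := hc (f3B sp.xs (tCC (w3W true) cv1m)) (by unfold cx_Bp; simp only [List.mem_cons, true_or, or_true])
  have c1 : 0 < (tXC cv1m).v (c1n (x + u) + sp.xs.v u b x) (1 - (x + u - b)) x := hc (f3B sp.xs (tXC cv1m)) (by unfold cx_Bp; simp only [List.mem_cons, true_or, or_true])
  refine (sKBp hF q3 (by linarith) (by linarith) c0 c1 hw).trans ?_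
  rw [w3K_B, w3W_B]
  push_cast
  ring
theorem zLBp {u b x : ℝ} (hF : SideOk PP tKF tL pcF x) (x0 : 3 / 64 ≤ x) (x1 : x ≤ 1 / 16) (h1 : |u| < 3 / 128) (h2 : |b| < 1 / 128) (h3 : |u - b| < 3 / 128) (wy : 1 / 32 < x + u ∧ x + u < 5 / 64) (wz : 1 / 32 < x + u - b ∧ x + u - b < 5 / 64) (hb : 0 ≤ b) (q3 : InQ 1 (1 - (x + u - b)))
    (hc : ∀ G ∈ cx_Bp, 0 < G.v u b x) : (pcF 1).L.v (c1n (x + u) + sp.xs.v u b x) (1 - (x + u - b)) x =
    cQ x (x + u - b) (kcg.v (psn (x + u - b)) x) + sX_Bp.v (c1n (x + u) + sp.xs.v u b x) (1 - (x + u - b)) x * (c1n (x + u) + sp.xs.v u b x - (c1n (x + u - b) + 1 / 2)) := by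
  have hw := w_Bp x0 x1 h1 h2 h3 wy wz hb
  obtain ⟨u1, u2⟩ := abs_lt.1 h1
  obtain ⟨b1, b2⟩ := abs_lt.1 h2
  obtain ⟨v1, v2⟩ := abs_lt.1 h3
  obtain ⟨y1, y2⟩ := wy
  obtain ⟨z1, z2⟩ := wz
  have c0 : 0 < (tCC (w3W true) cv1m).v (c1n (x + u) + sp.xs.v u b x) (1 - (x + u - b)) x := hc (f3B sp.xs (tCC (w3W true) cv1m)) (by unfold cx_Bp; simp only [List.mem_cons, true_or, or_true])
  have c1 : 0 < (tXC cv1m).v (c1n (x + u) + sp.xs.v u b x) (1 - (x + u - b)) x := hc (f3B sp.xs (tXC cv1m)) (by unfold cx_Bp; simp only [List.mem_cons, true_or, or_true])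
  refine (sLBp hF q3 (by linarith) (by linarith) c0 c1 hw).trans ?_
  rw [w3Q_B, w3W_B]
theorem zDBp {u b x : ℝ} (hF : SideOk PP tKF tL pcF x) (hN : SideOk PP tKN tL pcN x) (x0 : 3 / 64 ≤ x) (x1 : x ≤ 1 / 16) (h1 : |u| < 3 / 128) (h2 : |b| < 1 / 128) (h3 : |u - b| < 3 / 128) (wy : 1 / 32 < x + u ∧ x + u < 5 / 64) (wz : 1 / 32 < x + u - b ∧ x + u - b < 5 / 64) (hb : 0 ≤ b) (q3 : InQ 1 (1 - (x + u - b)))
    (hc : ∀ G ∈ cx_Bp, 0 < G.v u b x) : ((pcN 1).K.v (c1n (x + u) + sp.xs.v u b x) (1 - (x + u - b)) x - (1 + mun 3 x * cR x) * (pcF 1).K.v (c1n (x + u) + sp.xs.v u b x) (1 - (x + u - b)) x) / mun 3 x =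
    -((cP (x + u - b) + 1 / 2 * cD (x + u - b) - (cR (x + u - b) + 2 * c1n (x + u - b) + 1) * kcg.v (psn (x + u - b)) x) * -(x + u - b)) + sD_Bp.v (c1n (x + u) + sp.xs.v u b x) (1 - (x + u - b)) x * (c1n (x + u) + sp.xs.v u b x - (c1n (x + u - b) + 1 / 2)) := by
  have hw := w_Bp x0 x1 h1 h2 h3 wy wz hb
  obtain ⟨u1, u2⟩ := abs_lt.1 h1
  obtain ⟨b1, b2⟩ := abs_lt.1 h2
  obtain ⟨v1, v2⟩ := abs_lt.1 h3
  obtain ⟨y1, y2⟩ := wy
  obtain ⟨z1, z2⟩ := wz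
  have c0 : 0 < (tCC (w3W true) cv1m).v (c1n (x + u) + sp.xs.v u b x) (1 - (x + u - b)) x := hc (f3B sp.xs (tCC (w3W true) cv1m)) (by unfold cx_Bp; simp only [List.mem_cons, true_or, or_true])
  have c1 : 0 < (tXC cv1m).v (c1n (x + u) + sp.xs.v u b x) (1 - (x + u - b)) x := hc (f3B sp.xs (tXC cv1m)) (by unfold cx_Bp; simp only [List.mem_cons, true_or, or_true])
  refine (sDBp hF hN (mun_ne x) q3 (by linarith) (by linarith) c0 c1 hw).trans ?_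
  rw [w3D_B, w3W_B]
  push_cast
  ring
theorem fF_Bp {x u b κ y' : ℝ} (hF : SideOk PP tKF tL pcF x) (hκ : κ * h0 = ken x)
    (x0 : 3 / 64 ≤ x) (x1 : x ≤ 1 / 16) (h1 : |u| < 3 / 128) (h2 : |b| < 1 / 128) (h3 : |u - b| < 3 / 128) (wy : 1 / 32 < x + u ∧ x + u < 5 / 64) (wz : 1 / 32 < x + u - b ∧ x + u - b < 5 / 64) (hy : y' = 1 + b - (x + u)) (F : FactsB PP 0 1 2 0 0 1 (-1) (x + u) y') :
    StB (VF κ) PP tKF tL pcF 0 1 2 0 0 1 (-1) x (x + u) y' := by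
  have e0 : x + u + y' = 1 + b := by rw [hy]; ring
  have qs : InQ 2 (1 + b) := e0 ▸ F.q3
  have hs1 : h0 * (1 + b) < 1 := e0 ▸ F.k0 rfl
  obtain ⟨u1, u2⟩ := abs_lt.1 h1
  obtain ⟨b1, b2⟩ := abs_lt.1 h2
  obtain ⟨v1, v2⟩ := abs_lt.1 h3
  obtain ⟨y1, y2⟩ := wy
  obtain ⟨z1, z2⟩ := wz
  have hb : 0 ≤ b := by linarith [qs.1]
  have D : DomB u b x := ⟨by linarith, by linarith, by linarith, by linarith, by linarith, by linarith, by linarith, by linarith⟩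
  have hY : y' = 1 - (x + u - b) := by rw [hy]; ring
  have q3 : InQ 1 (1 - (x + u - b)) := hY ▸ F.q2
  obtain ⟨p1, p2⟩ := psr (y := x + u) y1.le y2.le
  obtain ⟨p3, p4⟩ := psr (y := x + u - b) z1.le z2.le
  have hd := dqBp (dq_t x) hb (by linarith) (by linarith) (by linarith) (by linarith) p1 p2 p3 p4
  obtain ⟨r1, r2⟩ := rX x0 x1
  have K := Cht3.cert (ng := false) (r := 25165824) ct_0Bp (u := u) (b := b) (x := x) (by unfold S; norm_num; linarith) (by unfold S; norm_num; linarith) (by simp only [cond_true, cond_false]; linarith) (by simp only [cond_true, cond_false]; unfold S; norm_num; linarith) r1 r2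
  have t3 := t3B1 F.q2 hy
  have hit : ((T_Bp.b true).at_ u b x).it * (x + u - b) = -1 := by
    show -(x + u - b)⁻¹ * _ = _
    rw [neg_mul, inv_mul_cancel₀ (ne_of_gt (by linarith))]
  have hx : sp.xs.v u b x = 1 / 2 + b * sp.ws.v u b x := stP_x (by linarith) (by linarith)
  have hX : crv PP 0 2 (1 + b) = sp.xs.v u b x := crv0 2 (1 + b)
  have od : 1 ≤ qqn (c1n (x + u) + sp.xs.v u b x) (1 - (x + u - b)) ∧ qqn (c1n (x + u) + sp.xs.v u b x) (1 - (x + u - b)) ≤ 3 ∧ c1n (x + u) + sp.xs.v u b x ≠ 0 := by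
    have l1 := F.len1
    have l3 := F.len3
    have cp := c1n_pos' (y := x + u) (by nlinarith)
    have cn : 0 ≤ c1n (1 + b) := Mol.c1n_nn (1 + b)
    have e : -1 * crv PP 0 2 (x + u + y') - 1 * crv PP 0 0 (x + u) = -(c1n (x + u) + sp.xs.v u b x) := by
      rw [e0, hX, crv0]
      ring
    rw [e, qqn_neg, hY] at l1 l3
    refine ⟨l1, l3, ne_of_gt ?_⟩
    show 0 < c1n (x + u) + c1n (1 + b)
    linarith
  have hs : ∀ G ∈ sk_Bp, G.v u b x ≤ 0 := skPM (A := false) (v := 25165824) (u := u) (b := b) (x := x) (abs_le.2 ⟨by simp only [cond_true, cond_false]; unfold S; norm_num; linarith, by simp only [cond_true, cond_false]; unfold S; norm_num; linarith⟩)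
  have eX : -sp.xs.v u b x - c1n (x + u) = -(c1n (x + u) + sp.xs.v u b x) := by ring
  have K3 : (∀ G ∈ cx_Bp, 0 < G.v u b x) → (pcF 1).K.v (-sp.xs.v u b x - c1n (x + u)) y' x = ((c1n (x + u - b) + 1 / 2) * cG (x + u - b) + kcg.v (psn (x + u - b)) x) * -(x + u - b) - sK_Bp.v (c1n (x + u) + sp.xs.v u b x) (1 - (x + u - b)) x * (c1n (x + u) + sp.xs.v u b x - (c1n (x + u - b) + 1 / 2)) := fun hc => by
    rw [eX, hY, (hF.odd q3 od.1 od.2.1 od.2.2).1, zKBp hF x0 x1 h1 h2 h3 ⟨y1, y2⟩ ⟨z1, z2⟩ hb q3 hc]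
    ring
  have L3 : (∀ G ∈ cx_Bp, 0 < G.v u b x) → (pcF 1).L.v (-sp.xs.v u b x - c1n (x + u)) y' x = -(cQ x (x + u - b) (kcg.v (psn (x + u - b)) x) + sX_Bp.v (c1n (x + u) + sp.xs.v u b x) (1 - (x + u - b)) x * (c1n (x + u) + sp.xs.v u b x - (c1n (x + u - b) + 1 / 2))) := fun hc => by
    rw [eX, hY, (hF.odd q3 od.1 od.2.1 od.2.2).2, zLBp hF x0 x1 h1 h2 h3 ⟨y1, y2⟩ ⟨z1, z2⟩ hb q3 hc]
  exact farJBp (T := T_Bp) (sk := sk_Bp) (cx := cx_Bp) D hb hκ hy hd hit (t1_0 F.q1) t3 hx hX K hs (shK0 F.q1 y1.le y2.le) (spK u hb qs hs1 (by linarith)) K3 (shL0 F.q1 y1.le y2.le) (spL u hb qs hs1 (by linarith)) L3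
theorem WmolF_B_012_00_0_p {x κ y y' : ℝ} (hF : SideOk PP tKF tL pcF x) (hκ : κ * h0 = ken x) (x0 : 3 / 64 ≤ x) (x1 : x ≤ 1 / 16)
    (F : FactsB PP 0 1 2 0 0 1 (-1) y y') (h1 : |y - x| < 3 / 128) (h3 : |y' - (1 - x)| < 3 / 128) (h2 : |y + y' - 1| < 1 / 128) (gy : 1 / 32 < y ∧ y < 5 / 64) (gz : 59 / 64 < y' ∧ y' < 31 / 32) :
    StB (VF κ) PP tKF tL pcF 0 1 2 0 0 1 (-1) x y y' := by
  obtain ⟨u, rfl⟩ : ∃ u, y = x + u := ⟨y - x, by ring⟩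
  obtain ⟨b, hy⟩ : ∃ b, y' = 1 + b - (x + u) := ⟨y' + (x + u) - 1, by ring⟩
  rw [show x + u - x = u by ring] at h1
  rw [show x + u + y' - 1 = b by rw [hy]; ring] at h2
  rw [show y' - (1 - x) = -(u - b) by rw [hy]; ring, abs_neg] at h3
  have wy := gy
  have wz : 1 / 32 < x + u - b ∧ x + u - b < 5 / 64 := ⟨by linarith [gz.2], by linarith [gz.1]⟩
  exact fF_Bp hF hκ x0 x1 h1 h2 h3 wy wz hy F
theorem molF_B_012_00_0 {κ x : ℝ} (hκ : κ * h0 = ken x) (hx : ((50331648 : ℕ) : ℝ) / S ≤ x) (hx' : x ≤ (((50331648 : ℕ) : ℝ) + (16777216 : ℕ)) / S) :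
    AltB (VF κ) PP tKF tL pcF [⟨0, 0, 1, 25165824⟩, ⟨1, 1, 2, 25165824⟩, ⟨2, 1, 0, 8388608⟩, ⟨0, 0, 0, 83886080⟩, ⟨0, 1, 0, 1040187392⟩, ⟨1, 0, 0, 1040187392⟩, ⟨1, 1, 0, 83886080⟩] 0 1 2 0 0 (sgb true) (sgb false) x := by
  obtain ⟨x0, x1⟩ := xr hx hx'
  intro y y' F h
  obtain ⟨h1, h3, h2, gy, gz⟩ := winB h
  exact WmolF_B_012_00_0_p (sideF hx hx') hκ x0 x1 F (h1.trans_eq (by norm_num)) (h3.trans_eq (by norm_num)) (h2.trans_eq (by norm_num)) ⟨lt_of_eq_of_lt (by norm_num) gy.1, lt_of_lt_of_eq gy.2 (by norm_num)⟩ ⟨lt_of_eq_of_lt (by norm_num) gz.2, lt_of_lt_of_eq gz.1 (by norm_num)⟩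
theorem fN_Bp {x u b κ y' : ℝ} (hF : SideOk PP tKF tL pcF x) (hN : SideOk PP tKN tL pcN x) (hκ : κ * h0 = ken x)
    (x0 : 3 / 64 ≤ x) (x1 : x ≤ 1 / 16) (h1 : |u| < 3 / 128) (h2 : |b| < 1 / 128) (h3 : |u - b| < 3 / 128) (wy : 1 / 32 < x + u ∧ x + u < 5 / 64) (wz : 1 / 32 < x + u - b ∧ x + u - b < 5 / 64) (hy : y' = 1 + b - (x + u)) (F : FactsB PP 0 1 2 0 0 1 (-1) (x + u) y') :
    StB (VN 3 κ) PP tKN tL pcN 0 1 2 0 0 1 (-1) x (x + u) y' := by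
  have e0 : x + u + y' = 1 + b := by rw [hy]; ring
  have qs : InQ 2 (1 + b) := e0 ▸ F.q3
  have hs1 : h0 * (1 + b) < 1 := e0 ▸ F.k0 rfl
  obtain ⟨u1, u2⟩ := abs_lt.1 h1
  obtain ⟨b1, b2⟩ := abs_lt.1 h2
  obtain ⟨v1, v2⟩ := abs_lt.1 h3
  obtain ⟨y1, y2⟩ := wy
  obtain ⟨z1, z2⟩ := wz
  have hb : 0 ≤ b := by linarith [qs.1]
  have D : DomB u b x := ⟨by linarith, by linarith, by linarith, by linarith, by linarith, by linarith, by linarith, by linarith⟩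
  have hY : y' = 1 - (x + u - b) := by rw [hy]; ring
  have q3 : InQ 1 (1 - (x + u - b)) := hY ▸ F.q2
  obtain ⟨p1, p2⟩ := psr (y := x + u) y1.le y2.le
  obtain ⟨p3, p4⟩ := psr (y := x + u - b) z1.le z2.le
  have hd := dqBp (dq_t x) hb (by linarith) (by linarith) (by linarith) (by linarith) p1 p2 p3 p4
  obtain ⟨r1, r2⟩ := rX x0 x1
  have K := Cht3.cert (ng := false) (r := 25165824) ct_1Bp (u := u) (b := b) (x := x) (by unfold S; norm_num; linarith) (by unfold S; norm_num; linarith) (by simp only [cond_true, cond_false]; linarith) (by simp only [cond_true, cond_false]; unfold S; norm_num; linarith) r1 r2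
  have t3 := t3B1 F.q2 hy
  have hit : ((T_Bp.b true).at_ u b x).it * (x + u - b) = -1 := by
    show -(x + u - b)⁻¹ * _ = _
    rw [neg_mul, inv_mul_cancel₀ (ne_of_gt (by linarith))]
  have hx : sp.xs.v u b x = 1 / 2 + b * sp.ws.v u b x := stP_x (by linarith) (by linarith)
  have hX : crv PP 0 2 (1 + b) = sp.xs.v u b x := crv0 2 (1 + b)
  have od : 1 ≤ qqn (c1n (x + u) + sp.xs.v u b x) (1 - (x + u - b)) ∧ qqn (c1n (x + u) + sp.xs.v u b x) (1 - (x + u - b)) ≤ 3 ∧ c1n (x + u) + sp.xs.v u b x ≠ 0 := by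
    have l1 := F.len1
    have l3 := F.len3
    have cp := c1n_pos' (y := x + u) (by nlinarith)
    have cn : 0 ≤ c1n (1 + b) := Mol.c1n_nn (1 + b)
    have e : -1 * crv PP 0 2 (x + u + y') - 1 * crv PP 0 0 (x + u) = -(c1n (x + u) + sp.xs.v u b x) := by
      rw [e0, hX, crv0]
      ring
    rw [e, qqn_neg, hY] at l1 l3
    refine ⟨l1, l3, ne_of_gt ?_⟩
    show 0 < c1n (x + u) + c1n (1 + b)
    linarith
  have hs : ∀ G ∈ sk_Bp, G.v u b x ≤ 0 := skPM (A := false) (v := 25165824) (u := u) (b := b) (x := x) (abs_le.2 ⟨by simp only [cond_true, cond_false]; unfold S; norm_num; linarith, by simp only [cond_true, cond_false]; unfold S; norm_num; linarith⟩)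
  have eX : -sp.xs.v u b x - c1n (x + u) = -(c1n (x + u) + sp.xs.v u b x) := by ring
  have K3 : (∀ G ∈ cx_Bp, 0 < G.v u b x) → (pcF 1).K.v (-sp.xs.v u b x - c1n (x + u)) y' x = ((c1n (x + u - b) + 1 / 2) * cG (x + u - b) + kcg.v (psn (x + u - b)) x) * -(x + u - b) - sK_Bp.v (c1n (x + u) + sp.xs.v u b x) (1 - (x + u - b)) x * (c1n (x + u) + sp.xs.v u b x - (c1n (x + u - b) + 1 / 2)) := fun hc => by
    rw [eX, hY, (hF.odd q3 od.1 od.2.1 od.2.2).1, zKBp hF x0 x1 h1 h2 h3 ⟨y1, y2⟩ ⟨z1, z2⟩ hb q3 hc]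
    ring
  have L3 : (∀ G ∈ cx_Bp, 0 < G.v u b x) → (pcF 1).L.v (-sp.xs.v u b x - c1n (x + u)) y' x = -(cQ x (x + u - b) (kcg.v (psn (x + u - b)) x) + sX_Bp.v (c1n (x + u) + sp.xs.v u b x) (1 - (x + u - b)) x * (c1n (x + u) + sp.xs.v u b x - (c1n (x + u - b) + 1 / 2))) := fun hc => by
    rw [eX, hY, (hF.odd q3 od.1 od.2.1 od.2.2).2, zLBp hF x0 x1 h1 h2 h3 ⟨y1, y2⟩ ⟨z1, z2⟩ hb q3 hc]
  have D3 : (∀ G ∈ cx_Bp, 0 < G.v u b x) → ((pcN 1).K.v (-sp.xs.v u b x - c1n (x + u)) y' x - (1 + mun 3 x * cR x) * (pcF 1).K.v (-sp.xs.v u b x - c1n (x + u)) y' x) / mun 3 x = (cP (x + u - b) + 1 / 2 * cD (x + u - b) - (cR (x + u - b) + 2 * c1n (x + u - b) + 1) * kcg.v (psn (x + u - b)) x) * -(x + u - b) - sD_Bp.v (c1n (x + u) + sp.xs.v u b x) (1 - (x + u - b)) x * (c1n (x + u) + sp.xs.v u b x - (c1n (x + u - b) + 1 / 2)) := fun hc => by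
    have e := zDBp hF hN x0 x1 h1 h2 h3 ⟨y1, y2⟩ ⟨z1, z2⟩ hb q3 hc
    rw [eX, hY, (hF.odd q3 od.1 od.2.1 od.2.2).1, (hN.odd q3 od.1 od.2.1 od.2.2).1]
    rw [div_eq_iff (mun_ne x)] at e ⊢
    linear_combination -e
  exact nearJBp (T := T_Bp) (sk := sk_Bp) (cx := cx_Bp) D hb hκ hy hd hit (t1_0 F.q1) t3 hx hX K hs (kcb y1.le y2.le x0 x1) (shN0 F.q1 y1.le y2.le) (spN hb qs hs1) (spK u hb qs hs1 (by linarith)) (spD u hb hs1 (by linarith)) (fun _ => div_mun) K3 D3 (shL0 F.q1 y1.le y2.le) (spL u hb qs hs1 (by linarith)) L3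
theorem WmolN_B_012_00_0_p {x κ y y' : ℝ} (hF : SideOk PP tKF tL pcF x) (hN : SideOk PP tKN tL pcN x) (hκ : κ * h0 = ken x) (x0 : 3 / 64 ≤ x) (x1 : x ≤ 1 / 16)
    (F : FactsB PP 0 1 2 0 0 1 (-1) y y') (h1 : |y - x| < 3 / 128) (h3 : |y' - (1 - x)| < 3 / 128) (h2 : |y + y' - 1| < 1 / 128) (gy : 1 / 32 < y ∧ y < 5 / 64) (gz : 59 / 64 < y' ∧ y' < 31 / 32) :
    StB (VN 3 κ) PP tKN tL pcN 0 1 2 0 0 1 (-1) x y y' := by
  obtain ⟨u, rfl⟩ : ∃ u, y = x + u := ⟨y - x, by ring⟩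
  obtain ⟨b, hy⟩ : ∃ b, y' = 1 + b - (x + u) := ⟨y' + (x + u) - 1, by ring⟩
  rw [show x + u - x = u by ring] at h1
  rw [show x + u + y' - 1 = b by rw [hy]; ring] at h2
  rw [show y' - (1 - x) = -(u - b) by rw [hy]; ring, abs_neg] at h3
  have wy := gy
  have wz : 1 / 32 < x + u - b ∧ x + u - b < 5 / 64 := ⟨by linarith [gz.2], by linarith [gz.1]⟩
  exact fN_Bp hF hN hκ x0 x1 h1 h2 h3 wy wz hy F
theorem molN_B_012_00_0 {κ x : ℝ} (hκ : κ * h0 = ken x) (hx : ((50331648 : ℕ) : ℝ) / S ≤ x) (hx' : x ≤ (((50331648 : ℕ) : ℝ) + (16777216 : ℕ)) / S) :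
    AltB (VN 3 κ) PP tKN tL pcN [⟨0, 0, 1, 25165824⟩, ⟨1, 1, 2, 25165824⟩, ⟨2, 1, 0, 8388608⟩, ⟨0, 0, 0, 83886080⟩, ⟨0, 1, 0, 1040187392⟩, ⟨1, 0, 0, 1040187392⟩, ⟨1, 1, 0, 83886080⟩] 0 1 2 0 0 (sgb true) (sgb false) x := by
  obtain ⟨x0, x1⟩ := xr hx hx'
  intro y y' F h
  obtain ⟨h1, h3, h2, gy, gz⟩ := winB h
  exact WmolN_B_012_00_0_p (sideF hx hx') (sideN hx hx') hκ x0 x1 F (h1.trans_eq (by norm_num)) (h3.trans_eq (by norm_num)) (h2.trans_eq (by norm_num)) ⟨lt_of_eq_of_lt (by norm_num) gy.1, lt_of_lt_of_eq gy.2 (by norm_num)⟩ ⟨lt_of_eq_of_lt (by norm_num) gz.2, lt_of_lt_of_eq gz.1 (by norm_num)⟩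
theorem w_Bpk1 {u b x : ℝ} (x0 : 3 / 64 ≤ x) (x1 : x ≤ 1 / 16) (h1 : |u| < 1 / 32) (h2 : |b| < 1 / 64) (h3 : |u - b| < 1 / 32) (wy : 1 / 32 < x + u ∧ x + u < 5 / 64) (wz : 1 / 32 < x + u - b ∧ x + u - b < 5 / 64) (hb : 0 ≤ b) : c1n (x + u) + sk1.xs.v u b x ≤ (w3W true).v (1 - (x + u - b)) := by
  obtain ⟨u1, u2⟩ := abs_lt.1 h1
  obtain ⟨b1, b2⟩ := abs_lt.1 h2
  obtain ⟨v1, v2⟩ := abs_lt.1 h3
  obtain ⟨y1, y2⟩ := wy
  obtain ⟨z1, z2⟩ := wz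
  have cm1 : (fXS 2 3 5).v u b x ≤ 1 / 2 := fXS_le (by norm_num) hb
  have cm2 : c1n (x + u) ≤ c1n (x + u - b) := c1n_le' (by linarith) (by linarith)
  rw [w3W_B]
  show c1n (x + u) + (fXS 2 3 5).v u b x ≤ c1n (x + u - b) + 1 / 2
  linarith
theorem zKBpk1 {u b x : ℝ} (hF : SideOk PP tKF tL pcF x) (x0 : 3 / 64 ≤ x) (x1 : x ≤ 1 / 16) (h1 : |u| < 1 / 32) (h2 : |b| < 1 / 64) (h3 : |u - b| < 1 / 32) (wy : 1 / 32 < x + u ∧ x + u < 5 / 64) (wz : 1 / 32 < x + u - b ∧ x + u - b < 5 / 64) (hb : 0 ≤ b) (q3 : InQ 1 (1 - (x + u - b)))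
    (hc : ∀ G ∈ cx_Bpk1, 0 < G.v u b x) : (pcF 1).K.v (c1n (x + u) + sk1.xs.v u b x) (1 - (x + u - b)) x =
    -(((c1n (x + u - b) + 1 / 2) * cG (x + u - b) + kcg.v (psn (x + u - b)) x) * -(x + u - b)) + sK_Bpk1.v (c1n (x + u) + sk1.xs.v u b x) (1 - (x + u - b)) x * (c1n (x + u) + sk1.xs.v u b x - (c1n (x + u - b) + 1 / 2)) := by
  have hw := w_Bpk1 x0 x1 h1 h2 h3 wy wz hb
  obtain ⟨u1, u2⟩ := abs_lt.1 h1
  obtain ⟨b1, b2⟩ := abs_lt.1 h2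
  obtain ⟨v1, v2⟩ := abs_lt.1 h3
  obtain ⟨y1, y2⟩ := wy
  obtain ⟨z1, z2⟩ := wz
  have c0 : 0 < (tCC (w3W true) cv1m).v (c1n (x + u) + sk1.xs.v u b x) (1 - (x + u - b)) x := hc (f3B sk1.xs (tCC (w3W true) cv1m)) (by unfold cx_Bpk1; simp only [List.mem_cons, true_or, or_true])
  have c1 : 0 < (tXC cv1m).v (c1n (x + u) + sk1.xs.v u b x) (1 - (x + u - b)) x := hc (f3B sk1.xs (tXC cv1m)) (by unfold cx_Bpk1; simp only [List.mem_cons, true_or, or_true])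
  refine (sKBpk1 hF q3 (by linarith) (by linarith) c0 c1 hw).trans ?_
  rw [w3K_B, w3W_B]
  push_cast
  ring
theorem zLBpk1 {u b x : ℝ} (hF : SideOk PP tKF tL pcF x) (x0 : 3 / 64 ≤ x) (x1 : x ≤ 1 / 16) (h1 : |u| < 1 / 32) (h2 : |b| < 1 / 64) (h3 : |u - b| < 1 / 32) (wy : 1 / 32 < x + u ∧ x + u < 5 / 64) (wz : 1 / 32 < x + u - b ∧ x + u - b < 5 / 64) (hb : 0 ≤ b) (q3 : InQ 1 (1 - (x + u - b)))
    (hc : ∀ G ∈ cx_Bpk1, 0 < G.v u b x) : (pcF 1).L.v (c1n (x + u) + sk1.xs.v u b x) (1 - (x + u - b)) x =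
    cQ x (x + u - b) (kcg.v (psn (x + u - b)) x) + sX_Bpk1.v (c1n (x + u) + sk1.xs.v u b x) (1 - (x + u - b)) x * (c1n (x + u) + sk1.xs.v u b x - (c1n (x + u - b) + 1 / 2)) := by
  have hw := w_Bpk1 x0 x1 h1 h2 h3 wy wz hb
  obtain ⟨u1, u2⟩ := abs_lt.1 h1
  obtain ⟨b1, b2⟩ := abs_lt.1 h2
  obtain ⟨v1, v2⟩ := abs_lt.1 h3
  obtain ⟨y1, y2⟩ := wy
  obtain ⟨z1, z2⟩ := wz
  have c0 : 0 < (tCC (w3W true) cv1m).v (c1n (x + u) + sk1.xs.v u b x) (1 - (x + u - b)) x := hc (f3B sk1.xs (tCC (w3W true) cv1m)) (by unfold cx_Bpk1; simp only [List.mem_cons, true_or, or_true])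
  have c1 : 0 < (tXC cv1m).v (c1n (x + u) + sk1.xs.v u b x) (1 - (x + u - b)) x := hc (f3B sk1.xs (tXC cv1m)) (by unfold cx_Bpk1; simp only [List.mem_cons, true_or, or_true])
  refine (sLBpk1 hF q3 (by linarith) (by linarith) c0 c1 hw).trans ?_
  rw [w3Q_B, w3W_B]
theorem zDBpk1 {u b x : ℝ} (hF : SideOk PP tKF tL pcF x) (hN : SideOk PP tKN tL pcN x) (x0 : 3 / 64 ≤ x) (x1 : x ≤ 1 / 16) (h1 : |u| < 1 / 32) (h2 : |b| < 1 / 64) (h3 : |u - b| < 1 / 32) (wy : 1 / 32 < x + u ∧ x + u < 5 / 64) (wz : 1 / 32 < x + u - b ∧ x + u - b < 5 / 64) (hb : 0 ≤ b) (q3 : InQ 1 (1 - (x + u - b)))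
    (hc : ∀ G ∈ cx_Bpk1, 0 < G.v u b x) : ((pcN 1).K.v (c1n (x + u) + sk1.xs.v u b x) (1 - (x + u - b)) x - (1 + mun 3 x * cR x) * (pcF 1).K.v (c1n (x + u) + sk1.xs.v u b x) (1 - (x + u - b)) x) / mun 3 x =
    -((cP (x + u - b) + 1 / 2 * cD (x + u - b) - (cR (x + u - b) + 2 * c1n (x + u - b) + 1) * kcg.v (psn (x + u - b)) x) * -(x + u - b)) + sD_Bpk1.v (c1n (x + u) + sk1.xs.v u b x) (1 - (x + u - b)) x * (c1n (x + u) + sk1.xs.v u b x - (c1n (x + u - b) + 1 / 2)) := by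
  have hw := w_Bpk1 x0 x1 h1 h2 h3 wy wz hb
  obtain ⟨u1, u2⟩ := abs_lt.1 h1
  obtain ⟨b1, b2⟩ := abs_lt.1 h2
  obtain ⟨v1, v2⟩ := abs_lt.1 h3
  obtain ⟨y1, y2⟩ := wy
  obtain ⟨z1, z2⟩ := wz
  have c0 : 0 < (tCC (w3W true) cv1m).v (c1n (x + u) + sk1.xs.v u b x) (1 - (x + u - b)) x := hc (f3B sk1.xs (tCC (w3W true) cv1m)) (by unfold cx_Bpk1; simp only [List.mem_cons, true_or, or_true])
  have c1 : 0 < (tXC cv1m).v (c1n (x + u) + sk1.xs.v u b x) (1 - (x + u - b)) x := hc (f3B sk1.xs (tXC cv1m)) (by unfold cx_Bpk1; simp only [List.mem_cons, true_or, or_true])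
  refine (sDBpk1 hF hN (mun_ne x) q3 (by linarith) (by linarith) c0 c1 hw).trans ?_
  rw [w3D_B, w3W_B]
  push_cast
  ring
theorem fF_Bpk1 {x u b κ y' : ℝ} (hF : SideOk PP tKF tL pcF x) (hκ : κ * h0 = ken x)
    (x0 : 3 / 64 ≤ x) (x1 : x ≤ 1 / 16) (h1 : |u| < 1 / 32) (h2 : |b| < 1 / 64) (h3 : |u - b| < 1 / 32) (wy : 1 / 32 < x + u ∧ x + u < 5 / 64) (wz : 1 / 32 < x + u - b ∧ x + u - b < 5 / 64) (hy : y' = 1 + b - (x + u)) (F : FactsB PP 0 1 2 0 1 1 (-1) (x + u) y') :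
    StB (VF κ) PP tKF tL pcF 0 1 2 0 1 1 (-1) x (x + u) y' := by
  have e0 : x + u + y' = 1 + b := by rw [hy]; ring
  have qs : InQ 2 (1 + b) := e0 ▸ F.q3
  obtain ⟨u1, u2⟩ := abs_lt.1 h1
  obtain ⟨b1, b2⟩ := abs_lt.1 h2
  obtain ⟨v1, v2⟩ := abs_lt.1 h3
  obtain ⟨y1, y2⟩ := wy
  obtain ⟨z1, z2⟩ := wz
  have hb : 0 ≤ b := by linarith [qs.1]
  have D : DomB u b x := ⟨by linarith, by linarith, by linarith, by linarith, by linarith, by linarith, by linarith, by linarith⟩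
  have hY : y' = 1 - (x + u - b) := by rw [hy]; ring
  have q3 : InQ 1 (1 - (x + u - b)) := hY ▸ F.q2
  obtain ⟨p1, p2⟩ := psr (y := x + u) y1.le y2.le
  obtain ⟨p3, p4⟩ := psr (y := x + u - b) z1.le z2.le
  have hd := dqBp (dq_t x) hb (by linarith) (by linarith) (by linarith) (by linarith) p1 p2 p3 p4
  obtain ⟨r1, r2⟩ := rX x0 x1
  have K := Cht3.cert (ng := false) (r := 33554432) ct_0Bpk1 (u := u) (b := b) (x := x) (by unfold S; norm_num; linarith) (by unfold S; norm_num; linarith) (by simp only [cond_true, cond_false]; linarith) (by simp only [cond_true, cond_false]; unfold S; norm_num; linarith) r1 r2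
  have t3 := t3B1 F.q2 hy
  have hit : ((T_Bpk1.b true).at_ u b x).it * (x + u - b) = -1 := by
    show -(x + u - b)⁻¹ * _ = _
    rw [neg_mul, inv_mul_cancel₀ (ne_of_gt (by linarith))]
  have hx : sk1.xs.v u b x = 1 / 2 + b * sk1.ws.v u b x := stK_x (by norm_num) (by linarith) (by linarith)
  have hX : crv PP 1 2 (1 + b) = sk1.xs.v u b x := sX1 u
  have od : 1 ≤ qqn (c1n (x + u) + sk1.xs.v u b x) (1 - (x + u - b)) ∧ qqn (c1n (x + u) + sk1.xs.v u b x) (1 - (x + u - b)) ≤ 3 ∧ c1n (x + u) + sk1.xs.v u b x ≠ 0 := by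
    have l1 := F.len1
    have l3 := F.len3
    have cp := c1n_pos' (y := x + u) (by nlinarith)
    have cn : 0 ≤ (fXS 2 3 5).v u b x := fXS_nn hb (by linarith)
    have e : -1 * crv PP 1 2 (x + u + y') - 1 * crv PP 0 0 (x + u) = -(c1n (x + u) + sk1.xs.v u b x) := by
      rw [e0, hX, crv0]
      ring
    rw [e, qqn_neg, hY] at l1 l3
    refine ⟨l1, l3, ne_of_gt ?_⟩
    show 0 < c1n (x + u) + (fXS 2 3 5).v u b x
    linarith
  have hs : ∀ G ∈ sk_Bpk1, G.v u b x ≤ 0 := skPM (A := false) (v := 33554432) (u := u) (b := b) (x := x) (abs_le.2 ⟨by simp only [cond_true, cond_false]; unfold S; norm_num; linarith, by simp only [cond_true, cond_false]; unfold S; norm_num; linarith⟩)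
  have eX : -sk1.xs.v u b x - c1n (x + u) = -(c1n (x + u) + sk1.xs.v u b x) := by ring
  have K3 : (∀ G ∈ cx_Bpk1, 0 < G.v u b x) → (pcF 1).K.v (-sk1.xs.v u b x - c1n (x + u)) y' x = ((c1n (x + u - b) + 1 / 2) * cG (x + u - b) + kcg.v (psn (x + u - b)) x) * -(x + u - b) - sK_Bpk1.v (c1n (x + u) + sk1.xs.v u b x) (1 - (x + u - b)) x * (c1n (x + u) + sk1.xs.v u b x - (c1n (x + u - b) + 1 / 2)) := fun hc => by
    rw [eX, hY, (hF.odd q3 od.1 od.2.1 od.2.2).1, zKBpk1 hF x0 x1 h1 h2 h3 ⟨y1, y2⟩ ⟨z1, z2⟩ hb q3 hc]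
    ring
  have L3 : (∀ G ∈ cx_Bpk1, 0 < G.v u b x) → (pcF 1).L.v (-sk1.xs.v u b x - c1n (x + u)) y' x = -(cQ x (x + u - b) (kcg.v (psn (x + u - b)) x) + sX_Bpk1.v (c1n (x + u) + sk1.xs.v u b x) (1 - (x + u - b)) x * (c1n (x + u) + sk1.xs.v u b x - (c1n (x + u - b) + 1 / 2))) := fun hc => by
    rw [eX, hY, (hF.odd q3 od.1 od.2.1 od.2.2).2, zLBpk1 hF x0 x1 h1 h2 h3 ⟨y1, y2⟩ ⟨z1, z2⟩ hb q3 hc]
  exact farJBp (T := T_Bpk1) (sk := sk_Bpk1) (cx := cx_Bpk1) D hb hκ hy hd hit (t1_0 F.q1) t3 hx hX K hs (shK0 F.q1 y1.le y2.le) (sk1K u hb qs (by linarith)) K3 (shL0 F.q1 y1.le y2.le) (sk1L u hb qs (by linarith)) L3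
theorem WmolF_B_012_01_0_p {x κ y y' : ℝ} (hF : SideOk PP tKF tL pcF x) (hκ : κ * h0 = ken x) (x0 : 3 / 64 ≤ x) (x1 : x ≤ 1 / 16)
    (F : FactsB PP 0 1 2 0 1 1 (-1) y y') (h1 : |y - x| < 1 / 32) (h3 : |y' - (1 - x)| < 1 / 32) (h2 : |y + y' - 1| < 1 / 64) (gy : 1 / 32 < y ∧ y < 5 / 64) (gz : 59 / 64 < y' ∧ y' < 31 / 32) :
    StB (VF κ) PP tKF tL pcF 0 1 2 0 1 1 (-1) x y y' := by
  obtain ⟨u, rfl⟩ : ∃ u, y = x + u := ⟨y - x, by ring⟩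
  obtain ⟨b, hy⟩ : ∃ b, y' = 1 + b - (x + u) := ⟨y' + (x + u) - 1, by ring⟩
  rw [show x + u - x = u by ring] at h1
  rw [show x + u + y' - 1 = b by rw [hy]; ring] at h2
  rw [show y' - (1 - x) = -(u - b) by rw [hy]; ring, abs_neg] at h3
  have wy := gy
  have wz : 1 / 32 < x + u - b ∧ x + u - b < 5 / 64 := ⟨by linarith [gz.2], by linarith [gz.1]⟩
  exact fF_Bpk1 hF hκ x0 x1 h1 h2 h3 wy wz hy F
theorem molF_B_012_01_0 {κ x : ℝ} (hκ : κ * h0 = ken x) (hx : ((50331648 : ℕ) : ℝ) / S ≤ x) (hx' : x ≤ (((50331648 : ℕ) : ℝ) + (16777216 : ℕ)) / S) :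
    AltB (VF κ) PP tKF tL pcF [⟨0, 0, 1, 33554432⟩, ⟨1, 1, 2, 33554432⟩, ⟨2, 1, 0, 16777216⟩, ⟨0, 0, 0, 83886080⟩, ⟨0, 1, 0, 1040187392⟩, ⟨1, 0, 0, 1040187392⟩, ⟨1, 1, 0, 83886080⟩] 0 1 2 0 1 (sgb true) (sgb false) x := by
  obtain ⟨x0, x1⟩ := xr hx hx'
  intro y y' F h
  obtain ⟨h1, h3, h2, gy, gz⟩ := winB h
  exact WmolF_B_012_01_0_p (sideF hx hx') hκ x0 x1 F (h1.trans_eq (by norm_num)) (h3.trans_eq (by norm_num)) (h2.trans_eq (by norm_num)) ⟨lt_of_eq_of_lt (by norm_num) gy.1, lt_of_lt_of_eq gy.2 (by norm_num)⟩ ⟨lt_of_eq_of_lt (by norm_num) gz.2, lt_of_lt_of_eq gz.1 (by norm_num)⟩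
theorem fN_Bpk1 {x u b κ y' : ℝ} (hF : SideOk PP tKF tL pcF x) (hN : SideOk PP tKN tL pcN x) (hκ : κ * h0 = ken x)
    (x0 : 3 / 64 ≤ x) (x1 : x ≤ 1 / 16) (h1 : |u| < 1 / 32) (h2 : |b| < 1 / 64) (h3 : |u - b| < 1 / 32) (wy : 1 / 32 < x + u ∧ x + u < 5 / 64) (wz : 1 / 32 < x + u - b ∧ x + u - b < 5 / 64) (hy : y' = 1 + b - (x + u)) (F : FactsB PP 0 1 2 0 1 1 (-1) (x + u) y') :
    StB (VN 3 κ) PP tKN tL pcN 0 1 2 0 1 1 (-1) x (x + u) y' := by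
  have e0 : x + u + y' = 1 + b := by rw [hy]; ring
  have qs : InQ 2 (1 + b) := e0 ▸ F.q3
  obtain ⟨u1, u2⟩ := abs_lt.1 h1
  obtain ⟨b1, b2⟩ := abs_lt.1 h2
  obtain ⟨v1, v2⟩ := abs_lt.1 h3
  obtain ⟨y1, y2⟩ := wy
  obtain ⟨z1, z2⟩ := wz
  have hb : 0 ≤ b := by linarith [qs.1]
  have D : DomB u b x := ⟨by linarith, by linarith, by linarith, by linarith, by linarith, by linarith, by linarith, by linarith⟩
  have hY : y' = 1 - (x + u - b) := by rw [hy]; ring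
  have q3 : InQ 1 (1 - (x + u - b)) := hY ▸ F.q2
  obtain ⟨p1, p2⟩ := psr (y := x + u) y1.le y2.le
  obtain ⟨p3, p4⟩ := psr (y := x + u - b) z1.le z2.le
  have hd := dqBp (dq_t x) hb (by linarith) (by linarith) (by linarith) (by linarith) p1 p2 p3 p4
  obtain ⟨r1, r2⟩ := rX x0 x1
  have K := Cht3.cert (ng := false) (r := 33554432) ct_1Bpk1 (u := u) (b := b) (x := x) (by unfold S; norm_num; linarith) (by unfold S; norm_num; linarith) (by simp only [cond_true, cond_false]; linarith) (by simp only [cond_true, cond_false]; unfold S; norm_num; linarith) r1 r2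
  have t3 := t3B1 F.q2 hy
  have hit : ((T_Bpk1.b true).at_ u b x).it * (x + u - b) = -1 := by
    show -(x + u - b)⁻¹ * _ = _
    rw [neg_mul, inv_mul_cancel₀ (ne_of_gt (by linarith))]
  have hx : sk1.xs.v u b x = 1 / 2 + b * sk1.ws.v u b x := stK_x (by norm_num) (by linarith) (by linarith)
  have hX : crv PP 1 2 (1 + b) = sk1.xs.v u b x := sX1 u
  have od : 1 ≤ qqn (c1n (x + u) + sk1.xs.v u b x) (1 - (x + u - b)) ∧ qqn (c1n (x + u) + sk1.xs.v u b x) (1 - (x + u - b)) ≤ 3 ∧ c1n (x + u) + sk1.xs.v u b x ≠ 0 := by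
    have l1 := F.len1
    have l3 := F.len3
    have cp := c1n_pos' (y := x + u) (by nlinarith)
    have cn : 0 ≤ (fXS 2 3 5).v u b x := fXS_nn hb (by linarith)
    have e : -1 * crv PP 1 2 (x + u + y') - 1 * crv PP 0 0 (x + u) = -(c1n (x + u) + sk1.xs.v u b x) := by
      rw [e0, hX, crv0]
      ring
    rw [e, qqn_neg, hY] at l1 l3
    refine ⟨l1, l3, ne_of_gt ?_⟩
    show 0 < c1n (x + u) + (fXS 2 3 5).v u b x
    linarith
  have hs : ∀ G ∈ sk_Bpk1, G.v u b x ≤ 0 := skPM (A := false) (v := 33554432) (u := u) (b := b) (x := x) (abs_le.2 ⟨by simp only [cond_true, cond_false]; unfold S; norm_num; linarith, by simp only [cond_true, cond_false]; unfold S; norm_num; linarith⟩)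
  have eX : -sk1.xs.v u b x - c1n (x + u) = -(c1n (x + u) + sk1.xs.v u b x) := by ring
  have K3 : (∀ G ∈ cx_Bpk1, 0 < G.v u b x) → (pcF 1).K.v (-sk1.xs.v u b x - c1n (x + u)) y' x = ((c1n (x + u - b) + 1 / 2) * cG (x + u - b) + kcg.v (psn (x + u - b)) x) * -(x + u - b) - sK_Bpk1.v (c1n (x + u) + sk1.xs.v u b x) (1 - (x + u - b)) x * (c1n (x + u) + sk1.xs.v u b x - (c1n (x + u - b) + 1 / 2)) := fun hc => by
    rw [eX, hY, (hF.odd q3 od.1 od.2.1 od.2.2).1, zKBpk1 hF x0 x1 h1 h2 h3 ⟨y1, y2⟩ ⟨z1, z2⟩ hb q3 hc]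
    ring
  have L3 : (∀ G ∈ cx_Bpk1, 0 < G.v u b x) → (pcF 1).L.v (-sk1.xs.v u b x - c1n (x + u)) y' x = -(cQ x (x + u - b) (kcg.v (psn (x + u - b)) x) + sX_Bpk1.v (c1n (x + u) + sk1.xs.v u b x) (1 - (x + u - b)) x * (c1n (x + u) + sk1.xs.v u b x - (c1n (x + u - b) + 1 / 2))) := fun hc => by
    rw [eX, hY, (hF.odd q3 od.1 od.2.1 od.2.2).2, zLBpk1 hF x0 x1 h1 h2 h3 ⟨y1, y2⟩ ⟨z1, z2⟩ hb q3 hc]
  have D3 : (∀ G ∈ cx_Bpk1, 0 < G.v u b x) → ((pcN 1).K.v (-sk1.xs.v u b x - c1n (x + u)) y' x - (1 + mun 3 x * cR x) * (pcF 1).K.v (-sk1.xs.v u b x - c1n (x + u)) y' x) / mun 3 x = (cP (x + u - b) + 1 / 2 * cD (x + u - b) - (cR (x + u - b) + 2 * c1n (x + u - b) + 1) * kcg.v (psn (x + u - b)) x) * -(x + u - b) - sD_Bpk1.v (c1n (x + u) + sk1.xs.v u b x) (1 - (x + u - b)) x * (c1n (x + u) + sk1.xs.v u b x - (c1n (x + u - b) + 1 / 2)) := fun hc => by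
    have e := zDBpk1 hF hN x0 x1 h1 h2 h3 ⟨y1, y2⟩ ⟨z1, z2⟩ hb q3 hc
    rw [eX, hY, (hF.odd q3 od.1 od.2.1 od.2.2).1, (hN.odd q3 od.1 od.2.1 od.2.2).1]
    rw [div_eq_iff (mun_ne x)] at e ⊢
    linear_combination -e
  exact nearJBp (T := T_Bpk1) (sk := sk_Bpk1) (cx := cx_Bpk1) D hb hκ hy hd hit (t1_0 F.q1) t3 hx hX K hs (kcb y1.le y2.le x0 x1) (shN0 F.q1 y1.le y2.le) (sk1N qs) (sk1K u hb qs (by linarith)) (sk1D u hb (by linarith)) (fun _ => div_mun) K3 D3 (shL0 F.q1 y1.le y2.le) (sk1L u hb qs (by linarith)) L3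
theorem WmolN_B_012_01_0_p {x κ y y' : ℝ} (hF : SideOk PP tKF tL pcF x) (hN : SideOk PP tKN tL pcN x) (hκ : κ * h0 = ken x) (x0 : 3 / 64 ≤ x) (x1 : x ≤ 1 / 16)
    (F : FactsB PP 0 1 2 0 1 1 (-1) y y') (h1 : |y - x| < 1 / 32) (h3 : |y' - (1 - x)| < 1 / 32) (h2 : |y + y' - 1| < 1 / 64) (gy : 1 / 32 < y ∧ y < 5 / 64) (gz : 59 / 64 < y' ∧ y' < 31 / 32) :
    StB (VN 3 κ) PP tKN tL pcN 0 1 2 0 1 1 (-1) x y y' := by
  obtain ⟨u, rfl⟩ : ∃ u, y = x + u := ⟨y - x, by ring⟩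
  obtain ⟨b, hy⟩ : ∃ b, y' = 1 + b - (x + u) := ⟨y' + (x + u) - 1, by ring⟩
  rw [show x + u - x = u by ring] at h1
  rw [show x + u + y' - 1 = b by rw [hy]; ring] at h2
  rw [show y' - (1 - x) = -(u - b) by rw [hy]; ring, abs_neg] at h3
  have wy := gy
  have wz : 1 / 32 < x + u - b ∧ x + u - b < 5 / 64 := ⟨by linarith [gz.2], by linarith [gz.1]⟩
  exact fN_Bpk1 hF hN hκ x0 x1 h1 h2 h3 wy wz hy F
theorem molN_B_012_01_0 {κ x : ℝ} (hκ : κ * h0 = ken x) (hx : ((50331648 : ℕ) : ℝ) / S ≤ x) (hx' : x ≤ (((50331648 : ℕ) : ℝ) + (16777216 : ℕ)) / S) :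
    AltB (VN 3 κ) PP tKN tL pcN [⟨0, 0, 1, 33554432⟩, ⟨1, 1, 2, 33554432⟩, ⟨2, 1, 0, 16777216⟩, ⟨0, 0, 0, 83886080⟩, ⟨0, 1, 0, 1040187392⟩, ⟨1, 0, 0, 1040187392⟩, ⟨1, 1, 0, 83886080⟩] 0 1 2 0 1 (sgb true) (sgb false) x := by
  obtain ⟨x0, x1⟩ := xr hx hx'
  intro y y' F h
  obtain ⟨h1, h3, h2, gy, gz⟩ := winB h
  exact WmolN_B_012_01_0_p (sideF hx hx') (sideN hx hx') hκ x0 x1 F (h1.trans_eq (by norm_num)) (h3.trans_eq (by norm_num)) (h2.trans_eq (by norm_num)) ⟨lt_of_eq_of_lt (by norm_num) gy.1, lt_of_lt_of_eq gy.2 (by norm_num)⟩ ⟨lt_of_eq_of_lt (by norm_num) gz.2, lt_of_lt_of_eq gz.1 (by norm_num)⟩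
theorem w_Bpk2 {u b x : ℝ} (x0 : 3 / 64 ≤ x) (x1 : x ≤ 1 / 16) (h1 : |u| < 1 / 32) (h2 : |b| < 1 / 64) (h3 : |u - b| < 1 / 32) (wy : 1 / 32 < x + u ∧ x + u < 5 / 64) (wz : 1 / 32 < x + u - b ∧ x + u - b < 5 / 64) (hb : 0 ≤ b) : c1n (x + u) + sk2.xs.v u b x ≤ (w3W true).v (1 - (x + u - b)) := by
  obtain ⟨u1, u2⟩ := abs_lt.1 h1
  obtain ⟨b1, b2⟩ := abs_lt.1 h2
  obtain ⟨v1, v2⟩ := abs_lt.1 h3
  obtain ⟨y1, y2⟩ := wy
  obtain ⟨z1, z2⟩ := wz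
  have cm1 : (fXS 0 1 1).v u b x ≤ 1 / 2 := fXS_le (by norm_num) hb
  have cm2 : c1n (x + u) ≤ c1n (x + u - b) := c1n_le' (by linarith) (by linarith)
  rw [w3W_B]
  show c1n (x + u) + (fXS 0 1 1).v u b x ≤ c1n (x + u - b) + 1 / 2
  linarith
theorem zKBpk2 {u b x : ℝ} (hF : SideOk PP tKF tL pcF x) (x0 : 3 / 64 ≤ x) (x1 : x ≤ 1 / 16) (h1 : |u| < 1 / 32) (h2 : |b| < 1 / 64) (h3 : |u - b| < 1 / 32) (wy : 1 / 32 < x + u ∧ x + u < 5 / 64) (wz : 1 / 32 < x + u - b ∧ x + u - b < 5 / 64) (hb : 0 ≤ b) (q3 : InQ 1 (1 - (x + u - b)))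
    (hc : ∀ G ∈ cx_Bpk2, 0 < G.v u b x) : (pcF 1).K.v (c1n (x + u) + sk2.xs.v u b x) (1 - (x + u - b)) x =
    -(((c1n (x + u - b) + 1 / 2) * cG (x + u - b) + kcg.v (psn (x + u - b)) x) * -(x + u - b)) + sK_Bpk2.v (c1n (x + u) + sk2.xs.v u b x) (1 - (x + u - b)) x * (c1n (x + u) + sk2.xs.v u b x - (c1n (x + u - b) + 1 / 2)) := by
  have hw := w_Bpk2 x0 x1 h1 h2 h3 wy wz hb
  obtain ⟨u1, u2⟩ := abs_lt.1 h1
  obtain ⟨b1, b2⟩ := abs_lt.1 h2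
  obtain ⟨v1, v2⟩ := abs_lt.1 h3
  obtain ⟨y1, y2⟩ := wy
  obtain ⟨z1, z2⟩ := wz
  have c0 : 0 < (tCC (w3W true) cv1m).v (c1n (x + u) + sk2.xs.v u b x) (1 - (x + u - b)) x := hc (f3B sk2.xs (tCC (w3W true) cv1m)) (by unfold cx_Bpk2; simp only [List.mem_cons, true_or, or_true])
  have c1 : 0 < (tXC cv1m).v (c1n (x + u) + sk2.xs.v u b x) (1 - (x + u - b)) x := hc (f3B sk2.xs (tXC cv1m)) (by unfold cx_Bpk2; simp only [List.mem_cons, true_or, or_true])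
  refine (sKBpk2 hF q3 (by linarith) (by linarith) c0 c1 hw).trans ?_
  rw [w3K_B, w3W_B]
  push_cast
  ring
theorem zLBpk2 {u b x : ℝ} (hF : SideOk PP tKF tL pcF x) (x0 : 3 / 64 ≤ x) (x1 : x ≤ 1 / 16) (h1 : |u| < 1 / 32) (h2 : |b| < 1 / 64) (h3 : |u - b| < 1 / 32) (wy : 1 / 32 < x + u ∧ x + u < 5 / 64) (wz : 1 / 32 < x + u - b ∧ x + u - b < 5 / 64) (hb : 0 ≤ b) (q3 : InQ 1 (1 - (x + u - b)))
    (hc : ∀ G ∈ cx_Bpk2, 0 < G.v u b x) : (pcF 1).L.v (c1n (x + u) + sk2.xs.v u b x) (1 - (x + u - b)) x =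
    cQ x (x + u - b) (kcg.v (psn (x + u - b)) x) + sX_Bpk2.v (c1n (x + u) + sk2.xs.v u b x) (1 - (x + u - b)) x * (c1n (x + u) + sk2.xs.v u b x - (c1n (x + u - b) + 1 / 2)) := by
  have hw := w_Bpk2 x0 x1 h1 h2 h3 wy wz hb
  obtain ⟨u1, u2⟩ := abs_lt.1 h1
  obtain ⟨b1, b2⟩ := abs_lt.1 h2
  obtain ⟨v1, v2⟩ := abs_lt.1 h3
  obtain ⟨y1, y2⟩ := wy
  obtain ⟨z1, z2⟩ := wz
  have c0 : 0 < (tCC (w3W true) cv1m).v (c1n (x + u) + sk2.xs.v u b x) (1 - (x + u - b)) x := hc (f3B sk2.xs (tCC (w3W true) cv1m)) (by unfold cx_Bpk2; simp only [List.mem_cons, true_or, or_true])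
  have c1 : 0 < (tXC cv1m).v (c1n (x + u) + sk2.xs.v u b x) (1 - (x + u - b)) x := hc (f3B sk2.xs (tXC cv1m)) (by unfold cx_Bpk2; simp only [List.mem_cons, true_or, or_true])
  refine (sLBpk2 hF q3 (by linarith) (by linarith) c0 c1 hw).trans ?_
  rw [w3Q_B, w3W_B]
theorem zDBpk2 {u b x : ℝ} (hF : SideOk PP tKF tL pcF x) (hN : SideOk PP tKN tL pcN x) (x0 : 3 / 64 ≤ x) (x1 : x ≤ 1 / 16) (h1 : |u| < 1 / 32) (h2 : |b| < 1 / 64) (h3 : |u - b| < 1 / 32) (wy : 1 / 32 < x + u ∧ x + u < 5 / 64) (wz : 1 / 32 < x + u - b ∧ x + u - b < 5 / 64) (hb : 0 ≤ b) (q3 : InQ 1 (1 - (x + u - b)))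
    (hc : ∀ G ∈ cx_Bpk2, 0 < G.v u b x) : ((pcN 1).K.v (c1n (x + u) + sk2.xs.v u b x) (1 - (x + u - b)) x - (1 + mun 3 x * cR x) * (pcF 1).K.v (c1n (x + u) + sk2.xs.v u b x) (1 - (x + u - b)) x) / mun 3 x =
    -((cP (x + u - b) + 1 / 2 * cD (x + u - b) - (cR (x + u - b) + 2 * c1n (x + u - b) + 1) * kcg.v (psn (x + u - b)) x) * -(x + u - b)) + sD_Bpk2.v (c1n (x + u) + sk2.xs.v u b x) (1 - (x + u - b)) x * (c1n (x + u) + sk2.xs.v u b x - (c1n (x + u - b) + 1 / 2)) := by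
  have hw := w_Bpk2 x0 x1 h1 h2 h3 wy wz hb
  obtain ⟨u1, u2⟩ := abs_lt.1 h1
  obtain ⟨b1, b2⟩ := abs_lt.1 h2
  obtain ⟨v1, v2⟩ := abs_lt.1 h3
  obtain ⟨y1, y2⟩ := wy
  obtain ⟨z1, z2⟩ := wz
  have c0 : 0 < (tCC (w3W true) cv1m).v (c1n (x + u) + sk2.xs.v u b x) (1 - (x + u - b)) x := hc (f3B sk2.xs (tCC (w3W true) cv1m)) (by unfold cx_Bpk2; simp only [List.mem_cons, true_or, or_true])
  have c1 : 0 < (tXC cv1m).v (c1n (x + u) + sk2.xs.v u b x) (1 - (x + u - b)) x := hc (f3B sk2.xs (tXC cv1m)) (by unfold cx_Bpk2; simp only [List.mem_cons, true_or, or_true])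
  refine (sDBpk2 hF hN (mun_ne x) q3 (by linarith) (by linarith) c0 c1 hw).trans ?_
  rw [w3D_B, w3W_B]
  push_cast
  ring
theorem fF_Bpk2 {x u b κ y' : ℝ} (hF : SideOk PP tKF tL pcF x) (hκ : κ * h0 = ken x)
    (x0 : 3 / 64 ≤ x) (x1 : x ≤ 1 / 16) (h1 : |u| < 1 / 32) (h2 : |b| < 1 / 64) (h3 : |u - b| < 1 / 32) (wy : 1 / 32 < x + u ∧ x + u < 5 / 64) (wz : 1 / 32 < x + u - b ∧ x + u - b < 5 / 64) (hy : y' = 1 + b - (x + u)) (F : FactsB PP 0 1 2 0 2 1 (-1) (x + u) y') :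
    StB (VF κ) PP tKF tL pcF 0 1 2 0 2 1 (-1) x (x + u) y' := by
  have e0 : x + u + y' = 1 + b := by rw [hy]; ring
  have qs : InQ 2 (1 + b) := e0 ▸ F.q3
  obtain ⟨u1, u2⟩ := abs_lt.1 h1
  obtain ⟨b1, b2⟩ := abs_lt.1 h2
  obtain ⟨v1, v2⟩ := abs_lt.1 h3
  obtain ⟨y1, y2⟩ := wy
  obtain ⟨z1, z2⟩ := wz
  have hb : 0 ≤ b := by linarith [qs.1]
  have D : DomB u b x := ⟨by linarith, by linarith, by linarith, by linarith, by linarith, by linarith, by linarith, by linarith⟩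
  have hY : y' = 1 - (x + u - b) := by rw [hy]; ring
  have q3 : InQ 1 (1 - (x + u - b)) := hY ▸ F.q2
  obtain ⟨p1, p2⟩ := psr (y := x + u) y1.le y2.le
  obtain ⟨p3, p4⟩ := psr (y := x + u - b) z1.le z2.le
  have hd := dqBp (dq_t x) hb (by linarith) (by linarith) (by linarith) (by linarith) p1 p2 p3 p4
  obtain ⟨r1, r2⟩ := rX x0 x1
  have K := Cht3.cert (ng := false) (r := 33554432) ct_0Bpk2 (u := u) (b := b) (x := x) (by unfold S; norm_num; linarith) (by unfold S; norm_num; linarith) (by simp only [cond_true, cond_false]; linarith) (by simp only [cond_true, cond_false]; unfold S; norm_num; linarith) r1 r2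
  have t3 := t3B1 F.q2 hy
  have hit : ((T_Bpk2.b true).at_ u b x).it * (x + u - b) = -1 := by
    show -(x + u - b)⁻¹ * _ = _
    rw [neg_mul, inv_mul_cancel₀ (ne_of_gt (by linarith))]
  have hx : sk2.xs.v u b x = 1 / 2 + b * sk2.ws.v u b x := stK_x (by norm_num) (by linarith) (by linarith)
  have hX : crv PP 2 2 (1 + b) = sk2.xs.v u b x := sX2 u
  have od : 1 ≤ qqn (c1n (x + u) + sk2.xs.v u b x) (1 - (x + u - b)) ∧ qqn (c1n (x + u) + sk2.xs.v u b x) (1 - (x + u - b)) ≤ 3 ∧ c1n (x + u) + sk2.xs.v u b x ≠ 0 := by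
    have l1 := F.len1
    have l3 := F.len3
    have cp := c1n_pos' (y := x + u) (by nlinarith)
    have cn : 0 ≤ (fXS 0 1 1).v u b x := fXS_nn hb (by linarith)
    have e : -1 * crv PP 2 2 (x + u + y') - 1 * crv PP 0 0 (x + u) = -(c1n (x + u) + sk2.xs.v u b x) := by
      rw [e0, hX, crv0]
      ring
    rw [e, qqn_neg, hY] at l1 l3
    refine ⟨l1, l3, ne_of_gt ?_⟩
    show 0 < c1n (x + u) + (fXS 0 1 1).v u b x
    linarith
  have hs : ∀ G ∈ sk_Bpk2, G.v u b x ≤ 0 := skPM (A := false) (v := 33554432) (u := u) (b := b) (x := x) (abs_le.2 ⟨by simp only [cond_true, cond_false]; unfold S; norm_num; linarith, by simp only [cond_true, cond_false]; unfold S; norm_num; linarith⟩)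
  have eX : -sk2.xs.v u b x - c1n (x + u) = -(c1n (x + u) + sk2.xs.v u b x) := by ring
  have K3 : (∀ G ∈ cx_Bpk2, 0 < G.v u b x) → (pcF 1).K.v (-sk2.xs.v u b x - c1n (x + u)) y' x = ((c1n (x + u - b) + 1 / 2) * cG (x + u - b) + kcg.v (psn (x + u - b)) x) * -(x + u - b) - sK_Bpk2.v (c1n (x + u) + sk2.xs.v u b x) (1 - (x + u - b)) x * (c1n (x + u) + sk2.xs.v u b x - (c1n (x + u - b) + 1 / 2)) := fun hc => by
    rw [eX, hY, (hF.odd q3 od.1 od.2.1 od.2.2).1, zKBpk2 hF x0 x1 h1 h2 h3 ⟨y1, y2⟩ ⟨z1, z2⟩ hb q3 hc]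
    ring
  have L3 : (∀ G ∈ cx_Bpk2, 0 < G.v u b x) → (pcF 1).L.v (-sk2.xs.v u b x - c1n (x + u)) y' x = -(cQ x (x + u - b) (kcg.v (psn (x + u - b)) x) + sX_Bpk2.v (c1n (x + u) + sk2.xs.v u b x) (1 - (x + u - b)) x * (c1n (x + u) + sk2.xs.v u b x - (c1n (x + u - b) + 1 / 2))) := fun hc => by
    rw [eX, hY, (hF.odd q3 od.1 od.2.1 od.2.2).2, zLBpk2 hF x0 x1 h1 h2 h3 ⟨y1, y2⟩ ⟨z1, z2⟩ hb q3 hc]
  exact farJBp (T := T_Bpk2) (sk := sk_Bpk2) (cx := cx_Bpk2) D hb hκ hy hd hit (t1_0 F.q1) t3 hx hX K hs (shK0 F.q1 y1.le y2.le) (sk2K u hb qs (by linarith)) K3 (shL0 F.q1 y1.le y2.le) (sk2L u hb qs (by linarith)) L3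
theorem WmolF_B_012_02_0_p {x κ y y' : ℝ} (hF : SideOk PP tKF tL pcF x) (hκ : κ * h0 = ken x) (x0 : 3 / 64 ≤ x) (x1 : x ≤ 1 / 16)
    (F : FactsB PP 0 1 2 0 2 1 (-1) y y') (h1 : |y - x| < 1 / 32) (h3 : |y' - (1 - x)| < 1 / 32) (h2 : |y + y' - 1| < 1 / 64) (gy : 1 / 32 < y ∧ y < 5 / 64) (gz : 59 / 64 < y' ∧ y' < 31 / 32) :
    StB (VF κ) PP tKF tL pcF 0 1 2 0 2 1 (-1) x y y' := by
  obtain ⟨u, rfl⟩ : ∃ u, y = x + u := ⟨y - x, by ring⟩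
  obtain ⟨b, hy⟩ : ∃ b, y' = 1 + b - (x + u) := ⟨y' + (x + u) - 1, by ring⟩
  rw [show x + u - x = u by ring] at h1
  rw [show x + u + y' - 1 = b by rw [hy]; ring] at h2
  rw [show y' - (1 - x) = -(u - b) by rw [hy]; ring, abs_neg] at h3
  have wy := gy
  have wz : 1 / 32 < x + u - b ∧ x + u - b < 5 / 64 := ⟨by linarith [gz.2], by linarith [gz.1]⟩
  exact fF_Bpk2 hF hκ x0 x1 h1 h2 h3 wy wz hy F
theorem molF_B_012_02_0 {κ x : ℝ} (hκ : κ * h0 = ken x) (hx : ((50331648 : ℕ) : ℝ) / S ≤ x) (hx' : x ≤ (((50331648 : ℕ) : ℝ) + (16777216 : ℕ)) / S) :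
    AltB (VF κ) PP tKF tL pcF [⟨0, 0, 1, 33554432⟩, ⟨1, 1, 2, 33554432⟩, ⟨2, 1, 0, 16777216⟩, ⟨0, 0, 0, 83886080⟩, ⟨0, 1, 0, 1040187392⟩, ⟨1, 0, 0, 1040187392⟩, ⟨1, 1, 0, 83886080⟩] 0 1 2 0 2 (sgb true) (sgb false) x := by
  obtain ⟨x0, x1⟩ := xr hx hx'
  intro y y' F h
  obtain ⟨h1, h3, h2, gy, gz⟩ := winB h
  exact WmolF_B_012_02_0_p (sideF hx hx') hκ x0 x1 F (h1.trans_eq (by norm_num)) (h3.trans_eq (by norm_num)) (h2.trans_eq (by norm_num)) ⟨lt_of_eq_of_lt (by norm_num) gy.1, lt_of_lt_of_eq gy.2 (by norm_num)⟩ ⟨lt_of_eq_of_lt (by norm_num) gz.2, lt_of_lt_of_eq gz.1 (by norm_num)⟩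
theorem fN_Bpk2 {x u b κ y' : ℝ} (hF : SideOk PP tKF tL pcF x) (hN : SideOk PP tKN tL pcN x) (hκ : κ * h0 = ken x)
    (x0 : 3 / 64 ≤ x) (x1 : x ≤ 1 / 16) (h1 : |u| < 1 / 32) (h2 : |b| < 1 / 64) (h3 : |u - b| < 1 / 32) (wy : 1 / 32 < x + u ∧ x + u < 5 / 64) (wz : 1 / 32 < x + u - b ∧ x + u - b < 5 / 64) (hy : y' = 1 + b - (x + u)) (F : FactsB PP 0 1 2 0 2 1 (-1) (x + u) y') :
    StB (VN 3 κ) PP tKN tL pcN 0 1 2 0 2 1 (-1) x (x + u) y' := by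
  have e0 : x + u + y' = 1 + b := by rw [hy]; ring
  have qs : InQ 2 (1 + b) := e0 ▸ F.q3
  obtain ⟨u1, u2⟩ := abs_lt.1 h1
  obtain ⟨b1, b2⟩ := abs_lt.1 h2
  obtain ⟨v1, v2⟩ := abs_lt.1 h3
  obtain ⟨y1, y2⟩ := wy
  obtain ⟨z1, z2⟩ := wz
  have hb : 0 ≤ b := by linarith [qs.1]
  have D : DomB u b x := ⟨by linarith, by linarith, by linarith, by linarith, by linarith, by linarith, by linarith, by linarith⟩
  have hY : y' = 1 - (x + u - b) := by rw [hy]; ring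
  have q3 : InQ 1 (1 - (x + u - b)) := hY ▸ F.q2
  obtain ⟨p1, p2⟩ := psr (y := x + u) y1.le y2.le
  obtain ⟨p3, p4⟩ := psr (y := x + u - b) z1.le z2.le
  have hd := dqBp (dq_t x) hb (by linarith) (by linarith) (by linarith) (by linarith) p1 p2 p3 p4
  obtain ⟨r1, r2⟩ := rX x0 x1
  have K := Cht3.cert (ng := false) (r := 33554432) ct_1Bpk2 (u := u) (b := b) (x := x) (by unfold S; norm_num; linarith) (by unfold S; norm_num; linarith) (by simp only [cond_true, cond_false]; linarith) (by simp only [cond_true, cond_false]; unfold S; norm_num; linarith) r1 r2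
  have t3 := t3B1 F.q2 hy
  have hit : ((T_Bpk2.b true).at_ u b x).it * (x + u - b) = -1 := by
    show -(x + u - b)⁻¹ * _ = _
    rw [neg_mul, inv_mul_cancel₀ (ne_of_gt (by linarith))]
  have hx : sk2.xs.v u b x = 1 / 2 + b * sk2.ws.v u b x := stK_x (by norm_num) (by linarith) (by linarith)
  have hX : crv PP 2 2 (1 + b) = sk2.xs.v u b x := sX2 u
  have od : 1 ≤ qqn (c1n (x + u) + sk2.xs.v u b x) (1 - (x + u - b)) ∧ qqn (c1n (x + u) + sk2.xs.v u b x) (1 - (x + u - b)) ≤ 3 ∧ c1n (x + u) + sk2.xs.v u b x ≠ 0 := by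
    have l1 := F.len1
    have l3 := F.len3
    have cp := c1n_pos' (y := x + u) (by nlinarith)
    have cn : 0 ≤ (fXS 0 1 1).v u b x := fXS_nn hb (by linarith)
    have e : -1 * crv PP 2 2 (x + u + y') - 1 * crv PP 0 0 (x + u) = -(c1n (x + u) + sk2.xs.v u b x) := by
      rw [e0, hX, crv0]
      ring
    rw [e, qqn_neg, hY] at l1 l3
    refine ⟨l1, l3, ne_of_gt ?_⟩
    show 0 < c1n (x + u) + (fXS 0 1 1).v u b x
    linarith
  have hs : ∀ G ∈ sk_Bpk2, G.v u b x ≤ 0 := skPM (A := false) (v := 33554432) (u := u) (b := b) (x := x) (abs_le.2 ⟨by simp only [cond_true, cond_false]; unfold S; norm_num; linarith, by simp only [cond_true, cond_false]; unfold S; norm_num; linarith⟩)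
  have eX : -sk2.xs.v u b x - c1n (x + u) = -(c1n (x + u) + sk2.xs.v u b x) := by ring
  have K3 : (∀ G ∈ cx_Bpk2, 0 < G.v u b x) → (pcF 1).K.v (-sk2.xs.v u b x - c1n (x + u)) y' x = ((c1n (x + u - b) + 1 / 2) * cG (x + u - b) + kcg.v (psn (x + u - b)) x) * -(x + u - b) - sK_Bpk2.v (c1n (x + u) + sk2.xs.v u b x) (1 - (x + u - b)) x * (c1n (x + u) + sk2.xs.v u b x - (c1n (x + u - b) + 1 / 2)) := fun hc => by
    rw [eX, hY, (hF.odd q3 od.1 od.2.1 od.2.2).1, zKBpk2 hF x0 x1 h1 h2 h3 ⟨y1, y2⟩ ⟨z1, z2⟩ hb q3 hc]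
    ring
  have L3 : (∀ G ∈ cx_Bpk2, 0 < G.v u b x) → (pcF 1).L.v (-sk2.xs.v u b x - c1n (x + u)) y' x = -(cQ x (x + u - b) (kcg.v (psn (x + u - b)) x) + sX_Bpk2.v (c1n (x + u) + sk2.xs.v u b x) (1 - (x + u - b)) x * (c1n (x + u) + sk2.xs.v u b x - (c1n (x + u - b) + 1 / 2))) := fun hc => by
    rw [eX, hY, (hF.odd q3 od.1 od.2.1 od.2.2).2, zLBpk2 hF x0 x1 h1 h2 h3 ⟨y1, y2⟩ ⟨z1, z2⟩ hb q3 hc]
  have D3 : (∀ G ∈ cx_Bpk2, 0 < G.v u b x) → ((pcN 1).K.v (-sk2.xs.v u b x - c1n (x + u)) y' x - (1 + mun 3 x * cR x) * (pcF 1).K.v (-sk2.xs.v u b x - c1n (x + u)) y' x) / mun 3 x = (cP (x + u - b) + 1 / 2 * cD (x + u - b) - (cR (x + u - b) + 2 * c1n (x + u - b) + 1) * kcg.v (psn (x + u - b)) x) * -(x + u - b) - sD_Bpk2.v (c1n (x + u) + sk2.xs.v u b x) (1 - (x + u - b)) x * (c1n (x + u) + sk2.xs.v u b x - (c1n (x + u - b) + 1 / 2)) := fun hc => by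
    have e := zDBpk2 hF hN x0 x1 h1 h2 h3 ⟨y1, y2⟩ ⟨z1, z2⟩ hb q3 hc
    rw [eX, hY, (hF.odd q3 od.1 od.2.1 od.2.2).1, (hN.odd q3 od.1 od.2.1 od.2.2).1]
    rw [div_eq_iff (mun_ne x)] at e ⊢
    linear_combination -e
  exact nearJBp (T := T_Bpk2) (sk := sk_Bpk2) (cx := cx_Bpk2) D hb hκ hy hd hit (t1_0 F.q1) t3 hx hX K hs (kcb y1.le y2.le x0 x1) (shN0 F.q1 y1.le y2.le) (sk2N qs) (sk2K u hb qs (by linarith)) (sk2D u hb (by linarith)) (fun _ => div_mun) K3 D3 (shL0 F.q1 y1.le y2.le) (sk2L u hb qs (by linarith)) L3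
theorem WmolN_B_012_02_0_p {x κ y y' : ℝ} (hF : SideOk PP tKF tL pcF x) (hN : SideOk PP tKN tL pcN x) (hκ : κ * h0 = ken x) (x0 : 3 / 64 ≤ x) (x1 : x ≤ 1 / 16)
    (F : FactsB PP 0 1 2 0 2 1 (-1) y y') (h1 : |y - x| < 1 / 32) (h3 : |y' - (1 - x)| < 1 / 32) (h2 : |y + y' - 1| < 1 / 64) (gy : 1 / 32 < y ∧ y < 5 / 64) (gz : 59 / 64 < y' ∧ y' < 31 / 32) :
    StB (VN 3 κ) PP tKN tL pcN 0 1 2 0 2 1 (-1) x y y' := by
  obtain ⟨u, rfl⟩ : ∃ u, y = x + u := ⟨y - x, by ring⟩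
  obtain ⟨b, hy⟩ : ∃ b, y' = 1 + b - (x + u) := ⟨y' + (x + u) - 1, by ring⟩
  rw [show x + u - x = u by ring] at h1
  rw [show x + u + y' - 1 = b by rw [hy]; ring] at h2
  rw [show y' - (1 - x) = -(u - b) by rw [hy]; ring, abs_neg] at h3
  have wy := gy
  have wz : 1 / 32 < x + u - b ∧ x + u - b < 5 / 64 := ⟨by linarith [gz.2], by linarith [gz.1]⟩
  exact fN_Bpk2 hF hN hκ x0 x1 h1 h2 h3 wy wz hy F
theorem molN_B_012_02_0 {κ x : ℝ} (hκ : κ * h0 = ken x) (hx : ((50331648 : ℕ) : ℝ) / S ≤ x) (hx' : x ≤ (((50331648 : ℕ) : ℝ) + (16777216 : ℕ)) / S) :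
    AltB (VN 3 κ) PP tKN tL pcN [⟨0, 0, 1, 33554432⟩, ⟨1, 1, 2, 33554432⟩, ⟨2, 1, 0, 16777216⟩, ⟨0, 0, 0, 83886080⟩, ⟨0, 1, 0, 1040187392⟩, ⟨1, 0, 0, 1040187392⟩, ⟨1, 1, 0, 83886080⟩] 0 1 2 0 2 (sgb true) (sgb false) x := by
  obtain ⟨x0, x1⟩ := xr hx hx'
  intro y y' F h
  obtain ⟨h1, h3, h2, gy, gz⟩ := winB h
  exact WmolN_B_012_02_0_p (sideF hx hx') (sideN hx hx') hκ x0 x1 F (h1.trans_eq (by norm_num)) (h3.trans_eq (by norm_num)) (h2.trans_eq (by norm_num)) ⟨lt_of_eq_of_lt (by norm_num) gy.1, lt_of_lt_of_eq gy.2 (by norm_num)⟩ ⟨lt_of_eq_of_lt (by norm_num) gz.2, lt_of_lt_of_eq gz.1 (by norm_num)⟩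
theorem w_Bm {u b x : ℝ} (x0 : 3 / 64 ≤ x) (x1 : x ≤ 1 / 16) (h1 : |u| < 3 / 128) (h2 : |b| < 1 / 128) (h3 : |u - b| < 3 / 128) (wy : 1 / 32 < x + u ∧ x + u < 5 / 64) (wz : 1 / 32 < x + u - b ∧ x + u - b < 5 / 64) (hb : b < 0) : (w3W true).v (1 - (x + u - b)) ≤ c1n (x + u) + sm.xs.v u b x := by
  obtain ⟨u1, u2⟩ := abs_lt.1 h1
  obtain ⟨b1, b2⟩ := abs_lt.1 h2
  obtain ⟨v1, v2⟩ := abs_lt.1 h3
  obtain ⟨y1, y2⟩ := wy
  obtain ⟨z1, z2⟩ := wz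
  have cm1 : c1n (1 + b) ≥ 1 / 2 := c1n_half' hb.le (by linarith)
  have cm2 : c1n (x + u) ≥ c1n (x + u - b) := c1n_le' (by linarith) (by linarith)
  rw [w3W_B]
  show c1n (x + u - b) + 1 / 2 ≤ c1n (x + u) + c1n (1 + b)
  linarith
theorem zKBm {u b x : ℝ} (hF : SideOk PP tKF tL pcF x) (x0 : 3 / 64 ≤ x) (x1 : x ≤ 1 / 16) (h1 : |u| < 3 / 128) (h2 : |b| < 1 / 128) (h3 : |u - b| < 3 / 128) (wy : 1 / 32 < x + u ∧ x + u < 5 / 64) (wz : 1 / 32 < x + u - b ∧ x + u - b < 5 / 64) (hb : b < 0) (q3 : InQ 1 (1 - (x + u - b))) (kx : c1n (x + u) + sm.xs.v u b x ≤ c3g.v (1 - (x + u - b)))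
    (hc : ∀ G ∈ cx_Bm, 0 < G.v u b x) : (pcF 1).K.v (c1n (x + u) + sm.xs.v u b x) (1 - (x + u - b)) x =
    -(((c1n (x + u - b) + 1 / 2) * cG (x + u - b) + kcg.v (psn (x + u - b)) x) * -(x + u - b)) + sK_Bm.v (c1n (x + u) + sm.xs.v u b x) (1 - (x + u - b)) x * (c1n (x + u) + sm.xs.v u b x - (c1n (x + u - b) + 1 / 2)) := by
  have hw := w_Bm x0 x1 h1 h2 h3 wy wz hb
  obtain ⟨u1, u2⟩ := abs_lt.1 h1
  obtain ⟨b1, b2⟩ := abs_lt.1 h2
  obtain ⟨v1, v2⟩ := abs_lt.1 h3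
  obtain ⟨y1, y2⟩ := wy
  obtain ⟨z1, z2⟩ := wz
  have c0 : 0 < (tCC cv3m (w3W true)).v (c1n (x + u) + sm.xs.v u b x) (1 - (x + u - b)) x := hc (f3B sm.xs (tCC cv3m (w3W true))) (by unfold cx_Bm; simp only [List.mem_cons, true_or, or_true])
  refine (sKBm hF q3 (by linarith) (by linarith) c0 kx hw).trans ?_
  rw [w3K_B, w3W_B]
  push_cast
  ring
theorem zLBm {u b x : ℝ} (hF : SideOk PP tKF tL pcF x) (x0 : 3 / 64 ≤ x) (x1 : x ≤ 1 / 16) (h1 : |u| < 3 / 128) (h2 : |b| < 1 / 128) (h3 : |u - b| < 3 / 128) (wy : 1 / 32 < x + u ∧ x + u < 5 / 64) (wz : 1 / 32 < x + u - b ∧ x + u - b < 5 / 64) (hb : b < 0) (q3 : InQ 1 (1 - (x + u - b))) (kx : c1n (x + u) + sm.xs.v u b x ≤ c3g.v (1 - (x + u - b)))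
    (hc : ∀ G ∈ cx_Bm, 0 < G.v u b x) : (pcF 1).L.v (c1n (x + u) + sm.xs.v u b x) (1 - (x + u - b)) x =
    cQ x (x + u - b) (kcg.v (psn (x + u - b)) x) + sX_Bm.v (c1n (x + u) + sm.xs.v u b x) (1 - (x + u - b)) x * (c1n (x + u) + sm.xs.v u b x - (c1n (x + u - b) + 1 / 2)) := by
  have hw := w_Bm x0 x1 h1 h2 h3 wy wz hb
  obtain ⟨u1, u2⟩ := abs_lt.1 h1
  obtain ⟨b1, b2⟩ := abs_lt.1 h2
  obtain ⟨v1, v2⟩ := abs_lt.1 h3
  obtain ⟨y1, y2⟩ := wy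
  obtain ⟨z1, z2⟩ := wz
  have c0 : 0 < (tCC cv3m (w3W true)).v (c1n (x + u) + sm.xs.v u b x) (1 - (x + u - b)) x := hc (f3B sm.xs (tCC cv3m (w3W true))) (by unfold cx_Bm; simp only [List.mem_cons, true_or, or_true])
  refine (sLBm hF q3 (by linarith) (by linarith) c0 kx hw).trans ?_
  rw [w3Q_B, w3W_B]
theorem zDBm {u b x : ℝ} (hF : SideOk PP tKF tL pcF x) (hN : SideOk PP tKN tL pcN x) (x0 : 3 / 64 ≤ x) (x1 : x ≤ 1 / 16) (h1 : |u| < 3 / 128) (h2 : |b| < 1 / 128) (h3 : |u - b| < 3 / 128) (wy : 1 / 32 < x + u ∧ x + u < 5 / 64) (wz : 1 / 32 < x + u - b ∧ x + u - b < 5 / 64) (hb : b < 0) (q3 : InQ 1 (1 - (x + u - b))) (kx : c1n (x + u) + sm.xs.v u b x ≤ c3g.v (1 - (x + u - b)))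
    (hc : ∀ G ∈ cx_Bm, 0 < G.v u b x) : ((pcN 1).K.v (c1n (x + u) + sm.xs.v u b x) (1 - (x + u - b)) x - (1 + mun 3 x * cR x) * (pcF 1).K.v (c1n (x + u) + sm.xs.v u b x) (1 - (x + u - b)) x) / mun 3 x =
    -((cP (x + u - b) + 1 / 2 * cD (x + u - b) - (cR (x + u - b) + 2 * c1n (x + u - b) + 1) * kcg.v (psn (x + u - b)) x) * -(x + u - b)) + sD_Bm.v (c1n (x + u) + sm.xs.v u b x) (1 - (x + u - b)) x * (c1n (x + u) + sm.xs.v u b x - (c1n (x + u - b) + 1 / 2)) := by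
  have hw := w_Bm x0 x1 h1 h2 h3 wy wz hb
  obtain ⟨u1, u2⟩ := abs_lt.1 h1
  obtain ⟨b1, b2⟩ := abs_lt.1 h2
  obtain ⟨v1, v2⟩ := abs_lt.1 h3
  obtain ⟨y1, y2⟩ := wy
  obtain ⟨z1, z2⟩ := wz
  have c0 : 0 < (tCC cv3m (w3W true)).v (c1n (x + u) + sm.xs.v u b x) (1 - (x + u - b)) x := hc (f3B sm.xs (tCC cv3m (w3W true))) (by unfold cx_Bm; simp only [List.mem_cons, true_or, or_true])
  refine (sDBm hF hN (mun_ne x) q3 (by linarith) (by linarith) c0 kx hw).trans ?_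
  rw [w3D_B, w3W_B]
  push_cast
  ring
theorem fF_Bm {x u b κ y' : ℝ} (hF : SideOk PP tKF tL pcF x) (hκ : κ * h0 = ken x)
    (x0 : 3 / 64 ≤ x) (x1 : x ≤ 1 / 16) (h1 : |u| < 3 / 128) (h2 : |b| < 1 / 128) (h3 : |u - b| < 3 / 128) (wy : 1 / 32 < x + u ∧ x + u < 5 / 64) (wz : 1 / 32 < x + u - b ∧ x + u - b < 5 / 64) (hy : y' = 1 + b - (x + u)) (F : FactsB PP 0 1 1 0 0 1 (-1) (x + u) y') :
    StB (VF κ) PP tKF tL pcF 0 1 1 0 0 1 (-1) x (x + u) y' := by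
  have e0 : x + u + y' = 1 + b := by rw [hy]; ring
  have qs : InQ 1 (1 + b) := e0 ▸ F.q3
  have hs1 : h0 * (1 + b) < 1 := e0 ▸ F.k0 rfl
  obtain ⟨u1, u2⟩ := abs_lt.1 h1
  obtain ⟨b1, b2⟩ := abs_lt.1 h2
  obtain ⟨v1, v2⟩ := abs_lt.1 h3
  obtain ⟨y1, y2⟩ := wy
  obtain ⟨z1, z2⟩ := wz
  have hb : b < 0 := by linarith [qs.2]
  have D : DomB u b x := ⟨by linarith, by linarith, by linarith, by linarith, by linarith, by linarith, by linarith, by linarith⟩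
  have hY : y' = 1 - (x + u - b) := by rw [hy]; ring
  have q3 : InQ 1 (1 - (x + u - b)) := hY ▸ F.q2
  obtain ⟨p1, p2⟩ := psr (y := x + u) y1.le y2.le
  obtain ⟨p3, p4⟩ := psr (y := x + u - b) z1.le z2.le
  have hd := dqBm (dq_t x) hb (by linarith) (by linarith) (by linarith) (by linarith) p1 p2 p3 p4
  obtain ⟨r1, r2⟩ := rX x0 x1
  have K := Cht3.cert (ng := true) (r := 25165824) ct_0Bm (u := u) (b := b) (x := x) (by unfold S; norm_num; linarith) (by unfold S; norm_num; linarith) (by simp only [cond_true, cond_false]; linarith) (by simp only [cond_true, cond_false]; unfold S; norm_num; linarith) r1 r2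
  have t3 := t3B1 F.q2 hy
  have hit : ((T_Bm.b false).at_ u b x).it * (x + u - b) = -1 := by
    show -(x + u - b)⁻¹ * _ = _
    rw [neg_mul, inv_mul_cancel₀ (ne_of_gt (by linarith))]
  have hx : sm.xs.v u b x = 1 / 2 + b * sm.ws.v u b x := stM_x (by linarith) (by linarith)
  have hX : crv PP 0 1 (1 + b) = sm.xs.v u b x := crv0 1 (1 + b)
  have od : 1 ≤ qqn (c1n (x + u) + sm.xs.v u b x) (1 - (x + u - b)) ∧ qqn (c1n (x + u) + sm.xs.v u b x) (1 - (x + u - b)) ≤ 3 ∧ c1n (x + u) + sm.xs.v u b x ≠ 0 := by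
    have l1 := F.len1
    have l3 := F.len3
    have cp := c1n_pos' (y := x + u) (by nlinarith)
    have cn : 0 ≤ c1n (1 + b) := Mol.c1n_nn (1 + b)
    have e : -1 * crv PP 0 1 (x + u + y') - 1 * crv PP 0 0 (x + u) = -(c1n (x + u) + sm.xs.v u b x) := by
      rw [e0, hX, crv0]
      ring
    rw [e, qqn_neg, hY] at l1 l3
    refine ⟨l1, l3, ne_of_gt ?_⟩
    show 0 < c1n (x + u) + c1n (1 + b)
    linarith
  have kx : c1n (x + u) + sm.xs.v u b x ≤ c3g.v (1 - (x + u - b)) := by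
    rw [c3g_v]
    exact c3_ge od.2.1
  have hs : ∀ G ∈ sk_Bm, G.v u b x ≤ 0 := skPMx (A := false) (v := 25165824) (u := u) (b := b) (x := x) (abs_le.2 ⟨by simp only [cond_true, cond_false]; unfold S; norm_num; linarith, by simp only [cond_true, cond_false]; unfold S; norm_num; linarith⟩) (sub_nonpos.2 kx)
  have eX : -sm.xs.v u b x - c1n (x + u) = -(c1n (x + u) + sm.xs.v u b x) := by ring
  have K3 : (∀ G ∈ cx_Bm, 0 < G.v u b x) → (pcF 1).K.v (-sm.xs.v u b x - c1n (x + u)) y' x = ((c1n (x + u - b) + 1 / 2) * cG (x + u - b) + kcg.v (psn (x + u - b)) x) * -(x + u - b) - sK_Bm.v (c1n (x + u) + sm.xs.v u b x) (1 - (x + u - b)) x * (c1n (x + u) + sm.xs.v u b x - (c1n (x + u - b) + 1 / 2)) := fun hc => by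
    rw [eX, hY, (hF.odd q3 od.1 od.2.1 od.2.2).1, zKBm hF x0 x1 h1 h2 h3 ⟨y1, y2⟩ ⟨z1, z2⟩ hb q3 kx hc]
    ring
  have L3 : (∀ G ∈ cx_Bm, 0 < G.v u b x) → (pcF 1).L.v (-sm.xs.v u b x - c1n (x + u)) y' x = -(cQ x (x + u - b) (kcg.v (psn (x + u - b)) x) + sX_Bm.v (c1n (x + u) + sm.xs.v u b x) (1 - (x + u - b)) x * (c1n (x + u) + sm.xs.v u b x - (c1n (x + u - b) + 1 / 2))) := fun hc => by
    rw [eX, hY, (hF.odd q3 od.1 od.2.1 od.2.2).2, zLBm hF x0 x1 h1 h2 h3 ⟨y1, y2⟩ ⟨z1, z2⟩ hb q3 kx hc]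
  exact farJBm (T := T_Bm) (sk := sk_Bm) (cx := cx_Bm) D hb hκ hy hd hit (t1_0 F.q1) t3 hx hX K hs (shK0 F.q1 y1.le y2.le) (smK u hb qs (by linarith)) K3 (shL0 F.q1 y1.le y2.le) (smL u hb qs (by linarith)) L3
theorem WmolF_B_011_00_0_p {x κ y y' : ℝ} (hF : SideOk PP tKF tL pcF x) (hκ : κ * h0 = ken x) (x0 : 3 / 64 ≤ x) (x1 : x ≤ 1 / 16)
    (F : FactsB PP 0 1 1 0 0 1 (-1) y y') (h1 : |y - x| < 3 / 128) (h3 : |y' - (1 - x)| < 3 / 128) (h2 : |y + y' - 1| < 1 / 128) (gy : 1 / 32 < y ∧ y < 5 / 64) (gz : 59 / 64 < y' ∧ y' < 31 / 32) :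
    StB (VF κ) PP tKF tL pcF 0 1 1 0 0 1 (-1) x y y' := by
  obtain ⟨u, rfl⟩ : ∃ u, y = x + u := ⟨y - x, by ring⟩
  obtain ⟨b, hy⟩ : ∃ b, y' = 1 + b - (x + u) := ⟨y' + (x + u) - 1, by ring⟩
  rw [show x + u - x = u by ring] at h1
  rw [show x + u + y' - 1 = b by rw [hy]; ring] at h2
  rw [show y' - (1 - x) = -(u - b) by rw [hy]; ring, abs_neg] at h3
  have wy := gy
  have wz : 1 / 32 < x + u - b ∧ x + u - b < 5 / 64 := ⟨by linarith [gz.2], by linarith [gz.1]⟩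
  exact fF_Bm hF hκ x0 x1 h1 h2 h3 wy wz hy F
theorem molF_B_011_00_0 {κ x : ℝ} (hκ : κ * h0 = ken x) (hx : ((50331648 : ℕ) : ℝ) / S ≤ x) (hx' : x ≤ (((50331648 : ℕ) : ℝ) + (16777216 : ℕ)) / S) :
    AltB (VF κ) PP tKF tL pcF [⟨0, 0, 1, 25165824⟩, ⟨1, 1, 2, 25165824⟩, ⟨2, 1, 0, 8388608⟩, ⟨0, 0, 0, 83886080⟩, ⟨0, 1, 0, 1040187392⟩, ⟨1, 0, 0, 1040187392⟩, ⟨1, 1, 0, 83886080⟩] 0 1 1 0 0 (sgb true) (sgb false) x := by
  obtain ⟨x0, x1⟩ := xr hx hx'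
  intro y y' F h
  obtain ⟨h1, h3, h2, gy, gz⟩ := winB h
  exact WmolF_B_011_00_0_p (sideF hx hx') hκ x0 x1 F (h1.trans_eq (by norm_num)) (h3.trans_eq (by norm_num)) (h2.trans_eq (by norm_num)) ⟨lt_of_eq_of_lt (by norm_num) gy.1, lt_of_lt_of_eq gy.2 (by norm_num)⟩ ⟨lt_of_eq_of_lt (by norm_num) gz.2, lt_of_lt_of_eq gz.1 (by norm_num)⟩
theorem fN_Bm {x u b κ y' : ℝ} (hF : SideOk PP tKF tL pcF x) (hN : SideOk PP tKN tL pcN x) (hκ : κ * h0 = ken x)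
    (x0 : 3 / 64 ≤ x) (x1 : x ≤ 1 / 16) (h1 : |u| < 3 / 128) (h2 : |b| < 1 / 128) (h3 : |u - b| < 3 / 128) (wy : 1 / 32 < x + u ∧ x + u < 5 / 64) (wz : 1 / 32 < x + u - b ∧ x + u - b < 5 / 64) (hy : y' = 1 + b - (x + u)) (F : FactsB PP 0 1 1 0 0 1 (-1) (x + u) y') :
    StB (VN 3 κ) PP tKN tL pcN 0 1 1 0 0 1 (-1) x (x + u) y' := by
  have e0 : x + u + y' = 1 + b := by rw [hy]; ring
  have qs : InQ 1 (1 + b) := e0 ▸ F.q3
  have hs1 : h0 * (1 + b) < 1 := e0 ▸ F.k0 rfl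
  obtain ⟨u1, u2⟩ := abs_lt.1 h1
  obtain ⟨b1, b2⟩ := abs_lt.1 h2
  obtain ⟨v1, v2⟩ := abs_lt.1 h3
  obtain ⟨y1, y2⟩ := wy
  obtain ⟨z1, z2⟩ := wz
  have hb : b < 0 := by linarith [qs.2]
  have D : DomB u b x := ⟨by linarith, by linarith, by linarith, by linarith, by linarith, by linarith, by linarith, by linarith⟩
  have hY : y' = 1 - (x + u - b) := by rw [hy]; ring
  have q3 : InQ 1 (1 - (x + u - b)) := hY ▸ F.q2
  obtain ⟨p1, p2⟩ := psr (y := x + u) y1.le y2.le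
  obtain ⟨p3, p4⟩ := psr (y := x + u - b) z1.le z2.le
  have hd := dqBm (dq_t x) hb (by linarith) (by linarith) (by linarith) (by linarith) p1 p2 p3 p4
  obtain ⟨r1, r2⟩ := rX x0 x1
  have K := Cht3.cert (ng := true) (r := 25165824) ct_1Bm (u := u) (b := b) (x := x) (by unfold S; norm_num; linarith) (by unfold S; norm_num; linarith) (by simp only [cond_true, cond_false]; linarith) (by simp only [cond_true, cond_false]; unfold S; norm_num; linarith) r1 r2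
  have t3 := t3B1 F.q2 hy
  have hit : ((T_Bm.b false).at_ u b x).it * (x + u - b) = -1 := by
    show -(x + u - b)⁻¹ * _ = _
    rw [neg_mul, inv_mul_cancel₀ (ne_of_gt (by linarith))]
  have hx : sm.xs.v u b x = 1 / 2 + b * sm.ws.v u b x := stM_x (by linarith) (by linarith)
  have hX : crv PP 0 1 (1 + b) = sm.xs.v u b x := crv0 1 (1 + b)
  have od : 1 ≤ qqn (c1n (x + u) + sm.xs.v u b x) (1 - (x + u - b)) ∧ qqn (c1n (x + u) + sm.xs.v u b x) (1 - (x + u - b)) ≤ 3 ∧ c1n (x + u) + sm.xs.v u b x ≠ 0 := by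
    have l1 := F.len1
    have l3 := F.len3
    have cp := c1n_pos' (y := x + u) (by nlinarith)
    have cn : 0 ≤ c1n (1 + b) := Mol.c1n_nn (1 + b)
    have e : -1 * crv PP 0 1 (x + u + y') - 1 * crv PP 0 0 (x + u) = -(c1n (x + u) + sm.xs.v u b x) := by
      rw [e0, hX, crv0]
      ring
    rw [e, qqn_neg, hY] at l1 l3
    refine ⟨l1, l3, ne_of_gt ?_⟩
    show 0 < c1n (x + u) + c1n (1 + b)
    linarith
  have kx : c1n (x + u) + sm.xs.v u b x ≤ c3g.v (1 - (x + u - b)) := by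
    rw [c3g_v]
    exact c3_ge od.2.1
  have hs : ∀ G ∈ sk_Bm, G.v u b x ≤ 0 := skPMx (A := false) (v := 25165824) (u := u) (b := b) (x := x) (abs_le.2 ⟨by simp only [cond_true, cond_false]; unfold S; norm_num; linarith, by simp only [cond_true, cond_false]; unfold S; norm_num; linarith⟩) (sub_nonpos.2 kx)
  have eX : -sm.xs.v u b x - c1n (x + u) = -(c1n (x + u) + sm.xs.v u b x) := by ring
  have K3 : (∀ G ∈ cx_Bm, 0 < G.v u b x) → (pcF 1).K.v (-sm.xs.v u b x - c1n (x + u)) y' x = ((c1n (x + u - b) + 1 / 2) * cG (x + u - b) + kcg.v (psn (x + u - b)) x) * -(x + u - b) - sK_Bm.v (c1n (x + u) + sm.xs.v u b x) (1 - (x + u - b)) x * (c1n (x + u) + sm.xs.v u b x - (c1n (x + u - b) + 1 / 2)) := fun hc => by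
    rw [eX, hY, (hF.odd q3 od.1 od.2.1 od.2.2).1, zKBm hF x0 x1 h1 h2 h3 ⟨y1, y2⟩ ⟨z1, z2⟩ hb q3 kx hc]
    ring
  have L3 : (∀ G ∈ cx_Bm, 0 < G.v u b x) → (pcF 1).L.v (-sm.xs.v u b x - c1n (x + u)) y' x = -(cQ x (x + u - b) (kcg.v (psn (x + u - b)) x) + sX_Bm.v (c1n (x + u) + sm.xs.v u b x) (1 - (x + u - b)) x * (c1n (x + u) + sm.xs.v u b x - (c1n (x + u - b) + 1 / 2))) := fun hc => by
    rw [eX, hY, (hF.odd q3 od.1 od.2.1 od.2.2).2, zLBm hF x0 x1 h1 h2 h3 ⟨y1, y2⟩ ⟨z1, z2⟩ hb q3 kx hc]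
  have D3 : (∀ G ∈ cx_Bm, 0 < G.v u b x) → ((pcN 1).K.v (-sm.xs.v u b x - c1n (x + u)) y' x - (1 + mun 3 x * cR x) * (pcF 1).K.v (-sm.xs.v u b x - c1n (x + u)) y' x) / mun 3 x = (cP (x + u - b) + 1 / 2 * cD (x + u - b) - (cR (x + u - b) + 2 * c1n (x + u - b) + 1) * kcg.v (psn (x + u - b)) x) * -(x + u - b) - sD_Bm.v (c1n (x + u) + sm.xs.v u b x) (1 - (x + u - b)) x * (c1n (x + u) + sm.xs.v u b x - (c1n (x + u - b) + 1 / 2)) := fun hc => by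
    have e := zDBm hF hN x0 x1 h1 h2 h3 ⟨y1, y2⟩ ⟨z1, z2⟩ hb q3 kx hc
    rw [eX, hY, (hF.odd q3 od.1 od.2.1 od.2.2).1, (hN.odd q3 od.1 od.2.1 od.2.2).1]
    rw [div_eq_iff (mun_ne x)] at e ⊢
    linear_combination -e
  exact nearJBm (T := T_Bm) (sk := sk_Bm) (cx := cx_Bm) D hb hκ hy hd hit (t1_0 F.q1) t3 hx hX K hs (kcb y1.le y2.le x0 x1) (shN0 F.q1 y1.le y2.le) (smN qs) (smK u hb qs (by linarith)) (smD u hb (by linarith)) (fun _ => div_mun) K3 D3 (shL0 F.q1 y1.le y2.le) (smL u hb qs (by linarith)) L3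
theorem WmolN_B_011_00_0_p {x κ y y' : ℝ} (hF : SideOk PP tKF tL pcF x) (hN : SideOk PP tKN tL pcN x) (hκ : κ * h0 = ken x) (x0 : 3 / 64 ≤ x) (x1 : x ≤ 1 / 16)
    (F : FactsB PP 0 1 1 0 0 1 (-1) y y') (h1 : |y - x| < 3 / 128) (h3 : |y' - (1 - x)| < 3 / 128) (h2 : |y + y' - 1| < 1 / 128) (gy : 1 / 32 < y ∧ y < 5 / 64) (gz : 59 / 64 < y' ∧ y' < 31 / 32) :
    StB (VN 3 κ) PP tKN tL pcN 0 1 1 0 0 1 (-1) x y y' := by
  obtain ⟨u, rfl⟩ : ∃ u, y = x + u := ⟨y - x, by ring⟩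
  obtain ⟨b, hy⟩ : ∃ b, y' = 1 + b - (x + u) := ⟨y' + (x + u) - 1, by ring⟩
  rw [show x + u - x = u by ring] at h1
  rw [show x + u + y' - 1 = b by rw [hy]; ring] at h2
  rw [show y' - (1 - x) = -(u - b) by rw [hy]; ring, abs_neg] at h3
  have wy := gy
  have wz : 1 / 32 < x + u - b ∧ x + u - b < 5 / 64 := ⟨by linarith [gz.2], by linarith [gz.1]⟩
  exact fN_Bm hF hN hκ x0 x1 h1 h2 h3 wy wz hy F
theorem molN_B_011_00_0 {κ x : ℝ} (hκ : κ * h0 = ken x) (hx : ((50331648 : ℕ) : ℝ) / S ≤ x) (hx' : x ≤ (((50331648 : ℕ) : ℝ) + (16777216 : ℕ)) / S) :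
    AltB (VN 3 κ) PP tKN tL pcN [⟨0, 0, 1, 25165824⟩, ⟨1, 1, 2, 25165824⟩, ⟨2, 1, 0, 8388608⟩, ⟨0, 0, 0, 83886080⟩, ⟨0, 1, 0, 1040187392⟩, ⟨1, 0, 0, 1040187392⟩, ⟨1, 1, 0, 83886080⟩] 0 1 1 0 0 (sgb true) (sgb false) x := by
  obtain ⟨x0, x1⟩ := xr hx hx'
  intro y y' F h
  obtain ⟨h1, h3, h2, gy, gz⟩ := winB h
  exact WmolN_B_011_00_0_p (sideF hx hx') (sideN hx hx') hκ x0 x1 F (h1.trans_eq (by norm_num)) (h3.trans_eq (by norm_num)) (h2.trans_eq (by norm_num)) ⟨lt_of_eq_of_lt (by norm_num) gy.1, lt_of_lt_of_eq gy.2 (by norm_num)⟩ ⟨lt_of_eq_of_lt (by norm_num) gz.2, lt_of_lt_of_eq gz.1 (by norm_num)⟩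
theorem wX1 (z : ℝ) : crv PP 2 1 (1 - z) = c1n z + 1 / 2 := (ecv2q1).trans ((nW_q1 _).trans (w3W_B z))
theorem wK1 {z x : ℝ} (h : InQ 1 (1 - z)) (a : 1 / 32 < z) (b : z < 5 / 64) : tKF 2 1 (1 - z) x = ((c1n z + 1 / 2) * cG z + kcg.v (psn z) x) * z := by
  rw [show tKF 2 1 (1 - z) x = kf2q1.v (1 - z) x from tbF_on (onc h (by decide)), nK_q1 (by linarith) (by linarith) (by linarith) (by linarith), w3K_B]
  push_cast
  ring
theorem wL1 {z x : ℝ} (h : InQ 1 (1 - z)) (a : 1 / 32 < z) (b : z < 5 / 64) : tL 2 1 (1 - z) x = cQ x z (kcg.v (psn z) x) := by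
  rw [show tL 2 1 (1 - z) x = l2q1.v (1 - z) x from tbF_on (onc h (by decide)), nX_q1 (by linarith) (by linarith) (by linarith) (by linarith), w3Q_B]
theorem wD1 {z x : ℝ} (h : InQ 1 (1 - z)) (a : 1 / 32 < z) (b : z < 5 / 64) : kp2q1.v (1 - z) x = (cP z + 1 / 2 * cD z - (cR z + 2 * c1n z + 1) * kcg.v (psn z) x) * z := by
  rw [nD_q1 (by linarith) (by linarith) (by linarith) (by linarith), w3D_B]
  push_cast
  ring
theorem wN1 {z x : ℝ} (h : InQ 1 (1 - z)) : tKN 2 1 (1 - z) x = (1 + mun 3 x * cR x) * tKF 2 1 (1 - z) x + mun 3 x * kp2q1.v (1 - z) x := by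
  rw [show tKF 2 1 (1 - z) x = kf2q1.v (1 - z) x from tbF_on (onc h (by decide))]
  refine (tbF_on (onc h (by decide))).trans (kn_v kf2q1.v kp2q1.v kn2q1.v x (1 - z) ?_)
  simp only [kn2q1]
  push_cast
  ring
theorem wX2 (z : ℝ) : crv PP 2 2 (1 + z) = c1n z - 1 / 2 := (ecv2q2).trans ((nW_q2 _).trans (w3W_A z))
theorem wK2 {z x : ℝ} (h : InQ 2 (1 + z)) (a : 1 / 32 < z) (b : z < 5 / 64) : tKF 2 2 (1 + z) x = ((c1n z - 1 / 2) * cG z + kcg.v (psn z) x) * z := by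
  rw [show tKF 2 2 (1 + z) x = kf2q2.v (1 + z) x from tbF_on (onc h (by decide)), nK_q2 (by linarith) (by linarith) (by linarith) (by linarith), w3K_A]
  push_cast
  ring
theorem wL2 {z x : ℝ} (h : InQ 2 (1 + z)) (a : 1 / 32 < z) (b : z < 5 / 64) : tL 2 2 (1 + z) x = cQ x z (kcg.v (psn z) x) := by
  rw [show tL 2 2 (1 + z) x = l2q2.v (1 + z) x from tbF_on (onc h (by decide)), nX_q2 (by linarith) (by linarith) (by linarith) (by linarith), w3Q_A]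
theorem wD2 {z x : ℝ} (h : InQ 2 (1 + z)) (a : 1 / 32 < z) (b : z < 5 / 64) : kp2q2.v (1 + z) x = (cP z - 1 / 2 * cD z - (cR z + 2 * c1n z - 1) * kcg.v (psn z) x) * z := by
  rw [nD_q2 (by linarith) (by linarith) (by linarith) (by linarith), w3D_A]
  push_cast
  ring
theorem wN2 {z x : ℝ} (h : InQ 2 (1 + z)) : tKN 2 2 (1 + z) x = (1 + mun 3 x * cR x) * tKF 2 2 (1 + z) x + mun 3 x * kp2q2.v (1 + z) x := by
  rw [show tKF 2 2 (1 + z) x = kf2q2.v (1 + z) x from tbF_on (onc h (by decide))]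
  refine (tbF_on (onc h (by decide))).trans (kn_v kf2q2.v kp2q2.v kn2q2.v x (1 + z) ?_)
  simp only [kn2q2]
  push_cast
  ring
theorem qK_T3 {u b x : ℝ} (hF : SideOk PP tKF tL pcF x) (D : DomB u b x) (hb : 0 ≤ b) (b1 : b ≤ 1 / 64) (h : InQ 2 (1 + b))
    (hc : ∀ G ∈ cx_T3, 0 < G.v u b x) (l1 : 1 ≤ qqn (st_T3.xs.v u b x) (1 + b)) (l3 : qqn (st_T3.xs.v u b x) (1 + b) ≤ 3) :
    (pcF 2).K.v (-st_T3.xs.v u b x) (1 + b) x = -(1 / 2 + b * st_T3.rs.v u b x) := by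
  have h3 : 0 < cv3p.v (1 + b) - st_T3.xs.v u b x := hc (fTs st_T3.xs (tCX cv3p)) (by unfold cx_T3; simp)
  have hn := fnB_nn D
  have hx : st_T3.xs.v u b x = 1 / 2 + b * fnB.v u b x := rfl
  have hbn := mul_nonneg hb hn
  have e2 : cv2p.v (1 + b) = 1 / 2 + b * sk2.ws.v u b x := (cx2 (x := x) u).trans (stK_x (by norm_num) (by linarith) (by linarith))
  have e3 : (fXS 0 1 1).v u b x ≤ 1 / 2 := fXS_le (by norm_num) hb
  have hw : cv2p.v (1 + b) ≤ st_T3.xs.v u b x := by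
    rw [cx2 (x := x) u, hx]
    linarith
  have ne : st_T3.xs.v u b x ≠ 0 := by
    rw [hx]
    exact ne_of_gt (by linarith)
  have k1 : kf2q2.v (1 + b) x = 1 / 2 + b * sk2.rs.v u b x := (tbF_on (onc h (by decide))).symm.trans (sk2K u hb h b1)
  rw [(hF.odd h l1 l3 ne).1, rz0 (gK_2_2 hF h) hw (by linarith)]
  show -(kf2q2.v (1 + b) x + ((kf3q2.v (1 + b) x - kf2q2.v (1 + b) x) * (cv3p.v (1 + b) - cv2p.v (1 + b))⁻¹) * ((1 / 2 + b * fnB.v u b x) - cv2p.v (1 + b))) = -(1 / 2 + b * (sk2.rs.v u b x + ((kf3q2.v (1 + b) x - kf2q2.v (1 + b) x) * (cv3p.v (1 + b) - cv2p.v (1 + b))⁻¹) * (fnB.v u b x - sk2.ws.v u b x)))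
  linear_combination (-1) * k1 + ((kf3q2.v (1 + b) x - kf2q2.v (1 + b) x) * (cv3p.v (1 + b) - cv2p.v (1 + b))⁻¹) * e2
theorem qL_T3 {u b x : ℝ} (hF : SideOk PP tKF tL pcF x) (D : DomB u b x) (hb : 0 ≤ b) (b1 : b ≤ 1 / 64) (h : InQ 2 (1 + b))
    (hc : ∀ G ∈ cx_T3, 0 < G.v u b x) (l1 : 1 ≤ qqn (st_T3.xs.v u b x) (1 + b)) (l3 : qqn (st_T3.xs.v u b x) (1 + b) ≤ 3) :
    (pcF 2).L.v (-st_T3.xs.v u b x) (1 + b) x = -(b * st_T3.xk.v u b x) := by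
  have h3 : 0 < cv3p.v (1 + b) - st_T3.xs.v u b x := hc (fTs st_T3.xs (tCX cv3p)) (by unfold cx_T3; simp)
  have hn := fnB_nn D
  have hx : st_T3.xs.v u b x = 1 / 2 + b * fnB.v u b x := rfl
  have hbn := mul_nonneg hb hn
  have e2 : cv2p.v (1 + b) = 1 / 2 + b * sk2.ws.v u b x := (cx2 (x := x) u).trans (stK_x (by norm_num) (by linarith) (by linarith))
  have e3 : (fXS 0 1 1).v u b x ≤ 1 / 2 := fXS_le (by norm_num) hb
  have hw : cv2p.v (1 + b) ≤ st_T3.xs.v u b x := by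
    rw [cx2 (x := x) u, hx]
    linarith
  have ne : st_T3.xs.v u b x ≠ 0 := by
    rw [hx]
    exact ne_of_gt (by linarith)
  have k1 : l2q2.v (1 + b) x = b * sk2.xk.v u b x := (tbF_on (onc h (by decide))).symm.trans (sk2L u hb h b1)
  rw [(hF.odd h l1 l3 ne).2, rz0 (gL_2_2 hF h) hw (by linarith)]
  show -(l2q2.v (1 + b) x + ((l3q2.v (1 + b) x - l2q2.v (1 + b) x) * (cv3p.v (1 + b) - cv2p.v (1 + b))⁻¹) * ((1 / 2 + b * fnB.v u b x) - cv2p.v (1 + b))) = -(b * (sk2.xk.v u b x + ((l3q2.v (1 + b) x - l2q2.v (1 + b) x) * (cv3p.v (1 + b) - cv2p.v (1 + b))⁻¹) * (fnB.v u b x - sk2.ws.v u b x)))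
  linear_combination (-1) * k1 + ((l3q2.v (1 + b) x - l2q2.v (1 + b) x) * (cv3p.v (1 + b) - cv2p.v (1 + b))⁻¹) * e2
theorem qD_T3 {u b x : ℝ} (hF : SideOk PP tKF tL pcF x) (hN : SideOk PP tKN tL pcN x) (D : DomB u b x) (hb : 0 ≤ b) (b1 : b ≤ 1 / 64) (h : InQ 2 (1 + b))
    (hc : ∀ G ∈ cx_T3, 0 < G.v u b x) (l1 : 1 ≤ qqn (st_T3.xs.v u b x) (1 + b)) (l3 : qqn (st_T3.xs.v u b x) (1 + b) ≤ 3) :
    ((pcN 2).K.v (-st_T3.xs.v u b x) (1 + b) x - (1 + mun 3 x * cR x) * (pcF 2).K.v (-st_T3.xs.v u b x) (1 + b) x) / mun 3 x = -(b * st_T3.k2.v u b x) := by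
  have h3 : 0 < cv3p.v (1 + b) - st_T3.xs.v u b x := hc (fTs st_T3.xs (tCX cv3p)) (by unfold cx_T3; simp)
  have hn := fnB_nn D
  have hx : st_T3.xs.v u b x = 1 / 2 + b * fnB.v u b x := rfl
  have hbn := mul_nonneg hb hn
  have e2 : cv2p.v (1 + b) = 1 / 2 + b * sk2.ws.v u b x := (cx2 (x := x) u).trans (stK_x (by norm_num) (by linarith) (by linarith))
  have e3 : (fXS 0 1 1).v u b x ≤ 1 / 2 := fXS_le (by norm_num) hb
  have hw : cv2p.v (1 + b) ≤ st_T3.xs.v u b x := by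
    rw [cx2 (x := x) u, hx]
    linarith
  have ne : st_T3.xs.v u b x ≠ 0 := by
    rw [hx]
    exact ne_of_gt (by linarith)
  have k1 : kp2q2.v (1 + b) x = b * sk2.k2.v u b x := sk2D u hb b1
  have e := rz0 (gD_2_2 hF hN (mun_ne x) h) hw (by linarith)
  rw [(hF.odd h l1 l3 ne).1, (hN.odd h l1 l3 ne).1]
  have e4 : ∀ A B : ℝ, (-A - (1 + mun 3 x * cR x) * -B) / mun 3 x = -((A - (1 + mun 3 x * cR x) * B) / mun 3 x) := fun A B => by ring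
  rw [e4]
  refine (congrArg (fun t => -t) e).trans ?_
  show -(kp2q2.v (1 + b) x + ((kp3q2.v (1 + b) x - kp2q2.v (1 + b) x) * (cv3p.v (1 + b) - cv2p.v (1 + b))⁻¹) * ((1 / 2 + b * fnB.v u b x) - cv2p.v (1 + b))) = -(b * (sk2.k2.v u b x + ((kp3q2.v (1 + b) x - kp2q2.v (1 + b) x) * (cv3p.v (1 + b) - cv2p.v (1 + b))⁻¹) * (fnB.v u b x - sk2.ws.v u b x)))
  linear_combination (-1) * k1 + ((kp3q2.v (1 + b) x - kp2q2.v (1 + b) x) * (cv3p.v (1 + b) - cv2p.v (1 + b))⁻¹) * e2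
theorem qK_T4 {u b x : ℝ} (hF : SideOk PP tKF tL pcF x) (D : DomA u b x) (hb : 0 ≤ b) (b1 : b ≤ 1 / 64) (h : InQ 2 (1 + b))
    (hc : ∀ G ∈ cx_T4, 0 < G.v u b x) (l1 : 1 ≤ qqn (st_T4.xs.v u b x) (1 + b)) (l3 : qqn (st_T4.xs.v u b x) (1 + b) ≤ 3) :
    (pcF 2).K.v (-st_T4.xs.v u b x) (1 + b) x = -(1 / 2 + b * st_T4.rs.v u b x) := by
  have h3 : 0 < cv3p.v (1 + b) - st_T4.xs.v u b x := hc (fTs st_T4.xs (tCX cv3p)) (by unfold cx_T4; simp)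
  have hn := fnA_nn D
  have hx : st_T4.xs.v u b x = 1 / 2 + b * fnA.v u b x := rfl
  have hbn := mul_nonneg hb hn
  have e2 : cv2p.v (1 + b) = 1 / 2 + b * sk2.ws.v u b x := (cx2 (x := x) u).trans (stK_x (by norm_num) (by linarith) (by linarith))
  have e3 : (fXS 0 1 1).v u b x ≤ 1 / 2 := fXS_le (by norm_num) hb
  have hw : cv2p.v (1 + b) ≤ st_T4.xs.v u b x := by
    rw [cx2 (x := x) u, hx]
    linarith
  have ne : st_T4.xs.v u b x ≠ 0 := by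
    rw [hx]
    exact ne_of_gt (by linarith)
  have k1 : kf2q2.v (1 + b) x = 1 / 2 + b * sk2.rs.v u b x := (tbF_on (onc h (by decide))).symm.trans (sk2K u hb h b1)
  rw [(hF.odd h l1 l3 ne).1, rz0 (gK_2_2 hF h) hw (by linarith)]
  show -(kf2q2.v (1 + b) x + ((kf3q2.v (1 + b) x - kf2q2.v (1 + b) x) * (cv3p.v (1 + b) - cv2p.v (1 + b))⁻¹) * ((1 / 2 + b * fnA.v u b x) - cv2p.v (1 + b))) = -(1 / 2 + b * (sk2.rs.v u b x + ((kf3q2.v (1 + b) x - kf2q2.v (1 + b) x) * (cv3p.v (1 + b) - cv2p.v (1 + b))⁻¹) * (fnA.v u b x - sk2.ws.v u b x)))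
  linear_combination (-1) * k1 + ((kf3q2.v (1 + b) x - kf2q2.v (1 + b) x) * (cv3p.v (1 + b) - cv2p.v (1 + b))⁻¹) * e2
theorem qL_T4 {u b x : ℝ} (hF : SideOk PP tKF tL pcF x) (D : DomA u b x) (hb : 0 ≤ b) (b1 : b ≤ 1 / 64) (h : InQ 2 (1 + b))
    (hc : ∀ G ∈ cx_T4, 0 < G.v u b x) (l1 : 1 ≤ qqn (st_T4.xs.v u b x) (1 + b)) (l3 : qqn (st_T4.xs.v u b x) (1 + b) ≤ 3) :
    (pcF 2).L.v (-st_T4.xs.v u b x) (1 + b) x = -(b * st_T4.xk.v u b x) := by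
  have h3 : 0 < cv3p.v (1 + b) - st_T4.xs.v u b x := hc (fTs st_T4.xs (tCX cv3p)) (by unfold cx_T4; simp)
  have hn := fnA_nn D
  have hx : st_T4.xs.v u b x = 1 / 2 + b * fnA.v u b x := rfl
  have hbn := mul_nonneg hb hn
  have e2 : cv2p.v (1 + b) = 1 / 2 + b * sk2.ws.v u b x := (cx2 (x := x) u).trans (stK_x (by norm_num) (by linarith) (by linarith))
  have e3 : (fXS 0 1 1).v u b x ≤ 1 / 2 := fXS_le (by norm_num) hb
  have hw : cv2p.v (1 + b) ≤ st_T4.xs.v u b x := by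
    rw [cx2 (x := x) u, hx]
    linarith
  have ne : st_T4.xs.v u b x ≠ 0 := by
    rw [hx]
    exact ne_of_gt (by linarith)
  have k1 : l2q2.v (1 + b) x = b * sk2.xk.v u b x := (tbF_on (onc h (by decide))).symm.trans (sk2L u hb h b1)
  rw [(hF.odd h l1 l3 ne).2, rz0 (gL_2_2 hF h) hw (by linarith)]
  show -(l2q2.v (1 + b) x + ((l3q2.v (1 + b) x - l2q2.v (1 + b) x) * (cv3p.v (1 + b) - cv2p.v (1 + b))⁻¹) * ((1 / 2 + b * fnA.v u b x) - cv2p.v (1 + b))) = -(b * (sk2.xk.v u b x + ((l3q2.v (1 + b) x - l2q2.v (1 + b) x) * (cv3p.v (1 + b) - cv2p.v (1 + b))⁻¹) * (fnA.v u b x - sk2.ws.v u b x)))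
  linear_combination (-1) * k1 + ((l3q2.v (1 + b) x - l2q2.v (1 + b) x) * (cv3p.v (1 + b) - cv2p.v (1 + b))⁻¹) * e2
theorem qD_T4 {u b x : ℝ} (hF : SideOk PP tKF tL pcF x) (hN : SideOk PP tKN tL pcN x) (D : DomA u b x) (hb : 0 ≤ b) (b1 : b ≤ 1 / 64) (h : InQ 2 (1 + b))
    (hc : ∀ G ∈ cx_T4, 0 < G.v u b x) (l1 : 1 ≤ qqn (st_T4.xs.v u b x) (1 + b)) (l3 : qqn (st_T4.xs.v u b x) (1 + b) ≤ 3) :
    ((pcN 2).K.v (-st_T4.xs.v u b x) (1 + b) x - (1 + mun 3 x * cR x) * (pcF 2).K.v (-st_T4.xs.v u b x) (1 + b) x) / mun 3 x = -(b * st_T4.k2.v u b x) := by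
  have h3 : 0 < cv3p.v (1 + b) - st_T4.xs.v u b x := hc (fTs st_T4.xs (tCX cv3p)) (by unfold cx_T4; simp)
  have hn := fnA_nn D
  have hx : st_T4.xs.v u b x = 1 / 2 + b * fnA.v u b x := rfl
  have hbn := mul_nonneg hb hn
  have e2 : cv2p.v (1 + b) = 1 / 2 + b * sk2.ws.v u b x := (cx2 (x := x) u).trans (stK_x (by norm_num) (by linarith) (by linarith))
  have e3 : (fXS 0 1 1).v u b x ≤ 1 / 2 := fXS_le (by norm_num) hb
  have hw : cv2p.v (1 + b) ≤ st_T4.xs.v u b x := by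
    rw [cx2 (x := x) u, hx]
    linarith
  have ne : st_T4.xs.v u b x ≠ 0 := by
    rw [hx]
    exact ne_of_gt (by linarith)
  have k1 : kp2q2.v (1 + b) x = b * sk2.k2.v u b x := sk2D u hb b1
  have e := rz0 (gD_2_2 hF hN (mun_ne x) h) hw (by linarith)
  rw [(hF.odd h l1 l3 ne).1, (hN.odd h l1 l3 ne).1]
  have e4 : ∀ A B : ℝ, (-A - (1 + mun 3 x * cR x) * -B) / mun 3 x = -((A - (1 + mun 3 x * cR x) * B) / mun 3 x) := fun A B => by ring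
  rw [e4]
  refine (congrArg (fun t => -t) e).trans ?_
  show -(kp2q2.v (1 + b) x + ((kp3q2.v (1 + b) x - kp2q2.v (1 + b) x) * (cv3p.v (1 + b) - cv2p.v (1 + b))⁻¹) * ((1 / 2 + b * fnA.v u b x) - cv2p.v (1 + b))) = -(b * (sk2.k2.v u b x + ((kp3q2.v (1 + b) x - kp2q2.v (1 + b) x) * (cv3p.v (1 + b) - cv2p.v (1 + b))⁻¹) * (fnA.v u b x - sk2.ws.v u b x)))
  linear_combination (-1) * k1 + ((kp3q2.v (1 + b) x - kp2q2.v (1 + b) x) * (cv3p.v (1 + b) - cv2p.v (1 + b))⁻¹) * e2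
theorem sSK {X Y x : ℝ} (hF : SideOk PP tKF tL pcF x) (h : InQ 0 Y) (hX : c1g.v Y ≤ X) (t0 : 0 < cv1m.v Y - c1g.v Y) (t1 : 0 < cv2m.v Y - X)
    (l1 : 1 ≤ qqn X Y) (l3 : qqn X Y ≤ 3) (ne : X ≠ 0) : (pcF 0).K.v (-X) Y x = -(kf0q0.v Y x + gK.v X Y x * (X - c1g.v Y)) := by
  rw [(hF.odd h l1 l3 ne).1, rw1 (gK_0_0 hF h) (gK_0_1 hF h) t0 hX t1]
  rfl
theorem sZK {Y x : ℝ} (hF : SideOk PP tKF tL pcF x) (h : InQ 0 Y) (y2 : Y ^ 2 < 4 / 3) : (pcF 0).K.v (-c1n Y) Y x = -kf0q0.v Y x := by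
  have q1 := qqn_c1 (y := Y) (by linarith)
  have ne := (c1n_pos' (y := Y) y2).ne'
  have lo : c1g.v Y ≤ cv1m.v Y := by
    rw [c1g_v, ← (ecv1q0 (y := Y))]
    exact crv_low 1 h
  rw [(hF.odd h (by linarith) (by linarith) ne).1]
  have e := linB_left (gK_0_0 hF h) lo
  rw [c1g_v] at e
  exact congrArg (fun t => -t) e
theorem sSL {X Y x : ℝ} (hF : SideOk PP tKF tL pcF x) (h : InQ 0 Y) (hX : c1g.v Y ≤ X) (t0 : 0 < cv1m.v Y - c1g.v Y) (t1 : 0 < cv2m.v Y - X)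
    (l1 : 1 ≤ qqn X Y) (l3 : qqn X Y ≤ 3) (ne : X ≠ 0) : (pcF 0).L.v (-X) Y x = -(l0q0.v Y x + gX.v X Y x * (X - c1g.v Y)) := by
  rw [(hF.odd h l1 l3 ne).2, rw1 (gL_0_0 hF h) (gL_0_1 hF h) t0 hX t1]
  rfl
theorem sZL {Y x : ℝ} (hF : SideOk PP tKF tL pcF x) (h : InQ 0 Y) (y2 : Y ^ 2 < 4 / 3) : (pcF 0).L.v (-c1n Y) Y x = -l0q0.v Y x := by
  have q1 := qqn_c1 (y := Y) (by linarith)
  have ne := (c1n_pos' (y := Y) y2).ne'
  have lo : c1g.v Y ≤ cv1m.v Y := by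
    rw [c1g_v, ← (ecv1q0 (y := Y))]
    exact crv_low 1 h
  rw [(hF.odd h (by linarith) (by linarith) ne).2]
  have e := linB_left (gL_0_0 hF h) lo
  rw [c1g_v] at e
  exact congrArg (fun t => -t) e
theorem sSD {X Y x : ℝ} (hF : SideOk PP tKF tL pcF x) (hN : SideOk PP tKN tL pcN x) (h : InQ 0 Y) (hX : c1g.v Y ≤ X) (t0 : 0 < cv1m.v Y - c1g.v Y) (t1 : 0 < cv2m.v Y - X)
    (l1 : 1 ≤ qqn X Y) (l3 : qqn X Y ≤ 3) (ne : X ≠ 0) : ((pcN 0).K.v (-X) Y x - (1 + mun 3 x * cR x) * (pcF 0).K.v (-X) Y x) / mun 3 x = -(kp0q0.v Y x + gD.v X Y x * (X - c1g.v Y)) := by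
  have e := rw1 (gD_0_0 hF hN (mun_ne x) h) (gD_0_1 hF hN (mun_ne x) h) t0 hX t1
  rw [(hF.odd h l1 l3 ne).1, (hN.odd h l1 l3 ne).1]
  have e4 : ∀ A B : ℝ, (-A - (1 + mun 3 x * cR x) * -B) / mun 3 x = -((A - (1 + mun 3 x * cR x) * B) / mun 3 x) := fun A B => by ring
  rw [e4]
  exact congrArg (fun t => -t) e
theorem sZD {Y x : ℝ} (hF : SideOk PP tKF tL pcF x) (hN : SideOk PP tKN tL pcN x) (h : InQ 0 Y) (y2 : Y ^ 2 < 4 / 3) : ((pcN 0).K.v (-c1n Y) Y x - (1 + mun 3 x * cR x) * (pcF 0).K.v (-c1n Y) Y x) / mun 3 x = -kp0q0.v Y x := by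
  have q1 := qqn_c1 (y := Y) (by linarith)
  have ne := (c1n_pos' (y := Y) y2).ne'
  have lo : c1g.v Y ≤ cv1m.v Y := by
    rw [c1g_v, ← (ecv1q0 (y := Y))]
    exact crv_low 1 h
  rw [(hF.odd h (by linarith) (by linarith) ne).1, (hN.odd h (by linarith) (by linarith) ne).1]
  have e4 : ∀ A B : ℝ, (-A - (1 + mun 3 x * cR x) * -B) / mun 3 x = -((A - (1 + mun 3 x * cR x) * B) / mun 3 x) := fun A B => by ring
  rw [e4]
  have e := linB_left (gD_0_0 hF hN (mun_ne x) h) lo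
  rw [c1g_v] at e
  exact congrArg (fun t => -t) e
theorem fF_T3 {x u b κ y' : ℝ} (hF : SideOk PP tKF tL pcF x) (hκ : κ * h0 = ken x)
    (x0 : 3 / 64 ≤ x) (x1 : x ≤ 1 / 16) (h1 : |u| < 1 / 32) (h2 : |b| < 1 / 64) (h3 : |u - b| < 1 / 32) (wy : 1 / 32 < x + u ∧ x + u < 5 / 64) (wz : 1 / 32 < x + u - b ∧ x + u - b < 5 / 64) (hy : y' = 1 + b - (x + u)) (F : FactsA PP 0 1 2 0 2 1 (-1) (x + u) y') :
    StA (VF κ) PP tKF tL pcF 0 1 2 0 2 1 (-1) x (x + u) y' := by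
  have e0 : x + u + y' = 1 + b := by rw [hy]; ring
  have qs : InQ 2 (1 + b) := e0 ▸ F.q3
  obtain ⟨u1, u2⟩ := abs_lt.1 h1
  obtain ⟨b1, b2⟩ := abs_lt.1 h2
  obtain ⟨v1, v2⟩ := abs_lt.1 h3
  obtain ⟨y1, y2⟩ := wy
  obtain ⟨z1, z2⟩ := wz
  have hb : 0 ≤ b := by linarith [qs.1]
  have D : DomB u b x := ⟨by linarith, by linarith, by linarith, by linarith, by linarith, by linarith, by linarith, by linarith⟩
  obtain ⟨p1, p2⟩ := psr (y := x + u) y1.le y2.le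
  obtain ⟨p3, p4⟩ := psr (y := x + u - b) z1.le z2.le
  have hd := dqBp (dq_t x) hb (by linarith) (by linarith) (by linarith) (by linarith) p1 p2 p3 p4
  obtain ⟨r1, r2⟩ := rX x0 x1
  have K := Cht3.cert (ng := false) (r := 33554432) ct_0T3 (u := u) (b := b) (x := x) (by unfold S; norm_num; linarith) (by unfold S; norm_num; linarith) (by simp only [cond_true, cond_false]; linarith) (by simp only [cond_true, cond_false]; unfold S; norm_num; linarith) r1 r2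
  have hs : ∀ G ∈ sk_T3, G.v u b x ≤ 0 := skPM (A := false) (v := 33554432) (u := u) (b := b) (x := x) (abs_le.2 ⟨by simp only [cond_true, cond_false]; unfold S; norm_num; linarith, by simp only [cond_true, cond_false]; unfold S; norm_num; linarith⟩)
  have hit : ((T_T3.b true).at_ u b x).it * (x + u - b) = -1 := by
    show -(x + u - b)⁻¹ * _ = _
    rw [neg_mul, inv_mul_cancel₀ (ne_of_gt (by linarith))]
  have hY : y' = 1 - (x + u - b) := by rw [hy]; ring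
  have q2 : InQ 1 (1 - (x + u - b)) := hY ▸ F.q2
  have hX : crv PP 2 1 y' = c1n (x + u - b) + 1 / 2 := by rw [hY]; exact wX1 _
  have hcz := fnB_e D
  have od : 1 ≤ qqn (st_T3.xs.v u b x) (1 + b) ∧ qqn (st_T3.xs.v u b x) (1 + b) ≤ 3 := by
    have l1 := F.len1
    have l3 := F.len3
    have e : (1 : ℝ) * crv PP 0 0 (x + u) + -1 * crv PP 2 1 y' = -st_T3.xs.v u b x := by
      rw [hX, crv0]
      show _ = -(1 / 2 + b * fnB.v u b x)
      linear_combination -hcz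
    rw [e, qqn_neg, e0] at l1 l3
    exact ⟨l1, l3⟩
  have K3 : (∀ G ∈ cx_T3, 0 < G.v u b x) → (pcF 2).K.v (-T_T3.st.xs.v u b x) (1 + b) x = -(1 / 2 + b * T_T3.st.rs.v u b x) := fun hc => qK_T3 hF D hb (by linarith) qs hc od.1 od.2
  have L3 : (∀ G ∈ cx_T3, 0 < G.v u b x) → (pcF 2).L.v (-T_T3.st.xs.v u b x) (1 + b) x = -(b * T_T3.st.xk.v u b x) := fun hc => qL_T3 hF D hb (by linarith) qs hc od.1 od.2
  exact farT3 (T := T_T3) (sk := sk_T3) (cx := cx_T3) D hb hκ hy hd hit (t1_0 F.q1) (t3B1 F.q2 hy) stT_x rfl (fun _ _ => rfl) (fun _ _ => rfl) (fun _ _ => rfl) hX K hs (shK0 F.q1 y1.le y2.le) (by rw [hY]; exact wK1 q2 z1 z2) K3 (shL0 F.q1 y1.le y2.le) (by rw [hY]; exact wL1 q2 z1 z2) L3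
theorem vF_T3 {x u b κ y' : ℝ} (x0 : 3 / 64 ≤ x) (x1 : x ≤ 1 / 16) (h1 : |u| < 1 / 32) (h2 : |b| < 1 / 64) (h3 : |u - b| < 1 / 32) (wy : 1 / 32 < x + u ∧ x + u < 5 / 64) (wz : 1 / 32 < x + u - b ∧ x + u - b < 5 / 64) (hy : y' = 1 + b - (x + u)) (F : FactsA PP 0 1 1 0 2 1 (-1) (x + u) y') : False := by
  have e0 : x + u + y' = 1 + b := by rw [hy]; ring
  have qs : InQ 1 (1 + b) := e0 ▸ F.q3
  obtain ⟨u1, u2⟩ := abs_lt.1 h1
  obtain ⟨b1, b2⟩ := abs_lt.1 h2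
  obtain ⟨v1, v2⟩ := abs_lt.1 h3
  obtain ⟨y1, y2⟩ := wy
  obtain ⟨z1, z2⟩ := wz
  have hb : b < 0 := by linarith [qs.2]
  have hY : y' = 1 - (x + u - b) := by rw [hy]; ring
  have hX : crv PP 2 1 y' = c1n (x + u - b) + 1 / 2 := by rw [hY]; exact wX1 _
  have l1 := F.len1
  have e : (1 : ℝ) * crv PP 0 0 (x + u) + -1 * crv PP 2 1 y' = c1n (x + u) - (c1n (x + u - b) + 1 / 2) := by
    rw [hX, crv0]
    ring
  rw [e, e0] at l1
  exact vac_t (by linarith) (by linarith) (by linarith) hb (by linarith) l1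
theorem WmolF_A_012_02_3_p {x κ y y' : ℝ} (hF : SideOk PP tKF tL pcF x) (hκ : κ * h0 = ken x) (x0 : 3 / 64 ≤ x) (x1 : x ≤ 1 / 16)
    (F : FactsA PP 0 1 2 0 2 1 (-1) y y') (h1 : |y - x| < 1 / 32) (h3 : |y' - (1 - x)| < 1 / 32) (h2 : |y + y' - 1| < 1 / 64) (gy : 1 / 32 < y ∧ y < 5 / 64) (gz : 59 / 64 < y' ∧ y' < 31 / 32) :
    StA (VF κ) PP tKF tL pcF 0 1 2 0 2 1 (-1) x y y' := by
  obtain ⟨u, rfl⟩ : ∃ u, y = x + u := ⟨y - x, by ring⟩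
  obtain ⟨b, hy⟩ : ∃ b, y' = 1 + b - (x + u) := ⟨y' + (x + u) - 1, by ring⟩
  rw [show x + u - x = u by ring] at h1
  rw [show x + u + y' - 1 = b by rw [hy]; ring] at h2
  rw [show y' - (1 - x) = -(u - b) by rw [hy]; ring, abs_neg] at h3
  have wy := gy
  have wz : 1 / 32 < x + u - b ∧ x + u - b < 5 / 64 := ⟨by linarith [gz.2], by linarith [gz.1]⟩
  exact fF_T3 hF hκ x0 x1 h1 h2 h3 wy wz hy F
theorem molF_A_012_02_3 {κ x : ℝ} (hκ : κ * h0 = ken x) (hx : ((50331648 : ℕ) : ℝ) / S ≤ x) (hx' : x ≤ (((50331648 : ℕ) : ℝ) + (16777216 : ℕ)) / S) :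
    AltA (VF κ) PP tKF tL pcF [⟨0, 0, 1, 33554432⟩, ⟨1, 1, 2, 33554432⟩, ⟨2, 1, 0, 16777216⟩, ⟨0, 0, 0, 83886080⟩, ⟨0, 1, 0, 1040187392⟩, ⟨1, 0, 0, 1040187392⟩, ⟨1, 1, 0, 83886080⟩] 0 1 2 0 2 (sgb true) (sgb false) x := by
  obtain ⟨x0, x1⟩ := xr hx hx'
  intro y y' F h
  obtain ⟨h1, h3, h2, gy, gz⟩ := winB h
  exact WmolF_A_012_02_3_p (sideF hx hx') hκ x0 x1 F (h1.trans_eq (by norm_num)) (h3.trans_eq (by norm_num)) (h2.trans_eq (by norm_num)) ⟨lt_of_eq_of_lt (by norm_num) gy.1, lt_of_lt_of_eq gy.2 (by norm_num)⟩ ⟨lt_of_eq_of_lt (by norm_num) gz.2, lt_of_lt_of_eq gz.1 (by norm_num)⟩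
theorem WmolF_A_011_02_3_p {x κ y y' : ℝ} (hF : SideOk PP tKF tL pcF x) (hκ : κ * h0 = ken x) (x0 : 3 / 64 ≤ x) (x1 : x ≤ 1 / 16)
    (F : FactsA PP 0 1 1 0 2 1 (-1) y y') (h1 : |y - x| < 1 / 32) (h3 : |y' - (1 - x)| < 1 / 32) (h2 : |y + y' - 1| < 1 / 64) (gy : 1 / 32 < y ∧ y < 5 / 64) (gz : 59 / 64 < y' ∧ y' < 31 / 32) :
    StA (VF κ) PP tKF tL pcF 0 1 1 0 2 1 (-1) x y y' := by
  obtain ⟨u, rfl⟩ : ∃ u, y = x + u := ⟨y - x, by ring⟩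
  obtain ⟨b, hy⟩ : ∃ b, y' = 1 + b - (x + u) := ⟨y' + (x + u) - 1, by ring⟩
  rw [show x + u - x = u by ring] at h1
  rw [show x + u + y' - 1 = b by rw [hy]; ring] at h2
  rw [show y' - (1 - x) = -(u - b) by rw [hy]; ring, abs_neg] at h3
  have wy := gy
  have wz : 1 / 32 < x + u - b ∧ x + u - b < 5 / 64 := ⟨by linarith [gz.2], by linarith [gz.1]⟩
  exact (vF_T3 (κ := κ) x0 x1 h1 h2 h3 wy wz hy F).elim
theorem molF_A_011_02_3 {κ x : ℝ} (hκ : κ * h0 = ken x) (hx : ((50331648 : ℕ) : ℝ) / S ≤ x) (hx' : x ≤ (((50331648 : ℕ) : ℝ) + (16777216 : ℕ)) / S) :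
    AltA (VF κ) PP tKF tL pcF [⟨0, 0, 1, 33554432⟩, ⟨1, 1, 2, 33554432⟩, ⟨2, 1, 0, 16777216⟩, ⟨0, 0, 0, 83886080⟩, ⟨0, 1, 0, 1040187392⟩, ⟨1, 0, 0, 1040187392⟩, ⟨1, 1, 0, 83886080⟩] 0 1 1 0 2 (sgb true) (sgb false) x := by
  obtain ⟨x0, x1⟩ := xr hx hx'
  intro y y' F h
  obtain ⟨h1, h3, h2, gy, gz⟩ := winB h
  exact WmolF_A_011_02_3_p (sideF hx hx') hκ x0 x1 F (h1.trans_eq (by norm_num)) (h3.trans_eq (by norm_num)) (h2.trans_eq (by norm_num)) ⟨lt_of_eq_of_lt (by norm_num) gy.1, lt_of_lt_of_eq gy.2 (by norm_num)⟩ ⟨lt_of_eq_of_lt (by norm_num) gz.2, lt_of_lt_of_eq gz.1 (by norm_num)⟩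
theorem fF_T4 {x u b κ : ℝ} (hF : SideOk PP tKF tL pcF x) (hκ : κ * h0 = ken x)
    (x0 : 3 / 64 ≤ x) (x1 : x ≤ 1 / 16) (h1 : |u| < 1 / 32) (h2 : |b| < 1 / 64) (h3 : |u + b| < 1 / 32) (wy : 1 / 32 < x + u ∧ x + u < 5 / 64) (wz : 1 / 32 < x + u + b ∧ x + u + b < 5 / 64) (F : FactsB PP 0 2 2 0 2 1 1 (x + u) (1 + b)) :
    StB (VF κ) PP tKF tL pcF 0 2 2 0 2 1 1 x (x + u) (1 + b) := by
  have qs := F.q2
  obtain ⟨u1, u2⟩ := abs_lt.1 h1
  obtain ⟨b1, b2⟩ := abs_lt.1 h2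
  obtain ⟨v1, v2⟩ := abs_lt.1 h3
  obtain ⟨y1, y2⟩ := wy
  obtain ⟨z1, z2⟩ := wz
  have hb : 0 ≤ b := by linarith [qs.1]
  have D : DomA u b x := ⟨by linarith, by linarith, by linarith, by linarith, by linarith, by linarith, by linarith, by linarith⟩
  obtain ⟨p1, p2⟩ := psr (y := x + u) y1.le y2.le
  obtain ⟨p3, p4⟩ := psr (y := x + u + b) z1.le z2.le
  have hd := dqAp (dq_t x) hb (by linarith) (by linarith) (by linarith) (by linarith) p1 p2 p3 p4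
  obtain ⟨r1, r2⟩ := rX x0 x1
  have K := Cht3.cert (ng := false) (r := 33554432) ct_0T4 (u := u) (b := b) (x := x) (by unfold S; norm_num; linarith) (by unfold S; norm_num; linarith) (by simp only [cond_true, cond_false]; linarith) (by simp only [cond_true, cond_false]; unfold S; norm_num; linarith) r1 r2
  have hs : ∀ G ∈ sk_T4, G.v u b x ≤ 0 := skPM (A := true) (v := 33554432) (u := u) (b := b) (x := x) (abs_le.2 ⟨by simp only [cond_true, cond_false]; unfold S; norm_num; linarith, by simp only [cond_true, cond_false]; unfold S; norm_num; linarith⟩)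
  have hit : ((T_T4.a true).at_ u b x).it * (x + u + b) = 1 := by
    show (x + u + b)⁻¹ * _ = _
    exact inv_mul_cancel₀ (ne_of_gt (by linarith))
  have hY : x + u + (1 + b) = 1 + (x + u + b) := by ring
  have q3 : InQ 2 (1 + (x + u + b)) := hY ▸ F.q3
  have hX : crv PP 2 2 (x + u + (1 + b)) = c1n (x + u + b) - 1 / 2 := by rw [hY]; exact wX2 _
  have hcz := fnA_e D
  have od : 1 ≤ qqn (st_T4.xs.v u b x) (1 + b) ∧ qqn (st_T4.xs.v u b x) (1 + b) ≤ 3 := by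
    have l1 := F.len1
    have l3 := F.len3
    have e : (1 : ℝ) * crv PP 2 2 (x + u + (1 + b)) - 1 * crv PP 0 0 (x + u) = -st_T4.xs.v u b x := by
      rw [hX, crv0]
      show _ = -(1 / 2 + b * fnA.v u b x)
      linear_combination hcz
    rw [e, qqn_neg] at l1 l3
    exact ⟨l1, l3⟩
  have K3 : (∀ G ∈ cx_T4, 0 < G.v u b x) → (pcF 2).K.v (-T_T4.st.xs.v u b x) (1 + b) x = -(1 / 2 + b * T_T4.st.rs.v u b x) := fun hc => qK_T4 hF D hb (by linarith) qs hc od.1 od.2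
  have L3 : (∀ G ∈ cx_T4, 0 < G.v u b x) → (pcF 2).L.v (-T_T4.st.xs.v u b x) (1 + b) x = -(b * T_T4.st.xk.v u b x) := fun hc => qL_T4 hF D hb (by linarith) qs hc od.1 od.2
  exact farT4 (T := T_T4) (sk := sk_T4) (cx := cx_T4) D hb hκ hd hit (t1_0 F.q1) (t3A2 F.q3) stT_x rfl (fun _ _ => rfl) (fun _ _ => rfl) (fun _ _ => rfl) hX K hs (shK0 F.q1 y1.le y2.le) (by rw [hY]; exact wK2 q3 z1 z2) K3 (shL0 F.q1 y1.le y2.le) (by rw [hY]; exact wL2 q3 z1 z2) L3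
theorem vF_T4 {x u b κ : ℝ} (x0 : 3 / 64 ≤ x) (x1 : x ≤ 1 / 16) (h1 : |u| < 1 / 32) (h2 : |b| < 1 / 64) (h3 : |u + b| < 1 / 32) (wy : 1 / 32 < x + u ∧ x + u < 5 / 64) (wz : 1 / 32 < x + u + b ∧ x + u + b < 5 / 64) (F : FactsB PP 0 1 2 0 2 1 1 (x + u) (1 + b)) : False := by
  have qs := F.q2
  obtain ⟨u1, u2⟩ := abs_lt.1 h1
  obtain ⟨b1, b2⟩ := abs_lt.1 h2
  obtain ⟨v1, v2⟩ := abs_lt.1 h3
  obtain ⟨y1, y2⟩ := wy
  obtain ⟨z1, z2⟩ := wz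
  have hb : b < 0 := by linarith [qs.2]
  have hY : x + u + (1 + b) = 1 + (x + u + b) := by ring
  have hX : crv PP 2 2 (x + u + (1 + b)) = c1n (x + u + b) - 1 / 2 := by rw [hY]; exact wX2 _
  have l1 := F.len1
  have e : (1 : ℝ) * crv PP 2 2 (x + u + (1 + b)) - 1 * crv PP 0 0 (x + u) = c1n (x + u + b) - 1 / 2 - c1n (x + u) := by
    rw [hX, crv0]
    ring
  rw [e] at l1
  exact vac_u (by linarith) (by linarith) (by linarith) hb (by linarith) l1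
theorem WmolF_B_022_02_4_p {x κ y y' : ℝ} (hF : SideOk PP tKF tL pcF x) (hκ : κ * h0 = ken x) (x0 : 3 / 64 ≤ x) (x1 : x ≤ 1 / 16)
    (F : FactsB PP 0 2 2 0 2 1 1 y y') (h1 : |y - x| < 1 / 32) (h2 : |y' - 1| < 1 / 64) (h3 : |y + y' - (1 + x)| < 1 / 32) (gy : 1 / 32 < y ∧ y < 5 / 64) (gz : 33 / 32 < y + y' ∧ y + y' < 69 / 64) :
    StB (VF κ) PP tKF tL pcF 0 2 2 0 2 1 1 x y y' := by
  obtain ⟨u, rfl⟩ : ∃ u, y = x + u := ⟨y - x, by ring⟩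
  obtain ⟨b, rfl⟩ : ∃ b, y' = 1 + b := ⟨y' - 1, by ring⟩
  rw [show x + u - x = u by ring] at h1
  rw [show 1 + b - 1 = b by ring] at h2
  rw [show x + u + (1 + b) - (1 + x) = u + b by ring] at h3
  have wy := gy
  have wz : 1 / 32 < x + u + b ∧ x + u + b < 5 / 64 := ⟨by linarith [gz.1], by linarith [gz.2]⟩
  exact fF_T4 hF hκ x0 x1 h1 h2 h3 wy wz F
theorem molF_B_022_02_4 {κ x : ℝ} (hκ : κ * h0 = ken x) (hx : ((50331648 : ℕ) : ℝ) / S ≤ x) (hx' : x ≤ (((50331648 : ℕ) : ℝ) + (16777216 : ℕ)) / S) :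
    AltB (VF κ) PP tKF tL pcF [⟨0, 0, 1, 33554432⟩, ⟨1, 1, 0, 16777216⟩, ⟨2, 1, 1, 33554432⟩, ⟨0, 0, 0, 83886080⟩, ⟨0, 1, 0, 1040187392⟩, ⟨2, 1, 0, 83886080⟩, ⟨2, 2, 0, 1040187392⟩] 0 2 2 0 2 (sgb true) (sgb true) x := by
  obtain ⟨x0, x1⟩ := xr hx hx'
  intro y y' F h
  obtain ⟨h1, h2, h3, gy, gz⟩ := winA h
  exact WmolF_B_022_02_4_p (sideF hx hx') hκ x0 x1 F (h1.trans_eq (by norm_num)) (h2.trans_eq (by norm_num)) (h3.trans_eq (by norm_num)) ⟨lt_of_eq_of_lt (by norm_num) gy.1, lt_of_lt_of_eq gy.2 (by norm_num)⟩ ⟨lt_of_eq_of_lt (by norm_num) gz.1, lt_of_lt_of_eq gz.2 (by norm_num)⟩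
theorem WmolF_B_012_02_4_p {x κ y y' : ℝ} (hF : SideOk PP tKF tL pcF x) (hκ : κ * h0 = ken x) (x0 : 3 / 64 ≤ x) (x1 : x ≤ 1 / 16)
    (F : FactsB PP 0 1 2 0 2 1 1 y y') (h1 : |y - x| < 1 / 32) (h2 : |y' - 1| < 1 / 64) (h3 : |y + y' - (1 + x)| < 1 / 32) (gy : 1 / 32 < y ∧ y < 5 / 64) (gz : 33 / 32 < y + y' ∧ y + y' < 69 / 64) :
    StB (VF κ) PP tKF tL pcF 0 1 2 0 2 1 1 x y y' := by
  obtain ⟨u, rfl⟩ : ∃ u, y = x + u := ⟨y - x, by ring⟩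
  obtain ⟨b, rfl⟩ : ∃ b, y' = 1 + b := ⟨y' - 1, by ring⟩
  rw [show x + u - x = u by ring] at h1
  rw [show 1 + b - 1 = b by ring] at h2
  rw [show x + u + (1 + b) - (1 + x) = u + b by ring] at h3
  have wy := gy
  have wz : 1 / 32 < x + u + b ∧ x + u + b < 5 / 64 := ⟨by linarith [gz.1], by linarith [gz.2]⟩
  exact (vF_T4 (κ := κ) x0 x1 h1 h2 h3 wy wz F).elim
theorem molF_B_012_02_4 {κ x : ℝ} (hκ : κ * h0 = ken x) (hx : ((50331648 : ℕ) : ℝ) / S ≤ x) (hx' : x ≤ (((50331648 : ℕ) : ℝ) + (16777216 : ℕ)) / S) :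
    AltB (VF κ) PP tKF tL pcF [⟨0, 0, 1, 33554432⟩, ⟨1, 1, 0, 16777216⟩, ⟨2, 1, 1, 33554432⟩, ⟨0, 0, 0, 83886080⟩, ⟨0, 1, 0, 1040187392⟩, ⟨2, 1, 0, 83886080⟩, ⟨2, 2, 0, 1040187392⟩] 0 1 2 0 2 (sgb true) (sgb true) x := by
  obtain ⟨x0, x1⟩ := xr hx hx'
  intro y y' F h
  obtain ⟨h1, h2, h3, gy, gz⟩ := winA h
  exact WmolF_B_012_02_4_p (sideF hx hx') hκ x0 x1 F (h1.trans_eq (by norm_num)) (h2.trans_eq (by norm_num)) (h3.trans_eq (by norm_num)) ⟨lt_of_eq_of_lt (by norm_num) gy.1, lt_of_lt_of_eq gy.2 (by norm_num)⟩ ⟨lt_of_eq_of_lt (by norm_num) gz.1, lt_of_lt_of_eq gz.2 (by norm_num)⟩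
theorem fF_T5 {x u b κ : ℝ} (hF : SideOk PP tKF tL pcF x) (hκ : κ * h0 = ken x)
    (x0 : 3 / 64 ≤ x) (x1 : x ≤ 1 / 16) (h1 : |u| < 3 / 128) (h2 : |b| < 1 / 128) (h3 : |u + b| < 3 / 128) (wy : 1 / 32 < x + u ∧ x + u < 5 / 64) (wz : 1 / 32 < x + u + b ∧ x + u + b < 5 / 64) (F : FactsB PP 1 0 2 0 2 1 (-1) (1 + b) (x + u)) :
    StB (VF κ) PP tKF tL pcF 1 0 2 0 2 1 (-1) x (1 + b) (x + u) := by
  have qs := F.q1
  have q0 := F.q2
  obtain ⟨u1, u2⟩ := abs_lt.1 h1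
  obtain ⟨b1, b2⟩ := abs_lt.1 h2
  obtain ⟨v1, v2⟩ := abs_lt.1 h3
  obtain ⟨y1, y2⟩ := wy
  obtain ⟨z1, z2⟩ := wz
  have hb : b < 0 := by linarith [qs.2]
  have D : DomA u b x := ⟨by linarith, by linarith, by linarith, by linarith, by linarith, by linarith, by linarith, by linarith⟩
  obtain ⟨p1, p2⟩ := psr (y := x + u) y1.le y2.le
  obtain ⟨p3, p4⟩ := psr (y := x + u + b) z1.le z2.le
  have hd := dqAm (dq_t x) hb (by linarith) (by linarith) (by linarith) (by linarith) p1 p2 p3 p4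
  obtain ⟨r1, r2⟩ := rX x0 x1
  have K := Cht3.cert (ng := true) (r := 25165824) ct_0T5 (u := u) (b := b) (x := x) (by unfold S; norm_num; linarith) (by unfold S; norm_num; linarith) (by simp only [cond_true, cond_false]; linarith) (by simp only [cond_true, cond_false]; unfold S; norm_num; linarith) r1 r2
  have hs : ∀ G ∈ sk_T5, G.v u b x ≤ 0 := skPM (A := true) (v := 25165824) (u := u) (b := b) (x := x) (abs_le.2 ⟨by simp only [cond_true, cond_false]; unfold S; norm_num; linarith, by simp only [cond_true, cond_false]; unfold S; norm_num; linarith⟩)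
  have hit : ((shF (T_T5.a false) (fp1 true T_T5.st.ws fnA) gK gX gD).at_ u b x).it * (x + u + b) = 1 := by
    show (x + u + b)⁻¹ * _ = _
    exact inv_mul_cancel₀ (ne_of_gt (by linarith))
  have hY : 1 + b + (x + u) = 1 + (x + u + b) := by ring
  have q3 : InQ 2 (1 + (x + u + b)) := hY ▸ F.q3
  have hY2 : x + u + (1 + b) = 1 + b + (x + u) := by ring
  have q3' : InQ 2 (x + u + (1 + b)) := hY2 ▸ F.q3
  have hX : crv PP 2 2 (1 + b + (x + u)) = c1n (x + u + b) - 1 / 2 := by rw [hY]; exact wX2 _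
  have hx : sm.xs.v u b x = 1 / 2 + b * sm.ws.v u b x := stM_x (by linarith) (by linarith)
  have hXj : crv PP 0 1 (1 + b) = sm.xs.v u b x := crv0 1 (1 + b)
  have hxs : sm.xs.v u b x = c1n (1 + b) := rfl
  have hcz := fnA_e D
  have eX : c1n (x + u) + b * (fp1 true T_T5.st.ws fnA).v u b x = sm.xs.v u b x + (c1n (x + u + b) - 1 / 2) := by
    rw [hx]
    show c1n (x + u) + b * (sm.ws.v u b x - fnA.v u b x) = _
    linear_combination -hcz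
  have cm1 : 1 / 2 ≤ c1n (1 + b) := c1n_half' hb.le (by linarith)
  have cz0 := Mol.c1n_nn (x + u + b)
  have xpos : 0 < c1n (x + u) + b * (fp1 true T_T5.st.ws fnA).v u b x := by
    rw [eX, hxs]
    have := c1n_pos' (y := x + u + b) (by nlinarith)
    linarith
  have xne := xpos.ne'
  have od : 1 ≤ qqn (c1n (x + u) + b * (fp1 true T_T5.st.ws fnA).v u b x) (x + u) ∧ qqn (c1n (x + u) + b * (fp1 true T_T5.st.ws fnA).v u b x) (x + u) ≤ 3 := by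
    have l1 := F.len1
    have l3 := F.len3
    have e : (-1 : ℝ) * crv PP 2 2 (1 + b + (x + u)) - 1 * crv PP 0 1 (1 + b) = -(c1n (x + u) + b * (fp1 true T_T5.st.ws fnA).v u b x) := by
      rw [hX, hXj, eX]
      ring
    rw [e, qqn_neg] at l1 l3
    exact ⟨l1, l3⟩
  have hc1 : c1n (x + u) ≤ c1n (x + u) + b * (fp1 true T_T5.st.ws fnA).v u b x := c1_le od.1 xpos.le
  have K1 : (∀ G ∈ cx_T5, 0 < G.v u b x) → (pcF 0).K.v (-(c1n (x + u) + b * (fp1 true T_T5.st.ws fnA).v u b x)) (x + u) x = -((c1n (x + u) * cG (x + u) + kcg.v (psn (x + u)) x) * (x + u) + b * (f1s (fp1 true T_T5.st.ws fnA) gK).v u b x) := fun hc => by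
    have t1 : 0 < cv2m.v (x + u) - (c1n (x + u) + b * (fp1 true T_T5.st.ws fnA).v u b x) := hc (f1t p_T5 (tCX cv2m)) (by unfold cx_T5; simp)
    have t0 : 0 < cv1m.v (x + u) - c1g.v (x + u) := hc (f1t p_T5 (tCC cv1m c1g)) (by unfold cx_T5; simp)
    have k1 : kf0q0.v (x + u) x = (c1n (x + u) * cG (x + u) + kcg.v (psn (x + u)) x) * (x + u) := kf0_t0 (by linarith) (by linarith)
    have k2 : c1g.v (x + u) = c1n (x + u) := congrFun c1g_v _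
    rw [sSK hF q0 (by rw [k2]; exact hc1) t0 t1 od.1 od.2 xne, k1, k2]
    show -(_ + gK.v (c1n (x + u) + b * (fp1 true T_T5.st.ws fnA).v u b x) (x + u) x * (_ - _)) = -(_ + b * (gK.v (c1n (x + u) + b * (fp1 true T_T5.st.ws fnA).v u b x) (x + u) x * (fp1 true T_T5.st.ws fnA).v u b x))
    ring
  have L1 : (∀ G ∈ cx_T5, 0 < G.v u b x) → (pcF 0).L.v (-(c1n (x + u) + b * (fp1 true T_T5.st.ws fnA).v u b x)) (x + u) x = -(cQ x (x + u) (kcg.v (psn (x + u)) x) + b * (f1s (fp1 true T_T5.st.ws fnA) gX).v u b x) := fun hc => by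
    have t1 : 0 < cv2m.v (x + u) - (c1n (x + u) + b * (fp1 true T_T5.st.ws fnA).v u b x) := hc (f1t p_T5 (tCX cv2m)) (by unfold cx_T5; simp)
    have t0 : 0 < cv1m.v (x + u) - c1g.v (x + u) := hc (f1t p_T5 (tCC cv1m c1g)) (by unfold cx_T5; simp)
    have k1 : l0q0.v (x + u) x = cQ x (x + u) (kcg.v (psn (x + u)) x) := l0_t0 (lt_of_lt_of_le (by norm_num) p1) (p2.trans (by norm_num))
    have k2 : c1g.v (x + u) = c1n (x + u) := congrFun c1g_v _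
    rw [sSL hF q0 (by rw [k2]; exact hc1) t0 t1 od.1 od.2 xne, k1, k2]
    show -(_ + gX.v (c1n (x + u) + b * (fp1 true T_T5.st.ws fnA).v u b x) (x + u) x * (_ - _)) = -(_ + b * (gX.v (c1n (x + u) + b * (fp1 true T_T5.st.ws fnA).v u b x) (x + u) x * (fp1 true T_T5.st.ws fnA).v u b x))
    ring
  exact farT5 (T := T_T5) (sk := sk_T5) (cx := cx_T5) D hb hκ hd hit (t1_0 q0) (t3A2 q3') hx (fun _ _ => rfl) (fun _ _ => rfl) (fun _ _ => rfl) hX hXj K hs K1 (by rw [hY]; exact wK2 q3 z1 z2) (smK u hb qs (by linarith)) L1 (by rw [hY]; exact wL2 q3 z1 z2) (smL u hb qs (by linarith))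
theorem WmolF_B_102_02_5_p {x κ y y' : ℝ} (hF : SideOk PP tKF tL pcF x) (hκ : κ * h0 = ken x) (x0 : 3 / 64 ≤ x) (x1 : x ≤ 1 / 16)
    (F : FactsB PP 1 0 2 0 2 1 (-1) y y') (h2 : |y - 1| < 1 / 128) (h1 : |y' - x| < 3 / 128) (h3 : |y + y' - (1 + x)| < 3 / 128) (gy : 1 / 32 < y' ∧ y' < 5 / 64) (gz : 33 / 32 < y + y' ∧ y + y' < 69 / 64) :
    StB (VF κ) PP tKF tL pcF 1 0 2 0 2 1 (-1) x y y' := by
  obtain ⟨u, rfl⟩ : ∃ u, y' = x + u := ⟨y' - x, by ring⟩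
  obtain ⟨b, rfl⟩ : ∃ b, y = 1 + b := ⟨y - 1, by ring⟩
  rw [show x + u - x = u by ring] at h1
  rw [show 1 + b - 1 = b by ring] at h2
  rw [show 1 + b + (x + u) - (1 + x) = u + b by ring] at h3
  have wy := gy
  have wz : 1 / 32 < x + u + b ∧ x + u + b < 5 / 64 := ⟨by linarith [gz.1], by linarith [gz.2]⟩
  exact fF_T5 hF hκ x0 x1 h1 h2 h3 wy wz F
theorem molF_B_102_02_5 {κ x : ℝ} (hκ : κ * h0 = ken x) (hx : ((50331648 : ℕ) : ℝ) / S ≤ x) (hx' : x ≤ (((50331648 : ℕ) : ℝ) + (16777216 : ℕ)) / S) :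
    AltB (VF κ) PP tKF tL pcF [⟨0, 1, 0, 8388608⟩, ⟨1, 0, 1, 25165824⟩, ⟨2, 1, 1, 25165824⟩, ⟨1, 0, 0, 83886080⟩, ⟨1, 1, 0, 1040187392⟩, ⟨2, 1, 0, 83886080⟩, ⟨2, 2, 0, 1040187392⟩] 1 0 2 0 2 (sgb true) (sgb false) x := by
  obtain ⟨x0, x1⟩ := xr hx hx'
  intro y y' F h
  obtain ⟨h2, h1, h3, gy, gz⟩ := winM h
  exact WmolF_B_102_02_5_p (sideF hx hx') hκ x0 x1 F (h2.trans_eq (by norm_num)) (h1.trans_eq (by norm_num)) (h3.trans_eq (by norm_num)) ⟨lt_of_eq_of_lt (by norm_num) gy.1, lt_of_lt_of_eq gy.2 (by norm_num)⟩ ⟨lt_of_eq_of_lt (by norm_num) gz.1, lt_of_lt_of_eq gz.2 (by norm_num)⟩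
theorem gF_T50 {x u b κ : ℝ} (hF : SideOk PP tKF tL pcF x) (hκ : κ * h0 = ken x)
    (x0 : 3 / 64 ≤ x) (x1 : x ≤ 1 / 16) (h1 : |u| < 3 / 128) (h2 : |b| < 1 / 128) (h3 : |u + b| < 3 / 128) (wy : 1 / 32 < x + u ∧ x + u < 5 / 64) (wz : 1 / 32 < x + u + b ∧ x + u + b < 5 / 64) (F : FactsB PP 2 0 2 0 2 1 (-1) (1 + b) (x + u)) :
    StB (VF κ) PP tKF tL pcF 2 0 2 0 2 1 (-1) x (1 + b) (x + u) := by
  have qs := F.q1
  have q0 := F.q2
  obtain ⟨u1, u2⟩ := abs_lt.1 h1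
  obtain ⟨b1, b2⟩ := abs_lt.1 h2
  obtain ⟨v1, v2⟩ := abs_lt.1 h3
  obtain ⟨y1, y2⟩ := wy
  obtain ⟨z1, z2⟩ := wz
  have hb : 0 ≤ b := by linarith [qs.1]
  have hY : 1 + b + (x + u) = 1 + (x + u + b) := by ring
  have q3 : InQ 2 (1 + (x + u + b)) := hY ▸ F.q3
  have hs1 := F.j0 rfl
  have hXj : crv PP 0 2 (1 + b) = c1n (1 + b) := crv0 2 (1 + b)
  have xs1 : c1n (1 + b) ≤ 1 / 2 := c1n_half hb
  have xs0 : 0 ≤ c1n (1 + b) := Mol.c1n_nn (1 + b)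
  have hX : crv PP 2 2 (1 + b + (x + u)) = c1n (x + u + b) - 1 / 2 := by rw [hY]; exact wX2 _
  have cz : 1 / 2 ≤ c1n (x + u + b) := by
    have := c1n_le' (y := x + u + b) (z := 1) (by linarith) (by linarith)
    rwa [c1n_one] at this
  rcases hb.eq_or_lt with hb0 | hb0
  · subst hb0
    obtain ⟨r1, r2⟩ := rX x0 x1
    have D : DomA u 0 x := ⟨by linarith, by linarith, by linarith, by linarith, by linarith, by linarith, by linarith, by linarith⟩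
    have K := Cht3.cert (ng := false) (r := 33554432) ct_0Apk1 (u := u) (b := 0) (x := x) (by unfold S; norm_num; linarith) (by unfold S; norm_num; linarith) (by simp only [cond_true, cond_false]; linarith) (by simp only [cond_true, cond_false]; unfold S; norm_num) r1 r2
    have hs : ∀ G ∈ sk_Apk1, G.v u 0 x ≤ 0 := skPM (A := true) (v := 33554432) (u := u) (b := 0) (x := x) (abs_le.2 ⟨by simp only [cond_true, cond_false]; unfold S; norm_num; linarith, by simp only [cond_true, cond_false]; unfold S; norm_num; linarith⟩)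
    obtain ⟨p1, p2⟩ := psr (y := x + u) y1.le y2.le
    have hit : ((T_Apk1.a true).at_ u 0 x).it * (x + u + 0) = 1 := by
      show (x + u + 0)⁻¹ * _ = _
      exact inv_mul_cancel₀ (ne_of_gt (by linarith))
    simp only [add_zero] at qs hXj hX q3 hs1 z1 z2
    have hXj' : crv PP 0 2 1 = 1 / 2 := by
      rw [hXj]
      exact c1n_one
    have qs' : InQ 2 (1 + 0) := by rw [add_zero]; exact qs
    have hs1' : h0 * (1 + 0) < 1 := by rw [add_zero]; exact hs1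
    have kK : tKF 0 2 1 x = 1 / 2 := by
      have k := spK (b := 0) (x := x) u le_rfl qs' hs1' (by norm_num)
      rwa [zero_mul, add_zero, add_zero] at k
    have kL : tL 0 2 1 x = 0 := by
      have k := spL (b := 0) (x := x) u le_rfl qs' hs1' (by norm_num)
      rwa [zero_mul, add_zero] at k
    have t3 := t3A2 (u := u) (b := 0) (x := x) (by rw [show x + u + (1 + 0) = 1 + (x + u) by ring]; exact q3)
    have k := far5z (b' := 0) (a := 2) (c := 2) (j := 0) (k := 2) (M := T_Apk1.a true) (sk := sk_Apk1) (cx := cx_Apk1) (kc := kcg.v (psn (x + u)) x) D hκ hit rfl (t1_0 q0) t3 (show crv PP 2 2 (1 + (x + u)) = c1n (x + u) - 1 / 2 from hX) hXj' K hs (by rw [sZK hF q0 (by nlinarith), kf0_t0 (by linarith) (by linarith)]) (wK2 q3 z1 z2) kK (by show (pcF 0).L.v (-c1n (x + u)) (x + u) x = _; rw [sZL hF q0 (by nlinarith), l0_t0 (lt_of_lt_of_le (by norm_num) p1) (p2.trans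 (by norm_num))]) (wL2 q3 z1 z2) kL
    rw [add_zero]
    exact k
  · exfalso
    have l1 := F.len1
    have e : (-1 : ℝ) * crv PP 2 2 (1 + b + (x + u)) - 1 * crv PP 0 2 (1 + b) = -(c1n (1 + b) + (c1n (x + u + b) - 1 / 2)) := by
      rw [hX, hXj]
      ring
    rw [e] at l1
    exact vac_s (y := x + u) (z := x + u + b) (by linarith) (by linarith) (by linarith) (by linarith) (by linarith) l1
theorem WmolF_B_202_02_5_p {x κ y y' : ℝ} (hF : SideOk PP tKF tL pcF x) (hκ : κ * h0 = ken x) (x0 : 3 / 64 ≤ x) (x1 : x ≤ 1 / 16)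
    (F : FactsB PP 2 0 2 0 2 1 (-1) y y') (h2 : |y - 1| < 1 / 128) (h1 : |y' - x| < 3 / 128) (h3 : |y + y' - (1 + x)| < 3 / 128) (gy : 1 / 32 < y' ∧ y' < 5 / 64) (gz : 33 / 32 < y + y' ∧ y + y' < 69 / 64) :
    StB (VF κ) PP tKF tL pcF 2 0 2 0 2 1 (-1) x y y' := by
  obtain ⟨u, rfl⟩ : ∃ u, y' = x + u := ⟨y' - x, by ring⟩
  obtain ⟨b, rfl⟩ : ∃ b, y = 1 + b := ⟨y - 1, by ring⟩
  rw [show x + u - x = u by ring] at h1
  rw [show 1 + b - 1 = b by ring] at h2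
  rw [show 1 + b + (x + u) - (1 + x) = u + b by ring] at h3
  have wy := gy
  have wz : 1 / 32 < x + u + b ∧ x + u + b < 5 / 64 := ⟨by linarith [gz.1], by linarith [gz.2]⟩
  exact gF_T50 hF hκ x0 x1 h1 h2 h3 wy wz F
theorem molF_B_202_02_5 {κ x : ℝ} (hκ : κ * h0 = ken x) (hx : ((50331648 : ℕ) : ℝ) / S ≤ x) (hx' : x ≤ (((50331648 : ℕ) : ℝ) + (16777216 : ℕ)) / S) :
    AltB (VF κ) PP tKF tL pcF [⟨0, 1, 0, 8388608⟩, ⟨1, 0, 1, 25165824⟩, ⟨2, 1, 1, 25165824⟩, ⟨1, 0, 0, 83886080⟩, ⟨1, 1, 0, 1040187392⟩, ⟨2, 1, 0, 83886080⟩, ⟨2, 2, 0, 1040187392⟩] 2 0 2 0 2 (sgb true) (sgb false) x := by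
  obtain ⟨x0, x1⟩ := xr hx hx'
  intro y y' F h
  obtain ⟨h2, h1, h3, gy, gz⟩ := winM h
  exact WmolF_B_202_02_5_p (sideF hx hx') hκ x0 x1 F (h2.trans_eq (by norm_num)) (h1.trans_eq (by norm_num)) (h3.trans_eq (by norm_num)) ⟨lt_of_eq_of_lt (by norm_num) gy.1, lt_of_lt_of_eq gy.2 (by norm_num)⟩ ⟨lt_of_eq_of_lt (by norm_num) gz.1, lt_of_lt_of_eq gz.2 (by norm_num)⟩
theorem gF_T51 {x u b κ : ℝ} (hF : SideOk PP tKF tL pcF x) (hκ : κ * h0 = ken x)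
    (x0 : 3 / 64 ≤ x) (x1 : x ≤ 1 / 16) (h1 : |u| < 1 / 32) (h2 : |b| < 1 / 64) (h3 : |u + b| < 1 / 32) (wy : 1 / 32 < x + u ∧ x + u < 5 / 64) (wz : 1 / 32 < x + u + b ∧ x + u + b < 5 / 64) (F : FactsB PP 2 0 2 1 2 1 (-1) (1 + b) (x + u)) :
    StB (VF κ) PP tKF tL pcF 2 0 2 1 2 1 (-1) x (1 + b) (x + u) := by
  have qs := F.q1
  have q0 := F.q2
  obtain ⟨u1, u2⟩ := abs_lt.1 h1
  obtain ⟨b1, b2⟩ := abs_lt.1 h2
  obtain ⟨v1, v2⟩ := abs_lt.1 h3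
  obtain ⟨y1, y2⟩ := wy
  obtain ⟨z1, z2⟩ := wz
  have hb : 0 ≤ b := by linarith [qs.1]
  have hY : 1 + b + (x + u) = 1 + (x + u + b) := by ring
  have q3 : InQ 2 (1 + (x + u + b)) := hY ▸ F.q3
  have hXj : crv PP 1 2 (1 + b) = (fXS 2 3 5).v u b x := sX1 u
  have xs1 : (fXS 2 3 5).v u b x ≤ 1 / 2 := fXS_le (by norm_num) hb
  have xs0 : 0 ≤ (fXS 2 3 5).v u b x := fXS_nn hb (by linarith)
  have hX : crv PP 2 2 (1 + b + (x + u)) = c1n (x + u + b) - 1 / 2 := by rw [hY]; exact wX2 _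
  have cz : 1 / 2 ≤ c1n (x + u + b) := by
    have := c1n_le' (y := x + u + b) (z := 1) (by linarith) (by linarith)
    rwa [c1n_one] at this
  rcases hb.eq_or_lt with hb0 | hb0
  · subst hb0
    obtain ⟨r1, r2⟩ := rX x0 x1
    have D : DomA u 0 x := ⟨by linarith, by linarith, by linarith, by linarith, by linarith, by linarith, by linarith, by linarith⟩
    have K := Cht3.cert (ng := false) (r := 33554432) ct_0Apk1 (u := u) (b := 0) (x := x) (by unfold S; norm_num; linarith) (by unfold S; norm_num; linarith) (by simp only [cond_true, cond_false]; linarith) (by simp only [cond_true, cond_false]; unfold S; norm_num) r1 r2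
    have hs : ∀ G ∈ sk_Apk1, G.v u 0 x ≤ 0 := skPM (A := true) (v := 33554432) (u := u) (b := 0) (x := x) (abs_le.2 ⟨by simp only [cond_true, cond_false]; unfold S; norm_num; linarith, by simp only [cond_true, cond_false]; unfold S; norm_num; linarith⟩)
    obtain ⟨p1, p2⟩ := psr (y := x + u) y1.le y2.le
    have hit : ((T_Apk1.a true).at_ u 0 x).it * (x + u + 0) = 1 := by
      show (x + u + 0)⁻¹ * _ = _
      exact inv_mul_cancel₀ (ne_of_gt (by linarith))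
    simp only [add_zero] at qs hXj hX q3 z1 z2
    have hXj' : crv PP 1 2 1 = 1 / 2 := by
      rw [hXj]
      exact (stK_x (r := 2) (p := 3) (q := 5) (s := rK1) (sx := rX1) (sd := rD1) (u := u) (b := 0) (x := x) (by norm_num) (by norm_num) (by norm_num)).trans (by rw [zero_mul, add_zero])
    have qs' : InQ 2 (1 + 0) := by rw [add_zero]; exact qs
    have kK : tKF 1 2 1 x = 1 / 2 := by
      have k := sk1K (b := 0) (x := x) u le_rfl qs' (by norm_num)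
      rwa [zero_mul, add_zero, add_zero] at k
    have kL : tL 1 2 1 x = 0 := by
      have k := sk1L (b := 0) (x := x) u le_rfl qs' (by norm_num)
      rwa [zero_mul, add_zero] at k
    have t3 := t3A2 (u := u) (b := 0) (x := x) (by rw [show x + u + (1 + 0) = 1 + (x + u) by ring]; exact q3)
    have k := far5z (b' := 0) (a := 2) (c := 2) (j := 1) (k := 2) (M := T_Apk1.a true) (sk := sk_Apk1) (cx := cx_Apk1) (kc := kcg.v (psn (x + u)) x) D hκ hit rfl (t1_0 q0) t3 (show crv PP 2 2 (1 + (x + u)) = c1n (x + u) - 1 / 2 from hX) hXj' K hs (by rw [sZK hF q0 (by nlinarith), kf0_t0 (by linarith) (by linarith)]) (wK2 q3 z1 z2) kK (by show (pcF 0).L.v (-c1n (x + u)) (x + u) x = _; rw [sZL hF q0 (by nlinarith), l0_t0 (lt_of_lt_of_le (by norm_num) p1) (p2.trans (by norm_num))]) (wL2 q3 z1 z2) kL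
    rw [add_zero]
    exact k
  · exfalso
    have l1 := F.len1
    have e : (-1 : ℝ) * crv PP 2 2 (1 + b + (x + u)) - 1 * crv PP 1 2 (1 + b) = -((fXS 2 3 5).v u b x + (c1n (x + u + b) - 1 / 2)) := by
      rw [hX, hXj]
      ring
    rw [e] at l1
    exact vac_s (y := x + u) (z := x + u + b) (by linarith) (by linarith) (by linarith) (by linarith) (by linarith) l1
theorem WmolF_B_202_12_5_p {x κ y y' : ℝ} (hF : SideOk PP tKF tL pcF x) (hκ : κ * h0 = ken x) (x0 : 3 / 64 ≤ x) (x1 : x ≤ 1 / 16)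
    (F : FactsB PP 2 0 2 1 2 1 (-1) y y') (h2 : |y - 1| < 1 / 64) (h1 : |y' - x| < 1 / 32) (h3 : |y + y' - (1 + x)| < 1 / 32) (gy : 1 / 32 < y' ∧ y' < 5 / 64) (gz : 33 / 32 < y + y' ∧ y + y' < 69 / 64) :
    StB (VF κ) PP tKF tL pcF 2 0 2 1 2 1 (-1) x y y' := by
  obtain ⟨u, rfl⟩ : ∃ u, y' = x + u := ⟨y' - x, by ring⟩
  obtain ⟨b, rfl⟩ : ∃ b, y = 1 + b := ⟨y - 1, by ring⟩
  rw [show x + u - x = u by ring] at h1
  rw [show 1 + b - 1 = b by ring] at h2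
  rw [show 1 + b + (x + u) - (1 + x) = u + b by ring] at h3
  have wy := gy
  have wz : 1 / 32 < x + u + b ∧ x + u + b < 5 / 64 := ⟨by linarith [gz.1], by linarith [gz.2]⟩
  exact gF_T51 hF hκ x0 x1 h1 h2 h3 wy wz F
theorem molF_B_202_12_5 {κ x : ℝ} (hκ : κ * h0 = ken x) (hx : ((50331648 : ℕ) : ℝ) / S ≤ x) (hx' : x ≤ (((50331648 : ℕ) : ℝ) + (16777216 : ℕ)) / S) :
    AltB (VF κ) PP tKF tL pcF [⟨0, 1, 0, 16777216⟩, ⟨1, 0, 1, 33554432⟩, ⟨2, 1, 1, 33554432⟩, ⟨1, 0, 0, 83886080⟩, ⟨1, 1, 0, 1040187392⟩, ⟨2, 1, 0, 83886080⟩, ⟨2, 2, 0, 1040187392⟩] 2 0 2 1 2 (sgb true) (sgb false) x := by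
  obtain ⟨x0, x1⟩ := xr hx hx'
  intro y y' F h
  obtain ⟨h2, h1, h3, gy, gz⟩ := winM h
  exact WmolF_B_202_12_5_p (sideF hx hx') hκ x0 x1 F (h2.trans_eq (by norm_num)) (h1.trans_eq (by norm_num)) (h3.trans_eq (by norm_num)) ⟨lt_of_eq_of_lt (by norm_num) gy.1, lt_of_lt_of_eq gy.2 (by norm_num)⟩ ⟨lt_of_eq_of_lt (by norm_num) gz.1, lt_of_lt_of_eq gz.2 (by norm_num)⟩
theorem gF_T52 {x u b κ : ℝ} (hF : SideOk PP tKF tL pcF x) (hκ : κ * h0 = ken x)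
    (x0 : 3 / 64 ≤ x) (x1 : x ≤ 1 / 16) (h1 : |u| < 1 / 32) (h2 : |b| < 1 / 64) (h3 : |u + b| < 1 / 32) (wy : 1 / 32 < x + u ∧ x + u < 5 / 64) (wz : 1 / 32 < x + u + b ∧ x + u + b < 5 / 64) (F : FactsB PP 2 0 2 2 2 1 (-1) (1 + b) (x + u)) :
    StB (VF κ) PP tKF tL pcF 2 0 2 2 2 1 (-1) x (1 + b) (x + u) := by
  have qs := F.q1
  have q0 := F.q2
  obtain ⟨u1, u2⟩ := abs_lt.1 h1
  obtain ⟨b1, b2⟩ := abs_lt.1 h2
  obtain ⟨v1, v2⟩ := abs_lt.1 h3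
  obtain ⟨y1, y2⟩ := wy
  obtain ⟨z1, z2⟩ := wz
  have hb : 0 ≤ b := by linarith [qs.1]
  have hY : 1 + b + (x + u) = 1 + (x + u + b) := by ring
  have q3 : InQ 2 (1 + (x + u + b)) := hY ▸ F.q3
  have hXj : crv PP 2 2 (1 + b) = (fXS 0 1 1).v u b x := sX2 u
  have xs1 : (fXS 0 1 1).v u b x ≤ 1 / 2 := fXS_le (by norm_num) hb
  have xs0 : 0 ≤ (fXS 0 1 1).v u b x := fXS_nn hb (by linarith)
  have hX : crv PP 2 2 (1 + b + (x + u)) = c1n (x + u + b) - 1 / 2 := by rw [hY]; exact wX2 _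
  have cz : 1 / 2 ≤ c1n (x + u + b) := by
    have := c1n_le' (y := x + u + b) (z := 1) (by linarith) (by linarith)
    rwa [c1n_one] at this
  rcases hb.eq_or_lt with hb0 | hb0
  · subst hb0
    obtain ⟨r1, r2⟩ := rX x0 x1
    have D : DomA u 0 x := ⟨by linarith, by linarith, by linarith, by linarith, by linarith, by linarith, by linarith, by linarith⟩
    have K := Cht3.cert (ng := false) (r := 33554432) ct_0Apk1 (u := u) (b := 0) (x := x) (by unfold S; norm_num; linarith) (by unfold S; norm_num; linarith) (by simp only [cond_true, cond_false]; linarith) (by simp only [cond_true, cond_false]; unfold S; norm_num) r1 r2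
    have hs : ∀ G ∈ sk_Apk1, G.v u 0 x ≤ 0 := skPM (A := true) (v := 33554432) (u := u) (b := 0) (x := x) (abs_le.2 ⟨by simp only [cond_true, cond_false]; unfold S; norm_num; linarith, by simp only [cond_true, cond_false]; unfold S; norm_num; linarith⟩)
    obtain ⟨p1, p2⟩ := psr (y := x + u) y1.le y2.le
    have hit : ((T_Apk1.a true).at_ u 0 x).it * (x + u + 0) = 1 := by
      show (x + u + 0)⁻¹ * _ = _
      exact inv_mul_cancel₀ (ne_of_gt (by linarith))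
    simp only [add_zero] at qs hXj hX q3 z1 z2
    have hXj' : crv PP 2 2 1 = 1 / 2 := by
      rw [hXj]
      exact (stK_x (r := 0) (p := 1) (q := 1) (s := rK2) (sx := rX2) (sd := rD2) (u := u) (b := 0) (x := x) (by norm_num) (by norm_num) (by norm_num)).trans (by rw [zero_mul, add_zero])
    have qs' : InQ 2 (1 + 0) := by rw [add_zero]; exact qs
    have kK : tKF 2 2 1 x = 1 / 2 := by
      have k := sk2K (b := 0) (x := x) u le_rfl qs' (by norm_num)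
      rwa [zero_mul, add_zero, add_zero] at k
    have kL : tL 2 2 1 x = 0 := by
      have k := sk2L (b := 0) (x := x) u le_rfl qs' (by norm_num)
      rwa [zero_mul, add_zero] at k
    have t3 := t3A2 (u := u) (b := 0) (x := x) (by rw [show x + u + (1 + 0) = 1 + (x + u) by ring]; exact q3)
    have k := far5z (b' := 0) (a := 2) (c := 2) (j := 2) (k := 2) (M := T_Apk1.a true) (sk := sk_Apk1) (cx := cx_Apk1) (kc := kcg.v (psn (x + u)) x) D hκ hit rfl (t1_0 q0) t3 (show crv PP 2 2 (1 + (x + u)) = c1n (x + u) - 1 / 2 from hX) hXj' K hs (by rw [sZK hF q0 (by nlinarith), kf0_t0 (by linarith) (by linarith)]) (wK2 q3 z1 z2) kK (by show (pcF 0).L.v (-c1n (x + u)) (x + u) x = _; rw [sZL hF q0 (by nlinarith), l0_t0 (lt_of_lt_of_le (by norm_num) p1) (p2.trans (by norm_num))]) (wL2 q3 z1 z2) kL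
    rw [add_zero]
    exact k
  · exfalso
    have l1 := F.len1
    have e : (-1 : ℝ) * crv PP 2 2 (1 + b + (x + u)) - 1 * crv PP 2 2 (1 + b) = -((fXS 0 1 1).v u b x + (c1n (x + u + b) - 1 / 2)) := by
      rw [hX, hXj]
      ring
    rw [e] at l1
    exact vac_s (y := x + u) (z := x + u + b) (by linarith) (by linarith) (by linarith) (by linarith) (by linarith) l1
theorem WmolF_B_202_22_5_p {x κ y y' : ℝ} (hF : SideOk PP tKF tL pcF x) (hκ : κ * h0 = ken x) (x0 : 3 / 64 ≤ x) (x1 : x ≤ 1 / 16)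
    (F : FactsB PP 2 0 2 2 2 1 (-1) y y') (h2 : |y - 1| < 1 / 64) (h1 : |y' - x| < 1 / 32) (h3 : |y + y' - (1 + x)| < 1 / 32) (gy : 1 / 32 < y' ∧ y' < 5 / 64) (gz : 33 / 32 < y + y' ∧ y + y' < 69 / 64) :
    StB (VF κ) PP tKF tL pcF 2 0 2 2 2 1 (-1) x y y' := by
  obtain ⟨u, rfl⟩ : ∃ u, y' = x + u := ⟨y' - x, by ring⟩
  obtain ⟨b, rfl⟩ : ∃ b, y = 1 + b := ⟨y - 1, by ring⟩
  rw [show x + u - x = u by ring] at h1
  rw [show 1 + b - 1 = b by ring] at h2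
  rw [show 1 + b + (x + u) - (1 + x) = u + b by ring] at h3
  have wy := gy
  have wz : 1 / 32 < x + u + b ∧ x + u + b < 5 / 64 := ⟨by linarith [gz.1], by linarith [gz.2]⟩
  exact gF_T52 hF hκ x0 x1 h1 h2 h3 wy wz F
theorem molF_B_202_22_5 {κ x : ℝ} (hκ : κ * h0 = ken x) (hx : ((50331648 : ℕ) : ℝ) / S ≤ x) (hx' : x ≤ (((50331648 : ℕ) : ℝ) + (16777216 : ℕ)) / S) :
    AltB (VF κ) PP tKF tL pcF [⟨0, 1, 0, 16777216⟩, ⟨1, 0, 1, 33554432⟩, ⟨2, 1, 1, 33554432⟩, ⟨1, 0, 0, 83886080⟩, ⟨1, 1, 0, 1040187392⟩, ⟨2, 1, 0, 83886080⟩, ⟨2, 2, 0, 1040187392⟩] 2 0 2 2 2 (sgb true) (sgb false) x := by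
  obtain ⟨x0, x1⟩ := xr hx hx'
  intro y y' F h
  obtain ⟨h2, h1, h3, gy, gz⟩ := winM h
  exact WmolF_B_202_22_5_p (sideF hx hx') hκ x0 x1 F (h2.trans_eq (by norm_num)) (h1.trans_eq (by norm_num)) (h3.trans_eq (by norm_num)) ⟨lt_of_eq_of_lt (by norm_num) gy.1, lt_of_lt_of_eq gy.2 (by norm_num)⟩ ⟨lt_of_eq_of_lt (by norm_num) gz.1, lt_of_lt_of_eq gz.2 (by norm_num)⟩
theorem fF_T7 {x u b κ y' : ℝ} (hF : SideOk PP tKF tL pcF x) (hκ : κ * h0 = ken x)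
    (x0 : 3 / 64 ≤ x) (x1 : x ≤ 1 / 16) (h1 : |u| < 1 / 32) (h2 : |b| < 15 / 1024) (h3 : |u - b| < 1 / 32) (wy : 1 / 32 < x + u ∧ x + u < 5 / 64) (wz : 1 / 32 < x + u - b ∧ x + u - b < 5 / 64) (hy : y' = 1 + b - (x + u)) (F : FactsB PP 1 0 2 2 0 1 1 y' (x + u)) :
    StB (VF κ) PP tKF tL pcF 1 0 2 2 0 1 1 x y' (x + u) := by
  have e0 : y' + (x + u) = 1 + b := by rw [hy]; ring
  have qs : InQ 2 (1 + b) := e0 ▸ F.q3
  have hs1 : h0 * (1 + b) < 1 := e0 ▸ F.k0 rfl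
  have q0 := F.q2
  obtain ⟨u1, u2⟩ := abs_lt.1 h1
  obtain ⟨b1, b2⟩ := abs_lt.1 h2
  obtain ⟨v1, v2⟩ := abs_lt.1 h3
  obtain ⟨y1, y2⟩ := wy
  obtain ⟨z1, z2⟩ := wz
  have hb : 0 ≤ b := by linarith [qs.1]
  have D : DomB u b x := ⟨by linarith, by linarith, by linarith, by linarith, by linarith, by linarith, by linarith, by linarith⟩
  obtain ⟨p1, p2⟩ := psr (y := x + u) y1.le y2.le
  obtain ⟨p3, p4⟩ := psr (y := x + u - b) z1.le z2.le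
  have hd := dqBp (dq_t x) hb (by linarith) (by linarith) (by linarith) (by linarith) p1 p2 p3 p4
  obtain ⟨r1, r2⟩ := rX x0 x1
  have K := Cht3.cert (ng := false) (r := 33554432) ct_0T7 (u := u) (b := b) (x := x) (by unfold S; norm_num; linarith) (by unfold S; norm_num; linarith) (by simp only [cond_true, cond_false]; linarith) (by simp only [cond_true, cond_false]; unfold S; norm_num; linarith) r1 r2
  have hs : ∀ G ∈ sk_T7, G.v u b x ≤ 0 := skPM (A := false) (v := 33554432) (u := u) (b := b) (x := x) (abs_le.2 ⟨by simp only [cond_true, cond_false]; unfold S; norm_num; linarith, by simp only [cond_true, cond_false]; unfold S; norm_num; linarith⟩)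
  have hit : ((shF (T_T7.b true) (fp1 false T_T7.st.ws fnB) gK gX gD).at_ u b x).it * (x + u - b) = -1 := by
    show -(x + u - b)⁻¹ * _ = _
    rw [neg_mul, inv_mul_cancel₀ (ne_of_gt (by linarith))]
  have hY : y' = 1 - (x + u - b) := by rw [hy]; ring
  have q2 : InQ 1 (1 - (x + u - b)) := hY ▸ F.q1
  have hX : crv PP 2 1 y' = c1n (x + u - b) + 1 / 2 := by rw [hY]; exact wX1 _
  have hx : sp.xs.v u b x = 1 / 2 + b * sp.ws.v u b x := stP_x (by linarith) (by linarith)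
  have hXk : crv PP 0 2 (1 + b) = sp.xs.v u b x := crv0 2 (1 + b)
  have hcz := fnB_e D
  have eX : c1n (x + u) + b * (fp1 false T_T7.st.ws fnB).v u b x = c1n (x + u - b) + 1 / 2 - sp.xs.v u b x := by
    rw [hx]
    show c1n (x + u) + b * (fnB.v u b x - sp.ws.v u b x) = _
    linear_combination -hcz
  have cm1 : sp.xs.v u b x ≤ 1 / 2 := c1n_half hb
  have xpos : 0 < c1n (x + u) + b * (fp1 false T_T7.st.ws fnB).v u b x := by
    rw [eX]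
    have := c1n_pos' (y := x + u - b) (by nlinarith)
    linarith
  have xne := xpos.ne'
  have od : 1 ≤ qqn (c1n (x + u) + b * (fp1 false T_T7.st.ws fnB).v u b x) (x + u) ∧ qqn (c1n (x + u) + b * (fp1 false T_T7.st.ws fnB).v u b x) (x + u) ≤ 3 := by
    have l1 := F.len1
    have l3 := F.len3
    have e : (1 : ℝ) * crv PP 0 2 (y' + (x + u)) - 1 * crv PP 2 1 y' = -(c1n (x + u) + b * (fp1 false T_T7.st.ws fnB).v u b x) := by
      rw [hX, e0, hXk, eX]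
      ring
    rw [e, qqn_neg] at l1 l3
    exact ⟨l1, l3⟩
  have hc1 : c1n (x + u) ≤ c1n (x + u) + b * (fp1 false T_T7.st.ws fnB).v u b x := c1_le od.1 xpos.le
  have K1 : (∀ G ∈ cx_T7, 0 < G.v u b x) → (pcF 0).K.v (-(c1n (x + u) + b * (fp1 false T_T7.st.ws fnB).v u b x)) (x + u) x = -((c1n (x + u) * cG (x + u) + kcg.v (psn (x + u)) x) * (x + u) + b * (f1s (fp1 false T_T7.st.ws fnB) gK).v u b x) := fun hc => by
    have t1 : 0 < cv2m.v (x + u) - (c1n (x + u) + b * (fp1 false T_T7.st.ws fnB).v u b x) := hc (f1t p_T7 (tCX cv2m)) (by unfold cx_T7; simp)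
    have t0 : 0 < cv1m.v (x + u) - c1g.v (x + u) := hc (f1t p_T7 (tCC cv1m c1g)) (by unfold cx_T7; simp)
    have k1 : kf0q0.v (x + u) x = (c1n (x + u) * cG (x + u) + kcg.v (psn (x + u)) x) * (x + u) := kf0_t0 (by linarith) (by linarith)
    have k2 : c1g.v (x + u) = c1n (x + u) := congrFun c1g_v _
    rw [sSK hF q0 (by rw [k2]; exact hc1) t0 t1 od.1 od.2 xne, k1, k2]
    show -(_ + gK.v (c1n (x + u) + b * (fp1 false T_T7.st.ws fnB).v u b x) (x + u) x * (_ - _)) = -(_ + b * (gK.v (c1n (x + u) + b * (fp1 false T_T7.st.ws fnB).v u b x) (x + u) x * (fp1 false T_T7.st.ws fnB).v u b x))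
    ring
  have L1 : (∀ G ∈ cx_T7, 0 < G.v u b x) → (pcF 0).L.v (-(c1n (x + u) + b * (fp1 false T_T7.st.ws fnB).v u b x)) (x + u) x = -(cQ x (x + u) (kcg.v (psn (x + u)) x) + b * (f1s (fp1 false T_T7.st.ws fnB) gX).v u b x) := fun hc => by
    have t1 : 0 < cv2m.v (x + u) - (c1n (x + u) + b * (fp1 false T_T7.st.ws fnB).v u b x) := hc (f1t p_T7 (tCX cv2m)) (by unfold cx_T7; simp)
    have t0 : 0 < cv1m.v (x + u) - c1g.v (x + u) := hc (f1t p_T7 (tCC cv1m c1g)) (by unfold cx_T7; simp)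
    have k1 : l0q0.v (x + u) x = cQ x (x + u) (kcg.v (psn (x + u)) x) := l0_t0 (lt_of_lt_of_le (by norm_num) p1) (p2.trans (by norm_num))
    have k2 : c1g.v (x + u) = c1n (x + u) := congrFun c1g_v _
    rw [sSL hF q0 (by rw [k2]; exact hc1) t0 t1 od.1 od.2 xne, k1, k2]
    show -(_ + gX.v (c1n (x + u) + b * (fp1 false T_T7.st.ws fnB).v u b x) (x + u) x * (_ - _)) = -(_ + b * (gX.v (c1n (x + u) + b * (fp1 false T_T7.st.ws fnB).v u b x) (x + u) x * (fp1 false T_T7.st.ws fnB).v u b x))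
    ring
  exact farT7 (T := T_T7) (sk := sk_T7) (cx := cx_T7) D hb hκ hy hd hit (t1_0 q0) (t3B1 F.q1 hy) hx (fun _ _ => rfl) (fun _ _ => rfl) (fun _ _ => rfl) hX hXk K hs K1 (by rw [hY]; exact wK1 q2 z1 z2) (spK u hb qs hs1 (by linarith)) L1 (by rw [hY]; exact wL1 q2 z1 z2) (spL u hb qs hs1 (by linarith))
theorem WmolF_B_102_20_7_p {x κ y y' : ℝ} (hF : SideOk PP tKF tL pcF x) (hκ : κ * h0 = ken x) (x0 : 3 / 64 ≤ x) (x1 : x ≤ 1 / 16)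
    (F : FactsB PP 1 0 2 2 0 1 1 y y') (h3 : |y - (1 - x)| < 1 / 32) (h1 : |y' - x| < 1 / 32) (h2 : |y + y' - 1| < 15 / 1024) (gy : 1 / 32 < y' ∧ y' < 5 / 64) (gz : 59 / 64 < y ∧ y < 31 / 32) :
    StB (VF κ) PP tKF tL pcF 1 0 2 2 0 1 1 x y y' := by
  obtain ⟨u, rfl⟩ : ∃ u, y' = x + u := ⟨y' - x, by ring⟩
  obtain ⟨b, hy⟩ : ∃ b, y = 1 + b - (x + u) := ⟨y + (x + u) - 1, by ring⟩
  rw [show x + u - x = u by ring] at h1
  rw [show y + (x + u) - 1 = b by rw [hy]; ring] at h2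
  rw [show y - (1 - x) = -(u - b) by rw [hy]; ring, abs_neg] at h3
  have wy := gy
  have wz : 1 / 32 < x + u - b ∧ x + u - b < 5 / 64 := ⟨by linarith [gz.2], by linarith [gz.1]⟩
  exact fF_T7 hF hκ x0 x1 h1 h2 h3 wy wz hy F
theorem molF_B_102_20_7 {κ x : ℝ} (hκ : κ * h0 = ken x) (hx : ((50331648 : ℕ) : ℝ) / S ≤ x) (hx' : x ≤ (((50331648 : ℕ) : ℝ) + (16777216 : ℕ)) / S) :
    AltB (VF κ) PP tKF tL pcF [⟨0, 1, 2, 33554432⟩, ⟨1, 0, 1, 33554432⟩, ⟨2, 1, 0, 15728640⟩, ⟨0, 0, 0, 1040187392⟩, ⟨0, 1, 0, 83886080⟩, ⟨1, 0, 0, 83886080⟩, ⟨1, 1, 0, 1040187392⟩] 1 0 2 2 0 (sgb true) (sgb true) x := by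
  obtain ⟨x0, x1⟩ := xr hx hx'
  intro y y' F h
  obtain ⟨h3, h1, h2, gy, gz⟩ := winC h
  exact WmolF_B_102_20_7_p (sideF hx hx') hκ x0 x1 F (h3.trans_eq (by norm_num)) (h1.trans_eq (by norm_num)) (h2.trans_eq (by norm_num)) ⟨lt_of_eq_of_lt (by norm_num) gy.1, lt_of_lt_of_eq gy.2 (by norm_num)⟩ ⟨lt_of_eq_of_lt (by norm_num) gz.2, lt_of_lt_of_eq gz.1 (by norm_num)⟩
theorem vF_T7 {x u b κ y' : ℝ} (x0 : 3 / 64 ≤ x) (x1 : x ≤ 1 / 16) (h1 : |u| < 1 / 32) (h2 : |b| < 15 / 1024) (h3 : |u - b| < 1 / 32) (wy : 1 / 32 < x + u ∧ x + u < 5 / 64) (wz : 1 / 32 < x + u - b ∧ x + u - b < 5 / 64) (hy : y' = 1 + b - (x + u)) (F : FactsB PP 1 0 1 2 0 1 1 y' (x + u)) : False := by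
  have e0 : y' + (x + u) = 1 + b := by rw [hy]; ring
  have qs : InQ 1 (1 + b) := e0 ▸ F.q3
  obtain ⟨u1, u2⟩ := abs_lt.1 h1
  obtain ⟨b1, b2⟩ := abs_lt.1 h2
  obtain ⟨v1, v2⟩ := abs_lt.1 h3
  obtain ⟨y1, y2⟩ := wy
  obtain ⟨z1, z2⟩ := wz
  have hb : b < 0 := by linarith [qs.2]
  have hY : y' = 1 - (x + u - b) := by rw [hy]; ring
  have hX : crv PP 2 1 y' = c1n (x + u - b) + 1 / 2 := by rw [hY]; exact wX1 _
  have l1 := F.len1
  have e : (1 : ℝ) * crv PP 0 1 (y' + (x + u)) - 1 * crv PP 2 1 y' = -(c1n (x + u - b) + 1 / 2 - c1n (1 + b)) := by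
    rw [hX, e0, crv0]
    ring
  rw [e] at l1
  have k1 : 1 / 2 ≤ c1n (1 + b) := c1n_half' hb.le (by linarith)
  have k2 := c1n_le' (y := x + u - b) (z := 1 + b) (by linarith) (by linarith)
  exact vac_s (y := x + u) (z := x + u - b) (by linarith) (by linarith) (by linarith) (by linarith) (by linarith) l1
theorem WmolF_B_101_20_7_p {x κ y y' : ℝ} (hF : SideOk PP tKF tL pcF x) (hκ : κ * h0 = ken x) (x0 : 3 / 64 ≤ x) (x1 : x ≤ 1 / 16)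
    (F : FactsB PP 1 0 1 2 0 1 1 y y') (h3 : |y - (1 - x)| < 1 / 32) (h1 : |y' - x| < 1 / 32) (h2 : |y + y' - 1| < 15 / 1024) (gy : 1 / 32 < y' ∧ y' < 5 / 64) (gz : 59 / 64 < y ∧ y < 31 / 32) :
    StB (VF κ) PP tKF tL pcF 1 0 1 2 0 1 1 x y y' := by
  obtain ⟨u, rfl⟩ : ∃ u, y' = x + u := ⟨y' - x, by ring⟩
  obtain ⟨b, hy⟩ : ∃ b, y = 1 + b - (x + u) := ⟨y + (x + u) - 1, by ring⟩
  rw [show x + u - x = u by ring] at h1
  rw [show y + (x + u) - 1 = b by rw [hy]; ring] at h2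
  rw [show y - (1 - x) = -(u - b) by rw [hy]; ring, abs_neg] at h3
  have wy := gy
  have wz : 1 / 32 < x + u - b ∧ x + u - b < 5 / 64 := ⟨by linarith [gz.2], by linarith [gz.1]⟩
  exact (vF_T7 (κ := κ) x0 x1 h1 h2 h3 wy wz hy F).elim
theorem molF_B_101_20_7 {κ x : ℝ} (hκ : κ * h0 = ken x) (hx : ((50331648 : ℕ) : ℝ) / S ≤ x) (hx' : x ≤ (((50331648 : ℕ) : ℝ) + (16777216 : ℕ)) / S) :
    AltB (VF κ) PP tKF tL pcF [⟨0, 1, 2, 33554432⟩, ⟨1, 0, 1, 33554432⟩, ⟨2, 1, 0, 15728640⟩, ⟨0, 0, 0, 1040187392⟩, ⟨0, 1, 0, 83886080⟩, ⟨1, 0, 0, 83886080⟩, ⟨1, 1, 0, 1040187392⟩] 1 0 1 2 0 (sgb true) (sgb true) x := by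
  obtain ⟨x0, x1⟩ := xr hx hx'
  intro y y' F h
  obtain ⟨h3, h1, h2, gy, gz⟩ := winC h
  exact WmolF_B_101_20_7_p (sideF hx hx') hκ x0 x1 F (h3.trans_eq (by norm_num)) (h1.trans_eq (by norm_num)) (h2.trans_eq (by norm_num)) ⟨lt_of_eq_of_lt (by norm_num) gy.1, lt_of_lt_of_eq gy.2 (by norm_num)⟩ ⟨lt_of_eq_of_lt (by norm_num) gz.2, lt_of_lt_of_eq gz.1 (by norm_num)⟩
theorem fF_T7k1 {x u b κ y' : ℝ} (hF : SideOk PP tKF tL pcF x) (hκ : κ * h0 = ken x)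
    (x0 : 3 / 64 ≤ x) (x1 : x ≤ 1 / 16) (h1 : |u| < 1 / 32) (h2 : |b| < 1 / 64) (h3 : |u - b| < 1 / 32) (wy : 1 / 32 < x + u ∧ x + u < 5 / 64) (wz : 1 / 32 < x + u - b ∧ x + u - b < 5 / 64) (hy : y' = 1 + b - (x + u)) (F : FactsB PP 1 0 2 2 1 1 1 y' (x + u)) :
    StB (VF κ) PP tKF tL pcF 1 0 2 2 1 1 1 x y' (x + u) := by
  have e0 : y' + (x + u) = 1 + b := by rw [hy]; ring
  have qs : InQ 2 (1 + b) := e0 ▸ F.q3
  have q0 := F.q2
  obtain ⟨u1, u2⟩ := abs_lt.1 h1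
  obtain ⟨b1, b2⟩ := abs_lt.1 h2
  obtain ⟨v1, v2⟩ := abs_lt.1 h3
  obtain ⟨y1, y2⟩ := wy
  obtain ⟨z1, z2⟩ := wz
  have hb : 0 ≤ b := by linarith [qs.1]
  have D : DomB u b x := ⟨by linarith, by linarith, by linarith, by linarith, by linarith, by linarith, by linarith, by linarith⟩
  obtain ⟨p1, p2⟩ := psr (y := x + u) y1.le y2.le
  obtain ⟨p3, p4⟩ := psr (y := x + u - b) z1.le z2.le
  have hd := dqBp (dq_t x) hb (by linarith) (by linarith) (by linarith) (by linarith) p1 p2 p3 p4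
  obtain ⟨r1, r2⟩ := rX x0 x1
  have K := Cht3.cert (ng := false) (r := 33554432) ct_0T7k1 (u := u) (b := b) (x := x) (by unfold S; norm_num; linarith) (by unfold S; norm_num; linarith) (by simp only [cond_true, cond_false]; linarith) (by simp only [cond_true, cond_false]; unfold S; norm_num; linarith) r1 r2
  have hs : ∀ G ∈ sk_T7k1, G.v u b x ≤ 0 := skPM (A := false) (v := 33554432) (u := u) (b := b) (x := x) (abs_le.2 ⟨by simp only [cond_true, cond_false]; unfold S; norm_num; linarith, by simp only [cond_true, cond_false]; unfold S; norm_num; linarith⟩)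
  have hit : ((shF (T_T7k1.b true) (fp1 false T_T7k1.st.ws fnB) gK gX gD).at_ u b x).it * (x + u - b) = -1 := by
    show -(x + u - b)⁻¹ * _ = _
    rw [neg_mul, inv_mul_cancel₀ (ne_of_gt (by linarith))]
  have hY : y' = 1 - (x + u - b) := by rw [hy]; ring
  have q2 : InQ 1 (1 - (x + u - b)) := hY ▸ F.q1
  have hX : crv PP 2 1 y' = c1n (x + u - b) + 1 / 2 := by rw [hY]; exact wX1 _
  have hx : sk1.xs.v u b x = 1 / 2 + b * sk1.ws.v u b x := stK_x (by norm_num) (by linarith) (by linarith)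
  have hXk : crv PP 1 2 (1 + b) = sk1.xs.v u b x := sX1 u
  have hcz := fnB_e D
  have eX : c1n (x + u) + b * (fp1 false T_T7k1.st.ws fnB).v u b x = c1n (x + u - b) + 1 / 2 - sk1.xs.v u b x := by
    rw [hx]
    show c1n (x + u) + b * (fnB.v u b x - sk1.ws.v u b x) = _
    linear_combination -hcz
  have cm1 : sk1.xs.v u b x ≤ 1 / 2 := fXS_le (by norm_num) hb
  have xpos : 0 < c1n (x + u) + b * (fp1 false T_T7k1.st.ws fnB).v u b x := by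
    rw [eX]
    have := c1n_pos' (y := x + u - b) (by nlinarith)
    linarith
  have xne := xpos.ne'
  have od : 1 ≤ qqn (c1n (x + u) + b * (fp1 false T_T7k1.st.ws fnB).v u b x) (x + u) ∧ qqn (c1n (x + u) + b * (fp1 false T_T7k1.st.ws fnB).v u b x) (x + u) ≤ 3 := by
    have l1 := F.len1
    have l3 := F.len3
    have e : (1 : ℝ) * crv PP 1 2 (y' + (x + u)) - 1 * crv PP 2 1 y' = -(c1n (x + u) + b * (fp1 false T_T7k1.st.ws fnB).v u b x) := by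
      rw [hX, e0, hXk, eX]
      ring
    rw [e, qqn_neg] at l1 l3
    exact ⟨l1, l3⟩
  have hc1 : c1n (x + u) ≤ c1n (x + u) + b * (fp1 false T_T7k1.st.ws fnB).v u b x := c1_le od.1 xpos.le
  have K1 : (∀ G ∈ cx_T7k1, 0 < G.v u b x) → (pcF 0).K.v (-(c1n (x + u) + b * (fp1 false T_T7k1.st.ws fnB).v u b x)) (x + u) x = -((c1n (x + u) * cG (x + u) + kcg.v (psn (x + u)) x) * (x + u) + b * (f1s (fp1 false T_T7k1.st.ws fnB) gK).v u b x) := fun hc => by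
    have t1 : 0 < cv2m.v (x + u) - (c1n (x + u) + b * (fp1 false T_T7k1.st.ws fnB).v u b x) := hc (f1t p_T7k1 (tCX cv2m)) (by unfold cx_T7k1; simp)
    have t0 : 0 < cv1m.v (x + u) - c1g.v (x + u) := hc (f1t p_T7k1 (tCC cv1m c1g)) (by unfold cx_T7k1; simp)
    have k1 : kf0q0.v (x + u) x = (c1n (x + u) * cG (x + u) + kcg.v (psn (x + u)) x) * (x + u) := kf0_t0 (by linarith) (by linarith)
    have k2 : c1g.v (x + u) = c1n (x + u) := congrFun c1g_v _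
    rw [sSK hF q0 (by rw [k2]; exact hc1) t0 t1 od.1 od.2 xne, k1, k2]
    show -(_ + gK.v (c1n (x + u) + b * (fp1 false T_T7k1.st.ws fnB).v u b x) (x + u) x * (_ - _)) = -(_ + b * (gK.v (c1n (x + u) + b * (fp1 false T_T7k1.st.ws fnB).v u b x) (x + u) x * (fp1 false T_T7k1.st.ws fnB).v u b x))
    ring
  have L1 : (∀ G ∈ cx_T7k1, 0 < G.v u b x) → (pcF 0).L.v (-(c1n (x + u) + b * (fp1 false T_T7k1.st.ws fnB).v u b x)) (x + u) x = -(cQ x (x + u) (kcg.v (psn (x + u)) x) + b * (f1s (fp1 false T_T7k1.st.ws fnB) gX).v u b x) := fun hc => by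
    have t1 : 0 < cv2m.v (x + u) - (c1n (x + u) + b * (fp1 false T_T7k1.st.ws fnB).v u b x) := hc (f1t p_T7k1 (tCX cv2m)) (by unfold cx_T7k1; simp)
    have t0 : 0 < cv1m.v (x + u) - c1g.v (x + u) := hc (f1t p_T7k1 (tCC cv1m c1g)) (by unfold cx_T7k1; simp)
    have k1 : l0q0.v (x + u) x = cQ x (x + u) (kcg.v (psn (x + u)) x) := l0_t0 (lt_of_lt_of_le (by norm_num) p1) (p2.trans (by norm_num))
    have k2 : c1g.v (x + u) = c1n (x + u) := congrFun c1g_v _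
    rw [sSL hF q0 (by rw [k2]; exact hc1) t0 t1 od.1 od.2 xne, k1, k2]
    show -(_ + gX.v (c1n (x + u) + b * (fp1 false T_T7k1.st.ws fnB).v u b x) (x + u) x * (_ - _)) = -(_ + b * (gX.v (c1n (x + u) + b * (fp1 false T_T7k1.st.ws fnB).v u b x) (x + u) x * (fp1 false T_T7k1.st.ws fnB).v u b x))
    ring
  exact farT7 (T := T_T7k1) (sk := sk_T7k1) (cx := cx_T7k1) D hb hκ hy hd hit (t1_0 q0) (t3B1 F.q1 hy) hx (fun _ _ => rfl) (fun _ _ => rfl) (fun _ _ => rfl) hX hXk K hs K1 (by rw [hY]; exact wK1 q2 z1 z2) (sk1K u hb qs (by linarith)) L1 (by rw [hY]; exact wL1 q2 z1 z2) (sk1L u hb qs (by linarith))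
theorem WmolF_B_102_21_7_p {x κ y y' : ℝ} (hF : SideOk PP tKF tL pcF x) (hκ : κ * h0 = ken x) (x0 : 3 / 64 ≤ x) (x1 : x ≤ 1 / 16)
    (F : FactsB PP 1 0 2 2 1 1 1 y y') (h3 : |y - (1 - x)| < 1 / 32) (h1 : |y' - x| < 1 / 32) (h2 : |y + y' - 1| < 1 / 64) (gy : 1 / 32 < y' ∧ y' < 5 / 64) (gz : 59 / 64 < y ∧ y < 31 / 32) :
    StB (VF κ) PP tKF tL pcF 1 0 2 2 1 1 1 x y y' := by
  obtain ⟨u, rfl⟩ : ∃ u, y' = x + u := ⟨y' - x, by ring⟩
  obtain ⟨b, hy⟩ : ∃ b, y = 1 + b - (x + u) := ⟨y + (x + u) - 1, by ring⟩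
  rw [show x + u - x = u by ring] at h1
  rw [show y + (x + u) - 1 = b by rw [hy]; ring] at h2
  rw [show y - (1 - x) = -(u - b) by rw [hy]; ring, abs_neg] at h3
  have wy := gy
  have wz : 1 / 32 < x + u - b ∧ x + u - b < 5 / 64 := ⟨by linarith [gz.2], by linarith [gz.1]⟩
  exact fF_T7k1 hF hκ x0 x1 h1 h2 h3 wy wz hy F
theorem molF_B_102_21_7 {κ x : ℝ} (hκ : κ * h0 = ken x) (hx : ((50331648 : ℕ) : ℝ) / S ≤ x) (hx' : x ≤ (((50331648 : ℕ) : ℝ) + (16777216 : ℕ)) / S) :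
    AltB (VF κ) PP tKF tL pcF [⟨0, 1, 2, 33554432⟩, ⟨1, 0, 1, 33554432⟩, ⟨2, 1, 0, 16777216⟩, ⟨0, 0, 0, 1040187392⟩, ⟨0, 1, 0, 83886080⟩, ⟨1, 0, 0, 83886080⟩, ⟨1, 1, 0, 1040187392⟩] 1 0 2 2 1 (sgb true) (sgb true) x := by
  obtain ⟨x0, x1⟩ := xr hx hx'
  intro y y' F h
  obtain ⟨h3, h1, h2, gy, gz⟩ := winC h
  exact WmolF_B_102_21_7_p (sideF hx hx') hκ x0 x1 F (h3.trans_eq (by norm_num)) (h1.trans_eq (by norm_num)) (h2.trans_eq (by norm_num)) ⟨lt_of_eq_of_lt (by norm_num) gy.1, lt_of_lt_of_eq gy.2 (by norm_num)⟩ ⟨lt_of_eq_of_lt (by norm_num) gz.2, lt_of_lt_of_eq gz.1 (by norm_num)⟩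
theorem fF_T7k2 {x u b κ y' : ℝ} (hF : SideOk PP tKF tL pcF x) (hκ : κ * h0 = ken x)
    (x0 : 3 / 64 ≤ x) (x1 : x ≤ 1 / 16) (h1 : |u| < 1 / 32) (h2 : |b| < 1 / 64) (h3 : |u - b| < 1 / 32) (wy : 1 / 32 < x + u ∧ x + u < 5 / 64) (wz : 1 / 32 < x + u - b ∧ x + u - b < 5 / 64) (hy : y' = 1 + b - (x + u)) (F : FactsB PP 1 0 2 2 2 1 1 y' (x + u)) :
    StB (VF κ) PP tKF tL pcF 1 0 2 2 2 1 1 x y' (x + u) := by
  have e0 : y' + (x + u) = 1 + b := by rw [hy]; ring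
  have qs : InQ 2 (1 + b) := e0 ▸ F.q3
  have q0 := F.q2
  obtain ⟨u1, u2⟩ := abs_lt.1 h1
  obtain ⟨b1, b2⟩ := abs_lt.1 h2
  obtain ⟨v1, v2⟩ := abs_lt.1 h3
  obtain ⟨y1, y2⟩ := wy
  obtain ⟨z1, z2⟩ := wz
  have hb : 0 ≤ b := by linarith [qs.1]
  have D : DomB u b x := ⟨by linarith, by linarith, by linarith, by linarith, by linarith, by linarith, by linarith, by linarith⟩
  obtain ⟨p1, p2⟩ := psr (y := x + u) y1.le y2.le
  obtain ⟨p3, p4⟩ := psr (y := x + u - b) z1.le z2.le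
  have hd := dqBp (dq_t x) hb (by linarith) (by linarith) (by linarith) (by linarith) p1 p2 p3 p4
  obtain ⟨r1, r2⟩ := rX x0 x1
  have K := Cht3.cert (ng := false) (r := 33554432) ct_0T7k2 (u := u) (b := b) (x := x) (by unfold S; norm_num; linarith) (by unfold S; norm_num; linarith) (by simp only [cond_true, cond_false]; linarith) (by simp only [cond_true, cond_false]; unfold S; norm_num; linarith) r1 r2
  have hs : ∀ G ∈ sk_T7k2, G.v u b x ≤ 0 := skPM (A := false) (v := 33554432) (u := u) (b := b) (x := x) (abs_le.2 ⟨by simp only [cond_true, cond_false]; unfold S; norm_num; linarith, by simp only [cond_true, cond_false]; unfold S; norm_num; linarith⟩)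
  have hit : ((shF (T_T7k2.b true) (fp1 false T_T7k2.st.ws fnB) gK gX gD).at_ u b x).it * (x + u - b) = -1 := by
    show -(x + u - b)⁻¹ * _ = _
    rw [neg_mul, inv_mul_cancel₀ (ne_of_gt (by linarith))]
  have hY : y' = 1 - (x + u - b) := by rw [hy]; ring
  have q2 : InQ 1 (1 - (x + u - b)) := hY ▸ F.q1
  have hX : crv PP 2 1 y' = c1n (x + u - b) + 1 / 2 := by rw [hY]; exact wX1 _
  have hx : sk2.xs.v u b x = 1 / 2 + b * sk2.ws.v u b x := stK_x (by norm_num) (by linarith) (by linarith)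
  have hXk : crv PP 2 2 (1 + b) = sk2.xs.v u b x := sX2 u
  have hcz := fnB_e D
  have eX : c1n (x + u) + b * (fp1 false T_T7k2.st.ws fnB).v u b x = c1n (x + u - b) + 1 / 2 - sk2.xs.v u b x := by
    rw [hx]
    show c1n (x + u) + b * (fnB.v u b x - sk2.ws.v u b x) = _
    linear_combination -hcz
  have cm1 : sk2.xs.v u b x ≤ 1 / 2 := fXS_le (by norm_num) hb
  have xpos : 0 < c1n (x + u) + b * (fp1 false T_T7k2.st.ws fnB).v u b x := by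
    rw [eX]
    have := c1n_pos' (y := x + u - b) (by nlinarith)
    linarith
  have xne := xpos.ne'
  have od : 1 ≤ qqn (c1n (x + u) + b * (fp1 false T_T7k2.st.ws fnB).v u b x) (x + u) ∧ qqn (c1n (x + u) + b * (fp1 false T_T7k2.st.ws fnB).v u b x) (x + u) ≤ 3 := by
    have l1 := F.len1
    have l3 := F.len3
    have e : (1 : ℝ) * crv PP 2 2 (y' + (x + u)) - 1 * crv PP 2 1 y' = -(c1n (x + u) + b * (fp1 false T_T7k2.st.ws fnB).v u b x) := by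
      rw [hX, e0, hXk, eX]
      ring
    rw [e, qqn_neg] at l1 l3
    exact ⟨l1, l3⟩
  have hc1 : c1n (x + u) ≤ c1n (x + u) + b * (fp1 false T_T7k2.st.ws fnB).v u b x := c1_le od.1 xpos.le
  have K1 : (∀ G ∈ cx_T7k2, 0 < G.v u b x) → (pcF 0).K.v (-(c1n (x + u) + b * (fp1 false T_T7k2.st.ws fnB).v u b x)) (x + u) x = -((c1n (x + u) * cG (x + u) + kcg.v (psn (x + u)) x) * (x + u) + b * (f1s (fp1 false T_T7k2.st.ws fnB) gK).v u b x) := fun hc => by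
    have t1 : 0 < cv2m.v (x + u) - (c1n (x + u) + b * (fp1 false T_T7k2.st.ws fnB).v u b x) := hc (f1t p_T7k2 (tCX cv2m)) (by unfold cx_T7k2; simp)
    have t0 : 0 < cv1m.v (x + u) - c1g.v (x + u) := hc (f1t p_T7k2 (tCC cv1m c1g)) (by unfold cx_T7k2; simp)
    have k1 : kf0q0.v (x + u) x = (c1n (x + u) * cG (x + u) + kcg.v (psn (x + u)) x) * (x + u) := kf0_t0 (by linarith) (by linarith)
    have k2 : c1g.v (x + u) = c1n (x + u) := congrFun c1g_v _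
    rw [sSK hF q0 (by rw [k2]; exact hc1) t0 t1 od.1 od.2 xne, k1, k2]
    show -(_ + gK.v (c1n (x + u) + b * (fp1 false T_T7k2.st.ws fnB).v u b x) (x + u) x * (_ - _)) = -(_ + b * (gK.v (c1n (x + u) + b * (fp1 false T_T7k2.st.ws fnB).v u b x) (x + u) x * (fp1 false T_T7k2.st.ws fnB).v u b x))
    ring
  have L1 : (∀ G ∈ cx_T7k2, 0 < G.v u b x) → (pcF 0).L.v (-(c1n (x + u) + b * (fp1 false T_T7k2.st.ws fnB).v u b x)) (x + u) x = -(cQ x (x + u) (kcg.v (psn (x + u)) x) + b * (f1s (fp1 false T_T7k2.st.ws fnB) gX).v u b x) := fun hc => by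
    have t1 : 0 < cv2m.v (x + u) - (c1n (x + u) + b * (fp1 false T_T7k2.st.ws fnB).v u b x) := hc (f1t p_T7k2 (tCX cv2m)) (by unfold cx_T7k2; simp)
    have t0 : 0 < cv1m.v (x + u) - c1g.v (x + u) := hc (f1t p_T7k2 (tCC cv1m c1g)) (by unfold cx_T7k2; simp)
    have k1 : l0q0.v (x + u) x = cQ x (x + u) (kcg.v (psn (x + u)) x) := l0_t0 (lt_of_lt_of_le (by norm_num) p1) (p2.trans (by norm_num))
    have k2 : c1g.v (x + u) = c1n (x + u) := congrFun c1g_v _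
    rw [sSL hF q0 (by rw [k2]; exact hc1) t0 t1 od.1 od.2 xne, k1, k2]
    show -(_ + gX.v (c1n (x + u) + b * (fp1 false T_T7k2.st.ws fnB).v u b x) (x + u) x * (_ - _)) = -(_ + b * (gX.v (c1n (x + u) + b * (fp1 false T_T7k2.st.ws fnB).v u b x) (x + u) x * (fp1 false T_T7k2.st.ws fnB).v u b x))
    ring
  exact farT7 (T := T_T7k2) (sk := sk_T7k2) (cx := cx_T7k2) D hb hκ hy hd hit (t1_0 q0) (t3B1 F.q1 hy) hx (fun _ _ => rfl) (fun _ _ => rfl) (fun _ _ => rfl) hX hXk K hs K1 (by rw [hY]; exact wK1 q2 z1 z2) (sk2K u hb qs (by linarith)) L1 (by rw [hY]; exact wL1 q2 z1 z2) (sk2L u hb qs (by linarith))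
theorem WmolF_B_102_22_7_p {x κ y y' : ℝ} (hF : SideOk PP tKF tL pcF x) (hκ : κ * h0 = ken x) (x0 : 3 / 64 ≤ x) (x1 : x ≤ 1 / 16)
    (F : FactsB PP 1 0 2 2 2 1 1 y y') (h3 : |y - (1 - x)| < 1 / 32) (h1 : |y' - x| < 1 / 32) (h2 : |y + y' - 1| < 1 / 64) (gy : 1 / 32 < y' ∧ y' < 5 / 64) (gz : 59 / 64 < y ∧ y < 31 / 32) :
    StB (VF κ) PP tKF tL pcF 1 0 2 2 2 1 1 x y y' := by
  obtain ⟨u, rfl⟩ : ∃ u, y' = x + u := ⟨y' - x, by ring⟩
  obtain ⟨b, hy⟩ : ∃ b, y = 1 + b - (x + u) := ⟨y + (x + u) - 1, by ring⟩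
  rw [show x + u - x = u by ring] at h1
  rw [show y + (x + u) - 1 = b by rw [hy]; ring] at h2
  rw [show y - (1 - x) = -(u - b) by rw [hy]; ring, abs_neg] at h3
  have wy := gy
  have wz : 1 / 32 < x + u - b ∧ x + u - b < 5 / 64 := ⟨by linarith [gz.2], by linarith [gz.1]⟩
  exact fF_T7k2 hF hκ x0 x1 h1 h2 h3 wy wz hy F
theorem molF_B_102_22_7 {κ x : ℝ} (hκ : κ * h0 = ken x) (hx : ((50331648 : ℕ) : ℝ) / S ≤ x) (hx' : x ≤ (((50331648 : ℕ) : ℝ) + (16777216 : ℕ)) / S) :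
    AltB (VF κ) PP tKF tL pcF [⟨0, 1, 2, 33554432⟩, ⟨1, 0, 1, 33554432⟩, ⟨2, 1, 0, 16777216⟩, ⟨0, 0, 0, 1040187392⟩, ⟨0, 1, 0, 83886080⟩, ⟨1, 0, 0, 83886080⟩, ⟨1, 1, 0, 1040187392⟩] 1 0 2 2 2 (sgb true) (sgb true) x := by
  obtain ⟨x0, x1⟩ := xr hx hx'
  intro y y' F h
  obtain ⟨h3, h1, h2, gy, gz⟩ := winC h
  exact WmolF_B_102_22_7_p (sideF hx hx') hκ x0 x1 F (h3.trans_eq (by norm_num)) (h1.trans_eq (by norm_num)) (h2.trans_eq (by norm_num)) ⟨lt_of_eq_of_lt (by norm_num) gy.1, lt_of_lt_of_eq gy.2 (by norm_num)⟩ ⟨lt_of_eq_of_lt (by norm_num) gz.2, lt_of_lt_of_eq gz.1 (by norm_num)⟩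
theorem fN_T3 {x u b κ y' : ℝ} (hF : SideOk PP tKF tL pcF x) (hN : SideOk PP tKN tL pcN x) (hκ : κ * h0 = ken x)
    (x0 : 3 / 64 ≤ x) (x1 : x ≤ 1 / 16) (h1 : |u| < 1 / 32) (h2 : |b| < 1 / 64) (h3 : |u - b| < 1 / 32) (wy : 1 / 32 < x + u ∧ x + u < 5 / 64) (wz : 1 / 32 < x + u - b ∧ x + u - b < 5 / 64) (hy : y' = 1 + b - (x + u)) (F : FactsA PP 0 1 2 0 2 1 (-1) (x + u) y') :
    StA (VN 3 κ) PP tKN tL pcN 0 1 2 0 2 1 (-1) x (x + u) y' := by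
  have e0 : x + u + y' = 1 + b := by rw [hy]; ring
  have qs : InQ 2 (1 + b) := e0 ▸ F.q3
  obtain ⟨u1, u2⟩ := abs_lt.1 h1
  obtain ⟨b1, b2⟩ := abs_lt.1 h2
  obtain ⟨v1, v2⟩ := abs_lt.1 h3
  obtain ⟨y1, y2⟩ := wy
  obtain ⟨z1, z2⟩ := wz
  have hb : 0 ≤ b := by linarith [qs.1]
  have D : DomB u b x := ⟨by linarith, by linarith, by linarith, by linarith, by linarith, by linarith, by linarith, by linarith⟩
  obtain ⟨p1, p2⟩ := psr (y := x + u) y1.le y2.le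
  obtain ⟨p3, p4⟩ := psr (y := x + u - b) z1.le z2.le
  have hd := dqBp (dq_t x) hb (by linarith) (by linarith) (by linarith) (by linarith) p1 p2 p3 p4
  obtain ⟨r1, r2⟩ := rX x0 x1
  have K := Cht3.cert (ng := false) (r := 33554432) ct_1T3 (u := u) (b := b) (x := x) (by unfold S; norm_num; linarith) (by unfold S; norm_num; linarith) (by simp only [cond_true, cond_false]; linarith) (by simp only [cond_true, cond_false]; unfold S; norm_num; linarith) r1 r2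
  have hs : ∀ G ∈ sk_T3, G.v u b x ≤ 0 := skPM (A := false) (v := 33554432) (u := u) (b := b) (x := x) (abs_le.2 ⟨by simp only [cond_true, cond_false]; unfold S; norm_num; linarith, by simp only [cond_true, cond_false]; unfold S; norm_num; linarith⟩)
  have hit : ((T_T3.b true).at_ u b x).it * (x + u - b) = -1 := by
    show -(x + u - b)⁻¹ * _ = _
    rw [neg_mul, inv_mul_cancel₀ (ne_of_gt (by linarith))]
  have hY : y' = 1 - (x + u - b) := by rw [hy]; ring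
  have q2 : InQ 1 (1 - (x + u - b)) := hY ▸ F.q2
  have hX : crv PP 2 1 y' = c1n (x + u - b) + 1 / 2 := by rw [hY]; exact wX1 _
  have hcz := fnB_e D
  have od : 1 ≤ qqn (st_T3.xs.v u b x) (1 + b) ∧ qqn (st_T3.xs.v u b x) (1 + b) ≤ 3 := by
    have l1 := F.len1
    have l3 := F.len3
    have e : (1 : ℝ) * crv PP 0 0 (x + u) + -1 * crv PP 2 1 y' = -st_T3.xs.v u b x := by
      rw [hX, crv0]
      show _ = -(1 / 2 + b * fnB.v u b x)
      linear_combination -hcz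
    rw [e, qqn_neg, e0] at l1 l3
    exact ⟨l1, l3⟩
  have K3 : (∀ G ∈ cx_T3, 0 < G.v u b x) → (pcF 2).K.v (-T_T3.st.xs.v u b x) (1 + b) x = -(1 / 2 + b * T_T3.st.rs.v u b x) := fun hc => qK_T3 hF D hb (by linarith) qs hc od.1 od.2
  have L3 : (∀ G ∈ cx_T3, 0 < G.v u b x) → (pcF 2).L.v (-T_T3.st.xs.v u b x) (1 + b) x = -(b * T_T3.st.xk.v u b x) := fun hc => qL_T3 hF D hb (by linarith) qs hc od.1 od.2
  have D3 : (∀ G ∈ cx_T3, 0 < G.v u b x) → ((pcN 2).K.v (-T_T3.st.xs.v u b x) (1 + b) x - (1 + mun 3 x * cR x) * (pcF 2).K.v (-T_T3.st.xs.v u b x) (1 + b) x) / mun 3 x = -(b * T_T3.st.k2.v u b x) := fun hc => qD_T3 hF hN D hb (by linarith) qs hc od.1 od.2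
  exact nearT3 (T := T_T3) (sk := sk_T3) (cx := cx_T3) D hb hκ hy hd hit (t1_0 F.q1) (t3B1 F.q2 hy) stT_x rfl (fun _ _ => rfl) (fun _ _ => rfl) (fun _ _ => rfl) hX K hs (kcb y1.le y2.le x0 x1) (shN0 F.q1 y1.le y2.le) (by rw [hY]; exact wN1 q2) (wB := tKF 2 1 (1 - (x + u - b)) x) (wD := kp2q1.v (1 - (x + u - b)) x)
    (tB := -(pcF 2).K.v (-T_T3.st.xs.v u b x) (1 + b) x) (tD := -(((pcN 2).K.v (-T_T3.st.xs.v u b x) (1 + b) x - (1 + mun 3 x * cR x) * (pcF 2).K.v (-T_T3.st.xs.v u b x) (1 + b) x) / mun 3 x))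
    (fun _ => by
      have k := div_mun (f := (pcN 2).K.v (-T_T3.st.xs.v u b x) (1 + b) x) (g := (pcF 2).K.v (-T_T3.st.xs.v u b x) (1 + b) x) (c := 1 + mun 3 x * cR x) (x := x)
      exact k.trans (by ring))
    rfl rfl (wK1 q2 z1 z2) (wD1 q2 z1 z2) (fun hc => by rw [K3 hc]; ring) (fun hc => by rw [D3 hc]; ring) (shL0 F.q1 y1.le y2.le) (by rw [hY]; exact wL1 q2 z1 z2) L3
theorem vN_T3 {x u b κ y' : ℝ} (x0 : 3 / 64 ≤ x) (x1 : x ≤ 1 / 16) (h1 : |u| < 1 / 32) (h2 : |b| < 1 / 64) (h3 : |u - b| < 1 / 32) (wy : 1 / 32 < x + u ∧ x + u < 5 / 64) (wz : 1 / 32 < x + u - b ∧ x + u - b < 5 / 64) (hy : y' = 1 + b - (x + u)) (F : FactsA PP 0 1 1 0 2 1 (-1) (x + u) y') : False := by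
  have e0 : x + u + y' = 1 + b := by rw [hy]; ring
  have qs : InQ 1 (1 + b) := e0 ▸ F.q3
  obtain ⟨u1, u2⟩ := abs_lt.1 h1
  obtain ⟨b1, b2⟩ := abs_lt.1 h2
  obtain ⟨v1, v2⟩ := abs_lt.1 h3
  obtain ⟨y1, y2⟩ := wy
  obtain ⟨z1, z2⟩ := wz
  have hb : b < 0 := by linarith [qs.2]
  have hY : y' = 1 - (x + u - b) := by rw [hy]; ring
  have hX : crv PP 2 1 y' = c1n (x + u - b) + 1 / 2 := by rw [hY]; exact wX1 _
  have l1 := F.len1
  have e : (1 : ℝ) * crv PP 0 0 (x + u) + -1 * crv PP 2 1 y' = c1n (x + u) - (c1n (x + u - b) + 1 / 2) := by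
    rw [hX, crv0]
    ring
  rw [e, e0] at l1
  exact vac_t (by linarith) (by linarith) (by linarith) hb (by linarith) l1
theorem WmolN_A_012_02_3_p {x κ y y' : ℝ} (hF : SideOk PP tKF tL pcF x) (hN : SideOk PP tKN tL pcN x) (hκ : κ * h0 = ken x) (x0 : 3 / 64 ≤ x) (x1 : x ≤ 1 / 16)
    (F : FactsA PP 0 1 2 0 2 1 (-1) y y') (h1 : |y - x| < 1 / 32) (h3 : |y' - (1 - x)| < 1 / 32) (h2 : |y + y' - 1| < 1 / 64) (gy : 1 / 32 < y ∧ y < 5 / 64) (gz : 59 / 64 < y' ∧ y' < 31 / 32) :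
    StA (VN 3 κ) PP tKN tL pcN 0 1 2 0 2 1 (-1) x y y' := by
  obtain ⟨u, rfl⟩ : ∃ u, y = x + u := ⟨y - x, by ring⟩
  obtain ⟨b, hy⟩ : ∃ b, y' = 1 + b - (x + u) := ⟨y' + (x + u) - 1, by ring⟩
  rw [show x + u - x = u by ring] at h1
  rw [show x + u + y' - 1 = b by rw [hy]; ring] at h2
  rw [show y' - (1 - x) = -(u - b) by rw [hy]; ring, abs_neg] at h3
  have wy := gy
  have wz : 1 / 32 < x + u - b ∧ x + u - b < 5 / 64 := ⟨by linarith [gz.2], by linarith [gz.1]⟩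
  exact fN_T3 hF hN hκ x0 x1 h1 h2 h3 wy wz hy F
theorem molN_A_012_02_3 {κ x : ℝ} (hκ : κ * h0 = ken x) (hx : ((50331648 : ℕ) : ℝ) / S ≤ x) (hx' : x ≤ (((50331648 : ℕ) : ℝ) + (16777216 : ℕ)) / S) :
    AltA (VN 3 κ) PP tKN tL pcN [⟨0, 0, 1, 33554432⟩, ⟨1, 1, 2, 33554432⟩, ⟨2, 1, 0, 16777216⟩, ⟨0, 0, 0, 83886080⟩, ⟨0, 1, 0, 1040187392⟩, ⟨1, 0, 0, 1040187392⟩, ⟨1, 1, 0, 83886080⟩] 0 1 2 0 2 (sgb true) (sgb false) x := by
  obtain ⟨x0, x1⟩ := xr hx hx'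
  intro y y' F h
  obtain ⟨h1, h3, h2, gy, gz⟩ := winB h
  exact WmolN_A_012_02_3_p (sideF hx hx') (sideN hx hx') hκ x0 x1 F (h1.trans_eq (by norm_num)) (h3.trans_eq (by norm_num)) (h2.trans_eq (by norm_num)) ⟨lt_of_eq_of_lt (by norm_num) gy.1, lt_of_lt_of_eq gy.2 (by norm_num)⟩ ⟨lt_of_eq_of_lt (by norm_num) gz.2, lt_of_lt_of_eq gz.1 (by norm_num)⟩
theorem WmolN_A_011_02_3_p {x κ y y' : ℝ} (hF : SideOk PP tKF tL pcF x) (hN : SideOk PP tKN tL pcN x) (hκ : κ * h0 = ken x) (x0 : 3 / 64 ≤ x) (x1 : x ≤ 1 / 16)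
    (F : FactsA PP 0 1 1 0 2 1 (-1) y y') (h1 : |y - x| < 1 / 32) (h3 : |y' - (1 - x)| < 1 / 32) (h2 : |y + y' - 1| < 1 / 64) (gy : 1 / 32 < y ∧ y < 5 / 64) (gz : 59 / 64 < y' ∧ y' < 31 / 32) :
    StA (VN 3 κ) PP tKN tL pcN 0 1 1 0 2 1 (-1) x y y' := by
  obtain ⟨u, rfl⟩ : ∃ u, y = x + u := ⟨y - x, by ring⟩
  obtain ⟨b, hy⟩ : ∃ b, y' = 1 + b - (x + u) := ⟨y' + (x + u) - 1, by ring⟩
  rw [show x + u - x = u by ring] at h1
  rw [show x + u + y' - 1 = b by rw [hy]; ring] at h2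
  rw [show y' - (1 - x) = -(u - b) by rw [hy]; ring, abs_neg] at h3
  have wy := gy
  have wz : 1 / 32 < x + u - b ∧ x + u - b < 5 / 64 := ⟨by linarith [gz.2], by linarith [gz.1]⟩
  exact (vN_T3 (κ := κ) x0 x1 h1 h2 h3 wy wz hy F).elim
theorem molN_A_011_02_3 {κ x : ℝ} (hκ : κ * h0 = ken x) (hx : ((50331648 : ℕ) : ℝ) / S ≤ x) (hx' : x ≤ (((50331648 : ℕ) : ℝ) + (16777216 : ℕ)) / S) :
    AltA (VN 3 κ) PP tKN tL pcN [⟨0, 0, 1, 33554432⟩, ⟨1, 1, 2, 33554432⟩, ⟨2, 1, 0, 16777216⟩, ⟨0, 0, 0, 83886080⟩, ⟨0, 1, 0, 1040187392⟩, ⟨1, 0, 0, 1040187392⟩, ⟨1, 1, 0, 83886080⟩] 0 1 1 0 2 (sgb true) (sgb false) x := by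
  obtain ⟨x0, x1⟩ := xr hx hx'
  intro y y' F h
  obtain ⟨h1, h3, h2, gy, gz⟩ := winB h
  exact WmolN_A_011_02_3_p (sideF hx hx') (sideN hx hx') hκ x0 x1 F (h1.trans_eq (by norm_num)) (h3.trans_eq (by norm_num)) (h2.trans_eq (by norm_num)) ⟨lt_of_eq_of_lt (by norm_num) gy.1, lt_of_lt_of_eq gy.2 (by norm_num)⟩ ⟨lt_of_eq_of_lt (by norm_num) gz.2, lt_of_lt_of_eq gz.1 (by norm_num)⟩
theorem fN_T4 {x u b κ : ℝ} (hF : SideOk PP tKF tL pcF x) (hN : SideOk PP tKN tL pcN x) (hκ : κ * h0 = ken x)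
    (x0 : 3 / 64 ≤ x) (x1 : x ≤ 1 / 16) (h1 : |u| < 1 / 32) (h2 : |b| < 1 / 64) (h3 : |u + b| < 1 / 32) (wy : 1 / 32 < x + u ∧ x + u < 5 / 64) (wz : 1 / 32 < x + u + b ∧ x + u + b < 5 / 64) (F : FactsB PP 0 2 2 0 2 1 1 (x + u) (1 + b)) :
    StB (VN 3 κ) PP tKN tL pcN 0 2 2 0 2 1 1 x (x + u) (1 + b) := by
  have qs := F.q2
  obtain ⟨u1, u2⟩ := abs_lt.1 h1
  obtain ⟨b1, b2⟩ := abs_lt.1 h2
  obtain ⟨v1, v2⟩ := abs_lt.1 h3
  obtain ⟨y1, y2⟩ := wy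
  obtain ⟨z1, z2⟩ := wz
  have hb : 0 ≤ b := by linarith [qs.1]
  have D : DomA u b x := ⟨by linarith, by linarith, by linarith, by linarith, by linarith, by linarith, by linarith, by linarith⟩
  obtain ⟨p1, p2⟩ := psr (y := x + u) y1.le y2.le
  obtain ⟨p3, p4⟩ := psr (y := x + u + b) z1.le z2.le
  have hd := dqAp (dq_t x) hb (by linarith) (by linarith) (by linarith) (by linarith) p1 p2 p3 p4
  obtain ⟨r1, r2⟩ := rX x0 x1
  have K := Cht3.cert (ng := false) (r := 33554432) ct_1T4 (u := u) (b := b) (x := x) (by unfold S; norm_num; linarith) (by unfold S; norm_num; linarith) (by simp only [cond_true, cond_false]; linarith) (by simp only [cond_true, cond_false]; unfold S; norm_num; linarith) r1 r2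
  have hs : ∀ G ∈ sk_T4, G.v u b x ≤ 0 := skPM (A := true) (v := 33554432) (u := u) (b := b) (x := x) (abs_le.2 ⟨by simp only [cond_true, cond_false]; unfold S; norm_num; linarith, by simp only [cond_true, cond_false]; unfold S; norm_num; linarith⟩)
  have hit : ((T_T4.a true).at_ u b x).it * (x + u + b) = 1 := by
    show (x + u + b)⁻¹ * _ = _
    exact inv_mul_cancel₀ (ne_of_gt (by linarith))
  have hY : x + u + (1 + b) = 1 + (x + u + b) := by ring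
  have q3 : InQ 2 (1 + (x + u + b)) := hY ▸ F.q3
  have hX : crv PP 2 2 (x + u + (1 + b)) = c1n (x + u + b) - 1 / 2 := by rw [hY]; exact wX2 _
  have hcz := fnA_e D
  have od : 1 ≤ qqn (st_T4.xs.v u b x) (1 + b) ∧ qqn (st_T4.xs.v u b x) (1 + b) ≤ 3 := by
    have l1 := F.len1
    have l3 := F.len3
    have e : (1 : ℝ) * crv PP 2 2 (x + u + (1 + b)) - 1 * crv PP 0 0 (x + u) = -st_T4.xs.v u b x := by
      rw [hX, crv0]
      show _ = -(1 / 2 + b * fnA.v u b x)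
      linear_combination hcz
    rw [e, qqn_neg] at l1 l3
    exact ⟨l1, l3⟩
  have K3 : (∀ G ∈ cx_T4, 0 < G.v u b x) → (pcF 2).K.v (-T_T4.st.xs.v u b x) (1 + b) x = -(1 / 2 + b * T_T4.st.rs.v u b x) := fun hc => qK_T4 hF D hb (by linarith) qs hc od.1 od.2
  have L3 : (∀ G ∈ cx_T4, 0 < G.v u b x) → (pcF 2).L.v (-T_T4.st.xs.v u b x) (1 + b) x = -(b * T_T4.st.xk.v u b x) := fun hc => qL_T4 hF D hb (by linarith) qs hc od.1 od.2
  have D3 : (∀ G ∈ cx_T4, 0 < G.v u b x) → ((pcN 2).K.v (-T_T4.st.xs.v u b x) (1 + b) x - (1 + mun 3 x * cR x) * (pcF 2).K.v (-T_T4.st.xs.v u b x) (1 + b) x) / mun 3 x = -(b * T_T4.st.k2.v u b x) := fun hc => qD_T4 hF hN D hb (by linarith) qs hc od.1 od.2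
  exact nearT4 (T := T_T4) (sk := sk_T4) (cx := cx_T4) D hb hκ hd hit (t1_0 F.q1) (t3A2 F.q3) stT_x rfl (fun _ _ => rfl) (fun _ _ => rfl) (fun _ _ => rfl) hX K hs (kcb y1.le y2.le x0 x1) (shN0 F.q1 y1.le y2.le) (by rw [hY]; exact wN2 q3) (wB := tKF 2 2 (1 + (x + u + b)) x) (wD := kp2q2.v (1 + (x + u + b)) x)
    (tB := -(pcF 2).K.v (-T_T4.st.xs.v u b x) (1 + b) x) (tD := -(((pcN 2).K.v (-T_T4.st.xs.v u b x) (1 + b) x - (1 + mun 3 x * cR x) * (pcF 2).K.v (-T_T4.st.xs.v u b x) (1 + b) x) / mun 3 x))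
    (fun _ => by
      have k := div_mun (f := (pcN 2).K.v (-T_T4.st.xs.v u b x) (1 + b) x) (g := (pcF 2).K.v (-T_T4.st.xs.v u b x) (1 + b) x) (c := 1 + mun 3 x * cR x) (x := x)
      exact k.trans (by ring))
    rfl rfl (wK2 q3 z1 z2) (wD2 q3 z1 z2) (fun hc => by rw [K3 hc]; ring) (fun hc => by rw [D3 hc]; ring) (shL0 F.q1 y1.le y2.le) (by rw [hY]; exact wL2 q3 z1 z2) L3
theorem vN_T4 {x u b κ : ℝ} (x0 : 3 / 64 ≤ x) (x1 : x ≤ 1 / 16) (h1 : |u| < 1 / 32) (h2 : |b| < 1 / 64) (h3 : |u + b| < 1 / 32) (wy : 1 / 32 < x + u ∧ x + u < 5 / 64) (wz : 1 / 32 < x + u + b ∧ x + u + b < 5 / 64) (F : FactsB PP 0 1 2 0 2 1 1 (x + u) (1 + b)) : False := by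
  have qs := F.q2
  obtain ⟨u1, u2⟩ := abs_lt.1 h1
  obtain ⟨b1, b2⟩ := abs_lt.1 h2
  obtain ⟨v1, v2⟩ := abs_lt.1 h3
  obtain ⟨y1, y2⟩ := wy
  obtain ⟨z1, z2⟩ := wz
  have hb : b < 0 := by linarith [qs.2]
  have hY : x + u + (1 + b) = 1 + (x + u + b) := by ring
  have hX : crv PP 2 2 (x + u + (1 + b)) = c1n (x + u + b) - 1 / 2 := by rw [hY]; exact wX2 _
  have l1 := F.len1
  have e : (1 : ℝ) * crv PP 2 2 (x + u + (1 + b)) - 1 * crv PP 0 0 (x + u) = c1n (x + u + b) - 1 / 2 - c1n (x + u) := by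
    rw [hX, crv0]
    ring
  rw [e] at l1
  exact vac_u (by linarith) (by linarith) (by linarith) hb (by linarith) l1
theorem WmolN_B_022_02_4_p {x κ y y' : ℝ} (hF : SideOk PP tKF tL pcF x) (hN : SideOk PP tKN tL pcN x) (hκ : κ * h0 = ken x) (x0 : 3 / 64 ≤ x) (x1 : x ≤ 1 / 16)
    (F : FactsB PP 0 2 2 0 2 1 1 y y') (h1 : |y - x| < 1 / 32) (h2 : |y' - 1| < 1 / 64) (h3 : |y + y' - (1 + x)| < 1 / 32) (gy : 1 / 32 < y ∧ y < 5 / 64) (gz : 33 / 32 < y + y' ∧ y + y' < 69 / 64) :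
    StB (VN 3 κ) PP tKN tL pcN 0 2 2 0 2 1 1 x y y' := by
  obtain ⟨u, rfl⟩ : ∃ u, y = x + u := ⟨y - x, by ring⟩
  obtain ⟨b, rfl⟩ : ∃ b, y' = 1 + b := ⟨y' - 1, by ring⟩
  rw [show x + u - x = u by ring] at h1
  rw [show 1 + b - 1 = b by ring] at h2
  rw [show x + u + (1 + b) - (1 + x) = u + b by ring] at h3
  have wy := gy
  have wz : 1 / 32 < x + u + b ∧ x + u + b < 5 / 64 := ⟨by linarith [gz.1], by linarith [gz.2]⟩
  exact fN_T4 hF hN hκ x0 x1 h1 h2 h3 wy wz F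
theorem molN_B_022_02_4 {κ x : ℝ} (hκ : κ * h0 = ken x) (hx : ((50331648 : ℕ) : ℝ) / S ≤ x) (hx' : x ≤ (((50331648 : ℕ) : ℝ) + (16777216 : ℕ)) / S) :
    AltB (VN 3 κ) PP tKN tL pcN [⟨0, 0, 1, 33554432⟩, ⟨1, 1, 0, 16777216⟩, ⟨2, 1, 1, 33554432⟩, ⟨0, 0, 0, 83886080⟩, ⟨0, 1, 0, 1040187392⟩, ⟨2, 1, 0, 83886080⟩, ⟨2, 2, 0, 1040187392⟩] 0 2 2 0 2 (sgb true) (sgb true) x := by
  obtain ⟨x0, x1⟩ := xr hx hx'
  intro y y' F h
  obtain ⟨h1, h2, h3, gy, gz⟩ := winA h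
  exact WmolN_B_022_02_4_p (sideF hx hx') (sideN hx hx') hκ x0 x1 F (h1.trans_eq (by norm_num)) (h2.trans_eq (by norm_num)) (h3.trans_eq (by norm_num)) ⟨lt_of_eq_of_lt (by norm_num) gy.1, lt_of_lt_of_eq gy.2 (by norm_num)⟩ ⟨lt_of_eq_of_lt (by norm_num) gz.1, lt_of_lt_of_eq gz.2 (by norm_num)⟩
theorem WmolN_B_012_02_4_p {x κ y y' : ℝ} (hF : SideOk PP tKF tL pcF x) (hN : SideOk PP tKN tL pcN x) (hκ : κ * h0 = ken x) (x0 : 3 / 64 ≤ x) (x1 : x ≤ 1 / 16)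
    (F : FactsB PP 0 1 2 0 2 1 1 y y') (h1 : |y - x| < 1 / 32) (h2 : |y' - 1| < 1 / 64) (h3 : |y + y' - (1 + x)| < 1 / 32) (gy : 1 / 32 < y ∧ y < 5 / 64) (gz : 33 / 32 < y + y' ∧ y + y' < 69 / 64) :
    StB (VN 3 κ) PP tKN tL pcN 0 1 2 0 2 1 1 x y y' := by
  obtain ⟨u, rfl⟩ : ∃ u, y = x + u := ⟨y - x, by ring⟩
  obtain ⟨b, rfl⟩ : ∃ b, y' = 1 + b := ⟨y' - 1, by ring⟩
  rw [show x + u - x = u by ring] at h1
  rw [show 1 + b - 1 = b by ring] at h2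
  rw [show x + u + (1 + b) - (1 + x) = u + b by ring] at h3
  have wy := gy
  have wz : 1 / 32 < x + u + b ∧ x + u + b < 5 / 64 := ⟨by linarith [gz.1], by linarith [gz.2]⟩
  exact (vN_T4 (κ := κ) x0 x1 h1 h2 h3 wy wz F).elim
theorem molN_B_012_02_4 {κ x : ℝ} (hκ : κ * h0 = ken x) (hx : ((50331648 : ℕ) : ℝ) / S ≤ x) (hx' : x ≤ (((50331648 : ℕ) : ℝ) + (16777216 : ℕ)) / S) :
    AltB (VN 3 κ) PP tKN tL pcN [⟨0, 0, 1, 33554432⟩, ⟨1, 1, 0, 16777216⟩, ⟨2, 1, 1, 33554432⟩, ⟨0, 0, 0, 83886080⟩, ⟨0, 1, 0, 1040187392⟩, ⟨2, 1, 0, 83886080⟩, ⟨2, 2, 0, 1040187392⟩] 0 1 2 0 2 (sgb true) (sgb true) x := by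
  obtain ⟨x0, x1⟩ := xr hx hx'
  intro y y' F h
  obtain ⟨h1, h2, h3, gy, gz⟩ := winA h
  exact WmolN_B_012_02_4_p (sideF hx hx') (sideN hx hx') hκ x0 x1 F (h1.trans_eq (by norm_num)) (h2.trans_eq (by norm_num)) (h3.trans_eq (by norm_num)) ⟨lt_of_eq_of_lt (by norm_num) gy.1, lt_of_lt_of_eq gy.2 (by norm_num)⟩ ⟨lt_of_eq_of_lt (by norm_num) gz.1, lt_of_lt_of_eq gz.2 (by norm_num)⟩
theorem fN_T5 {x u b κ : ℝ} (hF : SideOk PP tKF tL pcF x) (hN : SideOk PP tKN tL pcN x) (hκ : κ * h0 = ken x)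
    (x0 : 3 / 64 ≤ x) (x1 : x ≤ 1 / 16) (h1 : |u| < 3 / 128) (h2 : |b| < 1 / 128) (h3 : |u + b| < 3 / 128) (wy : 1 / 32 < x + u ∧ x + u < 5 / 64) (wz : 1 / 32 < x + u + b ∧ x + u + b < 5 / 64) (F : FactsB PP 1 0 2 0 2 1 (-1) (1 + b) (x + u)) :
    StB (VN 3 κ) PP tKN tL pcN 1 0 2 0 2 1 (-1) x (1 + b) (x + u) := by
  have qs := F.q1
  have q0 := F.q2
  obtain ⟨u1, u2⟩ := abs_lt.1 h1
  obtain ⟨b1, b2⟩ := abs_lt.1 h2
  obtain ⟨v1, v2⟩ := abs_lt.1 h3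
  obtain ⟨y1, y2⟩ := wy
  obtain ⟨z1, z2⟩ := wz
  have hb : b < 0 := by linarith [qs.2]
  have D : DomA u b x := ⟨by linarith, by linarith, by linarith, by linarith, by linarith, by linarith, by linarith, by linarith⟩
  obtain ⟨p1, p2⟩ := psr (y := x + u) y1.le y2.le
  obtain ⟨p3, p4⟩ := psr (y := x + u + b) z1.le z2.le
  have hd := dqAm (dq_t x) hb (by linarith) (by linarith) (by linarith) (by linarith) p1 p2 p3 p4
  obtain ⟨r1, r2⟩ := rX x0 x1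
  have K := Cht3.cert (ng := true) (r := 25165824) ct_1T5 (u := u) (b := b) (x := x) (by unfold S; norm_num; linarith) (by unfold S; norm_num; linarith) (by simp only [cond_true, cond_false]; linarith) (by simp only [cond_true, cond_false]; unfold S; norm_num; linarith) r1 r2
  have hs : ∀ G ∈ sk_T5, G.v u b x ≤ 0 := skPM (A := true) (v := 25165824) (u := u) (b := b) (x := x) (abs_le.2 ⟨by simp only [cond_true, cond_false]; unfold S; norm_num; linarith, by simp only [cond_true, cond_false]; unfold S; norm_num; linarith⟩)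
  have hit : ((shF (T_T5.a false) (fp1 true T_T5.st.ws fnA) gK gX gD).at_ u b x).it * (x + u + b) = 1 := by
    show (x + u + b)⁻¹ * _ = _
    exact inv_mul_cancel₀ (ne_of_gt (by linarith))
  have hY : 1 + b + (x + u) = 1 + (x + u + b) := by ring
  have q3 : InQ 2 (1 + (x + u + b)) := hY ▸ F.q3
  have hY2 : x + u + (1 + b) = 1 + b + (x + u) := by ring
  have q3' : InQ 2 (x + u + (1 + b)) := hY2 ▸ F.q3
  have hX : crv PP 2 2 (1 + b + (x + u)) = c1n (x + u + b) - 1 / 2 := by rw [hY]; exact wX2 _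
  have hx : sm.xs.v u b x = 1 / 2 + b * sm.ws.v u b x := stM_x (by linarith) (by linarith)
  have hXj : crv PP 0 1 (1 + b) = sm.xs.v u b x := crv0 1 (1 + b)
  have hxs : sm.xs.v u b x = c1n (1 + b) := rfl
  have hcz := fnA_e D
  have eX : c1n (x + u) + b * (fp1 true T_T5.st.ws fnA).v u b x = sm.xs.v u b x + (c1n (x + u + b) - 1 / 2) := by
    rw [hx]
    show c1n (x + u) + b * (sm.ws.v u b x - fnA.v u b x) = _
    linear_combination -hcz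
  have cm1 : 1 / 2 ≤ c1n (1 + b) := c1n_half' hb.le (by linarith)
  have cz0 := Mol.c1n_nn (x + u + b)
  have xpos : 0 < c1n (x + u) + b * (fp1 true T_T5.st.ws fnA).v u b x := by
    rw [eX, hxs]
    have := c1n_pos' (y := x + u + b) (by nlinarith)
    linarith
  have xne := xpos.ne'
  have od : 1 ≤ qqn (c1n (x + u) + b * (fp1 true T_T5.st.ws fnA).v u b x) (x + u) ∧ qqn (c1n (x + u) + b * (fp1 true T_T5.st.ws fnA).v u b x) (x + u) ≤ 3 := by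
    have l1 := F.len1
    have l3 := F.len3
    have e : (-1 : ℝ) * crv PP 2 2 (1 + b + (x + u)) - 1 * crv PP 0 1 (1 + b) = -(c1n (x + u) + b * (fp1 true T_T5.st.ws fnA).v u b x) := by
      rw [hX, hXj, eX]
      ring
    rw [e, qqn_neg] at l1 l3
    exact ⟨l1, l3⟩
  have hc1 : c1n (x + u) ≤ c1n (x + u) + b * (fp1 true T_T5.st.ws fnA).v u b x := c1_le od.1 xpos.le
  have K1 : (∀ G ∈ cx_T5, 0 < G.v u b x) → (pcF 0).K.v (-(c1n (x + u) + b * (fp1 true T_T5.st.ws fnA).v u b x)) (x + u) x = -((c1n (x + u) * cG (x + u) + kcg.v (psn (x + u)) x) * (x + u) + b * (f1s (fp1 true T_T5.st.ws fnA) gK).v u b x) := fun hc => by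
    have t1 : 0 < cv2m.v (x + u) - (c1n (x + u) + b * (fp1 true T_T5.st.ws fnA).v u b x) := hc (f1t p_T5 (tCX cv2m)) (by unfold cx_T5; simp)
    have t0 : 0 < cv1m.v (x + u) - c1g.v (x + u) := hc (f1t p_T5 (tCC cv1m c1g)) (by unfold cx_T5; simp)
    have k1 : kf0q0.v (x + u) x = (c1n (x + u) * cG (x + u) + kcg.v (psn (x + u)) x) * (x + u) := kf0_t0 (by linarith) (by linarith)
    have k2 : c1g.v (x + u) = c1n (x + u) := congrFun c1g_v _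
    rw [sSK hF q0 (by rw [k2]; exact hc1) t0 t1 od.1 od.2 xne, k1, k2]
    show -(_ + gK.v (c1n (x + u) + b * (fp1 true T_T5.st.ws fnA).v u b x) (x + u) x * (_ - _)) = -(_ + b * (gK.v (c1n (x + u) + b * (fp1 true T_T5.st.ws fnA).v u b x) (x + u) x * (fp1 true T_T5.st.ws fnA).v u b x))
    ring
  have L1 : (∀ G ∈ cx_T5, 0 < G.v u b x) → (pcF 0).L.v (-(c1n (x + u) + b * (fp1 true T_T5.st.ws fnA).v u b x)) (x + u) x = -(cQ x (x + u) (kcg.v (psn (x + u)) x) + b * (f1s (fp1 true T_T5.st.ws fnA) gX).v u b x) := fun hc => by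
    have t1 : 0 < cv2m.v (x + u) - (c1n (x + u) + b * (fp1 true T_T5.st.ws fnA).v u b x) := hc (f1t p_T5 (tCX cv2m)) (by unfold cx_T5; simp)
    have t0 : 0 < cv1m.v (x + u) - c1g.v (x + u) := hc (f1t p_T5 (tCC cv1m c1g)) (by unfold cx_T5; simp)
    have k1 : l0q0.v (x + u) x = cQ x (x + u) (kcg.v (psn (x + u)) x) := l0_t0 (lt_of_lt_of_le (by norm_num) p1) (p2.trans (by norm_num))
    have k2 : c1g.v (x + u) = c1n (x + u) := congrFun c1g_v _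
    rw [sSL hF q0 (by rw [k2]; exact hc1) t0 t1 od.1 od.2 xne, k1, k2]
    show -(_ + gX.v (c1n (x + u) + b * (fp1 true T_T5.st.ws fnA).v u b x) (x + u) x * (_ - _)) = -(_ + b * (gX.v (c1n (x + u) + b * (fp1 true T_T5.st.ws fnA).v u b x) (x + u) x * (fp1 true T_T5.st.ws fnA).v u b x))
    ring
  have D1 : (∀ G ∈ cx_T5, 0 < G.v u b x) → ((pcN 0).K.v (-(c1n (x + u) + b * (fp1 true T_T5.st.ws fnA).v u b x)) (x + u) x - (1 + mun 3 x * cR x) * (pcF 0).K.v (-(c1n (x + u) + b * (fp1 true T_T5.st.ws fnA).v u b x)) (x + u) x) / mun 3 x = -((cP (x + u) - (cR (x + u) + 2 * c1n (x + u)) * kcg.v (psn (x + u)) x) * (x + u) + b * (f1s (fp1 true T_T5.st.ws fnA) gD).v u b x) := fun hc => by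
    have t1 : 0 < cv2m.v (x + u) - (c1n (x + u) + b * (fp1 true T_T5.st.ws fnA).v u b x) := hc (f1t p_T5 (tCX cv2m)) (by unfold cx_T5; simp)
    have t0 : 0 < cv1m.v (x + u) - c1g.v (x + u) := hc (f1t p_T5 (tCC cv1m c1g)) (by unfold cx_T5; simp)
    have k1 : kp0q0.v (x + u) x = (cP (x + u) - (cR (x + u) + 2 * c1n (x + u)) * kcg.v (psn (x + u)) x) * (x + u) := kp0_t0 (by linarith) (by linarith) (lt_of_lt_of_le (by norm_num) p1) (p2.trans (by norm_num))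
    have k2 : c1g.v (x + u) = c1n (x + u) := congrFun c1g_v _
    rw [sSD hF hN q0 (by rw [k2]; exact hc1) t0 t1 od.1 od.2 xne, k1, k2]
    show -(_ + gD.v (c1n (x + u) + b * (fp1 true T_T5.st.ws fnA).v u b x) (x + u) x * (_ - _)) = -(_ + b * (gD.v (c1n (x + u) + b * (fp1 true T_T5.st.ws fnA).v u b x) (x + u) x * (fp1 true T_T5.st.ws fnA).v u b x))
    ring
  exact nearT5 (T := T_T5) (sk := sk_T5) (cx := cx_T5) D hb hκ hd hit (t1_0 q0) (t3A2 q3') hx (fun _ _ => rfl) (fun _ _ => rfl) (fun _ _ => rfl) hX hXj K hs (kcb y1.le y2.le x0 x1) (sB := -(pcF 0).K.v (-(c1n (x + u) + b * (fp1 true T_T5.st.ws fnA).v u b x)) (x + u) x) (sD := -(((pcN 0).K.v (-(c1n (x + u) + b * (fp1 true T_T5.st.ws fnA).v u b x)) (x + u) x - (1 + mun 3 x * cR x) * (pcF 0).K.v (-(c1n (x + u) + b * (fp1 true T_T5.st.ws fnA).v u b x)) (x + u) x) / mun 3 x))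
    (wB := tKF 2 2 (1 + (x + u + b)) x) (wD := kp2q2.v (1 + (x + u + b)) x)
    (fun _ => by
      have k := div_mun (f := (pcN 0).K.v (-(c1n (x + u) + b * (fp1 true T_T5.st.ws fnA).v u b x)) (x + u) x) (g := (pcF 0).K.v (-(c1n (x + u) + b * (fp1 true T_T5.st.ws fnA).v u b x)) (x + u) x) (c := 1 + mun 3 x * cR x) (x := x)
      exact k.trans (by ring))
    (by rw [hY]; exact wN2 q3) (smN qs) (fun hc => by rw [K1 hc]; exact neg_neg _) (fun hc => by rw [D1 hc]; exact neg_neg _) (wK2 q3 z1 z2) (wD2 q3 z1 z2) (smK u hb qs (by linarith)) (smD u hb (by linarith)) L1 (by rw [hY]; exact wL2 q3 z1 z2) (smL u hb qs (by linarith))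
theorem WmolN_B_102_02_5_p {x κ y y' : ℝ} (hF : SideOk PP tKF tL pcF x) (hN : SideOk PP tKN tL pcN x) (hκ : κ * h0 = ken x) (x0 : 3 / 64 ≤ x) (x1 : x ≤ 1 / 16)
    (F : FactsB PP 1 0 2 0 2 1 (-1) y y') (h2 : |y - 1| < 1 / 128) (h1 : |y' - x| < 3 / 128) (h3 : |y + y' - (1 + x)| < 3 / 128) (gy : 1 / 32 < y' ∧ y' < 5 / 64) (gz : 33 / 32 < y + y' ∧ y + y' < 69 / 64) :
    StB (VN 3 κ) PP tKN tL pcN 1 0 2 0 2 1 (-1) x y y' := by
  obtain ⟨u, rfl⟩ : ∃ u, y' = x + u := ⟨y' - x, by ring⟩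
  obtain ⟨b, rfl⟩ : ∃ b, y = 1 + b := ⟨y - 1, by ring⟩
  rw [show x + u - x = u by ring] at h1
  rw [show 1 + b - 1 = b by ring] at h2
  rw [show 1 + b + (x + u) - (1 + x) = u + b by ring] at h3
  have wy := gy
  have wz : 1 / 32 < x + u + b ∧ x + u + b < 5 / 64 := ⟨by linarith [gz.1], by linarith [gz.2]⟩
  exact fN_T5 hF hN hκ x0 x1 h1 h2 h3 wy wz F
theorem molN_B_102_02_5 {κ x : ℝ} (hκ : κ * h0 = ken x) (hx : ((50331648 : ℕ) : ℝ) / S ≤ x) (hx' : x ≤ (((50331648 : ℕ) : ℝ) + (16777216 : ℕ)) / S) :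
    AltB (VN 3 κ) PP tKN tL pcN [⟨0, 1, 0, 8388608⟩, ⟨1, 0, 1, 25165824⟩, ⟨2, 1, 1, 25165824⟩, ⟨1, 0, 0, 83886080⟩, ⟨1, 1, 0, 1040187392⟩, ⟨2, 1, 0, 83886080⟩, ⟨2, 2, 0, 1040187392⟩] 1 0 2 0 2 (sgb true) (sgb false) x := by
  obtain ⟨x0, x1⟩ := xr hx hx'
  intro y y' F h
  obtain ⟨h2, h1, h3, gy, gz⟩ := winM h
  exact WmolN_B_102_02_5_p (sideF hx hx') (sideN hx hx') hκ x0 x1 F (h2.trans_eq (by norm_num)) (h1.trans_eq (by norm_num)) (h3.trans_eq (by norm_num)) ⟨lt_of_eq_of_lt (by norm_num) gy.1, lt_of_lt_of_eq gy.2 (by norm_num)⟩ ⟨lt_of_eq_of_lt (by norm_num) gz.1, lt_of_lt_of_eq gz.2 (by norm_num)⟩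
theorem gN_T50 {x u b κ : ℝ} (hF : SideOk PP tKF tL pcF x) (hN : SideOk PP tKN tL pcN x) (hκ : κ * h0 = ken x)
    (x0 : 3 / 64 ≤ x) (x1 : x ≤ 1 / 16) (h1 : |u| < 3 / 128) (h2 : |b| < 1 / 128) (h3 : |u + b| < 3 / 128) (wy : 1 / 32 < x + u ∧ x + u < 5 / 64) (wz : 1 / 32 < x + u + b ∧ x + u + b < 5 / 64) (F : FactsB PP 2 0 2 0 2 1 (-1) (1 + b) (x + u)) :
    StB (VN 3 κ) PP tKN tL pcN 2 0 2 0 2 1 (-1) x (1 + b) (x + u) := by
  have qs := F.q1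
  have q0 := F.q2
  obtain ⟨u1, u2⟩ := abs_lt.1 h1
  obtain ⟨b1, b2⟩ := abs_lt.1 h2
  obtain ⟨v1, v2⟩ := abs_lt.1 h3
  obtain ⟨y1, y2⟩ := wy
  obtain ⟨z1, z2⟩ := wz
  have hb : 0 ≤ b := by linarith [qs.1]
  have hY : 1 + b + (x + u) = 1 + (x + u + b) := by ring
  have q3 : InQ 2 (1 + (x + u + b)) := hY ▸ F.q3
  have hs1 := F.j0 rfl
  have hXj : crv PP 0 2 (1 + b) = c1n (1 + b) := crv0 2 (1 + b)
  have xs1 : c1n (1 + b) ≤ 1 / 2 := c1n_half hb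
  have xs0 : 0 ≤ c1n (1 + b) := Mol.c1n_nn (1 + b)
  have hX : crv PP 2 2 (1 + b + (x + u)) = c1n (x + u + b) - 1 / 2 := by rw [hY]; exact wX2 _
  have cz : 1 / 2 ≤ c1n (x + u + b) := by
    have := c1n_le' (y := x + u + b) (z := 1) (by linarith) (by linarith)
    rwa [c1n_one] at this
  rcases hb.eq_or_lt with hb0 | hb0
  · subst hb0
    obtain ⟨r1, r2⟩ := rX x0 x1
    have D : DomA u 0 x := ⟨by linarith, by linarith, by linarith, by linarith, by linarith, by linarith, by linarith, by linarith⟩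
    have K := Cht3.cert (ng := false) (r := 33554432) ct_1Apk1 (u := u) (b := 0) (x := x) (by unfold S; norm_num; linarith) (by unfold S; norm_num; linarith) (by simp only [cond_true, cond_false]; linarith) (by simp only [cond_true, cond_false]; unfold S; norm_num) r1 r2
    have hs : ∀ G ∈ sk_Apk1, G.v u 0 x ≤ 0 := skPM (A := true) (v := 33554432) (u := u) (b := 0) (x := x) (abs_le.2 ⟨by simp only [cond_true, cond_false]; unfold S; norm_num; linarith, by simp only [cond_true, cond_false]; unfold S; norm_num; linarith⟩)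
    obtain ⟨p1, p2⟩ := psr (y := x + u) y1.le y2.le
    have hit : ((T_Apk1.a true).at_ u 0 x).it * (x + u + 0) = 1 := by
      show (x + u + 0)⁻¹ * _ = _
      exact inv_mul_cancel₀ (ne_of_gt (by linarith))
    simp only [add_zero] at qs hXj hX q3 hs1 z1 z2
    have hXj' : crv PP 0 2 1 = 1 / 2 := by
      rw [hXj]
      exact c1n_one
    have qs' : InQ 2 (1 + 0) := by rw [add_zero]; exact qs
    have hs1' : h0 * (1 + 0) < 1 := by rw [add_zero]; exact hs1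
    have kK : tKF 0 2 1 x = 1 / 2 := by
      have k := spK (b := 0) (x := x) u le_rfl qs' hs1' (by norm_num)
      rwa [zero_mul, add_zero, add_zero] at k
    have kL : tL 0 2 1 x = 0 := by
      have k := spL (b := 0) (x := x) u le_rfl qs' hs1' (by norm_num)
      rwa [zero_mul, add_zero] at k
    have t3 := t3A2 (u := u) (b := 0) (x := x) (by rw [show x + u + (1 + 0) = 1 + (x + u) by ring]; exact q3)
    have kD : kpc02.v (c1n 1) x = 0 := by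
      have k := spD (b := 0) (x := x) u le_rfl hs1' (by norm_num)
      rwa [zero_mul, add_zero] at k
    have kN : tKN 0 2 1 x = (1 + mun 3 x * cR x) * tKF 0 2 1 x + mun 3 x * kpc02.v (c1n 1) x := by
      have k := spN (b := 0) (x := x) le_rfl qs' hs1'
      rwa [add_zero] at k
    have k := near5z (b' := 0) (a := 2) (c := 2) (j := 0) (k := 2) (M := T_Apk1.a true) (sk := sk_Apk1) (cx := cx_Apk1) (kc := kcg.v (psn (x + u)) x) D hκ hit rfl (t1_0 q0) t3 (show crv PP 2 2 (1 + (x + u)) = c1n (x + u) - 1 / 2 from hX) hXj' K hs (kcb y1.le y2.le x0 x1) (sB := -(pcF 0).K.v (-c1n (x + u)) (x + u) x) (sD := -(((pcN 0).K.v (-c1n (x + u)) (x + u) x - (1 + mun 3 x * cR x) * (pcF 0).K.v (-c1n (x + u)) (x + u) x) / mun 3 x))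
      (wB := tKF 2 2 (1 + (x + u)) x) (wD := kp2q2.v (1 + (x + u)) x)
      (by
        have k := div_mun (f := (pcN 0).K.v (-c1n (x + u)) (x + u) x) (g := (pcF 0).K.v (-c1n (x + u)) (x + u) x) (c := 1 + mun 3 x * cR x) (x := x)
        exact k.trans (by ring))
      (wN2 q3) kN (by rw [sZK hF q0 (by nlinarith), kf0_t0 (by linarith) (by linarith), neg_neg]) (by rw [sZD hF hN q0 (by nlinarith), kp0_t0 (by linarith) (by linarith) (lt_of_lt_of_le (by norm_num) p1) (p2.trans (by norm_num)), neg_neg])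
      (wK2 q3 z1 z2) (wD2 q3 z1 z2) kK kD (by show (pcF 0).L.v (-c1n (x + u)) (x + u) x = _; rw [sZL hF q0 (by nlinarith), l0_t0 (lt_of_lt_of_le (by norm_num) p1) (p2.trans (by norm_num))]) (wL2 q3 z1 z2) kL
    rw [add_zero]
    exact k
  · exfalso
    have l1 := F.len1
    have e : (-1 : ℝ) * crv PP 2 2 (1 + b + (x + u)) - 1 * crv PP 0 2 (1 + b) = -(c1n (1 + b) + (c1n (x + u + b) - 1 / 2)) := by
      rw [hX, hXj]
      ring
    rw [e] at l1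
    exact vac_s (y := x + u) (z := x + u + b) (by linarith) (by linarith) (by linarith) (by linarith) (by linarith) l1
theorem WmolN_B_202_02_5_p {x κ y y' : ℝ} (hF : SideOk PP tKF tL pcF x) (hN : SideOk PP tKN tL pcN x) (hκ : κ * h0 = ken x) (x0 : 3 / 64 ≤ x) (x1 : x ≤ 1 / 16)
    (F : FactsB PP 2 0 2 0 2 1 (-1) y y') (h2 : |y - 1| < 1 / 128) (h1 : |y' - x| < 3 / 128) (h3 : |y + y' - (1 + x)| < 3 / 128) (gy : 1 / 32 < y' ∧ y' < 5 / 64) (gz : 33 / 32 < y + y' ∧ y + y' < 69 / 64) :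
    StB (VN 3 κ) PP tKN tL pcN 2 0 2 0 2 1 (-1) x y y' := by
  obtain ⟨u, rfl⟩ : ∃ u, y' = x + u := ⟨y' - x, by ring⟩
  obtain ⟨b, rfl⟩ : ∃ b, y = 1 + b := ⟨y - 1, by ring⟩
  rw [show x + u - x = u by ring] at h1
  rw [show 1 + b - 1 = b by ring] at h2
  rw [show 1 + b + (x + u) - (1 + x) = u + b by ring] at h3
  have wy := gy
  have wz : 1 / 32 < x + u + b ∧ x + u + b < 5 / 64 := ⟨by linarith [gz.1], by linarith [gz.2]⟩
  exact gN_T50 hF hN hκ x0 x1 h1 h2 h3 wy wz F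
theorem molN_B_202_02_5 {κ x : ℝ} (hκ : κ * h0 = ken x) (hx : ((50331648 : ℕ) : ℝ) / S ≤ x) (hx' : x ≤ (((50331648 : ℕ) : ℝ) + (16777216 : ℕ)) / S) :
    AltB (VN 3 κ) PP tKN tL pcN [⟨0, 1, 0, 8388608⟩, ⟨1, 0, 1, 25165824⟩, ⟨2, 1, 1, 25165824⟩, ⟨1, 0, 0, 83886080⟩, ⟨1, 1, 0, 1040187392⟩, ⟨2, 1, 0, 83886080⟩, ⟨2, 2, 0, 1040187392⟩] 2 0 2 0 2 (sgb true) (sgb false) x := by
  obtain ⟨x0, x1⟩ := xr hx hx'
  intro y y' F h
  obtain ⟨h2, h1, h3, gy, gz⟩ := winM h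
  exact WmolN_B_202_02_5_p (sideF hx hx') (sideN hx hx') hκ x0 x1 F (h2.trans_eq (by norm_num)) (h1.trans_eq (by norm_num)) (h3.trans_eq (by norm_num)) ⟨lt_of_eq_of_lt (by norm_num) gy.1, lt_of_lt_of_eq gy.2 (by norm_num)⟩ ⟨lt_of_eq_of_lt (by norm_num) gz.1, lt_of_lt_of_eq gz.2 (by norm_num)⟩
theorem gN_T51 {x u b κ : ℝ} (hF : SideOk PP tKF tL pcF x) (hN : SideOk PP tKN tL pcN x) (hκ : κ * h0 = ken x)
    (x0 : 3 / 64 ≤ x) (x1 : x ≤ 1 / 16) (h1 : |u| < 1 / 32) (h2 : |b| < 1 / 64) (h3 : |u + b| < 1 / 32) (wy : 1 / 32 < x + u ∧ x + u < 5 / 64) (wz : 1 / 32 < x + u + b ∧ x + u + b < 5 / 64) (F : FactsB PP 2 0 2 1 2 1 (-1) (1 + b) (x + u)) :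
    StB (VN 3 κ) PP tKN tL pcN 2 0 2 1 2 1 (-1) x (1 + b) (x + u) := by
  have qs := F.q1
  have q0 := F.q2
  obtain ⟨u1, u2⟩ := abs_lt.1 h1
  obtain ⟨b1, b2⟩ := abs_lt.1 h2
  obtain ⟨v1, v2⟩ := abs_lt.1 h3
  obtain ⟨y1, y2⟩ := wy
  obtain ⟨z1, z2⟩ := wz
  have hb : 0 ≤ b := by linarith [qs.1]
  have hY : 1 + b + (x + u) = 1 + (x + u + b) := by ring
  have q3 : InQ 2 (1 + (x + u + b)) := hY ▸ F.q3
  have hXj : crv PP 1 2 (1 + b) = (fXS 2 3 5).v u b x := sX1 u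
  have xs1 : (fXS 2 3 5).v u b x ≤ 1 / 2 := fXS_le (by norm_num) hb
  have xs0 : 0 ≤ (fXS 2 3 5).v u b x := fXS_nn hb (by linarith)
  have hX : crv PP 2 2 (1 + b + (x + u)) = c1n (x + u + b) - 1 / 2 := by rw [hY]; exact wX2 _
  have cz : 1 / 2 ≤ c1n (x + u + b) := by
    have := c1n_le' (y := x + u + b) (z := 1) (by linarith) (by linarith)
    rwa [c1n_one] at this
  rcases hb.eq_or_lt with hb0 | hb0
  · subst hb0
    obtain ⟨r1, r2⟩ := rX x0 x1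
    have D : DomA u 0 x := ⟨by linarith, by linarith, by linarith, by linarith, by linarith, by linarith, by linarith, by linarith⟩
    have K := Cht3.cert (ng := false) (r := 33554432) ct_1Apk1 (u := u) (b := 0) (x := x) (by unfold S; norm_num; linarith) (by unfold S; norm_num; linarith) (by simp only [cond_true, cond_false]; linarith) (by simp only [cond_true, cond_false]; unfold S; norm_num) r1 r2
    have hs : ∀ G ∈ sk_Apk1, G.v u 0 x ≤ 0 := skPM (A := true) (v := 33554432) (u := u) (b := 0) (x := x) (abs_le.2 ⟨by simp only [cond_true, cond_false]; unfold S; norm_num; linarith, by simp only [cond_true, cond_false]; unfold S; norm_num; linarith⟩)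
    obtain ⟨p1, p2⟩ := psr (y := x + u) y1.le y2.le
    have hit : ((T_Apk1.a true).at_ u 0 x).it * (x + u + 0) = 1 := by
      show (x + u + 0)⁻¹ * _ = _
      exact inv_mul_cancel₀ (ne_of_gt (by linarith))
    simp only [add_zero] at qs hXj hX q3 z1 z2
    have hXj' : crv PP 1 2 1 = 1 / 2 := by
      rw [hXj]
      exact (stK_x (r := 2) (p := 3) (q := 5) (s := rK1) (sx := rX1) (sd := rD1) (u := u) (b := 0) (x := x) (by norm_num) (by norm_num) (by norm_num)).trans (by rw [zero_mul, add_zero])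
    have qs' : InQ 2 (1 + 0) := by rw [add_zero]; exact qs
    have kK : tKF 1 2 1 x = 1 / 2 := by
      have k := sk1K (b := 0) (x := x) u le_rfl qs' (by norm_num)
      rwa [zero_mul, add_zero, add_zero] at k
    have kL : tL 1 2 1 x = 0 := by
      have k := sk1L (b := 0) (x := x) u le_rfl qs' (by norm_num)
      rwa [zero_mul, add_zero] at k
    have t3 := t3A2 (u := u) (b := 0) (x := x) (by rw [show x + u + (1 + 0) = 1 + (x + u) by ring]; exact q3)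
    have kD : kp1q2.v 1 x = 0 := by
      have k := sk1D (b := 0) (x := x) u le_rfl (by norm_num)
      rwa [zero_mul, add_zero] at k
    have kN : tKN 1 2 1 x = (1 + mun 3 x * cR x) * tKF 1 2 1 x + mun 3 x * kp1q2.v 1 x := by
      have k := sk1N (b := 0) (x := x) qs'
      rwa [add_zero] at k
    have k := near5z (b' := 0) (a := 2) (c := 2) (j := 1) (k := 2) (M := T_Apk1.a true) (sk := sk_Apk1) (cx := cx_Apk1) (kc := kcg.v (psn (x + u)) x) D hκ hit rfl (t1_0 q0) t3 (show crv PP 2 2 (1 + (x + u)) = c1n (x + u) - 1 / 2 from hX) hXj' K hs (kcb y1.le y2.le x0 x1) (sB := -(pcF 0).K.v (-c1n (x + u)) (x + u) x) (sD := -(((pcN 0).K.v (-c1n (x + u)) (x + u) x - (1 + mun 3 x * cR x) * (pcF 0).K.v (-c1n (x + u)) (x + u) x) / mun 3 x))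
      (wB := tKF 2 2 (1 + (x + u)) x) (wD := kp2q2.v (1 + (x + u)) x)
      (by
        have k := div_mun (f := (pcN 0).K.v (-c1n (x + u)) (x + u) x) (g := (pcF 0).K.v (-c1n (x + u)) (x + u) x) (c := 1 + mun 3 x * cR x) (x := x)
        exact k.trans (by ring))
      (wN2 q3) kN (by rw [sZK hF q0 (by nlinarith), kf0_t0 (by linarith) (by linarith), neg_neg]) (by rw [sZD hF hN q0 (by nlinarith), kp0_t0 (by linarith) (by linarith) (lt_of_lt_of_le (by norm_num) p1) (p2.trans (by norm_num)), neg_neg])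
      (wK2 q3 z1 z2) (wD2 q3 z1 z2) kK kD (by show (pcF 0).L.v (-c1n (x + u)) (x + u) x = _; rw [sZL hF q0 (by nlinarith), l0_t0 (lt_of_lt_of_le (by norm_num) p1) (p2.trans (by norm_num))]) (wL2 q3 z1 z2) kL
    rw [add_zero]
    exact k
  · exfalso
    have l1 := F.len1
    have e : (-1 : ℝ) * crv PP 2 2 (1 + b + (x + u)) - 1 * crv PP 1 2 (1 + b) = -((fXS 2 3 5).v u b x + (c1n (x + u + b) - 1 / 2)) := by
      rw [hX, hXj]
      ring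
    rw [e] at l1
    exact vac_s (y := x + u) (z := x + u + b) (by linarith) (by linarith) (by linarith) (by linarith) (by linarith) l1
theorem WmolN_B_202_12_5_p {x κ y y' : ℝ} (hF : SideOk PP tKF tL pcF x) (hN : SideOk PP tKN tL pcN x) (hκ : κ * h0 = ken x) (x0 : 3 / 64 ≤ x) (x1 : x ≤ 1 / 16)
    (F : FactsB PP 2 0 2 1 2 1 (-1) y y') (h2 : |y - 1| < 1 / 64) (h1 : |y' - x| < 1 / 32) (h3 : |y + y' - (1 + x)| < 1 / 32) (gy : 1 / 32 < y' ∧ y' < 5 / 64) (gz : 33 / 32 < y + y' ∧ y + y' < 69 / 64) :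
    StB (VN 3 κ) PP tKN tL pcN 2 0 2 1 2 1 (-1) x y y' := by
  obtain ⟨u, rfl⟩ : ∃ u, y' = x + u := ⟨y' - x, by ring⟩
  obtain ⟨b, rfl⟩ : ∃ b, y = 1 + b := ⟨y - 1, by ring⟩
  rw [show x + u - x = u by ring] at h1
  rw [show 1 + b - 1 = b by ring] at h2
  rw [show 1 + b + (x + u) - (1 + x) = u + b by ring] at h3
  have wy := gy
  have wz : 1 / 32 < x + u + b ∧ x + u + b < 5 / 64 := ⟨by linarith [gz.1], by linarith [gz.2]⟩
  exact gN_T51 hF hN hκ x0 x1 h1 h2 h3 wy wz F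
theorem molN_B_202_12_5 {κ x : ℝ} (hκ : κ * h0 = ken x) (hx : ((50331648 : ℕ) : ℝ) / S ≤ x) (hx' : x ≤ (((50331648 : ℕ) : ℝ) + (16777216 : ℕ)) / S) :
    AltB (VN 3 κ) PP tKN tL pcN [⟨0, 1, 0, 16777216⟩, ⟨1, 0, 1, 33554432⟩, ⟨2, 1, 1, 33554432⟩, ⟨1, 0, 0, 83886080⟩, ⟨1, 1, 0, 1040187392⟩, ⟨2, 1, 0, 83886080⟩, ⟨2, 2, 0, 1040187392⟩] 2 0 2 1 2 (sgb true) (sgb false) x := by
  obtain ⟨x0, x1⟩ := xr hx hx'
  intro y y' F h
  obtain ⟨h2, h1, h3, gy, gz⟩ := winM h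
  exact WmolN_B_202_12_5_p (sideF hx hx') (sideN hx hx') hκ x0 x1 F (h2.trans_eq (by norm_num)) (h1.trans_eq (by norm_num)) (h3.trans_eq (by norm_num)) ⟨lt_of_eq_of_lt (by norm_num) gy.1, lt_of_lt_of_eq gy.2 (by norm_num)⟩ ⟨lt_of_eq_of_lt (by norm_num) gz.1, lt_of_lt_of_eq gz.2 (by norm_num)⟩
theorem gN_T52 {x u b κ : ℝ} (hF : SideOk PP tKF tL pcF x) (hN : SideOk PP tKN tL pcN x) (hκ : κ * h0 = ken x)
    (x0 : 3 / 64 ≤ x) (x1 : x ≤ 1 / 16) (h1 : |u| < 1 / 32) (h2 : |b| < 1 / 64) (h3 : |u + b| < 1 / 32) (wy : 1 / 32 < x + u ∧ x + u < 5 / 64) (wz : 1 / 32 < x + u + b ∧ x + u + b < 5 / 64) (F : FactsB PP 2 0 2 2 2 1 (-1) (1 + b) (x + u)) :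
    StB (VN 3 κ) PP tKN tL pcN 2 0 2 2 2 1 (-1) x (1 + b) (x + u) := by
  have qs := F.q1
  have q0 := F.q2
  obtain ⟨u1, u2⟩ := abs_lt.1 h1
  obtain ⟨b1, b2⟩ := abs_lt.1 h2
  obtain ⟨v1, v2⟩ := abs_lt.1 h3
  obtain ⟨y1, y2⟩ := wy
  obtain ⟨z1, z2⟩ := wz
  have hb : 0 ≤ b := by linarith [qs.1]
  have hY : 1 + b + (x + u) = 1 + (x + u + b) := by ring
  have q3 : InQ 2 (1 + (x + u + b)) := hY ▸ F.q3
  have hXj : crv PP 2 2 (1 + b) = (fXS 0 1 1).v u b x := sX2 u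
  have xs1 : (fXS 0 1 1).v u b x ≤ 1 / 2 := fXS_le (by norm_num) hb
  have xs0 : 0 ≤ (fXS 0 1 1).v u b x := fXS_nn hb (by linarith)
  have hX : crv PP 2 2 (1 + b + (x + u)) = c1n (x + u + b) - 1 / 2 := by rw [hY]; exact wX2 _
  have cz : 1 / 2 ≤ c1n (x + u + b) := by
    have := c1n_le' (y := x + u + b) (z := 1) (by linarith) (by linarith)
    rwa [c1n_one] at this
  rcases hb.eq_or_lt with hb0 | hb0
  · subst hb0
    obtain ⟨r1, r2⟩ := rX x0 x1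
    have D : DomA u 0 x := ⟨by linarith, by linarith, by linarith, by linarith, by linarith, by linarith, by linarith, by linarith⟩
    have K := Cht3.cert (ng := false) (r := 33554432) ct_1Apk1 (u := u) (b := 0) (x := x) (by unfold S; norm_num; linarith) (by unfold S; norm_num; linarith) (by simp only [cond_true, cond_false]; linarith) (by simp only [cond_true, cond_false]; unfold S; norm_num) r1 r2
    have hs : ∀ G ∈ sk_Apk1, G.v u 0 x ≤ 0 := skPM (A := true) (v := 33554432) (u := u) (b := 0) (x := x) (abs_le.2 ⟨by simp only [cond_true, cond_false]; unfold S; norm_num; linarith, by simp only [cond_true, cond_false]; unfold S; norm_num; linarith⟩)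
    obtain ⟨p1, p2⟩ := psr (y := x + u) y1.le y2.le
    have hit : ((T_Apk1.a true).at_ u 0 x).it * (x + u + 0) = 1 := by
      show (x + u + 0)⁻¹ * _ = _
      exact inv_mul_cancel₀ (ne_of_gt (by linarith))
    simp only [add_zero] at qs hXj hX q3 z1 z2
    have hXj' : crv PP 2 2 1 = 1 / 2 := by
      rw [hXj]
      exact (stK_x (r := 0) (p := 1) (q := 1) (s := rK2) (sx := rX2) (sd := rD2) (u := u) (b := 0) (x := x) (by norm_num) (by norm_num) (by norm_num)).trans (by rw [zero_mul, add_zero])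
    have qs' : InQ 2 (1 + 0) := by rw [add_zero]; exact qs
    have kK : tKF 2 2 1 x = 1 / 2 := by
      have k := sk2K (b := 0) (x := x) u le_rfl qs' (by norm_num)
      rwa [zero_mul, add_zero, add_zero] at k
    have kL : tL 2 2 1 x = 0 := by
      have k := sk2L (b := 0) (x := x) u le_rfl qs' (by norm_num)
      rwa [zero_mul, add_zero] at k
    have t3 := t3A2 (u := u) (b := 0) (x := x) (by rw [show x + u + (1 + 0) = 1 + (x + u) by ring]; exact q3)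
    have kD : kp2q2.v 1 x = 0 := by
      have k := sk2D (b := 0) (x := x) u le_rfl (by norm_num)
      rwa [zero_mul, add_zero] at k
    have kN : tKN 2 2 1 x = (1 + mun 3 x * cR x) * tKF 2 2 1 x + mun 3 x * kp2q2.v 1 x := by
      have k := sk2N (b := 0) (x := x) qs'
      rwa [add_zero] at k
    have k := near5z (b' := 0) (a := 2) (c := 2) (j := 2) (k := 2) (M := T_Apk1.a true) (sk := sk_Apk1) (cx := cx_Apk1) (kc := kcg.v (psn (x + u)) x) D hκ hit rfl (t1_0 q0) t3 (show crv PP 2 2 (1 + (x + u)) = c1n (x + u) - 1 / 2 from hX) hXj' K hs (kcb y1.le y2.le x0 x1) (sB := -(pcF 0).K.v (-c1n (x + u)) (x + u) x) (sD := -(((pcN 0).K.v (-c1n (x + u)) (x + u) x - (1 + mun 3 x * cR x) * (pcF 0).K.v (-c1n (x + u)) (x + u) x) / mun 3 x))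
      (wB := tKF 2 2 (1 + (x + u)) x) (wD := kp2q2.v (1 + (x + u)) x)
      (by
        have k := div_mun (f := (pcN 0).K.v (-c1n (x + u)) (x + u) x) (g := (pcF 0).K.v (-c1n (x + u)) (x + u) x) (c := 1 + mun 3 x * cR x) (x := x)
        exact k.trans (by ring))
      (wN2 q3) kN (by rw [sZK hF q0 (by nlinarith), kf0_t0 (by linarith) (by linarith), neg_neg]) (by rw [sZD hF hN q0 (by nlinarith), kp0_t0 (by linarith) (by linarith) (lt_of_lt_of_le (by norm_num) p1) (p2.trans (by norm_num)), neg_neg])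
      (wK2 q3 z1 z2) (wD2 q3 z1 z2) kK kD (by show (pcF 0).L.v (-c1n (x + u)) (x + u) x = _; rw [sZL hF q0 (by nlinarith), l0_t0 (lt_of_lt_of_le (by norm_num) p1) (p2.trans (by norm_num))]) (wL2 q3 z1 z2) kL
    rw [add_zero]
    exact k
  · exfalso
    have l1 := F.len1
    have e : (-1 : ℝ) * crv PP 2 2 (1 + b + (x + u)) - 1 * crv PP 2 2 (1 + b) = -((fXS 0 1 1).v u b x + (c1n (x + u + b) - 1 / 2)) := by
      rw [hX, hXj]
      ring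
    rw [e] at l1
    exact vac_s (y := x + u) (z := x + u + b) (by linarith) (by linarith) (by linarith) (by linarith) (by linarith) l1
theorem WmolN_B_202_22_5_p {x κ y y' : ℝ} (hF : SideOk PP tKF tL pcF x) (hN : SideOk PP tKN tL pcN x) (hκ : κ * h0 = ken x) (x0 : 3 / 64 ≤ x) (x1 : x ≤ 1 / 16)
    (F : FactsB PP 2 0 2 2 2 1 (-1) y y') (h2 : |y - 1| < 1 / 64) (h1 : |y' - x| < 1 / 32) (h3 : |y + y' - (1 + x)| < 1 / 32) (gy : 1 / 32 < y' ∧ y' < 5 / 64) (gz : 33 / 32 < y + y' ∧ y + y' < 69 / 64) :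
    StB (VN 3 κ) PP tKN tL pcN 2 0 2 2 2 1 (-1) x y y' := by
  obtain ⟨u, rfl⟩ : ∃ u, y' = x + u := ⟨y' - x, by ring⟩
  obtain ⟨b, rfl⟩ : ∃ b, y = 1 + b := ⟨y - 1, by ring⟩
  rw [show x + u - x = u by ring] at h1
  rw [show 1 + b - 1 = b by ring] at h2
  rw [show 1 + b + (x + u) - (1 + x) = u + b by ring] at h3
  have wy := gy
  have wz : 1 / 32 < x + u + b ∧ x + u + b < 5 / 64 := ⟨by linarith [gz.1], by linarith [gz.2]⟩
  exact gN_T52 hF hN hκ x0 x1 h1 h2 h3 wy wz F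
theorem molN_B_202_22_5 {κ x : ℝ} (hκ : κ * h0 = ken x) (hx : ((50331648 : ℕ) : ℝ) / S ≤ x) (hx' : x ≤ (((50331648 : ℕ) : ℝ) + (16777216 : ℕ)) / S) :
    AltB (VN 3 κ) PP tKN tL pcN [⟨0, 1, 0, 16777216⟩, ⟨1, 0, 1, 33554432⟩, ⟨2, 1, 1, 33554432⟩, ⟨1, 0, 0, 83886080⟩, ⟨1, 1, 0, 1040187392⟩, ⟨2, 1, 0, 83886080⟩, ⟨2, 2, 0, 1040187392⟩] 2 0 2 2 2 (sgb true) (sgb false) x := by
  obtain ⟨x0, x1⟩ := xr hx hx'
  intro y y' F h
  obtain ⟨h2, h1, h3, gy, gz⟩ := winM h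
  exact WmolN_B_202_22_5_p (sideF hx hx') (sideN hx hx') hκ x0 x1 F (h2.trans_eq (by norm_num)) (h1.trans_eq (by norm_num)) (h3.trans_eq (by norm_num)) ⟨lt_of_eq_of_lt (by norm_num) gy.1, lt_of_lt_of_eq gy.2 (by norm_num)⟩ ⟨lt_of_eq_of_lt (by norm_num) gz.1, lt_of_lt_of_eq gz.2 (by norm_num)⟩
theorem fN_T7 {x u b κ y' : ℝ} (hF : SideOk PP tKF tL pcF x) (hN : SideOk PP tKN tL pcN x) (hκ : κ * h0 = ken x)
    (x0 : 3 / 64 ≤ x) (x1 : x ≤ 1 / 16) (h1 : |u| < 1 / 32) (h2 : |b| < 15 / 1024) (h3 : |u - b| < 1 / 32) (wy : 1 / 32 < x + u ∧ x + u < 5 / 64) (wz : 1 / 32 < x + u - b ∧ x + u - b < 5 / 64) (hy : y' = 1 + b - (x + u)) (F : FactsB PP 1 0 2 2 0 1 1 y' (x + u)) :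
    StB (VN 3 κ) PP tKN tL pcN 1 0 2 2 0 1 1 x y' (x + u) := by
  have e0 : y' + (x + u) = 1 + b := by rw [hy]; ring
  have qs : InQ 2 (1 + b) := e0 ▸ F.q3
  have hs1 : h0 * (1 + b) < 1 := e0 ▸ F.k0 rfl
  have q0 := F.q2
  obtain ⟨u1, u2⟩ := abs_lt.1 h1
  obtain ⟨b1, b2⟩ := abs_lt.1 h2
  obtain ⟨v1, v2⟩ := abs_lt.1 h3
  obtain ⟨y1, y2⟩ := wy
  obtain ⟨z1, z2⟩ := wz
  have hb : 0 ≤ b := by linarith [qs.1]
  have D : DomB u b x := ⟨by linarith, by linarith, by linarith, by linarith, by linarith, by linarith, by linarith, by linarith⟩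
  obtain ⟨p1, p2⟩ := psr (y := x + u) y1.le y2.le
  obtain ⟨p3, p4⟩ := psr (y := x + u - b) z1.le z2.le
  have hd := dqBp (dq_t x) hb (by linarith) (by linarith) (by linarith) (by linarith) p1 p2 p3 p4
  obtain ⟨r1, r2⟩ := rX x0 x1
  have K := Cht3.cert (ng := false) (r := 33554432) ct_1T7 (u := u) (b := b) (x := x) (by unfold S; norm_num; linarith) (by unfold S; norm_num; linarith) (by simp only [cond_true, cond_false]; linarith) (by simp only [cond_true, cond_false]; unfold S; norm_num; linarith) r1 r2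
  have hs : ∀ G ∈ sk_T7, G.v u b x ≤ 0 := skPM (A := false) (v := 33554432) (u := u) (b := b) (x := x) (abs_le.2 ⟨by simp only [cond_true, cond_false]; unfold S; norm_num; linarith, by simp only [cond_true, cond_false]; unfold S; norm_num; linarith⟩)
  have hit : ((shF (T_T7.b true) (fp1 false T_T7.st.ws fnB) gK gX gD).at_ u b x).it * (x + u - b) = -1 := by
    show -(x + u - b)⁻¹ * _ = _
    rw [neg_mul, inv_mul_cancel₀ (ne_of_gt (by linarith))]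
  have hY : y' = 1 - (x + u - b) := by rw [hy]; ring
  have q2 : InQ 1 (1 - (x + u - b)) := hY ▸ F.q1
  have hX : crv PP 2 1 y' = c1n (x + u - b) + 1 / 2 := by rw [hY]; exact wX1 _
  have hx : sp.xs.v u b x = 1 / 2 + b * sp.ws.v u b x := stP_x (by linarith) (by linarith)
  have hXk : crv PP 0 2 (1 + b) = sp.xs.v u b x := crv0 2 (1 + b)
  have hcz := fnB_e D
  have eX : c1n (x + u) + b * (fp1 false T_T7.st.ws fnB).v u b x = c1n (x + u - b) + 1 / 2 - sp.xs.v u b x := by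
    rw [hx]
    show c1n (x + u) + b * (fnB.v u b x - sp.ws.v u b x) = _
    linear_combination -hcz
  have cm1 : sp.xs.v u b x ≤ 1 / 2 := c1n_half hb
  have xpos : 0 < c1n (x + u) + b * (fp1 false T_T7.st.ws fnB).v u b x := by
    rw [eX]
    have := c1n_pos' (y := x + u - b) (by nlinarith)
    linarith
  have xne := xpos.ne'
  have od : 1 ≤ qqn (c1n (x + u) + b * (fp1 false T_T7.st.ws fnB).v u b x) (x + u) ∧ qqn (c1n (x + u) + b * (fp1 false T_T7.st.ws fnB).v u b x) (x + u) ≤ 3 := by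
    have l1 := F.len1
    have l3 := F.len3
    have e : (1 : ℝ) * crv PP 0 2 (y' + (x + u)) - 1 * crv PP 2 1 y' = -(c1n (x + u) + b * (fp1 false T_T7.st.ws fnB).v u b x) := by
      rw [hX, e0, hXk, eX]
      ring
    rw [e, qqn_neg] at l1 l3
    exact ⟨l1, l3⟩
  have hc1 : c1n (x + u) ≤ c1n (x + u) + b * (fp1 false T_T7.st.ws fnB).v u b x := c1_le od.1 xpos.le
  have K1 : (∀ G ∈ cx_T7, 0 < G.v u b x) → (pcF 0).K.v (-(c1n (x + u) + b * (fp1 false T_T7.st.ws fnB).v u b x)) (x + u) x = -((c1n (x + u) * cG (x + u) + kcg.v (psn (x + u)) x) * (x + u) + b * (f1s (fp1 false T_T7.st.ws fnB) gK).v u b x) := fun hc => by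
    have t1 : 0 < cv2m.v (x + u) - (c1n (x + u) + b * (fp1 false T_T7.st.ws fnB).v u b x) := hc (f1t p_T7 (tCX cv2m)) (by unfold cx_T7; simp)
    have t0 : 0 < cv1m.v (x + u) - c1g.v (x + u) := hc (f1t p_T7 (tCC cv1m c1g)) (by unfold cx_T7; simp)
    have k1 : kf0q0.v (x + u) x = (c1n (x + u) * cG (x + u) + kcg.v (psn (x + u)) x) * (x + u) := kf0_t0 (by linarith) (by linarith)
    have k2 : c1g.v (x + u) = c1n (x + u) := congrFun c1g_v _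
    rw [sSK hF q0 (by rw [k2]; exact hc1) t0 t1 od.1 od.2 xne, k1, k2]
    show -(_ + gK.v (c1n (x + u) + b * (fp1 false T_T7.st.ws fnB).v u b x) (x + u) x * (_ - _)) = -(_ + b * (gK.v (c1n (x + u) + b * (fp1 false T_T7.st.ws fnB).v u b x) (x + u) x * (fp1 false T_T7.st.ws fnB).v u b x))
    ring
  have L1 : (∀ G ∈ cx_T7, 0 < G.v u b x) → (pcF 0).L.v (-(c1n (x + u) + b * (fp1 false T_T7.st.ws fnB).v u b x)) (x + u) x = -(cQ x (x + u) (kcg.v (psn (x + u)) x) + b * (f1s (fp1 false T_T7.st.ws fnB) gX).v u b x) := fun hc => by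
    have t1 : 0 < cv2m.v (x + u) - (c1n (x + u) + b * (fp1 false T_T7.st.ws fnB).v u b x) := hc (f1t p_T7 (tCX cv2m)) (by unfold cx_T7; simp)
    have t0 : 0 < cv1m.v (x + u) - c1g.v (x + u) := hc (f1t p_T7 (tCC cv1m c1g)) (by unfold cx_T7; simp)
    have k1 : l0q0.v (x + u) x = cQ x (x + u) (kcg.v (psn (x + u)) x) := l0_t0 (lt_of_lt_of_le (by norm_num) p1) (p2.trans (by norm_num))
    have k2 : c1g.v (x + u) = c1n (x + u) := congrFun c1g_v _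
    rw [sSL hF q0 (by rw [k2]; exact hc1) t0 t1 od.1 od.2 xne, k1, k2]
    show -(_ + gX.v (c1n (x + u) + b * (fp1 false T_T7.st.ws fnB).v u b x) (x + u) x * (_ - _)) = -(_ + b * (gX.v (c1n (x + u) + b * (fp1 false T_T7.st.ws fnB).v u b x) (x + u) x * (fp1 false T_T7.st.ws fnB).v u b x))
    ring
  have D1 : (∀ G ∈ cx_T7, 0 < G.v u b x) → ((pcN 0).K.v (-(c1n (x + u) + b * (fp1 false T_T7.st.ws fnB).v u b x)) (x + u) x - (1 + mun 3 x * cR x) * (pcF 0).K.v (-(c1n (x + u) + b * (fp1 false T_T7.st.ws fnB).v u b x)) (x + u) x) / mun 3 x = -((cP (x + u) - (cR (x + u) + 2 * c1n (x + u)) * kcg.v (psn (x + u)) x) * (x + u) + b * (f1s (fp1 false T_T7.st.ws fnB) gD).v u b x) := fun hc => by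
    have t1 : 0 < cv2m.v (x + u) - (c1n (x + u) + b * (fp1 false T_T7.st.ws fnB).v u b x) := hc (f1t p_T7 (tCX cv2m)) (by unfold cx_T7; simp)
    have t0 : 0 < cv1m.v (x + u) - c1g.v (x + u) := hc (f1t p_T7 (tCC cv1m c1g)) (by unfold cx_T7; simp)
    have k1 : kp0q0.v (x + u) x = (cP (x + u) - (cR (x + u) + 2 * c1n (x + u)) * kcg.v (psn (x + u)) x) * (x + u) := kp0_t0 (by linarith) (by linarith) (lt_of_lt_of_le (by norm_num) p1) (p2.trans (by norm_num))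
    have k2 : c1g.v (x + u) = c1n (x + u) := congrFun c1g_v _
    rw [sSD hF hN q0 (by rw [k2]; exact hc1) t0 t1 od.1 od.2 xne, k1, k2]
    show -(_ + gD.v (c1n (x + u) + b * (fp1 false T_T7.st.ws fnB).v u b x) (x + u) x * (_ - _)) = -(_ + b * (gD.v (c1n (x + u) + b * (fp1 false T_T7.st.ws fnB).v u b x) (x + u) x * (fp1 false T_T7.st.ws fnB).v u b x))
    ring
  exact nearT7 (T := T_T7) (sk := sk_T7) (cx := cx_T7) D hb hκ hy hd hit (t1_0 q0) (t3B1 F.q1 hy) hx (fun _ _ => rfl) (fun _ _ => rfl) (fun _ _ => rfl) hX hXk K hs (kcb y1.le y2.le x0 x1) (sB := -(pcF 0).K.v (-(c1n (x + u) + b * (fp1 false T_T7.st.ws fnB).v u b x)) (x + u) x) (sD := -(((pcN 0).K.v (-(c1n (x + u) + b * (fp1 false T_T7.st.ws fnB).v u b x)) (x + u) x - (1 + mun 3 x * cR x) * (pcF 0).K.v (-(c1n (x + u) + b * (fp1 false T_T7.st.ws fnB).v u b x)) (x + u) x) / mun 3 x))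
    (wB := tKF 2 1 (1 - (x + u - b)) x) (wD := kp2q1.v (1 - (x + u - b)) x)
    (fun _ => by
      have k := div_mun (f := (pcN 0).K.v (-(c1n (x + u) + b * (fp1 false T_T7.st.ws fnB).v u b x)) (x + u) x) (g := (pcF 0).K.v (-(c1n (x + u) + b * (fp1 false T_T7.st.ws fnB).v u b x)) (x + u) x) (c := 1 + mun 3 x * cR x) (x := x)
      exact k.trans (by ring))
    (by rw [hY]; exact wN1 q2) (spN hb qs hs1) (fun hc => by rw [K1 hc]; exact neg_neg _) (fun hc => by rw [D1 hc]; exact neg_neg _) (wK1 q2 z1 z2) (wD1 q2 z1 z2) (spK u hb qs hs1 (by linarith)) (spD u hb hs1 (by linarith)) L1 (by rw [hY]; exact wL1 q2 z1 z2) (spL u hb qs hs1 (by linarith))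
theorem WmolN_B_102_20_7_p {x κ y y' : ℝ} (hF : SideOk PP tKF tL pcF x) (hN : SideOk PP tKN tL pcN x) (hκ : κ * h0 = ken x) (x0 : 3 / 64 ≤ x) (x1 : x ≤ 1 / 16)
    (F : FactsB PP 1 0 2 2 0 1 1 y y') (h3 : |y - (1 - x)| < 1 / 32) (h1 : |y' - x| < 1 / 32) (h2 : |y + y' - 1| < 15 / 1024) (gy : 1 / 32 < y' ∧ y' < 5 / 64) (gz : 59 / 64 < y ∧ y < 31 / 32) :
    StB (VN 3 κ) PP tKN tL pcN 1 0 2 2 0 1 1 x y y' := by
  obtain ⟨u, rfl⟩ : ∃ u, y' = x + u := ⟨y' - x, by ring⟩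
  obtain ⟨b, hy⟩ : ∃ b, y = 1 + b - (x + u) := ⟨y + (x + u) - 1, by ring⟩
  rw [show x + u - x = u by ring] at h1
  rw [show y + (x + u) - 1 = b by rw [hy]; ring] at h2
  rw [show y - (1 - x) = -(u - b) by rw [hy]; ring, abs_neg] at h3
  have wy := gy
  have wz : 1 / 32 < x + u - b ∧ x + u - b < 5 / 64 := ⟨by linarith [gz.2], by linarith [gz.1]⟩
  exact fN_T7 hF hN hκ x0 x1 h1 h2 h3 wy wz hy F
theorem molN_B_102_20_7 {κ x : ℝ} (hκ : κ * h0 = ken x) (hx : ((50331648 : ℕ) : ℝ) / S ≤ x) (hx' : x ≤ (((50331648 : ℕ) : ℝ) + (16777216 : ℕ)) / S) :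
    AltB (VN 3 κ) PP tKN tL pcN [⟨0, 1, 2, 33554432⟩, ⟨1, 0, 1, 33554432⟩, ⟨2, 1, 0, 15728640⟩, ⟨0, 0, 0, 1040187392⟩, ⟨0, 1, 0, 83886080⟩, ⟨1, 0, 0, 83886080⟩, ⟨1, 1, 0, 1040187392⟩] 1 0 2 2 0 (sgb true) (sgb true) x := by
  obtain ⟨x0, x1⟩ := xr hx hx'
  intro y y' F h
  obtain ⟨h3, h1, h2, gy, gz⟩ := winC h
  exact WmolN_B_102_20_7_p (sideF hx hx') (sideN hx hx') hκ x0 x1 F (h3.trans_eq (by norm_num)) (h1.trans_eq (by norm_num)) (h2.trans_eq (by norm_num)) ⟨lt_of_eq_of_lt (by norm_num) gy.1, lt_of_lt_of_eq gy.2 (by norm_num)⟩ ⟨lt_of_eq_of_lt (by norm_num) gz.2, lt_of_lt_of_eq gz.1 (by norm_num)⟩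
theorem vN_T7 {x u b κ y' : ℝ} (x0 : 3 / 64 ≤ x) (x1 : x ≤ 1 / 16) (h1 : |u| < 1 / 32) (h2 : |b| < 15 / 1024) (h3 : |u - b| < 1 / 32) (wy : 1 / 32 < x + u ∧ x + u < 5 / 64) (wz : 1 / 32 < x + u - b ∧ x + u - b < 5 / 64) (hy : y' = 1 + b - (x + u)) (F : FactsB PP 1 0 1 2 0 1 1 y' (x + u)) : False := by
  have e0 : y' + (x + u) = 1 + b := by rw [hy]; ring
  have qs : InQ 1 (1 + b) := e0 ▸ F.q3
  obtain ⟨u1, u2⟩ := abs_lt.1 h1
  obtain ⟨b1, b2⟩ := abs_lt.1 h2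
  obtain ⟨v1, v2⟩ := abs_lt.1 h3
  obtain ⟨y1, y2⟩ := wy
  obtain ⟨z1, z2⟩ := wz
  have hb : b < 0 := by linarith [qs.2]
  have hY : y' = 1 - (x + u - b) := by rw [hy]; ring
  have hX : crv PP 2 1 y' = c1n (x + u - b) + 1 / 2 := by rw [hY]; exact wX1 _
  have l1 := F.len1
  have e : (1 : ℝ) * crv PP 0 1 (y' + (x + u)) - 1 * crv PP 2 1 y' = -(c1n (x + u - b) + 1 / 2 - c1n (1 + b)) := by
    rw [hX, e0, crv0]
    ring
  rw [e] at l1
  have k1 : 1 / 2 ≤ c1n (1 + b) := c1n_half' hb.le (by linarith)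
  have k2 := c1n_le' (y := x + u - b) (z := 1 + b) (by linarith) (by linarith)
  exact vac_s (y := x + u) (z := x + u - b) (by linarith) (by linarith) (by linarith) (by linarith) (by linarith) l1
theorem WmolN_B_101_20_7_p {x κ y y' : ℝ} (hF : SideOk PP tKF tL pcF x) (hN : SideOk PP tKN tL pcN x) (hκ : κ * h0 = ken x) (x0 : 3 / 64 ≤ x) (x1 : x ≤ 1 / 16)
    (F : FactsB PP 1 0 1 2 0 1 1 y y') (h3 : |y - (1 - x)| < 1 / 32) (h1 : |y' - x| < 1 / 32) (h2 : |y + y' - 1| < 15 / 1024) (gy : 1 / 32 < y' ∧ y' < 5 / 64) (gz : 59 / 64 < y ∧ y < 31 / 32) :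
    StB (VN 3 κ) PP tKN tL pcN 1 0 1 2 0 1 1 x y y' := by
  obtain ⟨u, rfl⟩ : ∃ u, y' = x + u := ⟨y' - x, by ring⟩
  obtain ⟨b, hy⟩ : ∃ b, y = 1 + b - (x + u) := ⟨y + (x + u) - 1, by ring⟩
  rw [show x + u - x = u by ring] at h1
  rw [show y + (x + u) - 1 = b by rw [hy]; ring] at h2
  rw [show y - (1 - x) = -(u - b) by rw [hy]; ring, abs_neg] at h3
  have wy := gy
  have wz : 1 / 32 < x + u - b ∧ x + u - b < 5 / 64 := ⟨by linarith [gz.2], by linarith [gz.1]⟩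
  exact (vN_T7 (κ := κ) x0 x1 h1 h2 h3 wy wz hy F).elim
theorem molN_B_101_20_7 {κ x : ℝ} (hκ : κ * h0 = ken x) (hx : ((50331648 : ℕ) : ℝ) / S ≤ x) (hx' : x ≤ (((50331648 : ℕ) : ℝ) + (16777216 : ℕ)) / S) :
    AltB (VN 3 κ) PP tKN tL pcN [⟨0, 1, 2, 33554432⟩, ⟨1, 0, 1, 33554432⟩, ⟨2, 1, 0, 15728640⟩, ⟨0, 0, 0, 1040187392⟩, ⟨0, 1, 0, 83886080⟩, ⟨1, 0, 0, 83886080⟩, ⟨1, 1, 0, 1040187392⟩] 1 0 1 2 0 (sgb true) (sgb true) x := by
  obtain ⟨x0, x1⟩ := xr hx hx'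
  intro y y' F h
  obtain ⟨h3, h1, h2, gy, gz⟩ := winC h
  exact WmolN_B_101_20_7_p (sideF hx hx') (sideN hx hx') hκ x0 x1 F (h3.trans_eq (by norm_num)) (h1.trans_eq (by norm_num)) (h2.trans_eq (by norm_num)) ⟨lt_of_eq_of_lt (by norm_num) gy.1, lt_of_lt_of_eq gy.2 (by norm_num)⟩ ⟨lt_of_eq_of_lt (by norm_num) gz.2, lt_of_lt_of_eq gz.1 (by norm_num)⟩
theorem fN_T7k1 {x u b κ y' : ℝ} (hF : SideOk PP tKF tL pcF x) (hN : SideOk PP tKN tL pcN x) (hκ : κ * h0 = ken x)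
    (x0 : 3 / 64 ≤ x) (x1 : x ≤ 1 / 16) (h1 : |u| < 1 / 32) (h2 : |b| < 1 / 64) (h3 : |u - b| < 1 / 32) (wy : 1 / 32 < x + u ∧ x + u < 5 / 64) (wz : 1 / 32 < x + u - b ∧ x + u - b < 5 / 64) (hy : y' = 1 + b - (x + u)) (F : FactsB PP 1 0 2 2 1 1 1 y' (x + u)) :
    StB (VN 3 κ) PP tKN tL pcN 1 0 2 2 1 1 1 x y' (x + u) := by
  have e0 : y' + (x + u) = 1 + b := by rw [hy]; ring
  have qs : InQ 2 (1 + b) := e0 ▸ F.q3
  have q0 := F.q2
  obtain ⟨u1, u2⟩ := abs_lt.1 h1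
  obtain ⟨b1, b2⟩ := abs_lt.1 h2
  obtain ⟨v1, v2⟩ := abs_lt.1 h3
  obtain ⟨y1, y2⟩ := wy
  obtain ⟨z1, z2⟩ := wz
  have hb : 0 ≤ b := by linarith [qs.1]
  have D : DomB u b x := ⟨by linarith, by linarith, by linarith, by linarith, by linarith, by linarith, by linarith, by linarith⟩
  obtain ⟨p1, p2⟩ := psr (y := x + u) y1.le y2.le
  obtain ⟨p3, p4⟩ := psr (y := x + u - b) z1.le z2.le
  have hd := dqBp (dq_t x) hb (by linarith) (by linarith) (by linarith) (by linarith) p1 p2 p3 p4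
  obtain ⟨r1, r2⟩ := rX x0 x1
  have K := Cht3.cert (ng := false) (r := 33554432) ct_1T7k1 (u := u) (b := b) (x := x) (by unfold S; norm_num; linarith) (by unfold S; norm_num; linarith) (by simp only [cond_true, cond_false]; linarith) (by simp only [cond_true, cond_false]; unfold S; norm_num; linarith) r1 r2
  have hs : ∀ G ∈ sk_T7k1, G.v u b x ≤ 0 := skPM (A := false) (v := 33554432) (u := u) (b := b) (x := x) (abs_le.2 ⟨by simp only [cond_true, cond_false]; unfold S; norm_num; linarith, by simp only [cond_true, cond_false]; unfold S; norm_num; linarith⟩)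
  have hit : ((shF (T_T7k1.b true) (fp1 false T_T7k1.st.ws fnB) gK gX gD).at_ u b x).it * (x + u - b) = -1 := by
    show -(x + u - b)⁻¹ * _ = _
    rw [neg_mul, inv_mul_cancel₀ (ne_of_gt (by linarith))]
  have hY : y' = 1 - (x + u - b) := by rw [hy]; ring
  have q2 : InQ 1 (1 - (x + u - b)) := hY ▸ F.q1
  have hX : crv PP 2 1 y' = c1n (x + u - b) + 1 / 2 := by rw [hY]; exact wX1 _
  have hx : sk1.xs.v u b x = 1 / 2 + b * sk1.ws.v u b x := stK_x (by norm_num) (by linarith) (by linarith)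
  have hXk : crv PP 1 2 (1 + b) = sk1.xs.v u b x := sX1 u
  have hcz := fnB_e D
  have eX : c1n (x + u) + b * (fp1 false T_T7k1.st.ws fnB).v u b x = c1n (x + u - b) + 1 / 2 - sk1.xs.v u b x := by
    rw [hx]
    show c1n (x + u) + b * (fnB.v u b x - sk1.ws.v u b x) = _
    linear_combination -hcz
  have cm1 : sk1.xs.v u b x ≤ 1 / 2 := fXS_le (by norm_num) hb
  have xpos : 0 < c1n (x + u) + b * (fp1 false T_T7k1.st.ws fnB).v u b x := by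
    rw [eX]
    have := c1n_pos' (y := x + u - b) (by nlinarith)
    linarith
  have xne := xpos.ne'
  have od : 1 ≤ qqn (c1n (x + u) + b * (fp1 false T_T7k1.st.ws fnB).v u b x) (x + u) ∧ qqn (c1n (x + u) + b * (fp1 false T_T7k1.st.ws fnB).v u b x) (x + u) ≤ 3 := by
    have l1 := F.len1
    have l3 := F.len3
    have e : (1 : ℝ) * crv PP 1 2 (y' + (x + u)) - 1 * crv PP 2 1 y' = -(c1n (x + u) + b * (fp1 false T_T7k1.st.ws fnB).v u b x) := by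
      rw [hX, e0, hXk, eX]
      ring
    rw [e, qqn_neg] at l1 l3
    exact ⟨l1, l3⟩
  have hc1 : c1n (x + u) ≤ c1n (x + u) + b * (fp1 false T_T7k1.st.ws fnB).v u b x := c1_le od.1 xpos.le
  have K1 : (∀ G ∈ cx_T7k1, 0 < G.v u b x) → (pcF 0).K.v (-(c1n (x + u) + b * (fp1 false T_T7k1.st.ws fnB).v u b x)) (x + u) x = -((c1n (x + u) * cG (x + u) + kcg.v (psn (x + u)) x) * (x + u) + b * (f1s (fp1 false T_T7k1.st.ws fnB) gK).v u b x) := fun hc => by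
    have t1 : 0 < cv2m.v (x + u) - (c1n (x + u) + b * (fp1 false T_T7k1.st.ws fnB).v u b x) := hc (f1t p_T7k1 (tCX cv2m)) (by unfold cx_T7k1; simp)
    have t0 : 0 < cv1m.v (x + u) - c1g.v (x + u) := hc (f1t p_T7k1 (tCC cv1m c1g)) (by unfold cx_T7k1; simp)
    have k1 : kf0q0.v (x + u) x = (c1n (x + u) * cG (x + u) + kcg.v (psn (x + u)) x) * (x + u) := kf0_t0 (by linarith) (by linarith)
    have k2 : c1g.v (x + u) = c1n (x + u) := congrFun c1g_v _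
    rw [sSK hF q0 (by rw [k2]; exact hc1) t0 t1 od.1 od.2 xne, k1, k2]
    show -(_ + gK.v (c1n (x + u) + b * (fp1 false T_T7k1.st.ws fnB).v u b x) (x + u) x * (_ - _)) = -(_ + b * (gK.v (c1n (x + u) + b * (fp1 false T_T7k1.st.ws fnB).v u b x) (x + u) x * (fp1 false T_T7k1.st.ws fnB).v u b x))
    ring
  have L1 : (∀ G ∈ cx_T7k1, 0 < G.v u b x) → (pcF 0).L.v (-(c1n (x + u) + b * (fp1 false T_T7k1.st.ws fnB).v u b x)) (x + u) x = -(cQ x (x + u) (kcg.v (psn (x + u)) x) + b * (f1s (fp1 false T_T7k1.st.ws fnB) gX).v u b x) := fun hc => by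
    have t1 : 0 < cv2m.v (x + u) - (c1n (x + u) + b * (fp1 false T_T7k1.st.ws fnB).v u b x) := hc (f1t p_T7k1 (tCX cv2m)) (by unfold cx_T7k1; simp)
    have t0 : 0 < cv1m.v (x + u) - c1g.v (x + u) := hc (f1t p_T7k1 (tCC cv1m c1g)) (by unfold cx_T7k1; simp)
    have k1 : l0q0.v (x + u) x = cQ x (x + u) (kcg.v (psn (x + u)) x) := l0_t0 (lt_of_lt_of_le (by norm_num) p1) (p2.trans (by norm_num))
    have k2 : c1g.v (x + u) = c1n (x + u) := congrFun c1g_v _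
    rw [sSL hF q0 (by rw [k2]; exact hc1) t0 t1 od.1 od.2 xne, k1, k2]
    show -(_ + gX.v (c1n (x + u) + b * (fp1 false T_T7k1.st.ws fnB).v u b x) (x + u) x * (_ - _)) = -(_ + b * (gX.v (c1n (x + u) + b * (fp1 false T_T7k1.st.ws fnB).v u b x) (x + u) x * (fp1 false T_T7k1.st.ws fnB).v u b x))
    ring
  have D1 : (∀ G ∈ cx_T7k1, 0 < G.v u b x) → ((pcN 0).K.v (-(c1n (x + u) + b * (fp1 false T_T7k1.st.ws fnB).v u b x)) (x + u) x - (1 + mun 3 x * cR x) * (pcF 0).K.v (-(c1n (x + u) + b * (fp1 false T_T7k1.st.ws fnB).v u b x)) (x + u) x) / mun 3 x = -((cP (x + u) - (cR (x + u) + 2 * c1n (x + u)) * kcg.v (psn (x + u)) x) * (x + u) + b * (f1s (fp1 false T_T7k1.st.ws fnB) gD).v u b x) := fun hc => by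
    have t1 : 0 < cv2m.v (x + u) - (c1n (x + u) + b * (fp1 false T_T7k1.st.ws fnB).v u b x) := hc (f1t p_T7k1 (tCX cv2m)) (by unfold cx_T7k1; simp)
    have t0 : 0 < cv1m.v (x + u) - c1g.v (x + u) := hc (f1t p_T7k1 (tCC cv1m c1g)) (by unfold cx_T7k1; simp)
    have k1 : kp0q0.v (x + u) x = (cP (x + u) - (cR (x + u) + 2 * c1n (x + u)) * kcg.v (psn (x + u)) x) * (x + u) := kp0_t0 (by linarith) (by linarith) (lt_of_lt_of_le (by norm_num) p1) (p2.trans (by norm_num))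
    have k2 : c1g.v (x + u) = c1n (x + u) := congrFun c1g_v _
    rw [sSD hF hN q0 (by rw [k2]; exact hc1) t0 t1 od.1 od.2 xne, k1, k2]
    show -(_ + gD.v (c1n (x + u) + b * (fp1 false T_T7k1.st.ws fnB).v u b x) (x + u) x * (_ - _)) = -(_ + b * (gD.v (c1n (x + u) + b * (fp1 false T_T7k1.st.ws fnB).v u b x) (x + u) x * (fp1 false T_T7k1.st.ws fnB).v u b x))
    ring
  exact nearT7 (T := T_T7k1) (sk := sk_T7k1) (cx := cx_T7k1) D hb hκ hy hd hit (t1_0 q0) (t3B1 F.q1 hy) hx (fun _ _ => rfl) (fun _ _ => rfl) (fun _ _ => rfl) hX hXk K hs (kcb y1.le y2.le x0 x1) (sB := -(pcF 0).K.v (-(c1n (x + u) + b * (fp1 false T_T7k1.st.ws fnB).v u b x)) (x + u) x) (sD := -(((pcN 0).K.v (-(c1n (x + u) + b * (fp1 false T_T7k1.st.ws fnB).v u b x)) (x + u) x - (1 + mun 3 x * cR x) * (pcF 0).K.v (-(c1n (x + u) + b * (fp1 false T_T7k1.st.ws fnB).v u b x)) (x + u) x) / mun 3 x))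
    (wB := tKF 2 1 (1 - (x + u - b)) x) (wD := kp2q1.v (1 - (x + u - b)) x)
    (fun _ => by
      have k := div_mun (f := (pcN 0).K.v (-(c1n (x + u) + b * (fp1 false T_T7k1.st.ws fnB).v u b x)) (x + u) x) (g := (pcF 0).K.v (-(c1n (x + u) + b * (fp1 false T_T7k1.st.ws fnB).v u b x)) (x + u) x) (c := 1 + mun 3 x * cR x) (x := x)
      exact k.trans (by ring))
    (by rw [hY]; exact wN1 q2) (sk1N qs) (fun hc => by rw [K1 hc]; exact neg_neg _) (fun hc => by rw [D1 hc]; exact neg_neg _) (wK1 q2 z1 z2) (wD1 q2 z1 z2) (sk1K u hb qs (by linarith)) (sk1D u hb (by linarith)) L1 (by rw [hY]; exact wL1 q2 z1 z2) (sk1L u hb qs (by linarith))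
theorem WmolN_B_102_21_7_p {x κ y y' : ℝ} (hF : SideOk PP tKF tL pcF x) (hN : SideOk PP tKN tL pcN x) (hκ : κ * h0 = ken x) (x0 : 3 / 64 ≤ x) (x1 : x ≤ 1 / 16)
    (F : FactsB PP 1 0 2 2 1 1 1 y y') (h3 : |y - (1 - x)| < 1 / 32) (h1 : |y' - x| < 1 / 32) (h2 : |y + y' - 1| < 1 / 64) (gy : 1 / 32 < y' ∧ y' < 5 / 64) (gz : 59 / 64 < y ∧ y < 31 / 32) :
    StB (VN 3 κ) PP tKN tL pcN 1 0 2 2 1 1 1 x y y' := by
  obtain ⟨u, rfl⟩ : ∃ u, y' = x + u := ⟨y' - x, by ring⟩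
  obtain ⟨b, hy⟩ : ∃ b, y = 1 + b - (x + u) := ⟨y + (x + u) - 1, by ring⟩
  rw [show x + u - x = u by ring] at h1
  rw [show y + (x + u) - 1 = b by rw [hy]; ring] at h2
  rw [show y - (1 - x) = -(u - b) by rw [hy]; ring, abs_neg] at h3
  have wy := gy
  have wz : 1 / 32 < x + u - b ∧ x + u - b < 5 / 64 := ⟨by linarith [gz.2], by linarith [gz.1]⟩
  exact fN_T7k1 hF hN hκ x0 x1 h1 h2 h3 wy wz hy F
theorem molN_B_102_21_7 {κ x : ℝ} (hκ : κ * h0 = ken x) (hx : ((50331648 : ℕ) : ℝ) / S ≤ x) (hx' : x ≤ (((50331648 : ℕ) : ℝ) + (16777216 : ℕ)) / S) :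
    AltB (VN 3 κ) PP tKN tL pcN [⟨0, 1, 2, 33554432⟩, ⟨1, 0, 1, 33554432⟩, ⟨2, 1, 0, 16777216⟩, ⟨0, 0, 0, 1040187392⟩, ⟨0, 1, 0, 83886080⟩, ⟨1, 0, 0, 83886080⟩, ⟨1, 1, 0, 1040187392⟩] 1 0 2 2 1 (sgb true) (sgb true) x := by
  obtain ⟨x0, x1⟩ := xr hx hx'
  intro y y' F h
  obtain ⟨h3, h1, h2, gy, gz⟩ := winC h
  exact WmolN_B_102_21_7_p (sideF hx hx') (sideN hx hx') hκ x0 x1 F (h3.trans_eq (by norm_num)) (h1.trans_eq (by norm_num)) (h2.trans_eq (by norm_num)) ⟨lt_of_eq_of_lt (by norm_num) gy.1, lt_of_lt_of_eq gy.2 (by norm_num)⟩ ⟨lt_of_eq_of_lt (by norm_num) gz.2, lt_of_lt_of_eq gz.1 (by norm_num)⟩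
theorem fN_T7k2 {x u b κ y' : ℝ} (hF : SideOk PP tKF tL pcF x) (hN : SideOk PP tKN tL pcN x) (hκ : κ * h0 = ken x)
    (x0 : 3 / 64 ≤ x) (x1 : x ≤ 1 / 16) (h1 : |u| < 1 / 32) (h2 : |b| < 1 / 64) (h3 : |u - b| < 1 / 32) (wy : 1 / 32 < x + u ∧ x + u < 5 / 64) (wz : 1 / 32 < x + u - b ∧ x + u - b < 5 / 64) (hy : y' = 1 + b - (x + u)) (F : FactsB PP 1 0 2 2 2 1 1 y' (x + u)) :
    StB (VN 3 κ) PP tKN tL pcN 1 0 2 2 2 1 1 x y' (x + u) := by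
  have e0 : y' + (x + u) = 1 + b := by rw [hy]; ring
  have qs : InQ 2 (1 + b) := e0 ▸ F.q3
  have q0 := F.q2
  obtain ⟨u1, u2⟩ := abs_lt.1 h1
  obtain ⟨b1, b2⟩ := abs_lt.1 h2
  obtain ⟨v1, v2⟩ := abs_lt.1 h3
  obtain ⟨y1, y2⟩ := wy
  obtain ⟨z1, z2⟩ := wz
  have hb : 0 ≤ b := by linarith [qs.1]
  have D : DomB u b x := ⟨by linarith, by linarith, by linarith, by linarith, by linarith, by linarith, by linarith, by linarith⟩
  obtain ⟨p1, p2⟩ := psr (y := x + u) y1.le y2.le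
  obtain ⟨p3, p4⟩ := psr (y := x + u - b) z1.le z2.le
  have hd := dqBp (dq_t x) hb (by linarith) (by linarith) (by linarith) (by linarith) p1 p2 p3 p4
  obtain ⟨r1, r2⟩ := rX x0 x1
  have K := Cht3.cert (ng := false) (r := 33554432) ct_1T7k2 (u := u) (b := b) (x := x) (by unfold S; norm_num; linarith) (by unfold S; norm_num; linarith) (by simp only [cond_true, cond_false]; linarith) (by simp only [cond_true, cond_false]; unfold S; norm_num; linarith) r1 r2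
  have hs : ∀ G ∈ sk_T7k2, G.v u b x ≤ 0 := skPM (A := false) (v := 33554432) (u := u) (b := b) (x := x) (abs_le.2 ⟨by simp only [cond_true, cond_false]; unfold S; norm_num; linarith, by simp only [cond_true, cond_false]; unfold S; norm_num; linarith⟩)
  have hit : ((shF (T_T7k2.b true) (fp1 false T_T7k2.st.ws fnB) gK gX gD).at_ u b x).it * (x + u - b) = -1 := by
    show -(x + u - b)⁻¹ * _ = _
    rw [neg_mul, inv_mul_cancel₀ (ne_of_gt (by linarith))]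
  have hY : y' = 1 - (x + u - b) := by rw [hy]; ring
  have q2 : InQ 1 (1 - (x + u - b)) := hY ▸ F.q1
  have hX : crv PP 2 1 y' = c1n (x + u - b) + 1 / 2 := by rw [hY]; exact wX1 _
  have hx : sk2.xs.v u b x = 1 / 2 + b * sk2.ws.v u b x := stK_x (by norm_num) (by linarith) (by linarith)
  have hXk : crv PP 2 2 (1 + b) = sk2.xs.v u b x := sX2 u
  have hcz := fnB_e D
  have eX : c1n (x + u) + b * (fp1 false T_T7k2.st.ws fnB).v u b x = c1n (x + u - b) + 1 / 2 - sk2.xs.v u b x := by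
    rw [hx]
    show c1n (x + u) + b * (fnB.v u b x - sk2.ws.v u b x) = _
    linear_combination -hcz
  have cm1 : sk2.xs.v u b x ≤ 1 / 2 := fXS_le (by norm_num) hb
  have xpos : 0 < c1n (x + u) + b * (fp1 false T_T7k2.st.ws fnB).v u b x := by
    rw [eX]
    have := c1n_pos' (y := x + u - b) (by nlinarith)
    linarith
  have xne := xpos.ne'
  have od : 1 ≤ qqn (c1n (x + u) + b * (fp1 false T_T7k2.st.ws fnB).v u b x) (x + u) ∧ qqn (c1n (x + u) + b * (fp1 false T_T7k2.st.ws fnB).v u b x) (x + u) ≤ 3 := by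
    have l1 := F.len1
    have l3 := F.len3
    have e : (1 : ℝ) * crv PP 2 2 (y' + (x + u)) - 1 * crv PP 2 1 y' = -(c1n (x + u) + b * (fp1 false T_T7k2.st.ws fnB).v u b x) := by
      rw [hX, e0, hXk, eX]
      ring
    rw [e, qqn_neg] at l1 l3
    exact ⟨l1, l3⟩
  have hc1 : c1n (x + u) ≤ c1n (x + u) + b * (fp1 false T_T7k2.st.ws fnB).v u b x := c1_le od.1 xpos.le
  have K1 : (∀ G ∈ cx_T7k2, 0 < G.v u b x) → (pcF 0).K.v (-(c1n (x + u) + b * (fp1 false T_T7k2.st.ws fnB).v u b x)) (x + u) x = -((c1n (x + u) * cG (x + u) + kcg.v (psn (x + u)) x) * (x + u) + b * (f1s (fp1 false T_T7k2.st.ws fnB) gK).v u b x) := fun hc => by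
    have t1 : 0 < cv2m.v (x + u) - (c1n (x + u) + b * (fp1 false T_T7k2.st.ws fnB).v u b x) := hc (f1t p_T7k2 (tCX cv2m)) (by unfold cx_T7k2; simp)
    have t0 : 0 < cv1m.v (x + u) - c1g.v (x + u) := hc (f1t p_T7k2 (tCC cv1m c1g)) (by unfold cx_T7k2; simp)
    have k1 : kf0q0.v (x + u) x = (c1n (x + u) * cG (x + u) + kcg.v (psn (x + u)) x) * (x + u) := kf0_t0 (by linarith) (by linarith)
    have k2 : c1g.v (x + u) = c1n (x + u) := congrFun c1g_v _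
    rw [sSK hF q0 (by rw [k2]; exact hc1) t0 t1 od.1 od.2 xne, k1, k2]
    show -(_ + gK.v (c1n (x + u) + b * (fp1 false T_T7k2.st.ws fnB).v u b x) (x + u) x * (_ - _)) = -(_ + b * (gK.v (c1n (x + u) + b * (fp1 false T_T7k2.st.ws fnB).v u b x) (x + u) x * (fp1 false T_T7k2.st.ws fnB).v u b x))
    ring
  have L1 : (∀ G ∈ cx_T7k2, 0 < G.v u b x) → (pcF 0).L.v (-(c1n (x + u) + b * (fp1 false T_T7k2.st.ws fnB).v u b x)) (x + u) x = -(cQ x (x + u) (kcg.v (psn (x + u)) x) + b * (f1s (fp1 false T_T7k2.st.ws fnB) gX).v u b x) := fun hc => by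
    have t1 : 0 < cv2m.v (x + u) - (c1n (x + u) + b * (fp1 false T_T7k2.st.ws fnB).v u b x) := hc (f1t p_T7k2 (tCX cv2m)) (by unfold cx_T7k2; simp)
    have t0 : 0 < cv1m.v (x + u) - c1g.v (x + u) := hc (f1t p_T7k2 (tCC cv1m c1g)) (by unfold cx_T7k2; simp)
    have k1 : l0q0.v (x + u) x = cQ x (x + u) (kcg.v (psn (x + u)) x) := l0_t0 (lt_of_lt_of_le (by norm_num) p1) (p2.trans (by norm_num))
    have k2 : c1g.v (x + u) = c1n (x + u) := congrFun c1g_v _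
    rw [sSL hF q0 (by rw [k2]; exact hc1) t0 t1 od.1 od.2 xne, k1, k2]
    show -(_ + gX.v (c1n (x + u) + b * (fp1 false T_T7k2.st.ws fnB).v u b x) (x + u) x * (_ - _)) = -(_ + b * (gX.v (c1n (x + u) + b * (fp1 false T_T7k2.st.ws fnB).v u b x) (x + u) x * (fp1 false T_T7k2.st.ws fnB).v u b x))
    ring
  have D1 : (∀ G ∈ cx_T7k2, 0 < G.v u b x) → ((pcN 0).K.v (-(c1n (x + u) + b * (fp1 false T_T7k2.st.ws fnB).v u b x)) (x + u) x - (1 + mun 3 x * cR x) * (pcF 0).K.v (-(c1n (x + u) + b * (fp1 false T_T7k2.st.ws fnB).v u b x)) (x + u) x) / mun 3 x = -((cP (x + u) - (cR (x + u) + 2 * c1n (x + u)) * kcg.v (psn (x + u)) x) * (x + u) + b * (f1s (fp1 false T_T7k2.st.ws fnB) gD).v u b x) := fun hc => by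
    have t1 : 0 < cv2m.v (x + u) - (c1n (x + u) + b * (fp1 false T_T7k2.st.ws fnB).v u b x) := hc (f1t p_T7k2 (tCX cv2m)) (by unfold cx_T7k2; simp)
    have t0 : 0 < cv1m.v (x + u) - c1g.v (x + u) := hc (f1t p_T7k2 (tCC cv1m c1g)) (by unfold cx_T7k2; simp)
    have k1 : kp0q0.v (x + u) x = (cP (x + u) - (cR (x + u) + 2 * c1n (x + u)) * kcg.v (psn (x + u)) x) * (x + u) := kp0_t0 (by linarith) (by linarith) (lt_of_lt_of_le (by norm_num) p1) (p2.trans (by norm_num))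
    have k2 : c1g.v (x + u) = c1n (x + u) := congrFun c1g_v _
    rw [sSD hF hN q0 (by rw [k2]; exact hc1) t0 t1 od.1 od.2 xne, k1, k2]
    show -(_ + gD.v (c1n (x + u) + b * (fp1 false T_T7k2.st.ws fnB).v u b x) (x + u) x * (_ - _)) = -(_ + b * (gD.v (c1n (x + u) + b * (fp1 false T_T7k2.st.ws fnB).v u b x) (x + u) x * (fp1 false T_T7k2.st.ws fnB).v u b x))
    ring
  exact nearT7 (T := T_T7k2) (sk := sk_T7k2) (cx := cx_T7k2) D hb hκ hy hd hit (t1_0 q0) (t3B1 F.q1 hy) hx (fun _ _ => rfl) (fun _ _ => rfl) (fun _ _ => rfl) hX hXk K hs (kcb y1.le y2.le x0 x1) (sB := -(pcF 0).K.v (-(c1n (x + u) + b * (fp1 false T_T7k2.st.ws fnB).v u b x)) (x + u) x) (sD := -(((pcN 0).K.v (-(c1n (x + u) + b * (fp1 false T_T7k2.st.ws fnB).v u b x)) (x + u) x - (1 + mun 3 x * cR x) * (pcF 0).K.v (-(c1n (x + u) + b * (fp1 false T_T7k2.st.ws fnB).v u b x)) (x + u) x) / mun 3 x))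
    (wB := tKF 2 1 (1 - (x + u - b)) x) (wD := kp2q1.v (1 - (x + u - b)) x)
    (fun _ => by
      have k := div_mun (f := (pcN 0).K.v (-(c1n (x + u) + b * (fp1 false T_T7k2.st.ws fnB).v u b x)) (x + u) x) (g := (pcF 0).K.v (-(c1n (x + u) + b * (fp1 false T_T7k2.st.ws fnB).v u b x)) (x + u) x) (c := 1 + mun 3 x * cR x) (x := x)
      exact k.trans (by ring))
    (by rw [hY]; exact wN1 q2) (sk2N qs) (fun hc => by rw [K1 hc]; exact neg_neg _) (fun hc => by rw [D1 hc]; exact neg_neg _) (wK1 q2 z1 z2) (wD1 q2 z1 z2) (sk2K u hb qs (by linarith)) (sk2D u hb (by linarith)) L1 (by rw [hY]; exact wL1 q2 z1 z2) (sk2L u hb qs (by linarith))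
theorem WmolN_B_102_22_7_p {x κ y y' : ℝ} (hF : SideOk PP tKF tL pcF x) (hN : SideOk PP tKN tL pcN x) (hκ : κ * h0 = ken x) (x0 : 3 / 64 ≤ x) (x1 : x ≤ 1 / 16)
    (F : FactsB PP 1 0 2 2 2 1 1 y y') (h3 : |y - (1 - x)| < 1 / 32) (h1 : |y' - x| < 1 / 32) (h2 : |y + y' - 1| < 1 / 64) (gy : 1 / 32 < y' ∧ y' < 5 / 64) (gz : 59 / 64 < y ∧ y < 31 / 32) :
    StB (VN 3 κ) PP tKN tL pcN 1 0 2 2 2 1 1 x y y' := by
  obtain ⟨u, rfl⟩ : ∃ u, y' = x + u := ⟨y' - x, by ring⟩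
  obtain ⟨b, hy⟩ : ∃ b, y = 1 + b - (x + u) := ⟨y + (x + u) - 1, by ring⟩
  rw [show x + u - x = u by ring] at h1
  rw [show y + (x + u) - 1 = b by rw [hy]; ring] at h2
  rw [show y - (1 - x) = -(u - b) by rw [hy]; ring, abs_neg] at h3
  have wy := gy
  have wz : 1 / 32 < x + u - b ∧ x + u - b < 5 / 64 := ⟨by linarith [gz.2], by linarith [gz.1]⟩
  exact fN_T7k2 hF hN hκ x0 x1 h1 h2 h3 wy wz hy F
theorem molN_B_102_22_7 {κ x : ℝ} (hκ : κ * h0 = ken x) (hx : ((50331648 : ℕ) : ℝ) / S ≤ x) (hx' : x ≤ (((50331648 : ℕ) : ℝ) + (16777216 : ℕ)) / S) :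
    AltB (VN 3 κ) PP tKN tL pcN [⟨0, 1, 2, 33554432⟩, ⟨1, 0, 1, 33554432⟩, ⟨2, 1, 0, 16777216⟩, ⟨0, 0, 0, 1040187392⟩, ⟨0, 1, 0, 83886080⟩, ⟨1, 0, 0, 83886080⟩, ⟨1, 1, 0, 1040187392⟩] 1 0 2 2 2 (sgb true) (sgb true) x := by
  obtain ⟨x0, x1⟩ := xr hx hx'
  intro y y' F h
  obtain ⟨h3, h1, h2, gy, gz⟩ := winC h
  exact WmolN_B_102_22_7_p (sideF hx hx') (sideN hx hx') hκ x0 x1 F (h3.trans_eq (by norm_num)) (h1.trans_eq (by norm_num)) (h2.trans_eq (by norm_num)) ⟨lt_of_eq_of_lt (by norm_num) gy.1, lt_of_lt_of_eq gy.2 (by norm_num)⟩ ⟨lt_of_eq_of_lt (by norm_num) gz.2, lt_of_lt_of_eq gz.1 (by norm_num)⟩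

end Pool.Agent.Strip051.G.I3_64_1_16.Tab.Mo
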