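import Pool.Agent.Strip051.G.I3_64_1_16.CrnB
import Pool.Agent.Strip051.G.I3_64_1_16.CF_0
import Pool.Agent.Strip051.G.I3_64_1_16.CF_1
import Pool.Agent.Strip051.G.I3_64_1_16.CF_2
import Pool.Agent.Strip051.G.I3_64_1_16.CF_3
import Pool.Agent.Strip051.G.I3_64_1_16.MolT

/-! # Aligned corners: the alternatives (generated) -/

set_option linter.all false

namespace Pool.Agent.Strip051.G.I3_64_1_16.Tab

open Pool.Agent.Strip051.PB Pool.Agent.StripNear Pool.Agent.Strip051.LC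

theorem altF_A011E_00 {κ x : ℝ} (hκ : κ * h0 = ken x) (hx : ((50331648 : ℕ) : ℝ) / S ≤ x) (hx' : x ≤ (((50331648 : ℕ) : ℝ) + (16777216 : ℕ)) / S) :
    AltA (VF κ) PP tKF tL pcF [⟨0, 0, 0, 50331648⟩, ⟨1, 1, 0, 50331648⟩, ⟨2, 1, 0, 50331648⟩] 0 1 1 0 0 (sgb true) (sgb false) x := by
  have X : XR 50331648 x := XR.of hx hx' (by norm_num) (by norm_num) (by norm_num) (by norm_num)
  refine (cornK_of [] (C := cA011E) (C0 := c0F) (j := (0 : Fin 5)) (k := (0 : Fin 5)) (lo := 0) (hi := 0) (W := 50331648) (N0 := 1) cA011E_q (sideF hx hx') gokF X (by norm_num) (by norm_num) (l := (0 : Fin 5)) rfl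
    (gatF00 x) (gatF01 x) (gatF01 x) ?_).altFA rfl hκ le_rfl ?_
  · intro ρ a B hρ hd i h1 h2
    fin_cases i
    · exact corTK_cert (G1 := gF0q0) (G2 := gF0q1) (Ga := gF0q1) (Gb := gF1q1) cA011E_ok B hρ (gatF00 x) (gatF01 x) (fun _ => gatF01 x) (fun h => absurd h (by decide)) hd hx hx' CF.A011E_000
    · exact absurd h2 (by norm_num)
    · exact absurd h2 (by norm_num)
    · exact absurd h2 (by norm_num)
  · exact fun l hl => absurd hl List.not_mem_nil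

theorem altF_A011L_00 {κ x : ℝ} (hκ : κ * h0 = ken x) (hx : ((50331648 : ℕ) : ℝ) / S ≤ x) (hx' : x ≤ (((50331648 : ℕ) : ℝ) + (16777216 : ℕ)) / S) :
    AltA (VF κ) PP tKF tL pcF [⟨0, 0, 0, 50331648⟩, ⟨1, 1, 0, 50331648⟩, ⟨2, 1, 0, 50331648⟩] 0 1 1 0 0 (sgb true) (sgb true) x := by
  have X : XR 50331648 x := XR.of hx hx' (by norm_num) (by norm_num) (by norm_num) (by norm_num)
  refine (cornK_of [] (C := cA011L) (C0 := c0F) (j := (0 : Fin 5)) (k := (0 : Fin 5)) (lo := 2) (hi := 4) (W := 50331648) (N0 := 1) cA011L_q (sideF hx hx') gokF X (by norm_num) (by norm_num) (l := (2 : Fin 5)) rfl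
    (gatF00 x) (gatF01 x) (gatF21 x) ?_).altFA rfl hκ le_rfl ?_
  · intro ρ a B hρ hd i h1 h2
    fin_cases i
    · exact absurd h1 (by norm_num)
    · exact corTK_cert (G1 := gF0q0) (G2 := gF0q1) (Ga := gF1q1) (Gb := gF2q1) cA011L_ok B hρ (gatF00 x) (gatF01 x) (fun h => absurd h (by decide)) (fun _ => gatF21 x) hd hx hx' CF.A011L_001
    · exact corTK_cert (G1 := gF0q0) (G2 := gF0q1) (Ga := gF2q1) (Gb := gF3q1) cA011L_ok B hρ (gatF00 x) (gatF01 x) (fun _ => gatF21 x) (fun _ => gatF31 x) hd hx hx' CF.A011L_002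
    · exact corTK_cert (G1 := gF0q0) (G2 := gF0q1) (Ga := gF3q1) (Gb := gF4q1) cA011L_ok B hρ (gatF00 x) (gatF01 x) (fun _ => gatF31 x) (fun _ => gatF41 x) hd hx hx' CF.A011L_003
  · exact fun l hl => absurd hl List.not_mem_nil

theorem altF_A011R_02 {κ x : ℝ} (hκ : κ * h0 = ken x) (hx : ((50331648 : ℕ) : ℝ) / S ≤ x) (hx' : x ≤ (((50331648 : ℕ) : ℝ) + (16777216 : ℕ)) / S) :
    AltA (VF κ) PP tKF tL pcF [⟨0, 0, 0, 50331648⟩, ⟨1, 1, 0, 50331648⟩, ⟨2, 1, 0, 50331648⟩] 0 1 1 0 2 (sgb true) (sgb false) x := by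
  have X : XR 50331648 x := XR.of hx hx' (by norm_num) (by norm_num) (by norm_num) (by norm_num)
  refine (cornK_of [[⟨0, 0, 1, 33554432⟩, ⟨1, 1, 2, 33554432⟩, ⟨2, 1, 0, 16777216⟩, ⟨0, 0, 0, 83886080⟩, ⟨0, 1, 0, 1040187392⟩, ⟨1, 0, 0, 1040187392⟩, ⟨1, 1, 0, 83886080⟩]] (C := cA011R) (C0 := c0F) (j := (0 : Fin 5)) (k := (2 : Fin 5)) (lo := 0) (hi := 0) (W := 50331648) (N0 := 1) cA011R_q (sideF hx hx') gokF X (by norm_num) (by norm_num) (l := (0 : Fin 5)) rfl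
    (gatF00 x) (gatF21 x) (gatF01 x) ?_).altFA rfl hκ le_rfl ?_
  · intro ρ a B hρ hd i h1 h2
    fin_cases i
    · exact corTK_cert (G1 := gF0q0) (G2 := gF2q1) (Ga := gF0q1) (Gb := gF1q1) cA011R_ok B hρ (gatF00 x) (gatF21 x) (fun _ => gatF01 x) (fun h => absurd h (by decide)) hd hx hx' CF.A011R_020
    · exact absurd h2 (by norm_num)
    · exact absurd h2 (by norm_num)
    · exact absurd h2 (by norm_num)
  · intro l hl
    simp only [List.mem_cons, List.not_mem_nil, or_false] at hl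
    rcases hl with rfl
    · exact Mo.molF_A_011_02_3 hκ hx hx'

theorem altF_A011R_03 {κ x : ℝ} (hκ : κ * h0 = ken x) (hx : ((50331648 : ℕ) : ℝ) / S ≤ x) (hx' : x ≤ (((50331648 : ℕ) : ℝ) + (16777216 : ℕ)) / S) :
    AltA (VF κ) PP tKF tL pcF [⟨0, 0, 0, 50331648⟩, ⟨1, 1, 0, 50331648⟩, ⟨2, 1, 0, 50331648⟩] 0 1 1 0 3 (sgb true) (sgb false) x := by
  have X : XR 50331648 x := XR.of hx hx' (by norm_num) (by norm_num) (by norm_num) (by norm_num)
  refine (cornK_of [] (C := cA011R) (C0 := c0F) (j := (0 : Fin 5)) (k := (3 : Fin 5)) (lo := 0) (hi := 0) (W := 50331648) (N0 := 1) cA011R_q (sideF hx hx') gokF X (by norm_num) (by norm_num) (l := (0 : Fin 5)) rfl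
    (gatF00 x) (gatF31 x) (gatF01 x) ?_).altFA rfl hκ le_rfl ?_
  · intro ρ a B hρ hd i h1 h2
    fin_cases i
    · exact corTK_cert (G1 := gF0q0) (G2 := gF3q1) (Ga := gF0q1) (Gb := gF1q1) cA011R_ok B hρ (gatF00 x) (gatF31 x) (fun _ => gatF01 x) (fun h => absurd h (by decide)) hd hx hx' CF.A011R_030
    · exact absurd h2 (by norm_num)
    · exact absurd h2 (by norm_num)
    · exact absurd h2 (by norm_num)
  · exact fun l hl => absurd hl List.not_mem_nil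

theorem altF_A011R_04 {κ x : ℝ} (hκ : κ * h0 = ken x) (hx : ((50331648 : ℕ) : ℝ) / S ≤ x) (hx' : x ≤ (((50331648 : ℕ) : ℝ) + (16777216 : ℕ)) / S) :
    AltA (VF κ) PP tKF tL pcF [⟨0, 0, 0, 16777216⟩, ⟨1, 1, 0, 16777216⟩, ⟨2, 1, 0, 16777216⟩] 0 1 1 0 4 (sgb true) (sgb false) x := by
  have X : XR 16777216 x := XR.of hx hx' (by norm_num) (by norm_num) (by norm_num) (by norm_num)
  refine (cornK_of [] (C := cA011R) (C0 := c0F) (j := (0 : Fin 5)) (k := (4 : Fin 5)) (lo := 0) (hi := 0) (W := 16777216) (N0 := 1) cA011R_q (sideF hx hx') gokF X (by norm_num) (by norm_num) (l := (0 : Fin 5)) rfl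
    (gatF00 x) (gatF41 x) (gatF01 x) ?_).altFA rfl hκ le_rfl ?_
  · intro ρ a B hρ hd i h1 h2
    fin_cases i
    · exact corXK_cert (G1 := gF0q0) (G2 := gF4q1) (Ga := gF0q1) (Gb := gF1q1) (GT := gF0q1) cA011R_ok tA011R_ok B hρ (gatF00 x) (gatF41 x) (fun _ => gatF01 x) (fun h => absurd h (by decide)) rfl (tgh_A011R (kodd x) (gpu0 x) (gpt1 x) (gpu1 x) (gatF00 x) (gatF41 x) (gatF01 x) B (le_sixteenth hd (by norm_num))) hd hx hx' CF.A011R_040
    · exact absurd h2 (by norm_num)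
    · exact absurd h2 (by norm_num)
    · exact absurd h2 (by norm_num)
  · exact fun l hl => absurd hl List.not_mem_nil

theorem altF_A011R_12 {κ x : ℝ} (hκ : κ * h0 = ken x) (hx : ((50331648 : ℕ) : ℝ) / S ≤ x) (hx' : x ≤ (((50331648 : ℕ) : ℝ) + (16777216 : ℕ)) / S) :
    AltA (VF κ) PP tKF tL pcF [⟨0, 0, 0, 50331648⟩, ⟨1, 1, 0, 50331648⟩, ⟨2, 1, 0, 50331648⟩] 0 1 1 1 2 (sgb true) (sgb false) x := by
  have X : XR 50331648 x := XR.of hx hx' (by norm_num) (by norm_num) (by norm_num) (by norm_num)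
  refine (cornK_of [] (C := cA011R) (C0 := c0F) (j := (1 : Fin 5)) (k := (2 : Fin 5)) (lo := 0) (hi := 0) (W := 50331648) (N0 := 1) cA011R_q (sideF hx hx') gokF X (by norm_num) (by norm_num) (l := (0 : Fin 5)) rfl
    (gatF10 x) (gatF21 x) (gatF01 x) ?_).altFA rfl hκ le_rfl ?_
  · intro ρ a B hρ hd i h1 h2
    fin_cases i
    · exact corTK_cert (G1 := gF1q0) (G2 := gF2q1) (Ga := gF0q1) (Gb := gF1q1) cA011R_ok B hρ (gatF10 x) (gatF21 x) (fun _ => gatF01 x) (fun h => absurd h (by decide)) hd hx hx' CF.A011R_120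
    · exact absurd h2 (by norm_num)
    · exact absurd h2 (by norm_num)
    · exact absurd h2 (by norm_num)
  · exact fun l hl => absurd hl List.not_mem_nil

theorem altF_A011R_13 {κ x : ℝ} (hκ : κ * h0 = ken x) (hx : ((50331648 : ℕ) : ℝ) / S ≤ x) (hx' : x ≤ (((50331648 : ℕ) : ℝ) + (16777216 : ℕ)) / S) :
    AltA (VF κ) PP tKF tL pcF [⟨0, 0, 0, 50331648⟩, ⟨1, 1, 0, 50331648⟩, ⟨2, 1, 0, 50331648⟩] 0 1 1 1 3 (sgb true) (sgb false) x := by
  have X : XR 50331648 x := XR.of hx hx' (by norm_num) (by norm_num) (by norm_num) (by norm_num)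
  refine (cornK_of [] (C := cA011R) (C0 := c0F) (j := (1 : Fin 5)) (k := (3 : Fin 5)) (lo := 0) (hi := 0) (W := 50331648) (N0 := 1) cA011R_q (sideF hx hx') gokF X (by norm_num) (by norm_num) (l := (0 : Fin 5)) rfl
    (gatF10 x) (gatF31 x) (gatF01 x) ?_).altFA rfl hκ le_rfl ?_
  · intro ρ a B hρ hd i h1 h2
    fin_cases i
    · exact corTK_cert (G1 := gF1q0) (G2 := gF3q1) (Ga := gF0q1) (Gb := gF1q1) cA011R_ok B hρ (gatF10 x) (gatF31 x) (fun _ => gatF01 x) (fun h => absurd h (by decide)) hd hx hx' CF.A011R_130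
    · exact absurd h2 (by norm_num)
    · exact absurd h2 (by norm_num)
    · exact absurd h2 (by norm_num)
  · exact fun l hl => absurd hl List.not_mem_nil

theorem altF_A011R_14 {κ x : ℝ} (hκ : κ * h0 = ken x) (hx : ((50331648 : ℕ) : ℝ) / S ≤ x) (hx' : x ≤ (((50331648 : ℕ) : ℝ) + (16777216 : ℕ)) / S) :
    AltA (VF κ) PP tKF tL pcF [⟨0, 0, 0, 50331648⟩, ⟨1, 1, 0, 50331648⟩, ⟨2, 1, 0, 50331648⟩] 0 1 1 1 4 (sgb true) (sgb false) x := by
  have X : XR 50331648 x := XR.of hx hx' (by norm_num) (by norm_num) (by norm_num) (by norm_num)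
  refine (cornK_of [] (C := cA011R) (C0 := c0F) (j := (1 : Fin 5)) (k := (4 : Fin 5)) (lo := 0) (hi := 0) (W := 50331648) (N0 := 1) cA011R_q (sideF hx hx') gokF X (by norm_num) (by norm_num) (l := (0 : Fin 5)) rfl
    (gatF10 x) (gatF41 x) (gatF01 x) ?_).altFA rfl hκ le_rfl ?_
  · intro ρ a B hρ hd i h1 h2
    fin_cases i
    · exact corTK_cert (G1 := gF1q0) (G2 := gF4q1) (Ga := gF0q1) (Gb := gF1q1) cA011R_ok B hρ (gatF10 x) (gatF41 x) (fun _ => gatF01 x) (fun h => absurd h (by decide)) hd hx hx' CF.A011R_140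
    · exact absurd h2 (by norm_num)
    · exact absurd h2 (by norm_num)
    · exact absurd h2 (by norm_num)
  · exact fun l hl => absurd hl List.not_mem_nil

theorem altF_A011R_22 {κ x : ℝ} (hκ : κ * h0 = ken x) (hx : ((50331648 : ℕ) : ℝ) / S ≤ x) (hx' : x ≤ (((50331648 : ℕ) : ℝ) + (16777216 : ℕ)) / S) :
    AltA (VF κ) PP tKF tL pcF [⟨0, 0, 0, 50331648⟩, ⟨1, 1, 0, 50331648⟩, ⟨2, 1, 0, 50331648⟩] 0 1 1 2 2 (sgb true) (sgb false) x := by
  have X : XR 50331648 x := XR.of hx hx' (by norm_num) (by norm_num) (by norm_num) (by norm_num)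
  refine (cornK_of [] (C := cA011R) (C0 := c0F) (j := (2 : Fin 5)) (k := (2 : Fin 5)) (lo := 0) (hi := 0) (W := 50331648) (N0 := 1) cA011R_q (sideF hx hx') gokF X (by norm_num) (by norm_num) (l := (0 : Fin 5)) rfl
    (gatF20 x) (gatF21 x) (gatF01 x) ?_).altFA rfl hκ le_rfl ?_
  · intro ρ a B hρ hd i h1 h2
    fin_cases i
    · exact corTK_cert (G1 := gF2q0) (G2 := gF2q1) (Ga := gF0q1) (Gb := gF1q1) cA011R_ok B hρ (gatF20 x) (gatF21 x) (fun _ => gatF01 x) (fun h => absurd h (by decide)) hd hx hx' CF.A011R_220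
    · exact absurd h2 (by norm_num)
    · exact absurd h2 (by norm_num)
    · exact absurd h2 (by norm_num)
  · exact fun l hl => absurd hl List.not_mem_nil

theorem altF_A011R_23 {κ x : ℝ} (hκ : κ * h0 = ken x) (hx : ((50331648 : ℕ) : ℝ) / S ≤ x) (hx' : x ≤ (((50331648 : ℕ) : ℝ) + (16777216 : ℕ)) / S) :
    AltA (VF κ) PP tKF tL pcF [⟨0, 0, 0, 50331648⟩, ⟨1, 1, 0, 50331648⟩, ⟨2, 1, 0, 50331648⟩] 0 1 1 2 3 (sgb true) (sgb false) x := by
  have X : XR 50331648 x := XR.of hx hx' (by norm_num) (by norm_num) (by norm_num) (by norm_num)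
  refine (cornK_of [] (C := cA011R) (C0 := c0F) (j := (2 : Fin 5)) (k := (3 : Fin 5)) (lo := 0) (hi := 0) (W := 50331648) (N0 := 1) cA011R_q (sideF hx hx') gokF X (by norm_num) (by norm_num) (l := (0 : Fin 5)) rfl
    (gatF20 x) (gatF31 x) (gatF01 x) ?_).altFA rfl hκ le_rfl ?_
  · intro ρ a B hρ hd i h1 h2
    fin_cases i
    · exact corTK_cert (G1 := gF2q0) (G2 := gF3q1) (Ga := gF0q1) (Gb := gF1q1) cA011R_ok B hρ (gatF20 x) (gatF31 x) (fun _ => gatF01 x) (fun h => absurd h (by decide)) hd hx hx' CF.A011R_230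
    · exact absurd h2 (by norm_num)
    · exact absurd h2 (by norm_num)
    · exact absurd h2 (by norm_num)
  · exact fun l hl => absurd hl List.not_mem_nil

theorem altF_A011R_24 {κ x : ℝ} (hκ : κ * h0 = ken x) (hx : ((50331648 : ℕ) : ℝ) / S ≤ x) (hx' : x ≤ (((50331648 : ℕ) : ℝ) + (16777216 : ℕ)) / S) :
    AltA (VF κ) PP tKF tL pcF [⟨0, 0, 0, 50331648⟩, ⟨1, 1, 0, 50331648⟩, ⟨2, 1, 0, 50331648⟩] 0 1 1 2 4 (sgb true) (sgb false) x := by
  have X : XR 50331648 x := XR.of hx hx' (by norm_num) (by norm_num) (by norm_num) (by norm_num)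
  refine (cornK_of [] (C := cA011R) (C0 := c0F) (j := (2 : Fin 5)) (k := (4 : Fin 5)) (lo := 0) (hi := 0) (W := 50331648) (N0 := 1) cA011R_q (sideF hx hx') gokF X (by norm_num) (by norm_num) (l := (0 : Fin 5)) rfl
    (gatF20 x) (gatF41 x) (gatF01 x) ?_).altFA rfl hκ le_rfl ?_
  · intro ρ a B hρ hd i h1 h2
    fin_cases i
    · exact corTK_cert (G1 := gF2q0) (G2 := gF4q1) (Ga := gF0q1) (Gb := gF1q1) cA011R_ok B hρ (gatF20 x) (gatF41 x) (fun _ => gatF01 x) (fun h => absurd h (by decide)) hd hx hx' CF.A011R_240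
    · exact absurd h2 (by norm_num)
    · exact absurd h2 (by norm_num)
    · exact absurd h2 (by norm_num)
  · exact fun l hl => absurd hl List.not_mem_nil

theorem altF_A012E_00 {κ x : ℝ} (hκ : κ * h0 = ken x) (hx : ((50331648 : ℕ) : ℝ) / S ≤ x) (hx' : x ≤ (((50331648 : ℕ) : ℝ) + (16777216 : ℕ)) / S) :
    AltA (VF κ) PP tKF tL pcF [⟨0, 0, 0, 12582912⟩, ⟨1, 1, 0, 12582912⟩, ⟨2, 1, 0, 12582912⟩] 0 1 2 0 0 (sgb true) (sgb false) x := by
  have X : XR 12582912 x := XR.of hx hx' (by norm_num) (by norm_num) (by norm_num) (by norm_num)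
  refine (cornK_of [[⟨0, 0, 1, 25165824⟩, ⟨1, 1, 0, 8388608⟩, ⟨2, 1, 1, 25165824⟩, ⟨0, 0, 0, 83886080⟩, ⟨0, 1, 0, 1040187392⟩, ⟨2, 1, 0, 83886080⟩, ⟨2, 2, 0, 1040187392⟩]] (C := cA012E) (C0 := c0F) (j := (0 : Fin 5)) (k := (0 : Fin 5)) (lo := 0) (hi := 2) (W := 12582912) (N0 := 1) cA012E_q (sideF hx hx') gokF X (by norm_num) (by norm_num) (l := (0 : Fin 5)) rfl
    (gatF00 x) (gatF01 x) (gatF02 x) ?_).altFA rfl hκ le_rfl ?_
  · intro ρ a B hρ hd i h1 h2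
    fin_cases i
    · exact corXK_cert (G1 := gF0q0) (G2 := gF0q1) (Ga := gF0q2) (Gb := gF1q2) (GT := gF0q2) cA012E_ok tA012E_ok B hρ (gatF00 x) (gatF01 x) (fun _ => gatF02 x) (fun _ => gatF12 x) rfl (tgh_A012E (kodd x) (gpu0 x) (gpu1 x) (gpu2 x) (gatF00 x) (gatF01 x) (gatF02 x) B (le_sixteenth hd (by norm_num))) hd hx hx' CF.A012E_000
    · exact corTK_cert (G1 := gF0q0) (G2 := gF0q1) (Ga := gF1q2) (Gb := gF2q2) cA012E_ok B hρ (gatF00 x) (gatF01 x) (fun _ => gatF12 x) (fun _ => gatF22 x) hd hx hx' CF.A012E_001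
    · exact corTK_cert (G1 := gF0q0) (G2 := gF0q1) (Ga := gF2q2) (Gb := gF3q2) cA012E_ok B hρ (gatF00 x) (gatF01 x) (fun _ => gatF22 x) (fun h => absurd h (by decide)) hd hx hx' CF.A012E_002
    · exact absurd h2 (by norm_num)
  · intro l hl
    simp only [List.mem_cons, List.not_mem_nil, or_false] at hl
    rcases hl with rfl
    · exact Mo.molF_A_012_00_0 hκ hx hx'

theorem altF_A012L_00 {κ x : ℝ} (hκ : κ * h0 = ken x) (hx : ((50331648 : ℕ) : ℝ) / S ≤ x) (hx' : x ≤ (((50331648 : ℕ) : ℝ) + (16777216 : ℕ)) / S) :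
    AltA (VF κ) PP tKF tL pcF [⟨0, 0, 0, 50331648⟩, ⟨1, 1, 0, 50331648⟩, ⟨2, 1, 0, 50331648⟩] 0 1 2 0 0 (sgb true) (sgb true) x := by
  have X : XR 50331648 x := XR.of hx hx' (by norm_num) (by norm_num) (by norm_num) (by norm_num)
  refine (cornK_of [] (C := cA012L) (C0 := c0F) (j := (0 : Fin 5)) (k := (0 : Fin 5)) (lo := 4) (hi := 4) (W := 50331648) (N0 := 1) cA012L_q (sideF hx hx') gokF X (by norm_num) (by norm_num) (l := (4 : Fin 5)) rfl
    (gatF00 x) (gatF01 x) (gatF42 x) ?_).altFA rfl hκ le_rfl ?_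
  · intro ρ a B hρ hd i h1 h2
    fin_cases i
    · exact absurd h1 (by norm_num)
    · exact absurd h1 (by norm_num)
    · exact absurd h1 (by norm_num)
    · exact corTK_cert (G1 := gF0q0) (G2 := gF0q1) (Ga := gF3q2) (Gb := gF4q2) cA012L_ok B hρ (gatF00 x) (gatF01 x) (fun h => absurd h (by decide)) (fun _ => gatF42 x) hd hx hx' CF.A012L_003
  · exact fun l hl => absurd hl List.not_mem_nil

theorem altF_A012R_02 {κ x : ℝ} (hκ : κ * h0 = ken x) (hx : ((50331648 : ℕ) : ℝ) / S ≤ x) (hx' : x ≤ (((50331648 : ℕ) : ℝ) + (16777216 : ℕ)) / S) :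
    AltA (VF κ) PP tKF tL pcF [⟨0, 0, 0, 50331648⟩, ⟨1, 1, 0, 50331648⟩, ⟨2, 1, 0, 50331648⟩] 0 1 2 0 2 (sgb true) (sgb false) x := by
  have X : XR 50331648 x := XR.of hx hx' (by norm_num) (by norm_num) (by norm_num) (by norm_num)
  refine (cornK_of [[⟨0, 0, 1, 33554432⟩, ⟨1, 1, 2, 33554432⟩, ⟨2, 1, 0, 16777216⟩, ⟨0, 0, 0, 83886080⟩, ⟨0, 1, 0, 1040187392⟩, ⟨1, 0, 0, 1040187392⟩, ⟨1, 1, 0, 83886080⟩]] (C := cA012R) (C0 := c0F) (j := (0 : Fin 5)) (k := (2 : Fin 5)) (lo := 0) (hi := 2) (W := 50331648) (N0 := 1) cA012R_q (sideF hx hx') gokF X (by norm_num) (by norm_num) (l := (0 : Fin 5)) rfl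
    (gatF00 x) (gatF21 x) (gatF02 x) ?_).altFA rfl hκ le_rfl ?_
  · intro ρ a B hρ hd i h1 h2
    fin_cases i
    · exact corTK_cert (G1 := gF0q0) (G2 := gF2q1) (Ga := gF0q2) (Gb := gF1q2) cA012R_ok B hρ (gatF00 x) (gatF21 x) (fun _ => gatF02 x) (fun _ => gatF12 x) hd hx hx' CF.A012R_020
    · exact corTK_cert (G1 := gF0q0) (G2 := gF2q1) (Ga := gF1q2) (Gb := gF2q2) cA012R_ok B hρ (gatF00 x) (gatF21 x) (fun _ => gatF12 x) (fun _ => gatF22 x) hd hx hx' CF.A012R_021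
    · exact corTK_cert (G1 := gF0q0) (G2 := gF2q1) (Ga := gF2q2) (Gb := gF3q2) cA012R_ok B hρ (gatF00 x) (gatF21 x) (fun _ => gatF22 x) (fun h => absurd h (by decide)) hd hx hx' CF.A012R_022
    · exact absurd h2 (by norm_num)
  · intro l hl
    simp only [List.mem_cons, List.not_mem_nil, or_false] at hl
    rcases hl with rfl
    · exact Mo.molF_A_012_02_3 hκ hx hx'

theorem altF_A012R_03 {κ x : ℝ} (hκ : κ * h0 = ken x) (hx : ((50331648 : ℕ) : ℝ) / S ≤ x) (hx' : x ≤ (((50331648 : ℕ) : ℝ) + (16777216 : ℕ)) / S) :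
    AltA (VF κ) PP tKF tL pcF [⟨0, 0, 0, 50331648⟩, ⟨1, 1, 0, 50331648⟩, ⟨2, 1, 0, 50331648⟩] 0 1 2 0 3 (sgb true) (sgb false) x := by
  have X : XR 50331648 x := XR.of hx hx' (by norm_num) (by norm_num) (by norm_num) (by norm_num)
  refine (cornK_of [] (C := cA012R) (C0 := c0F) (j := (0 : Fin 5)) (k := (3 : Fin 5)) (lo := 0) (hi := 2) (W := 50331648) (N0 := 1) cA012R_q (sideF hx hx') gokF X (by norm_num) (by norm_num) (l := (0 : Fin 5)) rfl
    (gatF00 x) (gatF31 x) (gatF02 x) ?_).altFA rfl hκ le_rfl ?_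
  · intro ρ a B hρ hd i h1 h2
    fin_cases i
    · exact corTK_cert (G1 := gF0q0) (G2 := gF3q1) (Ga := gF0q2) (Gb := gF1q2) cA012R_ok B hρ (gatF00 x) (gatF31 x) (fun _ => gatF02 x) (fun _ => gatF12 x) hd hx hx' CF.A012R_030
    · exact corTK_cert (G1 := gF0q0) (G2 := gF3q1) (Ga := gF1q2) (Gb := gF2q2) cA012R_ok B hρ (gatF00 x) (gatF31 x) (fun _ => gatF12 x) (fun _ => gatF22 x) hd hx hx' CF.A012R_031
    · exact corTK_cert (G1 := gF0q0) (G2 := gF3q1) (Ga := gF2q2) (Gb := gF3q2) cA012R_ok B hρ (gatF00 x) (gatF31 x) (fun _ => gatF22 x) (fun h => absurd h (by decide)) hd hx hx' CF.A012R_032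
    · exact absurd h2 (by norm_num)
  · exact fun l hl => absurd hl List.not_mem_nil

theorem altF_A012R_04 {κ x : ℝ} (hκ : κ * h0 = ken x) (hx : ((50331648 : ℕ) : ℝ) / S ≤ x) (hx' : x ≤ (((50331648 : ℕ) : ℝ) + (16777216 : ℕ)) / S) :
    AltA (VF κ) PP tKF tL pcF [⟨0, 0, 0, 50331648⟩, ⟨1, 1, 0, 50331648⟩, ⟨2, 1, 0, 50331648⟩] 0 1 2 0 4 (sgb true) (sgb false) x := by
  have X : XR 50331648 x := XR.of hx hx' (by norm_num) (by norm_num) (by norm_num) (by norm_num)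
  refine (cornK_of [] (C := cA012R) (C0 := c0F) (j := (0 : Fin 5)) (k := (4 : Fin 5)) (lo := 0) (hi := 2) (W := 50331648) (N0 := 1) cA012R_q (sideF hx hx') gokF X (by norm_num) (by norm_num) (l := (0 : Fin 5)) rfl
    (gatF00 x) (gatF41 x) (gatF02 x) ?_).altFA rfl hκ le_rfl ?_
  · intro ρ a B hρ hd i h1 h2
    fin_cases i
    · exact corTK_cert (G1 := gF0q0) (G2 := gF4q1) (Ga := gF0q2) (Gb := gF1q2) cA012R_ok B hρ (gatF00 x) (gatF41 x) (fun _ => gatF02 x) (fun _ => gatF12 x) hd hx hx' CF.A012R_040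
    · exact corTK_cert (G1 := gF0q0) (G2 := gF4q1) (Ga := gF1q2) (Gb := gF2q2) cA012R_ok B hρ (gatF00 x) (gatF41 x) (fun _ => gatF12 x) (fun _ => gatF22 x) hd hx hx' CF.A012R_041
    · exact corTK_cert (G1 := gF0q0) (G2 := gF4q1) (Ga := gF2q2) (Gb := gF3q2) cA012R_ok B hρ (gatF00 x) (gatF41 x) (fun _ => gatF22 x) (fun h => absurd h (by decide)) hd hx hx' CF.A012R_042
    · exact absurd h2 (by norm_num)
  · exact fun l hl => absurd hl List.not_mem_nil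

theorem altF_A012R_12 {κ x : ℝ} (hκ : κ * h0 = ken x) (hx : ((50331648 : ℕ) : ℝ) / S ≤ x) (hx' : x ≤ (((50331648 : ℕ) : ℝ) + (16777216 : ℕ)) / S) :
    AltA (VF κ) PP tKF tL pcF [⟨0, 0, 0, 50331648⟩, ⟨1, 1, 0, 50331648⟩, ⟨2, 1, 0, 50331648⟩] 0 1 2 1 2 (sgb true) (sgb false) x := by
  have X : XR 50331648 x := XR.of hx hx' (by norm_num) (by norm_num) (by norm_num) (by norm_num)
  refine (cornK_of [] (C := cA012R) (C0 := c0F) (j := (1 : Fin 5)) (k := (2 : Fin 5)) (lo := 0) (hi := 2) (W := 50331648) (N0 := 1) cA012R_q (sideF hx hx') gokF X (by norm_num) (by norm_num) (l := (0 : Fin 5)) rfl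
    (gatF10 x) (gatF21 x) (gatF02 x) ?_).altFA rfl hκ le_rfl ?_
  · intro ρ a B hρ hd i h1 h2
    fin_cases i
    · exact corTK_cert (G1 := gF1q0) (G2 := gF2q1) (Ga := gF0q2) (Gb := gF1q2) cA012R_ok B hρ (gatF10 x) (gatF21 x) (fun _ => gatF02 x) (fun _ => gatF12 x) hd hx hx' CF.A012R_120
    · exact corTK_cert (G1 := gF1q0) (G2 := gF2q1) (Ga := gF1q2) (Gb := gF2q2) cA012R_ok B hρ (gatF10 x) (gatF21 x) (fun _ => gatF12 x) (fun _ => gatF22 x) hd hx hx' CF.A012R_121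
    · exact corTK_cert (G1 := gF1q0) (G2 := gF2q1) (Ga := gF2q2) (Gb := gF3q2) cA012R_ok B hρ (gatF10 x) (gatF21 x) (fun _ => gatF22 x) (fun h => absurd h (by decide)) hd hx hx' CF.A012R_122
    · exact absurd h2 (by norm_num)
  · exact fun l hl => absurd hl List.not_mem_nil

theorem altF_A012R_13 {κ x : ℝ} (hκ : κ * h0 = ken x) (hx : ((50331648 : ℕ) : ℝ) / S ≤ x) (hx' : x ≤ (((50331648 : ℕ) : ℝ) + (16777216 : ℕ)) / S) :
    AltA (VF κ) PP tKF tL pcF [⟨0, 0, 0, 50331648⟩, ⟨1, 1, 0, 50331648⟩, ⟨2, 1, 0, 50331648⟩] 0 1 2 1 3 (sgb true) (sgb false) x := by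
  have X : XR 50331648 x := XR.of hx hx' (by norm_num) (by norm_num) (by norm_num) (by norm_num)
  refine (cornK_of [] (C := cA012R) (C0 := c0F) (j := (1 : Fin 5)) (k := (3 : Fin 5)) (lo := 0) (hi := 2) (W := 50331648) (N0 := 1) cA012R_q (sideF hx hx') gokF X (by norm_num) (by norm_num) (l := (0 : Fin 5)) rfl
    (gatF10 x) (gatF31 x) (gatF02 x) ?_).altFA rfl hκ le_rfl ?_
  · intro ρ a B hρ hd i h1 h2
    fin_cases i
    · exact corTK_cert (G1 := gF1q0) (G2 := gF3q1) (Ga := gF0q2) (Gb := gF1q2) cA012R_ok B hρ (gatF10 x) (gatF31 x) (fun _ => gatF02 x) (fun _ => gatF12 x) hd hx hx' CF.A012R_130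
    · exact corTK_cert (G1 := gF1q0) (G2 := gF3q1) (Ga := gF1q2) (Gb := gF2q2) cA012R_ok B hρ (gatF10 x) (gatF31 x) (fun _ => gatF12 x) (fun _ => gatF22 x) hd hx hx' CF.A012R_131
    · exact corTK_cert (G1 := gF1q0) (G2 := gF3q1) (Ga := gF2q2) (Gb := gF3q2) cA012R_ok B hρ (gatF10 x) (gatF31 x) (fun _ => gatF22 x) (fun h => absurd h (by decide)) hd hx hx' CF.A012R_132
    · exact absurd h2 (by norm_num)
  · exact fun l hl => absurd hl List.not_mem_nil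

theorem altF_A012R_14 {κ x : ℝ} (hκ : κ * h0 = ken x) (hx : ((50331648 : ℕ) : ℝ) / S ≤ x) (hx' : x ≤ (((50331648 : ℕ) : ℝ) + (16777216 : ℕ)) / S) :
    AltA (VF κ) PP tKF tL pcF [⟨0, 0, 0, 50331648⟩, ⟨1, 1, 0, 50331648⟩, ⟨2, 1, 0, 50331648⟩] 0 1 2 1 4 (sgb true) (sgb false) x := by
  have X : XR 50331648 x := XR.of hx hx' (by norm_num) (by norm_num) (by norm_num) (by norm_num)
  refine (cornK_of [] (C := cA012R) (C0 := c0F) (j := (1 : Fin 5)) (k := (4 : Fin 5)) (lo := 0) (hi := 2) (W := 50331648) (N0 := 1) cA012R_q (sideF hx hx') gokF X (by norm_num) (by norm_num) (l := (0 : Fin 5)) rfl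
    (gatF10 x) (gatF41 x) (gatF02 x) ?_).altFA rfl hκ le_rfl ?_
  · intro ρ a B hρ hd i h1 h2
    fin_cases i
    · exact corTK_cert (G1 := gF1q0) (G2 := gF4q1) (Ga := gF0q2) (Gb := gF1q2) cA012R_ok B hρ (gatF10 x) (gatF41 x) (fun _ => gatF02 x) (fun _ => gatF12 x) hd hx hx' CF.A012R_140
    · exact corTK_cert (G1 := gF1q0) (G2 := gF4q1) (Ga := gF1q2) (Gb := gF2q2) cA012R_ok B hρ (gatF10 x) (gatF41 x) (fun _ => gatF12 x) (fun _ => gatF22 x) hd hx hx' CF.A012R_141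
    · exact corTK_cert (G1 := gF1q0) (G2 := gF4q1) (Ga := gF2q2) (Gb := gF3q2) cA012R_ok B hρ (gatF10 x) (gatF41 x) (fun _ => gatF22 x) (fun h => absurd h (by decide)) hd hx hx' CF.A012R_142
    · exact absurd h2 (by norm_num)
  · exact fun l hl => absurd hl List.not_mem_nil

theorem altF_A012R_22 {κ x : ℝ} (hκ : κ * h0 = ken x) (hx : ((50331648 : ℕ) : ℝ) / S ≤ x) (hx' : x ≤ (((50331648 : ℕ) : ℝ) + (16777216 : ℕ)) / S) :
    AltA (VF κ) PP tKF tL pcF [⟨0, 0, 0, 50331648⟩, ⟨1, 1, 0, 50331648⟩, ⟨2, 1, 0, 50331648⟩] 0 1 2 2 2 (sgb true) (sgb false) x := by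
  have X : XR 50331648 x := XR.of hx hx' (by norm_num) (by norm_num) (by norm_num) (by norm_num)
  refine (cornK_of [] (C := cA012R) (C0 := c0F) (j := (2 : Fin 5)) (k := (2 : Fin 5)) (lo := 0) (hi := 2) (W := 50331648) (N0 := 1) cA012R_q (sideF hx hx') gokF X (by norm_num) (by norm_num) (l := (0 : Fin 5)) rfl
    (gatF20 x) (gatF21 x) (gatF02 x) ?_).altFA rfl hκ le_rfl ?_
  · intro ρ a B hρ hd i h1 h2
    fin_cases i
    · exact corTK_cert (G1 := gF2q0) (G2 := gF2q1) (Ga := gF0q2) (Gb := gF1q2) cA012R_ok B hρ (gatF20 x) (gatF21 x) (fun _ => gatF02 x) (fun _ => gatF12 x) hd hx hx' CF.A012R_220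
    · exact corTK_cert (G1 := gF2q0) (G2 := gF2q1) (Ga := gF1q2) (Gb := gF2q2) cA012R_ok B hρ (gatF20 x) (gatF21 x) (fun _ => gatF12 x) (fun _ => gatF22 x) hd hx hx' CF.A012R_221
    · exact corTK_cert (G1 := gF2q0) (G2 := gF2q1) (Ga := gF2q2) (Gb := gF3q2) cA012R_ok B hρ (gatF20 x) (gatF21 x) (fun _ => gatF22 x) (fun h => absurd h (by decide)) hd hx hx' CF.A012R_222
    · exact absurd h2 (by norm_num)
  · exact fun l hl => absurd hl List.not_mem_nil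

theorem altF_A012R_23 {κ x : ℝ} (hκ : κ * h0 = ken x) (hx : ((50331648 : ℕ) : ℝ) / S ≤ x) (hx' : x ≤ (((50331648 : ℕ) : ℝ) + (16777216 : ℕ)) / S) :
    AltA (VF κ) PP tKF tL pcF [⟨0, 0, 0, 50331648⟩, ⟨1, 1, 0, 50331648⟩, ⟨2, 1, 0, 50331648⟩] 0 1 2 2 3 (sgb true) (sgb false) x := by
  have X : XR 50331648 x := XR.of hx hx' (by norm_num) (by norm_num) (by norm_num) (by norm_num)
  refine (cornK_of [] (C := cA012R) (C0 := c0F) (j := (2 : Fin 5)) (k := (3 : Fin 5)) (lo := 0) (hi := 2) (W := 50331648) (N0 := 1) cA012R_q (sideF hx hx') gokF X (by norm_num) (by norm_num) (l := (0 : Fin 5)) rfl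
    (gatF20 x) (gatF31 x) (gatF02 x) ?_).altFA rfl hκ le_rfl ?_
  · intro ρ a B hρ hd i h1 h2
    fin_cases i
    · exact corTK_cert (G1 := gF2q0) (G2 := gF3q1) (Ga := gF0q2) (Gb := gF1q2) cA012R_ok B hρ (gatF20 x) (gatF31 x) (fun _ => gatF02 x) (fun _ => gatF12 x) hd hx hx' CF.A012R_230
    · exact corTK_cert (G1 := gF2q0) (G2 := gF3q1) (Ga := gF1q2) (Gb := gF2q2) cA012R_ok B hρ (gatF20 x) (gatF31 x) (fun _ => gatF12 x) (fun _ => gatF22 x) hd hx hx' CF.A012R_231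
    · exact corTK_cert (G1 := gF2q0) (G2 := gF3q1) (Ga := gF2q2) (Gb := gF3q2) cA012R_ok B hρ (gatF20 x) (gatF31 x) (fun _ => gatF22 x) (fun h => absurd h (by decide)) hd hx hx' CF.A012R_232
    · exact absurd h2 (by norm_num)
  · exact fun l hl => absurd hl List.not_mem_nil

theorem altF_A012R_24 {κ x : ℝ} (hκ : κ * h0 = ken x) (hx : ((50331648 : ℕ) : ℝ) / S ≤ x) (hx' : x ≤ (((50331648 : ℕ) : ℝ) + (16777216 : ℕ)) / S) :
    AltA (VF κ) PP tKF tL pcF [⟨0, 0, 0, 50331648⟩, ⟨1, 1, 0, 50331648⟩, ⟨2, 1, 0, 50331648⟩] 0 1 2 2 4 (sgb true) (sgb false) x := by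
  have X : XR 50331648 x := XR.of hx hx' (by norm_num) (by norm_num) (by norm_num) (by norm_num)
  refine (cornK_of [] (C := cA012R) (C0 := c0F) (j := (2 : Fin 5)) (k := (4 : Fin 5)) (lo := 0) (hi := 2) (W := 50331648) (N0 := 1) cA012R_q (sideF hx hx') gokF X (by norm_num) (by norm_num) (l := (0 : Fin 5)) rfl
    (gatF20 x) (gatF41 x) (gatF02 x) ?_).altFA rfl hκ le_rfl ?_
  · intro ρ a B hρ hd i h1 h2
    fin_cases i
    · exact corTK_cert (G1 := gF2q0) (G2 := gF4q1) (Ga := gF0q2) (Gb := gF1q2) cA012R_ok B hρ (gatF20 x) (gatF41 x) (fun _ => gatF02 x) (fun _ => gatF12 x) hd hx hx' CF.A012R_240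
    · exact corTK_cert (G1 := gF2q0) (G2 := gF4q1) (Ga := gF1q2) (Gb := gF2q2) cA012R_ok B hρ (gatF20 x) (gatF41 x) (fun _ => gatF12 x) (fun _ => gatF22 x) hd hx hx' CF.A012R_241
    · exact corTK_cert (G1 := gF2q0) (G2 := gF4q1) (Ga := gF2q2) (Gb := gF3q2) cA012R_ok B hρ (gatF20 x) (gatF41 x) (fun _ => gatF22 x) (fun h => absurd h (by decide)) hd hx hx' CF.A012R_242
    · exact absurd h2 (by norm_num)
  · exact fun l hl => absurd hl List.not_mem_nil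

theorem altF_A022E_00 {κ x : ℝ} (hκ : κ * h0 = ken x) (hx : ((50331648 : ℕ) : ℝ) / S ≤ x) (hx' : x ≤ (((50331648 : ℕ) : ℝ) + (16777216 : ℕ)) / S) :
    AltA (VF κ) PP tKF tL pcF [⟨0, 0, 0, 50331648⟩, ⟨1, 1, 0, 50331648⟩, ⟨2, 1, 0, 50331648⟩] 0 2 2 0 0 (sgb true) (sgb false) x := by
  have X : XR 50331648 x := XR.of hx hx' (by norm_num) (by norm_num) (by norm_num) (by norm_num)
  refine (cornK_of [[⟨0, 0, 1, 25165824⟩, ⟨1, 1, 0, 8388608⟩, ⟨2, 1, 1, 25165824⟩, ⟨0, 0, 0, 83886080⟩, ⟨0, 1, 0, 1040187392⟩, ⟨2, 1, 0, 83886080⟩, ⟨2, 2, 0, 1040187392⟩]] (C := cA022E) (C0 := c0F) (j := (0 : Fin 5)) (k := (0 : Fin 5)) (lo := 0) (hi := 2) (W := 50331648) (N0 := 1) cA022E_q (sideF hx hx') gokF X (by norm_num) (by norm_num) (l := (0 : Fin 5)) rfl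
    (gatF00 x) (gatF02 x) (gatF02 x) ?_).altFA rfl hκ le_rfl ?_
  · intro ρ a B hρ hd i h1 h2
    fin_cases i
    · exact corTK_cert (G1 := gF0q0) (G2 := gF0q2) (Ga := gF0q2) (Gb := gF1q2) cA022E_ok B hρ (gatF00 x) (gatF02 x) (fun _ => gatF02 x) (fun _ => gatF12 x) hd hx hx' CF.A022E_000
    · exact corTK_cert (G1 := gF0q0) (G2 := gF0q2) (Ga := gF1q2) (Gb := gF2q2) cA022E_ok B hρ (gatF00 x) (gatF02 x) (fun _ => gatF12 x) (fun _ => gatF22 x) hd hx hx' CF.A022E_001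
    · exact corTK_cert (G1 := gF0q0) (G2 := gF0q2) (Ga := gF2q2) (Gb := gF3q2) cA022E_ok B hρ (gatF00 x) (gatF02 x) (fun _ => gatF22 x) (fun h => absurd h (by decide)) hd hx hx' CF.A022E_002
    · exact absurd h2 (by norm_num)
  · intro l hl
    simp only [List.mem_cons, List.not_mem_nil, or_false] at hl
    rcases hl with rfl
    · exact Mo.molF_A_022_00_0 hκ hx hx'

theorem altF_A022E_01 {κ x : ℝ} (hκ : κ * h0 = ken x) (hx : ((50331648 : ℕ) : ℝ) / S ≤ x) (hx' : x ≤ (((50331648 : ℕ) : ℝ) + (16777216 : ℕ)) / S) :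
    AltA (VF κ) PP tKF tL pcF [⟨0, 0, 0, 50331648⟩, ⟨1, 1, 0, 50331648⟩, ⟨2, 1, 0, 50331648⟩] 0 2 2 0 1 (sgb true) (sgb false) x := by
  have X : XR 50331648 x := XR.of hx hx' (by norm_num) (by norm_num) (by norm_num) (by norm_num)
  refine (cornK_of [[⟨0, 0, 1, 33554432⟩, ⟨1, 1, 0, 16777216⟩, ⟨2, 1, 1, 33554432⟩, ⟨0, 0, 0, 83886080⟩, ⟨0, 1, 0, 1040187392⟩, ⟨2, 1, 0, 83886080⟩, ⟨2, 2, 0, 1040187392⟩]] (C := cA022E) (C0 := c0F) (j := (0 : Fin 5)) (k := (1 : Fin 5)) (lo := 0) (hi := 2) (W := 50331648) (N0 := 1) cA022E_q (sideF hx hx') gokF X (by norm_num) (by norm_num) (l := (0 : Fin 5)) rfl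
    (gatF00 x) (gatF12 x) (gatF02 x) ?_).altFA rfl hκ le_rfl ?_
  · intro ρ a B hρ hd i h1 h2
    fin_cases i
    · exact corTK_cert (G1 := gF0q0) (G2 := gF1q2) (Ga := gF0q2) (Gb := gF1q2) cA022E_ok B hρ (gatF00 x) (gatF12 x) (fun _ => gatF02 x) (fun _ => gatF12 x) hd hx hx' CF.A022E_010
    · exact corTK_cert (G1 := gF0q0) (G2 := gF1q2) (Ga := gF1q2) (Gb := gF2q2) cA022E_ok B hρ (gatF00 x) (gatF12 x) (fun _ => gatF12 x) (fun _ => gatF22 x) hd hx hx' CF.A022E_011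
    · exact corTK_cert (G1 := gF0q0) (G2 := gF1q2) (Ga := gF2q2) (Gb := gF3q2) cA022E_ok B hρ (gatF00 x) (gatF12 x) (fun _ => gatF22 x) (fun h => absurd h (by decide)) hd hx hx' CF.A022E_012
    · exact absurd h2 (by norm_num)
  · intro l hl
    simp only [List.mem_cons, List.not_mem_nil, or_false] at hl
    rcases hl with rfl
    · exact Mo.molF_A_022_01_0 hκ hx hx'

theorem altF_A022E_02 {κ x : ℝ} (hκ : κ * h0 = ken x) (hx : ((50331648 : ℕ) : ℝ) / S ≤ x) (hx' : x ≤ (((50331648 : ℕ) : ℝ) + (16777216 : ℕ)) / S) :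
    AltA (VF κ) PP tKF tL pcF [⟨0, 0, 0, 50331648⟩, ⟨1, 1, 0, 50331648⟩, ⟨2, 1, 0, 50331648⟩] 0 2 2 0 2 (sgb true) (sgb false) x := by
  have X : XR 50331648 x := XR.of hx hx' (by norm_num) (by norm_num) (by norm_num) (by norm_num)
  refine (cornK_of [[⟨0, 0, 1, 33554432⟩, ⟨1, 1, 0, 16777216⟩, ⟨2, 1, 1, 33554432⟩, ⟨0, 0, 0, 83886080⟩, ⟨0, 1, 0, 1040187392⟩, ⟨2, 1, 0, 83886080⟩, ⟨2, 2, 0, 1040187392⟩]] (C := cA022E) (C0 := c0F) (j := (0 : Fin 5)) (k := (2 : Fin 5)) (lo := 0) (hi := 2) (W := 50331648) (N0 := 1) cA022E_q (sideF hx hx') gokF X (by norm_num) (by norm_num) (l := (0 : Fin 5)) rfl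
    (gatF00 x) (gatF22 x) (gatF02 x) ?_).altFA rfl hκ le_rfl ?_
  · intro ρ a B hρ hd i h1 h2
    fin_cases i
    · exact corTK_cert (G1 := gF0q0) (G2 := gF2q2) (Ga := gF0q2) (Gb := gF1q2) cA022E_ok B hρ (gatF00 x) (gatF22 x) (fun _ => gatF02 x) (fun _ => gatF12 x) hd hx hx' CF.A022E_020
    · exact corTK_cert (G1 := gF0q0) (G2 := gF2q2) (Ga := gF1q2) (Gb := gF2q2) cA022E_ok B hρ (gatF00 x) (gatF22 x) (fun _ => gatF12 x) (fun _ => gatF22 x) hd hx hx' CF.A022E_021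
    · exact corTK_cert (G1 := gF0q0) (G2 := gF2q2) (Ga := gF2q2) (Gb := gF3q2) cA022E_ok B hρ (gatF00 x) (gatF22 x) (fun _ => gatF22 x) (fun h => absurd h (by decide)) hd hx hx' CF.A022E_022
    · exact absurd h2 (by norm_num)
  · intro l hl
    simp only [List.mem_cons, List.not_mem_nil, or_false] at hl
    rcases hl with rfl
    · exact Mo.molF_A_022_02_0 hκ hx hx'

theorem altF_A022E_11 {κ x : ℝ} (hκ : κ * h0 = ken x) (hx : ((50331648 : ℕ) : ℝ) / S ≤ x) (hx' : x ≤ (((50331648 : ℕ) : ℝ) + (16777216 : ℕ)) / S) :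
    AltA (VF κ) PP tKF tL pcF [⟨0, 0, 0, 50331648⟩, ⟨1, 1, 0, 50331648⟩, ⟨2, 1, 0, 50331648⟩] 0 2 2 1 1 (sgb true) (sgb false) x := by
  have X : XR 50331648 x := XR.of hx hx' (by norm_num) (by norm_num) (by norm_num) (by norm_num)
  refine (cornK_of [] (C := cA022E) (C0 := c0F) (j := (1 : Fin 5)) (k := (1 : Fin 5)) (lo := 0) (hi := 2) (W := 50331648) (N0 := 1) cA022E_q (sideF hx hx') gokF X (by norm_num) (by norm_num) (l := (0 : Fin 5)) rfl
    (gatF10 x) (gatF12 x) (gatF02 x) ?_).altFA rfl hκ le_rfl ?_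
  · intro ρ a B hρ hd i h1 h2
    fin_cases i
    · exact corTK_cert (G1 := gF1q0) (G2 := gF1q2) (Ga := gF0q2) (Gb := gF1q2) cA022E_ok B hρ (gatF10 x) (gatF12 x) (fun _ => gatF02 x) (fun _ => gatF12 x) hd hx hx' CF.A022E_110
    · exact corTK_cert (G1 := gF1q0) (G2 := gF1q2) (Ga := gF1q2) (Gb := gF2q2) cA022E_ok B hρ (gatF10 x) (gatF12 x) (fun _ => gatF12 x) (fun _ => gatF22 x) hd hx hx' CF.A022E_111
    · exact corTK_cert (G1 := gF1q0) (G2 := gF1q2) (Ga := gF2q2) (Gb := gF3q2) cA022E_ok B hρ (gatF10 x) (gatF12 x) (fun _ => gatF22 x) (fun h => absurd h (by decide)) hd hx hx' CF.A022E_112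
    · exact absurd h2 (by norm_num)
  · exact fun l hl => absurd hl List.not_mem_nil

theorem altF_A022E_12 {κ x : ℝ} (hκ : κ * h0 = ken x) (hx : ((50331648 : ℕ) : ℝ) / S ≤ x) (hx' : x ≤ (((50331648 : ℕ) : ℝ) + (16777216 : ℕ)) / S) :
    AltA (VF κ) PP tKF tL pcF [⟨0, 0, 0, 50331648⟩, ⟨1, 1, 0, 50331648⟩, ⟨2, 1, 0, 50331648⟩] 0 2 2 1 2 (sgb true) (sgb false) x := by
  have X : XR 50331648 x := XR.of hx hx' (by norm_num) (by norm_num) (by norm_num) (by norm_num)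
  refine (cornK_of [] (C := cA022E) (C0 := c0F) (j := (1 : Fin 5)) (k := (2 : Fin 5)) (lo := 0) (hi := 2) (W := 50331648) (N0 := 1) cA022E_q (sideF hx hx') gokF X (by norm_num) (by norm_num) (l := (0 : Fin 5)) rfl
    (gatF10 x) (gatF22 x) (gatF02 x) ?_).altFA rfl hκ le_rfl ?_
  · intro ρ a B hρ hd i h1 h2
    fin_cases i
    · exact corTK_cert (G1 := gF1q0) (G2 := gF2q2) (Ga := gF0q2) (Gb := gF1q2) cA022E_ok B hρ (gatF10 x) (gatF22 x) (fun _ => gatF02 x) (fun _ => gatF12 x) hd hx hx' CF.A022E_120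
    · exact corTK_cert (G1 := gF1q0) (G2 := gF2q2) (Ga := gF1q2) (Gb := gF2q2) cA022E_ok B hρ (gatF10 x) (gatF22 x) (fun _ => gatF12 x) (fun _ => gatF22 x) hd hx hx' CF.A022E_121
    · exact corTK_cert (G1 := gF1q0) (G2 := gF2q2) (Ga := gF2q2) (Gb := gF3q2) cA022E_ok B hρ (gatF10 x) (gatF22 x) (fun _ => gatF22 x) (fun h => absurd h (by decide)) hd hx hx' CF.A022E_122
    · exact absurd h2 (by norm_num)
  · exact fun l hl => absurd hl List.not_mem_nil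

theorem altF_A022E_22 {κ x : ℝ} (hκ : κ * h0 = ken x) (hx : ((50331648 : ℕ) : ℝ) / S ≤ x) (hx' : x ≤ (((50331648 : ℕ) : ℝ) + (16777216 : ℕ)) / S) :
    AltA (VF κ) PP tKF tL pcF [⟨0, 0, 0, 50331648⟩, ⟨1, 1, 0, 50331648⟩, ⟨2, 1, 0, 50331648⟩] 0 2 2 2 2 (sgb true) (sgb false) x := by
  have X : XR 50331648 x := XR.of hx hx' (by norm_num) (by norm_num) (by norm_num) (by norm_num)
  refine (cornK_of [] (C := cA022E) (C0 := c0F) (j := (2 : Fin 5)) (k := (2 : Fin 5)) (lo := 0) (hi := 2) (W := 50331648) (N0 := 1) cA022E_q (sideF hx hx') gokF X (by norm_num) (by norm_num) (l := (0 : Fin 5)) rfl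
    (gatF20 x) (gatF22 x) (gatF02 x) ?_).altFA rfl hκ le_rfl ?_
  · intro ρ a B hρ hd i h1 h2
    fin_cases i
    · exact corTK_cert (G1 := gF2q0) (G2 := gF2q2) (Ga := gF0q2) (Gb := gF1q2) cA022E_ok B hρ (gatF20 x) (gatF22 x) (fun _ => gatF02 x) (fun _ => gatF12 x) hd hx hx' CF.A022E_220
    · exact corTK_cert (G1 := gF2q0) (G2 := gF2q2) (Ga := gF1q2) (Gb := gF2q2) cA022E_ok B hρ (gatF20 x) (gatF22 x) (fun _ => gatF12 x) (fun _ => gatF22 x) hd hx hx' CF.A022E_221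
    · exact corTK_cert (G1 := gF2q0) (G2 := gF2q2) (Ga := gF2q2) (Gb := gF3q2) cA022E_ok B hρ (gatF20 x) (gatF22 x) (fun _ => gatF22 x) (fun h => absurd h (by decide)) hd hx hx' CF.A022E_222
    · exact absurd h2 (by norm_num)
  · exact fun l hl => absurd hl List.not_mem_nil

theorem altF_A022L_00 {κ x : ℝ} (hκ : κ * h0 = ken x) (hx : ((50331648 : ℕ) : ℝ) / S ≤ x) (hx' : x ≤ (((50331648 : ℕ) : ℝ) + (16777216 : ℕ)) / S) :
    AltA (VF κ) PP tKF tL pcF [⟨0, 0, 0, 16777216⟩, ⟨1, 1, 0, 16777216⟩, ⟨2, 1, 0, 16777216⟩] 0 2 2 0 0 (sgb true) (sgb true) x := by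
  have X : XR 16777216 x := XR.of hx hx' (by norm_num) (by norm_num) (by norm_num) (by norm_num)
  refine (cornK_of [] (C := cA022L) (C0 := c0F) (j := (0 : Fin 5)) (k := (0 : Fin 5)) (lo := 4) (hi := 4) (W := 16777216) (N0 := 1) cA022L_q (sideF hx hx') gokF X (by norm_num) (by norm_num) (l := (4 : Fin 5)) rfl
    (gatF00 x) (gatF02 x) (gatF42 x) ?_).altFA rfl hκ le_rfl ?_
  · intro ρ a B hρ hd i h1 h2
    fin_cases i
    · exact absurd h1 (by norm_num)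
    · exact absurd h1 (by norm_num)
    · exact absurd h1 (by norm_num)
    · exact corXK_cert (G1 := gF0q0) (G2 := gF0q2) (Ga := gF3q2) (Gb := gF4q2) (GT := gF4q2) cA022L_ok tA022L_ok B hρ (gatF00 x) (gatF02 x) (fun h => absurd h (by decide)) (fun _ => gatF42 x) rfl (tgh_A022L (kodd x) (gpu0 x) (gpu2 x) (gpt2 x) (gatF00 x) (gatF02 x) (gatF42 x) B (le_sixteenth hd (by norm_num))) hd hx hx' CF.A022L_003
  · exact fun l hl => absurd hl List.not_mem_nil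

theorem altF_A022L_01 {κ x : ℝ} (hκ : κ * h0 = ken x) (hx : ((50331648 : ℕ) : ℝ) / S ≤ x) (hx' : x ≤ (((50331648 : ℕ) : ℝ) + (16777216 : ℕ)) / S) :
    AltA (VF κ) PP tKF tL pcF [⟨0, 0, 0, 50331648⟩, ⟨1, 1, 0, 50331648⟩, ⟨2, 1, 0, 50331648⟩] 0 2 2 0 1 (sgb true) (sgb true) x := by
  have X : XR 50331648 x := XR.of hx hx' (by norm_num) (by norm_num) (by norm_num) (by norm_num)
  refine (cornK_of [] (C := cA022L) (C0 := c0F) (j := (0 : Fin 5)) (k := (1 : Fin 5)) (lo := 4) (hi := 4) (W := 50331648) (N0 := 1) cA022L_q (sideF hx hx') gokF X (by norm_num) (by norm_num) (l := (4 : Fin 5)) rfl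
    (gatF00 x) (gatF12 x) (gatF42 x) ?_).altFA rfl hκ le_rfl ?_
  · intro ρ a B hρ hd i h1 h2
    fin_cases i
    · exact absurd h1 (by norm_num)
    · exact absurd h1 (by norm_num)
    · exact absurd h1 (by norm_num)
    · exact corTK_cert (G1 := gF0q0) (G2 := gF1q2) (Ga := gF3q2) (Gb := gF4q2) cA022L_ok B hρ (gatF00 x) (gatF12 x) (fun h => absurd h (by decide)) (fun _ => gatF42 x) hd hx hx' CF.A022L_013
  · exact fun l hl => absurd hl List.not_mem_nil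

theorem altF_A022L_02 {κ x : ℝ} (hκ : κ * h0 = ken x) (hx : ((50331648 : ℕ) : ℝ) / S ≤ x) (hx' : x ≤ (((50331648 : ℕ) : ℝ) + (16777216 : ℕ)) / S) :
    AltA (VF κ) PP tKF tL pcF [⟨0, 0, 0, 50331648⟩, ⟨1, 1, 0, 50331648⟩, ⟨2, 1, 0, 50331648⟩] 0 2 2 0 2 (sgb true) (sgb true) x := by
  have X : XR 50331648 x := XR.of hx hx' (by norm_num) (by norm_num) (by norm_num) (by norm_num)
  refine (cornK_of [] (C := cA022L) (C0 := c0F) (j := (0 : Fin 5)) (k := (2 : Fin 5)) (lo := 4) (hi := 4) (W := 50331648) (N0 := 1) cA022L_q (sideF hx hx') gokF X (by norm_num) (by norm_num) (l := (4 : Fin 5)) rfl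
    (gatF00 x) (gatF22 x) (gatF42 x) ?_).altFA rfl hκ le_rfl ?_
  · intro ρ a B hρ hd i h1 h2
    fin_cases i
    · exact absurd h1 (by norm_num)
    · exact absurd h1 (by norm_num)
    · exact absurd h1 (by norm_num)
    · exact corTK_cert (G1 := gF0q0) (G2 := gF2q2) (Ga := gF3q2) (Gb := gF4q2) cA022L_ok B hρ (gatF00 x) (gatF22 x) (fun h => absurd h (by decide)) (fun _ => gatF42 x) hd hx hx' CF.A022L_023
  · exact fun l hl => absurd hl List.not_mem_nil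

theorem altF_A022L_11 {κ x : ℝ} (hκ : κ * h0 = ken x) (hx : ((50331648 : ℕ) : ℝ) / S ≤ x) (hx' : x ≤ (((50331648 : ℕ) : ℝ) + (16777216 : ℕ)) / S) :
    AltA (VF κ) PP tKF tL pcF [⟨0, 0, 0, 50331648⟩, ⟨1, 1, 0, 50331648⟩, ⟨2, 1, 0, 50331648⟩] 0 2 2 1 1 (sgb true) (sgb true) x := by
  have X : XR 50331648 x := XR.of hx hx' (by norm_num) (by norm_num) (by norm_num) (by norm_num)
  refine (cornK_of [] (C := cA022L) (C0 := c0F) (j := (1 : Fin 5)) (k := (1 : Fin 5)) (lo := 4) (hi := 4) (W := 50331648) (N0 := 1) cA022L_q (sideF hx hx') gokF X (by norm_num) (by norm_num) (l := (4 : Fin 5)) rfl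
    (gatF10 x) (gatF12 x) (gatF42 x) ?_).altFA rfl hκ le_rfl ?_
  · intro ρ a B hρ hd i h1 h2
    fin_cases i
    · exact absurd h1 (by norm_num)
    · exact absurd h1 (by norm_num)
    · exact absurd h1 (by norm_num)
    · exact corTK_cert (G1 := gF1q0) (G2 := gF1q2) (Ga := gF3q2) (Gb := gF4q2) cA022L_ok B hρ (gatF10 x) (gatF12 x) (fun h => absurd h (by decide)) (fun _ => gatF42 x) hd hx hx' CF.A022L_113
  · exact fun l hl => absurd hl List.not_mem_nil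

theorem altF_A022L_12 {κ x : ℝ} (hκ : κ * h0 = ken x) (hx : ((50331648 : ℕ) : ℝ) / S ≤ x) (hx' : x ≤ (((50331648 : ℕ) : ℝ) + (16777216 : ℕ)) / S) :
    AltA (VF κ) PP tKF tL pcF [⟨0, 0, 0, 50331648⟩, ⟨1, 1, 0, 50331648⟩, ⟨2, 1, 0, 50331648⟩] 0 2 2 1 2 (sgb true) (sgb true) x := by
  have X : XR 50331648 x := XR.of hx hx' (by norm_num) (by norm_num) (by norm_num) (by norm_num)
  refine (cornK_of [] (C := cA022L) (C0 := c0F) (j := (1 : Fin 5)) (k := (2 : Fin 5)) (lo := 4) (hi := 4) (W := 50331648) (N0 := 1) cA022L_q (sideF hx hx') gokF X (by norm_num) (by norm_num) (l := (4 : Fin 5)) rfl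
    (gatF10 x) (gatF22 x) (gatF42 x) ?_).altFA rfl hκ le_rfl ?_
  · intro ρ a B hρ hd i h1 h2
    fin_cases i
    · exact absurd h1 (by norm_num)
    · exact absurd h1 (by norm_num)
    · exact absurd h1 (by norm_num)
    · exact corTK_cert (G1 := gF1q0) (G2 := gF2q2) (Ga := gF3q2) (Gb := gF4q2) cA022L_ok B hρ (gatF10 x) (gatF22 x) (fun h => absurd h (by decide)) (fun _ => gatF42 x) hd hx hx' CF.A022L_123
  · exact fun l hl => absurd hl List.not_mem_nil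

theorem altF_A022L_22 {κ x : ℝ} (hκ : κ * h0 = ken x) (hx : ((50331648 : ℕ) : ℝ) / S ≤ x) (hx' : x ≤ (((50331648 : ℕ) : ℝ) + (16777216 : ℕ)) / S) :
    AltA (VF κ) PP tKF tL pcF [⟨0, 0, 0, 50331648⟩, ⟨1, 1, 0, 50331648⟩, ⟨2, 1, 0, 50331648⟩] 0 2 2 2 2 (sgb true) (sgb true) x := by
  have X : XR 50331648 x := XR.of hx hx' (by norm_num) (by norm_num) (by norm_num) (by norm_num)
  refine (cornK_of [] (C := cA022L) (C0 := c0F) (j := (2 : Fin 5)) (k := (2 : Fin 5)) (lo := 4) (hi := 4) (W := 50331648) (N0 := 1) cA022L_q (sideF hx hx') gokF X (by norm_num) (by norm_num) (l := (4 : Fin 5)) rfl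
    (gatF20 x) (gatF22 x) (gatF42 x) ?_).altFA rfl hκ le_rfl ?_
  · intro ρ a B hρ hd i h1 h2
    fin_cases i
    · exact absurd h1 (by norm_num)
    · exact absurd h1 (by norm_num)
    · exact absurd h1 (by norm_num)
    · exact corTK_cert (G1 := gF2q0) (G2 := gF2q2) (Ga := gF3q2) (Gb := gF4q2) cA022L_ok B hρ (gatF20 x) (gatF22 x) (fun h => absurd h (by decide)) (fun _ => gatF42 x) hd hx hx' CF.A022L_223
  · exact fun l hl => absurd hl List.not_mem_nil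

theorem altF_A022R_04 {κ x : ℝ} (hκ : κ * h0 = ken x) (hx : ((50331648 : ℕ) : ℝ) / S ≤ x) (hx' : x ≤ (((50331648 : ℕ) : ℝ) + (16777216 : ℕ)) / S) :
    AltA (VF κ) PP tKF tL pcF [⟨0, 0, 0, 50331648⟩, ⟨1, 1, 0, 50331648⟩, ⟨2, 1, 0, 50331648⟩] 0 2 2 0 4 (sgb true) (sgb false) x := by
  have X : XR 50331648 x := XR.of hx hx' (by norm_num) (by norm_num) (by norm_num) (by norm_num)
  refine (cornK_of [] (C := cA022R) (C0 := c0F) (j := (0 : Fin 5)) (k := (4 : Fin 5)) (lo := 0) (hi := 2) (W := 50331648) (N0 := 1) cA022R_q (sideF hx hx') gokF X (by norm_num) (by norm_num) (l := (0 : Fin 5)) rfl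
    (gatF00 x) (gatF42 x) (gatF02 x) ?_).altFA rfl hκ le_rfl ?_
  · intro ρ a B hρ hd i h1 h2
    fin_cases i
    · exact corTK_cert (G1 := gF0q0) (G2 := gF4q2) (Ga := gF0q2) (Gb := gF1q2) cA022R_ok B hρ (gatF00 x) (gatF42 x) (fun _ => gatF02 x) (fun _ => gatF12 x) hd hx hx' CF.A022R_040
    · exact corTK_cert (G1 := gF0q0) (G2 := gF4q2) (Ga := gF1q2) (Gb := gF2q2) cA022R_ok B hρ (gatF00 x) (gatF42 x) (fun _ => gatF12 x) (fun _ => gatF22 x) hd hx hx' CF.A022R_041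
    · exact corTK_cert (G1 := gF0q0) (G2 := gF4q2) (Ga := gF2q2) (Gb := gF3q2) cA022R_ok B hρ (gatF00 x) (gatF42 x) (fun _ => gatF22 x) (fun h => absurd h (by decide)) hd hx hx' CF.A022R_042
    · exact absurd h2 (by norm_num)
  · exact fun l hl => absurd hl List.not_mem_nil

theorem altF_A022R_14 {κ x : ℝ} (hκ : κ * h0 = ken x) (hx : ((50331648 : ℕ) : ℝ) / S ≤ x) (hx' : x ≤ (((50331648 : ℕ) : ℝ) + (16777216 : ℕ)) / S) :
    AltA (VF κ) PP tKF tL pcF [⟨0, 0, 0, 50331648⟩, ⟨1, 1, 0, 50331648⟩, ⟨2, 1, 0, 50331648⟩] 0 2 2 1 4 (sgb true) (sgb false) x := by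
  have X : XR 50331648 x := XR.of hx hx' (by norm_num) (by norm_num) (by norm_num) (by norm_num)
  refine (cornK_of [] (C := cA022R) (C0 := c0F) (j := (1 : Fin 5)) (k := (4 : Fin 5)) (lo := 0) (hi := 2) (W := 50331648) (N0 := 1) cA022R_q (sideF hx hx') gokF X (by norm_num) (by norm_num) (l := (0 : Fin 5)) rfl
    (gatF10 x) (gatF42 x) (gatF02 x) ?_).altFA rfl hκ le_rfl ?_
  · intro ρ a B hρ hd i h1 h2
    fin_cases i
    · exact corTK_cert (G1 := gF1q0) (G2 := gF4q2) (Ga := gF0q2) (Gb := gF1q2) cA022R_ok B hρ (gatF10 x) (gatF42 x) (fun _ => gatF02 x) (fun _ => gatF12 x) hd hx hx' CF.A022R_140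
    · exact corTK_cert (G1 := gF1q0) (G2 := gF4q2) (Ga := gF1q2) (Gb := gF2q2) cA022R_ok B hρ (gatF10 x) (gatF42 x) (fun _ => gatF12 x) (fun _ => gatF22 x) hd hx hx' CF.A022R_141
    · exact corTK_cert (G1 := gF1q0) (G2 := gF4q2) (Ga := gF2q2) (Gb := gF3q2) cA022R_ok B hρ (gatF10 x) (gatF42 x) (fun _ => gatF22 x) (fun h => absurd h (by decide)) hd hx hx' CF.A022R_142
    · exact absurd h2 (by norm_num)
  · exact fun l hl => absurd hl List.not_mem_nil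

theorem altF_A022R_24 {κ x : ℝ} (hκ : κ * h0 = ken x) (hx : ((50331648 : ℕ) : ℝ) / S ≤ x) (hx' : x ≤ (((50331648 : ℕ) : ℝ) + (16777216 : ℕ)) / S) :
    AltA (VF κ) PP tKF tL pcF [⟨0, 0, 0, 50331648⟩, ⟨1, 1, 0, 50331648⟩, ⟨2, 1, 0, 50331648⟩] 0 2 2 2 4 (sgb true) (sgb false) x := by
  have X : XR 50331648 x := XR.of hx hx' (by norm_num) (by norm_num) (by norm_num) (by norm_num)
  refine (cornK_of [] (C := cA022R) (C0 := c0F) (j := (2 : Fin 5)) (k := (4 : Fin 5)) (lo := 0) (hi := 2) (W := 50331648) (N0 := 1) cA022R_q (sideF hx hx') gokF X (by norm_num) (by norm_num) (l := (0 : Fin 5)) rfl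
    (gatF20 x) (gatF42 x) (gatF02 x) ?_).altFA rfl hκ le_rfl ?_
  · intro ρ a B hρ hd i h1 h2
    fin_cases i
    · exact corTK_cert (G1 := gF2q0) (G2 := gF4q2) (Ga := gF0q2) (Gb := gF1q2) cA022R_ok B hρ (gatF20 x) (gatF42 x) (fun _ => gatF02 x) (fun _ => gatF12 x) hd hx hx' CF.A022R_240
    · exact corTK_cert (G1 := gF2q0) (G2 := gF4q2) (Ga := gF1q2) (Gb := gF2q2) cA022R_ok B hρ (gatF20 x) (gatF42 x) (fun _ => gatF12 x) (fun _ => gatF22 x) hd hx hx' CF.A022R_241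
    · exact corTK_cert (G1 := gF2q0) (G2 := gF4q2) (Ga := gF2q2) (Gb := gF3q2) cA022R_ok B hρ (gatF20 x) (gatF42 x) (fun _ => gatF22 x) (fun h => absurd h (by decide)) hd hx hx' CF.A022R_242
    · exact absurd h2 (by norm_num)
  · exact fun l hl => absurd hl List.not_mem_nil

theorem altF_A101E_00 {κ x : ℝ} (hκ : κ * h0 = ken x) (hx : ((50331648 : ℕ) : ℝ) / S ≤ x) (hx' : x ≤ (((50331648 : ℕ) : ℝ) + (16777216 : ℕ)) / S) :
    AltA (VF κ) PP tKF tL pcF [⟨0, 1, 0, 50331648⟩, ⟨1, 0, 0, 50331648⟩, ⟨2, 1, 0, 50331648⟩] 1 0 1 0 0 (sgb true) (sgb false) x := by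
  have X : XR 50331648 x := XR.of hx hx' (by norm_num) (by norm_num) (by norm_num) (by norm_num)
  refine (cornK_of [] (C := cA101E) (C0 := c0F) (j := (0 : Fin 5)) (k := (0 : Fin 5)) (lo := 0) (hi := 0) (W := 50331648) (N0 := 1) cA101E_q (sideF hx hx') gokF X (by norm_num) (by norm_num) (l := (0 : Fin 5)) rfl
    (gatF01 x) (gatF00 x) (gatF01 x) ?_).altFA rfl hκ le_rfl ?_
  · intro ρ a B hρ hd i h1 h2
    fin_cases i
    · exact corTK_cert (G1 := gF0q1) (G2 := gF0q0) (Ga := gF0q1) (Gb := gF1q1) cA101E_ok B hρ (gatF01 x) (gatF00 x) (fun _ => gatF01 x) (fun h => absurd h (by decide)) hd hx hx' CF.A101E_000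
    · exact absurd h2 (by norm_num)
    · exact absurd h2 (by norm_num)
    · exact absurd h2 (by norm_num)
  · exact fun l hl => absurd hl List.not_mem_nil

theorem altF_A101E_01 {κ x : ℝ} (hκ : κ * h0 = ken x) (hx : ((50331648 : ℕ) : ℝ) / S ≤ x) (hx' : x ≤ (((50331648 : ℕ) : ℝ) + (16777216 : ℕ)) / S) :
    AltA (VF κ) PP tKF tL pcF [⟨0, 1, 0, 50331648⟩, ⟨1, 0, 0, 50331648⟩, ⟨2, 1, 0, 50331648⟩] 1 0 1 0 1 (sgb true) (sgb false) x := by
  have X : XR 50331648 x := XR.of hx hx' (by norm_num) (by norm_num) (by norm_num) (by norm_num)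
  refine (cornK_of [] (C := cA101E) (C0 := c0F) (j := (0 : Fin 5)) (k := (1 : Fin 5)) (lo := 0) (hi := 0) (W := 50331648) (N0 := 1) cA101E_q (sideF hx hx') gokF X (by norm_num) (by norm_num) (l := (0 : Fin 5)) rfl
    (gatF01 x) (gatF10 x) (gatF01 x) ?_).altFA rfl hκ le_rfl ?_
  · intro ρ a B hρ hd i h1 h2
    fin_cases i
    · exact corTK_cert (G1 := gF0q1) (G2 := gF1q0) (Ga := gF0q1) (Gb := gF1q1) cA101E_ok B hρ (gatF01 x) (gatF10 x) (fun _ => gatF01 x) (fun h => absurd h (by decide)) hd hx hx' CF.A101E_010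
    · exact absurd h2 (by norm_num)
    · exact absurd h2 (by norm_num)
    · exact absurd h2 (by norm_num)
  · exact fun l hl => absurd hl List.not_mem_nil

theorem altF_A101E_02 {κ x : ℝ} (hκ : κ * h0 = ken x) (hx : ((50331648 : ℕ) : ℝ) / S ≤ x) (hx' : x ≤ (((50331648 : ℕ) : ℝ) + (16777216 : ℕ)) / S) :
    AltA (VF κ) PP tKF tL pcF [⟨0, 1, 0, 50331648⟩, ⟨1, 0, 0, 50331648⟩, ⟨2, 1, 0, 50331648⟩] 1 0 1 0 2 (sgb true) (sgb false) x := by
  have X : XR 50331648 x := XR.of hx hx' (by norm_num) (by norm_num) (by norm_num) (by norm_num)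
  refine (cornK_of [] (C := cA101E) (C0 := c0F) (j := (0 : Fin 5)) (k := (2 : Fin 5)) (lo := 0) (hi := 0) (W := 50331648) (N0 := 1) cA101E_q (sideF hx hx') gokF X (by norm_num) (by norm_num) (l := (0 : Fin 5)) rfl
    (gatF01 x) (gatF20 x) (gatF01 x) ?_).altFA rfl hκ le_rfl ?_
  · intro ρ a B hρ hd i h1 h2
    fin_cases i
    · exact corTK_cert (G1 := gF0q1) (G2 := gF2q0) (Ga := gF0q1) (Gb := gF1q1) cA101E_ok B hρ (gatF01 x) (gatF20 x) (fun _ => gatF01 x) (fun h => absurd h (by decide)) hd hx hx' CF.A101E_020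
    · exact absurd h2 (by norm_num)
    · exact absurd h2 (by norm_num)
    · exact absurd h2 (by norm_num)
  · exact fun l hl => absurd hl List.not_mem_nil

theorem altF_A101L_22 {κ x : ℝ} (hκ : κ * h0 = ken x) (hx : ((50331648 : ℕ) : ℝ) / S ≤ x) (hx' : x ≤ (((50331648 : ℕ) : ℝ) + (16777216 : ℕ)) / S) :
    AltA (VF κ) PP tKF tL pcF [⟨0, 1, 0, 50331648⟩, ⟨1, 0, 0, 50331648⟩, ⟨2, 1, 0, 50331648⟩] 1 0 1 2 2 (sgb true) (sgb false) x := by
  have X : XR 50331648 x := XR.of hx hx' (by norm_num) (by norm_num) (by norm_num) (by norm_num)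
  refine (cornK_of [] (C := cA101L) (C0 := c0F) (j := (2 : Fin 5)) (k := (2 : Fin 5)) (lo := 0) (hi := 0) (W := 50331648) (N0 := 1) cA101L_q (sideF hx hx') gokF X (by norm_num) (by norm_num) (l := (0 : Fin 5)) rfl
    (gatF21 x) (gatF20 x) (gatF01 x) ?_).altFA rfl hκ le_rfl ?_
  · intro ρ a B hρ hd i h1 h2
    fin_cases i
    · exact corTK_cert (G1 := gF2q1) (G2 := gF2q0) (Ga := gF0q1) (Gb := gF1q1) cA101L_ok B hρ (gatF21 x) (gatF20 x) (fun _ => gatF01 x) (fun h => absurd h (by decide)) hd hx hx' CF.A101L_220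
    · exact absurd h2 (by norm_num)
    · exact absurd h2 (by norm_num)
    · exact absurd h2 (by norm_num)
  · exact fun l hl => absurd hl List.not_mem_nil

theorem altF_A101R_00 {κ x : ℝ} (hκ : κ * h0 = ken x) (hx : ((50331648 : ℕ) : ℝ) / S ≤ x) (hx' : x ≤ (((50331648 : ℕ) : ℝ) + (16777216 : ℕ)) / S) :
    AltA (VF κ) PP tKF tL pcF [⟨0, 1, 0, 50331648⟩, ⟨1, 0, 0, 50331648⟩, ⟨2, 1, 0, 50331648⟩] 1 0 1 0 0 (sgb false) (sgb false) x := by
  have X : XR 50331648 x := XR.of hx hx' (by norm_num) (by norm_num) (by norm_num) (by norm_num)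
  refine (cornK_of [] (C := cA101R) (C0 := c0F) (j := (0 : Fin 5)) (k := (0 : Fin 5)) (lo := 2) (hi := 4) (W := 50331648) (N0 := 1) cA101R_q (sideF hx hx') gokF X (by norm_num) (by norm_num) (l := (2 : Fin 5)) rfl
    (gatF01 x) (gatF00 x) (gatF21 x) ?_).altFA rfl hκ le_rfl ?_
  · intro ρ a B hρ hd i h1 h2
    fin_cases i
    · exact absurd h1 (by norm_num)
    · exact corTK_cert (G1 := gF0q1) (G2 := gF0q0) (Ga := gF1q1) (Gb := gF2q1) cA101R_ok B hρ (gatF01 x) (gatF00 x) (fun h => absurd h (by decide)) (fun _ => gatF21 x) hd hx hx' CF.A101R_001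
    · exact corTK_cert (G1 := gF0q1) (G2 := gF0q0) (Ga := gF2q1) (Gb := gF3q1) cA101R_ok B hρ (gatF01 x) (gatF00 x) (fun _ => gatF21 x) (fun _ => gatF31 x) hd hx hx' CF.A101R_002
    · exact corTK_cert (G1 := gF0q1) (G2 := gF0q0) (Ga := gF3q1) (Gb := gF4q1) cA101R_ok B hρ (gatF01 x) (gatF00 x) (fun _ => gatF31 x) (fun _ => gatF41 x) hd hx hx' CF.A101R_003
  · exact fun l hl => absurd hl List.not_mem_nil

theorem altF_A101R_01 {κ x : ℝ} (hκ : κ * h0 = ken x) (hx : ((50331648 : ℕ) : ℝ) / S ≤ x) (hx' : x ≤ (((50331648 : ℕ) : ℝ) + (16777216 : ℕ)) / S) :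
    AltA (VF κ) PP tKF tL pcF [⟨0, 1, 0, 50331648⟩, ⟨1, 0, 0, 50331648⟩, ⟨2, 1, 0, 50331648⟩] 1 0 1 0 1 (sgb false) (sgb false) x := by
  have X : XR 50331648 x := XR.of hx hx' (by norm_num) (by norm_num) (by norm_num) (by norm_num)
  refine (cornK_of [] (C := cA101R) (C0 := c0F) (j := (0 : Fin 5)) (k := (1 : Fin 5)) (lo := 2) (hi := 4) (W := 50331648) (N0 := 1) cA101R_q (sideF hx hx') gokF X (by norm_num) (by norm_num) (l := (2 : Fin 5)) rfl
    (gatF01 x) (gatF10 x) (gatF21 x) ?_).altFA rfl hκ le_rfl ?_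
  · intro ρ a B hρ hd i h1 h2
    fin_cases i
    · exact absurd h1 (by norm_num)
    · exact corTK_cert (G1 := gF0q1) (G2 := gF1q0) (Ga := gF1q1) (Gb := gF2q1) cA101R_ok B hρ (gatF01 x) (gatF10 x) (fun h => absurd h (by decide)) (fun _ => gatF21 x) hd hx hx' CF.A101R_011
    · exact corTK_cert (G1 := gF0q1) (G2 := gF1q0) (Ga := gF2q1) (Gb := gF3q1) cA101R_ok B hρ (gatF01 x) (gatF10 x) (fun _ => gatF21 x) (fun _ => gatF31 x) hd hx hx' CF.A101R_012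
    · exact corTK_cert (G1 := gF0q1) (G2 := gF1q0) (Ga := gF3q1) (Gb := gF4q1) cA101R_ok B hρ (gatF01 x) (gatF10 x) (fun _ => gatF31 x) (fun _ => gatF41 x) hd hx hx' CF.A101R_013
  · exact fun l hl => absurd hl List.not_mem_nil

theorem altF_A101R_02 {κ x : ℝ} (hκ : κ * h0 = ken x) (hx : ((50331648 : ℕ) : ℝ) / S ≤ x) (hx' : x ≤ (((50331648 : ℕ) : ℝ) + (16777216 : ℕ)) / S) :
    AltA (VF κ) PP tKF tL pcF [⟨0, 1, 0, 50331648⟩, ⟨1, 0, 0, 50331648⟩, ⟨2, 1, 0, 50331648⟩] 1 0 1 0 2 (sgb false) (sgb false) x := by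
  have X : XR 50331648 x := XR.of hx hx' (by norm_num) (by norm_num) (by norm_num) (by norm_num)
  refine (cornK_of [] (C := cA101R) (C0 := c0F) (j := (0 : Fin 5)) (k := (2 : Fin 5)) (lo := 2) (hi := 4) (W := 50331648) (N0 := 1) cA101R_q (sideF hx hx') gokF X (by norm_num) (by norm_num) (l := (2 : Fin 5)) rfl
    (gatF01 x) (gatF20 x) (gatF21 x) ?_).altFA rfl hκ le_rfl ?_
  · intro ρ a B hρ hd i h1 h2
    fin_cases i
    · exact absurd h1 (by norm_num)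
    · exact corTK_cert (G1 := gF0q1) (G2 := gF2q0) (Ga := gF1q1) (Gb := gF2q1) cA101R_ok B hρ (gatF01 x) (gatF20 x) (fun h => absurd h (by decide)) (fun _ => gatF21 x) hd hx hx' CF.A101R_021
    · exact corTK_cert (G1 := gF0q1) (G2 := gF2q0) (Ga := gF2q1) (Gb := gF3q1) cA101R_ok B hρ (gatF01 x) (gatF20 x) (fun _ => gatF21 x) (fun _ => gatF31 x) hd hx hx' CF.A101R_022
    · exact corTK_cert (G1 := gF0q1) (G2 := gF2q0) (Ga := gF3q1) (Gb := gF4q1) cA101R_ok B hρ (gatF01 x) (gatF20 x) (fun _ => gatF31 x) (fun _ => gatF41 x) hd hx hx' CF.A101R_023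
  · exact fun l hl => absurd hl List.not_mem_nil

theorem altF_A102E_00 {κ x : ℝ} (hκ : κ * h0 = ken x) (hx : ((50331648 : ℕ) : ℝ) / S ≤ x) (hx' : x ≤ (((50331648 : ℕ) : ℝ) + (16777216 : ℕ)) / S) :
    AltA (VF κ) PP tKF tL pcF [⟨0, 1, 0, 12582912⟩, ⟨1, 0, 0, 12582912⟩, ⟨2, 1, 0, 12582912⟩] 1 0 2 0 0 (sgb true) (sgb false) x := by
  have X : XR 12582912 x := XR.of hx hx' (by norm_num) (by norm_num) (by norm_num) (by norm_num)
  refine (cornK_of [[⟨0, 1, 0, 8388608⟩, ⟨1, 0, 1, 25165824⟩, ⟨2, 1, 1, 25165824⟩, ⟨1, 0, 0, 83886080⟩, ⟨1, 1, 0, 1040187392⟩, ⟨2, 1, 0, 83886080⟩, ⟨2, 2, 0, 1040187392⟩]] (C := cA102E) (C0 := c0F) (j := (0 : Fin 5)) (k := (0 : Fin 5)) (lo := 0) (hi := 2) (W := 12582912) (N0 := 1) cA102E_q (sideF hx hx') gokF X (by norm_num) (by norm_num) (l := (0 : Fin 5)) rfl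
    (gatF01 x) (gatF00 x) (gatF02 x) ?_).altFA rfl hκ le_rfl ?_
  · intro ρ a B hρ hd i h1 h2
    fin_cases i
    · exact corXK_cert (G1 := gF0q1) (G2 := gF0q0) (Ga := gF0q2) (Gb := gF1q2) (GT := gF0q2) cA102E_ok tA102E_ok B hρ (gatF01 x) (gatF00 x) (fun _ => gatF02 x) (fun _ => gatF12 x) rfl (tgh_A102E (kodd x) (gpu1 x) (gpu0 x) (gpu2 x) (gatF01 x) (gatF00 x) (gatF02 x) B (le_sixteenth hd (by norm_num))) hd hx hx' CF.A102E_000
    · exact corTK_cert (G1 := gF0q1) (G2 := gF0q0) (Ga := gF1q2) (Gb := gF2q2) cA102E_ok B hρ (gatF01 x) (gatF00 x) (fun _ => gatF12 x) (fun _ => gatF22 x) hd hx hx' CF.A102E_001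
    · exact corTK_cert (G1 := gF0q1) (G2 := gF0q0) (Ga := gF2q2) (Gb := gF3q2) cA102E_ok B hρ (gatF01 x) (gatF00 x) (fun _ => gatF22 x) (fun h => absurd h (by decide)) hd hx hx' CF.A102E_002
    · exact absurd h2 (by norm_num)
  · intro l hl
    simp only [List.mem_cons, List.not_mem_nil, or_false] at hl
    rcases hl with rfl
    · exact Mo.molF_A_102_00_1 hκ hx hx'

theorem altF_A102E_01 {κ x : ℝ} (hκ : κ * h0 = ken x) (hx : ((50331648 : ℕ) : ℝ) / S ≤ x) (hx' : x ≤ (((50331648 : ℕ) : ℝ) + (16777216 : ℕ)) / S) :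
    AltA (VF κ) PP tKF tL pcF [⟨0, 1, 0, 50331648⟩, ⟨1, 0, 0, 50331648⟩, ⟨2, 1, 0, 50331648⟩] 1 0 2 0 1 (sgb true) (sgb false) x := by
  have X : XR 50331648 x := XR.of hx hx' (by norm_num) (by norm_num) (by norm_num) (by norm_num)
  refine (cornK_of [] (C := cA102E) (C0 := c0F) (j := (0 : Fin 5)) (k := (1 : Fin 5)) (lo := 0) (hi := 2) (W := 50331648) (N0 := 1) cA102E_q (sideF hx hx') gokF X (by norm_num) (by norm_num) (l := (0 : Fin 5)) rfl
    (gatF01 x) (gatF10 x) (gatF02 x) ?_).altFA rfl hκ le_rfl ?_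
  · intro ρ a B hρ hd i h1 h2
    fin_cases i
    · exact corTK_cert (G1 := gF0q1) (G2 := gF1q0) (Ga := gF0q2) (Gb := gF1q2) cA102E_ok B hρ (gatF01 x) (gatF10 x) (fun _ => gatF02 x) (fun _ => gatF12 x) hd hx hx' CF.A102E_010
    · exact corTK_cert (G1 := gF0q1) (G2 := gF1q0) (Ga := gF1q2) (Gb := gF2q2) cA102E_ok B hρ (gatF01 x) (gatF10 x) (fun _ => gatF12 x) (fun _ => gatF22 x) hd hx hx' CF.A102E_011
    · exact corTK_cert (G1 := gF0q1) (G2 := gF1q0) (Ga := gF2q2) (Gb := gF3q2) cA102E_ok B hρ (gatF01 x) (gatF10 x) (fun _ => gatF22 x) (fun h => absurd h (by decide)) hd hx hx' CF.A102E_012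
    · exact absurd h2 (by norm_num)
  · exact fun l hl => absurd hl List.not_mem_nil

theorem altF_A102E_02 {κ x : ℝ} (hκ : κ * h0 = ken x) (hx : ((50331648 : ℕ) : ℝ) / S ≤ x) (hx' : x ≤ (((50331648 : ℕ) : ℝ) + (16777216 : ℕ)) / S) :
    AltA (VF κ) PP tKF tL pcF [⟨0, 1, 0, 50331648⟩, ⟨1, 0, 0, 50331648⟩, ⟨2, 1, 0, 50331648⟩] 1 0 2 0 2 (sgb true) (sgb false) x := by
  have X : XR 50331648 x := XR.of hx hx' (by norm_num) (by norm_num) (by norm_num) (by norm_num)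
  refine (cornK_of [] (C := cA102E) (C0 := c0F) (j := (0 : Fin 5)) (k := (2 : Fin 5)) (lo := 0) (hi := 2) (W := 50331648) (N0 := 1) cA102E_q (sideF hx hx') gokF X (by norm_num) (by norm_num) (l := (0 : Fin 5)) rfl
    (gatF01 x) (gatF20 x) (gatF02 x) ?_).altFA rfl hκ le_rfl ?_
  · intro ρ a B hρ hd i h1 h2
    fin_cases i
    · exact corTK_cert (G1 := gF0q1) (G2 := gF2q0) (Ga := gF0q2) (Gb := gF1q2) cA102E_ok B hρ (gatF01 x) (gatF20 x) (fun _ => gatF02 x) (fun _ => gatF12 x) hd hx hx' CF.A102E_020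
    · exact corTK_cert (G1 := gF0q1) (G2 := gF2q0) (Ga := gF1q2) (Gb := gF2q2) cA102E_ok B hρ (gatF01 x) (gatF20 x) (fun _ => gatF12 x) (fun _ => gatF22 x) hd hx hx' CF.A102E_021
    · exact corTK_cert (G1 := gF0q1) (G2 := gF2q0) (Ga := gF2q2) (Gb := gF3q2) cA102E_ok B hρ (gatF01 x) (gatF20 x) (fun _ => gatF22 x) (fun h => absurd h (by decide)) hd hx hx' CF.A102E_022
    · exact absurd h2 (by norm_num)
  · exact fun l hl => absurd hl List.not_mem_nil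

theorem altF_A102L_22 {κ x : ℝ} (hκ : κ * h0 = ken x) (hx : ((50331648 : ℕ) : ℝ) / S ≤ x) (hx' : x ≤ (((50331648 : ℕ) : ℝ) + (16777216 : ℕ)) / S) :
    AltA (VF κ) PP tKF tL pcF [⟨0, 1, 0, 50331648⟩, ⟨1, 0, 0, 50331648⟩, ⟨2, 1, 0, 50331648⟩] 1 0 2 2 2 (sgb true) (sgb false) x := by
  have X : XR 50331648 x := XR.of hx hx' (by norm_num) (by norm_num) (by norm_num) (by norm_num)
  refine (cornK_of [] (C := cA102L) (C0 := c0F) (j := (2 : Fin 5)) (k := (2 : Fin 5)) (lo := 0) (hi := 2) (W := 50331648) (N0 := 1) cA102L_q (sideF hx hx') gokF X (by norm_num) (by norm_num) (l := (0 : Fin 5)) rfl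
    (gatF21 x) (gatF20 x) (gatF02 x) ?_).altFA rfl hκ le_rfl ?_
  · intro ρ a B hρ hd i h1 h2
    fin_cases i
    · exact corTK_cert (G1 := gF2q1) (G2 := gF2q0) (Ga := gF0q2) (Gb := gF1q2) cA102L_ok B hρ (gatF21 x) (gatF20 x) (fun _ => gatF02 x) (fun _ => gatF12 x) hd hx hx' CF.A102L_220
    · exact corTK_cert (G1 := gF2q1) (G2 := gF2q0) (Ga := gF1q2) (Gb := gF2q2) cA102L_ok B hρ (gatF21 x) (gatF20 x) (fun _ => gatF12 x) (fun _ => gatF22 x) hd hx hx' CF.A102L_221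
    · exact corTK_cert (G1 := gF2q1) (G2 := gF2q0) (Ga := gF2q2) (Gb := gF3q2) cA102L_ok B hρ (gatF21 x) (gatF20 x) (fun _ => gatF22 x) (fun h => absurd h (by decide)) hd hx hx' CF.A102L_222
    · exact absurd h2 (by norm_num)
  · exact fun l hl => absurd hl List.not_mem_nil

theorem altF_A102R_00 {κ x : ℝ} (hκ : κ * h0 = ken x) (hx : ((50331648 : ℕ) : ℝ) / S ≤ x) (hx' : x ≤ (((50331648 : ℕ) : ℝ) + (16777216 : ℕ)) / S) :
    AltA (VF κ) PP tKF tL pcF [⟨0, 1, 0, 50331648⟩, ⟨1, 0, 0, 50331648⟩, ⟨2, 1, 0, 50331648⟩] 1 0 2 0 0 (sgb false) (sgb false) x := by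
  have X : XR 50331648 x := XR.of hx hx' (by norm_num) (by norm_num) (by norm_num) (by norm_num)
  refine (cornK_of [] (C := cA102R) (C0 := c0F) (j := (0 : Fin 5)) (k := (0 : Fin 5)) (lo := 4) (hi := 4) (W := 50331648) (N0 := 1) cA102R_q (sideF hx hx') gokF X (by norm_num) (by norm_num) (l := (4 : Fin 5)) rfl
    (gatF01 x) (gatF00 x) (gatF42 x) ?_).altFA rfl hκ le_rfl ?_
  · intro ρ a B hρ hd i h1 h2
    fin_cases i
    · exact absurd h1 (by norm_num)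
    · exact absurd h1 (by norm_num)
    · exact absurd h1 (by norm_num)
    · exact corTK_cert (G1 := gF0q1) (G2 := gF0q0) (Ga := gF3q2) (Gb := gF4q2) cA102R_ok B hρ (gatF01 x) (gatF00 x) (fun h => absurd h (by decide)) (fun _ => gatF42 x) hd hx hx' CF.A102R_003
  · exact fun l hl => absurd hl List.not_mem_nil

theorem altF_A102R_01 {κ x : ℝ} (hκ : κ * h0 = ken x) (hx : ((50331648 : ℕ) : ℝ) / S ≤ x) (hx' : x ≤ (((50331648 : ℕ) : ℝ) + (16777216 : ℕ)) / S) :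
    AltA (VF κ) PP tKF tL pcF [⟨0, 1, 0, 50331648⟩, ⟨1, 0, 0, 50331648⟩, ⟨2, 1, 0, 50331648⟩] 1 0 2 0 1 (sgb false) (sgb false) x := by
  have X : XR 50331648 x := XR.of hx hx' (by norm_num) (by norm_num) (by norm_num) (by norm_num)
  refine (cornK_of [] (C := cA102R) (C0 := c0F) (j := (0 : Fin 5)) (k := (1 : Fin 5)) (lo := 4) (hi := 4) (W := 50331648) (N0 := 1) cA102R_q (sideF hx hx') gokF X (by norm_num) (by norm_num) (l := (4 : Fin 5)) rfl
    (gatF01 x) (gatF10 x) (gatF42 x) ?_).altFA rfl hκ le_rfl ?_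
  · intro ρ a B hρ hd i h1 h2
    fin_cases i
    · exact absurd h1 (by norm_num)
    · exact absurd h1 (by norm_num)
    · exact absurd h1 (by norm_num)
    · exact corTK_cert (G1 := gF0q1) (G2 := gF1q0) (Ga := gF3q2) (Gb := gF4q2) cA102R_ok B hρ (gatF01 x) (gatF10 x) (fun h => absurd h (by decide)) (fun _ => gatF42 x) hd hx hx' CF.A102R_013
  · exact fun l hl => absurd hl List.not_mem_nil

theorem altF_A102R_02 {κ x : ℝ} (hκ : κ * h0 = ken x) (hx : ((50331648 : ℕ) : ℝ) / S ≤ x) (hx' : x ≤ (((50331648 : ℕ) : ℝ) + (16777216 : ℕ)) / S) :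
    AltA (VF κ) PP tKF tL pcF [⟨0, 1, 0, 50331648⟩, ⟨1, 0, 0, 50331648⟩, ⟨2, 1, 0, 50331648⟩] 1 0 2 0 2 (sgb false) (sgb false) x := by
  have X : XR 50331648 x := XR.of hx hx' (by norm_num) (by norm_num) (by norm_num) (by norm_num)
  refine (cornK_of [] (C := cA102R) (C0 := c0F) (j := (0 : Fin 5)) (k := (2 : Fin 5)) (lo := 4) (hi := 4) (W := 50331648) (N0 := 1) cA102R_q (sideF hx hx') gokF X (by norm_num) (by norm_num) (l := (4 : Fin 5)) rfl
    (gatF01 x) (gatF20 x) (gatF42 x) ?_).altFA rfl hκ le_rfl ?_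
  · intro ρ a B hρ hd i h1 h2
    fin_cases i
    · exact absurd h1 (by norm_num)
    · exact absurd h1 (by norm_num)
    · exact absurd h1 (by norm_num)
    · exact corTK_cert (G1 := gF0q1) (G2 := gF2q0) (Ga := gF3q2) (Gb := gF4q2) cA102R_ok B hρ (gatF01 x) (gatF20 x) (fun h => absurd h (by decide)) (fun _ => gatF42 x) hd hx hx' CF.A102R_023
  · exact fun l hl => absurd hl List.not_mem_nil

theorem altF_A202E_00 {κ x : ℝ} (hκ : κ * h0 = ken x) (hx : ((50331648 : ℕ) : ℝ) / S ≤ x) (hx' : x ≤ (((50331648 : ℕ) : ℝ) + (16777216 : ℕ)) / S) :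
    AltA (VF κ) PP tKF tL pcF [⟨0, 1, 0, 50331648⟩, ⟨1, 0, 0, 50331648⟩, ⟨2, 1, 0, 50331648⟩] 2 0 2 0 0 (sgb true) (sgb false) x := by
  have X : XR 50331648 x := XR.of hx hx' (by norm_num) (by norm_num) (by norm_num) (by norm_num)
  refine (cornK_of [[⟨0, 1, 0, 8388608⟩, ⟨1, 0, 1, 25165824⟩, ⟨2, 1, 1, 25165824⟩, ⟨1, 0, 0, 83886080⟩, ⟨1, 1, 0, 1040187392⟩, ⟨2, 1, 0, 83886080⟩, ⟨2, 2, 0, 1040187392⟩]] (C := cA202E) (C0 := c0F) (j := (0 : Fin 5)) (k := (0 : Fin 5)) (lo := 0) (hi := 2) (W := 50331648) (N0 := 1) cA202E_q (sideF hx hx') gokF X (by norm_num) (by norm_num) (l := (0 : Fin 5)) rfl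
    (gatF02 x) (gatF00 x) (gatF02 x) ?_).altFA rfl hκ le_rfl ?_
  · intro ρ a B hρ hd i h1 h2
    fin_cases i
    · exact corTK_cert (G1 := gF0q2) (G2 := gF0q0) (Ga := gF0q2) (Gb := gF1q2) cA202E_ok B hρ (gatF02 x) (gatF00 x) (fun _ => gatF02 x) (fun _ => gatF12 x) hd hx hx' CF.A202E_000
    · exact corTK_cert (G1 := gF0q2) (G2 := gF0q0) (Ga := gF1q2) (Gb := gF2q2) cA202E_ok B hρ (gatF02 x) (gatF00 x) (fun _ => gatF12 x) (fun _ => gatF22 x) hd hx hx' CF.A202E_001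
    · exact corTK_cert (G1 := gF0q2) (G2 := gF0q0) (Ga := gF2q2) (Gb := gF3q2) cA202E_ok B hρ (gatF02 x) (gatF00 x) (fun _ => gatF22 x) (fun h => absurd h (by decide)) hd hx hx' CF.A202E_002
    · exact absurd h2 (by norm_num)
  · intro l hl
    simp only [List.mem_cons, List.not_mem_nil, or_false] at hl
    rcases hl with rfl
    · exact Mo.molF_A_202_00_1 hκ hx hx'

theorem altF_A202E_01 {κ x : ℝ} (hκ : κ * h0 = ken x) (hx : ((50331648 : ℕ) : ℝ) / S ≤ x) (hx' : x ≤ (((50331648 : ℕ) : ℝ) + (16777216 : ℕ)) / S) :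
    AltA (VF κ) PP tKF tL pcF [⟨0, 1, 0, 50331648⟩, ⟨1, 0, 0, 50331648⟩, ⟨2, 1, 0, 50331648⟩] 2 0 2 0 1 (sgb true) (sgb false) x := by
  have X : XR 50331648 x := XR.of hx hx' (by norm_num) (by norm_num) (by norm_num) (by norm_num)
  refine (cornK_of [] (C := cA202E) (C0 := c0F) (j := (0 : Fin 5)) (k := (1 : Fin 5)) (lo := 0) (hi := 2) (W := 50331648) (N0 := 1) cA202E_q (sideF hx hx') gokF X (by norm_num) (by norm_num) (l := (0 : Fin 5)) rfl
    (gatF02 x) (gatF10 x) (gatF02 x) ?_).altFA rfl hκ le_rfl ?_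
  · intro ρ a B hρ hd i h1 h2
    fin_cases i
    · exact corTK_cert (G1 := gF0q2) (G2 := gF1q0) (Ga := gF0q2) (Gb := gF1q2) cA202E_ok B hρ (gatF02 x) (gatF10 x) (fun _ => gatF02 x) (fun _ => gatF12 x) hd hx hx' CF.A202E_010
    · exact corTK_cert (G1 := gF0q2) (G2 := gF1q0) (Ga := gF1q2) (Gb := gF2q2) cA202E_ok B hρ (gatF02 x) (gatF10 x) (fun _ => gatF12 x) (fun _ => gatF22 x) hd hx hx' CF.A202E_011
    · exact corTK_cert (G1 := gF0q2) (G2 := gF1q0) (Ga := gF2q2) (Gb := gF3q2) cA202E_ok B hρ (gatF02 x) (gatF10 x) (fun _ => gatF22 x) (fun h => absurd h (by decide)) hd hx hx' CF.A202E_012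
    · exact absurd h2 (by norm_num)
  · exact fun l hl => absurd hl List.not_mem_nil

theorem altF_A202E_02 {κ x : ℝ} (hκ : κ * h0 = ken x) (hx : ((50331648 : ℕ) : ℝ) / S ≤ x) (hx' : x ≤ (((50331648 : ℕ) : ℝ) + (16777216 : ℕ)) / S) :
    AltA (VF κ) PP tKF tL pcF [⟨0, 1, 0, 50331648⟩, ⟨1, 0, 0, 50331648⟩, ⟨2, 1, 0, 50331648⟩] 2 0 2 0 2 (sgb true) (sgb false) x := by
  have X : XR 50331648 x := XR.of hx hx' (by norm_num) (by norm_num) (by norm_num) (by norm_num)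
  refine (cornK_of [] (C := cA202E) (C0 := c0F) (j := (0 : Fin 5)) (k := (2 : Fin 5)) (lo := 0) (hi := 2) (W := 50331648) (N0 := 1) cA202E_q (sideF hx hx') gokF X (by norm_num) (by norm_num) (l := (0 : Fin 5)) rfl
    (gatF02 x) (gatF20 x) (gatF02 x) ?_).altFA rfl hκ le_rfl ?_
  · intro ρ a B hρ hd i h1 h2
    fin_cases i
    · exact corTK_cert (G1 := gF0q2) (G2 := gF2q0) (Ga := gF0q2) (Gb := gF1q2) cA202E_ok B hρ (gatF02 x) (gatF20 x) (fun _ => gatF02 x) (fun _ => gatF12 x) hd hx hx' CF.A202E_020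
    · exact corTK_cert (G1 := gF0q2) (G2 := gF2q0) (Ga := gF1q2) (Gb := gF2q2) cA202E_ok B hρ (gatF02 x) (gatF20 x) (fun _ => gatF12 x) (fun _ => gatF22 x) hd hx hx' CF.A202E_021
    · exact corTK_cert (G1 := gF0q2) (G2 := gF2q0) (Ga := gF2q2) (Gb := gF3q2) cA202E_ok B hρ (gatF02 x) (gatF20 x) (fun _ => gatF22 x) (fun h => absurd h (by decide)) hd hx hx' CF.A202E_022
    · exact absurd h2 (by norm_num)
  · exact fun l hl => absurd hl List.not_mem_nil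

theorem altF_A202E_11 {κ x : ℝ} (hκ : κ * h0 = ken x) (hx : ((50331648 : ℕ) : ℝ) / S ≤ x) (hx' : x ≤ (((50331648 : ℕ) : ℝ) + (16777216 : ℕ)) / S) :
    AltA (VF κ) PP tKF tL pcF [⟨0, 1, 0, 50331648⟩, ⟨1, 0, 0, 50331648⟩, ⟨2, 1, 0, 50331648⟩] 2 0 2 1 1 (sgb true) (sgb false) x := by
  have X : XR 50331648 x := XR.of hx hx' (by norm_num) (by norm_num) (by norm_num) (by norm_num)
  refine (cornK_of [] (C := cA202E) (C0 := c0F) (j := (1 : Fin 5)) (k := (1 : Fin 5)) (lo := 0) (hi := 2) (W := 50331648) (N0 := 1) cA202E_q (sideF hx hx') gokF X (by norm_num) (by norm_num) (l := (0 : Fin 5)) rfl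
    (gatF12 x) (gatF10 x) (gatF02 x) ?_).altFA rfl hκ le_rfl ?_
  · intro ρ a B hρ hd i h1 h2
    fin_cases i
    · exact corTK_cert (G1 := gF1q2) (G2 := gF1q0) (Ga := gF0q2) (Gb := gF1q2) cA202E_ok B hρ (gatF12 x) (gatF10 x) (fun _ => gatF02 x) (fun _ => gatF12 x) hd hx hx' CF.A202E_110
    · exact corTK_cert (G1 := gF1q2) (G2 := gF1q0) (Ga := gF1q2) (Gb := gF2q2) cA202E_ok B hρ (gatF12 x) (gatF10 x) (fun _ => gatF12 x) (fun _ => gatF22 x) hd hx hx' CF.A202E_111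
    · exact corTK_cert (G1 := gF1q2) (G2 := gF1q0) (Ga := gF2q2) (Gb := gF3q2) cA202E_ok B hρ (gatF12 x) (gatF10 x) (fun _ => gatF22 x) (fun h => absurd h (by decide)) hd hx hx' CF.A202E_112
    · exact absurd h2 (by norm_num)
  · exact fun l hl => absurd hl List.not_mem_nil

theorem altF_A202E_12 {κ x : ℝ} (hκ : κ * h0 = ken x) (hx : ((50331648 : ℕ) : ℝ) / S ≤ x) (hx' : x ≤ (((50331648 : ℕ) : ℝ) + (16777216 : ℕ)) / S) :
    AltA (VF κ) PP tKF tL pcF [⟨0, 1, 0, 50331648⟩, ⟨1, 0, 0, 50331648⟩, ⟨2, 1, 0, 50331648⟩] 2 0 2 1 2 (sgb true) (sgb false) x := by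
  have X : XR 50331648 x := XR.of hx hx' (by norm_num) (by norm_num) (by norm_num) (by norm_num)
  refine (cornK_of [] (C := cA202E) (C0 := c0F) (j := (1 : Fin 5)) (k := (2 : Fin 5)) (lo := 0) (hi := 2) (W := 50331648) (N0 := 1) cA202E_q (sideF hx hx') gokF X (by norm_num) (by norm_num) (l := (0 : Fin 5)) rfl
    (gatF12 x) (gatF20 x) (gatF02 x) ?_).altFA rfl hκ le_rfl ?_
  · intro ρ a B hρ hd i h1 h2
    fin_cases i
    · exact corTK_cert (G1 := gF1q2) (G2 := gF2q0) (Ga := gF0q2) (Gb := gF1q2) cA202E_ok B hρ (gatF12 x) (gatF20 x) (fun _ => gatF02 x) (fun _ => gatF12 x) hd hx hx' CF.A202E_120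
    · exact corTK_cert (G1 := gF1q2) (G2 := gF2q0) (Ga := gF1q2) (Gb := gF2q2) cA202E_ok B hρ (gatF12 x) (gatF20 x) (fun _ => gatF12 x) (fun _ => gatF22 x) hd hx hx' CF.A202E_121
    · exact corTK_cert (G1 := gF1q2) (G2 := gF2q0) (Ga := gF2q2) (Gb := gF3q2) cA202E_ok B hρ (gatF12 x) (gatF20 x) (fun _ => gatF22 x) (fun h => absurd h (by decide)) hd hx hx' CF.A202E_122
    · exact absurd h2 (by norm_num)
  · exact fun l hl => absurd hl List.not_mem_nil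

theorem altF_A202E_22 {κ x : ℝ} (hκ : κ * h0 = ken x) (hx : ((50331648 : ℕ) : ℝ) / S ≤ x) (hx' : x ≤ (((50331648 : ℕ) : ℝ) + (16777216 : ℕ)) / S) :
    AltA (VF κ) PP tKF tL pcF [⟨0, 1, 0, 50331648⟩, ⟨1, 0, 0, 50331648⟩, ⟨2, 1, 0, 50331648⟩] 2 0 2 2 2 (sgb true) (sgb false) x := by
  have X : XR 50331648 x := XR.of hx hx' (by norm_num) (by norm_num) (by norm_num) (by norm_num)
  refine (cornK_of [] (C := cA202E) (C0 := c0F) (j := (2 : Fin 5)) (k := (2 : Fin 5)) (lo := 0) (hi := 2) (W := 50331648) (N0 := 1) cA202E_q (sideF hx hx') gokF X (by norm_num) (by norm_num) (l := (0 : Fin 5)) rfl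
    (gatF22 x) (gatF20 x) (gatF02 x) ?_).altFA rfl hκ le_rfl ?_
  · intro ρ a B hρ hd i h1 h2
    fin_cases i
    · exact corTK_cert (G1 := gF2q2) (G2 := gF2q0) (Ga := gF0q2) (Gb := gF1q2) cA202E_ok B hρ (gatF22 x) (gatF20 x) (fun _ => gatF02 x) (fun _ => gatF12 x) hd hx hx' CF.A202E_220
    · exact corTK_cert (G1 := gF2q2) (G2 := gF2q0) (Ga := gF1q2) (Gb := gF2q2) cA202E_ok B hρ (gatF22 x) (gatF20 x) (fun _ => gatF12 x) (fun _ => gatF22 x) hd hx hx' CF.A202E_221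
    · exact corTK_cert (G1 := gF2q2) (G2 := gF2q0) (Ga := gF2q2) (Gb := gF3q2) cA202E_ok B hρ (gatF22 x) (gatF20 x) (fun _ => gatF22 x) (fun h => absurd h (by decide)) hd hx hx' CF.A202E_222
    · exact absurd h2 (by norm_num)
  · exact fun l hl => absurd hl List.not_mem_nil

theorem altF_A202R_00 {κ x : ℝ} (hκ : κ * h0 = ken x) (hx : ((50331648 : ℕ) : ℝ) / S ≤ x) (hx' : x ≤ (((50331648 : ℕ) : ℝ) + (16777216 : ℕ)) / S) :
    AltA (VF κ) PP tKF tL pcF [⟨0, 1, 0, 16777216⟩, ⟨1, 0, 0, 16777216⟩, ⟨2, 1, 0, 16777216⟩] 2 0 2 0 0 (sgb false) (sgb false) x := by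
  have X : XR 16777216 x := XR.of hx hx' (by norm_num) (by norm_num) (by norm_num) (by norm_num)
  refine (cornK_of [] (C := cA202R) (C0 := c0F) (j := (0 : Fin 5)) (k := (0 : Fin 5)) (lo := 4) (hi := 4) (W := 16777216) (N0 := 1) cA202R_q (sideF hx hx') gokF X (by norm_num) (by norm_num) (l := (4 : Fin 5)) rfl
    (gatF02 x) (gatF00 x) (gatF42 x) ?_).altFA rfl hκ le_rfl ?_
  · intro ρ a B hρ hd i h1 h2
    fin_cases i
    · exact absurd h1 (by norm_num)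
    · exact absurd h1 (by norm_num)
    · exact absurd h1 (by norm_num)
    · exact corXK_cert (G1 := gF0q2) (G2 := gF0q0) (Ga := gF3q2) (Gb := gF4q2) (GT := gF4q2) cA202R_ok tA202R_ok B hρ (gatF02 x) (gatF00 x) (fun h => absurd h (by decide)) (fun _ => gatF42 x) rfl (tgh_A202R (kodd x) (gpu2 x) (gpu0 x) (gpt2 x) (gatF02 x) (gatF00 x) (gatF42 x) B (le_sixteenth hd (by norm_num))) hd hx hx' CF.A202R_003
  · exact fun l hl => absurd hl List.not_mem_nil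

theorem altF_A202R_01 {κ x : ℝ} (hκ : κ * h0 = ken x) (hx : ((50331648 : ℕ) : ℝ) / S ≤ x) (hx' : x ≤ (((50331648 : ℕ) : ℝ) + (16777216 : ℕ)) / S) :
    AltA (VF κ) PP tKF tL pcF [⟨0, 1, 0, 50331648⟩, ⟨1, 0, 0, 50331648⟩, ⟨2, 1, 0, 50331648⟩] 2 0 2 0 1 (sgb false) (sgb false) x := by
  have X : XR 50331648 x := XR.of hx hx' (by norm_num) (by norm_num) (by norm_num) (by norm_num)
  refine (cornK_of [] (C := cA202R) (C0 := c0F) (j := (0 : Fin 5)) (k := (1 : Fin 5)) (lo := 4) (hi := 4) (W := 50331648) (N0 := 1) cA202R_q (sideF hx hx') gokF X (by norm_num) (by norm_num) (l := (4 : Fin 5)) rfl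
    (gatF02 x) (gatF10 x) (gatF42 x) ?_).altFA rfl hκ le_rfl ?_
  · intro ρ a B hρ hd i h1 h2
    fin_cases i
    · exact absurd h1 (by norm_num)
    · exact absurd h1 (by norm_num)
    · exact absurd h1 (by norm_num)
    · exact corTK_cert (G1 := gF0q2) (G2 := gF1q0) (Ga := gF3q2) (Gb := gF4q2) cA202R_ok B hρ (gatF02 x) (gatF10 x) (fun h => absurd h (by decide)) (fun _ => gatF42 x) hd hx hx' CF.A202R_013
  · exact fun l hl => absurd hl List.not_mem_nil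

theorem altF_A202R_02 {κ x : ℝ} (hκ : κ * h0 = ken x) (hx : ((50331648 : ℕ) : ℝ) / S ≤ x) (hx' : x ≤ (((50331648 : ℕ) : ℝ) + (16777216 : ℕ)) / S) :
    AltA (VF κ) PP tKF tL pcF [⟨0, 1, 0, 50331648⟩, ⟨1, 0, 0, 50331648⟩, ⟨2, 1, 0, 50331648⟩] 2 0 2 0 2 (sgb false) (sgb false) x := by
  have X : XR 50331648 x := XR.of hx hx' (by norm_num) (by norm_num) (by norm_num) (by norm_num)
  refine (cornK_of [] (C := cA202R) (C0 := c0F) (j := (0 : Fin 5)) (k := (2 : Fin 5)) (lo := 4) (hi := 4) (W := 50331648) (N0 := 1) cA202R_q (sideF hx hx') gokF X (by norm_num) (by norm_num) (l := (4 : Fin 5)) rfl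
    (gatF02 x) (gatF20 x) (gatF42 x) ?_).altFA rfl hκ le_rfl ?_
  · intro ρ a B hρ hd i h1 h2
    fin_cases i
    · exact absurd h1 (by norm_num)
    · exact absurd h1 (by norm_num)
    · exact absurd h1 (by norm_num)
    · exact corTK_cert (G1 := gF0q2) (G2 := gF2q0) (Ga := gF3q2) (Gb := gF4q2) cA202R_ok B hρ (gatF02 x) (gatF20 x) (fun h => absurd h (by decide)) (fun _ => gatF42 x) hd hx hx' CF.A202R_023
  · exact fun l hl => absurd hl List.not_mem_nil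

theorem altF_A202R_11 {κ x : ℝ} (hκ : κ * h0 = ken x) (hx : ((50331648 : ℕ) : ℝ) / S ≤ x) (hx' : x ≤ (((50331648 : ℕ) : ℝ) + (16777216 : ℕ)) / S) :
    AltA (VF κ) PP tKF tL pcF [⟨0, 1, 0, 50331648⟩, ⟨1, 0, 0, 50331648⟩, ⟨2, 1, 0, 50331648⟩] 2 0 2 1 1 (sgb false) (sgb false) x := by
  have X : XR 50331648 x := XR.of hx hx' (by norm_num) (by norm_num) (by norm_num) (by norm_num)
  refine (cornK_of [] (C := cA202R) (C0 := c0F) (j := (1 : Fin 5)) (k := (1 : Fin 5)) (lo := 4) (hi := 4) (W := 50331648) (N0 := 1) cA202R_q (sideF hx hx') gokF X (by norm_num) (by norm_num) (l := (4 : Fin 5)) rfl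
    (gatF12 x) (gatF10 x) (gatF42 x) ?_).altFA rfl hκ le_rfl ?_
  · intro ρ a B hρ hd i h1 h2
    fin_cases i
    · exact absurd h1 (by norm_num)
    · exact absurd h1 (by norm_num)
    · exact absurd h1 (by norm_num)
    · exact corTK_cert (G1 := gF1q2) (G2 := gF1q0) (Ga := gF3q2) (Gb := gF4q2) cA202R_ok B hρ (gatF12 x) (gatF10 x) (fun h => absurd h (by decide)) (fun _ => gatF42 x) hd hx hx' CF.A202R_113
  · exact fun l hl => absurd hl List.not_mem_nil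

theorem altF_A202R_12 {κ x : ℝ} (hκ : κ * h0 = ken x) (hx : ((50331648 : ℕ) : ℝ) / S ≤ x) (hx' : x ≤ (((50331648 : ℕ) : ℝ) + (16777216 : ℕ)) / S) :
    AltA (VF κ) PP tKF tL pcF [⟨0, 1, 0, 50331648⟩, ⟨1, 0, 0, 50331648⟩, ⟨2, 1, 0, 50331648⟩] 2 0 2 1 2 (sgb false) (sgb false) x := by
  have X : XR 50331648 x := XR.of hx hx' (by norm_num) (by norm_num) (by norm_num) (by norm_num)
  refine (cornK_of [] (C := cA202R) (C0 := c0F) (j := (1 : Fin 5)) (k := (2 : Fin 5)) (lo := 4) (hi := 4) (W := 50331648) (N0 := 1) cA202R_q (sideF hx hx') gokF X (by norm_num) (by norm_num) (l := (4 : Fin 5)) rfl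
    (gatF12 x) (gatF20 x) (gatF42 x) ?_).altFA rfl hκ le_rfl ?_
  · intro ρ a B hρ hd i h1 h2
    fin_cases i
    · exact absurd h1 (by norm_num)
    · exact absurd h1 (by norm_num)
    · exact absurd h1 (by norm_num)
    · exact corTK_cert (G1 := gF1q2) (G2 := gF2q0) (Ga := gF3q2) (Gb := gF4q2) cA202R_ok B hρ (gatF12 x) (gatF20 x) (fun h => absurd h (by decide)) (fun _ => gatF42 x) hd hx hx' CF.A202R_123
  · exact fun l hl => absurd hl List.not_mem_nil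

theorem altF_A202R_22 {κ x : ℝ} (hκ : κ * h0 = ken x) (hx : ((50331648 : ℕ) : ℝ) / S ≤ x) (hx' : x ≤ (((50331648 : ℕ) : ℝ) + (16777216 : ℕ)) / S) :
    AltA (VF κ) PP tKF tL pcF [⟨0, 1, 0, 50331648⟩, ⟨1, 0, 0, 50331648⟩, ⟨2, 1, 0, 50331648⟩] 2 0 2 2 2 (sgb false) (sgb false) x := by
  have X : XR 50331648 x := XR.of hx hx' (by norm_num) (by norm_num) (by norm_num) (by norm_num)
  refine (cornK_of [] (C := cA202R) (C0 := c0F) (j := (2 : Fin 5)) (k := (2 : Fin 5)) (lo := 4) (hi := 4) (W := 50331648) (N0 := 1) cA202R_q (sideF hx hx') gokF X (by norm_num) (by norm_num) (l := (4 : Fin 5)) rfl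
    (gatF22 x) (gatF20 x) (gatF42 x) ?_).altFA rfl hκ le_rfl ?_
  · intro ρ a B hρ hd i h1 h2
    fin_cases i
    · exact absurd h1 (by norm_num)
    · exact absurd h1 (by norm_num)
    · exact absurd h1 (by norm_num)
    · exact corTK_cert (G1 := gF2q2) (G2 := gF2q0) (Ga := gF3q2) (Gb := gF4q2) cA202R_ok B hρ (gatF22 x) (gatF20 x) (fun h => absurd h (by decide)) (fun _ => gatF42 x) hd hx hx' CF.A202R_223
  · exact fun l hl => absurd hl List.not_mem_nil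

theorem altF_B011E_00 {κ x : ℝ} (hκ : κ * h0 = ken x) (hx : ((50331648 : ℕ) : ℝ) / S ≤ x) (hx' : x ≤ (((50331648 : ℕ) : ℝ) + (16777216 : ℕ)) / S) :
    AltB (VF κ) PP tKF tL pcF [⟨0, 0, 0, 50331648⟩, ⟨1, 1, 0, 50331648⟩, ⟨2, 1, 0, 50331648⟩] 0 1 1 0 0 (sgb true) (sgb true) x := by
  have X : XR 50331648 x := XR.of hx hx' (by norm_num) (by norm_num) (by norm_num) (by norm_num)
  refine (cornK_of [] (C := cB011E) (C0 := c0F) (j := (0 : Fin 5)) (k := (0 : Fin 5)) (lo := 0) (hi := 0) (W := 50331648) (N0 := 1) cB011E_q (sideF hx hx') gokF X (by norm_num) (by norm_num) (l := (0 : Fin 5)) rfl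
    (gatF00 x) (gatF01 x) (gatF01 x) ?_).altFB rfl hκ le_rfl ?_
  · intro ρ a B hρ hd i h1 h2
    fin_cases i
    · exact corTK_cert (G1 := gF0q0) (G2 := gF0q1) (Ga := gF0q1) (Gb := gF1q1) cB011E_ok B hρ (gatF00 x) (gatF01 x) (fun _ => gatF01 x) (fun h => absurd h (by decide)) hd hx hx' CF.B011E_000
    · exact absurd h2 (by norm_num)
    · exact absurd h2 (by norm_num)
    · exact absurd h2 (by norm_num)
  · exact fun l hl => absurd hl List.not_mem_nil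

theorem altF_B011E_10 {κ x : ℝ} (hκ : κ * h0 = ken x) (hx : ((50331648 : ℕ) : ℝ) / S ≤ x) (hx' : x ≤ (((50331648 : ℕ) : ℝ) + (16777216 : ℕ)) / S) :
    AltB (VF κ) PP tKF tL pcF [⟨0, 0, 0, 50331648⟩, ⟨1, 1, 0, 50331648⟩, ⟨2, 1, 0, 50331648⟩] 0 1 1 1 0 (sgb true) (sgb true) x := by
  have X : XR 50331648 x := XR.of hx hx' (by norm_num) (by norm_num) (by norm_num) (by norm_num)
  refine (cornK_of [] (C := cB011E) (C0 := c0F) (j := (1 : Fin 5)) (k := (0 : Fin 5)) (lo := 0) (hi := 0) (W := 50331648) (N0 := 1) cB011E_q (sideF hx hx') gokF X (by norm_num) (by norm_num) (l := (0 : Fin 5)) rfl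
    (gatF10 x) (gatF01 x) (gatF01 x) ?_).altFB rfl hκ le_rfl ?_
  · intro ρ a B hρ hd i h1 h2
    fin_cases i
    · exact corTK_cert (G1 := gF1q0) (G2 := gF0q1) (Ga := gF0q1) (Gb := gF1q1) cB011E_ok B hρ (gatF10 x) (gatF01 x) (fun _ => gatF01 x) (fun h => absurd h (by decide)) hd hx hx' CF.B011E_100
    · exact absurd h2 (by norm_num)
    · exact absurd h2 (by norm_num)
    · exact absurd h2 (by norm_num)
  · exact fun l hl => absurd hl List.not_mem_nil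

theorem altF_B011E_20 {κ x : ℝ} (hκ : κ * h0 = ken x) (hx : ((50331648 : ℕ) : ℝ) / S ≤ x) (hx' : x ≤ (((50331648 : ℕ) : ℝ) + (16777216 : ℕ)) / S) :
    AltB (VF κ) PP tKF tL pcF [⟨0, 0, 0, 50331648⟩, ⟨1, 1, 0, 50331648⟩, ⟨2, 1, 0, 50331648⟩] 0 1 1 2 0 (sgb true) (sgb true) x := by
  have X : XR 50331648 x := XR.of hx hx' (by norm_num) (by norm_num) (by norm_num) (by norm_num)
  refine (cornK_of [] (C := cB011E) (C0 := c0F) (j := (2 : Fin 5)) (k := (0 : Fin 5)) (lo := 0) (hi := 0) (W := 50331648) (N0 := 1) cB011E_q (sideF hx hx') gokF X (by norm_num) (by norm_num) (l := (0 : Fin 5)) rfl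
    (gatF20 x) (gatF01 x) (gatF01 x) ?_).altFB rfl hκ le_rfl ?_
  · intro ρ a B hρ hd i h1 h2
    fin_cases i
    · exact corTK_cert (G1 := gF2q0) (G2 := gF0q1) (Ga := gF0q1) (Gb := gF1q1) cB011E_ok B hρ (gatF20 x) (gatF01 x) (fun _ => gatF01 x) (fun h => absurd h (by decide)) hd hx hx' CF.B011E_200
    · exact absurd h2 (by norm_num)
    · exact absurd h2 (by norm_num)
    · exact absurd h2 (by norm_num)
  · exact fun l hl => absurd hl List.not_mem_nil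

theorem altF_B011L_02 {κ x : ℝ} (hκ : κ * h0 = ken x) (hx : ((50331648 : ℕ) : ℝ) / S ≤ x) (hx' : x ≤ (((50331648 : ℕ) : ℝ) + (16777216 : ℕ)) / S) :
    AltB (VF κ) PP tKF tL pcF [⟨0, 0, 0, 50331648⟩, ⟨1, 1, 0, 50331648⟩, ⟨2, 1, 0, 50331648⟩] 0 1 1 0 2 (sgb true) (sgb true) x := by
  have X : XR 50331648 x := XR.of hx hx' (by norm_num) (by norm_num) (by norm_num) (by norm_num)
  refine (cornK_of [] (C := cB011L) (C0 := c0F) (j := (0 : Fin 5)) (k := (2 : Fin 5)) (lo := 0) (hi := 0) (W := 50331648) (N0 := 1) cB011L_q (sideF hx hx') gokF X (by norm_num) (by norm_num) (l := (0 : Fin 5)) rfl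
    (gatF00 x) (gatF21 x) (gatF01 x) ?_).altFB rfl hκ le_rfl ?_
  · intro ρ a B hρ hd i h1 h2
    fin_cases i
    · exact corTK_cert (G1 := gF0q0) (G2 := gF2q1) (Ga := gF0q1) (Gb := gF1q1) cB011L_ok B hρ (gatF00 x) (gatF21 x) (fun _ => gatF01 x) (fun h => absurd h (by decide)) hd hx hx' CF.B011L_020
    · exact absurd h2 (by norm_num)
    · exact absurd h2 (by norm_num)
    · exact absurd h2 (by norm_num)
  · exact fun l hl => absurd hl List.not_mem_nil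

theorem altF_B011L_03 {κ x : ℝ} (hκ : κ * h0 = ken x) (hx : ((50331648 : ℕ) : ℝ) / S ≤ x) (hx' : x ≤ (((50331648 : ℕ) : ℝ) + (16777216 : ℕ)) / S) :
    AltB (VF κ) PP tKF tL pcF [⟨0, 0, 0, 50331648⟩, ⟨1, 1, 0, 50331648⟩, ⟨2, 1, 0, 50331648⟩] 0 1 1 0 3 (sgb true) (sgb true) x := by
  have X : XR 50331648 x := XR.of hx hx' (by norm_num) (by norm_num) (by norm_num) (by norm_num)
  refine (cornK_of [] (C := cB011L) (C0 := c0F) (j := (0 : Fin 5)) (k := (3 : Fin 5)) (lo := 0) (hi := 0) (W := 50331648) (N0 := 1) cB011L_q (sideF hx hx') gokF X (by norm_num) (by norm_num) (l := (0 : Fin 5)) rfl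
    (gatF00 x) (gatF31 x) (gatF01 x) ?_).altFB rfl hκ le_rfl ?_
  · intro ρ a B hρ hd i h1 h2
    fin_cases i
    · exact corTK_cert (G1 := gF0q0) (G2 := gF3q1) (Ga := gF0q1) (Gb := gF1q1) cB011L_ok B hρ (gatF00 x) (gatF31 x) (fun _ => gatF01 x) (fun h => absurd h (by decide)) hd hx hx' CF.B011L_030
    · exact absurd h2 (by norm_num)
    · exact absurd h2 (by norm_num)
    · exact absurd h2 (by norm_num)
  · exact fun l hl => absurd hl List.not_mem_nil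

theorem altF_B011L_04 {κ x : ℝ} (hκ : κ * h0 = ken x) (hx : ((50331648 : ℕ) : ℝ) / S ≤ x) (hx' : x ≤ (((50331648 : ℕ) : ℝ) + (16777216 : ℕ)) / S) :
    AltB (VF κ) PP tKF tL pcF [⟨0, 0, 0, 50331648⟩, ⟨1, 1, 0, 50331648⟩, ⟨2, 1, 0, 50331648⟩] 0 1 1 0 4 (sgb true) (sgb true) x := by
  have X : XR 50331648 x := XR.of hx hx' (by norm_num) (by norm_num) (by norm_num) (by norm_num)
  refine (cornK_of [] (C := cB011L) (C0 := c0F) (j := (0 : Fin 5)) (k := (4 : Fin 5)) (lo := 0) (hi := 0) (W := 50331648) (N0 := 1) cB011L_q (sideF hx hx') gokF X (by norm_num) (by norm_num) (l := (0 : Fin 5)) rfl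
    (gatF00 x) (gatF41 x) (gatF01 x) ?_).altFB rfl hκ le_rfl ?_
  · intro ρ a B hρ hd i h1 h2
    fin_cases i
    · exact corTK_cert (G1 := gF0q0) (G2 := gF4q1) (Ga := gF0q1) (Gb := gF1q1) cB011L_ok B hρ (gatF00 x) (gatF41 x) (fun _ => gatF01 x) (fun h => absurd h (by decide)) hd hx hx' CF.B011L_040
    · exact absurd h2 (by norm_num)
    · exact absurd h2 (by norm_num)
    · exact absurd h2 (by norm_num)
  · exact fun l hl => absurd hl List.not_mem_nil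

theorem altF_B011L_12 {κ x : ℝ} (hκ : κ * h0 = ken x) (hx : ((50331648 : ℕ) : ℝ) / S ≤ x) (hx' : x ≤ (((50331648 : ℕ) : ℝ) + (16777216 : ℕ)) / S) :
    AltB (VF κ) PP tKF tL pcF [⟨0, 0, 0, 50331648⟩, ⟨1, 1, 0, 50331648⟩, ⟨2, 1, 0, 50331648⟩] 0 1 1 1 2 (sgb true) (sgb true) x := by
  have X : XR 50331648 x := XR.of hx hx' (by norm_num) (by norm_num) (by norm_num) (by norm_num)
  refine (cornK_of [] (C := cB011L) (C0 := c0F) (j := (1 : Fin 5)) (k := (2 : Fin 5)) (lo := 0) (hi := 0) (W := 50331648) (N0 := 1) cB011L_q (sideF hx hx') gokF X (by norm_num) (by norm_num) (l := (0 : Fin 5)) rfl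
    (gatF10 x) (gatF21 x) (gatF01 x) ?_).altFB rfl hκ le_rfl ?_
  · intro ρ a B hρ hd i h1 h2
    fin_cases i
    · exact corTK_cert (G1 := gF1q0) (G2 := gF2q1) (Ga := gF0q1) (Gb := gF1q1) cB011L_ok B hρ (gatF10 x) (gatF21 x) (fun _ => gatF01 x) (fun h => absurd h (by decide)) hd hx hx' CF.B011L_120
    · exact absurd h2 (by norm_num)
    · exact absurd h2 (by norm_num)
    · exact absurd h2 (by norm_num)
  · exact fun l hl => absurd hl List.not_mem_nil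

theorem altF_B011L_13 {κ x : ℝ} (hκ : κ * h0 = ken x) (hx : ((50331648 : ℕ) : ℝ) / S ≤ x) (hx' : x ≤ (((50331648 : ℕ) : ℝ) + (16777216 : ℕ)) / S) :
    AltB (VF κ) PP tKF tL pcF [⟨0, 0, 0, 50331648⟩, ⟨1, 1, 0, 50331648⟩, ⟨2, 1, 0, 50331648⟩] 0 1 1 1 3 (sgb true) (sgb true) x := by
  have X : XR 50331648 x := XR.of hx hx' (by norm_num) (by norm_num) (by norm_num) (by norm_num)
  refine (cornK_of [] (C := cB011L) (C0 := c0F) (j := (1 : Fin 5)) (k := (3 : Fin 5)) (lo := 0) (hi := 0) (W := 50331648) (N0 := 1) cB011L_q (sideF hx hx') gokF X (by norm_num) (by norm_num) (l := (0 : Fin 5)) rfl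
    (gatF10 x) (gatF31 x) (gatF01 x) ?_).altFB rfl hκ le_rfl ?_
  · intro ρ a B hρ hd i h1 h2
    fin_cases i
    · exact corTK_cert (G1 := gF1q0) (G2 := gF3q1) (Ga := gF0q1) (Gb := gF1q1) cB011L_ok B hρ (gatF10 x) (gatF31 x) (fun _ => gatF01 x) (fun h => absurd h (by decide)) hd hx hx' CF.B011L_130
    · exact absurd h2 (by norm_num)
    · exact absurd h2 (by norm_num)
    · exact absurd h2 (by norm_num)
  · exact fun l hl => absurd hl List.not_mem_nil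

theorem altF_B011L_14 {κ x : ℝ} (hκ : κ * h0 = ken x) (hx : ((50331648 : ℕ) : ℝ) / S ≤ x) (hx' : x ≤ (((50331648 : ℕ) : ℝ) + (16777216 : ℕ)) / S) :
    AltB (VF κ) PP tKF tL pcF [⟨0, 0, 0, 50331648⟩, ⟨1, 1, 0, 50331648⟩, ⟨2, 1, 0, 50331648⟩] 0 1 1 1 4 (sgb true) (sgb true) x := by
  have X : XR 50331648 x := XR.of hx hx' (by norm_num) (by norm_num) (by norm_num) (by norm_num)
  refine (cornK_of [] (C := cB011L) (C0 := c0F) (j := (1 : Fin 5)) (k := (4 : Fin 5)) (lo := 0) (hi := 0) (W := 50331648) (N0 := 1) cB011L_q (sideF hx hx') gokF X (by norm_num) (by norm_num) (l := (0 : Fin 5)) rfl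
    (gatF10 x) (gatF41 x) (gatF01 x) ?_).altFB rfl hκ le_rfl ?_
  · intro ρ a B hρ hd i h1 h2
    fin_cases i
    · exact corTK_cert (G1 := gF1q0) (G2 := gF4q1) (Ga := gF0q1) (Gb := gF1q1) cB011L_ok B hρ (gatF10 x) (gatF41 x) (fun _ => gatF01 x) (fun h => absurd h (by decide)) hd hx hx' CF.B011L_140
    · exact absurd h2 (by norm_num)
    · exact absurd h2 (by norm_num)
    · exact absurd h2 (by norm_num)
  · exact fun l hl => absurd hl List.not_mem_nil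

theorem altF_B011L_22 {κ x : ℝ} (hκ : κ * h0 = ken x) (hx : ((50331648 : ℕ) : ℝ) / S ≤ x) (hx' : x ≤ (((50331648 : ℕ) : ℝ) + (16777216 : ℕ)) / S) :
    AltB (VF κ) PP tKF tL pcF [⟨0, 0, 0, 50331648⟩, ⟨1, 1, 0, 50331648⟩, ⟨2, 1, 0, 50331648⟩] 0 1 1 2 2 (sgb true) (sgb true) x := by
  have X : XR 50331648 x := XR.of hx hx' (by norm_num) (by norm_num) (by norm_num) (by norm_num)
  refine (cornK_of [] (C := cB011L) (C0 := c0F) (j := (2 : Fin 5)) (k := (2 : Fin 5)) (lo := 0) (hi := 0) (W := 50331648) (N0 := 1) cB011L_q (sideF hx hx') gokF X (by norm_num) (by norm_num) (l := (0 : Fin 5)) rfl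
    (gatF20 x) (gatF21 x) (gatF01 x) ?_).altFB rfl hκ le_rfl ?_
  · intro ρ a B hρ hd i h1 h2
    fin_cases i
    · exact corTK_cert (G1 := gF2q0) (G2 := gF2q1) (Ga := gF0q1) (Gb := gF1q1) cB011L_ok B hρ (gatF20 x) (gatF21 x) (fun _ => gatF01 x) (fun h => absurd h (by decide)) hd hx hx' CF.B011L_220
    · exact absurd h2 (by norm_num)
    · exact absurd h2 (by norm_num)
    · exact absurd h2 (by norm_num)
  · exact fun l hl => absurd hl List.not_mem_nil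

theorem altF_B011L_23 {κ x : ℝ} (hκ : κ * h0 = ken x) (hx : ((50331648 : ℕ) : ℝ) / S ≤ x) (hx' : x ≤ (((50331648 : ℕ) : ℝ) + (16777216 : ℕ)) / S) :
    AltB (VF κ) PP tKF tL pcF [⟨0, 0, 0, 50331648⟩, ⟨1, 1, 0, 50331648⟩, ⟨2, 1, 0, 50331648⟩] 0 1 1 2 3 (sgb true) (sgb true) x := by
  have X : XR 50331648 x := XR.of hx hx' (by norm_num) (by norm_num) (by norm_num) (by norm_num)
  refine (cornK_of [] (C := cB011L) (C0 := c0F) (j := (2 : Fin 5)) (k := (3 : Fin 5)) (lo := 0) (hi := 0) (W := 50331648) (N0 := 1) cB011L_q (sideF hx hx') gokF X (by norm_num) (by norm_num) (l := (0 : Fin 5)) rfl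
    (gatF20 x) (gatF31 x) (gatF01 x) ?_).altFB rfl hκ le_rfl ?_
  · intro ρ a B hρ hd i h1 h2
    fin_cases i
    · exact corTK_cert (G1 := gF2q0) (G2 := gF3q1) (Ga := gF0q1) (Gb := gF1q1) cB011L_ok B hρ (gatF20 x) (gatF31 x) (fun _ => gatF01 x) (fun h => absurd h (by decide)) hd hx hx' CF.B011L_230
    · exact absurd h2 (by norm_num)
    · exact absurd h2 (by norm_num)
    · exact absurd h2 (by norm_num)
  · exact fun l hl => absurd hl List.not_mem_nil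

theorem altF_B011L_24 {κ x : ℝ} (hκ : κ * h0 = ken x) (hx : ((50331648 : ℕ) : ℝ) / S ≤ x) (hx' : x ≤ (((50331648 : ℕ) : ℝ) + (16777216 : ℕ)) / S) :
    AltB (VF κ) PP tKF tL pcF [⟨0, 0, 0, 50331648⟩, ⟨1, 1, 0, 50331648⟩, ⟨2, 1, 0, 50331648⟩] 0 1 1 2 4 (sgb true) (sgb true) x := by
  have X : XR 50331648 x := XR.of hx hx' (by norm_num) (by norm_num) (by norm_num) (by norm_num)
  refine (cornK_of [] (C := cB011L) (C0 := c0F) (j := (2 : Fin 5)) (k := (4 : Fin 5)) (lo := 0) (hi := 0) (W := 50331648) (N0 := 1) cB011L_q (sideF hx hx') gokF X (by norm_num) (by norm_num) (l := (0 : Fin 5)) rfl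
    (gatF20 x) (gatF41 x) (gatF01 x) ?_).altFB rfl hκ le_rfl ?_
  · intro ρ a B hρ hd i h1 h2
    fin_cases i
    · exact corTK_cert (G1 := gF2q0) (G2 := gF4q1) (Ga := gF0q1) (Gb := gF1q1) cB011L_ok B hρ (gatF20 x) (gatF41 x) (fun _ => gatF01 x) (fun h => absurd h (by decide)) hd hx hx' CF.B011L_240
    · exact absurd h2 (by norm_num)
    · exact absurd h2 (by norm_num)
    · exact absurd h2 (by norm_num)
  · exact fun l hl => absurd hl List.not_mem_nil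

theorem altF_B011R_00 {κ x : ℝ} (hκ : κ * h0 = ken x) (hx : ((50331648 : ℕ) : ℝ) / S ≤ x) (hx' : x ≤ (((50331648 : ℕ) : ℝ) + (16777216 : ℕ)) / S) :
    AltB (VF κ) PP tKF tL pcF [⟨0, 0, 0, 16777216⟩, ⟨1, 1, 0, 16777216⟩, ⟨2, 1, 0, 16777216⟩] 0 1 1 0 0 (sgb true) (sgb false) x := by
  have X : XR 16777216 x := XR.of hx hx' (by norm_num) (by norm_num) (by norm_num) (by norm_num)
  refine (cornK_of [[⟨0, 0, 1, 25165824⟩, ⟨1, 1, 2, 25165824⟩, ⟨2, 1, 0, 8388608⟩, ⟨0, 0, 0, 83886080⟩, ⟨0, 1, 0, 1040187392⟩, ⟨1, 0, 0, 1040187392⟩, ⟨1, 1, 0, 83886080⟩]] (C := cB011R) (C0 := c0F) (j := (0 : Fin 5)) (k := (0 : Fin 5)) (lo := 2) (hi := 4) (W := 16777216) (N0 := 1) cB011R_q (sideF hx hx') gokF X (by norm_num) (by norm_num) (l := (2 : Fin 5)) rfl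
    (gatF00 x) (gatF01 x) (gatF21 x) ?_).altFB rfl hκ le_rfl ?_
  · intro ρ a B hρ hd i h1 h2
    fin_cases i
    · exact absurd h1 (by norm_num)
    · exact corTK_cert (G1 := gF0q0) (G2 := gF0q1) (Ga := gF1q1) (Gb := gF2q1) cB011R_ok B hρ (gatF00 x) (gatF01 x) (fun h => absurd h (by decide)) (fun _ => gatF21 x) hd hx hx' CF.B011R_001
    · exact corTK_cert (G1 := gF0q0) (G2 := gF0q1) (Ga := gF2q1) (Gb := gF3q1) cB011R_ok B hρ (gatF00 x) (gatF01 x) (fun _ => gatF21 x) (fun _ => gatF31 x) hd hx hx' CF.B011R_002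
    · exact corXK_cert (G1 := gF0q0) (G2 := gF0q1) (Ga := gF3q1) (Gb := gF4q1) (GT := gF4q1) cB011R_ok tB011R_ok B hρ (gatF00 x) (gatF01 x) (fun _ => gatF31 x) (fun _ => gatF41 x) rfl (tgh_B011R (kodd x) (gpu0 x) (gpu1 x) (gpt1 x) (gatF00 x) (gatF01 x) (gatF41 x) B (le_sixteenth hd (by norm_num))) hd hx hx' CF.B011R_003
  · intro l hl
    simp only [List.mem_cons, List.not_mem_nil, or_false] at hl
    rcases hl with rfl
    · exact Mo.molF_B_011_00_0 hκ hx hx'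

theorem altF_B011R_10 {κ x : ℝ} (hκ : κ * h0 = ken x) (hx : ((50331648 : ℕ) : ℝ) / S ≤ x) (hx' : x ≤ (((50331648 : ℕ) : ℝ) + (16777216 : ℕ)) / S) :
    AltB (VF κ) PP tKF tL pcF [⟨0, 0, 0, 50331648⟩, ⟨1, 1, 0, 50331648⟩, ⟨2, 1, 0, 50331648⟩] 0 1 1 1 0 (sgb true) (sgb false) x := by
  have X : XR 50331648 x := XR.of hx hx' (by norm_num) (by norm_num) (by norm_num) (by norm_num)
  refine (cornK_of [] (C := cB011R) (C0 := c0F) (j := (1 : Fin 5)) (k := (0 : Fin 5)) (lo := 2) (hi := 4) (W := 50331648) (N0 := 1) cB011R_q (sideF hx hx') gokF X (by norm_num) (by norm_num) (l := (2 : Fin 5)) rfl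
    (gatF10 x) (gatF01 x) (gatF21 x) ?_).altFB rfl hκ le_rfl ?_
  · intro ρ a B hρ hd i h1 h2
    fin_cases i
    · exact absurd h1 (by norm_num)
    · exact corTK_cert (G1 := gF1q0) (G2 := gF0q1) (Ga := gF1q1) (Gb := gF2q1) cB011R_ok B hρ (gatF10 x) (gatF01 x) (fun h => absurd h (by decide)) (fun _ => gatF21 x) hd hx hx' CF.B011R_101
    · exact corTK_cert (G1 := gF1q0) (G2 := gF0q1) (Ga := gF2q1) (Gb := gF3q1) cB011R_ok B hρ (gatF10 x) (gatF01 x) (fun _ => gatF21 x) (fun _ => gatF31 x) hd hx hx' CF.B011R_102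
    · exact corTK_cert (G1 := gF1q0) (G2 := gF0q1) (Ga := gF3q1) (Gb := gF4q1) cB011R_ok B hρ (gatF10 x) (gatF01 x) (fun _ => gatF31 x) (fun _ => gatF41 x) hd hx hx' CF.B011R_103
  · exact fun l hl => absurd hl List.not_mem_nil

theorem altF_B011R_20 {κ x : ℝ} (hκ : κ * h0 = ken x) (hx : ((50331648 : ℕ) : ℝ) / S ≤ x) (hx' : x ≤ (((50331648 : ℕ) : ℝ) + (16777216 : ℕ)) / S) :
    AltB (VF κ) PP tKF tL pcF [⟨0, 0, 0, 50331648⟩, ⟨1, 1, 0, 50331648⟩, ⟨2, 1, 0, 50331648⟩] 0 1 1 2 0 (sgb true) (sgb false) x := by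
  have X : XR 50331648 x := XR.of hx hx' (by norm_num) (by norm_num) (by norm_num) (by norm_num)
  refine (cornK_of [] (C := cB011R) (C0 := c0F) (j := (2 : Fin 5)) (k := (0 : Fin 5)) (lo := 2) (hi := 4) (W := 50331648) (N0 := 1) cB011R_q (sideF hx hx') gokF X (by norm_num) (by norm_num) (l := (2 : Fin 5)) rfl
    (gatF20 x) (gatF01 x) (gatF21 x) ?_).altFB rfl hκ le_rfl ?_
  · intro ρ a B hρ hd i h1 h2
    fin_cases i
    · exact absurd h1 (by norm_num)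
    · exact corTK_cert (G1 := gF2q0) (G2 := gF0q1) (Ga := gF1q1) (Gb := gF2q1) cB011R_ok B hρ (gatF20 x) (gatF01 x) (fun h => absurd h (by decide)) (fun _ => gatF21 x) hd hx hx' CF.B011R_201
    · exact corTK_cert (G1 := gF2q0) (G2 := gF0q1) (Ga := gF2q1) (Gb := gF3q1) cB011R_ok B hρ (gatF20 x) (gatF01 x) (fun _ => gatF21 x) (fun _ => gatF31 x) hd hx hx' CF.B011R_202
    · exact corTK_cert (G1 := gF2q0) (G2 := gF0q1) (Ga := gF3q1) (Gb := gF4q1) cB011R_ok B hρ (gatF20 x) (gatF01 x) (fun _ => gatF31 x) (fun _ => gatF41 x) hd hx hx' CF.B011R_203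
  · exact fun l hl => absurd hl List.not_mem_nil

theorem altF_B012E_00 {κ x : ℝ} (hκ : κ * h0 = ken x) (hx : ((50331648 : ℕ) : ℝ) / S ≤ x) (hx' : x ≤ (((50331648 : ℕ) : ℝ) + (16777216 : ℕ)) / S) :
    AltB (VF κ) PP tKF tL pcF [⟨0, 0, 0, 12582912⟩, ⟨1, 1, 0, 12582912⟩, ⟨2, 1, 0, 12582912⟩] 0 1 2 0 0 (sgb true) (sgb true) x := by
  have X : XR 12582912 x := XR.of hx hx' (by norm_num) (by norm_num) (by norm_num) (by norm_num)
  refine (cornK_of [] (C := cB012E) (C0 := c0F) (j := (0 : Fin 5)) (k := (0 : Fin 5)) (lo := 0) (hi := 0) (W := 12582912) (N0 := 1) cB012E_q (sideF hx hx') gokF X (by norm_num) (by norm_num) (l := (0 : Fin 5)) rfl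
    (gatF00 x) (gatF02 x) (gatF01 x) ?_).altFB rfl hκ le_rfl ?_
  · intro ρ a B hρ hd i h1 h2
    fin_cases i
    · exact corXK_cert (G1 := gF0q0) (G2 := gF0q2) (Ga := gF0q1) (Gb := gF1q1) (GT := gF0q1) cB012E_ok tB012E_ok B hρ (gatF00 x) (gatF02 x) (fun _ => gatF01 x) (fun h => absurd h (by decide)) rfl (tgh_B012E (kodd x) (gpu0 x) (gpu2 x) (gpu1 x) (gatF00 x) (gatF02 x) (gatF01 x) B (le_sixteenth hd (by norm_num))) hd hx hx' CF.B012E_000
    · exact absurd h2 (by norm_num)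
    · exact absurd h2 (by norm_num)
    · exact absurd h2 (by norm_num)
  · exact fun l hl => absurd hl List.not_mem_nil

theorem altF_B012E_01 {κ x : ℝ} (hκ : κ * h0 = ken x) (hx : ((50331648 : ℕ) : ℝ) / S ≤ x) (hx' : x ≤ (((50331648 : ℕ) : ℝ) + (16777216 : ℕ)) / S) :
    AltB (VF κ) PP tKF tL pcF [⟨0, 0, 0, 50331648⟩, ⟨1, 1, 0, 50331648⟩, ⟨2, 1, 0, 50331648⟩] 0 1 2 0 1 (sgb true) (sgb true) x := by
  have X : XR 50331648 x := XR.of hx hx' (by norm_num) (by norm_num) (by norm_num) (by norm_num)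
  refine (cornK_of [] (C := cB012E) (C0 := c0F) (j := (0 : Fin 5)) (k := (1 : Fin 5)) (lo := 0) (hi := 0) (W := 50331648) (N0 := 1) cB012E_q (sideF hx hx') gokF X (by norm_num) (by norm_num) (l := (0 : Fin 5)) rfl
    (gatF00 x) (gatF12 x) (gatF01 x) ?_).altFB rfl hκ le_rfl ?_
  · intro ρ a B hρ hd i h1 h2
    fin_cases i
    · exact corTK_cert (G1 := gF0q0) (G2 := gF1q2) (Ga := gF0q1) (Gb := gF1q1) cB012E_ok B hρ (gatF00 x) (gatF12 x) (fun _ => gatF01 x) (fun h => absurd h (by decide)) hd hx hx' CF.B012E_010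
    · exact absurd h2 (by norm_num)
    · exact absurd h2 (by norm_num)
    · exact absurd h2 (by norm_num)
  · exact fun l hl => absurd hl List.not_mem_nil

end Pool.Agent.Strip051.G.I3_64_1_16.Tab
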