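import Pool.Agent.Strip051.G.I3_64_1_16.StF

/-! # Unit strips 0 (generated) -/

set_option linter.all false
set_option maxRecDepth 100000

namespace Pool.Agent.Strip051.G.I3_64_1_16.Tab.St.C

open Pool.Agent.Strip051.PB Pool.Agent.Strip051.PB.T Pool.Agent.StripNear Pool.Agent.Strip051.LC
open Pool.Agent.Strip051.G.I3_64_1_16.Tab Pool.Agent.Strip051.G.I3_64_1_16.Tab.St

noncomputable def cut_A00pp_001_s1 : Cut := Cut.of [[⟨4, 0, 0, 1449551462⟩]]

noncomputable def f_A00pp_001_s1 : ℕ → ℕ → ℕ → ℕ → Bool := onCell 0 536870912 0 536870912 50331648 16777216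
    (rowFK 0 true true true .up 0 0 1 (qsf 0 536870912 0 536870912 1) ndF0q0 ndF0q0 pcF1 cut_A00pp_001_s1 Ext.none)

def k0_A00pp_001_s1 : ∃ t, chk3 f_A00pp_001_s1 t 1 1 1 = true :=
  ⟨(l 4), by decide +kernel⟩

theorem c_A00pp_001_s1 : CertF 0 536870912 0 536870912 50331648 16777216 true true true .up 0 0 1
    ndF0q0 ndF0q0 pcF1 cut_A00pp_001_s1 Ext.none :=
  certFK0 (fam := true) (s1 := true) (s2 := true) (a := 0) (b := 0) (c := 1) (cn := .up) (n1 := ndF0q0) (n2 := ndF0q0) (pc := pcF1) (cut := cut_A00pp_001_s1) (xt := Ext.none) (P1 := 0) (W1 := 536870912) (P2 := 0) (W2 := 536870912) (P3 := 50331648) (W3 := 16777216)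
    rfl rfl rfl k0_A00pp_001_s1

theorem s_A00pp_001_s1 {κ x : ℝ} (hκ : κ * h0 = ken x) (hx : ((50331648 : ℕ) : ℝ) / S ≤ x)
    (hx' : x ≤ (((50331648 : ℕ) : ℝ) + (16777216 : ℕ)) / S) :
    AltA (VF κ) PP tKF tL pcF [⟨3, 0, 0, 1449551462⟩] 0 0 1 0 0 (sgb true) (sgb true) x :=
  strip_altA (m := 1449551462) true rfl hκ covF00 covF00 hx hx' c_A00pp_001_s1 cutA_nil (noExt_A)

noncomputable def cut_A00pp_001_s3 : Cut := Cut.of [[⟨3, 0, 0, 2845415833⟩]]

noncomputable def f_A00pp_001_s3 : ℕ → ℕ → ℕ → ℕ → Bool := onCell 0 536870912 0 536870912 50331648 16777216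
    (rowFK 0 true true true .up 0 0 1 (qsf 0 536870912 0 536870912 1) ndF0q0 ndF0q0 pcF1 cut_A00pp_001_s3 Ext.none)

def k0_A00pp_001_s3 : ∃ t, chk3 f_A00pp_001_s3 t 1 1 1 = true :=
  ⟨(l 4), by decide +kernel⟩

theorem c_A00pp_001_s3 : CertF 0 536870912 0 536870912 50331648 16777216 true true true .up 0 0 1
    ndF0q0 ndF0q0 pcF1 cut_A00pp_001_s3 Ext.none :=
  certFK0 (fam := true) (s1 := true) (s2 := true) (a := 0) (b := 0) (c := 1) (cn := .up) (n1 := ndF0q0) (n2 := ndF0q0) (pc := pcF1) (cut := cut_A00pp_001_s3) (xt := Ext.none) (P1 := 0) (W1 := 536870912) (P2 := 0) (W2 := 536870912) (P3 := 50331648) (W3 := 16777216)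
    rfl rfl rfl k0_A00pp_001_s3

theorem s_A00pp_001_s3 {κ x : ℝ} (hκ : κ * h0 = ken x) (hx : ((50331648 : ℕ) : ℝ) / S ≤ x)
    (hx' : x ≤ (((50331648 : ℕ) : ℝ) + (16777216 : ℕ)) / S) :
    AltA (VF κ) PP tKF tL pcF [⟨4, 0, 0, 2845415833⟩] 0 0 1 0 0 (sgb true) (sgb true) x :=
  strip_altA (m := 2845415833) false rfl hκ covF00 covF00 hx hx' c_A00pp_001_s3 cutA_nil (noExt_A)

noncomputable def cut_A00pp_011_s1 : Cut := Cut.of [[⟨4, 0, 0, 1449551462⟩], [⟨0, 0, 0, 50331648⟩, ⟨1, 1, 0, 50331648⟩, ⟨2, 1, 0, 50331648⟩]]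

noncomputable def f_A00pp_011_s1 : ℕ → ℕ → ℕ → ℕ → Bool := onCell 0 536870912 536870912 536870912 50331648 16777216
    (rowFK 0 true true true .pnn 0 1 1 (qsf 0 536870912 536870912 536870912 1) ndF0q0 ndF0q1 pcF1 cut_A00pp_011_s1 Ext.none)

def k0_A00pp_011_s1 : ∃ t, chk3 f_A00pp_011_s1 t 1 1 1 = true :=
  ⟨(l 6), by decide +kernel⟩

theorem c_A00pp_011_s1 : CertF 0 536870912 536870912 536870912 50331648 16777216 true true true .pnn 0 1 1
    ndF0q0 ndF0q1 pcF1 cut_A00pp_011_s1 Ext.none :=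
  certFK0 (fam := true) (s1 := true) (s2 := true) (a := 0) (b := 1) (c := 1) (cn := .pnn) (n1 := ndF0q0) (n2 := ndF0q1) (pc := pcF1) (cut := cut_A00pp_011_s1) (xt := Ext.none) (P1 := 0) (W1 := 536870912) (P2 := 536870912) (W2 := 536870912) (P3 := 50331648) (W3 := 16777216)
    rfl rfl rfl k0_A00pp_011_s1

theorem s_A00pp_011_s1 {κ x : ℝ} (hκ : κ * h0 = ken x) (hx : ((50331648 : ℕ) : ℝ) / S ≤ x)
    (hx' : x ≤ (((50331648 : ℕ) : ℝ) + (16777216 : ℕ)) / S)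
    (H : CutA (VF κ) PP tKF tL pcF (Cut.of [[⟨0, 0, 0, 50331648⟩, ⟨1, 1, 0, 50331648⟩, ⟨2, 1, 0, 50331648⟩]]) 0 1 1 0 0 (sgb true) (sgb true) x) :
    AltA (VF κ) PP tKF tL pcF [⟨3, 0, 0, 1449551462⟩] 0 1 1 0 0 (sgb true) (sgb true) x :=
  strip_altA (m := 1449551462) true rfl hκ covF00 covF01 hx hx' c_A00pp_011_s1 H (noExt_A)

noncomputable def cut_A00pp_011_s3 : Cut := Cut.of [[⟨3, 0, 0, 2845415833⟩], [⟨0, 0, 0, 50331648⟩, ⟨1, 1, 0, 50331648⟩, ⟨2, 1, 0, 50331648⟩]]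

noncomputable def f_A00pp_011_s3 : ℕ → ℕ → ℕ → ℕ → Bool := onCell 0 536870912 536870912 536870912 50331648 16777216
    (rowFK 0 true true true .pnn 0 1 1 (qsf 0 536870912 536870912 536870912 1) ndF0q0 ndF0q1 pcF1 cut_A00pp_011_s3 Ext.none)

def k0_A00pp_011_s3 : ∃ t, chk3 f_A00pp_011_s3 t 1 1 1 = true :=
  ⟨(a (b (l 4) (b (l 4) (b (l 4) (a (a (a (b (l 4) (l 14)) (l 4)) (l 4)) (l 2))))) (l 4)), by decide +kernel⟩

theorem c_A00pp_011_s3 : CertF 0 536870912 536870912 536870912 50331648 16777216 true true true .pnn 0 1 1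
    ndF0q0 ndF0q1 pcF1 cut_A00pp_011_s3 Ext.none :=
  certFK0 (fam := true) (s1 := true) (s2 := true) (a := 0) (b := 1) (c := 1) (cn := .pnn) (n1 := ndF0q0) (n2 := ndF0q1) (pc := pcF1) (cut := cut_A00pp_011_s3) (xt := Ext.none) (P1 := 0) (W1 := 536870912) (P2 := 536870912) (W2 := 536870912) (P3 := 50331648) (W3 := 16777216)
    rfl rfl rfl k0_A00pp_011_s3

theorem s_A00pp_011_s3 {κ x : ℝ} (hκ : κ * h0 = ken x) (hx : ((50331648 : ℕ) : ℝ) / S ≤ x)
    (hx' : x ≤ (((50331648 : ℕ) : ℝ) + (16777216 : ℕ)) / S)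
    (H : CutA (VF κ) PP tKF tL pcF (Cut.of [[⟨0, 0, 0, 50331648⟩, ⟨1, 1, 0, 50331648⟩, ⟨2, 1, 0, 50331648⟩]]) 0 1 1 0 0 (sgb true) (sgb true) x) :
    AltA (VF κ) PP tKF tL pcF [⟨4, 0, 0, 2845415833⟩] 0 1 1 0 0 (sgb true) (sgb true) x :=
  strip_altA (m := 2845415833) false rfl hκ covF00 covF01 hx hx' c_A00pp_011_s3 H (noExt_A)

noncomputable def cut_A00pp_012_s1 : Cut := Cut.of [[⟨4, 0, 0, 1449551462⟩], [⟨0, 0, 0, 50331648⟩, ⟨1, 1, 0, 50331648⟩, ⟨2, 1, 0, 50331648⟩]]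

noncomputable def f_A00pp_012_s1 : ℕ → ℕ → ℕ → ℕ → Bool := onCell 0 536870912 536870912 536870912 50331648 16777216
    (rowFK 0 true true true .pnp 0 1 2 (qsf 0 536870912 536870912 536870912 2) ndF0q0 ndF0q1 pcF2 cut_A00pp_012_s1 Ext.none)

def k0_A00pp_012_s1 : ∃ t, chk3 f_A00pp_012_s1 t 1 1 1 = true :=
  ⟨(l 6), by decide +kernel⟩

theorem c_A00pp_012_s1 : CertF 0 536870912 536870912 536870912 50331648 16777216 true true true .pnp 0 1 2
    ndF0q0 ndF0q1 pcF2 cut_A00pp_012_s1 Ext.none :=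
  certFK0 (fam := true) (s1 := true) (s2 := true) (a := 0) (b := 1) (c := 2) (cn := .pnp) (n1 := ndF0q0) (n2 := ndF0q1) (pc := pcF2) (cut := cut_A00pp_012_s1) (xt := Ext.none) (P1 := 0) (W1 := 536870912) (P2 := 536870912) (W2 := 536870912) (P3 := 50331648) (W3 := 16777216)
    rfl rfl rfl k0_A00pp_012_s1

theorem s_A00pp_012_s1 {κ x : ℝ} (hκ : κ * h0 = ken x) (hx : ((50331648 : ℕ) : ℝ) / S ≤ x)
    (hx' : x ≤ (((50331648 : ℕ) : ℝ) + (16777216 : ℕ)) / S)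
    (H : CutA (VF κ) PP tKF tL pcF (Cut.of [[⟨0, 0, 0, 50331648⟩, ⟨1, 1, 0, 50331648⟩, ⟨2, 1, 0, 50331648⟩]]) 0 1 2 0 0 (sgb true) (sgb true) x) :
    AltA (VF κ) PP tKF tL pcF [⟨3, 0, 0, 1449551462⟩] 0 1 2 0 0 (sgb true) (sgb true) x :=
  strip_altA (m := 1449551462) true rfl hκ covF00 covF01 hx hx' c_A00pp_012_s1 H (noExt_A)

noncomputable def cut_A00pp_012_s3 : Cut := Cut.of [[⟨3, 0, 0, 2845415833⟩], [⟨0, 0, 0, 50331648⟩, ⟨1, 1, 0, 50331648⟩, ⟨2, 1, 0, 50331648⟩]]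

noncomputable def f_A00pp_012_s3 : ℕ → ℕ → ℕ → ℕ → Bool := onCell 0 536870912 536870912 536870912 50331648 16777216
    (rowFK 0 true true true .pnp 0 1 2 (qsf 0 536870912 536870912 536870912 2) ndF0q0 ndF0q1 pcF2 cut_A00pp_012_s3 Ext.none)

def k0_A00pp_012_s3 : ∃ t, chk3 f_A00pp_012_s3 t 1 1 1 = true :=
  ⟨(a (b (l 4) (b (l 4) (a (b (l 4) (a (b (l 4) (a (l 14) (l 4))) (l 4))) (l 4)))) (l 4)), by decide +kernel⟩

theorem c_A00pp_012_s3 : CertF 0 536870912 536870912 536870912 50331648 16777216 true true true .pnp 0 1 2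
    ndF0q0 ndF0q1 pcF2 cut_A00pp_012_s3 Ext.none :=
  certFK0 (fam := true) (s1 := true) (s2 := true) (a := 0) (b := 1) (c := 2) (cn := .pnp) (n1 := ndF0q0) (n2 := ndF0q1) (pc := pcF2) (cut := cut_A00pp_012_s3) (xt := Ext.none) (P1 := 0) (W1 := 536870912) (P2 := 536870912) (W2 := 536870912) (P3 := 50331648) (W3 := 16777216)
    rfl rfl rfl k0_A00pp_012_s3

theorem s_A00pp_012_s3 {κ x : ℝ} (hκ : κ * h0 = ken x) (hx : ((50331648 : ℕ) : ℝ) / S ≤ x)
    (hx' : x ≤ (((50331648 : ℕ) : ℝ) + (16777216 : ℕ)) / S)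
    (H : CutA (VF κ) PP tKF tL pcF (Cut.of [[⟨0, 0, 0, 50331648⟩, ⟨1, 1, 0, 50331648⟩, ⟨2, 1, 0, 50331648⟩]]) 0 1 2 0 0 (sgb true) (sgb true) x) :
    AltA (VF κ) PP tKF tL pcF [⟨4, 0, 0, 2845415833⟩] 0 1 2 0 0 (sgb true) (sgb true) x :=
  strip_altA (m := 2845415833) false rfl hκ covF00 covF01 hx hx' c_A00pp_012_s3 H (noExt_A)

noncomputable def cut_A00pp_022_s1 : Cut := Cut.of [[⟨4, 0, 0, 1449551462⟩], [⟨0, 0, 0, 16777216⟩, ⟨1, 1, 0, 16777216⟩, ⟨2, 1, 0, 16777216⟩]]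

noncomputable def f_A00pp_022_s1 : ℕ → ℕ → ℕ → ℕ → Bool := onCell 0 536870912 0 536870912 50331648 16777216
    (rowFK 0 true true true .pp 0 2 2 (qsf 0 536870912 0 536870912 2) ndF0q0 ndF0q2 pcF2 cut_A00pp_022_s1 Ext.none)

def k0_A00pp_022_s1 : ∃ t, chk3 f_A00pp_022_s1 t 1 1 1 = true :=
  ⟨(l 6), by decide +kernel⟩

theorem c_A00pp_022_s1 : CertF 0 536870912 0 536870912 50331648 16777216 true true true .pp 0 2 2
    ndF0q0 ndF0q2 pcF2 cut_A00pp_022_s1 Ext.none :=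
  certFK0 (fam := true) (s1 := true) (s2 := true) (a := 0) (b := 2) (c := 2) (cn := .pp) (n1 := ndF0q0) (n2 := ndF0q2) (pc := pcF2) (cut := cut_A00pp_022_s1) (xt := Ext.none) (P1 := 0) (W1 := 536870912) (P2 := 0) (W2 := 536870912) (P3 := 50331648) (W3 := 16777216)
    rfl rfl rfl k0_A00pp_022_s1

theorem s_A00pp_022_s1 {κ x : ℝ} (hκ : κ * h0 = ken x) (hx : ((50331648 : ℕ) : ℝ) / S ≤ x)
    (hx' : x ≤ (((50331648 : ℕ) : ℝ) + (16777216 : ℕ)) / S)
    (H : CutA (VF κ) PP tKF tL pcF (Cut.of [[⟨0, 0, 0, 16777216⟩, ⟨1, 1, 0, 16777216⟩, ⟨2, 1, 0, 16777216⟩]]) 0 2 2 0 0 (sgb true) (sgb true) x) :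
    AltA (VF κ) PP tKF tL pcF [⟨3, 0, 0, 1449551462⟩] 0 2 2 0 0 (sgb true) (sgb true) x :=
  strip_altA (m := 1449551462) true rfl hκ covF00 covF02 hx hx' c_A00pp_022_s1 H (noExt_A)

noncomputable def cut_A00pp_022_s3 : Cut := Cut.of [[⟨3, 0, 0, 2845415833⟩], [⟨0, 0, 0, 16777216⟩, ⟨1, 1, 0, 16777216⟩, ⟨2, 1, 0, 16777216⟩]]

noncomputable def xt_A00pp_022_s3 : Ext := strExt dd true true true .u0 .u2 .s2 .pp 0 2 2 rfl rfl gl2 vv ndF0q0 ndF0q2

noncomputable def f_A00pp_022_s3 : ℕ → ℕ → ℕ → ℕ → Bool := onCell 0 536870912 0 536870912 50331648 16777216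
    (rowFK 0 true true true .pp 0 2 2 (qsf 0 536870912 0 536870912 2) ndF0q0 ndF0q2 pcF2 cut_A00pp_022_s3 xt_A00pp_022_s3)

def k0_A00pp_022_s3 : ∃ t, chk3 f_A00pp_022_s3 t 1 2 1 = true :=
  ⟨(a (a (a (l 6) (b (l 6) (b (l 6) (l 17966792)))) (b (a (l 6) (l 17716152)) (a (b (l 17758720) (l 17822776)) (l 552363791)))) (a (b (a (l 17825128) (b (l 17361648) (l 92980704423))) (a (l 549927439) (l 549230351))) (b (l 2) (a (l 548600335) (l 2))))), by decide +kernel⟩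

def k1_A00pp_022_s3 : ∃ t, chk3 f_A00pp_022_s3 t 4 6 1 = true :=
  ⟨(a (b (a (a (l 18553656) (l 18402048)) (l 18165048)) (b (a (a (b (l 18336472) (l 18213448)) (l 18168392)) (l 17949496)) (a (a (b (a (l 18056528) (l 18059512)) (a (a (l 17490496) (l 17866096)) (l 17892448))) (b (l 18003800) (l 17869760))) (a (l 17822120) (l 17682416))))) (a (b (l 17877696) (a (b (l 17729512) (l 17540720)) (l 561998351))) (b (l 17632160) (b (l 17407880) (l 561758479))))), by decide +kernel⟩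

def k2_A00pp_022_s3 : ∃ t, chk3 f_A00pp_022_s3 t 4 14 1 = true :=
  ⟨(a (a (a (a (b (b (a (c (b (l 17826768) (l 17675824)) (b (l 17244528) (a (l 17031992) (l 17270952)))) (b (l 17687488) (l 17297048))) (a (c (b (a (l 17304320) (l 17528304)) (a (l 16881392) (l 17167624))) (b (a (l 16861512) (l 16994520)) (a (l 16776904) (l 16855912)))) (a (c (l 17152696) (a (l 16869408) (l 16909544))) (b (l 17247544) (l 17075712))))) (b (b (a (a (b (l 16799984) (l 16774016)) (l 16853352)) (a (l 16875024) (l 16963216))) (a (a (l 16772144) (l 16773440)) (l 16775288))) (b (a (a (l 16770096) (l 16771320)) (l 16773064)) (a (a (l 16768560) (l 16769712)) (l 16771360))))) (b (b (a (l 17419240) (l 17700784)) (a (b (l 17306864) (l 16987608)) (b (l 17528592) (l 17314024)))) (b (a (b (l 16900752) (l 16833472)) (b (l 17085216) (l 16924440))) (a (b (l 16775248) (l 16773416)) (b (l 16830144) (l 16775288)))))) (b (a (b (l 17716464) (a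 (l 17335848) (l 17524344))) (b (l 17700896) (l 17530272))) (a (a (b (a (l 16983312) (l 17014144)) (b (l 16948192) (l 16787088))) (b (b (l 17359816) (l 17239064)) (b (l 17026024) (l 16889528)))) (a (b (l 17159800) (b (l 17158400) (l 16955184))) (b (l 17339288) (b (l 17185304) (l 17078032))))))) (a (b (a (b (l 17659904) (l 17506928)) (l 17450184)) (a (b (c (l 17411552) (l 17175632)) (a (b (l 17196224) (l 17097464)) (l 563771407))) (b (l 17304344) (a (l 17057088) (l 17042240))))) (b (b (l 17507872) (l 17374232)) (b (a (l 17255512) (l 17197200)) (a (l 567666959) (l 568557327)))))) (a (b (a (l 567118095) (l 565575183)) (a (a (l 568614927) (l 568492303)) (l 568089871))) (b (l 564142351) (a (l 567121935) (l 566040335))))), by decide +kernel⟩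

def k3_A00pp_022_s3 : ∃ t, chk3 f_A00pp_022_s3 t 8 60 1 = true :=
  ⟨(a (a (a (a (b (a (l 16767536) (l 16768632)) (a (b (l 16767128) (l 16767016)) (l 16768080))) (a (b (l 16769680) (l 16769064)) (b (l 16770680) (l 16770000)))) (b (a (b (l 16772384) (l 16771856)) (l 16773848)) (a (a (l 16770896) (l 16771744)) (b (l 16773120) (l 16772800))))) (b (a (a (l 16775416) (l 16769304)) (a (l 16771064) (l 16802592))) (a (a (b (l 16774592) (l 16774208)) (a (l 16775352) (l 16775936))) (a (b (l 16828984) (l 16776496)) (c (l 16777768) (l 16778696)))))) (a (a (a (b (l 16915112) (b (l 16928032) (l 16799680))) (b (l 16926416) (l 556451343))) (a (b (l 17008976) (l 559808783)) (l 563568655))) (a (a (l 565273615) (l 566580751)) (l 568018703)))), by decide +kernel⟩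

def k4_A00pp_022_s3 : ∃ t, chk3 f_A00pp_022_s3 t 8 61 1 = true :=
  ⟨(a (b (b (a (a (a (a (l 16767048) (l 16768024)) (a (l 16768960) (l 16769848))) (a (a (l 16770696) (l 16771496)) (l 16772616))) (a (a (l 16773960) (l 16775128)) (a (l 16776120) (l 16798464)))) (a (a (a (a (a (l 16766968) (l 16767456)) (l 16768160)) (a (l 16769056) (l 16769912))) (a (a (l 16770728) (l 16771504)) (a (l 16772232) (l 16772912)))) (a (a (a (l 16773552) (l 16774152)) (l 16774960)) (a (l 16775888) (l 16776632))))) (a (a (a (a (b (a (l 16767280) (l 16767752)) (a (a (l 16767624) (l 16767848)) (l 16768184))) (a (b (l 16768208) (l 16768624)) (b (l 16768648) (l 16769056)))) (b (a (c (l 16769560) (l 16769040)) (l 16770120)) (a (a (l 16769472) (l 16769880)) (a (l 16770280) (l 16770664))))) (b (a (a (l 16770904) (l 16771648)) (a (l 16772344) (l 16772992))) (a (a (a (l 16771040) (l 16771408)) (b (l 16771848) (l 16772024))) (a (l 16772592)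 (l 16773216))))) (a (a (a (b (l 16773600) (l 16773792)) (b (l 16774168) (l 16774328))) (a (b (l 16774688) (l 16774816)) (b (l 16775168) (l 16775264)))) (a (a (b (l 16775600) (l 16775664)) (b (l 16775984) (l 16776016))) (a (l 536668943) (l 536715023)))))) (a (a (a (b (b (l 16800872) (l 542671631)) (a (l 536761103) (l 536830735))) (b (b (l 16779632) (l 549269007)) (a (l 541101839) (l 544833295)))) (a (b (l 555644175) (l 548248079)) (b (l 559253519) (l 554636047)))) (a (a (b (l 562051087) (l 558540047)) (l 563015439)) (l 565061135)))), by decide +kernel⟩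

def k5_A00pp_022_s3 : ∃ t, chk3 f_A00pp_022_s3 t 64 62 1 = true :=
  ⟨(a (b (a (b (b (a (l 16768168) (l 16768608)) (a (l 16768496) (l 16768928))) (a (a (a (l 16768904) (l 16769008)) (l 16769168)) (b (l 16769288) (l 16769680)))) (b (a (c (l 16769392) (l 16768976)) (c (l 16769800) (l 16769400))) (a (b (l 16769704) (l 16770088)) (b (l 16770104) (l 16770480))))) (b (a (a (b (a (l 16769600) (l 16769808)) (l 14)) (a (b (l 16770016) (l 14)) (b (l 16770216) (l 16770680)))) (a (a (b (l 16770416) (l 16770872)) (b (l 16770608) (l 16771064))) (a (b (l 16770800) (l 16771256)) (b (l 16770992) (l 16771440))))) (b (a (l 14) (a (l 14) (a (l 16771744) (l 16771928)))) (l 14)))) (b (b (a (a (l 16770000) (l 16770392)) (a (l 16770776) (l 16771144))) (a (a (b (l 16770496) (l 16770864)) (b (l 16770872) (l 16771240))) (a (b (l 16771248) (l 16771600)) (b (l 16771600) (l 16771952))))) (b (b (a (a (c (l 16771416) (l 16771128))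 (l 16771640)) (a (l 16771992) (l 16772336))) (a (a (a (l 16771624) (l 16771808)) (b (l 16771960) (l 16772192))) (a (b (l 16772312) (l 16772536)) (a (l 16772672) (l 16772840))))) (b (a (a (a (l 16772112) (l 16772288)) (b (l 16772424) (l 16772672))) (a (b (l 16772768) (l 16773008)) (a (l 16773136) (l 16773296)))) (b (a (a (a (l 16772496) (l 16772672)) (a (l 16772840) (l 16773008))) (a (c (l 16773352) (l 16773168)) (l 16773584))) (a (a (a (l 14) (l 16772936)) (a (l 16773104) (l 16773272))) (a (a (l 16773440) (l 16773600)) (a (l 16773760) (l 16773912))))))))), by decide +kernel⟩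

def k6_A00pp_022_s3 : ∃ t, chk3 f_A00pp_022_s3 t 65 62 1 = true :=
  ⟨(b (b (a (a (a (l 16771504) (l 16771856)) (b (l 16772240) (l 16772488))) (a (b (l 16772880) (l 16773112)) (b (l 16773480) (l 16773696)))) (b (a (a (a (l 16771952) (l 16772288)) (a (l 16772616) (l 16772928))) (a (l 16773384) (l 16773952))) (a (a (a (l 16772288) (l 16772624)) (a (l 16772944) (l 16773248))) (a (a (l 16773544) (l 16773832)) (a (l 16774104) (l 16774368)))))) (b (a (b (a (a (l 16772672) (l 16772992)) (a (l 16773304) (l 16773600))) (a (a (a (l 16773000) (l 16773160)) (c (l 16773496) (l 16773288))) (a (c (l 16773800) (l 16773600)) (c (l 16774088) (l 16773896))))) (a (a (b (l 16773888) (c (l 16774360) (l 16774184))) (a (l 536117007) (l 536128271))) (a (b (l 16774440) (l 536396559)) (b (l 16774696) (l 536150799))))) (a (a (a (b (a (l 16773456) (l 16773608)) (b (l 16773896) (c (l 16774216) (l 16774072)))) (b (a (l 16773760) (l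 16773912)) (b (l 16774192) (a (l 16774368) (l 16774512))))) (a (a (b (l 16774064) (l 536515343)) (b (l 16774208) (l 536258063))) (a (b (l 16774352) (l 536000783)) (a (l 536024591) (l 536030223))))) (a (a (a (b (l 16774624) (l 536023311)) (b (l 16774760) (l 536034319))) (a (b (l 16774888) (l 536045583)) (l 536339727))) (a (a (l 536082447) (l 536093455)) (b (l 536390671) (l 536361999))))))), by decide +kernel⟩

def k7_A00pp_022_s3 : ∃ t, chk3 f_A00pp_022_s3 t 33 62 1 = true :=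
  ⟨(a (a (a (a (b (b (l 16773992) (l 536513295)) (b (b (l 16774936) (l 536173583)) (a (l 536127247) (l 536138255)))) (b (b (l 16774256) (l 536267535)) (b (l 536479247) (a (l 536149519) (l 536160783))))) (a (b (b (l 16774512) (l 536290319)) (b (l 536233487) (l 536176143))) (b (b (l 16774752) (l 536313103)) (b (l 536256015) (l 536198671))))) (a (b (b (l 537204239) (b (l 16775384) (l 536864527))) (b (a (l 536278799) (l 536301327)) (a (l 536221455) (l 536243983)))) (b (b (l 536713743) (l 537193743)) (b (a (l 536324111) (l 536346639)) (a (l 536266511) (l 536289295)))))) (a (b (a (b (l 536491535) (l 536434703)) (b (l 536537615) (l 536480783))) (a (b (a (l 536369423) (l 536392207)) (l 536588303)) (b (l 536423439) (l 536365839)))) (b (a (b (l 536583695) (l 536526863)) (l 536870159)) (b (a (l 536469519) (l 536515343)) (l 4))))), by decide +kernel⟩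

def k8_A00pp_022_s3 : ∃ t, chk3 f_A00pp_022_s3 t 16 252 1 = true :=
  ⟨(a (a (a (l 14) (a (b (a (l 14) (a (l 14) (b (l 16773544) (l 14)))) (l 14)) (a (a (b (b (l 16773704) (l 16773984)) (l 14)) (b (b (l 16773864) (l 16774144)) (b (l 16774432) (l 14)))) (a (b (b (l 16774024) (l 16774304)) (b (l 16774584) (a (l 14) (l 16774920)))) (b (b (l 16774176) (l 16774456)) (b (l 16774736) (b (l 16774952) (l 16775104)))))))) (a (a (a (a (b (b (l 16774328) (l 16774600)) (b (l 16774888) (b (l 16775104) (l 16775248)))) (a (b (l 535915023) (l 535886351)) (b (l 535920655) (l 535891983)))) (a (a (b (l 535926031) (l 535897359)) (b (l 535931663) (l 535902991))) (b (b (l 16774768) (l 16775040)) (a (l 535908623) (l 535913999))))) (a (a (b (a (l 535948303) (l 535953935)) (b (l 536196623) (l 536182287))) (b (l 536229391) (a (l 535930639) (l 535936271)))) (b (a (l 536240655) (l 535983375)) (a (l 536211727) (l 535954447))))) (a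 (a (b (a (l 535994383) (l 536005647)) (a (l 535965711) (l 535976975))) (b (a (l 536016911) (l 536027919)) (a (l 535987983) (l 535999247)))) (a (b (a (l 536039183) (l 536050447)) (a (l 536010255) (l 536021519))) (b (l 536333327) (l 536572943)))))) (a (a (a (a (b (l 536087567) (l 536327183)) (b (l 536110095) (l 536081167))) (a (b (l 536132623) (l 536103951)) (l 536409359))) (a (a (l 536163599) (l 536186127)) (l 4))) (l 4))), by decide +kernel⟩

def k9_A00pp_022_s3 : ∃ t, chk3 f_A00pp_022_s3 t 16 253 1 = true :=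
  ⟨(a (a (l 14) (b (a (a (a (a (b (b (l 16775400) (l 16775552)) (l 14)) (a (a (l 535856655) (l 535859471)) (l 536064527))) (a (a (l 535868687) (l 535874319)) (a (l 535879695) (l 535885327)))) (a (a (b (l 536167695) (l 536153359)) (a (l 535901967) (l 535907343))) (a (a (l 535912975) (l 535918351)) (l 536194063)))) (a (a (a (l 535936783) (l 535948047)) (a (l 535959311) (l 535970319))) (a (a (l 535981583) (l 535992591)) (a (l 536003855) (l 536014863))))) (b (a (a (a (l 14) (a (a (l 14) (l 535852559)) (a (l 535857935) (l 535863567)))) (a (a (l 536139023) (l 536150031)) (a (l 535892751) (l 535904015)))) (a (a (a (l 535915279) (l 535926287)) (a (l 535937551) (l 4))) (l 4))) (a (a (l 14) (a (a (l 536392975) (l 536135695)) (a (l 535878415) (l 535889423)))) (l 4))))) (l 4)), by decide +kernel⟩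

def k10_A00pp_022_s3 : ∃ t, chk3 f_A00pp_022_s3 t 16 127 1 = true :=
  ⟨(a (a (l 14) (a (a (l 14) (a (b (b (a (l 14) (b (l 536121103) (l 4))) (l 4)) (l 4)) (l 4))) (l 4))) (l 4)), by decide +kernel⟩

def k11_A00pp_022_s3 : ∃ t, chk3 f_A00pp_022_s3 t 17 31 1 = true :=
  ⟨(b (b (a (a (a (a (l 536647695) (l 536694031)) (l 537294351)) (a (l 540763151) (l 4))) (l 4)) (l 4)) (l 4)), by decide +kernel⟩

def k12_A00pp_022_s3 : ∃ t, chk3 f_A00pp_022_s3 t 9 15 1 = true :=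
  ⟨(a (b (b (a (a (l 569094927) (l 569584143)) (l 569730063)) (l 4)) (l 4)) (l 4)), by decide +kernel⟩

def k13_A00pp_022_s3 : ∃ t, chk3 f_A00pp_022_s3 t 5 3 1 = true :=
  ⟨(b (a (b (a (l 17338528) (l 554605071)) (a (l 558951439) (l 557530895))) (b (l 553430031) (l 555924751))) (a (b (b (l 561669903) (l 4)) (l 4)) (l 4))), by decide +kernel⟩

def k14_A00pp_022_s3 : ∃ t, chk3 f_A00pp_022_s3 t 3 3 1 = true :=
  ⟨(a (b (b (a (l 552142863) (l 4)) (l 4)) (l 4)) (l 4)), by decide +kernel⟩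

theorem t15_A00pp_022_s3 : ∃ t, chk3 f_A00pp_022_s3 t 16 126 1 = true := ex3_b k8_A00pp_022_s3 k9_A00pp_022_s3

theorem t16_A00pp_022_s3 : ∃ t, chk3 f_A00pp_022_s3 t 16 63 1 = true := ex3_b t15_A00pp_022_s3 k10_A00pp_022_s3

theorem t17_A00pp_022_s3 : ∃ t, chk3 f_A00pp_022_s3 t 32 62 1 = true := ex3_a k5_A00pp_022_s3 k6_A00pp_022_s3

theorem t18_A00pp_022_s3 : ∃ t, chk3 f_A00pp_022_s3 t 16 62 1 = true := ex3_a t17_A00pp_022_s3 k7_A00pp_022_s3

theorem t19_A00pp_022_s3 : ∃ t, chk3 f_A00pp_022_s3 t 16 31 1 = true := ex3_b t18_A00pp_022_s3 t16_A00pp_022_s3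

theorem t20_A00pp_022_s3 : ∃ t, chk3 f_A00pp_022_s3 t 8 31 1 = true := ex3_a t19_A00pp_022_s3 k11_A00pp_022_s3

theorem t21_A00pp_022_s3 : ∃ t, chk3 f_A00pp_022_s3 t 8 30 1 = true := ex3_b k3_A00pp_022_s3 k4_A00pp_022_s3

theorem t22_A00pp_022_s3 : ∃ t, chk3 f_A00pp_022_s3 t 8 15 1 = true := ex3_b t21_A00pp_022_s3 t20_A00pp_022_s3

theorem t23_A00pp_022_s3 : ∃ t, chk3 f_A00pp_022_s3 t 4 15 1 = true := ex3_a t22_A00pp_022_s3 k12_A00pp_022_s3

theorem t24_A00pp_022_s3 : ∃ t, chk3 f_A00pp_022_s3 t 4 7 1 = true := ex3_b k2_A00pp_022_s3 t23_A00pp_022_s3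

theorem t25_A00pp_022_s3 : ∃ t, chk3 f_A00pp_022_s3 t 4 3 1 = true := ex3_b k1_A00pp_022_s3 t24_A00pp_022_s3

theorem t26_A00pp_022_s3 : ∃ t, chk3 f_A00pp_022_s3 t 2 3 1 = true := ex3_a t25_A00pp_022_s3 k13_A00pp_022_s3

theorem t27_A00pp_022_s3 : ∃ t, chk3 f_A00pp_022_s3 t 1 3 1 = true := ex3_a t26_A00pp_022_s3 k14_A00pp_022_s3

theorem t28_A00pp_022_s3 : ∃ t, chk3 f_A00pp_022_s3 t 1 1 1 = true := ex3_b k0_A00pp_022_s3 t27_A00pp_022_s3

theorem c_A00pp_022_s3 : CertF 0 536870912 0 536870912 50331648 16777216 true true true .pp 0 2 2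
    ndF0q0 ndF0q2 pcF2 cut_A00pp_022_s3 xt_A00pp_022_s3 :=
  certFK0 (fam := true) (s1 := true) (s2 := true) (a := 0) (b := 2) (c := 2) (cn := .pp) (n1 := ndF0q0) (n2 := ndF0q2) (pc := pcF2) (cut := cut_A00pp_022_s3) (xt := xt_A00pp_022_s3) (P1 := 0) (W1 := 536870912) (P2 := 0) (W2 := 536870912) (P3 := 50331648) (W3 := 16777216)
    rfl rfl rfl t28_A00pp_022_s3

theorem s_A00pp_022_s3 {κ x : ℝ} (hκ : κ * h0 = ken x) (hx : ((50331648 : ℕ) : ℝ) / S ≤ x)
    (hx' : x ≤ (((50331648 : ℕ) : ℝ) + (16777216 : ℕ)) / S)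
    (H : CutA (VF κ) PP tKF tL pcF (Cut.of [[⟨0, 0, 0, 16777216⟩, ⟨1, 1, 0, 16777216⟩, ⟨2, 1, 0, 16777216⟩]]) 0 2 2 0 0 (sgb true) (sgb true) x) :
    AltA (VF κ) PP tKF tL pcF [⟨4, 0, 0, 2845415833⟩] 0 2 2 0 0 (sgb true) (sgb true) x :=
  strip_altA (m := 2845415833) false rfl hκ covF00 covF02 hx hx' c_A00pp_022_s3 H ((okx hx hx').extA (T := tt) (sideF hx hx') hκ rfl rfl (.O 0 true) (.O 2 true) (Or.inl rfl))

noncomputable def cut_A00pp_023_s1 : Cut := Cut.of [[⟨4, 0, 0, 1449551462⟩]]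

noncomputable def f_A00pp_023_s1 : ℕ → ℕ → ℕ → ℕ → Bool := onCell 0 536870912 0 536870912 50331648 16777216
    (rowFK 0 true true true .up 0 2 3 (qsf 0 536870912 0 536870912 3) ndF0q0 ndF0q2 pcF3 cut_A00pp_023_s1 Ext.none)

def k0_A00pp_023_s1 : ∃ t, chk3 f_A00pp_023_s1 t 1 1 1 = true :=
  ⟨(l 6), by decide +kernel⟩

theorem c_A00pp_023_s1 : CertF 0 536870912 0 536870912 50331648 16777216 true true true .up 0 2 3
    ndF0q0 ndF0q2 pcF3 cut_A00pp_023_s1 Ext.none :=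
  certFK0 (fam := true) (s1 := true) (s2 := true) (a := 0) (b := 2) (c := 3) (cn := .up) (n1 := ndF0q0) (n2 := ndF0q2) (pc := pcF3) (cut := cut_A00pp_023_s1) (xt := Ext.none) (P1 := 0) (W1 := 536870912) (P2 := 0) (W2 := 536870912) (P3 := 50331648) (W3 := 16777216)
    rfl rfl rfl k0_A00pp_023_s1

theorem s_A00pp_023_s1 {κ x : ℝ} (hκ : κ * h0 = ken x) (hx : ((50331648 : ℕ) : ℝ) / S ≤ x)
    (hx' : x ≤ (((50331648 : ℕ) : ℝ) + (16777216 : ℕ)) / S) :
    AltA (VF κ) PP tKF tL pcF [⟨3, 0, 0, 1449551462⟩] 0 2 3 0 0 (sgb true) (sgb true) x :=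
  strip_altA (m := 1449551462) true rfl hκ covF00 covF02 hx hx' c_A00pp_023_s1 cutA_nil (noExt_A)

noncomputable def cut_A00pp_023_s3 : Cut := Cut.of [[⟨3, 0, 0, 2845415833⟩]]

noncomputable def xt_A00pp_023_s3 : Ext := strExt dd true true true .u0 .u2 .s2 .up 0 2 3 rfl rfl gl3 vv ndF0q0 ndF0q2

noncomputable def f_A00pp_023_s3 : ℕ → ℕ → ℕ → ℕ → Bool := onCell 1610612736 536870912 0 536870912 50331648 16777216
    (rowFK 2 true true true .up 0 2 3 (qsf 0 536870912 0 536870912 3) ndF0q0 ndF0q2 pcF3 cut_A00pp_023_s3 xt_A00pp_023_s3)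

def k0_A00pp_023_s3 : ∃ t, chk3 f_A00pp_023_s3 t 1 1 1 = true :=
  ⟨(a (b (a (b (a (b (l 17763256) (l 554365199)) (b (l 553678607) (l 554039823))) (a (l 555624207) (b (l 554653455) (l 4)))) (b (a (l 553689103) (l 2)) (l 4))) (l 4)) (l 2)), by decide +kernel⟩

theorem c_A00pp_023_s3 : CertF 0 536870912 0 536870912 50331648 16777216 true true true .up 0 2 3
    ndF0q0 ndF0q2 pcF3 cut_A00pp_023_s3 xt_A00pp_023_s3 :=
  certFK2 (fam := true) (s1 := true) (s2 := true) (a := 0) (b := 2) (c := 3) (cn := .up) (n1 := ndF0q0) (n2 := ndF0q2) (pc := pcF3) (cut := cut_A00pp_023_s3) (xt := xt_A00pp_023_s3) (P1 := 0) (W1 := 536870912) (P2 := 0) (W2 := 536870912) (P3 := 50331648) (W3 := 16777216)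
    rfl rfl rfl (fun _ => rfl) k0_A00pp_023_s3

theorem s_A00pp_023_s3 {κ x : ℝ} (hκ : κ * h0 = ken x) (hx : ((50331648 : ℕ) : ℝ) / S ≤ x)
    (hx' : x ≤ (((50331648 : ℕ) : ℝ) + (16777216 : ℕ)) / S) :
    AltA (VF κ) PP tKF tL pcF [⟨4, 0, 0, 2845415833⟩] 0 2 3 0 0 (sgb true) (sgb true) x :=
  strip_altA (m := 2845415833) false rfl hκ covF00 covF02 hx hx' c_A00pp_023_s3 cutA_nil ((okx hx hx').extA (T := tt) (sideF hx hx') hκ rfl rfl (.O 0 true) (.O 2 true) (Or.inr rfl))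

noncomputable def cut_A00pp_101_s1 : Cut := Cut.of [[⟨4, 0, 0, 1449551462⟩]]

noncomputable def f_A00pp_101_s1 : ℕ → ℕ → ℕ → ℕ → Bool := onCell 536870912 536870912 0 536870912 50331648 16777216
    (rowFK 0 true true true .npn 1 0 1 (qsf 536870912 536870912 0 536870912 1) ndF0q1 ndF0q0 pcF1 cut_A00pp_101_s1 Ext.none)

def k0_A00pp_101_s1 : ∃ t, chk3 f_A00pp_101_s1 t 1 1 1 = true :=
  ⟨(l 6), by decide +kernel⟩

theorem c_A00pp_101_s1 : CertF 536870912 536870912 0 536870912 50331648 16777216 true true true .npn 1 0 1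
    ndF0q1 ndF0q0 pcF1 cut_A00pp_101_s1 Ext.none :=
  certFK0 (fam := true) (s1 := true) (s2 := true) (a := 1) (b := 0) (c := 1) (cn := .npn) (n1 := ndF0q1) (n2 := ndF0q0) (pc := pcF1) (cut := cut_A00pp_101_s1) (xt := Ext.none) (P1 := 536870912) (W1 := 536870912) (P2 := 0) (W2 := 536870912) (P3 := 50331648) (W3 := 16777216)
    rfl rfl rfl k0_A00pp_101_s1

theorem s_A00pp_101_s1 {κ x : ℝ} (hκ : κ * h0 = ken x) (hx : ((50331648 : ℕ) : ℝ) / S ≤ x)
    (hx' : x ≤ (((50331648 : ℕ) : ℝ) + (16777216 : ℕ)) / S) :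
    AltA (VF κ) PP tKF tL pcF [⟨3, 0, 0, 1449551462⟩] 1 0 1 0 0 (sgb true) (sgb true) x :=
  strip_altA (m := 1449551462) true rfl hκ covF01 covF00 hx hx' c_A00pp_101_s1 cutA_nil (noExt_A)

noncomputable def cut_A00pp_101_s3 : Cut := Cut.of [[⟨3, 0, 0, 2845415833⟩]]

noncomputable def f_A00pp_101_s3 : ℕ → ℕ → ℕ → ℕ → Bool := onCell 536870912 536870912 0 536870912 50331648 16777216
    (rowFK 0 true true true .npn 1 0 1 (qsf 536870912 536870912 0 536870912 1) ndF0q1 ndF0q0 pcF1 cut_A00pp_101_s3 Ext.none)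

def k0_A00pp_101_s3 : ∃ t, chk3 f_A00pp_101_s3 t 1 1 1 = true :=
  ⟨(a (l 4) (l 5)), by decide +kernel⟩

theorem c_A00pp_101_s3 : CertF 536870912 536870912 0 536870912 50331648 16777216 true true true .npn 1 0 1
    ndF0q1 ndF0q0 pcF1 cut_A00pp_101_s3 Ext.none :=
  certFK0 (fam := true) (s1 := true) (s2 := true) (a := 1) (b := 0) (c := 1) (cn := .npn) (n1 := ndF0q1) (n2 := ndF0q0) (pc := pcF1) (cut := cut_A00pp_101_s3) (xt := Ext.none) (P1 := 536870912) (W1 := 536870912) (P2 := 0) (W2 := 536870912) (P3 := 50331648) (W3 := 16777216)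
    rfl rfl rfl k0_A00pp_101_s3

theorem s_A00pp_101_s3 {κ x : ℝ} (hκ : κ * h0 = ken x) (hx : ((50331648 : ℕ) : ℝ) / S ≤ x)
    (hx' : x ≤ (((50331648 : ℕ) : ℝ) + (16777216 : ℕ)) / S) :
    AltA (VF κ) PP tKF tL pcF [⟨4, 0, 0, 2845415833⟩] 1 0 1 0 0 (sgb true) (sgb true) x :=
  strip_altA (m := 2845415833) false rfl hκ covF01 covF00 hx hx' c_A00pp_101_s3 cutA_nil (noExt_A)

noncomputable def cut_A00pp_102_s1 : Cut := Cut.of [[⟨4, 0, 0, 1449551462⟩]]

noncomputable def f_A00pp_102_s1 : ℕ → ℕ → ℕ → ℕ → Bool := onCell 536870912 536870912 0 536870912 50331648 16777216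
    (rowFK 0 true true true .npp 1 0 2 (qsf 536870912 536870912 0 536870912 2) ndF0q1 ndF0q0 pcF2 cut_A00pp_102_s1 Ext.none)

def k0_A00pp_102_s1 : ∃ t, chk3 f_A00pp_102_s1 t 1 1 1 = true :=
  ⟨(l 6), by decide +kernel⟩

theorem c_A00pp_102_s1 : CertF 536870912 536870912 0 536870912 50331648 16777216 true true true .npp 1 0 2
    ndF0q1 ndF0q0 pcF2 cut_A00pp_102_s1 Ext.none :=
  certFK0 (fam := true) (s1 := true) (s2 := true) (a := 1) (b := 0) (c := 2) (cn := .npp) (n1 := ndF0q1) (n2 := ndF0q0) (pc := pcF2) (cut := cut_A00pp_102_s1) (xt := Ext.none) (P1 := 536870912) (W1 := 536870912) (P2 := 0) (W2 := 536870912) (P3 := 50331648) (W3 := 16777216)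
    rfl rfl rfl k0_A00pp_102_s1

theorem s_A00pp_102_s1 {κ x : ℝ} (hκ : κ * h0 = ken x) (hx : ((50331648 : ℕ) : ℝ) / S ≤ x)
    (hx' : x ≤ (((50331648 : ℕ) : ℝ) + (16777216 : ℕ)) / S) :
    AltA (VF κ) PP tKF tL pcF [⟨3, 0, 0, 1449551462⟩] 1 0 2 0 0 (sgb true) (sgb true) x :=
  strip_altA (m := 1449551462) true rfl hκ covF01 covF00 hx hx' c_A00pp_102_s1 cutA_nil (noExt_A)

noncomputable def cut_A00pp_102_s3 : Cut := Cut.of [[⟨3, 0, 0, 2845415833⟩]]

noncomputable def f_A00pp_102_s3 : ℕ → ℕ → ℕ → ℕ → Bool := onCell 536870912 536870912 0 536870912 50331648 16777216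
    (rowFK 0 true true true .npp 1 0 2 (qsf 536870912 536870912 0 536870912 2) ndF0q1 ndF0q0 pcF2 cut_A00pp_102_s3 Ext.none)

def k0_A00pp_102_s3 : ∃ t, chk3 f_A00pp_102_s3 t 1 1 1 = true :=
  ⟨(b (l 5) (l 4)), by decide +kernel⟩

theorem c_A00pp_102_s3 : CertF 536870912 536870912 0 536870912 50331648 16777216 true true true .npp 1 0 2
    ndF0q1 ndF0q0 pcF2 cut_A00pp_102_s3 Ext.none :=
  certFK0 (fam := true) (s1 := true) (s2 := true) (a := 1) (b := 0) (c := 2) (cn := .npp) (n1 := ndF0q1) (n2 := ndF0q0) (pc := pcF2) (cut := cut_A00pp_102_s3) (xt := Ext.none) (P1 := 536870912) (W1 := 536870912) (P2 := 0) (W2 := 536870912) (P3 := 50331648) (W3 := 16777216)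
    rfl rfl rfl k0_A00pp_102_s3

theorem s_A00pp_102_s3 {κ x : ℝ} (hκ : κ * h0 = ken x) (hx : ((50331648 : ℕ) : ℝ) / S ≤ x)
    (hx' : x ≤ (((50331648 : ℕ) : ℝ) + (16777216 : ℕ)) / S) :
    AltA (VF κ) PP tKF tL pcF [⟨4, 0, 0, 2845415833⟩] 1 0 2 0 0 (sgb true) (sgb true) x :=
  strip_altA (m := 2845415833) false rfl hκ covF01 covF00 hx hx' c_A00pp_102_s3 cutA_nil (noExt_A)

noncomputable def cut_A00pp_112_s1 : Cut := Cut.of [[⟨4, 0, 0, 1449551462⟩]]

noncomputable def f_A00pp_112_s1 : ℕ → ℕ → ℕ → ℕ → Bool := onCell 536870912 536870912 536870912 536870912 50331648 16777216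
    (rowFK 0 true true true .dn 1 1 2 (qsf 536870912 536870912 536870912 536870912 2) ndF0q1 ndF0q1 pcF2 cut_A00pp_112_s1 Ext.none)

def k0_A00pp_112_s1 : ∃ t, chk3 f_A00pp_112_s1 t 1 1 1 = true :=
  ⟨(l 4), by decide +kernel⟩

theorem c_A00pp_112_s1 : CertF 536870912 536870912 536870912 536870912 50331648 16777216 true true true .dn 1 1 2
    ndF0q1 ndF0q1 pcF2 cut_A00pp_112_s1 Ext.none :=
  certFK0 (fam := true) (s1 := true) (s2 := true) (a := 1) (b := 1) (c := 2) (cn := .dn) (n1 := ndF0q1) (n2 := ndF0q1) (pc := pcF2) (cut := cut_A00pp_112_s1) (xt := Ext.none) (P1 := 536870912) (W1 := 536870912) (P2 := 536870912) (W2 := 536870912) (P3 := 50331648) (W3 := 16777216)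
    rfl rfl rfl k0_A00pp_112_s1

theorem s_A00pp_112_s1 {κ x : ℝ} (hκ : κ * h0 = ken x) (hx : ((50331648 : ℕ) : ℝ) / S ≤ x)
    (hx' : x ≤ (((50331648 : ℕ) : ℝ) + (16777216 : ℕ)) / S) :
    AltA (VF κ) PP tKF tL pcF [⟨3, 0, 0, 1449551462⟩] 1 1 2 0 0 (sgb true) (sgb true) x :=
  strip_altA (m := 1449551462) true rfl hκ covF01 covF01 hx hx' c_A00pp_112_s1 cutA_nil (noExt_A)

noncomputable def cut_A00pp_112_s3 : Cut := Cut.of [[⟨3, 0, 0, 2845415833⟩]]

noncomputable def f_A00pp_112_s3 : ℕ → ℕ → ℕ → ℕ → Bool := onCell 536870912 536870912 536870912 536870912 50331648 16777216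
    (rowFK 0 true true true .dn 1 1 2 (qsf 536870912 536870912 536870912 536870912 2) ndF0q1 ndF0q1 pcF2 cut_A00pp_112_s3 Ext.none)

def k0_A00pp_112_s3 : ∃ t, chk3 f_A00pp_112_s3 t 1 1 1 = true :=
  ⟨(l 4), by decide +kernel⟩

theorem c_A00pp_112_s3 : CertF 536870912 536870912 536870912 536870912 50331648 16777216 true true true .dn 1 1 2
    ndF0q1 ndF0q1 pcF2 cut_A00pp_112_s3 Ext.none :=
  certFK0 (fam := true) (s1 := true) (s2 := true) (a := 1) (b := 1) (c := 2) (cn := .dn) (n1 := ndF0q1) (n2 := ndF0q1) (pc := pcF2) (cut := cut_A00pp_112_s3) (xt := Ext.none) (P1 := 536870912) (W1 := 536870912) (P2 := 536870912) (W2 := 536870912) (P3 := 50331648) (W3 := 16777216)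
    rfl rfl rfl k0_A00pp_112_s3

theorem s_A00pp_112_s3 {κ x : ℝ} (hκ : κ * h0 = ken x) (hx : ((50331648 : ℕ) : ℝ) / S ≤ x)
    (hx' : x ≤ (((50331648 : ℕ) : ℝ) + (16777216 : ℕ)) / S) :
    AltA (VF κ) PP tKF tL pcF [⟨4, 0, 0, 2845415833⟩] 1 1 2 0 0 (sgb true) (sgb true) x :=
  strip_altA (m := 2845415833) false rfl hκ covF01 covF01 hx hx' c_A00pp_112_s3 cutA_nil (noExt_A)

noncomputable def cut_A00pp_113_s1 : Cut := Cut.of [[⟨4, 0, 0, 1449551462⟩]]

noncomputable def f_A00pp_113_s1 : ℕ → ℕ → ℕ → ℕ → Bool := onCell 536870912 536870912 536870912 536870912 50331648 16777216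
    (rowFK 0 true true true .nn 1 1 3 (qsf 536870912 536870912 536870912 536870912 3) ndF0q1 ndF0q1 pcF3 cut_A00pp_113_s1 Ext.none)

def k0_A00pp_113_s1 : ∃ t, chk3 f_A00pp_113_s1 t 1 1 1 = true :=
  ⟨(l 4), by decide +kernel⟩

theorem c_A00pp_113_s1 : CertF 536870912 536870912 536870912 536870912 50331648 16777216 true true true .nn 1 1 3
    ndF0q1 ndF0q1 pcF3 cut_A00pp_113_s1 Ext.none :=
  certFK0 (fam := true) (s1 := true) (s2 := true) (a := 1) (b := 1) (c := 3) (cn := .nn) (n1 := ndF0q1) (n2 := ndF0q1) (pc := pcF3) (cut := cut_A00pp_113_s1) (xt := Ext.none) (P1 := 536870912) (W1 := 536870912) (P2 := 536870912) (W2 := 536870912) (P3 := 50331648) (W3 := 16777216)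
    rfl rfl rfl k0_A00pp_113_s1

theorem s_A00pp_113_s1 {κ x : ℝ} (hκ : κ * h0 = ken x) (hx : ((50331648 : ℕ) : ℝ) / S ≤ x)
    (hx' : x ≤ (((50331648 : ℕ) : ℝ) + (16777216 : ℕ)) / S) :
    AltA (VF κ) PP tKF tL pcF [⟨3, 0, 0, 1449551462⟩] 1 1 3 0 0 (sgb true) (sgb true) x :=
  strip_altA (m := 1449551462) true rfl hκ covF01 covF01 hx hx' c_A00pp_113_s1 cutA_nil (noExt_A)

noncomputable def cut_A00pp_113_s3 : Cut := Cut.of [[⟨3, 0, 0, 2845415833⟩]]

noncomputable def f_A00pp_113_s3 : ℕ → ℕ → ℕ → ℕ → Bool := onCell 536870912 536870912 536870912 536870912 50331648 16777216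
    (rowFK 0 true true true .nn 1 1 3 (qsf 536870912 536870912 536870912 536870912 3) ndF0q1 ndF0q1 pcF3 cut_A00pp_113_s3 Ext.none)

def k0_A00pp_113_s3 : ∃ t, chk3 f_A00pp_113_s3 t 1 1 1 = true :=
  ⟨(l 4), by decide +kernel⟩

theorem c_A00pp_113_s3 : CertF 536870912 536870912 536870912 536870912 50331648 16777216 true true true .nn 1 1 3
    ndF0q1 ndF0q1 pcF3 cut_A00pp_113_s3 Ext.none :=
  certFK0 (fam := true) (s1 := true) (s2 := true) (a := 1) (b := 1) (c := 3) (cn := .nn) (n1 := ndF0q1) (n2 := ndF0q1) (pc := pcF3) (cut := cut_A00pp_113_s3) (xt := Ext.none) (P1 := 536870912) (W1 := 536870912) (P2 := 536870912) (W2 := 536870912) (P3 := 50331648) (W3 := 16777216)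
    rfl rfl rfl k0_A00pp_113_s3

theorem s_A00pp_113_s3 {κ x : ℝ} (hκ : κ * h0 = ken x) (hx : ((50331648 : ℕ) : ℝ) / S ≤ x)
    (hx' : x ≤ (((50331648 : ℕ) : ℝ) + (16777216 : ℕ)) / S) :
    AltA (VF κ) PP tKF tL pcF [⟨4, 0, 0, 2845415833⟩] 1 1 3 0 0 (sgb true) (sgb true) x :=
  strip_altA (m := 2845415833) false rfl hκ covF01 covF01 hx hx' c_A00pp_113_s3 cutA_nil (noExt_A)

noncomputable def cut_A00pp_123_s1 : Cut := Cut.of [[⟨4, 0, 0, 1449551462⟩]]

noncomputable def f_A00pp_123_s1 : ℕ → ℕ → ℕ → ℕ → Bool := onCell 536870912 536870912 0 536870912 50331648 16777216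
    (rowFK 0 true true true .npn 1 2 3 (qsf 536870912 536870912 0 536870912 3) ndF0q1 ndF0q2 pcF3 cut_A00pp_123_s1 Ext.none)

def k0_A00pp_123_s1 : ∃ t, chk3 f_A00pp_123_s1 t 1 1 1 = true :=
  ⟨(l 6), by decide +kernel⟩

theorem c_A00pp_123_s1 : CertF 536870912 536870912 0 536870912 50331648 16777216 true true true .npn 1 2 3
    ndF0q1 ndF0q2 pcF3 cut_A00pp_123_s1 Ext.none :=
  certFK0 (fam := true) (s1 := true) (s2 := true) (a := 1) (b := 2) (c := 3) (cn := .npn) (n1 := ndF0q1) (n2 := ndF0q2) (pc := pcF3) (cut := cut_A00pp_123_s1) (xt := Ext.none) (P1 := 536870912) (W1 := 536870912) (P2 := 0) (W2 := 536870912) (P3 := 50331648) (W3 := 16777216)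
    rfl rfl rfl k0_A00pp_123_s1

theorem s_A00pp_123_s1 {κ x : ℝ} (hκ : κ * h0 = ken x) (hx : ((50331648 : ℕ) : ℝ) / S ≤ x)
    (hx' : x ≤ (((50331648 : ℕ) : ℝ) + (16777216 : ℕ)) / S) :
    AltA (VF κ) PP tKF tL pcF [⟨3, 0, 0, 1449551462⟩] 1 2 3 0 0 (sgb true) (sgb true) x :=
  strip_altA (m := 1449551462) true rfl hκ covF01 covF02 hx hx' c_A00pp_123_s1 cutA_nil (noExt_A)

noncomputable def cut_A00pp_123_s3 : Cut := Cut.of [[⟨3, 0, 0, 2845415833⟩]]

noncomputable def xt_A00pp_123_s3 : Ext := strExt dd true true true .u0 .u2 .s2 .npn 1 2 3 rfl rfl gl3 vv ndF0q1 ndF0q2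

noncomputable def f_A00pp_123_s3 : ℕ → ℕ → ℕ → ℕ → Bool := onCell 536870912 536870912 0 536870912 50331648 16777216
    (rowFK 0 true true true .npn 1 2 3 (qsf 536870912 536870912 0 536870912 3) ndF0q1 ndF0q2 pcF3 cut_A00pp_123_s3 xt_A00pp_123_s3)

def k0_A00pp_123_s3 : ∃ t, chk3 f_A00pp_123_s3 t 1 1 1 = true :=
  ⟨(a (b (a (b (a (l 552766479) (l 551590671)) (l 4)) (l 4)) (l 4)) (l 4)), by decide +kernel⟩

theorem c_A00pp_123_s3 : CertF 536870912 536870912 0 536870912 50331648 16777216 true true true .npn 1 2 3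
    ndF0q1 ndF0q2 pcF3 cut_A00pp_123_s3 xt_A00pp_123_s3 :=
  certFK0 (fam := true) (s1 := true) (s2 := true) (a := 1) (b := 2) (c := 3) (cn := .npn) (n1 := ndF0q1) (n2 := ndF0q2) (pc := pcF3) (cut := cut_A00pp_123_s3) (xt := xt_A00pp_123_s3) (P1 := 536870912) (W1 := 536870912) (P2 := 0) (W2 := 536870912) (P3 := 50331648) (W3 := 16777216)
    rfl rfl rfl k0_A00pp_123_s3

theorem s_A00pp_123_s3 {κ x : ℝ} (hκ : κ * h0 = ken x) (hx : ((50331648 : ℕ) : ℝ) / S ≤ x)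
    (hx' : x ≤ (((50331648 : ℕ) : ℝ) + (16777216 : ℕ)) / S) :
    AltA (VF κ) PP tKF tL pcF [⟨4, 0, 0, 2845415833⟩] 1 2 3 0 0 (sgb true) (sgb true) x :=
  strip_altA (m := 2845415833) false rfl hκ covF01 covF02 hx hx' c_A00pp_123_s3 cutA_nil ((okx hx hx').extA (T := tt) (sideF hx hx') hκ rfl rfl (.O 1 true) (.O 2 true) (Or.inr rfl))

noncomputable def cut_A00pp_202_s1 : Cut := Cut.of [[⟨4, 0, 0, 1449551462⟩]]

noncomputable def f_A00pp_202_s1 : ℕ → ℕ → ℕ → ℕ → Bool := onCell 0 536870912 0 536870912 50331648 16777216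
    (rowFK 0 true true true .pp 2 0 2 (qsf 0 536870912 0 536870912 2) ndF0q2 ndF0q0 pcF2 cut_A00pp_202_s1 Ext.none)

def k0_A00pp_202_s1 : ∃ t, chk3 f_A00pp_202_s1 t 1 1 1 = true :=
  ⟨(l 5), by decide +kernel⟩

theorem c_A00pp_202_s1 : CertF 0 536870912 0 536870912 50331648 16777216 true true true .pp 2 0 2
    ndF0q2 ndF0q0 pcF2 cut_A00pp_202_s1 Ext.none :=
  certFK0 (fam := true) (s1 := true) (s2 := true) (a := 2) (b := 0) (c := 2) (cn := .pp) (n1 := ndF0q2) (n2 := ndF0q0) (pc := pcF2) (cut := cut_A00pp_202_s1) (xt := Ext.none) (P1 := 0) (W1 := 536870912) (P2 := 0) (W2 := 536870912) (P3 := 50331648) (W3 := 16777216)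
    rfl rfl rfl k0_A00pp_202_s1

theorem s_A00pp_202_s1 {κ x : ℝ} (hκ : κ * h0 = ken x) (hx : ((50331648 : ℕ) : ℝ) / S ≤ x)
    (hx' : x ≤ (((50331648 : ℕ) : ℝ) + (16777216 : ℕ)) / S) :
    AltA (VF κ) PP tKF tL pcF [⟨3, 0, 0, 1449551462⟩] 2 0 2 0 0 (sgb true) (sgb true) x :=
  strip_altA (m := 1449551462) true rfl hκ covF02 covF00 hx hx' c_A00pp_202_s1 cutA_nil (noExt_A)

noncomputable def cut_A00pp_202_s3 : Cut := Cut.of [[⟨3, 0, 0, 2845415833⟩]]

noncomputable def f_A00pp_202_s3 : ℕ → ℕ → ℕ → ℕ → Bool := onCell 0 536870912 0 536870912 50331648 16777216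
    (rowFK 0 true true true .pp 2 0 2 (qsf 0 536870912 0 536870912 2) ndF0q2 ndF0q0 pcF2 cut_A00pp_202_s3 Ext.none)

def k0_A00pp_202_s3 : ∃ t, chk3 f_A00pp_202_s3 t 1 1 1 = true :=
  ⟨(l 5), by decide +kernel⟩

theorem c_A00pp_202_s3 : CertF 0 536870912 0 536870912 50331648 16777216 true true true .pp 2 0 2
    ndF0q2 ndF0q0 pcF2 cut_A00pp_202_s3 Ext.none :=
  certFK0 (fam := true) (s1 := true) (s2 := true) (a := 2) (b := 0) (c := 2) (cn := .pp) (n1 := ndF0q2) (n2 := ndF0q0) (pc := pcF2) (cut := cut_A00pp_202_s3) (xt := Ext.none) (P1 := 0) (W1 := 536870912) (P2 := 0) (W2 := 536870912) (P3 := 50331648) (W3 := 16777216)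
    rfl rfl rfl k0_A00pp_202_s3

theorem s_A00pp_202_s3 {κ x : ℝ} (hκ : κ * h0 = ken x) (hx : ((50331648 : ℕ) : ℝ) / S ≤ x)
    (hx' : x ≤ (((50331648 : ℕ) : ℝ) + (16777216 : ℕ)) / S) :
    AltA (VF κ) PP tKF tL pcF [⟨4, 0, 0, 2845415833⟩] 2 0 2 0 0 (sgb true) (sgb true) x :=
  strip_altA (m := 2845415833) false rfl hκ covF02 covF00 hx hx' c_A00pp_202_s3 cutA_nil (noExt_A)

noncomputable def cut_A00pp_203_s1 : Cut := Cut.of [[⟨4, 0, 0, 1449551462⟩]]

noncomputable def f_A00pp_203_s1 : ℕ → ℕ → ℕ → ℕ → Bool := onCell 0 536870912 0 536870912 50331648 16777216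
    (rowFK 0 true true true .up 2 0 3 (qsf 0 536870912 0 536870912 3) ndF0q2 ndF0q0 pcF3 cut_A00pp_203_s1 Ext.none)

def k0_A00pp_203_s1 : ∃ t, chk3 f_A00pp_203_s1 t 1 1 1 = true :=
  ⟨(l 5), by decide +kernel⟩

theorem c_A00pp_203_s1 : CertF 0 536870912 0 536870912 50331648 16777216 true true true .up 2 0 3
    ndF0q2 ndF0q0 pcF3 cut_A00pp_203_s1 Ext.none :=
  certFK0 (fam := true) (s1 := true) (s2 := true) (a := 2) (b := 0) (c := 3) (cn := .up) (n1 := ndF0q2) (n2 := ndF0q0) (pc := pcF3) (cut := cut_A00pp_203_s1) (xt := Ext.none) (P1 := 0) (W1 := 536870912) (P2 := 0) (W2 := 536870912) (P3 := 50331648) (W3 := 16777216)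
    rfl rfl rfl k0_A00pp_203_s1

theorem s_A00pp_203_s1 {κ x : ℝ} (hκ : κ * h0 = ken x) (hx : ((50331648 : ℕ) : ℝ) / S ≤ x)
    (hx' : x ≤ (((50331648 : ℕ) : ℝ) + (16777216 : ℕ)) / S) :
    AltA (VF κ) PP tKF tL pcF [⟨3, 0, 0, 1449551462⟩] 2 0 3 0 0 (sgb true) (sgb true) x :=
  strip_altA (m := 1449551462) true rfl hκ covF02 covF00 hx hx' c_A00pp_203_s1 cutA_nil (noExt_A)

noncomputable def cut_A00pp_203_s3 : Cut := Cut.of [[⟨3, 0, 0, 2845415833⟩]]

noncomputable def f_A00pp_203_s3 : ℕ → ℕ → ℕ → ℕ → Bool := onCell 0 536870912 0 536870912 50331648 16777216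
    (rowFK 0 true true true .up 2 0 3 (qsf 0 536870912 0 536870912 3) ndF0q2 ndF0q0 pcF3 cut_A00pp_203_s3 Ext.none)

def k0_A00pp_203_s3 : ∃ t, chk3 f_A00pp_203_s3 t 1 1 1 = true :=
  ⟨(l 5), by decide +kernel⟩

theorem c_A00pp_203_s3 : CertF 0 536870912 0 536870912 50331648 16777216 true true true .up 2 0 3
    ndF0q2 ndF0q0 pcF3 cut_A00pp_203_s3 Ext.none :=
  certFK0 (fam := true) (s1 := true) (s2 := true) (a := 2) (b := 0) (c := 3) (cn := .up) (n1 := ndF0q2) (n2 := ndF0q0) (pc := pcF3) (cut := cut_A00pp_203_s3) (xt := Ext.none) (P1 := 0) (W1 := 536870912) (P2 := 0) (W2 := 536870912) (P3 := 50331648) (W3 := 16777216)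
    rfl rfl rfl k0_A00pp_203_s3

theorem s_A00pp_203_s3 {κ x : ℝ} (hκ : κ * h0 = ken x) (hx : ((50331648 : ℕ) : ℝ) / S ≤ x)
    (hx' : x ≤ (((50331648 : ℕ) : ℝ) + (16777216 : ℕ)) / S) :
    AltA (VF κ) PP tKF tL pcF [⟨4, 0, 0, 2845415833⟩] 2 0 3 0 0 (sgb true) (sgb true) x :=
  strip_altA (m := 2845415833) false rfl hκ covF02 covF00 hx hx' c_A00pp_203_s3 cutA_nil (noExt_A)

noncomputable def cut_A00pp_213_s1 : Cut := Cut.of [[⟨4, 0, 0, 1449551462⟩]]

noncomputable def f_A00pp_213_s1 : ℕ → ℕ → ℕ → ℕ → Bool := onCell 0 536870912 536870912 536870912 50331648 16777216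
    (rowFK 0 true true true .pnn 2 1 3 (qsf 0 536870912 536870912 536870912 3) ndF0q2 ndF0q1 pcF3 cut_A00pp_213_s1 Ext.none)

def k0_A00pp_213_s1 : ∃ t, chk3 f_A00pp_213_s1 t 1 1 1 = true :=
  ⟨(l 6), by decide +kernel⟩

theorem c_A00pp_213_s1 : CertF 0 536870912 536870912 536870912 50331648 16777216 true true true .pnn 2 1 3
    ndF0q2 ndF0q1 pcF3 cut_A00pp_213_s1 Ext.none :=
  certFK0 (fam := true) (s1 := true) (s2 := true) (a := 2) (b := 1) (c := 3) (cn := .pnn) (n1 := ndF0q2) (n2 := ndF0q1) (pc := pcF3) (cut := cut_A00pp_213_s1) (xt := Ext.none) (P1 := 0) (W1 := 536870912) (P2 := 536870912) (W2 := 536870912) (P3 := 50331648) (W3 := 16777216)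
    rfl rfl rfl k0_A00pp_213_s1

theorem s_A00pp_213_s1 {κ x : ℝ} (hκ : κ * h0 = ken x) (hx : ((50331648 : ℕ) : ℝ) / S ≤ x)
    (hx' : x ≤ (((50331648 : ℕ) : ℝ) + (16777216 : ℕ)) / S) :
    AltA (VF κ) PP tKF tL pcF [⟨3, 0, 0, 1449551462⟩] 2 1 3 0 0 (sgb true) (sgb true) x :=
  strip_altA (m := 1449551462) true rfl hκ covF02 covF01 hx hx' c_A00pp_213_s1 cutA_nil (noExt_A)

noncomputable def cut_A00pp_213_s3 : Cut := Cut.of [[⟨3, 0, 0, 2845415833⟩]]

noncomputable def f_A00pp_213_s3 : ℕ → ℕ → ℕ → ℕ → Bool := onCell 0 536870912 536870912 536870912 50331648 16777216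
    (rowFK 0 true true true .pnn 2 1 3 (qsf 0 536870912 536870912 536870912 3) ndF0q2 ndF0q1 pcF3 cut_A00pp_213_s3 Ext.none)

def k0_A00pp_213_s3 : ∃ t, chk3 f_A00pp_213_s3 t 1 1 1 = true :=
  ⟨(a (l 5) (l 4)), by decide +kernel⟩

theorem c_A00pp_213_s3 : CertF 0 536870912 536870912 536870912 50331648 16777216 true true true .pnn 2 1 3
    ndF0q2 ndF0q1 pcF3 cut_A00pp_213_s3 Ext.none :=
  certFK0 (fam := true) (s1 := true) (s2 := true) (a := 2) (b := 1) (c := 3) (cn := .pnn) (n1 := ndF0q2) (n2 := ndF0q1) (pc := pcF3) (cut := cut_A00pp_213_s3) (xt := Ext.none) (P1 := 0) (W1 := 536870912) (P2 := 536870912) (W2 := 536870912) (P3 := 50331648) (W3 := 16777216)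
    rfl rfl rfl k0_A00pp_213_s3

theorem s_A00pp_213_s3 {κ x : ℝ} (hκ : κ * h0 = ken x) (hx : ((50331648 : ℕ) : ℝ) / S ≤ x)
    (hx' : x ≤ (((50331648 : ℕ) : ℝ) + (16777216 : ℕ)) / S) :
    AltA (VF κ) PP tKF tL pcF [⟨4, 0, 0, 2845415833⟩] 2 1 3 0 0 (sgb true) (sgb true) x :=
  strip_altA (m := 2845415833) false rfl hκ covF02 covF01 hx hx' c_A00pp_213_s3 cutA_nil (noExt_A)

noncomputable def cut_A00pm_001_s1 : Cut := Cut.of [[⟨4, 0, 0, 1449551462⟩]]

noncomputable def f_A00pm_001_s1 : ℕ → ℕ → ℕ → ℕ → Bool := onCell 0 536870912 0 536870912 50331648 16777216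
    (rowFK 0 true true false .up 0 0 1 (qsf 0 536870912 0 536870912 1) ndF0q0 ndF0q0 pcF1 cut_A00pm_001_s1 Ext.none)

def k0_A00pm_001_s1 : ∃ t, chk3 f_A00pm_001_s1 t 1 1 1 = true :=
  ⟨(l 3), by decide +kernel⟩

theorem c_A00pm_001_s1 : CertF 0 536870912 0 536870912 50331648 16777216 true true false .up 0 0 1
    ndF0q0 ndF0q0 pcF1 cut_A00pm_001_s1 Ext.none :=
  certFK0 (fam := true) (s1 := true) (s2 := false) (a := 0) (b := 0) (c := 1) (cn := .up) (n1 := ndF0q0) (n2 := ndF0q0) (pc := pcF1) (cut := cut_A00pm_001_s1) (xt := Ext.none) (P1 := 0) (W1 := 536870912) (P2 := 0) (W2 := 536870912) (P3 := 50331648) (W3 := 16777216)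
    rfl rfl rfl k0_A00pm_001_s1

theorem s_A00pm_001_s1 {κ x : ℝ} (hκ : κ * h0 = ken x) (hx : ((50331648 : ℕ) : ℝ) / S ≤ x)
    (hx' : x ≤ (((50331648 : ℕ) : ℝ) + (16777216 : ℕ)) / S) :
    AltA (VF κ) PP tKF tL pcF [⟨3, 0, 0, 1449551462⟩] 0 0 1 0 0 (sgb true) (sgb false) x :=
  strip_altA (m := 1449551462) true rfl hκ covF00 covF00 hx hx' c_A00pm_001_s1 cutA_nil (noExt_A)

noncomputable def cut_A00pm_001_s3 : Cut := Cut.of [[⟨3, 0, 0, 2845415833⟩]]

noncomputable def f_A00pm_001_s3 : ℕ → ℕ → ℕ → ℕ → Bool := onCell 0 536870912 0 536870912 50331648 16777216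
    (rowFK 0 true true false .up 0 0 1 (qsf 0 536870912 0 536870912 1) ndF0q0 ndF0q0 pcF1 cut_A00pm_001_s3 Ext.none)

def k0_A00pm_001_s3 : ∃ t, chk3 f_A00pm_001_s3 t 1 1 1 = true :=
  ⟨(l 3), by decide +kernel⟩

theorem c_A00pm_001_s3 : CertF 0 536870912 0 536870912 50331648 16777216 true true false .up 0 0 1
    ndF0q0 ndF0q0 pcF1 cut_A00pm_001_s3 Ext.none :=
  certFK0 (fam := true) (s1 := true) (s2 := false) (a := 0) (b := 0) (c := 1) (cn := .up) (n1 := ndF0q0) (n2 := ndF0q0) (pc := pcF1) (cut := cut_A00pm_001_s3) (xt := Ext.none) (P1 := 0) (W1 := 536870912) (P2 := 0) (W2 := 536870912) (P3 := 50331648) (W3 := 16777216)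
    rfl rfl rfl k0_A00pm_001_s3

theorem s_A00pm_001_s3 {κ x : ℝ} (hκ : κ * h0 = ken x) (hx : ((50331648 : ℕ) : ℝ) / S ≤ x)
    (hx' : x ≤ (((50331648 : ℕ) : ℝ) + (16777216 : ℕ)) / S) :
    AltA (VF κ) PP tKF tL pcF [⟨4, 0, 0, 2845415833⟩] 0 0 1 0 0 (sgb true) (sgb false) x :=
  strip_altA (m := 2845415833) false rfl hκ covF00 covF00 hx hx' c_A00pm_001_s3 cutA_nil (noExt_A)

noncomputable def cut_A00pm_011_s1 : Cut := Cut.of [[⟨4, 0, 0, 1449551462⟩], [⟨0, 0, 0, 50331648⟩, ⟨1, 1, 0, 50331648⟩, ⟨2, 1, 0, 50331648⟩]]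

noncomputable def f_A00pm_011_s1 : ℕ → ℕ → ℕ → ℕ → Bool := onCell 536870912 536870912 536870912 536870912 50331648 16777216
    (rowFK 2 true true false .pnn 0 1 1 (qsf 0 536870912 536870912 536870912 1) ndF0q0 ndF0q1 pcF1 cut_A00pm_011_s1 Ext.none)

def k0_A00pm_011_s1 : ∃ t, chk3 f_A00pm_011_s1 t 1 1 1 = true :=
  ⟨(a (l 3) (b (l 3) (a (l 3) (b (l 3) (a (l 3) (b (l 3) (a (l 3) (b (l 3) (l 14))))))))), by decide +kernel⟩

theorem c_A00pm_011_s1 : CertF 0 536870912 536870912 536870912 50331648 16777216 true true false .pnn 0 1 1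
    ndF0q0 ndF0q1 pcF1 cut_A00pm_011_s1 Ext.none :=
  certFK2 (fam := true) (s1 := true) (s2 := false) (a := 0) (b := 1) (c := 1) (cn := .pnn) (n1 := ndF0q0) (n2 := ndF0q1) (pc := pcF1) (cut := cut_A00pm_011_s1) (xt := Ext.none) (P1 := 0) (W1 := 536870912) (P2 := 536870912) (W2 := 536870912) (P3 := 50331648) (W3 := 16777216)
    rfl rfl rfl (fun _ => rfl) k0_A00pm_011_s1

theorem s_A00pm_011_s1 {κ x : ℝ} (hκ : κ * h0 = ken x) (hx : ((50331648 : ℕ) : ℝ) / S ≤ x)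
    (hx' : x ≤ (((50331648 : ℕ) : ℝ) + (16777216 : ℕ)) / S)
    (H : CutA (VF κ) PP tKF tL pcF (Cut.of [[⟨0, 0, 0, 50331648⟩, ⟨1, 1, 0, 50331648⟩, ⟨2, 1, 0, 50331648⟩]]) 0 1 1 0 0 (sgb true) (sgb false) x) :
    AltA (VF κ) PP tKF tL pcF [⟨3, 0, 0, 1449551462⟩] 0 1 1 0 0 (sgb true) (sgb false) x :=
  strip_altA (m := 1449551462) true rfl hκ covF00 covF01 hx hx' c_A00pm_011_s1 H (noExt_A)

noncomputable def cut_A00pm_011_s3 : Cut := Cut.of [[⟨3, 0, 0, 2845415833⟩], [⟨0, 0, 0, 50331648⟩, ⟨1, 1, 0, 50331648⟩, ⟨2, 1, 0, 50331648⟩]]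

noncomputable def f_A00pm_011_s3 : ℕ → ℕ → ℕ → ℕ → Bool := onCell 0 536870912 536870912 536870912 50331648 16777216
    (rowFK 0 true true false .pnn 0 1 1 (qsf 0 536870912 536870912 536870912 1) ndF0q0 ndF0q1 pcF1 cut_A00pm_011_s3 Ext.none)

def k0_A00pm_011_s3 : ∃ t, chk3 f_A00pm_011_s3 t 1 1 1 = true :=
  ⟨(l 6), by decide +kernel⟩

theorem c_A00pm_011_s3 : CertF 0 536870912 536870912 536870912 50331648 16777216 true true false .pnn 0 1 1
    ndF0q0 ndF0q1 pcF1 cut_A00pm_011_s3 Ext.none :=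
  certFK0 (fam := true) (s1 := true) (s2 := false) (a := 0) (b := 1) (c := 1) (cn := .pnn) (n1 := ndF0q0) (n2 := ndF0q1) (pc := pcF1) (cut := cut_A00pm_011_s3) (xt := Ext.none) (P1 := 0) (W1 := 536870912) (P2 := 536870912) (W2 := 536870912) (P3 := 50331648) (W3 := 16777216)
    rfl rfl rfl k0_A00pm_011_s3

theorem s_A00pm_011_s3 {κ x : ℝ} (hκ : κ * h0 = ken x) (hx : ((50331648 : ℕ) : ℝ) / S ≤ x)
    (hx' : x ≤ (((50331648 : ℕ) : ℝ) + (16777216 : ℕ)) / S)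
    (H : CutA (VF κ) PP tKF tL pcF (Cut.of [[⟨0, 0, 0, 50331648⟩, ⟨1, 1, 0, 50331648⟩, ⟨2, 1, 0, 50331648⟩]]) 0 1 1 0 0 (sgb true) (sgb false) x) :
    AltA (VF κ) PP tKF tL pcF [⟨4, 0, 0, 2845415833⟩] 0 1 1 0 0 (sgb true) (sgb false) x :=
  strip_altA (m := 2845415833) false rfl hκ covF00 covF01 hx hx' c_A00pm_011_s3 H (noExt_A)

end Pool.Agent.Strip051.G.I3_64_1_16.Tab.St.C
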