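import Pool.Agent.Strip051.G.I3_64_1_16.StF

/-! # Unit strips 2 (generated) -/

set_option linter.all false
set_option maxRecDepth 100000

namespace Pool.Agent.Strip051.G.I3_64_1_16.Tab.St.C

open Pool.Agent.Strip051.PB Pool.Agent.Strip051.PB.T Pool.Agent.StripNear Pool.Agent.Strip051.LC
open Pool.Agent.Strip051.G.I3_64_1_16.Tab Pool.Agent.Strip051.G.I3_64_1_16.Tab.St

noncomputable def cut_A00pm_012_s3 : Cut := Cut.of [[⟨3, 0, 0, 2845415833⟩], [⟨0, 0, 0, 12582912⟩, ⟨1, 1, 0, 12582912⟩, ⟨2, 1, 0, 12582912⟩], [⟨0, 0, 1, 25165824⟩, ⟨1, 1, 0, 8388608⟩, ⟨2, 1, 1, 25165824⟩, ⟨0, 0, 0, 83886080⟩, ⟨0, 1, 0, 1040187392⟩, ⟨2, 1, 0, 83886080⟩, ⟨2, 2, 0, 1040187392⟩]]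

noncomputable def f_A00pm_012_s3 : ℕ → ℕ → ℕ → ℕ → Bool := onCell 0 536870912 536870912 536870912 50331648 16777216
    (rowFK 0 true true false .pnp 0 1 2 (qsf 0 536870912 536870912 536870912 2) ndF0q0 ndF0q1 pcF2 cut_A00pm_012_s3 Ext.none)

def k0_A00pm_012_s3 : ∃ t, chk3 f_A00pm_012_s3 t 1 1 1 = true :=
  ⟨(l 6), by decide +kernel⟩

theorem c_A00pm_012_s3 : CertF 0 536870912 536870912 536870912 50331648 16777216 true true false .pnp 0 1 2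
    ndF0q0 ndF0q1 pcF2 cut_A00pm_012_s3 Ext.none :=
  certFK0 (fam := true) (s1 := true) (s2 := false) (a := 0) (b := 1) (c := 2) (cn := .pnp) (n1 := ndF0q0) (n2 := ndF0q1) (pc := pcF2) (cut := cut_A00pm_012_s3) (xt := Ext.none) (P1 := 0) (W1 := 536870912) (P2 := 536870912) (W2 := 536870912) (P3 := 50331648) (W3 := 16777216)
    rfl rfl rfl k0_A00pm_012_s3

theorem s_A00pm_012_s3 {κ x : ℝ} (hκ : κ * h0 = ken x) (hx : ((50331648 : ℕ) : ℝ) / S ≤ x)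
    (hx' : x ≤ (((50331648 : ℕ) : ℝ) + (16777216 : ℕ)) / S)
    (H : CutA (VF κ) PP tKF tL pcF (Cut.of [[⟨0, 0, 0, 12582912⟩, ⟨1, 1, 0, 12582912⟩, ⟨2, 1, 0, 12582912⟩], [⟨0, 0, 1, 25165824⟩, ⟨1, 1, 0, 8388608⟩, ⟨2, 1, 1, 25165824⟩, ⟨0, 0, 0, 83886080⟩, ⟨0, 1, 0, 1040187392⟩, ⟨2, 1, 0, 83886080⟩, ⟨2, 2, 0, 1040187392⟩]]) 0 1 2 0 0 (sgb true) (sgb false) x) :
    AltA (VF κ) PP tKF tL pcF [⟨4, 0, 0, 2845415833⟩] 0 1 2 0 0 (sgb true) (sgb false) x :=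
  strip_altA (m := 2845415833) false rfl hκ covF00 covF01 hx hx' c_A00pm_012_s3 H (noExt_A)

noncomputable def cut_A00pm_022_s1 : Cut := Cut.of [[⟨4, 0, 0, 1449551462⟩], [⟨0, 0, 0, 50331648⟩, ⟨1, 1, 0, 50331648⟩, ⟨2, 1, 0, 50331648⟩], [⟨0, 0, 1, 25165824⟩, ⟨1, 1, 0, 8388608⟩, ⟨2, 1, 1, 25165824⟩, ⟨0, 0, 0, 83886080⟩, ⟨0, 1, 0, 1040187392⟩, ⟨2, 1, 0, 83886080⟩, ⟨2, 2, 0, 1040187392⟩]]

noncomputable def f_A00pm_022_s1 : ℕ → ℕ → ℕ → ℕ → Bool := onCell 1073741824 536870912 0 536870912 50331648 16777216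
    (rowFK 2 true true false .pp 0 2 2 (qsf 0 536870912 0 536870912 2) ndF0q0 ndF0q2 pcF2 cut_A00pm_022_s1 Ext.none)

def k0_A00pm_022_s1 : ∃ t, chk3 f_A00pm_022_s1 t 2 2 1 = true :=
  ⟨(a (a (l 1) (l 6)) (l 6)), by decide +kernel⟩

def k1_A00pm_022_s1 : ∃ t, chk3 f_A00pm_022_s1 t 2 6 1 = true :=
  ⟨(a (a (l 1) (a (b (l 1) (b (a (l 1) (l 57481285223)) (a (b (l 17730352) (a (l 1) (l 17554584))) (a (b (l 18067408) (l 17991520)) (l 18152144))))) (b (l 6) (b (l 18440240) (l 18308328))))) (a (b (l 6) (a (l 18444848) (l 6))) (l 6))), by decide +kernel⟩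

def k2_A00pm_022_s1 : ∃ t, chk3 f_A00pm_022_s1 t 2 14 1 = true :=
  ⟨(a (a (a (l 1) (b (a (l 1) (b (l 1) (a (l 1) (a (b (l 1) (l 16771080)) (b (l 16789856) (l 17053224)))))) (b (a (l 1) (a (b (a (l 1) (b (l 16775192) (l 16771336))) (a (b (l 16768216) (a (l 16764480) (l 16763992))) (l 16765560))) (b (a (l 16808296) (l 17021208)) (a (l 16783856) (l 16907664))))) (b (a (a (l 1) (a (b (l 1) (l 14)) (b (a (l 16762288) (l 16761640)) (a (l 14) (l 16758296))))) (a (a (l 16759328) (l 16757840)) (a (l 16762408) (l 16880592)))) (a (a (l 14) (a (l 14) (b (l 16755952) (l 16752680)))) (a (a (l 16757440) (l 16750096)) (a (l 16744168) (l 16772408)))))))) (b (b (a (a (a (b (l 17493920) (a (l 17383992) (l 17537648))) (l 17732824)) (l 17890152)) (l 18206640)) (a (a (a (a (l 16912392) (l 17393576)) (l 17482440)) (a (l 17823640) (l 17949344))) (l 18137760))) (a (a (a (a (b (a (l 16885976)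 (l 17047560)) (b (l 17046456) (l 16934008))) (b (l 16983480) (b (l 17268040) (l 17152648)))) (a (b (l 17353040) (l 17114712)) (b (l 17619888) (l 17463408)))) (a (b (l 17744064) (l 17584632)) (b (l 17870376) (l 17793816)))) (a (l 17882216) (l 18089832))))) (a (a (b (l 18311664) (l 18217368)) (l 18365744)) (l 6))), by decide +kernel⟩

def k3_A00pm_022_s1 : ∃ t, chk3 f_A00pm_022_s1 t 8 15 1 = true :=
  ⟨(a (l 14) (a (a (l 14) (a (l 14) (a (l 14) (b (b (b (l 16746576) (l 16739824)) (b (l 16733024) (l 16726176))) (b (b (l 16761184) (b (l 16759952) (l 16768312))) (b (b (l 16776664) (l 16764048)) (l 22))))))) (b (b (a (b (a (l 16750280) (l 16742328)) (a (b (l 16739632) (l 16736024)) (l 16734504))) (b (a (l 16771304) (l 16834952)) (a (l 16802064) (l 16816760)))) (a (a (b (b (l 16732400) (l 16728760)) (b (l 16725104) (l 16763376))) (b (l 16768576) (b (l 16720680) (l 16800576))))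 (b (a (l 16794720) (l 16801904)) (a (l 16749480) (l 16790560))))) (b (a (b (a (b (l 16759680) (l 16755960)) (b (l 16796560) (l 16792520))) (b (a (l 16757800) (l 16755696)) (a (b (l 16764208) (l 16768480)) (l 16764496)))) (b (a (b (l 16791712) (l 16793256)) (l 16782888)) (a (b (l 16795904) (l 16757728)) (b (l 16779640) (l 16778672))))) (b (b (a (a (a (l 16775816) (l 16774968)) (a (l 16774136) (l 16773304))) (a (l 16762624) (a (l 16829360) (l 16811008)))) (l 22)) (l 22)))))), by decide +kernel⟩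

def k4_A00pm_022_s1 : ∃ t, chk3 f_A00pm_022_s1 t 9 15 1 = true :=
  ⟨(a (a (b (a (a (b (b (l 16908024) (l 16968664)) (b (l 16948320) (l 16931040))) (b (b (l 17123384) (l 17180392)) (b (l 17072176) (l 17050528)))) (b (a (l 17051696) (l 17397376)) (a (l 16997312) (l 17338904)))) (b (b (a (a (l 16833088) (l 17031672)) (l 17091224)) (a (a (a (l 16876344) (l 16935216)) (l 16931832)) (a (l 17194672) (l 17361720)))) (b (a (b (c (l 17173080) (a (l 16844808) (l 17043216))) (c (l 17079920) (l 22))) (a (l 17093480) (l 17341144))) (a (c (a (l 22) (l 17279048)) (l 22)) (a (c (l 17358184) (l 22)) (a (l 17220704) (l 17256624))))))) (a (b (b (l 17514008) (l 17449192)) (a (b (l 17443800) (b (l 17407416) (l 17301624))) (b (l 17504632) (l 17367088)))) (b (b (l 17720408) (l 17650928)) (b (l 17586152) (l 17359168))))) (b (a (b (l 17859216) (l 17790040)) (l 17963592)) (a (b (l 17723704) (a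 (l 17618552) (l 17701584))) (b (l 17872488) (l 17813800))))), by decide +kernel⟩

def k5_A00pm_022_s1 : ∃ t, chk3 f_A00pm_022_s1 t 5 15 1 = true :=
  ⟨(a (a (b (l 18122000) (b (l 18051968) (a (l 17945624) (a (l 18034584) (a (l 18076384) (l 18101072)))))) (b (l 18283720) (l 18229288))) (b (l 18467080) (l 18461776))), by decide +kernel⟩

def k6_A00pm_022_s1 : ∃ t, chk3 f_A00pm_022_s1 t 3 1 1 = true :=
  ⟨(b (l 6) (l 6)), by decide +kernel⟩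

theorem t7_A00pm_022_s1 : ∃ t, chk3 f_A00pm_022_s1 t 4 15 1 = true := ex3_a k3_A00pm_022_s1 k4_A00pm_022_s1

theorem t8_A00pm_022_s1 : ∃ t, chk3 f_A00pm_022_s1 t 2 15 1 = true := ex3_a t7_A00pm_022_s1 k5_A00pm_022_s1

theorem t9_A00pm_022_s1 : ∃ t, chk3 f_A00pm_022_s1 t 2 7 1 = true := ex3_b k2_A00pm_022_s1 t8_A00pm_022_s1

theorem t10_A00pm_022_s1 : ∃ t, chk3 f_A00pm_022_s1 t 2 3 1 = true := ex3_b k1_A00pm_022_s1 t9_A00pm_022_s1

theorem t11_A00pm_022_s1 : ∃ t, chk3 f_A00pm_022_s1 t 2 1 1 = true := ex3_b k0_A00pm_022_s1 t10_A00pm_022_s1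

theorem t12_A00pm_022_s1 : ∃ t, chk3 f_A00pm_022_s1 t 1 1 1 = true := ex3_a t11_A00pm_022_s1 k6_A00pm_022_s1

theorem c_A00pm_022_s1 : CertF 0 536870912 0 536870912 50331648 16777216 true true false .pp 0 2 2
    ndF0q0 ndF0q2 pcF2 cut_A00pm_022_s1 Ext.none :=
  certFK2 (fam := true) (s1 := true) (s2 := false) (a := 0) (b := 2) (c := 2) (cn := .pp) (n1 := ndF0q0) (n2 := ndF0q2) (pc := pcF2) (cut := cut_A00pm_022_s1) (xt := Ext.none) (P1 := 0) (W1 := 536870912) (P2 := 0) (W2 := 536870912) (P3 := 50331648) (W3 := 16777216)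
    rfl rfl rfl (fun _ => rfl) t12_A00pm_022_s1

theorem s_A00pm_022_s1 {κ x : ℝ} (hκ : κ * h0 = ken x) (hx : ((50331648 : ℕ) : ℝ) / S ≤ x)
    (hx' : x ≤ (((50331648 : ℕ) : ℝ) + (16777216 : ℕ)) / S)
    (H : CutA (VF κ) PP tKF tL pcF (Cut.of [[⟨0, 0, 0, 50331648⟩, ⟨1, 1, 0, 50331648⟩, ⟨2, 1, 0, 50331648⟩], [⟨0, 0, 1, 25165824⟩, ⟨1, 1, 0, 8388608⟩, ⟨2, 1, 1, 25165824⟩, ⟨0, 0, 0, 83886080⟩, ⟨0, 1, 0, 1040187392⟩, ⟨2, 1, 0, 83886080⟩, ⟨2, 2, 0, 1040187392⟩]]) 0 2 2 0 0 (sgb true) (sgb false) x) :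
    AltA (VF κ) PP tKF tL pcF [⟨3, 0, 0, 1449551462⟩] 0 2 2 0 0 (sgb true) (sgb false) x :=
  strip_altA (m := 1449551462) true rfl hκ covF00 covF02 hx hx' c_A00pm_022_s1 H (noExt_A)

noncomputable def cut_A00pm_022_s3 : Cut := Cut.of [[⟨3, 0, 0, 2845415833⟩], [⟨0, 0, 0, 50331648⟩, ⟨1, 1, 0, 50331648⟩, ⟨2, 1, 0, 50331648⟩], [⟨0, 0, 1, 25165824⟩, ⟨1, 1, 0, 8388608⟩, ⟨2, 1, 1, 25165824⟩, ⟨0, 0, 0, 83886080⟩, ⟨0, 1, 0, 1040187392⟩, ⟨2, 1, 0, 83886080⟩, ⟨2, 2, 0, 1040187392⟩]]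

noncomputable def f_A00pm_022_s3 : ℕ → ℕ → ℕ → ℕ → Bool := onCell 1073741824 536870912 0 536870912 50331648 16777216
    (rowFK 2 true true false .pp 0 2 2 (qsf 0 536870912 0 536870912 2) ndF0q0 ndF0q2 pcF2 cut_A00pm_022_s3 Ext.none)

def k0_A00pm_022_s3 : ∃ t, chk3 f_A00pm_022_s3 t 1 1 1 = true :=
  ⟨(a (l 6) (b (l 6) (l 6))), by decide +kernel⟩

theorem c_A00pm_022_s3 : CertF 0 536870912 0 536870912 50331648 16777216 true true false .pp 0 2 2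
    ndF0q0 ndF0q2 pcF2 cut_A00pm_022_s3 Ext.none :=
  certFK2 (fam := true) (s1 := true) (s2 := false) (a := 0) (b := 2) (c := 2) (cn := .pp) (n1 := ndF0q0) (n2 := ndF0q2) (pc := pcF2) (cut := cut_A00pm_022_s3) (xt := Ext.none) (P1 := 0) (W1 := 536870912) (P2 := 0) (W2 := 536870912) (P3 := 50331648) (W3 := 16777216)
    rfl rfl rfl (fun _ => rfl) k0_A00pm_022_s3

theorem s_A00pm_022_s3 {κ x : ℝ} (hκ : κ * h0 = ken x) (hx : ((50331648 : ℕ) : ℝ) / S ≤ x)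
    (hx' : x ≤ (((50331648 : ℕ) : ℝ) + (16777216 : ℕ)) / S)
    (H : CutA (VF κ) PP tKF tL pcF (Cut.of [[⟨0, 0, 0, 50331648⟩, ⟨1, 1, 0, 50331648⟩, ⟨2, 1, 0, 50331648⟩], [⟨0, 0, 1, 25165824⟩, ⟨1, 1, 0, 8388608⟩, ⟨2, 1, 1, 25165824⟩, ⟨0, 0, 0, 83886080⟩, ⟨0, 1, 0, 1040187392⟩, ⟨2, 1, 0, 83886080⟩, ⟨2, 2, 0, 1040187392⟩]]) 0 2 2 0 0 (sgb true) (sgb false) x) :
    AltA (VF κ) PP tKF tL pcF [⟨4, 0, 0, 2845415833⟩] 0 2 2 0 0 (sgb true) (sgb false) x :=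
  strip_altA (m := 2845415833) false rfl hκ covF00 covF02 hx hx' c_A00pm_022_s3 H (noExt_A)

noncomputable def cut_A00pm_023_s1 : Cut := Cut.of [[⟨4, 0, 0, 1449551462⟩]]

noncomputable def f_A00pm_023_s1 : ℕ → ℕ → ℕ → ℕ → Bool := onCell 1610612736 536870912 0 536870912 50331648 16777216
    (rowFK 2 true true false .up 0 2 3 (qsf 0 536870912 0 536870912 3) ndF0q0 ndF0q2 pcF3 cut_A00pm_023_s1 Ext.none)

def k0_A00pm_023_s1 : ∃ t, chk3 f_A00pm_023_s1 t 1 1 1 = true :=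
  ⟨(l 6), by decide +kernel⟩

theorem c_A00pm_023_s1 : CertF 0 536870912 0 536870912 50331648 16777216 true true false .up 0 2 3
    ndF0q0 ndF0q2 pcF3 cut_A00pm_023_s1 Ext.none :=
  certFK2 (fam := true) (s1 := true) (s2 := false) (a := 0) (b := 2) (c := 3) (cn := .up) (n1 := ndF0q0) (n2 := ndF0q2) (pc := pcF3) (cut := cut_A00pm_023_s1) (xt := Ext.none) (P1 := 0) (W1 := 536870912) (P2 := 0) (W2 := 536870912) (P3 := 50331648) (W3 := 16777216)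
    rfl rfl rfl (fun _ => rfl) k0_A00pm_023_s1

theorem s_A00pm_023_s1 {κ x : ℝ} (hκ : κ * h0 = ken x) (hx : ((50331648 : ℕ) : ℝ) / S ≤ x)
    (hx' : x ≤ (((50331648 : ℕ) : ℝ) + (16777216 : ℕ)) / S) :
    AltA (VF κ) PP tKF tL pcF [⟨3, 0, 0, 1449551462⟩] 0 2 3 0 0 (sgb true) (sgb false) x :=
  strip_altA (m := 1449551462) true rfl hκ covF00 covF02 hx hx' c_A00pm_023_s1 cutA_nil (noExt_A)

noncomputable def cut_A00pm_023_s3 : Cut := Cut.of [[⟨3, 0, 0, 2845415833⟩]]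

noncomputable def xt_A00pm_023_s3 : Ext := strExt dd true true false .u0 .u2 .s2 .up 0 2 3 rfl rfl gl3 vv ndF0q0 ndF0q2

noncomputable def f_A00pm_023_s3 : ℕ → ℕ → ℕ → ℕ → Bool := onCell 0 536870912 0 536870912 50331648 16777216
    (rowFK 0 true true false .up 0 2 3 (qsf 0 536870912 0 536870912 3) ndF0q0 ndF0q2 pcF3 cut_A00pm_023_s3 xt_A00pm_023_s3)

def k0_A00pm_023_s3 : ∃ t, chk3 f_A00pm_023_s3 t 1 1 1 = true :=
  ⟨(a (l 1) (b (a (b (a (l 1) (b (l 18102056) (l 6))) (l 6)) (b (a (b (l 17781472) (l 6)) (b (l 553445647) (l 17966760))) (a (l 6) (l 6)))) (l 6))), by decide +kernel⟩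

theorem c_A00pm_023_s3 : CertF 0 536870912 0 536870912 50331648 16777216 true true false .up 0 2 3
    ndF0q0 ndF0q2 pcF3 cut_A00pm_023_s3 xt_A00pm_023_s3 :=
  certFK0 (fam := true) (s1 := true) (s2 := false) (a := 0) (b := 2) (c := 3) (cn := .up) (n1 := ndF0q0) (n2 := ndF0q2) (pc := pcF3) (cut := cut_A00pm_023_s3) (xt := xt_A00pm_023_s3) (P1 := 0) (W1 := 536870912) (P2 := 0) (W2 := 536870912) (P3 := 50331648) (W3 := 16777216)
    rfl rfl rfl k0_A00pm_023_s3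

theorem s_A00pm_023_s3 {κ x : ℝ} (hκ : κ * h0 = ken x) (hx : ((50331648 : ℕ) : ℝ) / S ≤ x)
    (hx' : x ≤ (((50331648 : ℕ) : ℝ) + (16777216 : ℕ)) / S) :
    AltA (VF κ) PP tKF tL pcF [⟨4, 0, 0, 2845415833⟩] 0 2 3 0 0 (sgb true) (sgb false) x :=
  strip_altA (m := 2845415833) false rfl hκ covF00 covF02 hx hx' c_A00pm_023_s3 cutA_nil ((okx hx hx').extA (T := tt) (sideF hx hx') hκ rfl rfl (.O 0 true) (.O 2 false) (Or.inr rfl))

noncomputable def cut_A00pm_101_s1 : Cut := Cut.of [[⟨4, 0, 0, 1449551462⟩], [⟨0, 1, 0, 50331648⟩, ⟨1, 0, 0, 50331648⟩, ⟨2, 1, 0, 50331648⟩]]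

noncomputable def f_A00pm_101_s1 : ℕ → ℕ → ℕ → ℕ → Bool := onCell 536870912 536870912 536870912 536870912 50331648 16777216
    (rowFK 1 true true false .npn 1 0 1 (qsf 536870912 536870912 0 536870912 1) ndF0q1 ndF0q0 pcF1 cut_A00pm_101_s1 Ext.none)

def k0_A00pm_101_s1 : ∃ t, chk3 f_A00pm_101_s1 t 1 1 1 = true :=
  ⟨(b (l 3) (a (l 3) (b (l 3) (a (l 3) (b (l 3) (a (l 3) (b (l 3) (a (l 3) (l 14))))))))), by decide +kernel⟩

theorem c_A00pm_101_s1 : CertF 536870912 536870912 0 536870912 50331648 16777216 true true false .npn 1 0 1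
    ndF0q1 ndF0q0 pcF1 cut_A00pm_101_s1 Ext.none :=
  certFK1 (fam := true) (s1 := true) (s2 := false) (a := 1) (b := 0) (c := 1) (cn := .npn) (n1 := ndF0q1) (n2 := ndF0q0) (pc := pcF1) (cut := cut_A00pm_101_s1) (xt := Ext.none) (P1 := 536870912) (W1 := 536870912) (P2 := 0) (W2 := 536870912) (P3 := 50331648) (W3 := 16777216)
    rfl rfl rfl (fun _ => rfl) k0_A00pm_101_s1

theorem s_A00pm_101_s1 {κ x : ℝ} (hκ : κ * h0 = ken x) (hx : ((50331648 : ℕ) : ℝ) / S ≤ x)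
    (hx' : x ≤ (((50331648 : ℕ) : ℝ) + (16777216 : ℕ)) / S)
    (H : CutA (VF κ) PP tKF tL pcF (Cut.of [[⟨0, 1, 0, 50331648⟩, ⟨1, 0, 0, 50331648⟩, ⟨2, 1, 0, 50331648⟩]]) 1 0 1 0 0 (sgb true) (sgb false) x) :
    AltA (VF κ) PP tKF tL pcF [⟨3, 0, 0, 1449551462⟩] 1 0 1 0 0 (sgb true) (sgb false) x :=
  strip_altA (m := 1449551462) true rfl hκ covF01 covF00 hx hx' c_A00pm_101_s1 H (noExt_A)

noncomputable def cut_A00pm_101_s3 : Cut := Cut.of [[⟨3, 0, 0, 2845415833⟩], [⟨0, 1, 0, 50331648⟩, ⟨1, 0, 0, 50331648⟩, ⟨2, 1, 0, 50331648⟩]]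

noncomputable def f_A00pm_101_s3 : ℕ → ℕ → ℕ → ℕ → Bool := onCell 536870912 536870912 0 536870912 50331648 16777216
    (rowFK 0 true true false .npn 1 0 1 (qsf 536870912 536870912 0 536870912 1) ndF0q1 ndF0q0 pcF1 cut_A00pm_101_s3 Ext.none)

def k0_A00pm_101_s3 : ∃ t, chk3 f_A00pm_101_s3 t 1 1 1 = true :=
  ⟨(l 6), by decide +kernel⟩

theorem c_A00pm_101_s3 : CertF 536870912 536870912 0 536870912 50331648 16777216 true true false .npn 1 0 1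
    ndF0q1 ndF0q0 pcF1 cut_A00pm_101_s3 Ext.none :=
  certFK0 (fam := true) (s1 := true) (s2 := false) (a := 1) (b := 0) (c := 1) (cn := .npn) (n1 := ndF0q1) (n2 := ndF0q0) (pc := pcF1) (cut := cut_A00pm_101_s3) (xt := Ext.none) (P1 := 536870912) (W1 := 536870912) (P2 := 0) (W2 := 536870912) (P3 := 50331648) (W3 := 16777216)
    rfl rfl rfl k0_A00pm_101_s3

theorem s_A00pm_101_s3 {κ x : ℝ} (hκ : κ * h0 = ken x) (hx : ((50331648 : ℕ) : ℝ) / S ≤ x)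
    (hx' : x ≤ (((50331648 : ℕ) : ℝ) + (16777216 : ℕ)) / S)
    (H : CutA (VF κ) PP tKF tL pcF (Cut.of [[⟨0, 1, 0, 50331648⟩, ⟨1, 0, 0, 50331648⟩, ⟨2, 1, 0, 50331648⟩]]) 1 0 1 0 0 (sgb true) (sgb false) x) :
    AltA (VF κ) PP tKF tL pcF [⟨4, 0, 0, 2845415833⟩] 1 0 1 0 0 (sgb true) (sgb false) x :=
  strip_altA (m := 2845415833) false rfl hκ covF01 covF00 hx hx' c_A00pm_101_s3 H (noExt_A)

end Pool.Agent.Strip051.G.I3_64_1_16.Tab.St.C
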