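import Pool.Agent.Strip051.G.I3_64_1_16.StF

/-! # Unit strips 3 (generated) -/

set_option linter.all false
set_option maxRecDepth 100000

namespace Pool.Agent.Strip051.G.I3_64_1_16.Tab.St.C

open Pool.Agent.Strip051.PB Pool.Agent.Strip051.PB.T Pool.Agent.StripNear Pool.Agent.Strip051.LC
open Pool.Agent.Strip051.G.I3_64_1_16.Tab Pool.Agent.Strip051.G.I3_64_1_16.Tab.St

noncomputable def cut_A00pm_102_s1 : Cut := Cut.of [[⟨4, 0, 0, 1449551462⟩], [⟨0, 1, 0, 12582912⟩, ⟨1, 0, 0, 12582912⟩, ⟨2, 1, 0, 12582912⟩], [⟨0, 1, 0, 8388608⟩, ⟨1, 0, 1, 25165824⟩, ⟨2, 1, 1, 25165824⟩, ⟨1, 0, 0, 83886080⟩, ⟨1, 1, 0, 1040187392⟩, ⟨2, 1, 0, 83886080⟩, ⟨2, 2, 0, 1040187392⟩]]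

noncomputable def xt_A00pm_102_s1 : Ext := strExt dd true true false .u0 .u0m .u2 .npp 1 0 2 rfl rfl gf2 vv ndF0q1 ndF0q0

noncomputable def f_A00pm_102_s1 : ℕ → ℕ → ℕ → ℕ → Bool := onCell 536870912 536870912 1073741824 536870912 50331648 16777216
    (rowFK 1 true true false .npp 1 0 2 (qsf 536870912 536870912 0 536870912 2) ndF0q1 ndF0q0 pcF2 cut_A00pm_102_s1 xt_A00pm_102_s1)

def k0_A00pm_102_s1 : ∃ t, chk3 f_A00pm_102_s1 t 2 1 1 = true :=
  ⟨(b (b (b (l 3) (l 3)) (a (b (b (b (l 3) (l 2)) (l 2)) (l 2)) (a (b (b (b (l 3) (a (b (l 3) (a (l 2) (b (b (l 3) (l 547681935)) (b (b (l 547188623) (l 9227501991)) (l 16797816))))) (b (b (l 3) (b (l 3) (l 549747855))) (b (b (l 549358735) (l 548899471)) (b (b (l 548505487) (b (l 548270991) (l 548176527))) (a (l 16813496) (l 16799440))))))) (b (a (b (b (l 14596252039) (l 2)) (l 2)) (b (b (l 16825152) (l 16814976)) (l 16830680))) (l 16937344))) (b (l 16989176) (l 2))) (b (b (b (b (l 3) (a (l 3) (l 553269903))) (b (b (a (l 552033679) (l 552896143)) (a (b (a (l 551068815)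 (l 551723663)) (a (l 550755727) (l 551429775))) (l 552568975))) (b (a (b (a (l 550414223) (l 551113615)) (a (l 550024079) (l 550759823))) (b (l 552071823) (l 551774351))) (a (b (b (l 550073231) (b (l 549906831) (l 549813391))) (a (l 16808288) (l 16819256))) (b (b (l 551510927) (l 16866624)) (l 16881832)))))) (b (a (a (l 16875776) (l 16887496)) (a (l 16817584) (l 16875544))) (b (l 16969928) (l 16990456)))) (b (l 17120696) (l 17013864)))))) (a (l 2) (a (l 2) (a (l 2) (b (l 17296520) (l 2)))))), by decide +kernel⟩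

def k1_A00pm_102_s1 : ∃ t, chk3 f_A00pm_102_s1 t 6 2 1 = true :=
  ⟨(b (b (l 3) (b (a (l 3) (b (l 3) (a (l 3) (l 563078287)))) (a (b (l 3) (l 556130703)) (b (a (l 559514767) (l 561392271)) (a (l 558107279) (l 559804303)))))) (a (b (b (b (b (l 555252367) (a (l 554132367) (l 555177103))) (b (b (a (l 553735311) (l 554735503)) (a (l 553401487) (l 554409359))) (b (a (b (l 553079695) (l 552844687)) (a (l 16891872) (l 16918472))) (a (b (a (l 16890440) (l 16879184)) (l 16875408)) (b (a (l 16902456) (l 16929216)) (l 16922312)))))) (a (b (b (l 16849584) (l 16916200)) (l 16950560)) (b (l 17035920) (l 16999992)))) (b (l 17203032) (l 17015496))) (b (b (b (b (l 559391631) (a (l 556426639) (l 557917327))) (b (b (l 556826767) (a (l 16950648) (l 17031872))) (a (b (l 16966168) (b (l 16977104) (l 16984160))) (b (l 17047368) (b (l 17148608) (l 17246072)))))) (a (b (l 17014712) (l 17063648)) (a (l 17101240) (l 17173496)))) (a (l 17244336) (b (l 17304304) (l 17278648)))))), by decide +kernel⟩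

def k2_A00pm_102_s1 : ∃ t, chk3 f_A00pm_102_s1 t 14 8 1 = true :=
  ⟨(a (l 3) (a (l 3) (b (l 3) (b (l 3) (b (a (l 3) (b (l 3) (l 572299919))) (c (l 573898639) (l 569743759))))))), by decide +kernel⟩

def k3_A00pm_102_s1 : ∃ t, chk3 f_A00pm_102_s1 t 30 16 1 = true :=
  ⟨(a (l 3) (b (l 3) (a (l 3) (a (l 3) (b (l 3) (b (l 3) (b (a (l 3) (a (l 3) (b (l 3) (c (l 555390863) (l 537077391))))) (c (a (l 560806799) (c (l 562621583) (l 554032783))) (c (a (a (l 549393295) (l 547886735)) (a (l 546282383) (l 544573071))) (a (a (l 541141391) (l 539401871)) (a (l 537822607) (l 536105871)))))))))))), by decide +kernel⟩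

def k4_A00pm_102_s1 : ∃ t, chk3 f_A00pm_102_s1 t 30 17 1 = true :=
  ⟨(b (a (b (l 3) (a (l 3) (b (c (l 574867599) (l 566752911)) (a (l 571670671) (l 571063439))))) (b (b (a (b (l 3) (a (l 3) (a (l 3) (l 562003087)))) (c (a (c (l 569993359) (l 562633615)) (a (l 564022671) (a (l 562542223) (l 561473167)))) (b (a (a (l 3) (a (l 551105679) (l 548767631))) (c (a (l 551606159) (a (l 549526415) (l 548030607))) (a (a (l 544744847) (l 543212431)) (a (l 541585551) (l 539858063))))) (a (a (l 555071887) (l 551897743)) (a (c (l 554189967) (l 545410191)) (a (l 547826063) (l 545604239))))))) (b (a (a (l 3) (a (b (l 3) (c (l 571417743) (l 560204431))) (l 563397519))) (c (a (l 568661135) (l 565852559)) (a (a (l 557010063) (l 555157647)) (a (l 551461775) (a (l 551333263) (l 550087055)))))) (a (a (l 568078479) (c (l 571635087) (a (l 561461135) (c (l 562925711) (l 557411215))))) (c (a (a (l 570281359) (l 569226639)) (l 567378831)) (a (a (l 557104527) (l 557080719)) (a (l 555242383) (c (l 556535183) (l 549810319)))))))) (b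 (a (a (l 569152143) (c (l 572661391) (a (l 563169679) (l 562099087)))) (a (c (l 571210127) (b (a (l 560214415) (l 558772367)) (l 560936335))) (a (b (l 562922383) (l 16811720)) (b (a (l 16800144) (l 16803048)) (l 16818760))))) (a (a (l 570232207) (a (l 569406351) (l 568768911))) (a (a (l 568039311) (l 567206799)) (a (l 564916367) (a (l 16802104) (l 16805640)))))))) (a (b (a (b (l 572399247) (b (l 572385167) (l 572342415))) (b (l 571874447) (l 572098447))) (a (a (l 572045455) (l 572116111)) (b (l 572169871) (l 16881632)))) (b (a (b (a (l 570988431) (l 570177167)) (a (l 16849904) (l 16916144))) (a (b (c (l 16919664) (l 564610959)) (l 16939072)) (b (a (l 16833096) (l 16841776)) (l 16959784)))) (a (b (l 16897872) (l 16975288)) (b (l 16945544) (l 17024944)))))), by decide +kernel⟩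

def k5_A00pm_102_s1 : ∃ t, chk3 f_A00pm_102_s1 t 62 32 1 = true :=
  ⟨(a (l 3) (b (l 3) (b (l 3) (b (l 3) (b (l 3) (a (l 3) (a (l 3) (a (l 3) (a (b (l 3) (b (b (l 3) (a (l 3) (a (l 3) (c (l 535643279) (l 535595151))))) (c (a (l 535650959) (l 535647375)) (a (a (l 3) (b (l 3) (l 535603343))) (a (b (l 535599247) (l 535601551)) (a (l 535598991) (l 535598223))))))) (b (a (l 3) (b (l 3) (a (b (l 3) (c (l 535633295) (a (a (a (a (l 3) (l 535586191)) (l 535586191)) (l 535585679)) (l 535585167)))) (c (l 535630479) (c (l 535594383) (l 535570575)))))) (a (c (c (l 535653263) (b (l 535627151) (l 535631759))) (b (a (b (b (l 3) (l 535591823)) (l 535593615)) (b (b (a (l 3) (l 535588495)) (l 535590031)) (l 535591823))) (c (l 535607695) (a (l 535584911) (l 535583119))))) (c (b (c (l 535647631) (a (l 535624847) (l 535623055))) (c (l 535652239) (l 535628175))) (b (a (a (c (l 535601295) (b (b (a (l 535575951) (l 535575439)) (l 535576719)) (l 535578511))) (b (b (b (l 535586447) (l 535587215)) (l 535587983)) (l 535589519))) (b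 (b (l 535585423) (l 535586447)) (a (l 535588751) (l 535587727)))) (b (a (c (l 535604367) (l 535580303)) (c (l 535602575) (l 535578511))) (a (l 535594639) (l 535592847)))))))))))))))), by decide +kernel⟩

def k6_A00pm_102_s1 : ∃ t, chk3 f_A00pm_102_s1 t 126 64 1 = true :=
  ⟨(a (l 3) (b (l 3) (a (l 3) (a (l 3) (b (l 3) (b (l 3) (a (l 3) (a (l 3) (b (l 3) (b (l 3) (a (l 535364751) (l 535363215)))))))))))), by decide +kernel⟩

def k7_A00pm_102_s1 : ∃ t, chk3 f_A00pm_102_s1 t 252 130 1 = true :=
  ⟨(a (l 3) (a (l 3) (b (l 3) (b (l 3) (a (l 3) (b (l 3) (a (l 535623055) (l 535619727)))))))), by decide +kernel⟩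

def k8_A00pm_102_s1 : ∃ t, chk3 f_A00pm_102_s1 t 504 262 1 = true :=
  ⟨(a (l 3) (b (l 3) (a (a (l 3) (a (l 3) (b (l 3) (b (l 3) (l 535558287))))) (b (a (l 3) (l 535540111)) (b (l 535816335) (a (c (l 535578767) (l 535531663)) (l 535551887))))))), by decide +kernel⟩

def k9_A00pm_102_s1 : ∃ t, chk3 f_A00pm_102_s1 t 504 263 1 = true :=
  ⟨(a (a (b (a (l 3) (b (l 3) (b (l 3) (l 535591055)))) (c (b (a (c (l 535636879) (l 535612815)) (c (l 535633295) (l 535609231))) (a (b (a (l 535633039) (l 535631503)) (l 535636623)) (b (l 535628431) (l 535633039)))) (b (a (a (b (l 535576207) (l 535580815)) (b (l 535574415) (l 535579023))) (b (l 535571599) (c (l 535587983) (l 535564175)))) (a (b (a (b (l 535584143) (l 535586447)) (b (l 535582351) (l 535584655))) (a (b (l 535588751) (l 535591055)) (a (l 535588495) (l 535587727)))) (b (c (l 535592591) (a (l 535569807) (l 535568015))) (c (l 535597199) (a (l 535574415) (l 535572623)))))))) (a (b (b (l 3) (b (l 535582863) (l 535587471))) (b (c (l 535617679) (b (l 535568015) (l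 535572623))) (a (c (l 535627919) (b (l 535578255) (l 535582863))) (c (l 535626127) (b (l 535576463) (l 535581071)))))) (b (b (b (l 3) (l 535574927)) (b (l 535579279) (l 535583887))) (b (c (l 535614095) (b (l 535564687) (l 535569039))) (a (c (l 535624335) (b (l 535574671) (l 535579279))) (b (l 535596943) (l 535567759))))))) (a (b (b (a (l 535635855) (a (l 535566223) (b (l 535562639) (l 535567247)))) (a (b (l 535575951) (l 535580303)) (b (l 535572367) (l 535576975)))) (b (a (b (l 535584911) (l 535589519)) (b (l 535581327) (l 535585935))) (c (a (b (l 535617679) (l 535622287)) (l 535616143)) (a (b (l 535570063) (l 535574671)) (b (l 535566735) (l 535571087)))))) (b (b (a (b (c (l 535583375) (l 535536271)) (l 535698575)) (b (l 535556239) (l 535560847))) (a (b (l 535568783) (l 535573391)) (b (l 535565455) (l 535569807)))) (b (a (b (l 535577999) (l 535582351)) (b (l 535574415) (l 535579023))) (a (c (l 535612559) (b (l 535563151) (l 535567759))) (c (l 535609231) (b (l 535559823) (l 535564175)))))))), by decide +kernel⟩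

def k10_A00pm_102_s1 : ∃ t, chk3 f_A00pm_102_s1 t 505 131 1 = true :=
  ⟨(b (a (b (b (l 3) (a (a (l 3) (l 535524239)) (a (l 535520655) (l 535517071)))) (a (b (a (l 535536527) (l 535533199)) (b (l 535675023) (l 535746703))) (b (a (l 535529615) (l 535526287)) (a (l 535538575) (l 535535247))))) (b (a (b (a (l 535504783) (l 535501199)) (a (l 535513743) (l 535510159))) (b (a (l 535497871) (l 535494287)) (a (l 535506831) (l 535503247)))) (a (b (a (l 535522703) (l 535519375)) (a (l 535531663) (l 535528335))) (b (a (l 535515791) (l 535512463)) (a (l 535524751) (l 535521423)))))) (a (a (a (b (b (b (l 535552911) (l 535557263)) (b (l 535561871) (l 535566479))) (b (b (l 535570831) (l 535575439)) (b (l 535580047) (l 535584399)))) (b (b (l 535551119) (b (l 535558287) (l 535562895))) (b (b (l 535567503) (l 535571855)) (b (l 535576463) (l 535581071))))) (a (b (b (l 535547791) (b (l 535554959) (l 535559311))) (b (b (l 535563919) (l 535568527)) (b (l 535572879) (l 535577487)))) (b (b (l 535544207) (l 535553167)) (b (b (l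 535560335) (l 535564943)) (b (l 535569551) (l 535573903)))))) (b (a (b (a (l 535540879) (l 535537295)) (a (l 535549839) (l 535546255))) (b (a (l 535533711) (l 535530383)) (a (l 535542927) (l 535539343)))) (a (b (a (b (l 535557007) (l 535561359)) (l 535555471)) (a (b (l 535565967) (l 535570575)) (b (l 535562383) (l 535566991)))) (b (a (l 535551887) (l 535548303)) (a (b (l 535559055) (l 535563407)) (l 535557519))))))), by decide +kernel⟩

def k11_A00pm_102_s1 : ∃ t, chk3 f_A00pm_102_s1 t 1012 65 1 = true :=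
  ⟨(b (b (l 3) (b (a (l 3) (b (l 3) (a (c (l 535480207) (l 535434127)) (c (l 535476623) (l 535430799))))) (a (b (a (c (l 535496079) (l 535449999)) (c (l 535492495) (l 535446415))) (a (l 535616143) (l 535612815))) (b (a (c (l 535489167) (l 535443087)) (c (l 535485583) (l 535439759))) (a (c (l 535498127) (l 535452047)) (c (l 535494799) (l 535448719))))))) (b (b (a (b (a (l 535490959) (l 535621775)) (a (l 535499919) (l 535496591))) (b (a (l 535618191) (l 535614863)) (a (l 535493007) (l 535623823)))) (a (b (a (l 535508879) (l 535505551)) (a (l 535517839) (l 535514511))) (b (a (l 535501967) (l 535498639)) (a (l 535510927) (l 535507599))))) (b (a (b (a (l 535526799) (l 535523471)) (a (l 535536015) (l 535532431))) (b (a (l 535519887) (l 535516559)) (a (l 535529103) (l 535525519)))) (a (b (a (l 535544975) (l 535541391)) (a (l 535553935) (l 535550607))) (b (a (l 535538063) (l 535534479)) (a (l 535547023) (l 535543695))))))), by decide +kernel⟩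

def k12_A00pm_102_s1 : ∃ t, chk3 f_A00pm_102_s1 t 1013 65 1 = true :=
  ⟨(b (b (b (l 3) (a (l 3) (b (l 3) (a (a (l 3) (l 535425423)) (a (l 535423631) (l 535422095)))))) (b (a (b (a (c (l 535464335) (l 535418511)) (c (l 535595151) (l 535415183))) (a (c (l 535473295) (l 535427471)) (c (l 535469711) (l 535424143)))) (b (a (c (l 535591567) (l 535411855)) (c (l 535588239) (l 535408527))) (a (c (l 535466383) (l 535420815)) (c (l 535597199) (l 535417231))))) (a (b (a (c (l 535482255) (l 535436431)) (c (l 535478671) (l 535433103))) (a (c (l 535491215) (l 535445391)) (c (l 535487887) (l 535441807)))) (b (a (c (l 535475343) (l 535429519)) (c (l 535472015) (l 535426191))) (a (c (l 535484303) (l 535438479)) (c (l 535480975) (l 535435151))))))) (b (b (a (b (a (l 535611535) (c (l 535496847) (l 535450767))) (a (l 535620495) (l 535616911))) (b (a (c (l 535493263) (l 535447439)) (c (l 535489935) (l 535444111))) (a (l 535613583) (c (l 535498895) (l 535452815))))) (a (b (a (l 535495055) (l 535625871)) (a (l 535504015) (l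 535500687))) (b (a (l 535622543) (l 535619215)) (a (l 535631503) (l 535628175))))) (b (a (b (a (l 535513231) (l 535509647)) (a (l 535522191) (l 535518607))) (b (a (l 535640463) (l 535637135)) (a (l 535515279) (l 535780239)))) (a (b (a (l 535531151) (l 535527567)) (a (l 535540111) (l 535670927))) (b (a (l 535524239) (l 535789199)) (a (l 535667343) (l 535664015))))))), by decide +kernel⟩

def k13_A00pm_102_s1 : ∃ t, chk3 f_A00pm_102_s1 t 2028 65 1 = true :=
  ⟨(b (b (b (l 3) (b (a (a (l 3) (l 535543951)) (a (l 535542159) (l 535540623))) (a (a (l 535420303) (l 535418511)) (a (l 535416975) (l 535415183))))) (b (b (a (a (l 535429263) (l 535427471)) (a (l 535425935) (l 535424143))) (a (c (l 535593615) (l 535413903)) (a (l 535434895) (l 535433103)))) (b (a (c (l 535602831) (l 535422863)) (c (l 535599247) (l 535419535))) (a (c (l 535477391) (l 535431823)) (c (l 535608207) (l 535428239)))))) (b (b (b (a (c (l 535486351) (l 535440527)) (c (l 535483023) (l 535437199))) (a (c (l 535495567) (l 535449487)) (c (l 535491983)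 (l 535446159)))) (b (a (l 535615631) (c (l 535500943) (l 535455119))) (a (l 535624591) (c (l 535509903) (l 535463823))))) (b (b (a (l 535633551) (l 535630223)) (a (l 535642511) (l 535639183))) (b (a (l 535651471) (l 535648143)) (a (l 535660687) (l 535657103)))))), by decide +kernel⟩

def k14_A00pm_102_s1 : ∃ t, chk3 f_A00pm_102_s1 t 2029 65 1 = true :=
  ⟨(b (b (b (a (l 3) (b (l 3) (b (l 3) (l 535528335)))) (b (a (b (l 535670415) (l 535674767)) (a (l 535468431) (l 535466895))) (a (a (l 535413647) (l 535411855)) (b (l 535675791) (l 535680143))))) (b (b (a (a (l 535422607) (l 535420815)) (b (l 535684751) (l 535689103))) (a (a (l 535431567) (l 535429775)) (a (l 535427983) (l 535426447)))) (b (a (c (l 535595919) (l 535416207)) (a (l 535436943) (l 535435407))) (a (c (l 535604879) (l 535424911)) (c (l 535601295) (l 535421583)))))) (b (b (b (a (c (l 535613839) (l 535433871)) (c (l 535610255) (l 535430543))) (a (c (l 535488655) (l 535442831)) (c (l 535619471) (l 535439503)))) (b (a (c (l 535497615) (l 535451535))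 (c (l 535494031) (l 535448207))) (a (b (l 535481743) (l 16775608)) (b (l 16775608) (l 16775528))))) (b (a (b (l 535626639) (l 535635599)) (b (b (l 16775448) (l 16775368)) (b (l 16775288) (l 16775208)))) (b (a (l 535644559) (l 535641231)) (a (l 535653775) (c (l 16774984) (l 16774904))))))), by decide +kernel⟩

def k15_A00pm_102_s1 : ∃ t, chk3 f_A00pm_102_s1 t 1015 130 1 = true :=
  ⟨(b (b (b (a (a (l 3) (c (b (l 3) (l 535669391)) (l 535487119))) (c (a (b (l 535527311) (l 535666063)) (b (l 535591055) (l 535528335))) (a (a (l 535351183) (l 535349391)) (a (l 535347855) (l 535346319))))) (a (a (b (a (l 535387791) (l 535386255)) (l 535525007)) (c (b (l 535673743) (l 535678351)) (l 535630223))) (c (a (b (l 535670415) (l 535674767)) (b (l 535532943) (l 535671439))) (a (l 535492495) (a (l 535356815) (l 535355023)))))) (a (b (a (b (l 535529359) (l 535533711)) (c (a (l 535417231) (l 535415439)) (l 535638927))) (a (b (l 535672463) (l 535676815)) (a (l 535537807) (l 535536015)))) (b (c (a (b (l 535679375) (l 535683727))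 (b (l 535675791) (l 535680399))) (a (l 535635599) (l 535565199))) (a (a (l 535534479) (l 535532687)) (a (l 535531151) (l 535529359)))))) (a (b (b (a (b (l 535681167) (l 535685775)) (b (l 535677839) (l 535682191))) (a (b (l 535690127) (l 535694479)) (b (l 535686799) (l 535691151)))) (b (a (a (l 535433615) (l 535432079)) (b (l 535695503) (l 535699855))) (a (a (l 535442575) (l 535440783)) (b (l 535704463) (l 535708815))))) (a (a (b (b (l 535409039) (l 535417999)) (b (l 535426959) (l 535435919))) (b (b (l 535407503) (l 535416463)) (b (l 535425167) (l 535434127)))) (a (b (b (l 535405711) (l 535414671)) (b (l 535423631) (l 535432591))) (b (b (l 535404175) (l 535413135)) (b (l 535421839) (l 535430799))))))), by decide +kernel⟩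

def k16_A00pm_102_s1 : ∃ t, chk3 f_A00pm_102_s1 t 1015 131 1 = true :=
  ⟨(b (a (b (b (a (c (l 535606927) (l 535427215)) (a (l 535448207) (l 535446415))) (a (c (l 535615887) (l 535435919)) (c (l 535612559) (l 535432591)))) (a (b (b (l 535466127) (l 16775600)) (b (l 16775520) (l 16775440))) (b (b (l 535462543) (l 16775512)) (b (l 16775432) (l 16775352))))) (b (a (b (b (l 535709839) (l 535714191)) (b (l 535718799) (l 535723151))) (a (b (l 535441295) (l 535450255)) (b (l 535439759) (l 535448719)))) (a (b (b (l 16775512) (l 16775432)) (b (l 16775344) (l 16775272))) (b (b (l 16775424) (l 16775344)) (b (l 16775264) (l 16775184)))))) (a (b (a (b (b (l 16775360) (l 16775280)) (c (l 16775200) (l 16775128))) (b (b (l 16775272) (l 16775200)) (c (l 16775112) (l 16775040)))) (a (b (c (l 16775048) (l 16774976)) (l 16774856)) (b (c (l 16774968) (l 16774888)) (l 16774776)))) (b (a (b (b (l 16775192) (l 16775112)) (c (l 16775032) (l 16774960))) (b (c (l 16775096) (l 16775032)) (c (l 16774944) (l 16774872)))) (a (b (l 16774840)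 (l 16774688)) (b (l 16774752) (l 16774600)))))), by decide +kernel⟩

def k17_A00pm_102_s1 : ∃ t, chk3 f_A00pm_102_s1 t 254 128 1 = true :=
  ⟨(a (l 3) (l 14)), by decide +kernel⟩

def k18_A00pm_102_s1 : ∃ t, chk3 f_A00pm_102_s1 t 508 258 1 = true :=
  ⟨(a (l 3) (a (l 3) (a (l 3) (a (l 3) (b (l 3) (b (l 3) (c (b (l 3) (l 535323535)) (l 535409551)))))))), by decide +kernel⟩

def k19_A00pm_102_s1 : ∃ t, chk3 f_A00pm_102_s1 t 508 259 1 = true :=
  ⟨(a (a (b (l 3) (b (a (l 3) (b (l 3) (a (l 535349391) (l 535347599)))) (c (a (a (l 535380111) (l 535378575)) (a (l 535376783) (l 535509391))) (a (a (l 535335567) (l 535334031)) (a (l 535332495) (l 535330703)))))) (b (a (l 3) (b (l 3) (b (l 3) (a (l 535334031) (l 535332495))))) (b (a (a (b (l 535341711) (l 535346063)) (b (l 535340175) (l 535344527))) (a (b (l 535338383) (l 535342735)) (b (l 535336847) (l 535341199)))) (a (a (c (l 535507855) (l 535329167)) (c (l 535506063) (l 535327375))) (a (c (l 535470991) (l 535325839)) (b (l 535345551) (l 535349903))))))) (a (b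 (b (a (l 3) (b (l 3) (a (l 535318671) (l 535317135)))) (a (a (b (l 535326351) (l 535330703)) (b (l 535324815) (l 535329167))) (a (b (l 535323023) (l 535327375)) (b (l 535321487) (l 535325839))))) (b (a (a (b (l 535335055) (l 535339407)) (b (l 535333519) (l 535337871))) (a (b (l 535331727) (l 535336335)) (b (l 535330191) (l 535334543)))) (a (a (b (l 535343759) (l 535348367)) (b (l 535342223) (l 535346575))) (a (b (l 535340687) (l 535345039)) (b (l 535338895) (l 535343247)))))) (a (a (b (b (b (l 3) (l 535583887)) (b (l 535319695) (l 535324303))) (b (b (l 535328655) (l 535333007)) (b (l 535337359) (l 535341711)))) (b (b (b (l 535443599) (l 535582095)) (b (l 535586703) (l 535322511))) (b (b (l 535326863) (l 535331215)) (b (l 535335567) (l 535339919))))) (a (b (b (b (l 535442063) (l 535446415)) (b (l 535584911) (l 535589263))) (b (b (l 535325327) (l 535329679)) (b (l 535334031) (l 535338383)))) (b (b (b (l 535440271) (l 535444623)) (b (l 535583375) (l 535587727))) (b (b (l 535592079) (l 535327887)) (b (l 535332495)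 (l 535336847)))))))), by decide +kernel⟩

def k20_A00pm_102_s1 : ∃ t, chk3 f_A00pm_102_s1 t 509 258 1 = true :=
  ⟨(a (a (a (a (a (b (l 3) (b (l 3) (b (l 3) (l 535301007)))) (l 14)) (l 14)) (l 14)) (l 14)) (l 14)), by decide +kernel⟩

def k21_A00pm_102_s1 : ∃ t, chk3 f_A00pm_102_s1 t 509 518 1 = true :=
  ⟨(b (a (a (a (a (b (l 535438735) (l 535443087)) (c (b (l 535324815) (l 535329167)) (l 535415439))) (a (c (b (l 535323023) (l 535327375)) (l 535413647)) (b (l 14) (c (l 535594383) (l 535282063))))) (b (l 14) (a (a (a (l 535303311) (l 14)) (l 14)) (l 14)))) (l 14)) (a (a (a (a (b (l 535447439) (l 535585935)) (b (l 535445903) (l 535584399))) (b (a (l 535511183) (c (l 535330191) (l 535286415))) (a (l 535448463) (l 535513999)))) (a (c (a (b (l 535596943) (l 535601295)) (b (l 535595407) (l 535599759))) (a (l 535419535) (c (l 535562895) (l 535541135)))) (a (c (b (l 535593615) (l 535597967)) (a (l 535282831) (l 535282063))) (b (l 14) (a (l 535307151) (l 535306383)))))) (a (a (a (a (b (l 14) (l 535305359)) (l 14))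 (l 14)) (l 14)) (l 14)))), by decide +kernel⟩

def k22_A00pm_102_s1 : ∃ t, chk3 f_A00pm_102_s1 t 509 519 1 = true :=
  ⟨(b (a (a (a (b (a (l 535590543) (l 535588751)) (a (l 535594895) (l 535593103))) (b (a (l 535587215) (l 535451279)) (a (l 535591567) (l 535589775)))) (a (a (b (l 535516815) (l 535454095)) (c (b (l 535604111) (l 535608463)) (l 535426703))) (a (c (b (l 535602575) (l 535606927)) (a (l 535291791) (l 535291023))) (c (b (l 535600783) (l 535605135)) (a (l 535290255) (l 535289487)))))) (a (a (a (c (b (l 535599247) (l 535603599)) (b (l 535286927) (l 16776248))) (a (b (l 535308175) (l 535312527)) (b (l 535307407) (l 535311759)))) (a (a (b (l 535306639) (l 535310991)) (b (l 14) (l 535310223))) (b (l 14) (a (l 535309455) (l 16776112))))) (b (l 14) (b (l 14) (a (a (l 16776048) (l 14)) (l 14)))))) (a (a (a (a (b (l 535599247) (l 535335055)) (b (l 535597455) (l 535601807))) (b (a (l 535595919) (l 535594127)) (a (l 535600271) (l 535598479)))) (a (b (a (l 535592591) (l 535523727)) (a (l 535596943) (l 535595407)))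 (a (c (b (l 535611279) (l 535615631)) (b (l 16776248) (l 16776160))) (c (b (l 535609487) (l 535614095)) (b (l 16776200) (l 16776112)))))) (a (b (a (a (c (l 535607951) (l 16776152)) (c (l 535606159) (l 16776104))) (a (a (l 16776088) (l 16776064)) (c (l 16776048) (l 16776008)))) (a (a (a (l 16776088) (l 16776064)) (a (l 16776040) (l 16776016))) (a (a (l 16775992) (l 16775968)) (a (l 16775952) (l 16775928))))) (a (a (c (b (l 16776000) (l 16775904)) (b (l 16775960) (l 16775872))) (b (c (l 16775952) (l 16775912)) (l 16775840))) (a (b (c (l 16775904) (l 16775864)) (l 16775792)) (b (l 14) (l 16775744))))))), by decide +kernel⟩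

def k23_A00pm_102_s1 : ∃ t, chk3 f_A00pm_102_s1 t 255 64 1 = true :=
  ⟨(b (l 14) (a (b (l 14) (b (l 14) (a (a (b (l 14) (b (l 14) (b (l 14) (a (l 16775648) (l 14))))) (l 14)) (l 14)))) (l 14))), by decide +kernel⟩

def k24_A00pm_102_s1 : ∃ t, chk3 f_A00pm_102_s1 t 508 520 1 = true :=
  ⟨(b (a (a (c (a (a (l 535389071) (l 535387535)) (a (l 535385743) (l 535384207))) (a (a (l 535344527) (l 535342991)) (a (l 535341199) (l 535339663)))) (a (a (c (l 535382415) (l 535337871)) (c (l 535380879) (l 535336335))) (a (a (l 535491983) (l 535490959)) (a (l 535490191) (l 535489423))))) (a (a (a (a (l 535488655) (l 535487887)) (a (l 535486863) (l 535486095))) (a (a (l 535418255) (l 535417487)) (a (l 535416463) (l 535415695)))) (a (a (b (l 535346063) (l 535350415)) (b (l 535344527) (l 535348879))) (a (b (l 535342735) (l 535347087)) (b (l 535341199) (l 535345551)))))) (a (a (c (a (a (l 535398287) (l 535396495)) (a (l 535394703) (l 535393167))) (a (a (l 535353487) (l 535351695)) (a (l 535350159) (l 535348623)))) (a (a (c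 (l 535391375) (l 535346831)) (c (l 535389839) (l 535345295))) (a (a (l 535366543) (l 535365775)) (a (l 535365007) (l 535363983))))) (a (a (a (a (l 535363215) (l 535362447)) (a (l 535361679) (l 535360911))) (a (a (l 535359887) (l 535359119)) (a (l 535358351) (l 535357583)))) (a (a (c (l 535512463) (l 535333775)) (a (l 535355023) (l 535354255))) (a (a (l 535353487) (l 535486863)) (a (l 535486095) (l 535485327))))))), by decide +kernel⟩

def k25_A00pm_102_s1 : ∃ t, chk3 f_A00pm_102_s1 t 509 520 1 = true :=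
  ⟨(a (b (b (a (a (a (l 535339407) (l 535606159)) (a (l 535604623) (l 535603087))) (a (a (l 535601295) (l 535599759)) (a (l 535597967) (a (l 16776048) (l 16776024))))) (a (a (a (l 535343759) (l 535342223)) (a (l 535608975) (l 535607439))) (a (a (l 535605647) (l 535604111)) (a (l 535602319) (a (l 16775952) (l 16775928)))))) (a (a (a (a (l 535484303) (l 535483535)) (a (l 535482767) (l 535481999))) (a (a (l 535481231) (l 535480463)) (b (l 535611791) (l 535616143)))) (a (a (b (l 535609999) (l 535614351)) (b (l 535608463) (l 16775856))) (a (b (l 535606671) (l 16775808)) (b (l 16775856) (l 16775760)))))) (a (a (a (b (c (b (l 16776008) (l 16775912)) (b (l 16775968) (l 16775880))) (b (l 16775808) (l 16775720))) (b (b (c (l 16775960) (l 16775920)) (l 16775848)) (b (l 16775760) (l 16775672)))) (a (b (b (a (l 16775904) (l 16775880)) (l 16775800)) (b (l 16775712) (l 16775624))) (b (b (l 16775848) (l 16775752)) (b (l 16775664) (l 16775576))))) (a (a (b (b (l 16775800) (l 16775704)) (b (l 16775616) (l 16775528))) (b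 (b (l 16775752) (l 16775656)) (b (l 16775568) (l 16775480)))) (a (b (b (l 16775704) (l 16775608)) (b (l 16775520) (l 16775432))) (b (b (l 16775656) (l 16775560)) (b (l 16775472) (l 16775384))))))), by decide +kernel⟩

def k26_A00pm_102_s1 : ∃ t, chk3 f_A00pm_102_s1 t 254 1042 1 = true :=
  ⟨(a (a (a (c (a (b (l 535605391) (l 535542671)) (a (l 535403663) (l 535402127))) (a (a (l 535362191) (l 535360655)) (a (l 535358863) (l 535357327)))) (a (a (c (l 535400335) (l 535355791)) (c (l 535398799) (l 535353999))) (a (a (l 535375503) (l 535374735)) (a (l 535373711) (l 535372943))))) (a (a (a (a (l 535372175) (l 535371407)) (a (l 535370639) (l 535369615))) (a (c (l 535390351) (l 535345807)) (c (l 535388815) (l 535344271)))) (a (a (c (l 535521423) (l 535342479)) (c (l 535519631) (l 535340943))) (a (c (l 535518095) (l 535339407)) (a (l 535360655) (l 535359887)))))) (b (a (a (a (a (l 535357071) (l 535355279)) (a (l 535353743) (l 16775864))) (a (a (l 16775816) (l 16775768)) (a (l 16775720) (l 16775672)))) (b (a (a (l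 16775624) (l 16775528)) (a (l 16775440) (l 16775344))) (a (a (l 16775584) (l 16775488)) (a (l 16775392) (l 16775296))))) (a (a (a (a (l 16775912) (l 16775864)) (a (l 16775816) (l 16775776))) (a (a (l 16775728) (l 16775680)) (a (l 16775632) (l 16775584)))) (a (a (c (l 16775544) (l 16775488)) (c (l 16775448) (l 16775392))) (a (c (l 16775352) (l 16775296)) (l 16775232)))))), by decide +kernel⟩

def k27_A00pm_102_s1 : ∃ t, chk3 f_A00pm_102_s1 t 254 1043 1 = true :=
  ⟨(a (a (a (a (a (l 535527823) (a (l 535392655) (l 535391631))) (a (a (l 535390863) (l 535390095)) (a (l 535389327) (l 535388559)))) (a (a (c (l 535409295) (l 535364495)) (c (l 535407759) (l 535362959))) (a (a (l 535384207) (l 535383439)) (a (l 535382671) (l 535381903))))) (a (c (a (a (l 535402639) (l 535401103)) (a (l 535399311) (l 535397775))) (a (b (l 535623055) (l 535627407)) (b (l 535619727) (l 16775968)))) (a (a (b (l 535372431) (l 16775920)) (b (l 535370639) (l 16775872))) (b (a (l 16775912) (l 16775872)) (b (l 16775824) (l 16775784))))))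 (a (b (a (a (a (l 16775824) (l 16775776)) (a (l 16775728) (l 16775688))) (c (a (l 16775640) (l 16775544)) (a (l 16775592) (l 16775496)))) (a (a (a (l 16775736) (l 16775688)) (a (l 16775640) (l 16775600))) (c (a (l 16775552) (l 16775464)) (a (l 16775504) (l 16775408))))) (b (a (a (c (l 16775456) (l 16775400)) (c (l 16775360) (l 16775304))) (a (l 16775240) (l 16775144))) (a (a (l 16775344) (l 16775248)) (a (l 16775152) (a (l 16775080) (l 16775024))))))), by decide +kernel⟩

def k28_A00pm_102_s1 : ∃ t, chk3 f_A00pm_102_s1 t 508 261 1 = true :=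
  ⟨(a (a (b (b (a (a (l 535536783) (l 535534991)) (a (l 535533455) (l 535531663))) (a (a (l 535411343) (l 535409807)) (a (l 535408015) (l 535406479)))) (b (a (a (l 535420303) (l 535418511)) (a (l 535416975) (l 535415183))) (a (a (l 535429263) (l 535427471)) (a (l 535425935) (l 535424143))))) (a (a (b (b (l 535530127) (l 535404687)) (b (l 535413647) (l 535422607))) (b (b (l 535528335) (l 535537295)) (b (l 535411855) (l 535420815)))) (a (b (b (a (l 535393167) (l 535392399)) (l 535535503)) (b (l 535410319) (l 535419279))) (b (b (a (l 535391631) (l 535390863)) (l 535533967)) (b (l 535408527) (l 535417487)))))) (a (a (a (b (b (b (l 535387791) (l 16775928)) (l 535532175)) (b (l 535541135) (l 535415951))) (b (b (b (l 535385999) (l 16775880)) (l 535530639)) (b (l 535539599) (l 535414159)))) (a (b (b (b (l 16775920) (l 16775832)) (c (l 535417231) (l 16775680))) (b (l 535537807) (l 535546767))) (b (b (b (l 16775872) (l 16775792)) (c (l 535415439) (l 16775640))) (b (l 535536271) (l 535544975))))) (a (a (b (b (b (l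 16775832) (l 16775744)) (c (l 535413903) (l 16775592))) (b (l 535534479) (l 535543439))) (b (b (b (l 16775784) (l 16775696)) (b (l 16775616) (l 16775528))) (b (c (l 16775424) (l 16775368)) (l 535541647)))) (b (b (a (b (l 16775736) (l 16775656)) (c (l 535534223) (l 16775624))) (a (b (l 16775568) (l 16775480)) (b (l 16775520) (l 16775432)))) (b (b (l 16775376) (l 16775288)) (b (l 16775208) (l 16775120))))))), by decide +kernel⟩

def k29_A00pm_102_s1 : ∃ t, chk3 f_A00pm_102_s1 t 509 261 1 = true :=
  ⟨(a (b (b (b (a (c (a (l 16775648) (l 16775560)) (a (l 16775600) (l 16775504))) (a (a (l 16775464) (l 16775416)) (l 16775344))) (a (c (a (l 16775560) (l 16775472)) (a (l 16775512) (l 16775416))) (a (l 16775352) (l 16775264)))) (a (a (b (a (l 16775472) (l 16775432)) (l 16775368)) (b (l 16775360) (l 16775272))) (a (b (l 16775264) (l 16775184)) (b (l 16775176) (l 16775088))))) (b (a (a (b (l 16775280) (l 16775200)) (b (l 16775192) (l 16775104))) (a (a (l 16775080) (l 16775032)) (a (l 16774984) (l 16774936)))) (a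 (a (a (l 16775096) (l 16775048)) (a (l 16775000) (l 16774960))) (a (a (l 16774912) (l 16774864)) (a (l 16774816) (l 16774768)))))) (b (a (b (b (a (l 16775256) (l 16775160)) (a (l 16775168) (l 16775072))) (b (a (l 16775080) (l 16774984)) (a (l 16774992) (l 16774904)))) (b (b (a (l 16775064) (a (l 16774984) (l 16774960))) (a (l 16774968) (l 16774904))) (b (a (a (l 16774912) (l 16774872)) (l 16774808)) (a (l 16774824) (l 16774728))))) (b (a (b (a (l 16774912) (l 16774808)) (a (l 16774824) (l 16774736))) (a (a (l 16774712) (l 16774672)) (a (l 16774624) (l 16774584)))) (a (b (a (l 16774728) (l 16774664)) (a (l 16774656) (l 16774576))) (c (a (l 16774568) (l 16774488)) (a (l 16774488) (l 16774408))))))), by decide +kernel⟩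

def k30_A00pm_102_s1 : ∃ t, chk3 f_A00pm_102_s1 t 508 262 1 = true :=
  ⟨(a (a (b (a (a (b (l 535437967) (l 535446927)) (b (l 535436431) (l 535445391))) (a (b (l 535434639) (l 535443599)) (b (l 535433103) (l 535442063)))) (a (b (b (l 16775336) (l 16775256)) (b (l 16775176) (l 16775096))) (b (b (l 16775248) (l 16775168)) (c (l 16775080) (l 16775016))))) (a (b (b (b (l 16775488) (l 16775408)) (b (l 16775320) (l 16775240))) (b (b (l 16775160) (l 16775080)) (c (l 16774992) (l 16774920)))) (b (b (b (l 16775400) (l 16775312)) (b (l 16775232) (l 16775152))) (b (c (l 16775064) (l 16774992)) (c (l 16774912) (l 16774832)))))) (a (a (b (b (b (l 16775312) (l 16775224)) (b (l 16775144) (l 16775064))) (b (c (l 16774976) (l 16774904)) (c (l 16774824) (l 16774744)))) (b (b (b (l 16775216) (l 16775136)) (b (l 16775056) (l 16774976))) (b (c (l 16774888) (l 16774816)) (l 16774696)))) (a (b (b (b (l 16775128) (l 16775048)) (c (l 16774960) (l 16774888))) (b (c (l 16774800) (l 16774720)) (l 16774600))) (b (b (b (l 16775040)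 (l 16774952)) (c (l 16774872) (l 16774792))) (b (l 16774672) (l 16774512)))))), by decide +kernel⟩

def k31_A00pm_102_s1 : ∃ t, chk3 f_A00pm_102_s1 t 509 262 1 = true :=
  ⟨(a (b (a (a (b (c (l 16774944) (l 16774872)) (c (l 16774784) (l 16774704))) (b (c (l 16774848) (l 16774776)) (c (l 16774688) (l 16774608)))) (b (a (a (l 16774744) (l 16774696)) (a (l 16774648) (l 16774600))) (a (a (l 16774584) (l 16774520)) (a (l 16774496) (l 16774448))))) (a (b (a (l 16774584) (a (l 16774512) (l 16774456))) (a (l 16774416) (a (l 16774344) (l 16774320)))) (a (b (a (l 16774424) (l 16774384)) (l 16774248)) (b (l 16774320) (l 16774168))))) (b (a (a (b (a (l 16774576) (l 16774520)) (l 16774384)) (b (a (l 16774480) (l 16774440)) (l 16774304))) (c (b (a (l 16774416) (l 16774336)) (a (l 16774264) (l 16774184))) (b (a (l 16774328) (l 16774240)) (a (l 16774168) (l 16774088))))) (a (a (b (l 16774232) (l 16774080)) (b (l 16774152) (l 16774000))) (a (b (l 16774064) (l 16773912)) (c (b (l 16774032) (l 16773880)) (b (l 16773928) (l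 16773768))))))), by decide +kernel⟩

def k32_A00pm_102_s1 : ∃ t, chk3 f_A00pm_102_s1 t 254 263 1 = true :=
  ⟨(a (a (b (a (a (b (c (l 16775016) (l 16774936)) (l 16774824)) (b (c (l 16774928) (l 16774848)) (l 16774736))) (a (b (c (l 16774840) (l 16774760)) (l 16774648)) (b (l 16774712) (l 16774560)))) (a (a (b (l 16774664) (l 16774512)) (b (l 16774584) (l 16774432))) (a (b (l 16774496) (l 16774344)) (b (l 16774408) (l 16774256))))) (a (b (a (b (l 16774624) (l 16774472)) (b (l 16774536) (l 16774376))) (a (b (l 16774312) (l 16774168)) (b (l 16774224) (l 16774056)))) (a (b (b (l 16774448) (l 16774288)) (b (l 16774120) (l 16774008))) (b (b (l 16774352) (l 16774192)) (b (l 16774064) (l 16773904)))))) (a (a (a (b (b (a (l 16774272) (l 16774248)) (l 16774128)) (b (l 16773968) (l 16773824))) (b (b (l 16774184) (l 16774032)) (b (l 16773888) (l 16773744)))) (a (b (b (l 16774096) (l 16773952)) (b (l 16773800) (l 16773656))) (b (b (l 16774016) (l 16773864)) (b (l 16773720) (l 16773576))))) (b (a (a (b (l 16773928) (l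 16773784)) (b (l 16773848) (l 16773696))) (a (b (l 16773760) (l 16773608)) (b (l 16773672) (l 16773528)))) (a (a (b (l 16773632) (l 16773488)) (b (l 16773552) (l 16773400))) (a (b (l 16773464) (l 16773320)) (b (l 16773376) (l 16773232))))))), by decide +kernel⟩

def k33_A00pm_102_s1 : ∃ t, chk3 f_A00pm_102_s1 t 510 260 1 = true :=
  ⟨(a (b (b (a (b (b (a (l 16775608) (l 14)) (a (l 16775560) (l 16775464))) (a (a (l 16775512) (l 16775464)) (c (l 16775424) (l 16775368)))) (a (a (b (l 14) (l 16775320)) (l 14)) (l 14))) (b (b (a (a (l 16775424) (l 16775320)) (a (l 16775248) (l 14))) (a (a (l 16775376) (l 16775272)) (a (l 16775192) (l 16775112)))) (a (a (c (l 16775336) (l 16775288)) (a (l 16775232) (l 16775200))) (c (a (l 16775160) (l 16775080)) (a (l 16775104) (l 16775016)))))) (a (b (a (b (c (l 16775248) (l 16775192)) (a (l 16775160) (l 16775112))) (b (a (l 16775160) (l 16775112)) (l 16775048))) (b (a (a (l 16775072) (l 16775032)) (l 16774968)) (a (l 16774976) (l 16774880)))) (b (b (a (l 16775048) (l 16774960))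 (a (l 16774960) (l 16774880))) (b (a (l 16774880) (l 16774792)) (a (l 16774800) (l 16774712)))))) (b (a (a (a (b (l 14) (c (l 16775056) (l 16774992))) (l 14)) (l 14)) (l 14)) (a (b (b (c (a (l 16774912) (l 16774824)) (a (l 16774840) (l 16774752))) (a (l 16774792) (a (l 16774728) (l 16774688)))) (b (a (l 16774712) (a (l 16774648) (l 16774600))) (a (l 16774624) (l 16774544)))) (a (b (a (a (l 16774696) (l 14)) (l 14)) (c (a (l 16774560) (l 16774512)) (l 16774456))) (b (l 14) (c (a (l 16774472) (l 16774432)) (l 16774368))))))), by decide +kernel⟩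

def k34_A00pm_102_s1 : ∃ t, chk3 f_A00pm_102_s1 t 510 261 1 = true :=
  ⟨(a (b (a (a (a (b (l 16774864) (l 16774704)) (b (l 16774824) (l 16774664))) (a (b (l 16774784) (l 16774616)) (b (l 16774736) (l 16774576)))) (b (b (a (l 16774720) (l 16774632)) (a (l 16774632) (l 16774552))) (a (a (l 16774536) (l 16774488)) (a (l 16774448) (l 16774408))))) (b (b (a (a (l 16774560) (l 16774480)) (a (l 16774392) (l 16774304))) (a (a (l 16774480) (l 16774400)) (a (l 16774312) (l 16774224)))) (a (a (a (l 16774384) (l 16774344)) (a (l 16774296) (l 16774256))) (a (a (l 16774216) (l 16774168)) (a (l 16774128) (l 16774080)))))) (b (b (a (a (a (l 16774528) (l 16774480)) (b (l 16774456) (l 16774376))) (a (b (a (l 16774392) (l 16774352)) (l 16774288)) (c (a (l 16774312) (l 16774264)) (l 16774200)))) (b (a (a (l 16774384) (l 16774296)) (a (l 16774208) (a (l 16774144) (l 16774096)))) (a (a (l 16774296) (l 16774216)) (a (l 16774128) (l 16774040))))) (b (b (a (a (l 16774216) (l 16774128)) (a (l 16774048) (l 16773960))) (a (a (l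 16774136) (l 16774048)) (a (l 16773960) (l 16773872)))) (b (a (a (l 16774056) (l 16773968)) (a (l 16773880) (l 16773792))) (a (a (l 16773976) (l 16773888)) (a (l 16773800) (l 16773712))))))), by decide +kernel⟩

def k35_A00pm_102_s1 : ∃ t, chk3 f_A00pm_102_s1 t 510 262 1 = true :=
  ⟨(b (b (b (a (a (a (l 16774240) (l 16774160)) (a (l 16774072) (l 16773984))) (a (a (l 16773896) (l 16773808)) (a (l 16773720) (l 16773632)))) (a (a (a (l 16774168) (l 16774080)) (a (l 16773992) (l 16773904))) (a (a (l 16773816) (l 16773728)) (a (l 16773640) (l 16773552))))) (b (a (a (a (l 16774088) (l 16774000)) (a (l 16773912) (l 16773832))) (a (a (l 16773744) (l 16773656)) (a (l 16773568) (l 16773472)))) (a (a (a (l 16774008) (l 16773920)) (a (l 16773840) (l 16773752))) (a (a (l 16773664) (l 16773576)) (a (l 16773488) (l 16773400)))))) (b (b (a (a (a (l 16773928) (l 16773848)) (a (l 16773760) (l 16773672))) (a (a (l 16773584) (l 16773496)) (a (l 16773408) (l 16773320)))) (a (a (a (l 16773856) (l 16773768)) (a (l 16773680)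 (l 16773592))) (a (a (l 16773504) (l 16773416)) (a (l 16773328) (l 16773240))))) (b (a (a (a (l 16773776) (l 16773696)) (a (l 16773608) (l 16773520))) (a (a (l 16773432) (l 16773344)) (a (l 16773256) (l 16773160)))) (a (a (a (l 16773704) (l 16773616)) (a (l 16773528) (l 16773440))) (a (a (l 16773352) (l 16773264)) (a (l 16773176) (l 16773088))))))), by decide +kernel⟩

def k36_A00pm_102_s1 : ∃ t, chk3 f_A00pm_102_s1 t 510 263 1 = true :=
  ⟨(b (b (b (a (a (a (l 16773624) (l 16773536)) (a (l 16773456) (l 16773368))) (a (a (l 16773280) (l 16773192)) (a (l 16773096) (l 16773008)))) (a (a (a (l 16773552) (l 16773464)) (a (l 16773376) (l 16773288))) (a (a (l 16773200) (l 16773112)) (a (l 16773024) (l 16772936))))) (b (a (a (a (l 16773472) (l 16773392)) (a (l 16773304) (l 16773216))) (a (a (l 16773128) (l 16773040)) (a (l 16772944) (l 16772856)))) (a (a (a (l 16773400) (l 16773312)) (a (l 16773224) (l 16773136))) (a (a (l 16773048) (l 16772960)) (a (l 16772872) (c (l 16772856) (l 16772704))))))) (b (a (a (a (c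 (l 16773352) (l 16773224)) (c (l 16773272) (l 16773136))) (a (c (l 16773184) (l 16773048)) (c (l 16773096) (l 16772960)))) (a (a (a (l 16772960) (l 16772912)) (a (l 16772872) (l 16772824))) (a (a (l 16772784) (l 16772736)) (a (l 16772688) (a (l 16772656) (l 16772632)))))) (a (a (a (l 16773144) (c (l 16773128) (l 16772984))) (a (c (l 16773040) (l 16772896)) (c (l 16772952) (l 16772808)))) (a (a (c (l 16772864) (l 16772712)) (a (l 16772720) (l 16772680))) (a (a (l 16772632) (l 16772584)) (a (l 16772544) (l 16772496))))))), by decide +kernel⟩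

def k37_A00pm_102_s1 : ∃ t, chk3 f_A00pm_102_s1 t 511 130 1 = true :=
  ⟨(b (a (a (b (l 14) (a (a (a (b (l 14) (l 16774352)) (l 14)) (l 14)) (l 14))) (l 14)) (l 14)) (a (b (a (a (c (b (a (l 16774224) (l 16774184)) (a (l 16774064) (l 16774016))) (b (l 16774104) (l 16773936))) (c (b (a (l 16774136) (l 16774096)) (a (l 16773976) (l 16773928))) (b (l 16774016) (l 16773848)))) (a (c (b (a (l 16774048) (l 14)) (a (l 16773888) (l 16773840))) (b (l 16773928) (l 16773760))) (b (l 14) (c (a (l 16773800) (l 16773752)) (l 16773664))))) (c (a (a (a (b (l 16773904) (l 16773744)) (b (l 16773856) (l 16773704))) (a (b (l 16773816) (l 16773656)) (b (l 16773768) (l 16773616)))) (a (a (b (l 16773728) (l 16773568)) (b (l 16773680) (l 16773520))) (a (b (l 16773640) (l 16773480)) (b (l 16773592) (l 16773432))))) (b (a (a (l 16773776) (l 16773680)) (a (l 16773592) (l 16773496))) (a (a (l 16773608) (l 16773520)) (a (l 16773424) (l 16773336)))))) (a (b (a (b (l 14) (a (a (l 16773664) (l 14)) (l 14))) (l 14)) (c (a (a (b (l 16773552)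 (l 16773392)) (b (l 16773504) (l 16773344))) (a (b (l 16773456) (l 16773304)) (b (l 16773416) (l 16773256)))) (b (a (l 16773408) (l 16773312)) (a (l 16773240) (l 16773152))))) (b (l 14) (b (a (a (a (l 16773320) (l 14)) (l 14)) (l 14)) (a (c (a (l 16773208) (l 16773168)) (l 16773056)) (a (c (l 16773120) (l 16772984)) (a (l 16773016) (a (l 16773000) (l 16772984)))))))))), by decide +kernel⟩

def k38_A00pm_102_s1 : ∃ t, chk3 f_A00pm_102_s1 t 1022 131 1 = true :=
  ⟨(a (b (a (a (b (b (l 16773528) (l 16773368)) (b (l 16773216) (l 16773056))) (b (b (l 16773480) (l 16773328)) (b (l 16773168) (l 16773016)))) (b (a (b (l 16773440) (l 16773280)) (a (b (l 16773408) (l 16773248)) (b (l 16773384) (l 16773224)))) (b (c (a (l 16773192) (l 16773144)) (l 16773032)) (c (a (l 16773040) (l 16772992)) (l 16772872))))) (b (b (c (a (a (l 16772976) (l 16772928)) (a (l 16772888) (l 16772840))) (a (l 16772808) (l 16772720))) (c (b (a (l 16772840) (l 16772752)) (a (l 16772768) (l 16772680))) (a (l 16772656) (l 16772560)))) (b (c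 (b (a (l 16772696) (l 16772600)) (a (l 16772616) (l 16772528))) (a (l 16772496) (l 16772408))) (c (a (a (l 16772536) (l 16772488)) (a (l 16772440) (l 16772400))) (a (l 16772344) (l 16772256)))))) (c (b (b (a (a (b (l 16773408) (l 16773256)) (b (l 16773368) (l 16773208))) (a (b (l 16773320) (l 16773168)) (b (l 16773280) (l 16773120)))) (a (a (b (l 16773104) (l 16772944)) (b (l 16773056) (l 16772904))) (a (b (l 16773008) (l 16772856)) (b (l 16772968) (l 16772816))))) (b (a (a (b (l 16772800) (l 16772648)) (b (l 16772752) (l 16772600))) (a (b (l 16772704) (l 16772560)) (b (l 16772664) (l 16772512)))) (a (a (b (l 16772496) (l 16772352)) (b (l 16772456) (l 16772304))) (a (b (l 16772408) (l 16772264)) (b (c (l 16772400) (l 16772320)) (l 16772216)))))) (b (b (b (a (l 16773264) (l 16773168)) (a (l 16773104) (l 16773008))) (b (a (l 16772944) (l 16772848)) (a (l 16772784) (l 16772688)))) (b (b (a (l 16772624) (l 16772528)) (a (l 16772464) (l 16772376))) (b (a (l 16772312) (l 16772216)) (a (l 16772160) (l 16772064))))))),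 by decide +kernel⟩

def k39_A00pm_102_s1 : ∃ t, chk3 f_A00pm_102_s1 t 2046 131 1 = true :=
  ⟨(c (a (a (b (b (b (l 16773232) (l 16773072)) (b (l 16772920) (l 16772768))) (b (b (l 16772616) (l 16772464)) (b (c (l 16772360) (l 16772272)) (l 16772168)))) (b (b (b (l 16773184) (l 16773032)) (b (l 16772872) (l 16772720))) (b (b (l 16772568) (c (l 16772464) (l 16772376))) (b (c (l 16772312) (l 16772232)) (c (l 16772168) (l 16772080)))))) (a (b (b (b (l 16773144) (l 16772984)) (b (l 16772832) (l 16772680))) (b (b (c (l 16772568) (l 16772488)) (c (l 16772416) (l 16772336))) (b (c (l 16772264) (l 16772184)) (c (l 16772120) (l 16772032))))) (b (b (b (l 16773096) (l 16772936)) (b (l 16772784) (l 16772632))) (b (b (c (l 16772520) (l 16772440)) (c (l 16772368) (l 16772288))) (b (a (l 16772192) (l 16772168)) (c (l 16772072) (l 16771984))))))) (b (b (b (a (l 16773080) (l 16772984)) (a (l 16772912) (l 16772824))) (b (a (l 16772752) (l 16772664)) (a (l 16772592) (l 16772504)))) (b (b (a (l 16772440) (l 16772344)) (a (l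 16772280) (l 16772184))) (b (a (l 16772128) (l 16772032)) (a (l 16771968) (l 16771880)))))), by decide +kernel⟩

def k40_A00pm_102_s1 : ∃ t, chk3 f_A00pm_102_s1 t 2047 131 1 = true :=
  ⟨(b (b (c (b (a (a (l 16773048) (l 16773008)) (a (l 16772960) (a (l 16772928) (l 16772904)))) (a (a (l 16772896) (l 16772848)) (a (l 16772800) (a (l 16772768) (l 16772744))))) (a (a (l 16772832) (l 16772784)) (a (l 16772736) (a (l 16772704) (l 16772680))))) (a (a (b (c (l 16772736) (l 16772592)) (b (l 16772544) (l 16772472))) (b (a (l 16772632) (l 16772608)) (c (c (l 16772576) (l 16772496)) (l 16772384)))) (b (a (b (l 16772608) (l 16772528)) (c (a (l 16772616) (l 16772592)) (l 16772448))) (a (c (c (l 16772536) (l 16772456)) (l 16772336)) (c (b (l 16772488) (l 16772408)) (l 16772288)))))) (a (b (a (c (b (c (l 16772472) (l 16772392)) (a (l 16772296) (l 16772272))) (l 16772192)) (c (b (c (l 16772424) (l 16772344)) (a (l 16772248) (l 16772224))) (l 16772144))) (b (a (c (a (l 16772144) (l 16772120)) (l 16771960)) (c (a (l 16772096)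 (l 16772072)) (l 16771912))) (c (a (a (l 16772000) (l 16771976)) (a (l 16771952) (l 16771928))) (l 16771784)))) (a (b (c (b (a (l 16772352) (l 16772328)) (a (l 16772200) (l 16772176))) (l 16772096)) (b (c (b (l 16772080) (l 16772000)) (l 16771864)) (c (a (l 16771904) (l 16771880)) (l 16771712)))) (a (b (c (b (l 16772304) (l 16772152)) (l 16772064)) (c (b (a (l 16772008) (l 16772000)) (l 16771856)) (l 16771752))) (b (c (b (a (l 16772288) (l 16772280)) (a (l 16772136) (l 16772128))) (l 16772040)) (c (b (b (l 16772016) (l 16771944)) (b (l 16771872) (l 16771800))) (l 16771728))))))), by decide +kernel⟩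

def k41_A00pm_102_s1 : ∃ t, chk3 f_A00pm_102_s1 t 124 66 1 = true :=
  ⟨(a (l 3) (a (l 3) (b (l 3) (b (l 3) (a (b (l 3) (c (l 535919759) (a (l 535872655) (l 535865231)))) (b (a (b (l 3) (l 535870095)) (b (l 535852943) (l 535862415))) (c (l 535904143) (a (l 535857551) (l 535850127))))))))), by decide +kernel⟩

def k42_A00pm_102_s1 : ∃ t, chk3 f_A00pm_102_s1 t 250 66 1 = true :=
  ⟨(b (b (l 3) (a (l 3) (b (a (l 3) (b (l 3) (a (l 3) (a (l 3) (b (l 3) (l 535729039)))))) (a (a (l 3) (a (l 3) (b (l 3) (l 535759759)))) (a (a (b (l 3) (l 535756175)) (c (l 535771791) (b (l 535718287) (l 535727503)))) (b (c (l 535762063) (a (l 535714447) (l 535710863))) (a (l 535748751) (l 535745167)))))))) (b (a (a (b (l 3) (b (l 3) (a (l 535836047) (l 535828367)))) (a (b (l 3) (b (l 535811471) (l 535820943))) (b (c (l 535814543) (b (l 3) (l 535769487))) (b (l 535804047) (l 535813519))))) (a (b (c (a (l 535806863) (l 535799439)) (a (b (c (l 535765391) (l 535740047)) (l 535762063)) (b (l 535745423) (l 535754639)))) (a (b (l 535796623)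 (l 535806095)) (b (l 535789199) (l 535798671)))) (b (a (c (l 535792015) (b (l 535737999) (l 535747215))) (c (l 535784591) (b (l 535730575) (l 535740047)))) (a (b (l 535781775) (l 535791247)) (b (l 535774351) (l 535783823)))))) (b (a (a (c (a (l 535875215) (l 535867535)) (a (l 535823759) (l 535816335))) (c (a (l 535859855) (l 535852431)) (a (l 535808911) (l 535801487)))) (c (a (a (l 535844751) (l 535837327)) (a (l 535829903) (l 535822479))) (a (a (l 535794063) (l 535786639)) (a (l 535779215) (l 535771791))))) (a (a (a (l 535868303) (l 535860879)) (a (l 535853455) (l 535845775))) (a (a (l 535838351) (l 535830927)) (a (l 535823503) (l 535816079))))))), by decide +kernel⟩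

def k43_A00pm_102_s1 : ∃ t, chk3 f_A00pm_102_s1 t 1004 66 1 = true :=
  ⟨(a (b (b (l 3) (b (b (a (l 3) (b (l 3) (l 535712399))) (c (l 535745167) (a (l 535698063) (l 535694479)))) (a (c (l 535760783) (b (l 535707279) (l 535716495))) (b (l 535694991) (l 535737743))))) (b (b (c (l 535777167) (b (l 535723407) (l 535732623))) (b (l 535766927) (l 535776399))) (b (c (l 535814799) (l 535764623)) (l 535808655)))) (b (b (a (l 3) (b (l 3) (a (l 3) (b (l 3) (b (l 3) (l 535695247)))))) (b (b (a (b (l 535670671) (l 535708815)) (b (l 535700623) (l 535705231))) (c (l 535737743) (a (l 535690895) (l 535687311)))) (a (b (l 535724943) (l 535734159)) (b (l 535721103) (l 535730575))))) (b (b (c (l 535769743) (b (l 535715983) (l 535725455))) (a (l 535765903) (l 535762319))) (b (c (l 535807375) (l 535757199)) (l 535801231))))), by decide +kernel⟩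

def k44_A00pm_102_s1 : ∃ t, chk3 f_A00pm_102_s1 t 1005 66 1 = true :=
  ⟨(a (b (b (b (l 3) (b (l 3) (c (c (l 535724175) (l 535699599)) (a (b (l 3) (l 535667855)) (b (l 535659663) (l 535664271)))))) (b (c (b (l 535721103) (l 535730575)) (b (a (c (l 535686799) (l 535662223)) (l 535670927)) (a (l 535683727) (l 535680143)))) (a (b (l 535717519) (l 535726735)) (b (l 535713935) (l 535723151))))) (b (b (c (l 535762319) (b (l 535708815) (l 535718031))) (a (l 535758735) (l 535755151))) (b (b (l 535771023) (l 535780239)) (l 535793807)))) (b (b (b (l 3) (b (b (c (l 535693199) (a (l 3) (c (l 535655567) (l 535630991)))) (c (l 535697807) (a (l 535651471) (l 535647887)))) (b (c (l 535702415) (a (l 535656079) (l 535652495))) (a (l 535685007) (l 535681423))))) (b (c (b (l 535713935) (l 535723151)) (b (a (l 535667343) (l 535663759)) (a (l 535676303) (l 535672719)))) (a (b (l 535710351) (l 535719567)) (b (l 535706767) (l 535715983))))) (b (b (b (c (l 535751055) (l 535701647)) (l 535735695)) (b (l 535744911) (l 535754383)))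 (b (b (l 535763599) (l 535772815)) (l 535786383))))), by decide +kernel⟩

def k45_A00pm_102_s1 : ∃ t, chk3 f_A00pm_102_s1 t 1006 66 1 = true :=
  ⟨(a (b (b (b (b (l 3) (c (a (l 535681167) (l 535677583)) (a (b (l 3) (a (l 535636367) (l 535634575))) (a (b (l 3) (l 535632783)) (b (l 535626383) (l 535630991)))))) (b (b (c (l 535686031) (a (l 535639695) (l 535636111))) (c (l 535690639) (a (l 535644303) (l 535640719)))) (a (b (l 535673231) (l 535677839)) (b (l 535669647) (l 535674255))))) (b (b (c (l 535706511) (a (l 535660175) (l 535656591))) (a (l 535693711) (l 535690127))) (a (b (l 535702927) (l 535712399)) (b (l 535699343) (l 535708815))))) (b (b (b (c (l 535743631) (l 535694223)) (l 535728271)) (b (l 535737743) (l 535746959))) (b (b (l 535756175) (l 535765647)) (l 535778959)))) (b (b (b (b (a (a (l 3) (b (l 3) (b (l 3) (l 535643791)))) (c (l 535661199) (a (b (l 3) (l 535616399)) (c (l 535624335) (b (l 535598223) (l 535602575)))))) (c (a (l 535673999) (l 535670415)) (a (a (b (l 535624591) (l 535629199)) (b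 (l 535622799) (l 535627407))) (c (l 535634063) (b (l 535607951) (l 535612303)))))) (b (b (c (l 535678607) (a (l 535632527) (l 535629199))) (a (l 535627919) (l 535657871))) (a (b (l 535666063) (l 535670671)) (c (l 535688847) (l 535640207))))) (b (b (c (l 535699343) (a (l 535653007) (l 535649423))) (a (l 535686543) (l 535682959))) (a (b (l 535695759) (l 535704975)) (b (l 535692175) (l 535701391))))) (b (b (b (c (l 535736463) (l 535687055)) (l 535721103)) (b (l 535730319) (l 535739535))) (b (b (l 535749007) (l 535758223)) (l 535771791))))), by decide +kernel⟩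

def k46_A00pm_102_s1 : ∃ t, chk3 f_A00pm_102_s1 t 1007 66 1 = true :=
  ⟨(a (b (b (b (b (c (a (l 535657615) (l 535654031)) (b (a (c (l 535619471) (a (l 535596431) (l 535594639))) (a (l 535604879) (l 535603087))) (b (a (l 535610767) (l 535607183)) (a (l 535613071) (l 535609487))))) (c (a (l 535666831) (l 535663247)) (a (c (l 535630479) (b (l 535604367) (l 535608975))) (b (l 535612815) (l 535617423))))) (b (b (c (l 535671439) (a (l 535625615) (l 535622031))) (a (l 535654287) (l 535650703))) (c (a (l 535685263) (l 535681679)) (a (l 535636623) (l 535633039))))) (b (b (c (l 535691919) (a (l 535645839) (l 535642255))) (a (l 535679375) (l 535675791))) (a (b (l 535688591) (l 535697807)) (b (l 535685007) (l 535694223))))) (b (b (b (c (l 535729039) (l 535679887)) (l 535713679)) (b (l 535723151) (l 535732367))) (b (b (l 535741583) (l 535751055)) (l 535764367)))) (a (b (b (b (b (c (l 535650447) (a (b (l 535601295) (l 535605903)) (b (l 535599503) (l 535604111)))) (c (l 535659663) (b (l 535609231) (l 535613839)))) (b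 (b (l 535642511) (l 535647119)) (c (l 535678095) (l 535629455)))) (b (b (l 535662991) (l 535672207)) (b (l 535681423) (l 535690639)))) (b (b (b (l 535699855) (l 535709071)) (l 535722383)) (b (l 535741071) (l 535759759)))) (b (b (b (b (a (c (l 535647887) (b (l 535581071) (l 535602319))) (c (l 535646095) (b (l 535596175) (l 535600527)))) (c (l 535656079) (c (l 535619983) (b (l 535593871) (l 535598223))))) (b (b (a (l 535640207) (l 535638415)) (l 535643535)) (c (l 535674511) (l 535626127)))) (b (b (c (l 535683727) (l 535635087)) (l 535668623)) (b (l 535677839) (l 535687055)))) (b (b (b (l 535696271) (l 535705487)) (l 535718799)) (b (l 535737487) (l 535756175)))))), by decide +kernel⟩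

def k47_A00pm_102_s1 : ∃ t, chk3 f_A00pm_102_s1 t 1008 132 1 = true :=
  ⟨(a (a (b (b (b (a (c (l 535644303) (b (l 535594383) (l 535598735))) (c (l 535642511) (b (l 535592591) (l 535597199)))) (c (l 535652495) (c (l 535616399) (b (l 535590287) (l 535594895))))) (b (c (l 535661711) (c (l 535625359) (l 535601295))) (c (l 535670927) (l 535622543)))) (b (b (c (l 535680143) (l 535631503)) (l 535665039)) (b (l 535674255) (l 535683471)))) (b (b (b (a (c (l 535640719) (b (l 535590799) (l 535595407))) (c (l 535638927) (b (l 535589007) (l 535593615)))) (c (l 535648911) (b (l 535598735) (l 535603343)))) (b (c (l 535658127) (c (l 535622031) (l 535597711))) (c (l 535667343) (l 535618959)))) (b (b (c (l 535676559) (l 535628175)) (l 535661455)) (b (l 535670671) (l 535679887))))) (a (b (b (b (c (b (l 535634063) (l 535638671)) (a (b (l 535587215) (l 535591823)) (b (l 535585679) (l 535590031)))) (c (l 535645327) (b (l 535595151) (l 535599759)))) (b (c (l 535654543) (b (l 535604367) (l 535608975))) (c (l 535663759) (l 535615375))))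 (b (b (c (l 535672975) (l 535624591)) (l 535657871)) (b (l 535667087) (l 535676303)))) (b (b (b (b (c (l 535630479) (c (l 535594639) (l 535570831))) (a (l 535612303) (l 535610511))) (c (l 535641743) (b (l 535591823) (l 535596175)))) (b (b (l 535624847) (l 535629455)) (c (l 535660175) (l 535612047)))) (b (b (c (l 535669391) (l 535621007)) (l 535654287)) (b (l 535663503) (l 535672719)))))), by decide +kernel⟩

def k48_A00pm_102_s1 : ∃ t, chk3 f_A00pm_102_s1 t 1009 132 1 = true :=
  ⟨(a (b (b (b (c (a (l 535628943) (l 535625359)) (a (b (l 535579279) (l 535583631)) (a (l 535578767) (l 535576975)))) (c (a (l 535638159) (l 535634575)) (a (b (l 535588239) (l 535592847)) (b (l 535584655) (l 535589263))))) (b (a (b (l 535621263) (l 535625871)) (b (l 535617679) (l 535622287))) (c (a (l 535656591) (l 535653007)) (a (l 535608463) (l 535604879))))) (b (b (a (c (l 535665807) (l 535617423)) (c (l 535662223) (l 535614095))) (a (l 535650959) (l 535647375))) (b (a (l 535659919) (l 535656591)) (a (l 535669135) (l 535665551)))))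 (b (b (b (a (c (l 535621775) (a (l 535575439) (l 535573647))) (c (l 535618191) (b (l 535568783) (l 535573135)))) (c (a (l 535630991) (l 535627407)) (a (b (l 535581327) (l 535585679)) (b (l 535577743) (l 535582351))))) (b (a (b (l 535614351) (l 535618703)) (b (l 535610767) (l 535615375))) (a (c (l 535649423) (l 535601295)) (c (l 535645839) (l 535597967))))) (b (b (a (c (l 535658639) (l 535610511)) (c (l 535655055) (l 535606927))) (a (l 535643791) (l 535640207))) (b (a (l 535653007) (l 535649423)) (a (l 535662223) (l 535658639)))))), by decide +kernel⟩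

def k49_A00pm_102_s1 : ∃ t, chk3 f_A00pm_102_s1 t 1010 132 1 = true :=
  ⟨(a (b (b (b (a (c (l 535614863) (b (l 535565199) (l 535569807))) (b (l 535585423) (l 535590031))) (a (c (l 535623823) (b (l 535574159) (l 535578767))) (b (l 535594639) (l 535599247)))) (b (a (b (l 535607183) (l 535611791)) (b (l 535603599) (l 535608207))) (a (c (l 535642255) (l 535594383)) (c (l 535638671) (l 535590799))))) (b (b (a (c (l 535651471) (l 535603599)) (b (l 535622031) (l 16775608))) (a (l 535636623) (l 535633039))) (b (a (l 535645839) (l 535642255)) (a (l 535655055) (l 535651471))))) (b (b (b (a (c (l 535607695) (l 535560335)) (c (l 535604111) (l 535556751))) (a (b (l 535591055) (l 535595663)) (c (l 535613327) (l 535565711)))) (b (a (c (l 535626127) (l 535578255)) (c (l 535622543) (l 535574927))) (a (c (l 535635343) (l 535587471)) (c (l 535631759) (l 535583887))))) (b (b (a (b (l 535618447) (l 16775536)) (b (l 16775528) (l 16775464))) (a (l 535629711) (l 535626127))) (b (a (l 535638671) (l 535635343)) (a (l 16775160)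 (l 16775080)))))), by decide +kernel⟩

def k50_A00pm_102_s1 : ∃ t, chk3 f_A00pm_102_s1 t 1011 132 1 = true :=
  ⟨(a (b (b (b (a (b (l 535574927) (l 535579535)) (b (l 535571599) (l 535575951))) (a (c (l 535609743) (l 535562383)) (c (l 535606159) (l 535558799)))) (b (a (c (l 535618959) (l 535571343)) (b (l 535589775) (l 16775592))) (a (b (l 535602319) (l 16775528)) (b (l 16775520) (l 16775448))))) (b (b (a (b (l 16775456) (l 16775384)) (b (l 16775376) (l 16775312))) (a (l 535622543) (l 535618959))) (b (a (l 535631759) (l 16775064)) (b (l 16775000) (l 16774936))))) (b (b (b (a (b (l 535568015) (l 535572623)) (b (l 535564687) (l 535569039))) (a (b (l 535577231) (l 16775664)) (b (l 16775656) (l 16775584)))) (b (a (b (l 16775592) (l 16775512)) (b (l 16775512) (l 16775440))) (a (b (l 16775440) (l 16775376)) (b (l 16775368) (l 16775296))))) (b (b (a (c (l 16775304) (l 16775232)) (l 535602831)) (a (l 535615631) (l 535612047))) (b (b (l 16774984) (l 16774920)) (b (l 16774848) (l 16774784)))))), by decide +kernel⟩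

def k51_A00pm_102_s1 : ∃ t, chk3 f_A00pm_102_s1 t 253 264 1 = true :=
  ⟨(b (a (a (a (b (a (b (l 535561103) (l 16775656)) (b (l 16775648) (l 16775576))) (a (b (l 16775576) (l 16775504)) (b (l 16775496) (l 16775424)))) (b (a (l 535556239) (l 535552655)) (a (b (l 16775424) (l 16775344)) (c (l 16775336) (l 16775272))))) (a (b (a (l 535549327) (l 535545743)) (a (l 535558287) (l 535554703))) (b (a (l 535542415) (l 535538831)) (a (l 535551375) (l 535547791))))) (a (a (a (b (l 535803791) (l 16774896)) (b (l 535800463) (l 16774816))) (a (b (l 16774880) (l 16774728)) (b (l 16774792) (l 16774648)))) (a (a (b (l 16774712) (l 16774560)) (b (l 16774624) (l 16774480))) (a (b (l 16774536) (l 16774392)) (b (l 16774456) (l 16774304)))))) (a (a (a (b (a (b (l 16775432) (l 16775360)) (l 535644815)) (a (c (l 16775288) (l 16775216)) (l 535586959))) (b (a (l 535641487) (l 535704975)) (a (l 535650447) (l 535714191)))) (a (b (a (l 535701647) (l 535698063)) (a (l 16774936) (l 16774856))) (b (a (l 16774912) (l 16774832)) (a (l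 16774768) (l 16774688))))) (a (a (a (b (l 16774752) (l 16774608)) (b (l 16774672) (l 16774528))) (a (b (l 16774584) (l 16774440)) (b (l 16774504) (l 16774360)))) (a (a (b (l 16774416) (l 16774272)) (b (l 16774336) (l 16774192))) (a (b (l 16774248) (l 16774104)) (b (l 16774160) (l 16774016))))))), by decide +kernel⟩

def k52_A00pm_102_s1 : ∃ t, chk3 f_A00pm_102_s1 t 253 265 1 = true :=
  ⟨(a (a (a (b (b (a (l 535599503) (l 16775032)) (b (l 16774968) (l 16774896))) (b (b (l 16774832) (l 16774760)) (c (l 16774712) (l 16774608)))) (b (b (a (l 16774952) (l 16774872)) (b (l 16774808) (l 16774736))) (b (c (l 16774688) (l 16774584)) (c (l 16774552) (l 16774448))))) (a (b (b (a (l 16774792) (l 16774712)) (a (l 16774656) (l 16774576))) (b (c (l 16774528) (l 16774424)) (c (l 16774392) (l 16774288)))) (b (a (b (l 16774632) (l 16774488)) (b (l 16774552) (l 16774408))) (b (c (l 16774368) (l 16774264)) (l 16774176))))) (b (a (c (a (b (l 16774480) (l 16774344)) (b (l 16774312) (l 16774176))) (a (b (l 16774376) (l 16774232))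 (b (l 16774208) (l 16774064)))) (a (b (c (l 16774144) (l 16774032)) (l 16773952)) (b (l 16773920) (l 16773784)))) (a (a (b (l 16774152) (l 16774016)) (b (l 16773984) (l 16773848))) (b (a (l 16773816) (l 16773624)) (a (l 16773680) (c (l 16773576) (l 16773440))))))), by decide +kernel⟩

def k53_A00pm_102_s1 : ∃ t, chk3 f_A00pm_102_s1 t 252 133 1 = true :=
  ⟨(a (b (a (b (a (b (a (l 535692687) (l 535689103)) (a (l 535701903) (l 535698319))) (b (a (l 535685519) (l 535681935)) (a (l 535694735) (l 535691151)))) (a (b (l 535708559) (l 535717775)) (b (l 535701391) (l 535710607)))) (a (a (b (b (l 535678351) (l 535687567)) (l 535700879)) (b (b (l 535674767) (l 16775264)) (l 535697295))) (a (b (b (l 535671439) (l 16775192)) (l 535693711)) (b (b (l 535667855) (l 16775120)) (b (l 16774992) (l 16774864)))))) (a (b (a (b (l 535726991) (l 535736463)) (b (l 535719823) (l 16774944))) (a (b (l 16774960) (l 16774840)) (b (l 16774824) (l 16774704)))) (a (b (b (l 16774920) (l 16774800)) (b (l 16774680) (l 16774560))) (b (b (l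 16774776) (l 16774656)) (b (l 16774536) (l 16774416)))))) (a (b (b (a (b (b (l 16775168) (l 16775104)) (b (l 16775040) (l 16774976))) (b (b (l 16775024) (l 16774952)) (c (l 16774904) (l 16774808)))) (a (b (c (l 16774928) (l 16774832)) (l 16774752)) (b (l 16774728) (l 16774600)))) (a (b (b (l 16774624) (l 16774504)) (b (l 16774384) (l 16774264))) (b (b (l 16774480) (l 16774352)) (b (l 16774232) (l 16774120))))) (a (b (b (a (b (l 16774872) (l 16774744)) (b (l 16774800) (l 16774664))) (b (l 16774576) (l 16774448))) (b (b (l 16774328) (l 16774208)) (b (l 16774088) (l 16773968)))) (b (b (b (c (l 16774728) (l 16774632)) (l 16774552)) (b (l 16774424) (l 16774296))) (b (b (l 16774176) (l 16774048)) (b (l 16773928) (l 16773816))))))), by decide +kernel⟩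

def k54_A00pm_102_s1 : ∃ t, chk3 f_A00pm_102_s1 t 253 133 1 = true :=
  ⟨(a (a (a (b (b (b (c (l 16774576) (l 16774472)) (l 16774392)) (b (l 16774264) (l 16774144))) (b (a (l 16773992) (l 16773920)) (l 16773720))) (b (b (b (l 16774368) (l 16774240)) (b (l 16774112) (l 16773984))) (b (b (l 16773864) (l 16773736)) (l 16773560)))) (a (b (b (b (l 16774208) (l 16774080)) (b (l 16773952) (l 16773824))) (b (b (l 16773704) (l 16773584)) (l 16773400))) (b (b (b (l 16774048) (l 16773920)) (b (l 16773792) (l 16773664))) (b (a (l 16773520) (l 16773440)) (l 16773216))))) (a (b (a (b (b (l 16773880) (l 16773752)) (b (l 16773624) (l 16773504))) (a (b (l 16773696) (l 16773440)) (b (l 16773608) (l 16773336)))) (b (a (c (l 16773360) (l 16773208)) (a (l 16773200) (l 16773128))) (a (c (l 16773184) (l 16773016)) (l 16772920)))) (b (b (b (a (l 16773536) (l 16773408)) (a (l 16773408) (l 16773256))) (a (a (l 16773288) (l 16773192)) (c (l 16773152) (l 16772992)))) (b (a (c (l 16773072) (l 16772912)) (c (l 16772912) (l 16772744)))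 (a (l 16772752) (c (l 16772680) (l 16772496))))))), by decide +kernel⟩

def k55_A00pm_102_s1 : ∃ t, chk3 f_A00pm_102_s1 t 508 132 1 = true :=
  ⟨(b (a (a (b (a (b (l 16774368) (l 16774216)) (b (l 16774280) (l 16774136))) (b (a (l 16774072) (l 16773984)) (l 16773888))) (b (c (b (l 16774200) (l 16774040)) (b (l 16774096) (l 16773936))) (a (b (l 16773904) (l 16773752)) (b (l 16773816) (l 16773680))))) (b (b (a (a (l 16774000) (l 16773944)) (c (l 16773864) (l 16773752))) (a (a (l 16773880) (l 16773792)) (c (l 16773728) (l 16773600)))) (b (a (l 16773688) (c (l 16773592) (l 16773464))) (a (l 16773552) (c (l 16773456) (l 16773320)))))) (a (b (b (a (c (l 16773784) (l 16773664)) (l 16773592)) (a (c (l 16773680) (l 16773552)) (l 16773448))) (b (a (l 16773504) (l 16773312)) (a (l 16773352) (l 16773184)))) (b (b (a (l 16773416) (c (l 16773320) (l 16773176))) (a (l 16773280) (l 16773112))) (b (a (l 16773152) (l 16772984)) (a (l 16773016) (l 16772848)))))), by decide +kernel⟩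

def k56_A00pm_102_s1 : ∃ t, chk3 f_A00pm_102_s1 t 509 132 1 = true :=
  ⟨(b (a (b (b (b (a (l 16773672) (l 16773504)) (a (l 16773600) (l 16773432))) (b (a (l 16773536) (l 16773360)) (a (l 16773464) (l 16773296)))) (a (c (b (l 16773424) (l 16773288)) (b (l 16773288) (l 16773152))) (a (b (l 16773232) (l 16773088)) (b (l 16773144) (l 16773008))))) (b (a (a (b (l 16773344) (l 16773200)) (b (l 16773256) (l 16773112))) (a (b (l 16773168) (l 16773024)) (b (l 16773088) (l 16772944)))) (a (a (b (l 16773056) (l 16772920)) (b (l 16772976) (l 16772832))) (a (b (l 16772888) (l 16772744)) (b (l 16772800) (l 16772656)))))) (a (b (a (c (b (l 16773152) (l 16773024)) (b (l 16773008) (l 16772872))) (c (b (l 16772984) (l 16772856)) (b (l 16772832) (l 16772696)))) (a (c (b (l 16772888) (l 16772760)) (b (l 16772736) (l 16772600))) (c (b (l 16772720) (l 16772592)) (b (l 16772560) (l 16772424))))) (b (a (a (b (l 16772784) (l 16772648)) (b (l 16772696) (l 16772560))) (a (b (l 16772608) (l 16772472)) (b (l 16772520) (l 16772384))))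 (a (a (a (l 16772464) (l 16772424)) (a (l 16772376) (l 16772336))) (a (a (l 16772288) (l 16772248)) (b (l 16772248) (l 16772112))))))), by decide +kernel⟩

def k57_A00pm_102_s1 : ∃ t, chk3 f_A00pm_102_s1 t 254 133 1 = true :=
  ⟨(a (b (a (b (b (a (l 16773224) (l 16773056)) (a (l 16773096) (l 16772928))) (a (a (l 16772944) (l 16772864)) (a (l 16772784) (l 16772696)))) (b (b (a (l 16772888) (l 16772720)) (a (l 16772760) (l 16772592))) (b (a (l 16772632) (l 16772464)) (a (l 16772512) (l 16772336))))) (a (b (a (c (l 16772752) (l 16772576)) (c (l 16772584) (l 16772400))) (a (c (l 16772520) (l 16772328)) (c (l 16772352) (l 16772160)))) (b (b (a (l 16772384) (l 16772216)) (a (l 16772264) (l 16772088))) (a (c (l 16772184) (l 16771984)) (a (l 16771952) (l 16771864)))))) (b (a (b (b (a (l 16772552) (c (l 16772464) (l 16772288))) (a (l 16772416) (c (l 16772336) (l 16772152)))) (b (a (l 16772288) (c (l 16772216) (l 16772024))) (a (l 16772168) (l 16771992)))) (a (b (c (b (l 16772296) (l 16772168)) (b (l 16772112) (l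 16771976))) (c (a (l 16772024) (l 16771936)) (b (l 16771840) (l 16771712)))) (b (a (c (l 16772096) (l 16771904)) (a (l 16771936) (l 16771888))) (c (a (l 16771848) (l 16771760)) (a (l 16771640) (l 16771552)))))) (a (b (b (a (l 16772040) (l 16771864)) (a (l 16771920) (l 16771744))) (b (a (l 16771792) (l 16771616)) (a (l 16771672) (l 16771496)))) (a (a (b (c (l 16771776) (l 16771560)) (l 16771424)) (b (c (l 16771688) (l 16771472)) (c (l 16771448) (l 16771224)))) (a (c (b (l 16771600) (l 16771360)) (b (l 16771384) (l 16771128))) (c (b (l 16771512) (l 16771272)) (b (l 16771288) (l 16771040)))))))), by decide +kernel⟩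

def k58_A00pm_102_s1 : ∃ t, chk3 f_A00pm_102_s1 t 1020 66 1 = true :=
  ⟨(a (a (b (b (b (b (l 16773000) (l 16772856)) (b (l 16772712) (l 16772568))) (b (b (l 16772432) (l 16772296)) (b (l 16772160) (l 16772024)))) (b (a (b (l 16771848) (l 16771584)) (b (l 16771800) (l 16771544))) (c (b (l 16771424) (l 16771176)) (b (l 16771200) (l 16770944))))) (b (b (b (b (l 16772912) (l 16772768)) (b (l 16772624) (l 16772480))) (b (b (l 16772344) (l 16772200)) (b (l 16772064) (l 16771936)))) (b (b (b (l 16771800) (l 16771664)) (a (l 16771496) (l 16771448))) (c (b (l 16771328) (l 16771088)) (b (l 16771104) (l 16770848)))))) (b (b (a (b (b (c (l 16772896) (l 16772744)) (c (l 16772752) (l 16772600))) (b (l 16772536) (l 16772392))) (b (b (c (l 16772808) (l 16772656)) (c (l 16772664) (l 16772504))) (b (a (l 16772464) (l 16772424)) (l 16772304)))) (b (a (b (l 16772256) (l 16772112)) (b (l 16772160) (l 16772024))) (a (b (l 16771976) (l 16771840)) (b (l 16771888) (l 16771752))))) (a (b (b (b (l 16771712) (l 16771576)) (a (l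 16771400) (l 16771360))) (c (b (l 16771240) (l 16771000)) (b (l 16771008) (l 16770760)))) (b (b (b (l 16771616) (l 16771488)) (b (l 16771352) (l 16771224))) (a (b (l 16771056) (l 16770808)) (b (l 16771008) (l 16770760))))))), by decide +kernel⟩

def k59_A00pm_102_s1 : ∃ t, chk3 f_A00pm_102_s1 t 1021 66 1 = true :=
  ⟨(b (b (a (b (c (a (b (l 16772720) (l 16772576)) (b (l 16772632) (l 16772488))) (a (a (l 16772512) (l 16772464)) (a (l 16772424) (l 16772376)))) (c (a (b (l 16772440) (l 16772296)) (b (l 16772352) (l 16772208))) (a (c (l 16772240) (l 16772152)) (a (l 16772128) (l 16772080))))) (a (b (b (a (l 16772488) (l 16772440)) (c (l 16772400) (l 16772232))) (b (c (l 16772264) (l 16772088)) (c (l 16772120) (l 16771936)))) (b (b (a (l 16772392) (l 16772352)) (a (l 16772248) (l 16772200))) (b (c (l 16772168) (l 16771992)) (c (l 16772032) (l 16771848)))))) (a (b (a (b (a (l 16772096) (l 16772048)) (l 16771936)) (a (b (l 16772000) (l 16771864)) (b (l 16771960) (l 16771816)))) (a (b (l 16771792) (l 16771656))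 (b (l 16771704) (l 16771568)))) (b (c (a (b (l 16771984) (l 16771848)) (b (l 16771896) (l 16771760))) (a (c (l 16771768) (l 16771680)) (c (l 16771680) (l 16771584)))) (c (a (a (l 16771664) (l 16771624)) (a (l 16771576) (l 16771528))) (a (l 16771440) (c (l 16771400) (l 16771296))))))) (b (a (b (a (b (l 16771528) (l 16771392)) (b (l 16771432) (l 16771304))) (a (b (l 16771264) (l 16771136)) (b (l 16771168) (l 16771040)))) (b (a (b (l 16771344) (l 16771208)) (c (a (l 16771312) (l 16771264)) (l 16771072))) (a (b (l 16771072) (l 16770944)) (b (a (l 16771008) (l 16770960)) (l 16770848))))) (b (a (a (b (l 16771008) (l 16770880)) (b (l 16770912) (l 16770784))) (a (b (l 16770816) (l 16770688)) (b (l 16770720) (l 16770592)))) (a (a (a (l 16770712) (l 16770664)) (b (l 16770656) (l 16770536))) (a (b (l 16770568) (l 16770440)) (b (l 16770472) (l 16770344))))))), by decide +kernel⟩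

def k60_A00pm_102_s1 : ∃ t, chk3 f_A00pm_102_s1 t 1022 132 1 = true :=
  ⟨(b (a (b (a (b (a (l 16772304) (l 16772256)) (a (l 16772160) (l 16772112))) (a (b (a (l 16772224) (l 16772200)) (l 16772064)) (c (b (l 16772248) (l 16772112)) (l 16772008)))) (a (b (a (l 16772016) (l 16771968)) (a (l 16771872) (l 16771824))) (b (a (l 16771920) (l 16771872)) (a (l 16771776) (l 16771728))))) (b (a (a (c (b (l 16772208) (l 16772064)) (l 16771960)) (c (b (l 16772160) (l 16772016)) (l 16771912))) (b (c (a (l 16772112) (l 16772072)) (l 16771912)) (c (a (l 16771968) (l 16771928)) (l 16771768)))) (a (b (c (a (l 16771920) (l 16771872)) (l 16771712)) (a (l 16771680) (l 16771640))) (a (c (b (l 16771832) (l 16771688)) (l 16771568)) (c (b (l 16771784) (l 16771640)) (l 16771520)))))) (a (a (c (b (b (l 16771800) (l 16771664)) (b (l 16771528) (l 16771392))) (b (c (l 16771584) (l 16771488)) (c (l 16771304) (l 16771200)))) (a (b (b (l 16771632) (l 16771496)) (b (l 16771360) (l 16771216))) (b (b (l 16771592) (l 16771448)) (b (l 16771312)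 (l 16771176))))) (b (a (b (a (l 16771544) (l 16771496)) (a (l 16771400) (l 16771352))) (b (a (l 16771448) (a (l 16771416) (l 16771392))) (a (l 16771304) (l 16771256)))) (a (a (b (l 16771264) (l 16771128)) (b (l 16771216) (l 16771080))) (a (b (l 16771168) (l 16771032)) (b (l 16771120) (l 16770984))))))), by decide +kernel⟩

def k61_A00pm_102_s1 : ∃ t, chk3 f_A00pm_102_s1 t 1022 133 1 = true :=
  ⟨(b (b (a (c (a (a (l 16771224) (l 16771176)) (a (l 16771128) (l 16771080))) (a (l 16770976) (l 16770880))) (a (a (b (l 16770992) (l 16770856)) (b (l 16770944) (l 16770808))) (a (b (l 16770896) (l 16770760)) (b (l 16770848) (l 16770712))))) (a (c (a (a (l 16770960) (l 16770920)) (a (l 16770872) (l 16770824))) (a (l 16770704) (l 16770608))) (c (b (a (l 16770816) (l 16770720)) (a (l 16770688) (l 16770592))) (a (l 16770512) (l 16770416))))) (a (a (c (a (b (l 16770712) (l 16770464)) (b (l 16770664) (l 16770416))) (b (l 16770440) (l 16770184))) (c (b (a (l 16770616) (l 16770568)) (a (l 16770368) (l 16770328))) (b (l 16770344)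 (l 16770088)))) (a (c (a (b (l 16770520) (l 16770280)) (b (l 16770472) (l 16770232))) (b (l 16770248) (l 16769984))) (c (a (b (l 16770432) (l 16770184)) (b (l 16770384) (l 16770136))) (b (l 16770152) (l 16769888)))))), by decide +kernel⟩

def k62_A00pm_102_s1 : ∃ t, chk3 f_A00pm_102_s1 t 2046 66 1 = true :=
  ⟨(a (a (b (b (c (b (b (l 16772024) (l 16771880)) (b (l 16771736) (l 16771592))) (b (l 16771768) (l 16771472))) (b (c (a (l 16771400) (l 16771376)) (l 16771176)) (b (l 16771072) (l 16770936)))) (b (b (b (l 16770800) (l 16770664)) (b (l 16770528) (l 16770400))) (b (c (l 16770336) (l 16770072)) (c (l 16770088) (l 16769816))))) (b (b (c (b (b (l 16771976) (l 16771832)) (b (l 16771688) (l 16771552))) (b (l 16771720) (l 16771424))) (b (c (a (l 16771352) (l 16771328)) (l 16771128)) (c (a (l 16771080) (l 16771056)) (l 16770848)))) (b (b (b (l 16770752) (l 16770616)) (b (l 16770480) (l 16770352))) (b (b (l 16770216) (l 16770088)) (b (l 16769968) (l 16769840)))))) (a (b (b (c (b (b (a (l 16771944) (l 16771920))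 (l 16771784)) (b (l 16771640) (l 16771504))) (b (l 16771672) (l 16771376))) (b (c (a (l 16771304) (l 16771280)) (l 16771080)) (c (a (l 16771032) (l 16771008)) (l 16770800)))) (b (b (c (c (l 16770808) (l 16770696)) (l 16770520)) (b (l 16770432) (l 16770304))) (b (b (l 16770168) (l 16770040)) (b (l 16769912) (l 16769792))))) (b (b (b (c (b (c (l 16771928) (l 16771840)) (l 16771744)) (l 16771624)) (c (b (l 16771600) (l 16771456)) (l 16771328))) (b (c (b (l 16771312) (l 16771176)) (l 16771032)) (c (a (l 16770984) (l 16770960)) (l 16770744)))) (c (b (c (b (l 16770768) (l 16770504)) (b (l 16770648) (l 16770384))) (c (b (l 16770256) (l 16770008)) (b (l 16770120) (l 16769872)))) (a (b (l 16770344) (l 16769808)) (b (l 16770320) (l 16769784))))))), by decide +kernel⟩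

def k63_A00pm_102_s1 : ∃ t, chk3 f_A00pm_102_s1 t 2047 132 1 = true :=
  ⟨(a (a (b (b (c (a (b (l 16771848) (l 16771704)) (b (l 16771824) (l 16771680))) (l 16771576)) (c (b (l 16771552) (l 16771408)) (l 16771280))) (b (c (b (l 16771272) (l 16771128)) (l 16770984)) (c (a (l 16770936) (l 16770912)) (l 16770696)))) (b (b (c (a (b (l 16771800) (l 16771656)) (b (l 16771784) (l 16771632))) (l 16771528)) (c (b (l 16771504) (l 16771360)) (l 16771232))) (b (c (b (l 16771224) (l 16771080)) (l 16770936)) (c (a (l 16770888) (l 16770864)) (l 16770648))))) (b (c (b (a (a (b (l 16771760) (l 16771608)) (b (l 16771736) (l 16771592))) (b (a (l 16771712) (c (l 16771736) (l 16771640))) (a (l 16771568) (c (l 16771592) (l 16771488))))) (b (a (a (l 16771472) (l 16771448)) (b (l 16771448) (l 16771376))) (a (l 16771312) (a (l 16771280) (l 16771256))))) (b (a (l 16771480) (a (l 16771440) (l 16771416))) (a (l 16771184) (a (l 16771144) (l 16771120))))) (a (b (c (b (l 16771176) (l 16771032)) (l 16770888)) (c (a (l 16770840) (l 16770816))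 (l 16770600))) (a (c (b (a (l 16771072) (l 16771064)) (l 16770792)) (l 16770704)) (b (c (b (l 16771112) (l 16770976)) (l 16770824)) (c (b (l 16770840) (l 16770704)) (l 16770536))))))), by decide +kernel⟩

def k64_A00pm_102_s1 : ∃ t, chk3 f_A00pm_102_s1 t 2047 133 1 = true :=
  ⟨(b (a (a (b (c (a (l 16770672) (l 16770648)) (l 16770416)) (c (c (l 16770456) (l 16770336)) (l 16770144))) (b (c (a (l 16770624) (l 16770600)) (l 16770368)) (c (c (l 16770408) (l 16770288)) (l 16770096)))) (c (a (a (b (l 16770576) (l 16770312)) (b (l 16770552) (l 16770288))) (a (b (l 16770528) (l 16770264)) (a (b (l 16770504) (l 16770248)) (b (l 16770496) (l 16770232))))) (a (a (l 16770192) (l 16770168)) (b (l 16770272) (l 16769992))))) (a (a (b (c (a (l 16770152) (l 16770128)) (l 16769880)) (c (c (l 16769960) (l 16769824)) (l 16769616))) (b (c (a (l 16770104) (l 16770080)) (l 16769824)) (c (c (l 16769912) (l 16769776)) (l 16769568)))) (c (a (c (b (l 16770112) (l 16769864)) (b (l 16769976) (l 16769728))) (a (b (l 16770008) (l 16769760))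 (b (c (l 16770048) (l 16769912)) (c (l 16769808) (l 16769664))))) (a (a (l 16769656) (l 16769632)) (b (l 16769728) (l 16769464)))))), by decide +kernel⟩

def k65_A00pm_102_s1 : ∃ t, chk3 f_A00pm_102_s1 t 124 67 1 = true :=
  ⟨(a (a (b (b (l 3) (a (l 3) (b (l 3) (l 536370831)))) (c (c (b (l 556960143) (l 560044687)) (b (a (l 548135311) (l 544607375)) (a (l 551733391) (l 550070671)))) (b (a (l 536064655) (l 536049039)) (a (l 536649871) (l 536178063))))) (b (b (a (l 3) (b (l 3) (c (l 537691279) (l 535951759)))) (a (b (l 536013455) (l 536032911)) (b (l 535997839) (l 536017039)))) (b (a (b (l 536480911) (c (l 548674703) (l 536044431))) (b (l 536036495) (l 536859535))) (c (c (l 557072271) (a (l 548291983) (l 545851023))) (a (l 536072335) (l 536056463)))))) (b (a (b (a (b (l 3) (c (l 535989391) (l 535936399))) (a (b (l 535933327) (l 535952527)) (b (l 535925647) (l 535944847)))) (a (b (l 535982223) (l 536001423)) (b (l 535966607) (l 535985807)))) (b (a (a (b (l 535917967) (l 535936911)) (b (l 535910287) (l 535929487)))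 (a (b (l 535902607) (l 535921807)) (b (l 535894927) (l 535914127)))) (a (b (l 535950991) (l 535970191)) (b (c (l 535961743) (l 535909263)) (l 535954831))))) (a (b (a (b (l 536020879) (l 536040079)) (b (l 536005007) (l 536024463))) (a (b (l 537237647) (c (l 549361551) (l 536051855))) (b (l 536043919) (l 537346959)))) (b (a (b (l 535989647) (l 536008847)) (b (l 535974031) (l 535993231))) (a (b (l 536028303) (l 536047759)) (b (l 536012687) (l 536032143))))))), by decide +kernel⟩

def k66_A00pm_102_s1 : ∃ t, chk3 f_A00pm_102_s1 t 125 67 1 = true :=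
  ⟨(a (b (a (b (a (a (b (l 535887503) (l 535906447)) (b (l 535879823) (l 535899023))) (b (a (l 535872399) (l 535864719)) (a (l 535891343) (l 535883663)))) (a (b (a (l 535925647) (l 535917967)) (l 535939471)) (b (a (l 535910287) (l 535902863)) (l 535924111)))) (b (a (b (a (l 535857295) (l 535849871)) (a (l 535876239) (l 535868815))) (b (a (l 535842191) (l 535834767)) (a (l 535861135) (l 535853711)))) (a (b (a (l 535895183) (l 535887759)) (a (l 535914383) (l 535906959))) (b (a (l 535880335) (l 535872655)) (a (l 535899279) (l 535891855)))))) (a (b (a (b (l 535958671) (l 535977871)) (b (l 535943311) (l 535962511))) (a (b (l 535997071) (l 536016527)) (b (l 535981711) (l 536001167)))) (b (a (b (l 535927951) (l 535947151)) (b (l 535912591) (l 535931791))) (a (b (l 535966351) (l 535985551)) (b (l 535950991) (l 16774544)))))) (a (a (a (b (b (b (l 535827343) (l 535846287)) (b (l 535865231) (l 535884431))) (b (l 535911311) (l 535949967))) (b (b (b (l 535819919) (l 535838863)) (b (l 535857807) (l 535876751))) (b (l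 535903887) (l 535942543)))) (a (b (b (b (l 535812495) (l 535831439)) (b (l 535850383) (l 16774832))) (b (l 535896463) (l 535934863))) (b (b (b (l 535805327) (l 535824015)) (b (l 535842959) (l 16774704))) (b (l 535889039) (l 535927439))))) (a (b (b (b (a (l 535797903) (l 535790479)) (a (l 535816591) (l 535809423))) (b (a (l 535835535) (l 535828111)) (b (l 16774560) (l 16774456)))) (b (b (b (l 16774360) (l 16774264)) (l 16774128)) (b (l 16773952) (l 16773784)))) (b (b (b (a (l 535783055) (l 535775887)) (a (l 535801999) (l 535794575))) (b (a (l 16774512) (l 16774376)) (b (l 16774288) (l 16774192)))) (b (b (c (l 16774120) (l 16773968)) (l 16773856)) (b (l 16773680) (l 16773520))))))), by decide +kernel⟩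

def k67_A00pm_102_s1 : ∃ t, chk3 f_A00pm_102_s1 t 126 268 1 = true :=
  ⟨(a (a (a (b (a (l 535768463) (l 535761295)) (a (l 535787407) (l 16774304))) (a (b (l 535753871) (l 16774168)) (b (b (l 16774296) (l 16774184)) (l 16774024)))) (a (a (b (l 16774096) (l 16773872)) (b (l 16773944) (l 16773728))) (a (b (l 16773792) (l 16773576)) (b (l 16773640) (l 16773424))))) (a (a (a (b (l 16773488) (l 16773272)) (b (l 16773328) (l 16773112))) (b (a (l 16773160) (l 16773024)) (a (l 16772952) (l 16772792)))) (a (b (a (l 16772856) (l 16772688)) (a (l 16772632) (l 16772472))) (b (a (l 16772528) (l 16772360)) (a (l 16772304) (l 16772136)))))), by decide +kernel⟩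

def k68_A00pm_102_s1 : ∃ t, chk3 f_A00pm_102_s1 t 254 268 1 = true :=
  ⟨(a (a (b (a (l 16772192) (c (l 16772128) (l 16771920))) (a (l 16771968) (l 16771792))) (b (a (c (l 16771960) (l 16771744)) (c (l 16771784) (l 16771568))) (a (c (l 16771736) (l 16771504)) (c (l 16771560) (l 16771328))))) (a (b (b (a (l 16771560) (l 16771376)) (a (l 16771440) (l 16771264))) (a (c (l 16771392) (l 16771152)) (a (l 16771136) (l 16771048)))) (a (a (b (l 16771184) (l 16770952)) (b (l 16771096) (l 16770864))) (a (b (l 16771008) (l 16770768)) (b (a (l 16770936) (l 16770888)) (l 16770680)))))), by decide +kernel⟩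

def k69_A00pm_102_s1 : ∃ t, chk3 f_A00pm_102_s1 t 510 268 1 = true :=
  ⟨(a (a (a (c (b (l 16770944) (l 16770720)) (b (l 16770696) (l 16770456))) (c (b (l 16770856) (l 16770624)) (b (l 16770600) (l 16770360)))) (a (c (b (l 16770760) (l 16770536)) (b (l 16770504) (l 16770264))) (c (b (l 16770672) (l 16770440)) (b (l 16770416) (l 16770168))))) (a (a (c (b (l 16770576) (l 16770344)) (b (l 16770320) (l 16770072))) (a (b (l 16770376) (l 16770136)) (b (l 16770328) (l 16770088)))) (a (b (b (l 16770320) (l 16770200)) (b (l 16770080) (l 16769960))) (b (b (l 16770224) (l 16770104)) (b (l 16769984) (l 16769864)))))), by decide +kernel⟩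

def k70_A00pm_102_s1 : ∃ t, chk3 f_A00pm_102_s1 t 511 268 1 = true :=
  ⟨(a (a (b (a (b (l 16770128) (l 16770008)) (c (a (l 16770128) (l 16770088)) (l 16769832))) (a (b (l 16769888) (l 16769768)) (c (a (l 16769896) (l 16769848)) (l 16769584)))) (a (c (b (a (l 16770040) (l 16769992)) (a (l 16769800) (l 16769752))) (b (l 16769736) (l 16769488))) (c (a (b (l 16769944) (l 16769704)) (b (l 16769896) (l 16769656))) (b (l 16769632) (l 16769384))))) (a (c (b (b (a (l 16769880) (a (l 16769808) (l 16769760))) (a (l 16769760) (a (l 16769688) (l 16769640)))) (b (a (l 16769640) (a (l 16769568) (l 16769520))) (a (l 16769528) (a (l 16769456) (l 16769408))))) (b (c (a (l 16769608) (l 16769504)) (a (l 16769464) (l 16769360))) (c (a (l 16769360) (l 16769264)) (a (l 16769216) (l 16769112))))) (a (a (b (c (a (l 16769664) (l 16769640)) (l 16769360)) (c (c (l 16769488) (l 16769336)) (l 16769112))) (b (c (a (l 16769616) (l 16769592)) (l 16769312)) (c (c (l 16769440) (l 16769288)) (l 16769064)))) (c (a (a (b (l 16769568) (l 16769328))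 (b (l 16769536) (l 16769304))) (a (b (l 16769512) (a (l 16769288) (l 16769272))) (b (b (l 16769552) (l 16769432)) (b (l 16769312) (l 16769192))))) (b (a (l 16769256) (l 16769208)) (b (l 16769048) (l 16768920))))))), by decide +kernel⟩

def k71_A00pm_102_s1 : ∃ t, chk3 f_A00pm_102_s1 t 126 269 1 = true :=
  ⟨(b (a (a (a (b (l 16774216) (l 16774112)) (b (l 16773936) (l 16773832))) (a (b (l 16773640) (l 16773536)) (b (l 16773344) (l 16773240)))) (a (a (a (l 16773056) (l 16772888)) (a (l 16772752) (l 16772584))) (a (a (l 16772416) (l 16772256)) (a (l 16772088) (l 16771920))))) (a (a (a (b (l 16774016) (l 16773912)) (c (l 16773760) (l 16773592))) (a (c (l 16773472) (l 16773296)) (c (l 16773176) (l 16772992)))) (a (a (a (l 16772840) (l 16772720)) (c (l 16772560) (l 16772352))) (a (a (l 16772208) (l 16772048)) (a (l 16771880) (l 16771704)))))), by decide +kernel⟩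

def k72_A00pm_102_s1 : ∃ t, chk3 f_A00pm_102_s1 t 254 269 1 = true :=
  ⟨(a (a (b (a (l 16771744) (l 16771576)) (a (l 16771536) (l 16771360))) (b (a (l 16771400) (c (l 16771344) (l 16771096))) (a (l 16771184) (l 16771008)))) (a (b (a (c (l 16771168) (l 16770920)) (a (l 16770912) (l 16770816))) (a (c (l 16770960) (l 16770696)) (c (l 16770784) (l 16770512)))) (a (b (a (l 16770728) (l 16770632)) (a (l 16770512) (l 16770416))) (a (b (l 16770544) (l 16770320)) (b (l 16770448) (l 16770232)))))), by decide +kernel⟩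

def k73_A00pm_102_s1 : ∃ t, chk3 f_A00pm_102_s1 t 510 269 1 = true :=
  ⟨(a (a (a (b (l 16770360) (l 16770136)) (b (a (l 16770288) (l 16770240)) (l 16770040))) (a (c (b (l 16770312) (l 16770096)) (b (l 16770032) (l 16769800))) (c (b (l 16770216) (l 16770000)) (b (l 16769936) (l 16769704))))) (a (a (c (b (l 16770120) (l 16769904)) (b (l 16769840) (l 16769608))) (c (b (l 16770032) (l 16769808)) (b (l 16769736) (l 16769504)))) (a (c (b (l 16769936) (l 16769720)) (b (l 16769640) (l 16769408))) (b (b (l 16769752) (l 16769632)) (b (l 16769520) (l 16769408)))))), by decide +kernel⟩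

def k74_A00pm_102_s1 : ∃ t, chk3 f_A00pm_102_s1 t 511 269 1 = true :=
  ⟨(b (a (a (a (c (c (l 16769816) (l 16769672)) (l 16769448)) (c (a (l 16769672) (l 16769624)) (l 16769344))) (c (b (a (l 16769608) (l 16769512)) (a (l 16769496) (l 16769400))) (c (a (l 16769320) (l 16769224)) (a (l 16769168) (l 16769072))))) (a (b (a (c (l 16769416) (l 16769104)) (c (a (l 16769336) (l 16769288)) (l 16769008))) (a (c (l 16769304) (l 16768984)) (c (a (l 16769224) (l 16769176)) (l 16768888)))) (a (a (c (a (l 16769200) (l 16769168)) (l 16768872)) (c (a (l 16769144) (l 16769120)) (l 16768816))) (a (c (b (l 16769144) (l 16769032)) (l 16768768)) (b (c (c (l 16769168) (l 16769016)) (l 16768776)) (c (c (l 16769056) (l 16768896)) (l 16768656))))))) (a (a (a (b (l 16769424) (l 16769312)) (c (a (l 16769448) (l 16769400)) (l 16769112))) (c (b (a (l 16769384) (l 16769288)) (a (l 16769272) (l 16769176))) (c (a (l 16769088) (l 16768992)) (a (l 16768936) (l 16768832))))) (a (b (a (c (a (l 16769216) (l 16769168)) (l 16768872)) (c (c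 (l 16769168) (l 16769008)) (l 16768768))) (a (c (a (l 16769104) (l 16769056)) (l 16768752)) (c (c (l 16769064) (l 16768896)) (l 16768648)))) (a (a (c (a (l 16768976) (l 16768952)) (l 16768632)) (c (b (l 16768968) (l 16768856)) (l 16768584))) (a (c (b (l 16768920) (l 16768808)) (l 16768528)) (b (c (c (l 16768952) (l 16768784)) (l 16768536)) (c (a (l 16768768) (l 16768744)) (l 16768416)))))))), by decide +kernel⟩

def k75_A00pm_102_s1 : ∃ t, chk3 f_A00pm_102_s1 t 126 135 1 = true :=
  ⟨(a (a (a (b (b (c (l 16773856) (l 16773680)) (l 16773584)) (b (l 16773408) (l 16773240))) (b (b (l 16773480) (l 16773296)) (a (l 16773112) (l 16772968)))) (b (b (a (l 16773192) (a (l 16772968) (l 16772792))) (a (l 16773008) (a (l 16772752) (l 16772664)))) (b (a (l 16772784) (l 16772576)) (a (b (l 16772680) (a (l 16772640) (l 16772544))) (l 16772352))))) (b (a (a (b (a (l 16772688) (l 16772504)) (l 16772392)) (b (c (l 16772368) (l 16772144)) (l 16772064))) (a (b (a (l 16772008) (l 16771840)) (a (l 16771816) (l 16771648))) (b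 (a (l 16771672) (l 16771504)) (a (l 16771480) (l 16771304))))) (a (a (b (l 16772208) (l 16772024)) (b (l 16771880) (l 16771688))) (a (b (l 16771544) (a (l 16771432) (l 16771256))) (b (a (l 16771288) (l 16771112)) (a (l 16771080) (l 16770904))))))), by decide +kernel⟩

def k76_A00pm_102_s1 : ∃ t, chk3 f_A00pm_102_s1 t 254 135 1 = true :=
  ⟨(b (a (a (b (a (l 16771328) (l 16771152)) (a (l 16771128) (l 16770952))) (b (a (l 16770976) (l 16770800)) (a (l 16770776) (l 16770592)))) (a (a (b (l 16770616) (l 16770416)) (b (c (l 16770576) (l 16770288)) (l 16770224))) (a (b (c (l 16770392) (l 16770104)) (c (l 16770192) (l 16769888))) (a (b (l 16770112) (l 16769904)) (b (l 16770016) (l 16769808)))))) (b (a (a (a (l 16770936) (l 16770760)) (a (l 16770576) (l 16770400))) (a (a (l 16770216) (l 16770032)) (a (c (l 16770000) (l 16769680)) (c (l 16769816) (l 16769488))))) (a (a (a (l 16770728) (l 16770544)) (a (l 16770360) (c (l 16770336) (l 16770016)))) (a (a (c (l 16770152) (l 16769832)) (a (l 16769848) (l 16769752)))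 (a (b (l 16769696) (l 16769592)) (b (l 16769504) (l 16769400))))))), by decide +kernel⟩

def k77_A00pm_102_s1 : ∃ t, chk3 f_A00pm_102_s1 t 510 135 1 = true :=
  ⟨(b (a (a (a (b (l 16769920) (l 16769712)) (b (l 16769824) (l 16769616))) (a (b (l 16769728) (l 16769520)) (b (a (l 16769656) (l 16769608)) (l 16769424)))) (a (a (c (b (l 16769696) (l 16769488)) (b (l 16769384) (l 16769160))) (c (b (l 16769600) (l 16769392)) (b (l 16769280) (l 16769064)))) (a (c (b (l 16769504) (l 16769296)) (b (l 16769184) (l 16768968))) (c (b (l 16769408) (l 16769200)) (b (l 16769088) (l 16768864)))))) (a (b (b (a (l 16769512) (l 16769320)) (a (l 16769408) (l 16769216))) (b (a (l 16769312) (l 16769120)) (a (l 16769208) (c (l 16769192) (l 16768832))))) (a (a (b (l 16769120) (b (l 16768976) (l 16768864))) (b (a (l 16769048) (l 16769000)) (b (l 16768872) (l 16768768)))) (a (b (a (l 16768952) (l 16768904)) (b (l 16768776) (l 16768664))) (b (a (l 16768848) (l 16768800)) (b (l 16768672) (a (l 16768592) (l 16768544)))))))), by decide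 +kernel⟩

def k78_A00pm_102_s1 : ∃ t, chk3 f_A00pm_102_s1 t 511 270 1 = true :=
  ⟨(b (a (a (a (b (l 16769200) (l 16769096)) (c (c (l 16769296) (l 16769128)) (l 16768888))) (c (b (a (l 16769168) (l 16769072)) (a (l 16769064) (l 16768968))) (c (a (l 16768864) (l 16768768)) (a (l 16768704) (l 16768600))))) (a (b (a (c (a (l 16769000) (l 16768944)) (l 16768640)) (c (c (l 16768960) (l 16768792)) (l 16768536))) (a (c (a (l 16768888) (l 16768840)) (l 16768528)) (c (c (l 16768848) (l 16768680)) (l 16768424)))) (a (a (c (b (l 16768800) (l 16768688)) (l 16768400)) (c (b (l 16768744) (l 16768640)) (l 16768352))) (a (c (c (a (l 16768744) (l 16768720)) (l 16768560)) (l 16768296)) (b (c (b (l 16768672) (l 16768624)) (l 16768304)) (c (a (l 16768552) (a (l 16768536) (l 16768520))) (l 16768192))))))) (a (a (a (b (l 16768984) (l 16768880)) (c (c (l 16769088) (l 16768920)) (l 16768664))) (c (b (a (l 16768960) (l 16768856)) (a (l 16768856) (l 16768760))) (c (a (l 16768648) (l 16768544)) (a (l 16768480) (l 16768376))))) (a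 (a (a (c (l 16768736) (l 16768384)) (c (c (l 16768768) (l 16768600)) (l 16768336))) (a (c (c (l 16768720) (l 16768544)) (l 16768280)) (c (c (l 16768672) (l 16768496)) (l 16768232)))) (b (a (c (a (l 16768584) (l 16768536)) (l 16768208)) (a (c (c (l 16768576) (l 16768400)) (l 16768128)) (c (a (l 16768448) (b (l 16768448) (l 16768392))) (l 16768080)))) (a (c (a (l 16768480) (a (l 16768448) (l 16768416))) (l 16768096)) (a (c (c (l 16768472) (l 16768288)) (l 16768016)) (c (a (l 16768344) (b (l 16768344) (l 16768296))) (l 16767968)))))))), by decide +kernel⟩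

def k79_A00pm_102_s1 : ∃ t, chk3 f_A00pm_102_s1 t 511 542 1 = true :=
  ⟨(a (a (a (c (l 16768904) (l 16768552)) (c (c (l 16768896) (l 16768712)) (l 16768448))) (c (b (a (l 16768752) (l 16768656)) (a (l 16768656) (l 16768560))) (c (a (l 16768440) (l 16768336)) (a (l 16768256) (l 16768152))))) (a (b (a (c (c (l 16768648) (l 16768464)) (l 16768200)) (c (a (l 16768480) (l 16768432)) (l 16768096))) (a (c (c (l 16768552) (l 16768368)) (l 16768088)) (c (a (l 16768384) (l 16768328)) (l 16767984)))) (c (a (a (b (l 16768384) (l 16768280)) (c (a (l 16768384) (l 16768360)) (l 16768184))) (a (a (c (l 16768336) (l 16768152)) (b (l 16768264) (l 16768168))) (b (a (l 16768240) (b (l 16768240) (l 16768192))) (c (a (l 16768232) (l 16768208)) (l 16768032))))) (a (a (l 16767960) (l 16767912)) (a (c (l 16767952) (l 16767768)) (b (l 16767856) (l 16767752))))))), by decide +kernel⟩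

def k80_A00pm_102_s1 : ∃ t, chk3 f_A00pm_102_s1 t 511 543 1 = true :=
  ⟨(b (a (a (a (l 16768576) (l 16768472)) (a (a (l 16768400) (l 16768352)) (c (l 16768456) (l 16768088)))) (a (a (c (l 16768360) (l 16767984)) (c (a (l 16768280) (l 16768232)) (l 16767880))) (a (c (a (l 16768184) (c (l 16768224) (l 16768032))) (l 16767776)) (a (c (c (l 16768176) (l 16767984)) (l 16767696)) (c (c (a (l 16768136) (l 16768112)) (l 16767936)) (l 16767648)))))) (b (a (a (a (l 16768504) (l 16768400)) (a (l 16768304) (a (l 16768224) (l 16768176)))) (c (a (a (l 16768288) (l 16768184)) (c (a (l 16768176) (a (l 16768104) (l 16768056))) (a (l 16767984) (l 16767880)))) (a (a (l 16767904) (l 16767800)) (a (l 16767696) (l 16767592))))) (a (a (a (l 16768448) (l 16768352)) (a (a (l 16768272) (l 16768224)) (a (l 16768168) (l 16768120)))) (c (a (a (l 16768232) (c (l 16768232) (l 16768040))) (b (a (l 16768048) (a (l 16767968) (l 16767920))) (c (a (l 16768120) (a (l 16768040) (l 16767992))) (a (l 16767928) (l 16767824))))) (a (a (l 16767856)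 (l 16767752)) (a (l 16767648) (a (l 16767568) (l 16767512)))))))), by decide +kernel⟩

def k81_A00pm_102_s1 : ∃ t, chk3 f_A00pm_102_s1 t 62 136 1 = true :=
  ⟨(a (a (a (c (c (l 563871375) (b (l 554148239) (l 556946831))) (b (a (c (l 546437263) (l 538022799)) (c (l 544739983) (l 536113551))) (c (a (l 549658767) (l 548173455)) (a (l 541760399) (l 540044943))))) (c (a (b (l 556331663) (l 559145871)) (b (l 553477775) (l 557838479))) (b (a (l 537658767) (l 536395663)) (a (c (l 546591375) (l 538221967)) (l 539252879))))) (a (c (b (c (l 557183631) (a (l 548447631) (l 546556815))) (a (l 556438159) (l 554132111))) (b (a (l 536080015) (l 536064399)) (a (l 538398095) (l 536612239)))) (b (a (c (c (l 554665615) (l 543189903)) (l 536048783)) (l 536052623)) (c (c (b (l 16831000) (l 16840680)) (a (l 548602255) (l 546725007))) (a (l 536087951) (l 536072335)))))) (a (a (a (b (l 536044431) (b (l 537942159) (l 16774600))) (b (l 536096143) (l 536009615))) (a (b (b (l 16774616) (l 16774472)) (l 536052623)) (b (b (l 16774384)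 (l 16774232)) (l 536037007)))) (a (a (b (b (l 16774136) (l 16773992)) (b (l 16773848) (l 16773720))) (b (b (l 16773888) (l 16773736)) (b (l 16773600) (l 16773472)))) (a (b (b (l 16773624) (l 16773480)) (l 16773272)) (b (b (l 16773360) (l 16773208)) (l 16773008)))))), by decide +kernel⟩

def k82_A00pm_102_s1 : ∃ t, chk3 f_A00pm_102_s1 t 62 137 1 = true :=
  ⟨(b (a (a (c (a (l 563141263) (l 561027471)) (a (c (l 551841167) (a (l 545049999) (l 543538575))) (a (b (l 16774960) (l 16781072)) (b (l 16783048) (l 16778888))))) (a (a (b (a (l 16792440) (l 16791728)) (l 16779016)) (b (l 16779736) (l 16777400))) (a (b (l 16776848) (l 16774832)) (b (l 16783336) (l 16781696))))) (a (a (a (b (l 16778120) (l 16787400)) (b (l 16782056) (l 16781336))) (a (l 16773888) (l 536234127))) (a (a (l 16773544) (l 16773296)) (a (l 16773040) (b (l 16772832) (l 16772768)))))) (a (a (c (a (l 16850256) (l 16856416)) (a (a (l 551445647) (l 550208399)) (b (c (l 16818768) (l 542588815)) (l 16788768)))) (a (b (a (l 16787328) (l 16785992))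 (l 16774632)) (a (a (l 16778472) (l 16777192)) (a (l 16786152) (l 16784352))))) (a (a (b (l 16773520) (l 16773368)) (a (c (l 16812288) (l 16773696)) (l 16776880))) (a (a (l 16772496) (l 16771632)) (a (b (l 16772888) (l 16773400)) (b (l 16772568) (l 16772456))))))), by decide +kernel⟩

def k83_A00pm_102_s1 : ∃ t, chk3 f_A00pm_102_s1 t 62 69 1 = true :=
  ⟨(b (a (a (a (c (l 567373711) (b (l 552467087) (l 16843544))) (b (a (l 16808808) (l 16809584)) (l 16806752))) (a (a (b (l 16788720) (l 16786912)) (b (l 16788088) (l 16786840))) (a (b (l 16786648) (l 16786048)) (b (l 16784328) (l 16784448))))) (a (a (a (b (l 16781032) (l 16781968)) (b (l 16776664) (l 16778528))) (a (b (l 16781616) (l 16774032)) (b (l 16785280) (l 16789352)))) (a (b (b (l 16776192) (a (l 16783576) (l 16774192))) (a (l 16771976) (l 16774096))) (b (b (a (l 16774696) (l 16776552)) (l 16772584)) (a (l 16785216) (l 16773672)))))) (b (a (a (a (l 16884648) (l 16805048)) (a (l 16807224) (l 16806856))) (a (a (l 16803456) (a (l 16798560) (l 16773056)))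 (a (a (b (l 16781568) (l 16795064)) (l 16781352)) (a (l 16773016) (l 16784152))))) (a (a (a (l 16903760) (l 16908816)) (a (l 16828064) (l 16828912))) (a (a (l 16827024) (a (l 16823496) (l 16819952))) (a (l 16770768) (a (l 16802808) (l 16794560))))))), by decide +kernel⟩

def k84_A00pm_102_s1 : ∃ t, chk3 f_A00pm_102_s1 t 126 68 1 = true :=
  ⟨(a (b (b (b (a (a (l 16773088) (b (l 16772840) (l 16772808))) (a (a (l 16772528) (l 16772424)) (l 16772176))) (a (a (l 16772936) (a (l 16772760) (l 16772560))) (a (l 16772336) (l 16772000)))) (a (a (b (l 16772832) (a (l 16772760) (l 16772592))) (b (a (l 16772568) (l 16772424)) (l 16772352))) (a (b (l 16772168) (l 16772016)) (b (l 16771832) (l 16771664))))) (a (b (a (b (l 16772496) (l 16772400)) (l 16772104)) (a (l 16772176) (l 16771808))) (b (a (b (l 16771856) (l 16771704)) (b (l 16771504) (l 16771344))) (a (l 16771432) (b (l 16771184) (l 16771032)))))) (b (a (b (a (b (l 16771848) (l 16771656)) (b (l 16771504) (l 16771312))) (a (b (l 16771480) (l 16771312)) (b (l 16771128)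 (l 16770952)))) (b (a (b (a (l 16771248) (l 16771072)) (l 16770952)) (b (a (l 16770896) (l 16770712)) (a (l 16770680) (l 16770496)))) (a (b (l 16770768) (l 16770584)) (b (a (l 16770488) (l 16770304)) (a (l 16770296) (l 16770104)))))) (a (b (a (b (l 16771144) (l 16770976)) (b (l 16770776) (l 16770600))) (a (b (l 16770816) (l 16770656)) (b (l 16770432) (l 16770264)))) (b (a (b (l 16770400) (l 16770216)) (b (l 16770016) (l 16769832))) (a (b (l 16770048) (l 16769872)) (b (l 16769648) (l 16769472))))))), by decide +kernel⟩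

def k85_A00pm_102_s1 : ∃ t, chk3 f_A00pm_102_s1 t 254 68 1 = true :=
  ⟨(a (b (a (b (b (a (l 16770536) (l 16770352)) (a (l 16770312) (l 16770120))) (b (a (l 16770112) (l 16769920)) (a (l 16769912) (l 16769720)))) (b (b (a (l 16770168) (l 16769976)) (a (l 16769928) (l 16769736))) (b (a (l 16769728) (l 16769536)) (a (l 16769528) (l 16769328))))) (b (a (b (a (l 16769720) (l 16769528)) (a (l 16769536) (l 16769336))) (b (a (l 16769328) (l 16769128)) (a (l 16769128) (l 16768928)))) (a (b (a (l 16769344) (l 16769144)) (l 16769056)) (b (a (l 16768936) (l 16768728)) (a (l 16768744) (l 16768536)))))) (c (b (b (b (a (a (l 16769952) (l 16769768)) (b (a (l 16769656) (l 16769472)) (l 22))) (l 22)) (l 22)) (l 22)) (b (a (b (b (a (l 16769624) (l 16769432)) (a (l 16769376) (l 16769176))) (b (a (l 16769152) (l 16768952)) (a (l 16768944) (l 16768736)))) (b (a (b (b (l 16769320) (l 16769192)) (l 16768976)) (b (b (l 16769120) (l 16769000)) (b (l 16768880) (l 16768768)))) (b (a (l 16768752) (b (l 16768656) (l 16768536))) (a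 (l 16768528) (b (l 16768424) (l 16768312)))))) (a (b (b (a (l 16768728) (l 16768520)) (a (l 16768520) (l 16768312))) (b (a (l 16768312) (l 16768104)) (a (l 16768112) (l 16767896)))) (b (b (a (l 16768312) (l 16768104)) (a (l 16768096) (l 16767880))) (b (a (l 16767888) (l 16767672)) (a (l 16767680) (l 16767456)))))))), by decide +kernel⟩

def k86_A00pm_102_s1 : ∃ t, chk3 f_A00pm_102_s1 t 255 68 2 = true :=
  ⟨(b (b (b (b (b (b (b (b (a (a (a (l 16769344) (l 16769152)) (a (l 16768952) (l 16768760))) (a (a (l 16768560) (l 16768360)) (a (a (l 16768208) (l 16768112)) (a (l 16768008) (a (l 16767928) (l 16767880)))))) (l 22)) (l 22)) (l 22)) (l 22)) (l 22)) (l 22)) (l 22)) (l 22)), by decide +kernel⟩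

def k87_A00pm_102_s1 : ∃ t, chk3 f_A00pm_102_s1 t 510 136 3 = true :=
  ⟨(b (a (a (b (b (l 16768928) (l 16768800)) (b (l 16768680) (l 16768568))) (b (b (l 16768728) (l 16768600)) (b (l 16768480) (l 16768360)))) (a (b (b (l 16768528) (l 16768392)) (b (l 16768272) (l 16768152))) (b (b (c (l 16768416) (l 16768232)) (c (l 16768280) (l 16768096))) (b (c (l 16768160) (l 16767968)) (c (l 16768040) (l 16767848)))))) (a (a (b (b (l 16768448) (l 16768336)) (b (l 16768216) (l 16768104))) (b (b (l 16768240) (l 16768128)) (b (l 16768008) (l 16767896)))) (a (b (b (l 16768032) (l 16767920)) (b (l 16767800) (l 16767680))) (b (b (l 16767824) (l 16767704)) (b (l 16767584) (l 16767464)))))), by decide +kernel⟩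

def k88_A00pm_102_s1 : ∃ t, chk3 f_A00pm_102_s1 t 1022 136 3 = true :=
  ⟨(b (a (a (b (b (l 16768168) (l 16768032)) (b (l 16767912) (l 16767792))) (b (b (l 16768064) (l 16767928)) (b (l 16767808) (l 16767680)))) (a (b (b (l 16767960) (l 16767824)) (b (l 16767704) (l 16767576))) (b (b (c (l 16767952) (l 16767760)) (l 16767720)) (b (l 16767592) (l 16767472))))) (a (a (b (b (l 16767664) (l 16767544)) (b (l 16767424) (l 16767304))) (b (b (l 16767560) (l 16767440)) (b (l 16767320) (l 16767200)))) (a (b (b (l 16767456) (l 16767328)) (b (l 16767208) (l 16767088))) (b (b (l 16767344) (l 16767224)) (b (l 16767104) (l 16766976)))))), by decide +kernel⟩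

def k89_A00pm_102_s1 : ∃ t, chk3 f_A00pm_102_s1 t 1023 136 3 = true :=
  ⟨(a (b (b (b (a (c (l 16767848) (l 16767656)) (b (l 16767688) (l 16767624))) (a (c (l 16767712) (l 16767520)) (a (l 16767536) (l 16767480)))) (b (a (c (l 16767592) (l 16767392)) (a (l 16767408) (l 16767352))) (a (c (l 16767464) (l 16767264)) (a (l 16767280) (l 16767232))))) (b (b (a (c (l 16767344) (l 16767136)) (a (l 16767160) (l 16767104))) (a (c (l 16767216) (l 16767008)) (a (l 16767032) (l 16766976)))) (b (a (a (l 16767016) (l 16766960)) (a (l 16766912) (l 16766856))) (a (a (l 16766896) (l 16766840)) (a (l 16766784) (l 16766728)))))) (b (b (b (b (a (l 16767584) (a (l 16767504) (l 16767456))) (a (l 16767520) (a (l 16767440) (l 16767384)))) (b (a (l 16767456) (a (l 16767376) (l 16767320))) (a (l 16767392) (a (l 16767312) (l 16767256))))) (b (b (a (l 16767328) (a (l 16767248) (l 16767192))) (a (l 16767264) (a (l 16767184) (l 16767128)))) (b (a (l 16767200) (a (l 16767120) (l 16767064))) (a (l 16767136) (a (l 16767056) (l 16767000))))))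 (b (b (b (a (l 16767072) (a (l 16766992) (l 16766936))) (a (l 16767008) (a (l 16766928) (l 16766872)))) (b (a (l 16766944) (a (l 16766864) (l 16766808))) (a (l 16766880) (a (l 16766800) (l 16766744))))) (b (b (a (l 16766816) (a (l 16766736) (l 16766680))) (a (l 16766752) (a (l 16766672) (l 16766616)))) (b (a (l 16766696) (a (l 16766608) (l 16766552))) (a (a (l 16766656) (l 16766600)) (a (l 16766544) (l 16766496)))))))), by decide +kernel⟩

def k90_A00pm_102_s1 : ∃ t, chk3 f_A00pm_102_s1 t 255 274 3 = true :=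
  ⟨(b (b (a (a (a (l 16767992) (l 16767776)) (a (l 16767568) (l 16767352))) (a (a (a (l 16767184) (l 16767080)) (a (l 16766968) (l 16766856))) (b (a (a (l 16766792) (l 16766680)) (a (a (l 16766600) (l 16766544)) (a (l 16766488) (l 16766432)))) (a (a (l 16766728) (l 16766616)) (c (l 22) (a (l 16766392) (l 16766280))))))) (c (l 22) (a (a (a (l 16767776) (l 16767560)) (a (l 16767344) (l 16767128))) (a (a (l 16766904) (a (l 16766736) (l 16766624))) (a (a (l 16766512) (l 16766400)) (a (c (l 16766344) (l 16766232)) (a (l 16766200) (l 16766144)))))))) (c (l 22) (a (a (a (l 16767560) (b (l 16767448) (l 16767336))) (a (b (l 16767224) (l 16767112)) (b (l 16767008) (l 16766888)))) (a (a (b (l 16766784) (l 16766664)) (b (a (l 16766616) (l 16766504)) (a (l 16766496) (l 16766384)))) (a (b (a (l 16766392) (l 16766280)) (a (l 16766272) (l 16766152))) (b (a (c (l 16766224) (l 16766104)) (b (l 16766096) (l 16766032))) (a (c (l 16766096) (l 16765984)) (b (l 16765968) (l 16765912))))))))), by decide +kernel⟩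

def k91_A00pm_102_s1 : ∃ t, chk3 f_A00pm_102_s1 t 255 275 3 = true :=
  ⟨(c (l 22) (a (a (b (a (l 16767344) (b (l 16767216) (l 16767104))) (a (l 16767120) (l 16766896))) (b (a (b (l 16767000) (l 16766880)) (b (l 16766776) (l 16766656))) (a (b (l 16766768) (l 16766656)) (b (l 16766544) (l 16766424))))) (b (b (a (a (l 16766544) (a (l 16766376) (l 16766264))) (a (a (l 16766152) (l 16766032)) (a (c (l 16765976) (l 16765856)) (b (l 16765848) (l 16765784))))) (c (l 22) (a (a (l 16766376) (l 16766144)) (a (a (l 16765968) (l 16765856)) (a (l 16765736) (b (l 16765664) (l 16765600))))))) (c (l 22) (a (a (b (l 16766256) (l 16766136)) (b (l 16766024) (l 16765904))) (a (b (a (l 16765848) (l 16765728)) (a (l 16765728) (l 16765608))) (b (a (l 16765616) (b (l 16765544) (l 16765480))) (a (l 16765496) (b (l 16765416) (l 16765360)))))))))), by decide +kernel⟩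

def k92_A00pm_102_s1 : ∃ t, chk3 f_A00pm_102_s1 t 63 69 1 = true :=
  ⟨(a (b (a (a (b (a (l 16771904) (l 16771528)) (a (l 16770768) (l 16771088))) (b (a (l 16771144) (l 16770744)) (a (l 16770864) (l 16770456)))) (a (b (a (b (l 16770496) (l 16770344)) (b (l 16770104) (l 16769944))) (a (l 16770048) (b (l 16769784) (l 16769632)))) (b (a (b (l 16769704) (l 16769536)) (b (l 16769296) (l 16769120))) (a (b (l 16769368) (l 16769208)) (b (l 16768944) (l 16768776)))))) (b (a (a (a (l 16772680) (l 16769888)) (a (b (l 16776704) (l 16774528)) (b (l 16779632) (l 16778720)))) (a (a (l 16769864) (b (l 16769480) (l 16769328))) (a (b (l 16769048) (l 16768896)) (b (l 16768616) (l 16768456))))) (a (a (b (l 16770920) (l 16777368)) (a (l 16770920) (c (l 16826792) (l 16769680)))) (a (a (b (l 16770328) (l 16780712)) (c (l 16769008) (l 16768792))) (a (b (l 16768744) (l 16772328)) (b (l 16768296) (l 16768136))))))) (a (b (b (b (a (a (l 16768880) (a (l 16768560) (l 16768344))) (b (a (l 16768104) (c (l 22) (l 16767448))) (l 22)))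 (a (a (l 16768696) (l 22)) (l 22))) (a (a (b (l 16768520) (l 16768344)) (l 22)) (l 22))) (a (a (a (a (b (l 16768160) (l 16767840)) (l 22)) (l 22)) (l 22)) (l 22))) (c (l 22) (c (l 22) (c (l 22) (c (l 22) (b (b (b (b (b (b (a (a (l 16766856) (l 16766400)) (a (a (l 16766048) (l 16765816)) (a (l 16765584) (l 16765344)))) (l 22)) (l 22)) (l 22)) (l 22)) (l 22)) (l 22)))))))), by decide +kernel⟩

def k93_A00pm_102_s1 : ∃ t, chk3 f_A00pm_102_s1 t 62 35 1 = true :=
  ⟨(b (b (a (a (a (l 16849320) (l 16855496)) (a (l 16860024) (l 16862600))) (a (a (b (l 16850864) (l 16874800)) (c (l 16993912) (b (l 16818776) (l 16906888)))) (a (b (l 16798496) (l 16868016)) (c (l 16906544) (b (a (l 16771872) (l 16803488)) (l 16797040)))))) (a (a (l 16893256) (a (l 16987064) (l 16907856))) (a (a (l 16910608) (l 16911088)) (a (a (l 16909680) (l 16907792)) (b (l 16804928) (l 16917848)))))) (a (b (a (l 17017872) (l 16949624)) (a (l 17058056) (l 17076584))) (b (a (l 16959568) (a (l 16961872) (l 16876360))) (a (l 17090480) (l 17013984))))),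 by decide +kernel⟩

def k94_A00pm_102_s1 : ∃ t, chk3 f_A00pm_102_s1 t 63 35 1 = true :=
  ⟨(a (a (a (b (b (a (b (l 16775624) (l 16807816)) (c (l 16896496) (b (l 16778168) (l 16770640)))) (b (b (l 16786392) (l 16802352)) (l 16825920))) (b (a (l 16957056) (l 16869968)) (l 17013728))) (b (c (b (b (a (l 16956784) (l 16864504)) (l 16904592)) (l 16956088)) (b (b (a (l 16773392) (l 16771904)) (a (l 16778360) (l 16773856))) (b (a (l 16792952) (l 16779992)) (a (l 16827592) (l 16816480))))) (b (b (b (l 16838848) (l 16939216)) (l 16879536)) (l 16926160)))) (a (b (c (a (b (b (l 16854496) (l 16893048)) (l 16948296)) (b (b (l 16800784) (l 16883432)) (l 16941512))) (b (b (a (l 16768960) (l 16768504)) (b (l 16768792) (l 16768680))) (b (b (l 16768216) (l 16767400)) (b (l 16766232) (a (l 16813312) (l 16799568)))))) (b (c (l 17099736) (a (b (l 16841072) (l 16877000)) (b (l 16828824) (l 16866592)))) (b (l 16902576) (l 17019280)))) (b (b (a (c (b (b (l 16818008) (l 16840000)) (l 16872112)) (b (l 16768032) (l 16766640))) (b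 (b (l 16768304) (l 16766584)) (c (c (l 16992112) (l 16767680)) (l 16767256)))) (c (b (a (l 16913416) (l 16902592)) (l 16948840)) (a (b (l 16767048) (b (l 16783912) (l 16784096))) (b (l 16767344) (l 16766024))))) (c (b (l 17006392) (l 17161424)) (b (b (b (a (l 16804816) (l 16788672)) (a (l 16825112) (l 16810120))) (a (l 16854760) (a (l 16844880) (l 16837776)))) (b (a (l 16892920) (l 16881528)) (l 16924904))))))) (a (a (a (a (a (a (b (b (b (l 16767368) (l 16769912)) (c (c (l 17050352) (l 16868208)) (b (l 16770416) (l 16765480)))) (c (b (l 17083248) (l 17157856)) (b (b (l 16789840) (l 16833128)) (l 16852376)))) (l 22)) (l 22)) (l 22)) (l 22)) (l 22)) (l 22))), by decide +kernel⟩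

def k95_A00pm_102_s1 : ∃ t, chk3 f_A00pm_102_s1 t 14 9 1 = true :=
  ⟨(b (a (b (a (l 3) (b (l 3) (a (b (l 3) (l 566821007)) (b (l 567970959) (l 567472271))))) (a (l 564728975) (a (l 565616015) (b (b (l 566974863) (l 566479503)) (l 565745551))))) (b (a (b (l 569774223) (l 568787343)) (b (a (l 570603663) (l 571138191)) (l 570108559))) (a (b (b (l 566959247) (l 567530383)) (l 566780303)) (b (l 569140367) (l 568139919))))) (b (a (a (l 562900879) (b (l 564519567) (l 563582095))) (a (b (l 565784463) (l 17042944)) (a (l 16999328) (l 17130160)))) (a (a (l 561171343) (l 562231695)) (a (l 17046608) (b (l 17177400) (l 17224448)))))), by decide +kernel⟩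

def k96_A00pm_102_s1 : ∃ t, chk3 f_A00pm_102_s1 t 15 9 1 = true :=
  ⟨(a (b (b (a (a (b (l 571574927) (l 16902848)) (b (l 571861903) (l 17039312))) (b (a (l 16943560) (b (l 17061752) (l 17097568))) (a (l 17094024) (l 17065432)))) (a (a (b (l 17047120) (l 17103544)) (b (l 17100408) (l 17157824))) (b (a (l 17156272) (l 17215808)) (a (l 17216800) (l 17281632))))) (b (a (a (b (l 17155936) (l 17206784)) (b (l 17212584) (l 17269240))) (b (l 17312208) (l 17375096))) (a (b (l 17293928) (l 17355312)) (l 17385456)))) (a (b (b (b (a (b (l 17108376) (l 17147608)) (a (l 17157776) (a (l 17168960) (l 17090712)))) (a (l 17203744) (l 17167816))) (b (a (l 17275640) (l 17330640)) (l 17292728))) (b (a (l 17447552) (l 17513112)) (l 17613104))) (b (a (b (a (b (b (l 17068920) (l 17205840)) (l 17279032)) (b (b (a (l 17066152) (l 16976544)) (l 17124328)) (l 17122704))) (b (l 17375560) (l 17457336))) (b (a (a (b (b (b (b (l 16939976) (l 17042112)) (l 17068680)) (l 17119072)) (l 17210160)) (b (c (l 17169936) (l 22)) (l 17125656)))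 (b (c (b (a (l 17208264) (l 22)) (l 17280592)) (l 22)) (b (a (l 17172448) (l 17078832)) (l 17152456)))) (b (a (l 17397088) (l 17318296)) (l 17491960)))) (a (b (l 17571448) (l 17711016)) (b (c (l 17694512) (l 17537792)) (l 17764480)))))), by decide +kernel⟩

def k97_A00pm_102_s1 : ∃ t, chk3 f_A00pm_102_s1 t 7 5 1 = true :=
  ⟨(b (a (b (b (a (a (l 17008480) (b (l 17095024) (l 17132768))) (a (b (l 17172328) (l 17218984)) (b (l 17278112) (l 17343568)))) (b (a (a (l 17103912) (l 17178056)) (a (l 17286160) (l 17414112))) (a (b (a (l 17135544) (l 17231728)) (b (b (l 17210008) (l 17229808)) (l 17254776))) (b (l 17368056) (a (l 17402128) (l 17522048)))))) (a (a (l 17276464) (l 17386512)) (a (l 17503648) (l 17627472)))) (b (a (b (a (l 17366664) (l 17595088)) (b (a (l 17549792) (l 17690568)) (b (l 17589024) (a (l 17648504) (l 17779480))))) (b (a (l 17739216) (l 17785872)) (b (a (l 17831064) (l 17960624)) (a (b (l 17877552) (l 17910600)) (b (l 18004304) (a (l 18002608) (l 18059248))))))) (a (a (l 17757096) (l 17890552))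 (a (l 18023800) (l 18148216))))) (a (a (b (l 17468504) (l 17488248)) (b (l 17645864) (l 17775032))) (a (b (l 17845384) (l 18082896)) (a (l 18256288) (l 18397032))))), by decide +kernel⟩

def k98_A00pm_102_s1 : ∃ t, chk3 f_A00pm_102_s1 t 3 3 1 = true :=
  ⟨(b (a (a (l 17531424) (b (l 17548256) (l 17238816))) (b (a (a (l 17691752) (l 17848408)) (a (l 18192136) (l 6))) (a (l 6) (l 6)))) (l 6)), by decide +kernel⟩

theorem t99_A00pm_102_s1 : ∃ t, chk3 f_A00pm_102_s1 t 7 9 1 = true := ex3_a k95_A00pm_102_s1 k96_A00pm_102_s1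

theorem t100_A00pm_102_s1 : ∃ t, chk3 f_A00pm_102_s1 t 31 35 1 = true := ex3_a k93_A00pm_102_s1 k94_A00pm_102_s1

theorem t101_A00pm_102_s1 : ∃ t, chk3 f_A00pm_102_s1 t 255 137 3 = true := ex3_b k90_A00pm_102_s1 k91_A00pm_102_s1

theorem t102_A00pm_102_s1 : ∃ t, chk3 f_A00pm_102_s1 t 511 136 3 = true := ex3_a k88_A00pm_102_s1 k89_A00pm_102_s1

theorem t103_A00pm_102_s1 : ∃ t, chk3 f_A00pm_102_s1 t 255 136 3 = true := ex3_a k87_A00pm_102_s1 t102_A00pm_102_s1

theorem t104_A00pm_102_s1 : ∃ t, chk3 f_A00pm_102_s1 t 255 68 3 = true := ex3_b t103_A00pm_102_s1 t101_A00pm_102_s1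

theorem t105_A00pm_102_s1 : ∃ t, chk3 f_A00pm_102_s1 t 255 68 1 = true := ex3_c k86_A00pm_102_s1 t104_A00pm_102_s1

theorem t106_A00pm_102_s1 : ∃ t, chk3 f_A00pm_102_s1 t 127 68 1 = true := ex3_a k85_A00pm_102_s1 t105_A00pm_102_s1

theorem t107_A00pm_102_s1 : ∃ t, chk3 f_A00pm_102_s1 t 63 68 1 = true := ex3_a k84_A00pm_102_s1 t106_A00pm_102_s1

theorem t108_A00pm_102_s1 : ∃ t, chk3 f_A00pm_102_s1 t 63 34 1 = true := ex3_b t107_A00pm_102_s1 k92_A00pm_102_s1

theorem t109_A00pm_102_s1 : ∃ t, chk3 f_A00pm_102_s1 t 62 68 1 = true := ex3_b k81_A00pm_102_s1 k82_A00pm_102_s1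

theorem t110_A00pm_102_s1 : ∃ t, chk3 f_A00pm_102_s1 t 62 34 1 = true := ex3_b t109_A00pm_102_s1 k83_A00pm_102_s1

theorem t111_A00pm_102_s1 : ∃ t, chk3 f_A00pm_102_s1 t 31 34 1 = true := ex3_a t110_A00pm_102_s1 t108_A00pm_102_s1

theorem t112_A00pm_102_s1 : ∃ t, chk3 f_A00pm_102_s1 t 31 17 1 = true := ex3_b t111_A00pm_102_s1 t100_A00pm_102_s1

theorem t113_A00pm_102_s1 : ∃ t, chk3 f_A00pm_102_s1 t 511 271 1 = true := ex3_b k79_A00pm_102_s1 k80_A00pm_102_s1

theorem t114_A00pm_102_s1 : ∃ t, chk3 f_A00pm_102_s1 t 511 135 1 = true := ex3_b k78_A00pm_102_s1 t113_A00pm_102_s1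

theorem t115_A00pm_102_s1 : ∃ t, chk3 f_A00pm_102_s1 t 255 135 1 = true := ex3_a k77_A00pm_102_s1 t114_A00pm_102_s1

theorem t116_A00pm_102_s1 : ∃ t, chk3 f_A00pm_102_s1 t 127 135 1 = true := ex3_a k76_A00pm_102_s1 t115_A00pm_102_s1

theorem t117_A00pm_102_s1 : ∃ t, chk3 f_A00pm_102_s1 t 63 135 1 = true := ex3_a k75_A00pm_102_s1 t116_A00pm_102_s1

theorem t118_A00pm_102_s1 : ∃ t, chk3 f_A00pm_102_s1 t 255 269 1 = true := ex3_a k73_A00pm_102_s1 k74_A00pm_102_s1

theorem t119_A00pm_102_s1 : ∃ t, chk3 f_A00pm_102_s1 t 127 269 1 = true := ex3_a k72_A00pm_102_s1 t118_A00pm_102_s1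

theorem t120_A00pm_102_s1 : ∃ t, chk3 f_A00pm_102_s1 t 63 269 1 = true := ex3_a k71_A00pm_102_s1 t119_A00pm_102_s1

theorem t121_A00pm_102_s1 : ∃ t, chk3 f_A00pm_102_s1 t 255 268 1 = true := ex3_a k69_A00pm_102_s1 k70_A00pm_102_s1

theorem t122_A00pm_102_s1 : ∃ t, chk3 f_A00pm_102_s1 t 127 268 1 = true := ex3_a k68_A00pm_102_s1 t121_A00pm_102_s1

theorem t123_A00pm_102_s1 : ∃ t, chk3 f_A00pm_102_s1 t 63 268 1 = true := ex3_a k67_A00pm_102_s1 t122_A00pm_102_s1

theorem t124_A00pm_102_s1 : ∃ t, chk3 f_A00pm_102_s1 t 63 134 1 = true := ex3_b t123_A00pm_102_s1 t120_A00pm_102_s1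

theorem t125_A00pm_102_s1 : ∃ t, chk3 f_A00pm_102_s1 t 63 67 1 = true := ex3_b t124_A00pm_102_s1 t117_A00pm_102_s1

theorem t126_A00pm_102_s1 : ∃ t, chk3 f_A00pm_102_s1 t 62 67 1 = true := ex3_a k65_A00pm_102_s1 k66_A00pm_102_s1

theorem t127_A00pm_102_s1 : ∃ t, chk3 f_A00pm_102_s1 t 31 67 1 = true := ex3_a t126_A00pm_102_s1 t125_A00pm_102_s1

theorem t128_A00pm_102_s1 : ∃ t, chk3 f_A00pm_102_s1 t 2047 66 1 = true := ex3_b k63_A00pm_102_s1 k64_A00pm_102_s1

theorem t129_A00pm_102_s1 : ∃ t, chk3 f_A00pm_102_s1 t 1023 66 1 = true := ex3_a k62_A00pm_102_s1 t128_A00pm_102_s1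

theorem t130_A00pm_102_s1 : ∃ t, chk3 f_A00pm_102_s1 t 1022 66 1 = true := ex3_b k60_A00pm_102_s1 k61_A00pm_102_s1

theorem t131_A00pm_102_s1 : ∃ t, chk3 f_A00pm_102_s1 t 511 66 1 = true := ex3_a t130_A00pm_102_s1 t129_A00pm_102_s1

theorem t132_A00pm_102_s1 : ∃ t, chk3 f_A00pm_102_s1 t 510 66 1 = true := ex3_a k58_A00pm_102_s1 k59_A00pm_102_s1

theorem t133_A00pm_102_s1 : ∃ t, chk3 f_A00pm_102_s1 t 255 66 1 = true := ex3_a t132_A00pm_102_s1 t131_A00pm_102_s1

theorem t134_A00pm_102_s1 : ∃ t, chk3 f_A00pm_102_s1 t 254 132 1 = true := ex3_a k55_A00pm_102_s1 k56_A00pm_102_s1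

theorem t135_A00pm_102_s1 : ∃ t, chk3 f_A00pm_102_s1 t 254 66 1 = true := ex3_b t134_A00pm_102_s1 k57_A00pm_102_s1

theorem t136_A00pm_102_s1 : ∃ t, chk3 f_A00pm_102_s1 t 127 66 1 = true := ex3_a t135_A00pm_102_s1 t133_A00pm_102_s1

theorem t137_A00pm_102_s1 : ∃ t, chk3 f_A00pm_102_s1 t 126 133 1 = true := ex3_a k53_A00pm_102_s1 k54_A00pm_102_s1

theorem t138_A00pm_102_s1 : ∃ t, chk3 f_A00pm_102_s1 t 253 132 1 = true := ex3_b k51_A00pm_102_s1 k52_A00pm_102_s1

theorem t139_A00pm_102_s1 : ∃ t, chk3 f_A00pm_102_s1 t 505 132 1 = true := ex3_a k49_A00pm_102_s1 k50_A00pm_102_s1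

theorem t140_A00pm_102_s1 : ∃ t, chk3 f_A00pm_102_s1 t 504 132 1 = true := ex3_a k47_A00pm_102_s1 k48_A00pm_102_s1

theorem t141_A00pm_102_s1 : ∃ t, chk3 f_A00pm_102_s1 t 252 132 1 = true := ex3_a t140_A00pm_102_s1 t139_A00pm_102_s1

theorem t142_A00pm_102_s1 : ∃ t, chk3 f_A00pm_102_s1 t 126 132 1 = true := ex3_a t141_A00pm_102_s1 t138_A00pm_102_s1

theorem t143_A00pm_102_s1 : ∃ t, chk3 f_A00pm_102_s1 t 126 66 1 = true := ex3_b t142_A00pm_102_s1 t137_A00pm_102_s1

theorem t144_A00pm_102_s1 : ∃ t, chk3 f_A00pm_102_s1 t 63 66 1 = true := ex3_a t143_A00pm_102_s1 t136_A00pm_102_s1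

theorem t145_A00pm_102_s1 : ∃ t, chk3 f_A00pm_102_s1 t 503 66 1 = true := ex3_a k45_A00pm_102_s1 k46_A00pm_102_s1

theorem t146_A00pm_102_s1 : ∃ t, chk3 f_A00pm_102_s1 t 502 66 1 = true := ex3_a k43_A00pm_102_s1 k44_A00pm_102_s1

theorem t147_A00pm_102_s1 : ∃ t, chk3 f_A00pm_102_s1 t 251 66 1 = true := ex3_a t146_A00pm_102_s1 t145_A00pm_102_s1

theorem t148_A00pm_102_s1 : ∃ t, chk3 f_A00pm_102_s1 t 125 66 1 = true := ex3_a k42_A00pm_102_s1 t147_A00pm_102_s1

theorem t149_A00pm_102_s1 : ∃ t, chk3 f_A00pm_102_s1 t 62 66 1 = true := ex3_a k41_A00pm_102_s1 t148_A00pm_102_s1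

theorem t150_A00pm_102_s1 : ∃ t, chk3 f_A00pm_102_s1 t 31 66 1 = true := ex3_a t149_A00pm_102_s1 t144_A00pm_102_s1

theorem t151_A00pm_102_s1 : ∃ t, chk3 f_A00pm_102_s1 t 31 33 1 = true := ex3_b t150_A00pm_102_s1 t127_A00pm_102_s1

theorem t152_A00pm_102_s1 : ∃ t, chk3 f_A00pm_102_s1 t 1023 131 1 = true := ex3_a k39_A00pm_102_s1 k40_A00pm_102_s1

theorem t153_A00pm_102_s1 : ∃ t, chk3 f_A00pm_102_s1 t 511 131 1 = true := ex3_a k38_A00pm_102_s1 t152_A00pm_102_s1

theorem t154_A00pm_102_s1 : ∃ t, chk3 f_A00pm_102_s1 t 511 65 1 = true := ex3_b k37_A00pm_102_s1 t153_A00pm_102_s1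

theorem t155_A00pm_102_s1 : ∃ t, chk3 f_A00pm_102_s1 t 510 131 1 = true := ex3_b k35_A00pm_102_s1 k36_A00pm_102_s1

theorem t156_A00pm_102_s1 : ∃ t, chk3 f_A00pm_102_s1 t 510 130 1 = true := ex3_b k33_A00pm_102_s1 k34_A00pm_102_s1

theorem t157_A00pm_102_s1 : ∃ t, chk3 f_A00pm_102_s1 t 510 65 1 = true := ex3_b t156_A00pm_102_s1 t155_A00pm_102_s1

theorem t158_A00pm_102_s1 : ∃ t, chk3 f_A00pm_102_s1 t 255 65 1 = true := ex3_a t157_A00pm_102_s1 t154_A00pm_102_s1

theorem t159_A00pm_102_s1 : ∃ t, chk3 f_A00pm_102_s1 t 254 262 1 = true := ex3_a k30_A00pm_102_s1 k31_A00pm_102_s1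

theorem t160_A00pm_102_s1 : ∃ t, chk3 f_A00pm_102_s1 t 254 131 1 = true := ex3_b t159_A00pm_102_s1 k32_A00pm_102_s1

theorem t161_A00pm_102_s1 : ∃ t, chk3 f_A00pm_102_s1 t 254 261 1 = true := ex3_a k28_A00pm_102_s1 k29_A00pm_102_s1

theorem t162_A00pm_102_s1 : ∃ t, chk3 f_A00pm_102_s1 t 254 521 1 = true := ex3_b k26_A00pm_102_s1 k27_A00pm_102_s1

theorem t163_A00pm_102_s1 : ∃ t, chk3 f_A00pm_102_s1 t 254 520 1 = true := ex3_a k24_A00pm_102_s1 k25_A00pm_102_s1

theorem t164_A00pm_102_s1 : ∃ t, chk3 f_A00pm_102_s1 t 254 260 1 = true := ex3_b t163_A00pm_102_s1 t162_A00pm_102_s1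

theorem t165_A00pm_102_s1 : ∃ t, chk3 f_A00pm_102_s1 t 254 130 1 = true := ex3_b t164_A00pm_102_s1 t161_A00pm_102_s1

theorem t166_A00pm_102_s1 : ∃ t, chk3 f_A00pm_102_s1 t 254 65 1 = true := ex3_b t165_A00pm_102_s1 t160_A00pm_102_s1

theorem t167_A00pm_102_s1 : ∃ t, chk3 f_A00pm_102_s1 t 127 65 1 = true := ex3_a t166_A00pm_102_s1 t158_A00pm_102_s1

theorem t168_A00pm_102_s1 : ∃ t, chk3 f_A00pm_102_s1 t 509 259 1 = true := ex3_b k21_A00pm_102_s1 k22_A00pm_102_s1

theorem t169_A00pm_102_s1 : ∃ t, chk3 f_A00pm_102_s1 t 509 129 1 = true := ex3_b k20_A00pm_102_s1 t168_A00pm_102_s1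

theorem t170_A00pm_102_s1 : ∃ t, chk3 f_A00pm_102_s1 t 508 129 1 = true := ex3_b k18_A00pm_102_s1 k19_A00pm_102_s1

theorem t171_A00pm_102_s1 : ∃ t, chk3 f_A00pm_102_s1 t 254 129 1 = true := ex3_a t170_A00pm_102_s1 t169_A00pm_102_s1

theorem t172_A00pm_102_s1 : ∃ t, chk3 f_A00pm_102_s1 t 254 64 1 = true := ex3_b k17_A00pm_102_s1 t171_A00pm_102_s1

theorem t173_A00pm_102_s1 : ∃ t, chk3 f_A00pm_102_s1 t 127 64 1 = true := ex3_a t172_A00pm_102_s1 k23_A00pm_102_s1

theorem t174_A00pm_102_s1 : ∃ t, chk3 f_A00pm_102_s1 t 127 32 1 = true := ex3_b t173_A00pm_102_s1 t167_A00pm_102_s1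

theorem t175_A00pm_102_s1 : ∃ t, chk3 f_A00pm_102_s1 t 1015 65 1 = true := ex3_b k15_A00pm_102_s1 k16_A00pm_102_s1

theorem t176_A00pm_102_s1 : ∃ t, chk3 f_A00pm_102_s1 t 1014 65 1 = true := ex3_a k13_A00pm_102_s1 k14_A00pm_102_s1

theorem t177_A00pm_102_s1 : ∃ t, chk3 f_A00pm_102_s1 t 507 65 1 = true := ex3_a t176_A00pm_102_s1 t175_A00pm_102_s1

theorem t178_A00pm_102_s1 : ∃ t, chk3 f_A00pm_102_s1 t 506 65 1 = true := ex3_a k11_A00pm_102_s1 k12_A00pm_102_s1

theorem t179_A00pm_102_s1 : ∃ t, chk3 f_A00pm_102_s1 t 253 65 1 = true := ex3_a t178_A00pm_102_s1 t177_A00pm_102_s1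

theorem t180_A00pm_102_s1 : ∃ t, chk3 f_A00pm_102_s1 t 504 131 1 = true := ex3_b k8_A00pm_102_s1 k9_A00pm_102_s1

theorem t181_A00pm_102_s1 : ∃ t, chk3 f_A00pm_102_s1 t 252 131 1 = true := ex3_a t180_A00pm_102_s1 k10_A00pm_102_s1

theorem t182_A00pm_102_s1 : ∃ t, chk3 f_A00pm_102_s1 t 252 65 1 = true := ex3_b k7_A00pm_102_s1 t181_A00pm_102_s1

theorem t183_A00pm_102_s1 : ∃ t, chk3 f_A00pm_102_s1 t 126 65 1 = true := ex3_a t182_A00pm_102_s1 t179_A00pm_102_s1

theorem t184_A00pm_102_s1 : ∃ t, chk3 f_A00pm_102_s1 t 126 32 1 = true := ex3_b k6_A00pm_102_s1 t183_A00pm_102_s1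

theorem t185_A00pm_102_s1 : ∃ t, chk3 f_A00pm_102_s1 t 63 32 1 = true := ex3_a t184_A00pm_102_s1 t174_A00pm_102_s1

theorem t186_A00pm_102_s1 : ∃ t, chk3 f_A00pm_102_s1 t 31 32 1 = true := ex3_a k5_A00pm_102_s1 t185_A00pm_102_s1

theorem t187_A00pm_102_s1 : ∃ t, chk3 f_A00pm_102_s1 t 31 16 1 = true := ex3_b t186_A00pm_102_s1 t151_A00pm_102_s1

theorem t188_A00pm_102_s1 : ∃ t, chk3 f_A00pm_102_s1 t 31 8 1 = true := ex3_b t187_A00pm_102_s1 t112_A00pm_102_s1

theorem t189_A00pm_102_s1 : ∃ t, chk3 f_A00pm_102_s1 t 30 8 1 = true := ex3_b k3_A00pm_102_s1 k4_A00pm_102_s1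

theorem t190_A00pm_102_s1 : ∃ t, chk3 f_A00pm_102_s1 t 15 8 1 = true := ex3_a t189_A00pm_102_s1 t188_A00pm_102_s1

theorem t191_A00pm_102_s1 : ∃ t, chk3 f_A00pm_102_s1 t 7 8 1 = true := ex3_a k2_A00pm_102_s1 t190_A00pm_102_s1

theorem t192_A00pm_102_s1 : ∃ t, chk3 f_A00pm_102_s1 t 7 4 1 = true := ex3_b t191_A00pm_102_s1 t99_A00pm_102_s1

theorem t193_A00pm_102_s1 : ∃ t, chk3 f_A00pm_102_s1 t 7 2 1 = true := ex3_b t192_A00pm_102_s1 k97_A00pm_102_s1

theorem t194_A00pm_102_s1 : ∃ t, chk3 f_A00pm_102_s1 t 3 2 1 = true := ex3_a k1_A00pm_102_s1 t193_A00pm_102_s1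

theorem t195_A00pm_102_s1 : ∃ t, chk3 f_A00pm_102_s1 t 3 1 1 = true := ex3_b t194_A00pm_102_s1 k98_A00pm_102_s1

theorem t196_A00pm_102_s1 : ∃ t, chk3 f_A00pm_102_s1 t 1 1 1 = true := ex3_a k0_A00pm_102_s1 t195_A00pm_102_s1

theorem c_A00pm_102_s1 : CertF 536870912 536870912 0 536870912 50331648 16777216 true true false .npp 1 0 2
    ndF0q1 ndF0q0 pcF2 cut_A00pm_102_s1 xt_A00pm_102_s1 :=
  certFK1 (fam := true) (s1 := true) (s2 := false) (a := 1) (b := 0) (c := 2) (cn := .npp) (n1 := ndF0q1) (n2 := ndF0q0) (pc := pcF2) (cut := cut_A00pm_102_s1) (xt := xt_A00pm_102_s1) (P1 := 536870912) (W1 := 536870912) (P2 := 0) (W2 := 536870912) (P3 := 50331648) (W3 := 16777216)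
    rfl rfl rfl (fun _ => rfl) t196_A00pm_102_s1

theorem s_A00pm_102_s1 {κ x : ℝ} (hκ : κ * h0 = ken x) (hx : ((50331648 : ℕ) : ℝ) / S ≤ x)
    (hx' : x ≤ (((50331648 : ℕ) : ℝ) + (16777216 : ℕ)) / S)
    (H : CutA (VF κ) PP tKF tL pcF (Cut.of [[⟨0, 1, 0, 12582912⟩, ⟨1, 0, 0, 12582912⟩, ⟨2, 1, 0, 12582912⟩], [⟨0, 1, 0, 8388608⟩, ⟨1, 0, 1, 25165824⟩, ⟨2, 1, 1, 25165824⟩, ⟨1, 0, 0, 83886080⟩, ⟨1, 1, 0, 1040187392⟩, ⟨2, 1, 0, 83886080⟩, ⟨2, 2, 0, 1040187392⟩]]) 1 0 2 0 0 (sgb true) (sgb false) x) :
    AltA (VF κ) PP tKF tL pcF [⟨3, 0, 0, 1449551462⟩] 1 0 2 0 0 (sgb true) (sgb false) x :=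
  strip_altA (m := 1449551462) true rfl hκ covF01 covF00 hx hx' c_A00pm_102_s1 H ((okx hx hx').extA (T := tt) (sideF hx hx') hκ rfl rfl (.O 1 true) (.O 0 false) rfl)

end Pool.Agent.Strip051.G.I3_64_1_16.Tab.St.C
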