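import Pool.Agent.Strip051.G.I3_64_1_16.StF

/-! # Unit strips 4 (generated) -/

set_option linter.all false
set_option maxRecDepth 100000

namespace Pool.Agent.Strip051.G.I3_64_1_16.Tab.St.C

open Pool.Agent.Strip051.PB Pool.Agent.Strip051.PB.T Pool.Agent.StripNear Pool.Agent.Strip051.LC
open Pool.Agent.Strip051.G.I3_64_1_16.Tab Pool.Agent.Strip051.G.I3_64_1_16.Tab.St

noncomputable def cut_A00pm_102_s3 : Cut := Cut.of [[⟨3, 0, 0, 2845415833⟩], [⟨0, 1, 0, 12582912⟩, ⟨1, 0, 0, 12582912⟩, ⟨2, 1, 0, 12582912⟩], [⟨0, 1, 0, 8388608⟩, ⟨1, 0, 1, 25165824⟩, ⟨2, 1, 1, 25165824⟩, ⟨1, 0, 0, 83886080⟩, ⟨1, 1, 0, 1040187392⟩, ⟨2, 1, 0, 83886080⟩, ⟨2, 2, 0, 1040187392⟩]]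

noncomputable def f_A00pm_102_s3 : ℕ → ℕ → ℕ → ℕ → Bool := onCell 536870912 536870912 0 536870912 50331648 16777216
    (rowFK 0 true true false .npp 1 0 2 (qsf 536870912 536870912 0 536870912 2) ndF0q1 ndF0q0 pcF2 cut_A00pm_102_s3 Ext.none)

def k0_A00pm_102_s3 : ∃ t, chk3 f_A00pm_102_s3 t 1 1 1 = true :=
  ⟨(l 6), by decide +kernel⟩

theorem c_A00pm_102_s3 : CertF 536870912 536870912 0 536870912 50331648 16777216 true true false .npp 1 0 2
    ndF0q1 ndF0q0 pcF2 cut_A00pm_102_s3 Ext.none :=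
  certFK0 (fam := true) (s1 := true) (s2 := false) (a := 1) (b := 0) (c := 2) (cn := .npp) (n1 := ndF0q1) (n2 := ndF0q0) (pc := pcF2) (cut := cut_A00pm_102_s3) (xt := Ext.none) (P1 := 536870912) (W1 := 536870912) (P2 := 0) (W2 := 536870912) (P3 := 50331648) (W3 := 16777216)
    rfl rfl rfl k0_A00pm_102_s3

theorem s_A00pm_102_s3 {κ x : ℝ} (hκ : κ * h0 = ken x) (hx : ((50331648 : ℕ) : ℝ) / S ≤ x)
    (hx' : x ≤ (((50331648 : ℕ) : ℝ) + (16777216 : ℕ)) / S)
    (H : CutA (VF κ) PP tKF tL pcF (Cut.of [[⟨0, 1, 0, 12582912⟩, ⟨1, 0, 0, 12582912⟩, ⟨2, 1, 0, 12582912⟩], [⟨0, 1, 0, 8388608⟩, ⟨1, 0, 1, 25165824⟩, ⟨2, 1, 1, 25165824⟩, ⟨1, 0, 0, 83886080⟩, ⟨1, 1, 0, 1040187392⟩, ⟨2, 1, 0, 83886080⟩, ⟨2, 2, 0, 1040187392⟩]]) 1 0 2 0 0 (sgb true) (sgb false) x) :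
    AltA (VF κ) PP tKF tL pcF [⟨4, 0, 0, 2845415833⟩] 1 0 2 0 0 (sgb true) (sgb false) x :=
  strip_altA (m := 2845415833) false rfl hκ covF01 covF00 hx hx' c_A00pm_102_s3 H (noExt_A)

noncomputable def cut_A00pm_112_s1 : Cut := Cut.of [[⟨4, 0, 0, 1449551462⟩]]

noncomputable def xt_A00pm_112_s1 : Ext := strExt dd true true false .u0 .u0m .u2 .dn 1 1 2 rfl rfl gf2 vv ndF0q1 ndF0q1

noncomputable def f_A00pm_112_s1 : ℕ → ℕ → ℕ → ℕ → Bool := onCell 536870912 536870912 1073741824 536870912 50331648 16777216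
    (rowFK 1 true true false .dn 1 1 2 (qsf 536870912 536870912 536870912 536870912 2) ndF0q1 ndF0q1 pcF2 cut_A00pm_112_s1 xt_A00pm_112_s1)

def k0_A00pm_112_s1 : ∃ t, chk3 f_A00pm_112_s1 t 1 1 1 = true :=
  ⟨(a (b (b (b (l 3) (l 3)) (b (a (b (b (l 3) (b (l 3) (b (b (l 3) (a (a (a (l 547382143) (l 3)) (l 3)) (l 3))) (a (a (b (b (l 546639743) (b (l 546628479) (l 546632575))) (a (l 16797544) (a (l 16784224) (l 16788016)))) (b (l 545974591) (b (b (l 545956911) (a (a (l 16780888) (l 16779920)) (a (l 16781784) (a (l 16778720) (l 16778488))))) (l 545940063)))) (b (a (l 3) (l 546021967)) (b (b (l 545772591) (b (b (l 545763887) (b (l 545761327) (b (l 545760047) (a (a (a (l 16778208) (l 16778032)) (a (l 16778048) (l 16778248))) (a (a (l 16778640) (l 16779224)) (a (l 16780016) (l 16781024))))))) (l 545755231))) (l 545738335))))))) (a (b (a (b (a (l 16822656) (a (l 16798208) (l 16796392))) (l 16822280)) (l 545830495))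 (l 16934088)) (l 545302111))) (a (b (b (l 3) (a (b (l 3) (b (b (l 3) (a (l 546915471) (l 547682191))) (b (b (l 546782351) (a (l 546425743) (l 546877327))) (a (a (l 16782944) (l 16784432)) (l 16797816))))) (b (l 1) (b (l 1) (b (l 1) (l 177201034615)))))) (b (a (b (a (l 16806976) (l 16821384)) (l 16818352)) (b (b (l 16825112) (l 16814944)) (l 16830648))) (l 16937304))) (b (l 1) (l 173980218759)))) (a (a (b (l 17082512) (l 16998000)) (b (l 16972256) (l 16953928))) (a (a (l 17011112) (l 17027816)) (a (l 17052832) (l 17086552)))))) (b (a (a (b (l 17202800) (l 17179832)) (l 17534568)) (a (a (l 17238064) (l 17234624)) (l 17405472))) (a (l 6) (l 6)))) (b (a (b (l 1) (b (l 1) (a (l 160022090375) (l 1)))) (l 1)) (b (a (a (l 17531440) (b (l 17548760) (l 17322880))) (a (b (l 1) (l 6)) (l 1))) (l 6)))), by decide +kernel⟩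

theorem c_A00pm_112_s1 : CertF 536870912 536870912 536870912 536870912 50331648 16777216 true true false .dn 1 1 2
    ndF0q1 ndF0q1 pcF2 cut_A00pm_112_s1 xt_A00pm_112_s1 :=
  certFK1 (fam := true) (s1 := true) (s2 := false) (a := 1) (b := 1) (c := 2) (cn := .dn) (n1 := ndF0q1) (n2 := ndF0q1) (pc := pcF2) (cut := cut_A00pm_112_s1) (xt := xt_A00pm_112_s1) (P1 := 536870912) (W1 := 536870912) (P2 := 536870912) (W2 := 536870912) (P3 := 50331648) (W3 := 16777216)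
    rfl rfl rfl (fun _ => rfl) k0_A00pm_112_s1

theorem s_A00pm_112_s1 {κ x : ℝ} (hκ : κ * h0 = ken x) (hx : ((50331648 : ℕ) : ℝ) / S ≤ x)
    (hx' : x ≤ (((50331648 : ℕ) : ℝ) + (16777216 : ℕ)) / S) :
    AltA (VF κ) PP tKF tL pcF [⟨3, 0, 0, 1449551462⟩] 1 1 2 0 0 (sgb true) (sgb false) x :=
  strip_altA (m := 1449551462) true rfl hκ covF01 covF01 hx hx' c_A00pm_112_s1 cutA_nil ((okx hx hx').extA (T := tt) (sideF hx hx') hκ rfl rfl (.O 1 true) (.O 1 false) rfl)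

noncomputable def cut_A00pm_112_s3 : Cut := Cut.of [[⟨3, 0, 0, 2845415833⟩]]

noncomputable def f_A00pm_112_s3 : ℕ → ℕ → ℕ → ℕ → Bool := onCell 536870912 536870912 1073741824 536870912 50331648 16777216
    (rowFK 1 true true false .dn 1 1 2 (qsf 536870912 536870912 536870912 536870912 2) ndF0q1 ndF0q1 pcF2 cut_A00pm_112_s3 Ext.none)

def k0_A00pm_112_s3 : ∃ t, chk3 f_A00pm_112_s3 t 1 1 1 = true :=
  ⟨(l 6), by decide +kernel⟩

theorem c_A00pm_112_s3 : CertF 536870912 536870912 536870912 536870912 50331648 16777216 true true false .dn 1 1 2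
    ndF0q1 ndF0q1 pcF2 cut_A00pm_112_s3 Ext.none :=
  certFK1 (fam := true) (s1 := true) (s2 := false) (a := 1) (b := 1) (c := 2) (cn := .dn) (n1 := ndF0q1) (n2 := ndF0q1) (pc := pcF2) (cut := cut_A00pm_112_s3) (xt := Ext.none) (P1 := 536870912) (W1 := 536870912) (P2 := 536870912) (W2 := 536870912) (P3 := 50331648) (W3 := 16777216)
    rfl rfl rfl (fun _ => rfl) k0_A00pm_112_s3

theorem s_A00pm_112_s3 {κ x : ℝ} (hκ : κ * h0 = ken x) (hx : ((50331648 : ℕ) : ℝ) / S ≤ x)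
    (hx' : x ≤ (((50331648 : ℕ) : ℝ) + (16777216 : ℕ)) / S) :
    AltA (VF κ) PP tKF tL pcF [⟨4, 0, 0, 2845415833⟩] 1 1 2 0 0 (sgb true) (sgb false) x :=
  strip_altA (m := 2845415833) false rfl hκ covF01 covF01 hx hx' c_A00pm_112_s3 cutA_nil (noExt_A)

noncomputable def cut_A00pm_113_s1 : Cut := Cut.of [[⟨4, 0, 0, 1449551462⟩], [⟨0, 1, 0, 14341072⟩, ⟨1, 1, 0, 14341072⟩, ⟨2, 2, 0, 761489⟩]]

noncomputable def f_A00pm_113_s1 : ℕ → ℕ → ℕ → ℕ → Bool := onCell 536870912 536870912 1610612736 536870912 50331648 16777216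
    (rowFK 1 true true false .nn 1 1 3 (qsf 536870912 536870912 536870912 536870912 3) ndF0q1 ndF0q1 pcF3 cut_A00pm_113_s1 Ext.none)

def k0_A00pm_113_s1 : ∃ t, chk3 f_A00pm_113_s1 t 1 1 1 = true :=
  ⟨(b (a (b (l 6) (l 6)) (l 6)) (l 6)), by decide +kernel⟩

theorem c_A00pm_113_s1 : CertF 536870912 536870912 536870912 536870912 50331648 16777216 true true false .nn 1 1 3
    ndF0q1 ndF0q1 pcF3 cut_A00pm_113_s1 Ext.none :=
  certFK1 (fam := true) (s1 := true) (s2 := false) (a := 1) (b := 1) (c := 3) (cn := .nn) (n1 := ndF0q1) (n2 := ndF0q1) (pc := pcF3) (cut := cut_A00pm_113_s1) (xt := Ext.none) (P1 := 536870912) (W1 := 536870912) (P2 := 536870912) (W2 := 536870912) (P3 := 50331648) (W3 := 16777216)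
    rfl rfl rfl (fun _ => rfl) k0_A00pm_113_s1

theorem s_A00pm_113_s1 {κ x : ℝ} (hκ : κ * h0 = ken x) (hx : ((50331648 : ℕ) : ℝ) / S ≤ x)
    (hx' : x ≤ (((50331648 : ℕ) : ℝ) + (16777216 : ℕ)) / S)
    (H : CutA (VF κ) PP tKF tL pcF (Cut.of [[⟨0, 1, 0, 14341072⟩, ⟨1, 1, 0, 14341072⟩, ⟨2, 2, 0, 761489⟩]]) 1 1 3 0 0 (sgb true) (sgb false) x) :
    AltA (VF κ) PP tKF tL pcF [⟨3, 0, 0, 1449551462⟩] 1 1 3 0 0 (sgb true) (sgb false) x :=
  strip_altA (m := 1449551462) true rfl hκ covF01 covF01 hx hx' c_A00pm_113_s1 H (noExt_A)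

noncomputable def cut_A00pm_113_s3 : Cut := Cut.of [[⟨3, 0, 0, 2845415833⟩], [⟨0, 1, 0, 14341072⟩, ⟨1, 1, 0, 14341072⟩, ⟨2, 2, 0, 761489⟩]]

noncomputable def f_A00pm_113_s3 : ℕ → ℕ → ℕ → ℕ → Bool := onCell 536870912 536870912 536870912 536870912 50331648 16777216
    (rowFK 0 true true false .nn 1 1 3 (qsf 536870912 536870912 536870912 536870912 3) ndF0q1 ndF0q1 pcF3 cut_A00pm_113_s3 Ext.none)

def k0_A00pm_113_s3 : ∃ t, chk3 f_A00pm_113_s3 t 2 1 1 = true :=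
  ⟨(l 6), by decide +kernel⟩

def k1_A00pm_113_s3 : ∃ t, chk3 f_A00pm_113_s3 t 3 2 1 = true :=
  ⟨(l 6), by decide +kernel⟩

def k2_A00pm_113_s3 : ∃ t, chk3 f_A00pm_113_s3 t 3 6 1 = true :=
  ⟨(a (l 6) (a (l 6) (b (l 6) (a (l 6) (a (l 6) (b (l 6) (l 18536008))))))), by decide +kernel⟩

def k3_A00pm_113_s3 : ∃ t, chk3 f_A00pm_113_s3 t 6 7 1 = true :=
  ⟨(b (l 6) (a (l 6) (a (l 6) (b (l 6) (b (l 6) (l 18536008)))))), by decide +kernel⟩

def k4_A00pm_113_s3 : ∃ t, chk3 f_A00pm_113_s3 t 7 14 1 = true :=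
  ⟨(a (l 6) (a (b (l 6) (l 16966192)) (a (b (l 17737952) (a (l 16986384) (l 17413704))) (a (b (l 17642080) (l 17744144)) (b (l 18314056) (b (l 17946744) (l 17953920))))))), by decide +kernel⟩

def k5_A00pm_113_s3 : ∃ t, chk3 f_A00pm_113_s3 t 14 15 1 = true :=
  ⟨(b (a (l 6) (l 16966192)) (b (a (l 17737952) (b (l 16986384) (l 17413704))) (a (b (l 17642080) (l 18314056)) (b (l 17744144) (a (l 17946744) (l 17953920)))))), by decide +kernel⟩

def k6_A00pm_113_s3 : ∃ t, chk3 f_A00pm_113_s3 t 15 30 1 = true :=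
  ⟨(a (l 16877248) (a (b (b (l 16938368) (l 16915464)) (l 16879128)) (a (b (l 17394968) (a (l 16905208) (l 17202816))) (a (b (l 17324968) (l 17353776)) (b (l 17784264) (b (l 17462176) (l 17434240))))))), by decide +kernel⟩

def k7_A00pm_113_s3 : ∃ t, chk3 f_A00pm_113_s3 t 30 31 1 = true :=
  ⟨(b (a (a (l 16938368) (l 16915464)) (l 16879128)) (b (a (l 17394968) (b (l 16905208) (l 17202816))) (a (b (l 17324968) (l 17784264)) (b (l 17353776) (a (l 17462176) (l 17434240)))))), by decide +kernel⟩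

def k8_A00pm_113_s3 : ∃ t, chk3 f_A00pm_113_s3 t 31 62 1 = true :=
  ⟨(a (l 16827016) (a (b (l 17345392) (l 16830440)) (a (b (l 17186736) (b (l 17040504) (l 17133600))) (a (b (l 17170496) (l 17122400)) (b (l 17369944) (b (l 17191112) (l 17209312))))))), by decide +kernel⟩

def k9_A00pm_113_s3 : ∃ t, chk3 f_A00pm_113_s3 t 62 63 1 = true :=
  ⟨(b (a (l 17345392) (l 16830440)) (b (a (l 17186736) (a (l 17040504) (l 17133600))) (a (b (l 17170496) (l 17369944)) (b (l 17122400) (a (l 17191112) (l 17209312)))))), by decide +kernel⟩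

def k10_A00pm_113_s3 : ∃ t, chk3 f_A00pm_113_s3 t 63 126 1 = true :=
  ⟨(a (l 16801984) (a (b (l 17065904) (l 16804464)) (b (a (l 17028600) (a (l 17025712) (l 17086752))) (a (a (l 16812360) (l 16909928)) (a (l 16953856) (b (l 17034152) (l 16998568))))))), by decide +kernel⟩

def k11_A00pm_113_s3 : ∃ t, chk3 f_A00pm_113_s3 t 126 127 1 = true :=
  ⟨(b (a (l 17065904) (l 16804464)) (a (b (l 17028600) (b (l 17025712) (l 17086752))) (b (b (l 16812360) (l 16909928)) (b (l 16953856) (a (l 17034152) (l 16998568)))))), by decide +kernel⟩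

def k12_A00pm_113_s3 : ∃ t, chk3 f_A00pm_113_s3 t 127 254 1 = true :=
  ⟨(a (l 16789552) (a (b (l 16922800) (l 16791008)) (b (a (l 16904144) (a (l 16946024) (l 16935472))) (a (a (l 16795080) (l 16886008)) (a (l 16866592) (b (l 16907792) (l 16889280))))))), by decide +kernel⟩

def k13_A00pm_113_s3 : ∃ t, chk3 f_A00pm_113_s3 t 127 255 1 = true :=
  ⟨(a (b (a (l 16922800) (l 16791008)) (a (b (l 16904144) (b (l 16946024) (l 16935472))) (b (b (l 16795080) (l 16886008)) (b (l 16866592) (a (l 16907792) (l 16889280)))))) (b (a (l 16783376) (a (b (l 16850328) (l 16784152)) (b (a (l 16841000) (a (l 16862296) (l 16857248))) (a (a (l 16786224) (l 16831736)) (a (l 16822168) (b (l 16843048) (l 16833600))))))) (a (b (a (l 16850328) (l 16784152)) (a (b (l 16841000) (b (l 16862296) (l 16857248))) (b (b (l 16786224) (l 16831736)) (b (l 16822168) (a (l 16843048) (l 16833600)))))) (b (a (l 16780288) (a (b (b (l 16819936) (l 16782152))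 (l 16780696)) (b (a (l 16809192) (a (l 16819928) (b (l 16809296) (l 16804544)))) (a (a (l 16781744) (l 16804512)) (b (a (l 16812760) (l 16810272)) (a (l 16797400) (l 16805496))))))) (a (b (a (a (l 16819936) (l 16782152)) (l 16780696)) (a (b (l 16809192) (b (l 16819928) (a (l 16809296) (l 16804544)))) (b (b (l 16781744) (l 16804512)) (a (b (l 16812760) (l 16810272)) (b (l 16797400) (l 16805496)))))) (b (a (l 16778752) (a (a (l 16779328) (b (l 16780328) (l 16779072))) (a (b (l 16793224) (a (l 16779480) (l 16790872))) (a (b (l 16798616) (a (a (l 16792312) (l 16788072)) (l 16789552))) (b (b (l 16793328) (l 16790928)) (b (l 16793776) (l 14))))))) (a (b (a (b (l 16779816) (l 16780328)) (l 16778960)) (b (a (l 16793224) (b (l 16779480) (l 16790872))) (b (a (l 16798616) (a (l 16795008) (a (l 16782720) (l 14)))) (a (a (l 16793328) (l 16790928)) (a (l 16793776) (l 14)))))) (b (a (l 16777984) (a (a (l 16778272) (l 14))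 (l 14))) (a (b (b (l 16778272) (l 14)) (l 14)) (l 14)))))))))), by decide +kernel⟩

theorem t14_A00pm_113_s3 : ∃ t, chk3 f_A00pm_113_s3 t 127 127 1 = true := ex3_b k12_A00pm_113_s3 k13_A00pm_113_s3

theorem t15_A00pm_113_s3 : ∃ t, chk3 f_A00pm_113_s3 t 63 127 1 = true := ex3_a k11_A00pm_113_s3 t14_A00pm_113_s3

theorem t16_A00pm_113_s3 : ∃ t, chk3 f_A00pm_113_s3 t 63 63 1 = true := ex3_b k10_A00pm_113_s3 t15_A00pm_113_s3

theorem t17_A00pm_113_s3 : ∃ t, chk3 f_A00pm_113_s3 t 31 63 1 = true := ex3_a k9_A00pm_113_s3 t16_A00pm_113_s3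

theorem t18_A00pm_113_s3 : ∃ t, chk3 f_A00pm_113_s3 t 31 31 1 = true := ex3_b k8_A00pm_113_s3 t17_A00pm_113_s3

theorem t19_A00pm_113_s3 : ∃ t, chk3 f_A00pm_113_s3 t 15 31 1 = true := ex3_a k7_A00pm_113_s3 t18_A00pm_113_s3

theorem t20_A00pm_113_s3 : ∃ t, chk3 f_A00pm_113_s3 t 15 15 1 = true := ex3_b k6_A00pm_113_s3 t19_A00pm_113_s3

theorem t21_A00pm_113_s3 : ∃ t, chk3 f_A00pm_113_s3 t 7 15 1 = true := ex3_a k5_A00pm_113_s3 t20_A00pm_113_s3

theorem t22_A00pm_113_s3 : ∃ t, chk3 f_A00pm_113_s3 t 7 7 1 = true := ex3_b k4_A00pm_113_s3 t21_A00pm_113_s3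

theorem t23_A00pm_113_s3 : ∃ t, chk3 f_A00pm_113_s3 t 3 7 1 = true := ex3_a k3_A00pm_113_s3 t22_A00pm_113_s3

theorem t24_A00pm_113_s3 : ∃ t, chk3 f_A00pm_113_s3 t 3 3 1 = true := ex3_b k2_A00pm_113_s3 t23_A00pm_113_s3

theorem t25_A00pm_113_s3 : ∃ t, chk3 f_A00pm_113_s3 t 3 1 1 = true := ex3_b k1_A00pm_113_s3 t24_A00pm_113_s3

theorem t26_A00pm_113_s3 : ∃ t, chk3 f_A00pm_113_s3 t 1 1 1 = true := ex3_a k0_A00pm_113_s3 t25_A00pm_113_s3

theorem c_A00pm_113_s3 : CertF 536870912 536870912 536870912 536870912 50331648 16777216 true true false .nn 1 1 3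
    ndF0q1 ndF0q1 pcF3 cut_A00pm_113_s3 Ext.none :=
  certFK0 (fam := true) (s1 := true) (s2 := false) (a := 1) (b := 1) (c := 3) (cn := .nn) (n1 := ndF0q1) (n2 := ndF0q1) (pc := pcF3) (cut := cut_A00pm_113_s3) (xt := Ext.none) (P1 := 536870912) (W1 := 536870912) (P2 := 536870912) (W2 := 536870912) (P3 := 50331648) (W3 := 16777216)
    rfl rfl rfl t26_A00pm_113_s3

theorem s_A00pm_113_s3 {κ x : ℝ} (hκ : κ * h0 = ken x) (hx : ((50331648 : ℕ) : ℝ) / S ≤ x)
    (hx' : x ≤ (((50331648 : ℕ) : ℝ) + (16777216 : ℕ)) / S)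
    (H : CutA (VF κ) PP tKF tL pcF (Cut.of [[⟨0, 1, 0, 14341072⟩, ⟨1, 1, 0, 14341072⟩, ⟨2, 2, 0, 761489⟩]]) 1 1 3 0 0 (sgb true) (sgb false) x) :
    AltA (VF κ) PP tKF tL pcF [⟨4, 0, 0, 2845415833⟩] 1 1 3 0 0 (sgb true) (sgb false) x :=
  strip_altA (m := 2845415833) false rfl hκ covF01 covF01 hx hx' c_A00pm_113_s3 H (noExt_A)

noncomputable def cut_A00pm_123_s1 : Cut := Cut.of [[⟨4, 0, 0, 1449551462⟩], [⟨0, 1, 0, 14341072⟩, ⟨1, 1, 0, 14341072⟩, ⟨2, 2, 0, 761489⟩]]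

noncomputable def f_A00pm_123_s1 : ℕ → ℕ → ℕ → ℕ → Bool := onCell 536870912 536870912 0 536870912 50331648 16777216
    (rowFK 0 true true false .npn 1 2 3 (qsf 536870912 536870912 0 536870912 3) ndF0q1 ndF0q2 pcF3 cut_A00pm_123_s1 Ext.none)

def k0_A00pm_123_s1 : ∃ t, chk3 f_A00pm_123_s1 t 1 1 1 = true :=
  ⟨(l 6), by decide +kernel⟩

theorem c_A00pm_123_s1 : CertF 536870912 536870912 0 536870912 50331648 16777216 true true false .npn 1 2 3
    ndF0q1 ndF0q2 pcF3 cut_A00pm_123_s1 Ext.none :=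
  certFK0 (fam := true) (s1 := true) (s2 := false) (a := 1) (b := 2) (c := 3) (cn := .npn) (n1 := ndF0q1) (n2 := ndF0q2) (pc := pcF3) (cut := cut_A00pm_123_s1) (xt := Ext.none) (P1 := 536870912) (W1 := 536870912) (P2 := 0) (W2 := 536870912) (P3 := 50331648) (W3 := 16777216)
    rfl rfl rfl k0_A00pm_123_s1

theorem s_A00pm_123_s1 {κ x : ℝ} (hκ : κ * h0 = ken x) (hx : ((50331648 : ℕ) : ℝ) / S ≤ x)
    (hx' : x ≤ (((50331648 : ℕ) : ℝ) + (16777216 : ℕ)) / S)
    (H : CutA (VF κ) PP tKF tL pcF (Cut.of [[⟨0, 1, 0, 14341072⟩, ⟨1, 1, 0, 14341072⟩, ⟨2, 2, 0, 761489⟩]]) 1 2 3 0 0 (sgb true) (sgb false) x) :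
    AltA (VF κ) PP tKF tL pcF [⟨3, 0, 0, 1449551462⟩] 1 2 3 0 0 (sgb true) (sgb false) x :=
  strip_altA (m := 1449551462) true rfl hκ covF01 covF02 hx hx' c_A00pm_123_s1 H (noExt_A)

noncomputable def cut_A00pm_123_s3 : Cut := Cut.of [[⟨3, 0, 0, 2845415833⟩], [⟨0, 1, 0, 14341072⟩, ⟨1, 1, 0, 14341072⟩, ⟨2, 2, 0, 761489⟩]]

noncomputable def xt_A00pm_123_s3 : Ext := strExt dd true true false .u0 .u2 .s2 .npn 1 2 3 rfl rfl gl3 vv ndF0q1 ndF0q2

noncomputable def f_A00pm_123_s3 : ℕ → ℕ → ℕ → ℕ → Bool := onCell 1610612736 536870912 0 536870912 50331648 16777216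
    (rowFK 2 true true false .npn 1 2 3 (qsf 536870912 536870912 0 536870912 3) ndF0q1 ndF0q2 pcF3 cut_A00pm_123_s3 xt_A00pm_123_s3)

def k0_A00pm_123_s3 : ∃ t, chk3 f_A00pm_123_s3 t 2 1 1 = true :=
  ⟨(b (a (b (l 1) (l 6)) (b (a (b (l 553076751) (l 18005808)) (b (l 552097807) (l 552413967))) (a (a (l 18269000) (l 18237400)) (b (l 553103119) (l 554036239))))) (b (a (l 6) (a (l 6) (l 6))) (l 6))), by decide +kernel⟩

def k1_A00pm_123_s3 : ∃ t, chk3 f_A00pm_123_s3 t 6 1 1 = true :=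
  ⟨(a (b (b (b (l 550644495) (l 551073295)) (b (a (l 552101391) (l 551292431)) (a (l 17708056) (l 17512424)))) (b (b (a (l 17839152) (l 17694296)) (b (a (l 6) (l 17834968)) (l 18478176))) (l 6))) (b (b (b (l 4) (l 550296847)) (a (b (l 550371087) (l 551076879)) (b (l 549184783) (l 549807119)))) (a (b (b (l 17557792) (b (l 17578552) (l 17714736))) (b (l 18096056) (l 6))) (b (b (l 550696463) (b (l 17343744) (l 17637288))) (b (a (l 17755632) (l 17868464)) (b (l 17985928) (l 18618256))))))), by decide +kernel⟩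

def k2_A00pm_123_s3 : ∃ t, chk3 f_A00pm_123_s3 t 14 1 1 = true :=
  ⟨(b (b (l 4) (a (b (l 547808527) (l 548338703)) (b (l 4) (l 548260367)))) (b (b (a (l 549918991) (a (l 547736335) (l 546739727))) (a (a (l 17230464) (l 17209808)) (b (a (l 16994240) (l 16997272)) (l 17185664)))) (b (a (b (a (l 17397056) (l 17273920)) (l 17692880)) (b (a (l 17239984) (l 17037424)) (a (l 17305304) (a (l 17187760) (l 17199680))))) (b (a (l 17920928) (a (l 17546848) (l 17476440))) (a (b (l 17941320) (l 18444880)) (b (l 17836136) (a (l 17881552) (l 17894912)))))))), by decide +kernel⟩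

def k3_A00pm_123_s3 : ∃ t, chk3 f_A00pm_123_s3 t 15 2 1 = true :=
  ⟨(l 4), by decide +kernel⟩

def k4_A00pm_123_s3 : ∃ t, chk3 f_A00pm_123_s3 t 30 3 1 = true :=
  ⟨(b (b (a (b (l 545500175) (l 545796623)) (a (l 545300239) (l 4))) (a (b (l 546166799) (l 16976992)) (b (a (l 545200911) (l 544508431)) (a (l 16925208) (l 545668111))))) (b (a (b (l 16943912) (l 17277416)) (b (a (l 16883096) (l 16931136)) (b (l 16893920) (l 17096560)))) (b (a (l 17478256) (a (l 17264672) (l 17256272))) (b (a (l 17420264) (l 17399056)) (a (b (l 17524568) (l 17758776)) (b (l 17244328) (a (l 17445408) (l 17420584)))))))), by decide +kernel⟩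

def k5_A00pm_123_s3 : ∃ t, chk3 f_A00pm_123_s3 t 62 3 1 = true :=
  ⟨(b (b (l 4) (b (a (l 543763215) (l 4)) (a (b (l 543979279) (l 544687119)) (b (l 4) (a (l 543502351) (l 543029263)))))) (b (b (a (b (a (l 16815632) (l 16822872)) (l 16907400)) (b (a (l 543675919) (l 543180815)) (a (l 16844192) (l 543363343)))) (a (l 16929544) (b (b (l 16825704) (l 16852512)) (l 16903056)))) (b (a (a (l 17109376) (l 17072936)) (b (l 16942552) (l 17047568))) (b (a (l 17164176) (a (l 17002384) (l 17033824))) (b (a (l 17166744) (l 17135672)) (a (b (l 17211768) (l 17364688)) (b (l 17091432) (a (l 17148168) (l 17167424))))))))), by decide +kernel⟩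

def k6_A00pm_123_s3 : ∃ t, chk3 f_A00pm_123_s3 t 63 6 1 = true :=
  ⟨(l 4), by decide +kernel⟩

def k7_A00pm_123_s3 : ∃ t, chk3 f_A00pm_123_s3 t 63 14 1 = true :=
  ⟨(b (a (a (b (l 542912015) (b (l 542762255) (l 542847503))) (b (l 4) (a (l 543976719) (l 4)))) (l 4)) (a (b (a (a (l 16812480) (b (l 542814479) (l 16788096))) (a (b (l 542225679) (l 542589711)) (b (l 543491343) (l 542502159)))) (a (l 16818792) (b (a (l 16807696) (a (l 542446351) (l 542258447))) (a (l 16790664) (l 16795504))))) (a (b (a (b (l 4) (a (l 541970703) (l 4))) (l 4)) (a (b (a (l 542061327) (l 543463183)) (a (b (l 542140175) (l 16781968)) (b (l 541927183) (l 541979407)))) (b (l 4) (a (b (l 541698831) (l 541746703)) (l 4))))) (l 4)))), by decide +kernel⟩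

def k8_A00pm_123_s3 : ∃ t, chk3 f_A00pm_123_s3 t 126 15 1 = true :=
  ⟨(b (a (b (l 16806728) (l 16912064)) (b (b (l 16801880) (l 16836864)) (a (l 16892456) (l 16840672)))) (b (a (a (l 16910928) (l 16969000)) (a (l 16943584) (l 16918304))) (b (a (l 16963128) (l 16986944)) (b (a (l 16997152) (l 16974248)) (b (a (l 17014528) (l 16947240)) (a (a (l 17042312) (l 17008240)) (a (l 16973568) (l 16980184)))))))), by decide +kernel⟩

def k9_A00pm_123_s3 : ∃ t, chk3 f_A00pm_123_s3 t 254 15 1 = true :=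
  ⟨(b (b (a (b (b (a (l 16783536) (l 16791512)) (l 16783744)) (l 16806872)) (b (a (b (l 541798671) (l 541854991)) (b (l 542881039) (a (l 541684751) (l 541549583)))) (a (l 16792432) (b (a (l 16784784) (l 541606927)) (l 16785384))))) (a (l 16831928) (b (a (l 16784408) (l 16781800)) (l 16806272)))) (a (b (l 16875824) (b (l 16900424) (b (l 16883152) (b (l 16895752) (b (l 16902112) (a (l 16914936) (l 16896800))))))) (b (b (l 16820864) (l 16844360)) (b (a (l 16836568) (l 16864144)) (b (l 16871200) (b (l 16860936) (b (l 16866352) (a (l 16878496) (l 16880968))))))))), by decide +kernel⟩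

def k10_A00pm_123_s3 : ∃ t, chk3 f_A00pm_123_s3 t 510 15 1 = true :=
  ⟨(b (b (b (a (b (l 4) (a (l 541406735) (l 4))) (l 4)) (a (b (a (l 541460751) (l 542377999)) (a (l 542594319) (b (l 541349903) (l 541379343)))) (b (l 4) (a (b (l 4) (l 541205775)) (l 4))))) (b (a (a (l 16785232) (b (b (l 541410575) (l 16778632)) (l 16779344))) (b (a (b (l 541234447) (l 541801487)) (b (l 4) (a (l 541147151) (l 4)))) (a (b (l 542638863) (b (l 16780984) (l 16778584))) (b (a (l 541179407) (l 541077519)) (a (l 541213711) (l 541110287)))))) (a (l 16791792) (b (a (l 16779112) (b (a (l 16778096) (l 541413647)) (a (l 16778496) (l 542524431)))) (a (l 16779928) (a (l 16779072) (l 16778528))))))) (a (b (b (l 16783048) (l 16809760)) (b (a (l 16853648) (l 16846792)) (b (l 16825800) (b (l 16834768) (b (l 16839296) (b (l 16841576) (a (l 16847512) (l 16838144)))))))) (b (b (a (l 16802048) (l 16785096)) (a (l 16804816) (l 16802592))) (b (a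 (l 16819136) (l 16812800)) (b (l 16830696) (b (l 16827808) (b (l 16821160) (b (l 16823088) (a (l 16828736) (l 16829744)))))))))), by decide +kernel⟩

def k11_A00pm_123_s3 : ∃ t, chk3 f_A00pm_123_s3 t 1022 15 1 = true :=
  ⟨(b (b (l 4) (b (l 4) (b (a (b (a (l 542643471) (l 4)) (a (b (l 541063183) (l 541081359)) (b (l 540941071) (l 540958479)))) (l 4)) (a (b (a (a (l 16777952) (l 16777704)) (b (l 540976655) (l 541531919))) (a (l 16778176) (b (l 541819663) (l 542376463)))) (a (b (b (l 4) (a (l 540917519) (l 4))) (b (a (l 540937231) (l 4)) (a (l 540957455) (l 540887055)))) (l 4)))))) (b (b (b (a (a (l 16778672) (a (l 16783520) (l 16778016))) (b (a (b (a (l 540978703) (l 540907535)) (a (l 16780312) (l 540929039))) (a (b (l 540832015) (l 540852751)) (l 4))) (a (a (l 16777912) (b (l 16777592) (l 16780360))) (b (a (l 541411343) (l 542402831)) (a (l 541970703) (b (l 540812047) (l 540823055))))))) (a (l 16784272) (b (a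 (l 16780696) (b (a (l 16777632) (a (l 16777448) (l 540832527))) (a (l 16777768) (b (l 540858127) (l 16777552))))) (a (l 16778352) (b (a (l 16777896) (l 16777648)) (l 16780520)))))) (a (l 16790360) (a (l 16784224) (b (a (l 16783576) (l 16778064)) (l 16778656))))) (b (a (b (l 16803608) (l 16810656)) (a (l 16793184) (b (l 16779112) (l 16792680)))) (b (a (l 16808512) (a (l 16792336) (l 16799128))) (b (a (l 16804368) (l 16801064)) (b (a (l 16807568) (l 16798520)) (b (a (l 16809176) (l 16799880)) (b (a (l 16809976) (l 16800560)) (a (a (l 16812760) (l 16808000)) (a (l 16803224) (l 16803672))))))))))), by decide +kernel⟩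

def k12_A00pm_123_s3 : ∃ t, chk3 f_A00pm_123_s3 t 1023 30 1 = true :=
  ⟨(l 4), by decide +kernel⟩

def k13_A00pm_123_s3 : ∃ t, chk3 f_A00pm_123_s3 t 2046 31 1 = true :=
  ⟨(b (b (b (b (l 4) (l 4)) (a (b (a (b (b (l 541013519) (l 541293071)) (a (l 541349903) (l 541840911))) (b (l 4) (a (l 542329871) (l 4)))) (a (b (a (l 16777464) (l 542402831)) (a (l 16777584) (l 16777472))) (b (a (b (l 540739087) (l 540751631)) (b (l 4) (l 540701199))) (a (b (l 540764431) (l 540777743)) (b (l 540713743) (l 540726799)))))) (b (l 4) (a (b (l 4) (a (b (l 4) (l 540673039)) (l 4))) (l 4))))) (b (a (b (a (b (l 16777648) (l 16777760)) (b (a (l 16777464) (b (l 540739855) (l 540753423))) (a (l 16777576) (l 16777456)))) (a (l 16777928) (a (l 16777736) (l 16777616)))) (b (a (b (a (b (l 540685839) (l 540699151)) (b (l 4) (l 541446927))) (a (b (l 540981263) (l 541263631)) (b (l 541728527) (l 542010639)))) (b (l 4) (a (b (l 4) (a (l 540635919)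 (l 4))) (l 4)))) (a (b (a (l 16777448) (b (l 542293263) (a (l 16777384) (l 16777328)))) (a (l 16780168) (c (l 16777424) (l 16777424)))) (b (a (b (a (l 540650255) (l 540618767)) (a (l 540664847) (l 540633359))) (l 4)) (a (b (a (l 16777320) (l 540648463)) (a (l 16777368) (l 540663823))) (b (a (l 540615439) (l 4)) (a (l 541167631) (l 541401615)))))))) (a (a (l 16778240) (l 16780600)) (a (a (l 16777784) (a (l 16777688) (l 14))) (l 14))))) (a (b (b (l 16783728) (a (l 16790848) (l 16789912))) (b (a (l 16796432) (l 16794680)) (b (l 16789536) (b (l 16791792) (b (l 16792928) (b (l 16793496) (b (l 16793776) (a (l 16795104) (l 16792696))))))))) (a (b (a (b (l 16778136) (l 16789248)) (l 14)) (b (a (l 16793400) (l 14)) (b (l 16786456) (b (l 16788456) (b (l 16789456) (b (l 16789960) (b (l 16790216) (l 16790296)))))))) (l 14)))), by decide +kernel⟩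

def k14_A00pm_123_s3 : ∃ t, chk3 f_A00pm_123_s3 t 2047 31 1 = true :=
  ⟨(b (b (l 4) (b (l 4) (l 14))) (l 14)), by decide +kernel⟩

theorem t15_A00pm_123_s3 : ∃ t, chk3 f_A00pm_123_s3 t 1023 31 1 = true := ex3_a k13_A00pm_123_s3 k14_A00pm_123_s3

theorem t16_A00pm_123_s3 : ∃ t, chk3 f_A00pm_123_s3 t 1023 15 1 = true := ex3_b k12_A00pm_123_s3 t15_A00pm_123_s3

theorem t17_A00pm_123_s3 : ∃ t, chk3 f_A00pm_123_s3 t 511 15 1 = true := ex3_a k11_A00pm_123_s3 t16_A00pm_123_s3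

theorem t18_A00pm_123_s3 : ∃ t, chk3 f_A00pm_123_s3 t 255 15 1 = true := ex3_a k10_A00pm_123_s3 t17_A00pm_123_s3

theorem t19_A00pm_123_s3 : ∃ t, chk3 f_A00pm_123_s3 t 127 15 1 = true := ex3_a k9_A00pm_123_s3 t18_A00pm_123_s3

theorem t20_A00pm_123_s3 : ∃ t, chk3 f_A00pm_123_s3 t 63 15 1 = true := ex3_a k8_A00pm_123_s3 t19_A00pm_123_s3

theorem t21_A00pm_123_s3 : ∃ t, chk3 f_A00pm_123_s3 t 63 7 1 = true := ex3_b k7_A00pm_123_s3 t20_A00pm_123_s3

theorem t22_A00pm_123_s3 : ∃ t, chk3 f_A00pm_123_s3 t 63 3 1 = true := ex3_b k6_A00pm_123_s3 t21_A00pm_123_s3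

theorem t23_A00pm_123_s3 : ∃ t, chk3 f_A00pm_123_s3 t 31 3 1 = true := ex3_a k5_A00pm_123_s3 t22_A00pm_123_s3

theorem t24_A00pm_123_s3 : ∃ t, chk3 f_A00pm_123_s3 t 15 3 1 = true := ex3_a k4_A00pm_123_s3 t23_A00pm_123_s3

theorem t25_A00pm_123_s3 : ∃ t, chk3 f_A00pm_123_s3 t 15 1 1 = true := ex3_b k3_A00pm_123_s3 t24_A00pm_123_s3

theorem t26_A00pm_123_s3 : ∃ t, chk3 f_A00pm_123_s3 t 7 1 1 = true := ex3_a k2_A00pm_123_s3 t25_A00pm_123_s3

theorem t27_A00pm_123_s3 : ∃ t, chk3 f_A00pm_123_s3 t 3 1 1 = true := ex3_a k1_A00pm_123_s3 t26_A00pm_123_s3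

theorem t28_A00pm_123_s3 : ∃ t, chk3 f_A00pm_123_s3 t 1 1 1 = true := ex3_a k0_A00pm_123_s3 t27_A00pm_123_s3

theorem c_A00pm_123_s3 : CertF 536870912 536870912 0 536870912 50331648 16777216 true true false .npn 1 2 3
    ndF0q1 ndF0q2 pcF3 cut_A00pm_123_s3 xt_A00pm_123_s3 :=
  certFK2 (fam := true) (s1 := true) (s2 := false) (a := 1) (b := 2) (c := 3) (cn := .npn) (n1 := ndF0q1) (n2 := ndF0q2) (pc := pcF3) (cut := cut_A00pm_123_s3) (xt := xt_A00pm_123_s3) (P1 := 536870912) (W1 := 536870912) (P2 := 0) (W2 := 536870912) (P3 := 50331648) (W3 := 16777216)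
    rfl rfl rfl (fun _ => rfl) t28_A00pm_123_s3

theorem s_A00pm_123_s3 {κ x : ℝ} (hκ : κ * h0 = ken x) (hx : ((50331648 : ℕ) : ℝ) / S ≤ x)
    (hx' : x ≤ (((50331648 : ℕ) : ℝ) + (16777216 : ℕ)) / S)
    (H : CutA (VF κ) PP tKF tL pcF (Cut.of [[⟨0, 1, 0, 14341072⟩, ⟨1, 1, 0, 14341072⟩, ⟨2, 2, 0, 761489⟩]]) 1 2 3 0 0 (sgb true) (sgb false) x) :
    AltA (VF κ) PP tKF tL pcF [⟨4, 0, 0, 2845415833⟩] 1 2 3 0 0 (sgb true) (sgb false) x :=
  strip_altA (m := 2845415833) false rfl hκ covF01 covF02 hx hx' c_A00pm_123_s3 H ((okx hx hx').extA (T := tt) (sideF hx hx') hκ rfl rfl (.O 1 true) (.O 2 false) (Or.inr rfl))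

noncomputable def cut_A00pm_202_s1 : Cut := Cut.of [[⟨4, 0, 0, 1449551462⟩], [⟨0, 1, 0, 50331648⟩, ⟨1, 0, 0, 50331648⟩, ⟨2, 1, 0, 50331648⟩], [⟨0, 1, 0, 8388608⟩, ⟨1, 0, 1, 25165824⟩, ⟨2, 1, 1, 25165824⟩, ⟨1, 0, 0, 83886080⟩, ⟨1, 1, 0, 1040187392⟩, ⟨2, 1, 0, 83886080⟩, ⟨2, 2, 0, 1040187392⟩]]

noncomputable def f_A00pm_202_s1 : ℕ → ℕ → ℕ → ℕ → Bool := onCell 0 536870912 1073741824 536870912 50331648 16777216
    (rowFK 1 true true false .pp 2 0 2 (qsf 0 536870912 0 536870912 2) ndF0q2 ndF0q0 pcF2 cut_A00pm_202_s1 Ext.none)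

def k0_A00pm_202_s1 : ∃ t, chk3 f_A00pm_202_s1 t 2 2 1 = true :=
  ⟨(b (b (l 1) (l 6)) (l 6)), by decide +kernel⟩

def k1_A00pm_202_s1 : ∃ t, chk3 f_A00pm_202_s1 t 6 2 1 = true :=
  ⟨(b (b (l 1) (b (a (l 1) (a (b (l 1) (b (l 18140696) (l 18291800))) (b (b (l 1) (a (l 17860952) (a (l 17824736) (l 17792976)))) (b (a (l 18067320) (l 17991520)) (l 18152144))))) (a (l 6) (a (l 18440168) (l 18308328))))) (b (a (l 6) (b (l 18444848) (l 6))) (l 6))), by decide +kernel⟩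

def k2_A00pm_202_s1 : ∃ t, chk3 f_A00pm_202_s1 t 14 2 1 = true :=
  ⟨(b (b (b (l 1) (a (a (l 1) (b (l 1) (b (l 1) (b (a (l 1) (l 16771072)) (a (a (l 17174960) (l 17077104)) (l 16969336)))))) (a (b (l 1) (b (a (b (l 1) (a (l 16775192) (l 16771336))) (b (a (l 16768216) (b (l 16764480) (l 16763992))) (l 16765560))) (a (a (l 16760696) (l 16767320)) (b (l 16783856) (l 16907664))))) (a (b (b (l 1) (b (a (l 1) (l 14)) (a (b (l 16762288) (l 16761640)) (b (l 14) (l 16758296))))) (b (b (l 16759328) (l 16757840)) (b (l 16762408) (l 16880592)))) (b (b (l 14) (b (l 14) (a (l 16755952) (l 16752680)))) (b (b (l 16757440) (l 16750096)) (b (l 16744168) (l 16772408)))))))) (b (a (a (b (b (a (a (l 17501824) (l 17404104)) (b (l 17300088) (l 17537640))) (l 17732816)) (l 17806264)) (b (b (a (l 17092496) (l 17054344)) (l 17482440)) (b (l 17823640) (l 17949344)))) (b (b (a (a (l 16850120) (a (l 17075712) (l 16975064))) (a (b (l 17046456)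 (l 17268040)) (b (l 16934008) (l 17152648)))) (a (a (l 17591568) (l 17470240)) (a (l 17350456) (l 17316256)))) (b (a (l 17744064) (l 17584632)) (a (l 17870376) (l 17793816))))) (a (b (l 18113568) (l 18216944)) (b (l 17882216) (l 18089832))))) (b (b (a (l 18311664) (l 18217368)) (l 18365744)) (l 6))), by decide +kernel⟩

def k3_A00pm_202_s1 : ∃ t, chk3 f_A00pm_202_s1 t 15 8 1 = true :=
  ⟨(b (l 14) (b (b (l 14) (b (l 14) (b (l 14) (a (a (a (l 16746576) (l 16739824)) (a (l 16733024) (l 16726176))) (a (a (l 16761184) (a (l 16759952) (l 16768312))) (a (a (l 16776664) (l 16764048)) (l 22))))))) (a (a (b (a (b (l 16750280) (l 16742328)) (b (a (l 16739632) (l 16736024)) (l 16776448))) (a (b (l 16771304) (l 16834952)) (b (l 16802064) (l 16816760)))) (b (b (a (a (l 16732400) (l 16728760)) (a (l 16725104) (l 16763376))) (a (l 16768576) (a (l 16720680) (l 16800576)))) (a (b (l 16794720) (l 16801904)) (b (l 16749480) (l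 16790560))))) (a (b (a (b (a (l 16759680) (l 16755960)) (a (l 16796560) (l 16792520))) (a (b (l 16757800) (l 16755696)) (b (a (l 16764208) (l 16768480)) (l 16764496)))) (a (b (a (l 16791712) (l 16793256)) (l 16782888)) (b (a (l 16795904) (l 16757728)) (a (l 16779640) (l 16778672))))) (a (a (b (b (b (l 16775816) (l 16774968)) (b (l 16774136) (l 16773304))) (b (l 16762624) (b (l 16829360) (l 16811008)))) (l 22)) (l 22)))))), by decide +kernel⟩

def k4_A00pm_202_s1 : ∃ t, chk3 f_A00pm_202_s1 t 15 9 1 = true :=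
  ⟨(a (b (b (b (b (a (a (l 16908024) (l 16968664)) (a (l 16948320) (l 16931040))) (a (a (l 17123384) (l 17180392)) (a (l 17072176) (l 17050528)))) (a (b (l 17051696) (l 17397376)) (b (l 17081192) (l 17338904)))) (b (a (l 17514008) (l 17449192)) (a (l 17720408) (l 17650928)))) (b (a (l 17859216) (l 17790040)) (l 17963592))) (b (a (b (a (b (b (l 16833088) (l 17031672)) (l 17091224)) (b (b (b (l 16876344) (l 16935216)) (l 16931832)) (b (l 17194672) (l 17361720)))) (b (l 17223224) (l 17586152))) (b (b (c (a (b (l 17119632) (l 17298472)) (b (l 22) (l 17279048))) (a (a (b (l 16844808) (l 17043216)) (l 22)) (l 22))) (b (c (l 17285448) (a (l 17141144) (l 22))) (a (l 17341144) (a (l 17327200) (l 17234672))))) (b (a (l 17436072) (a (l 17418192) (l 17322936))) (l 17443040)))) (b (a (l 17723704) (b (l 17618544) (l 17701576))) (a (l 17872488) (l 17813776))))), by decide +kernel⟩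

def k5_A00pm_202_s1 : ∃ t, chk3 f_A00pm_202_s1 t 15 5 1 = true :=
  ⟨(b (a (b (l 18122000) (l 18283720)) (a (l 18153040) (b (b (l 17945608) (b (l 18034576) (b (l 18076376) (l 18101072)))) (l 18216568)))) (a (l 18467080) (l 18461800))), by decide +kernel⟩

def k6_A00pm_202_s1 : ∃ t, chk3 f_A00pm_202_s1 t 1 3 1 = true :=
  ⟨(a (l 6) (l 6)), by decide +kernel⟩

theorem t7_A00pm_202_s1 : ∃ t, chk3 f_A00pm_202_s1 t 15 4 1 = true := ex3_b k3_A00pm_202_s1 k4_A00pm_202_s1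

theorem t8_A00pm_202_s1 : ∃ t, chk3 f_A00pm_202_s1 t 15 2 1 = true := ex3_b t7_A00pm_202_s1 k5_A00pm_202_s1

theorem t9_A00pm_202_s1 : ∃ t, chk3 f_A00pm_202_s1 t 7 2 1 = true := ex3_a k2_A00pm_202_s1 t8_A00pm_202_s1

theorem t10_A00pm_202_s1 : ∃ t, chk3 f_A00pm_202_s1 t 3 2 1 = true := ex3_a k1_A00pm_202_s1 t9_A00pm_202_s1

theorem t11_A00pm_202_s1 : ∃ t, chk3 f_A00pm_202_s1 t 1 2 1 = true := ex3_a k0_A00pm_202_s1 t10_A00pm_202_s1

theorem t12_A00pm_202_s1 : ∃ t, chk3 f_A00pm_202_s1 t 1 1 1 = true := ex3_b t11_A00pm_202_s1 k6_A00pm_202_s1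

theorem c_A00pm_202_s1 : CertF 0 536870912 0 536870912 50331648 16777216 true true false .pp 2 0 2
    ndF0q2 ndF0q0 pcF2 cut_A00pm_202_s1 Ext.none :=
  certFK1 (fam := true) (s1 := true) (s2 := false) (a := 2) (b := 0) (c := 2) (cn := .pp) (n1 := ndF0q2) (n2 := ndF0q0) (pc := pcF2) (cut := cut_A00pm_202_s1) (xt := Ext.none) (P1 := 0) (W1 := 536870912) (P2 := 0) (W2 := 536870912) (P3 := 50331648) (W3 := 16777216)
    rfl rfl rfl (fun _ => rfl) t12_A00pm_202_s1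

theorem s_A00pm_202_s1 {κ x : ℝ} (hκ : κ * h0 = ken x) (hx : ((50331648 : ℕ) : ℝ) / S ≤ x)
    (hx' : x ≤ (((50331648 : ℕ) : ℝ) + (16777216 : ℕ)) / S)
    (H : CutA (VF κ) PP tKF tL pcF (Cut.of [[⟨0, 1, 0, 50331648⟩, ⟨1, 0, 0, 50331648⟩, ⟨2, 1, 0, 50331648⟩], [⟨0, 1, 0, 8388608⟩, ⟨1, 0, 1, 25165824⟩, ⟨2, 1, 1, 25165824⟩, ⟨1, 0, 0, 83886080⟩, ⟨1, 1, 0, 1040187392⟩, ⟨2, 1, 0, 83886080⟩, ⟨2, 2, 0, 1040187392⟩]]) 2 0 2 0 0 (sgb true) (sgb false) x) :
    AltA (VF κ) PP tKF tL pcF [⟨3, 0, 0, 1449551462⟩] 2 0 2 0 0 (sgb true) (sgb false) x :=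
  strip_altA (m := 1449551462) true rfl hκ covF02 covF00 hx hx' c_A00pm_202_s1 H (noExt_A)

noncomputable def cut_A00pm_202_s3 : Cut := Cut.of [[⟨3, 0, 0, 2845415833⟩], [⟨0, 1, 0, 50331648⟩, ⟨1, 0, 0, 50331648⟩, ⟨2, 1, 0, 50331648⟩], [⟨0, 1, 0, 8388608⟩, ⟨1, 0, 1, 25165824⟩, ⟨2, 1, 1, 25165824⟩, ⟨1, 0, 0, 83886080⟩, ⟨1, 1, 0, 1040187392⟩, ⟨2, 1, 0, 83886080⟩, ⟨2, 2, 0, 1040187392⟩]]

noncomputable def f_A00pm_202_s3 : ℕ → ℕ → ℕ → ℕ → Bool := onCell 0 536870912 1073741824 536870912 50331648 16777216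
    (rowFK 1 true true false .pp 2 0 2 (qsf 0 536870912 0 536870912 2) ndF0q2 ndF0q0 pcF2 cut_A00pm_202_s3 Ext.none)

def k0_A00pm_202_s3 : ∃ t, chk3 f_A00pm_202_s3 t 1 1 1 = true :=
  ⟨(a (b (l 6) (l 6)) (l 6)), by decide +kernel⟩

theorem c_A00pm_202_s3 : CertF 0 536870912 0 536870912 50331648 16777216 true true false .pp 2 0 2
    ndF0q2 ndF0q0 pcF2 cut_A00pm_202_s3 Ext.none :=
  certFK1 (fam := true) (s1 := true) (s2 := false) (a := 2) (b := 0) (c := 2) (cn := .pp) (n1 := ndF0q2) (n2 := ndF0q0) (pc := pcF2) (cut := cut_A00pm_202_s3) (xt := Ext.none) (P1 := 0) (W1 := 536870912) (P2 := 0) (W2 := 536870912) (P3 := 50331648) (W3 := 16777216)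
    rfl rfl rfl (fun _ => rfl) k0_A00pm_202_s3

theorem s_A00pm_202_s3 {κ x : ℝ} (hκ : κ * h0 = ken x) (hx : ((50331648 : ℕ) : ℝ) / S ≤ x)
    (hx' : x ≤ (((50331648 : ℕ) : ℝ) + (16777216 : ℕ)) / S)
    (H : CutA (VF κ) PP tKF tL pcF (Cut.of [[⟨0, 1, 0, 50331648⟩, ⟨1, 0, 0, 50331648⟩, ⟨2, 1, 0, 50331648⟩], [⟨0, 1, 0, 8388608⟩, ⟨1, 0, 1, 25165824⟩, ⟨2, 1, 1, 25165824⟩, ⟨1, 0, 0, 83886080⟩, ⟨1, 1, 0, 1040187392⟩, ⟨2, 1, 0, 83886080⟩, ⟨2, 2, 0, 1040187392⟩]]) 2 0 2 0 0 (sgb true) (sgb false) x) :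
    AltA (VF κ) PP tKF tL pcF [⟨4, 0, 0, 2845415833⟩] 2 0 2 0 0 (sgb true) (sgb false) x :=
  strip_altA (m := 2845415833) false rfl hκ covF02 covF00 hx hx' c_A00pm_202_s3 H (noExt_A)

noncomputable def cut_A00pm_203_s1 : Cut := Cut.of [[⟨4, 0, 0, 1449551462⟩]]

noncomputable def f_A00pm_203_s1 : ℕ → ℕ → ℕ → ℕ → Bool := onCell 0 536870912 1610612736 536870912 50331648 16777216
    (rowFK 1 true true false .up 2 0 3 (qsf 0 536870912 0 536870912 3) ndF0q2 ndF0q0 pcF3 cut_A00pm_203_s1 Ext.none)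

def k0_A00pm_203_s1 : ∃ t, chk3 f_A00pm_203_s1 t 1 1 1 = true :=
  ⟨(l 6), by decide +kernel⟩

theorem c_A00pm_203_s1 : CertF 0 536870912 0 536870912 50331648 16777216 true true false .up 2 0 3
    ndF0q2 ndF0q0 pcF3 cut_A00pm_203_s1 Ext.none :=
  certFK1 (fam := true) (s1 := true) (s2 := false) (a := 2) (b := 0) (c := 3) (cn := .up) (n1 := ndF0q2) (n2 := ndF0q0) (pc := pcF3) (cut := cut_A00pm_203_s1) (xt := Ext.none) (P1 := 0) (W1 := 536870912) (P2 := 0) (W2 := 536870912) (P3 := 50331648) (W3 := 16777216)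
    rfl rfl rfl (fun _ => rfl) k0_A00pm_203_s1

theorem s_A00pm_203_s1 {κ x : ℝ} (hκ : κ * h0 = ken x) (hx : ((50331648 : ℕ) : ℝ) / S ≤ x)
    (hx' : x ≤ (((50331648 : ℕ) : ℝ) + (16777216 : ℕ)) / S) :
    AltA (VF κ) PP tKF tL pcF [⟨3, 0, 0, 1449551462⟩] 2 0 3 0 0 (sgb true) (sgb false) x :=
  strip_altA (m := 1449551462) true rfl hκ covF02 covF00 hx hx' c_A00pm_203_s1 cutA_nil (noExt_A)

noncomputable def cut_A00pm_203_s3 : Cut := Cut.of [[⟨3, 0, 0, 2845415833⟩]]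

noncomputable def xt_A00pm_203_s3 : Ext := strExt dd true true false .u2 .u0m .s2m .up 2 0 3 rfl rfl gl3 vv ndF0q2 ndF0q0

noncomputable def f_A00pm_203_s3 : ℕ → ℕ → ℕ → ℕ → Bool := onCell 0 536870912 0 536870912 50331648 16777216
    (rowFK 0 true true false .up 2 0 3 (qsf 0 536870912 0 536870912 3) ndF0q2 ndF0q0 pcF3 cut_A00pm_203_s3 xt_A00pm_203_s3)

def k0_A00pm_203_s3 : ∃ t, chk3 f_A00pm_203_s3 t 1 1 1 = true :=
  ⟨(a (b (l 1) (b (a (b (l 1) (a (l 18102056) (l 6))) (l 6)) (a (b (a (l 17781472) (l 6)) (a (l 553442831) (l 17966760))) (b (l 6) (l 6))))) (l 6)), by decide +kernel⟩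

theorem c_A00pm_203_s3 : CertF 0 536870912 0 536870912 50331648 16777216 true true false .up 2 0 3
    ndF0q2 ndF0q0 pcF3 cut_A00pm_203_s3 xt_A00pm_203_s3 :=
  certFK0 (fam := true) (s1 := true) (s2 := false) (a := 2) (b := 0) (c := 3) (cn := .up) (n1 := ndF0q2) (n2 := ndF0q0) (pc := pcF3) (cut := cut_A00pm_203_s3) (xt := xt_A00pm_203_s3) (P1 := 0) (W1 := 536870912) (P2 := 0) (W2 := 536870912) (P3 := 50331648) (W3 := 16777216)
    rfl rfl rfl k0_A00pm_203_s3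

theorem s_A00pm_203_s3 {κ x : ℝ} (hκ : κ * h0 = ken x) (hx : ((50331648 : ℕ) : ℝ) / S ≤ x)
    (hx' : x ≤ (((50331648 : ℕ) : ℝ) + (16777216 : ℕ)) / S) :
    AltA (VF κ) PP tKF tL pcF [⟨4, 0, 0, 2845415833⟩] 2 0 3 0 0 (sgb true) (sgb false) x :=
  strip_altA (m := 2845415833) false rfl hκ covF02 covF00 hx hx' c_A00pm_203_s3 cutA_nil ((okx hx hx').extA (T := tt) (sideF hx hx') hκ rfl rfl (.O 2 true) (.O 0 false) (Or.inr rfl))

noncomputable def cut_A00pm_213_s1 : Cut := Cut.of [[⟨4, 0, 0, 1449551462⟩], [⟨0, 1, 0, 14341072⟩, ⟨1, 1, 0, 14341072⟩, ⟨2, 2, 0, 761489⟩]]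

noncomputable def f_A00pm_213_s1 : ℕ → ℕ → ℕ → ℕ → Bool := onCell 0 536870912 536870912 536870912 50331648 16777216
    (rowFK 0 true true false .pnn 2 1 3 (qsf 0 536870912 536870912 536870912 3) ndF0q2 ndF0q1 pcF3 cut_A00pm_213_s1 Ext.none)

def k0_A00pm_213_s1 : ∃ t, chk3 f_A00pm_213_s1 t 1 1 1 = true :=
  ⟨(l 6), by decide +kernel⟩

theorem c_A00pm_213_s1 : CertF 0 536870912 536870912 536870912 50331648 16777216 true true false .pnn 2 1 3
    ndF0q2 ndF0q1 pcF3 cut_A00pm_213_s1 Ext.none :=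
  certFK0 (fam := true) (s1 := true) (s2 := false) (a := 2) (b := 1) (c := 3) (cn := .pnn) (n1 := ndF0q2) (n2 := ndF0q1) (pc := pcF3) (cut := cut_A00pm_213_s1) (xt := Ext.none) (P1 := 0) (W1 := 536870912) (P2 := 536870912) (W2 := 536870912) (P3 := 50331648) (W3 := 16777216)
    rfl rfl rfl k0_A00pm_213_s1

theorem s_A00pm_213_s1 {κ x : ℝ} (hκ : κ * h0 = ken x) (hx : ((50331648 : ℕ) : ℝ) / S ≤ x)
    (hx' : x ≤ (((50331648 : ℕ) : ℝ) + (16777216 : ℕ)) / S)
    (H : CutA (VF κ) PP tKF tL pcF (Cut.of [[⟨0, 1, 0, 14341072⟩, ⟨1, 1, 0, 14341072⟩, ⟨2, 2, 0, 761489⟩]]) 2 1 3 0 0 (sgb true) (sgb false) x) :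
    AltA (VF κ) PP tKF tL pcF [⟨3, 0, 0, 1449551462⟩] 2 1 3 0 0 (sgb true) (sgb false) x :=
  strip_altA (m := 1449551462) true rfl hκ covF02 covF01 hx hx' c_A00pm_213_s1 H (noExt_A)

noncomputable def cut_A00pm_213_s3 : Cut := Cut.of [[⟨3, 0, 0, 2845415833⟩], [⟨0, 1, 0, 14341072⟩, ⟨1, 1, 0, 14341072⟩, ⟨2, 2, 0, 761489⟩]]

noncomputable def xt_A00pm_213_s3 : Ext := strExt dd true true false .u2 .u0m .s2m .pnn 2 1 3 rfl rfl gl3 vv ndF0q2 ndF0q1

noncomputable def f_A00pm_213_s3 : ℕ → ℕ → ℕ → ℕ → Bool := onCell 0 536870912 1610612736 536870912 50331648 16777216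
    (rowFK 1 true true false .pnn 2 1 3 (qsf 0 536870912 536870912 536870912 3) ndF0q2 ndF0q1 pcF3 cut_A00pm_213_s3 xt_A00pm_213_s3)

def k0_A00pm_213_s3 : ∃ t, chk3 f_A00pm_213_s3 t 1 2 1 = true :=
  ⟨(a (b (a (l 1) (l 6)) (a (b (a (l 553089807) (l 18005808)) (a (l 552105487) (l 552455439))) (a (b (l 18078368) (l 554454799)) (b (l 6) (a (l 17764080) (l 17926392)))))) (a (b (l 6) (b (l 6) (l 6))) (l 6))), by decide +kernel⟩

def k1_A00pm_213_s3 : ∃ t, chk3 f_A00pm_213_s3 t 1 6 1 = true :=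
  ⟨(a (a (b (a (l 550698767) (b (l 551392783) (l 550569743))) (a (l 4) (b (l 549706511) (l 548623631)))) (b (a (b (l 552093967) (l 551291663)) (b (l 17708056) (l 17512424))) (a (b (l 550333967) (l 549188367)) (b (a (l 17272448) (l 17215352)) (l 550076943))))) (b (a (a (b (l 17839152) (l 17694296)) (a (b (l 6) (l 17834968)) (l 18478176))) (l 6)) (b (a (a (l 17557792) (a (l 17578552) (l 17714736))) (a (l 18096056) (l 6))) (a (a (c (l 17441144) (l 17475736)) (a (l 17343744) (l 17637288))) (a (a (l 17676984) (l 17784704)) (a (l 17985928) (l 18618256))))))), by decide +kernel⟩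

def k2_A00pm_213_s3 : ∃ t, chk3 f_A00pm_213_s3 t 1 14 1 = true :=
  ⟨(a (a (l 4) (a (b (l 547841551) (l 4)) (b (l 549408527) (b (l 547065359) (l 546153487))))) (a (a (b (a (l 548870415) (l 17214720)) (a (l 547344143) (b (l 547928847) (l 546908431)))) (b (b (l 17230464) (l 17209808)) (a (b (l 16994240) (l 16997272)) (l 17185664)))) (a (b (a (b (l 17397056) (l 17273920)) (l 17692880)) (a (b (l 17239984) (l 17037424)) (b (l 17305304) (b (l 17187760) (l 17199680))))) (a (b (l 17920928) (b (l 17546848) (l 17476440))) (b (a (l 17941320) (l 18444880)) (a (l 17836136) (b (l 17881552) (l 17894912)))))))), by decide +kernel⟩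

def k3_A00pm_213_s3 : ∃ t, chk3 f_A00pm_213_s3 t 2 15 1 = true :=
  ⟨(l 4), by decide +kernel⟩

def k4_A00pm_213_s3 : ∃ t, chk3 f_A00pm_213_s3 t 3 30 1 = true :=
  ⟨(a (a (b (a (l 545499919) (l 545795087)) (a (l 4) (b (l 544884751) (l 4)))) (a (b (l 546968847) (b (l 545201423) (l 544508431))) (b (l 16976992) (b (l 16925208) (a (l 544762127) (l 16904368)))))) (a (b (a (l 16943912) (l 17277416)) (a (a (l 16938648) (l 16958128)) (a (l 16893920) (l 17096560)))) (a (b (l 17478256) (b (l 17264672) (l 17256272))) (a (b (l 17420264) (l 17399056)) (a (b (l 17524568) (l 17244328)) (b (l 17758776) (b (l 17445408) (l 17420584)))))))), by decide +kernel⟩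

def k5_A00pm_213_s3 : ∃ t, chk3 f_A00pm_213_s3 t 3 62 1 = true :=
  ⟨(a (a (l 4) (a (b (l 545105679) (l 4)) (b (a (l 543977999) (l 544952591)) (a (l 4) (b (l 543502351) (l 543029263)))))) (a (a (b (a (b (l 16815632) (l 16822872)) (l 16907400)) (a (b (l 543675919) (l 543180559)) (b (l 16844192) (l 544705039)))) (b (l 16929544) (a (a (l 16825704) (l 16852512)) (l 16903056)))) (a (a (b (l 16969184) (l 16942552)) (b (l 17055408) (l 17047568))) (a (b (l 17164176) (b (l 17002384) (l 17033824))) (a (b (l 17166744) (l 17135672)) (a (b (l 17211768) (l 17091432)) (b (l 17364688) (b (l 17148168) (l 17167424))))))))), by decide +kernel⟩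

def k6_A00pm_213_s3 : ∃ t, chk3 f_A00pm_213_s3 t 6 63 1 = true :=
  ⟨(l 4), by decide +kernel⟩

def k7_A00pm_213_s3 : ∃ t, chk3 f_A00pm_213_s3 t 14 63 1 = true :=
  ⟨(a (b (a (b (l 543180559) (l 4)) (b (a (l 542492943) (l 542845455)) (a (l 4) (b (l 542408719) (l 4))))) (l 4)) (b (a (b (a (l 543743503) (b (l 16793992) (l 16788096))) (a (b (l 542493199) (l 543491087)) (b (l 543662095) (l 542769423)))) (b (l 16818792) (a (b (l 16807696) (a (l 542308367) (l 542359311))) (b (l 16790664) (l 16795504))))) (b (a (b (a (l 4) (a (l 4) (l 541869071))) (l 4)) (a (b (a (l 541909519) (b (l 542087439) (l 541878287))) (l 4)) (b (a (b (l 542139407) (l 541657871)) (b (l 16781968) (l 541978383))) (b (a (l 541698319) (l 541745935)) (l 4))))) (l 4)))), by decide +kernel⟩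

def k8_A00pm_213_s3 : ∃ t, chk3 f_A00pm_213_s3 t 30 63 1 = true :=
  ⟨(b (b (a (l 16806728) (l 16912064)) (a (a (l 16801880) (l 16836864)) (b (l 16892456) (l 16840672)))) (b (a (a (b (a (b (l 16783536) (l 16791512)) (l 16783744)) (a (b (l 541797391) (l 542343439)) (b (l 541853199) (b (l 541685007) (l 541549839))))) (b (l 16806872) (b (l 16792432) (a (b (l 16784784) (l 541607183)) (l 16785384))))) (b (l 16831928) (a (b (l 16784408) (l 16781800)) (l 16806272)))) (b (a (a (b (a (l 4) (b (l 541406735) (l 4))) (l 4)) (b (a (b (l 541460751) (l 542377999)) (b (l 542862607) (a (l 541349647) (l 541378831)))) (a (l 4) (b (a (l 4) (l 541205519)) (l 4))))) (a (b (b (l 16785232) (a (a (l 541409807) (l 16778632)) (l 16779344))) (a (b (a (l 541233935) (l 541263887)) (a (l 4) (b (l 541147151) (l 4)))) (b (a (l 541832463) (l 542939663)) (a (b (l 541179151) (l 541077263)) (b (l 541213199) (l 541109775)))))) (b (l 16791792) (a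 (b (l 16779112) (a (b (l 16778096) (l 541413135)) (b (l 16778496) (l 542523919)))) (b (l 16779928) (b (l 16779072) (l 16778528))))))) (b (a (l 4) (a (l 4) (a (b (a (b (l 542374671) (l 4)) (b (a (l 541062927) (l 541081103)) (a (l 540941327) (l 540958479)))) (l 4)) (b (a (b (b (l 16777952) (l 16777704)) (a (l 540976399) (l 540994831))) (b (l 16778176) (a (l 541282319) (l 541570575)))) (b (a (a (l 4) (l 542199567)) (a (b (l 540936975) (l 4)) (b (l 540957199) (l 540886799)))) (l 4)))))) (l 4))))), by decide +kernel⟩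

def k9_A00pm_213_s3 : ∃ t, chk3 f_A00pm_213_s3 t 62 126 1 = true :=
  ⟨(b (b (l 16910928) (l 16969000)) (b (l 16943584) (l 16918304))), by decide +kernel⟩

def k10_A00pm_213_s3 : ∃ t, chk3 f_A00pm_213_s3 t 62 254 1 = true :=
  ⟨(b (l 16875824) (a (l 16820864) (l 16844360))), by decide +kernel⟩

def k11_A00pm_213_s3 : ∃ t, chk3 f_A00pm_213_s3 t 62 510 1 = true :=
  ⟨(b (a (l 16783048) (l 16809760)) (a (b (l 16802048) (l 16785096)) (b (l 16804816) (l 16802592)))), by decide +kernel⟩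

def k12_A00pm_213_s3 : ∃ t, chk3 f_A00pm_213_s3 t 124 511 1 = true :=
  ⟨(a (b (b (b (l 16778672) (b (l 16783520) (l 16778016))) (a (b (a (b (l 540978447) (l 540907279)) (b (l 16780312) (l 540928527))) (b (a (l 540831759) (l 540852495)) (l 4))) (b (b (l 16777912) (a (l 16777592) (l 16780360))) (a (b (l 541142543) (l 542134287)) (b (l 541701647) (a (l 540812047) (l 540823311))))))) (a (l 4) (l 4))) (b (b (l 16784272) (a (b (l 16780696) (a (b (l 16777632) (b (l 16777448) (l 540832527))) (b (l 16777768) (a (l 540857871) (l 16777552))))) (b (l 16778352) (a (b (l 16777896) (l 16777648)) (l 16780520))))) (b (b (a (a (b (a (l 540745231) (l 540756239)) (l 4)) (b (a (l 540767759) (l 541047567)) (b (l 542329871) (l 4)))) (a (a (b (l 541327887) (b (l 540739087) (l 4))) (b (l 541608463) (b (l 540751631) (l 540701199)))) (b (b (l 16777584) (l 16777472)) (a (b (l 540764431) (l 540713743)) (b (l 540777487) (l 540726543))))))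 (a (l 4) (b (a (l 4) (b (a (l 4) (l 540672783)) (l 4))) (l 4)))) (l 4)))), by decide +kernel⟩

def k13_A00pm_213_s3 : ∃ t, chk3 f_A00pm_213_s3 t 125 511 1 = true :=
  ⟨(b (b (l 16790360) (b (l 16784224) (a (b (l 16783576) (l 16778064)) (l 16778656)))) (a (b (b (a (a (b (l 16777648) (b (l 16777464) (a (l 540739855) (l 540753167)))) (b (l 16777760) (b (l 16777576) (l 16777456)))) (b (l 16777928) (b (l 16777736) (l 16777616)))) (a (b (a (b (a (l 540685839) (l 540699151)) (a (l 4) (l 540909839))) (a (b (l 540712719) (l 541191695)) (b (l 540995087) (l 541473551)))) (a (l 4) (b (a (l 4) (b (l 540635919) (l 4))) (l 4)))) (b (a (b (l 16777448) (a (l 542024463) (l 542307343))) (b (l 16780168) (c (l 16777424) (l 16777424)))) (a (b (a (b (l 540650255) (l 540618767)) (b (l 540664847) (l 540633359))) (l 4)) (b (a (b (l 16777320) (l 540648207)) (b (l 16777368) (l 540663823))) (a (b (l 540615439) (l 4)) (b (l 540899087) (l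 541401615)))))))) (l 4)) (b (b (b (l 16778240) (l 16780600)) (b (a (b (l 16780312) (l 16777568)) (l 16777816)) (l 14))) (l 14)))), by decide +kernel⟩

def k14_A00pm_213_s3 : ∃ t, chk3 f_A00pm_213_s3 t 63 63 1 = true :=
  ⟨(b (a (b (l 16963128) (l 16986944)) (a (b (l 16997152) (l 16974248)) (a (b (l 17014528) (l 16947240)) (b (b (l 17042312) (l 17008240)) (b (l 16973568) (l 16980184)))))) (b (a (b (l 16900424) (b (l 16836568) (l 16864144))) (a (b (l 16883152) (l 16871200)) (a (b (l 16895752) (l 16860936)) (a (b (l 16902112) (l 16866352)) (b (b (l 16914936) (l 16896800)) (b (l 16878496) (l 16880968))))))) (b (a (b (b (l 16853648) (l 16846792)) (b (l 16819136) (l 16812800))) (a (b (l 16825800) (l 16830696)) (a (b (l 16834768) (l 16827808)) (a (b (l 16839296) (l 16821160)) (a (b (l 16841576) (l 16823088)) (b (b (l 16847512) (l 16838144)) (b (l 16828736) (l 16829744)))))))) (b (a (a (b (l 16803608) (a (l 16779272)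 (l 16790520))) (b (l 16810656) (l 16794192))) (a (b (l 16808512) (b (l 16792336) (l 16799128))) (a (b (l 16804368) (l 16801064)) (a (b (l 16807568) (l 16798520)) (a (b (l 16809176) (l 16799880)) (a (b (l 16809976) (l 16800560)) (b (b (l 16812760) (l 16808000)) (b (l 16803224) (l 16803672))))))))) (b (b (a (a (l 16783728) (b (l 16790848) (l 16789912))) (a (b (l 16796432) (l 16794680)) (a (l 16789536) (a (l 16791792) (a (l 16792928) (a (l 16793496) (a (l 16793776) (b (l 16795104) (l 16792696))))))))) (b (a (a (l 16778072) (a (l 16778304) (l 16789464))) (a (a (l 16781184) (l 16783816)) (a (l 16786456) (a (l 16788456) (a (l 16789456) (a (l 16789960) (a (l 16790216) (l 16790296)))))))) (l 14))) (l 14)))))), by decide +kernel⟩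

theorem t15_A00pm_213_s3 : ∃ t, chk3 f_A00pm_213_s3 t 62 511 1 = true := ex3_a k12_A00pm_213_s3 k13_A00pm_213_s3

theorem t16_A00pm_213_s3 : ∃ t, chk3 f_A00pm_213_s3 t 62 255 1 = true := ex3_b k11_A00pm_213_s3 t15_A00pm_213_s3

theorem t17_A00pm_213_s3 : ∃ t, chk3 f_A00pm_213_s3 t 62 127 1 = true := ex3_b k10_A00pm_213_s3 t16_A00pm_213_s3

theorem t18_A00pm_213_s3 : ∃ t, chk3 f_A00pm_213_s3 t 62 63 1 = true := ex3_b k9_A00pm_213_s3 t17_A00pm_213_s3

theorem t19_A00pm_213_s3 : ∃ t, chk3 f_A00pm_213_s3 t 31 63 1 = true := ex3_a t18_A00pm_213_s3 k14_A00pm_213_s3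

theorem t20_A00pm_213_s3 : ∃ t, chk3 f_A00pm_213_s3 t 15 63 1 = true := ex3_a k8_A00pm_213_s3 t19_A00pm_213_s3

theorem t21_A00pm_213_s3 : ∃ t, chk3 f_A00pm_213_s3 t 7 63 1 = true := ex3_a k7_A00pm_213_s3 t20_A00pm_213_s3

theorem t22_A00pm_213_s3 : ∃ t, chk3 f_A00pm_213_s3 t 3 63 1 = true := ex3_a k6_A00pm_213_s3 t21_A00pm_213_s3

theorem t23_A00pm_213_s3 : ∃ t, chk3 f_A00pm_213_s3 t 3 31 1 = true := ex3_b k5_A00pm_213_s3 t22_A00pm_213_s3

theorem t24_A00pm_213_s3 : ∃ t, chk3 f_A00pm_213_s3 t 3 15 1 = true := ex3_b k4_A00pm_213_s3 t23_A00pm_213_s3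

theorem t25_A00pm_213_s3 : ∃ t, chk3 f_A00pm_213_s3 t 1 15 1 = true := ex3_a k3_A00pm_213_s3 t24_A00pm_213_s3

theorem t26_A00pm_213_s3 : ∃ t, chk3 f_A00pm_213_s3 t 1 7 1 = true := ex3_b k2_A00pm_213_s3 t25_A00pm_213_s3

theorem t27_A00pm_213_s3 : ∃ t, chk3 f_A00pm_213_s3 t 1 3 1 = true := ex3_b k1_A00pm_213_s3 t26_A00pm_213_s3

theorem t28_A00pm_213_s3 : ∃ t, chk3 f_A00pm_213_s3 t 1 1 1 = true := ex3_b k0_A00pm_213_s3 t27_A00pm_213_s3

theorem c_A00pm_213_s3 : CertF 0 536870912 536870912 536870912 50331648 16777216 true true false .pnn 2 1 3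
    ndF0q2 ndF0q1 pcF3 cut_A00pm_213_s3 xt_A00pm_213_s3 :=
  certFK1 (fam := true) (s1 := true) (s2 := false) (a := 2) (b := 1) (c := 3) (cn := .pnn) (n1 := ndF0q2) (n2 := ndF0q1) (pc := pcF3) (cut := cut_A00pm_213_s3) (xt := xt_A00pm_213_s3) (P1 := 0) (W1 := 536870912) (P2 := 536870912) (W2 := 536870912) (P3 := 50331648) (W3 := 16777216)
    rfl rfl rfl (fun _ => rfl) t28_A00pm_213_s3

theorem s_A00pm_213_s3 {κ x : ℝ} (hκ : κ * h0 = ken x) (hx : ((50331648 : ℕ) : ℝ) / S ≤ x)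
    (hx' : x ≤ (((50331648 : ℕ) : ℝ) + (16777216 : ℕ)) / S)
    (H : CutA (VF κ) PP tKF tL pcF (Cut.of [[⟨0, 1, 0, 14341072⟩, ⟨1, 1, 0, 14341072⟩, ⟨2, 2, 0, 761489⟩]]) 2 1 3 0 0 (sgb true) (sgb false) x) :
    AltA (VF κ) PP tKF tL pcF [⟨4, 0, 0, 2845415833⟩] 2 1 3 0 0 (sgb true) (sgb false) x :=
  strip_altA (m := 2845415833) false rfl hκ covF02 covF01 hx hx' c_A00pm_213_s3 H ((okx hx hx').extA (T := tt) (sideF hx hx') hκ rfl rfl (.O 2 true) (.O 1 false) (Or.inr rfl))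

noncomputable def cut_A00mm_001_s1 : Cut := Cut.of [[⟨4, 0, 0, 1449551462⟩]]

noncomputable def f_A00mm_001_s1 : ℕ → ℕ → ℕ → ℕ → Bool := onCell 0 536870912 0 536870912 50331648 16777216
    (rowFK 0 true false false .up 0 0 1 (qsf 0 536870912 0 536870912 1) ndF0q0 ndF0q0 pcF1 cut_A00mm_001_s1 Ext.none)

def k0_A00mm_001_s1 : ∃ t, chk3 f_A00mm_001_s1 t 1 1 1 = true :=
  ⟨(l 4), by decide +kernel⟩

theorem c_A00mm_001_s1 : CertF 0 536870912 0 536870912 50331648 16777216 true false false .up 0 0 1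
    ndF0q0 ndF0q0 pcF1 cut_A00mm_001_s1 Ext.none :=
  certFK0 (fam := true) (s1 := false) (s2 := false) (a := 0) (b := 0) (c := 1) (cn := .up) (n1 := ndF0q0) (n2 := ndF0q0) (pc := pcF1) (cut := cut_A00mm_001_s1) (xt := Ext.none) (P1 := 0) (W1 := 536870912) (P2 := 0) (W2 := 536870912) (P3 := 50331648) (W3 := 16777216)
    rfl rfl rfl k0_A00mm_001_s1

theorem s_A00mm_001_s1 {κ x : ℝ} (hκ : κ * h0 = ken x) (hx : ((50331648 : ℕ) : ℝ) / S ≤ x)
    (hx' : x ≤ (((50331648 : ℕ) : ℝ) + (16777216 : ℕ)) / S) :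
    AltA (VF κ) PP tKF tL pcF [⟨3, 0, 0, 1449551462⟩] 0 0 1 0 0 (sgb false) (sgb false) x :=
  strip_altA (m := 1449551462) true rfl hκ covF00 covF00 hx hx' c_A00mm_001_s1 cutA_nil (noExt_A)

noncomputable def cut_A00mm_001_s3 : Cut := Cut.of [[⟨3, 0, 0, 2845415833⟩]]

noncomputable def f_A00mm_001_s3 : ℕ → ℕ → ℕ → ℕ → Bool := onCell 0 536870912 0 536870912 50331648 16777216
    (rowFK 0 true false false .up 0 0 1 (qsf 0 536870912 0 536870912 1) ndF0q0 ndF0q0 pcF1 cut_A00mm_001_s3 Ext.none)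

def k0_A00mm_001_s3 : ∃ t, chk3 f_A00mm_001_s3 t 1 1 1 = true :=
  ⟨(l 4), by decide +kernel⟩

theorem c_A00mm_001_s3 : CertF 0 536870912 0 536870912 50331648 16777216 true false false .up 0 0 1
    ndF0q0 ndF0q0 pcF1 cut_A00mm_001_s3 Ext.none :=
  certFK0 (fam := true) (s1 := false) (s2 := false) (a := 0) (b := 0) (c := 1) (cn := .up) (n1 := ndF0q0) (n2 := ndF0q0) (pc := pcF1) (cut := cut_A00mm_001_s3) (xt := Ext.none) (P1 := 0) (W1 := 536870912) (P2 := 0) (W2 := 536870912) (P3 := 50331648) (W3 := 16777216)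
    rfl rfl rfl k0_A00mm_001_s3

theorem s_A00mm_001_s3 {κ x : ℝ} (hκ : κ * h0 = ken x) (hx : ((50331648 : ℕ) : ℝ) / S ≤ x)
    (hx' : x ≤ (((50331648 : ℕ) : ℝ) + (16777216 : ℕ)) / S) :
    AltA (VF κ) PP tKF tL pcF [⟨4, 0, 0, 2845415833⟩] 0 0 1 0 0 (sgb false) (sgb false) x :=
  strip_altA (m := 2845415833) false rfl hκ covF00 covF00 hx hx' c_A00mm_001_s3 cutA_nil (noExt_A)

noncomputable def cut_A00mm_011_s1 : Cut := Cut.of [[⟨4, 0, 0, 1449551462⟩]]

noncomputable def f_A00mm_011_s1 : ℕ → ℕ → ℕ → ℕ → Bool := onCell 0 536870912 536870912 536870912 50331648 16777216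
    (rowFK 0 true false false .pnn 0 1 1 (qsf 0 536870912 536870912 536870912 1) ndF0q0 ndF0q1 pcF1 cut_A00mm_011_s1 Ext.none)

def k0_A00mm_011_s1 : ∃ t, chk3 f_A00mm_011_s1 t 1 1 1 = true :=
  ⟨(l 6), by decide +kernel⟩

theorem c_A00mm_011_s1 : CertF 0 536870912 536870912 536870912 50331648 16777216 true false false .pnn 0 1 1
    ndF0q0 ndF0q1 pcF1 cut_A00mm_011_s1 Ext.none :=
  certFK0 (fam := true) (s1 := false) (s2 := false) (a := 0) (b := 1) (c := 1) (cn := .pnn) (n1 := ndF0q0) (n2 := ndF0q1) (pc := pcF1) (cut := cut_A00mm_011_s1) (xt := Ext.none) (P1 := 0) (W1 := 536870912) (P2 := 536870912) (W2 := 536870912) (P3 := 50331648) (W3 := 16777216)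
    rfl rfl rfl k0_A00mm_011_s1

theorem s_A00mm_011_s1 {κ x : ℝ} (hκ : κ * h0 = ken x) (hx : ((50331648 : ℕ) : ℝ) / S ≤ x)
    (hx' : x ≤ (((50331648 : ℕ) : ℝ) + (16777216 : ℕ)) / S) :
    AltA (VF κ) PP tKF tL pcF [⟨3, 0, 0, 1449551462⟩] 0 1 1 0 0 (sgb false) (sgb false) x :=
  strip_altA (m := 1449551462) true rfl hκ covF00 covF01 hx hx' c_A00mm_011_s1 cutA_nil (noExt_A)

noncomputable def cut_A00mm_011_s3 : Cut := Cut.of [[⟨3, 0, 0, 2845415833⟩]]

noncomputable def f_A00mm_011_s3 : ℕ → ℕ → ℕ → ℕ → Bool := onCell 0 536870912 536870912 536870912 50331648 16777216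
    (rowFK 0 true false false .pnn 0 1 1 (qsf 0 536870912 536870912 536870912 1) ndF0q0 ndF0q1 pcF1 cut_A00mm_011_s3 Ext.none)

def k0_A00mm_011_s3 : ∃ t, chk3 f_A00mm_011_s3 t 1 1 1 = true :=
  ⟨(a (l 5) (l 4)), by decide +kernel⟩

theorem c_A00mm_011_s3 : CertF 0 536870912 536870912 536870912 50331648 16777216 true false false .pnn 0 1 1
    ndF0q0 ndF0q1 pcF1 cut_A00mm_011_s3 Ext.none :=
  certFK0 (fam := true) (s1 := false) (s2 := false) (a := 0) (b := 1) (c := 1) (cn := .pnn) (n1 := ndF0q0) (n2 := ndF0q1) (pc := pcF1) (cut := cut_A00mm_011_s3) (xt := Ext.none) (P1 := 0) (W1 := 536870912) (P2 := 536870912) (W2 := 536870912) (P3 := 50331648) (W3 := 16777216)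
    rfl rfl rfl k0_A00mm_011_s3

theorem s_A00mm_011_s3 {κ x : ℝ} (hκ : κ * h0 = ken x) (hx : ((50331648 : ℕ) : ℝ) / S ≤ x)
    (hx' : x ≤ (((50331648 : ℕ) : ℝ) + (16777216 : ℕ)) / S) :
    AltA (VF κ) PP tKF tL pcF [⟨4, 0, 0, 2845415833⟩] 0 1 1 0 0 (sgb false) (sgb false) x :=
  strip_altA (m := 2845415833) false rfl hκ covF00 covF01 hx hx' c_A00mm_011_s3 cutA_nil (noExt_A)

noncomputable def cut_A00mm_012_s1 : Cut := Cut.of [[⟨4, 0, 0, 1449551462⟩]]

noncomputable def f_A00mm_012_s1 : ℕ → ℕ → ℕ → ℕ → Bool := onCell 0 536870912 536870912 536870912 50331648 16777216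
    (rowFK 0 true false false .pnp 0 1 2 (qsf 0 536870912 536870912 536870912 2) ndF0q0 ndF0q1 pcF2 cut_A00mm_012_s1 Ext.none)

def k0_A00mm_012_s1 : ∃ t, chk3 f_A00mm_012_s1 t 1 1 1 = true :=
  ⟨(l 6), by decide +kernel⟩

theorem c_A00mm_012_s1 : CertF 0 536870912 536870912 536870912 50331648 16777216 true false false .pnp 0 1 2
    ndF0q0 ndF0q1 pcF2 cut_A00mm_012_s1 Ext.none :=
  certFK0 (fam := true) (s1 := false) (s2 := false) (a := 0) (b := 1) (c := 2) (cn := .pnp) (n1 := ndF0q0) (n2 := ndF0q1) (pc := pcF2) (cut := cut_A00mm_012_s1) (xt := Ext.none) (P1 := 0) (W1 := 536870912) (P2 := 536870912) (W2 := 536870912) (P3 := 50331648) (W3 := 16777216)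
    rfl rfl rfl k0_A00mm_012_s1

theorem s_A00mm_012_s1 {κ x : ℝ} (hκ : κ * h0 = ken x) (hx : ((50331648 : ℕ) : ℝ) / S ≤ x)
    (hx' : x ≤ (((50331648 : ℕ) : ℝ) + (16777216 : ℕ)) / S) :
    AltA (VF κ) PP tKF tL pcF [⟨3, 0, 0, 1449551462⟩] 0 1 2 0 0 (sgb false) (sgb false) x :=
  strip_altA (m := 1449551462) true rfl hκ covF00 covF01 hx hx' c_A00mm_012_s1 cutA_nil (noExt_A)

noncomputable def cut_A00mm_012_s3 : Cut := Cut.of [[⟨3, 0, 0, 2845415833⟩]]

noncomputable def f_A00mm_012_s3 : ℕ → ℕ → ℕ → ℕ → Bool := onCell 0 536870912 536870912 536870912 50331648 16777216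
    (rowFK 0 true false false .pnp 0 1 2 (qsf 0 536870912 536870912 536870912 2) ndF0q0 ndF0q1 pcF2 cut_A00mm_012_s3 Ext.none)

def k0_A00mm_012_s3 : ∃ t, chk3 f_A00mm_012_s3 t 1 1 1 = true :=
  ⟨(a (l 5) (l 4)), by decide +kernel⟩

theorem c_A00mm_012_s3 : CertF 0 536870912 536870912 536870912 50331648 16777216 true false false .pnp 0 1 2
    ndF0q0 ndF0q1 pcF2 cut_A00mm_012_s3 Ext.none :=
  certFK0 (fam := true) (s1 := false) (s2 := false) (a := 0) (b := 1) (c := 2) (cn := .pnp) (n1 := ndF0q0) (n2 := ndF0q1) (pc := pcF2) (cut := cut_A00mm_012_s3) (xt := Ext.none) (P1 := 0) (W1 := 536870912) (P2 := 536870912) (W2 := 536870912) (P3 := 50331648) (W3 := 16777216)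
    rfl rfl rfl k0_A00mm_012_s3

theorem s_A00mm_012_s3 {κ x : ℝ} (hκ : κ * h0 = ken x) (hx : ((50331648 : ℕ) : ℝ) / S ≤ x)
    (hx' : x ≤ (((50331648 : ℕ) : ℝ) + (16777216 : ℕ)) / S) :
    AltA (VF κ) PP tKF tL pcF [⟨4, 0, 0, 2845415833⟩] 0 1 2 0 0 (sgb false) (sgb false) x :=
  strip_altA (m := 2845415833) false rfl hκ covF00 covF01 hx hx' c_A00mm_012_s3 cutA_nil (noExt_A)

noncomputable def cut_A00mm_022_s1 : Cut := Cut.of [[⟨4, 0, 0, 1449551462⟩]]

noncomputable def f_A00mm_022_s1 : ℕ → ℕ → ℕ → ℕ → Bool := onCell 0 536870912 0 536870912 50331648 16777216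
    (rowFK 0 true false false .pp 0 2 2 (qsf 0 536870912 0 536870912 2) ndF0q0 ndF0q2 pcF2 cut_A00mm_022_s1 Ext.none)

def k0_A00mm_022_s1 : ∃ t, chk3 f_A00mm_022_s1 t 1 1 1 = true :=
  ⟨(l 5), by decide +kernel⟩

theorem c_A00mm_022_s1 : CertF 0 536870912 0 536870912 50331648 16777216 true false false .pp 0 2 2
    ndF0q0 ndF0q2 pcF2 cut_A00mm_022_s1 Ext.none :=
  certFK0 (fam := true) (s1 := false) (s2 := false) (a := 0) (b := 2) (c := 2) (cn := .pp) (n1 := ndF0q0) (n2 := ndF0q2) (pc := pcF2) (cut := cut_A00mm_022_s1) (xt := Ext.none) (P1 := 0) (W1 := 536870912) (P2 := 0) (W2 := 536870912) (P3 := 50331648) (W3 := 16777216)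
    rfl rfl rfl k0_A00mm_022_s1

theorem s_A00mm_022_s1 {κ x : ℝ} (hκ : κ * h0 = ken x) (hx : ((50331648 : ℕ) : ℝ) / S ≤ x)
    (hx' : x ≤ (((50331648 : ℕ) : ℝ) + (16777216 : ℕ)) / S) :
    AltA (VF κ) PP tKF tL pcF [⟨3, 0, 0, 1449551462⟩] 0 2 2 0 0 (sgb false) (sgb false) x :=
  strip_altA (m := 1449551462) true rfl hκ covF00 covF02 hx hx' c_A00mm_022_s1 cutA_nil (noExt_A)

noncomputable def cut_A00mm_022_s3 : Cut := Cut.of [[⟨3, 0, 0, 2845415833⟩]]

noncomputable def f_A00mm_022_s3 : ℕ → ℕ → ℕ → ℕ → Bool := onCell 0 536870912 0 536870912 50331648 16777216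
    (rowFK 0 true false false .pp 0 2 2 (qsf 0 536870912 0 536870912 2) ndF0q0 ndF0q2 pcF2 cut_A00mm_022_s3 Ext.none)

def k0_A00mm_022_s3 : ∃ t, chk3 f_A00mm_022_s3 t 1 1 1 = true :=
  ⟨(l 5), by decide +kernel⟩

theorem c_A00mm_022_s3 : CertF 0 536870912 0 536870912 50331648 16777216 true false false .pp 0 2 2
    ndF0q0 ndF0q2 pcF2 cut_A00mm_022_s3 Ext.none :=
  certFK0 (fam := true) (s1 := false) (s2 := false) (a := 0) (b := 2) (c := 2) (cn := .pp) (n1 := ndF0q0) (n2 := ndF0q2) (pc := pcF2) (cut := cut_A00mm_022_s3) (xt := Ext.none) (P1 := 0) (W1 := 536870912) (P2 := 0) (W2 := 536870912) (P3 := 50331648) (W3 := 16777216)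
    rfl rfl rfl k0_A00mm_022_s3

theorem s_A00mm_022_s3 {κ x : ℝ} (hκ : κ * h0 = ken x) (hx : ((50331648 : ℕ) : ℝ) / S ≤ x)
    (hx' : x ≤ (((50331648 : ℕ) : ℝ) + (16777216 : ℕ)) / S) :
    AltA (VF κ) PP tKF tL pcF [⟨4, 0, 0, 2845415833⟩] 0 2 2 0 0 (sgb false) (sgb false) x :=
  strip_altA (m := 2845415833) false rfl hκ covF00 covF02 hx hx' c_A00mm_022_s3 cutA_nil (noExt_A)

noncomputable def cut_A00mm_023_s1 : Cut := Cut.of [[⟨4, 0, 0, 1449551462⟩]]

noncomputable def f_A00mm_023_s1 : ℕ → ℕ → ℕ → ℕ → Bool := onCell 0 536870912 0 536870912 50331648 16777216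
    (rowFK 0 true false false .up 0 2 3 (qsf 0 536870912 0 536870912 3) ndF0q0 ndF0q2 pcF3 cut_A00mm_023_s1 Ext.none)

def k0_A00mm_023_s1 : ∃ t, chk3 f_A00mm_023_s1 t 1 1 1 = true :=
  ⟨(l 5), by decide +kernel⟩

theorem c_A00mm_023_s1 : CertF 0 536870912 0 536870912 50331648 16777216 true false false .up 0 2 3
    ndF0q0 ndF0q2 pcF3 cut_A00mm_023_s1 Ext.none :=
  certFK0 (fam := true) (s1 := false) (s2 := false) (a := 0) (b := 2) (c := 3) (cn := .up) (n1 := ndF0q0) (n2 := ndF0q2) (pc := pcF3) (cut := cut_A00mm_023_s1) (xt := Ext.none) (P1 := 0) (W1 := 536870912) (P2 := 0) (W2 := 536870912) (P3 := 50331648) (W3 := 16777216)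
    rfl rfl rfl k0_A00mm_023_s1

theorem s_A00mm_023_s1 {κ x : ℝ} (hκ : κ * h0 = ken x) (hx : ((50331648 : ℕ) : ℝ) / S ≤ x)
    (hx' : x ≤ (((50331648 : ℕ) : ℝ) + (16777216 : ℕ)) / S) :
    AltA (VF κ) PP tKF tL pcF [⟨3, 0, 0, 1449551462⟩] 0 2 3 0 0 (sgb false) (sgb false) x :=
  strip_altA (m := 1449551462) true rfl hκ covF00 covF02 hx hx' c_A00mm_023_s1 cutA_nil (noExt_A)

noncomputable def cut_A00mm_023_s3 : Cut := Cut.of [[⟨3, 0, 0, 2845415833⟩]]

noncomputable def f_A00mm_023_s3 : ℕ → ℕ → ℕ → ℕ → Bool := onCell 0 536870912 0 536870912 50331648 16777216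
    (rowFK 0 true false false .up 0 2 3 (qsf 0 536870912 0 536870912 3) ndF0q0 ndF0q2 pcF3 cut_A00mm_023_s3 Ext.none)

def k0_A00mm_023_s3 : ∃ t, chk3 f_A00mm_023_s3 t 1 1 1 = true :=
  ⟨(l 5), by decide +kernel⟩

theorem c_A00mm_023_s3 : CertF 0 536870912 0 536870912 50331648 16777216 true false false .up 0 2 3
    ndF0q0 ndF0q2 pcF3 cut_A00mm_023_s3 Ext.none :=
  certFK0 (fam := true) (s1 := false) (s2 := false) (a := 0) (b := 2) (c := 3) (cn := .up) (n1 := ndF0q0) (n2 := ndF0q2) (pc := pcF3) (cut := cut_A00mm_023_s3) (xt := Ext.none) (P1 := 0) (W1 := 536870912) (P2 := 0) (W2 := 536870912) (P3 := 50331648) (W3 := 16777216)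
    rfl rfl rfl k0_A00mm_023_s3

theorem s_A00mm_023_s3 {κ x : ℝ} (hκ : κ * h0 = ken x) (hx : ((50331648 : ℕ) : ℝ) / S ≤ x)
    (hx' : x ≤ (((50331648 : ℕ) : ℝ) + (16777216 : ℕ)) / S) :
    AltA (VF κ) PP tKF tL pcF [⟨4, 0, 0, 2845415833⟩] 0 2 3 0 0 (sgb false) (sgb false) x :=
  strip_altA (m := 2845415833) false rfl hκ covF00 covF02 hx hx' c_A00mm_023_s3 cutA_nil (noExt_A)

noncomputable def cut_A00mm_101_s1 : Cut := Cut.of [[⟨4, 0, 0, 1449551462⟩], [⟨0, 1, 0, 50331648⟩, ⟨1, 0, 0, 50331648⟩, ⟨2, 1, 0, 50331648⟩]]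

noncomputable def f_A00mm_101_s1 : ℕ → ℕ → ℕ → ℕ → Bool := onCell 536870912 536870912 0 536870912 50331648 16777216
    (rowFK 0 true false false .npn 1 0 1 (qsf 536870912 536870912 0 536870912 1) ndF0q1 ndF0q0 pcF1 cut_A00mm_101_s1 Ext.none)

def k0_A00mm_101_s1 : ∃ t, chk3 f_A00mm_101_s1 t 1 1 1 = true :=
  ⟨(l 6), by decide +kernel⟩

theorem c_A00mm_101_s1 : CertF 536870912 536870912 0 536870912 50331648 16777216 true false false .npn 1 0 1
    ndF0q1 ndF0q0 pcF1 cut_A00mm_101_s1 Ext.none :=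
  certFK0 (fam := true) (s1 := false) (s2 := false) (a := 1) (b := 0) (c := 1) (cn := .npn) (n1 := ndF0q1) (n2 := ndF0q0) (pc := pcF1) (cut := cut_A00mm_101_s1) (xt := Ext.none) (P1 := 536870912) (W1 := 536870912) (P2 := 0) (W2 := 536870912) (P3 := 50331648) (W3 := 16777216)
    rfl rfl rfl k0_A00mm_101_s1

theorem s_A00mm_101_s1 {κ x : ℝ} (hκ : κ * h0 = ken x) (hx : ((50331648 : ℕ) : ℝ) / S ≤ x)
    (hx' : x ≤ (((50331648 : ℕ) : ℝ) + (16777216 : ℕ)) / S)
    (H : CutA (VF κ) PP tKF tL pcF (Cut.of [[⟨0, 1, 0, 50331648⟩, ⟨1, 0, 0, 50331648⟩, ⟨2, 1, 0, 50331648⟩]]) 1 0 1 0 0 (sgb false) (sgb false) x) :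
    AltA (VF κ) PP tKF tL pcF [⟨3, 0, 0, 1449551462⟩] 1 0 1 0 0 (sgb false) (sgb false) x :=
  strip_altA (m := 1449551462) true rfl hκ covF01 covF00 hx hx' c_A00mm_101_s1 H (noExt_A)

noncomputable def cut_A00mm_101_s3 : Cut := Cut.of [[⟨3, 0, 0, 2845415833⟩], [⟨0, 1, 0, 50331648⟩, ⟨1, 0, 0, 50331648⟩, ⟨2, 1, 0, 50331648⟩]]

noncomputable def f_A00mm_101_s3 : ℕ → ℕ → ℕ → ℕ → Bool := onCell 536870912 536870912 0 536870912 50331648 16777216
    (rowFK 0 true false false .npn 1 0 1 (qsf 536870912 536870912 0 536870912 1) ndF0q1 ndF0q0 pcF1 cut_A00mm_101_s3 Ext.none)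

def k0_A00mm_101_s3 : ∃ t, chk3 f_A00mm_101_s3 t 1 1 1 = true :=
  ⟨(a (l 4) (b (a (l 4) (a (l 4) (a (l 4) (b (b (b (l 14) (l 4)) (l 2)) (l 2))))) (l 4))), by decide +kernel⟩

theorem c_A00mm_101_s3 : CertF 536870912 536870912 0 536870912 50331648 16777216 true false false .npn 1 0 1
    ndF0q1 ndF0q0 pcF1 cut_A00mm_101_s3 Ext.none :=
  certFK0 (fam := true) (s1 := false) (s2 := false) (a := 1) (b := 0) (c := 1) (cn := .npn) (n1 := ndF0q1) (n2 := ndF0q0) (pc := pcF1) (cut := cut_A00mm_101_s3) (xt := Ext.none) (P1 := 536870912) (W1 := 536870912) (P2 := 0) (W2 := 536870912) (P3 := 50331648) (W3 := 16777216)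
    rfl rfl rfl k0_A00mm_101_s3

theorem s_A00mm_101_s3 {κ x : ℝ} (hκ : κ * h0 = ken x) (hx : ((50331648 : ℕ) : ℝ) / S ≤ x)
    (hx' : x ≤ (((50331648 : ℕ) : ℝ) + (16777216 : ℕ)) / S)
    (H : CutA (VF κ) PP tKF tL pcF (Cut.of [[⟨0, 1, 0, 50331648⟩, ⟨1, 0, 0, 50331648⟩, ⟨2, 1, 0, 50331648⟩]]) 1 0 1 0 0 (sgb false) (sgb false) x) :
    AltA (VF κ) PP tKF tL pcF [⟨4, 0, 0, 2845415833⟩] 1 0 1 0 0 (sgb false) (sgb false) x :=
  strip_altA (m := 2845415833) false rfl hκ covF01 covF00 hx hx' c_A00mm_101_s3 H (noExt_A)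

noncomputable def cut_A00mm_102_s1 : Cut := Cut.of [[⟨4, 0, 0, 1449551462⟩], [⟨0, 1, 0, 50331648⟩, ⟨1, 0, 0, 50331648⟩, ⟨2, 1, 0, 50331648⟩]]

noncomputable def f_A00mm_102_s1 : ℕ → ℕ → ℕ → ℕ → Bool := onCell 536870912 536870912 0 536870912 50331648 16777216
    (rowFK 0 true false false .npp 1 0 2 (qsf 536870912 536870912 0 536870912 2) ndF0q1 ndF0q0 pcF2 cut_A00mm_102_s1 Ext.none)

def k0_A00mm_102_s1 : ∃ t, chk3 f_A00mm_102_s1 t 1 1 1 = true :=
  ⟨(l 6), by decide +kernel⟩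

theorem c_A00mm_102_s1 : CertF 536870912 536870912 0 536870912 50331648 16777216 true false false .npp 1 0 2
    ndF0q1 ndF0q0 pcF2 cut_A00mm_102_s1 Ext.none :=
  certFK0 (fam := true) (s1 := false) (s2 := false) (a := 1) (b := 0) (c := 2) (cn := .npp) (n1 := ndF0q1) (n2 := ndF0q0) (pc := pcF2) (cut := cut_A00mm_102_s1) (xt := Ext.none) (P1 := 536870912) (W1 := 536870912) (P2 := 0) (W2 := 536870912) (P3 := 50331648) (W3 := 16777216)
    rfl rfl rfl k0_A00mm_102_s1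

theorem s_A00mm_102_s1 {κ x : ℝ} (hκ : κ * h0 = ken x) (hx : ((50331648 : ℕ) : ℝ) / S ≤ x)
    (hx' : x ≤ (((50331648 : ℕ) : ℝ) + (16777216 : ℕ)) / S)
    (H : CutA (VF κ) PP tKF tL pcF (Cut.of [[⟨0, 1, 0, 50331648⟩, ⟨1, 0, 0, 50331648⟩, ⟨2, 1, 0, 50331648⟩]]) 1 0 2 0 0 (sgb false) (sgb false) x) :
    AltA (VF κ) PP tKF tL pcF [⟨3, 0, 0, 1449551462⟩] 1 0 2 0 0 (sgb false) (sgb false) x :=
  strip_altA (m := 1449551462) true rfl hκ covF01 covF00 hx hx' c_A00mm_102_s1 H (noExt_A)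

noncomputable def cut_A00mm_102_s3 : Cut := Cut.of [[⟨3, 0, 0, 2845415833⟩], [⟨0, 1, 0, 50331648⟩, ⟨1, 0, 0, 50331648⟩, ⟨2, 1, 0, 50331648⟩]]

noncomputable def f_A00mm_102_s3 : ℕ → ℕ → ℕ → ℕ → Bool := onCell 536870912 536870912 0 536870912 50331648 16777216
    (rowFK 0 true false false .npp 1 0 2 (qsf 536870912 536870912 0 536870912 2) ndF0q1 ndF0q0 pcF2 cut_A00mm_102_s3 Ext.none)

def k0_A00mm_102_s3 : ∃ t, chk3 f_A00mm_102_s3 t 1 1 1 = true :=
  ⟨(b (a (l 4) (a (l 4) (b (a (l 4) (b (a (l 4) (b (l 14) (l 4))) (l 4))) (l 4)))) (l 4)), by decide +kernel⟩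

theorem c_A00mm_102_s3 : CertF 536870912 536870912 0 536870912 50331648 16777216 true false false .npp 1 0 2
    ndF0q1 ndF0q0 pcF2 cut_A00mm_102_s3 Ext.none :=
  certFK0 (fam := true) (s1 := false) (s2 := false) (a := 1) (b := 0) (c := 2) (cn := .npp) (n1 := ndF0q1) (n2 := ndF0q0) (pc := pcF2) (cut := cut_A00mm_102_s3) (xt := Ext.none) (P1 := 536870912) (W1 := 536870912) (P2 := 0) (W2 := 536870912) (P3 := 50331648) (W3 := 16777216)
    rfl rfl rfl k0_A00mm_102_s3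

theorem s_A00mm_102_s3 {κ x : ℝ} (hκ : κ * h0 = ken x) (hx : ((50331648 : ℕ) : ℝ) / S ≤ x)
    (hx' : x ≤ (((50331648 : ℕ) : ℝ) + (16777216 : ℕ)) / S)
    (H : CutA (VF κ) PP tKF tL pcF (Cut.of [[⟨0, 1, 0, 50331648⟩, ⟨1, 0, 0, 50331648⟩, ⟨2, 1, 0, 50331648⟩]]) 1 0 2 0 0 (sgb false) (sgb false) x) :
    AltA (VF κ) PP tKF tL pcF [⟨4, 0, 0, 2845415833⟩] 1 0 2 0 0 (sgb false) (sgb false) x :=
  strip_altA (m := 2845415833) false rfl hκ covF01 covF00 hx hx' c_A00mm_102_s3 H (noExt_A)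

noncomputable def cut_A00mm_112_s1 : Cut := Cut.of [[⟨4, 0, 0, 1449551462⟩]]

noncomputable def f_A00mm_112_s1 : ℕ → ℕ → ℕ → ℕ → Bool := onCell 536870912 536870912 536870912 536870912 50331648 16777216
    (rowFK 0 true false false .dn 1 1 2 (qsf 536870912 536870912 536870912 536870912 2) ndF0q1 ndF0q1 pcF2 cut_A00mm_112_s1 Ext.none)

def k0_A00mm_112_s1 : ∃ t, chk3 f_A00mm_112_s1 t 1 1 1 = true :=
  ⟨(l 4), by decide +kernel⟩

theorem c_A00mm_112_s1 : CertF 536870912 536870912 536870912 536870912 50331648 16777216 true false false .dn 1 1 2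
    ndF0q1 ndF0q1 pcF2 cut_A00mm_112_s1 Ext.none :=
  certFK0 (fam := true) (s1 := false) (s2 := false) (a := 1) (b := 1) (c := 2) (cn := .dn) (n1 := ndF0q1) (n2 := ndF0q1) (pc := pcF2) (cut := cut_A00mm_112_s1) (xt := Ext.none) (P1 := 536870912) (W1 := 536870912) (P2 := 536870912) (W2 := 536870912) (P3 := 50331648) (W3 := 16777216)
    rfl rfl rfl k0_A00mm_112_s1

theorem s_A00mm_112_s1 {κ x : ℝ} (hκ : κ * h0 = ken x) (hx : ((50331648 : ℕ) : ℝ) / S ≤ x)
    (hx' : x ≤ (((50331648 : ℕ) : ℝ) + (16777216 : ℕ)) / S) :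
    AltA (VF κ) PP tKF tL pcF [⟨3, 0, 0, 1449551462⟩] 1 1 2 0 0 (sgb false) (sgb false) x :=
  strip_altA (m := 1449551462) true rfl hκ covF01 covF01 hx hx' c_A00mm_112_s1 cutA_nil (noExt_A)

noncomputable def cut_A00mm_112_s3 : Cut := Cut.of [[⟨3, 0, 0, 2845415833⟩]]

noncomputable def f_A00mm_112_s3 : ℕ → ℕ → ℕ → ℕ → Bool := onCell 536870912 536870912 536870912 536870912 50331648 16777216
    (rowFK 0 true false false .dn 1 1 2 (qsf 536870912 536870912 536870912 536870912 2) ndF0q1 ndF0q1 pcF2 cut_A00mm_112_s3 Ext.none)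

def k0_A00mm_112_s3 : ∃ t, chk3 f_A00mm_112_s3 t 1 1 1 = true :=
  ⟨(l 4), by decide +kernel⟩

theorem c_A00mm_112_s3 : CertF 536870912 536870912 536870912 536870912 50331648 16777216 true false false .dn 1 1 2
    ndF0q1 ndF0q1 pcF2 cut_A00mm_112_s3 Ext.none :=
  certFK0 (fam := true) (s1 := false) (s2 := false) (a := 1) (b := 1) (c := 2) (cn := .dn) (n1 := ndF0q1) (n2 := ndF0q1) (pc := pcF2) (cut := cut_A00mm_112_s3) (xt := Ext.none) (P1 := 536870912) (W1 := 536870912) (P2 := 536870912) (W2 := 536870912) (P3 := 50331648) (W3 := 16777216)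
    rfl rfl rfl k0_A00mm_112_s3

theorem s_A00mm_112_s3 {κ x : ℝ} (hκ : κ * h0 = ken x) (hx : ((50331648 : ℕ) : ℝ) / S ≤ x)
    (hx' : x ≤ (((50331648 : ℕ) : ℝ) + (16777216 : ℕ)) / S) :
    AltA (VF κ) PP tKF tL pcF [⟨4, 0, 0, 2845415833⟩] 1 1 2 0 0 (sgb false) (sgb false) x :=
  strip_altA (m := 2845415833) false rfl hκ covF01 covF01 hx hx' c_A00mm_112_s3 cutA_nil (noExt_A)

noncomputable def cut_A00mm_113_s1 : Cut := Cut.of [[⟨4, 0, 0, 1449551462⟩]]

noncomputable def f_A00mm_113_s1 : ℕ → ℕ → ℕ → ℕ → Bool := onCell 536870912 536870912 536870912 536870912 50331648 16777216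
    (rowFK 0 true false false .nn 1 1 3 (qsf 536870912 536870912 536870912 536870912 3) ndF0q1 ndF0q1 pcF3 cut_A00mm_113_s1 Ext.none)

def k0_A00mm_113_s1 : ∃ t, chk3 f_A00mm_113_s1 t 1 1 1 = true :=
  ⟨(l 4), by decide +kernel⟩

theorem c_A00mm_113_s1 : CertF 536870912 536870912 536870912 536870912 50331648 16777216 true false false .nn 1 1 3
    ndF0q1 ndF0q1 pcF3 cut_A00mm_113_s1 Ext.none :=
  certFK0 (fam := true) (s1 := false) (s2 := false) (a := 1) (b := 1) (c := 3) (cn := .nn) (n1 := ndF0q1) (n2 := ndF0q1) (pc := pcF3) (cut := cut_A00mm_113_s1) (xt := Ext.none) (P1 := 536870912) (W1 := 536870912) (P2 := 536870912) (W2 := 536870912) (P3 := 50331648) (W3 := 16777216)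
    rfl rfl rfl k0_A00mm_113_s1

theorem s_A00mm_113_s1 {κ x : ℝ} (hκ : κ * h0 = ken x) (hx : ((50331648 : ℕ) : ℝ) / S ≤ x)
    (hx' : x ≤ (((50331648 : ℕ) : ℝ) + (16777216 : ℕ)) / S) :
    AltA (VF κ) PP tKF tL pcF [⟨3, 0, 0, 1449551462⟩] 1 1 3 0 0 (sgb false) (sgb false) x :=
  strip_altA (m := 1449551462) true rfl hκ covF01 covF01 hx hx' c_A00mm_113_s1 cutA_nil (noExt_A)

noncomputable def cut_A00mm_113_s3 : Cut := Cut.of [[⟨3, 0, 0, 2845415833⟩]]

noncomputable def f_A00mm_113_s3 : ℕ → ℕ → ℕ → ℕ → Bool := onCell 536870912 536870912 536870912 536870912 50331648 16777216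
    (rowFK 0 true false false .nn 1 1 3 (qsf 536870912 536870912 536870912 536870912 3) ndF0q1 ndF0q1 pcF3 cut_A00mm_113_s3 Ext.none)

def k0_A00mm_113_s3 : ∃ t, chk3 f_A00mm_113_s3 t 1 1 1 = true :=
  ⟨(l 4), by decide +kernel⟩

theorem c_A00mm_113_s3 : CertF 536870912 536870912 536870912 536870912 50331648 16777216 true false false .nn 1 1 3
    ndF0q1 ndF0q1 pcF3 cut_A00mm_113_s3 Ext.none :=
  certFK0 (fam := true) (s1 := false) (s2 := false) (a := 1) (b := 1) (c := 3) (cn := .nn) (n1 := ndF0q1) (n2 := ndF0q1) (pc := pcF3) (cut := cut_A00mm_113_s3) (xt := Ext.none) (P1 := 536870912) (W1 := 536870912) (P2 := 536870912) (W2 := 536870912) (P3 := 50331648) (W3 := 16777216)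
    rfl rfl rfl k0_A00mm_113_s3

theorem s_A00mm_113_s3 {κ x : ℝ} (hκ : κ * h0 = ken x) (hx : ((50331648 : ℕ) : ℝ) / S ≤ x)
    (hx' : x ≤ (((50331648 : ℕ) : ℝ) + (16777216 : ℕ)) / S) :
    AltA (VF κ) PP tKF tL pcF [⟨4, 0, 0, 2845415833⟩] 1 1 3 0 0 (sgb false) (sgb false) x :=
  strip_altA (m := 2845415833) false rfl hκ covF01 covF01 hx hx' c_A00mm_113_s3 cutA_nil (noExt_A)

noncomputable def cut_A00mm_123_s1 : Cut := Cut.of [[⟨4, 0, 0, 1449551462⟩]]

noncomputable def f_A00mm_123_s1 : ℕ → ℕ → ℕ → ℕ → Bool := onCell 536870912 536870912 0 536870912 50331648 16777216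
    (rowFK 0 true false false .npn 1 2 3 (qsf 536870912 536870912 0 536870912 3) ndF0q1 ndF0q2 pcF3 cut_A00mm_123_s1 Ext.none)

def k0_A00mm_123_s1 : ∃ t, chk3 f_A00mm_123_s1 t 1 1 1 = true :=
  ⟨(l 6), by decide +kernel⟩

theorem c_A00mm_123_s1 : CertF 536870912 536870912 0 536870912 50331648 16777216 true false false .npn 1 2 3
    ndF0q1 ndF0q2 pcF3 cut_A00mm_123_s1 Ext.none :=
  certFK0 (fam := true) (s1 := false) (s2 := false) (a := 1) (b := 2) (c := 3) (cn := .npn) (n1 := ndF0q1) (n2 := ndF0q2) (pc := pcF3) (cut := cut_A00mm_123_s1) (xt := Ext.none) (P1 := 536870912) (W1 := 536870912) (P2 := 0) (W2 := 536870912) (P3 := 50331648) (W3 := 16777216)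
    rfl rfl rfl k0_A00mm_123_s1

theorem s_A00mm_123_s1 {κ x : ℝ} (hκ : κ * h0 = ken x) (hx : ((50331648 : ℕ) : ℝ) / S ≤ x)
    (hx' : x ≤ (((50331648 : ℕ) : ℝ) + (16777216 : ℕ)) / S) :
    AltA (VF κ) PP tKF tL pcF [⟨3, 0, 0, 1449551462⟩] 1 2 3 0 0 (sgb false) (sgb false) x :=
  strip_altA (m := 1449551462) true rfl hκ covF01 covF02 hx hx' c_A00mm_123_s1 cutA_nil (noExt_A)

noncomputable def cut_A00mm_123_s3 : Cut := Cut.of [[⟨3, 0, 0, 2845415833⟩]]

noncomputable def f_A00mm_123_s3 : ℕ → ℕ → ℕ → ℕ → Bool := onCell 536870912 536870912 0 536870912 50331648 16777216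
    (rowFK 0 true false false .npn 1 2 3 (qsf 536870912 536870912 0 536870912 3) ndF0q1 ndF0q2 pcF3 cut_A00mm_123_s3 Ext.none)

def k0_A00mm_123_s3 : ∃ t, chk3 f_A00mm_123_s3 t 1 1 1 = true :=
  ⟨(a (l 5) (l 4)), by decide +kernel⟩

theorem c_A00mm_123_s3 : CertF 536870912 536870912 0 536870912 50331648 16777216 true false false .npn 1 2 3
    ndF0q1 ndF0q2 pcF3 cut_A00mm_123_s3 Ext.none :=
  certFK0 (fam := true) (s1 := false) (s2 := false) (a := 1) (b := 2) (c := 3) (cn := .npn) (n1 := ndF0q1) (n2 := ndF0q2) (pc := pcF3) (cut := cut_A00mm_123_s3) (xt := Ext.none) (P1 := 536870912) (W1 := 536870912) (P2 := 0) (W2 := 536870912) (P3 := 50331648) (W3 := 16777216)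
    rfl rfl rfl k0_A00mm_123_s3

theorem s_A00mm_123_s3 {κ x : ℝ} (hκ : κ * h0 = ken x) (hx : ((50331648 : ℕ) : ℝ) / S ≤ x)
    (hx' : x ≤ (((50331648 : ℕ) : ℝ) + (16777216 : ℕ)) / S) :
    AltA (VF κ) PP tKF tL pcF [⟨4, 0, 0, 2845415833⟩] 1 2 3 0 0 (sgb false) (sgb false) x :=
  strip_altA (m := 2845415833) false rfl hκ covF01 covF02 hx hx' c_A00mm_123_s3 cutA_nil (noExt_A)

noncomputable def cut_A00mm_202_s1 : Cut := Cut.of [[⟨4, 0, 0, 1449551462⟩], [⟨0, 1, 0, 16777216⟩, ⟨1, 0, 0, 16777216⟩, ⟨2, 1, 0, 16777216⟩]]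

noncomputable def f_A00mm_202_s1 : ℕ → ℕ → ℕ → ℕ → Bool := onCell 0 536870912 0 536870912 50331648 16777216
    (rowFK 0 true false false .pp 2 0 2 (qsf 0 536870912 0 536870912 2) ndF0q2 ndF0q0 pcF2 cut_A00mm_202_s1 Ext.none)

def k0_A00mm_202_s1 : ∃ t, chk3 f_A00mm_202_s1 t 1 1 1 = true :=
  ⟨(l 6), by decide +kernel⟩

theorem c_A00mm_202_s1 : CertF 0 536870912 0 536870912 50331648 16777216 true false false .pp 2 0 2
    ndF0q2 ndF0q0 pcF2 cut_A00mm_202_s1 Ext.none :=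
  certFK0 (fam := true) (s1 := false) (s2 := false) (a := 2) (b := 0) (c := 2) (cn := .pp) (n1 := ndF0q2) (n2 := ndF0q0) (pc := pcF2) (cut := cut_A00mm_202_s1) (xt := Ext.none) (P1 := 0) (W1 := 536870912) (P2 := 0) (W2 := 536870912) (P3 := 50331648) (W3 := 16777216)
    rfl rfl rfl k0_A00mm_202_s1

theorem s_A00mm_202_s1 {κ x : ℝ} (hκ : κ * h0 = ken x) (hx : ((50331648 : ℕ) : ℝ) / S ≤ x)
    (hx' : x ≤ (((50331648 : ℕ) : ℝ) + (16777216 : ℕ)) / S)
    (H : CutA (VF κ) PP tKF tL pcF (Cut.of [[⟨0, 1, 0, 16777216⟩, ⟨1, 0, 0, 16777216⟩, ⟨2, 1, 0, 16777216⟩]]) 2 0 2 0 0 (sgb false) (sgb false) x) :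
    AltA (VF κ) PP tKF tL pcF [⟨3, 0, 0, 1449551462⟩] 2 0 2 0 0 (sgb false) (sgb false) x :=
  strip_altA (m := 1449551462) true rfl hκ covF02 covF00 hx hx' c_A00mm_202_s1 H (noExt_A)

noncomputable def cut_A00mm_202_s3 : Cut := Cut.of [[⟨3, 0, 0, 2845415833⟩], [⟨0, 1, 0, 16777216⟩, ⟨1, 0, 0, 16777216⟩, ⟨2, 1, 0, 16777216⟩]]

noncomputable def xt_A00mm_202_s3 : Ext := strExt dd true false false .u2 .u0m .s2m .pp 2 0 2 rfl rfl gl2 vv ndF0q2 ndF0q0

noncomputable def f_A00mm_202_s3 : ℕ → ℕ → ℕ → ℕ → Bool := onCell 0 536870912 0 536870912 50331648 16777216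
    (rowFK 0 true false false .pp 2 0 2 (qsf 0 536870912 0 536870912 2) ndF0q2 ndF0q0 pcF2 cut_A00mm_202_s3 xt_A00mm_202_s3)

def k0_A00mm_202_s3 : ∃ t, chk3 f_A00mm_202_s3 t 2 2 1 = true :=
  ⟨(b (b (l 6) (a (l 6) (a (l 6) (l 17966792)))) (a (b (l 6) (l 17716152)) (b (a (l 17758720) (l 17822776)) (a (l 17469872) (l 551429647))))), by decide +kernel⟩

def k1_A00mm_202_s3 : ∃ t, chk3 f_A00mm_202_s3 t 6 4 1 = true :=
  ⟨(b (b (b (a (l 18552352) (a (a (l 18336448) (l 18213416)) (a (b (l 18056488) (l 18059512)) (b (b (a (l 17887320) (l 17678176)) (l 17866096)) (l 17892448))))) (a (l 18402048) (a (l 18168392) (a (l 18003800) (l 17869760))))) (a (l 18165048) (a (l 17949496) (b (l 17822120) (l 17682416))))) (b (a (l 17877696) (a (l 17660248) (b (l 17540720) (l 17405264)))) (a (l 17632160) (a (l 17407880) (l 561621775))))), by decide +kernel⟩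

def k2_A00mm_202_s3 : ∃ t, chk3 f_A00mm_202_s3 t 14 16 1 = true :=
  ⟨(a (b (a (a (b (c (l 17851224) (b (l 17160640) (l 17505424))) (l 17743720)) (b (b (c (l 17591928) (b (l 17031992) (l 17270952))) (l 17297048)) (l 17211176))) (b (b (b (a (c (l 17304312) (a (l 17043720) (l 16929272))) (b (l 16846464) (l 16857152))) (c (a (l 17528304) (l 17167624)) (a (l 16994520) (l 16855912)))) (c (a (l 17592960) (l 17173192)) (a (l 16895864) (b (l 16954568) (l 17038040))))) (a (b (l 17306864) (l 17528592)) (b (l 16987608) (l 17314024))))) (a (b (l 17716464) (l 17700896)) (b (b (l 17251960) (l 17524344)) (l 17446384)))) (a (a (b (b (b (b (a (l 16799984) (l 16774016)) (l 16853352)) (b (l 16875024) (l 16963216))) (b (l 16900752) (l 17085216))) (b (b (l 17235272) (l 17359816)) (l 17386624))) (b (b (b (b (l 16772144) (l 16773440)) (l 16775288)) (b (l 16833472) (l 16924440))) (b (b (l 17097696) (l 17239064)) (l 17115288)))) (b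 (b (a (b (b (l 16770096) (l 16771320)) (l 16773064)) (b (a (l 16769480) (l 16768824)) (l 16771360))) (a (b (l 16775248) (l 16830144)) (b (l 16773416) (l 16775288)))) (b (a (b (l 16864304) (l 17026024)) (b (l 16787088) (l 16889528))) (a (b (l 17158400) (l 17185304)) (b (l 16955184) (l 17078032))))))), by decide +kernel⟩

def k3_A00mm_202_s3 : ∃ t, chk3 f_A00mm_202_s3 t 30 16 1 = true :=
  ⟨(a (b (a (b (b (b (l 16767536) (l 16768632)) (b (l 16769680) (l 16770680))) (b (b (l 16771640) (l 16772560)) (l 16773848))) (b (b (a (b (l 16767128) (l 16768168)) (b (l 16767016) (l 16768024))) (b (l 16769064) (l 16770000))) (b (b (l 16770896) (l 16771744)) (b (l 16772552) (l 16773320))))) (a (b (b (l 16775416) (l 16769304)) (b (l 16771064) (l 16802592))) (b (a (b (l 16774592) (l 16775888)) (b (l 16774208) (l 16775440))) (b (a (l 16828984) (l 16776496)) (a (l 16892376) (l 16843368)))))) (b (a (b (b (a (b (b (l 16766800) (l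 16767296)) (l 16768024)) (b (b (l 16766968) (l 16767456)) (l 16768160))) (a (b (l 16768960) (l 16769848)) (b (l 16769056) (l 16769912)))) (b (a (b (l 16770696) (l 16771496)) (b (l 16770728) (l 16771504))) (a (l 16772616) (b (l 16772232) (l 16772912))))) (b (b (b (b (a (l 16767280) (a (l 16767608) (l 16767872))) (a (l 16767752) (l 16768184))) (a (b (l 16768208) (l 16768648)) (b (l 16768624) (l 16769056)))) (a (b (b (l 16769088) (l 16769512)) (l 16770120)) (b (b (l 16769472) (l 16769880)) (b (l 16770280) (l 16770664))))) (a (b (b (l 16770904) (l 16771648)) (b (l 16772344) (l 16772992))) (b (b (b (l 16771040) (l 16771408)) (b (l 16771760) (l 16772104))) (b (b (l 16772432) (l 16772760)) (l 16773216)))))) (a (b (b (a (l 16773960) (b (l 16773552) (l 16774152))) (a (l 16775128) (l 16774960))) (a (b (l 16776120) (l 16798464)) (b (l 16775888) (l 16776632)))) (a (b (b (b (l 16773600) (l 16774168)) (b (l 16774688) (l 16775168)))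 (b (l 537697295) (l 537251855))) (b (b (b (l 16773792) (l 16774328)) (b (l 16774816) (l 16775264))) (b (b (l 16775664) (l 537393423)) (a (l 536678159) (l 536649487)))))))), by decide +kernel⟩

def k4_A00mm_202_s3 : ∃ t, chk3 f_A00mm_202_s3 t 124 32 1 = true :=
  ⟨(a (b (b (b (a (b (l 16768168) (l 16768608)) (b (l 16768496) (l 16768928))) (a (b (l 16769032) (l 16769448)) (b (l 16769352) (l 16769760)))) (b (b (c (l 16770200) (l 16769808)) (l 16770392)) (b (l 16770776) (l 16771144)))) (b (b (b (l 16771504) (l 16771856)) (b (l 16772192) (l 16772520))) (a (b (l 16772880) (l 16773480)) (b (l 16773112) (l 16773696))))) (b (a (b (b (b (b (l 16768760) (l 16768968)) (l 16769288)) (b (l 16769704) (l 16770104))) (b (b (l 16770496) (l 16770872)) (b (l 16771248) (l 16771600)))) (b (b (b (a (l 16769160) (l 16769376)) (b (l 16769584) (l 16769784))) (b (l 16770088) (l 16770480))) (b (b (l 16770864) (l 16771240)) (b (l 16771600)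 (l 16771952))))) (b (a (b (b (l 16771952) (l 16772288)) (b (l 16772616) (l 16772928))) (b (b (l 16772288) (l 16772624)) (b (l 16772944) (l 16773248)))) (a (b (l 16773384) (l 16773952)) (b (b (l 16773544) (l 16773832)) (b (l 16774104) (l 16774368))))))), by decide +kernel⟩

def k5_A00mm_202_s3 : ∃ t, chk3 f_A00mm_202_s3 t 250 32 1 = true :=
  ⟨(b (a (b (b (b (b (l 16769600) (l 16769808)) (b (l 16770016) (l 16770216))) (b (b (l 16770416) (l 16770608)) (b (l 16770800) (l 16770992)))) (b (b (c (l 16771416) (l 16771128)) (l 16771640)) (b (l 16771992) (l 16772336)))) (b (b (b (l 14) (b (l 14) (l 16770680))) (b (b (l 16770872) (l 16771064)) (b (l 16771256) (l 16771440)))) (b (b (b (l 16771624) (l 16771808)) (b (l 16771984) (l 16772160))) (b (b (l 16772336) (l 16772504)) (b (l 16772672) (l 16772840)))))) (a (b (b (b (l 16772672) (l 16772992)) (b (l 16773304) (l 16773600))) (b (b (l 16773888) (l 16774168)) (b (l 16774440)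 (l 16774696)))) (b (b (a (b (l 16772976) (l 16773288)) (b (l 16773192) (l 16773504))) (a (l 536327695) (b (l 16773808) (l 16774096)))) (b (a (l 536103695) (l 536089103)) (a (l 536148239) (l 536133647)))))), by decide +kernel⟩

def k6_A00mm_202_s3 : ∃ t, chk3 f_A00mm_202_s3 t 251 32 1 = true :=
  ⟨(b (a (b (b (l 14) (b (l 14) (b (a (l 16771616) (l 14)) (l 16771928)))) (b (b (b (l 16772112) (l 16772288)) (b (l 16772464) (l 16772632))) (b (b (l 16772800) (l 16772968)) (b (l 16773136) (l 16773296))))) (b (l 14) (b (a (b (b (l 16772496) (l 16772672)) (b (l 16772840) (l 16773008))) (b (b (l 14) (l 16772936)) (b (l 16773104) (l 16773272)))) (a (b (b (l 16773176) (l 16773344)) (l 16773584)) (b (b (l 16773440) (l 16773600)) (b (l 16773760) (l 16773912))))))) (a (a (b (b (b (l 16773416) (l 16773728)) (b (l 16774024) (l 16774312))) (b (l 536343311) (l 536119311))) (b (b (b (l 16773648) (l 16773952)) (b (l 16774248) (l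 16774528))) (b (b (l 16774800) (l 16775064)) (l 536373263)))) (b (b (a (b (l 16773896) (l 16774192)) (b (c (l 16774216) (l 16774072)) (c (l 16774512) (l 16774376)))) (a (b (l 16774480) (l 16774760)) (a (l 535992335) (l 535985167)))) (b (a (b (l 16775032) (l 16775288)) (b (l 536556815) (l 536579087))) (a (b (l 16775536) (l 536101391)) (a (l 536081167) (l 536073999))))))), by decide +kernel⟩

def k7_A00mm_202_s3 : ∃ t, chk3 f_A00mm_202_s3 t 252 32 1 = true :=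
  ⟨(b (b (l 14) (b (a (a (b (l 14) (b (l 14) (l 16773544))) (l 14)) (l 14)) (b (a (a (b (l 16773704) (l 16773864)) (b (l 16773984) (l 16774144))) (a (b (l 14) (l 16774432)) (l 14))) (b (a (a (l 16774024) (l 16774304)) (a (l 16774584) (a (l 16774808) (l 14)))) (a (a (l 16774176) (l 16774456)) (a (l 16774736) (a (l 16774952) (l 16775104)))))))) (a (a (a (b (b (a (l 535936271) (l 535932687)) (l 536246287)) (b (l 536022287) (l 536066575))) (b (b (b (l 16774472) (l 16774768)) (a (l 535973135) (l 535969551))) (b (l 536015119) (l 536059407)))) (a (b (b (b (l 16774608) (l 16774896)) (a (l 535965967) (l 535962383))) (b (l 536007695) (l 536052239))) (b (b (b (l 535901199) (l 535923215)) (b (l 535945231) (l 535967247))) (b (l 536268815) (l 536044815))))) (a (a (b (b (b (l 535894031) (l 535916047)) (a (l 535951631) (l 535948047))) (b (a (l 535995663) (l 535992079)) (l 536037647))) (b (b (b (l 536155151) (l 535908623)) (b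 (l 535930639) (l 535952911))) (b (b (l 535974927) (l 535997199)) (l 536298767)))) (a (b (b (b (l 536147983) (l 536169743)) (a (l 535937039) (l 535933455))) (b (b (l 535967759) (l 535989775)) (l 536425743))) (b (b (b (b (l 16775248) (l 16775392)) (l 536162575)) (b (l 536184591) (l 535938319))) (b (b (l 535960335) (l 535982607)) (b (l 536004623) (l 536026895)))))))), by decide +kernel⟩

def k8_A00mm_202_s3 : ∃ t, chk3 f_A00mm_202_s3 t 253 32 1 = true :=
  ⟨(b (l 14) (b (b (b (a (a (a (b (l 16775400) (l 16775544)) (b (l 16775552) (l 16775688))) (a (b (l 14) (l 536392463)) (l 14))) (l 14)) (a (a (a (b (l 16775680) (l 16775816)) (b (l 16775832) (l 16775968))) (a (b (l 536403471) (l 536414479)) (a (l 535867919) (l 535864335)))) (a (a (a (l 535860751) (l 535857167)) (a (l 535853327) (l 535849743))) (l 14)))) (a (a (a (b (l 536177167) (l 536199439)) (b (a (l 535904527) (l 535900943)) (l 536460559))) (a (b (a (l 535897103)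 (l 535893519)) (a (l 535919375) (l 535915535))) (b (b (l 536418063) (l 536429327)) (b (l 536440335) (l 536451343))))) (a (a (a (b (l 535882767) (l 535904783)) (b (l 535878927) (l 535901199))) (a (b (l 535875343) (l 535897359)) (b (l 535871759) (l 535893775)))) (a (a (b (l 535868175) (l 535890191)) (b (l 535864335) (l 535886607))) (a (b (l 536129295) (l 535882767)) (b (l 536125455) (l 4))))))) (b (a (a (a (b (l 536221455) (l 535975183)) (b (l 536214031) (l 536236303))) (a (b (l 536475151) (l 536497423)) (b (a (l 535933967) (l 535930383)) (a (l 535956239) (l 535952655))))) (a (a (b (a (l 535926799) (l 535923215)) (a (l 535948815) (l 4))) (b (a (l 535919631) (l 535915791)) (l 4))) (l 4))) (a (a (a (a (l 536011279) (l 536007695)) (b (l 536258319) (l 536012303))) (a (b (l 536251151) (l 4)) (l 4))) (l 4))))), by decide +kernel⟩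

def k9_A00mm_202_s3 : ∃ t, chk3 f_A00mm_202_s3 t 127 32 1 = true :=
  ⟨(b (l 14) (b (b (l 14) (b (b (l 14) (b (b (l 14) (b (l 14) (l 4))) (l 4))) (l 4))) (l 4))), by decide +kernel⟩

def k10_A00mm_202_s3 : ∃ t, chk3 f_A00mm_202_s3 t 31 33 1 = true :=
  ⟨(a (a (a (b (b (a (b (l 16774032) (l 16774544)) (b (l 16774232) (l 16774728))) (a (l 536707343) (b (l 16775176) (l 16775584)))) (b (a (l 536529679) (l 536769295)) (a (l 536620815) (l 536591887)))) (a (b (b (b (l 16774472) (l 16774952)) (b (l 16775384) (l 16775776))) (b (a (l 536482063) (l 536467727)) (b (l 536540175) (l 536585743)))) (b (b (b (b (l 16774624) (l 16774864)) (l 537090063)) (b (l 536866575) (l 536911631))) (b (a (l 536453391) (l 536438799)) (b (l 536779279) (l 536556559)))))) (a (a (a (b (b (b (l 16774976) (l 16775432)) (l 536333839)) (b (l 536424463) (l 536515343))) (b (b (b (l 536207375) (l 536252175)) (l 536319503)) (b (l 536409871) (l 536501007))))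 (b (b (b (a (l 536192783) (l 536178447)) (a (l 536237839) (l 536223247))) (a (l 536573455) (b (l 536268303) (l 536313359)))) (b (a (l 536663823) (l 536380943)) (a (l 536486415) (l 4))))) (a (b (b (b (a (l 536163855) (l 536417807)) (a (l 536208655) (l 536194063))) (a (b (l 536253711) (l 536298767)) (b (l 536239119) (l 536284175)))) (b (a (l 536366351) (l 536888591)) (l 4))) (b (b (b (a (l 536671759) (a (l 536125711) (l 536118543))) (a (l 536448015) (l 536701711))) (a (b (l 536224271) (l 536269327)) (b (l 536477967) (l 536523023)))) (l 4))))) (b (a (a (b (a (a (b (a (l 536111375) (l 536103951)) (a (l 536155919) (l 536148751))) (a (b (l 536096783) (l 536141327)) (b (l 536089359) (l 536134159)))) (a (a (b (l 536082191) (l 536126735)) (b (l 536074767) (l 4))) (b (a (l 536067599) (l 536328719)) (l 4)))) (a (a (b (l 537000207) (l 4)) (l 4)) (l 4))) (l 4)) (l 4)) (l 4))), by decide +kernel⟩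

def k11_A00mm_202_s3 : ∃ t, chk3 f_A00mm_202_s3 t 7 17 1 = true :=
  ⟨(a (a (b (a (l 17633488) (b (l 17506928) (l 17462072))) (a (l 17507872) (l 17374232))) (a (b (b (b (l 17339120) (l 17330024)) (l 17304344)) (b (l 17255512) (l 17197200))) (b (a (b (l 17197008) (l 17177944)) (b (b (l 17097464) (l 17102536)) (l 17091160))) (a (l 568215823) (l 568031759))))) (a (a (a (b (b (b (l 16915112) (l 16926416)) (l 563141135)) (b (l 566591759) (l 568259599))) (b (b (a (b (l 16928032) (l 16943824)) (b (l 16799680) (l 16902040))) (a (l 561893647) (l 560405519))) (b (l 565294351) (l 567690511)))) (b (a (b (a (b (l 16800872) (l 16779632)) (b (l 542667279) (l 549264399))) (a (l 558335247) (b (l 554339599) (l 558263567)))) (b (a (b (l 537472015) (l 543975695)) (a (l 537654543) (l 536786703))) (a (b (l 551331599) (l 555970575)) (a (l 550926351) (b (l 546669839) (l 552403215)))))) (a (b (a (l 563801615) (l 562560783)) (a (l 566904335)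 (l 566241551))) (b (a (l 560509967) (l 4)) (l 4))))) (b (a (a (a (b (a (l 537294607) (b (l 536683535) (l 536775439))) (a (b (l 544479247) (l 4)) (l 4))) (b (a (b (l 536654351) (l 536746255)) (b (l 536893455) (l 4))) (l 4))) (l 4)) (l 4)) (l 4)))), by decide +kernel⟩

def k12_A00mm_202_s3 : ∃ t, chk3 f_A00mm_202_s3 t 7 9 1 = true :=
  ⟨(a (a (a (b (l 565379343) (l 563324687)) (b (a (l 566278927) (l 566892047)) (l 564589327))) (b (a (b (l 568152079) (l 567442703)) (b (a (l 568772111) (l 569127439)) (l 568710927))) (a (b (l 566456847) (l 565387791)) (l 567337231)))) (b (a (a (b (a (b (l 569132303) (l 569489167)) (l 569433359)) (a (l 569428751) (l 4))) (l 4)) (l 4)) (l 4))), by decide +kernel⟩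

def k13_A00mm_202_s3 : ∃ t, chk3 f_A00mm_202_s3 t 3 5 1 = true :=
  ⟨(a (a (b (a (l 17732712) (l 555739407)) (l 553366031)) (b (a (l 557291023) (l 559085839)) (a (l 555143951) (l 556578319)))) (b (a (a (b (l 562084879) (l 560358671)) (l 4)) (l 4)) (l 4))), by decide +kernel⟩

def k14_A00mm_202_s3 : ∃ t, chk3 f_A00mm_202_s3 t 1 3 1 = true :=
  ⟨(a (a (b (b (l 17825128) (a (l 17361648) (l 92980704423))) (l 2)) (b (a (b (l 549261583) (l 548659727)) (l 551469071)) (b (a (l 2) (l 548961807)) (l 2)))) (b (a (a (b (l 552114959) (l 4)) (l 4)) (l 4)) (l 4))), by decide +kernel⟩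

theorem t15_A00mm_202_s3 : ∃ t, chk3 f_A00mm_202_s3 t 126 32 1 = true := ex3_a k7_A00mm_202_s3 k8_A00mm_202_s3

theorem t16_A00mm_202_s3 : ∃ t, chk3 f_A00mm_202_s3 t 63 32 1 = true := ex3_a t15_A00mm_202_s3 k9_A00mm_202_s3

theorem t17_A00mm_202_s3 : ∃ t, chk3 f_A00mm_202_s3 t 125 32 1 = true := ex3_a k5_A00mm_202_s3 k6_A00mm_202_s3

theorem t18_A00mm_202_s3 : ∃ t, chk3 f_A00mm_202_s3 t 62 32 1 = true := ex3_a k4_A00mm_202_s3 t17_A00mm_202_s3

theorem t19_A00mm_202_s3 : ∃ t, chk3 f_A00mm_202_s3 t 31 32 1 = true := ex3_a t18_A00mm_202_s3 t16_A00mm_202_s3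

theorem t20_A00mm_202_s3 : ∃ t, chk3 f_A00mm_202_s3 t 31 16 1 = true := ex3_b t19_A00mm_202_s3 k10_A00mm_202_s3

theorem t21_A00mm_202_s3 : ∃ t, chk3 f_A00mm_202_s3 t 15 16 1 = true := ex3_a k3_A00mm_202_s3 t20_A00mm_202_s3

theorem t22_A00mm_202_s3 : ∃ t, chk3 f_A00mm_202_s3 t 7 16 1 = true := ex3_a k2_A00mm_202_s3 t21_A00mm_202_s3

theorem t23_A00mm_202_s3 : ∃ t, chk3 f_A00mm_202_s3 t 7 8 1 = true := ex3_b t22_A00mm_202_s3 k11_A00mm_202_s3

theorem t24_A00mm_202_s3 : ∃ t, chk3 f_A00mm_202_s3 t 7 4 1 = true := ex3_b t23_A00mm_202_s3 k12_A00mm_202_s3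

theorem t25_A00mm_202_s3 : ∃ t, chk3 f_A00mm_202_s3 t 3 4 1 = true := ex3_a k1_A00mm_202_s3 t24_A00mm_202_s3

theorem t26_A00mm_202_s3 : ∃ t, chk3 f_A00mm_202_s3 t 3 2 1 = true := ex3_b t25_A00mm_202_s3 k13_A00mm_202_s3

theorem t27_A00mm_202_s3 : ∃ t, chk3 f_A00mm_202_s3 t 1 2 1 = true := ex3_a k0_A00mm_202_s3 t26_A00mm_202_s3

theorem t28_A00mm_202_s3 : ∃ t, chk3 f_A00mm_202_s3 t 1 1 1 = true := ex3_b t27_A00mm_202_s3 k14_A00mm_202_s3

theorem c_A00mm_202_s3 : CertF 0 536870912 0 536870912 50331648 16777216 true false false .pp 2 0 2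
    ndF0q2 ndF0q0 pcF2 cut_A00mm_202_s3 xt_A00mm_202_s3 :=
  certFK0 (fam := true) (s1 := false) (s2 := false) (a := 2) (b := 0) (c := 2) (cn := .pp) (n1 := ndF0q2) (n2 := ndF0q0) (pc := pcF2) (cut := cut_A00mm_202_s3) (xt := xt_A00mm_202_s3) (P1 := 0) (W1 := 536870912) (P2 := 0) (W2 := 536870912) (P3 := 50331648) (W3 := 16777216)
    rfl rfl rfl t28_A00mm_202_s3

theorem s_A00mm_202_s3 {κ x : ℝ} (hκ : κ * h0 = ken x) (hx : ((50331648 : ℕ) : ℝ) / S ≤ x)
    (hx' : x ≤ (((50331648 : ℕ) : ℝ) + (16777216 : ℕ)) / S)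
    (H : CutA (VF κ) PP tKF tL pcF (Cut.of [[⟨0, 1, 0, 16777216⟩, ⟨1, 0, 0, 16777216⟩, ⟨2, 1, 0, 16777216⟩]]) 2 0 2 0 0 (sgb false) (sgb false) x) :
    AltA (VF κ) PP tKF tL pcF [⟨4, 0, 0, 2845415833⟩] 2 0 2 0 0 (sgb false) (sgb false) x :=
  strip_altA (m := 2845415833) false rfl hκ covF02 covF00 hx hx' c_A00mm_202_s3 H ((okx hx hx').extA (T := tt) (sideF hx hx') hκ rfl rfl (.O 2 false) (.O 0 false) (Or.inl rfl))

noncomputable def cut_A00mm_203_s1 : Cut := Cut.of [[⟨4, 0, 0, 1449551462⟩]]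

noncomputable def f_A00mm_203_s1 : ℕ → ℕ → ℕ → ℕ → Bool := onCell 0 536870912 0 536870912 50331648 16777216
    (rowFK 0 true false false .up 2 0 3 (qsf 0 536870912 0 536870912 3) ndF0q2 ndF0q0 pcF3 cut_A00mm_203_s1 Ext.none)

def k0_A00mm_203_s1 : ∃ t, chk3 f_A00mm_203_s1 t 1 1 1 = true :=
  ⟨(l 6), by decide +kernel⟩

theorem c_A00mm_203_s1 : CertF 0 536870912 0 536870912 50331648 16777216 true false false .up 2 0 3
    ndF0q2 ndF0q0 pcF3 cut_A00mm_203_s1 Ext.none :=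
  certFK0 (fam := true) (s1 := false) (s2 := false) (a := 2) (b := 0) (c := 3) (cn := .up) (n1 := ndF0q2) (n2 := ndF0q0) (pc := pcF3) (cut := cut_A00mm_203_s1) (xt := Ext.none) (P1 := 0) (W1 := 536870912) (P2 := 0) (W2 := 536870912) (P3 := 50331648) (W3 := 16777216)
    rfl rfl rfl k0_A00mm_203_s1

theorem s_A00mm_203_s1 {κ x : ℝ} (hκ : κ * h0 = ken x) (hx : ((50331648 : ℕ) : ℝ) / S ≤ x)
    (hx' : x ≤ (((50331648 : ℕ) : ℝ) + (16777216 : ℕ)) / S) :
    AltA (VF κ) PP tKF tL pcF [⟨3, 0, 0, 1449551462⟩] 2 0 3 0 0 (sgb false) (sgb false) x :=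
  strip_altA (m := 1449551462) true rfl hκ covF02 covF00 hx hx' c_A00mm_203_s1 cutA_nil (noExt_A)

noncomputable def cut_A00mm_203_s3 : Cut := Cut.of [[⟨3, 0, 0, 2845415833⟩]]

noncomputable def xt_A00mm_203_s3 : Ext := strExt dd true false false .u2 .u0m .s2m .up 2 0 3 rfl rfl gl3 vv ndF0q2 ndF0q0

noncomputable def f_A00mm_203_s3 : ℕ → ℕ → ℕ → ℕ → Bool := onCell 0 536870912 1610612736 536870912 50331648 16777216
    (rowFK 1 true false false .up 2 0 3 (qsf 0 536870912 0 536870912 3) ndF0q2 ndF0q0 pcF3 cut_A00mm_203_s3 xt_A00mm_203_s3)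

def k0_A00mm_203_s3 : ∃ t, chk3 f_A00mm_203_s3 t 1 1 1 = true :=
  ⟨(b (a (b (a (a (b (l 17763256) (l 553710607)) (b (l 554355983) (l 554036751))) (a (b (l 555055375) (l 554688527)) (b (l 555999247) (l 4)))) (a (b (a (l 553008655) (l 553286927)) (l 2)) (l 4))) (l 4)) (l 2)), by decide +kernel⟩

theorem c_A00mm_203_s3 : CertF 0 536870912 0 536870912 50331648 16777216 true false false .up 2 0 3
    ndF0q2 ndF0q0 pcF3 cut_A00mm_203_s3 xt_A00mm_203_s3 :=
  certFK1 (fam := true) (s1 := false) (s2 := false) (a := 2) (b := 0) (c := 3) (cn := .up) (n1 := ndF0q2) (n2 := ndF0q0) (pc := pcF3) (cut := cut_A00mm_203_s3) (xt := xt_A00mm_203_s3) (P1 := 0) (W1 := 536870912) (P2 := 0) (W2 := 536870912) (P3 := 50331648) (W3 := 16777216)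
    rfl rfl rfl (fun _ => rfl) k0_A00mm_203_s3

theorem s_A00mm_203_s3 {κ x : ℝ} (hκ : κ * h0 = ken x) (hx : ((50331648 : ℕ) : ℝ) / S ≤ x)
    (hx' : x ≤ (((50331648 : ℕ) : ℝ) + (16777216 : ℕ)) / S) :
    AltA (VF κ) PP tKF tL pcF [⟨4, 0, 0, 2845415833⟩] 2 0 3 0 0 (sgb false) (sgb false) x :=
  strip_altA (m := 2845415833) false rfl hκ covF02 covF00 hx hx' c_A00mm_203_s3 cutA_nil ((okx hx hx').extA (T := tt) (sideF hx hx') hκ rfl rfl (.O 2 false) (.O 0 false) (Or.inr rfl))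

noncomputable def cut_A00mm_213_s1 : Cut := Cut.of [[⟨4, 0, 0, 1449551462⟩]]

noncomputable def f_A00mm_213_s1 : ℕ → ℕ → ℕ → ℕ → Bool := onCell 0 536870912 536870912 536870912 50331648 16777216
    (rowFK 0 true false false .pnn 2 1 3 (qsf 0 536870912 536870912 536870912 3) ndF0q2 ndF0q1 pcF3 cut_A00mm_213_s1 Ext.none)

def k0_A00mm_213_s1 : ∃ t, chk3 f_A00mm_213_s1 t 1 1 1 = true :=
  ⟨(l 6), by decide +kernel⟩

theorem c_A00mm_213_s1 : CertF 0 536870912 536870912 536870912 50331648 16777216 true false false .pnn 2 1 3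
    ndF0q2 ndF0q1 pcF3 cut_A00mm_213_s1 Ext.none :=
  certFK0 (fam := true) (s1 := false) (s2 := false) (a := 2) (b := 1) (c := 3) (cn := .pnn) (n1 := ndF0q2) (n2 := ndF0q1) (pc := pcF3) (cut := cut_A00mm_213_s1) (xt := Ext.none) (P1 := 0) (W1 := 536870912) (P2 := 536870912) (W2 := 536870912) (P3 := 50331648) (W3 := 16777216)
    rfl rfl rfl k0_A00mm_213_s1

theorem s_A00mm_213_s1 {κ x : ℝ} (hκ : κ * h0 = ken x) (hx : ((50331648 : ℕ) : ℝ) / S ≤ x)
    (hx' : x ≤ (((50331648 : ℕ) : ℝ) + (16777216 : ℕ)) / S) :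
    AltA (VF κ) PP tKF tL pcF [⟨3, 0, 0, 1449551462⟩] 2 1 3 0 0 (sgb false) (sgb false) x :=
  strip_altA (m := 1449551462) true rfl hκ covF02 covF01 hx hx' c_A00mm_213_s1 cutA_nil (noExt_A)

noncomputable def cut_A00mm_213_s3 : Cut := Cut.of [[⟨3, 0, 0, 2845415833⟩]]

noncomputable def xt_A00mm_213_s3 : Ext := strExt dd true false false .u2 .u0m .s2m .pnn 2 1 3 rfl rfl gl3 vv ndF0q2 ndF0q1

noncomputable def f_A00mm_213_s3 : ℕ → ℕ → ℕ → ℕ → Bool := onCell 0 536870912 536870912 536870912 50331648 16777216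
    (rowFK 0 true false false .pnn 2 1 3 (qsf 0 536870912 536870912 536870912 3) ndF0q2 ndF0q1 pcF3 cut_A00mm_213_s3 xt_A00mm_213_s3)

def k0_A00mm_213_s3 : ∃ t, chk3 f_A00mm_213_s3 t 1 1 1 = true :=
  ⟨(a (b (b (a (b (a (l 552559375) (l 552897807)) (a (l 551424527) (l 4))) (l 4)) (l 4)) (l 4)) (l 4)), by decide +kernel⟩

theorem c_A00mm_213_s3 : CertF 0 536870912 536870912 536870912 50331648 16777216 true false false .pnn 2 1 3
    ndF0q2 ndF0q1 pcF3 cut_A00mm_213_s3 xt_A00mm_213_s3 :=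
  certFK0 (fam := true) (s1 := false) (s2 := false) (a := 2) (b := 1) (c := 3) (cn := .pnn) (n1 := ndF0q2) (n2 := ndF0q1) (pc := pcF3) (cut := cut_A00mm_213_s3) (xt := xt_A00mm_213_s3) (P1 := 0) (W1 := 536870912) (P2 := 536870912) (W2 := 536870912) (P3 := 50331648) (W3 := 16777216)
    rfl rfl rfl k0_A00mm_213_s3

theorem s_A00mm_213_s3 {κ x : ℝ} (hκ : κ * h0 = ken x) (hx : ((50331648 : ℕ) : ℝ) / S ≤ x)
    (hx' : x ≤ (((50331648 : ℕ) : ℝ) + (16777216 : ℕ)) / S) :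
    AltA (VF κ) PP tKF tL pcF [⟨4, 0, 0, 2845415833⟩] 2 1 3 0 0 (sgb false) (sgb false) x :=
  strip_altA (m := 2845415833) false rfl hκ covF02 covF01 hx hx' c_A00mm_213_s3 cutA_nil ((okx hx hx').extA (T := tt) (sideF hx hx') hκ rfl rfl (.O 2 false) (.O 1 false) (Or.inr rfl))

noncomputable def cut_A04pp_001_s1 : Cut := Cut.of [[⟨4, 0, 0, 1449551462⟩]]

noncomputable def f_A04pp_001_s1 : ℕ → ℕ → ℕ → ℕ → Bool := onCell 0 536870912 0 536870912 50331648 16777216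
    (rowFK 0 true true true .up 0 0 1 (qsf 0 536870912 0 536870912 1) ndF0q0 ndF4q0 pcF1 cut_A04pp_001_s1 Ext.none)

def k0_A04pp_001_s1 : ∃ t, chk3 f_A04pp_001_s1 t 1 1 1 = true :=
  ⟨(l 4), by decide +kernel⟩

theorem c_A04pp_001_s1 : CertF 0 536870912 0 536870912 50331648 16777216 true true true .up 0 0 1
    ndF0q0 ndF4q0 pcF1 cut_A04pp_001_s1 Ext.none :=
  certFK0 (fam := true) (s1 := true) (s2 := true) (a := 0) (b := 0) (c := 1) (cn := .up) (n1 := ndF0q0) (n2 := ndF4q0) (pc := pcF1) (cut := cut_A04pp_001_s1) (xt := Ext.none) (P1 := 0) (W1 := 536870912) (P2 := 0) (W2 := 536870912) (P3 := 50331648) (W3 := 16777216)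
    rfl rfl rfl k0_A04pp_001_s1

theorem s_A04pp_001_s1 {κ x : ℝ} (hκ : κ * h0 = ken x) (hx : ((50331648 : ℕ) : ℝ) / S ≤ x)
    (hx' : x ≤ (((50331648 : ℕ) : ℝ) + (16777216 : ℕ)) / S) :
    AltA (VF κ) PP tKF tL pcF [⟨3, 0, 0, 1449551462⟩] 0 0 1 0 4 (sgb true) (sgb true) x :=
  strip_altA (m := 1449551462) true rfl hκ covF00 covF40 hx hx' c_A04pp_001_s1 cutA_nil (noExt_A)

noncomputable def cut_A04pp_011_s1 : Cut := Cut.of [[⟨4, 0, 0, 1449551462⟩]]

noncomputable def f_A04pp_011_s1 : ℕ → ℕ → ℕ → ℕ → Bool := onCell 0 536870912 536870912 536870912 50331648 16777216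
    (rowFK 0 true true true .pnn 0 1 1 (qsf 0 536870912 536870912 536870912 1) ndF0q0 ndF4q1 pcF1 cut_A04pp_011_s1 Ext.none)

def k0_A04pp_011_s1 : ∃ t, chk3 f_A04pp_011_s1 t 1 1 1 = true :=
  ⟨(l 4), by decide +kernel⟩

theorem c_A04pp_011_s1 : CertF 0 536870912 536870912 536870912 50331648 16777216 true true true .pnn 0 1 1
    ndF0q0 ndF4q1 pcF1 cut_A04pp_011_s1 Ext.none :=
  certFK0 (fam := true) (s1 := true) (s2 := true) (a := 0) (b := 1) (c := 1) (cn := .pnn) (n1 := ndF0q0) (n2 := ndF4q1) (pc := pcF1) (cut := cut_A04pp_011_s1) (xt := Ext.none) (P1 := 0) (W1 := 536870912) (P2 := 536870912) (W2 := 536870912) (P3 := 50331648) (W3 := 16777216)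
    rfl rfl rfl k0_A04pp_011_s1

theorem s_A04pp_011_s1 {κ x : ℝ} (hκ : κ * h0 = ken x) (hx : ((50331648 : ℕ) : ℝ) / S ≤ x)
    (hx' : x ≤ (((50331648 : ℕ) : ℝ) + (16777216 : ℕ)) / S) :
    AltA (VF κ) PP tKF tL pcF [⟨3, 0, 0, 1449551462⟩] 0 1 1 0 4 (sgb true) (sgb true) x :=
  strip_altA (m := 1449551462) true rfl hκ covF00 covF41 hx hx' c_A04pp_011_s1 cutA_nil (noExt_A)

noncomputable def cut_A04pp_012_s1 : Cut := Cut.of [[⟨4, 0, 0, 1449551462⟩]]

noncomputable def f_A04pp_012_s1 : ℕ → ℕ → ℕ → ℕ → Bool := onCell 0 536870912 536870912 536870912 50331648 16777216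
    (rowFK 0 true true true .pnp 0 1 2 (qsf 0 536870912 536870912 536870912 2) ndF0q0 ndF4q1 pcF2 cut_A04pp_012_s1 Ext.none)

def k0_A04pp_012_s1 : ∃ t, chk3 f_A04pp_012_s1 t 1 1 1 = true :=
  ⟨(l 4), by decide +kernel⟩

theorem c_A04pp_012_s1 : CertF 0 536870912 536870912 536870912 50331648 16777216 true true true .pnp 0 1 2
    ndF0q0 ndF4q1 pcF2 cut_A04pp_012_s1 Ext.none :=
  certFK0 (fam := true) (s1 := true) (s2 := true) (a := 0) (b := 1) (c := 2) (cn := .pnp) (n1 := ndF0q0) (n2 := ndF4q1) (pc := pcF2) (cut := cut_A04pp_012_s1) (xt := Ext.none) (P1 := 0) (W1 := 536870912) (P2 := 536870912) (W2 := 536870912) (P3 := 50331648) (W3 := 16777216)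
    rfl rfl rfl k0_A04pp_012_s1

theorem s_A04pp_012_s1 {κ x : ℝ} (hκ : κ * h0 = ken x) (hx : ((50331648 : ℕ) : ℝ) / S ≤ x)
    (hx' : x ≤ (((50331648 : ℕ) : ℝ) + (16777216 : ℕ)) / S) :
    AltA (VF κ) PP tKF tL pcF [⟨3, 0, 0, 1449551462⟩] 0 1 2 0 4 (sgb true) (sgb true) x :=
  strip_altA (m := 1449551462) true rfl hκ covF00 covF41 hx hx' c_A04pp_012_s1 cutA_nil (noExt_A)

noncomputable def cut_A04pp_022_s1 : Cut := Cut.of [[⟨4, 0, 0, 1449551462⟩]]

noncomputable def f_A04pp_022_s1 : ℕ → ℕ → ℕ → ℕ → Bool := onCell 0 536870912 1073741824 536870912 50331648 16777216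
    (rowFK 0 true true true .pp 0 2 2 (qsf 0 536870912 1073741824 536870912 2) ndF0q0 ndF4q2 pcF2 cut_A04pp_022_s1 Ext.none)

def k0_A04pp_022_s1 : ∃ t, chk3 f_A04pp_022_s1 t 1 1 1 = true :=
  ⟨(l 4), by decide +kernel⟩

theorem c_A04pp_022_s1 : CertF 0 536870912 1073741824 536870912 50331648 16777216 true true true .pp 0 2 2
    ndF0q0 ndF4q2 pcF2 cut_A04pp_022_s1 Ext.none :=
  certFK0 (fam := true) (s1 := true) (s2 := true) (a := 0) (b := 2) (c := 2) (cn := .pp) (n1 := ndF0q0) (n2 := ndF4q2) (pc := pcF2) (cut := cut_A04pp_022_s1) (xt := Ext.none) (P1 := 0) (W1 := 536870912) (P2 := 1073741824) (W2 := 536870912) (P3 := 50331648) (W3 := 16777216)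
    rfl rfl rfl k0_A04pp_022_s1

theorem s_A04pp_022_s1 {κ x : ℝ} (hκ : κ * h0 = ken x) (hx : ((50331648 : ℕ) : ℝ) / S ≤ x)
    (hx' : x ≤ (((50331648 : ℕ) : ℝ) + (16777216 : ℕ)) / S) :
    AltA (VF κ) PP tKF tL pcF [⟨3, 0, 0, 1449551462⟩] 0 2 2 0 4 (sgb true) (sgb true) x :=
  strip_altA (m := 1449551462) true rfl hκ covF00 covF42 hx hx' c_A04pp_022_s1 cutA_nil (noExt_A)

noncomputable def cut_A04pp_023_s1 : Cut := Cut.of [[⟨4, 0, 0, 1449551462⟩]]

noncomputable def f_A04pp_023_s1 : ℕ → ℕ → ℕ → ℕ → Bool := onCell 0 536870912 1073741824 536870912 50331648 16777216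
    (rowFK 0 true true true .up 0 2 3 (qsf 0 536870912 1073741824 536870912 3) ndF0q0 ndF4q2 pcF3 cut_A04pp_023_s1 Ext.none)

def k0_A04pp_023_s1 : ∃ t, chk3 f_A04pp_023_s1 t 1 1 1 = true :=
  ⟨(l 4), by decide +kernel⟩

theorem c_A04pp_023_s1 : CertF 0 536870912 1073741824 536870912 50331648 16777216 true true true .up 0 2 3
    ndF0q0 ndF4q2 pcF3 cut_A04pp_023_s1 Ext.none :=
  certFK0 (fam := true) (s1 := true) (s2 := true) (a := 0) (b := 2) (c := 3) (cn := .up) (n1 := ndF0q0) (n2 := ndF4q2) (pc := pcF3) (cut := cut_A04pp_023_s1) (xt := Ext.none) (P1 := 0) (W1 := 536870912) (P2 := 1073741824) (W2 := 536870912) (P3 := 50331648) (W3 := 16777216)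
    rfl rfl rfl k0_A04pp_023_s1

theorem s_A04pp_023_s1 {κ x : ℝ} (hκ : κ * h0 = ken x) (hx : ((50331648 : ℕ) : ℝ) / S ≤ x)
    (hx' : x ≤ (((50331648 : ℕ) : ℝ) + (16777216 : ℕ)) / S) :
    AltA (VF κ) PP tKF tL pcF [⟨3, 0, 0, 1449551462⟩] 0 2 3 0 4 (sgb true) (sgb true) x :=
  strip_altA (m := 1449551462) true rfl hκ covF00 covF42 hx hx' c_A04pp_023_s1 cutA_nil (noExt_A)

noncomputable def cut_A04pp_033_s1 : Cut := Cut.of [[⟨4, 0, 0, 1449551462⟩]]

noncomputable def f_A04pp_033_s1 : ℕ → ℕ → ℕ → ℕ → Bool := onCell 0 536870912 0 1230186008 50331648 16777216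
    (rowFK 0 true true true .pnn 0 3 3 (qsf 0 536870912 0 1230186008 3) ndF0q0 ndF4q3 pcF3 cut_A04pp_033_s1 Ext.none)

def k0_A04pp_033_s1 : ∃ t, chk3 f_A04pp_033_s1 t 1 1 1 = true :=
  ⟨(l 4), by decide +kernel⟩

theorem c_A04pp_033_s1 : CertF 0 536870912 0 1230186008 50331648 16777216 true true true .pnn 0 3 3
    ndF0q0 ndF4q3 pcF3 cut_A04pp_033_s1 Ext.none :=
  certFK0 (fam := true) (s1 := true) (s2 := true) (a := 0) (b := 3) (c := 3) (cn := .pnn) (n1 := ndF0q0) (n2 := ndF4q3) (pc := pcF3) (cut := cut_A04pp_033_s1) (xt := Ext.none) (P1 := 0) (W1 := 536870912) (P2 := 0) (W2 := 1230186008) (P3 := 50331648) (W3 := 16777216)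
    rfl rfl rfl k0_A04pp_033_s1

theorem s_A04pp_033_s1 {κ x : ℝ} (hκ : κ * h0 = ken x) (hx : ((50331648 : ℕ) : ℝ) / S ≤ x)
    (hx' : x ≤ (((50331648 : ℕ) : ℝ) + (16777216 : ℕ)) / S) :
    AltA (VF κ) PP tKF tL pcF [⟨3, 0, 0, 1449551462⟩] 0 3 3 0 4 (sgb true) (sgb true) x :=
  strip_altA (m := 1449551462) true rfl hκ covF00 covF43 hx hx' c_A04pp_033_s1 cutA_nil (noExt_A)

noncomputable def cut_A04pp_101_s1 : Cut := Cut.of [[⟨4, 0, 0, 1449551462⟩]]

noncomputable def f_A04pp_101_s1 : ℕ → ℕ → ℕ → ℕ → Bool := onCell 536870912 536870912 0 536870912 50331648 16777216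
    (rowFK 0 true true true .npn 1 0 1 (qsf 536870912 536870912 0 536870912 1) ndF0q1 ndF4q0 pcF1 cut_A04pp_101_s1 Ext.none)

def k0_A04pp_101_s1 : ∃ t, chk3 f_A04pp_101_s1 t 1 1 1 = true :=
  ⟨(l 4), by decide +kernel⟩

theorem c_A04pp_101_s1 : CertF 536870912 536870912 0 536870912 50331648 16777216 true true true .npn 1 0 1
    ndF0q1 ndF4q0 pcF1 cut_A04pp_101_s1 Ext.none :=
  certFK0 (fam := true) (s1 := true) (s2 := true) (a := 1) (b := 0) (c := 1) (cn := .npn) (n1 := ndF0q1) (n2 := ndF4q0) (pc := pcF1) (cut := cut_A04pp_101_s1) (xt := Ext.none) (P1 := 536870912) (W1 := 536870912) (P2 := 0) (W2 := 536870912) (P3 := 50331648) (W3 := 16777216)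
    rfl rfl rfl k0_A04pp_101_s1

theorem s_A04pp_101_s1 {κ x : ℝ} (hκ : κ * h0 = ken x) (hx : ((50331648 : ℕ) : ℝ) / S ≤ x)
    (hx' : x ≤ (((50331648 : ℕ) : ℝ) + (16777216 : ℕ)) / S) :
    AltA (VF κ) PP tKF tL pcF [⟨3, 0, 0, 1449551462⟩] 1 0 1 0 4 (sgb true) (sgb true) x :=
  strip_altA (m := 1449551462) true rfl hκ covF01 covF40 hx hx' c_A04pp_101_s1 cutA_nil (noExt_A)

noncomputable def cut_A04pp_102_s1 : Cut := Cut.of [[⟨4, 0, 0, 1449551462⟩]]

noncomputable def f_A04pp_102_s1 : ℕ → ℕ → ℕ → ℕ → Bool := onCell 536870912 536870912 0 536870912 50331648 16777216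
    (rowFK 0 true true true .npp 1 0 2 (qsf 536870912 536870912 0 536870912 2) ndF0q1 ndF4q0 pcF2 cut_A04pp_102_s1 Ext.none)

def k0_A04pp_102_s1 : ∃ t, chk3 f_A04pp_102_s1 t 1 1 1 = true :=
  ⟨(l 4), by decide +kernel⟩

theorem c_A04pp_102_s1 : CertF 536870912 536870912 0 536870912 50331648 16777216 true true true .npp 1 0 2
    ndF0q1 ndF4q0 pcF2 cut_A04pp_102_s1 Ext.none :=
  certFK0 (fam := true) (s1 := true) (s2 := true) (a := 1) (b := 0) (c := 2) (cn := .npp) (n1 := ndF0q1) (n2 := ndF4q0) (pc := pcF2) (cut := cut_A04pp_102_s1) (xt := Ext.none) (P1 := 536870912) (W1 := 536870912) (P2 := 0) (W2 := 536870912) (P3 := 50331648) (W3 := 16777216)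
    rfl rfl rfl k0_A04pp_102_s1

theorem s_A04pp_102_s1 {κ x : ℝ} (hκ : κ * h0 = ken x) (hx : ((50331648 : ℕ) : ℝ) / S ≤ x)
    (hx' : x ≤ (((50331648 : ℕ) : ℝ) + (16777216 : ℕ)) / S) :
    AltA (VF κ) PP tKF tL pcF [⟨3, 0, 0, 1449551462⟩] 1 0 2 0 4 (sgb true) (sgb true) x :=
  strip_altA (m := 1449551462) true rfl hκ covF01 covF40 hx hx' c_A04pp_102_s1 cutA_nil (noExt_A)

noncomputable def cut_A04pp_112_s1 : Cut := Cut.of [[⟨4, 0, 0, 1449551462⟩]]

noncomputable def f_A04pp_112_s1 : ℕ → ℕ → ℕ → ℕ → Bool := onCell 536870912 536870912 536870912 536870912 50331648 16777216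
    (rowFK 0 true true true .dn 1 1 2 (qsf 536870912 536870912 536870912 536870912 2) ndF0q1 ndF4q1 pcF2 cut_A04pp_112_s1 Ext.none)

def k0_A04pp_112_s1 : ∃ t, chk3 f_A04pp_112_s1 t 1 1 1 = true :=
  ⟨(l 4), by decide +kernel⟩

theorem c_A04pp_112_s1 : CertF 536870912 536870912 536870912 536870912 50331648 16777216 true true true .dn 1 1 2
    ndF0q1 ndF4q1 pcF2 cut_A04pp_112_s1 Ext.none :=
  certFK0 (fam := true) (s1 := true) (s2 := true) (a := 1) (b := 1) (c := 2) (cn := .dn) (n1 := ndF0q1) (n2 := ndF4q1) (pc := pcF2) (cut := cut_A04pp_112_s1) (xt := Ext.none) (P1 := 536870912) (W1 := 536870912) (P2 := 536870912) (W2 := 536870912) (P3 := 50331648) (W3 := 16777216)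
    rfl rfl rfl k0_A04pp_112_s1

theorem s_A04pp_112_s1 {κ x : ℝ} (hκ : κ * h0 = ken x) (hx : ((50331648 : ℕ) : ℝ) / S ≤ x)
    (hx' : x ≤ (((50331648 : ℕ) : ℝ) + (16777216 : ℕ)) / S) :
    AltA (VF κ) PP tKF tL pcF [⟨3, 0, 0, 1449551462⟩] 1 1 2 0 4 (sgb true) (sgb true) x :=
  strip_altA (m := 1449551462) true rfl hκ covF01 covF41 hx hx' c_A04pp_112_s1 cutA_nil (noExt_A)

noncomputable def cut_A04pp_113_s1 : Cut := Cut.of [[⟨4, 0, 0, 1449551462⟩]]

noncomputable def f_A04pp_113_s1 : ℕ → ℕ → ℕ → ℕ → Bool := onCell 536870912 536870912 536870912 536870912 50331648 16777216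
    (rowFK 0 true true true .nn 1 1 3 (qsf 536870912 536870912 536870912 536870912 3) ndF0q1 ndF4q1 pcF3 cut_A04pp_113_s1 Ext.none)

def k0_A04pp_113_s1 : ∃ t, chk3 f_A04pp_113_s1 t 1 1 1 = true :=
  ⟨(l 4), by decide +kernel⟩

theorem c_A04pp_113_s1 : CertF 536870912 536870912 536870912 536870912 50331648 16777216 true true true .nn 1 1 3
    ndF0q1 ndF4q1 pcF3 cut_A04pp_113_s1 Ext.none :=
  certFK0 (fam := true) (s1 := true) (s2 := true) (a := 1) (b := 1) (c := 3) (cn := .nn) (n1 := ndF0q1) (n2 := ndF4q1) (pc := pcF3) (cut := cut_A04pp_113_s1) (xt := Ext.none) (P1 := 536870912) (W1 := 536870912) (P2 := 536870912) (W2 := 536870912) (P3 := 50331648) (W3 := 16777216)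
    rfl rfl rfl k0_A04pp_113_s1

theorem s_A04pp_113_s1 {κ x : ℝ} (hκ : κ * h0 = ken x) (hx : ((50331648 : ℕ) : ℝ) / S ≤ x)
    (hx' : x ≤ (((50331648 : ℕ) : ℝ) + (16777216 : ℕ)) / S) :
    AltA (VF κ) PP tKF tL pcF [⟨3, 0, 0, 1449551462⟩] 1 1 3 0 4 (sgb true) (sgb true) x :=
  strip_altA (m := 1449551462) true rfl hκ covF01 covF41 hx hx' c_A04pp_113_s1 cutA_nil (noExt_A)

noncomputable def cut_A04pp_123_s1 : Cut := Cut.of [[⟨4, 0, 0, 1449551462⟩]]

noncomputable def f_A04pp_123_s1 : ℕ → ℕ → ℕ → ℕ → Bool := onCell 536870912 536870912 1073741824 536870912 50331648 16777216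
    (rowFK 0 true true true .npn 1 2 3 (qsf 536870912 536870912 1073741824 536870912 3) ndF0q1 ndF4q2 pcF3 cut_A04pp_123_s1 Ext.none)

def k0_A04pp_123_s1 : ∃ t, chk3 f_A04pp_123_s1 t 1 1 1 = true :=
  ⟨(l 4), by decide +kernel⟩

theorem c_A04pp_123_s1 : CertF 536870912 536870912 1073741824 536870912 50331648 16777216 true true true .npn 1 2 3
    ndF0q1 ndF4q2 pcF3 cut_A04pp_123_s1 Ext.none :=
  certFK0 (fam := true) (s1 := true) (s2 := true) (a := 1) (b := 2) (c := 3) (cn := .npn) (n1 := ndF0q1) (n2 := ndF4q2) (pc := pcF3) (cut := cut_A04pp_123_s1) (xt := Ext.none) (P1 := 536870912) (W1 := 536870912) (P2 := 1073741824) (W2 := 536870912) (P3 := 50331648) (W3 := 16777216)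
    rfl rfl rfl k0_A04pp_123_s1

theorem s_A04pp_123_s1 {κ x : ℝ} (hκ : κ * h0 = ken x) (hx : ((50331648 : ℕ) : ℝ) / S ≤ x)
    (hx' : x ≤ (((50331648 : ℕ) : ℝ) + (16777216 : ℕ)) / S) :
    AltA (VF κ) PP tKF tL pcF [⟨3, 0, 0, 1449551462⟩] 1 2 3 0 4 (sgb true) (sgb true) x :=
  strip_altA (m := 1449551462) true rfl hκ covF01 covF42 hx hx' c_A04pp_123_s1 cutA_nil (noExt_A)

noncomputable def cut_A04pp_133_s1 : Cut := Cut.of [[⟨4, 0, 0, 1449551462⟩]]

noncomputable def f_A04pp_133_s1 : ℕ → ℕ → ℕ → ℕ → Bool := onCell 536870912 536870912 0 1230186008 50331648 16777216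
    (rowFK 0 true true true .dn 1 3 3 (qsf 536870912 536870912 0 1230186008 3) ndF0q1 ndF4q3 pcF3 cut_A04pp_133_s1 Ext.none)

def k0_A04pp_133_s1 : ∃ t, chk3 f_A04pp_133_s1 t 1 1 1 = true :=
  ⟨(l 4), by decide +kernel⟩

theorem c_A04pp_133_s1 : CertF 536870912 536870912 0 1230186008 50331648 16777216 true true true .dn 1 3 3
    ndF0q1 ndF4q3 pcF3 cut_A04pp_133_s1 Ext.none :=
  certFK0 (fam := true) (s1 := true) (s2 := true) (a := 1) (b := 3) (c := 3) (cn := .dn) (n1 := ndF0q1) (n2 := ndF4q3) (pc := pcF3) (cut := cut_A04pp_133_s1) (xt := Ext.none) (P1 := 536870912) (W1 := 536870912) (P2 := 0) (W2 := 1230186008) (P3 := 50331648) (W3 := 16777216)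
    rfl rfl rfl k0_A04pp_133_s1

theorem s_A04pp_133_s1 {κ x : ℝ} (hκ : κ * h0 = ken x) (hx : ((50331648 : ℕ) : ℝ) / S ≤ x)
    (hx' : x ≤ (((50331648 : ℕ) : ℝ) + (16777216 : ℕ)) / S) :
    AltA (VF κ) PP tKF tL pcF [⟨3, 0, 0, 1449551462⟩] 1 3 3 0 4 (sgb true) (sgb true) x :=
  strip_altA (m := 1449551462) true rfl hκ covF01 covF43 hx hx' c_A04pp_133_s1 cutA_nil (noExt_A)

noncomputable def cut_A04pp_202_s1 : Cut := Cut.of [[⟨4, 0, 0, 1449551462⟩]]

noncomputable def f_A04pp_202_s1 : ℕ → ℕ → ℕ → ℕ → Bool := onCell 0 536870912 0 536870912 50331648 16777216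
    (rowFK 0 true true true .pp 2 0 2 (qsf 0 536870912 0 536870912 2) ndF0q2 ndF4q0 pcF2 cut_A04pp_202_s1 Ext.none)

def k0_A04pp_202_s1 : ∃ t, chk3 f_A04pp_202_s1 t 1 1 1 = true :=
  ⟨(l 4), by decide +kernel⟩

theorem c_A04pp_202_s1 : CertF 0 536870912 0 536870912 50331648 16777216 true true true .pp 2 0 2
    ndF0q2 ndF4q0 pcF2 cut_A04pp_202_s1 Ext.none :=
  certFK0 (fam := true) (s1 := true) (s2 := true) (a := 2) (b := 0) (c := 2) (cn := .pp) (n1 := ndF0q2) (n2 := ndF4q0) (pc := pcF2) (cut := cut_A04pp_202_s1) (xt := Ext.none) (P1 := 0) (W1 := 536870912) (P2 := 0) (W2 := 536870912) (P3 := 50331648) (W3 := 16777216)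
    rfl rfl rfl k0_A04pp_202_s1

theorem s_A04pp_202_s1 {κ x : ℝ} (hκ : κ * h0 = ken x) (hx : ((50331648 : ℕ) : ℝ) / S ≤ x)
    (hx' : x ≤ (((50331648 : ℕ) : ℝ) + (16777216 : ℕ)) / S) :
    AltA (VF κ) PP tKF tL pcF [⟨3, 0, 0, 1449551462⟩] 2 0 2 0 4 (sgb true) (sgb true) x :=
  strip_altA (m := 1449551462) true rfl hκ covF02 covF40 hx hx' c_A04pp_202_s1 cutA_nil (noExt_A)

noncomputable def cut_A04pp_203_s1 : Cut := Cut.of [[⟨4, 0, 0, 1449551462⟩]]

noncomputable def f_A04pp_203_s1 : ℕ → ℕ → ℕ → ℕ → Bool := onCell 0 536870912 0 536870912 50331648 16777216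
    (rowFK 0 true true true .up 2 0 3 (qsf 0 536870912 0 536870912 3) ndF0q2 ndF4q0 pcF3 cut_A04pp_203_s1 Ext.none)

def k0_A04pp_203_s1 : ∃ t, chk3 f_A04pp_203_s1 t 1 1 1 = true :=
  ⟨(l 4), by decide +kernel⟩

theorem c_A04pp_203_s1 : CertF 0 536870912 0 536870912 50331648 16777216 true true true .up 2 0 3
    ndF0q2 ndF4q0 pcF3 cut_A04pp_203_s1 Ext.none :=
  certFK0 (fam := true) (s1 := true) (s2 := true) (a := 2) (b := 0) (c := 3) (cn := .up) (n1 := ndF0q2) (n2 := ndF4q0) (pc := pcF3) (cut := cut_A04pp_203_s1) (xt := Ext.none) (P1 := 0) (W1 := 536870912) (P2 := 0) (W2 := 536870912) (P3 := 50331648) (W3 := 16777216)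
    rfl rfl rfl k0_A04pp_203_s1

theorem s_A04pp_203_s1 {κ x : ℝ} (hκ : κ * h0 = ken x) (hx : ((50331648 : ℕ) : ℝ) / S ≤ x)
    (hx' : x ≤ (((50331648 : ℕ) : ℝ) + (16777216 : ℕ)) / S) :
    AltA (VF κ) PP tKF tL pcF [⟨3, 0, 0, 1449551462⟩] 2 0 3 0 4 (sgb true) (sgb true) x :=
  strip_altA (m := 1449551462) true rfl hκ covF02 covF40 hx hx' c_A04pp_203_s1 cutA_nil (noExt_A)

noncomputable def cut_A04pp_213_s1 : Cut := Cut.of [[⟨4, 0, 0, 1449551462⟩]]

noncomputable def f_A04pp_213_s1 : ℕ → ℕ → ℕ → ℕ → Bool := onCell 0 536870912 536870912 536870912 50331648 16777216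
    (rowFK 0 true true true .pnn 2 1 3 (qsf 0 536870912 536870912 536870912 3) ndF0q2 ndF4q1 pcF3 cut_A04pp_213_s1 Ext.none)

def k0_A04pp_213_s1 : ∃ t, chk3 f_A04pp_213_s1 t 1 1 1 = true :=
  ⟨(l 4), by decide +kernel⟩

theorem c_A04pp_213_s1 : CertF 0 536870912 536870912 536870912 50331648 16777216 true true true .pnn 2 1 3
    ndF0q2 ndF4q1 pcF3 cut_A04pp_213_s1 Ext.none :=
  certFK0 (fam := true) (s1 := true) (s2 := true) (a := 2) (b := 1) (c := 3) (cn := .pnn) (n1 := ndF0q2) (n2 := ndF4q1) (pc := pcF3) (cut := cut_A04pp_213_s1) (xt := Ext.none) (P1 := 0) (W1 := 536870912) (P2 := 536870912) (W2 := 536870912) (P3 := 50331648) (W3 := 16777216)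
    rfl rfl rfl k0_A04pp_213_s1

theorem s_A04pp_213_s1 {κ x : ℝ} (hκ : κ * h0 = ken x) (hx : ((50331648 : ℕ) : ℝ) / S ≤ x)
    (hx' : x ≤ (((50331648 : ℕ) : ℝ) + (16777216 : ℕ)) / S) :
    AltA (VF κ) PP tKF tL pcF [⟨3, 0, 0, 1449551462⟩] 2 1 3 0 4 (sgb true) (sgb true) x :=
  strip_altA (m := 1449551462) true rfl hκ covF02 covF41 hx hx' c_A04pp_213_s1 cutA_nil (noExt_A)

noncomputable def cut_A04pm_001_s1 : Cut := Cut.of [[⟨4, 0, 0, 1449551462⟩]]

noncomputable def xt_A04pm_001_s1 : Ext := strExt dd true true false .u0 .s0m .u0m .up 0 0 1 rfl rfl gf1 vv ndF0q0 ndF4q0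

noncomputable def f_A04pm_001_s1 : ℕ → ℕ → ℕ → ℕ → Bool := onCell 0 536870912 0 536870912 50331648 16777216
    (rowFK 0 true true false .up 0 0 1 (qsf 0 536870912 0 536870912 1) ndF0q0 ndF4q0 pcF1 cut_A04pm_001_s1 xt_A04pm_001_s1)

def k0_A04pm_001_s1 : ∃ t, chk3 f_A04pm_001_s1 t 1 1 1 = true :=
  ⟨(a (l 3) (b (a (l 3) (b (l 3) (a (l 3) (b (l 573511183) (l 572563727))))) (a (b (l 3) (a (b (l 3) (l 583641871)) (l 579799567))) (b (a (b (l 575917327) (l 575297295)) (b (l 571808015) (l 571147535))) (a (l 575078159) (b (l 18175952) (l 18233008))))))), by decide +kernel⟩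

theorem c_A04pm_001_s1 : CertF 0 536870912 0 536870912 50331648 16777216 true true false .up 0 0 1
    ndF0q0 ndF4q0 pcF1 cut_A04pm_001_s1 xt_A04pm_001_s1 :=
  certFK0 (fam := true) (s1 := true) (s2 := false) (a := 0) (b := 0) (c := 1) (cn := .up) (n1 := ndF0q0) (n2 := ndF4q0) (pc := pcF1) (cut := cut_A04pm_001_s1) (xt := xt_A04pm_001_s1) (P1 := 0) (W1 := 536870912) (P2 := 0) (W2 := 536870912) (P3 := 50331648) (W3 := 16777216)
    rfl rfl rfl k0_A04pm_001_s1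

theorem s_A04pm_001_s1 {κ x : ℝ} (hκ : κ * h0 = ken x) (hx : ((50331648 : ℕ) : ℝ) / S ≤ x)
    (hx' : x ≤ (((50331648 : ℕ) : ℝ) + (16777216 : ℕ)) / S) :
    AltA (VF κ) PP tKF tL pcF [⟨3, 0, 0, 1449551462⟩] 0 0 1 0 4 (sgb true) (sgb false) x :=
  strip_altA (m := 1449551462) true rfl hκ covF00 covF40 hx hx' c_A04pm_001_s1 cutA_nil ((okx hx hx').extA (T := tt) (sideF hx hx') hκ rfl rfl (.O 0 true) (.N 0 false) (Or.inr rfl))

noncomputable def cut_A04pm_011_s1 : Cut := Cut.of [[⟨4, 0, 0, 1449551462⟩], [⟨0, 0, 0, 16777216⟩, ⟨1, 1, 0, 16777216⟩, ⟨2, 1, 0, 16777216⟩]]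

noncomputable def xt_A04pm_011_s1 : Ext := strExt dd true true false .u0 .s0m .u0m .pnn 0 1 1 rfl rfl gf1 vv ndF0q0 ndF4q1

noncomputable def f_A04pm_011_s1 : ℕ → ℕ → ℕ → ℕ → Bool := onCell 0 536870912 536870912 536870912 50331648 16777216
    (rowFK 1 true true false .pnn 0 1 1 (qsf 0 536870912 536870912 536870912 1) ndF0q0 ndF4q1 pcF1 cut_A04pm_011_s1 xt_A04pm_011_s1)

def k0_A04pm_011_s1 : ∃ t, chk3 f_A04pm_011_s1 t 1 2 1 = true :=
  ⟨(a (l 3) (b (l 1) (a (l 3) (l 1)))), by decide +kernel⟩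

def k1_A04pm_011_s1 : ∃ t, chk3 f_A04pm_011_s1 t 2 6 1 = true :=
  ⟨(a (l 3) (a (l 3) (b (l 3) (l 593346831)))), by decide +kernel⟩

def k2_A04pm_011_s1 : ∃ t, chk3 f_A04pm_011_s1 t 2 14 1 = true :=
  ⟨(a (b (l 3) (a (l 3) (a (l 3) (l 627078159)))) (a (a (l 614910223) (l 607365135)) (l 598352143))), by decide +kernel⟩

def k3_A04pm_011_s1 : ∃ t, chk3 f_A04pm_011_s1 t 4 30 1 = true :=
  ⟨(a (b (l 3) (a (l 3) (a (l 3) (a (l 3) (b (l 3) (l 639392271)))))) (a (a (b (l 3) (a (l 642907407) (l 642946575))) (b (l 639113231) (l 641539855))) (a (l 635957263) (l 630972687)))), by decide +kernel⟩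

def k4_A04pm_011_s1 : ∃ t, chk3 f_A04pm_011_s1 t 16 62 1 = true :=
  ⟨(b (l 3) (a (l 3) (a (l 3) (a (l 3) (a (l 3) (b (l 3) (l 525991183))))))), by decide +kernel⟩

def k5_A04pm_011_s1 : ∃ t, chk3 f_A04pm_011_s1 t 16 126 1 = true :=
  ⟨(b (a (l 3) (a (a (l 3) (a (l 3) (b (l 3) (l 526428687)))) (a (a (b (l 3) (l 526141199)) (b (l 525923599) (l 525852687))) (a (a (l 525078031) (l 525066767)) (b (l 525344783) (l 525274383)))))) (a (a (l 3) (a (l 3) (a (l 3) (a (l 3) (b (l 3) (l 526107663)))))) (a (b (a (a (l 3) (a (l 3) (l 525333263))) (a (a (l 525323279) (l 525312783)) (l 526358287))) (a (a (a (l 525829647) (l 525820175)) (a (l 525541647) (l 525263375))) (a (a (l 525253135) (l 525242895)) (a (l 525232655) (l 524953871))))) (a (a (b (l 526070799) (l 526001423)) (b (l 525782799) (l 525713423))) (a (b (l 525494031) (l 525424655)) (a (l 525184527) (l 524905231))))))), by decide +kernel⟩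

def k6_A04pm_011_s1 : ∃ t, chk3 f_A04pm_011_s1 t 16 127 1 = true :=
  ⟨(a (b (b (a (l 3) (a (a (l 3) (a (l 3) (a (l 3) (l 525545487)))) (a (a (a (b (l 3) (l 525253135)) (l 525267215)) (b (l 526340111) (l 526305295))) (a (l 526315535) (l 526038031))))) (a (l 14) (a (a (b (b (l 3) (l 14)) (l 14)) (a (a (l 526027279) (l 525754127)) (a (l 525749519) (l 525476111)))) (a (a (a (l 525471247) (b (l 525213711) (l 525179151))) (b (l 526270735) (l 526236431))) (a (l 526514959) (l 525968911)))))) (a (l 14) (a (a (l 14) (a (l 14) (a (l 14) (b (l 525676047) (l 14))))) (a (a (b (a (l 525402639) (l 525397775)) (l 14)) (b (b (l 526470671) (l 526436367)) (b (l 526402575) (l 14)))) (a (b (b (l 525925135) (l 525891087)) (b (l 526125583) (l 526092047))) (b (a (l 525104655) (l 525099791)) (b (l 525848591) (l 525814799)))))))) (a (a (a (a (b (b (l 525760015) (l 525691151)) (b (l 525891343) (b (l 525571087) (l 525537295)))) (b (b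 (l 525750543) (l 525681679)) (b (l 525613583) (b (l 525293327) (l 525259791))))) (a (b (b (l 525472271) (l 525403663)) (b (l 525335567) (l 525536527))) (b (b (l 525462543) (l 525393679)) (b (l 525325839) (l 525258511))))) (a (b (a (b (l 525184015) (l 525383951)) (b (l 525173775) (l 525105423))) (a (b (l 525315855) (l 525248783)) (b (l 525037583) (l 525238799)))) (b (b (a (l 525163535) (l 524884751)) (b (l 526167311) (l 526133263))) (b (b (l 526099471) (l 526065935)) (b (l 526032399) (l 525999119)))))) (a (a (b (b (l 525932559) (l 525864207)) (b (l 525931023) (b (l 525745679) (l 525712399)))) (b (b (l 525644559) (l 525576719)) (b (l 525509391) (l 525576975)))) (a (b (b (l 525356303) (l 525556751)) (b (l 525489679) (l 525423119))) (b (b (l 525335823) (l 525268239)) (b (l 525201167) (l 525134863))))))), by decide +kernel⟩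

def k7_A04pm_011_s1 : ∃ t, chk3 f_A04pm_011_s1 t 34 31 1 = true :=
  ⟨(b (b (a (l 3) (a (l 3) (a (l 3) (b (l 3) (l 608106511))))) (a (a (b (l 3) (a (l 525700879) (l 525410319))) (b (a (l 3) (c (l 587678735) (l 531432207))) (a (l 525387791) (l 532505871)))) (c (a (b (a (l 596919311) (l 604918287)) (a (b (l 582460687) (l 570970127)) (l 587556367))) (b (l 615003151) (a (l 596754703) (l 604716559)))) (a (b (a (l 544192015) (l 555389711)) (l 526115343)) (b (a (l 565232911) (l 573897487)) (a (l 544209423) (l 555357967))))))) (a (a (b (a (b (l 525693199) (b (l 525183503) (l 525114639))) (b (l 525537039) (b (l 525161999) (l 525093391)))) (b (a (b (l 525046543) (l 525247503)) (b (l 525025295) (l 524958223))) (a (b (l 525180687) (l 525114639)) (b (l 524891407) (l 524959759))))) (b (b (a (l 525246479) (l 525224207)) (a (l 525376527) (l 525085967))) (b (a (b (l 525004047) (l 524936975)) (l 525084943)) (b (a (l 524870415)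 (l 524849167)) (a (l 524804623) (l 524783631)))))) (a (b (b (a (l 525201423) (l 532540687)) (a (l 525063695) (l 525041423))) (b (a (l 525063183) (l 524906767)) (b (l 525607695) (a (l 524762127) (l 524740623))))) (a (b (b (b (l 553429519) (l 539983119)) (l 525018639)) (b (l 524884495) (l 524820239))) (b (b (c (l 587387407) (l 531522063)) (l 532516367)) (b (l 524861967) (l 524797967))))))), by decide +kernel⟩

def k8_A04pm_011_s1 : ∃ t, chk3 f_A04pm_011_s1 t 35 31 1 = true :=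
  ⟨(b (a (b (a (b (l 3) (l 615313679)) (l 626078991)) (c (a (b (l 625411343) (l 614745871)) (l 629426447)) (a (b (l 585031183) (a (l 565157903) (l 573784335))) (b (l 596943119) (l 584864527))))) (a (b (l 631069199) (a (l 616157967) (l 620703247))) (b (l 634788623) (l 625463823)))) (a (a (a (b (b (b (l 16778192) (l 16791216)) (b (l 16773280) (l 16785232))) (b (l 524839439) (l 524708623))) (b (b (b (l 16780128) (l 16776040)) (b (l 16763048) (l 16781264))) (b (l 532433423) (l 524686351)))) (b (c (b (l 614454543) (b (l 16961728) (l 16875096))) (b (a (l 565038351) (l 573629455)) (b (l 555193359) (l 16767768)))) (b (c (b (l 16863088) (l 16797952)) (l 525175823)) (b (l 16758872) (l 524879119))))) (a (b (b (a (l 601546511) (l 16882600)) (b (l 16873384) (l 16783328))) (b (b (l 16768584) (l 16785568)) (b (l 16790368) (a (l 16789920) (l 16770248))))) (b (c (l 628718351) (b (l 16868784) (l 584420623))) (b (b (l 16930496)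 (l 16833104)) (b (l 16809976) (l 16775424))))))), by decide +kernel⟩

def k9_A04pm_011_s1 : ∃ t, chk3 f_A04pm_011_s1 t 9 31 1 = true :=
  ⟨(a (a (b (a (b (l 638661135) (l 632485391)) (l 639835407)) (a (b (a (b (l 17057216) (l 16997840)) (l 624750095)) (b (b (l 16953944) (l 16869776)) (a (b (l 16987168) (l 16882368)) (a (l 16962216) (l 17088712))))) (b (l 631684623) (a (b (l 17223736) (l 17148760)) (l 623935247))))) (b (a (l 641331727) (l 641332495)) (a (b (l 17298384) (l 630798095)) (l 638095375)))) (a (b (l 639809807) (l 639854863)) (l 637051663))), by decide +kernel⟩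

def k10_A04pm_011_s1 : ∃ t, chk3 f_A04pm_011_s1 t 5 15 1 = true :=
  ⟨(a (a (b (l 623863311) (b (l 17582408) (l 17857640))) (b (l 614717967) (l 620625935))) (b (l 603659791) (l 18059040))), by decide +kernel⟩

def k11_A04pm_011_s1 : ∃ t, chk3 f_A04pm_011_s1 t 3 3 1 = true :=
  ⟨(b (a (a (l 584839439) (l 579390479)) (a (l 575034127) (l 1))) (a (b (a (l 588684303) (l 17977144)) (b (l 18215200) (l 18297696))) (b (l 18189872) (l 18389424)))), by decide +kernel⟩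

theorem t12_A04pm_011_s1 : ∃ t, chk3 f_A04pm_011_s1 t 17 31 1 = true := ex3_a k7_A04pm_011_s1 k8_A04pm_011_s1

theorem t13_A04pm_011_s1 : ∃ t, chk3 f_A04pm_011_s1 t 16 63 1 = true := ex3_b k5_A04pm_011_s1 k6_A04pm_011_s1

theorem t14_A04pm_011_s1 : ∃ t, chk3 f_A04pm_011_s1 t 16 31 1 = true := ex3_b k4_A04pm_011_s1 t13_A04pm_011_s1

theorem t15_A04pm_011_s1 : ∃ t, chk3 f_A04pm_011_s1 t 8 31 1 = true := ex3_a t14_A04pm_011_s1 t12_A04pm_011_s1

theorem t16_A04pm_011_s1 : ∃ t, chk3 f_A04pm_011_s1 t 4 31 1 = true := ex3_a t15_A04pm_011_s1 k9_A04pm_011_s1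

theorem t17_A04pm_011_s1 : ∃ t, chk3 f_A04pm_011_s1 t 4 15 1 = true := ex3_b k3_A04pm_011_s1 t16_A04pm_011_s1

theorem t18_A04pm_011_s1 : ∃ t, chk3 f_A04pm_011_s1 t 2 15 1 = true := ex3_a t17_A04pm_011_s1 k10_A04pm_011_s1

theorem t19_A04pm_011_s1 : ∃ t, chk3 f_A04pm_011_s1 t 2 7 1 = true := ex3_b k2_A04pm_011_s1 t18_A04pm_011_s1

theorem t20_A04pm_011_s1 : ∃ t, chk3 f_A04pm_011_s1 t 2 3 1 = true := ex3_b k1_A04pm_011_s1 t19_A04pm_011_s1

theorem t21_A04pm_011_s1 : ∃ t, chk3 f_A04pm_011_s1 t 1 3 1 = true := ex3_a t20_A04pm_011_s1 k11_A04pm_011_s1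

theorem t22_A04pm_011_s1 : ∃ t, chk3 f_A04pm_011_s1 t 1 1 1 = true := ex3_b k0_A04pm_011_s1 t21_A04pm_011_s1

theorem c_A04pm_011_s1 : CertF 0 536870912 536870912 536870912 50331648 16777216 true true false .pnn 0 1 1
    ndF0q0 ndF4q1 pcF1 cut_A04pm_011_s1 xt_A04pm_011_s1 :=
  certFK1 (fam := true) (s1 := true) (s2 := false) (a := 0) (b := 1) (c := 1) (cn := .pnn) (n1 := ndF0q0) (n2 := ndF4q1) (pc := pcF1) (cut := cut_A04pm_011_s1) (xt := xt_A04pm_011_s1) (P1 := 0) (W1 := 536870912) (P2 := 536870912) (W2 := 536870912) (P3 := 50331648) (W3 := 16777216)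
    rfl rfl rfl (fun _ => rfl) t22_A04pm_011_s1

theorem s_A04pm_011_s1 {κ x : ℝ} (hκ : κ * h0 = ken x) (hx : ((50331648 : ℕ) : ℝ) / S ≤ x)
    (hx' : x ≤ (((50331648 : ℕ) : ℝ) + (16777216 : ℕ)) / S)
    (H : CutA (VF κ) PP tKF tL pcF (Cut.of [[⟨0, 0, 0, 16777216⟩, ⟨1, 1, 0, 16777216⟩, ⟨2, 1, 0, 16777216⟩]]) 0 1 1 0 4 (sgb true) (sgb false) x) :
    AltA (VF κ) PP tKF tL pcF [⟨3, 0, 0, 1449551462⟩] 0 1 1 0 4 (sgb true) (sgb false) x :=
  strip_altA (m := 1449551462) true rfl hκ covF00 covF41 hx hx' c_A04pm_011_s1 H ((okx hx hx').extA (T := tt) (sideF hx hx') hκ rfl rfl (.O 0 true) (.N 1 false) (Or.inr rfl))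

noncomputable def cut_A04pm_012_s1 : Cut := Cut.of [[⟨4, 0, 0, 1449551462⟩], [⟨0, 0, 0, 50331648⟩, ⟨1, 1, 0, 50331648⟩, ⟨2, 1, 0, 50331648⟩]]

noncomputable def f_A04pm_012_s1 : ℕ → ℕ → ℕ → ℕ → Bool := onCell 1073741824 536870912 536870912 536870912 50331648 16777216
    (rowFK 2 true true false .pnp 0 1 2 (qsf 0 536870912 536870912 536870912 2) ndF0q0 ndF4q1 pcF2 cut_A04pm_012_s1 Ext.none)

def k0_A04pm_012_s1 : ∃ t, chk3 f_A04pm_012_s1 t 2 2 1 = true :=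
  ⟨(a (a (a (a (b (l 18692408) (l 18559072)) (b (l 18694784) (l 18615832))) (b (l 18712384) (l 18721424))) (b (l 6) (l 18798992))) (b (l 6) (l 6))), by decide +kernel⟩

def k1_A04pm_012_s1 : ∃ t, chk3 f_A04pm_012_s1 t 32 3 1 = true :=
  ⟨(b (b (l 18409216) (l 18232328)) (b (b (b (l 18021224) (a (l 17793696) (l 17986664))) (b (a (c (l 17620584) (a (l 17273160) (l 17551072))) (l 17822568)) (b (a (a (b (l 17291696) (l 17044072)) (l 17462728)) (l 17650136)) (a (c (a (a (l 17170712) (l 17324328)) (l 17429744)) (a (a (a (l 16811376) (l 16926736)) (l 16890984)) (l 16905704))) (a (l 17346584) (l 17566152)))))) (b (b (b (a (a (a (b (c (l 16932576) (l 16742784)) (a (l 16726672) (l 16761704))) (c (l 16864928) (l 16731944))) (c (a (l 17108880) (l 17269816)) (a (l 16802264) (l 16874728)))) (a (c (l 17385808) (l 16901912)) (l 17211400))) (a (a (a (a (b (a (l 16764032) (b (l 16802656) (l 16762904))) (b (l 16766176) (l 16768336)))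 (b (b (l 16735488) (l 16801528)) (b (l 16761776) (l 16763952)))) (b (l 16751744) (c (l 16759640) (b (l 16799336) (l 16759504))))) (a (a (l 16727992) (l 16768600)) (l 16746976))) (a (b (l 16865920) (l 16793104)) (c (l 17147696) (l 16778888))))) (a (a (b (b (a (a (b (l 16749504) (l 14)) (b (l 16766120) (l 16768272))) (a (a (b (l 16762848) (l 16765016)) (l 16763024)) (l 16761736))) (a (l 14) (a (l 14) (l 16765952)))) (l 14)) (b (b (b (l 16756456) (l 16758488)) (a (l 16763304) (l 16759808))) (a (l 14) (b (l 16763840) (l 14))))) (b (a (b (l 16750792) (a (l 16714408) (l 16710992))) (b (l 16802056) (l 16747888))) (a (b (a (l 16718328) (l 16714800)) (a (l 14) (l 16718624))) (b (l 16730544) (a (l 16715016) (l 16711456))))))) (a (l 14) (b (b (a (l 14) (b (a (l 14) (l 16715072)) (l 14))) (l 14)) (l 14)))))), by decide +kernel⟩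

def k2_A04pm_012_s1 : ∃ t, chk3 f_A04pm_012_s1 t 33 3 1 = true :=
  ⟨(b (b (l 18533184) (a (l 18409400) (l 18515304))) (b (b (a (l 18219256) (l 18372168)) (b (a (l 18033208) (l 18225312)) (a (l 17663040) (l 18062696)))) (a (b (b (b (l 17181840) (a (c (l 17486576) (l 16949920)) (l 17217192))) (b (a (a (l 16773848) (l 16790520)) (c (l 17152488) (l 16724504))) (a (b (l 16702760) (l 16727152)) (b (l 16823904) (l 16699304))))) (b (b (a (b (a (l 16711440) (l 16707840)) (a (l 14) (l 16711256))) (b (l 16723488) (l 16711000))) (a (l 14) (b (b (l 16708208) (l 14)) (l 14)))) (l 14))) (a (b (b (b (l 17812880) (l 17545664)) (b (c (l 17591208) (l 16918408)) (a (l 16720952) (b (l 17016352) (l 16897176))))) (b (b (b (l 16695576) (l 16703824)) (b (b (l 16700864) (l 16702392)) (b (l 16703920) (l 14)))) (l 14))) (b (b (l 17534888) (b (c (l 17768272) (l 17019728)) (c (b (l 17573856) (l 17243600)) (b (l 16940088) (l 16734808)))))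 (b (b (b (a (l 16784792) (l 16830944)) (a (l 16693320) (l 16735376))) (b (a (l 16696184) (l 16692848)) (a (l 16699072) (l 16700872)))) (b (b (a (l 14) (b (l 16697728) (l 14))) (l 14)) (l 14)))))))), by decide +kernel⟩

def k3_A04pm_012_s1 : ∃ t, chk3 f_A04pm_012_s1 t 17 6 1 = true :=
  ⟨(b (l 18731944) (l 18896808)), by decide +kernel⟩

def k4_A04pm_012_s1 : ∃ t, chk3 f_A04pm_012_s1 t 17 14 1 = true :=
  ⟨(b (a (l 18580640) (l 18826792)) (a (b (l 18486232) (l 18376344)) (l 18766568))), by decide +kernel⟩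

def k5_A04pm_012_s1 : ∃ t, chk3 f_A04pm_012_s1 t 34 15 1 = true :=
  ⟨(b (b (a (b (l 18134768) (l 17998592)) (l 18317304)) (b (a (a (l 17565976) (l 17895776)) (l 18120440)) (a (c (a (l 17615112) (l 17887768)) (a (b (l 17312480) (l 16964008)) (l 17093224))) (a (l 17589352) (l 18011352))))) (b (a (b (c (a (b (l 17287008) (a (l 17012136) (l 17227872))) (b (l 17677224) (l 17331176))) (a (b (l 16747152) (l 16695968)) (b (l 16988760) (l 16760480)))) (a (b (a (l 16689352) (l 16738024)) (b (l 16700736) (l 16702048))) (a (b (l 16723336) (l 16685232)) (b (c (l 17180608) (l 16725560)) (l 16699704))))) (b (c (a (l 17726112) (l 18009960)) (a (b (l 17380312) (l 16930448)) (b (l 17587448) (l 17331448)))) (b (c (a (l 17292264) (l 17783488)) (a (l 16690728) (l 16956768))) (c (a (a (l 16905192) (l 17218032)) (l 17337920)) (a (l 16682552) (b (l 16857088) (l 16802344))))))) (b (a (a (a (b (l 16699944) (l 14)) (b (l 16693880) (b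 (l 16693216) (l 14)))) (b (b (l 16691528) (l 16692728)) (b (a (l 16689552) (l 16685952)) (a (l 16690808) (l 16687152))))) (a (b (b (l 16703392) (l 16680352)) (b (l 16686696) (a (l 16683560) (l 16680032)))) (b (c (c (l 17272888) (b (l 17160144) (l 16849192))) (l 16677904)) (b (l 16677152) (l 16680728))))) (b (a (a (l 14) (b (a (l 14) (l 16688360)) (l 14))) (a (b (a (l 16684704) (l 16681120)) (a (l 16688488) (l 16684840))) (a (b (l 16677592) (l 16678632)) (b (l 16674136) (l 16675112))))) (a (l 14) (a (b (a (l 14) (b (l 16683048) (l 14))) (l 14)) (b (b (a (l 16679416) (l 16675856)) (a (l 16679944) (l 16676352))) (a (b (b (l 16680344) (l 14)) (l 14)) (a (b (l 16677600) (b (l 16677984) (l 14))) (b (l 16675816) (b (l 16676184) (c (l 16676792) (l 16676072))))))))))))), by decide +kernel⟩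

def k6_A04pm_012_s1 : ∃ t, chk3 f_A04pm_012_s1 t 35 30 1 = true :=
  ⟨(b (l 18636368) (a (l 17904016) (l 18578608))), by decide +kernel⟩

def k7_A04pm_012_s1 : ∃ t, chk3 f_A04pm_012_s1 t 35 62 1 = true :=
  ⟨(b (a (a (l 17615296) (l 18129040)) (l 18370920)) (a (c (a (l 17755880) (l 18134376)) (b (a (l 17367128) (l 17672640)) (a (l 16816008) (l 17319536)))) (c (l 18415680) (b (l 17970688) (l 17655168))))), by decide +kernel⟩

def k8_A04pm_012_s1 : ∃ t, chk3 f_A04pm_012_s1 t 35 126 1 = true :=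
  ⟨(a (a (c (b (l 17300344) (c (l 17149616) (b (l 17106520) (l 16704952)))) (a (b (l 16727360) (l 16668984)) (b (l 16796584) (l 16665000)))) (c (c (l 17706464) (b (l 17734912) (l 17257784))) (a (b (l 16941608) (l 16656328)) (b (l 17162992) (c (l 17071056) (l 16687224)))))) (c (b (l 18229208) (l 17817544)) (b (a (l 17272520) (l 17760008)) (a (c (l 17203704) (b (l 17109912) (l 16889792))) (l 17226032))))), by decide +kernel⟩

def k9_A04pm_012_s1 : ∃ t, chk3 f_A04pm_012_s1 t 35 127 1 = true :=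
  ⟨(b (a (a (b (l 16672680) (a (l 16671656) (l 16668264))) (c (c (b (l 17680008) (l 17376584)) (b (l 16969664) (a (l 16806072) (l 17068112)))) (b (a (l 16663704) (l 16747856)) (l 16668536)))) (c (c (l 17879240) (a (b (l 17612648) (l 17398496)) (l 17832304))) (a (c (b (l 17008064) (a (l 16857664) (l 17109464))) (b (l 16655160) (l 16655688))) (c (l 17071472) (a (l 16652392) (l 16889000)))))) (a (a (b (b (a (l 16672352) (l 16668912)) (a (l 16672816) (l 16669352))) (a (a (b (l 16674040) (b (l 16674400) (c (l 16675008) (l 16674272)))) (b (l 16672280) (b (l 16672624) (c (l 16673240) (l 16672488))))) (a (b (l 16670536) (b (l 16670872) (l 16671096))) (b (l 16668808) (b (l 16669136) (l 16669352)))))) (b (a (l 16668360) (c (c (l 17479848) (a (l 16768920) (l 16946936))) (l 16661976))) (b (a (l 16666352) (c (c (l 17274696) (l 16677024)) (l 16662544))) (b (a (l 16669288) (l 16663272)) (a (a (l 16667616) (l 16665904)) (a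 (l 16664200) (l 16662520))))))) (c (c (a (b (l 17728352) (l 17251648)) (l 17966840)) (a (a (b (l 16998384) (b (l 16871768) (a (l 16689264) (l 16829608)))) (b (l 17420096) (b (l 17304976) (l 17054736)))) (b (l 17655424) (l 17268544)))) (a (b (b (l 16658816) (l 16660296)) (b (a (l 16659224) (l 16661128)) (a (b (l 16659488) (l 16659664)) (b (l 16656200) (l 16656368))))) (c (b (a (l 17038176) (l 17366648)) (b (a (l 16918496) (l 17257184)) (a (b (l 16854848) (l 16727024)) (l 17011344)))) (b (a (l 16664784) (l 16752880)) (b (l 16654984) (a (l 16652808) (b (l 16647800) (l 16665576)))))))))), by decide +kernel⟩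

def k10_A04pm_012_s1 : ∃ t, chk3 f_A04pm_012_s1 t 9 3 1 = true :=
  ⟨(b (a (l 18977328) (l 19038208)) (b (a (b (l 19102232) (l 19134432)) (l 19333072)) (a (b (a (l 18871128) (l 19240384)) (a (b (a (l 18079144) (l 18845296)) (b (c (l 18556856) (a (b (l 18073520) (l 17665480)) (l 18374048))) (c (a (b (l 18356976) (l 17684080)) (l 18690888)) (b (a (c (l 17801584) (a (l 17102440) (l 17696104))) (l 18177696)) (a (a (c (b (l 17590032) (l 17208776)) (b (a (l 16998464) (l 17318496)) (a (c (l 16853680) (l 16648104)) (l 16842136)))) (c (l 17805200) (b (l 17531000) (l 17155056)))) (l 17509264)))))) (b (l 19160032) (a (b (l 18920968) (l 18763720)) (l 19119464))))) (b (l 19510232) (a (l 19454608) (l 19701016)))))), by decide +kernel⟩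

def k11_A04pm_012_s1 : ∃ t, chk3 f_A04pm_012_s1 t 5 3 1 = true :=
  ⟨(b (a (l 19034200) (l 6)) (b (l 19786624) (a (a (l 19807936) (l 19905888)) (l 19886112)))), by decide +kernel⟩

def k12_A04pm_012_s1 : ∃ t, chk3 f_A04pm_012_s1 t 3 1 1 = true :=
  ⟨(b (l 6) (l 6)), by decide +kernel⟩

theorem t13_A04pm_012_s1 : ∃ t, chk3 f_A04pm_012_s1 t 35 63 1 = true := ex3_b k8_A04pm_012_s1 k9_A04pm_012_s1

theorem t14_A04pm_012_s1 : ∃ t, chk3 f_A04pm_012_s1 t 35 31 1 = true := ex3_b k7_A04pm_012_s1 t13_A04pm_012_s1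

theorem t15_A04pm_012_s1 : ∃ t, chk3 f_A04pm_012_s1 t 35 15 1 = true := ex3_b k6_A04pm_012_s1 t14_A04pm_012_s1

theorem t16_A04pm_012_s1 : ∃ t, chk3 f_A04pm_012_s1 t 17 15 1 = true := ex3_a k5_A04pm_012_s1 t15_A04pm_012_s1

theorem t17_A04pm_012_s1 : ∃ t, chk3 f_A04pm_012_s1 t 17 7 1 = true := ex3_b k4_A04pm_012_s1 t16_A04pm_012_s1

theorem t18_A04pm_012_s1 : ∃ t, chk3 f_A04pm_012_s1 t 17 3 1 = true := ex3_b k3_A04pm_012_s1 t17_A04pm_012_s1

theorem t19_A04pm_012_s1 : ∃ t, chk3 f_A04pm_012_s1 t 16 3 1 = true := ex3_a k1_A04pm_012_s1 k2_A04pm_012_s1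

theorem t20_A04pm_012_s1 : ∃ t, chk3 f_A04pm_012_s1 t 8 3 1 = true := ex3_a t19_A04pm_012_s1 t18_A04pm_012_s1

theorem t21_A04pm_012_s1 : ∃ t, chk3 f_A04pm_012_s1 t 4 3 1 = true := ex3_a t20_A04pm_012_s1 k10_A04pm_012_s1

theorem t22_A04pm_012_s1 : ∃ t, chk3 f_A04pm_012_s1 t 2 3 1 = true := ex3_a t21_A04pm_012_s1 k11_A04pm_012_s1

theorem t23_A04pm_012_s1 : ∃ t, chk3 f_A04pm_012_s1 t 2 1 1 = true := ex3_b k0_A04pm_012_s1 t22_A04pm_012_s1

theorem t24_A04pm_012_s1 : ∃ t, chk3 f_A04pm_012_s1 t 1 1 1 = true := ex3_a t23_A04pm_012_s1 k12_A04pm_012_s1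

theorem c_A04pm_012_s1 : CertF 0 536870912 536870912 536870912 50331648 16777216 true true false .pnp 0 1 2
    ndF0q0 ndF4q1 pcF2 cut_A04pm_012_s1 Ext.none :=
  certFK2 (fam := true) (s1 := true) (s2 := false) (a := 0) (b := 1) (c := 2) (cn := .pnp) (n1 := ndF0q0) (n2 := ndF4q1) (pc := pcF2) (cut := cut_A04pm_012_s1) (xt := Ext.none) (P1 := 0) (W1 := 536870912) (P2 := 536870912) (W2 := 536870912) (P3 := 50331648) (W3 := 16777216)
    rfl rfl rfl (fun _ => rfl) t24_A04pm_012_s1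

theorem s_A04pm_012_s1 {κ x : ℝ} (hκ : κ * h0 = ken x) (hx : ((50331648 : ℕ) : ℝ) / S ≤ x)
    (hx' : x ≤ (((50331648 : ℕ) : ℝ) + (16777216 : ℕ)) / S)
    (H : CutA (VF κ) PP tKF tL pcF (Cut.of [[⟨0, 0, 0, 50331648⟩, ⟨1, 1, 0, 50331648⟩, ⟨2, 1, 0, 50331648⟩]]) 0 1 2 0 4 (sgb true) (sgb false) x) :
    AltA (VF κ) PP tKF tL pcF [⟨3, 0, 0, 1449551462⟩] 0 1 2 0 4 (sgb true) (sgb false) x :=
  strip_altA (m := 1449551462) true rfl hκ covF00 covF41 hx hx' c_A04pm_012_s1 H (noExt_A)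

noncomputable def cut_A04pm_022_s1 : Cut := Cut.of [[⟨4, 0, 0, 1449551462⟩], [⟨0, 0, 0, 50331648⟩, ⟨1, 1, 0, 50331648⟩, ⟨2, 1, 0, 50331648⟩]]

noncomputable def f_A04pm_022_s1 : ℕ → ℕ → ℕ → ℕ → Bool := onCell 1073741824 536870912 1073741824 536870912 50331648 16777216
    (rowFK 2 true true false .pp 0 2 2 (qsf 0 536870912 1073741824 536870912 2) ndF0q0 ndF4q2 pcF2 cut_A04pm_022_s1 Ext.none)

def k0_A04pm_022_s1 : ∃ t, chk3 f_A04pm_022_s1 t 8 16 1 = true :=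
  ⟨(a (l 14) (a (a (l 14) (a (l 14) (a (l 14) (a (l 14) (a (l 14) (b (b (b (b (b (l 16675688) (l 16674920)) (l 16673856)) (l 16672768)) (l 16670864)) (b (l 16668176) (l 16665344)))))))) (b (b (b (a (a (b (b (a (b (a (l 16674568) (l 16672784)) (l 16676032)) (b (a (l 16671008) (l 16669256)) (l 16669848))) (a (l 16672824) (l 16669240))) (b (a (l 16672032) (l 16668424)) (l 16675304))) (b (b (a (a (l 16667312) (l 16665584)) (a (l 16663872) (l 16662176))) (a (l 16665720) (l 16662264))) (b (l 16668824) (l 16668008)))) (c (a (c (l 17159904) (a (b (a (l 16678248) (l 16862336)) (l 16804048)) (b (l 17006120) (l 17163160)))) (c (l 17826832) (l 17181552))) (b (a (b (a (l 16661936) (l 16656000)) (l 16662384)) (a (a (l 16659752) (l 16652032)) (c (l 16965424) (l 16649640)))) (a (l 16661056) (c (l 16657496) (l 16648888)))))) (a (a (b (l 16674728) (l 16668816)) (b (l 16667192) (l 16661256))) (a (a (l 16666824) (c (l 17099360)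 (l 16651760))) (c (l 17349176) (l 16651160))))) (a (a (b (l 16678280) (l 16666400)) (b (l 16660176) (l 16658712))) (a (b (l 16671728) (l 16746376)) (c (l 17309416) (b (l 16734992) (l 16809864)))))) (b (b (a (a (l 16664968) (l 16657208)) (c (l 16867288) (l 16688832))) (a (a (l 16663496) (l 16655664)) (l 16736224))) (a (a (l 16703168) (l 16737168)) (a (l 16809912) (l 16961992))))))), by decide +kernel⟩

def k1_A04pm_022_s1 : ∃ t, chk3 f_A04pm_022_s1 t 8 17 1 = true :=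
  ⟨(a (b (b (l 14) (l 1)) (l 1)) (a (a (b (b (l 14) (b (l 14) (l 1))) (l 1)) (b (b (a (l 14) (b (l 16759944) (l 16769256))) (a (b (l 14) (l 174516484279)) (b (l 16778472) (a (l 109018210503) (l 16705288))))) (b (a (l 1) (b (l 173979601015) (l 1))) (l 1)))) (a (b (a (b (a (l 16753104) (l 16745208)) (b (l 16762984) (l 16772240))) (b (b (l 16734696) (l 16737832)) (a (l 16756112) (l 16748272)))) (b (a (b (a (l 109018198087) (l 16699064)) (l 173979588711)) (b (l 16682128) (a (l 100428261607) (l 16687616)))) (a (l 1) (l 177737681879)))) (b (b (a (l 16806600) (l 17025208)) (a (l 16809248) (l 17093880))) (b (a (l 16817744) (l 17084024)) (a (b (a (l 108481428871) (l 16809392)) (l 179348566199)) (a (l 68752848199) (l 16887688)))))))), by decide +kernel⟩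

def k2_A04pm_022_s1 : ∃ t, chk3 f_A04pm_022_s1 t 8 9 1 = true :=
  ⟨(a (l 1) (a (l 1) (b (b (a (l 1) (b (l 194381237319) (l 1))) (l 1)) (l 1)))), by decide +kernel⟩

def k3_A04pm_022_s1 : ∃ t, chk3 f_A04pm_022_s1 t 8 5 1 = true :=
  ⟨(l 1), by decide +kernel⟩

def k4_A04pm_022_s1 : ∃ t, chk3 f_A04pm_022_s1 t 9 2 1 = true :=
  ⟨(b (b (a (b (a (a (b (b (b (c (l 17901464) (a (c (l 17126056) (b (a (b (l 16760328) (l 16840008)) (l 17012776)) (l 16752248))) (l 17166224))) (c (l 17949440) (a (a (l 16839080) (l 17084168)) (l 17308536)))) (c (l 17899024) (a (l 16643672) (l 17274560)))) (c (a (l 17764552) (l 18009472)) (b (a (l 17033568) (l 17401720)) (l 16897704)))) (a (b (b (l 17751184) (l 17936968)) (l 17680016)) (b (l 17773120) (l 18144048)))) (a (b (l 18242376) (l 18430088)) (l 18581424))) (a (a (b (b (l 17088744) (l 17138016)) (a (l 16983240) (l 17454464))) (b (l 17510864) (l 17501040))) (a (b (l 18297728) (l 18180776))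 (l 18541264)))) (a (b (l 19219312) (l 18918680)) (b (l 19585568) (l 19304216)))) (a (b (a (a (b (b (a (b (l 97744105287) (l 236257820199)) (b (l 17503808) (l 17077832))) (l 245921717591)) (l 1)) (b (a (b (l 17686872) (l 216394321447)) (l 27952141607)) (l 282966513143))) (a (b (l 18079088) (a (l 256123357367) (l 96135479751))) (b (l 18359544) (l 18266432)))) (a (l 1) (l 313568973975))) (a (b (l 18661272) (a (l 282430768679) (l 18600456))) (b (l 19048352) (l 18841696))))) (a (l 1) (a (l 1) (b (l 353298673207) (l 1))))), by decide +kernel⟩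

def k5_A04pm_022_s1 : ∃ t, chk3 f_A04pm_022_s1 t 5 2 1 = true :=
  ⟨(a (b (b (a (a (l 19707744) (a (l 19851840) (l 19927960))) (l 20056536)) (a (a (l 19241600) (a (l 19431584) (l 19540784))) (l 19754072))) (a (b (a (l 328066953383) (b (l 19224744) (l 19399536))) (l 1)) (b (l 19468024) (l 19323760)))) (b (b (l 20149040) (l 20018208)) (b (l 19834312) (l 19632520)))), by decide +kernel⟩

def k6_A04pm_022_s1 : ∃ t, chk3 f_A04pm_022_s1 t 2 3 1 = true :=
  ⟨(a (l 1) (a (l 1) (b (a (l 1) (l 381218329831)) (l 1)))), by decide +kernel⟩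

def k7_A04pm_022_s1 : ∃ t, chk3 f_A04pm_022_s1 t 3 1 1 = true :=
  ⟨(b (a (a (b (l 6) (l 19960712)) (l 6)) (l 6)) (a (b (a (l 345785036215) (l 6)) (l 365112621143)) (l 6))), by decide +kernel⟩

theorem t8_A04pm_022_s1 : ∃ t, chk3 f_A04pm_022_s1 t 8 8 1 = true := ex3_b k0_A04pm_022_s1 k1_A04pm_022_s1

theorem t9_A04pm_022_s1 : ∃ t, chk3 f_A04pm_022_s1 t 8 4 1 = true := ex3_b t8_A04pm_022_s1 k2_A04pm_022_s1

theorem t10_A04pm_022_s1 : ∃ t, chk3 f_A04pm_022_s1 t 8 2 1 = true := ex3_b t9_A04pm_022_s1 k3_A04pm_022_s1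

theorem t11_A04pm_022_s1 : ∃ t, chk3 f_A04pm_022_s1 t 4 2 1 = true := ex3_a t10_A04pm_022_s1 k4_A04pm_022_s1

theorem t12_A04pm_022_s1 : ∃ t, chk3 f_A04pm_022_s1 t 2 2 1 = true := ex3_a t11_A04pm_022_s1 k5_A04pm_022_s1

theorem t13_A04pm_022_s1 : ∃ t, chk3 f_A04pm_022_s1 t 2 1 1 = true := ex3_b t12_A04pm_022_s1 k6_A04pm_022_s1

theorem t14_A04pm_022_s1 : ∃ t, chk3 f_A04pm_022_s1 t 1 1 1 = true := ex3_a t13_A04pm_022_s1 k7_A04pm_022_s1

theorem c_A04pm_022_s1 : CertF 0 536870912 1073741824 536870912 50331648 16777216 true true false .pp 0 2 2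
    ndF0q0 ndF4q2 pcF2 cut_A04pm_022_s1 Ext.none :=
  certFK2 (fam := true) (s1 := true) (s2 := false) (a := 0) (b := 2) (c := 2) (cn := .pp) (n1 := ndF0q0) (n2 := ndF4q2) (pc := pcF2) (cut := cut_A04pm_022_s1) (xt := Ext.none) (P1 := 0) (W1 := 536870912) (P2 := 1073741824) (W2 := 536870912) (P3 := 50331648) (W3 := 16777216)
    rfl rfl rfl (fun _ => rfl) t14_A04pm_022_s1

theorem s_A04pm_022_s1 {κ x : ℝ} (hκ : κ * h0 = ken x) (hx : ((50331648 : ℕ) : ℝ) / S ≤ x)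
    (hx' : x ≤ (((50331648 : ℕ) : ℝ) + (16777216 : ℕ)) / S)
    (H : CutA (VF κ) PP tKF tL pcF (Cut.of [[⟨0, 0, 0, 50331648⟩, ⟨1, 1, 0, 50331648⟩, ⟨2, 1, 0, 50331648⟩]]) 0 2 2 0 4 (sgb true) (sgb false) x) :
    AltA (VF κ) PP tKF tL pcF [⟨3, 0, 0, 1449551462⟩] 0 2 2 0 4 (sgb true) (sgb false) x :=
  strip_altA (m := 1449551462) true rfl hκ covF00 covF42 hx hx' c_A04pm_022_s1 H (noExt_A)

noncomputable def cut_A04pm_023_s1 : Cut := Cut.of [[⟨4, 0, 0, 1449551462⟩]]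

noncomputable def f_A04pm_023_s1 : ℕ → ℕ → ℕ → ℕ → Bool := onCell 1610612736 536870912 1073741824 536870912 50331648 16777216
    (rowFK 2 true true false .up 0 2 3 (qsf 0 536870912 1073741824 536870912 3) ndF0q0 ndF4q2 pcF3 cut_A04pm_023_s1 Ext.none)

def k0_A04pm_023_s1 : ∃ t, chk3 f_A04pm_023_s1 t 1 1 1 = true :=
  ⟨(a (l 6) (l 6)), by decide +kernel⟩

theorem c_A04pm_023_s1 : CertF 0 536870912 1073741824 536870912 50331648 16777216 true true false .up 0 2 3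
    ndF0q0 ndF4q2 pcF3 cut_A04pm_023_s1 Ext.none :=
  certFK2 (fam := true) (s1 := true) (s2 := false) (a := 0) (b := 2) (c := 3) (cn := .up) (n1 := ndF0q0) (n2 := ndF4q2) (pc := pcF3) (cut := cut_A04pm_023_s1) (xt := Ext.none) (P1 := 0) (W1 := 536870912) (P2 := 1073741824) (W2 := 536870912) (P3 := 50331648) (W3 := 16777216)
    rfl rfl rfl (fun _ => rfl) k0_A04pm_023_s1

theorem s_A04pm_023_s1 {κ x : ℝ} (hκ : κ * h0 = ken x) (hx : ((50331648 : ℕ) : ℝ) / S ≤ x)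
    (hx' : x ≤ (((50331648 : ℕ) : ℝ) + (16777216 : ℕ)) / S) :
    AltA (VF κ) PP tKF tL pcF [⟨3, 0, 0, 1449551462⟩] 0 2 3 0 4 (sgb true) (sgb false) x :=
  strip_altA (m := 1449551462) true rfl hκ covF00 covF42 hx hx' c_A04pm_023_s1 cutA_nil (noExt_A)

noncomputable def cut_A04pm_033_s1 : Cut := Cut.of [[⟨4, 0, 0, 1449551462⟩]]

noncomputable def f_A04pm_033_s1 : ℕ → ℕ → ℕ → ℕ → Bool := onCell 1610612736 536870912 0 1230186008 50331648 16777216
    (rowFK 2 true true false .pnn 0 3 3 (qsf 0 536870912 0 1230186008 3) ndF0q0 ndF4q3 pcF3 cut_A04pm_033_s1 Ext.none)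

def k0_A04pm_033_s1 : ∃ t, chk3 f_A04pm_033_s1 t 1 1 1 = true :=
  ⟨(b (l 6) (l 6)), by decide +kernel⟩

theorem c_A04pm_033_s1 : CertF 0 536870912 0 1230186008 50331648 16777216 true true false .pnn 0 3 3
    ndF0q0 ndF4q3 pcF3 cut_A04pm_033_s1 Ext.none :=
  certFK2 (fam := true) (s1 := true) (s2 := false) (a := 0) (b := 3) (c := 3) (cn := .pnn) (n1 := ndF0q0) (n2 := ndF4q3) (pc := pcF3) (cut := cut_A04pm_033_s1) (xt := Ext.none) (P1 := 0) (W1 := 536870912) (P2 := 0) (W2 := 1230186008) (P3 := 50331648) (W3 := 16777216)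
    rfl rfl rfl (fun _ => rfl) k0_A04pm_033_s1

theorem s_A04pm_033_s1 {κ x : ℝ} (hκ : κ * h0 = ken x) (hx : ((50331648 : ℕ) : ℝ) / S ≤ x)
    (hx' : x ≤ (((50331648 : ℕ) : ℝ) + (16777216 : ℕ)) / S) :
    AltA (VF κ) PP tKF tL pcF [⟨3, 0, 0, 1449551462⟩] 0 3 3 0 4 (sgb true) (sgb false) x :=
  strip_altA (m := 1449551462) true rfl hκ covF00 covF43 hx hx' c_A04pm_033_s1 cutA_nil (noExt_A)

noncomputable def cut_A04pm_101_s1 : Cut := Cut.of [[⟨4, 0, 0, 1449551462⟩]]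

noncomputable def xt_A04pm_101_s1 : Ext := strExt dd true true false .u0 .s0m .u0m .npn 1 0 1 rfl rfl gf1 vv ndF0q1 ndF4q0

noncomputable def f_A04pm_101_s1 : ℕ → ℕ → ℕ → ℕ → Bool := onCell 536870912 536870912 536870912 536870912 50331648 16777216
    (rowFK 1 true true false .npn 1 0 1 (qsf 536870912 536870912 0 536870912 1) ndF0q1 ndF4q0 pcF1 cut_A04pm_101_s1 xt_A04pm_101_s1)

def k0_A04pm_101_s1 : ∃ t, chk3 f_A04pm_101_s1 t 1 1 1 = true :=
  ⟨(a (b (b (a (b (l 573420815) (l 571188751)) (a (l 570373391) (l 1))) (a (b (l 569115151) (l 567612431)) (a (l 18075240) (l 17954944)))) (b (a (a (l 18215168) (l 17919904)) (l 18422400)) (a (l 18863920) (l 18688200)))) (b (a (b (l 1) (l 18906168)) (l 1)) (a (b (l 18741400) (l 6)) (l 6)))), by decide +kernel⟩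

theorem c_A04pm_101_s1 : CertF 536870912 536870912 0 536870912 50331648 16777216 true true false .npn 1 0 1
    ndF0q1 ndF4q0 pcF1 cut_A04pm_101_s1 xt_A04pm_101_s1 :=
  certFK1 (fam := true) (s1 := true) (s2 := false) (a := 1) (b := 0) (c := 1) (cn := .npn) (n1 := ndF0q1) (n2 := ndF4q0) (pc := pcF1) (cut := cut_A04pm_101_s1) (xt := xt_A04pm_101_s1) (P1 := 536870912) (W1 := 536870912) (P2 := 0) (W2 := 536870912) (P3 := 50331648) (W3 := 16777216)
    rfl rfl rfl (fun _ => rfl) k0_A04pm_101_s1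

theorem s_A04pm_101_s1 {κ x : ℝ} (hκ : κ * h0 = ken x) (hx : ((50331648 : ℕ) : ℝ) / S ≤ x)
    (hx' : x ≤ (((50331648 : ℕ) : ℝ) + (16777216 : ℕ)) / S) :
    AltA (VF κ) PP tKF tL pcF [⟨3, 0, 0, 1449551462⟩] 1 0 1 0 4 (sgb true) (sgb false) x :=
  strip_altA (m := 1449551462) true rfl hκ covF01 covF40 hx hx' c_A04pm_101_s1 cutA_nil ((okx hx hx').extA (T := tt) (sideF hx hx') hκ rfl rfl (.O 1 true) (.N 0 false) (Or.inr rfl))

noncomputable def cut_A04pm_102_s1 : Cut := Cut.of [[⟨4, 0, 0, 1449551462⟩]]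

noncomputable def f_A04pm_102_s1 : ℕ → ℕ → ℕ → ℕ → Bool := onCell 536870912 536870912 1073741824 536870912 50331648 16777216
    (rowFK 1 true true false .npp 1 0 2 (qsf 536870912 536870912 0 536870912 2) ndF0q1 ndF4q0 pcF2 cut_A04pm_102_s1 Ext.none)

def k0_A04pm_102_s1 : ∃ t, chk3 f_A04pm_102_s1 t 1 1 1 = true :=
  ⟨(a (b (b (b (b (b (l 19172632) (l 19287784)) (l 6)) (l 6)) (l 6)) (l 6)) (l 6)), by decide +kernel⟩

theorem c_A04pm_102_s1 : CertF 536870912 536870912 0 536870912 50331648 16777216 true true false .npp 1 0 2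
    ndF0q1 ndF4q0 pcF2 cut_A04pm_102_s1 Ext.none :=
  certFK1 (fam := true) (s1 := true) (s2 := false) (a := 1) (b := 0) (c := 2) (cn := .npp) (n1 := ndF0q1) (n2 := ndF4q0) (pc := pcF2) (cut := cut_A04pm_102_s1) (xt := Ext.none) (P1 := 536870912) (W1 := 536870912) (P2 := 0) (W2 := 536870912) (P3 := 50331648) (W3 := 16777216)
    rfl rfl rfl (fun _ => rfl) k0_A04pm_102_s1

theorem s_A04pm_102_s1 {κ x : ℝ} (hκ : κ * h0 = ken x) (hx : ((50331648 : ℕ) : ℝ) / S ≤ x)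
    (hx' : x ≤ (((50331648 : ℕ) : ℝ) + (16777216 : ℕ)) / S) :
    AltA (VF κ) PP tKF tL pcF [⟨3, 0, 0, 1449551462⟩] 1 0 2 0 4 (sgb true) (sgb false) x :=
  strip_altA (m := 1449551462) true rfl hκ covF01 covF40 hx hx' c_A04pm_102_s1 cutA_nil (noExt_A)

noncomputable def cut_A04pm_112_s1 : Cut := Cut.of [[⟨4, 0, 0, 1449551462⟩]]

noncomputable def f_A04pm_112_s1 : ℕ → ℕ → ℕ → ℕ → Bool := onCell 536870912 536870912 1073741824 536870912 50331648 16777216
    (rowFK 1 true true false .dn 1 1 2 (qsf 536870912 536870912 536870912 536870912 2) ndF0q1 ndF4q1 pcF2 cut_A04pm_112_s1 Ext.none)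

def k0_A04pm_112_s1 : ∃ t, chk3 f_A04pm_112_s1 t 1 1 1 = true :=
  ⟨(a (b (b (b (b (b (l 18881464) (l 18827776)) (l 6)) (l 6)) (l 6)) (l 6)) (l 6)), by decide +kernel⟩

theorem c_A04pm_112_s1 : CertF 536870912 536870912 536870912 536870912 50331648 16777216 true true false .dn 1 1 2
    ndF0q1 ndF4q1 pcF2 cut_A04pm_112_s1 Ext.none :=
  certFK1 (fam := true) (s1 := true) (s2 := false) (a := 1) (b := 1) (c := 2) (cn := .dn) (n1 := ndF0q1) (n2 := ndF4q1) (pc := pcF2) (cut := cut_A04pm_112_s1) (xt := Ext.none) (P1 := 536870912) (W1 := 536870912) (P2 := 536870912) (W2 := 536870912) (P3 := 50331648) (W3 := 16777216)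
    rfl rfl rfl (fun _ => rfl) k0_A04pm_112_s1

theorem s_A04pm_112_s1 {κ x : ℝ} (hκ : κ * h0 = ken x) (hx : ((50331648 : ℕ) : ℝ) / S ≤ x)
    (hx' : x ≤ (((50331648 : ℕ) : ℝ) + (16777216 : ℕ)) / S) :
    AltA (VF κ) PP tKF tL pcF [⟨3, 0, 0, 1449551462⟩] 1 1 2 0 4 (sgb true) (sgb false) x :=
  strip_altA (m := 1449551462) true rfl hκ covF01 covF41 hx hx' c_A04pm_112_s1 cutA_nil (noExt_A)

noncomputable def cut_A04pm_113_s1 : Cut := Cut.of [[⟨4, 0, 0, 1449551462⟩]]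

noncomputable def f_A04pm_113_s1 : ℕ → ℕ → ℕ → ℕ → Bool := onCell 536870912 536870912 1610612736 536870912 50331648 16777216
    (rowFK 1 true true false .nn 1 1 3 (qsf 536870912 536870912 536870912 536870912 3) ndF0q1 ndF4q1 pcF3 cut_A04pm_113_s1 Ext.none)

def k0_A04pm_113_s1 : ∃ t, chk3 f_A04pm_113_s1 t 1 1 1 = true :=
  ⟨(l 6), by decide +kernel⟩

theorem c_A04pm_113_s1 : CertF 536870912 536870912 536870912 536870912 50331648 16777216 true true false .nn 1 1 3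
    ndF0q1 ndF4q1 pcF3 cut_A04pm_113_s1 Ext.none :=
  certFK1 (fam := true) (s1 := true) (s2 := false) (a := 1) (b := 1) (c := 3) (cn := .nn) (n1 := ndF0q1) (n2 := ndF4q1) (pc := pcF3) (cut := cut_A04pm_113_s1) (xt := Ext.none) (P1 := 536870912) (W1 := 536870912) (P2 := 536870912) (W2 := 536870912) (P3 := 50331648) (W3 := 16777216)
    rfl rfl rfl (fun _ => rfl) k0_A04pm_113_s1

theorem s_A04pm_113_s1 {κ x : ℝ} (hκ : κ * h0 = ken x) (hx : ((50331648 : ℕ) : ℝ) / S ≤ x)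
    (hx' : x ≤ (((50331648 : ℕ) : ℝ) + (16777216 : ℕ)) / S) :
    AltA (VF κ) PP tKF tL pcF [⟨3, 0, 0, 1449551462⟩] 1 1 3 0 4 (sgb true) (sgb false) x :=
  strip_altA (m := 1449551462) true rfl hκ covF01 covF41 hx hx' c_A04pm_113_s1 cutA_nil (noExt_A)

noncomputable def cut_A04pm_123_s1 : Cut := Cut.of [[⟨4, 0, 0, 1449551462⟩]]

noncomputable def f_A04pm_123_s1 : ℕ → ℕ → ℕ → ℕ → Bool := onCell 536870912 536870912 1073741824 536870912 50331648 16777216
    (rowFK 0 true true false .npn 1 2 3 (qsf 536870912 536870912 1073741824 536870912 3) ndF0q1 ndF4q2 pcF3 cut_A04pm_123_s1 Ext.none)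

def k0_A04pm_123_s1 : ∃ t, chk3 f_A04pm_123_s1 t 1 1 1 = true :=
  ⟨(l 6), by decide +kernel⟩

theorem c_A04pm_123_s1 : CertF 536870912 536870912 1073741824 536870912 50331648 16777216 true true false .npn 1 2 3
    ndF0q1 ndF4q2 pcF3 cut_A04pm_123_s1 Ext.none :=
  certFK0 (fam := true) (s1 := true) (s2 := false) (a := 1) (b := 2) (c := 3) (cn := .npn) (n1 := ndF0q1) (n2 := ndF4q2) (pc := pcF3) (cut := cut_A04pm_123_s1) (xt := Ext.none) (P1 := 536870912) (W1 := 536870912) (P2 := 1073741824) (W2 := 536870912) (P3 := 50331648) (W3 := 16777216)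
    rfl rfl rfl k0_A04pm_123_s1

theorem s_A04pm_123_s1 {κ x : ℝ} (hκ : κ * h0 = ken x) (hx : ((50331648 : ℕ) : ℝ) / S ≤ x)
    (hx' : x ≤ (((50331648 : ℕ) : ℝ) + (16777216 : ℕ)) / S) :
    AltA (VF κ) PP tKF tL pcF [⟨3, 0, 0, 1449551462⟩] 1 2 3 0 4 (sgb true) (sgb false) x :=
  strip_altA (m := 1449551462) true rfl hκ covF01 covF42 hx hx' c_A04pm_123_s1 cutA_nil (noExt_A)

noncomputable def cut_A04pm_133_s1 : Cut := Cut.of [[⟨4, 0, 0, 1449551462⟩]]

noncomputable def f_A04pm_133_s1 : ℕ → ℕ → ℕ → ℕ → Bool := onCell 536870912 536870912 0 1230186008 50331648 16777216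
    (rowFK 0 true true false .dn 1 3 3 (qsf 536870912 536870912 0 1230186008 3) ndF0q1 ndF4q3 pcF3 cut_A04pm_133_s1 Ext.none)

def k0_A04pm_133_s1 : ∃ t, chk3 f_A04pm_133_s1 t 1 1 1 = true :=
  ⟨(l 6), by decide +kernel⟩

theorem c_A04pm_133_s1 : CertF 536870912 536870912 0 1230186008 50331648 16777216 true true false .dn 1 3 3
    ndF0q1 ndF4q3 pcF3 cut_A04pm_133_s1 Ext.none :=
  certFK0 (fam := true) (s1 := true) (s2 := false) (a := 1) (b := 3) (c := 3) (cn := .dn) (n1 := ndF0q1) (n2 := ndF4q3) (pc := pcF3) (cut := cut_A04pm_133_s1) (xt := Ext.none) (P1 := 536870912) (W1 := 536870912) (P2 := 0) (W2 := 1230186008) (P3 := 50331648) (W3 := 16777216)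
    rfl rfl rfl k0_A04pm_133_s1

theorem s_A04pm_133_s1 {κ x : ℝ} (hκ : κ * h0 = ken x) (hx : ((50331648 : ℕ) : ℝ) / S ≤ x)
    (hx' : x ≤ (((50331648 : ℕ) : ℝ) + (16777216 : ℕ)) / S) :
    AltA (VF κ) PP tKF tL pcF [⟨3, 0, 0, 1449551462⟩] 1 3 3 0 4 (sgb true) (sgb false) x :=
  strip_altA (m := 1449551462) true rfl hκ covF01 covF43 hx hx' c_A04pm_133_s1 cutA_nil (noExt_A)

noncomputable def cut_A04pm_202_s1 : Cut := Cut.of [[⟨4, 0, 0, 1449551462⟩]]

noncomputable def f_A04pm_202_s1 : ℕ → ℕ → ℕ → ℕ → Bool := onCell 0 536870912 0 536870912 50331648 16777216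
    (rowFK 0 true true false .pp 2 0 2 (qsf 0 536870912 0 536870912 2) ndF0q2 ndF4q0 pcF2 cut_A04pm_202_s1 Ext.none)

def k0_A04pm_202_s1 : ∃ t, chk3 f_A04pm_202_s1 t 1 1 1 = true :=
  ⟨(l 6), by decide +kernel⟩

theorem c_A04pm_202_s1 : CertF 0 536870912 0 536870912 50331648 16777216 true true false .pp 2 0 2
    ndF0q2 ndF4q0 pcF2 cut_A04pm_202_s1 Ext.none :=
  certFK0 (fam := true) (s1 := true) (s2 := false) (a := 2) (b := 0) (c := 2) (cn := .pp) (n1 := ndF0q2) (n2 := ndF4q0) (pc := pcF2) (cut := cut_A04pm_202_s1) (xt := Ext.none) (P1 := 0) (W1 := 536870912) (P2 := 0) (W2 := 536870912) (P3 := 50331648) (W3 := 16777216)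
    rfl rfl rfl k0_A04pm_202_s1

theorem s_A04pm_202_s1 {κ x : ℝ} (hκ : κ * h0 = ken x) (hx : ((50331648 : ℕ) : ℝ) / S ≤ x)
    (hx' : x ≤ (((50331648 : ℕ) : ℝ) + (16777216 : ℕ)) / S) :
    AltA (VF κ) PP tKF tL pcF [⟨3, 0, 0, 1449551462⟩] 2 0 2 0 4 (sgb true) (sgb false) x :=
  strip_altA (m := 1449551462) true rfl hκ covF02 covF40 hx hx' c_A04pm_202_s1 cutA_nil (noExt_A)

noncomputable def cut_A04pm_203_s1 : Cut := Cut.of [[⟨4, 0, 0, 1449551462⟩]]

noncomputable def f_A04pm_203_s1 : ℕ → ℕ → ℕ → ℕ → Bool := onCell 0 536870912 0 536870912 50331648 16777216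
    (rowFK 0 true true false .up 2 0 3 (qsf 0 536870912 0 536870912 3) ndF0q2 ndF4q0 pcF3 cut_A04pm_203_s1 Ext.none)

def k0_A04pm_203_s1 : ∃ t, chk3 f_A04pm_203_s1 t 1 1 1 = true :=
  ⟨(l 6), by decide +kernel⟩

theorem c_A04pm_203_s1 : CertF 0 536870912 0 536870912 50331648 16777216 true true false .up 2 0 3
    ndF0q2 ndF4q0 pcF3 cut_A04pm_203_s1 Ext.none :=
  certFK0 (fam := true) (s1 := true) (s2 := false) (a := 2) (b := 0) (c := 3) (cn := .up) (n1 := ndF0q2) (n2 := ndF4q0) (pc := pcF3) (cut := cut_A04pm_203_s1) (xt := Ext.none) (P1 := 0) (W1 := 536870912) (P2 := 0) (W2 := 536870912) (P3 := 50331648) (W3 := 16777216)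
    rfl rfl rfl k0_A04pm_203_s1

theorem s_A04pm_203_s1 {κ x : ℝ} (hκ : κ * h0 = ken x) (hx : ((50331648 : ℕ) : ℝ) / S ≤ x)
    (hx' : x ≤ (((50331648 : ℕ) : ℝ) + (16777216 : ℕ)) / S) :
    AltA (VF κ) PP tKF tL pcF [⟨3, 0, 0, 1449551462⟩] 2 0 3 0 4 (sgb true) (sgb false) x :=
  strip_altA (m := 1449551462) true rfl hκ covF02 covF40 hx hx' c_A04pm_203_s1 cutA_nil (noExt_A)

noncomputable def cut_A04pm_213_s1 : Cut := Cut.of [[⟨4, 0, 0, 1449551462⟩]]

noncomputable def f_A04pm_213_s1 : ℕ → ℕ → ℕ → ℕ → Bool := onCell 0 536870912 536870912 536870912 50331648 16777216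
    (rowFK 0 true true false .pnn 2 1 3 (qsf 0 536870912 536870912 536870912 3) ndF0q2 ndF4q1 pcF3 cut_A04pm_213_s1 Ext.none)

def k0_A04pm_213_s1 : ∃ t, chk3 f_A04pm_213_s1 t 1 1 1 = true :=
  ⟨(l 6), by decide +kernel⟩

theorem c_A04pm_213_s1 : CertF 0 536870912 536870912 536870912 50331648 16777216 true true false .pnn 2 1 3
    ndF0q2 ndF4q1 pcF3 cut_A04pm_213_s1 Ext.none :=
  certFK0 (fam := true) (s1 := true) (s2 := false) (a := 2) (b := 1) (c := 3) (cn := .pnn) (n1 := ndF0q2) (n2 := ndF4q1) (pc := pcF3) (cut := cut_A04pm_213_s1) (xt := Ext.none) (P1 := 0) (W1 := 536870912) (P2 := 536870912) (W2 := 536870912) (P3 := 50331648) (W3 := 16777216)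
    rfl rfl rfl k0_A04pm_213_s1

theorem s_A04pm_213_s1 {κ x : ℝ} (hκ : κ * h0 = ken x) (hx : ((50331648 : ℕ) : ℝ) / S ≤ x)
    (hx' : x ≤ (((50331648 : ℕ) : ℝ) + (16777216 : ℕ)) / S) :
    AltA (VF κ) PP tKF tL pcF [⟨3, 0, 0, 1449551462⟩] 2 1 3 0 4 (sgb true) (sgb false) x :=
  strip_altA (m := 1449551462) true rfl hκ covF02 covF41 hx hx' c_A04pm_213_s1 cutA_nil (noExt_A)

noncomputable def cut_A04mm_001_s1 : Cut := Cut.of [[⟨4, 0, 0, 1449551462⟩]]

noncomputable def f_A04mm_001_s1 : ℕ → ℕ → ℕ → ℕ → Bool := onCell 0 536870912 0 536870912 50331648 16777216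
    (rowFK 0 true false false .up 0 0 1 (qsf 0 536870912 0 536870912 1) ndF0q0 ndF4q0 pcF1 cut_A04mm_001_s1 Ext.none)

def k0_A04mm_001_s1 : ∃ t, chk3 f_A04mm_001_s1 t 1 1 1 = true :=
  ⟨(l 4), by decide +kernel⟩

theorem c_A04mm_001_s1 : CertF 0 536870912 0 536870912 50331648 16777216 true false false .up 0 0 1
    ndF0q0 ndF4q0 pcF1 cut_A04mm_001_s1 Ext.none :=
  certFK0 (fam := true) (s1 := false) (s2 := false) (a := 0) (b := 0) (c := 1) (cn := .up) (n1 := ndF0q0) (n2 := ndF4q0) (pc := pcF1) (cut := cut_A04mm_001_s1) (xt := Ext.none) (P1 := 0) (W1 := 536870912) (P2 := 0) (W2 := 536870912) (P3 := 50331648) (W3 := 16777216)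
    rfl rfl rfl k0_A04mm_001_s1

theorem s_A04mm_001_s1 {κ x : ℝ} (hκ : κ * h0 = ken x) (hx : ((50331648 : ℕ) : ℝ) / S ≤ x)
    (hx' : x ≤ (((50331648 : ℕ) : ℝ) + (16777216 : ℕ)) / S) :
    AltA (VF κ) PP tKF tL pcF [⟨3, 0, 0, 1449551462⟩] 0 0 1 0 4 (sgb false) (sgb false) x :=
  strip_altA (m := 1449551462) true rfl hκ covF00 covF40 hx hx' c_A04mm_001_s1 cutA_nil (noExt_A)

noncomputable def cut_A04mm_011_s1 : Cut := Cut.of [[⟨4, 0, 0, 1449551462⟩]]

noncomputable def f_A04mm_011_s1 : ℕ → ℕ → ℕ → ℕ → Bool := onCell 0 536870912 536870912 536870912 50331648 16777216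
    (rowFK 0 true false false .pnn 0 1 1 (qsf 0 536870912 536870912 536870912 1) ndF0q0 ndF4q1 pcF1 cut_A04mm_011_s1 Ext.none)

def k0_A04mm_011_s1 : ∃ t, chk3 f_A04mm_011_s1 t 1 1 1 = true :=
  ⟨(l 4), by decide +kernel⟩

theorem c_A04mm_011_s1 : CertF 0 536870912 536870912 536870912 50331648 16777216 true false false .pnn 0 1 1
    ndF0q0 ndF4q1 pcF1 cut_A04mm_011_s1 Ext.none :=
  certFK0 (fam := true) (s1 := false) (s2 := false) (a := 0) (b := 1) (c := 1) (cn := .pnn) (n1 := ndF0q0) (n2 := ndF4q1) (pc := pcF1) (cut := cut_A04mm_011_s1) (xt := Ext.none) (P1 := 0) (W1 := 536870912) (P2 := 536870912) (W2 := 536870912) (P3 := 50331648) (W3 := 16777216)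
    rfl rfl rfl k0_A04mm_011_s1

theorem s_A04mm_011_s1 {κ x : ℝ} (hκ : κ * h0 = ken x) (hx : ((50331648 : ℕ) : ℝ) / S ≤ x)
    (hx' : x ≤ (((50331648 : ℕ) : ℝ) + (16777216 : ℕ)) / S) :
    AltA (VF κ) PP tKF tL pcF [⟨3, 0, 0, 1449551462⟩] 0 1 1 0 4 (sgb false) (sgb false) x :=
  strip_altA (m := 1449551462) true rfl hκ covF00 covF41 hx hx' c_A04mm_011_s1 cutA_nil (noExt_A)

noncomputable def cut_A04mm_012_s1 : Cut := Cut.of [[⟨4, 0, 0, 1449551462⟩]]

noncomputable def f_A04mm_012_s1 : ℕ → ℕ → ℕ → ℕ → Bool := onCell 0 536870912 536870912 536870912 50331648 16777216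
    (rowFK 0 true false false .pnp 0 1 2 (qsf 0 536870912 536870912 536870912 2) ndF0q0 ndF4q1 pcF2 cut_A04mm_012_s1 Ext.none)

def k0_A04mm_012_s1 : ∃ t, chk3 f_A04mm_012_s1 t 1 1 1 = true :=
  ⟨(l 4), by decide +kernel⟩

theorem c_A04mm_012_s1 : CertF 0 536870912 536870912 536870912 50331648 16777216 true false false .pnp 0 1 2
    ndF0q0 ndF4q1 pcF2 cut_A04mm_012_s1 Ext.none :=
  certFK0 (fam := true) (s1 := false) (s2 := false) (a := 0) (b := 1) (c := 2) (cn := .pnp) (n1 := ndF0q0) (n2 := ndF4q1) (pc := pcF2) (cut := cut_A04mm_012_s1) (xt := Ext.none) (P1 := 0) (W1 := 536870912) (P2 := 536870912) (W2 := 536870912) (P3 := 50331648) (W3 := 16777216)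
    rfl rfl rfl k0_A04mm_012_s1

theorem s_A04mm_012_s1 {κ x : ℝ} (hκ : κ * h0 = ken x) (hx : ((50331648 : ℕ) : ℝ) / S ≤ x)
    (hx' : x ≤ (((50331648 : ℕ) : ℝ) + (16777216 : ℕ)) / S) :
    AltA (VF κ) PP tKF tL pcF [⟨3, 0, 0, 1449551462⟩] 0 1 2 0 4 (sgb false) (sgb false) x :=
  strip_altA (m := 1449551462) true rfl hκ covF00 covF41 hx hx' c_A04mm_012_s1 cutA_nil (noExt_A)

noncomputable def cut_A04mm_022_s1 : Cut := Cut.of [[⟨4, 0, 0, 1449551462⟩]]

noncomputable def f_A04mm_022_s1 : ℕ → ℕ → ℕ → ℕ → Bool := onCell 0 536870912 1073741824 536870912 50331648 16777216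
    (rowFK 0 true false false .pp 0 2 2 (qsf 0 536870912 1073741824 536870912 2) ndF0q0 ndF4q2 pcF2 cut_A04mm_022_s1 Ext.none)

def k0_A04mm_022_s1 : ∃ t, chk3 f_A04mm_022_s1 t 1 1 1 = true :=
  ⟨(l 4), by decide +kernel⟩

theorem c_A04mm_022_s1 : CertF 0 536870912 1073741824 536870912 50331648 16777216 true false false .pp 0 2 2
    ndF0q0 ndF4q2 pcF2 cut_A04mm_022_s1 Ext.none :=
  certFK0 (fam := true) (s1 := false) (s2 := false) (a := 0) (b := 2) (c := 2) (cn := .pp) (n1 := ndF0q0) (n2 := ndF4q2) (pc := pcF2) (cut := cut_A04mm_022_s1) (xt := Ext.none) (P1 := 0) (W1 := 536870912) (P2 := 1073741824) (W2 := 536870912) (P3 := 50331648) (W3 := 16777216)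
    rfl rfl rfl k0_A04mm_022_s1

theorem s_A04mm_022_s1 {κ x : ℝ} (hκ : κ * h0 = ken x) (hx : ((50331648 : ℕ) : ℝ) / S ≤ x)
    (hx' : x ≤ (((50331648 : ℕ) : ℝ) + (16777216 : ℕ)) / S) :
    AltA (VF κ) PP tKF tL pcF [⟨3, 0, 0, 1449551462⟩] 0 2 2 0 4 (sgb false) (sgb false) x :=
  strip_altA (m := 1449551462) true rfl hκ covF00 covF42 hx hx' c_A04mm_022_s1 cutA_nil (noExt_A)

noncomputable def cut_A04mm_023_s1 : Cut := Cut.of [[⟨4, 0, 0, 1449551462⟩]]

noncomputable def f_A04mm_023_s1 : ℕ → ℕ → ℕ → ℕ → Bool := onCell 0 536870912 1073741824 536870912 50331648 16777216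
    (rowFK 0 true false false .up 0 2 3 (qsf 0 536870912 1073741824 536870912 3) ndF0q0 ndF4q2 pcF3 cut_A04mm_023_s1 Ext.none)

def k0_A04mm_023_s1 : ∃ t, chk3 f_A04mm_023_s1 t 1 1 1 = true :=
  ⟨(l 4), by decide +kernel⟩

theorem c_A04mm_023_s1 : CertF 0 536870912 1073741824 536870912 50331648 16777216 true false false .up 0 2 3
    ndF0q0 ndF4q2 pcF3 cut_A04mm_023_s1 Ext.none :=
  certFK0 (fam := true) (s1 := false) (s2 := false) (a := 0) (b := 2) (c := 3) (cn := .up) (n1 := ndF0q0) (n2 := ndF4q2) (pc := pcF3) (cut := cut_A04mm_023_s1) (xt := Ext.none) (P1 := 0) (W1 := 536870912) (P2 := 1073741824) (W2 := 536870912) (P3 := 50331648) (W3 := 16777216)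
    rfl rfl rfl k0_A04mm_023_s1

theorem s_A04mm_023_s1 {κ x : ℝ} (hκ : κ * h0 = ken x) (hx : ((50331648 : ℕ) : ℝ) / S ≤ x)
    (hx' : x ≤ (((50331648 : ℕ) : ℝ) + (16777216 : ℕ)) / S) :
    AltA (VF κ) PP tKF tL pcF [⟨3, 0, 0, 1449551462⟩] 0 2 3 0 4 (sgb false) (sgb false) x :=
  strip_altA (m := 1449551462) true rfl hκ covF00 covF42 hx hx' c_A04mm_023_s1 cutA_nil (noExt_A)

noncomputable def cut_A04mm_033_s1 : Cut := Cut.of [[⟨4, 0, 0, 1449551462⟩]]

noncomputable def f_A04mm_033_s1 : ℕ → ℕ → ℕ → ℕ → Bool := onCell 0 536870912 0 1230186008 50331648 16777216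
    (rowFK 0 true false false .pnn 0 3 3 (qsf 0 536870912 0 1230186008 3) ndF0q0 ndF4q3 pcF3 cut_A04mm_033_s1 Ext.none)

def k0_A04mm_033_s1 : ∃ t, chk3 f_A04mm_033_s1 t 1 1 1 = true :=
  ⟨(l 4), by decide +kernel⟩

theorem c_A04mm_033_s1 : CertF 0 536870912 0 1230186008 50331648 16777216 true false false .pnn 0 3 3
    ndF0q0 ndF4q3 pcF3 cut_A04mm_033_s1 Ext.none :=
  certFK0 (fam := true) (s1 := false) (s2 := false) (a := 0) (b := 3) (c := 3) (cn := .pnn) (n1 := ndF0q0) (n2 := ndF4q3) (pc := pcF3) (cut := cut_A04mm_033_s1) (xt := Ext.none) (P1 := 0) (W1 := 536870912) (P2 := 0) (W2 := 1230186008) (P3 := 50331648) (W3 := 16777216)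
    rfl rfl rfl k0_A04mm_033_s1

theorem s_A04mm_033_s1 {κ x : ℝ} (hκ : κ * h0 = ken x) (hx : ((50331648 : ℕ) : ℝ) / S ≤ x)
    (hx' : x ≤ (((50331648 : ℕ) : ℝ) + (16777216 : ℕ)) / S) :
    AltA (VF κ) PP tKF tL pcF [⟨3, 0, 0, 1449551462⟩] 0 3 3 0 4 (sgb false) (sgb false) x :=
  strip_altA (m := 1449551462) true rfl hκ covF00 covF43 hx hx' c_A04mm_033_s1 cutA_nil (noExt_A)

noncomputable def cut_A04mm_101_s1 : Cut := Cut.of [[⟨4, 0, 0, 1449551462⟩]]

noncomputable def f_A04mm_101_s1 : ℕ → ℕ → ℕ → ℕ → Bool := onCell 536870912 536870912 0 536870912 50331648 16777216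
    (rowFK 0 true false false .npn 1 0 1 (qsf 536870912 536870912 0 536870912 1) ndF0q1 ndF4q0 pcF1 cut_A04mm_101_s1 Ext.none)

def k0_A04mm_101_s1 : ∃ t, chk3 f_A04mm_101_s1 t 1 1 1 = true :=
  ⟨(l 4), by decide +kernel⟩

theorem c_A04mm_101_s1 : CertF 536870912 536870912 0 536870912 50331648 16777216 true false false .npn 1 0 1
    ndF0q1 ndF4q0 pcF1 cut_A04mm_101_s1 Ext.none :=
  certFK0 (fam := true) (s1 := false) (s2 := false) (a := 1) (b := 0) (c := 1) (cn := .npn) (n1 := ndF0q1) (n2 := ndF4q0) (pc := pcF1) (cut := cut_A04mm_101_s1) (xt := Ext.none) (P1 := 536870912) (W1 := 536870912) (P2 := 0) (W2 := 536870912) (P3 := 50331648) (W3 := 16777216)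
    rfl rfl rfl k0_A04mm_101_s1

theorem s_A04mm_101_s1 {κ x : ℝ} (hκ : κ * h0 = ken x) (hx : ((50331648 : ℕ) : ℝ) / S ≤ x)
    (hx' : x ≤ (((50331648 : ℕ) : ℝ) + (16777216 : ℕ)) / S) :
    AltA (VF κ) PP tKF tL pcF [⟨3, 0, 0, 1449551462⟩] 1 0 1 0 4 (sgb false) (sgb false) x :=
  strip_altA (m := 1449551462) true rfl hκ covF01 covF40 hx hx' c_A04mm_101_s1 cutA_nil (noExt_A)

noncomputable def cut_A04mm_102_s1 : Cut := Cut.of [[⟨4, 0, 0, 1449551462⟩]]

noncomputable def f_A04mm_102_s1 : ℕ → ℕ → ℕ → ℕ → Bool := onCell 536870912 536870912 0 536870912 50331648 16777216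
    (rowFK 0 true false false .npp 1 0 2 (qsf 536870912 536870912 0 536870912 2) ndF0q1 ndF4q0 pcF2 cut_A04mm_102_s1 Ext.none)

def k0_A04mm_102_s1 : ∃ t, chk3 f_A04mm_102_s1 t 1 1 1 = true :=
  ⟨(l 4), by decide +kernel⟩

theorem c_A04mm_102_s1 : CertF 536870912 536870912 0 536870912 50331648 16777216 true false false .npp 1 0 2
    ndF0q1 ndF4q0 pcF2 cut_A04mm_102_s1 Ext.none :=
  certFK0 (fam := true) (s1 := false) (s2 := false) (a := 1) (b := 0) (c := 2) (cn := .npp) (n1 := ndF0q1) (n2 := ndF4q0) (pc := pcF2) (cut := cut_A04mm_102_s1) (xt := Ext.none) (P1 := 536870912) (W1 := 536870912) (P2 := 0) (W2 := 536870912) (P3 := 50331648) (W3 := 16777216)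
    rfl rfl rfl k0_A04mm_102_s1

theorem s_A04mm_102_s1 {κ x : ℝ} (hκ : κ * h0 = ken x) (hx : ((50331648 : ℕ) : ℝ) / S ≤ x)
    (hx' : x ≤ (((50331648 : ℕ) : ℝ) + (16777216 : ℕ)) / S) :
    AltA (VF κ) PP tKF tL pcF [⟨3, 0, 0, 1449551462⟩] 1 0 2 0 4 (sgb false) (sgb false) x :=
  strip_altA (m := 1449551462) true rfl hκ covF01 covF40 hx hx' c_A04mm_102_s1 cutA_nil (noExt_A)

noncomputable def cut_A04mm_112_s1 : Cut := Cut.of [[⟨4, 0, 0, 1449551462⟩]]

noncomputable def f_A04mm_112_s1 : ℕ → ℕ → ℕ → ℕ → Bool := onCell 536870912 536870912 536870912 536870912 50331648 16777216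
    (rowFK 0 true false false .dn 1 1 2 (qsf 536870912 536870912 536870912 536870912 2) ndF0q1 ndF4q1 pcF2 cut_A04mm_112_s1 Ext.none)

def k0_A04mm_112_s1 : ∃ t, chk3 f_A04mm_112_s1 t 1 1 1 = true :=
  ⟨(l 4), by decide +kernel⟩

theorem c_A04mm_112_s1 : CertF 536870912 536870912 536870912 536870912 50331648 16777216 true false false .dn 1 1 2
    ndF0q1 ndF4q1 pcF2 cut_A04mm_112_s1 Ext.none :=
  certFK0 (fam := true) (s1 := false) (s2 := false) (a := 1) (b := 1) (c := 2) (cn := .dn) (n1 := ndF0q1) (n2 := ndF4q1) (pc := pcF2) (cut := cut_A04mm_112_s1) (xt := Ext.none) (P1 := 536870912) (W1 := 536870912) (P2 := 536870912) (W2 := 536870912) (P3 := 50331648) (W3 := 16777216)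
    rfl rfl rfl k0_A04mm_112_s1

theorem s_A04mm_112_s1 {κ x : ℝ} (hκ : κ * h0 = ken x) (hx : ((50331648 : ℕ) : ℝ) / S ≤ x)
    (hx' : x ≤ (((50331648 : ℕ) : ℝ) + (16777216 : ℕ)) / S) :
    AltA (VF κ) PP tKF tL pcF [⟨3, 0, 0, 1449551462⟩] 1 1 2 0 4 (sgb false) (sgb false) x :=
  strip_altA (m := 1449551462) true rfl hκ covF01 covF41 hx hx' c_A04mm_112_s1 cutA_nil (noExt_A)

noncomputable def cut_A04mm_113_s1 : Cut := Cut.of [[⟨4, 0, 0, 1449551462⟩]]

noncomputable def f_A04mm_113_s1 : ℕ → ℕ → ℕ → ℕ → Bool := onCell 536870912 536870912 536870912 536870912 50331648 16777216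
    (rowFK 0 true false false .nn 1 1 3 (qsf 536870912 536870912 536870912 536870912 3) ndF0q1 ndF4q1 pcF3 cut_A04mm_113_s1 Ext.none)

def k0_A04mm_113_s1 : ∃ t, chk3 f_A04mm_113_s1 t 1 1 1 = true :=
  ⟨(l 4), by decide +kernel⟩

theorem c_A04mm_113_s1 : CertF 536870912 536870912 536870912 536870912 50331648 16777216 true false false .nn 1 1 3
    ndF0q1 ndF4q1 pcF3 cut_A04mm_113_s1 Ext.none :=
  certFK0 (fam := true) (s1 := false) (s2 := false) (a := 1) (b := 1) (c := 3) (cn := .nn) (n1 := ndF0q1) (n2 := ndF4q1) (pc := pcF3) (cut := cut_A04mm_113_s1) (xt := Ext.none) (P1 := 536870912) (W1 := 536870912) (P2 := 536870912) (W2 := 536870912) (P3 := 50331648) (W3 := 16777216)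
    rfl rfl rfl k0_A04mm_113_s1

theorem s_A04mm_113_s1 {κ x : ℝ} (hκ : κ * h0 = ken x) (hx : ((50331648 : ℕ) : ℝ) / S ≤ x)
    (hx' : x ≤ (((50331648 : ℕ) : ℝ) + (16777216 : ℕ)) / S) :
    AltA (VF κ) PP tKF tL pcF [⟨3, 0, 0, 1449551462⟩] 1 1 3 0 4 (sgb false) (sgb false) x :=
  strip_altA (m := 1449551462) true rfl hκ covF01 covF41 hx hx' c_A04mm_113_s1 cutA_nil (noExt_A)

noncomputable def cut_A04mm_123_s1 : Cut := Cut.of [[⟨4, 0, 0, 1449551462⟩]]

noncomputable def f_A04mm_123_s1 : ℕ → ℕ → ℕ → ℕ → Bool := onCell 536870912 536870912 1073741824 536870912 50331648 16777216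
    (rowFK 0 true false false .npn 1 2 3 (qsf 536870912 536870912 1073741824 536870912 3) ndF0q1 ndF4q2 pcF3 cut_A04mm_123_s1 Ext.none)

def k0_A04mm_123_s1 : ∃ t, chk3 f_A04mm_123_s1 t 1 1 1 = true :=
  ⟨(l 4), by decide +kernel⟩

theorem c_A04mm_123_s1 : CertF 536870912 536870912 1073741824 536870912 50331648 16777216 true false false .npn 1 2 3
    ndF0q1 ndF4q2 pcF3 cut_A04mm_123_s1 Ext.none :=
  certFK0 (fam := true) (s1 := false) (s2 := false) (a := 1) (b := 2) (c := 3) (cn := .npn) (n1 := ndF0q1) (n2 := ndF4q2) (pc := pcF3) (cut := cut_A04mm_123_s1) (xt := Ext.none) (P1 := 536870912) (W1 := 536870912) (P2 := 1073741824) (W2 := 536870912) (P3 := 50331648) (W3 := 16777216)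
    rfl rfl rfl k0_A04mm_123_s1

theorem s_A04mm_123_s1 {κ x : ℝ} (hκ : κ * h0 = ken x) (hx : ((50331648 : ℕ) : ℝ) / S ≤ x)
    (hx' : x ≤ (((50331648 : ℕ) : ℝ) + (16777216 : ℕ)) / S) :
    AltA (VF κ) PP tKF tL pcF [⟨3, 0, 0, 1449551462⟩] 1 2 3 0 4 (sgb false) (sgb false) x :=
  strip_altA (m := 1449551462) true rfl hκ covF01 covF42 hx hx' c_A04mm_123_s1 cutA_nil (noExt_A)

noncomputable def cut_A04mm_133_s1 : Cut := Cut.of [[⟨4, 0, 0, 1449551462⟩]]

noncomputable def f_A04mm_133_s1 : ℕ → ℕ → ℕ → ℕ → Bool := onCell 536870912 536870912 0 1230186008 50331648 16777216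
    (rowFK 0 true false false .dn 1 3 3 (qsf 536870912 536870912 0 1230186008 3) ndF0q1 ndF4q3 pcF3 cut_A04mm_133_s1 Ext.none)

def k0_A04mm_133_s1 : ∃ t, chk3 f_A04mm_133_s1 t 1 1 1 = true :=
  ⟨(l 4), by decide +kernel⟩

theorem c_A04mm_133_s1 : CertF 536870912 536870912 0 1230186008 50331648 16777216 true false false .dn 1 3 3
    ndF0q1 ndF4q3 pcF3 cut_A04mm_133_s1 Ext.none :=
  certFK0 (fam := true) (s1 := false) (s2 := false) (a := 1) (b := 3) (c := 3) (cn := .dn) (n1 := ndF0q1) (n2 := ndF4q3) (pc := pcF3) (cut := cut_A04mm_133_s1) (xt := Ext.none) (P1 := 536870912) (W1 := 536870912) (P2 := 0) (W2 := 1230186008) (P3 := 50331648) (W3 := 16777216)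
    rfl rfl rfl k0_A04mm_133_s1

theorem s_A04mm_133_s1 {κ x : ℝ} (hκ : κ * h0 = ken x) (hx : ((50331648 : ℕ) : ℝ) / S ≤ x)
    (hx' : x ≤ (((50331648 : ℕ) : ℝ) + (16777216 : ℕ)) / S) :
    AltA (VF κ) PP tKF tL pcF [⟨3, 0, 0, 1449551462⟩] 1 3 3 0 4 (sgb false) (sgb false) x :=
  strip_altA (m := 1449551462) true rfl hκ covF01 covF43 hx hx' c_A04mm_133_s1 cutA_nil (noExt_A)

noncomputable def cut_A04mm_202_s1 : Cut := Cut.of [[⟨4, 0, 0, 1449551462⟩]]

noncomputable def f_A04mm_202_s1 : ℕ → ℕ → ℕ → ℕ → Bool := onCell 0 536870912 0 536870912 50331648 16777216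
    (rowFK 0 true false false .pp 2 0 2 (qsf 0 536870912 0 536870912 2) ndF0q2 ndF4q0 pcF2 cut_A04mm_202_s1 Ext.none)

def k0_A04mm_202_s1 : ∃ t, chk3 f_A04mm_202_s1 t 1 1 1 = true :=
  ⟨(l 4), by decide +kernel⟩

theorem c_A04mm_202_s1 : CertF 0 536870912 0 536870912 50331648 16777216 true false false .pp 2 0 2
    ndF0q2 ndF4q0 pcF2 cut_A04mm_202_s1 Ext.none :=
  certFK0 (fam := true) (s1 := false) (s2 := false) (a := 2) (b := 0) (c := 2) (cn := .pp) (n1 := ndF0q2) (n2 := ndF4q0) (pc := pcF2) (cut := cut_A04mm_202_s1) (xt := Ext.none) (P1 := 0) (W1 := 536870912) (P2 := 0) (W2 := 536870912) (P3 := 50331648) (W3 := 16777216)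
    rfl rfl rfl k0_A04mm_202_s1

theorem s_A04mm_202_s1 {κ x : ℝ} (hκ : κ * h0 = ken x) (hx : ((50331648 : ℕ) : ℝ) / S ≤ x)
    (hx' : x ≤ (((50331648 : ℕ) : ℝ) + (16777216 : ℕ)) / S) :
    AltA (VF κ) PP tKF tL pcF [⟨3, 0, 0, 1449551462⟩] 2 0 2 0 4 (sgb false) (sgb false) x :=
  strip_altA (m := 1449551462) true rfl hκ covF02 covF40 hx hx' c_A04mm_202_s1 cutA_nil (noExt_A)

noncomputable def cut_A04mm_203_s1 : Cut := Cut.of [[⟨4, 0, 0, 1449551462⟩]]

noncomputable def f_A04mm_203_s1 : ℕ → ℕ → ℕ → ℕ → Bool := onCell 0 536870912 0 536870912 50331648 16777216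
    (rowFK 0 true false false .up 2 0 3 (qsf 0 536870912 0 536870912 3) ndF0q2 ndF4q0 pcF3 cut_A04mm_203_s1 Ext.none)

def k0_A04mm_203_s1 : ∃ t, chk3 f_A04mm_203_s1 t 1 1 1 = true :=
  ⟨(l 4), by decide +kernel⟩

theorem c_A04mm_203_s1 : CertF 0 536870912 0 536870912 50331648 16777216 true false false .up 2 0 3
    ndF0q2 ndF4q0 pcF3 cut_A04mm_203_s1 Ext.none :=
  certFK0 (fam := true) (s1 := false) (s2 := false) (a := 2) (b := 0) (c := 3) (cn := .up) (n1 := ndF0q2) (n2 := ndF4q0) (pc := pcF3) (cut := cut_A04mm_203_s1) (xt := Ext.none) (P1 := 0) (W1 := 536870912) (P2 := 0) (W2 := 536870912) (P3 := 50331648) (W3 := 16777216)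
    rfl rfl rfl k0_A04mm_203_s1

theorem s_A04mm_203_s1 {κ x : ℝ} (hκ : κ * h0 = ken x) (hx : ((50331648 : ℕ) : ℝ) / S ≤ x)
    (hx' : x ≤ (((50331648 : ℕ) : ℝ) + (16777216 : ℕ)) / S) :
    AltA (VF κ) PP tKF tL pcF [⟨3, 0, 0, 1449551462⟩] 2 0 3 0 4 (sgb false) (sgb false) x :=
  strip_altA (m := 1449551462) true rfl hκ covF02 covF40 hx hx' c_A04mm_203_s1 cutA_nil (noExt_A)

noncomputable def cut_A04mm_213_s1 : Cut := Cut.of [[⟨4, 0, 0, 1449551462⟩]]

noncomputable def f_A04mm_213_s1 : ℕ → ℕ → ℕ → ℕ → Bool := onCell 0 536870912 536870912 536870912 50331648 16777216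
    (rowFK 0 true false false .pnn 2 1 3 (qsf 0 536870912 536870912 536870912 3) ndF0q2 ndF4q1 pcF3 cut_A04mm_213_s1 Ext.none)

def k0_A04mm_213_s1 : ∃ t, chk3 f_A04mm_213_s1 t 1 1 1 = true :=
  ⟨(l 4), by decide +kernel⟩

theorem c_A04mm_213_s1 : CertF 0 536870912 536870912 536870912 50331648 16777216 true false false .pnn 2 1 3
    ndF0q2 ndF4q1 pcF3 cut_A04mm_213_s1 Ext.none :=
  certFK0 (fam := true) (s1 := false) (s2 := false) (a := 2) (b := 1) (c := 3) (cn := .pnn) (n1 := ndF0q2) (n2 := ndF4q1) (pc := pcF3) (cut := cut_A04mm_213_s1) (xt := Ext.none) (P1 := 0) (W1 := 536870912) (P2 := 536870912) (W2 := 536870912) (P3 := 50331648) (W3 := 16777216)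
    rfl rfl rfl k0_A04mm_213_s1

theorem s_A04mm_213_s1 {κ x : ℝ} (hκ : κ * h0 = ken x) (hx : ((50331648 : ℕ) : ℝ) / S ≤ x)
    (hx' : x ≤ (((50331648 : ℕ) : ℝ) + (16777216 : ℕ)) / S) :
    AltA (VF κ) PP tKF tL pcF [⟨3, 0, 0, 1449551462⟩] 2 1 3 0 4 (sgb false) (sgb false) x :=
  strip_altA (m := 1449551462) true rfl hκ covF02 covF41 hx hx' c_A04mm_213_s1 cutA_nil (noExt_A)

noncomputable def cut_B00pp_001_s1 : Cut := Cut.of [[⟨4, 0, 0, 1449551462⟩]]

noncomputable def f_B00pp_001_s1 : ℕ → ℕ → ℕ → ℕ → Bool := onCell 0 536870912 0 536870912 50331648 16777216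
    (rowFK 1 false true true .up 0 0 1 (qsf 0 536870912 536870912 536870912 0) ndF0q0 ndF0q1 pcF0 cut_B00pp_001_s1 Ext.none)

def k0_B00pp_001_s1 : ∃ t, chk3 f_B00pp_001_s1 t 1 1 1 = true :=
  ⟨(l 3), by decide +kernel⟩

theorem c_B00pp_001_s1 : CertF 0 536870912 536870912 536870912 50331648 16777216 false true true .up 0 0 1
    ndF0q0 ndF0q1 pcF0 cut_B00pp_001_s1 Ext.none :=
  certFK1 (fam := false) (s1 := true) (s2 := true) (a := 0) (b := 0) (c := 1) (cn := .up) (n1 := ndF0q0) (n2 := ndF0q1) (pc := pcF0) (cut := cut_B00pp_001_s1) (xt := Ext.none) (P1 := 0) (W1 := 536870912) (P2 := 536870912) (W2 := 536870912) (P3 := 50331648) (W3 := 16777216)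
    rfl rfl rfl (fun _ => rfl) k0_B00pp_001_s1

theorem s_B00pp_001_s1 {κ x : ℝ} (hκ : κ * h0 = ken x) (hx : ((50331648 : ℕ) : ℝ) / S ≤ x)
    (hx' : x ≤ (((50331648 : ℕ) : ℝ) + (16777216 : ℕ)) / S) :
    AltB (VF κ) PP tKF tL pcF [⟨3, 0, 0, 1449551462⟩] 0 0 1 0 0 (sgb true) (sgb true) x :=
  strip_altB (m := 1449551462) true rfl hκ covF00 covF01 hx hx' c_B00pp_001_s1 cutB_nil (noExt_B)

noncomputable def cut_B00pp_001_s3 : Cut := Cut.of [[⟨3, 0, 0, 2845415833⟩]]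

noncomputable def f_B00pp_001_s3 : ℕ → ℕ → ℕ → ℕ → Bool := onCell 0 536870912 536870912 536870912 50331648 16777216
    (rowFK 0 false true true .up 0 0 1 (qsf 0 536870912 536870912 536870912 0) ndF0q0 ndF0q1 pcF0 cut_B00pp_001_s3 Ext.none)

def k0_B00pp_001_s3 : ∃ t, chk3 f_B00pp_001_s3 t 1 1 1 = true :=
  ⟨(l 6), by decide +kernel⟩

theorem c_B00pp_001_s3 : CertF 0 536870912 536870912 536870912 50331648 16777216 false true true .up 0 0 1
    ndF0q0 ndF0q1 pcF0 cut_B00pp_001_s3 Ext.none :=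
  certFK0 (fam := false) (s1 := true) (s2 := true) (a := 0) (b := 0) (c := 1) (cn := .up) (n1 := ndF0q0) (n2 := ndF0q1) (pc := pcF0) (cut := cut_B00pp_001_s3) (xt := Ext.none) (P1 := 0) (W1 := 536870912) (P2 := 536870912) (W2 := 536870912) (P3 := 50331648) (W3 := 16777216)
    rfl rfl rfl k0_B00pp_001_s3

theorem s_B00pp_001_s3 {κ x : ℝ} (hκ : κ * h0 = ken x) (hx : ((50331648 : ℕ) : ℝ) / S ≤ x)
    (hx' : x ≤ (((50331648 : ℕ) : ℝ) + (16777216 : ℕ)) / S) :
    AltB (VF κ) PP tKF tL pcF [⟨4, 0, 0, 2845415833⟩] 0 0 1 0 0 (sgb true) (sgb true) x :=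
  strip_altB (m := 2845415833) false rfl hκ covF00 covF01 hx hx' c_B00pp_001_s3 cutB_nil (noExt_B)

noncomputable def cut_B00pp_011_s1 : Cut := Cut.of [[⟨4, 0, 0, 1449551462⟩], [⟨0, 0, 0, 50331648⟩, ⟨1, 1, 0, 50331648⟩, ⟨2, 1, 0, 50331648⟩]]

noncomputable def f_B00pp_011_s1 : ℕ → ℕ → ℕ → ℕ → Bool := onCell 536870912 536870912 536870912 536870912 50331648 16777216
    (rowFK 2 false true true .pnn 0 1 1 (qsf 0 536870912 536870912 536870912 1) ndF0q0 ndF0q1 pcF1 cut_B00pp_011_s1 Ext.none)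

def k0_B00pp_011_s1 : ∃ t, chk3 f_B00pp_011_s1 t 1 1 1 = true :=
  ⟨(a (l 3) (b (l 3) (a (l 3) (b (l 3) (b (l 3) (a (l 3) (b (l 3) (a (l 3) (l 14))))))))), by decide +kernel⟩

theorem c_B00pp_011_s1 : CertF 0 536870912 536870912 536870912 50331648 16777216 false true true .pnn 0 1 1
    ndF0q0 ndF0q1 pcF1 cut_B00pp_011_s1 Ext.none :=
  certFK2 (fam := false) (s1 := true) (s2 := true) (a := 0) (b := 1) (c := 1) (cn := .pnn) (n1 := ndF0q0) (n2 := ndF0q1) (pc := pcF1) (cut := cut_B00pp_011_s1) (xt := Ext.none) (P1 := 0) (W1 := 536870912) (P2 := 536870912) (W2 := 536870912) (P3 := 50331648) (W3 := 16777216)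
    rfl rfl rfl (fun _ => rfl) k0_B00pp_011_s1

theorem s_B00pp_011_s1 {κ x : ℝ} (hκ : κ * h0 = ken x) (hx : ((50331648 : ℕ) : ℝ) / S ≤ x)
    (hx' : x ≤ (((50331648 : ℕ) : ℝ) + (16777216 : ℕ)) / S)
    (H : CutB (VF κ) PP tKF tL pcF (Cut.of [[⟨0, 0, 0, 50331648⟩, ⟨1, 1, 0, 50331648⟩, ⟨2, 1, 0, 50331648⟩]]) 0 1 1 0 0 (sgb true) (sgb true) x) :
    AltB (VF κ) PP tKF tL pcF [⟨3, 0, 0, 1449551462⟩] 0 1 1 0 0 (sgb true) (sgb true) x :=
  strip_altB (m := 1449551462) true rfl hκ covF00 covF01 hx hx' c_B00pp_011_s1 H (noExt_B)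

noncomputable def cut_B00pp_011_s3 : Cut := Cut.of [[⟨3, 0, 0, 2845415833⟩], [⟨0, 0, 0, 50331648⟩, ⟨1, 1, 0, 50331648⟩, ⟨2, 1, 0, 50331648⟩]]

noncomputable def f_B00pp_011_s3 : ℕ → ℕ → ℕ → ℕ → Bool := onCell 0 536870912 536870912 536870912 50331648 16777216
    (rowFK 0 false true true .pnn 0 1 1 (qsf 0 536870912 536870912 536870912 1) ndF0q0 ndF0q1 pcF1 cut_B00pp_011_s3 Ext.none)

def k0_B00pp_011_s3 : ∃ t, chk3 f_B00pp_011_s3 t 1 1 1 = true :=
  ⟨(l 6), by decide +kernel⟩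

theorem c_B00pp_011_s3 : CertF 0 536870912 536870912 536870912 50331648 16777216 false true true .pnn 0 1 1
    ndF0q0 ndF0q1 pcF1 cut_B00pp_011_s3 Ext.none :=
  certFK0 (fam := false) (s1 := true) (s2 := true) (a := 0) (b := 1) (c := 1) (cn := .pnn) (n1 := ndF0q0) (n2 := ndF0q1) (pc := pcF1) (cut := cut_B00pp_011_s3) (xt := Ext.none) (P1 := 0) (W1 := 536870912) (P2 := 536870912) (W2 := 536870912) (P3 := 50331648) (W3 := 16777216)
    rfl rfl rfl k0_B00pp_011_s3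

theorem s_B00pp_011_s3 {κ x : ℝ} (hκ : κ * h0 = ken x) (hx : ((50331648 : ℕ) : ℝ) / S ≤ x)
    (hx' : x ≤ (((50331648 : ℕ) : ℝ) + (16777216 : ℕ)) / S)
    (H : CutB (VF κ) PP tKF tL pcF (Cut.of [[⟨0, 0, 0, 50331648⟩, ⟨1, 1, 0, 50331648⟩, ⟨2, 1, 0, 50331648⟩]]) 0 1 1 0 0 (sgb true) (sgb true) x) :
    AltB (VF κ) PP tKF tL pcF [⟨4, 0, 0, 2845415833⟩] 0 1 1 0 0 (sgb true) (sgb true) x :=
  strip_altB (m := 2845415833) false rfl hκ covF00 covF01 hx hx' c_B00pp_011_s3 H (noExt_B)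

noncomputable def cut_B00pp_012_s1 : Cut := Cut.of [[⟨4, 0, 0, 1449551462⟩], [⟨0, 0, 0, 12582912⟩, ⟨1, 1, 0, 12582912⟩, ⟨2, 1, 0, 12582912⟩]]

noncomputable def xt_B00pp_012_s1 : Ext := strExt dd false true true .u0 .u2 .u0m .pnp 0 1 2 rfl rfl gf1 vv ndF0q0 ndF0q2

noncomputable def f_B00pp_012_s1 : ℕ → ℕ → ℕ → ℕ → Bool := onCell 0 536870912 0 536870912 50331648 16777216
    (rowFK 0 false true true .pnp 0 1 2 (qsf 0 536870912 0 536870912 1) ndF0q0 ndF0q2 pcF1 cut_B00pp_012_s1 xt_B00pp_012_s1)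

def k0_B00pp_012_s1 : ∃ t, chk3 f_B00pp_012_s1 t 2 2 1 = true :=
  ⟨(a (a (l 2) (b (l 2) (b (l 2) (a (l 2) (a (l 2) (l 18055544)))))) (a (b (l 6) (a (b (l 6) (l 560589583)) (b (l 18115848) (l 17727384)))) (b (b (l 6) (l 18025344)) (b (l 555864079) (l 557788687))))), by decide +kernel⟩

def k1_B00pp_012_s1 : ∃ t, chk3 f_B00pp_012_s1 t 8 6 1 = true :=
  ⟨(l 2), by decide +kernel⟩

def k2_B00pp_012_s1 : ∃ t, chk3 f_B00pp_012_s1 t 8 14 1 = true :=
  ⟨(a (l 2) (b (a (l 2) (a (l 2) (b (l 2) (a (b (l 2) (a (l 535316239) (l 539657743))) (b (l 544096527) (l 544882959)))))) (b (a (l 2) (a (a (b (l 2) (l 533585679)) (b (b (l 533742863) (l 533628687)) (l 533404943))) (a (b (l 537736463) (l 537867791)) (b (l 545367055) (l 16815360))))) (a (a (a (l 2) (b (l 2) (l 533785359))) (a (b (l 533881871) (l 533628175)) (b (l 533595151) (l 533472783)))) (a (a (b (l 533437455) (l 533587727)) (b (l 533550351) (l 533436431))) (a (l 537975567)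 (l 544929807))))))), by decide +kernel⟩

def k3_B00pp_012_s1 : ∃ t, chk3 f_B00pp_012_s1 t 16 15 1 = true :=
  ⟨(a (b (l 2) (a (b (l 2) (l 14)) (b (a (b (l 2) (b (l 2) (a (l 2) (a (b (l 2) (l 14)) (a (l 533477903) (l 533493263)))))) (b (a (l 2) (a (l 2) (b (l 2) (l 533698831)))) (a (a (b (a (l 2) (l 533436431)) (a (l 533508367) (l 533523727))) (a (a (l 533493263) (l 533500687)) (l 533645839))) (a (b (l 533754127) (l 533842447)) (b (l 533784847) (l 533873935)))))) (a (a (l 14) (a (l 14) (b (a (l 14) (b (l 533582863) (l 533675279))) (l 3)))) (b (a (a (a (b (l 533598223) (l 533691151)) (b (l 533613839) (l 533707023))) (a (b (l 533629455) (l 533722895)) (a (l 533689615) (l 533429263)))) (a (a (l 533843215) (l 533724687)) (a (l 533740559) (l 533756431)))) (l 3)))))) (b (b (a (l 2) (a (l 2) (a (l 2) (l 533819407)))) (a (a (l 2) (b (l 2) (a (b (l 2) (l 533957391)) (l 533977871)))) (a (a (b (l 533875727) (l 533769231))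 (b (l 533665295) (l 533829647))) (a (b (l 533723663) (l 533621775)) (l 533868559))))) (b (a (a (a (b (a (b (l 2) (l 533460495)) (b (l 533406223) (l 533490703))) (a (b (l 533547279) (l 533636879)) (b (l 533578255) (l 533668367)))) (b (a (b (l 533435919) (l 533521167)) (l 533643791)) (a (l 533923855) (l 533955087)))) (a (b (a (l 533808143) (l 533570063)) (b (l 534216975) (l 534309391))) (b (l 534148111) (b (l 534012687) (l 534106127))))) (a (b (a (b (l 533627663) (l 533716751)) (l 534004495)) (a (b (l 533808399) (l 533903119)) (l 534190607))) (b (a (l 533798927) (l 533862415)) (a (l 533987599) (b (l 533734927) (l 3)))))) (b (b (a (a (a (a (l 533729295) (l 533761295)) (a (l 533793551) (l 533557263))) (a (l 534404367) (l 3))) (l 3)) (l 3)) (l 3))))), by decide +kernel⟩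

def k4_B00pp_012_s1 : ∃ t, chk3 f_B00pp_012_s1 t 17 15 1 = true :=
  ⟨(b (a (a (a (b (a (l 533606927) (l 533663247)) (a (l 533928719) (l 533721103))) (b (l 534146831) (l 534479887))) (a (b (l 534129935) (l 534203663)) (b (l 533980687) (l 534063631)))) (a (b (a (l 533833743) (l 533957391)) (a (l 534194191) (l 534058767))) (b (a (l 537923343) (l 545816335)) (a (l 537606159) (l 545664783))))) (b (b (a (a (a (l 534487055) (l 534351119)) (a (l 533948431) (l 3))) (l 3)) (l 3)) (l 3))), by decide +kernel⟩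

def k5_B00pp_012_s1 : ∃ t, chk3 f_B00pp_012_s1 t 9 3 1 = true :=
  ⟨(b (a (b (l 2) (a (a (l 2) (b (l 2) (b (l 557909007) (c (l 563863311) (l 553546255))))) (b (a (l 560760335) (l 563217167)) (a (c (l 566607887) (l 558214671)) (l 564834831))))) (a (b (l 562748175) (b (l 565129999) (l 566690063))) (b (l 563554575) (b (l 17523472) (l 567262991))))) (b (a (a (b (a (b (a (c (l 557147407) (l 543269391)) (l 553008143)) (a (c (l 557891599) (l 543737359)) (c (l 561563407) (l 548954383)))) (b (c (l 564707855) (l 554185231)) (c (l 565493775) (l 553943055)))) (b (a (a (b (l 16840240) (l 16848184)) (l 555262223)) (c (l 566205711) (l 555218191))) (a (a (l 550856207) (l 555679759)) (c (l 566825743) (l 555573007))))) (b (a (c (l 568285711) (l 558195471)) (l 566334223)) (b (a (l 564881423) (l 567332879)) (a (l 565429519) (l 567917839))))) (a (b (a (l 567697935) (l 568385807)) (b (l 569180175) (l 569795599))) (b (l 568691471)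 (l 570019599)))) (b (b (a (a (a (a (l 551847183) (l 556484111)) (b (c (l 567216655) (l 554137871)) (l 561626383))) (a (b (l 565773071) (l 3)) (l 3))) (l 3)) (l 3)) (l 3)))), by decide +kernel⟩

def k6_B00pp_012_s1 : ∃ t, chk3 f_B00pp_012_s1 t 5 3 1 = true :=
  ⟨(b (a (b (a (l 563237135) (l 561790223)) (a (b (l 565272335) (l 566648335)) (l 564276751))) (b (l 559879439) (a (l 562688015) (l 561452559)))) (a (b (b (a (l 568003599) (l 566164495)) (l 3)) (l 3)) (l 3))), by decide +kernel⟩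

def k7_B00pp_012_s1 : ∃ t, chk3 f_B00pp_012_s1 t 3 1 1 = true :=
  ⟨(b (a (b (a (b (l 17884424) (l 17421632)) (b (l 17619600) (l 552908303))) (a (l 555511055) (l 555189263))) (b (a (b (l 552087311) (l 553401103)) (b (l 553017359) (l 554310927))) (a (l 555734031) (b (l 555788303) (l 3))))) (a (b (b (a (l 558245647) (l 3)) (l 3)) (l 3)) (l 3))), by decide +kernel⟩

theorem t8_B00pp_012_s1 : ∃ t, chk3 f_B00pp_012_s1 t 8 15 1 = true := ex3_a k3_B00pp_012_s1 k4_B00pp_012_s1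

theorem t9_B00pp_012_s1 : ∃ t, chk3 f_B00pp_012_s1 t 8 7 1 = true := ex3_b k2_B00pp_012_s1 t8_B00pp_012_s1

theorem t10_B00pp_012_s1 : ∃ t, chk3 f_B00pp_012_s1 t 8 3 1 = true := ex3_b k1_B00pp_012_s1 t9_B00pp_012_s1

theorem t11_B00pp_012_s1 : ∃ t, chk3 f_B00pp_012_s1 t 4 3 1 = true := ex3_a t10_B00pp_012_s1 k5_B00pp_012_s1

theorem t12_B00pp_012_s1 : ∃ t, chk3 f_B00pp_012_s1 t 2 3 1 = true := ex3_a t11_B00pp_012_s1 k6_B00pp_012_s1

theorem t13_B00pp_012_s1 : ∃ t, chk3 f_B00pp_012_s1 t 2 1 1 = true := ex3_b k0_B00pp_012_s1 t12_B00pp_012_s1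

theorem t14_B00pp_012_s1 : ∃ t, chk3 f_B00pp_012_s1 t 1 1 1 = true := ex3_a t13_B00pp_012_s1 k7_B00pp_012_s1

theorem c_B00pp_012_s1 : CertF 0 536870912 0 536870912 50331648 16777216 false true true .pnp 0 1 2
    ndF0q0 ndF0q2 pcF1 cut_B00pp_012_s1 xt_B00pp_012_s1 :=
  certFK0 (fam := false) (s1 := true) (s2 := true) (a := 0) (b := 1) (c := 2) (cn := .pnp) (n1 := ndF0q0) (n2 := ndF0q2) (pc := pcF1) (cut := cut_B00pp_012_s1) (xt := xt_B00pp_012_s1) (P1 := 0) (W1 := 536870912) (P2 := 0) (W2 := 536870912) (P3 := 50331648) (W3 := 16777216)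
    rfl rfl rfl t14_B00pp_012_s1

theorem s_B00pp_012_s1 {κ x : ℝ} (hκ : κ * h0 = ken x) (hx : ((50331648 : ℕ) : ℝ) / S ≤ x)
    (hx' : x ≤ (((50331648 : ℕ) : ℝ) + (16777216 : ℕ)) / S)
    (H : CutB (VF κ) PP tKF tL pcF (Cut.of [[⟨0, 0, 0, 12582912⟩, ⟨1, 1, 0, 12582912⟩, ⟨2, 1, 0, 12582912⟩]]) 0 1 2 0 0 (sgb true) (sgb true) x) :
    AltB (VF κ) PP tKF tL pcF [⟨3, 0, 0, 1449551462⟩] 0 1 2 0 0 (sgb true) (sgb true) x :=
  strip_altB (m := 1449551462) true rfl hκ covF00 covF02 hx hx' c_B00pp_012_s1 H ((okx hx hx').extB (T := tt) (sideF hx hx') hκ rfl rfl (.O 0 true) (.O 2 true) (Or.inr rfl))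

noncomputable def cut_B00pp_012_s3 : Cut := Cut.of [[⟨3, 0, 0, 2845415833⟩], [⟨0, 0, 0, 12582912⟩, ⟨1, 1, 0, 12582912⟩, ⟨2, 1, 0, 12582912⟩]]

noncomputable def f_B00pp_012_s3 : ℕ → ℕ → ℕ → ℕ → Bool := onCell 0 536870912 0 536870912 50331648 16777216
    (rowFK 0 false true true .pnp 0 1 2 (qsf 0 536870912 0 536870912 1) ndF0q0 ndF0q2 pcF1 cut_B00pp_012_s3 Ext.none)

def k0_B00pp_012_s3 : ∃ t, chk3 f_B00pp_012_s3 t 1 1 1 = true :=
  ⟨(l 6), by decide +kernel⟩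

theorem c_B00pp_012_s3 : CertF 0 536870912 0 536870912 50331648 16777216 false true true .pnp 0 1 2
    ndF0q0 ndF0q2 pcF1 cut_B00pp_012_s3 Ext.none :=
  certFK0 (fam := false) (s1 := true) (s2 := true) (a := 0) (b := 1) (c := 2) (cn := .pnp) (n1 := ndF0q0) (n2 := ndF0q2) (pc := pcF1) (cut := cut_B00pp_012_s3) (xt := Ext.none) (P1 := 0) (W1 := 536870912) (P2 := 0) (W2 := 536870912) (P3 := 50331648) (W3 := 16777216)
    rfl rfl rfl k0_B00pp_012_s3

theorem s_B00pp_012_s3 {κ x : ℝ} (hκ : κ * h0 = ken x) (hx : ((50331648 : ℕ) : ℝ) / S ≤ x)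
    (hx' : x ≤ (((50331648 : ℕ) : ℝ) + (16777216 : ℕ)) / S)
    (H : CutB (VF κ) PP tKF tL pcF (Cut.of [[⟨0, 0, 0, 12582912⟩, ⟨1, 1, 0, 12582912⟩, ⟨2, 1, 0, 12582912⟩]]) 0 1 2 0 0 (sgb true) (sgb true) x) :
    AltB (VF κ) PP tKF tL pcF [⟨4, 0, 0, 2845415833⟩] 0 1 2 0 0 (sgb true) (sgb true) x :=
  strip_altB (m := 2845415833) false rfl hκ covF00 covF02 hx hx' c_B00pp_012_s3 H (noExt_B)

noncomputable def cut_B00pp_022_s1 : Cut := Cut.of [[⟨4, 0, 0, 1449551462⟩], [⟨0, 0, 0, 50331648⟩, ⟨1, 1, 0, 50331648⟩, ⟨2, 1, 0, 50331648⟩]]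

noncomputable def f_B00pp_022_s1 : ℕ → ℕ → ℕ → ℕ → Bool := onCell 1073741824 536870912 0 536870912 50331648 16777216
    (rowFK 2 false true true .pp 0 2 2 (qsf 0 536870912 0 536870912 2) ndF0q0 ndF0q2 pcF2 cut_B00pp_022_s1 Ext.none)

def k0_B00pp_022_s1 : ∃ t, chk3 f_B00pp_022_s1 t 2 2 1 = true :=
  ⟨(b (l 6) (a (a (a (a (l 18298408) (l 18308848)) (l 6)) (l 6)) (l 6))), by decide +kernel⟩

def k1_B00pp_022_s1 : ∃ t, chk3 f_B00pp_022_s1 t 2 6 1 = true :=
  ⟨(a (a (a (a (b (l 17961864) (b (l 17695704) (b (l 17508600) (l 17349192)))) (a (b (l 18004440) (b (l 17749200) (l 17483456))) (b (l 18037320) (b (l 17789936) (b (l 17603936) (l 17437480)))))) (a (b (l 18096600) (b (l 17862928) (a (l 17490736) (l 17630016)))) (b (l 18194112) (b (l 17981056) (a (l 17607464) (l 17590280)))))) (a (a (b (l 18307096) (b (l 18116480) (b (l 17946520) (a (l 17739568) (l 17805312))))) (b (l 18429024) (b (l 18261816) (b (l 18087008)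 (l 1))))) (b (l 6) (b (l 18445312) (l 1))))) (l 1)), by decide +kernel⟩

def k2_B00pp_022_s1 : ∃ t, chk3 f_B00pp_022_s1 t 2 7 1 = true :=
  ⟨(a (b (b (a (a (a (b (a (l 17056288) (l 17158592)) (a (a (l 16803720) (l 16885408)) (l 16802576))) (a (b (l 17184960) (l 16895928)) (b (a (l 17209832) (l 17228616)) (a (l 16908952) (l 16920368))))) (a (a (b (l 17176616) (b (l 17033944) (l 16841968))) (b (l 17309848) (b (l 17074632) (l 16873120)))) (b (a (l 17282024) (l 17176784)) (a (b (l 17122568) (l 16828056)) (a (l 16764344) (l 16788072)))))) (a (a (a (b (b (l 17564680) (l 17076120)) (l 17116912)) (b (l 17539352) (l 1))) (l 1)) (l 1))) (a (b (a (a (b (a (a (l 16802560) (l 16798448)) (l 16722520)) (a (a (a (l 16748024) (l 16763216)) (l 16760816)) (l 16736400))) (a (b (l 16732672) (l 16734864)) (a (l 16740632) (b (l 16745576) (l 16746296))))) (a (a (b (l 16775424) (a (l 16750192) (l 16754656))) (b (l 16774608) (a (l 16758528)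 (l 16762392)))) (a (a (b (l 16768448) (l 16766240)) (b (l 16772840) (l 16770056))) (a (l 16775528) (l 1))))) (a (b (b (a (a (a (a (l 16751968) (l 16767320)) (l 16764160)) (l 16728584)) (a (l 16736632) (a (l 16742352) (l 16746968)))) (l 14)) (l 14)) (a (a (b (a (l 16750536) (l 16754424)) (l 14)) (a (b (b (l 16757888) (l 14)) (l 14)) (b (a (l 16759640) (l 16761336)) (l 1)))) (a (b (l 16778016) (l 1)) (l 1))))) (l 1))) (a (a (l 14) (a (a (l 14) (b (l 1) (l 1))) (l 1))) (l 1))) (l 1)), by decide +kernel⟩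

def k3_B00pp_022_s1 : ∃ t, chk3 f_B00pp_022_s1 t 3 1 1 = true :=
  ⟨(l 1), by decide +kernel⟩

theorem t4_B00pp_022_s1 : ∃ t, chk3 f_B00pp_022_s1 t 2 3 1 = true := ex3_b k1_B00pp_022_s1 k2_B00pp_022_s1

theorem t5_B00pp_022_s1 : ∃ t, chk3 f_B00pp_022_s1 t 2 1 1 = true := ex3_b k0_B00pp_022_s1 t4_B00pp_022_s1

theorem t6_B00pp_022_s1 : ∃ t, chk3 f_B00pp_022_s1 t 1 1 1 = true := ex3_a t5_B00pp_022_s1 k3_B00pp_022_s1

theorem c_B00pp_022_s1 : CertF 0 536870912 0 536870912 50331648 16777216 false true true .pp 0 2 2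
    ndF0q0 ndF0q2 pcF2 cut_B00pp_022_s1 Ext.none :=
  certFK2 (fam := false) (s1 := true) (s2 := true) (a := 0) (b := 2) (c := 2) (cn := .pp) (n1 := ndF0q0) (n2 := ndF0q2) (pc := pcF2) (cut := cut_B00pp_022_s1) (xt := Ext.none) (P1 := 0) (W1 := 536870912) (P2 := 0) (W2 := 536870912) (P3 := 50331648) (W3 := 16777216)
    rfl rfl rfl (fun _ => rfl) t6_B00pp_022_s1

theorem s_B00pp_022_s1 {κ x : ℝ} (hκ : κ * h0 = ken x) (hx : ((50331648 : ℕ) : ℝ) / S ≤ x)
    (hx' : x ≤ (((50331648 : ℕ) : ℝ) + (16777216 : ℕ)) / S)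
    (H : CutB (VF κ) PP tKF tL pcF (Cut.of [[⟨0, 0, 0, 50331648⟩, ⟨1, 1, 0, 50331648⟩, ⟨2, 1, 0, 50331648⟩]]) 0 2 2 0 0 (sgb true) (sgb true) x) :
    AltB (VF κ) PP tKF tL pcF [⟨3, 0, 0, 1449551462⟩] 0 2 2 0 0 (sgb true) (sgb true) x :=
  strip_altB (m := 1449551462) true rfl hκ covF00 covF02 hx hx' c_B00pp_022_s1 H (noExt_B)

noncomputable def cut_B00pp_022_s3 : Cut := Cut.of [[⟨3, 0, 0, 2845415833⟩], [⟨0, 0, 0, 50331648⟩, ⟨1, 1, 0, 50331648⟩, ⟨2, 1, 0, 50331648⟩]]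

noncomputable def f_B00pp_022_s3 : ℕ → ℕ → ℕ → ℕ → Bool := onCell 0 536870912 0 536870912 50331648 16777216
    (rowFK 0 false true true .pp 0 2 2 (qsf 0 536870912 0 536870912 2) ndF0q0 ndF0q2 pcF2 cut_B00pp_022_s3 Ext.none)

def k0_B00pp_022_s3 : ∃ t, chk3 f_B00pp_022_s3 t 1 1 1 = true :=
  ⟨(l 6), by decide +kernel⟩

theorem c_B00pp_022_s3 : CertF 0 536870912 0 536870912 50331648 16777216 false true true .pp 0 2 2
    ndF0q0 ndF0q2 pcF2 cut_B00pp_022_s3 Ext.none :=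
  certFK0 (fam := false) (s1 := true) (s2 := true) (a := 0) (b := 2) (c := 2) (cn := .pp) (n1 := ndF0q0) (n2 := ndF0q2) (pc := pcF2) (cut := cut_B00pp_022_s3) (xt := Ext.none) (P1 := 0) (W1 := 536870912) (P2 := 0) (W2 := 536870912) (P3 := 50331648) (W3 := 16777216)
    rfl rfl rfl k0_B00pp_022_s3

theorem s_B00pp_022_s3 {κ x : ℝ} (hκ : κ * h0 = ken x) (hx : ((50331648 : ℕ) : ℝ) / S ≤ x)
    (hx' : x ≤ (((50331648 : ℕ) : ℝ) + (16777216 : ℕ)) / S)
    (H : CutB (VF κ) PP tKF tL pcF (Cut.of [[⟨0, 0, 0, 50331648⟩, ⟨1, 1, 0, 50331648⟩, ⟨2, 1, 0, 50331648⟩]]) 0 2 2 0 0 (sgb true) (sgb true) x) :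
    AltB (VF κ) PP tKF tL pcF [⟨4, 0, 0, 2845415833⟩] 0 2 2 0 0 (sgb true) (sgb true) x :=
  strip_altB (m := 2845415833) false rfl hκ covF00 covF02 hx hx' c_B00pp_022_s3 H (noExt_B)

noncomputable def cut_B00pp_101_s1 : Cut := Cut.of [[⟨4, 0, 0, 1449551462⟩]]

noncomputable def f_B00pp_101_s1 : ℕ → ℕ → ℕ → ℕ → Bool := onCell 536870912 536870912 536870912 536870912 50331648 16777216
    (rowFK 0 false true true .npn 1 0 1 (qsf 536870912 536870912 536870912 536870912 0) ndF0q1 ndF0q1 pcF0 cut_B00pp_101_s1 Ext.none)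

def k0_B00pp_101_s1 : ∃ t, chk3 f_B00pp_101_s1 t 1 1 1 = true :=
  ⟨(l 3), by decide +kernel⟩

theorem c_B00pp_101_s1 : CertF 536870912 536870912 536870912 536870912 50331648 16777216 false true true .npn 1 0 1
    ndF0q1 ndF0q1 pcF0 cut_B00pp_101_s1 Ext.none :=
  certFK0 (fam := false) (s1 := true) (s2 := true) (a := 1) (b := 0) (c := 1) (cn := .npn) (n1 := ndF0q1) (n2 := ndF0q1) (pc := pcF0) (cut := cut_B00pp_101_s1) (xt := Ext.none) (P1 := 536870912) (W1 := 536870912) (P2 := 536870912) (W2 := 536870912) (P3 := 50331648) (W3 := 16777216)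
    rfl rfl rfl k0_B00pp_101_s1

theorem s_B00pp_101_s1 {κ x : ℝ} (hκ : κ * h0 = ken x) (hx : ((50331648 : ℕ) : ℝ) / S ≤ x)
    (hx' : x ≤ (((50331648 : ℕ) : ℝ) + (16777216 : ℕ)) / S) :
    AltB (VF κ) PP tKF tL pcF [⟨3, 0, 0, 1449551462⟩] 1 0 1 0 0 (sgb true) (sgb true) x :=
  strip_altB (m := 1449551462) true rfl hκ covF01 covF01 hx hx' c_B00pp_101_s1 cutB_nil (noExt_B)

noncomputable def cut_B00pp_101_s3 : Cut := Cut.of [[⟨3, 0, 0, 2845415833⟩]]

noncomputable def f_B00pp_101_s3 : ℕ → ℕ → ℕ → ℕ → Bool := onCell 536870912 536870912 536870912 536870912 50331648 16777216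
    (rowFK 0 false true true .npn 1 0 1 (qsf 536870912 536870912 536870912 536870912 0) ndF0q1 ndF0q1 pcF0 cut_B00pp_101_s3 Ext.none)

def k0_B00pp_101_s3 : ∃ t, chk3 f_B00pp_101_s3 t 1 1 1 = true :=
  ⟨(l 3), by decide +kernel⟩

theorem c_B00pp_101_s3 : CertF 536870912 536870912 536870912 536870912 50331648 16777216 false true true .npn 1 0 1
    ndF0q1 ndF0q1 pcF0 cut_B00pp_101_s3 Ext.none :=
  certFK0 (fam := false) (s1 := true) (s2 := true) (a := 1) (b := 0) (c := 1) (cn := .npn) (n1 := ndF0q1) (n2 := ndF0q1) (pc := pcF0) (cut := cut_B00pp_101_s3) (xt := Ext.none) (P1 := 536870912) (W1 := 536870912) (P2 := 536870912) (W2 := 536870912) (P3 := 50331648) (W3 := 16777216)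
    rfl rfl rfl k0_B00pp_101_s3

theorem s_B00pp_101_s3 {κ x : ℝ} (hκ : κ * h0 = ken x) (hx : ((50331648 : ℕ) : ℝ) / S ≤ x)
    (hx' : x ≤ (((50331648 : ℕ) : ℝ) + (16777216 : ℕ)) / S) :
    AltB (VF κ) PP tKF tL pcF [⟨4, 0, 0, 2845415833⟩] 1 0 1 0 0 (sgb true) (sgb true) x :=
  strip_altB (m := 2845415833) false rfl hκ covF01 covF01 hx hx' c_B00pp_101_s3 cutB_nil (noExt_B)

noncomputable def cut_B00pp_102_s1 : Cut := Cut.of [[⟨4, 0, 0, 1449551462⟩]]

noncomputable def f_B00pp_102_s1 : ℕ → ℕ → ℕ → ℕ → Bool := onCell 0 536870912 0 536870912 50331648 16777216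
    (rowFK 2 false true true .npp 1 0 2 (qsf 536870912 536870912 0 536870912 0) ndF0q1 ndF0q2 pcF0 cut_B00pp_102_s1 Ext.none)

def k0_B00pp_102_s1 : ∃ t, chk3 f_B00pp_102_s1 t 1 1 1 = true :=
  ⟨(a (b (l 3) (l 3)) (l 3)), by decide +kernel⟩

theorem c_B00pp_102_s1 : CertF 536870912 536870912 0 536870912 50331648 16777216 false true true .npp 1 0 2
    ndF0q1 ndF0q2 pcF0 cut_B00pp_102_s1 Ext.none :=
  certFK2 (fam := false) (s1 := true) (s2 := true) (a := 1) (b := 0) (c := 2) (cn := .npp) (n1 := ndF0q1) (n2 := ndF0q2) (pc := pcF0) (cut := cut_B00pp_102_s1) (xt := Ext.none) (P1 := 536870912) (W1 := 536870912) (P2 := 0) (W2 := 536870912) (P3 := 50331648) (W3 := 16777216)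
    rfl rfl rfl (fun _ => rfl) k0_B00pp_102_s1

theorem s_B00pp_102_s1 {κ x : ℝ} (hκ : κ * h0 = ken x) (hx : ((50331648 : ℕ) : ℝ) / S ≤ x)
    (hx' : x ≤ (((50331648 : ℕ) : ℝ) + (16777216 : ℕ)) / S) :
    AltB (VF κ) PP tKF tL pcF [⟨3, 0, 0, 1449551462⟩] 1 0 2 0 0 (sgb true) (sgb true) x :=
  strip_altB (m := 1449551462) true rfl hκ covF01 covF02 hx hx' c_B00pp_102_s1 cutB_nil (noExt_B)

noncomputable def cut_B00pp_102_s3 : Cut := Cut.of [[⟨3, 0, 0, 2845415833⟩]]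

noncomputable def f_B00pp_102_s3 : ℕ → ℕ → ℕ → ℕ → Bool := onCell 536870912 536870912 0 536870912 50331648 16777216
    (rowFK 0 false true true .npp 1 0 2 (qsf 536870912 536870912 0 536870912 0) ndF0q1 ndF0q2 pcF0 cut_B00pp_102_s3 Ext.none)

def k0_B00pp_102_s3 : ∃ t, chk3 f_B00pp_102_s3 t 1 1 1 = true :=
  ⟨(l 6), by decide +kernel⟩

theorem c_B00pp_102_s3 : CertF 536870912 536870912 0 536870912 50331648 16777216 false true true .npp 1 0 2
    ndF0q1 ndF0q2 pcF0 cut_B00pp_102_s3 Ext.none :=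
  certFK0 (fam := false) (s1 := true) (s2 := true) (a := 1) (b := 0) (c := 2) (cn := .npp) (n1 := ndF0q1) (n2 := ndF0q2) (pc := pcF0) (cut := cut_B00pp_102_s3) (xt := Ext.none) (P1 := 536870912) (W1 := 536870912) (P2 := 0) (W2 := 536870912) (P3 := 50331648) (W3 := 16777216)
    rfl rfl rfl k0_B00pp_102_s3

theorem s_B00pp_102_s3 {κ x : ℝ} (hκ : κ * h0 = ken x) (hx : ((50331648 : ℕ) : ℝ) / S ≤ x)
    (hx' : x ≤ (((50331648 : ℕ) : ℝ) + (16777216 : ℕ)) / S) :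
    AltB (VF κ) PP tKF tL pcF [⟨4, 0, 0, 2845415833⟩] 1 0 2 0 0 (sgb true) (sgb true) x :=
  strip_altB (m := 2845415833) false rfl hκ covF01 covF02 hx hx' c_B00pp_102_s3 cutB_nil (noExt_B)

noncomputable def cut_B00pp_112_s1 : Cut := Cut.of [[⟨4, 0, 0, 1449551462⟩]]

noncomputable def xt_B00pp_112_s1 : Ext := strExt dd false true true .u0 .u2 .u0m .dn 1 1 2 rfl rfl gf1 vv ndF0q1 ndF0q2

noncomputable def f_B00pp_112_s1 : ℕ → ℕ → ℕ → ℕ → Bool := onCell 536870912 536870912 0 536870912 50331648 16777216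
    (rowFK 0 false true true .dn 1 1 2 (qsf 536870912 536870912 0 536870912 1) ndF0q1 ndF0q2 pcF1 cut_B00pp_112_s1 xt_B00pp_112_s1)

def k0_B00pp_112_s1 : ∃ t, chk3 f_B00pp_112_s1 t 1 1 1 = true :=
  ⟨(a (a (b (b (a (l 555066639) (l 557079823)) (l 3)) (l 3)) (l 3)) (l 1)), by decide +kernel⟩

theorem c_B00pp_112_s1 : CertF 536870912 536870912 0 536870912 50331648 16777216 false true true .dn 1 1 2
    ndF0q1 ndF0q2 pcF1 cut_B00pp_112_s1 xt_B00pp_112_s1 :=
  certFK0 (fam := false) (s1 := true) (s2 := true) (a := 1) (b := 1) (c := 2) (cn := .dn) (n1 := ndF0q1) (n2 := ndF0q2) (pc := pcF1) (cut := cut_B00pp_112_s1) (xt := xt_B00pp_112_s1) (P1 := 536870912) (W1 := 536870912) (P2 := 0) (W2 := 536870912) (P3 := 50331648) (W3 := 16777216)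
    rfl rfl rfl k0_B00pp_112_s1

theorem s_B00pp_112_s1 {κ x : ℝ} (hκ : κ * h0 = ken x) (hx : ((50331648 : ℕ) : ℝ) / S ≤ x)
    (hx' : x ≤ (((50331648 : ℕ) : ℝ) + (16777216 : ℕ)) / S) :
    AltB (VF κ) PP tKF tL pcF [⟨3, 0, 0, 1449551462⟩] 1 1 2 0 0 (sgb true) (sgb true) x :=
  strip_altB (m := 1449551462) true rfl hκ covF01 covF02 hx hx' c_B00pp_112_s1 cutB_nil ((okx hx hx').extB (T := tt) (sideF hx hx') hκ rfl rfl (.O 1 true) (.O 2 true) (Or.inr rfl))

noncomputable def cut_B00pp_112_s3 : Cut := Cut.of [[⟨3, 0, 0, 2845415833⟩]]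

noncomputable def f_B00pp_112_s3 : ℕ → ℕ → ℕ → ℕ → Bool := onCell 536870912 536870912 0 536870912 50331648 16777216
    (rowFK 0 false true true .dn 1 1 2 (qsf 536870912 536870912 0 536870912 1) ndF0q1 ndF0q2 pcF1 cut_B00pp_112_s3 Ext.none)

def k0_B00pp_112_s3 : ∃ t, chk3 f_B00pp_112_s3 t 1 1 1 = true :=
  ⟨(l 6), by decide +kernel⟩

theorem c_B00pp_112_s3 : CertF 536870912 536870912 0 536870912 50331648 16777216 false true true .dn 1 1 2
    ndF0q1 ndF0q2 pcF1 cut_B00pp_112_s3 Ext.none :=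
  certFK0 (fam := false) (s1 := true) (s2 := true) (a := 1) (b := 1) (c := 2) (cn := .dn) (n1 := ndF0q1) (n2 := ndF0q2) (pc := pcF1) (cut := cut_B00pp_112_s3) (xt := Ext.none) (P1 := 536870912) (W1 := 536870912) (P2 := 0) (W2 := 536870912) (P3 := 50331648) (W3 := 16777216)
    rfl rfl rfl k0_B00pp_112_s3

theorem s_B00pp_112_s3 {κ x : ℝ} (hκ : κ * h0 = ken x) (hx : ((50331648 : ℕ) : ℝ) / S ≤ x)
    (hx' : x ≤ (((50331648 : ℕ) : ℝ) + (16777216 : ℕ)) / S) :
    AltB (VF κ) PP tKF tL pcF [⟨4, 0, 0, 2845415833⟩] 1 1 2 0 0 (sgb true) (sgb true) x :=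
  strip_altB (m := 2845415833) false rfl hκ covF01 covF02 hx hx' c_B00pp_112_s3 cutB_nil (noExt_B)

noncomputable def cut_B00pp_202_s1 : Cut := Cut.of [[⟨4, 0, 0, 1449551462⟩]]

noncomputable def f_B00pp_202_s1 : ℕ → ℕ → ℕ → ℕ → Bool := onCell 0 536870912 0 536870912 50331648 16777216
    (rowFK 0 false true true .pp 2 0 2 (qsf 0 536870912 0 536870912 0) ndF0q2 ndF0q2 pcF0 cut_B00pp_202_s1 Ext.none)

def k0_B00pp_202_s1 : ∃ t, chk3 f_B00pp_202_s1 t 1 1 1 = true :=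
  ⟨(l 3), by decide +kernel⟩

theorem c_B00pp_202_s1 : CertF 0 536870912 0 536870912 50331648 16777216 false true true .pp 2 0 2
    ndF0q2 ndF0q2 pcF0 cut_B00pp_202_s1 Ext.none :=
  certFK0 (fam := false) (s1 := true) (s2 := true) (a := 2) (b := 0) (c := 2) (cn := .pp) (n1 := ndF0q2) (n2 := ndF0q2) (pc := pcF0) (cut := cut_B00pp_202_s1) (xt := Ext.none) (P1 := 0) (W1 := 536870912) (P2 := 0) (W2 := 536870912) (P3 := 50331648) (W3 := 16777216)
    rfl rfl rfl k0_B00pp_202_s1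

theorem s_B00pp_202_s1 {κ x : ℝ} (hκ : κ * h0 = ken x) (hx : ((50331648 : ℕ) : ℝ) / S ≤ x)
    (hx' : x ≤ (((50331648 : ℕ) : ℝ) + (16777216 : ℕ)) / S) :
    AltB (VF κ) PP tKF tL pcF [⟨3, 0, 0, 1449551462⟩] 2 0 2 0 0 (sgb true) (sgb true) x :=
  strip_altB (m := 1449551462) true rfl hκ covF02 covF02 hx hx' c_B00pp_202_s1 cutB_nil (noExt_B)

noncomputable def cut_B00pp_202_s3 : Cut := Cut.of [[⟨3, 0, 0, 2845415833⟩]]

noncomputable def f_B00pp_202_s3 : ℕ → ℕ → ℕ → ℕ → Bool := onCell 0 536870912 0 536870912 50331648 16777216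
    (rowFK 0 false true true .pp 2 0 2 (qsf 0 536870912 0 536870912 0) ndF0q2 ndF0q2 pcF0 cut_B00pp_202_s3 Ext.none)

def k0_B00pp_202_s3 : ∃ t, chk3 f_B00pp_202_s3 t 1 1 1 = true :=
  ⟨(l 3), by decide +kernel⟩

theorem c_B00pp_202_s3 : CertF 0 536870912 0 536870912 50331648 16777216 false true true .pp 2 0 2
    ndF0q2 ndF0q2 pcF0 cut_B00pp_202_s3 Ext.none :=
  certFK0 (fam := false) (s1 := true) (s2 := true) (a := 2) (b := 0) (c := 2) (cn := .pp) (n1 := ndF0q2) (n2 := ndF0q2) (pc := pcF0) (cut := cut_B00pp_202_s3) (xt := Ext.none) (P1 := 0) (W1 := 536870912) (P2 := 0) (W2 := 536870912) (P3 := 50331648) (W3 := 16777216)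
    rfl rfl rfl k0_B00pp_202_s3

theorem s_B00pp_202_s3 {κ x : ℝ} (hκ : κ * h0 = ken x) (hx : ((50331648 : ℕ) : ℝ) / S ≤ x)
    (hx' : x ≤ (((50331648 : ℕ) : ℝ) + (16777216 : ℕ)) / S) :
    AltB (VF κ) PP tKF tL pcF [⟨4, 0, 0, 2845415833⟩] 2 0 2 0 0 (sgb true) (sgb true) x :=
  strip_altB (m := 2845415833) false rfl hκ covF02 covF02 hx hx' c_B00pp_202_s3 cutB_nil (noExt_B)

noncomputable def cut_B00pm_001_s1 : Cut := Cut.of [[⟨4, 0, 0, 1449551462⟩]]

noncomputable def f_B00pm_001_s1 : ℕ → ℕ → ℕ → ℕ → Bool := onCell 0 536870912 536870912 536870912 50331648 16777216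
    (rowFK 0 false true false .up 0 0 1 (qsf 0 536870912 536870912 536870912 0) ndF0q0 ndF0q1 pcF0 cut_B00pm_001_s1 Ext.none)

def k0_B00pm_001_s1 : ∃ t, chk3 f_B00pm_001_s1 t 1 1 1 = true :=
  ⟨(l 6), by decide +kernel⟩

theorem c_B00pm_001_s1 : CertF 0 536870912 536870912 536870912 50331648 16777216 false true false .up 0 0 1
    ndF0q0 ndF0q1 pcF0 cut_B00pm_001_s1 Ext.none :=
  certFK0 (fam := false) (s1 := true) (s2 := false) (a := 0) (b := 0) (c := 1) (cn := .up) (n1 := ndF0q0) (n2 := ndF0q1) (pc := pcF0) (cut := cut_B00pm_001_s1) (xt := Ext.none) (P1 := 0) (W1 := 536870912) (P2 := 536870912) (W2 := 536870912) (P3 := 50331648) (W3 := 16777216)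
    rfl rfl rfl k0_B00pm_001_s1

theorem s_B00pm_001_s1 {κ x : ℝ} (hκ : κ * h0 = ken x) (hx : ((50331648 : ℕ) : ℝ) / S ≤ x)
    (hx' : x ≤ (((50331648 : ℕ) : ℝ) + (16777216 : ℕ)) / S) :
    AltB (VF κ) PP tKF tL pcF [⟨3, 0, 0, 1449551462⟩] 0 0 1 0 0 (sgb true) (sgb false) x :=
  strip_altB (m := 1449551462) true rfl hκ covF00 covF01 hx hx' c_B00pm_001_s1 cutB_nil (noExt_B)

noncomputable def cut_B00pm_001_s3 : Cut := Cut.of [[⟨3, 0, 0, 2845415833⟩]]

noncomputable def xt_B00pm_001_s3 : Ext := strExt dd false true false .u0 .u0m .s0m .up 0 0 1 rfl rfl gl0 vv ndF0q0 ndF0q1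

noncomputable def f_B00pm_001_s3 : ℕ → ℕ → ℕ → ℕ → Bool := onCell 0 536870912 0 536870912 50331648 16777216
    (rowFK 1 false true false .up 0 0 1 (qsf 0 536870912 536870912 536870912 0) ndF0q0 ndF0q1 pcF0 cut_B00pm_001_s3 xt_B00pm_001_s3)

def k0_B00pm_001_s3 : ∃ t, chk3 f_B00pm_001_s3 t 1 1 1 = true :=
  ⟨(a (l 4) (b (a (l 4) (a (l 4) (b (l 4) (b (l 549269007) (l 549212175))))) (b (a (l 4) (b (a (l 549656079) (l 548301839)) (a (l 548652559) (l 546399247)))) (a (b (a (l 4) (l 550256399)) (a (b (l 4) (l 554707471)) (b (l 550357007) (l 554282255)))) (b (a (l 546631183) (a (l 17677792) (b (l 17261224) (l 6)))) (a (b (l 550313231) (b (l 553429775) (a (l 17896184) (l 18504640)))) (a (l 6) (l 6)))))))), by decide +kernel⟩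

theorem c_B00pm_001_s3 : CertF 0 536870912 536870912 536870912 50331648 16777216 false true false .up 0 0 1
    ndF0q0 ndF0q1 pcF0 cut_B00pm_001_s3 xt_B00pm_001_s3 :=
  certFK1 (fam := false) (s1 := true) (s2 := false) (a := 0) (b := 0) (c := 1) (cn := .up) (n1 := ndF0q0) (n2 := ndF0q1) (pc := pcF0) (cut := cut_B00pm_001_s3) (xt := xt_B00pm_001_s3) (P1 := 0) (W1 := 536870912) (P2 := 536870912) (W2 := 536870912) (P3 := 50331648) (W3 := 16777216)
    rfl rfl rfl (fun _ => rfl) k0_B00pm_001_s3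

theorem s_B00pm_001_s3 {κ x : ℝ} (hκ : κ * h0 = ken x) (hx : ((50331648 : ℕ) : ℝ) / S ≤ x)
    (hx' : x ≤ (((50331648 : ℕ) : ℝ) + (16777216 : ℕ)) / S) :
    AltB (VF κ) PP tKF tL pcF [⟨4, 0, 0, 2845415833⟩] 0 0 1 0 0 (sgb true) (sgb false) x :=
  strip_altB (m := 2845415833) false rfl hκ covF00 covF01 hx hx' c_B00pm_001_s3 cutB_nil ((okx hx hx').extB (T := tt) (sideF hx hx') hκ rfl rfl (.O 0 true) (.O 1 false) (Or.inl rfl))

noncomputable def cut_B00pm_011_s1 : Cut := Cut.of [[⟨4, 0, 0, 1449551462⟩], [⟨0, 0, 0, 16777216⟩, ⟨1, 1, 0, 16777216⟩, ⟨2, 1, 0, 16777216⟩], [⟨0, 0, 1, 25165824⟩, ⟨1, 1, 2, 25165824⟩, ⟨2, 1, 0, 8388608⟩, ⟨0, 0, 0, 83886080⟩, ⟨0, 1, 0, 1040187392⟩, ⟨1, 0, 0, 1040187392⟩, ⟨1, 1, 0, 83886080⟩]]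

noncomputable def f_B00pm_011_s1 : ℕ → ℕ → ℕ → ℕ → Bool := onCell 0 536870912 536870912 536870912 50331648 16777216
    (rowFK 0 false true false .pnn 0 1 1 (qsf 0 536870912 536870912 536870912 1) ndF0q0 ndF0q1 pcF1 cut_B00pm_011_s1 Ext.none)

def k0_B00pm_011_s1 : ∃ t, chk3 f_B00pm_011_s1 t 1 1 1 = true :=
  ⟨(l 6), by decide +kernel⟩

theorem c_B00pm_011_s1 : CertF 0 536870912 536870912 536870912 50331648 16777216 false true false .pnn 0 1 1
    ndF0q0 ndF0q1 pcF1 cut_B00pm_011_s1 Ext.none :=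
  certFK0 (fam := false) (s1 := true) (s2 := false) (a := 0) (b := 1) (c := 1) (cn := .pnn) (n1 := ndF0q0) (n2 := ndF0q1) (pc := pcF1) (cut := cut_B00pm_011_s1) (xt := Ext.none) (P1 := 0) (W1 := 536870912) (P2 := 536870912) (W2 := 536870912) (P3 := 50331648) (W3 := 16777216)
    rfl rfl rfl k0_B00pm_011_s1

theorem s_B00pm_011_s1 {κ x : ℝ} (hκ : κ * h0 = ken x) (hx : ((50331648 : ℕ) : ℝ) / S ≤ x)
    (hx' : x ≤ (((50331648 : ℕ) : ℝ) + (16777216 : ℕ)) / S)
    (H : CutB (VF κ) PP tKF tL pcF (Cut.of [[⟨0, 0, 0, 16777216⟩, ⟨1, 1, 0, 16777216⟩, ⟨2, 1, 0, 16777216⟩], [⟨0, 0, 1, 25165824⟩, ⟨1, 1, 2, 25165824⟩, ⟨2, 1, 0, 8388608⟩, ⟨0, 0, 0, 83886080⟩, ⟨0, 1, 0, 1040187392⟩, ⟨1, 0, 0, 1040187392⟩, ⟨1, 1, 0, 83886080⟩]]) 0 1 1 0 0 (sgb true) (sgb false) x) :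
    AltB (VF κ) PP tKF tL pcF [⟨3, 0, 0, 1449551462⟩] 0 1 1 0 0 (sgb true) (sgb false) x :=
  strip_altB (m := 1449551462) true rfl hκ covF00 covF01 hx hx' c_B00pm_011_s1 H (noExt_B)

end Pool.Agent.Strip051.G.I3_64_1_16.Tab.St.C
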