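import Pool.Agent.Strip051.G.I3_64_1_16.Tab
import Pool.Agent.Strip051.PB.RowK

/-! # Certificates F0 (generated) -/

set_option linter.all false
set_option maxRecDepth 100000

namespace Pool.Agent.Strip051.G.I3_64_1_16.Tab.C.FA00

open Pool.Agent.Strip051.PB Pool.Agent.Strip051.PB.T
open Pool.Agent.Strip051.G.I3_64_1_16.Tab

noncomputable def cut_pp_001 : Cut := Cut.of [[⟨3, 0, 0, 1449551462⟩], [⟨4, 0, 0, 2845415833⟩]]

noncomputable def f_pp_001 : ℕ → ℕ → ℕ → ℕ → Bool := onCell 0 536870912 0 536870912 50331648 16777216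
    (rowFK 0 true true true .up 0 0 1 (qsf 0 536870912 0 536870912 1) ndF0q0 ndF0q0 pcF1 cut_pp_001 Ext.none)

def k0_pp_001 : ∃ t, chk3 f_pp_001 t 1 1 1 = true :=
  ⟨(l 4), by decide +kernel⟩

theorem c_pp_001 : CertF 0 536870912 0 536870912 50331648 16777216 true true true .up 0 0 1
    ndF0q0 ndF0q0 pcF1 cut_pp_001 Ext.none :=
  certFK0 (fam := true) (s1 := true) (s2 := true) (a := 0) (b := 0) (c := 1) (cn := .up) (n1 := ndF0q0) (n2 := ndF0q0) (pc := pcF1) (cut := cut_pp_001) (xt := Ext.none) (P1 := 0) (W1 := 536870912) (P2 := 0) (W2 := 536870912) (P3 := 50331648) (W3 := 16777216)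
    rfl rfl rfl k0_pp_001

noncomputable def cut_pp_011 : Cut := Cut.of [[⟨3, 0, 0, 1449551462⟩], [⟨4, 0, 0, 2845415833⟩], [⟨0, 0, 0, 50331648⟩, ⟨1, 1, 0, 50331648⟩, ⟨2, 1, 0, 50331648⟩]]

noncomputable def f_pp_011 : ℕ → ℕ → ℕ → ℕ → Bool := onCell 0 536870912 536870912 536870912 50331648 16777216
    (rowFK 0 true true true .pnn 0 1 1 (qsf 0 536870912 536870912 536870912 1) ndF0q0 ndF0q1 pcF1 cut_pp_011 Ext.none)

def k0_pp_011 : ∃ t, chk3 f_pp_011 t 1 1 1 = true :=
  ⟨(l 14), by decide +kernel⟩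

theorem c_pp_011 : CertF 0 536870912 536870912 536870912 50331648 16777216 true true true .pnn 0 1 1
    ndF0q0 ndF0q1 pcF1 cut_pp_011 Ext.none :=
  certFK0 (fam := true) (s1 := true) (s2 := true) (a := 0) (b := 1) (c := 1) (cn := .pnn) (n1 := ndF0q0) (n2 := ndF0q1) (pc := pcF1) (cut := cut_pp_011) (xt := Ext.none) (P1 := 0) (W1 := 536870912) (P2 := 536870912) (W2 := 536870912) (P3 := 50331648) (W3 := 16777216)
    rfl rfl rfl k0_pp_011

noncomputable def cut_pp_012 : Cut := Cut.of [[⟨3, 0, 0, 1449551462⟩], [⟨4, 0, 0, 2845415833⟩], [⟨0, 0, 0, 50331648⟩, ⟨1, 1, 0, 50331648⟩, ⟨2, 1, 0, 50331648⟩]]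

noncomputable def f_pp_012 : ℕ → ℕ → ℕ → ℕ → Bool := onCell 0 536870912 536870912 536870912 50331648 16777216
    (rowFK 0 true true true .pnp 0 1 2 (qsf 0 536870912 536870912 536870912 2) ndF0q0 ndF0q1 pcF2 cut_pp_012 Ext.none)

def k0_pp_012 : ∃ t, chk3 f_pp_012 t 1 1 1 = true :=
  ⟨(l 14), by decide +kernel⟩

theorem c_pp_012 : CertF 0 536870912 536870912 536870912 50331648 16777216 true true true .pnp 0 1 2
    ndF0q0 ndF0q1 pcF2 cut_pp_012 Ext.none :=
  certFK0 (fam := true) (s1 := true) (s2 := true) (a := 0) (b := 1) (c := 2) (cn := .pnp) (n1 := ndF0q0) (n2 := ndF0q1) (pc := pcF2) (cut := cut_pp_012) (xt := Ext.none) (P1 := 0) (W1 := 536870912) (P2 := 536870912) (W2 := 536870912) (P3 := 50331648) (W3 := 16777216)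
    rfl rfl rfl k0_pp_012

noncomputable def cut_pp_022 : Cut := Cut.of [[⟨3, 0, 0, 1449551462⟩], [⟨4, 0, 0, 2845415833⟩], [⟨0, 0, 0, 16777216⟩, ⟨1, 1, 0, 16777216⟩, ⟨2, 1, 0, 16777216⟩]]

noncomputable def f_pp_022 : ℕ → ℕ → ℕ → ℕ → Bool := onCell 0 536870912 0 536870912 50331648 16777216
    (rowFK 0 true true true .pp 0 2 2 (qsf 0 536870912 0 536870912 2) ndF0q0 ndF0q2 pcF2 cut_pp_022 Ext.none)

def k0_pp_022 : ∃ t, chk3 f_pp_022 t 1 1 1 = true :=
  ⟨(a (b (a (a (b (l 18835736) (a (b (l 18771024) (l 18671936)) (l 18418856))) (b (l 18273008) (a (l 18159416) (l 17940232)))) (b (a (l 17967856) (l 17716152)) (a (b (l 17758720) (l 17759856)) (b (l 17469872) (l 14))))) (a (b (a (b (a (a (l 18553656) (l 18402048)) (l 18165048)) (a (b (a (a (l 18291216) (l 18255952)) (l 14)) (l 14)) (l 14))) (b (a (l 17877696) (l 14)) (l 14))) (l 14)) (l 14))) (b (b (a (a (b (l 17570872) (l 17407896)) (b (l 17361648) (l 14))) (l 2)) (l 14)) (l 14))), by decide +kernel⟩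

theorem c_pp_022 : CertF 0 536870912 0 536870912 50331648 16777216 true true true .pp 0 2 2
    ndF0q0 ndF0q2 pcF2 cut_pp_022 Ext.none :=
  certFK0 (fam := true) (s1 := true) (s2 := true) (a := 0) (b := 2) (c := 2) (cn := .pp) (n1 := ndF0q0) (n2 := ndF0q2) (pc := pcF2) (cut := cut_pp_022) (xt := Ext.none) (P1 := 0) (W1 := 536870912) (P2 := 0) (W2 := 536870912) (P3 := 50331648) (W3 := 16777216)
    rfl rfl rfl k0_pp_022

noncomputable def cut_pp_023 : Cut := Cut.of [[⟨3, 0, 0, 1449551462⟩], [⟨4, 0, 0, 2845415833⟩]]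

noncomputable def f_pp_023 : ℕ → ℕ → ℕ → ℕ → Bool := onCell 1610612736 536870912 0 536870912 50331648 16777216
    (rowFK 2 true true true .up 0 2 3 (qsf 0 536870912 0 536870912 3) ndF0q0 ndF0q2 pcF3 cut_pp_023 Ext.none)

def k0_pp_023 : ∃ t, chk3 f_pp_023 t 1 1 1 = true :=
  ⟨(a (a (b (a (b (b (l 17763256) (l 14)) (l 14)) (l 14)) (l 4)) (l 14)) (l 2)), by decide +kernel⟩

theorem c_pp_023 : CertF 0 536870912 0 536870912 50331648 16777216 true true true .up 0 2 3
    ndF0q0 ndF0q2 pcF3 cut_pp_023 Ext.none :=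
  certFK2 (fam := true) (s1 := true) (s2 := true) (a := 0) (b := 2) (c := 3) (cn := .up) (n1 := ndF0q0) (n2 := ndF0q2) (pc := pcF3) (cut := cut_pp_023) (xt := Ext.none) (P1 := 0) (W1 := 536870912) (P2 := 0) (W2 := 536870912) (P3 := 50331648) (W3 := 16777216)
    rfl rfl rfl (fun _ => rfl) k0_pp_023

noncomputable def cut_pp_101 : Cut := Cut.of [[⟨3, 0, 0, 1449551462⟩], [⟨4, 0, 0, 2845415833⟩]]

noncomputable def f_pp_101 : ℕ → ℕ → ℕ → ℕ → Bool := onCell 536870912 536870912 0 536870912 50331648 16777216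
    (rowFK 0 true true true .npn 1 0 1 (qsf 536870912 536870912 0 536870912 1) ndF0q1 ndF0q0 pcF1 cut_pp_101 Ext.none)

def k0_pp_101 : ∃ t, chk3 f_pp_101 t 1 1 1 = true :=
  ⟨(l 14), by decide +kernel⟩

theorem c_pp_101 : CertF 536870912 536870912 0 536870912 50331648 16777216 true true true .npn 1 0 1
    ndF0q1 ndF0q0 pcF1 cut_pp_101 Ext.none :=
  certFK0 (fam := true) (s1 := true) (s2 := true) (a := 1) (b := 0) (c := 1) (cn := .npn) (n1 := ndF0q1) (n2 := ndF0q0) (pc := pcF1) (cut := cut_pp_101) (xt := Ext.none) (P1 := 536870912) (W1 := 536870912) (P2 := 0) (W2 := 536870912) (P3 := 50331648) (W3 := 16777216)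
    rfl rfl rfl k0_pp_101

noncomputable def cut_pp_102 : Cut := Cut.of [[⟨3, 0, 0, 1449551462⟩], [⟨4, 0, 0, 2845415833⟩]]

noncomputable def f_pp_102 : ℕ → ℕ → ℕ → ℕ → Bool := onCell 536870912 536870912 0 536870912 50331648 16777216
    (rowFK 0 true true true .npp 1 0 2 (qsf 536870912 536870912 0 536870912 2) ndF0q1 ndF0q0 pcF2 cut_pp_102 Ext.none)

def k0_pp_102 : ∃ t, chk3 f_pp_102 t 1 1 1 = true :=
  ⟨(l 14), by decide +kernel⟩

theorem c_pp_102 : CertF 536870912 536870912 0 536870912 50331648 16777216 true true true .npp 1 0 2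
    ndF0q1 ndF0q0 pcF2 cut_pp_102 Ext.none :=
  certFK0 (fam := true) (s1 := true) (s2 := true) (a := 1) (b := 0) (c := 2) (cn := .npp) (n1 := ndF0q1) (n2 := ndF0q0) (pc := pcF2) (cut := cut_pp_102) (xt := Ext.none) (P1 := 536870912) (W1 := 536870912) (P2 := 0) (W2 := 536870912) (P3 := 50331648) (W3 := 16777216)
    rfl rfl rfl k0_pp_102

noncomputable def cut_pp_112 : Cut := Cut.of [[⟨3, 0, 0, 1449551462⟩], [⟨4, 0, 0, 2845415833⟩]]

noncomputable def f_pp_112 : ℕ → ℕ → ℕ → ℕ → Bool := onCell 536870912 536870912 536870912 536870912 50331648 16777216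
    (rowFK 0 true true true .dn 1 1 2 (qsf 536870912 536870912 536870912 536870912 2) ndF0q1 ndF0q1 pcF2 cut_pp_112 Ext.none)

def k0_pp_112 : ∃ t, chk3 f_pp_112 t 1 1 1 = true :=
  ⟨(l 4), by decide +kernel⟩

theorem c_pp_112 : CertF 536870912 536870912 536870912 536870912 50331648 16777216 true true true .dn 1 1 2
    ndF0q1 ndF0q1 pcF2 cut_pp_112 Ext.none :=
  certFK0 (fam := true) (s1 := true) (s2 := true) (a := 1) (b := 1) (c := 2) (cn := .dn) (n1 := ndF0q1) (n2 := ndF0q1) (pc := pcF2) (cut := cut_pp_112) (xt := Ext.none) (P1 := 536870912) (W1 := 536870912) (P2 := 536870912) (W2 := 536870912) (P3 := 50331648) (W3 := 16777216)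
    rfl rfl rfl k0_pp_112

noncomputable def cut_pp_113 : Cut := Cut.of [[⟨3, 0, 0, 1449551462⟩], [⟨4, 0, 0, 2845415833⟩]]

noncomputable def f_pp_113 : ℕ → ℕ → ℕ → ℕ → Bool := onCell 536870912 536870912 536870912 536870912 50331648 16777216
    (rowFK 0 true true true .nn 1 1 3 (qsf 536870912 536870912 536870912 536870912 3) ndF0q1 ndF0q1 pcF3 cut_pp_113 Ext.none)

def k0_pp_113 : ∃ t, chk3 f_pp_113 t 1 1 1 = true :=
  ⟨(l 4), by decide +kernel⟩

theorem c_pp_113 : CertF 536870912 536870912 536870912 536870912 50331648 16777216 true true true .nn 1 1 3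
    ndF0q1 ndF0q1 pcF3 cut_pp_113 Ext.none :=
  certFK0 (fam := true) (s1 := true) (s2 := true) (a := 1) (b := 1) (c := 3) (cn := .nn) (n1 := ndF0q1) (n2 := ndF0q1) (pc := pcF3) (cut := cut_pp_113) (xt := Ext.none) (P1 := 536870912) (W1 := 536870912) (P2 := 536870912) (W2 := 536870912) (P3 := 50331648) (W3 := 16777216)
    rfl rfl rfl k0_pp_113

noncomputable def cut_pp_123 : Cut := Cut.of [[⟨3, 0, 0, 1449551462⟩], [⟨4, 0, 0, 2845415833⟩]]

noncomputable def f_pp_123 : ℕ → ℕ → ℕ → ℕ → Bool := onCell 536870912 536870912 0 536870912 50331648 16777216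
    (rowFK 0 true true true .npn 1 2 3 (qsf 536870912 536870912 0 536870912 3) ndF0q1 ndF0q2 pcF3 cut_pp_123 Ext.none)

def k0_pp_123 : ∃ t, chk3 f_pp_123 t 1 1 1 = true :=
  ⟨(a (l 14) (l 4)), by decide +kernel⟩

theorem c_pp_123 : CertF 536870912 536870912 0 536870912 50331648 16777216 true true true .npn 1 2 3
    ndF0q1 ndF0q2 pcF3 cut_pp_123 Ext.none :=
  certFK0 (fam := true) (s1 := true) (s2 := true) (a := 1) (b := 2) (c := 3) (cn := .npn) (n1 := ndF0q1) (n2 := ndF0q2) (pc := pcF3) (cut := cut_pp_123) (xt := Ext.none) (P1 := 536870912) (W1 := 536870912) (P2 := 0) (W2 := 536870912) (P3 := 50331648) (W3 := 16777216)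
    rfl rfl rfl k0_pp_123

noncomputable def cut_pp_202 : Cut := Cut.of [[⟨3, 0, 0, 1449551462⟩], [⟨4, 0, 0, 2845415833⟩]]

noncomputable def f_pp_202 : ℕ → ℕ → ℕ → ℕ → Bool := onCell 0 536870912 0 536870912 50331648 16777216
    (rowFK 0 true true true .pp 2 0 2 (qsf 0 536870912 0 536870912 2) ndF0q2 ndF0q0 pcF2 cut_pp_202 Ext.none)

def k0_pp_202 : ∃ t, chk3 f_pp_202 t 1 1 1 = true :=
  ⟨(l 5), by decide +kernel⟩

theorem c_pp_202 : CertF 0 536870912 0 536870912 50331648 16777216 true true true .pp 2 0 2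
    ndF0q2 ndF0q0 pcF2 cut_pp_202 Ext.none :=
  certFK0 (fam := true) (s1 := true) (s2 := true) (a := 2) (b := 0) (c := 2) (cn := .pp) (n1 := ndF0q2) (n2 := ndF0q0) (pc := pcF2) (cut := cut_pp_202) (xt := Ext.none) (P1 := 0) (W1 := 536870912) (P2 := 0) (W2 := 536870912) (P3 := 50331648) (W3 := 16777216)
    rfl rfl rfl k0_pp_202

noncomputable def cut_pp_203 : Cut := Cut.of [[⟨3, 0, 0, 1449551462⟩], [⟨4, 0, 0, 2845415833⟩]]

noncomputable def f_pp_203 : ℕ → ℕ → ℕ → ℕ → Bool := onCell 0 536870912 0 536870912 50331648 16777216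
    (rowFK 0 true true true .up 2 0 3 (qsf 0 536870912 0 536870912 3) ndF0q2 ndF0q0 pcF3 cut_pp_203 Ext.none)

def k0_pp_203 : ∃ t, chk3 f_pp_203 t 1 1 1 = true :=
  ⟨(l 5), by decide +kernel⟩

theorem c_pp_203 : CertF 0 536870912 0 536870912 50331648 16777216 true true true .up 2 0 3
    ndF0q2 ndF0q0 pcF3 cut_pp_203 Ext.none :=
  certFK0 (fam := true) (s1 := true) (s2 := true) (a := 2) (b := 0) (c := 3) (cn := .up) (n1 := ndF0q2) (n2 := ndF0q0) (pc := pcF3) (cut := cut_pp_203) (xt := Ext.none) (P1 := 0) (W1 := 536870912) (P2 := 0) (W2 := 536870912) (P3 := 50331648) (W3 := 16777216)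
    rfl rfl rfl k0_pp_203

noncomputable def cut_pp_213 : Cut := Cut.of [[⟨3, 0, 0, 1449551462⟩], [⟨4, 0, 0, 2845415833⟩]]

noncomputable def f_pp_213 : ℕ → ℕ → ℕ → ℕ → Bool := onCell 0 536870912 536870912 536870912 50331648 16777216
    (rowFK 0 true true true .pnn 2 1 3 (qsf 0 536870912 536870912 536870912 3) ndF0q2 ndF0q1 pcF3 cut_pp_213 Ext.none)

def k0_pp_213 : ∃ t, chk3 f_pp_213 t 1 1 1 = true :=
  ⟨(a (l 5) (l 4)), by decide +kernel⟩

theorem c_pp_213 : CertF 0 536870912 536870912 536870912 50331648 16777216 true true true .pnn 2 1 3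
    ndF0q2 ndF0q1 pcF3 cut_pp_213 Ext.none :=
  certFK0 (fam := true) (s1 := true) (s2 := true) (a := 2) (b := 1) (c := 3) (cn := .pnn) (n1 := ndF0q2) (n2 := ndF0q1) (pc := pcF3) (cut := cut_pp_213) (xt := Ext.none) (P1 := 0) (W1 := 536870912) (P2 := 536870912) (W2 := 536870912) (P3 := 50331648) (W3 := 16777216)
    rfl rfl rfl k0_pp_213

noncomputable def cut_pm_001 : Cut := Cut.of [[⟨3, 0, 0, 1449551462⟩], [⟨4, 0, 0, 2845415833⟩]]

noncomputable def f_pm_001 : ℕ → ℕ → ℕ → ℕ → Bool := onCell 0 536870912 0 536870912 50331648 16777216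
    (rowFK 0 true true false .up 0 0 1 (qsf 0 536870912 0 536870912 1) ndF0q0 ndF0q0 pcF1 cut_pm_001 Ext.none)

def k0_pm_001 : ∃ t, chk3 f_pm_001 t 1 1 1 = true :=
  ⟨(l 3), by decide +kernel⟩

theorem c_pm_001 : CertF 0 536870912 0 536870912 50331648 16777216 true true false .up 0 0 1
    ndF0q0 ndF0q0 pcF1 cut_pm_001 Ext.none :=
  certFK0 (fam := true) (s1 := true) (s2 := false) (a := 0) (b := 0) (c := 1) (cn := .up) (n1 := ndF0q0) (n2 := ndF0q0) (pc := pcF1) (cut := cut_pm_001) (xt := Ext.none) (P1 := 0) (W1 := 536870912) (P2 := 0) (W2 := 536870912) (P3 := 50331648) (W3 := 16777216)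
    rfl rfl rfl k0_pm_001

noncomputable def cut_pm_011 : Cut := Cut.of [[⟨3, 0, 0, 1449551462⟩], [⟨4, 0, 0, 2845415833⟩], [⟨0, 0, 0, 50331648⟩, ⟨1, 1, 0, 50331648⟩, ⟨2, 1, 0, 50331648⟩]]

noncomputable def f_pm_011 : ℕ → ℕ → ℕ → ℕ → Bool := onCell 0 536870912 536870912 536870912 50331648 16777216
    (rowFK 1 true true false .pnn 0 1 1 (qsf 0 536870912 536870912 536870912 1) ndF0q0 ndF0q1 pcF1 cut_pm_011 Ext.none)

def k0_pm_011 : ∃ t, chk3 f_pm_011 t 1 1 1 = true :=
  ⟨(l 6), by decide +kernel⟩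

theorem c_pm_011 : CertF 0 536870912 536870912 536870912 50331648 16777216 true true false .pnn 0 1 1
    ndF0q0 ndF0q1 pcF1 cut_pm_011 Ext.none :=
  certFK1 (fam := true) (s1 := true) (s2 := false) (a := 0) (b := 1) (c := 1) (cn := .pnn) (n1 := ndF0q0) (n2 := ndF0q1) (pc := pcF1) (cut := cut_pm_011) (xt := Ext.none) (P1 := 0) (W1 := 536870912) (P2 := 536870912) (W2 := 536870912) (P3 := 50331648) (W3 := 16777216)
    rfl rfl rfl (fun _ => rfl) k0_pm_011

noncomputable def cut_pm_012 : Cut := Cut.of [[⟨3, 0, 0, 1449551462⟩], [⟨4, 0, 0, 2845415833⟩], [⟨0, 0, 0, 12582912⟩, ⟨1, 1, 0, 12582912⟩, ⟨2, 1, 0, 12582912⟩], [⟨0, 0, 1, 25165824⟩, ⟨1, 1, 0, 8388608⟩, ⟨2, 1, 1, 25165824⟩, ⟨0, 0, 0, 83886080⟩, ⟨0, 1, 0, 1040187392⟩, ⟨2, 1, 0, 83886080⟩, ⟨2, 2, 0, 1040187392⟩]]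

noncomputable def f_pm_012 : ℕ → ℕ → ℕ → ℕ → Bool := onCell 0 536870912 536870912 536870912 50331648 16777216
    (rowFK 0 true true false .pnp 0 1 2 (qsf 0 536870912 536870912 536870912 2) ndF0q0 ndF0q1 pcF2 cut_pm_012 Ext.none)

def k0_pm_012 : ∃ t, chk3 f_pm_012 t 1 1 1 = true :=
  ⟨(b (l 6) (a (a (l 6) (b (l 6) (a (l 6) (b (l 6) (b (l 6) (b (l 6) (a (l 6) (l 18433344)))))))) (a (b (l 6) (b (a (l 6) (b (l 6) (a (l 17807592) (l 17849872)))) (b (a (b (l 17981240) (l 18185744)) (l 18216424)) (a (b (l 18393720) (l 18600560)) (l 18630392))))) (b (b (l 6) (a (b (l 6) (l 17379704)) (l 17310096))) (b (b (a (l 17676760) (b (l 17430824) (l 17553304))) (a (l 17865608) (l 17812240))) (b (a (l 18245880) (l 18191136)) (a (l 18659600) (l 18603592)))))))), by decide +kernel⟩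

theorem c_pm_012 : CertF 0 536870912 536870912 536870912 50331648 16777216 true true false .pnp 0 1 2
    ndF0q0 ndF0q1 pcF2 cut_pm_012 Ext.none :=
  certFK0 (fam := true) (s1 := true) (s2 := false) (a := 0) (b := 1) (c := 2) (cn := .pnp) (n1 := ndF0q0) (n2 := ndF0q1) (pc := pcF2) (cut := cut_pm_012) (xt := Ext.none) (P1 := 0) (W1 := 536870912) (P2 := 536870912) (W2 := 536870912) (P3 := 50331648) (W3 := 16777216)
    rfl rfl rfl k0_pm_012

noncomputable def cut_pm_022 : Cut := Cut.of [[⟨3, 0, 0, 1449551462⟩], [⟨4, 0, 0, 2845415833⟩], [⟨0, 0, 0, 50331648⟩, ⟨1, 1, 0, 50331648⟩, ⟨2, 1, 0, 50331648⟩], [⟨0, 0, 1, 25165824⟩, ⟨1, 1, 0, 8388608⟩, ⟨2, 1, 1, 25165824⟩, ⟨0, 0, 0, 83886080⟩, ⟨0, 1, 0, 1040187392⟩, ⟨2, 1, 0, 83886080⟩, ⟨2, 2, 0, 1040187392⟩]]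

noncomputable def f_pm_022 : ℕ → ℕ → ℕ → ℕ → Bool := onCell 1073741824 536870912 0 536870912 50331648 16777216
    (rowFK 2 true true false .pp 0 2 2 (qsf 0 536870912 0 536870912 2) ndF0q0 ndF0q2 pcF2 cut_pm_022 Ext.none)

def k0_pm_022 : ∃ t, chk3 f_pm_022 t 1 1 1 = true :=
  ⟨(a (b (a (a (l 1) (b (l 1) (a (l 1) (l 43524529223)))) (b (a (a (l 18892216) (l 18771040)) (l 18517904)) (a (a (l 18766112) (l 18666808)) (l 18527056)))) (b (a (a (l 1) (a (b (l 1) (a (l 6) (b (l 58018161367) (l 6)))) (b (a (l 18547032) (l 18620864)) (b (l 18440240) (l 18308328))))) (a (b (l 18586288) (a (l 18444848) (l 18472080))) (b (l 18518472) (l 18499760)))) (a (l 6) (a (b (a (b (l 18311664) (l 18217368)) (l 18365744)) (b (a (l 6) (l 18283720)) (l 6))) (b (l 18479064) (b (l 18467080) (l 18461776))))))) (b (a (b (a (l 18271240) (l 18069008)) (a (l 18394840) (l 18444472))) (b (a (l 17878080) (l 17685248)) (a (b (l 18075496) (l 18205088)) (b (l 17903296) (a (l 18097080) (l 18013184))))))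 (b (a (a (l 18492560) (l 18455112)) (b (a (l 18320136) (l 18188456)) (a (l 18441176) (l 18327336)))) (a (b (a (l 18576392) (l 18611984)) (a (b (l 18630208) (l 18672784)) (l 18744272))) (a (b (l 18582912) (l 18752768)) (b (l 18489816) (l 18683680))))))), by decide +kernel⟩

theorem c_pm_022 : CertF 0 536870912 0 536870912 50331648 16777216 true true false .pp 0 2 2
    ndF0q0 ndF0q2 pcF2 cut_pm_022 Ext.none :=
  certFK2 (fam := true) (s1 := true) (s2 := false) (a := 0) (b := 2) (c := 2) (cn := .pp) (n1 := ndF0q0) (n2 := ndF0q2) (pc := pcF2) (cut := cut_pm_022) (xt := Ext.none) (P1 := 0) (W1 := 536870912) (P2 := 0) (W2 := 536870912) (P3 := 50331648) (W3 := 16777216)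
    rfl rfl rfl (fun _ => rfl) k0_pm_022

noncomputable def cut_pm_023 : Cut := Cut.of [[⟨3, 0, 0, 1449551462⟩], [⟨4, 0, 0, 2845415833⟩]]

noncomputable def f_pm_023 : ℕ → ℕ → ℕ → ℕ → Bool := onCell 1610612736 536870912 0 536870912 50331648 16777216
    (rowFK 2 true true false .up 0 2 3 (qsf 0 536870912 0 536870912 3) ndF0q0 ndF0q2 pcF3 cut_pm_023 Ext.none)

def k0_pm_023 : ∃ t, chk3 f_pm_023 t 1 1 1 = true :=
  ⟨(a (a (b (b (a (b (l 17927832) (l 18282456)) (b (l 17795088) (l 17936184))) (a (b (l 18653240) (l 19080240)) (b (l 18288192) (l 18673472)))) (b (a (b (l 19170240) (l 18940120)) (b (l 18975328) (l 18855552))) (b (b (l 18957880) (l 25874689159)) (a (b (l 18486744) (l 18378704)) (l 2))))) (b (a (b (b (l 14) (l 102645128839)) (a (l 18247920) (l 2))) (l 2)) (b (l 2) (l 2)))) (l 2)), by decide +kernel⟩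

theorem c_pm_023 : CertF 0 536870912 0 536870912 50331648 16777216 true true false .up 0 2 3
    ndF0q0 ndF0q2 pcF3 cut_pm_023 Ext.none :=
  certFK2 (fam := true) (s1 := true) (s2 := false) (a := 0) (b := 2) (c := 3) (cn := .up) (n1 := ndF0q0) (n2 := ndF0q2) (pc := pcF3) (cut := cut_pm_023) (xt := Ext.none) (P1 := 0) (W1 := 536870912) (P2 := 0) (W2 := 536870912) (P3 := 50331648) (W3 := 16777216)
    rfl rfl rfl (fun _ => rfl) k0_pm_023

noncomputable def cut_pm_101 : Cut := Cut.of [[⟨3, 0, 0, 1449551462⟩], [⟨4, 0, 0, 2845415833⟩], [⟨0, 1, 0, 50331648⟩, ⟨1, 0, 0, 50331648⟩, ⟨2, 1, 0, 50331648⟩]]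

noncomputable def f_pm_101 : ℕ → ℕ → ℕ → ℕ → Bool := onCell 536870912 536870912 536870912 536870912 50331648 16777216
    (rowFK 1 true true false .npn 1 0 1 (qsf 536870912 536870912 0 536870912 1) ndF0q1 ndF0q0 pcF1 cut_pm_101 Ext.none)

def k0_pm_101 : ∃ t, chk3 f_pm_101 t 1 1 1 = true :=
  ⟨(l 6), by decide +kernel⟩

theorem c_pm_101 : CertF 536870912 536870912 0 536870912 50331648 16777216 true true false .npn 1 0 1
    ndF0q1 ndF0q0 pcF1 cut_pm_101 Ext.none :=
  certFK1 (fam := true) (s1 := true) (s2 := false) (a := 1) (b := 0) (c := 1) (cn := .npn) (n1 := ndF0q1) (n2 := ndF0q0) (pc := pcF1) (cut := cut_pm_101) (xt := Ext.none) (P1 := 536870912) (W1 := 536870912) (P2 := 0) (W2 := 536870912) (P3 := 50331648) (W3 := 16777216)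
    rfl rfl rfl (fun _ => rfl) k0_pm_101

noncomputable def cut_pm_102 : Cut := Cut.of [[⟨3, 0, 0, 1449551462⟩], [⟨4, 0, 0, 2845415833⟩], [⟨0, 1, 0, 12582912⟩, ⟨1, 0, 0, 12582912⟩, ⟨2, 1, 0, 12582912⟩], [⟨0, 1, 0, 8388608⟩, ⟨1, 0, 1, 25165824⟩, ⟨2, 1, 1, 25165824⟩, ⟨1, 0, 0, 83886080⟩, ⟨1, 1, 0, 1040187392⟩, ⟨2, 1, 0, 83886080⟩, ⟨2, 2, 0, 1040187392⟩]]

noncomputable def f_pm_102 : ℕ → ℕ → ℕ → ℕ → Bool := onCell 536870912 536870912 0 536870912 50331648 16777216
    (rowFK 0 true true false .npp 1 0 2 (qsf 536870912 536870912 0 536870912 2) ndF0q1 ndF0q0 pcF2 cut_pm_102 Ext.none)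

def k0_pm_102 : ∃ t, chk3 f_pm_102 t 1 1 1 = true :=
  ⟨(a (l 6) (b (a (l 6) (b (l 6) (a (l 6) (b (l 6) (a (l 6) (a (l 6) (b (l 6) (l 18433344)))))))) (a (b (l 6) (a (l 6) (b (a (l 6) (l 17379704)) (l 17310096)))) (b (a (b (l 6) (a (l 6) (b (l 17807592) (l 17849872)))) (a (b (a (l 17981240) (l 18185744)) (l 18216424)) (b (a (l 18393720) (l 18600560)) (l 18630392)))) (a (a (b (l 17676760) (a (l 17430824) (l 17553304))) (b (l 17865608) (l 17812240))) (a (b (l 18245880) (l 18191136)) (b (l 18659600) (l 18603592)))))))), by decide +kernel⟩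

theorem c_pm_102 : CertF 536870912 536870912 0 536870912 50331648 16777216 true true false .npp 1 0 2
    ndF0q1 ndF0q0 pcF2 cut_pm_102 Ext.none :=
  certFK0 (fam := true) (s1 := true) (s2 := false) (a := 1) (b := 0) (c := 2) (cn := .npp) (n1 := ndF0q1) (n2 := ndF0q0) (pc := pcF2) (cut := cut_pm_102) (xt := Ext.none) (P1 := 536870912) (W1 := 536870912) (P2 := 0) (W2 := 536870912) (P3 := 50331648) (W3 := 16777216)
    rfl rfl rfl k0_pm_102

noncomputable def cut_pm_112 : Cut := Cut.of [[⟨3, 0, 0, 1449551462⟩], [⟨4, 0, 0, 2845415833⟩]]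

noncomputable def f_pm_112 : ℕ → ℕ → ℕ → ℕ → Bool := onCell 536870912 536870912 1073741824 536870912 50331648 16777216
    (rowFK 1 true true false .dn 1 1 2 (qsf 536870912 536870912 536870912 536870912 2) ndF0q1 ndF0q1 pcF2 cut_pm_112 Ext.none)

def k0_pm_112 : ∃ t, chk3 f_pm_112 t 1 1 1 = true :=
  ⟨(a (b (l 6) (b (b (l 6) (a (a (l 17242744) (l 17167432)) (a (l 17101728) (l 17129896)))) (a (b (a (a (b (l 17409104) (l 17769080)) (l 17357568)) (l 17269464)) (a (a (b (l 17918440) (l 18333264)) (b (l 17678408) (l 17887288))) (a (b (l 17361032) (l 17542128)) (l 17317728)))) (a (l 17324576) (l 17297880))))) (b (a (l 6) (l 1)) (b (a (a (l 87544853767) (b (l 17506816) (l 17322880))) (a (b (l 1) (a (l 135326775287) (l 1))) (l 1))) (a (b (l 17501464) (l 17416232)) (a (b (a (l 17519320) (l 17785928)) (a (l 17389464) (l 17837416))) (a (b (l 18210168) (l 18103336)) (b (l 1) (l 18572904)))))))), by decide +kernel⟩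

theorem c_pm_112 : CertF 536870912 536870912 536870912 536870912 50331648 16777216 true true false .dn 1 1 2
    ndF0q1 ndF0q1 pcF2 cut_pm_112 Ext.none :=
  certFK1 (fam := true) (s1 := true) (s2 := false) (a := 1) (b := 1) (c := 2) (cn := .dn) (n1 := ndF0q1) (n2 := ndF0q1) (pc := pcF2) (cut := cut_pm_112) (xt := Ext.none) (P1 := 536870912) (W1 := 536870912) (P2 := 536870912) (W2 := 536870912) (P3 := 50331648) (W3 := 16777216)
    rfl rfl rfl (fun _ => rfl) k0_pm_112

noncomputable def cut_pm_113 : Cut := Cut.of [[⟨3, 0, 0, 1449551462⟩], [⟨4, 0, 0, 2845415833⟩], [⟨0, 1, 0, 14341072⟩, ⟨1, 1, 0, 14341072⟩, ⟨2, 2, 0, 761489⟩]]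

noncomputable def f_pm_113 : ℕ → ℕ → ℕ → ℕ → Bool := onCell 536870912 536870912 536870912 536870912 50331648 16777216
    (rowFK 0 true true false .nn 1 1 3 (qsf 536870912 536870912 536870912 536870912 3) ndF0q1 ndF0q1 pcF3 cut_pm_113 Ext.none)

def k0_pm_113 : ∃ t, chk3 f_pm_113 t 2 1 1 = true :=
  ⟨(b (a (l 1) (b (l 1) (l 212635617271))) (b (a (a (l 1) (b (l 1) (l 177202165399))) (b (l 17422632) (l 17510264))) (a (b (a (b (l 1) (a (l 1) (b (l 1) (l 168612767319)))) (b (a (a (l 1) (l 173981091159)) (l 17434752)) (a (b (a (l 159485743847) (a (l 135863389959) (l 96671742951))) (l 104188200135)) (b (b (l 17464592) (l 17499992)) (l 17581216))))) (b (a (a (l 183108588375) (b (l 150896220727) (l 17863552))) (b (a (l 17733304) (l 17710216)) (l 17867400))) (a (b (l 33858799287) (l 18143496)) (b (l 18039648) (l 18246856))))) (b (b (a (l 17384024) (l 17304504)) (a (a (l 17585912) (l 17449360)) (l 17521088))) (b (a (l 17993952) (b (l 17615632) (l 17736968))) (a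 (b (l 18067200) (l 18338488)) (b (l 18029488) (l 18439800)))))))), by decide +kernel⟩

def k1_pm_113 : ∃ t, chk3 f_pm_113 t 3 1 1 = true :=
  ⟨(b (a (a (b (l 1) (l 17422632)) (b (b (l 1) (l 177202165399)) (l 17510264))) (b (a (b (a (l 1) (b (l 1) (a (l 1) (l 168612767319)))) (a (b (b (l 1) (l 173981091159)) (l 17434752)) (b (a (b (l 159485743847) (b (l 135863389959) (l 96671742951))) (l 104188200135)) (a (a (l 17464592) (l 17499992)) (l 17581216))))) (a (b (b (l 183108588375) (a (l 150896220727) (l 17863552))) (a (b (l 17733304) (l 17710216)) (l 17867400))) (b (a (l 33858799287) (l 18143496)) (a (l 18039648) (l 18246856))))) (a (a (b (l 17384024) (l 17304504)) (b (b (l 17585912) (l 17449360)) (l 17521088))) (a (b (l 17993952) (a (l 17615632) (l 17736968))) (b (a (l 18067200) (l 18338488)) (a (l 18029488) (l 18439800))))))) (b (a (l 17354208) (a (b (l 17221056) (l 17109936)) (b (a (a (l 17406400) (b (l 17585560) (l 17455608))) (a (l 17946224) (a (l 18197616)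 (l 18430464)))) (a (a (l 17134632) (b (l 17343272) (l 17160064))) (a (b (l 17673352) (l 17713336)) (a (l 18088608) (b (l 18316768) (l 18178808)))))))) (a (b (a (l 17221056) (l 17109936)) (a (b (b (l 17406400) (a (l 17585560) (l 17455608))) (b (l 17946224) (b (l 18197616) (l 18430464)))) (b (b (l 17134632) (a (l 17343272) (l 17160064))) (b (a (l 17673352) (l 17713336)) (b (l 18088608) (a (l 18316768) (l 18178808))))))) (b (a (l 16974272) (a (b (l 17043192) (l 16966192)) (b (a (a (l 17146536) (l 17476832)) (a (l 17642080) (a (l 17888264) (l 18062056)))) (a (a (l 16986384) (l 14)) (l 14))))) (a (b (a (l 17043192) (l 16966192)) (a (b (b (l 17146536) (l 17476832)) (b (l 17642080) (b (l 17888264) (l 18062056)))) (b (b (l 16986384) (l 14)) (l 14)))) (b (a (l 16877248) (l 14)) (l 14))))))), by decide +kernel⟩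

theorem s2_pm_113 : ∃ t, chk3 f_pm_113 t 1 1 1 = true := ex3_a k0_pm_113 k1_pm_113

theorem c_pm_113 : CertF 536870912 536870912 536870912 536870912 50331648 16777216 true true false .nn 1 1 3
    ndF0q1 ndF0q1 pcF3 cut_pm_113 Ext.none :=
  certFK0 (fam := true) (s1 := true) (s2 := false) (a := 1) (b := 1) (c := 3) (cn := .nn) (n1 := ndF0q1) (n2 := ndF0q1) (pc := pcF3) (cut := cut_pm_113) (xt := Ext.none) (P1 := 536870912) (W1 := 536870912) (P2 := 536870912) (W2 := 536870912) (P3 := 50331648) (W3 := 16777216)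
    rfl rfl rfl s2_pm_113

noncomputable def cut_pm_123 : Cut := Cut.of [[⟨3, 0, 0, 1449551462⟩], [⟨4, 0, 0, 2845415833⟩], [⟨0, 1, 0, 14341072⟩, ⟨1, 1, 0, 14341072⟩, ⟨2, 2, 0, 761489⟩]]

noncomputable def f_pm_123 : ℕ → ℕ → ℕ → ℕ → Bool := onCell 1610612736 536870912 0 536870912 50331648 16777216
    (rowFK 2 true true false .npn 1 2 3 (qsf 536870912 536870912 0 536870912 3) ndF0q1 ndF0q2 pcF3 cut_pm_123 Ext.none)

def k0_pm_123 : ∃ t, chk3 f_pm_123 t 1 1 1 = true :=
  ⟨(a (a (a (b (l 1) (b (l 1) (b (l 18696056) (b (l 18486984) (l 18420744))))) (b (b (l 1) (b (l 1) (l 18674136))) (b (b (l 18996784) (l 18855792)) (b (l 18684008) (b (l 18539368) (l 18417224)))))) (b (a (b (b (l 14) (a (l 17674360) (l 14))) (a (l 18248032) (l 18237400))) (b (l 14) (a (b (l 17628496) (l 17950744)) (b (l 14) (l 17784928))))) (b (a (b (a (l 18730872) (l 18536096)) (l 18692784)) (b (a (l 18481792) (l 18072656)) (b (l 18643056) (l 18437760)))) (b (a (l 18622656) (l 18685600))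 (a (b (l 18561960) (l 18504472)) (b (l 18517800) (l 18537104))))))) (a (b (a (b (l 14) (b (l 14) (a (l 17645136) (l 14)))) (l 14)) (b (a (a (b (l 17839152) (l 18348312)) (b (l 17673328) (b (l 17834968) (l 17953008)))) (b (l 14) (a (b (l 14) (l 17714736)) (l 14)))) (b (a (a (l 18293704) (l 18128728)) (a (l 18075080) (b (l 14) (l 17784704)))) (a (b (l 18369376) (a (l 18509064) (l 18447784))) (b (a (l 18171208) (l 17985928)) (a (l 18347376) (b (l 18151312) (l 18263768)))))))) (a (b (l 14) (b (l 14) (l 14))) (l 14)))), by decide +kernel⟩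

theorem c_pm_123 : CertF 536870912 536870912 0 536870912 50331648 16777216 true true false .npn 1 2 3
    ndF0q1 ndF0q2 pcF3 cut_pm_123 Ext.none :=
  certFK2 (fam := true) (s1 := true) (s2 := false) (a := 1) (b := 2) (c := 3) (cn := .npn) (n1 := ndF0q1) (n2 := ndF0q2) (pc := pcF3) (cut := cut_pm_123) (xt := Ext.none) (P1 := 536870912) (W1 := 536870912) (P2 := 0) (W2 := 536870912) (P3 := 50331648) (W3 := 16777216)
    rfl rfl rfl (fun _ => rfl) k0_pm_123

noncomputable def cut_pm_202 : Cut := Cut.of [[⟨3, 0, 0, 1449551462⟩], [⟨4, 0, 0, 2845415833⟩], [⟨0, 1, 0, 50331648⟩, ⟨1, 0, 0, 50331648⟩, ⟨2, 1, 0, 50331648⟩], [⟨0, 1, 0, 8388608⟩, ⟨1, 0, 1, 25165824⟩, ⟨2, 1, 1, 25165824⟩, ⟨1, 0, 0, 83886080⟩, ⟨1, 1, 0, 1040187392⟩, ⟨2, 1, 0, 83886080⟩, ⟨2, 2, 0, 1040187392⟩]]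

noncomputable def f_pm_202 : ℕ → ℕ → ℕ → ℕ → Bool := onCell 0 536870912 1073741824 536870912 50331648 16777216
    (rowFK 1 true true false .pp 2 0 2 (qsf 0 536870912 0 536870912 2) ndF0q2 ndF0q0 pcF2 cut_pm_202 Ext.none)

def k0_pm_202 : ∃ t, chk3 f_pm_202 t 1 1 1 = true :=
  ⟨(a (b (b (b (l 1) (a (l 1) (b (l 1) (a (l 1) (l 18752560))))) (a (b (b (l 18887904) (l 18770472)) (l 18517904)) (b (b (a (l 18817624) (l 18737152)) (l 18666808)) (l 18527056)))) (b (a (b (l 18271240) (l 18069008)) (b (l 18394840) (l 18423504))) (a (b (l 17878080) (l 17685248)) (b (a (l 18075496) (l 18205088)) (a (l 17903296) (b (l 18097080) (l 18013184))))))) (a (b (b (b (l 1) (a (b (l 1) (b (l 18545832) (l 18620136))) (b (b (l 6) (a (b (l 18140696) (l 18291800)) (l 6))) (a (l 18440168) (l 18308328))))) (b (a (l 18607256) (b (l 18444848) (l 18472080))) (l 18757192))) (b (b (l 18492560) (l 18455112)) (a (b (l 18320136) (l 18188456)) (b (l 18441176) (l 18327336))))) (b (b (l 6)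 (b (a (b (a (l 18311664) (l 18217368)) (l 18365744)) (a (b (l 6) (l 18283720)) (l 6))) (a (l 18479064) (a (l 18467080) (l 18461800))))) (b (a (b (l 18576392) (l 18611984)) (b (l 18879800) (l 18744504))) (a (b (l 18582912) (l 18489816)) (b (l 18752984) (l 18683880))))))), by decide +kernel⟩

theorem c_pm_202 : CertF 0 536870912 0 536870912 50331648 16777216 true true false .pp 2 0 2
    ndF0q2 ndF0q0 pcF2 cut_pm_202 Ext.none :=
  certFK1 (fam := true) (s1 := true) (s2 := false) (a := 2) (b := 0) (c := 2) (cn := .pp) (n1 := ndF0q2) (n2 := ndF0q0) (pc := pcF2) (cut := cut_pm_202) (xt := Ext.none) (P1 := 0) (W1 := 536870912) (P2 := 0) (W2 := 536870912) (P3 := 50331648) (W3 := 16777216)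
    rfl rfl rfl (fun _ => rfl) k0_pm_202

noncomputable def cut_pm_203 : Cut := Cut.of [[⟨3, 0, 0, 1449551462⟩], [⟨4, 0, 0, 2845415833⟩]]

noncomputable def f_pm_203 : ℕ → ℕ → ℕ → ℕ → Bool := onCell 0 536870912 1610612736 536870912 50331648 16777216
    (rowFK 1 true true false .up 2 0 3 (qsf 0 536870912 0 536870912 3) ndF0q2 ndF0q0 pcF3 cut_pm_203 Ext.none)

def k0_pm_203 : ∃ t, chk3 f_pm_203 t 1 1 1 = true :=
  ⟨(b (b (a (a (b (a (l 17927832) (l 18282456)) (a (l 17795088) (l 17936184))) (b (a (l 18653240) (l 19080240)) (a (l 18288192) (l 18673472)))) (a (b (a (l 19170240) (l 18940120)) (a (l 18975328) (l 18855552))) (a (a (l 18957880) (l 25874689159)) (b (a (l 18486744) (l 18378704)) (l 2))))) (a (b (a (a (l 14) (l 102645128839)) (b (l 18247920) (l 2))) (l 2)) (a (l 2) (l 2)))) (l 2)), by decide +kernel⟩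

theorem c_pm_203 : CertF 0 536870912 0 536870912 50331648 16777216 true true false .up 2 0 3
    ndF0q2 ndF0q0 pcF3 cut_pm_203 Ext.none :=
  certFK1 (fam := true) (s1 := true) (s2 := false) (a := 2) (b := 0) (c := 3) (cn := .up) (n1 := ndF0q2) (n2 := ndF0q0) (pc := pcF3) (cut := cut_pm_203) (xt := Ext.none) (P1 := 0) (W1 := 536870912) (P2 := 0) (W2 := 536870912) (P3 := 50331648) (W3 := 16777216)
    rfl rfl rfl (fun _ => rfl) k0_pm_203

noncomputable def cut_pm_213 : Cut := Cut.of [[⟨3, 0, 0, 1449551462⟩], [⟨4, 0, 0, 2845415833⟩], [⟨0, 1, 0, 14341072⟩, ⟨1, 1, 0, 14341072⟩, ⟨2, 2, 0, 761489⟩]]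

noncomputable def f_pm_213 : ℕ → ℕ → ℕ → ℕ → Bool := onCell 0 536870912 1610612736 536870912 50331648 16777216
    (rowFK 1 true true false .pnn 2 1 3 (qsf 0 536870912 536870912 536870912 3) ndF0q2 ndF0q1 pcF3 cut_pm_213 Ext.none)

def k0_pm_213 : ∃ t, chk3 f_pm_213 t 1 1 1 = true :=
  ⟨(b (b (b (a (l 1) (a (l 1) (a (l 18696056) (a (l 18486984) (l 18420744))))) (a (a (l 1) (a (l 1) (l 18674136))) (a (a (l 18996784) (l 18855792)) (a (l 18684008) (a (l 18539368) (l 18417224)))))) (a (b (a (a (l 14) (a (l 17592320) (l 17664944))) (b (l 18248032) (l 18237400))) (a (l 14) (b (a (l 17628496) (l 17950744)) (a (l 14) (l 17784928))))) (a (b (a (b (l 18730872) (l 18536096)) (l 18692784)) (a (b (l 18481792) (l 18072656)) (a (l 18643056) (l 18437760)))) (a (b (l 18622656) (l 18685600)) (b (a (l 18561960) (l 18504472)) (a (l 18517800) (l 18537104))))))) (b (a (b (a (l 14) (a (l 14) (b (l 17645136) (l 14)))) (l 14)) (a (b (b (a (l 17839152) (l 18348312)) (a (l 17673328)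 (a (l 17834968) (l 17953008)))) (a (l 14) (b (a (l 14) (l 17714736)) (l 14)))) (a (b (b (l 18293704) (l 18128728)) (b (l 18075080) (a (l 14) (l 17784704)))) (b (a (l 18369376) (b (l 18509064) (l 18447784))) (a (b (l 18171208) (l 17985928)) (b (l 18347376) (a (l 18151312) (l 18263768)))))))) (b (a (l 14) (a (l 14) (l 14))) (l 14)))), by decide +kernel⟩

theorem c_pm_213 : CertF 0 536870912 536870912 536870912 50331648 16777216 true true false .pnn 2 1 3
    ndF0q2 ndF0q1 pcF3 cut_pm_213 Ext.none :=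
  certFK1 (fam := true) (s1 := true) (s2 := false) (a := 2) (b := 1) (c := 3) (cn := .pnn) (n1 := ndF0q2) (n2 := ndF0q1) (pc := pcF3) (cut := cut_pm_213) (xt := Ext.none) (P1 := 0) (W1 := 536870912) (P2 := 536870912) (W2 := 536870912) (P3 := 50331648) (W3 := 16777216)
    rfl rfl rfl (fun _ => rfl) k0_pm_213

noncomputable def cut_mm_001 : Cut := Cut.of [[⟨3, 0, 0, 1449551462⟩], [⟨4, 0, 0, 2845415833⟩]]

noncomputable def f_mm_001 : ℕ → ℕ → ℕ → ℕ → Bool := onCell 0 536870912 0 536870912 50331648 16777216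
    (rowFK 0 true false false .up 0 0 1 (qsf 0 536870912 0 536870912 1) ndF0q0 ndF0q0 pcF1 cut_mm_001 Ext.none)

def k0_mm_001 : ∃ t, chk3 f_mm_001 t 1 1 1 = true :=
  ⟨(l 4), by decide +kernel⟩

theorem c_mm_001 : CertF 0 536870912 0 536870912 50331648 16777216 true false false .up 0 0 1
    ndF0q0 ndF0q0 pcF1 cut_mm_001 Ext.none :=
  certFK0 (fam := true) (s1 := false) (s2 := false) (a := 0) (b := 0) (c := 1) (cn := .up) (n1 := ndF0q0) (n2 := ndF0q0) (pc := pcF1) (cut := cut_mm_001) (xt := Ext.none) (P1 := 0) (W1 := 536870912) (P2 := 0) (W2 := 536870912) (P3 := 50331648) (W3 := 16777216)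
    rfl rfl rfl k0_mm_001

noncomputable def cut_mm_011 : Cut := Cut.of [[⟨3, 0, 0, 1449551462⟩], [⟨4, 0, 0, 2845415833⟩]]

noncomputable def f_mm_011 : ℕ → ℕ → ℕ → ℕ → Bool := onCell 0 536870912 536870912 536870912 50331648 16777216
    (rowFK 0 true false false .pnn 0 1 1 (qsf 0 536870912 536870912 536870912 1) ndF0q0 ndF0q1 pcF1 cut_mm_011 Ext.none)

def k0_mm_011 : ∃ t, chk3 f_mm_011 t 1 1 1 = true :=
  ⟨(l 14), by decide +kernel⟩

theorem c_mm_011 : CertF 0 536870912 536870912 536870912 50331648 16777216 true false false .pnn 0 1 1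
    ndF0q0 ndF0q1 pcF1 cut_mm_011 Ext.none :=
  certFK0 (fam := true) (s1 := false) (s2 := false) (a := 0) (b := 1) (c := 1) (cn := .pnn) (n1 := ndF0q0) (n2 := ndF0q1) (pc := pcF1) (cut := cut_mm_011) (xt := Ext.none) (P1 := 0) (W1 := 536870912) (P2 := 536870912) (W2 := 536870912) (P3 := 50331648) (W3 := 16777216)
    rfl rfl rfl k0_mm_011

noncomputable def cut_mm_012 : Cut := Cut.of [[⟨3, 0, 0, 1449551462⟩], [⟨4, 0, 0, 2845415833⟩]]

noncomputable def f_mm_012 : ℕ → ℕ → ℕ → ℕ → Bool := onCell 0 536870912 536870912 536870912 50331648 16777216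
    (rowFK 0 true false false .pnp 0 1 2 (qsf 0 536870912 536870912 536870912 2) ndF0q0 ndF0q1 pcF2 cut_mm_012 Ext.none)

def k0_mm_012 : ∃ t, chk3 f_mm_012 t 1 1 1 = true :=
  ⟨(l 14), by decide +kernel⟩

theorem c_mm_012 : CertF 0 536870912 536870912 536870912 50331648 16777216 true false false .pnp 0 1 2
    ndF0q0 ndF0q1 pcF2 cut_mm_012 Ext.none :=
  certFK0 (fam := true) (s1 := false) (s2 := false) (a := 0) (b := 1) (c := 2) (cn := .pnp) (n1 := ndF0q0) (n2 := ndF0q1) (pc := pcF2) (cut := cut_mm_012) (xt := Ext.none) (P1 := 0) (W1 := 536870912) (P2 := 536870912) (W2 := 536870912) (P3 := 50331648) (W3 := 16777216)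
    rfl rfl rfl k0_mm_012

noncomputable def cut_mm_022 : Cut := Cut.of [[⟨3, 0, 0, 1449551462⟩], [⟨4, 0, 0, 2845415833⟩]]

noncomputable def f_mm_022 : ℕ → ℕ → ℕ → ℕ → Bool := onCell 0 536870912 0 536870912 50331648 16777216
    (rowFK 0 true false false .pp 0 2 2 (qsf 0 536870912 0 536870912 2) ndF0q0 ndF0q2 pcF2 cut_mm_022 Ext.none)

def k0_mm_022 : ∃ t, chk3 f_mm_022 t 1 1 1 = true :=
  ⟨(l 5), by decide +kernel⟩

theorem c_mm_022 : CertF 0 536870912 0 536870912 50331648 16777216 true false false .pp 0 2 2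
    ndF0q0 ndF0q2 pcF2 cut_mm_022 Ext.none :=
  certFK0 (fam := true) (s1 := false) (s2 := false) (a := 0) (b := 2) (c := 2) (cn := .pp) (n1 := ndF0q0) (n2 := ndF0q2) (pc := pcF2) (cut := cut_mm_022) (xt := Ext.none) (P1 := 0) (W1 := 536870912) (P2 := 0) (W2 := 536870912) (P3 := 50331648) (W3 := 16777216)
    rfl rfl rfl k0_mm_022

noncomputable def cut_mm_023 : Cut := Cut.of [[⟨3, 0, 0, 1449551462⟩], [⟨4, 0, 0, 2845415833⟩]]

noncomputable def f_mm_023 : ℕ → ℕ → ℕ → ℕ → Bool := onCell 0 536870912 0 536870912 50331648 16777216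
    (rowFK 0 true false false .up 0 2 3 (qsf 0 536870912 0 536870912 3) ndF0q0 ndF0q2 pcF3 cut_mm_023 Ext.none)

def k0_mm_023 : ∃ t, chk3 f_mm_023 t 1 1 1 = true :=
  ⟨(l 5), by decide +kernel⟩

theorem c_mm_023 : CertF 0 536870912 0 536870912 50331648 16777216 true false false .up 0 2 3
    ndF0q0 ndF0q2 pcF3 cut_mm_023 Ext.none :=
  certFK0 (fam := true) (s1 := false) (s2 := false) (a := 0) (b := 2) (c := 3) (cn := .up) (n1 := ndF0q0) (n2 := ndF0q2) (pc := pcF3) (cut := cut_mm_023) (xt := Ext.none) (P1 := 0) (W1 := 536870912) (P2 := 0) (W2 := 536870912) (P3 := 50331648) (W3 := 16777216)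
    rfl rfl rfl k0_mm_023

noncomputable def cut_mm_101 : Cut := Cut.of [[⟨3, 0, 0, 1449551462⟩], [⟨4, 0, 0, 2845415833⟩], [⟨0, 1, 0, 50331648⟩, ⟨1, 0, 0, 50331648⟩, ⟨2, 1, 0, 50331648⟩]]

noncomputable def f_mm_101 : ℕ → ℕ → ℕ → ℕ → Bool := onCell 536870912 536870912 0 536870912 50331648 16777216
    (rowFK 0 true false false .npn 1 0 1 (qsf 536870912 536870912 0 536870912 1) ndF0q1 ndF0q0 pcF1 cut_mm_101 Ext.none)

def k0_mm_101 : ∃ t, chk3 f_mm_101 t 1 1 1 = true :=
  ⟨(l 14), by decide +kernel⟩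

theorem c_mm_101 : CertF 536870912 536870912 0 536870912 50331648 16777216 true false false .npn 1 0 1
    ndF0q1 ndF0q0 pcF1 cut_mm_101 Ext.none :=
  certFK0 (fam := true) (s1 := false) (s2 := false) (a := 1) (b := 0) (c := 1) (cn := .npn) (n1 := ndF0q1) (n2 := ndF0q0) (pc := pcF1) (cut := cut_mm_101) (xt := Ext.none) (P1 := 536870912) (W1 := 536870912) (P2 := 0) (W2 := 536870912) (P3 := 50331648) (W3 := 16777216)
    rfl rfl rfl k0_mm_101

noncomputable def cut_mm_102 : Cut := Cut.of [[⟨3, 0, 0, 1449551462⟩], [⟨4, 0, 0, 2845415833⟩], [⟨0, 1, 0, 50331648⟩, ⟨1, 0, 0, 50331648⟩, ⟨2, 1, 0, 50331648⟩]]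

noncomputable def f_mm_102 : ℕ → ℕ → ℕ → ℕ → Bool := onCell 536870912 536870912 0 536870912 50331648 16777216
    (rowFK 0 true false false .npp 1 0 2 (qsf 536870912 536870912 0 536870912 2) ndF0q1 ndF0q0 pcF2 cut_mm_102 Ext.none)

def k0_mm_102 : ∃ t, chk3 f_mm_102 t 1 1 1 = true :=
  ⟨(l 14), by decide +kernel⟩

theorem c_mm_102 : CertF 536870912 536870912 0 536870912 50331648 16777216 true false false .npp 1 0 2
    ndF0q1 ndF0q0 pcF2 cut_mm_102 Ext.none :=
  certFK0 (fam := true) (s1 := false) (s2 := false) (a := 1) (b := 0) (c := 2) (cn := .npp) (n1 := ndF0q1) (n2 := ndF0q0) (pc := pcF2) (cut := cut_mm_102) (xt := Ext.none) (P1 := 536870912) (W1 := 536870912) (P2 := 0) (W2 := 536870912) (P3 := 50331648) (W3 := 16777216)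
    rfl rfl rfl k0_mm_102

noncomputable def cut_mm_112 : Cut := Cut.of [[⟨3, 0, 0, 1449551462⟩], [⟨4, 0, 0, 2845415833⟩]]

noncomputable def f_mm_112 : ℕ → ℕ → ℕ → ℕ → Bool := onCell 536870912 536870912 536870912 536870912 50331648 16777216
    (rowFK 0 true false false .dn 1 1 2 (qsf 536870912 536870912 536870912 536870912 2) ndF0q1 ndF0q1 pcF2 cut_mm_112 Ext.none)

def k0_mm_112 : ∃ t, chk3 f_mm_112 t 1 1 1 = true :=
  ⟨(l 4), by decide +kernel⟩

theorem c_mm_112 : CertF 536870912 536870912 536870912 536870912 50331648 16777216 true false false .dn 1 1 2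
    ndF0q1 ndF0q1 pcF2 cut_mm_112 Ext.none :=
  certFK0 (fam := true) (s1 := false) (s2 := false) (a := 1) (b := 1) (c := 2) (cn := .dn) (n1 := ndF0q1) (n2 := ndF0q1) (pc := pcF2) (cut := cut_mm_112) (xt := Ext.none) (P1 := 536870912) (W1 := 536870912) (P2 := 536870912) (W2 := 536870912) (P3 := 50331648) (W3 := 16777216)
    rfl rfl rfl k0_mm_112

noncomputable def cut_mm_113 : Cut := Cut.of [[⟨3, 0, 0, 1449551462⟩], [⟨4, 0, 0, 2845415833⟩]]

noncomputable def f_mm_113 : ℕ → ℕ → ℕ → ℕ → Bool := onCell 536870912 536870912 536870912 536870912 50331648 16777216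
    (rowFK 0 true false false .nn 1 1 3 (qsf 536870912 536870912 536870912 536870912 3) ndF0q1 ndF0q1 pcF3 cut_mm_113 Ext.none)

def k0_mm_113 : ∃ t, chk3 f_mm_113 t 1 1 1 = true :=
  ⟨(l 4), by decide +kernel⟩

theorem c_mm_113 : CertF 536870912 536870912 536870912 536870912 50331648 16777216 true false false .nn 1 1 3
    ndF0q1 ndF0q1 pcF3 cut_mm_113 Ext.none :=
  certFK0 (fam := true) (s1 := false) (s2 := false) (a := 1) (b := 1) (c := 3) (cn := .nn) (n1 := ndF0q1) (n2 := ndF0q1) (pc := pcF3) (cut := cut_mm_113) (xt := Ext.none) (P1 := 536870912) (W1 := 536870912) (P2 := 536870912) (W2 := 536870912) (P3 := 50331648) (W3 := 16777216)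
    rfl rfl rfl k0_mm_113

noncomputable def cut_mm_123 : Cut := Cut.of [[⟨3, 0, 0, 1449551462⟩], [⟨4, 0, 0, 2845415833⟩]]

noncomputable def f_mm_123 : ℕ → ℕ → ℕ → ℕ → Bool := onCell 536870912 536870912 0 536870912 50331648 16777216
    (rowFK 0 true false false .npn 1 2 3 (qsf 536870912 536870912 0 536870912 3) ndF0q1 ndF0q2 pcF3 cut_mm_123 Ext.none)

def k0_mm_123 : ∃ t, chk3 f_mm_123 t 1 1 1 = true :=
  ⟨(a (l 5) (l 4)), by decide +kernel⟩

theorem c_mm_123 : CertF 536870912 536870912 0 536870912 50331648 16777216 true false false .npn 1 2 3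
    ndF0q1 ndF0q2 pcF3 cut_mm_123 Ext.none :=
  certFK0 (fam := true) (s1 := false) (s2 := false) (a := 1) (b := 2) (c := 3) (cn := .npn) (n1 := ndF0q1) (n2 := ndF0q2) (pc := pcF3) (cut := cut_mm_123) (xt := Ext.none) (P1 := 536870912) (W1 := 536870912) (P2 := 0) (W2 := 536870912) (P3 := 50331648) (W3 := 16777216)
    rfl rfl rfl k0_mm_123

noncomputable def cut_mm_202 : Cut := Cut.of [[⟨3, 0, 0, 1449551462⟩], [⟨4, 0, 0, 2845415833⟩], [⟨0, 1, 0, 16777216⟩, ⟨1, 0, 0, 16777216⟩, ⟨2, 1, 0, 16777216⟩]]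

noncomputable def f_mm_202 : ℕ → ℕ → ℕ → ℕ → Bool := onCell 0 536870912 0 536870912 50331648 16777216
    (rowFK 0 true false false .pp 2 0 2 (qsf 0 536870912 0 536870912 2) ndF0q2 ndF0q0 pcF2 cut_mm_202 Ext.none)

def k0_mm_202 : ∃ t, chk3 f_mm_202 t 1 1 1 = true :=
  ⟨(b (a (b (b (a (b (l 18818656) (l 18570080)) (b (a (l 18770656) (l 18671264)) (l 18418856))) (a (l 18273008) (a (l 18120984) (l 17966792)))) (a (b (l 17967856) (l 17716152)) (b (a (l 17758720) (l 17780832)) (a (l 17469872) (l 14))))) (b (a (b (a (b (b (l 18552352) (l 18402048)) (l 18165048)) (b (a (b (b (l 18290960) (l 18255952)) (l 14)) (l 14)) (l 14))) (a (b (l 17877696) (l 14)) (l 14))) (l 14)) (l 14))) (a (a (b (b (a (l 17570872) (l 17407896)) (a (l 17361648) (l 14))) (l 2)) (l 14)) (l 14))), by decide +kernel⟩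

theorem c_mm_202 : CertF 0 536870912 0 536870912 50331648 16777216 true false false .pp 2 0 2
    ndF0q2 ndF0q0 pcF2 cut_mm_202 Ext.none :=
  certFK0 (fam := true) (s1 := false) (s2 := false) (a := 2) (b := 0) (c := 2) (cn := .pp) (n1 := ndF0q2) (n2 := ndF0q0) (pc := pcF2) (cut := cut_mm_202) (xt := Ext.none) (P1 := 0) (W1 := 536870912) (P2 := 0) (W2 := 536870912) (P3 := 50331648) (W3 := 16777216)
    rfl rfl rfl k0_mm_202

noncomputable def cut_mm_203 : Cut := Cut.of [[⟨3, 0, 0, 1449551462⟩], [⟨4, 0, 0, 2845415833⟩]]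

noncomputable def f_mm_203 : ℕ → ℕ → ℕ → ℕ → Bool := onCell 0 536870912 1610612736 536870912 50331648 16777216
    (rowFK 1 true false false .up 2 0 3 (qsf 0 536870912 0 536870912 3) ndF0q2 ndF0q0 pcF3 cut_mm_203 Ext.none)

def k0_mm_203 : ∃ t, chk3 f_mm_203 t 1 1 1 = true :=
  ⟨(a (b (b (b (a (a (l 17763256) (l 14)) (l 14)) (l 14)) (l 14)) (l 2)) (l 14)), by decide +kernel⟩

theorem c_mm_203 : CertF 0 536870912 0 536870912 50331648 16777216 true false false .up 2 0 3
    ndF0q2 ndF0q0 pcF3 cut_mm_203 Ext.none :=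
  certFK1 (fam := true) (s1 := false) (s2 := false) (a := 2) (b := 0) (c := 3) (cn := .up) (n1 := ndF0q2) (n2 := ndF0q0) (pc := pcF3) (cut := cut_mm_203) (xt := Ext.none) (P1 := 0) (W1 := 536870912) (P2 := 0) (W2 := 536870912) (P3 := 50331648) (W3 := 16777216)
    rfl rfl rfl (fun _ => rfl) k0_mm_203

noncomputable def cut_mm_213 : Cut := Cut.of [[⟨3, 0, 0, 1449551462⟩], [⟨4, 0, 0, 2845415833⟩]]

noncomputable def f_mm_213 : ℕ → ℕ → ℕ → ℕ → Bool := onCell 0 536870912 536870912 536870912 50331648 16777216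
    (rowFK 0 true false false .pnn 2 1 3 (qsf 0 536870912 536870912 536870912 3) ndF0q2 ndF0q1 pcF3 cut_mm_213 Ext.none)

def k0_mm_213 : ∃ t, chk3 f_mm_213 t 1 1 1 = true :=
  ⟨(a (l 14) (l 4)), by decide +kernel⟩

theorem c_mm_213 : CertF 0 536870912 536870912 536870912 50331648 16777216 true false false .pnn 2 1 3
    ndF0q2 ndF0q1 pcF3 cut_mm_213 Ext.none :=
  certFK0 (fam := true) (s1 := false) (s2 := false) (a := 2) (b := 1) (c := 3) (cn := .pnn) (n1 := ndF0q2) (n2 := ndF0q1) (pc := pcF3) (cut := cut_mm_213) (xt := Ext.none) (P1 := 0) (W1 := 536870912) (P2 := 536870912) (W2 := 536870912) (P3 := 50331648) (W3 := 16777216)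
    rfl rfl rfl k0_mm_213

end Pool.Agent.Strip051.G.I3_64_1_16.Tab.C.FA00

namespace Pool.Agent.Strip051.G.I3_64_1_16.Tab.C.FA01

open Pool.Agent.Strip051.PB Pool.Agent.Strip051.PB.T
open Pool.Agent.Strip051.G.I3_64_1_16.Tab

noncomputable def f_pp_001 : ℕ → ℕ → ℕ → ℕ → Bool := onCell 0 536870912 0 536870912 50331648 16777216
    (rowFK 0 true true true .up 0 0 1 (qsf 0 536870912 0 536870912 1) ndF0q0 ndF1q0 pcF1 Cut.none Ext.none)

def k0_pp_001 : ∃ t, chk3 f_pp_001 t 1 1 1 = true :=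
  ⟨(l 4), by decide +kernel⟩

theorem c_pp_001 : CertF 0 536870912 0 536870912 50331648 16777216 true true true .up 0 0 1
    ndF0q0 ndF1q0 pcF1 Cut.none Ext.none :=
  certFK0 (fam := true) (s1 := true) (s2 := true) (a := 0) (b := 0) (c := 1) (cn := .up) (n1 := ndF0q0) (n2 := ndF1q0) (pc := pcF1) (cut := Cut.none) (xt := Ext.none) (P1 := 0) (W1 := 536870912) (P2 := 0) (W2 := 536870912) (P3 := 50331648) (W3 := 16777216)
    rfl rfl rfl k0_pp_001

noncomputable def f_pp_011 : ℕ → ℕ → ℕ → ℕ → Bool := onCell 0 536870912 536870912 536870912 50331648 16777216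
    (rowFK 0 true true true .pnn 0 1 1 (qsf 0 536870912 536870912 536870912 1) ndF0q0 ndF1q1 pcF1 Cut.none Ext.none)

def k0_pp_011 : ∃ t, chk3 f_pp_011 t 1 1 1 = true :=
  ⟨(l 4), by decide +kernel⟩

theorem c_pp_011 : CertF 0 536870912 536870912 536870912 50331648 16777216 true true true .pnn 0 1 1
    ndF0q0 ndF1q1 pcF1 Cut.none Ext.none :=
  certFK0 (fam := true) (s1 := true) (s2 := true) (a := 0) (b := 1) (c := 1) (cn := .pnn) (n1 := ndF0q0) (n2 := ndF1q1) (pc := pcF1) (cut := Cut.none) (xt := Ext.none) (P1 := 0) (W1 := 536870912) (P2 := 536870912) (W2 := 536870912) (P3 := 50331648) (W3 := 16777216)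
    rfl rfl rfl k0_pp_011

noncomputable def f_pp_012 : ℕ → ℕ → ℕ → ℕ → Bool := onCell 0 536870912 536870912 536870912 50331648 16777216
    (rowFK 0 true true true .pnp 0 1 2 (qsf 0 536870912 536870912 536870912 2) ndF0q0 ndF1q1 pcF2 Cut.none Ext.none)

def k0_pp_012 : ∃ t, chk3 f_pp_012 t 1 1 1 = true :=
  ⟨(l 4), by decide +kernel⟩

theorem c_pp_012 : CertF 0 536870912 536870912 536870912 50331648 16777216 true true true .pnp 0 1 2
    ndF0q0 ndF1q1 pcF2 Cut.none Ext.none :=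
  certFK0 (fam := true) (s1 := true) (s2 := true) (a := 0) (b := 1) (c := 2) (cn := .pnp) (n1 := ndF0q0) (n2 := ndF1q1) (pc := pcF2) (cut := Cut.none) (xt := Ext.none) (P1 := 0) (W1 := 536870912) (P2 := 536870912) (W2 := 536870912) (P3 := 50331648) (W3 := 16777216)
    rfl rfl rfl k0_pp_012

noncomputable def cut_pp_022_a : Cut := Cut.of [[⟨0, 0, 0, 50331648⟩, ⟨1, 1, 0, 50331648⟩, ⟨2, 1, 0, 50331648⟩]]

noncomputable def f_pp_022_a : ℕ → ℕ → ℕ → ℕ → Bool := onCell 0 536870912 0 536870912 50331648 16777216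
    (rowFK 0 true true true .pp 0 2 2 (qsf 0 536870912 0 536870912 2) ndF0q0 ndF1q2a pcF2 cut_pp_022_a Ext.none)

def k0_pp_022_a : ∃ t, chk3 f_pp_022_a t 1 1 1 = true :=
  ⟨(a (b (b (a (a (a (l 18862088) (l 18485040)) (l 18021784)) (a (l 17715888) (l 66808008839))) (a (a (a (l 18729384) (l 18342264)) (a (l 18001632) (l 17690776))) (a (l 4) (l 4)))) (a (b (a (b (a (a (l 18543976) (l 18371456)) (l 18093856)) (a (b (a (l 18248400) (l 18131504)) (a (a (b (l 18018360) (l 17720184)) (l 17942464)) (a (l 17921896) (l 17873304)))) (a (b (l 17969872) (l 17772120)) (l 4)))) (a (b (l 17750688) (l 4)) (l 4))) (a (a (a (b (b (a (b (a (l 17275496) (l 17573184)) (a (b (l 17145696) (l 16945040)) (b (l 17342104) (l 17140040)))) (b (l 17586088) (a (l 17169528) (l 17385152)))) (a (b (a (l 16713392) (b (l 16953672) (l 16714552))) (a (b (l 16714208) (l 6)) (b (l 16715224) (l 16720544)))) (b (a (b (l 17089600) (l 16918448)) (b (l 17217384) (l 17016688))) (a (b (l 16716064)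 (l 16721528)) (b (l 16841696) (l 16725336)))))) (b (a (l 6) (a (b (b (l 16733176) (l 6)) (l 4)) (l 4))) (l 6))) (b (b (a (b (l 17680672) (b (l 17535744) (l 17428672))) (l 126937523943)) (b (a (a (l 75397194151) (l 4)) (l 4)) (l 4))) (l 4))) (l 4)) (l 4))) (l 4))) (l 4)), by decide +kernel⟩

theorem c_pp_022_a : CertF 0 536870912 0 536870912 50331648 16777216 true true true .pp 0 2 2
    ndF0q0 ndF1q2a pcF2 cut_pp_022_a Ext.none :=
  certFK0 (fam := true) (s1 := true) (s2 := true) (a := 0) (b := 2) (c := 2) (cn := .pp) (n1 := ndF0q0) (n2 := ndF1q2a) (pc := pcF2) (cut := cut_pp_022_a) (xt := Ext.none) (P1 := 0) (W1 := 536870912) (P2 := 0) (W2 := 536870912) (P3 := 50331648) (W3 := 16777216)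
    rfl rfl rfl k0_pp_022_a

noncomputable def cut_pp_022_b : Cut := Cut.of [[⟨0, 0, 0, 50331648⟩, ⟨1, 1, 0, 50331648⟩, ⟨2, 1, 0, 50331648⟩]]

noncomputable def f_pp_022_b : ℕ → ℕ → ℕ → ℕ → Bool := onCell 0 536870912 1239849684 370763052 50331648 16777216
    (rowFK 0 true true true .pp 0 2 2 (qsf 0 536870912 1239849684 370763052 2) ndF0q0 ndF1q2b pcF2 cut_pp_022_b Ext.none)

def k0_pp_022_b : ∃ t, chk3 f_pp_022_b t 1 1 1 = true :=
  ⟨(a (b (a (b (a (b (l 18789200) (l 18938608)) (b (l 18173896) (l 18341304))) (a (l 19046832) (l 18476096))) (b (a (b (l 17730152) (l 17872936)) (a (l 17708320) (l 4))) (l 4))) (a (b (a (l 19039216) (l 4)) (l 4)) (l 4))) (l 4)), by decide +kernel⟩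

theorem c_pp_022_b : CertF 0 536870912 1239849684 370763052 50331648 16777216 true true true .pp 0 2 2
    ndF0q0 ndF1q2b pcF2 cut_pp_022_b Ext.none :=
  certFK0 (fam := true) (s1 := true) (s2 := true) (a := 0) (b := 2) (c := 2) (cn := .pp) (n1 := ndF0q0) (n2 := ndF1q2b) (pc := pcF2) (cut := cut_pp_022_b) (xt := Ext.none) (P1 := 0) (W1 := 536870912) (P2 := 1239849684) (W2 := 370763052) (P3 := 50331648) (W3 := 16777216)
    rfl rfl rfl k0_pp_022_b

noncomputable def f_pp_023_a : ℕ → ℕ → ℕ → ℕ → Bool := onCell 0 536870912 0 536870912 50331648 16777216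
    (rowFK 0 true true true .up 0 2 3 (qsf 0 536870912 0 536870912 3) ndF0q0 ndF1q2a pcF3 Cut.none Ext.none)

def k0_pp_023_a : ∃ t, chk3 f_pp_023_a t 1 1 1 = true :=
  ⟨(a (l 1) (l 4)), by decide +kernel⟩

theorem c_pp_023_a : CertF 0 536870912 0 536870912 50331648 16777216 true true true .up 0 2 3
    ndF0q0 ndF1q2a pcF3 Cut.none Ext.none :=
  certFK0 (fam := true) (s1 := true) (s2 := true) (a := 0) (b := 2) (c := 3) (cn := .up) (n1 := ndF0q0) (n2 := ndF1q2a) (pc := pcF3) (cut := Cut.none) (xt := Ext.none) (P1 := 0) (W1 := 536870912) (P2 := 0) (W2 := 536870912) (P3 := 50331648) (W3 := 16777216)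
    rfl rfl rfl k0_pp_023_a

noncomputable def f_pp_023_b : ℕ → ℕ → ℕ → ℕ → Bool := onCell 0 536870912 1610612736 536870912 50331648 16777216
    (rowFK 1 true true true .up 0 2 3 (qsf 0 536870912 1239849684 370763052 3) ndF0q0 ndF1q2b pcF3 Cut.none Ext.none)

def k0_pp_023_b : ∃ t, chk3 f_pp_023_b t 1 1 1 = true :=
  ⟨(b (l 4) (l 4)), by decide +kernel⟩

theorem c_pp_023_b : CertF 0 536870912 1239849684 370763052 50331648 16777216 true true true .up 0 2 3
    ndF0q0 ndF1q2b pcF3 Cut.none Ext.none :=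
  certFK1 (fam := true) (s1 := true) (s2 := true) (a := 0) (b := 2) (c := 3) (cn := .up) (n1 := ndF0q0) (n2 := ndF1q2b) (pc := pcF3) (cut := Cut.none) (xt := Ext.none) (P1 := 0) (W1 := 536870912) (P2 := 1239849684) (W2 := 370763052) (P3 := 50331648) (W3 := 16777216)
    rfl rfl rfl (fun _ => rfl) k0_pp_023_b

noncomputable def f_pp_033 : ℕ → ℕ → ℕ → ℕ → Bool := onCell 0 536870912 1610612736 536870912 50331648 16777216
    (rowFK 0 true true true .pnn 0 3 3 (qsf 0 536870912 1610612736 536870912 3) ndF0q0 ndF1q3 pcF3 Cut.none Ext.none)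

def k0_pp_033 : ∃ t, chk3 f_pp_033 t 1 1 1 = true :=
  ⟨(a (l 4) (l 4)), by decide +kernel⟩

theorem c_pp_033 : CertF 0 536870912 1610612736 536870912 50331648 16777216 true true true .pnn 0 3 3
    ndF0q0 ndF1q3 pcF3 Cut.none Ext.none :=
  certFK0 (fam := true) (s1 := true) (s2 := true) (a := 0) (b := 3) (c := 3) (cn := .pnn) (n1 := ndF0q0) (n2 := ndF1q3) (pc := pcF3) (cut := Cut.none) (xt := Ext.none) (P1 := 0) (W1 := 536870912) (P2 := 1610612736) (W2 := 536870912) (P3 := 50331648) (W3 := 16777216)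
    rfl rfl rfl k0_pp_033

noncomputable def f_pp_101 : ℕ → ℕ → ℕ → ℕ → Bool := onCell 536870912 536870912 0 536870912 50331648 16777216
    (rowFK 0 true true true .npn 1 0 1 (qsf 536870912 536870912 0 536870912 1) ndF0q1 ndF1q0 pcF1 Cut.none Ext.none)

def k0_pp_101 : ∃ t, chk3 f_pp_101 t 1 1 1 = true :=
  ⟨(l 5), by decide +kernel⟩

theorem c_pp_101 : CertF 536870912 536870912 0 536870912 50331648 16777216 true true true .npn 1 0 1
    ndF0q1 ndF1q0 pcF1 Cut.none Ext.none :=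
  certFK0 (fam := true) (s1 := true) (s2 := true) (a := 1) (b := 0) (c := 1) (cn := .npn) (n1 := ndF0q1) (n2 := ndF1q0) (pc := pcF1) (cut := Cut.none) (xt := Ext.none) (P1 := 536870912) (W1 := 536870912) (P2 := 0) (W2 := 536870912) (P3 := 50331648) (W3 := 16777216)
    rfl rfl rfl k0_pp_101

noncomputable def f_pp_102 : ℕ → ℕ → ℕ → ℕ → Bool := onCell 536870912 536870912 0 536870912 50331648 16777216
    (rowFK 0 true true true .npp 1 0 2 (qsf 536870912 536870912 0 536870912 2) ndF0q1 ndF1q0 pcF2 Cut.none Ext.none)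

def k0_pp_102 : ∃ t, chk3 f_pp_102 t 1 1 1 = true :=
  ⟨(l 5), by decide +kernel⟩

theorem c_pp_102 : CertF 536870912 536870912 0 536870912 50331648 16777216 true true true .npp 1 0 2
    ndF0q1 ndF1q0 pcF2 Cut.none Ext.none :=
  certFK0 (fam := true) (s1 := true) (s2 := true) (a := 1) (b := 0) (c := 2) (cn := .npp) (n1 := ndF0q1) (n2 := ndF1q0) (pc := pcF2) (cut := Cut.none) (xt := Ext.none) (P1 := 536870912) (W1 := 536870912) (P2 := 0) (W2 := 536870912) (P3 := 50331648) (W3 := 16777216)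
    rfl rfl rfl k0_pp_102

noncomputable def f_pp_112 : ℕ → ℕ → ℕ → ℕ → Bool := onCell 536870912 536870912 536870912 536870912 50331648 16777216
    (rowFK 0 true true true .dn 1 1 2 (qsf 536870912 536870912 536870912 536870912 2) ndF0q1 ndF1q1 pcF2 Cut.none Ext.none)

def k0_pp_112 : ∃ t, chk3 f_pp_112 t 1 1 1 = true :=
  ⟨(l 4), by decide +kernel⟩

theorem c_pp_112 : CertF 536870912 536870912 536870912 536870912 50331648 16777216 true true true .dn 1 1 2
    ndF0q1 ndF1q1 pcF2 Cut.none Ext.none :=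
  certFK0 (fam := true) (s1 := true) (s2 := true) (a := 1) (b := 1) (c := 2) (cn := .dn) (n1 := ndF0q1) (n2 := ndF1q1) (pc := pcF2) (cut := Cut.none) (xt := Ext.none) (P1 := 536870912) (W1 := 536870912) (P2 := 536870912) (W2 := 536870912) (P3 := 50331648) (W3 := 16777216)
    rfl rfl rfl k0_pp_112

noncomputable def f_pp_113 : ℕ → ℕ → ℕ → ℕ → Bool := onCell 536870912 536870912 536870912 536870912 50331648 16777216
    (rowFK 0 true true true .nn 1 1 3 (qsf 536870912 536870912 536870912 536870912 3) ndF0q1 ndF1q1 pcF3 Cut.none Ext.none)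

def k0_pp_113 : ∃ t, chk3 f_pp_113 t 1 1 1 = true :=
  ⟨(l 4), by decide +kernel⟩

theorem c_pp_113 : CertF 536870912 536870912 536870912 536870912 50331648 16777216 true true true .nn 1 1 3
    ndF0q1 ndF1q1 pcF3 Cut.none Ext.none :=
  certFK0 (fam := true) (s1 := true) (s2 := true) (a := 1) (b := 1) (c := 3) (cn := .nn) (n1 := ndF0q1) (n2 := ndF1q1) (pc := pcF3) (cut := Cut.none) (xt := Ext.none) (P1 := 536870912) (W1 := 536870912) (P2 := 536870912) (W2 := 536870912) (P3 := 50331648) (W3 := 16777216)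
    rfl rfl rfl k0_pp_113

noncomputable def f_pp_123_a : ℕ → ℕ → ℕ → ℕ → Bool := onCell 536870912 536870912 0 536870912 50331648 16777216
    (rowFK 0 true true true .npn 1 2 3 (qsf 536870912 536870912 0 536870912 3) ndF0q1 ndF1q2a pcF3 Cut.none Ext.none)

def k0_pp_123_a : ∃ t, chk3 f_pp_123_a t 1 1 1 = true :=
  ⟨(l 4), by decide +kernel⟩

theorem c_pp_123_a : CertF 536870912 536870912 0 536870912 50331648 16777216 true true true .npn 1 2 3
    ndF0q1 ndF1q2a pcF3 Cut.none Ext.none :=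
  certFK0 (fam := true) (s1 := true) (s2 := true) (a := 1) (b := 2) (c := 3) (cn := .npn) (n1 := ndF0q1) (n2 := ndF1q2a) (pc := pcF3) (cut := Cut.none) (xt := Ext.none) (P1 := 536870912) (W1 := 536870912) (P2 := 0) (W2 := 536870912) (P3 := 50331648) (W3 := 16777216)
    rfl rfl rfl k0_pp_123_a

noncomputable def f_pp_123_b : ℕ → ℕ → ℕ → ℕ → Bool := onCell 536870912 536870912 1239849684 370763052 50331648 16777216
    (rowFK 0 true true true .npn 1 2 3 (qsf 536870912 536870912 1239849684 370763052 3) ndF0q1 ndF1q2b pcF3 Cut.none Ext.none)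

def k0_pp_123_b : ∃ t, chk3 f_pp_123_b t 1 1 1 = true :=
  ⟨(l 4), by decide +kernel⟩

theorem c_pp_123_b : CertF 536870912 536870912 1239849684 370763052 50331648 16777216 true true true .npn 1 2 3
    ndF0q1 ndF1q2b pcF3 Cut.none Ext.none :=
  certFK0 (fam := true) (s1 := true) (s2 := true) (a := 1) (b := 2) (c := 3) (cn := .npn) (n1 := ndF0q1) (n2 := ndF1q2b) (pc := pcF3) (cut := Cut.none) (xt := Ext.none) (P1 := 536870912) (W1 := 536870912) (P2 := 1239849684) (W2 := 370763052) (P3 := 50331648) (W3 := 16777216)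
    rfl rfl rfl k0_pp_123_b

noncomputable def f_pp_133 : ℕ → ℕ → ℕ → ℕ → Bool := onCell 536870912 536870912 1610612736 536870912 50331648 16777216
    (rowFK 0 true true true .dn 1 3 3 (qsf 536870912 536870912 1610612736 536870912 3) ndF0q1 ndF1q3 pcF3 Cut.none Ext.none)

def k0_pp_133 : ∃ t, chk3 f_pp_133 t 1 1 1 = true :=
  ⟨(l 4), by decide +kernel⟩

theorem c_pp_133 : CertF 536870912 536870912 1610612736 536870912 50331648 16777216 true true true .dn 1 3 3
    ndF0q1 ndF1q3 pcF3 Cut.none Ext.none :=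
  certFK0 (fam := true) (s1 := true) (s2 := true) (a := 1) (b := 3) (c := 3) (cn := .dn) (n1 := ndF0q1) (n2 := ndF1q3) (pc := pcF3) (cut := Cut.none) (xt := Ext.none) (P1 := 536870912) (W1 := 536870912) (P2 := 1610612736) (W2 := 536870912) (P3 := 50331648) (W3 := 16777216)
    rfl rfl rfl k0_pp_133

noncomputable def f_pp_202 : ℕ → ℕ → ℕ → ℕ → Bool := onCell 0 536870912 0 536870912 50331648 16777216
    (rowFK 0 true true true .pp 2 0 2 (qsf 0 536870912 0 536870912 2) ndF0q2 ndF1q0 pcF2 Cut.none Ext.none)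

def k0_pp_202 : ∃ t, chk3 f_pp_202 t 1 1 1 = true :=
  ⟨(l 5), by decide +kernel⟩

theorem c_pp_202 : CertF 0 536870912 0 536870912 50331648 16777216 true true true .pp 2 0 2
    ndF0q2 ndF1q0 pcF2 Cut.none Ext.none :=
  certFK0 (fam := true) (s1 := true) (s2 := true) (a := 2) (b := 0) (c := 2) (cn := .pp) (n1 := ndF0q2) (n2 := ndF1q0) (pc := pcF2) (cut := Cut.none) (xt := Ext.none) (P1 := 0) (W1 := 536870912) (P2 := 0) (W2 := 536870912) (P3 := 50331648) (W3 := 16777216)
    rfl rfl rfl k0_pp_202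

noncomputable def f_pp_203 : ℕ → ℕ → ℕ → ℕ → Bool := onCell 0 536870912 0 536870912 50331648 16777216
    (rowFK 0 true true true .up 2 0 3 (qsf 0 536870912 0 536870912 3) ndF0q2 ndF1q0 pcF3 Cut.none Ext.none)

def k0_pp_203 : ∃ t, chk3 f_pp_203 t 1 1 1 = true :=
  ⟨(l 5), by decide +kernel⟩

theorem c_pp_203 : CertF 0 536870912 0 536870912 50331648 16777216 true true true .up 2 0 3
    ndF0q2 ndF1q0 pcF3 Cut.none Ext.none :=
  certFK0 (fam := true) (s1 := true) (s2 := true) (a := 2) (b := 0) (c := 3) (cn := .up) (n1 := ndF0q2) (n2 := ndF1q0) (pc := pcF3) (cut := Cut.none) (xt := Ext.none) (P1 := 0) (W1 := 536870912) (P2 := 0) (W2 := 536870912) (P3 := 50331648) (W3 := 16777216)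
    rfl rfl rfl k0_pp_203

noncomputable def f_pp_213 : ℕ → ℕ → ℕ → ℕ → Bool := onCell 0 536870912 536870912 536870912 50331648 16777216
    (rowFK 0 true true true .pnn 2 1 3 (qsf 0 536870912 536870912 536870912 3) ndF0q2 ndF1q1 pcF3 Cut.none Ext.none)

def k0_pp_213 : ∃ t, chk3 f_pp_213 t 1 1 1 = true :=
  ⟨(l 4), by decide +kernel⟩

theorem c_pp_213 : CertF 0 536870912 536870912 536870912 50331648 16777216 true true true .pnn 2 1 3
    ndF0q2 ndF1q1 pcF3 Cut.none Ext.none :=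
  certFK0 (fam := true) (s1 := true) (s2 := true) (a := 2) (b := 1) (c := 3) (cn := .pnn) (n1 := ndF0q2) (n2 := ndF1q1) (pc := pcF3) (cut := Cut.none) (xt := Ext.none) (P1 := 0) (W1 := 536870912) (P2 := 536870912) (W2 := 536870912) (P3 := 50331648) (W3 := 16777216)
    rfl rfl rfl k0_pp_213

noncomputable def f_pm_001 : ℕ → ℕ → ℕ → ℕ → Bool := onCell 0 536870912 0 536870912 50331648 16777216
    (rowFK 0 true true false .up 0 0 1 (qsf 0 536870912 0 536870912 1) ndF0q0 ndF1q0 pcF1 Cut.none Ext.none)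

def k0_pm_001 : ∃ t, chk3 f_pm_001 t 1 1 1 = true :=
  ⟨(l 3), by decide +kernel⟩

theorem c_pm_001 : CertF 0 536870912 0 536870912 50331648 16777216 true true false .up 0 0 1
    ndF0q0 ndF1q0 pcF1 Cut.none Ext.none :=
  certFK0 (fam := true) (s1 := true) (s2 := false) (a := 0) (b := 0) (c := 1) (cn := .up) (n1 := ndF0q0) (n2 := ndF1q0) (pc := pcF1) (cut := Cut.none) (xt := Ext.none) (P1 := 0) (W1 := 536870912) (P2 := 0) (W2 := 536870912) (P3 := 50331648) (W3 := 16777216)
    rfl rfl rfl k0_pm_001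

noncomputable def f_pm_011 : ℕ → ℕ → ℕ → ℕ → Bool := onCell 0 536870912 536870912 536870912 50331648 16777216
    (rowFK 1 true true false .pnn 0 1 1 (qsf 0 536870912 536870912 536870912 1) ndF0q0 ndF1q1 pcF1 Cut.none Ext.none)

def k0_pm_011 : ∃ t, chk3 f_pm_011 t 1 1 1 = true :=
  ⟨(l 3), by decide +kernel⟩

theorem c_pm_011 : CertF 0 536870912 536870912 536870912 50331648 16777216 true true false .pnn 0 1 1
    ndF0q0 ndF1q1 pcF1 Cut.none Ext.none :=
  certFK1 (fam := true) (s1 := true) (s2 := false) (a := 0) (b := 1) (c := 1) (cn := .pnn) (n1 := ndF0q0) (n2 := ndF1q1) (pc := pcF1) (cut := Cut.none) (xt := Ext.none) (P1 := 0) (W1 := 536870912) (P2 := 536870912) (W2 := 536870912) (P3 := 50331648) (W3 := 16777216)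
    rfl rfl rfl (fun _ => rfl) k0_pm_011

noncomputable def f_pm_012 : ℕ → ℕ → ℕ → ℕ → Bool := onCell 1073741824 536870912 536870912 536870912 50331648 16777216
    (rowFK 2 true true false .pnp 0 1 2 (qsf 0 536870912 536870912 536870912 2) ndF0q0 ndF1q1 pcF2 Cut.none Ext.none)

def k0_pm_012 : ∃ t, chk3 f_pm_012 t 1 1 1 = true :=
  ⟨(a (a (a (l 3) (b (b (a (a (l 3) (l 18422896)) (l 18498280)) (a (l 3) (l 18331064))) (b (a (l 3) (l 18236408)) (l 3)))) (b (a (a (a (b (l 18481136) (l 18416360)) (b (l 2) (a (l 18449488) (a (l 18466144) (l 18464384))))) (b (l 2) (l 18494864))) (b (l 2) (l 18507256))) (b (a (a (a (l 18354448) (a (l 18398616) (a (l 18419840) (l 18434504)))) (l 18495432)) (l 18607664)) (a (a (a (b (l 18461960) (l 3)) (b (a (l 18516008) (a (l 18540856) (l 18557896))) (a (l 18698536) (a (l 18730968) (l 18752016))))) (b (l 18626904) (l 18831104))) (b (l 18750200) (l 18958328)))))) (b (a (b (l 2) (a (l 18350584) (l 2))) (l 2)) (a (b (a (l 18641112)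 (l 18535872)) (b (l 18816216) (l 18986864))) (b (a (l 18250616) (l 2)) (b (l 18605024) (l 18793680)))))), by decide +kernel⟩

theorem c_pm_012 : CertF 0 536870912 536870912 536870912 50331648 16777216 true true false .pnp 0 1 2
    ndF0q0 ndF1q1 pcF2 Cut.none Ext.none :=
  certFK2 (fam := true) (s1 := true) (s2 := false) (a := 0) (b := 1) (c := 2) (cn := .pnp) (n1 := ndF0q0) (n2 := ndF1q1) (pc := pcF2) (cut := Cut.none) (xt := Ext.none) (P1 := 0) (W1 := 536870912) (P2 := 536870912) (W2 := 536870912) (P3 := 50331648) (W3 := 16777216)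
    rfl rfl rfl (fun _ => rfl) k0_pm_012

noncomputable def cut_pm_022_a : Cut := Cut.of [[⟨0, 0, 0, 50331648⟩, ⟨1, 1, 0, 50331648⟩, ⟨2, 1, 0, 50331648⟩], [⟨0, 0, 1, 33554432⟩, ⟨1, 1, 0, 16777216⟩, ⟨2, 1, 1, 33554432⟩, ⟨0, 0, 0, 83886080⟩, ⟨0, 1, 0, 1040187392⟩, ⟨2, 1, 0, 83886080⟩, ⟨2, 2, 0, 1040187392⟩]]

noncomputable def f_pm_022_a : ℕ → ℕ → ℕ → ℕ → Bool := onCell 1073741824 536870912 0 536870912 50331648 16777216
    (rowFK 2 true true false .pp 0 2 2 (qsf 0 536870912 0 536870912 2) ndF0q0 ndF1q2a pcF2 cut_pm_022_a Ext.none)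

def k0_pm_022_a : ∃ t, chk3 f_pm_022_a t 1 2 1 = true :=
  ⟨(a (a (a (l 1) (b (l 1) (a (l 1) (l 18719216)))) (a (b (l 18884848) (l 18927576)) (l 18712560))) (a (a (l 18635064) (l 18569040)) (b (l 18381864) (l 18474536)))), by decide +kernel⟩

def k1_pm_022_a : ∃ t, chk3 f_pm_022_a t 1 6 1 = true :=
  ⟨(a (a (a (l 1) (b (a (l 1) (l 139087195127)) (a (a (b (l 1) (a (l 1) (b (l 17786688) (a (l 17690120) (l 17817480))))) (b (l 91303973287) (a (b (l 18026632) (l 17966904)) (l 18144320)))) (a (l 18342312) (l 18438960))))) (a (b (l 18672560) (l 18539248)) (l 18641648))) (a (l 18677320) (l 18578896))), by decide +kernel⟩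

def k2_pm_022_a : ∃ t, chk3 f_pm_022_a t 1 14 1 = true :=
  ⟨(a (a (a (a (l 1) (b (a (l 1) (a (l 1) (b (l 1) (a (b (l 1) (l 16717816)) (b (b (l 17046008) (a (l 17025392) (l 17154632))) (l 16898376)))))) (b (a (l 1) (a (b (a (l 1) (b (l 16715240) (l 16714168))) (a (b (a (l 1) (l 16715448)) (a (l 16716384) (l 16714448))) (l 16712520))) (a (b (l 16757888) (l 16829440)) (b (l 16982920) (l 16984760))))) (a (b (a (l 1) (a (a (l 1) (l 16721144)) (b (a (l 16719480) (l 16717456)) (a (l 6) (l 16716568))))) (a (l 6) (a (l 6) (a (l 6) (l 16715200))))) (a (a (b (l 16714424) (l 16712360)) (b (l 16710232) (l 16707848))) (a (l 16709224) (b (l 16966968) (l 16950656)))))))) (a (a (b (a (b (b (a (l 1) (l 17514800)) (a (l 17071488) (l 17490784))) (a (b (l 17197088) (l 17255072)) (l 17425280))) (b (l 17658048) (l 17592576))) (b (a (a (l 17028960) (l 17347288)) (l 17465776)) (a (a (l 16940984) (l 17251584)) (l 17362176)))) (b (a (l 17860040) (l 18000032)) (a (b (l 17754888)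 (l 17685464)) (l 17853080)))) (a (b (l 18140968) (l 17996632)) (l 18192216)))) (a (a (l 18316368) (l 18432752)) (l 18563360))) (a (l 18716968) (l 18684376))), by decide +kernel⟩

def k3_pm_022_a : ∃ t, chk3 f_pm_022_a t 1 15 1 = true :=
  ⟨(a (a (a (a (l 6) (a (a (l 6) (a (l 6) (a (l 6) (b (b (b (l 16713272) (l 16711232)) (b (l 16709056) (b (l 16728304) (l 16730624)))) (b (b (l 16739944) (l 16736800)) (l 14)))))) (b (a (a (b (b (l 16710192) (l 16728880)) (b (l 16726464) (b (l 16724552) (l 16728616)))) (b (b (l 16705352) (l 16723704)) (b (l 16720944) (l 16723520)))) (b (b (a (l 16803032) (l 16935960)) (a (l 16798280) (l 16923008))) (b (a (l 16795824) (l 16890976)) (a (l 16774864) (l 16860992))))) (b (b (a (a (a (l 16739040) (l 16738152)) (a (l 16737264) (l 16736392))) (a (l 16756536) (l 16791256))) (l 14)) (l 14))))) (a (a (b (a (a (b (b (l 17119504) (l 17079448)) (b (l 17040960) (l 16983192))) (b (l 17138984) (b (l 17251816) (l 17188888)))) (b (l 17198584)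 (a (l 17263696) (l 17439568)))) (b (b (a (a (l 16927256) (l 17127488)) (l 17210032)) (a (l 14) (l 17081056))) (a (l 14) (a (l 14) (b (l 17348896) (l 17115896)))))) (b (a (b (l 17617568) (l 17551832)) (l 17706824)) (b (a (l 17425992) (l 17600856)) (a (b (l 17444088) (a (l 17388400) (l 17441624))) (l 17511592))))) (b (a (l 17849192) (l 17992696)) (b (a (l 17739352) (l 17889368)) (a (b (l 17684960) (l 17649176)) (l 17820024)))))) (a (b (l 18244744) (a (a (l 17982792) (a (l 18068784) (b (l 18148472) (a (l 18083432) (l 18108416))))) (l 18243936))) (b (l 18514512) (l 18478968)))) (a (a (l 18688496) (l 18789456)) (a (l 18802344) (l 18736216)))), by decide +kernel⟩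

theorem s4_pm_022_a : ∃ t, chk3 f_pm_022_a t 1 7 1 = true := ex3_b k2_pm_022_a k3_pm_022_a

theorem s5_pm_022_a : ∃ t, chk3 f_pm_022_a t 1 3 1 = true := ex3_b k1_pm_022_a s4_pm_022_a

theorem s6_pm_022_a : ∃ t, chk3 f_pm_022_a t 1 1 1 = true := ex3_b k0_pm_022_a s5_pm_022_a

theorem c_pm_022_a : CertF 0 536870912 0 536870912 50331648 16777216 true true false .pp 0 2 2
    ndF0q0 ndF1q2a pcF2 cut_pm_022_a Ext.none :=
  certFK2 (fam := true) (s1 := true) (s2 := false) (a := 0) (b := 2) (c := 2) (cn := .pp) (n1 := ndF0q0) (n2 := ndF1q2a) (pc := pcF2) (cut := cut_pm_022_a) (xt := Ext.none) (P1 := 0) (W1 := 536870912) (P2 := 0) (W2 := 536870912) (P3 := 50331648) (W3 := 16777216)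
    rfl rfl rfl (fun _ => rfl) s6_pm_022_a

noncomputable def cut_pm_022_b : Cut := Cut.of [[⟨0, 0, 0, 50331648⟩, ⟨1, 1, 0, 50331648⟩, ⟨2, 1, 0, 50331648⟩], [⟨0, 0, 1, 33554432⟩, ⟨1, 1, 0, 16777216⟩, ⟨2, 1, 1, 33554432⟩, ⟨0, 0, 0, 83886080⟩, ⟨0, 1, 0, 1040187392⟩, ⟨2, 1, 0, 83886080⟩, ⟨2, 2, 0, 1040187392⟩]]

noncomputable def f_pm_022_b : ℕ → ℕ → ℕ → ℕ → Bool := onCell 0 536870912 1239849684 370763052 50331648 16777216
    (rowFK 0 true true false .pp 0 2 2 (qsf 0 536870912 1239849684 370763052 2) ndF0q0 ndF1q2b pcF2 cut_pm_022_b Ext.none)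

def k0_pm_022_b : ∃ t, chk3 f_pm_022_b t 1 1 1 = true :=
  ⟨(a (b (a (b (a (l 18840624) (l 18668944)) (l 18709424)) (b (l 18488600) (l 18489352))) (a (b (l 18585384) (l 18547016)) (b (l 18331480) (l 2)))) (b (a (b (b (l 18229472) (l 18169808)) (l 18123840)) (l 2)) (l 2))), by decide +kernel⟩

theorem c_pm_022_b : CertF 0 536870912 1239849684 370763052 50331648 16777216 true true false .pp 0 2 2
    ndF0q0 ndF1q2b pcF2 cut_pm_022_b Ext.none :=
  certFK0 (fam := true) (s1 := true) (s2 := false) (a := 0) (b := 2) (c := 2) (cn := .pp) (n1 := ndF0q0) (n2 := ndF1q2b) (pc := pcF2) (cut := cut_pm_022_b) (xt := Ext.none) (P1 := 0) (W1 := 536870912) (P2 := 1239849684) (W2 := 370763052) (P3 := 50331648) (W3 := 16777216)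
    rfl rfl rfl k0_pm_022_b

noncomputable def f_pm_023_a : ℕ → ℕ → ℕ → ℕ → Bool := onCell 0 536870912 0 536870912 50331648 16777216
    (rowFK 0 true true false .up 0 2 3 (qsf 0 536870912 0 536870912 3) ndF0q0 ndF1q2a pcF3 Cut.none Ext.none)

def k0_pm_023_a : ∃ t, chk3 f_pm_023_a t 1 1 1 = true :=
  ⟨(a (l 1) (b (a (b (l 19003168) (l 18841848)) (b (l 19014840) (l 18797832))) (b (a (l 1) (l 18818024)) (a (l 1) (b (l 18514680) (b (l 18310560) (a (l 1) (l 18197424)))))))), by decide +kernel⟩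

theorem c_pm_023_a : CertF 0 536870912 0 536870912 50331648 16777216 true true false .up 0 2 3
    ndF0q0 ndF1q2a pcF3 Cut.none Ext.none :=
  certFK0 (fam := true) (s1 := true) (s2 := false) (a := 0) (b := 2) (c := 3) (cn := .up) (n1 := ndF0q0) (n2 := ndF1q2a) (pc := pcF3) (cut := Cut.none) (xt := Ext.none) (P1 := 0) (W1 := 536870912) (P2 := 0) (W2 := 536870912) (P3 := 50331648) (W3 := 16777216)
    rfl rfl rfl k0_pm_023_a

noncomputable def f_pm_023_b : ℕ → ℕ → ℕ → ℕ → Bool := onCell 1610612736 536870912 1239849684 370763052 50331648 16777216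
    (rowFK 2 true true false .up 0 2 3 (qsf 0 536870912 1239849684 370763052 3) ndF0q0 ndF1q2b pcF3 Cut.none Ext.none)

def k0_pm_023_b : ∃ t, chk3 f_pm_023_b t 1 1 1 = true :=
  ⟨(b (a (a (b (a (l 19062488) (l 18781128)) (l 19009088)) (b (a (l 18419032) (l 18039160)) (l 18228176))) (a (a (l 360343291639) (b (l 2) (l 17366888))) (l 2))) (a (a (a (l 18623752) (l 18160904)) (a (l 18008400) (l 17928560))) (a (a (l 17775624) (l 17774856)) (a (l 286791496231) (l 4))))), by decide +kernel⟩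

theorem c_pm_023_b : CertF 0 536870912 1239849684 370763052 50331648 16777216 true true false .up 0 2 3
    ndF0q0 ndF1q2b pcF3 Cut.none Ext.none :=
  certFK2 (fam := true) (s1 := true) (s2 := false) (a := 0) (b := 2) (c := 3) (cn := .up) (n1 := ndF0q0) (n2 := ndF1q2b) (pc := pcF3) (cut := Cut.none) (xt := Ext.none) (P1 := 0) (W1 := 536870912) (P2 := 1239849684) (W2 := 370763052) (P3 := 50331648) (W3 := 16777216)
    rfl rfl rfl (fun _ => rfl) k0_pm_023_b

noncomputable def f_pm_033 : ℕ → ℕ → ℕ → ℕ → Bool := onCell 1610612736 536870912 1610612736 536870912 50331648 16777216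
    (rowFK 2 true true false .pnn 0 3 3 (qsf 0 536870912 1610612736 536870912 3) ndF0q0 ndF1q3 pcF3 Cut.none Ext.none)

def k0_pm_033 : ∃ t, chk3 f_pm_033 t 1 1 1 = true :=
  ⟨(a (a (b (b (l 18120616) (l 17839320)) (l 1)) (b (b (l 17990032) (l 18206792)) (a (l 1) (b (l 18638920) (l 1))))) (a (b (a (b (l 17980144) (l 18254000)) (b (l 17797264) (l 4))) (a (b (l 18497248) (l 1)) (l 4))) (l 4))), by decide +kernel⟩

theorem c_pm_033 : CertF 0 536870912 1610612736 536870912 50331648 16777216 true true false .pnn 0 3 3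
    ndF0q0 ndF1q3 pcF3 Cut.none Ext.none :=
  certFK2 (fam := true) (s1 := true) (s2 := false) (a := 0) (b := 3) (c := 3) (cn := .pnn) (n1 := ndF0q0) (n2 := ndF1q3) (pc := pcF3) (cut := Cut.none) (xt := Ext.none) (P1 := 0) (W1 := 536870912) (P2 := 1610612736) (W2 := 536870912) (P3 := 50331648) (W3 := 16777216)
    rfl rfl rfl (fun _ => rfl) k0_pm_033

noncomputable def cut_pm_101 : Cut := Cut.of [[⟨0, 1, 0, 50331648⟩, ⟨1, 0, 0, 50331648⟩, ⟨2, 1, 0, 50331648⟩]]

noncomputable def f_pm_101 : ℕ → ℕ → ℕ → ℕ → Bool := onCell 536870912 536870912 0 536870912 50331648 16777216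
    (rowFK 2 true true false .npn 1 0 1 (qsf 536870912 536870912 0 536870912 1) ndF0q1 ndF1q0 pcF1 cut_pm_101 Ext.none)

def k0_pm_101 : ∃ t, chk3 f_pm_101 t 1 1 1 = true :=
  ⟨(a (l 3) (b (a (l 3) (b (a (l 3) (a (l 3) (b (a (l 3) (a (l 3) (b (l 6) (l 3)))) (l 3)))) (l 3))) (l 3))), by decide +kernel⟩

theorem c_pm_101 : CertF 536870912 536870912 0 536870912 50331648 16777216 true true false .npn 1 0 1
    ndF0q1 ndF1q0 pcF1 cut_pm_101 Ext.none :=
  certFK2 (fam := true) (s1 := true) (s2 := false) (a := 1) (b := 0) (c := 1) (cn := .npn) (n1 := ndF0q1) (n2 := ndF1q0) (pc := pcF1) (cut := cut_pm_101) (xt := Ext.none) (P1 := 536870912) (W1 := 536870912) (P2 := 0) (W2 := 536870912) (P3 := 50331648) (W3 := 16777216)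
    rfl rfl rfl (fun _ => rfl) k0_pm_101

noncomputable def cut_pm_102 : Cut := Cut.of [[⟨0, 1, 0, 50331648⟩, ⟨1, 0, 0, 50331648⟩, ⟨2, 1, 0, 50331648⟩]]

noncomputable def f_pm_102 : ℕ → ℕ → ℕ → ℕ → Bool := onCell 536870912 536870912 1073741824 536870912 50331648 16777216
    (rowFK 1 true true false .npp 1 0 2 (qsf 536870912 536870912 0 536870912 2) ndF0q1 ndF1q0 pcF2 cut_pm_102 Ext.none)

def k0_pm_102 : ∃ t, chk3 f_pm_102 t 1 1 1 = true :=
  ⟨(a (b (a (b (b (l 3) (b (a (l 606295974551) (l 17131632)) (l 105865453511))) (b (b (b (l 17276656) (l 2)) (l 2)) (l 2))) (b (b (b (l 3) (l 117743493255)) (b (l 17174464) (a (l 17164152) (l 17114640)))) (b (b (b (l 17091024) (l 17116936)) (l 16910240)) (l 17011400)))) (a (l 2) (b (a (l 2) (l 17539632)) (l 2)))) (b (a (b (b (b (l 117206393479) (b (l 17037552) (l 17149400))) (b (a (l 17163056) (l 17169648)) (a (l 17093592) (l 17016040)))) (b (b (a (l 17078688) (l 17245656)) (l 17178672)) (l 17759296))) (b (b (b (b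 (a (l 124722232663) (a (l 128480178887) (a (b (l 6) (l 16826552)) (l 6)))) (b (a (l 16923536) (a (l 16869752) (a (l 16833536) (l 6)))) (a (l 17038032) (a (l 16938120) (a (l 16982272) (a (l 16812152) (l 6))))))) (b (a (l 17153992) (a (l 17039768) (a (l 16873168) (l 16885488)))) (a (b (l 16998808) (l 16972088)) (a (l 16967712) (l 17026088))))) (b (a (b (a (l 16995576) (l 16952832)) (a (l 16955976) (l 16931920))) (a (l 17078056) (l 17096984))) (a (l 17080504) (a (l 17364224) (l 17605520))))) (a (b (b (l 17322512) (l 17594832)) (l 17892296)) (a (l 18198288) (l 18282960))))) (b (a (a (b (l 17757760) (l 18015008)) (l 18089112)) (a (l 18253192) (l 18443352))) (a (a (l 2) (l 18287872)) (l 18408728))))), by decide +kernel⟩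

theorem c_pm_102 : CertF 536870912 536870912 0 536870912 50331648 16777216 true true false .npp 1 0 2
    ndF0q1 ndF1q0 pcF2 cut_pm_102 Ext.none :=
  certFK1 (fam := true) (s1 := true) (s2 := false) (a := 1) (b := 0) (c := 2) (cn := .npp) (n1 := ndF0q1) (n2 := ndF1q0) (pc := pcF2) (cut := cut_pm_102) (xt := Ext.none) (P1 := 536870912) (W1 := 536870912) (P2 := 0) (W2 := 536870912) (P3 := 50331648) (W3 := 16777216)
    rfl rfl rfl (fun _ => rfl) k0_pm_102

noncomputable def f_pm_112 : ℕ → ℕ → ℕ → ℕ → Bool := onCell 536870912 536870912 1073741824 536870912 50331648 16777216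
    (rowFK 1 true true false .dn 1 1 2 (qsf 536870912 536870912 536870912 536870912 2) ndF0q1 ndF1q1 pcF2 Cut.none Ext.none)

def k0_pm_112 : ∃ t, chk3 f_pm_112 t 1 1 1 = true :=
  ⟨(a (b (b (b (a (l 3) (l 1)) (b (a (b (l 3) (l 18480520)) (l 1)) (a (l 18515936) (l 253977671127)))) (b (b (b (a (l 18534328) (l 18609216)) (a (b (l 18538304) (b (l 18529840) (l 18521312))) (l 18471184))) (a (l 18475536) (l 18391568))) (a (l 18471256) (l 18257424)))) (a (b (l 18543848) (l 18663104)) (b (l 17988112) (a (l 17853200) (l 17696696))))) (b (b (l 1) (b (l 1) (a (l 18062608) (l 1)))) (b (a (l 244312356423) (l 17700376)) (a (b (l 17749616) (l 17690136)) (l 17538120))))), by decide +kernel⟩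

theorem c_pm_112 : CertF 536870912 536870912 536870912 536870912 50331648 16777216 true true false .dn 1 1 2
    ndF0q1 ndF1q1 pcF2 Cut.none Ext.none :=
  certFK1 (fam := true) (s1 := true) (s2 := false) (a := 1) (b := 1) (c := 2) (cn := .dn) (n1 := ndF0q1) (n2 := ndF1q1) (pc := pcF2) (cut := Cut.none) (xt := Ext.none) (P1 := 536870912) (W1 := 536870912) (P2 := 536870912) (W2 := 536870912) (P3 := 50331648) (W3 := 16777216)
    rfl rfl rfl (fun _ => rfl) k0_pm_112

noncomputable def f_pm_113 : ℕ → ℕ → ℕ → ℕ → Bool := onCell 536870912 536870912 1610612736 536870912 50331648 16777216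
    (rowFK 1 true true false .nn 1 1 3 (qsf 536870912 536870912 536870912 536870912 3) ndF0q1 ndF1q1 pcF3 Cut.none Ext.none)

def k0_pm_113 : ∃ t, chk3 f_pm_113 t 1 1 1 = true :=
  ⟨(b (a (b (a (a (l 18638592) (l 18242640)) (a (l 17869016) (l 17516152))) (a (b (a (l 2) (l 18025928)) (l 2)) (b (a (l 17490760) (l 17729056)) (a (a (l 2) (l 17503712)) (l 17867136))))) (b (a (l 17935112) (b (l 18508360) (l 18379680))) (a (b (l 18103448) (l 18016416)) (b (l 18082136) (l 18017632))))) (b (a (a (l 2) (b (a (l 2) (l 17758496)) (l 2))) (b (a (a (l 17865568) (l 17713792)) (a (l 17398832) (l 17135080))) (a (a (l 17566680) (l 17313832)) (l 17242280)))) (a (l 2) (a (b (a (l 2) (b (l 16987664) (l 2))) (l 2)) (b (l 17110936) (b (l 17131328) (l 4))))))), by decide +kernel⟩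

theorem c_pm_113 : CertF 536870912 536870912 536870912 536870912 50331648 16777216 true true false .nn 1 1 3
    ndF0q1 ndF1q1 pcF3 Cut.none Ext.none :=
  certFK1 (fam := true) (s1 := true) (s2 := false) (a := 1) (b := 1) (c := 3) (cn := .nn) (n1 := ndF0q1) (n2 := ndF1q1) (pc := pcF3) (cut := Cut.none) (xt := Ext.none) (P1 := 536870912) (W1 := 536870912) (P2 := 536870912) (W2 := 536870912) (P3 := 50331648) (W3 := 16777216)
    rfl rfl rfl (fun _ => rfl) k0_pm_113

noncomputable def cut_pm_123_a : Cut := Cut.of [[⟨0, 1, 0, 14341072⟩, ⟨1, 1, 0, 14341072⟩, ⟨2, 2, 0, 761489⟩]]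

noncomputable def f_pm_123_a : ℕ → ℕ → ℕ → ℕ → Bool := onCell 1610612736 536870912 0 536870912 50331648 16777216
    (rowFK 2 true true false .npn 1 2 3 (qsf 536870912 536870912 0 536870912 3) ndF0q1 ndF1q2a pcF3 cut_pm_123_a Ext.none)

def k0_pm_123_a : ∃ t, chk3 f_pm_123_a t 2 1 1 = true :=
  ⟨(b (a (b (l 1) (l 18810368)) (a (l 18723000) (b (l 18252432) (l 18373192)))) (a (b (a (l 1) (l 18650344)) (b (l 18745864) (b (l 18582072) (a (l 18276528) (l 18388392))))) (b (a (l 18586352) (l 18444168)) (b (l 18736024) (a (l 18709904) (l 18672456)))))), by decide +kernel⟩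

def k1_pm_123_a : ∃ t, chk3 f_pm_123_a t 6 1 1 = true :=
  ⟨(b (a (b (l 17783120) (l 18007608)) (a (l 17849792) (l 17363656))) (b (a (l 18202008) (b (l 17842072) (l 17912896))) (b (a (l 18333792) (l 18172912)) (a (b (l 18430608) (l 18517392)) (a (l 18507496) (b (l 18107360) (l 18243736))))))), by decide +kernel⟩

def k2_pm_123_a : ∃ t, chk3 f_pm_123_a t 14 1 1 = true :=
  ⟨(a (b (b (l 17111496) (l 17231280)) (b (b (l 17347784) (l 17460504)) (b (l 17686704) (b (l 17890952) (b (l 18011616) (l 18114752)))))) (b (l 17149464) (b (b (l 17118792) (a (l 17258208) (l 17139696))) (b (l 17587992) (b (l 17614448) (b (l 17742496) (a (l 17908328) (l 17754648)))))))), by decide +kernel⟩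

def k3_pm_123_a : ∃ t, chk3 f_pm_123_a t 30 1 1 = true :=
  ⟨(b (l 110831070855) (b (a (b (l 16986144) (l 17032464)) (l 16920928)) (b (a (b (l 17095176) (l 17222640)) (l 17258744)) (b (b (l 17381944) (l 17479376)) (b (a (l 17492264) (l 17298304)) (b (a (l 17560960) (l 17362072)) (a (l 17605016) (a (l 17458224) (l 17349264))))))))), by decide +kernel⟩

def k4_pm_123_a : ∃ t, chk3 f_pm_123_a t 31 1 1 = true :=
  ⟨(b (a (l 131232054791) (l 4)) (a (b (l 16909504) (b (b (l 16972408) (l 17091448)) (b (l 17175920) (b (l 17209744) (b (l 17284448) (b (a (l 17227040) (l 17105024)) (a (l 17245032) (a (l 17153544) (l 17088768))))))))) (a (b (l 16843024) (b (b (l 16825768) (l 17077720)) (b (b (l 16861360) (l 16957552)) (b (b (l 16923816) (l 16949160)) (b (l 17017744) (b (l 17059560) (b (a (l 17020464) (l 16952440)) (a (l 17026840) (a (l 16975736) (l 16940368)))))))))) (b (a (l 16829392) (l 4)) (a (b (l 16831568) (b (l 16951160) (b (l 16896952) (b (l 16881328) (b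 (l 16895928) (a (b (l 16900248) (a (l 16914088) (l 16895984))) (b (l 16864880) (b (l 16868320) (a (l 16879368) (l 16860872)))))))))) (b (a (l 16811184) (b (l 4) (l 4))) (a (b (l 16838808) (b (l 16865736) (b (l 16835112) (b (l 16824072) (b (l 16829200) (a (b (l 16841008) (a (l 16847216) (l 16837856))) (b (l 16822664) (b (l 16823840) (a (l 16829096) (l 16819624)))))))))) (b (a (l 16798280) (a (l 16789456) (l 16869416))) (a (b (l 16815072) (b (l 16793336) (b (l 16799136) (b (l 16802536) (b (l 16804264) (a (b (l 16809832) (a (l 16812656) (l 16807896))) (b (l 16800464) (b (l 16800856) (a (l 16803376) (l 16798584)))))))))) (b (a (l 16802616) (l 16871392)) (a (b (l 16806248) (b (l 16787248) (b (l 16789424) (b (l 16790536) (b (l 16791096) (b (a (l 16793752) (l 16789016)) (b (a (l 16793912) (l 16789136)) (a (l 16793912) (a (l 16790360) (l 6)))))))))) (l 6)))))))))))), by decide +kernel⟩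

theorem s5_pm_123_a : ∃ t, chk3 f_pm_123_a t 15 1 1 = true := ex3_a k3_pm_123_a k4_pm_123_a

theorem s6_pm_123_a : ∃ t, chk3 f_pm_123_a t 7 1 1 = true := ex3_a k2_pm_123_a s5_pm_123_a

theorem s7_pm_123_a : ∃ t, chk3 f_pm_123_a t 3 1 1 = true := ex3_a k1_pm_123_a s6_pm_123_a

theorem s8_pm_123_a : ∃ t, chk3 f_pm_123_a t 1 1 1 = true := ex3_a k0_pm_123_a s7_pm_123_a

theorem c_pm_123_a : CertF 536870912 536870912 0 536870912 50331648 16777216 true true false .npn 1 2 3
    ndF0q1 ndF1q2a pcF3 cut_pm_123_a Ext.none :=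
  certFK2 (fam := true) (s1 := true) (s2 := false) (a := 1) (b := 2) (c := 3) (cn := .npn) (n1 := ndF0q1) (n2 := ndF1q2a) (pc := pcF3) (cut := cut_pm_123_a) (xt := Ext.none) (P1 := 536870912) (W1 := 536870912) (P2 := 0) (W2 := 536870912) (P3 := 50331648) (W3 := 16777216)
    rfl rfl rfl (fun _ => rfl) s8_pm_123_a

noncomputable def cut_pm_123_b : Cut := Cut.of [[⟨0, 1, 0, 14341072⟩, ⟨1, 1, 0, 14341072⟩, ⟨2, 2, 0, 761489⟩]]

noncomputable def f_pm_123_b : ℕ → ℕ → ℕ → ℕ → Bool := onCell 1610612736 536870912 1239849684 370763052 50331648 16777216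
    (rowFK 2 true true false .npn 1 2 3 (qsf 536870912 536870912 1239849684 370763052 3) ndF0q1 ndF1q2b pcF3 cut_pm_123_b Ext.none)

def k0_pm_123_b : ∃ t, chk3 f_pm_123_b t 1 1 1 = true :=
  ⟨(a (b (a (l 1) (a (b (l 18422344) (l 1)) (b (l 18039592) (l 17931320)))) (l 1)) (a (b (a (b (l 17682408) (l 17643088)) (b (l 17498616) (l 17366808))) (a (l 1) (b (l 17500360) (l 1)))) (a (b (b (a (l 17105592) (l 17140368)) (a (l 17200816) (l 4))) (b (l 17331392) (l 4))) (b (b (l 4) (l 4)) (l 4))))), by decide +kernel⟩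

theorem c_pm_123_b : CertF 536870912 536870912 1239849684 370763052 50331648 16777216 true true false .npn 1 2 3
    ndF0q1 ndF1q2b pcF3 cut_pm_123_b Ext.none :=
  certFK2 (fam := true) (s1 := true) (s2 := false) (a := 1) (b := 2) (c := 3) (cn := .npn) (n1 := ndF0q1) (n2 := ndF1q2b) (pc := pcF3) (cut := cut_pm_123_b) (xt := Ext.none) (P1 := 536870912) (W1 := 536870912) (P2 := 1239849684) (W2 := 370763052) (P3 := 50331648) (W3 := 16777216)
    rfl rfl rfl (fun _ => rfl) k0_pm_123_b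

noncomputable def f_pm_133 : ℕ → ℕ → ℕ → ℕ → Bool := onCell 536870912 536870912 1610612736 536870912 50331648 16777216
    (rowFK 0 true true false .dn 1 3 3 (qsf 536870912 536870912 1610612736 536870912 3) ndF0q1 ndF1q3 pcF3 Cut.none Ext.none)

def k0_pm_133 : ∃ t, chk3 f_pm_133 t 1 1 1 = true :=
  ⟨(l 4), by decide +kernel⟩

theorem c_pm_133 : CertF 536870912 536870912 1610612736 536870912 50331648 16777216 true true false .dn 1 3 3
    ndF0q1 ndF1q3 pcF3 Cut.none Ext.none :=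
  certFK0 (fam := true) (s1 := true) (s2 := false) (a := 1) (b := 3) (c := 3) (cn := .dn) (n1 := ndF0q1) (n2 := ndF1q3) (pc := pcF3) (cut := Cut.none) (xt := Ext.none) (P1 := 536870912) (W1 := 536870912) (P2 := 1610612736) (W2 := 536870912) (P3 := 50331648) (W3 := 16777216)
    rfl rfl rfl k0_pm_133

noncomputable def cut_pm_202 : Cut := Cut.of [[⟨0, 1, 0, 50331648⟩, ⟨1, 0, 0, 50331648⟩, ⟨2, 1, 0, 50331648⟩]]

noncomputable def f_pm_202 : ℕ → ℕ → ℕ → ℕ → Bool := onCell 0 536870912 0 536870912 50331648 16777216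
    (rowFK 0 true true false .pp 2 0 2 (qsf 0 536870912 0 536870912 2) ndF0q2 ndF1q0 pcF2 cut_pm_202 Ext.none)

def k0_pm_202 : ∃ t, chk3 f_pm_202 t 1 1 1 = true :=
  ⟨(a (b (b (b (a (l 18716336) (b (a (l 18775512) (l 18737504)) (l 18636152))) (a (l 18389440) (l 18478488))) (a (l 17970872) (l 18181016))) (b (a (l 17504360) (l 17787048)) (a (l 2) (l 17543544)))) (b (b (a (b (b (a (l 18623448) (b (a (l 18388136) (b (a (l 18125800) (b (l 17863344) (l 17949376))) (l 18142536))) (l 18360976))) (a (l 18581112) (l 18423080))) (l 18478376)) (b (a (b (b (a (b (a (b (l 17338808) (l 17688200)) (b (a (l 17224688) (l 16976176)) (l 17350832))) (a (l 17833416) (l 17553400))) (b (b (a (a (l 16791920) (l 16766616)) (a (a (l 16761152) (l 16758648)) (l 6))) (a (l 16895512) (l 16779456))) (a (l 17191136) (l 16776488)))) (a (l 17936368) (a (l 17578976) (l 17257728)))) (a (l 18167168) (b (l 17769408) (l 17959736)))) (b (a (b (a (b (l 6) (l 16813744)) (l 6)) (a (l 16821624)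 (b (l 16798752) (l 16739704)))) (b (l 6) (a (b (l 6) (l 16806296)) (l 6)))) (a (b (a (l 17403032) (l 17083008)) (l 17594200)) (b (a (l 16812400) (b (l 16863760) (l 16778808))) (a (l 17232592) (l 16930544)))))) (a (l 18269024) (b (a (l 17874096) (b (l 17422136) (l 17632384))) (l 17978408))))) (a (b (l 18415112) (l 18330984)) (a (l 18426528) (l 18526008)))) (a (b (l 18320432) (l 17960688)) (b (a (l 18374648) (l 18516920)) (a (l 18135720) (l 18381624)))))), by decide +kernel⟩

theorem c_pm_202 : CertF 0 536870912 0 536870912 50331648 16777216 true true false .pp 2 0 2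
    ndF0q2 ndF1q0 pcF2 cut_pm_202 Ext.none :=
  certFK0 (fam := true) (s1 := true) (s2 := false) (a := 2) (b := 0) (c := 2) (cn := .pp) (n1 := ndF0q2) (n2 := ndF1q0) (pc := pcF2) (cut := cut_pm_202) (xt := Ext.none) (P1 := 0) (W1 := 536870912) (P2 := 0) (W2 := 536870912) (P3 := 50331648) (W3 := 16777216)
    rfl rfl rfl k0_pm_202

noncomputable def f_pm_203 : ℕ → ℕ → ℕ → ℕ → Bool := onCell 0 536870912 1610612736 536870912 50331648 16777216
    (rowFK 1 true true false .up 2 0 3 (qsf 0 536870912 0 536870912 3) ndF0q2 ndF1q0 pcF3 Cut.none Ext.none)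

def k0_pm_203 : ∃ t, chk3 f_pm_203 t 1 1 1 = true :=
  ⟨(b (b (a (b (l 17818216) (l 17953314151)) (a (b (l 18450936) (l 18086704)) (b (l 19368216) (l 18935952)))) (a (b (l 17420976) (l 2)) (a (l 2) (l 2)))) (l 2)), by decide +kernel⟩

theorem c_pm_203 : CertF 0 536870912 0 536870912 50331648 16777216 true true false .up 2 0 3
    ndF0q2 ndF1q0 pcF3 Cut.none Ext.none :=
  certFK1 (fam := true) (s1 := true) (s2 := false) (a := 2) (b := 0) (c := 3) (cn := .up) (n1 := ndF0q2) (n2 := ndF1q0) (pc := pcF3) (cut := Cut.none) (xt := Ext.none) (P1 := 0) (W1 := 536870912) (P2 := 0) (W2 := 536870912) (P3 := 50331648) (W3 := 16777216)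
    rfl rfl rfl (fun _ => rfl) k0_pm_203

noncomputable def f_pm_213 : ℕ → ℕ → ℕ → ℕ → Bool := onCell 0 536870912 1610612736 536870912 50331648 16777216
    (rowFK 1 true true false .pnn 2 1 3 (qsf 0 536870912 536870912 536870912 3) ndF0q2 ndF1q1 pcF3 Cut.none Ext.none)

def k0_pm_213 : ∃ t, chk3 f_pm_213 t 1 1 1 = true :=
  ⟨(a (b (b (b (l 1) (l 1127465379431)) (b (l 18348280) (l 4))) (l 4)) (b (b (a (b (l 1) (l 17318768)) (b (l 17891808) (l 17479368))) (a (b (l 17685608) (l 17845880)) (b (l 17062472) (l 17361664)))) (b (b (a (l 17809800) (l 17552128)) (a (l 4) (l 17222232))) (l 4)))), by decide +kernel⟩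

theorem c_pm_213 : CertF 0 536870912 536870912 536870912 50331648 16777216 true true false .pnn 2 1 3
    ndF0q2 ndF1q1 pcF3 Cut.none Ext.none :=
  certFK1 (fam := true) (s1 := true) (s2 := false) (a := 2) (b := 1) (c := 3) (cn := .pnn) (n1 := ndF0q2) (n2 := ndF1q1) (pc := pcF3) (cut := Cut.none) (xt := Ext.none) (P1 := 0) (W1 := 536870912) (P2 := 536870912) (W2 := 536870912) (P3 := 50331648) (W3 := 16777216)
    rfl rfl rfl (fun _ => rfl) k0_pm_213

noncomputable def f_mm_001 : ℕ → ℕ → ℕ → ℕ → Bool := onCell 0 536870912 0 536870912 50331648 16777216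
    (rowFK 0 true false false .up 0 0 1 (qsf 0 536870912 0 536870912 1) ndF0q0 ndF1q0 pcF1 Cut.none Ext.none)

def k0_mm_001 : ∃ t, chk3 f_mm_001 t 1 1 1 = true :=
  ⟨(l 4), by decide +kernel⟩

theorem c_mm_001 : CertF 0 536870912 0 536870912 50331648 16777216 true false false .up 0 0 1
    ndF0q0 ndF1q0 pcF1 Cut.none Ext.none :=
  certFK0 (fam := true) (s1 := false) (s2 := false) (a := 0) (b := 0) (c := 1) (cn := .up) (n1 := ndF0q0) (n2 := ndF1q0) (pc := pcF1) (cut := Cut.none) (xt := Ext.none) (P1 := 0) (W1 := 536870912) (P2 := 0) (W2 := 536870912) (P3 := 50331648) (W3 := 16777216)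
    rfl rfl rfl k0_mm_001

noncomputable def f_mm_011 : ℕ → ℕ → ℕ → ℕ → Bool := onCell 0 536870912 536870912 536870912 50331648 16777216
    (rowFK 0 true false false .pnn 0 1 1 (qsf 0 536870912 536870912 536870912 1) ndF0q0 ndF1q1 pcF1 Cut.none Ext.none)

def k0_mm_011 : ∃ t, chk3 f_mm_011 t 1 1 1 = true :=
  ⟨(l 4), by decide +kernel⟩

theorem c_mm_011 : CertF 0 536870912 536870912 536870912 50331648 16777216 true false false .pnn 0 1 1
    ndF0q0 ndF1q1 pcF1 Cut.none Ext.none :=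
  certFK0 (fam := true) (s1 := false) (s2 := false) (a := 0) (b := 1) (c := 1) (cn := .pnn) (n1 := ndF0q0) (n2 := ndF1q1) (pc := pcF1) (cut := Cut.none) (xt := Ext.none) (P1 := 0) (W1 := 536870912) (P2 := 536870912) (W2 := 536870912) (P3 := 50331648) (W3 := 16777216)
    rfl rfl rfl k0_mm_011

noncomputable def f_mm_012 : ℕ → ℕ → ℕ → ℕ → Bool := onCell 0 536870912 536870912 536870912 50331648 16777216
    (rowFK 0 true false false .pnp 0 1 2 (qsf 0 536870912 536870912 536870912 2) ndF0q0 ndF1q1 pcF2 Cut.none Ext.none)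

def k0_mm_012 : ∃ t, chk3 f_mm_012 t 1 1 1 = true :=
  ⟨(l 4), by decide +kernel⟩

theorem c_mm_012 : CertF 0 536870912 536870912 536870912 50331648 16777216 true false false .pnp 0 1 2
    ndF0q0 ndF1q1 pcF2 Cut.none Ext.none :=
  certFK0 (fam := true) (s1 := false) (s2 := false) (a := 0) (b := 1) (c := 2) (cn := .pnp) (n1 := ndF0q0) (n2 := ndF1q1) (pc := pcF2) (cut := Cut.none) (xt := Ext.none) (P1 := 0) (W1 := 536870912) (P2 := 536870912) (W2 := 536870912) (P3 := 50331648) (W3 := 16777216)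
    rfl rfl rfl k0_mm_012

noncomputable def f_mm_022_a : ℕ → ℕ → ℕ → ℕ → Bool := onCell 0 536870912 0 536870912 50331648 16777216
    (rowFK 0 true false false .pp 0 2 2 (qsf 0 536870912 0 536870912 2) ndF0q0 ndF1q2a pcF2 Cut.none Ext.none)

def k0_mm_022_a : ∃ t, chk3 f_mm_022_a t 1 1 1 = true :=
  ⟨(l 5), by decide +kernel⟩

theorem c_mm_022_a : CertF 0 536870912 0 536870912 50331648 16777216 true false false .pp 0 2 2
    ndF0q0 ndF1q2a pcF2 Cut.none Ext.none :=
  certFK0 (fam := true) (s1 := false) (s2 := false) (a := 0) (b := 2) (c := 2) (cn := .pp) (n1 := ndF0q0) (n2 := ndF1q2a) (pc := pcF2) (cut := Cut.none) (xt := Ext.none) (P1 := 0) (W1 := 536870912) (P2 := 0) (W2 := 536870912) (P3 := 50331648) (W3 := 16777216)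
    rfl rfl rfl k0_mm_022_a

noncomputable def f_mm_022_b : ℕ → ℕ → ℕ → ℕ → Bool := onCell 0 536870912 1239849684 370763052 50331648 16777216
    (rowFK 0 true false false .pp 0 2 2 (qsf 0 536870912 1239849684 370763052 2) ndF0q0 ndF1q2b pcF2 Cut.none Ext.none)

def k0_mm_022_b : ∃ t, chk3 f_mm_022_b t 1 1 1 = true :=
  ⟨(l 5), by decide +kernel⟩

theorem c_mm_022_b : CertF 0 536870912 1239849684 370763052 50331648 16777216 true false false .pp 0 2 2
    ndF0q0 ndF1q2b pcF2 Cut.none Ext.none :=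
  certFK0 (fam := true) (s1 := false) (s2 := false) (a := 0) (b := 2) (c := 2) (cn := .pp) (n1 := ndF0q0) (n2 := ndF1q2b) (pc := pcF2) (cut := Cut.none) (xt := Ext.none) (P1 := 0) (W1 := 536870912) (P2 := 1239849684) (W2 := 370763052) (P3 := 50331648) (W3 := 16777216)
    rfl rfl rfl k0_mm_022_b

noncomputable def f_mm_023_a : ℕ → ℕ → ℕ → ℕ → Bool := onCell 0 536870912 0 536870912 50331648 16777216
    (rowFK 0 true false false .up 0 2 3 (qsf 0 536870912 0 536870912 3) ndF0q0 ndF1q2a pcF3 Cut.none Ext.none)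

def k0_mm_023_a : ∃ t, chk3 f_mm_023_a t 1 1 1 = true :=
  ⟨(l 5), by decide +kernel⟩

theorem c_mm_023_a : CertF 0 536870912 0 536870912 50331648 16777216 true false false .up 0 2 3
    ndF0q0 ndF1q2a pcF3 Cut.none Ext.none :=
  certFK0 (fam := true) (s1 := false) (s2 := false) (a := 0) (b := 2) (c := 3) (cn := .up) (n1 := ndF0q0) (n2 := ndF1q2a) (pc := pcF3) (cut := Cut.none) (xt := Ext.none) (P1 := 0) (W1 := 536870912) (P2 := 0) (W2 := 536870912) (P3 := 50331648) (W3 := 16777216)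
    rfl rfl rfl k0_mm_023_a

noncomputable def f_mm_023_b : ℕ → ℕ → ℕ → ℕ → Bool := onCell 0 536870912 1239849684 370763052 50331648 16777216
    (rowFK 0 true false false .up 0 2 3 (qsf 0 536870912 1239849684 370763052 3) ndF0q0 ndF1q2b pcF3 Cut.none Ext.none)

def k0_mm_023_b : ∃ t, chk3 f_mm_023_b t 1 1 1 = true :=
  ⟨(l 5), by decide +kernel⟩

theorem c_mm_023_b : CertF 0 536870912 1239849684 370763052 50331648 16777216 true false false .up 0 2 3
    ndF0q0 ndF1q2b pcF3 Cut.none Ext.none :=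
  certFK0 (fam := true) (s1 := false) (s2 := false) (a := 0) (b := 2) (c := 3) (cn := .up) (n1 := ndF0q0) (n2 := ndF1q2b) (pc := pcF3) (cut := Cut.none) (xt := Ext.none) (P1 := 0) (W1 := 536870912) (P2 := 1239849684) (W2 := 370763052) (P3 := 50331648) (W3 := 16777216)
    rfl rfl rfl k0_mm_023_b

noncomputable def f_mm_033 : ℕ → ℕ → ℕ → ℕ → Bool := onCell 0 536870912 1610612736 536870912 50331648 16777216
    (rowFK 0 true false false .pnn 0 3 3 (qsf 0 536870912 1610612736 536870912 3) ndF0q0 ndF1q3 pcF3 Cut.none Ext.none)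

def k0_mm_033 : ∃ t, chk3 f_mm_033 t 1 1 1 = true :=
  ⟨(l 5), by decide +kernel⟩

theorem c_mm_033 : CertF 0 536870912 1610612736 536870912 50331648 16777216 true false false .pnn 0 3 3
    ndF0q0 ndF1q3 pcF3 Cut.none Ext.none :=
  certFK0 (fam := true) (s1 := false) (s2 := false) (a := 0) (b := 3) (c := 3) (cn := .pnn) (n1 := ndF0q0) (n2 := ndF1q3) (pc := pcF3) (cut := Cut.none) (xt := Ext.none) (P1 := 0) (W1 := 536870912) (P2 := 1610612736) (W2 := 536870912) (P3 := 50331648) (W3 := 16777216)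
    rfl rfl rfl k0_mm_033

noncomputable def cut_mm_101 : Cut := Cut.of [[⟨0, 1, 0, 50331648⟩, ⟨1, 0, 0, 50331648⟩, ⟨2, 1, 0, 50331648⟩]]

noncomputable def f_mm_101 : ℕ → ℕ → ℕ → ℕ → Bool := onCell 536870912 536870912 0 536870912 50331648 16777216
    (rowFK 0 true false false .npn 1 0 1 (qsf 536870912 536870912 0 536870912 1) ndF0q1 ndF1q0 pcF1 cut_mm_101 Ext.none)

def k0_mm_101 : ∃ t, chk3 f_mm_101 t 1 1 1 = true :=
  ⟨(a (l 4) (b (a (l 4) (b (a (l 4) (a (l 4) (b (b (l 6) (l 4)) (l 2)))) (l 4))) (l 4))), by decide +kernel⟩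

theorem c_mm_101 : CertF 536870912 536870912 0 536870912 50331648 16777216 true false false .npn 1 0 1
    ndF0q1 ndF1q0 pcF1 cut_mm_101 Ext.none :=
  certFK0 (fam := true) (s1 := false) (s2 := false) (a := 1) (b := 0) (c := 1) (cn := .npn) (n1 := ndF0q1) (n2 := ndF1q0) (pc := pcF1) (cut := cut_mm_101) (xt := Ext.none) (P1 := 536870912) (W1 := 536870912) (P2 := 0) (W2 := 536870912) (P3 := 50331648) (W3 := 16777216)
    rfl rfl rfl k0_mm_101

noncomputable def cut_mm_102 : Cut := Cut.of [[⟨0, 1, 0, 50331648⟩, ⟨1, 0, 0, 50331648⟩, ⟨2, 1, 0, 50331648⟩]]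

noncomputable def f_mm_102 : ℕ → ℕ → ℕ → ℕ → Bool := onCell 536870912 536870912 0 536870912 50331648 16777216
    (rowFK 0 true false false .npp 1 0 2 (qsf 536870912 536870912 0 536870912 2) ndF0q1 ndF1q0 pcF2 cut_mm_102 Ext.none)

def k0_mm_102 : ∃ t, chk3 f_mm_102 t 1 1 1 = true :=
  ⟨(a (l 4) (b (a (l 4) (b (a (l 4) (a (l 4) (b (b (l 6) (l 4)) (l 4)))) (l 4))) (l 4))), by decide +kernel⟩

theorem c_mm_102 : CertF 536870912 536870912 0 536870912 50331648 16777216 true false false .npp 1 0 2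
    ndF0q1 ndF1q0 pcF2 cut_mm_102 Ext.none :=
  certFK0 (fam := true) (s1 := false) (s2 := false) (a := 1) (b := 0) (c := 2) (cn := .npp) (n1 := ndF0q1) (n2 := ndF1q0) (pc := pcF2) (cut := cut_mm_102) (xt := Ext.none) (P1 := 536870912) (W1 := 536870912) (P2 := 0) (W2 := 536870912) (P3 := 50331648) (W3 := 16777216)
    rfl rfl rfl k0_mm_102

noncomputable def f_mm_112 : ℕ → ℕ → ℕ → ℕ → Bool := onCell 536870912 536870912 536870912 536870912 50331648 16777216
    (rowFK 0 true false false .dn 1 1 2 (qsf 536870912 536870912 536870912 536870912 2) ndF0q1 ndF1q1 pcF2 Cut.none Ext.none)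

def k0_mm_112 : ∃ t, chk3 f_mm_112 t 1 1 1 = true :=
  ⟨(l 4), by decide +kernel⟩

theorem c_mm_112 : CertF 536870912 536870912 536870912 536870912 50331648 16777216 true false false .dn 1 1 2
    ndF0q1 ndF1q1 pcF2 Cut.none Ext.none :=
  certFK0 (fam := true) (s1 := false) (s2 := false) (a := 1) (b := 1) (c := 2) (cn := .dn) (n1 := ndF0q1) (n2 := ndF1q1) (pc := pcF2) (cut := Cut.none) (xt := Ext.none) (P1 := 536870912) (W1 := 536870912) (P2 := 536870912) (W2 := 536870912) (P3 := 50331648) (W3 := 16777216)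
    rfl rfl rfl k0_mm_112

noncomputable def f_mm_113 : ℕ → ℕ → ℕ → ℕ → Bool := onCell 536870912 536870912 536870912 536870912 50331648 16777216
    (rowFK 0 true false false .nn 1 1 3 (qsf 536870912 536870912 536870912 536870912 3) ndF0q1 ndF1q1 pcF3 Cut.none Ext.none)

def k0_mm_113 : ∃ t, chk3 f_mm_113 t 1 1 1 = true :=
  ⟨(l 4), by decide +kernel⟩

theorem c_mm_113 : CertF 536870912 536870912 536870912 536870912 50331648 16777216 true false false .nn 1 1 3
    ndF0q1 ndF1q1 pcF3 Cut.none Ext.none :=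
  certFK0 (fam := true) (s1 := false) (s2 := false) (a := 1) (b := 1) (c := 3) (cn := .nn) (n1 := ndF0q1) (n2 := ndF1q1) (pc := pcF3) (cut := Cut.none) (xt := Ext.none) (P1 := 536870912) (W1 := 536870912) (P2 := 536870912) (W2 := 536870912) (P3 := 50331648) (W3 := 16777216)
    rfl rfl rfl k0_mm_113

noncomputable def f_mm_123_a : ℕ → ℕ → ℕ → ℕ → Bool := onCell 536870912 536870912 0 536870912 50331648 16777216
    (rowFK 0 true false false .npn 1 2 3 (qsf 536870912 536870912 0 536870912 3) ndF0q1 ndF1q2a pcF3 Cut.none Ext.none)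

def k0_mm_123_a : ∃ t, chk3 f_mm_123_a t 1 1 1 = true :=
  ⟨(l 4), by decide +kernel⟩

theorem c_mm_123_a : CertF 536870912 536870912 0 536870912 50331648 16777216 true false false .npn 1 2 3
    ndF0q1 ndF1q2a pcF3 Cut.none Ext.none :=
  certFK0 (fam := true) (s1 := false) (s2 := false) (a := 1) (b := 2) (c := 3) (cn := .npn) (n1 := ndF0q1) (n2 := ndF1q2a) (pc := pcF3) (cut := Cut.none) (xt := Ext.none) (P1 := 536870912) (W1 := 536870912) (P2 := 0) (W2 := 536870912) (P3 := 50331648) (W3 := 16777216)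
    rfl rfl rfl k0_mm_123_a

noncomputable def f_mm_123_b : ℕ → ℕ → ℕ → ℕ → Bool := onCell 536870912 536870912 1239849684 370763052 50331648 16777216
    (rowFK 0 true false false .npn 1 2 3 (qsf 536870912 536870912 1239849684 370763052 3) ndF0q1 ndF1q2b pcF3 Cut.none Ext.none)

def k0_mm_123_b : ∃ t, chk3 f_mm_123_b t 1 1 1 = true :=
  ⟨(l 4), by decide +kernel⟩

theorem c_mm_123_b : CertF 536870912 536870912 1239849684 370763052 50331648 16777216 true false false .npn 1 2 3
    ndF0q1 ndF1q2b pcF3 Cut.none Ext.none :=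
  certFK0 (fam := true) (s1 := false) (s2 := false) (a := 1) (b := 2) (c := 3) (cn := .npn) (n1 := ndF0q1) (n2 := ndF1q2b) (pc := pcF3) (cut := Cut.none) (xt := Ext.none) (P1 := 536870912) (W1 := 536870912) (P2 := 1239849684) (W2 := 370763052) (P3 := 50331648) (W3 := 16777216)
    rfl rfl rfl k0_mm_123_b

noncomputable def f_mm_133 : ℕ → ℕ → ℕ → ℕ → Bool := onCell 536870912 536870912 1610612736 536870912 50331648 16777216
    (rowFK 0 true false false .dn 1 3 3 (qsf 536870912 536870912 1610612736 536870912 3) ndF0q1 ndF1q3 pcF3 Cut.none Ext.none)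

def k0_mm_133 : ∃ t, chk3 f_mm_133 t 1 1 1 = true :=
  ⟨(l 4), by decide +kernel⟩

theorem c_mm_133 : CertF 536870912 536870912 1610612736 536870912 50331648 16777216 true false false .dn 1 3 3
    ndF0q1 ndF1q3 pcF3 Cut.none Ext.none :=
  certFK0 (fam := true) (s1 := false) (s2 := false) (a := 1) (b := 3) (c := 3) (cn := .dn) (n1 := ndF0q1) (n2 := ndF1q3) (pc := pcF3) (cut := Cut.none) (xt := Ext.none) (P1 := 536870912) (W1 := 536870912) (P2 := 1610612736) (W2 := 536870912) (P3 := 50331648) (W3 := 16777216)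
    rfl rfl rfl k0_mm_133

noncomputable def cut_mm_202 : Cut := Cut.of [[⟨0, 1, 0, 50331648⟩, ⟨1, 0, 0, 50331648⟩, ⟨2, 1, 0, 50331648⟩]]

noncomputable def f_mm_202 : ℕ → ℕ → ℕ → ℕ → Bool := onCell 0 536870912 0 536870912 50331648 16777216
    (rowFK 0 true false false .pp 2 0 2 (qsf 0 536870912 0 536870912 2) ndF0q2 ndF1q0 pcF2 cut_mm_202 Ext.none)

def k0_mm_202 : ∃ t, chk3 f_mm_202 t 1 1 1 = true :=
  ⟨(b (a (b (b (a (b (l 18827984) (l 18585040)) (b (a (l 18778240) (l 18676144)) (l 18429288))) (a (l 18265848) (l 18035400))) (a (l 17931496) (b (l 17605472) (l 17272552)))) (b (a (b (a (b (b (l 18552320) (l 18404216)) (l 18167304)) (b (b (a (b (l 18289024) (l 18252528)) (b (a (l 18053296) (b (a (l 17885104) (l 17696608)) (l 17860424))) (l 17971504))) (a (l 18165280) (l 17930872))) (b (l 17922048) (l 17775304)))) (b (a (l 17869976) (l 17722344)) (l 35132331255))) (b (a (b (a (b (b (b (b (a (c (l 17566104) (a (l 17381600) (l 17029928))) (b (a (c (l 17413352)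 (l 16939976)) (l 16866256)) (l 16969704))) (a (l 17495760) (l 17091944))) (a (l 17612272) (l 17294160))) (a (l 17677728) (l 17422904))) (b (l 17606528) (l 17606232))) (b (b (a (b (b (a (b (l 16773040) (l 16771088)) (l 16769552)) (l 16766792)) (l 16877120)) (b (b (a (l 16767544) (l 6)) (l 16762800)) (l 16756712))) (a (l 17105680) (l 16743824))) (b (a (l 17263160) (l 16985048)) (l 17214512)))) (b (a (l 17552432) (l 17207032)) (l 17164248))) (a (b (b (b (l 6) (a (l 16752568) (l 6))) (a (b (l 16727432) (l 16884712)) (l 16804208))) (b (l 4) (l 4))) (b (b (l 6) (l 4)) (l 4)))) (a (b (l 27615530039) (l 4)) (l 4)))) (a (b (l 57681261127) (l 4)) (l 4)))) (a (b (a (l 17312408) (l 4)) (l 4)) (l 4))), by decide +kernel⟩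

theorem c_mm_202 : CertF 0 536870912 0 536870912 50331648 16777216 true false false .pp 2 0 2
    ndF0q2 ndF1q0 pcF2 cut_mm_202 Ext.none :=
  certFK0 (fam := true) (s1 := false) (s2 := false) (a := 2) (b := 0) (c := 2) (cn := .pp) (n1 := ndF0q2) (n2 := ndF1q0) (pc := pcF2) (cut := cut_mm_202) (xt := Ext.none) (P1 := 0) (W1 := 536870912) (P2 := 0) (W2 := 536870912) (P3 := 50331648) (W3 := 16777216)
    rfl rfl rfl k0_mm_202

noncomputable def f_mm_203 : ℕ → ℕ → ℕ → ℕ → Bool := onCell 0 536870912 1610612736 536870912 50331648 16777216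
    (rowFK 1 true false false .up 2 0 3 (qsf 0 536870912 0 536870912 3) ndF0q2 ndF1q0 pcF3 Cut.none Ext.none)

def k0_mm_203 : ∃ t, chk3 f_mm_203 t 1 1 1 = true :=
  ⟨(a (b (l 4) (l 2)) (l 4)), by decide +kernel⟩

theorem c_mm_203 : CertF 0 536870912 0 536870912 50331648 16777216 true false false .up 2 0 3
    ndF0q2 ndF1q0 pcF3 Cut.none Ext.none :=
  certFK1 (fam := true) (s1 := false) (s2 := false) (a := 2) (b := 0) (c := 3) (cn := .up) (n1 := ndF0q2) (n2 := ndF1q0) (pc := pcF3) (cut := Cut.none) (xt := Ext.none) (P1 := 0) (W1 := 536870912) (P2 := 0) (W2 := 536870912) (P3 := 50331648) (W3 := 16777216)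
    rfl rfl rfl (fun _ => rfl) k0_mm_203

noncomputable def f_mm_213 : ℕ → ℕ → ℕ → ℕ → Bool := onCell 0 536870912 536870912 536870912 50331648 16777216
    (rowFK 0 true false false .pnn 2 1 3 (qsf 0 536870912 536870912 536870912 3) ndF0q2 ndF1q1 pcF3 Cut.none Ext.none)

def k0_mm_213 : ∃ t, chk3 f_mm_213 t 1 1 1 = true :=
  ⟨(l 4), by decide +kernel⟩

theorem c_mm_213 : CertF 0 536870912 536870912 536870912 50331648 16777216 true false false .pnn 2 1 3
    ndF0q2 ndF1q1 pcF3 Cut.none Ext.none :=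
  certFK0 (fam := true) (s1 := false) (s2 := false) (a := 2) (b := 1) (c := 3) (cn := .pnn) (n1 := ndF0q2) (n2 := ndF1q1) (pc := pcF3) (cut := Cut.none) (xt := Ext.none) (P1 := 0) (W1 := 536870912) (P2 := 536870912) (W2 := 536870912) (P3 := 50331648) (W3 := 16777216)
    rfl rfl rfl k0_mm_213

end Pool.Agent.Strip051.G.I3_64_1_16.Tab.C.FA01

namespace Pool.Agent.Strip051.G.I3_64_1_16.Tab.C.FA02

open Pool.Agent.Strip051.PB Pool.Agent.Strip051.PB.T
open Pool.Agent.Strip051.G.I3_64_1_16.Tab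

noncomputable def f_pp_001 : ℕ → ℕ → ℕ → ℕ → Bool := onCell 0 536870912 0 536870912 50331648 16777216
    (rowFK 0 true true true .up 0 0 1 (qsf 0 536870912 0 536870912 1) ndF0q0 ndF2q0 pcF1 Cut.none Ext.none)

def k0_pp_001 : ∃ t, chk3 f_pp_001 t 1 1 1 = true :=
  ⟨(l 4), by decide +kernel⟩

theorem c_pp_001 : CertF 0 536870912 0 536870912 50331648 16777216 true true true .up 0 0 1
    ndF0q0 ndF2q0 pcF1 Cut.none Ext.none :=
  certFK0 (fam := true) (s1 := true) (s2 := true) (a := 0) (b := 0) (c := 1) (cn := .up) (n1 := ndF0q0) (n2 := ndF2q0) (pc := pcF1) (cut := Cut.none) (xt := Ext.none) (P1 := 0) (W1 := 536870912) (P2 := 0) (W2 := 536870912) (P3 := 50331648) (W3 := 16777216)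
    rfl rfl rfl k0_pp_001

noncomputable def f_pp_011 : ℕ → ℕ → ℕ → ℕ → Bool := onCell 0 536870912 536870912 536870912 50331648 16777216
    (rowFK 0 true true true .pnn 0 1 1 (qsf 0 536870912 536870912 536870912 1) ndF0q0 ndF2q1 pcF1 Cut.none Ext.none)

def k0_pp_011 : ∃ t, chk3 f_pp_011 t 1 1 1 = true :=
  ⟨(l 4), by decide +kernel⟩

theorem c_pp_011 : CertF 0 536870912 536870912 536870912 50331648 16777216 true true true .pnn 0 1 1
    ndF0q0 ndF2q1 pcF1 Cut.none Ext.none :=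
  certFK0 (fam := true) (s1 := true) (s2 := true) (a := 0) (b := 1) (c := 1) (cn := .pnn) (n1 := ndF0q0) (n2 := ndF2q1) (pc := pcF1) (cut := Cut.none) (xt := Ext.none) (P1 := 0) (W1 := 536870912) (P2 := 536870912) (W2 := 536870912) (P3 := 50331648) (W3 := 16777216)
    rfl rfl rfl k0_pp_011

noncomputable def f_pp_012 : ℕ → ℕ → ℕ → ℕ → Bool := onCell 0 536870912 536870912 536870912 50331648 16777216
    (rowFK 0 true true true .pnp 0 1 2 (qsf 0 536870912 536870912 536870912 2) ndF0q0 ndF2q1 pcF2 Cut.none Ext.none)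

def k0_pp_012 : ∃ t, chk3 f_pp_012 t 1 1 1 = true :=
  ⟨(l 4), by decide +kernel⟩

theorem c_pp_012 : CertF 0 536870912 536870912 536870912 50331648 16777216 true true true .pnp 0 1 2
    ndF0q0 ndF2q1 pcF2 Cut.none Ext.none :=
  certFK0 (fam := true) (s1 := true) (s2 := true) (a := 0) (b := 1) (c := 2) (cn := .pnp) (n1 := ndF0q0) (n2 := ndF2q1) (pc := pcF2) (cut := Cut.none) (xt := Ext.none) (P1 := 0) (W1 := 536870912) (P2 := 536870912) (W2 := 536870912) (P3 := 50331648) (W3 := 16777216)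
    rfl rfl rfl k0_pp_012

noncomputable def cut_pp_022_a : Cut := Cut.of [[⟨0, 0, 0, 50331648⟩, ⟨1, 1, 0, 50331648⟩, ⟨2, 1, 0, 50331648⟩]]

noncomputable def f_pp_022_a : ℕ → ℕ → ℕ → ℕ → Bool := onCell 0 536870912 0 536870912 50331648 16777216
    (rowFK 0 true true true .pp 0 2 2 (qsf 0 536870912 0 536870912 2) ndF0q0 ndF2q2a pcF2 cut_pp_022_a Ext.none)

def k0_pp_022_a : ∃ t, chk3 f_pp_022_a t 1 1 1 = true :=
  ⟨(a (b (l 4) (a (b (l 4) (b (l 4) (b (l 4) (a (a (a (l 6) (l 4)) (l 4)) (l 4))))) (l 4))) (l 4)), by decide +kernel⟩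

theorem c_pp_022_a : CertF 0 536870912 0 536870912 50331648 16777216 true true true .pp 0 2 2
    ndF0q0 ndF2q2a pcF2 cut_pp_022_a Ext.none :=
  certFK0 (fam := true) (s1 := true) (s2 := true) (a := 0) (b := 2) (c := 2) (cn := .pp) (n1 := ndF0q0) (n2 := ndF2q2a) (pc := pcF2) (cut := cut_pp_022_a) (xt := Ext.none) (P1 := 0) (W1 := 536870912) (P2 := 0) (W2 := 536870912) (P3 := 50331648) (W3 := 16777216)
    rfl rfl rfl k0_pp_022_a

noncomputable def cut_pp_022_b : Cut := Cut.of [[⟨0, 0, 0, 50331648⟩, ⟨1, 1, 0, 50331648⟩, ⟨2, 1, 0, 50331648⟩]]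

noncomputable def f_pp_022_b : ℕ → ℕ → ℕ → ℕ → Bool := onCell 0 536870912 1239849684 370763052 50331648 16777216
    (rowFK 0 true true true .pp 0 2 2 (qsf 0 536870912 1239849684 370763052 2) ndF0q0 ndF2q2b pcF2 cut_pp_022_b Ext.none)

def k0_pp_022_b : ∃ t, chk3 f_pp_022_b t 1 1 1 = true :=
  ⟨(l 4), by decide +kernel⟩

theorem c_pp_022_b : CertF 0 536870912 1239849684 370763052 50331648 16777216 true true true .pp 0 2 2
    ndF0q0 ndF2q2b pcF2 cut_pp_022_b Ext.none :=
  certFK0 (fam := true) (s1 := true) (s2 := true) (a := 0) (b := 2) (c := 2) (cn := .pp) (n1 := ndF0q0) (n2 := ndF2q2b) (pc := pcF2) (cut := cut_pp_022_b) (xt := Ext.none) (P1 := 0) (W1 := 536870912) (P2 := 1239849684) (W2 := 370763052) (P3 := 50331648) (W3 := 16777216)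
    rfl rfl rfl k0_pp_022_b

noncomputable def f_pp_023_a : ℕ → ℕ → ℕ → ℕ → Bool := onCell 1610612736 536870912 0 536870912 50331648 16777216
    (rowFK 2 true true true .up 0 2 3 (qsf 0 536870912 0 536870912 3) ndF0q0 ndF2q2a pcF3 Cut.none Ext.none)

def k0_pp_023_a : ∃ t, chk3 f_pp_023_a t 1 1 1 = true :=
  ⟨(l 4), by decide +kernel⟩

theorem c_pp_023_a : CertF 0 536870912 0 536870912 50331648 16777216 true true true .up 0 2 3
    ndF0q0 ndF2q2a pcF3 Cut.none Ext.none :=
  certFK2 (fam := true) (s1 := true) (s2 := true) (a := 0) (b := 2) (c := 3) (cn := .up) (n1 := ndF0q0) (n2 := ndF2q2a) (pc := pcF3) (cut := Cut.none) (xt := Ext.none) (P1 := 0) (W1 := 536870912) (P2 := 0) (W2 := 536870912) (P3 := 50331648) (W3 := 16777216)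
    rfl rfl rfl (fun _ => rfl) k0_pp_023_a

noncomputable def f_pp_023_b : ℕ → ℕ → ℕ → ℕ → Bool := onCell 0 536870912 1239849684 370763052 50331648 16777216
    (rowFK 0 true true true .up 0 2 3 (qsf 0 536870912 1239849684 370763052 3) ndF0q0 ndF2q2b pcF3 Cut.none Ext.none)

def k0_pp_023_b : ∃ t, chk3 f_pp_023_b t 1 1 1 = true :=
  ⟨(l 4), by decide +kernel⟩

theorem c_pp_023_b : CertF 0 536870912 1239849684 370763052 50331648 16777216 true true true .up 0 2 3
    ndF0q0 ndF2q2b pcF3 Cut.none Ext.none :=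
  certFK0 (fam := true) (s1 := true) (s2 := true) (a := 0) (b := 2) (c := 3) (cn := .up) (n1 := ndF0q0) (n2 := ndF2q2b) (pc := pcF3) (cut := Cut.none) (xt := Ext.none) (P1 := 0) (W1 := 536870912) (P2 := 1239849684) (W2 := 370763052) (P3 := 50331648) (W3 := 16777216)
    rfl rfl rfl k0_pp_023_b

noncomputable def f_pp_033 : ℕ → ℕ → ℕ → ℕ → Bool := onCell 0 536870912 1610612736 536870912 50331648 16777216
    (rowFK 0 true true true .pnn 0 3 3 (qsf 0 536870912 1610612736 536870912 3) ndF0q0 ndF2q3 pcF3 Cut.none Ext.none)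

def k0_pp_033 : ∃ t, chk3 f_pp_033 t 1 1 1 = true :=
  ⟨(l 4), by decide +kernel⟩

theorem c_pp_033 : CertF 0 536870912 1610612736 536870912 50331648 16777216 true true true .pnn 0 3 3
    ndF0q0 ndF2q3 pcF3 Cut.none Ext.none :=
  certFK0 (fam := true) (s1 := true) (s2 := true) (a := 0) (b := 3) (c := 3) (cn := .pnn) (n1 := ndF0q0) (n2 := ndF2q3) (pc := pcF3) (cut := Cut.none) (xt := Ext.none) (P1 := 0) (W1 := 536870912) (P2 := 1610612736) (W2 := 536870912) (P3 := 50331648) (W3 := 16777216)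
    rfl rfl rfl k0_pp_033

noncomputable def f_pp_101 : ℕ → ℕ → ℕ → ℕ → Bool := onCell 536870912 536870912 0 536870912 50331648 16777216
    (rowFK 0 true true true .npn 1 0 1 (qsf 536870912 536870912 0 536870912 1) ndF0q1 ndF2q0 pcF1 Cut.none Ext.none)

def k0_pp_101 : ∃ t, chk3 f_pp_101 t 1 1 1 = true :=
  ⟨(l 5), by decide +kernel⟩

theorem c_pp_101 : CertF 536870912 536870912 0 536870912 50331648 16777216 true true true .npn 1 0 1
    ndF0q1 ndF2q0 pcF1 Cut.none Ext.none :=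
  certFK0 (fam := true) (s1 := true) (s2 := true) (a := 1) (b := 0) (c := 1) (cn := .npn) (n1 := ndF0q1) (n2 := ndF2q0) (pc := pcF1) (cut := Cut.none) (xt := Ext.none) (P1 := 536870912) (W1 := 536870912) (P2 := 0) (W2 := 536870912) (P3 := 50331648) (W3 := 16777216)
    rfl rfl rfl k0_pp_101

noncomputable def f_pp_102 : ℕ → ℕ → ℕ → ℕ → Bool := onCell 536870912 536870912 0 536870912 50331648 16777216
    (rowFK 0 true true true .npp 1 0 2 (qsf 536870912 536870912 0 536870912 2) ndF0q1 ndF2q0 pcF2 Cut.none Ext.none)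

def k0_pp_102 : ∃ t, chk3 f_pp_102 t 1 1 1 = true :=
  ⟨(l 5), by decide +kernel⟩

theorem c_pp_102 : CertF 536870912 536870912 0 536870912 50331648 16777216 true true true .npp 1 0 2
    ndF0q1 ndF2q0 pcF2 Cut.none Ext.none :=
  certFK0 (fam := true) (s1 := true) (s2 := true) (a := 1) (b := 0) (c := 2) (cn := .npp) (n1 := ndF0q1) (n2 := ndF2q0) (pc := pcF2) (cut := Cut.none) (xt := Ext.none) (P1 := 536870912) (W1 := 536870912) (P2 := 0) (W2 := 536870912) (P3 := 50331648) (W3 := 16777216)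
    rfl rfl rfl k0_pp_102

noncomputable def f_pp_112 : ℕ → ℕ → ℕ → ℕ → Bool := onCell 536870912 536870912 536870912 536870912 50331648 16777216
    (rowFK 0 true true true .dn 1 1 2 (qsf 536870912 536870912 536870912 536870912 2) ndF0q1 ndF2q1 pcF2 Cut.none Ext.none)

def k0_pp_112 : ∃ t, chk3 f_pp_112 t 1 1 1 = true :=
  ⟨(l 4), by decide +kernel⟩

theorem c_pp_112 : CertF 536870912 536870912 536870912 536870912 50331648 16777216 true true true .dn 1 1 2
    ndF0q1 ndF2q1 pcF2 Cut.none Ext.none :=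
  certFK0 (fam := true) (s1 := true) (s2 := true) (a := 1) (b := 1) (c := 2) (cn := .dn) (n1 := ndF0q1) (n2 := ndF2q1) (pc := pcF2) (cut := Cut.none) (xt := Ext.none) (P1 := 536870912) (W1 := 536870912) (P2 := 536870912) (W2 := 536870912) (P3 := 50331648) (W3 := 16777216)
    rfl rfl rfl k0_pp_112

noncomputable def f_pp_113 : ℕ → ℕ → ℕ → ℕ → Bool := onCell 536870912 536870912 536870912 536870912 50331648 16777216
    (rowFK 0 true true true .nn 1 1 3 (qsf 536870912 536870912 536870912 536870912 3) ndF0q1 ndF2q1 pcF3 Cut.none Ext.none)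

def k0_pp_113 : ∃ t, chk3 f_pp_113 t 1 1 1 = true :=
  ⟨(l 4), by decide +kernel⟩

theorem c_pp_113 : CertF 536870912 536870912 536870912 536870912 50331648 16777216 true true true .nn 1 1 3
    ndF0q1 ndF2q1 pcF3 Cut.none Ext.none :=
  certFK0 (fam := true) (s1 := true) (s2 := true) (a := 1) (b := 1) (c := 3) (cn := .nn) (n1 := ndF0q1) (n2 := ndF2q1) (pc := pcF3) (cut := Cut.none) (xt := Ext.none) (P1 := 536870912) (W1 := 536870912) (P2 := 536870912) (W2 := 536870912) (P3 := 50331648) (W3 := 16777216)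
    rfl rfl rfl k0_pp_113

noncomputable def f_pp_123_a : ℕ → ℕ → ℕ → ℕ → Bool := onCell 536870912 536870912 0 536870912 50331648 16777216
    (rowFK 0 true true true .npn 1 2 3 (qsf 536870912 536870912 0 536870912 3) ndF0q1 ndF2q2a pcF3 Cut.none Ext.none)

def k0_pp_123_a : ∃ t, chk3 f_pp_123_a t 1 1 1 = true :=
  ⟨(l 4), by decide +kernel⟩

theorem c_pp_123_a : CertF 536870912 536870912 0 536870912 50331648 16777216 true true true .npn 1 2 3
    ndF0q1 ndF2q2a pcF3 Cut.none Ext.none :=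
  certFK0 (fam := true) (s1 := true) (s2 := true) (a := 1) (b := 2) (c := 3) (cn := .npn) (n1 := ndF0q1) (n2 := ndF2q2a) (pc := pcF3) (cut := Cut.none) (xt := Ext.none) (P1 := 536870912) (W1 := 536870912) (P2 := 0) (W2 := 536870912) (P3 := 50331648) (W3 := 16777216)
    rfl rfl rfl k0_pp_123_a

noncomputable def f_pp_123_b : ℕ → ℕ → ℕ → ℕ → Bool := onCell 536870912 536870912 1239849684 370763052 50331648 16777216
    (rowFK 0 true true true .npn 1 2 3 (qsf 536870912 536870912 1239849684 370763052 3) ndF0q1 ndF2q2b pcF3 Cut.none Ext.none)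

def k0_pp_123_b : ∃ t, chk3 f_pp_123_b t 1 1 1 = true :=
  ⟨(l 4), by decide +kernel⟩

theorem c_pp_123_b : CertF 536870912 536870912 1239849684 370763052 50331648 16777216 true true true .npn 1 2 3
    ndF0q1 ndF2q2b pcF3 Cut.none Ext.none :=
  certFK0 (fam := true) (s1 := true) (s2 := true) (a := 1) (b := 2) (c := 3) (cn := .npn) (n1 := ndF0q1) (n2 := ndF2q2b) (pc := pcF3) (cut := Cut.none) (xt := Ext.none) (P1 := 536870912) (W1 := 536870912) (P2 := 1239849684) (W2 := 370763052) (P3 := 50331648) (W3 := 16777216)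
    rfl rfl rfl k0_pp_123_b

noncomputable def f_pp_133 : ℕ → ℕ → ℕ → ℕ → Bool := onCell 536870912 536870912 1610612736 536870912 50331648 16777216
    (rowFK 0 true true true .dn 1 3 3 (qsf 536870912 536870912 1610612736 536870912 3) ndF0q1 ndF2q3 pcF3 Cut.none Ext.none)

def k0_pp_133 : ∃ t, chk3 f_pp_133 t 1 1 1 = true :=
  ⟨(l 4), by decide +kernel⟩

theorem c_pp_133 : CertF 536870912 536870912 1610612736 536870912 50331648 16777216 true true true .dn 1 3 3
    ndF0q1 ndF2q3 pcF3 Cut.none Ext.none :=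
  certFK0 (fam := true) (s1 := true) (s2 := true) (a := 1) (b := 3) (c := 3) (cn := .dn) (n1 := ndF0q1) (n2 := ndF2q3) (pc := pcF3) (cut := Cut.none) (xt := Ext.none) (P1 := 536870912) (W1 := 536870912) (P2 := 1610612736) (W2 := 536870912) (P3 := 50331648) (W3 := 16777216)
    rfl rfl rfl k0_pp_133

noncomputable def f_pp_202 : ℕ → ℕ → ℕ → ℕ → Bool := onCell 0 536870912 0 536870912 50331648 16777216
    (rowFK 0 true true true .pp 2 0 2 (qsf 0 536870912 0 536870912 2) ndF0q2 ndF2q0 pcF2 Cut.none Ext.none)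

def k0_pp_202 : ∃ t, chk3 f_pp_202 t 1 1 1 = true :=
  ⟨(l 5), by decide +kernel⟩

theorem c_pp_202 : CertF 0 536870912 0 536870912 50331648 16777216 true true true .pp 2 0 2
    ndF0q2 ndF2q0 pcF2 Cut.none Ext.none :=
  certFK0 (fam := true) (s1 := true) (s2 := true) (a := 2) (b := 0) (c := 2) (cn := .pp) (n1 := ndF0q2) (n2 := ndF2q0) (pc := pcF2) (cut := Cut.none) (xt := Ext.none) (P1 := 0) (W1 := 536870912) (P2 := 0) (W2 := 536870912) (P3 := 50331648) (W3 := 16777216)
    rfl rfl rfl k0_pp_202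

noncomputable def f_pp_203 : ℕ → ℕ → ℕ → ℕ → Bool := onCell 0 536870912 0 536870912 50331648 16777216
    (rowFK 0 true true true .up 2 0 3 (qsf 0 536870912 0 536870912 3) ndF0q2 ndF2q0 pcF3 Cut.none Ext.none)

def k0_pp_203 : ∃ t, chk3 f_pp_203 t 1 1 1 = true :=
  ⟨(l 5), by decide +kernel⟩

theorem c_pp_203 : CertF 0 536870912 0 536870912 50331648 16777216 true true true .up 2 0 3
    ndF0q2 ndF2q0 pcF3 Cut.none Ext.none :=
  certFK0 (fam := true) (s1 := true) (s2 := true) (a := 2) (b := 0) (c := 3) (cn := .up) (n1 := ndF0q2) (n2 := ndF2q0) (pc := pcF3) (cut := Cut.none) (xt := Ext.none) (P1 := 0) (W1 := 536870912) (P2 := 0) (W2 := 536870912) (P3 := 50331648) (W3 := 16777216)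
    rfl rfl rfl k0_pp_203

noncomputable def f_pp_213 : ℕ → ℕ → ℕ → ℕ → Bool := onCell 0 536870912 536870912 536870912 50331648 16777216
    (rowFK 0 true true true .pnn 2 1 3 (qsf 0 536870912 536870912 536870912 3) ndF0q2 ndF2q1 pcF3 Cut.none Ext.none)

def k0_pp_213 : ∃ t, chk3 f_pp_213 t 1 1 1 = true :=
  ⟨(l 4), by decide +kernel⟩

theorem c_pp_213 : CertF 0 536870912 536870912 536870912 50331648 16777216 true true true .pnn 2 1 3
    ndF0q2 ndF2q1 pcF3 Cut.none Ext.none :=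
  certFK0 (fam := true) (s1 := true) (s2 := true) (a := 2) (b := 1) (c := 3) (cn := .pnn) (n1 := ndF0q2) (n2 := ndF2q1) (pc := pcF3) (cut := Cut.none) (xt := Ext.none) (P1 := 0) (W1 := 536870912) (P2 := 536870912) (W2 := 536870912) (P3 := 50331648) (W3 := 16777216)
    rfl rfl rfl k0_pp_213

noncomputable def f_pm_001 : ℕ → ℕ → ℕ → ℕ → Bool := onCell 536870912 536870912 0 536870912 50331648 16777216
    (rowFK 2 true true false .up 0 0 1 (qsf 0 536870912 0 536870912 1) ndF0q0 ndF2q0 pcF1 Cut.none Ext.none)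

def k0_pm_001 : ∃ t, chk3 f_pm_001 t 1 1 1 = true :=
  ⟨(a (l 3) (a (l 3) (b (l 2) (a (l 3) (a (l 3) (b (l 2) (l 159622427959))))))), by decide +kernel⟩

theorem c_pm_001 : CertF 0 536870912 0 536870912 50331648 16777216 true true false .up 0 0 1
    ndF0q0 ndF2q0 pcF1 Cut.none Ext.none :=
  certFK2 (fam := true) (s1 := true) (s2 := false) (a := 0) (b := 0) (c := 1) (cn := .up) (n1 := ndF0q0) (n2 := ndF2q0) (pc := pcF1) (cut := Cut.none) (xt := Ext.none) (P1 := 0) (W1 := 536870912) (P2 := 0) (W2 := 536870912) (P3 := 50331648) (W3 := 16777216)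
    rfl rfl rfl (fun _ => rfl) k0_pm_001

noncomputable def cut_pm_011 : Cut := Cut.of [[⟨0, 0, 0, 50331648⟩, ⟨1, 1, 0, 50331648⟩, ⟨2, 1, 0, 50331648⟩], [⟨0, 0, 1, 33554432⟩, ⟨1, 1, 2, 33554432⟩, ⟨2, 1, 0, 16777216⟩, ⟨0, 0, 0, 83886080⟩, ⟨0, 1, 0, 1040187392⟩, ⟨1, 0, 0, 1040187392⟩, ⟨1, 1, 0, 83886080⟩]]

noncomputable def f_pm_011 : ℕ → ℕ → ℕ → ℕ → Bool := onCell 536870912 536870912 536870912 536870912 50331648 16777216
    (rowFK 2 true true false .pnn 0 1 1 (qsf 0 536870912 536870912 536870912 1) ndF0q0 ndF2q1 pcF1 cut_pm_011 Ext.none)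

def k0_pm_011 : ∃ t, chk3 f_pm_011 t 1 1 1 = true :=
  ⟨(a (l 3) (a (l 3) (a (l 3) (a (l 3) (b (b (l 18660640) (l 240689348711)) (a (l 3) (a (l 3) (b (b (l 17995824) (l 225118874311)) (a (l 3) (a (l 3) (b (b (l 17666016) (b (b (l 17525088) (l 17278336)) (b (b (l 17230832) (l 14)) (l 14)))) (b (b (l 14) (b (l 14) (l 6))) (l 6))))))))))))), by decide +kernel⟩

theorem c_pm_011 : CertF 0 536870912 536870912 536870912 50331648 16777216 true true false .pnn 0 1 1
    ndF0q0 ndF2q1 pcF1 cut_pm_011 Ext.none :=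
  certFK2 (fam := true) (s1 := true) (s2 := false) (a := 0) (b := 1) (c := 1) (cn := .pnn) (n1 := ndF0q0) (n2 := ndF2q1) (pc := pcF1) (cut := cut_pm_011) (xt := Ext.none) (P1 := 0) (W1 := 536870912) (P2 := 536870912) (W2 := 536870912) (P3 := 50331648) (W3 := 16777216)
    rfl rfl rfl (fun _ => rfl) k0_pm_011

noncomputable def cut_pm_012 : Cut := Cut.of [[⟨0, 0, 0, 50331648⟩, ⟨1, 1, 0, 50331648⟩, ⟨2, 1, 0, 50331648⟩], [⟨0, 0, 1, 33554432⟩, ⟨1, 1, 2, 33554432⟩, ⟨2, 1, 0, 16777216⟩, ⟨0, 0, 0, 83886080⟩, ⟨0, 1, 0, 1040187392⟩, ⟨1, 0, 0, 1040187392⟩, ⟨1, 1, 0, 83886080⟩]]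

noncomputable def f_pm_012 : ℕ → ℕ → ℕ → ℕ → Bool := onCell 1073741824 536870912 536870912 536870912 50331648 16777216
    (rowFK 2 true true false .pnp 0 1 2 (qsf 0 536870912 536870912 536870912 2) ndF0q0 ndF2q1 pcF2 cut_pm_012 Ext.none)

def k0_pm_012 : ∃ t, chk3 f_pm_012 t 2 2 1 = true :=
  ⟨(a (a (a (a (b (l 18562400) (l 18392504)) (b (l 18489640) (l 18411560))) (b (l 18390488) (l 18330768))) (b (l 18179880) (b (l 18054304) (l 17842792)))) (b (a (l 17937688) (l 2)) (a (l 17656568) (l 17294816)))), by decide +kernel⟩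

def k1_pm_012 : ∃ t, chk3 f_pm_012 t 4 6 1 = true :=
  ⟨(a (a (a (b (l 17958344) (b (l 17707024) (l 17839448))) (b (l 17895640) (a (l 17911064) (l 17982360)))) (b (l 17822688) (b (l 18000008) (l 18218840)))) (b (l 17857720) (a (l 18322928) (l 18312712)))), by decide +kernel⟩

def k2_pm_012 : ∃ t, chk3 f_pm_012 t 8 14 1 = true :=
  ⟨(a (a (b (b (l 17865096) (a (l 17743360) (l 17893464))) (b (a (b (l 17577680) (a (a (l 17390312) (l 17505368)) (l 17583960))) (b (l 17820976) (l 17740176))) (a (b (c (a (l 17401536) (l 17565440)) (a (b (l 17162216) (a (l 14) (l 17216296))) (l 17194320))) (a (l 14) (c (l 17318488) (b (l 17091352) (l 14))))) (b (a (l 17571032) (l 17687560)) (c (l 17495448) (a (b (l 17338888) (l 17205512)) (l 17399168))))))) (b (a (l 18047136) (l 18165072)) (a (b (l 17971912) (b (l 17857680) (l 17594792))) (b (l 18144784) (a (l 17974608) (l 18082824)))))) (b (a (l 18330392) (l 18534744)) (a (b (l 18383696) (a (l 18236552) (l 18427576))) (b (l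 18667848) (l 18679136))))), by decide +kernel⟩

def k3_pm_012 : ∃ t, chk3 f_pm_012 t 16 30 1 = true :=
  ⟨(a (b (a (l 14) (a (l 14) (a (l 14) (a (l 14) (b (l 17178360) (c (l 17146128) (b (l 17093696) (l 16881552)))))))) (b (a (l 14) (a (l 14) (a (l 14) (b (c (l 16916736) (l 16723560)) (l 16710792))))) (b (a (l 14) (a (l 14) (a (l 14) (b (l 16726472) (l 16727040))))) (a (l 6) (a (b (l 14) (l 6)) (b (a (l 14) (l 16727616)) (a (l 16736488) (l 16728400)))))))) (a (b (b (a (b (l 17563368) (l 17344712)) (l 17531528)) (c (a (b (l 17533440) (l 17420424)) (l 17638784)) (a (b (l 17002568) (a (l 16882200) (l 17008592))) (b (l 17345600) (l 17070960))))) (b (b (c (a (b (l 17322128) (l 17143992)) (l 17466752)) (a (b (l 16823424) (l 16774600)) (b (l 17044424) (l 16941568)))) (b (c (a (l 16979760) (l 17362136)) (a (l 16738216) (l 16852200))) (a (l 16728888) (c (l 17199984) (l 16796360))))) (b (b (a (a (l 16718288) (l 16780248)) (c (l 17029984) (l 16731000))) (a (a (l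 16718880) (l 16710672)) (l 16732008))) (b (a (a (l 16719472) (l 16711288)) (l 16719120)) (a (a (l 16720272) (a (l 16714152) (l 16710056))) (a (l 16703904) (a (l 16697720) (l 16706112)))))))) (b (b (a (l 17791832) (l 17920608)) (a (b (l 17665496) (l 17437488)) (c (l 17938888) (l 17507168)))) (b (a (c (b (l 17640264) (l 17514376)) (b (l 17098760) (b (l 17086288) (l 16957096)))) (c (l 17606168) (b (l 17374824) (a (l 17228240) (l 17320544))))) (b (a (c (b (l 17403552) (l 17257464)) (b (l 16861640) (l 16798872))) (c (l 17458112) (a (l 16885824) (l 16988560)))) (a (b (c (l 17060824) (l 16725632)) (l 16736976)) (c (a (l 17180992) (l 17415336)) (a (b (l 16900056) (l 16784808)) (b (l 17012240) (l 16904320)))))))))), by decide +kernel⟩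

def k4_pm_012 : ∃ t, chk3 f_pm_012 t 16 31 1 = true :=
  ⟨(a (b (b (a (l 6) (b (a (l 6) (a (l 6) (b (l 16729000) (l 6)))) (l 6))) (l 6)) (l 6)) (b (a (b (b (b (a (a (a (l 16722928) (l 16718864)) (b (l 16712776) (l 16713168))) (a (a (l 16706608) (l 16702504)) (a (a (l 16699416) (l 16698056)) (l 16696624)))) (a (a (l 16721792) (a (l 16694728) (l 16711624))) (a (a (l 16707544) (a (l 16704472) (l 16702992))) (l 16700568)))) (a (a (l 6) (b (l 16714312) (l 6))) (a (a (l 16710376) (l 16708392)) (a (l 16706424) (l 16704464))))) (a (l 6) (b (a (l 6) (l 16696272)) (l 6)))) (b (a (b (b (l 16715144) (a (l 16696720) (l 16692912))) (a (l 16701544) (l 16697688))) (a (b (b (c (l 17158960) (l 16686216)) (l 16802776)) (l 16693880)) (b (c (b (l 17319904) (l 17173928)) (b (l 16785456) (l 16664640))) (l 16712800)))) (a (b (b (l 16688728) (l 16691968)) (b (l 16695232) (l 6))) (a (b (b (l 16677672) (l 16680864)) (l 16690928)) (a (b (l 16676384) (l 16703720)) (b (l 16695504)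 (l 16691352))))))) (a (l 6) (a (l 6) (b (a (l 6) (b (b (l 16697232) (l 6)) (l 6))) (l 6)))))), by decide +kernel⟩

def k5_pm_012 : ∃ t, chk3 f_pm_012 t 17 30 1 = true :=
  ⟨(a (b (a (b (l 18103136) (a (l 17907320) (l 18042360))) (l 18202224)) (a (a (b (b (l 17771336) (l 17450584)) (c (b (l 17751448) (l 17529288)) (b (a (l 17193360) (l 17353272)) (a (b (l 17121104) (l 16999112)) (l 16928816))))) (b (l 17625528) (b (l 17521792) (a (c (l 17761248) (l 17180736)) (l 17411664))))) (b (l 17866696) (b (l 17731472) (a (l 17552120) (l 17937944)))))) (b (l 18599256) (b (l 18480848) (a (b (l 18261696) (l 18179064)) (l 18495888))))), by decide +kernel⟩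

def k6_pm_012 : ∃ t, chk3 f_pm_012 t 17 62 1 = true :=
  ⟨(a (b (a (b (c (a (b (l 17448384) (l 17208832)) (l 17580712)) (a (b (a (l 16888048) (l 17007344)) (a (l 16786544) (l 16914096))) (b (l 17010648) (l 16907848)))) (c (a (a (a (l 16972184) (l 17059640)) (l 17093792)) (a (l 17344224) (l 17547408))) (a (a (l 16686552) (l 16720152)) (a (l 16793552) (l 16861368))))) (c (b (l 17941320) (a (l 17716872) (l 17926368))) (b (a (b (l 17413336) (l 17303000)) (l 17574368)) (a (a (l 16986728) (l 17148888)) (l 17236208))))) (a (b (a (a (b (l 16670352) (l 16673480)) (l 16692144)) (a (a (l 16743480) (c (l 17048344) (l 16663544))) (c (l 17087712) (l 16720656)))) (a (b (a (l 16676624) (l 16673104)) (a (l 16679776) (l 16676232))) (b (l 16675632) (l 16679568)))) (c (a (b (a (l 17365208) (l 17594624)) (a (b (l 17192192) (l 16975896)) (a (l 17131752) (l 17285808)))) (b (l 17770736) (c (l 17736728) (l 17170296)))) (a (b (a (l 16760488) (l 16835656)) (a (l 16663616) (l 16702032)))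 (a (b (l 16946504) (l 16729176)) (b (l 17135304) (l 16769648))))))) (b (b (a (l 17871088) (l 18391808)) (a (a (l 17741568) (l 18053448)) (l 18305368))) (a (c (a (b (l 17987032) (l 17825880)) (l 18120024)) (a (b (l 17250888) (a (l 16907824) (l 17102208))) (b (l 17659560) (l 17224960)))) (c (l 18399760) (a (l 17555496) (l 17981712)))))), by decide +kernel⟩

def k7_pm_012 : ∃ t, chk3 f_pm_012 t 17 126 1 = true :=
  ⟨(a (a (b (b (a (a (l 16703840) (l 16679280)) (a (l 16675560) (l 16671896))) (a (a (l 16696184) (l 16682080)) (a (l 16678320) (l 16674624)))) (a (b (a (l 6) (l 16695360)) (l 6)) (b (a (l 16681080) (l 16677352)) (a (l 16686480) (l 16680096))))) (a (b (b (l 16674120) (l 16677856)) (b (a (l 16673688) (l 16670088)) (a (l 16676400) (l 16672760)))) (b (c (c (b (l 17576072) (l 17389648)) (b (l 17026440) (a (l 16948336) (l 17173616)))) (b (l 16663360) (l 16667792))) (b (l 16671552) (l 16675936))))) (a (c (a (b (a (l 17369560) (l 17693128)) (c (b (l 17624520)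 (l 17411736)) (b (l 17015624) (a (l 16884928) (l 17160016))))) (b (l 17882128) (a (l 17352560) (l 17723056)))) (b (b (a (c (l 17071336) (l 16748968)) (l 17083712)) (a (l 16682032) (c (l 17352560) (l 16863456)))) (a (b (l 16663288) (l 16665960)) (c (b (l 17057256) (a (l 16917544) (l 17162336))) (b (l 16698760) (l 16654784)))))) (c (b (l 18218000) (a (l 17939264) (l 18175160))) (b (a (c (l 17663984) (l 17218768)) (l 17749792)) (a (c (b (l 17506184) (l 17365840)) (b (l 17081552) (a (l 16931808) (l 17126240)))) (c (l 17709208) (l 17188864))))))), by decide +kernel⟩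

def k8_pm_012 : ∃ t, chk3 f_pm_012 t 34 127 1 = true :=
  ⟨(a (a (l 6) (b (b (a (l 6) (l 16685480)) (l 6)) (l 6))) (a (b (b (a (l 16681744) (l 16675456)) (a (c (l 16686080) (l 16686832)) (l 16682096))) (a (l 6) (b (b (l 16682824) (l 6)) (l 6)))) (a (b (b (l 16671848) (l 16677144)) (a (b (l 16680576) (l 6)) (b (l 16678760) (b (l 16678168) (l 6))))) (b (b (l 16668304) (l 16673560)) (b (a (l 16676960) (l 16675176)) (b (a (l 16676352) (l 16674552)) (b (a (l 16677360) (l 16675552)) (a (l 6) (c (l 16676576) (l 16675864)))))))))), by decide +kernel⟩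

def k9_pm_012 : ∃ t, chk3 f_pm_012 t 35 127 1 = true :=
  ⟨(b (a (a (a (b (l 16664824) (l 16667424)) (b (c (c (l 17435232) (l 16853864)) (l 16661040)) (l 16663968))) (c (c (b (l 17674344) (l 17414344)) (b (a (l 17132840) (l 17380040)) (a (b (l 17033488) (l 16884304)) (l 17106056)))) (b (l 16659664) (a (l 16660184) (l 16656840))))) (c (a (c (l 17906000) (b (l 17606920) (l 17373296))) (l 17997584)) (a (c (b (a (l 17133672) (l 17330296)) (a (l 16811800) (l 17084416))) (b (l 16650104) (l 16657168))) (c (b (l 17546048) (l 17359528)) (b (l 17003280) (a (l 16845360) (l 17087848))))))) (a (a (a (a (b (l 16670784) (b (l 16672768) (b (l 16673760) (c (l 16674792) (l 16674064))))) (b (l 16669032) (b (l 16671000) (a (a (l 16672944) (l 16672496)) (l 16672496))))) (a (b (l 16667296) (b (l 16669248) (a (l 16670960) (l 16670088)))) (b (l 16665568) (b (l 16667512) (c (l 16669200) (l 16669728)))))) (a (b (a (l 16663864) (l 16662296)) (b (l 16667664) (b (l 16668632) (a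 (l 16667400) (l 16665688))))) (b (c (c (l 17477200) (b (l 16983200) (l 16811200))) (l 16659344)) (b (l 16662672) (a (l 16663664) (l 16661984)))))) (c (a (c (b (l 17725584) (a (l 17456832) (l 17670184))) (b (a (l 17037728) (l 17417416)) (b (a (l 16891400) (l 17282624)) (a (c (l 17055024) (a (l 16727880) (l 16912048))) (l 17054264))))) (c (l 17964872) (b (l 17652640) (l 17267576)))) (a (b (b (l 16656008) (l 16660856)) (b (a (l 16657888) (l 16659840)) (a (c (l 16661976) (l 16661528)) (l 16658456)))) (c (b (a (l 17035544) (l 17363936)) (b (a (l 16917136) (l 17255784)) (a (a (l 16765048) (l 16899168)) (l 17031840)))) (b (a (l 16651784) (b (l 16977680) (l 16836432))) (b (l 16654968) (a (l 16652352) (l 16651136))))))))), by decide +kernel⟩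

def k10_pm_012 : ∃ t, chk3 f_pm_012 t 9 7 1 = true :=
  ⟨(b (b (a (l 18762648) (l 18875536)) (a (a (l 18944776) (l 19123288)) (l 19273264))) (b (a (b (l 19078944) (a (l 18877224) (l 19198824))) (l 19494576)) (b (a (a (b (l 18758184) (a (l 18481888) (l 18767936))) (b (l 19161400) (l 19111088))) (b (l 19544976) (l 19564512))) (a (b (a (a (c (l 18541992) (b (l 18062312) (l 17678048))) (l 18616320)) (l 19036312)) (a (a (c (b (l 18351216) (a (l 18036112) (l 18305376))) (b (a (a (l 17275624) (l 17617136)) (l 17843800)) (a (c (b (l 17587224) (l 17249744)) (b (a (l 17037728) (l 17315760)) (a (c (l 16894688) (b (l 16918360) (l 16689504))) (b (l 17212824) (l 17034840))))) (c (l 17803224) (b (l 17528168) (l 17237960)))))) (c (l 18686720) (b (l 18171936) (a (l 17871504) (l 18122144))))) (a (l 18759536) (l 19061472)))) (l 19581280))))), by decide +kernel⟩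

def k11_pm_012 : ∃ t, chk3 f_pm_012 t 5 3 1 = true :=
  ⟨(b (a (b (l 17501064) (l 18222144)) (l 17642512)) (b (b (l 18877584) (l 19487208)) (b (a (l 19732360) (l 19724496)) (b (a (l 19955608) (l 19977136)) (a (l 20063376) (l 20112536)))))), by decide +kernel⟩

def k12_pm_012 : ∃ t, chk3 f_pm_012 t 3 1 1 = true :=
  ⟨(b (a (b (l 2) (a (l 17100728) (l 2))) (l 2)) (a (b (b (l 17142992) (l 17846616)) (b (l 18866064) (b (l 19464440) (b (l 19695488) (l 19811096))))) (b (b (l 2) (l 17626672)) (b (l 18578224) (b (l 19107696) (b (l 19290264) (l 19369440))))))), by decide +kernel⟩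

theorem s13_pm_012 : ∃ t, chk3 f_pm_012 t 17 127 1 = true := ex3_a k8_pm_012 k9_pm_012

theorem s14_pm_012 : ∃ t, chk3 f_pm_012 t 17 63 1 = true := ex3_b k7_pm_012 s13_pm_012

theorem s15_pm_012 : ∃ t, chk3 f_pm_012 t 17 31 1 = true := ex3_b k6_pm_012 s14_pm_012

theorem s16_pm_012 : ∃ t, chk3 f_pm_012 t 17 15 1 = true := ex3_b k5_pm_012 s15_pm_012

theorem s17_pm_012 : ∃ t, chk3 f_pm_012 t 16 15 1 = true := ex3_b k3_pm_012 k4_pm_012

theorem s18_pm_012 : ∃ t, chk3 f_pm_012 t 8 15 1 = true := ex3_a s17_pm_012 s16_pm_012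

theorem s19_pm_012 : ∃ t, chk3 f_pm_012 t 8 7 1 = true := ex3_b k2_pm_012 s18_pm_012

theorem s20_pm_012 : ∃ t, chk3 f_pm_012 t 4 7 1 = true := ex3_a s19_pm_012 k10_pm_012

theorem s21_pm_012 : ∃ t, chk3 f_pm_012 t 4 3 1 = true := ex3_b k1_pm_012 s20_pm_012

theorem s22_pm_012 : ∃ t, chk3 f_pm_012 t 2 3 1 = true := ex3_a s21_pm_012 k11_pm_012

theorem s23_pm_012 : ∃ t, chk3 f_pm_012 t 2 1 1 = true := ex3_b k0_pm_012 s22_pm_012

theorem s24_pm_012 : ∃ t, chk3 f_pm_012 t 1 1 1 = true := ex3_a s23_pm_012 k12_pm_012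

theorem c_pm_012 : CertF 0 536870912 536870912 536870912 50331648 16777216 true true false .pnp 0 1 2
    ndF0q0 ndF2q1 pcF2 cut_pm_012 Ext.none :=
  certFK2 (fam := true) (s1 := true) (s2 := false) (a := 0) (b := 1) (c := 2) (cn := .pnp) (n1 := ndF0q0) (n2 := ndF2q1) (pc := pcF2) (cut := cut_pm_012) (xt := Ext.none) (P1 := 0) (W1 := 536870912) (P2 := 536870912) (W2 := 536870912) (P3 := 50331648) (W3 := 16777216)
    rfl rfl rfl (fun _ => rfl) s24_pm_012

noncomputable def cut_pm_022_a : Cut := Cut.of [[⟨0, 0, 0, 50331648⟩, ⟨1, 1, 0, 50331648⟩, ⟨2, 1, 0, 50331648⟩], [⟨0, 0, 1, 33554432⟩, ⟨1, 1, 0, 16777216⟩, ⟨2, 1, 1, 33554432⟩, ⟨0, 0, 0, 83886080⟩, ⟨0, 1, 0, 1040187392⟩, ⟨2, 1, 0, 83886080⟩, ⟨2, 2, 0, 1040187392⟩]]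

noncomputable def f_pm_022_a : ℕ → ℕ → ℕ → ℕ → Bool := onCell 0 536870912 0 536870912 50331648 16777216
    (rowFK 0 true true false .pp 0 2 2 (qsf 0 536870912 0 536870912 2) ndF0q0 ndF2q2a pcF2 cut_pm_022_a Ext.none)

def k0_pm_022_a : ∃ t, chk3 f_pm_022_a t 2 2 1 = true :=
  ⟨(a (a (b (l 18694728) (a (l 18757896) (l 18670944))) (l 18586368)) (l 18520352)), by decide +kernel⟩

def k1_pm_022_a : ∃ t, chk3 f_pm_022_a t 4 6 1 = true :=
  ⟨(a (a (b (l 18643544) (b (a (l 18387096) (l 18486736)) (a (a (b (b (l 18137832) (l 18029904)) (c (l 17883560) (a (b (l 17652552) (l 17465832)) (l 17561184)))) (b (l 18219064) (l 18034928))) (l 18115504)))) (b (l 18636360) (b (l 18552488) (l 18438672)))) (b (l 18627600) (l 18594936))), by decide +kernel⟩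

def k2_pm_022_a : ∃ t, chk3 f_pm_022_a t 64 28 1 = true :=
  ⟨(b (c (a (b (l 17799096) (l 17598368)) (l 17844480)) (a (a (b (b (l 17348536) (l 17154464)) (c (b (l 17284312) (l 17185368)) (b (l 16875504) (a (b (l 16895544) (l 16818528)) (l 16900808))))) (b (l 17364576) (b (l 17212176) (l 16991096)))) (b (l 17494104) (b (l 17375520) (l 17163912))))) (c (b (a (a (a (l 17137912) (l 17330112)) (l 17436168)) (l 17614040)) (b (a (c (l 17433640) (a (a (l 16980136) (l 17140336)) (l 17218352))) (l 17458144)) (a (c (a (l 17249832) (l 17372048)) (a (a (b (l 16906376) (l 16756056)) (l 16850400)) (l 16956720))) (l 17150072)))) (a (a (a (b (b (c (l 16989400) (l 16667680)) (a (l 16670760) (l 16670128))) (b (a (l 16673984) (l 16672784)) (b (l 16674392) (l 16675896)))) (b (c (b (l 17104720) (l 16887408)) (b (l 16726032) (l 16668472))) (b (l 16673168) (l 16675328)))) (b (c (b (l 17178880) (l 16988904)) (b (l 16745768) (l 16668904))) (b (l 16671256) (l 16674528)))) (a (b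 (c (l 17158776) (b (l 17035992) (l 16846800))) (b (a (l 16788336) (l 16863160)) (l 16676832))) (b (b (l 17240728) (l 17062032)) (b (l 16897496) (l 16788336))))))), by decide +kernel⟩

def k3_pm_022_a : ∃ t, chk3 f_pm_022_a t 64 29 1 = true :=
  ⟨(a (b (b (a (a (b (b (l 16678040) (a (l 16679344) (l 16677328))) (b (a (l 16680912) (l 16678896)) (a (l 16682504) (l 16680480)))) (a (b (l 16679152) (l 16682536)) (b (c (c (l 17188552) (l 16754736)) (l 16680568)) (l 16681168)))) (b (c (c (l 17256992) (b (l 16906152) (l 16778432))) (c (l 16678992) (l 16679088))) (a (l 16680200) (l 16681696)))) (b (b (a (a (b (l 16683320) (l 16684128)) (l 16682400)) (l 16681744)) (a (a (a (c (l 16685824) (l 16685680)) (l 16685032)) (l 16684032)) (l 16683376))) (b (a (a (a (b (l 16685592) (l 16687080)) (l 16686696)) (l 16685688)) (l 16685024)) (a (a (a (b (l 16687920) (l 16688768)) (l 16688376)) (l 16687368)) (l 16687360))))) (b (a (b (a (b (a (b (l 16689616) (c (l 16689880) (l 16691072)))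 (l 16690080)) (l 6)) (b (l 16690376) (l 16692112))) (l 6)) (a (b (a (l 16691752) (l 16689704)) (b (l 16692384) (l 6))) (b (l 16690040) (l 16694872)))) (l 6))) (b (a (b (c (c (l 17091440) (b (l 17029864) (b (l 16958552) (l 16872952)))) (b (l 16675376) (l 16679424))) (b (l 16681824) (l 16686008))) (b (b (c (l 17300368) (l 16712768)) (c (l 17043296) (l 16690816))) (a (a (l 16686944) (l 16686088)) (l 16685928)))) (b (a (a (b (l 16688560) (l 16692072)) (b (l 16693640) (l 16691888))) (b (a (l 16702648) (l 16701176)) (b (l 16704280) (l 16695544)))) (b (a (b (l 16693768) (l 16695584)) (l 16694864)) (a (l 6) (l 16699248)))))), by decide +kernel⟩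

def k4_pm_022_a : ∃ t, chk3 f_pm_022_a t 65 14 1 = true :=
  ⟨(b (b (a (b (l 17815200) (l 17512480)) (l 17643392)) (c (b (l 17800208) (a (l 17584352) (l 17711432))) (b (a (b (l 17358920) (l 17210464)) (l 17457344)) (a (a (a (l 16834080) (l 16943520)) (l 17009608)) (l 17108408))))) (a (b (a (c (b (l 17169968) (b (l 17070424) (a (l 16923480) (l 17019912)))) (b (l 16676664) (b (l 16684224) (l 16695832)))) (c (b (l 17441280) (b (l 17290672) (l 17075664))) (b (b (l 16965040) (l 16835456)) (l 16682304)))) (b (b (b (l 16681608) (l 16683168)) (a (b (l 16701304) (l 16703032)) (l 16699656))) (b (a (l 16693128) (l 16703192)) (a (l 16695504) (l 16696352))))) (b (c (b (l 17551488) (b (l 17416144) (l 17212792))) (b (a (l 16818368) (l 17031120)) (b (l 16750688) (l 16701464)))) (b (c (a (b (l 17080032) (l 16898136)) (b (l 17256600) (l 17083576))) (b (l 16685704) (l 16684008))) (b (a (l 16700144) (l 16733792)) (a (b (l 16702272) (a (l 16704632) (l 16703512))) (b (l 16699888)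 (l 16702656)))))))), by decide +kernel⟩

def k5_pm_022_a : ∃ t, chk3 f_pm_022_a t 33 14 1 = true :=
  ⟨(b (b (a (l 17979656) (l 18104952)) (a (a (b (l 17761640) (l 17521184)) (l 17626432)) (l 17915368))) (b (b (a (c (l 17731080) (a (l 17127328) (l 17408704))) (l 17660456)) (a (c (a (l 17515632) (l 17638720)) (a (b (l 17076648) (l 16916456)) (l 17122400))) (a (l 17477424) (l 17662496)))) (a (b (c (a (b (l 17379904) (l 17197336)) (l 17476992)) (a (b (l 16812360) (l 16742712)) (b (l 17071864) (l 16932856)))) (b (c (a (l 16965440) (l 17340824)) (a (l 16706744) (l 16829144))) (a (l 16693504) (c (l 17158064) (l 16760088))))) (c (b (l 17651920) (a (l 17435744) (l 17555968))) (b (a (l 17093848) (l 17349800)) (a (b (l 17064448) (l 16925688)) (l 17041920))))))), by decide +kernel⟩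

def k6_pm_022_a : ∃ t, chk3 f_pm_022_a t 17 14 1 = true :=
  ⟨(b (a (l 18055528) (l 18285024)) (a (b (a (l 17842744) (l 17962984)) (b (a (l 17585832) (l 17817488)) (a (a (l 17382448) (l 17585632)) (l 17707752)))) (b (l 18093472) (l 17930472)))), by decide +kernel⟩

def k7_pm_022_a : ∃ t, chk3 f_pm_022_a t 16 15 1 = true :=
  ⟨(b (b (a (a (l 6) (a (b (b (a (l 16700624) (b (l 16708984) (a (l 16711376) (l 16709912)))) (a (l 6) (b (b (l 16712176) (l 16713544)) (l 6)))) (l 6)) (a (b (b (b (b (l 16705792) (l 16707176)) (l 16709032)) (b (l 16711776) (l 16714520))) (b (b (l 16717256) (l 6)) (l 6))) (b (b (b (l 16705416) (l 16708176)) (b (l 16710936) (l 16713688))) (b (l 16706520) (l 16710176)))))) (a (a (b (b (a (l 16705344) (l 16747400)) (b (l 16709064) (l 16711808))) (b (b (l 16714544) (l 16717280)) (a (l 16711408) (l 16721152)))) (b (b (c (l 16947104) (l 16704000)) (l 16704632)) (b (l 16708296) (l 16709360)))) (b (c (a (b (l 17299176) (l 17116256)) (l 17350136))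 (a (b (l 16843392) (l 16775040)) (b (l 17033752) (l 16916288)))) (a (b (l 16728784) (l 16713616)) (c (b (l 17255240) (l 17051328)) (b (l 16834568) (l 16746152))))))) (a (l 6) (a (b (a (b (b (l 16715000) (l 16717664)) (l 6)) (b (l 16714384) (l 16718400))) (a (l 6) (b (a (l 6) (l 16736368)) (l 6)))) (b (b (a (a (l 16724736) (l 16703056)) (l 16777056)) (a (a (l 16730232) (l 16729552)) (l 16721240))) (b (a (a (l 16735720) (l 16735072)) (l 16733272)) (a (a (l 16741208) (l 16740592)) (l 16728256))))))) (a (l 6) (b (a (l 6) (b (b (b (a (l 16734128) (l 16743504)) (a (l 6) (l 16746272))) (a (l 6) (a (l 16740592) (l 16750528)))) (l 6))) (l 6)))), by decide +kernel⟩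

def k8_pm_022_a : ∃ t, chk3 f_pm_022_a t 17 15 1 = true :=
  ⟨(b (b (a (a (b (c (l 17563632) (a (l 16924912) (l 17282104))) (c (b (l 17448960) (l 17240576)) (a (b (l 17001072) (l 16863144)) (b (l 17163152) (l 17077952))))) (b (l 17377752) (b (l 17364352) (l 17189864)))) (b (l 17790928) (a (l 17578704) (l 17745920)))) (b (a (a (c (a (b (l 17209472) (l 17026656)) (l 17236312)) (a (l 16712944) (l 16772832))) (c (l 17447144) (a (l 16958904) (l 17208056)))) (a (a (l 17416184) (l 17539688)) (l 17641456))) (a (a (a (b (l 16761328) (l 16737656)) (c (b (l 17120152) (l 16958792)) (l 16725816))) (c (a (l 17103440) (l 17366384)) (a (l 16722152) (l 16816688)))) (a (c (l 17509952) (a (l 17106032) (l 17274056))) (l 17403056))))) (b (b (a (b (a (a (l 16732712) (l 16745320)) (c (a (l 17029824) (l 17243760)) (a (l 16759368) (l 16874800)))) (a (a (l 16735624) (l 16737296)) (a (l 16751920) (c (l 17093608) (l 16803240))))) (a (c (a (l 17294168) (l 17413752)) (a (b (l 17030152)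 (l 16904984)) (l 16919368))) (a (l 17198320) (l 17383656)))) (a (a (a (a (b (l 16745104) (l 6)) (l 14)) (l 14)) (l 14)) (l 14))) (a (a (a (l 6) (l 14)) (l 14)) (l 14)))), by decide +kernel⟩

def k9_pm_022_a : ∃ t, chk3 f_pm_022_a t 9 7 1 = true :=
  ⟨(b (b (l 18461304) (a (b (l 18262808) (l 18143168)) (l 18359864))) (b (b (a (a (l 17929656) (l 18066304)) (l 18221128)) (a (a (l 17731944) (l 17918392)) (l 18103656))) (a (a (b (a (b (l 17545512) (a (l 17168176) (l 17466560))) (l 17583152)) (b (b (a (a (l 14) (l 17381640)) (l 17474168)) (a (l 14) (l 17294720))) (a (l 14) (a (b (l 17228296) (l 14)) (b (l 17397128) (l 17174704)))))) (b (l 17744504) (b (l 17601360) (a (b (l 17477432) (l 17405480)) (l 17548976))))) (b (l 17962232) (a (b (l 17769240) (l 17678312)) (l 17869664)))))), by decide +kernel⟩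

def k10_pm_022_a : ∃ t, chk3 f_pm_022_a t 5 3 1 = true :=
  ⟨(b (b (l 18650600) (l 18720536)) (b (a (l 18558936) (l 18694632)) (b (b (l 18564352) (l 18508040)) (a (b (l 18275984) (a (b (l 18089520) (a (l 17959736) (a (l 18048240) (b (l 18121408) (b (l 18096936) (a (l 18065768) (l 18092008))))))) (l 18259960))) (l 18532312))))), by decide +kernel⟩

def k11_pm_022_a : ∃ t, chk3 f_pm_022_a t 3 1 1 = true :=
  ⟨(b (a (l 18358536) (l 18008440)) (b (a (l 18655800) (l 18513408)) (b (a (l 18773752) (l 18633440)) (b (a (l 18825272) (l 18726872)) (a (l 19042296) (l 18829560)))))), by decide +kernel⟩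

theorem s12_pm_022_a : ∃ t, chk3 f_pm_022_a t 8 15 1 = true := ex3_a k7_pm_022_a k8_pm_022_a

theorem s13_pm_022_a : ∃ t, chk3 f_pm_022_a t 64 14 1 = true := ex3_b k2_pm_022_a k3_pm_022_a

theorem s14_pm_022_a : ∃ t, chk3 f_pm_022_a t 32 14 1 = true := ex3_a s13_pm_022_a k4_pm_022_a

theorem s15_pm_022_a : ∃ t, chk3 f_pm_022_a t 16 14 1 = true := ex3_a s14_pm_022_a k5_pm_022_a

theorem s16_pm_022_a : ∃ t, chk3 f_pm_022_a t 8 14 1 = true := ex3_a s15_pm_022_a k6_pm_022_a

theorem s17_pm_022_a : ∃ t, chk3 f_pm_022_a t 8 7 1 = true := ex3_b s16_pm_022_a s12_pm_022_a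

theorem s18_pm_022_a : ∃ t, chk3 f_pm_022_a t 4 7 1 = true := ex3_a s17_pm_022_a k9_pm_022_a

theorem s19_pm_022_a : ∃ t, chk3 f_pm_022_a t 4 3 1 = true := ex3_b k1_pm_022_a s18_pm_022_a

theorem s20_pm_022_a : ∃ t, chk3 f_pm_022_a t 2 3 1 = true := ex3_a s19_pm_022_a k10_pm_022_a

theorem s21_pm_022_a : ∃ t, chk3 f_pm_022_a t 2 1 1 = true := ex3_b k0_pm_022_a s20_pm_022_a

theorem s22_pm_022_a : ∃ t, chk3 f_pm_022_a t 1 1 1 = true := ex3_a s21_pm_022_a k11_pm_022_a

theorem c_pm_022_a : CertF 0 536870912 0 536870912 50331648 16777216 true true false .pp 0 2 2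
    ndF0q0 ndF2q2a pcF2 cut_pm_022_a Ext.none :=
  certFK0 (fam := true) (s1 := true) (s2 := false) (a := 0) (b := 2) (c := 2) (cn := .pp) (n1 := ndF0q0) (n2 := ndF2q2a) (pc := pcF2) (cut := cut_pm_022_a) (xt := Ext.none) (P1 := 0) (W1 := 536870912) (P2 := 0) (W2 := 536870912) (P3 := 50331648) (W3 := 16777216)
    rfl rfl rfl s22_pm_022_a

noncomputable def cut_pm_022_b : Cut := Cut.of [[⟨0, 0, 0, 50331648⟩, ⟨1, 1, 0, 50331648⟩, ⟨2, 1, 0, 50331648⟩], [⟨0, 0, 1, 33554432⟩, ⟨1, 1, 0, 16777216⟩, ⟨2, 1, 1, 33554432⟩, ⟨0, 0, 0, 83886080⟩, ⟨0, 1, 0, 1040187392⟩, ⟨2, 1, 0, 83886080⟩, ⟨2, 2, 0, 1040187392⟩]]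

noncomputable def f_pm_022_b : ℕ → ℕ → ℕ → ℕ → Bool := onCell 1073741824 536870912 1239849684 370763052 50331648 16777216
    (rowFK 2 true true false .pp 0 2 2 (qsf 0 536870912 1239849684 370763052 2) ndF0q0 ndF2q2b pcF2 cut_pm_022_b Ext.none)

def k0_pm_022_b : ∃ t, chk3 f_pm_022_b t 1 1 1 = true :=
  ⟨(a (b (a (l 1) (b (a (a (l 156267266263) (l 18782104)) (l 18565224)) (l 162172642967))) (l 1)) (b (a (b (l 18348096) (l 18543568)) (b (l 18233056) (l 18485968))) (a (l 175057869127) (l 18619752)))), by decide +kernel⟩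

theorem c_pm_022_b : CertF 0 536870912 1239849684 370763052 50331648 16777216 true true false .pp 0 2 2
    ndF0q0 ndF2q2b pcF2 cut_pm_022_b Ext.none :=
  certFK2 (fam := true) (s1 := true) (s2 := false) (a := 0) (b := 2) (c := 2) (cn := .pp) (n1 := ndF0q0) (n2 := ndF2q2b) (pc := pcF2) (cut := cut_pm_022_b) (xt := Ext.none) (P1 := 0) (W1 := 536870912) (P2 := 1239849684) (W2 := 370763052) (P3 := 50331648) (W3 := 16777216)
    rfl rfl rfl (fun _ => rfl) k0_pm_022_b

noncomputable def f_pm_023_a : ℕ → ℕ → ℕ → ℕ → Bool := onCell 0 536870912 0 536870912 50331648 16777216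
    (rowFK 0 true true false .up 0 2 3 (qsf 0 536870912 0 536870912 3) ndF0q0 ndF2q2a pcF3 Cut.none Ext.none)

def k0_pm_023_a : ∃ t, chk3 f_pm_023_a t 1 1 1 = true :=
  ⟨(a (l 1) (a (b (l 18177872) (b (l 1) (l 1))) (b (l 18174608) (b (l 18530608) (b (l 18472104) (b (l 13995617095) (a (l 1) (l 18169264)))))))), by decide +kernel⟩

theorem c_pm_023_a : CertF 0 536870912 0 536870912 50331648 16777216 true true false .up 0 2 3
    ndF0q0 ndF2q2a pcF3 Cut.none Ext.none :=
  certFK0 (fam := true) (s1 := true) (s2 := false) (a := 0) (b := 2) (c := 3) (cn := .up) (n1 := ndF0q0) (n2 := ndF2q2a) (pc := pcF3) (cut := Cut.none) (xt := Ext.none) (P1 := 0) (W1 := 536870912) (P2 := 0) (W2 := 536870912) (P3 := 50331648) (W3 := 16777216)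
    rfl rfl rfl k0_pm_023_a

noncomputable def f_pm_023_b : ℕ → ℕ → ℕ → ℕ → Bool := onCell 1610612736 536870912 1239849684 370763052 50331648 16777216
    (rowFK 2 true true false .up 0 2 3 (qsf 0 536870912 1239849684 370763052 3) ndF0q0 ndF2q2b pcF3 Cut.none Ext.none)

def k0_pm_023_b : ∃ t, chk3 f_pm_023_b t 1 1 1 = true :=
  ⟨(b (b (a (a (l 18248992) (l 18336192)) (l 2)) (a (a (l 18821488) (l 18822752)) (a (a (l 18413104) (l 18008112)) (l 2)))) (a (a (l 19375432) (a (l 19275936) (l 18947280))) (a (a (l 18659080) (l 18000568)) (a (l 17886512) (a (l 17721792) (l 4)))))), by decide +kernel⟩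

theorem c_pm_023_b : CertF 0 536870912 1239849684 370763052 50331648 16777216 true true false .up 0 2 3
    ndF0q0 ndF2q2b pcF3 Cut.none Ext.none :=
  certFK2 (fam := true) (s1 := true) (s2 := false) (a := 0) (b := 2) (c := 3) (cn := .up) (n1 := ndF0q0) (n2 := ndF2q2b) (pc := pcF3) (cut := Cut.none) (xt := Ext.none) (P1 := 0) (W1 := 536870912) (P2 := 1239849684) (W2 := 370763052) (P3 := 50331648) (W3 := 16777216)
    rfl rfl rfl (fun _ => rfl) k0_pm_023_b

noncomputable def f_pm_033 : ℕ → ℕ → ℕ → ℕ → Bool := onCell 1610612736 536870912 1610612736 536870912 50331648 16777216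
    (rowFK 2 true true false .pnn 0 3 3 (qsf 0 536870912 1610612736 536870912 3) ndF0q0 ndF2q3 pcF3 Cut.none Ext.none)

def k0_pm_033 : ∃ t, chk3 f_pm_033 t 1 1 1 = true :=
  ⟨(a (b (a (b (l 19168568) (l 351689939191)) (b (a (l 18718696) (l 18129352)) (l 18544184))) (a (l 1) (b (a (l 1) (l 17687688)) (l 1)))) (a (b (a (b (l 17612144) (l 17607208)) (b (l 17235704) (l 17376216))) (b (a (l 17371744) (l 17609528)) (a (l 1) (l 4)))) (b (a (b (l 17228176) (l 4)) (l 4)) (l 4)))), by decide +kernel⟩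

theorem c_pm_033 : CertF 0 536870912 1610612736 536870912 50331648 16777216 true true false .pnn 0 3 3
    ndF0q0 ndF2q3 pcF3 Cut.none Ext.none :=
  certFK2 (fam := true) (s1 := true) (s2 := false) (a := 0) (b := 3) (c := 3) (cn := .pnn) (n1 := ndF0q0) (n2 := ndF2q3) (pc := pcF3) (cut := Cut.none) (xt := Ext.none) (P1 := 0) (W1 := 536870912) (P2 := 1610612736) (W2 := 536870912) (P3 := 50331648) (W3 := 16777216)
    rfl rfl rfl (fun _ => rfl) k0_pm_033

noncomputable def cut_pm_101 : Cut := Cut.of [[⟨0, 1, 0, 50331648⟩, ⟨1, 0, 0, 50331648⟩, ⟨2, 1, 0, 50331648⟩]]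

noncomputable def f_pm_101 : ℕ → ℕ → ℕ → ℕ → Bool := onCell 536870912 536870912 0 536870912 50331648 16777216
    (rowFK 2 true true false .npn 1 0 1 (qsf 536870912 536870912 0 536870912 1) ndF0q1 ndF2q0 pcF1 cut_pm_101 Ext.none)

def k0_pm_101 : ∃ t, chk3 f_pm_101 t 1 1 1 = true :=
  ⟨(a (l 3) (a (l 3) (b (a (l 3) (a (l 3) (a (b (l 3) (l 3)) (b (b (b (a (l 3) (l 6)) (l 89288931687)) (l 84995055815)) (l 95733524375))))) (a (l 3) (a (l 3) (b (l 18432488) (l 159622427991))))))), by decide +kernel⟩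

theorem c_pm_101 : CertF 536870912 536870912 0 536870912 50331648 16777216 true true false .npn 1 0 1
    ndF0q1 ndF2q0 pcF1 cut_pm_101 Ext.none :=
  certFK2 (fam := true) (s1 := true) (s2 := false) (a := 1) (b := 0) (c := 1) (cn := .npn) (n1 := ndF0q1) (n2 := ndF2q0) (pc := pcF1) (cut := cut_pm_101) (xt := Ext.none) (P1 := 536870912) (W1 := 536870912) (P2 := 0) (W2 := 536870912) (P3 := 50331648) (W3 := 16777216)
    rfl rfl rfl (fun _ => rfl) k0_pm_101

noncomputable def cut_pm_102 : Cut := Cut.of [[⟨0, 1, 0, 50331648⟩, ⟨1, 0, 0, 50331648⟩, ⟨2, 1, 0, 50331648⟩]]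

noncomputable def f_pm_102 : ℕ → ℕ → ℕ → ℕ → Bool := onCell 536870912 536870912 1073741824 536870912 50331648 16777216
    (rowFK 1 true true false .npp 1 0 2 (qsf 536870912 536870912 0 536870912 2) ndF0q1 ndF2q0 pcF2 cut_pm_102 Ext.none)

def k0_pm_102 : ∃ t, chk3 f_pm_102 t 1 1 1 = true :=
  ⟨(a (b (b (b (b (b (a (l 18698176) (l 18472048)) (a (l 18708888) (l 18497392))) (a (l 18782776) (l 18594440))) (a (l 18785040) (l 18649120))) (a (l 18407528) (l 18412064))) (b (a (l 2) (l 18087768)) (l 2))) (b (b (b (b (b (a (l 18157416) (a (l 17535992) (a (l 17191480) (a (b (l 6) (l 16994552)) (l 6))))) (a (a (l 18151240) (l 17839984)) (a (b (l 17496408) (l 17532872)) (b (a (l 17192584) (a (l 17035800) (l 6))) (a (l 17228352) (a (l 17072136) (l 16978104))))))) (a (a (l 18264224) (l 17960568)) (a (l 17807128) (a (l 17503472) (b (a (l 17153216) (l 17038616)) (l 17227768)))))) (a (l 18456432) (a (l 17830800) (a (l 17569240) (l 17710440))))) (a (l 18199288) (a (l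 17751096) (l 17884376)))) (b (a (l 18069152) (b (l 17735752) (l 17865920))) (a (l 17993592) (l 18068984))))), by decide +kernel⟩

theorem c_pm_102 : CertF 536870912 536870912 0 536870912 50331648 16777216 true true false .npp 1 0 2
    ndF0q1 ndF2q0 pcF2 cut_pm_102 Ext.none :=
  certFK1 (fam := true) (s1 := true) (s2 := false) (a := 1) (b := 0) (c := 2) (cn := .npp) (n1 := ndF0q1) (n2 := ndF2q0) (pc := pcF2) (cut := cut_pm_102) (xt := Ext.none) (P1 := 536870912) (W1 := 536870912) (P2 := 0) (W2 := 536870912) (P3 := 50331648) (W3 := 16777216)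
    rfl rfl rfl (fun _ => rfl) k0_pm_102

noncomputable def f_pm_112 : ℕ → ℕ → ℕ → ℕ → Bool := onCell 1073741824 536870912 536870912 536870912 50331648 16777216
    (rowFK 2 true true false .dn 1 1 2 (qsf 536870912 536870912 536870912 536870912 2) ndF0q1 ndF2q1 pcF2 Cut.none Ext.none)

def k0_pm_112 : ∃ t, chk3 f_pm_112 t 1 1 1 = true :=
  ⟨(a (b (b (a (a (a (a (l 18566368) (l 18492552)) (l 18392600)) (l 18180272)) (a (l 17938200) (l 17769872))) (a (a (l 1) (l 474093472055)) (b (l 17638528) (l 438121710743)))) (a (l 1) (b (a (l 1) (l 17642896)) (l 1)))) (b (a (b (a (l 17690448) (l 18003080)) (a (l 17101168) (l 17422504))) (b (a (l 18331648) (l 18523872)) (a (l 17677272) (l 17841088)))) (b (a (l 304978098519) (b (l 17412064) (l 17626848))) (b (a (l 18871672) (l 18578432)) (b (l 390881134823) (b (l 400008369031) (l 407524777063))))))), by decide +kernel⟩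

theorem c_pm_112 : CertF 536870912 536870912 536870912 536870912 50331648 16777216 true true false .dn 1 1 2
    ndF0q1 ndF2q1 pcF2 Cut.none Ext.none :=
  certFK2 (fam := true) (s1 := true) (s2 := false) (a := 1) (b := 1) (c := 2) (cn := .dn) (n1 := ndF0q1) (n2 := ndF2q1) (pc := pcF2) (cut := Cut.none) (xt := Ext.none) (P1 := 536870912) (W1 := 536870912) (P2 := 536870912) (W2 := 536870912) (P3 := 50331648) (W3 := 16777216)
    rfl rfl rfl (fun _ => rfl) k0_pm_112

noncomputable def f_pm_113 : ℕ → ℕ → ℕ → ℕ → Bool := onCell 1610612736 536870912 536870912 536870912 50331648 16777216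
    (rowFK 2 true true false .nn 1 1 3 (qsf 536870912 536870912 536870912 536870912 3) ndF0q1 ndF2q1 pcF3 Cut.none Ext.none)

def k0_pm_113 : ∃ t, chk3 f_pm_113 t 1 1 1 = true :=
  ⟨(a (b (a (b (a (l 19498504) (b (l 19159688) (l 18903464))) (a (l 19310232) (l 18680272))) (b (a (b (l 2) (a (l 18664360) (l 2))) (l 2)) (a (a (l 18226000) (l 18064768)) (a (l 18047440) (l 4))))) (a (b (a (l 18964896) (l 18352352)) (b (a (l 18708632) (l 18306232)) (b (l 18466072) (b (l 18470656) (l 18462304))))) (b (a (l 17637648) (b (l 17296592) (l 17414344))) (b (a (l 17632832) (l 18114152)) (b (l 18204296) (b (l 18270104) (l 18267448))))))) (b (a (b (l 2) (b (l 2) (l 4))) (l 2)) (a (b (a (a (l 17103288) (l 4)) (l 4)) (b (a (l 18247192) (l 4)) (b (l 18285352) (b (l 18254656) (l 18283456))))) (b (l 4) (l 4))))), by decide +kernel⟩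

theorem c_pm_113 : CertF 536870912 536870912 536870912 536870912 50331648 16777216 true true false .nn 1 1 3
    ndF0q1 ndF2q1 pcF3 Cut.none Ext.none :=
  certFK2 (fam := true) (s1 := true) (s2 := false) (a := 1) (b := 1) (c := 3) (cn := .nn) (n1 := ndF0q1) (n2 := ndF2q1) (pc := pcF3) (cut := Cut.none) (xt := Ext.none) (P1 := 536870912) (W1 := 536870912) (P2 := 536870912) (W2 := 536870912) (P3 := 50331648) (W3 := 16777216)
    rfl rfl rfl (fun _ => rfl) k0_pm_113

noncomputable def cut_pm_123_a : Cut := Cut.of [[⟨0, 1, 0, 14341072⟩, ⟨1, 1, 0, 14341072⟩, ⟨2, 2, 0, 761489⟩]]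

noncomputable def f_pm_123_a : ℕ → ℕ → ℕ → ℕ → Bool := onCell 1610612736 536870912 0 536870912 50331648 16777216
    (rowFK 2 true true false .npn 1 2 3 (qsf 536870912 536870912 0 536870912 3) ndF0q1 ndF2q2a pcF3 cut_pm_123_a Ext.none)

def k0_pm_123_a : ∃ t, chk3 f_pm_123_a t 2 1 1 = true :=
  ⟨(b (a (l 18219400) (l 18156000)) (b (a (b (l 18296208) (l 18396584)) (b (l 18298440) (l 18441824))) (b (a (b (l 18406064) (l 18369176)) (l 18708528)) (b (a (b (l 18355696) (l 18340872)) (a (l 18457136) (l 18495088))) (a (a (l 18250736) (l 18369520)) (a (l 18481136) (l 18543544))))))), by decide +kernel⟩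

def k1_pm_123_a : ∃ t, chk3 f_pm_123_a t 3 2 1 = true :=
  ⟨(a (a (l 17921208) (l 17696360)) (a (a (l 17283352) (l 17229376)) (a (b (l 17009744) (l 17117064)) (a (l 16998232) (a (l 17055176) (l 4)))))), by decide +kernel⟩

def k2_pm_123_a : ∃ t, chk3 f_pm_123_a t 6 3 1 = true :=
  ⟨(a (b (l 18258936) (b (l 18362848) (b (l 18435784) (l 18512144)))) (b (b (l 17812112) (l 18016544)) (b (b (l 18130120) (l 18179680)) (b (l 18439080) (a (l 18407952) (l 18273776)))))), by decide +kernel⟩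

def k3_pm_123_a : ∃ t, chk3 f_pm_123_a t 7 6 1 = true :=
  ⟨(a (a (l 17819856) (b (l 17180000) (l 17404800))) (a (b (l 17061736) (a (l 17166456) (l 16997216))) (a (b (l 16817264) (l 17056752)) (a (b (l 16857720) (l 16817824)) (a (l 17078392) (a (l 17062296) (l 4))))))), by decide +kernel⟩

def k4_pm_123_a : ∃ t, chk3 f_pm_123_a t 7 7 1 = true :=
  ⟨(a (b (a (l 17832672) (l 17743040)) (a (b (l 18030896) (l 18309344)) (b (l 17927064) (a (l 17892704) (l 17864032))))) (b (a (b (l 17266120) (l 17389480)) (a (b (l 16945048) (l 17043792)) (a (b (l 16859112) (l 16896352)) (a (b (l 16830272) (l 16895160)) (a (l 16977912) (b (l 4) (a (l 16782192) (l 4)))))))) (a (b (b (l 17336688) (l 17388784)) (b (l 17567824) (a (l 17742360) (a (l 17449592) (l 17424648))))) (b (a (b (l 17060472) (l 17080856)) (a (b (l 16886264) (l 16916216)) (a (b (l 16822824) (l 16841624)) (a (b (l 16804408) (l 16806552)) (a (b (l 16799712) (l 16803184)) (a (l 17051000) (l 86671805239)))))))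 (a (b (l 17143472) (b (l 17199136) (a (l 17345488) (a (l 17149848) (l 17127160))))) (a (b (l 16945336) (b (l 16969936) (b (l 16983272) (a (b (l 17024480) (l 17028568)) (a (l 16974352) (l 16960008)))))) (a (b (l 16855664) (b (l 16871864) (b (l 16880744) (b (l 16885392) (a (a (l 16915328) (l 16897192)) (a (l 16878888) (l 16881368))))))) (a (b (l 16813048) (b (l 16822968) (b (l 16828504) (b (l 16831416) (b (l 16832920) (a (a (l 16847712) (l 16838344)) (a (l 16828936) (l 16829944)))))))) (a (b (l 16797648) (b (l 16799464) (b (l 16802592) (b (l 16804264) (b (l 16805128) (b (l 16805576) (a (a (l 16812864) (l 16808104)) (a (l 16803328) (l 16803776))))))))) (b (a (l 16791912) (l 16862376)) (a (b (l 16789168) (b (l 16790008) (b (l 16790808) (b (l 16791232) (b (l 16791448) (b (l 16791552) (b (l 16788984) (a (l 16793976) (a (l 16790400) (l 6)))))))))) (l 6)))))))))))), by decide +kernel⟩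

theorem s5_pm_123_a : ∃ t, chk3 f_pm_123_a t 7 3 1 = true := ex3_b k3_pm_123_a k4_pm_123_a

theorem s6_pm_123_a : ∃ t, chk3 f_pm_123_a t 3 3 1 = true := ex3_a k2_pm_123_a s5_pm_123_a

theorem s7_pm_123_a : ∃ t, chk3 f_pm_123_a t 3 1 1 = true := ex3_b k1_pm_123_a s6_pm_123_a

theorem s8_pm_123_a : ∃ t, chk3 f_pm_123_a t 1 1 1 = true := ex3_a k0_pm_123_a s7_pm_123_a

theorem c_pm_123_a : CertF 536870912 536870912 0 536870912 50331648 16777216 true true false .npn 1 2 3
    ndF0q1 ndF2q2a pcF3 cut_pm_123_a Ext.none :=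
  certFK2 (fam := true) (s1 := true) (s2 := false) (a := 1) (b := 2) (c := 3) (cn := .npn) (n1 := ndF0q1) (n2 := ndF2q2a) (pc := pcF3) (cut := cut_pm_123_a) (xt := Ext.none) (P1 := 536870912) (W1 := 536870912) (P2 := 0) (W2 := 536870912) (P3 := 50331648) (W3 := 16777216)
    rfl rfl rfl (fun _ => rfl) s8_pm_123_a

noncomputable def cut_pm_123_b : Cut := Cut.of [[⟨0, 1, 0, 14341072⟩, ⟨1, 1, 0, 14341072⟩, ⟨2, 2, 0, 761489⟩]]

noncomputable def f_pm_123_b : ℕ → ℕ → ℕ → ℕ → Bool := onCell 1610612736 536870912 1239849684 370763052 50331648 16777216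
    (rowFK 2 true true false .npn 1 2 3 (qsf 536870912 536870912 1239849684 370763052 3) ndF0q1 ndF2q2b pcF3 cut_pm_123_b Ext.none)

def k0_pm_123_b : ∃ t, chk3 f_pm_123_b t 1 1 1 = true :=
  ⟨(b (a (a (l 1) (b (l 18547360) (l 18825656))) (a (a (b (l 18104128) (l 18413056)) (b (l 17828784) (l 18008128))) (a (b (a (l 17443392) (l 17316456)) (l 17642496)) (a (b (l 17262296) (l 17582112)) (a (b (l 17275288) (l 17558368)) (a (l 17579880) (l 4))))))) (a (l 1) (a (a (l 1) (l 18014304)) (a (b (l 17792960) (l 17775568)) (a (l 17721648) (l 4)))))), by decide +kernel⟩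

theorem c_pm_123_b : CertF 536870912 536870912 1239849684 370763052 50331648 16777216 true true false .npn 1 2 3
    ndF0q1 ndF2q2b pcF3 cut_pm_123_b Ext.none :=
  certFK2 (fam := true) (s1 := true) (s2 := false) (a := 1) (b := 2) (c := 3) (cn := .npn) (n1 := ndF0q1) (n2 := ndF2q2b) (pc := pcF3) (cut := cut_pm_123_b) (xt := Ext.none) (P1 := 536870912) (W1 := 536870912) (P2 := 1239849684) (W2 := 370763052) (P3 := 50331648) (W3 := 16777216)
    rfl rfl rfl (fun _ => rfl) k0_pm_123_b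

noncomputable def f_pm_133 : ℕ → ℕ → ℕ → ℕ → Bool := onCell 536870912 536870912 1610612736 536870912 50331648 16777216
    (rowFK 0 true true false .dn 1 3 3 (qsf 536870912 536870912 1610612736 536870912 3) ndF0q1 ndF2q3 pcF3 Cut.none Ext.none)

def k0_pm_133 : ∃ t, chk3 f_pm_133 t 1 1 1 = true :=
  ⟨(a (l 4) (l 2)), by decide +kernel⟩

theorem c_pm_133 : CertF 536870912 536870912 1610612736 536870912 50331648 16777216 true true false .dn 1 3 3
    ndF0q1 ndF2q3 pcF3 Cut.none Ext.none :=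
  certFK0 (fam := true) (s1 := true) (s2 := false) (a := 1) (b := 3) (c := 3) (cn := .dn) (n1 := ndF0q1) (n2 := ndF2q3) (pc := pcF3) (cut := Cut.none) (xt := Ext.none) (P1 := 536870912) (W1 := 536870912) (P2 := 1610612736) (W2 := 536870912) (P3 := 50331648) (W3 := 16777216)
    rfl rfl rfl k0_pm_133

noncomputable def cut_pm_202 : Cut := Cut.of [[⟨0, 1, 0, 50331648⟩, ⟨1, 0, 0, 50331648⟩, ⟨2, 1, 0, 50331648⟩]]

noncomputable def f_pm_202 : ℕ → ℕ → ℕ → ℕ → Bool := onCell 0 536870912 0 536870912 50331648 16777216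
    (rowFK 0 true true false .pp 2 0 2 (qsf 0 536870912 0 536870912 2) ndF0q2 ndF2q0 pcF2 cut_pm_202 Ext.none)

def k0_pm_202 : ∃ t, chk3 f_pm_202 t 1 1 1 = true :=
  ⟨(a (b (b (b (a (b (l 18755128) (l 18453728)) (b (b (l 18763016) (l 18636392)) (l 18449968))) (a (l 18019448) (l 18091472))) (b (l 17611768) (l 17505984))) (b (b (l 17890288) (l 18154312)) (b (l 17879632) (l 2)))) (b (b (a (b (b (a (b (l 18597168) (l 18526360)) (b (b (a (l 18345064) (b (a (l 18086184) (l 17855648)) (l 18035088))) (l 18244624)) (l 18277032))) (l 18337336)) (l 18262888)) (b (a (b (b (a (b (b (a (l 17331088) (b (l 16873448) (l 17213040))) (l 17486768)) (l 17662800)) (b (a (b (a (l 16784080) (l 16779112)) (l 16874984)) (b (a (a (l 16773608) (l 16760584)) (l 6)) (l 16753552))) (l 16829944))) (a (l 17866328) (b (l 17254152) (l 17478328)))) (b (l 17856608) (l 17954744))) (b (a (b (b (l 6) (a (l 16781472) (l 6))) (a (l 16821792) (l 16923224))) (b (l 6) (a (b (l 6) (l 16870048))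 (l 6)))) (a (b (l 17244328) (l 17566648)) (b (b (l 17126448) (l 16977544)) (l 17220480))))) (a (l 17999600) (a (l 17845512) (a (l 17930344) (l 17669456)))))) (a (b (l 17788648) (l 17442936)) (b (l 17863576) (l 17672720)))) (b (a (l 17806736) (b (l 17453688) (l 17770120))) (a (b (l 18280984) (l 2)) (l 18186960))))), by decide +kernel⟩

theorem c_pm_202 : CertF 0 536870912 0 536870912 50331648 16777216 true true false .pp 2 0 2
    ndF0q2 ndF2q0 pcF2 cut_pm_202 Ext.none :=
  certFK0 (fam := true) (s1 := true) (s2 := false) (a := 2) (b := 0) (c := 2) (cn := .pp) (n1 := ndF0q2) (n2 := ndF2q0) (pc := pcF2) (cut := cut_pm_202) (xt := Ext.none) (P1 := 0) (W1 := 536870912) (P2 := 0) (W2 := 536870912) (P3 := 50331648) (W3 := 16777216)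
    rfl rfl rfl k0_pm_202

noncomputable def f_pm_203 : ℕ → ℕ → ℕ → ℕ → Bool := onCell 0 536870912 1610612736 536870912 50331648 16777216
    (rowFK 1 true true false .up 2 0 3 (qsf 0 536870912 0 536870912 3) ndF0q2 ndF2q0 pcF3 Cut.none Ext.none)

def k0_pm_203 : ∃ t, chk3 f_pm_203 t 1 1 1 = true :=
  ⟨(b (b (a (b (l 18283056) (l 4)) (b (a (l 18114064) (l 17667448)) (l 18368528))) (a (l 4) (b (l 18263768) (l 2)))) (l 2)), by decide +kernel⟩

theorem c_pm_203 : CertF 0 536870912 0 536870912 50331648 16777216 true true false .up 2 0 3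
    ndF0q2 ndF2q0 pcF3 Cut.none Ext.none :=
  certFK1 (fam := true) (s1 := true) (s2 := false) (a := 2) (b := 0) (c := 3) (cn := .up) (n1 := ndF0q2) (n2 := ndF2q0) (pc := pcF3) (cut := Cut.none) (xt := Ext.none) (P1 := 0) (W1 := 536870912) (P2 := 0) (W2 := 536870912) (P3 := 50331648) (W3 := 16777216)
    rfl rfl rfl (fun _ => rfl) k0_pm_203

noncomputable def f_pm_213 : ℕ → ℕ → ℕ → ℕ → Bool := onCell 0 536870912 1610612736 536870912 50331648 16777216
    (rowFK 1 true true false .pnn 2 1 3 (qsf 0 536870912 536870912 536870912 3) ndF0q2 ndF2q1 pcF3 Cut.none Ext.none)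

def k0_pm_213 : ∃ t, chk3 f_pm_213 t 1 1 1 = true :=
  ⟨(b (b (a (b (l 1) (l 4)) (b (a (l 1) (l 19289648)) (l 18839600))) (a (l 4) (b (l 18375024) (l 4)))) (l 4)), by decide +kernel⟩

theorem c_pm_213 : CertF 0 536870912 536870912 536870912 50331648 16777216 true true false .pnn 2 1 3
    ndF0q2 ndF2q1 pcF3 Cut.none Ext.none :=
  certFK1 (fam := true) (s1 := true) (s2 := false) (a := 2) (b := 1) (c := 3) (cn := .pnn) (n1 := ndF0q2) (n2 := ndF2q1) (pc := pcF3) (cut := Cut.none) (xt := Ext.none) (P1 := 0) (W1 := 536870912) (P2 := 536870912) (W2 := 536870912) (P3 := 50331648) (W3 := 16777216)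
    rfl rfl rfl (fun _ => rfl) k0_pm_213

noncomputable def f_mm_001 : ℕ → ℕ → ℕ → ℕ → Bool := onCell 0 536870912 0 536870912 50331648 16777216
    (rowFK 0 true false false .up 0 0 1 (qsf 0 536870912 0 536870912 1) ndF0q0 ndF2q0 pcF1 Cut.none Ext.none)

def k0_mm_001 : ∃ t, chk3 f_mm_001 t 1 1 1 = true :=
  ⟨(l 4), by decide +kernel⟩

theorem c_mm_001 : CertF 0 536870912 0 536870912 50331648 16777216 true false false .up 0 0 1
    ndF0q0 ndF2q0 pcF1 Cut.none Ext.none :=
  certFK0 (fam := true) (s1 := false) (s2 := false) (a := 0) (b := 0) (c := 1) (cn := .up) (n1 := ndF0q0) (n2 := ndF2q0) (pc := pcF1) (cut := Cut.none) (xt := Ext.none) (P1 := 0) (W1 := 536870912) (P2 := 0) (W2 := 536870912) (P3 := 50331648) (W3 := 16777216)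
    rfl rfl rfl k0_mm_001

noncomputable def f_mm_011 : ℕ → ℕ → ℕ → ℕ → Bool := onCell 0 536870912 536870912 536870912 50331648 16777216
    (rowFK 0 true false false .pnn 0 1 1 (qsf 0 536870912 536870912 536870912 1) ndF0q0 ndF2q1 pcF1 Cut.none Ext.none)

def k0_mm_011 : ∃ t, chk3 f_mm_011 t 1 1 1 = true :=
  ⟨(l 4), by decide +kernel⟩

theorem c_mm_011 : CertF 0 536870912 536870912 536870912 50331648 16777216 true false false .pnn 0 1 1
    ndF0q0 ndF2q1 pcF1 Cut.none Ext.none :=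
  certFK0 (fam := true) (s1 := false) (s2 := false) (a := 0) (b := 1) (c := 1) (cn := .pnn) (n1 := ndF0q0) (n2 := ndF2q1) (pc := pcF1) (cut := Cut.none) (xt := Ext.none) (P1 := 0) (W1 := 536870912) (P2 := 536870912) (W2 := 536870912) (P3 := 50331648) (W3 := 16777216)
    rfl rfl rfl k0_mm_011

noncomputable def f_mm_012 : ℕ → ℕ → ℕ → ℕ → Bool := onCell 0 536870912 536870912 536870912 50331648 16777216
    (rowFK 0 true false false .pnp 0 1 2 (qsf 0 536870912 536870912 536870912 2) ndF0q0 ndF2q1 pcF2 Cut.none Ext.none)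

def k0_mm_012 : ∃ t, chk3 f_mm_012 t 1 1 1 = true :=
  ⟨(l 4), by decide +kernel⟩

theorem c_mm_012 : CertF 0 536870912 536870912 536870912 50331648 16777216 true false false .pnp 0 1 2
    ndF0q0 ndF2q1 pcF2 Cut.none Ext.none :=
  certFK0 (fam := true) (s1 := false) (s2 := false) (a := 0) (b := 1) (c := 2) (cn := .pnp) (n1 := ndF0q0) (n2 := ndF2q1) (pc := pcF2) (cut := Cut.none) (xt := Ext.none) (P1 := 0) (W1 := 536870912) (P2 := 536870912) (W2 := 536870912) (P3 := 50331648) (W3 := 16777216)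
    rfl rfl rfl k0_mm_012

noncomputable def f_mm_022_a : ℕ → ℕ → ℕ → ℕ → Bool := onCell 0 536870912 0 536870912 50331648 16777216
    (rowFK 0 true false false .pp 0 2 2 (qsf 0 536870912 0 536870912 2) ndF0q0 ndF2q2a pcF2 Cut.none Ext.none)

def k0_mm_022_a : ∃ t, chk3 f_mm_022_a t 1 1 1 = true :=
  ⟨(l 5), by decide +kernel⟩

theorem c_mm_022_a : CertF 0 536870912 0 536870912 50331648 16777216 true false false .pp 0 2 2
    ndF0q0 ndF2q2a pcF2 Cut.none Ext.none :=
  certFK0 (fam := true) (s1 := false) (s2 := false) (a := 0) (b := 2) (c := 2) (cn := .pp) (n1 := ndF0q0) (n2 := ndF2q2a) (pc := pcF2) (cut := Cut.none) (xt := Ext.none) (P1 := 0) (W1 := 536870912) (P2 := 0) (W2 := 536870912) (P3 := 50331648) (W3 := 16777216)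
    rfl rfl rfl k0_mm_022_a

noncomputable def f_mm_022_b : ℕ → ℕ → ℕ → ℕ → Bool := onCell 0 536870912 1239849684 370763052 50331648 16777216
    (rowFK 0 true false false .pp 0 2 2 (qsf 0 536870912 1239849684 370763052 2) ndF0q0 ndF2q2b pcF2 Cut.none Ext.none)

def k0_mm_022_b : ∃ t, chk3 f_mm_022_b t 1 1 1 = true :=
  ⟨(l 4), by decide +kernel⟩

theorem c_mm_022_b : CertF 0 536870912 1239849684 370763052 50331648 16777216 true false false .pp 0 2 2
    ndF0q0 ndF2q2b pcF2 Cut.none Ext.none :=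
  certFK0 (fam := true) (s1 := false) (s2 := false) (a := 0) (b := 2) (c := 2) (cn := .pp) (n1 := ndF0q0) (n2 := ndF2q2b) (pc := pcF2) (cut := Cut.none) (xt := Ext.none) (P1 := 0) (W1 := 536870912) (P2 := 1239849684) (W2 := 370763052) (P3 := 50331648) (W3 := 16777216)
    rfl rfl rfl k0_mm_022_b

noncomputable def f_mm_023_a : ℕ → ℕ → ℕ → ℕ → Bool := onCell 0 536870912 0 536870912 50331648 16777216
    (rowFK 0 true false false .up 0 2 3 (qsf 0 536870912 0 536870912 3) ndF0q0 ndF2q2a pcF3 Cut.none Ext.none)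

def k0_mm_023_a : ∃ t, chk3 f_mm_023_a t 1 1 1 = true :=
  ⟨(l 5), by decide +kernel⟩

theorem c_mm_023_a : CertF 0 536870912 0 536870912 50331648 16777216 true false false .up 0 2 3
    ndF0q0 ndF2q2a pcF3 Cut.none Ext.none :=
  certFK0 (fam := true) (s1 := false) (s2 := false) (a := 0) (b := 2) (c := 3) (cn := .up) (n1 := ndF0q0) (n2 := ndF2q2a) (pc := pcF3) (cut := Cut.none) (xt := Ext.none) (P1 := 0) (W1 := 536870912) (P2 := 0) (W2 := 536870912) (P3 := 50331648) (W3 := 16777216)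
    rfl rfl rfl k0_mm_023_a

noncomputable def f_mm_023_b : ℕ → ℕ → ℕ → ℕ → Bool := onCell 0 536870912 1239849684 370763052 50331648 16777216
    (rowFK 0 true false false .up 0 2 3 (qsf 0 536870912 1239849684 370763052 3) ndF0q0 ndF2q2b pcF3 Cut.none Ext.none)

def k0_mm_023_b : ∃ t, chk3 f_mm_023_b t 1 1 1 = true :=
  ⟨(l 4), by decide +kernel⟩

theorem c_mm_023_b : CertF 0 536870912 1239849684 370763052 50331648 16777216 true false false .up 0 2 3
    ndF0q0 ndF2q2b pcF3 Cut.none Ext.none :=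
  certFK0 (fam := true) (s1 := false) (s2 := false) (a := 0) (b := 2) (c := 3) (cn := .up) (n1 := ndF0q0) (n2 := ndF2q2b) (pc := pcF3) (cut := Cut.none) (xt := Ext.none) (P1 := 0) (W1 := 536870912) (P2 := 1239849684) (W2 := 370763052) (P3 := 50331648) (W3 := 16777216)
    rfl rfl rfl k0_mm_023_b

noncomputable def f_mm_033 : ℕ → ℕ → ℕ → ℕ → Bool := onCell 0 536870912 1610612736 536870912 50331648 16777216
    (rowFK 0 true false false .pnn 0 3 3 (qsf 0 536870912 1610612736 536870912 3) ndF0q0 ndF2q3 pcF3 Cut.none Ext.none)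

def k0_mm_033 : ∃ t, chk3 f_mm_033 t 1 1 1 = true :=
  ⟨(l 4), by decide +kernel⟩

theorem c_mm_033 : CertF 0 536870912 1610612736 536870912 50331648 16777216 true false false .pnn 0 3 3
    ndF0q0 ndF2q3 pcF3 Cut.none Ext.none :=
  certFK0 (fam := true) (s1 := false) (s2 := false) (a := 0) (b := 3) (c := 3) (cn := .pnn) (n1 := ndF0q0) (n2 := ndF2q3) (pc := pcF3) (cut := Cut.none) (xt := Ext.none) (P1 := 0) (W1 := 536870912) (P2 := 1610612736) (W2 := 536870912) (P3 := 50331648) (W3 := 16777216)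
    rfl rfl rfl k0_mm_033

noncomputable def cut_mm_101 : Cut := Cut.of [[⟨0, 1, 0, 50331648⟩, ⟨1, 0, 0, 50331648⟩, ⟨2, 1, 0, 50331648⟩]]

noncomputable def f_mm_101 : ℕ → ℕ → ℕ → ℕ → Bool := onCell 536870912 536870912 0 536870912 50331648 16777216
    (rowFK 0 true false false .npn 1 0 1 (qsf 536870912 536870912 0 536870912 1) ndF0q1 ndF2q0 pcF1 cut_mm_101 Ext.none)

def k0_mm_101 : ∃ t, chk3 f_mm_101 t 1 1 1 = true :=
  ⟨(a (l 4) (b (a (l 4) (b (b (a (l 4) (b (a (l 4) (l 6)) (l 4))) (l 4)) (l 4))) (l 4))), by decide +kernel⟩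

theorem c_mm_101 : CertF 536870912 536870912 0 536870912 50331648 16777216 true false false .npn 1 0 1
    ndF0q1 ndF2q0 pcF1 cut_mm_101 Ext.none :=
  certFK0 (fam := true) (s1 := false) (s2 := false) (a := 1) (b := 0) (c := 1) (cn := .npn) (n1 := ndF0q1) (n2 := ndF2q0) (pc := pcF1) (cut := cut_mm_101) (xt := Ext.none) (P1 := 536870912) (W1 := 536870912) (P2 := 0) (W2 := 536870912) (P3 := 50331648) (W3 := 16777216)
    rfl rfl rfl k0_mm_101

noncomputable def cut_mm_102 : Cut := Cut.of [[⟨0, 1, 0, 50331648⟩, ⟨1, 0, 0, 50331648⟩, ⟨2, 1, 0, 50331648⟩]]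

noncomputable def f_mm_102 : ℕ → ℕ → ℕ → ℕ → Bool := onCell 536870912 536870912 0 536870912 50331648 16777216
    (rowFK 0 true false false .npp 1 0 2 (qsf 536870912 536870912 0 536870912 2) ndF0q1 ndF2q0 pcF2 cut_mm_102 Ext.none)

def k0_mm_102 : ∃ t, chk3 f_mm_102 t 1 1 1 = true :=
  ⟨(a (l 4) (b (a (l 4) (b (a (l 4) (a (l 4) (b (b (l 6) (l 4)) (l 4)))) (l 4))) (l 4))), by decide +kernel⟩

theorem c_mm_102 : CertF 536870912 536870912 0 536870912 50331648 16777216 true false false .npp 1 0 2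
    ndF0q1 ndF2q0 pcF2 cut_mm_102 Ext.none :=
  certFK0 (fam := true) (s1 := false) (s2 := false) (a := 1) (b := 0) (c := 2) (cn := .npp) (n1 := ndF0q1) (n2 := ndF2q0) (pc := pcF2) (cut := cut_mm_102) (xt := Ext.none) (P1 := 536870912) (W1 := 536870912) (P2 := 0) (W2 := 536870912) (P3 := 50331648) (W3 := 16777216)
    rfl rfl rfl k0_mm_102

noncomputable def f_mm_112 : ℕ → ℕ → ℕ → ℕ → Bool := onCell 536870912 536870912 536870912 536870912 50331648 16777216
    (rowFK 0 true false false .dn 1 1 2 (qsf 536870912 536870912 536870912 536870912 2) ndF0q1 ndF2q1 pcF2 Cut.none Ext.none)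

def k0_mm_112 : ∃ t, chk3 f_mm_112 t 1 1 1 = true :=
  ⟨(l 4), by decide +kernel⟩

theorem c_mm_112 : CertF 536870912 536870912 536870912 536870912 50331648 16777216 true false false .dn 1 1 2
    ndF0q1 ndF2q1 pcF2 Cut.none Ext.none :=
  certFK0 (fam := true) (s1 := false) (s2 := false) (a := 1) (b := 1) (c := 2) (cn := .dn) (n1 := ndF0q1) (n2 := ndF2q1) (pc := pcF2) (cut := Cut.none) (xt := Ext.none) (P1 := 536870912) (W1 := 536870912) (P2 := 536870912) (W2 := 536870912) (P3 := 50331648) (W3 := 16777216)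
    rfl rfl rfl k0_mm_112

noncomputable def f_mm_113 : ℕ → ℕ → ℕ → ℕ → Bool := onCell 536870912 536870912 536870912 536870912 50331648 16777216
    (rowFK 0 true false false .nn 1 1 3 (qsf 536870912 536870912 536870912 536870912 3) ndF0q1 ndF2q1 pcF3 Cut.none Ext.none)

def k0_mm_113 : ∃ t, chk3 f_mm_113 t 1 1 1 = true :=
  ⟨(l 4), by decide +kernel⟩

theorem c_mm_113 : CertF 536870912 536870912 536870912 536870912 50331648 16777216 true false false .nn 1 1 3
    ndF0q1 ndF2q1 pcF3 Cut.none Ext.none :=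
  certFK0 (fam := true) (s1 := false) (s2 := false) (a := 1) (b := 1) (c := 3) (cn := .nn) (n1 := ndF0q1) (n2 := ndF2q1) (pc := pcF3) (cut := Cut.none) (xt := Ext.none) (P1 := 536870912) (W1 := 536870912) (P2 := 536870912) (W2 := 536870912) (P3 := 50331648) (W3 := 16777216)
    rfl rfl rfl k0_mm_113

noncomputable def f_mm_123_a : ℕ → ℕ → ℕ → ℕ → Bool := onCell 536870912 536870912 0 536870912 50331648 16777216
    (rowFK 0 true false false .npn 1 2 3 (qsf 536870912 536870912 0 536870912 3) ndF0q1 ndF2q2a pcF3 Cut.none Ext.none)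

def k0_mm_123_a : ∃ t, chk3 f_mm_123_a t 1 1 1 = true :=
  ⟨(l 4), by decide +kernel⟩

theorem c_mm_123_a : CertF 536870912 536870912 0 536870912 50331648 16777216 true false false .npn 1 2 3
    ndF0q1 ndF2q2a pcF3 Cut.none Ext.none :=
  certFK0 (fam := true) (s1 := false) (s2 := false) (a := 1) (b := 2) (c := 3) (cn := .npn) (n1 := ndF0q1) (n2 := ndF2q2a) (pc := pcF3) (cut := Cut.none) (xt := Ext.none) (P1 := 536870912) (W1 := 536870912) (P2 := 0) (W2 := 536870912) (P3 := 50331648) (W3 := 16777216)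
    rfl rfl rfl k0_mm_123_a

noncomputable def f_mm_123_b : ℕ → ℕ → ℕ → ℕ → Bool := onCell 536870912 536870912 1239849684 370763052 50331648 16777216
    (rowFK 0 true false false .npn 1 2 3 (qsf 536870912 536870912 1239849684 370763052 3) ndF0q1 ndF2q2b pcF3 Cut.none Ext.none)

def k0_mm_123_b : ∃ t, chk3 f_mm_123_b t 1 1 1 = true :=
  ⟨(l 4), by decide +kernel⟩

theorem c_mm_123_b : CertF 536870912 536870912 1239849684 370763052 50331648 16777216 true false false .npn 1 2 3
    ndF0q1 ndF2q2b pcF3 Cut.none Ext.none :=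
  certFK0 (fam := true) (s1 := false) (s2 := false) (a := 1) (b := 2) (c := 3) (cn := .npn) (n1 := ndF0q1) (n2 := ndF2q2b) (pc := pcF3) (cut := Cut.none) (xt := Ext.none) (P1 := 536870912) (W1 := 536870912) (P2 := 1239849684) (W2 := 370763052) (P3 := 50331648) (W3 := 16777216)
    rfl rfl rfl k0_mm_123_b

noncomputable def f_mm_133 : ℕ → ℕ → ℕ → ℕ → Bool := onCell 536870912 536870912 1610612736 536870912 50331648 16777216
    (rowFK 0 true false false .dn 1 3 3 (qsf 536870912 536870912 1610612736 536870912 3) ndF0q1 ndF2q3 pcF3 Cut.none Ext.none)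

def k0_mm_133 : ∃ t, chk3 f_mm_133 t 1 1 1 = true :=
  ⟨(l 4), by decide +kernel⟩

theorem c_mm_133 : CertF 536870912 536870912 1610612736 536870912 50331648 16777216 true false false .dn 1 3 3
    ndF0q1 ndF2q3 pcF3 Cut.none Ext.none :=
  certFK0 (fam := true) (s1 := false) (s2 := false) (a := 1) (b := 3) (c := 3) (cn := .dn) (n1 := ndF0q1) (n2 := ndF2q3) (pc := pcF3) (cut := Cut.none) (xt := Ext.none) (P1 := 536870912) (W1 := 536870912) (P2 := 1610612736) (W2 := 536870912) (P3 := 50331648) (W3 := 16777216)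
    rfl rfl rfl k0_mm_133

noncomputable def cut_mm_202 : Cut := Cut.of [[⟨0, 1, 0, 50331648⟩, ⟨1, 0, 0, 50331648⟩, ⟨2, 1, 0, 50331648⟩]]

noncomputable def f_mm_202 : ℕ → ℕ → ℕ → ℕ → Bool := onCell 0 536870912 0 536870912 50331648 16777216
    (rowFK 0 true false false .pp 2 0 2 (qsf 0 536870912 0 536870912 2) ndF0q2 ndF2q0 pcF2 cut_mm_202 Ext.none)

def k0_mm_202 : ∃ t, chk3 f_mm_202 t 1 1 1 = true :=
  ⟨(b (a (b (b (a (b (l 18772936) (l 18414056)) (b (b (l 18776088) (l 18570008)) (l 18264776))) (a (l 17918360) (l 17724032))) (b (a (l 17407048) (l 17468144)) (l 49092184983))) (b (a (b (b (b (a (b (l 18572064) (l 18475520)) (b (a (l 18272784) (b (a (l 18037408) (b (l 17617848) (l 17821472))) (l 17937776))) (l 18053960))) (a (l 18321424) (l 17973408))) (a (l 18014688) (b (l 17806608) (l 17631104)))) (a (l 17474744) (l 17414704))) (b (b (a (a (b (b (b (b (a (a (l 17402544) (c (l 17648256) (l 17024816))) (b (a (c (l 17410848) (l 16937288)) (l 16884536))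 (l 17129832))) (a (l 17544800) (l 17182272))) (l 17350728)) (l 17510216)) (l 17542152)) (b (b (b (a (b (b (a (l 16770232) (l 16767728)) (l 16761336)) (l 16749848)) (a (a (l 16765336) (l 16764496)) (l 6))) (l 16745352)) (b (l 16794464) (l 16940296))) (b (l 17078400) (l 17167040)))) (a (a (b (b (l 6) (b (l 16744848) (l 16786144))) (l 16862352)) (b (l 6) (l 16872872))) (b (l 6) (l 4)))) (a (a (l 17401592) (l 17148544)) (l 4))) (l 4))) (l 4))) (a (l 4) (l 4))), by decide +kernel⟩

theorem c_mm_202 : CertF 0 536870912 0 536870912 50331648 16777216 true false false .pp 2 0 2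
    ndF0q2 ndF2q0 pcF2 cut_mm_202 Ext.none :=
  certFK0 (fam := true) (s1 := false) (s2 := false) (a := 2) (b := 0) (c := 2) (cn := .pp) (n1 := ndF0q2) (n2 := ndF2q0) (pc := pcF2) (cut := cut_mm_202) (xt := Ext.none) (P1 := 0) (W1 := 536870912) (P2 := 0) (W2 := 536870912) (P3 := 50331648) (W3 := 16777216)
    rfl rfl rfl k0_mm_202

noncomputable def f_mm_203 : ℕ → ℕ → ℕ → ℕ → Bool := onCell 0 536870912 1610612736 536870912 50331648 16777216
    (rowFK 1 true false false .up 2 0 3 (qsf 0 536870912 0 536870912 3) ndF0q2 ndF2q0 pcF3 Cut.none Ext.none)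

def k0_mm_203 : ∃ t, chk3 f_mm_203 t 1 1 1 = true :=
  ⟨(l 4), by decide +kernel⟩

theorem c_mm_203 : CertF 0 536870912 0 536870912 50331648 16777216 true false false .up 2 0 3
    ndF0q2 ndF2q0 pcF3 Cut.none Ext.none :=
  certFK1 (fam := true) (s1 := false) (s2 := false) (a := 2) (b := 0) (c := 3) (cn := .up) (n1 := ndF0q2) (n2 := ndF2q0) (pc := pcF3) (cut := Cut.none) (xt := Ext.none) (P1 := 0) (W1 := 536870912) (P2 := 0) (W2 := 536870912) (P3 := 50331648) (W3 := 16777216)
    rfl rfl rfl (fun _ => rfl) k0_mm_203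

noncomputable def f_mm_213 : ℕ → ℕ → ℕ → ℕ → Bool := onCell 0 536870912 536870912 536870912 50331648 16777216
    (rowFK 0 true false false .pnn 2 1 3 (qsf 0 536870912 536870912 536870912 3) ndF0q2 ndF2q1 pcF3 Cut.none Ext.none)

def k0_mm_213 : ∃ t, chk3 f_mm_213 t 1 1 1 = true :=
  ⟨(l 4), by decide +kernel⟩

theorem c_mm_213 : CertF 0 536870912 536870912 536870912 50331648 16777216 true false false .pnn 2 1 3
    ndF0q2 ndF2q1 pcF3 Cut.none Ext.none :=
  certFK0 (fam := true) (s1 := false) (s2 := false) (a := 2) (b := 1) (c := 3) (cn := .pnn) (n1 := ndF0q2) (n2 := ndF2q1) (pc := pcF3) (cut := Cut.none) (xt := Ext.none) (P1 := 0) (W1 := 536870912) (P2 := 536870912) (W2 := 536870912) (P3 := 50331648) (W3 := 16777216)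
    rfl rfl rfl k0_mm_213

end Pool.Agent.Strip051.G.I3_64_1_16.Tab.C.FA02

namespace Pool.Agent.Strip051.G.I3_64_1_16.Tab.C.FA03

open Pool.Agent.Strip051.PB Pool.Agent.Strip051.PB.T
open Pool.Agent.Strip051.G.I3_64_1_16.Tab

noncomputable def f_pp_001 : ℕ → ℕ → ℕ → ℕ → Bool := onCell 0 536870912 0 536870912 50331648 16777216
    (rowFK 0 true true true .up 0 0 1 (qsf 0 536870912 0 536870912 1) ndF0q0 ndF3q0 pcF1 Cut.none Ext.none)

def k0_pp_001 : ∃ t, chk3 f_pp_001 t 1 1 1 = true :=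
  ⟨(l 4), by decide +kernel⟩

theorem c_pp_001 : CertF 0 536870912 0 536870912 50331648 16777216 true true true .up 0 0 1
    ndF0q0 ndF3q0 pcF1 Cut.none Ext.none :=
  certFK0 (fam := true) (s1 := true) (s2 := true) (a := 0) (b := 0) (c := 1) (cn := .up) (n1 := ndF0q0) (n2 := ndF3q0) (pc := pcF1) (cut := Cut.none) (xt := Ext.none) (P1 := 0) (W1 := 536870912) (P2 := 0) (W2 := 536870912) (P3 := 50331648) (W3 := 16777216)
    rfl rfl rfl k0_pp_001

noncomputable def f_pp_011 : ℕ → ℕ → ℕ → ℕ → Bool := onCell 0 536870912 536870912 536870912 50331648 16777216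
    (rowFK 0 true true true .pnn 0 1 1 (qsf 0 536870912 536870912 536870912 1) ndF0q0 ndF3q1 pcF1 Cut.none Ext.none)

def k0_pp_011 : ∃ t, chk3 f_pp_011 t 1 1 1 = true :=
  ⟨(l 4), by decide +kernel⟩

theorem c_pp_011 : CertF 0 536870912 536870912 536870912 50331648 16777216 true true true .pnn 0 1 1
    ndF0q0 ndF3q1 pcF1 Cut.none Ext.none :=
  certFK0 (fam := true) (s1 := true) (s2 := true) (a := 0) (b := 1) (c := 1) (cn := .pnn) (n1 := ndF0q0) (n2 := ndF3q1) (pc := pcF1) (cut := Cut.none) (xt := Ext.none) (P1 := 0) (W1 := 536870912) (P2 := 536870912) (W2 := 536870912) (P3 := 50331648) (W3 := 16777216)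
    rfl rfl rfl k0_pp_011

noncomputable def f_pp_012 : ℕ → ℕ → ℕ → ℕ → Bool := onCell 0 536870912 536870912 536870912 50331648 16777216
    (rowFK 0 true true true .pnp 0 1 2 (qsf 0 536870912 536870912 536870912 2) ndF0q0 ndF3q1 pcF2 Cut.none Ext.none)

def k0_pp_012 : ∃ t, chk3 f_pp_012 t 1 1 1 = true :=
  ⟨(l 4), by decide +kernel⟩

theorem c_pp_012 : CertF 0 536870912 536870912 536870912 50331648 16777216 true true true .pnp 0 1 2
    ndF0q0 ndF3q1 pcF2 Cut.none Ext.none :=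
  certFK0 (fam := true) (s1 := true) (s2 := true) (a := 0) (b := 1) (c := 2) (cn := .pnp) (n1 := ndF0q0) (n2 := ndF3q1) (pc := pcF2) (cut := Cut.none) (xt := Ext.none) (P1 := 0) (W1 := 536870912) (P2 := 536870912) (W2 := 536870912) (P3 := 50331648) (W3 := 16777216)
    rfl rfl rfl k0_pp_012

noncomputable def f_pp_022 : ℕ → ℕ → ℕ → ℕ → Bool := onCell 0 536870912 1073741824 536870912 50331648 16777216
    (rowFK 0 true true true .pp 0 2 2 (qsf 0 536870912 1073741824 536870912 2) ndF0q0 ndF3q2 pcF2 Cut.none Ext.none)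

def k0_pp_022 : ∃ t, chk3 f_pp_022 t 1 1 1 = true :=
  ⟨(l 4), by decide +kernel⟩

theorem c_pp_022 : CertF 0 536870912 1073741824 536870912 50331648 16777216 true true true .pp 0 2 2
    ndF0q0 ndF3q2 pcF2 Cut.none Ext.none :=
  certFK0 (fam := true) (s1 := true) (s2 := true) (a := 0) (b := 2) (c := 2) (cn := .pp) (n1 := ndF0q0) (n2 := ndF3q2) (pc := pcF2) (cut := Cut.none) (xt := Ext.none) (P1 := 0) (W1 := 536870912) (P2 := 1073741824) (W2 := 536870912) (P3 := 50331648) (W3 := 16777216)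
    rfl rfl rfl k0_pp_022

noncomputable def f_pp_023 : ℕ → ℕ → ℕ → ℕ → Bool := onCell 0 536870912 1073741824 536870912 50331648 16777216
    (rowFK 0 true true true .up 0 2 3 (qsf 0 536870912 1073741824 536870912 3) ndF0q0 ndF3q2 pcF3 Cut.none Ext.none)

def k0_pp_023 : ∃ t, chk3 f_pp_023 t 1 1 1 = true :=
  ⟨(l 4), by decide +kernel⟩

theorem c_pp_023 : CertF 0 536870912 1073741824 536870912 50331648 16777216 true true true .up 0 2 3
    ndF0q0 ndF3q2 pcF3 Cut.none Ext.none :=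
  certFK0 (fam := true) (s1 := true) (s2 := true) (a := 0) (b := 2) (c := 3) (cn := .up) (n1 := ndF0q0) (n2 := ndF3q2) (pc := pcF3) (cut := Cut.none) (xt := Ext.none) (P1 := 0) (W1 := 536870912) (P2 := 1073741824) (W2 := 536870912) (P3 := 50331648) (W3 := 16777216)
    rfl rfl rfl k0_pp_023

noncomputable def f_pp_033 : ℕ → ℕ → ℕ → ℕ → Bool := onCell 0 536870912 0 1230186008 50331648 16777216
    (rowFK 0 true true true .pnn 0 3 3 (qsf 0 536870912 0 1230186008 3) ndF0q0 ndF3q3 pcF3 Cut.none Ext.none)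

def k0_pp_033 : ∃ t, chk3 f_pp_033 t 1 1 1 = true :=
  ⟨(b (l 4) (l 4)), by decide +kernel⟩

theorem c_pp_033 : CertF 0 536870912 0 1230186008 50331648 16777216 true true true .pnn 0 3 3
    ndF0q0 ndF3q3 pcF3 Cut.none Ext.none :=
  certFK0 (fam := true) (s1 := true) (s2 := true) (a := 0) (b := 3) (c := 3) (cn := .pnn) (n1 := ndF0q0) (n2 := ndF3q3) (pc := pcF3) (cut := Cut.none) (xt := Ext.none) (P1 := 0) (W1 := 536870912) (P2 := 0) (W2 := 1230186008) (P3 := 50331648) (W3 := 16777216)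
    rfl rfl rfl k0_pp_033

noncomputable def f_pp_101 : ℕ → ℕ → ℕ → ℕ → Bool := onCell 536870912 536870912 0 536870912 50331648 16777216
    (rowFK 0 true true true .npn 1 0 1 (qsf 536870912 536870912 0 536870912 1) ndF0q1 ndF3q0 pcF1 Cut.none Ext.none)

def k0_pp_101 : ∃ t, chk3 f_pp_101 t 1 1 1 = true :=
  ⟨(l 4), by decide +kernel⟩

theorem c_pp_101 : CertF 536870912 536870912 0 536870912 50331648 16777216 true true true .npn 1 0 1
    ndF0q1 ndF3q0 pcF1 Cut.none Ext.none :=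
  certFK0 (fam := true) (s1 := true) (s2 := true) (a := 1) (b := 0) (c := 1) (cn := .npn) (n1 := ndF0q1) (n2 := ndF3q0) (pc := pcF1) (cut := Cut.none) (xt := Ext.none) (P1 := 536870912) (W1 := 536870912) (P2 := 0) (W2 := 536870912) (P3 := 50331648) (W3 := 16777216)
    rfl rfl rfl k0_pp_101

noncomputable def f_pp_102 : ℕ → ℕ → ℕ → ℕ → Bool := onCell 536870912 536870912 0 536870912 50331648 16777216
    (rowFK 0 true true true .npp 1 0 2 (qsf 536870912 536870912 0 536870912 2) ndF0q1 ndF3q0 pcF2 Cut.none Ext.none)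

def k0_pp_102 : ∃ t, chk3 f_pp_102 t 1 1 1 = true :=
  ⟨(l 4), by decide +kernel⟩

theorem c_pp_102 : CertF 536870912 536870912 0 536870912 50331648 16777216 true true true .npp 1 0 2
    ndF0q1 ndF3q0 pcF2 Cut.none Ext.none :=
  certFK0 (fam := true) (s1 := true) (s2 := true) (a := 1) (b := 0) (c := 2) (cn := .npp) (n1 := ndF0q1) (n2 := ndF3q0) (pc := pcF2) (cut := Cut.none) (xt := Ext.none) (P1 := 536870912) (W1 := 536870912) (P2 := 0) (W2 := 536870912) (P3 := 50331648) (W3 := 16777216)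
    rfl rfl rfl k0_pp_102

noncomputable def f_pp_112 : ℕ → ℕ → ℕ → ℕ → Bool := onCell 536870912 536870912 536870912 536870912 50331648 16777216
    (rowFK 0 true true true .dn 1 1 2 (qsf 536870912 536870912 536870912 536870912 2) ndF0q1 ndF3q1 pcF2 Cut.none Ext.none)

def k0_pp_112 : ∃ t, chk3 f_pp_112 t 1 1 1 = true :=
  ⟨(l 4), by decide +kernel⟩

theorem c_pp_112 : CertF 536870912 536870912 536870912 536870912 50331648 16777216 true true true .dn 1 1 2
    ndF0q1 ndF3q1 pcF2 Cut.none Ext.none :=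
  certFK0 (fam := true) (s1 := true) (s2 := true) (a := 1) (b := 1) (c := 2) (cn := .dn) (n1 := ndF0q1) (n2 := ndF3q1) (pc := pcF2) (cut := Cut.none) (xt := Ext.none) (P1 := 536870912) (W1 := 536870912) (P2 := 536870912) (W2 := 536870912) (P3 := 50331648) (W3 := 16777216)
    rfl rfl rfl k0_pp_112

noncomputable def f_pp_113 : ℕ → ℕ → ℕ → ℕ → Bool := onCell 536870912 536870912 536870912 536870912 50331648 16777216
    (rowFK 0 true true true .nn 1 1 3 (qsf 536870912 536870912 536870912 536870912 3) ndF0q1 ndF3q1 pcF3 Cut.none Ext.none)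

def k0_pp_113 : ∃ t, chk3 f_pp_113 t 1 1 1 = true :=
  ⟨(l 4), by decide +kernel⟩

theorem c_pp_113 : CertF 536870912 536870912 536870912 536870912 50331648 16777216 true true true .nn 1 1 3
    ndF0q1 ndF3q1 pcF3 Cut.none Ext.none :=
  certFK0 (fam := true) (s1 := true) (s2 := true) (a := 1) (b := 1) (c := 3) (cn := .nn) (n1 := ndF0q1) (n2 := ndF3q1) (pc := pcF3) (cut := Cut.none) (xt := Ext.none) (P1 := 536870912) (W1 := 536870912) (P2 := 536870912) (W2 := 536870912) (P3 := 50331648) (W3 := 16777216)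
    rfl rfl rfl k0_pp_113

noncomputable def f_pp_123 : ℕ → ℕ → ℕ → ℕ → Bool := onCell 536870912 536870912 1073741824 536870912 50331648 16777216
    (rowFK 0 true true true .npn 1 2 3 (qsf 536870912 536870912 1073741824 536870912 3) ndF0q1 ndF3q2 pcF3 Cut.none Ext.none)

def k0_pp_123 : ∃ t, chk3 f_pp_123 t 1 1 1 = true :=
  ⟨(l 4), by decide +kernel⟩

theorem c_pp_123 : CertF 536870912 536870912 1073741824 536870912 50331648 16777216 true true true .npn 1 2 3
    ndF0q1 ndF3q2 pcF3 Cut.none Ext.none :=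
  certFK0 (fam := true) (s1 := true) (s2 := true) (a := 1) (b := 2) (c := 3) (cn := .npn) (n1 := ndF0q1) (n2 := ndF3q2) (pc := pcF3) (cut := Cut.none) (xt := Ext.none) (P1 := 536870912) (W1 := 536870912) (P2 := 1073741824) (W2 := 536870912) (P3 := 50331648) (W3 := 16777216)
    rfl rfl rfl k0_pp_123

noncomputable def f_pp_133 : ℕ → ℕ → ℕ → ℕ → Bool := onCell 536870912 536870912 0 1230186008 50331648 16777216
    (rowFK 0 true true true .dn 1 3 3 (qsf 536870912 536870912 0 1230186008 3) ndF0q1 ndF3q3 pcF3 Cut.none Ext.none)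

def k0_pp_133 : ∃ t, chk3 f_pp_133 t 1 1 1 = true :=
  ⟨(l 4), by decide +kernel⟩

theorem c_pp_133 : CertF 536870912 536870912 0 1230186008 50331648 16777216 true true true .dn 1 3 3
    ndF0q1 ndF3q3 pcF3 Cut.none Ext.none :=
  certFK0 (fam := true) (s1 := true) (s2 := true) (a := 1) (b := 3) (c := 3) (cn := .dn) (n1 := ndF0q1) (n2 := ndF3q3) (pc := pcF3) (cut := Cut.none) (xt := Ext.none) (P1 := 536870912) (W1 := 536870912) (P2 := 0) (W2 := 1230186008) (P3 := 50331648) (W3 := 16777216)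
    rfl rfl rfl k0_pp_133

noncomputable def f_pp_202 : ℕ → ℕ → ℕ → ℕ → Bool := onCell 0 536870912 0 536870912 50331648 16777216
    (rowFK 0 true true true .pp 2 0 2 (qsf 0 536870912 0 536870912 2) ndF0q2 ndF3q0 pcF2 Cut.none Ext.none)

def k0_pp_202 : ∃ t, chk3 f_pp_202 t 1 1 1 = true :=
  ⟨(l 5), by decide +kernel⟩

theorem c_pp_202 : CertF 0 536870912 0 536870912 50331648 16777216 true true true .pp 2 0 2
    ndF0q2 ndF3q0 pcF2 Cut.none Ext.none :=
  certFK0 (fam := true) (s1 := true) (s2 := true) (a := 2) (b := 0) (c := 2) (cn := .pp) (n1 := ndF0q2) (n2 := ndF3q0) (pc := pcF2) (cut := Cut.none) (xt := Ext.none) (P1 := 0) (W1 := 536870912) (P2 := 0) (W2 := 536870912) (P3 := 50331648) (W3 := 16777216)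
    rfl rfl rfl k0_pp_202

noncomputable def f_pp_203 : ℕ → ℕ → ℕ → ℕ → Bool := onCell 0 536870912 0 536870912 50331648 16777216
    (rowFK 0 true true true .up 2 0 3 (qsf 0 536870912 0 536870912 3) ndF0q2 ndF3q0 pcF3 Cut.none Ext.none)

def k0_pp_203 : ∃ t, chk3 f_pp_203 t 1 1 1 = true :=
  ⟨(l 5), by decide +kernel⟩

theorem c_pp_203 : CertF 0 536870912 0 536870912 50331648 16777216 true true true .up 2 0 3
    ndF0q2 ndF3q0 pcF3 Cut.none Ext.none :=
  certFK0 (fam := true) (s1 := true) (s2 := true) (a := 2) (b := 0) (c := 3) (cn := .up) (n1 := ndF0q2) (n2 := ndF3q0) (pc := pcF3) (cut := Cut.none) (xt := Ext.none) (P1 := 0) (W1 := 536870912) (P2 := 0) (W2 := 536870912) (P3 := 50331648) (W3 := 16777216)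
    rfl rfl rfl k0_pp_203

noncomputable def f_pp_213 : ℕ → ℕ → ℕ → ℕ → Bool := onCell 0 536870912 536870912 536870912 50331648 16777216
    (rowFK 0 true true true .pnn 2 1 3 (qsf 0 536870912 536870912 536870912 3) ndF0q2 ndF3q1 pcF3 Cut.none Ext.none)

def k0_pp_213 : ∃ t, chk3 f_pp_213 t 1 1 1 = true :=
  ⟨(l 4), by decide +kernel⟩

theorem c_pp_213 : CertF 0 536870912 536870912 536870912 50331648 16777216 true true true .pnn 2 1 3
    ndF0q2 ndF3q1 pcF3 Cut.none Ext.none :=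
  certFK0 (fam := true) (s1 := true) (s2 := true) (a := 2) (b := 1) (c := 3) (cn := .pnn) (n1 := ndF0q2) (n2 := ndF3q1) (pc := pcF3) (cut := Cut.none) (xt := Ext.none) (P1 := 0) (W1 := 536870912) (P2 := 536870912) (W2 := 536870912) (P3 := 50331648) (W3 := 16777216)
    rfl rfl rfl k0_pp_213

noncomputable def f_pm_001 : ℕ → ℕ → ℕ → ℕ → Bool := onCell 0 536870912 0 536870912 50331648 16777216
    (rowFK 0 true true false .up 0 0 1 (qsf 0 536870912 0 536870912 1) ndF0q0 ndF3q0 pcF1 Cut.none Ext.none)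

def k0_pm_001 : ∃ t, chk3 f_pm_001 t 1 1 1 = true :=
  ⟨(a (l 3) (b (l 3) (a (l 3) (b (l 3) (a (b (l 3) (a (l 3) (l 218677597271))) (b (l 202033461687) (a (l 101102611159) (l 18199648)))))))), by decide +kernel⟩

theorem c_pm_001 : CertF 0 536870912 0 536870912 50331648 16777216 true true false .up 0 0 1
    ndF0q0 ndF3q0 pcF1 Cut.none Ext.none :=
  certFK0 (fam := true) (s1 := true) (s2 := false) (a := 0) (b := 0) (c := 1) (cn := .up) (n1 := ndF0q0) (n2 := ndF3q0) (pc := pcF1) (cut := Cut.none) (xt := Ext.none) (P1 := 0) (W1 := 536870912) (P2 := 0) (W2 := 536870912) (P3 := 50331648) (W3 := 16777216)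
    rfl rfl rfl k0_pm_001

noncomputable def cut_pm_011 : Cut := Cut.of [[⟨0, 0, 0, 50331648⟩, ⟨1, 1, 0, 50331648⟩, ⟨2, 1, 0, 50331648⟩]]

noncomputable def f_pm_011 : ℕ → ℕ → ℕ → ℕ → Bool := onCell 536870912 536870912 536870912 536870912 50331648 16777216
    (rowFK 2 true true false .pnn 0 1 1 (qsf 0 536870912 536870912 536870912 1) ndF0q0 ndF3q1 pcF1 cut_pm_011 Ext.none)

def k0_pm_011 : ∃ t, chk3 f_pm_011 t 2 1 1 = true :=
  ⟨(l 3), by decide +kernel⟩

def k1_pm_011 : ∃ t, chk3 f_pm_011 t 6 1 1 = true :=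
  ⟨(l 3), by decide +kernel⟩

def k2_pm_011 : ∃ t, chk3 f_pm_011 t 7 2 1 = true :=
  ⟨(b (a (a (l 3) (a (l 3) (l 211696962823))) (a (b (l 18155928) (l 18007680)) (l 18437864))) (a (l 3) (a (b (l 86605598263) (a (l 3) (l 17727960))) (b (l 18271024) (l 18131368))))), by decide +kernel⟩

def k3_pm_011 : ∃ t, chk3 f_pm_011 t 14 3 1 = true :=
  ⟨(l 3), by decide +kernel⟩

def k4_pm_011 : ∃ t, chk3 f_pm_011 t 15 6 1 = true :=
  ⟨(b (a (a (l 3) (b (l 17539912) (l 3))) (a (l 73183837463) (l 18098768))) (a (l 3) (a (b (l 46339767399) (a (l 3) (l 38823480359))) (b (l 17930128) (a (l 17672328) (l 17863600)))))), by decide +kernel⟩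

def k5_pm_011 : ∃ t, chk3 f_pm_011 t 30 7 1 = true :=
  ⟨(l 3), by decide +kernel⟩

def k6_pm_011 : ∃ t, chk3 f_pm_011 t 31 14 1 = true :=
  ⟨(b (a (a (l 3) (b (l 139754859559) (l 3))) (b (a (l 17500536) (l 17701424)) (a (b (l 17394872) (l 17189504)) (a (l 17506400) (l 17605704))))) (a (l 3) (b (a (a (b (l 17074768) (l 3)) (b (l 17275656) (b (l 17201712) (l 17044056)))) (b (a (l 17370608) (l 17465056)) (a (a (l 17199416) (l 17264024)) (a (l 17328520) (l 17350904))))) (a (a (l 3) (a (b (b (l 16968584) (l 163377008663)) (l 3)) (b (c (l 17157208) (b (l 17039688) (b (l 16993320) (l 16898408)))) (b (c (l 17043544) (a (b (l 16860304) (l 24327008711)) (b (l 16912728) (l 16815208)))) (c (b (l 16994160) (l 7684170839)) (b (a (a (l 3) (l 10368298743)) (a (l 16767552) (l 16802232))) (a (l 3) (a (l 9831422951) (l 16765160))))))))) (a (b (c (l 17121472) (b (l 16980864) (a (l 16919104) (l 16986496)))) (c (b (a (l 17104480) (l 17144264)) (a (b (l 17050896) (l 16971584))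 (l 17003360))) (b (a (b (l 16886344) (a (l 16865664) (l 16895120))) (b (l 16948944) (l 16865872))) (a (a (b (l 16786056) (a (l 16788136) (l 16790136))) (a (l 16770688) (l 16794264))) (b (l 16765256) (a (l 16818048) (l 16821976))))))) (b (b (a (l 17209208) (l 17227064)) (b (l 16983984) (a (l 17053472) (l 17065856)))) (c (b (a (l 17183952) (l 17223504)) (a (l 17058128) (l 17028872))) (b (a (b (l 16969496) (l 16882696)) (a (l 16919376) (l 16907672))) (a (a (l 16787496) (l 16792608)) (a (l 16797680) (b (l 16872064) (l 16816424)))))))))))), by decide +kernel⟩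

def k7_pm_011 : ∃ t, chk3 f_pm_011 t 62 15 1 = true :=
  ⟨(l 3), by decide +kernel⟩

def k8_pm_011 : ∃ t, chk3 f_pm_011 t 126 30 1 = true :=
  ⟨(b (b (a (l 3) (a (l 3) (a (l 3) (a (l 3) (b (c (b (l 16936120) (l 16835864)) (a (b (l 16763648) (l 3)) (b (l 16769240) (l 16765176)))) (l 3)))))) (l 3)) (l 3)), by decide +kernel⟩

def k9_pm_011 : ∃ t, chk3 f_pm_011 t 127 120 1 = true :=
  ⟨(a (b (a (a (b (c (l 16925792) (a (l 16769720) (l 16770352))) (a (b (c (l 16914528) (l 16760432)) (l 16765024)) (l 16764472))) (b (c (l 16960904) (l 16771296)) (a (l 16759120) (l 16761624)))) (b (c (l 16961112) (a (l 16793504) (l 16794712))) (a (l 16765376) (l 16770352)))) (a (a (a (b (b (l 16765720) (l 5536458151)) (b (l 4462716967) (l 6073330135))) (b (a (l 16766720) (l 16767208)) (b (l 16766040) (l 16765960)))) (a (b (l 16762696) (a (l 16764984) (l 16764592))) (b (l 16758432) (l 16764000)))) (a (b (l 16765120) (a (l 16763208) (l 16751928))) (a (l 16764392) (l 16767112)))))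 (a (a (b (c (l 16895640) (l 16764176)) (a (l 16756720) (l 16756800))) (b (c (l 16929568) (l 16769072)) (a (l 16756880) (l 16756952)))) (b (c (a (l 16942488) (l 16892464)) (a (l 16768688) (b (l 16799240) (l 16736288)))) (a (c (l 16767920) (l 16755192)) (a (l 16778080) (l 16757144)))))), by decide +kernel⟩

def k10_pm_011 : ∃ t, chk3 f_pm_011 t 127 121 1 = true :=
  ⟨(a (a (b (a (a (l 3) (b (b (l 5536458951) (c (l 4999588807) (l 16759328))) (a (l 3) (b (l 16765184) (l 16765984))))) (b (a (b (l 16762520) (l 16765872)) (c (l 16766216) (l 16761064))) (a (a (b (l 16764368) (l 16765120)) (a (l 16766776) (l 16763768))) (a (l 16765816) (l 16762424))))) (a (l 3) (b (a (b (a (l 16765896) (l 16765080)) (a (l 3388978023) (l 16765840))) (b (l 16763920) (a (l 16765048) (l 16764272)))) (a (b (a (l 3) (l 4462719927)) (l 3)) (a (b (l 16765800) (l 16761328)) (b (l 16765024) (l 16765784))))))) (a (a (b (b (l 16759808) (l 16765856)) (b (a (l 16763128) (l 16762360)) (b (l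 16763864) (l 16764616)))) (b (b (l 16768768) (l 16759736)) (b (l 16761208) (a (l 16763080) (l 16762312))))) (b (b (l 16766496) (a (l 16768696) (l 16767184))) (a (b (l 16759680) (l 16761160)) (b (l 16768640) (l 16759632)))))) (a (b (a (a (l 16764952) (l 16763456)) (a (l 16761960) (l 16760472))) (a (b (l 16766368) (l 16749488)) (b (l 16763360) (l 16764816)))) (a (a (b (l 16759000) (l 16761848)) (b (l 16757528) (l 16760368))) (a (b (l 16756064) (l 16758888)) (b (l 16759848) (a (l 16736816) (l 16757048))))))), by decide +kernel⟩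

def k11_pm_011 : ∃ t, chk3 f_pm_011 t 127 61 1 = true :=
  ⟨(b (b (b (b (b (b (a (a (a (l 3) (a (l 3) (l 16766664))) (a (l 16759072) (l 16761240))) (a (l 16756664) (l 16761160))) (l 6)) (l 6)) (l 6)) (l 6)) (l 6)) (l 6)), by decide +kernel⟩

def k12_pm_011 : ∃ t, chk3 f_pm_011 t 63 31 1 = true :=
  ⟨(l 6), by decide +kernel⟩

theorem s13_pm_011 : ∃ t, chk3 f_pm_011 t 127 60 1 = true := ex3_b k9_pm_011 k10_pm_011

theorem s14_pm_011 : ∃ t, chk3 f_pm_011 t 127 30 1 = true := ex3_b s13_pm_011 k11_pm_011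

theorem s15_pm_011 : ∃ t, chk3 f_pm_011 t 63 30 1 = true := ex3_a k8_pm_011 s14_pm_011

theorem s16_pm_011 : ∃ t, chk3 f_pm_011 t 63 15 1 = true := ex3_b s15_pm_011 k12_pm_011

theorem s17_pm_011 : ∃ t, chk3 f_pm_011 t 31 15 1 = true := ex3_a k7_pm_011 s16_pm_011

theorem s18_pm_011 : ∃ t, chk3 f_pm_011 t 31 7 1 = true := ex3_b k6_pm_011 s17_pm_011

theorem s19_pm_011 : ∃ t, chk3 f_pm_011 t 15 7 1 = true := ex3_a k5_pm_011 s18_pm_011

theorem s20_pm_011 : ∃ t, chk3 f_pm_011 t 15 3 1 = true := ex3_b k4_pm_011 s19_pm_011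

theorem s21_pm_011 : ∃ t, chk3 f_pm_011 t 7 3 1 = true := ex3_a k3_pm_011 s20_pm_011

theorem s22_pm_011 : ∃ t, chk3 f_pm_011 t 7 1 1 = true := ex3_b k2_pm_011 s21_pm_011

theorem s23_pm_011 : ∃ t, chk3 f_pm_011 t 3 1 1 = true := ex3_a k1_pm_011 s22_pm_011

theorem s24_pm_011 : ∃ t, chk3 f_pm_011 t 1 1 1 = true := ex3_a k0_pm_011 s23_pm_011

theorem c_pm_011 : CertF 0 536870912 536870912 536870912 50331648 16777216 true true false .pnn 0 1 1
    ndF0q0 ndF3q1 pcF1 cut_pm_011 Ext.none :=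
  certFK2 (fam := true) (s1 := true) (s2 := false) (a := 0) (b := 1) (c := 1) (cn := .pnn) (n1 := ndF0q0) (n2 := ndF3q1) (pc := pcF1) (cut := cut_pm_011) (xt := Ext.none) (P1 := 0) (W1 := 536870912) (P2 := 536870912) (W2 := 536870912) (P3 := 50331648) (W3 := 16777216)
    rfl rfl rfl (fun _ => rfl) s24_pm_011

noncomputable def cut_pm_012 : Cut := Cut.of [[⟨0, 0, 0, 50331648⟩, ⟨1, 1, 0, 50331648⟩, ⟨2, 1, 0, 50331648⟩]]

noncomputable def f_pm_012 : ℕ → ℕ → ℕ → ℕ → Bool := onCell 1073741824 536870912 536870912 536870912 50331648 16777216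
    (rowFK 2 true true false .pnp 0 1 2 (qsf 0 536870912 536870912 536870912 2) ndF0q0 ndF3q1 pcF2 cut_pm_012 Ext.none)

def k0_pm_012 : ∃ t, chk3 f_pm_012 t 2 2 1 = true :=
  ⟨(a (a (a (a (b (l 18650248) (l 18502712)) (b (l 18668544) (l 18571504))) (b (l 18733640) (l 18710568))) (b (l 18738000) (l 18821360))) (b (a (l 18547664) (l 2)) (l 18846112))), by decide +kernel⟩

def k1_pm_012 : ∃ t, chk3 f_pm_012 t 32 6 1 = true :=
  ⟨(b (l 18353992) (b (l 18236424) (l 18118432))), by decide +kernel⟩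

def k2_pm_012 : ∃ t, chk3 f_pm_012 t 32 14 1 = true :=
  ⟨(b (a (b (l 17896592) (l 17761336)) (l 18019424)) (a (b (a (b (l 17570888) (l 17350648)) (l 17631392)) (a (b (c (l 17431800) (a (b (l 17208656) (l 17081872)) (l 17228832))) (c (a (b (l 17279408) (l 17124656)) (l 17305576)) (a (b (a (l 16929376) (l 17044896)) (a (l 16759568) (l 16875760))) (b (l 17093056) (l 16925248))))) (b (l 17316880) (c (l 17412216) (b (l 17191112) (l 16942976)))))) (b (l 17800168) (b (l 17464568) (a (a (l 17255032) (l 17386856)) (l 17489224)))))), by decide +kernel⟩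

def k3_pm_012 : ∃ t, chk3 f_pm_012 t 32 15 1 = true :=
  ⟨(b (a (a (b (b (b (c (a (a (l 16918456) (l 17080992)) (l 17136832)) (a (a (a (l 16756360) (l 16793544)) (l 16797312)) (l 16806152))) (a (a (a (l 16756552) (l 16763552)) (l 16769288)) (c (l 16894616) (l 16732728)))) (a (a (a (a (b (l 16752368) (l 16755272)) (a (l 16753456) (l 16753224))) (a (l 16752880) (l 16752416))) (b (l 16749856) (l 16752704))) (b (l 16756736) (a (l 16729880) (l 16728032))))) (b (b (a (a (a (a (l 16758256) (l 16757776)) (l 16757064)) (l 16745152)) (a (l 16753736) (l 16730880))) (a (l 6) (a (l 6) (l 16733808)))) (l 6))) (a (b (b (c (l 16947880) (b (l 16917912) (l 16805040))) (b (l 16777472) (l 16746256))) (b (b (l 16749040) (c (l 16734424) (l 16741208))) (l 6))) (b (b (c (l 17151416) (l 16758672)) (b (l 16795608) (l 16737480))) (b (b (l 16745328) (l 16732376)) (b (c (l 16733480) (l 16740280)) (l 6)))))) (b (b (c (a (l 17142392) (l 17527216)) (a (b (l 17014536) (l 16784952))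 (b (l 17265520) (l 17065792)))) (b (c (a (l 16947864) (l 17368544)) (a (a (l 16809224) (l 16891344)) (l 16826864))) (a (a (l 16783472) (l 16809880)) (c (l 17030416) (l 16712184))))) (b (a (b (a (l 16741648) (l 16734928)) (a (l 16744352) (l 16740632))) (b (a (l 16790384) (c (l 17053032) (l 16722832))) (a (l 16715976) (l 16733320)))) (a (b (a (l 16728776) (l 16732840)) (a (l 6) (l 16729064))) (b (a (l 16739560) (l 16714864)) (a (l 16723912) (l 16727968))))))) (a (l 6) (b (b (a (l 6) (b (a (l 6) (l 16722792)) (l 6))) (l 6)) (l 6)))), by decide +kernel⟩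

def k4_pm_012 : ∃ t, chk3 f_pm_012 t 33 3 1 = true :=
  ⟨(a (b (l 18437448) (b (b (l 18192688) (b (l 18013704) (b (l 17874640) (l 17667256)))) (b (b (b (c (l 17750800) (a (l 17253872) (l 17504472))) (c (a (l 17310720) (l 17644408)) (a (b (l 17117720) (l 16869504)) (b (l 17342336) (l 17149312))))) (b (c (a (b (l 17092696) (a (l 16939912) (l 17065440))) (b (l 17468512) (l 17134688))) (a (b (l 16742784) (l 16711872)) (b (l 16870912) (l 16753192)))) (a (b (a (l 16711184) (l 16732624)) (a (l 16713712) (l 16709984))) (a (b (l 16764848) (l 16706296)) (b (c (l 17099544) (l 16720632)) (l 16732808)))))) (b (b (a (b (a (l 16718944) (l 16715128)) (a (l 6) (b (l 16714456) (l 6)))) (b (a (l 16708736) (l 16705008)) (b (l 16711344) (l 16715224)))) (a (l 6) (b (b (a (l 6) (l 16709328)) (l 6)) (l 6)))) (l 6))))) (b (l 18528688) (b (b (l 18348736) (a (l 17984744) (l 18192440))) (b (a (b (c (l 17888552) (b (l 17645616) (l 17358632))) (b (c (l 17418464) (b (l 17181520) (l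 16893968))) (b (c (l 17177328) (l 16743392)) (a (l 16753320) (c (l 17092416) (l 16720760)))))) (b (b (l 17937464) (l 17671472)) (b (c (l 17763240) (a (l 17139056) (l 17292288))) (c (b (l 17528584) (a (l 17311656) (l 17464104))) (b (a (l 16990568) (l 17095680)) (a (l 16821608) (l 16855808))))))) (b (b (a (b (a (l 16701320) (l 16733848)) (b (l 16701216) (l 16705008))) (a (b (l 16742584) (l 16696248)) (b (c (l 17044000) (l 16721696)) (l 16693792)))) (a (b (b (l 16706208) (l 16710048)) (b (a (l 6) (l 16704112)) (l 6))) (b (a (l 16701136) (l 16700272)) (a (b (l 16700272) (l 16701464)) (b (l 16696720) (l 16697872)))))) (b (a (l 6) (b (a (l 6) (b (l 16701664) (l 6))) (l 6))) (l 6))))))), by decide +kernel⟩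

def k5_pm_012 : ∃ t, chk3 f_pm_012 t 17 6 1 = true :=
  ⟨(a (l 18843088) (l 18808648)), by decide +kernel⟩

def k6_pm_012 : ∃ t, chk3 f_pm_012 t 17 14 1 = true :=
  ⟨(a (b (l 18561392) (a (l 18338088) (l 18518752))) (b (l 18813080) (l 18756312))), by decide +kernel⟩

def k7_pm_012 : ∃ t, chk3 f_pm_012 t 17 30 1 = true :=
  ⟨(a (b (a (b (l 18126320) (l 17740528)) (l 18310192)) (b (a (c (l 18009824) (a (l 17276488) (l 17694600))) (l 18073880)) (a (c (a (b (l 17762728) (l 17622664)) (l 17884472)) (a (b (a (l 17260696) (l 17359704)) (a (l 16949184) (l 17122680))) (b (l 17502384) (l 17134768)))) (c (l 18142672) (a (l 17427328) (l 17792792)))))) (b (l 18629640) (a (b (l 18385496) (l 18241440)) (l 18574360)))), by decide +kernel⟩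

def k8_pm_012 : ∃ t, chk3 f_pm_012 t 34 62 1 = true :=
  ⟨(a (b (a (a (c (b (l 17290016) (c (l 17329184) (l 16819632))) (b (l 16767672) (l 16688896))) (c (b (l 17510400) (l 17059216)) (b (l 16850888) (l 16723456)))) (c (b (l 17675224) (a (l 17331960) (l 17557336))) (b (a (l 16950440) (l 17129368)) (a (l 16756472) (l 16825712))))) (a (b (a (l 16693984) (l 16691304)) (a (b (l 16692992) (l 16694096)) (b (l 16689560) (l 16690632)))) (b (c (c (a (l 17347632) (l 17503192)) (a (l 16798728) (l 17045504))) (a (l 16684112) (l 16705032))) (a (l 16689128) (l 16684400))))) (b (c (a (b (l 17880240) (l 17728432)) (l 18007696)) (a (b (l 17169424) (a (l 16931400) (l 17115720))) (b (l 17585872) (l 17204640)))) (b (c (a (a (l 17353584) (l 17604864)) (l 17782168)) (a (a (l 16725040) (l 16801240)) (a (l 16913032) (l 17102696)))) (b (c (a (a (l 17179352) (l 17423720)) (l 17641000)) (a (l 16681552) (a (l 16890360) (l 17010144)))) (a (a (l 16721408) (c (l 17175744) (l 16676168)))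 (c (l 17344960) (l 16676576))))))), by decide +kernel⟩

def k9_pm_012 : ∃ t, chk3 f_pm_012 t 34 63 1 = true :=
  ⟨(b (a (a (b (a (b (l 16695232) (l 16699008)) (b (l 16691712) (l 16692824))) (b (a (l 6) (l 16696576)) (l 6))) (b (a (b (l 16688064) (l 16689128)) (b (l 16684472) (l 16685496))) (b (a (l 16690208) (l 16686536)) (a (l 16693944) (l 16687600))))) (a (b (b (l 16685368) (a (l 16681928) (l 16678424))) (b (a (l 16682920) (l 16679376)) (a (l 16683944) (l 16680352)))) (b (c (b (a (l 17172304) (l 17443744)) (c (l 17376168) (a (l 16912984) (l 17159688)))) (b (l 16675024) (l 16678744))) (b (a (l 16675888) (c (c (l 17401568) (l 16880696)) (l 16672048))) (a (l 16676824) (l 16673352)))))) (b (a (a (l 6) (b (a (l 6) (c (l 16691624) (l 16690984))) (l 6))) (a (b (a (l 16687608) (l 16683968)) (b (a (l 16685776) (l 16682112)) (a (l 6) (l 16682624)))) (a (b (l 16677768) (a (l 16679480) (l 16677696))) (b (l 16674264) (l 16677480))))) (a (l 6) (a (a (l 6) (b (b (l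 16685768) (l 6)) (l 6))) (a (b (b (l 16679488) (a (l 16680744) (l 16678928))) (a (l 6) (b (l 16679432) (l 6)))) (b (b (l 16675896) (a (l 16677128) (l 16675344))) (b (a (l 16677624) (l 16675824)) (b (a (l 16677992) (l 16676192)) (a (l 6) (c (l 16676792) (l 16676072))))))))))), by decide +kernel⟩

def k10_pm_012 : ∃ t, chk3 f_pm_012 t 35 62 1 = true :=
  ⟨(b (a (c (l 18277520) (a (l 17517352) (l 17892736))) (l 18368256)) (a (c (a (b (l 17999816) (l 17836432)) (l 18132728)) (a (b (l 17198472) (c (l 17175616) (a (l 16868952) (l 17088504)))) (b (l 17671400) (c (l 17629936) (l 17217192))))) (c (l 18413720) (a (l 17546416) (l 17994472))))), by decide +kernel⟩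

def k11_pm_012 : ∃ t, chk3 f_pm_012 t 35 126 1 = true :=
  ⟨(a (c (a (a (b (l 17356808) (c (l 17344224) (b (l 17152200) (l 16848600)))) (b (l 17680752) (c (l 17643440) (b (l 17351016) (l 17123928))))) (b (l 17891240) (c (l 17855520) (b (l 17569832) (l 17360800))))) (b (a (a (l 16664408) (c (l 17001720) (l 16674880))) (c (l 17168112) (b (l 17064392) (l 16807776)))) (a (b (l 16669272) (l 16673608)) (c (b (l 17001176) (a (l 16881328) (l 17126328))) (b (l 16663208) (l 16665520)))))) (c (b (l 18227944) (a (l 17946584) (l 18182800))) (b (a (c (l 17672872) (l 17185184)) (l 17758992)) (a (c (b (l 17513520) (l 17351096)) (b (l 17046544) (a (l 16895688) (l 17132256)))) (c (l 17716368) (l 17153760)))))), by decide +kernel⟩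

def k12_pm_012 : ∃ t, chk3 f_pm_012 t 70 127 1 = true :=
  ⟨(a (b (b (a (l 16670816) (c (c (l 17440280) (l 16795720)) (l 16666992))) (a (l 16674320) (l 16668264))) (a (b (b (l 16672376) (l 16675448)) (a (b (l 16674048) (b (l 16674400) (c (l 16675008) (l 16674272)))) (b (l 16672280) (a (a (l 16673368) (l 16672928)) (l 16672272))))) (a (b (l 16669864) (b (l 16670528) (a (l 16671392) (l 16670512)))) (b (l 16668144) (b (l 16668800) (c (l 16669640) (l 16668840))))))) (b (c (c (b (l 17679608) (l 17397296)) (b (a (l 17116800) (l 17385120)) (a (b (l 16995568) (l 16845744)) (l 17067920)))) (b (l 16666920) (a (l 16664456) (l 16661136)))) (b (a (a (l 16666448) (l 16664608)) (c (c (l 17479696) (b (l 16965000) (l 16771288))) (l 16664536))) (a (a (b (l 16667080) (c (l 16667504) (l 16667096))) (b (l 16665376) (a (l 16666192) (l 16665344)))) (b (l 16663904) (a (l 16664096) (l 16662416))))))), by decide +kernel⟩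

def k13_pm_012 : ∃ t, chk3 f_pm_012 t 71 127 1 = true :=
  ⟨(c (b (a (c (l 17910816) (b (l 17612200) (l 17356256))) (l 18002472)) (a (c (b (l 17728136) (a (l 17457720) (l 17671088))) (b (a (l 17019208) (l 17419904)) (b (a (l 16892672) (l 17283912)) (a (c (l 17055464) (a (l 16728312) (l 16891512))) (l 17054712))))) (c (l 17966656) (b (l 17655184) (l 17268464))))) (b (a (c (b (a (l 17096712) (l 17335416)) (a (b (l 17002768) (l 16857856)) (l 17067272))) (b (l 16654928) (a (l 16657640) (l 16701544)))) (c (b (l 17551344) (l 17342496)) (b (l 16966424) (a (l 16807176) (l 17070712))))) (a (b (a (l 16658616) (c (b (l 16970984) (l 16803392)) (l 16655128))) (b (a (l 16659176) (l 16661072)) (a (c (l 16661096) (l 16661952)) (l 16657576)))) (c (b (a (l 17017024) (l 17366432)) (b (a (l 16897432) (l 17257072)) (a (a (l 16765480) (l 16899608)) (l 17032280)))) (b (a (l 16654160) (b (l 16980464) (l 16817504))) (a (b (l 16655960) (l 16652784)) (b (l 16713208) (l 16651568)))))))),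 by decide +kernel⟩

def k14_pm_012 : ∃ t, chk3 f_pm_012 t 9 3 1 = true :=
  ⟨(b (a (l 18973896) (l 19030624)) (b (a (a (l 19033592) (l 19192728)) (l 19321968)) (a (b (a (b (l 18985080) (l 18898360)) (l 19235000)) (a (b (a (b (l 18649632) (l 18496416)) (l 18842576)) (b (a (c (l 18551416) (b (l 18072208) (l 17664544))) (l 18625912)) (a (c (b (l 18356304) (a (l 18037912) (l 18307208))) (b (a (c (l 17760408) (b (l 17496072) (l 17313096))) (l 17848656)) (a (c (b (l 17589768) (l 17250632)) (b (a (l 17019216) (l 17318248)) (a (c (l 16895552) (b (l 16919624) (l 16689936))) (b (l 17214112) (l 17035280))))) (c (l 17804984) (b (l 17530704) (l 17217872)))))) (c (l 18690336) (b (l 18176968) (a (l 17873280) (l 18123944))))))) (b (l 19157000) (b (l 19046472) (a (l 18763152) (l 19065136)))))) (b (l 19503224) (b (l 19575368) (l 19588688)))))), by decide +kernel⟩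

def k15_pm_012 : ∃ t, chk3 f_pm_012 t 5 3 1 = true :=
  ⟨(b (a (l 19014296) (l 18917168)) (b (a (l 19431224) (l 19387848)) (a (a (l 19801152) (l 19897624)) (l 19875600)))), by decide +kernel⟩

def k16_pm_012 : ∃ t, chk3 f_pm_012 t 3 1 1 = true :=
  ⟨(b (a (b (l 2) (l 18371336)) (l 2)) (a (b (l 18720624) (a (l 19454312) (l 19270376))) (b (l 18569120) (l 19043640)))), by decide +kernel⟩

theorem s17_pm_012 : ∃ t, chk3 f_pm_012 t 35 127 1 = true := ex3_a k12_pm_012 k13_pm_012

theorem s18_pm_012 : ∃ t, chk3 f_pm_012 t 35 63 1 = true := ex3_b k11_pm_012 s17_pm_012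

theorem s19_pm_012 : ∃ t, chk3 f_pm_012 t 35 31 1 = true := ex3_b k10_pm_012 s18_pm_012

theorem s20_pm_012 : ∃ t, chk3 f_pm_012 t 34 31 1 = true := ex3_b k8_pm_012 k9_pm_012

theorem s21_pm_012 : ∃ t, chk3 f_pm_012 t 17 31 1 = true := ex3_a s20_pm_012 s19_pm_012

theorem s22_pm_012 : ∃ t, chk3 f_pm_012 t 17 15 1 = true := ex3_b k7_pm_012 s21_pm_012

theorem s23_pm_012 : ∃ t, chk3 f_pm_012 t 17 7 1 = true := ex3_b k6_pm_012 s22_pm_012

theorem s24_pm_012 : ∃ t, chk3 f_pm_012 t 17 3 1 = true := ex3_b k5_pm_012 s23_pm_012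

theorem s25_pm_012 : ∃ t, chk3 f_pm_012 t 32 7 1 = true := ex3_b k2_pm_012 k3_pm_012

theorem s26_pm_012 : ∃ t, chk3 f_pm_012 t 32 3 1 = true := ex3_b k1_pm_012 s25_pm_012

theorem s27_pm_012 : ∃ t, chk3 f_pm_012 t 16 3 1 = true := ex3_a s26_pm_012 k4_pm_012

theorem s28_pm_012 : ∃ t, chk3 f_pm_012 t 8 3 1 = true := ex3_a s27_pm_012 s24_pm_012

theorem s29_pm_012 : ∃ t, chk3 f_pm_012 t 4 3 1 = true := ex3_a s28_pm_012 k14_pm_012

theorem s30_pm_012 : ∃ t, chk3 f_pm_012 t 2 3 1 = true := ex3_a s29_pm_012 k15_pm_012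

theorem s31_pm_012 : ∃ t, chk3 f_pm_012 t 2 1 1 = true := ex3_b k0_pm_012 s30_pm_012

theorem s32_pm_012 : ∃ t, chk3 f_pm_012 t 1 1 1 = true := ex3_a s31_pm_012 k16_pm_012

theorem c_pm_012 : CertF 0 536870912 536870912 536870912 50331648 16777216 true true false .pnp 0 1 2
    ndF0q0 ndF3q1 pcF2 cut_pm_012 Ext.none :=
  certFK2 (fam := true) (s1 := true) (s2 := false) (a := 0) (b := 1) (c := 2) (cn := .pnp) (n1 := ndF0q0) (n2 := ndF3q1) (pc := pcF2) (cut := cut_pm_012) (xt := Ext.none) (P1 := 0) (W1 := 536870912) (P2 := 536870912) (W2 := 536870912) (P3 := 50331648) (W3 := 16777216)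
    rfl rfl rfl (fun _ => rfl) s32_pm_012

noncomputable def f_pm_022 : ℕ → ℕ → ℕ → ℕ → Bool := onCell 0 536870912 1073741824 536870912 50331648 16777216
    (rowFK 1 true true false .pp 0 2 2 (qsf 0 536870912 1073741824 536870912 2) ndF0q0 ndF3q2 pcF2 Cut.none Ext.none)

def k0_pm_022 : ∃ t, chk3 f_pm_022 t 1 1 1 = true :=
  ⟨(b (b (l 3) (a (b (b (b (l 3) (b (a (l 18583136) (l 3)) (b (a (l 18616392) (l 78958055559)) (a (a (l 18752904) (l 18554496)) (b (l 78421182375) (l 77884309991)))))) (a (l 18698160) (a (l 18634848) (l 18922592)))) (a (l 18748736) (l 18704520))) (b (l 1) (a (l 335583042375) (l 1))))) (a (b (a (l 18637824) (l 18506600)) (a (b (l 18468384) (l 18309680)) (l 18190984))) (a (b (l 210491569527) (l 18188480)) (b (l 317329525975) (l 18524608))))), by decide +kernel⟩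

theorem c_pm_022 : CertF 0 536870912 1073741824 536870912 50331648 16777216 true true false .pp 0 2 2
    ndF0q0 ndF3q2 pcF2 Cut.none Ext.none :=
  certFK1 (fam := true) (s1 := true) (s2 := false) (a := 0) (b := 2) (c := 2) (cn := .pp) (n1 := ndF0q0) (n2 := ndF3q2) (pc := pcF2) (cut := Cut.none) (xt := Ext.none) (P1 := 0) (W1 := 536870912) (P2 := 1073741824) (W2 := 536870912) (P3 := 50331648) (W3 := 16777216)
    rfl rfl rfl (fun _ => rfl) k0_pm_022

noncomputable def f_pm_023 : ℕ → ℕ → ℕ → ℕ → Bool := onCell 1610612736 536870912 1073741824 536870912 50331648 16777216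
    (rowFK 2 true true false .up 0 2 3 (qsf 0 536870912 1073741824 536870912 3) ndF0q0 ndF3q2 pcF3 Cut.none Ext.none)

def k0_pm_023 : ∃ t, chk3 f_pm_023 t 1 1 1 = true :=
  ⟨(a (b (b (a (l 18148088) (l 17862368)) (a (l 17771776) (l 17382728))) (a (b (l 17816616) (l 17958864)) (b (b (l 17353744) (l 17411392)) (a (l 17585696) (l 17842472))))) (b (a (b (l 2) (a (l 17086232) (l 2))) (l 2)) (b (a (b (l 16948720) (a (l 17116288) (l 17251288))) (a (b (l 2) (l 17363048)) (l 2))) (a (a (l 17962664) (l 17954568)) (a (b (l 17790456) (l 17522416)) (a (l 17314920) (a (l 17228824) (a (l 17164672) (a (l 17109688) (l 17067776)))))))))), by decide +kernel⟩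

theorem c_pm_023 : CertF 0 536870912 1073741824 536870912 50331648 16777216 true true false .up 0 2 3
    ndF0q0 ndF3q2 pcF3 Cut.none Ext.none :=
  certFK2 (fam := true) (s1 := true) (s2 := false) (a := 0) (b := 2) (c := 3) (cn := .up) (n1 := ndF0q0) (n2 := ndF3q2) (pc := pcF3) (cut := Cut.none) (xt := Ext.none) (P1 := 0) (W1 := 536870912) (P2 := 1073741824) (W2 := 536870912) (P3 := 50331648) (W3 := 16777216)
    rfl rfl rfl (fun _ => rfl) k0_pm_023

noncomputable def f_pm_033 : ℕ → ℕ → ℕ → ℕ → Bool := onCell 1610612736 536870912 0 1230186008 50331648 16777216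
    (rowFK 2 true true false .pnn 0 3 3 (qsf 0 536870912 0 1230186008 3) ndF0q0 ndF3q3 pcF3 Cut.none Ext.none)

def k0_pm_033 : ∃ t, chk3 f_pm_033 t 1 1 1 = true :=
  ⟨(a (b (l 1) (b (a (l 1) (a (l 1) (b (l 1) (l 18594992)))) (a (b (l 1) (b (l 19253648) (l 19432448))) (b (a (l 19403936) (l 19332160)) (b (l 19763832) (l 19747296)))))) (b (a (l 1) (l 4)) (a (b (a (b (l 1) (l 18008624)) (b (l 17538040) (l 17458800))) (b (a (l 18965872) (b (l 18174800) (l 18738640))) (a (l 19840560) (b (l 19178392) (l 19712528))))) (b (a (b (l 17351208) (l 17276160)) (l 4)) (b (a (l 18033240) (a (l 17885160) (l 4))) (a (b (l 18998824) (l 19290088)) (a (l 18832640) (a (l 18610976) (a (l 18558608) (l 4)))))))))), by decide +kernel⟩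

theorem c_pm_033 : CertF 0 536870912 0 1230186008 50331648 16777216 true true false .pnn 0 3 3
    ndF0q0 ndF3q3 pcF3 Cut.none Ext.none :=
  certFK2 (fam := true) (s1 := true) (s2 := false) (a := 0) (b := 3) (c := 3) (cn := .pnn) (n1 := ndF0q0) (n2 := ndF3q3) (pc := pcF3) (cut := Cut.none) (xt := Ext.none) (P1 := 0) (W1 := 536870912) (P2 := 0) (W2 := 1230186008) (P3 := 50331648) (W3 := 16777216)
    rfl rfl rfl (fun _ => rfl) k0_pm_033

noncomputable def f_pm_101 : ℕ → ℕ → ℕ → ℕ → Bool := onCell 536870912 536870912 0 536870912 50331648 16777216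
    (rowFK 2 true true false .npn 1 0 1 (qsf 536870912 536870912 0 536870912 1) ndF0q1 ndF3q0 pcF1 Cut.none Ext.none)

def k0_pm_101 : ∃ t, chk3 f_pm_101 t 1 1 1 = true :=
  ⟨(a (l 3) (b (a (b (l 3) (l 3)) (b (a (b (a (a (b (a (l 147277993879) (l 20663200)) (l 20249544)) (l 20863304)) (l 20971816)) (a (l 184857853031) (l 20086592))) (b (a (l 21183496) (l 21457904)) (l 20510816))) (a (b (a (l 19146384) (l 19311568)) (l 199350754551)) (b (l 19706512) (l 18933136))))) (a (l 3) (b (a (b (l 199886367927) (l 187537305319)) (b (l 18229504) (l 17613136))) (a (b (b (l 17802016) (l 197201698119)) (l 407521821991)) (b (l 17748456) (l 342023543399))))))), by decide +kernel⟩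

theorem c_pm_101 : CertF 536870912 536870912 0 536870912 50331648 16777216 true true false .npn 1 0 1
    ndF0q1 ndF3q0 pcF1 Cut.none Ext.none :=
  certFK2 (fam := true) (s1 := true) (s2 := false) (a := 1) (b := 0) (c := 1) (cn := .npn) (n1 := ndF0q1) (n2 := ndF3q0) (pc := pcF1) (cut := Cut.none) (xt := Ext.none) (P1 := 536870912) (W1 := 536870912) (P2 := 0) (W2 := 536870912) (P3 := 50331648) (W3 := 16777216)
    rfl rfl rfl (fun _ => rfl) k0_pm_101

noncomputable def f_pm_102 : ℕ → ℕ → ℕ → ℕ → Bool := onCell 536870912 536870912 1073741824 536870912 50331648 16777216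
    (rowFK 1 true true false .npp 1 0 2 (qsf 536870912 536870912 0 536870912 2) ndF0q1 ndF3q0 pcF2 Cut.none Ext.none)

def k0_pm_102 : ∃ t, chk3 f_pm_102 t 1 1 1 = true :=
  ⟨(a (b (b (b (b (b (a (a (l 18041016) (l 17418176)) (l 18127944)) (a (a (l 18117808) (l 17520352)) (l 17991504))) (a (l 308267410455) (l 17762176))) (a (l 138616604247) (a (l 17343304) (l 17250040)))) (a (l 18342648) (a (l 17851872) (l 17400496)))) (b (a (l 2) (l 18019440)) (l 2))) (b (a (b (b (b (b (l 19433224) (l 19189384)) (l 18940280)) (a (b (l 18078736) (l 17609752)) (l 18501264))) (b (a (l 16960440) (l 17554152)) (l 17291080))) (b (b (b (b (l 21066776) (l 20794376)) (l 20612976)) (a (l 19221224) (l 19988344))) (b (a (l 18219880) (l 18942904)) (a (l 17471136) (l 18107224))))) (a (b (l 86002624071) (l 18243896)) (b (a (l 17810984) (l 17671168)) (l 18295072))))), by decide +kernel⟩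

theorem c_pm_102 : CertF 536870912 536870912 0 536870912 50331648 16777216 true true false .npp 1 0 2
    ndF0q1 ndF3q0 pcF2 Cut.none Ext.none :=
  certFK1 (fam := true) (s1 := true) (s2 := false) (a := 1) (b := 0) (c := 2) (cn := .npp) (n1 := ndF0q1) (n2 := ndF3q0) (pc := pcF2) (cut := Cut.none) (xt := Ext.none) (P1 := 536870912) (W1 := 536870912) (P2 := 0) (W2 := 536870912) (P3 := 50331648) (W3 := 16777216)
    rfl rfl rfl (fun _ => rfl) k0_pm_102

noncomputable def f_pm_112 : ℕ → ℕ → ℕ → ℕ → Bool := onCell 536870912 536870912 1073741824 536870912 50331648 16777216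
    (rowFK 1 true true false .dn 1 1 2 (qsf 536870912 536870912 536870912 536870912 2) ndF0q1 ndF3q1 pcF2 Cut.none Ext.none)

def k0_pm_112 : ∃ t, chk3 f_pm_112 t 1 1 1 = true :=
  ⟨(a (b (b (b (b (b (l 18948568) (a (l 18737056) (l 1))) (l 19013416)) (a (l 18721264) (l 18683912))) (l 18701232)) (b (l 18356792) (l 18549248))) (b (b (l 1) (l 348466434743)) (b (a (l 18139368) (l 18179624)) (a (l 18214768) (l 18286000))))), by decide +kernel⟩

theorem c_pm_112 : CertF 536870912 536870912 536870912 536870912 50331648 16777216 true true false .dn 1 1 2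
    ndF0q1 ndF3q1 pcF2 Cut.none Ext.none :=
  certFK1 (fam := true) (s1 := true) (s2 := false) (a := 1) (b := 1) (c := 2) (cn := .dn) (n1 := ndF0q1) (n2 := ndF3q1) (pc := pcF2) (cut := Cut.none) (xt := Ext.none) (P1 := 536870912) (W1 := 536870912) (P2 := 536870912) (W2 := 536870912) (P3 := 50331648) (W3 := 16777216)
    rfl rfl rfl (fun _ => rfl) k0_pm_112

noncomputable def f_pm_113 : ℕ → ℕ → ℕ → ℕ → Bool := onCell 536870912 536870912 1610612736 536870912 50331648 16777216
    (rowFK 1 true true false .nn 1 1 3 (qsf 536870912 536870912 536870912 536870912 3) ndF0q1 ndF3q1 pcF3 Cut.none Ext.none)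

def k0_pm_113 : ∃ t, chk3 f_pm_113 t 1 1 1 = true :=
  ⟨(a (b (b (a (l 18659360) (b (l 18607912) (l 18095008))) (a (b (l 18333432) (l 2)) (l 18272424))) (b (b (a (l 2) (l 18991672)) (l 2)) (l 2))) (b (b (a (l 17911736) (b (l 17661232) (l 18041112))) (a (l 18256448) (b (l 18295464) (l 18391832)))) (b (b (l 18163624) (l 18183128)) (l 4)))), by decide +kernel⟩

theorem c_pm_113 : CertF 536870912 536870912 536870912 536870912 50331648 16777216 true true false .nn 1 1 3
    ndF0q1 ndF3q1 pcF3 Cut.none Ext.none :=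
  certFK1 (fam := true) (s1 := true) (s2 := false) (a := 1) (b := 1) (c := 3) (cn := .nn) (n1 := ndF0q1) (n2 := ndF3q1) (pc := pcF3) (cut := Cut.none) (xt := Ext.none) (P1 := 536870912) (W1 := 536870912) (P2 := 536870912) (W2 := 536870912) (P3 := 50331648) (W3 := 16777216)
    rfl rfl rfl (fun _ => rfl) k0_pm_113

noncomputable def f_pm_123 : ℕ → ℕ → ℕ → ℕ → Bool := onCell 536870912 536870912 1610612736 536870912 50331648 16777216
    (rowFK 1 true true false .npn 1 2 3 (qsf 536870912 536870912 1073741824 536870912 3) ndF0q1 ndF3q2 pcF3 Cut.none Ext.none)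

def k0_pm_123 : ∃ t, chk3 f_pm_123 t 1 1 1 = true :=
  ⟨(b (a (a (b (l 18211224) (l 17495192)) (b (l 260957429655) (l 18005024))) (b (l 1) (a (a (l 512211579447) (l 1)) (l 1)))) (b (a (a (b (l 17061248) (a (l 17124608) (l 16855352))) (b (l 17241568) (a (l 16894384) (a (l 16944552) (l 16961808))))) (a (a (b (a (l 17324136) (l 17225160)) (a (l 17404104) (l 17746360))) (b (l 240553919319) (l 17713480))) (b (l 1) (a (l 17485064) (l 1))))) (a (b (a (a (l 17569696) (b (l 17070960) (l 17290976))) (a (l 16930568) (b (l 17187920) (l 17327912)))) (b (a (l 17605160) (a (l 17054184) (l 17327456))) (a (b (l 17237312) (b (l 17175048) (b (l 17127280) (l 17070240)))) (b (l 17315616) (b (l 17164768) (b (l 17178576) (a (l 17161992) (l 17229848)))))))) (b (a (a (l 17691520) (b (l 17674528) (l 17397400))) (b (a (l 17168920) (l 1)) (a (a (l 17090672) (l 16930672)) (l 17184208)))) (b (a (l 17656920) (l 16922816)) (b (a (l 17240056) (l 16863488)) (b (a (l 17191584) (l 16844520))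 (a (b (l 17154712) (l 17106360)) (l 4))))))))), by decide +kernel⟩

theorem c_pm_123 : CertF 536870912 536870912 1073741824 536870912 50331648 16777216 true true false .npn 1 2 3
    ndF0q1 ndF3q2 pcF3 Cut.none Ext.none :=
  certFK1 (fam := true) (s1 := true) (s2 := false) (a := 1) (b := 2) (c := 3) (cn := .npn) (n1 := ndF0q1) (n2 := ndF3q2) (pc := pcF3) (cut := Cut.none) (xt := Ext.none) (P1 := 536870912) (W1 := 536870912) (P2 := 1073741824) (W2 := 536870912) (P3 := 50331648) (W3 := 16777216)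
    rfl rfl rfl (fun _ => rfl) k0_pm_123

noncomputable def f_pm_133 : ℕ → ℕ → ℕ → ℕ → Bool := onCell 536870912 536870912 0 1230186008 50331648 16777216
    (rowFK 0 true true false .dn 1 3 3 (qsf 536870912 536870912 0 1230186008 3) ndF0q1 ndF3q3 pcF3 Cut.none Ext.none)

def k0_pm_133 : ∃ t, chk3 f_pm_133 t 1 1 1 = true :=
  ⟨(b (l 2) (b (l 2) (a (b (l 2) (a (l 4) (l 2))) (l 2)))), by decide +kernel⟩

theorem c_pm_133 : CertF 536870912 536870912 0 1230186008 50331648 16777216 true true false .dn 1 3 3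
    ndF0q1 ndF3q3 pcF3 Cut.none Ext.none :=
  certFK0 (fam := true) (s1 := true) (s2 := false) (a := 1) (b := 3) (c := 3) (cn := .dn) (n1 := ndF0q1) (n2 := ndF3q3) (pc := pcF3) (cut := Cut.none) (xt := Ext.none) (P1 := 536870912) (W1 := 536870912) (P2 := 0) (W2 := 1230186008) (P3 := 50331648) (W3 := 16777216)
    rfl rfl rfl k0_pm_133

noncomputable def f_pm_202 : ℕ → ℕ → ℕ → ℕ → Bool := onCell 0 536870912 0 536870912 50331648 16777216
    (rowFK 0 true true false .pp 2 0 2 (qsf 0 536870912 0 536870912 2) ndF0q2 ndF3q0 pcF2 Cut.none Ext.none)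

def k0_pm_202 : ∃ t, chk3 f_pm_202 t 1 1 1 = true :=
  ⟨(a (b (b (b (l 21096048) (l 20336880)) (b (l 19550704) (l 18760392))) (b (a (l 4) (l 17749072)) (l 4))) (b (b (a (l 20661432) (b (a (l 21109824) (b (a (l 21511344) (b (a (l 21738920) (l 21847488)) (l 21512808))) (l 21048808))) (l 20219840))) (a (l 19008544) (l 19124944))) (b (a (l 17935600) (b (l 17843024) (l 17541936))) (a (l 18129336) (l 18042128))))), by decide +kernel⟩

theorem c_pm_202 : CertF 0 536870912 0 536870912 50331648 16777216 true true false .pp 2 0 2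
    ndF0q2 ndF3q0 pcF2 Cut.none Ext.none :=
  certFK0 (fam := true) (s1 := true) (s2 := false) (a := 2) (b := 0) (c := 2) (cn := .pp) (n1 := ndF0q2) (n2 := ndF3q0) (pc := pcF2) (cut := Cut.none) (xt := Ext.none) (P1 := 0) (W1 := 536870912) (P2 := 0) (W2 := 536870912) (P3 := 50331648) (W3 := 16777216)
    rfl rfl rfl k0_pm_202

noncomputable def f_pm_203 : ℕ → ℕ → ℕ → ℕ → Bool := onCell 0 536870912 1610612736 536870912 50331648 16777216
    (rowFK 1 true true false .up 2 0 3 (qsf 0 536870912 0 536870912 3) ndF0q2 ndF3q0 pcF3 Cut.none Ext.none)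

def k0_pm_203 : ∃ t, chk3 f_pm_203 t 1 1 1 = true :=
  ⟨(a (l 4) (b (b (b (l 18203320) (l 18467976)) (b (l 4) (l 2))) (l 2))), by decide +kernel⟩

theorem c_pm_203 : CertF 0 536870912 0 536870912 50331648 16777216 true true false .up 2 0 3
    ndF0q2 ndF3q0 pcF3 Cut.none Ext.none :=
  certFK1 (fam := true) (s1 := true) (s2 := false) (a := 2) (b := 0) (c := 3) (cn := .up) (n1 := ndF0q2) (n2 := ndF3q0) (pc := pcF3) (cut := Cut.none) (xt := Ext.none) (P1 := 0) (W1 := 536870912) (P2 := 0) (W2 := 536870912) (P3 := 50331648) (W3 := 16777216)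
    rfl rfl rfl (fun _ => rfl) k0_pm_203

noncomputable def f_pm_213 : ℕ → ℕ → ℕ → ℕ → Bool := onCell 0 536870912 1610612736 536870912 50331648 16777216
    (rowFK 1 true true false .pnn 2 1 3 (qsf 0 536870912 536870912 536870912 3) ndF0q2 ndF3q1 pcF3 Cut.none Ext.none)

def k0_pm_213 : ∃ t, chk3 f_pm_213 t 1 1 1 = true :=
  ⟨(a (l 4) (b (b (b (l 18307816) (l 18347528)) (b (l 4) (l 4))) (l 4))), by decide +kernel⟩

theorem c_pm_213 : CertF 0 536870912 536870912 536870912 50331648 16777216 true true false .pnn 2 1 3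
    ndF0q2 ndF3q1 pcF3 Cut.none Ext.none :=
  certFK1 (fam := true) (s1 := true) (s2 := false) (a := 2) (b := 1) (c := 3) (cn := .pnn) (n1 := ndF0q2) (n2 := ndF3q1) (pc := pcF3) (cut := Cut.none) (xt := Ext.none) (P1 := 0) (W1 := 536870912) (P2 := 536870912) (W2 := 536870912) (P3 := 50331648) (W3 := 16777216)
    rfl rfl rfl (fun _ => rfl) k0_pm_213

noncomputable def f_mm_001 : ℕ → ℕ → ℕ → ℕ → Bool := onCell 0 536870912 0 536870912 50331648 16777216
    (rowFK 0 true false false .up 0 0 1 (qsf 0 536870912 0 536870912 1) ndF0q0 ndF3q0 pcF1 Cut.none Ext.none)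

def k0_mm_001 : ∃ t, chk3 f_mm_001 t 1 1 1 = true :=
  ⟨(l 4), by decide +kernel⟩

theorem c_mm_001 : CertF 0 536870912 0 536870912 50331648 16777216 true false false .up 0 0 1
    ndF0q0 ndF3q0 pcF1 Cut.none Ext.none :=
  certFK0 (fam := true) (s1 := false) (s2 := false) (a := 0) (b := 0) (c := 1) (cn := .up) (n1 := ndF0q0) (n2 := ndF3q0) (pc := pcF1) (cut := Cut.none) (xt := Ext.none) (P1 := 0) (W1 := 536870912) (P2 := 0) (W2 := 536870912) (P3 := 50331648) (W3 := 16777216)
    rfl rfl rfl k0_mm_001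

noncomputable def f_mm_011 : ℕ → ℕ → ℕ → ℕ → Bool := onCell 0 536870912 536870912 536870912 50331648 16777216
    (rowFK 0 true false false .pnn 0 1 1 (qsf 0 536870912 536870912 536870912 1) ndF0q0 ndF3q1 pcF1 Cut.none Ext.none)

def k0_mm_011 : ∃ t, chk3 f_mm_011 t 1 1 1 = true :=
  ⟨(l 4), by decide +kernel⟩

theorem c_mm_011 : CertF 0 536870912 536870912 536870912 50331648 16777216 true false false .pnn 0 1 1
    ndF0q0 ndF3q1 pcF1 Cut.none Ext.none :=
  certFK0 (fam := true) (s1 := false) (s2 := false) (a := 0) (b := 1) (c := 1) (cn := .pnn) (n1 := ndF0q0) (n2 := ndF3q1) (pc := pcF1) (cut := Cut.none) (xt := Ext.none) (P1 := 0) (W1 := 536870912) (P2 := 536870912) (W2 := 536870912) (P3 := 50331648) (W3 := 16777216)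
    rfl rfl rfl k0_mm_011

noncomputable def f_mm_012 : ℕ → ℕ → ℕ → ℕ → Bool := onCell 0 536870912 536870912 536870912 50331648 16777216
    (rowFK 0 true false false .pnp 0 1 2 (qsf 0 536870912 536870912 536870912 2) ndF0q0 ndF3q1 pcF2 Cut.none Ext.none)

def k0_mm_012 : ∃ t, chk3 f_mm_012 t 1 1 1 = true :=
  ⟨(l 4), by decide +kernel⟩

theorem c_mm_012 : CertF 0 536870912 536870912 536870912 50331648 16777216 true false false .pnp 0 1 2
    ndF0q0 ndF3q1 pcF2 Cut.none Ext.none :=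
  certFK0 (fam := true) (s1 := false) (s2 := false) (a := 0) (b := 1) (c := 2) (cn := .pnp) (n1 := ndF0q0) (n2 := ndF3q1) (pc := pcF2) (cut := Cut.none) (xt := Ext.none) (P1 := 0) (W1 := 536870912) (P2 := 536870912) (W2 := 536870912) (P3 := 50331648) (W3 := 16777216)
    rfl rfl rfl k0_mm_012

noncomputable def f_mm_022 : ℕ → ℕ → ℕ → ℕ → Bool := onCell 0 536870912 1073741824 536870912 50331648 16777216
    (rowFK 0 true false false .pp 0 2 2 (qsf 0 536870912 1073741824 536870912 2) ndF0q0 ndF3q2 pcF2 Cut.none Ext.none)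

def k0_mm_022 : ∃ t, chk3 f_mm_022 t 1 1 1 = true :=
  ⟨(l 4), by decide +kernel⟩

theorem c_mm_022 : CertF 0 536870912 1073741824 536870912 50331648 16777216 true false false .pp 0 2 2
    ndF0q0 ndF3q2 pcF2 Cut.none Ext.none :=
  certFK0 (fam := true) (s1 := false) (s2 := false) (a := 0) (b := 2) (c := 2) (cn := .pp) (n1 := ndF0q0) (n2 := ndF3q2) (pc := pcF2) (cut := Cut.none) (xt := Ext.none) (P1 := 0) (W1 := 536870912) (P2 := 1073741824) (W2 := 536870912) (P3 := 50331648) (W3 := 16777216)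
    rfl rfl rfl k0_mm_022

noncomputable def f_mm_023 : ℕ → ℕ → ℕ → ℕ → Bool := onCell 0 536870912 1073741824 536870912 50331648 16777216
    (rowFK 0 true false false .up 0 2 3 (qsf 0 536870912 1073741824 536870912 3) ndF0q0 ndF3q2 pcF3 Cut.none Ext.none)

def k0_mm_023 : ∃ t, chk3 f_mm_023 t 1 1 1 = true :=
  ⟨(l 4), by decide +kernel⟩

theorem c_mm_023 : CertF 0 536870912 1073741824 536870912 50331648 16777216 true false false .up 0 2 3
    ndF0q0 ndF3q2 pcF3 Cut.none Ext.none :=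
  certFK0 (fam := true) (s1 := false) (s2 := false) (a := 0) (b := 2) (c := 3) (cn := .up) (n1 := ndF0q0) (n2 := ndF3q2) (pc := pcF3) (cut := Cut.none) (xt := Ext.none) (P1 := 0) (W1 := 536870912) (P2 := 1073741824) (W2 := 536870912) (P3 := 50331648) (W3 := 16777216)
    rfl rfl rfl k0_mm_023

noncomputable def f_mm_033 : ℕ → ℕ → ℕ → ℕ → Bool := onCell 0 536870912 0 1230186008 50331648 16777216
    (rowFK 0 true false false .pnn 0 3 3 (qsf 0 536870912 0 1230186008 3) ndF0q0 ndF3q3 pcF3 Cut.none Ext.none)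

def k0_mm_033 : ∃ t, chk3 f_mm_033 t 1 1 1 = true :=
  ⟨(l 5), by decide +kernel⟩

theorem c_mm_033 : CertF 0 536870912 0 1230186008 50331648 16777216 true false false .pnn 0 3 3
    ndF0q0 ndF3q3 pcF3 Cut.none Ext.none :=
  certFK0 (fam := true) (s1 := false) (s2 := false) (a := 0) (b := 3) (c := 3) (cn := .pnn) (n1 := ndF0q0) (n2 := ndF3q3) (pc := pcF3) (cut := Cut.none) (xt := Ext.none) (P1 := 0) (W1 := 536870912) (P2 := 0) (W2 := 1230186008) (P3 := 50331648) (W3 := 16777216)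
    rfl rfl rfl k0_mm_033

noncomputable def f_mm_101 : ℕ → ℕ → ℕ → ℕ → Bool := onCell 536870912 536870912 0 536870912 50331648 16777216
    (rowFK 0 true false false .npn 1 0 1 (qsf 536870912 536870912 0 536870912 1) ndF0q1 ndF3q0 pcF1 Cut.none Ext.none)

def k0_mm_101 : ∃ t, chk3 f_mm_101 t 1 1 1 = true :=
  ⟨(l 4), by decide +kernel⟩

theorem c_mm_101 : CertF 536870912 536870912 0 536870912 50331648 16777216 true false false .npn 1 0 1
    ndF0q1 ndF3q0 pcF1 Cut.none Ext.none :=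
  certFK0 (fam := true) (s1 := false) (s2 := false) (a := 1) (b := 0) (c := 1) (cn := .npn) (n1 := ndF0q1) (n2 := ndF3q0) (pc := pcF1) (cut := Cut.none) (xt := Ext.none) (P1 := 536870912) (W1 := 536870912) (P2 := 0) (W2 := 536870912) (P3 := 50331648) (W3 := 16777216)
    rfl rfl rfl k0_mm_101

noncomputable def f_mm_102 : ℕ → ℕ → ℕ → ℕ → Bool := onCell 536870912 536870912 0 536870912 50331648 16777216
    (rowFK 0 true false false .npp 1 0 2 (qsf 536870912 536870912 0 536870912 2) ndF0q1 ndF3q0 pcF2 Cut.none Ext.none)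

def k0_mm_102 : ∃ t, chk3 f_mm_102 t 1 1 1 = true :=
  ⟨(l 4), by decide +kernel⟩

theorem c_mm_102 : CertF 536870912 536870912 0 536870912 50331648 16777216 true false false .npp 1 0 2
    ndF0q1 ndF3q0 pcF2 Cut.none Ext.none :=
  certFK0 (fam := true) (s1 := false) (s2 := false) (a := 1) (b := 0) (c := 2) (cn := .npp) (n1 := ndF0q1) (n2 := ndF3q0) (pc := pcF2) (cut := Cut.none) (xt := Ext.none) (P1 := 536870912) (W1 := 536870912) (P2 := 0) (W2 := 536870912) (P3 := 50331648) (W3 := 16777216)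
    rfl rfl rfl k0_mm_102

noncomputable def f_mm_112 : ℕ → ℕ → ℕ → ℕ → Bool := onCell 536870912 536870912 536870912 536870912 50331648 16777216
    (rowFK 0 true false false .dn 1 1 2 (qsf 536870912 536870912 536870912 536870912 2) ndF0q1 ndF3q1 pcF2 Cut.none Ext.none)

def k0_mm_112 : ∃ t, chk3 f_mm_112 t 1 1 1 = true :=
  ⟨(l 4), by decide +kernel⟩

theorem c_mm_112 : CertF 536870912 536870912 536870912 536870912 50331648 16777216 true false false .dn 1 1 2
    ndF0q1 ndF3q1 pcF2 Cut.none Ext.none :=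
  certFK0 (fam := true) (s1 := false) (s2 := false) (a := 1) (b := 1) (c := 2) (cn := .dn) (n1 := ndF0q1) (n2 := ndF3q1) (pc := pcF2) (cut := Cut.none) (xt := Ext.none) (P1 := 536870912) (W1 := 536870912) (P2 := 536870912) (W2 := 536870912) (P3 := 50331648) (W3 := 16777216)
    rfl rfl rfl k0_mm_112

noncomputable def f_mm_113 : ℕ → ℕ → ℕ → ℕ → Bool := onCell 536870912 536870912 536870912 536870912 50331648 16777216
    (rowFK 0 true false false .nn 1 1 3 (qsf 536870912 536870912 536870912 536870912 3) ndF0q1 ndF3q1 pcF3 Cut.none Ext.none)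

def k0_mm_113 : ∃ t, chk3 f_mm_113 t 1 1 1 = true :=
  ⟨(l 4), by decide +kernel⟩

theorem c_mm_113 : CertF 536870912 536870912 536870912 536870912 50331648 16777216 true false false .nn 1 1 3
    ndF0q1 ndF3q1 pcF3 Cut.none Ext.none :=
  certFK0 (fam := true) (s1 := false) (s2 := false) (a := 1) (b := 1) (c := 3) (cn := .nn) (n1 := ndF0q1) (n2 := ndF3q1) (pc := pcF3) (cut := Cut.none) (xt := Ext.none) (P1 := 536870912) (W1 := 536870912) (P2 := 536870912) (W2 := 536870912) (P3 := 50331648) (W3 := 16777216)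
    rfl rfl rfl k0_mm_113

noncomputable def f_mm_123 : ℕ → ℕ → ℕ → ℕ → Bool := onCell 536870912 536870912 1073741824 536870912 50331648 16777216
    (rowFK 0 true false false .npn 1 2 3 (qsf 536870912 536870912 1073741824 536870912 3) ndF0q1 ndF3q2 pcF3 Cut.none Ext.none)

def k0_mm_123 : ∃ t, chk3 f_mm_123 t 1 1 1 = true :=
  ⟨(l 4), by decide +kernel⟩

theorem c_mm_123 : CertF 536870912 536870912 1073741824 536870912 50331648 16777216 true false false .npn 1 2 3
    ndF0q1 ndF3q2 pcF3 Cut.none Ext.none :=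
  certFK0 (fam := true) (s1 := false) (s2 := false) (a := 1) (b := 2) (c := 3) (cn := .npn) (n1 := ndF0q1) (n2 := ndF3q2) (pc := pcF3) (cut := Cut.none) (xt := Ext.none) (P1 := 536870912) (W1 := 536870912) (P2 := 1073741824) (W2 := 536870912) (P3 := 50331648) (W3 := 16777216)
    rfl rfl rfl k0_mm_123

noncomputable def f_mm_133 : ℕ → ℕ → ℕ → ℕ → Bool := onCell 536870912 536870912 0 1230186008 50331648 16777216
    (rowFK 0 true false false .dn 1 3 3 (qsf 536870912 536870912 0 1230186008 3) ndF0q1 ndF3q3 pcF3 Cut.none Ext.none)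

def k0_mm_133 : ∃ t, chk3 f_mm_133 t 1 1 1 = true :=
  ⟨(l 4), by decide +kernel⟩

theorem c_mm_133 : CertF 536870912 536870912 0 1230186008 50331648 16777216 true false false .dn 1 3 3
    ndF0q1 ndF3q3 pcF3 Cut.none Ext.none :=
  certFK0 (fam := true) (s1 := false) (s2 := false) (a := 1) (b := 3) (c := 3) (cn := .dn) (n1 := ndF0q1) (n2 := ndF3q3) (pc := pcF3) (cut := Cut.none) (xt := Ext.none) (P1 := 536870912) (W1 := 536870912) (P2 := 0) (W2 := 1230186008) (P3 := 50331648) (W3 := 16777216)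
    rfl rfl rfl k0_mm_133

noncomputable def f_mm_202 : ℕ → ℕ → ℕ → ℕ → Bool := onCell 0 536870912 0 536870912 50331648 16777216
    (rowFK 0 true false false .pp 2 0 2 (qsf 0 536870912 0 536870912 2) ndF0q2 ndF3q0 pcF2 Cut.none Ext.none)

def k0_mm_202 : ∃ t, chk3 f_mm_202 t 1 1 1 = true :=
  ⟨(b (a (b (b (l 21250912) (l 20395480)) (l 4)) (l 4)) (l 4)), by decide +kernel⟩

theorem c_mm_202 : CertF 0 536870912 0 536870912 50331648 16777216 true false false .pp 2 0 2
    ndF0q2 ndF3q0 pcF2 Cut.none Ext.none :=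
  certFK0 (fam := true) (s1 := false) (s2 := false) (a := 2) (b := 0) (c := 2) (cn := .pp) (n1 := ndF0q2) (n2 := ndF3q0) (pc := pcF2) (cut := Cut.none) (xt := Ext.none) (P1 := 0) (W1 := 536870912) (P2 := 0) (W2 := 536870912) (P3 := 50331648) (W3 := 16777216)
    rfl rfl rfl k0_mm_202

noncomputable def f_mm_203 : ℕ → ℕ → ℕ → ℕ → Bool := onCell 0 536870912 1610612736 536870912 50331648 16777216
    (rowFK 1 true false false .up 2 0 3 (qsf 0 536870912 0 536870912 3) ndF0q2 ndF3q0 pcF3 Cut.none Ext.none)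

def k0_mm_203 : ∃ t, chk3 f_mm_203 t 1 1 1 = true :=
  ⟨(l 4), by decide +kernel⟩

theorem c_mm_203 : CertF 0 536870912 0 536870912 50331648 16777216 true false false .up 2 0 3
    ndF0q2 ndF3q0 pcF3 Cut.none Ext.none :=
  certFK1 (fam := true) (s1 := false) (s2 := false) (a := 2) (b := 0) (c := 3) (cn := .up) (n1 := ndF0q2) (n2 := ndF3q0) (pc := pcF3) (cut := Cut.none) (xt := Ext.none) (P1 := 0) (W1 := 536870912) (P2 := 0) (W2 := 536870912) (P3 := 50331648) (W3 := 16777216)
    rfl rfl rfl (fun _ => rfl) k0_mm_203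

noncomputable def f_mm_213 : ℕ → ℕ → ℕ → ℕ → Bool := onCell 0 536870912 536870912 536870912 50331648 16777216
    (rowFK 0 true false false .pnn 2 1 3 (qsf 0 536870912 536870912 536870912 3) ndF0q2 ndF3q1 pcF3 Cut.none Ext.none)

def k0_mm_213 : ∃ t, chk3 f_mm_213 t 1 1 1 = true :=
  ⟨(l 4), by decide +kernel⟩

theorem c_mm_213 : CertF 0 536870912 536870912 536870912 50331648 16777216 true false false .pnn 2 1 3
    ndF0q2 ndF3q1 pcF3 Cut.none Ext.none :=
  certFK0 (fam := true) (s1 := false) (s2 := false) (a := 2) (b := 1) (c := 3) (cn := .pnn) (n1 := ndF0q2) (n2 := ndF3q1) (pc := pcF3) (cut := Cut.none) (xt := Ext.none) (P1 := 0) (W1 := 536870912) (P2 := 536870912) (W2 := 536870912) (P3 := 50331648) (W3 := 16777216)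
    rfl rfl rfl k0_mm_213

end Pool.Agent.Strip051.G.I3_64_1_16.Tab.C.FA03

namespace Pool.Agent.Strip051.G.I3_64_1_16.Tab.C.FA04

open Pool.Agent.Strip051.PB Pool.Agent.Strip051.PB.T
open Pool.Agent.Strip051.G.I3_64_1_16.Tab

noncomputable def cut_pp_001 : Cut := Cut.of [[⟨3, 0, 0, 1449551462⟩]]

noncomputable def f_pp_001 : ℕ → ℕ → ℕ → ℕ → Bool := onCell 0 536870912 0 536870912 50331648 16777216
    (rowFK 0 true true true .up 0 0 1 (qsf 0 536870912 0 536870912 1) ndF0q0 ndF4q0 pcF1 cut_pp_001 Ext.none)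

def k0_pp_001 : ∃ t, chk3 f_pp_001 t 1 1 1 = true :=
  ⟨(l 4), by decide +kernel⟩

theorem c_pp_001 : CertF 0 536870912 0 536870912 50331648 16777216 true true true .up 0 0 1
    ndF0q0 ndF4q0 pcF1 cut_pp_001 Ext.none :=
  certFK0 (fam := true) (s1 := true) (s2 := true) (a := 0) (b := 0) (c := 1) (cn := .up) (n1 := ndF0q0) (n2 := ndF4q0) (pc := pcF1) (cut := cut_pp_001) (xt := Ext.none) (P1 := 0) (W1 := 536870912) (P2 := 0) (W2 := 536870912) (P3 := 50331648) (W3 := 16777216)
    rfl rfl rfl k0_pp_001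

noncomputable def cut_pp_011 : Cut := Cut.of [[⟨3, 0, 0, 1449551462⟩]]

noncomputable def f_pp_011 : ℕ → ℕ → ℕ → ℕ → Bool := onCell 0 536870912 536870912 536870912 50331648 16777216
    (rowFK 0 true true true .pnn 0 1 1 (qsf 0 536870912 536870912 536870912 1) ndF0q0 ndF4q1 pcF1 cut_pp_011 Ext.none)

def k0_pp_011 : ∃ t, chk3 f_pp_011 t 1 1 1 = true :=
  ⟨(l 4), by decide +kernel⟩

theorem c_pp_011 : CertF 0 536870912 536870912 536870912 50331648 16777216 true true true .pnn 0 1 1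
    ndF0q0 ndF4q1 pcF1 cut_pp_011 Ext.none :=
  certFK0 (fam := true) (s1 := true) (s2 := true) (a := 0) (b := 1) (c := 1) (cn := .pnn) (n1 := ndF0q0) (n2 := ndF4q1) (pc := pcF1) (cut := cut_pp_011) (xt := Ext.none) (P1 := 0) (W1 := 536870912) (P2 := 536870912) (W2 := 536870912) (P3 := 50331648) (W3 := 16777216)
    rfl rfl rfl k0_pp_011

noncomputable def cut_pp_012 : Cut := Cut.of [[⟨3, 0, 0, 1449551462⟩]]

noncomputable def f_pp_012 : ℕ → ℕ → ℕ → ℕ → Bool := onCell 0 536870912 536870912 536870912 50331648 16777216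
    (rowFK 0 true true true .pnp 0 1 2 (qsf 0 536870912 536870912 536870912 2) ndF0q0 ndF4q1 pcF2 cut_pp_012 Ext.none)

def k0_pp_012 : ∃ t, chk3 f_pp_012 t 1 1 1 = true :=
  ⟨(l 4), by decide +kernel⟩

theorem c_pp_012 : CertF 0 536870912 536870912 536870912 50331648 16777216 true true true .pnp 0 1 2
    ndF0q0 ndF4q1 pcF2 cut_pp_012 Ext.none :=
  certFK0 (fam := true) (s1 := true) (s2 := true) (a := 0) (b := 1) (c := 2) (cn := .pnp) (n1 := ndF0q0) (n2 := ndF4q1) (pc := pcF2) (cut := cut_pp_012) (xt := Ext.none) (P1 := 0) (W1 := 536870912) (P2 := 536870912) (W2 := 536870912) (P3 := 50331648) (W3 := 16777216)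
    rfl rfl rfl k0_pp_012

noncomputable def cut_pp_022 : Cut := Cut.of [[⟨3, 0, 0, 1449551462⟩]]

noncomputable def f_pp_022 : ℕ → ℕ → ℕ → ℕ → Bool := onCell 0 536870912 1073741824 536870912 50331648 16777216
    (rowFK 0 true true true .pp 0 2 2 (qsf 0 536870912 1073741824 536870912 2) ndF0q0 ndF4q2 pcF2 cut_pp_022 Ext.none)

def k0_pp_022 : ∃ t, chk3 f_pp_022 t 1 1 1 = true :=
  ⟨(l 4), by decide +kernel⟩

theorem c_pp_022 : CertF 0 536870912 1073741824 536870912 50331648 16777216 true true true .pp 0 2 2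
    ndF0q0 ndF4q2 pcF2 cut_pp_022 Ext.none :=
  certFK0 (fam := true) (s1 := true) (s2 := true) (a := 0) (b := 2) (c := 2) (cn := .pp) (n1 := ndF0q0) (n2 := ndF4q2) (pc := pcF2) (cut := cut_pp_022) (xt := Ext.none) (P1 := 0) (W1 := 536870912) (P2 := 1073741824) (W2 := 536870912) (P3 := 50331648) (W3 := 16777216)
    rfl rfl rfl k0_pp_022

noncomputable def cut_pp_023 : Cut := Cut.of [[⟨3, 0, 0, 1449551462⟩]]

noncomputable def f_pp_023 : ℕ → ℕ → ℕ → ℕ → Bool := onCell 0 536870912 1073741824 536870912 50331648 16777216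
    (rowFK 0 true true true .up 0 2 3 (qsf 0 536870912 1073741824 536870912 3) ndF0q0 ndF4q2 pcF3 cut_pp_023 Ext.none)

def k0_pp_023 : ∃ t, chk3 f_pp_023 t 1 1 1 = true :=
  ⟨(l 4), by decide +kernel⟩

theorem c_pp_023 : CertF 0 536870912 1073741824 536870912 50331648 16777216 true true true .up 0 2 3
    ndF0q0 ndF4q2 pcF3 cut_pp_023 Ext.none :=
  certFK0 (fam := true) (s1 := true) (s2 := true) (a := 0) (b := 2) (c := 3) (cn := .up) (n1 := ndF0q0) (n2 := ndF4q2) (pc := pcF3) (cut := cut_pp_023) (xt := Ext.none) (P1 := 0) (W1 := 536870912) (P2 := 1073741824) (W2 := 536870912) (P3 := 50331648) (W3 := 16777216)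
    rfl rfl rfl k0_pp_023

noncomputable def cut_pp_033 : Cut := Cut.of [[⟨3, 0, 0, 1449551462⟩]]

noncomputable def f_pp_033 : ℕ → ℕ → ℕ → ℕ → Bool := onCell 0 536870912 0 1230186008 50331648 16777216
    (rowFK 0 true true true .pnn 0 3 3 (qsf 0 536870912 0 1230186008 3) ndF0q0 ndF4q3 pcF3 cut_pp_033 Ext.none)

def k0_pp_033 : ∃ t, chk3 f_pp_033 t 1 1 1 = true :=
  ⟨(l 4), by decide +kernel⟩

theorem c_pp_033 : CertF 0 536870912 0 1230186008 50331648 16777216 true true true .pnn 0 3 3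
    ndF0q0 ndF4q3 pcF3 cut_pp_033 Ext.none :=
  certFK0 (fam := true) (s1 := true) (s2 := true) (a := 0) (b := 3) (c := 3) (cn := .pnn) (n1 := ndF0q0) (n2 := ndF4q3) (pc := pcF3) (cut := cut_pp_033) (xt := Ext.none) (P1 := 0) (W1 := 536870912) (P2 := 0) (W2 := 1230186008) (P3 := 50331648) (W3 := 16777216)
    rfl rfl rfl k0_pp_033

noncomputable def cut_pp_101 : Cut := Cut.of [[⟨3, 0, 0, 1449551462⟩]]

noncomputable def f_pp_101 : ℕ → ℕ → ℕ → ℕ → Bool := onCell 536870912 536870912 0 536870912 50331648 16777216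
    (rowFK 0 true true true .npn 1 0 1 (qsf 536870912 536870912 0 536870912 1) ndF0q1 ndF4q0 pcF1 cut_pp_101 Ext.none)

def k0_pp_101 : ∃ t, chk3 f_pp_101 t 1 1 1 = true :=
  ⟨(l 4), by decide +kernel⟩

theorem c_pp_101 : CertF 536870912 536870912 0 536870912 50331648 16777216 true true true .npn 1 0 1
    ndF0q1 ndF4q0 pcF1 cut_pp_101 Ext.none :=
  certFK0 (fam := true) (s1 := true) (s2 := true) (a := 1) (b := 0) (c := 1) (cn := .npn) (n1 := ndF0q1) (n2 := ndF4q0) (pc := pcF1) (cut := cut_pp_101) (xt := Ext.none) (P1 := 536870912) (W1 := 536870912) (P2 := 0) (W2 := 536870912) (P3 := 50331648) (W3 := 16777216)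
    rfl rfl rfl k0_pp_101

noncomputable def cut_pp_102 : Cut := Cut.of [[⟨3, 0, 0, 1449551462⟩]]

noncomputable def f_pp_102 : ℕ → ℕ → ℕ → ℕ → Bool := onCell 536870912 536870912 0 536870912 50331648 16777216
    (rowFK 0 true true true .npp 1 0 2 (qsf 536870912 536870912 0 536870912 2) ndF0q1 ndF4q0 pcF2 cut_pp_102 Ext.none)

def k0_pp_102 : ∃ t, chk3 f_pp_102 t 1 1 1 = true :=
  ⟨(l 4), by decide +kernel⟩

theorem c_pp_102 : CertF 536870912 536870912 0 536870912 50331648 16777216 true true true .npp 1 0 2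
    ndF0q1 ndF4q0 pcF2 cut_pp_102 Ext.none :=
  certFK0 (fam := true) (s1 := true) (s2 := true) (a := 1) (b := 0) (c := 2) (cn := .npp) (n1 := ndF0q1) (n2 := ndF4q0) (pc := pcF2) (cut := cut_pp_102) (xt := Ext.none) (P1 := 536870912) (W1 := 536870912) (P2 := 0) (W2 := 536870912) (P3 := 50331648) (W3 := 16777216)
    rfl rfl rfl k0_pp_102

noncomputable def cut_pp_112 : Cut := Cut.of [[⟨3, 0, 0, 1449551462⟩]]

noncomputable def f_pp_112 : ℕ → ℕ → ℕ → ℕ → Bool := onCell 536870912 536870912 536870912 536870912 50331648 16777216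
    (rowFK 0 true true true .dn 1 1 2 (qsf 536870912 536870912 536870912 536870912 2) ndF0q1 ndF4q1 pcF2 cut_pp_112 Ext.none)

def k0_pp_112 : ∃ t, chk3 f_pp_112 t 1 1 1 = true :=
  ⟨(l 4), by decide +kernel⟩

theorem c_pp_112 : CertF 536870912 536870912 536870912 536870912 50331648 16777216 true true true .dn 1 1 2
    ndF0q1 ndF4q1 pcF2 cut_pp_112 Ext.none :=
  certFK0 (fam := true) (s1 := true) (s2 := true) (a := 1) (b := 1) (c := 2) (cn := .dn) (n1 := ndF0q1) (n2 := ndF4q1) (pc := pcF2) (cut := cut_pp_112) (xt := Ext.none) (P1 := 536870912) (W1 := 536870912) (P2 := 536870912) (W2 := 536870912) (P3 := 50331648) (W3 := 16777216)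
    rfl rfl rfl k0_pp_112

noncomputable def cut_pp_113 : Cut := Cut.of [[⟨3, 0, 0, 1449551462⟩]]

noncomputable def f_pp_113 : ℕ → ℕ → ℕ → ℕ → Bool := onCell 536870912 536870912 536870912 536870912 50331648 16777216
    (rowFK 0 true true true .nn 1 1 3 (qsf 536870912 536870912 536870912 536870912 3) ndF0q1 ndF4q1 pcF3 cut_pp_113 Ext.none)

def k0_pp_113 : ∃ t, chk3 f_pp_113 t 1 1 1 = true :=
  ⟨(l 4), by decide +kernel⟩

theorem c_pp_113 : CertF 536870912 536870912 536870912 536870912 50331648 16777216 true true true .nn 1 1 3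
    ndF0q1 ndF4q1 pcF3 cut_pp_113 Ext.none :=
  certFK0 (fam := true) (s1 := true) (s2 := true) (a := 1) (b := 1) (c := 3) (cn := .nn) (n1 := ndF0q1) (n2 := ndF4q1) (pc := pcF3) (cut := cut_pp_113) (xt := Ext.none) (P1 := 536870912) (W1 := 536870912) (P2 := 536870912) (W2 := 536870912) (P3 := 50331648) (W3 := 16777216)
    rfl rfl rfl k0_pp_113

noncomputable def cut_pp_123 : Cut := Cut.of [[⟨3, 0, 0, 1449551462⟩]]

noncomputable def f_pp_123 : ℕ → ℕ → ℕ → ℕ → Bool := onCell 536870912 536870912 1073741824 536870912 50331648 16777216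
    (rowFK 0 true true true .npn 1 2 3 (qsf 536870912 536870912 1073741824 536870912 3) ndF0q1 ndF4q2 pcF3 cut_pp_123 Ext.none)

def k0_pp_123 : ∃ t, chk3 f_pp_123 t 1 1 1 = true :=
  ⟨(l 4), by decide +kernel⟩

theorem c_pp_123 : CertF 536870912 536870912 1073741824 536870912 50331648 16777216 true true true .npn 1 2 3
    ndF0q1 ndF4q2 pcF3 cut_pp_123 Ext.none :=
  certFK0 (fam := true) (s1 := true) (s2 := true) (a := 1) (b := 2) (c := 3) (cn := .npn) (n1 := ndF0q1) (n2 := ndF4q2) (pc := pcF3) (cut := cut_pp_123) (xt := Ext.none) (P1 := 536870912) (W1 := 536870912) (P2 := 1073741824) (W2 := 536870912) (P3 := 50331648) (W3 := 16777216)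
    rfl rfl rfl k0_pp_123

noncomputable def cut_pp_133 : Cut := Cut.of [[⟨3, 0, 0, 1449551462⟩]]

noncomputable def f_pp_133 : ℕ → ℕ → ℕ → ℕ → Bool := onCell 536870912 536870912 0 1230186008 50331648 16777216
    (rowFK 0 true true true .dn 1 3 3 (qsf 536870912 536870912 0 1230186008 3) ndF0q1 ndF4q3 pcF3 cut_pp_133 Ext.none)

def k0_pp_133 : ∃ t, chk3 f_pp_133 t 1 1 1 = true :=
  ⟨(l 4), by decide +kernel⟩

theorem c_pp_133 : CertF 536870912 536870912 0 1230186008 50331648 16777216 true true true .dn 1 3 3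
    ndF0q1 ndF4q3 pcF3 cut_pp_133 Ext.none :=
  certFK0 (fam := true) (s1 := true) (s2 := true) (a := 1) (b := 3) (c := 3) (cn := .dn) (n1 := ndF0q1) (n2 := ndF4q3) (pc := pcF3) (cut := cut_pp_133) (xt := Ext.none) (P1 := 536870912) (W1 := 536870912) (P2 := 0) (W2 := 1230186008) (P3 := 50331648) (W3 := 16777216)
    rfl rfl rfl k0_pp_133

noncomputable def cut_pp_202 : Cut := Cut.of [[⟨3, 0, 0, 1449551462⟩]]

noncomputable def f_pp_202 : ℕ → ℕ → ℕ → ℕ → Bool := onCell 0 536870912 0 536870912 50331648 16777216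
    (rowFK 0 true true true .pp 2 0 2 (qsf 0 536870912 0 536870912 2) ndF0q2 ndF4q0 pcF2 cut_pp_202 Ext.none)

def k0_pp_202 : ∃ t, chk3 f_pp_202 t 1 1 1 = true :=
  ⟨(l 4), by decide +kernel⟩

theorem c_pp_202 : CertF 0 536870912 0 536870912 50331648 16777216 true true true .pp 2 0 2
    ndF0q2 ndF4q0 pcF2 cut_pp_202 Ext.none :=
  certFK0 (fam := true) (s1 := true) (s2 := true) (a := 2) (b := 0) (c := 2) (cn := .pp) (n1 := ndF0q2) (n2 := ndF4q0) (pc := pcF2) (cut := cut_pp_202) (xt := Ext.none) (P1 := 0) (W1 := 536870912) (P2 := 0) (W2 := 536870912) (P3 := 50331648) (W3 := 16777216)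
    rfl rfl rfl k0_pp_202

noncomputable def cut_pp_203 : Cut := Cut.of [[⟨3, 0, 0, 1449551462⟩]]

noncomputable def f_pp_203 : ℕ → ℕ → ℕ → ℕ → Bool := onCell 0 536870912 0 536870912 50331648 16777216
    (rowFK 0 true true true .up 2 0 3 (qsf 0 536870912 0 536870912 3) ndF0q2 ndF4q0 pcF3 cut_pp_203 Ext.none)

def k0_pp_203 : ∃ t, chk3 f_pp_203 t 1 1 1 = true :=
  ⟨(l 4), by decide +kernel⟩

theorem c_pp_203 : CertF 0 536870912 0 536870912 50331648 16777216 true true true .up 2 0 3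
    ndF0q2 ndF4q0 pcF3 cut_pp_203 Ext.none :=
  certFK0 (fam := true) (s1 := true) (s2 := true) (a := 2) (b := 0) (c := 3) (cn := .up) (n1 := ndF0q2) (n2 := ndF4q0) (pc := pcF3) (cut := cut_pp_203) (xt := Ext.none) (P1 := 0) (W1 := 536870912) (P2 := 0) (W2 := 536870912) (P3 := 50331648) (W3 := 16777216)
    rfl rfl rfl k0_pp_203

noncomputable def cut_pp_213 : Cut := Cut.of [[⟨3, 0, 0, 1449551462⟩]]

noncomputable def f_pp_213 : ℕ → ℕ → ℕ → ℕ → Bool := onCell 0 536870912 536870912 536870912 50331648 16777216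
    (rowFK 0 true true true .pnn 2 1 3 (qsf 0 536870912 536870912 536870912 3) ndF0q2 ndF4q1 pcF3 cut_pp_213 Ext.none)

def k0_pp_213 : ∃ t, chk3 f_pp_213 t 1 1 1 = true :=
  ⟨(l 4), by decide +kernel⟩

theorem c_pp_213 : CertF 0 536870912 536870912 536870912 50331648 16777216 true true true .pnn 2 1 3
    ndF0q2 ndF4q1 pcF3 cut_pp_213 Ext.none :=
  certFK0 (fam := true) (s1 := true) (s2 := true) (a := 2) (b := 1) (c := 3) (cn := .pnn) (n1 := ndF0q2) (n2 := ndF4q1) (pc := pcF3) (cut := cut_pp_213) (xt := Ext.none) (P1 := 0) (W1 := 536870912) (P2 := 536870912) (W2 := 536870912) (P3 := 50331648) (W3 := 16777216)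
    rfl rfl rfl k0_pp_213

noncomputable def cut_pm_001 : Cut := Cut.of [[⟨3, 0, 0, 1449551462⟩]]

noncomputable def f_pm_001 : ℕ → ℕ → ℕ → ℕ → Bool := onCell 0 536870912 536870912 536870912 50331648 16777216
    (rowFK 1 true true false .up 0 0 1 (qsf 0 536870912 0 536870912 1) ndF0q0 ndF4q0 pcF1 cut_pm_001 Ext.none)

def k0_pm_001 : ∃ t, chk3 f_pm_001 t 1 1 1 = true :=
  ⟨(a (l 6) (b (l 6) (b (l 6) (a (l 6) (b (l 6) (l 18477832)))))), by decide +kernel⟩

theorem c_pm_001 : CertF 0 536870912 0 536870912 50331648 16777216 true true false .up 0 0 1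
    ndF0q0 ndF4q0 pcF1 cut_pm_001 Ext.none :=
  certFK1 (fam := true) (s1 := true) (s2 := false) (a := 0) (b := 0) (c := 1) (cn := .up) (n1 := ndF0q0) (n2 := ndF4q0) (pc := pcF1) (cut := cut_pm_001) (xt := Ext.none) (P1 := 0) (W1 := 536870912) (P2 := 0) (W2 := 536870912) (P3 := 50331648) (W3 := 16777216)
    rfl rfl rfl (fun _ => rfl) k0_pm_001

noncomputable def cut_pm_011 : Cut := Cut.of [[⟨3, 0, 0, 1449551462⟩], [⟨0, 0, 0, 16777216⟩, ⟨1, 1, 0, 16777216⟩, ⟨2, 1, 0, 16777216⟩]]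

noncomputable def f_pm_011 : ℕ → ℕ → ℕ → ℕ → Bool := onCell 0 536870912 536870912 536870912 50331648 16777216
    (rowFK 1 true true false .pnn 0 1 1 (qsf 0 536870912 536870912 536870912 1) ndF0q0 ndF4q1 pcF1 cut_pm_011 Ext.none)

def k0_pm_011 : ∃ t, chk3 f_pm_011 t 1 1 1 = true :=
  ⟨(b (l 6) (a (l 6) (b (l 6) (a (l 6) (b (l 6) (l 18389424)))))), by decide +kernel⟩

theorem c_pm_011 : CertF 0 536870912 536870912 536870912 50331648 16777216 true true false .pnn 0 1 1
    ndF0q0 ndF4q1 pcF1 cut_pm_011 Ext.none :=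
  certFK1 (fam := true) (s1 := true) (s2 := false) (a := 0) (b := 1) (c := 1) (cn := .pnn) (n1 := ndF0q0) (n2 := ndF4q1) (pc := pcF1) (cut := cut_pm_011) (xt := Ext.none) (P1 := 0) (W1 := 536870912) (P2 := 536870912) (W2 := 536870912) (P3 := 50331648) (W3 := 16777216)
    rfl rfl rfl (fun _ => rfl) k0_pm_011

noncomputable def cut_pm_012 : Cut := Cut.of [[⟨3, 0, 0, 1449551462⟩], [⟨0, 0, 0, 50331648⟩, ⟨1, 1, 0, 50331648⟩, ⟨2, 1, 0, 50331648⟩]]

noncomputable def f_pm_012 : ℕ → ℕ → ℕ → ℕ → Bool := onCell 1073741824 536870912 536870912 536870912 50331648 16777216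
    (rowFK 2 true true false .pnp 0 1 2 (qsf 0 536870912 536870912 536870912 2) ndF0q0 ndF4q1 pcF2 cut_pm_012 Ext.none)

def k0_pm_012 : ∃ t, chk3 f_pm_012 t 1 1 1 = true :=
  ⟨(a (b (b (a (a (a (a (l 18692408) (l 18694784)) (l 18712384)) (l 18669256)) (l 18699592)) (a (a (a (l 6) (l 18721424)) (l 18798992)) (l 18691208))) (a (a (l 6) (b (a (l 6) (l 19038208)) (l 6))) (b (a (l 19034200) (l 18952848)) (a (b (l 19448544) (b (l 19753728) (l 6))) (b (l 19413344) (l 19886112)))))) (b (a (b (l 2) (l 18492096)) (l 2)) (a (b (l 18778264) (b (l 19200816) (l 19618600))) (b (l 18645024) (l 19123504))))), by decide +kernel⟩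

theorem c_pm_012 : CertF 0 536870912 536870912 536870912 50331648 16777216 true true false .pnp 0 1 2
    ndF0q0 ndF4q1 pcF2 cut_pm_012 Ext.none :=
  certFK2 (fam := true) (s1 := true) (s2 := false) (a := 0) (b := 1) (c := 2) (cn := .pnp) (n1 := ndF0q0) (n2 := ndF4q1) (pc := pcF2) (cut := cut_pm_012) (xt := Ext.none) (P1 := 0) (W1 := 536870912) (P2 := 536870912) (W2 := 536870912) (P3 := 50331648) (W3 := 16777216)
    rfl rfl rfl (fun _ => rfl) k0_pm_012

noncomputable def cut_pm_022 : Cut := Cut.of [[⟨3, 0, 0, 1449551462⟩], [⟨0, 0, 0, 50331648⟩, ⟨1, 1, 0, 50331648⟩, ⟨2, 1, 0, 50331648⟩]]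

noncomputable def f_pm_022 : ℕ → ℕ → ℕ → ℕ → Bool := onCell 1073741824 536870912 1073741824 536870912 50331648 16777216
    (rowFK 2 true true false .pp 0 2 2 (qsf 0 536870912 1073741824 536870912 2) ndF0q0 ndF4q2 pcF2 cut_pm_022 Ext.none)

def k0_pm_022 : ∃ t, chk3 f_pm_022 t 1 1 1 = true :=
  ⟨(a (b (a (l 6) (a (l 6) (a (b (l 20060032) (l 6)) (b (l 20102152) (l 19813776))))) (l 6)) (b (a (b (a (l 20045136) (l 19846232)) (a (l 19960712) (l 19970192))) (b (l 19502912) (a (l 19830656) (l 19606848)))) (a (b (b (l 19739072) (l 355984968391)) (l 364038376007)) (b (a (l 19679208) (l 19631528)) (l 308739989431))))), by decide +kernel⟩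

theorem c_pm_022 : CertF 0 536870912 1073741824 536870912 50331648 16777216 true true false .pp 0 2 2
    ndF0q0 ndF4q2 pcF2 cut_pm_022 Ext.none :=
  certFK2 (fam := true) (s1 := true) (s2 := false) (a := 0) (b := 2) (c := 2) (cn := .pp) (n1 := ndF0q0) (n2 := ndF4q2) (pc := pcF2) (cut := cut_pm_022) (xt := Ext.none) (P1 := 0) (W1 := 536870912) (P2 := 1073741824) (W2 := 536870912) (P3 := 50331648) (W3 := 16777216)
    rfl rfl rfl (fun _ => rfl) k0_pm_022

noncomputable def cut_pm_023 : Cut := Cut.of [[⟨3, 0, 0, 1449551462⟩]]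

noncomputable def f_pm_023 : ℕ → ℕ → ℕ → ℕ → Bool := onCell 0 536870912 1610612736 536870912 50331648 16777216
    (rowFK 1 true true false .up 0 2 3 (qsf 0 536870912 1073741824 536870912 3) ndF0q0 ndF4q2 pcF3 cut_pm_023 Ext.none)

def k0_pm_023 : ∃ t, chk3 f_pm_023 t 1 1 1 = true :=
  ⟨(a (b (b (a (b (l 19277880) (l 19043640)) (a (l 19265048) (l 19359032))) (a (b (l 18866336) (l 2)) (a (l 18916680) (l 18942008)))) (a (l 2) (b (b (l 18579000) (l 2)) (l 2)))) (b (a (b (l 19398704) (l 19026464)) (b (l 18881096) (l 18704568))) (b (a (a (l 18560136) (l 18650720)) (a (l 18521144) (l 18384992))) (b (a (l 50569896839) (l 18141560)) (a (l 2) (b (l 17962504) (b (l 17864384) (b (l 17811712) (l 17771248))))))))), by decide +kernel⟩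

theorem c_pm_023 : CertF 0 536870912 1073741824 536870912 50331648 16777216 true true false .up 0 2 3
    ndF0q0 ndF4q2 pcF3 cut_pm_023 Ext.none :=
  certFK1 (fam := true) (s1 := true) (s2 := false) (a := 0) (b := 2) (c := 3) (cn := .up) (n1 := ndF0q0) (n2 := ndF4q2) (pc := pcF3) (cut := cut_pm_023) (xt := Ext.none) (P1 := 0) (W1 := 536870912) (P2 := 1073741824) (W2 := 536870912) (P3 := 50331648) (W3 := 16777216)
    rfl rfl rfl (fun _ => rfl) k0_pm_023

noncomputable def cut_pm_033 : Cut := Cut.of [[⟨3, 0, 0, 1449551462⟩]]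

noncomputable def f_pm_033 : ℕ → ℕ → ℕ → ℕ → Bool := onCell 1610612736 536870912 0 1230186008 50331648 16777216
    (rowFK 2 true true false .pnn 0 3 3 (qsf 0 536870912 0 1230186008 3) ndF0q0 ndF4q3 pcF3 cut_pm_033 Ext.none)

def k0_pm_033 : ∃ t, chk3 f_pm_033 t 1 1 1 = true :=
  ⟨(a (b (l 1) (b (a (l 1) (b (l 1) (b (l 1) (l 18476160)))) (b (l 18919800) (a (l 19085040) (b (l 18777616) (l 18903000)))))) (b (a (l 1) (a (l 18276328) (a (l 18149008) (b (l 4) (l 4))))) (a (b (b (a (l 1) (b (l 17522440) (l 17463352))) (a (b (l 17343672) (l 17978944)) (b (l 17442768) (l 17552040)))) (b (b (l 18185536) (l 18387320)) (a (l 18674080) (l 18432968)))) (b (a (b (l 17695200) (b (l 17683688) (l 17601328))) (a (l 17785128) (a (l 17825744) (b (l 4) (a (l 17844472) (l 17860056)))))) (a (b (l 17987944) (l 18292504)) (a (b (l 17876768) (l 17991768)) (b (a (l 17816320) (a (l 17786104) (b (l 17795992) (l 17897728)))) (a (l 17879952) (a (l 17811392) (l 17790744)))))))))),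 by decide +kernel⟩

theorem c_pm_033 : CertF 0 536870912 0 1230186008 50331648 16777216 true true false .pnn 0 3 3
    ndF0q0 ndF4q3 pcF3 cut_pm_033 Ext.none :=
  certFK2 (fam := true) (s1 := true) (s2 := false) (a := 0) (b := 3) (c := 3) (cn := .pnn) (n1 := ndF0q0) (n2 := ndF4q3) (pc := pcF3) (cut := cut_pm_033) (xt := Ext.none) (P1 := 0) (W1 := 536870912) (P2 := 0) (W2 := 1230186008) (P3 := 50331648) (W3 := 16777216)
    rfl rfl rfl (fun _ => rfl) k0_pm_033

noncomputable def cut_pm_101 : Cut := Cut.of [[⟨3, 0, 0, 1449551462⟩]]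

noncomputable def f_pm_101 : ℕ → ℕ → ℕ → ℕ → Bool := onCell 536870912 536870912 536870912 536870912 50331648 16777216
    (rowFK 1 true true false .npn 1 0 1 (qsf 536870912 536870912 0 536870912 1) ndF0q1 ndF4q0 pcF1 cut_pm_101 Ext.none)

def k0_pm_101 : ∃ t, chk3 f_pm_101 t 1 1 1 = true :=
  ⟨(a (b (b (l 6) (a (l 6) (a (l 6) (l 17954944)))) (a (b (l 6) (b (l 18265200) (l 18604032))) (b (l 18359488) (l 18688200)))) (b (a (b (l 1) (l 220154550727)) (l 1)) (a (b (l 18741400) (l 18978112)) (b (l 19237784) (b (l 19304744) (b (l 19356776) (b (l 19377040) (l 19402488)))))))), by decide +kernel⟩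

theorem c_pm_101 : CertF 536870912 536870912 0 536870912 50331648 16777216 true true false .npn 1 0 1
    ndF0q1 ndF4q0 pcF1 cut_pm_101 Ext.none :=
  certFK1 (fam := true) (s1 := true) (s2 := false) (a := 1) (b := 0) (c := 1) (cn := .npn) (n1 := ndF0q1) (n2 := ndF4q0) (pc := pcF1) (cut := cut_pm_101) (xt := Ext.none) (P1 := 536870912) (W1 := 536870912) (P2 := 0) (W2 := 536870912) (P3 := 50331648) (W3 := 16777216)
    rfl rfl rfl (fun _ => rfl) k0_pm_101

noncomputable def cut_pm_102 : Cut := Cut.of [[⟨3, 0, 0, 1449551462⟩]]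

noncomputable def f_pm_102 : ℕ → ℕ → ℕ → ℕ → Bool := onCell 536870912 536870912 1073741824 536870912 50331648 16777216
    (rowFK 1 true true false .npp 1 0 2 (qsf 536870912 536870912 0 536870912 2) ndF0q1 ndF4q0 pcF2 cut_pm_102 Ext.none)

def k0_pm_102 : ∃ t, chk3 f_pm_102 t 1 1 1 = true :=
  ⟨(a (b (b (b (b (b (l 19109712) (a (l 18761616) (l 18867904))) (a (l 18728984) (l 18780464))) (a (l 18670800) (l 18636640))) (a (l 202505276311) (l 18471240))) (a (l 2) (b (l 18535608) (l 2)))) (b (a (b (l 19005720) (l 18627424)) (b (l 19377832) (l 18930928))) (a (b (l 18501368) (l 18586312)) (b (l 18708680) (l 18651368))))), by decide +kernel⟩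

theorem c_pm_102 : CertF 536870912 536870912 0 536870912 50331648 16777216 true true false .npp 1 0 2
    ndF0q1 ndF4q0 pcF2 cut_pm_102 Ext.none :=
  certFK1 (fam := true) (s1 := true) (s2 := false) (a := 1) (b := 0) (c := 2) (cn := .npp) (n1 := ndF0q1) (n2 := ndF4q0) (pc := pcF2) (cut := cut_pm_102) (xt := Ext.none) (P1 := 536870912) (W1 := 536870912) (P2 := 0) (W2 := 536870912) (P3 := 50331648) (W3 := 16777216)
    rfl rfl rfl (fun _ => rfl) k0_pm_102

noncomputable def cut_pm_112 : Cut := Cut.of [[⟨3, 0, 0, 1449551462⟩]]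

noncomputable def f_pm_112 : ℕ → ℕ → ℕ → ℕ → Bool := onCell 536870912 536870912 1073741824 536870912 50331648 16777216
    (rowFK 1 true true false .dn 1 1 2 (qsf 536870912 536870912 536870912 536870912 2) ndF0q1 ndF4q1 pcF2 cut_pm_112 Ext.none)

def k0_pm_112 : ∃ t, chk3 f_pm_112 t 1 1 1 = true :=
  ⟨(a (b (b (b (b (b (l 18881464) (l 18827776)) (l 18763128)) (l 18883200)) (a (l 18530872) (l 18422128))) (a (b (l 18578304) (l 18823280)) (l 18650968))) (b (b (l 1) (l 251830488631)) (b (l 18578600) (l 18551568)))), by decide +kernel⟩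

theorem c_pm_112 : CertF 536870912 536870912 536870912 536870912 50331648 16777216 true true false .dn 1 1 2
    ndF0q1 ndF4q1 pcF2 cut_pm_112 Ext.none :=
  certFK1 (fam := true) (s1 := true) (s2 := false) (a := 1) (b := 1) (c := 2) (cn := .dn) (n1 := ndF0q1) (n2 := ndF4q1) (pc := pcF2) (cut := cut_pm_112) (xt := Ext.none) (P1 := 536870912) (W1 := 536870912) (P2 := 536870912) (W2 := 536870912) (P3 := 50331648) (W3 := 16777216)
    rfl rfl rfl (fun _ => rfl) k0_pm_112

noncomputable def cut_pm_113 : Cut := Cut.of [[⟨3, 0, 0, 1449551462⟩]]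

noncomputable def f_pm_113 : ℕ → ℕ → ℕ → ℕ → Bool := onCell 536870912 536870912 1610612736 536870912 50331648 16777216
    (rowFK 1 true true false .nn 1 1 3 (qsf 536870912 536870912 536870912 536870912 3) ndF0q1 ndF4q1 pcF3 cut_pm_113 Ext.none)

def k0_pm_113 : ∃ t, chk3 f_pm_113 t 1 1 1 = true :=
  ⟨(a (b (b (a (a (l 18424760) (l 18592648)) (l 18147960)) (a (b (l 18302176) (l 2)) (l 18281672))) (b (a (l 2) (b (l 18874680) (l 2))) (l 2))) (a (b (b (l 17853152) (l 18455744)) (b (b (l 18692248) (l 18430592)) (l 4))) (b (b (b (l 18331600) (l 18408624)) (b (l 18435216) (l 18417512))) (l 4)))), by decide +kernel⟩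

theorem c_pm_113 : CertF 536870912 536870912 536870912 536870912 50331648 16777216 true true false .nn 1 1 3
    ndF0q1 ndF4q1 pcF3 cut_pm_113 Ext.none :=
  certFK1 (fam := true) (s1 := true) (s2 := false) (a := 1) (b := 1) (c := 3) (cn := .nn) (n1 := ndF0q1) (n2 := ndF4q1) (pc := pcF3) (cut := cut_pm_113) (xt := Ext.none) (P1 := 536870912) (W1 := 536870912) (P2 := 536870912) (W2 := 536870912) (P3 := 50331648) (W3 := 16777216)
    rfl rfl rfl (fun _ => rfl) k0_pm_113

noncomputable def cut_pm_123 : Cut := Cut.of [[⟨3, 0, 0, 1449551462⟩]]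

noncomputable def f_pm_123 : ℕ → ℕ → ℕ → ℕ → Bool := onCell 536870912 536870912 1610612736 536870912 50331648 16777216
    (rowFK 1 true true false .npn 1 2 3 (qsf 536870912 536870912 1073741824 536870912 3) ndF0q1 ndF4q2 pcF3 cut_pm_123 Ext.none)

def k0_pm_123 : ∃ t, chk3 f_pm_123 t 1 1 1 = true :=
  ⟨(a (b (a (b (a (l 18424424) (l 18588440)) (b (l 18144288) (l 18261000))) (b (l 182572866839) (l 18293176))) (b (a (a (l 18300320) (l 18311504)) (b (l 18456448) (l 18392064))) (b (a (l 18119120) (l 18159016)) (b (l 17997864) (b (l 17927784) (a (l 4) (l 4))))))) (a (b (b (l 1) (b (l 1) (l 19016152))) (b (b (l 18854560) (l 18307264)) (l 4))) (b (l 1) (l 4)))), by decide +kernel⟩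

theorem c_pm_123 : CertF 536870912 536870912 1073741824 536870912 50331648 16777216 true true false .npn 1 2 3
    ndF0q1 ndF4q2 pcF3 cut_pm_123 Ext.none :=
  certFK1 (fam := true) (s1 := true) (s2 := false) (a := 1) (b := 2) (c := 3) (cn := .npn) (n1 := ndF0q1) (n2 := ndF4q2) (pc := pcF3) (cut := cut_pm_123) (xt := Ext.none) (P1 := 536870912) (W1 := 536870912) (P2 := 1073741824) (W2 := 536870912) (P3 := 50331648) (W3 := 16777216)
    rfl rfl rfl (fun _ => rfl) k0_pm_123

noncomputable def cut_pm_133 : Cut := Cut.of [[⟨3, 0, 0, 1449551462⟩]]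

noncomputable def f_pm_133 : ℕ → ℕ → ℕ → ℕ → Bool := onCell 536870912 536870912 0 1230186008 50331648 16777216
    (rowFK 0 true true false .dn 1 3 3 (qsf 536870912 536870912 0 1230186008 3) ndF0q1 ndF4q3 pcF3 cut_pm_133 Ext.none)

def k0_pm_133 : ∃ t, chk3 f_pm_133 t 1 1 1 = true :=
  ⟨(b (l 2) (b (l 2) (a (b (l 2) (l 4)) (l 2)))), by decide +kernel⟩

theorem c_pm_133 : CertF 536870912 536870912 0 1230186008 50331648 16777216 true true false .dn 1 3 3
    ndF0q1 ndF4q3 pcF3 cut_pm_133 Ext.none :=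
  certFK0 (fam := true) (s1 := true) (s2 := false) (a := 1) (b := 3) (c := 3) (cn := .dn) (n1 := ndF0q1) (n2 := ndF4q3) (pc := pcF3) (cut := cut_pm_133) (xt := Ext.none) (P1 := 536870912) (W1 := 536870912) (P2 := 0) (W2 := 1230186008) (P3 := 50331648) (W3 := 16777216)
    rfl rfl rfl k0_pm_133

noncomputable def cut_pm_202 : Cut := Cut.of [[⟨3, 0, 0, 1449551462⟩]]

noncomputable def f_pm_202 : ℕ → ℕ → ℕ → ℕ → Bool := onCell 0 536870912 1073741824 536870912 50331648 16777216
    (rowFK 1 true true false .pp 2 0 2 (qsf 0 536870912 0 536870912 2) ndF0q2 ndF4q0 pcF2 cut_pm_202 Ext.none)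

def k0_pm_202 : ∃ t, chk3 f_pm_202 t 1 1 1 = true :=
  ⟨(b (a (b (l 19550360) (l 4)) (b (l 19900768) (a (l 19289440) (l 19210944)))) (a (l 4) (b (l 18881080) (l 18591472)))), by decide +kernel⟩

theorem c_pm_202 : CertF 0 536870912 0 536870912 50331648 16777216 true true false .pp 2 0 2
    ndF0q2 ndF4q0 pcF2 cut_pm_202 Ext.none :=
  certFK1 (fam := true) (s1 := true) (s2 := false) (a := 2) (b := 0) (c := 2) (cn := .pp) (n1 := ndF0q2) (n2 := ndF4q0) (pc := pcF2) (cut := cut_pm_202) (xt := Ext.none) (P1 := 0) (W1 := 536870912) (P2 := 0) (W2 := 536870912) (P3 := 50331648) (W3 := 16777216)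
    rfl rfl rfl (fun _ => rfl) k0_pm_202

noncomputable def cut_pm_203 : Cut := Cut.of [[⟨3, 0, 0, 1449551462⟩]]

noncomputable def f_pm_203 : ℕ → ℕ → ℕ → ℕ → Bool := onCell 0 536870912 1610612736 536870912 50331648 16777216
    (rowFK 1 true true false .up 2 0 3 (qsf 0 536870912 0 536870912 3) ndF0q2 ndF4q0 pcF3 cut_pm_203 Ext.none)

def k0_pm_203 : ∃ t, chk3 f_pm_203 t 1 1 1 = true :=
  ⟨(a (l 4) (b (l 4) (l 2))), by decide +kernel⟩

theorem c_pm_203 : CertF 0 536870912 0 536870912 50331648 16777216 true true false .up 2 0 3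
    ndF0q2 ndF4q0 pcF3 cut_pm_203 Ext.none :=
  certFK1 (fam := true) (s1 := true) (s2 := false) (a := 2) (b := 0) (c := 3) (cn := .up) (n1 := ndF0q2) (n2 := ndF4q0) (pc := pcF3) (cut := cut_pm_203) (xt := Ext.none) (P1 := 0) (W1 := 536870912) (P2 := 0) (W2 := 536870912) (P3 := 50331648) (W3 := 16777216)
    rfl rfl rfl (fun _ => rfl) k0_pm_203

noncomputable def cut_pm_213 : Cut := Cut.of [[⟨3, 0, 0, 1449551462⟩]]

noncomputable def f_pm_213 : ℕ → ℕ → ℕ → ℕ → Bool := onCell 0 536870912 536870912 536870912 50331648 16777216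
    (rowFK 0 true true false .pnn 2 1 3 (qsf 0 536870912 536870912 536870912 3) ndF0q2 ndF4q1 pcF3 cut_pm_213 Ext.none)

def k0_pm_213 : ∃ t, chk3 f_pm_213 t 1 1 1 = true :=
  ⟨(a (l 4) (b (l 4) (l 4))), by decide +kernel⟩

theorem c_pm_213 : CertF 0 536870912 536870912 536870912 50331648 16777216 true true false .pnn 2 1 3
    ndF0q2 ndF4q1 pcF3 cut_pm_213 Ext.none :=
  certFK0 (fam := true) (s1 := true) (s2 := false) (a := 2) (b := 1) (c := 3) (cn := .pnn) (n1 := ndF0q2) (n2 := ndF4q1) (pc := pcF3) (cut := cut_pm_213) (xt := Ext.none) (P1 := 0) (W1 := 536870912) (P2 := 536870912) (W2 := 536870912) (P3 := 50331648) (W3 := 16777216)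
    rfl rfl rfl k0_pm_213

noncomputable def cut_mm_001 : Cut := Cut.of [[⟨3, 0, 0, 1449551462⟩]]

noncomputable def f_mm_001 : ℕ → ℕ → ℕ → ℕ → Bool := onCell 0 536870912 0 536870912 50331648 16777216
    (rowFK 0 true false false .up 0 0 1 (qsf 0 536870912 0 536870912 1) ndF0q0 ndF4q0 pcF1 cut_mm_001 Ext.none)

def k0_mm_001 : ∃ t, chk3 f_mm_001 t 1 1 1 = true :=
  ⟨(l 4), by decide +kernel⟩

theorem c_mm_001 : CertF 0 536870912 0 536870912 50331648 16777216 true false false .up 0 0 1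
    ndF0q0 ndF4q0 pcF1 cut_mm_001 Ext.none :=
  certFK0 (fam := true) (s1 := false) (s2 := false) (a := 0) (b := 0) (c := 1) (cn := .up) (n1 := ndF0q0) (n2 := ndF4q0) (pc := pcF1) (cut := cut_mm_001) (xt := Ext.none) (P1 := 0) (W1 := 536870912) (P2 := 0) (W2 := 536870912) (P3 := 50331648) (W3 := 16777216)
    rfl rfl rfl k0_mm_001

noncomputable def cut_mm_011 : Cut := Cut.of [[⟨3, 0, 0, 1449551462⟩]]

noncomputable def f_mm_011 : ℕ → ℕ → ℕ → ℕ → Bool := onCell 0 536870912 536870912 536870912 50331648 16777216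
    (rowFK 0 true false false .pnn 0 1 1 (qsf 0 536870912 536870912 536870912 1) ndF0q0 ndF4q1 pcF1 cut_mm_011 Ext.none)

def k0_mm_011 : ∃ t, chk3 f_mm_011 t 1 1 1 = true :=
  ⟨(l 4), by decide +kernel⟩

theorem c_mm_011 : CertF 0 536870912 536870912 536870912 50331648 16777216 true false false .pnn 0 1 1
    ndF0q0 ndF4q1 pcF1 cut_mm_011 Ext.none :=
  certFK0 (fam := true) (s1 := false) (s2 := false) (a := 0) (b := 1) (c := 1) (cn := .pnn) (n1 := ndF0q0) (n2 := ndF4q1) (pc := pcF1) (cut := cut_mm_011) (xt := Ext.none) (P1 := 0) (W1 := 536870912) (P2 := 536870912) (W2 := 536870912) (P3 := 50331648) (W3 := 16777216)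
    rfl rfl rfl k0_mm_011

noncomputable def cut_mm_012 : Cut := Cut.of [[⟨3, 0, 0, 1449551462⟩]]

noncomputable def f_mm_012 : ℕ → ℕ → ℕ → ℕ → Bool := onCell 0 536870912 536870912 536870912 50331648 16777216
    (rowFK 0 true false false .pnp 0 1 2 (qsf 0 536870912 536870912 536870912 2) ndF0q0 ndF4q1 pcF2 cut_mm_012 Ext.none)

def k0_mm_012 : ∃ t, chk3 f_mm_012 t 1 1 1 = true :=
  ⟨(l 4), by decide +kernel⟩

theorem c_mm_012 : CertF 0 536870912 536870912 536870912 50331648 16777216 true false false .pnp 0 1 2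
    ndF0q0 ndF4q1 pcF2 cut_mm_012 Ext.none :=
  certFK0 (fam := true) (s1 := false) (s2 := false) (a := 0) (b := 1) (c := 2) (cn := .pnp) (n1 := ndF0q0) (n2 := ndF4q1) (pc := pcF2) (cut := cut_mm_012) (xt := Ext.none) (P1 := 0) (W1 := 536870912) (P2 := 536870912) (W2 := 536870912) (P3 := 50331648) (W3 := 16777216)
    rfl rfl rfl k0_mm_012

noncomputable def cut_mm_022 : Cut := Cut.of [[⟨3, 0, 0, 1449551462⟩]]

noncomputable def f_mm_022 : ℕ → ℕ → ℕ → ℕ → Bool := onCell 0 536870912 1073741824 536870912 50331648 16777216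
    (rowFK 0 true false false .pp 0 2 2 (qsf 0 536870912 1073741824 536870912 2) ndF0q0 ndF4q2 pcF2 cut_mm_022 Ext.none)

def k0_mm_022 : ∃ t, chk3 f_mm_022 t 1 1 1 = true :=
  ⟨(l 4), by decide +kernel⟩

theorem c_mm_022 : CertF 0 536870912 1073741824 536870912 50331648 16777216 true false false .pp 0 2 2
    ndF0q0 ndF4q2 pcF2 cut_mm_022 Ext.none :=
  certFK0 (fam := true) (s1 := false) (s2 := false) (a := 0) (b := 2) (c := 2) (cn := .pp) (n1 := ndF0q0) (n2 := ndF4q2) (pc := pcF2) (cut := cut_mm_022) (xt := Ext.none) (P1 := 0) (W1 := 536870912) (P2 := 1073741824) (W2 := 536870912) (P3 := 50331648) (W3 := 16777216)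
    rfl rfl rfl k0_mm_022

noncomputable def cut_mm_023 : Cut := Cut.of [[⟨3, 0, 0, 1449551462⟩]]

noncomputable def f_mm_023 : ℕ → ℕ → ℕ → ℕ → Bool := onCell 0 536870912 1073741824 536870912 50331648 16777216
    (rowFK 0 true false false .up 0 2 3 (qsf 0 536870912 1073741824 536870912 3) ndF0q0 ndF4q2 pcF3 cut_mm_023 Ext.none)

def k0_mm_023 : ∃ t, chk3 f_mm_023 t 1 1 1 = true :=
  ⟨(l 4), by decide +kernel⟩

theorem c_mm_023 : CertF 0 536870912 1073741824 536870912 50331648 16777216 true false false .up 0 2 3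
    ndF0q0 ndF4q2 pcF3 cut_mm_023 Ext.none :=
  certFK0 (fam := true) (s1 := false) (s2 := false) (a := 0) (b := 2) (c := 3) (cn := .up) (n1 := ndF0q0) (n2 := ndF4q2) (pc := pcF3) (cut := cut_mm_023) (xt := Ext.none) (P1 := 0) (W1 := 536870912) (P2 := 1073741824) (W2 := 536870912) (P3 := 50331648) (W3 := 16777216)
    rfl rfl rfl k0_mm_023

noncomputable def cut_mm_033 : Cut := Cut.of [[⟨3, 0, 0, 1449551462⟩]]

noncomputable def f_mm_033 : ℕ → ℕ → ℕ → ℕ → Bool := onCell 0 536870912 0 1230186008 50331648 16777216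
    (rowFK 0 true false false .pnn 0 3 3 (qsf 0 536870912 0 1230186008 3) ndF0q0 ndF4q3 pcF3 cut_mm_033 Ext.none)

def k0_mm_033 : ∃ t, chk3 f_mm_033 t 1 1 1 = true :=
  ⟨(l 4), by decide +kernel⟩

theorem c_mm_033 : CertF 0 536870912 0 1230186008 50331648 16777216 true false false .pnn 0 3 3
    ndF0q0 ndF4q3 pcF3 cut_mm_033 Ext.none :=
  certFK0 (fam := true) (s1 := false) (s2 := false) (a := 0) (b := 3) (c := 3) (cn := .pnn) (n1 := ndF0q0) (n2 := ndF4q3) (pc := pcF3) (cut := cut_mm_033) (xt := Ext.none) (P1 := 0) (W1 := 536870912) (P2 := 0) (W2 := 1230186008) (P3 := 50331648) (W3 := 16777216)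
    rfl rfl rfl k0_mm_033

noncomputable def cut_mm_101 : Cut := Cut.of [[⟨3, 0, 0, 1449551462⟩]]

noncomputable def f_mm_101 : ℕ → ℕ → ℕ → ℕ → Bool := onCell 536870912 536870912 0 536870912 50331648 16777216
    (rowFK 0 true false false .npn 1 0 1 (qsf 536870912 536870912 0 536870912 1) ndF0q1 ndF4q0 pcF1 cut_mm_101 Ext.none)

def k0_mm_101 : ∃ t, chk3 f_mm_101 t 1 1 1 = true :=
  ⟨(l 4), by decide +kernel⟩

theorem c_mm_101 : CertF 536870912 536870912 0 536870912 50331648 16777216 true false false .npn 1 0 1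
    ndF0q1 ndF4q0 pcF1 cut_mm_101 Ext.none :=
  certFK0 (fam := true) (s1 := false) (s2 := false) (a := 1) (b := 0) (c := 1) (cn := .npn) (n1 := ndF0q1) (n2 := ndF4q0) (pc := pcF1) (cut := cut_mm_101) (xt := Ext.none) (P1 := 536870912) (W1 := 536870912) (P2 := 0) (W2 := 536870912) (P3 := 50331648) (W3 := 16777216)
    rfl rfl rfl k0_mm_101

noncomputable def cut_mm_102 : Cut := Cut.of [[⟨3, 0, 0, 1449551462⟩]]

noncomputable def f_mm_102 : ℕ → ℕ → ℕ → ℕ → Bool := onCell 536870912 536870912 0 536870912 50331648 16777216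
    (rowFK 0 true false false .npp 1 0 2 (qsf 536870912 536870912 0 536870912 2) ndF0q1 ndF4q0 pcF2 cut_mm_102 Ext.none)

def k0_mm_102 : ∃ t, chk3 f_mm_102 t 1 1 1 = true :=
  ⟨(l 4), by decide +kernel⟩

theorem c_mm_102 : CertF 536870912 536870912 0 536870912 50331648 16777216 true false false .npp 1 0 2
    ndF0q1 ndF4q0 pcF2 cut_mm_102 Ext.none :=
  certFK0 (fam := true) (s1 := false) (s2 := false) (a := 1) (b := 0) (c := 2) (cn := .npp) (n1 := ndF0q1) (n2 := ndF4q0) (pc := pcF2) (cut := cut_mm_102) (xt := Ext.none) (P1 := 536870912) (W1 := 536870912) (P2 := 0) (W2 := 536870912) (P3 := 50331648) (W3 := 16777216)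
    rfl rfl rfl k0_mm_102

noncomputable def cut_mm_112 : Cut := Cut.of [[⟨3, 0, 0, 1449551462⟩]]

noncomputable def f_mm_112 : ℕ → ℕ → ℕ → ℕ → Bool := onCell 536870912 536870912 536870912 536870912 50331648 16777216
    (rowFK 0 true false false .dn 1 1 2 (qsf 536870912 536870912 536870912 536870912 2) ndF0q1 ndF4q1 pcF2 cut_mm_112 Ext.none)

def k0_mm_112 : ∃ t, chk3 f_mm_112 t 1 1 1 = true :=
  ⟨(l 4), by decide +kernel⟩

theorem c_mm_112 : CertF 536870912 536870912 536870912 536870912 50331648 16777216 true false false .dn 1 1 2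
    ndF0q1 ndF4q1 pcF2 cut_mm_112 Ext.none :=
  certFK0 (fam := true) (s1 := false) (s2 := false) (a := 1) (b := 1) (c := 2) (cn := .dn) (n1 := ndF0q1) (n2 := ndF4q1) (pc := pcF2) (cut := cut_mm_112) (xt := Ext.none) (P1 := 536870912) (W1 := 536870912) (P2 := 536870912) (W2 := 536870912) (P3 := 50331648) (W3 := 16777216)
    rfl rfl rfl k0_mm_112

noncomputable def cut_mm_113 : Cut := Cut.of [[⟨3, 0, 0, 1449551462⟩]]

noncomputable def f_mm_113 : ℕ → ℕ → ℕ → ℕ → Bool := onCell 536870912 536870912 536870912 536870912 50331648 16777216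
    (rowFK 0 true false false .nn 1 1 3 (qsf 536870912 536870912 536870912 536870912 3) ndF0q1 ndF4q1 pcF3 cut_mm_113 Ext.none)

def k0_mm_113 : ∃ t, chk3 f_mm_113 t 1 1 1 = true :=
  ⟨(l 4), by decide +kernel⟩

theorem c_mm_113 : CertF 536870912 536870912 536870912 536870912 50331648 16777216 true false false .nn 1 1 3
    ndF0q1 ndF4q1 pcF3 cut_mm_113 Ext.none :=
  certFK0 (fam := true) (s1 := false) (s2 := false) (a := 1) (b := 1) (c := 3) (cn := .nn) (n1 := ndF0q1) (n2 := ndF4q1) (pc := pcF3) (cut := cut_mm_113) (xt := Ext.none) (P1 := 536870912) (W1 := 536870912) (P2 := 536870912) (W2 := 536870912) (P3 := 50331648) (W3 := 16777216)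
    rfl rfl rfl k0_mm_113

noncomputable def cut_mm_123 : Cut := Cut.of [[⟨3, 0, 0, 1449551462⟩]]

noncomputable def f_mm_123 : ℕ → ℕ → ℕ → ℕ → Bool := onCell 536870912 536870912 1073741824 536870912 50331648 16777216
    (rowFK 0 true false false .npn 1 2 3 (qsf 536870912 536870912 1073741824 536870912 3) ndF0q1 ndF4q2 pcF3 cut_mm_123 Ext.none)

def k0_mm_123 : ∃ t, chk3 f_mm_123 t 1 1 1 = true :=
  ⟨(l 4), by decide +kernel⟩

theorem c_mm_123 : CertF 536870912 536870912 1073741824 536870912 50331648 16777216 true false false .npn 1 2 3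
    ndF0q1 ndF4q2 pcF3 cut_mm_123 Ext.none :=
  certFK0 (fam := true) (s1 := false) (s2 := false) (a := 1) (b := 2) (c := 3) (cn := .npn) (n1 := ndF0q1) (n2 := ndF4q2) (pc := pcF3) (cut := cut_mm_123) (xt := Ext.none) (P1 := 536870912) (W1 := 536870912) (P2 := 1073741824) (W2 := 536870912) (P3 := 50331648) (W3 := 16777216)
    rfl rfl rfl k0_mm_123

noncomputable def cut_mm_133 : Cut := Cut.of [[⟨3, 0, 0, 1449551462⟩]]

noncomputable def f_mm_133 : ℕ → ℕ → ℕ → ℕ → Bool := onCell 536870912 536870912 0 1230186008 50331648 16777216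
    (rowFK 0 true false false .dn 1 3 3 (qsf 536870912 536870912 0 1230186008 3) ndF0q1 ndF4q3 pcF3 cut_mm_133 Ext.none)

def k0_mm_133 : ∃ t, chk3 f_mm_133 t 1 1 1 = true :=
  ⟨(l 4), by decide +kernel⟩

theorem c_mm_133 : CertF 536870912 536870912 0 1230186008 50331648 16777216 true false false .dn 1 3 3
    ndF0q1 ndF4q3 pcF3 cut_mm_133 Ext.none :=
  certFK0 (fam := true) (s1 := false) (s2 := false) (a := 1) (b := 3) (c := 3) (cn := .dn) (n1 := ndF0q1) (n2 := ndF4q3) (pc := pcF3) (cut := cut_mm_133) (xt := Ext.none) (P1 := 536870912) (W1 := 536870912) (P2 := 0) (W2 := 1230186008) (P3 := 50331648) (W3 := 16777216)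
    rfl rfl rfl k0_mm_133

noncomputable def cut_mm_202 : Cut := Cut.of [[⟨3, 0, 0, 1449551462⟩]]

noncomputable def f_mm_202 : ℕ → ℕ → ℕ → ℕ → Bool := onCell 0 536870912 0 536870912 50331648 16777216
    (rowFK 0 true false false .pp 2 0 2 (qsf 0 536870912 0 536870912 2) ndF0q2 ndF4q0 pcF2 cut_mm_202 Ext.none)

def k0_mm_202 : ∃ t, chk3 f_mm_202 t 1 1 1 = true :=
  ⟨(l 4), by decide +kernel⟩

theorem c_mm_202 : CertF 0 536870912 0 536870912 50331648 16777216 true false false .pp 2 0 2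
    ndF0q2 ndF4q0 pcF2 cut_mm_202 Ext.none :=
  certFK0 (fam := true) (s1 := false) (s2 := false) (a := 2) (b := 0) (c := 2) (cn := .pp) (n1 := ndF0q2) (n2 := ndF4q0) (pc := pcF2) (cut := cut_mm_202) (xt := Ext.none) (P1 := 0) (W1 := 536870912) (P2 := 0) (W2 := 536870912) (P3 := 50331648) (W3 := 16777216)
    rfl rfl rfl k0_mm_202

noncomputable def cut_mm_203 : Cut := Cut.of [[⟨3, 0, 0, 1449551462⟩]]

noncomputable def f_mm_203 : ℕ → ℕ → ℕ → ℕ → Bool := onCell 0 536870912 0 536870912 50331648 16777216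
    (rowFK 0 true false false .up 2 0 3 (qsf 0 536870912 0 536870912 3) ndF0q2 ndF4q0 pcF3 cut_mm_203 Ext.none)

def k0_mm_203 : ∃ t, chk3 f_mm_203 t 1 1 1 = true :=
  ⟨(l 4), by decide +kernel⟩

theorem c_mm_203 : CertF 0 536870912 0 536870912 50331648 16777216 true false false .up 2 0 3
    ndF0q2 ndF4q0 pcF3 cut_mm_203 Ext.none :=
  certFK0 (fam := true) (s1 := false) (s2 := false) (a := 2) (b := 0) (c := 3) (cn := .up) (n1 := ndF0q2) (n2 := ndF4q0) (pc := pcF3) (cut := cut_mm_203) (xt := Ext.none) (P1 := 0) (W1 := 536870912) (P2 := 0) (W2 := 536870912) (P3 := 50331648) (W3 := 16777216)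
    rfl rfl rfl k0_mm_203

noncomputable def cut_mm_213 : Cut := Cut.of [[⟨3, 0, 0, 1449551462⟩]]

noncomputable def f_mm_213 : ℕ → ℕ → ℕ → ℕ → Bool := onCell 0 536870912 536870912 536870912 50331648 16777216
    (rowFK 0 true false false .pnn 2 1 3 (qsf 0 536870912 536870912 536870912 3) ndF0q2 ndF4q1 pcF3 cut_mm_213 Ext.none)

def k0_mm_213 : ∃ t, chk3 f_mm_213 t 1 1 1 = true :=
  ⟨(l 4), by decide +kernel⟩

theorem c_mm_213 : CertF 0 536870912 536870912 536870912 50331648 16777216 true false false .pnn 2 1 3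
    ndF0q2 ndF4q1 pcF3 cut_mm_213 Ext.none :=
  certFK0 (fam := true) (s1 := false) (s2 := false) (a := 2) (b := 1) (c := 3) (cn := .pnn) (n1 := ndF0q2) (n2 := ndF4q1) (pc := pcF3) (cut := cut_mm_213) (xt := Ext.none) (P1 := 0) (W1 := 536870912) (P2 := 536870912) (W2 := 536870912) (P3 := 50331648) (W3 := 16777216)
    rfl rfl rfl k0_mm_213

end Pool.Agent.Strip051.G.I3_64_1_16.Tab.C.FA04

namespace Pool.Agent.Strip051.G.I3_64_1_16.Tab.C.FA11

open Pool.Agent.Strip051.PB Pool.Agent.Strip051.PB.T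
open Pool.Agent.Strip051.G.I3_64_1_16.Tab

noncomputable def f_pp_001 : ℕ → ℕ → ℕ → ℕ → Bool := onCell 0 536870912 0 536870912 50331648 16777216
    (rowFK 0 true true true .up 0 0 1 (qsf 0 536870912 0 536870912 1) ndF1q0 ndF1q0 pcF1 Cut.none Ext.none)

def k0_pp_001 : ∃ t, chk3 f_pp_001 t 1 1 1 = true :=
  ⟨(l 4), by decide +kernel⟩

theorem c_pp_001 : CertF 0 536870912 0 536870912 50331648 16777216 true true true .up 0 0 1
    ndF1q0 ndF1q0 pcF1 Cut.none Ext.none :=
  certFK0 (fam := true) (s1 := true) (s2 := true) (a := 0) (b := 0) (c := 1) (cn := .up) (n1 := ndF1q0) (n2 := ndF1q0) (pc := pcF1) (cut := Cut.none) (xt := Ext.none) (P1 := 0) (W1 := 536870912) (P2 := 0) (W2 := 536870912) (P3 := 50331648) (W3 := 16777216)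
    rfl rfl rfl k0_pp_001

noncomputable def f_pp_011 : ℕ → ℕ → ℕ → ℕ → Bool := onCell 0 536870912 536870912 536870912 50331648 16777216
    (rowFK 0 true true true .pnn 0 1 1 (qsf 0 536870912 536870912 536870912 1) ndF1q0 ndF1q1 pcF1 Cut.none Ext.none)

def k0_pp_011 : ∃ t, chk3 f_pp_011 t 1 1 1 = true :=
  ⟨(l 4), by decide +kernel⟩

theorem c_pp_011 : CertF 0 536870912 536870912 536870912 50331648 16777216 true true true .pnn 0 1 1
    ndF1q0 ndF1q1 pcF1 Cut.none Ext.none :=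
  certFK0 (fam := true) (s1 := true) (s2 := true) (a := 0) (b := 1) (c := 1) (cn := .pnn) (n1 := ndF1q0) (n2 := ndF1q1) (pc := pcF1) (cut := Cut.none) (xt := Ext.none) (P1 := 0) (W1 := 536870912) (P2 := 536870912) (W2 := 536870912) (P3 := 50331648) (W3 := 16777216)
    rfl rfl rfl k0_pp_011

noncomputable def f_pp_012 : ℕ → ℕ → ℕ → ℕ → Bool := onCell 0 536870912 536870912 536870912 50331648 16777216
    (rowFK 0 true true true .pnp 0 1 2 (qsf 0 536870912 536870912 536870912 2) ndF1q0 ndF1q1 pcF2 Cut.none Ext.none)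

def k0_pp_012 : ∃ t, chk3 f_pp_012 t 1 1 1 = true :=
  ⟨(l 4), by decide +kernel⟩

theorem c_pp_012 : CertF 0 536870912 536870912 536870912 50331648 16777216 true true true .pnp 0 1 2
    ndF1q0 ndF1q1 pcF2 Cut.none Ext.none :=
  certFK0 (fam := true) (s1 := true) (s2 := true) (a := 0) (b := 1) (c := 2) (cn := .pnp) (n1 := ndF1q0) (n2 := ndF1q1) (pc := pcF2) (cut := Cut.none) (xt := Ext.none) (P1 := 0) (W1 := 536870912) (P2 := 536870912) (W2 := 536870912) (P3 := 50331648) (W3 := 16777216)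
    rfl rfl rfl k0_pp_012

noncomputable def cut_pp_022_a : Cut := Cut.of [[⟨0, 0, 0, 50331648⟩, ⟨1, 1, 0, 50331648⟩, ⟨2, 1, 0, 50331648⟩]]

noncomputable def f_pp_022_a : ℕ → ℕ → ℕ → ℕ → Bool := onCell 0 536870912 0 536870912 50331648 16777216
    (rowFK 0 true true true .pp 0 2 2 (qsf 0 536870912 0 536870912 2) ndF1q0 ndF1q2a pcF2 cut_pp_022_a Ext.none)

def k0_pp_022_a : ∃ t, chk3 f_pp_022_a t 1 1 1 = true :=
  ⟨(a (a (b (a (a (b (l 18872600) (l 18841040)) (b (l 18506560) (l 18349336))) (b (l 18019048) (l 4))) (a (a (a (b (b (l 18544232) (b (l 18245688) (a (a (l 17769432) (l 17923352)) (l 17937184)))) (b (b (a (a (b (l 17272416) (a (l 16967360) (l 17138976))) (l 17161072)) (l 17290464)) (a (a (b (l 16712072) (a (l 16719264) (l 16709464))) (l 16722784)) (l 4))) (b (a (l 6) (l 4)) (l 6)))) (b (b (l 18373912) (l 18017504)) (l 4))) (b (l 4) (l 4))) (l 4))) (l 4)) (l 4)), by decide +kernel⟩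

theorem c_pp_022_a : CertF 0 536870912 0 536870912 50331648 16777216 true true true .pp 0 2 2
    ndF1q0 ndF1q2a pcF2 cut_pp_022_a Ext.none :=
  certFK0 (fam := true) (s1 := true) (s2 := true) (a := 0) (b := 2) (c := 2) (cn := .pp) (n1 := ndF1q0) (n2 := ndF1q2a) (pc := pcF2) (cut := cut_pp_022_a) (xt := Ext.none) (P1 := 0) (W1 := 536870912) (P2 := 0) (W2 := 536870912) (P3 := 50331648) (W3 := 16777216)
    rfl rfl rfl k0_pp_022_a

noncomputable def cut_pp_022_b : Cut := Cut.of [[⟨0, 0, 0, 50331648⟩, ⟨1, 1, 0, 50331648⟩, ⟨2, 1, 0, 50331648⟩]]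

noncomputable def f_pp_022_b : ℕ → ℕ → ℕ → ℕ → Bool := onCell 0 536870912 1239849684 370763052 50331648 16777216
    (rowFK 0 true true true .pp 0 2 2 (qsf 0 536870912 1239849684 370763052 2) ndF1q0 ndF1q2b pcF2 cut_pp_022_b Ext.none)

def k0_pp_022_b : ∃ t, chk3 f_pp_022_b t 1 1 1 = true :=
  ⟨(a (a (b (a (b (a (l 19071936) (l 18741408)) (l 19160840)) (b (b (l 18181680) (l 18342632)) (l 4))) (a (b (l 19035088) (l 4)) (l 4))) (l 4)) (l 4)), by decide +kernel⟩

theorem c_pp_022_b : CertF 0 536870912 1239849684 370763052 50331648 16777216 true true true .pp 0 2 2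
    ndF1q0 ndF1q2b pcF2 cut_pp_022_b Ext.none :=
  certFK0 (fam := true) (s1 := true) (s2 := true) (a := 0) (b := 2) (c := 2) (cn := .pp) (n1 := ndF1q0) (n2 := ndF1q2b) (pc := pcF2) (cut := cut_pp_022_b) (xt := Ext.none) (P1 := 0) (W1 := 536870912) (P2 := 1239849684) (W2 := 370763052) (P3 := 50331648) (W3 := 16777216)
    rfl rfl rfl k0_pp_022_b

noncomputable def f_pp_023_a : ℕ → ℕ → ℕ → ℕ → Bool := onCell 1610612736 536870912 0 536870912 50331648 16777216
    (rowFK 2 true true true .up 0 2 3 (qsf 0 536870912 0 536870912 3) ndF1q0 ndF1q2a pcF3 Cut.none Ext.none)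

def k0_pp_023_a : ∃ t, chk3 f_pp_023_a t 1 1 1 = true :=
  ⟨(l 4), by decide +kernel⟩

theorem c_pp_023_a : CertF 0 536870912 0 536870912 50331648 16777216 true true true .up 0 2 3
    ndF1q0 ndF1q2a pcF3 Cut.none Ext.none :=
  certFK2 (fam := true) (s1 := true) (s2 := true) (a := 0) (b := 2) (c := 3) (cn := .up) (n1 := ndF1q0) (n2 := ndF1q2a) (pc := pcF3) (cut := Cut.none) (xt := Ext.none) (P1 := 0) (W1 := 536870912) (P2 := 0) (W2 := 536870912) (P3 := 50331648) (W3 := 16777216)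
    rfl rfl rfl (fun _ => rfl) k0_pp_023_a

noncomputable def f_pp_023_b : ℕ → ℕ → ℕ → ℕ → Bool := onCell 1610612736 536870912 1239849684 370763052 50331648 16777216
    (rowFK 2 true true true .up 0 2 3 (qsf 0 536870912 1239849684 370763052 3) ndF1q0 ndF1q2b pcF3 Cut.none Ext.none)

def k0_pp_023_b : ∃ t, chk3 f_pp_023_b t 1 1 1 = true :=
  ⟨(l 4), by decide +kernel⟩

theorem c_pp_023_b : CertF 0 536870912 1239849684 370763052 50331648 16777216 true true true .up 0 2 3
    ndF1q0 ndF1q2b pcF3 Cut.none Ext.none :=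
  certFK2 (fam := true) (s1 := true) (s2 := true) (a := 0) (b := 2) (c := 3) (cn := .up) (n1 := ndF1q0) (n2 := ndF1q2b) (pc := pcF3) (cut := Cut.none) (xt := Ext.none) (P1 := 0) (W1 := 536870912) (P2 := 1239849684) (W2 := 370763052) (P3 := 50331648) (W3 := 16777216)
    rfl rfl rfl (fun _ => rfl) k0_pp_023_b

noncomputable def f_pp_033 : ℕ → ℕ → ℕ → ℕ → Bool := onCell 0 536870912 1610612736 536870912 50331648 16777216
    (rowFK 0 true true true .pnn 0 3 3 (qsf 0 536870912 1610612736 536870912 3) ndF1q0 ndF1q3 pcF3 Cut.none Ext.none)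

def k0_pp_033 : ∃ t, chk3 f_pp_033 t 1 1 1 = true :=
  ⟨(a (l 4) (l 4)), by decide +kernel⟩

theorem c_pp_033 : CertF 0 536870912 1610612736 536870912 50331648 16777216 true true true .pnn 0 3 3
    ndF1q0 ndF1q3 pcF3 Cut.none Ext.none :=
  certFK0 (fam := true) (s1 := true) (s2 := true) (a := 0) (b := 3) (c := 3) (cn := .pnn) (n1 := ndF1q0) (n2 := ndF1q3) (pc := pcF3) (cut := Cut.none) (xt := Ext.none) (P1 := 0) (W1 := 536870912) (P2 := 1610612736) (W2 := 536870912) (P3 := 50331648) (W3 := 16777216)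
    rfl rfl rfl k0_pp_033

noncomputable def f_pp_101 : ℕ → ℕ → ℕ → ℕ → Bool := onCell 536870912 536870912 0 536870912 50331648 16777216
    (rowFK 0 true true true .npn 1 0 1 (qsf 536870912 536870912 0 536870912 1) ndF1q1 ndF1q0 pcF1 Cut.none Ext.none)

def k0_pp_101 : ∃ t, chk3 f_pp_101 t 1 1 1 = true :=
  ⟨(l 4), by decide +kernel⟩

theorem c_pp_101 : CertF 536870912 536870912 0 536870912 50331648 16777216 true true true .npn 1 0 1
    ndF1q1 ndF1q0 pcF1 Cut.none Ext.none :=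
  certFK0 (fam := true) (s1 := true) (s2 := true) (a := 1) (b := 0) (c := 1) (cn := .npn) (n1 := ndF1q1) (n2 := ndF1q0) (pc := pcF1) (cut := Cut.none) (xt := Ext.none) (P1 := 536870912) (W1 := 536870912) (P2 := 0) (W2 := 536870912) (P3 := 50331648) (W3 := 16777216)
    rfl rfl rfl k0_pp_101

noncomputable def f_pp_102 : ℕ → ℕ → ℕ → ℕ → Bool := onCell 536870912 536870912 0 536870912 50331648 16777216
    (rowFK 0 true true true .npp 1 0 2 (qsf 536870912 536870912 0 536870912 2) ndF1q1 ndF1q0 pcF2 Cut.none Ext.none)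

def k0_pp_102 : ∃ t, chk3 f_pp_102 t 1 1 1 = true :=
  ⟨(l 4), by decide +kernel⟩

theorem c_pp_102 : CertF 536870912 536870912 0 536870912 50331648 16777216 true true true .npp 1 0 2
    ndF1q1 ndF1q0 pcF2 Cut.none Ext.none :=
  certFK0 (fam := true) (s1 := true) (s2 := true) (a := 1) (b := 0) (c := 2) (cn := .npp) (n1 := ndF1q1) (n2 := ndF1q0) (pc := pcF2) (cut := Cut.none) (xt := Ext.none) (P1 := 536870912) (W1 := 536870912) (P2 := 0) (W2 := 536870912) (P3 := 50331648) (W3 := 16777216)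
    rfl rfl rfl k0_pp_102

noncomputable def f_pp_112 : ℕ → ℕ → ℕ → ℕ → Bool := onCell 536870912 536870912 536870912 536870912 50331648 16777216
    (rowFK 0 true true true .dn 1 1 2 (qsf 536870912 536870912 536870912 536870912 2) ndF1q1 ndF1q1 pcF2 Cut.none Ext.none)

def k0_pp_112 : ∃ t, chk3 f_pp_112 t 1 1 1 = true :=
  ⟨(l 4), by decide +kernel⟩

theorem c_pp_112 : CertF 536870912 536870912 536870912 536870912 50331648 16777216 true true true .dn 1 1 2
    ndF1q1 ndF1q1 pcF2 Cut.none Ext.none :=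
  certFK0 (fam := true) (s1 := true) (s2 := true) (a := 1) (b := 1) (c := 2) (cn := .dn) (n1 := ndF1q1) (n2 := ndF1q1) (pc := pcF2) (cut := Cut.none) (xt := Ext.none) (P1 := 536870912) (W1 := 536870912) (P2 := 536870912) (W2 := 536870912) (P3 := 50331648) (W3 := 16777216)
    rfl rfl rfl k0_pp_112

noncomputable def f_pp_113 : ℕ → ℕ → ℕ → ℕ → Bool := onCell 536870912 536870912 536870912 536870912 50331648 16777216
    (rowFK 0 true true true .nn 1 1 3 (qsf 536870912 536870912 536870912 536870912 3) ndF1q1 ndF1q1 pcF3 Cut.none Ext.none)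

def k0_pp_113 : ∃ t, chk3 f_pp_113 t 1 1 1 = true :=
  ⟨(l 4), by decide +kernel⟩

theorem c_pp_113 : CertF 536870912 536870912 536870912 536870912 50331648 16777216 true true true .nn 1 1 3
    ndF1q1 ndF1q1 pcF3 Cut.none Ext.none :=
  certFK0 (fam := true) (s1 := true) (s2 := true) (a := 1) (b := 1) (c := 3) (cn := .nn) (n1 := ndF1q1) (n2 := ndF1q1) (pc := pcF3) (cut := Cut.none) (xt := Ext.none) (P1 := 536870912) (W1 := 536870912) (P2 := 536870912) (W2 := 536870912) (P3 := 50331648) (W3 := 16777216)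
    rfl rfl rfl k0_pp_113

noncomputable def f_pp_123_a : ℕ → ℕ → ℕ → ℕ → Bool := onCell 536870912 536870912 0 536870912 50331648 16777216
    (rowFK 0 true true true .npn 1 2 3 (qsf 536870912 536870912 0 536870912 3) ndF1q1 ndF1q2a pcF3 Cut.none Ext.none)

def k0_pp_123_a : ∃ t, chk3 f_pp_123_a t 1 1 1 = true :=
  ⟨(l 4), by decide +kernel⟩

theorem c_pp_123_a : CertF 536870912 536870912 0 536870912 50331648 16777216 true true true .npn 1 2 3
    ndF1q1 ndF1q2a pcF3 Cut.none Ext.none :=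
  certFK0 (fam := true) (s1 := true) (s2 := true) (a := 1) (b := 2) (c := 3) (cn := .npn) (n1 := ndF1q1) (n2 := ndF1q2a) (pc := pcF3) (cut := Cut.none) (xt := Ext.none) (P1 := 536870912) (W1 := 536870912) (P2 := 0) (W2 := 536870912) (P3 := 50331648) (W3 := 16777216)
    rfl rfl rfl k0_pp_123_a

noncomputable def f_pp_123_b : ℕ → ℕ → ℕ → ℕ → Bool := onCell 536870912 536870912 1239849684 370763052 50331648 16777216
    (rowFK 0 true true true .npn 1 2 3 (qsf 536870912 536870912 1239849684 370763052 3) ndF1q1 ndF1q2b pcF3 Cut.none Ext.none)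

def k0_pp_123_b : ∃ t, chk3 f_pp_123_b t 1 1 1 = true :=
  ⟨(l 4), by decide +kernel⟩

theorem c_pp_123_b : CertF 536870912 536870912 1239849684 370763052 50331648 16777216 true true true .npn 1 2 3
    ndF1q1 ndF1q2b pcF3 Cut.none Ext.none :=
  certFK0 (fam := true) (s1 := true) (s2 := true) (a := 1) (b := 2) (c := 3) (cn := .npn) (n1 := ndF1q1) (n2 := ndF1q2b) (pc := pcF3) (cut := Cut.none) (xt := Ext.none) (P1 := 536870912) (W1 := 536870912) (P2 := 1239849684) (W2 := 370763052) (P3 := 50331648) (W3 := 16777216)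
    rfl rfl rfl k0_pp_123_b

noncomputable def f_pp_133 : ℕ → ℕ → ℕ → ℕ → Bool := onCell 536870912 536870912 1610612736 536870912 50331648 16777216
    (rowFK 0 true true true .dn 1 3 3 (qsf 536870912 536870912 1610612736 536870912 3) ndF1q1 ndF1q3 pcF3 Cut.none Ext.none)

def k0_pp_133 : ∃ t, chk3 f_pp_133 t 1 1 1 = true :=
  ⟨(l 4), by decide +kernel⟩

theorem c_pp_133 : CertF 536870912 536870912 1610612736 536870912 50331648 16777216 true true true .dn 1 3 3
    ndF1q1 ndF1q3 pcF3 Cut.none Ext.none :=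
  certFK0 (fam := true) (s1 := true) (s2 := true) (a := 1) (b := 3) (c := 3) (cn := .dn) (n1 := ndF1q1) (n2 := ndF1q3) (pc := pcF3) (cut := Cut.none) (xt := Ext.none) (P1 := 536870912) (W1 := 536870912) (P2 := 1610612736) (W2 := 536870912) (P3 := 50331648) (W3 := 16777216)
    rfl rfl rfl k0_pp_133

noncomputable def f_pp_202_a : ℕ → ℕ → ℕ → ℕ → Bool := onCell 0 536870912 0 536870912 50331648 16777216
    (rowFK 0 true true true .pp 2 0 2 (qsf 0 536870912 0 536870912 2) ndF1q2a ndF1q0 pcF2 Cut.none Ext.none)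

def k0_pp_202_a : ∃ t, chk3 f_pp_202_a t 1 1 1 = true :=
  ⟨(l 5), by decide +kernel⟩

theorem c_pp_202_a : CertF 0 536870912 0 536870912 50331648 16777216 true true true .pp 2 0 2
    ndF1q2a ndF1q0 pcF2 Cut.none Ext.none :=
  certFK0 (fam := true) (s1 := true) (s2 := true) (a := 2) (b := 0) (c := 2) (cn := .pp) (n1 := ndF1q2a) (n2 := ndF1q0) (pc := pcF2) (cut := Cut.none) (xt := Ext.none) (P1 := 0) (W1 := 536870912) (P2 := 0) (W2 := 536870912) (P3 := 50331648) (W3 := 16777216)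
    rfl rfl rfl k0_pp_202_a

noncomputable def f_pp_202_b : ℕ → ℕ → ℕ → ℕ → Bool := onCell 1239849684 370763052 0 536870912 50331648 16777216
    (rowFK 0 true true true .pp 2 0 2 (qsf 1239849684 370763052 0 536870912 2) ndF1q2b ndF1q0 pcF2 Cut.none Ext.none)

def k0_pp_202_b : ∃ t, chk3 f_pp_202_b t 1 1 1 = true :=
  ⟨(l 5), by decide +kernel⟩

theorem c_pp_202_b : CertF 1239849684 370763052 0 536870912 50331648 16777216 true true true .pp 2 0 2
    ndF1q2b ndF1q0 pcF2 Cut.none Ext.none :=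
  certFK0 (fam := true) (s1 := true) (s2 := true) (a := 2) (b := 0) (c := 2) (cn := .pp) (n1 := ndF1q2b) (n2 := ndF1q0) (pc := pcF2) (cut := Cut.none) (xt := Ext.none) (P1 := 1239849684) (W1 := 370763052) (P2 := 0) (W2 := 536870912) (P3 := 50331648) (W3 := 16777216)
    rfl rfl rfl k0_pp_202_b

noncomputable def f_pp_203_a : ℕ → ℕ → ℕ → ℕ → Bool := onCell 0 536870912 0 536870912 50331648 16777216
    (rowFK 0 true true true .up 2 0 3 (qsf 0 536870912 0 536870912 3) ndF1q2a ndF1q0 pcF3 Cut.none Ext.none)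

def k0_pp_203_a : ∃ t, chk3 f_pp_203_a t 1 1 1 = true :=
  ⟨(l 5), by decide +kernel⟩

theorem c_pp_203_a : CertF 0 536870912 0 536870912 50331648 16777216 true true true .up 2 0 3
    ndF1q2a ndF1q0 pcF3 Cut.none Ext.none :=
  certFK0 (fam := true) (s1 := true) (s2 := true) (a := 2) (b := 0) (c := 3) (cn := .up) (n1 := ndF1q2a) (n2 := ndF1q0) (pc := pcF3) (cut := Cut.none) (xt := Ext.none) (P1 := 0) (W1 := 536870912) (P2 := 0) (W2 := 536870912) (P3 := 50331648) (W3 := 16777216)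
    rfl rfl rfl k0_pp_203_a

noncomputable def f_pp_203_b : ℕ → ℕ → ℕ → ℕ → Bool := onCell 1239849684 370763052 0 536870912 50331648 16777216
    (rowFK 0 true true true .up 2 0 3 (qsf 1239849684 370763052 0 536870912 3) ndF1q2b ndF1q0 pcF3 Cut.none Ext.none)

def k0_pp_203_b : ∃ t, chk3 f_pp_203_b t 1 1 1 = true :=
  ⟨(l 5), by decide +kernel⟩

theorem c_pp_203_b : CertF 1239849684 370763052 0 536870912 50331648 16777216 true true true .up 2 0 3
    ndF1q2b ndF1q0 pcF3 Cut.none Ext.none :=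
  certFK0 (fam := true) (s1 := true) (s2 := true) (a := 2) (b := 0) (c := 3) (cn := .up) (n1 := ndF1q2b) (n2 := ndF1q0) (pc := pcF3) (cut := Cut.none) (xt := Ext.none) (P1 := 1239849684) (W1 := 370763052) (P2 := 0) (W2 := 536870912) (P3 := 50331648) (W3 := 16777216)
    rfl rfl rfl k0_pp_203_b

noncomputable def f_pp_213_a : ℕ → ℕ → ℕ → ℕ → Bool := onCell 0 536870912 536870912 536870912 50331648 16777216
    (rowFK 0 true true true .pnn 2 1 3 (qsf 0 536870912 536870912 536870912 3) ndF1q2a ndF1q1 pcF3 Cut.none Ext.none)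

def k0_pp_213_a : ∃ t, chk3 f_pp_213_a t 1 1 1 = true :=
  ⟨(l 4), by decide +kernel⟩

theorem c_pp_213_a : CertF 0 536870912 536870912 536870912 50331648 16777216 true true true .pnn 2 1 3
    ndF1q2a ndF1q1 pcF3 Cut.none Ext.none :=
  certFK0 (fam := true) (s1 := true) (s2 := true) (a := 2) (b := 1) (c := 3) (cn := .pnn) (n1 := ndF1q2a) (n2 := ndF1q1) (pc := pcF3) (cut := Cut.none) (xt := Ext.none) (P1 := 0) (W1 := 536870912) (P2 := 536870912) (W2 := 536870912) (P3 := 50331648) (W3 := 16777216)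
    rfl rfl rfl k0_pp_213_a

noncomputable def f_pp_213_b : ℕ → ℕ → ℕ → ℕ → Bool := onCell 1239849684 370763052 536870912 536870912 50331648 16777216
    (rowFK 0 true true true .pnn 2 1 3 (qsf 1239849684 370763052 536870912 536870912 3) ndF1q2b ndF1q1 pcF3 Cut.none Ext.none)

def k0_pp_213_b : ∃ t, chk3 f_pp_213_b t 1 1 1 = true :=
  ⟨(l 4), by decide +kernel⟩

theorem c_pp_213_b : CertF 1239849684 370763052 536870912 536870912 50331648 16777216 true true true .pnn 2 1 3
    ndF1q2b ndF1q1 pcF3 Cut.none Ext.none :=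
  certFK0 (fam := true) (s1 := true) (s2 := true) (a := 2) (b := 1) (c := 3) (cn := .pnn) (n1 := ndF1q2b) (n2 := ndF1q1) (pc := pcF3) (cut := Cut.none) (xt := Ext.none) (P1 := 1239849684) (W1 := 370763052) (P2 := 536870912) (W2 := 536870912) (P3 := 50331648) (W3 := 16777216)
    rfl rfl rfl k0_pp_213_b

noncomputable def f_pp_303 : ℕ → ℕ → ℕ → ℕ → Bool := onCell 1610612736 536870912 0 536870912 50331648 16777216
    (rowFK 0 true true true .npn 3 0 3 (qsf 1610612736 536870912 0 536870912 3) ndF1q3 ndF1q0 pcF3 Cut.none Ext.none)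

def k0_pp_303 : ∃ t, chk3 f_pp_303 t 1 1 1 = true :=
  ⟨(l 5), by decide +kernel⟩

theorem c_pp_303 : CertF 1610612736 536870912 0 536870912 50331648 16777216 true true true .npn 3 0 3
    ndF1q3 ndF1q0 pcF3 Cut.none Ext.none :=
  certFK0 (fam := true) (s1 := true) (s2 := true) (a := 3) (b := 0) (c := 3) (cn := .npn) (n1 := ndF1q3) (n2 := ndF1q0) (pc := pcF3) (cut := Cut.none) (xt := Ext.none) (P1 := 1610612736) (W1 := 536870912) (P2 := 0) (W2 := 536870912) (P3 := 50331648) (W3 := 16777216)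
    rfl rfl rfl k0_pp_303

noncomputable def f_pp_313 : ℕ → ℕ → ℕ → ℕ → Bool := onCell 1610612736 536870912 536870912 536870912 50331648 16777216
    (rowFK 0 true true true .dn 3 1 3 (qsf 1610612736 536870912 536870912 536870912 3) ndF1q3 ndF1q1 pcF3 Cut.none Ext.none)

def k0_pp_313 : ∃ t, chk3 f_pp_313 t 1 1 1 = true :=
  ⟨(l 4), by decide +kernel⟩

theorem c_pp_313 : CertF 1610612736 536870912 536870912 536870912 50331648 16777216 true true true .dn 3 1 3
    ndF1q3 ndF1q1 pcF3 Cut.none Ext.none :=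
  certFK0 (fam := true) (s1 := true) (s2 := true) (a := 3) (b := 1) (c := 3) (cn := .dn) (n1 := ndF1q3) (n2 := ndF1q1) (pc := pcF3) (cut := Cut.none) (xt := Ext.none) (P1 := 1610612736) (W1 := 536870912) (P2 := 536870912) (W2 := 536870912) (P3 := 50331648) (W3 := 16777216)
    rfl rfl rfl k0_pp_313

noncomputable def f_pm_001 : ℕ → ℕ → ℕ → ℕ → Bool := onCell 0 536870912 0 536870912 50331648 16777216
    (rowFK 0 true true false .up 0 0 1 (qsf 0 536870912 0 536870912 1) ndF1q0 ndF1q0 pcF1 Cut.none Ext.none)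

def k0_pm_001 : ∃ t, chk3 f_pm_001 t 1 1 1 = true :=
  ⟨(l 3), by decide +kernel⟩

theorem c_pm_001 : CertF 0 536870912 0 536870912 50331648 16777216 true true false .up 0 0 1
    ndF1q0 ndF1q0 pcF1 Cut.none Ext.none :=
  certFK0 (fam := true) (s1 := true) (s2 := false) (a := 0) (b := 0) (c := 1) (cn := .up) (n1 := ndF1q0) (n2 := ndF1q0) (pc := pcF1) (cut := Cut.none) (xt := Ext.none) (P1 := 0) (W1 := 536870912) (P2 := 0) (W2 := 536870912) (P3 := 50331648) (W3 := 16777216)
    rfl rfl rfl k0_pm_001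

noncomputable def f_pm_011 : ℕ → ℕ → ℕ → ℕ → Bool := onCell 0 536870912 536870912 536870912 50331648 16777216
    (rowFK 1 true true false .pnn 0 1 1 (qsf 0 536870912 536870912 536870912 1) ndF1q0 ndF1q1 pcF1 Cut.none Ext.none)

def k0_pm_011 : ∃ t, chk3 f_pm_011 t 1 1 1 = true :=
  ⟨(l 3), by decide +kernel⟩

theorem c_pm_011 : CertF 0 536870912 536870912 536870912 50331648 16777216 true true false .pnn 0 1 1
    ndF1q0 ndF1q1 pcF1 Cut.none Ext.none :=
  certFK1 (fam := true) (s1 := true) (s2 := false) (a := 0) (b := 1) (c := 1) (cn := .pnn) (n1 := ndF1q0) (n2 := ndF1q1) (pc := pcF1) (cut := Cut.none) (xt := Ext.none) (P1 := 0) (W1 := 536870912) (P2 := 536870912) (W2 := 536870912) (P3 := 50331648) (W3 := 16777216)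
    rfl rfl rfl (fun _ => rfl) k0_pm_011

noncomputable def f_pm_012 : ℕ → ℕ → ℕ → ℕ → Bool := onCell 1073741824 536870912 536870912 536870912 50331648 16777216
    (rowFK 2 true true false .pnp 0 1 2 (qsf 0 536870912 536870912 536870912 2) ndF1q0 ndF1q1 pcF2 Cut.none Ext.none)

def k0_pm_012 : ∃ t, chk3 f_pm_012 t 1 1 1 = true :=
  ⟨(a (a (l 3) (a (a (a (l 3) (b (l 63991249175) (a (l 3) (a (l 3) (b (l 18121640) (l 18458496)))))) (b (l 18011056) (b (l 18173368) (l 18514224)))) (b (l 18075616) (b (l 18270344) (l 18604360))))) (b (l 18185088) (b (l 18363008) (l 18805496)))), by decide +kernel⟩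

theorem c_pm_012 : CertF 0 536870912 536870912 536870912 50331648 16777216 true true false .pnp 0 1 2
    ndF1q0 ndF1q1 pcF2 Cut.none Ext.none :=
  certFK2 (fam := true) (s1 := true) (s2 := false) (a := 0) (b := 1) (c := 2) (cn := .pnp) (n1 := ndF1q0) (n2 := ndF1q1) (pc := pcF2) (cut := Cut.none) (xt := Ext.none) (P1 := 0) (W1 := 536870912) (P2 := 536870912) (W2 := 536870912) (P3 := 50331648) (W3 := 16777216)
    rfl rfl rfl (fun _ => rfl) k0_pm_012

noncomputable def cut_pm_022_a : Cut := Cut.of [[⟨0, 0, 0, 50331648⟩, ⟨1, 1, 0, 50331648⟩, ⟨2, 1, 0, 50331648⟩]]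

noncomputable def f_pm_022_a : ℕ → ℕ → ℕ → ℕ → Bool := onCell 0 536870912 0 536870912 50331648 16777216
    (rowFK 0 true true false .pp 0 2 2 (qsf 0 536870912 0 536870912 2) ndF1q0 ndF1q2a pcF2 cut_pm_022_a Ext.none)

def k0_pm_022_a : ∃ t, chk3 f_pm_022_a t 1 1 1 = true :=
  ⟨(a (b (a (a (a (l 18854336) (l 18768592)) (l 18667856)) (l 18490352)) (a (b (a (a (a (b (l 18647136) (a (b (l 18344160) (a (b (l 18056544) (l 17817368)) (l 18029808))) (l 18285976))) (l 18543768)) (l 18582976)) (l 18597976)) (a (b (a (a (a (b (a (a (b (l 17250200) (b (l 17080584) (l 16905200))) (b (l 17553432) (l 17173480))) (b (l 17650256) (l 17309560))) (b (a (b (l 16715448) (l 16725704)) (l 16852600)) (a (b (a (l 16728792) (l 16714976)) (l 6)) (l 16738088)))) (b (l 17428096) (l 16804808))) (b (l 17941640) (a (l 17288296) (l 17537120)))) (a (b (l 18139872) (l 17788008)) (l 18129704))) (a (b (a (b (a (l 6) (l 16784432)) (l 6)) (b (l 16837056) (a (l 16778856) (l 16742656)))) (a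 (l 6) (b (a (l 6) (l 16787072)) (l 6)))) (b (a (b (l 17416112) (l 17092016)) (l 17614560)) (a (b (l 16801440) (a (l 16845848) (l 16782304))) (b (l 17244168) (l 16934368)))))) (b (l 18327488) (a (b (l 17901480) (a (l 17432080) (l 17643280))) (l 18001528))))) (b (l 18576488) (b (l 18520272) (l 18599624))))) (b (a (l 18209352) (l 17855640)) (a (b (l 18413792) (l 18661456)) (b (l 18127800) (b (l 18316712) (l 18433800)))))), by decide +kernel⟩

theorem c_pm_022_a : CertF 0 536870912 0 536870912 50331648 16777216 true true false .pp 0 2 2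
    ndF1q0 ndF1q2a pcF2 cut_pm_022_a Ext.none :=
  certFK0 (fam := true) (s1 := true) (s2 := false) (a := 0) (b := 2) (c := 2) (cn := .pp) (n1 := ndF1q0) (n2 := ndF1q2a) (pc := pcF2) (cut := cut_pm_022_a) (xt := Ext.none) (P1 := 0) (W1 := 536870912) (P2 := 0) (W2 := 536870912) (P3 := 50331648) (W3 := 16777216)
    rfl rfl rfl k0_pm_022_a

noncomputable def cut_pm_022_b : Cut := Cut.of [[⟨0, 0, 0, 50331648⟩, ⟨1, 1, 0, 50331648⟩, ⟨2, 1, 0, 50331648⟩]]

noncomputable def f_pm_022_b : ℕ → ℕ → ℕ → ℕ → Bool := onCell 0 536870912 1073741824 536870912 50331648 16777216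
    (rowFK 1 true true false .pp 0 2 2 (qsf 0 536870912 1239849684 370763052 2) ndF1q0 ndF1q2b pcF2 cut_pm_022_b Ext.none)

def k0_pm_022_b : ∃ t, chk3 f_pm_022_b t 1 1 1 = true :=
  ⟨(a (b (b (l 1) (a (b (a (l 18708816) (l 1)) (l 18712608)) (l 1))) (b (a (l 18934064) (l 242702931591)) (a (l 18619576) (l 18412864)))) (b (l 1) (b (l 1) (a (l 18060880) (l 1))))), by decide +kernel⟩

theorem c_pm_022_b : CertF 0 536870912 1239849684 370763052 50331648 16777216 true true false .pp 0 2 2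
    ndF1q0 ndF1q2b pcF2 cut_pm_022_b Ext.none :=
  certFK1 (fam := true) (s1 := true) (s2 := false) (a := 0) (b := 2) (c := 2) (cn := .pp) (n1 := ndF1q0) (n2 := ndF1q2b) (pc := pcF2) (cut := cut_pm_022_b) (xt := Ext.none) (P1 := 0) (W1 := 536870912) (P2 := 1239849684) (W2 := 370763052) (P3 := 50331648) (W3 := 16777216)
    rfl rfl rfl (fun _ => rfl) k0_pm_022_b

noncomputable def f_pm_023_a : ℕ → ℕ → ℕ → ℕ → Bool := onCell 1610612736 536870912 0 536870912 50331648 16777216
    (rowFK 2 true true false .up 0 2 3 (qsf 0 536870912 0 536870912 3) ndF1q0 ndF1q2a pcF3 Cut.none Ext.none)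

def k0_pm_023_a : ∃ t, chk3 f_pm_023_a t 1 1 1 = true :=
  ⟨(a (a (b (l 18493184) (b (l 18916152) (l 19716688))) (b (a (l 17926328) (l 2)) (a (l 18523344) (l 2)))) (l 2)), by decide +kernel⟩

theorem c_pm_023_a : CertF 0 536870912 0 536870912 50331648 16777216 true true false .up 0 2 3
    ndF1q0 ndF1q2a pcF3 Cut.none Ext.none :=
  certFK2 (fam := true) (s1 := true) (s2 := false) (a := 0) (b := 2) (c := 3) (cn := .up) (n1 := ndF1q0) (n2 := ndF1q2a) (pc := pcF3) (cut := Cut.none) (xt := Ext.none) (P1 := 0) (W1 := 536870912) (P2 := 0) (W2 := 536870912) (P3 := 50331648) (W3 := 16777216)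
    rfl rfl rfl (fun _ => rfl) k0_pm_023_a

noncomputable def f_pm_023_b : ℕ → ℕ → ℕ → ℕ → Bool := onCell 1610612736 536870912 1239849684 370763052 50331648 16777216
    (rowFK 2 true true false .up 0 2 3 (qsf 0 536870912 1239849684 370763052 3) ndF1q0 ndF1q2b pcF3 Cut.none Ext.none)

def k0_pm_023_b : ∃ t, chk3 f_pm_023_b t 1 1 1 = true :=
  ⟨(a (a (a (b (l 18318816) (l 18080456)) (l 18247120)) (a (l 18117432) (l 33926110791))) (a (l 4) (l 4))), by decide +kernel⟩

theorem c_pm_023_b : CertF 0 536870912 1239849684 370763052 50331648 16777216 true true false .up 0 2 3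
    ndF1q0 ndF1q2b pcF3 Cut.none Ext.none :=
  certFK2 (fam := true) (s1 := true) (s2 := false) (a := 0) (b := 2) (c := 3) (cn := .up) (n1 := ndF1q0) (n2 := ndF1q2b) (pc := pcF3) (cut := Cut.none) (xt := Ext.none) (P1 := 0) (W1 := 536870912) (P2 := 1239849684) (W2 := 370763052) (P3 := 50331648) (W3 := 16777216)
    rfl rfl rfl (fun _ => rfl) k0_pm_023_b

noncomputable def f_pm_033 : ℕ → ℕ → ℕ → ℕ → Bool := onCell 0 536870912 1610612736 536870912 50331648 16777216
    (rowFK 1 true true false .pnn 0 3 3 (qsf 0 536870912 1610612736 536870912 3) ndF1q0 ndF1q3 pcF3 Cut.none Ext.none)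

def k0_pm_033 : ∃ t, chk3 f_pm_033 t 1 1 1 = true :=
  ⟨(b (b (a (b (l 336118039015) (l 18024840)) (l 1)) (a (b (l 18113000) (l 18232792)) (b (l 1) (l 17685592)))) (b (a (b (l 18182952) (l 4)) (l 4)) (l 4))), by decide +kernel⟩

theorem c_pm_033 : CertF 0 536870912 1610612736 536870912 50331648 16777216 true true false .pnn 0 3 3
    ndF1q0 ndF1q3 pcF3 Cut.none Ext.none :=
  certFK1 (fam := true) (s1 := true) (s2 := false) (a := 0) (b := 3) (c := 3) (cn := .pnn) (n1 := ndF1q0) (n2 := ndF1q3) (pc := pcF3) (cut := Cut.none) (xt := Ext.none) (P1 := 0) (W1 := 536870912) (P2 := 1610612736) (W2 := 536870912) (P3 := 50331648) (W3 := 16777216)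
    rfl rfl rfl (fun _ => rfl) k0_pm_033

noncomputable def f_pm_101 : ℕ → ℕ → ℕ → ℕ → Bool := onCell 536870912 536870912 0 536870912 50331648 16777216
    (rowFK 2 true true false .npn 1 0 1 (qsf 536870912 536870912 0 536870912 1) ndF1q1 ndF1q0 pcF1 Cut.none Ext.none)

def k0_pm_101 : ∃ t, chk3 f_pm_101 t 1 1 1 = true :=
  ⟨(l 3), by decide +kernel⟩

theorem c_pm_101 : CertF 536870912 536870912 0 536870912 50331648 16777216 true true false .npn 1 0 1
    ndF1q1 ndF1q0 pcF1 Cut.none Ext.none :=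
  certFK2 (fam := true) (s1 := true) (s2 := false) (a := 1) (b := 0) (c := 1) (cn := .npn) (n1 := ndF1q1) (n2 := ndF1q0) (pc := pcF1) (cut := Cut.none) (xt := Ext.none) (P1 := 536870912) (W1 := 536870912) (P2 := 0) (W2 := 536870912) (P3 := 50331648) (W3 := 16777216)
    rfl rfl rfl (fun _ => rfl) k0_pm_101

noncomputable def f_pm_102 : ℕ → ℕ → ℕ → ℕ → Bool := onCell 536870912 536870912 1073741824 536870912 50331648 16777216
    (rowFK 1 true true false .npp 1 0 2 (qsf 536870912 536870912 0 536870912 2) ndF1q1 ndF1q0 pcF2 Cut.none Ext.none)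

def k0_pm_102 : ∃ t, chk3 f_pm_102 t 1 1 1 = true :=
  ⟨(b (b (l 3) (b (b (b (l 3) (a (l 63991249175) (a (l 18186776) (b (l 3) (a (l 18330960) (l 18606952)))))) (a (l 18011056) (a (l 18173368) (l 18514224)))) (a (l 18075616) (a (l 18270344) (l 18604360))))) (a (l 18185088) (a (l 18363008) (l 18574816)))), by decide +kernel⟩

theorem c_pm_102 : CertF 536870912 536870912 0 536870912 50331648 16777216 true true false .npp 1 0 2
    ndF1q1 ndF1q0 pcF2 Cut.none Ext.none :=
  certFK1 (fam := true) (s1 := true) (s2 := false) (a := 1) (b := 0) (c := 2) (cn := .npp) (n1 := ndF1q1) (n2 := ndF1q0) (pc := pcF2) (cut := Cut.none) (xt := Ext.none) (P1 := 536870912) (W1 := 536870912) (P2 := 0) (W2 := 536870912) (P3 := 50331648) (W3 := 16777216)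
    rfl rfl rfl (fun _ => rfl) k0_pm_102

noncomputable def f_pm_112 : ℕ → ℕ → ℕ → ℕ → Bool := onCell 536870912 536870912 1073741824 536870912 50331648 16777216
    (rowFK 1 true true false .dn 1 1 2 (qsf 536870912 536870912 536870912 536870912 2) ndF1q1 ndF1q1 pcF2 Cut.none Ext.none)

def k0_pm_112 : ∃ t, chk3 f_pm_112 t 1 1 1 = true :=
  ⟨(b (b (l 3) (b (a (b (b (l 3) (l 18927232)) (l 18858592)) (l 1)) (l 18664080))) (a (l 18320896) (l 18306568))), by decide +kernel⟩

theorem c_pm_112 : CertF 536870912 536870912 536870912 536870912 50331648 16777216 true true false .dn 1 1 2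
    ndF1q1 ndF1q1 pcF2 Cut.none Ext.none :=
  certFK1 (fam := true) (s1 := true) (s2 := false) (a := 1) (b := 1) (c := 2) (cn := .dn) (n1 := ndF1q1) (n2 := ndF1q1) (pc := pcF2) (cut := Cut.none) (xt := Ext.none) (P1 := 536870912) (W1 := 536870912) (P2 := 536870912) (W2 := 536870912) (P3 := 50331648) (W3 := 16777216)
    rfl rfl rfl (fun _ => rfl) k0_pm_112

noncomputable def f_pm_113 : ℕ → ℕ → ℕ → ℕ → Bool := onCell 536870912 536870912 536870912 536870912 50331648 16777216
    (rowFK 0 true true false .nn 1 1 3 (qsf 536870912 536870912 536870912 536870912 3) ndF1q1 ndF1q1 pcF3 Cut.none Ext.none)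

def k0_pm_113 : ∃ t, chk3 f_pm_113 t 1 1 1 = true :=
  ⟨(a (b (l 371015538615) (l 18040528)) (b (l 18040528) (b (l 17493040) (a (l 17405304) (a (l 17109392) (b (l 17072928) (a (l 16934240) (b (l 16916672) (a (l 16853016) (b (l 16844176) (a (l 16814368) (b (l 16809904) (a (l 16795592) (b (l 16793344) (l 16784488))))))))))))))), by decide +kernel⟩

theorem c_pm_113 : CertF 536870912 536870912 536870912 536870912 50331648 16777216 true true false .nn 1 1 3
    ndF1q1 ndF1q1 pcF3 Cut.none Ext.none :=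
  certFK0 (fam := true) (s1 := true) (s2 := false) (a := 1) (b := 1) (c := 3) (cn := .nn) (n1 := ndF1q1) (n2 := ndF1q1) (pc := pcF3) (cut := Cut.none) (xt := Ext.none) (P1 := 536870912) (W1 := 536870912) (P2 := 536870912) (W2 := 536870912) (P3 := 50331648) (W3 := 16777216)
    rfl rfl rfl k0_pm_113

end Pool.Agent.Strip051.G.I3_64_1_16.Tab.C.FA11

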