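import Pool.Agent.Strip051.G.I3_64_1_16.AsmH
import Pool.Agent.Strip051.G.I3_64_1_16.TrF1
import Pool.Agent.Strip051.G.I3_64_1_16.CrnF_0

/-! # Rows from certificates (generated) -/

set_option linter.all false
set_option maxRecDepth 100000

namespace Pool.Agent.Strip051.G.I3_64_1_16.Tab

open Pool.Agent.Strip051.PB Pool.Agent.StripNear Pool.Agent.Strip051.LC

theorem FA14_pp_001 {κ x : ℝ} (hκ : κ * h0 = ken x) (hx : ((50331648 : ℕ) : ℝ) / S ≤ x) (hx' : x ≤ (((50331648 : ℕ) : ℝ) + (16777216 : ℕ)) / S) :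
    TriA PP.cur (farS κ (h0 * x) (tbl tKF x) (tbl tL x)) 0 0 1 1 4 1 1 :=
  (sideF hx hx').farA (Or.inl rfl) (Or.inl rfl) fun y y' F =>
    farA_cert (s1 := true) (s2 := true) rfl hκ covF10 covF40 hx hx'
        Pool.Agent.Strip051.G.I3_64_1_16.Tab.C.FA14.c_pp_001 noCut_A noExt_A F trivial trivial

theorem FA14_pp_011 {κ x : ℝ} (hκ : κ * h0 = ken x) (hx : ((50331648 : ℕ) : ℝ) / S ≤ x) (hx' : x ≤ (((50331648 : ℕ) : ℝ) + (16777216 : ℕ)) / S) :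
    TriA PP.cur (farS κ (h0 * x) (tbl tKF x) (tbl tL x)) 0 1 1 1 4 1 1 :=
  (sideF hx hx').farA (Or.inl rfl) (Or.inl rfl) fun y y' F =>
    farA_cert (s1 := true) (s2 := true) rfl hκ covF10 covF41 hx hx'
        Pool.Agent.Strip051.G.I3_64_1_16.Tab.C.FA14.c_pp_011 noCut_A noExt_A F trivial trivial

theorem FA14_pp_012 {κ x : ℝ} (hκ : κ * h0 = ken x) (hx : ((50331648 : ℕ) : ℝ) / S ≤ x) (hx' : x ≤ (((50331648 : ℕ) : ℝ) + (16777216 : ℕ)) / S) :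
    TriA PP.cur (farS κ (h0 * x) (tbl tKF x) (tbl tL x)) 0 1 2 1 4 1 1 :=
  (sideF hx hx').farA (Or.inl rfl) (Or.inl rfl) fun y y' F =>
    farA_cert (s1 := true) (s2 := true) rfl hκ covF10 covF41 hx hx'
        Pool.Agent.Strip051.G.I3_64_1_16.Tab.C.FA14.c_pp_012 noCut_A noExt_A F trivial trivial

theorem FA14_pp_022 {κ x : ℝ} (hκ : κ * h0 = ken x) (hx : ((50331648 : ℕ) : ℝ) / S ≤ x) (hx' : x ≤ (((50331648 : ℕ) : ℝ) + (16777216 : ℕ)) / S) :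
    TriA PP.cur (farS κ (h0 * x) (tbl tKF x) (tbl tL x)) 0 2 2 1 4 1 1 :=
  (sideF hx hx').farA (Or.inl rfl) (Or.inl rfl) fun y y' F =>
    farA_cert (s1 := true) (s2 := true) rfl hκ covF10 covF42 hx hx'
        Pool.Agent.Strip051.G.I3_64_1_16.Tab.C.FA14.c_pp_022 noCut_A noExt_A F trivial trivial

theorem FA14_pp_023 {κ x : ℝ} (hκ : κ * h0 = ken x) (hx : ((50331648 : ℕ) : ℝ) / S ≤ x) (hx' : x ≤ (((50331648 : ℕ) : ℝ) + (16777216 : ℕ)) / S) :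
    TriA PP.cur (farS κ (h0 * x) (tbl tKF x) (tbl tL x)) 0 2 3 1 4 1 1 :=
  (sideF hx hx').farA (Or.inl rfl) (Or.inl rfl) fun y y' F =>
    farA_cert (s1 := true) (s2 := true) rfl hκ covF10 covF42 hx hx'
        Pool.Agent.Strip051.G.I3_64_1_16.Tab.C.FA14.c_pp_023 noCut_A noExt_A F trivial trivial

theorem FA14_pp_033 {κ x : ℝ} (hκ : κ * h0 = ken x) (hx : ((50331648 : ℕ) : ℝ) / S ≤ x) (hx' : x ≤ (((50331648 : ℕ) : ℝ) + (16777216 : ℕ)) / S) :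
    TriA PP.cur (farS κ (h0 * x) (tbl tKF x) (tbl tL x)) 0 3 3 1 4 1 1 :=
  (sideF hx hx').farA (Or.inl rfl) (Or.inl rfl) fun y y' F =>
    farA_cert (s1 := true) (s2 := true) rfl hκ covF10 covF43 hx hx'
        Pool.Agent.Strip051.G.I3_64_1_16.Tab.C.FA14.c_pp_033 noCut_A noExt_A F trivial trivial

theorem FA14_pp_101 {κ x : ℝ} (hκ : κ * h0 = ken x) (hx : ((50331648 : ℕ) : ℝ) / S ≤ x) (hx' : x ≤ (((50331648 : ℕ) : ℝ) + (16777216 : ℕ)) / S) :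
    TriA PP.cur (farS κ (h0 * x) (tbl tKF x) (tbl tL x)) 1 0 1 1 4 1 1 :=
  (sideF hx hx').farA (Or.inl rfl) (Or.inl rfl) fun y y' F =>
    farA_cert (s1 := true) (s2 := true) rfl hκ covF11 covF40 hx hx'
        Pool.Agent.Strip051.G.I3_64_1_16.Tab.C.FA14.c_pp_101 noCut_A noExt_A F trivial trivial

theorem FA14_pp_102 {κ x : ℝ} (hκ : κ * h0 = ken x) (hx : ((50331648 : ℕ) : ℝ) / S ≤ x) (hx' : x ≤ (((50331648 : ℕ) : ℝ) + (16777216 : ℕ)) / S) :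
    TriA PP.cur (farS κ (h0 * x) (tbl tKF x) (tbl tL x)) 1 0 2 1 4 1 1 :=
  (sideF hx hx').farA (Or.inl rfl) (Or.inl rfl) fun y y' F =>
    farA_cert (s1 := true) (s2 := true) rfl hκ covF11 covF40 hx hx'
        Pool.Agent.Strip051.G.I3_64_1_16.Tab.C.FA14.c_pp_102 noCut_A noExt_A F trivial trivial

theorem FA14_pp_112 {κ x : ℝ} (hκ : κ * h0 = ken x) (hx : ((50331648 : ℕ) : ℝ) / S ≤ x) (hx' : x ≤ (((50331648 : ℕ) : ℝ) + (16777216 : ℕ)) / S) :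
    TriA PP.cur (farS κ (h0 * x) (tbl tKF x) (tbl tL x)) 1 1 2 1 4 1 1 :=
  (sideF hx hx').farA (Or.inl rfl) (Or.inl rfl) fun y y' F =>
    farA_cert (s1 := true) (s2 := true) rfl hκ covF11 covF41 hx hx'
        Pool.Agent.Strip051.G.I3_64_1_16.Tab.C.FA14.c_pp_112 noCut_A noExt_A F trivial trivial

theorem FA14_pp_113 {κ x : ℝ} (hκ : κ * h0 = ken x) (hx : ((50331648 : ℕ) : ℝ) / S ≤ x) (hx' : x ≤ (((50331648 : ℕ) : ℝ) + (16777216 : ℕ)) / S) :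
    TriA PP.cur (farS κ (h0 * x) (tbl tKF x) (tbl tL x)) 1 1 3 1 4 1 1 :=
  (sideF hx hx').farA (Or.inl rfl) (Or.inl rfl) fun y y' F =>
    farA_cert (s1 := true) (s2 := true) rfl hκ covF11 covF41 hx hx'
        Pool.Agent.Strip051.G.I3_64_1_16.Tab.C.FA14.c_pp_113 noCut_A noExt_A F trivial trivial

theorem FA14_pp_123 {κ x : ℝ} (hκ : κ * h0 = ken x) (hx : ((50331648 : ℕ) : ℝ) / S ≤ x) (hx' : x ≤ (((50331648 : ℕ) : ℝ) + (16777216 : ℕ)) / S) :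
    TriA PP.cur (farS κ (h0 * x) (tbl tKF x) (tbl tL x)) 1 2 3 1 4 1 1 :=
  (sideF hx hx').farA (Or.inl rfl) (Or.inl rfl) fun y y' F =>
    farA_cert (s1 := true) (s2 := true) rfl hκ covF11 covF42 hx hx'
        Pool.Agent.Strip051.G.I3_64_1_16.Tab.C.FA14.c_pp_123 noCut_A noExt_A F trivial trivial

theorem FA14_pp_133 {κ x : ℝ} (hκ : κ * h0 = ken x) (hx : ((50331648 : ℕ) : ℝ) / S ≤ x) (hx' : x ≤ (((50331648 : ℕ) : ℝ) + (16777216 : ℕ)) / S) :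
    TriA PP.cur (farS κ (h0 * x) (tbl tKF x) (tbl tL x)) 1 3 3 1 4 1 1 :=
  (sideF hx hx').farA (Or.inl rfl) (Or.inl rfl) fun y y' F =>
    farA_cert (s1 := true) (s2 := true) rfl hκ covF11 covF43 hx hx'
        Pool.Agent.Strip051.G.I3_64_1_16.Tab.C.FA14.c_pp_133 noCut_A noExt_A F trivial trivial

theorem FA14_pp_202 {κ x : ℝ} (hκ : κ * h0 = ken x) (hx : ((50331648 : ℕ) : ℝ) / S ≤ x) (hx' : x ≤ (((50331648 : ℕ) : ℝ) + (16777216 : ℕ)) / S) :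
    TriA PP.cur (farS κ (h0 * x) (tbl tKF x) (tbl tL x)) 2 0 2 1 4 1 1 :=
  (sideF hx hx').farA (Or.inl rfl) (Or.inl rfl) fun y y' F =>
    (lt_or_ge (h0 * y) 1).elim
      (fun h => farA_cert (s1 := true) (s2 := true) rfl hκ covF12a covF40 hx hx'
        Pool.Agent.Strip051.G.I3_64_1_16.Tab.C.FA14.c_pp_202_a noCut_A noExt_A F h trivial)
      (fun h => farA_cert (s1 := true) (s2 := true) rfl hκ covF12b covF40 hx hx'
        Pool.Agent.Strip051.G.I3_64_1_16.Tab.C.FA14.c_pp_202_b noCut_A noExt_A F h trivial)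

theorem FA14_pp_203 {κ x : ℝ} (hκ : κ * h0 = ken x) (hx : ((50331648 : ℕ) : ℝ) / S ≤ x) (hx' : x ≤ (((50331648 : ℕ) : ℝ) + (16777216 : ℕ)) / S) :
    TriA PP.cur (farS κ (h0 * x) (tbl tKF x) (tbl tL x)) 2 0 3 1 4 1 1 :=
  (sideF hx hx').farA (Or.inl rfl) (Or.inl rfl) fun y y' F =>
    (lt_or_ge (h0 * y) 1).elim
      (fun h => farA_cert (s1 := true) (s2 := true) rfl hκ covF12a covF40 hx hx'
        Pool.Agent.Strip051.G.I3_64_1_16.Tab.C.FA14.c_pp_203_a noCut_A noExt_A F h trivial)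
      (fun h => farA_cert (s1 := true) (s2 := true) rfl hκ covF12b covF40 hx hx'
        Pool.Agent.Strip051.G.I3_64_1_16.Tab.C.FA14.c_pp_203_b noCut_A noExt_A F h trivial)

theorem FA14_pp_213 {κ x : ℝ} (hκ : κ * h0 = ken x) (hx : ((50331648 : ℕ) : ℝ) / S ≤ x) (hx' : x ≤ (((50331648 : ℕ) : ℝ) + (16777216 : ℕ)) / S) :
    TriA PP.cur (farS κ (h0 * x) (tbl tKF x) (tbl tL x)) 2 1 3 1 4 1 1 :=
  (sideF hx hx').farA (Or.inl rfl) (Or.inl rfl) fun y y' F =>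
    (lt_or_ge (h0 * y) 1).elim
      (fun h => farA_cert (s1 := true) (s2 := true) rfl hκ covF12a covF41 hx hx'
        Pool.Agent.Strip051.G.I3_64_1_16.Tab.C.FA14.c_pp_213_a noCut_A noExt_A F h trivial)
      (fun h => farA_cert (s1 := true) (s2 := true) rfl hκ covF12b covF41 hx hx'
        Pool.Agent.Strip051.G.I3_64_1_16.Tab.C.FA14.c_pp_213_b noCut_A noExt_A F h trivial)

theorem FA14_pp_303 {κ x : ℝ} (hκ : κ * h0 = ken x) (hx : ((50331648 : ℕ) : ℝ) / S ≤ x) (hx' : x ≤ (((50331648 : ℕ) : ℝ) + (16777216 : ℕ)) / S) :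
    TriA PP.cur (farS κ (h0 * x) (tbl tKF x) (tbl tL x)) 3 0 3 1 4 1 1 :=
  (sideF hx hx').farA (Or.inl rfl) (Or.inl rfl) fun y y' F =>
    farA_cert (s1 := true) (s2 := true) rfl hκ covF13 covF40 hx hx'
        Pool.Agent.Strip051.G.I3_64_1_16.Tab.C.FA14.c_pp_303 noCut_A noExt_A F trivial trivial

theorem FA14_pp_313 {κ x : ℝ} (hκ : κ * h0 = ken x) (hx : ((50331648 : ℕ) : ℝ) / S ≤ x) (hx' : x ≤ (((50331648 : ℕ) : ℝ) + (16777216 : ℕ)) / S) :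
    TriA PP.cur (farS κ (h0 * x) (tbl tKF x) (tbl tL x)) 3 1 3 1 4 1 1 :=
  (sideF hx hx').farA (Or.inl rfl) (Or.inl rfl) fun y y' F =>
    farA_cert (s1 := true) (s2 := true) rfl hκ covF13 covF41 hx hx'
        Pool.Agent.Strip051.G.I3_64_1_16.Tab.C.FA14.c_pp_313 noCut_A noExt_A F trivial trivial

theorem FA14_pm_001 {κ x : ℝ} (hκ : κ * h0 = ken x) (hx : ((50331648 : ℕ) : ℝ) / S ≤ x) (hx' : x ≤ (((50331648 : ℕ) : ℝ) + (16777216 : ℕ)) / S) :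
    TriA PP.cur (farS κ (h0 * x) (tbl tKF x) (tbl tL x)) 0 0 1 1 4 1 (-1) :=
  (sideF hx hx').farA (Or.inl rfl) (Or.inr rfl) fun y y' F =>
    farA_cert (s1 := true) (s2 := false) rfl hκ covF10 covF40 hx hx'
        Pool.Agent.Strip051.G.I3_64_1_16.Tab.C.FA14.c_pm_001 noCut_A noExt_A F trivial trivial

theorem FA14_pm_011 {κ x : ℝ} (hκ : κ * h0 = ken x) (hx : ((50331648 : ℕ) : ℝ) / S ≤ x) (hx' : x ≤ (((50331648 : ℕ) : ℝ) + (16777216 : ℕ)) / S) :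
    TriA PP.cur (farS κ (h0 * x) (tbl tKF x) (tbl tL x)) 0 1 1 1 4 1 (-1) :=
  (sideF hx hx').farA (Or.inl rfl) (Or.inr rfl) fun y y' F =>
    farA_cert (s1 := true) (s2 := false) rfl hκ covF10 covF41 hx hx'
        Pool.Agent.Strip051.G.I3_64_1_16.Tab.C.FA14.c_pm_011 (cutA_cons (Pool.Agent.Strip051.G.I3_64_1_16.Tab.altF_A011R_14 hκ hx hx') cutA_nil) noExt_A F trivial trivial

theorem FA14_pm_012 {κ x : ℝ} (hκ : κ * h0 = ken x) (hx : ((50331648 : ℕ) : ℝ) / S ≤ x) (hx' : x ≤ (((50331648 : ℕ) : ℝ) + (16777216 : ℕ)) / S) :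
    TriA PP.cur (farS κ (h0 * x) (tbl tKF x) (tbl tL x)) 0 1 2 1 4 1 (-1) :=
  (sideF hx hx').farA (Or.inl rfl) (Or.inr rfl) fun y y' F =>
    farA_cert (s1 := true) (s2 := false) rfl hκ covF10 covF41 hx hx'
        Pool.Agent.Strip051.G.I3_64_1_16.Tab.C.FA14.c_pm_012 (cutA_cons (Pool.Agent.Strip051.G.I3_64_1_16.Tab.altF_A012R_14 hκ hx hx') cutA_nil) noExt_A F trivial trivial

theorem FA14_pm_022 {κ x : ℝ} (hκ : κ * h0 = ken x) (hx : ((50331648 : ℕ) : ℝ) / S ≤ x) (hx' : x ≤ (((50331648 : ℕ) : ℝ) + (16777216 : ℕ)) / S) :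
    TriA PP.cur (farS κ (h0 * x) (tbl tKF x) (tbl tL x)) 0 2 2 1 4 1 (-1) :=
  (sideF hx hx').farA (Or.inl rfl) (Or.inr rfl) fun y y' F =>
    farA_cert (s1 := true) (s2 := false) rfl hκ covF10 covF42 hx hx'
        Pool.Agent.Strip051.G.I3_64_1_16.Tab.C.FA14.c_pm_022 (cutA_cons (Pool.Agent.Strip051.G.I3_64_1_16.Tab.altF_A022R_14 hκ hx hx') cutA_nil) noExt_A F trivial trivial

theorem FA14_pm_023 {κ x : ℝ} (hκ : κ * h0 = ken x) (hx : ((50331648 : ℕ) : ℝ) / S ≤ x) (hx' : x ≤ (((50331648 : ℕ) : ℝ) + (16777216 : ℕ)) / S) :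
    TriA PP.cur (farS κ (h0 * x) (tbl tKF x) (tbl tL x)) 0 2 3 1 4 1 (-1) :=
  (sideF hx hx').farA (Or.inl rfl) (Or.inr rfl) fun y y' F =>
    farA_cert (s1 := true) (s2 := false) rfl hκ covF10 covF42 hx hx'
        Pool.Agent.Strip051.G.I3_64_1_16.Tab.C.FA14.c_pm_023 noCut_A noExt_A F trivial trivial

theorem FA14_pm_033 {κ x : ℝ} (hκ : κ * h0 = ken x) (hx : ((50331648 : ℕ) : ℝ) / S ≤ x) (hx' : x ≤ (((50331648 : ℕ) : ℝ) + (16777216 : ℕ)) / S) :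
    TriA PP.cur (farS κ (h0 * x) (tbl tKF x) (tbl tL x)) 0 3 3 1 4 1 (-1) :=
  (sideF hx hx').farA (Or.inl rfl) (Or.inr rfl) fun y y' F =>
    farA_cert (s1 := true) (s2 := false) rfl hκ covF10 covF43 hx hx'
        Pool.Agent.Strip051.G.I3_64_1_16.Tab.C.FA14.c_pm_033 noCut_A noExt_A F trivial trivial

theorem FA14_pm_101 {κ x : ℝ} (hκ : κ * h0 = ken x) (hx : ((50331648 : ℕ) : ℝ) / S ≤ x) (hx' : x ≤ (((50331648 : ℕ) : ℝ) + (16777216 : ℕ)) / S) :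
    TriA PP.cur (farS κ (h0 * x) (tbl tKF x) (tbl tL x)) 1 0 1 1 4 1 (-1) :=
  (sideF hx hx').farA (Or.inl rfl) (Or.inr rfl) fun y y' F =>
    farA_cert (s1 := true) (s2 := false) rfl hκ covF11 covF40 hx hx'
        Pool.Agent.Strip051.G.I3_64_1_16.Tab.C.FA14.c_pm_101 noCut_A noExt_A F trivial trivial

theorem FA14_pm_102 {κ x : ℝ} (hκ : κ * h0 = ken x) (hx : ((50331648 : ℕ) : ℝ) / S ≤ x) (hx' : x ≤ (((50331648 : ℕ) : ℝ) + (16777216 : ℕ)) / S) :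
    TriA PP.cur (farS κ (h0 * x) (tbl tKF x) (tbl tL x)) 1 0 2 1 4 1 (-1) :=
  (sideF hx hx').farA (Or.inl rfl) (Or.inr rfl) fun y y' F =>
    farA_cert (s1 := true) (s2 := false) rfl hκ covF11 covF40 hx hx'
        Pool.Agent.Strip051.G.I3_64_1_16.Tab.C.FA14.c_pm_102 noCut_A noExt_A F trivial trivial

theorem FA14_pm_112 {κ x : ℝ} (hκ : κ * h0 = ken x) (hx : ((50331648 : ℕ) : ℝ) / S ≤ x) (hx' : x ≤ (((50331648 : ℕ) : ℝ) + (16777216 : ℕ)) / S) :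
    TriA PP.cur (farS κ (h0 * x) (tbl tKF x) (tbl tL x)) 1 1 2 1 4 1 (-1) :=
  (sideF hx hx').farA (Or.inl rfl) (Or.inr rfl) fun y y' F =>
    farA_cert (s1 := true) (s2 := false) rfl hκ covF11 covF41 hx hx'
        Pool.Agent.Strip051.G.I3_64_1_16.Tab.C.FA14.c_pm_112 noCut_A noExt_A F trivial trivial

theorem FA14_pm_113 {κ x : ℝ} (hκ : κ * h0 = ken x) (hx : ((50331648 : ℕ) : ℝ) / S ≤ x) (hx' : x ≤ (((50331648 : ℕ) : ℝ) + (16777216 : ℕ)) / S) :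
    TriA PP.cur (farS κ (h0 * x) (tbl tKF x) (tbl tL x)) 1 1 3 1 4 1 (-1) :=
  (sideF hx hx').farA (Or.inl rfl) (Or.inr rfl) fun y y' F =>
    farA_cert (s1 := true) (s2 := false) rfl hκ covF11 covF41 hx hx'
        Pool.Agent.Strip051.G.I3_64_1_16.Tab.C.FA14.c_pm_113 noCut_A noExt_A F trivial trivial

theorem FA14_pm_123 {κ x : ℝ} (hκ : κ * h0 = ken x) (hx : ((50331648 : ℕ) : ℝ) / S ≤ x) (hx' : x ≤ (((50331648 : ℕ) : ℝ) + (16777216 : ℕ)) / S) :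
    TriA PP.cur (farS κ (h0 * x) (tbl tKF x) (tbl tL x)) 1 2 3 1 4 1 (-1) :=
  (sideF hx hx').farA (Or.inl rfl) (Or.inr rfl) fun y y' F =>
    farA_cert (s1 := true) (s2 := false) rfl hκ covF11 covF42 hx hx'
        Pool.Agent.Strip051.G.I3_64_1_16.Tab.C.FA14.c_pm_123 noCut_A noExt_A F trivial trivial

theorem FA14_pm_133 {κ x : ℝ} (hκ : κ * h0 = ken x) (hx : ((50331648 : ℕ) : ℝ) / S ≤ x) (hx' : x ≤ (((50331648 : ℕ) : ℝ) + (16777216 : ℕ)) / S) :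
    TriA PP.cur (farS κ (h0 * x) (tbl tKF x) (tbl tL x)) 1 3 3 1 4 1 (-1) :=
  (sideF hx hx').farA (Or.inl rfl) (Or.inr rfl) fun y y' F =>
    farA_cert (s1 := true) (s2 := false) rfl hκ covF11 covF43 hx hx'
        Pool.Agent.Strip051.G.I3_64_1_16.Tab.C.FA14.c_pm_133 noCut_A noExt_A F trivial trivial

theorem FA14_pm_202 {κ x : ℝ} (hκ : κ * h0 = ken x) (hx : ((50331648 : ℕ) : ℝ) / S ≤ x) (hx' : x ≤ (((50331648 : ℕ) : ℝ) + (16777216 : ℕ)) / S) :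
    TriA PP.cur (farS κ (h0 * x) (tbl tKF x) (tbl tL x)) 2 0 2 1 4 1 (-1) :=
  (sideF hx hx').farA (Or.inl rfl) (Or.inr rfl) fun y y' F =>
    (lt_or_ge (h0 * y) 1).elim
      (fun h => farA_cert (s1 := true) (s2 := false) rfl hκ covF12a covF40 hx hx'
        Pool.Agent.Strip051.G.I3_64_1_16.Tab.C.FA14.c_pm_202_a noCut_A noExt_A F h trivial)
      (fun h => farA_cert (s1 := true) (s2 := false) rfl hκ covF12b covF40 hx hx'
        Pool.Agent.Strip051.G.I3_64_1_16.Tab.C.FA14.c_pm_202_b noCut_A noExt_A F h trivial)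

theorem FA14_pm_203 {κ x : ℝ} (hκ : κ * h0 = ken x) (hx : ((50331648 : ℕ) : ℝ) / S ≤ x) (hx' : x ≤ (((50331648 : ℕ) : ℝ) + (16777216 : ℕ)) / S) :
    TriA PP.cur (farS κ (h0 * x) (tbl tKF x) (tbl tL x)) 2 0 3 1 4 1 (-1) :=
  (sideF hx hx').farA (Or.inl rfl) (Or.inr rfl) fun y y' F =>
    (lt_or_ge (h0 * y) 1).elim
      (fun h => farA_cert (s1 := true) (s2 := false) rfl hκ covF12a covF40 hx hx'
        Pool.Agent.Strip051.G.I3_64_1_16.Tab.C.FA14.c_pm_203_a noCut_A noExt_A F h trivial)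
      (fun h => farA_cert (s1 := true) (s2 := false) rfl hκ covF12b covF40 hx hx'
        Pool.Agent.Strip051.G.I3_64_1_16.Tab.C.FA14.c_pm_203_b noCut_A noExt_A F h trivial)

theorem FA14_pm_213 {κ x : ℝ} (hκ : κ * h0 = ken x) (hx : ((50331648 : ℕ) : ℝ) / S ≤ x) (hx' : x ≤ (((50331648 : ℕ) : ℝ) + (16777216 : ℕ)) / S) :
    TriA PP.cur (farS κ (h0 * x) (tbl tKF x) (tbl tL x)) 2 1 3 1 4 1 (-1) :=
  (sideF hx hx').farA (Or.inl rfl) (Or.inr rfl) fun y y' F =>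
    (lt_or_ge (h0 * y) 1).elim
      (fun h => farA_cert (s1 := true) (s2 := false) rfl hκ covF12a covF41 hx hx'
        Pool.Agent.Strip051.G.I3_64_1_16.Tab.C.FA14.c_pm_213_a noCut_A noExt_A F h trivial)
      (fun h => farA_cert (s1 := true) (s2 := false) rfl hκ covF12b covF41 hx hx'
        Pool.Agent.Strip051.G.I3_64_1_16.Tab.C.FA14.c_pm_213_b noCut_A noExt_A F h trivial)

theorem FA14_pm_303 {κ x : ℝ} (hκ : κ * h0 = ken x) (hx : ((50331648 : ℕ) : ℝ) / S ≤ x) (hx' : x ≤ (((50331648 : ℕ) : ℝ) + (16777216 : ℕ)) / S) :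
    TriA PP.cur (farS κ (h0 * x) (tbl tKF x) (tbl tL x)) 3 0 3 1 4 1 (-1) :=
  (sideF hx hx').farA (Or.inl rfl) (Or.inr rfl) fun y y' F =>
    farA_cert (s1 := true) (s2 := false) rfl hκ covF13 covF40 hx hx'
        Pool.Agent.Strip051.G.I3_64_1_16.Tab.C.FA14.c_pm_303 noCut_A noExt_A F trivial trivial

theorem FA14_pm_313 {κ x : ℝ} (hκ : κ * h0 = ken x) (hx : ((50331648 : ℕ) : ℝ) / S ≤ x) (hx' : x ≤ (((50331648 : ℕ) : ℝ) + (16777216 : ℕ)) / S) :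
    TriA PP.cur (farS κ (h0 * x) (tbl tKF x) (tbl tL x)) 3 1 3 1 4 1 (-1) :=
  (sideF hx hx').farA (Or.inl rfl) (Or.inr rfl) fun y y' F =>
    farA_cert (s1 := true) (s2 := false) rfl hκ covF13 covF41 hx hx'
        Pool.Agent.Strip051.G.I3_64_1_16.Tab.C.FA14.c_pm_313 noCut_A noExt_A F trivial trivial

theorem FA14_mm_001 {κ x : ℝ} (hκ : κ * h0 = ken x) (hx : ((50331648 : ℕ) : ℝ) / S ≤ x) (hx' : x ≤ (((50331648 : ℕ) : ℝ) + (16777216 : ℕ)) / S) :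
    TriA PP.cur (farS κ (h0 * x) (tbl tKF x) (tbl tL x)) 0 0 1 1 4 (-1) (-1) :=
  (sideF hx hx').farA (Or.inr rfl) (Or.inr rfl) fun y y' F =>
    farA_cert (s1 := false) (s2 := false) rfl hκ covF10 covF40 hx hx'
        Pool.Agent.Strip051.G.I3_64_1_16.Tab.C.FA14.c_mm_001 noCut_A noExt_A F trivial trivial

theorem FA14_mm_011 {κ x : ℝ} (hκ : κ * h0 = ken x) (hx : ((50331648 : ℕ) : ℝ) / S ≤ x) (hx' : x ≤ (((50331648 : ℕ) : ℝ) + (16777216 : ℕ)) / S) :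
    TriA PP.cur (farS κ (h0 * x) (tbl tKF x) (tbl tL x)) 0 1 1 1 4 (-1) (-1) :=
  (sideF hx hx').farA (Or.inr rfl) (Or.inr rfl) fun y y' F =>
    farA_cert (s1 := false) (s2 := false) rfl hκ covF10 covF41 hx hx'
        Pool.Agent.Strip051.G.I3_64_1_16.Tab.C.FA14.c_mm_011 noCut_A noExt_A F trivial trivial

theorem FA14_mm_012 {κ x : ℝ} (hκ : κ * h0 = ken x) (hx : ((50331648 : ℕ) : ℝ) / S ≤ x) (hx' : x ≤ (((50331648 : ℕ) : ℝ) + (16777216 : ℕ)) / S) :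
    TriA PP.cur (farS κ (h0 * x) (tbl tKF x) (tbl tL x)) 0 1 2 1 4 (-1) (-1) :=
  (sideF hx hx').farA (Or.inr rfl) (Or.inr rfl) fun y y' F =>
    farA_cert (s1 := false) (s2 := false) rfl hκ covF10 covF41 hx hx'
        Pool.Agent.Strip051.G.I3_64_1_16.Tab.C.FA14.c_mm_012 noCut_A noExt_A F trivial trivial

theorem FA14_mm_022 {κ x : ℝ} (hκ : κ * h0 = ken x) (hx : ((50331648 : ℕ) : ℝ) / S ≤ x) (hx' : x ≤ (((50331648 : ℕ) : ℝ) + (16777216 : ℕ)) / S) :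
    TriA PP.cur (farS κ (h0 * x) (tbl tKF x) (tbl tL x)) 0 2 2 1 4 (-1) (-1) :=
  (sideF hx hx').farA (Or.inr rfl) (Or.inr rfl) fun y y' F =>
    farA_cert (s1 := false) (s2 := false) rfl hκ covF10 covF42 hx hx'
        Pool.Agent.Strip051.G.I3_64_1_16.Tab.C.FA14.c_mm_022 noCut_A noExt_A F trivial trivial

theorem FA14_mm_023 {κ x : ℝ} (hκ : κ * h0 = ken x) (hx : ((50331648 : ℕ) : ℝ) / S ≤ x) (hx' : x ≤ (((50331648 : ℕ) : ℝ) + (16777216 : ℕ)) / S) :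
    TriA PP.cur (farS κ (h0 * x) (tbl tKF x) (tbl tL x)) 0 2 3 1 4 (-1) (-1) :=
  (sideF hx hx').farA (Or.inr rfl) (Or.inr rfl) fun y y' F =>
    farA_cert (s1 := false) (s2 := false) rfl hκ covF10 covF42 hx hx'
        Pool.Agent.Strip051.G.I3_64_1_16.Tab.C.FA14.c_mm_023 noCut_A noExt_A F trivial trivial

theorem FA14_mm_033 {κ x : ℝ} (hκ : κ * h0 = ken x) (hx : ((50331648 : ℕ) : ℝ) / S ≤ x) (hx' : x ≤ (((50331648 : ℕ) : ℝ) + (16777216 : ℕ)) / S) :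
    TriA PP.cur (farS κ (h0 * x) (tbl tKF x) (tbl tL x)) 0 3 3 1 4 (-1) (-1) :=
  (sideF hx hx').farA (Or.inr rfl) (Or.inr rfl) fun y y' F =>
    farA_cert (s1 := false) (s2 := false) rfl hκ covF10 covF43 hx hx'
        Pool.Agent.Strip051.G.I3_64_1_16.Tab.C.FA14.c_mm_033 noCut_A noExt_A F trivial trivial

theorem FA14_mm_101 {κ x : ℝ} (hκ : κ * h0 = ken x) (hx : ((50331648 : ℕ) : ℝ) / S ≤ x) (hx' : x ≤ (((50331648 : ℕ) : ℝ) + (16777216 : ℕ)) / S) :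
    TriA PP.cur (farS κ (h0 * x) (tbl tKF x) (tbl tL x)) 1 0 1 1 4 (-1) (-1) :=
  (sideF hx hx').farA (Or.inr rfl) (Or.inr rfl) fun y y' F =>
    farA_cert (s1 := false) (s2 := false) rfl hκ covF11 covF40 hx hx'
        Pool.Agent.Strip051.G.I3_64_1_16.Tab.C.FA14.c_mm_101 noCut_A noExt_A F trivial trivial

theorem FA14_mm_102 {κ x : ℝ} (hκ : κ * h0 = ken x) (hx : ((50331648 : ℕ) : ℝ) / S ≤ x) (hx' : x ≤ (((50331648 : ℕ) : ℝ) + (16777216 : ℕ)) / S) :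
    TriA PP.cur (farS κ (h0 * x) (tbl tKF x) (tbl tL x)) 1 0 2 1 4 (-1) (-1) :=
  (sideF hx hx').farA (Or.inr rfl) (Or.inr rfl) fun y y' F =>
    farA_cert (s1 := false) (s2 := false) rfl hκ covF11 covF40 hx hx'
        Pool.Agent.Strip051.G.I3_64_1_16.Tab.C.FA14.c_mm_102 noCut_A noExt_A F trivial trivial

theorem FA14_mm_112 {κ x : ℝ} (hκ : κ * h0 = ken x) (hx : ((50331648 : ℕ) : ℝ) / S ≤ x) (hx' : x ≤ (((50331648 : ℕ) : ℝ) + (16777216 : ℕ)) / S) :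
    TriA PP.cur (farS κ (h0 * x) (tbl tKF x) (tbl tL x)) 1 1 2 1 4 (-1) (-1) :=
  (sideF hx hx').farA (Or.inr rfl) (Or.inr rfl) fun y y' F =>
    farA_cert (s1 := false) (s2 := false) rfl hκ covF11 covF41 hx hx'
        Pool.Agent.Strip051.G.I3_64_1_16.Tab.C.FA14.c_mm_112 noCut_A noExt_A F trivial trivial

theorem FA14_mm_113 {κ x : ℝ} (hκ : κ * h0 = ken x) (hx : ((50331648 : ℕ) : ℝ) / S ≤ x) (hx' : x ≤ (((50331648 : ℕ) : ℝ) + (16777216 : ℕ)) / S) :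
    TriA PP.cur (farS κ (h0 * x) (tbl tKF x) (tbl tL x)) 1 1 3 1 4 (-1) (-1) :=
  (sideF hx hx').farA (Or.inr rfl) (Or.inr rfl) fun y y' F =>
    farA_cert (s1 := false) (s2 := false) rfl hκ covF11 covF41 hx hx'
        Pool.Agent.Strip051.G.I3_64_1_16.Tab.C.FA14.c_mm_113 noCut_A noExt_A F trivial trivial

theorem FA14_mm_123 {κ x : ℝ} (hκ : κ * h0 = ken x) (hx : ((50331648 : ℕ) : ℝ) / S ≤ x) (hx' : x ≤ (((50331648 : ℕ) : ℝ) + (16777216 : ℕ)) / S) :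
    TriA PP.cur (farS κ (h0 * x) (tbl tKF x) (tbl tL x)) 1 2 3 1 4 (-1) (-1) :=
  (sideF hx hx').farA (Or.inr rfl) (Or.inr rfl) fun y y' F =>
    farA_cert (s1 := false) (s2 := false) rfl hκ covF11 covF42 hx hx'
        Pool.Agent.Strip051.G.I3_64_1_16.Tab.C.FA14.c_mm_123 noCut_A noExt_A F trivial trivial

theorem FA14_mm_133 {κ x : ℝ} (hκ : κ * h0 = ken x) (hx : ((50331648 : ℕ) : ℝ) / S ≤ x) (hx' : x ≤ (((50331648 : ℕ) : ℝ) + (16777216 : ℕ)) / S) :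
    TriA PP.cur (farS κ (h0 * x) (tbl tKF x) (tbl tL x)) 1 3 3 1 4 (-1) (-1) :=
  (sideF hx hx').farA (Or.inr rfl) (Or.inr rfl) fun y y' F =>
    farA_cert (s1 := false) (s2 := false) rfl hκ covF11 covF43 hx hx'
        Pool.Agent.Strip051.G.I3_64_1_16.Tab.C.FA14.c_mm_133 noCut_A noExt_A F trivial trivial

theorem FA14_mm_202 {κ x : ℝ} (hκ : κ * h0 = ken x) (hx : ((50331648 : ℕ) : ℝ) / S ≤ x) (hx' : x ≤ (((50331648 : ℕ) : ℝ) + (16777216 : ℕ)) / S) :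
    TriA PP.cur (farS κ (h0 * x) (tbl tKF x) (tbl tL x)) 2 0 2 1 4 (-1) (-1) :=
  (sideF hx hx').farA (Or.inr rfl) (Or.inr rfl) fun y y' F =>
    (lt_or_ge (h0 * y) 1).elim
      (fun h => farA_cert (s1 := false) (s2 := false) rfl hκ covF12a covF40 hx hx'
        Pool.Agent.Strip051.G.I3_64_1_16.Tab.C.FA14.c_mm_202_a noCut_A noExt_A F h trivial)
      (fun h => farA_cert (s1 := false) (s2 := false) rfl hκ covF12b covF40 hx hx'
        Pool.Agent.Strip051.G.I3_64_1_16.Tab.C.FA14.c_mm_202_b noCut_A noExt_A F h trivial)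

theorem FA14_mm_203 {κ x : ℝ} (hκ : κ * h0 = ken x) (hx : ((50331648 : ℕ) : ℝ) / S ≤ x) (hx' : x ≤ (((50331648 : ℕ) : ℝ) + (16777216 : ℕ)) / S) :
    TriA PP.cur (farS κ (h0 * x) (tbl tKF x) (tbl tL x)) 2 0 3 1 4 (-1) (-1) :=
  (sideF hx hx').farA (Or.inr rfl) (Or.inr rfl) fun y y' F =>
    (lt_or_ge (h0 * y) 1).elim
      (fun h => farA_cert (s1 := false) (s2 := false) rfl hκ covF12a covF40 hx hx'
        Pool.Agent.Strip051.G.I3_64_1_16.Tab.C.FA14.c_mm_203_a noCut_A noExt_A F h trivial)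
      (fun h => farA_cert (s1 := false) (s2 := false) rfl hκ covF12b covF40 hx hx'
        Pool.Agent.Strip051.G.I3_64_1_16.Tab.C.FA14.c_mm_203_b noCut_A noExt_A F h trivial)

theorem FA14_mm_213 {κ x : ℝ} (hκ : κ * h0 = ken x) (hx : ((50331648 : ℕ) : ℝ) / S ≤ x) (hx' : x ≤ (((50331648 : ℕ) : ℝ) + (16777216 : ℕ)) / S) :
    TriA PP.cur (farS κ (h0 * x) (tbl tKF x) (tbl tL x)) 2 1 3 1 4 (-1) (-1) :=
  (sideF hx hx').farA (Or.inr rfl) (Or.inr rfl) fun y y' F =>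
    (lt_or_ge (h0 * y) 1).elim
      (fun h => farA_cert (s1 := false) (s2 := false) rfl hκ covF12a covF41 hx hx'
        Pool.Agent.Strip051.G.I3_64_1_16.Tab.C.FA14.c_mm_213_a noCut_A noExt_A F h trivial)
      (fun h => farA_cert (s1 := false) (s2 := false) rfl hκ covF12b covF41 hx hx'
        Pool.Agent.Strip051.G.I3_64_1_16.Tab.C.FA14.c_mm_213_b noCut_A noExt_A F h trivial)

theorem FA14_mm_303 {κ x : ℝ} (hκ : κ * h0 = ken x) (hx : ((50331648 : ℕ) : ℝ) / S ≤ x) (hx' : x ≤ (((50331648 : ℕ) : ℝ) + (16777216 : ℕ)) / S) :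
    TriA PP.cur (farS κ (h0 * x) (tbl tKF x) (tbl tL x)) 3 0 3 1 4 (-1) (-1) :=
  (sideF hx hx').farA (Or.inr rfl) (Or.inr rfl) fun y y' F =>
    farA_cert (s1 := false) (s2 := false) rfl hκ covF13 covF40 hx hx'
        Pool.Agent.Strip051.G.I3_64_1_16.Tab.C.FA14.c_mm_303 noCut_A noExt_A F trivial trivial

theorem FA14_mm_313 {κ x : ℝ} (hκ : κ * h0 = ken x) (hx : ((50331648 : ℕ) : ℝ) / S ≤ x) (hx' : x ≤ (((50331648 : ℕ) : ℝ) + (16777216 : ℕ)) / S) :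
    TriA PP.cur (farS κ (h0 * x) (tbl tKF x) (tbl tL x)) 3 1 3 1 4 (-1) (-1) :=
  (sideF hx hx').farA (Or.inr rfl) (Or.inr rfl) fun y y' F =>
    farA_cert (s1 := false) (s2 := false) rfl hκ covF13 covF41 hx hx'
        Pool.Agent.Strip051.G.I3_64_1_16.Tab.C.FA14.c_mm_313 noCut_A noExt_A F trivial trivial

theorem FA14 {κ x : ℝ} (hκ : κ * h0 = ken x) (hx : ((50331648 : ℕ) : ℝ) / S ≤ x) (hx' : x ≤ (((50331648 : ℕ) : ℝ) + (16777216 : ℕ)) / S) : AllTA PP.cur (farS κ (h0 * x) (tbl tKF x) (tbl tL x)) 1 4 where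
  pp := all17 (Q := fun a b c => TriA PP.cur (farS κ (h0 * x) (tbl tKF x) (tbl tL x)) a b c 1 4 1 1)
    (FA14_pp_001 hκ hx hx') (FA14_pp_011 hκ hx hx') (FA14_pp_012 hκ hx hx') (FA14_pp_022 hκ hx hx') (FA14_pp_023 hκ hx hx') (FA14_pp_033 hκ hx hx') (FA14_pp_101 hκ hx hx') (FA14_pp_102 hκ hx hx') (FA14_pp_112 hκ hx hx') (FA14_pp_113 hκ hx hx') (FA14_pp_123 hκ hx hx') (FA14_pp_133 hκ hx hx') (FA14_pp_202 hκ hx hx') (FA14_pp_203 hκ hx hx') (FA14_pp_213 hκ hx hx') (FA14_pp_303 hκ hx hx') (FA14_pp_313 hκ hx hx')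
  pm := all17 (Q := fun a b c => TriA PP.cur (farS κ (h0 * x) (tbl tKF x) (tbl tL x)) a b c 1 4 1 (-1))
    (FA14_pm_001 hκ hx hx') (FA14_pm_011 hκ hx hx') (FA14_pm_012 hκ hx hx') (FA14_pm_022 hκ hx hx') (FA14_pm_023 hκ hx hx') (FA14_pm_033 hκ hx hx') (FA14_pm_101 hκ hx hx') (FA14_pm_102 hκ hx hx') (FA14_pm_112 hκ hx hx') (FA14_pm_113 hκ hx hx') (FA14_pm_123 hκ hx hx') (FA14_pm_133 hκ hx hx') (FA14_pm_202 hκ hx hx') (FA14_pm_203 hκ hx hx') (FA14_pm_213 hκ hx hx') (FA14_pm_303 hκ hx hx') (FA14_pm_313 hκ hx hx')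
  mm := all17 (Q := fun a b c => TriA PP.cur (farS κ (h0 * x) (tbl tKF x) (tbl tL x)) a b c 1 4 (-1) (-1))
    (FA14_mm_001 hκ hx hx') (FA14_mm_011 hκ hx hx') (FA14_mm_012 hκ hx hx') (FA14_mm_022 hκ hx hx') (FA14_mm_023 hκ hx hx') (FA14_mm_033 hκ hx hx') (FA14_mm_101 hκ hx hx') (FA14_mm_102 hκ hx hx') (FA14_mm_112 hκ hx hx') (FA14_mm_113 hκ hx hx') (FA14_mm_123 hκ hx hx') (FA14_mm_133 hκ hx hx') (FA14_mm_202 hκ hx hx') (FA14_mm_203 hκ hx hx') (FA14_mm_213 hκ hx hx') (FA14_mm_303 hκ hx hx') (FA14_mm_313 hκ hx hx')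

theorem FA22_pp_001 {κ x : ℝ} (hκ : κ * h0 = ken x) (hx : ((50331648 : ℕ) : ℝ) / S ≤ x) (hx' : x ≤ (((50331648 : ℕ) : ℝ) + (16777216 : ℕ)) / S) :
    TriA PP.cur (farS κ (h0 * x) (tbl tKF x) (tbl tL x)) 0 0 1 2 2 1 1 :=
  (sideF hx hx').farA (Or.inl rfl) (Or.inl rfl) fun y y' F =>
    farA_cert (s1 := true) (s2 := true) rfl hκ covF20 covF20 hx hx'
        Pool.Agent.Strip051.G.I3_64_1_16.Tab.C.FA22.c_pp_001 noCut_A noExt_A F trivial trivial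

theorem FA22_pp_011 {κ x : ℝ} (hκ : κ * h0 = ken x) (hx : ((50331648 : ℕ) : ℝ) / S ≤ x) (hx' : x ≤ (((50331648 : ℕ) : ℝ) + (16777216 : ℕ)) / S) :
    TriA PP.cur (farS κ (h0 * x) (tbl tKF x) (tbl tL x)) 0 1 1 2 2 1 1 :=
  (sideF hx hx').farA (Or.inl rfl) (Or.inl rfl) fun y y' F =>
    farA_cert (s1 := true) (s2 := true) rfl hκ covF20 covF21 hx hx'
        Pool.Agent.Strip051.G.I3_64_1_16.Tab.C.FA22.c_pp_011 noCut_A noExt_A F trivial trivial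

theorem FA22_pp_012 {κ x : ℝ} (hκ : κ * h0 = ken x) (hx : ((50331648 : ℕ) : ℝ) / S ≤ x) (hx' : x ≤ (((50331648 : ℕ) : ℝ) + (16777216 : ℕ)) / S) :
    TriA PP.cur (farS κ (h0 * x) (tbl tKF x) (tbl tL x)) 0 1 2 2 2 1 1 :=
  (sideF hx hx').farA (Or.inl rfl) (Or.inl rfl) fun y y' F =>
    farA_cert (s1 := true) (s2 := true) rfl hκ covF20 covF21 hx hx'
        Pool.Agent.Strip051.G.I3_64_1_16.Tab.C.FA22.c_pp_012 noCut_A noExt_A F trivial trivial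

theorem FA22_pp_022 {κ x : ℝ} (hκ : κ * h0 = ken x) (hx : ((50331648 : ℕ) : ℝ) / S ≤ x) (hx' : x ≤ (((50331648 : ℕ) : ℝ) + (16777216 : ℕ)) / S) :
    TriA PP.cur (farS κ (h0 * x) (tbl tKF x) (tbl tL x)) 0 2 2 2 2 1 1 :=
  (sideF hx hx').farA (Or.inl rfl) (Or.inl rfl) fun y y' F =>
    (lt_or_ge (h0 * y') 1).elim
      (fun g => farA_cert (s1 := true) (s2 := true) rfl hκ covF20 covF22a hx hx'
        Pool.Agent.Strip051.G.I3_64_1_16.Tab.C.FA22.c_pp_022_a (cutA_cons (Pool.Agent.Strip051.G.I3_64_1_16.Tab.altF_A022L_22 hκ hx hx') cutA_nil) noExt_A F trivial g)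
      (fun g => farA_cert (s1 := true) (s2 := true) rfl hκ covF20 covF22b hx hx'
        Pool.Agent.Strip051.G.I3_64_1_16.Tab.C.FA22.c_pp_022_b (cutA_cons (Pool.Agent.Strip051.G.I3_64_1_16.Tab.altF_A022L_22 hκ hx hx') cutA_nil) noExt_A F trivial g)

theorem FA22_pp_023 {κ x : ℝ} (hκ : κ * h0 = ken x) (hx : ((50331648 : ℕ) : ℝ) / S ≤ x) (hx' : x ≤ (((50331648 : ℕ) : ℝ) + (16777216 : ℕ)) / S) :
    TriA PP.cur (farS κ (h0 * x) (tbl tKF x) (tbl tL x)) 0 2 3 2 2 1 1 :=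
  (sideF hx hx').farA (Or.inl rfl) (Or.inl rfl) fun y y' F =>
    (lt_or_ge (h0 * y') 1).elim
      (fun g => farA_cert (s1 := true) (s2 := true) rfl hκ covF20 covF22a hx hx'
        Pool.Agent.Strip051.G.I3_64_1_16.Tab.C.FA22.c_pp_023_a noCut_A noExt_A F trivial g)
      (fun g => farA_cert (s1 := true) (s2 := true) rfl hκ covF20 covF22b hx hx'
        Pool.Agent.Strip051.G.I3_64_1_16.Tab.C.FA22.c_pp_023_b noCut_A noExt_A F trivial g)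

theorem FA22_pp_033 {κ x : ℝ} (hκ : κ * h0 = ken x) (hx : ((50331648 : ℕ) : ℝ) / S ≤ x) (hx' : x ≤ (((50331648 : ℕ) : ℝ) + (16777216 : ℕ)) / S) :
    TriA PP.cur (farS κ (h0 * x) (tbl tKF x) (tbl tL x)) 0 3 3 2 2 1 1 :=
  (sideF hx hx').farA (Or.inl rfl) (Or.inl rfl) fun y y' F =>
    farA_cert (s1 := true) (s2 := true) rfl hκ covF20 covF23 hx hx'
        Pool.Agent.Strip051.G.I3_64_1_16.Tab.C.FA22.c_pp_033 noCut_A noExt_A F trivial trivial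

theorem FA22_pp_101 {κ x : ℝ} (hκ : κ * h0 = ken x) (hx : ((50331648 : ℕ) : ℝ) / S ≤ x) (hx' : x ≤ (((50331648 : ℕ) : ℝ) + (16777216 : ℕ)) / S) :
    TriA PP.cur (farS κ (h0 * x) (tbl tKF x) (tbl tL x)) 1 0 1 2 2 1 1 :=
  (sideF hx hx').farA (Or.inl rfl) (Or.inl rfl) fun y y' F =>
    farA_cert (s1 := true) (s2 := true) rfl hκ covF21 covF20 hx hx'
        Pool.Agent.Strip051.G.I3_64_1_16.Tab.C.FA22.c_pp_101 noCut_A noExt_A F trivial trivial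

theorem FA22_pp_102 {κ x : ℝ} (hκ : κ * h0 = ken x) (hx : ((50331648 : ℕ) : ℝ) / S ≤ x) (hx' : x ≤ (((50331648 : ℕ) : ℝ) + (16777216 : ℕ)) / S) :
    TriA PP.cur (farS κ (h0 * x) (tbl tKF x) (tbl tL x)) 1 0 2 2 2 1 1 :=
  (sideF hx hx').farA (Or.inl rfl) (Or.inl rfl) fun y y' F =>
    farA_cert (s1 := true) (s2 := true) rfl hκ covF21 covF20 hx hx'
        Pool.Agent.Strip051.G.I3_64_1_16.Tab.C.FA22.c_pp_102 noCut_A noExt_A F trivial trivial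

theorem FA22_pp_112 {κ x : ℝ} (hκ : κ * h0 = ken x) (hx : ((50331648 : ℕ) : ℝ) / S ≤ x) (hx' : x ≤ (((50331648 : ℕ) : ℝ) + (16777216 : ℕ)) / S) :
    TriA PP.cur (farS κ (h0 * x) (tbl tKF x) (tbl tL x)) 1 1 2 2 2 1 1 :=
  (sideF hx hx').farA (Or.inl rfl) (Or.inl rfl) fun y y' F =>
    farA_cert (s1 := true) (s2 := true) rfl hκ covF21 covF21 hx hx'
        Pool.Agent.Strip051.G.I3_64_1_16.Tab.C.FA22.c_pp_112 noCut_A noExt_A F trivial trivial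

theorem FA22_pp_113 {κ x : ℝ} (hκ : κ * h0 = ken x) (hx : ((50331648 : ℕ) : ℝ) / S ≤ x) (hx' : x ≤ (((50331648 : ℕ) : ℝ) + (16777216 : ℕ)) / S) :
    TriA PP.cur (farS κ (h0 * x) (tbl tKF x) (tbl tL x)) 1 1 3 2 2 1 1 :=
  (sideF hx hx').farA (Or.inl rfl) (Or.inl rfl) fun y y' F =>
    farA_cert (s1 := true) (s2 := true) rfl hκ covF21 covF21 hx hx'
        Pool.Agent.Strip051.G.I3_64_1_16.Tab.C.FA22.c_pp_113 noCut_A noExt_A F trivial trivial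

theorem FA22_pp_123 {κ x : ℝ} (hκ : κ * h0 = ken x) (hx : ((50331648 : ℕ) : ℝ) / S ≤ x) (hx' : x ≤ (((50331648 : ℕ) : ℝ) + (16777216 : ℕ)) / S) :
    TriA PP.cur (farS κ (h0 * x) (tbl tKF x) (tbl tL x)) 1 2 3 2 2 1 1 :=
  (sideF hx hx').farA (Or.inl rfl) (Or.inl rfl) fun y y' F =>
    (lt_or_ge (h0 * y') 1).elim
      (fun g => farA_cert (s1 := true) (s2 := true) rfl hκ covF21 covF22a hx hx'
        Pool.Agent.Strip051.G.I3_64_1_16.Tab.C.FA22.c_pp_123_a noCut_A noExt_A F trivial g)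
      (fun g => farA_cert (s1 := true) (s2 := true) rfl hκ covF21 covF22b hx hx'
        Pool.Agent.Strip051.G.I3_64_1_16.Tab.C.FA22.c_pp_123_b noCut_A noExt_A F trivial g)

theorem FA22_pp_133 {κ x : ℝ} (hκ : κ * h0 = ken x) (hx : ((50331648 : ℕ) : ℝ) / S ≤ x) (hx' : x ≤ (((50331648 : ℕ) : ℝ) + (16777216 : ℕ)) / S) :
    TriA PP.cur (farS κ (h0 * x) (tbl tKF x) (tbl tL x)) 1 3 3 2 2 1 1 :=
  (sideF hx hx').farA (Or.inl rfl) (Or.inl rfl) fun y y' F =>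
    farA_cert (s1 := true) (s2 := true) rfl hκ covF21 covF23 hx hx'
        Pool.Agent.Strip051.G.I3_64_1_16.Tab.C.FA22.c_pp_133 noCut_A noExt_A F trivial trivial

theorem FA22_pp_202 {κ x : ℝ} (hκ : κ * h0 = ken x) (hx : ((50331648 : ℕ) : ℝ) / S ≤ x) (hx' : x ≤ (((50331648 : ℕ) : ℝ) + (16777216 : ℕ)) / S) :
    TriA PP.cur (farS κ (h0 * x) (tbl tKF x) (tbl tL x)) 2 0 2 2 2 1 1 :=
  (sideF hx hx').farA (Or.inl rfl) (Or.inl rfl) fun y y' F =>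
    (lt_or_ge (h0 * y) 1).elim
      (fun h => farA_cert (s1 := true) (s2 := true) rfl hκ covF22a covF20 hx hx'
        Pool.Agent.Strip051.G.I3_64_1_16.Tab.C.FA22.c_pp_202_a noCut_A noExt_A F h trivial)
      (fun h => farA_cert (s1 := true) (s2 := true) rfl hκ covF22b covF20 hx hx'
        Pool.Agent.Strip051.G.I3_64_1_16.Tab.C.FA22.c_pp_202_b noCut_A noExt_A F h trivial)

theorem FA22_pp_203 {κ x : ℝ} (hκ : κ * h0 = ken x) (hx : ((50331648 : ℕ) : ℝ) / S ≤ x) (hx' : x ≤ (((50331648 : ℕ) : ℝ) + (16777216 : ℕ)) / S) :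
    TriA PP.cur (farS κ (h0 * x) (tbl tKF x) (tbl tL x)) 2 0 3 2 2 1 1 :=
  (sideF hx hx').farA (Or.inl rfl) (Or.inl rfl) fun y y' F =>
    (lt_or_ge (h0 * y) 1).elim
      (fun h => farA_cert (s1 := true) (s2 := true) rfl hκ covF22a covF20 hx hx'
        Pool.Agent.Strip051.G.I3_64_1_16.Tab.C.FA22.c_pp_203_a noCut_A noExt_A F h trivial)
      (fun h => farA_cert (s1 := true) (s2 := true) rfl hκ covF22b covF20 hx hx'
        Pool.Agent.Strip051.G.I3_64_1_16.Tab.C.FA22.c_pp_203_b noCut_A noExt_A F h trivial)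

theorem FA22_pp_213 {κ x : ℝ} (hκ : κ * h0 = ken x) (hx : ((50331648 : ℕ) : ℝ) / S ≤ x) (hx' : x ≤ (((50331648 : ℕ) : ℝ) + (16777216 : ℕ)) / S) :
    TriA PP.cur (farS κ (h0 * x) (tbl tKF x) (tbl tL x)) 2 1 3 2 2 1 1 :=
  (sideF hx hx').farA (Or.inl rfl) (Or.inl rfl) fun y y' F =>
    (lt_or_ge (h0 * y) 1).elim
      (fun h => farA_cert (s1 := true) (s2 := true) rfl hκ covF22a covF21 hx hx'
        Pool.Agent.Strip051.G.I3_64_1_16.Tab.C.FA22.c_pp_213_a noCut_A noExt_A F h trivial)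
      (fun h => farA_cert (s1 := true) (s2 := true) rfl hκ covF22b covF21 hx hx'
        Pool.Agent.Strip051.G.I3_64_1_16.Tab.C.FA22.c_pp_213_b noCut_A noExt_A F h trivial)

theorem FA22_pp_303 {κ x : ℝ} (hκ : κ * h0 = ken x) (hx : ((50331648 : ℕ) : ℝ) / S ≤ x) (hx' : x ≤ (((50331648 : ℕ) : ℝ) + (16777216 : ℕ)) / S) :
    TriA PP.cur (farS κ (h0 * x) (tbl tKF x) (tbl tL x)) 3 0 3 2 2 1 1 :=
  (sideF hx hx').farA (Or.inl rfl) (Or.inl rfl) fun y y' F =>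
    farA_cert (s1 := true) (s2 := true) rfl hκ covF23 covF20 hx hx'
        Pool.Agent.Strip051.G.I3_64_1_16.Tab.C.FA22.c_pp_303 noCut_A noExt_A F trivial trivial

theorem FA22_pp_313 {κ x : ℝ} (hκ : κ * h0 = ken x) (hx : ((50331648 : ℕ) : ℝ) / S ≤ x) (hx' : x ≤ (((50331648 : ℕ) : ℝ) + (16777216 : ℕ)) / S) :
    TriA PP.cur (farS κ (h0 * x) (tbl tKF x) (tbl tL x)) 3 1 3 2 2 1 1 :=
  (sideF hx hx').farA (Or.inl rfl) (Or.inl rfl) fun y y' F =>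
    farA_cert (s1 := true) (s2 := true) rfl hκ covF23 covF21 hx hx'
        Pool.Agent.Strip051.G.I3_64_1_16.Tab.C.FA22.c_pp_313 noCut_A noExt_A F trivial trivial

theorem FA22_pm_001 {κ x : ℝ} (hκ : κ * h0 = ken x) (hx : ((50331648 : ℕ) : ℝ) / S ≤ x) (hx' : x ≤ (((50331648 : ℕ) : ℝ) + (16777216 : ℕ)) / S) :
    TriA PP.cur (farS κ (h0 * x) (tbl tKF x) (tbl tL x)) 0 0 1 2 2 1 (-1) :=
  (sideF hx hx').farA (Or.inl rfl) (Or.inr rfl) fun y y' F =>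
    farA_cert (s1 := true) (s2 := false) rfl hκ covF20 covF20 hx hx'
        Pool.Agent.Strip051.G.I3_64_1_16.Tab.C.FA22.c_pm_001 noCut_A noExt_A F trivial trivial

theorem FA22_pm_011 {κ x : ℝ} (hκ : κ * h0 = ken x) (hx : ((50331648 : ℕ) : ℝ) / S ≤ x) (hx' : x ≤ (((50331648 : ℕ) : ℝ) + (16777216 : ℕ)) / S) :
    TriA PP.cur (farS κ (h0 * x) (tbl tKF x) (tbl tL x)) 0 1 1 2 2 1 (-1) :=
  (sideF hx hx').farA (Or.inl rfl) (Or.inr rfl) fun y y' F =>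
    farA_cert (s1 := true) (s2 := false) rfl hκ covF20 covF21 hx hx'
        Pool.Agent.Strip051.G.I3_64_1_16.Tab.C.FA22.c_pm_011 (cutA_cons (Pool.Agent.Strip051.G.I3_64_1_16.Tab.altF_A011R_22 hκ hx hx') cutA_nil) noExt_A F trivial trivial

theorem FA22_pm_012 {κ x : ℝ} (hκ : κ * h0 = ken x) (hx : ((50331648 : ℕ) : ℝ) / S ≤ x) (hx' : x ≤ (((50331648 : ℕ) : ℝ) + (16777216 : ℕ)) / S) :
    TriA PP.cur (farS κ (h0 * x) (tbl tKF x) (tbl tL x)) 0 1 2 2 2 1 (-1) :=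
  (sideF hx hx').farA (Or.inl rfl) (Or.inr rfl) fun y y' F =>
    farA_cert (s1 := true) (s2 := false) rfl hκ covF20 covF21 hx hx'
        Pool.Agent.Strip051.G.I3_64_1_16.Tab.C.FA22.c_pm_012 (cutA_cons (Pool.Agent.Strip051.G.I3_64_1_16.Tab.altF_A012R_22 hκ hx hx') cutA_nil) noExt_A F trivial trivial

theorem FA22_pm_022 {κ x : ℝ} (hκ : κ * h0 = ken x) (hx : ((50331648 : ℕ) : ℝ) / S ≤ x) (hx' : x ≤ (((50331648 : ℕ) : ℝ) + (16777216 : ℕ)) / S) :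
    TriA PP.cur (farS κ (h0 * x) (tbl tKF x) (tbl tL x)) 0 2 2 2 2 1 (-1) :=
  (sideF hx hx').farA (Or.inl rfl) (Or.inr rfl) fun y y' F =>
    (lt_or_ge (h0 * y') 1).elim
      (fun g => farA_cert (s1 := true) (s2 := false) rfl hκ covF20 covF22a hx hx'
        Pool.Agent.Strip051.G.I3_64_1_16.Tab.C.FA22.c_pm_022_a (cutA_cons (Pool.Agent.Strip051.G.I3_64_1_16.Tab.altF_A022E_22 hκ hx hx') cutA_nil) noExt_A F trivial g)
      (fun g => farA_cert (s1 := true) (s2 := false) rfl hκ covF20 covF22b hx hx'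
        Pool.Agent.Strip051.G.I3_64_1_16.Tab.C.FA22.c_pm_022_b (cutA_cons (Pool.Agent.Strip051.G.I3_64_1_16.Tab.altF_A022E_22 hκ hx hx') cutA_nil) noExt_A F trivial g)

theorem FA22_pm_023 {κ x : ℝ} (hκ : κ * h0 = ken x) (hx : ((50331648 : ℕ) : ℝ) / S ≤ x) (hx' : x ≤ (((50331648 : ℕ) : ℝ) + (16777216 : ℕ)) / S) :
    TriA PP.cur (farS κ (h0 * x) (tbl tKF x) (tbl tL x)) 0 2 3 2 2 1 (-1) :=
  (sideF hx hx').farA (Or.inl rfl) (Or.inr rfl) fun y y' F =>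
    (lt_or_ge (h0 * y') 1).elim
      (fun g => farA_cert (s1 := true) (s2 := false) rfl hκ covF20 covF22a hx hx'
        Pool.Agent.Strip051.G.I3_64_1_16.Tab.C.FA22.c_pm_023_a noCut_A noExt_A F trivial g)
      (fun g => farA_cert (s1 := true) (s2 := false) rfl hκ covF20 covF22b hx hx'
        Pool.Agent.Strip051.G.I3_64_1_16.Tab.C.FA22.c_pm_023_b noCut_A noExt_A F trivial g)

theorem FA22_pm_033 {κ x : ℝ} (hκ : κ * h0 = ken x) (hx : ((50331648 : ℕ) : ℝ) / S ≤ x) (hx' : x ≤ (((50331648 : ℕ) : ℝ) + (16777216 : ℕ)) / S) :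
    TriA PP.cur (farS κ (h0 * x) (tbl tKF x) (tbl tL x)) 0 3 3 2 2 1 (-1) :=
  (sideF hx hx').farA (Or.inl rfl) (Or.inr rfl) fun y y' F =>
    farA_cert (s1 := true) (s2 := false) rfl hκ covF20 covF23 hx hx'
        Pool.Agent.Strip051.G.I3_64_1_16.Tab.C.FA22.c_pm_033 noCut_A noExt_A F trivial trivial

theorem FA22_pm_101 {κ x : ℝ} (hκ : κ * h0 = ken x) (hx : ((50331648 : ℕ) : ℝ) / S ≤ x) (hx' : x ≤ (((50331648 : ℕ) : ℝ) + (16777216 : ℕ)) / S) :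
    TriA PP.cur (farS κ (h0 * x) (tbl tKF x) (tbl tL x)) 1 0 1 2 2 1 (-1) :=
  (sideF hx hx').farA (Or.inl rfl) (Or.inr rfl) fun y y' F =>
    farA_cert (s1 := true) (s2 := false) rfl hκ covF21 covF20 hx hx'
        Pool.Agent.Strip051.G.I3_64_1_16.Tab.C.FA22.c_pm_101 (cutA_cons (Pool.Agent.Strip051.G.I3_64_1_16.Tab.altF_A101L_22 hκ hx hx') cutA_nil) noExt_A F trivial trivial

theorem FA22_pm_102 {κ x : ℝ} (hκ : κ * h0 = ken x) (hx : ((50331648 : ℕ) : ℝ) / S ≤ x) (hx' : x ≤ (((50331648 : ℕ) : ℝ) + (16777216 : ℕ)) / S) :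
    TriA PP.cur (farS κ (h0 * x) (tbl tKF x) (tbl tL x)) 1 0 2 2 2 1 (-1) :=
  (sideF hx hx').farA (Or.inl rfl) (Or.inr rfl) fun y y' F =>
    farA_cert (s1 := true) (s2 := false) rfl hκ covF21 covF20 hx hx'
        Pool.Agent.Strip051.G.I3_64_1_16.Tab.C.FA22.c_pm_102 (cutA_cons (Pool.Agent.Strip051.G.I3_64_1_16.Tab.altF_A102L_22 hκ hx hx') cutA_nil) noExt_A F trivial trivial

theorem FA22_pm_112 {κ x : ℝ} (hκ : κ * h0 = ken x) (hx : ((50331648 : ℕ) : ℝ) / S ≤ x) (hx' : x ≤ (((50331648 : ℕ) : ℝ) + (16777216 : ℕ)) / S) :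
    TriA PP.cur (farS κ (h0 * x) (tbl tKF x) (tbl tL x)) 1 1 2 2 2 1 (-1) :=
  (sideF hx hx').farA (Or.inl rfl) (Or.inr rfl) fun y y' F =>
    farA_cert (s1 := true) (s2 := false) rfl hκ covF21 covF21 hx hx'
        Pool.Agent.Strip051.G.I3_64_1_16.Tab.C.FA22.c_pm_112 noCut_A noExt_A F trivial trivial

theorem FA22_pm_113 {κ x : ℝ} (hκ : κ * h0 = ken x) (hx : ((50331648 : ℕ) : ℝ) / S ≤ x) (hx' : x ≤ (((50331648 : ℕ) : ℝ) + (16777216 : ℕ)) / S) :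
    TriA PP.cur (farS κ (h0 * x) (tbl tKF x) (tbl tL x)) 1 1 3 2 2 1 (-1) :=
  (sideF hx hx').farA (Or.inl rfl) (Or.inr rfl) fun y y' F =>
    farA_cert (s1 := true) (s2 := false) rfl hκ covF21 covF21 hx hx'
        Pool.Agent.Strip051.G.I3_64_1_16.Tab.C.FA22.c_pm_113 noCut_A noExt_A F trivial trivial

theorem FA22_pm_123 {κ x : ℝ} (hκ : κ * h0 = ken x) (hx : ((50331648 : ℕ) : ℝ) / S ≤ x) (hx' : x ≤ (((50331648 : ℕ) : ℝ) + (16777216 : ℕ)) / S) :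
    TriA PP.cur (farS κ (h0 * x) (tbl tKF x) (tbl tL x)) 1 2 3 2 2 1 (-1) :=
  (sideF hx hx').farA (Or.inl rfl) (Or.inr rfl) fun y y' F =>
    (lt_or_ge (h0 * y') 1).elim
      (fun g => farA_cert (s1 := true) (s2 := false) rfl hκ covF21 covF22a hx hx'
        Pool.Agent.Strip051.G.I3_64_1_16.Tab.C.FA22.c_pm_123_a noCut_A noExt_A F trivial g)
      (fun g => farA_cert (s1 := true) (s2 := false) rfl hκ covF21 covF22b hx hx'
        Pool.Agent.Strip051.G.I3_64_1_16.Tab.C.FA22.c_pm_123_b noCut_A noExt_A F trivial g)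

theorem FA22_pm_133 {κ x : ℝ} (hκ : κ * h0 = ken x) (hx : ((50331648 : ℕ) : ℝ) / S ≤ x) (hx' : x ≤ (((50331648 : ℕ) : ℝ) + (16777216 : ℕ)) / S) :
    TriA PP.cur (farS κ (h0 * x) (tbl tKF x) (tbl tL x)) 1 3 3 2 2 1 (-1) :=
  (sideF hx hx').farA (Or.inl rfl) (Or.inr rfl) fun y y' F =>
    farA_cert (s1 := true) (s2 := false) rfl hκ covF21 covF23 hx hx'
        Pool.Agent.Strip051.G.I3_64_1_16.Tab.C.FA22.c_pm_133 noCut_A noExt_A F trivial trivial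

theorem FA22_pm_202 {κ x : ℝ} (hκ : κ * h0 = ken x) (hx : ((50331648 : ℕ) : ℝ) / S ≤ x) (hx' : x ≤ (((50331648 : ℕ) : ℝ) + (16777216 : ℕ)) / S) :
    TriA PP.cur (farS κ (h0 * x) (tbl tKF x) (tbl tL x)) 2 0 2 2 2 1 (-1) :=
  (sideF hx hx').farA (Or.inl rfl) (Or.inr rfl) fun y y' F =>
    (lt_or_ge (h0 * y) 1).elim
      (fun h => farA_cert (s1 := true) (s2 := false) rfl hκ covF22a covF20 hx hx'
        Pool.Agent.Strip051.G.I3_64_1_16.Tab.C.FA22.c_pm_202_a (cutA_cons (Pool.Agent.Strip051.G.I3_64_1_16.Tab.altF_A202E_22 hκ hx hx') cutA_nil) noExt_A F h trivial)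
      (fun h => farA_cert (s1 := true) (s2 := false) rfl hκ covF22b covF20 hx hx'
        Pool.Agent.Strip051.G.I3_64_1_16.Tab.C.FA22.c_pm_202_b (cutA_cons (Pool.Agent.Strip051.G.I3_64_1_16.Tab.altF_A202E_22 hκ hx hx') cutA_nil) noExt_A F h trivial)

theorem FA22_pm_203 {κ x : ℝ} (hκ : κ * h0 = ken x) (hx : ((50331648 : ℕ) : ℝ) / S ≤ x) (hx' : x ≤ (((50331648 : ℕ) : ℝ) + (16777216 : ℕ)) / S) :
    TriA PP.cur (farS κ (h0 * x) (tbl tKF x) (tbl tL x)) 2 0 3 2 2 1 (-1) :=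
  (sideF hx hx').farA (Or.inl rfl) (Or.inr rfl) fun y y' F =>
    (lt_or_ge (h0 * y) 1).elim
      (fun h => farA_cert (s1 := true) (s2 := false) rfl hκ covF22a covF20 hx hx'
        Pool.Agent.Strip051.G.I3_64_1_16.Tab.C.FA22.c_pm_203_a noCut_A noExt_A F h trivial)
      (fun h => farA_cert (s1 := true) (s2 := false) rfl hκ covF22b covF20 hx hx'
        Pool.Agent.Strip051.G.I3_64_1_16.Tab.C.FA22.c_pm_203_b noCut_A noExt_A F h trivial)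

theorem FA22_pm_213 {κ x : ℝ} (hκ : κ * h0 = ken x) (hx : ((50331648 : ℕ) : ℝ) / S ≤ x) (hx' : x ≤ (((50331648 : ℕ) : ℝ) + (16777216 : ℕ)) / S) :
    TriA PP.cur (farS κ (h0 * x) (tbl tKF x) (tbl tL x)) 2 1 3 2 2 1 (-1) :=
  (sideF hx hx').farA (Or.inl rfl) (Or.inr rfl) fun y y' F =>
    (lt_or_ge (h0 * y) 1).elim
      (fun h => farA_cert (s1 := true) (s2 := false) rfl hκ covF22a covF21 hx hx'
        Pool.Agent.Strip051.G.I3_64_1_16.Tab.C.FA22.c_pm_213_a noCut_A noExt_A F h trivial)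
      (fun h => farA_cert (s1 := true) (s2 := false) rfl hκ covF22b covF21 hx hx'
        Pool.Agent.Strip051.G.I3_64_1_16.Tab.C.FA22.c_pm_213_b noCut_A noExt_A F h trivial)

theorem FA22_pm_303 {κ x : ℝ} (hκ : κ * h0 = ken x) (hx : ((50331648 : ℕ) : ℝ) / S ≤ x) (hx' : x ≤ (((50331648 : ℕ) : ℝ) + (16777216 : ℕ)) / S) :
    TriA PP.cur (farS κ (h0 * x) (tbl tKF x) (tbl tL x)) 3 0 3 2 2 1 (-1) :=
  (sideF hx hx').farA (Or.inl rfl) (Or.inr rfl) fun y y' F =>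
    farA_cert (s1 := true) (s2 := false) rfl hκ covF23 covF20 hx hx'
        Pool.Agent.Strip051.G.I3_64_1_16.Tab.C.FA22.c_pm_303 noCut_A noExt_A F trivial trivial

theorem FA22_pm_313 {κ x : ℝ} (hκ : κ * h0 = ken x) (hx : ((50331648 : ℕ) : ℝ) / S ≤ x) (hx' : x ≤ (((50331648 : ℕ) : ℝ) + (16777216 : ℕ)) / S) :
    TriA PP.cur (farS κ (h0 * x) (tbl tKF x) (tbl tL x)) 3 1 3 2 2 1 (-1) :=
  (sideF hx hx').farA (Or.inl rfl) (Or.inr rfl) fun y y' F =>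
    farA_cert (s1 := true) (s2 := false) rfl hκ covF23 covF21 hx hx'
        Pool.Agent.Strip051.G.I3_64_1_16.Tab.C.FA22.c_pm_313 noCut_A noExt_A F trivial trivial

theorem FA22_mm_001 {κ x : ℝ} (hκ : κ * h0 = ken x) (hx : ((50331648 : ℕ) : ℝ) / S ≤ x) (hx' : x ≤ (((50331648 : ℕ) : ℝ) + (16777216 : ℕ)) / S) :
    TriA PP.cur (farS κ (h0 * x) (tbl tKF x) (tbl tL x)) 0 0 1 2 2 (-1) (-1) :=
  (sideF hx hx').farA (Or.inr rfl) (Or.inr rfl) fun y y' F =>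
    farA_cert (s1 := false) (s2 := false) rfl hκ covF20 covF20 hx hx'
        Pool.Agent.Strip051.G.I3_64_1_16.Tab.C.FA22.c_mm_001 noCut_A noExt_A F trivial trivial

theorem FA22_mm_011 {κ x : ℝ} (hκ : κ * h0 = ken x) (hx : ((50331648 : ℕ) : ℝ) / S ≤ x) (hx' : x ≤ (((50331648 : ℕ) : ℝ) + (16777216 : ℕ)) / S) :
    TriA PP.cur (farS κ (h0 * x) (tbl tKF x) (tbl tL x)) 0 1 1 2 2 (-1) (-1) :=
  (sideF hx hx').farA (Or.inr rfl) (Or.inr rfl) fun y y' F =>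
    farA_cert (s1 := false) (s2 := false) rfl hκ covF20 covF21 hx hx'
        Pool.Agent.Strip051.G.I3_64_1_16.Tab.C.FA22.c_mm_011 noCut_A noExt_A F trivial trivial

theorem FA22_mm_012 {κ x : ℝ} (hκ : κ * h0 = ken x) (hx : ((50331648 : ℕ) : ℝ) / S ≤ x) (hx' : x ≤ (((50331648 : ℕ) : ℝ) + (16777216 : ℕ)) / S) :
    TriA PP.cur (farS κ (h0 * x) (tbl tKF x) (tbl tL x)) 0 1 2 2 2 (-1) (-1) :=
  (sideF hx hx').farA (Or.inr rfl) (Or.inr rfl) fun y y' F =>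
    farA_cert (s1 := false) (s2 := false) rfl hκ covF20 covF21 hx hx'
        Pool.Agent.Strip051.G.I3_64_1_16.Tab.C.FA22.c_mm_012 noCut_A noExt_A F trivial trivial

theorem FA22_mm_022 {κ x : ℝ} (hκ : κ * h0 = ken x) (hx : ((50331648 : ℕ) : ℝ) / S ≤ x) (hx' : x ≤ (((50331648 : ℕ) : ℝ) + (16777216 : ℕ)) / S) :
    TriA PP.cur (farS κ (h0 * x) (tbl tKF x) (tbl tL x)) 0 2 2 2 2 (-1) (-1) :=
  (sideF hx hx').farA (Or.inr rfl) (Or.inr rfl) fun y y' F =>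
    (lt_or_ge (h0 * y') 1).elim
      (fun g => farA_cert (s1 := false) (s2 := false) rfl hκ covF20 covF22a hx hx'
        Pool.Agent.Strip051.G.I3_64_1_16.Tab.C.FA22.c_mm_022_a noCut_A noExt_A F trivial g)
      (fun g => farA_cert (s1 := false) (s2 := false) rfl hκ covF20 covF22b hx hx'
        Pool.Agent.Strip051.G.I3_64_1_16.Tab.C.FA22.c_mm_022_b noCut_A noExt_A F trivial g)

theorem FA22_mm_023 {κ x : ℝ} (hκ : κ * h0 = ken x) (hx : ((50331648 : ℕ) : ℝ) / S ≤ x) (hx' : x ≤ (((50331648 : ℕ) : ℝ) + (16777216 : ℕ)) / S) :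
    TriA PP.cur (farS κ (h0 * x) (tbl tKF x) (tbl tL x)) 0 2 3 2 2 (-1) (-1) :=
  (sideF hx hx').farA (Or.inr rfl) (Or.inr rfl) fun y y' F =>
    (lt_or_ge (h0 * y') 1).elim
      (fun g => farA_cert (s1 := false) (s2 := false) rfl hκ covF20 covF22a hx hx'
        Pool.Agent.Strip051.G.I3_64_1_16.Tab.C.FA22.c_mm_023_a noCut_A noExt_A F trivial g)
      (fun g => farA_cert (s1 := false) (s2 := false) rfl hκ covF20 covF22b hx hx'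
        Pool.Agent.Strip051.G.I3_64_1_16.Tab.C.FA22.c_mm_023_b noCut_A noExt_A F trivial g)

theorem FA22_mm_033 {κ x : ℝ} (hκ : κ * h0 = ken x) (hx : ((50331648 : ℕ) : ℝ) / S ≤ x) (hx' : x ≤ (((50331648 : ℕ) : ℝ) + (16777216 : ℕ)) / S) :
    TriA PP.cur (farS κ (h0 * x) (tbl tKF x) (tbl tL x)) 0 3 3 2 2 (-1) (-1) :=
  (sideF hx hx').farA (Or.inr rfl) (Or.inr rfl) fun y y' F =>
    farA_cert (s1 := false) (s2 := false) rfl hκ covF20 covF23 hx hx'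
        Pool.Agent.Strip051.G.I3_64_1_16.Tab.C.FA22.c_mm_033 noCut_A noExt_A F trivial trivial

theorem FA22_mm_101 {κ x : ℝ} (hκ : κ * h0 = ken x) (hx : ((50331648 : ℕ) : ℝ) / S ≤ x) (hx' : x ≤ (((50331648 : ℕ) : ℝ) + (16777216 : ℕ)) / S) :
    TriA PP.cur (farS κ (h0 * x) (tbl tKF x) (tbl tL x)) 1 0 1 2 2 (-1) (-1) :=
  (sideF hx hx').farA (Or.inr rfl) (Or.inr rfl) fun y y' F =>
    farA_cert (s1 := false) (s2 := false) rfl hκ covF21 covF20 hx hx'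
        Pool.Agent.Strip051.G.I3_64_1_16.Tab.C.FA22.c_mm_101 noCut_A noExt_A F trivial trivial

theorem FA22_mm_102 {κ x : ℝ} (hκ : κ * h0 = ken x) (hx : ((50331648 : ℕ) : ℝ) / S ≤ x) (hx' : x ≤ (((50331648 : ℕ) : ℝ) + (16777216 : ℕ)) / S) :
    TriA PP.cur (farS κ (h0 * x) (tbl tKF x) (tbl tL x)) 1 0 2 2 2 (-1) (-1) :=
  (sideF hx hx').farA (Or.inr rfl) (Or.inr rfl) fun y y' F =>
    farA_cert (s1 := false) (s2 := false) rfl hκ covF21 covF20 hx hx'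
        Pool.Agent.Strip051.G.I3_64_1_16.Tab.C.FA22.c_mm_102 noCut_A noExt_A F trivial trivial

theorem FA22_mm_112 {κ x : ℝ} (hκ : κ * h0 = ken x) (hx : ((50331648 : ℕ) : ℝ) / S ≤ x) (hx' : x ≤ (((50331648 : ℕ) : ℝ) + (16777216 : ℕ)) / S) :
    TriA PP.cur (farS κ (h0 * x) (tbl tKF x) (tbl tL x)) 1 1 2 2 2 (-1) (-1) :=
  (sideF hx hx').farA (Or.inr rfl) (Or.inr rfl) fun y y' F =>
    farA_cert (s1 := false) (s2 := false) rfl hκ covF21 covF21 hx hx'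
        Pool.Agent.Strip051.G.I3_64_1_16.Tab.C.FA22.c_mm_112 noCut_A noExt_A F trivial trivial

theorem FA22_mm_113 {κ x : ℝ} (hκ : κ * h0 = ken x) (hx : ((50331648 : ℕ) : ℝ) / S ≤ x) (hx' : x ≤ (((50331648 : ℕ) : ℝ) + (16777216 : ℕ)) / S) :
    TriA PP.cur (farS κ (h0 * x) (tbl tKF x) (tbl tL x)) 1 1 3 2 2 (-1) (-1) :=
  (sideF hx hx').farA (Or.inr rfl) (Or.inr rfl) fun y y' F =>
    farA_cert (s1 := false) (s2 := false) rfl hκ covF21 covF21 hx hx'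
        Pool.Agent.Strip051.G.I3_64_1_16.Tab.C.FA22.c_mm_113 noCut_A noExt_A F trivial trivial

theorem FA22_mm_123 {κ x : ℝ} (hκ : κ * h0 = ken x) (hx : ((50331648 : ℕ) : ℝ) / S ≤ x) (hx' : x ≤ (((50331648 : ℕ) : ℝ) + (16777216 : ℕ)) / S) :
    TriA PP.cur (farS κ (h0 * x) (tbl tKF x) (tbl tL x)) 1 2 3 2 2 (-1) (-1) :=
  (sideF hx hx').farA (Or.inr rfl) (Or.inr rfl) fun y y' F =>
    (lt_or_ge (h0 * y') 1).elim
      (fun g => farA_cert (s1 := false) (s2 := false) rfl hκ covF21 covF22a hx hx'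
        Pool.Agent.Strip051.G.I3_64_1_16.Tab.C.FA22.c_mm_123_a noCut_A noExt_A F trivial g)
      (fun g => farA_cert (s1 := false) (s2 := false) rfl hκ covF21 covF22b hx hx'
        Pool.Agent.Strip051.G.I3_64_1_16.Tab.C.FA22.c_mm_123_b noCut_A noExt_A F trivial g)

theorem FA22_mm_133 {κ x : ℝ} (hκ : κ * h0 = ken x) (hx : ((50331648 : ℕ) : ℝ) / S ≤ x) (hx' : x ≤ (((50331648 : ℕ) : ℝ) + (16777216 : ℕ)) / S) :
    TriA PP.cur (farS κ (h0 * x) (tbl tKF x) (tbl tL x)) 1 3 3 2 2 (-1) (-1) :=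
  (sideF hx hx').farA (Or.inr rfl) (Or.inr rfl) fun y y' F =>
    farA_cert (s1 := false) (s2 := false) rfl hκ covF21 covF23 hx hx'
        Pool.Agent.Strip051.G.I3_64_1_16.Tab.C.FA22.c_mm_133 noCut_A noExt_A F trivial trivial

theorem FA22_mm_202 {κ x : ℝ} (hκ : κ * h0 = ken x) (hx : ((50331648 : ℕ) : ℝ) / S ≤ x) (hx' : x ≤ (((50331648 : ℕ) : ℝ) + (16777216 : ℕ)) / S) :
    TriA PP.cur (farS κ (h0 * x) (tbl tKF x) (tbl tL x)) 2 0 2 2 2 (-1) (-1) :=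
  (sideF hx hx').farA (Or.inr rfl) (Or.inr rfl) fun y y' F =>
    (lt_or_ge (h0 * y) 1).elim
      (fun h => farA_cert (s1 := false) (s2 := false) rfl hκ covF22a covF20 hx hx'
        Pool.Agent.Strip051.G.I3_64_1_16.Tab.C.FA22.c_mm_202_a (cutA_cons (Pool.Agent.Strip051.G.I3_64_1_16.Tab.altF_A202R_22 hκ hx hx') cutA_nil) noExt_A F h trivial)
      (fun h => farA_cert (s1 := false) (s2 := false) rfl hκ covF22b covF20 hx hx'
        Pool.Agent.Strip051.G.I3_64_1_16.Tab.C.FA22.c_mm_202_b (cutA_cons (Pool.Agent.Strip051.G.I3_64_1_16.Tab.altF_A202R_22 hκ hx hx') cutA_nil) noExt_A F h trivial)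

theorem FA22_mm_203 {κ x : ℝ} (hκ : κ * h0 = ken x) (hx : ((50331648 : ℕ) : ℝ) / S ≤ x) (hx' : x ≤ (((50331648 : ℕ) : ℝ) + (16777216 : ℕ)) / S) :
    TriA PP.cur (farS κ (h0 * x) (tbl tKF x) (tbl tL x)) 2 0 3 2 2 (-1) (-1) :=
  (sideF hx hx').farA (Or.inr rfl) (Or.inr rfl) fun y y' F =>
    (lt_or_ge (h0 * y) 1).elim
      (fun h => farA_cert (s1 := false) (s2 := false) rfl hκ covF22a covF20 hx hx'
        Pool.Agent.Strip051.G.I3_64_1_16.Tab.C.FA22.c_mm_203_a noCut_A noExt_A F h trivial)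
      (fun h => farA_cert (s1 := false) (s2 := false) rfl hκ covF22b covF20 hx hx'
        Pool.Agent.Strip051.G.I3_64_1_16.Tab.C.FA22.c_mm_203_b noCut_A noExt_A F h trivial)

theorem FA22_mm_213 {κ x : ℝ} (hκ : κ * h0 = ken x) (hx : ((50331648 : ℕ) : ℝ) / S ≤ x) (hx' : x ≤ (((50331648 : ℕ) : ℝ) + (16777216 : ℕ)) / S) :
    TriA PP.cur (farS κ (h0 * x) (tbl tKF x) (tbl tL x)) 2 1 3 2 2 (-1) (-1) :=
  (sideF hx hx').farA (Or.inr rfl) (Or.inr rfl) fun y y' F =>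
    (lt_or_ge (h0 * y) 1).elim
      (fun h => farA_cert (s1 := false) (s2 := false) rfl hκ covF22a covF21 hx hx'
        Pool.Agent.Strip051.G.I3_64_1_16.Tab.C.FA22.c_mm_213_a noCut_A noExt_A F h trivial)
      (fun h => farA_cert (s1 := false) (s2 := false) rfl hκ covF22b covF21 hx hx'
        Pool.Agent.Strip051.G.I3_64_1_16.Tab.C.FA22.c_mm_213_b noCut_A noExt_A F h trivial)

theorem FA22_mm_303 {κ x : ℝ} (hκ : κ * h0 = ken x) (hx : ((50331648 : ℕ) : ℝ) / S ≤ x) (hx' : x ≤ (((50331648 : ℕ) : ℝ) + (16777216 : ℕ)) / S) :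
    TriA PP.cur (farS κ (h0 * x) (tbl tKF x) (tbl tL x)) 3 0 3 2 2 (-1) (-1) :=
  (sideF hx hx').farA (Or.inr rfl) (Or.inr rfl) fun y y' F =>
    farA_cert (s1 := false) (s2 := false) rfl hκ covF23 covF20 hx hx'
        Pool.Agent.Strip051.G.I3_64_1_16.Tab.C.FA22.c_mm_303 noCut_A noExt_A F trivial trivial

theorem FA22_mm_313 {κ x : ℝ} (hκ : κ * h0 = ken x) (hx : ((50331648 : ℕ) : ℝ) / S ≤ x) (hx' : x ≤ (((50331648 : ℕ) : ℝ) + (16777216 : ℕ)) / S) :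
    TriA PP.cur (farS κ (h0 * x) (tbl tKF x) (tbl tL x)) 3 1 3 2 2 (-1) (-1) :=
  (sideF hx hx').farA (Or.inr rfl) (Or.inr rfl) fun y y' F =>
    farA_cert (s1 := false) (s2 := false) rfl hκ covF23 covF21 hx hx'
        Pool.Agent.Strip051.G.I3_64_1_16.Tab.C.FA22.c_mm_313 noCut_A noExt_A F trivial trivial

theorem FA22 {κ x : ℝ} (hκ : κ * h0 = ken x) (hx : ((50331648 : ℕ) : ℝ) / S ≤ x) (hx' : x ≤ (((50331648 : ℕ) : ℝ) + (16777216 : ℕ)) / S) : AllTA PP.cur (farS κ (h0 * x) (tbl tKF x) (tbl tL x)) 2 2 where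
  pp := all17 (Q := fun a b c => TriA PP.cur (farS κ (h0 * x) (tbl tKF x) (tbl tL x)) a b c 2 2 1 1)
    (FA22_pp_001 hκ hx hx') (FA22_pp_011 hκ hx hx') (FA22_pp_012 hκ hx hx') (FA22_pp_022 hκ hx hx') (FA22_pp_023 hκ hx hx') (FA22_pp_033 hκ hx hx') (FA22_pp_101 hκ hx hx') (FA22_pp_102 hκ hx hx') (FA22_pp_112 hκ hx hx') (FA22_pp_113 hκ hx hx') (FA22_pp_123 hκ hx hx') (FA22_pp_133 hκ hx hx') (FA22_pp_202 hκ hx hx') (FA22_pp_203 hκ hx hx') (FA22_pp_213 hκ hx hx') (FA22_pp_303 hκ hx hx') (FA22_pp_313 hκ hx hx')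
  pm := all17 (Q := fun a b c => TriA PP.cur (farS κ (h0 * x) (tbl tKF x) (tbl tL x)) a b c 2 2 1 (-1))
    (FA22_pm_001 hκ hx hx') (FA22_pm_011 hκ hx hx') (FA22_pm_012 hκ hx hx') (FA22_pm_022 hκ hx hx') (FA22_pm_023 hκ hx hx') (FA22_pm_033 hκ hx hx') (FA22_pm_101 hκ hx hx') (FA22_pm_102 hκ hx hx') (FA22_pm_112 hκ hx hx') (FA22_pm_113 hκ hx hx') (FA22_pm_123 hκ hx hx') (FA22_pm_133 hκ hx hx') (FA22_pm_202 hκ hx hx') (FA22_pm_203 hκ hx hx') (FA22_pm_213 hκ hx hx') (FA22_pm_303 hκ hx hx') (FA22_pm_313 hκ hx hx')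
  mm := all17 (Q := fun a b c => TriA PP.cur (farS κ (h0 * x) (tbl tKF x) (tbl tL x)) a b c 2 2 (-1) (-1))
    (FA22_mm_001 hκ hx hx') (FA22_mm_011 hκ hx hx') (FA22_mm_012 hκ hx hx') (FA22_mm_022 hκ hx hx') (FA22_mm_023 hκ hx hx') (FA22_mm_033 hκ hx hx') (FA22_mm_101 hκ hx hx') (FA22_mm_102 hκ hx hx') (FA22_mm_112 hκ hx hx') (FA22_mm_113 hκ hx hx') (FA22_mm_123 hκ hx hx') (FA22_mm_133 hκ hx hx') (FA22_mm_202 hκ hx hx') (FA22_mm_203 hκ hx hx') (FA22_mm_213 hκ hx hx') (FA22_mm_303 hκ hx hx') (FA22_mm_313 hκ hx hx')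

theorem FA23_pp_001 {κ x : ℝ} (hκ : κ * h0 = ken x) (hx : ((50331648 : ℕ) : ℝ) / S ≤ x) (hx' : x ≤ (((50331648 : ℕ) : ℝ) + (16777216 : ℕ)) / S) :
    TriA PP.cur (farS κ (h0 * x) (tbl tKF x) (tbl tL x)) 0 0 1 2 3 1 1 :=
  (sideF hx hx').farA (Or.inl rfl) (Or.inl rfl) fun y y' F =>
    farA_cert (s1 := true) (s2 := true) rfl hκ covF20 covF30 hx hx'
        Pool.Agent.Strip051.G.I3_64_1_16.Tab.C.FA23.c_pp_001 noCut_A noExt_A F trivial trivial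

theorem FA23_pp_011 {κ x : ℝ} (hκ : κ * h0 = ken x) (hx : ((50331648 : ℕ) : ℝ) / S ≤ x) (hx' : x ≤ (((50331648 : ℕ) : ℝ) + (16777216 : ℕ)) / S) :
    TriA PP.cur (farS κ (h0 * x) (tbl tKF x) (tbl tL x)) 0 1 1 2 3 1 1 :=
  (sideF hx hx').farA (Or.inl rfl) (Or.inl rfl) fun y y' F =>
    farA_cert (s1 := true) (s2 := true) rfl hκ covF20 covF31 hx hx'
        Pool.Agent.Strip051.G.I3_64_1_16.Tab.C.FA23.c_pp_011 noCut_A noExt_A F trivial trivial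

theorem FA23_pp_012 {κ x : ℝ} (hκ : κ * h0 = ken x) (hx : ((50331648 : ℕ) : ℝ) / S ≤ x) (hx' : x ≤ (((50331648 : ℕ) : ℝ) + (16777216 : ℕ)) / S) :
    TriA PP.cur (farS κ (h0 * x) (tbl tKF x) (tbl tL x)) 0 1 2 2 3 1 1 :=
  (sideF hx hx').farA (Or.inl rfl) (Or.inl rfl) fun y y' F =>
    farA_cert (s1 := true) (s2 := true) rfl hκ covF20 covF31 hx hx'
        Pool.Agent.Strip051.G.I3_64_1_16.Tab.C.FA23.c_pp_012 noCut_A noExt_A F trivial trivial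

theorem FA23_pp_022 {κ x : ℝ} (hκ : κ * h0 = ken x) (hx : ((50331648 : ℕ) : ℝ) / S ≤ x) (hx' : x ≤ (((50331648 : ℕ) : ℝ) + (16777216 : ℕ)) / S) :
    TriA PP.cur (farS κ (h0 * x) (tbl tKF x) (tbl tL x)) 0 2 2 2 3 1 1 :=
  (sideF hx hx').farA (Or.inl rfl) (Or.inl rfl) fun y y' F =>
    farA_cert (s1 := true) (s2 := true) rfl hκ covF20 covF32 hx hx'
        Pool.Agent.Strip051.G.I3_64_1_16.Tab.C.FA23.c_pp_022 noCut_A noExt_A F trivial trivial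

theorem FA23_pp_023 {κ x : ℝ} (hκ : κ * h0 = ken x) (hx : ((50331648 : ℕ) : ℝ) / S ≤ x) (hx' : x ≤ (((50331648 : ℕ) : ℝ) + (16777216 : ℕ)) / S) :
    TriA PP.cur (farS κ (h0 * x) (tbl tKF x) (tbl tL x)) 0 2 3 2 3 1 1 :=
  (sideF hx hx').farA (Or.inl rfl) (Or.inl rfl) fun y y' F =>
    farA_cert (s1 := true) (s2 := true) rfl hκ covF20 covF32 hx hx'
        Pool.Agent.Strip051.G.I3_64_1_16.Tab.C.FA23.c_pp_023 noCut_A noExt_A F trivial trivial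

theorem FA23_pp_033 {κ x : ℝ} (hκ : κ * h0 = ken x) (hx : ((50331648 : ℕ) : ℝ) / S ≤ x) (hx' : x ≤ (((50331648 : ℕ) : ℝ) + (16777216 : ℕ)) / S) :
    TriA PP.cur (farS κ (h0 * x) (tbl tKF x) (tbl tL x)) 0 3 3 2 3 1 1 :=
  (sideF hx hx').farA (Or.inl rfl) (Or.inl rfl) fun y y' F =>
    farA_cert (s1 := true) (s2 := true) rfl hκ covF20 covF33 hx hx'
        Pool.Agent.Strip051.G.I3_64_1_16.Tab.C.FA23.c_pp_033 noCut_A noExt_A F trivial trivial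

theorem FA23_pp_101 {κ x : ℝ} (hκ : κ * h0 = ken x) (hx : ((50331648 : ℕ) : ℝ) / S ≤ x) (hx' : x ≤ (((50331648 : ℕ) : ℝ) + (16777216 : ℕ)) / S) :
    TriA PP.cur (farS κ (h0 * x) (tbl tKF x) (tbl tL x)) 1 0 1 2 3 1 1 :=
  (sideF hx hx').farA (Or.inl rfl) (Or.inl rfl) fun y y' F =>
    farA_cert (s1 := true) (s2 := true) rfl hκ covF21 covF30 hx hx'
        Pool.Agent.Strip051.G.I3_64_1_16.Tab.C.FA23.c_pp_101 noCut_A noExt_A F trivial trivial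

theorem FA23_pp_102 {κ x : ℝ} (hκ : κ * h0 = ken x) (hx : ((50331648 : ℕ) : ℝ) / S ≤ x) (hx' : x ≤ (((50331648 : ℕ) : ℝ) + (16777216 : ℕ)) / S) :
    TriA PP.cur (farS κ (h0 * x) (tbl tKF x) (tbl tL x)) 1 0 2 2 3 1 1 :=
  (sideF hx hx').farA (Or.inl rfl) (Or.inl rfl) fun y y' F =>
    farA_cert (s1 := true) (s2 := true) rfl hκ covF21 covF30 hx hx'
        Pool.Agent.Strip051.G.I3_64_1_16.Tab.C.FA23.c_pp_102 noCut_A noExt_A F trivial trivial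

theorem FA23_pp_112 {κ x : ℝ} (hκ : κ * h0 = ken x) (hx : ((50331648 : ℕ) : ℝ) / S ≤ x) (hx' : x ≤ (((50331648 : ℕ) : ℝ) + (16777216 : ℕ)) / S) :
    TriA PP.cur (farS κ (h0 * x) (tbl tKF x) (tbl tL x)) 1 1 2 2 3 1 1 :=
  (sideF hx hx').farA (Or.inl rfl) (Or.inl rfl) fun y y' F =>
    farA_cert (s1 := true) (s2 := true) rfl hκ covF21 covF31 hx hx'
        Pool.Agent.Strip051.G.I3_64_1_16.Tab.C.FA23.c_pp_112 noCut_A noExt_A F trivial trivial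

theorem FA23_pp_113 {κ x : ℝ} (hκ : κ * h0 = ken x) (hx : ((50331648 : ℕ) : ℝ) / S ≤ x) (hx' : x ≤ (((50331648 : ℕ) : ℝ) + (16777216 : ℕ)) / S) :
    TriA PP.cur (farS κ (h0 * x) (tbl tKF x) (tbl tL x)) 1 1 3 2 3 1 1 :=
  (sideF hx hx').farA (Or.inl rfl) (Or.inl rfl) fun y y' F =>
    farA_cert (s1 := true) (s2 := true) rfl hκ covF21 covF31 hx hx'
        Pool.Agent.Strip051.G.I3_64_1_16.Tab.C.FA23.c_pp_113 noCut_A noExt_A F trivial trivial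

theorem FA23_pp_123 {κ x : ℝ} (hκ : κ * h0 = ken x) (hx : ((50331648 : ℕ) : ℝ) / S ≤ x) (hx' : x ≤ (((50331648 : ℕ) : ℝ) + (16777216 : ℕ)) / S) :
    TriA PP.cur (farS κ (h0 * x) (tbl tKF x) (tbl tL x)) 1 2 3 2 3 1 1 :=
  (sideF hx hx').farA (Or.inl rfl) (Or.inl rfl) fun y y' F =>
    farA_cert (s1 := true) (s2 := true) rfl hκ covF21 covF32 hx hx'
        Pool.Agent.Strip051.G.I3_64_1_16.Tab.C.FA23.c_pp_123 noCut_A noExt_A F trivial trivial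

theorem FA23_pp_133 {κ x : ℝ} (hκ : κ * h0 = ken x) (hx : ((50331648 : ℕ) : ℝ) / S ≤ x) (hx' : x ≤ (((50331648 : ℕ) : ℝ) + (16777216 : ℕ)) / S) :
    TriA PP.cur (farS κ (h0 * x) (tbl tKF x) (tbl tL x)) 1 3 3 2 3 1 1 :=
  (sideF hx hx').farA (Or.inl rfl) (Or.inl rfl) fun y y' F =>
    farA_cert (s1 := true) (s2 := true) rfl hκ covF21 covF33 hx hx'
        Pool.Agent.Strip051.G.I3_64_1_16.Tab.C.FA23.c_pp_133 noCut_A noExt_A F trivial trivial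

theorem FA23_pp_202 {κ x : ℝ} (hκ : κ * h0 = ken x) (hx : ((50331648 : ℕ) : ℝ) / S ≤ x) (hx' : x ≤ (((50331648 : ℕ) : ℝ) + (16777216 : ℕ)) / S) :
    TriA PP.cur (farS κ (h0 * x) (tbl tKF x) (tbl tL x)) 2 0 2 2 3 1 1 :=
  (sideF hx hx').farA (Or.inl rfl) (Or.inl rfl) fun y y' F =>
    (lt_or_ge (h0 * y) 1).elim
      (fun h => farA_cert (s1 := true) (s2 := true) rfl hκ covF22a covF30 hx hx'
        Pool.Agent.Strip051.G.I3_64_1_16.Tab.C.FA23.c_pp_202_a noCut_A noExt_A F h trivial)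
      (fun h => farA_cert (s1 := true) (s2 := true) rfl hκ covF22b covF30 hx hx'
        Pool.Agent.Strip051.G.I3_64_1_16.Tab.C.FA23.c_pp_202_b noCut_A noExt_A F h trivial)

theorem FA23_pp_203 {κ x : ℝ} (hκ : κ * h0 = ken x) (hx : ((50331648 : ℕ) : ℝ) / S ≤ x) (hx' : x ≤ (((50331648 : ℕ) : ℝ) + (16777216 : ℕ)) / S) :
    TriA PP.cur (farS κ (h0 * x) (tbl tKF x) (tbl tL x)) 2 0 3 2 3 1 1 :=
  (sideF hx hx').farA (Or.inl rfl) (Or.inl rfl) fun y y' F =>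
    (lt_or_ge (h0 * y) 1).elim
      (fun h => farA_cert (s1 := true) (s2 := true) rfl hκ covF22a covF30 hx hx'
        Pool.Agent.Strip051.G.I3_64_1_16.Tab.C.FA23.c_pp_203_a noCut_A noExt_A F h trivial)
      (fun h => farA_cert (s1 := true) (s2 := true) rfl hκ covF22b covF30 hx hx'
        Pool.Agent.Strip051.G.I3_64_1_16.Tab.C.FA23.c_pp_203_b noCut_A noExt_A F h trivial)

theorem FA23_pp_213 {κ x : ℝ} (hκ : κ * h0 = ken x) (hx : ((50331648 : ℕ) : ℝ) / S ≤ x) (hx' : x ≤ (((50331648 : ℕ) : ℝ) + (16777216 : ℕ)) / S) :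
    TriA PP.cur (farS κ (h0 * x) (tbl tKF x) (tbl tL x)) 2 1 3 2 3 1 1 :=
  (sideF hx hx').farA (Or.inl rfl) (Or.inl rfl) fun y y' F =>
    (lt_or_ge (h0 * y) 1).elim
      (fun h => farA_cert (s1 := true) (s2 := true) rfl hκ covF22a covF31 hx hx'
        Pool.Agent.Strip051.G.I3_64_1_16.Tab.C.FA23.c_pp_213_a noCut_A noExt_A F h trivial)
      (fun h => farA_cert (s1 := true) (s2 := true) rfl hκ covF22b covF31 hx hx'
        Pool.Agent.Strip051.G.I3_64_1_16.Tab.C.FA23.c_pp_213_b noCut_A noExt_A F h trivial)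

theorem FA23_pp_303 {κ x : ℝ} (hκ : κ * h0 = ken x) (hx : ((50331648 : ℕ) : ℝ) / S ≤ x) (hx' : x ≤ (((50331648 : ℕ) : ℝ) + (16777216 : ℕ)) / S) :
    TriA PP.cur (farS κ (h0 * x) (tbl tKF x) (tbl tL x)) 3 0 3 2 3 1 1 :=
  (sideF hx hx').farA (Or.inl rfl) (Or.inl rfl) fun y y' F =>
    farA_cert (s1 := true) (s2 := true) rfl hκ covF23 covF30 hx hx'
        Pool.Agent.Strip051.G.I3_64_1_16.Tab.C.FA23.c_pp_303 noCut_A noExt_A F trivial trivial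

theorem FA23_pp_313 {κ x : ℝ} (hκ : κ * h0 = ken x) (hx : ((50331648 : ℕ) : ℝ) / S ≤ x) (hx' : x ≤ (((50331648 : ℕ) : ℝ) + (16777216 : ℕ)) / S) :
    TriA PP.cur (farS κ (h0 * x) (tbl tKF x) (tbl tL x)) 3 1 3 2 3 1 1 :=
  (sideF hx hx').farA (Or.inl rfl) (Or.inl rfl) fun y y' F =>
    farA_cert (s1 := true) (s2 := true) rfl hκ covF23 covF31 hx hx'
        Pool.Agent.Strip051.G.I3_64_1_16.Tab.C.FA23.c_pp_313 noCut_A noExt_A F trivial trivial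

theorem FA23_pm_001 {κ x : ℝ} (hκ : κ * h0 = ken x) (hx : ((50331648 : ℕ) : ℝ) / S ≤ x) (hx' : x ≤ (((50331648 : ℕ) : ℝ) + (16777216 : ℕ)) / S) :
    TriA PP.cur (farS κ (h0 * x) (tbl tKF x) (tbl tL x)) 0 0 1 2 3 1 (-1) :=
  (sideF hx hx').farA (Or.inl rfl) (Or.inr rfl) fun y y' F =>
    farA_cert (s1 := true) (s2 := false) rfl hκ covF20 covF30 hx hx'
        Pool.Agent.Strip051.G.I3_64_1_16.Tab.C.FA23.c_pm_001 noCut_A noExt_A F trivial trivial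

theorem FA23_pm_011 {κ x : ℝ} (hκ : κ * h0 = ken x) (hx : ((50331648 : ℕ) : ℝ) / S ≤ x) (hx' : x ≤ (((50331648 : ℕ) : ℝ) + (16777216 : ℕ)) / S) :
    TriA PP.cur (farS κ (h0 * x) (tbl tKF x) (tbl tL x)) 0 1 1 2 3 1 (-1) :=
  (sideF hx hx').farA (Or.inl rfl) (Or.inr rfl) fun y y' F =>
    farA_cert (s1 := true) (s2 := false) rfl hκ covF20 covF31 hx hx'
        Pool.Agent.Strip051.G.I3_64_1_16.Tab.C.FA23.c_pm_011 (cutA_cons (Pool.Agent.Strip051.G.I3_64_1_16.Tab.altF_A011R_23 hκ hx hx') cutA_nil) noExt_A F trivial trivial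

theorem FA23_pm_012 {κ x : ℝ} (hκ : κ * h0 = ken x) (hx : ((50331648 : ℕ) : ℝ) / S ≤ x) (hx' : x ≤ (((50331648 : ℕ) : ℝ) + (16777216 : ℕ)) / S) :
    TriA PP.cur (farS κ (h0 * x) (tbl tKF x) (tbl tL x)) 0 1 2 2 3 1 (-1) :=
  (sideF hx hx').farA (Or.inl rfl) (Or.inr rfl) fun y y' F =>
    farA_cert (s1 := true) (s2 := false) rfl hκ covF20 covF31 hx hx'
        Pool.Agent.Strip051.G.I3_64_1_16.Tab.C.FA23.c_pm_012 (cutA_cons (Pool.Agent.Strip051.G.I3_64_1_16.Tab.altF_A012R_23 hκ hx hx') cutA_nil) noExt_A F trivial trivial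

theorem FA23_pm_022 {κ x : ℝ} (hκ : κ * h0 = ken x) (hx : ((50331648 : ℕ) : ℝ) / S ≤ x) (hx' : x ≤ (((50331648 : ℕ) : ℝ) + (16777216 : ℕ)) / S) :
    TriA PP.cur (farS κ (h0 * x) (tbl tKF x) (tbl tL x)) 0 2 2 2 3 1 (-1) :=
  (sideF hx hx').farA (Or.inl rfl) (Or.inr rfl) fun y y' F =>
    farA_cert (s1 := true) (s2 := false) rfl hκ covF20 covF32 hx hx'
        Pool.Agent.Strip051.G.I3_64_1_16.Tab.C.FA23.c_pm_022 noCut_A noExt_A F trivial trivial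

theorem FA23_pm_023 {κ x : ℝ} (hκ : κ * h0 = ken x) (hx : ((50331648 : ℕ) : ℝ) / S ≤ x) (hx' : x ≤ (((50331648 : ℕ) : ℝ) + (16777216 : ℕ)) / S) :
    TriA PP.cur (farS κ (h0 * x) (tbl tKF x) (tbl tL x)) 0 2 3 2 3 1 (-1) :=
  (sideF hx hx').farA (Or.inl rfl) (Or.inr rfl) fun y y' F =>
    farA_cert (s1 := true) (s2 := false) rfl hκ covF20 covF32 hx hx'
        Pool.Agent.Strip051.G.I3_64_1_16.Tab.C.FA23.c_pm_023 noCut_A noExt_A F trivial trivial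

theorem FA23_pm_033 {κ x : ℝ} (hκ : κ * h0 = ken x) (hx : ((50331648 : ℕ) : ℝ) / S ≤ x) (hx' : x ≤ (((50331648 : ℕ) : ℝ) + (16777216 : ℕ)) / S) :
    TriA PP.cur (farS κ (h0 * x) (tbl tKF x) (tbl tL x)) 0 3 3 2 3 1 (-1) :=
  (sideF hx hx').farA (Or.inl rfl) (Or.inr rfl) fun y y' F =>
    farA_cert (s1 := true) (s2 := false) rfl hκ covF20 covF33 hx hx'
        Pool.Agent.Strip051.G.I3_64_1_16.Tab.C.FA23.c_pm_033 noCut_A noExt_A F trivial trivial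

theorem FA23_pm_101 {κ x : ℝ} (hκ : κ * h0 = ken x) (hx : ((50331648 : ℕ) : ℝ) / S ≤ x) (hx' : x ≤ (((50331648 : ℕ) : ℝ) + (16777216 : ℕ)) / S) :
    TriA PP.cur (farS κ (h0 * x) (tbl tKF x) (tbl tL x)) 1 0 1 2 3 1 (-1) :=
  (sideF hx hx').farA (Or.inl rfl) (Or.inr rfl) fun y y' F =>
    farA_cert (s1 := true) (s2 := false) rfl hκ covF21 covF30 hx hx'
        Pool.Agent.Strip051.G.I3_64_1_16.Tab.C.FA23.c_pm_101 noCut_A noExt_A F trivial trivial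

theorem FA23_pm_102 {κ x : ℝ} (hκ : κ * h0 = ken x) (hx : ((50331648 : ℕ) : ℝ) / S ≤ x) (hx' : x ≤ (((50331648 : ℕ) : ℝ) + (16777216 : ℕ)) / S) :
    TriA PP.cur (farS κ (h0 * x) (tbl tKF x) (tbl tL x)) 1 0 2 2 3 1 (-1) :=
  (sideF hx hx').farA (Or.inl rfl) (Or.inr rfl) fun y y' F =>
    farA_cert (s1 := true) (s2 := false) rfl hκ covF21 covF30 hx hx'
        Pool.Agent.Strip051.G.I3_64_1_16.Tab.C.FA23.c_pm_102 noCut_A noExt_A F trivial trivial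

theorem FA23_pm_112 {κ x : ℝ} (hκ : κ * h0 = ken x) (hx : ((50331648 : ℕ) : ℝ) / S ≤ x) (hx' : x ≤ (((50331648 : ℕ) : ℝ) + (16777216 : ℕ)) / S) :
    TriA PP.cur (farS κ (h0 * x) (tbl tKF x) (tbl tL x)) 1 1 2 2 3 1 (-1) :=
  (sideF hx hx').farA (Or.inl rfl) (Or.inr rfl) fun y y' F =>
    farA_cert (s1 := true) (s2 := false) rfl hκ covF21 covF31 hx hx'
        Pool.Agent.Strip051.G.I3_64_1_16.Tab.C.FA23.c_pm_112 noCut_A noExt_A F trivial trivial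

theorem FA23_pm_113 {κ x : ℝ} (hκ : κ * h0 = ken x) (hx : ((50331648 : ℕ) : ℝ) / S ≤ x) (hx' : x ≤ (((50331648 : ℕ) : ℝ) + (16777216 : ℕ)) / S) :
    TriA PP.cur (farS κ (h0 * x) (tbl tKF x) (tbl tL x)) 1 1 3 2 3 1 (-1) :=
  (sideF hx hx').farA (Or.inl rfl) (Or.inr rfl) fun y y' F =>
    farA_cert (s1 := true) (s2 := false) rfl hκ covF21 covF31 hx hx'
        Pool.Agent.Strip051.G.I3_64_1_16.Tab.C.FA23.c_pm_113 noCut_A noExt_A F trivial trivial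

theorem FA23_pm_123 {κ x : ℝ} (hκ : κ * h0 = ken x) (hx : ((50331648 : ℕ) : ℝ) / S ≤ x) (hx' : x ≤ (((50331648 : ℕ) : ℝ) + (16777216 : ℕ)) / S) :
    TriA PP.cur (farS κ (h0 * x) (tbl tKF x) (tbl tL x)) 1 2 3 2 3 1 (-1) :=
  (sideF hx hx').farA (Or.inl rfl) (Or.inr rfl) fun y y' F =>
    farA_cert (s1 := true) (s2 := false) rfl hκ covF21 covF32 hx hx'
        Pool.Agent.Strip051.G.I3_64_1_16.Tab.C.FA23.c_pm_123 noCut_A noExt_A F trivial trivial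

theorem FA23_pm_133 {κ x : ℝ} (hκ : κ * h0 = ken x) (hx : ((50331648 : ℕ) : ℝ) / S ≤ x) (hx' : x ≤ (((50331648 : ℕ) : ℝ) + (16777216 : ℕ)) / S) :
    TriA PP.cur (farS κ (h0 * x) (tbl tKF x) (tbl tL x)) 1 3 3 2 3 1 (-1) :=
  (sideF hx hx').farA (Or.inl rfl) (Or.inr rfl) fun y y' F =>
    farA_cert (s1 := true) (s2 := false) rfl hκ covF21 covF33 hx hx'
        Pool.Agent.Strip051.G.I3_64_1_16.Tab.C.FA23.c_pm_133 noCut_A noExt_A F trivial trivial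

theorem FA23_pm_202 {κ x : ℝ} (hκ : κ * h0 = ken x) (hx : ((50331648 : ℕ) : ℝ) / S ≤ x) (hx' : x ≤ (((50331648 : ℕ) : ℝ) + (16777216 : ℕ)) / S) :
    TriA PP.cur (farS κ (h0 * x) (tbl tKF x) (tbl tL x)) 2 0 2 2 3 1 (-1) :=
  (sideF hx hx').farA (Or.inl rfl) (Or.inr rfl) fun y y' F =>
    (lt_or_ge (h0 * y) 1).elim
      (fun h => farA_cert (s1 := true) (s2 := false) rfl hκ covF22a covF30 hx hx'
        Pool.Agent.Strip051.G.I3_64_1_16.Tab.C.FA23.c_pm_202_a noCut_A noExt_A F h trivial)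
      (fun h => farA_cert (s1 := true) (s2 := false) rfl hκ covF22b covF30 hx hx'
        Pool.Agent.Strip051.G.I3_64_1_16.Tab.C.FA23.c_pm_202_b noCut_A noExt_A F h trivial)

theorem FA23_pm_203 {κ x : ℝ} (hκ : κ * h0 = ken x) (hx : ((50331648 : ℕ) : ℝ) / S ≤ x) (hx' : x ≤ (((50331648 : ℕ) : ℝ) + (16777216 : ℕ)) / S) :
    TriA PP.cur (farS κ (h0 * x) (tbl tKF x) (tbl tL x)) 2 0 3 2 3 1 (-1) :=
  (sideF hx hx').farA (Or.inl rfl) (Or.inr rfl) fun y y' F =>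
    (lt_or_ge (h0 * y) 1).elim
      (fun h => farA_cert (s1 := true) (s2 := false) rfl hκ covF22a covF30 hx hx'
        Pool.Agent.Strip051.G.I3_64_1_16.Tab.C.FA23.c_pm_203_a noCut_A noExt_A F h trivial)
      (fun h => farA_cert (s1 := true) (s2 := false) rfl hκ covF22b covF30 hx hx'
        Pool.Agent.Strip051.G.I3_64_1_16.Tab.C.FA23.c_pm_203_b noCut_A noExt_A F h trivial)

theorem FA23_pm_213 {κ x : ℝ} (hκ : κ * h0 = ken x) (hx : ((50331648 : ℕ) : ℝ) / S ≤ x) (hx' : x ≤ (((50331648 : ℕ) : ℝ) + (16777216 : ℕ)) / S) :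
    TriA PP.cur (farS κ (h0 * x) (tbl tKF x) (tbl tL x)) 2 1 3 2 3 1 (-1) :=
  (sideF hx hx').farA (Or.inl rfl) (Or.inr rfl) fun y y' F =>
    (lt_or_ge (h0 * y) 1).elim
      (fun h => farA_cert (s1 := true) (s2 := false) rfl hκ covF22a covF31 hx hx'
        Pool.Agent.Strip051.G.I3_64_1_16.Tab.C.FA23.c_pm_213_a noCut_A noExt_A F h trivial)
      (fun h => farA_cert (s1 := true) (s2 := false) rfl hκ covF22b covF31 hx hx'
        Pool.Agent.Strip051.G.I3_64_1_16.Tab.C.FA23.c_pm_213_b noCut_A noExt_A F h trivial)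

theorem FA23_pm_303 {κ x : ℝ} (hκ : κ * h0 = ken x) (hx : ((50331648 : ℕ) : ℝ) / S ≤ x) (hx' : x ≤ (((50331648 : ℕ) : ℝ) + (16777216 : ℕ)) / S) :
    TriA PP.cur (farS κ (h0 * x) (tbl tKF x) (tbl tL x)) 3 0 3 2 3 1 (-1) :=
  (sideF hx hx').farA (Or.inl rfl) (Or.inr rfl) fun y y' F =>
    farA_cert (s1 := true) (s2 := false) rfl hκ covF23 covF30 hx hx'
        Pool.Agent.Strip051.G.I3_64_1_16.Tab.C.FA23.c_pm_303 noCut_A noExt_A F trivial trivial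

theorem FA23_pm_313 {κ x : ℝ} (hκ : κ * h0 = ken x) (hx : ((50331648 : ℕ) : ℝ) / S ≤ x) (hx' : x ≤ (((50331648 : ℕ) : ℝ) + (16777216 : ℕ)) / S) :
    TriA PP.cur (farS κ (h0 * x) (tbl tKF x) (tbl tL x)) 3 1 3 2 3 1 (-1) :=
  (sideF hx hx').farA (Or.inl rfl) (Or.inr rfl) fun y y' F =>
    farA_cert (s1 := true) (s2 := false) rfl hκ covF23 covF31 hx hx'
        Pool.Agent.Strip051.G.I3_64_1_16.Tab.C.FA23.c_pm_313 noCut_A noExt_A F trivial trivial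

theorem FA23_mm_001 {κ x : ℝ} (hκ : κ * h0 = ken x) (hx : ((50331648 : ℕ) : ℝ) / S ≤ x) (hx' : x ≤ (((50331648 : ℕ) : ℝ) + (16777216 : ℕ)) / S) :
    TriA PP.cur (farS κ (h0 * x) (tbl tKF x) (tbl tL x)) 0 0 1 2 3 (-1) (-1) :=
  (sideF hx hx').farA (Or.inr rfl) (Or.inr rfl) fun y y' F =>
    farA_cert (s1 := false) (s2 := false) rfl hκ covF20 covF30 hx hx'
        Pool.Agent.Strip051.G.I3_64_1_16.Tab.C.FA23.c_mm_001 noCut_A noExt_A F trivial trivial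

theorem FA23_mm_011 {κ x : ℝ} (hκ : κ * h0 = ken x) (hx : ((50331648 : ℕ) : ℝ) / S ≤ x) (hx' : x ≤ (((50331648 : ℕ) : ℝ) + (16777216 : ℕ)) / S) :
    TriA PP.cur (farS κ (h0 * x) (tbl tKF x) (tbl tL x)) 0 1 1 2 3 (-1) (-1) :=
  (sideF hx hx').farA (Or.inr rfl) (Or.inr rfl) fun y y' F =>
    farA_cert (s1 := false) (s2 := false) rfl hκ covF20 covF31 hx hx'
        Pool.Agent.Strip051.G.I3_64_1_16.Tab.C.FA23.c_mm_011 noCut_A noExt_A F trivial trivial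

theorem FA23_mm_012 {κ x : ℝ} (hκ : κ * h0 = ken x) (hx : ((50331648 : ℕ) : ℝ) / S ≤ x) (hx' : x ≤ (((50331648 : ℕ) : ℝ) + (16777216 : ℕ)) / S) :
    TriA PP.cur (farS κ (h0 * x) (tbl tKF x) (tbl tL x)) 0 1 2 2 3 (-1) (-1) :=
  (sideF hx hx').farA (Or.inr rfl) (Or.inr rfl) fun y y' F =>
    farA_cert (s1 := false) (s2 := false) rfl hκ covF20 covF31 hx hx'
        Pool.Agent.Strip051.G.I3_64_1_16.Tab.C.FA23.c_mm_012 noCut_A noExt_A F trivial trivial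

theorem FA23_mm_022 {κ x : ℝ} (hκ : κ * h0 = ken x) (hx : ((50331648 : ℕ) : ℝ) / S ≤ x) (hx' : x ≤ (((50331648 : ℕ) : ℝ) + (16777216 : ℕ)) / S) :
    TriA PP.cur (farS κ (h0 * x) (tbl tKF x) (tbl tL x)) 0 2 2 2 3 (-1) (-1) :=
  (sideF hx hx').farA (Or.inr rfl) (Or.inr rfl) fun y y' F =>
    farA_cert (s1 := false) (s2 := false) rfl hκ covF20 covF32 hx hx'
        Pool.Agent.Strip051.G.I3_64_1_16.Tab.C.FA23.c_mm_022 noCut_A noExt_A F trivial trivial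

theorem FA23_mm_023 {κ x : ℝ} (hκ : κ * h0 = ken x) (hx : ((50331648 : ℕ) : ℝ) / S ≤ x) (hx' : x ≤ (((50331648 : ℕ) : ℝ) + (16777216 : ℕ)) / S) :
    TriA PP.cur (farS κ (h0 * x) (tbl tKF x) (tbl tL x)) 0 2 3 2 3 (-1) (-1) :=
  (sideF hx hx').farA (Or.inr rfl) (Or.inr rfl) fun y y' F =>
    farA_cert (s1 := false) (s2 := false) rfl hκ covF20 covF32 hx hx'
        Pool.Agent.Strip051.G.I3_64_1_16.Tab.C.FA23.c_mm_023 noCut_A noExt_A F trivial trivial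

theorem FA23_mm_033 {κ x : ℝ} (hκ : κ * h0 = ken x) (hx : ((50331648 : ℕ) : ℝ) / S ≤ x) (hx' : x ≤ (((50331648 : ℕ) : ℝ) + (16777216 : ℕ)) / S) :
    TriA PP.cur (farS κ (h0 * x) (tbl tKF x) (tbl tL x)) 0 3 3 2 3 (-1) (-1) :=
  (sideF hx hx').farA (Or.inr rfl) (Or.inr rfl) fun y y' F =>
    farA_cert (s1 := false) (s2 := false) rfl hκ covF20 covF33 hx hx'
        Pool.Agent.Strip051.G.I3_64_1_16.Tab.C.FA23.c_mm_033 noCut_A noExt_A F trivial trivial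

theorem FA23_mm_101 {κ x : ℝ} (hκ : κ * h0 = ken x) (hx : ((50331648 : ℕ) : ℝ) / S ≤ x) (hx' : x ≤ (((50331648 : ℕ) : ℝ) + (16777216 : ℕ)) / S) :
    TriA PP.cur (farS κ (h0 * x) (tbl tKF x) (tbl tL x)) 1 0 1 2 3 (-1) (-1) :=
  (sideF hx hx').farA (Or.inr rfl) (Or.inr rfl) fun y y' F =>
    farA_cert (s1 := false) (s2 := false) rfl hκ covF21 covF30 hx hx'
        Pool.Agent.Strip051.G.I3_64_1_16.Tab.C.FA23.c_mm_101 noCut_A noExt_A F trivial trivial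

theorem FA23_mm_102 {κ x : ℝ} (hκ : κ * h0 = ken x) (hx : ((50331648 : ℕ) : ℝ) / S ≤ x) (hx' : x ≤ (((50331648 : ℕ) : ℝ) + (16777216 : ℕ)) / S) :
    TriA PP.cur (farS κ (h0 * x) (tbl tKF x) (tbl tL x)) 1 0 2 2 3 (-1) (-1) :=
  (sideF hx hx').farA (Or.inr rfl) (Or.inr rfl) fun y y' F =>
    farA_cert (s1 := false) (s2 := false) rfl hκ covF21 covF30 hx hx'
        Pool.Agent.Strip051.G.I3_64_1_16.Tab.C.FA23.c_mm_102 noCut_A noExt_A F trivial trivial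

theorem FA23_mm_112 {κ x : ℝ} (hκ : κ * h0 = ken x) (hx : ((50331648 : ℕ) : ℝ) / S ≤ x) (hx' : x ≤ (((50331648 : ℕ) : ℝ) + (16777216 : ℕ)) / S) :
    TriA PP.cur (farS κ (h0 * x) (tbl tKF x) (tbl tL x)) 1 1 2 2 3 (-1) (-1) :=
  (sideF hx hx').farA (Or.inr rfl) (Or.inr rfl) fun y y' F =>
    farA_cert (s1 := false) (s2 := false) rfl hκ covF21 covF31 hx hx'
        Pool.Agent.Strip051.G.I3_64_1_16.Tab.C.FA23.c_mm_112 noCut_A noExt_A F trivial trivial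

theorem FA23_mm_113 {κ x : ℝ} (hκ : κ * h0 = ken x) (hx : ((50331648 : ℕ) : ℝ) / S ≤ x) (hx' : x ≤ (((50331648 : ℕ) : ℝ) + (16777216 : ℕ)) / S) :
    TriA PP.cur (farS κ (h0 * x) (tbl tKF x) (tbl tL x)) 1 1 3 2 3 (-1) (-1) :=
  (sideF hx hx').farA (Or.inr rfl) (Or.inr rfl) fun y y' F =>
    farA_cert (s1 := false) (s2 := false) rfl hκ covF21 covF31 hx hx'
        Pool.Agent.Strip051.G.I3_64_1_16.Tab.C.FA23.c_mm_113 noCut_A noExt_A F trivial trivial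

theorem FA23_mm_123 {κ x : ℝ} (hκ : κ * h0 = ken x) (hx : ((50331648 : ℕ) : ℝ) / S ≤ x) (hx' : x ≤ (((50331648 : ℕ) : ℝ) + (16777216 : ℕ)) / S) :
    TriA PP.cur (farS κ (h0 * x) (tbl tKF x) (tbl tL x)) 1 2 3 2 3 (-1) (-1) :=
  (sideF hx hx').farA (Or.inr rfl) (Or.inr rfl) fun y y' F =>
    farA_cert (s1 := false) (s2 := false) rfl hκ covF21 covF32 hx hx'
        Pool.Agent.Strip051.G.I3_64_1_16.Tab.C.FA23.c_mm_123 noCut_A noExt_A F trivial trivial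

theorem FA23_mm_133 {κ x : ℝ} (hκ : κ * h0 = ken x) (hx : ((50331648 : ℕ) : ℝ) / S ≤ x) (hx' : x ≤ (((50331648 : ℕ) : ℝ) + (16777216 : ℕ)) / S) :
    TriA PP.cur (farS κ (h0 * x) (tbl tKF x) (tbl tL x)) 1 3 3 2 3 (-1) (-1) :=
  (sideF hx hx').farA (Or.inr rfl) (Or.inr rfl) fun y y' F =>
    farA_cert (s1 := false) (s2 := false) rfl hκ covF21 covF33 hx hx'
        Pool.Agent.Strip051.G.I3_64_1_16.Tab.C.FA23.c_mm_133 noCut_A noExt_A F trivial trivial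

theorem FA23_mm_202 {κ x : ℝ} (hκ : κ * h0 = ken x) (hx : ((50331648 : ℕ) : ℝ) / S ≤ x) (hx' : x ≤ (((50331648 : ℕ) : ℝ) + (16777216 : ℕ)) / S) :
    TriA PP.cur (farS κ (h0 * x) (tbl tKF x) (tbl tL x)) 2 0 2 2 3 (-1) (-1) :=
  (sideF hx hx').farA (Or.inr rfl) (Or.inr rfl) fun y y' F =>
    (lt_or_ge (h0 * y) 1).elim
      (fun h => farA_cert (s1 := false) (s2 := false) rfl hκ covF22a covF30 hx hx'
        Pool.Agent.Strip051.G.I3_64_1_16.Tab.C.FA23.c_mm_202_a noCut_A noExt_A F h trivial)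
      (fun h => farA_cert (s1 := false) (s2 := false) rfl hκ covF22b covF30 hx hx'
        Pool.Agent.Strip051.G.I3_64_1_16.Tab.C.FA23.c_mm_202_b noCut_A noExt_A F h trivial)

theorem FA23_mm_203 {κ x : ℝ} (hκ : κ * h0 = ken x) (hx : ((50331648 : ℕ) : ℝ) / S ≤ x) (hx' : x ≤ (((50331648 : ℕ) : ℝ) + (16777216 : ℕ)) / S) :
    TriA PP.cur (farS κ (h0 * x) (tbl tKF x) (tbl tL x)) 2 0 3 2 3 (-1) (-1) :=
  (sideF hx hx').farA (Or.inr rfl) (Or.inr rfl) fun y y' F =>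
    (lt_or_ge (h0 * y) 1).elim
      (fun h => farA_cert (s1 := false) (s2 := false) rfl hκ covF22a covF30 hx hx'
        Pool.Agent.Strip051.G.I3_64_1_16.Tab.C.FA23.c_mm_203_a noCut_A noExt_A F h trivial)
      (fun h => farA_cert (s1 := false) (s2 := false) rfl hκ covF22b covF30 hx hx'
        Pool.Agent.Strip051.G.I3_64_1_16.Tab.C.FA23.c_mm_203_b noCut_A noExt_A F h trivial)

theorem FA23_mm_213 {κ x : ℝ} (hκ : κ * h0 = ken x) (hx : ((50331648 : ℕ) : ℝ) / S ≤ x) (hx' : x ≤ (((50331648 : ℕ) : ℝ) + (16777216 : ℕ)) / S) :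
    TriA PP.cur (farS κ (h0 * x) (tbl tKF x) (tbl tL x)) 2 1 3 2 3 (-1) (-1) :=
  (sideF hx hx').farA (Or.inr rfl) (Or.inr rfl) fun y y' F =>
    (lt_or_ge (h0 * y) 1).elim
      (fun h => farA_cert (s1 := false) (s2 := false) rfl hκ covF22a covF31 hx hx'
        Pool.Agent.Strip051.G.I3_64_1_16.Tab.C.FA23.c_mm_213_a noCut_A noExt_A F h trivial)
      (fun h => farA_cert (s1 := false) (s2 := false) rfl hκ covF22b covF31 hx hx'
        Pool.Agent.Strip051.G.I3_64_1_16.Tab.C.FA23.c_mm_213_b noCut_A noExt_A F h trivial)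

theorem FA23_mm_303 {κ x : ℝ} (hκ : κ * h0 = ken x) (hx : ((50331648 : ℕ) : ℝ) / S ≤ x) (hx' : x ≤ (((50331648 : ℕ) : ℝ) + (16777216 : ℕ)) / S) :
    TriA PP.cur (farS κ (h0 * x) (tbl tKF x) (tbl tL x)) 3 0 3 2 3 (-1) (-1) :=
  (sideF hx hx').farA (Or.inr rfl) (Or.inr rfl) fun y y' F =>
    farA_cert (s1 := false) (s2 := false) rfl hκ covF23 covF30 hx hx'
        Pool.Agent.Strip051.G.I3_64_1_16.Tab.C.FA23.c_mm_303 noCut_A noExt_A F trivial trivial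

theorem FA23_mm_313 {κ x : ℝ} (hκ : κ * h0 = ken x) (hx : ((50331648 : ℕ) : ℝ) / S ≤ x) (hx' : x ≤ (((50331648 : ℕ) : ℝ) + (16777216 : ℕ)) / S) :
    TriA PP.cur (farS κ (h0 * x) (tbl tKF x) (tbl tL x)) 3 1 3 2 3 (-1) (-1) :=
  (sideF hx hx').farA (Or.inr rfl) (Or.inr rfl) fun y y' F =>
    farA_cert (s1 := false) (s2 := false) rfl hκ covF23 covF31 hx hx'
        Pool.Agent.Strip051.G.I3_64_1_16.Tab.C.FA23.c_mm_313 noCut_A noExt_A F trivial trivial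

theorem FA23 {κ x : ℝ} (hκ : κ * h0 = ken x) (hx : ((50331648 : ℕ) : ℝ) / S ≤ x) (hx' : x ≤ (((50331648 : ℕ) : ℝ) + (16777216 : ℕ)) / S) : AllTA PP.cur (farS κ (h0 * x) (tbl tKF x) (tbl tL x)) 2 3 where
  pp := all17 (Q := fun a b c => TriA PP.cur (farS κ (h0 * x) (tbl tKF x) (tbl tL x)) a b c 2 3 1 1)
    (FA23_pp_001 hκ hx hx') (FA23_pp_011 hκ hx hx') (FA23_pp_012 hκ hx hx') (FA23_pp_022 hκ hx hx') (FA23_pp_023 hκ hx hx') (FA23_pp_033 hκ hx hx') (FA23_pp_101 hκ hx hx') (FA23_pp_102 hκ hx hx') (FA23_pp_112 hκ hx hx') (FA23_pp_113 hκ hx hx') (FA23_pp_123 hκ hx hx') (FA23_pp_133 hκ hx hx') (FA23_pp_202 hκ hx hx') (FA23_pp_203 hκ hx hx') (FA23_pp_213 hκ hx hx') (FA23_pp_303 hκ hx hx') (FA23_pp_313 hκ hx hx')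
  pm := all17 (Q := fun a b c => TriA PP.cur (farS κ (h0 * x) (tbl tKF x) (tbl tL x)) a b c 2 3 1 (-1))
    (FA23_pm_001 hκ hx hx') (FA23_pm_011 hκ hx hx') (FA23_pm_012 hκ hx hx') (FA23_pm_022 hκ hx hx') (FA23_pm_023 hκ hx hx') (FA23_pm_033 hκ hx hx') (FA23_pm_101 hκ hx hx') (FA23_pm_102 hκ hx hx') (FA23_pm_112 hκ hx hx') (FA23_pm_113 hκ hx hx') (FA23_pm_123 hκ hx hx') (FA23_pm_133 hκ hx hx') (FA23_pm_202 hκ hx hx') (FA23_pm_203 hκ hx hx') (FA23_pm_213 hκ hx hx') (FA23_pm_303 hκ hx hx') (FA23_pm_313 hκ hx hx')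
  mm := all17 (Q := fun a b c => TriA PP.cur (farS κ (h0 * x) (tbl tKF x) (tbl tL x)) a b c 2 3 (-1) (-1))
    (FA23_mm_001 hκ hx hx') (FA23_mm_011 hκ hx hx') (FA23_mm_012 hκ hx hx') (FA23_mm_022 hκ hx hx') (FA23_mm_023 hκ hx hx') (FA23_mm_033 hκ hx hx') (FA23_mm_101 hκ hx hx') (FA23_mm_102 hκ hx hx') (FA23_mm_112 hκ hx hx') (FA23_mm_113 hκ hx hx') (FA23_mm_123 hκ hx hx') (FA23_mm_133 hκ hx hx') (FA23_mm_202 hκ hx hx') (FA23_mm_203 hκ hx hx') (FA23_mm_213 hκ hx hx') (FA23_mm_303 hκ hx hx') (FA23_mm_313 hκ hx hx')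

theorem FA24_pp_001 {κ x : ℝ} (hκ : κ * h0 = ken x) (hx : ((50331648 : ℕ) : ℝ) / S ≤ x) (hx' : x ≤ (((50331648 : ℕ) : ℝ) + (16777216 : ℕ)) / S) :
    TriA PP.cur (farS κ (h0 * x) (tbl tKF x) (tbl tL x)) 0 0 1 2 4 1 1 :=
  (sideF hx hx').farA (Or.inl rfl) (Or.inl rfl) fun y y' F =>
    farA_cert (s1 := true) (s2 := true) rfl hκ covF20 covF40 hx hx'
        Pool.Agent.Strip051.G.I3_64_1_16.Tab.C.FA24.c_pp_001 noCut_A noExt_A F trivial trivial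

theorem FA24_pp_011 {κ x : ℝ} (hκ : κ * h0 = ken x) (hx : ((50331648 : ℕ) : ℝ) / S ≤ x) (hx' : x ≤ (((50331648 : ℕ) : ℝ) + (16777216 : ℕ)) / S) :
    TriA PP.cur (farS κ (h0 * x) (tbl tKF x) (tbl tL x)) 0 1 1 2 4 1 1 :=
  (sideF hx hx').farA (Or.inl rfl) (Or.inl rfl) fun y y' F =>
    farA_cert (s1 := true) (s2 := true) rfl hκ covF20 covF41 hx hx'
        Pool.Agent.Strip051.G.I3_64_1_16.Tab.C.FA24.c_pp_011 noCut_A noExt_A F trivial trivial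

theorem FA24_pp_012 {κ x : ℝ} (hκ : κ * h0 = ken x) (hx : ((50331648 : ℕ) : ℝ) / S ≤ x) (hx' : x ≤ (((50331648 : ℕ) : ℝ) + (16777216 : ℕ)) / S) :
    TriA PP.cur (farS κ (h0 * x) (tbl tKF x) (tbl tL x)) 0 1 2 2 4 1 1 :=
  (sideF hx hx').farA (Or.inl rfl) (Or.inl rfl) fun y y' F =>
    farA_cert (s1 := true) (s2 := true) rfl hκ covF20 covF41 hx hx'
        Pool.Agent.Strip051.G.I3_64_1_16.Tab.C.FA24.c_pp_012 noCut_A noExt_A F trivial trivial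

theorem FA24_pp_022 {κ x : ℝ} (hκ : κ * h0 = ken x) (hx : ((50331648 : ℕ) : ℝ) / S ≤ x) (hx' : x ≤ (((50331648 : ℕ) : ℝ) + (16777216 : ℕ)) / S) :
    TriA PP.cur (farS κ (h0 * x) (tbl tKF x) (tbl tL x)) 0 2 2 2 4 1 1 :=
  (sideF hx hx').farA (Or.inl rfl) (Or.inl rfl) fun y y' F =>
    farA_cert (s1 := true) (s2 := true) rfl hκ covF20 covF42 hx hx'
        Pool.Agent.Strip051.G.I3_64_1_16.Tab.C.FA24.c_pp_022 noCut_A noExt_A F trivial trivial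

theorem FA24_pp_023 {κ x : ℝ} (hκ : κ * h0 = ken x) (hx : ((50331648 : ℕ) : ℝ) / S ≤ x) (hx' : x ≤ (((50331648 : ℕ) : ℝ) + (16777216 : ℕ)) / S) :
    TriA PP.cur (farS κ (h0 * x) (tbl tKF x) (tbl tL x)) 0 2 3 2 4 1 1 :=
  (sideF hx hx').farA (Or.inl rfl) (Or.inl rfl) fun y y' F =>
    farA_cert (s1 := true) (s2 := true) rfl hκ covF20 covF42 hx hx'
        Pool.Agent.Strip051.G.I3_64_1_16.Tab.C.FA24.c_pp_023 noCut_A noExt_A F trivial trivial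

theorem FA24_pp_033 {κ x : ℝ} (hκ : κ * h0 = ken x) (hx : ((50331648 : ℕ) : ℝ) / S ≤ x) (hx' : x ≤ (((50331648 : ℕ) : ℝ) + (16777216 : ℕ)) / S) :
    TriA PP.cur (farS κ (h0 * x) (tbl tKF x) (tbl tL x)) 0 3 3 2 4 1 1 :=
  (sideF hx hx').farA (Or.inl rfl) (Or.inl rfl) fun y y' F =>
    farA_cert (s1 := true) (s2 := true) rfl hκ covF20 covF43 hx hx'
        Pool.Agent.Strip051.G.I3_64_1_16.Tab.C.FA24.c_pp_033 noCut_A noExt_A F trivial trivial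

theorem FA24_pp_101 {κ x : ℝ} (hκ : κ * h0 = ken x) (hx : ((50331648 : ℕ) : ℝ) / S ≤ x) (hx' : x ≤ (((50331648 : ℕ) : ℝ) + (16777216 : ℕ)) / S) :
    TriA PP.cur (farS κ (h0 * x) (tbl tKF x) (tbl tL x)) 1 0 1 2 4 1 1 :=
  (sideF hx hx').farA (Or.inl rfl) (Or.inl rfl) fun y y' F =>
    farA_cert (s1 := true) (s2 := true) rfl hκ covF21 covF40 hx hx'
        Pool.Agent.Strip051.G.I3_64_1_16.Tab.C.FA24.c_pp_101 noCut_A noExt_A F trivial trivial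

theorem FA24_pp_102 {κ x : ℝ} (hκ : κ * h0 = ken x) (hx : ((50331648 : ℕ) : ℝ) / S ≤ x) (hx' : x ≤ (((50331648 : ℕ) : ℝ) + (16777216 : ℕ)) / S) :
    TriA PP.cur (farS κ (h0 * x) (tbl tKF x) (tbl tL x)) 1 0 2 2 4 1 1 :=
  (sideF hx hx').farA (Or.inl rfl) (Or.inl rfl) fun y y' F =>
    farA_cert (s1 := true) (s2 := true) rfl hκ covF21 covF40 hx hx'
        Pool.Agent.Strip051.G.I3_64_1_16.Tab.C.FA24.c_pp_102 noCut_A noExt_A F trivial trivial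

theorem FA24_pp_112 {κ x : ℝ} (hκ : κ * h0 = ken x) (hx : ((50331648 : ℕ) : ℝ) / S ≤ x) (hx' : x ≤ (((50331648 : ℕ) : ℝ) + (16777216 : ℕ)) / S) :
    TriA PP.cur (farS κ (h0 * x) (tbl tKF x) (tbl tL x)) 1 1 2 2 4 1 1 :=
  (sideF hx hx').farA (Or.inl rfl) (Or.inl rfl) fun y y' F =>
    farA_cert (s1 := true) (s2 := true) rfl hκ covF21 covF41 hx hx'
        Pool.Agent.Strip051.G.I3_64_1_16.Tab.C.FA24.c_pp_112 noCut_A noExt_A F trivial trivial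

theorem FA24_pp_113 {κ x : ℝ} (hκ : κ * h0 = ken x) (hx : ((50331648 : ℕ) : ℝ) / S ≤ x) (hx' : x ≤ (((50331648 : ℕ) : ℝ) + (16777216 : ℕ)) / S) :
    TriA PP.cur (farS κ (h0 * x) (tbl tKF x) (tbl tL x)) 1 1 3 2 4 1 1 :=
  (sideF hx hx').farA (Or.inl rfl) (Or.inl rfl) fun y y' F =>
    farA_cert (s1 := true) (s2 := true) rfl hκ covF21 covF41 hx hx'
        Pool.Agent.Strip051.G.I3_64_1_16.Tab.C.FA24.c_pp_113 noCut_A noExt_A F trivial trivial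

theorem FA24_pp_123 {κ x : ℝ} (hκ : κ * h0 = ken x) (hx : ((50331648 : ℕ) : ℝ) / S ≤ x) (hx' : x ≤ (((50331648 : ℕ) : ℝ) + (16777216 : ℕ)) / S) :
    TriA PP.cur (farS κ (h0 * x) (tbl tKF x) (tbl tL x)) 1 2 3 2 4 1 1 :=
  (sideF hx hx').farA (Or.inl rfl) (Or.inl rfl) fun y y' F =>
    farA_cert (s1 := true) (s2 := true) rfl hκ covF21 covF42 hx hx'
        Pool.Agent.Strip051.G.I3_64_1_16.Tab.C.FA24.c_pp_123 noCut_A noExt_A F trivial trivial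

theorem FA24_pp_133 {κ x : ℝ} (hκ : κ * h0 = ken x) (hx : ((50331648 : ℕ) : ℝ) / S ≤ x) (hx' : x ≤ (((50331648 : ℕ) : ℝ) + (16777216 : ℕ)) / S) :
    TriA PP.cur (farS κ (h0 * x) (tbl tKF x) (tbl tL x)) 1 3 3 2 4 1 1 :=
  (sideF hx hx').farA (Or.inl rfl) (Or.inl rfl) fun y y' F =>
    farA_cert (s1 := true) (s2 := true) rfl hκ covF21 covF43 hx hx'
        Pool.Agent.Strip051.G.I3_64_1_16.Tab.C.FA24.c_pp_133 noCut_A noExt_A F trivial trivial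

theorem FA24_pp_202 {κ x : ℝ} (hκ : κ * h0 = ken x) (hx : ((50331648 : ℕ) : ℝ) / S ≤ x) (hx' : x ≤ (((50331648 : ℕ) : ℝ) + (16777216 : ℕ)) / S) :
    TriA PP.cur (farS κ (h0 * x) (tbl tKF x) (tbl tL x)) 2 0 2 2 4 1 1 :=
  (sideF hx hx').farA (Or.inl rfl) (Or.inl rfl) fun y y' F =>
    (lt_or_ge (h0 * y) 1).elim
      (fun h => farA_cert (s1 := true) (s2 := true) rfl hκ covF22a covF40 hx hx'
        Pool.Agent.Strip051.G.I3_64_1_16.Tab.C.FA24.c_pp_202_a noCut_A noExt_A F h trivial)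
      (fun h => farA_cert (s1 := true) (s2 := true) rfl hκ covF22b covF40 hx hx'
        Pool.Agent.Strip051.G.I3_64_1_16.Tab.C.FA24.c_pp_202_b noCut_A noExt_A F h trivial)

theorem FA24_pp_203 {κ x : ℝ} (hκ : κ * h0 = ken x) (hx : ((50331648 : ℕ) : ℝ) / S ≤ x) (hx' : x ≤ (((50331648 : ℕ) : ℝ) + (16777216 : ℕ)) / S) :
    TriA PP.cur (farS κ (h0 * x) (tbl tKF x) (tbl tL x)) 2 0 3 2 4 1 1 :=
  (sideF hx hx').farA (Or.inl rfl) (Or.inl rfl) fun y y' F =>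
    (lt_or_ge (h0 * y) 1).elim
      (fun h => farA_cert (s1 := true) (s2 := true) rfl hκ covF22a covF40 hx hx'
        Pool.Agent.Strip051.G.I3_64_1_16.Tab.C.FA24.c_pp_203_a noCut_A noExt_A F h trivial)
      (fun h => farA_cert (s1 := true) (s2 := true) rfl hκ covF22b covF40 hx hx'
        Pool.Agent.Strip051.G.I3_64_1_16.Tab.C.FA24.c_pp_203_b noCut_A noExt_A F h trivial)

theorem FA24_pp_213 {κ x : ℝ} (hκ : κ * h0 = ken x) (hx : ((50331648 : ℕ) : ℝ) / S ≤ x) (hx' : x ≤ (((50331648 : ℕ) : ℝ) + (16777216 : ℕ)) / S) :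
    TriA PP.cur (farS κ (h0 * x) (tbl tKF x) (tbl tL x)) 2 1 3 2 4 1 1 :=
  (sideF hx hx').farA (Or.inl rfl) (Or.inl rfl) fun y y' F =>
    (lt_or_ge (h0 * y) 1).elim
      (fun h => farA_cert (s1 := true) (s2 := true) rfl hκ covF22a covF41 hx hx'
        Pool.Agent.Strip051.G.I3_64_1_16.Tab.C.FA24.c_pp_213_a noCut_A noExt_A F h trivial)
      (fun h => farA_cert (s1 := true) (s2 := true) rfl hκ covF22b covF41 hx hx'
        Pool.Agent.Strip051.G.I3_64_1_16.Tab.C.FA24.c_pp_213_b noCut_A noExt_A F h trivial)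

theorem FA24_pp_303 {κ x : ℝ} (hκ : κ * h0 = ken x) (hx : ((50331648 : ℕ) : ℝ) / S ≤ x) (hx' : x ≤ (((50331648 : ℕ) : ℝ) + (16777216 : ℕ)) / S) :
    TriA PP.cur (farS κ (h0 * x) (tbl tKF x) (tbl tL x)) 3 0 3 2 4 1 1 :=
  (sideF hx hx').farA (Or.inl rfl) (Or.inl rfl) fun y y' F =>
    farA_cert (s1 := true) (s2 := true) rfl hκ covF23 covF40 hx hx'
        Pool.Agent.Strip051.G.I3_64_1_16.Tab.C.FA24.c_pp_303 noCut_A noExt_A F trivial trivial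

theorem FA24_pp_313 {κ x : ℝ} (hκ : κ * h0 = ken x) (hx : ((50331648 : ℕ) : ℝ) / S ≤ x) (hx' : x ≤ (((50331648 : ℕ) : ℝ) + (16777216 : ℕ)) / S) :
    TriA PP.cur (farS κ (h0 * x) (tbl tKF x) (tbl tL x)) 3 1 3 2 4 1 1 :=
  (sideF hx hx').farA (Or.inl rfl) (Or.inl rfl) fun y y' F =>
    farA_cert (s1 := true) (s2 := true) rfl hκ covF23 covF41 hx hx'
        Pool.Agent.Strip051.G.I3_64_1_16.Tab.C.FA24.c_pp_313 noCut_A noExt_A F trivial trivial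

theorem FA24_pm_001 {κ x : ℝ} (hκ : κ * h0 = ken x) (hx : ((50331648 : ℕ) : ℝ) / S ≤ x) (hx' : x ≤ (((50331648 : ℕ) : ℝ) + (16777216 : ℕ)) / S) :
    TriA PP.cur (farS κ (h0 * x) (tbl tKF x) (tbl tL x)) 0 0 1 2 4 1 (-1) :=
  (sideF hx hx').farA (Or.inl rfl) (Or.inr rfl) fun y y' F =>
    farA_cert (s1 := true) (s2 := false) rfl hκ covF20 covF40 hx hx'
        Pool.Agent.Strip051.G.I3_64_1_16.Tab.C.FA24.c_pm_001 noCut_A noExt_A F trivial trivial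

theorem FA24_pm_011 {κ x : ℝ} (hκ : κ * h0 = ken x) (hx : ((50331648 : ℕ) : ℝ) / S ≤ x) (hx' : x ≤ (((50331648 : ℕ) : ℝ) + (16777216 : ℕ)) / S) :
    TriA PP.cur (farS κ (h0 * x) (tbl tKF x) (tbl tL x)) 0 1 1 2 4 1 (-1) :=
  (sideF hx hx').farA (Or.inl rfl) (Or.inr rfl) fun y y' F =>
    farA_cert (s1 := true) (s2 := false) rfl hκ covF20 covF41 hx hx'
        Pool.Agent.Strip051.G.I3_64_1_16.Tab.C.FA24.c_pm_011 (cutA_cons (Pool.Agent.Strip051.G.I3_64_1_16.Tab.altF_A011R_24 hκ hx hx') cutA_nil) noExt_A F trivial trivial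

theorem FA24_pm_012 {κ x : ℝ} (hκ : κ * h0 = ken x) (hx : ((50331648 : ℕ) : ℝ) / S ≤ x) (hx' : x ≤ (((50331648 : ℕ) : ℝ) + (16777216 : ℕ)) / S) :
    TriA PP.cur (farS κ (h0 * x) (tbl tKF x) (tbl tL x)) 0 1 2 2 4 1 (-1) :=
  (sideF hx hx').farA (Or.inl rfl) (Or.inr rfl) fun y y' F =>
    farA_cert (s1 := true) (s2 := false) rfl hκ covF20 covF41 hx hx'
        Pool.Agent.Strip051.G.I3_64_1_16.Tab.C.FA24.c_pm_012 (cutA_cons (Pool.Agent.Strip051.G.I3_64_1_16.Tab.altF_A012R_24 hκ hx hx') cutA_nil) noExt_A F trivial trivial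

theorem FA24_pm_022 {κ x : ℝ} (hκ : κ * h0 = ken x) (hx : ((50331648 : ℕ) : ℝ) / S ≤ x) (hx' : x ≤ (((50331648 : ℕ) : ℝ) + (16777216 : ℕ)) / S) :
    TriA PP.cur (farS κ (h0 * x) (tbl tKF x) (tbl tL x)) 0 2 2 2 4 1 (-1) :=
  (sideF hx hx').farA (Or.inl rfl) (Or.inr rfl) fun y y' F =>
    farA_cert (s1 := true) (s2 := false) rfl hκ covF20 covF42 hx hx'
        Pool.Agent.Strip051.G.I3_64_1_16.Tab.C.FA24.c_pm_022 (cutA_cons (Pool.Agent.Strip051.G.I3_64_1_16.Tab.altF_A022R_24 hκ hx hx') cutA_nil) noExt_A F trivial trivial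

theorem FA24_pm_023 {κ x : ℝ} (hκ : κ * h0 = ken x) (hx : ((50331648 : ℕ) : ℝ) / S ≤ x) (hx' : x ≤ (((50331648 : ℕ) : ℝ) + (16777216 : ℕ)) / S) :
    TriA PP.cur (farS κ (h0 * x) (tbl tKF x) (tbl tL x)) 0 2 3 2 4 1 (-1) :=
  (sideF hx hx').farA (Or.inl rfl) (Or.inr rfl) fun y y' F =>
    farA_cert (s1 := true) (s2 := false) rfl hκ covF20 covF42 hx hx'
        Pool.Agent.Strip051.G.I3_64_1_16.Tab.C.FA24.c_pm_023 noCut_A noExt_A F trivial trivial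

theorem FA24_pm_033 {κ x : ℝ} (hκ : κ * h0 = ken x) (hx : ((50331648 : ℕ) : ℝ) / S ≤ x) (hx' : x ≤ (((50331648 : ℕ) : ℝ) + (16777216 : ℕ)) / S) :
    TriA PP.cur (farS κ (h0 * x) (tbl tKF x) (tbl tL x)) 0 3 3 2 4 1 (-1) :=
  (sideF hx hx').farA (Or.inl rfl) (Or.inr rfl) fun y y' F =>
    farA_cert (s1 := true) (s2 := false) rfl hκ covF20 covF43 hx hx'
        Pool.Agent.Strip051.G.I3_64_1_16.Tab.C.FA24.c_pm_033 noCut_A noExt_A F trivial trivial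

theorem FA24_pm_101 {κ x : ℝ} (hκ : κ * h0 = ken x) (hx : ((50331648 : ℕ) : ℝ) / S ≤ x) (hx' : x ≤ (((50331648 : ℕ) : ℝ) + (16777216 : ℕ)) / S) :
    TriA PP.cur (farS κ (h0 * x) (tbl tKF x) (tbl tL x)) 1 0 1 2 4 1 (-1) :=
  (sideF hx hx').farA (Or.inl rfl) (Or.inr rfl) fun y y' F =>
    farA_cert (s1 := true) (s2 := false) rfl hκ covF21 covF40 hx hx'
        Pool.Agent.Strip051.G.I3_64_1_16.Tab.C.FA24.c_pm_101 noCut_A noExt_A F trivial trivial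

theorem FA24_pm_102 {κ x : ℝ} (hκ : κ * h0 = ken x) (hx : ((50331648 : ℕ) : ℝ) / S ≤ x) (hx' : x ≤ (((50331648 : ℕ) : ℝ) + (16777216 : ℕ)) / S) :
    TriA PP.cur (farS κ (h0 * x) (tbl tKF x) (tbl tL x)) 1 0 2 2 4 1 (-1) :=
  (sideF hx hx').farA (Or.inl rfl) (Or.inr rfl) fun y y' F =>
    farA_cert (s1 := true) (s2 := false) rfl hκ covF21 covF40 hx hx'
        Pool.Agent.Strip051.G.I3_64_1_16.Tab.C.FA24.c_pm_102 noCut_A noExt_A F trivial trivial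

theorem FA24_pm_112 {κ x : ℝ} (hκ : κ * h0 = ken x) (hx : ((50331648 : ℕ) : ℝ) / S ≤ x) (hx' : x ≤ (((50331648 : ℕ) : ℝ) + (16777216 : ℕ)) / S) :
    TriA PP.cur (farS κ (h0 * x) (tbl tKF x) (tbl tL x)) 1 1 2 2 4 1 (-1) :=
  (sideF hx hx').farA (Or.inl rfl) (Or.inr rfl) fun y y' F =>
    farA_cert (s1 := true) (s2 := false) rfl hκ covF21 covF41 hx hx'
        Pool.Agent.Strip051.G.I3_64_1_16.Tab.C.FA24.c_pm_112 noCut_A noExt_A F trivial trivial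

theorem FA24_pm_113 {κ x : ℝ} (hκ : κ * h0 = ken x) (hx : ((50331648 : ℕ) : ℝ) / S ≤ x) (hx' : x ≤ (((50331648 : ℕ) : ℝ) + (16777216 : ℕ)) / S) :
    TriA PP.cur (farS κ (h0 * x) (tbl tKF x) (tbl tL x)) 1 1 3 2 4 1 (-1) :=
  (sideF hx hx').farA (Or.inl rfl) (Or.inr rfl) fun y y' F =>
    farA_cert (s1 := true) (s2 := false) rfl hκ covF21 covF41 hx hx'
        Pool.Agent.Strip051.G.I3_64_1_16.Tab.C.FA24.c_pm_113 noCut_A noExt_A F trivial trivial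

theorem FA24_pm_123 {κ x : ℝ} (hκ : κ * h0 = ken x) (hx : ((50331648 : ℕ) : ℝ) / S ≤ x) (hx' : x ≤ (((50331648 : ℕ) : ℝ) + (16777216 : ℕ)) / S) :
    TriA PP.cur (farS κ (h0 * x) (tbl tKF x) (tbl tL x)) 1 2 3 2 4 1 (-1) :=
  (sideF hx hx').farA (Or.inl rfl) (Or.inr rfl) fun y y' F =>
    farA_cert (s1 := true) (s2 := false) rfl hκ covF21 covF42 hx hx'
        Pool.Agent.Strip051.G.I3_64_1_16.Tab.C.FA24.c_pm_123 noCut_A noExt_A F trivial trivial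

theorem FA24_pm_133 {κ x : ℝ} (hκ : κ * h0 = ken x) (hx : ((50331648 : ℕ) : ℝ) / S ≤ x) (hx' : x ≤ (((50331648 : ℕ) : ℝ) + (16777216 : ℕ)) / S) :
    TriA PP.cur (farS κ (h0 * x) (tbl tKF x) (tbl tL x)) 1 3 3 2 4 1 (-1) :=
  (sideF hx hx').farA (Or.inl rfl) (Or.inr rfl) fun y y' F =>
    farA_cert (s1 := true) (s2 := false) rfl hκ covF21 covF43 hx hx'
        Pool.Agent.Strip051.G.I3_64_1_16.Tab.C.FA24.c_pm_133 noCut_A noExt_A F trivial trivial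

theorem FA24_pm_202 {κ x : ℝ} (hκ : κ * h0 = ken x) (hx : ((50331648 : ℕ) : ℝ) / S ≤ x) (hx' : x ≤ (((50331648 : ℕ) : ℝ) + (16777216 : ℕ)) / S) :
    TriA PP.cur (farS κ (h0 * x) (tbl tKF x) (tbl tL x)) 2 0 2 2 4 1 (-1) :=
  (sideF hx hx').farA (Or.inl rfl) (Or.inr rfl) fun y y' F =>
    (lt_or_ge (h0 * y) 1).elim
      (fun h => farA_cert (s1 := true) (s2 := false) rfl hκ covF22a covF40 hx hx'
        Pool.Agent.Strip051.G.I3_64_1_16.Tab.C.FA24.c_pm_202_a noCut_A noExt_A F h trivial)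
      (fun h => farA_cert (s1 := true) (s2 := false) rfl hκ covF22b covF40 hx hx'
        Pool.Agent.Strip051.G.I3_64_1_16.Tab.C.FA24.c_pm_202_b noCut_A noExt_A F h trivial)

theorem FA24_pm_203 {κ x : ℝ} (hκ : κ * h0 = ken x) (hx : ((50331648 : ℕ) : ℝ) / S ≤ x) (hx' : x ≤ (((50331648 : ℕ) : ℝ) + (16777216 : ℕ)) / S) :
    TriA PP.cur (farS κ (h0 * x) (tbl tKF x) (tbl tL x)) 2 0 3 2 4 1 (-1) :=
  (sideF hx hx').farA (Or.inl rfl) (Or.inr rfl) fun y y' F =>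
    (lt_or_ge (h0 * y) 1).elim
      (fun h => farA_cert (s1 := true) (s2 := false) rfl hκ covF22a covF40 hx hx'
        Pool.Agent.Strip051.G.I3_64_1_16.Tab.C.FA24.c_pm_203_a noCut_A noExt_A F h trivial)
      (fun h => farA_cert (s1 := true) (s2 := false) rfl hκ covF22b covF40 hx hx'
        Pool.Agent.Strip051.G.I3_64_1_16.Tab.C.FA24.c_pm_203_b noCut_A noExt_A F h trivial)

theorem FA24_pm_213 {κ x : ℝ} (hκ : κ * h0 = ken x) (hx : ((50331648 : ℕ) : ℝ) / S ≤ x) (hx' : x ≤ (((50331648 : ℕ) : ℝ) + (16777216 : ℕ)) / S) :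
    TriA PP.cur (farS κ (h0 * x) (tbl tKF x) (tbl tL x)) 2 1 3 2 4 1 (-1) :=
  (sideF hx hx').farA (Or.inl rfl) (Or.inr rfl) fun y y' F =>
    (lt_or_ge (h0 * y) 1).elim
      (fun h => farA_cert (s1 := true) (s2 := false) rfl hκ covF22a covF41 hx hx'
        Pool.Agent.Strip051.G.I3_64_1_16.Tab.C.FA24.c_pm_213_a noCut_A noExt_A F h trivial)
      (fun h => farA_cert (s1 := true) (s2 := false) rfl hκ covF22b covF41 hx hx'
        Pool.Agent.Strip051.G.I3_64_1_16.Tab.C.FA24.c_pm_213_b noCut_A noExt_A F h trivial)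

theorem FA24_pm_303 {κ x : ℝ} (hκ : κ * h0 = ken x) (hx : ((50331648 : ℕ) : ℝ) / S ≤ x) (hx' : x ≤ (((50331648 : ℕ) : ℝ) + (16777216 : ℕ)) / S) :
    TriA PP.cur (farS κ (h0 * x) (tbl tKF x) (tbl tL x)) 3 0 3 2 4 1 (-1) :=
  (sideF hx hx').farA (Or.inl rfl) (Or.inr rfl) fun y y' F =>
    farA_cert (s1 := true) (s2 := false) rfl hκ covF23 covF40 hx hx'
        Pool.Agent.Strip051.G.I3_64_1_16.Tab.C.FA24.c_pm_303 noCut_A noExt_A F trivial trivial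

theorem FA24_pm_313 {κ x : ℝ} (hκ : κ * h0 = ken x) (hx : ((50331648 : ℕ) : ℝ) / S ≤ x) (hx' : x ≤ (((50331648 : ℕ) : ℝ) + (16777216 : ℕ)) / S) :
    TriA PP.cur (farS κ (h0 * x) (tbl tKF x) (tbl tL x)) 3 1 3 2 4 1 (-1) :=
  (sideF hx hx').farA (Or.inl rfl) (Or.inr rfl) fun y y' F =>
    farA_cert (s1 := true) (s2 := false) rfl hκ covF23 covF41 hx hx'
        Pool.Agent.Strip051.G.I3_64_1_16.Tab.C.FA24.c_pm_313 noCut_A noExt_A F trivial trivial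

theorem FA24_mm_001 {κ x : ℝ} (hκ : κ * h0 = ken x) (hx : ((50331648 : ℕ) : ℝ) / S ≤ x) (hx' : x ≤ (((50331648 : ℕ) : ℝ) + (16777216 : ℕ)) / S) :
    TriA PP.cur (farS κ (h0 * x) (tbl tKF x) (tbl tL x)) 0 0 1 2 4 (-1) (-1) :=
  (sideF hx hx').farA (Or.inr rfl) (Or.inr rfl) fun y y' F =>
    farA_cert (s1 := false) (s2 := false) rfl hκ covF20 covF40 hx hx'
        Pool.Agent.Strip051.G.I3_64_1_16.Tab.C.FA24.c_mm_001 noCut_A noExt_A F trivial trivial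

theorem FA24_mm_011 {κ x : ℝ} (hκ : κ * h0 = ken x) (hx : ((50331648 : ℕ) : ℝ) / S ≤ x) (hx' : x ≤ (((50331648 : ℕ) : ℝ) + (16777216 : ℕ)) / S) :
    TriA PP.cur (farS κ (h0 * x) (tbl tKF x) (tbl tL x)) 0 1 1 2 4 (-1) (-1) :=
  (sideF hx hx').farA (Or.inr rfl) (Or.inr rfl) fun y y' F =>
    farA_cert (s1 := false) (s2 := false) rfl hκ covF20 covF41 hx hx'
        Pool.Agent.Strip051.G.I3_64_1_16.Tab.C.FA24.c_mm_011 noCut_A noExt_A F trivial trivial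

theorem FA24_mm_012 {κ x : ℝ} (hκ : κ * h0 = ken x) (hx : ((50331648 : ℕ) : ℝ) / S ≤ x) (hx' : x ≤ (((50331648 : ℕ) : ℝ) + (16777216 : ℕ)) / S) :
    TriA PP.cur (farS κ (h0 * x) (tbl tKF x) (tbl tL x)) 0 1 2 2 4 (-1) (-1) :=
  (sideF hx hx').farA (Or.inr rfl) (Or.inr rfl) fun y y' F =>
    farA_cert (s1 := false) (s2 := false) rfl hκ covF20 covF41 hx hx'
        Pool.Agent.Strip051.G.I3_64_1_16.Tab.C.FA24.c_mm_012 noCut_A noExt_A F trivial trivial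

theorem FA24_mm_022 {κ x : ℝ} (hκ : κ * h0 = ken x) (hx : ((50331648 : ℕ) : ℝ) / S ≤ x) (hx' : x ≤ (((50331648 : ℕ) : ℝ) + (16777216 : ℕ)) / S) :
    TriA PP.cur (farS κ (h0 * x) (tbl tKF x) (tbl tL x)) 0 2 2 2 4 (-1) (-1) :=
  (sideF hx hx').farA (Or.inr rfl) (Or.inr rfl) fun y y' F =>
    farA_cert (s1 := false) (s2 := false) rfl hκ covF20 covF42 hx hx'
        Pool.Agent.Strip051.G.I3_64_1_16.Tab.C.FA24.c_mm_022 noCut_A noExt_A F trivial trivial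

theorem FA24_mm_023 {κ x : ℝ} (hκ : κ * h0 = ken x) (hx : ((50331648 : ℕ) : ℝ) / S ≤ x) (hx' : x ≤ (((50331648 : ℕ) : ℝ) + (16777216 : ℕ)) / S) :
    TriA PP.cur (farS κ (h0 * x) (tbl tKF x) (tbl tL x)) 0 2 3 2 4 (-1) (-1) :=
  (sideF hx hx').farA (Or.inr rfl) (Or.inr rfl) fun y y' F =>
    farA_cert (s1 := false) (s2 := false) rfl hκ covF20 covF42 hx hx'
        Pool.Agent.Strip051.G.I3_64_1_16.Tab.C.FA24.c_mm_023 noCut_A noExt_A F trivial trivial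

theorem FA24_mm_033 {κ x : ℝ} (hκ : κ * h0 = ken x) (hx : ((50331648 : ℕ) : ℝ) / S ≤ x) (hx' : x ≤ (((50331648 : ℕ) : ℝ) + (16777216 : ℕ)) / S) :
    TriA PP.cur (farS κ (h0 * x) (tbl tKF x) (tbl tL x)) 0 3 3 2 4 (-1) (-1) :=
  (sideF hx hx').farA (Or.inr rfl) (Or.inr rfl) fun y y' F =>
    farA_cert (s1 := false) (s2 := false) rfl hκ covF20 covF43 hx hx'
        Pool.Agent.Strip051.G.I3_64_1_16.Tab.C.FA24.c_mm_033 noCut_A noExt_A F trivial trivial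

theorem FA24_mm_101 {κ x : ℝ} (hκ : κ * h0 = ken x) (hx : ((50331648 : ℕ) : ℝ) / S ≤ x) (hx' : x ≤ (((50331648 : ℕ) : ℝ) + (16777216 : ℕ)) / S) :
    TriA PP.cur (farS κ (h0 * x) (tbl tKF x) (tbl tL x)) 1 0 1 2 4 (-1) (-1) :=
  (sideF hx hx').farA (Or.inr rfl) (Or.inr rfl) fun y y' F =>
    farA_cert (s1 := false) (s2 := false) rfl hκ covF21 covF40 hx hx'
        Pool.Agent.Strip051.G.I3_64_1_16.Tab.C.FA24.c_mm_101 noCut_A noExt_A F trivial trivial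

theorem FA24_mm_102 {κ x : ℝ} (hκ : κ * h0 = ken x) (hx : ((50331648 : ℕ) : ℝ) / S ≤ x) (hx' : x ≤ (((50331648 : ℕ) : ℝ) + (16777216 : ℕ)) / S) :
    TriA PP.cur (farS κ (h0 * x) (tbl tKF x) (tbl tL x)) 1 0 2 2 4 (-1) (-1) :=
  (sideF hx hx').farA (Or.inr rfl) (Or.inr rfl) fun y y' F =>
    farA_cert (s1 := false) (s2 := false) rfl hκ covF21 covF40 hx hx'
        Pool.Agent.Strip051.G.I3_64_1_16.Tab.C.FA24.c_mm_102 noCut_A noExt_A F trivial trivial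

theorem FA24_mm_112 {κ x : ℝ} (hκ : κ * h0 = ken x) (hx : ((50331648 : ℕ) : ℝ) / S ≤ x) (hx' : x ≤ (((50331648 : ℕ) : ℝ) + (16777216 : ℕ)) / S) :
    TriA PP.cur (farS κ (h0 * x) (tbl tKF x) (tbl tL x)) 1 1 2 2 4 (-1) (-1) :=
  (sideF hx hx').farA (Or.inr rfl) (Or.inr rfl) fun y y' F =>
    farA_cert (s1 := false) (s2 := false) rfl hκ covF21 covF41 hx hx'
        Pool.Agent.Strip051.G.I3_64_1_16.Tab.C.FA24.c_mm_112 noCut_A noExt_A F trivial trivial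

theorem FA24_mm_113 {κ x : ℝ} (hκ : κ * h0 = ken x) (hx : ((50331648 : ℕ) : ℝ) / S ≤ x) (hx' : x ≤ (((50331648 : ℕ) : ℝ) + (16777216 : ℕ)) / S) :
    TriA PP.cur (farS κ (h0 * x) (tbl tKF x) (tbl tL x)) 1 1 3 2 4 (-1) (-1) :=
  (sideF hx hx').farA (Or.inr rfl) (Or.inr rfl) fun y y' F =>
    farA_cert (s1 := false) (s2 := false) rfl hκ covF21 covF41 hx hx'
        Pool.Agent.Strip051.G.I3_64_1_16.Tab.C.FA24.c_mm_113 noCut_A noExt_A F trivial trivial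

theorem FA24_mm_123 {κ x : ℝ} (hκ : κ * h0 = ken x) (hx : ((50331648 : ℕ) : ℝ) / S ≤ x) (hx' : x ≤ (((50331648 : ℕ) : ℝ) + (16777216 : ℕ)) / S) :
    TriA PP.cur (farS κ (h0 * x) (tbl tKF x) (tbl tL x)) 1 2 3 2 4 (-1) (-1) :=
  (sideF hx hx').farA (Or.inr rfl) (Or.inr rfl) fun y y' F =>
    farA_cert (s1 := false) (s2 := false) rfl hκ covF21 covF42 hx hx'
        Pool.Agent.Strip051.G.I3_64_1_16.Tab.C.FA24.c_mm_123 noCut_A noExt_A F trivial trivial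

theorem FA24_mm_133 {κ x : ℝ} (hκ : κ * h0 = ken x) (hx : ((50331648 : ℕ) : ℝ) / S ≤ x) (hx' : x ≤ (((50331648 : ℕ) : ℝ) + (16777216 : ℕ)) / S) :
    TriA PP.cur (farS κ (h0 * x) (tbl tKF x) (tbl tL x)) 1 3 3 2 4 (-1) (-1) :=
  (sideF hx hx').farA (Or.inr rfl) (Or.inr rfl) fun y y' F =>
    farA_cert (s1 := false) (s2 := false) rfl hκ covF21 covF43 hx hx'
        Pool.Agent.Strip051.G.I3_64_1_16.Tab.C.FA24.c_mm_133 noCut_A noExt_A F trivial trivial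

theorem FA24_mm_202 {κ x : ℝ} (hκ : κ * h0 = ken x) (hx : ((50331648 : ℕ) : ℝ) / S ≤ x) (hx' : x ≤ (((50331648 : ℕ) : ℝ) + (16777216 : ℕ)) / S) :
    TriA PP.cur (farS κ (h0 * x) (tbl tKF x) (tbl tL x)) 2 0 2 2 4 (-1) (-1) :=
  (sideF hx hx').farA (Or.inr rfl) (Or.inr rfl) fun y y' F =>
    (lt_or_ge (h0 * y) 1).elim
      (fun h => farA_cert (s1 := false) (s2 := false) rfl hκ covF22a covF40 hx hx'
        Pool.Agent.Strip051.G.I3_64_1_16.Tab.C.FA24.c_mm_202_a noCut_A noExt_A F h trivial)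
      (fun h => farA_cert (s1 := false) (s2 := false) rfl hκ covF22b covF40 hx hx'
        Pool.Agent.Strip051.G.I3_64_1_16.Tab.C.FA24.c_mm_202_b noCut_A noExt_A F h trivial)

theorem FA24_mm_203 {κ x : ℝ} (hκ : κ * h0 = ken x) (hx : ((50331648 : ℕ) : ℝ) / S ≤ x) (hx' : x ≤ (((50331648 : ℕ) : ℝ) + (16777216 : ℕ)) / S) :
    TriA PP.cur (farS κ (h0 * x) (tbl tKF x) (tbl tL x)) 2 0 3 2 4 (-1) (-1) :=
  (sideF hx hx').farA (Or.inr rfl) (Or.inr rfl) fun y y' F =>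
    (lt_or_ge (h0 * y) 1).elim
      (fun h => farA_cert (s1 := false) (s2 := false) rfl hκ covF22a covF40 hx hx'
        Pool.Agent.Strip051.G.I3_64_1_16.Tab.C.FA24.c_mm_203_a noCut_A noExt_A F h trivial)
      (fun h => farA_cert (s1 := false) (s2 := false) rfl hκ covF22b covF40 hx hx'
        Pool.Agent.Strip051.G.I3_64_1_16.Tab.C.FA24.c_mm_203_b noCut_A noExt_A F h trivial)

theorem FA24_mm_213 {κ x : ℝ} (hκ : κ * h0 = ken x) (hx : ((50331648 : ℕ) : ℝ) / S ≤ x) (hx' : x ≤ (((50331648 : ℕ) : ℝ) + (16777216 : ℕ)) / S) :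
    TriA PP.cur (farS κ (h0 * x) (tbl tKF x) (tbl tL x)) 2 1 3 2 4 (-1) (-1) :=
  (sideF hx hx').farA (Or.inr rfl) (Or.inr rfl) fun y y' F =>
    (lt_or_ge (h0 * y) 1).elim
      (fun h => farA_cert (s1 := false) (s2 := false) rfl hκ covF22a covF41 hx hx'
        Pool.Agent.Strip051.G.I3_64_1_16.Tab.C.FA24.c_mm_213_a noCut_A noExt_A F h trivial)
      (fun h => farA_cert (s1 := false) (s2 := false) rfl hκ covF22b covF41 hx hx'
        Pool.Agent.Strip051.G.I3_64_1_16.Tab.C.FA24.c_mm_213_b noCut_A noExt_A F h trivial)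

theorem FA24_mm_303 {κ x : ℝ} (hκ : κ * h0 = ken x) (hx : ((50331648 : ℕ) : ℝ) / S ≤ x) (hx' : x ≤ (((50331648 : ℕ) : ℝ) + (16777216 : ℕ)) / S) :
    TriA PP.cur (farS κ (h0 * x) (tbl tKF x) (tbl tL x)) 3 0 3 2 4 (-1) (-1) :=
  (sideF hx hx').farA (Or.inr rfl) (Or.inr rfl) fun y y' F =>
    farA_cert (s1 := false) (s2 := false) rfl hκ covF23 covF40 hx hx'
        Pool.Agent.Strip051.G.I3_64_1_16.Tab.C.FA24.c_mm_303 noCut_A noExt_A F trivial trivial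

theorem FA24_mm_313 {κ x : ℝ} (hκ : κ * h0 = ken x) (hx : ((50331648 : ℕ) : ℝ) / S ≤ x) (hx' : x ≤ (((50331648 : ℕ) : ℝ) + (16777216 : ℕ)) / S) :
    TriA PP.cur (farS κ (h0 * x) (tbl tKF x) (tbl tL x)) 3 1 3 2 4 (-1) (-1) :=
  (sideF hx hx').farA (Or.inr rfl) (Or.inr rfl) fun y y' F =>
    farA_cert (s1 := false) (s2 := false) rfl hκ covF23 covF41 hx hx'
        Pool.Agent.Strip051.G.I3_64_1_16.Tab.C.FA24.c_mm_313 noCut_A noExt_A F trivial trivial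

theorem FA24 {κ x : ℝ} (hκ : κ * h0 = ken x) (hx : ((50331648 : ℕ) : ℝ) / S ≤ x) (hx' : x ≤ (((50331648 : ℕ) : ℝ) + (16777216 : ℕ)) / S) : AllTA PP.cur (farS κ (h0 * x) (tbl tKF x) (tbl tL x)) 2 4 where
  pp := all17 (Q := fun a b c => TriA PP.cur (farS κ (h0 * x) (tbl tKF x) (tbl tL x)) a b c 2 4 1 1)
    (FA24_pp_001 hκ hx hx') (FA24_pp_011 hκ hx hx') (FA24_pp_012 hκ hx hx') (FA24_pp_022 hκ hx hx') (FA24_pp_023 hκ hx hx') (FA24_pp_033 hκ hx hx') (FA24_pp_101 hκ hx hx') (FA24_pp_102 hκ hx hx') (FA24_pp_112 hκ hx hx') (FA24_pp_113 hκ hx hx') (FA24_pp_123 hκ hx hx') (FA24_pp_133 hκ hx hx') (FA24_pp_202 hκ hx hx') (FA24_pp_203 hκ hx hx') (FA24_pp_213 hκ hx hx') (FA24_pp_303 hκ hx hx') (FA24_pp_313 hκ hx hx')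
  pm := all17 (Q := fun a b c => TriA PP.cur (farS κ (h0 * x) (tbl tKF x) (tbl tL x)) a b c 2 4 1 (-1))
    (FA24_pm_001 hκ hx hx') (FA24_pm_011 hκ hx hx') (FA24_pm_012 hκ hx hx') (FA24_pm_022 hκ hx hx') (FA24_pm_023 hκ hx hx') (FA24_pm_033 hκ hx hx') (FA24_pm_101 hκ hx hx') (FA24_pm_102 hκ hx hx') (FA24_pm_112 hκ hx hx') (FA24_pm_113 hκ hx hx') (FA24_pm_123 hκ hx hx') (FA24_pm_133 hκ hx hx') (FA24_pm_202 hκ hx hx') (FA24_pm_203 hκ hx hx') (FA24_pm_213 hκ hx hx') (FA24_pm_303 hκ hx hx') (FA24_pm_313 hκ hx hx')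
  mm := all17 (Q := fun a b c => TriA PP.cur (farS κ (h0 * x) (tbl tKF x) (tbl tL x)) a b c 2 4 (-1) (-1))
    (FA24_mm_001 hκ hx hx') (FA24_mm_011 hκ hx hx') (FA24_mm_012 hκ hx hx') (FA24_mm_022 hκ hx hx') (FA24_mm_023 hκ hx hx') (FA24_mm_033 hκ hx hx') (FA24_mm_101 hκ hx hx') (FA24_mm_102 hκ hx hx') (FA24_mm_112 hκ hx hx') (FA24_mm_113 hκ hx hx') (FA24_mm_123 hκ hx hx') (FA24_mm_133 hκ hx hx') (FA24_mm_202 hκ hx hx') (FA24_mm_203 hκ hx hx') (FA24_mm_213 hκ hx hx') (FA24_mm_303 hκ hx hx') (FA24_mm_313 hκ hx hx')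

theorem FA33_pp_001 {κ x : ℝ} (hκ : κ * h0 = ken x) (hx : ((50331648 : ℕ) : ℝ) / S ≤ x) (hx' : x ≤ (((50331648 : ℕ) : ℝ) + (16777216 : ℕ)) / S) :
    TriA PP.cur (farS κ (h0 * x) (tbl tKF x) (tbl tL x)) 0 0 1 3 3 1 1 :=
  (sideF hx hx').farA (Or.inl rfl) (Or.inl rfl) fun y y' F =>
    farA_cert (s1 := true) (s2 := true) rfl hκ covF30 covF30 hx hx'
        Pool.Agent.Strip051.G.I3_64_1_16.Tab.C.FA33.c_pp_001 noCut_A noExt_A F trivial trivial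

theorem FA33_pp_011 {κ x : ℝ} (hκ : κ * h0 = ken x) (hx : ((50331648 : ℕ) : ℝ) / S ≤ x) (hx' : x ≤ (((50331648 : ℕ) : ℝ) + (16777216 : ℕ)) / S) :
    TriA PP.cur (farS κ (h0 * x) (tbl tKF x) (tbl tL x)) 0 1 1 3 3 1 1 :=
  (sideF hx hx').farA (Or.inl rfl) (Or.inl rfl) fun y y' F =>
    farA_cert (s1 := true) (s2 := true) rfl hκ covF30 covF31 hx hx'
        Pool.Agent.Strip051.G.I3_64_1_16.Tab.C.FA33.c_pp_011 noCut_A noExt_A F trivial trivial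

theorem FA33_pp_012 {κ x : ℝ} (hκ : κ * h0 = ken x) (hx : ((50331648 : ℕ) : ℝ) / S ≤ x) (hx' : x ≤ (((50331648 : ℕ) : ℝ) + (16777216 : ℕ)) / S) :
    TriA PP.cur (farS κ (h0 * x) (tbl tKF x) (tbl tL x)) 0 1 2 3 3 1 1 :=
  (sideF hx hx').farA (Or.inl rfl) (Or.inl rfl) fun y y' F =>
    farA_cert (s1 := true) (s2 := true) rfl hκ covF30 covF31 hx hx'
        Pool.Agent.Strip051.G.I3_64_1_16.Tab.C.FA33.c_pp_012 noCut_A noExt_A F trivial trivial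

theorem FA33_pp_022 {κ x : ℝ} (hκ : κ * h0 = ken x) (hx : ((50331648 : ℕ) : ℝ) / S ≤ x) (hx' : x ≤ (((50331648 : ℕ) : ℝ) + (16777216 : ℕ)) / S) :
    TriA PP.cur (farS κ (h0 * x) (tbl tKF x) (tbl tL x)) 0 2 2 3 3 1 1 :=
  (sideF hx hx').farA (Or.inl rfl) (Or.inl rfl) fun y y' F =>
    farA_cert (s1 := true) (s2 := true) rfl hκ covF30 covF32 hx hx'
        Pool.Agent.Strip051.G.I3_64_1_16.Tab.C.FA33.c_pp_022 noCut_A noExt_A F trivial trivial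

theorem FA33_pp_023 {κ x : ℝ} (hκ : κ * h0 = ken x) (hx : ((50331648 : ℕ) : ℝ) / S ≤ x) (hx' : x ≤ (((50331648 : ℕ) : ℝ) + (16777216 : ℕ)) / S) :
    TriA PP.cur (farS κ (h0 * x) (tbl tKF x) (tbl tL x)) 0 2 3 3 3 1 1 :=
  (sideF hx hx').farA (Or.inl rfl) (Or.inl rfl) fun y y' F =>
    farA_cert (s1 := true) (s2 := true) rfl hκ covF30 covF32 hx hx'
        Pool.Agent.Strip051.G.I3_64_1_16.Tab.C.FA33.c_pp_023 noCut_A noExt_A F trivial trivial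

theorem FA33_pp_033 {κ x : ℝ} (hκ : κ * h0 = ken x) (hx : ((50331648 : ℕ) : ℝ) / S ≤ x) (hx' : x ≤ (((50331648 : ℕ) : ℝ) + (16777216 : ℕ)) / S) :
    TriA PP.cur (farS κ (h0 * x) (tbl tKF x) (tbl tL x)) 0 3 3 3 3 1 1 :=
  (sideF hx hx').farA (Or.inl rfl) (Or.inl rfl) fun y y' F =>
    farA_cert (s1 := true) (s2 := true) rfl hκ covF30 covF33 hx hx'
        Pool.Agent.Strip051.G.I3_64_1_16.Tab.C.FA33.c_pp_033 noCut_A noExt_A F trivial trivial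

theorem FA33_pp_101 {κ x : ℝ} (hκ : κ * h0 = ken x) (hx : ((50331648 : ℕ) : ℝ) / S ≤ x) (hx' : x ≤ (((50331648 : ℕ) : ℝ) + (16777216 : ℕ)) / S) :
    TriA PP.cur (farS κ (h0 * x) (tbl tKF x) (tbl tL x)) 1 0 1 3 3 1 1 :=
  (sideF hx hx').farA (Or.inl rfl) (Or.inl rfl) fun y y' F =>
    farA_cert (s1 := true) (s2 := true) rfl hκ covF31 covF30 hx hx'
        Pool.Agent.Strip051.G.I3_64_1_16.Tab.C.FA33.c_pp_101 noCut_A noExt_A F trivial trivial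

theorem FA33_pp_102 {κ x : ℝ} (hκ : κ * h0 = ken x) (hx : ((50331648 : ℕ) : ℝ) / S ≤ x) (hx' : x ≤ (((50331648 : ℕ) : ℝ) + (16777216 : ℕ)) / S) :
    TriA PP.cur (farS κ (h0 * x) (tbl tKF x) (tbl tL x)) 1 0 2 3 3 1 1 :=
  (sideF hx hx').farA (Or.inl rfl) (Or.inl rfl) fun y y' F =>
    farA_cert (s1 := true) (s2 := true) rfl hκ covF31 covF30 hx hx'
        Pool.Agent.Strip051.G.I3_64_1_16.Tab.C.FA33.c_pp_102 noCut_A noExt_A F trivial trivial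

theorem FA33_pp_112 {κ x : ℝ} (hκ : κ * h0 = ken x) (hx : ((50331648 : ℕ) : ℝ) / S ≤ x) (hx' : x ≤ (((50331648 : ℕ) : ℝ) + (16777216 : ℕ)) / S) :
    TriA PP.cur (farS κ (h0 * x) (tbl tKF x) (tbl tL x)) 1 1 2 3 3 1 1 :=
  (sideF hx hx').farA (Or.inl rfl) (Or.inl rfl) fun y y' F =>
    farA_cert (s1 := true) (s2 := true) rfl hκ covF31 covF31 hx hx'
        Pool.Agent.Strip051.G.I3_64_1_16.Tab.C.FA33.c_pp_112 noCut_A noExt_A F trivial trivial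

theorem FA33_pp_113 {κ x : ℝ} (hκ : κ * h0 = ken x) (hx : ((50331648 : ℕ) : ℝ) / S ≤ x) (hx' : x ≤ (((50331648 : ℕ) : ℝ) + (16777216 : ℕ)) / S) :
    TriA PP.cur (farS κ (h0 * x) (tbl tKF x) (tbl tL x)) 1 1 3 3 3 1 1 :=
  (sideF hx hx').farA (Or.inl rfl) (Or.inl rfl) fun y y' F =>
    farA_cert (s1 := true) (s2 := true) rfl hκ covF31 covF31 hx hx'
        Pool.Agent.Strip051.G.I3_64_1_16.Tab.C.FA33.c_pp_113 noCut_A noExt_A F trivial trivial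

theorem FA33_pp_123 {κ x : ℝ} (hκ : κ * h0 = ken x) (hx : ((50331648 : ℕ) : ℝ) / S ≤ x) (hx' : x ≤ (((50331648 : ℕ) : ℝ) + (16777216 : ℕ)) / S) :
    TriA PP.cur (farS κ (h0 * x) (tbl tKF x) (tbl tL x)) 1 2 3 3 3 1 1 :=
  (sideF hx hx').farA (Or.inl rfl) (Or.inl rfl) fun y y' F =>
    farA_cert (s1 := true) (s2 := true) rfl hκ covF31 covF32 hx hx'
        Pool.Agent.Strip051.G.I3_64_1_16.Tab.C.FA33.c_pp_123 noCut_A noExt_A F trivial trivial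

theorem FA33_pp_133 {κ x : ℝ} (hκ : κ * h0 = ken x) (hx : ((50331648 : ℕ) : ℝ) / S ≤ x) (hx' : x ≤ (((50331648 : ℕ) : ℝ) + (16777216 : ℕ)) / S) :
    TriA PP.cur (farS κ (h0 * x) (tbl tKF x) (tbl tL x)) 1 3 3 3 3 1 1 :=
  (sideF hx hx').farA (Or.inl rfl) (Or.inl rfl) fun y y' F =>
    farA_cert (s1 := true) (s2 := true) rfl hκ covF31 covF33 hx hx'
        Pool.Agent.Strip051.G.I3_64_1_16.Tab.C.FA33.c_pp_133 noCut_A noExt_A F trivial trivial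

theorem FA33_pp_202 {κ x : ℝ} (hκ : κ * h0 = ken x) (hx : ((50331648 : ℕ) : ℝ) / S ≤ x) (hx' : x ≤ (((50331648 : ℕ) : ℝ) + (16777216 : ℕ)) / S) :
    TriA PP.cur (farS κ (h0 * x) (tbl tKF x) (tbl tL x)) 2 0 2 3 3 1 1 :=
  (sideF hx hx').farA (Or.inl rfl) (Or.inl rfl) fun y y' F =>
    farA_cert (s1 := true) (s2 := true) rfl hκ covF32 covF30 hx hx'
        Pool.Agent.Strip051.G.I3_64_1_16.Tab.C.FA33.c_pp_202 noCut_A noExt_A F trivial trivial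

theorem FA33_pp_203 {κ x : ℝ} (hκ : κ * h0 = ken x) (hx : ((50331648 : ℕ) : ℝ) / S ≤ x) (hx' : x ≤ (((50331648 : ℕ) : ℝ) + (16777216 : ℕ)) / S) :
    TriA PP.cur (farS κ (h0 * x) (tbl tKF x) (tbl tL x)) 2 0 3 3 3 1 1 :=
  (sideF hx hx').farA (Or.inl rfl) (Or.inl rfl) fun y y' F =>
    farA_cert (s1 := true) (s2 := true) rfl hκ covF32 covF30 hx hx'
        Pool.Agent.Strip051.G.I3_64_1_16.Tab.C.FA33.c_pp_203 noCut_A noExt_A F trivial trivial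

theorem FA33_pp_213 {κ x : ℝ} (hκ : κ * h0 = ken x) (hx : ((50331648 : ℕ) : ℝ) / S ≤ x) (hx' : x ≤ (((50331648 : ℕ) : ℝ) + (16777216 : ℕ)) / S) :
    TriA PP.cur (farS κ (h0 * x) (tbl tKF x) (tbl tL x)) 2 1 3 3 3 1 1 :=
  (sideF hx hx').farA (Or.inl rfl) (Or.inl rfl) fun y y' F =>
    farA_cert (s1 := true) (s2 := true) rfl hκ covF32 covF31 hx hx'
        Pool.Agent.Strip051.G.I3_64_1_16.Tab.C.FA33.c_pp_213 noCut_A noExt_A F trivial trivial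

theorem FA33_pp_303 {κ x : ℝ} (hκ : κ * h0 = ken x) (hx : ((50331648 : ℕ) : ℝ) / S ≤ x) (hx' : x ≤ (((50331648 : ℕ) : ℝ) + (16777216 : ℕ)) / S) :
    TriA PP.cur (farS κ (h0 * x) (tbl tKF x) (tbl tL x)) 3 0 3 3 3 1 1 :=
  (sideF hx hx').farA (Or.inl rfl) (Or.inl rfl) fun y y' F =>
    farA_cert (s1 := true) (s2 := true) rfl hκ covF33 covF30 hx hx'
        Pool.Agent.Strip051.G.I3_64_1_16.Tab.C.FA33.c_pp_303 noCut_A noExt_A F trivial trivial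

theorem FA33_pp_313 {κ x : ℝ} (hκ : κ * h0 = ken x) (hx : ((50331648 : ℕ) : ℝ) / S ≤ x) (hx' : x ≤ (((50331648 : ℕ) : ℝ) + (16777216 : ℕ)) / S) :
    TriA PP.cur (farS κ (h0 * x) (tbl tKF x) (tbl tL x)) 3 1 3 3 3 1 1 :=
  (sideF hx hx').farA (Or.inl rfl) (Or.inl rfl) fun y y' F =>
    farA_cert (s1 := true) (s2 := true) rfl hκ covF33 covF31 hx hx'
        Pool.Agent.Strip051.G.I3_64_1_16.Tab.C.FA33.c_pp_313 noCut_A noExt_A F trivial trivial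

theorem FA33_pm_001 {κ x : ℝ} (hκ : κ * h0 = ken x) (hx : ((50331648 : ℕ) : ℝ) / S ≤ x) (hx' : x ≤ (((50331648 : ℕ) : ℝ) + (16777216 : ℕ)) / S) :
    TriA PP.cur (farS κ (h0 * x) (tbl tKF x) (tbl tL x)) 0 0 1 3 3 1 (-1) :=
  (sideF hx hx').farA (Or.inl rfl) (Or.inr rfl) fun y y' F =>
    farA_cert (s1 := true) (s2 := false) rfl hκ covF30 covF30 hx hx'
        Pool.Agent.Strip051.G.I3_64_1_16.Tab.C.FA33.c_pm_001 noCut_A noExt_A F trivial trivial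

theorem FA33_pm_011 {κ x : ℝ} (hκ : κ * h0 = ken x) (hx : ((50331648 : ℕ) : ℝ) / S ≤ x) (hx' : x ≤ (((50331648 : ℕ) : ℝ) + (16777216 : ℕ)) / S) :
    TriA PP.cur (farS κ (h0 * x) (tbl tKF x) (tbl tL x)) 0 1 1 3 3 1 (-1) :=
  (sideF hx hx').farA (Or.inl rfl) (Or.inr rfl) fun y y' F =>
    farA_cert (s1 := true) (s2 := false) rfl hκ covF30 covF31 hx hx'
        Pool.Agent.Strip051.G.I3_64_1_16.Tab.C.FA33.c_pm_011 noCut_A noExt_A F trivial trivial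

theorem FA33_pm_012 {κ x : ℝ} (hκ : κ * h0 = ken x) (hx : ((50331648 : ℕ) : ℝ) / S ≤ x) (hx' : x ≤ (((50331648 : ℕ) : ℝ) + (16777216 : ℕ)) / S) :
    TriA PP.cur (farS κ (h0 * x) (tbl tKF x) (tbl tL x)) 0 1 2 3 3 1 (-1) :=
  (sideF hx hx').farA (Or.inl rfl) (Or.inr rfl) fun y y' F =>
    farA_cert (s1 := true) (s2 := false) rfl hκ covF30 covF31 hx hx'
        Pool.Agent.Strip051.G.I3_64_1_16.Tab.C.FA33.c_pm_012 noCut_A noExt_A F trivial trivial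

theorem FA33_pm_022 {κ x : ℝ} (hκ : κ * h0 = ken x) (hx : ((50331648 : ℕ) : ℝ) / S ≤ x) (hx' : x ≤ (((50331648 : ℕ) : ℝ) + (16777216 : ℕ)) / S) :
    TriA PP.cur (farS κ (h0 * x) (tbl tKF x) (tbl tL x)) 0 2 2 3 3 1 (-1) :=
  (sideF hx hx').farA (Or.inl rfl) (Or.inr rfl) fun y y' F =>
    farA_cert (s1 := true) (s2 := false) rfl hκ covF30 covF32 hx hx'
        Pool.Agent.Strip051.G.I3_64_1_16.Tab.C.FA33.c_pm_022 noCut_A noExt_A F trivial trivial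

theorem FA33_pm_023 {κ x : ℝ} (hκ : κ * h0 = ken x) (hx : ((50331648 : ℕ) : ℝ) / S ≤ x) (hx' : x ≤ (((50331648 : ℕ) : ℝ) + (16777216 : ℕ)) / S) :
    TriA PP.cur (farS κ (h0 * x) (tbl tKF x) (tbl tL x)) 0 2 3 3 3 1 (-1) :=
  (sideF hx hx').farA (Or.inl rfl) (Or.inr rfl) fun y y' F =>
    farA_cert (s1 := true) (s2 := false) rfl hκ covF30 covF32 hx hx'
        Pool.Agent.Strip051.G.I3_64_1_16.Tab.C.FA33.c_pm_023 noCut_A noExt_A F trivial trivial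

theorem FA33_pm_033 {κ x : ℝ} (hκ : κ * h0 = ken x) (hx : ((50331648 : ℕ) : ℝ) / S ≤ x) (hx' : x ≤ (((50331648 : ℕ) : ℝ) + (16777216 : ℕ)) / S) :
    TriA PP.cur (farS κ (h0 * x) (tbl tKF x) (tbl tL x)) 0 3 3 3 3 1 (-1) :=
  (sideF hx hx').farA (Or.inl rfl) (Or.inr rfl) fun y y' F =>
    farA_cert (s1 := true) (s2 := false) rfl hκ covF30 covF33 hx hx'
        Pool.Agent.Strip051.G.I3_64_1_16.Tab.C.FA33.c_pm_033 noCut_A noExt_A F trivial trivial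

theorem FA33_pm_101 {κ x : ℝ} (hκ : κ * h0 = ken x) (hx : ((50331648 : ℕ) : ℝ) / S ≤ x) (hx' : x ≤ (((50331648 : ℕ) : ℝ) + (16777216 : ℕ)) / S) :
    TriA PP.cur (farS κ (h0 * x) (tbl tKF x) (tbl tL x)) 1 0 1 3 3 1 (-1) :=
  (sideF hx hx').farA (Or.inl rfl) (Or.inr rfl) fun y y' F =>
    farA_cert (s1 := true) (s2 := false) rfl hκ covF31 covF30 hx hx'
        Pool.Agent.Strip051.G.I3_64_1_16.Tab.C.FA33.c_pm_101 noCut_A noExt_A F trivial trivial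

theorem FA33_pm_102 {κ x : ℝ} (hκ : κ * h0 = ken x) (hx : ((50331648 : ℕ) : ℝ) / S ≤ x) (hx' : x ≤ (((50331648 : ℕ) : ℝ) + (16777216 : ℕ)) / S) :
    TriA PP.cur (farS κ (h0 * x) (tbl tKF x) (tbl tL x)) 1 0 2 3 3 1 (-1) :=
  (sideF hx hx').farA (Or.inl rfl) (Or.inr rfl) fun y y' F =>
    farA_cert (s1 := true) (s2 := false) rfl hκ covF31 covF30 hx hx'
        Pool.Agent.Strip051.G.I3_64_1_16.Tab.C.FA33.c_pm_102 noCut_A noExt_A F trivial trivial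

theorem FA33_pm_112 {κ x : ℝ} (hκ : κ * h0 = ken x) (hx : ((50331648 : ℕ) : ℝ) / S ≤ x) (hx' : x ≤ (((50331648 : ℕ) : ℝ) + (16777216 : ℕ)) / S) :
    TriA PP.cur (farS κ (h0 * x) (tbl tKF x) (tbl tL x)) 1 1 2 3 3 1 (-1) :=
  (sideF hx hx').farA (Or.inl rfl) (Or.inr rfl) fun y y' F =>
    farA_cert (s1 := true) (s2 := false) rfl hκ covF31 covF31 hx hx'
        Pool.Agent.Strip051.G.I3_64_1_16.Tab.C.FA33.c_pm_112 noCut_A noExt_A F trivial trivial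

theorem FA33_pm_113 {κ x : ℝ} (hκ : κ * h0 = ken x) (hx : ((50331648 : ℕ) : ℝ) / S ≤ x) (hx' : x ≤ (((50331648 : ℕ) : ℝ) + (16777216 : ℕ)) / S) :
    TriA PP.cur (farS κ (h0 * x) (tbl tKF x) (tbl tL x)) 1 1 3 3 3 1 (-1) :=
  (sideF hx hx').farA (Or.inl rfl) (Or.inr rfl) fun y y' F =>
    farA_cert (s1 := true) (s2 := false) rfl hκ covF31 covF31 hx hx'
        Pool.Agent.Strip051.G.I3_64_1_16.Tab.C.FA33.c_pm_113 noCut_A noExt_A F trivial trivial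

theorem FA33_pm_123 {κ x : ℝ} (hκ : κ * h0 = ken x) (hx : ((50331648 : ℕ) : ℝ) / S ≤ x) (hx' : x ≤ (((50331648 : ℕ) : ℝ) + (16777216 : ℕ)) / S) :
    TriA PP.cur (farS κ (h0 * x) (tbl tKF x) (tbl tL x)) 1 2 3 3 3 1 (-1) :=
  (sideF hx hx').farA (Or.inl rfl) (Or.inr rfl) fun y y' F =>
    farA_cert (s1 := true) (s2 := false) rfl hκ covF31 covF32 hx hx'
        Pool.Agent.Strip051.G.I3_64_1_16.Tab.C.FA33.c_pm_123 noCut_A noExt_A F trivial trivial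

theorem FA33_pm_133 {κ x : ℝ} (hκ : κ * h0 = ken x) (hx : ((50331648 : ℕ) : ℝ) / S ≤ x) (hx' : x ≤ (((50331648 : ℕ) : ℝ) + (16777216 : ℕ)) / S) :
    TriA PP.cur (farS κ (h0 * x) (tbl tKF x) (tbl tL x)) 1 3 3 3 3 1 (-1) :=
  (sideF hx hx').farA (Or.inl rfl) (Or.inr rfl) fun y y' F =>
    farA_cert (s1 := true) (s2 := false) rfl hκ covF31 covF33 hx hx'
        Pool.Agent.Strip051.G.I3_64_1_16.Tab.C.FA33.c_pm_133 noCut_A noExt_A F trivial trivial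

theorem FA33_pm_202 {κ x : ℝ} (hκ : κ * h0 = ken x) (hx : ((50331648 : ℕ) : ℝ) / S ≤ x) (hx' : x ≤ (((50331648 : ℕ) : ℝ) + (16777216 : ℕ)) / S) :
    TriA PP.cur (farS κ (h0 * x) (tbl tKF x) (tbl tL x)) 2 0 2 3 3 1 (-1) :=
  (sideF hx hx').farA (Or.inl rfl) (Or.inr rfl) fun y y' F =>
    farA_cert (s1 := true) (s2 := false) rfl hκ covF32 covF30 hx hx'
        Pool.Agent.Strip051.G.I3_64_1_16.Tab.C.FA33.c_pm_202 noCut_A noExt_A F trivial trivial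

theorem FA33_pm_203 {κ x : ℝ} (hκ : κ * h0 = ken x) (hx : ((50331648 : ℕ) : ℝ) / S ≤ x) (hx' : x ≤ (((50331648 : ℕ) : ℝ) + (16777216 : ℕ)) / S) :
    TriA PP.cur (farS κ (h0 * x) (tbl tKF x) (tbl tL x)) 2 0 3 3 3 1 (-1) :=
  (sideF hx hx').farA (Or.inl rfl) (Or.inr rfl) fun y y' F =>
    farA_cert (s1 := true) (s2 := false) rfl hκ covF32 covF30 hx hx'
        Pool.Agent.Strip051.G.I3_64_1_16.Tab.C.FA33.c_pm_203 noCut_A noExt_A F trivial trivial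

theorem FA33_pm_213 {κ x : ℝ} (hκ : κ * h0 = ken x) (hx : ((50331648 : ℕ) : ℝ) / S ≤ x) (hx' : x ≤ (((50331648 : ℕ) : ℝ) + (16777216 : ℕ)) / S) :
    TriA PP.cur (farS κ (h0 * x) (tbl tKF x) (tbl tL x)) 2 1 3 3 3 1 (-1) :=
  (sideF hx hx').farA (Or.inl rfl) (Or.inr rfl) fun y y' F =>
    farA_cert (s1 := true) (s2 := false) rfl hκ covF32 covF31 hx hx'
        Pool.Agent.Strip051.G.I3_64_1_16.Tab.C.FA33.c_pm_213 noCut_A noExt_A F trivial trivial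

theorem FA33_pm_303 {κ x : ℝ} (hκ : κ * h0 = ken x) (hx : ((50331648 : ℕ) : ℝ) / S ≤ x) (hx' : x ≤ (((50331648 : ℕ) : ℝ) + (16777216 : ℕ)) / S) :
    TriA PP.cur (farS κ (h0 * x) (tbl tKF x) (tbl tL x)) 3 0 3 3 3 1 (-1) :=
  (sideF hx hx').farA (Or.inl rfl) (Or.inr rfl) fun y y' F =>
    farA_cert (s1 := true) (s2 := false) rfl hκ covF33 covF30 hx hx'
        Pool.Agent.Strip051.G.I3_64_1_16.Tab.C.FA33.c_pm_303 noCut_A noExt_A F trivial trivial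

theorem FA33_pm_313 {κ x : ℝ} (hκ : κ * h0 = ken x) (hx : ((50331648 : ℕ) : ℝ) / S ≤ x) (hx' : x ≤ (((50331648 : ℕ) : ℝ) + (16777216 : ℕ)) / S) :
    TriA PP.cur (farS κ (h0 * x) (tbl tKF x) (tbl tL x)) 3 1 3 3 3 1 (-1) :=
  (sideF hx hx').farA (Or.inl rfl) (Or.inr rfl) fun y y' F =>
    farA_cert (s1 := true) (s2 := false) rfl hκ covF33 covF31 hx hx'
        Pool.Agent.Strip051.G.I3_64_1_16.Tab.C.FA33.c_pm_313 noCut_A noExt_A F trivial trivial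

theorem FA33_mm_001 {κ x : ℝ} (hκ : κ * h0 = ken x) (hx : ((50331648 : ℕ) : ℝ) / S ≤ x) (hx' : x ≤ (((50331648 : ℕ) : ℝ) + (16777216 : ℕ)) / S) :
    TriA PP.cur (farS κ (h0 * x) (tbl tKF x) (tbl tL x)) 0 0 1 3 3 (-1) (-1) :=
  (sideF hx hx').farA (Or.inr rfl) (Or.inr rfl) fun y y' F =>
    farA_cert (s1 := false) (s2 := false) rfl hκ covF30 covF30 hx hx'
        Pool.Agent.Strip051.G.I3_64_1_16.Tab.C.FA33.c_mm_001 noCut_A noExt_A F trivial trivial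

theorem FA33_mm_011 {κ x : ℝ} (hκ : κ * h0 = ken x) (hx : ((50331648 : ℕ) : ℝ) / S ≤ x) (hx' : x ≤ (((50331648 : ℕ) : ℝ) + (16777216 : ℕ)) / S) :
    TriA PP.cur (farS κ (h0 * x) (tbl tKF x) (tbl tL x)) 0 1 1 3 3 (-1) (-1) :=
  (sideF hx hx').farA (Or.inr rfl) (Or.inr rfl) fun y y' F =>
    farA_cert (s1 := false) (s2 := false) rfl hκ covF30 covF31 hx hx'
        Pool.Agent.Strip051.G.I3_64_1_16.Tab.C.FA33.c_mm_011 noCut_A noExt_A F trivial trivial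

theorem FA33_mm_012 {κ x : ℝ} (hκ : κ * h0 = ken x) (hx : ((50331648 : ℕ) : ℝ) / S ≤ x) (hx' : x ≤ (((50331648 : ℕ) : ℝ) + (16777216 : ℕ)) / S) :
    TriA PP.cur (farS κ (h0 * x) (tbl tKF x) (tbl tL x)) 0 1 2 3 3 (-1) (-1) :=
  (sideF hx hx').farA (Or.inr rfl) (Or.inr rfl) fun y y' F =>
    farA_cert (s1 := false) (s2 := false) rfl hκ covF30 covF31 hx hx'
        Pool.Agent.Strip051.G.I3_64_1_16.Tab.C.FA33.c_mm_012 noCut_A noExt_A F trivial trivial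

theorem FA33_mm_022 {κ x : ℝ} (hκ : κ * h0 = ken x) (hx : ((50331648 : ℕ) : ℝ) / S ≤ x) (hx' : x ≤ (((50331648 : ℕ) : ℝ) + (16777216 : ℕ)) / S) :
    TriA PP.cur (farS κ (h0 * x) (tbl tKF x) (tbl tL x)) 0 2 2 3 3 (-1) (-1) :=
  (sideF hx hx').farA (Or.inr rfl) (Or.inr rfl) fun y y' F =>
    farA_cert (s1 := false) (s2 := false) rfl hκ covF30 covF32 hx hx'
        Pool.Agent.Strip051.G.I3_64_1_16.Tab.C.FA33.c_mm_022 noCut_A noExt_A F trivial trivial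

theorem FA33_mm_023 {κ x : ℝ} (hκ : κ * h0 = ken x) (hx : ((50331648 : ℕ) : ℝ) / S ≤ x) (hx' : x ≤ (((50331648 : ℕ) : ℝ) + (16777216 : ℕ)) / S) :
    TriA PP.cur (farS κ (h0 * x) (tbl tKF x) (tbl tL x)) 0 2 3 3 3 (-1) (-1) :=
  (sideF hx hx').farA (Or.inr rfl) (Or.inr rfl) fun y y' F =>
    farA_cert (s1 := false) (s2 := false) rfl hκ covF30 covF32 hx hx'
        Pool.Agent.Strip051.G.I3_64_1_16.Tab.C.FA33.c_mm_023 noCut_A noExt_A F trivial trivial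

theorem FA33_mm_033 {κ x : ℝ} (hκ : κ * h0 = ken x) (hx : ((50331648 : ℕ) : ℝ) / S ≤ x) (hx' : x ≤ (((50331648 : ℕ) : ℝ) + (16777216 : ℕ)) / S) :
    TriA PP.cur (farS κ (h0 * x) (tbl tKF x) (tbl tL x)) 0 3 3 3 3 (-1) (-1) :=
  (sideF hx hx').farA (Or.inr rfl) (Or.inr rfl) fun y y' F =>
    farA_cert (s1 := false) (s2 := false) rfl hκ covF30 covF33 hx hx'
        Pool.Agent.Strip051.G.I3_64_1_16.Tab.C.FA33.c_mm_033 noCut_A noExt_A F trivial trivial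

theorem FA33_mm_101 {κ x : ℝ} (hκ : κ * h0 = ken x) (hx : ((50331648 : ℕ) : ℝ) / S ≤ x) (hx' : x ≤ (((50331648 : ℕ) : ℝ) + (16777216 : ℕ)) / S) :
    TriA PP.cur (farS κ (h0 * x) (tbl tKF x) (tbl tL x)) 1 0 1 3 3 (-1) (-1) :=
  (sideF hx hx').farA (Or.inr rfl) (Or.inr rfl) fun y y' F =>
    farA_cert (s1 := false) (s2 := false) rfl hκ covF31 covF30 hx hx'
        Pool.Agent.Strip051.G.I3_64_1_16.Tab.C.FA33.c_mm_101 noCut_A noExt_A F trivial trivial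

theorem FA33_mm_102 {κ x : ℝ} (hκ : κ * h0 = ken x) (hx : ((50331648 : ℕ) : ℝ) / S ≤ x) (hx' : x ≤ (((50331648 : ℕ) : ℝ) + (16777216 : ℕ)) / S) :
    TriA PP.cur (farS κ (h0 * x) (tbl tKF x) (tbl tL x)) 1 0 2 3 3 (-1) (-1) :=
  (sideF hx hx').farA (Or.inr rfl) (Or.inr rfl) fun y y' F =>
    farA_cert (s1 := false) (s2 := false) rfl hκ covF31 covF30 hx hx'
        Pool.Agent.Strip051.G.I3_64_1_16.Tab.C.FA33.c_mm_102 noCut_A noExt_A F trivial trivial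

theorem FA33_mm_112 {κ x : ℝ} (hκ : κ * h0 = ken x) (hx : ((50331648 : ℕ) : ℝ) / S ≤ x) (hx' : x ≤ (((50331648 : ℕ) : ℝ) + (16777216 : ℕ)) / S) :
    TriA PP.cur (farS κ (h0 * x) (tbl tKF x) (tbl tL x)) 1 1 2 3 3 (-1) (-1) :=
  (sideF hx hx').farA (Or.inr rfl) (Or.inr rfl) fun y y' F =>
    farA_cert (s1 := false) (s2 := false) rfl hκ covF31 covF31 hx hx'
        Pool.Agent.Strip051.G.I3_64_1_16.Tab.C.FA33.c_mm_112 noCut_A noExt_A F trivial trivial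

theorem FA33_mm_113 {κ x : ℝ} (hκ : κ * h0 = ken x) (hx : ((50331648 : ℕ) : ℝ) / S ≤ x) (hx' : x ≤ (((50331648 : ℕ) : ℝ) + (16777216 : ℕ)) / S) :
    TriA PP.cur (farS κ (h0 * x) (tbl tKF x) (tbl tL x)) 1 1 3 3 3 (-1) (-1) :=
  (sideF hx hx').farA (Or.inr rfl) (Or.inr rfl) fun y y' F =>
    farA_cert (s1 := false) (s2 := false) rfl hκ covF31 covF31 hx hx'
        Pool.Agent.Strip051.G.I3_64_1_16.Tab.C.FA33.c_mm_113 noCut_A noExt_A F trivial trivial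

theorem FA33_mm_123 {κ x : ℝ} (hκ : κ * h0 = ken x) (hx : ((50331648 : ℕ) : ℝ) / S ≤ x) (hx' : x ≤ (((50331648 : ℕ) : ℝ) + (16777216 : ℕ)) / S) :
    TriA PP.cur (farS κ (h0 * x) (tbl tKF x) (tbl tL x)) 1 2 3 3 3 (-1) (-1) :=
  (sideF hx hx').farA (Or.inr rfl) (Or.inr rfl) fun y y' F =>
    farA_cert (s1 := false) (s2 := false) rfl hκ covF31 covF32 hx hx'
        Pool.Agent.Strip051.G.I3_64_1_16.Tab.C.FA33.c_mm_123 noCut_A noExt_A F trivial trivial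

theorem FA33_mm_133 {κ x : ℝ} (hκ : κ * h0 = ken x) (hx : ((50331648 : ℕ) : ℝ) / S ≤ x) (hx' : x ≤ (((50331648 : ℕ) : ℝ) + (16777216 : ℕ)) / S) :
    TriA PP.cur (farS κ (h0 * x) (tbl tKF x) (tbl tL x)) 1 3 3 3 3 (-1) (-1) :=
  (sideF hx hx').farA (Or.inr rfl) (Or.inr rfl) fun y y' F =>
    farA_cert (s1 := false) (s2 := false) rfl hκ covF31 covF33 hx hx'
        Pool.Agent.Strip051.G.I3_64_1_16.Tab.C.FA33.c_mm_133 noCut_A noExt_A F trivial trivial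

theorem FA33_mm_202 {κ x : ℝ} (hκ : κ * h0 = ken x) (hx : ((50331648 : ℕ) : ℝ) / S ≤ x) (hx' : x ≤ (((50331648 : ℕ) : ℝ) + (16777216 : ℕ)) / S) :
    TriA PP.cur (farS κ (h0 * x) (tbl tKF x) (tbl tL x)) 2 0 2 3 3 (-1) (-1) :=
  (sideF hx hx').farA (Or.inr rfl) (Or.inr rfl) fun y y' F =>
    farA_cert (s1 := false) (s2 := false) rfl hκ covF32 covF30 hx hx'
        Pool.Agent.Strip051.G.I3_64_1_16.Tab.C.FA33.c_mm_202 noCut_A noExt_A F trivial trivial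

theorem FA33_mm_203 {κ x : ℝ} (hκ : κ * h0 = ken x) (hx : ((50331648 : ℕ) : ℝ) / S ≤ x) (hx' : x ≤ (((50331648 : ℕ) : ℝ) + (16777216 : ℕ)) / S) :
    TriA PP.cur (farS κ (h0 * x) (tbl tKF x) (tbl tL x)) 2 0 3 3 3 (-1) (-1) :=
  (sideF hx hx').farA (Or.inr rfl) (Or.inr rfl) fun y y' F =>
    farA_cert (s1 := false) (s2 := false) rfl hκ covF32 covF30 hx hx'
        Pool.Agent.Strip051.G.I3_64_1_16.Tab.C.FA33.c_mm_203 noCut_A noExt_A F trivial trivial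

theorem FA33_mm_213 {κ x : ℝ} (hκ : κ * h0 = ken x) (hx : ((50331648 : ℕ) : ℝ) / S ≤ x) (hx' : x ≤ (((50331648 : ℕ) : ℝ) + (16777216 : ℕ)) / S) :
    TriA PP.cur (farS κ (h0 * x) (tbl tKF x) (tbl tL x)) 2 1 3 3 3 (-1) (-1) :=
  (sideF hx hx').farA (Or.inr rfl) (Or.inr rfl) fun y y' F =>
    farA_cert (s1 := false) (s2 := false) rfl hκ covF32 covF31 hx hx'
        Pool.Agent.Strip051.G.I3_64_1_16.Tab.C.FA33.c_mm_213 noCut_A noExt_A F trivial trivial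

theorem FA33_mm_303 {κ x : ℝ} (hκ : κ * h0 = ken x) (hx : ((50331648 : ℕ) : ℝ) / S ≤ x) (hx' : x ≤ (((50331648 : ℕ) : ℝ) + (16777216 : ℕ)) / S) :
    TriA PP.cur (farS κ (h0 * x) (tbl tKF x) (tbl tL x)) 3 0 3 3 3 (-1) (-1) :=
  (sideF hx hx').farA (Or.inr rfl) (Or.inr rfl) fun y y' F =>
    farA_cert (s1 := false) (s2 := false) rfl hκ covF33 covF30 hx hx'
        Pool.Agent.Strip051.G.I3_64_1_16.Tab.C.FA33.c_mm_303 noCut_A noExt_A F trivial trivial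

theorem FA33_mm_313 {κ x : ℝ} (hκ : κ * h0 = ken x) (hx : ((50331648 : ℕ) : ℝ) / S ≤ x) (hx' : x ≤ (((50331648 : ℕ) : ℝ) + (16777216 : ℕ)) / S) :
    TriA PP.cur (farS κ (h0 * x) (tbl tKF x) (tbl tL x)) 3 1 3 3 3 (-1) (-1) :=
  (sideF hx hx').farA (Or.inr rfl) (Or.inr rfl) fun y y' F =>
    farA_cert (s1 := false) (s2 := false) rfl hκ covF33 covF31 hx hx'
        Pool.Agent.Strip051.G.I3_64_1_16.Tab.C.FA33.c_mm_313 noCut_A noExt_A F trivial trivial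

theorem FA33 {κ x : ℝ} (hκ : κ * h0 = ken x) (hx : ((50331648 : ℕ) : ℝ) / S ≤ x) (hx' : x ≤ (((50331648 : ℕ) : ℝ) + (16777216 : ℕ)) / S) : AllTA PP.cur (farS κ (h0 * x) (tbl tKF x) (tbl tL x)) 3 3 where
  pp := all17 (Q := fun a b c => TriA PP.cur (farS κ (h0 * x) (tbl tKF x) (tbl tL x)) a b c 3 3 1 1)
    (FA33_pp_001 hκ hx hx') (FA33_pp_011 hκ hx hx') (FA33_pp_012 hκ hx hx') (FA33_pp_022 hκ hx hx') (FA33_pp_023 hκ hx hx') (FA33_pp_033 hκ hx hx') (FA33_pp_101 hκ hx hx') (FA33_pp_102 hκ hx hx') (FA33_pp_112 hκ hx hx') (FA33_pp_113 hκ hx hx') (FA33_pp_123 hκ hx hx') (FA33_pp_133 hκ hx hx') (FA33_pp_202 hκ hx hx') (FA33_pp_203 hκ hx hx') (FA33_pp_213 hκ hx hx') (FA33_pp_303 hκ hx hx') (FA33_pp_313 hκ hx hx')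
  pm := all17 (Q := fun a b c => TriA PP.cur (farS κ (h0 * x) (tbl tKF x) (tbl tL x)) a b c 3 3 1 (-1))
    (FA33_pm_001 hκ hx hx') (FA33_pm_011 hκ hx hx') (FA33_pm_012 hκ hx hx') (FA33_pm_022 hκ hx hx') (FA33_pm_023 hκ hx hx') (FA33_pm_033 hκ hx hx') (FA33_pm_101 hκ hx hx') (FA33_pm_102 hκ hx hx') (FA33_pm_112 hκ hx hx') (FA33_pm_113 hκ hx hx') (FA33_pm_123 hκ hx hx') (FA33_pm_133 hκ hx hx') (FA33_pm_202 hκ hx hx') (FA33_pm_203 hκ hx hx') (FA33_pm_213 hκ hx hx') (FA33_pm_303 hκ hx hx') (FA33_pm_313 hκ hx hx')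
  mm := all17 (Q := fun a b c => TriA PP.cur (farS κ (h0 * x) (tbl tKF x) (tbl tL x)) a b c 3 3 (-1) (-1))
    (FA33_mm_001 hκ hx hx') (FA33_mm_011 hκ hx hx') (FA33_mm_012 hκ hx hx') (FA33_mm_022 hκ hx hx') (FA33_mm_023 hκ hx hx') (FA33_mm_033 hκ hx hx') (FA33_mm_101 hκ hx hx') (FA33_mm_102 hκ hx hx') (FA33_mm_112 hκ hx hx') (FA33_mm_113 hκ hx hx') (FA33_mm_123 hκ hx hx') (FA33_mm_133 hκ hx hx') (FA33_mm_202 hκ hx hx') (FA33_mm_203 hκ hx hx') (FA33_mm_213 hκ hx hx') (FA33_mm_303 hκ hx hx') (FA33_mm_313 hκ hx hx')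

theorem FA34_pp_001 {κ x : ℝ} (hκ : κ * h0 = ken x) (hx : ((50331648 : ℕ) : ℝ) / S ≤ x) (hx' : x ≤ (((50331648 : ℕ) : ℝ) + (16777216 : ℕ)) / S) :
    TriA PP.cur (farS κ (h0 * x) (tbl tKF x) (tbl tL x)) 0 0 1 3 4 1 1 :=
  (sideF hx hx').farA (Or.inl rfl) (Or.inl rfl) fun y y' F =>
    farA_cert (s1 := true) (s2 := true) rfl hκ covF30 covF40 hx hx'
        Pool.Agent.Strip051.G.I3_64_1_16.Tab.C.FA34.c_pp_001 noCut_A noExt_A F trivial trivial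

theorem FA34_pp_011 {κ x : ℝ} (hκ : κ * h0 = ken x) (hx : ((50331648 : ℕ) : ℝ) / S ≤ x) (hx' : x ≤ (((50331648 : ℕ) : ℝ) + (16777216 : ℕ)) / S) :
    TriA PP.cur (farS κ (h0 * x) (tbl tKF x) (tbl tL x)) 0 1 1 3 4 1 1 :=
  (sideF hx hx').farA (Or.inl rfl) (Or.inl rfl) fun y y' F =>
    farA_cert (s1 := true) (s2 := true) rfl hκ covF30 covF41 hx hx'
        Pool.Agent.Strip051.G.I3_64_1_16.Tab.C.FA34.c_pp_011 noCut_A noExt_A F trivial trivial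

theorem FA34_pp_012 {κ x : ℝ} (hκ : κ * h0 = ken x) (hx : ((50331648 : ℕ) : ℝ) / S ≤ x) (hx' : x ≤ (((50331648 : ℕ) : ℝ) + (16777216 : ℕ)) / S) :
    TriA PP.cur (farS κ (h0 * x) (tbl tKF x) (tbl tL x)) 0 1 2 3 4 1 1 :=
  (sideF hx hx').farA (Or.inl rfl) (Or.inl rfl) fun y y' F =>
    farA_cert (s1 := true) (s2 := true) rfl hκ covF30 covF41 hx hx'
        Pool.Agent.Strip051.G.I3_64_1_16.Tab.C.FA34.c_pp_012 noCut_A noExt_A F trivial trivial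

theorem FA34_pp_022 {κ x : ℝ} (hκ : κ * h0 = ken x) (hx : ((50331648 : ℕ) : ℝ) / S ≤ x) (hx' : x ≤ (((50331648 : ℕ) : ℝ) + (16777216 : ℕ)) / S) :
    TriA PP.cur (farS κ (h0 * x) (tbl tKF x) (tbl tL x)) 0 2 2 3 4 1 1 :=
  (sideF hx hx').farA (Or.inl rfl) (Or.inl rfl) fun y y' F =>
    farA_cert (s1 := true) (s2 := true) rfl hκ covF30 covF42 hx hx'
        Pool.Agent.Strip051.G.I3_64_1_16.Tab.C.FA34.c_pp_022 noCut_A noExt_A F trivial trivial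

theorem FA34_pp_023 {κ x : ℝ} (hκ : κ * h0 = ken x) (hx : ((50331648 : ℕ) : ℝ) / S ≤ x) (hx' : x ≤ (((50331648 : ℕ) : ℝ) + (16777216 : ℕ)) / S) :
    TriA PP.cur (farS κ (h0 * x) (tbl tKF x) (tbl tL x)) 0 2 3 3 4 1 1 :=
  (sideF hx hx').farA (Or.inl rfl) (Or.inl rfl) fun y y' F =>
    farA_cert (s1 := true) (s2 := true) rfl hκ covF30 covF42 hx hx'
        Pool.Agent.Strip051.G.I3_64_1_16.Tab.C.FA34.c_pp_023 noCut_A noExt_A F trivial trivial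

theorem FA34_pp_033 {κ x : ℝ} (hκ : κ * h0 = ken x) (hx : ((50331648 : ℕ) : ℝ) / S ≤ x) (hx' : x ≤ (((50331648 : ℕ) : ℝ) + (16777216 : ℕ)) / S) :
    TriA PP.cur (farS κ (h0 * x) (tbl tKF x) (tbl tL x)) 0 3 3 3 4 1 1 :=
  (sideF hx hx').farA (Or.inl rfl) (Or.inl rfl) fun y y' F =>
    farA_cert (s1 := true) (s2 := true) rfl hκ covF30 covF43 hx hx'
        Pool.Agent.Strip051.G.I3_64_1_16.Tab.C.FA34.c_pp_033 noCut_A noExt_A F trivial trivial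

theorem FA34_pp_101 {κ x : ℝ} (hκ : κ * h0 = ken x) (hx : ((50331648 : ℕ) : ℝ) / S ≤ x) (hx' : x ≤ (((50331648 : ℕ) : ℝ) + (16777216 : ℕ)) / S) :
    TriA PP.cur (farS κ (h0 * x) (tbl tKF x) (tbl tL x)) 1 0 1 3 4 1 1 :=
  (sideF hx hx').farA (Or.inl rfl) (Or.inl rfl) fun y y' F =>
    farA_cert (s1 := true) (s2 := true) rfl hκ covF31 covF40 hx hx'
        Pool.Agent.Strip051.G.I3_64_1_16.Tab.C.FA34.c_pp_101 noCut_A noExt_A F trivial trivial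

theorem FA34_pp_102 {κ x : ℝ} (hκ : κ * h0 = ken x) (hx : ((50331648 : ℕ) : ℝ) / S ≤ x) (hx' : x ≤ (((50331648 : ℕ) : ℝ) + (16777216 : ℕ)) / S) :
    TriA PP.cur (farS κ (h0 * x) (tbl tKF x) (tbl tL x)) 1 0 2 3 4 1 1 :=
  (sideF hx hx').farA (Or.inl rfl) (Or.inl rfl) fun y y' F =>
    farA_cert (s1 := true) (s2 := true) rfl hκ covF31 covF40 hx hx'
        Pool.Agent.Strip051.G.I3_64_1_16.Tab.C.FA34.c_pp_102 noCut_A noExt_A F trivial trivial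

theorem FA34_pp_112 {κ x : ℝ} (hκ : κ * h0 = ken x) (hx : ((50331648 : ℕ) : ℝ) / S ≤ x) (hx' : x ≤ (((50331648 : ℕ) : ℝ) + (16777216 : ℕ)) / S) :
    TriA PP.cur (farS κ (h0 * x) (tbl tKF x) (tbl tL x)) 1 1 2 3 4 1 1 :=
  (sideF hx hx').farA (Or.inl rfl) (Or.inl rfl) fun y y' F =>
    farA_cert (s1 := true) (s2 := true) rfl hκ covF31 covF41 hx hx'
        Pool.Agent.Strip051.G.I3_64_1_16.Tab.C.FA34.c_pp_112 noCut_A noExt_A F trivial trivial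

theorem FA34_pp_113 {κ x : ℝ} (hκ : κ * h0 = ken x) (hx : ((50331648 : ℕ) : ℝ) / S ≤ x) (hx' : x ≤ (((50331648 : ℕ) : ℝ) + (16777216 : ℕ)) / S) :
    TriA PP.cur (farS κ (h0 * x) (tbl tKF x) (tbl tL x)) 1 1 3 3 4 1 1 :=
  (sideF hx hx').farA (Or.inl rfl) (Or.inl rfl) fun y y' F =>
    farA_cert (s1 := true) (s2 := true) rfl hκ covF31 covF41 hx hx'
        Pool.Agent.Strip051.G.I3_64_1_16.Tab.C.FA34.c_pp_113 noCut_A noExt_A F trivial trivial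

theorem FA34_pp_123 {κ x : ℝ} (hκ : κ * h0 = ken x) (hx : ((50331648 : ℕ) : ℝ) / S ≤ x) (hx' : x ≤ (((50331648 : ℕ) : ℝ) + (16777216 : ℕ)) / S) :
    TriA PP.cur (farS κ (h0 * x) (tbl tKF x) (tbl tL x)) 1 2 3 3 4 1 1 :=
  (sideF hx hx').farA (Or.inl rfl) (Or.inl rfl) fun y y' F =>
    farA_cert (s1 := true) (s2 := true) rfl hκ covF31 covF42 hx hx'
        Pool.Agent.Strip051.G.I3_64_1_16.Tab.C.FA34.c_pp_123 noCut_A noExt_A F trivial trivial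

theorem FA34_pp_133 {κ x : ℝ} (hκ : κ * h0 = ken x) (hx : ((50331648 : ℕ) : ℝ) / S ≤ x) (hx' : x ≤ (((50331648 : ℕ) : ℝ) + (16777216 : ℕ)) / S) :
    TriA PP.cur (farS κ (h0 * x) (tbl tKF x) (tbl tL x)) 1 3 3 3 4 1 1 :=
  (sideF hx hx').farA (Or.inl rfl) (Or.inl rfl) fun y y' F =>
    farA_cert (s1 := true) (s2 := true) rfl hκ covF31 covF43 hx hx'
        Pool.Agent.Strip051.G.I3_64_1_16.Tab.C.FA34.c_pp_133 noCut_A noExt_A F trivial trivial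

theorem FA34_pp_202 {κ x : ℝ} (hκ : κ * h0 = ken x) (hx : ((50331648 : ℕ) : ℝ) / S ≤ x) (hx' : x ≤ (((50331648 : ℕ) : ℝ) + (16777216 : ℕ)) / S) :
    TriA PP.cur (farS κ (h0 * x) (tbl tKF x) (tbl tL x)) 2 0 2 3 4 1 1 :=
  (sideF hx hx').farA (Or.inl rfl) (Or.inl rfl) fun y y' F =>
    farA_cert (s1 := true) (s2 := true) rfl hκ covF32 covF40 hx hx'
        Pool.Agent.Strip051.G.I3_64_1_16.Tab.C.FA34.c_pp_202 noCut_A noExt_A F trivial trivial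

theorem FA34_pp_203 {κ x : ℝ} (hκ : κ * h0 = ken x) (hx : ((50331648 : ℕ) : ℝ) / S ≤ x) (hx' : x ≤ (((50331648 : ℕ) : ℝ) + (16777216 : ℕ)) / S) :
    TriA PP.cur (farS κ (h0 * x) (tbl tKF x) (tbl tL x)) 2 0 3 3 4 1 1 :=
  (sideF hx hx').farA (Or.inl rfl) (Or.inl rfl) fun y y' F =>
    farA_cert (s1 := true) (s2 := true) rfl hκ covF32 covF40 hx hx'
        Pool.Agent.Strip051.G.I3_64_1_16.Tab.C.FA34.c_pp_203 noCut_A noExt_A F trivial trivial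

theorem FA34_pp_213 {κ x : ℝ} (hκ : κ * h0 = ken x) (hx : ((50331648 : ℕ) : ℝ) / S ≤ x) (hx' : x ≤ (((50331648 : ℕ) : ℝ) + (16777216 : ℕ)) / S) :
    TriA PP.cur (farS κ (h0 * x) (tbl tKF x) (tbl tL x)) 2 1 3 3 4 1 1 :=
  (sideF hx hx').farA (Or.inl rfl) (Or.inl rfl) fun y y' F =>
    farA_cert (s1 := true) (s2 := true) rfl hκ covF32 covF41 hx hx'
        Pool.Agent.Strip051.G.I3_64_1_16.Tab.C.FA34.c_pp_213 noCut_A noExt_A F trivial trivial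

theorem FA34_pp_303 {κ x : ℝ} (hκ : κ * h0 = ken x) (hx : ((50331648 : ℕ) : ℝ) / S ≤ x) (hx' : x ≤ (((50331648 : ℕ) : ℝ) + (16777216 : ℕ)) / S) :
    TriA PP.cur (farS κ (h0 * x) (tbl tKF x) (tbl tL x)) 3 0 3 3 4 1 1 :=
  (sideF hx hx').farA (Or.inl rfl) (Or.inl rfl) fun y y' F =>
    farA_cert (s1 := true) (s2 := true) rfl hκ covF33 covF40 hx hx'
        Pool.Agent.Strip051.G.I3_64_1_16.Tab.C.FA34.c_pp_303 noCut_A noExt_A F trivial trivial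

theorem FA34_pp_313 {κ x : ℝ} (hκ : κ * h0 = ken x) (hx : ((50331648 : ℕ) : ℝ) / S ≤ x) (hx' : x ≤ (((50331648 : ℕ) : ℝ) + (16777216 : ℕ)) / S) :
    TriA PP.cur (farS κ (h0 * x) (tbl tKF x) (tbl tL x)) 3 1 3 3 4 1 1 :=
  (sideF hx hx').farA (Or.inl rfl) (Or.inl rfl) fun y y' F =>
    farA_cert (s1 := true) (s2 := true) rfl hκ covF33 covF41 hx hx'
        Pool.Agent.Strip051.G.I3_64_1_16.Tab.C.FA34.c_pp_313 noCut_A noExt_A F trivial trivial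

theorem FA34_pm_001 {κ x : ℝ} (hκ : κ * h0 = ken x) (hx : ((50331648 : ℕ) : ℝ) / S ≤ x) (hx' : x ≤ (((50331648 : ℕ) : ℝ) + (16777216 : ℕ)) / S) :
    TriA PP.cur (farS κ (h0 * x) (tbl tKF x) (tbl tL x)) 0 0 1 3 4 1 (-1) :=
  (sideF hx hx').farA (Or.inl rfl) (Or.inr rfl) fun y y' F =>
    farA_cert (s1 := true) (s2 := false) rfl hκ covF30 covF40 hx hx'
        Pool.Agent.Strip051.G.I3_64_1_16.Tab.C.FA34.c_pm_001 noCut_A noExt_A F trivial trivial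

theorem FA34_pm_011 {κ x : ℝ} (hκ : κ * h0 = ken x) (hx : ((50331648 : ℕ) : ℝ) / S ≤ x) (hx' : x ≤ (((50331648 : ℕ) : ℝ) + (16777216 : ℕ)) / S) :
    TriA PP.cur (farS κ (h0 * x) (tbl tKF x) (tbl tL x)) 0 1 1 3 4 1 (-1) :=
  (sideF hx hx').farA (Or.inl rfl) (Or.inr rfl) fun y y' F =>
    farA_cert (s1 := true) (s2 := false) rfl hκ covF30 covF41 hx hx'
        Pool.Agent.Strip051.G.I3_64_1_16.Tab.C.FA34.c_pm_011 noCut_A noExt_A F trivial trivial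

theorem FA34_pm_012 {κ x : ℝ} (hκ : κ * h0 = ken x) (hx : ((50331648 : ℕ) : ℝ) / S ≤ x) (hx' : x ≤ (((50331648 : ℕ) : ℝ) + (16777216 : ℕ)) / S) :
    TriA PP.cur (farS κ (h0 * x) (tbl tKF x) (tbl tL x)) 0 1 2 3 4 1 (-1) :=
  (sideF hx hx').farA (Or.inl rfl) (Or.inr rfl) fun y y' F =>
    farA_cert (s1 := true) (s2 := false) rfl hκ covF30 covF41 hx hx'
        Pool.Agent.Strip051.G.I3_64_1_16.Tab.C.FA34.c_pm_012 noCut_A noExt_A F trivial trivial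

theorem FA34_pm_022 {κ x : ℝ} (hκ : κ * h0 = ken x) (hx : ((50331648 : ℕ) : ℝ) / S ≤ x) (hx' : x ≤ (((50331648 : ℕ) : ℝ) + (16777216 : ℕ)) / S) :
    TriA PP.cur (farS κ (h0 * x) (tbl tKF x) (tbl tL x)) 0 2 2 3 4 1 (-1) :=
  (sideF hx hx').farA (Or.inl rfl) (Or.inr rfl) fun y y' F =>
    farA_cert (s1 := true) (s2 := false) rfl hκ covF30 covF42 hx hx'
        Pool.Agent.Strip051.G.I3_64_1_16.Tab.C.FA34.c_pm_022 noCut_A noExt_A F trivial trivial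

theorem FA34_pm_023 {κ x : ℝ} (hκ : κ * h0 = ken x) (hx : ((50331648 : ℕ) : ℝ) / S ≤ x) (hx' : x ≤ (((50331648 : ℕ) : ℝ) + (16777216 : ℕ)) / S) :
    TriA PP.cur (farS κ (h0 * x) (tbl tKF x) (tbl tL x)) 0 2 3 3 4 1 (-1) :=
  (sideF hx hx').farA (Or.inl rfl) (Or.inr rfl) fun y y' F =>
    farA_cert (s1 := true) (s2 := false) rfl hκ covF30 covF42 hx hx'
        Pool.Agent.Strip051.G.I3_64_1_16.Tab.C.FA34.c_pm_023 noCut_A noExt_A F trivial trivial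

theorem FA34_pm_033 {κ x : ℝ} (hκ : κ * h0 = ken x) (hx : ((50331648 : ℕ) : ℝ) / S ≤ x) (hx' : x ≤ (((50331648 : ℕ) : ℝ) + (16777216 : ℕ)) / S) :
    TriA PP.cur (farS κ (h0 * x) (tbl tKF x) (tbl tL x)) 0 3 3 3 4 1 (-1) :=
  (sideF hx hx').farA (Or.inl rfl) (Or.inr rfl) fun y y' F =>
    farA_cert (s1 := true) (s2 := false) rfl hκ covF30 covF43 hx hx'
        Pool.Agent.Strip051.G.I3_64_1_16.Tab.C.FA34.c_pm_033 noCut_A noExt_A F trivial trivial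

theorem FA34_pm_101 {κ x : ℝ} (hκ : κ * h0 = ken x) (hx : ((50331648 : ℕ) : ℝ) / S ≤ x) (hx' : x ≤ (((50331648 : ℕ) : ℝ) + (16777216 : ℕ)) / S) :
    TriA PP.cur (farS κ (h0 * x) (tbl tKF x) (tbl tL x)) 1 0 1 3 4 1 (-1) :=
  (sideF hx hx').farA (Or.inl rfl) (Or.inr rfl) fun y y' F =>
    farA_cert (s1 := true) (s2 := false) rfl hκ covF31 covF40 hx hx'
        Pool.Agent.Strip051.G.I3_64_1_16.Tab.C.FA34.c_pm_101 noCut_A noExt_A F trivial trivial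

theorem FA34_pm_102 {κ x : ℝ} (hκ : κ * h0 = ken x) (hx : ((50331648 : ℕ) : ℝ) / S ≤ x) (hx' : x ≤ (((50331648 : ℕ) : ℝ) + (16777216 : ℕ)) / S) :
    TriA PP.cur (farS κ (h0 * x) (tbl tKF x) (tbl tL x)) 1 0 2 3 4 1 (-1) :=
  (sideF hx hx').farA (Or.inl rfl) (Or.inr rfl) fun y y' F =>
    farA_cert (s1 := true) (s2 := false) rfl hκ covF31 covF40 hx hx'
        Pool.Agent.Strip051.G.I3_64_1_16.Tab.C.FA34.c_pm_102 noCut_A noExt_A F trivial trivial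

theorem FA34_pm_112 {κ x : ℝ} (hκ : κ * h0 = ken x) (hx : ((50331648 : ℕ) : ℝ) / S ≤ x) (hx' : x ≤ (((50331648 : ℕ) : ℝ) + (16777216 : ℕ)) / S) :
    TriA PP.cur (farS κ (h0 * x) (tbl tKF x) (tbl tL x)) 1 1 2 3 4 1 (-1) :=
  (sideF hx hx').farA (Or.inl rfl) (Or.inr rfl) fun y y' F =>
    farA_cert (s1 := true) (s2 := false) rfl hκ covF31 covF41 hx hx'
        Pool.Agent.Strip051.G.I3_64_1_16.Tab.C.FA34.c_pm_112 noCut_A noExt_A F trivial trivial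

theorem FA34_pm_113 {κ x : ℝ} (hκ : κ * h0 = ken x) (hx : ((50331648 : ℕ) : ℝ) / S ≤ x) (hx' : x ≤ (((50331648 : ℕ) : ℝ) + (16777216 : ℕ)) / S) :
    TriA PP.cur (farS κ (h0 * x) (tbl tKF x) (tbl tL x)) 1 1 3 3 4 1 (-1) :=
  (sideF hx hx').farA (Or.inl rfl) (Or.inr rfl) fun y y' F =>
    farA_cert (s1 := true) (s2 := false) rfl hκ covF31 covF41 hx hx'
        Pool.Agent.Strip051.G.I3_64_1_16.Tab.C.FA34.c_pm_113 noCut_A noExt_A F trivial trivial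

theorem FA34_pm_123 {κ x : ℝ} (hκ : κ * h0 = ken x) (hx : ((50331648 : ℕ) : ℝ) / S ≤ x) (hx' : x ≤ (((50331648 : ℕ) : ℝ) + (16777216 : ℕ)) / S) :
    TriA PP.cur (farS κ (h0 * x) (tbl tKF x) (tbl tL x)) 1 2 3 3 4 1 (-1) :=
  (sideF hx hx').farA (Or.inl rfl) (Or.inr rfl) fun y y' F =>
    farA_cert (s1 := true) (s2 := false) rfl hκ covF31 covF42 hx hx'
        Pool.Agent.Strip051.G.I3_64_1_16.Tab.C.FA34.c_pm_123 noCut_A noExt_A F trivial trivial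

theorem FA34_pm_133 {κ x : ℝ} (hκ : κ * h0 = ken x) (hx : ((50331648 : ℕ) : ℝ) / S ≤ x) (hx' : x ≤ (((50331648 : ℕ) : ℝ) + (16777216 : ℕ)) / S) :
    TriA PP.cur (farS κ (h0 * x) (tbl tKF x) (tbl tL x)) 1 3 3 3 4 1 (-1) :=
  (sideF hx hx').farA (Or.inl rfl) (Or.inr rfl) fun y y' F =>
    farA_cert (s1 := true) (s2 := false) rfl hκ covF31 covF43 hx hx'
        Pool.Agent.Strip051.G.I3_64_1_16.Tab.C.FA34.c_pm_133 noCut_A noExt_A F trivial trivial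

theorem FA34_pm_202 {κ x : ℝ} (hκ : κ * h0 = ken x) (hx : ((50331648 : ℕ) : ℝ) / S ≤ x) (hx' : x ≤ (((50331648 : ℕ) : ℝ) + (16777216 : ℕ)) / S) :
    TriA PP.cur (farS κ (h0 * x) (tbl tKF x) (tbl tL x)) 2 0 2 3 4 1 (-1) :=
  (sideF hx hx').farA (Or.inl rfl) (Or.inr rfl) fun y y' F =>
    farA_cert (s1 := true) (s2 := false) rfl hκ covF32 covF40 hx hx'
        Pool.Agent.Strip051.G.I3_64_1_16.Tab.C.FA34.c_pm_202 noCut_A noExt_A F trivial trivial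

theorem FA34_pm_203 {κ x : ℝ} (hκ : κ * h0 = ken x) (hx : ((50331648 : ℕ) : ℝ) / S ≤ x) (hx' : x ≤ (((50331648 : ℕ) : ℝ) + (16777216 : ℕ)) / S) :
    TriA PP.cur (farS κ (h0 * x) (tbl tKF x) (tbl tL x)) 2 0 3 3 4 1 (-1) :=
  (sideF hx hx').farA (Or.inl rfl) (Or.inr rfl) fun y y' F =>
    farA_cert (s1 := true) (s2 := false) rfl hκ covF32 covF40 hx hx'
        Pool.Agent.Strip051.G.I3_64_1_16.Tab.C.FA34.c_pm_203 noCut_A noExt_A F trivial trivial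

theorem FA34_pm_213 {κ x : ℝ} (hκ : κ * h0 = ken x) (hx : ((50331648 : ℕ) : ℝ) / S ≤ x) (hx' : x ≤ (((50331648 : ℕ) : ℝ) + (16777216 : ℕ)) / S) :
    TriA PP.cur (farS κ (h0 * x) (tbl tKF x) (tbl tL x)) 2 1 3 3 4 1 (-1) :=
  (sideF hx hx').farA (Or.inl rfl) (Or.inr rfl) fun y y' F =>
    farA_cert (s1 := true) (s2 := false) rfl hκ covF32 covF41 hx hx'
        Pool.Agent.Strip051.G.I3_64_1_16.Tab.C.FA34.c_pm_213 noCut_A noExt_A F trivial trivial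

theorem FA34_pm_303 {κ x : ℝ} (hκ : κ * h0 = ken x) (hx : ((50331648 : ℕ) : ℝ) / S ≤ x) (hx' : x ≤ (((50331648 : ℕ) : ℝ) + (16777216 : ℕ)) / S) :
    TriA PP.cur (farS κ (h0 * x) (tbl tKF x) (tbl tL x)) 3 0 3 3 4 1 (-1) :=
  (sideF hx hx').farA (Or.inl rfl) (Or.inr rfl) fun y y' F =>
    farA_cert (s1 := true) (s2 := false) rfl hκ covF33 covF40 hx hx'
        Pool.Agent.Strip051.G.I3_64_1_16.Tab.C.FA34.c_pm_303 noCut_A noExt_A F trivial trivial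

theorem FA34_pm_313 {κ x : ℝ} (hκ : κ * h0 = ken x) (hx : ((50331648 : ℕ) : ℝ) / S ≤ x) (hx' : x ≤ (((50331648 : ℕ) : ℝ) + (16777216 : ℕ)) / S) :
    TriA PP.cur (farS κ (h0 * x) (tbl tKF x) (tbl tL x)) 3 1 3 3 4 1 (-1) :=
  (sideF hx hx').farA (Or.inl rfl) (Or.inr rfl) fun y y' F =>
    farA_cert (s1 := true) (s2 := false) rfl hκ covF33 covF41 hx hx'
        Pool.Agent.Strip051.G.I3_64_1_16.Tab.C.FA34.c_pm_313 noCut_A noExt_A F trivial trivial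

theorem FA34_mm_001 {κ x : ℝ} (hκ : κ * h0 = ken x) (hx : ((50331648 : ℕ) : ℝ) / S ≤ x) (hx' : x ≤ (((50331648 : ℕ) : ℝ) + (16777216 : ℕ)) / S) :
    TriA PP.cur (farS κ (h0 * x) (tbl tKF x) (tbl tL x)) 0 0 1 3 4 (-1) (-1) :=
  (sideF hx hx').farA (Or.inr rfl) (Or.inr rfl) fun y y' F =>
    farA_cert (s1 := false) (s2 := false) rfl hκ covF30 covF40 hx hx'
        Pool.Agent.Strip051.G.I3_64_1_16.Tab.C.FA34.c_mm_001 noCut_A noExt_A F trivial trivial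

theorem FA34_mm_011 {κ x : ℝ} (hκ : κ * h0 = ken x) (hx : ((50331648 : ℕ) : ℝ) / S ≤ x) (hx' : x ≤ (((50331648 : ℕ) : ℝ) + (16777216 : ℕ)) / S) :
    TriA PP.cur (farS κ (h0 * x) (tbl tKF x) (tbl tL x)) 0 1 1 3 4 (-1) (-1) :=
  (sideF hx hx').farA (Or.inr rfl) (Or.inr rfl) fun y y' F =>
    farA_cert (s1 := false) (s2 := false) rfl hκ covF30 covF41 hx hx'
        Pool.Agent.Strip051.G.I3_64_1_16.Tab.C.FA34.c_mm_011 noCut_A noExt_A F trivial trivial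

theorem FA34_mm_012 {κ x : ℝ} (hκ : κ * h0 = ken x) (hx : ((50331648 : ℕ) : ℝ) / S ≤ x) (hx' : x ≤ (((50331648 : ℕ) : ℝ) + (16777216 : ℕ)) / S) :
    TriA PP.cur (farS κ (h0 * x) (tbl tKF x) (tbl tL x)) 0 1 2 3 4 (-1) (-1) :=
  (sideF hx hx').farA (Or.inr rfl) (Or.inr rfl) fun y y' F =>
    farA_cert (s1 := false) (s2 := false) rfl hκ covF30 covF41 hx hx'
        Pool.Agent.Strip051.G.I3_64_1_16.Tab.C.FA34.c_mm_012 noCut_A noExt_A F trivial trivial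

theorem FA34_mm_022 {κ x : ℝ} (hκ : κ * h0 = ken x) (hx : ((50331648 : ℕ) : ℝ) / S ≤ x) (hx' : x ≤ (((50331648 : ℕ) : ℝ) + (16777216 : ℕ)) / S) :
    TriA PP.cur (farS κ (h0 * x) (tbl tKF x) (tbl tL x)) 0 2 2 3 4 (-1) (-1) :=
  (sideF hx hx').farA (Or.inr rfl) (Or.inr rfl) fun y y' F =>
    farA_cert (s1 := false) (s2 := false) rfl hκ covF30 covF42 hx hx'
        Pool.Agent.Strip051.G.I3_64_1_16.Tab.C.FA34.c_mm_022 noCut_A noExt_A F trivial trivial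

theorem FA34_mm_023 {κ x : ℝ} (hκ : κ * h0 = ken x) (hx : ((50331648 : ℕ) : ℝ) / S ≤ x) (hx' : x ≤ (((50331648 : ℕ) : ℝ) + (16777216 : ℕ)) / S) :
    TriA PP.cur (farS κ (h0 * x) (tbl tKF x) (tbl tL x)) 0 2 3 3 4 (-1) (-1) :=
  (sideF hx hx').farA (Or.inr rfl) (Or.inr rfl) fun y y' F =>
    farA_cert (s1 := false) (s2 := false) rfl hκ covF30 covF42 hx hx'
        Pool.Agent.Strip051.G.I3_64_1_16.Tab.C.FA34.c_mm_023 noCut_A noExt_A F trivial trivial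

theorem FA34_mm_033 {κ x : ℝ} (hκ : κ * h0 = ken x) (hx : ((50331648 : ℕ) : ℝ) / S ≤ x) (hx' : x ≤ (((50331648 : ℕ) : ℝ) + (16777216 : ℕ)) / S) :
    TriA PP.cur (farS κ (h0 * x) (tbl tKF x) (tbl tL x)) 0 3 3 3 4 (-1) (-1) :=
  (sideF hx hx').farA (Or.inr rfl) (Or.inr rfl) fun y y' F =>
    farA_cert (s1 := false) (s2 := false) rfl hκ covF30 covF43 hx hx'
        Pool.Agent.Strip051.G.I3_64_1_16.Tab.C.FA34.c_mm_033 noCut_A noExt_A F trivial trivial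

theorem FA34_mm_101 {κ x : ℝ} (hκ : κ * h0 = ken x) (hx : ((50331648 : ℕ) : ℝ) / S ≤ x) (hx' : x ≤ (((50331648 : ℕ) : ℝ) + (16777216 : ℕ)) / S) :
    TriA PP.cur (farS κ (h0 * x) (tbl tKF x) (tbl tL x)) 1 0 1 3 4 (-1) (-1) :=
  (sideF hx hx').farA (Or.inr rfl) (Or.inr rfl) fun y y' F =>
    farA_cert (s1 := false) (s2 := false) rfl hκ covF31 covF40 hx hx'
        Pool.Agent.Strip051.G.I3_64_1_16.Tab.C.FA34.c_mm_101 noCut_A noExt_A F trivial trivial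

theorem FA34_mm_102 {κ x : ℝ} (hκ : κ * h0 = ken x) (hx : ((50331648 : ℕ) : ℝ) / S ≤ x) (hx' : x ≤ (((50331648 : ℕ) : ℝ) + (16777216 : ℕ)) / S) :
    TriA PP.cur (farS κ (h0 * x) (tbl tKF x) (tbl tL x)) 1 0 2 3 4 (-1) (-1) :=
  (sideF hx hx').farA (Or.inr rfl) (Or.inr rfl) fun y y' F =>
    farA_cert (s1 := false) (s2 := false) rfl hκ covF31 covF40 hx hx'
        Pool.Agent.Strip051.G.I3_64_1_16.Tab.C.FA34.c_mm_102 noCut_A noExt_A F trivial trivial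

theorem FA34_mm_112 {κ x : ℝ} (hκ : κ * h0 = ken x) (hx : ((50331648 : ℕ) : ℝ) / S ≤ x) (hx' : x ≤ (((50331648 : ℕ) : ℝ) + (16777216 : ℕ)) / S) :
    TriA PP.cur (farS κ (h0 * x) (tbl tKF x) (tbl tL x)) 1 1 2 3 4 (-1) (-1) :=
  (sideF hx hx').farA (Or.inr rfl) (Or.inr rfl) fun y y' F =>
    farA_cert (s1 := false) (s2 := false) rfl hκ covF31 covF41 hx hx'
        Pool.Agent.Strip051.G.I3_64_1_16.Tab.C.FA34.c_mm_112 noCut_A noExt_A F trivial trivial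

theorem FA34_mm_113 {κ x : ℝ} (hκ : κ * h0 = ken x) (hx : ((50331648 : ℕ) : ℝ) / S ≤ x) (hx' : x ≤ (((50331648 : ℕ) : ℝ) + (16777216 : ℕ)) / S) :
    TriA PP.cur (farS κ (h0 * x) (tbl tKF x) (tbl tL x)) 1 1 3 3 4 (-1) (-1) :=
  (sideF hx hx').farA (Or.inr rfl) (Or.inr rfl) fun y y' F =>
    farA_cert (s1 := false) (s2 := false) rfl hκ covF31 covF41 hx hx'
        Pool.Agent.Strip051.G.I3_64_1_16.Tab.C.FA34.c_mm_113 noCut_A noExt_A F trivial trivial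

theorem FA34_mm_123 {κ x : ℝ} (hκ : κ * h0 = ken x) (hx : ((50331648 : ℕ) : ℝ) / S ≤ x) (hx' : x ≤ (((50331648 : ℕ) : ℝ) + (16777216 : ℕ)) / S) :
    TriA PP.cur (farS κ (h0 * x) (tbl tKF x) (tbl tL x)) 1 2 3 3 4 (-1) (-1) :=
  (sideF hx hx').farA (Or.inr rfl) (Or.inr rfl) fun y y' F =>
    farA_cert (s1 := false) (s2 := false) rfl hκ covF31 covF42 hx hx'
        Pool.Agent.Strip051.G.I3_64_1_16.Tab.C.FA34.c_mm_123 noCut_A noExt_A F trivial trivial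

theorem FA34_mm_133 {κ x : ℝ} (hκ : κ * h0 = ken x) (hx : ((50331648 : ℕ) : ℝ) / S ≤ x) (hx' : x ≤ (((50331648 : ℕ) : ℝ) + (16777216 : ℕ)) / S) :
    TriA PP.cur (farS κ (h0 * x) (tbl tKF x) (tbl tL x)) 1 3 3 3 4 (-1) (-1) :=
  (sideF hx hx').farA (Or.inr rfl) (Or.inr rfl) fun y y' F =>
    farA_cert (s1 := false) (s2 := false) rfl hκ covF31 covF43 hx hx'
        Pool.Agent.Strip051.G.I3_64_1_16.Tab.C.FA34.c_mm_133 noCut_A noExt_A F trivial trivial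

theorem FA34_mm_202 {κ x : ℝ} (hκ : κ * h0 = ken x) (hx : ((50331648 : ℕ) : ℝ) / S ≤ x) (hx' : x ≤ (((50331648 : ℕ) : ℝ) + (16777216 : ℕ)) / S) :
    TriA PP.cur (farS κ (h0 * x) (tbl tKF x) (tbl tL x)) 2 0 2 3 4 (-1) (-1) :=
  (sideF hx hx').farA (Or.inr rfl) (Or.inr rfl) fun y y' F =>
    farA_cert (s1 := false) (s2 := false) rfl hκ covF32 covF40 hx hx'
        Pool.Agent.Strip051.G.I3_64_1_16.Tab.C.FA34.c_mm_202 noCut_A noExt_A F trivial trivial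

theorem FA34_mm_203 {κ x : ℝ} (hκ : κ * h0 = ken x) (hx : ((50331648 : ℕ) : ℝ) / S ≤ x) (hx' : x ≤ (((50331648 : ℕ) : ℝ) + (16777216 : ℕ)) / S) :
    TriA PP.cur (farS κ (h0 * x) (tbl tKF x) (tbl tL x)) 2 0 3 3 4 (-1) (-1) :=
  (sideF hx hx').farA (Or.inr rfl) (Or.inr rfl) fun y y' F =>
    farA_cert (s1 := false) (s2 := false) rfl hκ covF32 covF40 hx hx'
        Pool.Agent.Strip051.G.I3_64_1_16.Tab.C.FA34.c_mm_203 noCut_A noExt_A F trivial trivial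

theorem FA34_mm_213 {κ x : ℝ} (hκ : κ * h0 = ken x) (hx : ((50331648 : ℕ) : ℝ) / S ≤ x) (hx' : x ≤ (((50331648 : ℕ) : ℝ) + (16777216 : ℕ)) / S) :
    TriA PP.cur (farS κ (h0 * x) (tbl tKF x) (tbl tL x)) 2 1 3 3 4 (-1) (-1) :=
  (sideF hx hx').farA (Or.inr rfl) (Or.inr rfl) fun y y' F =>
    farA_cert (s1 := false) (s2 := false) rfl hκ covF32 covF41 hx hx'
        Pool.Agent.Strip051.G.I3_64_1_16.Tab.C.FA34.c_mm_213 noCut_A noExt_A F trivial trivial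

theorem FA34_mm_303 {κ x : ℝ} (hκ : κ * h0 = ken x) (hx : ((50331648 : ℕ) : ℝ) / S ≤ x) (hx' : x ≤ (((50331648 : ℕ) : ℝ) + (16777216 : ℕ)) / S) :
    TriA PP.cur (farS κ (h0 * x) (tbl tKF x) (tbl tL x)) 3 0 3 3 4 (-1) (-1) :=
  (sideF hx hx').farA (Or.inr rfl) (Or.inr rfl) fun y y' F =>
    farA_cert (s1 := false) (s2 := false) rfl hκ covF33 covF40 hx hx'
        Pool.Agent.Strip051.G.I3_64_1_16.Tab.C.FA34.c_mm_303 noCut_A noExt_A F trivial trivial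

theorem FA34_mm_313 {κ x : ℝ} (hκ : κ * h0 = ken x) (hx : ((50331648 : ℕ) : ℝ) / S ≤ x) (hx' : x ≤ (((50331648 : ℕ) : ℝ) + (16777216 : ℕ)) / S) :
    TriA PP.cur (farS κ (h0 * x) (tbl tKF x) (tbl tL x)) 3 1 3 3 4 (-1) (-1) :=
  (sideF hx hx').farA (Or.inr rfl) (Or.inr rfl) fun y y' F =>
    farA_cert (s1 := false) (s2 := false) rfl hκ covF33 covF41 hx hx'
        Pool.Agent.Strip051.G.I3_64_1_16.Tab.C.FA34.c_mm_313 noCut_A noExt_A F trivial trivial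

theorem FA34 {κ x : ℝ} (hκ : κ * h0 = ken x) (hx : ((50331648 : ℕ) : ℝ) / S ≤ x) (hx' : x ≤ (((50331648 : ℕ) : ℝ) + (16777216 : ℕ)) / S) : AllTA PP.cur (farS κ (h0 * x) (tbl tKF x) (tbl tL x)) 3 4 where
  pp := all17 (Q := fun a b c => TriA PP.cur (farS κ (h0 * x) (tbl tKF x) (tbl tL x)) a b c 3 4 1 1)
    (FA34_pp_001 hκ hx hx') (FA34_pp_011 hκ hx hx') (FA34_pp_012 hκ hx hx') (FA34_pp_022 hκ hx hx') (FA34_pp_023 hκ hx hx') (FA34_pp_033 hκ hx hx') (FA34_pp_101 hκ hx hx') (FA34_pp_102 hκ hx hx') (FA34_pp_112 hκ hx hx') (FA34_pp_113 hκ hx hx') (FA34_pp_123 hκ hx hx') (FA34_pp_133 hκ hx hx') (FA34_pp_202 hκ hx hx') (FA34_pp_203 hκ hx hx') (FA34_pp_213 hκ hx hx') (FA34_pp_303 hκ hx hx') (FA34_pp_313 hκ hx hx')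
  pm := all17 (Q := fun a b c => TriA PP.cur (farS κ (h0 * x) (tbl tKF x) (tbl tL x)) a b c 3 4 1 (-1))
    (FA34_pm_001 hκ hx hx') (FA34_pm_011 hκ hx hx') (FA34_pm_012 hκ hx hx') (FA34_pm_022 hκ hx hx') (FA34_pm_023 hκ hx hx') (FA34_pm_033 hκ hx hx') (FA34_pm_101 hκ hx hx') (FA34_pm_102 hκ hx hx') (FA34_pm_112 hκ hx hx') (FA34_pm_113 hκ hx hx') (FA34_pm_123 hκ hx hx') (FA34_pm_133 hκ hx hx') (FA34_pm_202 hκ hx hx') (FA34_pm_203 hκ hx hx') (FA34_pm_213 hκ hx hx') (FA34_pm_303 hκ hx hx') (FA34_pm_313 hκ hx hx')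
  mm := all17 (Q := fun a b c => TriA PP.cur (farS κ (h0 * x) (tbl tKF x) (tbl tL x)) a b c 3 4 (-1) (-1))
    (FA34_mm_001 hκ hx hx') (FA34_mm_011 hκ hx hx') (FA34_mm_012 hκ hx hx') (FA34_mm_022 hκ hx hx') (FA34_mm_023 hκ hx hx') (FA34_mm_033 hκ hx hx') (FA34_mm_101 hκ hx hx') (FA34_mm_102 hκ hx hx') (FA34_mm_112 hκ hx hx') (FA34_mm_113 hκ hx hx') (FA34_mm_123 hκ hx hx') (FA34_mm_133 hκ hx hx') (FA34_mm_202 hκ hx hx') (FA34_mm_203 hκ hx hx') (FA34_mm_213 hκ hx hx') (FA34_mm_303 hκ hx hx') (FA34_mm_313 hκ hx hx')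

theorem FA44_pp_001 {κ x : ℝ} (hκ : κ * h0 = ken x) (hx : ((50331648 : ℕ) : ℝ) / S ≤ x) (hx' : x ≤ (((50331648 : ℕ) : ℝ) + (16777216 : ℕ)) / S) :
    TriA PP.cur (farS κ (h0 * x) (tbl tKF x) (tbl tL x)) 0 0 1 4 4 1 1 :=
  (sideF hx hx').farA (Or.inl rfl) (Or.inl rfl) fun y y' F =>
    farA_cert (s1 := true) (s2 := true) rfl hκ covF40 covF40 hx hx'
        Pool.Agent.Strip051.G.I3_64_1_16.Tab.C.FA44.c_pp_001 noCut_A noExt_A F trivial trivial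

theorem FA44_pp_011 {κ x : ℝ} (hκ : κ * h0 = ken x) (hx : ((50331648 : ℕ) : ℝ) / S ≤ x) (hx' : x ≤ (((50331648 : ℕ) : ℝ) + (16777216 : ℕ)) / S) :
    TriA PP.cur (farS κ (h0 * x) (tbl tKF x) (tbl tL x)) 0 1 1 4 4 1 1 :=
  (sideF hx hx').farA (Or.inl rfl) (Or.inl rfl) fun y y' F =>
    farA_cert (s1 := true) (s2 := true) rfl hκ covF40 covF41 hx hx'
        Pool.Agent.Strip051.G.I3_64_1_16.Tab.C.FA44.c_pp_011 noCut_A noExt_A F trivial trivial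

theorem FA44_pp_012 {κ x : ℝ} (hκ : κ * h0 = ken x) (hx : ((50331648 : ℕ) : ℝ) / S ≤ x) (hx' : x ≤ (((50331648 : ℕ) : ℝ) + (16777216 : ℕ)) / S) :
    TriA PP.cur (farS κ (h0 * x) (tbl tKF x) (tbl tL x)) 0 1 2 4 4 1 1 :=
  (sideF hx hx').farA (Or.inl rfl) (Or.inl rfl) fun y y' F =>
    farA_cert (s1 := true) (s2 := true) rfl hκ covF40 covF41 hx hx'
        Pool.Agent.Strip051.G.I3_64_1_16.Tab.C.FA44.c_pp_012 noCut_A noExt_A F trivial trivial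

theorem FA44_pp_022 {κ x : ℝ} (hκ : κ * h0 = ken x) (hx : ((50331648 : ℕ) : ℝ) / S ≤ x) (hx' : x ≤ (((50331648 : ℕ) : ℝ) + (16777216 : ℕ)) / S) :
    TriA PP.cur (farS κ (h0 * x) (tbl tKF x) (tbl tL x)) 0 2 2 4 4 1 1 :=
  (sideF hx hx').farA (Or.inl rfl) (Or.inl rfl) fun y y' F =>
    farA_cert (s1 := true) (s2 := true) rfl hκ covF40 covF42 hx hx'
        Pool.Agent.Strip051.G.I3_64_1_16.Tab.C.FA44.c_pp_022 noCut_A noExt_A F trivial trivial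

theorem FA44_pp_023 {κ x : ℝ} (hκ : κ * h0 = ken x) (hx : ((50331648 : ℕ) : ℝ) / S ≤ x) (hx' : x ≤ (((50331648 : ℕ) : ℝ) + (16777216 : ℕ)) / S) :
    TriA PP.cur (farS κ (h0 * x) (tbl tKF x) (tbl tL x)) 0 2 3 4 4 1 1 :=
  (sideF hx hx').farA (Or.inl rfl) (Or.inl rfl) fun y y' F =>
    farA_cert (s1 := true) (s2 := true) rfl hκ covF40 covF42 hx hx'
        Pool.Agent.Strip051.G.I3_64_1_16.Tab.C.FA44.c_pp_023 noCut_A noExt_A F trivial trivial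

theorem FA44_pp_033 {κ x : ℝ} (hκ : κ * h0 = ken x) (hx : ((50331648 : ℕ) : ℝ) / S ≤ x) (hx' : x ≤ (((50331648 : ℕ) : ℝ) + (16777216 : ℕ)) / S) :
    TriA PP.cur (farS κ (h0 * x) (tbl tKF x) (tbl tL x)) 0 3 3 4 4 1 1 :=
  (sideF hx hx').farA (Or.inl rfl) (Or.inl rfl) fun y y' F =>
    farA_cert (s1 := true) (s2 := true) rfl hκ covF40 covF43 hx hx'
        Pool.Agent.Strip051.G.I3_64_1_16.Tab.C.FA44.c_pp_033 noCut_A noExt_A F trivial trivial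

theorem FA44_pp_101 {κ x : ℝ} (hκ : κ * h0 = ken x) (hx : ((50331648 : ℕ) : ℝ) / S ≤ x) (hx' : x ≤ (((50331648 : ℕ) : ℝ) + (16777216 : ℕ)) / S) :
    TriA PP.cur (farS κ (h0 * x) (tbl tKF x) (tbl tL x)) 1 0 1 4 4 1 1 :=
  (sideF hx hx').farA (Or.inl rfl) (Or.inl rfl) fun y y' F =>
    farA_cert (s1 := true) (s2 := true) rfl hκ covF41 covF40 hx hx'
        Pool.Agent.Strip051.G.I3_64_1_16.Tab.C.FA44.c_pp_101 noCut_A noExt_A F trivial trivial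

theorem FA44_pp_102 {κ x : ℝ} (hκ : κ * h0 = ken x) (hx : ((50331648 : ℕ) : ℝ) / S ≤ x) (hx' : x ≤ (((50331648 : ℕ) : ℝ) + (16777216 : ℕ)) / S) :
    TriA PP.cur (farS κ (h0 * x) (tbl tKF x) (tbl tL x)) 1 0 2 4 4 1 1 :=
  (sideF hx hx').farA (Or.inl rfl) (Or.inl rfl) fun y y' F =>
    farA_cert (s1 := true) (s2 := true) rfl hκ covF41 covF40 hx hx'
        Pool.Agent.Strip051.G.I3_64_1_16.Tab.C.FA44.c_pp_102 noCut_A noExt_A F trivial trivial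

theorem FA44_pp_112 {κ x : ℝ} (hκ : κ * h0 = ken x) (hx : ((50331648 : ℕ) : ℝ) / S ≤ x) (hx' : x ≤ (((50331648 : ℕ) : ℝ) + (16777216 : ℕ)) / S) :
    TriA PP.cur (farS κ (h0 * x) (tbl tKF x) (tbl tL x)) 1 1 2 4 4 1 1 :=
  (sideF hx hx').farA (Or.inl rfl) (Or.inl rfl) fun y y' F =>
    farA_cert (s1 := true) (s2 := true) rfl hκ covF41 covF41 hx hx'
        Pool.Agent.Strip051.G.I3_64_1_16.Tab.C.FA44.c_pp_112 noCut_A noExt_A F trivial trivial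

theorem FA44_pp_113 {κ x : ℝ} (hκ : κ * h0 = ken x) (hx : ((50331648 : ℕ) : ℝ) / S ≤ x) (hx' : x ≤ (((50331648 : ℕ) : ℝ) + (16777216 : ℕ)) / S) :
    TriA PP.cur (farS κ (h0 * x) (tbl tKF x) (tbl tL x)) 1 1 3 4 4 1 1 :=
  (sideF hx hx').farA (Or.inl rfl) (Or.inl rfl) fun y y' F =>
    farA_cert (s1 := true) (s2 := true) rfl hκ covF41 covF41 hx hx'
        Pool.Agent.Strip051.G.I3_64_1_16.Tab.C.FA44.c_pp_113 noCut_A noExt_A F trivial trivial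

theorem FA44_pp_123 {κ x : ℝ} (hκ : κ * h0 = ken x) (hx : ((50331648 : ℕ) : ℝ) / S ≤ x) (hx' : x ≤ (((50331648 : ℕ) : ℝ) + (16777216 : ℕ)) / S) :
    TriA PP.cur (farS κ (h0 * x) (tbl tKF x) (tbl tL x)) 1 2 3 4 4 1 1 :=
  (sideF hx hx').farA (Or.inl rfl) (Or.inl rfl) fun y y' F =>
    farA_cert (s1 := true) (s2 := true) rfl hκ covF41 covF42 hx hx'
        Pool.Agent.Strip051.G.I3_64_1_16.Tab.C.FA44.c_pp_123 noCut_A noExt_A F trivial trivial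

theorem FA44_pp_133 {κ x : ℝ} (hκ : κ * h0 = ken x) (hx : ((50331648 : ℕ) : ℝ) / S ≤ x) (hx' : x ≤ (((50331648 : ℕ) : ℝ) + (16777216 : ℕ)) / S) :
    TriA PP.cur (farS κ (h0 * x) (tbl tKF x) (tbl tL x)) 1 3 3 4 4 1 1 :=
  (sideF hx hx').farA (Or.inl rfl) (Or.inl rfl) fun y y' F =>
    farA_cert (s1 := true) (s2 := true) rfl hκ covF41 covF43 hx hx'
        Pool.Agent.Strip051.G.I3_64_1_16.Tab.C.FA44.c_pp_133 noCut_A noExt_A F trivial trivial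

theorem FA44_pp_202 {κ x : ℝ} (hκ : κ * h0 = ken x) (hx : ((50331648 : ℕ) : ℝ) / S ≤ x) (hx' : x ≤ (((50331648 : ℕ) : ℝ) + (16777216 : ℕ)) / S) :
    TriA PP.cur (farS κ (h0 * x) (tbl tKF x) (tbl tL x)) 2 0 2 4 4 1 1 :=
  (sideF hx hx').farA (Or.inl rfl) (Or.inl rfl) fun y y' F =>
    farA_cert (s1 := true) (s2 := true) rfl hκ covF42 covF40 hx hx'
        Pool.Agent.Strip051.G.I3_64_1_16.Tab.C.FA44.c_pp_202 noCut_A noExt_A F trivial trivial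

theorem FA44_pp_203 {κ x : ℝ} (hκ : κ * h0 = ken x) (hx : ((50331648 : ℕ) : ℝ) / S ≤ x) (hx' : x ≤ (((50331648 : ℕ) : ℝ) + (16777216 : ℕ)) / S) :
    TriA PP.cur (farS κ (h0 * x) (tbl tKF x) (tbl tL x)) 2 0 3 4 4 1 1 :=
  (sideF hx hx').farA (Or.inl rfl) (Or.inl rfl) fun y y' F =>
    farA_cert (s1 := true) (s2 := true) rfl hκ covF42 covF40 hx hx'
        Pool.Agent.Strip051.G.I3_64_1_16.Tab.C.FA44.c_pp_203 noCut_A noExt_A F trivial trivial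

theorem FA44_pp_213 {κ x : ℝ} (hκ : κ * h0 = ken x) (hx : ((50331648 : ℕ) : ℝ) / S ≤ x) (hx' : x ≤ (((50331648 : ℕ) : ℝ) + (16777216 : ℕ)) / S) :
    TriA PP.cur (farS κ (h0 * x) (tbl tKF x) (tbl tL x)) 2 1 3 4 4 1 1 :=
  (sideF hx hx').farA (Or.inl rfl) (Or.inl rfl) fun y y' F =>
    farA_cert (s1 := true) (s2 := true) rfl hκ covF42 covF41 hx hx'
        Pool.Agent.Strip051.G.I3_64_1_16.Tab.C.FA44.c_pp_213 noCut_A noExt_A F trivial trivial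

theorem FA44_pp_303 {κ x : ℝ} (hκ : κ * h0 = ken x) (hx : ((50331648 : ℕ) : ℝ) / S ≤ x) (hx' : x ≤ (((50331648 : ℕ) : ℝ) + (16777216 : ℕ)) / S) :
    TriA PP.cur (farS κ (h0 * x) (tbl tKF x) (tbl tL x)) 3 0 3 4 4 1 1 :=
  (sideF hx hx').farA (Or.inl rfl) (Or.inl rfl) fun y y' F =>
    farA_cert (s1 := true) (s2 := true) rfl hκ covF43 covF40 hx hx'
        Pool.Agent.Strip051.G.I3_64_1_16.Tab.C.FA44.c_pp_303 noCut_A noExt_A F trivial trivial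

theorem FA44_pp_313 {κ x : ℝ} (hκ : κ * h0 = ken x) (hx : ((50331648 : ℕ) : ℝ) / S ≤ x) (hx' : x ≤ (((50331648 : ℕ) : ℝ) + (16777216 : ℕ)) / S) :
    TriA PP.cur (farS κ (h0 * x) (tbl tKF x) (tbl tL x)) 3 1 3 4 4 1 1 :=
  (sideF hx hx').farA (Or.inl rfl) (Or.inl rfl) fun y y' F =>
    farA_cert (s1 := true) (s2 := true) rfl hκ covF43 covF41 hx hx'
        Pool.Agent.Strip051.G.I3_64_1_16.Tab.C.FA44.c_pp_313 noCut_A noExt_A F trivial trivial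

theorem FA44_pm_001 {κ x : ℝ} (hκ : κ * h0 = ken x) (hx : ((50331648 : ℕ) : ℝ) / S ≤ x) (hx' : x ≤ (((50331648 : ℕ) : ℝ) + (16777216 : ℕ)) / S) :
    TriA PP.cur (farS κ (h0 * x) (tbl tKF x) (tbl tL x)) 0 0 1 4 4 1 (-1) :=
  (sideF hx hx').farA (Or.inl rfl) (Or.inr rfl) fun y y' F =>
    farA_cert (s1 := true) (s2 := false) rfl hκ covF40 covF40 hx hx'
        Pool.Agent.Strip051.G.I3_64_1_16.Tab.C.FA44.c_pm_001 noCut_A noExt_A F trivial trivial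

theorem FA44_pm_011 {κ x : ℝ} (hκ : κ * h0 = ken x) (hx : ((50331648 : ℕ) : ℝ) / S ≤ x) (hx' : x ≤ (((50331648 : ℕ) : ℝ) + (16777216 : ℕ)) / S) :
    TriA PP.cur (farS κ (h0 * x) (tbl tKF x) (tbl tL x)) 0 1 1 4 4 1 (-1) :=
  (sideF hx hx').farA (Or.inl rfl) (Or.inr rfl) fun y y' F =>
    farA_cert (s1 := true) (s2 := false) rfl hκ covF40 covF41 hx hx'
        Pool.Agent.Strip051.G.I3_64_1_16.Tab.C.FA44.c_pm_011 noCut_A noExt_A F trivial trivial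

theorem FA44_pm_012 {κ x : ℝ} (hκ : κ * h0 = ken x) (hx : ((50331648 : ℕ) : ℝ) / S ≤ x) (hx' : x ≤ (((50331648 : ℕ) : ℝ) + (16777216 : ℕ)) / S) :
    TriA PP.cur (farS κ (h0 * x) (tbl tKF x) (tbl tL x)) 0 1 2 4 4 1 (-1) :=
  (sideF hx hx').farA (Or.inl rfl) (Or.inr rfl) fun y y' F =>
    farA_cert (s1 := true) (s2 := false) rfl hκ covF40 covF41 hx hx'
        Pool.Agent.Strip051.G.I3_64_1_16.Tab.C.FA44.c_pm_012 noCut_A noExt_A F trivial trivial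

theorem FA44_pm_022 {κ x : ℝ} (hκ : κ * h0 = ken x) (hx : ((50331648 : ℕ) : ℝ) / S ≤ x) (hx' : x ≤ (((50331648 : ℕ) : ℝ) + (16777216 : ℕ)) / S) :
    TriA PP.cur (farS κ (h0 * x) (tbl tKF x) (tbl tL x)) 0 2 2 4 4 1 (-1) :=
  (sideF hx hx').farA (Or.inl rfl) (Or.inr rfl) fun y y' F =>
    farA_cert (s1 := true) (s2 := false) rfl hκ covF40 covF42 hx hx'
        Pool.Agent.Strip051.G.I3_64_1_16.Tab.C.FA44.c_pm_022 noCut_A noExt_A F trivial trivial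

theorem FA44_pm_023 {κ x : ℝ} (hκ : κ * h0 = ken x) (hx : ((50331648 : ℕ) : ℝ) / S ≤ x) (hx' : x ≤ (((50331648 : ℕ) : ℝ) + (16777216 : ℕ)) / S) :
    TriA PP.cur (farS κ (h0 * x) (tbl tKF x) (tbl tL x)) 0 2 3 4 4 1 (-1) :=
  (sideF hx hx').farA (Or.inl rfl) (Or.inr rfl) fun y y' F =>
    farA_cert (s1 := true) (s2 := false) rfl hκ covF40 covF42 hx hx'
        Pool.Agent.Strip051.G.I3_64_1_16.Tab.C.FA44.c_pm_023 noCut_A noExt_A F trivial trivial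

theorem FA44_pm_033 {κ x : ℝ} (hκ : κ * h0 = ken x) (hx : ((50331648 : ℕ) : ℝ) / S ≤ x) (hx' : x ≤ (((50331648 : ℕ) : ℝ) + (16777216 : ℕ)) / S) :
    TriA PP.cur (farS κ (h0 * x) (tbl tKF x) (tbl tL x)) 0 3 3 4 4 1 (-1) :=
  (sideF hx hx').farA (Or.inl rfl) (Or.inr rfl) fun y y' F =>
    farA_cert (s1 := true) (s2 := false) rfl hκ covF40 covF43 hx hx'
        Pool.Agent.Strip051.G.I3_64_1_16.Tab.C.FA44.c_pm_033 noCut_A noExt_A F trivial trivial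

theorem FA44_pm_101 {κ x : ℝ} (hκ : κ * h0 = ken x) (hx : ((50331648 : ℕ) : ℝ) / S ≤ x) (hx' : x ≤ (((50331648 : ℕ) : ℝ) + (16777216 : ℕ)) / S) :
    TriA PP.cur (farS κ (h0 * x) (tbl tKF x) (tbl tL x)) 1 0 1 4 4 1 (-1) :=
  (sideF hx hx').farA (Or.inl rfl) (Or.inr rfl) fun y y' F =>
    farA_cert (s1 := true) (s2 := false) rfl hκ covF41 covF40 hx hx'
        Pool.Agent.Strip051.G.I3_64_1_16.Tab.C.FA44.c_pm_101 noCut_A noExt_A F trivial trivial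

theorem FA44_pm_102 {κ x : ℝ} (hκ : κ * h0 = ken x) (hx : ((50331648 : ℕ) : ℝ) / S ≤ x) (hx' : x ≤ (((50331648 : ℕ) : ℝ) + (16777216 : ℕ)) / S) :
    TriA PP.cur (farS κ (h0 * x) (tbl tKF x) (tbl tL x)) 1 0 2 4 4 1 (-1) :=
  (sideF hx hx').farA (Or.inl rfl) (Or.inr rfl) fun y y' F =>
    farA_cert (s1 := true) (s2 := false) rfl hκ covF41 covF40 hx hx'
        Pool.Agent.Strip051.G.I3_64_1_16.Tab.C.FA44.c_pm_102 noCut_A noExt_A F trivial trivial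

theorem FA44_pm_112 {κ x : ℝ} (hκ : κ * h0 = ken x) (hx : ((50331648 : ℕ) : ℝ) / S ≤ x) (hx' : x ≤ (((50331648 : ℕ) : ℝ) + (16777216 : ℕ)) / S) :
    TriA PP.cur (farS κ (h0 * x) (tbl tKF x) (tbl tL x)) 1 1 2 4 4 1 (-1) :=
  (sideF hx hx').farA (Or.inl rfl) (Or.inr rfl) fun y y' F =>
    farA_cert (s1 := true) (s2 := false) rfl hκ covF41 covF41 hx hx'
        Pool.Agent.Strip051.G.I3_64_1_16.Tab.C.FA44.c_pm_112 noCut_A noExt_A F trivial trivial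

theorem FA44_pm_113 {κ x : ℝ} (hκ : κ * h0 = ken x) (hx : ((50331648 : ℕ) : ℝ) / S ≤ x) (hx' : x ≤ (((50331648 : ℕ) : ℝ) + (16777216 : ℕ)) / S) :
    TriA PP.cur (farS κ (h0 * x) (tbl tKF x) (tbl tL x)) 1 1 3 4 4 1 (-1) :=
  (sideF hx hx').farA (Or.inl rfl) (Or.inr rfl) fun y y' F =>
    farA_cert (s1 := true) (s2 := false) rfl hκ covF41 covF41 hx hx'
        Pool.Agent.Strip051.G.I3_64_1_16.Tab.C.FA44.c_pm_113 noCut_A noExt_A F trivial trivial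

theorem FA44_pm_123 {κ x : ℝ} (hκ : κ * h0 = ken x) (hx : ((50331648 : ℕ) : ℝ) / S ≤ x) (hx' : x ≤ (((50331648 : ℕ) : ℝ) + (16777216 : ℕ)) / S) :
    TriA PP.cur (farS κ (h0 * x) (tbl tKF x) (tbl tL x)) 1 2 3 4 4 1 (-1) :=
  (sideF hx hx').farA (Or.inl rfl) (Or.inr rfl) fun y y' F =>
    farA_cert (s1 := true) (s2 := false) rfl hκ covF41 covF42 hx hx'
        Pool.Agent.Strip051.G.I3_64_1_16.Tab.C.FA44.c_pm_123 noCut_A noExt_A F trivial trivial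

theorem FA44_pm_133 {κ x : ℝ} (hκ : κ * h0 = ken x) (hx : ((50331648 : ℕ) : ℝ) / S ≤ x) (hx' : x ≤ (((50331648 : ℕ) : ℝ) + (16777216 : ℕ)) / S) :
    TriA PP.cur (farS κ (h0 * x) (tbl tKF x) (tbl tL x)) 1 3 3 4 4 1 (-1) :=
  (sideF hx hx').farA (Or.inl rfl) (Or.inr rfl) fun y y' F =>
    farA_cert (s1 := true) (s2 := false) rfl hκ covF41 covF43 hx hx'
        Pool.Agent.Strip051.G.I3_64_1_16.Tab.C.FA44.c_pm_133 noCut_A noExt_A F trivial trivial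

theorem FA44_pm_202 {κ x : ℝ} (hκ : κ * h0 = ken x) (hx : ((50331648 : ℕ) : ℝ) / S ≤ x) (hx' : x ≤ (((50331648 : ℕ) : ℝ) + (16777216 : ℕ)) / S) :
    TriA PP.cur (farS κ (h0 * x) (tbl tKF x) (tbl tL x)) 2 0 2 4 4 1 (-1) :=
  (sideF hx hx').farA (Or.inl rfl) (Or.inr rfl) fun y y' F =>
    farA_cert (s1 := true) (s2 := false) rfl hκ covF42 covF40 hx hx'
        Pool.Agent.Strip051.G.I3_64_1_16.Tab.C.FA44.c_pm_202 noCut_A noExt_A F trivial trivial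

theorem FA44_pm_203 {κ x : ℝ} (hκ : κ * h0 = ken x) (hx : ((50331648 : ℕ) : ℝ) / S ≤ x) (hx' : x ≤ (((50331648 : ℕ) : ℝ) + (16777216 : ℕ)) / S) :
    TriA PP.cur (farS κ (h0 * x) (tbl tKF x) (tbl tL x)) 2 0 3 4 4 1 (-1) :=
  (sideF hx hx').farA (Or.inl rfl) (Or.inr rfl) fun y y' F =>
    farA_cert (s1 := true) (s2 := false) rfl hκ covF42 covF40 hx hx'
        Pool.Agent.Strip051.G.I3_64_1_16.Tab.C.FA44.c_pm_203 noCut_A noExt_A F trivial trivial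

theorem FA44_pm_213 {κ x : ℝ} (hκ : κ * h0 = ken x) (hx : ((50331648 : ℕ) : ℝ) / S ≤ x) (hx' : x ≤ (((50331648 : ℕ) : ℝ) + (16777216 : ℕ)) / S) :
    TriA PP.cur (farS κ (h0 * x) (tbl tKF x) (tbl tL x)) 2 1 3 4 4 1 (-1) :=
  (sideF hx hx').farA (Or.inl rfl) (Or.inr rfl) fun y y' F =>
    farA_cert (s1 := true) (s2 := false) rfl hκ covF42 covF41 hx hx'
        Pool.Agent.Strip051.G.I3_64_1_16.Tab.C.FA44.c_pm_213 noCut_A noExt_A F trivial trivial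

theorem FA44_pm_303 {κ x : ℝ} (hκ : κ * h0 = ken x) (hx : ((50331648 : ℕ) : ℝ) / S ≤ x) (hx' : x ≤ (((50331648 : ℕ) : ℝ) + (16777216 : ℕ)) / S) :
    TriA PP.cur (farS κ (h0 * x) (tbl tKF x) (tbl tL x)) 3 0 3 4 4 1 (-1) :=
  (sideF hx hx').farA (Or.inl rfl) (Or.inr rfl) fun y y' F =>
    farA_cert (s1 := true) (s2 := false) rfl hκ covF43 covF40 hx hx'
        Pool.Agent.Strip051.G.I3_64_1_16.Tab.C.FA44.c_pm_303 noCut_A noExt_A F trivial trivial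

theorem FA44_pm_313 {κ x : ℝ} (hκ : κ * h0 = ken x) (hx : ((50331648 : ℕ) : ℝ) / S ≤ x) (hx' : x ≤ (((50331648 : ℕ) : ℝ) + (16777216 : ℕ)) / S) :
    TriA PP.cur (farS κ (h0 * x) (tbl tKF x) (tbl tL x)) 3 1 3 4 4 1 (-1) :=
  (sideF hx hx').farA (Or.inl rfl) (Or.inr rfl) fun y y' F =>
    farA_cert (s1 := true) (s2 := false) rfl hκ covF43 covF41 hx hx'
        Pool.Agent.Strip051.G.I3_64_1_16.Tab.C.FA44.c_pm_313 noCut_A noExt_A F trivial trivial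

theorem FA44_mm_001 {κ x : ℝ} (hκ : κ * h0 = ken x) (hx : ((50331648 : ℕ) : ℝ) / S ≤ x) (hx' : x ≤ (((50331648 : ℕ) : ℝ) + (16777216 : ℕ)) / S) :
    TriA PP.cur (farS κ (h0 * x) (tbl tKF x) (tbl tL x)) 0 0 1 4 4 (-1) (-1) :=
  (sideF hx hx').farA (Or.inr rfl) (Or.inr rfl) fun y y' F =>
    farA_cert (s1 := false) (s2 := false) rfl hκ covF40 covF40 hx hx'
        Pool.Agent.Strip051.G.I3_64_1_16.Tab.C.FA44.c_mm_001 noCut_A noExt_A F trivial trivial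

theorem FA44_mm_011 {κ x : ℝ} (hκ : κ * h0 = ken x) (hx : ((50331648 : ℕ) : ℝ) / S ≤ x) (hx' : x ≤ (((50331648 : ℕ) : ℝ) + (16777216 : ℕ)) / S) :
    TriA PP.cur (farS κ (h0 * x) (tbl tKF x) (tbl tL x)) 0 1 1 4 4 (-1) (-1) :=
  (sideF hx hx').farA (Or.inr rfl) (Or.inr rfl) fun y y' F =>
    farA_cert (s1 := false) (s2 := false) rfl hκ covF40 covF41 hx hx'
        Pool.Agent.Strip051.G.I3_64_1_16.Tab.C.FA44.c_mm_011 noCut_A noExt_A F trivial trivial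

theorem FA44_mm_012 {κ x : ℝ} (hκ : κ * h0 = ken x) (hx : ((50331648 : ℕ) : ℝ) / S ≤ x) (hx' : x ≤ (((50331648 : ℕ) : ℝ) + (16777216 : ℕ)) / S) :
    TriA PP.cur (farS κ (h0 * x) (tbl tKF x) (tbl tL x)) 0 1 2 4 4 (-1) (-1) :=
  (sideF hx hx').farA (Or.inr rfl) (Or.inr rfl) fun y y' F =>
    farA_cert (s1 := false) (s2 := false) rfl hκ covF40 covF41 hx hx'
        Pool.Agent.Strip051.G.I3_64_1_16.Tab.C.FA44.c_mm_012 noCut_A noExt_A F trivial trivial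

theorem FA44_mm_022 {κ x : ℝ} (hκ : κ * h0 = ken x) (hx : ((50331648 : ℕ) : ℝ) / S ≤ x) (hx' : x ≤ (((50331648 : ℕ) : ℝ) + (16777216 : ℕ)) / S) :
    TriA PP.cur (farS κ (h0 * x) (tbl tKF x) (tbl tL x)) 0 2 2 4 4 (-1) (-1) :=
  (sideF hx hx').farA (Or.inr rfl) (Or.inr rfl) fun y y' F =>
    farA_cert (s1 := false) (s2 := false) rfl hκ covF40 covF42 hx hx'
        Pool.Agent.Strip051.G.I3_64_1_16.Tab.C.FA44.c_mm_022 noCut_A noExt_A F trivial trivial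

theorem FA44_mm_023 {κ x : ℝ} (hκ : κ * h0 = ken x) (hx : ((50331648 : ℕ) : ℝ) / S ≤ x) (hx' : x ≤ (((50331648 : ℕ) : ℝ) + (16777216 : ℕ)) / S) :
    TriA PP.cur (farS κ (h0 * x) (tbl tKF x) (tbl tL x)) 0 2 3 4 4 (-1) (-1) :=
  (sideF hx hx').farA (Or.inr rfl) (Or.inr rfl) fun y y' F =>
    farA_cert (s1 := false) (s2 := false) rfl hκ covF40 covF42 hx hx'
        Pool.Agent.Strip051.G.I3_64_1_16.Tab.C.FA44.c_mm_023 noCut_A noExt_A F trivial trivial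

theorem FA44_mm_033 {κ x : ℝ} (hκ : κ * h0 = ken x) (hx : ((50331648 : ℕ) : ℝ) / S ≤ x) (hx' : x ≤ (((50331648 : ℕ) : ℝ) + (16777216 : ℕ)) / S) :
    TriA PP.cur (farS κ (h0 * x) (tbl tKF x) (tbl tL x)) 0 3 3 4 4 (-1) (-1) :=
  (sideF hx hx').farA (Or.inr rfl) (Or.inr rfl) fun y y' F =>
    farA_cert (s1 := false) (s2 := false) rfl hκ covF40 covF43 hx hx'
        Pool.Agent.Strip051.G.I3_64_1_16.Tab.C.FA44.c_mm_033 noCut_A noExt_A F trivial trivial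

theorem FA44_mm_101 {κ x : ℝ} (hκ : κ * h0 = ken x) (hx : ((50331648 : ℕ) : ℝ) / S ≤ x) (hx' : x ≤ (((50331648 : ℕ) : ℝ) + (16777216 : ℕ)) / S) :
    TriA PP.cur (farS κ (h0 * x) (tbl tKF x) (tbl tL x)) 1 0 1 4 4 (-1) (-1) :=
  (sideF hx hx').farA (Or.inr rfl) (Or.inr rfl) fun y y' F =>
    farA_cert (s1 := false) (s2 := false) rfl hκ covF41 covF40 hx hx'
        Pool.Agent.Strip051.G.I3_64_1_16.Tab.C.FA44.c_mm_101 noCut_A noExt_A F trivial trivial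

theorem FA44_mm_102 {κ x : ℝ} (hκ : κ * h0 = ken x) (hx : ((50331648 : ℕ) : ℝ) / S ≤ x) (hx' : x ≤ (((50331648 : ℕ) : ℝ) + (16777216 : ℕ)) / S) :
    TriA PP.cur (farS κ (h0 * x) (tbl tKF x) (tbl tL x)) 1 0 2 4 4 (-1) (-1) :=
  (sideF hx hx').farA (Or.inr rfl) (Or.inr rfl) fun y y' F =>
    farA_cert (s1 := false) (s2 := false) rfl hκ covF41 covF40 hx hx'
        Pool.Agent.Strip051.G.I3_64_1_16.Tab.C.FA44.c_mm_102 noCut_A noExt_A F trivial trivial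

theorem FA44_mm_112 {κ x : ℝ} (hκ : κ * h0 = ken x) (hx : ((50331648 : ℕ) : ℝ) / S ≤ x) (hx' : x ≤ (((50331648 : ℕ) : ℝ) + (16777216 : ℕ)) / S) :
    TriA PP.cur (farS κ (h0 * x) (tbl tKF x) (tbl tL x)) 1 1 2 4 4 (-1) (-1) :=
  (sideF hx hx').farA (Or.inr rfl) (Or.inr rfl) fun y y' F =>
    farA_cert (s1 := false) (s2 := false) rfl hκ covF41 covF41 hx hx'
        Pool.Agent.Strip051.G.I3_64_1_16.Tab.C.FA44.c_mm_112 noCut_A noExt_A F trivial trivial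

theorem FA44_mm_113 {κ x : ℝ} (hκ : κ * h0 = ken x) (hx : ((50331648 : ℕ) : ℝ) / S ≤ x) (hx' : x ≤ (((50331648 : ℕ) : ℝ) + (16777216 : ℕ)) / S) :
    TriA PP.cur (farS κ (h0 * x) (tbl tKF x) (tbl tL x)) 1 1 3 4 4 (-1) (-1) :=
  (sideF hx hx').farA (Or.inr rfl) (Or.inr rfl) fun y y' F =>
    farA_cert (s1 := false) (s2 := false) rfl hκ covF41 covF41 hx hx'
        Pool.Agent.Strip051.G.I3_64_1_16.Tab.C.FA44.c_mm_113 noCut_A noExt_A F trivial trivial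

theorem FA44_mm_123 {κ x : ℝ} (hκ : κ * h0 = ken x) (hx : ((50331648 : ℕ) : ℝ) / S ≤ x) (hx' : x ≤ (((50331648 : ℕ) : ℝ) + (16777216 : ℕ)) / S) :
    TriA PP.cur (farS κ (h0 * x) (tbl tKF x) (tbl tL x)) 1 2 3 4 4 (-1) (-1) :=
  (sideF hx hx').farA (Or.inr rfl) (Or.inr rfl) fun y y' F =>
    farA_cert (s1 := false) (s2 := false) rfl hκ covF41 covF42 hx hx'
        Pool.Agent.Strip051.G.I3_64_1_16.Tab.C.FA44.c_mm_123 noCut_A noExt_A F trivial trivial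

theorem FA44_mm_133 {κ x : ℝ} (hκ : κ * h0 = ken x) (hx : ((50331648 : ℕ) : ℝ) / S ≤ x) (hx' : x ≤ (((50331648 : ℕ) : ℝ) + (16777216 : ℕ)) / S) :
    TriA PP.cur (farS κ (h0 * x) (tbl tKF x) (tbl tL x)) 1 3 3 4 4 (-1) (-1) :=
  (sideF hx hx').farA (Or.inr rfl) (Or.inr rfl) fun y y' F =>
    farA_cert (s1 := false) (s2 := false) rfl hκ covF41 covF43 hx hx'
        Pool.Agent.Strip051.G.I3_64_1_16.Tab.C.FA44.c_mm_133 noCut_A noExt_A F trivial trivial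

theorem FA44_mm_202 {κ x : ℝ} (hκ : κ * h0 = ken x) (hx : ((50331648 : ℕ) : ℝ) / S ≤ x) (hx' : x ≤ (((50331648 : ℕ) : ℝ) + (16777216 : ℕ)) / S) :
    TriA PP.cur (farS κ (h0 * x) (tbl tKF x) (tbl tL x)) 2 0 2 4 4 (-1) (-1) :=
  (sideF hx hx').farA (Or.inr rfl) (Or.inr rfl) fun y y' F =>
    farA_cert (s1 := false) (s2 := false) rfl hκ covF42 covF40 hx hx'
        Pool.Agent.Strip051.G.I3_64_1_16.Tab.C.FA44.c_mm_202 noCut_A noExt_A F trivial trivial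

theorem FA44_mm_203 {κ x : ℝ} (hκ : κ * h0 = ken x) (hx : ((50331648 : ℕ) : ℝ) / S ≤ x) (hx' : x ≤ (((50331648 : ℕ) : ℝ) + (16777216 : ℕ)) / S) :
    TriA PP.cur (farS κ (h0 * x) (tbl tKF x) (tbl tL x)) 2 0 3 4 4 (-1) (-1) :=
  (sideF hx hx').farA (Or.inr rfl) (Or.inr rfl) fun y y' F =>
    farA_cert (s1 := false) (s2 := false) rfl hκ covF42 covF40 hx hx'
        Pool.Agent.Strip051.G.I3_64_1_16.Tab.C.FA44.c_mm_203 noCut_A noExt_A F trivial trivial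

theorem FA44_mm_213 {κ x : ℝ} (hκ : κ * h0 = ken x) (hx : ((50331648 : ℕ) : ℝ) / S ≤ x) (hx' : x ≤ (((50331648 : ℕ) : ℝ) + (16777216 : ℕ)) / S) :
    TriA PP.cur (farS κ (h0 * x) (tbl tKF x) (tbl tL x)) 2 1 3 4 4 (-1) (-1) :=
  (sideF hx hx').farA (Or.inr rfl) (Or.inr rfl) fun y y' F =>
    farA_cert (s1 := false) (s2 := false) rfl hκ covF42 covF41 hx hx'
        Pool.Agent.Strip051.G.I3_64_1_16.Tab.C.FA44.c_mm_213 noCut_A noExt_A F trivial trivial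

theorem FA44_mm_303 {κ x : ℝ} (hκ : κ * h0 = ken x) (hx : ((50331648 : ℕ) : ℝ) / S ≤ x) (hx' : x ≤ (((50331648 : ℕ) : ℝ) + (16777216 : ℕ)) / S) :
    TriA PP.cur (farS κ (h0 * x) (tbl tKF x) (tbl tL x)) 3 0 3 4 4 (-1) (-1) :=
  (sideF hx hx').farA (Or.inr rfl) (Or.inr rfl) fun y y' F =>
    farA_cert (s1 := false) (s2 := false) rfl hκ covF43 covF40 hx hx'
        Pool.Agent.Strip051.G.I3_64_1_16.Tab.C.FA44.c_mm_303 noCut_A noExt_A F trivial trivial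

theorem FA44_mm_313 {κ x : ℝ} (hκ : κ * h0 = ken x) (hx : ((50331648 : ℕ) : ℝ) / S ≤ x) (hx' : x ≤ (((50331648 : ℕ) : ℝ) + (16777216 : ℕ)) / S) :
    TriA PP.cur (farS κ (h0 * x) (tbl tKF x) (tbl tL x)) 3 1 3 4 4 (-1) (-1) :=
  (sideF hx hx').farA (Or.inr rfl) (Or.inr rfl) fun y y' F =>
    farA_cert (s1 := false) (s2 := false) rfl hκ covF43 covF41 hx hx'
        Pool.Agent.Strip051.G.I3_64_1_16.Tab.C.FA44.c_mm_313 noCut_A noExt_A F trivial trivial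

theorem FA44 {κ x : ℝ} (hκ : κ * h0 = ken x) (hx : ((50331648 : ℕ) : ℝ) / S ≤ x) (hx' : x ≤ (((50331648 : ℕ) : ℝ) + (16777216 : ℕ)) / S) : AllTA PP.cur (farS κ (h0 * x) (tbl tKF x) (tbl tL x)) 4 4 where
  pp := all17 (Q := fun a b c => TriA PP.cur (farS κ (h0 * x) (tbl tKF x) (tbl tL x)) a b c 4 4 1 1)
    (FA44_pp_001 hκ hx hx') (FA44_pp_011 hκ hx hx') (FA44_pp_012 hκ hx hx') (FA44_pp_022 hκ hx hx') (FA44_pp_023 hκ hx hx') (FA44_pp_033 hκ hx hx') (FA44_pp_101 hκ hx hx') (FA44_pp_102 hκ hx hx') (FA44_pp_112 hκ hx hx') (FA44_pp_113 hκ hx hx') (FA44_pp_123 hκ hx hx') (FA44_pp_133 hκ hx hx') (FA44_pp_202 hκ hx hx') (FA44_pp_203 hκ hx hx') (FA44_pp_213 hκ hx hx') (FA44_pp_303 hκ hx hx') (FA44_pp_313 hκ hx hx')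
  pm := all17 (Q := fun a b c => TriA PP.cur (farS κ (h0 * x) (tbl tKF x) (tbl tL x)) a b c 4 4 1 (-1))
    (FA44_pm_001 hκ hx hx') (FA44_pm_011 hκ hx hx') (FA44_pm_012 hκ hx hx') (FA44_pm_022 hκ hx hx') (FA44_pm_023 hκ hx hx') (FA44_pm_033 hκ hx hx') (FA44_pm_101 hκ hx hx') (FA44_pm_102 hκ hx hx') (FA44_pm_112 hκ hx hx') (FA44_pm_113 hκ hx hx') (FA44_pm_123 hκ hx hx') (FA44_pm_133 hκ hx hx') (FA44_pm_202 hκ hx hx') (FA44_pm_203 hκ hx hx') (FA44_pm_213 hκ hx hx') (FA44_pm_303 hκ hx hx') (FA44_pm_313 hκ hx hx')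
  mm := all17 (Q := fun a b c => TriA PP.cur (farS κ (h0 * x) (tbl tKF x) (tbl tL x)) a b c 4 4 (-1) (-1))
    (FA44_mm_001 hκ hx hx') (FA44_mm_011 hκ hx hx') (FA44_mm_012 hκ hx hx') (FA44_mm_022 hκ hx hx') (FA44_mm_023 hκ hx hx') (FA44_mm_033 hκ hx hx') (FA44_mm_101 hκ hx hx') (FA44_mm_102 hκ hx hx') (FA44_mm_112 hκ hx hx') (FA44_mm_113 hκ hx hx') (FA44_mm_123 hκ hx hx') (FA44_mm_133 hκ hx hx') (FA44_mm_202 hκ hx hx') (FA44_mm_203 hκ hx hx') (FA44_mm_213 hκ hx hx') (FA44_mm_303 hκ hx hx') (FA44_mm_313 hκ hx hx')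

end Pool.Agent.Strip051.G.I3_64_1_16.Tab
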