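import Pool.Agent.Strip051.G.I3_64_1_16.Gn
import Pool.Agent.Strip051.PB.Corns
import Pool.Agent.Strip051.PB.CornK

/-! # Certificates of the aligned corners (generated) -/

set_option linter.all false

namespace Pool.Agent.Strip051.G.I3_64_1_16.Tab.CF

open Pool.Agent.Strip051.PB

def B012R_001_1_32_1 :
    ∃ t, chk3 (onCell 0 50331648 0 1073741824 50331648 16777216 (corTK [[⟨0, 0, 1, 25165824⟩, ⟨1, 1, 2, 25165824⟩, ⟨2, 1, 0, 8388608⟩, ⟨0, 0, 0, 83886080⟩, ⟨0, 1, 0, 1040187392⟩, ⟨1, 0, 0, 1040187392⟩, ⟨1, 1, 0, 83886080⟩]] true 1 c0F cB012R gF0q0 gF0q2 gF1q1 gF2q1 false true)) t 1 32 1 = true :=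
  ⟨(T.b (T.b (T.b (T.a (T.a (T.l 204) (T.a (T.a (T.l 204) (T.a (T.a (T.l 204) (T.l 204)) (T.c (T.l 204) (T.l 460)))) (T.a (T.a (T.c (T.l 476) (T.l 460)) (T.c (T.l 476) (T.l 460))) (T.a (T.a (T.l 476) (T.l 476)) (T.c (T.c (T.l 476) (T.l 476)) (T.c (T.l 460) (T.l 460))))))) (T.c (T.a (T.a (T.a (T.a (T.a (T.l 476) (T.l 476)) (T.a (T.l 476) (T.l 476))) (T.a (T.a (T.l 476) (T.c (T.l 476) (T.l 476))) (T.a (T.a (T.l 476) (T.l 476)) (T.c (T.b (T.l 476) (T.l 476)) (T.l 476))))) (T.a (T.a (T.c (T.a (T.c (T.l 476) (T.l 476)) (T.c (T.l 476) (T.l 476))) (T.a (T.l 476) (T.l 476))) (T.a (T.a (T.c (T.l 476) (T.l 476)) (T.c (T.a (T.l 476) (T.l 476)) (T.l 476))) (T.l 1024))) (T.l 1024))) (T.l 1024)) (T.b (T.a (T.a (T.a (T.a (T.c (T.l 460) (T.l 460)) (T.c (T.l 476) (T.l 460))) (T.a (T.a (T.l 476) (T.c (T.l 476) (T.l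 460))) (T.a (T.c (T.l 476) (T.l 476)) (T.c (T.l 476) (T.l 476))))) (T.a (T.a (T.c (T.a (T.l 476) (T.l 476)) (T.c (T.l 476) (T.l 476))) (T.a (T.a (T.l 476) (T.l 476)) (T.a (T.l 476) (T.l 476)))) (T.a (T.a (T.a (T.l 476) (T.l 476)) (T.a (T.l 476) (T.l 476))) (T.a (T.a (T.l 476) (T.l 476)) (T.a (T.l 476) (T.l 476)))))) (T.a (T.a (T.a (T.a (T.a (T.l 476) (T.l 476)) (T.c (T.l 1024) (T.l 476))) (T.c (T.l 1024) (T.a (T.l 476) (T.l 476)))) (T.a (T.c (T.l 1024) (T.a (T.l 476) (T.l 476))) (T.l 1024))) (T.l 1024))) (T.a (T.a (T.a (T.a (T.l 476) (T.l 476)) (T.a (T.a (T.l 460) (T.l 476)) (T.a (T.l 476) (T.l 476)))) (T.a (T.a (T.c (T.l 476) (T.l 476)) (T.a (T.c (T.l 476) (T.l 476)) (T.c (T.l 476) (T.l 476)))) (T.a (T.a (T.c (T.l 476) (T.l 476)) (T.c (T.l 476) (T.l 476))) (T.a (T.c (T.l 476) (T.l 476)) (T.c (T.l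 476) (T.l 476)))))) (T.a (T.a (T.a (T.a (T.l 476) (T.l 476)) (T.a (T.l 476) (T.l 476))) (T.a (T.a (T.l 476) (T.l 476)) (T.l 1024))) (T.l 1024)))))) (T.a (T.a (T.l 204) (T.a (T.a (T.l 204) (T.a (T.c (T.l 204) (T.l 460)) (T.c (T.l 204) (T.l 460)))) (T.a (T.a (T.c (T.l 204) (T.l 460)) (T.c (T.l 476) (T.l 460))) (T.a (T.c (T.l 476) (T.l 460)) (T.c (T.l 476) (T.l 460)))))) (T.c (T.a (T.a (T.a (T.a (T.l 476) (T.l 476)) (T.a (T.c (T.l 476) (T.l 476)) (T.c (T.l 476) (T.l 476)))) (T.a (T.a (T.c (T.l 476) (T.l 476)) (T.a (T.a (T.l 476) (T.l 476)) (T.c (T.l 476) (T.l 476)))) (T.l 1024))) (T.l 1024)) (T.b (T.a (T.a (T.a (T.a (T.l 460) (T.l 476)) (T.a (T.c (T.l 476) (T.l 460)) (T.c (T.l 476) (T.l 476)))) (T.a (T.a (T.c (T.l 476) (T.l 476)) (T.a (T.c (T.l 476) (T.l 476)) (T.l 476))) (T.a (T.a (T.l 476) (T.l 476))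 (T.a (T.l 476) (T.l 476))))) (T.a (T.a (T.a (T.a (T.l 476) (T.l 476)) (T.a (T.l 476) (T.l 476))) (T.a (T.a (T.l 476) (T.l 476)) (T.l 1024))) (T.l 1024))) (T.a (T.a (T.a (T.a (T.l 460) (T.l 460)) (T.a (T.l 476) (T.l 476))) (T.a (T.a (T.l 476) (T.a (T.l 476) (T.l 476))) (T.a (T.a (T.l 476) (T.l 476)) (T.a (T.l 476) (T.l 476))))) (T.a (T.a (T.a (T.a (T.l 476) (T.l 476)) (T.c (T.l 1024) (T.l 476))) (T.a (T.c (T.l 1024) (T.l 476)) (T.l 1024))) (T.l 1024))))))) (T.b (T.a (T.a (T.l 204) (T.a (T.a (T.l 204) (T.a (T.c (T.l 204) (T.l 460)) (T.l 460))) (T.a (T.a (T.l 476) (T.l 476)) (T.a (T.c (T.l 220) (T.l 460)) (T.c (T.l 476) (T.l 460)))))) (T.c (T.a (T.a (T.a (T.a (T.l 476) (T.l 476)) (T.a (T.l 476) (T.l 476))) (T.a (T.a (T.l 476) (T.a (T.l 476) (T.l 476))) (T.l 1024))) (T.l 1024)) (T.a (T.a (T.a (T.a (T.l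 460) (T.l 460)) (T.a (T.l 476) (T.l 476))) (T.a (T.a (T.l 476) (T.a (T.l 476) (T.l 476))) (T.a (T.a (T.l 476) (T.l 476)) (T.a (T.l 476) (T.l 476))))) (T.a (T.a (T.a (T.c (T.l 476) (T.l 476)) (T.c (T.l 1024) (T.l 476))) (T.a (T.c (T.l 1024) (T.l 476)) (T.l 1024))) (T.l 1024))))) (T.a (T.a (T.l 204) (T.a (T.a (T.l 204) (T.a (T.c (T.l 204) (T.l 204)) (T.l 460))) (T.a (T.a (T.l 460) (T.l 476)) (T.a (T.l 476) (T.l 476))))) (T.a (T.a (T.a (T.a (T.l 476) (T.l 476)) (T.a (T.c (T.l 476) (T.l 460)) (T.c (T.l 476) (T.l 476)))) (T.a (T.a (T.c (T.l 476) (T.l 476)) (T.a (T.l 476) (T.l 476))) (T.c (T.l 1024) (T.a (T.c (T.l 476) (T.l 476)) (T.c (T.l 476) (T.l 476)))))) (T.a (T.c (T.l 1024) (T.a (T.a (T.l 476) (T.l 476)) (T.a (T.l 476) (T.l 476)))) (T.l 1024)))))) (T.b (T.b (T.a (T.a (T.l 204) (T.a (T.a (T.l 204) (T.a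 (T.l 460) (T.l 204))) (T.a (T.a (T.l 204) (T.l 204)) (T.a (T.l 476) (T.l 476))))) (T.a (T.a (T.a (T.a (T.l 476) (T.l 476)) (T.a (T.l 476) (T.l 476))) (T.a (T.a (T.l 476) (T.a (T.l 476) (T.l 476))) (T.c (T.l 1024) (T.a (T.l 476) (T.l 476))))) (T.a (T.c (T.l 1024) (T.a (T.a (T.l 476) (T.l 476)) (T.a (T.l 476) (T.l 476)))) (T.l 1024)))) (T.a (T.a (T.l 204) (T.a (T.a (T.l 204) (T.a (T.l 460) (T.l 204))) (T.a (T.a (T.l 204) (T.l 204)) (T.a (T.l 204) (T.l 204))))) (T.a (T.a (T.a (T.c (T.l 476) (T.l 476)) (T.a (T.l 476) (T.l 476))) (T.a (T.a (T.l 476) (T.a (T.l 460) (T.l 476))) (T.c (T.l 1024) (T.a (T.l 476) (T.l 476))))) (T.a (T.c (T.l 1024) (T.a (T.a (T.l 476) (T.l 476)) (T.a (T.l 476) (T.l 476)))) (T.l 1024))))) (T.b (T.a (T.a (T.l 204) (T.a (T.a (T.l 204) (T.a (T.l 204) (T.l 204))) (T.a (T.a (T.l 204)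 (T.l 204)) (T.c (T.l 476) (T.l 476))))) (T.a (T.a (T.a (T.c (T.l 476) (T.l 460)) (T.c (T.l 476) (T.l 476))) (T.a (T.a (T.l 476) (T.c (T.l 476) (T.l 476))) (T.a (T.c (T.l 1024) (T.l 476)) (T.l 476)))) (T.a (T.c (T.l 1024) (T.a (T.a (T.l 476) (T.l 476)) (T.c (T.l 1024) (T.l 476)))) (T.l 1024)))) (T.a (T.a (T.l 204) (T.a (T.a (T.l 204) (T.a (T.l 204) (T.l 204))) (T.a (T.a (T.l 204) (T.l 204)) (T.c (T.l 476) (T.l 460))))) (T.a (T.a (T.a (T.l 476) (T.c (T.l 476) (T.l 476))) (T.a (T.a (T.l 460) (T.c (T.l 476) (T.l 476))) (T.a (T.c (T.l 476) (T.l 476)) (T.l 476)))) (T.a (T.c (T.l 1024) (T.a (T.a (T.l 460) (T.l 460)) (T.c (T.l 1024) (T.l 476)))) (T.l 1024))))))), by decide +kernel⟩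

def B012R_001_1_33_1 :
    ∃ t, chk3 (onCell 0 50331648 0 1073741824 50331648 16777216 (corTK [[⟨0, 0, 1, 25165824⟩, ⟨1, 1, 2, 25165824⟩, ⟨2, 1, 0, 8388608⟩, ⟨0, 0, 0, 83886080⟩, ⟨0, 1, 0, 1040187392⟩, ⟨1, 0, 0, 1040187392⟩, ⟨1, 1, 0, 83886080⟩]] true 1 c0F cB012R gF0q0 gF0q2 gF1q1 gF2q1 false true)) t 1 33 1 = true :=
  ⟨(T.b (T.b (T.b (T.a (T.a (T.l 204) (T.a (T.a (T.l 204) (T.a (T.l 204) (T.l 204))) (T.a (T.c (T.l 476) (T.l 460)) (T.c (T.l 476) (T.l 460))))) (T.a (T.a (T.a (T.l 476) (T.c (T.l 476) (T.l 460))) (T.a (T.c (T.l 476) (T.l 460)) (T.a (T.l 476) (T.l 476)))) (T.a (T.c (T.l 1024) (T.a (T.c (T.l 476) (T.l 476)) (T.l 476))) (T.l 1024)))) (T.a (T.a (T.l 204) (T.a (T.a (T.l 204) (T.a (T.l 204) (T.l 204))) (T.a (T.c (T.l 476) (T.l 460)) (T.l 476)))) (T.a (T.a (T.a (T.l 476) (T.c (T.l 476) (T.l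 460))) (T.a (T.l 476) (T.a (T.l 476) (T.l 476)))) (T.a (T.c (T.l 1024) (T.a (T.c (T.l 476) (T.l 476)) (T.l 476))) (T.l 1024))))) (T.b (T.a (T.a (T.l 204) (T.a (T.a (T.l 204) (T.a (T.l 204) (T.l 204))) (T.a (T.c (T.l 460) (T.l 460)) (T.l 476)))) (T.a (T.a (T.a (T.l 476) (T.l 476)) (T.a (T.l 476) (T.a (T.l 476) (T.l 476)))) (T.a (T.c (T.l 1024) (T.a (T.l 476) (T.l 476))) (T.l 1024)))) (T.a (T.a (T.l 204) (T.a (T.a (T.l 204) (T.a (T.l 204) (T.l 204))) (T.a (T.l 476) (T.l 476)))) (T.a (T.a (T.a (T.l 476) (T.l 476)) (T.a (T.l 476) (T.a (T.l 476) (T.l 460)))) (T.a (T.a (T.c (T.l 1024) (T.l 476)) (T.l 476)) (T.l 1024)))))) (T.b (T.b (T.a (T.a (T.l 204) (T.a (T.a (T.l 204) (T.a (T.l 204) (T.l 204))) (T.a (T.l 476) (T.l 476)))) (T.a (T.a (T.a (T.l 460) (T.l 476)) (T.a (T.l 476) (T.a (T.l 476) (T.l 460)))) (T.c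 (T.l 1024) (T.a (T.a (T.l 476) (T.l 476)) (T.a (T.l 476) (T.l 1024)))))) (T.a (T.a (T.l 204) (T.a (T.a (T.l 204) (T.c (T.l 460) (T.l 460))) (T.a (T.l 476) (T.l 476)))) (T.a (T.a (T.a (T.l 204) (T.l 476)) (T.a (T.l 460) (T.a (T.l 476) (T.l 204)))) (T.c (T.l 1024) (T.a (T.a (T.l 476) (T.l 476)) (T.a (T.l 460) (T.l 1024))))))) (T.b (T.a (T.a (T.l 204) (T.a (T.a (T.l 204) (T.c (T.l 460) (T.l 460))) (T.a (T.l 476) (T.l 204)))) (T.a (T.a (T.a (T.l 204) (T.l 460)) (T.a (T.l 460) (T.a (T.l 460) (T.l 204)))) (T.c (T.l 1024) (T.a (T.a (T.l 476) (T.l 476)) (T.a (T.l 460) (T.l 1024)))))) (T.a (T.a (T.l 204) (T.a (T.a (T.l 204) (T.c (T.l 460) (T.l 460))) (T.a (T.l 476) (T.l 204)))) (T.a (T.a (T.a (T.l 204) (T.l 460)) (T.a (T.l 204) (T.a (T.l 204) (T.l 204)))) (T.c (T.l 1024) (T.a (T.a (T.l 476) (T.l 460)) (T.a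 (T.l 204) (T.l 1024))))))))), by decide +kernel⟩

def B012R_001_1_17_1 :
    ∃ t, chk3 (onCell 0 50331648 0 1073741824 50331648 16777216 (corTK [[⟨0, 0, 1, 25165824⟩, ⟨1, 1, 2, 25165824⟩, ⟨2, 1, 0, 8388608⟩, ⟨0, 0, 0, 83886080⟩, ⟨0, 1, 0, 1040187392⟩, ⟨1, 0, 0, 1040187392⟩, ⟨1, 1, 0, 83886080⟩]] true 1 c0F cB012R gF0q0 gF0q2 gF1q1 gF2q1 false true)) t 1 17 1 = true :=
  ⟨(T.b (T.b (T.b (T.b (T.a (T.a (T.l 204) (T.a (T.a (T.l 204) (T.c (T.l 204) (T.l 460))) (T.a (T.l 460) (T.l 204)))) (T.a (T.a (T.a (T.l 204) (T.l 204)) (T.a (T.l 204) (T.a (T.l 204) (T.l 204)))) (T.c (T.l 1024) (T.a (T.a (T.l 476) (T.l 460)) (T.a (T.l 204) (T.l 1024)))))) (T.a (T.a (T.l 204) (T.a (T.a (T.l 204) (T.l 476)) (T.a (T.l 204) (T.l 204)))) (T.a (T.a (T.a (T.l 204) (T.l 204)) (T.a (T.l 204) (T.a (T.l 204) (T.l 204)))) (T.c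 (T.l 1024) (T.a (T.a (T.l 476) (T.l 204)) (T.a (T.l 204) (T.l 1024))))))) (T.b (T.a (T.a (T.l 204) (T.a (T.a (T.l 204) (T.l 476)) (T.a (T.l 204) (T.l 204)))) (T.a (T.a (T.a (T.l 204) (T.l 204)) (T.a (T.l 204) (T.c (T.l 476) (T.l 476)))) (T.c (T.l 1024) (T.a (T.a (T.l 460) (T.l 204)) (T.a (T.l 204) (T.l 1024)))))) (T.a (T.a (T.l 204) (T.a (T.a (T.l 204) (T.l 460)) (T.a (T.l 204) (T.l 204)))) (T.a (T.a (T.a (T.l 204) (T.l 204)) (T.a (T.l 204) (T.c (T.l 476) (T.l 476)))) (T.c (T.l 1024) (T.a (T.a (T.l 460) (T.l 204)) (T.a (T.l 204) (T.l 1024)))))))) (T.b (T.b (T.a (T.a (T.l 204) (T.a (T.a (T.l 204) (T.l 460)) (T.a (T.l 204) (T.l 204)))) (T.a (T.a (T.a (T.l 204) (T.l 204)) (T.a (T.l 204) (T.c (T.l 476) (T.l 476)))) (T.c (T.l 1024) (T.a (T.a (T.l 204) (T.l 204)) (T.a (T.l 204) (T.l 1024)))))) (T.a (T.a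 (T.l 204) (T.a (T.a (T.l 204) (T.l 460)) (T.a (T.l 204) (T.l 204)))) (T.a (T.a (T.a (T.l 204) (T.l 204)) (T.a (T.l 204) (T.c (T.l 476) (T.l 476)))) (T.c (T.l 1024) (T.a (T.a (T.l 204) (T.l 204)) (T.a (T.l 204) (T.l 1024))))))) (T.b (T.a (T.a (T.l 204) (T.a (T.a (T.l 204) (T.l 460)) (T.a (T.l 204) (T.l 204)))) (T.a (T.a (T.a (T.l 204) (T.l 204)) (T.a (T.l 204) (T.c (T.l 476) (T.l 476)))) (T.c (T.l 1024) (T.a (T.a (T.l 204) (T.l 204)) (T.l 476))))) (T.a (T.a (T.l 204) (T.a (T.a (T.l 204) (T.l 204)) (T.a (T.l 204) (T.l 204)))) (T.a (T.a (T.a (T.l 204) (T.l 204)) (T.a (T.l 204) (T.l 476))) (T.c (T.l 1024) (T.a (T.a (T.l 204) (T.l 204)) (T.l 476)))))))) (T.b (T.b (T.b (T.a (T.a (T.l 204) (T.a (T.a (T.l 204) (T.l 204)) (T.a (T.l 204) (T.l 204)))) (T.a (T.a (T.a (T.l 204) (T.l 204)) (T.a (T.l 204) (T.l 476)))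 (T.c (T.l 1024) (T.a (T.a (T.l 204) (T.l 204)) (T.l 476))))) (T.a (T.a (T.l 204) (T.a (T.a (T.l 204) (T.l 204)) (T.a (T.l 204) (T.l 204)))) (T.a (T.a (T.c (T.l 476) (T.l 476)) (T.a (T.l 204) (T.l 476))) (T.c (T.l 1024) (T.a (T.a (T.l 204) (T.l 204)) (T.l 476)))))) (T.b (T.a (T.a (T.l 204) (T.a (T.a (T.l 204) (T.l 204)) (T.a (T.l 204) (T.l 204)))) (T.a (T.a (T.c (T.l 476) (T.l 476)) (T.a (T.l 204) (T.l 476))) (T.c (T.l 1024) (T.a (T.a (T.l 204) (T.l 204)) (T.l 476))))) (T.a (T.a (T.l 204) (T.a (T.a (T.l 204) (T.l 204)) (T.a (T.l 204) (T.l 204)))) (T.a (T.a (T.c (T.l 476) (T.l 476)) (T.a (T.l 204) (T.l 476))) (T.c (T.l 1024) (T.a (T.a (T.l 204) (T.l 204)) (T.l 476))))))) (T.b (T.b (T.a (T.a (T.l 204) (T.a (T.a (T.l 204) (T.l 204)) (T.a (T.l 204) (T.l 204)))) (T.a (T.a (T.c (T.l 476) (T.l 460)) (T.a (T.l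 204) (T.l 476))) (T.a (T.a (T.l 476) (T.l 204)) (T.c (T.l 1024) (T.l 476))))) (T.a (T.a (T.l 204) (T.a (T.a (T.l 204) (T.l 204)) (T.a (T.l 204) (T.l 204)))) (T.a (T.a (T.c (T.l 476) (T.l 460)) (T.l 476)) (T.a (T.a (T.l 460) (T.l 204)) (T.c (T.l 1024) (T.l 476)))))) (T.b (T.a (T.a (T.l 204) (T.a (T.a (T.l 204) (T.l 204)) (T.a (T.l 204) (T.l 204)))) (T.a (T.a (T.c (T.l 460) (T.l 460)) (T.l 460)) (T.a (T.a (T.l 460) (T.l 204)) (T.l 476)))) (T.a (T.a (T.l 204) (T.a (T.a (T.l 204) (T.l 204)) (T.c (T.l 476) (T.l 476)))) (T.a (T.a (T.c (T.l 460) (T.l 460)) (T.l 460)) (T.a (T.a (T.l 460) (T.l 204)) (T.l 476)))))))), by decide +kernel⟩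

def B012R_001_1_9_1 :
    ∃ t, chk3 (onCell 0 50331648 0 1073741824 50331648 16777216 (corTK [[⟨0, 0, 1, 25165824⟩, ⟨1, 1, 2, 25165824⟩, ⟨2, 1, 0, 8388608⟩, ⟨0, 0, 0, 83886080⟩, ⟨0, 1, 0, 1040187392⟩, ⟨1, 0, 0, 1040187392⟩, ⟨1, 1, 0, 83886080⟩]] true 1 c0F cB012R gF0q0 gF0q2 gF1q1 gF2q1 false true)) t 1 9 1 = true :=
  ⟨(T.b (T.b (T.b (T.b (T.b (T.a (T.a (T.l 204) (T.a (T.a (T.l 204) (T.l 204)) (T.c (T.l 476) (T.l 476)))) (T.a (T.a (T.c (T.l 460) (T.l 460)) (T.l 460)) (T.a (T.a (T.l 204) (T.l 204)) (T.l 476)))) (T.a (T.a (T.l 204) (T.a (T.a (T.l 204) (T.l 204)) (T.c (T.l 476) (T.l 476)))) (T.a (T.a (T.l 476) (T.l 460)) (T.a (T.a (T.l 204) (T.l 204)) (T.l 476))))) (T.b (T.a (T.a (T.l 204) (T.a (T.a (T.l 204) (T.l 204)) (T.c (T.l 476) (T.l 476)))) (T.a (T.a (T.l 476) (T.l 460)) (T.a (T.a (T.l 204) (T.l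 204)) (T.l 476)))) (T.a (T.a (T.l 204) (T.a (T.a (T.l 204) (T.l 204)) (T.c (T.l 476) (T.l 460)))) (T.a (T.a (T.l 476) (T.l 204)) (T.a (T.a (T.l 204) (T.l 204)) (T.l 476)))))) (T.b (T.b (T.a (T.a (T.l 204) (T.a (T.a (T.l 204) (T.l 204)) (T.c (T.l 476) (T.l 460)))) (T.a (T.a (T.l 476) (T.l 204)) (T.a (T.a (T.l 204) (T.l 204)) (T.l 476)))) (T.a (T.a (T.l 204) (T.a (T.a (T.l 204) (T.l 204)) (T.c (T.l 476) (T.l 460)))) (T.a (T.a (T.l 476) (T.l 204)) (T.a (T.a (T.l 204) (T.l 204)) (T.l 476))))) (T.b (T.a (T.a (T.l 204) (T.a (T.l 204) (T.l 476))) (T.a (T.a (T.l 476) (T.l 204)) (T.a (T.a (T.l 204) (T.l 204)) (T.l 476)))) (T.a (T.a (T.l 204) (T.a (T.l 204) (T.l 476))) (T.a (T.a (T.l 476) (T.l 204)) (T.a (T.a (T.l 204) (T.l 204)) (T.l 476))))))) (T.b (T.b (T.b (T.a (T.a (T.l 204) (T.a (T.l 204) (T.l 476))) (T.a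 (T.a (T.l 476) (T.l 204)) (T.a (T.a (T.l 204) (T.l 204)) (T.l 476)))) (T.a (T.a (T.l 204) (T.a (T.l 204) (T.l 476))) (T.a (T.a (T.l 476) (T.l 204)) (T.a (T.a (T.l 204) (T.l 204)) (T.l 476))))) (T.b (T.a (T.a (T.l 204) (T.a (T.l 204) (T.l 476))) (T.a (T.a (T.l 460) (T.l 204)) (T.a (T.a (T.l 204) (T.l 204)) (T.l 476)))) (T.a (T.a (T.l 204) (T.a (T.l 204) (T.l 476))) (T.a (T.a (T.l 460) (T.l 204)) (T.a (T.a (T.l 204) (T.l 204)) (T.l 476)))))) (T.b (T.b (T.a (T.a (T.l 204) (T.a (T.l 204) (T.l 476))) (T.a (T.a (T.l 460) (T.l 204)) (T.a (T.a (T.l 204) (T.l 204)) (T.l 476)))) (T.a (T.a (T.l 204) (T.a (T.l 204) (T.l 476))) (T.a (T.a (T.l 460) (T.l 204)) (T.a (T.a (T.l 204) (T.l 204)) (T.l 476))))) (T.a (T.a (T.l 204) (T.a (T.l 204) (T.l 476))) (T.a (T.a (T.l 460) (T.l 204)) (T.a (T.a (T.l 204) (T.l 204)) (T.l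 476))))))) (T.b (T.b (T.b (T.a (T.a (T.l 204) (T.a (T.l 204) (T.l 476))) (T.a (T.a (T.l 460) (T.l 204)) (T.a (T.a (T.l 204) (T.l 204)) (T.l 476)))) (T.a (T.a (T.l 204) (T.a (T.l 204) (T.l 476))) (T.a (T.a (T.l 460) (T.l 204)) (T.a (T.a (T.l 204) (T.l 204)) (T.l 476))))) (T.b (T.a (T.a (T.l 204) (T.a (T.l 204) (T.l 476))) (T.a (T.a (T.l 204) (T.l 204)) (T.a (T.a (T.l 204) (T.l 204)) (T.l 476)))) (T.a (T.a (T.l 204) (T.a (T.l 204) (T.l 460))) (T.a (T.a (T.l 204) (T.l 204)) (T.a (T.a (T.l 204) (T.l 204)) (T.l 476)))))) (T.b (T.b (T.a (T.a (T.l 204) (T.a (T.l 204) (T.l 460))) (T.a (T.a (T.l 460) (T.l 204)) (T.a (T.a (T.l 204) (T.l 204)) (T.l 476)))) (T.a (T.a (T.l 204) (T.a (T.l 204) (T.l 460))) (T.a (T.a (T.l 460) (T.l 204)) (T.a (T.a (T.l 204) (T.l 204)) (T.l 476))))) (T.b (T.a (T.a (T.l 204) (T.a (T.l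 204) (T.l 204))) (T.a (T.a (T.l 460) (T.l 204)) (T.a (T.a (T.l 204) (T.l 204)) (T.l 476)))) (T.a (T.a (T.l 204) (T.a (T.l 204) (T.l 204))) (T.a (T.a (T.l 204) (T.l 204)) (T.a (T.l 204) (T.l 476)))))))), by decide +kernel⟩

def B012R_001_1_5_1 :
    ∃ t, chk3 (onCell 0 50331648 0 1073741824 50331648 16777216 (corTK [[⟨0, 0, 1, 25165824⟩, ⟨1, 1, 2, 25165824⟩, ⟨2, 1, 0, 8388608⟩, ⟨0, 0, 0, 83886080⟩, ⟨0, 1, 0, 1040187392⟩, ⟨1, 0, 0, 1040187392⟩, ⟨1, 1, 0, 83886080⟩]] true 1 c0F cB012R gF0q0 gF0q2 gF1q1 gF2q1 false true)) t 1 5 1 = true :=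
  ⟨(T.b (T.b (T.b (T.b (T.b (T.a (T.a (T.l 204) (T.a (T.l 204) (T.l 204))) (T.a (T.a (T.l 204) (T.l 204)) (T.a (T.l 204) (T.l 476)))) (T.a (T.a (T.l 204) (T.a (T.l 204) (T.l 204))) (T.a (T.a (T.l 204) (T.l 204)) (T.a (T.l 204) (T.l 476))))) (T.b (T.a (T.a (T.l 204) (T.a (T.l 204) (T.l 204))) (T.a (T.a (T.l 204) (T.l 204)) (T.a (T.l 204) (T.l 476)))) (T.a (T.a (T.l 204) (T.a (T.l 204) (T.l 476))) (T.a (T.a (T.l 204) (T.l 204)) (T.a (T.l 204) (T.l 476)))))) (T.b (T.b (T.a (T.a (T.l 204) (T.a (T.l 204) (T.l 476))) (T.a (T.a (T.l 204) (T.l 204)) (T.a (T.l 204) (T.l 476)))) (T.a (T.a (T.l 204) (T.a (T.l 204) (T.l 460))) (T.a (T.a (T.l 204) (T.l 204)) (T.a (T.l 204) (T.l 476))))) (T.a (T.a (T.l 204) (T.a (T.l 204) (T.l 476))) (T.a (T.a (T.l 204) (T.l 204)) (T.a (T.l 204) (T.l 476)))))) (T.b (T.b (T.a (T.a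 (T.l 204) (T.a (T.l 204) (T.l 476))) (T.a (T.a (T.l 204) (T.l 204)) (T.a (T.l 204) (T.l 476)))) (T.a (T.a (T.l 204) (T.a (T.l 204) (T.l 476))) (T.a (T.a (T.l 204) (T.l 204)) (T.a (T.l 204) (T.l 476))))) (T.a (T.a (T.l 204) (T.a (T.b (T.l 204) (T.l 476)) (T.l 476))) (T.a (T.a (T.l 476) (T.l 204)) (T.a (T.l 476) (T.l 220)))))) (T.a (T.a (T.a (T.b (T.l 204) (T.l 204)) (T.l 204)) (T.a (T.a (T.b (T.l 204) (T.l 460)) (T.b (T.l 204) (T.l 204))) (T.b (T.l 476) (T.l 476)))) (T.a (T.a (T.b (T.b (T.l 476) (T.l 204)) (T.b (T.l 476) (T.l 476))) (T.b (T.b (T.l 204) (T.l 476)) (T.b (T.l 476) (T.l 476)))) (T.b (T.a (T.b (T.l 476) (T.l 476)) (T.b (T.l 204) (T.l 204))) (T.a (T.b (T.l 220) (T.l 220)) (T.l 476)))))), by decide +kernel⟩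

def B012R_001_1_3_1 :
    ∃ t, chk3 (onCell 0 50331648 0 1073741824 50331648 16777216 (corTK [[⟨0, 0, 1, 25165824⟩, ⟨1, 1, 2, 25165824⟩, ⟨2, 1, 0, 8388608⟩, ⟨0, 0, 0, 83886080⟩, ⟨0, 1, 0, 1040187392⟩, ⟨1, 0, 0, 1040187392⟩, ⟨1, 1, 0, 83886080⟩]] true 1 c0F cB012R gF0q0 gF0q2 gF1q1 gF2q1 false true)) t 1 3 1 = true :=
  ⟨(T.b (T.a (T.a (T.a (T.b (T.b (T.l 204) (T.l 204)) (T.b (T.l 204) (T.l 204))) (T.a (T.b (T.l 204) (T.a (T.l 204) (T.l 476))) (T.b (T.b (T.l 476) (T.l 476)) (T.b (T.l 476) (T.l 476))))) (T.a (T.b (T.a (T.b (T.l 204) (T.l 204)) (T.l 476)) (T.a (T.b (T.l 204) (T.l 204)) (T.l 476))) (T.b (T.b (T.l 476) (T.b (T.l 476) (T.l 476))) (T.a (T.b (T.l 204) (T.l 476)) (T.b (T.l 476) (T.l 476)))))) (T.a (T.b (T.a (T.b (T.b (T.l 476) (T.l 476)) (T.b (T.l 476) (T.l 476))) (T.b (T.b (T.l 476) (T.l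 476)) (T.b (T.l 476) (T.l 220)))) (T.a (T.b (T.b (T.l 476) (T.l 476)) (T.b (T.l 476) (T.l 476))) (T.b (T.l 476) (T.l 476)))) (T.b (T.b (T.a (T.l 476) (T.l 476)) (T.a (T.l 476) (T.l 476))) (T.b (T.a (T.l 476) (T.l 476)) (T.b (T.l 476) (T.l 476)))))) (T.a (T.a (T.a (T.a (T.b (T.l 204) (T.l 204)) (T.l 460)) (T.a (T.b (T.a (T.l 204) (T.l 476)) (T.a (T.l 476) (T.l 460))) (T.b (T.b (T.l 460) (T.l 460)) (T.b (T.l 204) (T.l 204))))) (T.a (T.a (T.b (T.l 476) (T.b (T.l 476) (T.l 476))) (T.b (T.b (T.l 204) (T.l 476)) (T.b (T.l 476) (T.l 476)))) (T.b (T.a (T.b (T.l 476) (T.l 476)) (T.b (T.l 476) (T.l 220))) (T.a (T.b (T.l 476) (T.l 476)) (T.b (T.l 220) (T.l 220)))))) (T.a (T.a (T.b (T.a (T.b (T.l 220) (T.l 204)) (T.l 476)) (T.a (T.l 476) (T.l 476))) (T.b (T.b (T.l 476) (T.l 476)) (T.b (T.l 476) (T.l 476)))) (T.b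 (T.a (T.b (T.l 220) (T.l 220)) (T.b (T.l 220) (T.l 220))) (T.a (T.b (T.l 220) (T.l 220)) (T.b (T.l 220) (T.l 220))))))), by decide +kernel⟩

theorem B012R_001_1_16_1 :
    ∃ t, chk3 (onCell 0 50331648 0 1073741824 50331648 16777216 (corTK [[⟨0, 0, 1, 25165824⟩, ⟨1, 1, 2, 25165824⟩, ⟨2, 1, 0, 8388608⟩, ⟨0, 0, 0, 83886080⟩, ⟨0, 1, 0, 1040187392⟩, ⟨1, 0, 0, 1040187392⟩, ⟨1, 1, 0, 83886080⟩]] true 1 c0F cB012R gF0q0 gF0q2 gF1q1 gF2q1 false true)) t 1 16 1 = true :=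
  ex3_b B012R_001_1_32_1 B012R_001_1_33_1
theorem B012R_001_1_8_1 :
    ∃ t, chk3 (onCell 0 50331648 0 1073741824 50331648 16777216 (corTK [[⟨0, 0, 1, 25165824⟩, ⟨1, 1, 2, 25165824⟩, ⟨2, 1, 0, 8388608⟩, ⟨0, 0, 0, 83886080⟩, ⟨0, 1, 0, 1040187392⟩, ⟨1, 0, 0, 1040187392⟩, ⟨1, 1, 0, 83886080⟩]] true 1 c0F cB012R gF0q0 gF0q2 gF1q1 gF2q1 false true)) t 1 8 1 = true :=
  ex3_b B012R_001_1_16_1 B012R_001_1_17_1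
theorem B012R_001_1_4_1 :
    ∃ t, chk3 (onCell 0 50331648 0 1073741824 50331648 16777216 (corTK [[⟨0, 0, 1, 25165824⟩, ⟨1, 1, 2, 25165824⟩, ⟨2, 1, 0, 8388608⟩, ⟨0, 0, 0, 83886080⟩, ⟨0, 1, 0, 1040187392⟩, ⟨1, 0, 0, 1040187392⟩, ⟨1, 1, 0, 83886080⟩]] true 1 c0F cB012R gF0q0 gF0q2 gF1q1 gF2q1 false true)) t 1 4 1 = true :=
  ex3_b B012R_001_1_8_1 B012R_001_1_9_1
theorem B012R_001_1_2_1 :
    ∃ t, chk3 (onCell 0 50331648 0 1073741824 50331648 16777216 (corTK [[⟨0, 0, 1, 25165824⟩, ⟨1, 1, 2, 25165824⟩, ⟨2, 1, 0, 8388608⟩, ⟨0, 0, 0, 83886080⟩, ⟨0, 1, 0, 1040187392⟩, ⟨1, 0, 0, 1040187392⟩, ⟨1, 1, 0, 83886080⟩]] true 1 c0F cB012R gF0q0 gF0q2 gF1q1 gF2q1 false true)) t 1 2 1 = true :=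
  ex3_b B012R_001_1_4_1 B012R_001_1_5_1
theorem B012R_001 :
    ∃ t, chk3 (onCell 0 50331648 0 1073741824 50331648 16777216 (corTK [[⟨0, 0, 1, 25165824⟩, ⟨1, 1, 2, 25165824⟩, ⟨2, 1, 0, 8388608⟩, ⟨0, 0, 0, 83886080⟩, ⟨0, 1, 0, 1040187392⟩, ⟨1, 0, 0, 1040187392⟩, ⟨1, 1, 0, 83886080⟩]] true 1 c0F cB012R gF0q0 gF0q2 gF1q1 gF2q1 false true)) t 1 1 1 = true :=
  ex3_b B012R_001_1_2_1 B012R_001_1_3_1

def B012R_002 :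
    ∃ t, chk3 (onCell 0 50331648 0 1073741824 50331648 16777216 (corTK [[⟨0, 0, 1, 25165824⟩, ⟨1, 1, 2, 25165824⟩, ⟨2, 1, 0, 8388608⟩, ⟨0, 0, 0, 83886080⟩, ⟨0, 1, 0, 1040187392⟩, ⟨1, 0, 0, 1040187392⟩, ⟨1, 1, 0, 83886080⟩]] true 1 c0F cB012R gF0q0 gF0q2 gF2q1 gF3q1 true true)) t 1 1 1 = true :=
  ⟨(T.b (T.b (T.b (T.b (T.b (T.b (T.b (T.b (T.a (T.c (T.a (T.l 204) (T.b (T.c (T.b (T.a (T.a (T.l 204) (T.a (T.l 204) (T.l 204))) (T.c (T.b (T.a (T.a (T.l 204) (T.l 204)) (T.a (T.l 476) (T.l 476))) (T.l 1)) (T.b (T.a (T.a (T.l 204) (T.l 204)) (T.a (T.l 460) (T.l 476))) (T.l 1)))) (T.l 1)) (T.b (T.a (T.a (T.l 204) (T.a (T.l 204) (T.l 204))) (T.c (T.b (T.a (T.a (T.l 204) (T.l 204)) (T.a (T.l 460) (T.l 460))) (T.l 1)) (T.b (T.a (T.a (T.l 204) (T.l 204)) (T.a (T.l 460) (T.l 460))) (T.l 1)))) (T.l 1))) (T.l 1)))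 (T.a (T.l 204) (T.b (T.c (T.b (T.a (T.a (T.l 204) (T.a (T.l 460) (T.l 460))) (T.c (T.b (T.a (T.a (T.l 204) (T.l 460)) (T.a (T.l 460) (T.l 460))) (T.l 1)) (T.b (T.a (T.a (T.l 204) (T.l 460)) (T.a (T.l 460) (T.l 460))) (T.l 1)))) (T.l 1)) (T.b (T.a (T.a (T.l 204) (T.a (T.c (T.l 460) (T.l 460)) (T.l 460))) (T.c (T.b (T.a (T.a (T.l 204) (T.l 460)) (T.a (T.l 460) (T.l 460))) (T.l 1)) (T.b (T.a (T.a (T.l 204) (T.l 460)) (T.a (T.l 460) (T.l 460))) (T.l 1)))) (T.l 1))) (T.l 1)))) (T.c (T.a (T.b (T.c (T.b (T.a (T.c (T.b (T.a (T.a (T.l 476) (T.l 476)) (T.c (T.b (T.a (T.a (T.l 476) (T.l 476)) (T.a (T.l 476) (T.l 476))) (T.l 1)) (T.b (T.a (T.a (T.l 476) (T.l 476)) (T.a (T.l 476) (T.l 476))) (T.l 1)))) (T.l 1)) (T.b (T.a (T.a (T.l 476) (T.l 476)) (T.c (T.b (T.a (T.a (T.l 476) (T.l 476)) (T.a (T.l 476) (T.l 476)))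 (T.l 1)) (T.b (T.a (T.a (T.l 476) (T.l 476)) (T.a (T.l 476) (T.l 476))) (T.l 1)))) (T.l 1))) (T.a (T.c (T.b (T.c (T.b (T.a (T.a (T.l 476) (T.l 476)) (T.a (T.a (T.l 476) (T.l 476)) (T.l 1024))) (T.l 1)) (T.b (T.a (T.a (T.l 476) (T.l 476)) (T.a (T.a (T.l 476) (T.l 476)) (T.l 1024))) (T.l 1))) (T.l 1)) (T.b (T.c (T.b (T.a (T.a (T.l 476) (T.l 476)) (T.a (T.a (T.l 476) (T.l 476)) (T.l 1024))) (T.l 1)) (T.b (T.a (T.a (T.l 476) (T.l 476)) (T.a (T.a (T.l 476) (T.l 476)) (T.l 1024))) (T.l 1))) (T.l 1))) (T.l 1024))) (T.l 1)) (T.b (T.a (T.c (T.b (T.a (T.a (T.l 476) (T.l 476)) (T.c (T.b (T.a (T.a (T.l 476) (T.l 476)) (T.a (T.l 476) (T.l 476))) (T.l 1)) (T.b (T.a (T.a (T.l 476) (T.l 476)) (T.a (T.l 476) (T.l 476))) (T.l 1)))) (T.l 1)) (T.b (T.a (T.a (T.l 476) (T.l 476)) (T.c (T.b (T.a (T.a (T.l 476) (T.l 476))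 (T.a (T.l 476) (T.l 476))) (T.l 1)) (T.b (T.a (T.a (T.l 460) (T.l 476)) (T.a (T.l 476) (T.l 476))) (T.l 1)))) (T.l 1))) (T.a (T.c (T.b (T.c (T.b (T.a (T.a (T.l 476) (T.l 476)) (T.a (T.a (T.l 476) (T.l 476)) (T.l 1024))) (T.l 1)) (T.b (T.a (T.a (T.l 476) (T.l 476)) (T.a (T.a (T.l 476) (T.l 476)) (T.l 1024))) (T.l 1))) (T.l 1)) (T.b (T.c (T.b (T.a (T.a (T.l 476) (T.l 476)) (T.a (T.a (T.l 476) (T.l 476)) (T.l 1024))) (T.l 1)) (T.b (T.a (T.a (T.l 476) (T.l 476)) (T.a (T.a (T.l 476) (T.l 476)) (T.l 1024))) (T.l 1))) (T.l 1))) (T.l 1024))) (T.l 1))) (T.l 1)) (T.l 1024)) (T.b (T.a (T.c (T.b (T.a (T.c (T.b (T.a (T.a (T.l 460) (T.l 476)) (T.c (T.b (T.a (T.a (T.l 460) (T.l 476)) (T.a (T.l 476) (T.l 476))) (T.l 1)) (T.b (T.a (T.a (T.l 460) (T.l 460)) (T.a (T.l 476) (T.l 476))) (T.l 1)))) (T.l 1)) (T.b (T.a (T.a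 (T.l 460) (T.l 460)) (T.c (T.b (T.a (T.a (T.l 460) (T.l 460)) (T.l 476)) (T.l 1)) (T.b (T.a (T.l 476) (T.l 476)) (T.l 1)))) (T.l 1))) (T.c (T.b (T.a (T.c (T.b (T.a (T.l 476) (T.a (T.l 476) (T.l 476))) (T.l 1)) (T.b (T.a (T.l 476) (T.a (T.l 476) (T.l 476))) (T.l 1))) (T.a (T.a (T.l 476) (T.l 476)) (T.l 1024))) (T.l 1)) (T.b (T.a (T.c (T.a (T.l 476) (T.a (T.l 476) (T.l 476))) (T.a (T.l 476) (T.a (T.l 476) (T.l 476)))) (T.c (T.b (T.a (T.a (T.l 476) (T.l 476)) (T.a (T.l 476) (T.l 1024))) (T.l 1)) (T.b (T.a (T.a (T.l 476) (T.l 476)) (T.a (T.l 476) (T.l 476))) (T.l 1)))) (T.l 1)))) (T.l 1)) (T.b (T.a (T.c (T.b (T.a (T.a (T.l 460) (T.l 460)) (T.c (T.a (T.a (T.l 460) (T.l 460)) (T.l 476)) (T.a (T.a (T.l 460) (T.l 460)) (T.l 476)))) (T.l 1)) (T.b (T.a (T.a (T.l 460) (T.l 460)) (T.c (T.a (T.l 460) (T.l 476))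 (T.a (T.l 460) (T.l 476)))) (T.l 1))) (T.c (T.b (T.a (T.c (T.a (T.l 476) (T.a (T.l 476) (T.l 476))) (T.a (T.l 476) (T.a (T.l 476) (T.l 476)))) (T.c (T.b (T.a (T.a (T.l 476) (T.l 476)) (T.a (T.l 476) (T.l 476))) (T.l 1)) (T.b (T.a (T.a (T.l 476) (T.l 476)) (T.a (T.l 476) (T.l 476))) (T.l 1)))) (T.l 1)) (T.b (T.a (T.a (T.l 476) (T.a (T.l 476) (T.l 476))) (T.c (T.b (T.a (T.a (T.l 476) (T.l 476)) (T.a (T.l 476) (T.l 476))) (T.l 1)) (T.b (T.a (T.a (T.l 476) (T.l 476)) (T.a (T.l 476) (T.l 476))) (T.l 1)))) (T.l 1)))) (T.l 1))) (T.a (T.c (T.a (T.a (T.c (T.l 1024) (T.a (T.b (T.c (T.l 1024) (T.l 476)) (T.l 1)) (T.l 1024))) (T.l 1024)) (T.l 1024)) (T.b (T.c (T.a (T.b (T.c (T.a (T.a (T.l 476) (T.l 476)) (T.l 1024)) (T.b (T.a (T.a (T.l 476) (T.l 476)) (T.a (T.l 476) (T.l 1024))) (T.l 1))) (T.l 1)) (T.l 1024))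 (T.b (T.a (T.c (T.b (T.a (T.a (T.l 476) (T.l 476)) (T.a (T.l 476) (T.l 476))) (T.l 1)) (T.b (T.a (T.a (T.l 476) (T.l 476)) (T.a (T.l 476) (T.l 476))) (T.l 1))) (T.a (T.a (T.l 476) (T.l 476)) (T.l 1024))) (T.l 1))) (T.l 1))) (T.l 1024))) (T.l 1)))) (T.l 1)) (T.l 1)) (T.l 1)) (T.l 1)) (T.l 1)) (T.l 1)) (T.l 1)) (T.l 1)), by decide +kernel⟩

def B012R_003 :
    ∃ t, chk3 (onCell 0 50331648 0 1073741824 50331648 16777216 (corTK [[⟨0, 0, 1, 25165824⟩, ⟨1, 1, 2, 25165824⟩, ⟨2, 1, 0, 8388608⟩, ⟨0, 0, 0, 83886080⟩, ⟨0, 1, 0, 1040187392⟩, ⟨1, 0, 0, 1040187392⟩, ⟨1, 1, 0, 83886080⟩]] true 1 c0F cB012R gF0q0 gF0q2 gF3q1 gF4q1 true true)) t 1 1 1 = true :=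
  ⟨(T.b (T.l 1) (T.l 1)), by decide +kernel⟩

def B012R_011_1_32_1 :
    ∃ t, chk3 (onCell 0 50331648 0 1073741824 50331648 16777216 (corTK [[⟨0, 0, 1, 33554432⟩, ⟨1, 1, 2, 33554432⟩, ⟨2, 1, 0, 16777216⟩, ⟨0, 0, 0, 83886080⟩, ⟨0, 1, 0, 1040187392⟩, ⟨1, 0, 0, 1040187392⟩, ⟨1, 1, 0, 83886080⟩]] true 1 c0F cB012R gF0q0 gF1q2 gF1q1 gF2q1 false true)) t 1 32 1 = true :=
  ⟨(T.b (T.b (T.b (T.a (T.a (T.l 204) (T.c (T.b (T.c (T.b (T.a (T.a (T.l 204) (T.a (T.l 204) (T.l 204))) (T.a (T.a (T.l 204) (T.l 204)) (T.a (T.l 476) (T.l 476)))) (T.a (T.a (T.l 204) (T.a (T.l 204) (T.l 204))) (T.a (T.a (T.l 204) (T.l 204)) (T.a (T.l 476) (T.l 476))))) (T.b (T.a (T.a (T.l 204) (T.a (T.l 204) (T.l 204))) (T.a (T.a (T.l 204) (T.l 204)) (T.a (T.l 460) (T.l 476)))) (T.a (T.a (T.l 204) (T.a (T.l 204) (T.l 204))) (T.a (T.a (T.l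 204) (T.l 204)) (T.a (T.l 460) (T.l 460)))))) (T.a (T.a (T.l 204) (T.a (T.l 204) (T.l 204))) (T.a (T.a (T.l 204) (T.l 460)) (T.a (T.l 476) (T.l 476))))) (T.b (T.c (T.b (T.a (T.a (T.l 204) (T.a (T.l 204) (T.l 204))) (T.a (T.a (T.l 204) (T.l 460)) (T.a (T.l 460) (T.l 460)))) (T.a (T.a (T.l 204) (T.a (T.l 204) (T.l 204))) (T.a (T.a (T.l 204) (T.l 204)) (T.a (T.l 460) (T.l 460))))) (T.b (T.a (T.a (T.l 204) (T.a (T.l 204) (T.l 204))) (T.a (T.a (T.l 204) (T.l 460)) (T.a (T.l 460) (T.l 460)))) (T.a (T.a (T.l 204) (T.a (T.l 204) (T.l 204))) (T.a (T.a (T.l 204) (T.l 204)) (T.a (T.l 460) (T.l 460)))))) (T.a (T.a (T.l 204) (T.a (T.l 460) (T.l 204))) (T.a (T.a (T.l 460) (T.l 460)) (T.a (T.l 460) (T.l 460))))))) (T.a (T.c (T.b (T.c (T.b (T.a (T.a (T.a (T.l 476) (T.c (T.l 476) (T.l 476))) (T.a (T.a (T.l 476) (T.l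 476)) (T.a (T.l 476) (T.l 476)))) (T.a (T.a (T.a (T.l 476) (T.l 476)) (T.a (T.a (T.l 476) (T.l 476)) (T.l 1024))) (T.l 1024))) (T.a (T.a (T.a (T.l 476) (T.l 476)) (T.a (T.a (T.l 476) (T.l 476)) (T.a (T.l 476) (T.l 476)))) (T.a (T.a (T.a (T.l 476) (T.l 476)) (T.a (T.a (T.l 476) (T.l 476)) (T.l 1024))) (T.l 1024)))) (T.b (T.a (T.a (T.a (T.l 476) (T.l 476)) (T.a (T.a (T.l 476) (T.l 476)) (T.a (T.l 476) (T.l 476)))) (T.a (T.a (T.a (T.l 476) (T.l 476)) (T.a (T.a (T.l 476) (T.l 476)) (T.l 1024))) (T.l 1024))) (T.a (T.a (T.a (T.l 476) (T.l 476)) (T.a (T.c (T.l 476) (T.l 476)) (T.c (T.l 476) (T.l 476)))) (T.a (T.a (T.c (T.l 476) (T.l 476)) (T.a (T.c (T.l 476) (T.l 476)) (T.l 1024))) (T.l 1024))))) (T.a (T.a (T.a (T.l 476) (T.l 476)) (T.a (T.a (T.l 476) (T.l 476)) (T.a (T.l 476) (T.l 476)))) (T.a (T.a (T.a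 (T.l 476) (T.l 476)) (T.a (T.a (T.l 476) (T.l 476)) (T.l 1024))) (T.l 1024)))) (T.b (T.c (T.b (T.a (T.a (T.a (T.l 460) (T.l 476)) (T.a (T.a (T.l 460) (T.l 476)) (T.a (T.l 476) (T.l 476)))) (T.a (T.a (T.a (T.l 476) (T.l 476)) (T.a (T.a (T.l 476) (T.l 476)) (T.l 1024))) (T.l 1024))) (T.a (T.a (T.a (T.l 460) (T.l 460)) (T.a (T.c (T.l 476) (T.l 476)) (T.c (T.l 476) (T.l 476)))) (T.a (T.a (T.c (T.l 476) (T.l 476)) (T.a (T.c (T.l 476) (T.l 476)) (T.l 1024))) (T.l 1024)))) (T.b (T.a (T.a (T.a (T.l 460) (T.l 460)) (T.a (T.a (T.l 460) (T.l 460)) (T.c (T.l 476) (T.l 476)))) (T.a (T.a (T.c (T.l 476) (T.l 476)) (T.a (T.c (T.l 476) (T.l 476)) (T.l 1024))) (T.l 1024))) (T.a (T.a (T.a (T.l 460) (T.l 460)) (T.a (T.c (T.l 460) (T.l 460)) (T.l 476))) (T.a (T.a (T.l 476) (T.a (T.l 476) (T.l 1024))) (T.l 1024))))) (T.a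 (T.a (T.a (T.l 460) (T.l 460)) (T.a (T.a (T.l 460) (T.l 460)) (T.c (T.l 476) (T.l 476)))) (T.a (T.a (T.c (T.l 476) (T.l 476)) (T.a (T.c (T.l 476) (T.l 476)) (T.l 1024))) (T.l 1024))))) (T.l 1024))) (T.a (T.a (T.l 204) (T.a (T.a (T.l 204) (T.a (T.c (T.l 204) (T.l 460)) (T.c (T.l 204) (T.l 204)))) (T.a (T.a (T.c (T.l 204) (T.l 204)) (T.c (T.l 204) (T.l 460))) (T.a (T.c (T.l 460) (T.l 460)) (T.c (T.l 476) (T.l 460)))))) (T.a (T.a (T.a (T.a (T.c (T.l 476) (T.l 460)) (T.c (T.l 476) (T.l 460))) (T.a (T.a (T.l 476) (T.c (T.l 476) (T.l 460))) (T.c (T.c (T.l 476) (T.l 476)) (T.c (T.l 460) (T.l 460))))) (T.a (T.a (T.c (T.c (T.l 476) (T.l 476)) (T.c (T.l 476) (T.l 460))) (T.a (T.a (T.l 476) (T.c (T.l 476) (T.l 476))) (T.a (T.c (T.l 476) (T.l 476)) (T.l 1024)))) (T.l 1024))) (T.l 1024)))) (T.b (T.a (T.a (T.l 204)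 (T.a (T.a (T.l 204) (T.a (T.l 460) (T.l 460))) (T.a (T.a (T.l 460) (T.l 460)) (T.a (T.l 460) (T.l 460))))) (T.a (T.a (T.a (T.a (T.l 460) (T.l 476)) (T.a (T.c (T.l 460) (T.l 460)) (T.c (T.l 460) (T.l 460)))) (T.a (T.a (T.c (T.l 476) (T.l 460)) (T.a (T.l 476) (T.c (T.l 476) (T.l 460)))) (T.l 1024))) (T.l 1024))) (T.a (T.a (T.l 204) (T.a (T.a (T.l 204) (T.a (T.l 204) (T.l 204))) (T.a (T.a (T.l 204) (T.l 204)) (T.a (T.l 460) (T.l 460))))) (T.a (T.a (T.a (T.a (T.l 460) (T.l 460)) (T.a (T.c (T.l 460) (T.l 460)) (T.c (T.l 460) (T.l 460)))) (T.a (T.a (T.c (T.l 460) (T.l 460)) (T.a (T.l 460) (T.l 460))) (T.l 1024))) (T.l 1024))))) (T.b (T.b (T.a (T.a (T.l 204) (T.a (T.a (T.l 204) (T.a (T.l 204) (T.l 204))) (T.a (T.a (T.l 204) (T.l 204)) (T.a (T.l 204) (T.l 204))))) (T.a (T.a (T.a (T.c (T.l 460) (T.l 460)) (T.a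 (T.l 460) (T.l 460))) (T.a (T.a (T.l 460) (T.a (T.l 460) (T.l 460))) (T.l 1024))) (T.l 1024))) (T.a (T.a (T.l 204) (T.a (T.a (T.l 204) (T.a (T.l 204) (T.l 204))) (T.a (T.a (T.l 204) (T.l 204)) (T.c (T.l 460) (T.l 460))))) (T.a (T.a (T.a (T.c (T.l 460) (T.l 460)) (T.a (T.l 460) (T.l 460))) (T.a (T.a (T.l 460) (T.a (T.l 460) (T.l 460))) (T.l 1024))) (T.l 1024)))) (T.b (T.a (T.a (T.l 204) (T.a (T.a (T.l 204) (T.a (T.l 204) (T.l 204))) (T.a (T.c (T.l 460) (T.l 460)) (T.c (T.l 460) (T.l 460))))) (T.a (T.a (T.a (T.l 460) (T.c (T.l 460) (T.l 460))) (T.a (T.a (T.l 460) (T.c (T.l 460) (T.l 460))) (T.l 1024))) (T.l 1024))) (T.a (T.a (T.l 204) (T.a (T.a (T.l 204) (T.a (T.l 204) (T.l 204))) (T.a (T.c (T.l 460) (T.l 460)) (T.l 460)))) (T.a (T.a (T.a (T.l 460) (T.c (T.l 460) (T.l 460))) (T.a (T.a (T.l 460) (T.c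 (T.l 460) (T.l 460))) (T.a (T.c (T.l 460) (T.l 460)) (T.l 1024)))) (T.l 1024)))))), by decide +kernel⟩

def B012R_011_1_33_1 :
    ∃ t, chk3 (onCell 0 50331648 0 1073741824 50331648 16777216 (corTK [[⟨0, 0, 1, 33554432⟩, ⟨1, 1, 2, 33554432⟩, ⟨2, 1, 0, 16777216⟩, ⟨0, 0, 0, 83886080⟩, ⟨0, 1, 0, 1040187392⟩, ⟨1, 0, 0, 1040187392⟩, ⟨1, 1, 0, 83886080⟩]] true 1 c0F cB012R gF0q0 gF1q2 gF1q1 gF2q1 false true)) t 1 33 1 = true :=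
  ⟨(T.b (T.b (T.b (T.a (T.a (T.l 204) (T.a (T.a (T.l 204) (T.a (T.l 204) (T.l 204))) (T.a (T.c (T.l 204) (T.l 204)) (T.l 460)))) (T.a (T.a (T.a (T.l 460) (T.c (T.l 460) (T.l 460))) (T.a (T.l 460) (T.a (T.l 460) (T.l 1024)))) (T.l 1024))) (T.a (T.a (T.l 204) (T.a (T.a (T.l 204) (T.c (T.l 460) (T.l 460))) (T.a (T.l 460) (T.l 460)))) (T.a (T.a (T.a (T.l 460) (T.l 460)) (T.a (T.l 460) (T.a (T.l 460) (T.l 1024)))) (T.l 1024)))) (T.b (T.a (T.a (T.l 204) (T.a (T.a (T.l 204) (T.c (T.l 204) (T.l 460))) (T.a (T.l 460) (T.l 460)))) (T.a (T.a (T.a (T.l 460) (T.l 460)) (T.a (T.l 460) (T.a (T.l 460) (T.l 1024)))) (T.l 1024))) (T.a (T.a (T.l 204) (T.a (T.a (T.l 204) (T.c (T.l 204) (T.l 204))) (T.a (T.l 460) (T.l 204)))) (T.a (T.a (T.a (T.l 204) (T.l 460)) (T.a (T.l 460) (T.a (T.l 460) (T.l 1024)))) (T.l 1024)))))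 (T.b (T.b (T.a (T.a (T.l 204) (T.a (T.a (T.l 204) (T.l 460)) (T.a (T.l 204) (T.l 204)))) (T.a (T.a (T.a (T.l 204) (T.l 460)) (T.a (T.l 460) (T.a (T.l 460) (T.l 1024)))) (T.l 1024))) (T.a (T.a (T.l 204) (T.a (T.a (T.l 204) (T.l 460)) (T.a (T.l 204) (T.l 204)))) (T.a (T.a (T.a (T.l 204) (T.l 460)) (T.a (T.l 460) (T.a (T.l 460) (T.l 1024)))) (T.l 1024)))) (T.b (T.a (T.a (T.l 204) (T.a (T.a (T.l 204) (T.l 460)) (T.a (T.l 204) (T.l 204)))) (T.a (T.a (T.a (T.l 204) (T.l 460)) (T.a (T.l 204) (T.a (T.l 460) (T.l 1024)))) (T.l 1024))) (T.a (T.a (T.l 204) (T.a (T.a (T.l 204) (T.l 204)) (T.a (T.l 204) (T.l 204)))) (T.a (T.a (T.a (T.l 204) (T.l 204)) (T.a (T.l 204) (T.a (T.l 204) (T.l 1024)))) (T.l 1024)))))), by decide +kernel⟩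

def B012R_011_1_17_1 :
    ∃ t, chk3 (onCell 0 50331648 0 1073741824 50331648 16777216 (corTK [[⟨0, 0, 1, 33554432⟩, ⟨1, 1, 2, 33554432⟩, ⟨2, 1, 0, 16777216⟩, ⟨0, 0, 0, 83886080⟩, ⟨0, 1, 0, 1040187392⟩, ⟨1, 0, 0, 1040187392⟩, ⟨1, 1, 0, 83886080⟩]] true 1 c0F cB012R gF0q0 gF1q2 gF1q1 gF2q1 false true)) t 1 17 1 = true :=
  ⟨(T.b (T.b (T.b (T.b (T.a (T.a (T.l 204) (T.a (T.a (T.l 204) (T.l 204)) (T.a (T.l 204) (T.l 204)))) (T.a (T.a (T.a (T.l 204) (T.l 204)) (T.a (T.l 204) (T.a (T.l 204) (T.l 1024)))) (T.l 1024))) (T.a (T.a (T.l 204) (T.a (T.a (T.l 204) (T.l 204)) (T.a (T.l 204) (T.l 204)))) (T.a (T.a (T.a (T.l 204) (T.l 204)) (T.a (T.l 204) (T.c (T.l 460) (T.l 460)))) (T.l 1024)))) (T.b (T.a (T.a (T.l 204) (T.a (T.a (T.l 204) (T.l 204)) (T.a (T.l 204) (T.l 204)))) (T.a (T.a (T.a (T.l 204) (T.l 204))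 (T.a (T.l 204) (T.c (T.l 460) (T.l 460)))) (T.l 1024))) (T.a (T.a (T.l 204) (T.a (T.a (T.l 204) (T.l 204)) (T.a (T.l 204) (T.l 204)))) (T.a (T.a (T.a (T.l 204) (T.l 204)) (T.a (T.l 204) (T.c (T.l 460) (T.l 460)))) (T.l 1024))))) (T.b (T.a (T.a (T.l 204) (T.a (T.a (T.l 204) (T.l 204)) (T.a (T.l 204) (T.l 204)))) (T.a (T.a (T.a (T.l 204) (T.l 204)) (T.a (T.l 204) (T.c (T.l 460) (T.l 460)))) (T.l 1024))) (T.a (T.a (T.l 204) (T.a (T.a (T.l 204) (T.l 204)) (T.a (T.l 204) (T.l 204)))) (T.a (T.a (T.c (T.l 460) (T.l 460)) (T.a (T.l 204) (T.c (T.l 460) (T.l 460)))) (T.l 1024))))) (T.b (T.b (T.a (T.a (T.l 204) (T.a (T.a (T.l 204) (T.l 204)) (T.c (T.l 460) (T.l 460)))) (T.a (T.a (T.c (T.l 460) (T.l 460)) (T.a (T.l 204) (T.c (T.l 460) (T.l 460)))) (T.l 1024))) (T.a (T.a (T.l 204) (T.a (T.a (T.l 204) (T.l 204))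 (T.c (T.l 460) (T.l 460)))) (T.a (T.a (T.c (T.l 460) (T.l 460)) (T.a (T.l 204) (T.c (T.l 460) (T.l 460)))) (T.l 1024)))) (T.b (T.a (T.a (T.l 204) (T.a (T.a (T.l 204) (T.l 204)) (T.c (T.l 460) (T.l 460)))) (T.a (T.a (T.c (T.l 460) (T.l 460)) (T.a (T.l 204) (T.c (T.l 460) (T.l 460)))) (T.a (T.a (T.l 460) (T.l 1024)) (T.l 1024)))) (T.a (T.a (T.l 204) (T.a (T.a (T.l 204) (T.l 204)) (T.c (T.l 460) (T.l 460)))) (T.a (T.a (T.c (T.l 460) (T.l 460)) (T.l 460)) (T.a (T.a (T.l 460) (T.l 1024)) (T.l 1024))))))), by decide +kernel⟩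

def B012R_011_1_9_1 :
    ∃ t, chk3 (onCell 0 50331648 0 1073741824 50331648 16777216 (corTK [[⟨0, 0, 1, 33554432⟩, ⟨1, 1, 2, 33554432⟩, ⟨2, 1, 0, 16777216⟩, ⟨0, 0, 0, 83886080⟩, ⟨0, 1, 0, 1040187392⟩, ⟨1, 0, 0, 1040187392⟩, ⟨1, 1, 0, 83886080⟩]] true 1 c0F cB012R gF0q0 gF1q2 gF1q1 gF2q1 false true)) t 1 9 1 = true :=
  ⟨(T.b (T.b (T.b (T.b (T.a (T.a (T.l 204) (T.a (T.a (T.l 204) (T.l 204)) (T.l 460))) (T.a (T.a (T.l 460) (T.l 460)) (T.a (T.a (T.l 460) (T.l 1024)) (T.l 1024)))) (T.a (T.a (T.l 204) (T.a (T.a (T.l 204) (T.l 204)) (T.l 460))) (T.a (T.a (T.l 460) (T.l 204)) (T.a (T.a (T.l 460) (T.l 1024)) (T.l 1024))))) (T.b (T.a (T.a (T.l 204) (T.a (T.a (T.l 204) (T.l 204)) (T.l 460))) (T.a (T.a (T.l 460) (T.l 204)) (T.a (T.a (T.l 460) (T.l 1024)) (T.l 1024)))) (T.a (T.a (T.l 204) (T.a (T.l 204) (T.l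 460))) (T.a (T.a (T.l 460) (T.l 204)) (T.a (T.a (T.l 460) (T.l 1024)) (T.l 1024)))))) (T.b (T.b (T.a (T.a (T.l 204) (T.a (T.l 204) (T.l 460))) (T.a (T.a (T.l 460) (T.l 204)) (T.a (T.a (T.l 204) (T.l 1024)) (T.l 1024)))) (T.a (T.a (T.l 204) (T.a (T.l 204) (T.l 204))) (T.a (T.a (T.l 460) (T.l 204)) (T.a (T.a (T.l 204) (T.l 1024)) (T.l 1024))))) (T.b (T.a (T.a (T.l 204) (T.a (T.l 204) (T.l 204))) (T.a (T.a (T.l 204) (T.l 204)) (T.a (T.a (T.l 204) (T.l 204)) (T.l 1024)))) (T.a (T.a (T.l 204) (T.a (T.l 204) (T.l 204))) (T.a (T.a (T.l 204) (T.l 204)) (T.a (T.a (T.l 204) (T.l 204)) (T.l 1024))))))) (T.b (T.b (T.a (T.a (T.l 204) (T.a (T.l 204) (T.l 204))) (T.a (T.a (T.l 204) (T.l 204)) (T.a (T.a (T.l 204) (T.l 204)) (T.l 1024)))) (T.a (T.a (T.l 204) (T.a (T.l 204) (T.l 204))) (T.a (T.a (T.l 204) (T.l 204))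 (T.a (T.a (T.l 204) (T.l 204)) (T.l 1024))))) (T.b (T.a (T.a (T.l 204) (T.a (T.l 204) (T.l 204))) (T.a (T.a (T.l 204) (T.l 204)) (T.a (T.a (T.l 204) (T.l 204)) (T.l 1024)))) (T.a (T.a (T.l 204) (T.a (T.l 204) (T.l 204))) (T.a (T.a (T.l 204) (T.l 204)) (T.a (T.a (T.l 204) (T.l 204)) (T.b (T.l 460) (T.l 460)))))))), by decide +kernel⟩

def B012R_011_1_5_1 :
    ∃ t, chk3 (onCell 0 50331648 0 1073741824 50331648 16777216 (corTK [[⟨0, 0, 1, 33554432⟩, ⟨1, 1, 2, 33554432⟩, ⟨2, 1, 0, 16777216⟩, ⟨0, 0, 0, 83886080⟩, ⟨0, 1, 0, 1040187392⟩, ⟨1, 0, 0, 1040187392⟩, ⟨1, 1, 0, 83886080⟩]] true 1 c0F cB012R gF0q0 gF1q2 gF1q1 gF2q1 false true)) t 1 5 1 = true :=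
  ⟨(T.b (T.b (T.b (T.b (T.a (T.a (T.l 204) (T.a (T.l 204) (T.l 204))) (T.a (T.a (T.l 204) (T.l 204)) (T.a (T.l 204) (T.b (T.l 460) (T.l 460))))) (T.a (T.a (T.l 204) (T.a (T.l 204) (T.l 204))) (T.a (T.a (T.l 204) (T.l 204)) (T.a (T.l 204) (T.b (T.l 460) (T.l 460)))))) (T.b (T.a (T.a (T.l 204) (T.a (T.l 204) (T.l 204))) (T.a (T.a (T.l 204) (T.l 204)) (T.a (T.l 204) (T.l 460)))) (T.a (T.a (T.l 204) (T.a (T.l 204) (T.l 204))) (T.a (T.a (T.l 204) (T.l 204)) (T.a (T.l 204) (T.l 460)))))) (T.b (T.b (T.a (T.a (T.l 204) (T.a (T.l 204) (T.l 204))) (T.a (T.a (T.l 204) (T.l 204)) (T.a (T.l 204) (T.l 460)))) (T.a (T.a (T.l 204) (T.a (T.l 204) (T.l 204))) (T.a (T.a (T.l 204) (T.l 204)) (T.a (T.l 204) (T.l 460))))) (T.a (T.a (T.l 204) (T.a (T.l 204) (T.l 204))) (T.a (T.a (T.l 204) (T.l 204)) (T.l 460))))) (T.a (T.a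 (T.l 204) (T.l 204)) (T.a (T.a (T.b (T.l 204) (T.l 204)) (T.b (T.l 204) (T.l 204))) (T.a (T.b (T.l 204) (T.l 204)) (T.l 460))))), by decide +kernel⟩

def B012R_011_1_3_1 :
    ∃ t, chk3 (onCell 0 50331648 0 1073741824 50331648 16777216 (corTK [[⟨0, 0, 1, 33554432⟩, ⟨1, 1, 2, 33554432⟩, ⟨2, 1, 0, 16777216⟩, ⟨0, 0, 0, 83886080⟩, ⟨0, 1, 0, 1040187392⟩, ⟨1, 0, 0, 1040187392⟩, ⟨1, 1, 0, 83886080⟩]] true 1 c0F cB012R gF0q0 gF1q2 gF1q1 gF2q1 false true)) t 1 3 1 = true :=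
  ⟨(T.b (T.a (T.a (T.l 204) (T.a (T.l 204) (T.b (T.l 204) (T.l 204)))) (T.a (T.b (T.a (T.l 204) (T.b (T.l 204) (T.l 204))) (T.b (T.l 460) (T.l 460))) (T.b (T.b (T.l 460) (T.l 460)) (T.b (T.l 460) (T.l 204))))) (T.a (T.a (T.l 204) (T.a (T.b (T.l 256) (T.l 256)) (T.b (T.l 204) (T.l 204)))) (T.a (T.a (T.b (T.l 204) (T.l 204)) (T.b (T.l 204) (T.l 204))) (T.b (T.l 460) (T.l 460))))), by decide +kernel⟩

theorem B012R_011_1_16_1 :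
    ∃ t, chk3 (onCell 0 50331648 0 1073741824 50331648 16777216 (corTK [[⟨0, 0, 1, 33554432⟩, ⟨1, 1, 2, 33554432⟩, ⟨2, 1, 0, 16777216⟩, ⟨0, 0, 0, 83886080⟩, ⟨0, 1, 0, 1040187392⟩, ⟨1, 0, 0, 1040187392⟩, ⟨1, 1, 0, 83886080⟩]] true 1 c0F cB012R gF0q0 gF1q2 gF1q1 gF2q1 false true)) t 1 16 1 = true :=
  ex3_b B012R_011_1_32_1 B012R_011_1_33_1
theorem B012R_011_1_8_1 :
    ∃ t, chk3 (onCell 0 50331648 0 1073741824 50331648 16777216 (corTK [[⟨0, 0, 1, 33554432⟩, ⟨1, 1, 2, 33554432⟩, ⟨2, 1, 0, 16777216⟩, ⟨0, 0, 0, 83886080⟩, ⟨0, 1, 0, 1040187392⟩, ⟨1, 0, 0, 1040187392⟩, ⟨1, 1, 0, 83886080⟩]] true 1 c0F cB012R gF0q0 gF1q2 gF1q1 gF2q1 false true)) t 1 8 1 = true :=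
  ex3_b B012R_011_1_16_1 B012R_011_1_17_1
theorem B012R_011_1_4_1 :
    ∃ t, chk3 (onCell 0 50331648 0 1073741824 50331648 16777216 (corTK [[⟨0, 0, 1, 33554432⟩, ⟨1, 1, 2, 33554432⟩, ⟨2, 1, 0, 16777216⟩, ⟨0, 0, 0, 83886080⟩, ⟨0, 1, 0, 1040187392⟩, ⟨1, 0, 0, 1040187392⟩, ⟨1, 1, 0, 83886080⟩]] true 1 c0F cB012R gF0q0 gF1q2 gF1q1 gF2q1 false true)) t 1 4 1 = true :=
  ex3_b B012R_011_1_8_1 B012R_011_1_9_1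
theorem B012R_011_1_2_1 :
    ∃ t, chk3 (onCell 0 50331648 0 1073741824 50331648 16777216 (corTK [[⟨0, 0, 1, 33554432⟩, ⟨1, 1, 2, 33554432⟩, ⟨2, 1, 0, 16777216⟩, ⟨0, 0, 0, 83886080⟩, ⟨0, 1, 0, 1040187392⟩, ⟨1, 0, 0, 1040187392⟩, ⟨1, 1, 0, 83886080⟩]] true 1 c0F cB012R gF0q0 gF1q2 gF1q1 gF2q1 false true)) t 1 2 1 = true :=
  ex3_b B012R_011_1_4_1 B012R_011_1_5_1
theorem B012R_011 :
    ∃ t, chk3 (onCell 0 50331648 0 1073741824 50331648 16777216 (corTK [[⟨0, 0, 1, 33554432⟩, ⟨1, 1, 2, 33554432⟩, ⟨2, 1, 0, 16777216⟩, ⟨0, 0, 0, 83886080⟩, ⟨0, 1, 0, 1040187392⟩, ⟨1, 0, 0, 1040187392⟩, ⟨1, 1, 0, 83886080⟩]] true 1 c0F cB012R gF0q0 gF1q2 gF1q1 gF2q1 false true)) t 1 1 1 = true :=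
  ex3_b B012R_011_1_2_1 B012R_011_1_3_1

def B012R_012 :
    ∃ t, chk3 (onCell 0 50331648 0 1073741824 50331648 16777216 (corTK [[⟨0, 0, 1, 33554432⟩, ⟨1, 1, 2, 33554432⟩, ⟨2, 1, 0, 16777216⟩, ⟨0, 0, 0, 83886080⟩, ⟨0, 1, 0, 1040187392⟩, ⟨1, 0, 0, 1040187392⟩, ⟨1, 1, 0, 83886080⟩]] true 1 c0F cB012R gF0q0 gF1q2 gF2q1 gF3q1 true true)) t 1 1 1 = true :=
  ⟨(T.b (T.b (T.b (T.b (T.b (T.b (T.b (T.b (T.a (T.a (T.l 204) (T.c (T.b (T.c (T.b (T.a (T.a (T.l 204) (T.a (T.l 204) (T.l 204))) (T.c (T.b (T.a (T.a (T.l 204) (T.l 204)) (T.a (T.l 220) (T.l 476))) (T.l 1)) (T.b (T.a (T.a (T.l 204) (T.l 204)) (T.a (T.l 460) (T.l 476))) (T.l 1)))) (T.l 1)) (T.b (T.a (T.a (T.l 204) (T.a (T.l 204) (T.l 204))) (T.c (T.b (T.a (T.a (T.l 204) (T.l 204)) (T.a (T.l 460) (T.l 460))) (T.l 1)) (T.b (T.a (T.a (T.l 204) (T.l 204))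 (T.a (T.l 460) (T.l 460))) (T.l 1)))) (T.l 1))) (T.l 1)) (T.b (T.c (T.b (T.a (T.a (T.l 204) (T.a (T.l 204) (T.l 204))) (T.c (T.b (T.a (T.a (T.l 204) (T.l 204)) (T.a (T.l 460) (T.l 460))) (T.l 1)) (T.b (T.a (T.a (T.l 204) (T.l 204)) (T.a (T.l 460) (T.l 460))) (T.l 1)))) (T.l 1)) (T.b (T.a (T.a (T.l 204) (T.a (T.l 460) (T.l 204))) (T.c (T.b (T.a (T.a (T.l 204) (T.l 204)) (T.a (T.l 460) (T.l 460))) (T.l 1)) (T.b (T.a (T.a (T.l 204) (T.l 204)) (T.a (T.l 460) (T.l 460))) (T.l 1)))) (T.l 1))) (T.l 1)))) (T.a (T.c (T.b (T.c (T.b (T.a (T.c (T.b (T.a (T.a (T.l 476) (T.l 476)) (T.c (T.b (T.a (T.a (T.l 476) (T.l 476)) (T.a (T.l 476) (T.l 476))) (T.l 1)) (T.b (T.a (T.a (T.l 476) (T.l 476)) (T.a (T.l 476) (T.l 476))) (T.l 1)))) (T.l 1)) (T.b (T.a (T.a (T.l 476) (T.l 476)) (T.c (T.b (T.a (T.a (T.l 476) (T.l 476))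 (T.a (T.l 476) (T.l 476))) (T.l 1)) (T.b (T.a (T.a (T.l 476) (T.l 476)) (T.a (T.l 476) (T.l 476))) (T.l 1)))) (T.l 1))) (T.a (T.c (T.b (T.c (T.b (T.a (T.a (T.l 476) (T.l 476)) (T.a (T.a (T.l 476) (T.l 476)) (T.l 1024))) (T.l 1)) (T.b (T.a (T.a (T.l 476) (T.l 476)) (T.a (T.a (T.l 476) (T.l 476)) (T.l 1024))) (T.l 1))) (T.l 1)) (T.b (T.c (T.b (T.a (T.a (T.l 476) (T.l 476)) (T.a (T.a (T.l 476) (T.l 476)) (T.l 1024))) (T.l 1)) (T.b (T.a (T.a (T.l 476) (T.l 476)) (T.a (T.a (T.l 476) (T.l 476)) (T.l 1024))) (T.l 1))) (T.l 1))) (T.l 1024))) (T.l 1)) (T.b (T.a (T.c (T.b (T.a (T.a (T.l 476) (T.l 476)) (T.c (T.b (T.a (T.a (T.l 476) (T.l 476)) (T.a (T.l 476) (T.l 476))) (T.l 1)) (T.b (T.a (T.a (T.l 476) (T.l 476)) (T.a (T.l 476) (T.l 476))) (T.l 1)))) (T.l 1)) (T.b (T.a (T.a (T.l 476) (T.l 476)) (T.c (T.b (T.a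 (T.a (T.l 476) (T.l 476)) (T.a (T.l 476) (T.l 476))) (T.l 1)) (T.a (T.l 476) (T.l 476)))) (T.l 1))) (T.a (T.c (T.b (T.c (T.b (T.a (T.a (T.l 476) (T.l 476)) (T.a (T.a (T.l 476) (T.l 476)) (T.l 1024))) (T.l 1)) (T.a (T.l 476) (T.a (T.a (T.l 476) (T.l 476)) (T.l 1024)))) (T.l 1)) (T.b (T.c (T.a (T.l 476) (T.a (T.a (T.l 476) (T.l 476)) (T.l 1024))) (T.a (T.l 476) (T.a (T.l 476) (T.l 1024)))) (T.l 1))) (T.l 1024))) (T.l 1))) (T.l 1)) (T.b (T.c (T.b (T.a (T.c (T.b (T.a (T.a (T.l 460) (T.l 476)) (T.c (T.a (T.l 476) (T.l 476)) (T.a (T.l 476) (T.l 476)))) (T.l 1)) (T.b (T.a (T.a (T.l 460) (T.l 460)) (T.c (T.a (T.l 476) (T.l 476)) (T.a (T.l 476) (T.l 476)))) (T.l 1))) (T.a (T.c (T.b (T.c (T.a (T.l 476) (T.a (T.l 476) (T.l 1024))) (T.a (T.l 476) (T.a (T.l 476) (T.l 1024)))) (T.l 1)) (T.a (T.l 476) (T.a (T.l 476)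 (T.l 1024)))) (T.l 1024))) (T.l 1)) (T.b (T.a (T.c (T.b (T.a (T.a (T.l 460) (T.l 460)) (T.a (T.a (T.l 460) (T.l 460)) (T.l 476))) (T.l 1)) (T.b (T.a (T.a (T.l 460) (T.l 460)) (T.a (T.l 460) (T.l 476))) (T.l 1))) (T.a (T.c (T.a (T.l 476) (T.a (T.l 476) (T.l 1024))) (T.a (T.l 476) (T.a (T.l 476) (T.l 1024)))) (T.l 1024))) (T.l 1))) (T.l 1))) (T.l 1024))) (T.l 1)) (T.l 1)) (T.l 1)) (T.l 1)) (T.l 1)) (T.l 1)) (T.l 1)) (T.l 1)), by decide +kernel⟩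

def B012R_013 :
    ∃ t, chk3 (onCell 0 50331648 0 1073741824 50331648 16777216 (corTK [[⟨0, 0, 1, 33554432⟩, ⟨1, 1, 2, 33554432⟩, ⟨2, 1, 0, 16777216⟩, ⟨0, 0, 0, 83886080⟩, ⟨0, 1, 0, 1040187392⟩, ⟨1, 0, 0, 1040187392⟩, ⟨1, 1, 0, 83886080⟩]] true 1 c0F cB012R gF0q0 gF1q2 gF3q1 gF4q1 true true)) t 1 1 1 = true :=
  ⟨(T.l 1), by decide +kernel⟩

def B012R_021_1_2_1 :
    ∃ t, chk3 (onCell 0 50331648 0 1073741824 50331648 16777216 (corTK [[⟨0, 0, 1, 33554432⟩, ⟨1, 1, 2, 33554432⟩, ⟨2, 1, 0, 16777216⟩, ⟨0, 0, 0, 83886080⟩, ⟨0, 1, 0, 1040187392⟩, ⟨1, 0, 0, 1040187392⟩, ⟨1, 1, 0, 83886080⟩]] true 1 c0F cB012R gF0q0 gF2q2 gF1q1 gF2q1 false true)) t 1 2 1 = true :=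
  ⟨(T.b (T.b (T.b (T.a (T.b (T.a (T.b (T.a (T.l 204) (T.l 204)) (T.l 204)) (T.b (T.a (T.a (T.l 204) (T.b (T.c (T.a (T.l 460) (T.l 460)) (T.a (T.c (T.l 460) (T.l 460)) (T.b (T.l 460) (T.l 204)))) (T.a (T.l 460) (T.l 460)))) (T.b (T.c (T.b (T.a (T.a (T.l 476) (T.l 476)) (T.a (T.c (T.l 476) (T.l 460)) (T.c (T.l 476) (T.l 476)))) (T.a (T.a (T.l 204) (T.l 204)) (T.a (T.l 460) (T.l 460)))) (T.b (T.a (T.a (T.l 460) (T.l 460)) (T.a (T.c (T.l 460) (T.l 460)) (T.c (T.l 460) (T.l 460)))) (T.a (T.a (T.l 204) (T.l 204)) (T.a (T.l 460) (T.l 460))))) (T.c (T.a (T.a (T.l 204) (T.l 204)) (T.a (T.l 204) (T.l 460))) (T.a (T.a (T.l 204) (T.l 204)) (T.a (T.l 204) (T.l 204)))))) (T.a (T.a (T.l 204) (T.a (T.l 204) (T.l 204))) (T.a (T.a (T.l 204) (T.l 460)) (T.a (T.l 460) (T.l 460)))))) (T.a (T.l 204) (T.b (T.a (T.a (T.l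 204) (T.a (T.l 204) (T.l 204))) (T.a (T.c (T.l 460) (T.l 460)) (T.b (T.l 460) (T.l 460)))) (T.a (T.a (T.l 204) (T.b (T.l 460) (T.l 204))) (T.a (T.l 460) (T.l 460)))))) (T.a (T.b (T.b (T.b (T.a (T.b (T.c (T.a (T.a (T.a (T.l 476) (T.l 476)) (T.a (T.l 476) (T.c (T.l 476) (T.l 476)))) (T.b (T.c (T.a (T.a (T.l 476) (T.l 476)) (T.a (T.l 476) (T.l 476))) (T.a (T.a (T.l 476) (T.l 476)) (T.a (T.l 476) (T.l 476)))) (T.a (T.a (T.l 476) (T.l 476)) (T.a (T.l 476) (T.l 476))))) (T.a (T.a (T.c (T.l 476) (T.l 460)) (T.c (T.l 476) (T.l 460))) (T.b (T.c (T.a (T.a (T.l 476) (T.l 476)) (T.a (T.l 476) (T.l 476))) (T.a (T.a (T.l 460) (T.l 460)) (T.c (T.l 476) (T.l 476)))) (T.a (T.c (T.l 460) (T.l 460)) (T.c (T.l 476) (T.l 460)))))) (T.c (T.a (T.a (T.l 460) (T.l 476)) (T.a (T.c (T.l 476) (T.l 460)) (T.c (T.l 476) (T.l 460))))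 (T.a (T.a (T.l 460) (T.l 460)) (T.a (T.c (T.l 460) (T.l 460)) (T.c (T.l 460) (T.l 460)))))) (T.a (T.b (T.c (T.b (T.c (T.a (T.a (T.c (T.l 476) (T.l 476)) (T.c (T.l 476) (T.l 476))) (T.a (T.a (T.l 476) (T.c (T.l 476) (T.l 476))) (T.l 1024))) (T.a (T.a (T.l 476) (T.l 476)) (T.a (T.a (T.l 476) (T.l 476)) (T.l 1024)))) (T.a (T.a (T.l 476) (T.l 476)) (T.a (T.a (T.l 476) (T.l 476)) (T.l 1024)))) (T.b (T.c (T.a (T.a (T.l 476) (T.l 476)) (T.a (T.a (T.l 476) (T.l 476)) (T.l 1024))) (T.a (T.c (T.l 476) (T.l 476)) (T.a (T.c (T.l 476) (T.l 476)) (T.l 1024)))) (T.a (T.c (T.l 476) (T.l 476)) (T.a (T.c (T.l 476) (T.l 476)) (T.l 1024))))) (T.c (T.a (T.c (T.l 476) (T.l 476)) (T.a (T.c (T.l 476) (T.l 476)) (T.c (T.l 476) (T.l 476)))) (T.a (T.c (T.l 460) (T.l 460)) (T.a (T.c (T.l 476) (T.l 460)) (T.c (T.l 476) (T.l 460))))))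 (T.l 1024))) (T.a (T.b (T.c (T.a (T.a (T.l 460) (T.l 460)) (T.a (T.l 460) (T.l 460))) (T.a (T.a (T.l 204) (T.l 460)) (T.a (T.l 460) (T.l 460)))) (T.a (T.a (T.l 460) (T.l 460)) (T.a (T.c (T.l 460) (T.l 460)) (T.c (T.l 460) (T.l 460))))) (T.a (T.a (T.c (T.l 460) (T.l 460)) (T.a (T.l 460) (T.c (T.b (T.l 460) (T.l 460)) (T.l 460)))) (T.l 1024)))) (T.a (T.a (T.a (T.l 460) (T.l 460)) (T.a (T.b (T.l 460) (T.l 460)) (T.b (T.l 460) (T.l 460)))) (T.b (T.a (T.a (T.l 460) (T.a (T.l 460) (T.l 460))) (T.l 1024)) (T.a (T.a (T.l 460) (T.a (T.l 204) (T.l 460))) (T.a (T.c (T.l 460) (T.l 460)) (T.l 1024)))))) (T.b (T.a (T.a (T.l 460) (T.c (T.l 460) (T.l 460))) (T.a (T.c (T.l 460) (T.l 460)) (T.a (T.a (T.l 460) (T.l 1024)) (T.l 1024)))) (T.a (T.a (T.l 460) (T.l 460)) (T.a (T.l 460) (T.a (T.b (T.l 460) (T.l 460)) (T.l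 1024)))))) (T.l 1024))) (T.a (T.a (T.l 204) (T.b (T.a (T.a (T.l 204) (T.b (T.l 204) (T.l 204))) (T.a (T.l 460) (T.l 460))) (T.a (T.a (T.l 204) (T.l 204)) (T.a (T.l 204) (T.l 204))))) (T.b (T.a (T.a (T.a (T.l 460) (T.l 460)) (T.a (T.l 460) (T.a (T.b (T.l 460) (T.l 204)) (T.b (T.l 460) (T.l 460))))) (T.l 1024)) (T.a (T.a (T.a (T.l 204) (T.l 204)) (T.a (T.l 204) (T.a (T.l 204) (T.l 460)))) (T.a (T.a (T.a (T.l 460) (T.l 1024)) (T.l 1024)) (T.l 1024)))))) (T.a (T.a (T.l 204) (T.b (T.a (T.a (T.l 204) (T.l 204)) (T.a (T.l 204) (T.l 204))) (T.a (T.l 204) (T.b (T.l 460) (T.l 204))))) (T.b (T.a (T.a (T.a (T.l 204) (T.l 204)) (T.b (T.l 460) (T.l 460))) (T.a (T.a (T.b (T.b (T.l 460) (T.l 460)) (T.b (T.l 460) (T.l 460))) (T.b (T.l 1024) (T.b (T.l 1024) (T.l 460)))) (T.l 1024))) (T.a (T.a (T.b (T.l 460) (T.l 204))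 (T.l 460)) (T.b (T.a (T.a (T.l 204) (T.b (T.l 460) (T.l 204))) (T.l 1024)) (T.a (T.a (T.l 204) (T.l 460)) (T.a (T.l 460) (T.l 1024)))))))) (T.a (T.a (T.l 0) (T.b (T.a (T.l 204) (T.b (T.l 460) (T.l 0))) (T.l 0))) (T.b (T.a (T.a (T.b (T.l 460) (T.l 204)) (T.b (T.l 204) (T.l 204))) (T.a (T.b (T.l 204) (T.l 204)) (T.b (T.a (T.b (T.l 460) (T.l 256)) (T.b (T.l 1024) (T.l 460))) (T.a (T.l 204) (T.b (T.l 256) (T.l 204)))))) (T.a (T.a (T.b (T.l 0) (T.l 0)) (T.b (T.l 0) (T.l 0))) (T.a (T.b (T.l 0) (T.l 0)) (T.b (T.l 0) (T.l 0))))))), by decide +kernel⟩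

def B012R_021_1_3_1 :
    ∃ t, chk3 (onCell 0 50331648 0 1073741824 50331648 16777216 (corTK [[⟨0, 0, 1, 33554432⟩, ⟨1, 1, 2, 33554432⟩, ⟨2, 1, 0, 16777216⟩, ⟨0, 0, 0, 83886080⟩, ⟨0, 1, 0, 1040187392⟩, ⟨1, 0, 0, 1040187392⟩, ⟨1, 1, 0, 83886080⟩]] true 1 c0F cB012R gF0q0 gF2q2 gF1q1 gF2q1 false true)) t 1 3 1 = true :=
  ⟨(T.a (T.a (T.b (T.l 816) (T.b (T.l 816) (T.b (T.l 816) (T.l 816)))) (T.b (T.a (T.l 0) (T.b (T.l 816) (T.b (T.l 816) (T.l 816)))) (T.a (T.a (T.b (T.l 816) (T.b (T.l 816) (T.l 816))) (T.b (T.l 880) (T.b (T.l 816) (T.b (T.l 816) (T.c (T.l 880) (T.l 816)))))) (T.b (T.a (T.l 880) (T.l 880)) (T.b (T.a (T.l 816) (T.l 816)) (T.a (T.b (T.l 816) (T.c (T.l 880) (T.l 816))) (T.b (T.l 816) (T.c (T.l 880) (T.l 816))))))))) (T.b (T.b (T.a (T.a (T.l 816) (T.b (T.l 0) (T.l 816))) (T.a (T.b (T.l 816)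 (T.l 816)) (T.b (T.l 816) (T.l 816)))) (T.a (T.a (T.b (T.l 816) (T.l 816)) (T.l 880)) (T.a (T.b (T.l 880) (T.l 816)) (T.b (T.a (T.l 816) (T.b (T.l 816) (T.b (T.l 880) (T.l 880)))) (T.a (T.b (T.b (T.l 816) (T.l 880)) (T.b (T.l 880) (T.l 880))) (T.b (T.b (T.l 880) (T.l 880)) (T.b (T.l 880) (T.l 880)))))))) (T.a (T.b (T.a (T.a (T.l 880) (T.l 880)) (T.b (T.l 880) (T.l 880))) (T.a (T.b (T.a (T.l 816) (T.l 880)) (T.a (T.b (T.l 816) (T.b (T.l 816) (T.l 880))) (T.b (T.l 880) (T.c (T.l 880) (T.l 880))))) (T.b (T.a (T.l 880) (T.a (T.b (T.l 816) (T.b (T.l 816) (T.b (T.l 880) (T.l 880)))) (T.b (T.b (T.l 880) (T.l 880)) (T.b (T.b (T.l 880) (T.l 880)) (T.b (T.l 880) (T.l 880)))))) (T.a (T.b (T.l 880) (T.a (T.l 880) (T.a (T.b (T.l 816) (T.a (T.l 816) (T.l 880))) (T.b (T.b (T.l 816) (T.l 880)) (T.b (T.l 880) (T.l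 880)))))) (T.a (T.b (T.b (T.a (T.l 880) (T.l 880)) (T.a (T.l 880) (T.l 880))) (T.b (T.a (T.b (T.l 816) (T.l 816)) (T.l 880)) (T.a (T.b (T.l 880) (T.l 880)) (T.b (T.l 880) (T.l 880))))) (T.b (T.b (T.b (T.l 880) (T.l 880)) (T.a (T.l 880) (T.l 880))) (T.b (T.a (T.l 880) (T.l 880)) (T.a (T.b (T.l 880) (T.l 880)) (T.b (T.l 816) (T.l 880)))))))))) (T.b (T.a (T.b (T.a (T.l 816) (T.b (T.a (T.l 816) (T.l 880)) (T.a (T.l 880) (T.l 880)))) (T.a (T.b (T.a (T.l 816) (T.b (T.l 816) (T.l 880))) (T.a (T.b (T.l 880) (T.l 880)) (T.b (T.l 880) (T.l 880)))) (T.b (T.a (T.b (T.l 816) (T.l 816)) (T.l 880)) (T.a (T.b (T.l 816) (T.l 880)) (T.l 880))))) (T.b (T.a (T.b (T.b (T.l 880) (T.l 880)) (T.b (T.l 880) (T.l 880))) (T.b (T.b (T.l 880) (T.l 880)) (T.b (T.l 880) (T.l 880)))) (T.a (T.b (T.a (T.l 880) (T.l 880)) (T.a (T.l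 880) (T.l 880))) (T.b (T.b (T.l 880) (T.l 880)) (T.a (T.l 880) (T.l 880)))))) (T.a (T.a (T.b (T.b (T.a (T.b (T.l 880) (T.l 880)) (T.b (T.l 880) (T.l 880))) (T.a (T.a (T.l 880) (T.l 880)) (T.b (T.l 880) (T.l 880)))) (T.a (T.b (T.b (T.b (T.l 880) (T.l 880)) (T.b (T.l 880) (T.l 880))) (T.b (T.a (T.l 880) (T.l 880)) (T.a (T.b (T.l 816) (T.l 880)) (T.b (T.l 816) (T.l 880))))) (T.b (T.b (T.b (T.l 880) (T.l 880)) (T.b (T.l 880) (T.l 880))) (T.b (T.a (T.l 880) (T.l 880)) (T.a (T.b (T.l 816) (T.l 880)) (T.b (T.l 816) (T.l 880))))))) (T.b (T.b (T.a (T.b (T.l 880) (T.l 880)) (T.b (T.l 880) (T.l 880))) (T.a (T.b (T.l 880) (T.l 880)) (T.b (T.l 880) (T.l 880)))) (T.b (T.a (T.b (T.l 880) (T.b (T.l 880) (T.l 880))) (T.b (T.l 880) (T.b (T.l 880) (T.l 880)))) (T.a (T.b (T.b (T.l 880) (T.l 880)) (T.a (T.l 880) (T.l 880)))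 (T.b (T.b (T.l 880) (T.l 880)) (T.a (T.l 880) (T.l 880))))))) (T.b (T.a (T.b (T.a (T.b (T.l 880) (T.l 880)) (T.b (T.l 816) (T.l 880))) (T.a (T.b (T.l 880) (T.l 880)) (T.b (T.l 880) (T.l 880)))) (T.b (T.a (T.l 880) (T.l 880)) (T.a (T.b (T.l 880) (T.l 880)) (T.b (T.l 880) (T.l 880))))) (T.a (T.b (T.a (T.b (T.l 880) (T.l 880)) (T.b (T.l 880) (T.l 880))) (T.a (T.b (T.b (T.l 880) (T.l 880)) (T.a (T.l 880) (T.l 880))) (T.b (T.b (T.l 880) (T.l 880)) (T.a (T.l 880) (T.l 880))))) (T.b (T.a (T.b (T.l 880) (T.l 880)) (T.b (T.l 880) (T.l 880))) (T.a (T.b (T.b (T.l 880) (T.l 880)) (T.b (T.l 880) (T.l 880))) (T.b (T.l 880) (T.b (T.l 880) (T.l 880)))))))))))), by decide +kernel⟩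

theorem B012R_021 :
    ∃ t, chk3 (onCell 0 50331648 0 1073741824 50331648 16777216 (corTK [[⟨0, 0, 1, 33554432⟩, ⟨1, 1, 2, 33554432⟩, ⟨2, 1, 0, 16777216⟩, ⟨0, 0, 0, 83886080⟩, ⟨0, 1, 0, 1040187392⟩, ⟨1, 0, 0, 1040187392⟩, ⟨1, 1, 0, 83886080⟩]] true 1 c0F cB012R gF0q0 gF2q2 gF1q1 gF2q1 false true)) t 1 1 1 = true :=
  ex3_b B012R_021_1_2_1 B012R_021_1_3_1

end Pool.Agent.Strip051.G.I3_64_1_16.Tab.CF
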