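import Pool.Agent.Strip051.G.I3_64_1_16.Gn
import Pool.Agent.Strip051.PB.Corns
import Pool.Agent.Strip051.PB.CornK

/-! # Certificates of the aligned corners (generated) -/

set_option linter.all false

namespace Pool.Agent.Strip051.G.I3_64_1_16.Tab.CF

open Pool.Agent.Strip051.PB

def B022R_203 :
    ∃ t, chk3 (onCell 0 50331648 0 1073741824 50331648 16777216 (corTK [] true 1 c0F cB022R gF2q0 gF0q2 gF3q2 gF4q2 false true)) t 1 1 1 = true :=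
  ⟨(T.b (T.b (T.a (T.a (T.a (T.b (T.b (T.b (T.b (T.c (T.b (T.l 204) (T.l 204)) (T.l 204)) (T.l 204)) (T.l 204)) (T.l 204)) (T.l 0)) (T.b (T.b (T.a (T.a (T.b (T.l 204) (T.l 204)) (T.l 204)) (T.l 460)) (T.l 0)) (T.l 0))) (T.b (T.a (T.b (T.a (T.b (T.l 204) (T.l 204)) (T.l 204)) (T.l 204)) (T.a (T.b (T.l 204) (T.l 204)) (T.l 460))) (T.l 0))) (T.a (T.b (T.a (T.b (T.l 204) (T.l 204)) (T.l 460)) (T.l 0)) (T.b (T.a (T.l 204) (T.b (T.l 460) (T.l 204))) (T.l 0)))) (T.b (T.a (T.a (T.a (T.l 816) (T.l 816)) (T.l 816)) (T.b (T.l 0) (T.l 0))) (T.a (T.a (T.a (T.l 816) (T.l 816)) (T.l 816)) (T.b (T.l 0) (T.l 0))))) (T.b (T.a (T.a (T.a (T.l 816) (T.l 816)) (T.b (T.l 816) (T.l 816))) (T.b (T.l 0) (T.l 816))) (T.a (T.a (T.a (T.l 816) (T.l 816)) (T.l 0)) (T.b (T.l 816) (T.l 816))))), by decide +kernel⟩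

def B022R_213 :
    ∃ t, chk3 (onCell 0 50331648 0 1073741824 50331648 16777216 (corTK [] true 1 c0F cB022R gF2q0 gF1q2 gF3q2 gF4q2 false true)) t 1 1 1 = true :=
  ⟨(T.b (T.b (T.b (T.a (T.a (T.l 0) (T.a (T.l 0) (T.l 0))) (T.a (T.b (T.l 0) (T.l 0)) (T.b (T.l 0) (T.l 0)))) (T.a (T.a (T.l 2) (T.l 0)) (T.l 0))) (T.l 2)) (T.l 2)), by decide +kernel⟩

def B022R_223 :
    ∃ t, chk3 (onCell 0 50331648 0 1073741824 50331648 16777216 (corTK [] true 1 c0F cB022R gF2q0 gF2q2 gF3q2 gF4q2 false true)) t 1 1 1 = true :=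
  ⟨(T.l 2), by decide +kernel⟩

def B101E_000 :
    ∃ t, chk3 (onCell 0 50331648 0 1073741824 50331648 16777216 (corTK [] true 1 c0F cB101E gF0q1 gF0q1 gF0q0 gF1q0 true true)) t 1 1 1 = true :=
  ⟨(T.l 2), by decide +kernel⟩

def B101E_001 :
    ∃ t, chk3 (onCell 0 50331648 0 1073741824 50331648 16777216 (corTK [] true 1 c0F cB101E gF0q1 gF0q1 gF1q0 gF2q0 true true)) t 1 1 1 = true :=
  ⟨(T.b (T.l 2) (T.b (T.l 2) (T.b (T.l 2) (T.b (T.l 2) (T.b (T.l 2) (T.a (T.a (T.a (T.l 204) (T.l 204)) (T.l 204)) (T.l 204))))))), by decide +kernel⟩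

def B101E_002 :
    ∃ t, chk3 (onCell 0 50331648 0 1073741824 50331648 16777216 (corTK [] true 1 c0F cB101E gF0q1 gF0q1 gF2q0 gF3q0 true false)) t 1 1 1 = true :=
  ⟨(T.b (T.b (T.a (T.a (T.a (T.l 204) (T.l 236)) (T.b (T.l 204) (T.l 204))) (T.b (T.l 236) (T.l 204))) (T.a (T.a (T.a (T.l 204) (T.l 204)) (T.l 204)) (T.b (T.b (T.l 204) (T.l 204)) (T.b (T.l 204) (T.l 204))))) (T.b (T.a (T.a (T.a (T.l 204) (T.l 204)) (T.b (T.l 204) (T.l 204))) (T.b (T.b (T.l 204) (T.l 204)) (T.l 204))) (T.b (T.a (T.a (T.a (T.l 204) (T.l 204)) (T.l 204)) (T.l 204)) (T.a (T.a (T.a (T.l 204) (T.l 204)) (T.l 204)) (T.l 204))))), by decide +kernel⟩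

def B101L_200_1_2_1 :
    ∃ t, chk3 (onCell 0 50331648 0 1073741824 50331648 16777216 (corTK [[⟨0, 1, 2, 33554432⟩, ⟨1, 0, 1, 33554432⟩, ⟨2, 1, 0, 15728640⟩, ⟨0, 0, 0, 1040187392⟩, ⟨0, 1, 0, 83886080⟩, ⟨1, 0, 0, 83886080⟩, ⟨1, 1, 0, 1040187392⟩]] true 1 c0F cB101L gF2q1 gF0q1 gF0q0 gF1q0 true true)) t 1 2 1 = true :=
  ⟨(T.l 1), by decide +kernel⟩

def B101L_200_1_6_1 :
    ∃ t, chk3 (onCell 0 50331648 0 1073741824 50331648 16777216 (corTK [[⟨0, 1, 2, 33554432⟩, ⟨1, 0, 1, 33554432⟩, ⟨2, 1, 0, 15728640⟩, ⟨0, 0, 0, 1040187392⟩, ⟨0, 1, 0, 83886080⟩, ⟨1, 0, 0, 83886080⟩, ⟨1, 1, 0, 1040187392⟩]] true 1 c0F cB101L gF2q1 gF0q1 gF0q0 gF1q0 true true)) t 1 6 1 = true :=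
  ⟨(T.l 1), by decide +kernel⟩

def B101L_200_1_14_1 :
    ∃ t, chk3 (onCell 0 50331648 0 1073741824 50331648 16777216 (corTK [[⟨0, 1, 2, 33554432⟩, ⟨1, 0, 1, 33554432⟩, ⟨2, 1, 0, 15728640⟩, ⟨0, 0, 0, 1040187392⟩, ⟨0, 1, 0, 83886080⟩, ⟨1, 0, 0, 83886080⟩, ⟨1, 1, 0, 1040187392⟩]] true 1 c0F cB101L gF2q1 gF0q1 gF0q0 gF1q0 true true)) t 1 14 1 = true :=
  ⟨(T.l 1), by decide +kernel⟩

def B101L_200_1_30_1 :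
    ∃ t, chk3 (onCell 0 50331648 0 1073741824 50331648 16777216 (corTK [[⟨0, 1, 2, 33554432⟩, ⟨1, 0, 1, 33554432⟩, ⟨2, 1, 0, 15728640⟩, ⟨0, 0, 0, 1040187392⟩, ⟨0, 1, 0, 83886080⟩, ⟨1, 0, 0, 83886080⟩, ⟨1, 1, 0, 1040187392⟩]] true 1 c0F cB101L gF2q1 gF0q1 gF0q0 gF1q0 true true)) t 1 30 1 = true :=
  ⟨(T.l 1), by decide +kernel⟩

def B101L_200_1_62_1 :
    ∃ t, chk3 (onCell 0 50331648 0 1073741824 50331648 16777216 (corTK [[⟨0, 1, 2, 33554432⟩, ⟨1, 0, 1, 33554432⟩, ⟨2, 1, 0, 15728640⟩, ⟨0, 0, 0, 1040187392⟩, ⟨0, 1, 0, 83886080⟩, ⟨1, 0, 0, 83886080⟩, ⟨1, 1, 0, 1040187392⟩]] true 1 c0F cB101L gF2q1 gF0q1 gF0q0 gF1q0 true true)) t 1 62 1 = true :=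
  ⟨(T.l 1), by decide +kernel⟩

def B101L_200_1_126_1 :
    ∃ t, chk3 (onCell 0 50331648 0 1073741824 50331648 16777216 (corTK [[⟨0, 1, 2, 33554432⟩, ⟨1, 0, 1, 33554432⟩, ⟨2, 1, 0, 15728640⟩, ⟨0, 0, 0, 1040187392⟩, ⟨0, 1, 0, 83886080⟩, ⟨1, 0, 0, 83886080⟩, ⟨1, 1, 0, 1040187392⟩]] true 1 c0F cB101L gF2q1 gF0q1 gF0q0 gF1q0 true true)) t 1 126 1 = true :=
  ⟨(T.l 1), by decide +kernel⟩

def B101L_200_1_254_1 :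
    ∃ t, chk3 (onCell 0 50331648 0 1073741824 50331648 16777216 (corTK [[⟨0, 1, 2, 33554432⟩, ⟨1, 0, 1, 33554432⟩, ⟨2, 1, 0, 15728640⟩, ⟨0, 0, 0, 1040187392⟩, ⟨0, 1, 0, 83886080⟩, ⟨1, 0, 0, 83886080⟩, ⟨1, 1, 0, 1040187392⟩]] true 1 c0F cB101L gF2q1 gF0q1 gF0q0 gF1q0 true true)) t 1 254 1 = true :=
  ⟨(T.l 1), by decide +kernel⟩

def B101L_200_1_510_1 :
    ∃ t, chk3 (onCell 0 50331648 0 1073741824 50331648 16777216 (corTK [[⟨0, 1, 2, 33554432⟩, ⟨1, 0, 1, 33554432⟩, ⟨2, 1, 0, 15728640⟩, ⟨0, 0, 0, 1040187392⟩, ⟨0, 1, 0, 83886080⟩, ⟨1, 0, 0, 83886080⟩, ⟨1, 1, 0, 1040187392⟩]] true 1 c0F cB101L gF2q1 gF0q1 gF0q0 gF1q0 true true)) t 1 510 1 = true :=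
  ⟨(T.l 1), by decide +kernel⟩

def B101L_200_2_511_2 :
    ∃ t, chk3 (onCell 0 50331648 0 1073741824 50331648 16777216 (corTK [[⟨0, 1, 2, 33554432⟩, ⟨1, 0, 1, 33554432⟩, ⟨2, 1, 0, 15728640⟩, ⟨0, 0, 0, 1040187392⟩, ⟨0, 1, 0, 83886080⟩, ⟨1, 0, 0, 83886080⟩, ⟨1, 1, 0, 1040187392⟩]] true 1 c0F cB101L gF2q1 gF0q1 gF0q0 gF1q0 true true)) t 2 511 2 = true :=
  ⟨(T.b (T.l 1) (T.a (T.c (T.b (T.l 1) (T.a (T.c (T.b (T.l 1) (T.a (T.c (T.b (T.l 1) (T.l 816)) (T.b (T.l 1) (T.l 816))) (T.c (T.b (T.l 1) (T.l 816)) (T.b (T.l 1) (T.l 816))))) (T.b (T.l 1) (T.a (T.c (T.b (T.l 1) (T.l 816)) (T.b (T.l 1) (T.l 816))) (T.c (T.b (T.l 1) (T.l 816)) (T.b (T.l 1) (T.l 816)))))) (T.c (T.b (T.l 1) (T.a (T.c (T.b (T.l 1) (T.l 816)) (T.l 880)) (T.l 816))) (T.b (T.l 1) (T.l 816))))) (T.b (T.l 1) (T.a (T.c (T.b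 (T.l 1) (T.a (T.c (T.b (T.l 1) (T.l 816)) (T.b (T.l 1) (T.l 816))) (T.l 816))) (T.b (T.l 1) (T.a (T.c (T.b (T.l 1) (T.l 816)) (T.l 816)) (T.l 816)))) (T.c (T.b (T.l 1) (T.l 816)) (T.b (T.l 1) (T.l 816)))))) (T.c (T.b (T.l 1) (T.a (T.c (T.b (T.l 1) (T.a (T.a (T.l 816) (T.l 816)) (T.c (T.b (T.l 1) (T.a (T.l 816) (T.l 884))) (T.b (T.l 1) (T.a (T.l 816) (T.l 884)))))) (T.b (T.l 1) (T.a (T.a (T.l 816) (T.l 816)) (T.c (T.b (T.l 1) (T.a (T.l 816) (T.l 820))) (T.b (T.l 1) (T.a (T.l 820) (T.l 820))))))) (T.c (T.b (T.l 1) (T.a (T.c (T.b (T.l 1) (T.a (T.a (T.l 816) (T.l 880)) (T.c (T.b (T.l 1) (T.a (T.l 816) (T.l 880))) (T.b (T.l 1) (T.l 884))))) (T.b (T.l 1) (T.a (T.a (T.l 816) (T.l 880)) (T.c (T.b (T.l 1) (T.l 884)) (T.b (T.l 1) (T.l 884)))))) (T.c (T.b (T.l 1) (T.a (T.c (T.b (T.l 1) (T.a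 (T.l 880) (T.l 884))) (T.b (T.l 1) (T.a (T.l 880) (T.l 884)))) (T.c (T.b (T.l 1) (T.a (T.a (T.l 884) (T.l 884)) (T.c (T.b (T.l 1) (T.l 884)) (T.b (T.l 1) (T.l 884))))) (T.b (T.l 1) (T.a (T.l 884) (T.c (T.b (T.l 1) (T.l 884)) (T.a (T.l 884) (T.l 884)))))))) (T.b (T.l 1) (T.a (T.c (T.b (T.l 1) (T.a (T.l 880) (T.l 884))) (T.b (T.l 1) (T.a (T.l 880) (T.l 884)))) (T.c (T.b (T.l 1) (T.a (T.l 884) (T.a (T.l 884) (T.l 884)))) (T.b (T.l 1) (T.a (T.l 884) (T.l 884))))))))) (T.b (T.l 1) (T.a (T.c (T.b (T.l 1) (T.a (T.a (T.l 816) (T.l 816)) (T.c (T.b (T.l 1) (T.l 884)) (T.a (T.l 884) (T.l 884))))) (T.b (T.l 1) (T.a (T.a (T.l 816) (T.l 820)) (T.a (T.l 884) (T.l 884))))) (T.c (T.b (T.l 1) (T.a (T.c (T.b (T.l 1) (T.a (T.l 816) (T.l 884))) (T.b (T.l 1) (T.a (T.l 816) (T.l 884)))) (T.c (T.b (T.l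 1) (T.a (T.l 884) (T.l 884))) (T.b (T.l 1) (T.a (T.l 884) (T.l 884)))))) (T.b (T.l 1) (T.a (T.c (T.b (T.l 1) (T.l 884)) (T.b (T.l 1) (T.l 884))) (T.c (T.b (T.l 1) (T.a (T.l 884) (T.l 884))) (T.b (T.l 1) (T.a (T.l 884) (T.l 884)))))))))))) (T.b (T.l 1) (T.a (T.c (T.b (T.l 1) (T.a (T.a (T.l 816) (T.l 816)) (T.c (T.b (T.l 1) (T.a (T.l 820) (T.l 820))) (T.b (T.l 1) (T.a (T.l 820) (T.a (T.l 816) (T.l 816))))))) (T.b (T.l 1) (T.a (T.a (T.l 816) (T.l 816)) (T.c (T.b (T.l 1) (T.a (T.l 820) (T.a (T.l 816) (T.l 816)))) (T.b (T.l 1) (T.a (T.a (T.l 816) (T.l 816)) (T.a (T.l 816) (T.l 816)))))))) (T.c (T.b (T.l 1) (T.a (T.c (T.b (T.l 1) (T.a (T.a (T.l 816) (T.l 820)) (T.a (T.l 820) (T.l 884)))) (T.b (T.l 1) (T.a (T.a (T.l 816) (T.l 820)) (T.a (T.l 820) (T.l 884))))) (T.c (T.b (T.l 1) (T.a (T.c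 (T.b (T.l 1) (T.l 884)) (T.b (T.l 1) (T.l 884))) (T.c (T.b (T.l 1) (T.a (T.l 884) (T.l 884))) (T.b (T.l 1) (T.a (T.l 884) (T.l 884)))))) (T.b (T.l 1) (T.a (T.c (T.b (T.l 1) (T.a (T.l 820) (T.l 820))) (T.b (T.l 1) (T.a (T.l 820) (T.l 820)))) (T.c (T.b (T.l 1) (T.a (T.l 820) (T.l 884))) (T.b (T.l 1) (T.a (T.l 820) (T.l 884))))))))) (T.b (T.l 1) (T.a (T.c (T.b (T.l 1) (T.a (T.a (T.l 816) (T.l 820)) (T.a (T.l 820) (T.l 820)))) (T.b (T.l 1) (T.a (T.a (T.l 816) (T.l 820)) (T.a (T.l 820) (T.l 820))))) (T.c (T.b (T.l 1) (T.a (T.c (T.b (T.l 1) (T.a (T.l 820) (T.l 820))) (T.b (T.l 1) (T.a (T.l 820) (T.l 820)))) (T.c (T.b (T.l 1) (T.a (T.l 820) (T.l 884))) (T.b (T.l 1) (T.a (T.l 820) (T.l 884)))))) (T.b (T.l 1) (T.a (T.c (T.b (T.l 1) (T.a (T.l 820) (T.l 820))) (T.b (T.l 1) (T.a (T.l 820) (T.l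 820)))) (T.c (T.b (T.l 1) (T.a (T.l 820) (T.l 820))) (T.b (T.l 1) (T.a (T.l 820) (T.l 820))))))))))))))), by decide +kernel⟩

def B101L_200_2_511_3 :
    ∃ t, chk3 (onCell 0 50331648 0 1073741824 50331648 16777216 (corTK [[⟨0, 1, 2, 33554432⟩, ⟨1, 0, 1, 33554432⟩, ⟨2, 1, 0, 15728640⟩, ⟨0, 0, 0, 1040187392⟩, ⟨0, 1, 0, 83886080⟩, ⟨1, 0, 0, 83886080⟩, ⟨1, 1, 0, 1040187392⟩]] true 1 c0F cB101L gF2q1 gF0q1 gF0q0 gF1q0 true true)) t 2 511 3 = true :=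
  ⟨(T.b (T.l 1) (T.a (T.c (T.b (T.l 1) (T.a (T.c (T.b (T.l 1) (T.l 816)) (T.b (T.l 1) (T.l 816))) (T.c (T.b (T.l 1) (T.l 816)) (T.b (T.l 1) (T.l 816))))) (T.b (T.l 1) (T.a (T.c (T.b (T.l 1) (T.l 816)) (T.b (T.l 1) (T.l 816))) (T.c (T.b (T.l 1) (T.l 816)) (T.b (T.l 1) (T.l 816)))))) (T.c (T.b (T.l 1) (T.a (T.c (T.b (T.l 1) (T.a (T.a (T.l 816) (T.l 820)) (T.c (T.b (T.l 1) (T.a (T.a (T.l 816) (T.l 816)) (T.a (T.l 816) (T.l 816)))) (T.b (T.l 1) (T.a (T.a (T.l 816) (T.l 816)) (T.a (T.l 816) (T.l 816))))))) (T.b (T.l 1) (T.a (T.a (T.l 816) (T.l 820)) (T.c (T.b (T.l 1) (T.a (T.a (T.l 816) (T.l 816)) (T.a (T.l 816) (T.l 816)))) (T.b (T.l 1) (T.a (T.a (T.l 816) (T.l 816)) (T.a (T.l 816) (T.l 816)))))))) (T.c (T.b (T.l 1) (T.a (T.c (T.b (T.l 1) (T.a (T.a (T.l 816) (T.l 820)) (T.a (T.l 820)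 (T.l 820)))) (T.b (T.l 1) (T.a (T.a (T.l 816) (T.l 820)) (T.a (T.l 820) (T.l 820))))) (T.c (T.b (T.l 1) (T.a (T.c (T.b (T.l 1) (T.a (T.l 820) (T.l 820))) (T.b (T.l 1) (T.a (T.l 820) (T.l 820)))) (T.c (T.b (T.l 1) (T.a (T.l 820) (T.l 820))) (T.b (T.l 1) (T.a (T.l 820) (T.l 820)))))) (T.b (T.l 1) (T.a (T.c (T.b (T.l 1) (T.a (T.l 820) (T.l 820))) (T.b (T.l 1) (T.a (T.l 820) (T.l 820)))) (T.c (T.b (T.l 1) (T.a (T.l 820) (T.l 820))) (T.b (T.l 1) (T.a (T.l 820) (T.l 820))))))))) (T.b (T.l 1) (T.a (T.c (T.b (T.l 1) (T.a (T.a (T.l 820) (T.l 820)) (T.a (T.l 820) (T.l 820)))) (T.b (T.l 1) (T.a (T.a (T.l 820) (T.l 820)) (T.a (T.l 820) (T.l 820))))) (T.c (T.b (T.l 1) (T.a (T.c (T.b (T.l 1) (T.a (T.l 820) (T.l 820))) (T.b (T.l 1) (T.a (T.l 820) (T.l 820)))) (T.c (T.b (T.l 1) (T.a (T.l 820) (T.l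 820))) (T.b (T.l 1) (T.a (T.l 820) (T.l 820)))))) (T.b (T.l 1) (T.a (T.c (T.b (T.l 1) (T.a (T.l 820) (T.l 820))) (T.b (T.l 1) (T.a (T.l 820) (T.l 820)))) (T.c (T.b (T.l 1) (T.a (T.l 820) (T.l 820))) (T.b (T.l 1) (T.a (T.l 820) (T.l 820)))))))))))) (T.b (T.l 1) (T.a (T.c (T.b (T.l 1) (T.a (T.a (T.l 816) (T.a (T.l 816) (T.l 816))) (T.c (T.b (T.l 1) (T.a (T.a (T.l 816) (T.l 816)) (T.a (T.l 816) (T.l 816)))) (T.b (T.l 1) (T.a (T.a (T.l 816) (T.l 816)) (T.a (T.l 816) (T.l 816))))))) (T.b (T.l 1) (T.a (T.a (T.l 816) (T.a (T.l 816) (T.l 820))) (T.c (T.b (T.l 1) (T.a (T.a (T.l 816) (T.l 816)) (T.a (T.l 816) (T.l 816)))) (T.b (T.l 1) (T.a (T.a (T.l 816) (T.l 816)) (T.a (T.l 816) (T.l 816)))))))) (T.c (T.b (T.l 1) (T.a (T.c (T.b (T.l 1) (T.a (T.a (T.l 820) (T.l 820)) (T.a (T.l 820) (T.l 820))))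 (T.b (T.l 1) (T.a (T.a (T.l 820) (T.l 820)) (T.a (T.l 820) (T.l 820))))) (T.c (T.b (T.l 1) (T.a (T.c (T.b (T.l 1) (T.a (T.l 820) (T.l 820))) (T.b (T.l 1) (T.a (T.l 820) (T.l 820)))) (T.c (T.b (T.l 1) (T.a (T.l 820) (T.l 820))) (T.b (T.l 1) (T.a (T.l 820) (T.l 820)))))) (T.b (T.l 1) (T.a (T.c (T.b (T.l 1) (T.a (T.l 820) (T.l 820))) (T.b (T.l 1) (T.a (T.l 820) (T.l 820)))) (T.c (T.b (T.l 1) (T.a (T.l 820) (T.l 820))) (T.b (T.l 1) (T.a (T.l 820) (T.l 820))))))))) (T.b (T.l 1) (T.a (T.c (T.b (T.l 1) (T.a (T.a (T.l 820) (T.l 820)) (T.a (T.l 820) (T.l 820)))) (T.b (T.l 1) (T.a (T.a (T.l 820) (T.l 820)) (T.a (T.l 820) (T.l 820))))) (T.c (T.b (T.l 1) (T.a (T.c (T.b (T.l 1) (T.a (T.l 820) (T.l 820))) (T.b (T.l 1) (T.a (T.l 820) (T.l 820)))) (T.c (T.b (T.l 1) (T.a (T.l 820) (T.l 820))) (T.b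 (T.l 1) (T.a (T.l 820) (T.l 820)))))) (T.b (T.l 1) (T.a (T.c (T.b (T.l 1) (T.a (T.l 816) (T.l 820))) (T.a (T.l 820) (T.a (T.l 820) (T.l 820)))) (T.c (T.b (T.l 1) (T.a (T.l 820) (T.l 820))) (T.b (T.l 1) (T.a (T.l 820) (T.l 820))))))))))))))), by decide +kernel⟩

def B101L_200_6_1022_2 :
    ∃ t, chk3 (onCell 0 50331648 0 1073741824 50331648 16777216 (corTK [[⟨0, 1, 2, 33554432⟩, ⟨1, 0, 1, 33554432⟩, ⟨2, 1, 0, 15728640⟩, ⟨0, 0, 0, 1040187392⟩, ⟨0, 1, 0, 83886080⟩, ⟨1, 0, 0, 83886080⟩, ⟨1, 1, 0, 1040187392⟩]] true 1 c0F cB101L gF2q1 gF0q1 gF0q0 gF1q0 true true)) t 6 1022 2 = true :=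
  ⟨(T.l 1), by decide +kernel⟩

def B101L_200_6_2046_4 :
    ∃ t, chk3 (onCell 0 50331648 0 1073741824 50331648 16777216 (corTK [[⟨0, 1, 2, 33554432⟩, ⟨1, 0, 1, 33554432⟩, ⟨2, 1, 0, 15728640⟩, ⟨0, 0, 0, 1040187392⟩, ⟨0, 1, 0, 83886080⟩, ⟨1, 0, 0, 83886080⟩, ⟨1, 1, 0, 1040187392⟩]] true 1 c0F cB101L gF2q1 gF0q1 gF0q0 gF1q0 true true)) t 6 2046 4 = true :=
  ⟨(T.l 1), by decide +kernel⟩

def B101L_200_12_2047_8 :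
    ∃ t, chk3 (onCell 0 50331648 0 1073741824 50331648 16777216 (corTK [[⟨0, 1, 2, 33554432⟩, ⟨1, 0, 1, 33554432⟩, ⟨2, 1, 0, 15728640⟩, ⟨0, 0, 0, 1040187392⟩, ⟨0, 1, 0, 83886080⟩, ⟨1, 0, 0, 83886080⟩, ⟨1, 1, 0, 1040187392⟩]] true 1 c0F cB101L gF2q1 gF0q1 gF0q0 gF1q0 true true)) t 12 2047 8 = true :=
  ⟨(T.b (T.l 1) (T.a (T.c (T.b (T.l 1) (T.a (T.c (T.b (T.l 1) (T.a (T.c (T.b (T.l 1) (T.l 884)) (T.b (T.l 1) (T.l 884))) (T.c (T.b (T.l 1) (T.l 884)) (T.b (T.l 1) (T.l 884))))) (T.b (T.l 1) (T.a (T.c (T.b (T.l 1) (T.l 884)) (T.b (T.l 1) (T.l 884))) (T.c (T.b (T.l 1) (T.l 884)) (T.b (T.l 1) (T.l 884)))))) (T.c (T.b (T.l 1) (T.a (T.c (T.b (T.l 1) (T.l 884)) (T.b (T.l 1) (T.l 884))) (T.c (T.b (T.l 1) (T.a (T.l 884) (T.l 884))) (T.b (T.l 1) (T.a (T.l 884) (T.l 884)))))) (T.b (T.l 1) (T.a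 (T.c (T.b (T.l 1) (T.l 884)) (T.b (T.l 1) (T.l 884))) (T.c (T.b (T.l 1) (T.l 884)) (T.b (T.l 1) (T.l 884)))))))) (T.b (T.l 1) (T.a (T.c (T.b (T.l 1) (T.a (T.c (T.b (T.l 1) (T.l 884)) (T.b (T.l 1) (T.l 884))) (T.c (T.b (T.l 1) (T.l 884)) (T.b (T.l 1) (T.l 884))))) (T.b (T.l 1) (T.a (T.c (T.b (T.l 1) (T.l 884)) (T.a (T.l 884) (T.l 884))) (T.c (T.b (T.l 1) (T.l 884)) (T.b (T.l 1) (T.l 884)))))) (T.c (T.b (T.l 1) (T.a (T.c (T.b (T.l 1) (T.l 884)) (T.b (T.l 1) (T.l 884))) (T.c (T.b (T.l 1) (T.l 884)) (T.b (T.l 1) (T.l 884))))) (T.b (T.l 1) (T.a (T.c (T.b (T.l 1) (T.l 884)) (T.b (T.l 1) (T.l 884))) (T.c (T.b (T.l 1) (T.l 884)) (T.b (T.l 1) (T.l 884))))))))) (T.c (T.b (T.l 1) (T.a (T.c (T.b (T.l 1) (T.a (T.c (T.b (T.l 1) (T.a (T.l 884) (T.a (T.l 884) (T.l 884)))) (T.b (T.l 1) (T.a (T.l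 884) (T.l 884)))) (T.c (T.b (T.l 1) (T.a (T.c (T.b (T.l 1) (T.l 884)) (T.b (T.l 1) (T.l 884))) (T.c (T.b (T.l 1) (T.l 884)) (T.b (T.l 1) (T.l 884))))) (T.b (T.l 1) (T.a (T.a (T.l 884) (T.l 884)) (T.c (T.b (T.l 1) (T.l 884)) (T.b (T.l 1) (T.l 884)))))))) (T.b (T.l 1) (T.a (T.c (T.b (T.l 1) (T.a (T.l 884) (T.l 884))) (T.b (T.l 1) (T.a (T.l 884) (T.l 884)))) (T.c (T.b (T.l 1) (T.a (T.l 884) (T.c (T.b (T.l 1) (T.l 884)) (T.b (T.l 1) (T.l 884))))) (T.b (T.l 1) (T.a (T.l 884) (T.a (T.l 884) (T.l 884)))))))) (T.c (T.b (T.l 1) (T.a (T.c (T.b (T.l 1) (T.a (T.c (T.b (T.l 1) (T.l 884)) (T.b (T.l 1) (T.l 884))) (T.c (T.b (T.l 1) (T.l 884)) (T.b (T.l 1) (T.l 884))))) (T.b (T.l 1) (T.a (T.c (T.b (T.l 1) (T.l 884)) (T.b (T.l 1) (T.l 884))) (T.c (T.b (T.l 1) (T.l 884)) (T.b (T.l 1) (T.l 884))))))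 (T.c (T.b (T.l 1) (T.a (T.c (T.b (T.l 1) (T.l 884)) (T.b (T.l 1) (T.l 884))) (T.c (T.b (T.l 1) (T.l 884)) (T.b (T.l 1) (T.l 884))))) (T.b (T.l 1) (T.a (T.c (T.b (T.l 1) (T.l 884)) (T.b (T.l 1) (T.l 884))) (T.c (T.b (T.l 1) (T.l 884)) (T.b (T.l 1) (T.l 884)))))))) (T.b (T.l 1) (T.a (T.c (T.b (T.l 1) (T.a (T.c (T.b (T.l 1) (T.l 884)) (T.b (T.l 1) (T.l 884))) (T.c (T.b (T.l 1) (T.l 884)) (T.b (T.l 1) (T.l 884))))) (T.b (T.l 1) (T.a (T.c (T.b (T.l 1) (T.l 884)) (T.a (T.l 884) (T.l 884))) (T.c (T.b (T.l 1) (T.l 884)) (T.b (T.l 1) (T.l 884)))))) (T.c (T.b (T.l 1) (T.a (T.c (T.b (T.l 1) (T.l 884)) (T.b (T.l 1) (T.l 884))) (T.c (T.b (T.l 1) (T.l 884)) (T.b (T.l 1) (T.l 884))))) (T.b (T.l 1) (T.a (T.c (T.b (T.l 1) (T.l 884)) (T.b (T.l 1) (T.l 884))) (T.c (T.b (T.l 1) (T.l 884)) (T.b (T.l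 1) (T.l 884))))))))))) (T.b (T.l 1) (T.a (T.c (T.b (T.l 1) (T.a (T.c (T.b (T.l 1) (T.a (T.l 884) (T.l 884))) (T.b (T.l 1) (T.l 884))) (T.c (T.b (T.l 1) (T.a (T.l 884) (T.l 884))) (T.b (T.l 1) (T.a (T.l 884) (T.l 884)))))) (T.b (T.l 1) (T.a (T.c (T.b (T.l 1) (T.l 884)) (T.b (T.l 1) (T.l 884))) (T.c (T.b (T.l 1) (T.a (T.l 884) (T.l 884))) (T.b (T.l 1) (T.a (T.l 884) (T.l 884))))))) (T.c (T.b (T.l 1) (T.a (T.c (T.b (T.l 1) (T.a (T.a (T.l 884) (T.l 884)) (T.c (T.b (T.l 1) (T.l 884)) (T.b (T.l 1) (T.l 884))))) (T.b (T.l 1) (T.a (T.l 884) (T.a (T.l 884) (T.l 884))))) (T.c (T.b (T.l 1) (T.a (T.c (T.b (T.l 1) (T.l 884)) (T.b (T.l 1) (T.l 884))) (T.c (T.b (T.l 1) (T.l 884)) (T.b (T.l 1) (T.l 884))))) (T.b (T.l 1) (T.a (T.c (T.b (T.l 1) (T.l 884)) (T.b (T.l 1) (T.l 884))) (T.c (T.b (T.l 1)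 (T.l 884)) (T.b (T.l 1) (T.l 884)))))))) (T.b (T.l 1) (T.a (T.c (T.b (T.l 1) (T.a (T.l 884) (T.l 884))) (T.b (T.l 1) (T.a (T.l 884) (T.l 884)))) (T.c (T.b (T.l 1) (T.a (T.a (T.l 884) (T.l 884)) (T.c (T.b (T.l 1) (T.l 884)) (T.b (T.l 1) (T.l 884))))) (T.b (T.l 1) (T.a (T.a (T.l 884) (T.l 884)) (T.c (T.b (T.l 1) (T.l 884)) (T.a (T.l 884) (T.l 884)))))))))))))), by decide +kernel⟩

def B101L_200_12_2047_9 :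
    ∃ t, chk3 (onCell 0 50331648 0 1073741824 50331648 16777216 (corTK [[⟨0, 1, 2, 33554432⟩, ⟨1, 0, 1, 33554432⟩, ⟨2, 1, 0, 15728640⟩, ⟨0, 0, 0, 1040187392⟩, ⟨0, 1, 0, 83886080⟩, ⟨1, 0, 0, 83886080⟩, ⟨1, 1, 0, 1040187392⟩]] true 1 c0F cB101L gF2q1 gF0q1 gF0q0 gF1q0 true true)) t 12 2047 9 = true :=
  ⟨(T.b (T.l 1) (T.a (T.c (T.b (T.l 1) (T.a (T.c (T.b (T.l 1) (T.a (T.a (T.l 884) (T.l 884)) (T.c (T.b (T.l 1) (T.l 884)) (T.b (T.l 1) (T.l 884))))) (T.b (T.l 1) (T.a (T.l 884) (T.c (T.a (T.l 884) (T.l 884)) (T.a (T.l 884) (T.l 884)))))) (T.c (T.b (T.l 1) (T.a (T.c (T.b (T.l 1) (T.l 884)) (T.b (T.l 1) (T.l 884))) (T.c (T.b (T.l 1) (T.l 884)) (T.b (T.l 1) (T.l 884))))) (T.b (T.l 1) (T.a (T.c (T.b (T.l 1) (T.l 884)) (T.b (T.l 1) (T.l 884))) (T.c (T.b (T.l 1) (T.l 884)) (T.b (T.l 1) (T.l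 884)))))))) (T.b (T.l 1) (T.a (T.c (T.b (T.l 1) (T.a (T.l 884) (T.a (T.l 884) (T.l 884)))) (T.b (T.l 1) (T.a (T.l 884) (T.l 884)))) (T.c (T.b (T.l 1) (T.a (T.c (T.b (T.l 1) (T.l 884)) (T.b (T.l 1) (T.l 884))) (T.c (T.b (T.l 1) (T.l 884)) (T.b (T.l 1) (T.l 884))))) (T.b (T.l 1) (T.a (T.a (T.l 884) (T.l 884)) (T.c (T.b (T.l 1) (T.l 884)) (T.b (T.l 1) (T.l 884))))))))) (T.c (T.b (T.l 1) (T.a (T.c (T.b (T.l 1) (T.a (T.c (T.b (T.l 1) (T.l 884)) (T.b (T.l 1) (T.l 884))) (T.c (T.b (T.l 1) (T.a (T.l 884) (T.l 884))) (T.b (T.l 1) (T.a (T.l 884) (T.l 884)))))) (T.b (T.l 1) (T.a (T.c (T.b (T.l 1) (T.l 884)) (T.b (T.l 1) (T.l 884))) (T.c (T.b (T.l 1) (T.a (T.l 884) (T.l 884))) (T.b (T.l 1) (T.l 884)))))) (T.c (T.b (T.l 1) (T.a (T.c (T.b (T.l 1) (T.a (T.l 884) (T.l 884))) (T.b (T.l 1) (T.a (T.l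 884) (T.l 884)))) (T.c (T.b (T.l 1) (T.a (T.l 884) (T.a (T.l 884) (T.l 884)))) (T.b (T.l 1) (T.a (T.l 884) (T.l 884)))))) (T.b (T.l 1) (T.a (T.c (T.b (T.l 1) (T.a (T.l 884) (T.l 884))) (T.b (T.l 1) (T.a (T.l 884) (T.l 884)))) (T.c (T.b (T.l 1) (T.a (T.l 884) (T.l 884))) (T.b (T.l 1) (T.a (T.l 884) (T.l 884))))))))) (T.b (T.l 1) (T.a (T.c (T.b (T.l 1) (T.a (T.c (T.b (T.l 1) (T.l 884)) (T.b (T.l 1) (T.l 884))) (T.c (T.b (T.l 1) (T.l 884)) (T.b (T.l 1) (T.l 884))))) (T.b (T.l 1) (T.a (T.c (T.b (T.l 1) (T.l 884)) (T.b (T.l 1) (T.l 884))) (T.c (T.b (T.l 1) (T.l 884)) (T.b (T.l 1) (T.l 884)))))) (T.c (T.b (T.l 1) (T.a (T.c (T.b (T.l 1) (T.a (T.l 884) (T.l 884))) (T.b (T.l 1) (T.a (T.l 884) (T.l 884)))) (T.c (T.b (T.l 1) (T.a (T.l 884) (T.l 884))) (T.b (T.l 1) (T.a (T.l 884) (T.l 884))))))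 (T.b (T.l 1) (T.a (T.c (T.b (T.l 1) (T.a (T.l 884) (T.l 884))) (T.b (T.l 1) (T.a (T.l 884) (T.l 884)))) (T.c (T.b (T.l 1) (T.a (T.l 884) (T.l 884))) (T.b (T.l 1) (T.a (T.l 884) (T.l 884)))))))))))), by decide +kernel⟩

def B101L_200_26_2047_8 :
    ∃ t, chk3 (onCell 0 50331648 0 1073741824 50331648 16777216 (corTK [[⟨0, 1, 2, 33554432⟩, ⟨1, 0, 1, 33554432⟩, ⟨2, 1, 0, 15728640⟩, ⟨0, 0, 0, 1040187392⟩, ⟨0, 1, 0, 83886080⟩, ⟨1, 0, 0, 83886080⟩, ⟨1, 1, 0, 1040187392⟩]] true 1 c0F cB101L gF2q1 gF0q1 gF0q0 gF1q0 true true)) t 26 2047 8 = true :=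
  ⟨(T.b (T.l 1) (T.c (T.b (T.l 1) (T.a (T.c (T.b (T.l 1) (T.a (T.c (T.b (T.l 1) (T.a (T.c (T.b (T.l 1) (T.l 884)) (T.b (T.l 1) (T.l 884))) (T.c (T.b (T.l 1) (T.l 884)) (T.b (T.l 1) (T.l 884))))) (T.b (T.l 1) (T.a (T.c (T.b (T.l 1) (T.l 884)) (T.b (T.l 1) (T.l 884))) (T.c (T.b (T.l 1) (T.l 884)) (T.b (T.l 1) (T.l 884)))))) (T.c (T.b (T.l 1) (T.a (T.c (T.b (T.l 1) (T.l 884)) (T.b (T.l 1) (T.l 884))) (T.c (T.b (T.l 1) (T.l 884)) (T.b (T.l 1) (T.l 884))))) (T.b (T.l 1) (T.a (T.c (T.b (T.l 1) (T.l 884)) (T.b (T.l 1) (T.l 884))) (T.c (T.b (T.l 1) (T.l 884)) (T.b (T.l 1) (T.l 884)))))))) (T.b (T.l 1) (T.a (T.c (T.b (T.l 1) (T.a (T.c (T.b (T.l 1) (T.l 884)) (T.b (T.l 1) (T.l 884))) (T.c (T.b (T.l 1) (T.l 884)) (T.b (T.l 1) (T.l 884))))) (T.b (T.l 1) (T.a (T.c (T.b (T.l 1) (T.l 884)) (T.b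 (T.l 1) (T.l 884))) (T.c (T.b (T.l 1) (T.l 884)) (T.b (T.l 1) (T.l 884)))))) (T.c (T.b (T.l 1) (T.a (T.c (T.b (T.l 1) (T.l 884)) (T.b (T.l 1) (T.l 884))) (T.c (T.b (T.l 1) (T.l 884)) (T.b (T.l 1) (T.l 884))))) (T.b (T.l 1) (T.a (T.c (T.b (T.l 1) (T.l 884)) (T.b (T.l 1) (T.l 884))) (T.c (T.b (T.l 1) (T.l 884)) (T.b (T.l 1) (T.l 884))))))))) (T.a (T.c (T.b (T.l 1) (T.c (T.b (T.l 1) (T.a (T.c (T.b (T.l 1) (T.a (T.l 884) (T.a (T.l 884) (T.l 884)))) (T.b (T.l 1) (T.a (T.l 884) (T.l 884)))) (T.a (T.c (T.b (T.l 1) (T.c (T.b (T.l 1) (T.l 884)) (T.b (T.l 1) (T.l 884)))) (T.b (T.l 1) (T.c (T.b (T.l 1) (T.l 884)) (T.b (T.l 1) (T.l 884))))) (T.l 1024)))) (T.b (T.l 1) (T.a (T.c (T.b (T.l 1) (T.a (T.l 884) (T.l 884))) (T.b (T.l 1) (T.a (T.l 884) (T.l 884)))) (T.a (T.c (T.b (T.l 1) (T.c (T.b (T.l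 1) (T.l 884)) (T.b (T.l 1) (T.l 884)))) (T.b (T.l 1) (T.c (T.a (T.l 884) (T.l 884)) (T.a (T.l 884) (T.l 884))))) (T.l 1024)))))) (T.b (T.l 1) (T.c (T.b (T.l 1) (T.a (T.c (T.b (T.l 1) (T.l 884)) (T.b (T.l 1) (T.l 884))) (T.a (T.c (T.b (T.l 1) (T.a (T.l 884) (T.l 884))) (T.b (T.l 1) (T.a (T.l 884) (T.l 884)))) (T.l 1024)))) (T.b (T.l 1) (T.a (T.c (T.b (T.l 1) (T.l 884)) (T.b (T.l 1) (T.l 884))) (T.a (T.c (T.b (T.l 1) (T.a (T.l 884) (T.l 884))) (T.b (T.l 1) (T.l 884))) (T.l 1024))))))) (T.l 1024)))) (T.b (T.l 1) (T.a (T.c (T.b (T.l 1) (T.a (T.c (T.b (T.l 1) (T.a (T.c (T.b (T.l 1) (T.l 884)) (T.b (T.l 1) (T.l 884))) (T.c (T.b (T.l 1) (T.l 884)) (T.b (T.l 1) (T.l 884))))) (T.b (T.l 1) (T.a (T.c (T.b (T.l 1) (T.l 884)) (T.b (T.l 1) (T.l 884))) (T.c (T.b (T.l 1) (T.l 884)) (T.b (T.l 1)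 (T.l 884)))))) (T.c (T.b (T.l 1) (T.a (T.c (T.b (T.l 1) (T.l 884)) (T.b (T.l 1) (T.l 884))) (T.c (T.b (T.l 1) (T.l 884)) (T.b (T.l 1) (T.l 884))))) (T.b (T.l 1) (T.a (T.c (T.b (T.l 1) (T.l 884)) (T.b (T.l 1) (T.l 884))) (T.c (T.b (T.l 1) (T.l 884)) (T.b (T.l 1) (T.l 884)))))))) (T.b (T.l 1) (T.a (T.c (T.b (T.l 1) (T.a (T.c (T.b (T.l 1) (T.l 884)) (T.b (T.l 1) (T.l 884))) (T.c (T.b (T.l 1) (T.l 884)) (T.b (T.l 1) (T.l 884))))) (T.b (T.l 1) (T.a (T.c (T.b (T.l 1) (T.l 884)) (T.b (T.l 1) (T.l 884))) (T.c (T.b (T.l 1) (T.l 884)) (T.b (T.l 1) (T.l 884)))))) (T.c (T.b (T.l 1) (T.a (T.c (T.b (T.l 1) (T.l 884)) (T.b (T.l 1) (T.l 884))) (T.c (T.b (T.l 1) (T.l 884)) (T.b (T.l 1) (T.l 884))))) (T.b (T.l 1) (T.a (T.c (T.b (T.l 1) (T.l 884)) (T.b (T.l 1) (T.l 884))) (T.c (T.b (T.l 1) (T.l 884))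 (T.b (T.l 1) (T.l 884))))))))) (T.a (T.c (T.b (T.l 1) (T.c (T.b (T.l 1) (T.a (T.c (T.b (T.l 1) (T.l 884)) (T.b (T.l 1) (T.l 884))) (T.a (T.c (T.b (T.l 1) (T.l 884)) (T.b (T.l 1) (T.l 884))) (T.l 1024)))) (T.b (T.l 1) (T.a (T.c (T.b (T.l 1) (T.l 884)) (T.b (T.l 1) (T.l 884))) (T.a (T.c (T.b (T.l 1) (T.l 884)) (T.b (T.l 1) (T.l 884))) (T.l 1024)))))) (T.b (T.l 1) (T.c (T.b (T.l 1) (T.a (T.c (T.b (T.l 1) (T.l 884)) (T.b (T.l 1) (T.l 884))) (T.a (T.c (T.b (T.l 1) (T.l 884)) (T.b (T.l 1) (T.l 884))) (T.l 1024)))) (T.b (T.l 1) (T.a (T.c (T.b (T.l 1) (T.l 884)) (T.b (T.l 1) (T.l 884))) (T.a (T.c (T.b (T.l 1) (T.l 884)) (T.b (T.l 1) (T.l 884))) (T.l 1024))))))) (T.l 1024)))))), by decide +kernel⟩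

def B101L_200_26_2047_9 :
    ∃ t, chk3 (onCell 0 50331648 0 1073741824 50331648 16777216 (corTK [[⟨0, 1, 2, 33554432⟩, ⟨1, 0, 1, 33554432⟩, ⟨2, 1, 0, 15728640⟩, ⟨0, 0, 0, 1040187392⟩, ⟨0, 1, 0, 83886080⟩, ⟨1, 0, 0, 83886080⟩, ⟨1, 1, 0, 1040187392⟩]] true 1 c0F cB101L gF2q1 gF0q1 gF0q0 gF1q0 true true)) t 26 2047 9 = true :=
  ⟨(T.b (T.l 1) (T.c (T.b (T.l 1) (T.a (T.c (T.b (T.l 1) (T.a (T.c (T.b (T.l 1) (T.a (T.c (T.b (T.l 1) (T.l 884)) (T.b (T.l 1) (T.l 884))) (T.c (T.b (T.l 1) (T.l 884)) (T.b (T.l 1) (T.l 884))))) (T.b (T.l 1) (T.a (T.c (T.b (T.l 1) (T.l 884)) (T.a (T.l 884) (T.l 884))) (T.c (T.b (T.l 1) (T.l 884)) (T.b (T.l 1) (T.l 884)))))) (T.c (T.b (T.l 1) (T.a (T.c (T.b (T.l 1) (T.l 884)) (T.b (T.l 1) (T.l 884))) (T.c (T.b (T.l 1) (T.l 884)) (T.b (T.l 1) (T.l 884))))) (T.b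 (T.l 1) (T.a (T.c (T.b (T.l 1) (T.l 884)) (T.b (T.l 1) (T.l 884))) (T.c (T.b (T.l 1) (T.l 884)) (T.b (T.l 1) (T.l 884)))))))) (T.b (T.l 1) (T.a (T.c (T.b (T.l 1) (T.a (T.a (T.l 884) (T.l 884)) (T.c (T.b (T.l 1) (T.l 884)) (T.b (T.l 1) (T.l 884))))) (T.b (T.l 1) (T.a (T.l 884) (T.c (T.b (T.l 1) (T.l 884)) (T.a (T.l 884) (T.l 884)))))) (T.c (T.b (T.l 1) (T.a (T.c (T.b (T.l 1) (T.l 884)) (T.b (T.l 1) (T.l 884))) (T.c (T.b (T.l 1) (T.l 884)) (T.b (T.l 1) (T.l 884))))) (T.b (T.l 1) (T.a (T.c (T.b (T.l 1) (T.l 884)) (T.b (T.l 1) (T.l 884))) (T.c (T.b (T.l 1) (T.l 884)) (T.b (T.l 1) (T.l 884))))))))) (T.a (T.c (T.b (T.l 1) (T.c (T.b (T.l 1) (T.a (T.c (T.b (T.l 1) (T.l 884)) (T.b (T.l 1) (T.l 884))) (T.a (T.c (T.b (T.l 1) (T.l 884)) (T.b (T.l 1) (T.l 884))) (T.l 1024)))) (T.b (T.l 1) (T.a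 (T.c (T.b (T.l 1) (T.l 884)) (T.b (T.l 1) (T.l 884))) (T.a (T.c (T.b (T.l 1) (T.l 884)) (T.b (T.l 1) (T.l 884))) (T.l 1024)))))) (T.b (T.l 1) (T.c (T.b (T.l 1) (T.a (T.c (T.b (T.l 1) (T.l 884)) (T.b (T.l 1) (T.l 884))) (T.a (T.c (T.b (T.l 1) (T.l 884)) (T.b (T.l 1) (T.l 884))) (T.l 1024)))) (T.b (T.l 1) (T.a (T.c (T.b (T.l 1) (T.l 884)) (T.b (T.l 1) (T.l 884))) (T.a (T.c (T.b (T.l 1) (T.l 884)) (T.b (T.l 1) (T.l 884))) (T.l 1024))))))) (T.l 1024)))) (T.b (T.l 1) (T.a (T.c (T.b (T.l 1) (T.a (T.c (T.b (T.l 1) (T.a (T.l 884) (T.a (T.l 884) (T.l 884)))) (T.b (T.l 1) (T.a (T.l 884) (T.l 884)))) (T.c (T.b (T.l 1) (T.a (T.c (T.b (T.l 1) (T.l 884)) (T.b (T.l 1) (T.l 884))) (T.c (T.b (T.l 1) (T.l 884)) (T.b (T.l 1) (T.l 884))))) (T.b (T.l 1) (T.a (T.c (T.b (T.l 1) (T.l 884)) (T.b (T.l 1)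 (T.l 884))) (T.c (T.b (T.l 1) (T.l 884)) (T.b (T.l 1) (T.l 884)))))))) (T.b (T.l 1) (T.a (T.c (T.b (T.l 1) (T.a (T.l 884) (T.l 884))) (T.b (T.l 1) (T.a (T.l 884) (T.l 884)))) (T.c (T.b (T.l 1) (T.a (T.a (T.l 884) (T.l 884)) (T.c (T.b (T.l 1) (T.l 884)) (T.b (T.l 1) (T.l 884))))) (T.b (T.l 1) (T.a (T.a (T.l 884) (T.l 884)) (T.c (T.b (T.l 1) (T.l 884)) (T.b (T.l 1) (T.l 884))))))))) (T.a (T.c (T.b (T.l 1) (T.c (T.b (T.l 1) (T.a (T.c (T.b (T.l 1) (T.l 884)) (T.b (T.l 1) (T.l 884))) (T.c (T.b (T.l 1) (T.l 884)) (T.b (T.l 1) (T.l 884))))) (T.b (T.l 1) (T.a (T.c (T.b (T.l 1) (T.l 884)) (T.b (T.l 1) (T.l 884))) (T.c (T.b (T.l 1) (T.l 884)) (T.b (T.l 1) (T.l 884))))))) (T.b (T.l 1) (T.c (T.b (T.l 1) (T.a (T.c (T.b (T.l 1) (T.l 884)) (T.b (T.l 1) (T.l 884))) (T.c (T.b (T.l 1) (T.l 884)) (T.b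 (T.l 1) (T.l 884))))) (T.b (T.l 1) (T.a (T.c (T.b (T.l 1) (T.l 884)) (T.b (T.l 1) (T.l 884))) (T.c (T.b (T.l 1) (T.l 884)) (T.b (T.l 1) (T.l 884)))))))) (T.l 1024)))))), by decide +kernel⟩

def B101L_200_27_2047_4 :
    ∃ t, chk3 (onCell 0 50331648 0 1073741824 50331648 16777216 (corTK [[⟨0, 1, 2, 33554432⟩, ⟨1, 0, 1, 33554432⟩, ⟨2, 1, 0, 15728640⟩, ⟨0, 0, 0, 1040187392⟩, ⟨0, 1, 0, 83886080⟩, ⟨1, 0, 0, 83886080⟩, ⟨1, 1, 0, 1040187392⟩]] true 1 c0F cB101L gF2q1 gF0q1 gF0q0 gF1q0 true true)) t 27 2047 4 = true :=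
  ⟨(T.l 1024), by decide +kernel⟩

def B101L_200_6_2046_5 :
    ∃ t, chk3 (onCell 0 50331648 0 1073741824 50331648 16777216 (corTK [[⟨0, 1, 2, 33554432⟩, ⟨1, 0, 1, 33554432⟩, ⟨2, 1, 0, 15728640⟩, ⟨0, 0, 0, 1040187392⟩, ⟨0, 1, 0, 83886080⟩, ⟨1, 0, 0, 83886080⟩, ⟨1, 1, 0, 1040187392⟩]] true 1 c0F cB101L gF2q1 gF0q1 gF0q0 gF1q0 true true)) t 6 2046 5 = true :=
  ⟨(T.l 1), by decide +kernel⟩

def B101L_200_12_2047_5 :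
    ∃ t, chk3 (onCell 0 50331648 0 1073741824 50331648 16777216 (corTK [[⟨0, 1, 2, 33554432⟩, ⟨1, 0, 1, 33554432⟩, ⟨2, 1, 0, 15728640⟩, ⟨0, 0, 0, 1040187392⟩, ⟨0, 1, 0, 83886080⟩, ⟨1, 0, 0, 83886080⟩, ⟨1, 1, 0, 1040187392⟩]] true 1 c0F cB101L gF2q1 gF0q1 gF0q0 gF1q0 true true)) t 12 2047 5 = true :=
  ⟨(T.c (T.b (T.l 1) (T.a (T.c (T.b (T.l 1) (T.a (T.c (T.b (T.l 1) (T.a (T.l 884) (T.l 884))) (T.b (T.l 1) (T.a (T.l 884) (T.l 884)))) (T.c (T.b (T.l 1) (T.a (T.a (T.l 884) (T.l 884)) (T.c (T.b (T.l 1) (T.l 884)) (T.b (T.l 1) (T.l 884))))) (T.b (T.l 1) (T.a (T.l 884) (T.a (T.l 884) (T.l 884))))))) (T.b (T.l 1) (T.a (T.c (T.b (T.l 1) (T.a (T.l 884) (T.l 884))) (T.b (T.l 1) (T.a (T.l 884) (T.l 884)))) (T.c (T.b (T.l 1) (T.a (T.l 884) (T.a (T.l 884) (T.l 884)))) (T.b (T.l 1) (T.a (T.l 884)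 (T.a (T.l 884) (T.l 884)))))))) (T.c (T.b (T.l 1) (T.a (T.c (T.b (T.l 1) (T.a (T.c (T.b (T.l 1) (T.l 884)) (T.b (T.l 1) (T.l 884))) (T.c (T.b (T.l 1) (T.l 884)) (T.b (T.l 1) (T.l 884))))) (T.b (T.l 1) (T.a (T.c (T.b (T.l 1) (T.l 884)) (T.b (T.l 1) (T.l 884))) (T.c (T.b (T.l 1) (T.l 884)) (T.b (T.l 1) (T.l 884)))))) (T.c (T.b (T.l 1) (T.a (T.c (T.b (T.l 1) (T.a (T.l 884) (T.l 884))) (T.b (T.l 1) (T.a (T.l 884) (T.l 884)))) (T.c (T.b (T.l 1) (T.a (T.l 884) (T.l 884))) (T.b (T.l 1) (T.a (T.l 884) (T.l 884)))))) (T.b (T.l 1) (T.a (T.c (T.b (T.l 1) (T.a (T.l 884) (T.l 884))) (T.b (T.l 1) (T.a (T.l 884) (T.l 884)))) (T.c (T.b (T.l 1) (T.a (T.l 884) (T.l 884))) (T.b (T.l 1) (T.a (T.l 884) (T.l 884))))))))) (T.b (T.l 1) (T.a (T.c (T.b (T.l 1) (T.a (T.c (T.b (T.l 1) (T.l 884)) (T.b (T.l 1)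 (T.l 884))) (T.c (T.b (T.l 1) (T.l 884)) (T.b (T.l 1) (T.l 884))))) (T.b (T.l 1) (T.a (T.c (T.b (T.l 1) (T.l 884)) (T.b (T.l 1) (T.l 884))) (T.c (T.b (T.l 1) (T.l 884)) (T.b (T.l 1) (T.l 884)))))) (T.c (T.b (T.l 1) (T.a (T.c (T.b (T.l 1) (T.a (T.l 884) (T.l 884))) (T.b (T.l 1) (T.a (T.l 884) (T.l 884)))) (T.c (T.b (T.l 1) (T.a (T.l 884) (T.l 884))) (T.b (T.l 1) (T.a (T.l 884) (T.l 884)))))) (T.b (T.l 1) (T.a (T.c (T.b (T.l 1) (T.l 884)) (T.b (T.l 1) (T.l 884))) (T.c (T.b (T.l 1) (T.a (T.l 884) (T.l 884))) (T.b (T.l 1) (T.a (T.l 884) (T.l 884)))))))))))) (T.b (T.l 1) (T.a (T.c (T.b (T.l 1) (T.a (T.c (T.b (T.l 1) (T.a (T.l 884) (T.l 884))) (T.b (T.l 1) (T.a (T.l 884) (T.l 884)))) (T.c (T.b (T.l 1) (T.a (T.l 884) (T.a (T.l 884) (T.l 884)))) (T.b (T.l 1) (T.a (T.l 884) (T.a (T.l 884)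 (T.l 884))))))) (T.b (T.l 1) (T.a (T.c (T.b (T.l 1) (T.a (T.l 884) (T.l 884))) (T.b (T.l 1) (T.a (T.l 884) (T.l 884)))) (T.c (T.b (T.l 1) (T.a (T.l 884) (T.a (T.l 884) (T.l 884)))) (T.b (T.l 1) (T.a (T.l 884) (T.a (T.l 884) (T.l 884)))))))) (T.c (T.b (T.l 1) (T.a (T.c (T.b (T.l 1) (T.a (T.c (T.b (T.l 1) (T.l 884)) (T.b (T.l 1) (T.l 884))) (T.c (T.b (T.l 1) (T.l 884)) (T.b (T.l 1) (T.l 884))))) (T.b (T.l 1) (T.a (T.c (T.b (T.l 1) (T.l 884)) (T.b (T.l 1) (T.l 884))) (T.c (T.b (T.l 1) (T.l 884)) (T.b (T.l 1) (T.l 884)))))) (T.c (T.b (T.l 1) (T.a (T.c (T.b (T.l 1) (T.l 884)) (T.b (T.l 1) (T.l 884))) (T.c (T.b (T.l 1) (T.l 884)) (T.b (T.l 1) (T.l 884))))) (T.b (T.l 1) (T.a (T.c (T.b (T.l 1) (T.l 884)) (T.b (T.l 1) (T.l 884))) (T.c (T.b (T.l 1) (T.l 884)) (T.b (T.l 1) (T.l 884))))))))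 (T.b (T.l 1) (T.a (T.c (T.b (T.l 1) (T.a (T.c (T.b (T.l 1) (T.l 884)) (T.b (T.l 1) (T.l 884))) (T.c (T.b (T.l 1) (T.l 884)) (T.b (T.l 1) (T.l 884))))) (T.b (T.l 1) (T.a (T.c (T.b (T.l 1) (T.l 884)) (T.a (T.l 884) (T.l 884))) (T.c (T.b (T.l 1) (T.l 884)) (T.b (T.l 1) (T.l 884)))))) (T.c (T.b (T.l 1) (T.a (T.c (T.b (T.l 1) (T.l 884)) (T.b (T.l 1) (T.l 884))) (T.c (T.b (T.l 1) (T.l 884)) (T.b (T.l 1) (T.l 884))))) (T.b (T.l 1) (T.a (T.c (T.b (T.l 1) (T.l 884)) (T.b (T.l 1) (T.l 884))) (T.c (T.b (T.l 1) (T.l 884)) (T.b (T.l 1) (T.l 884)))))))))))), by decide +kernel⟩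

def B101L_200_13_2047_5 :
    ∃ t, chk3 (onCell 0 50331648 0 1073741824 50331648 16777216 (corTK [[⟨0, 1, 2, 33554432⟩, ⟨1, 0, 1, 33554432⟩, ⟨2, 1, 0, 15728640⟩, ⟨0, 0, 0, 1040187392⟩, ⟨0, 1, 0, 83886080⟩, ⟨1, 0, 0, 83886080⟩, ⟨1, 1, 0, 1040187392⟩]] true 1 c0F cB101L gF2q1 gF0q1 gF0q0 gF1q0 true true)) t 13 2047 5 = true :=
  ⟨(T.a (T.c (T.b (T.l 1) (T.c (T.b (T.l 1) (T.a (T.c (T.b (T.l 1) (T.a (T.c (T.b (T.l 1) (T.a (T.l 884) (T.l 884))) (T.b (T.l 1) (T.a (T.l 884) (T.l 884)))) (T.c (T.b (T.l 1) (T.a (T.l 884) (T.c (T.b (T.l 1) (T.l 884)) (T.b (T.l 1) (T.l 884))))) (T.b (T.l 1) (T.a (T.l 884) (T.c (T.b (T.l 1) (T.l 884)) (T.a (T.l 884) (T.l 884)))))))) (T.b (T.l 1) (T.a (T.c (T.b (T.l 1) (T.a (T.l 884) (T.l 884))) (T.b (T.l 1) (T.a (T.l 884) (T.l 884)))) (T.c (T.b (T.l 1) (T.a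 (T.l 884) (T.a (T.l 884) (T.l 884)))) (T.b (T.l 1) (T.a (T.l 884) (T.l 884))))))) (T.a (T.c (T.b (T.l 1) (T.c (T.b (T.l 1) (T.a (T.c (T.b (T.l 1) (T.l 884)) (T.b (T.l 1) (T.l 884))) (T.c (T.b (T.l 1) (T.l 884)) (T.b (T.l 1) (T.l 884))))) (T.b (T.l 1) (T.a (T.c (T.b (T.l 1) (T.l 884)) (T.b (T.l 1) (T.l 884))) (T.c (T.b (T.l 1) (T.l 884)) (T.b (T.l 1) (T.l 884))))))) (T.b (T.l 1) (T.c (T.b (T.l 1) (T.a (T.c (T.b (T.l 1) (T.l 884)) (T.b (T.l 1) (T.l 884))) (T.c (T.b (T.l 1) (T.l 884)) (T.b (T.l 1) (T.l 884))))) (T.b (T.l 1) (T.a (T.c (T.b (T.l 1) (T.l 884)) (T.b (T.l 1) (T.l 884))) (T.c (T.b (T.l 1) (T.l 884)) (T.b (T.l 1) (T.l 884)))))))) (T.l 1024)))) (T.b (T.l 1) (T.a (T.c (T.b (T.l 1) (T.a (T.c (T.b (T.l 1) (T.a (T.l 884) (T.l 884))) (T.b (T.l 1) (T.a (T.l 884) (T.l 884)))) (T.c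 (T.b (T.l 1) (T.a (T.l 884) (T.l 884))) (T.b (T.l 1) (T.a (T.l 884) (T.l 884)))))) (T.b (T.l 1) (T.a (T.c (T.b (T.l 1) (T.a (T.l 884) (T.l 884))) (T.b (T.l 1) (T.l 884))) (T.c (T.b (T.l 1) (T.a (T.l 884) (T.l 884))) (T.b (T.l 1) (T.a (T.l 884) (T.l 884))))))) (T.a (T.c (T.b (T.l 1) (T.c (T.b (T.l 1) (T.a (T.c (T.b (T.l 1) (T.l 884)) (T.b (T.l 1) (T.l 884))) (T.c (T.b (T.l 1) (T.l 884)) (T.b (T.l 1) (T.l 884))))) (T.b (T.l 1) (T.a (T.c (T.b (T.l 1) (T.l 884)) (T.a (T.l 884) (T.l 884))) (T.c (T.b (T.l 1) (T.l 884)) (T.b (T.l 1) (T.l 884))))))) (T.b (T.l 1) (T.c (T.b (T.l 1) (T.a (T.a (T.l 884) (T.l 884)) (T.c (T.b (T.l 1) (T.l 884)) (T.b (T.l 1) (T.l 884))))) (T.b (T.l 1) (T.a (T.a (T.l 884) (T.l 884)) (T.c (T.b (T.l 1) (T.l 884)) (T.b (T.l 1) (T.l 884)))))))) (T.l 1024)))))) (T.b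 (T.l 1) (T.c (T.b (T.l 1) (T.a (T.c (T.b (T.l 1) (T.a (T.c (T.b (T.l 1) (T.l 884)) (T.b (T.l 1) (T.l 884))) (T.c (T.b (T.l 1) (T.a (T.l 884) (T.l 884))) (T.b (T.l 1) (T.l 884))))) (T.b (T.l 1) (T.a (T.c (T.b (T.l 1) (T.l 884)) (T.b (T.l 1) (T.l 884))) (T.c (T.b (T.l 1) (T.l 884)) (T.b (T.l 1) (T.l 884)))))) (T.a (T.c (T.b (T.l 1) (T.c (T.b (T.l 1) (T.a (T.l 884) (T.c (T.b (T.l 1) (T.l 884)) (T.b (T.l 1) (T.l 884))))) (T.b (T.l 1) (T.a (T.l 884) (T.c (T.b (T.l 1) (T.l 884)) (T.b (T.l 1) (T.l 884))))))) (T.b (T.l 1) (T.c (T.b (T.l 1) (T.a (T.l 884) (T.a (T.l 884) (T.l 1024)))) (T.b (T.l 1) (T.a (T.l 884) (T.a (T.l 884) (T.l 1024))))))) (T.l 1024)))) (T.b (T.l 1) (T.a (T.c (T.b (T.l 1) (T.a (T.c (T.b (T.l 1) (T.l 884)) (T.b (T.l 1) (T.l 884))) (T.c (T.b (T.l 1) (T.l 884)) (T.b (T.l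 1) (T.l 884))))) (T.b (T.l 1) (T.a (T.c (T.b (T.l 1) (T.l 884)) (T.b (T.l 1) (T.l 884))) (T.c (T.b (T.l 1) (T.l 884)) (T.b (T.l 1) (T.l 884)))))) (T.a (T.c (T.b (T.l 1) (T.c (T.b (T.l 1) (T.a (T.l 884) (T.a (T.l 884) (T.l 1024)))) (T.b (T.l 1) (T.a (T.l 884) (T.a (T.l 884) (T.l 1024)))))) (T.b (T.l 1) (T.c (T.b (T.l 1) (T.a (T.l 884) (T.a (T.l 884) (T.l 1024)))) (T.b (T.l 1) (T.a (T.l 884) (T.a (T.l 884) (T.l 1024))))))) (T.l 1024))))))) (T.l 1024)), by decide +kernel⟩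

def B101L_200_6_1022_3 :
    ∃ t, chk3 (onCell 0 50331648 0 1073741824 50331648 16777216 (corTK [[⟨0, 1, 2, 33554432⟩, ⟨1, 0, 1, 33554432⟩, ⟨2, 1, 0, 15728640⟩, ⟨0, 0, 0, 1040187392⟩, ⟨0, 1, 0, 83886080⟩, ⟨1, 0, 0, 83886080⟩, ⟨1, 1, 0, 1040187392⟩]] true 1 c0F cB101L gF2q1 gF0q1 gF0q0 gF1q0 true true)) t 6 1022 3 = true :=
  ⟨(T.l 1), by decide +kernel⟩

def B101L_200_6_1023_6 :
    ∃ t, chk3 (onCell 0 50331648 0 1073741824 50331648 16777216 (corTK [[⟨0, 1, 2, 33554432⟩, ⟨1, 0, 1, 33554432⟩, ⟨2, 1, 0, 15728640⟩, ⟨0, 0, 0, 1040187392⟩, ⟨0, 1, 0, 83886080⟩, ⟨1, 0, 0, 83886080⟩, ⟨1, 1, 0, 1040187392⟩]] true 1 c0F cB101L gF2q1 gF0q1 gF0q0 gF1q0 true true)) t 6 1023 6 = true :=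
  ⟨(T.b (T.l 1) (T.a (T.c (T.b (T.l 1) (T.a (T.c (T.b (T.l 1) (T.a (T.c (T.b (T.l 1) (T.a (T.l 884) (T.l 884))) (T.b (T.l 1) (T.a (T.l 820) (T.l 884)))) (T.c (T.b (T.l 1) (T.a (T.l 884) (T.a (T.l 884) (T.l 884)))) (T.b (T.l 1) (T.a (T.l 884) (T.a (T.l 884) (T.l 884))))))) (T.b (T.l 1) (T.a (T.c (T.b (T.l 1) (T.a (T.l 820) (T.l 884))) (T.b (T.l 1) (T.a (T.l 820) (T.l 884)))) (T.c (T.b (T.l 1) (T.a (T.l 884) (T.l 884))) (T.b (T.l 1) (T.a (T.l 884) (T.l 884))))))) (T.c (T.b (T.l 1) (T.a (T.c (T.b (T.l 1) (T.a (T.a (T.l 884) (T.l 884)) (T.c (T.b (T.l 1) (T.l 884)) (T.b (T.l 1) (T.l 884))))) (T.b (T.l 1) (T.a (T.a (T.l 884) (T.l 884)) (T.c (T.b (T.l 1) (T.l 884)) (T.b (T.l 1) (T.l 884)))))) (T.c (T.b (T.l 1) (T.a (T.c (T.b (T.l 1) (T.l 884)) (T.b (T.l 1) (T.l 884))) (T.c (T.b (T.l 1)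 (T.l 884)) (T.b (T.l 1) (T.l 884))))) (T.b (T.l 1) (T.a (T.c (T.b (T.l 1) (T.l 884)) (T.b (T.l 1) (T.l 884))) (T.c (T.b (T.l 1) (T.l 884)) (T.b (T.l 1) (T.l 884)))))))) (T.b (T.l 1) (T.a (T.c (T.b (T.l 1) (T.a (T.a (T.l 884) (T.l 884)) (T.c (T.b (T.l 1) (T.l 884)) (T.b (T.l 1) (T.l 884))))) (T.b (T.l 1) (T.a (T.a (T.l 884) (T.l 884)) (T.c (T.b (T.l 1) (T.l 884)) (T.b (T.l 1) (T.l 884)))))) (T.c (T.b (T.l 1) (T.a (T.c (T.b (T.l 1) (T.l 884)) (T.b (T.l 1) (T.l 884))) (T.c (T.b (T.l 1) (T.l 884)) (T.b (T.l 1) (T.l 884))))) (T.b (T.l 1) (T.a (T.c (T.b (T.l 1) (T.l 884)) (T.b (T.l 1) (T.l 884))) (T.c (T.b (T.l 1) (T.l 884)) (T.b (T.l 1) (T.l 884))))))))))) (T.b (T.l 1) (T.a (T.c (T.b (T.l 1) (T.a (T.c (T.b (T.l 1) (T.a (T.l 820) (T.l 884))) (T.b (T.l 1) (T.a (T.l 820) (T.l 820)))) (T.c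 (T.b (T.l 1) (T.a (T.l 884) (T.l 884))) (T.b (T.l 1) (T.a (T.l 884) (T.l 884)))))) (T.b (T.l 1) (T.a (T.c (T.b (T.l 1) (T.a (T.l 820) (T.l 820))) (T.b (T.l 1) (T.a (T.l 820) (T.l 820)))) (T.c (T.b (T.l 1) (T.a (T.l 884) (T.l 884))) (T.b (T.l 1) (T.a (T.l 884) (T.l 884))))))) (T.c (T.b (T.l 1) (T.a (T.c (T.b (T.l 1) (T.a (T.a (T.l 884) (T.l 884)) (T.c (T.b (T.l 1) (T.l 884)) (T.b (T.l 1) (T.l 884))))) (T.b (T.l 1) (T.a (T.a (T.l 884) (T.l 884)) (T.c (T.b (T.l 1) (T.l 884)) (T.b (T.l 1) (T.l 884)))))) (T.c (T.b (T.l 1) (T.a (T.c (T.b (T.l 1) (T.l 884)) (T.b (T.l 1) (T.l 884))) (T.c (T.b (T.l 1) (T.l 884)) (T.b (T.l 1) (T.l 884))))) (T.b (T.l 1) (T.a (T.c (T.b (T.l 1) (T.l 884)) (T.b (T.l 1) (T.l 884))) (T.c (T.b (T.l 1) (T.l 884)) (T.b (T.l 1) (T.l 884)))))))) (T.b (T.l 1) (T.a (T.c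 (T.b (T.l 1) (T.a (T.l 884) (T.c (T.b (T.l 1) (T.l 884)) (T.a (T.l 884) (T.l 884))))) (T.b (T.l 1) (T.a (T.l 884) (T.a (T.l 884) (T.l 884))))) (T.c (T.b (T.l 1) (T.a (T.c (T.b (T.l 1) (T.l 884)) (T.b (T.l 1) (T.l 884))) (T.c (T.b (T.l 1) (T.l 884)) (T.b (T.l 1) (T.l 884))))) (T.b (T.l 1) (T.a (T.c (T.b (T.l 1) (T.l 884)) (T.b (T.l 1) (T.l 884))) (T.c (T.b (T.l 1) (T.l 884)) (T.b (T.l 1) (T.l 884)))))))))))) (T.a (T.c (T.b (T.l 1) (T.c (T.b (T.l 1) (T.a (T.c (T.b (T.l 1) (T.a (T.c (T.b (T.l 1) (T.l 884)) (T.b (T.l 1) (T.l 884))) (T.c (T.b (T.l 1) (T.l 884)) (T.b (T.l 1) (T.l 884))))) (T.b (T.l 1) (T.a (T.c (T.b (T.l 1) (T.l 884)) (T.b (T.l 1) (T.l 884))) (T.c (T.b (T.l 1) (T.l 884)) (T.b (T.l 1) (T.l 884)))))) (T.a (T.c (T.b (T.l 1) (T.c (T.b (T.l 1) (T.a (T.l 884) (T.a (T.l 884)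 (T.l 1024)))) (T.b (T.l 1) (T.a (T.l 884) (T.a (T.l 884) (T.l 1024)))))) (T.b (T.l 1) (T.c (T.b (T.l 1) (T.a (T.l 884) (T.l 884))) (T.b (T.l 1) (T.a (T.l 884) (T.l 884)))))) (T.l 1024)))) (T.b (T.l 1) (T.a (T.c (T.b (T.l 1) (T.a (T.c (T.b (T.l 1) (T.l 884)) (T.b (T.l 1) (T.l 884))) (T.c (T.b (T.l 1) (T.l 884)) (T.b (T.l 1) (T.l 884))))) (T.b (T.l 1) (T.a (T.c (T.b (T.l 1) (T.l 884)) (T.b (T.l 1) (T.l 884))) (T.c (T.b (T.l 1) (T.l 884)) (T.b (T.l 1) (T.l 884)))))) (T.a (T.c (T.b (T.l 1) (T.c (T.b (T.l 1) (T.a (T.l 884) (T.l 884))) (T.b (T.l 1) (T.a (T.l 884) (T.l 884))))) (T.b (T.l 1) (T.c (T.b (T.l 1) (T.a (T.l 884) (T.l 884))) (T.b (T.l 1) (T.a (T.l 884) (T.l 884)))))) (T.l 1024)))))) (T.b (T.l 1) (T.c (T.b (T.l 1) (T.a (T.c (T.b (T.l 1) (T.a (T.c (T.b (T.l 1) (T.l 884)) (T.b (T.l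 1) (T.l 884))) (T.c (T.b (T.l 1) (T.l 884)) (T.b (T.l 1) (T.l 884))))) (T.b (T.l 1) (T.a (T.c (T.b (T.l 1) (T.l 884)) (T.b (T.l 1) (T.l 884))) (T.c (T.b (T.l 1) (T.l 884)) (T.b (T.l 1) (T.l 884)))))) (T.a (T.c (T.b (T.l 1) (T.c (T.b (T.l 1) (T.a (T.l 884) (T.l 884))) (T.b (T.l 1) (T.a (T.l 884) (T.l 884))))) (T.b (T.l 1) (T.c (T.b (T.l 1) (T.a (T.l 884) (T.l 884))) (T.b (T.l 1) (T.a (T.l 884) (T.l 884)))))) (T.l 1024)))) (T.b (T.l 1) (T.a (T.c (T.b (T.l 1) (T.a (T.c (T.b (T.l 1) (T.l 884)) (T.b (T.l 1) (T.l 884))) (T.c (T.b (T.l 1) (T.l 884)) (T.b (T.l 1) (T.l 884))))) (T.b (T.l 1) (T.a (T.c (T.b (T.l 1) (T.l 884)) (T.b (T.l 1) (T.l 884))) (T.c (T.b (T.l 1) (T.l 884)) (T.b (T.l 1) (T.l 884)))))) (T.a (T.c (T.b (T.l 1) (T.c (T.b (T.l 1) (T.a (T.l 884) (T.l 884))) (T.b (T.l 1) (T.a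 (T.l 884) (T.l 884))))) (T.b (T.l 1) (T.c (T.b (T.l 1) (T.a (T.l 884) (T.l 884))) (T.b (T.l 1) (T.a (T.l 884) (T.l 884)))))) (T.l 1024))))))) (T.l 1024)))), by decide +kernel⟩

def B101L_200_6_1023_7 :
    ∃ t, chk3 (onCell 0 50331648 0 1073741824 50331648 16777216 (corTK [[⟨0, 1, 2, 33554432⟩, ⟨1, 0, 1, 33554432⟩, ⟨2, 1, 0, 15728640⟩, ⟨0, 0, 0, 1040187392⟩, ⟨0, 1, 0, 83886080⟩, ⟨1, 0, 0, 83886080⟩, ⟨1, 1, 0, 1040187392⟩]] true 1 c0F cB101L gF2q1 gF0q1 gF0q0 gF1q0 true true)) t 6 1023 7 = true :=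
  ⟨(T.b (T.l 1) (T.a (T.c (T.b (T.l 1) (T.a (T.c (T.b (T.l 1) (T.a (T.c (T.b (T.l 1) (T.a (T.l 820) (T.l 820))) (T.b (T.l 1) (T.a (T.l 820) (T.l 820)))) (T.c (T.b (T.l 1) (T.a (T.l 820) (T.l 884))) (T.b (T.l 1) (T.a (T.l 820) (T.l 884)))))) (T.b (T.l 1) (T.a (T.c (T.b (T.l 1) (T.a (T.l 820) (T.l 820))) (T.b (T.l 1) (T.a (T.l 820) (T.l 820)))) (T.c (T.b (T.l 1) (T.a (T.l 820) (T.l 884))) (T.b (T.l 1) (T.a (T.l 820) (T.l 884))))))) (T.c (T.b (T.l 1) (T.a (T.c (T.b (T.l 1) (T.a (T.l 884) (T.a (T.l 884) (T.l 884)))) (T.b (T.l 1) (T.a (T.l 884) (T.a (T.l 884) (T.l 884))))) (T.c (T.b (T.l 1) (T.a (T.c (T.b (T.l 1) (T.l 884)) (T.a (T.l 884) (T.l 884))) (T.c (T.b (T.l 1) (T.l 884)) (T.a (T.l 884) (T.l 884))))) (T.b (T.l 1) (T.a (T.a (T.l 884) (T.l 884)) (T.a (T.l 884) (T.l 884))))))) (T.b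 (T.l 1) (T.a (T.c (T.b (T.l 1) (T.a (T.l 884) (T.a (T.l 884) (T.l 884)))) (T.b (T.l 1) (T.a (T.l 884) (T.a (T.l 884) (T.l 884))))) (T.c (T.b (T.l 1) (T.a (T.a (T.l 884) (T.l 884)) (T.a (T.l 884) (T.l 884)))) (T.b (T.l 1) (T.a (T.a (T.l 884) (T.l 884)) (T.a (T.l 884) (T.l 884)))))))))) (T.b (T.l 1) (T.a (T.c (T.b (T.l 1) (T.a (T.c (T.b (T.l 1) (T.a (T.l 820) (T.l 820))) (T.b (T.l 1) (T.a (T.l 820) (T.l 820)))) (T.c (T.b (T.l 1) (T.a (T.l 820) (T.l 820))) (T.b (T.l 1) (T.a (T.l 820) (T.l 820)))))) (T.b (T.l 1) (T.a (T.c (T.b (T.l 1) (T.a (T.l 820) (T.l 820))) (T.b (T.l 1) (T.a (T.l 820) (T.l 820)))) (T.c (T.b (T.l 1) (T.a (T.l 820) (T.l 820))) (T.b (T.l 1) (T.a (T.l 820) (T.l 820))))))) (T.c (T.b (T.l 1) (T.a (T.c (T.b (T.l 1) (T.a (T.l 884) (T.a (T.l 884) (T.l 884)))) (T.b (T.l 1)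 (T.a (T.l 884) (T.a (T.l 884) (T.l 884))))) (T.c (T.b (T.l 1) (T.a (T.a (T.l 884) (T.l 884)) (T.a (T.l 884) (T.l 884)))) (T.b (T.l 1) (T.a (T.a (T.l 884) (T.l 884)) (T.a (T.l 884) (T.l 884))))))) (T.b (T.l 1) (T.a (T.c (T.b (T.l 1) (T.a (T.l 884) (T.l 884))) (T.b (T.l 1) (T.a (T.l 820) (T.l 884)))) (T.c (T.b (T.l 1) (T.a (T.a (T.l 884) (T.l 884)) (T.a (T.l 884) (T.l 884)))) (T.b (T.l 1) (T.a (T.l 884) (T.l 884)))))))))) (T.a (T.c (T.b (T.l 1) (T.c (T.b (T.l 1) (T.a (T.c (T.b (T.l 1) (T.a (T.c (T.a (T.l 884) (T.l 884)) (T.a (T.l 884) (T.l 884))) (T.c (T.b (T.l 1) (T.l 884)) (T.a (T.l 884) (T.l 884))))) (T.b (T.l 1) (T.a (T.a (T.l 884) (T.l 884)) (T.a (T.l 884) (T.l 884))))) (T.a (T.c (T.b (T.l 1) (T.c (T.b (T.l 1) (T.a (T.l 884) (T.l 884))) (T.b (T.l 1) (T.a (T.l 884) (T.l 884)))))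 (T.b (T.l 1) (T.c (T.b (T.l 1) (T.a (T.l 884) (T.l 884))) (T.b (T.l 1) (T.a (T.l 884) (T.l 884)))))) (T.l 1024)))) (T.b (T.l 1) (T.a (T.c (T.b (T.l 1) (T.a (T.a (T.l 884) (T.l 884)) (T.a (T.l 884) (T.l 884)))) (T.b (T.l 1) (T.a (T.a (T.l 884) (T.l 884)) (T.a (T.l 884) (T.l 884))))) (T.a (T.c (T.b (T.l 1) (T.c (T.b (T.l 1) (T.a (T.l 884) (T.l 884))) (T.b (T.l 1) (T.a (T.l 884) (T.l 884))))) (T.b (T.l 1) (T.c (T.b (T.l 1) (T.a (T.l 884) (T.l 884))) (T.a (T.l 884) (T.b (T.l 1) (T.l 884)))))) (T.l 1024)))))) (T.b (T.l 1) (T.c (T.b (T.l 1) (T.a (T.c (T.b (T.l 1) (T.a (T.a (T.l 884) (T.l 884)) (T.l 884))) (T.b (T.l 1) (T.a (T.l 884) (T.l 884)))) (T.a (T.c (T.b (T.l 1) (T.a (T.l 884) (T.c (T.b (T.l 1) (T.l 884)) (T.b (T.l 1) (T.l 884))))) (T.b (T.l 1) (T.a (T.l 884) (T.c (T.b (T.l 1) (T.l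 884)) (T.a (T.l 884) (T.l 1024)))))) (T.l 1024)))) (T.b (T.l 1) (T.a (T.c (T.b (T.l 1) (T.a (T.l 884) (T.l 884))) (T.b (T.l 1) (T.a (T.l 884) (T.l 884)))) (T.a (T.c (T.b (T.l 1) (T.a (T.l 884) (T.a (T.l 884) (T.l 1024)))) (T.b (T.l 1) (T.a (T.l 884) (T.a (T.l 884) (T.l 1024))))) (T.l 1024))))))) (T.l 1024)))), by decide +kernel⟩

def B101L_200_7_511_1 :
    ∃ t, chk3 (onCell 0 50331648 0 1073741824 50331648 16777216 (corTK [[⟨0, 1, 2, 33554432⟩, ⟨1, 0, 1, 33554432⟩, ⟨2, 1, 0, 15728640⟩, ⟨0, 0, 0, 1040187392⟩, ⟨0, 1, 0, 83886080⟩, ⟨1, 0, 0, 83886080⟩, ⟨1, 1, 0, 1040187392⟩]] true 1 c0F cB101L gF2q1 gF0q1 gF0q0 gF1q0 true true)) t 7 511 1 = true :=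
  ⟨(T.l 1024), by decide +kernel⟩

theorem B101L_200_6_1023_3 :
    ∃ t, chk3 (onCell 0 50331648 0 1073741824 50331648 16777216 (corTK [[⟨0, 1, 2, 33554432⟩, ⟨1, 0, 1, 33554432⟩, ⟨2, 1, 0, 15728640⟩, ⟨0, 0, 0, 1040187392⟩, ⟨0, 1, 0, 83886080⟩, ⟨1, 0, 0, 83886080⟩, ⟨1, 1, 0, 1040187392⟩]] true 1 c0F cB101L gF2q1 gF0q1 gF0q0 gF1q0 true true)) t 6 1023 3 = true :=
  ex3_c B101L_200_6_1023_6 B101L_200_6_1023_7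
theorem B101L_200_6_511_3 :
    ∃ t, chk3 (onCell 0 50331648 0 1073741824 50331648 16777216 (corTK [[⟨0, 1, 2, 33554432⟩, ⟨1, 0, 1, 33554432⟩, ⟨2, 1, 0, 15728640⟩, ⟨0, 0, 0, 1040187392⟩, ⟨0, 1, 0, 83886080⟩, ⟨1, 0, 0, 83886080⟩, ⟨1, 1, 0, 1040187392⟩]] true 1 c0F cB101L gF2q1 gF0q1 gF0q0 gF1q0 true true)) t 6 511 3 = true :=
  ex3_b B101L_200_6_1022_3 B101L_200_6_1023_3
theorem B101L_200_6_2047_5 :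
    ∃ t, chk3 (onCell 0 50331648 0 1073741824 50331648 16777216 (corTK [[⟨0, 1, 2, 33554432⟩, ⟨1, 0, 1, 33554432⟩, ⟨2, 1, 0, 15728640⟩, ⟨0, 0, 0, 1040187392⟩, ⟨0, 1, 0, 83886080⟩, ⟨1, 0, 0, 83886080⟩, ⟨1, 1, 0, 1040187392⟩]] true 1 c0F cB101L gF2q1 gF0q1 gF0q0 gF1q0 true true)) t 6 2047 5 = true :=
  ex3_a B101L_200_12_2047_5 B101L_200_13_2047_5
theorem B101L_200_6_1023_5 :
    ∃ t, chk3 (onCell 0 50331648 0 1073741824 50331648 16777216 (corTK [[⟨0, 1, 2, 33554432⟩, ⟨1, 0, 1, 33554432⟩, ⟨2, 1, 0, 15728640⟩, ⟨0, 0, 0, 1040187392⟩, ⟨0, 1, 0, 83886080⟩, ⟨1, 0, 0, 83886080⟩, ⟨1, 1, 0, 1040187392⟩]] true 1 c0F cB101L gF2q1 gF0q1 gF0q0 gF1q0 true true)) t 6 1023 5 = true :=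
  ex3_b B101L_200_6_2046_5 B101L_200_6_2047_5
theorem B101L_200_26_2047_4 :
    ∃ t, chk3 (onCell 0 50331648 0 1073741824 50331648 16777216 (corTK [[⟨0, 1, 2, 33554432⟩, ⟨1, 0, 1, 33554432⟩, ⟨2, 1, 0, 15728640⟩, ⟨0, 0, 0, 1040187392⟩, ⟨0, 1, 0, 83886080⟩, ⟨1, 0, 0, 83886080⟩, ⟨1, 1, 0, 1040187392⟩]] true 1 c0F cB101L gF2q1 gF0q1 gF0q0 gF1q0 true true)) t 26 2047 4 = true :=
  ex3_c B101L_200_26_2047_8 B101L_200_26_2047_9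
theorem B101L_200_13_2047_4 :
    ∃ t, chk3 (onCell 0 50331648 0 1073741824 50331648 16777216 (corTK [[⟨0, 1, 2, 33554432⟩, ⟨1, 0, 1, 33554432⟩, ⟨2, 1, 0, 15728640⟩, ⟨0, 0, 0, 1040187392⟩, ⟨0, 1, 0, 83886080⟩, ⟨1, 0, 0, 83886080⟩, ⟨1, 1, 0, 1040187392⟩]] true 1 c0F cB101L gF2q1 gF0q1 gF0q0 gF1q0 true true)) t 13 2047 4 = true :=
  ex3_a B101L_200_26_2047_4 B101L_200_27_2047_4
theorem B101L_200_12_2047_4 :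
    ∃ t, chk3 (onCell 0 50331648 0 1073741824 50331648 16777216 (corTK [[⟨0, 1, 2, 33554432⟩, ⟨1, 0, 1, 33554432⟩, ⟨2, 1, 0, 15728640⟩, ⟨0, 0, 0, 1040187392⟩, ⟨0, 1, 0, 83886080⟩, ⟨1, 0, 0, 83886080⟩, ⟨1, 1, 0, 1040187392⟩]] true 1 c0F cB101L gF2q1 gF0q1 gF0q0 gF1q0 true true)) t 12 2047 4 = true :=
  ex3_c B101L_200_12_2047_8 B101L_200_12_2047_9
theorem B101L_200_6_2047_4 :
    ∃ t, chk3 (onCell 0 50331648 0 1073741824 50331648 16777216 (corTK [[⟨0, 1, 2, 33554432⟩, ⟨1, 0, 1, 33554432⟩, ⟨2, 1, 0, 15728640⟩, ⟨0, 0, 0, 1040187392⟩, ⟨0, 1, 0, 83886080⟩, ⟨1, 0, 0, 83886080⟩, ⟨1, 1, 0, 1040187392⟩]] true 1 c0F cB101L gF2q1 gF0q1 gF0q0 gF1q0 true true)) t 6 2047 4 = true :=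
  ex3_a B101L_200_12_2047_4 B101L_200_13_2047_4
theorem B101L_200_6_1023_4 :
    ∃ t, chk3 (onCell 0 50331648 0 1073741824 50331648 16777216 (corTK [[⟨0, 1, 2, 33554432⟩, ⟨1, 0, 1, 33554432⟩, ⟨2, 1, 0, 15728640⟩, ⟨0, 0, 0, 1040187392⟩, ⟨0, 1, 0, 83886080⟩, ⟨1, 0, 0, 83886080⟩, ⟨1, 1, 0, 1040187392⟩]] true 1 c0F cB101L gF2q1 gF0q1 gF0q0 gF1q0 true true)) t 6 1023 4 = true :=
  ex3_b B101L_200_6_2046_4 B101L_200_6_2047_4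
theorem B101L_200_6_1023_2 :
    ∃ t, chk3 (onCell 0 50331648 0 1073741824 50331648 16777216 (corTK [[⟨0, 1, 2, 33554432⟩, ⟨1, 0, 1, 33554432⟩, ⟨2, 1, 0, 15728640⟩, ⟨0, 0, 0, 1040187392⟩, ⟨0, 1, 0, 83886080⟩, ⟨1, 0, 0, 83886080⟩, ⟨1, 1, 0, 1040187392⟩]] true 1 c0F cB101L gF2q1 gF0q1 gF0q0 gF1q0 true true)) t 6 1023 2 = true :=
  ex3_c B101L_200_6_1023_4 B101L_200_6_1023_5
theorem B101L_200_6_511_2 :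
    ∃ t, chk3 (onCell 0 50331648 0 1073741824 50331648 16777216 (corTK [[⟨0, 1, 2, 33554432⟩, ⟨1, 0, 1, 33554432⟩, ⟨2, 1, 0, 15728640⟩, ⟨0, 0, 0, 1040187392⟩, ⟨0, 1, 0, 83886080⟩, ⟨1, 0, 0, 83886080⟩, ⟨1, 1, 0, 1040187392⟩]] true 1 c0F cB101L gF2q1 gF0q1 gF0q0 gF1q0 true true)) t 6 511 2 = true :=
  ex3_b B101L_200_6_1022_2 B101L_200_6_1023_2
theorem B101L_200_6_511_1 :
    ∃ t, chk3 (onCell 0 50331648 0 1073741824 50331648 16777216 (corTK [[⟨0, 1, 2, 33554432⟩, ⟨1, 0, 1, 33554432⟩, ⟨2, 1, 0, 15728640⟩, ⟨0, 0, 0, 1040187392⟩, ⟨0, 1, 0, 83886080⟩, ⟨1, 0, 0, 83886080⟩, ⟨1, 1, 0, 1040187392⟩]] true 1 c0F cB101L gF2q1 gF0q1 gF0q0 gF1q0 true true)) t 6 511 1 = true :=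
  ex3_c B101L_200_6_511_2 B101L_200_6_511_3
theorem B101L_200_3_511_1 :
    ∃ t, chk3 (onCell 0 50331648 0 1073741824 50331648 16777216 (corTK [[⟨0, 1, 2, 33554432⟩, ⟨1, 0, 1, 33554432⟩, ⟨2, 1, 0, 15728640⟩, ⟨0, 0, 0, 1040187392⟩, ⟨0, 1, 0, 83886080⟩, ⟨1, 0, 0, 83886080⟩, ⟨1, 1, 0, 1040187392⟩]] true 1 c0F cB101L gF2q1 gF0q1 gF0q0 gF1q0 true true)) t 3 511 1 = true :=
  ex3_a B101L_200_6_511_1 B101L_200_7_511_1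
theorem B101L_200_2_511_1 :
    ∃ t, chk3 (onCell 0 50331648 0 1073741824 50331648 16777216 (corTK [[⟨0, 1, 2, 33554432⟩, ⟨1, 0, 1, 33554432⟩, ⟨2, 1, 0, 15728640⟩, ⟨0, 0, 0, 1040187392⟩, ⟨0, 1, 0, 83886080⟩, ⟨1, 0, 0, 83886080⟩, ⟨1, 1, 0, 1040187392⟩]] true 1 c0F cB101L gF2q1 gF0q1 gF0q0 gF1q0 true true)) t 2 511 1 = true :=
  ex3_c B101L_200_2_511_2 B101L_200_2_511_3
theorem B101L_200_1_511_1 :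
    ∃ t, chk3 (onCell 0 50331648 0 1073741824 50331648 16777216 (corTK [[⟨0, 1, 2, 33554432⟩, ⟨1, 0, 1, 33554432⟩, ⟨2, 1, 0, 15728640⟩, ⟨0, 0, 0, 1040187392⟩, ⟨0, 1, 0, 83886080⟩, ⟨1, 0, 0, 83886080⟩, ⟨1, 1, 0, 1040187392⟩]] true 1 c0F cB101L gF2q1 gF0q1 gF0q0 gF1q0 true true)) t 1 511 1 = true :=
  ex3_a B101L_200_2_511_1 B101L_200_3_511_1
theorem B101L_200_1_255_1 :
    ∃ t, chk3 (onCell 0 50331648 0 1073741824 50331648 16777216 (corTK [[⟨0, 1, 2, 33554432⟩, ⟨1, 0, 1, 33554432⟩, ⟨2, 1, 0, 15728640⟩, ⟨0, 0, 0, 1040187392⟩, ⟨0, 1, 0, 83886080⟩, ⟨1, 0, 0, 83886080⟩, ⟨1, 1, 0, 1040187392⟩]] true 1 c0F cB101L gF2q1 gF0q1 gF0q0 gF1q0 true true)) t 1 255 1 = true :=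
  ex3_b B101L_200_1_510_1 B101L_200_1_511_1
theorem B101L_200_1_127_1 :
    ∃ t, chk3 (onCell 0 50331648 0 1073741824 50331648 16777216 (corTK [[⟨0, 1, 2, 33554432⟩, ⟨1, 0, 1, 33554432⟩, ⟨2, 1, 0, 15728640⟩, ⟨0, 0, 0, 1040187392⟩, ⟨0, 1, 0, 83886080⟩, ⟨1, 0, 0, 83886080⟩, ⟨1, 1, 0, 1040187392⟩]] true 1 c0F cB101L gF2q1 gF0q1 gF0q0 gF1q0 true true)) t 1 127 1 = true :=
  ex3_b B101L_200_1_254_1 B101L_200_1_255_1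
theorem B101L_200_1_63_1 :
    ∃ t, chk3 (onCell 0 50331648 0 1073741824 50331648 16777216 (corTK [[⟨0, 1, 2, 33554432⟩, ⟨1, 0, 1, 33554432⟩, ⟨2, 1, 0, 15728640⟩, ⟨0, 0, 0, 1040187392⟩, ⟨0, 1, 0, 83886080⟩, ⟨1, 0, 0, 83886080⟩, ⟨1, 1, 0, 1040187392⟩]] true 1 c0F cB101L gF2q1 gF0q1 gF0q0 gF1q0 true true)) t 1 63 1 = true :=
  ex3_b B101L_200_1_126_1 B101L_200_1_127_1
theorem B101L_200_1_31_1 :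
    ∃ t, chk3 (onCell 0 50331648 0 1073741824 50331648 16777216 (corTK [[⟨0, 1, 2, 33554432⟩, ⟨1, 0, 1, 33554432⟩, ⟨2, 1, 0, 15728640⟩, ⟨0, 0, 0, 1040187392⟩, ⟨0, 1, 0, 83886080⟩, ⟨1, 0, 0, 83886080⟩, ⟨1, 1, 0, 1040187392⟩]] true 1 c0F cB101L gF2q1 gF0q1 gF0q0 gF1q0 true true)) t 1 31 1 = true :=
  ex3_b B101L_200_1_62_1 B101L_200_1_63_1
theorem B101L_200_1_15_1 :
    ∃ t, chk3 (onCell 0 50331648 0 1073741824 50331648 16777216 (corTK [[⟨0, 1, 2, 33554432⟩, ⟨1, 0, 1, 33554432⟩, ⟨2, 1, 0, 15728640⟩, ⟨0, 0, 0, 1040187392⟩, ⟨0, 1, 0, 83886080⟩, ⟨1, 0, 0, 83886080⟩, ⟨1, 1, 0, 1040187392⟩]] true 1 c0F cB101L gF2q1 gF0q1 gF0q0 gF1q0 true true)) t 1 15 1 = true :=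
  ex3_b B101L_200_1_30_1 B101L_200_1_31_1
theorem B101L_200_1_7_1 :
    ∃ t, chk3 (onCell 0 50331648 0 1073741824 50331648 16777216 (corTK [[⟨0, 1, 2, 33554432⟩, ⟨1, 0, 1, 33554432⟩, ⟨2, 1, 0, 15728640⟩, ⟨0, 0, 0, 1040187392⟩, ⟨0, 1, 0, 83886080⟩, ⟨1, 0, 0, 83886080⟩, ⟨1, 1, 0, 1040187392⟩]] true 1 c0F cB101L gF2q1 gF0q1 gF0q0 gF1q0 true true)) t 1 7 1 = true :=
  ex3_b B101L_200_1_14_1 B101L_200_1_15_1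
theorem B101L_200_1_3_1 :
    ∃ t, chk3 (onCell 0 50331648 0 1073741824 50331648 16777216 (corTK [[⟨0, 1, 2, 33554432⟩, ⟨1, 0, 1, 33554432⟩, ⟨2, 1, 0, 15728640⟩, ⟨0, 0, 0, 1040187392⟩, ⟨0, 1, 0, 83886080⟩, ⟨1, 0, 0, 83886080⟩, ⟨1, 1, 0, 1040187392⟩]] true 1 c0F cB101L gF2q1 gF0q1 gF0q0 gF1q0 true true)) t 1 3 1 = true :=
  ex3_b B101L_200_1_6_1 B101L_200_1_7_1
theorem B101L_200 :
    ∃ t, chk3 (onCell 0 50331648 0 1073741824 50331648 16777216 (corTK [[⟨0, 1, 2, 33554432⟩, ⟨1, 0, 1, 33554432⟩, ⟨2, 1, 0, 15728640⟩, ⟨0, 0, 0, 1040187392⟩, ⟨0, 1, 0, 83886080⟩, ⟨1, 0, 0, 83886080⟩, ⟨1, 1, 0, 1040187392⟩]] true 1 c0F cB101L gF2q1 gF0q1 gF0q0 gF1q0 true true)) t 1 1 1 = true :=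
  ex3_b B101L_200_1_2_1 B101L_200_1_3_1

def B101L_201 :
    ∃ t, chk3 (onCell 0 50331648 0 1073741824 50331648 16777216 (corTK [[⟨0, 1, 2, 33554432⟩, ⟨1, 0, 1, 33554432⟩, ⟨2, 1, 0, 15728640⟩, ⟨0, 0, 0, 1040187392⟩, ⟨0, 1, 0, 83886080⟩, ⟨1, 0, 0, 83886080⟩, ⟨1, 1, 0, 1040187392⟩]] true 1 c0F cB101L gF2q1 gF0q1 gF1q0 gF2q0 true true)) t 1 1 1 = true :=
  ⟨(T.l 1), by decide +kernel⟩

def B101L_202 :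
    ∃ t, chk3 (onCell 0 50331648 0 1073741824 50331648 16777216 (corTK [[⟨0, 1, 2, 33554432⟩, ⟨1, 0, 1, 33554432⟩, ⟨2, 1, 0, 15728640⟩, ⟨0, 0, 0, 1040187392⟩, ⟨0, 1, 0, 83886080⟩, ⟨1, 0, 0, 83886080⟩, ⟨1, 1, 0, 1040187392⟩]] true 1 c0F cB101L gF2q1 gF0q1 gF2q0 gF3q0 true false)) t 1 1 1 = true :=
  ⟨(T.l 1), by decide +kernel⟩

def B101L_300 :
    ∃ t, chk3 (onCell 0 50331648 0 1073741824 50331648 16777216 (corTK [] true 1 c0F cB101L gF3q1 gF0q1 gF0q0 gF1q0 true true)) t 1 1 1 = true :=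
  ⟨(T.b (T.l 1) (T.b (T.l 1) (T.b (T.b (T.l 1) (T.b (T.l 1) (T.b (T.l 1) (T.b (T.b (T.l 1) (T.a (T.c (T.b (T.l 1) (T.a (T.l 204) (T.c (T.b (T.l 1) (T.a (T.a (T.l 204) (T.l 204)) (T.a (T.l 460) (T.l 460)))) (T.b (T.l 1) (T.a (T.a (T.l 204) (T.l 204)) (T.a (T.l 204) (T.l 460))))))) (T.b (T.l 1) (T.a (T.l 204) (T.c (T.b (T.l 1) (T.a (T.a (T.l 204) (T.l 204)) (T.a (T.l 204) (T.l 204)))) (T.b (T.l 1) (T.a (T.a (T.l 204) (T.l 204)) (T.l 460))))))) (T.c (T.b (T.l 1) (T.a (T.c (T.b (T.l 1) (T.a (T.a (T.l 460) (T.l 460)) (T.c (T.b (T.l 1) (T.a (T.l 460) (T.l 476))) (T.a (T.l 460) (T.a (T.l 460) (T.l 476)))))) (T.b (T.l 1) (T.a (T.a (T.l 460) (T.l 460)) (T.a (T.l 460) (T.l 476))))) (T.l 1))) (T.b (T.l 1) (T.a (T.c (T.b (T.l 1) (T.a (T.a (T.l 460) (T.l 460)) (T.a (T.l 460) (T.l 460)))) (T.b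 (T.l 1) (T.a (T.l 460) (T.a (T.l 460) (T.l 460))))) (T.l 1)))))) (T.b (T.a (T.a (T.l 204) (T.a (T.a (T.l 204) (T.l 204)) (T.a (T.l 204) (T.l 204)))) (T.a (T.a (T.c (T.l 476) (T.l 460)) (T.a (T.l 460) (T.l 476))) (T.a (T.a (T.l 476) (T.l 476)) (T.c (T.a (T.l 476) (T.a (T.l 476) (T.l 476))) (T.a (T.l 476) (T.l 476)))))) (T.a (T.a (T.l 204) (T.a (T.l 204) (T.l 204))) (T.a (T.a (T.l 204) (T.l 204)) (T.a (T.l 204) (T.l 220))))))))) (T.b (T.b (T.a (T.a (T.l 204) (T.a (T.l 16) (T.l 204))) (T.a (T.a (T.l 204) (T.l 204)) (T.a (T.l 204) (T.l 204)))) (T.a (T.a (T.l 204) (T.b (T.l 0) (T.l 0))) (T.a (T.l 204) (T.l 204)))) (T.a (T.a (T.l 204) (T.b (T.l 0) (T.l 0))) (T.a (T.l 0) (T.l 204))))))), by decide +kernel⟩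

def B101L_301 :
    ∃ t, chk3 (onCell 0 50331648 0 1073741824 50331648 16777216 (corTK [] true 1 c0F cB101L gF3q1 gF0q1 gF1q0 gF2q0 true true)) t 1 1 1 = true :=
  ⟨(T.l 1), by decide +kernel⟩

def B101L_302 :
    ∃ t, chk3 (onCell 0 50331648 0 1073741824 50331648 16777216 (corTK [] true 1 c0F cB101L gF3q1 gF0q1 gF2q0 gF3q0 true false)) t 1 1 1 = true :=
  ⟨(T.l 1), by decide +kernel⟩

def B101L_400 :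
    ∃ t, chk3 (onCell 0 16777216 0 1073741824 50331648 16777216 (corXK [] 1 c0F cB101L tB101L gF4q1 gF0q1 gF0q0 gF1q0 gF0q0 true true)) t 1 1 1 = true :=
  ⟨(T.b (T.l 1) (T.a (T.l 207) (T.b (T.b (T.l 1) (T.l 207)) (T.b (T.l 0) (T.l 0))))), by decide +kernel⟩

def B101L_401 :
    ∃ t, chk3 (onCell 0 16777216 0 1073741824 50331648 16777216 (corTK [] true 1 c0F cB101L gF4q1 gF0q1 gF1q0 gF2q0 true true)) t 1 1 1 = true :=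
  ⟨(T.l 1), by decide +kernel⟩

def B101L_402 :
    ∃ t, chk3 (onCell 0 16777216 0 1073741824 50331648 16777216 (corTK [] true 1 c0F cB101L gF4q1 gF0q1 gF2q0 gF3q0 true false)) t 1 1 1 = true :=
  ⟨(T.l 1), by decide +kernel⟩

def B101R_020 :
    ∃ t, chk3 (onCell 0 50331648 0 1073741824 50331648 16777216 (corTK [] true 1 c0F cB101R gF0q1 gF2q1 gF0q0 gF1q0 true true)) t 1 1 1 = true :=
  ⟨(T.l 1), by decide +kernel⟩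

def B101R_021 :
    ∃ t, chk3 (onCell 0 50331648 0 1073741824 50331648 16777216 (corTK [] true 1 c0F cB101R gF0q1 gF2q1 gF1q0 gF2q0 true true)) t 1 1 1 = true :=
  ⟨(T.l 1), by decide +kernel⟩

def B101R_022 :
    ∃ t, chk3 (onCell 0 50331648 0 1073741824 50331648 16777216 (corTK [] true 1 c0F cB101R gF0q1 gF2q1 gF2q0 gF3q0 true false)) t 1 1 1 = true :=
  ⟨(T.l 1), by decide +kernel⟩

def B101R_030 :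
    ∃ t, chk3 (onCell 0 50331648 0 1073741824 50331648 16777216 (corTK [] true 1 c0F cB101R gF0q1 gF3q1 gF0q0 gF1q0 true true)) t 1 1 1 = true :=
  ⟨(T.l 1), by decide +kernel⟩

def B101R_031 :
    ∃ t, chk3 (onCell 0 50331648 0 1073741824 50331648 16777216 (corTK [] true 1 c0F cB101R gF0q1 gF3q1 gF1q0 gF2q0 true true)) t 1 1 1 = true :=
  ⟨(T.l 1), by decide +kernel⟩

def B101R_032 :
    ∃ t, chk3 (onCell 0 50331648 0 1073741824 50331648 16777216 (corTK [] true 1 c0F cB101R gF0q1 gF3q1 gF2q0 gF3q0 true false)) t 1 1 1 = true :=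
  ⟨(T.l 1), by decide +kernel⟩

def B101R_040 :
    ∃ t, chk3 (onCell 0 50331648 0 1073741824 50331648 16777216 (corTK [] true 1 c0F cB101R gF0q1 gF4q1 gF0q0 gF1q0 true true)) t 1 1 1 = true :=
  ⟨(T.l 1), by decide +kernel⟩

def B101R_041 :
    ∃ t, chk3 (onCell 0 50331648 0 1073741824 50331648 16777216 (corTK [] true 1 c0F cB101R gF0q1 gF4q1 gF1q0 gF2q0 true true)) t 1 1 1 = true :=
  ⟨(T.l 1), by decide +kernel⟩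

def B101R_042 :
    ∃ t, chk3 (onCell 0 50331648 0 1073741824 50331648 16777216 (corTK [] true 1 c0F cB101R gF0q1 gF4q1 gF2q0 gF3q0 true false)) t 1 1 1 = true :=
  ⟨(T.l 1), by decide +kernel⟩

def B102E_000 :
    ∃ t, chk3 (onCell 0 12582912 0 1073741824 50331648 16777216 (corXK [] 1 c0F cB102E tB102E gF0q1 gF0q2 gF0q0 gF1q0 gF0q0 true true)) t 1 1 1 = true :=
  ⟨(T.b (T.b (T.l 1) (T.a (T.l 207) (T.l 1))) (T.a (T.b (T.l 207) (T.l 204)) (T.b (T.b (T.b (T.b (T.l 207) (T.l 204)) (T.l 0)) (T.l 0)) (T.l 0)))), by decide +kernel⟩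

def B102E_001 :
    ∃ t, chk3 (onCell 0 12582912 0 1073741824 50331648 16777216 (corTK [] true 1 c0F cB102E gF0q1 gF0q2 gF1q0 gF2q0 true true)) t 1 1 1 = true :=
  ⟨(T.b (T.l 1) (T.b (T.l 1) (T.a (T.l 0) (T.l 0)))), by decide +kernel⟩

def B102E_002 :
    ∃ t, chk3 (onCell 0 12582912 0 1073741824 50331648 16777216 (corTK [] true 1 c0F cB102E gF0q1 gF0q2 gF2q0 gF3q0 true false)) t 1 1 1 = true :=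
  ⟨(T.b (T.l 1) (T.b (T.l 1) (T.a (T.l 0) (T.l 0)))), by decide +kernel⟩

end Pool.Agent.Strip051.G.I3_64_1_16.Tab.CF
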