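import Pool.Agent.Strip051.G.I3_64_1_16.Gn
import Pool.Agent.Strip051.PB.Corns
import Pool.Agent.Strip051.PB.CornK

/-! # Certificates of the aligned corners (generated) -/

set_option linter.all false

namespace Pool.Agent.Strip051.G.I3_64_1_16.Tab.CF

open Pool.Agent.Strip051.PB

def B102E_010_1_4_1 :
    ∃ t, chk3 (onCell 0 50331648 0 1073741824 50331648 16777216 (corTK [] true 1 c0F cB102E gF0q1 gF1q2 gF0q0 gF1q0 true true)) t 1 4 1 = true :=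
  ⟨(T.l 1), by decide +kernel⟩

def B102E_010_1_40_1 :
    ∃ t, chk3 (onCell 0 50331648 0 1073741824 50331648 16777216 (corTK [] true 1 c0F cB102E gF0q1 gF1q2 gF0q0 gF1q0 true true)) t 1 40 1 = true :=
  ⟨(T.l 1), by decide +kernel⟩

def B102E_010_4_328_1 :
    ∃ t, chk3 (onCell 0 50331648 0 1073741824 50331648 16777216 (corTK [] true 1 c0F cB102E gF0q1 gF1q2 gF0q0 gF1q0 true true)) t 4 328 1 = true :=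
  ⟨(T.l 1), by decide +kernel⟩

def B102E_010_4_329_2 :
    ∃ t, chk3 (onCell 0 50331648 0 1073741824 50331648 16777216 (corTK [] true 1 c0F cB102E gF0q1 gF1q2 gF0q0 gF1q0 true true)) t 4 329 2 = true :=
  ⟨(T.b (T.a (T.c (T.b (T.a (T.c (T.b (T.l 1) (T.a (T.a (T.l 204) (T.c (T.b (T.l 1) (T.l 204)) (T.b (T.l 1) (T.l 204)))) (T.a (T.a (T.c (T.b (T.l 1) (T.l 204)) (T.b (T.l 1) (T.l 204))) (T.l 1)) (T.l 1)))) (T.b (T.l 1) (T.a (T.a (T.l 204) (T.c (T.b (T.l 1) (T.l 204)) (T.b (T.l 1) (T.l 204)))) (T.a (T.a (T.c (T.b (T.l 1) (T.l 204)) (T.b (T.l 1) (T.l 204))) (T.l 1)) (T.l 1))))) (T.l 1)) (T.a (T.a (T.l 204) (T.c (T.l 460) (T.a (T.l 204) (T.c (T.l 460) (T.a (T.l 204) (T.b (T.b (T.l 1) (T.l 204)) (T.l 204))))))) (T.c (T.b (T.a (T.a (T.c (T.b (T.l 1) (T.l 204)) (T.b (T.l 1) (T.l 460))) (T.l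 1)) (T.l 1)) (T.a (T.l 204) (T.c (T.b (T.l 1) (T.a (T.l 204) (T.l 1))) (T.b (T.l 1) (T.a (T.l 204) (T.l 1)))))) (T.b (T.a (T.a (T.c (T.b (T.l 1) (T.l 460)) (T.b (T.l 1) (T.l 460))) (T.l 1)) (T.l 1)) (T.a (T.l 460) (T.c (T.b (T.l 1) (T.a (T.l 204) (T.l 1))) (T.b (T.l 1) (T.a (T.l 204) (T.l 1))))))))) (T.b (T.a (T.c (T.b (T.l 1) (T.a (T.a (T.l 204) (T.c (T.b (T.l 1) (T.l 204)) (T.b (T.l 1) (T.l 204)))) (T.a (T.a (T.c (T.b (T.l 1) (T.l 204)) (T.b (T.l 1) (T.l 204))) (T.l 1)) (T.l 1)))) (T.b (T.l 1) (T.a (T.a (T.l 204) (T.c (T.b (T.l 1) (T.l 204)) (T.b (T.l 1) (T.l 204)))) (T.a (T.a (T.c (T.b (T.l 1) (T.l 204)) (T.b (T.l 1) (T.l 460))) (T.l 1)) (T.l 1))))) (T.l 1)) (T.a (T.a (T.l 204) (T.a (T.l 204) (T.a (T.l 204) (T.c (T.b (T.c (T.b (T.l 1) (T.l 204)) (T.b (T.l 1) (T.l 204))) (T.l 204))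 (T.b (T.c (T.b (T.l 1) (T.l 204)) (T.b (T.l 1) (T.l 204))) (T.l 204)))))) (T.c (T.b (T.a (T.a (T.c (T.b (T.l 1) (T.l 460)) (T.b (T.l 1) (T.l 460))) (T.l 1)) (T.l 1)) (T.a (T.l 460) (T.c (T.b (T.l 1) (T.a (T.l 204) (T.l 1))) (T.b (T.l 1) (T.a (T.l 460) (T.l 1)))))) (T.b (T.a (T.a (T.c (T.b (T.l 1) (T.a (T.l 204) (T.l 1))) (T.b (T.l 1) (T.a (T.l 204) (T.l 1)))) (T.l 1)) (T.l 1)) (T.a (T.l 460) (T.c (T.b (T.l 1) (T.a (T.l 460) (T.l 1))) (T.b (T.l 1) (T.a (T.l 460) (T.l 1)))))))))) (T.l 1)) (T.a (T.l 460) (T.c (T.b (T.a (T.c (T.b (T.a (T.c (T.b (T.l 1) (T.a (T.l 204) (T.l 1))) (T.b (T.l 1) (T.a (T.l 204) (T.l 1)))) (T.l 1)) (T.a (T.l 204) (T.c (T.b (T.a (T.l 460) (T.l 1)) (T.l 460)) (T.b (T.a (T.a (T.l 460) (T.l 1)) (T.l 1)) (T.l 460))))) (T.b (T.a (T.c (T.b (T.l 1) (T.a (T.l 204) (T.l 1)))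 (T.b (T.l 1) (T.a (T.l 204) (T.l 1)))) (T.l 1)) (T.a (T.l 204) (T.c (T.b (T.a (T.a (T.l 460) (T.l 1)) (T.l 1)) (T.l 460)) (T.b (T.a (T.a (T.l 460) (T.l 1)) (T.l 1)) (T.l 460)))))) (T.l 1)) (T.a (T.l 204) (T.c (T.b (T.a (T.c (T.a (T.l 460) (T.b (T.l 1) (T.l 460))) (T.b (T.a (T.l 460) (T.l 1)) (T.l 460))) (T.l 1)) (T.a (T.l 204) (T.a (T.l 460) (T.c (T.b (T.l 1) (T.l 460)) (T.b (T.l 1) (T.l 460)))))) (T.b (T.a (T.c (T.b (T.a (T.l 460) (T.l 1)) (T.l 460)) (T.b (T.a (T.l 460) (T.l 1)) (T.l 460))) (T.l 1)) (T.a (T.l 204) (T.a (T.l 460) (T.c (T.b (T.l 1) (T.l 460)) (T.b (T.l 1) (T.l 460))))))))) (T.b (T.a (T.c (T.b (T.a (T.c (T.b (T.l 1) (T.a (T.l 204) (T.l 1))) (T.b (T.l 1) (T.a (T.l 204) (T.l 1)))) (T.l 1)) (T.a (T.l 204) (T.c (T.b (T.a (T.a (T.l 460) (T.l 1)) (T.l 1)) (T.a (T.l 204) (T.a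 (T.l 460) (T.l 1)))) (T.b (T.a (T.a (T.l 460) (T.l 1)) (T.l 1)) (T.a (T.l 204) (T.a (T.l 460) (T.l 1))))))) (T.b (T.a (T.c (T.b (T.l 1) (T.a (T.l 204) (T.l 1))) (T.b (T.l 1) (T.a (T.l 204) (T.l 1)))) (T.l 1)) (T.a (T.l 204) (T.c (T.b (T.a (T.a (T.l 460) (T.l 1)) (T.l 1)) (T.a (T.l 204) (T.a (T.l 460) (T.l 1)))) (T.b (T.a (T.a (T.l 460) (T.l 1)) (T.l 1)) (T.a (T.l 204) (T.a (T.l 460) (T.l 1)))))))) (T.l 1)) (T.a (T.l 204) (T.c (T.b (T.a (T.c (T.b (T.a (T.l 460) (T.l 1)) (T.l 460)) (T.b (T.a (T.l 460) (T.l 1)) (T.l 460))) (T.l 1)) (T.a (T.l 204) (T.a (T.l 460) (T.c (T.b (T.l 1) (T.l 460)) (T.b (T.l 1) (T.l 460)))))) (T.b (T.a (T.c (T.b (T.a (T.l 460) (T.l 1)) (T.l 460)) (T.b (T.a (T.l 460) (T.l 1)) (T.l 460))) (T.l 1)) (T.a (T.l 204) (T.a (T.l 460) (T.c (T.b (T.l 1) (T.l 460)) (T.b (T.l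 1) (T.l 460)))))))))))), by decide +kernel⟩

def B102E_010_4_329_3 :
    ∃ t, chk3 (onCell 0 50331648 0 1073741824 50331648 16777216 (corTK [] true 1 c0F cB102E gF0q1 gF1q2 gF0q0 gF1q0 true true)) t 4 329 3 = true :=
  ⟨(T.b (T.a (T.c (T.b (T.a (T.c (T.b (T.l 1) (T.a (T.a (T.l 204) (T.c (T.b (T.l 1) (T.l 204)) (T.b (T.l 1) (T.l 204)))) (T.a (T.a (T.c (T.b (T.l 1) (T.l 460)) (T.b (T.l 1) (T.l 460))) (T.l 1)) (T.l 1)))) (T.b (T.l 1) (T.a (T.a (T.l 204) (T.c (T.b (T.l 1) (T.l 204)) (T.b (T.l 1) (T.l 204)))) (T.a (T.a (T.a (T.c (T.b (T.l 1) (T.l 204)) (T.b (T.l 1) (T.l 204))) (T.l 1)) (T.l 1)) (T.l 1))))) (T.l 1)) (T.a (T.a (T.l 204) (T.a (T.l 204) (T.a (T.l 460) (T.c (T.b (T.c (T.b (T.l 1) (T.l 204)) (T.b (T.l 1) (T.l 204))) (T.l 204)) (T.b (T.c (T.b (T.l 1) (T.l 204)) (T.b (T.l 1) (T.l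 204))) (T.l 204)))))) (T.c (T.b (T.a (T.a (T.c (T.b (T.l 1) (T.a (T.l 204) (T.l 1))) (T.b (T.l 1) (T.a (T.l 204) (T.l 1)))) (T.l 1)) (T.l 1)) (T.a (T.a (T.l 204) (T.l 460)) (T.c (T.b (T.l 1) (T.a (T.l 460) (T.l 1))) (T.b (T.l 1) (T.a (T.l 460) (T.l 1)))))) (T.b (T.a (T.a (T.c (T.b (T.l 1) (T.a (T.l 204) (T.l 1))) (T.b (T.l 1) (T.a (T.l 204) (T.l 1)))) (T.l 1)) (T.l 1)) (T.a (T.a (T.l 204) (T.a (T.l 204) (T.c (T.b (T.l 1) (T.l 204)) (T.b (T.l 1) (T.l 204))))) (T.c (T.b (T.l 1) (T.a (T.l 460) (T.l 1))) (T.b (T.l 1) (T.a (T.l 460) (T.l 1))))))))) (T.b (T.a (T.c (T.b (T.l 1) (T.a (T.a (T.l 204) (T.c (T.b (T.l 1) (T.l 204)) (T.b (T.l 1) (T.l 204)))) (T.a (T.a (T.a (T.c (T.b (T.l 1) (T.l 460)) (T.b (T.l 1) (T.l 460))) (T.l 1)) (T.l 1)) (T.l 1)))) (T.b (T.l 1) (T.a (T.a (T.l 460) (T.c (T.b (T.l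 1) (T.l 204)) (T.b (T.l 1) (T.l 204)))) (T.a (T.a (T.a (T.c (T.b (T.l 1) (T.l 460)) (T.b (T.l 1) (T.a (T.l 460) (T.l 1)))) (T.l 1)) (T.l 1)) (T.l 1))))) (T.l 1)) (T.a (T.a (T.l 204) (T.a (T.l 204) (T.c (T.b (T.c (T.b (T.a (T.l 460) (T.l 1)) (T.l 204)) (T.b (T.c (T.a (T.l 460) (T.l 1)) (T.b (T.l 1) (T.l 460))) (T.l 204))) (T.l 204)) (T.b (T.c (T.b (T.c (T.b (T.l 1) (T.l 460)) (T.b (T.l 1) (T.l 460))) (T.l 204)) (T.b (T.c (T.b (T.l 1) (T.a (T.l 204) (T.l 1))) (T.b (T.l 1) (T.a (T.l 204) (T.l 1)))) (T.l 204))) (T.l 204))))) (T.c (T.b (T.a (T.a (T.c (T.b (T.l 1) (T.a (T.l 460) (T.l 1))) (T.b (T.l 1) (T.a (T.l 460) (T.l 1)))) (T.l 1)) (T.l 1)) (T.a (T.a (T.l 204) (T.a (T.l 204) (T.c (T.b (T.l 1) (T.l 204)) (T.b (T.l 1) (T.l 204))))) (T.a (T.c (T.b (T.l 1) (T.l 460)) (T.b (T.l 1) (T.a (T.l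 204) (T.a (T.l 460) (T.l 1))))) (T.l 1)))) (T.b (T.a (T.a (T.c (T.b (T.l 1) (T.a (T.l 460) (T.l 1))) (T.b (T.l 1) (T.a (T.l 460) (T.l 1)))) (T.l 1)) (T.l 1)) (T.a (T.a (T.l 204) (T.a (T.l 460) (T.c (T.b (T.l 1) (T.l 204)) (T.b (T.l 1) (T.l 204))))) (T.a (T.c (T.b (T.l 1) (T.a (T.l 204) (T.a (T.l 460) (T.l 1)))) (T.b (T.l 1) (T.a (T.l 204) (T.a (T.l 460) (T.l 1))))) (T.l 1)))))))) (T.l 1)) (T.a (T.a (T.l 204) (T.c (T.l 460) (T.a (T.l 204) (T.l 460)))) (T.c (T.b (T.a (T.c (T.b (T.a (T.c (T.b (T.l 1) (T.a (T.l 204) (T.l 1))) (T.b (T.l 1) (T.a (T.l 460) (T.l 1)))) (T.l 1)) (T.a (T.l 204) (T.c (T.b (T.a (T.a (T.l 460) (T.l 1)) (T.l 1)) (T.a (T.l 204) (T.a (T.l 460) (T.l 1)))) (T.b (T.a (T.a (T.l 460) (T.l 1)) (T.l 1)) (T.a (T.l 204) (T.a (T.l 460) (T.l 1))))))) (T.b (T.a (T.c (T.b (T.l 1)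 (T.a (T.l 460) (T.l 1))) (T.b (T.l 1) (T.a (T.l 460) (T.l 1)))) (T.l 1)) (T.a (T.l 460) (T.c (T.b (T.a (T.a (T.l 460) (T.l 1)) (T.l 1)) (T.a (T.l 204) (T.a (T.l 460) (T.l 1)))) (T.b (T.a (T.a (T.l 460) (T.l 1)) (T.l 1)) (T.a (T.l 204) (T.a (T.l 460) (T.l 1)))))))) (T.l 1)) (T.a (T.l 204) (T.c (T.b (T.a (T.c (T.b (T.a (T.a (T.l 460) (T.l 1)) (T.l 1)) (T.l 460)) (T.b (T.a (T.a (T.l 460) (T.l 1)) (T.l 1)) (T.l 460))) (T.l 1)) (T.a (T.l 204) (T.a (T.l 460) (T.c (T.b (T.l 1) (T.l 460)) (T.b (T.l 1) (T.l 460)))))) (T.b (T.a (T.c (T.b (T.a (T.a (T.l 460) (T.l 1)) (T.l 1)) (T.l 460)) (T.b (T.a (T.a (T.l 460) (T.l 1)) (T.l 1)) (T.l 460))) (T.l 1)) (T.a (T.l 204) (T.a (T.l 460) (T.c (T.b (T.l 1) (T.l 460)) (T.b (T.l 1) (T.l 460))))))))) (T.b (T.a (T.c (T.b (T.a (T.c (T.b (T.l 1) (T.a (T.l 460)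 (T.l 1))) (T.b (T.l 1) (T.a (T.l 460) (T.l 1)))) (T.l 1)) (T.a (T.l 460) (T.c (T.b (T.a (T.a (T.l 460) (T.l 1)) (T.l 1)) (T.a (T.l 204) (T.a (T.l 460) (T.l 1)))) (T.b (T.a (T.c (T.b (T.l 1) (T.l 460)) (T.b (T.l 1) (T.l 460))) (T.l 1)) (T.a (T.l 204) (T.a (T.l 460) (T.l 1))))))) (T.b (T.a (T.c (T.b (T.l 1) (T.a (T.l 460) (T.l 1))) (T.b (T.l 1) (T.a (T.l 460) (T.l 1)))) (T.l 1)) (T.a (T.l 460) (T.c (T.b (T.a (T.c (T.b (T.l 1) (T.l 460)) (T.b (T.l 1) (T.l 460))) (T.l 1)) (T.a (T.l 460) (T.a (T.l 460) (T.l 1)))) (T.b (T.a (T.c (T.b (T.l 1) (T.a (T.l 460) (T.l 1))) (T.b (T.l 1) (T.a (T.l 460) (T.l 1)))) (T.l 1)) (T.a (T.l 460) (T.a (T.l 460) (T.l 1)))))))) (T.l 1)) (T.a (T.l 460) (T.c (T.b (T.a (T.c (T.b (T.a (T.a (T.l 460) (T.l 1)) (T.l 1)) (T.a (T.l 204) (T.c (T.l 460) (T.b (T.l 1) (T.l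 460))))) (T.b (T.a (T.a (T.l 460) (T.l 1)) (T.l 1)) (T.a (T.l 204) (T.c (T.b (T.l 1) (T.l 460)) (T.b (T.l 1) (T.l 460)))))) (T.l 1)) (T.a (T.l 204) (T.a (T.l 460) (T.c (T.b (T.l 1) (T.l 460)) (T.b (T.l 1) (T.l 460)))))) (T.b (T.a (T.c (T.b (T.a (T.a (T.l 460) (T.l 1)) (T.l 1)) (T.a (T.l 204) (T.c (T.b (T.l 1) (T.l 460)) (T.b (T.l 1) (T.l 460))))) (T.b (T.a (T.a (T.l 460) (T.l 1)) (T.l 1)) (T.a (T.l 204) (T.c (T.b (T.l 1) (T.l 460)) (T.b (T.l 1) (T.l 460)))))) (T.l 1)) (T.a (T.l 204) (T.a (T.l 460) (T.c (T.b (T.l 1) (T.l 460)) (T.b (T.l 1) (T.l 460)))))))))))), by decide +kernel⟩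

def B102E_010_4_165_1 :
    ∃ t, chk3 (onCell 0 50331648 0 1073741824 50331648 16777216 (corTK [] true 1 c0F cB102E gF0q1 gF1q2 gF0q0 gF1q0 true true)) t 4 165 1 = true :=
  ⟨(T.l 476), by decide +kernel⟩

def B102E_010_5_164_1 :
    ∃ t, chk3 (onCell 0 50331648 0 1073741824 50331648 16777216 (corTK [] true 1 c0F cB102E gF0q1 gF1q2 gF0q0 gF1q0 true true)) t 5 164 1 = true :=
  ⟨(T.a (T.l 1) (T.l 1)), by decide +kernel⟩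

def B102E_010_10_165_1 :
    ∃ t, chk3 (onCell 0 50331648 0 1073741824 50331648 16777216 (corTK [] true 1 c0F cB102E gF0q1 gF1q2 gF0q0 gF1q0 true true)) t 10 165 1 = true :=
  ⟨(T.b (T.a (T.c (T.b (T.c (T.b (T.a (T.a (T.l 460) (T.a (T.l 476) (T.c (T.b (T.c (T.b (T.l 1) (T.l 460)) (T.b (T.l 1) (T.l 460))) (T.l 204)) (T.b (T.c (T.b (T.l 1) (T.l 460)) (T.b (T.l 1) (T.l 460))) (T.l 204))))) (T.c (T.b (T.a (T.a (T.c (T.b (T.l 1) (T.l 476)) (T.b (T.l 1) (T.l 476))) (T.l 1)) (T.l 1)) (T.a (T.l 460) (T.l 476))) (T.b (T.a (T.a (T.c (T.b (T.l 1) (T.l 476)) (T.b (T.l 1) (T.l 460))) (T.l 1)) (T.l 1)) (T.a (T.l 460) (T.a (T.l 476) (T.c (T.l 476) (T.l 476))))))) (T.l 220)) (T.b (T.a (T.a (T.l 460) (T.a (T.l 460) (T.c (T.b (T.c (T.b (T.l 1) (T.l 460)) (T.b (T.l 1) (T.l 460))) (T.l 204)) (T.b (T.c (T.b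 (T.l 1) (T.l 460)) (T.b (T.l 1) (T.l 460))) (T.l 204))))) (T.c (T.b (T.a (T.a (T.c (T.b (T.l 1) (T.l 460)) (T.b (T.l 1) (T.l 460))) (T.l 1)) (T.l 1)) (T.a (T.l 460) (T.a (T.l 460) (T.c (T.b (T.l 1) (T.l 460)) (T.b (T.l 1) (T.l 460)))))) (T.b (T.a (T.a (T.c (T.b (T.l 1) (T.l 460)) (T.b (T.l 1) (T.l 460))) (T.l 1)) (T.l 1)) (T.a (T.l 460) (T.a (T.l 460) (T.c (T.b (T.l 1) (T.l 460)) (T.b (T.l 1) (T.l 460)))))))) (T.l 460))) (T.l 204)) (T.b (T.c (T.b (T.a (T.a (T.l 460) (T.c (T.a (T.l 460) (T.b (T.c (T.b (T.l 1) (T.l 460)) (T.b (T.l 1) (T.l 460))) (T.l 204))) (T.b (T.c (T.b (T.l 1) (T.l 460)) (T.b (T.l 1) (T.l 460))) (T.l 204)))) (T.c (T.b (T.a (T.a (T.c (T.b (T.l 1) (T.l 460)) (T.b (T.l 1) (T.l 460))) (T.l 1)) (T.l 1)) (T.a (T.l 460) (T.a (T.l 460) (T.c (T.b (T.l 1) (T.l 460)) (T.b (T.l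 1) (T.l 460)))))) (T.b (T.a (T.a (T.c (T.b (T.l 1) (T.l 460)) (T.b (T.l 1) (T.l 460))) (T.l 1)) (T.l 1)) (T.a (T.l 460) (T.a (T.l 460) (T.c (T.b (T.l 1) (T.l 460)) (T.b (T.l 1) (T.l 460)))))))) (T.l 460)) (T.b (T.a (T.a (T.l 460) (T.c (T.b (T.c (T.b (T.l 1) (T.l 460)) (T.b (T.l 1) (T.l 460))) (T.l 204)) (T.b (T.c (T.b (T.l 1) (T.l 460)) (T.b (T.l 1) (T.l 460))) (T.l 204)))) (T.c (T.b (T.a (T.a (T.c (T.b (T.l 1) (T.l 460)) (T.b (T.l 1) (T.l 460))) (T.l 1)) (T.l 1)) (T.a (T.l 460) (T.c (T.a (T.l 460) (T.b (T.l 1) (T.l 460))) (T.b (T.a (T.l 460) (T.l 1)) (T.l 460))))) (T.b (T.a (T.a (T.c (T.b (T.l 1) (T.l 460)) (T.b (T.l 1) (T.a (T.l 460) (T.l 1)))) (T.l 1)) (T.l 1)) (T.a (T.l 460) (T.c (T.b (T.a (T.l 460) (T.l 1)) (T.l 460)) (T.b (T.a (T.l 460) (T.l 1)) (T.l 460))))))) (T.l 460))) (T.l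 204))) (T.c (T.b (T.c (T.b (T.a (T.a (T.a (T.c (T.b (T.l 1) (T.c (T.b (T.l 1) (T.l 476)) (T.b (T.l 1) (T.l 476)))) (T.b (T.l 1) (T.c (T.b (T.l 1) (T.l 476)) (T.b (T.l 1) (T.l 460))))) (T.l 1)) (T.l 1)) (T.l 1)) (T.a (T.l 476) (T.c (T.b (T.a (T.c (T.b (T.l 1) (T.l 476)) (T.b (T.l 1) (T.l 476))) (T.l 1)) (T.l 476)) (T.b (T.a (T.c (T.b (T.l 1) (T.l 476)) (T.b (T.l 1) (T.l 476))) (T.l 1)) (T.l 476))))) (T.b (T.a (T.a (T.a (T.c (T.b (T.l 1) (T.c (T.b (T.l 1) (T.l 460)) (T.b (T.l 1) (T.l 460)))) (T.b (T.l 1) (T.c (T.b (T.l 1) (T.l 460)) (T.b (T.l 1) (T.l 460))))) (T.l 1)) (T.l 1)) (T.l 1)) (T.a (T.a (T.l 460) (T.l 476)) (T.c (T.b (T.a (T.c (T.b (T.l 1) (T.l 476)) (T.b (T.l 1) (T.l 476))) (T.l 1)) (T.l 476)) (T.b (T.a (T.c (T.b (T.l 1) (T.l 476)) (T.b (T.l 1) (T.l 476))) (T.l 1)) (T.l 476))))))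 (T.l 220)) (T.b (T.c (T.b (T.a (T.a (T.a (T.c (T.b (T.l 1) (T.c (T.b (T.l 1) (T.l 460)) (T.b (T.l 1) (T.l 460)))) (T.b (T.l 1) (T.c (T.b (T.l 1) (T.l 460)) (T.b (T.l 1) (T.l 460))))) (T.l 1)) (T.l 1)) (T.l 1)) (T.a (T.a (T.l 460) (T.l 460)) (T.c (T.b (T.a (T.c (T.b (T.l 1) (T.l 460)) (T.b (T.l 1) (T.l 460))) (T.l 1)) (T.l 476)) (T.b (T.a (T.c (T.b (T.l 1) (T.l 460)) (T.b (T.l 1) (T.l 460))) (T.l 1)) (T.l 460))))) (T.b (T.a (T.a (T.a (T.c (T.b (T.l 1) (T.c (T.b (T.l 1) (T.l 460)) (T.b (T.l 1) (T.l 460)))) (T.b (T.l 1) (T.c (T.b (T.l 1) (T.l 460)) (T.b (T.l 1) (T.l 460))))) (T.l 1)) (T.l 1)) (T.l 1)) (T.a (T.a (T.l 460) (T.a (T.l 460) (T.c (T.l 460) (T.b (T.c (T.b (T.l 1) (T.l 460)) (T.b (T.l 1) (T.l 460))) (T.l 204))))) (T.c (T.b (T.a (T.c (T.b (T.l 1) (T.l 460)) (T.b (T.l 1) (T.l 460)))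 (T.l 1)) (T.l 460)) (T.b (T.a (T.c (T.b (T.l 1) (T.l 460)) (T.b (T.l 1) (T.l 460))) (T.l 1)) (T.l 460)))))) (T.l 204)))) (T.l 204)), by decide +kernel⟩

def B102E_010_11_165_1 :
    ∃ t, chk3 (onCell 0 50331648 0 1073741824 50331648 16777216 (corTK [] true 1 c0F cB102E gF0q1 gF1q2 gF0q0 gF1q0 true true)) t 11 165 1 = true :=
  ⟨(T.b (T.c (T.b (T.a (T.a (T.a (T.c (T.b (T.l 1) (T.c (T.b (T.l 1) (T.c (T.b (T.l 1) (T.l 476)) (T.b (T.l 1) (T.l 476)))) (T.b (T.l 1) (T.c (T.b (T.l 1) (T.l 476)) (T.b (T.l 1) (T.l 476)))))) (T.b (T.l 1) (T.c (T.b (T.l 1) (T.c (T.b (T.l 1) (T.l 476)) (T.b (T.l 1) (T.l 476)))) (T.b (T.l 1) (T.c (T.b (T.l 1) (T.l 476)) (T.b (T.l 1) (T.l 476))))))) (T.l 1)) (T.l 1)) (T.l 1)) (T.a (T.a (T.l 476) (T.c (T.b (T.c (T.b (T.a (T.c (T.b (T.l 1) (T.l 476)) (T.b (T.l 1) (T.l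 476))) (T.l 1)) (T.l 476)) (T.b (T.a (T.c (T.b (T.l 1) (T.l 476)) (T.b (T.l 1) (T.l 476))) (T.l 1)) (T.l 476))) (T.l 204)) (T.b (T.c (T.b (T.a (T.c (T.b (T.l 1) (T.l 476)) (T.b (T.l 1) (T.l 476))) (T.l 1)) (T.l 476)) (T.b (T.a (T.c (T.b (T.l 1) (T.l 476)) (T.b (T.l 1) (T.l 476))) (T.l 1)) (T.l 476))) (T.l 204)))) (T.c (T.b (T.a (T.c (T.b (T.l 1) (T.c (T.b (T.l 1) (T.l 476)) (T.b (T.l 1) (T.l 476)))) (T.b (T.l 1) (T.c (T.b (T.l 1) (T.l 476)) (T.b (T.l 1) (T.a (T.l 476) (T.l 476)))))) (T.l 1)) (T.a (T.l 476) (T.a (T.l 476) (T.c (T.b (T.c (T.b (T.l 1) (T.l 476)) (T.b (T.l 1) (T.l 476))) (T.l 476)) (T.b (T.c (T.b (T.l 1) (T.l 476)) (T.b (T.l 1) (T.l 476))) (T.l 476)))))) (T.b (T.a (T.c (T.b (T.l 1) (T.c (T.b (T.l 1) (T.a (T.l 476) (T.l 476))) (T.b (T.l 1) (T.a (T.l 476) (T.l 476))))) (T.b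 (T.l 1) (T.c (T.b (T.l 1) (T.a (T.l 476) (T.l 476))) (T.b (T.l 1) (T.a (T.l 476) (T.l 476)))))) (T.l 1)) (T.a (T.l 476) (T.a (T.l 476) (T.c (T.b (T.c (T.b (T.l 1) (T.l 476)) (T.b (T.l 1) (T.l 476))) (T.l 476)) (T.b (T.c (T.b (T.l 1) (T.l 476)) (T.b (T.l 1) (T.l 476))) (T.l 476))))))))) (T.b (T.a (T.a (T.a (T.c (T.b (T.l 1) (T.c (T.b (T.l 1) (T.c (T.b (T.l 1) (T.l 460)) (T.b (T.l 1) (T.l 460)))) (T.b (T.l 1) (T.c (T.b (T.l 1) (T.l 460)) (T.b (T.l 1) (T.l 460)))))) (T.b (T.l 1) (T.c (T.b (T.l 1) (T.c (T.b (T.l 1) (T.l 460)) (T.b (T.l 1) (T.l 460)))) (T.b (T.l 1) (T.c (T.b (T.l 1) (T.l 460)) (T.b (T.l 1) (T.l 460))))))) (T.l 1)) (T.l 1)) (T.l 1)) (T.a (T.a (T.l 476) (T.c (T.b (T.c (T.b (T.a (T.c (T.b (T.l 1) (T.l 476)) (T.b (T.l 1) (T.l 460))) (T.l 1)) (T.l 476)) (T.b (T.a (T.c (T.b (T.l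 1) (T.l 460)) (T.b (T.l 1) (T.l 460))) (T.l 1)) (T.l 460))) (T.l 204)) (T.b (T.c (T.b (T.a (T.c (T.b (T.l 1) (T.l 460)) (T.b (T.l 1) (T.l 460))) (T.l 1)) (T.l 460)) (T.b (T.a (T.c (T.b (T.l 1) (T.l 460)) (T.b (T.l 1) (T.l 460))) (T.l 1)) (T.l 460))) (T.l 204)))) (T.c (T.b (T.a (T.c (T.b (T.l 1) (T.c (T.b (T.l 1) (T.a (T.l 476) (T.l 476))) (T.b (T.l 1) (T.a (T.l 476) (T.l 476))))) (T.b (T.l 1) (T.c (T.b (T.l 1) (T.a (T.l 460) (T.l 476))) (T.b (T.l 1) (T.a (T.l 460) (T.a (T.l 476) (T.l 1))))))) (T.l 1)) (T.a (T.l 476) (T.a (T.l 476) (T.c (T.b (T.c (T.b (T.l 1) (T.l 476)) (T.b (T.l 1) (T.l 476))) (T.l 476)) (T.b (T.c (T.b (T.l 1) (T.l 476)) (T.b (T.l 1) (T.l 476))) (T.l 476)))))) (T.b (T.a (T.c (T.b (T.l 1) (T.c (T.b (T.l 1) (T.a (T.l 460) (T.a (T.l 476) (T.l 1)))) (T.b (T.l 1) (T.a (T.l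 460) (T.a (T.l 476) (T.l 1)))))) (T.b (T.l 1) (T.c (T.b (T.l 1) (T.a (T.l 460) (T.a (T.l 476) (T.l 1)))) (T.b (T.l 1) (T.a (T.l 460) (T.a (T.l 460) (T.l 1))))))) (T.l 1)) (T.a (T.l 476) (T.a (T.l 476) (T.c (T.b (T.c (T.b (T.l 1) (T.l 476)) (T.b (T.l 1) (T.l 476))) (T.l 460)) (T.b (T.c (T.b (T.l 1) (T.l 476)) (T.b (T.l 1) (T.l 476))) (T.l 460)))))))))) (T.a (T.l 204) (T.l 476))), by decide +kernel⟩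

def B102E_010_3_82_1 :
    ∃ t, chk3 (onCell 0 50331648 0 1073741824 50331648 16777216 (corTK [] true 1 c0F cB102E gF0q1 gF1q2 gF0q0 gF1q0 true true)) t 3 82 1 = true :=
  ⟨(T.b (T.l 1) (T.a (T.b (T.a (T.a (T.a (T.c (T.b (T.l 1) (T.c (T.b (T.l 1) (T.c (T.b (T.l 1) (T.a (T.l 476) (T.a (T.l 476) (T.l 1)))) (T.b (T.l 1) (T.a (T.l 476) (T.a (T.l 476) (T.l 1)))))) (T.b (T.l 1) (T.c (T.b (T.l 1) (T.a (T.l 476) (T.c (T.a (T.l 476) (T.l 1)) (T.a (T.l 476) (T.l 1))))) (T.b (T.l 1) (T.a (T.l 476) (T.c (T.b (T.l 1) (T.l 476)) (T.b (T.l 1) (T.l 476))))))))) (T.b (T.l 1) (T.c (T.b (T.l 1) (T.c (T.b (T.l 1) (T.a (T.l 476) (T.c (T.b (T.l 1) (T.l 476)) (T.b (T.l 1) (T.l 476))))) (T.b (T.l 1) (T.a (T.l 476) (T.c (T.b (T.l 1) (T.l 476)) (T.b (T.l 1) (T.l 476))))))) (T.b (T.l 1) (T.c (T.b (T.l 1) (T.a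 (T.l 476) (T.c (T.b (T.l 1) (T.l 476)) (T.b (T.l 1) (T.l 476))))) (T.b (T.l 1) (T.a (T.l 476) (T.c (T.b (T.l 1) (T.l 476)) (T.b (T.l 1) (T.l 476)))))))))) (T.l 1)) (T.l 1)) (T.l 1)) (T.a (T.a (T.a (T.l 476) (T.a (T.l 476) (T.c (T.b (T.a (T.l 476) (T.c (T.b (T.c (T.b (T.a (T.l 476) (T.l 1)) (T.l 476)) (T.b (T.a (T.l 476) (T.l 1)) (T.l 476))) (T.l 204)) (T.b (T.c (T.b (T.a (T.l 476) (T.l 1)) (T.l 476)) (T.b (T.c (T.a (T.l 476) (T.l 1)) (T.b (T.l 1) (T.l 476))) (T.l 476))) (T.l 204)))) (T.l 204)) (T.b (T.a (T.l 476) (T.c (T.b (T.c (T.b (T.c (T.b (T.l 1) (T.l 476)) (T.b (T.l 1) (T.l 476))) (T.l 476)) (T.b (T.c (T.b (T.l 1) (T.l 476)) (T.b (T.l 1) (T.l 476))) (T.l 476))) (T.l 204)) (T.b (T.c (T.b (T.c (T.b (T.l 1) (T.l 476)) (T.b (T.l 1) (T.l 476))) (T.l 476)) (T.b (T.c (T.b (T.l 1) (T.l 476))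 (T.b (T.l 1) (T.l 476))) (T.l 476))) (T.l 204)))) (T.l 204))))) (T.c (T.b (T.c (T.b (T.a (T.c (T.b (T.l 1) (T.a (T.l 476) (T.c (T.a (T.l 476) (T.l 476)) (T.b (T.l 1) (T.l 476))))) (T.b (T.l 1) (T.a (T.l 476) (T.c (T.b (T.l 1) (T.l 476)) (T.b (T.l 1) (T.l 476)))))) (T.l 1)) (T.a (T.l 476) (T.c (T.l 476) (T.l 476)))) (T.b (T.a (T.c (T.b (T.l 1) (T.a (T.l 476) (T.c (T.b (T.l 1) (T.l 476)) (T.b (T.l 1) (T.l 476))))) (T.b (T.l 1) (T.a (T.l 476) (T.c (T.b (T.l 1) (T.l 476)) (T.b (T.l 1) (T.l 476)))))) (T.l 1)) (T.a (T.l 476) (T.a (T.l 476) (T.l 476))))) (T.l 220)) (T.b (T.c (T.b (T.a (T.c (T.b (T.l 1) (T.a (T.l 476) (T.c (T.b (T.l 1) (T.l 476)) (T.b (T.l 1) (T.l 476))))) (T.b (T.l 1) (T.a (T.l 476) (T.c (T.b (T.l 1) (T.l 476)) (T.b (T.l 1) (T.l 476)))))) (T.l 1)) (T.a (T.l 476) (T.a (T.l 476)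 (T.l 476)))) (T.b (T.a (T.c (T.b (T.l 1) (T.a (T.l 476) (T.c (T.b (T.l 1) (T.l 476)) (T.b (T.l 1) (T.l 476))))) (T.b (T.l 1) (T.a (T.l 476) (T.c (T.b (T.l 1) (T.l 476)) (T.b (T.l 1) (T.l 476)))))) (T.l 1)) (T.a (T.l 476) (T.a (T.l 476) (T.l 476))))) (T.l 220)))) (T.c (T.b (T.a (T.a (T.c (T.b (T.l 1) (T.c (T.b (T.l 1) (T.l 476)) (T.b (T.l 1) (T.l 476)))) (T.b (T.l 1) (T.c (T.b (T.l 1) (T.l 476)) (T.b (T.l 1) (T.l 476))))) (T.l 1)) (T.l 1)) (T.a (T.a (T.l 476) (T.l 476)) (T.c (T.b (T.a (T.c (T.b (T.a (T.c (T.a (T.l 476) (T.l 1)) (T.b (T.l 1) (T.l 476))) (T.l 1)) (T.l 476)) (T.b (T.a (T.c (T.b (T.l 1) (T.l 476)) (T.b (T.l 1) (T.l 476))) (T.l 1)) (T.l 476))) (T.a (T.a (T.c (T.b (T.l 1) (T.l 476)) (T.b (T.l 1) (T.l 476))) (T.l 1)) (T.l 1))) (T.l 476)) (T.b (T.a (T.c (T.b (T.a (T.c (T.b (T.l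 1) (T.l 476)) (T.b (T.l 1) (T.l 476))) (T.l 1)) (T.l 476)) (T.b (T.a (T.c (T.b (T.l 1) (T.l 476)) (T.b (T.l 1) (T.l 476))) (T.l 1)) (T.l 476))) (T.a (T.a (T.c (T.b (T.l 1) (T.l 476)) (T.b (T.l 1) (T.l 476))) (T.l 1)) (T.l 1))) (T.l 476))))) (T.b (T.a (T.a (T.c (T.b (T.l 1) (T.c (T.b (T.l 1) (T.l 476)) (T.b (T.l 1) (T.l 476)))) (T.b (T.l 1) (T.c (T.b (T.l 1) (T.l 476)) (T.b (T.l 1) (T.l 476))))) (T.l 1)) (T.l 1)) (T.a (T.a (T.l 476) (T.c (T.l 476) (T.l 476))) (T.c (T.b (T.a (T.c (T.b (T.a (T.c (T.b (T.l 1) (T.l 476)) (T.b (T.l 1) (T.l 476))) (T.l 1)) (T.l 476)) (T.b (T.a (T.c (T.b (T.l 1) (T.l 476)) (T.b (T.l 1) (T.l 476))) (T.l 1)) (T.l 476))) (T.a (T.a (T.c (T.b (T.l 1) (T.a (T.l 476) (T.l 1))) (T.b (T.l 1) (T.a (T.l 476) (T.l 1)))) (T.l 1)) (T.l 1))) (T.a (T.l 476) (T.l 476))) (T.b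 (T.a (T.c (T.b (T.a (T.c (T.b (T.l 1) (T.l 476)) (T.b (T.l 1) (T.l 476))) (T.l 1)) (T.l 476)) (T.b (T.a (T.c (T.b (T.l 1) (T.l 476)) (T.b (T.l 1) (T.l 476))) (T.l 1)) (T.l 476))) (T.a (T.a (T.c (T.b (T.l 1) (T.a (T.l 476) (T.l 1))) (T.b (T.l 1) (T.a (T.l 476) (T.l 1)))) (T.l 1)) (T.l 1))) (T.a (T.l 476) (T.l 476))))))))) (T.a (T.a (T.b (T.l 1) (T.c (T.b (T.l 1) (T.c (T.b (T.l 1) (T.a (T.c (T.b (T.a (T.a (T.l 476) (T.l 1)) (T.l 1)) (T.l 476)) (T.b (T.a (T.a (T.l 476) (T.l 1)) (T.l 1)) (T.l 476))) (T.a (T.c (T.b (T.l 1) (T.a (T.l 476) (T.l 1))) (T.b (T.l 1) (T.a (T.l 476) (T.l 1)))) (T.l 1)))) (T.b (T.l 1) (T.a (T.c (T.b (T.a (T.a (T.l 476) (T.l 1)) (T.l 1)) (T.l 476)) (T.b (T.a (T.a (T.l 476) (T.l 1)) (T.l 1)) (T.l 476))) (T.a (T.c (T.b (T.l 1) (T.a (T.l 476) (T.l 1))) (T.b (T.l 1) (T.a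 (T.l 476) (T.l 1)))) (T.l 1)))))) (T.b (T.l 1) (T.c (T.b (T.l 1) (T.a (T.c (T.b (T.a (T.a (T.l 476) (T.l 1)) (T.l 1)) (T.l 476)) (T.b (T.a (T.a (T.l 476) (T.l 1)) (T.l 1)) (T.l 476))) (T.a (T.a (T.c (T.b (T.l 1) (T.l 476)) (T.b (T.l 1) (T.l 476))) (T.l 1)) (T.l 1)))) (T.b (T.l 1) (T.a (T.c (T.b (T.a (T.c (T.a (T.l 476) (T.l 1)) (T.b (T.l 1) (T.l 476))) (T.l 1)) (T.l 476)) (T.b (T.a (T.c (T.b (T.l 1) (T.l 476)) (T.b (T.l 1) (T.l 476))) (T.l 1)) (T.l 476))) (T.a (T.a (T.c (T.b (T.l 1) (T.l 476)) (T.b (T.l 1) (T.l 476))) (T.l 1)) (T.l 1)))))))) (T.l 1)) (T.l 1)))), by decide +kernel⟩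

def B102E_010_1_83_1 :
    ∃ t, chk3 (onCell 0 50331648 0 1073741824 50331648 16777216 (corTK [] true 1 c0F cB102E gF0q1 gF1q2 gF0q0 gF1q0 true true)) t 1 83 1 = true :=
  ⟨(T.a (T.a (T.l 204) (T.a (T.l 204) (T.l 204))) (T.a (T.a (T.b (T.l 220) (T.l 204)) (T.a (T.l 204) (T.l 476))) (T.b (T.a (T.b (T.c (T.b (T.a (T.l 476) (T.c (T.b (T.a (T.c (T.b (T.a (T.l 476) (T.l 1)) (T.l 476)) (T.b (T.a (T.a (T.l 476) (T.l 1)) (T.l 1)) (T.l 476))) (T.a (T.c (T.b (T.l 1) (T.l 476)) (T.b (T.l 1) (T.l 476))) (T.l 1))) (T.l 476)) (T.b (T.a (T.c (T.b (T.a (T.a (T.l 476) (T.l 1)) (T.l 1)) (T.l 476)) (T.b (T.a (T.a (T.l 476) (T.l 1)) (T.l 1)) (T.l 476))) (T.a (T.c (T.b (T.l 1) (T.c (T.l 476) (T.l 476))) (T.b (T.l 1) (T.a (T.l 476) (T.l 1)))) (T.l 1))) (T.l 476)))) (T.l 476)) (T.b (T.a (T.a (T.l 476) (T.l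 476)) (T.c (T.b (T.a (T.c (T.b (T.a (T.a (T.l 476) (T.l 1)) (T.l 1)) (T.l 476)) (T.b (T.a (T.a (T.l 476) (T.l 1)) (T.l 1)) (T.l 476))) (T.a (T.c (T.b (T.l 1) (T.a (T.l 476) (T.l 1))) (T.b (T.l 1) (T.a (T.l 476) (T.l 1)))) (T.l 1))) (T.l 476)) (T.b (T.a (T.c (T.b (T.a (T.a (T.l 476) (T.l 1)) (T.l 1)) (T.l 476)) (T.b (T.a (T.a (T.l 476) (T.l 1)) (T.l 1)) (T.l 476))) (T.a (T.c (T.b (T.l 1) (T.a (T.l 476) (T.l 1))) (T.b (T.l 1) (T.a (T.l 476) (T.l 1)))) (T.l 1))) (T.l 476)))) (T.l 476))) (T.l 204)) (T.b (T.c (T.b (T.a (T.c (T.b (T.l 1) (T.a (T.c (T.b (T.a (T.l 476) (T.l 1)) (T.l 476)) (T.b (T.a (T.l 476) (T.l 1)) (T.l 476))) (T.a (T.c (T.b (T.l 1) (T.l 476)) (T.b (T.l 1) (T.l 476))) (T.l 1)))) (T.b (T.l 1) (T.a (T.c (T.b (T.a (T.l 476) (T.l 1)) (T.l 476)) (T.b (T.a (T.l 476) (T.l 1)) (T.l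 476))) (T.a (T.c (T.b (T.l 1) (T.l 476)) (T.b (T.l 1) (T.l 476))) (T.l 1))))) (T.l 1)) (T.a (T.l 476) (T.c (T.b (T.a (T.a (T.l 476) (T.c (T.b (T.l 1) (T.l 476)) (T.b (T.l 1) (T.l 476)))) (T.c (T.b (T.l 1) (T.a (T.l 476) (T.l 1))) (T.b (T.l 1) (T.a (T.l 476) (T.l 1))))) (T.l 476)) (T.b (T.a (T.c (T.a (T.l 476) (T.b (T.l 1) (T.l 476))) (T.b (T.a (T.l 476) (T.l 1)) (T.l 476))) (T.a (T.c (T.b (T.l 1) (T.l 476)) (T.b (T.l 1) (T.l 476))) (T.l 1))) (T.l 476))))) (T.b (T.a (T.c (T.b (T.l 1) (T.a (T.c (T.b (T.a (T.a (T.l 476) (T.l 1)) (T.l 1)) (T.l 476)) (T.b (T.a (T.a (T.l 476) (T.l 1)) (T.l 1)) (T.l 476))) (T.a (T.c (T.b (T.l 1) (T.l 476)) (T.b (T.l 1) (T.a (T.l 476) (T.l 1)))) (T.l 1)))) (T.b (T.l 1) (T.a (T.c (T.b (T.a (T.a (T.l 476) (T.l 1)) (T.l 1)) (T.l 476)) (T.b (T.a (T.a (T.l 476) (T.l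 1)) (T.l 1)) (T.l 476))) (T.a (T.c (T.b (T.l 1) (T.a (T.l 476) (T.l 1))) (T.b (T.l 1) (T.a (T.l 476) (T.l 1)))) (T.l 1))))) (T.l 1)) (T.a (T.l 476) (T.c (T.b (T.a (T.c (T.b (T.a (T.l 476) (T.l 1)) (T.l 476)) (T.b (T.a (T.l 476) (T.l 1)) (T.l 476))) (T.a (T.c (T.b (T.l 1) (T.l 476)) (T.b (T.l 1) (T.l 476))) (T.l 1))) (T.l 476)) (T.b (T.a (T.c (T.b (T.a (T.a (T.l 476) (T.l 1)) (T.l 1)) (T.l 476)) (T.b (T.a (T.a (T.l 476) (T.l 1)) (T.l 1)) (T.l 476))) (T.a (T.c (T.b (T.l 1) (T.l 476)) (T.b (T.l 1) (T.a (T.l 476) (T.l 1)))) (T.l 1))) (T.l 476)))))) (T.l 476))) (T.l 220)))), by decide +kernel⟩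

def B102E_010_1_21_1 :
    ∃ t, chk3 (onCell 0 50331648 0 1073741824 50331648 16777216 (corTK [] true 1 c0F cB102E gF0q1 gF1q2 gF0q0 gF1q0 true true)) t 1 21 1 = true :=
  ⟨(T.a (T.a (T.l 204) (T.a (T.l 204) (T.l 204))) (T.a (T.b (T.l 204) (T.l 204)) (T.l 220))), by decide +kernel⟩

def B102E_010_1_11_1 :
    ∃ t, chk3 (onCell 0 50331648 0 1073741824 50331648 16777216 (corTK [] true 1 c0F cB102E gF0q1 gF1q2 gF0q0 gF1q0 true true)) t 1 11 1 = true :=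
  ⟨(T.a (T.a (T.l 204) (T.b (T.l 0) (T.l 0))) (T.a (T.l 0) (T.l 0))), by decide +kernel⟩

def B102E_010_1_3_1 :
    ∃ t, chk3 (onCell 0 50331648 0 1073741824 50331648 16777216 (corTK [] true 1 c0F cB102E gF0q1 gF1q2 gF0q0 gF1q0 true true)) t 1 3 1 = true :=
  ⟨(T.b (T.b (T.a (T.a (T.a (T.l 204) (T.l 0)) (T.l 0)) (T.l 0)) (T.a (T.a (T.a (T.l 204) (T.l 204)) (T.l 0)) (T.l 0))) (T.l 2)), by decide +kernel⟩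

theorem B102E_010_5_165_1 :
    ∃ t, chk3 (onCell 0 50331648 0 1073741824 50331648 16777216 (corTK [] true 1 c0F cB102E gF0q1 gF1q2 gF0q0 gF1q0 true true)) t 5 165 1 = true :=
  ex3_a B102E_010_10_165_1 B102E_010_11_165_1
theorem B102E_010_5_82_1 :
    ∃ t, chk3 (onCell 0 50331648 0 1073741824 50331648 16777216 (corTK [] true 1 c0F cB102E gF0q1 gF1q2 gF0q0 gF1q0 true true)) t 5 82 1 = true :=
  ex3_b B102E_010_5_164_1 B102E_010_5_165_1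
theorem B102E_010_4_329_1 :
    ∃ t, chk3 (onCell 0 50331648 0 1073741824 50331648 16777216 (corTK [] true 1 c0F cB102E gF0q1 gF1q2 gF0q0 gF1q0 true true)) t 4 329 1 = true :=
  ex3_c B102E_010_4_329_2 B102E_010_4_329_3
theorem B102E_010_4_164_1 :
    ∃ t, chk3 (onCell 0 50331648 0 1073741824 50331648 16777216 (corTK [] true 1 c0F cB102E gF0q1 gF1q2 gF0q0 gF1q0 true true)) t 4 164 1 = true :=
  ex3_b B102E_010_4_328_1 B102E_010_4_329_1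
theorem B102E_010_4_82_1 :
    ∃ t, chk3 (onCell 0 50331648 0 1073741824 50331648 16777216 (corTK [] true 1 c0F cB102E gF0q1 gF1q2 gF0q0 gF1q0 true true)) t 4 82 1 = true :=
  ex3_b B102E_010_4_164_1 B102E_010_4_165_1
theorem B102E_010_2_82_1 :
    ∃ t, chk3 (onCell 0 50331648 0 1073741824 50331648 16777216 (corTK [] true 1 c0F cB102E gF0q1 gF1q2 gF0q0 gF1q0 true true)) t 2 82 1 = true :=
  ex3_a B102E_010_4_82_1 B102E_010_5_82_1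
theorem B102E_010_1_82_1 :
    ∃ t, chk3 (onCell 0 50331648 0 1073741824 50331648 16777216 (corTK [] true 1 c0F cB102E gF0q1 gF1q2 gF0q0 gF1q0 true true)) t 1 82 1 = true :=
  ex3_a B102E_010_2_82_1 B102E_010_3_82_1
theorem B102E_010_1_41_1 :
    ∃ t, chk3 (onCell 0 50331648 0 1073741824 50331648 16777216 (corTK [] true 1 c0F cB102E gF0q1 gF1q2 gF0q0 gF1q0 true true)) t 1 41 1 = true :=
  ex3_b B102E_010_1_82_1 B102E_010_1_83_1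
theorem B102E_010_1_20_1 :
    ∃ t, chk3 (onCell 0 50331648 0 1073741824 50331648 16777216 (corTK [] true 1 c0F cB102E gF0q1 gF1q2 gF0q0 gF1q0 true true)) t 1 20 1 = true :=
  ex3_b B102E_010_1_40_1 B102E_010_1_41_1
theorem B102E_010_1_10_1 :
    ∃ t, chk3 (onCell 0 50331648 0 1073741824 50331648 16777216 (corTK [] true 1 c0F cB102E gF0q1 gF1q2 gF0q0 gF1q0 true true)) t 1 10 1 = true :=
  ex3_b B102E_010_1_20_1 B102E_010_1_21_1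
theorem B102E_010_1_5_1 :
    ∃ t, chk3 (onCell 0 50331648 0 1073741824 50331648 16777216 (corTK [] true 1 c0F cB102E gF0q1 gF1q2 gF0q0 gF1q0 true true)) t 1 5 1 = true :=
  ex3_b B102E_010_1_10_1 B102E_010_1_11_1
theorem B102E_010_1_2_1 :
    ∃ t, chk3 (onCell 0 50331648 0 1073741824 50331648 16777216 (corTK [] true 1 c0F cB102E gF0q1 gF1q2 gF0q0 gF1q0 true true)) t 1 2 1 = true :=
  ex3_b B102E_010_1_4_1 B102E_010_1_5_1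
theorem B102E_010 :
    ∃ t, chk3 (onCell 0 50331648 0 1073741824 50331648 16777216 (corTK [] true 1 c0F cB102E gF0q1 gF1q2 gF0q0 gF1q0 true true)) t 1 1 1 = true :=
  ex3_b B102E_010_1_2_1 B102E_010_1_3_1

def B102E_011 :
    ∃ t, chk3 (onCell 0 50331648 0 1073741824 50331648 16777216 (corTK [] true 1 c0F cB102E gF0q1 gF1q2 gF1q0 gF2q0 true true)) t 1 1 1 = true :=
  ⟨(T.b (T.l 1) (T.b (T.b (T.l 1) (T.a (T.a (T.a (T.l 0) (T.l 0)) (T.l 0)) (T.l 0))) (T.a (T.a (T.a (T.l 204) (T.l 0)) (T.b (T.l 0) (T.l 204))) (T.b (T.l 0) (T.l 204))))), by decide +kernel⟩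

def B102E_012 :
    ∃ t, chk3 (onCell 0 50331648 0 1073741824 50331648 16777216 (corTK [] true 1 c0F cB102E gF0q1 gF1q2 gF2q0 gF3q0 true false)) t 1 1 1 = true :=
  ⟨(T.b (T.l 1) (T.b (T.l 1) (T.a (T.b (T.l 1) (T.b (T.l 1) (T.a (T.a (T.l 204) (T.l 204)) (T.l 204)))) (T.l 0)))), by decide +kernel⟩

def B102E_020_1_2_1 :
    ∃ t, chk3 (onCell 0 50331648 0 1073741824 50331648 16777216 (corTK [[⟨0, 1, 0, 8388608⟩, ⟨1, 0, 1, 25165824⟩, ⟨2, 1, 1, 25165824⟩, ⟨1, 0, 0, 83886080⟩, ⟨1, 1, 0, 1040187392⟩, ⟨2, 1, 0, 83886080⟩, ⟨2, 2, 0, 1040187392⟩]] true 1 c0F cB102E gF0q1 gF2q2 gF0q0 gF1q0 true true)) t 1 2 1 = true :=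
  ⟨(T.b (T.b (T.b (T.b (T.b (T.b (T.b (T.a (T.a (T.a (T.l 204) (T.l 204)) (T.a (T.a (T.a (T.l 204) (T.c (T.l 220) (T.l 204))) (T.c (T.b (T.c (T.a (T.c (T.l 220) (T.l 204)) (T.l 220)) (T.a (T.l 204) (T.l 204))) (T.l 204)) (T.a (T.l 204) (T.l 204)))) (T.a (T.c (T.b (T.a (T.l 220) (T.l 220)) (T.l 204)) (T.a (T.l 204) (T.l 204))) (T.c (T.a (T.l 220) (T.c (T.l 220) (T.l 220))) (T.a (T.l 204) (T.l 204)))))) (T.c (T.a (T.a (T.a (T.b (T.c (T.a (T.l 220) (T.l 476)) (T.a (T.l 220) (T.l 476))) (T.l 204)) (T.b (T.c (T.b (T.c (T.b (T.c (T.a (T.l 476) (T.l 476)) (T.a (T.l 476) (T.l 476))) (T.l 220)) (T.a (T.l 476) (T.a (T.l 476) (T.l 476)))) (T.l 204)) (T.b (T.c (T.a (T.l 476) (T.l 476)) (T.a (T.l 476) (T.l 476))) (T.l 204))) (T.l 204))) (T.a (T.a (T.b (T.c (T.a (T.l 476) (T.l 476)) (T.c (T.l 476)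 (T.l 476))) (T.l 204)) (T.a (T.b (T.a (T.l 476) (T.a (T.l 476) (T.l 476))) (T.l 204)) (T.l 1024))) (T.l 1024))) (T.l 1024)) (T.b (T.a (T.a (T.a (T.a (T.l 220) (T.l 476)) (T.c (T.a (T.l 476) (T.l 476)) (T.a (T.l 476) (T.l 476)))) (T.a (T.a (T.c (T.l 476) (T.l 476)) (T.c (T.b (T.a (T.a (T.l 476) (T.l 476)) (T.l 476)) (T.l 204)) (T.a (T.c (T.l 476) (T.l 476)) (T.l 476)))) (T.a (T.c (T.b (T.a (T.l 476) (T.l 476)) (T.l 204)) (T.a (T.l 476) (T.l 476))) (T.c (T.c (T.l 1024) (T.a (T.l 476) (T.l 476))) (T.a (T.l 476) (T.l 476)))))) (T.a (T.a (T.a (T.c (T.a (T.c (T.l 1024) (T.l 476)) (T.l 1024)) (T.a (T.l 476) (T.l 476))) (T.c (T.l 1024) (T.a (T.l 476) (T.l 476)))) (T.a (T.c (T.l 1024) (T.a (T.l 476) (T.l 476))) (T.l 1024))) (T.l 1024))) (T.a (T.a (T.a (T.l 204) (T.l 204)) (T.a (T.a (T.l 204) (T.l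 204)) (T.l 220))) (T.a (T.a (T.l 204) (T.l 204)) (T.l 1024)))))) (T.a (T.a (T.l 204) (T.a (T.a (T.l 204) (T.l 204)) (T.l 204))) (T.c (T.a (T.a (T.l 204) (T.a (T.l 204) (T.l 1024))) (T.l 1024)) (T.b (T.a (T.a (T.l 204) (T.a (T.l 204) (T.l 204))) (T.a (T.a (T.l 204) (T.l 204)) (T.l 1024))) (T.a (T.a (T.l 204) (T.a (T.l 204) (T.l 204))) (T.a (T.l 204) (T.l 1024))))))) (T.b (T.a (T.a (T.l 204) (T.a (T.l 204) (T.l 204))) (T.a (T.a (T.l 204) (T.a (T.l 204) (T.l 204))) (T.a (T.l 204) (T.l 1024)))) (T.a (T.a (T.l 204) (T.a (T.l 204) (T.l 204))) (T.a (T.a (T.l 204) (T.c (T.l 204) (T.l 220))) (T.a (T.l 204) (T.l 1024)))))) (T.b (T.b (T.a (T.a (T.l 204) (T.a (T.l 204) (T.l 204))) (T.a (T.a (T.l 204) (T.l 204)) (T.a (T.l 204) (T.l 1024)))) (T.a (T.a (T.l 204) (T.l 204)) (T.a (T.a (T.l 204) (T.l 204))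 (T.a (T.l 204) (T.l 1024))))) (T.b (T.a (T.a (T.l 204) (T.l 204)) (T.a (T.a (T.l 204) (T.l 204)) (T.a (T.l 204) (T.l 1024)))) (T.a (T.a (T.l 204) (T.l 204)) (T.a (T.a (T.l 204) (T.l 204)) (T.a (T.l 204) (T.l 1024))))))) (T.b (T.b (T.b (T.a (T.a (T.l 204) (T.l 204)) (T.a (T.a (T.l 204) (T.l 204)) (T.l 0))) (T.a (T.a (T.l 204) (T.l 204)) (T.a (T.a (T.l 204) (T.l 204)) (T.l 0)))) (T.b (T.a (T.a (T.l 204) (T.l 204)) (T.a (T.a (T.l 204) (T.l 204)) (T.l 0))) (T.a (T.a (T.l 204) (T.l 204)) (T.a (T.a (T.l 204) (T.l 204)) (T.l 0))))) (T.b (T.b (T.a (T.a (T.l 204) (T.l 204)) (T.a (T.a (T.l 204) (T.l 204)) (T.l 0))) (T.a (T.a (T.l 204) (T.l 204)) (T.a (T.a (T.l 204) (T.l 204)) (T.l 0)))) (T.b (T.a (T.a (T.l 204) (T.l 204)) (T.a (T.a (T.l 204) (T.l 204)) (T.l 0))) (T.a (T.a (T.l 204) (T.l 204)) (T.a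 (T.a (T.l 204) (T.l 204)) (T.l 0))))))) (T.b (T.b (T.b (T.b (T.a (T.a (T.l 204) (T.l 204)) (T.a (T.a (T.l 204) (T.l 204)) (T.l 0))) (T.a (T.a (T.l 204) (T.l 204)) (T.a (T.a (T.l 204) (T.l 204)) (T.l 0)))) (T.b (T.a (T.a (T.l 204) (T.l 204)) (T.a (T.a (T.l 204) (T.l 204)) (T.l 0))) (T.a (T.a (T.l 204) (T.l 204)) (T.a (T.a (T.l 204) (T.l 204)) (T.l 0))))) (T.b (T.b (T.a (T.a (T.l 204) (T.l 204)) (T.a (T.a (T.l 204) (T.l 204)) (T.l 0))) (T.a (T.a (T.l 204) (T.l 204)) (T.a (T.a (T.l 204) (T.l 204)) (T.l 0)))) (T.b (T.a (T.a (T.l 204) (T.l 204)) (T.a (T.a (T.l 204) (T.l 204)) (T.l 0))) (T.a (T.a (T.l 204) (T.l 204)) (T.a (T.a (T.l 204) (T.l 204)) (T.l 0)))))) (T.b (T.b (T.b (T.a (T.a (T.l 204) (T.l 204)) (T.a (T.a (T.l 204) (T.l 204)) (T.l 0))) (T.a (T.a (T.l 204) (T.l 204)) (T.a (T.a (T.l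 204) (T.l 204)) (T.l 0)))) (T.b (T.a (T.a (T.l 204) (T.l 204)) (T.a (T.a (T.l 204) (T.l 204)) (T.l 0))) (T.a (T.a (T.l 204) (T.l 204)) (T.a (T.a (T.l 204) (T.l 204)) (T.l 0))))) (T.b (T.b (T.a (T.a (T.l 204) (T.l 204)) (T.a (T.a (T.l 204) (T.l 204)) (T.l 0))) (T.a (T.a (T.l 204) (T.l 204)) (T.a (T.l 204) (T.l 0)))) (T.b (T.a (T.a (T.l 204) (T.l 204)) (T.a (T.l 204) (T.l 0))) (T.a (T.a (T.l 204) (T.l 204)) (T.a (T.l 204) (T.l 0)))))))) (T.b (T.b (T.b (T.b (T.b (T.a (T.a (T.l 204) (T.l 204)) (T.a (T.l 204) (T.l 0))) (T.a (T.a (T.l 204) (T.l 204)) (T.a (T.l 204) (T.l 0)))) (T.b (T.a (T.a (T.l 204) (T.l 204)) (T.a (T.l 204) (T.l 0))) (T.a (T.a (T.l 204) (T.l 204)) (T.a (T.l 204) (T.l 0))))) (T.b (T.b (T.a (T.a (T.l 204) (T.l 204)) (T.a (T.l 204) (T.l 0))) (T.a (T.a (T.l 204) (T.l 204)) (T.a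 (T.l 204) (T.l 0)))) (T.b (T.a (T.a (T.l 204) (T.l 204)) (T.a (T.l 204) (T.l 0))) (T.a (T.a (T.l 204) (T.l 204)) (T.a (T.l 204) (T.l 0)))))) (T.b (T.b (T.b (T.a (T.a (T.l 204) (T.l 204)) (T.a (T.l 204) (T.l 0))) (T.a (T.a (T.l 204) (T.l 204)) (T.a (T.l 204) (T.l 0)))) (T.b (T.a (T.a (T.l 204) (T.l 204)) (T.a (T.l 204) (T.l 0))) (T.a (T.a (T.l 204) (T.l 204)) (T.a (T.l 204) (T.l 0))))) (T.b (T.b (T.a (T.a (T.l 204) (T.l 204)) (T.a (T.l 204) (T.l 0))) (T.a (T.a (T.l 204) (T.l 204)) (T.a (T.l 204) (T.l 0)))) (T.b (T.a (T.a (T.l 204) (T.l 204)) (T.a (T.l 204) (T.l 0))) (T.a (T.a (T.l 204) (T.l 204)) (T.a (T.l 204) (T.l 0))))))) (T.b (T.b (T.b (T.b (T.a (T.a (T.l 204) (T.l 204)) (T.a (T.l 204) (T.l 0))) (T.a (T.a (T.l 204) (T.l 204)) (T.a (T.l 204) (T.l 0)))) (T.a (T.a (T.l 204) (T.l 204))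 (T.a (T.l 204) (T.l 0)))) (T.b (T.a (T.a (T.l 204) (T.l 204)) (T.a (T.l 204) (T.l 0))) (T.a (T.a (T.l 204) (T.l 204)) (T.a (T.l 204) (T.l 0))))) (T.b (T.a (T.a (T.l 204) (T.l 204)) (T.a (T.l 204) (T.l 0))) (T.a (T.a (T.l 204) (T.l 204)) (T.a (T.l 204) (T.l 0))))))) (T.b (T.b (T.b (T.b (T.a (T.a (T.l 204) (T.l 204)) (T.a (T.l 204) (T.l 0))) (T.a (T.a (T.l 204) (T.l 204)) (T.a (T.l 204) (T.l 0)))) (T.b (T.a (T.a (T.l 204) (T.l 204)) (T.a (T.l 204) (T.l 0))) (T.a (T.a (T.l 204) (T.l 204)) (T.a (T.l 204) (T.l 0))))) (T.b (T.a (T.a (T.l 204) (T.l 204)) (T.a (T.l 204) (T.l 0))) (T.a (T.a (T.l 204) (T.l 204)) (T.l 204)))) (T.a (T.a (T.l 204) (T.l 0)) (T.l 0)))), by decide +kernel⟩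

def B102E_020_1_3_1 :
    ∃ t, chk3 (onCell 0 50331648 0 1073741824 50331648 16777216 (corTK [[⟨0, 1, 0, 8388608⟩, ⟨1, 0, 1, 25165824⟩, ⟨2, 1, 1, 25165824⟩, ⟨1, 0, 0, 83886080⟩, ⟨1, 1, 0, 1040187392⟩, ⟨2, 1, 0, 83886080⟩, ⟨2, 2, 0, 1040187392⟩]] true 1 c0F cB102E gF0q1 gF2q2 gF0q0 gF1q0 true true)) t 1 3 1 = true :=
  ⟨(T.b (T.b (T.a (T.a (T.a (T.l 204) (T.l 204)) (T.l 0)) (T.l 0)) (T.l 2)) (T.l 2)), by decide +kernel⟩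

theorem B102E_020 :
    ∃ t, chk3 (onCell 0 50331648 0 1073741824 50331648 16777216 (corTK [[⟨0, 1, 0, 8388608⟩, ⟨1, 0, 1, 25165824⟩, ⟨2, 1, 1, 25165824⟩, ⟨1, 0, 0, 83886080⟩, ⟨1, 1, 0, 1040187392⟩, ⟨2, 1, 0, 83886080⟩, ⟨2, 2, 0, 1040187392⟩]] true 1 c0F cB102E gF0q1 gF2q2 gF0q0 gF1q0 true true)) t 1 1 1 = true :=
  ex3_b B102E_020_1_2_1 B102E_020_1_3_1

def B102E_021 :
    ∃ t, chk3 (onCell 0 50331648 0 1073741824 50331648 16777216 (corTK [[⟨0, 1, 0, 8388608⟩, ⟨1, 0, 1, 25165824⟩, ⟨2, 1, 1, 25165824⟩, ⟨1, 0, 0, 83886080⟩, ⟨1, 1, 0, 1040187392⟩, ⟨2, 1, 0, 83886080⟩, ⟨2, 2, 0, 1040187392⟩]] true 1 c0F cB102E gF0q1 gF2q2 gF1q0 gF2q0 true true)) t 1 1 1 = true :=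
  ⟨(T.b (T.l 1) (T.b (T.a (T.a (T.a (T.l 204) (T.l 0)) (T.l 0)) (T.b (T.l 0) (T.l 0))) (T.a (T.a (T.a (T.l 204) (T.l 204)) (T.l 0)) (T.l 0)))), by decide +kernel⟩

def B102E_022 :
    ∃ t, chk3 (onCell 0 50331648 0 1073741824 50331648 16777216 (corTK [[⟨0, 1, 0, 8388608⟩, ⟨1, 0, 1, 25165824⟩, ⟨2, 1, 1, 25165824⟩, ⟨1, 0, 0, 83886080⟩, ⟨1, 1, 0, 1040187392⟩, ⟨2, 1, 0, 83886080⟩, ⟨2, 2, 0, 1040187392⟩]] true 1 c0F cB102E gF0q1 gF2q2 gF2q0 gF3q0 true false)) t 1 1 1 = true :=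
  ⟨(T.b (T.l 1) (T.b (T.l 1) (T.a (T.b (T.l 1) (T.a (T.a (T.l 204) (T.l 204)) (T.l 204))) (T.l 0)))), by decide +kernel⟩

def B102L_200_1_2_1 :
    ∃ t, chk3 (onCell 0 50331648 0 1073741824 50331648 16777216 (corTK [[⟨0, 1, 2, 33554432⟩, ⟨1, 0, 1, 33554432⟩, ⟨2, 1, 0, 15728640⟩, ⟨0, 0, 0, 1040187392⟩, ⟨0, 1, 0, 83886080⟩, ⟨1, 0, 0, 83886080⟩, ⟨1, 1, 0, 1040187392⟩]] true 1 c0F cB102L gF2q1 gF0q2 gF0q0 gF1q0 true true)) t 1 2 1 = true :=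
  ⟨(T.b (T.l 2) (T.b (T.l 2) (T.a (T.a (T.a (T.l 204) (T.l 0)) (T.l 0)) (T.b (T.l 2) (T.l 0))))), by decide +kernel⟩

def B102L_200_1_6_1 :
    ∃ t, chk3 (onCell 0 50331648 0 1073741824 50331648 16777216 (corTK [[⟨0, 1, 2, 33554432⟩, ⟨1, 0, 1, 33554432⟩, ⟨2, 1, 0, 15728640⟩, ⟨0, 0, 0, 1040187392⟩, ⟨0, 1, 0, 83886080⟩, ⟨1, 0, 0, 83886080⟩, ⟨1, 1, 0, 1040187392⟩]] true 1 c0F cB102L gF2q1 gF0q2 gF0q0 gF1q0 true true)) t 1 6 1 = true :=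
  ⟨(T.b (T.a (T.a (T.l 204) (T.l 0)) (T.b (T.l 0) (T.l 0))) (T.b (T.b (T.a (T.a (T.l 204) (T.l 0)) (T.l 0)) (T.a (T.a (T.l 204) (T.l 0)) (T.a (T.l 204) (T.l 0)))) (T.b (T.a (T.a (T.l 204) (T.l 0)) (T.a (T.l 0) (T.l 0))) (T.b (T.b (T.a (T.a (T.l 204) (T.l 0)) (T.a (T.l 204) (T.l 0))) (T.a (T.a (T.l 204) (T.l 0)) (T.a (T.l 204) (T.l 0)))) (T.b (T.a (T.a (T.l 204) (T.l 0)) (T.a (T.l 204) (T.l 0))) (T.a (T.a (T.l 204) (T.l 0)) (T.a (T.l 0) (T.l 0)))))))), by decide +kernel⟩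

def B102L_200_1_7_1 :
    ∃ t, chk3 (onCell 0 50331648 0 1073741824 50331648 16777216 (corTK [[⟨0, 1, 2, 33554432⟩, ⟨1, 0, 1, 33554432⟩, ⟨2, 1, 0, 15728640⟩, ⟨0, 0, 0, 1040187392⟩, ⟨0, 1, 0, 83886080⟩, ⟨1, 0, 0, 83886080⟩, ⟨1, 1, 0, 1040187392⟩]] true 1 c0F cB102L gF2q1 gF0q2 gF0q0 gF1q0 true true)) t 1 7 1 = true :=
  ⟨(T.b (T.b (T.b (T.b (T.b (T.a (T.a (T.l 204) (T.l 0)) (T.a (T.l 0) (T.l 0))) (T.a (T.a (T.l 204) (T.l 0)) (T.a (T.l 0) (T.l 0)))) (T.b (T.a (T.a (T.l 204) (T.l 0)) (T.a (T.l 0) (T.l 0))) (T.a (T.a (T.l 204) (T.l 0)) (T.a (T.l 0) (T.l 0))))) (T.b (T.b (T.a (T.a (T.l 204) (T.l 0)) (T.a (T.l 0) (T.l 0))) (T.a (T.a (T.l 204) (T.l 0)) (T.a (T.l 0) (T.l 0)))) (T.b (T.a (T.a (T.l 204) (T.l 0)) (T.a (T.l 0) (T.l 0))) (T.a (T.a (T.l 0) (T.l 0)) (T.a (T.l 0) (T.l 0)))))) (T.b (T.b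 (T.b (T.a (T.a (T.l 0) (T.l 0)) (T.a (T.l 0) (T.l 0))) (T.b (T.a (T.a (T.l 816) (T.l 0)) (T.a (T.l 0) (T.l 0))) (T.a (T.a (T.l 816) (T.l 0)) (T.a (T.l 0) (T.l 0))))) (T.b (T.b (T.a (T.a (T.l 816) (T.l 0)) (T.a (T.l 0) (T.l 0))) (T.a (T.a (T.l 816) (T.l 0)) (T.a (T.l 0) (T.l 0)))) (T.b (T.a (T.a (T.l 816) (T.l 0)) (T.a (T.l 0) (T.l 0))) (T.a (T.a (T.l 816) (T.l 0)) (T.a (T.l 0) (T.l 0)))))) (T.b (T.b (T.b (T.a (T.a (T.l 816) (T.l 0)) (T.a (T.l 0) (T.l 0))) (T.a (T.a (T.l 816) (T.l 0)) (T.a (T.l 0) (T.l 0)))) (T.b (T.a (T.a (T.l 816) (T.l 0)) (T.a (T.l 0) (T.l 0))) (T.a (T.a (T.l 816) (T.l 0)) (T.a (T.l 0) (T.l 0))))) (T.b (T.b (T.a (T.a (T.l 816) (T.l 0)) (T.a (T.l 0) (T.l 0))) (T.a (T.a (T.l 816) (T.l 0)) (T.a (T.l 0) (T.l 0)))) (T.b (T.a (T.a (T.l 816) (T.l 0)) (T.a (T.l 0) (T.l 0)))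 (T.a (T.a (T.l 816) (T.l 0)) (T.a (T.l 0) (T.l 0)))))))) (T.b (T.b (T.b (T.b (T.b (T.a (T.a (T.l 816) (T.l 0)) (T.a (T.l 816) (T.l 0))) (T.a (T.a (T.l 816) (T.l 0)) (T.a (T.l 816) (T.l 0)))) (T.b (T.a (T.a (T.l 816) (T.l 0)) (T.a (T.l 816) (T.l 0))) (T.a (T.a (T.l 816) (T.l 0)) (T.a (T.a (T.l 816) (T.l 0)) (T.l 0))))) (T.b (T.b (T.a (T.a (T.l 816) (T.l 0)) (T.a (T.a (T.l 816) (T.l 0)) (T.l 1024))) (T.a (T.a (T.l 816) (T.l 0)) (T.a (T.a (T.l 816) (T.l 0)) (T.l 1024)))) (T.b (T.a (T.a (T.l 816) (T.l 0)) (T.a (T.a (T.l 816) (T.l 0)) (T.l 1024))) (T.a (T.a (T.l 816) (T.l 0)) (T.a (T.a (T.l 816) (T.l 0)) (T.l 1024)))))) (T.b (T.b (T.b (T.a (T.a (T.l 816) (T.l 0)) (T.a (T.a (T.l 816) (T.l 0)) (T.l 1024))) (T.a (T.a (T.l 816) (T.l 0)) (T.a (T.a (T.l 816) (T.l 0)) (T.l 1024)))) (T.b (T.a (T.a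 (T.l 816) (T.l 0)) (T.a (T.a (T.l 816) (T.l 0)) (T.l 1024))) (T.a (T.a (T.l 816) (T.l 0)) (T.a (T.a (T.l 816) (T.l 0)) (T.l 1024))))) (T.b (T.b (T.a (T.a (T.l 816) (T.l 0)) (T.a (T.a (T.l 816) (T.l 0)) (T.l 1024))) (T.a (T.a (T.l 816) (T.l 0)) (T.a (T.a (T.l 816) (T.l 0)) (T.l 1024)))) (T.b (T.a (T.a (T.l 816) (T.l 0)) (T.a (T.a (T.l 816) (T.l 0)) (T.l 1024))) (T.a (T.a (T.l 816) (T.l 0)) (T.a (T.a (T.l 816) (T.l 0)) (T.l 1024))))))) (T.b (T.b (T.b (T.b (T.a (T.a (T.l 816) (T.l 0)) (T.a (T.a (T.l 816) (T.l 0)) (T.l 1024))) (T.a (T.a (T.l 816) (T.l 0)) (T.a (T.a (T.l 816) (T.l 0)) (T.l 1024)))) (T.b (T.a (T.a (T.l 816) (T.l 0)) (T.a (T.a (T.l 816) (T.l 0)) (T.l 1024))) (T.a (T.a (T.l 816) (T.l 0)) (T.a (T.a (T.l 816) (T.l 0)) (T.l 1024))))) (T.b (T.b (T.a (T.a (T.l 816) (T.l 0)) (T.a (T.a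 (T.l 816) (T.l 0)) (T.l 1024))) (T.a (T.a (T.l 816) (T.a (T.l 816) (T.l 816))) (T.a (T.a (T.l 816) (T.l 0)) (T.l 1024)))) (T.b (T.a (T.a (T.l 816) (T.a (T.l 816) (T.l 816))) (T.a (T.a (T.l 816) (T.l 0)) (T.l 1024))) (T.a (T.a (T.l 816) (T.a (T.l 816) (T.l 816))) (T.a (T.a (T.l 816) (T.c (T.l 0) (T.l 0))) (T.l 1024)))))) (T.b (T.b (T.b (T.a (T.a (T.l 816) (T.a (T.l 816) (T.l 816))) (T.a (T.a (T.l 816) (T.a (T.l 816) (T.l 816))) (T.l 1024))) (T.a (T.a (T.l 816) (T.a (T.l 816) (T.l 816))) (T.a (T.a (T.l 816) (T.a (T.l 816) (T.l 1024))) (T.l 1024)))) (T.b (T.a (T.a (T.l 816) (T.a (T.l 816) (T.l 816))) (T.a (T.a (T.l 816) (T.a (T.l 816) (T.l 1024))) (T.l 1024))) (T.a (T.a (T.l 816) (T.a (T.l 816) (T.l 816))) (T.a (T.a (T.l 816) (T.a (T.l 816) (T.l 1024))) (T.l 1024))))) (T.b (T.b (T.a (T.a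 (T.l 816) (T.a (T.l 816) (T.l 816))) (T.a (T.a (T.l 816) (T.a (T.l 816) (T.l 1024))) (T.l 1024))) (T.a (T.a (T.l 816) (T.a (T.a (T.l 816) (T.l 816)) (T.l 816))) (T.a (T.a (T.l 816) (T.a (T.c (T.l 816) (T.l 820)) (T.l 1024))) (T.l 1024)))) (T.b (T.a (T.a (T.l 816) (T.a (T.a (T.l 816) (T.l 816)) (T.a (T.l 816) (T.l 816)))) (T.a (T.a (T.c (T.l 816) (T.l 820)) (T.a (T.a (T.l 816) (T.l 816)) (T.l 1024))) (T.l 1024))) (T.a (T.a (T.a (T.l 816) (T.l 816)) (T.c (T.a (T.a (T.l 816) (T.b (T.l 816) (T.a (T.c (T.l 816) (T.l 816)) (T.l 820)))) (T.a (T.b (T.l 816) (T.c (T.a (T.l 820) (T.l 884)) (T.a (T.l 820) (T.l 820)))) (T.b (T.l 816) (T.c (T.b (T.l 816) (T.a (T.l 884) (T.c (T.l 884) (T.l 884)))) (T.a (T.l 884) (T.c (T.l 884) (T.l 884))))))) (T.a (T.a (T.l 816) (T.b (T.l 816) (T.a (T.a (T.l 816) (T.l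 816)) (T.c (T.l 820) (T.l 820))))) (T.a (T.b (T.l 816) (T.c (T.a (T.l 820) (T.l 820)) (T.a (T.l 820) (T.l 820)))) (T.b (T.l 816) (T.c (T.a (T.l 820) (T.c (T.l 820) (T.l 820))) (T.a (T.l 820) (T.c (T.l 820) (T.l 820))))))))) (T.a (T.a (T.a (T.c (T.b (T.l 816) (T.c (T.b (T.l 816) (T.c (T.b (T.l 820) (T.a (T.a (T.l 884) (T.l 884)) (T.a (T.l 884) (T.l 884)))) (T.a (T.l 884) (T.a (T.l 884) (T.l 884))))) (T.b (T.l 816) (T.c (T.a (T.l 884) (T.a (T.l 884) (T.l 884))) (T.a (T.l 884) (T.a (T.l 820) (T.l 884))))))) (T.b (T.l 816) (T.c (T.b (T.l 816) (T.c (T.a (T.l 884) (T.a (T.l 820) (T.l 820))) (T.a (T.l 820) (T.l 884)))) (T.b (T.l 816) (T.c (T.a (T.l 820) (T.l 820)) (T.a (T.l 820) (T.l 820))))))) (T.c (T.b (T.l 816) (T.c (T.b (T.l 816) (T.a (T.a (T.l 884) (T.l 884)) (T.c (T.a (T.l 884) (T.l 884))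 (T.a (T.l 884) (T.l 884))))) (T.b (T.l 816) (T.a (T.a (T.l 884) (T.l 884)) (T.a (T.l 884) (T.l 884)))))) (T.b (T.l 816) (T.c (T.b (T.l 816) (T.a (T.a (T.l 884) (T.l 884)) (T.a (T.l 884) (T.l 884)))) (T.b (T.l 816) (T.a (T.a (T.l 820) (T.l 820)) (T.a (T.l 884) (T.l 884)))))))) (T.a (T.a (T.c (T.b (T.l 816) (T.c (T.b (T.l 816) (T.c (T.a (T.l 884) (T.l 884)) (T.a (T.l 884) (T.l 884)))) (T.b (T.l 816) (T.a (T.l 884) (T.l 884))))) (T.b (T.l 816) (T.c (T.a (T.l 884) (T.l 884)) (T.a (T.l 884) (T.l 884))))) (T.a (T.c (T.b (T.l 816) (T.c (T.a (T.l 884) (T.b (T.l 816) (T.a (T.c (T.l 884) (T.l 884)) (T.l 1024)))) (T.a (T.l 884) (T.a (T.l 884) (T.l 884))))) (T.a (T.l 884) (T.b (T.l 816) (T.a (T.l 884) (T.l 884))))) (T.l 1024))) (T.l 1024))) (T.l 1024))))))))), by decide +kernel⟩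

theorem B102L_200_1_3_1 :
    ∃ t, chk3 (onCell 0 50331648 0 1073741824 50331648 16777216 (corTK [[⟨0, 1, 2, 33554432⟩, ⟨1, 0, 1, 33554432⟩, ⟨2, 1, 0, 15728640⟩, ⟨0, 0, 0, 1040187392⟩, ⟨0, 1, 0, 83886080⟩, ⟨1, 0, 0, 83886080⟩, ⟨1, 1, 0, 1040187392⟩]] true 1 c0F cB102L gF2q1 gF0q2 gF0q0 gF1q0 true true)) t 1 3 1 = true :=
  ex3_b B102L_200_1_6_1 B102L_200_1_7_1
theorem B102L_200 :
    ∃ t, chk3 (onCell 0 50331648 0 1073741824 50331648 16777216 (corTK [[⟨0, 1, 2, 33554432⟩, ⟨1, 0, 1, 33554432⟩, ⟨2, 1, 0, 15728640⟩, ⟨0, 0, 0, 1040187392⟩, ⟨0, 1, 0, 83886080⟩, ⟨1, 0, 0, 83886080⟩, ⟨1, 1, 0, 1040187392⟩]] true 1 c0F cB102L gF2q1 gF0q2 gF0q0 gF1q0 true true)) t 1 1 1 = true :=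
  ex3_b B102L_200_1_2_1 B102L_200_1_3_1

def B102L_201 :
    ∃ t, chk3 (onCell 0 50331648 0 1073741824 50331648 16777216 (corTK [[⟨0, 1, 2, 33554432⟩, ⟨1, 0, 1, 33554432⟩, ⟨2, 1, 0, 15728640⟩, ⟨0, 0, 0, 1040187392⟩, ⟨0, 1, 0, 83886080⟩, ⟨1, 0, 0, 83886080⟩, ⟨1, 1, 0, 1040187392⟩]] true 1 c0F cB102L gF2q1 gF0q2 gF1q0 gF2q0 true true)) t 1 1 1 = true :=
  ⟨(T.b (T.b (T.b (T.a (T.a (T.a (T.l 204) (T.l 204)) (T.l 204)) (T.l 204)) (T.a (T.a (T.a (T.l 204) (T.l 204)) (T.l 204)) (T.l 0))) (T.b (T.a (T.a (T.a (T.l 204) (T.l 204)) (T.l 0)) (T.b (T.l 204) (T.l 0))) (T.a (T.a (T.a (T.l 204) (T.l 0)) (T.l 0)) (T.b (T.l 0) (T.l 0))))) (T.l 1)), by decide +kernel⟩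

def B102L_202 :
    ∃ t, chk3 (onCell 0 50331648 0 1073741824 50331648 16777216 (corTK [[⟨0, 1, 2, 33554432⟩, ⟨1, 0, 1, 33554432⟩, ⟨2, 1, 0, 15728640⟩, ⟨0, 0, 0, 1040187392⟩, ⟨0, 1, 0, 83886080⟩, ⟨1, 0, 0, 83886080⟩, ⟨1, 1, 0, 1040187392⟩]] true 1 c0F cB102L gF2q1 gF0q2 gF2q0 gF3q0 true false)) t 1 1 1 = true :=
  ⟨(T.b (T.b (T.b (T.a (T.a (T.a (T.l 204) (T.l 204)) (T.l 204)) (T.l 204)) (T.a (T.l 1) (T.l 0))) (T.l 1)) (T.l 1)), by decide +kernel⟩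

def B102L_210_1_2_1 :
    ∃ t, chk3 (onCell 0 50331648 0 1073741824 50331648 16777216 (corTK [[⟨0, 1, 2, 33554432⟩, ⟨1, 0, 1, 33554432⟩, ⟨2, 1, 0, 16777216⟩, ⟨0, 0, 0, 1040187392⟩, ⟨0, 1, 0, 83886080⟩, ⟨1, 0, 0, 83886080⟩, ⟨1, 1, 0, 1040187392⟩]] true 1 c0F cB102L gF2q1 gF1q2 gF0q0 gF1q0 true true)) t 1 2 1 = true :=
  ⟨(T.b (T.a (T.a (T.l 204) (T.l 0)) (T.l 0)) (T.a (T.a (T.l 204) (T.l 0)) (T.b (T.l 0) (T.l 0)))), by decide +kernel⟩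

def B102L_210_1_6_1 :
    ∃ t, chk3 (onCell 0 50331648 0 1073741824 50331648 16777216 (corTK [[⟨0, 1, 2, 33554432⟩, ⟨1, 0, 1, 33554432⟩, ⟨2, 1, 0, 16777216⟩, ⟨0, 0, 0, 1040187392⟩, ⟨0, 1, 0, 83886080⟩, ⟨1, 0, 0, 83886080⟩, ⟨1, 1, 0, 1040187392⟩]] true 1 c0F cB102L gF2q1 gF1q2 gF0q0 gF1q0 true true)) t 1 6 1 = true :=
  ⟨(T.b (T.a (T.a (T.l 204) (T.l 0)) (T.b (T.l 0) (T.l 0))) (T.b (T.b (T.a (T.a (T.l 204) (T.l 0)) (T.l 0)) (T.b (T.a (T.a (T.l 204) (T.l 0)) (T.a (T.l 0) (T.l 0))) (T.a (T.a (T.l 204) (T.l 0)) (T.a (T.l 0) (T.l 0))))) (T.b (T.b (T.a (T.a (T.l 0) (T.l 0)) (T.a (T.l 0) (T.l 16))) (T.a (T.a (T.l 0) (T.l 0)) (T.a (T.l 0) (T.l 16)))) (T.b (T.a (T.a (T.l 816) (T.l 0)) (T.a (T.l 0) (T.a (T.l 0) (T.l 0)))) (T.a (T.a (T.l 816) (T.l 0)) (T.a (T.l 0) (T.a (T.l 0) (T.l 0)))))))), by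 decide +kernel⟩

def B102L_210_1_14_1 :
    ∃ t, chk3 (onCell 0 50331648 0 1073741824 50331648 16777216 (corTK [[⟨0, 1, 2, 33554432⟩, ⟨1, 0, 1, 33554432⟩, ⟨2, 1, 0, 16777216⟩, ⟨0, 0, 0, 1040187392⟩, ⟨0, 1, 0, 83886080⟩, ⟨1, 0, 0, 83886080⟩, ⟨1, 1, 0, 1040187392⟩]] true 1 c0F cB102L gF2q1 gF1q2 gF0q0 gF1q0 true true)) t 1 14 1 = true :=
  ⟨(T.b (T.b (T.b (T.a (T.a (T.l 816) (T.l 0)) (T.a (T.l 0) (T.a (T.l 0) (T.l 0)))) (T.a (T.a (T.l 816) (T.l 0)) (T.a (T.l 0) (T.a (T.l 0) (T.l 1024))))) (T.b (T.a (T.a (T.l 816) (T.l 0)) (T.a (T.l 0) (T.a (T.l 0) (T.l 1024)))) (T.a (T.a (T.l 816) (T.l 0)) (T.a (T.l 0) (T.a (T.l 0) (T.l 1024)))))) (T.b (T.b (T.b (T.a (T.a (T.l 816) (T.l 0)) (T.a (T.l 816) (T.a (T.l 0) (T.l 1024)))) (T.a (T.a (T.l 816) (T.l 0)) (T.a (T.l 816) (T.a (T.l 0) (T.l 1024)))))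 (T.b (T.a (T.a (T.l 816) (T.l 0)) (T.a (T.l 816) (T.a (T.l 0) (T.l 1024)))) (T.a (T.a (T.l 816) (T.l 0)) (T.a (T.l 816) (T.a (T.l 0) (T.l 1024)))))) (T.b (T.b (T.a (T.a (T.l 816) (T.l 0)) (T.a (T.l 816) (T.a (T.l 0) (T.l 1024)))) (T.a (T.a (T.l 816) (T.l 0)) (T.a (T.l 816) (T.a (T.l 0) (T.l 1024))))) (T.b (T.a (T.a (T.l 816) (T.l 0)) (T.a (T.l 816) (T.a (T.l 0) (T.l 1024)))) (T.a (T.a (T.l 816) (T.l 0)) (T.a (T.l 816) (T.a (T.l 0) (T.l 1024)))))))), by decide +kernel⟩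

def B102L_210_1_15_1 :
    ∃ t, chk3 (onCell 0 50331648 0 1073741824 50331648 16777216 (corTK [[⟨0, 1, 2, 33554432⟩, ⟨1, 0, 1, 33554432⟩, ⟨2, 1, 0, 16777216⟩, ⟨0, 0, 0, 1040187392⟩, ⟨0, 1, 0, 83886080⟩, ⟨1, 0, 0, 83886080⟩, ⟨1, 1, 0, 1040187392⟩]] true 1 c0F cB102L gF2q1 gF1q2 gF0q0 gF1q0 true true)) t 1 15 1 = true :=
  ⟨(T.b (T.b (T.b (T.b (T.a (T.a (T.l 816) (T.l 0)) (T.a (T.l 816) (T.a (T.l 0) (T.l 1024)))) (T.a (T.a (T.l 816) (T.l 0)) (T.a (T.a (T.l 816) (T.l 0)) (T.a (T.l 0) (T.l 1024))))) (T.b (T.a (T.a (T.l 816) (T.l 0)) (T.a (T.a (T.l 816) (T.l 0)) (T.l 1024))) (T.a (T.a (T.l 816) (T.l 0)) (T.a (T.a (T.l 816) (T.l 0)) (T.l 1024))))) (T.b (T.b (T.a (T.a (T.l 816) (T.a (T.l 816) (T.l 816))) (T.a (T.a (T.l 816) (T.l 4)) (T.l 1024))) (T.a (T.a (T.l 816) (T.a (T.l 816) (T.l 816)))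 (T.a (T.a (T.l 816) (T.c (T.l 0) (T.l 4))) (T.l 1024)))) (T.b (T.b (T.a (T.a (T.l 816) (T.a (T.l 816) (T.l 816))) (T.a (T.a (T.l 816) (T.c (T.l 0) (T.l 0))) (T.l 1024))) (T.a (T.a (T.l 816) (T.a (T.l 816) (T.l 816))) (T.a (T.a (T.l 816) (T.c (T.l 4) (T.l 4))) (T.l 1024)))) (T.b (T.a (T.a (T.l 816) (T.a (T.l 816) (T.l 816))) (T.a (T.a (T.l 816) (T.a (T.l 816) (T.l 816))) (T.l 1024))) (T.a (T.a (T.l 816) (T.a (T.l 816) (T.l 816))) (T.a (T.a (T.l 816) (T.a (T.l 816) (T.l 816))) (T.l 1024))))))) (T.b (T.b (T.b (T.b (T.a (T.a (T.l 816) (T.a (T.l 816) (T.l 816))) (T.a (T.a (T.l 816) (T.a (T.l 816) (T.l 816))) (T.l 1024))) (T.a (T.a (T.l 816) (T.a (T.l 816) (T.l 816))) (T.a (T.a (T.l 816) (T.a (T.l 816) (T.l 816))) (T.l 1024)))) (T.b (T.a (T.a (T.l 816) (T.a (T.l 816) (T.l 816))) (T.a (T.a (T.l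 816) (T.a (T.l 816) (T.l 816))) (T.l 1024))) (T.a (T.a (T.l 816) (T.a (T.l 816) (T.l 816))) (T.a (T.a (T.l 816) (T.a (T.l 816) (T.l 816))) (T.l 1024))))) (T.b (T.b (T.a (T.a (T.l 816) (T.a (T.l 816) (T.l 816))) (T.a (T.a (T.l 816) (T.a (T.l 816) (T.l 816))) (T.l 1024))) (T.a (T.a (T.l 816) (T.a (T.l 816) (T.l 816))) (T.a (T.a (T.l 816) (T.a (T.l 816) (T.l 816))) (T.l 1024)))) (T.b (T.a (T.a (T.l 816) (T.a (T.l 816) (T.l 816))) (T.a (T.a (T.l 816) (T.a (T.l 816) (T.l 816))) (T.l 1024))) (T.a (T.a (T.l 816) (T.a (T.l 816) (T.l 816))) (T.a (T.a (T.l 816) (T.a (T.l 816) (T.l 816))) (T.l 1024)))))) (T.b (T.b (T.b (T.a (T.a (T.l 816) (T.a (T.l 816) (T.l 816))) (T.a (T.a (T.l 816) (T.a (T.l 816) (T.l 816))) (T.l 1024))) (T.a (T.a (T.l 816) (T.a (T.l 816) (T.l 816))) (T.a (T.a (T.l 816) (T.a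 (T.l 816) (T.l 1024))) (T.l 1024)))) (T.b (T.a (T.a (T.l 816) (T.a (T.a (T.l 816) (T.l 816)) (T.l 816))) (T.a (T.a (T.l 816) (T.a (T.l 820) (T.l 1024))) (T.l 1024))) (T.a (T.a (T.l 816) (T.a (T.a (T.l 816) (T.l 816)) (T.l 816))) (T.a (T.a (T.l 816) (T.a (T.a (T.l 816) (T.l 816)) (T.l 1024))) (T.l 1024))))) (T.b (T.b (T.a (T.a (T.l 816) (T.a (T.a (T.l 816) (T.l 816)) (T.c (T.l 816) (T.l 816)))) (T.a (T.a (T.l 820) (T.a (T.a (T.l 816) (T.l 816)) (T.l 1024))) (T.l 1024))) (T.a (T.a (T.l 816) (T.a (T.a (T.l 816) (T.l 816)) (T.a (T.l 816) (T.l 816)))) (T.a (T.a (T.a (T.l 816) (T.l 816)) (T.a (T.a (T.l 816) (T.l 816)) (T.l 1024))) (T.l 1024)))) (T.b (T.a (T.a (T.l 816) (T.a (T.a (T.l 816) (T.c (T.l 816) (T.l 816))) (T.a (T.l 816) (T.l 816)))) (T.a (T.a (T.a (T.l 816) (T.l 816)) (T.a (T.a (T.l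 816) (T.a (T.l 816) (T.l 816))) (T.l 1024))) (T.l 1024))) (T.a (T.a (T.a (T.l 816) (T.l 816)) (T.c (T.b (T.a (T.a (T.l 816) (T.a (T.l 816) (T.l 816))) (T.a (T.c (T.l 816) (T.l 816)) (T.l 820))) (T.c (T.b (T.a (T.a (T.l 816) (T.a (T.l 816) (T.l 816))) (T.a (T.a (T.l 816) (T.l 816)) (T.a (T.l 816) (T.l 816)))) (T.a (T.a (T.l 816) (T.a (T.l 816) (T.l 816))) (T.a (T.a (T.l 816) (T.l 884)) (T.a (T.l 884) (T.c (T.l 884) (T.l 884)))))) (T.b (T.a (T.a (T.l 816) (T.a (T.l 816) (T.l 816))) (T.a (T.a (T.l 816) (T.l 816)) (T.a (T.l 816) (T.l 816)))) (T.a (T.a (T.l 816) (T.a (T.l 816) (T.l 816))) (T.a (T.a (T.l 820) (T.l 820)) (T.a (T.l 820) (T.l 884))))))) (T.b (T.c (T.a (T.a (T.l 816) (T.a (T.l 816) (T.l 816))) (T.a (T.l 820) (T.l 816))) (T.a (T.a (T.l 816) (T.a (T.l 816) (T.l 816))) (T.a (T.l 820)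 (T.l 816)))) (T.c (T.b (T.a (T.a (T.l 816) (T.a (T.l 816) (T.l 816))) (T.a (T.a (T.l 816) (T.l 816)) (T.a (T.l 816) (T.l 816)))) (T.a (T.a (T.l 816) (T.a (T.l 820) (T.l 816))) (T.a (T.a (T.l 820) (T.l 820)) (T.a (T.l 820) (T.l 820))))) (T.b (T.a (T.a (T.l 816) (T.a (T.l 816) (T.l 816))) (T.a (T.a (T.l 816) (T.l 816)) (T.a (T.l 816) (T.l 816)))) (T.a (T.a (T.l 816) (T.a (T.c (T.l 820) (T.l 820)) (T.l 820))) (T.a (T.a (T.l 820) (T.l 820)) (T.a (T.l 820) (T.l 820))))))))) (T.a (T.c (T.b (T.a (T.a (T.l 820) (T.l 820)) (T.a (T.a (T.l 816) (T.a (T.l 816) (T.l 1024))) (T.l 1024))) (T.c (T.b (T.a (T.a (T.a (T.l 816) (T.l 816)) (T.a (T.l 816) (T.l 816))) (T.a (T.a (T.l 816) (T.a (T.l 820) (T.l 1024))) (T.l 1024))) (T.a (T.a (T.a (T.a (T.l 884) (T.l 884)) (T.a (T.l 884) (T.l 884))) (T.a (T.a (T.l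 884) (T.l 884)) (T.c (T.a (T.l 884) (T.l 884)) (T.a (T.l 884) (T.l 884))))) (T.a (T.a (T.c (T.a (T.l 884) (T.l 884)) (T.a (T.l 884) (T.l 884))) (T.a (T.a (T.l 884) (T.a (T.c (T.l 884) (T.l 884)) (T.l 1024))) (T.l 1024))) (T.l 1024)))) (T.b (T.a (T.a (T.a (T.l 816) (T.l 816)) (T.a (T.l 816) (T.l 816))) (T.a (T.a (T.l 816) (T.a (T.l 820) (T.l 1024))) (T.l 1024))) (T.a (T.a (T.a (T.c (T.l 884) (T.l 884)) (T.a (T.l 884) (T.l 884))) (T.a (T.a (T.l 884) (T.l 884)) (T.a (T.l 884) (T.l 884)))) (T.a (T.a (T.a (T.l 884) (T.l 884)) (T.a (T.a (T.l 884) (T.a (T.l 884) (T.l 1024))) (T.l 1024))) (T.l 1024)))))) (T.b (T.a (T.a (T.l 820) (T.l 820)) (T.a (T.a (T.l 816) (T.a (T.l 816) (T.l 1024))) (T.l 1024))) (T.c (T.b (T.a (T.a (T.a (T.l 816) (T.l 816)) (T.a (T.l 816) (T.l 816))) (T.a (T.a (T.l 816) (T.a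 (T.l 820) (T.l 1024))) (T.l 1024))) (T.a (T.a (T.a (T.c (T.l 884) (T.l 820)) (T.c (T.l 884) (T.l 884))) (T.a (T.a (T.l 884) (T.l 884)) (T.a (T.l 884) (T.l 884)))) (T.a (T.a (T.a (T.l 884) (T.l 884)) (T.a (T.a (T.l 884) (T.c (T.l 884) (T.l 884))) (T.l 1024))) (T.l 1024)))) (T.b (T.a (T.a (T.a (T.l 816) (T.l 816)) (T.a (T.l 816) (T.l 816))) (T.a (T.a (T.l 816) (T.a (T.l 820) (T.l 1024))) (T.l 1024))) (T.a (T.a (T.a (T.c (T.l 820) (T.l 820)) (T.c (T.l 820) (T.l 820))) (T.a (T.a (T.l 820) (T.l 820)) (T.a (T.l 884) (T.l 884)))) (T.a (T.a (T.a (T.l 884) (T.l 884)) (T.a (T.a (T.l 884) (T.l 884)) (T.l 1024))) (T.l 1024))))))) (T.l 1024)))))))), by decide +kernel⟩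

theorem B102L_210_1_7_1 :
    ∃ t, chk3 (onCell 0 50331648 0 1073741824 50331648 16777216 (corTK [[⟨0, 1, 2, 33554432⟩, ⟨1, 0, 1, 33554432⟩, ⟨2, 1, 0, 16777216⟩, ⟨0, 0, 0, 1040187392⟩, ⟨0, 1, 0, 83886080⟩, ⟨1, 0, 0, 83886080⟩, ⟨1, 1, 0, 1040187392⟩]] true 1 c0F cB102L gF2q1 gF1q2 gF0q0 gF1q0 true true)) t 1 7 1 = true :=
  ex3_b B102L_210_1_14_1 B102L_210_1_15_1
theorem B102L_210_1_3_1 :
    ∃ t, chk3 (onCell 0 50331648 0 1073741824 50331648 16777216 (corTK [[⟨0, 1, 2, 33554432⟩, ⟨1, 0, 1, 33554432⟩, ⟨2, 1, 0, 16777216⟩, ⟨0, 0, 0, 1040187392⟩, ⟨0, 1, 0, 83886080⟩, ⟨1, 0, 0, 83886080⟩, ⟨1, 1, 0, 1040187392⟩]] true 1 c0F cB102L gF2q1 gF1q2 gF0q0 gF1q0 true true)) t 1 3 1 = true :=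
  ex3_b B102L_210_1_6_1 B102L_210_1_7_1
theorem B102L_210 :
    ∃ t, chk3 (onCell 0 50331648 0 1073741824 50331648 16777216 (corTK [[⟨0, 1, 2, 33554432⟩, ⟨1, 0, 1, 33554432⟩, ⟨2, 1, 0, 16777216⟩, ⟨0, 0, 0, 1040187392⟩, ⟨0, 1, 0, 83886080⟩, ⟨1, 0, 0, 83886080⟩, ⟨1, 1, 0, 1040187392⟩]] true 1 c0F cB102L gF2q1 gF1q2 gF0q0 gF1q0 true true)) t 1 1 1 = true :=
  ex3_b B102L_210_1_2_1 B102L_210_1_3_1

def B102L_211 :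
    ∃ t, chk3 (onCell 0 50331648 0 1073741824 50331648 16777216 (corTK [[⟨0, 1, 2, 33554432⟩, ⟨1, 0, 1, 33554432⟩, ⟨2, 1, 0, 16777216⟩, ⟨0, 0, 0, 1040187392⟩, ⟨0, 1, 0, 83886080⟩, ⟨1, 0, 0, 83886080⟩, ⟨1, 1, 0, 1040187392⟩]] true 1 c0F cB102L gF2q1 gF1q2 gF1q0 gF2q0 true true)) t 1 1 1 = true :=
  ⟨(T.l 1), by decide +kernel⟩

def B102L_212 :
    ∃ t, chk3 (onCell 0 50331648 0 1073741824 50331648 16777216 (corTK [[⟨0, 1, 2, 33554432⟩, ⟨1, 0, 1, 33554432⟩, ⟨2, 1, 0, 16777216⟩, ⟨0, 0, 0, 1040187392⟩, ⟨0, 1, 0, 83886080⟩, ⟨1, 0, 0, 83886080⟩, ⟨1, 1, 0, 1040187392⟩]] true 1 c0F cB102L gF2q1 gF1q2 gF2q0 gF3q0 true false)) t 1 1 1 = true :=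
  ⟨(T.l 1), by decide +kernel⟩

end Pool.Agent.Strip051.G.I3_64_1_16.Tab.CF
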