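import Pool.Agent.Strip051.G.I3_64_1_16.Gn
import Pool.Agent.Strip051.PB.Corns
import Pool.Agent.Strip051.PB.CornK

/-! # Certificates of the aligned corners (generated) -/

set_option linter.all false

namespace Pool.Agent.Strip051.G.I3_64_1_16.Tab.CF

open Pool.Agent.Strip051.PB

def B202E_220 :
    ∃ t, chk3 (onCell 0 50331648 0 1073741824 50331648 16777216 (corTK [[⟨0, 1, 0, 16777216⟩, ⟨1, 0, 1, 33554432⟩, ⟨2, 1, 1, 33554432⟩, ⟨1, 0, 0, 83886080⟩, ⟨1, 1, 0, 1040187392⟩, ⟨2, 1, 0, 83886080⟩, ⟨2, 2, 0, 1040187392⟩]] true 1 c0F cB202E gF2q2 gF2q2 gF0q0 gF1q0 true true)) t 1 1 1 = true :=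
  ⟨(T.b (T.b (T.b (T.b (T.a (T.b (T.a (T.b (T.a (T.l 204) (T.l 204)) (T.l 204)) (T.b (T.b (T.b (T.c (T.b (T.c (T.b (T.a (T.c (T.b (T.a (T.a (T.l 204) (T.l 204)) (T.a (T.l 220) (T.l 204))) (T.l 1)) (T.b (T.a (T.a (T.l 204) (T.l 204)) (T.a (T.l 204) (T.l 204))) (T.l 1))) (T.c (T.b (T.a (T.a (T.l 204) (T.l 204)) (T.a (T.l 220) (T.l 220))) (T.l 1)) (T.b (T.a (T.a (T.l 204) (T.l 204)) (T.a (T.l 204) (T.l 220))) (T.l 1)))) (T.l 1)) (T.b (T.a (T.c (T.b (T.a (T.a (T.l 204) (T.l 204)) (T.a (T.l 204) (T.l 204))) (T.l 1)) (T.b (T.a (T.a (T.l 204) (T.l 204)) (T.a (T.l 204) (T.l 204))) (T.l 1))) (T.c (T.a (T.a (T.l 204) (T.l 204)) (T.l 476)) (T.a (T.l 220) (T.l 476)))) (T.l 1))) (T.l 1)) (T.b (T.c (T.b (T.a (T.c (T.a (T.l 220) (T.a (T.l 204) (T.l 204))) (T.a (T.l 204) (T.a (T.l 204) (T.l 204)))) (T.a (T.l 476) (T.l 476)))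 (T.l 1)) (T.b (T.a (T.a (T.l 204) (T.a (T.l 204) (T.l 204))) (T.a (T.l 220) (T.l 476))) (T.l 1))) (T.l 1))) (T.l 1)) (T.l 1)) (T.l 1))) (T.a (T.l 204) (T.l 1))) (T.b (T.a (T.b (T.b (T.b (T.c (T.b (T.c (T.b (T.a (T.c (T.b (T.a (T.a (T.l 220) (T.l 476)) (T.c (T.a (T.l 476) (T.l 476)) (T.a (T.l 476) (T.l 476)))) (T.l 1)) (T.b (T.a (T.a (T.l 220) (T.l 476)) (T.a (T.l 476) (T.a (T.l 476) (T.l 476)))) (T.l 1))) (T.a (T.c (T.b (T.c (T.b (T.a (T.a (T.l 476) (T.l 476)) (T.a (T.a (T.l 476) (T.l 476)) (T.l 1024))) (T.l 1)) (T.a (T.l 476) (T.a (T.a (T.l 476) (T.l 476)) (T.l 1024)))) (T.l 1)) (T.b (T.c (T.a (T.l 476) (T.a (T.a (T.l 476) (T.l 476)) (T.l 1024))) (T.a (T.l 476) (T.a (T.a (T.l 476) (T.l 476)) (T.l 1024)))) (T.l 1))) (T.l 1024))) (T.l 1)) (T.b (T.a (T.c (T.b (T.a (T.a (T.l 220) (T.l 220)) (T.a (T.l 476) (T.l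 476))) (T.l 1)) (T.a (T.l 476) (T.a (T.l 476) (T.l 476)))) (T.a (T.c (T.a (T.l 476) (T.a (T.a (T.l 476) (T.l 476)) (T.l 1024))) (T.a (T.l 476) (T.a (T.c (T.l 476) (T.l 476)) (T.l 1024)))) (T.l 1024))) (T.l 1))) (T.l 1)) (T.b (T.c (T.b (T.a (T.c (T.a (T.l 476) (T.a (T.l 476) (T.l 476))) (T.a (T.l 476) (T.a (T.l 476) (T.l 476)))) (T.a (T.a (T.l 476) (T.a (T.c (T.l 476) (T.l 476)) (T.l 1024))) (T.l 1024))) (T.l 1)) (T.b (T.a (T.a (T.l 476) (T.a (T.l 476) (T.l 476))) (T.a (T.a (T.l 476) (T.a (T.l 476) (T.l 1024))) (T.l 1024))) (T.l 1))) (T.l 1))) (T.l 1)) (T.l 1)) (T.l 1)) (T.l 1024)) (T.l 1))) (T.a (T.a (T.l 204) (T.l 1)) (T.l 1))) (T.a (T.a (T.b (T.l 204) (T.l 460)) (T.l 1)) (T.l 1))) (T.a (T.a (T.a (T.b (T.l 204) (T.l 204)) (T.l 1)) (T.l 1)) (T.l 1))) (T.a (T.a (T.a (T.a (T.b (T.l 204) (T.b (T.l 0) (T.a (T.b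 (T.l 816) (T.a (T.b (T.l 816) (T.b (T.l 816) (T.a (T.l 816) (T.l 1)))) (T.l 1))) (T.l 1)))) (T.l 1)) (T.l 1)) (T.l 1)) (T.l 1))), by decide +kernel⟩

def B202E_221 :
    ∃ t, chk3 (onCell 0 50331648 0 1073741824 50331648 16777216 (corTK [[⟨0, 1, 0, 16777216⟩, ⟨1, 0, 1, 33554432⟩, ⟨2, 1, 1, 33554432⟩, ⟨1, 0, 0, 83886080⟩, ⟨1, 1, 0, 1040187392⟩, ⟨2, 1, 0, 83886080⟩, ⟨2, 2, 0, 1040187392⟩]] true 1 c0F cB202E gF2q2 gF2q2 gF1q0 gF2q0 true true)) t 1 1 1 = true :=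
  ⟨(T.b (T.l 1) (T.b (T.l 1) (T.b (T.l 1) (T.b (T.l 1) (T.a (T.b (T.l 1) (T.a (T.b (T.l 1) (T.a (T.b (T.l 1) (T.a (T.b (T.l 1) (T.a (T.c (T.b (T.l 1) (T.a (T.a (T.l 816) (T.l 1)) (T.l 1))) (T.a (T.l 816) (T.l 1))) (T.l 1))) (T.l 1))) (T.l 1))) (T.l 1))) (T.l 1)))))), by decide +kernel⟩

def B202E_222 :
    ∃ t, chk3 (onCell 0 50331648 0 1073741824 50331648 16777216 (corTK [[⟨0, 1, 0, 16777216⟩, ⟨1, 0, 1, 33554432⟩, ⟨2, 1, 1, 33554432⟩, ⟨1, 0, 0, 83886080⟩, ⟨1, 1, 0, 1040187392⟩, ⟨2, 1, 0, 83886080⟩, ⟨2, 2, 0, 1040187392⟩]] true 1 c0F cB202E gF2q2 gF2q2 gF2q0 gF3q0 true false)) t 1 1 1 = true :=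
  ⟨(T.b (T.l 1) (T.b (T.l 1) (T.b (T.l 1) (T.b (T.l 1) (T.a (T.b (T.l 1) (T.a (T.b (T.l 1) (T.a (T.b (T.l 1) (T.a (T.b (T.l 1) (T.a (T.c (T.b (T.l 1) (T.a (T.c (T.b (T.l 1) (T.a (T.c (T.b (T.l 1) (T.a (T.l 816) (T.l 1))) (T.b (T.l 1) (T.a (T.l 816) (T.l 1)))) (T.l 1))) (T.b (T.l 1) (T.a (T.c (T.b (T.l 1) (T.l 816)) (T.b (T.l 1) (T.l 816))) (T.l 1)))) (T.l 1))) (T.b (T.l 1) (T.a (T.c (T.b (T.l 1) (T.a (T.c (T.b (T.l 1) (T.l 816)) (T.b (T.l 1) (T.l 816))) (T.l 1))) (T.b (T.l 1) (T.a (T.c (T.b (T.l 1) (T.l 816)) (T.l 816)) (T.l 1)))) (T.l 1)))) (T.l 1))) (T.l 1))) (T.l 1))) (T.l 1))) (T.l 1)))))), by decide +kernel⟩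

def B202L_400 :
    ∃ t, chk3 (onCell 0 50331648 0 1073741824 50331648 16777216 (corTK [] true 1 c0F cB202L gF4q2 gF0q2 gF0q0 gF1q0 true true)) t 1 1 1 = true :=
  ⟨(T.l 2), by decide +kernel⟩

def B202L_401 :
    ∃ t, chk3 (onCell 0 50331648 0 1073741824 50331648 16777216 (corTK [] true 1 c0F cB202L gF4q2 gF0q2 gF1q0 gF2q0 true true)) t 1 1 1 = true :=
  ⟨(T.b (T.b (T.a (T.b (T.a (T.a (T.l 204) (T.l 2)) (T.l 2)) (T.l 2)) (T.l 2)) (T.l 2)) (T.l 2)), by decide +kernel⟩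

def B202L_402 :
    ∃ t, chk3 (onCell 0 50331648 0 1073741824 50331648 16777216 (corTK [] true 1 c0F cB202L gF4q2 gF0q2 gF2q0 gF3q0 true false)) t 1 1 1 = true :=
  ⟨(T.b (T.b (T.a (T.a (T.a (T.l 204) (T.l 204)) (T.l 204)) (T.l 204)) (T.a (T.a (T.a (T.l 204) (T.l 204)) (T.l 204)) (T.b (T.l 204) (T.l 204)))) (T.b (T.a (T.a (T.a (T.l 204) (T.l 204)) (T.l 204)) (T.b (T.l 204) (T.l 204))) (T.a (T.a (T.a (T.l 204) (T.l 204)) (T.l 204)) (T.b (T.l 204) (T.l 204))))), by decide +kernel⟩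

def B202L_410 :
    ∃ t, chk3 (onCell 0 50331648 0 1073741824 50331648 16777216 (corTK [] true 1 c0F cB202L gF4q2 gF1q2 gF0q0 gF1q0 true true)) t 1 1 1 = true :=
  ⟨(T.b (T.b (T.a (T.a (T.l 204) (T.b (T.l 0) (T.l 0))) (T.b (T.l 0) (T.l 0))) (T.a (T.a (T.l 204) (T.b (T.l 0) (T.l 0))) (T.a (T.l 0) (T.l 0)))) (T.b (T.b (T.a (T.a (T.l 204) (T.l 204)) (T.b (T.l 0) (T.l 0))) (T.a (T.a (T.l 204) (T.l 204)) (T.b (T.l 0) (T.l 2)))) (T.a (T.a (T.l 0) (T.l 2)) (T.l 2)))), by decide +kernel⟩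

def B202L_411 :
    ∃ t, chk3 (onCell 0 50331648 0 1073741824 50331648 16777216 (corTK [] true 1 c0F cB202L gF4q2 gF1q2 gF1q0 gF2q0 true true)) t 1 1 1 = true :=
  ⟨(T.b (T.b (T.l 1) (T.b (T.l 1) (T.b (T.l 1) (T.l 1)))) (T.b (T.b (T.a (T.l 1) (T.b (T.l 0) (T.l 0))) (T.a (T.a (T.l 204) (T.l 204)) (T.b (T.l 16) (T.l 0)))) (T.b (T.a (T.a (T.l 204) (T.l 0)) (T.l 0)) (T.a (T.a (T.l 204) (T.l 0)) (T.l 2))))), by decide +kernel⟩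

def B202L_412 :
    ∃ t, chk3 (onCell 0 50331648 0 1073741824 50331648 16777216 (corTK [] true 1 c0F cB202L gF4q2 gF1q2 gF2q0 gF3q0 true false)) t 1 1 1 = true :=
  ⟨(T.b (T.l 1) (T.b (T.l 1) (T.b (T.a (T.a (T.l 1) (T.l 0)) (T.l 0)) (T.a (T.a (T.l 204) (T.l 0)) (T.a (T.l 0) (T.l 204)))))), by decide +kernel⟩

def B202L_420 :
    ∃ t, chk3 (onCell 0 50331648 0 1073741824 50331648 16777216 (corTK [] true 1 c0F cB202L gF4q2 gF2q2 gF0q0 gF1q0 true true)) t 1 1 1 = true :=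
  ⟨(T.b (T.b (T.b (T.b (T.a (T.b (T.a (T.b (T.a (T.b (T.c (T.a (T.c (T.b (T.l 204) (T.a (T.l 1) (T.l 204))) (T.l 204)) (T.l 204)) (T.l 204)) (T.a (T.l 1) (T.b (T.a (T.l 1) (T.l 204)) (T.l 1)))) (T.c (T.b (T.l 204) (T.a (T.c (T.b (T.l 204) (T.l 220)) (T.l 204)) (T.l 204))) (T.l 204))) (T.a (T.l 1) (T.b (T.a (T.l 1) (T.b (T.l 204) (T.l 1))) (T.l 1)))) (T.a (T.a (T.b (T.l 204) (T.b (T.a (T.l 204) (T.l 204)) (T.l 1))) (T.b (T.l 204) (T.b (T.l 204) (T.b (T.a (T.l 220) (T.l 204)) (T.l 1))))) (T.a (T.a (T.c (T.l 220) (T.l 204)) (T.l 204)) (T.l 220)))) (T.a (T.l 1) (T.b (T.a (T.l 1) (T.b (T.a (T.l 1) (T.b (T.a (T.l 220) (T.l 204)) (T.l 1))) (T.l 1))) (T.l 1)))) (T.a (T.a (T.b (T.a (T.l 204) (T.l 204)) (T.b (T.a (T.b (T.c (T.l 220) (T.l 204)) (T.l 1)) (T.b (T.l 204) (T.b (T.c (T.l 220) (T.l 220)) (T.l 1)))) (T.l 1)))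 (T.a (T.b (T.l 204) (T.b (T.a (T.l 220) (T.l 220)) (T.l 1))) (T.b (T.l 204) (T.b (T.c (T.l 220) (T.l 220)) (T.b (T.a (T.b (T.l 220) (T.l 1)) (T.l 220)) (T.l 1)))))) (T.a (T.a (T.b (T.l 204) (T.b (T.l 204) (T.b (T.c (T.l 220) (T.l 220)) (T.l 1)))) (T.b (T.l 204) (T.a (T.b (T.l 204) (T.l 220)) (T.l 220)))) (T.a (T.b (T.l 204) (T.l 220)) (T.l 220))))) (T.a (T.l 1) (T.b (T.a (T.l 1) (T.b (T.a (T.l 1) (T.a (T.l 1) (T.b (T.l 220) (T.l 1)))) (T.l 1))) (T.l 1)))) (T.l 1)) (T.l 1)) (T.l 1)), by decide +kernel⟩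

def B202L_421 :
    ∃ t, chk3 (onCell 0 50331648 0 1073741824 50331648 16777216 (corTK [] true 1 c0F cB202L gF4q2 gF2q2 gF1q0 gF2q0 true true)) t 1 1 1 = true :=
  ⟨(T.l 1), by decide +kernel⟩

def B202L_422 :
    ∃ t, chk3 (onCell 0 50331648 0 1073741824 50331648 16777216 (corTK [] true 1 c0F cB202L gF4q2 gF2q2 gF2q0 gF3q0 true false)) t 1 1 1 = true :=
  ⟨(T.l 1), by decide +kernel⟩

def B202R_040 :
    ∃ t, chk3 (onCell 0 16777216 0 1073741824 50331648 16777216 (corXK [] 1 c0F cB202R tB202R gF0q2 gF4q2 gF0q0 gF1q0 gF0q0 true true)) t 1 1 1 = true :=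
  ⟨(T.b (T.b (T.l 1) (T.a (T.l 207) (T.b (T.b (T.l 1) (T.l 207)) (T.b (T.l 0) (T.l 0))))) (T.b (T.a (T.l 204) (T.b (T.l 0) (T.l 2))) (T.l 2))), by decide +kernel⟩

def B202R_041 :
    ∃ t, chk3 (onCell 0 16777216 0 1073741824 50331648 16777216 (corTK [] true 1 c0F cB202R gF0q2 gF4q2 gF1q0 gF2q0 true true)) t 1 1 1 = true :=
  ⟨(T.b (T.l 1) (T.b (T.a (T.l 0) (T.b (T.l 0) (T.l 0))) (T.l 2))), by decide +kernel⟩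

def B202R_042 :
    ∃ t, chk3 (onCell 0 16777216 0 1073741824 50331648 16777216 (corTK [] true 1 c0F cB202R gF0q2 gF4q2 gF2q0 gF3q0 true false)) t 1 1 1 = true :=
  ⟨(T.b (T.l 1) (T.b (T.a (T.b (T.l 1) (T.l 0)) (T.b (T.l 1) (T.l 0))) (T.a (T.a (T.l 204) (T.l 204)) (T.b (T.l 204) (T.l 204))))), by decide +kernel⟩

def B202R_140 :
    ∃ t, chk3 (onCell 0 50331648 0 1073741824 50331648 16777216 (corTK [] true 1 c0F cB202R gF1q2 gF4q2 gF0q0 gF1q0 true true)) t 1 1 1 = true :=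
  ⟨(T.b (T.l 1) (T.b (T.l 1) (T.b (T.b (T.b (T.l 1) (T.a (T.a (T.l 1) (T.b (T.l 1) (T.a (T.l 1) (T.l 816)))) (T.a (T.b (T.a (T.l 1) (T.l 816)) (T.l 816)) (T.l 880)))) (T.a (T.a (T.b (T.l 816) (T.l 816)) (T.a (T.l 816) (T.l 816))) (T.a (T.l 816) (T.l 816)))) (T.b (T.a (T.a (T.l 816) (T.l 4)) (T.a (T.l 0) (T.l 816))) (T.a (T.l 2) (T.l 2)))))), by decide +kernel⟩

def B202R_141 :
    ∃ t, chk3 (onCell 0 50331648 0 1073741824 50331648 16777216 (corTK [] true 1 c0F cB202R gF1q2 gF4q2 gF1q0 gF2q0 true true)) t 1 1 1 = true :=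
  ⟨(T.b (T.l 1) (T.b (T.l 1) (T.b (T.l 1) (T.b (T.a (T.b (T.l 1) (T.a (T.l 816) (T.l 0))) (T.a (T.l 4) (T.l 0))) (T.a (T.a (T.l 0) (T.l 0)) (T.l 0)))))), by decide +kernel⟩

def B202R_142 :
    ∃ t, chk3 (onCell 0 50331648 0 1073741824 50331648 16777216 (corTK [] true 1 c0F cB202R gF1q2 gF4q2 gF2q0 gF3q0 true false)) t 1 1 1 = true :=
  ⟨(T.b (T.l 1) (T.b (T.l 1) (T.b (T.l 1) (T.b (T.a (T.l 1) (T.a (T.b (T.l 1) (T.l 0)) (T.l 4))) (T.a (T.a (T.l 0) (T.l 0)) (T.b (T.l 0) (T.l 204))))))), by decide +kernel⟩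

def B202R_240 :
    ∃ t, chk3 (onCell 0 50331648 0 1073741824 50331648 16777216 (corTK [] true 1 c0F cB202R gF2q2 gF4q2 gF0q0 gF1q0 true true)) t 1 1 1 = true :=
  ⟨(T.l 1), by decide +kernel⟩

def B202R_241 :
    ∃ t, chk3 (onCell 0 50331648 0 1073741824 50331648 16777216 (corTK [] true 1 c0F cB202R gF2q2 gF4q2 gF1q0 gF2q0 true true)) t 1 1 1 = true :=
  ⟨(T.l 1), by decide +kernel⟩

def B202R_242 :
    ∃ t, chk3 (onCell 0 50331648 0 1073741824 50331648 16777216 (corTK [] true 1 c0F cB202R gF2q2 gF4q2 gF2q0 gF3q0 true false)) t 1 1 1 = true :=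
  ⟨(T.l 1), by decide +kernel⟩

end Pool.Agent.Strip051.G.I3_64_1_16.Tab.CF
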