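import Pool.Agent.Strip051.G.I3_64_1_16.StF

/-! # Unit strips 5 (generated) -/

set_option linter.all false
set_option maxRecDepth 100000

namespace Pool.Agent.Strip051.G.I3_64_1_16.Tab.St.C

open Pool.Agent.Strip051.PB Pool.Agent.Strip051.PB.T Pool.Agent.StripNear Pool.Agent.Strip051.LC
open Pool.Agent.Strip051.G.I3_64_1_16.Tab Pool.Agent.Strip051.G.I3_64_1_16.Tab.St

noncomputable def cut_B00pm_011_s3 : Cut := Cut.of [[⟨3, 0, 0, 2845415833⟩], [⟨0, 0, 0, 16777216⟩, ⟨1, 1, 0, 16777216⟩, ⟨2, 1, 0, 16777216⟩], [⟨0, 0, 1, 25165824⟩, ⟨1, 1, 2, 25165824⟩, ⟨2, 1, 0, 8388608⟩, ⟨0, 0, 0, 83886080⟩, ⟨0, 1, 0, 1040187392⟩, ⟨1, 0, 0, 1040187392⟩, ⟨1, 1, 0, 83886080⟩]]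

noncomputable def xt_B00pm_011_s3 : Ext := strExt dd false true false .u0 .u0m .s0m .pnn 0 1 1 rfl rfl gl1 vv ndF0q0 ndF0q1

noncomputable def f_B00pm_011_s3 : ℕ → ℕ → ℕ → ℕ → Bool := onCell 0 536870912 536870912 536870912 50331648 16777216
    (rowFK 0 false true false .pnn 0 1 1 (qsf 0 536870912 536870912 536870912 1) ndF0q0 ndF0q1 pcF1 cut_B00pm_011_s3 xt_B00pm_011_s3)

def k0_B00pm_011_s3 : ∃ t, chk3 f_B00pm_011_s3 t 2 2 1 = true :=
  ⟨(l 4), by decide +kernel⟩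

def k1_B00pm_011_s3 : ∃ t, chk3 f_B00pm_011_s3 t 2 6 1 = true :=
  ⟨(a (l 4) (a (l 4) (b (l 4) (l 557147407)))), by decide +kernel⟩

def k2_B00pm_011_s3 : ∃ t, chk3 f_B00pm_011_s3 t 2 14 1 = true :=
  ⟨(a (a (l 4) (a (l 4) (b (l 4) (l 568660495)))) (a (a (b (l 4) (l 565344783)) (b (l 561284367) (l 562587663))) (a (l 559764239) (l 557942799)))), by decide +kernel⟩

def k3_B00pm_011_s3 : ∃ t, chk3 f_B00pm_011_s3 t 4 30 1 = true :=
  ⟨(a (b (l 4) (a (l 4) (a (l 4) (a (l 4) (a (l 4) (l 572866831)))))) (a (a (b (l 4) (a (l 573229839) (l 573218063))) (b (l 572389647) (l 572724239))) (b (l 570028047) (a (l 571342351) (l 569723663))))), by decide +kernel⟩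

def k4_B00pm_011_s3 : ∃ t, chk3 f_B00pm_011_s3 t 8 124 1 = true :=
  ⟨(a (l 4) (a (b (l 4) (b (l 4) (a (l 4) (a (l 4) (a (l 4) (c (l 566761487) (l 552905231))))))) (c (a (a (l 570715919) (l 572384783)) (l 574100751)) (a (a (b (l 4) (a (l 555560207) (l 557881615))) (b (l 562927631) (l 560184847))) (a (l 563801359) (l 565478927)))))), by decide +kernel⟩

def k5_B00pm_011_s3 : ∃ t, chk3 f_B00pm_011_s3 t 8 250 1 = true :=
  ⟨(a (l 4) (a (b (a (l 4) (a (a (l 4) (c (l 560894479) (c (l 547768079) (a (l 539451663) (l 541241871))))) (c (l 564071439) (a (a (l 545238287) (l 547242255)) (c (l 554003983) (l 546699535)))))) (a (b (l 4) (a (l 4) (a (l 4) (c (c (l 556054031) (a (l 544954127) (l 546990095))) (l 534340623))))) (a (a (a (c (l 552918799) (l 535681807)) (c (l 556087567) (l 537836047))) (c (l 556885775) (a (l 538511375) (c (l 546029071) (l 537459727))))) (a (c (l 560740111) (c (l 547113487) (a (l 539361295) (l 541146639))))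 (c (l 562916367) (c (l 551340047) (a (l 542823951) (l 544399887)))))))) (c (a (a (l 566530575) (l 569157135)) (l 571921679)) (a (a (a (b (l 552781071) (c (l 553872655) (l 546052879))) (b (l 554925071) (l 552118031))) (a (l 554223375) (l 557610767))) (a (l 559902479) (l 562351375)))))), by decide +kernel⟩

def k6_B00pm_011_s3 : ∃ t, chk3 f_B00pm_011_s3 t 16 251 1 = true :=
  ⟨(a (l 4) (a (l 4) (a (l 4) (a (l 4) (a (l 4) (b (l 4) (a (l 533740303) (l 533747727)))))))), by decide +kernel⟩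

def k7_B00pm_011_s3 : ∃ t, chk3 f_B00pm_011_s3 t 17 251 1 = true :=
  ⟨(a (b (a (a (a (l 4) (a (l 4) (l 534866447))) (a (a (l 534881551) (l 534896911)) (a (l 535894799) (c (c (l 554177807) (l 542185743)) (l 533820431))))) (c (a (c (a (l 556774415) (l 559807247)) (a (a (l 545096463) (l 547862543)) (c (l 552870415) (l 546904079)))) (c (l 563602447) (a (l 553735951) (l 556500495)))) (a (a (a (l 533835535) (l 533850895)) (a (l 535597327) (l 537477135))) (c (a (a (l 544164623) (l 545915151)) (c (l 550376463) (l 546294543))) (a (a (l 535351311) (l 537371663)) (a (l 539268111) (l 541048847))))))) (a (a (a (a (c (l 533859087) (l 533726991)) (c (l 533874191) (l 533741839))) (a (c (l 533889295) (l 533756687)) (b (l 533800975) (l 533806863)))) (a (a (b (l 533816079) (l 533821967)) (b (l 533831183) (l 533837071))) (a (l 535192079) (l 535207439)))) (a (a (a (l 535533839) (c (c (l 554031631) (b (l 544779791) (l 542545423))) (l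 533862415))) (c (c (l 556621327) (a (c (l 548282639) (l 543279887)) (l 547468559))) (a (l 533877775) (l 533892879)))) (c (a (a (a (l 552227087) (l 553836047)) (l 554452239)) (a (l 557237263) (l 558579983))) (a (a (l 535509775) (l 536846863)) (a (c (l 543247119) (l 535265807)) (c (l 545798671) (l 537280783)))))))) (a (c (a (c (l 566532367) (a (l 557670415) (l 559913743))) (l 566191631)) (b (a (c (a (l 551212559) (l 553739279)) (a (a (l 542721551) (l 544293391)) (l 545135631))) (a (l 551452431) (l 554660111))) (a (c (a (c (l 550247695) (l 545104143)) (l 551082767)) (a (a (l 539172111) (l 540679695)) (a (l 542616591) (l 544184591)))) (a (a (a (l 548190479) (l 549657871)) (l 550076431)) (l 550784783))))) (c (l 569904655) (a (c (l 559563023) (a (l 552401423) (l 554331151))) (l 559613199))))), by decide +kernel⟩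

def k8_B00pm_011_s3 : ∃ t, chk3 f_B00pm_011_s3 t 16 252 1 = true :=
  ⟨(a (l 4) (a (a (l 4) (a (l 4) (b (l 4) (a (l 4) (a (l 4) (l 533653007)))))) (a (a (b (l 4) (a (a (l 533660431) (l 533667599)) (a (l 533675023) (l 533682447)))) (b (a (l 4) (c (l 533862927) (l 533664783))) (a (a (l 533689871) (l 533697039)) (a (l 533704463) (l 533711887))))) (a (b (a (c (l 533877775) (l 533679631)) (c (l 533892879) (l 533694223))) (a (a (l 533719311) (l 533726735)) (a (l 533734159) (l 533741583)))) (b (a (c (l 533840655) (l 533709071)) (a (l 533752079) (l 533759503))) (a (a (l 533749007) (l 533756431)) (a (l 533763855) (l 533771279)))))))), by decide +kernel⟩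

def k9_B00pm_011_s3 : ∃ t, chk3 f_B00pm_011_s3 t 16 253 1 = true :=
  ⟨(a (a (l 4) (a (l 4) (a (l 4) (b (l 4) (a (l 4) (b (l 4) (a (l 4) (l 533563407)))))))) (a (a (a (b (l 4) (a (b (l 4) (a (l 533570575) (l 533577743))) (b (l 533850895) (l 533924111)))) (a (b (l 4) (b (l 533865231) (l 533871375))) (b (b (l 4) (l 533873679)) (b (l 533879823) (l 533885967))))) (a (b (a (b (l 4) (l 533888271)) (b (l 533896719) (l 533902863))) (a (b (l 533894159) (l 533900303)) (b (l 533908751) (l 533914895)))) (b (a (b (l 533642767) (l 533917199)) (a (l 533657871) (l 533665039))) (a (b (l 533923343) (l 533929487)) (b (l 533669391) (l 533943823)))))) (a (a (b (a (a (l 533672463) (l 533679631)) (b (l 533686799) (l 533692943))) (a (b (l 533684239) (l 533690127)) (a (l 533699087) (l 533706255)))) (b (a (b (l 533701647) (l 533707535)) (a (l 533716495) (l 533723663))) (a (a (l 533713679) (l 533721103)) (b (l 533728271) (l 533734159)))))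 (a (b (a (a (l 533731087) (l 533738511)) (a (l 533745935) (l 533753359))) (a (b (l 533743119) (l 533749007)) (a (l 533757711) (l 533765135)))) (b (a (a (l 533760783) (l 533768207)) (a (l 533775631) (l 533783055))) (a (a (l 533906703) (l 533847055)) (a (l 533854479) (l 533861903)))))))), by decide +kernel⟩

def k10_B00pm_011_s3 : ∃ t, chk3 f_B00pm_011_s3 t 32 254 1 = true :=
  ⟨(b (a (l 4) (a (a (l 4) (a (l 4) (b (l 4) (a (l 4) (l 533787663))))) (a (a (b (l 4) (a (l 533794575) (l 533801743))) (a (b (l 4) (l 533808655)) (b (l 533541135) (l 533547279)))) (a (b (a (l 533548047) (l 533555215)) (b (l 534092303) (l 534095375))) (b (a (l 533562383) (l 533569551)) (a (l 533568527) (l 533575695))))))) (a (l 14) (a (a (b (b (l 4) (l 14)) (l 14)) (a (b (a (b (l 4) (l 533773071)) (l 533914383)) (a (l 14) (b (l 533783055) (l 14)))) (b (a (l 533786895) (l 533794063)) (a (l 533860623) (l 533800463))))) (a (a (b (a (l 533800975)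 (l 533807887)) (a (l 533807375) (l 533814287))) (b (a (l 533815055) (l 533553679)) (a (l 533821199) (l 533828367)))) (a (a (b (l 533560591) (l 533566991)) (b (l 533567759) (l 533573903))) (b (b (l 533978383) (l 533981711)) (b (l 533984783) (l 533987855)))))))), by decide +kernel⟩

def k11_B00pm_011_s3 : ∃ t, chk3 f_B00pm_011_s3 t 32 255 1 = true :=
  ⟨(a (l 14) (b (a (a (l 14) (a (l 14) (b (a (l 14) (b (l 533803535) (l 14))) (l 14)))) (a (a (b (a (l 533813775) (l 533820687)) (a (l 14) (c (l 533857807) (l 533797135)))) (a (b (l 533827599) (b (l 533562383) (b (l 16770328) (l 14)))) (b (l 533834511) (b (l 533569295) (b (l 16769936) (b (l 16769608) (a (l 14) (l 16768960)))))))) (a (a (b (l 533841679) (b (l 533576463) (b (l 16769544) (b (l 16771720) (a (l 16768536) (l 16768120)))))) (b (l 533848591) (b (l 533583631) (b (l 16771720) (b (a (l 16768632) (l 16768208)) (l 16772736)))))) (a (b (l 533587215) (b (l 533590543)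 (a (b (l 16771384) (l 16772568)) (b (b (l 16768776) (l 16768304)) (l 16772152))))) (b (l 533594127) (b (l 533597711) (b (b (l 16768384) (a (l 16767888) (l 16767464))) (l 16771520)))))))) (a (l 14) (a (a (l 14) (a (l 14) (b (b (b (a (l 14) (l 16772824)) (l 14)) (l 14)) (l 14)))) (a (b (b (a (b (c (l 16772248) (l 16772144)) (l 16771952)) (b (l 16771352) (l 16771776))) (b (l 16767432) (l 16768240))) (b (b (l 16769040) (l 14)) (l 14))) (b (b (b (a (l 16770776) (l 16770592)) (c (l 16768872) (l 16766304))) (b (l 16767104) (l 16767928))) (b (b (l 16768736) (l 16769536)) (a (b (l 16770392) (l 14)) (b (l 16770272) (b (l 16770864) (c (l 16771336) (l 16771168)))))))))))), by decide +kernel⟩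

def k12_B00pm_011_s3 : ∃ t, chk3 f_B00pm_011_s3 t 132 254 1 = true :=
  ⟨(a (b (a (b (a (l 533576719) (l 533583887)) (a (l 533582863) (l 533589775))) (b (a (l 533590799) (l 533598223)) (a (l 533596943) (l 533604111)))) (a (b (a (l 533589007) (l 533595919)) (a (l 533595151) (l 533602063))) (b (a (l 533603087) (l 533610255)) (a (l 533609231) (l 533616399))))) (a (b (b (l 533877519) (a (l 533611279) (l 533618447))) (b (a (l 533617423) (l 533624591)) (b (l 533893391) (l 533896463)))) (b (b (l 533891855) (l 533897999)) (a (b (l 533631759) (l 533637903)) (a (l 533776143) (l 533779727)))))), by decide +kernel⟩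

def k13_B00pm_011_s3 : ∃ t, chk3 f_B00pm_011_s3 t 132 510 1 = true :=
  ⟨(b (a (a (a (l 533601295) (l 533608463)) (b (l 533885199) (l 533888271))) (b (a (l 533899535) (l 533913871)) (a (l 533902607) (a (l 16767112) (a (l 16769416) (l 16769184)))))) (a (b (b (a (l 533875727) (a (l 16768040) (l 16767640))) (a (a (l 16768360) (a (l 16768032) (l 16770408))) (b (a (l 16767664) (c (l 16767192) (l 16767016))) (a (a (l 16767256) (l 16766832)) (l 16771440))))) (b (b (a (a (c (l 16770472) (l 16767688)) (l 16772176)) (l 16770912)) (a (a (l 16772080) (l 16771232)) (a (l 16770392) (l 16769544)))) (a (b (l 16770720) (a (l 16770208) (l 16769600))) (a (l 16769208) (l 16769032))))) (a (b (b (b (l 16769760) (a (l 16767056) (c (l 16766520) (l 16766328)))) (a (l 16771072) (l 16770224))) (b (b (a (l 16769640) (l 16768792)) (a (l 16768688) (l 16768016))) (l 16768776))) (b (b (a (b (l 16766432) (l 16770816)) (l 16770464)) (a (l 16769376)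 (a (l 16768744) (a (l 16768424) (l 16768208))))) (a (l 16768072) (l 16767896)))))), by decide +kernel⟩

def k14_B00pm_011_s3 : ∃ t, chk3 f_B00pm_011_s3 t 132 511 1 = true :=
  ⟨(b (a (b (b (a (a (l 16770416) (l 16770248)) (c (l 16769960) (l 16764784))) (a (l 16765944) (l 16765616))) (a (b (l 16766784) (l 16767624)) (b (l 16766480) (l 16767328)))) (a (b (b (l 16764416) (l 16765296)) (b (l 16766168) (l 16767040))) (b (b (l 16764088) (l 16764984)) (b (l 16765872) (l 16766752))))) (a (b (a (b (l 16768456) (l 16769272)) (b (l 16768176) (l 16769016))) (b (a (a (l 16770144) (l 16770024)) (a (l 16769904) (l 16769784))) (b (a (l 16770688) (c (l 16770552) (l 16770376))) (b (a (l 16770992) (l 16770768)) (a (a (l 16771240) (l 16771136)) (a (l 16771032) (l 16770920))))))) (a (b (b (l 16767904) (l 16768752)) (a (b (l 16769664) (b (l 16770288) (a (l 16770736) (l 16770680)))) (b (l 16769544) (b (l 16770176) (a (l 16770624) (l 16770568))))))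 (b (b (l 16767624) (l 16768496)) (a (b (l 16769424) (b (l 16770064) (a (l 16770512) (l 16770464)))) (b (l 16769304) (b (l 16769944) (b (l 16770272) (l 16770480))))))))), by decide +kernel⟩

def k15_B00pm_011_s3 : ∃ t, chk3 f_B00pm_011_s3 t 266 127 1 = true :=
  ⟨(a (b (b (b (l 533906447) (l 533912591)) (b (l 533918479) (b (l 533922319) (l 533925391)))) (b (b (b (l 533928207) (b (l 16766376) (b (c (l 16768688) (l 16765856)) (a (l 16771024) (l 16764968))))) (a (b (b (l 16769608) (b (l 16768160) (l 16767192))) (l 16767728)) (b (b (l 16768760) (b (c (l 16767384) (l 16767232)) (l 16766416))) (l 16767560)))) (b (a (b (l 16764296) (l 16766096)) (b (l 16764144) (l 16765952))) (b (b (l 16767352) (l 16768240)) (b (a (l 16769176) (l 16769056)) (c (b (l 16769880) (a (l 16770376) (l 16770272))) (b (l 16769664) (b (l 16769984) (a (l 16770256) (l 16770144)))))))))) (b (b (b (l 533920783) (l 533926927)) (b (l 533933071) (l 533905679)))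 (b (b (b (l 533674255) (a (b (l 16765768) (l 16769872)) (b (b (l 16765552) (l 16765136)) (l 16769000)))) (b (b (a (l 16767904) (a (l 16767272) (b (l 16762088) (l 16771600)))) (b (a (l 16766456) (l 16770848)) (l 16766152))) (a (l 16767392) (l 16767232)))) (b (a (b (l 16763984) (l 16765800)) (b (l 16763832) (l 16765656))) (b (b (l 16767088) (l 16767984)) (b (b (l 16768648) (l 16769096)) (c (b (l 16769648) (b (l 16769992) (a (l 16770272) (l 16770160)))) (b (l 16769424) (b (l 16769752) (a (l 16770024) (l 16769904))))))))))), by decide +kernel⟩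

def k16_B00pm_011_s3 : ∃ t, chk3 f_B00pm_011_s3 t 267 127 1 = true :=
  ⟨(a (b (b (b (l 533935375) (l 533941519)) (b (l 533813263) (l 533886479))) (b (b (b (b (l 16765672) (l 16767872)) (b (a (a (l 16770152) (l 16769840)) (l 16769272)) (a (l 16768152) (l 16767304)))) (b (b (b (a (l 16766688) (l 16771080)) (a (l 16770960) (l 16770104))) (l 16765576)) (a (l 16767064) (l 16766904)))) (b (a (b (l 16763680) (l 16765512)) (b (l 16763520) (l 16765376))) (b (b (l 16766816) (l 16767720)) (b (b (l 16768400) (l 16768848)) (c (b (l 16769424) (b (l 16769760) (a (l 16770048) (l 16769936)))) (b (l 16769184) (b (l 16769512) (a (l 16769792) (l 16769672)))))))))) (b (b (b (l 533949967) (l 533955855)) (b (l 533961999) (l 533833743))) (b (b (b (b (l 16764952) (b (l 16764592) (a (l 16764488) (l 16763808)))) (b (l 16767992) (b (l 16766520) (a (l 16765960) (l 16770352))))) (b (b (a (l 16769736) (l 16769448)) (l 16765240)) (a (l 16766736)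 (l 16761336)))) (b (a (b (l 16763368) (l 16765232)) (b (l 16763216) (l 16765088))) (b (b (l 16766544) (c (l 16767560) (l 16767368))) (b (b (l 16768152) (a (l 16768664) (l 16768544))) (c (b (c (l 16769248) (l 16769128)) (b (l 16769536) (a (l 16769824) (l 16769712)))) (b (l 16768936) (b (l 16769272) (a (l 16769552) (l 16769432))))))))))), by decide +kernel⟩

def k17_B00pm_011_s3 : ∃ t, chk3 f_B00pm_011_s3 t 268 127 1 = true :=
  ⟨(b (b (a (b (l 533964559) (l 533970447)) (b (l 533710607) (l 533985039))) (a (b (l 533976591) (l 533848335)) (b (l 533991183) (l 533862927)))) (b (b (a (b (a (b (l 16764400) (l 16768680)) (b (l 16763944) (l 16767840))) (a (b (l 16766712) (l 16769992)) (b (l 16765864) (l 16769136)))) (b (b (c (a (l 16768816) (l 16768208)) (l 16768208)) (l 16766568)) (b (a (l 16765016) (l 16769400)) (l 16767880)))) (b (b (a (l 16763944) (l 16763608)) (a (l 16759664) (l 16759328))) (b (l 16760456) (l 16761408))))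 (b (b (b (l 16762360) (l 16763312)) (b (c (l 16764304) (l 16764208)) (c (l 16765264) (l 16765128)))) (b (b (a (l 16766272) (l 16766000)) (c (a (l 16767304) (l 16767048)) (b (l 16766736) (l 16767192)))) (b (b (a (l 16767896) (l 16767640)) (c (a (l 16768480) (l 16768240)) (l 16768104))) (a (c (b (c (l 16769016) (l 16768888)) (b (a (l 16769360) (l 16769248)) (a (a (l 16769624) (l 16769568)) (a (l 16769512) (l 16769456))))) (b (l 16768688) (b (l 16769024) (a (l 16769312) (l 16769192))))) (c (c (b (l 16768784) (b (l 16769144) (a (l 16769440) (l 16769328)))) (b (l 16768648) (b (l 16769000) (a (l 16769296) (l 16769176))))) (b (l 16768432) (b (l 16768776) (a (l 16769072) (l 16768944))))))))))), by decide +kernel⟩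

def k18_B00pm_011_s3 : ∃ t, chk3 f_B00pm_011_s3 t 269 127 1 = true :=
  ⟨(b (a (b (b (l 533725455) (l 533999887)) (b (l 534005775) (b (l 533741071) (b (l 16763560) (a (l 16763280) (l 16768048)))))) (b (b (l 533740047) (l 533745935)) (b (l 534020367) (b (l 533755919) (b (l 16765424) (a (l 16767480) (l 16766752))))))) (b (b (b (b (a (l 16766872) (l 16765160)) (b (a (l 16765360) (l 16768904)) (a (l 16764368) (l 16767912)))) (a (b (c (l 16768216) (l 16768032)) (l 16767528)) (a (l 16766784) (l 16766608)))) (b (a (l 16763752) (l 16763416)) (a (l 16763072) (l 16760128)))) (b (b (b (l 16761744) (l 16762712)) (c (b (l 16763736) (l 16764712)) (b (l 16763608) (l 16764552)))) (a (b (b (l 16765728) (a (l 16766744) (l 16766608))) (b (b (l 16767384) (a (l 16767920) (l 16767792))) (c (c (b (l 16768552) (b (l 16768912) (a (l 16769216) (l 16769096)))) (b (l 16768400) (b (l 16768760) (a (l 16769056) (l 16768936))))) (b (l 16768184)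 (b (l 16768528) (b (l 16768704) (a (l 16768880) (l 16768752)))))))) (b (b (l 16765456) (a (l 16766480) (l 16766344))) (b (b (l 16767128) (a (l 16767664) (l 16767536))) (c (c (b (l 16768312) (b (l 16768672) (a (l 16768976) (c (l 16768904) (l 16768824))))) (b (l 16768152) (b (l 16768512) (a (l 16768816) (l 16768696))))) (b (l 16767928) (b (l 16768272) (b (l 16768448) (a (l 16768632) (l 16768504)))))))))))), by decide +kernel⟩

def k19_B00pm_011_s3 : ∃ t, chk3 f_B00pm_011_s3 t 135 254 1 = true :=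
  ⟨(b (b (a (a (l 533754895) (l 533769487)) (a (l 533784335) (l 534067727))) (a (a (l 533760783) (l 533775375)) (a (l 534058767) (l 534073615)))) (b (a (a (l 534034959) (l 534049807)) (a (l 534064655) (l 533945103))) (a (a (b (l 533770511) (b (a (l 16767408) (l 16766880)) (l 16765464))) (b (a (l 16762168) (b (l 16762032) (l 16761536))) (a (b (l 16766200) (l 16764192)) (b (l 16765352) (l 16768584))))) (b (a (b (l 16761520) (a (l 16766280) (l 16765648))) (b (a (l 16760912) (l 16765680)) (l 16764416))) (b (a (l 16764088) (a (l 16768056) (l 16767208))) (a (a (l 16767736) (l 16766888)) (l 16765624))))))), by decide +kernel⟩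

def k20_B00pm_011_s3 : ∃ t, chk3 f_B00pm_011_s3 t 135 510 1 = true :=
  ⟨(a (a (b (b (b (a (l 16769128) (l 16768280)) (l 16766712)) (a (l 16766424) (l 16766248))) (b (c (l 16763008) (l 16763072)) (l 16759816))) (b (a (b (l 16766440) (l 16766080)) (b (l 16765584) (l 16765896))) (a (b (l 16762816) (l 16759544)) (b (l 16762648) (l 16759392))))) (a (a (b (b (l 16764736) (l 16765720)) (b (l 16757224) (l 16759232))) (b (b (l 16763880) (l 16765552)) (b (l 16757064) (l 16759048)))) (a (b (b (l 16763368) (l 16765384)) (b (l 16756896) (l 16758888))) (b (b (l 16763192) (l 16765208)) (b (l 16756736) (l 16758736)))))), by decide +kernel⟩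

def k21_B00pm_011_s3 : ∃ t, chk3 f_B00pm_011_s3 t 270 511 1 = true :=
  ⟨(b (b (b (a (l 16761280) (l 16760928)) (l 16762112)) (c (b (l 16763160) (l 16764160)) (b (l 16763016) (l 16763968)))) (a (b (b (l 16765176) (a (l 16766208) (l 16766072))) (b (b (l 16766864) (a (l 16767408) (l 16767280))) (c (b (a (l 16768048) (l 16767928)) (c (b (l 16768440) (b (l 16768624) (a (l 16768808) (l 16768688)))) (b (l 16768272) (a (l 16768576) (c (l 16768496) (l 16768408)))))) (b (l 16767664) (b (l 16768016) (a (a (l 16768352) (l 16768288)) (a (l 16768224) (l 16768160)))))))) (b (b (l 16764896) (a (l 16765944) (l 16765808))) (b (b (l 16766600) (a (l 16767152) (l 16767024))) (c (b (a (l 16767800) (l 16767672)) (c (b (l 16768192) (a (a (l 16768536) (l 16768472)) (a (l 16768416) (l 16768352)))) (b (l 16768024) (b (l 16768208) (a (l 16768392) (l 16768264)))))) (b (l 16767408) (b (l 16767760) (a (a (l 16768096) (l 16768032)) (a (l 16767968)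 (l 16767904)))))))))), by decide +kernel⟩

def k22_B00pm_011_s3 : ∃ t, chk3 f_B00pm_011_s3 t 271 511 1 = true :=
  ⟨(b (b (a (a (l 16763824) (l 16763680)) (a (l 16763496) (l 16763344))) (b (a (c (l 16762672) (l 16762504)) (l 16762240)) (a (a (l 16763704) (l 16763536)) (a (l 16763400) (l 16763232))))) (a (b (a (b (l 16764688) (l 16765672)) (b (l 16764520) (l 16765536))) (c (b (b (l 16766488) (l 16766992)) (a (b (l 16767552) (b (l 16767920) (a (c (l 16768296) (l 16768112)) (c (l 16768232) (l 16768048))))) (b (l 16767424) (b (l 16767800) (b (a (l 16768016) (l 16767952)) (c (a (l 16768232) (l 16768168)) (l 16768016))))))) (b (l 16766424) (b (l 16767144) (b (l 16767496) (a (a (l 16767840) (l 16767768)) (a (l 16767704) (l 16767640)))))))) (a (b (b (l 16764384) (a (l 16765416) (l 16765352))) (b (b (a (l 16766168) (l 16766096)) (l 16766624)) (b (c (l 16767296) (l 16766936)) (b (c (c (l 16767760) (l 16767576)) (l 16767304))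 (b (c (c (l 16767952) (l 16767760)) (l 16767480)) (c (c (c (l 16768128) (l 16768032)) (l 16767888)) (l 16767600))))))) (b (b (l 16764224) (a (l 16765280) (l 16765200))) (b (a (b (l 16766024) (l 16766520)) (b (l 16765952) (l 16766456))) (c (b (a (l 16767192) (l 16767128)) (a (b (l 16767576) (c (c (l 16767968) (l 16767872)) (l 16767728))) (a (b (l 16767528) (c (l 16767880) (l 16767680))) (b (l 16767496) (b (l 16767680) (a (l 16767816) (b (l 16767768) (c (l 16767928) (l 16767736))))))))) (b (c (l 16766872) (l 16766696)) (b (c (l 16767248) (l 16767056)) (a (l 16767440) (a (l 16767392) (b (l 16767296) (l 16767416)))))))))))), by decide +kernel⟩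

def k23_B00pm_011_s3 : ∃ t, chk3 f_B00pm_011_s3 t 68 126 1 = true :=
  ⟨(a (b (a (b (a (a (l 533766927) (l 533774607)) (a (l 533782031) (l 533789455))) (a (a (l 533778703) (l 533786383)) (a (l 533793807) (l 533801231)))) (b (a (a (l 533797135) (l 533804559)) (b (l 533812495) (l 533818383))) (a (a (l 533808655) (l 533883407)) (a (l 533890831) (l 533898511))))) (a (b (a (a (l 533790479) (l 533797903)) (a (l 533872655) (l 533880079))) (a (b (l 533802511) (l 533808399)) (b (l 533817359) (l 534091791)))) (b (a (a (l 533887503) (l 533894927)) (b (l 533835791) (l 534109967))) (a (b (l 534100751) (l 533972495)) (b (l 534115855) (l 533920271)))))) (b (a (b (a (b (l 533827599) (l 533833487)) (b (l 533842959) (l 533848591))) (a (b (l 533839375) (l 533845007)) (b (l 533854479) (l 533860367)))) (b (a (b (l 533858063) (l 533863951)) (b (l 533873423) (l 534147599))) (a (b (l 533869583) (l 534143759)) (b (l 534153231) (l 534159119)))))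 (a (b (a (b (l 534119439) (l 534125071)) (b (l 534134543) (l 533938959))) (a (c (b (l 533895439) (l 533901327)) (l 533833487)) (c (b (l 533910799) (l 533916431)) (l 533848335)))) (b (a (b (l 534149647) (a (l 533882895) (l 533890575))) (b (l 534433295) (l 535244303))) (a (c (b (l 533925903) (l 533998863)) (l 533930511)) (a (b (l 533903887) (l 533909519)) (b (l 533911567) (l 533917199)))))))), by decide +kernel⟩

def k24_B00pm_011_s3 : ∃ t, chk3 f_B00pm_011_s3 t 69 126 1 = true :=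
  ⟨(a (b (a (b (a (b (l 534157071) (l 534162703)) (b (l 534717967) (l 534178063))) (a (b (l 534168591) (l 534442767)) (b (l 534452239) (l 534457871)))) (b (a (b (l 536699663) (l 534670863)) (c (c (l 553882383) (b (l 544659727) (l 542429455))) (l 533904399))) (a (b (l 534467599) (l 534741775)) (b (l 534622991) (l 534757135))))) (a (b (a (b (l 534716943) (l 535259407)) (b (l 534732047) (l 535274767))) (a (b (a (l 533918991) (l 533926671)) (b (l 534195471) (l 534198287))) (b (a (l 533934351) (l 533942031)) (b (l 534210831) (l 534213647))))) (b (a (b (l 534747407) (l 535289871)) (b (l 535031055) (l 535305231))) (a (b (b (l 534220303) (l 534491663)) (b (l 534494479) (l 534765583))) (b (b (l 534503951) (l 534506767)) (b (l 534778127) (l 534780943))))))) (a (b (b (c (c (l 556465679) (a (c (l 548151823) (l 542358543)) (l 545997839))) (a (l 533919759) (l 533935119))) (a (b (l 536329743) (l 534842895)) (b (b (l 16770704) (l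 16771160)) (l 536009231)))) (b (a (b (l 535046415) (l 535320591)) (b (l 535062031) (l 535335951))) (a (b (b (l 534519311) (l 534790671)) (b (l 534793487) (l 535064847))) (b (b (l 534803215) (l 16768480)) (b (l 16767808) (l 535080207)))))) (b (c (c (b (l 559484431) (l 556307215)) (a (b (l 549426447) (b (l 546554127) (l 544205839))) (b (l 551120911) (b (l 16794920) (l 16789464))))) (b (a (l 535418895) (l 536213519)) (a (b (l 533958415) (l 533964047)) (b (l 534229263) (l 533979407))))) (b (b (a (l 535956495) (b (l 16769384) (l 16768160))) (a (l 535280143) (l 535634703))) (a (b (l 535356943) (b (l 16767208) (l 535095567))) (b (l 535497487) (b (l 16766616) (l 16765952)))))))), by decide +kernel⟩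

def k25_B00pm_011_s3 : ∃ t, chk3 f_B00pm_011_s3 t 68 254 1 = true :=
  ⟨(a (a (a (b (b (l 534082575) (l 533954063)) (b (a (l 533821967) (b (l 16761272) (c (l 22) (l 16760296)))) (b (b (a (l 16765096) (l 16764344)) (l 16762720)) (b (l 16765944) (l 16763928))))) (b (b (l 533963279) (l 533969167)) (c (l 22) (b (b (l 16760592) (b (l 16760048) (l 16764584))) (b (b (l 16768136) (l 16766128)) (l 16763120)))))) (c (b (b (a (l 533876751) (l 533891855)) (l 22)) (l 22)) (a (b (l 533949711) (b (b (l 16759920) (b (l 16759232) (l 16763248))) (b (l 16765448) (l 16761424)))) (b (l 533964559) (b (b (l 16759232) (b (l 16763432) (l 16766792))) (b (l 16763760) (l 16759904))))))) (c (b (b (b (a (a (l 533905167) (l 533920527)) (a (l 533935631) (l 533950991))) (l 22)) (l 22)) (l 22)) (b (a (a (l 533912335) (l 533927183)) (b (a (l 533871375) (l 533886223)) (a (l 533877007) (b (l 16758072) (b (l 16757544) (l 16757024)))))) (b (b (a (a (b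 (l 16758776) (l 16763416)) (b (l 16758040) (l 16762240))) (a (b (l 16762336) (l 16765816)) (b (l 16766216) (l 16764136)))) (a (a (b (l 16767136) (l 16765104)) (l 16764440)) (a (l 16762752) (l 16761072)))) (a (b (b (l 16762256) (l 16760240)) (a (l 16759544) (l 16759192))) (c (l 22) (a (b (l 16758616) (l 16758880)) (l 16757472)))))))), by decide +kernel⟩

def k26_B00pm_011_s3 : ∃ t, chk3 f_B00pm_011_s3 t 68 255 2 = true :=
  ⟨(a (a (a (a (a (a (a (b (b (b (l 16763016) (l 16754600)) (b (l 16756656) (l 16758704))) (b (b (l 16760744) (l 16762776)) (b (b (l 16764312) (l 16765320)) (b (l 16766328) (b (l 16767088) (b (l 16767472) (b (l 16767664) (b (l 16767752) (c (l 16767920) (l 16767720)))))))))) (l 22)) (l 22)) (l 22)) (l 22)) (l 22)) (l 22)) (l 22)), by decide +kernel⟩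

def k27_B00pm_011_s3 : ∃ t, chk3 f_B00pm_011_s3 t 136 255 3 = true :=
  ⟨(a (a (b (b (b (l 16762992) (l 16764976)) (b (l 16756456) (l 16758416))) (b (b (l 16760360) (l 16764920)) (b (b (l 16763800) (a (l 16764920) (l 16764784))) (b (a (c (l 16765976) (l 16765808)) (c (l 16765840) (l 16765672))) (b (a (l 16766632) (l 16766504)) (b (a (l 16767000) (l 16766872)) (a (a (a (b (l 16767264) (l 16767384)) (l 16767288)) (l 16767232)) (a (a (l 16767192) (l 16767160)) (a (l 16767128) (l 16767096)))))))))) (b (b (b (l 16762640) (l 16754144)) (b (l 16756128) (l 16758104))) (b (b (l 16760064) (l 16764640)) (b (b (l 16763528) (a (l 16764648) (l 16764512))) (b (b (l 16765256) (a (l 16765880) (l 16765752))) (b (a (l 16766368) (l 16766240)) (b (a (l 16766744) (l 16766616)) (b (c (a (l 16767032) (l 16766904)) (a (l 16766824) (l 16766696))) (a (a (l 16767104) (l 16767040)) (a (l 16766976) (l 16766912))))))))))) (a (b (b (b (l 16762288)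 (l 16753808)) (b (l 16755808) (l 16757792))) (b (b (l 16759768) (l 16764360)) (b (b (l 16763256) (a (l 16764376) (l 16764248))) (b (a (c (l 16765448) (l 16765272)) (c (l 16765320) (l 16765136))) (a (b (l 16766112) (c (b (l 16766584) (a (l 16766888) (l 16766824))) (a (l 16766552) (l 16766488)))) (b (l 16765984) (c (b (l 16766456) (a (l 16766760) (l 16766696))) (a (l 16766424) (l 16766360))))))))) (b (b (b (l 16761936) (l 16753472)) (b (l 16755488) (l 16757488))) (b (b (l 16759480) (l 16764080)) (b (b (l 16762984) (a (l 16764112) (l 16763976))) (c (b (a (l 16765192) (l 16765064)) (c (l 22) (a (b (l 16765904) (a (l 16766456) (l 16766392))) (b (l 16765776) (a (l 16766328) (l 16766264)))))) (b (b (l 16764640) (l 16765128)) (a (b (l 16765752) (a (l 16766296) (l 16766232))) (b (l 16765624) (a (l 16766168) (l 16766104))))))))))), by decide +kernel⟩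

def k28_B00pm_011_s3 : ∃ t, chk3 f_B00pm_011_s3 t 137 255 3 = true :=
  ⟨(c (a (a (a (a (c (l 22) (b (b (l 16762744) (l 16761568)) (b (l 16762984) (b (l 16763424) (b (l 16764944) (b (l 16765704) (l 16766200))))))) (l 22)) (l 22)) (l 22)) (l 22)) (b (a (b (b (a (l 16751136) (l 16750792)) (l 16758128)) (b (a (l 16755160) (l 16754840)) (l 16759464))) (b (b (l 16755440) (l 16757472)) (b (l 16756864) (l 16758872)))) (b (b (a (a (l 16759144) (l 16758856)) (a (l 16758560) (l 16758280))) (a (a (l 16763744) (l 16763464)) (a (l 16763192) (l 16762920)))) (a (b (a (b (l 16762640) (l 16763624)) (b (l 16762368) (l 16763360))) (b (a (b (l 16764384) (l 16764872)) (b (l 16764120) (l 16764616))) (a (a (b (l 16765496) (a (l 16766040) (l 16765976))) (b (l 16765368) (a (l 16765912) (l 16765848)))) (a (b (l 16765240) (a (l 16765784) (l 16765720))) (b (l 16765112) (a (l 16765656) (l 16765600))))))) (b (a (b (l 16762104) (l 16763104))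 (b (l 16761840) (l 16762848))) (b (a (b (l 16763872) (l 16764368)) (a (l 16763976) (l 16763848))) (a (a (b (l 16764984) (a (l 16765536) (l 16765472))) (b (l 16764864) (a (l 16765408) (l 16765352)))) (c (l 22) (a (b (l 16764680) (b (l 16765056) (l 16765312))) (b (l 16764552) (b (l 16764936) (l 16765184)))))))))))), by decide +kernel⟩

def k29_B00pm_011_s3 : ∃ t, chk3 f_B00pm_011_s3 t 69 127 1 = true :=
  ⟨(b (b (b (b (a (a (a (l 534201103) (l 534753295)) (a (l 535036943) (l 535052303))) (a (a (l 535067663) (l 535351311)) (a (l 535366671) (l 535382031)))) (a (a (a (l 534204175) (l 22)) (l 22)) (l 22))) (c (l 22) (a (a (a (b (l 16757440) (b (l 16756880) (l 16761224))) (l 22)) (l 22)) (l 22)))) (c (l 22) (a (a (a (a (b (b (l 16763904) (l 16759792)) (l 16757176)) (l 22)) (l 22)) (l 22)) (l 22)))) (c (l 22) (c (l 22) (c (l 22) (a (a (a (a (b (b (l 16761384) (l 16760232)) (b (l 16761672) (b (l 16762136) (b (l 16763664)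 (b (l 16764432) (b (l 16764816) (l 16765064))))))) (l 22)) (l 22)) (l 22)) (l 22)))))), by decide +kernel⟩

def k30_B00pm_011_s3 : ∃ t, chk3 f_B00pm_011_s3 t 35 252 1 = true :=
  ⟨(a (a (c (c (a (l 560748559) (l 563159311)) (a (b (l 553452559) (a (l 548753679) (l 550981135))) (b (l 556204303) (l 553307151)))) (b (a (a (b (l 539462927) (l 538279183)) (c (l 544873999) (l 537187087))) (a (c (l 547309839) (l 538268175)) (b (l 16780944) (l 16775712)))) (a (a (l 535325199) (b (l 537959951) (l 536384015))) (a (b (l 538819855) (l 537639695)) (c (b (l 16835888) (l 16786952)) (l 536553487)))))) (b (c (l 563408399) (c (a (l 550950415) (l 16839816)) (a (a (l 541703695) (l 544072975)) (b (l 16796424) (l 545515279))))) (a (c (l 16850256) (a (b (l 16770008) (l 16771800)) (b (l 16792832) (l 16774712)))) (a (b (l 16773976) (l 16772592)) (b (l 16828792) (l 16786320)))))) (c (a (l 565845263) (l 17045952)) (c (a (a (l 553997583) (l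 556605455)) (l 559260943)) (a (a (b (l 548849167) (b (l 16810104) (l 16803368))) (b (l 16839408) (l 548723727))) (a (l 551334415) (l 554061071)))))), by decide +kernel⟩

def k31_B00pm_011_s3 : ∃ t, chk3 f_B00pm_011_s3 t 35 506 1 = true :=
  ⟨(a (c (c (a (a (l 556146191) (l 16938016)) (l 16900528)) (a (a (a (b (l 16796016) (l 542735887)) (b (l 16810768) (l 16802496))) (a (l 547541519) (l 550838543))) (a (l 552890639) (l 16933416)))) (b (a (a (a (l 534000399) (l 534136079)) (a (l 536334095) (l 537318927))) (a (c (c (l 16815288) (l 542010383)) (l 535405583)) (a (l 16768864) (l 16783464)))) (a (a (a (l 534006031) (l 534021391)) (a (l 534088463) (l 536283663))) (a (a (l 536997135) (c (l 16797304) (l 16764800))) (a (l 16768088) (l 16773416)))))) (a (c (l 16927800) (a (a (b (l 16777064) (l 16768176)) (b (l 16791600) (l 16783816))) (b (l 16813288) (l 16807064)))) (a (a (l 16835656) (l 16829240)) (l 16850816)))), by decide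 +kernel⟩

def k32_B00pm_011_s3 : ∃ t, chk3 f_B00pm_011_s3 t 35 507 1 = true :=
  ⟨(a (a (b (a (a (l 535580175) (b (l 16767752) (l 16764840))) (a (b (l 16763952) (l 16767096)) (b (l 16770560) (l 16764000)))) (a (a (b (l 16768288) (l 16765368)) (l 535525135)) (a (b (l 16769432) (l 16765672)) (b (l 16767152) (l 16764264))))) (c (a (b (l 16848104) (b (l 16844184) (a (l 16831472) (l 16850304)))) (b (l 16881896) (a (l 16870136) (l 16888168)))) (a (b (a (l 536232463) (l 536674831)) (b (a (l 16757208) (l 16775864)) (b (l 16758824) (a (l 16762520) (b (l 16764704) (l 16762432)))))) (b (b (l 16766352) (l 16764312)) (b (a (l 16773360) (l 16770712)) (b (a (l 16766728) (l 16764960)) (l 16762296))))))) (b (c (a (l 16931328) (l 17078568)) (b (a (a (l 16768264) (l 16801048)) (a (l 16833184) (l 16864816))) (a (a (l 16762336) (a (l 16787928) (l 16804864))) (a (a (l 16821656) (l 16838360)) (l 16947216))))) (c (a (a (l 16914920) (l 17033712))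 (l 17084352)) (a (a (b (b (a (l 16790544) (l 16766384)) (a (l 16766168) (l 16763664))) (a (l 16782880) (l 16760168))) (b (a (b (l 16784104) (l 16782136)) (l 16801120)) (l 16767504))) (a (a (l 16817584) (l 16835392)) (l 16861584)))))), by decide +kernel⟩

def k33_B00pm_011_s3 : ∃ t, chk3 f_B00pm_011_s3 t 35 127 1 = true :=
  ⟨(b (b (b (b (b (b (b (a (a (a (l 16766360) (l 16765056)) (c (a (l 16839048) (l 16877768)) (a (a (l 16772552) (l 16760904)) (l 16770616)))) (c (a (l 17017376) (l 17087312)) (a (a (l 16789512) (l 16786216)) (l 16799944)))) (l 22)) (l 22)) (l 22)) (l 22)) (l 22)) (l 22)) (l 22)), by decide +kernel⟩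

def k34_B00pm_011_s3 : ∃ t, chk3 f_B00pm_011_s3 t 9 31 1 = true :=
  ⟨(a (a (a (b (b (l 571260175) (c (l 573392655) (a (l 563212047) (l 564881167)))) (b (a (a (b (l 562933519) (b (l 16963008) (b (l 16968048) (l 16972048)))) (b (l 16971416) (b (l 16990784) (l 17001264)))) (b (l 17007360) (a (b (l 17017960) (l 17115256)) (b (l 17128472) (l 17144656))))) (b (b (a (c (l 17159880) (b (l 16869440) (l 22))) (l 16975088)) (c (a (l 17172528) (l 17240848)) (l 22))) (c (a (b (l 17180728) (l 22)) (b (l 17255656) (l 17266496))) (l 22))))) (a (b (l 570926351) (b (b (l 17137800) (c (l 17244016) (b (l 17020696) (l 17118632)))) (b (a (b (l 17189560) (l 17202400)) (b (l 17220688) (l 17235048))) (b (l 17062112) (c (l 17340144) (l 22)))))) (b (l 571629327) (b (b (l 17182784) (b (l 17217712) (l 17243144))) (b (a (l 17176472) (l 17291112)) (a (b (l 17197176) (l 17123152)) (b (l 17316464) (l 17243296)))))))) (b (a (l 571994895) (l 572021519))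 (b (b (a (a (l 17226080) (l 17267472)) (b (l 17310992) (l 17340888))) (a (a (l 17280304) (l 17326496)) (l 17389304))) (b (a (a (l 17334360) (l 17386936)) (l 17455576)) (b (a (l 17314968) (l 17504176)) (a (a (l 17383632) (l 17451632)) (l 17534944))))))) (b (b (a (l 17122920) (l 17323792)) (b (l 17280288) (a (a (l 17335208) (l 17398392)) (a (l 17455688) (l 17506224))))) (b (b (a (a (l 17396856) (l 17458472)) (l 17532208)) (a (l 17492136) (l 17586288))) (b (a (l 17560272) (l 17644616)) (a (a (l 17599832) (l 17656072)) (l 17705160)))))), by decide +kernel⟩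

def k35_B00pm_011_s3 : ∃ t, chk3 f_B00pm_011_s3 t 5 15 1 = true :=
  ⟨(b (a (a (b (l 566574607) (l 567367439)) (l 563964431)) (b (l 560153359) (b (l 17620704) (a (l 17984616) (l 17905688))))) (b (a (a (b (a (l 17426920) (l 17516048)) (b (a (l 17518400) (l 17595608)) (a (l 17565584) (l 17616240)))) (b (a (l 17589552) (l 17649480)) (l 17905256))) (a (b (l 17950360) (l 17649168)) (l 18150840))) (a (a (a (b (l 17619200) (l 17785320)) (b (l 17648488) (l 17691576))) (a (l 17907096) (l 17872952))) (b (l 17959792) (l 18326208))))), by decide +kernel⟩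

def k36_B00pm_011_s3 : ∃ t, chk3 f_B00pm_011_s3 t 3 1 1 = true :=
  ⟨(b (b (l 1) (a (l 4) (l 1))) (b (a (a (b (l 553582863) (l 554568463)) (l 553121295)) (a (l 552544783) (l 1))) (a (a (b (b (l 555433999) (l 556076815)) (b (b (l 17709520) (a (b (l 17767784) (l 17766776)) (l 18117792))) (b (b (l 17872728) (l 17727832)) (b (l 17841896) (l 6))))) (b (l 553463055) (b (b (b (l 18007640) (l 18199696)) (l 6)) (l 6)))) (b (b (a (l 17635856) (l 1)) (b (l 17881560) (l 6))) (l 6))))), by decide +kernel⟩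

theorem t37_B00pm_011_s3 : ∃ t, chk3 f_B00pm_011_s3 t 35 253 1 = true := ex3_b k31_B00pm_011_s3 k32_B00pm_011_s3

theorem t38_B00pm_011_s3 : ∃ t, chk3 f_B00pm_011_s3 t 35 126 1 = true := ex3_b k30_B00pm_011_s3 t37_B00pm_011_s3

theorem t39_B00pm_011_s3 : ∃ t, chk3 f_B00pm_011_s3 t 35 63 1 = true := ex3_b t38_B00pm_011_s3 k33_B00pm_011_s3

theorem t40_B00pm_011_s3 : ∃ t, chk3 f_B00pm_011_s3 t 68 255 3 = true := ex3_a k27_B00pm_011_s3 k28_B00pm_011_s3

theorem t41_B00pm_011_s3 : ∃ t, chk3 f_B00pm_011_s3 t 68 255 1 = true := ex3_c k26_B00pm_011_s3 t40_B00pm_011_s3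

theorem t42_B00pm_011_s3 : ∃ t, chk3 f_B00pm_011_s3 t 68 127 1 = true := ex3_b k25_B00pm_011_s3 t41_B00pm_011_s3

theorem t43_B00pm_011_s3 : ∃ t, chk3 f_B00pm_011_s3 t 34 127 1 = true := ex3_a t42_B00pm_011_s3 k29_B00pm_011_s3

theorem t44_B00pm_011_s3 : ∃ t, chk3 f_B00pm_011_s3 t 34 126 1 = true := ex3_a k23_B00pm_011_s3 k24_B00pm_011_s3

theorem t45_B00pm_011_s3 : ∃ t, chk3 f_B00pm_011_s3 t 34 63 1 = true := ex3_b t44_B00pm_011_s3 t43_B00pm_011_s3

theorem t46_B00pm_011_s3 : ∃ t, chk3 f_B00pm_011_s3 t 17 63 1 = true := ex3_a t45_B00pm_011_s3 t39_B00pm_011_s3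

theorem t47_B00pm_011_s3 : ∃ t, chk3 f_B00pm_011_s3 t 135 511 1 = true := ex3_a k21_B00pm_011_s3 k22_B00pm_011_s3

theorem t48_B00pm_011_s3 : ∃ t, chk3 f_B00pm_011_s3 t 135 255 1 = true := ex3_b k20_B00pm_011_s3 t47_B00pm_011_s3

theorem t49_B00pm_011_s3 : ∃ t, chk3 f_B00pm_011_s3 t 135 127 1 = true := ex3_b k19_B00pm_011_s3 t48_B00pm_011_s3

theorem t50_B00pm_011_s3 : ∃ t, chk3 f_B00pm_011_s3 t 134 127 1 = true := ex3_a k17_B00pm_011_s3 k18_B00pm_011_s3

theorem t51_B00pm_011_s3 : ∃ t, chk3 f_B00pm_011_s3 t 67 127 1 = true := ex3_a t50_B00pm_011_s3 t49_B00pm_011_s3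

theorem t52_B00pm_011_s3 : ∃ t, chk3 f_B00pm_011_s3 t 133 127 1 = true := ex3_a k15_B00pm_011_s3 k16_B00pm_011_s3

theorem t53_B00pm_011_s3 : ∃ t, chk3 f_B00pm_011_s3 t 132 255 1 = true := ex3_b k13_B00pm_011_s3 k14_B00pm_011_s3

theorem t54_B00pm_011_s3 : ∃ t, chk3 f_B00pm_011_s3 t 132 127 1 = true := ex3_b k12_B00pm_011_s3 t53_B00pm_011_s3

theorem t55_B00pm_011_s3 : ∃ t, chk3 f_B00pm_011_s3 t 66 127 1 = true := ex3_a t54_B00pm_011_s3 t52_B00pm_011_s3

theorem t56_B00pm_011_s3 : ∃ t, chk3 f_B00pm_011_s3 t 33 127 1 = true := ex3_a t55_B00pm_011_s3 t51_B00pm_011_s3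

theorem t57_B00pm_011_s3 : ∃ t, chk3 f_B00pm_011_s3 t 32 127 1 = true := ex3_b k10_B00pm_011_s3 k11_B00pm_011_s3

theorem t58_B00pm_011_s3 : ∃ t, chk3 f_B00pm_011_s3 t 16 127 1 = true := ex3_a t57_B00pm_011_s3 t56_B00pm_011_s3

theorem t59_B00pm_011_s3 : ∃ t, chk3 f_B00pm_011_s3 t 16 126 1 = true := ex3_b k8_B00pm_011_s3 k9_B00pm_011_s3

theorem t60_B00pm_011_s3 : ∃ t, chk3 f_B00pm_011_s3 t 16 63 1 = true := ex3_b t59_B00pm_011_s3 t58_B00pm_011_s3

theorem t61_B00pm_011_s3 : ∃ t, chk3 f_B00pm_011_s3 t 8 63 1 = true := ex3_a t60_B00pm_011_s3 t46_B00pm_011_s3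

theorem t62_B00pm_011_s3 : ∃ t, chk3 f_B00pm_011_s3 t 8 251 1 = true := ex3_a k6_B00pm_011_s3 k7_B00pm_011_s3

theorem t63_B00pm_011_s3 : ∃ t, chk3 f_B00pm_011_s3 t 8 125 1 = true := ex3_b k5_B00pm_011_s3 t62_B00pm_011_s3

theorem t64_B00pm_011_s3 : ∃ t, chk3 f_B00pm_011_s3 t 8 62 1 = true := ex3_b k4_B00pm_011_s3 t63_B00pm_011_s3

theorem t65_B00pm_011_s3 : ∃ t, chk3 f_B00pm_011_s3 t 8 31 1 = true := ex3_b t64_B00pm_011_s3 t61_B00pm_011_s3

theorem t66_B00pm_011_s3 : ∃ t, chk3 f_B00pm_011_s3 t 4 31 1 = true := ex3_a t65_B00pm_011_s3 k34_B00pm_011_s3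

theorem t67_B00pm_011_s3 : ∃ t, chk3 f_B00pm_011_s3 t 4 15 1 = true := ex3_b k3_B00pm_011_s3 t66_B00pm_011_s3

theorem t68_B00pm_011_s3 : ∃ t, chk3 f_B00pm_011_s3 t 2 15 1 = true := ex3_a t67_B00pm_011_s3 k35_B00pm_011_s3

theorem t69_B00pm_011_s3 : ∃ t, chk3 f_B00pm_011_s3 t 2 7 1 = true := ex3_b k2_B00pm_011_s3 t68_B00pm_011_s3

theorem t70_B00pm_011_s3 : ∃ t, chk3 f_B00pm_011_s3 t 2 3 1 = true := ex3_b k1_B00pm_011_s3 t69_B00pm_011_s3

theorem t71_B00pm_011_s3 : ∃ t, chk3 f_B00pm_011_s3 t 2 1 1 = true := ex3_b k0_B00pm_011_s3 t70_B00pm_011_s3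

theorem t72_B00pm_011_s3 : ∃ t, chk3 f_B00pm_011_s3 t 1 1 1 = true := ex3_a t71_B00pm_011_s3 k36_B00pm_011_s3

theorem c_B00pm_011_s3 : CertF 0 536870912 536870912 536870912 50331648 16777216 false true false .pnn 0 1 1
    ndF0q0 ndF0q1 pcF1 cut_B00pm_011_s3 xt_B00pm_011_s3 :=
  certFK0 (fam := false) (s1 := true) (s2 := false) (a := 0) (b := 1) (c := 1) (cn := .pnn) (n1 := ndF0q0) (n2 := ndF0q1) (pc := pcF1) (cut := cut_B00pm_011_s3) (xt := xt_B00pm_011_s3) (P1 := 0) (W1 := 536870912) (P2 := 536870912) (W2 := 536870912) (P3 := 50331648) (W3 := 16777216)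
    rfl rfl rfl t72_B00pm_011_s3

theorem s_B00pm_011_s3 {κ x : ℝ} (hκ : κ * h0 = ken x) (hx : ((50331648 : ℕ) : ℝ) / S ≤ x)
    (hx' : x ≤ (((50331648 : ℕ) : ℝ) + (16777216 : ℕ)) / S)
    (H : CutB (VF κ) PP tKF tL pcF (Cut.of [[⟨0, 0, 0, 16777216⟩, ⟨1, 1, 0, 16777216⟩, ⟨2, 1, 0, 16777216⟩], [⟨0, 0, 1, 25165824⟩, ⟨1, 1, 2, 25165824⟩, ⟨2, 1, 0, 8388608⟩, ⟨0, 0, 0, 83886080⟩, ⟨0, 1, 0, 1040187392⟩, ⟨1, 0, 0, 1040187392⟩, ⟨1, 1, 0, 83886080⟩]]) 0 1 1 0 0 (sgb true) (sgb false) x) :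
    AltB (VF κ) PP tKF tL pcF [⟨4, 0, 0, 2845415833⟩] 0 1 1 0 0 (sgb true) (sgb false) x :=
  strip_altB (m := 2845415833) false rfl hκ covF00 covF01 hx hx' c_B00pm_011_s3 H ((okx hx hx').extB (T := tt) (sideF hx hx') hκ rfl rfl (.O 0 true) (.O 1 false) (Or.inr rfl))

noncomputable def cut_B00pm_012_s1 : Cut := Cut.of [[⟨4, 0, 0, 1449551462⟩], [⟨0, 0, 0, 50331648⟩, ⟨1, 1, 0, 50331648⟩, ⟨2, 1, 0, 50331648⟩], [⟨0, 0, 1, 25165824⟩, ⟨1, 1, 2, 25165824⟩, ⟨2, 1, 0, 8388608⟩, ⟨0, 0, 0, 83886080⟩, ⟨0, 1, 0, 1040187392⟩, ⟨1, 0, 0, 1040187392⟩, ⟨1, 1, 0, 83886080⟩]]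

noncomputable def xt_B00pm_012_s1 : Ext := strExt dd false true false .u0 .u2 .u0m .pnp 0 1 2 rfl rfl gf1 vv ndF0q0 ndF0q2

noncomputable def f_B00pm_012_s1 : ℕ → ℕ → ℕ → ℕ → Bool := onCell 0 536870912 0 536870912 50331648 16777216
    (rowFK 0 false true false .pnp 0 1 2 (qsf 0 536870912 0 536870912 1) ndF0q0 ndF0q2 pcF1 cut_B00pm_012_s1 xt_B00pm_012_s1)

def k0_B00pm_012_s1 : ∃ t, chk3 f_B00pm_012_s1 t 1 1 1 = true :=
  ⟨(a (l 6) (b (a (b (a (l 6) (l 17905744)) (l 6)) (b (a (l 550425871) (b (l 552032783) (l 17645080))) (l 6))) (l 6))), by decide +kernel⟩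

theorem c_B00pm_012_s1 : CertF 0 536870912 0 536870912 50331648 16777216 false true false .pnp 0 1 2
    ndF0q0 ndF0q2 pcF1 cut_B00pm_012_s1 xt_B00pm_012_s1 :=
  certFK0 (fam := false) (s1 := true) (s2 := false) (a := 0) (b := 1) (c := 2) (cn := .pnp) (n1 := ndF0q0) (n2 := ndF0q2) (pc := pcF1) (cut := cut_B00pm_012_s1) (xt := xt_B00pm_012_s1) (P1 := 0) (W1 := 536870912) (P2 := 0) (W2 := 536870912) (P3 := 50331648) (W3 := 16777216)
    rfl rfl rfl k0_B00pm_012_s1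

theorem s_B00pm_012_s1 {κ x : ℝ} (hκ : κ * h0 = ken x) (hx : ((50331648 : ℕ) : ℝ) / S ≤ x)
    (hx' : x ≤ (((50331648 : ℕ) : ℝ) + (16777216 : ℕ)) / S)
    (H : CutB (VF κ) PP tKF tL pcF (Cut.of [[⟨0, 0, 0, 50331648⟩, ⟨1, 1, 0, 50331648⟩, ⟨2, 1, 0, 50331648⟩], [⟨0, 0, 1, 25165824⟩, ⟨1, 1, 2, 25165824⟩, ⟨2, 1, 0, 8388608⟩, ⟨0, 0, 0, 83886080⟩, ⟨0, 1, 0, 1040187392⟩, ⟨1, 0, 0, 1040187392⟩, ⟨1, 1, 0, 83886080⟩]]) 0 1 2 0 0 (sgb true) (sgb false) x) :
    AltB (VF κ) PP tKF tL pcF [⟨3, 0, 0, 1449551462⟩] 0 1 2 0 0 (sgb true) (sgb false) x :=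
  strip_altB (m := 1449551462) true rfl hκ covF00 covF02 hx hx' c_B00pm_012_s1 H ((okx hx hx').extB (T := tt) (sideF hx hx') hκ rfl rfl (.O 0 true) (.O 2 false) (Or.inr rfl))

noncomputable def cut_B00pm_012_s3 : Cut := Cut.of [[⟨3, 0, 0, 2845415833⟩], [⟨0, 0, 0, 50331648⟩, ⟨1, 1, 0, 50331648⟩, ⟨2, 1, 0, 50331648⟩], [⟨0, 0, 1, 25165824⟩, ⟨1, 1, 2, 25165824⟩, ⟨2, 1, 0, 8388608⟩, ⟨0, 0, 0, 83886080⟩, ⟨0, 1, 0, 1040187392⟩, ⟨1, 0, 0, 1040187392⟩, ⟨1, 1, 0, 83886080⟩]]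

noncomputable def f_B00pm_012_s3 : ℕ → ℕ → ℕ → ℕ → Bool := onCell 536870912 536870912 0 536870912 50331648 16777216
    (rowFK 2 false true false .pnp 0 1 2 (qsf 0 536870912 0 536870912 1) ndF0q0 ndF0q2 pcF1 cut_B00pm_012_s3 Ext.none)

def k0_B00pm_012_s3 : ∃ t, chk3 f_B00pm_012_s3 t 1 2 1 = true :=
  ⟨(l 6), by decide +kernel⟩

def k1_B00pm_012_s3 : ∃ t, chk3 f_B00pm_012_s3 t 1 6 1 = true :=
  ⟨(a (l 6) (a (l 6) (l 6))), by decide +kernel⟩

def k2_B00pm_012_s3 : ∃ t, chk3 f_B00pm_012_s3 t 2 7 1 = true :=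
  ⟨(l 6), by decide +kernel⟩

def k3_B00pm_012_s3 : ∃ t, chk3 f_B00pm_012_s3 t 3 14 1 = true :=
  ⟨(a (l 6) (a (b (l 6) (a (l 18297336) (a (l 18368472) (l 18347752)))) (a (b (a (l 6) (a (l 18460064) (l 18385264))) (a (b (l 18329408) (l 18150080)) (b (a (l 18205472) (l 18078168)) (a (l 17975768) (b (l 17875584) (l 17466152)))))) (a (b (a (l 18275448) (l 17688912)) (a (a (b (l 17945912) (l 17279056)) (b (l 17834480) (l 17123392))) (b (l 17117672) (b (l 17119568) (l 16852056))))) (b (b (a (l 18026528) (l 17627416)) (a (l 17511416) (l 16899040))) (a (b (b (l 17342696) (l 17069688)) (b (l 16748448) (l 16732168))) (b (b (l 16758968) (l 16731824)) (a (l 16734216) (b (l 16735072) (l 14)))))))))), by decide +kernel⟩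

def k4_B00pm_012_s3 : ∃ t, chk3 f_B00pm_012_s3 t 3 30 1 = true :=
  ⟨(a (a (l 6) (a (l 17873912) (l 18023472))) (a (a (l 18117016) (a (l 18022520) (b (l 18107704) (a (l 17942136) (l 17849816))))) (b (a (a (a (l 17981544) (l 17774216)) (a (b (l 17765592) (l 17268384)) (a (b (l 17603752) (l 17330568)) (a (l 16984056) (l 16903312))))) (a (a (a (a (l 16814200) (l 16799456)) (l 16735712)) (b (l 16731528) (a (l 16734512) (l 16736112)))) (a (b (a (l 16734224) (l 16736416)) (a (l 16737856) (l 14))) (l 14)))) (a (b (a (a (l 17795736) (l 17472504)) (a (a (l 17401232) (l 17188968)) (a (l 16950744) (l 16847336)))) (a (a (l 17655448) (a (l 17526160) (l 17253064))) (a (a (l 17044336) (l 16811168)) (a (l 16756728) (l 16746408))))) (a (a (a (b (l 16743280) (l 16749968)) (b (l 16737240) (l 16742064))) (b (a (l 16738800) (l 16740272)) (a (l 16743504) (l 14)))) (l 14)))))), by decide +kernel⟩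

def k5_B00pm_012_s3 : ∃ t, chk3 f_B00pm_012_s3 t 3 31 1 = true :=
  ⟨(a (a (b (l 17832880) (l 18077080)) (b (l 18088512) (a (l 17674968) (l 17669976)))) (a (a (b (l 17936808) (a (l 17810360) (b (l 17799488) (l 17711944)))) (a (b (a (l 17864216) (l 17798976)) (b (a (l 17714184) (l 17621848)) (a (l 17605632) (b (l 17526376) (l 17292760))))) (a (b (l 17453648) (b (c (l 17611848) (l 17222840)) (c (b (l 17499696) (l 17422056)) (b (l 17115568) (a (l 17248832) (l 22)))))) (b (c (l 17625864) (b (l 17526880) (l 17130504))) (b (c (l 17311352) (b (l 17016336) (l 22))) (c (b (l 17187312) (a (l 17312136) (l 22))) (l 22))))))) (a (a (b (b (a (a (l 17544536) (l 17288864)) (a (l 17102256) (b (l 17197648) (l 17016064)))) (a (a (l 17049192) (b (l 17245272) (a (l 17183992) (l 17044744)))) (a (c (l 17079744) (b (l 17053096) (l 16874016))) (c (b (l 17259696) (l 16988112)) (b (l 16822056) (l 16760416)))))) (b (b (a (c (a (l 17397440)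 (l 17299496)) (a (l 17035368) (l 16748600))) (a (c (l 17017136) (l 16746088)) (a (l 16746048) (l 16748616)))) (l 22)) (l 22))) (b (b (b (a (a (l 16974896) (l 16892288)) (a (l 16774280) (l 16742224))) (a (a (l 16867408) (l 16772688)) (a (l 16743272) (l 16745080)))) (a (a (b (l 16756392) (l 16747584)) (b (l 16745224) (l 16748432))) (a (b (l 16746304) (l 16754680)) (b (l 16753288) (a (l 16751264) (l 14)))))) (a (a (b (b (l 16756032) (l 22)) (l 22)) (a (b (b (l 16752232) (l 22)) (l 22)) (b (b (l 16752784) (l 16758824)) (l 14)))) (b (a (b (a (l 16753344) (l 16753904)) (l 14)) (l 14)) (l 14))))) (a (a (b (b (a (b (l 16753928) (l 16756712)) (b (l 16745944) (l 14))) (l 14)) (l 14)) (l 14)) (l 14))))), by decide +kernel⟩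

theorem t6_B00pm_012_s3 : ∃ t, chk3 f_B00pm_012_s3 t 3 15 1 = true := ex3_b k4_B00pm_012_s3 k5_B00pm_012_s3

theorem t7_B00pm_012_s3 : ∃ t, chk3 f_B00pm_012_s3 t 3 7 1 = true := ex3_b k3_B00pm_012_s3 t6_B00pm_012_s3

theorem t8_B00pm_012_s3 : ∃ t, chk3 f_B00pm_012_s3 t 1 7 1 = true := ex3_a k2_B00pm_012_s3 t7_B00pm_012_s3

theorem t9_B00pm_012_s3 : ∃ t, chk3 f_B00pm_012_s3 t 1 3 1 = true := ex3_b k1_B00pm_012_s3 t8_B00pm_012_s3

theorem t10_B00pm_012_s3 : ∃ t, chk3 f_B00pm_012_s3 t 1 1 1 = true := ex3_b k0_B00pm_012_s3 t9_B00pm_012_s3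

theorem c_B00pm_012_s3 : CertF 0 536870912 0 536870912 50331648 16777216 false true false .pnp 0 1 2
    ndF0q0 ndF0q2 pcF1 cut_B00pm_012_s3 Ext.none :=
  certFK2 (fam := false) (s1 := true) (s2 := false) (a := 0) (b := 1) (c := 2) (cn := .pnp) (n1 := ndF0q0) (n2 := ndF0q2) (pc := pcF1) (cut := cut_B00pm_012_s3) (xt := Ext.none) (P1 := 0) (W1 := 536870912) (P2 := 0) (W2 := 536870912) (P3 := 50331648) (W3 := 16777216)
    rfl rfl rfl (fun _ => rfl) t10_B00pm_012_s3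

theorem s_B00pm_012_s3 {κ x : ℝ} (hκ : κ * h0 = ken x) (hx : ((50331648 : ℕ) : ℝ) / S ≤ x)
    (hx' : x ≤ (((50331648 : ℕ) : ℝ) + (16777216 : ℕ)) / S)
    (H : CutB (VF κ) PP tKF tL pcF (Cut.of [[⟨0, 0, 0, 50331648⟩, ⟨1, 1, 0, 50331648⟩, ⟨2, 1, 0, 50331648⟩], [⟨0, 0, 1, 25165824⟩, ⟨1, 1, 2, 25165824⟩, ⟨2, 1, 0, 8388608⟩, ⟨0, 0, 0, 83886080⟩, ⟨0, 1, 0, 1040187392⟩, ⟨1, 0, 0, 1040187392⟩, ⟨1, 1, 0, 83886080⟩]]) 0 1 2 0 0 (sgb true) (sgb false) x) :
    AltB (VF κ) PP tKF tL pcF [⟨4, 0, 0, 2845415833⟩] 0 1 2 0 0 (sgb true) (sgb false) x :=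
  strip_altB (m := 2845415833) false rfl hκ covF00 covF02 hx hx' c_B00pm_012_s3 H (noExt_B)

noncomputable def cut_B00pm_022_s1 : Cut := Cut.of [[⟨4, 0, 0, 1449551462⟩], [⟨0, 0, 0, 50331648⟩, ⟨1, 1, 0, 50331648⟩, ⟨2, 1, 0, 50331648⟩]]

noncomputable def f_B00pm_022_s1 : ℕ → ℕ → ℕ → ℕ → Bool := onCell 1073741824 536870912 0 536870912 50331648 16777216
    (rowFK 2 false true false .pp 0 2 2 (qsf 0 536870912 0 536870912 2) ndF0q0 ndF0q2 pcF2 cut_B00pm_022_s1 Ext.none)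

def k0_B00pm_022_s1 : ∃ t, chk3 f_B00pm_022_s1 t 1 1 1 = true :=
  ⟨(l 6), by decide +kernel⟩

theorem c_B00pm_022_s1 : CertF 0 536870912 0 536870912 50331648 16777216 false true false .pp 0 2 2
    ndF0q0 ndF0q2 pcF2 cut_B00pm_022_s1 Ext.none :=
  certFK2 (fam := false) (s1 := true) (s2 := false) (a := 0) (b := 2) (c := 2) (cn := .pp) (n1 := ndF0q0) (n2 := ndF0q2) (pc := pcF2) (cut := cut_B00pm_022_s1) (xt := Ext.none) (P1 := 0) (W1 := 536870912) (P2 := 0) (W2 := 536870912) (P3 := 50331648) (W3 := 16777216)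
    rfl rfl rfl (fun _ => rfl) k0_B00pm_022_s1

theorem s_B00pm_022_s1 {κ x : ℝ} (hκ : κ * h0 = ken x) (hx : ((50331648 : ℕ) : ℝ) / S ≤ x)
    (hx' : x ≤ (((50331648 : ℕ) : ℝ) + (16777216 : ℕ)) / S)
    (H : CutB (VF κ) PP tKF tL pcF (Cut.of [[⟨0, 0, 0, 50331648⟩, ⟨1, 1, 0, 50331648⟩, ⟨2, 1, 0, 50331648⟩]]) 0 2 2 0 0 (sgb true) (sgb false) x) :
    AltB (VF κ) PP tKF tL pcF [⟨3, 0, 0, 1449551462⟩] 0 2 2 0 0 (sgb true) (sgb false) x :=
  strip_altB (m := 1449551462) true rfl hκ covF00 covF02 hx hx' c_B00pm_022_s1 H (noExt_B)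

noncomputable def cut_B00pm_022_s3 : Cut := Cut.of [[⟨3, 0, 0, 2845415833⟩], [⟨0, 0, 0, 50331648⟩, ⟨1, 1, 0, 50331648⟩, ⟨2, 1, 0, 50331648⟩]]

noncomputable def f_B00pm_022_s3 : ℕ → ℕ → ℕ → ℕ → Bool := onCell 0 536870912 0 536870912 50331648 16777216
    (rowFK 0 false true false .pp 0 2 2 (qsf 0 536870912 0 536870912 2) ndF0q0 ndF0q2 pcF2 cut_B00pm_022_s3 Ext.none)

def k0_B00pm_022_s3 : ∃ t, chk3 f_B00pm_022_s3 t 2 2 1 = true :=
  ⟨(l 6), by decide +kernel⟩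

def k1_B00pm_022_s3 : ∃ t, chk3 f_B00pm_022_s3 t 4 6 1 = true :=
  ⟨(b (l 6) (a (a (b (b (l 18406920) (l 18257216)) (b (a (l 18049560) (l 18083584)) (a (a (l 17465704) (l 17642592)) (b (l 17900120) (l 17585656))))) (b (l 6) (b (a (l 18128248) (l 6)) (a (b (l 17938992) (l 17702152)) (b (l 17993608) (l 17500352)))))) (a (b (l 6) (l 6)) (l 6)))), by decide +kernel⟩

def k2_B00pm_022_s3 : ∃ t, chk3 f_B00pm_022_s3 t 16 7 1 = true :=
  ⟨(b (b (a (a (b (b (l 17237848) (c (l 17633968) (a (l 17069888) (l 17142832)))) (b (c (a (l 17354912) (l 17438032)) (a (l 16843152) (l 16909896))) (a (a (l 16856104) (l 16931720)) (l 16835808)))) (b (c (l 17563856) (b (l 17334080) (l 17043920))) (b (l 16868400) (a (l 16904464) (l 16890224))))) (b (a (b (l 17495344) (l 17130544)) (b (l 17503120) (l 17131568))) (a (b (l 16897664) (l 16829016)) (b (l 16889352) (l 16849688))))) (b (a (a (b (a (a (l 16772144) (l 16768384)) (l 16762656)) (a (l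 16767776) (l 16760232))) (b (a (l 16754856) (l 16746872)) (a (l 16752504) (l 16744584)))) (a (b (l 16797416) (l 16774264)) (b (l 16780248) (a (l 16719640) (l 16710920))))) (b (b (a (a (l 16762512) (l 16747152)) (a (l 16731024) (l 16714096))) (l 14)) (l 14)))) (l 14)), by decide +kernel⟩

def k3_B00pm_022_s3 : ∃ t, chk3 f_B00pm_022_s3 t 34 14 1 = true :=
  ⟨(b (b (a (b (l 17514888) (l 17137048)) (b (l 17531168) (l 17063664))) (a (b (l 16886048) (l 16792192)) (b (l 16804512) (a (l 16826632) (l 16823760))))) (a (b (b (a (l 16703912) (l 16694696)) (a (l 16701992) (l 16692840))) (b (a (l 16700552) (l 16691480)) (l 14))) (b (b (a (l 16685256) (l 16759480)) (a (l 16683480) (b (l 16674280) (l 16673552)))) (b (a (b (l 16682472) (l 14)) (b (a (l 16675352) (b (l 16670672) (l 16670400))) (a (l 14) (l 1)))) (a (l 14) (l 1)))))), by decide +kernel⟩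

def k4_B00pm_022_s3 : ∃ t, chk3 f_B00pm_022_s3 t 35 14 1 = true :=
  ⟨(b (b (c (b (l 17955760) (a (l 17740168) (l 17774688))) (a (b (l 17335200) (l 16922608)) (b (l 17266984) (b (l 17167440) (l 16862248))))) (a (b (c (b (l 17565920) (l 17350440)) (a (l 16796584) (l 16795352))) (a (l 16780752) (b (l 16828616) (l 16730360)))) (b (c (a (l 17187368) (b (l 17436864) (a (l 17129280) (l 17467920)))) (a (b (l 16877160) (l 16711312)) (b (a (l 16879720) (a (l 16881336) (l 16798240))) (a (b (l 16755656) (a (l 16667368) (l 16751312))) (l 16796104))))) (a (b (a (l 16831536) (b (l 16793600) (a (l 16788928) (l 16789440)))) (a (b (l 16779120) (a (l 16765584) (l 16765552))) (b (l 16779624) (l 1)))) (b (a (b (l 16795128) (l 1)) (l 1)) (l 1)))))) (a (b (b (a (b (l 16750072) (l 16665256)) (b (a (l 16658600) (b (l 16737600) (a (l 16738416) (l 16735840)))) (a (b (l 16741808) (a (l 16742656) (l 16656232))) (b (l 16736688) (l 1))))) (a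 (b (a (l 16666928) (b (l 16746032) (a (l 16663024) (l 16660528)))) (a (b (l 16666392) (l 16708016)) (l 16661280))) (b (a (l 16740808) (l 1)) (l 1)))) (b (a (b (l 16663192) (l 1)) (l 1)) (l 1))) (b (a (b (b (a (b (l 16774344) (l 1)) (l 1)) (l 1)) (l 1)) (l 1)) (l 1)))), by decide +kernel⟩

def k5_B00pm_022_s3 : ∃ t, chk3 f_B00pm_022_s3 t 17 15 1 = true :=
  ⟨(b (a (a (l 14) (l 1)) (l 1)) (l 1)), by decide +kernel⟩

def k6_B00pm_022_s3 : ∃ t, chk3 f_B00pm_022_s3 t 9 7 1 = true :=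
  ⟨(b (a (b (a (a (b (c (b (l 18015184) (a (l 17548608) (l 17807632))) (b (a (l 17282816) (b (l 17435896) (l 17148456))) (a (a (b (l 17177944) (l 16786216)) (b (l 17014304) (l 17039472))) (l 17029712)))) (b (a (b (c (l 17612544) (l 16798936)) (l 1)) (l 1)) (l 1))) (b (b (l 17457024) (l 1)) (l 1))) (l 1)) (l 1)) (l 1)) (l 1)), by decide +kernel⟩

def k7_B00pm_022_s3 : ∃ t, chk3 f_B00pm_022_s3 t 5 3 1 = true :=
  ⟨(b (l 1) (l 1)), by decide +kernel⟩

def k8_B00pm_022_s3 : ∃ t, chk3 f_B00pm_022_s3 t 3 1 1 = true :=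
  ⟨(l 1), by decide +kernel⟩

theorem t9_B00pm_022_s3 : ∃ t, chk3 f_B00pm_022_s3 t 17 14 1 = true := ex3_a k3_B00pm_022_s3 k4_B00pm_022_s3

theorem t10_B00pm_022_s3 : ∃ t, chk3 f_B00pm_022_s3 t 17 7 1 = true := ex3_b t9_B00pm_022_s3 k5_B00pm_022_s3

theorem t11_B00pm_022_s3 : ∃ t, chk3 f_B00pm_022_s3 t 8 7 1 = true := ex3_a k2_B00pm_022_s3 t10_B00pm_022_s3

theorem t12_B00pm_022_s3 : ∃ t, chk3 f_B00pm_022_s3 t 4 7 1 = true := ex3_a t11_B00pm_022_s3 k6_B00pm_022_s3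

theorem t13_B00pm_022_s3 : ∃ t, chk3 f_B00pm_022_s3 t 4 3 1 = true := ex3_b k1_B00pm_022_s3 t12_B00pm_022_s3

theorem t14_B00pm_022_s3 : ∃ t, chk3 f_B00pm_022_s3 t 2 3 1 = true := ex3_a t13_B00pm_022_s3 k7_B00pm_022_s3

theorem t15_B00pm_022_s3 : ∃ t, chk3 f_B00pm_022_s3 t 2 1 1 = true := ex3_b k0_B00pm_022_s3 t14_B00pm_022_s3

theorem t16_B00pm_022_s3 : ∃ t, chk3 f_B00pm_022_s3 t 1 1 1 = true := ex3_a t15_B00pm_022_s3 k8_B00pm_022_s3

theorem c_B00pm_022_s3 : CertF 0 536870912 0 536870912 50331648 16777216 false true false .pp 0 2 2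
    ndF0q0 ndF0q2 pcF2 cut_B00pm_022_s3 Ext.none :=
  certFK0 (fam := false) (s1 := true) (s2 := false) (a := 0) (b := 2) (c := 2) (cn := .pp) (n1 := ndF0q0) (n2 := ndF0q2) (pc := pcF2) (cut := cut_B00pm_022_s3) (xt := Ext.none) (P1 := 0) (W1 := 536870912) (P2 := 0) (W2 := 536870912) (P3 := 50331648) (W3 := 16777216)
    rfl rfl rfl t16_B00pm_022_s3

theorem s_B00pm_022_s3 {κ x : ℝ} (hκ : κ * h0 = ken x) (hx : ((50331648 : ℕ) : ℝ) / S ≤ x)
    (hx' : x ≤ (((50331648 : ℕ) : ℝ) + (16777216 : ℕ)) / S)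
    (H : CutB (VF κ) PP tKF tL pcF (Cut.of [[⟨0, 0, 0, 50331648⟩, ⟨1, 1, 0, 50331648⟩, ⟨2, 1, 0, 50331648⟩]]) 0 2 2 0 0 (sgb true) (sgb false) x) :
    AltB (VF κ) PP tKF tL pcF [⟨4, 0, 0, 2845415833⟩] 0 2 2 0 0 (sgb true) (sgb false) x :=
  strip_altB (m := 2845415833) false rfl hκ covF00 covF02 hx hx' c_B00pm_022_s3 H (noExt_B)

noncomputable def cut_B00pm_101_s1 : Cut := Cut.of [[⟨4, 0, 0, 1449551462⟩], [⟨0, 1, 0, 50331648⟩, ⟨1, 0, 0, 50331648⟩, ⟨2, 1, 0, 50331648⟩]]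

noncomputable def f_B00pm_101_s1 : ℕ → ℕ → ℕ → ℕ → Bool := onCell 0 536870912 536870912 536870912 50331648 16777216
    (rowFK 2 false true false .npn 1 0 1 (qsf 536870912 536870912 536870912 536870912 0) ndF0q1 ndF0q1 pcF0 cut_B00pm_101_s1 Ext.none)

def k0_B00pm_101_s1 : ∃ t, chk3 f_B00pm_101_s1 t 1 1 1 = true :=
  ⟨(a (b (l 6) (b (l 6) (a (b (a (l 6) (l 6)) (a (b (a (a (b (b (l 19229272) (l 18974064)) (b (l 18701024) (l 18367120))) (b (l 19059656) (l 18464104))) (b (l 6) (l 18536320))) (b (b (a (a (a (l 14) (l 18102744)) (l 18118920)) (l 18151848)) (a (a (l 14) (l 17806480)) (l 17871128))) (b (a (a (l 14) (a (l 14) (l 17489504))) (l 17738744)) (a (l 14) (a (b (l 17292016) (l 17281368)) (l 17454336)))))) (b (l 6) (b (l 18437552) (a (b (l 17700200) (a (l 17376896) (l 17465112))) (l 18027344)))))) (b (l 6) (b (l 6) (a (b (l 6) (a (l 17832720) (l 6))) (l 6))))))) (l 6)), by decide +kernel⟩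

theorem c_B00pm_101_s1 : CertF 536870912 536870912 536870912 536870912 50331648 16777216 false true false .npn 1 0 1
    ndF0q1 ndF0q1 pcF0 cut_B00pm_101_s1 Ext.none :=
  certFK2 (fam := false) (s1 := true) (s2 := false) (a := 1) (b := 0) (c := 1) (cn := .npn) (n1 := ndF0q1) (n2 := ndF0q1) (pc := pcF0) (cut := cut_B00pm_101_s1) (xt := Ext.none) (P1 := 536870912) (W1 := 536870912) (P2 := 536870912) (W2 := 536870912) (P3 := 50331648) (W3 := 16777216)
    rfl rfl rfl (fun _ => rfl) k0_B00pm_101_s1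

theorem s_B00pm_101_s1 {κ x : ℝ} (hκ : κ * h0 = ken x) (hx : ((50331648 : ℕ) : ℝ) / S ≤ x)
    (hx' : x ≤ (((50331648 : ℕ) : ℝ) + (16777216 : ℕ)) / S)
    (H : CutB (VF κ) PP tKF tL pcF (Cut.of [[⟨0, 1, 0, 50331648⟩, ⟨1, 0, 0, 50331648⟩, ⟨2, 1, 0, 50331648⟩]]) 1 0 1 0 0 (sgb true) (sgb false) x) :
    AltB (VF κ) PP tKF tL pcF [⟨3, 0, 0, 1449551462⟩] 1 0 1 0 0 (sgb true) (sgb false) x :=
  strip_altB (m := 1449551462) true rfl hκ covF01 covF01 hx hx' c_B00pm_101_s1 H (noExt_B)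

noncomputable def cut_B00pm_101_s3 : Cut := Cut.of [[⟨3, 0, 0, 2845415833⟩], [⟨0, 1, 0, 50331648⟩, ⟨1, 0, 0, 50331648⟩, ⟨2, 1, 0, 50331648⟩]]

noncomputable def xt_B00pm_101_s3 : Ext := strExt dd false true false .u0 .u0m .s0m .npn 1 0 1 rfl rfl gl0 vv ndF0q1 ndF0q1

noncomputable def f_B00pm_101_s3 : ℕ → ℕ → ℕ → ℕ → Bool := onCell 536870912 536870912 536870912 536870912 50331648 16777216
    (rowFK 0 false true false .npn 1 0 1 (qsf 536870912 536870912 536870912 536870912 0) ndF0q1 ndF0q1 pcF0 cut_B00pm_101_s3 xt_B00pm_101_s3)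

def k0_B00pm_101_s3 : ∃ t, chk3 f_B00pm_101_s3 t 1 1 1 = true :=
  ⟨(a (b (a (b (b (l 549681935) (l 549677327)) (b (l 550824975) (a (l 549134095) (l 549933583)))) (b (a (b (l 1) (l 550220047)) (l 1)) (b (a (l 550789647) (l 551285775)) (a (l 550933263) (l 6))))) (b (a (b (a (l 17612544) (l 17910296)) (a (l 17685976) (l 6))) (l 6)) (l 6))) (b (a (b (l 1) (l 6)) (l 1)) (l 6))), by decide +kernel⟩

theorem c_B00pm_101_s3 : CertF 536870912 536870912 536870912 536870912 50331648 16777216 false true false .npn 1 0 1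
    ndF0q1 ndF0q1 pcF0 cut_B00pm_101_s3 xt_B00pm_101_s3 :=
  certFK0 (fam := false) (s1 := true) (s2 := false) (a := 1) (b := 0) (c := 1) (cn := .npn) (n1 := ndF0q1) (n2 := ndF0q1) (pc := pcF0) (cut := cut_B00pm_101_s3) (xt := xt_B00pm_101_s3) (P1 := 536870912) (W1 := 536870912) (P2 := 536870912) (W2 := 536870912) (P3 := 50331648) (W3 := 16777216)
    rfl rfl rfl k0_B00pm_101_s3

theorem s_B00pm_101_s3 {κ x : ℝ} (hκ : κ * h0 = ken x) (hx : ((50331648 : ℕ) : ℝ) / S ≤ x)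
    (hx' : x ≤ (((50331648 : ℕ) : ℝ) + (16777216 : ℕ)) / S)
    (H : CutB (VF κ) PP tKF tL pcF (Cut.of [[⟨0, 1, 0, 50331648⟩, ⟨1, 0, 0, 50331648⟩, ⟨2, 1, 0, 50331648⟩]]) 1 0 1 0 0 (sgb true) (sgb false) x) :
    AltB (VF κ) PP tKF tL pcF [⟨4, 0, 0, 2845415833⟩] 1 0 1 0 0 (sgb true) (sgb false) x :=
  strip_altB (m := 2845415833) false rfl hκ covF01 covF01 hx hx' c_B00pm_101_s3 H ((okx hx hx').extB (T := tt) (sideF hx hx') hκ rfl rfl (.O 1 true) (.O 1 false) (Or.inl rfl))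

noncomputable def cut_B00pm_102_s1 : Cut := Cut.of [[⟨4, 0, 0, 1449551462⟩], [⟨0, 1, 0, 12582912⟩, ⟨1, 0, 0, 12582912⟩, ⟨2, 1, 0, 12582912⟩]]

noncomputable def xt_B00pm_102_s1 : Ext := strExt dd false true false .u0 .u2 .u0m .npp 1 0 2 rfl rfl gf0 vv ndF0q1 ndF0q2

noncomputable def f_B00pm_102_s1 : ℕ → ℕ → ℕ → ℕ → Bool := onCell 536870912 536870912 0 536870912 50331648 16777216
    (rowFK 0 false true false .npp 1 0 2 (qsf 536870912 536870912 0 536870912 0) ndF0q1 ndF0q2 pcF0 cut_B00pm_102_s1 xt_B00pm_102_s1)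

def k0_B00pm_102_s1 : ∃ t, chk3 f_B00pm_102_s1 t 2 1 1 = true :=
  ⟨(b (a (b (l 2) (b (l 2) (l 17531320))) (b (a (l 540797711) (b (l 3) (l 541115663))) (a (b (l 540474127) (l 17003680)) (b (l 540961295) (l 540790287))))) (b (a (l 6) (a (b (l 16979832) (l 6)) (b (l 17016232) (l 17003096)))) (a (l 6) (l 6)))), by decide +kernel⟩

def k1_B00pm_102_s1 : ∃ t, chk3 f_B00pm_102_s1 t 3 2 1 = true :=
  ⟨(a (b (l 3) (a (l 541500431) (l 3))) (l 3)), by decide +kernel⟩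

def k2_B00pm_102_s1 : ∃ t, chk3 f_B00pm_102_s1 t 3 3 1 = true :=
  ⟨(b (b (a (a (l 541274127) (l 541906191)) (l 3)) (a (a (l 17112672) (l 542468111)) (a (a (l 542165263) (a (l 542322191) (l 3))) (l 3)))) (a (a (b (a (l 17636496) (l 17496008)) (l 6)) (b (a (b (l 16949384) (l 17195032)) (l 17091968)) (b (a (l 17569472) (l 17510168)) (b (l 17711112) (l 18006928))))) (b (a (a (l 542854671) (a (l 542181135) (l 542310927))) (b (l 3) (a (a (l 542333455) (a (l 542352399) (l 3))) (l 3)))) (a (b (a (a (l 17256384) (l 17215616)) (a (b (l 16885088) (l 17011712)) (l 542127631))) (b (a (b (l 17217056) (l 17233136)) (a (b (l 17067672) (l 17087848)) (l 17200672))) (a (l 17561208) (b (l 17306064) (l 17411968))))) (b (a (a (l 542259215) (a (l 542262543) (l 542330383))) (a (a (l 542958863) (a (l 542393871) (l 3))) (l 3))) (a (b (a (a (l 17069320) (l 17046440)) (b (l 543061007) (b (l 16836904) (l 16938184)))) (a (b (l 17071728) (l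 17174848)) (b (a (l 16991552) (l 16949528)) (l 17157696)))) (b (a (a (a (l 16852200) (l 542182927)) (a (l 542219535) (l 542807311))) (b (l 3) (a (a (l 543023119) (a (l 542167055) (l 3))) (l 3)))) (a (b (a (a (l 16925272) (l 16913432)) (a (b (l 16807744) (l 16902600)) (l 542152975))) (a (a (l 17006368) (l 17089696)) (b (a (l 16926752) (l 16905688)) (l 16966912)))) (b (a (a (l 543569423) (a (l 542168591) (l 543021839))) (a (a (a (l 542177807) (l 542205455)) (a (l 543583759) (l 3))) (l 3))) (a (b (a (a (l 16893560) (l 16845648)) (a (b (l 16792704) (l 16882072)) (l 542125071))) (a (l 16959648) (b (l 16846800) (l 16913752)))) (b (a (a (a (l 16796280) (l 542102287)) (l 14)) (l 14)) (l 14)))))))))))), by decide +kernel⟩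

theorem t3_B00pm_102_s1 : ∃ t, chk3 f_B00pm_102_s1 t 3 1 1 = true := ex3_b k1_B00pm_102_s1 k2_B00pm_102_s1

theorem t4_B00pm_102_s1 : ∃ t, chk3 f_B00pm_102_s1 t 1 1 1 = true := ex3_a k0_B00pm_102_s1 t3_B00pm_102_s1

theorem c_B00pm_102_s1 : CertF 536870912 536870912 0 536870912 50331648 16777216 false true false .npp 1 0 2
    ndF0q1 ndF0q2 pcF0 cut_B00pm_102_s1 xt_B00pm_102_s1 :=
  certFK0 (fam := false) (s1 := true) (s2 := false) (a := 1) (b := 0) (c := 2) (cn := .npp) (n1 := ndF0q1) (n2 := ndF0q2) (pc := pcF0) (cut := cut_B00pm_102_s1) (xt := xt_B00pm_102_s1) (P1 := 536870912) (W1 := 536870912) (P2 := 0) (W2 := 536870912) (P3 := 50331648) (W3 := 16777216)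
    rfl rfl rfl t4_B00pm_102_s1

theorem s_B00pm_102_s1 {κ x : ℝ} (hκ : κ * h0 = ken x) (hx : ((50331648 : ℕ) : ℝ) / S ≤ x)
    (hx' : x ≤ (((50331648 : ℕ) : ℝ) + (16777216 : ℕ)) / S)
    (H : CutB (VF κ) PP tKF tL pcF (Cut.of [[⟨0, 1, 0, 12582912⟩, ⟨1, 0, 0, 12582912⟩, ⟨2, 1, 0, 12582912⟩]]) 1 0 2 0 0 (sgb true) (sgb false) x) :
    AltB (VF κ) PP tKF tL pcF [⟨3, 0, 0, 1449551462⟩] 1 0 2 0 0 (sgb true) (sgb false) x :=
  strip_altB (m := 1449551462) true rfl hκ covF01 covF02 hx hx' c_B00pm_102_s1 H ((okx hx hx').extB (T := tt) (sideF hx hx') hκ rfl rfl (.O 1 true) (.O 2 false) (Or.inl rfl))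

noncomputable def cut_B00pm_102_s3 : Cut := Cut.of [[⟨3, 0, 0, 2845415833⟩], [⟨0, 1, 0, 12582912⟩, ⟨1, 0, 0, 12582912⟩, ⟨2, 1, 0, 12582912⟩]]

noncomputable def f_B00pm_102_s3 : ℕ → ℕ → ℕ → ℕ → Bool := onCell 536870912 536870912 0 536870912 50331648 16777216
    (rowFK 0 false true false .npp 1 0 2 (qsf 536870912 536870912 0 536870912 0) ndF0q1 ndF0q2 pcF0 cut_B00pm_102_s3 Ext.none)

def k0_B00pm_102_s3 : ∃ t, chk3 f_B00pm_102_s3 t 1 1 1 = true :=
  ⟨(l 6), by decide +kernel⟩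

theorem c_B00pm_102_s3 : CertF 536870912 536870912 0 536870912 50331648 16777216 false true false .npp 1 0 2
    ndF0q1 ndF0q2 pcF0 cut_B00pm_102_s3 Ext.none :=
  certFK0 (fam := false) (s1 := true) (s2 := false) (a := 1) (b := 0) (c := 2) (cn := .npp) (n1 := ndF0q1) (n2 := ndF0q2) (pc := pcF0) (cut := cut_B00pm_102_s3) (xt := Ext.none) (P1 := 536870912) (W1 := 536870912) (P2 := 0) (W2 := 536870912) (P3 := 50331648) (W3 := 16777216)
    rfl rfl rfl k0_B00pm_102_s3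

theorem s_B00pm_102_s3 {κ x : ℝ} (hκ : κ * h0 = ken x) (hx : ((50331648 : ℕ) : ℝ) / S ≤ x)
    (hx' : x ≤ (((50331648 : ℕ) : ℝ) + (16777216 : ℕ)) / S)
    (H : CutB (VF κ) PP tKF tL pcF (Cut.of [[⟨0, 1, 0, 12582912⟩, ⟨1, 0, 0, 12582912⟩, ⟨2, 1, 0, 12582912⟩]]) 1 0 2 0 0 (sgb true) (sgb false) x) :
    AltB (VF κ) PP tKF tL pcF [⟨4, 0, 0, 2845415833⟩] 1 0 2 0 0 (sgb true) (sgb false) x :=
  strip_altB (m := 2845415833) false rfl hκ covF01 covF02 hx hx' c_B00pm_102_s3 H (noExt_B)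

noncomputable def cut_B00pm_112_s1 : Cut := Cut.of [[⟨4, 0, 0, 1449551462⟩]]

noncomputable def xt_B00pm_112_s1 : Ext := strExt dd false true false .u0 .u2 .u0m .dn 1 1 2 rfl rfl gf1 vv ndF0q1 ndF0q2

noncomputable def f_B00pm_112_s1 : ℕ → ℕ → ℕ → ℕ → Bool := onCell 536870912 536870912 0 536870912 50331648 16777216
    (rowFK 0 false true false .dn 1 1 2 (qsf 536870912 536870912 0 536870912 1) ndF0q1 ndF0q2 pcF1 cut_B00pm_112_s1 xt_B00pm_112_s1)

def k0_B00pm_112_s1 : ∃ t, chk3 f_B00pm_112_s1 t 1 1 1 = true :=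
  ⟨(a (b (a (b (b (l 554482703) (a (l 552790287) (l 554775567))) (a (b (l 17890608) (l 6)) (b (l 554347535) (l 554066959)))) (a (b (b (l 558014991) (l 557381391)) (a (b (l 556240911) (l 555972111)) (l 1))) (l 1))) (a (b (l 6) (l 6)) (b (l 1) (l 1)))) (l 1)), by decide +kernel⟩

theorem c_B00pm_112_s1 : CertF 536870912 536870912 0 536870912 50331648 16777216 false true false .dn 1 1 2
    ndF0q1 ndF0q2 pcF1 cut_B00pm_112_s1 xt_B00pm_112_s1 :=
  certFK0 (fam := false) (s1 := true) (s2 := false) (a := 1) (b := 1) (c := 2) (cn := .dn) (n1 := ndF0q1) (n2 := ndF0q2) (pc := pcF1) (cut := cut_B00pm_112_s1) (xt := xt_B00pm_112_s1) (P1 := 536870912) (W1 := 536870912) (P2 := 0) (W2 := 536870912) (P3 := 50331648) (W3 := 16777216)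
    rfl rfl rfl k0_B00pm_112_s1

theorem s_B00pm_112_s1 {κ x : ℝ} (hκ : κ * h0 = ken x) (hx : ((50331648 : ℕ) : ℝ) / S ≤ x)
    (hx' : x ≤ (((50331648 : ℕ) : ℝ) + (16777216 : ℕ)) / S) :
    AltB (VF κ) PP tKF tL pcF [⟨3, 0, 0, 1449551462⟩] 1 1 2 0 0 (sgb true) (sgb false) x :=
  strip_altB (m := 1449551462) true rfl hκ covF01 covF02 hx hx' c_B00pm_112_s1 cutB_nil ((okx hx hx').extB (T := tt) (sideF hx hx') hκ rfl rfl (.O 1 true) (.O 2 false) (Or.inr rfl))

noncomputable def cut_B00pm_112_s3 : Cut := Cut.of [[⟨3, 0, 0, 2845415833⟩]]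

noncomputable def f_B00pm_112_s3 : ℕ → ℕ → ℕ → ℕ → Bool := onCell 536870912 536870912 0 536870912 50331648 16777216
    (rowFK 0 false true false .dn 1 1 2 (qsf 536870912 536870912 0 536870912 1) ndF0q1 ndF0q2 pcF1 cut_B00pm_112_s3 Ext.none)

def k0_B00pm_112_s3 : ∃ t, chk3 f_B00pm_112_s3 t 1 1 1 = true :=
  ⟨(l 6), by decide +kernel⟩

theorem c_B00pm_112_s3 : CertF 536870912 536870912 0 536870912 50331648 16777216 false true false .dn 1 1 2
    ndF0q1 ndF0q2 pcF1 cut_B00pm_112_s3 Ext.none :=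
  certFK0 (fam := false) (s1 := true) (s2 := false) (a := 1) (b := 1) (c := 2) (cn := .dn) (n1 := ndF0q1) (n2 := ndF0q2) (pc := pcF1) (cut := cut_B00pm_112_s3) (xt := Ext.none) (P1 := 536870912) (W1 := 536870912) (P2 := 0) (W2 := 536870912) (P3 := 50331648) (W3 := 16777216)
    rfl rfl rfl k0_B00pm_112_s3

theorem s_B00pm_112_s3 {κ x : ℝ} (hκ : κ * h0 = ken x) (hx : ((50331648 : ℕ) : ℝ) / S ≤ x)
    (hx' : x ≤ (((50331648 : ℕ) : ℝ) + (16777216 : ℕ)) / S) :
    AltB (VF κ) PP tKF tL pcF [⟨4, 0, 0, 2845415833⟩] 1 1 2 0 0 (sgb true) (sgb false) x :=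
  strip_altB (m := 2845415833) false rfl hκ covF01 covF02 hx hx' c_B00pm_112_s3 cutB_nil (noExt_B)

noncomputable def cut_B00pm_202_s1 : Cut := Cut.of [[⟨4, 0, 0, 1449551462⟩], [⟨0, 1, 0, 50331648⟩, ⟨1, 0, 0, 50331648⟩, ⟨2, 1, 0, 50331648⟩]]

noncomputable def f_B00pm_202_s1 : ℕ → ℕ → ℕ → ℕ → Bool := onCell 0 536870912 0 536870912 50331648 16777216
    (rowFK 0 false true false .pp 2 0 2 (qsf 0 536870912 0 536870912 0) ndF0q2 ndF0q2 pcF0 cut_B00pm_202_s1 Ext.none)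

def k0_B00pm_202_s1 : ∃ t, chk3 f_B00pm_202_s1 t 1 1 1 = true :=
  ⟨(a (l 3) (b (l 3) (a (l 3) (b (l 3) (b (l 3) (a (l 3) (l 14))))))), by decide +kernel⟩

theorem c_B00pm_202_s1 : CertF 0 536870912 0 536870912 50331648 16777216 false true false .pp 2 0 2
    ndF0q2 ndF0q2 pcF0 cut_B00pm_202_s1 Ext.none :=
  certFK0 (fam := false) (s1 := true) (s2 := false) (a := 2) (b := 0) (c := 2) (cn := .pp) (n1 := ndF0q2) (n2 := ndF0q2) (pc := pcF0) (cut := cut_B00pm_202_s1) (xt := Ext.none) (P1 := 0) (W1 := 536870912) (P2 := 0) (W2 := 536870912) (P3 := 50331648) (W3 := 16777216)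
    rfl rfl rfl k0_B00pm_202_s1

theorem s_B00pm_202_s1 {κ x : ℝ} (hκ : κ * h0 = ken x) (hx : ((50331648 : ℕ) : ℝ) / S ≤ x)
    (hx' : x ≤ (((50331648 : ℕ) : ℝ) + (16777216 : ℕ)) / S)
    (H : CutB (VF κ) PP tKF tL pcF (Cut.of [[⟨0, 1, 0, 50331648⟩, ⟨1, 0, 0, 50331648⟩, ⟨2, 1, 0, 50331648⟩]]) 2 0 2 0 0 (sgb true) (sgb false) x) :
    AltB (VF κ) PP tKF tL pcF [⟨3, 0, 0, 1449551462⟩] 2 0 2 0 0 (sgb true) (sgb false) x :=
  strip_altB (m := 1449551462) true rfl hκ covF02 covF02 hx hx' c_B00pm_202_s1 H (noExt_B)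

noncomputable def cut_B00pm_202_s3 : Cut := Cut.of [[⟨3, 0, 0, 2845415833⟩], [⟨0, 1, 0, 50331648⟩, ⟨1, 0, 0, 50331648⟩, ⟨2, 1, 0, 50331648⟩]]

noncomputable def f_B00pm_202_s3 : ℕ → ℕ → ℕ → ℕ → Bool := onCell 0 536870912 0 536870912 50331648 16777216
    (rowFK 0 false true false .pp 2 0 2 (qsf 0 536870912 0 536870912 0) ndF0q2 ndF0q2 pcF0 cut_B00pm_202_s3 Ext.none)

def k0_B00pm_202_s3 : ∃ t, chk3 f_B00pm_202_s3 t 1 1 1 = true :=
  ⟨(l 6), by decide +kernel⟩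

theorem c_B00pm_202_s3 : CertF 0 536870912 0 536870912 50331648 16777216 false true false .pp 2 0 2
    ndF0q2 ndF0q2 pcF0 cut_B00pm_202_s3 Ext.none :=
  certFK0 (fam := false) (s1 := true) (s2 := false) (a := 2) (b := 0) (c := 2) (cn := .pp) (n1 := ndF0q2) (n2 := ndF0q2) (pc := pcF0) (cut := cut_B00pm_202_s3) (xt := Ext.none) (P1 := 0) (W1 := 536870912) (P2 := 0) (W2 := 536870912) (P3 := 50331648) (W3 := 16777216)
    rfl rfl rfl k0_B00pm_202_s3

theorem s_B00pm_202_s3 {κ x : ℝ} (hκ : κ * h0 = ken x) (hx : ((50331648 : ℕ) : ℝ) / S ≤ x)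
    (hx' : x ≤ (((50331648 : ℕ) : ℝ) + (16777216 : ℕ)) / S)
    (H : CutB (VF κ) PP tKF tL pcF (Cut.of [[⟨0, 1, 0, 50331648⟩, ⟨1, 0, 0, 50331648⟩, ⟨2, 1, 0, 50331648⟩]]) 2 0 2 0 0 (sgb true) (sgb false) x) :
    AltB (VF κ) PP tKF tL pcF [⟨4, 0, 0, 2845415833⟩] 2 0 2 0 0 (sgb true) (sgb false) x :=
  strip_altB (m := 2845415833) false rfl hκ covF02 covF02 hx hx' c_B00pm_202_s3 H (noExt_B)

noncomputable def cut_B00mm_001_s1 : Cut := Cut.of [[⟨4, 0, 0, 1449551462⟩]]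

noncomputable def f_B00mm_001_s1 : ℕ → ℕ → ℕ → ℕ → Bool := onCell 0 536870912 0 536870912 50331648 16777216
    (rowFK 1 false false false .up 0 0 1 (qsf 0 536870912 536870912 536870912 0) ndF0q0 ndF0q1 pcF0 cut_B00mm_001_s1 Ext.none)

def k0_B00mm_001_s1 : ∃ t, chk3 f_B00mm_001_s1 t 1 1 1 = true :=
  ⟨(l 3), by decide +kernel⟩

theorem c_B00mm_001_s1 : CertF 0 536870912 536870912 536870912 50331648 16777216 false false false .up 0 0 1
    ndF0q0 ndF0q1 pcF0 cut_B00mm_001_s1 Ext.none :=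
  certFK1 (fam := false) (s1 := false) (s2 := false) (a := 0) (b := 0) (c := 1) (cn := .up) (n1 := ndF0q0) (n2 := ndF0q1) (pc := pcF0) (cut := cut_B00mm_001_s1) (xt := Ext.none) (P1 := 0) (W1 := 536870912) (P2 := 536870912) (W2 := 536870912) (P3 := 50331648) (W3 := 16777216)
    rfl rfl rfl (fun _ => rfl) k0_B00mm_001_s1

theorem s_B00mm_001_s1 {κ x : ℝ} (hκ : κ * h0 = ken x) (hx : ((50331648 : ℕ) : ℝ) / S ≤ x)
    (hx' : x ≤ (((50331648 : ℕ) : ℝ) + (16777216 : ℕ)) / S) :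
    AltB (VF κ) PP tKF tL pcF [⟨3, 0, 0, 1449551462⟩] 0 0 1 0 0 (sgb false) (sgb false) x :=
  strip_altB (m := 1449551462) true rfl hκ covF00 covF01 hx hx' c_B00mm_001_s1 cutB_nil (noExt_B)

noncomputable def cut_B00mm_001_s3 : Cut := Cut.of [[⟨3, 0, 0, 2845415833⟩]]

noncomputable def f_B00mm_001_s3 : ℕ → ℕ → ℕ → ℕ → Bool := onCell 0 536870912 536870912 536870912 50331648 16777216
    (rowFK 0 false false false .up 0 0 1 (qsf 0 536870912 536870912 536870912 0) ndF0q0 ndF0q1 pcF0 cut_B00mm_001_s3 Ext.none)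

def k0_B00mm_001_s3 : ∃ t, chk3 f_B00mm_001_s3 t 1 1 1 = true :=
  ⟨(l 6), by decide +kernel⟩

theorem c_B00mm_001_s3 : CertF 0 536870912 536870912 536870912 50331648 16777216 false false false .up 0 0 1
    ndF0q0 ndF0q1 pcF0 cut_B00mm_001_s3 Ext.none :=
  certFK0 (fam := false) (s1 := false) (s2 := false) (a := 0) (b := 0) (c := 1) (cn := .up) (n1 := ndF0q0) (n2 := ndF0q1) (pc := pcF0) (cut := cut_B00mm_001_s3) (xt := Ext.none) (P1 := 0) (W1 := 536870912) (P2 := 536870912) (W2 := 536870912) (P3 := 50331648) (W3 := 16777216)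
    rfl rfl rfl k0_B00mm_001_s3

theorem s_B00mm_001_s3 {κ x : ℝ} (hκ : κ * h0 = ken x) (hx : ((50331648 : ℕ) : ℝ) / S ≤ x)
    (hx' : x ≤ (((50331648 : ℕ) : ℝ) + (16777216 : ℕ)) / S) :
    AltB (VF κ) PP tKF tL pcF [⟨4, 0, 0, 2845415833⟩] 0 0 1 0 0 (sgb false) (sgb false) x :=
  strip_altB (m := 2845415833) false rfl hκ covF00 covF01 hx hx' c_B00mm_001_s3 cutB_nil (noExt_B)

noncomputable def cut_B00mm_011_s1 : Cut := Cut.of [[⟨4, 0, 0, 1449551462⟩]]

noncomputable def f_B00mm_011_s1 : ℕ → ℕ → ℕ → ℕ → Bool := onCell 0 536870912 536870912 536870912 50331648 16777216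
    (rowFK 1 false false false .pnn 0 1 1 (qsf 0 536870912 536870912 536870912 1) ndF0q0 ndF0q1 pcF1 cut_B00mm_011_s1 Ext.none)

def k0_B00mm_011_s1 : ∃ t, chk3 f_B00mm_011_s1 t 1 1 1 = true :=
  ⟨(l 5), by decide +kernel⟩

theorem c_B00mm_011_s1 : CertF 0 536870912 536870912 536870912 50331648 16777216 false false false .pnn 0 1 1
    ndF0q0 ndF0q1 pcF1 cut_B00mm_011_s1 Ext.none :=
  certFK1 (fam := false) (s1 := false) (s2 := false) (a := 0) (b := 1) (c := 1) (cn := .pnn) (n1 := ndF0q0) (n2 := ndF0q1) (pc := pcF1) (cut := cut_B00mm_011_s1) (xt := Ext.none) (P1 := 0) (W1 := 536870912) (P2 := 536870912) (W2 := 536870912) (P3 := 50331648) (W3 := 16777216)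
    rfl rfl rfl (fun _ => rfl) k0_B00mm_011_s1

theorem s_B00mm_011_s1 {κ x : ℝ} (hκ : κ * h0 = ken x) (hx : ((50331648 : ℕ) : ℝ) / S ≤ x)
    (hx' : x ≤ (((50331648 : ℕ) : ℝ) + (16777216 : ℕ)) / S) :
    AltB (VF κ) PP tKF tL pcF [⟨3, 0, 0, 1449551462⟩] 0 1 1 0 0 (sgb false) (sgb false) x :=
  strip_altB (m := 1449551462) true rfl hκ covF00 covF01 hx hx' c_B00mm_011_s1 cutB_nil (noExt_B)

noncomputable def cut_B00mm_011_s3 : Cut := Cut.of [[⟨3, 0, 0, 2845415833⟩]]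

noncomputable def f_B00mm_011_s3 : ℕ → ℕ → ℕ → ℕ → Bool := onCell 0 536870912 536870912 536870912 50331648 16777216
    (rowFK 0 false false false .pnn 0 1 1 (qsf 0 536870912 536870912 536870912 1) ndF0q0 ndF0q1 pcF1 cut_B00mm_011_s3 Ext.none)

def k0_B00mm_011_s3 : ∃ t, chk3 f_B00mm_011_s3 t 1 1 1 = true :=
  ⟨(l 6), by decide +kernel⟩

theorem c_B00mm_011_s3 : CertF 0 536870912 536870912 536870912 50331648 16777216 false false false .pnn 0 1 1
    ndF0q0 ndF0q1 pcF1 cut_B00mm_011_s3 Ext.none :=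
  certFK0 (fam := false) (s1 := false) (s2 := false) (a := 0) (b := 1) (c := 1) (cn := .pnn) (n1 := ndF0q0) (n2 := ndF0q1) (pc := pcF1) (cut := cut_B00mm_011_s3) (xt := Ext.none) (P1 := 0) (W1 := 536870912) (P2 := 536870912) (W2 := 536870912) (P3 := 50331648) (W3 := 16777216)
    rfl rfl rfl k0_B00mm_011_s3

theorem s_B00mm_011_s3 {κ x : ℝ} (hκ : κ * h0 = ken x) (hx : ((50331648 : ℕ) : ℝ) / S ≤ x)
    (hx' : x ≤ (((50331648 : ℕ) : ℝ) + (16777216 : ℕ)) / S) :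
    AltB (VF κ) PP tKF tL pcF [⟨4, 0, 0, 2845415833⟩] 0 1 1 0 0 (sgb false) (sgb false) x :=
  strip_altB (m := 2845415833) false rfl hκ covF00 covF01 hx hx' c_B00mm_011_s3 cutB_nil (noExt_B)

noncomputable def cut_B00mm_012_s1 : Cut := Cut.of [[⟨4, 0, 0, 1449551462⟩]]

noncomputable def f_B00mm_012_s1 : ℕ → ℕ → ℕ → ℕ → Bool := onCell 0 536870912 0 536870912 50331648 16777216
    (rowFK 0 false false false .pnp 0 1 2 (qsf 0 536870912 0 536870912 1) ndF0q0 ndF0q2 pcF1 cut_B00mm_012_s1 Ext.none)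

def k0_B00mm_012_s1 : ∃ t, chk3 f_B00mm_012_s1 t 1 1 1 = true :=
  ⟨(l 5), by decide +kernel⟩

theorem c_B00mm_012_s1 : CertF 0 536870912 0 536870912 50331648 16777216 false false false .pnp 0 1 2
    ndF0q0 ndF0q2 pcF1 cut_B00mm_012_s1 Ext.none :=
  certFK0 (fam := false) (s1 := false) (s2 := false) (a := 0) (b := 1) (c := 2) (cn := .pnp) (n1 := ndF0q0) (n2 := ndF0q2) (pc := pcF1) (cut := cut_B00mm_012_s1) (xt := Ext.none) (P1 := 0) (W1 := 536870912) (P2 := 0) (W2 := 536870912) (P3 := 50331648) (W3 := 16777216)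
    rfl rfl rfl k0_B00mm_012_s1

theorem s_B00mm_012_s1 {κ x : ℝ} (hκ : κ * h0 = ken x) (hx : ((50331648 : ℕ) : ℝ) / S ≤ x)
    (hx' : x ≤ (((50331648 : ℕ) : ℝ) + (16777216 : ℕ)) / S) :
    AltB (VF κ) PP tKF tL pcF [⟨3, 0, 0, 1449551462⟩] 0 1 2 0 0 (sgb false) (sgb false) x :=
  strip_altB (m := 1449551462) true rfl hκ covF00 covF02 hx hx' c_B00mm_012_s1 cutB_nil (noExt_B)

noncomputable def cut_B00mm_012_s3 : Cut := Cut.of [[⟨3, 0, 0, 2845415833⟩]]

noncomputable def f_B00mm_012_s3 : ℕ → ℕ → ℕ → ℕ → Bool := onCell 0 536870912 0 536870912 50331648 16777216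
    (rowFK 0 false false false .pnp 0 1 2 (qsf 0 536870912 0 536870912 1) ndF0q0 ndF0q2 pcF1 cut_B00mm_012_s3 Ext.none)

def k0_B00mm_012_s3 : ∃ t, chk3 f_B00mm_012_s3 t 1 1 1 = true :=
  ⟨(l 5), by decide +kernel⟩

theorem c_B00mm_012_s3 : CertF 0 536870912 0 536870912 50331648 16777216 false false false .pnp 0 1 2
    ndF0q0 ndF0q2 pcF1 cut_B00mm_012_s3 Ext.none :=
  certFK0 (fam := false) (s1 := false) (s2 := false) (a := 0) (b := 1) (c := 2) (cn := .pnp) (n1 := ndF0q0) (n2 := ndF0q2) (pc := pcF1) (cut := cut_B00mm_012_s3) (xt := Ext.none) (P1 := 0) (W1 := 536870912) (P2 := 0) (W2 := 536870912) (P3 := 50331648) (W3 := 16777216)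
    rfl rfl rfl k0_B00mm_012_s3

theorem s_B00mm_012_s3 {κ x : ℝ} (hκ : κ * h0 = ken x) (hx : ((50331648 : ℕ) : ℝ) / S ≤ x)
    (hx' : x ≤ (((50331648 : ℕ) : ℝ) + (16777216 : ℕ)) / S) :
    AltB (VF κ) PP tKF tL pcF [⟨4, 0, 0, 2845415833⟩] 0 1 2 0 0 (sgb false) (sgb false) x :=
  strip_altB (m := 2845415833) false rfl hκ covF00 covF02 hx hx' c_B00mm_012_s3 cutB_nil (noExt_B)

noncomputable def cut_B00mm_022_s1 : Cut := Cut.of [[⟨4, 0, 0, 1449551462⟩]]

noncomputable def f_B00mm_022_s1 : ℕ → ℕ → ℕ → ℕ → Bool := onCell 0 536870912 0 536870912 50331648 16777216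
    (rowFK 0 false false false .pp 0 2 2 (qsf 0 536870912 0 536870912 2) ndF0q0 ndF0q2 pcF2 cut_B00mm_022_s1 Ext.none)

def k0_B00mm_022_s1 : ∃ t, chk3 f_B00mm_022_s1 t 1 1 1 = true :=
  ⟨(l 5), by decide +kernel⟩

theorem c_B00mm_022_s1 : CertF 0 536870912 0 536870912 50331648 16777216 false false false .pp 0 2 2
    ndF0q0 ndF0q2 pcF2 cut_B00mm_022_s1 Ext.none :=
  certFK0 (fam := false) (s1 := false) (s2 := false) (a := 0) (b := 2) (c := 2) (cn := .pp) (n1 := ndF0q0) (n2 := ndF0q2) (pc := pcF2) (cut := cut_B00mm_022_s1) (xt := Ext.none) (P1 := 0) (W1 := 536870912) (P2 := 0) (W2 := 536870912) (P3 := 50331648) (W3 := 16777216)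
    rfl rfl rfl k0_B00mm_022_s1

theorem s_B00mm_022_s1 {κ x : ℝ} (hκ : κ * h0 = ken x) (hx : ((50331648 : ℕ) : ℝ) / S ≤ x)
    (hx' : x ≤ (((50331648 : ℕ) : ℝ) + (16777216 : ℕ)) / S) :
    AltB (VF κ) PP tKF tL pcF [⟨3, 0, 0, 1449551462⟩] 0 2 2 0 0 (sgb false) (sgb false) x :=
  strip_altB (m := 1449551462) true rfl hκ covF00 covF02 hx hx' c_B00mm_022_s1 cutB_nil (noExt_B)

noncomputable def cut_B00mm_022_s3 : Cut := Cut.of [[⟨3, 0, 0, 2845415833⟩]]

noncomputable def f_B00mm_022_s3 : ℕ → ℕ → ℕ → ℕ → Bool := onCell 0 536870912 0 536870912 50331648 16777216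
    (rowFK 0 false false false .pp 0 2 2 (qsf 0 536870912 0 536870912 2) ndF0q0 ndF0q2 pcF2 cut_B00mm_022_s3 Ext.none)

def k0_B00mm_022_s3 : ∃ t, chk3 f_B00mm_022_s3 t 1 1 1 = true :=
  ⟨(l 5), by decide +kernel⟩

theorem c_B00mm_022_s3 : CertF 0 536870912 0 536870912 50331648 16777216 false false false .pp 0 2 2
    ndF0q0 ndF0q2 pcF2 cut_B00mm_022_s3 Ext.none :=
  certFK0 (fam := false) (s1 := false) (s2 := false) (a := 0) (b := 2) (c := 2) (cn := .pp) (n1 := ndF0q0) (n2 := ndF0q2) (pc := pcF2) (cut := cut_B00mm_022_s3) (xt := Ext.none) (P1 := 0) (W1 := 536870912) (P2 := 0) (W2 := 536870912) (P3 := 50331648) (W3 := 16777216)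
    rfl rfl rfl k0_B00mm_022_s3

theorem s_B00mm_022_s3 {κ x : ℝ} (hκ : κ * h0 = ken x) (hx : ((50331648 : ℕ) : ℝ) / S ≤ x)
    (hx' : x ≤ (((50331648 : ℕ) : ℝ) + (16777216 : ℕ)) / S) :
    AltB (VF κ) PP tKF tL pcF [⟨4, 0, 0, 2845415833⟩] 0 2 2 0 0 (sgb false) (sgb false) x :=
  strip_altB (m := 2845415833) false rfl hκ covF00 covF02 hx hx' c_B00mm_022_s3 cutB_nil (noExt_B)

noncomputable def cut_B00mm_101_s1 : Cut := Cut.of [[⟨4, 0, 0, 1449551462⟩]]

noncomputable def f_B00mm_101_s1 : ℕ → ℕ → ℕ → ℕ → Bool := onCell 536870912 536870912 536870912 536870912 50331648 16777216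
    (rowFK 0 false false false .npn 1 0 1 (qsf 536870912 536870912 536870912 536870912 0) ndF0q1 ndF0q1 pcF0 cut_B00mm_101_s1 Ext.none)

def k0_B00mm_101_s1 : ∃ t, chk3 f_B00mm_101_s1 t 1 1 1 = true :=
  ⟨(l 3), by decide +kernel⟩

theorem c_B00mm_101_s1 : CertF 536870912 536870912 536870912 536870912 50331648 16777216 false false false .npn 1 0 1
    ndF0q1 ndF0q1 pcF0 cut_B00mm_101_s1 Ext.none :=
  certFK0 (fam := false) (s1 := false) (s2 := false) (a := 1) (b := 0) (c := 1) (cn := .npn) (n1 := ndF0q1) (n2 := ndF0q1) (pc := pcF0) (cut := cut_B00mm_101_s1) (xt := Ext.none) (P1 := 536870912) (W1 := 536870912) (P2 := 536870912) (W2 := 536870912) (P3 := 50331648) (W3 := 16777216)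
    rfl rfl rfl k0_B00mm_101_s1

theorem s_B00mm_101_s1 {κ x : ℝ} (hκ : κ * h0 = ken x) (hx : ((50331648 : ℕ) : ℝ) / S ≤ x)
    (hx' : x ≤ (((50331648 : ℕ) : ℝ) + (16777216 : ℕ)) / S) :
    AltB (VF κ) PP tKF tL pcF [⟨3, 0, 0, 1449551462⟩] 1 0 1 0 0 (sgb false) (sgb false) x :=
  strip_altB (m := 1449551462) true rfl hκ covF01 covF01 hx hx' c_B00mm_101_s1 cutB_nil (noExt_B)

noncomputable def cut_B00mm_101_s3 : Cut := Cut.of [[⟨3, 0, 0, 2845415833⟩]]

noncomputable def f_B00mm_101_s3 : ℕ → ℕ → ℕ → ℕ → Bool := onCell 536870912 536870912 536870912 536870912 50331648 16777216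
    (rowFK 0 false false false .npn 1 0 1 (qsf 536870912 536870912 536870912 536870912 0) ndF0q1 ndF0q1 pcF0 cut_B00mm_101_s3 Ext.none)

def k0_B00mm_101_s3 : ∃ t, chk3 f_B00mm_101_s3 t 1 1 1 = true :=
  ⟨(l 3), by decide +kernel⟩

theorem c_B00mm_101_s3 : CertF 536870912 536870912 536870912 536870912 50331648 16777216 false false false .npn 1 0 1
    ndF0q1 ndF0q1 pcF0 cut_B00mm_101_s3 Ext.none :=
  certFK0 (fam := false) (s1 := false) (s2 := false) (a := 1) (b := 0) (c := 1) (cn := .npn) (n1 := ndF0q1) (n2 := ndF0q1) (pc := pcF0) (cut := cut_B00mm_101_s3) (xt := Ext.none) (P1 := 536870912) (W1 := 536870912) (P2 := 536870912) (W2 := 536870912) (P3 := 50331648) (W3 := 16777216)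
    rfl rfl rfl k0_B00mm_101_s3

theorem s_B00mm_101_s3 {κ x : ℝ} (hκ : κ * h0 = ken x) (hx : ((50331648 : ℕ) : ℝ) / S ≤ x)
    (hx' : x ≤ (((50331648 : ℕ) : ℝ) + (16777216 : ℕ)) / S) :
    AltB (VF κ) PP tKF tL pcF [⟨4, 0, 0, 2845415833⟩] 1 0 1 0 0 (sgb false) (sgb false) x :=
  strip_altB (m := 2845415833) false rfl hκ covF01 covF01 hx hx' c_B00mm_101_s3 cutB_nil (noExt_B)

noncomputable def cut_B00mm_102_s1 : Cut := Cut.of [[⟨4, 0, 0, 1449551462⟩]]

noncomputable def f_B00mm_102_s1 : ℕ → ℕ → ℕ → ℕ → Bool := onCell 536870912 536870912 0 536870912 50331648 16777216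
    (rowFK 0 false false false .npp 1 0 2 (qsf 536870912 536870912 0 536870912 0) ndF0q1 ndF0q2 pcF0 cut_B00mm_102_s1 Ext.none)

def k0_B00mm_102_s1 : ∃ t, chk3 f_B00mm_102_s1 t 1 1 1 = true :=
  ⟨(a (l 5) (l 3)), by decide +kernel⟩

theorem c_B00mm_102_s1 : CertF 536870912 536870912 0 536870912 50331648 16777216 false false false .npp 1 0 2
    ndF0q1 ndF0q2 pcF0 cut_B00mm_102_s1 Ext.none :=
  certFK0 (fam := false) (s1 := false) (s2 := false) (a := 1) (b := 0) (c := 2) (cn := .npp) (n1 := ndF0q1) (n2 := ndF0q2) (pc := pcF0) (cut := cut_B00mm_102_s1) (xt := Ext.none) (P1 := 536870912) (W1 := 536870912) (P2 := 0) (W2 := 536870912) (P3 := 50331648) (W3 := 16777216)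
    rfl rfl rfl k0_B00mm_102_s1

theorem s_B00mm_102_s1 {κ x : ℝ} (hκ : κ * h0 = ken x) (hx : ((50331648 : ℕ) : ℝ) / S ≤ x)
    (hx' : x ≤ (((50331648 : ℕ) : ℝ) + (16777216 : ℕ)) / S) :
    AltB (VF κ) PP tKF tL pcF [⟨3, 0, 0, 1449551462⟩] 1 0 2 0 0 (sgb false) (sgb false) x :=
  strip_altB (m := 1449551462) true rfl hκ covF01 covF02 hx hx' c_B00mm_102_s1 cutB_nil (noExt_B)

noncomputable def cut_B00mm_102_s3 : Cut := Cut.of [[⟨3, 0, 0, 2845415833⟩]]

noncomputable def f_B00mm_102_s3 : ℕ → ℕ → ℕ → ℕ → Bool := onCell 536870912 536870912 0 536870912 50331648 16777216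
    (rowFK 0 false false false .npp 1 0 2 (qsf 536870912 536870912 0 536870912 0) ndF0q1 ndF0q2 pcF0 cut_B00mm_102_s3 Ext.none)

def k0_B00mm_102_s3 : ∃ t, chk3 f_B00mm_102_s3 t 1 1 1 = true :=
  ⟨(l 6), by decide +kernel⟩

theorem c_B00mm_102_s3 : CertF 536870912 536870912 0 536870912 50331648 16777216 false false false .npp 1 0 2
    ndF0q1 ndF0q2 pcF0 cut_B00mm_102_s3 Ext.none :=
  certFK0 (fam := false) (s1 := false) (s2 := false) (a := 1) (b := 0) (c := 2) (cn := .npp) (n1 := ndF0q1) (n2 := ndF0q2) (pc := pcF0) (cut := cut_B00mm_102_s3) (xt := Ext.none) (P1 := 536870912) (W1 := 536870912) (P2 := 0) (W2 := 536870912) (P3 := 50331648) (W3 := 16777216)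
    rfl rfl rfl k0_B00mm_102_s3

theorem s_B00mm_102_s3 {κ x : ℝ} (hκ : κ * h0 = ken x) (hx : ((50331648 : ℕ) : ℝ) / S ≤ x)
    (hx' : x ≤ (((50331648 : ℕ) : ℝ) + (16777216 : ℕ)) / S) :
    AltB (VF κ) PP tKF tL pcF [⟨4, 0, 0, 2845415833⟩] 1 0 2 0 0 (sgb false) (sgb false) x :=
  strip_altB (m := 2845415833) false rfl hκ covF01 covF02 hx hx' c_B00mm_102_s3 cutB_nil (noExt_B)

noncomputable def cut_B00mm_112_s1 : Cut := Cut.of [[⟨4, 0, 0, 1449551462⟩]]

noncomputable def f_B00mm_112_s1 : ℕ → ℕ → ℕ → ℕ → Bool := onCell 536870912 536870912 0 536870912 50331648 16777216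
    (rowFK 2 false false false .dn 1 1 2 (qsf 536870912 536870912 0 536870912 1) ndF0q1 ndF0q2 pcF1 cut_B00mm_112_s1 Ext.none)

def k0_B00mm_112_s1 : ∃ t, chk3 f_B00mm_112_s1 t 1 1 1 = true :=
  ⟨(l 5), by decide +kernel⟩

theorem c_B00mm_112_s1 : CertF 536870912 536870912 0 536870912 50331648 16777216 false false false .dn 1 1 2
    ndF0q1 ndF0q2 pcF1 cut_B00mm_112_s1 Ext.none :=
  certFK2 (fam := false) (s1 := false) (s2 := false) (a := 1) (b := 1) (c := 2) (cn := .dn) (n1 := ndF0q1) (n2 := ndF0q2) (pc := pcF1) (cut := cut_B00mm_112_s1) (xt := Ext.none) (P1 := 536870912) (W1 := 536870912) (P2 := 0) (W2 := 536870912) (P3 := 50331648) (W3 := 16777216)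
    rfl rfl rfl (fun _ => rfl) k0_B00mm_112_s1

theorem s_B00mm_112_s1 {κ x : ℝ} (hκ : κ * h0 = ken x) (hx : ((50331648 : ℕ) : ℝ) / S ≤ x)
    (hx' : x ≤ (((50331648 : ℕ) : ℝ) + (16777216 : ℕ)) / S) :
    AltB (VF κ) PP tKF tL pcF [⟨3, 0, 0, 1449551462⟩] 1 1 2 0 0 (sgb false) (sgb false) x :=
  strip_altB (m := 1449551462) true rfl hκ covF01 covF02 hx hx' c_B00mm_112_s1 cutB_nil (noExt_B)

noncomputable def cut_B00mm_112_s3 : Cut := Cut.of [[⟨3, 0, 0, 2845415833⟩]]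

noncomputable def f_B00mm_112_s3 : ℕ → ℕ → ℕ → ℕ → Bool := onCell 536870912 536870912 0 536870912 50331648 16777216
    (rowFK 0 false false false .dn 1 1 2 (qsf 536870912 536870912 0 536870912 1) ndF0q1 ndF0q2 pcF1 cut_B00mm_112_s3 Ext.none)

def k0_B00mm_112_s3 : ∃ t, chk3 f_B00mm_112_s3 t 1 1 1 = true :=
  ⟨(l 6), by decide +kernel⟩

theorem c_B00mm_112_s3 : CertF 536870912 536870912 0 536870912 50331648 16777216 false false false .dn 1 1 2
    ndF0q1 ndF0q2 pcF1 cut_B00mm_112_s3 Ext.none :=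
  certFK0 (fam := false) (s1 := false) (s2 := false) (a := 1) (b := 1) (c := 2) (cn := .dn) (n1 := ndF0q1) (n2 := ndF0q2) (pc := pcF1) (cut := cut_B00mm_112_s3) (xt := Ext.none) (P1 := 536870912) (W1 := 536870912) (P2 := 0) (W2 := 536870912) (P3 := 50331648) (W3 := 16777216)
    rfl rfl rfl k0_B00mm_112_s3

theorem s_B00mm_112_s3 {κ x : ℝ} (hκ : κ * h0 = ken x) (hx : ((50331648 : ℕ) : ℝ) / S ≤ x)
    (hx' : x ≤ (((50331648 : ℕ) : ℝ) + (16777216 : ℕ)) / S) :
    AltB (VF κ) PP tKF tL pcF [⟨4, 0, 0, 2845415833⟩] 1 1 2 0 0 (sgb false) (sgb false) x :=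
  strip_altB (m := 2845415833) false rfl hκ covF01 covF02 hx hx' c_B00mm_112_s3 cutB_nil (noExt_B)

noncomputable def cut_B00mm_202_s1 : Cut := Cut.of [[⟨4, 0, 0, 1449551462⟩]]

noncomputable def f_B00mm_202_s1 : ℕ → ℕ → ℕ → ℕ → Bool := onCell 0 536870912 0 536870912 50331648 16777216
    (rowFK 0 false false false .pp 2 0 2 (qsf 0 536870912 0 536870912 0) ndF0q2 ndF0q2 pcF0 cut_B00mm_202_s1 Ext.none)

def k0_B00mm_202_s1 : ∃ t, chk3 f_B00mm_202_s1 t 1 1 1 = true :=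
  ⟨(l 3), by decide +kernel⟩

theorem c_B00mm_202_s1 : CertF 0 536870912 0 536870912 50331648 16777216 false false false .pp 2 0 2
    ndF0q2 ndF0q2 pcF0 cut_B00mm_202_s1 Ext.none :=
  certFK0 (fam := false) (s1 := false) (s2 := false) (a := 2) (b := 0) (c := 2) (cn := .pp) (n1 := ndF0q2) (n2 := ndF0q2) (pc := pcF0) (cut := cut_B00mm_202_s1) (xt := Ext.none) (P1 := 0) (W1 := 536870912) (P2 := 0) (W2 := 536870912) (P3 := 50331648) (W3 := 16777216)
    rfl rfl rfl k0_B00mm_202_s1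

theorem s_B00mm_202_s1 {κ x : ℝ} (hκ : κ * h0 = ken x) (hx : ((50331648 : ℕ) : ℝ) / S ≤ x)
    (hx' : x ≤ (((50331648 : ℕ) : ℝ) + (16777216 : ℕ)) / S) :
    AltB (VF κ) PP tKF tL pcF [⟨3, 0, 0, 1449551462⟩] 2 0 2 0 0 (sgb false) (sgb false) x :=
  strip_altB (m := 1449551462) true rfl hκ covF02 covF02 hx hx' c_B00mm_202_s1 cutB_nil (noExt_B)

noncomputable def cut_B00mm_202_s3 : Cut := Cut.of [[⟨3, 0, 0, 2845415833⟩]]

noncomputable def f_B00mm_202_s3 : ℕ → ℕ → ℕ → ℕ → Bool := onCell 0 536870912 0 536870912 50331648 16777216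
    (rowFK 0 false false false .pp 2 0 2 (qsf 0 536870912 0 536870912 0) ndF0q2 ndF0q2 pcF0 cut_B00mm_202_s3 Ext.none)

def k0_B00mm_202_s3 : ∃ t, chk3 f_B00mm_202_s3 t 1 1 1 = true :=
  ⟨(l 3), by decide +kernel⟩

theorem c_B00mm_202_s3 : CertF 0 536870912 0 536870912 50331648 16777216 false false false .pp 2 0 2
    ndF0q2 ndF0q2 pcF0 cut_B00mm_202_s3 Ext.none :=
  certFK0 (fam := false) (s1 := false) (s2 := false) (a := 2) (b := 0) (c := 2) (cn := .pp) (n1 := ndF0q2) (n2 := ndF0q2) (pc := pcF0) (cut := cut_B00mm_202_s3) (xt := Ext.none) (P1 := 0) (W1 := 536870912) (P2 := 0) (W2 := 536870912) (P3 := 50331648) (W3 := 16777216)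
    rfl rfl rfl k0_B00mm_202_s3

theorem s_B00mm_202_s3 {κ x : ℝ} (hκ : κ * h0 = ken x) (hx : ((50331648 : ℕ) : ℝ) / S ≤ x)
    (hx' : x ≤ (((50331648 : ℕ) : ℝ) + (16777216 : ℕ)) / S) :
    AltB (VF κ) PP tKF tL pcF [⟨4, 0, 0, 2845415833⟩] 2 0 2 0 0 (sgb false) (sgb false) x :=
  strip_altB (m := 2845415833) false rfl hκ covF02 covF02 hx hx' c_B00mm_202_s3 cutB_nil (noExt_B)

noncomputable def cut_B04pp_001_s1 : Cut := Cut.of [[⟨4, 0, 0, 1449551462⟩]]

noncomputable def f_B04pp_001_s1 : ℕ → ℕ → ℕ → ℕ → Bool := onCell 0 536870912 0 536870912 50331648 16777216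
    (rowFK 1 false true true .up 0 0 1 (qsf 0 536870912 536870912 536870912 0) ndF0q0 ndF4q1 pcF0 cut_B04pp_001_s1 Ext.none)

def k0_B04pp_001_s1 : ∃ t, chk3 f_B04pp_001_s1 t 1 1 1 = true :=
  ⟨(l 3), by decide +kernel⟩

theorem c_B04pp_001_s1 : CertF 0 536870912 536870912 536870912 50331648 16777216 false true true .up 0 0 1
    ndF0q0 ndF4q1 pcF0 cut_B04pp_001_s1 Ext.none :=
  certFK1 (fam := false) (s1 := true) (s2 := true) (a := 0) (b := 0) (c := 1) (cn := .up) (n1 := ndF0q0) (n2 := ndF4q1) (pc := pcF0) (cut := cut_B04pp_001_s1) (xt := Ext.none) (P1 := 0) (W1 := 536870912) (P2 := 536870912) (W2 := 536870912) (P3 := 50331648) (W3 := 16777216)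
    rfl rfl rfl (fun _ => rfl) k0_B04pp_001_s1

theorem s_B04pp_001_s1 {κ x : ℝ} (hκ : κ * h0 = ken x) (hx : ((50331648 : ℕ) : ℝ) / S ≤ x)
    (hx' : x ≤ (((50331648 : ℕ) : ℝ) + (16777216 : ℕ)) / S) :
    AltB (VF κ) PP tKF tL pcF [⟨3, 0, 0, 1449551462⟩] 0 0 1 0 4 (sgb true) (sgb true) x :=
  strip_altB (m := 1449551462) true rfl hκ covF00 covF41 hx hx' c_B04pp_001_s1 cutB_nil (noExt_B)

noncomputable def cut_B04pp_011_s1 : Cut := Cut.of [[⟨4, 0, 0, 1449551462⟩], [⟨0, 0, 0, 50331648⟩, ⟨1, 1, 0, 50331648⟩, ⟨2, 1, 0, 50331648⟩]]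

noncomputable def f_B04pp_011_s1 : ℕ → ℕ → ℕ → ℕ → Bool := onCell 0 536870912 536870912 536870912 50331648 16777216
    (rowFK 1 false true true .pnn 0 1 1 (qsf 0 536870912 536870912 536870912 1) ndF0q0 ndF4q1 pcF1 cut_B04pp_011_s1 Ext.none)

def k0_B04pp_011_s1 : ∃ t, chk3 f_B04pp_011_s1 t 1 1 1 = true :=
  ⟨(b (l 3) (a (b (l 3) (a (b (l 3) (a (b (l 3) (a (l 14) (l 3))) (l 3))) (l 3))) (l 3))), by decide +kernel⟩

theorem c_B04pp_011_s1 : CertF 0 536870912 536870912 536870912 50331648 16777216 false true true .pnn 0 1 1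
    ndF0q0 ndF4q1 pcF1 cut_B04pp_011_s1 Ext.none :=
  certFK1 (fam := false) (s1 := true) (s2 := true) (a := 0) (b := 1) (c := 1) (cn := .pnn) (n1 := ndF0q0) (n2 := ndF4q1) (pc := pcF1) (cut := cut_B04pp_011_s1) (xt := Ext.none) (P1 := 0) (W1 := 536870912) (P2 := 536870912) (W2 := 536870912) (P3 := 50331648) (W3 := 16777216)
    rfl rfl rfl (fun _ => rfl) k0_B04pp_011_s1

theorem s_B04pp_011_s1 {κ x : ℝ} (hκ : κ * h0 = ken x) (hx : ((50331648 : ℕ) : ℝ) / S ≤ x)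
    (hx' : x ≤ (((50331648 : ℕ) : ℝ) + (16777216 : ℕ)) / S)
    (H : CutB (VF κ) PP tKF tL pcF (Cut.of [[⟨0, 0, 0, 50331648⟩, ⟨1, 1, 0, 50331648⟩, ⟨2, 1, 0, 50331648⟩]]) 0 1 1 0 4 (sgb true) (sgb true) x) :
    AltB (VF κ) PP tKF tL pcF [⟨3, 0, 0, 1449551462⟩] 0 1 1 0 4 (sgb true) (sgb true) x :=
  strip_altB (m := 1449551462) true rfl hκ covF00 covF41 hx hx' c_B04pp_011_s1 H (noExt_B)

noncomputable def cut_B04pp_012_s1 : Cut := Cut.of [[⟨4, 0, 0, 1449551462⟩], [⟨0, 0, 0, 50331648⟩, ⟨1, 1, 0, 50331648⟩, ⟨2, 1, 0, 50331648⟩]]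

noncomputable def f_B04pp_012_s1 : ℕ → ℕ → ℕ → ℕ → Bool := onCell 0 536870912 536870912 536870912 50331648 16777216
    (rowFK 1 false true true .pnp 0 1 2 (qsf 0 536870912 1073741824 536870912 1) ndF0q0 ndF4q2 pcF1 cut_B04pp_012_s1 Ext.none)

def k0_B04pp_012_s1 : ∃ t, chk3 f_B04pp_012_s1 t 1 1 1 = true :=
  ⟨(b (l 3) (a (b (l 3) (a (a (a (b (l 1) (b (l 3) (l 14))) (l 3)) (l 3)) (l 3))) (l 3))), by decide +kernel⟩

theorem c_B04pp_012_s1 : CertF 0 536870912 1073741824 536870912 50331648 16777216 false true true .pnp 0 1 2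
    ndF0q0 ndF4q2 pcF1 cut_B04pp_012_s1 Ext.none :=
  certFK1 (fam := false) (s1 := true) (s2 := true) (a := 0) (b := 1) (c := 2) (cn := .pnp) (n1 := ndF0q0) (n2 := ndF4q2) (pc := pcF1) (cut := cut_B04pp_012_s1) (xt := Ext.none) (P1 := 0) (W1 := 536870912) (P2 := 1073741824) (W2 := 536870912) (P3 := 50331648) (W3 := 16777216)
    rfl rfl rfl (fun _ => rfl) k0_B04pp_012_s1

theorem s_B04pp_012_s1 {κ x : ℝ} (hκ : κ * h0 = ken x) (hx : ((50331648 : ℕ) : ℝ) / S ≤ x)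
    (hx' : x ≤ (((50331648 : ℕ) : ℝ) + (16777216 : ℕ)) / S)
    (H : CutB (VF κ) PP tKF tL pcF (Cut.of [[⟨0, 0, 0, 50331648⟩, ⟨1, 1, 0, 50331648⟩, ⟨2, 1, 0, 50331648⟩]]) 0 1 2 0 4 (sgb true) (sgb true) x) :
    AltB (VF κ) PP tKF tL pcF [⟨3, 0, 0, 1449551462⟩] 0 1 2 0 4 (sgb true) (sgb true) x :=
  strip_altB (m := 1449551462) true rfl hκ covF00 covF42 hx hx' c_B04pp_012_s1 H (noExt_B)

noncomputable def cut_B04pp_022_s1 : Cut := Cut.of [[⟨4, 0, 0, 1449551462⟩], [⟨0, 0, 0, 16777216⟩, ⟨1, 1, 0, 16777216⟩, ⟨2, 1, 0, 16777216⟩]]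

noncomputable def xt_B04pp_022_s1 : Ext := strExt dd false true true .u0 .s2 .u2 .pp 0 2 2 rfl rfl gf2 vv ndF0q0 ndF4q2

noncomputable def f_B04pp_022_s1 : ℕ → ℕ → ℕ → ℕ → Bool := onCell 0 536870912 1073741824 536870912 50331648 16777216
    (rowFK 1 false true true .pp 0 2 2 (qsf 0 536870912 1073741824 536870912 2) ndF0q0 ndF4q2 pcF2 cut_B04pp_022_s1 xt_B04pp_022_s1)

def k0_B04pp_022_s1 : ∃ t, chk3 f_B04pp_022_s1 t 32 64 1 = true :=
  ⟨(a (b (l 14) (a (l 14) (a (l 14) (a (l 14) (a (l 14) (a (l 14) (b (l 14) (l 527466111)))))))) (a (a (b (l 14) (b (a (l 14) (a (l 14) (b (l 14) (l 527762559)))) (a (a (a (l 527201663) (l 527206015)) (b (l 528300927) (l 528318591))) (a (b (l 528041599) (l 527790719)) (l 528298111))))) (b (l 3) (a (a (b (b (l 14) (l 527502975)) (l 528038527)) (b (l 528510847) (l 527778687))) (a (b (l 527982719) (l 527518847)) (b (l 527722879) (l 527259007)))))) (b (l 3) (b (a (a (a (l 527462783) (l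 3)) (l 3)) (l 3)) (a (a (a (l 527267711) (l 527007615)) (b (l 528642687) (l 528392063))) (a (l 528640127) (l 528121215))))))), by decide +kernel⟩

def k1_B04pp_022_s1 : ∃ t, chk3 f_B04pp_022_s1 t 32 130 1 = true :=
  ⟨(b (a (a (l 14) (a (a (l 14) (a (l 14) (b (l 14) (l 16766448)))) (a (a (a (l 528556159) (l 528291967)) (a (l 528028031) (l 527763839))) (a (a (l 527499647) (l 527503743)) (a (l 527239551) (l 527243903)))))) (a (a (a (a (a (l 526979455) (l 526983807)) (b (l 528335487) (l 16771512))) (a (l 528604031) (l 528076159))) (a (a (l 527816319) (l 527556735)) (a (l 527296895) (l 527305599)))) (a (a (a (l 527045759) (l 527054207)) (a (l 527062655) (l 527071359))) (a (l 528418175) (l 528167807))))) (a (b (a (l 14) (a (a (c (l 16763832) (l 16763776)) (a (l 16764424) (l 16764832))) (a (a (l 16765248) (l 16765656)) (a (l 16766064) (l 16766472))))) (a (a (l 14) (a (l 14) (l 16761360))) (a (a (l 16762192) (l 16763016))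 (a (l 16763840) (l 16764664))))) (a (a (a (b (a (l 16766880) (l 16767280)) (l 16768096)) (a (l 528373631) (l 528114047))) (a (a (l 527585919) (l 527594623)) (a (l 527335039) (l 527075199)))) (a (a (a (l 527083903) (l 527092351)) (a (l 527101055) (l 527109503))) (a (l 528456319) (l 528205951)))))), by decide +kernel⟩

def k2_B04pp_022_s1 : ∃ t, chk3 f_B04pp_022_s1 t 32 131 1 = true :=
  ⟨(b (a (a (a (a (l 14) (b (l 14) (l 16756488))) (a (b (l 16758936) (l 16757320)) (b (l 16759752) (l 16758128)))) (a (a (b (l 16760584) (l 16758976)) (b (l 16761408) (l 16759808))) (a (b (l 16762240) (l 16760632)) (b (l 16763056) (l 16761456))))) (a (a (a (b (l 16763872) (l 16762280)) (b (l 16764688) (l 16763096))) (a (b (l 16765496) (l 16763904)) (a (l 527369599) (l 527110015)))) (a (a (a (l 527118463) (l 527127167)) (b (l 528472703) (l 16766320))) (a (l 528491135) (l 527972479))))) (a (a (a (a (a (l 16753032) (l 16753456)) (l 16754080))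 (a (l 16754912) (l 16755736))) (a (a (l 16756576) (c (l 16757448) (l 16757360))) (a (b (l 16759032) (l 16757440)) (b (l 16759856) (l 16758264))))) (a (a (a (b (l 16760680) (l 16759088)) (b (l 16761496) (l 16759904))) (a (b (l 16762312) (l 16760720)) (b (l 16763120) (l 16761536)))) (a (a (b (l 16763928) (l 16762344)) (b (l 16764736) (l 16763152))) (a (l 528255871) (l 528005759)))))), by decide +kernel⟩

def k3_B04pp_022_s1 : ∃ t, chk3 f_B04pp_022_s1 t 33 32 1 = true :=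
  ⟨(a (b (b (l 3) (a (a (a (b (l 3) (l 527870591)) (l 3)) (l 3)) (l 3))) (a (a (a (b (b (l 527917183) (l 527687039)) (b (l 527722111) (l 527486847))) (b (b (l 527398271) (l 527436415)) (b (l 527202943) (l 527236223)))) (b (a (b (l 527147391) (l 527185791)) (b (l 527165055) (l 527203455))) (a (b (l 527220607) (l 527253887)) (b (l 527238271) (l 527271551))))) (a (a (b (b (l 527182463) (l 527220863)) (b (l 527255935) (l 527289215))) (b (b (l 3) (l 527238527)) (l 528064895))) (b (b (l 3) (l 528594303)) (b (l 528629119) (l 528394111)))))) (b (l 3) (b (a (a (b (l 3) (l 528094591)) (l 3)) (l 3)) (a (a (b (l 527861119) (l 528162943)) (b (l 527361151) (l 527662975))) (a (b (l 527397759) (l 527431295)) (b (l 3) (l 527467903))))))), by decide +kernel⟩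

def k4_B04pp_022_s1 : ∃ t, chk3 f_B04pp_022_s1 t 16 66 1 = true :=
  ⟨(a (a (a (a (b (a (b (l 16750040) (l 16746840)) (l 16751896)) (a (l 16744680) (l 16742912))) (b (b (a (l 16751712) (l 16752568)) (l 16751568)) (b (l 16745768) (l 16742608)))) (b (a (b (a (l 16753360) (l 16754216)) (l 16753216)) (b (a (l 16755048) (l 16755880)) (l 16754912))) (b (a (l 16747456) (l 16749128)) (a (l 16744328) (l 16745984))))) (b (b (a (a (a (l 16756704) (l 16757528)) (a (l 16758344) (l 16759160))) (a (a (l 16759968) (l 16766024)) (a (l 16766824) (l 16767624)))) (a (a (l 16756568) (l 16758216)) (a (a (l 16756816) (l 16757632)) (a (l 16758440) (l 16759240))))) (a (a (b (l 16750792) (l 16747656)) (b (l 16752448) (l 16749312))) (a (b (l 16754080) (l 16750952)) (b (l 16755704) (l 16752584)))))) (a (a (a (a (b (b (l 16768424) (l 16760040)) (l 528393343)) (b (b (l 16769216) (l 16760840)) (l 527874175))) (a (b (l 528358783) (l 527623551))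 (b (l 527839615) (l 527372671)))) (a (a (b (l 527588735) (l 527390335)) (b (l 527337855) (l 527407999))) (b (a (l 527355519) (l 527372927)) (b (l 528222335) (l 16758968))))) (a (a (b (a (l 527390591) (l 527407999)) (l 528801151)) (b (a (l 527425663) (l 527443327)) (l 528301183))) (a (b (a (l 527460991) (l 527478655)) (l 527800959)) (b (l 527767167) (l 527569279)))))), by decide +kernel⟩

def k5_B04pp_022_s1 : ∃ t, chk3 f_B04pp_022_s1 t 16 67 1 = true :=
  ⟨(b (a (a (a (a (a (l 16735720) (l 16736584)) (l 16740496)) (a (l 16742216) (l 16743872))) (b (a (a (l 16744528) (l 16746192)) (a (l 16747840) (l 16749480))) (a (l 16744864) (l 16748184)))) (a (a (b (a (l 16751104) (l 16752712)) (l 16751440)) (a (b (l 16754312) (l 16751232)) (l 529099135))) (a (a (l 528331391) (l 527831423)) (a (l 527599743) (l 532075391))))) (a (a (a (a (l 16734888) (l 16736696)) (b (l 16738432) (l 16732632))) (b (a (l 16739144) (l 16742472)) (a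 (l 16741240) (l 16739408)))) (a (a (a (l 16743400) (l 16745032)) (a (l 16746648) (l 16769216))) (a (a (l 16791776) (l 16765000)) (a (l 16802200) (l 16788592)))))), by decide +kernel⟩

def k6_B04pp_022_s1 : ∃ t, chk3 f_B04pp_022_s1 t 16 17 1 = true :=
  ⟨(b (b (b (a (a (a (a (l 16723416) (l 16725224)) (a (l 16727024) (l 16728808))) (a (a (l 16730520) (l 16732304)) (l 16740056))) (a (a (l 16740744) (a (l 16740576) (l 16762232))) (a (c (l 16765312) (l 16765472)) (l 16770880)))) (a (a (a (a (l 16717064) (l 16718920)) (l 16726928)) (a (l 16730528) (l 16728752))) (a (a (l 16732096) (l 16767688)) (a (l 16850584) (l 16900848))))) (a (a (a (b (l 16717032) (l 16705608)) (b (l 16715528) (l 16709392))) (b (a (l 16719152) (l 16722848)) (a (l 16713136) (l 16804600)))) (a (a (b (l 16785808) (l 16927896)) (b (l 16888944) (l 17092704))) (a (b (l 16954576) (l 17142864)) (b (l 17076984) (l 17170520)))))) (a (b (a (a (l 16706376) (l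 16711248)) (a (l 16707864) (b (l 16967344) (l 17202624)))) (a (a (l 16685520) (l 16889432)) (a (l 17168168) (l 17325496)))) (a (b (a (l 16793224) (l 17098032)) (b (l 17415088) (l 17522360))) (b (a (l 17296048) (l 17309272)) (l 17488600))))), by decide +kernel⟩

def k7_B04pp_022_s1 : ∃ t, chk3 f_B04pp_022_s1 t 17 8 1 = true :=
  ⟨(b (a (b (b (l 3) (a (a (a (b (l 3) (b (l 3) (l 527504511))) (l 3)) (l 3)) (l 3))) (a (a (b (a (b (l 527535231) (l 527605631)) (b (l 527571839) (l 531641727))) (b (a (l 545985407) (l 558081407)) (b (l 16759552) (l 16876520)))) (b (b (l 529219199) (a (l 545617791) (l 557772671))) (b (a (l 568619903) (l 577815167)) (b (l 16779688) (l 16894912))))) (b (a (b (a (l 545243263) (l 3)) (c (l 597981311) (l 548365183))) (b (l 3) (l 589367679))) (a (b (l 589523327) (l 601927039)) (a (l 604437631) (l 609128831)))))) (b (l 3) (a (b (a (b (l 3) (l 601754239)) (l 3)) (a (l 615127679) (l 621384063))) (b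 (l 3) (l 628150399))))) (b (a (a (b (a (b (l 16805704) (l 17011552)) (b (l 16862712) (l 17021448))) (a (l 16970856) (l 17056384))) (b (a (b (l 16863656) (l 17019096)) (l 621303679)) (b (l 17087968) (l 17162872)))) (b (a (b (l 626185855) (l 16895840)) (l 633058687)) (a (l 632847743) (l 635079295)))) (a (a (b (l 17306408) (l 17466296)) (b (l 17275184) (l 17420888))) (b (a (l 17226040) (l 17167832)) (l 17331704))))), by decide +kernel⟩

def k8_B04pp_022_s1 : ∃ t, chk3 f_B04pp_022_s1 t 9 8 1 = true :=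
  ⟨(a (b (b (l 3) (a (b (l 3) (l 635218815)) (l 3))) (b (a (b (a (l 635372927) (l 635940479)) (l 635861375)) (b (l 635088255) (l 633105023))) (a (b (l 634462079) (l 17200688)) (b (l 630728319) (l 16989368))))) (b (l 3) (b (a (l 630278015) (l 3)) (a (l 624803199) (l 620044671))))), by decide +kernel⟩

def k9_B04pp_022_s1 : ∃ t, chk3 f_B04pp_022_s1 t 4 9 1 = true :=
  ⟨(a (a (a (b (b (b (a (a (l 17208640) (l 17554000)) (l 17467784)) (a (l 17634488) (l 17855944))) (a (l 18140072) (l 18128928))) (b (l 18449520) (l 18691920))) (b (b (b (a (l 17671856) (l 17658232)) (l 17834968)) (l 18052344)) (l 18406192))) (b (b (a (b (l 17589088) (l 17722464)) (l 17520096)) (a (l 17903440) (l 17743712))) (b (l 18026768) (l 18207968)))) (b (a (b (a (l 17378064) (l 17160040)) (l 17433624)) (b (l 617463423) (l 612129407))) (b (a (l 17699224) (l 17435408)) (a (l 17861552) (l 17588064))))), by decide +kernel⟩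

def k10_B04pp_022_s1 : ∃ t, chk3 f_B04pp_022_s1 t 4 5 1 = true :=
  ⟨(b (b (b (a (a (l 18789384) (l 18382272)) (a (l 18014856) (l 17727840))) (a (a (l 18967752) (l 18567752)) (b (l 17980560) (b (l 18055512) (l 18119264))))) (a (a (l 19166896) (l 18765752)) (l 18246384))) (a (l 19404824) (l 18582800))), by decide +kernel⟩

def k11_B04pp_022_s1 : ∃ t, chk3 f_B04pp_022_s1 t 5 2 1 = true :=
  ⟨(a (b (b (b (l 3) (b (l 3) (a (l 613517183) (l 3)))) (b (a (l 606163327) (l 598847871)) (b (a (l 17141760) (l 592983167)) (a (l 17373352) (l 17202104))))) (b (b (b (l 17664384) (b (l 17504480) (b (l 17551816) (b (l 17584656) (l 17614272))))) (l 17712280)) (l 18007600))) (b (b (l 3) (b (b (l 3) (l 588494463)) (l 584077951))) (b (b (b (l 17380728) (b (l 17212416) (b (l 17251160) (b (l 17269616) (l 17283616))))) (l 17380224)) (l 17603568)))), by decide +kernel⟩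

def k12_B04pp_022_s1 : ∃ t, chk3 f_B04pp_022_s1 t 2 3 1 = true :=
  ⟨(b (a (a (b (l 19186200) (l 6)) (l 19023024)) (b (l 18201632) (l 18079576))) (l 6)), by decide +kernel⟩

def k13_B04pp_022_s1 : ∃ t, chk3 f_B04pp_022_s1 t 3 1 1 = true :=
  ⟨(b (b (b (l 3) (a (b (l 3) (a (l 576323967) (l 570535039))) (l 3))) (a (b (b (b (a (l 573072767) (l 567940479)) (a (b (l 17105192) (b (l 17057872) (b (l 17075080) (l 17086256)))) (b (l 567051135) (b (l 17011928) (b (l 17027856) (l 16954248)))))) (a (l 17260968) (b (l 17083512) (l 17075360)))) (a (l 17392176) (b (l 17178168) (l 2)))) (b (b (b (a (l 564467071) (l 2)) (l 2)) (l 2)) (l 2)))) (a (b (b (l 17688264) (l 2)) (l 2)) (l 2))), by decide +kernel⟩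

theorem t14_B04pp_022_s1 : ∃ t, chk3 f_B04pp_022_s1 t 16 33 1 = true := ex3_b k4_B04pp_022_s1 k5_B04pp_022_s1

theorem t15_B04pp_022_s1 : ∃ t, chk3 f_B04pp_022_s1 t 32 65 1 = true := ex3_b k1_B04pp_022_s1 k2_B04pp_022_s1

theorem t16_B04pp_022_s1 : ∃ t, chk3 f_B04pp_022_s1 t 32 32 1 = true := ex3_b k0_B04pp_022_s1 t15_B04pp_022_s1

theorem t17_B04pp_022_s1 : ∃ t, chk3 f_B04pp_022_s1 t 16 32 1 = true := ex3_a t16_B04pp_022_s1 k3_B04pp_022_s1

theorem t18_B04pp_022_s1 : ∃ t, chk3 f_B04pp_022_s1 t 16 16 1 = true := ex3_b t17_B04pp_022_s1 t14_B04pp_022_s1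

theorem t19_B04pp_022_s1 : ∃ t, chk3 f_B04pp_022_s1 t 16 8 1 = true := ex3_b t18_B04pp_022_s1 k6_B04pp_022_s1

theorem t20_B04pp_022_s1 : ∃ t, chk3 f_B04pp_022_s1 t 8 8 1 = true := ex3_a t19_B04pp_022_s1 k7_B04pp_022_s1

theorem t21_B04pp_022_s1 : ∃ t, chk3 f_B04pp_022_s1 t 4 8 1 = true := ex3_a t20_B04pp_022_s1 k8_B04pp_022_s1

theorem t22_B04pp_022_s1 : ∃ t, chk3 f_B04pp_022_s1 t 4 4 1 = true := ex3_b t21_B04pp_022_s1 k9_B04pp_022_s1

theorem t23_B04pp_022_s1 : ∃ t, chk3 f_B04pp_022_s1 t 4 2 1 = true := ex3_b t22_B04pp_022_s1 k10_B04pp_022_s1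

theorem t24_B04pp_022_s1 : ∃ t, chk3 f_B04pp_022_s1 t 2 2 1 = true := ex3_a t23_B04pp_022_s1 k11_B04pp_022_s1

theorem t25_B04pp_022_s1 : ∃ t, chk3 f_B04pp_022_s1 t 2 1 1 = true := ex3_b t24_B04pp_022_s1 k12_B04pp_022_s1

theorem t26_B04pp_022_s1 : ∃ t, chk3 f_B04pp_022_s1 t 1 1 1 = true := ex3_a t25_B04pp_022_s1 k13_B04pp_022_s1

theorem c_B04pp_022_s1 : CertF 0 536870912 1073741824 536870912 50331648 16777216 false true true .pp 0 2 2
    ndF0q0 ndF4q2 pcF2 cut_B04pp_022_s1 xt_B04pp_022_s1 :=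
  certFK1 (fam := false) (s1 := true) (s2 := true) (a := 0) (b := 2) (c := 2) (cn := .pp) (n1 := ndF0q0) (n2 := ndF4q2) (pc := pcF2) (cut := cut_B04pp_022_s1) (xt := xt_B04pp_022_s1) (P1 := 0) (W1 := 536870912) (P2 := 1073741824) (W2 := 536870912) (P3 := 50331648) (W3 := 16777216)
    rfl rfl rfl (fun _ => rfl) t26_B04pp_022_s1

theorem s_B04pp_022_s1 {κ x : ℝ} (hκ : κ * h0 = ken x) (hx : ((50331648 : ℕ) : ℝ) / S ≤ x)
    (hx' : x ≤ (((50331648 : ℕ) : ℝ) + (16777216 : ℕ)) / S)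
    (H : CutB (VF κ) PP tKF tL pcF (Cut.of [[⟨0, 0, 0, 16777216⟩, ⟨1, 1, 0, 16777216⟩, ⟨2, 1, 0, 16777216⟩]]) 0 2 2 0 4 (sgb true) (sgb true) x) :
    AltB (VF κ) PP tKF tL pcF [⟨3, 0, 0, 1449551462⟩] 0 2 2 0 4 (sgb true) (sgb true) x :=
  strip_altB (m := 1449551462) true rfl hκ covF00 covF42 hx hx' c_B04pp_022_s1 H ((okx hx hx').extB (T := tt) (sideF hx hx') hκ rfl rfl (.O 0 true) (.N 2 true) rfl)

noncomputable def cut_B04pp_023_s1 : Cut := Cut.of [[⟨4, 0, 0, 1449551462⟩]]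

noncomputable def xt_B04pp_023_s1 : Ext := strExt dd false true true .u0 .s2 .u2 .up 0 2 3 rfl rfl gf2 vv ndF0q0 ndF4q3

noncomputable def f_B04pp_023_s1 : ℕ → ℕ → ℕ → ℕ → Bool := onCell 1073741824 536870912 0 1230186008 50331648 16777216
    (rowFK 2 false true true .up 0 2 3 (qsf 0 536870912 0 1230186008 2) ndF0q0 ndF4q3 pcF2 cut_B04pp_023_s1 xt_B04pp_023_s1)

def k0_B04pp_023_s1 : ∃ t, chk3 f_B04pp_023_s1 t 1 1 1 = true :=
  ⟨(b (a (l 2) (a (l 2) (l 6))) (a (a (b (l 2) (b (l 2) (l 3))) (b (a (l 2) (b (l 2) (l 17253264))) (a (b (b (a (l 2) (l 446777651879)) (b (a (l 2) (l 427450285335)) (a (a (l 3) (a (l 3) (a (l 555425151) (a (a (l 554256767) (l 32312988407)) (l 16798344))))) (a (l 16839824) (l 16914096))))) (a (b (a (l 3) (a (b (l 558581119) (l 560656767)) (b (a (l 557590911) (a (a (l 16844976) (l 16891928)) (l 16815560))) (a (l 560629887) (a (l 16914192) (l 16841200)))))) (a (b (l 563566463) (l 565198207))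 (a (b (l 562795391) (l 564942207)) (a (b (l 16930368) (l 16890848)) (a (a (l 16967776) (l 16973992)) (l 16983312)))))) (a (b (b (l 16818752) (l 16806544)) (b (l 16930080) (l 16981920))) (b (l 17043296) (l 17054312))))) (b (l 17565056) (b (a (l 17085048) (l 17252360)) (l 17467600)))))) (a (b (b (a (l 2) (l 17284392)) (a (l 17216776) (l 17430864))) (b (b (l 17412560) (l 17596488)) (b (l 17659328) (l 17957520)))) (l 6)))), by decide +kernel⟩

theorem c_B04pp_023_s1 : CertF 0 536870912 0 1230186008 50331648 16777216 false true true .up 0 2 3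
    ndF0q0 ndF4q3 pcF2 cut_B04pp_023_s1 xt_B04pp_023_s1 :=
  certFK2 (fam := false) (s1 := true) (s2 := true) (a := 0) (b := 2) (c := 3) (cn := .up) (n1 := ndF0q0) (n2 := ndF4q3) (pc := pcF2) (cut := cut_B04pp_023_s1) (xt := xt_B04pp_023_s1) (P1 := 0) (W1 := 536870912) (P2 := 0) (W2 := 1230186008) (P3 := 50331648) (W3 := 16777216)
    rfl rfl rfl (fun _ => rfl) k0_B04pp_023_s1

theorem s_B04pp_023_s1 {κ x : ℝ} (hκ : κ * h0 = ken x) (hx : ((50331648 : ℕ) : ℝ) / S ≤ x)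
    (hx' : x ≤ (((50331648 : ℕ) : ℝ) + (16777216 : ℕ)) / S) :
    AltB (VF κ) PP tKF tL pcF [⟨3, 0, 0, 1449551462⟩] 0 2 3 0 4 (sgb true) (sgb true) x :=
  strip_altB (m := 1449551462) true rfl hκ covF00 covF43 hx hx' c_B04pp_023_s1 cutB_nil ((okx hx hx').extB (T := tt) (sideF hx hx') hκ rfl rfl (.O 0 true) (.N 3 true) rfl)

noncomputable def cut_B04pp_033_s1 : Cut := Cut.of [[⟨4, 0, 0, 1449551462⟩]]

noncomputable def f_B04pp_033_s1 : ℕ → ℕ → ℕ → ℕ → Bool := onCell 1610612736 536870912 0 1230186008 50331648 16777216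
    (rowFK 2 false true true .pnn 0 3 3 (qsf 0 536870912 0 1230186008 3) ndF0q0 ndF4q3 pcF3 cut_B04pp_033_s1 Ext.none)

def k0_B04pp_033_s1 : ∃ t, chk3 f_B04pp_033_s1 t 1 1 1 = true :=
  ⟨(b (l 6) (l 6)), by decide +kernel⟩

theorem c_B04pp_033_s1 : CertF 0 536870912 0 1230186008 50331648 16777216 false true true .pnn 0 3 3
    ndF0q0 ndF4q3 pcF3 cut_B04pp_033_s1 Ext.none :=
  certFK2 (fam := false) (s1 := true) (s2 := true) (a := 0) (b := 3) (c := 3) (cn := .pnn) (n1 := ndF0q0) (n2 := ndF4q3) (pc := pcF3) (cut := cut_B04pp_033_s1) (xt := Ext.none) (P1 := 0) (W1 := 536870912) (P2 := 0) (W2 := 1230186008) (P3 := 50331648) (W3 := 16777216)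
    rfl rfl rfl (fun _ => rfl) k0_B04pp_033_s1

theorem s_B04pp_033_s1 {κ x : ℝ} (hκ : κ * h0 = ken x) (hx : ((50331648 : ℕ) : ℝ) / S ≤ x)
    (hx' : x ≤ (((50331648 : ℕ) : ℝ) + (16777216 : ℕ)) / S) :
    AltB (VF κ) PP tKF tL pcF [⟨3, 0, 0, 1449551462⟩] 0 3 3 0 4 (sgb true) (sgb true) x :=
  strip_altB (m := 1449551462) true rfl hκ covF00 covF43 hx hx' c_B04pp_033_s1 cutB_nil (noExt_B)

noncomputable def cut_B04pp_101_s1 : Cut := Cut.of [[⟨4, 0, 0, 1449551462⟩]]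

noncomputable def f_B04pp_101_s1 : ℕ → ℕ → ℕ → ℕ → Bool := onCell 536870912 536870912 536870912 536870912 50331648 16777216
    (rowFK 0 false true true .npn 1 0 1 (qsf 536870912 536870912 536870912 536870912 0) ndF0q1 ndF4q1 pcF0 cut_B04pp_101_s1 Ext.none)

def k0_B04pp_101_s1 : ∃ t, chk3 f_B04pp_101_s1 t 1 1 1 = true :=
  ⟨(a (l 3) (l 5)), by decide +kernel⟩

theorem c_B04pp_101_s1 : CertF 536870912 536870912 536870912 536870912 50331648 16777216 false true true .npn 1 0 1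
    ndF0q1 ndF4q1 pcF0 cut_B04pp_101_s1 Ext.none :=
  certFK0 (fam := false) (s1 := true) (s2 := true) (a := 1) (b := 0) (c := 1) (cn := .npn) (n1 := ndF0q1) (n2 := ndF4q1) (pc := pcF0) (cut := cut_B04pp_101_s1) (xt := Ext.none) (P1 := 536870912) (W1 := 536870912) (P2 := 536870912) (W2 := 536870912) (P3 := 50331648) (W3 := 16777216)
    rfl rfl rfl k0_B04pp_101_s1

theorem s_B04pp_101_s1 {κ x : ℝ} (hκ : κ * h0 = ken x) (hx : ((50331648 : ℕ) : ℝ) / S ≤ x)
    (hx' : x ≤ (((50331648 : ℕ) : ℝ) + (16777216 : ℕ)) / S) :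
    AltB (VF κ) PP tKF tL pcF [⟨3, 0, 0, 1449551462⟩] 1 0 1 0 4 (sgb true) (sgb true) x :=
  strip_altB (m := 1449551462) true rfl hκ covF01 covF41 hx hx' c_B04pp_101_s1 cutB_nil (noExt_B)

noncomputable def cut_B04pp_102_s1 : Cut := Cut.of [[⟨4, 0, 0, 1449551462⟩]]

noncomputable def f_B04pp_102_s1 : ℕ → ℕ → ℕ → ℕ → Bool := onCell 536870912 536870912 1073741824 536870912 50331648 16777216
    (rowFK 0 false true true .npp 1 0 2 (qsf 536870912 536870912 1073741824 536870912 0) ndF0q1 ndF4q2 pcF0 cut_B04pp_102_s1 Ext.none)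

def k0_B04pp_102_s1 : ∃ t, chk3 f_B04pp_102_s1 t 1 1 1 = true :=
  ⟨(a (l 3) (b (l 5) (l 3))), by decide +kernel⟩

theorem c_B04pp_102_s1 : CertF 536870912 536870912 1073741824 536870912 50331648 16777216 false true true .npp 1 0 2
    ndF0q1 ndF4q2 pcF0 cut_B04pp_102_s1 Ext.none :=
  certFK0 (fam := false) (s1 := true) (s2 := true) (a := 1) (b := 0) (c := 2) (cn := .npp) (n1 := ndF0q1) (n2 := ndF4q2) (pc := pcF0) (cut := cut_B04pp_102_s1) (xt := Ext.none) (P1 := 536870912) (W1 := 536870912) (P2 := 1073741824) (W2 := 536870912) (P3 := 50331648) (W3 := 16777216)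
    rfl rfl rfl k0_B04pp_102_s1

theorem s_B04pp_102_s1 {κ x : ℝ} (hκ : κ * h0 = ken x) (hx : ((50331648 : ℕ) : ℝ) / S ≤ x)
    (hx' : x ≤ (((50331648 : ℕ) : ℝ) + (16777216 : ℕ)) / S) :
    AltB (VF κ) PP tKF tL pcF [⟨3, 0, 0, 1449551462⟩] 1 0 2 0 4 (sgb true) (sgb true) x :=
  strip_altB (m := 1449551462) true rfl hκ covF01 covF42 hx hx' c_B04pp_102_s1 cutB_nil (noExt_B)

noncomputable def cut_B04pp_112_s1 : Cut := Cut.of [[⟨4, 0, 0, 1449551462⟩]]

noncomputable def f_B04pp_112_s1 : ℕ → ℕ → ℕ → ℕ → Bool := onCell 536870912 536870912 1073741824 536870912 50331648 16777216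
    (rowFK 0 false true true .dn 1 1 2 (qsf 536870912 536870912 1073741824 536870912 1) ndF0q1 ndF4q2 pcF1 cut_B04pp_112_s1 Ext.none)

def k0_B04pp_112_s1 : ∃ t, chk3 f_B04pp_112_s1 t 1 1 1 = true :=
  ⟨(a (l 3) (b (l 5) (l 3))), by decide +kernel⟩

theorem c_B04pp_112_s1 : CertF 536870912 536870912 1073741824 536870912 50331648 16777216 false true true .dn 1 1 2
    ndF0q1 ndF4q2 pcF1 cut_B04pp_112_s1 Ext.none :=
  certFK0 (fam := false) (s1 := true) (s2 := true) (a := 1) (b := 1) (c := 2) (cn := .dn) (n1 := ndF0q1) (n2 := ndF4q2) (pc := pcF1) (cut := cut_B04pp_112_s1) (xt := Ext.none) (P1 := 536870912) (W1 := 536870912) (P2 := 1073741824) (W2 := 536870912) (P3 := 50331648) (W3 := 16777216)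
    rfl rfl rfl k0_B04pp_112_s1

theorem s_B04pp_112_s1 {κ x : ℝ} (hκ : κ * h0 = ken x) (hx : ((50331648 : ℕ) : ℝ) / S ≤ x)
    (hx' : x ≤ (((50331648 : ℕ) : ℝ) + (16777216 : ℕ)) / S) :
    AltB (VF κ) PP tKF tL pcF [⟨3, 0, 0, 1449551462⟩] 1 1 2 0 4 (sgb true) (sgb true) x :=
  strip_altB (m := 1449551462) true rfl hκ covF01 covF42 hx hx' c_B04pp_112_s1 cutB_nil (noExt_B)

noncomputable def cut_B04pp_113_s1 : Cut := Cut.of [[⟨4, 0, 0, 1449551462⟩], [⟨0, 1, 0, 14341072⟩, ⟨1, 1, 0, 14341072⟩, ⟨2, 2, 0, 761489⟩]]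

noncomputable def f_B04pp_113_s1 : ℕ → ℕ → ℕ → ℕ → Bool := onCell 536870912 536870912 0 1230186008 50331648 16777216
    (rowFK 2 false true true .nn 1 1 3 (qsf 536870912 536870912 0 1230186008 1) ndF0q1 ndF4q3 pcF1 cut_B04pp_113_s1 Ext.none)

def k0_B04pp_113_s1 : ∃ t, chk3 f_B04pp_113_s1 t 1 1 1 = true :=
  ⟨(b (a (l 2) (a (l 2) (b (a (l 2) (b (a (l 2) (b (a (l 2) (b (a (l 2) (l 14)) (l 3))) (l 3))) (l 3))) (l 3)))) (b (a (a (l 2) (b (l 2) (a (l 2) (l 3)))) (a (l 3) (l 3))) (a (a (b (l 2) (l 3)) (l 3)) (l 3)))), by decide +kernel⟩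

theorem c_B04pp_113_s1 : CertF 536870912 536870912 0 1230186008 50331648 16777216 false true true .nn 1 1 3
    ndF0q1 ndF4q3 pcF1 cut_B04pp_113_s1 Ext.none :=
  certFK2 (fam := false) (s1 := true) (s2 := true) (a := 1) (b := 1) (c := 3) (cn := .nn) (n1 := ndF0q1) (n2 := ndF4q3) (pc := pcF1) (cut := cut_B04pp_113_s1) (xt := Ext.none) (P1 := 536870912) (W1 := 536870912) (P2 := 0) (W2 := 1230186008) (P3 := 50331648) (W3 := 16777216)
    rfl rfl rfl (fun _ => rfl) k0_B04pp_113_s1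

theorem s_B04pp_113_s1 {κ x : ℝ} (hκ : κ * h0 = ken x) (hx : ((50331648 : ℕ) : ℝ) / S ≤ x)
    (hx' : x ≤ (((50331648 : ℕ) : ℝ) + (16777216 : ℕ)) / S)
    (H : CutB (VF κ) PP tKF tL pcF (Cut.of [[⟨0, 1, 0, 14341072⟩, ⟨1, 1, 0, 14341072⟩, ⟨2, 2, 0, 761489⟩]]) 1 1 3 0 4 (sgb true) (sgb true) x) :
    AltB (VF κ) PP tKF tL pcF [⟨3, 0, 0, 1449551462⟩] 1 1 3 0 4 (sgb true) (sgb true) x :=
  strip_altB (m := 1449551462) true rfl hκ covF01 covF43 hx hx' c_B04pp_113_s1 H (noExt_B)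

noncomputable def cut_B04pp_123_s1 : Cut := Cut.of [[⟨4, 0, 0, 1449551462⟩], [⟨0, 1, 0, 14341072⟩, ⟨1, 1, 0, 14341072⟩, ⟨2, 2, 0, 761489⟩]]

noncomputable def xt_B04pp_123_s1 : Ext := strExt dd false true true .u0 .s2 .u2 .npn 1 2 3 rfl rfl gf2 vv ndF0q1 ndF4q3

noncomputable def f_B04pp_123_s1 : ℕ → ℕ → ℕ → ℕ → Bool := onCell 1073741824 536870912 0 1230186008 50331648 16777216
    (rowFK 2 false true true .npn 1 2 3 (qsf 536870912 536870912 0 1230186008 2) ndF0q1 ndF4q3 pcF2 cut_B04pp_123_s1 xt_B04pp_123_s1)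

def k0_B04pp_123_s1 : ∃ t, chk3 f_B04pp_123_s1 t 1 2 1 = true :=
  ⟨(a (b (b (a (a (a (a (b (b (a (l 14) (a (l 14) (a (a (l 14) (l 16829272)) (l 16873248)))) (a (l 3) (a (a (l 3) (l 3)) (b (a (l 539613583) (l 539670159)) (l 3))))) (l 3)) (b (a (b (l 16794192) (b (a (b (l 16824576) (l 539709839)) (l 16788296)) (a (l 539717519) (l 539838095)))) (b (l 16954448) (b (l 16960192) (a (b (l 16785128) (l 16782720)) (l 16873880))))) (b (a (a (l 3) (l 539858319)) (l 539937679)) (l 3)))) (a (b (l 17045544) (b (a (b (l 16958184) (l 540220559)) (l 16885576)) (l 540746783))) (b (l 16787880) (b (l 16892096) (a (l 16888160) (l 16813384)))))) (a (l 17310136) (l 17111976))) (l 17290960)) (a (a (a (l 3) (b (a (b (l 540304671) (l 3)) (l 541341583)) (l 3))) (a (b (a (b (l 16985856) (l 541634191)) (l 16997032)) (l 543011871)) (b (l 17287048) (a (l 17081744) (l 17022776))))) (a (a (l 17484752) (l 17135608)) (l 17559088)))) (a (a (l 3)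 (a (b (b (l 544194847) (l 3)) (l 3)) (b (a (l 542705551) (b (l 17094392) (l 542595215))) (b (l 543356047) (l 543869583))))) (a (a (a (b (b (l 16935896) (l 16837456)) (b (l 543066255) (l 543487375))) (b (a (l 17132976) (a (l 16967616) (l 17249632))) (a (b (l 16837056) (l 16895632)) (a (l 16925112) (a (l 16930464) (l 16932904)))))) (b (l 16990240) (l 17047896))) (b (l 17266776) (l 17352440))))) (a (b (l 6) (a (b (l 17435944) (l 17243216)) (l 6))) (l 6))), by decide +kernel⟩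

def k1_B04pp_123_s1 : ∃ t, chk3 f_B04pp_123_s1 t 1 3 1 = true :=
  ⟨(b (a (a (l 3) (a (a (a (b (b (l 543928719) (l 3)) (l 3)) (b (b (a (l 544092959) (a (l 16889912) (a (l 16898832) (l 16821112)))) (a (a (l 544491663) (l 545022863)) (a (b (l 545250959) (l 545789583)) (a (a (l 16817104) (l 16883216)) (l 16804080))))) (a (l 3) (b (b (a (l 546449295) (a (a (l 547093903) (l 16788160)) (l 16793048))) (a (a (l 3) (l 547602319)) (a (a (l 548180111) (l 548694671)) (l 16797624)))) (a (l 3) (b (a (l 548902991) (b (l 16793976) (a (a (l 549068335) (l 16780832)) (l 16783464)))) (a (l 549641295) (a (a (l 549630255) (b (b (l 16779768) (l 16779232)) (a (b (l 16781008) (l 16778128)) (l 16779184)))) (l 549619551))))))))) (b (b (l 16829616) (l 16939704)) (a (b (b (l 16905824) (l 16816952)) (a (l 549207135) (l 16827440))) (l 17039400)))) (b (l 17089544) (l 17253184)))) (a (b (a (l 17087304) (l 17284928)) (l 17836736)) (l 6))) (b (a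 (a (l 3) (a (a (a (l 3) (a (l 3) (a (b (l 3) (b (b (l 3) (l 553390975)) (l 555425151))) (b (b (a (l 3) (a (a (l 550455855) (b (b (b (l 16781112) (l 16781104)) (b (l 16781128) (l 16781200))) (b (l 16778768) (l 16784400)))) (l 550444127))) (a (l 551396415) (a (a (l 551383855) (b (b (l 16779728) (l 16780496)) (l 16792544))) (l 551371615)))) (a (b (a (l 552533375) (l 552511615)) (a (l 554256767) (l 554334847))) (b (b (l 16796392) (l 16789776)) (l 16798392))))))) (b (l 550752607) (a (a (b (l 16851096) (l 16905352)) (l 16935208)) (l 16820632)))) (a (l 17248472) (l 17300136)))) (l 1)) (a (a (l 3) (a (a (b (a (l 3) (l 1)) (l 1)) (l 1)) (l 1))) (l 1)))), by decide +kernel⟩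

theorem t2_B04pp_123_s1 : ∃ t, chk3 f_B04pp_123_s1 t 1 1 1 = true := ex3_b k0_B04pp_123_s1 k1_B04pp_123_s1

theorem c_B04pp_123_s1 : CertF 536870912 536870912 0 1230186008 50331648 16777216 false true true .npn 1 2 3
    ndF0q1 ndF4q3 pcF2 cut_B04pp_123_s1 xt_B04pp_123_s1 :=
  certFK2 (fam := false) (s1 := true) (s2 := true) (a := 1) (b := 2) (c := 3) (cn := .npn) (n1 := ndF0q1) (n2 := ndF4q3) (pc := pcF2) (cut := cut_B04pp_123_s1) (xt := xt_B04pp_123_s1) (P1 := 536870912) (W1 := 536870912) (P2 := 0) (W2 := 1230186008) (P3 := 50331648) (W3 := 16777216)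
    rfl rfl rfl (fun _ => rfl) t2_B04pp_123_s1

theorem s_B04pp_123_s1 {κ x : ℝ} (hκ : κ * h0 = ken x) (hx : ((50331648 : ℕ) : ℝ) / S ≤ x)
    (hx' : x ≤ (((50331648 : ℕ) : ℝ) + (16777216 : ℕ)) / S)
    (H : CutB (VF κ) PP tKF tL pcF (Cut.of [[⟨0, 1, 0, 14341072⟩, ⟨1, 1, 0, 14341072⟩, ⟨2, 2, 0, 761489⟩]]) 1 2 3 0 4 (sgb true) (sgb true) x) :
    AltB (VF κ) PP tKF tL pcF [⟨3, 0, 0, 1449551462⟩] 1 2 3 0 4 (sgb true) (sgb true) x :=
  strip_altB (m := 1449551462) true rfl hκ covF01 covF43 hx hx' c_B04pp_123_s1 H ((okx hx hx').extB (T := tt) (sideF hx hx') hκ rfl rfl (.O 1 true) (.N 3 true) rfl)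

noncomputable def cut_B04pp_133_s1 : Cut := Cut.of [[⟨4, 0, 0, 1449551462⟩]]

noncomputable def f_B04pp_133_s1 : ℕ → ℕ → ℕ → ℕ → Bool := onCell 1610612736 536870912 0 1230186008 50331648 16777216
    (rowFK 2 false true true .dn 1 3 3 (qsf 536870912 536870912 0 1230186008 3) ndF0q1 ndF4q3 pcF3 cut_B04pp_133_s1 Ext.none)

def k0_B04pp_133_s1 : ∃ t, chk3 f_B04pp_133_s1 t 1 1 1 = true :=
  ⟨(b (l 6) (l 1)), by decide +kernel⟩

theorem c_B04pp_133_s1 : CertF 536870912 536870912 0 1230186008 50331648 16777216 false true true .dn 1 3 3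
    ndF0q1 ndF4q3 pcF3 cut_B04pp_133_s1 Ext.none :=
  certFK2 (fam := false) (s1 := true) (s2 := true) (a := 1) (b := 3) (c := 3) (cn := .dn) (n1 := ndF0q1) (n2 := ndF4q3) (pc := pcF3) (cut := cut_B04pp_133_s1) (xt := Ext.none) (P1 := 536870912) (W1 := 536870912) (P2 := 0) (W2 := 1230186008) (P3 := 50331648) (W3 := 16777216)
    rfl rfl rfl (fun _ => rfl) k0_B04pp_133_s1

theorem s_B04pp_133_s1 {κ x : ℝ} (hκ : κ * h0 = ken x) (hx : ((50331648 : ℕ) : ℝ) / S ≤ x)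
    (hx' : x ≤ (((50331648 : ℕ) : ℝ) + (16777216 : ℕ)) / S) :
    AltB (VF κ) PP tKF tL pcF [⟨3, 0, 0, 1449551462⟩] 1 3 3 0 4 (sgb true) (sgb true) x :=
  strip_altB (m := 1449551462) true rfl hκ covF01 covF43 hx hx' c_B04pp_133_s1 cutB_nil (noExt_B)

noncomputable def cut_B04pp_202_s1 : Cut := Cut.of [[⟨4, 0, 0, 1449551462⟩]]

noncomputable def f_B04pp_202_s1 : ℕ → ℕ → ℕ → ℕ → Bool := onCell 0 536870912 1073741824 536870912 50331648 16777216
    (rowFK 0 false true true .pp 2 0 2 (qsf 0 536870912 1073741824 536870912 0) ndF0q2 ndF4q2 pcF0 cut_B04pp_202_s1 Ext.none)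

def k0_B04pp_202_s1 : ∃ t, chk3 f_B04pp_202_s1 t 1 1 1 = true :=
  ⟨(l 5), by decide +kernel⟩

theorem c_B04pp_202_s1 : CertF 0 536870912 1073741824 536870912 50331648 16777216 false true true .pp 2 0 2
    ndF0q2 ndF4q2 pcF0 cut_B04pp_202_s1 Ext.none :=
  certFK0 (fam := false) (s1 := true) (s2 := true) (a := 2) (b := 0) (c := 2) (cn := .pp) (n1 := ndF0q2) (n2 := ndF4q2) (pc := pcF0) (cut := cut_B04pp_202_s1) (xt := Ext.none) (P1 := 0) (W1 := 536870912) (P2 := 1073741824) (W2 := 536870912) (P3 := 50331648) (W3 := 16777216)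
    rfl rfl rfl k0_B04pp_202_s1

theorem s_B04pp_202_s1 {κ x : ℝ} (hκ : κ * h0 = ken x) (hx : ((50331648 : ℕ) : ℝ) / S ≤ x)
    (hx' : x ≤ (((50331648 : ℕ) : ℝ) + (16777216 : ℕ)) / S) :
    AltB (VF κ) PP tKF tL pcF [⟨3, 0, 0, 1449551462⟩] 2 0 2 0 4 (sgb true) (sgb true) x :=
  strip_altB (m := 1449551462) true rfl hκ covF02 covF42 hx hx' c_B04pp_202_s1 cutB_nil (noExt_B)

noncomputable def cut_B04pp_203_s1 : Cut := Cut.of [[⟨4, 0, 0, 1449551462⟩]]

noncomputable def f_B04pp_203_s1 : ℕ → ℕ → ℕ → ℕ → Bool := onCell 0 536870912 0 1230186008 50331648 16777216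
    (rowFK 0 false true true .up 2 0 3 (qsf 0 536870912 0 1230186008 0) ndF0q2 ndF4q3 pcF0 cut_B04pp_203_s1 Ext.none)

def k0_B04pp_203_s1 : ∃ t, chk3 f_B04pp_203_s1 t 1 1 1 = true :=
  ⟨(b (l 2) (b (l 2) (a (l 5) (l 3)))), by decide +kernel⟩

theorem c_B04pp_203_s1 : CertF 0 536870912 0 1230186008 50331648 16777216 false true true .up 2 0 3
    ndF0q2 ndF4q3 pcF0 cut_B04pp_203_s1 Ext.none :=
  certFK0 (fam := false) (s1 := true) (s2 := true) (a := 2) (b := 0) (c := 3) (cn := .up) (n1 := ndF0q2) (n2 := ndF4q3) (pc := pcF0) (cut := cut_B04pp_203_s1) (xt := Ext.none) (P1 := 0) (W1 := 536870912) (P2 := 0) (W2 := 1230186008) (P3 := 50331648) (W3 := 16777216)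
    rfl rfl rfl k0_B04pp_203_s1

theorem s_B04pp_203_s1 {κ x : ℝ} (hκ : κ * h0 = ken x) (hx : ((50331648 : ℕ) : ℝ) / S ≤ x)
    (hx' : x ≤ (((50331648 : ℕ) : ℝ) + (16777216 : ℕ)) / S) :
    AltB (VF κ) PP tKF tL pcF [⟨3, 0, 0, 1449551462⟩] 2 0 3 0 4 (sgb true) (sgb true) x :=
  strip_altB (m := 1449551462) true rfl hκ covF02 covF43 hx hx' c_B04pp_203_s1 cutB_nil (noExt_B)

noncomputable def cut_B04pp_213_s1 : Cut := Cut.of [[⟨4, 0, 0, 1449551462⟩], [⟨0, 1, 0, 14341072⟩, ⟨1, 1, 0, 14341072⟩, ⟨2, 2, 0, 761489⟩]]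

noncomputable def f_B04pp_213_s1 : ℕ → ℕ → ℕ → ℕ → Bool := onCell 0 536870912 0 1230186008 50331648 16777216
    (rowFK 0 false true true .pnn 2 1 3 (qsf 0 536870912 0 1230186008 1) ndF0q2 ndF4q3 pcF1 cut_B04pp_213_s1 Ext.none)

def k0_B04pp_213_s1 : ∃ t, chk3 f_B04pp_213_s1 t 1 1 1 = true :=
  ⟨(a (b (l 3) (l 5)) (b (b (a (l 3) (b (a (l 3) (b (a (l 3) (b (a (l 3) (l 14)) (l 3))) (l 3))) (l 3))) (l 3)) (b (l 3) (l 3)))), by decide +kernel⟩

theorem c_B04pp_213_s1 : CertF 0 536870912 0 1230186008 50331648 16777216 false true true .pnn 2 1 3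
    ndF0q2 ndF4q3 pcF1 cut_B04pp_213_s1 Ext.none :=
  certFK0 (fam := false) (s1 := true) (s2 := true) (a := 2) (b := 1) (c := 3) (cn := .pnn) (n1 := ndF0q2) (n2 := ndF4q3) (pc := pcF1) (cut := cut_B04pp_213_s1) (xt := Ext.none) (P1 := 0) (W1 := 536870912) (P2 := 0) (W2 := 1230186008) (P3 := 50331648) (W3 := 16777216)
    rfl rfl rfl k0_B04pp_213_s1

theorem s_B04pp_213_s1 {κ x : ℝ} (hκ : κ * h0 = ken x) (hx : ((50331648 : ℕ) : ℝ) / S ≤ x)
    (hx' : x ≤ (((50331648 : ℕ) : ℝ) + (16777216 : ℕ)) / S)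
    (H : CutB (VF κ) PP tKF tL pcF (Cut.of [[⟨0, 1, 0, 14341072⟩, ⟨1, 1, 0, 14341072⟩, ⟨2, 2, 0, 761489⟩]]) 2 1 3 0 4 (sgb true) (sgb true) x) :
    AltB (VF κ) PP tKF tL pcF [⟨3, 0, 0, 1449551462⟩] 2 1 3 0 4 (sgb true) (sgb true) x :=
  strip_altB (m := 1449551462) true rfl hκ covF02 covF43 hx hx' c_B04pp_213_s1 H (noExt_B)

noncomputable def cut_B04pm_001_s1 : Cut := Cut.of [[⟨4, 0, 0, 1449551462⟩]]

noncomputable def f_B04pm_001_s1 : ℕ → ℕ → ℕ → ℕ → Bool := onCell 0 536870912 536870912 536870912 50331648 16777216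
    (rowFK 0 false true false .up 0 0 1 (qsf 0 536870912 536870912 536870912 0) ndF0q0 ndF4q1 pcF0 cut_B04pm_001_s1 Ext.none)

def k0_B04pm_001_s1 : ∃ t, chk3 f_B04pm_001_s1 t 1 1 1 = true :=
  ⟨(l 4), by decide +kernel⟩

theorem c_B04pm_001_s1 : CertF 0 536870912 536870912 536870912 50331648 16777216 false true false .up 0 0 1
    ndF0q0 ndF4q1 pcF0 cut_B04pm_001_s1 Ext.none :=
  certFK0 (fam := false) (s1 := true) (s2 := false) (a := 0) (b := 0) (c := 1) (cn := .up) (n1 := ndF0q0) (n2 := ndF4q1) (pc := pcF0) (cut := cut_B04pm_001_s1) (xt := Ext.none) (P1 := 0) (W1 := 536870912) (P2 := 536870912) (W2 := 536870912) (P3 := 50331648) (W3 := 16777216)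
    rfl rfl rfl k0_B04pm_001_s1

theorem s_B04pm_001_s1 {κ x : ℝ} (hκ : κ * h0 = ken x) (hx : ((50331648 : ℕ) : ℝ) / S ≤ x)
    (hx' : x ≤ (((50331648 : ℕ) : ℝ) + (16777216 : ℕ)) / S) :
    AltB (VF κ) PP tKF tL pcF [⟨3, 0, 0, 1449551462⟩] 0 0 1 0 4 (sgb true) (sgb false) x :=
  strip_altB (m := 1449551462) true rfl hκ covF00 covF41 hx hx' c_B04pm_001_s1 cutB_nil (noExt_B)

noncomputable def cut_B04pm_011_s1 : Cut := Cut.of [[⟨4, 0, 0, 1449551462⟩]]

noncomputable def f_B04pm_011_s1 : ℕ → ℕ → ℕ → ℕ → Bool := onCell 0 536870912 536870912 536870912 50331648 16777216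
    (rowFK 0 false true false .pnn 0 1 1 (qsf 0 536870912 536870912 536870912 1) ndF0q0 ndF4q1 pcF1 cut_B04pm_011_s1 Ext.none)

def k0_B04pm_011_s1 : ∃ t, chk3 f_B04pm_011_s1 t 1 1 1 = true :=
  ⟨(l 4), by decide +kernel⟩

theorem c_B04pm_011_s1 : CertF 0 536870912 536870912 536870912 50331648 16777216 false true false .pnn 0 1 1
    ndF0q0 ndF4q1 pcF1 cut_B04pm_011_s1 Ext.none :=
  certFK0 (fam := false) (s1 := true) (s2 := false) (a := 0) (b := 1) (c := 1) (cn := .pnn) (n1 := ndF0q0) (n2 := ndF4q1) (pc := pcF1) (cut := cut_B04pm_011_s1) (xt := Ext.none) (P1 := 0) (W1 := 536870912) (P2 := 536870912) (W2 := 536870912) (P3 := 50331648) (W3 := 16777216)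
    rfl rfl rfl k0_B04pm_011_s1

theorem s_B04pm_011_s1 {κ x : ℝ} (hκ : κ * h0 = ken x) (hx : ((50331648 : ℕ) : ℝ) / S ≤ x)
    (hx' : x ≤ (((50331648 : ℕ) : ℝ) + (16777216 : ℕ)) / S) :
    AltB (VF κ) PP tKF tL pcF [⟨3, 0, 0, 1449551462⟩] 0 1 1 0 4 (sgb true) (sgb false) x :=
  strip_altB (m := 1449551462) true rfl hκ covF00 covF41 hx hx' c_B04pm_011_s1 cutB_nil (noExt_B)

noncomputable def cut_B04pm_012_s1 : Cut := Cut.of [[⟨4, 0, 0, 1449551462⟩]]

noncomputable def f_B04pm_012_s1 : ℕ → ℕ → ℕ → ℕ → Bool := onCell 0 536870912 1073741824 536870912 50331648 16777216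
    (rowFK 0 false true false .pnp 0 1 2 (qsf 0 536870912 1073741824 536870912 1) ndF0q0 ndF4q2 pcF1 cut_B04pm_012_s1 Ext.none)

def k0_B04pm_012_s1 : ∃ t, chk3 f_B04pm_012_s1 t 1 1 1 = true :=
  ⟨(l 4), by decide +kernel⟩

theorem c_B04pm_012_s1 : CertF 0 536870912 1073741824 536870912 50331648 16777216 false true false .pnp 0 1 2
    ndF0q0 ndF4q2 pcF1 cut_B04pm_012_s1 Ext.none :=
  certFK0 (fam := false) (s1 := true) (s2 := false) (a := 0) (b := 1) (c := 2) (cn := .pnp) (n1 := ndF0q0) (n2 := ndF4q2) (pc := pcF1) (cut := cut_B04pm_012_s1) (xt := Ext.none) (P1 := 0) (W1 := 536870912) (P2 := 1073741824) (W2 := 536870912) (P3 := 50331648) (W3 := 16777216)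
    rfl rfl rfl k0_B04pm_012_s1

theorem s_B04pm_012_s1 {κ x : ℝ} (hκ : κ * h0 = ken x) (hx : ((50331648 : ℕ) : ℝ) / S ≤ x)
    (hx' : x ≤ (((50331648 : ℕ) : ℝ) + (16777216 : ℕ)) / S) :
    AltB (VF κ) PP tKF tL pcF [⟨3, 0, 0, 1449551462⟩] 0 1 2 0 4 (sgb true) (sgb false) x :=
  strip_altB (m := 1449551462) true rfl hκ covF00 covF42 hx hx' c_B04pm_012_s1 cutB_nil (noExt_B)

noncomputable def cut_B04pm_022_s1 : Cut := Cut.of [[⟨4, 0, 0, 1449551462⟩]]

noncomputable def f_B04pm_022_s1 : ℕ → ℕ → ℕ → ℕ → Bool := onCell 0 536870912 1073741824 536870912 50331648 16777216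
    (rowFK 0 false true false .pp 0 2 2 (qsf 0 536870912 1073741824 536870912 2) ndF0q0 ndF4q2 pcF2 cut_B04pm_022_s1 Ext.none)

def k0_B04pm_022_s1 : ∃ t, chk3 f_B04pm_022_s1 t 1 1 1 = true :=
  ⟨(l 4), by decide +kernel⟩

theorem c_B04pm_022_s1 : CertF 0 536870912 1073741824 536870912 50331648 16777216 false true false .pp 0 2 2
    ndF0q0 ndF4q2 pcF2 cut_B04pm_022_s1 Ext.none :=
  certFK0 (fam := false) (s1 := true) (s2 := false) (a := 0) (b := 2) (c := 2) (cn := .pp) (n1 := ndF0q0) (n2 := ndF4q2) (pc := pcF2) (cut := cut_B04pm_022_s1) (xt := Ext.none) (P1 := 0) (W1 := 536870912) (P2 := 1073741824) (W2 := 536870912) (P3 := 50331648) (W3 := 16777216)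
    rfl rfl rfl k0_B04pm_022_s1

theorem s_B04pm_022_s1 {κ x : ℝ} (hκ : κ * h0 = ken x) (hx : ((50331648 : ℕ) : ℝ) / S ≤ x)
    (hx' : x ≤ (((50331648 : ℕ) : ℝ) + (16777216 : ℕ)) / S) :
    AltB (VF κ) PP tKF tL pcF [⟨3, 0, 0, 1449551462⟩] 0 2 2 0 4 (sgb true) (sgb false) x :=
  strip_altB (m := 1449551462) true rfl hκ covF00 covF42 hx hx' c_B04pm_022_s1 cutB_nil (noExt_B)

noncomputable def cut_B04pm_023_s1 : Cut := Cut.of [[⟨4, 0, 0, 1449551462⟩]]

noncomputable def f_B04pm_023_s1 : ℕ → ℕ → ℕ → ℕ → Bool := onCell 0 536870912 0 1230186008 50331648 16777216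
    (rowFK 0 false true false .up 0 2 3 (qsf 0 536870912 0 1230186008 2) ndF0q0 ndF4q3 pcF2 cut_B04pm_023_s1 Ext.none)

def k0_B04pm_023_s1 : ∃ t, chk3 f_B04pm_023_s1 t 1 1 1 = true :=
  ⟨(l 6), by decide +kernel⟩

theorem c_B04pm_023_s1 : CertF 0 536870912 0 1230186008 50331648 16777216 false true false .up 0 2 3
    ndF0q0 ndF4q3 pcF2 cut_B04pm_023_s1 Ext.none :=
  certFK0 (fam := false) (s1 := true) (s2 := false) (a := 0) (b := 2) (c := 3) (cn := .up) (n1 := ndF0q0) (n2 := ndF4q3) (pc := pcF2) (cut := cut_B04pm_023_s1) (xt := Ext.none) (P1 := 0) (W1 := 536870912) (P2 := 0) (W2 := 1230186008) (P3 := 50331648) (W3 := 16777216)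
    rfl rfl rfl k0_B04pm_023_s1

theorem s_B04pm_023_s1 {κ x : ℝ} (hκ : κ * h0 = ken x) (hx : ((50331648 : ℕ) : ℝ) / S ≤ x)
    (hx' : x ≤ (((50331648 : ℕ) : ℝ) + (16777216 : ℕ)) / S) :
    AltB (VF κ) PP tKF tL pcF [⟨3, 0, 0, 1449551462⟩] 0 2 3 0 4 (sgb true) (sgb false) x :=
  strip_altB (m := 1449551462) true rfl hκ covF00 covF43 hx hx' c_B04pm_023_s1 cutB_nil (noExt_B)

noncomputable def cut_B04pm_033_s1 : Cut := Cut.of [[⟨4, 0, 0, 1449551462⟩]]

noncomputable def f_B04pm_033_s1 : ℕ → ℕ → ℕ → ℕ → Bool := onCell 0 536870912 0 1230186008 50331648 16777216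
    (rowFK 0 false true false .pnn 0 3 3 (qsf 0 536870912 0 1230186008 3) ndF0q0 ndF4q3 pcF3 cut_B04pm_033_s1 Ext.none)

def k0_B04pm_033_s1 : ∃ t, chk3 f_B04pm_033_s1 t 1 1 1 = true :=
  ⟨(l 6), by decide +kernel⟩

theorem c_B04pm_033_s1 : CertF 0 536870912 0 1230186008 50331648 16777216 false true false .pnn 0 3 3
    ndF0q0 ndF4q3 pcF3 cut_B04pm_033_s1 Ext.none :=
  certFK0 (fam := false) (s1 := true) (s2 := false) (a := 0) (b := 3) (c := 3) (cn := .pnn) (n1 := ndF0q0) (n2 := ndF4q3) (pc := pcF3) (cut := cut_B04pm_033_s1) (xt := Ext.none) (P1 := 0) (W1 := 536870912) (P2 := 0) (W2 := 1230186008) (P3 := 50331648) (W3 := 16777216)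
    rfl rfl rfl k0_B04pm_033_s1

theorem s_B04pm_033_s1 {κ x : ℝ} (hκ : κ * h0 = ken x) (hx : ((50331648 : ℕ) : ℝ) / S ≤ x)
    (hx' : x ≤ (((50331648 : ℕ) : ℝ) + (16777216 : ℕ)) / S) :
    AltB (VF κ) PP tKF tL pcF [⟨3, 0, 0, 1449551462⟩] 0 3 3 0 4 (sgb true) (sgb false) x :=
  strip_altB (m := 1449551462) true rfl hκ covF00 covF43 hx hx' c_B04pm_033_s1 cutB_nil (noExt_B)

noncomputable def cut_B04pm_101_s1 : Cut := Cut.of [[⟨4, 0, 0, 1449551462⟩]]

noncomputable def f_B04pm_101_s1 : ℕ → ℕ → ℕ → ℕ → Bool := onCell 536870912 536870912 536870912 536870912 50331648 16777216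
    (rowFK 0 false true false .npn 1 0 1 (qsf 536870912 536870912 536870912 536870912 0) ndF0q1 ndF4q1 pcF0 cut_B04pm_101_s1 Ext.none)

def k0_B04pm_101_s1 : ∃ t, chk3 f_B04pm_101_s1 t 1 1 1 = true :=
  ⟨(l 4), by decide +kernel⟩

theorem c_B04pm_101_s1 : CertF 536870912 536870912 536870912 536870912 50331648 16777216 false true false .npn 1 0 1
    ndF0q1 ndF4q1 pcF0 cut_B04pm_101_s1 Ext.none :=
  certFK0 (fam := false) (s1 := true) (s2 := false) (a := 1) (b := 0) (c := 1) (cn := .npn) (n1 := ndF0q1) (n2 := ndF4q1) (pc := pcF0) (cut := cut_B04pm_101_s1) (xt := Ext.none) (P1 := 536870912) (W1 := 536870912) (P2 := 536870912) (W2 := 536870912) (P3 := 50331648) (W3 := 16777216)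
    rfl rfl rfl k0_B04pm_101_s1

theorem s_B04pm_101_s1 {κ x : ℝ} (hκ : κ * h0 = ken x) (hx : ((50331648 : ℕ) : ℝ) / S ≤ x)
    (hx' : x ≤ (((50331648 : ℕ) : ℝ) + (16777216 : ℕ)) / S) :
    AltB (VF κ) PP tKF tL pcF [⟨3, 0, 0, 1449551462⟩] 1 0 1 0 4 (sgb true) (sgb false) x :=
  strip_altB (m := 1449551462) true rfl hκ covF01 covF41 hx hx' c_B04pm_101_s1 cutB_nil (noExt_B)

noncomputable def cut_B04pm_102_s1 : Cut := Cut.of [[⟨4, 0, 0, 1449551462⟩]]

noncomputable def f_B04pm_102_s1 : ℕ → ℕ → ℕ → ℕ → Bool := onCell 536870912 536870912 1073741824 536870912 50331648 16777216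
    (rowFK 0 false true false .npp 1 0 2 (qsf 536870912 536870912 1073741824 536870912 0) ndF0q1 ndF4q2 pcF0 cut_B04pm_102_s1 Ext.none)

def k0_B04pm_102_s1 : ∃ t, chk3 f_B04pm_102_s1 t 1 1 1 = true :=
  ⟨(l 6), by decide +kernel⟩

theorem c_B04pm_102_s1 : CertF 536870912 536870912 1073741824 536870912 50331648 16777216 false true false .npp 1 0 2
    ndF0q1 ndF4q2 pcF0 cut_B04pm_102_s1 Ext.none :=
  certFK0 (fam := false) (s1 := true) (s2 := false) (a := 1) (b := 0) (c := 2) (cn := .npp) (n1 := ndF0q1) (n2 := ndF4q2) (pc := pcF0) (cut := cut_B04pm_102_s1) (xt := Ext.none) (P1 := 536870912) (W1 := 536870912) (P2 := 1073741824) (W2 := 536870912) (P3 := 50331648) (W3 := 16777216)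
    rfl rfl rfl k0_B04pm_102_s1

theorem s_B04pm_102_s1 {κ x : ℝ} (hκ : κ * h0 = ken x) (hx : ((50331648 : ℕ) : ℝ) / S ≤ x)
    (hx' : x ≤ (((50331648 : ℕ) : ℝ) + (16777216 : ℕ)) / S) :
    AltB (VF κ) PP tKF tL pcF [⟨3, 0, 0, 1449551462⟩] 1 0 2 0 4 (sgb true) (sgb false) x :=
  strip_altB (m := 1449551462) true rfl hκ covF01 covF42 hx hx' c_B04pm_102_s1 cutB_nil (noExt_B)

noncomputable def cut_B04pm_112_s1 : Cut := Cut.of [[⟨4, 0, 0, 1449551462⟩]]

noncomputable def f_B04pm_112_s1 : ℕ → ℕ → ℕ → ℕ → Bool := onCell 536870912 536870912 1073741824 536870912 50331648 16777216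
    (rowFK 0 false true false .dn 1 1 2 (qsf 536870912 536870912 1073741824 536870912 1) ndF0q1 ndF4q2 pcF1 cut_B04pm_112_s1 Ext.none)

def k0_B04pm_112_s1 : ∃ t, chk3 f_B04pm_112_s1 t 1 1 1 = true :=
  ⟨(l 6), by decide +kernel⟩

theorem c_B04pm_112_s1 : CertF 536870912 536870912 1073741824 536870912 50331648 16777216 false true false .dn 1 1 2
    ndF0q1 ndF4q2 pcF1 cut_B04pm_112_s1 Ext.none :=
  certFK0 (fam := false) (s1 := true) (s2 := false) (a := 1) (b := 1) (c := 2) (cn := .dn) (n1 := ndF0q1) (n2 := ndF4q2) (pc := pcF1) (cut := cut_B04pm_112_s1) (xt := Ext.none) (P1 := 536870912) (W1 := 536870912) (P2 := 1073741824) (W2 := 536870912) (P3 := 50331648) (W3 := 16777216)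
    rfl rfl rfl k0_B04pm_112_s1

theorem s_B04pm_112_s1 {κ x : ℝ} (hκ : κ * h0 = ken x) (hx : ((50331648 : ℕ) : ℝ) / S ≤ x)
    (hx' : x ≤ (((50331648 : ℕ) : ℝ) + (16777216 : ℕ)) / S) :
    AltB (VF κ) PP tKF tL pcF [⟨3, 0, 0, 1449551462⟩] 1 1 2 0 4 (sgb true) (sgb false) x :=
  strip_altB (m := 1449551462) true rfl hκ covF01 covF42 hx hx' c_B04pm_112_s1 cutB_nil (noExt_B)

noncomputable def cut_B04pm_113_s1 : Cut := Cut.of [[⟨4, 0, 0, 1449551462⟩], [⟨0, 1, 0, 14341072⟩, ⟨1, 1, 0, 14341072⟩, ⟨2, 2, 0, 761489⟩]]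

noncomputable def f_B04pm_113_s1 : ℕ → ℕ → ℕ → ℕ → Bool := onCell 536870912 536870912 0 1230186008 50331648 16777216
    (rowFK 0 false true false .nn 1 1 3 (qsf 536870912 536870912 0 1230186008 1) ndF0q1 ndF4q3 pcF1 cut_B04pm_113_s1 Ext.none)

def k0_B04pm_113_s1 : ∃ t, chk3 f_B04pm_113_s1 t 1 1 1 = true :=
  ⟨(a (b (l 2) (l 6)) (b (a (l 2) (b (a (l 2) (b (a (l 2) (b (a (l 2) (b (a (l 2) (l 14)) (l 16795352))) (l 16814648))) (l 16866672))) (b (a (l 6) (l 16966472)) (l 6)))) (l 6))), by decide +kernel⟩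

theorem c_B04pm_113_s1 : CertF 536870912 536870912 0 1230186008 50331648 16777216 false true false .nn 1 1 3
    ndF0q1 ndF4q3 pcF1 cut_B04pm_113_s1 Ext.none :=
  certFK0 (fam := false) (s1 := true) (s2 := false) (a := 1) (b := 1) (c := 3) (cn := .nn) (n1 := ndF0q1) (n2 := ndF4q3) (pc := pcF1) (cut := cut_B04pm_113_s1) (xt := Ext.none) (P1 := 536870912) (W1 := 536870912) (P2 := 0) (W2 := 1230186008) (P3 := 50331648) (W3 := 16777216)
    rfl rfl rfl k0_B04pm_113_s1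

theorem s_B04pm_113_s1 {κ x : ℝ} (hκ : κ * h0 = ken x) (hx : ((50331648 : ℕ) : ℝ) / S ≤ x)
    (hx' : x ≤ (((50331648 : ℕ) : ℝ) + (16777216 : ℕ)) / S)
    (H : CutB (VF κ) PP tKF tL pcF (Cut.of [[⟨0, 1, 0, 14341072⟩, ⟨1, 1, 0, 14341072⟩, ⟨2, 2, 0, 761489⟩]]) 1 1 3 0 4 (sgb true) (sgb false) x) :
    AltB (VF κ) PP tKF tL pcF [⟨3, 0, 0, 1449551462⟩] 1 1 3 0 4 (sgb true) (sgb false) x :=
  strip_altB (m := 1449551462) true rfl hκ covF01 covF43 hx hx' c_B04pm_113_s1 H (noExt_B)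

noncomputable def cut_B04pm_123_s1 : Cut := Cut.of [[⟨4, 0, 0, 1449551462⟩], [⟨0, 1, 0, 14341072⟩, ⟨1, 1, 0, 14341072⟩, ⟨2, 2, 0, 761489⟩]]

noncomputable def f_B04pm_123_s1 : ℕ → ℕ → ℕ → ℕ → Bool := onCell 1073741824 536870912 0 1230186008 50331648 16777216
    (rowFK 2 false true false .npn 1 2 3 (qsf 536870912 536870912 0 1230186008 2) ndF0q1 ndF4q3 pcF2 cut_B04pm_123_s1 Ext.none)

def k0_B04pm_123_s1 : ∃ t, chk3 f_B04pm_123_s1 t 1 1 1 = true :=
  ⟨(b (a (b (a (a (a (a (b (b (b (a (l 14) (l 16788008)) (l 16792744)) (l 16807904)) (l 16861160)) (b (l 17224864) (l 16814456))) (b (l 17072464) (l 16842584))) (b (l 17101784) (l 6))) (b (l 6) (l 6))) (b (l 6) (l 6))) (l 6)) (l 6)), by decide +kernel⟩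

theorem c_B04pm_123_s1 : CertF 536870912 536870912 0 1230186008 50331648 16777216 false true false .npn 1 2 3
    ndF0q1 ndF4q3 pcF2 cut_B04pm_123_s1 Ext.none :=
  certFK2 (fam := false) (s1 := true) (s2 := false) (a := 1) (b := 2) (c := 3) (cn := .npn) (n1 := ndF0q1) (n2 := ndF4q3) (pc := pcF2) (cut := cut_B04pm_123_s1) (xt := Ext.none) (P1 := 536870912) (W1 := 536870912) (P2 := 0) (W2 := 1230186008) (P3 := 50331648) (W3 := 16777216)
    rfl rfl rfl (fun _ => rfl) k0_B04pm_123_s1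

theorem s_B04pm_123_s1 {κ x : ℝ} (hκ : κ * h0 = ken x) (hx : ((50331648 : ℕ) : ℝ) / S ≤ x)
    (hx' : x ≤ (((50331648 : ℕ) : ℝ) + (16777216 : ℕ)) / S)
    (H : CutB (VF κ) PP tKF tL pcF (Cut.of [[⟨0, 1, 0, 14341072⟩, ⟨1, 1, 0, 14341072⟩, ⟨2, 2, 0, 761489⟩]]) 1 2 3 0 4 (sgb true) (sgb false) x) :
    AltB (VF κ) PP tKF tL pcF [⟨3, 0, 0, 1449551462⟩] 1 2 3 0 4 (sgb true) (sgb false) x :=
  strip_altB (m := 1449551462) true rfl hκ covF01 covF43 hx hx' c_B04pm_123_s1 H (noExt_B)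

noncomputable def cut_B04pm_133_s1 : Cut := Cut.of [[⟨4, 0, 0, 1449551462⟩]]

noncomputable def f_B04pm_133_s1 : ℕ → ℕ → ℕ → ℕ → Bool := onCell 1610612736 536870912 0 1230186008 50331648 16777216
    (rowFK 2 false true false .dn 1 3 3 (qsf 536870912 536870912 0 1230186008 3) ndF0q1 ndF4q3 pcF3 cut_B04pm_133_s1 Ext.none)

def k0_B04pm_133_s1 : ∃ t, chk3 f_B04pm_133_s1 t 1 1 1 = true :=
  ⟨(l 6), by decide +kernel⟩

theorem c_B04pm_133_s1 : CertF 536870912 536870912 0 1230186008 50331648 16777216 false true false .dn 1 3 3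
    ndF0q1 ndF4q3 pcF3 cut_B04pm_133_s1 Ext.none :=
  certFK2 (fam := false) (s1 := true) (s2 := false) (a := 1) (b := 3) (c := 3) (cn := .dn) (n1 := ndF0q1) (n2 := ndF4q3) (pc := pcF3) (cut := cut_B04pm_133_s1) (xt := Ext.none) (P1 := 536870912) (W1 := 536870912) (P2 := 0) (W2 := 1230186008) (P3 := 50331648) (W3 := 16777216)
    rfl rfl rfl (fun _ => rfl) k0_B04pm_133_s1

theorem s_B04pm_133_s1 {κ x : ℝ} (hκ : κ * h0 = ken x) (hx : ((50331648 : ℕ) : ℝ) / S ≤ x)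
    (hx' : x ≤ (((50331648 : ℕ) : ℝ) + (16777216 : ℕ)) / S) :
    AltB (VF κ) PP tKF tL pcF [⟨3, 0, 0, 1449551462⟩] 1 3 3 0 4 (sgb true) (sgb false) x :=
  strip_altB (m := 1449551462) true rfl hκ covF01 covF43 hx hx' c_B04pm_133_s1 cutB_nil (noExt_B)

noncomputable def cut_B04pm_202_s1 : Cut := Cut.of [[⟨4, 0, 0, 1449551462⟩]]

noncomputable def f_B04pm_202_s1 : ℕ → ℕ → ℕ → ℕ → Bool := onCell 0 536870912 1073741824 536870912 50331648 16777216
    (rowFK 0 false true false .pp 2 0 2 (qsf 0 536870912 1073741824 536870912 0) ndF0q2 ndF4q2 pcF0 cut_B04pm_202_s1 Ext.none)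

def k0_B04pm_202_s1 : ∃ t, chk3 f_B04pm_202_s1 t 1 1 1 = true :=
  ⟨(a (b (l 6) (b (l 6) (l 6))) (l 6)), by decide +kernel⟩

theorem c_B04pm_202_s1 : CertF 0 536870912 1073741824 536870912 50331648 16777216 false true false .pp 2 0 2
    ndF0q2 ndF4q2 pcF0 cut_B04pm_202_s1 Ext.none :=
  certFK0 (fam := false) (s1 := true) (s2 := false) (a := 2) (b := 0) (c := 2) (cn := .pp) (n1 := ndF0q2) (n2 := ndF4q2) (pc := pcF0) (cut := cut_B04pm_202_s1) (xt := Ext.none) (P1 := 0) (W1 := 536870912) (P2 := 1073741824) (W2 := 536870912) (P3 := 50331648) (W3 := 16777216)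
    rfl rfl rfl k0_B04pm_202_s1

theorem s_B04pm_202_s1 {κ x : ℝ} (hκ : κ * h0 = ken x) (hx : ((50331648 : ℕ) : ℝ) / S ≤ x)
    (hx' : x ≤ (((50331648 : ℕ) : ℝ) + (16777216 : ℕ)) / S) :
    AltB (VF κ) PP tKF tL pcF [⟨3, 0, 0, 1449551462⟩] 2 0 2 0 4 (sgb true) (sgb false) x :=
  strip_altB (m := 1449551462) true rfl hκ covF02 covF42 hx hx' c_B04pm_202_s1 cutB_nil (noExt_B)

noncomputable def cut_B04pm_203_s1 : Cut := Cut.of [[⟨4, 0, 0, 1449551462⟩]]

noncomputable def f_B04pm_203_s1 : ℕ → ℕ → ℕ → ℕ → Bool := onCell 0 536870912 0 1230186008 50331648 16777216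
    (rowFK 0 false true false .up 2 0 3 (qsf 0 536870912 0 1230186008 0) ndF0q2 ndF4q3 pcF0 cut_B04pm_203_s1 Ext.none)

def k0_B04pm_203_s1 : ∃ t, chk3 f_B04pm_203_s1 t 1 1 1 = true :=
  ⟨(b (l 2) (b (l 2) (a (b (a (l 361953127351) (a (l 17196200) (l 6))) (a (a (b (l 17110632) (a (l 17184696) (l 17194416))) (b (l 17176240) (l 6))) (l 6))) (l 6)))), by decide +kernel⟩

theorem c_B04pm_203_s1 : CertF 0 536870912 0 1230186008 50331648 16777216 false true false .up 2 0 3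
    ndF0q2 ndF4q3 pcF0 cut_B04pm_203_s1 Ext.none :=
  certFK0 (fam := false) (s1 := true) (s2 := false) (a := 2) (b := 0) (c := 3) (cn := .up) (n1 := ndF0q2) (n2 := ndF4q3) (pc := pcF0) (cut := cut_B04pm_203_s1) (xt := Ext.none) (P1 := 0) (W1 := 536870912) (P2 := 0) (W2 := 1230186008) (P3 := 50331648) (W3 := 16777216)
    rfl rfl rfl k0_B04pm_203_s1

theorem s_B04pm_203_s1 {κ x : ℝ} (hκ : κ * h0 = ken x) (hx : ((50331648 : ℕ) : ℝ) / S ≤ x)
    (hx' : x ≤ (((50331648 : ℕ) : ℝ) + (16777216 : ℕ)) / S) :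
    AltB (VF κ) PP tKF tL pcF [⟨3, 0, 0, 1449551462⟩] 2 0 3 0 4 (sgb true) (sgb false) x :=
  strip_altB (m := 1449551462) true rfl hκ covF02 covF43 hx hx' c_B04pm_203_s1 cutB_nil (noExt_B)

noncomputable def cut_B04pm_213_s1 : Cut := Cut.of [[⟨4, 0, 0, 1449551462⟩], [⟨0, 1, 0, 14341072⟩, ⟨1, 1, 0, 14341072⟩, ⟨2, 2, 0, 761489⟩]]

noncomputable def xt_B04pm_213_s1 : Ext := strExt dd false true false .u2 .s2m .u0m .pnn 2 1 3 rfl rfl gf1 vv ndF0q2 ndF4q3

noncomputable def f_B04pm_213_s1 : ℕ → ℕ → ℕ → ℕ → Bool := onCell 0 536870912 0 1230186008 50331648 16777216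
    (rowFK 0 false true false .pnn 2 1 3 (qsf 0 536870912 0 1230186008 1) ndF0q2 ndF4q3 pcF1 cut_B04pm_213_s1 xt_B04pm_213_s1)

def k0_B04pm_213_s1 : ∃ t, chk3 f_B04pm_213_s1 t 1 1 1 = true :=
  ⟨(b (a (b (l 3) (a (l 3) (b (l 3) (l 542479119)))) (b (a (b (l 3) (a (l 3) (a (l 3) (l 539776527)))) (b (a (a (l 3) (a (l 3) (l 538698767))) (b (a (a (l 3) (a (l 3) (l 538060815))) (a (a (a (l 538018831) (l 537973775)) (a (l 537930255) (a (l 537926927) (l 537913615)))) (b (l 14) (l 16782480)))) (a (a (l 538424591) (a (l 538320911) (l 538226959))) (l 16833288)))) (a (a (l 539476751) (b (l 539679247) (l 16817568))) (b (a (l 16802792) (l 16812512)) (l 16841688))))) (a (a (b (l 541064207) (l 542085647)) (b (a (l 540721423) (l 540463887)) (l 16957464))) (b (a (l 17044912) (l 16917520)) (a (l 17036088) (l 17091744)))))) (b (a (a (b (a (l 3) (l 544558863)) (a (l 546762511) (l 546615055))) (b (a (l 544272143) (l 543898639)) (a (l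 546264591) (l 17275224)))) (a (b (l 17485296) (b (l 17424128) (l 6))) (b (l 6) (l 6)))) (a (a (b (a (l 549534223) (l 549316623)) (l 1)) (b (a (l 17758048) (l 6)) (l 6))) (l 6)))), by decide +kernel⟩

theorem c_B04pm_213_s1 : CertF 0 536870912 0 1230186008 50331648 16777216 false true false .pnn 2 1 3
    ndF0q2 ndF4q3 pcF1 cut_B04pm_213_s1 xt_B04pm_213_s1 :=
  certFK0 (fam := false) (s1 := true) (s2 := false) (a := 2) (b := 1) (c := 3) (cn := .pnn) (n1 := ndF0q2) (n2 := ndF4q3) (pc := pcF1) (cut := cut_B04pm_213_s1) (xt := xt_B04pm_213_s1) (P1 := 0) (W1 := 536870912) (P2 := 0) (W2 := 1230186008) (P3 := 50331648) (W3 := 16777216)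
    rfl rfl rfl k0_B04pm_213_s1

theorem s_B04pm_213_s1 {κ x : ℝ} (hκ : κ * h0 = ken x) (hx : ((50331648 : ℕ) : ℝ) / S ≤ x)
    (hx' : x ≤ (((50331648 : ℕ) : ℝ) + (16777216 : ℕ)) / S)
    (H : CutB (VF κ) PP tKF tL pcF (Cut.of [[⟨0, 1, 0, 14341072⟩, ⟨1, 1, 0, 14341072⟩, ⟨2, 2, 0, 761489⟩]]) 2 1 3 0 4 (sgb true) (sgb false) x) :
    AltB (VF κ) PP tKF tL pcF [⟨3, 0, 0, 1449551462⟩] 2 1 3 0 4 (sgb true) (sgb false) x :=
  strip_altB (m := 1449551462) true rfl hκ covF02 covF43 hx hx' c_B04pm_213_s1 H ((okx hx hx').extB (T := tt) (sideF hx hx') hκ rfl rfl (.O 2 true) (.N 3 false) (Or.inr rfl))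

noncomputable def cut_B04mm_001_s1 : Cut := Cut.of [[⟨4, 0, 0, 1449551462⟩]]

noncomputable def f_B04mm_001_s1 : ℕ → ℕ → ℕ → ℕ → Bool := onCell 0 536870912 0 536870912 50331648 16777216
    (rowFK 1 false false false .up 0 0 1 (qsf 0 536870912 536870912 536870912 0) ndF0q0 ndF4q1 pcF0 cut_B04mm_001_s1 Ext.none)

def k0_B04mm_001_s1 : ∃ t, chk3 f_B04mm_001_s1 t 1 1 1 = true :=
  ⟨(l 3), by decide +kernel⟩

theorem c_B04mm_001_s1 : CertF 0 536870912 536870912 536870912 50331648 16777216 false false false .up 0 0 1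
    ndF0q0 ndF4q1 pcF0 cut_B04mm_001_s1 Ext.none :=
  certFK1 (fam := false) (s1 := false) (s2 := false) (a := 0) (b := 0) (c := 1) (cn := .up) (n1 := ndF0q0) (n2 := ndF4q1) (pc := pcF0) (cut := cut_B04mm_001_s1) (xt := Ext.none) (P1 := 0) (W1 := 536870912) (P2 := 536870912) (W2 := 536870912) (P3 := 50331648) (W3 := 16777216)
    rfl rfl rfl (fun _ => rfl) k0_B04mm_001_s1

theorem s_B04mm_001_s1 {κ x : ℝ} (hκ : κ * h0 = ken x) (hx : ((50331648 : ℕ) : ℝ) / S ≤ x)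
    (hx' : x ≤ (((50331648 : ℕ) : ℝ) + (16777216 : ℕ)) / S) :
    AltB (VF κ) PP tKF tL pcF [⟨3, 0, 0, 1449551462⟩] 0 0 1 0 4 (sgb false) (sgb false) x :=
  strip_altB (m := 1449551462) true rfl hκ covF00 covF41 hx hx' c_B04mm_001_s1 cutB_nil (noExt_B)

noncomputable def cut_B04mm_011_s1 : Cut := Cut.of [[⟨4, 0, 0, 1449551462⟩]]

noncomputable def f_B04mm_011_s1 : ℕ → ℕ → ℕ → ℕ → Bool := onCell 0 536870912 536870912 536870912 50331648 16777216
    (rowFK 1 false false false .pnn 0 1 1 (qsf 0 536870912 536870912 536870912 1) ndF0q0 ndF4q1 pcF1 cut_B04mm_011_s1 Ext.none)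

def k0_B04mm_011_s1 : ∃ t, chk3 f_B04mm_011_s1 t 1 1 1 = true :=
  ⟨(l 5), by decide +kernel⟩

theorem c_B04mm_011_s1 : CertF 0 536870912 536870912 536870912 50331648 16777216 false false false .pnn 0 1 1
    ndF0q0 ndF4q1 pcF1 cut_B04mm_011_s1 Ext.none :=
  certFK1 (fam := false) (s1 := false) (s2 := false) (a := 0) (b := 1) (c := 1) (cn := .pnn) (n1 := ndF0q0) (n2 := ndF4q1) (pc := pcF1) (cut := cut_B04mm_011_s1) (xt := Ext.none) (P1 := 0) (W1 := 536870912) (P2 := 536870912) (W2 := 536870912) (P3 := 50331648) (W3 := 16777216)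
    rfl rfl rfl (fun _ => rfl) k0_B04mm_011_s1

theorem s_B04mm_011_s1 {κ x : ℝ} (hκ : κ * h0 = ken x) (hx : ((50331648 : ℕ) : ℝ) / S ≤ x)
    (hx' : x ≤ (((50331648 : ℕ) : ℝ) + (16777216 : ℕ)) / S) :
    AltB (VF κ) PP tKF tL pcF [⟨3, 0, 0, 1449551462⟩] 0 1 1 0 4 (sgb false) (sgb false) x :=
  strip_altB (m := 1449551462) true rfl hκ covF00 covF41 hx hx' c_B04mm_011_s1 cutB_nil (noExt_B)

noncomputable def cut_B04mm_012_s1 : Cut := Cut.of [[⟨4, 0, 0, 1449551462⟩]]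

noncomputable def f_B04mm_012_s1 : ℕ → ℕ → ℕ → ℕ → Bool := onCell 0 536870912 1073741824 536870912 50331648 16777216
    (rowFK 0 false false false .pnp 0 1 2 (qsf 0 536870912 1073741824 536870912 1) ndF0q0 ndF4q2 pcF1 cut_B04mm_012_s1 Ext.none)

def k0_B04mm_012_s1 : ∃ t, chk3 f_B04mm_012_s1 t 1 1 1 = true :=
  ⟨(l 5), by decide +kernel⟩

theorem c_B04mm_012_s1 : CertF 0 536870912 1073741824 536870912 50331648 16777216 false false false .pnp 0 1 2
    ndF0q0 ndF4q2 pcF1 cut_B04mm_012_s1 Ext.none :=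
  certFK0 (fam := false) (s1 := false) (s2 := false) (a := 0) (b := 1) (c := 2) (cn := .pnp) (n1 := ndF0q0) (n2 := ndF4q2) (pc := pcF1) (cut := cut_B04mm_012_s1) (xt := Ext.none) (P1 := 0) (W1 := 536870912) (P2 := 1073741824) (W2 := 536870912) (P3 := 50331648) (W3 := 16777216)
    rfl rfl rfl k0_B04mm_012_s1

theorem s_B04mm_012_s1 {κ x : ℝ} (hκ : κ * h0 = ken x) (hx : ((50331648 : ℕ) : ℝ) / S ≤ x)
    (hx' : x ≤ (((50331648 : ℕ) : ℝ) + (16777216 : ℕ)) / S) :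
    AltB (VF κ) PP tKF tL pcF [⟨3, 0, 0, 1449551462⟩] 0 1 2 0 4 (sgb false) (sgb false) x :=
  strip_altB (m := 1449551462) true rfl hκ covF00 covF42 hx hx' c_B04mm_012_s1 cutB_nil (noExt_B)

noncomputable def cut_B04mm_022_s1 : Cut := Cut.of [[⟨4, 0, 0, 1449551462⟩]]

noncomputable def f_B04mm_022_s1 : ℕ → ℕ → ℕ → ℕ → Bool := onCell 0 536870912 1073741824 536870912 50331648 16777216
    (rowFK 0 false false false .pp 0 2 2 (qsf 0 536870912 1073741824 536870912 2) ndF0q0 ndF4q2 pcF2 cut_B04mm_022_s1 Ext.none)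

def k0_B04mm_022_s1 : ∃ t, chk3 f_B04mm_022_s1 t 1 1 1 = true :=
  ⟨(l 5), by decide +kernel⟩

theorem c_B04mm_022_s1 : CertF 0 536870912 1073741824 536870912 50331648 16777216 false false false .pp 0 2 2
    ndF0q0 ndF4q2 pcF2 cut_B04mm_022_s1 Ext.none :=
  certFK0 (fam := false) (s1 := false) (s2 := false) (a := 0) (b := 2) (c := 2) (cn := .pp) (n1 := ndF0q0) (n2 := ndF4q2) (pc := pcF2) (cut := cut_B04mm_022_s1) (xt := Ext.none) (P1 := 0) (W1 := 536870912) (P2 := 1073741824) (W2 := 536870912) (P3 := 50331648) (W3 := 16777216)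
    rfl rfl rfl k0_B04mm_022_s1

theorem s_B04mm_022_s1 {κ x : ℝ} (hκ : κ * h0 = ken x) (hx : ((50331648 : ℕ) : ℝ) / S ≤ x)
    (hx' : x ≤ (((50331648 : ℕ) : ℝ) + (16777216 : ℕ)) / S) :
    AltB (VF κ) PP tKF tL pcF [⟨3, 0, 0, 1449551462⟩] 0 2 2 0 4 (sgb false) (sgb false) x :=
  strip_altB (m := 1449551462) true rfl hκ covF00 covF42 hx hx' c_B04mm_022_s1 cutB_nil (noExt_B)

noncomputable def cut_B04mm_023_s1 : Cut := Cut.of [[⟨4, 0, 0, 1449551462⟩]]

noncomputable def f_B04mm_023_s1 : ℕ → ℕ → ℕ → ℕ → Bool := onCell 0 536870912 0 1230186008 50331648 16777216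
    (rowFK 0 false false false .up 0 2 3 (qsf 0 536870912 0 1230186008 2) ndF0q0 ndF4q3 pcF2 cut_B04mm_023_s1 Ext.none)

def k0_B04mm_023_s1 : ∃ t, chk3 f_B04mm_023_s1 t 1 1 1 = true :=
  ⟨(l 5), by decide +kernel⟩

theorem c_B04mm_023_s1 : CertF 0 536870912 0 1230186008 50331648 16777216 false false false .up 0 2 3
    ndF0q0 ndF4q3 pcF2 cut_B04mm_023_s1 Ext.none :=
  certFK0 (fam := false) (s1 := false) (s2 := false) (a := 0) (b := 2) (c := 3) (cn := .up) (n1 := ndF0q0) (n2 := ndF4q3) (pc := pcF2) (cut := cut_B04mm_023_s1) (xt := Ext.none) (P1 := 0) (W1 := 536870912) (P2 := 0) (W2 := 1230186008) (P3 := 50331648) (W3 := 16777216)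
    rfl rfl rfl k0_B04mm_023_s1

theorem s_B04mm_023_s1 {κ x : ℝ} (hκ : κ * h0 = ken x) (hx : ((50331648 : ℕ) : ℝ) / S ≤ x)
    (hx' : x ≤ (((50331648 : ℕ) : ℝ) + (16777216 : ℕ)) / S) :
    AltB (VF κ) PP tKF tL pcF [⟨3, 0, 0, 1449551462⟩] 0 2 3 0 4 (sgb false) (sgb false) x :=
  strip_altB (m := 1449551462) true rfl hκ covF00 covF43 hx hx' c_B04mm_023_s1 cutB_nil (noExt_B)

noncomputable def cut_B04mm_033_s1 : Cut := Cut.of [[⟨4, 0, 0, 1449551462⟩]]

noncomputable def f_B04mm_033_s1 : ℕ → ℕ → ℕ → ℕ → Bool := onCell 0 536870912 0 1230186008 50331648 16777216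
    (rowFK 0 false false false .pnn 0 3 3 (qsf 0 536870912 0 1230186008 3) ndF0q0 ndF4q3 pcF3 cut_B04mm_033_s1 Ext.none)

def k0_B04mm_033_s1 : ∃ t, chk3 f_B04mm_033_s1 t 1 1 1 = true :=
  ⟨(l 5), by decide +kernel⟩

theorem c_B04mm_033_s1 : CertF 0 536870912 0 1230186008 50331648 16777216 false false false .pnn 0 3 3
    ndF0q0 ndF4q3 pcF3 cut_B04mm_033_s1 Ext.none :=
  certFK0 (fam := false) (s1 := false) (s2 := false) (a := 0) (b := 3) (c := 3) (cn := .pnn) (n1 := ndF0q0) (n2 := ndF4q3) (pc := pcF3) (cut := cut_B04mm_033_s1) (xt := Ext.none) (P1 := 0) (W1 := 536870912) (P2 := 0) (W2 := 1230186008) (P3 := 50331648) (W3 := 16777216)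
    rfl rfl rfl k0_B04mm_033_s1

theorem s_B04mm_033_s1 {κ x : ℝ} (hκ : κ * h0 = ken x) (hx : ((50331648 : ℕ) : ℝ) / S ≤ x)
    (hx' : x ≤ (((50331648 : ℕ) : ℝ) + (16777216 : ℕ)) / S) :
    AltB (VF κ) PP tKF tL pcF [⟨3, 0, 0, 1449551462⟩] 0 3 3 0 4 (sgb false) (sgb false) x :=
  strip_altB (m := 1449551462) true rfl hκ covF00 covF43 hx hx' c_B04mm_033_s1 cutB_nil (noExt_B)

noncomputable def cut_B04mm_101_s1 : Cut := Cut.of [[⟨4, 0, 0, 1449551462⟩], [⟨0, 1, 0, 50331648⟩, ⟨1, 0, 0, 50331648⟩, ⟨2, 1, 0, 50331648⟩]]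

noncomputable def f_B04mm_101_s1 : ℕ → ℕ → ℕ → ℕ → Bool := onCell 536870912 536870912 0 536870912 50331648 16777216
    (rowFK 1 false false false .npn 1 0 1 (qsf 536870912 536870912 536870912 536870912 0) ndF0q1 ndF4q1 pcF0 cut_B04mm_101_s1 Ext.none)

def k0_B04mm_101_s1 : ∃ t, chk3 f_B04mm_101_s1 t 1 1 1 = true :=
  ⟨(a (l 3) (b (b (a (l 3) (b (a (l 3) (a (l 3) (b (l 14) (l 3)))) (l 3))) (l 3)) (l 3))), by decide +kernel⟩

theorem c_B04mm_101_s1 : CertF 536870912 536870912 536870912 536870912 50331648 16777216 false false false .npn 1 0 1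
    ndF0q1 ndF4q1 pcF0 cut_B04mm_101_s1 Ext.none :=
  certFK1 (fam := false) (s1 := false) (s2 := false) (a := 1) (b := 0) (c := 1) (cn := .npn) (n1 := ndF0q1) (n2 := ndF4q1) (pc := pcF0) (cut := cut_B04mm_101_s1) (xt := Ext.none) (P1 := 536870912) (W1 := 536870912) (P2 := 536870912) (W2 := 536870912) (P3 := 50331648) (W3 := 16777216)
    rfl rfl rfl (fun _ => rfl) k0_B04mm_101_s1

theorem s_B04mm_101_s1 {κ x : ℝ} (hκ : κ * h0 = ken x) (hx : ((50331648 : ℕ) : ℝ) / S ≤ x)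
    (hx' : x ≤ (((50331648 : ℕ) : ℝ) + (16777216 : ℕ)) / S)
    (H : CutB (VF κ) PP tKF tL pcF (Cut.of [[⟨0, 1, 0, 50331648⟩, ⟨1, 0, 0, 50331648⟩, ⟨2, 1, 0, 50331648⟩]]) 1 0 1 0 4 (sgb false) (sgb false) x) :
    AltB (VF κ) PP tKF tL pcF [⟨3, 0, 0, 1449551462⟩] 1 0 1 0 4 (sgb false) (sgb false) x :=
  strip_altB (m := 1449551462) true rfl hκ covF01 covF41 hx hx' c_B04mm_101_s1 H (noExt_B)

noncomputable def cut_B04mm_102_s1 : Cut := Cut.of [[⟨4, 0, 0, 1449551462⟩], [⟨0, 1, 0, 50331648⟩, ⟨1, 0, 0, 50331648⟩, ⟨2, 1, 0, 50331648⟩]]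

noncomputable def f_B04mm_102_s1 : ℕ → ℕ → ℕ → ℕ → Bool := onCell 536870912 536870912 0 536870912 50331648 16777216
    (rowFK 1 false false false .npp 1 0 2 (qsf 536870912 536870912 1073741824 536870912 0) ndF0q1 ndF4q2 pcF0 cut_B04mm_102_s1 Ext.none)

def k0_B04mm_102_s1 : ∃ t, chk3 f_B04mm_102_s1 t 1 1 1 = true :=
  ⟨(b (a (l 3) (b (a (l 3) (b (a (l 3) (a (l 3) (b (l 14) (l 3)))) (l 3))) (l 3))) (l 3)), by decide +kernel⟩

theorem c_B04mm_102_s1 : CertF 536870912 536870912 1073741824 536870912 50331648 16777216 false false false .npp 1 0 2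
    ndF0q1 ndF4q2 pcF0 cut_B04mm_102_s1 Ext.none :=
  certFK1 (fam := false) (s1 := false) (s2 := false) (a := 1) (b := 0) (c := 2) (cn := .npp) (n1 := ndF0q1) (n2 := ndF4q2) (pc := pcF0) (cut := cut_B04mm_102_s1) (xt := Ext.none) (P1 := 536870912) (W1 := 536870912) (P2 := 1073741824) (W2 := 536870912) (P3 := 50331648) (W3 := 16777216)
    rfl rfl rfl (fun _ => rfl) k0_B04mm_102_s1

theorem s_B04mm_102_s1 {κ x : ℝ} (hκ : κ * h0 = ken x) (hx : ((50331648 : ℕ) : ℝ) / S ≤ x)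
    (hx' : x ≤ (((50331648 : ℕ) : ℝ) + (16777216 : ℕ)) / S)
    (H : CutB (VF κ) PP tKF tL pcF (Cut.of [[⟨0, 1, 0, 50331648⟩, ⟨1, 0, 0, 50331648⟩, ⟨2, 1, 0, 50331648⟩]]) 1 0 2 0 4 (sgb false) (sgb false) x) :
    AltB (VF κ) PP tKF tL pcF [⟨3, 0, 0, 1449551462⟩] 1 0 2 0 4 (sgb false) (sgb false) x :=
  strip_altB (m := 1449551462) true rfl hκ covF01 covF42 hx hx' c_B04mm_102_s1 H (noExt_B)

noncomputable def cut_B04mm_112_s1 : Cut := Cut.of [[⟨4, 0, 0, 1449551462⟩]]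

noncomputable def f_B04mm_112_s1 : ℕ → ℕ → ℕ → ℕ → Bool := onCell 536870912 536870912 1073741824 536870912 50331648 16777216
    (rowFK 2 false false false .dn 1 1 2 (qsf 536870912 536870912 1073741824 536870912 1) ndF0q1 ndF4q2 pcF1 cut_B04mm_112_s1 Ext.none)

def k0_B04mm_112_s1 : ∃ t, chk3 f_B04mm_112_s1 t 1 1 1 = true :=
  ⟨(a (l 3) (l 5)), by decide +kernel⟩

theorem c_B04mm_112_s1 : CertF 536870912 536870912 1073741824 536870912 50331648 16777216 false false false .dn 1 1 2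
    ndF0q1 ndF4q2 pcF1 cut_B04mm_112_s1 Ext.none :=
  certFK2 (fam := false) (s1 := false) (s2 := false) (a := 1) (b := 1) (c := 2) (cn := .dn) (n1 := ndF0q1) (n2 := ndF4q2) (pc := pcF1) (cut := cut_B04mm_112_s1) (xt := Ext.none) (P1 := 536870912) (W1 := 536870912) (P2 := 1073741824) (W2 := 536870912) (P3 := 50331648) (W3 := 16777216)
    rfl rfl rfl (fun _ => rfl) k0_B04mm_112_s1

theorem s_B04mm_112_s1 {κ x : ℝ} (hκ : κ * h0 = ken x) (hx : ((50331648 : ℕ) : ℝ) / S ≤ x)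
    (hx' : x ≤ (((50331648 : ℕ) : ℝ) + (16777216 : ℕ)) / S) :
    AltB (VF κ) PP tKF tL pcF [⟨3, 0, 0, 1449551462⟩] 1 1 2 0 4 (sgb false) (sgb false) x :=
  strip_altB (m := 1449551462) true rfl hκ covF01 covF42 hx hx' c_B04mm_112_s1 cutB_nil (noExt_B)

noncomputable def cut_B04mm_113_s1 : Cut := Cut.of [[⟨4, 0, 0, 1449551462⟩]]

noncomputable def f_B04mm_113_s1 : ℕ → ℕ → ℕ → ℕ → Bool := onCell 536870912 536870912 0 1230186008 50331648 16777216
    (rowFK 0 false false false .nn 1 1 3 (qsf 536870912 536870912 0 1230186008 1) ndF0q1 ndF4q3 pcF1 cut_B04mm_113_s1 Ext.none)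

def k0_B04mm_113_s1 : ∃ t, chk3 f_B04mm_113_s1 t 1 1 1 = true :=
  ⟨(b (l 5) (a (l 5) (b (a (l 5) (l 3)) (l 3)))), by decide +kernel⟩

theorem c_B04mm_113_s1 : CertF 536870912 536870912 0 1230186008 50331648 16777216 false false false .nn 1 1 3
    ndF0q1 ndF4q3 pcF1 cut_B04mm_113_s1 Ext.none :=
  certFK0 (fam := false) (s1 := false) (s2 := false) (a := 1) (b := 1) (c := 3) (cn := .nn) (n1 := ndF0q1) (n2 := ndF4q3) (pc := pcF1) (cut := cut_B04mm_113_s1) (xt := Ext.none) (P1 := 536870912) (W1 := 536870912) (P2 := 0) (W2 := 1230186008) (P3 := 50331648) (W3 := 16777216)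
    rfl rfl rfl k0_B04mm_113_s1

theorem s_B04mm_113_s1 {κ x : ℝ} (hκ : κ * h0 = ken x) (hx : ((50331648 : ℕ) : ℝ) / S ≤ x)
    (hx' : x ≤ (((50331648 : ℕ) : ℝ) + (16777216 : ℕ)) / S) :
    AltB (VF κ) PP tKF tL pcF [⟨3, 0, 0, 1449551462⟩] 1 1 3 0 4 (sgb false) (sgb false) x :=
  strip_altB (m := 1449551462) true rfl hκ covF01 covF43 hx hx' c_B04mm_113_s1 cutB_nil (noExt_B)

noncomputable def cut_B04mm_123_s1 : Cut := Cut.of [[⟨4, 0, 0, 1449551462⟩]]

noncomputable def f_B04mm_123_s1 : ℕ → ℕ → ℕ → ℕ → Bool := onCell 1073741824 536870912 0 1230186008 50331648 16777216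
    (rowFK 2 false false false .npn 1 2 3 (qsf 536870912 536870912 0 1230186008 2) ndF0q1 ndF4q3 pcF2 cut_B04mm_123_s1 Ext.none)

def k0_B04mm_123_s1 : ∃ t, chk3 f_B04mm_123_s1 t 1 1 1 = true :=
  ⟨(b (l 5) (l 5)), by decide +kernel⟩

theorem c_B04mm_123_s1 : CertF 536870912 536870912 0 1230186008 50331648 16777216 false false false .npn 1 2 3
    ndF0q1 ndF4q3 pcF2 cut_B04mm_123_s1 Ext.none :=
  certFK2 (fam := false) (s1 := false) (s2 := false) (a := 1) (b := 2) (c := 3) (cn := .npn) (n1 := ndF0q1) (n2 := ndF4q3) (pc := pcF2) (cut := cut_B04mm_123_s1) (xt := Ext.none) (P1 := 536870912) (W1 := 536870912) (P2 := 0) (W2 := 1230186008) (P3 := 50331648) (W3 := 16777216)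
    rfl rfl rfl (fun _ => rfl) k0_B04mm_123_s1

theorem s_B04mm_123_s1 {κ x : ℝ} (hκ : κ * h0 = ken x) (hx : ((50331648 : ℕ) : ℝ) / S ≤ x)
    (hx' : x ≤ (((50331648 : ℕ) : ℝ) + (16777216 : ℕ)) / S) :
    AltB (VF κ) PP tKF tL pcF [⟨3, 0, 0, 1449551462⟩] 1 2 3 0 4 (sgb false) (sgb false) x :=
  strip_altB (m := 1449551462) true rfl hκ covF01 covF43 hx hx' c_B04mm_123_s1 cutB_nil (noExt_B)

noncomputable def cut_B04mm_133_s1 : Cut := Cut.of [[⟨4, 0, 0, 1449551462⟩]]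

noncomputable def f_B04mm_133_s1 : ℕ → ℕ → ℕ → ℕ → Bool := onCell 1610612736 536870912 0 1230186008 50331648 16777216
    (rowFK 2 false false false .dn 1 3 3 (qsf 536870912 536870912 0 1230186008 3) ndF0q1 ndF4q3 pcF3 cut_B04mm_133_s1 Ext.none)

def k0_B04mm_133_s1 : ∃ t, chk3 f_B04mm_133_s1 t 1 1 1 = true :=
  ⟨(l 5), by decide +kernel⟩

theorem c_B04mm_133_s1 : CertF 536870912 536870912 0 1230186008 50331648 16777216 false false false .dn 1 3 3
    ndF0q1 ndF4q3 pcF3 cut_B04mm_133_s1 Ext.none :=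
  certFK2 (fam := false) (s1 := false) (s2 := false) (a := 1) (b := 3) (c := 3) (cn := .dn) (n1 := ndF0q1) (n2 := ndF4q3) (pc := pcF3) (cut := cut_B04mm_133_s1) (xt := Ext.none) (P1 := 536870912) (W1 := 536870912) (P2 := 0) (W2 := 1230186008) (P3 := 50331648) (W3 := 16777216)
    rfl rfl rfl (fun _ => rfl) k0_B04mm_133_s1

theorem s_B04mm_133_s1 {κ x : ℝ} (hκ : κ * h0 = ken x) (hx : ((50331648 : ℕ) : ℝ) / S ≤ x)
    (hx' : x ≤ (((50331648 : ℕ) : ℝ) + (16777216 : ℕ)) / S) :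
    AltB (VF κ) PP tKF tL pcF [⟨3, 0, 0, 1449551462⟩] 1 3 3 0 4 (sgb false) (sgb false) x :=
  strip_altB (m := 1449551462) true rfl hκ covF01 covF43 hx hx' c_B04mm_133_s1 cutB_nil (noExt_B)

noncomputable def cut_B04mm_202_s1 : Cut := Cut.of [[⟨4, 0, 0, 1449551462⟩], [⟨0, 1, 0, 16777216⟩, ⟨1, 0, 0, 16777216⟩, ⟨2, 1, 0, 16777216⟩]]

noncomputable def xt_B04mm_202_s1 : Ext := strExt dd false false false .u2 .s2m .u0m .pp 2 0 2 rfl rfl gf0 vv ndF0q2 ndF4q2

noncomputable def f_B04mm_202_s1 : ℕ → ℕ → ℕ → ℕ → Bool := onCell 0 536870912 0 536870912 50331648 16777216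
    (rowFK 1 false false false .pp 2 0 2 (qsf 0 536870912 1073741824 536870912 0) ndF0q2 ndF4q2 pcF0 cut_B04mm_202_s1 xt_B04mm_202_s1)

def k0_B04mm_202_s1 : ∃ t, chk3 f_B04mm_202_s1 t 2 4 1 = true :=
  ⟨(a (l 6) (b (b (l 6) (l 19305736)) (b (l 18696312) (a (l 18018464) (a (b (l 17674392) (l 17493232)) (l 17593256)))))), by decide +kernel⟩

def k1_B04mm_202_s1 : ∃ t, chk3 f_B04mm_202_s1 t 6 4 1 = true :=
  ⟨(b (b (a (l 18922216) (a (l 18339448) (l 18163096))) (a (l 18019840) (a (b (l 17739192) (l 17643520)) (l 17731232)))) (a (b (l 18014456) (a (l 17736840) (l 17462832))) (b (a (l 17755704) (b (l 17400672) (l 17325512))) (a (l 17559792) (l 17535512))))), by decide +kernel⟩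

def k2_B04mm_202_s1 : ∃ t, chk3 f_B04mm_202_s1 t 14 8 1 = true :=
  ⟨(b (b (a (l 17842184) (a (l 17553168) (l 17528032))) (a (l 17392208) (a (l 17432608) (b (l 17229096) (a (l 17121048) (l 17038216)))))) (a (b (a (l 17503792) (l 17397640)) (c (l 17202320) (l 17187640))) (b (a (l 17297296) (b (a (l 17181736) (l 17093648)) (a (l 17173216) (l 17089632)))) (a (l 17116552) (l 581419791))))), by decide +kernel⟩

def k3_B04mm_202_s1 : ∃ t, chk3 f_B04mm_202_s1 t 15 8 1 = true :=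
  ⟨(b (a (b (b (a (l 17285528) (a (l 17144616) (b (l 17110648) (l 16994304)))) (a (l 17136960) (a (l 17062432) (b (l 17029616) (a (l 16901344) (l 16948624)))))) (a (a (b (l 17042640) (l 16933640)) (b (b (l 16925024) (l 16864496)) (b (l 16792176) (l 16864664)))) (a (b (b (l 16958192) (l 16856928)) (l 16765904)) (b (b (l 16889176) (l 16766792)) (l 534784527))))) (b (a (b (b (a (l 17145824) (a (l 17037192) (a (l 17004336) (l 14)))) (a (l 16988344) (a (l 16935048) (b (l 16899368) (l 16860488))))) (b (a (a (l 16901848) (l 16884464)) (a (b (l 16861936) (l 16856600)) (b (l 16842464) (l 16771104)))) (a (a (l 16863112) (l 16857264)) (a (l 16770264) (b (l 16772080) (l 16773048)))))) (b (a (b (l 14) (a (b (a (l 16879416) (l 14)) (a (l 16861312) (l 16821768))) (l 14))) (l 14)) (a (a (a (b (l 16793384) (l 534012687)) (a (l 534396687) (l 534374927))) (a (a (l 534621711) (a (l 534338831) (l 534328079))) (a (b (l 533953295) (l 533899279))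 (a (l 534295823) (l 534285071))))) (b (a (a (a (a (l 533918735) (l 533907983)) (a (l 533897231) (l 533886223))) (l 3)) (l 3)) (l 3))))) (a (a (a (b (l 16768800) (l 534402063)) (b (l 534353679) (l 534317327))) (a (a (l 534670095) (l 535164431)) (a (b (l 534211599) (l 534174479)) (b (l 534168591) (l 3))))) (b (a (a (a (l 534125071) (a (l 534097423) (l 534076175))) (l 3)) (l 3)) (l 3))))) (a (a (b (l 570614543) (l 581145871)) (b (a (l 562048015) (l 552999183)) (a (l 579040527) (l 576664335)))) (b (a (a (a (l 543386383) (l 535220751)) (l 3)) (l 3)) (l 3)))), by decide +kernel⟩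

def k4_B04mm_202_s1 : ∃ t, chk3 f_B04mm_202_s1 t 7 9 1 = true :=
  ⟨(a (a (b (b (b (l 17328576) (l 17265744)) (l 17081808)) (l 572955663)) (b (a (l 579720463) (l 582007567)) (a (l 576183311) (l 578710031)))) (b (a (a (b (l 584087823) (l 583928079)) (l 3)) (l 3)) (l 3))), by decide +kernel⟩

def k5_B04mm_202_s1 : ∃ t, chk3 f_B04mm_202_s1 t 1 5 1 = true :=
  ⟨(a (a (b (l 6) (a (l 6) (b (a (l 6) (l 17277136)) (l 17293960)))) (b (a (b (a (l 6) (b (l 17484280) (l 17385336))) (a (l 17334768) (l 17408408))) (b (l 17884128) (l 17687632))) (a (b (l 17764016) (l 17276904)) (l 17105312)))) (a (a (b (b (a (l 17502752) (l 17313384)) (l 17192856)) (l 554818319)) (b (l 563035663) (l 558789391))) (b (a (a (l 567718671) (l 3)) (l 3)) (l 3)))), by decide +kernel⟩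

def k6_B04mm_202_s1 : ∃ t, chk3 f_B04mm_202_s1 t 1 3 1 = true :=
  ⟨(a (b (a (b (b (a (l 6) (l 17273856)) (a (l 17242792) (l 17226040))) (a (b (l 17230584) (l 17179688)) (l 17095360))) (a (l 547774479) (l 549580047))) (a (l 2) (b (l 548660239) (l 2)))) (b (a (a (l 552369935) (l 3)) (l 3)) (l 3))), by decide +kernel⟩

theorem t7_B04mm_202_s1 : ∃ t, chk3 f_B04mm_202_s1 t 7 8 1 = true := ex3_a k2_B04mm_202_s1 k3_B04mm_202_s1

theorem t8_B04mm_202_s1 : ∃ t, chk3 f_B04mm_202_s1 t 7 4 1 = true := ex3_b t7_B04mm_202_s1 k4_B04mm_202_s1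

theorem t9_B04mm_202_s1 : ∃ t, chk3 f_B04mm_202_s1 t 3 4 1 = true := ex3_a k1_B04mm_202_s1 t8_B04mm_202_s1

theorem t10_B04mm_202_s1 : ∃ t, chk3 f_B04mm_202_s1 t 1 4 1 = true := ex3_a k0_B04mm_202_s1 t9_B04mm_202_s1

theorem t11_B04mm_202_s1 : ∃ t, chk3 f_B04mm_202_s1 t 1 2 1 = true := ex3_b t10_B04mm_202_s1 k5_B04mm_202_s1

theorem t12_B04mm_202_s1 : ∃ t, chk3 f_B04mm_202_s1 t 1 1 1 = true := ex3_b t11_B04mm_202_s1 k6_B04mm_202_s1

theorem c_B04mm_202_s1 : CertF 0 536870912 1073741824 536870912 50331648 16777216 false false false .pp 2 0 2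
    ndF0q2 ndF4q2 pcF0 cut_B04mm_202_s1 xt_B04mm_202_s1 :=
  certFK1 (fam := false) (s1 := false) (s2 := false) (a := 2) (b := 0) (c := 2) (cn := .pp) (n1 := ndF0q2) (n2 := ndF4q2) (pc := pcF0) (cut := cut_B04mm_202_s1) (xt := xt_B04mm_202_s1) (P1 := 0) (W1 := 536870912) (P2 := 1073741824) (W2 := 536870912) (P3 := 50331648) (W3 := 16777216)
    rfl rfl rfl (fun _ => rfl) t12_B04mm_202_s1

theorem s_B04mm_202_s1 {κ x : ℝ} (hκ : κ * h0 = ken x) (hx : ((50331648 : ℕ) : ℝ) / S ≤ x)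
    (hx' : x ≤ (((50331648 : ℕ) : ℝ) + (16777216 : ℕ)) / S)
    (H : CutB (VF κ) PP tKF tL pcF (Cut.of [[⟨0, 1, 0, 16777216⟩, ⟨1, 0, 0, 16777216⟩, ⟨2, 1, 0, 16777216⟩]]) 2 0 2 0 4 (sgb false) (sgb false) x) :
    AltB (VF κ) PP tKF tL pcF [⟨3, 0, 0, 1449551462⟩] 2 0 2 0 4 (sgb false) (sgb false) x :=
  strip_altB (m := 1449551462) true rfl hκ covF02 covF42 hx hx' c_B04mm_202_s1 H ((okx hx hx').extB (T := tt) (sideF hx hx') hκ rfl rfl (.O 2 false) (.N 2 false) (Or.inl rfl))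

noncomputable def cut_B04mm_203_s1 : Cut := Cut.of [[⟨4, 0, 0, 1449551462⟩]]

noncomputable def xt_B04mm_203_s1 : Ext := strExt dd false false false .u2 .s2m .u0m .up 2 0 3 rfl rfl gf0 vv ndF0q2 ndF4q3

noncomputable def f_B04mm_203_s1 : ℕ → ℕ → ℕ → ℕ → Bool := onCell 0 536870912 0 1230186008 50331648 16777216
    (rowFK 0 false false false .up 2 0 3 (qsf 0 536870912 0 1230186008 0) ndF0q2 ndF4q3 pcF0 cut_B04mm_203_s1 xt_B04mm_203_s1)

def k0_B04mm_203_s1 : ∃ t, chk3 f_B04mm_203_s1 t 1 1 1 = true :=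
  ⟨(b (l 2) (b (l 2) (a (b (a (a (l 544902671) (l 545998607)) (l 3)) (a (b (l 545128975) (l 545257743)) (b (a (l 547126031) (l 3)) (l 547908879)))) (l 3)))), by decide +kernel⟩

theorem c_B04mm_203_s1 : CertF 0 536870912 0 1230186008 50331648 16777216 false false false .up 2 0 3
    ndF0q2 ndF4q3 pcF0 cut_B04mm_203_s1 xt_B04mm_203_s1 :=
  certFK0 (fam := false) (s1 := false) (s2 := false) (a := 2) (b := 0) (c := 3) (cn := .up) (n1 := ndF0q2) (n2 := ndF4q3) (pc := pcF0) (cut := cut_B04mm_203_s1) (xt := xt_B04mm_203_s1) (P1 := 0) (W1 := 536870912) (P2 := 0) (W2 := 1230186008) (P3 := 50331648) (W3 := 16777216)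
    rfl rfl rfl k0_B04mm_203_s1

theorem s_B04mm_203_s1 {κ x : ℝ} (hκ : κ * h0 = ken x) (hx : ((50331648 : ℕ) : ℝ) / S ≤ x)
    (hx' : x ≤ (((50331648 : ℕ) : ℝ) + (16777216 : ℕ)) / S) :
    AltB (VF κ) PP tKF tL pcF [⟨3, 0, 0, 1449551462⟩] 2 0 3 0 4 (sgb false) (sgb false) x :=
  strip_altB (m := 1449551462) true rfl hκ covF02 covF43 hx hx' c_B04mm_203_s1 cutB_nil ((okx hx hx').extB (T := tt) (sideF hx hx') hκ rfl rfl (.O 2 false) (.N 3 false) (Or.inl rfl))

noncomputable def cut_B04mm_213_s1 : Cut := Cut.of [[⟨4, 0, 0, 1449551462⟩]]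

noncomputable def xt_B04mm_213_s1 : Ext := strExt dd false false false .u2 .s2m .u0m .pnn 2 1 3 rfl rfl gf1 vv ndF0q2 ndF4q3

noncomputable def f_B04mm_213_s1 : ℕ → ℕ → ℕ → ℕ → Bool := onCell 0 536870912 0 1230186008 50331648 16777216
    (rowFK 0 false false false .pnn 2 1 3 (qsf 0 536870912 0 1230186008 1) ndF0q2 ndF4q3 pcF1 cut_B04mm_213_s1 xt_B04mm_213_s1)

def k0_B04mm_213_s1 : ∃ t, chk3 f_B04mm_213_s1 t 1 1 1 = true :=
  ⟨(b (a (l 3) (b (l 5) (l 3))) (b (a (a (b (l 3) (l 3)) (l 3)) (l 3)) (a (b (a (b (l 548614671) (l 550302735)) (l 3)) (a (l 1) (b (a (l 1) (l 3)) (l 1)))) (l 3)))), by decide +kernel⟩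

theorem c_B04mm_213_s1 : CertF 0 536870912 0 1230186008 50331648 16777216 false false false .pnn 2 1 3
    ndF0q2 ndF4q3 pcF1 cut_B04mm_213_s1 xt_B04mm_213_s1 :=
  certFK0 (fam := false) (s1 := false) (s2 := false) (a := 2) (b := 1) (c := 3) (cn := .pnn) (n1 := ndF0q2) (n2 := ndF4q3) (pc := pcF1) (cut := cut_B04mm_213_s1) (xt := xt_B04mm_213_s1) (P1 := 0) (W1 := 536870912) (P2 := 0) (W2 := 1230186008) (P3 := 50331648) (W3 := 16777216)
    rfl rfl rfl k0_B04mm_213_s1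

theorem s_B04mm_213_s1 {κ x : ℝ} (hκ : κ * h0 = ken x) (hx : ((50331648 : ℕ) : ℝ) / S ≤ x)
    (hx' : x ≤ (((50331648 : ℕ) : ℝ) + (16777216 : ℕ)) / S) :
    AltB (VF κ) PP tKF tL pcF [⟨3, 0, 0, 1449551462⟩] 2 1 3 0 4 (sgb false) (sgb false) x :=
  strip_altB (m := 1449551462) true rfl hκ covF02 covF43 hx hx' c_B04mm_213_s1 cutB_nil ((okx hx hx').extB (T := tt) (sideF hx hx') hκ rfl rfl (.O 2 false) (.N 3 false) (Or.inr rfl))

noncomputable def cut_B40pp_001_s1 : Cut := Cut.of [[⟨4, 0, 0, 1449551462⟩]]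

noncomputable def xt_B40pp_001_s1 : Ext := strExt dd false true true .s0 .u0 .u0m .up 0 0 1 rfl rfl gf0 vv ndF4q0 ndF0q1

noncomputable def f_B40pp_001_s1 : ℕ → ℕ → ℕ → ℕ → Bool := onCell 0 536870912 0 536870912 50331648 16777216
    (rowFK 1 false true true .up 0 0 1 (qsf 0 536870912 536870912 536870912 0) ndF4q0 ndF0q1 pcF0 cut_B40pp_001_s1 xt_B40pp_001_s1)

def k0_B40pp_001_s1 : ∃ t, chk3 f_B40pp_001_s1 t 1 1 1 = true :=
  ⟨(b (l 3) (a (b (l 3) (a (l 3) (b (l 3) (l 558193935)))) (b (a (l 3) (b (l 566444559) (l 562866959))) (a (b (l 561434383) (l 557133071)) (b (l 559255055) (l 555618319)))))), by decide +kernel⟩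

theorem c_B40pp_001_s1 : CertF 0 536870912 536870912 536870912 50331648 16777216 false true true .up 0 0 1
    ndF4q0 ndF0q1 pcF0 cut_B40pp_001_s1 xt_B40pp_001_s1 :=
  certFK1 (fam := false) (s1 := true) (s2 := true) (a := 0) (b := 0) (c := 1) (cn := .up) (n1 := ndF4q0) (n2 := ndF0q1) (pc := pcF0) (cut := cut_B40pp_001_s1) (xt := xt_B40pp_001_s1) (P1 := 0) (W1 := 536870912) (P2 := 536870912) (W2 := 536870912) (P3 := 50331648) (W3 := 16777216)
    rfl rfl rfl (fun _ => rfl) k0_B40pp_001_s1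

theorem s_B40pp_001_s1 {κ x : ℝ} (hκ : κ * h0 = ken x) (hx : ((50331648 : ℕ) : ℝ) / S ≤ x)
    (hx' : x ≤ (((50331648 : ℕ) : ℝ) + (16777216 : ℕ)) / S) :
    AltB (VF κ) PP tKF tL pcF [⟨3, 0, 0, 1449551462⟩] 0 0 1 4 0 (sgb true) (sgb true) x :=
  strip_altB (m := 1449551462) true rfl hκ covF40 covF01 hx hx' c_B40pp_001_s1 cutB_nil ((okx hx hx').extB (T := tt) (sideF hx hx') hκ rfl rfl (.N 0 true) (.O 1 true) (Or.inl rfl))

noncomputable def cut_B40pp_011_s1 : Cut := Cut.of [[⟨4, 0, 0, 1449551462⟩]]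

noncomputable def xt_B40pp_011_s1 : Ext := strExt dd false true true .s0 .u0 .u0m .pnn 0 1 1 rfl rfl gf1 vv ndF4q0 ndF0q1

noncomputable def f_B40pp_011_s1 : ℕ → ℕ → ℕ → ℕ → Bool := onCell 536870912 536870912 536870912 536870912 50331648 16777216
    (rowFK 2 false true true .pnn 0 1 1 (qsf 0 536870912 536870912 536870912 1) ndF4q0 ndF0q1 pcF1 cut_B40pp_011_s1 xt_B40pp_011_s1)

def k0_B40pp_011_s1 : ∃ t, chk3 f_B40pp_011_s1 t 1 1 1 = true :=
  ⟨(a (b (a (b (l 572462607) (a (l 571835919) (l 568396047))) (b (a (l 569416207) (l 1)) (a (l 565866255) (l 18005560)))) (b (a (l 568957711) (b (l 18271976) (l 18613432))) (a (b (l 18806560) (l 6)) (l 6)))) (b (a (b (l 1) (l 291558516407)) (l 1)) (b (a (l 18752568) (l 6)) (l 6)))), by decide +kernel⟩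

theorem c_B40pp_011_s1 : CertF 0 536870912 536870912 536870912 50331648 16777216 false true true .pnn 0 1 1
    ndF4q0 ndF0q1 pcF1 cut_B40pp_011_s1 xt_B40pp_011_s1 :=
  certFK2 (fam := false) (s1 := true) (s2 := true) (a := 0) (b := 1) (c := 1) (cn := .pnn) (n1 := ndF4q0) (n2 := ndF0q1) (pc := pcF1) (cut := cut_B40pp_011_s1) (xt := xt_B40pp_011_s1) (P1 := 0) (W1 := 536870912) (P2 := 536870912) (W2 := 536870912) (P3 := 50331648) (W3 := 16777216)
    rfl rfl rfl (fun _ => rfl) k0_B40pp_011_s1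

theorem s_B40pp_011_s1 {κ x : ℝ} (hκ : κ * h0 = ken x) (hx : ((50331648 : ℕ) : ℝ) / S ≤ x)
    (hx' : x ≤ (((50331648 : ℕ) : ℝ) + (16777216 : ℕ)) / S) :
    AltB (VF κ) PP tKF tL pcF [⟨3, 0, 0, 1449551462⟩] 0 1 1 4 0 (sgb true) (sgb true) x :=
  strip_altB (m := 1449551462) true rfl hκ covF40 covF01 hx hx' c_B40pp_011_s1 cutB_nil ((okx hx hx').extB (T := tt) (sideF hx hx') hκ rfl rfl (.N 0 true) (.O 1 true) (Or.inr rfl))

noncomputable def cut_B40pp_012_s1 : Cut := Cut.of [[⟨4, 0, 0, 1449551462⟩]]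

noncomputable def f_B40pp_012_s1 : ℕ → ℕ → ℕ → ℕ → Bool := onCell 0 536870912 0 536870912 50331648 16777216
    (rowFK 0 false true true .pnp 0 1 2 (qsf 0 536870912 0 536870912 1) ndF4q0 ndF0q2 pcF1 cut_B40pp_012_s1 Ext.none)

def k0_B40pp_012_s1 : ∃ t, chk3 f_B40pp_012_s1 t 1 1 1 = true :=
  ⟨(a (l 6) (l 6)), by decide +kernel⟩

theorem c_B40pp_012_s1 : CertF 0 536870912 0 536870912 50331648 16777216 false true true .pnp 0 1 2
    ndF4q0 ndF0q2 pcF1 cut_B40pp_012_s1 Ext.none :=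
  certFK0 (fam := false) (s1 := true) (s2 := true) (a := 0) (b := 1) (c := 2) (cn := .pnp) (n1 := ndF4q0) (n2 := ndF0q2) (pc := pcF1) (cut := cut_B40pp_012_s1) (xt := Ext.none) (P1 := 0) (W1 := 536870912) (P2 := 0) (W2 := 536870912) (P3 := 50331648) (W3 := 16777216)
    rfl rfl rfl k0_B40pp_012_s1

theorem s_B40pp_012_s1 {κ x : ℝ} (hκ : κ * h0 = ken x) (hx : ((50331648 : ℕ) : ℝ) / S ≤ x)
    (hx' : x ≤ (((50331648 : ℕ) : ℝ) + (16777216 : ℕ)) / S) :
    AltB (VF κ) PP tKF tL pcF [⟨3, 0, 0, 1449551462⟩] 0 1 2 4 0 (sgb true) (sgb true) x :=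
  strip_altB (m := 1449551462) true rfl hκ covF40 covF02 hx hx' c_B40pp_012_s1 cutB_nil (noExt_B)

noncomputable def cut_B40pp_022_s1 : Cut := Cut.of [[⟨4, 0, 0, 1449551462⟩]]

noncomputable def f_B40pp_022_s1 : ℕ → ℕ → ℕ → ℕ → Bool := onCell 1073741824 536870912 0 536870912 50331648 16777216
    (rowFK 2 false true true .pp 0 2 2 (qsf 0 536870912 0 536870912 2) ndF4q0 ndF0q2 pcF2 cut_B40pp_022_s1 Ext.none)

def k0_B40pp_022_s1 : ∃ t, chk3 f_B40pp_022_s1 t 1 1 1 = true :=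
  ⟨(l 6), by decide +kernel⟩

theorem c_B40pp_022_s1 : CertF 0 536870912 0 536870912 50331648 16777216 false true true .pp 0 2 2
    ndF4q0 ndF0q2 pcF2 cut_B40pp_022_s1 Ext.none :=
  certFK2 (fam := false) (s1 := true) (s2 := true) (a := 0) (b := 2) (c := 2) (cn := .pp) (n1 := ndF4q0) (n2 := ndF0q2) (pc := pcF2) (cut := cut_B40pp_022_s1) (xt := Ext.none) (P1 := 0) (W1 := 536870912) (P2 := 0) (W2 := 536870912) (P3 := 50331648) (W3 := 16777216)
    rfl rfl rfl (fun _ => rfl) k0_B40pp_022_s1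

theorem s_B40pp_022_s1 {κ x : ℝ} (hκ : κ * h0 = ken x) (hx : ((50331648 : ℕ) : ℝ) / S ≤ x)
    (hx' : x ≤ (((50331648 : ℕ) : ℝ) + (16777216 : ℕ)) / S) :
    AltB (VF κ) PP tKF tL pcF [⟨3, 0, 0, 1449551462⟩] 0 2 2 4 0 (sgb true) (sgb true) x :=
  strip_altB (m := 1449551462) true rfl hκ covF40 covF02 hx hx' c_B40pp_022_s1 cutB_nil (noExt_B)

noncomputable def cut_B40pp_101_s1 : Cut := Cut.of [[⟨4, 0, 0, 1449551462⟩], [⟨0, 1, 0, 16777216⟩, ⟨1, 0, 0, 16777216⟩, ⟨2, 1, 0, 16777216⟩]]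

noncomputable def xt_B40pp_101_s1 : Ext := strExt dd false true true .s0 .u0 .u0m .npn 1 0 1 rfl rfl gf0 vv ndF4q1 ndF0q1

noncomputable def f_B40pp_101_s1 : ℕ → ℕ → ℕ → ℕ → Bool := onCell 536870912 536870912 536870912 536870912 50331648 16777216
    (rowFK 0 false true true .npn 1 0 1 (qsf 536870912 536870912 536870912 536870912 0) ndF4q1 ndF0q1 pcF0 cut_B40pp_101_s1 xt_B40pp_101_s1)

def k0_B40pp_101_s1 : ∃ t, chk3 f_B40pp_101_s1 t 1 1 1 = true :=
  ⟨(b (l 3) (b (a (a (b (l 571542799) (l 566945807)) (b (l 3) (a (l 574827279) (l 3)))) (l 3)) (a (a (b (l 562541071) (l 18089592)) (b (a (l 569559567) (l 576334607)) (a (l 17984968) (l 570090255)))) (a (b (b (l 3) (a (l 583471631) (a (l 591448847) (l 3)))) (a (l 577870863) (a (l 584770063) (b (l 592411919) (l 587111183))))) (b (l 3) (a (b (b (l 3) (a (l 594436879) (a (l 589463055) (l 3)))) (a (l 589958415) (a (l 584794127) (l 570420239)))) (b (l 3) (a (b (b (l 3) (a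 (l 535498255) (a (l 533960975) (l 3)))) (a (a (l 542498831) (l 534452495)) (a (l 534497551) (a (l 534130703) (l 534541583))))) (b (l 3) (b (a (b (l 3) (a (a (l 533810447) (l 533830415)) (a (l 533992975) (l 3)))) (l 3)) (a (a (a (l 534132751) (l 534153487)) (a (l 534263055) (a (l 534216975) (l 534392847)))) (a (a (a (b (l 534045711) (l 533940495)) (l 14)) (l 14)) (l 14))))))))))))), by decide +kernel⟩

theorem c_B40pp_101_s1 : CertF 536870912 536870912 536870912 536870912 50331648 16777216 false true true .npn 1 0 1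
    ndF4q1 ndF0q1 pcF0 cut_B40pp_101_s1 xt_B40pp_101_s1 :=
  certFK0 (fam := false) (s1 := true) (s2 := true) (a := 1) (b := 0) (c := 1) (cn := .npn) (n1 := ndF4q1) (n2 := ndF0q1) (pc := pcF0) (cut := cut_B40pp_101_s1) (xt := xt_B40pp_101_s1) (P1 := 536870912) (W1 := 536870912) (P2 := 536870912) (W2 := 536870912) (P3 := 50331648) (W3 := 16777216)
    rfl rfl rfl k0_B40pp_101_s1

theorem s_B40pp_101_s1 {κ x : ℝ} (hκ : κ * h0 = ken x) (hx : ((50331648 : ℕ) : ℝ) / S ≤ x)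
    (hx' : x ≤ (((50331648 : ℕ) : ℝ) + (16777216 : ℕ)) / S)
    (H : CutB (VF κ) PP tKF tL pcF (Cut.of [[⟨0, 1, 0, 16777216⟩, ⟨1, 0, 0, 16777216⟩, ⟨2, 1, 0, 16777216⟩]]) 1 0 1 4 0 (sgb true) (sgb true) x) :
    AltB (VF κ) PP tKF tL pcF [⟨3, 0, 0, 1449551462⟩] 1 0 1 4 0 (sgb true) (sgb true) x :=
  strip_altB (m := 1449551462) true rfl hκ covF41 covF01 hx hx' c_B40pp_101_s1 H ((okx hx hx').extB (T := tt) (sideF hx hx') hκ rfl rfl (.N 1 true) (.O 1 true) (Or.inl rfl))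

noncomputable def cut_B40pp_102_s1 : Cut := Cut.of [[⟨4, 0, 0, 1449551462⟩], [⟨0, 1, 0, 50331648⟩, ⟨1, 0, 0, 50331648⟩, ⟨2, 1, 0, 50331648⟩]]

noncomputable def f_B40pp_102_s1 : ℕ → ℕ → ℕ → ℕ → Bool := onCell 536870912 536870912 0 536870912 50331648 16777216
    (rowFK 0 false true true .npp 1 0 2 (qsf 536870912 536870912 0 536870912 0) ndF4q1 ndF0q2 pcF0 cut_B40pp_102_s1 Ext.none)

def k0_B40pp_102_s1 : ∃ t, chk3 f_B40pp_102_s1 t 1 1 1 = true :=
  ⟨(b (l 6) (a (b (l 6) (b (l 6) (a (l 6) (l 18810312)))) (a (b (l 6) (b (a (l 18806096) (l 18813984)) (b (l 18992096) (l 18606296)))) (b (b (l 6) (a (l 19174072) (a (l 19190904) (l 19195888)))) (b (a (b (l 18903976) (l 18620288)) (a (b (l 18779680) (l 18307976)) (a (b (l 18573064) (l 17810112)) (b (l 18315760) (b (l 17461240) (l 17112360)))))) (a (b (a (l 18332608) (l 18140568)) (b (l 17931664) (a (l 17832792) (l 17462280)))) (b (a (a (l 17820600) (l 17395672)) (b (a (l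 16968808) (a (l 16989904) (l 14))) (a (l 16876456) (l 14)))) (a (b (a (l 17279640) (l 16869824)) (a (l 16875808) (b (l 16764904) (l 16761576)))) (b (b (a (l 16816080) (l 14)) (l 14)) (l 14)))))))))), by decide +kernel⟩

theorem c_B40pp_102_s1 : CertF 536870912 536870912 0 536870912 50331648 16777216 false true true .npp 1 0 2
    ndF4q1 ndF0q2 pcF0 cut_B40pp_102_s1 Ext.none :=
  certFK0 (fam := false) (s1 := true) (s2 := true) (a := 1) (b := 0) (c := 2) (cn := .npp) (n1 := ndF4q1) (n2 := ndF0q2) (pc := pcF0) (cut := cut_B40pp_102_s1) (xt := Ext.none) (P1 := 536870912) (W1 := 536870912) (P2 := 0) (W2 := 536870912) (P3 := 50331648) (W3 := 16777216)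
    rfl rfl rfl k0_B40pp_102_s1

theorem s_B40pp_102_s1 {κ x : ℝ} (hκ : κ * h0 = ken x) (hx : ((50331648 : ℕ) : ℝ) / S ≤ x)
    (hx' : x ≤ (((50331648 : ℕ) : ℝ) + (16777216 : ℕ)) / S)
    (H : CutB (VF κ) PP tKF tL pcF (Cut.of [[⟨0, 1, 0, 50331648⟩, ⟨1, 0, 0, 50331648⟩, ⟨2, 1, 0, 50331648⟩]]) 1 0 2 4 0 (sgb true) (sgb true) x) :
    AltB (VF κ) PP tKF tL pcF [⟨3, 0, 0, 1449551462⟩] 1 0 2 4 0 (sgb true) (sgb true) x :=
  strip_altB (m := 1449551462) true rfl hκ covF41 covF02 hx hx' c_B40pp_102_s1 H (noExt_B)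

noncomputable def cut_B40pp_112_s1 : Cut := Cut.of [[⟨4, 0, 0, 1449551462⟩]]

noncomputable def f_B40pp_112_s1 : ℕ → ℕ → ℕ → ℕ → Bool := onCell 536870912 536870912 0 536870912 50331648 16777216
    (rowFK 2 false true true .dn 1 1 2 (qsf 536870912 536870912 0 536870912 1) ndF4q1 ndF0q2 pcF1 cut_B40pp_112_s1 Ext.none)

def k0_B40pp_112_s1 : ∃ t, chk3 f_B40pp_112_s1 t 1 1 1 = true :=
  ⟨(a (l 6) (l 1)), by decide +kernel⟩

theorem c_B40pp_112_s1 : CertF 536870912 536870912 0 536870912 50331648 16777216 false true true .dn 1 1 2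
    ndF4q1 ndF0q2 pcF1 cut_B40pp_112_s1 Ext.none :=
  certFK2 (fam := false) (s1 := true) (s2 := true) (a := 1) (b := 1) (c := 2) (cn := .dn) (n1 := ndF4q1) (n2 := ndF0q2) (pc := pcF1) (cut := cut_B40pp_112_s1) (xt := Ext.none) (P1 := 536870912) (W1 := 536870912) (P2 := 0) (W2 := 536870912) (P3 := 50331648) (W3 := 16777216)
    rfl rfl rfl (fun _ => rfl) k0_B40pp_112_s1

theorem s_B40pp_112_s1 {κ x : ℝ} (hκ : κ * h0 = ken x) (hx : ((50331648 : ℕ) : ℝ) / S ≤ x)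
    (hx' : x ≤ (((50331648 : ℕ) : ℝ) + (16777216 : ℕ)) / S) :
    AltB (VF κ) PP tKF tL pcF [⟨3, 0, 0, 1449551462⟩] 1 1 2 4 0 (sgb true) (sgb true) x :=
  strip_altB (m := 1449551462) true rfl hκ covF41 covF02 hx hx' c_B40pp_112_s1 cutB_nil (noExt_B)

noncomputable def cut_B40pp_202_s1 : Cut := Cut.of [[⟨4, 0, 0, 1449551462⟩], [⟨0, 1, 0, 50331648⟩, ⟨1, 0, 0, 50331648⟩, ⟨2, 1, 0, 50331648⟩]]

noncomputable def f_B40pp_202_s1 : ℕ → ℕ → ℕ → ℕ → Bool := onCell 0 536870912 0 536870912 50331648 16777216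
    (rowFK 2 false true true .pp 2 0 2 (qsf 1073741824 536870912 0 536870912 0) ndF4q2 ndF0q2 pcF0 cut_B40pp_202_s1 Ext.none)

def k0_B40pp_202_s1 : ∃ t, chk3 f_B40pp_202_s1 t 1 1 1 = true :=
  ⟨(a (b (a (l 6) (l 6)) (b (a (a (b (l 19118792) (a (l 18522896) (l 18492016))) (a (l 19277360) (l 934194902999))) (l 1)) (a (a (b (a (b (l 17930536) (b (l 17627944) (l 17512392))) (b (l 17811544) (a (l 17310440) (b (l 17300632) (l 17109080))))) (a (l 14) (b (b (a (l 17233760) (l 1)) (l 1)) (l 1)))) (b (b (a (a (l 18206384) (l 1)) (l 1)) (l 1)) (l 1))) (l 1)))) (l 1)), by decide +kernel⟩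

theorem c_B40pp_202_s1 : CertF 1073741824 536870912 0 536870912 50331648 16777216 false true true .pp 2 0 2
    ndF4q2 ndF0q2 pcF0 cut_B40pp_202_s1 Ext.none :=
  certFK2 (fam := false) (s1 := true) (s2 := true) (a := 2) (b := 0) (c := 2) (cn := .pp) (n1 := ndF4q2) (n2 := ndF0q2) (pc := pcF0) (cut := cut_B40pp_202_s1) (xt := Ext.none) (P1 := 1073741824) (W1 := 536870912) (P2 := 0) (W2 := 536870912) (P3 := 50331648) (W3 := 16777216)
    rfl rfl rfl (fun _ => rfl) k0_B40pp_202_s1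

theorem s_B40pp_202_s1 {κ x : ℝ} (hκ : κ * h0 = ken x) (hx : ((50331648 : ℕ) : ℝ) / S ≤ x)
    (hx' : x ≤ (((50331648 : ℕ) : ℝ) + (16777216 : ℕ)) / S)
    (H : CutB (VF κ) PP tKF tL pcF (Cut.of [[⟨0, 1, 0, 50331648⟩, ⟨1, 0, 0, 50331648⟩, ⟨2, 1, 0, 50331648⟩]]) 2 0 2 4 0 (sgb true) (sgb true) x) :
    AltB (VF κ) PP tKF tL pcF [⟨3, 0, 0, 1449551462⟩] 2 0 2 4 0 (sgb true) (sgb true) x :=
  strip_altB (m := 1449551462) true rfl hκ covF42 covF02 hx hx' c_B40pp_202_s1 H (noExt_B)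

noncomputable def cut_B40pm_001_s1 : Cut := Cut.of [[⟨4, 0, 0, 1449551462⟩]]

noncomputable def f_B40pm_001_s1 : ℕ → ℕ → ℕ → ℕ → Bool := onCell 0 536870912 536870912 536870912 50331648 16777216
    (rowFK 0 false true false .up 0 0 1 (qsf 0 536870912 536870912 536870912 0) ndF4q0 ndF0q1 pcF0 cut_B40pm_001_s1 Ext.none)

def k0_B40pm_001_s1 : ∃ t, chk3 f_B40pm_001_s1 t 1 1 1 = true :=
  ⟨(l 4), by decide +kernel⟩

theorem c_B40pm_001_s1 : CertF 0 536870912 536870912 536870912 50331648 16777216 false true false .up 0 0 1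
    ndF4q0 ndF0q1 pcF0 cut_B40pm_001_s1 Ext.none :=
  certFK0 (fam := false) (s1 := true) (s2 := false) (a := 0) (b := 0) (c := 1) (cn := .up) (n1 := ndF4q0) (n2 := ndF0q1) (pc := pcF0) (cut := cut_B40pm_001_s1) (xt := Ext.none) (P1 := 0) (W1 := 536870912) (P2 := 536870912) (W2 := 536870912) (P3 := 50331648) (W3 := 16777216)
    rfl rfl rfl k0_B40pm_001_s1

theorem s_B40pm_001_s1 {κ x : ℝ} (hκ : κ * h0 = ken x) (hx : ((50331648 : ℕ) : ℝ) / S ≤ x)
    (hx' : x ≤ (((50331648 : ℕ) : ℝ) + (16777216 : ℕ)) / S) :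
    AltB (VF κ) PP tKF tL pcF [⟨3, 0, 0, 1449551462⟩] 0 0 1 4 0 (sgb true) (sgb false) x :=
  strip_altB (m := 1449551462) true rfl hκ covF40 covF01 hx hx' c_B40pm_001_s1 cutB_nil (noExt_B)

noncomputable def cut_B40pm_011_s1 : Cut := Cut.of [[⟨4, 0, 0, 1449551462⟩]]

noncomputable def f_B40pm_011_s1 : ℕ → ℕ → ℕ → ℕ → Bool := onCell 0 536870912 536870912 536870912 50331648 16777216
    (rowFK 0 false true false .pnn 0 1 1 (qsf 0 536870912 536870912 536870912 1) ndF4q0 ndF0q1 pcF1 cut_B40pm_011_s1 Ext.none)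

def k0_B40pm_011_s1 : ∃ t, chk3 f_B40pm_011_s1 t 1 1 1 = true :=
  ⟨(l 4), by decide +kernel⟩

theorem c_B40pm_011_s1 : CertF 0 536870912 536870912 536870912 50331648 16777216 false true false .pnn 0 1 1
    ndF4q0 ndF0q1 pcF1 cut_B40pm_011_s1 Ext.none :=
  certFK0 (fam := false) (s1 := true) (s2 := false) (a := 0) (b := 1) (c := 1) (cn := .pnn) (n1 := ndF4q0) (n2 := ndF0q1) (pc := pcF1) (cut := cut_B40pm_011_s1) (xt := Ext.none) (P1 := 0) (W1 := 536870912) (P2 := 536870912) (W2 := 536870912) (P3 := 50331648) (W3 := 16777216)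
    rfl rfl rfl k0_B40pm_011_s1

theorem s_B40pm_011_s1 {κ x : ℝ} (hκ : κ * h0 = ken x) (hx : ((50331648 : ℕ) : ℝ) / S ≤ x)
    (hx' : x ≤ (((50331648 : ℕ) : ℝ) + (16777216 : ℕ)) / S) :
    AltB (VF κ) PP tKF tL pcF [⟨3, 0, 0, 1449551462⟩] 0 1 1 4 0 (sgb true) (sgb false) x :=
  strip_altB (m := 1449551462) true rfl hκ covF40 covF01 hx hx' c_B40pm_011_s1 cutB_nil (noExt_B)

noncomputable def cut_B40pm_012_s1 : Cut := Cut.of [[⟨4, 0, 0, 1449551462⟩]]

noncomputable def f_B40pm_012_s1 : ℕ → ℕ → ℕ → ℕ → Bool := onCell 0 536870912 0 536870912 50331648 16777216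
    (rowFK 0 false true false .pnp 0 1 2 (qsf 0 536870912 0 536870912 1) ndF4q0 ndF0q2 pcF1 cut_B40pm_012_s1 Ext.none)

def k0_B40pm_012_s1 : ∃ t, chk3 f_B40pm_012_s1 t 1 1 1 = true :=
  ⟨(l 6), by decide +kernel⟩

theorem c_B40pm_012_s1 : CertF 0 536870912 0 536870912 50331648 16777216 false true false .pnp 0 1 2
    ndF4q0 ndF0q2 pcF1 cut_B40pm_012_s1 Ext.none :=
  certFK0 (fam := false) (s1 := true) (s2 := false) (a := 0) (b := 1) (c := 2) (cn := .pnp) (n1 := ndF4q0) (n2 := ndF0q2) (pc := pcF1) (cut := cut_B40pm_012_s1) (xt := Ext.none) (P1 := 0) (W1 := 536870912) (P2 := 0) (W2 := 536870912) (P3 := 50331648) (W3 := 16777216)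
    rfl rfl rfl k0_B40pm_012_s1

theorem s_B40pm_012_s1 {κ x : ℝ} (hκ : κ * h0 = ken x) (hx : ((50331648 : ℕ) : ℝ) / S ≤ x)
    (hx' : x ≤ (((50331648 : ℕ) : ℝ) + (16777216 : ℕ)) / S) :
    AltB (VF κ) PP tKF tL pcF [⟨3, 0, 0, 1449551462⟩] 0 1 2 4 0 (sgb true) (sgb false) x :=
  strip_altB (m := 1449551462) true rfl hκ covF40 covF02 hx hx' c_B40pm_012_s1 cutB_nil (noExt_B)

noncomputable def cut_B40pm_022_s1 : Cut := Cut.of [[⟨4, 0, 0, 1449551462⟩]]

noncomputable def f_B40pm_022_s1 : ℕ → ℕ → ℕ → ℕ → Bool := onCell 0 536870912 0 536870912 50331648 16777216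
    (rowFK 0 false true false .pp 0 2 2 (qsf 0 536870912 0 536870912 2) ndF4q0 ndF0q2 pcF2 cut_B40pm_022_s1 Ext.none)

def k0_B40pm_022_s1 : ∃ t, chk3 f_B40pm_022_s1 t 1 1 1 = true :=
  ⟨(l 6), by decide +kernel⟩

theorem c_B40pm_022_s1 : CertF 0 536870912 0 536870912 50331648 16777216 false true false .pp 0 2 2
    ndF4q0 ndF0q2 pcF2 cut_B40pm_022_s1 Ext.none :=
  certFK0 (fam := false) (s1 := true) (s2 := false) (a := 0) (b := 2) (c := 2) (cn := .pp) (n1 := ndF4q0) (n2 := ndF0q2) (pc := pcF2) (cut := cut_B40pm_022_s1) (xt := Ext.none) (P1 := 0) (W1 := 536870912) (P2 := 0) (W2 := 536870912) (P3 := 50331648) (W3 := 16777216)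
    rfl rfl rfl k0_B40pm_022_s1

theorem s_B40pm_022_s1 {κ x : ℝ} (hκ : κ * h0 = ken x) (hx : ((50331648 : ℕ) : ℝ) / S ≤ x)
    (hx' : x ≤ (((50331648 : ℕ) : ℝ) + (16777216 : ℕ)) / S) :
    AltB (VF κ) PP tKF tL pcF [⟨3, 0, 0, 1449551462⟩] 0 2 2 4 0 (sgb true) (sgb false) x :=
  strip_altB (m := 1449551462) true rfl hκ covF40 covF02 hx hx' c_B40pm_022_s1 cutB_nil (noExt_B)

noncomputable def cut_B40pm_101_s1 : Cut := Cut.of [[⟨4, 0, 0, 1449551462⟩]]

noncomputable def f_B40pm_101_s1 : ℕ → ℕ → ℕ → ℕ → Bool := onCell 536870912 536870912 536870912 536870912 50331648 16777216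
    (rowFK 0 false true false .npn 1 0 1 (qsf 536870912 536870912 536870912 536870912 0) ndF4q1 ndF0q1 pcF0 cut_B40pm_101_s1 Ext.none)

def k0_B40pm_101_s1 : ∃ t, chk3 f_B40pm_101_s1 t 1 1 1 = true :=
  ⟨(l 4), by decide +kernel⟩

theorem c_B40pm_101_s1 : CertF 536870912 536870912 536870912 536870912 50331648 16777216 false true false .npn 1 0 1
    ndF4q1 ndF0q1 pcF0 cut_B40pm_101_s1 Ext.none :=
  certFK0 (fam := false) (s1 := true) (s2 := false) (a := 1) (b := 0) (c := 1) (cn := .npn) (n1 := ndF4q1) (n2 := ndF0q1) (pc := pcF0) (cut := cut_B40pm_101_s1) (xt := Ext.none) (P1 := 536870912) (W1 := 536870912) (P2 := 536870912) (W2 := 536870912) (P3 := 50331648) (W3 := 16777216)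
    rfl rfl rfl k0_B40pm_101_s1

theorem s_B40pm_101_s1 {κ x : ℝ} (hκ : κ * h0 = ken x) (hx : ((50331648 : ℕ) : ℝ) / S ≤ x)
    (hx' : x ≤ (((50331648 : ℕ) : ℝ) + (16777216 : ℕ)) / S) :
    AltB (VF κ) PP tKF tL pcF [⟨3, 0, 0, 1449551462⟩] 1 0 1 4 0 (sgb true) (sgb false) x :=
  strip_altB (m := 1449551462) true rfl hκ covF41 covF01 hx hx' c_B40pm_101_s1 cutB_nil (noExt_B)

noncomputable def cut_B40pm_102_s1 : Cut := Cut.of [[⟨4, 0, 0, 1449551462⟩]]

noncomputable def f_B40pm_102_s1 : ℕ → ℕ → ℕ → ℕ → Bool := onCell 536870912 536870912 0 536870912 50331648 16777216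
    (rowFK 0 false true false .npp 1 0 2 (qsf 536870912 536870912 0 536870912 0) ndF4q1 ndF0q2 pcF0 cut_B40pm_102_s1 Ext.none)

def k0_B40pm_102_s1 : ∃ t, chk3 f_B40pm_102_s1 t 1 1 1 = true :=
  ⟨(l 6), by decide +kernel⟩

theorem c_B40pm_102_s1 : CertF 536870912 536870912 0 536870912 50331648 16777216 false true false .npp 1 0 2
    ndF4q1 ndF0q2 pcF0 cut_B40pm_102_s1 Ext.none :=
  certFK0 (fam := false) (s1 := true) (s2 := false) (a := 1) (b := 0) (c := 2) (cn := .npp) (n1 := ndF4q1) (n2 := ndF0q2) (pc := pcF0) (cut := cut_B40pm_102_s1) (xt := Ext.none) (P1 := 536870912) (W1 := 536870912) (P2 := 0) (W2 := 536870912) (P3 := 50331648) (W3 := 16777216)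
    rfl rfl rfl k0_B40pm_102_s1

theorem s_B40pm_102_s1 {κ x : ℝ} (hκ : κ * h0 = ken x) (hx : ((50331648 : ℕ) : ℝ) / S ≤ x)
    (hx' : x ≤ (((50331648 : ℕ) : ℝ) + (16777216 : ℕ)) / S) :
    AltB (VF κ) PP tKF tL pcF [⟨3, 0, 0, 1449551462⟩] 1 0 2 4 0 (sgb true) (sgb false) x :=
  strip_altB (m := 1449551462) true rfl hκ covF41 covF02 hx hx' c_B40pm_102_s1 cutB_nil (noExt_B)

noncomputable def cut_B40pm_112_s1 : Cut := Cut.of [[⟨4, 0, 0, 1449551462⟩]]

noncomputable def f_B40pm_112_s1 : ℕ → ℕ → ℕ → ℕ → Bool := onCell 536870912 536870912 0 536870912 50331648 16777216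
    (rowFK 0 false true false .dn 1 1 2 (qsf 536870912 536870912 0 536870912 1) ndF4q1 ndF0q2 pcF1 cut_B40pm_112_s1 Ext.none)

def k0_B40pm_112_s1 : ∃ t, chk3 f_B40pm_112_s1 t 1 1 1 = true :=
  ⟨(l 6), by decide +kernel⟩

theorem c_B40pm_112_s1 : CertF 536870912 536870912 0 536870912 50331648 16777216 false true false .dn 1 1 2
    ndF4q1 ndF0q2 pcF1 cut_B40pm_112_s1 Ext.none :=
  certFK0 (fam := false) (s1 := true) (s2 := false) (a := 1) (b := 1) (c := 2) (cn := .dn) (n1 := ndF4q1) (n2 := ndF0q2) (pc := pcF1) (cut := cut_B40pm_112_s1) (xt := Ext.none) (P1 := 536870912) (W1 := 536870912) (P2 := 0) (W2 := 536870912) (P3 := 50331648) (W3 := 16777216)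
    rfl rfl rfl k0_B40pm_112_s1

theorem s_B40pm_112_s1 {κ x : ℝ} (hκ : κ * h0 = ken x) (hx : ((50331648 : ℕ) : ℝ) / S ≤ x)
    (hx' : x ≤ (((50331648 : ℕ) : ℝ) + (16777216 : ℕ)) / S) :
    AltB (VF κ) PP tKF tL pcF [⟨3, 0, 0, 1449551462⟩] 1 1 2 4 0 (sgb true) (sgb false) x :=
  strip_altB (m := 1449551462) true rfl hκ covF41 covF02 hx hx' c_B40pm_112_s1 cutB_nil (noExt_B)

noncomputable def cut_B40pm_202_s1 : Cut := Cut.of [[⟨4, 0, 0, 1449551462⟩]]

noncomputable def f_B40pm_202_s1 : ℕ → ℕ → ℕ → ℕ → Bool := onCell 0 536870912 0 536870912 50331648 16777216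
    (rowFK 2 false true false .pp 2 0 2 (qsf 1073741824 536870912 0 536870912 0) ndF4q2 ndF0q2 pcF0 cut_B40pm_202_s1 Ext.none)

def k0_B40pm_202_s1 : ∃ t, chk3 f_B40pm_202_s1 t 1 1 1 = true :=
  ⟨(l 6), by decide +kernel⟩

theorem c_B40pm_202_s1 : CertF 1073741824 536870912 0 536870912 50331648 16777216 false true false .pp 2 0 2
    ndF4q2 ndF0q2 pcF0 cut_B40pm_202_s1 Ext.none :=
  certFK2 (fam := false) (s1 := true) (s2 := false) (a := 2) (b := 0) (c := 2) (cn := .pp) (n1 := ndF4q2) (n2 := ndF0q2) (pc := pcF0) (cut := cut_B40pm_202_s1) (xt := Ext.none) (P1 := 1073741824) (W1 := 536870912) (P2 := 0) (W2 := 536870912) (P3 := 50331648) (W3 := 16777216)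
    rfl rfl rfl (fun _ => rfl) k0_B40pm_202_s1

theorem s_B40pm_202_s1 {κ x : ℝ} (hκ : κ * h0 = ken x) (hx : ((50331648 : ℕ) : ℝ) / S ≤ x)
    (hx' : x ≤ (((50331648 : ℕ) : ℝ) + (16777216 : ℕ)) / S) :
    AltB (VF κ) PP tKF tL pcF [⟨3, 0, 0, 1449551462⟩] 2 0 2 4 0 (sgb true) (sgb false) x :=
  strip_altB (m := 1449551462) true rfl hκ covF42 covF02 hx hx' c_B40pm_202_s1 cutB_nil (noExt_B)

noncomputable def cut_B40mm_001_s1 : Cut := Cut.of [[⟨4, 0, 0, 1449551462⟩]]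

noncomputable def f_B40mm_001_s1 : ℕ → ℕ → ℕ → ℕ → Bool := onCell 0 536870912 536870912 536870912 50331648 16777216
    (rowFK 0 false false false .up 0 0 1 (qsf 0 536870912 536870912 536870912 0) ndF4q0 ndF0q1 pcF0 cut_B40mm_001_s1 Ext.none)

def k0_B40mm_001_s1 : ∃ t, chk3 f_B40mm_001_s1 t 1 1 1 = true :=
  ⟨(l 5), by decide +kernel⟩

theorem c_B40mm_001_s1 : CertF 0 536870912 536870912 536870912 50331648 16777216 false false false .up 0 0 1
    ndF4q0 ndF0q1 pcF0 cut_B40mm_001_s1 Ext.none :=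
  certFK0 (fam := false) (s1 := false) (s2 := false) (a := 0) (b := 0) (c := 1) (cn := .up) (n1 := ndF4q0) (n2 := ndF0q1) (pc := pcF0) (cut := cut_B40mm_001_s1) (xt := Ext.none) (P1 := 0) (W1 := 536870912) (P2 := 536870912) (W2 := 536870912) (P3 := 50331648) (W3 := 16777216)
    rfl rfl rfl k0_B40mm_001_s1

theorem s_B40mm_001_s1 {κ x : ℝ} (hκ : κ * h0 = ken x) (hx : ((50331648 : ℕ) : ℝ) / S ≤ x)
    (hx' : x ≤ (((50331648 : ℕ) : ℝ) + (16777216 : ℕ)) / S) :
    AltB (VF κ) PP tKF tL pcF [⟨3, 0, 0, 1449551462⟩] 0 0 1 4 0 (sgb false) (sgb false) x :=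
  strip_altB (m := 1449551462) true rfl hκ covF40 covF01 hx hx' c_B40mm_001_s1 cutB_nil (noExt_B)

noncomputable def cut_B40mm_011_s1 : Cut := Cut.of [[⟨4, 0, 0, 1449551462⟩]]

noncomputable def f_B40mm_011_s1 : ℕ → ℕ → ℕ → ℕ → Bool := onCell 0 536870912 536870912 536870912 50331648 16777216
    (rowFK 0 false false false .pnn 0 1 1 (qsf 0 536870912 536870912 536870912 1) ndF4q0 ndF0q1 pcF1 cut_B40mm_011_s1 Ext.none)

def k0_B40mm_011_s1 : ∃ t, chk3 f_B40mm_011_s1 t 1 1 1 = true :=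
  ⟨(l 5), by decide +kernel⟩

theorem c_B40mm_011_s1 : CertF 0 536870912 536870912 536870912 50331648 16777216 false false false .pnn 0 1 1
    ndF4q0 ndF0q1 pcF1 cut_B40mm_011_s1 Ext.none :=
  certFK0 (fam := false) (s1 := false) (s2 := false) (a := 0) (b := 1) (c := 1) (cn := .pnn) (n1 := ndF4q0) (n2 := ndF0q1) (pc := pcF1) (cut := cut_B40mm_011_s1) (xt := Ext.none) (P1 := 0) (W1 := 536870912) (P2 := 536870912) (W2 := 536870912) (P3 := 50331648) (W3 := 16777216)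
    rfl rfl rfl k0_B40mm_011_s1

theorem s_B40mm_011_s1 {κ x : ℝ} (hκ : κ * h0 = ken x) (hx : ((50331648 : ℕ) : ℝ) / S ≤ x)
    (hx' : x ≤ (((50331648 : ℕ) : ℝ) + (16777216 : ℕ)) / S) :
    AltB (VF κ) PP tKF tL pcF [⟨3, 0, 0, 1449551462⟩] 0 1 1 4 0 (sgb false) (sgb false) x :=
  strip_altB (m := 1449551462) true rfl hκ covF40 covF01 hx hx' c_B40mm_011_s1 cutB_nil (noExt_B)

noncomputable def cut_B40mm_012_s1 : Cut := Cut.of [[⟨4, 0, 0, 1449551462⟩]]

noncomputable def f_B40mm_012_s1 : ℕ → ℕ → ℕ → ℕ → Bool := onCell 0 536870912 0 536870912 50331648 16777216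
    (rowFK 0 false false false .pnp 0 1 2 (qsf 0 536870912 0 536870912 1) ndF4q0 ndF0q2 pcF1 cut_B40mm_012_s1 Ext.none)

def k0_B40mm_012_s1 : ∃ t, chk3 f_B40mm_012_s1 t 1 1 1 = true :=
  ⟨(l 5), by decide +kernel⟩

theorem c_B40mm_012_s1 : CertF 0 536870912 0 536870912 50331648 16777216 false false false .pnp 0 1 2
    ndF4q0 ndF0q2 pcF1 cut_B40mm_012_s1 Ext.none :=
  certFK0 (fam := false) (s1 := false) (s2 := false) (a := 0) (b := 1) (c := 2) (cn := .pnp) (n1 := ndF4q0) (n2 := ndF0q2) (pc := pcF1) (cut := cut_B40mm_012_s1) (xt := Ext.none) (P1 := 0) (W1 := 536870912) (P2 := 0) (W2 := 536870912) (P3 := 50331648) (W3 := 16777216)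
    rfl rfl rfl k0_B40mm_012_s1

theorem s_B40mm_012_s1 {κ x : ℝ} (hκ : κ * h0 = ken x) (hx : ((50331648 : ℕ) : ℝ) / S ≤ x)
    (hx' : x ≤ (((50331648 : ℕ) : ℝ) + (16777216 : ℕ)) / S) :
    AltB (VF κ) PP tKF tL pcF [⟨3, 0, 0, 1449551462⟩] 0 1 2 4 0 (sgb false) (sgb false) x :=
  strip_altB (m := 1449551462) true rfl hκ covF40 covF02 hx hx' c_B40mm_012_s1 cutB_nil (noExt_B)

noncomputable def cut_B40mm_022_s1 : Cut := Cut.of [[⟨4, 0, 0, 1449551462⟩]]

noncomputable def f_B40mm_022_s1 : ℕ → ℕ → ℕ → ℕ → Bool := onCell 0 536870912 0 536870912 50331648 16777216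
    (rowFK 0 false false false .pp 0 2 2 (qsf 0 536870912 0 536870912 2) ndF4q0 ndF0q2 pcF2 cut_B40mm_022_s1 Ext.none)

def k0_B40mm_022_s1 : ∃ t, chk3 f_B40mm_022_s1 t 1 1 1 = true :=
  ⟨(l 5), by decide +kernel⟩

theorem c_B40mm_022_s1 : CertF 0 536870912 0 536870912 50331648 16777216 false false false .pp 0 2 2
    ndF4q0 ndF0q2 pcF2 cut_B40mm_022_s1 Ext.none :=
  certFK0 (fam := false) (s1 := false) (s2 := false) (a := 0) (b := 2) (c := 2) (cn := .pp) (n1 := ndF4q0) (n2 := ndF0q2) (pc := pcF2) (cut := cut_B40mm_022_s1) (xt := Ext.none) (P1 := 0) (W1 := 536870912) (P2 := 0) (W2 := 536870912) (P3 := 50331648) (W3 := 16777216)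
    rfl rfl rfl k0_B40mm_022_s1

theorem s_B40mm_022_s1 {κ x : ℝ} (hκ : κ * h0 = ken x) (hx : ((50331648 : ℕ) : ℝ) / S ≤ x)
    (hx' : x ≤ (((50331648 : ℕ) : ℝ) + (16777216 : ℕ)) / S) :
    AltB (VF κ) PP tKF tL pcF [⟨3, 0, 0, 1449551462⟩] 0 2 2 4 0 (sgb false) (sgb false) x :=
  strip_altB (m := 1449551462) true rfl hκ covF40 covF02 hx hx' c_B40mm_022_s1 cutB_nil (noExt_B)

noncomputable def cut_B40mm_101_s1 : Cut := Cut.of [[⟨4, 0, 0, 1449551462⟩]]

noncomputable def f_B40mm_101_s1 : ℕ → ℕ → ℕ → ℕ → Bool := onCell 0 536870912 536870912 536870912 50331648 16777216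
    (rowFK 2 false false false .npn 1 0 1 (qsf 536870912 536870912 536870912 536870912 0) ndF4q1 ndF0q1 pcF0 cut_B40mm_101_s1 Ext.none)

def k0_B40mm_101_s1 : ∃ t, chk3 f_B40mm_101_s1 t 1 1 1 = true :=
  ⟨(l 5), by decide +kernel⟩

theorem c_B40mm_101_s1 : CertF 536870912 536870912 536870912 536870912 50331648 16777216 false false false .npn 1 0 1
    ndF4q1 ndF0q1 pcF0 cut_B40mm_101_s1 Ext.none :=
  certFK2 (fam := false) (s1 := false) (s2 := false) (a := 1) (b := 0) (c := 1) (cn := .npn) (n1 := ndF4q1) (n2 := ndF0q1) (pc := pcF0) (cut := cut_B40mm_101_s1) (xt := Ext.none) (P1 := 536870912) (W1 := 536870912) (P2 := 536870912) (W2 := 536870912) (P3 := 50331648) (W3 := 16777216)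
    rfl rfl rfl (fun _ => rfl) k0_B40mm_101_s1

theorem s_B40mm_101_s1 {κ x : ℝ} (hκ : κ * h0 = ken x) (hx : ((50331648 : ℕ) : ℝ) / S ≤ x)
    (hx' : x ≤ (((50331648 : ℕ) : ℝ) + (16777216 : ℕ)) / S) :
    AltB (VF κ) PP tKF tL pcF [⟨3, 0, 0, 1449551462⟩] 1 0 1 4 0 (sgb false) (sgb false) x :=
  strip_altB (m := 1449551462) true rfl hκ covF41 covF01 hx hx' c_B40mm_101_s1 cutB_nil (noExt_B)

noncomputable def cut_B40mm_102_s1 : Cut := Cut.of [[⟨4, 0, 0, 1449551462⟩]]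

noncomputable def f_B40mm_102_s1 : ℕ → ℕ → ℕ → ℕ → Bool := onCell 536870912 536870912 0 536870912 50331648 16777216
    (rowFK 0 false false false .npp 1 0 2 (qsf 536870912 536870912 0 536870912 0) ndF4q1 ndF0q2 pcF0 cut_B40mm_102_s1 Ext.none)

def k0_B40mm_102_s1 : ∃ t, chk3 f_B40mm_102_s1 t 1 1 1 = true :=
  ⟨(l 5), by decide +kernel⟩

theorem c_B40mm_102_s1 : CertF 536870912 536870912 0 536870912 50331648 16777216 false false false .npp 1 0 2
    ndF4q1 ndF0q2 pcF0 cut_B40mm_102_s1 Ext.none :=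
  certFK0 (fam := false) (s1 := false) (s2 := false) (a := 1) (b := 0) (c := 2) (cn := .npp) (n1 := ndF4q1) (n2 := ndF0q2) (pc := pcF0) (cut := cut_B40mm_102_s1) (xt := Ext.none) (P1 := 536870912) (W1 := 536870912) (P2 := 0) (W2 := 536870912) (P3 := 50331648) (W3 := 16777216)
    rfl rfl rfl k0_B40mm_102_s1

theorem s_B40mm_102_s1 {κ x : ℝ} (hκ : κ * h0 = ken x) (hx : ((50331648 : ℕ) : ℝ) / S ≤ x)
    (hx' : x ≤ (((50331648 : ℕ) : ℝ) + (16777216 : ℕ)) / S) :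
    AltB (VF κ) PP tKF tL pcF [⟨3, 0, 0, 1449551462⟩] 1 0 2 4 0 (sgb false) (sgb false) x :=
  strip_altB (m := 1449551462) true rfl hκ covF41 covF02 hx hx' c_B40mm_102_s1 cutB_nil (noExt_B)

noncomputable def cut_B40mm_112_s1 : Cut := Cut.of [[⟨4, 0, 0, 1449551462⟩]]

noncomputable def f_B40mm_112_s1 : ℕ → ℕ → ℕ → ℕ → Bool := onCell 536870912 536870912 0 536870912 50331648 16777216
    (rowFK 0 false false false .dn 1 1 2 (qsf 536870912 536870912 0 536870912 1) ndF4q1 ndF0q2 pcF1 cut_B40mm_112_s1 Ext.none)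

def k0_B40mm_112_s1 : ∃ t, chk3 f_B40mm_112_s1 t 1 1 1 = true :=
  ⟨(l 5), by decide +kernel⟩

theorem c_B40mm_112_s1 : CertF 536870912 536870912 0 536870912 50331648 16777216 false false false .dn 1 1 2
    ndF4q1 ndF0q2 pcF1 cut_B40mm_112_s1 Ext.none :=
  certFK0 (fam := false) (s1 := false) (s2 := false) (a := 1) (b := 1) (c := 2) (cn := .dn) (n1 := ndF4q1) (n2 := ndF0q2) (pc := pcF1) (cut := cut_B40mm_112_s1) (xt := Ext.none) (P1 := 536870912) (W1 := 536870912) (P2 := 0) (W2 := 536870912) (P3 := 50331648) (W3 := 16777216)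
    rfl rfl rfl k0_B40mm_112_s1

theorem s_B40mm_112_s1 {κ x : ℝ} (hκ : κ * h0 = ken x) (hx : ((50331648 : ℕ) : ℝ) / S ≤ x)
    (hx' : x ≤ (((50331648 : ℕ) : ℝ) + (16777216 : ℕ)) / S) :
    AltB (VF κ) PP tKF tL pcF [⟨3, 0, 0, 1449551462⟩] 1 1 2 4 0 (sgb false) (sgb false) x :=
  strip_altB (m := 1449551462) true rfl hκ covF41 covF02 hx hx' c_B40mm_112_s1 cutB_nil (noExt_B)

noncomputable def cut_B40mm_202_s1 : Cut := Cut.of [[⟨4, 0, 0, 1449551462⟩]]

noncomputable def f_B40mm_202_s1 : ℕ → ℕ → ℕ → ℕ → Bool := onCell 1073741824 536870912 0 536870912 50331648 16777216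
    (rowFK 0 false false false .pp 2 0 2 (qsf 1073741824 536870912 0 536870912 0) ndF4q2 ndF0q2 pcF0 cut_B40mm_202_s1 Ext.none)

def k0_B40mm_202_s1 : ∃ t, chk3 f_B40mm_202_s1 t 1 1 1 = true :=
  ⟨(l 5), by decide +kernel⟩

theorem c_B40mm_202_s1 : CertF 1073741824 536870912 0 536870912 50331648 16777216 false false false .pp 2 0 2
    ndF4q2 ndF0q2 pcF0 cut_B40mm_202_s1 Ext.none :=
  certFK0 (fam := false) (s1 := false) (s2 := false) (a := 2) (b := 0) (c := 2) (cn := .pp) (n1 := ndF4q2) (n2 := ndF0q2) (pc := pcF0) (cut := cut_B40mm_202_s1) (xt := Ext.none) (P1 := 1073741824) (W1 := 536870912) (P2 := 0) (W2 := 536870912) (P3 := 50331648) (W3 := 16777216)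
    rfl rfl rfl k0_B40mm_202_s1

theorem s_B40mm_202_s1 {κ x : ℝ} (hκ : κ * h0 = ken x) (hx : ((50331648 : ℕ) : ℝ) / S ≤ x)
    (hx' : x ≤ (((50331648 : ℕ) : ℝ) + (16777216 : ℕ)) / S) :
    AltB (VF κ) PP tKF tL pcF [⟨3, 0, 0, 1449551462⟩] 2 0 2 4 0 (sgb false) (sgb false) x :=
  strip_altB (m := 1449551462) true rfl hκ covF42 covF02 hx hx' c_B40mm_202_s1 cutB_nil (noExt_B)

end Pool.Agent.Strip051.G.I3_64_1_16.Tab.St.C
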