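import Pool.Agent.Strip051.G.I3_64_1_16.Gn
import Pool.Agent.Strip051.PB.Corns
import Pool.Agent.Strip051.PB.CornK

/-! # Certificates of the aligned corners (generated) -/

set_option linter.all false

namespace Pool.Agent.Strip051.G.I3_64_1_16.Tab.CN

open Pool.Agent.Strip051.PB

def A011E_000 :
    ∃ t, chk3 (onCell 0 50331648 0 1073741824 50331648 16777216 (corTK [] false 3 c0N cA011E gN0q0 gN0q1 gN0q1 gN1q1 true false)) t 1 1 1 = true :=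
  ⟨(T.l 1), by decide +kernel⟩

def A011L_001 :
    ∃ t, chk3 (onCell 0 50331648 0 1073741824 50331648 16777216 (corTK [] false 3 c0N cA011L gN0q0 gN0q1 gN1q1 gN2q1 false true)) t 1 1 1 = true :=
  ⟨(T.l 2), by decide +kernel⟩

def A011L_002 :
    ∃ t, chk3 (onCell 0 50331648 0 1073741824 50331648 16777216 (corTK [] false 3 c0N cA011L gN0q0 gN0q1 gN2q1 gN3q1 true true)) t 1 1 1 = true :=
  ⟨(T.l 2), by decide +kernel⟩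

def A011L_003 :
    ∃ t, chk3 (onCell 0 50331648 0 1073741824 50331648 16777216 (corTK [] false 3 c0N cA011L gN0q0 gN0q1 gN3q1 gN4q1 true true)) t 1 1 1 = true :=
  ⟨(T.l 2), by decide +kernel⟩

def A011R_020 :
    ∃ t, chk3 (onCell 0 50331648 0 1073741824 50331648 16777216 (corTK [[⟨0, 0, 1, 33554432⟩, ⟨1, 1, 2, 33554432⟩, ⟨2, 1, 0, 16777216⟩, ⟨0, 0, 0, 83886080⟩, ⟨0, 1, 0, 1040187392⟩, ⟨1, 0, 0, 1040187392⟩, ⟨1, 1, 0, 83886080⟩]] false 3 c0N cA011R gN0q0 gN2q1 gN0q1 gN1q1 true false)) t 1 1 1 = true :=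
  ⟨(T.b (T.b (T.b (T.b (T.b (T.b (T.b (T.b (T.a (T.c (T.a (T.l 204) (T.b (T.c (T.b (T.a (T.a (T.l 204) (T.a (T.l 204) (T.l 204))) (T.c (T.b (T.a (T.a (T.l 204) (T.l 204)) (T.a (T.l 476) (T.l 476))) (T.l 1)) (T.b (T.a (T.a (T.l 204) (T.l 204)) (T.a (T.l 460) (T.l 476))) (T.l 1)))) (T.l 1)) (T.b (T.a (T.a (T.l 204) (T.a (T.l 204) (T.l 204))) (T.c (T.b (T.a (T.a (T.l 204) (T.l 204)) (T.a (T.l 460) (T.l 476))) (T.l 1)) (T.b (T.a (T.a (T.l 204) (T.l 204)) (T.a (T.l 204) (T.l 476))) (T.l 1)))) (T.l 1))) (T.l 1))) (T.a (T.l 204) (T.b (T.c (T.b (T.a (T.a (T.l 204) (T.a (T.l 204) (T.l 204))) (T.c (T.b (T.a (T.a (T.l 204) (T.l 204)) (T.a (T.l 204) (T.l 460))) (T.l 1)) (T.b (T.a (T.a (T.l 204) (T.l 204)) (T.a (T.l 204) (T.l 460))) (T.l 1)))) (T.l 1)) (T.b (T.a (T.a (T.l 204) (T.a (T.l 204) (T.l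 204))) (T.c (T.b (T.a (T.a (T.l 204) (T.l 204)) (T.a (T.l 204) (T.l 460))) (T.l 1)) (T.b (T.a (T.a (T.l 204) (T.l 204)) (T.a (T.l 204) (T.l 460))) (T.l 1)))) (T.l 1))) (T.l 1)))) (T.a (T.c (T.b (T.c (T.b (T.a (T.c (T.b (T.a (T.a (T.l 476) (T.l 476)) (T.c (T.a (T.l 476) (T.l 476)) (T.a (T.l 476) (T.l 476)))) (T.l 1)) (T.b (T.a (T.a (T.l 476) (T.l 476)) (T.a (T.l 476) (T.a (T.l 476) (T.l 476)))) (T.l 1))) (T.a (T.c (T.b (T.c (T.b (T.a (T.l 476) (T.a (T.a (T.l 476) (T.l 476)) (T.l 1024))) (T.l 1)) (T.a (T.l 476) (T.a (T.a (T.l 476) (T.l 476)) (T.l 1024)))) (T.l 1)) (T.b (T.c (T.a (T.l 476) (T.a (T.a (T.l 476) (T.l 476)) (T.l 1024))) (T.a (T.l 476) (T.a (T.a (T.l 476) (T.l 476)) (T.l 1024)))) (T.l 1))) (T.l 1024))) (T.l 1)) (T.b (T.a (T.c (T.b (T.a (T.a (T.l 476) (T.l 476)) (T.a (T.l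 476) (T.l 476))) (T.l 1)) (T.b (T.a (T.a (T.l 476) (T.l 476)) (T.a (T.l 476) (T.l 476))) (T.l 1))) (T.a (T.c (T.b (T.a (T.l 476) (T.a (T.a (T.l 476) (T.l 476)) (T.l 1024))) (T.l 1)) (T.a (T.l 476) (T.a (T.a (T.l 476) (T.l 476)) (T.l 1024)))) (T.l 1024))) (T.l 1))) (T.l 1)) (T.b (T.c (T.b (T.a (T.c (T.b (T.a (T.a (T.l 476) (T.l 476)) (T.a (T.l 476) (T.l 476))) (T.l 1)) (T.b (T.a (T.a (T.l 476) (T.l 476)) (T.a (T.l 476) (T.l 476))) (T.l 1))) (T.a (T.a (T.l 476) (T.a (T.a (T.l 476) (T.l 476)) (T.l 1024))) (T.l 1024))) (T.l 1)) (T.b (T.a (T.c (T.b (T.a (T.a (T.l 460) (T.l 476)) (T.a (T.l 476) (T.l 476))) (T.l 1)) (T.b (T.a (T.a (T.l 460) (T.l 476)) (T.a (T.l 476) (T.l 476))) (T.l 1))) (T.a (T.a (T.l 476) (T.a (T.a (T.l 476) (T.l 476)) (T.l 1024))) (T.l 1024))) (T.l 1))) (T.l 1))) (T.l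 1024))) (T.l 1)) (T.l 1)) (T.l 1)) (T.l 1)) (T.l 1)) (T.l 1)) (T.l 1)) (T.l 1)), by decide +kernel⟩

def A011R_030 :
    ∃ t, chk3 (onCell 0 50331648 0 1073741824 50331648 16777216 (corTK [] false 3 c0N cA011R gN0q0 gN3q1 gN0q1 gN1q1 true false)) t 1 1 1 = true :=
  ⟨(T.b (T.b (T.b (T.a (T.a (T.l 204) (T.a (T.a (T.b (T.l 204) (T.l 204)) (T.b (T.l 204) (T.l 204))) (T.b (T.l 204) (T.b (T.l 204) (T.l 204))))) (T.a (T.a (T.b (T.l 476) (T.l 220)) (T.b (T.l 476) (T.b (T.l 204) (T.l 204)))) (T.a (T.b (T.l 476) (T.b (T.l 204) (T.l 204))) (T.b (T.b (T.l 204) (T.l 204)) (T.b (T.l 204) (T.l 220)))))) (T.b (T.b (T.b (T.b (T.b (T.a (T.a (T.l 204) (T.a (T.c (T.l 204) (T.l 204)) (T.l 204))) (T.a (T.a (T.l 204) (T.l 204)) (T.a (T.l 204) (T.l 204)))) (T.a (T.a (T.l 204) (T.a (T.c (T.l 204) (T.l 204))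 (T.l 204))) (T.a (T.a (T.l 204) (T.l 204)) (T.a (T.l 204) (T.l 204))))) (T.b (T.a (T.a (T.l 204) (T.a (T.c (T.l 220) (T.l 204)) (T.l 204))) (T.c (T.b (T.a (T.a (T.l 204) (T.l 204)) (T.l 1)) (T.l 1)) (T.a (T.a (T.l 204) (T.l 204)) (T.l 220)))) (T.l 1))) (T.l 1)) (T.l 1)) (T.l 1))) (T.l 1)) (T.l 1)), by decide +kernel⟩

def A011R_040 :
    ∃ t, chk3 (onCell 0 50331648 0 1073741824 50331648 16777216 (corTK [] false 3 c0N cA011R gN0q0 gN4q1 gN0q1 gN1q1 true false)) t 1 1 1 = true :=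
  ⟨(T.b (T.b (T.b (T.a (T.a (T.l 204) (T.a (T.b (T.l 0) (T.l 0)) (T.b (T.l 204) (T.l 0)))) (T.a (T.a (T.b (T.l 204) (T.l 204)) (T.b (T.l 204) (T.l 204))) (T.a (T.b (T.l 204) (T.l 204)) (T.l 460)))) (T.a (T.a (T.l 204) (T.a (T.b (T.l 0) (T.b (T.l 0) (T.l 0))) (T.b (T.l 0) (T.l 0)))) (T.a (T.b (T.a (T.l 0) (T.l 204)) (T.a (T.b (T.l 0) (T.l 0)) (T.b (T.l 0) (T.l 0)))) (T.b (T.a (T.b (T.l 204) (T.l 204)) (T.b (T.l 204) (T.l 204))) (T.a (T.b (T.l 0) (T.l 0)) (T.b (T.l 204) (T.l 0))))))) (T.b (T.b (T.a (T.a (T.l 0) (T.a (T.l 0) (T.b (T.l 0) (T.b (T.l 0) (T.l 68))))) (T.a (T.a (T.b (T.l 0) (T.b (T.l 0) (T.l 0))) (T.b (T.l 0) (T.l 64))) (T.a (T.b (T.l 0) (T.l 64)) (T.b (T.l 0) (T.l 64))))) (T.b (T.b (T.a (T.a (T.l 816) (T.a (T.l 816) (T.b (T.l 0) (T.l 68)))) (T.a (T.a (T.l 0) (T.l 0)) (T.a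 (T.l 0) (T.l 0)))) (T.b (T.b (T.a (T.a (T.l 816) (T.a (T.l 816) (T.l 0))) (T.a (T.a (T.l 0) (T.l 0)) (T.a (T.l 0) (T.l 0)))) (T.a (T.a (T.c (T.b (T.l 816) (T.c (T.b (T.a (T.a (T.l 1) (T.a (T.l 1) (T.l 1))) (T.l 816)) (T.l 1)) (T.b (T.a (T.a (T.l 1) (T.a (T.l 1) (T.l 1))) (T.l 816)) (T.l 1)))) (T.b (T.l 816) (T.c (T.b (T.a (T.c (T.b (T.l 816) (T.l 1)) (T.b (T.l 816) (T.l 1))) (T.l 816)) (T.l 1)) (T.b (T.a (T.c (T.b (T.l 816) (T.l 1)) (T.a (T.l 1) (T.l 816))) (T.l 816)) (T.l 1))))) (T.a (T.a (T.c (T.b (T.l 816) (T.c (T.b (T.l 816) (T.l 1)) (T.b (T.l 816) (T.l 1)))) (T.c (T.a (T.b (T.l 816) (T.b (T.l 816) (T.l 1))) (T.l 816)) (T.l 816))) (T.l 816)) (T.a (T.l 0) (T.l 816)))) (T.a (T.a (T.l 0) (T.l 0)) (T.a (T.l 0) (T.l 0))))) (T.b (T.a (T.a (T.l 1) (T.a (T.l 1) (T.l 1))) (T.c (T.a (T.b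 (T.a (T.c (T.b (T.a (T.l 816) (T.l 816)) (T.l 1)) (T.b (T.a (T.l 816) (T.l 816)) (T.l 1))) (T.a (T.c (T.b (T.l 816) (T.l 1)) (T.b (T.l 816) (T.l 1))) (T.l 816))) (T.l 1)) (T.b (T.a (T.l 0) (T.l 0)) (T.a (T.l 1) (T.c (T.b (T.a (T.l 816) (T.l 816)) (T.l 1)) (T.b (T.a (T.l 816) (T.l 816)) (T.l 1)))))) (T.a (T.b (T.a (T.c (T.b (T.a (T.l 816) (T.l 816)) (T.l 1)) (T.b (T.a (T.l 816) (T.l 816)) (T.l 1))) (T.a (T.c (T.b (T.l 816) (T.l 1)) (T.a (T.l 816) (T.l 816))) (T.l 816))) (T.l 1)) (T.b (T.a (T.l 0) (T.l 0)) (T.a (T.l 1) (T.c (T.b (T.a (T.l 816) (T.l 816)) (T.l 1)) (T.b (T.l 816) (T.l 1)))))))) (T.l 1)))) (T.l 1))) (T.l 1))) (T.l 1)), by decide +kernel⟩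

def A011R_120 :
    ∃ t, chk3 (onCell 0 50331648 0 1073741824 50331648 16777216 (corTK [] false 3 c0N cA011R gN1q0 gN2q1 gN0q1 gN1q1 true false)) t 1 1 1 = true :=
  ⟨(T.l 1), by decide +kernel⟩

def A011R_130 :
    ∃ t, chk3 (onCell 0 50331648 0 1073741824 50331648 16777216 (corTK [] false 3 c0N cA011R gN1q0 gN3q1 gN0q1 gN1q1 true false)) t 1 1 1 = true :=
  ⟨(T.l 1), by decide +kernel⟩

def A011R_140 :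
    ∃ t, chk3 (onCell 0 50331648 0 1073741824 50331648 16777216 (corTK [] false 3 c0N cA011R gN1q0 gN4q1 gN0q1 gN1q1 true false)) t 1 1 1 = true :=
  ⟨(T.l 1), by decide +kernel⟩

def A011R_220 :
    ∃ t, chk3 (onCell 0 50331648 0 1073741824 50331648 16777216 (corTK [] false 3 c0N cA011R gN2q0 gN2q1 gN0q1 gN1q1 true false)) t 1 1 1 = true :=
  ⟨(T.l 1), by decide +kernel⟩

def A011R_230 :
    ∃ t, chk3 (onCell 0 50331648 0 1073741824 50331648 16777216 (corTK [] false 3 c0N cA011R gN2q0 gN3q1 gN0q1 gN1q1 true false)) t 1 1 1 = true :=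
  ⟨(T.l 1), by decide +kernel⟩

def A011R_240 :
    ∃ t, chk3 (onCell 0 50331648 0 1073741824 50331648 16777216 (corTK [] false 3 c0N cA011R gN2q0 gN4q1 gN0q1 gN1q1 true false)) t 1 1 1 = true :=
  ⟨(T.l 1), by decide +kernel⟩

def A012E_000_1_4_1 :
    ∃ t, chk3 (onCell 0 50331648 0 1073741824 50331648 16777216 (corTK [[⟨0, 0, 1, 25165824⟩, ⟨1, 1, 0, 8388608⟩, ⟨2, 1, 1, 25165824⟩, ⟨0, 0, 0, 83886080⟩, ⟨0, 1, 0, 1040187392⟩, ⟨2, 1, 0, 83886080⟩, ⟨2, 2, 0, 1040187392⟩]] false 3 c0N cA012E gN0q0 gN0q1 gN0q2 gN1q2 true true)) t 1 4 1 = true :=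
  ⟨(T.l 1), by decide +kernel⟩

def A012E_000_1_10_1 :
    ∃ t, chk3 (onCell 0 50331648 0 1073741824 50331648 16777216 (corTK [[⟨0, 0, 1, 25165824⟩, ⟨1, 1, 0, 8388608⟩, ⟨2, 1, 1, 25165824⟩, ⟨0, 0, 0, 83886080⟩, ⟨0, 1, 0, 1040187392⟩, ⟨2, 1, 0, 83886080⟩, ⟨2, 2, 0, 1040187392⟩]] false 3 c0N cA012E gN0q0 gN0q1 gN0q2 gN1q2 true true)) t 1 10 1 = true :=
  ⟨(T.l 1), by decide +kernel⟩

def A012E_000_1_22_1 :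
    ∃ t, chk3 (onCell 0 50331648 0 1073741824 50331648 16777216 (corTK [[⟨0, 0, 1, 25165824⟩, ⟨1, 1, 0, 8388608⟩, ⟨2, 1, 1, 25165824⟩, ⟨0, 0, 0, 83886080⟩, ⟨0, 1, 0, 1040187392⟩, ⟨2, 1, 0, 83886080⟩, ⟨2, 2, 0, 1040187392⟩]] false 3 c0N cA012E gN0q0 gN0q1 gN0q2 gN1q2 true true)) t 1 22 1 = true :=
  ⟨(T.l 1), by decide +kernel⟩

def A012E_000_1_46_1 :
    ∃ t, chk3 (onCell 0 50331648 0 1073741824 50331648 16777216 (corTK [[⟨0, 0, 1, 25165824⟩, ⟨1, 1, 0, 8388608⟩, ⟨2, 1, 1, 25165824⟩, ⟨0, 0, 0, 83886080⟩, ⟨0, 1, 0, 1040187392⟩, ⟨2, 1, 0, 83886080⟩, ⟨2, 2, 0, 1040187392⟩]] false 3 c0N cA012E gN0q0 gN0q1 gN0q2 gN1q2 true true)) t 1 46 1 = true :=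
  ⟨(T.l 1), by decide +kernel⟩

def A012E_000_1_94_1 :
    ∃ t, chk3 (onCell 0 50331648 0 1073741824 50331648 16777216 (corTK [[⟨0, 0, 1, 25165824⟩, ⟨1, 1, 0, 8388608⟩, ⟨2, 1, 1, 25165824⟩, ⟨0, 0, 0, 83886080⟩, ⟨0, 1, 0, 1040187392⟩, ⟨2, 1, 0, 83886080⟩, ⟨2, 2, 0, 1040187392⟩]] false 3 c0N cA012E gN0q0 gN0q1 gN0q2 gN1q2 true true)) t 1 94 1 = true :=
  ⟨(T.a (T.l 1) (T.a (T.l 1) (T.a (T.l 1) (T.b (T.l 1) (T.b (T.l 1) (T.c (T.b (T.a (T.l 1) (T.a (T.l 1) (T.a (T.l 1) (T.c (T.b (T.l 1) (T.c (T.b (T.l 1) (T.l 748)) (T.b (T.l 1) (T.l 748)))) (T.b (T.l 1) (T.c (T.b (T.l 1) (T.l 236)) (T.b (T.l 1) (T.l 204)))))))) (T.a (T.c (T.b (T.l 1) (T.a (T.c (T.b (T.l 1) (T.l 748)) (T.b (T.l 1) (T.l 204))) (T.l 204))) (T.b (T.l 1) (T.a (T.c (T.b (T.l 1) (T.l 204)) (T.b (T.l 1) (T.l 204))) (T.l 204))))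 (T.a (T.c (T.b (T.c (T.b (T.l 1) (T.l 204)) (T.b (T.l 1) (T.l 204))) (T.l 204)) (T.b (T.c (T.b (T.l 1) (T.l 204)) (T.b (T.l 1) (T.l 204))) (T.l 204))) (T.l 204)))) (T.b (T.a (T.l 1) (T.a (T.l 1) (T.a (T.l 1) (T.c (T.b (T.l 1) (T.c (T.b (T.l 1) (T.l 204)) (T.b (T.l 1) (T.l 204)))) (T.b (T.l 1) (T.c (T.b (T.l 1) (T.l 204)) (T.b (T.l 1) (T.l 204)))))))) (T.a (T.c (T.b (T.l 1) (T.a (T.c (T.b (T.l 1) (T.l 204)) (T.b (T.l 1) (T.l 204))) (T.l 204))) (T.b (T.l 1) (T.a (T.c (T.b (T.l 1) (T.l 204)) (T.b (T.l 1) (T.l 204))) (T.l 204)))) (T.a (T.c (T.b (T.c (T.b (T.l 1) (T.l 204)) (T.b (T.l 1) (T.l 204))) (T.l 204)) (T.a (T.b (T.c (T.b (T.l 1) (T.l 204)) (T.b (T.l 1) (T.l 204))) (T.l 204)) (T.l 204))) (T.l 204)))))))))), by decide +kernel⟩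

def A012E_000_4_95_1 :
    ∃ t, chk3 (onCell 0 50331648 0 1073741824 50331648 16777216 (corTK [[⟨0, 0, 1, 25165824⟩, ⟨1, 1, 0, 8388608⟩, ⟨2, 1, 1, 25165824⟩, ⟨0, 0, 0, 83886080⟩, ⟨0, 1, 0, 1040187392⟩, ⟨2, 1, 0, 83886080⟩, ⟨2, 2, 0, 1040187392⟩]] false 3 c0N cA012E gN0q0 gN0q1 gN0q2 gN1q2 true true)) t 4 95 1 = true :=
  ⟨(T.b (T.l 1) (T.b (T.a (T.l 1) (T.a (T.l 1) (T.c (T.b (T.l 1) (T.c (T.b (T.l 1) (T.a (T.l 1) (T.c (T.b (T.a (T.l 1) (T.c (T.b (T.l 1) (T.l 204)) (T.a (T.l 1) (T.l 748)))) (T.l 204)) (T.b (T.a (T.l 1) (T.a (T.l 1) (T.l 748))) (T.l 204))))) (T.b (T.l 1) (T.a (T.l 1) (T.c (T.b (T.a (T.l 1) (T.a (T.l 1) (T.l 204))) (T.l 204)) (T.b (T.a (T.l 1) (T.a (T.l 1) (T.l 204))) (T.l 204))))))) (T.b (T.l 1) (T.c (T.b (T.l 1) (T.a (T.l 1) (T.c (T.b (T.a (T.l 1) (T.a (T.l 1) (T.l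 204))) (T.l 204)) (T.b (T.a (T.l 1) (T.a (T.l 1) (T.l 204))) (T.l 204))))) (T.b (T.l 1) (T.a (T.l 1) (T.c (T.b (T.a (T.l 1) (T.a (T.l 1) (T.l 204))) (T.l 204)) (T.b (T.a (T.l 1) (T.a (T.l 1) (T.l 204))) (T.l 204)))))))))) (T.a (T.c (T.b (T.a (T.l 1) (T.a (T.l 1) (T.c (T.b (T.l 1) (T.c (T.b (T.l 1) (T.a (T.l 1) (T.a (T.c (T.b (T.l 1) (T.l 204)) (T.b (T.l 1) (T.l 204))) (T.l 204)))) (T.b (T.l 1) (T.a (T.l 1) (T.c (T.b (T.l 748) (T.l 204)) (T.l 204)))))) (T.b (T.l 1) (T.c (T.b (T.l 1) (T.a (T.l 1) (T.l 204))) (T.b (T.l 1) (T.a (T.l 1) (T.l 204)))))))) (T.a (T.c (T.b (T.a (T.l 1) (T.c (T.b (T.l 1) (T.a (T.l 1) (T.c (T.b (T.l 1) (T.l 204)) (T.b (T.l 1) (T.l 204))))) (T.b (T.l 1) (T.a (T.l 1) (T.c (T.b (T.l 1) (T.l 204)) (T.b (T.l 1) (T.l 204))))))) (T.a (T.c (T.b (T.a (T.l 1) (T.c (T.b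 (T.l 1) (T.a (T.l 1) (T.l 204))) (T.b (T.l 1) (T.a (T.l 1) (T.l 204))))) (T.a (T.a (T.c (T.b (T.l 1) (T.l 204)) (T.b (T.l 1) (T.l 204))) (T.l 204)) (T.l 204))) (T.b (T.a (T.l 1) (T.c (T.b (T.l 1) (T.a (T.l 1) (T.l 204))) (T.b (T.l 1) (T.a (T.l 1) (T.l 204))))) (T.a (T.a (T.c (T.b (T.l 1) (T.l 204)) (T.b (T.l 1) (T.l 204))) (T.l 204)) (T.l 204)))) (T.l 204))) (T.b (T.a (T.l 1) (T.c (T.b (T.l 1) (T.a (T.l 1) (T.c (T.b (T.l 1) (T.l 204)) (T.b (T.l 1) (T.l 204))))) (T.b (T.l 1) (T.a (T.l 1) (T.c (T.b (T.l 1) (T.l 204)) (T.b (T.l 1) (T.l 204))))))) (T.a (T.c (T.b (T.a (T.l 1) (T.c (T.b (T.l 1) (T.a (T.l 1) (T.l 204))) (T.b (T.l 1) (T.a (T.l 1) (T.l 204))))) (T.a (T.a (T.c (T.b (T.l 1) (T.l 204)) (T.b (T.l 1) (T.l 204))) (T.l 204)) (T.l 204))) (T.b (T.a (T.l 1) (T.c (T.b (T.l 1) (T.a (T.l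 1) (T.l 204))) (T.b (T.l 1) (T.l 204)))) (T.a (T.a (T.c (T.b (T.l 1) (T.l 204)) (T.b (T.l 1) (T.l 204))) (T.l 204)) (T.l 204)))) (T.l 204)))) (T.a (T.c (T.b (T.c (T.b (T.a (T.l 1) (T.c (T.b (T.l 1) (T.l 204)) (T.b (T.l 1) (T.l 204)))) (T.l 204)) (T.b (T.a (T.l 1) (T.c (T.b (T.l 1) (T.l 204)) (T.b (T.l 1) (T.l 204)))) (T.l 204))) (T.l 204)) (T.b (T.c (T.b (T.a (T.l 1) (T.c (T.b (T.l 1) (T.l 204)) (T.b (T.l 1) (T.l 204)))) (T.l 204)) (T.b (T.a (T.l 1) (T.c (T.b (T.l 1) (T.l 204)) (T.b (T.l 1) (T.l 204)))) (T.l 204))) (T.l 204))) (T.l 204)))) (T.b (T.a (T.l 1) (T.a (T.l 1) (T.c (T.b (T.l 1) (T.c (T.b (T.l 1) (T.a (T.l 1) (T.l 204))) (T.b (T.l 1) (T.a (T.l 1) (T.l 204))))) (T.b (T.l 1) (T.c (T.b (T.l 1) (T.a (T.l 1) (T.l 204))) (T.b (T.l 1) (T.a (T.l 1) (T.l 204)))))))) (T.a (T.c (T.b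 (T.a (T.l 1) (T.c (T.b (T.l 1) (T.a (T.l 1) (T.c (T.b (T.l 1) (T.l 204)) (T.b (T.l 1) (T.l 204))))) (T.b (T.l 1) (T.a (T.l 1) (T.a (T.l 1) (T.l 204)))))) (T.a (T.c (T.b (T.a (T.l 1) (T.c (T.b (T.l 1) (T.l 204)) (T.b (T.l 1) (T.l 204)))) (T.a (T.a (T.c (T.b (T.l 1) (T.l 204)) (T.b (T.l 1) (T.l 204))) (T.l 204)) (T.l 204))) (T.b (T.a (T.l 1) (T.c (T.b (T.l 1) (T.l 204)) (T.b (T.l 1) (T.l 204)))) (T.a (T.a (T.c (T.b (T.l 1) (T.l 204)) (T.b (T.l 1) (T.l 204))) (T.l 204)) (T.l 204)))) (T.l 204))) (T.b (T.a (T.l 1) (T.c (T.b (T.l 1) (T.a (T.l 1) (T.a (T.l 1) (T.l 204)))) (T.b (T.l 1) (T.a (T.l 1) (T.a (T.l 1) (T.l 204)))))) (T.a (T.c (T.b (T.a (T.l 1) (T.c (T.b (T.l 1) (T.l 204)) (T.b (T.l 1) (T.l 204)))) (T.a (T.a (T.c (T.b (T.l 1) (T.l 204)) (T.b (T.l 1) (T.l 204))) (T.l 204)) (T.l 204)))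 (T.b (T.a (T.l 1) (T.c (T.b (T.l 1) (T.l 204)) (T.b (T.l 1) (T.l 204)))) (T.a (T.a (T.c (T.b (T.l 1) (T.l 204)) (T.b (T.l 1) (T.l 204))) (T.l 204)) (T.l 204)))) (T.l 204)))) (T.a (T.c (T.b (T.c (T.b (T.a (T.l 1) (T.c (T.b (T.l 1) (T.l 204)) (T.b (T.l 1) (T.l 204)))) (T.l 204)) (T.b (T.a (T.l 1) (T.c (T.b (T.l 1) (T.l 204)) (T.b (T.l 1) (T.l 204)))) (T.l 204))) (T.l 204)) (T.b (T.c (T.b (T.a (T.l 1) (T.c (T.b (T.l 1) (T.l 204)) (T.b (T.l 1) (T.l 204)))) (T.l 204)) (T.b (T.a (T.l 1) (T.c (T.b (T.l 1) (T.l 204)) (T.b (T.l 1) (T.l 204)))) (T.l 204))) (T.l 204))) (T.l 204))))) (T.c (T.b (T.a (T.c (T.b (T.a (T.l 1) (T.c (T.b (T.l 1) (T.a (T.a (T.l 1) (T.l 204)) (T.l 204))) (T.b (T.l 1) (T.a (T.a (T.l 1) (T.l 204)) (T.l 204))))) (T.a (T.a (T.c (T.b (T.c (T.b (T.l 1) (T.l 204)) (T.b (T.l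 1) (T.l 204))) (T.l 204)) (T.b (T.c (T.b (T.l 1) (T.l 204)) (T.b (T.l 1) (T.l 204))) (T.l 204))) (T.l 204)) (T.l 204))) (T.b (T.a (T.l 1) (T.c (T.b (T.l 1) (T.a (T.a (T.l 1) (T.l 204)) (T.l 204))) (T.b (T.l 1) (T.a (T.a (T.l 1) (T.l 204)) (T.l 204))))) (T.a (T.a (T.c (T.b (T.c (T.b (T.l 1) (T.l 204)) (T.b (T.l 1) (T.l 204))) (T.l 204)) (T.b (T.c (T.b (T.l 1) (T.l 204)) (T.b (T.l 1) (T.l 204))) (T.l 204))) (T.l 204)) (T.l 204)))) (T.a (T.a (T.c (T.b (T.a (T.c (T.b (T.a (T.l 1) (T.l 204)) (T.l 204)) (T.b (T.a (T.l 1) (T.l 204)) (T.l 204))) (T.l 204)) (T.l 204)) (T.b (T.a (T.c (T.b (T.a (T.l 1) (T.l 204)) (T.l 204)) (T.b (T.l 748) (T.l 204))) (T.l 204)) (T.l 204))) (T.l 204)) (T.l 204))) (T.l 204)) (T.b (T.a (T.c (T.b (T.a (T.l 1) (T.c (T.b (T.l 1) (T.a (T.a (T.l 1) (T.l 204)) (T.l 204)))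 (T.b (T.l 1) (T.a (T.a (T.l 1) (T.l 204)) (T.l 204))))) (T.a (T.a (T.c (T.b (T.c (T.b (T.l 1) (T.l 204)) (T.b (T.l 1) (T.l 204))) (T.l 204)) (T.b (T.c (T.b (T.l 1) (T.l 204)) (T.a (T.l 1) (T.l 748))) (T.l 204))) (T.l 204)) (T.l 204))) (T.b (T.a (T.l 1) (T.c (T.b (T.l 1) (T.a (T.a (T.l 1) (T.l 204)) (T.l 204))) (T.b (T.l 1) (T.a (T.a (T.l 1) (T.l 204)) (T.l 204))))) (T.a (T.a (T.c (T.a (T.b (T.l 1) (T.l 204)) (T.l 204)) (T.a (T.b (T.l 1) (T.l 204)) (T.l 204))) (T.l 204)) (T.l 204)))) (T.c (T.a (T.c (T.l 204) (T.l 204)) (T.l 204)) (T.l 204))) (T.l 204)))))), by decide +kernel⟩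

def A012E_000_5_95_1 :
    ∃ t, chk3 (onCell 0 50331648 0 1073741824 50331648 16777216 (corTK [[⟨0, 0, 1, 25165824⟩, ⟨1, 1, 0, 8388608⟩, ⟨2, 1, 1, 25165824⟩, ⟨0, 0, 0, 83886080⟩, ⟨0, 1, 0, 1040187392⟩, ⟨2, 1, 0, 83886080⟩, ⟨2, 2, 0, 1040187392⟩]] false 3 c0N cA012E gN0q0 gN0q1 gN0q2 gN1q2 true true)) t 5 95 1 = true :=
  ⟨(T.a (T.b (T.l 1) (T.a (T.a (T.b (T.c (T.b (T.l 1) (T.c (T.b (T.a (T.l 1) (T.c (T.b (T.l 1) (T.a (T.l 1) (T.l 204))) (T.b (T.l 1) (T.a (T.l 1) (T.l 204))))) (T.l 204)) (T.b (T.a (T.l 1) (T.c (T.b (T.l 1) (T.a (T.l 1) (T.l 204))) (T.b (T.l 1) (T.a (T.l 1) (T.l 204))))) (T.l 204)))) (T.b (T.l 1) (T.c (T.b (T.c (T.b (T.l 1) (T.a (T.l 1) (T.l 748))) (T.b (T.l 1) (T.a (T.l 1) (T.l 204)))) (T.l 204)) (T.b (T.c (T.b (T.l 1) (T.a (T.l 1) (T.l 204))) (T.b (T.l 1) (T.a (T.l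 1) (T.l 204)))) (T.l 204))))) (T.l 204)) (T.b (T.c (T.b (T.l 1) (T.c (T.b (T.a (T.c (T.b (T.l 1) (T.l 204)) (T.b (T.l 1) (T.l 204))) (T.a (T.c (T.b (T.l 1) (T.l 204)) (T.l 204)) (T.l 204))) (T.l 204)) (T.b (T.a (T.c (T.b (T.l 1) (T.l 204)) (T.b (T.l 1) (T.l 204))) (T.a (T.l 204) (T.l 204))) (T.l 204)))) (T.b (T.l 1) (T.c (T.b (T.a (T.c (T.b (T.l 1) (T.l 204)) (T.b (T.l 1) (T.l 204))) (T.c (T.l 204) (T.l 204))) (T.l 204)) (T.a (T.b (T.c (T.b (T.l 1) (T.l 204)) (T.b (T.l 1) (T.l 204))) (T.l 204)) (T.l 204))))) (T.l 204))) (T.b (T.a (T.c (T.b (T.c (T.b (T.l 1) (T.a (T.l 1) (T.c (T.b (T.l 1) (T.l 204)) (T.b (T.l 1) (T.l 204))))) (T.b (T.l 1) (T.a (T.l 1) (T.c (T.b (T.l 1) (T.l 204)) (T.b (T.l 1) (T.l 204)))))) (T.c (T.l 204) (T.l 204))) (T.b (T.c (T.b (T.l 1) (T.a (T.l 1) (T.c (T.b (T.l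 1) (T.l 204)) (T.b (T.l 1) (T.l 204))))) (T.b (T.l 1) (T.a (T.l 1) (T.c (T.b (T.l 1) (T.l 204)) (T.b (T.l 1) (T.l 204)))))) (T.l 204))) (T.c (T.b (T.c (T.b (T.l 1) (T.a (T.c (T.b (T.l 1) (T.l 204)) (T.b (T.l 1) (T.l 204))) (T.l 204))) (T.b (T.l 1) (T.a (T.c (T.b (T.l 1) (T.l 204)) (T.b (T.l 1) (T.l 204))) (T.l 204)))) (T.l 204)) (T.b (T.c (T.b (T.l 1) (T.a (T.c (T.b (T.l 1) (T.l 204)) (T.b (T.l 1) (T.l 204))) (T.l 204))) (T.b (T.l 1) (T.a (T.a (T.l 748) (T.l 204)) (T.l 204)))) (T.l 204)))) (T.a (T.l 204) (T.l 204))))) (T.b (T.a (T.l 1) (T.b (T.l 1) (T.c (T.b (T.l 1) (T.c (T.b (T.a (T.l 1) (T.a (T.l 1) (T.c (T.b (T.l 1) (T.l 204)) (T.b (T.l 1) (T.l 204))))) (T.a (T.c (T.b (T.l 1) (T.l 204)) (T.b (T.l 1) (T.l 204))) (T.l 204))) (T.b (T.a (T.l 1) (T.a (T.l 1) (T.c (T.b (T.l 1) (T.l 204))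 (T.b (T.l 1) (T.l 204))))) (T.a (T.c (T.b (T.l 1) (T.l 204)) (T.b (T.l 1) (T.l 204))) (T.l 204))))) (T.b (T.l 1) (T.c (T.b (T.a (T.l 1) (T.a (T.l 1) (T.c (T.b (T.l 1) (T.l 204)) (T.b (T.l 1) (T.l 204))))) (T.a (T.c (T.b (T.l 1) (T.l 204)) (T.b (T.l 1) (T.l 204))) (T.l 204))) (T.b (T.a (T.l 1) (T.a (T.l 1) (T.c (T.b (T.l 1) (T.l 204)) (T.b (T.l 1) (T.l 204))))) (T.a (T.c (T.b (T.l 1) (T.l 204)) (T.b (T.l 1) (T.l 204))) (T.l 204)))))))) (T.a (T.a (T.b (T.c (T.b (T.c (T.b (T.c (T.b (T.l 1) (T.a (T.a (T.l 1) (T.l 204)) (T.l 204))) (T.b (T.l 1) (T.a (T.a (T.l 1) (T.l 204)) (T.l 204)))) (T.l 204)) (T.b (T.c (T.b (T.l 1) (T.a (T.c (T.l 748) (T.l 748)) (T.l 204))) (T.b (T.l 1) (T.a (T.l 236) (T.l 204)))) (T.l 204))) (T.l 204)) (T.b (T.c (T.b (T.c (T.b (T.l 1) (T.a (T.l 204) (T.l 204))) (T.b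 (T.l 1) (T.a (T.l 204) (T.l 204)))) (T.l 204)) (T.b (T.c (T.b (T.l 1) (T.a (T.l 204) (T.l 204))) (T.b (T.l 1) (T.a (T.l 204) (T.l 204)))) (T.l 204))) (T.l 204))) (T.l 204)) (T.b (T.a (T.c (T.c (T.a (T.l 204) (T.l 204)) (T.l 204)) (T.l 204)) (T.l 204)) (T.l 204))) (T.a (T.l 204) (T.l 204))))), by decide +kernel⟩

def A012E_000_3_95_1 :
    ∃ t, chk3 (onCell 0 50331648 0 1073741824 50331648 16777216 (corTK [[⟨0, 0, 1, 25165824⟩, ⟨1, 1, 0, 8388608⟩, ⟨2, 1, 1, 25165824⟩, ⟨0, 0, 0, 83886080⟩, ⟨0, 1, 0, 1040187392⟩, ⟨2, 1, 0, 83886080⟩, ⟨2, 2, 0, 1040187392⟩]] false 3 c0N cA012E gN0q0 gN0q1 gN0q2 gN1q2 true true)) t 3 95 1 = true :=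
  ⟨(T.a (T.a (T.b (T.b (T.l 1) (T.a (T.c (T.b (T.a (T.l 1) (T.c (T.b (T.l 1) (T.c (T.b (T.l 1) (T.a (T.l 1) (T.l 204))) (T.b (T.l 1) (T.a (T.l 1) (T.l 204))))) (T.b (T.l 1) (T.c (T.b (T.l 1) (T.a (T.l 1) (T.l 204))) (T.b (T.l 1) (T.a (T.l 1) (T.l 204))))))) (T.a (T.a (T.c (T.b (T.c (T.b (T.l 1) (T.l 204)) (T.b (T.l 1) (T.l 204))) (T.l 204)) (T.b (T.c (T.b (T.l 1) (T.l 204)) (T.b (T.l 1) (T.l 204))) (T.l 204))) (T.l 204)) (T.l 204))) (T.b (T.a (T.l 1) (T.c (T.b (T.l 1) (T.c (T.b (T.l 1) (T.a (T.l 1) (T.l 204))) (T.b (T.l 1) (T.l 748)))) (T.b (T.l 1) (T.c (T.b (T.l 1) (T.l 204)) (T.b (T.l 1) (T.l 204)))))) (T.a (T.a (T.c (T.b (T.c (T.b (T.l 1) (T.l 204)) (T.a (T.l 748) (T.l 204))) (T.l 204)) (T.b (T.l 748) (T.l 204))) (T.l 204)) (T.l 204)))) (T.c (T.b (T.a (T.c (T.b (T.l 1) (T.a (T.c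 (T.l 748) (T.l 204)) (T.l 204))) (T.b (T.l 1) (T.a (T.l 204) (T.l 204)))) (T.c (T.b (T.c (T.b (T.l 1) (T.l 748)) (T.b (T.l 1) (T.l 204))) (T.l 204)) (T.b (T.c (T.b (T.l 1) (T.l 204)) (T.b (T.l 1) (T.l 204))) (T.l 204)))) (T.l 204)) (T.b (T.a (T.c (T.b (T.l 1) (T.a (T.l 204) (T.l 204))) (T.b (T.l 1) (T.l 204))) (T.c (T.b (T.a (T.l 1) (T.l 748)) (T.l 204)) (T.a (T.b (T.l 1) (T.l 204)) (T.l 204)))) (T.l 204))))) (T.a (T.l 204) (T.c (T.l 204) (T.l 204)))) (T.b (T.a (T.b (T.a (T.l 1) (T.c (T.b (T.l 1) (T.c (T.b (T.l 1) (T.c (T.b (T.l 1) (T.l 204)) (T.b (T.l 1) (T.l 204)))) (T.b (T.l 1) (T.c (T.b (T.l 1) (T.l 204)) (T.b (T.l 1) (T.l 204)))))) (T.b (T.l 1) (T.c (T.b (T.l 1) (T.c (T.b (T.l 1) (T.l 204)) (T.b (T.l 1) (T.l 204)))) (T.b (T.l 1) (T.c (T.b (T.l 1) (T.l 204)) (T.a (T.l 748) (T.l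 204)))))))) (T.a (T.a (T.c (T.l 204) (T.l 204)) (T.l 204)) (T.l 204))) (T.b (T.c (T.b (T.l 1) (T.a (T.c (T.b (T.l 1) (T.l 204)) (T.b (T.l 1) (T.l 204))) (T.a (T.c (T.b (T.c (T.b (T.l 1) (T.l 204)) (T.b (T.l 1) (T.l 204))) (T.l 204)) (T.b (T.c (T.b (T.l 1) (T.l 204)) (T.b (T.l 1) (T.l 204))) (T.l 204))) (T.l 204)))) (T.b (T.l 1) (T.a (T.c (T.b (T.l 1) (T.l 204)) (T.b (T.l 1) (T.l 204))) (T.a (T.c (T.b (T.a (T.l 748) (T.l 204)) (T.l 204)) (T.c (T.l 204) (T.l 204))) (T.l 204))))) (T.l 204))) (T.a (T.l 476) (T.l 204)))) (T.a (T.a (T.b (T.b (T.c (T.b (T.c (T.b (T.l 1) (T.a (T.c (T.b (T.l 1) (T.a (T.l 1) (T.l 204))) (T.b (T.l 1) (T.a (T.l 1) (T.l 204)))) (T.a (T.c (T.b (T.l 1) (T.l 204)) (T.b (T.l 1) (T.l 204))) (T.l 204)))) (T.b (T.l 1) (T.a (T.c (T.b (T.l 1) (T.a (T.l 1) (T.l 204))) (T.b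 (T.l 1) (T.a (T.l 1) (T.l 204)))) (T.a (T.c (T.l 748) (T.l 748)) (T.l 204))))) (T.a (T.l 204) (T.l 204))) (T.b (T.c (T.b (T.l 1) (T.a (T.c (T.b (T.l 1) (T.a (T.l 1) (T.l 204))) (T.b (T.l 1) (T.l 748))) (T.c (T.l 748) (T.l 748)))) (T.b (T.l 1) (T.a (T.c (T.b (T.l 1) (T.l 748)) (T.b (T.l 1) (T.l 204))) (T.l 236)))) (T.c (T.l 204) (T.l 204)))) (T.l 204)) (T.l 204)) (T.b (T.b (T.c (T.b (T.c (T.b (T.a (T.c (T.b (T.l 1) (T.a (T.l 1) (T.l 204))) (T.b (T.l 1) (T.a (T.l 1) (T.l 204)))) (T.a (T.l 748) (T.l 204))) (T.l 204)) (T.b (T.a (T.c (T.b (T.l 1) (T.l 748)) (T.b (T.l 1) (T.l 748))) (T.l 748)) (T.l 204))) (T.l 204)) (T.b (T.c (T.b (T.a (T.c (T.b (T.l 1) (T.l 204)) (T.b (T.l 1) (T.l 204))) (T.l 204)) (T.l 204)) (T.a (T.b (T.c (T.b (T.l 1) (T.l 204)) (T.b (T.l 1) (T.l 204))) (T.l 204)) (T.l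 204))) (T.l 204))) (T.l 204)) (T.l 204))) (T.a (T.b (T.a (T.c (T.l 204) (T.l 204)) (T.l 204)) (T.l 204)) (T.b (T.l 204) (T.l 204))))), by decide +kernel⟩

def A012E_000_1_3_1 :
    ∃ t, chk3 (onCell 0 50331648 0 1073741824 50331648 16777216 (corTK [[⟨0, 0, 1, 25165824⟩, ⟨1, 1, 0, 8388608⟩, ⟨2, 1, 1, 25165824⟩, ⟨0, 0, 0, 83886080⟩, ⟨0, 1, 0, 1040187392⟩, ⟨2, 1, 0, 83886080⟩, ⟨2, 2, 0, 1040187392⟩]] false 3 c0N cA012E gN0q0 gN0q1 gN0q2 gN1q2 true true)) t 1 3 1 = true :=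
  ⟨(T.b (T.b (T.b (T.a (T.a (T.a (T.b (T.b (T.b (T.l 204) (T.l 204)) (T.l 204)) (T.l 204)) (T.a (T.b (T.l 204) (T.l 204)) (T.b (T.l 204) (T.a (T.l 204) (T.l 272))))) (T.a (T.a (T.b (T.a (T.b (T.l 476) (T.l 204)) (T.b (T.l 476) (T.l 204))) (T.a (T.l 0) (T.l 272))) (T.b (T.a (T.b (T.l 460) (T.l 204)) (T.b (T.l 204) (T.l 204))) (T.a (T.l 0) (T.l 0)))) (T.a (T.b (T.b (T.b (T.l 476) (T.l 476)) (T.b (T.l 204) (T.l 204))) (T.b (T.l 256) (T.l 0))) (T.b (T.a (T.l 476) (T.l 476)) (T.b (T.l 0) (T.l 0)))))) (T.a (T.a (T.a (T.b (T.b (T.l 476) (T.l 476)) (T.b (T.l 0) (T.l 0))) (T.b (T.a (T.l 476) (T.b (T.l 204) (T.l 204))) (T.b (T.l 272) (T.l 272)))) (T.b (T.a (T.b (T.b (T.l 204) (T.l 204)) (T.l 476)) (T.b (T.l 476) (T.l 476))) (T.a (T.b (T.l 256) (T.l 0)) (T.b (T.l 0) (T.l 0))))) (T.a (T.b (T.a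 (T.b (T.l 476) (T.l 204)) (T.b (T.l 460) (T.l 204))) (T.a (T.b (T.l 0) (T.l 0)) (T.b (T.l 204) (T.l 0)))) (T.b (T.a (T.b (T.l 204) (T.l 204)) (T.b (T.l 204) (T.l 204))) (T.a (T.b (T.l 204) (T.l 0)) (T.b (T.l 204) (T.l 0))))))) (T.a (T.a (T.a (T.l 0) (T.a (T.l 0) (T.a (T.l 0) (T.b (T.l 0) (T.l 0))))) (T.a (T.a (T.a (T.b (T.l 0) (T.l 0)) (T.b (T.l 0) (T.l 0))) (T.b (T.b (T.l 0) (T.l 0)) (T.b (T.l 0) (T.l 0)))) (T.a (T.b (T.b (T.l 0) (T.l 0)) (T.b (T.l 0) (T.l 0))) (T.b (T.b (T.l 0) (T.l 0)) (T.b (T.l 0) (T.l 0)))))) (T.a (T.a (T.a (T.b (T.b (T.l 256) (T.l 64)) (T.a (T.l 0) (T.l 0))) (T.b (T.b (T.l 0) (T.l 64)) (T.a (T.l 816) (T.l 816)))) (T.a (T.b (T.b (T.l 0) (T.l 0)) (T.b (T.l 880) (T.l 884))) (T.b (T.b (T.l 0) (T.l 0)) (T.b (T.l 816) (T.l 880))))) (T.a (T.b (T.a (T.b (T.l 0) (T.l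 0)) (T.b (T.l 0) (T.l 0))) (T.a (T.b (T.l 816) (T.l 816)) (T.b (T.l 816) (T.l 816)))) (T.b (T.a (T.b (T.l 0) (T.l 0)) (T.b (T.l 0) (T.l 0))) (T.a (T.b (T.l 816) (T.l 816)) (T.b (T.l 816) (T.l 816)))))))) (T.b (T.b (T.a (T.a (T.a (T.l 816) (T.a (T.l 816) (T.a (T.l 0) (T.l 0)))) (T.a (T.a (T.a (T.l 0) (T.l 816)) (T.b (T.l 0) (T.l 0))) (T.a (T.b (T.l 0) (T.l 816)) (T.a (T.l 816) (T.l 884))))) (T.a (T.a (T.a (T.a (T.l 884) (T.l 884)) (T.a (T.l 884) (T.l 884))) (T.a (T.a (T.l 880) (T.l 880)) (T.b (T.l 884) (T.l 884)))) (T.a (T.a (T.b (T.l 880) (T.l 884)) (T.b (T.l 880) (T.l 884))) (T.a (T.b (T.l 880) (T.l 880)) (T.b (T.l 816) (T.l 880)))))) (T.b (T.a (T.a (T.a (T.l 816) (T.a (T.l 816) (T.a (T.l 816) (T.l 816)))) (T.a (T.a (T.b (T.l 64) (T.l 884)) (T.l 880)) (T.a (T.b (T.l 816) (T.l 816))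 (T.b (T.l 884) (T.l 884))))) (T.a (T.a (T.a (T.b (T.l 880) (T.l 880)) (T.b (T.l 880) (T.l 880))) (T.a (T.b (T.l 816) (T.l 816)) (T.l 884))) (T.a (T.a (T.l 884) (T.l 884)) (T.a (T.l 884) (T.l 884))))) (T.b (T.a (T.a (T.a (T.l 816) (T.a (T.l 816) (T.a (T.l 816) (T.l 816)))) (T.a (T.a (T.l 884) (T.l 816)) (T.a (T.l 880) (T.c (T.l 816) (T.l 816))))) (T.a (T.a (T.a (T.l 884) (T.l 880)) (T.a (T.l 880) (T.l 816))) (T.a (T.a (T.l 816) (T.l 816)) (T.a (T.l 816) (T.l 816))))) (T.a (T.a (T.a (T.l 816) (T.a (T.l 816) (T.a (T.l 816) (T.l 816)))) (T.a (T.a (T.c (T.l 816) (T.l 816)) (T.l 816)) (T.a (T.l 816) (T.c (T.l 880) (T.l 816))))) (T.a (T.a (T.a (T.l 884) (T.l 884)) (T.a (T.l 880) (T.l 816))) (T.a (T.a (T.l 816) (T.l 816)) (T.a (T.l 816) (T.l 816)))))))) (T.b (T.b (T.a (T.b (T.b (T.a (T.a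 (T.l 816) (T.a (T.l 816) (T.c (T.l 884) (T.l 820)))) (T.a (T.a (T.l 884) (T.l 816)) (T.a (T.l 816) (T.l 880)))) (T.a (T.a (T.l 816) (T.a (T.l 816) (T.a (T.l 816) (T.l 816)))) (T.a (T.a (T.l 884) (T.l 816)) (T.a (T.l 816) (T.l 884))))) (T.b (T.a (T.a (T.l 816) (T.a (T.l 816) (T.a (T.l 816) (T.l 816)))) (T.a (T.a (T.l 884) (T.l 816)) (T.a (T.l 816) (T.l 884)))) (T.a (T.a (T.l 816) (T.a (T.l 816) (T.a (T.l 816) (T.l 816)))) (T.a (T.a (T.l 884) (T.l 816)) (T.a (T.l 816) (T.l 884)))))) (T.a (T.a (T.a (T.b (T.l 884) (T.l 884)) (T.b (T.l 884) (T.l 884))) (T.a (T.b (T.l 884) (T.l 884)) (T.b (T.l 880) (T.l 884)))) (T.a (T.a (T.l 884) (T.l 884)) (T.a (T.l 884) (T.l 884))))) (T.a (T.b (T.b (T.a (T.a (T.l 816) (T.a (T.l 816) (T.a (T.l 816) (T.l 816)))) (T.a (T.a (T.l 884) (T.l 816)) (T.a (T.l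 816) (T.l 884)))) (T.a (T.a (T.l 816) (T.a (T.l 816) (T.a (T.l 816) (T.l 816)))) (T.a (T.a (T.l 884) (T.l 816)) (T.a (T.l 816) (T.l 884))))) (T.b (T.a (T.a (T.l 816) (T.a (T.l 816) (T.a (T.l 816) (T.l 816)))) (T.a (T.l 2) (T.l 2))) (T.l 2))) (T.b (T.a (T.a (T.a (T.l 884) (T.l 884)) (T.a (T.l 884) (T.l 884))) (T.a (T.a (T.l 884) (T.l 2)) (T.l 2))) (T.l 2)))) (T.l 2)))) (T.l 2)), by decide +kernel⟩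

theorem A012E_000_2_95_1 :
    ∃ t, chk3 (onCell 0 50331648 0 1073741824 50331648 16777216 (corTK [[⟨0, 0, 1, 25165824⟩, ⟨1, 1, 0, 8388608⟩, ⟨2, 1, 1, 25165824⟩, ⟨0, 0, 0, 83886080⟩, ⟨0, 1, 0, 1040187392⟩, ⟨2, 1, 0, 83886080⟩, ⟨2, 2, 0, 1040187392⟩]] false 3 c0N cA012E gN0q0 gN0q1 gN0q2 gN1q2 true true)) t 2 95 1 = true :=
  ex3_a A012E_000_4_95_1 A012E_000_5_95_1
theorem A012E_000_1_95_1 :
    ∃ t, chk3 (onCell 0 50331648 0 1073741824 50331648 16777216 (corTK [[⟨0, 0, 1, 25165824⟩, ⟨1, 1, 0, 8388608⟩, ⟨2, 1, 1, 25165824⟩, ⟨0, 0, 0, 83886080⟩, ⟨0, 1, 0, 1040187392⟩, ⟨2, 1, 0, 83886080⟩, ⟨2, 2, 0, 1040187392⟩]] false 3 c0N cA012E gN0q0 gN0q1 gN0q2 gN1q2 true true)) t 1 95 1 = true :=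
  ex3_a A012E_000_2_95_1 A012E_000_3_95_1
theorem A012E_000_1_47_1 :
    ∃ t, chk3 (onCell 0 50331648 0 1073741824 50331648 16777216 (corTK [[⟨0, 0, 1, 25165824⟩, ⟨1, 1, 0, 8388608⟩, ⟨2, 1, 1, 25165824⟩, ⟨0, 0, 0, 83886080⟩, ⟨0, 1, 0, 1040187392⟩, ⟨2, 1, 0, 83886080⟩, ⟨2, 2, 0, 1040187392⟩]] false 3 c0N cA012E gN0q0 gN0q1 gN0q2 gN1q2 true true)) t 1 47 1 = true :=
  ex3_b A012E_000_1_94_1 A012E_000_1_95_1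
theorem A012E_000_1_23_1 :
    ∃ t, chk3 (onCell 0 50331648 0 1073741824 50331648 16777216 (corTK [[⟨0, 0, 1, 25165824⟩, ⟨1, 1, 0, 8388608⟩, ⟨2, 1, 1, 25165824⟩, ⟨0, 0, 0, 83886080⟩, ⟨0, 1, 0, 1040187392⟩, ⟨2, 1, 0, 83886080⟩, ⟨2, 2, 0, 1040187392⟩]] false 3 c0N cA012E gN0q0 gN0q1 gN0q2 gN1q2 true true)) t 1 23 1 = true :=
  ex3_b A012E_000_1_46_1 A012E_000_1_47_1
theorem A012E_000_1_11_1 :
    ∃ t, chk3 (onCell 0 50331648 0 1073741824 50331648 16777216 (corTK [[⟨0, 0, 1, 25165824⟩, ⟨1, 1, 0, 8388608⟩, ⟨2, 1, 1, 25165824⟩, ⟨0, 0, 0, 83886080⟩, ⟨0, 1, 0, 1040187392⟩, ⟨2, 1, 0, 83886080⟩, ⟨2, 2, 0, 1040187392⟩]] false 3 c0N cA012E gN0q0 gN0q1 gN0q2 gN1q2 true true)) t 1 11 1 = true :=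
  ex3_b A012E_000_1_22_1 A012E_000_1_23_1
theorem A012E_000_1_5_1 :
    ∃ t, chk3 (onCell 0 50331648 0 1073741824 50331648 16777216 (corTK [[⟨0, 0, 1, 25165824⟩, ⟨1, 1, 0, 8388608⟩, ⟨2, 1, 1, 25165824⟩, ⟨0, 0, 0, 83886080⟩, ⟨0, 1, 0, 1040187392⟩, ⟨2, 1, 0, 83886080⟩, ⟨2, 2, 0, 1040187392⟩]] false 3 c0N cA012E gN0q0 gN0q1 gN0q2 gN1q2 true true)) t 1 5 1 = true :=
  ex3_b A012E_000_1_10_1 A012E_000_1_11_1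
theorem A012E_000_1_2_1 :
    ∃ t, chk3 (onCell 0 50331648 0 1073741824 50331648 16777216 (corTK [[⟨0, 0, 1, 25165824⟩, ⟨1, 1, 0, 8388608⟩, ⟨2, 1, 1, 25165824⟩, ⟨0, 0, 0, 83886080⟩, ⟨0, 1, 0, 1040187392⟩, ⟨2, 1, 0, 83886080⟩, ⟨2, 2, 0, 1040187392⟩]] false 3 c0N cA012E gN0q0 gN0q1 gN0q2 gN1q2 true true)) t 1 2 1 = true :=
  ex3_b A012E_000_1_4_1 A012E_000_1_5_1
theorem A012E_000 :
    ∃ t, chk3 (onCell 0 50331648 0 1073741824 50331648 16777216 (corTK [[⟨0, 0, 1, 25165824⟩, ⟨1, 1, 0, 8388608⟩, ⟨2, 1, 1, 25165824⟩, ⟨0, 0, 0, 83886080⟩, ⟨0, 1, 0, 1040187392⟩, ⟨2, 1, 0, 83886080⟩, ⟨2, 2, 0, 1040187392⟩]] false 3 c0N cA012E gN0q0 gN0q1 gN0q2 gN1q2 true true)) t 1 1 1 = true :=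
  ex3_b A012E_000_1_2_1 A012E_000_1_3_1

end Pool.Agent.Strip051.G.I3_64_1_16.Tab.CN
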