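import Pool.Agent.Strip051.G.I3_64_1_16.Gn
import Pool.Agent.Strip051.PB.Corns
import Pool.Agent.Strip051.PB.CornK

/-! # Certificates of the aligned corners (generated) -/

set_option linter.all false

namespace Pool.Agent.Strip051.G.I3_64_1_16.Tab.CN

open Pool.Agent.Strip051.PB

def A012E_001_1_2_1 :
    ∃ t, chk3 (onCell 0 50331648 0 1073741824 50331648 16777216 (corTK [[⟨0, 0, 1, 25165824⟩, ⟨1, 1, 0, 8388608⟩, ⟨2, 1, 1, 25165824⟩, ⟨0, 0, 0, 83886080⟩, ⟨0, 1, 0, 1040187392⟩, ⟨2, 1, 0, 83886080⟩, ⟨2, 2, 0, 1040187392⟩]] false 3 c0N cA012E gN0q0 gN0q1 gN1q2 gN2q2 true true)) t 1 2 1 = true :=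
  ⟨(T.l 1), by decide +kernel⟩

def A012E_001_1_6_1 :
    ∃ t, chk3 (onCell 0 50331648 0 1073741824 50331648 16777216 (corTK [[⟨0, 0, 1, 25165824⟩, ⟨1, 1, 0, 8388608⟩, ⟨2, 1, 1, 25165824⟩, ⟨0, 0, 0, 83886080⟩, ⟨0, 1, 0, 1040187392⟩, ⟨2, 1, 0, 83886080⟩, ⟨2, 2, 0, 1040187392⟩]] false 3 c0N cA012E gN0q0 gN0q1 gN1q2 gN2q2 true true)) t 1 6 1 = true :=
  ⟨(T.b (T.l 1) (T.b (T.l 1) (T.b (T.b (T.a (T.l 1) (T.a (T.l 1) (T.a (T.l 880) (T.b (T.l 1) (T.l 884))))) (T.a (T.a (T.l 816) (T.a (T.l 816) (T.c (T.l 884) (T.l 884)))) (T.a (T.a (T.b (T.l 884) (T.l 884)) (T.l 884)) (T.a (T.l 884) (T.b (T.l 884) (T.l 884)))))) (T.b (T.a (T.a (T.l 816) (T.a (T.l 816) (T.b (T.l 884) (T.l 884)))) (T.a (T.a (T.c (T.l 884) (T.l 884)) (T.l 884)) (T.a (T.l 884) (T.a (T.l 884) (T.l 880))))) (T.a (T.a (T.l 816) (T.a (T.l 816) (T.c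 (T.l 884) (T.l 884)))) (T.a (T.a (T.c (T.l 884) (T.l 884)) (T.l 884)) (T.a (T.l 884) (T.a (T.l 884) (T.l 884))))))))), by decide +kernel⟩

def A012E_001_1_14_1 :
    ∃ t, chk3 (onCell 0 50331648 0 1073741824 50331648 16777216 (corTK [[⟨0, 0, 1, 25165824⟩, ⟨1, 1, 0, 8388608⟩, ⟨2, 1, 1, 25165824⟩, ⟨0, 0, 0, 83886080⟩, ⟨0, 1, 0, 1040187392⟩, ⟨2, 1, 0, 83886080⟩, ⟨2, 2, 0, 1040187392⟩]] false 3 c0N cA012E gN0q0 gN0q1 gN1q2 gN2q2 true true)) t 1 14 1 = true :=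
  ⟨(T.b (T.b (T.b (T.a (T.a (T.l 816) (T.a (T.l 816) (T.a (T.l 816) (T.l 816)))) (T.a (T.a (T.a (T.l 816) (T.l 816)) (T.b (T.l 884) (T.l 884))) (T.a (T.a (T.l 816) (T.b (T.l 816) (T.l 884))) (T.a (T.l 884) (T.l 884))))) (T.a (T.a (T.l 816) (T.a (T.l 816) (T.a (T.l 816) (T.l 816)))) (T.a (T.a (T.a (T.l 816) (T.l 816)) (T.b (T.l 884) (T.l 884))) (T.a (T.a (T.l 816) (T.b (T.l 884) (T.l 884))) (T.a (T.l 884) (T.l 884)))))) (T.b (T.a (T.a (T.l 816) (T.a (T.l 880) (T.a (T.l 816) (T.l 816)))) (T.a (T.a (T.a (T.l 816) (T.l 816)) (T.c (T.l 884) (T.l 884))) (T.a (T.a (T.l 816) (T.a (T.l 884) (T.l 884))) (T.a (T.b (T.l 884) (T.l 884)) (T.b (T.l 884) (T.l 884)))))) (T.a (T.a (T.l 816) (T.a (T.l 880) (T.a (T.l 816) (T.l 816)))) (T.a (T.a (T.a (T.l 816) (T.l 816)) (T.a (T.l 816) (T.l 880))) (T.a (T.a (T.l 880) (T.a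 (T.l 884) (T.l 884))) (T.a (T.b (T.l 884) (T.l 884)) (T.b (T.l 884) (T.l 884)))))))) (T.b (T.b (T.b (T.a (T.a (T.l 816) (T.a (T.l 880) (T.a (T.l 816) (T.l 816)))) (T.a (T.a (T.a (T.l 816) (T.l 816)) (T.c (T.l 884) (T.l 884))) (T.a (T.a (T.l 816) (T.a (T.l 880) (T.l 880))) (T.a (T.l 884) (T.l 884))))) (T.a (T.a (T.l 816) (T.a (T.l 880) (T.a (T.l 816) (T.l 816)))) (T.a (T.a (T.a (T.l 816) (T.l 816)) (T.c (T.l 884) (T.l 884))) (T.a (T.a (T.a (T.l 816) (T.l 884)) (T.a (T.l 880) (T.l 880))) (T.a (T.c (T.l 884) (T.l 884)) (T.l 884)))))) (T.b (T.b (T.a (T.a (T.l 816) (T.a (T.l 880) (T.a (T.l 816) (T.l 816)))) (T.a (T.a (T.a (T.l 816) (T.l 816)) (T.c (T.l 884) (T.l 884))) (T.a (T.a (T.a (T.l 816) (T.l 880)) (T.c (T.l 1024) (T.l 884))) (T.a (T.l 884) (T.l 884))))) (T.a (T.a (T.l 816) (T.a (T.l 880) (T.a (T.l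 816) (T.l 816)))) (T.a (T.a (T.a (T.l 816) (T.l 816)) (T.c (T.l 884) (T.l 884))) (T.a (T.a (T.a (T.l 816) (T.l 880)) (T.c (T.l 1024) (T.l 884))) (T.a (T.l 884) (T.l 884)))))) (T.b (T.a (T.a (T.l 816) (T.a (T.l 880) (T.a (T.l 816) (T.l 816)))) (T.a (T.a (T.a (T.l 816) (T.l 816)) (T.c (T.l 884) (T.l 884))) (T.a (T.a (T.a (T.l 816) (T.l 880)) (T.c (T.l 1024) (T.l 884))) (T.a (T.l 884) (T.l 884))))) (T.a (T.a (T.l 816) (T.a (T.l 880) (T.a (T.l 816) (T.l 816)))) (T.a (T.a (T.a (T.l 816) (T.l 816)) (T.c (T.l 884) (T.l 884))) (T.a (T.a (T.a (T.l 816) (T.l 880)) (T.c (T.l 1024) (T.l 884))) (T.a (T.c (T.l 1024) (T.l 884)) (T.l 884)))))))) (T.b (T.b (T.b (T.a (T.a (T.l 816) (T.a (T.l 884) (T.a (T.l 816) (T.l 816)))) (T.a (T.a (T.a (T.l 816) (T.l 816)) (T.c (T.l 884) (T.l 884))) (T.a (T.a (T.a (T.l 816) (T.l 880))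 (T.c (T.l 1024) (T.l 884))) (T.a (T.c (T.l 1024) (T.l 884)) (T.l 884))))) (T.a (T.a (T.l 816) (T.a (T.l 884) (T.a (T.l 816) (T.l 816)))) (T.a (T.a (T.a (T.l 816) (T.l 816)) (T.a (T.l 816) (T.l 816))) (T.a (T.a (T.a (T.l 816) (T.l 880)) (T.c (T.l 1024) (T.l 884))) (T.a (T.c (T.l 1024) (T.l 884)) (T.l 884)))))) (T.b (T.a (T.a (T.l 816) (T.a (T.a (T.l 816) (T.l 880)) (T.a (T.l 816) (T.l 816)))) (T.a (T.a (T.a (T.l 816) (T.l 880)) (T.a (T.l 880) (T.l 816))) (T.a (T.a (T.a (T.l 884) (T.l 884)) (T.a (T.l 880) (T.l 880))) (T.a (T.c (T.l 1024) (T.l 884)) (T.l 884))))) (T.a (T.a (T.l 816) (T.a (T.a (T.l 816) (T.l 880)) (T.a (T.l 880) (T.l 816)))) (T.a (T.a (T.a (T.l 816) (T.l 880)) (T.a (T.l 880) (T.l 880))) (T.a (T.a (T.a (T.l 884) (T.l 880)) (T.a (T.l 880) (T.l 880))) (T.c (T.l 1024) (T.a (T.l 884) (T.l 884))))))))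 (T.b (T.b (T.a (T.a (T.l 816) (T.a (T.a (T.l 816) (T.l 884)) (T.a (T.l 880) (T.l 816)))) (T.a (T.a (T.a (T.l 816) (T.l 880)) (T.a (T.l 880) (T.l 880))) (T.a (T.a (T.a (T.l 884) (T.l 884)) (T.a (T.l 884) (T.l 880))) (T.c (T.l 1024) (T.a (T.l 884) (T.l 884)))))) (T.a (T.a (T.l 816) (T.a (T.a (T.l 816) (T.l 884)) (T.a (T.l 880) (T.l 816)))) (T.a (T.a (T.a (T.l 816) (T.l 880)) (T.a (T.l 880) (T.l 880))) (T.a (T.a (T.a (T.l 884) (T.l 884)) (T.a (T.l 884) (T.l 884))) (T.c (T.l 1024) (T.a (T.l 884) (T.l 884))))))) (T.b (T.a (T.a (T.l 816) (T.a (T.a (T.l 816) (T.l 884)) (T.a (T.l 880) (T.l 880)))) (T.a (T.a (T.a (T.l 816) (T.l 880)) (T.a (T.l 880) (T.l 880))) (T.a (T.a (T.a (T.l 884) (T.l 884)) (T.a (T.l 884) (T.l 884))) (T.c (T.l 1024) (T.a (T.c (T.l 1024) (T.l 884)) (T.l 884)))))) (T.a (T.a (T.l 816) (T.a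 (T.a (T.l 816) (T.c (T.l 880) (T.l 816))) (T.a (T.l 880) (T.l 880)))) (T.a (T.a (T.a (T.l 880) (T.l 880)) (T.a (T.l 880) (T.l 880))) (T.a (T.a (T.a (T.l 884) (T.l 884)) (T.a (T.l 884) (T.l 884))) (T.c (T.l 1024) (T.a (T.c (T.l 1024) (T.l 884)) (T.l 884))))))))))), by decide +kernel⟩

def A012E_001_1_30_1 :
    ∃ t, chk3 (onCell 0 50331648 0 1073741824 50331648 16777216 (corTK [[⟨0, 0, 1, 25165824⟩, ⟨1, 1, 0, 8388608⟩, ⟨2, 1, 1, 25165824⟩, ⟨0, 0, 0, 83886080⟩, ⟨0, 1, 0, 1040187392⟩, ⟨2, 1, 0, 83886080⟩, ⟨2, 2, 0, 1040187392⟩]] false 3 c0N cA012E gN0q0 gN0q1 gN1q2 gN2q2 true true)) t 1 30 1 = true :=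
  ⟨(T.b (T.b (T.b (T.b (T.a (T.a (T.l 816) (T.a (T.a (T.l 816) (T.c (T.l 880) (T.l 816))) (T.a (T.l 880) (T.l 880)))) (T.a (T.a (T.a (T.l 880) (T.l 884)) (T.a (T.l 884) (T.l 880))) (T.a (T.a (T.a (T.l 884) (T.l 884)) (T.a (T.l 884) (T.l 884))) (T.c (T.l 1024) (T.a (T.c (T.l 1024) (T.l 884)) (T.l 884)))))) (T.a (T.a (T.l 816) (T.a (T.a (T.l 816) (T.c (T.l 880) (T.l 816))) (T.a (T.l 884) (T.l 880)))) (T.a (T.a (T.a (T.l 880) (T.l 884)) (T.a (T.l 884) (T.l 884))) (T.a (T.a (T.a (T.l 884) (T.l 884)) (T.a (T.l 884) (T.l 884))) (T.c (T.l 1024) (T.c (T.l 1024) (T.a (T.a (T.l 816) (T.l 816)) (T.l 884)))))))) (T.b (T.a (T.a (T.l 816) (T.a (T.a (T.l 816) (T.c (T.l 880) (T.l 816))) (T.a (T.l 884) (T.l 880)))) (T.a (T.a (T.a (T.l 880) (T.l 884)) (T.a (T.l 884) (T.l 884))) (T.a (T.a (T.a (T.l 884) (T.l 884)) (T.a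 (T.l 884) (T.l 884))) (T.c (T.l 1024) (T.c (T.l 1024) (T.a (T.a (T.l 816) (T.l 880)) (T.l 884))))))) (T.a (T.a (T.l 816) (T.a (T.a (T.l 816) (T.c (T.l 880) (T.l 880))) (T.a (T.l 884) (T.l 884)))) (T.a (T.a (T.a (T.l 880) (T.l 884)) (T.a (T.l 884) (T.a (T.l 816) (T.l 884)))) (T.a (T.a (T.a (T.l 884) (T.l 884)) (T.a (T.l 884) (T.l 884))) (T.c (T.l 1024) (T.c (T.l 1024) (T.a (T.a (T.l 880) (T.l 880)) (T.l 884))))))))) (T.b (T.b (T.a (T.a (T.l 816) (T.a (T.a (T.l 816) (T.c (T.l 880) (T.l 880))) (T.a (T.l 884) (T.l 884)))) (T.a (T.a (T.a (T.l 884) (T.l 884)) (T.a (T.l 884) (T.a (T.l 816) (T.l 884)))) (T.a (T.c (T.l 1024) (T.a (T.a (T.l 884) (T.l 884)) (T.a (T.l 884) (T.l 884)))) (T.a (T.a (T.l 884) (T.l 884)) (T.l 1024))))) (T.a (T.a (T.l 816) (T.a (T.a (T.l 816) (T.c (T.l 884) (T.l 880))) (T.a (T.c (T.l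 880) (T.l 816)) (T.l 884)))) (T.a (T.a (T.a (T.l 884) (T.l 884)) (T.a (T.l 884) (T.a (T.l 816) (T.l 884)))) (T.a (T.c (T.l 1024) (T.a (T.a (T.l 884) (T.l 884)) (T.a (T.l 884) (T.l 884)))) (T.a (T.a (T.l 884) (T.l 884)) (T.l 1024)))))) (T.b (T.a (T.a (T.l 816) (T.a (T.a (T.l 816) (T.c (T.l 884) (T.l 880))) (T.a (T.c (T.l 880) (T.l 816)) (T.l 884)))) (T.a (T.a (T.a (T.l 884) (T.l 884)) (T.a (T.l 884) (T.a (T.l 816) (T.c (T.l 884) (T.l 884))))) (T.a (T.c (T.l 1024) (T.a (T.a (T.l 884) (T.l 884)) (T.a (T.l 884) (T.l 884)))) (T.a (T.a (T.l 884) (T.l 884)) (T.l 1024))))) (T.a (T.a (T.l 816) (T.a (T.a (T.l 816) (T.a (T.l 816) (T.l 816))) (T.a (T.c (T.l 880) (T.l 816)) (T.l 884)))) (T.a (T.a (T.a (T.l 884) (T.l 884)) (T.a (T.l 884) (T.a (T.l 816) (T.c (T.l 884) (T.l 884))))) (T.a (T.c (T.l 1024) (T.a (T.a (T.l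 884) (T.l 884)) (T.a (T.l 884) (T.l 884)))) (T.a (T.a (T.l 884) (T.l 884)) (T.l 1024)))))))) (T.b (T.b (T.b (T.a (T.a (T.l 816) (T.a (T.a (T.l 816) (T.a (T.l 816) (T.l 816))) (T.a (T.c (T.l 880) (T.l 880)) (T.l 884)))) (T.a (T.a (T.a (T.l 884) (T.l 884)) (T.a (T.l 884) (T.a (T.l 816) (T.c (T.l 884) (T.l 884))))) (T.a (T.c (T.l 1024) (T.a (T.a (T.l 884) (T.l 884)) (T.a (T.l 884) (T.l 884)))) (T.a (T.a (T.l 884) (T.l 884)) (T.l 1024))))) (T.a (T.a (T.l 816) (T.a (T.a (T.l 816) (T.a (T.l 816) (T.l 816))) (T.a (T.c (T.l 884) (T.l 880)) (T.c (T.l 880) (T.l 880))))) (T.a (T.a (T.a (T.l 884) (T.l 884)) (T.a (T.l 884) (T.a (T.l 880) (T.c (T.l 884) (T.l 884))))) (T.a (T.c (T.l 1024) (T.a (T.a (T.l 884) (T.l 884)) (T.a (T.l 884) (T.l 884)))) (T.a (T.a (T.l 884) (T.l 884)) (T.l 1024)))))) (T.b (T.a (T.a (T.l 816)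 (T.a (T.a (T.l 816) (T.a (T.l 816) (T.l 816))) (T.a (T.c (T.l 884) (T.l 880)) (T.c (T.l 884) (T.l 880))))) (T.a (T.a (T.a (T.l 884) (T.c (T.l 884) (T.l 880))) (T.a (T.l 884) (T.a (T.l 880) (T.a (T.l 884) (T.l 884))))) (T.a (T.c (T.l 1024) (T.a (T.a (T.l 884) (T.l 884)) (T.a (T.l 884) (T.l 884)))) (T.a (T.a (T.l 884) (T.l 884)) (T.l 1024))))) (T.a (T.a (T.l 816) (T.a (T.a (T.l 816) (T.a (T.l 816) (T.l 816))) (T.a (T.c (T.l 884) (T.l 884)) (T.c (T.l 884) (T.l 880))))) (T.a (T.a (T.a (T.l 884) (T.c (T.l 884) (T.l 884))) (T.a (T.l 884) (T.a (T.l 880) (T.a (T.l 884) (T.l 884))))) (T.a (T.c (T.l 1024) (T.a (T.a (T.l 884) (T.l 884)) (T.a (T.l 884) (T.l 884)))) (T.a (T.a (T.l 884) (T.l 884)) (T.l 1024))))))) (T.b (T.b (T.a (T.a (T.l 816) (T.a (T.a (T.l 816) (T.a (T.l 816) (T.l 816))) (T.a (T.c (T.l 884) (T.l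 884)) (T.c (T.l 884) (T.l 880))))) (T.a (T.a (T.a (T.c (T.l 884) (T.l 880)) (T.c (T.l 884) (T.l 884))) (T.a (T.l 884) (T.a (T.l 880) (T.a (T.l 884) (T.l 884))))) (T.a (T.c (T.l 1024) (T.a (T.a (T.l 884) (T.l 884)) (T.a (T.l 884) (T.l 884)))) (T.a (T.a (T.l 884) (T.l 1024)) (T.l 1024))))) (T.a (T.a (T.l 816) (T.a (T.a (T.l 816) (T.a (T.l 816) (T.l 816))) (T.a (T.a (T.l 816) (T.l 816)) (T.c (T.l 884) (T.l 884))))) (T.a (T.a (T.a (T.c (T.l 884) (T.l 880)) (T.c (T.l 884) (T.l 884))) (T.a (T.c (T.l 884) (T.l 884)) (T.a (T.a (T.l 816) (T.l 884)) (T.a (T.l 884) (T.l 884))))) (T.a (T.c (T.l 1024) (T.a (T.a (T.l 884) (T.l 884)) (T.a (T.l 884) (T.l 884)))) (T.a (T.a (T.l 884) (T.l 1024)) (T.l 1024)))))) (T.b (T.a (T.a (T.l 816) (T.a (T.a (T.l 816) (T.a (T.l 816) (T.l 816))) (T.a (T.a (T.l 816) (T.l 816)) (T.c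 (T.l 884) (T.l 884))))) (T.a (T.a (T.a (T.c (T.l 884) (T.l 884)) (T.c (T.l 884) (T.l 884))) (T.a (T.c (T.l 884) (T.l 884)) (T.a (T.a (T.l 816) (T.l 884)) (T.a (T.l 884) (T.l 884))))) (T.a (T.c (T.l 1024) (T.a (T.a (T.l 884) (T.l 884)) (T.a (T.l 884) (T.l 884)))) (T.a (T.a (T.l 884) (T.l 1024)) (T.l 1024))))) (T.a (T.a (T.l 816) (T.a (T.a (T.l 816) (T.a (T.l 816) (T.l 816))) (T.a (T.a (T.l 816) (T.l 816)) (T.c (T.l 884) (T.l 884))))) (T.a (T.a (T.a (T.c (T.l 884) (T.l 884)) (T.c (T.l 884) (T.l 884))) (T.a (T.c (T.l 884) (T.l 884)) (T.a (T.a (T.l 880) (T.l 884)) (T.a (T.l 884) (T.l 884))))) (T.a (T.c (T.l 1024) (T.a (T.a (T.c (T.l 884) (T.l 884)) (T.l 884)) (T.a (T.l 884) (T.l 884)))) (T.a (T.a (T.c (T.l 1024) (T.l 884)) (T.l 1024)) (T.l 1024))))))))), by decide +kernel⟩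

def A012E_001_1_62_1 :
    ∃ t, chk3 (onCell 0 50331648 0 1073741824 50331648 16777216 (corTK [[⟨0, 0, 1, 25165824⟩, ⟨1, 1, 0, 8388608⟩, ⟨2, 1, 1, 25165824⟩, ⟨0, 0, 0, 83886080⟩, ⟨0, 1, 0, 1040187392⟩, ⟨2, 1, 0, 83886080⟩, ⟨2, 2, 0, 1040187392⟩]] false 3 c0N cA012E gN0q0 gN0q1 gN1q2 gN2q2 true true)) t 1 62 1 = true :=
  ⟨(T.b (T.b (T.b (T.a (T.a (T.l 816) (T.a (T.a (T.l 816) (T.a (T.l 816) (T.l 816))) (T.a (T.a (T.l 816) (T.l 816)) (T.a (T.l 816) (T.l 816))))) (T.a (T.a (T.a (T.c (T.l 884) (T.l 884)) (T.c (T.l 884) (T.l 884))) (T.a (T.c (T.l 884) (T.l 884)) (T.a (T.a (T.l 880) (T.l 884)) (T.a (T.l 884) (T.l 884))))) (T.a (T.c (T.l 1024) (T.a (T.a (T.c (T.l 884) (T.l 884)) (T.c (T.l 884) (T.l 884))) (T.a (T.l 884) (T.l 884)))) (T.a (T.a (T.c (T.l 1024) (T.l 884)) (T.l 1024)) (T.l 1024))))) (T.a (T.a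 (T.l 816) (T.a (T.a (T.l 816) (T.a (T.l 880) (T.l 816))) (T.a (T.a (T.l 816) (T.l 816)) (T.a (T.l 816) (T.l 880))))) (T.a (T.a (T.a (T.c (T.l 884) (T.l 884)) (T.a (T.l 884) (T.l 884))) (T.a (T.c (T.l 884) (T.l 884)) (T.a (T.a (T.l 880) (T.l 884)) (T.a (T.l 884) (T.l 884))))) (T.a (T.c (T.l 1024) (T.a (T.a (T.a (T.l 884) (T.l 884)) (T.c (T.l 884) (T.l 884))) (T.a (T.c (T.l 1024) (T.l 884)) (T.l 884)))) (T.a (T.a (T.c (T.l 1024) (T.l 884)) (T.l 1024)) (T.l 1024)))))) (T.b (T.a (T.a (T.l 816) (T.a (T.a (T.l 816) (T.a (T.l 880) (T.l 880))) (T.a (T.a (T.l 816) (T.l 880)) (T.a (T.l 880) (T.l 880))))) (T.a (T.a (T.a (T.a (T.l 880) (T.l 880)) (T.a (T.l 884) (T.l 884))) (T.a (T.a (T.l 884) (T.l 884)) (T.a (T.a (T.l 884) (T.l 884)) (T.a (T.l 884) (T.l 884))))) (T.a (T.c (T.l 1024) (T.a (T.a (T.a (T.l 884) (T.l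 884)) (T.b (T.l 884) (T.l 884))) (T.c (T.l 1024) (T.a (T.l 884) (T.l 884))))) (T.a (T.a (T.c (T.l 1024) (T.l 884)) (T.l 1024)) (T.l 1024))))) (T.a (T.a (T.l 816) (T.a (T.a (T.l 816) (T.a (T.l 880) (T.l 880))) (T.a (T.a (T.l 880) (T.l 880)) (T.a (T.l 880) (T.l 880))))) (T.a (T.a (T.a (T.a (T.l 880) (T.l 880)) (T.a (T.l 884) (T.l 884))) (T.a (T.a (T.l 884) (T.l 884)) (T.a (T.a (T.l 884) (T.l 884)) (T.a (T.l 884) (T.l 884))))) (T.a (T.c (T.l 1024) (T.a (T.a (T.a (T.l 884) (T.l 884)) (T.a (T.l 884) (T.l 884))) (T.c (T.l 1024) (T.a (T.b (T.l 884) (T.l 884)) (T.l 884))))) (T.a (T.a (T.a (T.l 884) (T.l 1024)) (T.l 1024)) (T.l 1024))))))) (T.b (T.b (T.a (T.a (T.l 816) (T.a (T.a (T.l 816) (T.a (T.l 880) (T.l 880))) (T.a (T.a (T.l 880) (T.l 880)) (T.a (T.l 880) (T.l 880))))) (T.a (T.a (T.a (T.a (T.l 880) (T.l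 884)) (T.a (T.l 884) (T.l 884))) (T.a (T.a (T.l 884) (T.l 884)) (T.a (T.a (T.c (T.l 884) (T.l 884)) (T.l 884)) (T.a (T.l 884) (T.l 884))))) (T.a (T.c (T.l 1024) (T.a (T.a (T.a (T.l 884) (T.l 884)) (T.a (T.l 884) (T.l 884))) (T.c (T.l 1024) (T.a (T.b (T.l 884) (T.l 884)) (T.b (T.l 884) (T.l 884)))))) (T.l 1024)))) (T.a (T.a (T.l 816) (T.a (T.a (T.l 816) (T.a (T.l 880) (T.l 880))) (T.a (T.a (T.l 880) (T.l 880)) (T.a (T.l 880) (T.l 880))))) (T.a (T.a (T.a (T.a (T.l 884) (T.l 884)) (T.a (T.l 884) (T.l 884))) (T.a (T.a (T.l 884) (T.l 884)) (T.a (T.a (T.c (T.l 884) (T.l 884)) (T.l 884)) (T.a (T.l 884) (T.l 884))))) (T.a (T.c (T.l 1024) (T.a (T.a (T.a (T.l 884) (T.l 884)) (T.a (T.l 884) (T.l 884))) (T.c (T.l 1024) (T.a (T.a (T.l 884) (T.l 884)) (T.b (T.l 884) (T.l 884)))))) (T.l 1024))))) (T.b (T.a (T.a (T.l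 816) (T.a (T.a (T.l 816) (T.a (T.c (T.l 816) (T.l 816)) (T.l 880))) (T.a (T.a (T.l 880) (T.l 880)) (T.a (T.l 880) (T.l 884))))) (T.a (T.a (T.a (T.a (T.l 884) (T.l 884)) (T.a (T.l 884) (T.l 884))) (T.a (T.a (T.l 884) (T.l 884)) (T.a (T.a (T.c (T.l 884) (T.l 884)) (T.c (T.l 1024) (T.l 884))) (T.c (T.l 1024) (T.a (T.l 884) (T.l 884)))))) (T.a (T.c (T.l 1024) (T.a (T.a (T.a (T.l 884) (T.l 884)) (T.a (T.l 884) (T.l 884))) (T.c (T.l 1024) (T.a (T.a (T.l 884) (T.l 884)) (T.a (T.l 884) (T.l 884)))))) (T.l 1024)))) (T.a (T.a (T.l 816) (T.a (T.a (T.l 816) (T.a (T.c (T.l 816) (T.l 816)) (T.c (T.l 816) (T.l 816)))) (T.a (T.a (T.l 880) (T.l 884)) (T.a (T.l 884) (T.l 884))))) (T.c (T.a (T.a (T.a (T.a (T.l 880) (T.l 880)) (T.a (T.l 884) (T.l 884))) (T.a (T.a (T.l 884) (T.l 884)) (T.a (T.a (T.c (T.l 884) (T.l 884))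 (T.l 1024)) (T.l 1024)))) (T.l 1024)) (T.a (T.a (T.a (T.a (T.l 816) (T.l 816)) (T.a (T.l 880) (T.l 880))) (T.a (T.a (T.l 884) (T.l 884)) (T.a (T.a (T.l 884) (T.l 884)) (T.a (T.l 884) (T.l 884))))) (T.a (T.a (T.a (T.a (T.l 884) (T.l 884)) (T.a (T.l 884) (T.l 884))) (T.c (T.l 1024) (T.a (T.a (T.l 884) (T.l 884)) (T.a (T.l 884) (T.l 884))))) (T.l 1024)))))))), by decide +kernel⟩

def A012E_001_1_126_1 :
    ∃ t, chk3 (onCell 0 50331648 0 1073741824 50331648 16777216 (corTK [[⟨0, 0, 1, 25165824⟩, ⟨1, 1, 0, 8388608⟩, ⟨2, 1, 1, 25165824⟩, ⟨0, 0, 0, 83886080⟩, ⟨0, 1, 0, 1040187392⟩, ⟨2, 1, 0, 83886080⟩, ⟨2, 2, 0, 1040187392⟩]] false 3 c0N cA012E gN0q0 gN0q1 gN1q2 gN2q2 true true)) t 1 126 1 = true :=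
  ⟨(T.b (T.b (T.a (T.a (T.l 816) (T.a (T.a (T.l 816) (T.a (T.c (T.l 880) (T.l 816)) (T.c (T.l 816) (T.l 816)))) (T.a (T.a (T.c (T.l 816) (T.l 816)) (T.l 884)) (T.a (T.l 884) (T.l 884))))) (T.c (T.a (T.a (T.a (T.a (T.l 880) (T.l 884)) (T.a (T.l 884) (T.l 884))) (T.a (T.a (T.l 884) (T.a (T.l 884) (T.a (T.l 884) (T.l 884)))) (T.a (T.a (T.b (T.l 884) (T.l 1024)) (T.l 1024)) (T.l 1024)))) (T.l 1024)) (T.b (T.a (T.a (T.a (T.a (T.l 816) (T.l 816)) (T.a (T.l 880) (T.l 880))) (T.a (T.a (T.l 884) (T.a (T.l 880) (T.l 884))) (T.a (T.a (T.l 884) (T.l 884)) (T.a (T.l 884) (T.l 884))))) (T.a (T.a (T.a (T.a (T.l 884) (T.l 884)) (T.a (T.l 884) (T.l 884))) (T.c (T.l 1024) (T.a (T.a (T.l 884) (T.l 884)) (T.a (T.l 884) (T.l 884))))) (T.l 1024))) (T.a (T.a (T.a (T.a (T.l 816) (T.l 816)) (T.a (T.l 880) (T.l 884))) (T.a (T.a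 (T.l 884) (T.a (T.l 880) (T.l 884))) (T.a (T.a (T.l 884) (T.l 884)) (T.a (T.l 884) (T.l 884))))) (T.a (T.a (T.a (T.a (T.l 884) (T.l 884)) (T.a (T.l 884) (T.l 884))) (T.c (T.l 1024) (T.a (T.a (T.l 884) (T.l 884)) (T.a (T.l 884) (T.l 1024))))) (T.l 1024)))))) (T.a (T.a (T.l 816) (T.a (T.a (T.l 880) (T.a (T.c (T.l 880) (T.l 816)) (T.c (T.l 880) (T.l 816)))) (T.a (T.a (T.c (T.l 880) (T.l 816)) (T.c (T.l 880) (T.l 816))) (T.a (T.c (T.l 880) (T.l 816)) (T.c (T.l 880) (T.l 816)))))) (T.c (T.a (T.a (T.a (T.a (T.l 884) (T.l 884)) (T.a (T.l 884) (T.l 884))) (T.a (T.a (T.l 884) (T.a (T.l 884) (T.a (T.l 884) (T.l 884)))) (T.l 1024))) (T.l 1024)) (T.b (T.a (T.a (T.a (T.a (T.l 816) (T.l 816)) (T.a (T.l 880) (T.l 884))) (T.a (T.a (T.l 884) (T.a (T.l 880) (T.l 884))) (T.a (T.a (T.l 884) (T.l 884)) (T.a (T.l 884) (T.l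 884))))) (T.a (T.a (T.a (T.a (T.l 884) (T.l 884)) (T.a (T.l 884) (T.l 884))) (T.c (T.l 1024) (T.a (T.a (T.l 884) (T.l 884)) (T.a (T.l 884) (T.l 1024))))) (T.l 1024))) (T.a (T.a (T.a (T.a (T.l 816) (T.l 880)) (T.a (T.l 884) (T.l 884))) (T.a (T.a (T.l 884) (T.a (T.l 884) (T.c (T.l 884) (T.l 884)))) (T.a (T.a (T.l 884) (T.l 884)) (T.a (T.l 884) (T.l 884))))) (T.a (T.a (T.a (T.a (T.l 884) (T.l 884)) (T.a (T.l 884) (T.l 884))) (T.c (T.l 1024) (T.c (T.l 1024) (T.a (T.a (T.l 884) (T.l 884)) (T.a (T.l 884) (T.l 1024)))))) (T.l 1024))))))) (T.b (T.a (T.a (T.l 816) (T.a (T.a (T.l 880) (T.a (T.c (T.l 880) (T.l 816)) (T.c (T.l 880) (T.l 816)))) (T.a (T.a (T.c (T.l 880) (T.l 816)) (T.c (T.l 880) (T.l 816))) (T.a (T.c (T.l 880) (T.l 816)) (T.c (T.l 884) (T.l 816)))))) (T.c (T.a (T.a (T.a (T.a (T.l 884) (T.l 884))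 (T.a (T.l 884) (T.l 884))) (T.a (T.a (T.l 884) (T.a (T.l 884) (T.a (T.l 884) (T.l 884)))) (T.l 1024))) (T.l 1024)) (T.b (T.a (T.a (T.a (T.a (T.l 816) (T.l 880)) (T.a (T.l 884) (T.l 884))) (T.a (T.a (T.l 884) (T.a (T.l 884) (T.c (T.l 884) (T.l 884)))) (T.a (T.a (T.l 884) (T.l 884)) (T.a (T.l 884) (T.l 884))))) (T.a (T.a (T.a (T.a (T.l 884) (T.l 884)) (T.a (T.l 884) (T.l 884))) (T.c (T.l 1024) (T.c (T.l 1024) (T.a (T.a (T.l 884) (T.l 884)) (T.a (T.l 884) (T.l 1024)))))) (T.l 1024))) (T.a (T.a (T.a (T.a (T.l 880) (T.l 880)) (T.a (T.l 884) (T.l 884))) (T.a (T.a (T.l 884) (T.a (T.l 884) (T.a (T.l 884) (T.l 884)))) (T.a (T.a (T.c (T.l 884) (T.l 884)) (T.l 884)) (T.a (T.l 884) (T.l 884))))) (T.a (T.a (T.a (T.a (T.l 884) (T.l 884)) (T.a (T.l 884) (T.l 884))) (T.c (T.l 1024) (T.c (T.l 1024) (T.a (T.a (T.l 884)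 (T.l 884)) (T.a (T.l 884) (T.l 1024)))))) (T.l 1024)))))) (T.a (T.a (T.l 816) (T.a (T.a (T.l 880) (T.a (T.c (T.l 880) (T.l 816)) (T.c (T.l 880) (T.l 816)))) (T.a (T.a (T.c (T.l 880) (T.l 816)) (T.c (T.l 880) (T.l 816))) (T.a (T.c (T.l 880) (T.l 816)) (T.c (T.l 884) (T.l 880)))))) (T.c (T.a (T.a (T.a (T.a (T.l 884) (T.l 884)) (T.a (T.c (T.l 884) (T.l 884)) (T.c (T.l 884) (T.l 884)))) (T.a (T.a (T.c (T.l 884) (T.l 884)) (T.a (T.l 884) (T.a (T.l 884) (T.l 884)))) (T.l 1024))) (T.l 1024)) (T.b (T.a (T.a (T.a (T.a (T.l 880) (T.l 880)) (T.a (T.l 884) (T.l 884))) (T.a (T.a (T.l 884) (T.a (T.l 884) (T.a (T.l 884) (T.l 884)))) (T.a (T.a (T.c (T.l 884) (T.l 884)) (T.c (T.l 884) (T.l 884))) (T.a (T.c (T.l 884) (T.l 884)) (T.l 884))))) (T.a (T.a (T.a (T.a (T.l 884) (T.l 884)) (T.a (T.l 884) (T.l 884))) (T.c (T.l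 1024) (T.c (T.l 1024) (T.a (T.a (T.l 884) (T.l 884)) (T.a (T.l 884) (T.l 1024)))))) (T.l 1024))) (T.a (T.a (T.a (T.a (T.l 880) (T.l 884)) (T.a (T.l 884) (T.l 884))) (T.a (T.a (T.l 884) (T.a (T.l 884) (T.a (T.l 884) (T.l 884)))) (T.a (T.a (T.a (T.l 884) (T.l 884)) (T.c (T.l 884) (T.l 884))) (T.a (T.c (T.l 884) (T.l 884)) (T.c (T.l 884) (T.l 884)))))) (T.a (T.a (T.a (T.a (T.c (T.l 884) (T.l 884)) (T.c (T.l 1024) (T.l 884))) (T.a (T.c (T.l 1024) (T.l 884)) (T.l 884))) (T.c (T.l 1024) (T.c (T.l 1024) (T.a (T.a (T.l 884) (T.l 884)) (T.a (T.l 884) (T.l 1024)))))) (T.l 1024)))))))), by decide +kernel⟩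

def A012E_001_1_254_1 :
    ∃ t, chk3 (onCell 0 50331648 0 1073741824 50331648 16777216 (corTK [[⟨0, 0, 1, 25165824⟩, ⟨1, 1, 0, 8388608⟩, ⟨2, 1, 1, 25165824⟩, ⟨0, 0, 0, 83886080⟩, ⟨0, 1, 0, 1040187392⟩, ⟨2, 1, 0, 83886080⟩, ⟨2, 2, 0, 1040187392⟩]] false 3 c0N cA012E gN0q0 gN0q1 gN1q2 gN2q2 true true)) t 1 254 1 = true :=
  ⟨(T.b (T.a (T.a (T.l 816) (T.a (T.a (T.c (T.l 816) (T.l 816)) (T.a (T.a (T.l 816) (T.l 816)) (T.c (T.l 880) (T.l 816)))) (T.a (T.a (T.c (T.l 880) (T.l 816)) (T.c (T.l 880) (T.l 816))) (T.a (T.c (T.l 884) (T.l 880)) (T.c (T.l 884) (T.l 880)))))) (T.c (T.a (T.a (T.a (T.a (T.l 884) (T.c (T.l 884) (T.l 884))) (T.a (T.c (T.l 884) (T.l 884)) (T.c (T.l 884) (T.l 884)))) (T.a (T.a (T.c (T.l 884) (T.l 884)) (T.a (T.l 884) (T.a (T.c (T.l 884) (T.l 884)) (T.l 1024)))) (T.l 1024))) (T.l 1024))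 (T.b (T.a (T.a (T.a (T.a (T.l 880) (T.l 884)) (T.a (T.l 884) (T.l 884))) (T.a (T.a (T.l 884) (T.a (T.l 884) (T.a (T.l 884) (T.l 884)))) (T.a (T.a (T.a (T.l 884) (T.l 884)) (T.a (T.l 884) (T.l 884))) (T.a (T.a (T.l 884) (T.l 884)) (T.a (T.l 884) (T.l 884)))))) (T.a (T.a (T.a (T.a (T.a (T.l 884) (T.l 884)) (T.c (T.l 1024) (T.l 884))) (T.c (T.l 1024) (T.a (T.l 884) (T.l 884)))) (T.c (T.l 1024) (T.c (T.l 1024) (T.a (T.a (T.l 884) (T.l 884)) (T.a (T.l 884) (T.l 1024)))))) (T.l 1024))) (T.a (T.a (T.a (T.a (T.l 884) (T.l 884)) (T.a (T.l 884) (T.l 884))) (T.a (T.a (T.l 884) (T.a (T.l 884) (T.a (T.l 884) (T.l 884)))) (T.a (T.a (T.a (T.l 884) (T.l 884)) (T.a (T.l 884) (T.l 884))) (T.a (T.a (T.l 884) (T.l 884)) (T.a (T.l 884) (T.l 884)))))) (T.a (T.a (T.a (T.a (T.a (T.l 884) (T.l 884)) (T.c (T.l 1024) (T.l 884)))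 (T.c (T.l 1024) (T.a (T.l 884) (T.l 884)))) (T.c (T.l 1024) (T.c (T.l 1024) (T.a (T.a (T.l 884) (T.l 884)) (T.a (T.l 884) (T.l 1024)))))) (T.l 1024)))))) (T.a (T.a (T.l 816) (T.a (T.a (T.c (T.l 816) (T.l 816)) (T.a (T.a (T.l 880) (T.l 816)) (T.a (T.l 816) (T.l 880)))) (T.a (T.a (T.a (T.l 880) (T.l 880)) (T.a (T.l 880) (T.l 880))) (T.a (T.a (T.l 880) (T.l 880)) (T.a (T.l 884) (T.l 884)))))) (T.c (T.a (T.a (T.a (T.a (T.c (T.l 884) (T.l 884)) (T.c (T.l 884) (T.l 884))) (T.a (T.a (T.l 884) (T.l 884)) (T.a (T.l 884) (T.l 884)))) (T.a (T.a (T.a (T.l 884) (T.l 884)) (T.a (T.l 884) (T.a (T.a (T.l 884) (T.l 1024)) (T.l 1024)))) (T.l 1024))) (T.l 1024)) (T.b (T.a (T.a (T.a (T.a (T.l 884) (T.l 884)) (T.a (T.l 884) (T.c (T.l 884) (T.l 884)))) (T.a (T.a (T.c (T.l 884) (T.l 884)) (T.a (T.l 884) (T.a (T.l 884) (T.l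 884)))) (T.a (T.a (T.a (T.l 884) (T.l 884)) (T.a (T.l 884) (T.l 884))) (T.a (T.a (T.l 884) (T.l 884)) (T.a (T.l 884) (T.l 884)))))) (T.a (T.a (T.a (T.a (T.a (T.l 884) (T.l 884)) (T.a (T.l 884) (T.l 884))) (T.c (T.l 1024) (T.a (T.b (T.l 884) (T.l 884)) (T.c (T.l 884) (T.l 884))))) (T.a (T.c (T.l 1024) (T.c (T.l 1024) (T.a (T.l 884) (T.l 884)))) (T.l 1024))) (T.l 1024))) (T.a (T.a (T.a (T.a (T.l 884) (T.l 884)) (T.a (T.c (T.l 884) (T.l 884)) (T.c (T.l 884) (T.l 884)))) (T.a (T.a (T.c (T.l 884) (T.l 884)) (T.a (T.l 884) (T.a (T.l 884) (T.l 884)))) (T.a (T.a (T.a (T.l 884) (T.l 884)) (T.a (T.l 884) (T.l 884))) (T.a (T.a (T.l 884) (T.l 884)) (T.a (T.l 884) (T.l 884)))))) (T.a (T.a (T.a (T.a (T.a (T.l 884) (T.l 884)) (T.a (T.l 884) (T.l 884))) (T.c (T.l 1024) (T.a (T.a (T.l 884) (T.l 884)) (T.a (T.l 884) (T.l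 884))))) (T.a (T.c (T.l 1024) (T.c (T.l 1024) (T.a (T.b (T.l 884) (T.l 884)) (T.b (T.l 884) (T.l 884))))) (T.l 1024))) (T.l 1024))))))), by decide +kernel⟩

def A012E_001_1_510_1 :
    ∃ t, chk3 (onCell 0 50331648 0 1073741824 50331648 16777216 (corTK [[⟨0, 0, 1, 25165824⟩, ⟨1, 1, 0, 8388608⟩, ⟨2, 1, 1, 25165824⟩, ⟨0, 0, 0, 83886080⟩, ⟨0, 1, 0, 1040187392⟩, ⟨2, 1, 0, 83886080⟩, ⟨2, 2, 0, 1040187392⟩]] false 3 c0N cA012E gN0q0 gN0q1 gN1q2 gN2q2 true true)) t 1 510 1 = true :=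
  ⟨(T.a (T.a (T.l 816) (T.a (T.a (T.c (T.l 880) (T.l 816)) (T.a (T.a (T.l 880) (T.l 880)) (T.a (T.l 880) (T.l 880)))) (T.a (T.a (T.a (T.l 880) (T.l 880)) (T.a (T.l 880) (T.l 880))) (T.a (T.a (T.l 884) (T.l 884)) (T.c (T.c (T.l 884) (T.l 884)) (T.l 884)))))) (T.c (T.a (T.a (T.a (T.a (T.a (T.l 880) (T.l 884)) (T.a (T.l 884) (T.l 884))) (T.a (T.a (T.l 884) (T.l 884)) (T.a (T.c (T.l 884) (T.l 884)) (T.c (T.l 884) (T.l 884))))) (T.a (T.a (T.a (T.c (T.l 884) (T.l 884)) (T.c (T.l 884) (T.l 884))) (T.a (T.a (T.l 884) (T.a (T.l 884) (T.c (T.b (T.l 884) (T.l 884)) (T.l 884)))) (T.a (T.b (T.a (T.l 884) (T.l 1024)) (T.l 1024)) (T.l 1024)))) (T.l 1024))) (T.l 1024)) (T.b (T.a (T.a (T.a (T.a (T.l 884) (T.l 884)) (T.a (T.c (T.l 884) (T.l 884)) (T.c (T.l 884) (T.l 884)))) (T.a (T.a (T.a (T.l 884) (T.l 884)) (T.a (T.a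 (T.l 884) (T.c (T.l 884) (T.l 884))) (T.a (T.c (T.l 884) (T.l 884)) (T.l 884)))) (T.a (T.a (T.a (T.l 884) (T.l 884)) (T.a (T.l 884) (T.l 884))) (T.a (T.a (T.l 884) (T.l 884)) (T.a (T.l 884) (T.l 884)))))) (T.a (T.a (T.a (T.a (T.a (T.l 884) (T.l 884)) (T.a (T.l 884) (T.l 884))) (T.c (T.l 1024) (T.a (T.a (T.l 884) (T.l 884)) (T.a (T.l 884) (T.l 884))))) (T.a (T.c (T.l 1024) (T.c (T.l 1024) (T.a (T.a (T.l 884) (T.l 884)) (T.a (T.l 884) (T.l 884))))) (T.l 1024))) (T.l 1024))) (T.a (T.a (T.a (T.a (T.l 884) (T.l 884)) (T.a (T.c (T.l 884) (T.l 884)) (T.a (T.l 884) (T.l 884)))) (T.a (T.a (T.a (T.l 884) (T.l 884)) (T.a (T.a (T.l 884) (T.a (T.l 884) (T.l 884))) (T.a (T.c (T.l 884) (T.l 884)) (T.c (T.l 884) (T.l 884))))) (T.a (T.a (T.a (T.c (T.l 884) (T.l 884)) (T.c (T.l 884) (T.l 884))) (T.a (T.c (T.l 884) (T.l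 884)) (T.c (T.l 884) (T.l 884)))) (T.a (T.a (T.c (T.l 884) (T.l 884)) (T.c (T.l 884) (T.l 884))) (T.a (T.c (T.l 884) (T.l 884)) (T.c (T.l 884) (T.l 884))))))) (T.a (T.a (T.a (T.a (T.a (T.c (T.l 884) (T.l 884)) (T.c (T.l 1024) (T.l 884))) (T.c (T.l 1024) (T.a (T.l 884) (T.l 884)))) (T.c (T.l 1024) (T.a (T.a (T.l 884) (T.l 884)) (T.a (T.l 884) (T.l 884))))) (T.a (T.c (T.l 1024) (T.c (T.l 1024) (T.a (T.a (T.l 884) (T.l 884)) (T.a (T.l 884) (T.l 884))))) (T.l 1024))) (T.l 1024)))))), by decide +kernel⟩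

def A012E_001_2_511_1 :
    ∃ t, chk3 (onCell 0 50331648 0 1073741824 50331648 16777216 (corTK [[⟨0, 0, 1, 25165824⟩, ⟨1, 1, 0, 8388608⟩, ⟨2, 1, 1, 25165824⟩, ⟨0, 0, 0, 83886080⟩, ⟨0, 1, 0, 1040187392⟩, ⟨2, 1, 0, 83886080⟩, ⟨2, 2, 0, 1040187392⟩]] false 3 c0N cA012E gN0q0 gN0q1 gN1q2 gN2q2 true true)) t 2 511 1 = true :=
  ⟨(T.a (T.l 816) (T.c (T.b (T.a (T.a (T.l 880) (T.a (T.a (T.l 816) (T.l 816)) (T.c (T.l 880) (T.l 816)))) (T.a (T.a (T.c (T.l 880) (T.l 880)) (T.c (T.l 880) (T.l 880))) (T.a (T.c (T.l 884) (T.l 880)) (T.a (T.l 880) (T.l 880))))) (T.c (T.b (T.a (T.a (T.l 816) (T.a (T.c (T.l 880) (T.l 816)) (T.l 880))) (T.a (T.a (T.l 880) (T.l 880)) (T.a (T.l 884) (T.c (T.l 884) (T.l 884))))) (T.a (T.a (T.l 816) (T.a (T.c (T.l 880) (T.l 880)) (T.l 880))) (T.a (T.a (T.l 880) (T.l 880)) (T.a (T.c (T.l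 880) (T.l 880)) (T.c (T.l 884) (T.l 884)))))) (T.b (T.a (T.a (T.l 816) (T.a (T.l 880) (T.l 816))) (T.a (T.a (T.l 880) (T.l 880)) (T.a (T.l 880) (T.l 884)))) (T.a (T.a (T.l 816) (T.a (T.l 880) (T.l 880))) (T.a (T.a (T.l 880) (T.l 880)) (T.a (T.l 880) (T.l 884))))))) (T.b (T.a (T.a (T.l 816) (T.a (T.c (T.l 816) (T.l 816)) (T.l 880))) (T.a (T.a (T.l 880) (T.l 880)) (T.a (T.l 884) (T.l 884)))) (T.c (T.b (T.a (T.a (T.l 816) (T.a (T.l 816) (T.l 816))) (T.a (T.a (T.l 816) (T.l 816)) (T.a (T.l 816) (T.l 880)))) (T.a (T.a (T.l 816) (T.a (T.l 816) (T.l 816))) (T.a (T.a (T.l 816) (T.l 816)) (T.a (T.l 880) (T.l 884))))) (T.b (T.a (T.a (T.l 816) (T.a (T.l 816) (T.l 816))) (T.a (T.a (T.l 816) (T.l 816)) (T.a (T.l 816) (T.l 816)))) (T.a (T.a (T.l 816) (T.a (T.l 816) (T.l 816))) (T.a (T.a (T.l 816) (T.l 816)) (T.a (T.l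 816) (T.l 816))))))))), by decide +kernel⟩

def A012E_001_3_511_1 :
    ∃ t, chk3 (onCell 0 50331648 0 1073741824 50331648 16777216 (corTK [[⟨0, 0, 1, 25165824⟩, ⟨1, 1, 0, 8388608⟩, ⟨2, 1, 1, 25165824⟩, ⟨0, 0, 0, 83886080⟩, ⟨0, 1, 0, 1040187392⟩, ⟨2, 1, 0, 83886080⟩, ⟨2, 2, 0, 1040187392⟩]] false 3 c0N cA012E gN0q0 gN0q1 gN1q2 gN2q2 true true)) t 3 511 1 = true :=
  ⟨(T.c (T.a (T.a (T.a (T.a (T.a (T.l 884) (T.l 884)) (T.a (T.l 884) (T.l 884))) (T.a (T.a (T.c (T.l 884) (T.l 884)) (T.c (T.l 884) (T.l 884))) (T.a (T.a (T.l 884) (T.l 884)) (T.c (T.c (T.l 884) (T.l 884)) (T.l 884))))) (T.a (T.a (T.a (T.c (T.a (T.l 884) (T.l 884)) (T.b (T.l 884) (T.l 884))) (T.c (T.a (T.l 884) (T.l 884)) (T.c (T.l 884) (T.l 884)))) (T.a (T.a (T.c (T.b (T.l 884) (T.l 884)) (T.l 884)) (T.a (T.b (T.l 884) (T.a (T.l 884) (T.c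 (T.c (T.b (T.l 884) (T.l 884)) (T.l 884)) (T.l 884)))) (T.a (T.c (T.b (T.l 884) (T.b (T.l 884) (T.l 1024))) (T.b (T.l 884) (T.l 884))) (T.l 1024)))) (T.l 1024))) (T.l 1024))) (T.l 1024)) (T.b (T.a (T.a (T.a (T.a (T.c (T.l 884) (T.l 884)) (T.c (T.l 884) (T.l 884))) (T.a (T.a (T.l 884) (T.l 884)) (T.a (T.l 884) (T.l 884)))) (T.a (T.a (T.a (T.l 884) (T.l 884)) (T.a (T.a (T.l 884) (T.a (T.l 884) (T.l 884))) (T.a (T.a (T.l 884) (T.l 884)) (T.a (T.l 884) (T.l 884))))) (T.a (T.a (T.a (T.a (T.l 884) (T.l 884)) (T.a (T.l 884) (T.l 884))) (T.a (T.a (T.l 884) (T.l 884)) (T.a (T.l 884) (T.l 884)))) (T.a (T.a (T.a (T.l 884) (T.l 884)) (T.a (T.l 884) (T.l 884))) (T.a (T.a (T.l 884) (T.l 884)) (T.a (T.l 884) (T.l 884))))))) (T.a (T.a (T.a (T.a (T.a (T.a (T.l 884) (T.l 884)) (T.c (T.l 1024) (T.l 884))) (T.c (T.l 1024)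 (T.a (T.l 884) (T.l 884)))) (T.c (T.l 1024) (T.a (T.a (T.l 884) (T.l 884)) (T.a (T.l 884) (T.l 884))))) (T.a (T.c (T.l 1024) (T.c (T.l 1024) (T.a (T.a (T.l 884) (T.l 884)) (T.a (T.l 884) (T.l 884))))) (T.l 1024))) (T.l 1024))) (T.a (T.c (T.b (T.a (T.a (T.a (T.l 884) (T.l 884)) (T.a (T.c (T.l 884) (T.l 884)) (T.a (T.l 884) (T.l 884)))) (T.c (T.b (T.a (T.a (T.a (T.l 884) (T.l 884)) (T.a (T.a (T.l 884) (T.l 884)) (T.a (T.l 884) (T.l 884)))) (T.a (T.a (T.a (T.l 884) (T.l 884)) (T.a (T.l 884) (T.l 1024))) (T.l 1024))) (T.a (T.a (T.a (T.l 884) (T.l 884)) (T.a (T.a (T.l 884) (T.c (T.l 884) (T.l 884))) (T.a (T.l 884) (T.l 884)))) (T.a (T.a (T.a (T.l 884) (T.l 884)) (T.a (T.l 884) (T.l 1024))) (T.l 1024)))) (T.b (T.a (T.a (T.a (T.l 884) (T.l 884)) (T.a (T.a (T.l 884) (T.l 884)) (T.a (T.l 884) (T.l 884)))) (T.a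 (T.a (T.a (T.l 884) (T.l 884)) (T.a (T.l 884) (T.l 884))) (T.a (T.a (T.l 884) (T.l 884)) (T.a (T.l 884) (T.l 884))))) (T.a (T.a (T.a (T.l 884) (T.l 884)) (T.a (T.a (T.l 884) (T.l 884)) (T.a (T.l 884) (T.l 884)))) (T.a (T.a (T.a (T.l 884) (T.l 884)) (T.a (T.l 884) (T.l 884))) (T.a (T.a (T.l 884) (T.l 884)) (T.a (T.l 884) (T.l 884)))))))) (T.a (T.a (T.a (T.l 884) (T.l 884)) (T.a (T.a (T.l 884) (T.l 884)) (T.a (T.l 884) (T.l 884)))) (T.c (T.b (T.a (T.a (T.a (T.l 884) (T.l 884)) (T.a (T.a (T.l 884) (T.a (T.l 884) (T.l 884))) (T.a (T.l 884) (T.l 884)))) (T.a (T.a (T.a (T.l 884) (T.l 884)) (T.a (T.l 884) (T.l 1024))) (T.l 1024))) (T.a (T.a (T.a (T.l 884) (T.l 884)) (T.a (T.a (T.l 884) (T.a (T.l 884) (T.l 884))) (T.a (T.c (T.l 884) (T.l 884)) (T.c (T.l 884) (T.l 884))))) (T.a (T.a (T.a (T.a (T.l 884) (T.l 884))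 (T.c (T.l 1024) (T.l 884))) (T.a (T.c (T.l 1024) (T.l 884)) (T.l 1024))) (T.l 1024)))) (T.b (T.a (T.a (T.a (T.l 884) (T.l 884)) (T.a (T.a (T.l 884) (T.l 884)) (T.a (T.l 884) (T.l 884)))) (T.a (T.a (T.a (T.l 884) (T.l 884)) (T.a (T.l 884) (T.l 884))) (T.a (T.a (T.l 884) (T.l 884)) (T.a (T.l 884) (T.l 884))))) (T.a (T.a (T.a (T.l 884) (T.l 884)) (T.a (T.a (T.l 884) (T.c (T.l 884) (T.l 884))) (T.a (T.l 884) (T.l 884)))) (T.a (T.a (T.a (T.l 884) (T.l 884)) (T.a (T.l 884) (T.l 884))) (T.a (T.a (T.l 884) (T.l 884)) (T.a (T.l 884) (T.l 884))))))))) (T.b (T.a (T.a (T.a (T.l 884) (T.l 884)) (T.a (T.l 884) (T.c (T.l 884) (T.l 884)))) (T.c (T.b (T.a (T.a (T.l 884) (T.a (T.a (T.l 884) (T.l 884)) (T.a (T.l 884) (T.l 884)))) (T.a (T.a (T.a (T.l 884) (T.l 884)) (T.a (T.l 884) (T.l 884))) (T.a (T.a (T.l 884) (T.l 884))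 (T.a (T.l 884) (T.l 884))))) (T.a (T.a (T.a (T.l 884) (T.l 884)) (T.a (T.a (T.l 884) (T.l 884)) (T.a (T.l 884) (T.l 884)))) (T.a (T.a (T.a (T.l 884) (T.l 884)) (T.a (T.l 884) (T.l 884))) (T.a (T.a (T.l 884) (T.l 884)) (T.a (T.l 884) (T.l 884)))))) (T.b (T.a (T.a (T.l 884) (T.a (T.a (T.l 884) (T.l 884)) (T.a (T.l 884) (T.l 884)))) (T.a (T.a (T.a (T.l 884) (T.l 884)) (T.a (T.l 884) (T.l 884))) (T.a (T.a (T.l 884) (T.l 884)) (T.a (T.l 884) (T.l 884))))) (T.a (T.a (T.l 884) (T.a (T.a (T.l 884) (T.l 884)) (T.a (T.l 884) (T.l 884)))) (T.a (T.a (T.a (T.l 884) (T.l 884)) (T.a (T.l 884) (T.l 884))) (T.a (T.a (T.l 884) (T.l 884)) (T.a (T.l 884) (T.l 884)))))))) (T.a (T.a (T.a (T.l 884) (T.l 884)) (T.a (T.c (T.l 884) (T.l 884)) (T.c (T.l 884) (T.l 884)))) (T.c (T.b (T.a (T.a (T.a (T.l 884) (T.l 884)) (T.a (T.a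 (T.l 884) (T.l 884)) (T.a (T.l 884) (T.l 884)))) (T.a (T.a (T.a (T.l 884) (T.l 884)) (T.a (T.l 884) (T.l 884))) (T.a (T.a (T.l 884) (T.l 884)) (T.a (T.l 884) (T.l 884))))) (T.a (T.a (T.a (T.l 884) (T.l 884)) (T.a (T.a (T.l 884) (T.l 884)) (T.a (T.l 884) (T.l 884)))) (T.a (T.a (T.a (T.l 884) (T.l 884)) (T.a (T.l 884) (T.l 884))) (T.a (T.a (T.l 884) (T.l 884)) (T.a (T.l 884) (T.l 884)))))) (T.b (T.a (T.a (T.l 884) (T.a (T.a (T.l 884) (T.l 884)) (T.a (T.l 884) (T.l 884)))) (T.a (T.a (T.a (T.l 884) (T.l 884)) (T.a (T.l 884) (T.l 884))) (T.a (T.a (T.l 884) (T.l 884)) (T.a (T.l 884) (T.l 884))))) (T.a (T.a (T.a (T.l 884) (T.l 884)) (T.a (T.a (T.l 884) (T.l 884)) (T.a (T.l 884) (T.l 884)))) (T.a (T.a (T.a (T.l 884) (T.l 884)) (T.a (T.l 884) (T.l 884))) (T.a (T.a (T.l 884) (T.l 884)) (T.a (T.l 884) (T.l 884))))))))))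 (T.a (T.c (T.a (T.a (T.a (T.a (T.a (T.l 884) (T.l 1024)) (T.l 1024)) (T.l 1024)) (T.l 1024)) (T.l 1024)) (T.a (T.a (T.a (T.a (T.a (T.l 884) (T.l 884)) (T.a (T.l 884) (T.l 884))) (T.a (T.a (T.l 884) (T.l 884)) (T.a (T.l 884) (T.l 884)))) (T.a (T.a (T.a (T.l 884) (T.l 884)) (T.a (T.l 884) (T.l 884))) (T.c (T.l 1024) (T.a (T.b (T.l 884) (T.l 884)) (T.b (T.l 884) (T.l 884)))))) (T.a (T.c (T.l 1024) (T.a (T.a (T.b (T.l 884) (T.l 884)) (T.b (T.l 884) (T.l 884))) (T.a (T.b (T.l 884) (T.l 884)) (T.l 1024)))) (T.l 1024)))) (T.l 1024))))), by decide +kernel⟩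

theorem A012E_001_1_511_1 :
    ∃ t, chk3 (onCell 0 50331648 0 1073741824 50331648 16777216 (corTK [[⟨0, 0, 1, 25165824⟩, ⟨1, 1, 0, 8388608⟩, ⟨2, 1, 1, 25165824⟩, ⟨0, 0, 0, 83886080⟩, ⟨0, 1, 0, 1040187392⟩, ⟨2, 1, 0, 83886080⟩, ⟨2, 2, 0, 1040187392⟩]] false 3 c0N cA012E gN0q0 gN0q1 gN1q2 gN2q2 true true)) t 1 511 1 = true :=
  ex3_a A012E_001_2_511_1 A012E_001_3_511_1
theorem A012E_001_1_255_1 :
    ∃ t, chk3 (onCell 0 50331648 0 1073741824 50331648 16777216 (corTK [[⟨0, 0, 1, 25165824⟩, ⟨1, 1, 0, 8388608⟩, ⟨2, 1, 1, 25165824⟩, ⟨0, 0, 0, 83886080⟩, ⟨0, 1, 0, 1040187392⟩, ⟨2, 1, 0, 83886080⟩, ⟨2, 2, 0, 1040187392⟩]] false 3 c0N cA012E gN0q0 gN0q1 gN1q2 gN2q2 true true)) t 1 255 1 = true :=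
  ex3_b A012E_001_1_510_1 A012E_001_1_511_1
theorem A012E_001_1_127_1 :
    ∃ t, chk3 (onCell 0 50331648 0 1073741824 50331648 16777216 (corTK [[⟨0, 0, 1, 25165824⟩, ⟨1, 1, 0, 8388608⟩, ⟨2, 1, 1, 25165824⟩, ⟨0, 0, 0, 83886080⟩, ⟨0, 1, 0, 1040187392⟩, ⟨2, 1, 0, 83886080⟩, ⟨2, 2, 0, 1040187392⟩]] false 3 c0N cA012E gN0q0 gN0q1 gN1q2 gN2q2 true true)) t 1 127 1 = true :=
  ex3_b A012E_001_1_254_1 A012E_001_1_255_1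
theorem A012E_001_1_63_1 :
    ∃ t, chk3 (onCell 0 50331648 0 1073741824 50331648 16777216 (corTK [[⟨0, 0, 1, 25165824⟩, ⟨1, 1, 0, 8388608⟩, ⟨2, 1, 1, 25165824⟩, ⟨0, 0, 0, 83886080⟩, ⟨0, 1, 0, 1040187392⟩, ⟨2, 1, 0, 83886080⟩, ⟨2, 2, 0, 1040187392⟩]] false 3 c0N cA012E gN0q0 gN0q1 gN1q2 gN2q2 true true)) t 1 63 1 = true :=
  ex3_b A012E_001_1_126_1 A012E_001_1_127_1
theorem A012E_001_1_31_1 :
    ∃ t, chk3 (onCell 0 50331648 0 1073741824 50331648 16777216 (corTK [[⟨0, 0, 1, 25165824⟩, ⟨1, 1, 0, 8388608⟩, ⟨2, 1, 1, 25165824⟩, ⟨0, 0, 0, 83886080⟩, ⟨0, 1, 0, 1040187392⟩, ⟨2, 1, 0, 83886080⟩, ⟨2, 2, 0, 1040187392⟩]] false 3 c0N cA012E gN0q0 gN0q1 gN1q2 gN2q2 true true)) t 1 31 1 = true :=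
  ex3_b A012E_001_1_62_1 A012E_001_1_63_1
theorem A012E_001_1_15_1 :
    ∃ t, chk3 (onCell 0 50331648 0 1073741824 50331648 16777216 (corTK [[⟨0, 0, 1, 25165824⟩, ⟨1, 1, 0, 8388608⟩, ⟨2, 1, 1, 25165824⟩, ⟨0, 0, 0, 83886080⟩, ⟨0, 1, 0, 1040187392⟩, ⟨2, 1, 0, 83886080⟩, ⟨2, 2, 0, 1040187392⟩]] false 3 c0N cA012E gN0q0 gN0q1 gN1q2 gN2q2 true true)) t 1 15 1 = true :=
  ex3_b A012E_001_1_30_1 A012E_001_1_31_1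
theorem A012E_001_1_7_1 :
    ∃ t, chk3 (onCell 0 50331648 0 1073741824 50331648 16777216 (corTK [[⟨0, 0, 1, 25165824⟩, ⟨1, 1, 0, 8388608⟩, ⟨2, 1, 1, 25165824⟩, ⟨0, 0, 0, 83886080⟩, ⟨0, 1, 0, 1040187392⟩, ⟨2, 1, 0, 83886080⟩, ⟨2, 2, 0, 1040187392⟩]] false 3 c0N cA012E gN0q0 gN0q1 gN1q2 gN2q2 true true)) t 1 7 1 = true :=
  ex3_b A012E_001_1_14_1 A012E_001_1_15_1
theorem A012E_001_1_3_1 :
    ∃ t, chk3 (onCell 0 50331648 0 1073741824 50331648 16777216 (corTK [[⟨0, 0, 1, 25165824⟩, ⟨1, 1, 0, 8388608⟩, ⟨2, 1, 1, 25165824⟩, ⟨0, 0, 0, 83886080⟩, ⟨0, 1, 0, 1040187392⟩, ⟨2, 1, 0, 83886080⟩, ⟨2, 2, 0, 1040187392⟩]] false 3 c0N cA012E gN0q0 gN0q1 gN1q2 gN2q2 true true)) t 1 3 1 = true :=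
  ex3_b A012E_001_1_6_1 A012E_001_1_7_1
theorem A012E_001 :
    ∃ t, chk3 (onCell 0 50331648 0 1073741824 50331648 16777216 (corTK [[⟨0, 0, 1, 25165824⟩, ⟨1, 1, 0, 8388608⟩, ⟨2, 1, 1, 25165824⟩, ⟨0, 0, 0, 83886080⟩, ⟨0, 1, 0, 1040187392⟩, ⟨2, 1, 0, 83886080⟩, ⟨2, 2, 0, 1040187392⟩]] false 3 c0N cA012E gN0q0 gN0q1 gN1q2 gN2q2 true true)) t 1 1 1 = true :=
  ex3_b A012E_001_1_2_1 A012E_001_1_3_1

def A012E_002 :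
    ∃ t, chk3 (onCell 0 50331648 0 1073741824 50331648 16777216 (corTK [[⟨0, 0, 1, 25165824⟩, ⟨1, 1, 0, 8388608⟩, ⟨2, 1, 1, 25165824⟩, ⟨0, 0, 0, 83886080⟩, ⟨0, 1, 0, 1040187392⟩, ⟨2, 1, 0, 83886080⟩, ⟨2, 2, 0, 1040187392⟩]] false 3 c0N cA012E gN0q0 gN0q1 gN2q2 gN3q2 true false)) t 1 1 1 = true :=
  ⟨(T.b (T.l 1) (T.b (T.l 1) (T.b (T.l 1) (T.b (T.l 1) (T.b (T.l 1) (T.b (T.l 1) (T.b (T.l 1) (T.b (T.l 1) (T.a (T.a (T.l 816) (T.c (T.b (T.l 1) (T.c (T.b (T.l 1) (T.a (T.a (T.l 816) (T.l 880)) (T.a (T.l 880) (T.l 884)))) (T.b (T.l 1) (T.a (T.a (T.l 816) (T.l 880)) (T.a (T.l 880) (T.l 884)))))) (T.b (T.l 1) (T.c (T.b (T.l 1) (T.a (T.a (T.l 816) (T.l 816)) (T.a (T.l 816) (T.l 884)))) (T.b (T.l 1) (T.a (T.a (T.l 816) (T.l 816)) (T.a (T.l 816) (T.l 816)))))))) (T.c (T.a (T.b (T.l 1) (T.c (T.b (T.l 1) (T.a (T.c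 (T.a (T.l 884) (T.a (T.l 884) (T.l 884))) (T.a (T.l 884) (T.a (T.l 884) (T.l 884)))) (T.a (T.c (T.a (T.l 884) (T.a (T.a (T.l 884) (T.b (T.l 1) (T.a (T.c (T.l 884) (T.l 884)) (T.l 1024)))) (T.l 1024))) (T.a (T.l 884) (T.a (T.a (T.l 884) (T.a (T.l 884) (T.l 1024))) (T.l 1024)))) (T.l 1024)))) (T.b (T.l 1) (T.a (T.a (T.l 884) (T.a (T.l 884) (T.l 884))) (T.a (T.a (T.l 884) (T.a (T.a (T.l 884) (T.a (T.l 884) (T.l 1024))) (T.l 1024))) (T.l 1024)))))) (T.l 1024)) (T.b (T.l 1) (T.a (T.c (T.b (T.l 1) (T.a (T.a (T.l 884) (T.a (T.l 884) (T.l 884))) (T.c (T.b (T.l 1) (T.a (T.a (T.l 884) (T.c (T.b (T.l 1) (T.c (T.b (T.l 1) (T.a (T.a (T.l 884) (T.l 884)) (T.a (T.l 884) (T.l 1024)))) (T.b (T.l 1) (T.a (T.a (T.l 884) (T.l 884)) (T.a (T.l 884) (T.l 884)))))) (T.b (T.l 1) (T.c (T.b (T.l 1) (T.a (T.a (T.l 884) (T.l 884))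 (T.a (T.l 884) (T.l 884)))) (T.b (T.l 1) (T.a (T.a (T.l 884) (T.l 884)) (T.a (T.l 884) (T.l 884)))))))) (T.a (T.c (T.a (T.a (T.l 884) (T.l 1024)) (T.l 1024)) (T.b (T.l 1) (T.c (T.a (T.a (T.l 884) (T.l 884)) (T.l 1024)) (T.b (T.l 1) (T.a (T.a (T.l 884) (T.l 884)) (T.a (T.l 884) (T.l 1024))))))) (T.l 1024)))) (T.b (T.l 1) (T.a (T.a (T.l 884) (T.c (T.b (T.l 1) (T.c (T.b (T.l 1) (T.a (T.a (T.l 884) (T.l 884)) (T.a (T.l 884) (T.l 884)))) (T.b (T.l 1) (T.a (T.a (T.l 884) (T.l 884)) (T.a (T.l 884) (T.l 884)))))) (T.b (T.l 1) (T.c (T.b (T.l 1) (T.a (T.a (T.l 884) (T.l 884)) (T.a (T.l 884) (T.l 884)))) (T.b (T.l 1) (T.a (T.a (T.l 884) (T.l 884)) (T.a (T.l 884) (T.l 884)))))))) (T.c (T.b (T.l 1) (T.a (T.c (T.b (T.l 1) (T.a (T.a (T.l 884) (T.l 884)) (T.a (T.l 884) (T.l 884)))) (T.b (T.l 1) (T.a (T.a (T.l 884) (T.l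 884)) (T.a (T.l 884) (T.l 884))))) (T.a (T.a (T.l 884) (T.l 884)) (T.l 1024)))) (T.b (T.l 1) (T.a (T.c (T.b (T.l 1) (T.a (T.a (T.l 884) (T.l 884)) (T.a (T.l 884) (T.l 884)))) (T.b (T.l 1) (T.a (T.a (T.l 884) (T.l 884)) (T.a (T.l 884) (T.l 884))))) (T.c (T.b (T.l 1) (T.a (T.a (T.l 884) (T.l 884)) (T.a (T.l 884) (T.l 1024)))) (T.b (T.l 1) (T.a (T.a (T.l 884) (T.l 884)) (T.a (T.l 884) (T.l 884))))))))))))) (T.b (T.l 1) (T.a (T.a (T.l 884) (T.a (T.l 884) (T.l 884))) (T.c (T.b (T.l 1) (T.a (T.a (T.l 884) (T.c (T.b (T.l 1) (T.c (T.b (T.l 1) (T.a (T.a (T.l 884) (T.l 884)) (T.a (T.l 884) (T.l 884)))) (T.b (T.l 1) (T.a (T.a (T.l 884) (T.l 884)) (T.a (T.l 884) (T.l 884)))))) (T.b (T.l 1) (T.c (T.b (T.l 1) (T.a (T.a (T.l 884) (T.l 884)) (T.a (T.l 884) (T.l 884)))) (T.b (T.l 1) (T.a (T.a (T.l 884) (T.l 884)) (T.a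 (T.l 884) (T.l 884)))))))) (T.c (T.b (T.l 1) (T.a (T.c (T.b (T.l 1) (T.a (T.a (T.l 884) (T.l 884)) (T.a (T.l 884) (T.l 884)))) (T.b (T.l 1) (T.a (T.a (T.l 884) (T.l 884)) (T.a (T.l 884) (T.l 884))))) (T.c (T.b (T.l 1) (T.a (T.a (T.l 884) (T.l 884)) (T.a (T.l 884) (T.l 884)))) (T.b (T.l 1) (T.a (T.a (T.l 884) (T.l 884)) (T.a (T.l 884) (T.l 884))))))) (T.b (T.l 1) (T.a (T.c (T.b (T.l 1) (T.a (T.a (T.l 884) (T.l 884)) (T.a (T.l 884) (T.l 884)))) (T.b (T.l 1) (T.a (T.a (T.l 884) (T.l 884)) (T.a (T.l 884) (T.l 884))))) (T.c (T.b (T.l 1) (T.a (T.a (T.l 884) (T.l 884)) (T.a (T.l 884) (T.l 884)))) (T.b (T.l 1) (T.a (T.a (T.l 884) (T.l 884)) (T.a (T.l 884) (T.l 884)))))))))) (T.b (T.l 1) (T.a (T.a (T.l 884) (T.c (T.b (T.l 1) (T.c (T.b (T.l 1) (T.a (T.a (T.l 884) (T.l 884)) (T.a (T.l 884) (T.l 884)))) (T.b (T.l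 1) (T.a (T.a (T.l 884) (T.l 884)) (T.a (T.l 884) (T.l 884)))))) (T.b (T.l 1) (T.c (T.b (T.l 1) (T.a (T.a (T.l 884) (T.l 884)) (T.a (T.l 884) (T.l 884)))) (T.b (T.l 1) (T.a (T.a (T.l 884) (T.l 884)) (T.a (T.l 884) (T.l 884)))))))) (T.c (T.b (T.l 1) (T.a (T.c (T.b (T.l 1) (T.a (T.a (T.l 884) (T.l 884)) (T.a (T.l 884) (T.l 884)))) (T.b (T.l 1) (T.a (T.a (T.l 884) (T.l 884)) (T.a (T.l 884) (T.l 884))))) (T.c (T.b (T.l 1) (T.a (T.a (T.l 884) (T.l 884)) (T.a (T.l 884) (T.l 884)))) (T.b (T.l 1) (T.a (T.a (T.l 884) (T.l 884)) (T.a (T.l 884) (T.l 884))))))) (T.b (T.l 1) (T.a (T.c (T.b (T.l 1) (T.a (T.a (T.l 884) (T.l 884)) (T.a (T.l 884) (T.l 884)))) (T.b (T.l 1) (T.a (T.a (T.l 884) (T.l 884)) (T.a (T.l 884) (T.l 884))))) (T.c (T.b (T.l 1) (T.a (T.a (T.l 884) (T.l 884)) (T.a (T.l 884) (T.l 884)))) (T.b (T.l 1)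 (T.a (T.a (T.l 884) (T.l 884)) (T.a (T.l 884) (T.l 884)))))))))))))) (T.a (T.c (T.a (T.a (T.c (T.l 1024) (T.a (T.b (T.l 1) (T.a (T.l 884) (T.l 1024))) (T.l 1024))) (T.l 1024)) (T.l 1024)) (T.b (T.l 1) (T.c (T.a (T.b (T.l 1) (T.c (T.a (T.b (T.l 1) (T.c (T.a (T.a (T.l 884) (T.l 884)) (T.l 1024)) (T.b (T.l 1) (T.a (T.a (T.l 884) (T.l 884)) (T.a (T.l 884) (T.l 1024)))))) (T.l 1024)) (T.b (T.l 1) (T.a (T.c (T.b (T.l 1) (T.a (T.a (T.l 884) (T.l 884)) (T.a (T.l 884) (T.l 884)))) (T.b (T.l 1) (T.a (T.a (T.l 884) (T.l 884)) (T.a (T.l 884) (T.l 884))))) (T.a (T.a (T.l 884) (T.l 884)) (T.l 1024)))))) (T.l 1024)) (T.b (T.l 1) (T.a (T.c (T.b (T.l 1) (T.a (T.c (T.b (T.l 1) (T.a (T.a (T.l 884) (T.l 884)) (T.a (T.l 884) (T.l 884)))) (T.b (T.l 1) (T.a (T.a (T.l 884) (T.l 884)) (T.a (T.l 884) (T.l 884))))) (T.c (T.b (T.l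 1) (T.a (T.a (T.l 884) (T.l 884)) (T.a (T.l 884) (T.l 1024)))) (T.b (T.l 1) (T.a (T.a (T.l 884) (T.l 884)) (T.a (T.l 884) (T.l 884))))))) (T.b (T.l 1) (T.a (T.c (T.b (T.l 1) (T.a (T.a (T.l 884) (T.l 884)) (T.a (T.l 884) (T.l 884)))) (T.b (T.l 1) (T.a (T.a (T.l 884) (T.l 884)) (T.a (T.l 884) (T.l 884))))) (T.c (T.b (T.l 1) (T.a (T.a (T.l 884) (T.l 884)) (T.a (T.l 884) (T.l 884)))) (T.b (T.l 1) (T.a (T.a (T.l 884) (T.l 884)) (T.a (T.l 884) (T.l 884)))))))) (T.a (T.c (T.a (T.a (T.l 884) (T.l 1024)) (T.l 1024)) (T.b (T.l 1) (T.c (T.a (T.a (T.l 884) (T.l 884)) (T.l 1024)) (T.b (T.l 1) (T.a (T.a (T.l 884) (T.l 884)) (T.a (T.l 884) (T.l 1024))))))) (T.l 1024))))))) (T.l 1024)))))))))))))), by decide +kernel⟩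

def A012L_003 :
    ∃ t, chk3 (onCell 0 50331648 0 1073741824 50331648 16777216 (corTK [] false 3 c0N cA012L gN0q0 gN0q1 gN3q2 gN4q2 false true)) t 1 1 1 = true :=
  ⟨(T.l 2), by decide +kernel⟩

def A012R_020 :
    ∃ t, chk3 (onCell 0 50331648 0 1073741824 50331648 16777216 (corTK [[⟨0, 0, 1, 33554432⟩, ⟨1, 1, 2, 33554432⟩, ⟨2, 1, 0, 16777216⟩, ⟨0, 0, 0, 83886080⟩, ⟨0, 1, 0, 1040187392⟩, ⟨1, 0, 0, 1040187392⟩, ⟨1, 1, 0, 83886080⟩]] false 3 c0N cA012R gN0q0 gN2q1 gN0q2 gN1q2 true true)) t 1 1 1 = true :=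
  ⟨(T.b (T.b (T.b (T.b (T.b (T.b (T.b (T.b (T.a (T.a (T.l 204) (T.c (T.b (T.c (T.b (T.a (T.a (T.l 204) (T.a (T.l 204) (T.l 204))) (T.c (T.b (T.a (T.a (T.l 204) (T.l 204)) (T.a (T.l 476) (T.l 476))) (T.l 2)) (T.b (T.a (T.a (T.l 204) (T.l 204)) (T.a (T.l 460) (T.l 476))) (T.l 2)))) (T.l 2)) (T.b (T.a (T.a (T.l 204) (T.a (T.l 204) (T.l 204))) (T.c (T.b (T.a (T.a (T.l 204) (T.l 204)) (T.a (T.l 204) (T.l 476))) (T.l 2)) (T.b (T.a (T.a (T.l 204) (T.l 204)) (T.a (T.l 204) (T.l 460))) (T.l 2)))) (T.l 2))) (T.l 2)) (T.b (T.c (T.b (T.a (T.a (T.l 204) (T.a (T.l 204) (T.l 204))) (T.c (T.b (T.a (T.a (T.l 204) (T.l 204)) (T.a (T.l 204) (T.l 460))) (T.l 2)) (T.b (T.a (T.a (T.l 204) (T.l 204)) (T.a (T.l 204) (T.l 460))) (T.l 2)))) (T.l 2)) (T.b (T.a (T.a (T.l 204) (T.a (T.l 204) (T.l 204))) (T.c (T.b (T.a (T.a (T.l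 204) (T.l 204)) (T.a (T.l 204) (T.l 460))) (T.l 2)) (T.b (T.a (T.a (T.l 204) (T.l 204)) (T.a (T.l 204) (T.l 460))) (T.l 2)))) (T.l 2))) (T.l 2)))) (T.a (T.c (T.b (T.c (T.b (T.a (T.c (T.b (T.a (T.a (T.l 476) (T.l 476)) (T.a (T.l 476) (T.a (T.l 476) (T.l 476)))) (T.l 2)) (T.b (T.a (T.a (T.l 476) (T.l 476)) (T.a (T.l 476) (T.l 476))) (T.l 2))) (T.a (T.c (T.b (T.c (T.a (T.l 476) (T.a (T.a (T.l 476) (T.l 476)) (T.l 1024))) (T.a (T.l 476) (T.a (T.a (T.l 476) (T.l 476)) (T.l 1024)))) (T.l 2)) (T.b (T.c (T.a (T.l 476) (T.a (T.a (T.l 476) (T.l 476)) (T.l 1024))) (T.a (T.l 476) (T.a (T.a (T.l 476) (T.l 476)) (T.l 1024)))) (T.l 2))) (T.l 1024))) (T.l 2)) (T.b (T.a (T.c (T.b (T.a (T.a (T.l 476) (T.l 476)) (T.a (T.l 476) (T.l 476))) (T.l 2)) (T.b (T.a (T.a (T.l 476) (T.l 476)) (T.a (T.l 476) (T.l 476))) (T.l 2)))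 (T.a (T.c (T.a (T.l 476) (T.a (T.a (T.l 476) (T.l 476)) (T.l 1024))) (T.a (T.l 476) (T.a (T.a (T.l 476) (T.l 476)) (T.l 1024)))) (T.l 1024))) (T.l 2))) (T.l 2)) (T.b (T.c (T.b (T.a (T.c (T.b (T.a (T.a (T.l 476) (T.l 476)) (T.a (T.l 476) (T.l 476))) (T.l 2)) (T.b (T.a (T.a (T.l 460) (T.l 476)) (T.a (T.l 476) (T.l 476))) (T.l 2))) (T.a (T.a (T.l 476) (T.a (T.a (T.l 476) (T.l 476)) (T.l 1024))) (T.l 1024))) (T.l 2)) (T.b (T.a (T.c (T.b (T.a (T.a (T.l 460) (T.l 476)) (T.a (T.l 476) (T.l 476))) (T.l 2)) (T.b (T.a (T.a (T.l 460) (T.l 460)) (T.a (T.l 476) (T.l 476))) (T.l 2))) (T.a (T.a (T.l 476) (T.a (T.a (T.l 476) (T.l 476)) (T.l 1024))) (T.l 1024))) (T.l 2))) (T.l 2))) (T.l 1024))) (T.l 2)) (T.l 2)) (T.l 2)) (T.l 2)) (T.l 2)) (T.l 2)) (T.l 2)) (T.l 2)), by decide +kernel⟩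

def A012R_021 :
    ∃ t, chk3 (onCell 0 50331648 0 1073741824 50331648 16777216 (corTK [[⟨0, 0, 1, 33554432⟩, ⟨1, 1, 2, 33554432⟩, ⟨2, 1, 0, 16777216⟩, ⟨0, 0, 0, 83886080⟩, ⟨0, 1, 0, 1040187392⟩, ⟨1, 0, 0, 1040187392⟩, ⟨1, 1, 0, 83886080⟩]] false 3 c0N cA012R gN0q0 gN2q1 gN1q2 gN2q2 true true)) t 1 1 1 = true :=
  ⟨(T.b (T.b (T.b (T.b (T.a (T.b (T.a (T.b (T.a (T.l 220) (T.l 204)) (T.l 204)) (T.b (T.b (T.b (T.c (T.b (T.c (T.b (T.a (T.a (T.l 204) (T.a (T.l 204) (T.l 204))) (T.c (T.b (T.a (T.a (T.l 204) (T.l 204)) (T.a (T.l 476) (T.l 476))) (T.l 2)) (T.b (T.a (T.a (T.l 204) (T.l 204)) (T.a (T.l 460) (T.l 476))) (T.l 2)))) (T.l 2)) (T.b (T.a (T.a (T.l 204) (T.a (T.l 204) (T.l 204))) (T.c (T.b (T.a (T.a (T.l 204) (T.l 204)) (T.a (T.l 204) (T.l 476))) (T.l 2)) (T.b (T.a (T.a (T.l 204) (T.l 204)) (T.a (T.l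 204) (T.l 460))) (T.l 2)))) (T.l 2))) (T.l 2)) (T.b (T.c (T.b (T.a (T.a (T.l 204) (T.a (T.l 204) (T.l 204))) (T.c (T.b (T.a (T.a (T.l 204) (T.l 204)) (T.a (T.l 204) (T.l 460))) (T.l 2)) (T.b (T.a (T.a (T.l 204) (T.l 204)) (T.a (T.l 204) (T.l 460))) (T.l 2)))) (T.l 2)) (T.b (T.a (T.a (T.l 204) (T.a (T.l 204) (T.l 204))) (T.c (T.b (T.a (T.a (T.l 204) (T.l 204)) (T.a (T.l 204) (T.l 460))) (T.l 2)) (T.b (T.a (T.a (T.l 204) (T.l 204)) (T.a (T.l 204) (T.l 460))) (T.l 2)))) (T.l 2))) (T.l 2))) (T.l 2)) (T.l 2)) (T.l 2))) (T.a (T.l 204) (T.l 2))) (T.b (T.a (T.b (T.b (T.b (T.c (T.b (T.c (T.b (T.a (T.c (T.b (T.a (T.a (T.l 476) (T.l 476)) (T.a (T.l 476) (T.a (T.l 476) (T.l 476)))) (T.l 2)) (T.b (T.a (T.a (T.l 476) (T.l 476)) (T.a (T.l 476) (T.l 476))) (T.l 2))) (T.a (T.c (T.b (T.c (T.a (T.l 476) (T.a (T.a (T.l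 476) (T.l 476)) (T.l 1024))) (T.a (T.l 476) (T.a (T.a (T.l 476) (T.l 476)) (T.l 1024)))) (T.l 2)) (T.b (T.a (T.l 476) (T.a (T.a (T.l 476) (T.l 476)) (T.l 1024))) (T.l 2))) (T.l 1024))) (T.l 2)) (T.b (T.a (T.c (T.b (T.a (T.a (T.l 476) (T.l 476)) (T.a (T.l 476) (T.l 476))) (T.l 2)) (T.b (T.a (T.a (T.l 476) (T.l 476)) (T.a (T.l 476) (T.l 476))) (T.l 2))) (T.a (T.c (T.a (T.l 476) (T.a (T.a (T.l 476) (T.l 476)) (T.l 1024))) (T.a (T.l 476) (T.a (T.a (T.l 476) (T.l 476)) (T.l 1024)))) (T.l 1024))) (T.l 2))) (T.l 2)) (T.b (T.c (T.b (T.a (T.c (T.b (T.a (T.a (T.l 476) (T.l 476)) (T.a (T.l 476) (T.l 476))) (T.l 2)) (T.b (T.a (T.a (T.l 460) (T.l 476)) (T.a (T.l 476) (T.l 476))) (T.l 2))) (T.a (T.a (T.l 476) (T.a (T.a (T.l 476) (T.l 476)) (T.l 1024))) (T.l 1024))) (T.l 2)) (T.b (T.a (T.c (T.b (T.a (T.a (T.l 460)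 (T.l 476)) (T.a (T.l 476) (T.l 476))) (T.l 2)) (T.b (T.a (T.a (T.l 460) (T.l 460)) (T.a (T.l 476) (T.l 476))) (T.l 2))) (T.a (T.a (T.l 476) (T.a (T.a (T.l 476) (T.l 476)) (T.l 1024))) (T.l 1024))) (T.l 2))) (T.l 2))) (T.l 2)) (T.l 2)) (T.l 2)) (T.l 1024)) (T.l 2))) (T.a (T.a (T.l 204) (T.l 2)) (T.l 2))) (T.a (T.a (T.l 204) (T.l 2)) (T.l 2))) (T.a (T.a (T.l 0) (T.l 2)) (T.l 2))) (T.a (T.a (T.l 0) (T.l 2)) (T.l 2))), by decide +kernel⟩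

def A012R_022 :
    ∃ t, chk3 (onCell 0 50331648 0 1073741824 50331648 16777216 (corTK [[⟨0, 0, 1, 33554432⟩, ⟨1, 1, 2, 33554432⟩, ⟨2, 1, 0, 16777216⟩, ⟨0, 0, 0, 83886080⟩, ⟨0, 1, 0, 1040187392⟩, ⟨1, 0, 0, 1040187392⟩, ⟨1, 1, 0, 83886080⟩]] false 3 c0N cA012R gN0q0 gN2q1 gN2q2 gN3q2 true false)) t 1 1 1 = true :=
  ⟨(T.b (T.b (T.b (T.b (T.a (T.b (T.a (T.b (T.a (T.l 220) (T.l 204)) (T.l 204)) (T.b (T.a (T.a (T.l 204) (T.b (T.a (T.c (T.l 204) (T.l 204)) (T.c (T.l 204) (T.l 204))) (T.a (T.l 204) (T.l 204)))) (T.b (T.c (T.b (T.a (T.a (T.l 204) (T.l 476)) (T.a (T.l 476) (T.c (T.l 476) (T.l 476)))) (T.a (T.a (T.l 204) (T.l 204)) (T.a (T.l 204) (T.l 460)))) (T.b (T.a (T.a (T.l 204) (T.l 460)) (T.a (T.l 460) (T.l 476))) (T.a (T.a (T.l 204) (T.l 204)) (T.a (T.l 204) (T.l 204))))) (T.a (T.a (T.l 204) (T.l 204))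 (T.a (T.l 460) (T.l 460))))) (T.a (T.a (T.l 204) (T.a (T.l 204) (T.l 204))) (T.a (T.c (T.l 460) (T.l 460)) (T.c (T.l 460) (T.l 460)))))) (T.a (T.l 204) (T.b (T.a (T.a (T.l 204) (T.l 460)) (T.a (T.l 460) (T.l 204))) (T.a (T.a (T.l 204) (T.l 204)) (T.a (T.l 204) (T.l 204)))))) (T.a (T.b (T.b (T.b (T.a (T.b (T.c (T.a (T.a (T.c (T.l 476) (T.l 476)) (T.a (T.l 476) (T.l 476))) (T.a (T.a (T.l 476) (T.c (T.l 476) (T.l 476))) (T.c (T.a (T.l 476) (T.l 476)) (T.a (T.l 476) (T.l 476))))) (T.a (T.a (T.c (T.l 476) (T.l 476)) (T.c (T.l 476) (T.l 476))) (T.a (T.a (T.l 476) (T.l 476)) (T.a (T.l 476) (T.l 476))))) (T.c (T.a (T.a (T.l 476) (T.l 476)) (T.a (T.l 476) (T.l 476))) (T.a (T.a (T.l 460) (T.l 460)) (T.a (T.l 460) (T.l 476))))) (T.a (T.b (T.c (T.b (T.c (T.a (T.a (T.l 476) (T.l 476)) (T.a (T.a (T.l 476) (T.c (T.l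 476) (T.l 476))) (T.l 1024))) (T.a (T.c (T.l 476) (T.l 476)) (T.a (T.a (T.l 476) (T.l 476)) (T.l 1024)))) (T.a (T.c (T.l 476) (T.l 476)) (T.a (T.a (T.l 476) (T.l 476)) (T.l 1024)))) (T.a (T.a (T.l 476) (T.l 476)) (T.a (T.a (T.l 476) (T.c (T.l 476) (T.l 476))) (T.l 1024)))) (T.a (T.c (T.l 476) (T.l 476)) (T.a (T.c (T.c (T.l 476) (T.l 476)) (T.l 476)) (T.c (T.c (T.l 476) (T.l 476)) (T.l 476))))) (T.l 1024))) (T.a (T.a (T.a (T.l 460) (T.l 476)) (T.a (T.c (T.l 460) (T.l 460)) (T.l 476))) (T.a (T.a (T.l 476) (T.a (T.l 476) (T.c (T.l 476) (T.l 476)))) (T.l 1024)))) (T.a (T.a (T.b (T.l 460) (T.l 460)) (T.c (T.l 460) (T.l 460))) (T.b (T.a (T.a (T.l 460) (T.a (T.l 204) (T.l 460))) (T.l 1024)) (T.a (T.a (T.l 204) (T.c (T.l 460) (T.l 460))) (T.a (T.c (T.l 460) (T.l 460)) (T.l 1024)))))) (T.b (T.a (T.a (T.l 204)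 (T.l 460)) (T.a (T.l 460) (T.a (T.b (T.l 460) (T.l 460)) (T.l 1024)))) (T.a (T.c (T.l 460) (T.l 460)) (T.a (T.l 204) (T.a (T.l 460) (T.l 1024)))))) (T.l 1024))) (T.a (T.a (T.l 204) (T.a (T.a (T.l 204) (T.b (T.l 204) (T.l 204))) (T.a (T.l 460) (T.l 460)))) (T.b (T.a (T.a (T.c (T.l 460) (T.l 460)) (T.a (T.l 204) (T.a (T.b (T.l 204) (T.l 204)) (T.b (T.l 204) (T.l 204))))) (T.l 1024)) (T.a (T.a (T.l 460) (T.a (T.l 204) (T.a (T.l 204) (T.l 460)))) (T.a (T.a (T.b (T.l 1024) (T.l 460)) (T.l 1024)) (T.l 1024)))))) (T.a (T.a (T.l 204) (T.a (T.a (T.l 204) (T.b (T.l 204) (T.l 204))) (T.a (T.l 460) (T.l 460)))) (T.b (T.a (T.a (T.l 460) (T.l 204)) (T.a (T.a (T.b (T.b (T.l 460) (T.l 204)) (T.l 460)) (T.b (T.l 1024) (T.l 460))) (T.l 1024))) (T.a (T.a (T.l 204) (T.l 204)) (T.b (T.a (T.a (T.l 204) (T.l 460)) (T.l 1024))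 (T.a (T.a (T.l 204) (T.l 460)) (T.b (T.l 1024) (T.l 256)))))))) (T.a (T.a (T.l 0) (T.b (T.a (T.l 204) (T.b (T.l 204) (T.l 0))) (T.l 0))) (T.b (T.a (T.a (T.l 256) (T.l 0)) (T.a (T.l 460) (T.b (T.a (T.b (T.l 204) (T.l 0)) (T.b (T.l 1024) (T.l 204))) (T.a (T.l 204) (T.b (T.l 0) (T.l 204)))))) (T.a (T.a (T.l 0) (T.l 0)) (T.b (T.l 0) (T.l 0)))))) (T.a (T.a (T.l 0) (T.b (T.a (T.l 0) (T.l 816)) (T.a (T.b (T.l 816) (T.l 816)) (T.l 816)))) (T.b (T.b (T.a (T.b (T.l 64) (T.l 64)) (T.b (T.l 0) (T.l 816))) (T.a (T.l 816) (T.a (T.l 816) (T.b (T.a (T.l 816) (T.b (T.l 816) (T.l 880))) (T.a (T.b (T.l 880) (T.l 816)) (T.b (T.l 816) (T.l 816))))))) (T.a (T.b (T.l 816) (T.a (T.l 816) (T.b (T.a (T.l 816) (T.a (T.b (T.l 816) (T.l 816)) (T.b (T.l 816) (T.l 816)))) (T.a (T.a (T.l 816) (T.b (T.l 816) (T.l 816))) (T.a (T.b (T.l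 816) (T.l 816)) (T.l 880)))))) (T.b (T.a (T.b (T.a (T.l 816) (T.b (T.l 880) (T.l 880))) (T.a (T.b (T.l 880) (T.l 880)) (T.b (T.l 880) (T.l 816)))) (T.b (T.a (T.b (T.l 816) (T.l 816)) (T.b (T.l 816) (T.l 816))) (T.a (T.b (T.l 816) (T.l 816)) (T.b (T.l 816) (T.l 816))))) (T.a (T.a (T.b (T.b (T.l 880) (T.l 880)) (T.b (T.l 880) (T.l 880))) (T.b (T.b (T.l 816) (T.l 816)) (T.b (T.l 816) (T.l 816)))) (T.b (T.a (T.b (T.l 816) (T.l 816)) (T.b (T.l 816) (T.l 816))) (T.a (T.b (T.l 816) (T.l 816)) (T.b (T.l 816) (T.l 816)))))))))), by decide +kernel⟩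

def A012R_030 :
    ∃ t, chk3 (onCell 0 50331648 0 1073741824 50331648 16777216 (corTK [] false 3 c0N cA012R gN0q0 gN3q1 gN0q2 gN1q2 true true)) t 1 1 1 = true :=
  ⟨(T.l 2), by decide +kernel⟩

def A012R_031 :
    ∃ t, chk3 (onCell 0 50331648 0 1073741824 50331648 16777216 (corTK [] false 3 c0N cA012R gN0q0 gN3q1 gN1q2 gN2q2 true true)) t 1 1 1 = true :=
  ⟨(T.b (T.l 2) (T.b (T.l 2) (T.b (T.l 2) (T.b (T.l 2) (T.a (T.a (T.l 816) (T.l 2)) (T.l 2)))))), by decide +kernel⟩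

end Pool.Agent.Strip051.G.I3_64_1_16.Tab.CN
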