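import Pool.Agent.Strip051.G.I3_64_1_16.Gn
import Pool.Agent.Strip051.PB.Corns
import Pool.Agent.Strip051.PB.CornK

/-! # Certificates of the aligned corners (generated) -/

set_option linter.all false

namespace Pool.Agent.Strip051.G.I3_64_1_16.Tab.CN

open Pool.Agent.Strip051.PB

def A012R_032 :
    ∃ t, chk3 (onCell 0 50331648 0 1073741824 50331648 16777216 (corTK [] false 3 c0N cA012R gN0q0 gN3q1 gN2q2 gN3q2 true false)) t 1 1 1 = true :=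
  ⟨(T.b (T.b (T.a (T.a (T.l 204) (T.a (T.b (T.a (T.l 204) (T.l 204)) (T.l 272)) (T.b (T.b (T.l 204) (T.l 204)) (T.l 0)))) (T.a (T.b (T.a (T.b (T.l 204) (T.l 204)) (T.b (T.l 204) (T.l 204))) (T.a (T.l 0) (T.l 0))) (T.b (T.b (T.a (T.l 220) (T.b (T.l 220) (T.l 204))) (T.b (T.l 204) (T.l 0))) (T.b (T.l 0) (T.l 0))))) (T.a (T.a (T.l 0) (T.a (T.l 0) (T.b (T.l 0) (T.l 816)))) (T.a (T.b (T.b (T.l 0) (T.l 0)) (T.b (T.l 64) (T.l 880))) (T.b (T.b (T.l 0) (T.l 816)) (T.l 64))))) (T.b (T.b (T.a (T.a (T.l 816) (T.l 816)) (T.a (T.b (T.l 880) (T.l 880)) (T.l 880))) (T.a (T.a (T.l 816) (T.a (T.l 816) (T.l 816))) (T.a (T.l 816) (T.a (T.l 816) (T.b (T.a (T.l 816) (T.b (T.l 816) (T.l 880))) (T.a (T.b (T.l 880) (T.l 880)) (T.b (T.l 880) (T.l 816)))))))) (T.b (T.a (T.a (T.l 816) (T.a (T.l 816) (T.l 816))) (T.a (T.l 816) (T.b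 (T.a (T.a (T.l 816) (T.b (T.l 880) (T.l 880))) (T.a (T.b (T.l 880) (T.l 816)) (T.b (T.l 816) (T.l 816)))) (T.a (T.a (T.a (T.b (T.l 816) (T.l 816)) (T.l 880)) (T.b (T.l 880) (T.l 816))) (T.a (T.b (T.l 816) (T.l 816)) (T.b (T.l 816) (T.l 816))))))) (T.a (T.a (T.l 816) (T.a (T.l 816) (T.l 816))) (T.b (T.a (T.a (T.l 816) (T.a (T.l 816) (T.a (T.b (T.l 816) (T.l 816)) (T.b (T.l 816) (T.l 816))))) (T.a (T.a (T.b (T.b (T.l 816) (T.l 816)) (T.l 880)) (T.b (T.l 816) (T.l 816))) (T.a (T.b (T.l 816) (T.l 816)) (T.b (T.l 816) (T.l 816))))) (T.a (T.a (T.l 816) (T.a (T.a (T.l 816) (T.b (T.l 816) (T.l 816))) (T.a (T.b (T.l 816) (T.l 816)) (T.l 880)))) (T.a (T.a (T.b (T.l 880) (T.l 880)) (T.b (T.l 816) (T.l 816))) (T.a (T.b (T.l 816) (T.l 816)) (T.b (T.l 816) (T.l 816)))))))))), by decide +kernel⟩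

def A012R_040 :
    ∃ t, chk3 (onCell 0 50331648 0 1073741824 50331648 16777216 (corTK [] false 3 c0N cA012R gN0q0 gN4q1 gN0q2 gN1q2 true true)) t 1 1 1 = true :=
  ⟨(T.l 2), by decide +kernel⟩

def A012R_041 :
    ∃ t, chk3 (onCell 0 50331648 0 1073741824 50331648 16777216 (corTK [] false 3 c0N cA012R gN0q0 gN4q1 gN1q2 gN2q2 true true)) t 1 1 1 = true :=
  ⟨(T.b (T.l 2) (T.b (T.l 2) (T.b (T.l 2) (T.b (T.l 2) (T.a (T.a (T.l 816) (T.l 2)) (T.l 2)))))), by decide +kernel⟩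

def A012R_042 :
    ∃ t, chk3 (onCell 0 50331648 0 1073741824 50331648 16777216 (corTK [] false 3 c0N cA012R gN0q0 gN4q1 gN2q2 gN3q2 true false)) t 1 1 1 = true :=
  ⟨(T.b (T.b (T.a (T.a (T.l 0) (T.a (T.l 0) (T.b (T.l 0) (T.l 0)))) (T.a (T.b (T.a (T.l 0) (T.l 0)) (T.b (T.l 0) (T.l 0))) (T.b (T.b (T.a (T.l 204) (T.l 204)) (T.l 0)) (T.l 0)))) (T.a (T.a (T.l 0) (T.l 64)) (T.a (T.b (T.l 64) (T.b (T.l 816) (T.l 816))) (T.b (T.l 64) (T.l 880))))) (T.b (T.b (T.a (T.a (T.l 816) (T.l 816)) (T.a (T.l 816) (T.l 880))) (T.b (T.b (T.a (T.a (T.l 816) (T.l 816)) (T.a (T.l 816) (T.l 816))) (T.a (T.a (T.l 816) (T.l 816)) (T.a (T.l 816) (T.a (T.l 816) (T.a (T.l 816) (T.l 816)))))) (T.b (T.a (T.a (T.l 816) (T.l 880)) (T.a (T.l 816) (T.a (T.l 816) (T.a (T.l 880) (T.l 816))))) (T.a (T.a (T.l 816) (T.l 880)) (T.a (T.l 816)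 (T.a (T.l 816) (T.a (T.l 880) (T.l 816)))))))) (T.b (T.b (T.b (T.a (T.a (T.l 816) (T.l 880)) (T.a (T.l 816) (T.a (T.a (T.l 816) (T.l 880)) (T.a (T.l 816) (T.l 816))))) (T.a (T.a (T.l 816) (T.l 880)) (T.a (T.l 816) (T.a (T.a (T.l 816) (T.l 880)) (T.a (T.l 816) (T.l 816)))))) (T.a (T.a (T.l 816) (T.a (T.l 816) (T.l 816))) (T.a (T.l 816) (T.a (T.a (T.b (T.l 880) (T.b (T.l 816) (T.l 816))) (T.b (T.l 880) (T.l 816))) (T.a (T.b (T.l 816) (T.l 816)) (T.b (T.l 816) (T.l 816))))))) (T.b (T.a (T.a (T.l 816) (T.a (T.l 816) (T.l 816))) (T.b (T.a (T.a (T.l 816) (T.a (T.l 816) (T.b (T.l 816) (T.l 816)))) (T.a (T.a (T.b (T.l 816) (T.l 816)) (T.l 816)) (T.a (T.l 816) (T.l 816)))) (T.a (T.a (T.l 816) (T.a (T.l 816) (T.b (T.l 816) (T.l 816)))) (T.a (T.a (T.l 880) (T.l 816)) (T.a (T.l 816) (T.l 816)))))) (T.a (T.a (T.l 816)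 (T.a (T.l 816) (T.l 816))) (T.b (T.a (T.a (T.l 816) (T.a (T.l 816) (T.b (T.l 816) (T.l 816)))) (T.a (T.a (T.l 880) (T.l 816)) (T.a (T.l 816) (T.l 816)))) (T.a (T.a (T.l 816) (T.a (T.a (T.l 816) (T.l 816)) (T.b (T.l 816) (T.l 816)))) (T.a (T.a (T.l 880) (T.l 816)) (T.a (T.l 816) (T.l 816)))))))))), by decide +kernel⟩

def A012R_120 :
    ∃ t, chk3 (onCell 0 50331648 0 1073741824 50331648 16777216 (corTK [] false 3 c0N cA012R gN1q0 gN2q1 gN0q2 gN1q2 true true)) t 1 1 1 = true :=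
  ⟨(T.b (T.l 1) (T.b (T.b (T.a (T.a (T.a (T.l 816) (T.l 816)) (T.l 816)) (T.l 816)) (T.a (T.a (T.a (T.l 816) (T.l 816)) (T.l 816)) (T.b (T.l 816) (T.l 816)))) (T.b (T.a (T.a (T.a (T.l 816) (T.l 816)) (T.l 816)) (T.b (T.l 816) (T.l 816))) (T.a (T.a (T.a (T.l 816) (T.l 816)) (T.l 816)) (T.b (T.l 816) (T.l 816)))))), by decide +kernel⟩

def A012R_121 :
    ∃ t, chk3 (onCell 0 50331648 0 1073741824 50331648 16777216 (corTK [] false 3 c0N cA012R gN1q0 gN2q1 gN1q2 gN2q2 true true)) t 1 1 1 = true :=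
  ⟨(T.l 1), by decide +kernel⟩

def A012R_122 :
    ∃ t, chk3 (onCell 0 50331648 0 1073741824 50331648 16777216 (corTK [] false 3 c0N cA012R gN1q0 gN2q1 gN2q2 gN3q2 true false)) t 1 1 1 = true :=
  ⟨(T.l 1), by decide +kernel⟩

def A012R_130 :
    ∃ t, chk3 (onCell 0 50331648 0 1073741824 50331648 16777216 (corTK [] false 3 c0N cA012R gN1q0 gN3q1 gN0q2 gN1q2 true true)) t 1 1 1 = true :=
  ⟨(T.b (T.b (T.l 1) (T.b (T.l 1) (T.a (T.a (T.l 1) (T.l 816)) (T.b (T.l 1) (T.l 816))))) (T.b (T.b (T.a (T.a (T.a (T.l 816) (T.l 816)) (T.l 816)) (T.l 816)) (T.a (T.a (T.a (T.l 816) (T.l 816)) (T.l 816)) (T.b (T.l 816) (T.l 816)))) (T.a (T.a (T.a (T.l 816) (T.l 0)) (T.b (T.l 816) (T.l 816))) (T.a (T.l 816) (T.l 816))))), by decide +kernel⟩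

def A012R_131 :
    ∃ t, chk3 (onCell 0 50331648 0 1073741824 50331648 16777216 (corTK [] false 3 c0N cA012R gN1q0 gN3q1 gN1q2 gN2q2 true true)) t 1 1 1 = true :=
  ⟨(T.l 1), by decide +kernel⟩

def A012R_132 :
    ∃ t, chk3 (onCell 0 50331648 0 1073741824 50331648 16777216 (corTK [] false 3 c0N cA012R gN1q0 gN3q1 gN2q2 gN3q2 true false)) t 1 1 1 = true :=
  ⟨(T.l 1), by decide +kernel⟩

def A012R_140 :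
    ∃ t, chk3 (onCell 0 50331648 0 1073741824 50331648 16777216 (corTK [] false 3 c0N cA012R gN1q0 gN4q1 gN0q2 gN1q2 true true)) t 1 1 1 = true :=
  ⟨(T.b (T.b (T.l 1) (T.b (T.b (T.a (T.l 1) (T.l 816)) (T.a (T.a (T.l 816) (T.l 816)) (T.l 816))) (T.a (T.a (T.l 816) (T.l 816)) (T.b (T.l 816) (T.l 816))))) (T.a (T.b (T.b (T.a (T.a (T.l 816) (T.l 816)) (T.l 816)) (T.a (T.a (T.l 816) (T.l 816)) (T.l 816))) (T.a (T.a (T.l 816) (T.l 0)) (T.b (T.l 816) (T.l 816)))) (T.b (T.a (T.l 816) (T.l 816)) (T.a (T.l 816) (T.l 816))))), by decide +kernel⟩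

def A012R_141 :
    ∃ t, chk3 (onCell 0 50331648 0 1073741824 50331648 16777216 (corTK [] false 3 c0N cA012R gN1q0 gN4q1 gN1q2 gN2q2 true true)) t 1 1 1 = true :=
  ⟨(T.l 1), by decide +kernel⟩

def A012R_142 :
    ∃ t, chk3 (onCell 0 50331648 0 1073741824 50331648 16777216 (corTK [] false 3 c0N cA012R gN1q0 gN4q1 gN2q2 gN3q2 true false)) t 1 1 1 = true :=
  ⟨(T.l 1), by decide +kernel⟩

def A012R_220 :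
    ∃ t, chk3 (onCell 0 50331648 0 1073741824 50331648 16777216 (corTK [] false 3 c0N cA012R gN2q0 gN2q1 gN0q2 gN1q2 true true)) t 1 1 1 = true :=
  ⟨(T.b (T.l 1) (T.b (T.l 1) (T.b (T.a (T.l 1) (T.l 816)) (T.a (T.a (T.a (T.l 816) (T.l 816)) (T.l 816)) (T.l 816))))), by decide +kernel⟩

def A012R_221 :
    ∃ t, chk3 (onCell 0 50331648 0 1073741824 50331648 16777216 (corTK [] false 3 c0N cA012R gN2q0 gN2q1 gN1q2 gN2q2 true true)) t 1 1 1 = true :=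
  ⟨(T.l 1), by decide +kernel⟩

def A012R_222 :
    ∃ t, chk3 (onCell 0 50331648 0 1073741824 50331648 16777216 (corTK [] false 3 c0N cA012R gN2q0 gN2q1 gN2q2 gN3q2 true false)) t 1 1 1 = true :=
  ⟨(T.l 1), by decide +kernel⟩

def A012R_230 :
    ∃ t, chk3 (onCell 0 50331648 0 1073741824 50331648 16777216 (corTK [] false 3 c0N cA012R gN2q0 gN3q1 gN0q2 gN1q2 true true)) t 1 1 1 = true :=
  ⟨(T.b (T.l 1) (T.b (T.l 1) (T.b (T.a (T.l 1) (T.l 816)) (T.a (T.a (T.a (T.l 816) (T.l 816)) (T.l 816)) (T.l 816))))), by decide +kernel⟩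

def A012R_231 :
    ∃ t, chk3 (onCell 0 50331648 0 1073741824 50331648 16777216 (corTK [] false 3 c0N cA012R gN2q0 gN3q1 gN1q2 gN2q2 true true)) t 1 1 1 = true :=
  ⟨(T.l 1), by decide +kernel⟩

def A012R_232 :
    ∃ t, chk3 (onCell 0 50331648 0 1073741824 50331648 16777216 (corTK [] false 3 c0N cA012R gN2q0 gN3q1 gN2q2 gN3q2 true false)) t 1 1 1 = true :=
  ⟨(T.l 1), by decide +kernel⟩

def A012R_240 :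
    ∃ t, chk3 (onCell 0 50331648 0 1073741824 50331648 16777216 (corTK [] false 3 c0N cA012R gN2q0 gN4q1 gN0q2 gN1q2 true true)) t 1 1 1 = true :=
  ⟨(T.b (T.l 1) (T.b (T.l 1) (T.a (T.a (T.a (T.l 816) (T.l 816)) (T.l 816)) (T.b (T.l 816) (T.l 816))))), by decide +kernel⟩

def A012R_241 :
    ∃ t, chk3 (onCell 0 50331648 0 1073741824 50331648 16777216 (corTK [] false 3 c0N cA012R gN2q0 gN4q1 gN1q2 gN2q2 true true)) t 1 1 1 = true :=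
  ⟨(T.l 1), by decide +kernel⟩

def A012R_242 :
    ∃ t, chk3 (onCell 0 50331648 0 1073741824 50331648 16777216 (corTK [] false 3 c0N cA012R gN2q0 gN4q1 gN2q2 gN3q2 true false)) t 1 1 1 = true :=
  ⟨(T.l 1), by decide +kernel⟩

def A022E_000 :
    ∃ t, chk3 (onCell 0 50331648 0 1073741824 50331648 16777216 (corTK [[⟨0, 0, 1, 25165824⟩, ⟨1, 1, 0, 8388608⟩, ⟨2, 1, 1, 25165824⟩, ⟨0, 0, 0, 83886080⟩, ⟨0, 1, 0, 1040187392⟩, ⟨2, 1, 0, 83886080⟩, ⟨2, 2, 0, 1040187392⟩]] false 3 c0N cA022E gN0q0 gN0q2 gN0q2 gN1q2 true true)) t 1 1 1 = true :=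
  ⟨(T.l 2), by decide +kernel⟩

def A022E_001 :
    ∃ t, chk3 (onCell 0 50331648 0 1073741824 50331648 16777216 (corTK [[⟨0, 0, 1, 25165824⟩, ⟨1, 1, 0, 8388608⟩, ⟨2, 1, 1, 25165824⟩, ⟨0, 0, 0, 83886080⟩, ⟨0, 1, 0, 1040187392⟩, ⟨2, 1, 0, 83886080⟩, ⟨2, 2, 0, 1040187392⟩]] false 3 c0N cA022E gN0q0 gN0q2 gN1q2 gN2q2 true true)) t 1 1 1 = true :=
  ⟨(T.b (T.l 2) (T.b (T.l 2) (T.b (T.l 2) (T.b (T.l 2) (T.b (T.l 2) (T.b (T.l 2) (T.b (T.l 2) (T.b (T.l 2) (T.a (T.a (T.l 816) (T.c (T.b (T.l 2) (T.c (T.b (T.l 2) (T.a (T.c (T.b (T.l 2) (T.a (T.a (T.l 816) (T.l 816)) (T.a (T.l 816) (T.l 816)))) (T.b (T.l 2) (T.a (T.a (T.l 816) (T.l 816)) (T.a (T.l 816) (T.l 816))))) (T.c (T.b (T.l 2) (T.a (T.a (T.l 816) (T.l 816)) (T.a (T.l 880) (T.l 884)))) (T.b (T.l 2) (T.a (T.a (T.l 816) (T.l 816)) (T.a (T.l 880) (T.l 880)))))))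 (T.b (T.l 2) (T.a (T.c (T.b (T.l 2) (T.a (T.a (T.l 816) (T.l 816)) (T.a (T.l 816) (T.l 816)))) (T.b (T.l 2) (T.a (T.a (T.l 816) (T.l 816)) (T.a (T.l 816) (T.l 816))))) (T.c (T.b (T.l 2) (T.a (T.a (T.l 816) (T.l 816)) (T.a (T.l 816) (T.l 880)))) (T.b (T.l 2) (T.a (T.a (T.l 816) (T.l 816)) (T.a (T.l 816) (T.l 816))))))))) (T.b (T.l 2) (T.c (T.b (T.l 2) (T.a (T.c (T.a (T.l 880) (T.a (T.l 816) (T.l 816))) (T.a (T.l 816) (T.a (T.l 816) (T.l 816)))) (T.c (T.b (T.l 2) (T.a (T.a (T.l 816) (T.l 816)) (T.a (T.l 816) (T.l 816)))) (T.b (T.l 2) (T.a (T.a (T.l 816) (T.l 816)) (T.a (T.l 816) (T.l 816))))))) (T.b (T.l 2) (T.a (T.a (T.l 816) (T.a (T.l 816) (T.l 816))) (T.c (T.b (T.l 2) (T.a (T.a (T.l 816) (T.l 816)) (T.a (T.l 816) (T.l 816)))) (T.b (T.l 2) (T.a (T.a (T.l 816) (T.l 816)) (T.a (T.l 816) (T.l 816)))))))))))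 (T.c (T.a (T.b (T.l 2) (T.c (T.b (T.l 2) (T.a (T.c (T.b (T.l 2) (T.a (T.a (T.l 884) (T.l 884)) (T.c (T.b (T.l 2) (T.a (T.a (T.l 884) (T.l 884)) (T.a (T.l 884) (T.l 884)))) (T.a (T.l 884) (T.a (T.l 884) (T.l 884)))))) (T.b (T.l 2) (T.a (T.a (T.l 884) (T.l 884)) (T.c (T.a (T.l 884) (T.a (T.l 884) (T.l 884))) (T.a (T.l 884) (T.a (T.l 884) (T.l 884))))))) (T.a (T.c (T.b (T.l 2) (T.c (T.b (T.l 2) (T.a (T.a (T.l 884) (T.l 884)) (T.a (T.a (T.l 884) (T.l 884)) (T.l 1024)))) (T.b (T.l 2) (T.a (T.a (T.l 884) (T.l 884)) (T.a (T.a (T.l 884) (T.l 884)) (T.l 1024)))))) (T.b (T.l 2) (T.c (T.b (T.l 2) (T.a (T.a (T.l 884) (T.l 884)) (T.a (T.a (T.l 884) (T.l 884)) (T.l 1024)))) (T.b (T.l 2) (T.a (T.a (T.l 884) (T.l 884)) (T.a (T.a (T.l 884) (T.l 884)) (T.l 1024))))))) (T.l 1024)))) (T.b (T.l 2) (T.a (T.c (T.b (T.l 2) (T.a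 (T.a (T.l 884) (T.l 884)) (T.a (T.l 884) (T.a (T.l 884) (T.l 884))))) (T.b (T.l 2) (T.a (T.a (T.l 884) (T.l 884)) (T.a (T.l 884) (T.a (T.l 884) (T.l 884)))))) (T.a (T.c (T.b (T.l 2) (T.c (T.b (T.l 2) (T.a (T.a (T.l 884) (T.l 884)) (T.a (T.a (T.l 884) (T.l 884)) (T.l 1024)))) (T.b (T.l 2) (T.a (T.a (T.l 884) (T.l 884)) (T.a (T.a (T.l 884) (T.l 884)) (T.l 1024)))))) (T.b (T.l 2) (T.c (T.b (T.l 2) (T.a (T.a (T.l 884) (T.l 884)) (T.a (T.a (T.l 884) (T.l 884)) (T.l 1024)))) (T.b (T.l 2) (T.a (T.a (T.l 884) (T.l 884)) (T.a (T.a (T.l 884) (T.l 884)) (T.l 1024))))))) (T.l 1024)))))) (T.l 1024)) (T.b (T.l 2) (T.a (T.c (T.b (T.l 2) (T.a (T.c (T.b (T.l 2) (T.a (T.a (T.l 880) (T.l 884)) (T.a (T.l 884) (T.l 884)))) (T.b (T.l 2) (T.a (T.a (T.l 816) (T.l 884)) (T.a (T.l 884) (T.l 884))))) (T.c (T.b (T.l 2) (T.a (T.c (T.b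 (T.l 2) (T.a (T.l 884) (T.a (T.a (T.l 884) (T.l 884)) (T.l 884)))) (T.a (T.l 884) (T.a (T.a (T.l 884) (T.l 884)) (T.l 884)))) (T.a (T.c (T.a (T.l 884) (T.l 1024)) (T.a (T.l 884) (T.l 884))) (T.l 1024)))) (T.b (T.l 2) (T.a (T.c (T.a (T.l 884) (T.a (T.a (T.l 884) (T.l 884)) (T.l 884))) (T.a (T.l 884) (T.a (T.a (T.l 884) (T.l 884)) (T.l 884)))) (T.c (T.b (T.l 2) (T.a (T.a (T.l 884) (T.l 884)) (T.a (T.l 884) (T.l 1024)))) (T.b (T.l 2) (T.a (T.a (T.l 884) (T.l 884)) (T.a (T.l 884) (T.l 884)))))))))) (T.b (T.l 2) (T.a (T.c (T.b (T.l 2) (T.a (T.a (T.l 816) (T.l 880)) (T.a (T.l 884) (T.l 884)))) (T.b (T.l 2) (T.a (T.a (T.l 816) (T.l 816)) (T.a (T.l 884) (T.l 884))))) (T.c (T.b (T.l 2) (T.a (T.a (T.l 884) (T.a (T.c (T.l 884) (T.l 884)) (T.l 884))) (T.c (T.b (T.l 2) (T.a (T.a (T.l 884) (T.l 884)) (T.a (T.l 884) (T.l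 884)))) (T.b (T.l 2) (T.a (T.a (T.l 884) (T.l 884)) (T.a (T.l 884) (T.l 884))))))) (T.b (T.l 2) (T.a (T.a (T.l 884) (T.a (T.l 884) (T.l 884))) (T.c (T.b (T.l 2) (T.a (T.a (T.l 884) (T.l 884)) (T.a (T.l 884) (T.l 884)))) (T.b (T.l 2) (T.a (T.a (T.l 884) (T.l 884)) (T.a (T.l 884) (T.l 884))))))))))) (T.a (T.c (T.a (T.a (T.c (T.l 1024) (T.a (T.l 884) (T.l 1024))) (T.l 1024)) (T.l 1024)) (T.b (T.l 2) (T.c (T.a (T.b (T.l 2) (T.c (T.a (T.a (T.l 884) (T.l 884)) (T.l 1024)) (T.b (T.l 2) (T.a (T.a (T.l 884) (T.l 884)) (T.a (T.l 884) (T.l 1024)))))) (T.l 1024)) (T.b (T.l 2) (T.a (T.c (T.b (T.l 2) (T.a (T.a (T.l 884) (T.l 884)) (T.a (T.l 884) (T.l 884)))) (T.b (T.l 2) (T.a (T.a (T.l 884) (T.l 884)) (T.a (T.l 884) (T.l 884))))) (T.a (T.a (T.l 884) (T.l 884)) (T.l 1024))))))) (T.l 1024)))))))))))))), by decide +kernel⟩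

def A022E_002_1_2_1 :
    ∃ t, chk3 (onCell 0 50331648 0 1073741824 50331648 16777216 (corTK [[⟨0, 0, 1, 25165824⟩, ⟨1, 1, 0, 8388608⟩, ⟨2, 1, 1, 25165824⟩, ⟨0, 0, 0, 83886080⟩, ⟨0, 1, 0, 1040187392⟩, ⟨2, 1, 0, 83886080⟩, ⟨2, 2, 0, 1040187392⟩]] false 3 c0N cA022E gN0q0 gN0q2 gN2q2 gN3q2 true false)) t 1 2 1 = true :=
  ⟨(T.b (T.a (T.a (T.a (T.l 0) (T.a (T.b (T.a (T.l 204) (T.l 204)) (T.a (T.l 204) (T.l 0))) (T.b (T.b (T.l 204) (T.l 204)) (T.b (T.l 204) (T.l 204))))) (T.a (T.a (T.b (T.b (T.l 204) (T.l 204)) (T.l 204)) (T.b (T.b (T.l 204) (T.l 204)) (T.b (T.l 204) (T.l 204)))) (T.b (T.a (T.b (T.l 204) (T.l 204)) (T.b (T.l 204) (T.l 204))) (T.a (T.b (T.l 204) (T.l 204)) (T.b (T.l 204) (T.l 204)))))) (T.a (T.a (T.b (T.a (T.b (T.l 204) (T.l 204)) (T.l 460)) (T.b (T.l 476) (T.l 476))) (T.b (T.a (T.b (T.l 204)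 (T.l 204)) (T.b (T.l 204) (T.l 204))) (T.a (T.b (T.l 204) (T.l 204)) (T.l 476)))) (T.a (T.b (T.a (T.b (T.l 204) (T.l 204)) (T.l 460)) (T.a (T.l 460) (T.l 460))) (T.b (T.a (T.b (T.l 204) (T.l 204)) (T.l 460)) (T.b (T.l 460) (T.l 460)))))) (T.a (T.a (T.a (T.l 0) (T.a (T.b (T.b (T.l 0) (T.l 0)) (T.l 0)) (T.b (T.b (T.l 0) (T.l 0)) (T.l 20)))) (T.a (T.b (T.a (T.l 0) (T.l 0)) (T.b (T.l 16) (T.l 0))) (T.b (T.a (T.b (T.l 204) (T.l 204)) (T.b (T.l 204) (T.l 204))) (T.b (T.l 0) (T.l 0))))) (T.a (T.a (T.b (T.b (T.l 476) (T.l 476)) (T.b (T.l 476) (T.b (T.l 204) (T.l 204)))) (T.b (T.a (T.b (T.l 204) (T.l 204)) (T.l 476)) (T.a (T.b (T.l 204) (T.l 204)) (T.b (T.l 204) (T.l 204))))) (T.b (T.a (T.a (T.b (T.l 204) (T.l 204)) (T.l 476)) (T.b (T.l 476) (T.l 476))) (T.a (T.a (T.b (T.l 204) (T.l 204)) (T.b (T.l 204) (T.l 204)))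 (T.b (T.l 476) (T.l 476))))))), by decide +kernel⟩

def A022E_002_1_6_1 :
    ∃ t, chk3 (onCell 0 50331648 0 1073741824 50331648 16777216 (corTK [[⟨0, 0, 1, 25165824⟩, ⟨1, 1, 0, 8388608⟩, ⟨2, 1, 1, 25165824⟩, ⟨0, 0, 0, 83886080⟩, ⟨0, 1, 0, 1040187392⟩, ⟨2, 1, 0, 83886080⟩, ⟨2, 2, 0, 1040187392⟩]] false 3 c0N cA022E gN0q0 gN0q2 gN2q2 gN3q2 true false)) t 1 6 1 = true :=
  ⟨(T.b (T.a (T.a (T.l 816) (T.a (T.a (T.l 4) (T.l 0)) (T.b (T.l 0) (T.l 0)))) (T.a (T.a (T.b (T.l 0) (T.l 0)) (T.a (T.b (T.l 0) (T.l 0)) (T.b (T.l 204) (T.l 0)))) (T.a (T.b (T.b (T.l 272) (T.l 272)) (T.b (T.l 272) (T.l 272))) (T.b (T.l 476) (T.b (T.l 460) (T.l 256)))))) (T.b (T.a (T.a (T.l 816) (T.a (T.b (T.l 0) (T.l 816)) (T.b (T.l 0) (T.l 0)))) (T.a (T.a (T.l 0) (T.a (T.l 0) (T.l 0))) (T.a (T.b (T.l 272) (T.l 272)) (T.b (T.l 256) (T.l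 272))))) (T.a (T.a (T.l 816) (T.a (T.l 816) (T.b (T.l 816) (T.l 816)))) (T.a (T.a (T.l 68) (T.a (T.l 0) (T.l 0))) (T.a (T.b (T.l 336) (T.l 340)) (T.b (T.l 256) (T.l 256))))))), by decide +kernel⟩

def A022E_002_1_14_1 :
    ∃ t, chk3 (onCell 0 50331648 0 1073741824 50331648 16777216 (corTK [[⟨0, 0, 1, 25165824⟩, ⟨1, 1, 0, 8388608⟩, ⟨2, 1, 1, 25165824⟩, ⟨0, 0, 0, 83886080⟩, ⟨0, 1, 0, 1040187392⟩, ⟨2, 1, 0, 83886080⟩, ⟨2, 2, 0, 1040187392⟩]] false 3 c0N cA022E gN0q0 gN0q2 gN2q2 gN3q2 true false)) t 1 14 1 = true :=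
  ⟨(T.b (T.b (T.b (T.a (T.a (T.l 816) (T.a (T.l 816) (T.l 816))) (T.a (T.a (T.l 816) (T.a (T.l 816) (T.l 816))) (T.a (T.l 320) (T.l 0)))) (T.b (T.a (T.a (T.l 816) (T.a (T.l 816) (T.l 816))) (T.a (T.a (T.l 816) (T.a (T.l 816) (T.l 816))) (T.a (T.l 0) (T.l 0)))) (T.a (T.a (T.l 816) (T.a (T.l 816) (T.l 816))) (T.a (T.a (T.l 816) (T.a (T.l 816) (T.l 816))) (T.a (T.l 64) (T.l 0)))))) (T.b (T.b (T.a (T.a (T.l 816) (T.a (T.l 816) (T.l 816))) (T.a (T.a (T.l 816) (T.a (T.l 816) (T.l 816))) (T.a (T.l 64) (T.l 0)))) (T.a (T.a (T.l 816) (T.a (T.l 816) (T.l 816))) (T.a (T.a (T.l 816) (T.a (T.l 816) (T.l 816))) (T.a (T.l 68) (T.l 0))))) (T.b (T.a (T.a (T.l 816) (T.a (T.l 816) (T.l 816))) (T.a (T.a (T.l 816) (T.a (T.l 816) (T.l 816))) (T.a (T.l 68) (T.l 0)))) (T.a (T.a (T.l 816) (T.a (T.l 816) (T.l 816))) (T.a (T.a (T.l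 816) (T.a (T.l 816) (T.l 816))) (T.a (T.l 68) (T.l 0))))))) (T.b (T.b (T.b (T.a (T.a (T.l 816) (T.a (T.l 816) (T.l 816))) (T.a (T.a (T.l 816) (T.a (T.l 816) (T.l 816))) (T.a (T.l 68) (T.l 816)))) (T.b (T.a (T.a (T.l 816) (T.a (T.l 816) (T.l 816))) (T.a (T.a (T.l 816) (T.a (T.l 816) (T.l 816))) (T.a (T.l 68) (T.l 816)))) (T.a (T.a (T.l 816) (T.a (T.l 816) (T.l 816))) (T.a (T.a (T.l 816) (T.a (T.l 816) (T.l 816))) (T.a (T.l 68) (T.l 816)))))) (T.b (T.b (T.a (T.a (T.l 816) (T.a (T.l 816) (T.l 816))) (T.a (T.a (T.l 816) (T.a (T.l 816) (T.l 816))) (T.a (T.l 68) (T.l 816)))) (T.a (T.a (T.l 816) (T.a (T.l 816) (T.l 816))) (T.a (T.a (T.l 816) (T.a (T.l 816) (T.l 816))) (T.a (T.c (T.l 0) (T.l 0)) (T.l 816))))) (T.b (T.a (T.a (T.l 816) (T.a (T.l 816) (T.l 816))) (T.a (T.a (T.l 816) (T.a (T.l 816) (T.l 816))) (T.a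 (T.c (T.l 64) (T.l 0)) (T.l 880)))) (T.a (T.a (T.l 816) (T.a (T.l 816) (T.l 816))) (T.a (T.a (T.l 816) (T.a (T.l 816) (T.l 816))) (T.a (T.c (T.l 64) (T.l 0)) (T.l 880))))))) (T.b (T.b (T.b (T.a (T.a (T.l 816) (T.a (T.l 816) (T.l 816))) (T.a (T.a (T.l 816) (T.a (T.l 816) (T.l 816))) (T.a (T.c (T.l 64) (T.l 0)) (T.l 880)))) (T.a (T.a (T.l 816) (T.a (T.l 816) (T.l 816))) (T.a (T.a (T.l 816) (T.a (T.l 816) (T.l 816))) (T.a (T.c (T.l 880) (T.l 816)) (T.l 880))))) (T.b (T.a (T.a (T.l 816) (T.a (T.l 816) (T.l 816))) (T.a (T.a (T.l 816) (T.a (T.l 816) (T.l 816))) (T.a (T.c (T.l 884) (T.l 816)) (T.l 880)))) (T.a (T.a (T.l 816) (T.a (T.l 816) (T.l 816))) (T.a (T.a (T.l 816) (T.a (T.l 816) (T.l 816))) (T.a (T.c (T.l 884) (T.l 816)) (T.l 884)))))) (T.b (T.b (T.a (T.a (T.l 816) (T.a (T.l 816) (T.l 816))) (T.a (T.a (T.l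 816) (T.a (T.l 816) (T.l 816))) (T.a (T.c (T.l 884) (T.l 880)) (T.l 884)))) (T.a (T.a (T.l 816) (T.a (T.l 816) (T.l 816))) (T.a (T.a (T.l 816) (T.a (T.l 816) (T.l 816))) (T.a (T.c (T.l 884) (T.l 884)) (T.l 884))))) (T.b (T.a (T.a (T.l 816) (T.a (T.l 816) (T.l 816))) (T.a (T.a (T.l 816) (T.a (T.l 816) (T.l 816))) (T.a (T.c (T.l 884) (T.l 884)) (T.l 884)))) (T.a (T.a (T.l 816) (T.a (T.l 820) (T.l 816))) (T.a (T.a (T.l 816) (T.a (T.l 816) (T.l 816))) (T.a (T.c (T.l 884) (T.l 884)) (T.l 884))))))))), by decide +kernel⟩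

def A022E_002_1_30_1 :
    ∃ t, chk3 (onCell 0 50331648 0 1073741824 50331648 16777216 (corTK [[⟨0, 0, 1, 25165824⟩, ⟨1, 1, 0, 8388608⟩, ⟨2, 1, 1, 25165824⟩, ⟨0, 0, 0, 83886080⟩, ⟨0, 1, 0, 1040187392⟩, ⟨2, 1, 0, 83886080⟩, ⟨2, 2, 0, 1040187392⟩]] false 3 c0N cA022E gN0q0 gN0q2 gN2q2 gN3q2 true false)) t 1 30 1 = true :=
  ⟨(T.b (T.b (T.b (T.b (T.a (T.a (T.l 816) (T.a (T.l 820) (T.l 816))) (T.a (T.a (T.l 816) (T.a (T.l 816) (T.l 816))) (T.a (T.c (T.l 884) (T.l 884)) (T.l 884)))) (T.a (T.a (T.l 816) (T.a (T.l 820) (T.l 816))) (T.a (T.a (T.l 816) (T.a (T.l 816) (T.l 816))) (T.a (T.c (T.l 884) (T.l 884)) (T.l 884))))) (T.b (T.a (T.a (T.l 816) (T.a (T.l 820) (T.l 816))) (T.a (T.a (T.l 816) (T.a (T.l 816) (T.l 816))) (T.a (T.c (T.l 884) (T.l 884)) (T.l 884)))) (T.a (T.a (T.l 816) (T.a (T.c (T.l 816) (T.l 816))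 (T.l 816))) (T.a (T.a (T.l 816) (T.a (T.l 816) (T.l 816))) (T.a (T.c (T.l 884) (T.l 884)) (T.l 884)))))) (T.b (T.b (T.a (T.a (T.l 816) (T.a (T.c (T.l 816) (T.l 816)) (T.l 816))) (T.a (T.a (T.l 816) (T.a (T.l 820) (T.l 816))) (T.a (T.c (T.l 1024) (T.l 884)) (T.l 884)))) (T.a (T.a (T.l 816) (T.a (T.c (T.l 820) (T.l 816)) (T.l 816))) (T.a (T.a (T.l 816) (T.a (T.l 884) (T.l 816))) (T.c (T.l 1024) (T.a (T.l 884) (T.l 816)))))) (T.b (T.a (T.a (T.l 816) (T.a (T.c (T.l 820) (T.l 816)) (T.l 816))) (T.a (T.a (T.l 816) (T.a (T.l 884) (T.l 816))) (T.c (T.l 1024) (T.a (T.a (T.l 816) (T.l 816)) (T.l 880))))) (T.a (T.a (T.l 816) (T.a (T.c (T.l 820) (T.l 820)) (T.l 816))) (T.a (T.a (T.l 816) (T.a (T.l 884) (T.l 816))) (T.c (T.l 1024) (T.a (T.a (T.l 816) (T.l 816)) (T.l 880)))))))) (T.b (T.b (T.b (T.a (T.a (T.l 816) (T.a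 (T.a (T.l 816) (T.l 816)) (T.l 816))) (T.a (T.a (T.l 816) (T.a (T.l 884) (T.l 816))) (T.c (T.l 1024) (T.a (T.a (T.l 816) (T.l 816)) (T.l 884))))) (T.a (T.a (T.l 816) (T.a (T.a (T.l 816) (T.l 816)) (T.l 816))) (T.a (T.a (T.l 816) (T.a (T.l 884) (T.l 816))) (T.c (T.l 1024) (T.a (T.a (T.l 816) (T.l 816)) (T.l 884)))))) (T.b (T.a (T.a (T.l 816) (T.a (T.a (T.l 816) (T.l 816)) (T.l 816))) (T.a (T.a (T.l 816) (T.a (T.l 884) (T.l 816))) (T.c (T.l 1024) (T.a (T.a (T.l 816) (T.l 816)) (T.l 884))))) (T.a (T.a (T.l 816) (T.a (T.a (T.l 816) (T.l 816)) (T.l 816))) (T.a (T.a (T.l 816) (T.a (T.c (T.l 820) (T.l 816)) (T.l 816))) (T.c (T.l 1024) (T.a (T.a (T.l 816) (T.l 816)) (T.l 884))))))) (T.b (T.b (T.a (T.a (T.l 816) (T.a (T.a (T.l 816) (T.l 816)) (T.l 820))) (T.a (T.a (T.l 816) (T.a (T.c (T.l 884) (T.l 820)) (T.l 884)))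 (T.c (T.l 1024) (T.a (T.a (T.l 816) (T.l 816)) (T.l 884))))) (T.a (T.a (T.l 816) (T.a (T.a (T.l 816) (T.l 816)) (T.l 820))) (T.a (T.a (T.l 816) (T.a (T.c (T.l 884) (T.l 820)) (T.l 884))) (T.c (T.l 1024) (T.a (T.a (T.l 816) (T.l 816)) (T.l 884)))))) (T.b (T.a (T.a (T.l 816) (T.a (T.a (T.l 816) (T.l 816)) (T.l 820))) (T.a (T.a (T.l 816) (T.a (T.c (T.l 884) (T.l 884)) (T.l 884))) (T.c (T.l 1024) (T.a (T.a (T.l 816) (T.l 816)) (T.l 884))))) (T.a (T.a (T.l 816) (T.a (T.a (T.l 816) (T.l 816)) (T.l 820))) (T.a (T.a (T.l 816) (T.a (T.c (T.l 884) (T.l 884)) (T.l 884))) (T.c (T.l 1024) (T.a (T.a (T.l 816) (T.l 816)) (T.a (T.l 816) (T.l 1024)))))))))), by decide +kernel⟩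

def A022E_002_1_31_1 :
    ∃ t, chk3 (onCell 0 50331648 0 1073741824 50331648 16777216 (corTK [[⟨0, 0, 1, 25165824⟩, ⟨1, 1, 0, 8388608⟩, ⟨2, 1, 1, 25165824⟩, ⟨0, 0, 0, 83886080⟩, ⟨0, 1, 0, 1040187392⟩, ⟨2, 1, 0, 83886080⟩, ⟨2, 2, 0, 1040187392⟩]] false 3 c0N cA022E gN0q0 gN0q2 gN2q2 gN3q2 true false)) t 1 31 1 = true :=
  ⟨(T.b (T.b (T.b (T.b (T.a (T.a (T.l 816) (T.a (T.a (T.l 816) (T.l 816)) (T.c (T.l 820) (T.l 816)))) (T.a (T.a (T.l 816) (T.a (T.c (T.l 884) (T.l 884)) (T.l 884))) (T.c (T.l 1024) (T.a (T.a (T.l 816) (T.l 816)) (T.a (T.l 816) (T.l 1024)))))) (T.a (T.a (T.l 816) (T.a (T.a (T.l 816) (T.l 816)) (T.c (T.l 820) (T.l 816)))) (T.a (T.a (T.l 820) (T.a (T.a (T.l 816) (T.l 816)) (T.l 884))) (T.c (T.l 1024) (T.a (T.a (T.l 816) (T.l 816)) (T.a (T.l 816) (T.l 1024))))))) (T.b (T.a (T.a (T.l 816) (T.a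 (T.a (T.l 816) (T.l 816)) (T.c (T.l 820) (T.l 820)))) (T.a (T.a (T.c (T.l 884) (T.l 820)) (T.a (T.a (T.l 816) (T.l 816)) (T.c (T.l 884) (T.l 816)))) (T.c (T.l 1024) (T.a (T.a (T.l 816) (T.l 816)) (T.a (T.l 816) (T.l 1024)))))) (T.a (T.a (T.l 816) (T.a (T.a (T.l 816) (T.l 816)) (T.a (T.l 816) (T.l 816)))) (T.a (T.a (T.c (T.l 884) (T.l 884)) (T.a (T.a (T.l 816) (T.l 816)) (T.c (T.l 884) (T.l 884)))) (T.c (T.l 1024) (T.a (T.a (T.l 816) (T.l 816)) (T.a (T.l 816) (T.l 1024)))))))) (T.b (T.b (T.a (T.a (T.l 816) (T.a (T.a (T.l 816) (T.l 816)) (T.a (T.l 816) (T.l 816)))) (T.a (T.a (T.a (T.l 816) (T.l 816)) (T.a (T.a (T.l 816) (T.l 816)) (T.c (T.l 884) (T.l 884)))) (T.a (T.a (T.l 884) (T.l 884)) (T.l 1024)))) (T.a (T.a (T.l 816) (T.a (T.a (T.l 816) (T.l 816)) (T.a (T.l 816) (T.l 816)))) (T.a (T.a (T.a (T.l 816)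 (T.l 816)) (T.a (T.a (T.l 816) (T.l 816)) (T.c (T.l 884) (T.l 884)))) (T.a (T.a (T.c (T.l 1024) (T.l 884)) (T.l 884)) (T.l 1024))))) (T.b (T.a (T.a (T.l 816) (T.a (T.a (T.l 816) (T.l 816)) (T.a (T.l 816) (T.l 816)))) (T.a (T.a (T.a (T.l 816) (T.l 816)) (T.a (T.a (T.l 816) (T.l 820)) (T.c (T.l 884) (T.l 884)))) (T.a (T.a (T.c (T.l 1024) (T.l 884)) (T.l 884)) (T.l 1024)))) (T.a (T.a (T.l 816) (T.a (T.a (T.l 816) (T.l 816)) (T.a (T.l 816) (T.l 816)))) (T.a (T.a (T.a (T.l 816) (T.l 816)) (T.a (T.a (T.l 816) (T.l 884)) (T.a (T.l 816) (T.l 816)))) (T.a (T.c (T.l 1024) (T.a (T.l 884) (T.l 884))) (T.l 1024))))))) (T.b (T.b (T.b (T.a (T.a (T.l 816) (T.a (T.a (T.l 816) (T.l 816)) (T.a (T.l 816) (T.l 816)))) (T.a (T.a (T.a (T.l 816) (T.l 884)) (T.a (T.a (T.l 816) (T.l 884)) (T.a (T.l 884) (T.l 884)))) (T.a (T.c (T.l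 1024) (T.a (T.l 884) (T.l 884))) (T.l 1024)))) (T.a (T.a (T.l 816) (T.a (T.a (T.l 816) (T.l 816)) (T.a (T.l 816) (T.l 816)))) (T.a (T.a (T.a (T.l 816) (T.l 884)) (T.a (T.a (T.l 816) (T.l 884)) (T.a (T.l 884) (T.l 884)))) (T.a (T.c (T.l 1024) (T.a (T.c (T.l 884) (T.l 884)) (T.l 884))) (T.l 1024))))) (T.b (T.a (T.a (T.l 816) (T.a (T.a (T.l 816) (T.l 880)) (T.a (T.l 816) (T.l 816)))) (T.a (T.a (T.a (T.l 820) (T.l 884)) (T.a (T.a (T.l 816) (T.c (T.l 884) (T.l 884))) (T.a (T.l 884) (T.l 884)))) (T.a (T.c (T.l 1024) (T.a (T.c (T.l 884) (T.l 884)) (T.l 884))) (T.l 1024)))) (T.a (T.a (T.l 816) (T.a (T.a (T.l 880) (T.c (T.l 816) (T.l 816))) (T.a (T.l 884) (T.l 884)))) (T.a (T.a (T.a (T.l 884) (T.c (T.l 884) (T.l 820))) (T.a (T.a (T.l 884) (T.c (T.l 884) (T.l 884))) (T.a (T.l 884) (T.l 884)))) (T.a (T.c (T.l 1024)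 (T.a (T.a (T.l 884) (T.l 884)) (T.c (T.l 1024) (T.l 884)))) (T.l 1024)))))) (T.b (T.b (T.a (T.a (T.l 816) (T.a (T.a (T.c (T.l 816) (T.l 816)) (T.c (T.l 880) (T.l 816))) (T.a (T.c (T.l 816) (T.l 816)) (T.l 884)))) (T.a (T.a (T.a (T.l 884) (T.c (T.l 884) (T.l 884))) (T.a (T.a (T.l 884) (T.a (T.l 884) (T.l 884))) (T.c (T.l 1024) (T.a (T.l 884) (T.l 884))))) (T.a (T.c (T.l 1024) (T.a (T.a (T.l 884) (T.l 884)) (T.a (T.l 884) (T.l 884)))) (T.l 1024)))) (T.a (T.a (T.l 816) (T.a (T.a (T.c (T.l 880) (T.l 816)) (T.a (T.l 816) (T.l 816))) (T.a (T.c (T.l 884) (T.l 816)) (T.c (T.l 884) (T.l 820))))) (T.c (T.a (T.a (T.a (T.l 884) (T.c (T.l 884) (T.l 884))) (T.a (T.a (T.l 884) (T.a (T.l 884) (T.l 884))) (T.l 1024))) (T.l 1024)) (T.a (T.a (T.a (T.l 884) (T.c (T.l 884) (T.l 884))) (T.a (T.a (T.l 884) (T.a (T.l 884) (T.l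 884))) (T.a (T.c (T.l 884) (T.l 884)) (T.l 884)))) (T.a (T.a (T.a (T.l 884) (T.l 884)) (T.a (T.l 884) (T.l 1024))) (T.l 1024)))))) (T.b (T.a (T.a (T.l 816) (T.a (T.a (T.a (T.l 816) (T.l 816)) (T.a (T.l 816) (T.l 816))) (T.a (T.a (T.l 816) (T.l 816)) (T.a (T.l 880) (T.l 884))))) (T.c (T.a (T.a (T.a (T.a (T.l 880) (T.l 884)) (T.a (T.l 884) (T.l 884))) (T.a (T.a (T.l 884) (T.a (T.c (T.l 884) (T.l 884)) (T.l 884))) (T.l 1024))) (T.l 1024)) (T.b (T.a (T.a (T.a (T.l 884) (T.c (T.l 884) (T.l 884))) (T.a (T.a (T.l 884) (T.a (T.l 884) (T.l 884))) (T.a (T.c (T.l 884) (T.l 884)) (T.c (T.l 884) (T.l 884))))) (T.a (T.a (T.a (T.c (T.l 884) (T.l 884)) (T.l 884)) (T.a (T.l 884) (T.l 1024))) (T.l 1024))) (T.a (T.a (T.a (T.l 884) (T.a (T.l 816) (T.l 884))) (T.a (T.a (T.l 884) (T.a (T.l 884) (T.l 884))) (T.a (T.a (T.l 884)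 (T.l 884)) (T.a (T.l 884) (T.l 884))))) (T.a (T.a (T.a (T.a (T.l 884) (T.l 884)) (T.c (T.l 1024) (T.l 884))) (T.a (T.c (T.l 1024) (T.l 884)) (T.l 1024))) (T.l 1024)))))) (T.a (T.a (T.l 816) (T.a (T.a (T.a (T.l 816) (T.l 816)) (T.a (T.c (T.l 816) (T.l 816)) (T.l 880))) (T.a (T.a (T.c (T.l 816) (T.l 816)) (T.c (T.l 816) (T.l 816))) (T.a (T.c (T.l 880) (T.l 816)) (T.c (T.l 884) (T.l 816)))))) (T.c (T.a (T.a (T.a (T.a (T.l 884) (T.c (T.l 884) (T.l 884))) (T.a (T.a (T.l 884) (T.l 884)) (T.c (T.a (T.l 884) (T.l 884)) (T.a (T.l 884) (T.l 884))))) (T.a (T.a (T.c (T.a (T.l 884) (T.b (T.l 884) (T.l 884))) (T.a (T.l 884) (T.l 884))) (T.a (T.a (T.c (T.l 884) (T.l 884)) (T.c (T.c (T.l 884) (T.l 884)) (T.l 884))) (T.l 1024))) (T.l 1024))) (T.l 1024)) (T.b (T.a (T.a (T.a (T.c (T.l 884) (T.l 884)) (T.a (T.l 884) (T.l 884)))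 (T.a (T.a (T.l 884) (T.a (T.c (T.l 884) (T.l 884)) (T.l 884))) (T.a (T.a (T.l 884) (T.l 884)) (T.a (T.l 884) (T.l 884))))) (T.a (T.a (T.a (T.a (T.l 884) (T.l 884)) (T.a (T.l 884) (T.l 884))) (T.a (T.a (T.l 884) (T.l 884)) (T.l 1024))) (T.l 1024))) (T.a (T.a (T.a (T.a (T.l 880) (T.l 884)) (T.a (T.l 884) (T.c (T.l 884) (T.l 884)))) (T.a (T.a (T.a (T.l 884) (T.l 884)) (T.a (T.a (T.l 884) (T.l 884)) (T.a (T.l 884) (T.l 884)))) (T.a (T.a (T.a (T.l 884) (T.l 884)) (T.a (T.l 884) (T.l 884))) (T.a (T.a (T.l 884) (T.l 884)) (T.a (T.l 884) (T.l 884)))))) (T.a (T.a (T.a (T.a (T.a (T.l 884) (T.l 884)) (T.c (T.l 1024) (T.l 884))) (T.c (T.l 1024) (T.a (T.l 884) (T.l 884)))) (T.a (T.c (T.l 1024) (T.a (T.l 884) (T.c (T.l 1024) (T.l 884)))) (T.l 1024))) (T.l 1024)))))))))), by decide +kernel⟩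

theorem A022E_002_1_15_1 :
    ∃ t, chk3 (onCell 0 50331648 0 1073741824 50331648 16777216 (corTK [[⟨0, 0, 1, 25165824⟩, ⟨1, 1, 0, 8388608⟩, ⟨2, 1, 1, 25165824⟩, ⟨0, 0, 0, 83886080⟩, ⟨0, 1, 0, 1040187392⟩, ⟨2, 1, 0, 83886080⟩, ⟨2, 2, 0, 1040187392⟩]] false 3 c0N cA022E gN0q0 gN0q2 gN2q2 gN3q2 true false)) t 1 15 1 = true :=
  ex3_b A022E_002_1_30_1 A022E_002_1_31_1
theorem A022E_002_1_7_1 :
    ∃ t, chk3 (onCell 0 50331648 0 1073741824 50331648 16777216 (corTK [[⟨0, 0, 1, 25165824⟩, ⟨1, 1, 0, 8388608⟩, ⟨2, 1, 1, 25165824⟩, ⟨0, 0, 0, 83886080⟩, ⟨0, 1, 0, 1040187392⟩, ⟨2, 1, 0, 83886080⟩, ⟨2, 2, 0, 1040187392⟩]] false 3 c0N cA022E gN0q0 gN0q2 gN2q2 gN3q2 true false)) t 1 7 1 = true :=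
  ex3_b A022E_002_1_14_1 A022E_002_1_15_1
theorem A022E_002_1_3_1 :
    ∃ t, chk3 (onCell 0 50331648 0 1073741824 50331648 16777216 (corTK [[⟨0, 0, 1, 25165824⟩, ⟨1, 1, 0, 8388608⟩, ⟨2, 1, 1, 25165824⟩, ⟨0, 0, 0, 83886080⟩, ⟨0, 1, 0, 1040187392⟩, ⟨2, 1, 0, 83886080⟩, ⟨2, 2, 0, 1040187392⟩]] false 3 c0N cA022E gN0q0 gN0q2 gN2q2 gN3q2 true false)) t 1 3 1 = true :=
  ex3_b A022E_002_1_6_1 A022E_002_1_7_1
theorem A022E_002 :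
    ∃ t, chk3 (onCell 0 50331648 0 1073741824 50331648 16777216 (corTK [[⟨0, 0, 1, 25165824⟩, ⟨1, 1, 0, 8388608⟩, ⟨2, 1, 1, 25165824⟩, ⟨0, 0, 0, 83886080⟩, ⟨0, 1, 0, 1040187392⟩, ⟨2, 1, 0, 83886080⟩, ⟨2, 2, 0, 1040187392⟩]] false 3 c0N cA022E gN0q0 gN0q2 gN2q2 gN3q2 true false)) t 1 1 1 = true :=
  ex3_b A022E_002_1_2_1 A022E_002_1_3_1

def A022E_010 :
    ∃ t, chk3 (onCell 0 50331648 0 1073741824 50331648 16777216 (corTK [[⟨0, 0, 1, 33554432⟩, ⟨1, 1, 0, 16777216⟩, ⟨2, 1, 1, 33554432⟩, ⟨0, 0, 0, 83886080⟩, ⟨0, 1, 0, 1040187392⟩, ⟨2, 1, 0, 83886080⟩, ⟨2, 2, 0, 1040187392⟩]] false 3 c0N cA022E gN0q0 gN1q2 gN0q2 gN1q2 true true)) t 1 1 1 = true :=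
  ⟨(T.l 2), by decide +kernel⟩

def A022E_011 :
    ∃ t, chk3 (onCell 0 50331648 0 1073741824 50331648 16777216 (corTK [[⟨0, 0, 1, 33554432⟩, ⟨1, 1, 0, 16777216⟩, ⟨2, 1, 1, 33554432⟩, ⟨0, 0, 0, 83886080⟩, ⟨0, 1, 0, 1040187392⟩, ⟨2, 1, 0, 83886080⟩, ⟨2, 2, 0, 1040187392⟩]] false 3 c0N cA022E gN0q0 gN1q2 gN1q2 gN2q2 true true)) t 1 1 1 = true :=
  ⟨(T.b (T.l 2) (T.b (T.l 2) (T.b (T.l 2) (T.b (T.l 2) (T.b (T.l 2) (T.b (T.l 2) (T.b (T.l 2) (T.b (T.l 2) (T.a (T.a (T.l 816) (T.c (T.b (T.l 2) (T.c (T.b (T.l 2) (T.a (T.c (T.b (T.l 2) (T.a (T.a (T.l 816) (T.l 816)) (T.a (T.l 816) (T.l 816)))) (T.b (T.l 2) (T.a (T.a (T.l 816) (T.l 816)) (T.a (T.l 816) (T.l 816))))) (T.c (T.b (T.l 2) (T.a (T.a (T.l 816) (T.l 816)) (T.a (T.l 880) (T.l 884)))) (T.b (T.l 2) (T.a (T.a (T.l 816) (T.l 816)) (T.a (T.l 880) (T.l 880)))))))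 (T.b (T.l 2) (T.a (T.c (T.b (T.l 2) (T.a (T.a (T.l 816) (T.l 816)) (T.a (T.l 816) (T.l 816)))) (T.b (T.l 2) (T.a (T.a (T.l 816) (T.l 816)) (T.a (T.l 816) (T.l 816))))) (T.c (T.b (T.l 2) (T.a (T.a (T.l 816) (T.l 816)) (T.a (T.l 816) (T.l 880)))) (T.b (T.l 2) (T.a (T.a (T.l 816) (T.l 816)) (T.a (T.l 816) (T.l 816))))))))) (T.b (T.l 2) (T.c (T.b (T.l 2) (T.a (T.c (T.a (T.l 880) (T.a (T.l 816) (T.l 816))) (T.a (T.l 816) (T.a (T.l 816) (T.l 816)))) (T.c (T.b (T.l 2) (T.a (T.a (T.l 816) (T.l 816)) (T.a (T.l 816) (T.l 816)))) (T.b (T.l 2) (T.a (T.a (T.l 816) (T.l 816)) (T.a (T.l 816) (T.l 816))))))) (T.b (T.l 2) (T.a (T.a (T.l 816) (T.a (T.l 816) (T.l 816))) (T.c (T.b (T.l 2) (T.a (T.a (T.l 816) (T.l 816)) (T.a (T.l 816) (T.l 816)))) (T.b (T.l 2) (T.a (T.a (T.l 816) (T.l 816)) (T.a (T.l 816) (T.l 816)))))))))))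 (T.a (T.c (T.b (T.l 2) (T.c (T.b (T.l 2) (T.a (T.c (T.b (T.l 2) (T.a (T.a (T.l 884) (T.l 884)) (T.c (T.b (T.l 2) (T.a (T.a (T.l 884) (T.l 884)) (T.a (T.l 884) (T.l 884)))) (T.a (T.l 884) (T.a (T.l 884) (T.l 884)))))) (T.b (T.l 2) (T.a (T.a (T.l 884) (T.l 884)) (T.c (T.a (T.l 884) (T.a (T.l 884) (T.l 884))) (T.a (T.l 884) (T.a (T.l 884) (T.l 884))))))) (T.a (T.c (T.b (T.l 2) (T.c (T.b (T.l 2) (T.a (T.a (T.l 884) (T.l 884)) (T.a (T.a (T.l 884) (T.l 884)) (T.l 1024)))) (T.b (T.l 2) (T.a (T.a (T.l 884) (T.l 884)) (T.a (T.a (T.l 884) (T.l 884)) (T.l 1024)))))) (T.b (T.l 2) (T.c (T.b (T.l 2) (T.a (T.a (T.l 884) (T.l 884)) (T.a (T.a (T.l 884) (T.l 884)) (T.l 1024)))) (T.b (T.l 2) (T.a (T.a (T.l 884) (T.l 884)) (T.a (T.a (T.l 884) (T.l 884)) (T.l 1024))))))) (T.l 1024)))) (T.b (T.l 2) (T.a (T.c (T.b (T.l 2) (T.a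 (T.a (T.l 884) (T.l 884)) (T.a (T.l 884) (T.a (T.l 884) (T.l 884))))) (T.b (T.l 2) (T.a (T.a (T.l 884) (T.l 884)) (T.a (T.l 884) (T.a (T.l 884) (T.l 884)))))) (T.a (T.c (T.b (T.l 2) (T.c (T.b (T.l 2) (T.a (T.a (T.l 884) (T.l 884)) (T.a (T.a (T.l 884) (T.l 884)) (T.l 1024)))) (T.b (T.l 2) (T.a (T.a (T.l 884) (T.l 884)) (T.a (T.a (T.l 884) (T.l 884)) (T.l 1024)))))) (T.b (T.l 2) (T.c (T.b (T.l 2) (T.a (T.a (T.l 884) (T.l 884)) (T.a (T.a (T.l 884) (T.l 884)) (T.l 1024)))) (T.b (T.l 2) (T.a (T.a (T.l 884) (T.l 884)) (T.a (T.a (T.l 884) (T.l 884)) (T.l 1024))))))) (T.l 1024)))))) (T.b (T.l 2) (T.c (T.b (T.l 2) (T.a (T.c (T.b (T.l 2) (T.a (T.a (T.l 880) (T.l 884)) (T.a (T.l 884) (T.l 884)))) (T.b (T.l 2) (T.a (T.a (T.l 816) (T.l 884)) (T.a (T.l 884) (T.l 884))))) (T.a (T.c (T.b (T.l 2) (T.c (T.b (T.l 2) (T.a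 (T.l 884) (T.a (T.a (T.l 884) (T.l 884)) (T.l 1024)))) (T.a (T.l 884) (T.a (T.a (T.l 884) (T.l 884)) (T.l 1024))))) (T.b (T.l 2) (T.c (T.a (T.l 884) (T.a (T.a (T.l 884) (T.l 884)) (T.l 1024))) (T.a (T.l 884) (T.a (T.a (T.l 884) (T.l 884)) (T.l 1024)))))) (T.l 1024)))) (T.b (T.l 2) (T.a (T.c (T.b (T.l 2) (T.a (T.a (T.l 816) (T.l 880)) (T.a (T.l 884) (T.l 884)))) (T.b (T.l 2) (T.a (T.a (T.l 816) (T.l 816)) (T.a (T.l 884) (T.l 884))))) (T.a (T.c (T.a (T.l 884) (T.a (T.c (T.l 884) (T.l 884)) (T.l 1024))) (T.a (T.l 884) (T.a (T.l 884) (T.l 1024)))) (T.l 1024))))))) (T.l 1024))))))))))), by decide +kernel⟩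

def A022E_012_1_2_1 :
    ∃ t, chk3 (onCell 0 50331648 0 1073741824 50331648 16777216 (corTK [[⟨0, 0, 1, 33554432⟩, ⟨1, 1, 0, 16777216⟩, ⟨2, 1, 1, 33554432⟩, ⟨0, 0, 0, 83886080⟩, ⟨0, 1, 0, 1040187392⟩, ⟨2, 1, 0, 83886080⟩, ⟨2, 2, 0, 1040187392⟩]] false 3 c0N cA022E gN0q0 gN1q2 gN2q2 gN3q2 true false)) t 1 2 1 = true :=
  ⟨(T.b (T.a (T.a (T.l 0) (T.a (T.a (T.l 204) (T.b (T.l 204) (T.l 204))) (T.b (T.l 204) (T.l 204)))) (T.a (T.a (T.b (T.l 204) (T.l 204)) (T.a (T.l 220) (T.l 204))) (T.a (T.b (T.l 204) (T.l 204)) (T.l 220)))) (T.b (T.a (T.a (T.l 0) (T.a (T.l 0) (T.l 0))) (T.a (T.a (T.l 0) (T.c (T.l 20) (T.l 16))) (T.a (T.b (T.l 0) (T.l 0)) (T.l 16)))) (T.b (T.a (T.a (T.l 816) (T.l 0)) (T.a (T.a (T.l 0) (T.b (T.l 20) (T.l 20))) (T.a (T.l 0) (T.l 0)))) (T.b (T.a (T.a (T.l 816) (T.l 0)) (T.a (T.a (T.l 0) (T.l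 20)) (T.a (T.l 0) (T.l 0)))) (T.a (T.a (T.l 816) (T.l 816)) (T.a (T.a (T.l 0) (T.l 20)) (T.a (T.l 0) (T.l 0)))))))), by decide +kernel⟩

def A022E_012_1_6_1 :
    ∃ t, chk3 (onCell 0 50331648 0 1073741824 50331648 16777216 (corTK [[⟨0, 0, 1, 33554432⟩, ⟨1, 1, 0, 16777216⟩, ⟨2, 1, 1, 33554432⟩, ⟨0, 0, 0, 83886080⟩, ⟨0, 1, 0, 1040187392⟩, ⟨2, 1, 0, 83886080⟩, ⟨2, 2, 0, 1040187392⟩]] false 3 c0N cA022E gN0q0 gN1q2 gN2q2 gN3q2 true false)) t 1 6 1 = true :=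
  ⟨(T.b (T.b (T.b (T.a (T.a (T.l 816) (T.l 816)) (T.a (T.a (T.l 816) (T.l 20)) (T.a (T.l 0) (T.l 0)))) (T.a (T.a (T.l 816) (T.l 816)) (T.a (T.a (T.l 816) (T.b (T.l 20) (T.l 20))) (T.a (T.l 0) (T.l 0))))) (T.b (T.a (T.a (T.l 816) (T.a (T.l 816) (T.l 816))) (T.a (T.a (T.l 816) (T.c (T.l 20) (T.l 4))) (T.a (T.l 0) (T.l 0)))) (T.a (T.a (T.l 816) (T.a (T.l 816) (T.l 816))) (T.a (T.a (T.l 816) (T.c (T.l 4) (T.l 4))) (T.a (T.l 0) (T.l 0)))))) (T.b (T.b (T.a (T.a (T.l 816) (T.a (T.l 816) (T.l 816))) (T.a (T.a (T.l 816) (T.c (T.l 4) (T.l 4))) (T.a (T.l 0) (T.l 0)))) (T.b (T.a (T.a (T.l 816) (T.a (T.l 816) (T.l 816))) (T.a (T.a (T.l 816) (T.c (T.l 4) (T.l 4))) (T.a (T.l 0) (T.l 0)))) (T.a (T.a (T.l 816) (T.a (T.l 816) (T.l 816))) (T.a (T.a (T.l 816) (T.c (T.l 4) (T.l 4))) (T.a (T.l 0) (T.l 0)))))) (T.b (T.b (T.a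 (T.a (T.l 816) (T.a (T.l 816) (T.l 816))) (T.a (T.a (T.l 816) (T.c (T.l 4) (T.l 4))) (T.a (T.l 0) (T.l 0)))) (T.a (T.a (T.l 816) (T.a (T.l 816) (T.l 816))) (T.a (T.a (T.l 816) (T.a (T.l 816) (T.l 816))) (T.a (T.l 0) (T.l 816))))) (T.b (T.a (T.a (T.l 816) (T.a (T.l 816) (T.l 816))) (T.a (T.a (T.l 816) (T.a (T.l 816) (T.l 816))) (T.a (T.l 0) (T.l 816)))) (T.a (T.a (T.l 816) (T.a (T.l 816) (T.l 816))) (T.a (T.a (T.l 816) (T.a (T.l 816) (T.l 816))) (T.a (T.l 0) (T.l 816)))))))), by decide +kernel⟩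

def A022E_012_1_14_1 :
    ∃ t, chk3 (onCell 0 50331648 0 1073741824 50331648 16777216 (corTK [[⟨0, 0, 1, 33554432⟩, ⟨1, 1, 0, 16777216⟩, ⟨2, 1, 1, 33554432⟩, ⟨0, 0, 0, 83886080⟩, ⟨0, 1, 0, 1040187392⟩, ⟨2, 1, 0, 83886080⟩, ⟨2, 2, 0, 1040187392⟩]] false 3 c0N cA022E gN0q0 gN1q2 gN2q2 gN3q2 true false)) t 1 14 1 = true :=
  ⟨(T.b (T.b (T.b (T.a (T.a (T.l 816) (T.a (T.l 816) (T.l 816))) (T.a (T.a (T.l 816) (T.a (T.l 816) (T.l 816))) (T.a (T.l 4) (T.l 816)))) (T.a (T.a (T.l 816) (T.a (T.l 816) (T.l 816))) (T.a (T.a (T.l 816) (T.a (T.l 816) (T.l 816))) (T.a (T.l 4) (T.l 1024))))) (T.b (T.a (T.a (T.l 816) (T.a (T.l 816) (T.l 816))) (T.a (T.a (T.l 816) (T.a (T.l 816) (T.l 816))) (T.a (T.l 820) (T.l 1024)))) (T.a (T.a (T.l 816) (T.a (T.l 816) (T.l 816))) (T.a (T.a (T.l 816) (T.a (T.l 816) (T.l 816))) (T.a (T.l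 820) (T.l 1024)))))) (T.b (T.b (T.b (T.a (T.a (T.l 816) (T.a (T.l 816) (T.l 816))) (T.a (T.a (T.l 816) (T.a (T.l 816) (T.l 816))) (T.a (T.l 820) (T.l 1024)))) (T.a (T.a (T.l 816) (T.a (T.l 816) (T.l 816))) (T.a (T.a (T.l 816) (T.a (T.l 816) (T.l 816))) (T.a (T.l 820) (T.l 1024))))) (T.b (T.a (T.a (T.l 816) (T.a (T.l 816) (T.l 816))) (T.a (T.a (T.l 816) (T.a (T.l 816) (T.l 816))) (T.a (T.l 820) (T.l 1024)))) (T.a (T.a (T.l 816) (T.a (T.l 820) (T.l 816))) (T.a (T.a (T.l 816) (T.a (T.l 816) (T.l 816))) (T.a (T.c (T.l 820) (T.l 820)) (T.l 1024)))))) (T.b (T.b (T.a (T.a (T.l 816) (T.a (T.l 820) (T.l 816))) (T.a (T.a (T.l 816) (T.a (T.l 816) (T.l 816))) (T.a (T.c (T.l 820) (T.l 820)) (T.l 1024)))) (T.a (T.a (T.l 816) (T.a (T.l 820) (T.l 816))) (T.a (T.a (T.l 816) (T.a (T.l 816) (T.l 816))) (T.a (T.c (T.l 820)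 (T.l 820)) (T.l 1024))))) (T.b (T.a (T.a (T.l 816) (T.a (T.c (T.l 816) (T.l 816)) (T.l 816))) (T.a (T.a (T.l 816) (T.a (T.l 816) (T.l 816))) (T.a (T.c (T.l 820) (T.l 820)) (T.l 1024)))) (T.a (T.a (T.l 816) (T.a (T.c (T.l 820) (T.l 816)) (T.l 816))) (T.a (T.a (T.l 816) (T.a (T.l 820) (T.l 816))) (T.a (T.c (T.l 820) (T.l 820)) (T.l 1024)))))))), by decide +kernel⟩

def A022E_012_1_15_1 :
    ∃ t, chk3 (onCell 0 50331648 0 1073741824 50331648 16777216 (corTK [[⟨0, 0, 1, 33554432⟩, ⟨1, 1, 0, 16777216⟩, ⟨2, 1, 1, 33554432⟩, ⟨0, 0, 0, 83886080⟩, ⟨0, 1, 0, 1040187392⟩, ⟨2, 1, 0, 83886080⟩, ⟨2, 2, 0, 1040187392⟩]] false 3 c0N cA022E gN0q0 gN1q2 gN2q2 gN3q2 true false)) t 1 15 1 = true :=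
  ⟨(T.b (T.b (T.b (T.b (T.a (T.a (T.l 816) (T.a (T.c (T.l 820) (T.l 820)) (T.l 816))) (T.a (T.a (T.l 816) (T.a (T.l 820) (T.l 816))) (T.a (T.c (T.l 820) (T.l 820)) (T.l 1024)))) (T.a (T.a (T.l 816) (T.a (T.a (T.l 816) (T.l 816)) (T.l 816))) (T.a (T.a (T.l 816) (T.a (T.l 820) (T.l 816))) (T.a (T.a (T.l 816) (T.l 1024)) (T.l 1024))))) (T.b (T.a (T.a (T.l 816) (T.a (T.a (T.l 816) (T.l 816)) (T.l 816))) (T.a (T.a (T.l 816) (T.a (T.l 820) (T.l 816))) (T.l 1024))) (T.a (T.a (T.l 816) (T.a (T.a (T.l 816) (T.l 816)) (T.l 820))) (T.a (T.a (T.l 816) (T.a (T.l 820) (T.l 816))) (T.l 1024))))) (T.b (T.b (T.a (T.a (T.l 816) (T.a (T.a (T.l 816) (T.l 816)) (T.l 820))) (T.a (T.a (T.l 816) (T.a (T.c (T.l 820) (T.l 820)) (T.l 820))) (T.l 1024))) (T.a (T.a (T.l 816) (T.a (T.a (T.l 816) (T.l 816)) (T.l 820))) (T.a (T.a (T.l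 816) (T.a (T.c (T.l 820) (T.l 820)) (T.l 820))) (T.l 1024)))) (T.b (T.b (T.a (T.a (T.l 816) (T.a (T.a (T.l 816) (T.l 816)) (T.l 820))) (T.a (T.a (T.l 816) (T.a (T.c (T.l 820) (T.l 820)) (T.l 820))) (T.l 1024))) (T.a (T.a (T.l 816) (T.a (T.a (T.l 816) (T.l 816)) (T.l 820))) (T.a (T.a (T.l 816) (T.a (T.c (T.l 820) (T.l 820)) (T.l 820))) (T.l 1024)))) (T.b (T.a (T.a (T.l 816) (T.a (T.a (T.l 816) (T.l 816)) (T.c (T.l 820) (T.l 816)))) (T.a (T.a (T.l 816) (T.a (T.c (T.l 820) (T.l 820)) (T.l 820))) (T.l 1024))) (T.a (T.a (T.l 816) (T.a (T.a (T.l 816) (T.l 816)) (T.c (T.l 820) (T.l 820)))) (T.a (T.a (T.l 820) (T.a (T.c (T.l 820) (T.l 820)) (T.l 820))) (T.l 1024))))))) (T.b (T.b (T.b (T.b (T.a (T.a (T.l 816) (T.a (T.a (T.l 816) (T.l 816)) (T.c (T.l 820) (T.l 820)))) (T.a (T.a (T.l 820) (T.a (T.a (T.l 816) (T.l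 816)) (T.l 820))) (T.l 1024))) (T.a (T.a (T.l 816) (T.a (T.a (T.l 816) (T.l 816)) (T.c (T.l 820) (T.l 820)))) (T.a (T.a (T.l 820) (T.a (T.a (T.l 816) (T.l 816)) (T.l 884))) (T.l 1024)))) (T.b (T.a (T.a (T.l 816) (T.a (T.a (T.l 816) (T.l 816)) (T.a (T.l 816) (T.l 816)))) (T.a (T.a (T.c (T.l 820) (T.l 820)) (T.a (T.a (T.l 816) (T.l 816)) (T.c (T.l 820) (T.l 820)))) (T.l 1024))) (T.a (T.a (T.l 816) (T.a (T.a (T.l 816) (T.l 816)) (T.a (T.l 816) (T.l 816)))) (T.a (T.a (T.a (T.l 816) (T.l 816)) (T.a (T.a (T.l 816) (T.l 816)) (T.c (T.l 820) (T.l 820)))) (T.l 1024))))) (T.b (T.b (T.a (T.a (T.l 816) (T.a (T.a (T.l 816) (T.l 816)) (T.a (T.l 816) (T.l 816)))) (T.a (T.a (T.a (T.l 816) (T.l 816)) (T.a (T.a (T.l 816) (T.l 816)) (T.c (T.l 820) (T.l 820)))) (T.l 1024))) (T.a (T.a (T.l 816) (T.a (T.a (T.l 816) (T.l 816))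 (T.a (T.l 816) (T.l 816)))) (T.a (T.a (T.a (T.l 816) (T.l 816)) (T.a (T.a (T.l 816) (T.l 816)) (T.c (T.l 884) (T.l 820)))) (T.l 1024)))) (T.b (T.a (T.a (T.l 816) (T.a (T.a (T.l 816) (T.l 816)) (T.a (T.l 816) (T.l 816)))) (T.a (T.a (T.a (T.l 816) (T.l 816)) (T.a (T.a (T.l 816) (T.l 820)) (T.a (T.l 816) (T.l 1024)))) (T.l 1024))) (T.a (T.a (T.l 816) (T.a (T.a (T.l 816) (T.l 816)) (T.a (T.l 816) (T.l 816)))) (T.a (T.a (T.a (T.l 816) (T.l 820)) (T.a (T.a (T.l 816) (T.l 820)) (T.a (T.l 820) (T.l 1024)))) (T.l 1024)))))) (T.b (T.b (T.b (T.a (T.a (T.l 816) (T.a (T.a (T.l 816) (T.l 816)) (T.a (T.l 816) (T.l 816)))) (T.a (T.a (T.a (T.l 816) (T.l 820)) (T.a (T.a (T.l 816) (T.l 820)) (T.a (T.l 820) (T.l 1024)))) (T.l 1024))) (T.a (T.a (T.l 816) (T.a (T.a (T.l 816) (T.l 816)) (T.a (T.l 816) (T.l 816)))) (T.a (T.a (T.a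 (T.l 816) (T.l 820)) (T.a (T.a (T.l 816) (T.l 884)) (T.l 1024))) (T.l 1024)))) (T.b (T.a (T.a (T.l 816) (T.a (T.a (T.l 816) (T.l 820)) (T.a (T.l 820) (T.l 820)))) (T.a (T.a (T.a (T.l 820) (T.l 884)) (T.a (T.a (T.l 816) (T.c (T.l 820) (T.l 820))) (T.l 1024))) (T.l 1024))) (T.a (T.a (T.l 816) (T.a (T.a (T.l 816) (T.l 884)) (T.a (T.l 820) (T.l 820)))) (T.a (T.a (T.a (T.l 820) (T.c (T.l 884) (T.l 820))) (T.a (T.a (T.l 820) (T.c (T.l 884) (T.l 884))) (T.l 1024))) (T.l 1024))))) (T.b (T.b (T.a (T.a (T.l 816) (T.a (T.a (T.l 880) (T.c (T.l 816) (T.l 816))) (T.a (T.c (T.l 816) (T.l 816)) (T.c (T.l 820) (T.l 816))))) (T.a (T.a (T.a (T.c (T.l 820) (T.l 820)) (T.c (T.l 884) (T.l 884))) (T.a (T.a (T.l 884) (T.a (T.l 884) (T.l 884))) (T.l 1024))) (T.l 1024))) (T.a (T.a (T.l 816) (T.a (T.a (T.c (T.l 880) (T.l 816)) (T.a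 (T.l 816) (T.l 816))) (T.a (T.c (T.l 884) (T.l 816)) (T.c (T.l 884) (T.l 820))))) (T.a (T.a (T.a (T.c (T.l 884) (T.l 820)) (T.a (T.l 884) (T.l 884))) (T.a (T.a (T.l 884) (T.a (T.c (T.l 884) (T.l 884)) (T.l 884))) (T.l 1024))) (T.l 1024)))) (T.b (T.a (T.a (T.l 816) (T.a (T.a (T.a (T.l 816) (T.l 816)) (T.a (T.l 816) (T.l 816))) (T.a (T.a (T.l 816) (T.l 816)) (T.a (T.l 880) (T.l 884))))) (T.a (T.a (T.a (T.a (T.l 884) (T.l 884)) (T.a (T.l 884) (T.c (T.l 884) (T.l 884)))) (T.a (T.a (T.c (T.l 884) (T.l 884)) (T.a (T.c (T.c (T.l 884) (T.l 884)) (T.l 884)) (T.c (T.l 884) (T.l 884)))) (T.l 1024))) (T.l 1024))) (T.a (T.a (T.l 816) (T.c (T.a (T.a (T.a (T.l 816) (T.l 816)) (T.a (T.l 816) (T.l 816))) (T.a (T.a (T.l 816) (T.l 816)) (T.a (T.l 880) (T.l 884)))) (T.a (T.a (T.a (T.l 816) (T.l 816)) (T.a (T.l 816) (T.l 816)))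 (T.a (T.a (T.l 816) (T.l 816)) (T.a (T.l 816) (T.l 816)))))) (T.a (T.c (T.a (T.a (T.a (T.l 884) (T.c (T.l 884) (T.l 884))) (T.a (T.a (T.l 884) (T.l 884)) (T.b (T.l 884) (T.a (T.l 884) (T.c (T.l 884) (T.l 884)))))) (T.a (T.a (T.c (T.a (T.l 884) (T.b (T.l 884) (T.l 884))) (T.a (T.l 884) (T.l 884))) (T.a (T.a (T.c (T.l 884) (T.l 884)) (T.c (T.c (T.l 884) (T.l 884)) (T.l 884))) (T.l 1024))) (T.l 1024))) (T.a (T.a (T.a (T.l 880) (T.l 884)) (T.a (T.c (T.l 884) (T.l 884)) (T.c (T.l 884) (T.l 884)))) (T.a (T.a (T.a (T.l 884) (T.l 884)) (T.a (T.a (T.l 884) (T.l 884)) (T.l 1024))) (T.l 1024)))) (T.l 1024)))))))), by decide +kernel⟩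

theorem A022E_012_1_7_1 :
    ∃ t, chk3 (onCell 0 50331648 0 1073741824 50331648 16777216 (corTK [[⟨0, 0, 1, 33554432⟩, ⟨1, 1, 0, 16777216⟩, ⟨2, 1, 1, 33554432⟩, ⟨0, 0, 0, 83886080⟩, ⟨0, 1, 0, 1040187392⟩, ⟨2, 1, 0, 83886080⟩, ⟨2, 2, 0, 1040187392⟩]] false 3 c0N cA022E gN0q0 gN1q2 gN2q2 gN3q2 true false)) t 1 7 1 = true :=
  ex3_b A022E_012_1_14_1 A022E_012_1_15_1
theorem A022E_012_1_3_1 :
    ∃ t, chk3 (onCell 0 50331648 0 1073741824 50331648 16777216 (corTK [[⟨0, 0, 1, 33554432⟩, ⟨1, 1, 0, 16777216⟩, ⟨2, 1, 1, 33554432⟩, ⟨0, 0, 0, 83886080⟩, ⟨0, 1, 0, 1040187392⟩, ⟨2, 1, 0, 83886080⟩, ⟨2, 2, 0, 1040187392⟩]] false 3 c0N cA022E gN0q0 gN1q2 gN2q2 gN3q2 true false)) t 1 3 1 = true :=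
  ex3_b A022E_012_1_6_1 A022E_012_1_7_1
theorem A022E_012 :
    ∃ t, chk3 (onCell 0 50331648 0 1073741824 50331648 16777216 (corTK [[⟨0, 0, 1, 33554432⟩, ⟨1, 1, 0, 16777216⟩, ⟨2, 1, 1, 33554432⟩, ⟨0, 0, 0, 83886080⟩, ⟨0, 1, 0, 1040187392⟩, ⟨2, 1, 0, 83886080⟩, ⟨2, 2, 0, 1040187392⟩]] false 3 c0N cA022E gN0q0 gN1q2 gN2q2 gN3q2 true false)) t 1 1 1 = true :=
  ex3_b A022E_012_1_2_1 A022E_012_1_3_1

def A022E_020 :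
    ∃ t, chk3 (onCell 0 50331648 0 1073741824 50331648 16777216 (corTK [[⟨0, 0, 1, 33554432⟩, ⟨1, 1, 0, 16777216⟩, ⟨2, 1, 1, 33554432⟩, ⟨0, 0, 0, 83886080⟩, ⟨0, 1, 0, 1040187392⟩, ⟨2, 1, 0, 83886080⟩, ⟨2, 2, 0, 1040187392⟩]] false 3 c0N cA022E gN0q0 gN2q2 gN0q2 gN1q2 true true)) t 1 1 1 = true :=
  ⟨(T.l 2), by decide +kernel⟩

def A022E_021 :
    ∃ t, chk3 (onCell 0 50331648 0 1073741824 50331648 16777216 (corTK [[⟨0, 0, 1, 33554432⟩, ⟨1, 1, 0, 16777216⟩, ⟨2, 1, 1, 33554432⟩, ⟨0, 0, 0, 83886080⟩, ⟨0, 1, 0, 1040187392⟩, ⟨2, 1, 0, 83886080⟩, ⟨2, 2, 0, 1040187392⟩]] false 3 c0N cA022E gN0q0 gN2q2 gN1q2 gN2q2 true true)) t 1 1 1 = true :=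
  ⟨(T.b (T.a (T.a (T.l 0) (T.l 2)) (T.l 2)) (T.b (T.a (T.a (T.l 816) (T.l 2)) (T.l 2)) (T.b (T.a (T.a (T.l 816) (T.l 2)) (T.l 2)) (T.b (T.a (T.a (T.l 816) (T.l 2)) (T.l 2)) (T.a (T.b (T.a (T.l 816) (T.l 2)) (T.a (T.b (T.l 816) (T.l 816)) (T.b (T.l 2) (T.b (T.l 2) (T.b (T.l 2) (T.c (T.b (T.l 2) (T.c (T.b (T.l 2) (T.a (T.c (T.b (T.l 2) (T.a (T.a (T.l 816) (T.l 816)) (T.a (T.l 816) (T.l 816)))) (T.b (T.l 2) (T.a (T.a (T.l 816) (T.l 816)) (T.a (T.l 816) (T.l 816))))) (T.c (T.b (T.l 2) (T.a (T.a (T.l 816) (T.l 816)) (T.a (T.l 880) (T.l 884)))) (T.b (T.l 2) (T.a (T.a (T.l 816) (T.l 816)) (T.a (T.l 880) (T.l 880))))))) (T.b (T.l 2) (T.a (T.c (T.b (T.l 2) (T.a (T.a (T.l 816) (T.l 816)) (T.a (T.l 816) (T.l 816)))) (T.b (T.l 2) (T.a (T.a (T.l 816) (T.l 816)) (T.a (T.l 816) (T.l 816))))) (T.c (T.b (T.l 2) (T.a (T.a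 (T.l 816) (T.l 816)) (T.a (T.l 816) (T.l 880)))) (T.b (T.l 2) (T.a (T.a (T.l 816) (T.l 816)) (T.a (T.l 816) (T.l 816))))))))) (T.b (T.l 2) (T.c (T.b (T.l 2) (T.a (T.c (T.a (T.l 880) (T.a (T.l 816) (T.l 816))) (T.a (T.l 816) (T.a (T.l 816) (T.l 816)))) (T.c (T.b (T.l 2) (T.a (T.a (T.l 816) (T.l 816)) (T.a (T.l 816) (T.l 816)))) (T.b (T.l 2) (T.a (T.a (T.l 816) (T.l 816)) (T.a (T.l 816) (T.l 816))))))) (T.b (T.l 2) (T.a (T.a (T.l 816) (T.a (T.l 816) (T.l 816))) (T.c (T.b (T.l 2) (T.a (T.a (T.l 816) (T.l 816)) (T.a (T.l 816) (T.l 816)))) (T.b (T.l 2) (T.a (T.a (T.l 816) (T.l 816)) (T.a (T.l 816) (T.l 816))))))))))))))) (T.b (T.l 2) (T.a (T.b (T.l 2) (T.b (T.l 2) (T.b (T.l 2) (T.c (T.b (T.l 2) (T.c (T.b (T.l 2) (T.a (T.c (T.b (T.l 2) (T.a (T.a (T.l 884) (T.l 884)) (T.c (T.b (T.l 2) (T.a (T.a (T.l 884) (T.l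 884)) (T.a (T.l 884) (T.l 884)))) (T.a (T.l 884) (T.a (T.l 884) (T.l 884)))))) (T.b (T.l 2) (T.a (T.a (T.l 884) (T.l 884)) (T.c (T.a (T.l 884) (T.a (T.l 884) (T.l 884))) (T.a (T.l 884) (T.a (T.l 884) (T.l 884))))))) (T.a (T.c (T.b (T.l 2) (T.c (T.b (T.l 2) (T.a (T.a (T.l 884) (T.l 884)) (T.a (T.a (T.l 884) (T.l 884)) (T.l 1024)))) (T.b (T.l 2) (T.a (T.a (T.l 884) (T.l 884)) (T.a (T.a (T.l 884) (T.l 884)) (T.l 1024)))))) (T.b (T.l 2) (T.c (T.b (T.l 2) (T.a (T.a (T.l 884) (T.l 884)) (T.a (T.a (T.l 884) (T.l 884)) (T.l 1024)))) (T.b (T.l 2) (T.a (T.a (T.l 884) (T.l 884)) (T.a (T.a (T.l 884) (T.l 884)) (T.l 1024))))))) (T.l 1024)))) (T.b (T.l 2) (T.a (T.c (T.b (T.l 2) (T.a (T.a (T.l 884) (T.l 884)) (T.a (T.l 884) (T.a (T.l 884) (T.l 884))))) (T.b (T.l 2) (T.a (T.a (T.l 884) (T.l 884)) (T.a (T.l 884) (T.a (T.l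 884) (T.l 884)))))) (T.a (T.c (T.b (T.l 2) (T.c (T.b (T.l 2) (T.a (T.a (T.l 884) (T.l 884)) (T.a (T.a (T.l 884) (T.l 884)) (T.l 1024)))) (T.b (T.l 2) (T.a (T.a (T.l 884) (T.l 884)) (T.a (T.a (T.l 884) (T.l 884)) (T.l 1024)))))) (T.b (T.l 2) (T.c (T.b (T.l 2) (T.a (T.a (T.l 884) (T.l 884)) (T.a (T.a (T.l 884) (T.l 884)) (T.l 1024)))) (T.b (T.l 2) (T.a (T.a (T.l 884) (T.l 884)) (T.a (T.a (T.l 884) (T.l 884)) (T.l 1024))))))) (T.l 1024)))))) (T.b (T.l 2) (T.c (T.b (T.l 2) (T.a (T.c (T.b (T.l 2) (T.a (T.a (T.l 880) (T.l 884)) (T.a (T.l 884) (T.l 884)))) (T.b (T.l 2) (T.a (T.a (T.l 816) (T.l 884)) (T.a (T.l 884) (T.l 884))))) (T.a (T.c (T.b (T.l 2) (T.c (T.a (T.l 884) (T.a (T.a (T.l 884) (T.l 884)) (T.l 1024))) (T.a (T.l 884) (T.a (T.a (T.l 884) (T.l 884)) (T.l 1024))))) (T.b (T.l 2) (T.c (T.a (T.l 884) (T.a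 (T.a (T.l 884) (T.l 884)) (T.l 1024))) (T.a (T.l 884) (T.a (T.a (T.l 884) (T.l 884)) (T.l 1024)))))) (T.l 1024)))) (T.b (T.l 2) (T.a (T.c (T.b (T.l 2) (T.a (T.a (T.l 816) (T.l 880)) (T.a (T.l 884) (T.l 884)))) (T.b (T.l 2) (T.a (T.a (T.l 816) (T.l 816)) (T.a (T.l 884) (T.l 884))))) (T.a (T.c (T.a (T.l 884) (T.a (T.c (T.l 884) (T.l 884)) (T.l 1024))) (T.a (T.l 884) (T.a (T.l 884) (T.l 1024)))) (T.l 1024)))))))))) (T.l 1024)))))))), by decide +kernel⟩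

def A022E_022 :
    ∃ t, chk3 (onCell 0 50331648 0 1073741824 50331648 16777216 (corTK [[⟨0, 0, 1, 33554432⟩, ⟨1, 1, 0, 16777216⟩, ⟨2, 1, 1, 33554432⟩, ⟨0, 0, 0, 83886080⟩, ⟨0, 1, 0, 1040187392⟩, ⟨2, 1, 0, 83886080⟩, ⟨2, 2, 0, 1040187392⟩]] false 3 c0N cA022E gN0q0 gN2q2 gN2q2 gN3q2 true false)) t 1 1 1 = true :=
  ⟨(T.b (T.a (T.a (T.l 0) (T.b (T.a (T.l 0) (T.l 0)) (T.a (T.l 816) (T.l 816)))) (T.b (T.a (T.a (T.l 0) (T.b (T.a (T.b (T.b (T.l 4) (T.l 0)) (T.l 0)) (T.b (T.b (T.l 0) (T.l 0)) (T.b (T.l 0) (T.l 0)))) (T.b (T.l 20) (T.l 20)))) (T.b (T.a (T.a (T.b (T.l 4) (T.l 20)) (T.b (T.l 0) (T.l 0))) (T.a (T.b (T.l 0) (T.l 0)) (T.b (T.l 0) (T.l 0)))) (T.a (T.a (T.b (T.l 20) (T.l 0)) (T.b (T.l 4) (T.l 4))) (T.b (T.b (T.l 4) (T.l 20)) (T.b (T.l 20) (T.l 20)))))) (T.b (T.a (T.a (T.l 816) (T.b (T.l 20) (T.l 20)))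 (T.a (T.l 20) (T.b (T.a (T.l 20) (T.l 4)) (T.a (T.l 816) (T.l 20))))) (T.a (T.a (T.l 820) (T.a (T.l 0) (T.l 816))) (T.a (T.l 20) (T.l 4)))))) (T.b (T.a (T.a (T.l 816) (T.a (T.l 816) (T.b (T.b (T.l 816) (T.l 816)) (T.b (T.l 816) (T.l 820))))) (T.b (T.a (T.a (T.l 820) (T.a (T.l 820) (T.l 816))) (T.a (T.b (T.l 4) (T.l 4)) (T.l 4))) (T.a (T.a (T.b (T.l 816) (T.l 816)) (T.a (T.l 820) (T.l 820))) (T.a (T.a (T.l 820) (T.l 820)) (T.b (T.l 820) (T.l 820)))))) (T.b (T.a (T.a (T.l 816) (T.b (T.a (T.a (T.l 816) (T.l 816)) (T.b (T.l 816) (T.l 816))) (T.a (T.a (T.l 816) (T.l 816)) (T.a (T.l 816) (T.l 816))))) (T.b (T.a (T.a (T.l 820) (T.a (T.l 820) (T.l 816))) (T.a (T.a (T.l 816) (T.l 816)) (T.l 820))) (T.a (T.a (T.b (T.l 816) (T.l 820)) (T.a (T.b (T.l 820) (T.l 820)) (T.l 820))) (T.a (T.a (T.l 820) (T.l 820)) (T.l 1024)))))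 (T.b (T.a (T.a (T.l 816) (T.b (T.a (T.a (T.l 816) (T.l 816)) (T.a (T.l 816) (T.l 816))) (T.a (T.a (T.l 816) (T.l 820)) (T.a (T.l 816) (T.l 816))))) (T.b (T.a (T.a (T.l 820) (T.a (T.c (T.l 820) (T.l 820)) (T.l 820))) (T.a (T.a (T.l 820) (T.l 1024)) (T.l 1024))) (T.a (T.a (T.a (T.l 816) (T.l 816)) (T.a (T.a (T.l 816) (T.l 820)) (T.c (T.l 820) (T.l 820)))) (T.l 1024)))) (T.a (T.a (T.b (T.l 816) (T.b (T.l 816) (T.l 816))) (T.b (T.b (T.a (T.a (T.l 816) (T.l 816)) (T.a (T.l 816) (T.l 816))) (T.a (T.a (T.l 816) (T.l 820)) (T.a (T.l 820) (T.l 820)))) (T.b (T.a (T.a (T.b (T.l 816) (T.l 884)) (T.a (T.l 816) (T.l 816))) (T.a (T.c (T.l 820) (T.l 820)) (T.c (T.l 820) (T.l 820)))) (T.a (T.b (T.c (T.a (T.b (T.l 816) (T.l 880)) (T.b (T.l 820) (T.l 884))) (T.a (T.l 816) (T.l 884))) (T.c (T.a (T.a (T.l 816) (T.l 816)) (T.a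 (T.l 816) (T.l 816))) (T.a (T.a (T.l 816) (T.l 816)) (T.a (T.l 816) (T.l 816))))) (T.b (T.a (T.a (T.l 816) (T.l 816)) (T.a (T.l 816) (T.l 820))) (T.c (T.b (T.a (T.c (T.l 884) (T.l 884)) (T.a (T.l 816) (T.l 816))) (T.a (T.a (T.l 816) (T.l 816)) (T.a (T.l 880) (T.l 884)))) (T.b (T.a (T.l 884) (T.c (T.l 884) (T.l 820))) (T.a (T.a (T.l 816) (T.l 816)) (T.a (T.l 816) (T.l 816)))))))))) (T.a (T.b (T.b (T.a (T.a (T.l 816) (T.l 820)) (T.a (T.a (T.l 816) (T.l 820)) (T.a (T.l 816) (T.l 1024)))) (T.a (T.a (T.l 820) (T.l 820)) (T.a (T.a (T.l 816) (T.l 820)) (T.a (T.l 820) (T.l 1024))))) (T.b (T.a (T.a (T.c (T.l 820) (T.l 820)) (T.a (T.l 820) (T.l 884))) (T.b (T.a (T.a (T.l 820) (T.c (T.l 820) (T.l 820))) (T.a (T.l 820) (T.l 1024))) (T.a (T.a (T.l 820) (T.a (T.l 820) (T.l 820))) (T.l 1024)))) (T.b (T.a (T.a (T.a (T.l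 820) (T.l 884)) (T.a (T.l 884) (T.c (T.l 884) (T.l 820)))) (T.a (T.a (T.c (T.l 884) (T.l 820)) (T.a (T.c (T.l 884) (T.l 884)) (T.c (T.l 884) (T.l 820)))) (T.l 1024))) (T.a (T.b (T.c (T.a (T.a (T.l 816) (T.l 884)) (T.a (T.l 884) (T.l 884))) (T.a (T.c (T.l 884) (T.l 884)) (T.a (T.l 820) (T.l 884)))) (T.c (T.a (T.a (T.l 884) (T.l 884)) (T.a (T.a (T.l 884) (T.l 884)) (T.c (T.a (T.l 884) (T.l 884)) (T.c (T.l 884) (T.l 884))))) (T.a (T.a (T.l 880) (T.l 884)) (T.a (T.c (T.l 884) (T.l 884)) (T.c (T.l 884) (T.l 884)))))) (T.a (T.b (T.a (T.c (T.l 884) (T.l 884)) (T.a (T.c (T.c (T.l 884) (T.l 884)) (T.l 884)) (T.c (T.l 884) (T.l 884)))) (T.c (T.b (T.a (T.c (T.l 884) (T.l 884)) (T.a (T.a (T.l 884) (T.l 884)) (T.l 1024))) (T.c (T.a (T.a (T.l 884) (T.l 884)) (T.a (T.a (T.l 884) (T.c (T.l 884) (T.l 884))) (T.l 1024)))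 (T.a (T.a (T.l 884) (T.l 884)) (T.a (T.a (T.l 884) (T.l 884)) (T.l 1024))))) (T.a (T.a (T.l 884) (T.l 884)) (T.a (T.a (T.l 884) (T.l 884)) (T.l 1024))))) (T.l 1024)))))) (T.l 1024))))))), by decide +kernel⟩

def A022E_110 :
    ∃ t, chk3 (onCell 0 50331648 0 1073741824 50331648 16777216 (corTK [] false 3 c0N cA022E gN1q0 gN1q2 gN0q2 gN1q2 true true)) t 1 1 1 = true :=
  ⟨(T.l 2), by decide +kernel⟩

def A022E_111 :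
    ∃ t, chk3 (onCell 0 50331648 0 1073741824 50331648 16777216 (corTK [] false 3 c0N cA022E gN1q0 gN1q2 gN1q2 gN2q2 true true)) t 1 1 1 = true :=
  ⟨(T.l 2), by decide +kernel⟩

def A022E_112 :
    ∃ t, chk3 (onCell 0 50331648 0 1073741824 50331648 16777216 (corTK [] false 3 c0N cA022E gN1q0 gN1q2 gN2q2 gN3q2 true false)) t 1 1 1 = true :=
  ⟨(T.b (T.b (T.a (T.a (T.b (T.l 0) (T.l 816)) (T.b (T.b (T.a (T.b (T.l 204) (T.l 0)) (T.l 0)) (T.l 0)) (T.l 0))) (T.a (T.a (T.b (T.l 0) (T.l 816)) (T.b (T.a (T.l 0) (T.l 0)) (T.l 0))) (T.b (T.a (T.l 16) (T.l 0)) (T.l 0)))) (T.b (T.a (T.a (T.l 816) (T.l 816)) (T.a (T.l 0) (T.l 0))) (T.a (T.a (T.l 816) (T.l 816)) (T.a (T.l 0) (T.l 0))))) (T.b (T.b (T.a (T.a (T.l 816) (T.l 816)) (T.a (T.l 0) (T.l 0))) (T.a (T.a (T.l 816) (T.l 816)) (T.a (T.l 0) (T.l 816)))) (T.a (T.a (T.l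 816) (T.b (T.l 816) (T.l 816))) (T.a (T.l 0) (T.l 816))))), by decide +kernel⟩

def A022E_120 :
    ∃ t, chk3 (onCell 0 50331648 0 1073741824 50331648 16777216 (corTK [] false 3 c0N cA022E gN1q0 gN2q2 gN0q2 gN1q2 true true)) t 1 1 1 = true :=
  ⟨(T.l 2), by decide +kernel⟩

def A022E_121 :
    ∃ t, chk3 (onCell 0 50331648 0 1073741824 50331648 16777216 (corTK [] false 3 c0N cA022E gN1q0 gN2q2 gN1q2 gN2q2 true true)) t 1 1 1 = true :=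
  ⟨(T.b (T.b (T.b (T.b (T.a (T.a (T.l 0) (T.l 2)) (T.l 2)) (T.l 2)) (T.l 2)) (T.l 2)) (T.l 2)), by decide +kernel⟩

def A022E_122 :
    ∃ t, chk3 (onCell 0 50331648 0 1073741824 50331648 16777216 (corTK [] false 3 c0N cA022E gN1q0 gN2q2 gN2q2 gN3q2 true false)) t 1 1 1 = true :=
  ⟨(T.b (T.b (T.b (T.b (T.b (T.a (T.a (T.l 0) (T.l 0)) (T.a (T.a (T.l 0) (T.a (T.l 20) (T.l 0))) (T.a (T.a (T.l 0) (T.l 0)) (T.l 4)))) (T.a (T.a (T.l 816) (T.l 816)) (T.a (T.a (T.l 816) (T.l 4)) (T.a (T.l 0) (T.l 0))))) (T.b (T.a (T.a (T.l 816) (T.l 816)) (T.a (T.a (T.l 816) (T.l 0)) (T.b (T.l 4) (T.l 0)))) (T.a (T.a (T.l 816) (T.l 816)) (T.a (T.a (T.l 816) (T.l 0)) (T.l 4))))) (T.b (T.b (T.a (T.a (T.l 816) (T.l 816)) (T.a (T.a (T.l 816) (T.l 0)) (T.l 0))) (T.a (T.a (T.l 816) (T.l 816)) (T.a (T.l 0) (T.l 0)))) (T.b (T.b (T.a (T.a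 (T.l 816) (T.l 816)) (T.a (T.l 0) (T.l 0))) (T.a (T.a (T.l 816) (T.l 816)) (T.a (T.l 0) (T.l 0)))) (T.b (T.a (T.a (T.l 816) (T.l 816)) (T.a (T.l 0) (T.l 0))) (T.a (T.a (T.l 816) (T.l 816)) (T.a (T.l 0) (T.l 0))))))) (T.b (T.b (T.b (T.b (T.a (T.a (T.l 816) (T.l 816)) (T.a (T.l 0) (T.l 0))) (T.a (T.a (T.l 816) (T.l 816)) (T.a (T.l 0) (T.l 0)))) (T.b (T.a (T.a (T.l 816) (T.l 816)) (T.a (T.l 0) (T.l 0))) (T.a (T.a (T.l 816) (T.l 816)) (T.a (T.l 0) (T.l 0))))) (T.b (T.b (T.a (T.a (T.l 816) (T.l 816)) (T.a (T.l 0) (T.l 0))) (T.a (T.a (T.l 816) (T.l 816)) (T.a (T.l 0) (T.l 0)))) (T.a (T.a (T.l 816) (T.l 816)) (T.a (T.l 0) (T.l 816))))) (T.a (T.a (T.l 816) (T.l 816)) (T.a (T.l 0) (T.l 0))))) (T.b (T.b (T.a (T.a (T.l 816) (T.l 816)) (T.a (T.l 0) (T.l 816))) (T.a (T.a (T.l 816) (T.l 816)) (T.a (T.l 0) (T.l 816))))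 (T.a (T.a (T.l 816) (T.b (T.l 816) (T.l 816))) (T.a (T.l 0) (T.l 816))))), by decide +kernel⟩

def A022E_220 :
    ∃ t, chk3 (onCell 0 50331648 0 1073741824 50331648 16777216 (corTK [] false 3 c0N cA022E gN2q0 gN2q2 gN0q2 gN1q2 true true)) t 1 1 1 = true :=
  ⟨(T.l 2), by decide +kernel⟩

def A022E_221 :
    ∃ t, chk3 (onCell 0 50331648 0 1073741824 50331648 16777216 (corTK [] false 3 c0N cA022E gN2q0 gN2q2 gN1q2 gN2q2 true true)) t 1 1 1 = true :=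
  ⟨(T.b (T.b (T.b (T.b (T.a (T.a (T.l 0) (T.l 2)) (T.l 2)) (T.l 2)) (T.l 2)) (T.l 2)) (T.l 2)), by decide +kernel⟩

end Pool.Agent.Strip051.G.I3_64_1_16.Tab.CN
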