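import Pool.Agent.Strip051.G.I3_64_1_16.Gn
import Pool.Agent.Strip051.PB.Corns
import Pool.Agent.Strip051.PB.CornK

/-! # Certificates of the aligned corners (generated) -/

set_option linter.all false

namespace Pool.Agent.Strip051.G.I3_64_1_16.Tab.CN

open Pool.Agent.Strip051.PB

def A022E_222 :
    ∃ t, chk3 (onCell 0 50331648 0 1073741824 50331648 16777216 (corTK [] false 3 c0N cA022E gN2q0 gN2q2 gN2q2 gN3q2 true false)) t 1 1 1 = true :=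
  ⟨(T.b (T.b (T.b (T.b (T.b (T.b (T.a (T.a (T.l 0) (T.l 0)) (T.a (T.a (T.l 0) (T.a (T.l 0) (T.l 0))) (T.a (T.c (T.l 4) (T.l 20)) (T.l 0)))) (T.a (T.a (T.l 816) (T.l 0)) (T.a (T.a (T.l 816) (T.l 4)) (T.a (T.l 0) (T.l 0))))) (T.b (T.a (T.a (T.l 816) (T.l 816)) (T.a (T.a (T.l 816) (T.l 0)) (T.a (T.l 0) (T.l 0)))) (T.a (T.a (T.l 816) (T.l 816)) (T.a (T.a (T.l 816) (T.l 0)) (T.l 0))))) (T.b (T.b (T.a (T.a (T.l 816) (T.l 816)) (T.a (T.a (T.l 816) (T.l 0)) (T.l 0))) (T.a (T.a (T.l 816) (T.l 816)) (T.a (T.a (T.l 816) (T.l 0)) (T.l 0)))) (T.b (T.a (T.a (T.l 816) (T.l 816)) (T.a (T.a (T.l 816) (T.l 0)) (T.l 0))) (T.a (T.a (T.l 816) (T.l 816)) (T.a (T.a (T.l 816) (T.l 0)) (T.l 0)))))) (T.b (T.b (T.b (T.a (T.a (T.l 816) (T.l 816)) (T.a (T.l 0) (T.l 0))) (T.a (T.a (T.l 816) (T.l 816)) (T.a (T.l 0) (T.l 0))))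 (T.b (T.a (T.a (T.l 816) (T.l 816)) (T.a (T.l 0) (T.l 0))) (T.a (T.a (T.l 816) (T.l 816)) (T.a (T.l 0) (T.l 0))))) (T.b (T.b (T.a (T.a (T.l 816) (T.l 816)) (T.a (T.l 0) (T.l 0))) (T.a (T.a (T.l 816) (T.l 816)) (T.a (T.l 0) (T.l 0)))) (T.b (T.a (T.a (T.l 816) (T.l 816)) (T.a (T.l 0) (T.l 0))) (T.b (T.a (T.a (T.l 816) (T.l 816)) (T.a (T.l 0) (T.l 0))) (T.a (T.a (T.l 816) (T.l 816)) (T.a (T.l 0) (T.l 0)))))))) (T.b (T.b (T.b (T.b (T.b (T.a (T.a (T.l 816) (T.l 816)) (T.a (T.l 0) (T.l 0))) (T.a (T.a (T.l 816) (T.l 816)) (T.a (T.l 0) (T.l 0)))) (T.b (T.a (T.a (T.l 816) (T.l 816)) (T.a (T.l 0) (T.l 0))) (T.a (T.a (T.l 816) (T.l 816)) (T.a (T.l 0) (T.l 0))))) (T.b (T.b (T.a (T.a (T.l 816) (T.l 816)) (T.a (T.l 0) (T.l 0))) (T.a (T.a (T.l 816) (T.l 816)) (T.a (T.l 0) (T.l 0)))) (T.b (T.a (T.a (T.l 816)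 (T.l 816)) (T.a (T.l 0) (T.l 0))) (T.a (T.a (T.l 816) (T.l 816)) (T.a (T.l 0) (T.l 0)))))) (T.b (T.b (T.b (T.a (T.a (T.l 816) (T.l 816)) (T.a (T.l 0) (T.l 0))) (T.a (T.a (T.l 816) (T.l 816)) (T.a (T.l 0) (T.l 0)))) (T.b (T.a (T.a (T.l 816) (T.l 816)) (T.a (T.l 0) (T.l 0))) (T.a (T.a (T.l 816) (T.l 816)) (T.a (T.l 0) (T.l 816))))) (T.a (T.a (T.l 816) (T.l 816)) (T.a (T.l 0) (T.l 816))))) (T.a (T.a (T.l 816) (T.l 816)) (T.a (T.l 0) (T.l 0))))) (T.b (T.a (T.a (T.l 816) (T.b (T.l 816) (T.l 816))) (T.a (T.l 0) (T.l 0))) (T.a (T.a (T.l 816) (T.l 0)) (T.a (T.l 0) (T.l 816))))), by decide +kernel⟩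

def A022L_003_1_2_1 :
    ∃ t, chk3 (onCell 0 50331648 0 1073741824 50331648 16777216 (corTK [] false 3 c0N cA022L gN0q0 gN0q2 gN3q2 gN4q2 false true)) t 1 2 1 = true :=
  ⟨(T.b (T.a (T.a (T.a (T.b (T.b (T.b (T.a (T.b (T.l 204) (T.l 204)) (T.l 204)) (T.a (T.b (T.l 204) (T.l 204)) (T.l 204))) (T.a (T.b (T.l 204) (T.l 204)) (T.l 204))) (T.b (T.b (T.l 204) (T.l 204)) (T.b (T.l 204) (T.l 204)))) (T.a (T.b (T.a (T.b (T.a (T.b (T.l 204) (T.l 204)) (T.l 476)) (T.a (T.l 204) (T.l 204))) (T.b (T.b (T.l 204) (T.l 204)) (T.b (T.l 204) (T.l 204)))) (T.a (T.l 204) (T.b (T.b (T.l 204) (T.l 204)) (T.b (T.l 204) (T.l 204))))) (T.b (T.b (T.a (T.b (T.l 204) (T.l 204)) (T.l 204)) (T.a (T.l 476) (T.l 204))) (T.b (T.a (T.l 476) (T.l 204)) (T.a (T.l 460) (T.l 204)))))) (T.a (T.a (T.b (T.a (T.b (T.l 204) (T.l 204))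 (T.b (T.l 204) (T.l 204))) (T.b (T.b (T.l 204) (T.l 204)) (T.b (T.l 204) (T.l 204)))) (T.b (T.b (T.a (T.b (T.l 204) (T.l 204)) (T.l 476)) (T.a (T.l 204) (T.l 476))) (T.b (T.a (T.l 204) (T.l 476)) (T.b (T.l 204) (T.l 204))))) (T.b (T.a (T.b (T.b (T.l 476) (T.l 476)) (T.b (T.l 476) (T.l 476))) (T.b (T.b (T.l 204) (T.l 204)) (T.b (T.l 204) (T.l 204)))) (T.a (T.b (T.b (T.l 476) (T.l 476)) (T.b (T.l 476) (T.l 476))) (T.b (T.b (T.l 204) (T.l 204)) (T.b (T.l 204) (T.l 204))))))) (T.a (T.a (T.b (T.a (T.b (T.l 220) (T.l 476)) (T.b (T.l 204) (T.l 204))) (T.b (T.a (T.l 476) (T.l 204)) (T.a (T.l 476) (T.l 476)))) (T.b (T.a (T.b (T.l 204) (T.l 204)) (T.l 476)) (T.b (T.b (T.l 204) (T.l 204)) (T.b (T.l 204) (T.l 204))))) (T.b (T.a (T.b (T.l 220) (T.l 476)) (T.b (T.l 204) (T.l 220))) (T.a (T.b (T.l 476) (T.l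 476)) (T.b (T.l 204) (T.l 476)))))) (T.b (T.a (T.a (T.a (T.b (T.l 204) (T.l 204)) (T.a (T.a (T.l 204) (T.b (T.b (T.l 204) (T.l 204)) (T.l 204))) (T.b (T.a (T.l 460) (T.l 204)) (T.b (T.l 476) (T.l 476))))) (T.a (T.a (T.b (T.b (T.l 204) (T.l 204)) (T.b (T.l 204) (T.l 204))) (T.b (T.l 460) (T.l 460))) (T.a (T.b (T.b (T.l 476) (T.l 204)) (T.l 476)) (T.b (T.b (T.l 204) (T.l 204)) (T.b (T.l 204) (T.l 204)))))) (T.a (T.a (T.b (T.a (T.l 476) (T.l 476)) (T.a (T.l 476) (T.l 476))) (T.b (T.b (T.l 476) (T.l 476)) (T.b (T.l 476) (T.l 476)))) (T.a (T.b (T.l 476) (T.b (T.l 204) (T.l 204))) (T.b (T.l 476) (T.l 476))))) (T.a (T.a (T.a (T.b (T.l 204) (T.l 204)) (T.a (T.l 204) (T.a (T.l 204) (T.b (T.l 204) (T.l 204))))) (T.a (T.a (T.b (T.b (T.l 204) (T.l 204)) (T.b (T.l 204) (T.l 204))) (T.b (T.l 476) (T.l 476)))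 (T.b (T.a (T.l 460) (T.l 476)) (T.a (T.l 476) (T.l 204))))) (T.a (T.a (T.b (T.a (T.b (T.l 204) (T.l 204)) (T.l 476)) (T.a (T.l 460) (T.b (T.l 204) (T.l 204)))) (T.b (T.b (T.l 476) (T.l 476)) (T.a (T.l 476) (T.l 476)))) (T.a (T.b (T.b (T.l 460) (T.l 476)) (T.b (T.l 476) (T.l 476))) (T.b (T.l 476) (T.b (T.l 204) (T.l 476)))))))), by decide +kernel⟩

def A022L_003_1_12_1 :
    ∃ t, chk3 (onCell 0 50331648 0 1073741824 50331648 16777216 (corTK [] false 3 c0N cA022L gN0q0 gN0q2 gN3q2 gN4q2 false true)) t 1 12 1 = true :=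
  ⟨(T.a (T.a (T.b (T.l 204) (T.l 0)) (T.a (T.b (T.a (T.b (T.l 204) (T.l 204)) (T.b (T.l 204) (T.l 204))) (T.a (T.l 204) (T.b (T.l 204) (T.l 0)))) (T.b (T.a (T.l 476) (T.l 476)) (T.a (T.b (T.l 204) (T.l 0)) (T.b (T.l 204) (T.l 0)))))) (T.a (T.a (T.b (T.a (T.l 476) (T.l 476)) (T.a (T.b (T.l 204) (T.l 0)) (T.b (T.l 204) (T.l 0)))) (T.b (T.b (T.b (T.l 460) (T.l 460)) (T.b (T.l 476) (T.l 476))) (T.b (T.b (T.l 476) (T.l 460)) (T.b (T.l 460) (T.l 272))))) (T.b (T.a (T.b (T.l 476) (T.l 476)) (T.b (T.l 476) (T.l 476))) (T.a (T.b (T.b (T.l 204) (T.l 460)) (T.b (T.l 460) (T.l 272))) (T.b (T.b (T.l 204) (T.l 204)) (T.b (T.l 460) (T.l 476))))))), by decide +kernel⟩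

def A022L_003_1_52_1 :
    ∃ t, chk3 (onCell 0 50331648 0 1073741824 50331648 16777216 (corTK [] false 3 c0N cA022L gN0q0 gN0q2 gN3q2 gN4q2 false true)) t 1 52 1 = true :=
  ⟨(T.a (T.a (T.l 0) (T.a (T.a (T.l 0) (T.b (T.l 0) (T.l 816))) (T.a (T.a (T.l 0) (T.l 0)) (T.b (T.l 0) (T.l 64))))) (T.a (T.a (T.a (T.b (T.l 0) (T.l 0)) (T.b (T.l 0) (T.l 0))) (T.a (T.b (T.l 0) (T.l 0)) (T.l 68))) (T.a (T.b (T.b (T.l 0) (T.l 0)) (T.b (T.l 0) (T.l 0))) (T.b (T.b (T.l 204) (T.l 0)) (T.a (T.l 0) (T.l 0)))))), by decide +kernel⟩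

def A022L_003_1_212_1 :
    ∃ t, chk3 (onCell 0 50331648 0 1073741824 50331648 16777216 (corTK [] false 3 c0N cA022L gN0q0 gN0q2 gN3q2 gN4q2 false true)) t 1 212 1 = true :=
  ⟨(T.b (T.a (T.a (T.l 816) (T.a (T.l 816) (T.a (T.l 816) (T.l 816)))) (T.a (T.a (T.a (T.l 816) (T.l 816)) (T.l 68)) (T.a (T.l 0) (T.l 68)))) (T.a (T.a (T.l 816) (T.a (T.l 816) (T.a (T.l 884) (T.l 816)))) (T.a (T.a (T.a (T.l 816) (T.l 816)) (T.c (T.l 68) (T.l 68))) (T.a (T.l 884) (T.c (T.l 880) (T.l 816)))))), by decide +kernel⟩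

def A022L_003_1_426_1 :
    ∃ t, chk3 (onCell 0 50331648 0 1073741824 50331648 16777216 (corTK [] false 3 c0N cA022L gN0q0 gN0q2 gN3q2 gN4q2 false true)) t 1 426 1 = true :=
  ⟨(T.a (T.a (T.c (T.b (T.l 816) (T.a (T.c (T.b (T.l 816) (T.c (T.b (T.a (T.a (T.l 2) (T.c (T.b (T.l 816) (T.l 2)) (T.b (T.l 816) (T.l 2)))) (T.a (T.c (T.b (T.l 816) (T.l 2)) (T.b (T.l 816) (T.l 2))) (T.l 816))) (T.l 2)) (T.b (T.a (T.a (T.l 2) (T.c (T.b (T.l 816) (T.l 2)) (T.b (T.l 816) (T.l 2)))) (T.a (T.c (T.b (T.l 816) (T.l 2)) (T.b (T.l 816) (T.l 2))) (T.l 816))) (T.l 2)))) (T.b (T.l 816) (T.c (T.b (T.a (T.a (T.l 2) (T.c (T.b (T.l 816) (T.l 2)) (T.b (T.l 816) (T.l 2)))) (T.a (T.c (T.b (T.l 816) (T.l 2)) (T.b (T.l 816) (T.l 2))) (T.l 816))) (T.l 2)) (T.b (T.a (T.a (T.l 2) (T.c (T.b (T.l 816) (T.l 2)) (T.b (T.l 816) (T.l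 2)))) (T.a (T.c (T.b (T.l 816) (T.l 2)) (T.b (T.l 816) (T.l 2))) (T.l 816))) (T.l 2))))) (T.a (T.c (T.b (T.l 816) (T.c (T.b (T.l 816) (T.c (T.b (T.l 816) (T.l 2)) (T.b (T.l 816) (T.l 2)))) (T.b (T.l 816) (T.c (T.b (T.l 816) (T.l 2)) (T.b (T.l 816) (T.l 2)))))) (T.b (T.l 816) (T.c (T.b (T.l 816) (T.c (T.b (T.l 816) (T.l 2)) (T.b (T.l 816) (T.l 2)))) (T.b (T.l 816) (T.c (T.b (T.l 816) (T.l 2)) (T.b (T.l 816) (T.l 2))))))) (T.l 816)))) (T.b (T.l 816) (T.c (T.b (T.l 816) (T.a (T.c (T.b (T.a (T.a (T.l 2) (T.c (T.b (T.l 816) (T.l 2)) (T.b (T.l 816) (T.l 2)))) (T.a (T.c (T.b (T.l 816) (T.l 2)) (T.b (T.l 816) (T.l 2))) (T.l 816))) (T.l 2)) (T.b (T.a (T.a (T.l 2) (T.c (T.b (T.l 816) (T.l 2)) (T.b (T.l 816) (T.l 2)))) (T.a (T.c (T.b (T.l 816) (T.l 2)) (T.b (T.l 816) (T.l 2))) (T.l 816))) (T.l 2))) (T.a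 (T.c (T.b (T.l 816) (T.c (T.b (T.l 816) (T.l 2)) (T.b (T.l 816) (T.l 2)))) (T.b (T.l 816) (T.c (T.b (T.l 816) (T.l 2)) (T.b (T.l 816) (T.l 2))))) (T.l 816)))) (T.b (T.l 816) (T.a (T.c (T.b (T.a (T.a (T.l 2) (T.c (T.b (T.l 816) (T.l 2)) (T.b (T.l 816) (T.l 2)))) (T.a (T.c (T.b (T.l 816) (T.l 2)) (T.b (T.l 816) (T.l 2))) (T.l 816))) (T.l 2)) (T.b (T.a (T.a (T.l 2) (T.c (T.b (T.l 816) (T.l 2)) (T.b (T.l 816) (T.l 2)))) (T.a (T.c (T.b (T.l 816) (T.l 2)) (T.b (T.l 816) (T.l 2))) (T.l 816))) (T.l 2))) (T.a (T.c (T.b (T.l 816) (T.c (T.b (T.l 816) (T.l 2)) (T.b (T.l 816) (T.l 2)))) (T.a (T.b (T.l 816) (T.c (T.b (T.l 816) (T.l 2)) (T.b (T.l 816) (T.l 2)))) (T.l 816))) (T.l 816))))))) (T.a (T.l 816) (T.a (T.a (T.l 816) (T.l 816)) (T.c (T.l 816) (T.l 816))))) (T.a (T.a (T.a (T.l 816) (T.l 816)) (T.a (T.l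 816) (T.l 816))) (T.a (T.a (T.l 816) (T.l 816)) (T.a (T.l 816) (T.l 816))))), by decide +kernel⟩

def A022L_003_2_427_1 :
    ∃ t, chk3 (onCell 0 50331648 0 1073741824 50331648 16777216 (corTK [] false 3 c0N cA022L gN0q0 gN0q2 gN3q2 gN4q2 false true)) t 2 427 1 = true :=
  ⟨(T.c (T.b (T.a (T.a (T.l 2) (T.a (T.l 2) (T.a (T.l 2) (T.a (T.l 2) (T.c (T.b (T.a (T.l 2) (T.c (T.b (T.c (T.b (T.l 816) (T.l 2)) (T.b (T.l 816) (T.l 2))) (T.l 2)) (T.b (T.c (T.b (T.l 816) (T.l 2)) (T.b (T.l 816) (T.l 2))) (T.l 2)))) (T.l 2)) (T.b (T.a (T.l 2) (T.c (T.b (T.c (T.b (T.l 816) (T.l 2)) (T.b (T.l 816) (T.l 2))) (T.l 2)) (T.b (T.c (T.b (T.l 816) (T.l 2)) (T.b (T.l 816) (T.l 2))) (T.l 2)))) (T.l 2))))))) (T.c (T.b (T.a (T.c (T.b (T.a (T.a (T.c (T.b (T.l 816) (T.l 2)) (T.b (T.l 816) (T.l 2))) (T.l 816)) (T.l 816))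 (T.a (T.l 2) (T.c (T.b (T.l 816) (T.l 2)) (T.b (T.l 816) (T.l 2))))) (T.b (T.a (T.a (T.c (T.b (T.l 816) (T.l 2)) (T.b (T.l 816) (T.l 2))) (T.l 816)) (T.l 816)) (T.a (T.l 2) (T.c (T.b (T.l 816) (T.l 2)) (T.b (T.l 816) (T.l 2)))))) (T.a (T.a (T.l 816) (T.l 816)) (T.l 816))) (T.a (T.l 2) (T.c (T.b (T.a (T.a (T.l 2) (T.a (T.l 2) (T.c (T.b (T.l 816) (T.l 2)) (T.b (T.l 816) (T.l 2))))) (T.a (T.c (T.b (T.l 816) (T.l 2)) (T.b (T.l 816) (T.l 2))) (T.l 816))) (T.l 2)) (T.b (T.a (T.a (T.l 2) (T.a (T.l 2) (T.c (T.b (T.l 816) (T.l 2)) (T.b (T.l 816) (T.l 2))))) (T.a (T.c (T.b (T.l 816) (T.l 2)) (T.b (T.l 816) (T.l 2))) (T.l 816))) (T.l 2))))) (T.b (T.a (T.c (T.b (T.a (T.a (T.c (T.b (T.l 816) (T.l 2)) (T.b (T.l 816) (T.l 2))) (T.l 816)) (T.l 816)) (T.a (T.l 2) (T.c (T.b (T.l 816) (T.l 2)) (T.b (T.l 816) (T.l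 2))))) (T.b (T.a (T.a (T.c (T.b (T.l 816) (T.l 2)) (T.b (T.l 816) (T.l 2))) (T.l 816)) (T.l 816)) (T.a (T.l 2) (T.c (T.b (T.l 816) (T.l 2)) (T.b (T.l 816) (T.l 2)))))) (T.a (T.a (T.l 816) (T.l 816)) (T.l 816))) (T.a (T.l 2) (T.c (T.b (T.a (T.a (T.l 2) (T.a (T.l 2) (T.c (T.b (T.l 816) (T.l 2)) (T.b (T.l 816) (T.l 2))))) (T.a (T.c (T.b (T.l 816) (T.l 2)) (T.b (T.l 816) (T.l 2))) (T.l 816))) (T.l 2)) (T.b (T.a (T.a (T.l 2) (T.a (T.l 2) (T.c (T.b (T.l 816) (T.l 2)) (T.b (T.l 816) (T.l 2))))) (T.a (T.c (T.b (T.l 816) (T.l 2)) (T.b (T.l 816) (T.l 2))) (T.l 816))) (T.l 2))))))) (T.l 2)) (T.b (T.a (T.a (T.l 2) (T.a (T.l 2) (T.a (T.l 2) (T.a (T.l 2) (T.c (T.b (T.a (T.l 2) (T.c (T.b (T.c (T.b (T.l 816) (T.l 2)) (T.b (T.l 816) (T.l 2))) (T.l 2)) (T.b (T.c (T.b (T.l 816) (T.l 2)) (T.b (T.l 816) (T.l 2)))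 (T.l 2)))) (T.l 2)) (T.b (T.a (T.l 2) (T.c (T.b (T.c (T.b (T.l 816) (T.l 2)) (T.b (T.l 816) (T.l 2))) (T.l 2)) (T.b (T.a (T.l 2) (T.l 952)) (T.l 2)))) (T.l 2))))))) (T.c (T.b (T.a (T.c (T.b (T.a (T.a (T.c (T.b (T.l 816) (T.l 2)) (T.b (T.l 816) (T.l 2))) (T.l 816)) (T.l 816)) (T.a (T.l 2) (T.c (T.b (T.l 816) (T.l 2)) (T.b (T.l 816) (T.l 2))))) (T.b (T.a (T.a (T.c (T.b (T.l 816) (T.l 2)) (T.l 816)) (T.l 816)) (T.l 816)) (T.a (T.l 2) (T.c (T.b (T.l 816) (T.l 2)) (T.b (T.l 816) (T.l 2)))))) (T.a (T.a (T.l 816) (T.l 816)) (T.l 816))) (T.a (T.l 2) (T.c (T.b (T.a (T.a (T.l 2) (T.a (T.l 2) (T.c (T.b (T.l 816) (T.l 2)) (T.b (T.l 816) (T.l 2))))) (T.a (T.c (T.b (T.l 816) (T.l 2)) (T.b (T.l 816) (T.l 2))) (T.l 816))) (T.l 2)) (T.b (T.a (T.a (T.l 2) (T.a (T.l 2) (T.c (T.b (T.l 816) (T.l 2)) (T.b (T.l 816)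 (T.l 2))))) (T.a (T.c (T.a (T.l 816) (T.l 816)) (T.a (T.l 816) (T.l 816))) (T.l 816))) (T.l 2))))) (T.b (T.a (T.c (T.b (T.a (T.l 816) (T.l 816)) (T.a (T.l 2) (T.c (T.b (T.l 816) (T.l 2)) (T.b (T.l 816) (T.l 2))))) (T.b (T.l 816) (T.a (T.l 2) (T.c (T.b (T.l 816) (T.l 2)) (T.b (T.l 816) (T.l 2)))))) (T.a (T.a (T.l 816) (T.l 816)) (T.l 816))) (T.a (T.l 2) (T.c (T.b (T.a (T.a (T.l 2) (T.c (T.b (T.l 816) (T.l 2)) (T.b (T.l 816) (T.l 2)))) (T.a (T.a (T.l 816) (T.l 816)) (T.l 816))) (T.l 2)) (T.b (T.a (T.a (T.l 2) (T.c (T.b (T.l 816) (T.l 2)) (T.b (T.l 816) (T.l 2)))) (T.a (T.a (T.l 816) (T.l 816)) (T.l 816))) (T.l 2))))))) (T.l 2))), by decide +kernel⟩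

def A022L_003_3_427_1 :
    ∃ t, chk3 (onCell 0 50331648 0 1073741824 50331648 16777216 (corTK [] false 3 c0N cA022L gN0q0 gN0q2 gN3q2 gN4q2 false true)) t 3 427 1 = true :=
  ⟨(T.a (T.a (T.c (T.b (T.a (T.c (T.b (T.l 816) (T.c (T.b (T.l 816) (T.c (T.b (T.a (T.a (T.l 2) (T.l 816)) (T.l 816)) (T.l 2)) (T.b (T.a (T.l 952) (T.l 816)) (T.l 2)))) (T.b (T.l 816) (T.c (T.b (T.a (T.l 816) (T.l 816)) (T.l 2)) (T.b (T.a (T.l 816) (T.l 816)) (T.l 2)))))) (T.b (T.l 816) (T.c (T.b (T.l 816) (T.c (T.b (T.a (T.l 816) (T.l 816)) (T.l 2)) (T.b (T.a (T.l 816) (T.l 816)) (T.l 2)))) (T.b (T.l 816) (T.c (T.b (T.a (T.l 816) (T.l 816)) (T.l 2)) (T.b (T.a (T.l 816) (T.l 816)) (T.l 2))))))) (T.a (T.l 816) (T.l 816))) (T.a (T.l 2) (T.a (T.l 2) (T.a (T.l 2) (T.c (T.b (T.a (T.l 2) (T.c (T.b (T.c (T.b (T.l 816) (T.l 2))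 (T.b (T.l 816) (T.l 2))) (T.l 2)) (T.b (T.c (T.b (T.l 816) (T.l 2)) (T.b (T.l 816) (T.l 2))) (T.l 2)))) (T.l 2)) (T.b (T.a (T.l 2) (T.c (T.b (T.c (T.b (T.l 816) (T.l 2)) (T.b (T.l 816) (T.l 2))) (T.l 2)) (T.b (T.l 952) (T.l 2)))) (T.l 2))))))) (T.b (T.a (T.c (T.b (T.l 816) (T.c (T.b (T.l 816) (T.c (T.b (T.a (T.l 816) (T.l 816)) (T.l 2)) (T.b (T.a (T.l 816) (T.l 816)) (T.l 2)))) (T.b (T.l 816) (T.c (T.b (T.a (T.l 816) (T.l 816)) (T.l 2)) (T.b (T.a (T.l 816) (T.l 816)) (T.l 2)))))) (T.b (T.l 816) (T.c (T.b (T.l 816) (T.c (T.b (T.a (T.l 816) (T.l 816)) (T.l 2)) (T.b (T.a (T.l 816) (T.l 816)) (T.l 2)))) (T.b (T.l 816) (T.c (T.a (T.b (T.l 816) (T.l 2)) (T.l 816)) (T.a (T.b (T.l 816) (T.l 2)) (T.l 816))))))) (T.a (T.l 816) (T.l 816))) (T.a (T.l 2) (T.a (T.l 2) (T.a (T.l 2) (T.c (T.b (T.c (T.b (T.a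 (T.l 2) (T.l 816)) (T.l 2)) (T.b (T.a (T.l 2) (T.l 816)) (T.l 2))) (T.l 2)) (T.b (T.c (T.b (T.a (T.l 2) (T.l 816)) (T.l 2)) (T.b (T.l 952) (T.l 2))) (T.l 2)))))))) (T.c (T.b (T.a (T.l 816) (T.l 816)) (T.c (T.b (T.a (T.c (T.b (T.a (T.c (T.b (T.l 816) (T.l 2)) (T.b (T.l 816) (T.l 2))) (T.l 816)) (T.l 2)) (T.b (T.a (T.c (T.b (T.l 816) (T.l 2)) (T.a (T.l 952) (T.l 816))) (T.l 816)) (T.l 2))) (T.c (T.b (T.l 816) (T.c (T.b (T.a (T.l 816) (T.l 816)) (T.l 2)) (T.b (T.a (T.l 816) (T.l 816)) (T.l 2)))) (T.b (T.l 816) (T.c (T.b (T.a (T.l 816) (T.l 816)) (T.l 2)) (T.b (T.a (T.l 816) (T.l 816)) (T.l 2)))))) (T.l 2)) (T.b (T.a (T.c (T.b (T.a (T.a (T.l 816) (T.l 816)) (T.l 816)) (T.l 2)) (T.b (T.a (T.a (T.l 816) (T.l 816)) (T.l 816)) (T.l 2))) (T.c (T.b (T.l 816) (T.c (T.b (T.a (T.l 816) (T.l 816)) (T.l 2))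 (T.a (T.b (T.l 816) (T.l 2)) (T.l 816)))) (T.a (T.b (T.l 816) (T.c (T.b (T.l 816) (T.l 2)) (T.b (T.l 816) (T.l 2)))) (T.l 816)))) (T.l 2)))) (T.b (T.a (T.l 816) (T.l 816)) (T.c (T.b (T.a (T.c (T.b (T.a (T.a (T.l 816) (T.l 816)) (T.l 816)) (T.l 2)) (T.b (T.a (T.l 816) (T.l 816)) (T.l 2))) (T.a (T.c (T.b (T.l 816) (T.c (T.b (T.l 816) (T.l 2)) (T.b (T.l 816) (T.l 2)))) (T.b (T.l 816) (T.a (T.l 2) (T.l 952)))) (T.l 816))) (T.l 2)) (T.b (T.a (T.c (T.b (T.a (T.l 816) (T.l 816)) (T.l 2)) (T.b (T.a (T.l 816) (T.l 816)) (T.l 2))) (T.a (T.c (T.b (T.l 816) (T.a (T.l 2) (T.l 816))) (T.a (T.b (T.l 816) (T.l 2)) (T.l 816))) (T.l 816))) (T.l 2)))))) (T.a (T.a (T.c (T.b (T.l 816) (T.c (T.b (T.l 816) (T.a (T.l 2) (T.a (T.l 2) (T.c (T.b (T.c (T.b (T.l 816) (T.l 2)) (T.b (T.l 816) (T.l 2))) (T.l 2)) (T.b (T.c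 (T.b (T.l 816) (T.l 2)) (T.b (T.l 816) (T.l 2))) (T.l 2)))))) (T.b (T.l 816) (T.a (T.l 2) (T.a (T.l 2) (T.c (T.b (T.c (T.b (T.l 816) (T.l 2)) (T.b (T.l 816) (T.l 2))) (T.l 2)) (T.b (T.c (T.l 952) (T.l 952)) (T.l 2)))))))) (T.b (T.l 816) (T.c (T.b (T.l 816) (T.a (T.l 2) (T.a (T.l 2) (T.c (T.b (T.l 952) (T.l 2)) (T.b (T.l 816) (T.l 2)))))) (T.b (T.l 816) (T.a (T.l 2) (T.c (T.b (T.a (T.l 2) (T.l 816)) (T.l 2)) (T.b (T.a (T.l 2) (T.l 816)) (T.l 2)))))))) (T.c (T.b (T.l 816) (T.c (T.b (T.l 816) (T.c (T.b (T.a (T.a (T.l 816) (T.l 816)) (T.l 816)) (T.l 2)) (T.b (T.a (T.l 816) (T.l 816)) (T.l 2)))) (T.b (T.l 816) (T.c (T.b (T.a (T.l 816) (T.l 816)) (T.l 2)) (T.b (T.a (T.l 816) (T.l 816)) (T.l 2)))))) (T.b (T.l 816) (T.c (T.b (T.l 816) (T.c (T.b (T.a (T.l 816) (T.l 816)) (T.l 2)) (T.b (T.a (T.l 816)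 (T.l 816)) (T.l 2)))) (T.b (T.l 816) (T.c (T.b (T.a (T.l 816) (T.l 816)) (T.l 2)) (T.b (T.l 816) (T.l 2)))))))) (T.a (T.c (T.b (T.l 816) (T.c (T.b (T.l 816) (T.c (T.b (T.l 816) (T.c (T.b (T.a (T.l 816) (T.l 816)) (T.l 2)) (T.b (T.a (T.l 816) (T.l 816)) (T.l 2)))) (T.a (T.b (T.l 816) (T.c (T.b (T.l 816) (T.l 2)) (T.b (T.l 816) (T.l 2)))) (T.l 816)))) (T.b (T.l 816) (T.a (T.c (T.b (T.l 816) (T.c (T.b (T.l 816) (T.l 2)) (T.a (T.l 2) (T.l 952)))) (T.b (T.l 816) (T.a (T.l 2) (T.l 952)))) (T.l 816))))) (T.b (T.l 816) (T.c (T.a (T.b (T.l 816) (T.c (T.a (T.b (T.l 816) (T.l 2)) (T.l 816)) (T.a (T.b (T.l 816) (T.l 2)) (T.l 816)))) (T.l 816)) (T.a (T.a (T.b (T.l 816) (T.c (T.b (T.l 816) (T.l 2)) (T.b (T.l 816) (T.l 2)))) (T.l 816)) (T.l 816))))) (T.a (T.c (T.l 816) (T.l 816)) (T.l 816))))), by decide +kernel⟩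

def A022L_003_1_107_1 :
    ∃ t, chk3 (onCell 0 50331648 0 1073741824 50331648 16777216 (corTK [] false 3 c0N cA022L gN0q0 gN0q2 gN3q2 gN4q2 false true)) t 1 107 1 = true :=
  ⟨(T.a (T.l 2) (T.a (T.l 2) (T.a (T.l 2) (T.b (T.a (T.l 2) (T.b (T.a (T.l 2) (T.c (T.b (T.c (T.b (T.c (T.b (T.c (T.b (T.l 816) (T.l 2)) (T.b (T.l 816) (T.l 2))) (T.l 2)) (T.b (T.c (T.b (T.l 816) (T.l 2)) (T.b (T.l 816) (T.l 2))) (T.l 2))) (T.l 2)) (T.b (T.c (T.b (T.c (T.b (T.l 816) (T.l 2)) (T.b (T.l 816) (T.l 2))) (T.l 2)) (T.b (T.c (T.b (T.l 816) (T.l 2)) (T.b (T.l 816) (T.l 2))) (T.l 2))) (T.l 2))) (T.l 2)) (T.b (T.c (T.b (T.c (T.b (T.c (T.b (T.l 816) (T.l 2)) (T.b (T.l 816) (T.l 2))) (T.l 2)) (T.b (T.c (T.b (T.l 816) (T.l 2)) (T.a (T.l 952) (T.l 816))) (T.l 2))) (T.l 2)) (T.b (T.c (T.b (T.a (T.l 952) (T.l 816)) (T.l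 2)) (T.b (T.a (T.l 952) (T.l 816)) (T.l 2))) (T.l 2))) (T.l 2)))) (T.l 2))) (T.l 2))))), by decide +kernel⟩

def A022L_003_1_27_1 :
    ∃ t, chk3 (onCell 0 50331648 0 1073741824 50331648 16777216 (corTK [] false 3 c0N cA022L gN0q0 gN0q2 gN3q2 gN4q2 false true)) t 1 27 1 = true :=
  ⟨(T.l 2), by decide +kernel⟩

def A022L_003_1_7_1 :
    ∃ t, chk3 (onCell 0 50331648 0 1073741824 50331648 16777216 (corTK [] false 3 c0N cA022L gN0q0 gN0q2 gN3q2 gN4q2 false true)) t 1 7 1 = true :=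
  ⟨(T.l 2), by decide +kernel⟩

theorem A022L_003_1_427_1 :
    ∃ t, chk3 (onCell 0 50331648 0 1073741824 50331648 16777216 (corTK [] false 3 c0N cA022L gN0q0 gN0q2 gN3q2 gN4q2 false true)) t 1 427 1 = true :=
  ex3_a A022L_003_2_427_1 A022L_003_3_427_1
theorem A022L_003_1_213_1 :
    ∃ t, chk3 (onCell 0 50331648 0 1073741824 50331648 16777216 (corTK [] false 3 c0N cA022L gN0q0 gN0q2 gN3q2 gN4q2 false true)) t 1 213 1 = true :=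
  ex3_b A022L_003_1_426_1 A022L_003_1_427_1
theorem A022L_003_1_106_1 :
    ∃ t, chk3 (onCell 0 50331648 0 1073741824 50331648 16777216 (corTK [] false 3 c0N cA022L gN0q0 gN0q2 gN3q2 gN4q2 false true)) t 1 106 1 = true :=
  ex3_b A022L_003_1_212_1 A022L_003_1_213_1
theorem A022L_003_1_53_1 :
    ∃ t, chk3 (onCell 0 50331648 0 1073741824 50331648 16777216 (corTK [] false 3 c0N cA022L gN0q0 gN0q2 gN3q2 gN4q2 false true)) t 1 53 1 = true :=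
  ex3_b A022L_003_1_106_1 A022L_003_1_107_1
theorem A022L_003_1_26_1 :
    ∃ t, chk3 (onCell 0 50331648 0 1073741824 50331648 16777216 (corTK [] false 3 c0N cA022L gN0q0 gN0q2 gN3q2 gN4q2 false true)) t 1 26 1 = true :=
  ex3_b A022L_003_1_52_1 A022L_003_1_53_1
theorem A022L_003_1_13_1 :
    ∃ t, chk3 (onCell 0 50331648 0 1073741824 50331648 16777216 (corTK [] false 3 c0N cA022L gN0q0 gN0q2 gN3q2 gN4q2 false true)) t 1 13 1 = true :=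
  ex3_b A022L_003_1_26_1 A022L_003_1_27_1
theorem A022L_003_1_6_1 :
    ∃ t, chk3 (onCell 0 50331648 0 1073741824 50331648 16777216 (corTK [] false 3 c0N cA022L gN0q0 gN0q2 gN3q2 gN4q2 false true)) t 1 6 1 = true :=
  ex3_b A022L_003_1_12_1 A022L_003_1_13_1
theorem A022L_003_1_3_1 :
    ∃ t, chk3 (onCell 0 50331648 0 1073741824 50331648 16777216 (corTK [] false 3 c0N cA022L gN0q0 gN0q2 gN3q2 gN4q2 false true)) t 1 3 1 = true :=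
  ex3_b A022L_003_1_6_1 A022L_003_1_7_1
theorem A022L_003 :
    ∃ t, chk3 (onCell 0 50331648 0 1073741824 50331648 16777216 (corTK [] false 3 c0N cA022L gN0q0 gN0q2 gN3q2 gN4q2 false true)) t 1 1 1 = true :=
  ex3_b A022L_003_1_2_1 A022L_003_1_3_1

def A022L_013 :
    ∃ t, chk3 (onCell 0 50331648 0 1073741824 50331648 16777216 (corTK [] false 3 c0N cA022L gN0q0 gN1q2 gN3q2 gN4q2 false true)) t 1 1 1 = true :=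
  ⟨(T.b (T.b (T.a (T.a (T.l 204) (T.a (T.b (T.l 0) (T.l 0)) (T.b (T.l 204) (T.l 0)))) (T.a (T.b (T.l 0) (T.l 272)) (T.b (T.l 204) (T.l 0)))) (T.l 2)) (T.l 2)), by decide +kernel⟩

def A022L_023 :
    ∃ t, chk3 (onCell 0 50331648 0 1073741824 50331648 16777216 (corTK [] false 3 c0N cA022L gN0q0 gN2q2 gN3q2 gN4q2 false true)) t 1 1 1 = true :=
  ⟨(T.l 2), by decide +kernel⟩

def A022L_113 :
    ∃ t, chk3 (onCell 0 50331648 0 1073741824 50331648 16777216 (corTK [] false 3 c0N cA022L gN1q0 gN1q2 gN3q2 gN4q2 false true)) t 1 1 1 = true :=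
  ⟨(T.b (T.b (T.b (T.a (T.a (T.l 0) (T.a (T.l 0) (T.l 0))) (T.a (T.b (T.l 0) (T.l 0)) (T.l 0))) (T.l 2)) (T.l 2)) (T.l 2)), by decide +kernel⟩

def A022L_123 :
    ∃ t, chk3 (onCell 0 50331648 0 1073741824 50331648 16777216 (corTK [] false 3 c0N cA022L gN1q0 gN2q2 gN3q2 gN4q2 false true)) t 1 1 1 = true :=
  ⟨(T.l 2), by decide +kernel⟩

def A022L_223 :
    ∃ t, chk3 (onCell 0 50331648 0 1073741824 50331648 16777216 (corTK [] false 3 c0N cA022L gN2q0 gN2q2 gN3q2 gN4q2 false true)) t 1 1 1 = true :=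
  ⟨(T.l 2), by decide +kernel⟩

def A022R_040 :
    ∃ t, chk3 (onCell 0 50331648 0 1073741824 50331648 16777216 (corTK [] false 3 c0N cA022R gN0q0 gN4q2 gN0q2 gN1q2 true true)) t 1 1 1 = true :=
  ⟨(T.l 2), by decide +kernel⟩

def A022R_041 :
    ∃ t, chk3 (onCell 0 50331648 0 1073741824 50331648 16777216 (corTK [] false 3 c0N cA022R gN0q0 gN4q2 gN1q2 gN2q2 true true)) t 1 1 1 = true :=
  ⟨(T.b (T.b (T.b (T.a (T.a (T.l 204) (T.a (T.l 204) (T.l 0))) (T.a (T.a (T.l 0) (T.l 0)) (T.b (T.l 0) (T.l 0)))) (T.a (T.a (T.l 204) (T.a (T.l 0) (T.l 0))) (T.a (T.a (T.l 0) (T.l 0)) (T.l 340)))) (T.b (T.a (T.a (T.l 0) (T.l 0)) (T.a (T.a (T.l 0) (T.l 0)) (T.a (T.l 0) (T.l 0)))) (T.b (T.a (T.a (T.l 816) (T.l 0)) (T.a (T.a (T.l 816) (T.l 0)) (T.b (T.l 64) (T.l 64)))) (T.b (T.a (T.a (T.l 816) (T.l 0)) (T.a (T.a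 (T.l 816) (T.l 0)) (T.l 64))) (T.a (T.a (T.l 816) (T.l 64)) (T.a (T.a (T.l 816) (T.l 0)) (T.l 64))))))) (T.b (T.b (T.b (T.b (T.a (T.a (T.l 816) (T.l 64)) (T.a (T.a (T.l 816) (T.l 0)) (T.b (T.l 64) (T.l 64)))) (T.a (T.a (T.l 816) (T.a (T.l 816) (T.l 816))) (T.a (T.a (T.l 816) (T.l 0)) (T.a (T.l 816) (T.l 816))))) (T.b (T.a (T.a (T.l 816) (T.a (T.l 816) (T.l 816))) (T.a (T.a (T.l 816) (T.l 0)) (T.a (T.l 816) (T.l 816)))) (T.a (T.a (T.l 816) (T.a (T.l 816) (T.l 816))) (T.a (T.a (T.l 816) (T.l 0)) (T.a (T.l 816) (T.l 816)))))) (T.b (T.b (T.a (T.a (T.l 816) (T.a (T.l 816) (T.l 816))) (T.a (T.a (T.l 816) (T.l 0)) (T.a (T.l 816) (T.l 816)))) (T.a (T.a (T.l 816) (T.a (T.l 816) (T.l 816))) (T.a (T.a (T.l 816) (T.l 0)) (T.a (T.l 816) (T.l 816))))) (T.b (T.a (T.a (T.l 816) (T.a (T.l 816) (T.l 816))) (T.a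 (T.a (T.l 816) (T.l 0)) (T.a (T.l 816) (T.l 816)))) (T.a (T.a (T.l 816) (T.a (T.l 816) (T.l 816))) (T.a (T.a (T.l 816) (T.l 0)) (T.a (T.l 816) (T.l 816))))))) (T.b (T.b (T.b (T.a (T.a (T.l 816) (T.a (T.l 816) (T.l 816))) (T.a (T.a (T.l 816) (T.l 0)) (T.a (T.l 816) (T.l 816)))) (T.a (T.a (T.l 816) (T.a (T.l 816) (T.l 816))) (T.a (T.a (T.l 816) (T.l 880)) (T.a (T.l 816) (T.l 816))))) (T.b (T.a (T.a (T.l 816) (T.a (T.l 816) (T.l 816))) (T.a (T.a (T.l 816) (T.l 880)) (T.a (T.l 816) (T.l 816)))) (T.a (T.a (T.l 816) (T.a (T.l 816) (T.l 816))) (T.a (T.a (T.l 816) (T.l 880)) (T.a (T.l 816) (T.l 816)))))) (T.b (T.a (T.a (T.l 816) (T.a (T.b (T.l 816) (T.l 880)) (T.l 816))) (T.a (T.a (T.l 816) (T.a (T.l 816) (T.l 816))) (T.a (T.l 816) (T.l 816)))) (T.a (T.a (T.l 816) (T.a (T.a (T.l 816) (T.l 816)) (T.l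 816))) (T.b (T.a (T.a (T.l 816) (T.a (T.l 816) (T.l 816))) (T.a (T.l 816) (T.l 816))) (T.l 2))))))), by decide +kernel⟩

def A022R_042 :
    ∃ t, chk3 (onCell 0 50331648 0 1073741824 50331648 16777216 (corTK [] false 3 c0N cA022R gN0q0 gN4q2 gN2q2 gN3q2 true false)) t 1 1 1 = true :=
  ⟨(T.b (T.l 1) (T.b (T.l 1) (T.b (T.l 1) (T.b (T.a (T.l 1) (T.b (T.l 1) (T.a (T.l 1) (T.a (T.l 1) (T.l 816))))) (T.a (T.a (T.l 816) (T.a (T.l 816) (T.l 816))) (T.a (T.a (T.l 816) (T.a (T.l 816) (T.l 816))) (T.a (T.l 816) (T.l 816)))))))), by decide +kernel⟩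

def A022R_140 :
    ∃ t, chk3 (onCell 0 50331648 0 1073741824 50331648 16777216 (corTK [] false 3 c0N cA022R gN1q0 gN4q2 gN0q2 gN1q2 true true)) t 1 1 1 = true :=
  ⟨(T.b (T.b (T.a (T.b (T.l 2) (T.b (T.l 2) (T.a (T.a (T.l 816) (T.l 2)) (T.l 2)))) (T.l 2)) (T.b (T.a (T.a (T.a (T.l 816) (T.l 816)) (T.l 0)) (T.a (T.l 816) (T.l 2))) (T.a (T.a (T.a (T.l 816) (T.l 816)) (T.l 816)) (T.a (T.l 0) (T.l 816))))) (T.b (T.a (T.b (T.a (T.a (T.l 816) (T.l 816)) (T.l 816)) (T.a (T.a (T.l 816) (T.l 816)) (T.l 0))) (T.a (T.l 64) (T.l 0))) (T.a (T.a (T.a (T.l 816) (T.l 816)) (T.b (T.l 816) (T.l 816))) (T.a (T.l 816) (T.l 816))))), by decide +kernel⟩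

def A022R_141 :
    ∃ t, chk3 (onCell 0 50331648 0 1073741824 50331648 16777216 (corTK [] false 3 c0N cA022R gN1q0 gN4q2 gN1q2 gN2q2 true true)) t 1 1 1 = true :=
  ⟨(T.b (T.b (T.b (T.a (T.a (T.l 0) (T.a (T.l 0) (T.l 0))) (T.a (T.a (T.l 0) (T.l 0)) (T.b (T.l 0) (T.l 0)))) (T.a (T.a (T.l 816) (T.l 0)) (T.a (T.l 0) (T.l 0)))) (T.b (T.a (T.a (T.l 816) (T.l 816)) (T.a (T.l 816) (T.l 0))) (T.a (T.l 1) (T.b (T.l 0) (T.l 0))))) (T.b (T.b (T.b (T.l 1) (T.l 1)) (T.l 1)) (T.l 1))), by decide +kernel⟩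

def A022R_142 :
    ∃ t, chk3 (onCell 0 50331648 0 1073741824 50331648 16777216 (corTK [] false 3 c0N cA022R gN1q0 gN4q2 gN2q2 gN3q2 true false)) t 1 1 1 = true :=
  ⟨(T.l 1), by decide +kernel⟩

def A022R_240 :
    ∃ t, chk3 (onCell 0 50331648 0 1073741824 50331648 16777216 (corTK [] false 3 c0N cA022R gN2q0 gN4q2 gN0q2 gN1q2 true true)) t 1 1 1 = true :=
  ⟨(T.b (T.b (T.b (T.a (T.b (T.l 2) (T.b (T.l 2) (T.a (T.a (T.l 816) (T.l 0)) (T.l 0)))) (T.l 2)) (T.a (T.a (T.a (T.l 816) (T.l 0)) (T.l 0)) (T.a (T.l 0) (T.l 816)))) (T.b (T.a (T.a (T.a (T.l 816) (T.l 816)) (T.l 816)) (T.b (T.l 0) (T.l 0))) (T.a (T.a (T.a (T.l 816) (T.l 816)) (T.l 816)) (T.b (T.l 0) (T.l 0))))) (T.b (T.b (T.a (T.a (T.a (T.l 816) (T.l 816)) (T.l 816)) (T.l 0)) (T.a (T.a (T.a (T.l 816) (T.l 816)) (T.l 816)) (T.l 0))) (T.a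 (T.a (T.a (T.l 816) (T.l 816)) (T.l 0)) (T.b (T.l 816) (T.l 816))))), by decide +kernel⟩

def A022R_241 :
    ∃ t, chk3 (onCell 0 50331648 0 1073741824 50331648 16777216 (corTK [] false 3 c0N cA022R gN2q0 gN4q2 gN1q2 gN2q2 true true)) t 1 1 1 = true :=
  ⟨(T.b (T.b (T.b (T.b (T.a (T.a (T.l 0) (T.a (T.l 0) (T.l 0))) (T.a (T.a (T.l 0) (T.l 0)) (T.l 272))) (T.a (T.a (T.l 816) (T.l 0)) (T.a (T.l 0) (T.l 0)))) (T.b (T.a (T.a (T.l 1) (T.l 0)) (T.l 0)) (T.l 1))) (T.l 1)) (T.l 1)), by decide +kernel⟩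

def A022R_242 :
    ∃ t, chk3 (onCell 0 50331648 0 1073741824 50331648 16777216 (corTK [] false 3 c0N cA022R gN2q0 gN4q2 gN2q2 gN3q2 true false)) t 1 1 1 = true :=
  ⟨(T.l 1), by decide +kernel⟩

def A101E_000 :
    ∃ t, chk3 (onCell 0 50331648 0 1073741824 50331648 16777216 (corTK [] false 3 c0N cA101E gN0q1 gN0q0 gN0q1 gN1q1 true false)) t 1 1 1 = true :=
  ⟨(T.l 1), by decide +kernel⟩

def A101E_010 :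
    ∃ t, chk3 (onCell 0 50331648 0 1073741824 50331648 16777216 (corTK [] false 3 c0N cA101E gN0q1 gN1q0 gN0q1 gN1q1 true false)) t 1 1 1 = true :=
  ⟨(T.l 1), by decide +kernel⟩

def A101E_020 :
    ∃ t, chk3 (onCell 0 50331648 0 1073741824 50331648 16777216 (corTK [] false 3 c0N cA101E gN0q1 gN2q0 gN0q1 gN1q1 true false)) t 1 1 1 = true :=
  ⟨(T.b (T.l 1) (T.b (T.l 1) (T.b (T.l 1) (T.a (T.b (T.l 1) (T.a (T.a (T.l 204) (T.l 204)) (T.l 204))) (T.l 204))))), by decide +kernel⟩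

def A101L_220 :
    ∃ t, chk3 (onCell 0 50331648 0 1073741824 50331648 16777216 (corTK [] false 3 c0N cA101L gN2q1 gN2q0 gN0q1 gN1q1 true false)) t 1 1 1 = true :=
  ⟨(T.l 1), by decide +kernel⟩

def A101R_001 :
    ∃ t, chk3 (onCell 0 50331648 0 1073741824 50331648 16777216 (corTK [] false 3 c0N cA101R gN0q1 gN0q0 gN1q1 gN2q1 false true)) t 1 1 1 = true :=
  ⟨(T.l 2), by decide +kernel⟩

def A101R_002 :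
    ∃ t, chk3 (onCell 0 50331648 0 1073741824 50331648 16777216 (corTK [] false 3 c0N cA101R gN0q1 gN0q0 gN2q1 gN3q1 true true)) t 1 1 1 = true :=
  ⟨(T.l 2), by decide +kernel⟩

def A101R_003 :
    ∃ t, chk3 (onCell 0 50331648 0 1073741824 50331648 16777216 (corTK [] false 3 c0N cA101R gN0q1 gN0q0 gN3q1 gN4q1 true true)) t 1 1 1 = true :=
  ⟨(T.l 2), by decide +kernel⟩

def A101R_011 :
    ∃ t, chk3 (onCell 0 50331648 0 1073741824 50331648 16777216 (corTK [] false 3 c0N cA101R gN0q1 gN1q0 gN1q1 gN2q1 false true)) t 1 1 1 = true :=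
  ⟨(T.l 2), by decide +kernel⟩

def A101R_012 :
    ∃ t, chk3 (onCell 0 50331648 0 1073741824 50331648 16777216 (corTK [] false 3 c0N cA101R gN0q1 gN1q0 gN2q1 gN3q1 true true)) t 1 1 1 = true :=
  ⟨(T.l 2), by decide +kernel⟩

def A101R_013 :
    ∃ t, chk3 (onCell 0 50331648 0 1073741824 50331648 16777216 (corTK [] false 3 c0N cA101R gN0q1 gN1q0 gN3q1 gN4q1 true true)) t 1 1 1 = true :=
  ⟨(T.l 2), by decide +kernel⟩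

def A101R_021 :
    ∃ t, chk3 (onCell 0 50331648 0 1073741824 50331648 16777216 (corTK [] false 3 c0N cA101R gN0q1 gN2q0 gN1q1 gN2q1 false true)) t 1 1 1 = true :=
  ⟨(T.l 2), by decide +kernel⟩

def A101R_022 :
    ∃ t, chk3 (onCell 0 50331648 0 1073741824 50331648 16777216 (corTK [] false 3 c0N cA101R gN0q1 gN2q0 gN2q1 gN3q1 true true)) t 1 1 1 = true :=
  ⟨(T.l 2), by decide +kernel⟩

def A101R_023 :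
    ∃ t, chk3 (onCell 0 50331648 0 1073741824 50331648 16777216 (corTK [] false 3 c0N cA101R gN0q1 gN2q0 gN3q1 gN4q1 true true)) t 1 1 1 = true :=
  ⟨(T.l 2), by decide +kernel⟩

def A102E_000_1_2_1 :
    ∃ t, chk3 (onCell 0 50331648 0 1073741824 50331648 16777216 (corTK [[⟨0, 1, 0, 8388608⟩, ⟨1, 0, 1, 25165824⟩, ⟨2, 1, 1, 25165824⟩, ⟨1, 0, 0, 83886080⟩, ⟨1, 1, 0, 1040187392⟩, ⟨2, 1, 0, 83886080⟩, ⟨2, 2, 0, 1040187392⟩]] false 3 c0N cA102E gN0q1 gN0q0 gN0q2 gN1q2 true true)) t 1 2 1 = true :=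
  ⟨(T.b (T.l 2) (T.b (T.b (T.b (T.l 2) (T.b (T.a (T.b (T.b (T.l 2) (T.a (T.a (T.l 204) (T.a (T.l 204) (T.c (T.l 204) (T.l 204)))) (T.a (T.l 2) (T.l 2)))) (T.b (T.a (T.a (T.l 204) (T.a (T.l 204) (T.c (T.l 204) (T.l 204)))) (T.a (T.a (T.l 204) (T.l 204)) (T.a (T.l 204) (T.l 204)))) (T.a (T.a (T.l 204) (T.a (T.l 204) (T.c (T.l 204) (T.l 204)))) (T.a (T.a (T.l 204) (T.l 204)) (T.a (T.l 204) (T.l 204)))))) (T.b (T.l 2) (T.a (T.a (T.a (T.l 220) (T.l 220)) (T.a (T.l 204) (T.l 204))) (T.a (T.a (T.l 204) (T.l 2)) (T.l 2))))) (T.a (T.b (T.b (T.a (T.a (T.l 204) (T.a (T.l 204) (T.l 476))) (T.a (T.a (T.l 204) (T.l 204)) (T.a (T.l 204) (T.l 204)))) (T.a (T.a (T.l 204) (T.a (T.l 204) (T.l 476))) (T.a (T.a (T.l 204) (T.l 204)) (T.a (T.l 204) (T.l 204))))) (T.a (T.a (T.l 204) (T.a (T.l 204) (T.c (T.l 0) (T.l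 0)))) (T.a (T.a (T.l 204) (T.l 204)) (T.a (T.l 204) (T.l 476))))) (T.a (T.a (T.a (T.b (T.l 204) (T.l 204)) (T.b (T.l 204) (T.l 204))) (T.a (T.l 476) (T.l 476))) (T.a (T.a (T.l 476) (T.l 476)) (T.a (T.l 476) (T.l 476))))))) (T.b (T.a (T.a (T.a (T.l 204) (T.a (T.l 204) (T.a (T.l 204) (T.l 204)))) (T.a (T.a (T.b (T.l 272) (T.l 272)) (T.b (T.l 204) (T.l 204))) (T.a (T.b (T.l 476) (T.l 476)) (T.a (T.l 204) (T.l 476))))) (T.a (T.a (T.a (T.a (T.l 476) (T.l 476)) (T.a (T.l 476) (T.l 476))) (T.a (T.b (T.l 476) (T.l 476)) (T.b (T.l 476) (T.l 476)))) (T.a (T.a (T.b (T.l 476) (T.l 220)) (T.b (T.l 476) (T.l 220))) (T.a (T.b (T.l 220) (T.l 204)) (T.b (T.l 220) (T.l 204)))))) (T.a (T.a (T.a (T.l 204) (T.a (T.l 204) (T.a (T.l 0) (T.l 0)))) (T.a (T.a (T.b (T.l 0) (T.l 0)) (T.l 272)) (T.a (T.l 272) (T.a (T.l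 204) (T.l 220))))) (T.a (T.a (T.a (T.a (T.l 220) (T.l 204)) (T.b (T.l 476) (T.l 476))) (T.a (T.b (T.l 476) (T.l 220)) (T.b (T.l 220) (T.l 204)))) (T.a (T.a (T.b (T.l 204) (T.l 204)) (T.b (T.l 204) (T.l 204))) (T.a (T.b (T.l 204) (T.l 204)) (T.b (T.l 204) (T.l 204)))))))) (T.b (T.a (T.a (T.a (T.l 0) (T.a (T.l 0) (T.a (T.l 0) (T.b (T.l 0) (T.l 0))))) (T.a (T.a (T.b (T.b (T.l 0) (T.l 0)) (T.b (T.l 0) (T.l 0))) (T.b (T.b (T.l 0) (T.l 0)) (T.b (T.l 0) (T.l 0)))) (T.a (T.b (T.l 272) (T.l 68)) (T.b (T.b (T.l 0) (T.l 0)) (T.b (T.l 0) (T.l 0)))))) (T.a (T.a (T.a (T.b (T.b (T.l 220) (T.l 0)) (T.b (T.l 0) (T.l 0))) (T.b (T.b (T.l 220) (T.l 0)) (T.b (T.l 0) (T.l 0)))) (T.a (T.b (T.b (T.l 204) (T.l 204)) (T.b (T.l 0) (T.l 0))) (T.b (T.b (T.l 204) (T.l 204)) (T.b (T.l 0) (T.l 0))))) (T.a (T.b (T.a (T.b (T.l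 204) (T.l 204)) (T.b (T.l 204) (T.l 204))) (T.a (T.b (T.l 0) (T.l 0)) (T.b (T.l 0) (T.l 0)))) (T.b (T.a (T.b (T.l 204) (T.l 204)) (T.b (T.l 204) (T.l 204))) (T.a (T.b (T.l 0) (T.l 0)) (T.b (T.l 0) (T.l 0))))))) (T.a (T.a (T.a (T.b (T.l 816) (T.b (T.l 816) (T.b (T.l 816) (T.l 816)))) (T.a (T.b (T.l 816) (T.l 816)) (T.b (T.a (T.l 816) (T.l 0)) (T.l 816)))) (T.a (T.a (T.b (T.a (T.l 0) (T.l 4)) (T.a (T.b (T.l 816) (T.l 816)) (T.b (T.l 816) (T.l 884)))) (T.b (T.a (T.l 0) (T.l 0)) (T.a (T.b (T.l 816) (T.l 816)) (T.b (T.l 816) (T.l 816))))) (T.a (T.b (T.b (T.l 0) (T.l 0)) (T.b (T.l 884) (T.b (T.l 816) (T.l 884)))) (T.b (T.b (T.l 0) (T.l 0)) (T.a (T.l 884) (T.l 884)))))) (T.a (T.a (T.a (T.b (T.b (T.l 0) (T.l 0)) (T.b (T.l 820) (T.l 884))) (T.b (T.b (T.l 0) (T.l 68)) (T.b (T.b (T.l 816) (T.l 816)) (T.l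 884)))) (T.b (T.a (T.b (T.l 0) (T.l 0)) (T.b (T.l 0) (T.l 0))) (T.a (T.b (T.l 884) (T.b (T.l 816) (T.l 816))) (T.b (T.l 820) (T.l 884))))) (T.a (T.b (T.a (T.b (T.l 0) (T.l 0)) (T.b (T.l 0) (T.l 816))) (T.a (T.b (T.l 816) (T.l 884)) (T.b (T.l 816) (T.l 816)))) (T.b (T.a (T.b (T.l 0) (T.l 816)) (T.b (T.l 0) (T.l 816))) (T.a (T.b (T.l 816) (T.l 816)) (T.b (T.l 816) (T.l 816)))))))))), by decide +kernel⟩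

def A102E_000_4_96_1 :
    ∃ t, chk3 (onCell 0 50331648 0 1073741824 50331648 16777216 (corTK [[⟨0, 1, 0, 8388608⟩, ⟨1, 0, 1, 25165824⟩, ⟨2, 1, 1, 25165824⟩, ⟨1, 0, 0, 83886080⟩, ⟨1, 1, 0, 1040187392⟩, ⟨2, 1, 0, 83886080⟩, ⟨2, 2, 0, 1040187392⟩]] false 3 c0N cA102E gN0q1 gN0q0 gN0q2 gN1q2 true true)) t 4 96 1 = true :=
  ⟨(T.b (T.b (T.a (T.c (T.b (T.a (T.c (T.b (T.a (T.c (T.b (T.a (T.a (T.c (T.b (T.l 816) (T.l 1)) (T.b (T.l 816) (T.l 1))) (T.l 816)) (T.l 816)) (T.a (T.l 1) (T.c (T.b (T.a (T.l 1) (T.l 816)) (T.l 1)) (T.b (T.a (T.l 1) (T.l 816)) (T.l 1))))) (T.b (T.a (T.a (T.c (T.b (T.l 816) (T.l 1)) (T.b (T.l 816) (T.l 1))) (T.l 816)) (T.l 816)) (T.a (T.l 1) (T.c (T.b (T.a (T.l 1) (T.l 816)) (T.l 1)) (T.b (T.a (T.l 1) (T.l 816)) (T.l 1)))))) (T.l 816)) (T.a (T.l 1) (T.c (T.b (T.a (T.l 1) (T.c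 (T.b (T.l 816) (T.l 1)) (T.b (T.l 816) (T.l 1)))) (T.l 1)) (T.b (T.a (T.l 1) (T.c (T.b (T.l 816) (T.l 1)) (T.b (T.l 816) (T.l 1)))) (T.l 1))))) (T.b (T.a (T.c (T.b (T.a (T.a (T.c (T.b (T.l 816) (T.l 1)) (T.b (T.l 816) (T.l 1))) (T.l 816)) (T.l 816)) (T.a (T.l 1) (T.c (T.b (T.a (T.l 1) (T.l 816)) (T.l 1)) (T.b (T.a (T.l 1) (T.l 816)) (T.l 1))))) (T.b (T.a (T.a (T.c (T.b (T.l 816) (T.l 1)) (T.b (T.l 816) (T.l 1))) (T.l 816)) (T.l 816)) (T.a (T.l 1) (T.c (T.b (T.a (T.l 1) (T.l 816)) (T.l 1)) (T.b (T.l 816) (T.l 1)))))) (T.l 816)) (T.a (T.l 1) (T.c (T.b (T.a (T.l 1) (T.c (T.b (T.l 816) (T.l 1)) (T.b (T.l 816) (T.l 1)))) (T.l 1)) (T.b (T.a (T.l 1) (T.c (T.b (T.l 816) (T.l 1)) (T.b (T.l 816) (T.l 1)))) (T.l 1)))))) (T.a (T.c (T.b (T.l 816) (T.c (T.b (T.l 816) (T.a (T.l 1) (T.c (T.b (T.l 816) (T.l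 1)) (T.b (T.l 816) (T.l 1))))) (T.b (T.l 816) (T.a (T.l 1) (T.c (T.b (T.l 816) (T.l 1)) (T.b (T.l 816) (T.l 1))))))) (T.b (T.l 816) (T.c (T.b (T.l 816) (T.a (T.l 1) (T.c (T.b (T.l 816) (T.l 1)) (T.b (T.l 816) (T.l 1))))) (T.b (T.l 816) (T.a (T.l 1) (T.c (T.b (T.l 816) (T.l 1)) (T.b (T.l 816) (T.l 1)))))))) (T.l 816))) (T.a (T.l 1) (T.a (T.l 1) (T.c (T.b (T.c (T.b (T.a (T.l 1) (T.a (T.c (T.b (T.l 816) (T.l 1)) (T.b (T.l 816) (T.l 1))) (T.l 816))) (T.l 1)) (T.b (T.a (T.l 1) (T.c (T.b (T.l 816) (T.l 952)) (T.l 816))) (T.l 1))) (T.l 1)) (T.b (T.c (T.b (T.a (T.l 1) (T.l 816)) (T.l 1)) (T.b (T.a (T.l 1) (T.l 816)) (T.l 1))) (T.l 1)))))) (T.b (T.a (T.c (T.b (T.a (T.c (T.b (T.a (T.a (T.c (T.b (T.l 816) (T.l 1)) (T.b (T.l 816) (T.l 1))) (T.l 816)) (T.l 816)) (T.a (T.l 1) (T.c (T.b (T.l 816) (T.l 1))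 (T.b (T.l 816) (T.l 1))))) (T.b (T.a (T.a (T.c (T.b (T.l 816) (T.l 1)) (T.b (T.l 816) (T.l 1))) (T.l 816)) (T.l 816)) (T.a (T.l 1) (T.c (T.b (T.l 816) (T.l 1)) (T.b (T.l 816) (T.l 1)))))) (T.l 816)) (T.a (T.l 1) (T.c (T.b (T.a (T.l 1) (T.c (T.b (T.l 816) (T.l 1)) (T.b (T.l 816) (T.l 1)))) (T.l 1)) (T.b (T.a (T.l 1) (T.a (T.l 1) (T.l 816))) (T.l 1))))) (T.b (T.a (T.c (T.b (T.a (T.a (T.c (T.b (T.l 816) (T.l 1)) (T.b (T.l 816) (T.l 1))) (T.l 816)) (T.l 816)) (T.a (T.l 1) (T.c (T.b (T.l 816) (T.l 1)) (T.b (T.l 816) (T.l 1))))) (T.b (T.a (T.a (T.c (T.b (T.l 816) (T.l 1)) (T.b (T.l 816) (T.l 1))) (T.l 816)) (T.l 816)) (T.a (T.l 1) (T.c (T.b (T.l 816) (T.l 1)) (T.b (T.l 816) (T.l 1)))))) (T.l 816)) (T.a (T.l 1) (T.c (T.b (T.a (T.l 1) (T.a (T.l 1) (T.l 816))) (T.l 1)) (T.b (T.a (T.l 1) (T.a (T.l 1)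 (T.l 816))) (T.l 1)))))) (T.a (T.c (T.b (T.l 816) (T.c (T.b (T.l 816) (T.a (T.l 1) (T.c (T.b (T.l 816) (T.l 1)) (T.b (T.l 816) (T.l 1))))) (T.b (T.l 816) (T.a (T.l 1) (T.c (T.b (T.l 816) (T.l 1)) (T.b (T.l 816) (T.l 1))))))) (T.b (T.l 816) (T.c (T.b (T.l 816) (T.a (T.l 1) (T.c (T.b (T.l 816) (T.l 1)) (T.b (T.l 816) (T.l 1))))) (T.b (T.l 816) (T.a (T.l 1) (T.c (T.b (T.l 816) (T.l 1)) (T.b (T.l 816) (T.l 1)))))))) (T.l 816))) (T.a (T.l 1) (T.a (T.l 1) (T.c (T.b (T.c (T.b (T.a (T.l 1) (T.l 816)) (T.l 1)) (T.b (T.a (T.l 1) (T.l 816)) (T.l 1))) (T.l 1)) (T.b (T.c (T.b (T.a (T.l 1) (T.l 816)) (T.l 1)) (T.b (T.a (T.l 1) (T.l 816)) (T.l 1))) (T.l 1))))))) (T.c (T.b (T.l 816) (T.a (T.c (T.b (T.a (T.a (T.c (T.b (T.l 816) (T.c (T.b (T.l 816) (T.l 1)) (T.b (T.l 816) (T.l 1)))) (T.b (T.l 816) (T.c (T.b (T.l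 816) (T.l 1)) (T.b (T.l 816) (T.l 1))))) (T.l 816)) (T.l 816)) (T.a (T.l 1) (T.c (T.b (T.a (T.a (T.l 1) (T.l 816)) (T.l 816)) (T.l 1)) (T.b (T.a (T.a (T.l 1) (T.l 816)) (T.l 816)) (T.l 1))))) (T.b (T.a (T.a (T.c (T.b (T.l 816) (T.c (T.b (T.l 816) (T.l 1)) (T.b (T.l 816) (T.l 1)))) (T.b (T.l 816) (T.c (T.b (T.l 816) (T.l 1)) (T.b (T.l 816) (T.l 1))))) (T.l 816)) (T.l 816)) (T.a (T.l 1) (T.c (T.b (T.a (T.a (T.l 1) (T.l 816)) (T.l 816)) (T.l 1)) (T.b (T.a (T.a (T.l 1) (T.l 816)) (T.l 816)) (T.l 1)))))) (T.a (T.a (T.c (T.b (T.l 816) (T.a (T.c (T.b (T.l 816) (T.a (T.l 1) (T.l 816))) (T.b (T.l 816) (T.a (T.l 1) (T.l 816)))) (T.l 816))) (T.b (T.l 816) (T.a (T.c (T.b (T.l 816) (T.a (T.l 1) (T.l 816))) (T.b (T.l 816) (T.l 952))) (T.l 816)))) (T.l 816)) (T.l 816)))) (T.b (T.l 816) (T.a (T.c (T.b (T.a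 (T.a (T.c (T.b (T.l 816) (T.c (T.b (T.l 816) (T.l 1)) (T.b (T.l 816) (T.l 1)))) (T.b (T.l 816) (T.c (T.b (T.l 816) (T.l 1)) (T.a (T.l 1) (T.l 952))))) (T.l 816)) (T.l 816)) (T.a (T.l 1) (T.c (T.b (T.a (T.a (T.l 1) (T.l 816)) (T.l 816)) (T.l 1)) (T.b (T.a (T.a (T.l 1) (T.l 816)) (T.l 816)) (T.l 1))))) (T.b (T.a (T.a (T.c (T.a (T.b (T.l 816) (T.l 1)) (T.l 816)) (T.a (T.b (T.l 816) (T.l 1)) (T.l 816))) (T.l 816)) (T.l 816)) (T.a (T.l 1) (T.c (T.b (T.a (T.a (T.l 1) (T.l 816)) (T.l 816)) (T.l 1)) (T.b (T.a (T.a (T.l 1) (T.l 816)) (T.l 816)) (T.l 1)))))) (T.c (T.a (T.c (T.l 816) (T.l 816)) (T.l 816)) (T.l 816)))))) (T.a (T.l 1) (T.a (T.l 1) (T.c (T.b (T.c (T.b (T.a (T.l 1) (T.c (T.b (T.l 816) (T.a (T.l 1) (T.c (T.b (T.l 816) (T.l 1)) (T.a (T.l 1) (T.l 952))))) (T.b (T.l 816) (T.a (T.l 1) (T.a (T.l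 1) (T.l 952)))))) (T.l 1)) (T.b (T.a (T.l 1) (T.c (T.b (T.l 816) (T.a (T.l 1) (T.a (T.l 1) (T.l 816)))) (T.b (T.l 816) (T.a (T.l 1) (T.a (T.l 1) (T.l 816)))))) (T.l 1))) (T.l 1)) (T.b (T.c (T.b (T.a (T.l 1) (T.c (T.b (T.l 816) (T.a (T.l 1) (T.a (T.l 1) (T.l 816)))) (T.b (T.l 816) (T.a (T.l 1) (T.a (T.l 1) (T.l 816)))))) (T.l 1)) (T.b (T.a (T.l 1) (T.c (T.b (T.l 816) (T.a (T.l 1) (T.a (T.l 1) (T.l 816)))) (T.b (T.l 816) (T.a (T.l 1) (T.a (T.l 1) (T.l 816)))))) (T.l 1))) (T.l 1)))))) (T.l 1)), by decide +kernel⟩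

def A102E_000_5_96_1 :
    ∃ t, chk3 (onCell 0 50331648 0 1073741824 50331648 16777216 (corTK [[⟨0, 1, 0, 8388608⟩, ⟨1, 0, 1, 25165824⟩, ⟨2, 1, 1, 25165824⟩, ⟨1, 0, 0, 83886080⟩, ⟨1, 1, 0, 1040187392⟩, ⟨2, 1, 0, 83886080⟩, ⟨2, 2, 0, 1040187392⟩]] false 3 c0N cA102E gN0q1 gN0q0 gN0q2 gN1q2 true true)) t 5 96 1 = true :=
  ⟨(T.a (T.b (T.a (T.b (T.a (T.l 816) (T.l 816)) (T.c (T.b (T.a (T.c (T.b (T.l 816) (T.a (T.l 1) (T.c (T.b (T.a (T.l 1) (T.l 816)) (T.l 1)) (T.b (T.a (T.l 1) (T.l 816)) (T.l 1))))) (T.b (T.l 816) (T.a (T.l 1) (T.c (T.b (T.a (T.l 1) (T.l 816)) (T.l 1)) (T.b (T.a (T.l 1) (T.l 816)) (T.l 1)))))) (T.c (T.b (T.l 816) (T.a (T.c (T.b (T.l 816) (T.l 1)) (T.b (T.l 816) (T.l 1))) (T.a (T.c (T.b (T.l 816) (T.l 1)) (T.l 816)) (T.l 816)))) (T.b (T.l 816) (T.a (T.c (T.b (T.l 816) (T.l 1))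 (T.b (T.l 816) (T.l 1))) (T.a (T.l 816) (T.l 816)))))) (T.l 1)) (T.b (T.a (T.c (T.b (T.l 816) (T.c (T.b (T.a (T.l 1) (T.l 952)) (T.l 1)) (T.b (T.a (T.l 1) (T.l 816)) (T.l 1)))) (T.b (T.l 816) (T.c (T.b (T.a (T.l 1) (T.l 816)) (T.l 1)) (T.b (T.a (T.l 1) (T.l 816)) (T.l 1))))) (T.c (T.b (T.l 816) (T.a (T.c (T.b (T.l 816) (T.l 1)) (T.b (T.l 816) (T.l 1))) (T.c (T.l 816) (T.l 816)))) (T.a (T.b (T.l 816) (T.c (T.b (T.l 816) (T.l 1)) (T.b (T.l 816) (T.l 1)))) (T.l 816)))) (T.l 1)))) (T.b (T.a (T.l 816) (T.l 816)) (T.a (T.c (T.b (T.c (T.l 816) (T.l 816)) (T.c (T.b (T.a (T.l 1) (T.c (T.b (T.l 816) (T.l 1)) (T.b (T.l 816) (T.l 1)))) (T.l 1)) (T.b (T.a (T.l 1) (T.c (T.b (T.l 816) (T.l 1)) (T.b (T.l 816) (T.l 1)))) (T.l 1)))) (T.b (T.c (T.l 816) (T.l 816)) (T.c (T.b (T.a (T.l 1) (T.c (T.b (T.l 816) (T.l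 1)) (T.b (T.l 816) (T.l 1)))) (T.l 1)) (T.b (T.a (T.l 1) (T.c (T.b (T.l 816) (T.l 1)) (T.b (T.l 816) (T.l 1)))) (T.l 1))))) (T.c (T.b (T.l 816) (T.c (T.b (T.a (T.c (T.b (T.l 816) (T.l 1)) (T.b (T.l 816) (T.l 1))) (T.l 816)) (T.l 1)) (T.b (T.a (T.c (T.b (T.l 816) (T.l 1)) (T.b (T.l 816) (T.l 1))) (T.l 816)) (T.l 1)))) (T.b (T.l 816) (T.c (T.b (T.a (T.c (T.b (T.l 816) (T.l 1)) (T.b (T.l 816) (T.l 1))) (T.l 816)) (T.l 1)) (T.b (T.a (T.a (T.l 952) (T.l 816)) (T.l 816)) (T.l 1)))))))) (T.l 1)) (T.b (T.a (T.b (T.l 884) (T.c (T.b (T.l 816) (T.a (T.c (T.b (T.l 816) (T.c (T.b (T.a (T.a (T.l 1) (T.l 816)) (T.l 816)) (T.l 1)) (T.b (T.a (T.a (T.l 1) (T.l 816)) (T.l 816)) (T.l 1)))) (T.b (T.l 816) (T.c (T.b (T.a (T.c (T.l 952) (T.l 952)) (T.l 816)) (T.l 1)) (T.b (T.a (T.l 952) (T.l 816)) (T.l 1))))) (T.a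 (T.a (T.l 816) (T.l 816)) (T.l 816)))) (T.b (T.l 816) (T.a (T.c (T.b (T.l 816) (T.c (T.b (T.a (T.l 816) (T.l 816)) (T.l 1)) (T.b (T.a (T.l 816) (T.l 816)) (T.l 1)))) (T.b (T.l 816) (T.c (T.b (T.a (T.l 816) (T.l 816)) (T.l 1)) (T.b (T.a (T.l 816) (T.l 816)) (T.l 1))))) (T.a (T.l 816) (T.l 816)))))) (T.a (T.l 816) (T.l 816))) (T.a (T.l 1) (T.b (T.c (T.b (T.c (T.b (T.a (T.c (T.b (T.l 816) (T.l 1)) (T.b (T.l 816) (T.l 1))) (T.l 816)) (T.a (T.l 1) (T.a (T.l 1) (T.c (T.b (T.l 816) (T.l 1)) (T.b (T.l 816) (T.l 1)))))) (T.b (T.a (T.c (T.b (T.l 816) (T.l 1)) (T.b (T.l 816) (T.l 1))) (T.l 816)) (T.a (T.l 1) (T.a (T.l 1) (T.c (T.b (T.l 816) (T.l 1)) (T.b (T.l 816) (T.l 1))))))) (T.l 1)) (T.b (T.c (T.b (T.a (T.c (T.b (T.l 816) (T.l 1)) (T.b (T.l 816) (T.l 1))) (T.l 816)) (T.a (T.l 1) (T.a (T.l 1) (T.c (T.b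 (T.l 816) (T.l 1)) (T.b (T.l 816) (T.l 1)))))) (T.b (T.a (T.c (T.b (T.l 816) (T.l 1)) (T.b (T.l 816) (T.l 1))) (T.l 816)) (T.a (T.l 1) (T.a (T.l 1) (T.c (T.b (T.l 816) (T.l 1)) (T.b (T.l 816) (T.l 1))))))) (T.l 1))) (T.l 1))))), by decide +kernel⟩

def A102E_000_3_96_1 :
    ∃ t, chk3 (onCell 0 50331648 0 1073741824 50331648 16777216 (corTK [[⟨0, 1, 0, 8388608⟩, ⟨1, 0, 1, 25165824⟩, ⟨2, 1, 1, 25165824⟩, ⟨1, 0, 0, 83886080⟩, ⟨1, 1, 0, 1040187392⟩, ⟨2, 1, 0, 83886080⟩, ⟨2, 2, 0, 1040187392⟩]] false 3 c0N cA102E gN0q1 gN0q0 gN0q2 gN1q2 true true)) t 3 96 1 = true :=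
  ⟨(T.a (T.a (T.b (T.a (T.l 816) (T.l 816)) (T.b (T.a (T.c (T.b (T.a (T.a (T.c (T.b (T.l 816) (T.c (T.b (T.l 816) (T.l 1)) (T.b (T.l 816) (T.l 1)))) (T.b (T.l 816) (T.c (T.b (T.l 816) (T.l 1)) (T.b (T.l 816) (T.l 1))))) (T.l 816)) (T.l 816)) (T.a (T.l 1) (T.c (T.b (T.c (T.b (T.a (T.l 1) (T.l 816)) (T.l 1)) (T.b (T.a (T.l 1) (T.l 816)) (T.l 1))) (T.l 1)) (T.b (T.c (T.b (T.a (T.l 1) (T.l 816)) (T.l 1)) (T.b (T.a (T.l 1) (T.l 816)) (T.l 1))) (T.l 1))))) (T.b (T.a (T.a (T.c (T.b (T.l 816) (T.c (T.b (T.l 816) (T.l 1)) (T.a (T.l 952) (T.l 816)))) (T.b (T.l 816) (T.c (T.l 952) (T.l 816)))) (T.l 816)) (T.l 816)) (T.a (T.l 1) (T.c (T.b (T.c (T.b (T.a (T.l 1) (T.l 816)) (T.l 1)) (T.b (T.l 952) (T.l 1))) (T.l 1)) (T.b (T.c (T.b (T.l 816) (T.l 1)) (T.b (T.l 816) (T.l 1))) (T.l 1)))))) (T.c (T.b (T.l 816)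 (T.a (T.c (T.b (T.a (T.c (T.l 952) (T.l 816)) (T.l 816)) (T.l 1)) (T.b (T.a (T.l 816) (T.l 816)) (T.l 1))) (T.c (T.b (T.l 816) (T.c (T.b (T.l 952) (T.l 1)) (T.b (T.l 816) (T.l 1)))) (T.b (T.l 816) (T.c (T.b (T.l 816) (T.l 1)) (T.b (T.l 816) (T.l 1))))))) (T.b (T.l 816) (T.a (T.c (T.b (T.a (T.l 816) (T.l 816)) (T.l 1)) (T.b (T.l 816) (T.l 1))) (T.c (T.b (T.l 816) (T.a (T.l 1) (T.l 952))) (T.a (T.b (T.l 816) (T.l 1)) (T.l 816))))))) (T.l 1))) (T.b (T.a (T.l 816) (T.l 816)) (T.a (T.b (T.a (T.a (T.c (T.l 816) (T.l 816)) (T.l 816)) (T.l 816)) (T.a (T.l 1) (T.c (T.b (T.c (T.b (T.c (T.b (T.l 816) (T.l 1)) (T.b (T.l 816) (T.l 1))) (T.l 1)) (T.b (T.c (T.b (T.l 816) (T.l 1)) (T.b (T.l 816) (T.l 1))) (T.l 1))) (T.l 1)) (T.b (T.c (T.b (T.c (T.b (T.l 816) (T.l 1)) (T.b (T.l 816) (T.l 1))) (T.l 1)) (T.b (T.c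 (T.b (T.l 816) (T.l 1)) (T.a (T.l 952) (T.l 816))) (T.l 1))) (T.l 1))))) (T.b (T.l 816) (T.c (T.b (T.a (T.c (T.b (T.l 816) (T.l 1)) (T.b (T.l 816) (T.l 1))) (T.a (T.c (T.b (T.l 816) (T.c (T.b (T.l 816) (T.l 1)) (T.b (T.l 816) (T.l 1)))) (T.b (T.l 816) (T.c (T.b (T.l 816) (T.l 1)) (T.b (T.l 816) (T.l 1))))) (T.l 816))) (T.l 1)) (T.b (T.a (T.c (T.b (T.l 816) (T.l 1)) (T.b (T.l 816) (T.l 1))) (T.a (T.c (T.b (T.l 816) (T.a (T.l 952) (T.l 816))) (T.b (T.l 816) (T.l 944))) (T.l 816))) (T.l 1))))))) (T.a (T.b (T.a (T.l 816) (T.l 816)) (T.a (T.b (T.l 816) (T.c (T.b (T.a (T.l 816) (T.l 816)) (T.c (T.b (T.a (T.c (T.b (T.a (T.l 1) (T.l 816)) (T.l 1)) (T.b (T.a (T.l 1) (T.l 816)) (T.l 1))) (T.a (T.c (T.b (T.l 816) (T.l 1)) (T.b (T.l 816) (T.l 1))) (T.l 816))) (T.l 1)) (T.b (T.a (T.c (T.b (T.a (T.l 1) (T.l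 816)) (T.l 1)) (T.b (T.a (T.l 1) (T.l 816)) (T.l 1))) (T.a (T.c (T.l 952) (T.l 952)) (T.l 816))) (T.l 1)))) (T.b (T.c (T.l 816) (T.l 816)) (T.c (T.b (T.a (T.c (T.b (T.a (T.l 1) (T.l 816)) (T.l 1)) (T.b (T.l 952) (T.l 1))) (T.c (T.l 952) (T.l 952))) (T.l 1)) (T.b (T.a (T.c (T.b (T.l 952) (T.l 1)) (T.b (T.l 816) (T.l 1))) (T.l 952)) (T.l 1)))))) (T.b (T.l 816) (T.c (T.b (T.l 816) (T.c (T.b (T.l 816) (T.a (T.c (T.b (T.a (T.l 1) (T.l 816)) (T.l 1)) (T.b (T.a (T.l 1) (T.l 816)) (T.l 1))) (T.a (T.l 952) (T.l 816)))) (T.b (T.l 816) (T.a (T.c (T.b (T.l 952) (T.l 1)) (T.b (T.l 952) (T.l 1))) (T.l 952))))) (T.b (T.l 816) (T.c (T.b (T.l 816) (T.a (T.c (T.b (T.l 816) (T.l 1)) (T.b (T.l 816) (T.l 1))) (T.l 816))) (T.a (T.b (T.l 816) (T.c (T.b (T.l 816) (T.l 1)) (T.b (T.l 816) (T.l 1)))) (T.l 816))))))))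 (T.a (T.b (T.l 816) (T.a (T.c (T.l 816) (T.l 816)) (T.l 816))) (T.b (T.l 816) (T.l 816))))), by decide +kernel⟩

def A102E_000_1_97_1 :
    ∃ t, chk3 (onCell 0 50331648 0 1073741824 50331648 16777216 (corTK [[⟨0, 1, 0, 8388608⟩, ⟨1, 0, 1, 25165824⟩, ⟨2, 1, 1, 25165824⟩, ⟨1, 0, 0, 83886080⟩, ⟨1, 1, 0, 1040187392⟩, ⟨2, 1, 0, 83886080⟩, ⟨2, 2, 0, 1040187392⟩]] false 3 c0N cA102E gN0q1 gN0q0 gN0q2 gN1q2 true true)) t 1 97 1 = true :=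
  ⟨(T.a (T.l 1) (T.a (T.l 1) (T.a (T.l 1) (T.b (T.b (T.c (T.b (T.a (T.c (T.b (T.a (T.c (T.b (T.l 952) (T.l 1)) (T.b (T.l 816) (T.l 1))) (T.l 816)) (T.l 1)) (T.b (T.a (T.c (T.b (T.l 816) (T.l 1)) (T.b (T.l 816) (T.l 1))) (T.l 816)) (T.l 1))) (T.a (T.c (T.b (T.l 816) (T.c (T.b (T.l 816) (T.l 1)) (T.b (T.l 816) (T.l 1)))) (T.b (T.l 816) (T.c (T.b (T.l 816) (T.l 1)) (T.b (T.l 816) (T.l 1))))) (T.l 816))) (T.a (T.l 1) (T.a (T.l 1) (T.a (T.l 1) (T.c (T.b (T.c (T.b (T.l 952) (T.l 1)) (T.b (T.l 952) (T.l 1))) (T.l 1)) (T.b (T.c (T.b (T.l 944) (T.l 1)) (T.b (T.l 816) (T.l 1))) (T.l 1))))))) (T.b (T.a (T.c (T.b (T.a (T.c (T.b (T.l 816) (T.l 1)) (T.b (T.l 816) (T.l 1))) (T.l 816)) (T.l 1)) (T.b (T.a (T.c (T.b (T.l 816) (T.l 1)) (T.b (T.l 816) (T.l 1))) (T.l 816)) (T.l 1))) (T.a (T.c (T.b (T.l 816) (T.c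 (T.b (T.l 816) (T.l 1)) (T.b (T.l 816) (T.l 1)))) (T.a (T.b (T.l 816) (T.c (T.b (T.l 816) (T.l 1)) (T.b (T.l 816) (T.l 1)))) (T.l 816))) (T.l 816))) (T.a (T.l 1) (T.a (T.l 1) (T.a (T.l 1) (T.c (T.b (T.c (T.b (T.l 816) (T.l 1)) (T.b (T.l 816) (T.l 1))) (T.l 1)) (T.b (T.c (T.b (T.l 816) (T.l 1)) (T.b (T.l 816) (T.l 1))) (T.l 1)))))))) (T.l 1)) (T.l 1))))), by decide +kernel⟩

def A102E_000_1_49_1 :
    ∃ t, chk3 (onCell 0 50331648 0 1073741824 50331648 16777216 (corTK [[⟨0, 1, 0, 8388608⟩, ⟨1, 0, 1, 25165824⟩, ⟨2, 1, 1, 25165824⟩, ⟨1, 0, 0, 83886080⟩, ⟨1, 1, 0, 1040187392⟩, ⟨2, 1, 0, 83886080⟩, ⟨2, 2, 0, 1040187392⟩]] false 3 c0N cA102E gN0q1 gN0q0 gN0q2 gN1q2 true true)) t 1 49 1 = true :=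
  ⟨(T.l 1), by decide +kernel⟩

def A102E_000_1_25_1 :
    ∃ t, chk3 (onCell 0 50331648 0 1073741824 50331648 16777216 (corTK [[⟨0, 1, 0, 8388608⟩, ⟨1, 0, 1, 25165824⟩, ⟨2, 1, 1, 25165824⟩, ⟨1, 0, 0, 83886080⟩, ⟨1, 1, 0, 1040187392⟩, ⟨2, 1, 0, 83886080⟩, ⟨2, 2, 0, 1040187392⟩]] false 3 c0N cA102E gN0q1 gN0q0 gN0q2 gN1q2 true true)) t 1 25 1 = true :=
  ⟨(T.l 1), by decide +kernel⟩

def A102E_000_1_13_1 :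
    ∃ t, chk3 (onCell 0 50331648 0 1073741824 50331648 16777216 (corTK [[⟨0, 1, 0, 8388608⟩, ⟨1, 0, 1, 25165824⟩, ⟨2, 1, 1, 25165824⟩, ⟨1, 0, 0, 83886080⟩, ⟨1, 1, 0, 1040187392⟩, ⟨2, 1, 0, 83886080⟩, ⟨2, 2, 0, 1040187392⟩]] false 3 c0N cA102E gN0q1 gN0q0 gN0q2 gN1q2 true true)) t 1 13 1 = true :=
  ⟨(T.l 1), by decide +kernel⟩

def A102E_000_1_7_1 :
    ∃ t, chk3 (onCell 0 50331648 0 1073741824 50331648 16777216 (corTK [[⟨0, 1, 0, 8388608⟩, ⟨1, 0, 1, 25165824⟩, ⟨2, 1, 1, 25165824⟩, ⟨1, 0, 0, 83886080⟩, ⟨1, 1, 0, 1040187392⟩, ⟨2, 1, 0, 83886080⟩, ⟨2, 2, 0, 1040187392⟩]] false 3 c0N cA102E gN0q1 gN0q0 gN0q2 gN1q2 true true)) t 1 7 1 = true :=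
  ⟨(T.l 1), by decide +kernel⟩

theorem A102E_000_2_96_1 :
    ∃ t, chk3 (onCell 0 50331648 0 1073741824 50331648 16777216 (corTK [[⟨0, 1, 0, 8388608⟩, ⟨1, 0, 1, 25165824⟩, ⟨2, 1, 1, 25165824⟩, ⟨1, 0, 0, 83886080⟩, ⟨1, 1, 0, 1040187392⟩, ⟨2, 1, 0, 83886080⟩, ⟨2, 2, 0, 1040187392⟩]] false 3 c0N cA102E gN0q1 gN0q0 gN0q2 gN1q2 true true)) t 2 96 1 = true :=
  ex3_a A102E_000_4_96_1 A102E_000_5_96_1
theorem A102E_000_1_96_1 :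
    ∃ t, chk3 (onCell 0 50331648 0 1073741824 50331648 16777216 (corTK [[⟨0, 1, 0, 8388608⟩, ⟨1, 0, 1, 25165824⟩, ⟨2, 1, 1, 25165824⟩, ⟨1, 0, 0, 83886080⟩, ⟨1, 1, 0, 1040187392⟩, ⟨2, 1, 0, 83886080⟩, ⟨2, 2, 0, 1040187392⟩]] false 3 c0N cA102E gN0q1 gN0q0 gN0q2 gN1q2 true true)) t 1 96 1 = true :=
  ex3_a A102E_000_2_96_1 A102E_000_3_96_1
theorem A102E_000_1_48_1 :
    ∃ t, chk3 (onCell 0 50331648 0 1073741824 50331648 16777216 (corTK [[⟨0, 1, 0, 8388608⟩, ⟨1, 0, 1, 25165824⟩, ⟨2, 1, 1, 25165824⟩, ⟨1, 0, 0, 83886080⟩, ⟨1, 1, 0, 1040187392⟩, ⟨2, 1, 0, 83886080⟩, ⟨2, 2, 0, 1040187392⟩]] false 3 c0N cA102E gN0q1 gN0q0 gN0q2 gN1q2 true true)) t 1 48 1 = true :=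
  ex3_b A102E_000_1_96_1 A102E_000_1_97_1
theorem A102E_000_1_24_1 :
    ∃ t, chk3 (onCell 0 50331648 0 1073741824 50331648 16777216 (corTK [[⟨0, 1, 0, 8388608⟩, ⟨1, 0, 1, 25165824⟩, ⟨2, 1, 1, 25165824⟩, ⟨1, 0, 0, 83886080⟩, ⟨1, 1, 0, 1040187392⟩, ⟨2, 1, 0, 83886080⟩, ⟨2, 2, 0, 1040187392⟩]] false 3 c0N cA102E gN0q1 gN0q0 gN0q2 gN1q2 true true)) t 1 24 1 = true :=
  ex3_b A102E_000_1_48_1 A102E_000_1_49_1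
theorem A102E_000_1_12_1 :
    ∃ t, chk3 (onCell 0 50331648 0 1073741824 50331648 16777216 (corTK [[⟨0, 1, 0, 8388608⟩, ⟨1, 0, 1, 25165824⟩, ⟨2, 1, 1, 25165824⟩, ⟨1, 0, 0, 83886080⟩, ⟨1, 1, 0, 1040187392⟩, ⟨2, 1, 0, 83886080⟩, ⟨2, 2, 0, 1040187392⟩]] false 3 c0N cA102E gN0q1 gN0q0 gN0q2 gN1q2 true true)) t 1 12 1 = true :=
  ex3_b A102E_000_1_24_1 A102E_000_1_25_1
theorem A102E_000_1_6_1 :
    ∃ t, chk3 (onCell 0 50331648 0 1073741824 50331648 16777216 (corTK [[⟨0, 1, 0, 8388608⟩, ⟨1, 0, 1, 25165824⟩, ⟨2, 1, 1, 25165824⟩, ⟨1, 0, 0, 83886080⟩, ⟨1, 1, 0, 1040187392⟩, ⟨2, 1, 0, 83886080⟩, ⟨2, 2, 0, 1040187392⟩]] false 3 c0N cA102E gN0q1 gN0q0 gN0q2 gN1q2 true true)) t 1 6 1 = true :=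
  ex3_b A102E_000_1_12_1 A102E_000_1_13_1
theorem A102E_000_1_3_1 :
    ∃ t, chk3 (onCell 0 50331648 0 1073741824 50331648 16777216 (corTK [[⟨0, 1, 0, 8388608⟩, ⟨1, 0, 1, 25165824⟩, ⟨2, 1, 1, 25165824⟩, ⟨1, 0, 0, 83886080⟩, ⟨1, 1, 0, 1040187392⟩, ⟨2, 1, 0, 83886080⟩, ⟨2, 2, 0, 1040187392⟩]] false 3 c0N cA102E gN0q1 gN0q0 gN0q2 gN1q2 true true)) t 1 3 1 = true :=
  ex3_b A102E_000_1_6_1 A102E_000_1_7_1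
theorem A102E_000 :
    ∃ t, chk3 (onCell 0 50331648 0 1073741824 50331648 16777216 (corTK [[⟨0, 1, 0, 8388608⟩, ⟨1, 0, 1, 25165824⟩, ⟨2, 1, 1, 25165824⟩, ⟨1, 0, 0, 83886080⟩, ⟨1, 1, 0, 1040187392⟩, ⟨2, 1, 0, 83886080⟩, ⟨2, 2, 0, 1040187392⟩]] false 3 c0N cA102E gN0q1 gN0q0 gN0q2 gN1q2 true true)) t 1 1 1 = true :=
  ex3_b A102E_000_1_2_1 A102E_000_1_3_1

end Pool.Agent.Strip051.G.I3_64_1_16.Tab.CN
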