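import Pool.Agent.Strip051.G.I3_64_1_16.Gn
import Pool.Agent.Strip051.PB.Corns
import Pool.Agent.Strip051.PB.CornK

/-! # Certificates of the aligned corners (generated) -/

set_option linter.all false

namespace Pool.Agent.Strip051.G.I3_64_1_16.Tab.CN

open Pool.Agent.Strip051.PB

def A102E_001_1_64_1 :
    ∃ t, chk3 (onCell 0 50331648 0 1073741824 50331648 16777216 (corTK [[⟨0, 1, 0, 8388608⟩, ⟨1, 0, 1, 25165824⟩, ⟨2, 1, 1, 25165824⟩, ⟨1, 0, 0, 83886080⟩, ⟨1, 1, 0, 1040187392⟩, ⟨2, 1, 0, 83886080⟩, ⟨2, 2, 0, 1040187392⟩]] false 3 c0N cA102E gN0q1 gN0q0 gN1q2 gN2q2 true true)) t 1 64 1 = true :=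
  ⟨(T.b (T.b (T.a (T.a (T.l 204) (T.a (T.a (T.c (T.l 220) (T.l 204)) (T.a (T.a (T.l 220) (T.l 220)) (T.a (T.l 220) (T.l 220)))) (T.a (T.a (T.a (T.l 220) (T.l 220)) (T.a (T.l 220) (T.l 220))) (T.a (T.c (T.c (T.l 220) (T.l 220)) (T.l 220)) (T.c (T.c (T.l 476) (T.l 220)) (T.l 476)))))) (T.c (T.a (T.a (T.a (T.a (T.c (T.l 476) (T.l 476)) (T.a (T.l 476) (T.l 476))) (T.a (T.a (T.l 476) (T.c (T.l 476) (T.l 476))) (T.c (T.a (T.l 476) (T.l 476)) (T.a (T.l 476) (T.l 476))))) (T.a (T.a (T.c (T.a (T.b (T.l 476) (T.l 476)) (T.c (T.l 476) (T.l 476))) (T.a (T.l 476) (T.l 476))) (T.a (T.a (T.c (T.l 476) (T.l 476)) (T.c (T.b (T.a (T.l 476) (T.l 476)) (T.l 476)) (T.b (T.l 476) (T.l 476)))) (T.l 1024))) (T.l 1024))) (T.l 1024)) (T.b (T.a (T.a (T.a (T.a (T.l 476) (T.l 476)) (T.a (T.c (T.l 476) (T.l 476)) (T.a (T.l 476) (T.l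 476)))) (T.a (T.a (T.a (T.l 476) (T.l 476)) (T.a (T.a (T.l 476) (T.c (T.l 476) (T.l 476))) (T.a (T.l 476) (T.l 476)))) (T.a (T.a (T.a (T.l 476) (T.c (T.l 476) (T.l 476))) (T.c (T.a (T.l 476) (T.l 476)) (T.c (T.l 476) (T.l 476)))) (T.a (T.c (T.a (T.l 476) (T.l 476)) (T.c (T.l 476) (T.l 476))) (T.c (T.a (T.l 476) (T.l 476)) (T.c (T.l 476) (T.l 476))))))) (T.a (T.a (T.a (T.a (T.c (T.a (T.l 476) (T.l 1024)) (T.c (T.l 476) (T.l 476))) (T.c (T.l 1024) (T.c (T.l 476) (T.l 476)))) (T.c (T.l 1024) (T.a (T.c (T.l 476) (T.l 476)) (T.c (T.l 1024) (T.l 476))))) (T.a (T.c (T.l 1024) (T.c (T.l 1024) (T.a (T.l 476) (T.l 476)))) (T.l 1024))) (T.l 1024))) (T.a (T.a (T.a (T.a (T.l 476) (T.l 476)) (T.a (T.c (T.l 476) (T.l 476)) (T.c (T.l 476) (T.l 476)))) (T.a (T.a (T.a (T.l 476) (T.l 476)) (T.a (T.a (T.l 476) (T.l 476)) (T.a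 (T.l 476) (T.l 476)))) (T.a (T.a (T.a (T.l 476) (T.l 476)) (T.a (T.l 476) (T.l 476))) (T.a (T.a (T.l 476) (T.l 476)) (T.a (T.l 476) (T.l 476)))))) (T.a (T.a (T.a (T.a (T.a (T.l 476) (T.l 476)) (T.c (T.l 1024) (T.l 476))) (T.c (T.l 1024) (T.a (T.l 476) (T.l 476)))) (T.a (T.c (T.l 1024) (T.a (T.l 476) (T.l 476))) (T.l 1024))) (T.l 1024)))))) (T.a (T.a (T.l 204) (T.a (T.a (T.c (T.l 220) (T.l 204)) (T.a (T.a (T.l 204) (T.l 204)) (T.c (T.l 220) (T.l 204)))) (T.a (T.a (T.c (T.l 220) (T.l 204)) (T.c (T.l 220) (T.l 204))) (T.a (T.c (T.l 476) (T.l 220)) (T.c (T.l 476) (T.l 220)))))) (T.c (T.a (T.a (T.a (T.a (T.c (T.l 476) (T.l 476)) (T.c (T.l 476) (T.l 476))) (T.a (T.a (T.l 476) (T.l 476)) (T.a (T.l 476) (T.l 476)))) (T.a (T.a (T.a (T.l 476) (T.c (T.l 476) (T.l 476))) (T.a (T.a (T.l 476) (T.c (T.l 476) (T.l 476)))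 (T.a (T.c (T.l 476) (T.l 476)) (T.l 1024)))) (T.l 1024))) (T.l 1024)) (T.b (T.a (T.a (T.a (T.a (T.l 476) (T.l 476)) (T.a (T.c (T.l 476) (T.l 476)) (T.c (T.l 476) (T.l 476)))) (T.a (T.a (T.c (T.l 476) (T.l 476)) (T.a (T.a (T.l 476) (T.l 476)) (T.c (T.l 476) (T.l 476)))) (T.a (T.a (T.c (T.l 476) (T.l 476)) (T.c (T.l 476) (T.l 476))) (T.a (T.c (T.l 476) (T.l 476)) (T.c (T.l 476) (T.l 476)))))) (T.a (T.a (T.a (T.a (T.c (T.l 476) (T.l 476)) (T.c (T.l 1024) (T.l 476))) (T.c (T.l 1024) (T.a (T.l 476) (T.l 476)))) (T.a (T.c (T.l 1024) (T.a (T.l 476) (T.l 476))) (T.l 1024))) (T.l 1024))) (T.a (T.a (T.a (T.a (T.l 476) (T.l 476)) (T.a (T.l 476) (T.l 476))) (T.a (T.a (T.c (T.l 476) (T.l 476)) (T.a (T.c (T.l 476) (T.l 476)) (T.c (T.l 476) (T.l 476)))) (T.a (T.a (T.c (T.l 476) (T.l 476)) (T.l 476)) (T.a (T.l 476) (T.l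 476))))) (T.a (T.a (T.a (T.a (T.l 476) (T.l 476)) (T.a (T.l 476) (T.l 476))) (T.a (T.a (T.l 476) (T.l 476)) (T.l 1024))) (T.l 1024))))))) (T.b (T.a (T.a (T.l 204) (T.a (T.a (T.c (T.l 204) (T.l 204)) (T.a (T.c (T.l 220) (T.l 204)) (T.c (T.l 220) (T.l 204)))) (T.a (T.a (T.c (T.l 220) (T.l 204)) (T.c (T.l 220) (T.l 204))) (T.a (T.c (T.l 220) (T.l 204)) (T.c (T.l 476) (T.l 220)))))) (T.c (T.a (T.a (T.a (T.a (T.l 476) (T.l 476)) (T.a (T.c (T.l 476) (T.l 476)) (T.c (T.l 476) (T.l 476)))) (T.a (T.a (T.c (T.l 476) (T.l 476)) (T.a (T.l 476) (T.a (T.l 476) (T.l 1024)))) (T.l 1024))) (T.l 1024)) (T.b (T.a (T.a (T.a (T.a (T.l 220) (T.l 476)) (T.a (T.l 476) (T.l 476))) (T.a (T.a (T.l 476) (T.a (T.l 476) (T.c (T.l 476) (T.l 476)))) (T.a (T.a (T.l 476) (T.l 476)) (T.a (T.l 476) (T.l 476))))) (T.a (T.a (T.a (T.a (T.l 476)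 (T.l 476)) (T.a (T.l 476) (T.l 476))) (T.a (T.a (T.l 476) (T.l 476)) (T.l 1024))) (T.l 1024))) (T.a (T.a (T.a (T.a (T.l 220) (T.l 476)) (T.a (T.l 476) (T.l 476))) (T.a (T.a (T.l 476) (T.a (T.l 476) (T.l 476))) (T.a (T.a (T.l 476) (T.l 476)) (T.a (T.l 476) (T.l 476))))) (T.a (T.a (T.a (T.a (T.l 476) (T.l 476)) (T.a (T.l 476) (T.l 476))) (T.a (T.a (T.l 476) (T.l 476)) (T.l 1024))) (T.l 1024)))))) (T.a (T.a (T.l 204) (T.a (T.a (T.c (T.l 204) (T.l 204)) (T.a (T.c (T.l 220) (T.l 204)) (T.c (T.l 220) (T.l 204)))) (T.a (T.a (T.c (T.l 220) (T.l 204)) (T.c (T.l 220) (T.l 204))) (T.a (T.c (T.l 220) (T.l 204)) (T.c (T.l 220) (T.l 204)))))) (T.c (T.a (T.a (T.a (T.a (T.l 476) (T.l 476)) (T.a (T.l 476) (T.l 476))) (T.a (T.a (T.l 476) (T.a (T.l 476) (T.c (T.l 476) (T.l 476)))) (T.l 1024))) (T.l 1024)) (T.a (T.a (T.a (T.a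 (T.l 220) (T.l 476)) (T.a (T.l 476) (T.l 476))) (T.a (T.a (T.l 476) (T.a (T.l 476) (T.l 476))) (T.a (T.a (T.l 476) (T.l 476)) (T.a (T.l 476) (T.l 476))))) (T.a (T.a (T.a (T.a (T.l 476) (T.l 476)) (T.a (T.l 476) (T.l 476))) (T.c (T.l 1024) (T.a (T.b (T.l 476) (T.l 476)) (T.l 476)))) (T.l 1024))))))), by decide +kernel⟩

def A102E_001_1_65_1 :
    ∃ t, chk3 (onCell 0 50331648 0 1073741824 50331648 16777216 (corTK [[⟨0, 1, 0, 8388608⟩, ⟨1, 0, 1, 25165824⟩, ⟨2, 1, 1, 25165824⟩, ⟨1, 0, 0, 83886080⟩, ⟨1, 1, 0, 1040187392⟩, ⟨2, 1, 0, 83886080⟩, ⟨2, 2, 0, 1040187392⟩]] false 3 c0N cA102E gN0q1 gN0q0 gN1q2 gN2q2 true true)) t 1 65 1 = true :=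
  ⟨(T.b (T.b (T.a (T.a (T.l 204) (T.a (T.a (T.l 220) (T.a (T.c (T.l 204) (T.l 204)) (T.c (T.l 204) (T.l 204)))) (T.a (T.a (T.c (T.l 204) (T.l 204)) (T.c (T.l 204) (T.l 204))) (T.a (T.c (T.l 220) (T.l 204)) (T.c (T.l 220) (T.l 204)))))) (T.a (T.a (T.a (T.a (T.c (T.l 476) (T.l 204)) (T.c (T.l 476) (T.l 220))) (T.a (T.c (T.l 476) (T.l 476)) (T.c (T.l 476) (T.l 476)))) (T.a (T.a (T.c (T.l 476) (T.l 476)) (T.a (T.l 476) (T.c (T.l 476) (T.l 476)))) (T.c (T.l 1024) (T.a (T.a (T.l 476) (T.l 476)) (T.a (T.l 476) (T.l 476)))))) (T.a (T.c (T.l 1024) (T.a (T.a (T.a (T.l 476) (T.l 476)) (T.c (T.l 1024) (T.l 476))) (T.c (T.l 1024) (T.a (T.l 476) (T.l 476))))) (T.l 1024)))) (T.a (T.a (T.l 204) (T.a (T.a (T.l 220) (T.a (T.c (T.l 204) (T.l 204)) (T.c (T.l 204) (T.l 204)))) (T.a (T.a (T.l 220) (T.l 476)) (T.a (T.l 476) (T.l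 476))))) (T.a (T.a (T.a (T.a (T.l 476) (T.l 476)) (T.a (T.c (T.l 476) (T.l 476)) (T.c (T.l 476) (T.l 476)))) (T.a (T.a (T.c (T.l 476) (T.l 476)) (T.a (T.l 476) (T.c (T.l 476) (T.l 476)))) (T.c (T.l 1024) (T.a (T.a (T.l 476) (T.l 476)) (T.c (T.l 476) (T.l 476)))))) (T.a (T.c (T.l 1024) (T.a (T.a (T.c (T.l 476) (T.l 476)) (T.c (T.l 1024) (T.l 476))) (T.a (T.l 476) (T.l 476)))) (T.l 1024))))) (T.b (T.a (T.a (T.l 204) (T.a (T.a (T.l 220) (T.a (T.c (T.l 204) (T.l 204)) (T.l 220))) (T.a (T.a (T.l 220) (T.l 220)) (T.a (T.l 476) (T.l 476))))) (T.a (T.a (T.a (T.a (T.l 476) (T.l 476)) (T.a (T.c (T.l 476) (T.l 220)) (T.c (T.l 476) (T.l 476)))) (T.a (T.a (T.c (T.l 476) (T.l 476)) (T.a (T.l 476) (T.c (T.l 476) (T.l 476)))) (T.c (T.l 1024) (T.a (T.c (T.l 476) (T.l 476)) (T.c (T.l 476) (T.l 476)))))) (T.a (T.c (T.l 1024)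 (T.a (T.a (T.l 476) (T.l 476)) (T.a (T.l 476) (T.l 476)))) (T.l 1024)))) (T.a (T.a (T.l 204) (T.a (T.a (T.l 204) (T.a (T.c (T.l 204) (T.l 204)) (T.l 220))) (T.a (T.a (T.l 220) (T.l 220)) (T.a (T.l 220) (T.l 476))))) (T.a (T.a (T.a (T.a (T.l 476) (T.l 476)) (T.a (T.l 476) (T.l 476))) (T.a (T.a (T.l 476) (T.a (T.l 476) (T.l 476))) (T.a (T.a (T.l 476) (T.l 476)) (T.c (T.l 1024) (T.l 476))))) (T.a (T.c (T.l 1024) (T.a (T.a (T.l 476) (T.l 476)) (T.a (T.l 476) (T.l 476)))) (T.l 1024)))))), by decide +kernel⟩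

def A102E_001_1_33_1 :
    ∃ t, chk3 (onCell 0 50331648 0 1073741824 50331648 16777216 (corTK [[⟨0, 1, 0, 8388608⟩, ⟨1, 0, 1, 25165824⟩, ⟨2, 1, 1, 25165824⟩, ⟨1, 0, 0, 83886080⟩, ⟨1, 1, 0, 1040187392⟩, ⟨2, 1, 0, 83886080⟩, ⟨2, 2, 0, 1040187392⟩]] false 3 c0N cA102E gN0q1 gN0q0 gN1q2 gN2q2 true true)) t 1 33 1 = true :=
  ⟨(T.b (T.b (T.b (T.a (T.a (T.l 204) (T.a (T.a (T.l 204) (T.a (T.l 220) (T.l 220))) (T.a (T.a (T.l 220) (T.l 220)) (T.a (T.l 220) (T.l 220))))) (T.a (T.a (T.a (T.a (T.l 476) (T.l 476)) (T.a (T.l 476) (T.l 476))) (T.a (T.a (T.l 476) (T.l 476)) (T.a (T.a (T.l 476) (T.l 476)) (T.c (T.l 1024) (T.l 476))))) (T.a (T.c (T.l 1024) (T.a (T.a (T.l 476) (T.l 476)) (T.a (T.l 476) (T.l 476)))) (T.l 1024)))) (T.a (T.a (T.l 204) (T.a (T.a (T.l 204) (T.a (T.l 220) (T.l 220))) (T.a (T.a (T.l 220) (T.l 220))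 (T.a (T.l 220) (T.l 220))))) (T.a (T.a (T.a (T.c (T.l 476) (T.l 476)) (T.a (T.l 476) (T.l 476))) (T.a (T.c (T.l 476) (T.l 476)) (T.a (T.c (T.l 476) (T.l 476)) (T.c (T.l 1024) (T.l 476))))) (T.a (T.c (T.l 1024) (T.a (T.a (T.l 476) (T.l 476)) (T.a (T.l 476) (T.l 476)))) (T.l 1024))))) (T.b (T.a (T.a (T.l 204) (T.a (T.a (T.l 204) (T.a (T.l 220) (T.l 220))) (T.a (T.a (T.l 204) (T.l 220)) (T.c (T.l 476) (T.l 476))))) (T.a (T.a (T.a (T.c (T.l 476) (T.l 476)) (T.c (T.l 476) (T.l 476))) (T.a (T.c (T.l 476) (T.l 476)) (T.a (T.c (T.l 476) (T.l 476)) (T.c (T.l 1024) (T.l 476))))) (T.a (T.c (T.l 1024) (T.a (T.a (T.l 476) (T.l 476)) (T.a (T.l 476) (T.l 476)))) (T.l 1024)))) (T.a (T.a (T.l 204) (T.a (T.a (T.l 204) (T.a (T.l 220) (T.l 204))) (T.a (T.a (T.l 204) (T.l 204)) (T.c (T.l 476) (T.l 476))))) (T.a (T.a (T.a (T.c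 (T.l 476) (T.l 476)) (T.c (T.l 476) (T.l 476))) (T.a (T.c (T.l 476) (T.l 476)) (T.a (T.c (T.l 476) (T.l 476)) (T.c (T.l 1024) (T.l 476))))) (T.a (T.c (T.l 1024) (T.a (T.a (T.l 476) (T.l 476)) (T.a (T.l 476) (T.l 476)))) (T.l 1024)))))) (T.b (T.b (T.a (T.a (T.l 204) (T.a (T.a (T.l 204) (T.a (T.l 204) (T.l 204))) (T.a (T.a (T.l 204) (T.l 204)) (T.c (T.l 476) (T.l 476))))) (T.a (T.a (T.a (T.c (T.l 476) (T.l 476)) (T.c (T.l 476) (T.l 476))) (T.a (T.c (T.l 476) (T.l 476)) (T.a (T.c (T.l 476) (T.l 476)) (T.l 476)))) (T.c (T.l 1024) (T.a (T.a (T.a (T.l 476) (T.l 476)) (T.a (T.l 476) (T.l 476))) (T.a (T.c (T.l 1024) (T.l 476)) (T.l 1024)))))) (T.a (T.a (T.l 204) (T.a (T.a (T.l 204) (T.a (T.l 204) (T.l 204))) (T.a (T.c (T.l 476) (T.l 476)) (T.c (T.l 476) (T.l 220))))) (T.a (T.a (T.a (T.c (T.l 476) (T.l 220)) (T.c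 (T.l 476) (T.l 476))) (T.a (T.c (T.l 476) (T.l 476)) (T.a (T.c (T.l 476) (T.l 476)) (T.l 476)))) (T.c (T.l 1024) (T.a (T.a (T.a (T.l 476) (T.l 476)) (T.c (T.l 1024) (T.l 476))) (T.a (T.l 476) (T.l 1024))))))) (T.b (T.a (T.a (T.l 204) (T.a (T.a (T.l 204) (T.a (T.l 204) (T.l 204))) (T.a (T.c (T.l 476) (T.l 476)) (T.c (T.l 476) (T.l 220))))) (T.a (T.a (T.a (T.c (T.l 476) (T.l 220)) (T.c (T.l 476) (T.l 476))) (T.a (T.c (T.l 476) (T.l 476)) (T.a (T.c (T.l 476) (T.l 476)) (T.l 476)))) (T.c (T.l 1024) (T.a (T.a (T.a (T.l 476) (T.l 476)) (T.c (T.l 1024) (T.l 476))) (T.a (T.l 476) (T.l 1024)))))) (T.a (T.a (T.l 204) (T.a (T.a (T.l 204) (T.a (T.l 204) (T.l 204))) (T.a (T.c (T.l 476) (T.l 220)) (T.c (T.l 220) (T.l 220))))) (T.a (T.a (T.a (T.l 476) (T.c (T.l 476) (T.l 476))) (T.a (T.l 476) (T.a (T.l 476) (T.l 476))))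 (T.c (T.l 1024) (T.a (T.a (T.a (T.l 476) (T.l 476)) (T.c (T.l 1024) (T.l 476))) (T.a (T.l 476) (T.l 1024))))))))), by decide +kernel⟩

def A102E_001_1_17_1 :
    ∃ t, chk3 (onCell 0 50331648 0 1073741824 50331648 16777216 (corTK [[⟨0, 1, 0, 8388608⟩, ⟨1, 0, 1, 25165824⟩, ⟨2, 1, 1, 25165824⟩, ⟨1, 0, 0, 83886080⟩, ⟨1, 1, 0, 1040187392⟩, ⟨2, 1, 0, 83886080⟩, ⟨2, 2, 0, 1040187392⟩]] false 3 c0N cA102E gN0q1 gN0q0 gN1q2 gN2q2 true true)) t 1 17 1 = true :=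
  ⟨(T.b (T.b (T.b (T.b (T.a (T.a (T.l 204) (T.a (T.a (T.l 204) (T.a (T.l 204) (T.l 204))) (T.a (T.c (T.l 220) (T.l 220)) (T.c (T.l 220) (T.l 204))))) (T.a (T.a (T.a (T.l 476) (T.c (T.l 476) (T.l 220))) (T.a (T.l 476) (T.a (T.l 476) (T.l 476)))) (T.c (T.l 1024) (T.a (T.a (T.a (T.l 476) (T.l 476)) (T.l 476)) (T.a (T.l 476) (T.l 1024)))))) (T.a (T.a (T.l 204) (T.a (T.a (T.l 204) (T.a (T.l 204) (T.l 204))) (T.a (T.c (T.l 220) (T.l 220)) (T.l 476)))) (T.a (T.a (T.a (T.l 476) (T.l 476)) (T.a (T.l 476) (T.a (T.l 476) (T.l 476)))) (T.c (T.l 1024) (T.a (T.a (T.c (T.l 476) (T.l 476)) (T.l 476)) (T.a (T.l 476) (T.l 1024))))))) (T.b (T.a (T.a (T.l 204) (T.a (T.a (T.l 204) (T.a (T.l 204) (T.l 204))) (T.a (T.c (T.l 220) (T.l 204)) (T.l 476)))) (T.a (T.a (T.a (T.l 476) (T.l 476)) (T.a (T.l 476) (T.a (T.l 476) (T.l 476))))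 (T.c (T.l 1024) (T.a (T.a (T.c (T.l 476) (T.l 476)) (T.l 476)) (T.a (T.l 476) (T.l 1024)))))) (T.a (T.a (T.l 204) (T.a (T.a (T.l 204) (T.c (T.l 476) (T.l 220))) (T.a (T.c (T.l 220) (T.l 204)) (T.l 476)))) (T.a (T.a (T.a (T.l 476) (T.l 476)) (T.a (T.l 476) (T.a (T.l 220) (T.l 476)))) (T.c (T.l 1024) (T.a (T.a (T.c (T.l 476) (T.l 476)) (T.l 476)) (T.a (T.l 476) (T.l 1024)))))))) (T.b (T.b (T.a (T.a (T.l 204) (T.a (T.a (T.l 204) (T.c (T.l 220) (T.l 220))) (T.a (T.c (T.l 220) (T.l 204)) (T.l 476)))) (T.a (T.a (T.a (T.l 476) (T.l 476)) (T.a (T.l 476) (T.a (T.l 220) (T.l 476)))) (T.c (T.l 1024) (T.a (T.a (T.c (T.l 476) (T.l 476)) (T.l 476)) (T.a (T.l 476) (T.l 1024)))))) (T.a (T.a (T.l 204) (T.a (T.a (T.l 204) (T.c (T.l 220) (T.l 220))) (T.a (T.l 476) (T.l 476)))) (T.a (T.a (T.a (T.l 476) (T.l 476)) (T.a (T.l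 476) (T.a (T.l 204) (T.l 476)))) (T.c (T.l 1024) (T.a (T.a (T.l 476) (T.l 476)) (T.a (T.l 476) (T.l 1024))))))) (T.b (T.a (T.a (T.l 204) (T.a (T.a (T.l 204) (T.c (T.l 220) (T.l 220))) (T.a (T.l 476) (T.l 476)))) (T.a (T.a (T.a (T.l 220) (T.l 476)) (T.a (T.l 476) (T.a (T.l 204) (T.l 476)))) (T.c (T.l 1024) (T.a (T.a (T.l 476) (T.l 476)) (T.a (T.l 476) (T.l 1024)))))) (T.a (T.a (T.l 204) (T.a (T.a (T.l 204) (T.c (T.l 220) (T.l 204))) (T.a (T.l 476) (T.l 220)))) (T.a (T.a (T.a (T.l 220) (T.l 476)) (T.a (T.l 476) (T.a (T.l 204) (T.l 476)))) (T.c (T.l 1024) (T.a (T.a (T.l 476) (T.l 476)) (T.a (T.l 476) (T.l 1024))))))))) (T.b (T.b (T.b (T.a (T.a (T.l 204) (T.a (T.a (T.l 204) (T.c (T.l 220) (T.l 204))) (T.a (T.l 476) (T.l 220)))) (T.a (T.a (T.a (T.l 220) (T.l 476)) (T.a (T.l 476) (T.a (T.l 204) (T.l 476)))) (T.c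 (T.l 1024) (T.a (T.a (T.l 476) (T.l 476)) (T.a (T.l 476) (T.l 1024)))))) (T.a (T.a (T.l 204) (T.a (T.a (T.l 204) (T.c (T.l 220) (T.l 204))) (T.a (T.l 220) (T.l 220)))) (T.a (T.a (T.a (T.l 220) (T.l 476)) (T.a (T.l 476) (T.a (T.l 204) (T.l 476)))) (T.c (T.l 1024) (T.a (T.a (T.l 476) (T.l 476)) (T.a (T.l 476) (T.l 1024))))))) (T.b (T.a (T.a (T.l 204) (T.a (T.a (T.l 204) (T.c (T.l 204) (T.l 204))) (T.a (T.l 220) (T.l 220)))) (T.a (T.a (T.a (T.l 220) (T.l 476)) (T.a (T.l 476) (T.a (T.l 204) (T.l 476)))) (T.c (T.l 1024) (T.a (T.a (T.l 476) (T.l 476)) (T.a (T.l 476) (T.l 1024)))))) (T.a (T.a (T.l 204) (T.a (T.a (T.l 204) (T.l 476)) (T.a (T.l 220) (T.l 220)))) (T.a (T.a (T.a (T.l 220) (T.l 220)) (T.a (T.l 220) (T.a (T.l 204) (T.l 476)))) (T.c (T.l 1024) (T.a (T.a (T.l 476) (T.l 476)) (T.a (T.l 476) (T.l 1024))))))))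 (T.b (T.b (T.a (T.a (T.l 204) (T.a (T.a (T.l 204) (T.l 476)) (T.a (T.l 220) (T.l 204)))) (T.a (T.a (T.a (T.l 204) (T.l 220)) (T.a (T.l 220) (T.a (T.l 204) (T.l 220)))) (T.a (T.a (T.c (T.l 476) (T.l 476)) (T.l 476)) (T.a (T.l 476) (T.l 476))))) (T.a (T.a (T.l 204) (T.a (T.a (T.l 204) (T.l 476)) (T.a (T.l 220) (T.l 204)))) (T.a (T.a (T.a (T.l 204) (T.l 220)) (T.c (T.l 476) (T.l 476))) (T.a (T.a (T.c (T.l 476) (T.l 476)) (T.l 476)) (T.a (T.l 476) (T.l 476)))))) (T.b (T.a (T.a (T.l 204) (T.a (T.a (T.l 204) (T.l 220)) (T.a (T.l 220) (T.l 204)))) (T.a (T.a (T.a (T.l 204) (T.l 220)) (T.c (T.l 476) (T.l 476))) (T.a (T.a (T.c (T.l 476) (T.l 476)) (T.l 476)) (T.a (T.l 476) (T.l 476))))) (T.a (T.a (T.l 204) (T.a (T.a (T.l 204) (T.l 220)) (T.a (T.l 204) (T.l 204)))) (T.a (T.a (T.a (T.l 204) (T.l 220)) (T.c (T.l 476)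 (T.l 476))) (T.a (T.a (T.c (T.l 476) (T.l 476)) (T.l 476)) (T.a (T.l 476) (T.l 476))))))))), by decide +kernel⟩

def A102E_001_1_9_1 :
    ∃ t, chk3 (onCell 0 50331648 0 1073741824 50331648 16777216 (corTK [[⟨0, 1, 0, 8388608⟩, ⟨1, 0, 1, 25165824⟩, ⟨2, 1, 1, 25165824⟩, ⟨1, 0, 0, 83886080⟩, ⟨1, 1, 0, 1040187392⟩, ⟨2, 1, 0, 83886080⟩, ⟨2, 2, 0, 1040187392⟩]] false 3 c0N cA102E gN0q1 gN0q0 gN1q2 gN2q2 true true)) t 1 9 1 = true :=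
  ⟨(T.b (T.b (T.b (T.b (T.b (T.a (T.a (T.l 204) (T.a (T.a (T.l 204) (T.l 220)) (T.a (T.l 204) (T.l 204)))) (T.a (T.a (T.a (T.l 204) (T.l 220)) (T.c (T.l 476) (T.l 476))) (T.a (T.a (T.l 476) (T.l 476)) (T.a (T.l 476) (T.l 476))))) (T.a (T.a (T.l 204) (T.a (T.a (T.l 204) (T.l 220)) (T.a (T.l 204) (T.l 204)))) (T.a (T.a (T.a (T.l 204) (T.l 204)) (T.c (T.l 476) (T.l 476))) (T.a (T.a (T.l 476) (T.l 476)) (T.a (T.l 476) (T.l 476)))))) (T.b (T.a (T.a (T.l 204) (T.a (T.a (T.l 204) (T.l 220)) (T.a (T.l 204) (T.l 204)))) (T.a (T.a (T.a (T.l 204) (T.l 204)) (T.c (T.l 476) (T.l 476))) (T.a (T.a (T.l 476) (T.l 476)) (T.a (T.l 476) (T.l 476))))) (T.a (T.a (T.l 204) (T.a (T.a (T.l 204) (T.l 220)) (T.a (T.l 204) (T.l 204)))) (T.a (T.a (T.a (T.l 204) (T.l 204)) (T.c (T.l 476) (T.l 476))) (T.a (T.a (T.l 476) (T.l 476)) (T.a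 (T.l 476) (T.l 476))))))) (T.b (T.b (T.a (T.a (T.l 204) (T.a (T.a (T.l 204) (T.l 204)) (T.a (T.l 204) (T.l 204)))) (T.a (T.a (T.a (T.l 204) (T.l 204)) (T.c (T.l 476) (T.l 476))) (T.a (T.a (T.l 476) (T.l 476)) (T.a (T.l 476) (T.l 476))))) (T.a (T.a (T.l 204) (T.a (T.a (T.l 204) (T.l 204)) (T.a (T.l 204) (T.l 204)))) (T.a (T.a (T.a (T.l 204) (T.l 204)) (T.c (T.l 476) (T.l 476))) (T.a (T.a (T.l 476) (T.l 476)) (T.a (T.l 476) (T.l 476)))))) (T.b (T.a (T.a (T.l 204) (T.a (T.l 476) (T.a (T.l 204) (T.l 204)))) (T.a (T.a (T.c (T.l 476) (T.l 476)) (T.l 476)) (T.a (T.a (T.l 476) (T.l 476)) (T.a (T.l 476) (T.l 476))))) (T.a (T.a (T.l 204) (T.a (T.l 476) (T.a (T.l 204) (T.l 204)))) (T.a (T.a (T.c (T.l 476) (T.l 476)) (T.l 476)) (T.a (T.a (T.l 476) (T.l 476)) (T.a (T.l 476) (T.l 476)))))))) (T.b (T.b (T.b (T.a (T.a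 (T.l 204) (T.a (T.l 220) (T.a (T.l 204) (T.l 204)))) (T.a (T.a (T.c (T.l 476) (T.l 476)) (T.l 476)) (T.a (T.a (T.l 476) (T.l 476)) (T.a (T.l 476) (T.l 476))))) (T.a (T.a (T.l 204) (T.a (T.l 220) (T.a (T.l 204) (T.l 204)))) (T.a (T.a (T.c (T.l 476) (T.l 476)) (T.l 476)) (T.a (T.a (T.l 476) (T.l 476)) (T.a (T.l 476) (T.l 220)))))) (T.b (T.a (T.a (T.l 204) (T.a (T.l 220) (T.a (T.l 204) (T.l 204)))) (T.a (T.a (T.c (T.l 476) (T.l 476)) (T.l 476)) (T.a (T.a (T.l 476) (T.l 476)) (T.a (T.l 476) (T.l 220))))) (T.a (T.a (T.l 204) (T.a (T.l 220) (T.a (T.l 204) (T.l 204)))) (T.a (T.a (T.c (T.l 476) (T.l 476)) (T.l 476)) (T.a (T.a (T.l 476) (T.l 476)) (T.c (T.l 476) (T.l 476))))))) (T.b (T.a (T.a (T.l 204) (T.a (T.l 220) (T.a (T.l 204) (T.l 204)))) (T.a (T.a (T.c (T.l 476) (T.l 476)) (T.l 476)) (T.a (T.a (T.l 476) (T.l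 476)) (T.a (T.l 476) (T.l 476))))) (T.a (T.a (T.l 204) (T.a (T.l 220) (T.a (T.l 204) (T.l 204)))) (T.a (T.a (T.c (T.l 476) (T.l 476)) (T.l 476)) (T.a (T.a (T.l 204) (T.l 476)) (T.a (T.l 476) (T.l 220)))))))) (T.b (T.b (T.a (T.a (T.l 204) (T.a (T.l 220) (T.a (T.l 204) (T.l 204)))) (T.a (T.a (T.c (T.l 476) (T.l 476)) (T.b (T.l 476) (T.l 476))) (T.a (T.a (T.l 204) (T.l 476)) (T.a (T.l 476) (T.l 476))))) (T.a (T.a (T.l 204) (T.a (T.l 220) (T.a (T.l 204) (T.l 204)))) (T.a (T.a (T.c (T.l 476) (T.l 476)) (T.b (T.l 476) (T.l 476))) (T.a (T.a (T.l 204) (T.l 476)) (T.a (T.l 476) (T.l 476)))))) (T.b (T.a (T.a (T.l 204) (T.a (T.l 204) (T.c (T.l 476) (T.l 476)))) (T.a (T.a (T.c (T.l 476) (T.l 476)) (T.l 476)) (T.a (T.a (T.l 204) (T.l 476)) (T.a (T.l 476) (T.l 220))))) (T.a (T.a (T.l 204) (T.a (T.l 204) (T.b (T.l 476)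 (T.l 476)))) (T.a (T.a (T.c (T.l 476) (T.l 476)) (T.l 476)) (T.a (T.a (T.l 204) (T.l 476)) (T.b (T.l 476) (T.l 476)))))))), by decide +kernel⟩

def A102E_001_1_5_1 :
    ∃ t, chk3 (onCell 0 50331648 0 1073741824 50331648 16777216 (corTK [[⟨0, 1, 0, 8388608⟩, ⟨1, 0, 1, 25165824⟩, ⟨2, 1, 1, 25165824⟩, ⟨1, 0, 0, 83886080⟩, ⟨1, 1, 0, 1040187392⟩, ⟨2, 1, 0, 83886080⟩, ⟨2, 2, 0, 1040187392⟩]] false 3 c0N cA102E gN0q1 gN0q0 gN1q2 gN2q2 true true)) t 1 5 1 = true :=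
  ⟨(T.b (T.b (T.b (T.b (T.a (T.a (T.l 204) (T.a (T.l 204) (T.l 476))) (T.a (T.a (T.b (T.l 476) (T.l 476)) (T.l 476)) (T.a (T.l 476) (T.b (T.l 476) (T.l 476))))) (T.a (T.a (T.l 204) (T.a (T.l 204) (T.l 476))) (T.a (T.a (T.b (T.l 476) (T.l 476)) (T.l 476)) (T.a (T.l 220) (T.l 476))))) (T.b (T.a (T.a (T.l 204) (T.a (T.l 204) (T.b (T.l 476) (T.l 476)))) (T.a (T.a (T.l 476) (T.l 476)) (T.a (T.l 204) (T.l 476)))) (T.a (T.l 1) (T.a (T.l 1) (T.a (T.l 204) (T.l 476)))))) (T.l 1)) (T.l 1)), by decide +kernel⟩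

def A102E_001_1_3_1 :
    ∃ t, chk3 (onCell 0 50331648 0 1073741824 50331648 16777216 (corTK [[⟨0, 1, 0, 8388608⟩, ⟨1, 0, 1, 25165824⟩, ⟨2, 1, 1, 25165824⟩, ⟨1, 0, 0, 83886080⟩, ⟨1, 1, 0, 1040187392⟩, ⟨2, 1, 0, 83886080⟩, ⟨2, 2, 0, 1040187392⟩]] false 3 c0N cA102E gN0q1 gN0q0 gN1q2 gN2q2 true true)) t 1 3 1 = true :=
  ⟨(T.l 1), by decide +kernel⟩

theorem A102E_001_1_32_1 :
    ∃ t, chk3 (onCell 0 50331648 0 1073741824 50331648 16777216 (corTK [[⟨0, 1, 0, 8388608⟩, ⟨1, 0, 1, 25165824⟩, ⟨2, 1, 1, 25165824⟩, ⟨1, 0, 0, 83886080⟩, ⟨1, 1, 0, 1040187392⟩, ⟨2, 1, 0, 83886080⟩, ⟨2, 2, 0, 1040187392⟩]] false 3 c0N cA102E gN0q1 gN0q0 gN1q2 gN2q2 true true)) t 1 32 1 = true :=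
  ex3_b A102E_001_1_64_1 A102E_001_1_65_1
theorem A102E_001_1_16_1 :
    ∃ t, chk3 (onCell 0 50331648 0 1073741824 50331648 16777216 (corTK [[⟨0, 1, 0, 8388608⟩, ⟨1, 0, 1, 25165824⟩, ⟨2, 1, 1, 25165824⟩, ⟨1, 0, 0, 83886080⟩, ⟨1, 1, 0, 1040187392⟩, ⟨2, 1, 0, 83886080⟩, ⟨2, 2, 0, 1040187392⟩]] false 3 c0N cA102E gN0q1 gN0q0 gN1q2 gN2q2 true true)) t 1 16 1 = true :=
  ex3_b A102E_001_1_32_1 A102E_001_1_33_1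
theorem A102E_001_1_8_1 :
    ∃ t, chk3 (onCell 0 50331648 0 1073741824 50331648 16777216 (corTK [[⟨0, 1, 0, 8388608⟩, ⟨1, 0, 1, 25165824⟩, ⟨2, 1, 1, 25165824⟩, ⟨1, 0, 0, 83886080⟩, ⟨1, 1, 0, 1040187392⟩, ⟨2, 1, 0, 83886080⟩, ⟨2, 2, 0, 1040187392⟩]] false 3 c0N cA102E gN0q1 gN0q0 gN1q2 gN2q2 true true)) t 1 8 1 = true :=
  ex3_b A102E_001_1_16_1 A102E_001_1_17_1
theorem A102E_001_1_4_1 :
    ∃ t, chk3 (onCell 0 50331648 0 1073741824 50331648 16777216 (corTK [[⟨0, 1, 0, 8388608⟩, ⟨1, 0, 1, 25165824⟩, ⟨2, 1, 1, 25165824⟩, ⟨1, 0, 0, 83886080⟩, ⟨1, 1, 0, 1040187392⟩, ⟨2, 1, 0, 83886080⟩, ⟨2, 2, 0, 1040187392⟩]] false 3 c0N cA102E gN0q1 gN0q0 gN1q2 gN2q2 true true)) t 1 4 1 = true :=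
  ex3_b A102E_001_1_8_1 A102E_001_1_9_1
theorem A102E_001_1_2_1 :
    ∃ t, chk3 (onCell 0 50331648 0 1073741824 50331648 16777216 (corTK [[⟨0, 1, 0, 8388608⟩, ⟨1, 0, 1, 25165824⟩, ⟨2, 1, 1, 25165824⟩, ⟨1, 0, 0, 83886080⟩, ⟨1, 1, 0, 1040187392⟩, ⟨2, 1, 0, 83886080⟩, ⟨2, 2, 0, 1040187392⟩]] false 3 c0N cA102E gN0q1 gN0q0 gN1q2 gN2q2 true true)) t 1 2 1 = true :=
  ex3_b A102E_001_1_4_1 A102E_001_1_5_1
theorem A102E_001 :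
    ∃ t, chk3 (onCell 0 50331648 0 1073741824 50331648 16777216 (corTK [[⟨0, 1, 0, 8388608⟩, ⟨1, 0, 1, 25165824⟩, ⟨2, 1, 1, 25165824⟩, ⟨1, 0, 0, 83886080⟩, ⟨1, 1, 0, 1040187392⟩, ⟨2, 1, 0, 83886080⟩, ⟨2, 2, 0, 1040187392⟩]] false 3 c0N cA102E gN0q1 gN0q0 gN1q2 gN2q2 true true)) t 1 1 1 = true :=
  ex3_b A102E_001_1_2_1 A102E_001_1_3_1

def A102E_002 :
    ∃ t, chk3 (onCell 0 50331648 0 1073741824 50331648 16777216 (corTK [[⟨0, 1, 0, 8388608⟩, ⟨1, 0, 1, 25165824⟩, ⟨2, 1, 1, 25165824⟩, ⟨1, 0, 0, 83886080⟩, ⟨1, 1, 0, 1040187392⟩, ⟨2, 1, 0, 83886080⟩, ⟨2, 2, 0, 1040187392⟩]] false 3 c0N cA102E gN0q1 gN0q0 gN2q2 gN3q2 true false)) t 1 1 1 = true :=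
  ⟨(T.b (T.b (T.b (T.b (T.b (T.b (T.b (T.b (T.a (T.a (T.l 204) (T.c (T.b (T.c (T.b (T.a (T.a (T.l 204) (T.l 220)) (T.a (T.l 220) (T.l 476))) (T.l 1)) (T.b (T.a (T.a (T.l 204) (T.l 204)) (T.a (T.l 204) (T.l 476))) (T.l 1))) (T.l 1)) (T.b (T.c (T.b (T.a (T.a (T.l 204) (T.l 204)) (T.a (T.l 204) (T.l 476))) (T.l 1)) (T.b (T.a (T.a (T.l 204) (T.l 204)) (T.a (T.l 204) (T.l 204))) (T.l 1))) (T.l 1)))) (T.c (T.a (T.b (T.c (T.b (T.a (T.c (T.a (T.l 476) (T.a (T.l 476) (T.l 476))) (T.a (T.l 476) (T.a (T.l 476) (T.l 476)))) (T.a (T.c (T.a (T.l 476) (T.a (T.a (T.l 476) (T.l 476)) (T.l 1024))) (T.a (T.l 476) (T.a (T.a (T.l 476) (T.l 476)) (T.l 1024)))) (T.l 1024))) (T.l 1)) (T.b (T.a (T.a (T.l 476) (T.a (T.l 476) (T.l 476))) (T.a (T.a (T.l 476) (T.a (T.a (T.l 476) (T.l 476)) (T.l 1024))) (T.l 1024))) (T.l 1))) (T.l 1))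 (T.l 1024)) (T.b (T.a (T.c (T.b (T.a (T.a (T.l 476) (T.a (T.l 476) (T.l 476))) (T.c (T.b (T.a (T.a (T.l 476) (T.a (T.a (T.l 476) (T.l 476)) (T.l 476))) (T.a (T.a (T.l 476) (T.l 476)) (T.l 1024))) (T.l 1)) (T.b (T.a (T.a (T.l 476) (T.a (T.c (T.l 476) (T.l 476)) (T.l 476))) (T.c (T.b (T.a (T.a (T.l 476) (T.l 476)) (T.a (T.l 476) (T.l 1024))) (T.l 1)) (T.b (T.a (T.a (T.l 476) (T.l 476)) (T.a (T.l 476) (T.l 476))) (T.l 1)))) (T.l 1)))) (T.l 1)) (T.b (T.a (T.a (T.l 476) (T.a (T.l 476) (T.l 476))) (T.c (T.b (T.a (T.a (T.l 476) (T.a (T.l 476) (T.l 476))) (T.c (T.b (T.a (T.a (T.l 476) (T.l 476)) (T.a (T.l 476) (T.l 476))) (T.l 1)) (T.b (T.a (T.a (T.l 476) (T.l 476)) (T.a (T.l 476) (T.l 476))) (T.l 1)))) (T.l 1)) (T.b (T.a (T.a (T.l 476) (T.a (T.l 476) (T.l 476))) (T.c (T.b (T.a (T.a (T.l 476) (T.l 476)) (T.a (T.l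 476) (T.l 476))) (T.l 1)) (T.b (T.a (T.a (T.l 476) (T.l 476)) (T.a (T.l 476) (T.l 476))) (T.l 1)))) (T.l 1)))) (T.l 1))) (T.a (T.c (T.a (T.a (T.c (T.l 1024) (T.a (T.l 476) (T.l 1024))) (T.l 1024)) (T.l 1024)) (T.b (T.c (T.a (T.b (T.c (T.a (T.a (T.l 476) (T.l 476)) (T.l 1024)) (T.b (T.a (T.a (T.l 476) (T.l 476)) (T.a (T.l 476) (T.l 1024))) (T.l 1))) (T.l 1)) (T.l 1024)) (T.b (T.a (T.c (T.b (T.a (T.a (T.l 476) (T.l 476)) (T.a (T.l 476) (T.l 476))) (T.l 1)) (T.b (T.a (T.a (T.l 476) (T.l 476)) (T.a (T.l 476) (T.l 476))) (T.l 1))) (T.a (T.a (T.l 476) (T.l 476)) (T.l 1024))) (T.l 1))) (T.l 1))) (T.l 1024))) (T.l 1)))) (T.l 1)) (T.l 1)) (T.l 1)) (T.l 1)) (T.l 1)) (T.l 1)) (T.l 1)) (T.l 1)), by decide +kernel⟩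

def A102E_010 :
    ∃ t, chk3 (onCell 0 50331648 0 1073741824 50331648 16777216 (corTK [] false 3 c0N cA102E gN0q1 gN1q0 gN0q2 gN1q2 true true)) t 1 1 1 = true :=
  ⟨(T.b (T.l 2) (T.b (T.b (T.l 2) (T.b (T.l 2) (T.a (T.a (T.a (T.l 204) (T.l 204)) (T.l 204)) (T.l 204)))) (T.b (T.b (T.a (T.a (T.a (T.l 204) (T.l 204)) (T.l 204)) (T.l 204)) (T.l 1)) (T.l 1)))), by decide +kernel⟩

def A102E_011 :
    ∃ t, chk3 (onCell 0 50331648 0 1073741824 50331648 16777216 (corTK [] false 3 c0N cA102E gN0q1 gN1q0 gN1q2 gN2q2 true true)) t 1 1 1 = true :=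
  ⟨(T.b (T.l 2) (T.b (T.b (T.a (T.a (T.a (T.l 204) (T.l 204)) (T.l 204)) (T.l 204)) (T.a (T.a (T.a (T.l 204) (T.l 204)) (T.l 204)) (T.l 204))) (T.l 1))), by decide +kernel⟩

def A102E_012 :
    ∃ t, chk3 (onCell 0 50331648 0 1073741824 50331648 16777216 (corTK [] false 3 c0N cA102E gN0q1 gN1q0 gN2q2 gN3q2 true false)) t 1 1 1 = true :=
  ⟨(T.b (T.b (T.b (T.b (T.b (T.a (T.a (T.l 204) (T.l 204)) (T.a (T.l 0) (T.l 204))) (T.a (T.a (T.l 204) (T.l 204)) (T.a (T.l 0) (T.l 204)))) (T.b (T.a (T.a (T.l 204) (T.l 204)) (T.a (T.l 0) (T.l 204))) (T.a (T.a (T.l 204) (T.l 204)) (T.a (T.l 0) (T.l 204))))) (T.b (T.b (T.a (T.a (T.l 204) (T.l 204)) (T.a (T.l 204) (T.l 204))) (T.a (T.a (T.l 204) (T.l 204)) (T.a (T.l 204) (T.l 204)))) (T.b (T.a (T.a (T.l 204) (T.l 204)) (T.a (T.l 204) (T.l 204))) (T.a (T.a (T.l 204) (T.l 204))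 (T.a (T.l 204) (T.l 204)))))) (T.b (T.b (T.b (T.a (T.a (T.l 204) (T.l 204)) (T.a (T.l 204) (T.l 204))) (T.a (T.a (T.l 204) (T.l 204)) (T.a (T.l 204) (T.l 204)))) (T.b (T.a (T.a (T.l 204) (T.l 204)) (T.a (T.l 204) (T.l 204))) (T.a (T.a (T.l 204) (T.l 204)) (T.l 204)))) (T.a (T.a (T.l 204) (T.l 204)) (T.l 204)))) (T.b (T.b (T.a (T.a (T.a (T.l 204) (T.l 204)) (T.l 204)) (T.l 204)) (T.l 1)) (T.l 1))), by decide +kernel⟩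

def A102E_020 :
    ∃ t, chk3 (onCell 0 50331648 0 1073741824 50331648 16777216 (corTK [] false 3 c0N cA102E gN0q1 gN2q0 gN0q2 gN1q2 true true)) t 1 1 1 = true :=
  ⟨(T.b (T.l 2) (T.b (T.l 2) (T.b (T.l 2) (T.a (T.b (T.l 2) (T.a (T.a (T.l 204) (T.l 204)) (T.l 204))) (T.l 204))))), by decide +kernel⟩

def A102E_021 :
    ∃ t, chk3 (onCell 0 50331648 0 1073741824 50331648 16777216 (corTK [] false 3 c0N cA102E gN0q1 gN2q0 gN1q2 gN2q2 true true)) t 1 1 1 = true :=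
  ⟨(T.b (T.l 2) (T.b (T.l 2) (T.a (T.b (T.l 2) (T.a (T.a (T.l 204) (T.l 204)) (T.l 204))) (T.l 204)))), by decide +kernel⟩

def A102E_022 :
    ∃ t, chk3 (onCell 0 50331648 0 1073741824 50331648 16777216 (corTK [] false 3 c0N cA102E gN0q1 gN2q0 gN2q2 gN3q2 true false)) t 1 1 1 = true :=
  ⟨(T.b (T.b (T.b (T.b (T.a (T.a (T.l 204) (T.l 204)) (T.b (T.l 0) (T.l 0))) (T.a (T.a (T.l 204) (T.l 204)) (T.b (T.l 0) (T.l 0)))) (T.b (T.a (T.a (T.l 204) (T.l 204)) (T.a (T.l 204) (T.l 204))) (T.a (T.a (T.l 204) (T.l 204)) (T.a (T.l 204) (T.l 204))))) (T.b (T.b (T.a (T.a (T.l 204) (T.l 204)) (T.a (T.l 204) (T.l 204))) (T.a (T.a (T.l 204) (T.l 204)) (T.a (T.l 204) (T.l 204)))) (T.a (T.a (T.l 204) (T.l 204)) (T.l 204)))) (T.b (T.a (T.a (T.a (T.l 204) (T.l 204)) (T.l 204)) (T.l 204)) (T.a (T.a (T.a (T.l 204) (T.l 204)) (T.l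 204)) (T.l 204)))), by decide +kernel⟩

def A102L_220 :
    ∃ t, chk3 (onCell 0 50331648 0 1073741824 50331648 16777216 (corTK [] false 3 c0N cA102L gN2q1 gN2q0 gN0q2 gN1q2 true true)) t 1 1 1 = true :=
  ⟨(T.b (T.b (T.a (T.a (T.a (T.l 204) (T.l 204)) (T.l 0)) (T.b (T.l 204) (T.l 204))) (T.l 1)) (T.l 1)), by decide +kernel⟩

def A102L_221 :
    ∃ t, chk3 (onCell 0 50331648 0 1073741824 50331648 16777216 (corTK [] false 3 c0N cA102L gN2q1 gN2q0 gN1q2 gN2q2 true true)) t 1 1 1 = true :=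
  ⟨(T.l 1), by decide +kernel⟩

def A102L_222 :
    ∃ t, chk3 (onCell 0 50331648 0 1073741824 50331648 16777216 (corTK [] false 3 c0N cA102L gN2q1 gN2q0 gN2q2 gN3q2 true false)) t 1 1 1 = true :=
  ⟨(T.l 1), by decide +kernel⟩

def A102R_003 :
    ∃ t, chk3 (onCell 0 50331648 0 1073741824 50331648 16777216 (corTK [] false 3 c0N cA102R gN0q1 gN0q0 gN3q2 gN4q2 false true)) t 1 1 1 = true :=
  ⟨(T.l 2), by decide +kernel⟩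

def A102R_013 :
    ∃ t, chk3 (onCell 0 50331648 0 1073741824 50331648 16777216 (corTK [] false 3 c0N cA102R gN0q1 gN1q0 gN3q2 gN4q2 false true)) t 1 1 1 = true :=
  ⟨(T.l 2), by decide +kernel⟩

def A102R_023 :
    ∃ t, chk3 (onCell 0 50331648 0 1073741824 50331648 16777216 (corTK [] false 3 c0N cA102R gN0q1 gN2q0 gN3q2 gN4q2 false true)) t 1 1 1 = true :=
  ⟨(T.l 2), by decide +kernel⟩

def A202E_000 :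
    ∃ t, chk3 (onCell 0 50331648 0 1073741824 50331648 16777216 (corTK [[⟨0, 1, 0, 8388608⟩, ⟨1, 0, 1, 25165824⟩, ⟨2, 1, 1, 25165824⟩, ⟨1, 0, 0, 83886080⟩, ⟨1, 1, 0, 1040187392⟩, ⟨2, 1, 0, 83886080⟩, ⟨2, 2, 0, 1040187392⟩]] false 3 c0N cA202E gN0q2 gN0q0 gN0q2 gN1q2 true true)) t 1 1 1 = true :=
  ⟨(T.l 2), by decide +kernel⟩

def A202E_001 :
    ∃ t, chk3 (onCell 0 50331648 0 1073741824 50331648 16777216 (corTK [[⟨0, 1, 0, 8388608⟩, ⟨1, 0, 1, 25165824⟩, ⟨2, 1, 1, 25165824⟩, ⟨1, 0, 0, 83886080⟩, ⟨1, 1, 0, 1040187392⟩, ⟨2, 1, 0, 83886080⟩, ⟨2, 2, 0, 1040187392⟩]] false 3 c0N cA202E gN0q2 gN0q0 gN1q2 gN2q2 true true)) t 1 1 1 = true :=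
  ⟨(T.b (T.b (T.b (T.b (T.b (T.b (T.b (T.b (T.a (T.a (T.l 204) (T.c (T.b (T.c (T.b (T.a (T.a (T.l 204) (T.a (T.l 204) (T.l 204))) (T.c (T.b (T.a (T.a (T.l 204) (T.l 204)) (T.a (T.l 204) (T.l 220))) (T.l 2)) (T.b (T.a (T.a (T.l 204) (T.l 204)) (T.a (T.l 204) (T.l 220))) (T.l 2)))) (T.l 2)) (T.b (T.a (T.a (T.l 204) (T.a (T.l 204) (T.l 204))) (T.c (T.b (T.a (T.a (T.l 204) (T.l 204)) (T.a (T.l 204) (T.l 204))) (T.l 2)) (T.b (T.a (T.a (T.l 204) (T.l 204)) (T.a (T.l 204) (T.l 204))) (T.l 2)))) (T.l 2))) (T.l 2)) (T.b (T.c (T.b (T.a (T.a (T.l 204) (T.a (T.l 204) (T.l 204))) (T.c (T.b (T.a (T.a (T.l 204) (T.l 204)) (T.a (T.l 204) (T.l 204))) (T.l 2)) (T.b (T.a (T.a (T.l 204) (T.l 204)) (T.a (T.l 204) (T.l 204))) (T.l 2)))) (T.l 2)) (T.b (T.a (T.a (T.l 204) (T.a (T.l 204) (T.l 204))) (T.c (T.b (T.a (T.a (T.l 204)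 (T.l 204)) (T.a (T.l 204) (T.l 204))) (T.l 2)) (T.b (T.a (T.a (T.l 204) (T.l 204)) (T.a (T.l 204) (T.l 204))) (T.l 2)))) (T.l 2))) (T.l 2)))) (T.c (T.a (T.b (T.c (T.b (T.a (T.c (T.b (T.a (T.a (T.l 476) (T.l 476)) (T.a (T.l 476) (T.a (T.l 476) (T.l 476)))) (T.l 2)) (T.b (T.a (T.a (T.l 476) (T.l 476)) (T.a (T.l 476) (T.a (T.l 476) (T.l 476)))) (T.l 2))) (T.a (T.c (T.b (T.c (T.b (T.a (T.a (T.l 476) (T.l 476)) (T.a (T.a (T.l 476) (T.l 476)) (T.l 1024))) (T.l 2)) (T.b (T.a (T.a (T.l 476) (T.l 476)) (T.a (T.a (T.l 476) (T.l 476)) (T.l 1024))) (T.l 2))) (T.l 2)) (T.b (T.c (T.b (T.a (T.a (T.l 476) (T.l 476)) (T.a (T.a (T.l 476) (T.l 476)) (T.l 1024))) (T.l 2)) (T.b (T.a (T.a (T.l 476) (T.l 476)) (T.a (T.a (T.l 476) (T.l 476)) (T.l 1024))) (T.l 2))) (T.l 2))) (T.l 1024))) (T.l 2)) (T.b (T.a (T.c (T.b (T.a (T.a (T.l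 220) (T.l 476)) (T.a (T.l 476) (T.l 476))) (T.l 2)) (T.b (T.a (T.a (T.l 220) (T.l 476)) (T.a (T.l 476) (T.l 476))) (T.l 2))) (T.a (T.c (T.b (T.c (T.a (T.l 476) (T.a (T.a (T.l 476) (T.l 476)) (T.l 1024))) (T.a (T.l 476) (T.a (T.a (T.l 476) (T.l 476)) (T.l 1024)))) (T.l 2)) (T.b (T.c (T.a (T.l 476) (T.a (T.a (T.l 476) (T.l 476)) (T.l 1024))) (T.a (T.l 476) (T.a (T.a (T.l 476) (T.l 476)) (T.l 1024)))) (T.l 2))) (T.l 1024))) (T.l 2))) (T.l 2)) (T.l 1024)) (T.b (T.a (T.c (T.b (T.a (T.c (T.b (T.a (T.a (T.l 204) (T.l 476)) (T.a (T.l 476) (T.l 476))) (T.l 2)) (T.b (T.a (T.a (T.l 204) (T.l 220)) (T.a (T.l 476) (T.l 476))) (T.l 2))) (T.c (T.b (T.a (T.a (T.l 476) (T.a (T.a (T.l 476) (T.l 476)) (T.l 476))) (T.a (T.a (T.l 476) (T.l 476)) (T.l 1024))) (T.l 2)) (T.b (T.a (T.a (T.l 476) (T.a (T.c (T.l 476) (T.l 476)) (T.l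 476))) (T.c (T.b (T.a (T.a (T.l 476) (T.l 476)) (T.a (T.l 476) (T.l 1024))) (T.l 2)) (T.b (T.a (T.a (T.l 476) (T.l 476)) (T.a (T.l 476) (T.l 476))) (T.l 2)))) (T.l 2)))) (T.l 2)) (T.b (T.a (T.c (T.b (T.a (T.a (T.l 204) (T.l 204)) (T.a (T.l 476) (T.l 476))) (T.l 2)) (T.b (T.a (T.a (T.l 204) (T.l 204)) (T.a (T.l 476) (T.l 476))) (T.l 2))) (T.c (T.b (T.a (T.a (T.l 476) (T.a (T.l 476) (T.l 476))) (T.c (T.b (T.a (T.a (T.l 476) (T.l 476)) (T.a (T.l 476) (T.l 476))) (T.l 2)) (T.b (T.a (T.a (T.l 476) (T.l 476)) (T.a (T.l 476) (T.l 476))) (T.l 2)))) (T.l 2)) (T.b (T.a (T.a (T.l 476) (T.a (T.l 476) (T.l 476))) (T.c (T.b (T.a (T.a (T.l 476) (T.l 476)) (T.a (T.l 476) (T.l 476))) (T.l 2)) (T.b (T.a (T.a (T.l 476) (T.l 476)) (T.a (T.l 476) (T.l 476))) (T.l 2)))) (T.l 2)))) (T.l 2))) (T.a (T.c (T.a (T.a (T.c (T.l 1024)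 (T.a (T.l 476) (T.l 1024))) (T.l 1024)) (T.l 1024)) (T.b (T.c (T.a (T.b (T.c (T.a (T.a (T.l 476) (T.l 476)) (T.l 1024)) (T.b (T.a (T.a (T.l 476) (T.l 476)) (T.a (T.l 476) (T.l 1024))) (T.l 2))) (T.l 2)) (T.l 1024)) (T.b (T.a (T.c (T.b (T.a (T.a (T.l 476) (T.l 476)) (T.a (T.l 476) (T.l 476))) (T.l 2)) (T.b (T.a (T.a (T.l 476) (T.l 476)) (T.a (T.l 476) (T.l 476))) (T.l 2))) (T.a (T.a (T.l 476) (T.l 476)) (T.l 1024))) (T.l 2))) (T.l 2))) (T.l 1024))) (T.l 2)))) (T.l 2)) (T.l 2)) (T.l 2)) (T.l 2)) (T.l 2)) (T.l 2)) (T.l 2)) (T.l 2)), by decide +kernel⟩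

def A202E_002_1_16_1 :
    ∃ t, chk3 (onCell 0 50331648 0 1073741824 50331648 16777216 (corTK [[⟨0, 1, 0, 8388608⟩, ⟨1, 0, 1, 25165824⟩, ⟨2, 1, 1, 25165824⟩, ⟨1, 0, 0, 83886080⟩, ⟨1, 1, 0, 1040187392⟩, ⟨2, 1, 0, 83886080⟩, ⟨2, 2, 0, 1040187392⟩]] false 3 c0N cA202E gN0q2 gN0q0 gN2q2 gN3q2 true false)) t 1 16 1 = true :=
  ⟨(T.b (T.b (T.b (T.b (T.a (T.a (T.l 204) (T.a (T.a (T.a (T.l 204) (T.l 204)) (T.a (T.l 204) (T.l 220))) (T.a (T.a (T.l 220) (T.l 220)) (T.c (T.a (T.l 204) (T.l 220)) (T.l 476))))) (T.c (T.a (T.a (T.a (T.a (T.l 476) (T.l 476)) (T.a (T.c (T.l 476) (T.l 476)) (T.c (T.c (T.l 476) (T.l 476)) (T.l 476)))) (T.a (T.a (T.b (T.c (T.a (T.l 476) (T.l 476)) (T.c (T.l 476) (T.l 476))) (T.l 476)) (T.a (T.c (T.a (T.l 476) (T.b (T.l 476) (T.l 476))) (T.a (T.l 476) (T.l 476))) (T.l 1024))) (T.l 1024)))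 (T.l 1024)) (T.b (T.a (T.a (T.a (T.c (T.l 476) (T.l 476)) (T.a (T.l 476) (T.l 476))) (T.a (T.a (T.c (T.l 476) (T.l 476)) (T.a (T.a (T.l 476) (T.l 476)) (T.a (T.l 476) (T.l 476)))) (T.a (T.a (T.a (T.l 476) (T.l 476)) (T.a (T.l 476) (T.l 476))) (T.a (T.a (T.l 476) (T.l 476)) (T.a (T.l 476) (T.l 476)))))) (T.a (T.a (T.a (T.a (T.a (T.l 476) (T.l 476)) (T.c (T.l 1024) (T.l 476))) (T.c (T.l 1024) (T.a (T.l 476) (T.l 476)))) (T.a (T.c (T.l 1024) (T.a (T.l 476) (T.l 476))) (T.l 1024))) (T.l 1024))) (T.a (T.a (T.a (T.l 476) (T.a (T.l 476) (T.l 476))) (T.a (T.a (T.l 476) (T.a (T.l 476) (T.l 476))) (T.a (T.a (T.l 476) (T.l 476)) (T.a (T.l 476) (T.l 476))))) (T.a (T.a (T.a (T.a (T.l 476) (T.l 476)) (T.a (T.l 476) (T.l 476))) (T.a (T.a (T.l 476) (T.l 476)) (T.l 1024))) (T.l 1024)))))) (T.a (T.a (T.l 204) (T.a (T.a (T.c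 (T.l 204) (T.l 204)) (T.c (T.l 220) (T.l 204))) (T.a (T.c (T.l 220) (T.l 204)) (T.c (T.l 476) (T.l 204))))) (T.c (T.a (T.a (T.a (T.l 476) (T.a (T.l 476) (T.l 476))) (T.a (T.a (T.l 476) (T.a (T.l 476) (T.l 476))) (T.l 1024))) (T.l 1024)) (T.b (T.a (T.a (T.a (T.l 476) (T.c (T.l 476) (T.l 476))) (T.a (T.a (T.l 476) (T.a (T.l 476) (T.l 476))) (T.a (T.a (T.l 476) (T.l 476)) (T.a (T.l 476) (T.l 476))))) (T.a (T.a (T.a (T.c (T.l 476) (T.l 476)) (T.c (T.l 1024) (T.l 476))) (T.a (T.c (T.l 1024) (T.l 476)) (T.l 1024))) (T.l 1024))) (T.a (T.a (T.a (T.l 204) (T.l 476)) (T.a (T.a (T.l 476) (T.a (T.l 476) (T.l 476))) (T.a (T.c (T.l 476) (T.l 476)) (T.c (T.l 476) (T.l 476))))) (T.a (T.a (T.a (T.l 476) (T.l 476)) (T.a (T.l 476) (T.l 1024))) (T.l 1024))))))) (T.b (T.a (T.a (T.l 204) (T.a (T.a (T.l 220) (T.c (T.l 204) (T.l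 204))) (T.a (T.l 476) (T.l 476)))) (T.c (T.a (T.a (T.a (T.l 476) (T.l 476)) (T.a (T.a (T.l 476) (T.a (T.l 476) (T.l 476))) (T.l 1024))) (T.l 1024)) (T.a (T.a (T.a (T.l 204) (T.l 476)) (T.a (T.a (T.l 460) (T.a (T.l 476) (T.l 476))) (T.a (T.l 476) (T.l 476)))) (T.a (T.a (T.a (T.l 476) (T.l 476)) (T.a (T.l 476) (T.l 1024))) (T.l 1024))))) (T.a (T.a (T.l 204) (T.a (T.a (T.l 204) (T.l 220)) (T.a (T.l 220) (T.l 476)))) (T.a (T.a (T.a (T.l 476) (T.c (T.l 476) (T.l 476))) (T.a (T.a (T.l 476) (T.a (T.l 476) (T.l 476))) (T.c (T.l 1024) (T.a (T.l 476) (T.l 476))))) (T.a (T.c (T.l 1024) (T.a (T.a (T.l 476) (T.l 476)) (T.a (T.l 476) (T.l 476)))) (T.l 1024)))))) (T.b (T.b (T.a (T.a (T.l 204) (T.a (T.a (T.l 204) (T.l 204)) (T.a (T.l 204) (T.l 204)))) (T.a (T.a (T.a (T.l 204) (T.l 476)) (T.a (T.a (T.l 460) (T.c (T.l 476)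 (T.l 476))) (T.a (T.l 476) (T.l 476)))) (T.a (T.c (T.l 1024) (T.a (T.a (T.l 476) (T.l 476)) (T.c (T.l 1024) (T.l 476)))) (T.l 1024)))) (T.a (T.a (T.l 204) (T.a (T.a (T.l 204) (T.l 204)) (T.a (T.l 204) (T.l 204)))) (T.a (T.a (T.a (T.l 204) (T.l 476)) (T.a (T.a (T.l 204) (T.l 476)) (T.a (T.l 476) (T.l 476)))) (T.a (T.c (T.l 1024) (T.a (T.c (T.l 476) (T.l 476)) (T.l 476))) (T.l 1024))))) (T.b (T.a (T.a (T.l 204) (T.a (T.a (T.l 204) (T.l 204)) (T.a (T.l 204) (T.l 204)))) (T.a (T.a (T.a (T.l 204) (T.l 460)) (T.a (T.a (T.l 204) (T.l 476)) (T.a (T.l 476) (T.l 476)))) (T.a (T.c (T.l 1024) (T.a (T.l 476) (T.l 476))) (T.l 1024)))) (T.a (T.a (T.l 204) (T.a (T.a (T.l 204) (T.l 204)) (T.a (T.l 204) (T.l 204)))) (T.a (T.a (T.a (T.l 204) (T.l 204)) (T.a (T.a (T.l 204) (T.l 476)) (T.a (T.l 476) (T.l 460)))) (T.a (T.c (T.l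 1024) (T.a (T.l 476) (T.l 476))) (T.l 1024))))))) (T.b (T.b (T.b (T.a (T.a (T.l 204) (T.a (T.a (T.l 204) (T.l 204)) (T.c (T.l 460) (T.l 460)))) (T.a (T.a (T.c (T.l 476) (T.l 476)) (T.a (T.a (T.l 204) (T.l 476)) (T.c (T.l 476) (T.l 476)))) (T.a (T.a (T.c (T.l 1024) (T.l 476)) (T.l 476)) (T.l 1024)))) (T.a (T.a (T.l 204) (T.a (T.a (T.l 204) (T.l 204)) (T.c (T.l 460) (T.l 460)))) (T.a (T.a (T.c (T.l 476) (T.l 460)) (T.a (T.a (T.l 204) (T.l 204)) (T.c (T.l 476) (T.l 476)))) (T.a (T.a (T.c (T.l 1024) (T.l 476)) (T.l 476)) (T.l 1024))))) (T.b (T.a (T.a (T.l 204) (T.a (T.a (T.l 204) (T.l 204)) (T.c (T.l 460) (T.l 204)))) (T.a (T.a (T.c (T.l 476) (T.l 204)) (T.a (T.a (T.l 204) (T.l 204)) (T.c (T.l 476) (T.l 476)))) (T.a (T.a (T.l 476) (T.l 476)) (T.l 1024)))) (T.a (T.a (T.l 204) (T.a (T.a (T.l 204) (T.l 204)) (T.l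 476))) (T.a (T.a (T.c (T.l 204) (T.l 204)) (T.a (T.a (T.l 204) (T.l 204)) (T.c (T.l 476) (T.l 476)))) (T.a (T.a (T.l 476) (T.l 476)) (T.l 1024)))))) (T.b (T.b (T.a (T.a (T.l 204) (T.a (T.a (T.l 204) (T.l 204)) (T.l 460))) (T.a (T.a (T.l 476) (T.a (T.a (T.l 204) (T.l 204)) (T.c (T.l 476) (T.l 460)))) (T.c (T.l 1024) (T.a (T.a (T.l 204) (T.l 204)) (T.a (T.l 204) (T.l 1024)))))) (T.a (T.a (T.l 204) (T.a (T.a (T.l 204) (T.l 204)) (T.l 460))) (T.a (T.a (T.l 476) (T.a (T.a (T.l 204) (T.l 204)) (T.l 476))) (T.c (T.l 1024) (T.a (T.a (T.l 204) (T.l 204)) (T.a (T.l 204) (T.l 1024))))))) (T.b (T.a (T.a (T.l 204) (T.a (T.a (T.l 204) (T.l 204)) (T.l 204))) (T.a (T.a (T.l 204) (T.a (T.c (T.l 476) (T.l 476)) (T.l 476))) (T.c (T.l 1024) (T.a (T.a (T.l 204) (T.l 204)) (T.a (T.l 204) (T.l 1024)))))) (T.a (T.a (T.l 204) (T.a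 (T.a (T.l 204) (T.l 204)) (T.l 204))) (T.a (T.a (T.l 204) (T.a (T.c (T.l 476) (T.l 476)) (T.l 476))) (T.c (T.l 1024) (T.a (T.a (T.l 204) (T.l 204)) (T.l 476))))))))), by decide +kernel⟩

def A202E_002_1_17_1 :
    ∃ t, chk3 (onCell 0 50331648 0 1073741824 50331648 16777216 (corTK [[⟨0, 1, 0, 8388608⟩, ⟨1, 0, 1, 25165824⟩, ⟨2, 1, 1, 25165824⟩, ⟨1, 0, 0, 83886080⟩, ⟨1, 1, 0, 1040187392⟩, ⟨2, 1, 0, 83886080⟩, ⟨2, 2, 0, 1040187392⟩]] false 3 c0N cA202E gN0q2 gN0q0 gN2q2 gN3q2 true false)) t 1 17 1 = true :=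
  ⟨(T.b (T.b (T.b (T.b (T.a (T.a (T.l 204) (T.a (T.c (T.l 460) (T.l 460)) (T.l 204))) (T.a (T.a (T.l 204) (T.a (T.c (T.l 476) (T.l 476)) (T.l 476))) (T.c (T.l 1024) (T.a (T.a (T.l 204) (T.l 204)) (T.l 476))))) (T.a (T.a (T.l 204) (T.a (T.c (T.l 460) (T.l 460)) (T.l 204))) (T.a (T.a (T.l 204) (T.a (T.c (T.l 476) (T.l 476)) (T.l 476))) (T.c (T.l 1024) (T.a (T.a (T.l 204) (T.l 204)) (T.l 476)))))) (T.b (T.a (T.a (T.l 204) (T.a (T.c (T.l 460) (T.l 460)) (T.l 204))) (T.a (T.a (T.l 204) (T.a (T.c (T.l 476) (T.l 460)) (T.l 476))) (T.c (T.l 1024) (T.a (T.a (T.l 204) (T.l 204)) (T.l 476))))) (T.a (T.a (T.l 204) (T.a (T.c (T.l 460) (T.l 204)) (T.l 204))) (T.a (T.a (T.l 204) (T.a (T.c (T.l 460) (T.l 204)) (T.l 204))) (T.c (T.l 1024) (T.a (T.a (T.l 204) (T.l 204)) (T.l 476))))))) (T.b (T.b (T.a (T.a (T.l 204) (T.a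 (T.c (T.l 204) (T.l 204)) (T.l 204))) (T.a (T.a (T.l 204) (T.a (T.l 476) (T.l 204))) (T.c (T.l 1024) (T.a (T.a (T.l 204) (T.l 204)) (T.l 476))))) (T.a (T.a (T.l 204) (T.a (T.c (T.l 204) (T.l 204)) (T.l 204))) (T.a (T.a (T.l 204) (T.a (T.l 476) (T.l 204))) (T.c (T.l 1024) (T.a (T.a (T.l 204) (T.l 204)) (T.l 476)))))) (T.b (T.a (T.a (T.l 204) (T.a (T.l 460) (T.l 204))) (T.a (T.a (T.l 204) (T.a (T.l 476) (T.l 204))) (T.c (T.l 1024) (T.a (T.a (T.l 204) (T.l 204)) (T.l 476))))) (T.a (T.a (T.l 204) (T.a (T.l 460) (T.l 204))) (T.a (T.a (T.l 204) (T.a (T.l 476) (T.l 204))) (T.c (T.l 1024) (T.a (T.a (T.l 204) (T.l 204)) (T.l 220)))))))) (T.b (T.b (T.b (T.a (T.a (T.l 204) (T.a (T.l 460) (T.l 204))) (T.a (T.a (T.l 204) (T.a (T.l 476) (T.l 204))) (T.c (T.l 1024) (T.a (T.l 476) (T.l 204))))) (T.a (T.a (T.l 204) (T.a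 (T.l 460) (T.l 204))) (T.a (T.a (T.l 204) (T.a (T.l 476) (T.l 204))) (T.a (T.c (T.l 1024) (T.l 476)) (T.l 476))))) (T.b (T.a (T.a (T.l 204) (T.a (T.l 204) (T.l 204))) (T.a (T.a (T.l 204) (T.a (T.l 460) (T.l 204))) (T.a (T.c (T.l 1024) (T.l 476)) (T.l 476)))) (T.a (T.a (T.l 204) (T.a (T.l 204) (T.l 204))) (T.a (T.a (T.l 204) (T.a (T.l 204) (T.l 204))) (T.a (T.c (T.l 1024) (T.l 476)) (T.l 476)))))) (T.b (T.b (T.a (T.a (T.l 204) (T.a (T.l 204) (T.l 204))) (T.a (T.a (T.l 204) (T.a (T.l 204) (T.l 204))) (T.a (T.c (T.l 476) (T.l 476)) (T.l 476)))) (T.a (T.a (T.l 204) (T.a (T.l 204) (T.l 204))) (T.a (T.a (T.l 204) (T.a (T.l 204) (T.l 204))) (T.a (T.c (T.l 476) (T.l 476)) (T.l 476))))) (T.b (T.a (T.a (T.l 204) (T.a (T.l 204) (T.l 204))) (T.a (T.a (T.l 204) (T.a (T.l 204) (T.l 204))) (T.a (T.c (T.l 476) (T.l 476))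 (T.l 476)))) (T.a (T.a (T.l 204) (T.a (T.l 204) (T.l 204))) (T.a (T.a (T.l 204) (T.a (T.l 204) (T.l 204))) (T.a (T.c (T.l 476) (T.l 476)) (T.l 476)))))))), by decide +kernel⟩

def A202E_002_1_9_1 :
    ∃ t, chk3 (onCell 0 50331648 0 1073741824 50331648 16777216 (corTK [[⟨0, 1, 0, 8388608⟩, ⟨1, 0, 1, 25165824⟩, ⟨2, 1, 1, 25165824⟩, ⟨1, 0, 0, 83886080⟩, ⟨1, 1, 0, 1040187392⟩, ⟨2, 1, 0, 83886080⟩, ⟨2, 2, 0, 1040187392⟩]] false 3 c0N cA202E gN0q2 gN0q0 gN2q2 gN3q2 true false)) t 1 9 1 = true :=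
  ⟨(T.b (T.b (T.b (T.b (T.b (T.a (T.a (T.l 204) (T.a (T.l 204) (T.l 204))) (T.a (T.a (T.l 204) (T.a (T.l 204) (T.l 204))) (T.a (T.c (T.l 476) (T.l 476)) (T.l 476)))) (T.a (T.a (T.l 204) (T.a (T.l 204) (T.l 204))) (T.a (T.a (T.l 204) (T.a (T.l 204) (T.l 204))) (T.a (T.c (T.l 476) (T.l 220)) (T.l 220))))) (T.b (T.a (T.a (T.l 204) (T.a (T.l 204) (T.l 204))) (T.a (T.a (T.l 204) (T.a (T.l 204) (T.l 204))) (T.a (T.c (T.l 476) (T.l 204)) (T.l 220)))) (T.a (T.a (T.l 204) (T.a (T.l 204) (T.l 204))) (T.a (T.a (T.l 204) (T.a (T.l 204) (T.l 204))) (T.a (T.c (T.l 220) (T.l 204)) (T.l 220)))))) (T.b (T.b (T.a (T.a (T.l 204) (T.a (T.l 204) (T.l 204))) (T.a (T.a (T.l 204) (T.a (T.l 204) (T.l 204))) (T.a (T.c (T.l 220) (T.l 204)) (T.l 220)))) (T.a (T.a (T.l 204) (T.a (T.l 204) (T.l 204))) (T.a (T.a (T.l 204) (T.a (T.l 204)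 (T.l 204))) (T.a (T.c (T.l 220) (T.l 204)) (T.l 220))))) (T.b (T.a (T.a (T.l 204) (T.a (T.l 204) (T.l 204))) (T.a (T.a (T.l 204) (T.a (T.l 204) (T.l 204))) (T.a (T.c (T.l 204) (T.l 204)) (T.l 220)))) (T.a (T.a (T.l 204) (T.a (T.l 204) (T.l 204))) (T.a (T.a (T.l 204) (T.a (T.l 204) (T.l 204))) (T.a (T.l 272) (T.l 220))))))) (T.b (T.b (T.b (T.a (T.a (T.l 204) (T.a (T.l 204) (T.l 204))) (T.a (T.a (T.l 204) (T.a (T.l 204) (T.l 204))) (T.a (T.l 272) (T.l 204)))) (T.a (T.a (T.l 204) (T.a (T.l 204) (T.l 204))) (T.a (T.a (T.l 204) (T.a (T.l 204) (T.l 204))) (T.a (T.l 272) (T.l 204))))) (T.b (T.a (T.a (T.l 204) (T.a (T.l 204) (T.l 204))) (T.a (T.a (T.l 204) (T.a (T.l 204) (T.l 204))) (T.a (T.l 272) (T.l 204)))) (T.a (T.a (T.l 204) (T.a (T.l 204) (T.l 204))) (T.a (T.a (T.l 204) (T.a (T.l 204) (T.l 204))) (T.a (T.l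 272) (T.l 204)))))) (T.b (T.b (T.a (T.a (T.l 204) (T.a (T.l 204) (T.l 204))) (T.a (T.a (T.l 204) (T.a (T.l 204) (T.l 204))) (T.a (T.l 272) (T.l 204)))) (T.a (T.a (T.l 204) (T.a (T.l 204) (T.l 204))) (T.a (T.a (T.l 204) (T.a (T.l 204) (T.l 204))) (T.a (T.l 272) (T.l 204))))) (T.a (T.a (T.l 204) (T.a (T.l 204) (T.l 204))) (T.a (T.a (T.l 204) (T.a (T.l 204) (T.l 204))) (T.a (T.l 272) (T.l 204))))))) (T.b (T.b (T.b (T.a (T.a (T.l 204) (T.a (T.l 204) (T.l 204))) (T.a (T.a (T.l 204) (T.a (T.l 204) (T.l 204))) (T.a (T.l 272) (T.l 0)))) (T.a (T.a (T.l 204) (T.a (T.l 204) (T.l 204))) (T.a (T.a (T.l 204) (T.a (T.l 204) (T.l 204))) (T.a (T.l 272) (T.l 0))))) (T.b (T.a (T.a (T.l 204) (T.a (T.l 204) (T.l 204))) (T.a (T.a (T.l 204) (T.a (T.l 204) (T.l 204))) (T.a (T.l 16) (T.l 0)))) (T.a (T.a (T.l 204) (T.a (T.l 204)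 (T.l 204))) (T.a (T.a (T.l 204) (T.a (T.l 204) (T.l 204))) (T.a (T.l 16) (T.l 0)))))) (T.b (T.b (T.a (T.a (T.l 204) (T.a (T.l 204) (T.l 204))) (T.a (T.a (T.l 204) (T.a (T.l 204) (T.l 204))) (T.a (T.l 16) (T.l 0)))) (T.a (T.a (T.l 204) (T.a (T.l 204) (T.l 204))) (T.a (T.a (T.l 204) (T.a (T.l 204) (T.l 204))) (T.a (T.l 0) (T.l 0))))) (T.a (T.a (T.l 204) (T.a (T.l 204) (T.l 204))) (T.a (T.a (T.l 204) (T.a (T.l 204) (T.l 204))) (T.a (T.l 20) (T.l 0))))))), by decide +kernel⟩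

def A202E_002_1_5_1 :
    ∃ t, chk3 (onCell 0 50331648 0 1073741824 50331648 16777216 (corTK [[⟨0, 1, 0, 8388608⟩, ⟨1, 0, 1, 25165824⟩, ⟨2, 1, 1, 25165824⟩, ⟨1, 0, 0, 83886080⟩, ⟨1, 1, 0, 1040187392⟩, ⟨2, 1, 0, 83886080⟩, ⟨2, 2, 0, 1040187392⟩]] false 3 c0N cA202E gN0q2 gN0q0 gN2q2 gN3q2 true false)) t 1 5 1 = true :=
  ⟨(T.b (T.b (T.a (T.a (T.l 204) (T.a (T.l 204) (T.b (T.l 204) (T.l 204)))) (T.a (T.a (T.b (T.l 204) (T.l 204)) (T.a (T.l 0) (T.l 0))) (T.a (T.b (T.l 340) (T.l 84)) (T.b (T.l 4) (T.l 4))))) (T.a (T.a (T.l 204) (T.a (T.b (T.l 204) (T.l 0)) (T.b (T.l 0) (T.l 0)))) (T.a (T.a (T.l 0) (T.a (T.l 0) (T.l 0))) (T.a (T.b (T.l 68) (T.l 68)) (T.b (T.l 68) (T.l 68)))))) (T.a (T.a (T.l 204) (T.a (T.a (T.b (T.l 204) (T.l 0)) (T.b (T.l 0) (T.l 0))) (T.b (T.l 256) (T.l 0)))) (T.a (T.a (T.b (T.l 0) (T.l 0))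 (T.a (T.b (T.l 0) (T.l 0)) (T.b (T.l 0) (T.l 816)))) (T.a (T.b (T.b (T.l 68) (T.l 68)) (T.b (T.l 68) (T.l 68))) (T.b (T.b (T.l 68) (T.l 820)) (T.b (T.l 820) (T.l 820))))))), by decide +kernel⟩

def A202E_002_1_3_1 :
    ∃ t, chk3 (onCell 0 50331648 0 1073741824 50331648 16777216 (corTK [[⟨0, 1, 0, 8388608⟩, ⟨1, 0, 1, 25165824⟩, ⟨2, 1, 1, 25165824⟩, ⟨1, 0, 0, 83886080⟩, ⟨1, 1, 0, 1040187392⟩, ⟨2, 1, 0, 83886080⟩, ⟨2, 2, 0, 1040187392⟩]] false 3 c0N cA202E gN0q2 gN0q0 gN2q2 gN3q2 true false)) t 1 3 1 = true :=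
  ⟨(T.b (T.b (T.a (T.a (T.a (T.l 204) (T.a (T.l 0) (T.b (T.l 0) (T.l 0)))) (T.a (T.a (T.l 64) (T.l 0)) (T.b (T.l 0) (T.l 64)))) (T.a (T.a (T.b (T.b (T.l 816) (T.l 816)) (T.b (T.l 816) (T.l 816))) (T.a (T.b (T.l 816) (T.l 816)) (T.b (T.l 816) (T.l 816)))) (T.a (T.b (T.b (T.l 884) (T.l 884)) (T.b (T.l 884) (T.l 884))) (T.b (T.b (T.l 820) (T.l 820)) (T.b (T.l 820) (T.l 820)))))) (T.a (T.a (T.a (T.l 0) (T.a (T.a (T.l 0) (T.l 0)) (T.b (T.l 0) (T.l 0)))) (T.a (T.a (T.b (T.l 0) (T.l 816)) (T.l 64)) (T.a (T.b (T.l 816) (T.l 816)) (T.b (T.l 816) (T.l 816))))) (T.a (T.a (T.b (T.b (T.l 816) (T.l 816)) (T.b (T.l 816) (T.l 816))) (T.a (T.b (T.l 816) (T.l 816)) (T.b (T.l 816) (T.l 816)))) (T.a (T.b (T.b (T.l 884) (T.l 884)) (T.b (T.l 884) (T.l 884))) (T.b (T.b (T.l 820) (T.l 820)) (T.b (T.l 820) (T.l 820))))))) (T.a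 (T.a (T.a (T.b (T.l 0) (T.l 816)) (T.a (T.b (T.a (T.l 816) (T.l 0)) (T.a (T.b (T.l 816) (T.l 816)) (T.l 816))) (T.b (T.b (T.l 816) (T.l 816)) (T.a (T.l 816) (T.l 816))))) (T.a (T.a (T.b (T.b (T.l 816) (T.l 816)) (T.b (T.l 816) (T.l 816))) (T.b (T.b (T.l 816) (T.l 880)) (T.b (T.b (T.l 816) (T.l 816)) (T.b (T.l 816) (T.l 816))))) (T.b (T.a (T.b (T.l 816) (T.l 816)) (T.b (T.l 816) (T.l 816))) (T.a (T.b (T.l 816) (T.l 816)) (T.b (T.l 816) (T.l 816)))))) (T.a (T.a (T.b (T.b (T.b (T.l 816) (T.l 816)) (T.b (T.l 816) (T.l 816))) (T.a (T.b (T.l 816) (T.l 816)) (T.b (T.l 816) (T.l 816)))) (T.b (T.a (T.b (T.l 816) (T.l 816)) (T.b (T.l 816) (T.l 816))) (T.a (T.b (T.l 816) (T.l 816)) (T.b (T.l 816) (T.l 816))))) (T.a (T.b (T.a (T.b (T.l 816) (T.l 816)) (T.b (T.l 816) (T.l 816))) (T.a (T.b (T.l 816) (T.l 816)) (T.b (T.l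 816) (T.l 816)))) (T.b (T.b (T.b (T.l 820) (T.l 820)) (T.b (T.l 820) (T.l 820))) (T.a (T.b (T.l 816) (T.l 816)) (T.b (T.l 816) (T.l 816)))))))), by decide +kernel⟩

theorem A202E_002_1_8_1 :
    ∃ t, chk3 (onCell 0 50331648 0 1073741824 50331648 16777216 (corTK [[⟨0, 1, 0, 8388608⟩, ⟨1, 0, 1, 25165824⟩, ⟨2, 1, 1, 25165824⟩, ⟨1, 0, 0, 83886080⟩, ⟨1, 1, 0, 1040187392⟩, ⟨2, 1, 0, 83886080⟩, ⟨2, 2, 0, 1040187392⟩]] false 3 c0N cA202E gN0q2 gN0q0 gN2q2 gN3q2 true false)) t 1 8 1 = true :=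
  ex3_b A202E_002_1_16_1 A202E_002_1_17_1
theorem A202E_002_1_4_1 :
    ∃ t, chk3 (onCell 0 50331648 0 1073741824 50331648 16777216 (corTK [[⟨0, 1, 0, 8388608⟩, ⟨1, 0, 1, 25165824⟩, ⟨2, 1, 1, 25165824⟩, ⟨1, 0, 0, 83886080⟩, ⟨1, 1, 0, 1040187392⟩, ⟨2, 1, 0, 83886080⟩, ⟨2, 2, 0, 1040187392⟩]] false 3 c0N cA202E gN0q2 gN0q0 gN2q2 gN3q2 true false)) t 1 4 1 = true :=
  ex3_b A202E_002_1_8_1 A202E_002_1_9_1
theorem A202E_002_1_2_1 :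
    ∃ t, chk3 (onCell 0 50331648 0 1073741824 50331648 16777216 (corTK [[⟨0, 1, 0, 8388608⟩, ⟨1, 0, 1, 25165824⟩, ⟨2, 1, 1, 25165824⟩, ⟨1, 0, 0, 83886080⟩, ⟨1, 1, 0, 1040187392⟩, ⟨2, 1, 0, 83886080⟩, ⟨2, 2, 0, 1040187392⟩]] false 3 c0N cA202E gN0q2 gN0q0 gN2q2 gN3q2 true false)) t 1 2 1 = true :=
  ex3_b A202E_002_1_4_1 A202E_002_1_5_1
theorem A202E_002 :
    ∃ t, chk3 (onCell 0 50331648 0 1073741824 50331648 16777216 (corTK [[⟨0, 1, 0, 8388608⟩, ⟨1, 0, 1, 25165824⟩, ⟨2, 1, 1, 25165824⟩, ⟨1, 0, 0, 83886080⟩, ⟨1, 1, 0, 1040187392⟩, ⟨2, 1, 0, 83886080⟩, ⟨2, 2, 0, 1040187392⟩]] false 3 c0N cA202E gN0q2 gN0q0 gN2q2 gN3q2 true false)) t 1 1 1 = true :=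
  ex3_b A202E_002_1_2_1 A202E_002_1_3_1

def A202E_010 :
    ∃ t, chk3 (onCell 0 50331648 0 1073741824 50331648 16777216 (corTK [] false 3 c0N cA202E gN0q2 gN1q0 gN0q2 gN1q2 true true)) t 1 1 1 = true :=
  ⟨(T.l 2), by decide +kernel⟩

def A202E_011 :
    ∃ t, chk3 (onCell 0 50331648 0 1073741824 50331648 16777216 (corTK [] false 3 c0N cA202E gN0q2 gN1q0 gN1q2 gN2q2 true true)) t 1 1 1 = true :=
  ⟨(T.l 2), by decide +kernel⟩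

def A202E_012 :
    ∃ t, chk3 (onCell 0 50331648 0 1073741824 50331648 16777216 (corTK [] false 3 c0N cA202E gN0q2 gN1q0 gN2q2 gN3q2 true false)) t 1 1 1 = true :=
  ⟨(T.b (T.b (T.b (T.a (T.a (T.l 204) (T.l 204)) (T.a (T.l 0) (T.l 204))) (T.a (T.a (T.l 204) (T.l 204)) (T.a (T.l 0) (T.l 204)))) (T.b (T.a (T.a (T.l 204) (T.l 0)) (T.a (T.l 0) (T.l 204))) (T.a (T.a (T.l 204) (T.l 204)) (T.a (T.l 0) (T.l 0))))) (T.b (T.b (T.a (T.a (T.a (T.l 204) (T.l 0)) (T.l 0)) (T.a (T.b (T.l 0) (T.l 0)) (T.l 0))) (T.a (T.a (T.a (T.l 204) (T.l 0)) (T.l 16)) (T.a (T.b (T.l 0) (T.l 0)) (T.l 0)))) (T.a (T.a (T.a (T.b (T.l 204) (T.l 0)) (T.b (T.l 0) (T.b (T.l 0) (T.b (T.l 0) (T.a (T.b (T.l 0) (T.l 816)) (T.l 816)))))) (T.b (T.b (T.l 0) (T.l 0)) (T.a (T.b (T.l 0) (T.b (T.l 0) (T.a (T.l 816) (T.l 816)))) (T.b (T.l 0) (T.a (T.b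 (T.l 816) (T.l 816)) (T.l 816)))))) (T.a (T.a (T.b (T.l 0) (T.b (T.l 0) (T.a (T.l 816) (T.l 816)))) (T.b (T.l 0) (T.b (T.l 0) (T.a (T.l 820) (T.l 816))))) (T.b (T.l 0) (T.a (T.b (T.l 816) (T.a (T.l 816) (T.l 816))) (T.b (T.l 816) (T.a (T.l 816) (T.l 816))))))))), by decide +kernel⟩

def A202E_020 :
    ∃ t, chk3 (onCell 0 50331648 0 1073741824 50331648 16777216 (corTK [] false 3 c0N cA202E gN0q2 gN2q0 gN0q2 gN1q2 true true)) t 1 1 1 = true :=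
  ⟨(T.l 2), by decide +kernel⟩

def A202E_021 :
    ∃ t, chk3 (onCell 0 50331648 0 1073741824 50331648 16777216 (corTK [] false 3 c0N cA202E gN0q2 gN2q0 gN1q2 gN2q2 true true)) t 1 1 1 = true :=
  ⟨(T.l 2), by decide +kernel⟩

def A202E_022 :
    ∃ t, chk3 (onCell 0 50331648 0 1073741824 50331648 16777216 (corTK [] false 3 c0N cA202E gN0q2 gN2q0 gN2q2 gN3q2 true false)) t 1 1 1 = true :=
  ⟨(T.b (T.b (T.a (T.a (T.l 204) (T.l 0)) (T.b (T.l 0) (T.b (T.l 0) (T.l 0)))) (T.a (T.a (T.l 204) (T.b (T.l 0) (T.l 204))) (T.a (T.b (T.l 0) (T.l 0)) (T.l 0)))) (T.b (T.a (T.a (T.a (T.l 204) (T.l 0)) (T.b (T.l 0) (T.l 0))) (T.a (T.b (T.l 0) (T.l 0)) (T.b (T.l 0) (T.l 0)))) (T.a (T.a (T.a (T.b (T.l 204) (T.l 0)) (T.b (T.l 0) (T.b (T.l 0) (T.b (T.l 0) (T.a (T.b (T.l 0) (T.l 880)) (T.l 816)))))) (T.b (T.b (T.l 0) (T.l 0))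 (T.a (T.b (T.l 0) (T.b (T.l 0) (T.a (T.l 816) (T.l 816)))) (T.b (T.l 0) (T.a (T.b (T.l 816) (T.l 816)) (T.l 816)))))) (T.a (T.a (T.b (T.l 0) (T.b (T.l 0) (T.a (T.l 816) (T.l 816)))) (T.b (T.l 0) (T.b (T.l 0) (T.a (T.l 820) (T.l 816))))) (T.b (T.l 0) (T.b (T.l 0) (T.a (T.a (T.l 816) (T.l 816)) (T.a (T.l 816) (T.l 816))))))))), by decide +kernel⟩

def A202E_110 :
    ∃ t, chk3 (onCell 0 50331648 0 1073741824 50331648 16777216 (corTK [] false 3 c0N cA202E gN1q2 gN1q0 gN0q2 gN1q2 true true)) t 1 1 1 = true :=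
  ⟨(T.l 2), by decide +kernel⟩

def A202E_111 :
    ∃ t, chk3 (onCell 0 50331648 0 1073741824 50331648 16777216 (corTK [] false 3 c0N cA202E gN1q2 gN1q0 gN1q2 gN2q2 true true)) t 1 1 1 = true :=
  ⟨(T.l 2), by decide +kernel⟩

def A202E_112 :
    ∃ t, chk3 (onCell 0 50331648 0 1073741824 50331648 16777216 (corTK [] false 3 c0N cA202E gN1q2 gN1q0 gN2q2 gN3q2 true false)) t 1 1 1 = true :=
  ⟨(T.b (T.b (T.a (T.a (T.l 204) (T.l 0)) (T.a (T.l 0) (T.l 204))) (T.a (T.a (T.l 204) (T.b (T.l 204) (T.l 204))) (T.a (T.b (T.l 0) (T.l 0)) (T.l 0)))) (T.b (T.b (T.a (T.a (T.l 204) (T.l 204)) (T.a (T.l 0) (T.l 0))) (T.a (T.a (T.l 204) (T.l 204)) (T.a (T.l 0) (T.l 0)))) (T.a (T.a (T.b (T.l 204) (T.l 0)) (T.b (T.l 0) (T.b (T.l 0) (T.a (T.a (T.l 0) (T.l 0)) (T.l 0))))) (T.a (T.a (T.b (T.l 204) (T.b (T.l 0) (T.l 816))) (T.b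 (T.l 0) (T.a (T.l 0) (T.l 0)))) (T.b (T.l 0) (T.a (T.b (T.l 0) (T.l 816)) (T.l 64))))))), by decide +kernel⟩

def A202E_120 :
    ∃ t, chk3 (onCell 0 50331648 0 1073741824 50331648 16777216 (corTK [] false 3 c0N cA202E gN1q2 gN2q0 gN0q2 gN1q2 true true)) t 1 1 1 = true :=
  ⟨(T.l 2), by decide +kernel⟩

def A202E_121 :
    ∃ t, chk3 (onCell 0 50331648 0 1073741824 50331648 16777216 (corTK [] false 3 c0N cA202E gN1q2 gN2q0 gN1q2 gN2q2 true true)) t 1 1 1 = true :=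
  ⟨(T.l 2), by decide +kernel⟩

def A202E_122 :
    ∃ t, chk3 (onCell 0 50331648 0 1073741824 50331648 16777216 (corTK [] false 3 c0N cA202E gN1q2 gN2q0 gN2q2 gN3q2 true false)) t 1 1 1 = true :=
  ⟨(T.b (T.b (T.a (T.a (T.l 204) (T.l 0)) (T.b (T.l 0) (T.l 0))) (T.a (T.a (T.l 204) (T.b (T.l 204) (T.l 204))) (T.a (T.l 0) (T.l 0)))) (T.b (T.b (T.a (T.a (T.l 204) (T.l 204)) (T.a (T.l 0) (T.l 0))) (T.a (T.a (T.l 204) (T.l 204)) (T.a (T.l 0) (T.l 0)))) (T.a (T.a (T.b (T.l 204) (T.b (T.l 204) (T.l 0))) (T.b (T.l 0) (T.b (T.l 0) (T.a (T.a (T.l 0) (T.l 0)) (T.l 0))))) (T.a (T.a (T.b (T.l 204) (T.b (T.l 0) (T.l 0))) (T.b (T.l 0) (T.a (T.l 64) (T.l 0)))) (T.b (T.l 0) (T.a (T.b (T.l 0) (T.l 0)) (T.l 64))))))), by decide +kernel⟩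

def A202E_220 :
    ∃ t, chk3 (onCell 0 50331648 0 1073741824 50331648 16777216 (corTK [] false 3 c0N cA202E gN2q2 gN2q0 gN0q2 gN1q2 true true)) t 1 1 1 = true :=
  ⟨(T.l 2), by decide +kernel⟩

def A202E_221 :
    ∃ t, chk3 (onCell 0 50331648 0 1073741824 50331648 16777216 (corTK [] false 3 c0N cA202E gN2q2 gN2q0 gN1q2 gN2q2 true true)) t 1 1 1 = true :=
  ⟨(T.b (T.l 2) (T.b (T.l 2) (T.b (T.l 2) (T.b (T.l 2) (T.a (T.a (T.l 0) (T.l 2)) (T.l 2)))))), by decide +kernel⟩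

def A202E_222 :
    ∃ t, chk3 (onCell 0 50331648 0 1073741824 50331648 16777216 (corTK [] false 3 c0N cA202E gN2q2 gN2q0 gN2q2 gN3q2 true false)) t 1 1 1 = true :=
  ⟨(T.b (T.b (T.a (T.a (T.l 204) (T.l 0)) (T.b (T.l 0) (T.l 0))) (T.a (T.a (T.l 204) (T.b (T.l 204) (T.l 204))) (T.a (T.l 0) (T.l 0)))) (T.b (T.b (T.a (T.a (T.l 204) (T.l 204)) (T.a (T.l 0) (T.l 0))) (T.b (T.b (T.a (T.a (T.l 204) (T.l 204)) (T.a (T.l 0) (T.l 204))) (T.b (T.b (T.a (T.a (T.l 204) (T.l 204)) (T.a (T.l 0) (T.l 204))) (T.a (T.a (T.l 204) (T.l 204)) (T.a (T.l 0) (T.l 0)))) (T.b (T.a (T.a (T.l 204) (T.l 204)) (T.a (T.l 0) (T.l 0))) (T.a (T.a (T.l 204) (T.l 204)) (T.a (T.l 0) (T.l 0)))))) (T.b (T.b (T.b (T.a (T.a (T.l 204) (T.l 204)) (T.a (T.l 0) (T.l 0))) (T.a (T.a (T.l 204) (T.l 204)) (T.a (T.l 0) (T.l 0)))) (T.b (T.a (T.a (T.l 204)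 (T.l 204)) (T.a (T.l 0) (T.l 0))) (T.a (T.a (T.l 204) (T.l 204)) (T.a (T.l 0) (T.l 0))))) (T.b (T.b (T.a (T.a (T.l 204) (T.l 204)) (T.a (T.l 0) (T.l 0))) (T.a (T.a (T.l 204) (T.l 204)) (T.a (T.l 0) (T.l 0)))) (T.b (T.a (T.a (T.l 204) (T.l 204)) (T.a (T.l 0) (T.l 0))) (T.a (T.a (T.l 204) (T.l 204)) (T.a (T.l 0) (T.l 0)))))))) (T.b (T.b (T.b (T.b (T.b (T.a (T.a (T.l 204) (T.l 204)) (T.a (T.l 0) (T.l 0))) (T.a (T.a (T.l 204) (T.l 204)) (T.a (T.l 0) (T.l 0)))) (T.a (T.a (T.l 204) (T.l 204)) (T.a (T.l 0) (T.l 0)))) (T.b (T.a (T.a (T.l 204) (T.l 204)) (T.a (T.l 0) (T.l 0))) (T.a (T.a (T.l 204) (T.l 204)) (T.a (T.l 0) (T.l 0))))) (T.b (T.b (T.a (T.a (T.l 204) (T.l 204)) (T.a (T.l 0) (T.l 0))) (T.a (T.a (T.l 204) (T.l 204)) (T.a (T.l 0) (T.l 0)))) (T.b (T.a (T.a (T.l 204) (T.l 204)) (T.a (T.l 0) (T.l 0))) (T.a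 (T.a (T.l 204) (T.l 204)) (T.a (T.l 0) (T.l 0)))))) (T.b (T.b (T.b (T.a (T.a (T.l 204) (T.l 204)) (T.a (T.a (T.l 204) (T.l 0)) (T.l 0))) (T.a (T.a (T.l 204) (T.l 204)) (T.a (T.a (T.l 204) (T.l 0)) (T.a (T.l 0) (T.l 0))))) (T.b (T.a (T.a (T.l 204) (T.l 204)) (T.a (T.a (T.l 204) (T.l 0)) (T.a (T.l 0) (T.l 0)))) (T.a (T.a (T.l 204) (T.l 204)) (T.a (T.a (T.l 204) (T.l 0)) (T.a (T.l 0) (T.l 0)))))) (T.b (T.b (T.a (T.a (T.l 204) (T.l 204)) (T.a (T.a (T.l 204) (T.l 0)) (T.a (T.l 0) (T.l 0)))) (T.a (T.a (T.l 204) (T.l 204)) (T.a (T.a (T.l 204) (T.l 256)) (T.a (T.l 0) (T.l 0))))) (T.b (T.a (T.a (T.l 204) (T.l 0)) (T.a (T.a (T.l 204) (T.a (T.l 0) (T.l 0))) (T.a (T.l 256) (T.l 0)))) (T.a (T.a (T.l 0) (T.l 0)) (T.b (T.a (T.a (T.l 0) (T.a (T.l 0) (T.l 0))) (T.a (T.c (T.l 256) (T.l 256)) (T.l 0))) (T.a (T.a (T.l 816)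 (T.a (T.c (T.l 0) (T.l 0)) (T.l 0))) (T.a (T.a (T.l 0) (T.l 0)) (T.a (T.l 816) (T.l 816)))))))))))), by decide +kernel⟩

end Pool.Agent.Strip051.G.I3_64_1_16.Tab.CN
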