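import Pool.Agent.Strip051.G.I3_64_1_16.Gn
import Pool.Agent.Strip051.PB.Corns
import Pool.Agent.Strip051.PB.CornK

/-! # Certificates of the aligned corners (generated) -/

set_option linter.all false

namespace Pool.Agent.Strip051.G.I3_64_1_16.Tab.CN

open Pool.Agent.Strip051.PB

def A202R_003_1_4_1 :
    ∃ t, chk3 (onCell 0 50331648 0 1073741824 50331648 16777216 (corTK [] false 3 c0N cA202R gN0q2 gN0q0 gN3q2 gN4q2 false true)) t 1 4 1 = true :=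
  ⟨(T.l 2), by decide +kernel⟩

def A202R_003_1_20_1 :
    ∃ t, chk3 (onCell 0 50331648 0 1073741824 50331648 16777216 (corTK [] false 3 c0N cA202R gN0q2 gN0q0 gN3q2 gN4q2 false true)) t 1 20 1 = true :=
  ⟨(T.l 2), by decide +kernel⟩

def A202R_003_1_84_1 :
    ∃ t, chk3 (onCell 0 50331648 0 1073741824 50331648 16777216 (corTK [] false 3 c0N cA202R gN0q2 gN0q0 gN3q2 gN4q2 false true)) t 1 84 1 = true :=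
  ⟨(T.a (T.l 2) (T.a (T.l 2) (T.a (T.l 2) (T.b (T.l 2) (T.a (T.l 2) (T.b (T.l 2) (T.a (T.l 2) (T.c (T.b (T.l 2) (T.c (T.b (T.l 2) (T.c (T.b (T.l 2) (T.c (T.b (T.l 2) (T.l 204)) (T.b (T.l 2) (T.l 204)))) (T.b (T.l 2) (T.c (T.b (T.l 2) (T.l 204)) (T.b (T.l 2) (T.l 204)))))) (T.b (T.l 2) (T.c (T.b (T.l 2) (T.c (T.b (T.l 2) (T.l 204)) (T.b (T.l 2) (T.l 204)))) (T.b (T.l 2) (T.c (T.b (T.l 2) (T.l 204)) (T.b (T.l 2) (T.l 204)))))))) (T.b (T.l 2) (T.c (T.b (T.l 2) (T.c (T.b (T.l 2) (T.c (T.b (T.l 2) (T.l 204)) (T.b (T.l 2) (T.l 204)))) (T.b (T.l 2) (T.c (T.b (T.l 2) (T.l 204)) (T.a (T.l 748) (T.l 204)))))) (T.b (T.l 2) (T.c (T.b (T.l 2) (T.a (T.l 748) (T.l 204))) (T.b (T.l 2) (T.a (T.l 748) (T.l 204))))))))))))))), by decide +kernel⟩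

def A202R_003_2_340_1 :
    ∃ t, chk3 (onCell 0 50331648 0 1073741824 50331648 16777216 (corTK [] false 3 c0N cA202R gN0q2 gN0q0 gN3q2 gN4q2 false true)) t 2 340 1 = true :=
  ⟨(T.c (T.b (T.l 2) (T.a (T.a (T.l 2) (T.a (T.l 2) (T.a (T.l 2) (T.a (T.l 2) (T.c (T.b (T.l 2) (T.a (T.l 2) (T.c (T.b (T.l 2) (T.c (T.b (T.l 2) (T.l 204)) (T.b (T.l 2) (T.l 204)))) (T.b (T.l 2) (T.c (T.b (T.l 2) (T.l 204)) (T.b (T.l 2) (T.l 204))))))) (T.b (T.l 2) (T.a (T.l 2) (T.c (T.b (T.l 2) (T.c (T.b (T.l 2) (T.l 204)) (T.b (T.l 2) (T.l 204)))) (T.b (T.l 2) (T.c (T.b (T.l 2) (T.l 204)) (T.b (T.l 2) (T.l 204)))))))))))) (T.c (T.b (T.a (T.l 2) (T.c (T.b (T.l 2) (T.a (T.a (T.l 2) (T.a (T.l 2) (T.c (T.b (T.l 2) (T.l 204)) (T.b (T.l 2) (T.l 204))))) (T.a (T.c (T.b (T.l 2) (T.l 204)) (T.b (T.l 2) (T.l 204))) (T.l 204)))) (T.b (T.l 2)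 (T.a (T.a (T.l 2) (T.a (T.l 2) (T.c (T.b (T.l 2) (T.l 204)) (T.b (T.l 2) (T.l 204))))) (T.a (T.c (T.b (T.l 2) (T.l 204)) (T.b (T.l 2) (T.l 204))) (T.l 204)))))) (T.a (T.c (T.b (T.a (T.l 2) (T.c (T.b (T.l 2) (T.l 204)) (T.b (T.l 2) (T.l 204)))) (T.a (T.a (T.c (T.b (T.l 2) (T.l 204)) (T.b (T.l 2) (T.l 204))) (T.l 204)) (T.l 204))) (T.b (T.a (T.l 2) (T.c (T.b (T.l 2) (T.l 204)) (T.b (T.l 2) (T.l 204)))) (T.a (T.a (T.c (T.b (T.l 2) (T.l 204)) (T.b (T.l 2) (T.l 204))) (T.l 204)) (T.l 204)))) (T.a (T.a (T.l 204) (T.l 204)) (T.l 204)))) (T.b (T.a (T.l 2) (T.c (T.b (T.l 2) (T.a (T.a (T.l 2) (T.a (T.l 2) (T.c (T.b (T.l 2) (T.l 204)) (T.b (T.l 2) (T.l 204))))) (T.a (T.c (T.b (T.l 2) (T.l 204)) (T.b (T.l 2) (T.l 204))) (T.l 204)))) (T.b (T.l 2) (T.a (T.a (T.l 2) (T.a (T.l 2) (T.c (T.b (T.l 2) (T.l 204)) (T.b (T.l 2)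 (T.l 204))))) (T.a (T.c (T.b (T.l 2) (T.l 204)) (T.b (T.l 2) (T.l 204))) (T.l 204)))))) (T.a (T.c (T.b (T.a (T.l 2) (T.c (T.b (T.l 2) (T.l 204)) (T.b (T.l 2) (T.l 204)))) (T.a (T.a (T.c (T.b (T.l 2) (T.l 204)) (T.b (T.l 2) (T.l 204))) (T.l 204)) (T.l 204))) (T.b (T.a (T.l 2) (T.c (T.b (T.l 2) (T.l 204)) (T.b (T.l 2) (T.l 204)))) (T.a (T.a (T.c (T.b (T.l 2) (T.l 204)) (T.b (T.l 2) (T.l 204))) (T.l 204)) (T.l 204)))) (T.a (T.a (T.l 204) (T.l 204)) (T.l 204))))))) (T.b (T.l 2) (T.a (T.a (T.l 2) (T.a (T.l 2) (T.a (T.l 2) (T.a (T.l 2) (T.c (T.b (T.l 2) (T.a (T.l 2) (T.c (T.b (T.l 2) (T.c (T.b (T.l 2) (T.l 204)) (T.b (T.l 2) (T.l 204)))) (T.b (T.l 2) (T.c (T.b (T.l 2) (T.l 204)) (T.b (T.l 2) (T.l 204))))))) (T.b (T.l 2) (T.a (T.l 2) (T.c (T.b (T.l 2) (T.c (T.b (T.l 2) (T.l 204)) (T.b (T.l 2) (T.l 204)))) (T.b (T.l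 2) (T.a (T.l 2) (T.l 748))))))))))) (T.c (T.b (T.a (T.l 2) (T.c (T.b (T.l 2) (T.a (T.a (T.l 2) (T.a (T.l 2) (T.c (T.b (T.l 2) (T.l 204)) (T.b (T.l 2) (T.l 204))))) (T.a (T.c (T.b (T.l 2) (T.l 204)) (T.b (T.l 2) (T.l 204))) (T.l 204)))) (T.b (T.l 2) (T.a (T.a (T.l 2) (T.a (T.l 2) (T.c (T.b (T.l 2) (T.l 204)) (T.b (T.l 2) (T.l 204))))) (T.a (T.c (T.a (T.l 204) (T.l 204)) (T.a (T.l 204) (T.l 204))) (T.l 204)))))) (T.a (T.c (T.b (T.a (T.l 2) (T.c (T.b (T.l 2) (T.l 204)) (T.b (T.l 2) (T.l 204)))) (T.a (T.a (T.c (T.b (T.l 2) (T.l 204)) (T.b (T.l 2) (T.l 204))) (T.l 204)) (T.l 204))) (T.b (T.a (T.l 2) (T.c (T.b (T.l 2) (T.l 204)) (T.b (T.l 2) (T.l 204)))) (T.a (T.a (T.c (T.b (T.l 2) (T.l 204)) (T.l 204)) (T.l 204)) (T.l 204)))) (T.a (T.a (T.l 204) (T.l 204)) (T.l 204)))) (T.b (T.a (T.l 2) (T.c (T.b (T.l 2) (T.a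 (T.a (T.l 2) (T.c (T.b (T.l 2) (T.l 204)) (T.b (T.l 2) (T.l 204)))) (T.a (T.a (T.l 204) (T.l 204)) (T.l 204)))) (T.b (T.l 2) (T.a (T.a (T.l 2) (T.c (T.b (T.l 2) (T.l 204)) (T.b (T.l 2) (T.l 204)))) (T.a (T.a (T.l 204) (T.l 204)) (T.l 204)))))) (T.a (T.c (T.b (T.a (T.l 2) (T.c (T.b (T.l 2) (T.l 204)) (T.b (T.l 2) (T.l 204)))) (T.a (T.l 204) (T.l 204))) (T.b (T.a (T.l 2) (T.c (T.b (T.l 2) (T.l 204)) (T.b (T.l 2) (T.l 204)))) (T.l 204))) (T.a (T.a (T.l 204) (T.l 204)) (T.l 204)))))))), by decide +kernel⟩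

def A202R_003_3_340_1 :
    ∃ t, chk3 (onCell 0 50331648 0 1073741824 50331648 16777216 (corTK [] false 3 c0N cA202R gN0q2 gN0q0 gN3q2 gN4q2 false true)) t 3 340 1 = true :=
  ⟨(T.a (T.a (T.c (T.b (T.a (T.l 2) (T.a (T.l 2) (T.a (T.l 2) (T.c (T.b (T.l 2) (T.a (T.l 2) (T.c (T.b (T.l 2) (T.c (T.b (T.l 2) (T.l 204)) (T.b (T.l 2) (T.l 204)))) (T.b (T.l 2) (T.c (T.b (T.l 2) (T.l 204)) (T.b (T.l 2) (T.l 204))))))) (T.b (T.l 2) (T.a (T.l 2) (T.c (T.b (T.l 2) (T.c (T.b (T.l 2) (T.l 204)) (T.b (T.l 2) (T.l 204)))) (T.b (T.l 2) (T.l 748))))))))) (T.a (T.c (T.b (T.c (T.b (T.c (T.b (T.l 2) (T.a (T.a (T.l 2) (T.l 204)) (T.l 204))) (T.b (T.l 2) (T.a (T.l 748) (T.l 204)))) (T.l 204)) (T.b (T.c (T.b (T.l 2) (T.a (T.l 204) (T.l 204))) (T.b (T.l 2) (T.a (T.l 204) (T.l 204)))) (T.l 204))) (T.l 204)) (T.b (T.c (T.b (T.c (T.b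 (T.l 2) (T.a (T.l 204) (T.l 204))) (T.b (T.l 2) (T.a (T.l 204) (T.l 204)))) (T.l 204)) (T.b (T.c (T.b (T.l 2) (T.a (T.l 204) (T.l 204))) (T.b (T.l 2) (T.a (T.l 204) (T.l 204)))) (T.l 204))) (T.l 204))) (T.a (T.l 204) (T.l 204)))) (T.b (T.a (T.l 2) (T.a (T.l 2) (T.a (T.l 2) (T.c (T.b (T.l 2) (T.c (T.b (T.l 2) (T.a (T.l 2) (T.l 204))) (T.b (T.l 2) (T.a (T.l 2) (T.l 204))))) (T.b (T.l 2) (T.c (T.b (T.l 2) (T.a (T.l 2) (T.l 204))) (T.b (T.l 2) (T.l 748)))))))) (T.a (T.c (T.b (T.c (T.b (T.c (T.b (T.l 2) (T.a (T.l 204) (T.l 204))) (T.b (T.l 2) (T.a (T.l 204) (T.l 204)))) (T.l 204)) (T.b (T.c (T.b (T.l 2) (T.a (T.l 204) (T.l 204))) (T.b (T.l 2) (T.a (T.l 204) (T.l 204)))) (T.l 204))) (T.l 204)) (T.b (T.c (T.b (T.c (T.b (T.l 2) (T.a (T.l 204) (T.l 204))) (T.b (T.l 2) (T.a (T.l 204) (T.l 204)))) (T.l 204)) (T.b (T.c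 (T.a (T.b (T.l 2) (T.l 204)) (T.l 204)) (T.a (T.b (T.l 2) (T.l 204)) (T.l 204))) (T.l 204))) (T.l 204))) (T.a (T.l 204) (T.l 204))))) (T.c (T.b (T.c (T.b (T.l 2) (T.a (T.c (T.b (T.l 2) (T.a (T.c (T.b (T.l 2) (T.l 204)) (T.b (T.l 2) (T.l 204))) (T.l 204))) (T.b (T.l 2) (T.a (T.c (T.b (T.l 2) (T.l 204)) (T.a (T.l 748) (T.l 204))) (T.l 204)))) (T.c (T.b (T.c (T.b (T.l 2) (T.a (T.l 204) (T.l 204))) (T.b (T.l 2) (T.a (T.l 204) (T.l 204)))) (T.l 204)) (T.b (T.c (T.b (T.l 2) (T.a (T.l 204) (T.l 204))) (T.b (T.l 2) (T.a (T.l 204) (T.l 204)))) (T.l 204))))) (T.b (T.l 2) (T.a (T.c (T.b (T.l 2) (T.a (T.a (T.l 204) (T.l 204)) (T.l 204))) (T.b (T.l 2) (T.a (T.a (T.l 204) (T.l 204)) (T.l 204)))) (T.c (T.b (T.c (T.b (T.l 2) (T.a (T.l 204) (T.l 204))) (T.a (T.b (T.l 2) (T.l 204)) (T.l 204))) (T.l 204)) (T.a (T.b (T.c (T.b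 (T.l 2) (T.l 204)) (T.b (T.l 2) (T.l 204))) (T.l 204)) (T.l 204)))))) (T.a (T.l 204) (T.l 204))) (T.b (T.c (T.b (T.l 2) (T.a (T.c (T.b (T.l 2) (T.a (T.a (T.l 204) (T.l 204)) (T.l 204))) (T.b (T.l 2) (T.a (T.l 204) (T.l 204)))) (T.a (T.c (T.b (T.c (T.b (T.l 2) (T.l 204)) (T.b (T.l 2) (T.l 204))) (T.l 204)) (T.b (T.a (T.l 2) (T.l 748)) (T.l 204))) (T.l 204)))) (T.b (T.l 2) (T.a (T.c (T.b (T.l 2) (T.a (T.l 204) (T.l 204))) (T.b (T.l 2) (T.a (T.l 204) (T.l 204)))) (T.a (T.c (T.b (T.a (T.l 2) (T.l 204)) (T.l 204)) (T.a (T.b (T.l 2) (T.l 204)) (T.l 204))) (T.l 204))))) (T.a (T.l 204) (T.l 204))))) (T.a (T.a (T.c (T.b (T.c (T.b (T.a (T.l 2) (T.a (T.l 2) (T.c (T.b (T.l 2) (T.c (T.b (T.l 2) (T.l 204)) (T.b (T.l 2) (T.l 204)))) (T.b (T.l 2) (T.c (T.b (T.l 2) (T.l 204)) (T.b (T.l 2) (T.l 204))))))) (T.l 204)) (T.b (T.a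 (T.l 2) (T.a (T.l 2) (T.c (T.b (T.l 2) (T.c (T.b (T.l 2) (T.l 204)) (T.b (T.l 2) (T.l 204)))) (T.b (T.l 2) (T.c (T.l 748) (T.l 748)))))) (T.l 204))) (T.l 204)) (T.b (T.c (T.b (T.a (T.l 2) (T.a (T.l 2) (T.c (T.b (T.l 2) (T.l 748)) (T.b (T.l 2) (T.l 204))))) (T.l 204)) (T.b (T.a (T.l 2) (T.c (T.b (T.l 2) (T.a (T.l 2) (T.l 204))) (T.b (T.l 2) (T.a (T.l 2) (T.l 204))))) (T.l 204))) (T.l 204))) (T.c (T.b (T.c (T.b (T.c (T.b (T.l 2) (T.a (T.a (T.l 204) (T.l 204)) (T.l 204))) (T.b (T.l 2) (T.a (T.l 204) (T.l 204)))) (T.l 204)) (T.b (T.c (T.b (T.l 2) (T.a (T.l 204) (T.l 204))) (T.b (T.l 2) (T.a (T.l 204) (T.l 204)))) (T.l 204))) (T.l 204)) (T.b (T.c (T.b (T.c (T.b (T.l 2) (T.a (T.l 204) (T.l 204))) (T.b (T.l 2) (T.a (T.l 204) (T.l 204)))) (T.l 204)) (T.b (T.c (T.b (T.l 2) (T.a (T.l 204) (T.l 204))) (T.b (T.l 2) (T.l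 204))) (T.l 204))) (T.l 204)))) (T.a (T.c (T.b (T.c (T.b (T.c (T.b (T.c (T.b (T.l 2) (T.a (T.l 204) (T.l 204))) (T.b (T.l 2) (T.a (T.l 204) (T.l 204)))) (T.l 204)) (T.a (T.b (T.c (T.b (T.l 2) (T.l 204)) (T.b (T.l 2) (T.l 204))) (T.l 204)) (T.l 204))) (T.l 204)) (T.b (T.a (T.c (T.b (T.c (T.b (T.l 2) (T.l 204)) (T.a (T.l 2) (T.l 748))) (T.l 204)) (T.b (T.a (T.l 2) (T.l 748)) (T.l 204))) (T.l 204)) (T.l 204))) (T.l 204)) (T.b (T.c (T.a (T.b (T.c (T.a (T.b (T.l 2) (T.l 204)) (T.l 204)) (T.a (T.b (T.l 2) (T.l 204)) (T.l 204))) (T.l 204)) (T.l 204)) (T.a (T.a (T.b (T.c (T.b (T.l 2) (T.l 204)) (T.b (T.l 2) (T.l 204))) (T.l 204)) (T.l 204)) (T.l 204))) (T.l 204))) (T.a (T.c (T.l 204) (T.l 204)) (T.l 204))))), by decide +kernel⟩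

def A202R_003_1_341_1 :
    ∃ t, chk3 (onCell 0 50331648 0 1073741824 50331648 16777216 (corTK [] false 3 c0N cA202R gN0q2 gN0q0 gN3q2 gN4q2 false true)) t 1 341 1 = true :=
  ⟨(T.a (T.a (T.c (T.b (T.a (T.c (T.b (T.c (T.b (T.l 2) (T.a (T.a (T.l 2) (T.c (T.b (T.l 2) (T.l 204)) (T.b (T.l 2) (T.l 204)))) (T.a (T.c (T.b (T.l 2) (T.l 204)) (T.b (T.l 2) (T.l 204))) (T.l 204)))) (T.b (T.l 2) (T.a (T.a (T.l 2) (T.c (T.b (T.l 2) (T.l 204)) (T.b (T.l 2) (T.l 204)))) (T.a (T.c (T.b (T.l 2) (T.l 204)) (T.b (T.l 2) (T.l 204))) (T.l 204))))) (T.l 204)) (T.b (T.c (T.b (T.l 2) (T.a (T.a (T.l 2) (T.c (T.b (T.l 2) (T.l 204)) (T.b (T.l 2) (T.l 204)))) (T.a (T.c (T.b (T.l 2) (T.l 204)) (T.b (T.l 2) (T.l 204))) (T.l 204)))) (T.b (T.l 2) (T.a (T.a (T.l 2) (T.c (T.b (T.l 2) (T.l 204)) (T.b (T.l 2) (T.l 204)))) (T.a (T.c (T.b (T.l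 2) (T.l 204)) (T.b (T.l 2) (T.l 204))) (T.l 204))))) (T.l 204))) (T.a (T.c (T.b (T.c (T.b (T.c (T.b (T.l 2) (T.l 204)) (T.b (T.l 2) (T.l 204))) (T.l 204)) (T.b (T.c (T.b (T.l 2) (T.l 204)) (T.b (T.l 2) (T.l 204))) (T.l 204))) (T.l 204)) (T.b (T.c (T.b (T.c (T.b (T.l 2) (T.l 204)) (T.b (T.l 2) (T.l 204))) (T.l 204)) (T.b (T.c (T.b (T.l 2) (T.l 204)) (T.b (T.l 2) (T.l 204))) (T.l 204))) (T.l 204))) (T.l 204))) (T.l 204)) (T.b (T.c (T.b (T.a (T.c (T.b (T.l 2) (T.a (T.a (T.l 2) (T.c (T.b (T.l 2) (T.l 204)) (T.b (T.l 2) (T.l 204)))) (T.a (T.c (T.b (T.l 2) (T.l 204)) (T.b (T.l 2) (T.l 204))) (T.l 204)))) (T.b (T.l 2) (T.a (T.a (T.l 2) (T.c (T.b (T.l 2) (T.l 204)) (T.b (T.l 2) (T.l 204)))) (T.a (T.c (T.b (T.l 2) (T.l 204)) (T.b (T.l 2) (T.l 204))) (T.l 204))))) (T.a (T.c (T.b (T.c (T.b (T.l 2) (T.l 204)) (T.b (T.l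 2) (T.l 204))) (T.l 204)) (T.b (T.c (T.b (T.l 2) (T.l 204)) (T.b (T.l 2) (T.l 204))) (T.l 204))) (T.l 204))) (T.l 204)) (T.b (T.a (T.c (T.b (T.l 2) (T.a (T.a (T.l 2) (T.c (T.b (T.l 2) (T.l 204)) (T.b (T.l 2) (T.l 204)))) (T.a (T.c (T.b (T.l 2) (T.l 204)) (T.b (T.l 2) (T.l 204))) (T.l 204)))) (T.b (T.l 2) (T.a (T.a (T.l 2) (T.c (T.b (T.l 2) (T.l 204)) (T.b (T.l 2) (T.l 204)))) (T.a (T.c (T.b (T.l 2) (T.l 204)) (T.b (T.l 2) (T.l 204))) (T.l 204))))) (T.a (T.c (T.b (T.c (T.b (T.l 2) (T.l 204)) (T.b (T.l 2) (T.l 204))) (T.l 204)) (T.a (T.b (T.c (T.b (T.l 2) (T.l 204)) (T.b (T.l 2) (T.l 204))) (T.l 204)) (T.l 204))) (T.l 204))) (T.l 204))) (T.l 204))) (T.a (T.l 204) (T.a (T.a (T.l 204) (T.l 204)) (T.c (T.l 204) (T.l 204))))) (T.a (T.a (T.a (T.l 204) (T.l 204)) (T.a (T.l 204) (T.l 204))) (T.a (T.a (T.l 204) (T.l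 204)) (T.a (T.l 204) (T.l 204))))), by decide +kernel⟩

def A202R_003_1_171_1 :
    ∃ t, chk3 (onCell 0 50331648 0 1073741824 50331648 16777216 (corTK [] false 3 c0N cA202R gN0q2 gN0q0 gN3q2 gN4q2 false true)) t 1 171 1 = true :=
  ⟨(T.b (T.a (T.a (T.l 204) (T.a (T.l 204) (T.a (T.l 476) (T.l 204)))) (T.a (T.a (T.a (T.l 204) (T.l 204)) (T.c (T.l 272) (T.l 272))) (T.a (T.l 476) (T.c (T.l 204) (T.l 204))))) (T.a (T.a (T.l 204) (T.a (T.l 204) (T.a (T.l 204) (T.l 204)))) (T.a (T.a (T.a (T.l 204) (T.l 204)) (T.l 272)) (T.a (T.l 0) (T.l 272))))), by decide +kernel⟩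

def A202R_003_1_43_1 :
    ∃ t, chk3 (onCell 0 50331648 0 1073741824 50331648 16777216 (corTK [] false 3 c0N cA202R gN0q2 gN0q0 gN3q2 gN4q2 false true)) t 1 43 1 = true :=
  ⟨(T.a (T.a (T.b (T.l 204) (T.l 0)) (T.a (T.a (T.l 0) (T.b (T.l 204) (T.l 0))) (T.a (T.a (T.l 0) (T.l 272)) (T.b (T.l 272) (T.l 0))))) (T.a (T.a (T.a (T.b (T.l 0) (T.l 0)) (T.b (T.l 0) (T.l 0))) (T.b (T.b (T.l 272) (T.l 0)) (T.l 68))) (T.a (T.b (T.b (T.l 16) (T.l 0)) (T.b (T.l 0) (T.l 0))) (T.b (T.a (T.l 0) (T.l 0)) (T.b (T.l 0) (T.l 816)))))), by decide +kernel⟩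

def A202R_003_1_11_1 :
    ∃ t, chk3 (onCell 0 50331648 0 1073741824 50331648 16777216 (corTK [] false 3 c0N cA202R gN0q2 gN0q0 gN3q2 gN4q2 false true)) t 1 11 1 = true :=
  ⟨(T.b (T.a (T.a (T.b (T.l 816) (T.l 816)) (T.a (T.a (T.l 816) (T.b (T.l 0) (T.l 816))) (T.a (T.b (T.l 0) (T.l 816)) (T.b (T.l 0) (T.l 816))))) (T.a (T.a (T.a (T.b (T.l 0) (T.l 816)) (T.b (T.l 0) (T.l 816))) (T.b (T.b (T.l 68) (T.l 884)) (T.b (T.l 884) (T.l 884)))) (T.a (T.b (T.b (T.l 68) (T.l 884)) (T.b (T.l 820) (T.l 820))) (T.b (T.b (T.l 884) (T.l 884)) (T.b (T.l 820) (T.l 816)))))) (T.a (T.a (T.b (T.l 816) (T.l 816)) (T.a (T.a (T.b (T.l 820) (T.l 820)) (T.b (T.l 816) (T.l 816))) (T.a (T.b (T.l 816) (T.l 816)) (T.b (T.l 816) (T.l 816))))) (T.a (T.a (T.a (T.b (T.l 816) (T.l 816)) (T.b (T.l 816) (T.l 816))) (T.b (T.b (T.l 884) (T.l 884))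 (T.b (T.l 884) (T.l 884)))) (T.a (T.b (T.b (T.l 820) (T.l 816)) (T.l 884)) (T.b (T.l 884) (T.l 884)))))), by decide +kernel⟩

def A202R_003_1_3_1 :
    ∃ t, chk3 (onCell 0 50331648 0 1073741824 50331648 16777216 (corTK [] false 3 c0N cA202R gN0q2 gN0q0 gN3q2 gN4q2 false true)) t 1 3 1 = true :=
  ⟨(T.b (T.b (T.a (T.a (T.a (T.b (T.l 816) (T.b (T.l 816) (T.l 816))) (T.a (T.l 884) (T.a (T.l 816) (T.b (T.l 884) (T.l 884))))) (T.a (T.a (T.b (T.b (T.l 820) (T.l 820)) (T.b (T.l 884) (T.l 884))) (T.b (T.b (T.l 816) (T.l 816)) (T.b (T.l 816) (T.l 816)))) (T.b (T.a (T.b (T.l 816) (T.l 816)) (T.l 884)) (T.a (T.l 884) (T.l 884))))) (T.a (T.a (T.b (T.a (T.l 884) (T.b (T.l 816) (T.l 816))) (T.a (T.b (T.l 816) (T.l 816)) (T.b (T.l 816) (T.l 816)))) (T.b (T.a (T.b (T.l 816) (T.l 816)) (T.l 884)) (T.a (T.l 884) (T.l 884))))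 (T.a (T.b (T.b (T.l 884) (T.l 884)) (T.b (T.l 884) (T.l 884))) (T.b (T.b (T.l 884) (T.l 884)) (T.b (T.l 884) (T.l 884)))))) (T.a (T.a (T.a (T.b (T.b (T.l 816) (T.l 816)) (T.b (T.l 816) (T.l 816))) (T.a (T.a (T.l 820) (T.b (T.l 816) (T.b (T.l 816) (T.l 816)))) (T.b (T.a (T.b (T.l 816) (T.l 816)) (T.l 884)) (T.a (T.b (T.l 816) (T.l 816)) (T.l 884))))) (T.a (T.a (T.b (T.b (T.l 884) (T.l 884)) (T.b (T.l 884) (T.l 884))) (T.b (T.b (T.l 816) (T.l 816)) (T.b (T.l 816) (T.l 816)))) (T.a (T.b (T.b (T.l 816) (T.l 820)) (T.b (T.l 820) (T.l 884))) (T.b (T.b (T.l 884) (T.l 884)) (T.b (T.l 884) (T.l 884)))))) (T.a (T.a (T.b (T.a (T.b (T.l 816) (T.l 816)) (T.l 884)) (T.a (T.b (T.l 816) (T.l 816)) (T.l 884))) (T.b (T.b (T.l 884) (T.l 884)) (T.b (T.l 884) (T.l 884)))) (T.a (T.b (T.b (T.l 884) (T.l 884)) (T.b (T.l 884) (T.l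 884))) (T.b (T.b (T.l 880) (T.l 816)) (T.b (T.l 816) (T.l 816))))))) (T.a (T.a (T.a (T.b (T.b (T.a (T.b (T.l 816) (T.l 816)) (T.l 816)) (T.b (T.b (T.l 816) (T.l 816)) (T.a (T.l 816) (T.l 816)))) (T.b (T.b (T.a (T.b (T.l 816) (T.l 816)) (T.l 816)) (T.a (T.b (T.l 816) (T.l 816)) (T.l 816))) (T.b (T.a (T.b (T.l 816) (T.b (T.l 816) (T.l 816))) (T.l 816)) (T.a (T.a (T.b (T.l 816) (T.l 816)) (T.l 816)) (T.b (T.l 816) (T.l 816)))))) (T.a (T.b (T.a (T.l 884) (T.b (T.b (T.l 816) (T.l 816)) (T.b (T.l 820) (T.l 884)))) (T.a (T.b (T.a (T.l 816) (T.b (T.l 816) (T.l 816))) (T.a (T.b (T.l 816) (T.l 816)) (T.b (T.l 816) (T.l 816)))) (T.b (T.a (T.l 884) (T.l 816)) (T.b (T.b (T.l 816) (T.l 816)) (T.b (T.l 816) (T.l 816)))))) (T.b (T.b (T.a (T.b (T.l 816) (T.l 816)) (T.l 884)) (T.a (T.b (T.l 816) (T.l 816)) (T.l 884))) (T.a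 (T.b (T.b (T.l 816) (T.l 816)) (T.b (T.l 816) (T.l 820))) (T.b (T.b (T.l 816) (T.l 816)) (T.b (T.l 816) (T.l 816))))))) (T.a (T.a (T.b (T.b (T.b (T.l 884) (T.l 884)) (T.a (T.l 820) (T.l 816))) (T.a (T.b (T.l 884) (T.b (T.l 816) (T.l 816))) (T.b (T.b (T.l 816) (T.l 816)) (T.b (T.l 816) (T.l 816))))) (T.b (T.b (T.b (T.l 884) (T.l 884)) (T.a (T.l 820) (T.b (T.l 816) (T.l 816)))) (T.b (T.a (T.l 820) (T.b (T.l 816) (T.l 816))) (T.a (T.b (T.l 816) (T.l 816)) (T.b (T.l 816) (T.l 816)))))) (T.b (T.a (T.b (T.a (T.l 884) (T.l 884)) (T.a (T.l 884) (T.l 884))) (T.b (T.b (T.l 884) (T.l 884)) (T.b (T.l 884) (T.l 884)))) (T.a (T.b (T.a (T.l 884) (T.l 884)) (T.a (T.b (T.l 816) (T.l 816)) (T.l 884))) (T.b (T.b (T.l 884) (T.l 880)) (T.b (T.l 880) (T.l 880))))))) (T.a (T.a (T.b (T.a (T.b (T.b (T.l 816) (T.l 816)) (T.b (T.l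 816) (T.l 816))) (T.b (T.l 884) (T.l 884))) (T.a (T.b (T.b (T.l 816) (T.l 816)) (T.b (T.l 816) (T.l 816))) (T.b (T.l 884) (T.b (T.l 816) (T.l 816))))) (T.b (T.b (T.b (T.l 884) (T.l 884)) (T.b (T.l 884) (T.l 884))) (T.b (T.a (T.l 880) (T.l 816)) (T.a (T.l 880) (T.l 816))))) (T.b (T.a (T.b (T.b (T.l 880) (T.l 816)) (T.b (T.l 816) (T.l 816))) (T.b (T.l 884) (T.l 884))) (T.a (T.b (T.b (T.l 880) (T.l 816)) (T.b (T.l 816) (T.l 816))) (T.b (T.b (T.l 816) (T.l 816)) (T.b (T.l 816) (T.l 816)))))))), by decide +kernel⟩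

theorem A202R_003_1_340_1 :
    ∃ t, chk3 (onCell 0 50331648 0 1073741824 50331648 16777216 (corTK [] false 3 c0N cA202R gN0q2 gN0q0 gN3q2 gN4q2 false true)) t 1 340 1 = true :=
  ex3_a A202R_003_2_340_1 A202R_003_3_340_1
theorem A202R_003_1_170_1 :
    ∃ t, chk3 (onCell 0 50331648 0 1073741824 50331648 16777216 (corTK [] false 3 c0N cA202R gN0q2 gN0q0 gN3q2 gN4q2 false true)) t 1 170 1 = true :=
  ex3_b A202R_003_1_340_1 A202R_003_1_341_1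
theorem A202R_003_1_85_1 :
    ∃ t, chk3 (onCell 0 50331648 0 1073741824 50331648 16777216 (corTK [] false 3 c0N cA202R gN0q2 gN0q0 gN3q2 gN4q2 false true)) t 1 85 1 = true :=
  ex3_b A202R_003_1_170_1 A202R_003_1_171_1
theorem A202R_003_1_42_1 :
    ∃ t, chk3 (onCell 0 50331648 0 1073741824 50331648 16777216 (corTK [] false 3 c0N cA202R gN0q2 gN0q0 gN3q2 gN4q2 false true)) t 1 42 1 = true :=
  ex3_b A202R_003_1_84_1 A202R_003_1_85_1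
theorem A202R_003_1_21_1 :
    ∃ t, chk3 (onCell 0 50331648 0 1073741824 50331648 16777216 (corTK [] false 3 c0N cA202R gN0q2 gN0q0 gN3q2 gN4q2 false true)) t 1 21 1 = true :=
  ex3_b A202R_003_1_42_1 A202R_003_1_43_1
theorem A202R_003_1_10_1 :
    ∃ t, chk3 (onCell 0 50331648 0 1073741824 50331648 16777216 (corTK [] false 3 c0N cA202R gN0q2 gN0q0 gN3q2 gN4q2 false true)) t 1 10 1 = true :=
  ex3_b A202R_003_1_20_1 A202R_003_1_21_1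
theorem A202R_003_1_5_1 :
    ∃ t, chk3 (onCell 0 50331648 0 1073741824 50331648 16777216 (corTK [] false 3 c0N cA202R gN0q2 gN0q0 gN3q2 gN4q2 false true)) t 1 5 1 = true :=
  ex3_b A202R_003_1_10_1 A202R_003_1_11_1
theorem A202R_003_1_2_1 :
    ∃ t, chk3 (onCell 0 50331648 0 1073741824 50331648 16777216 (corTK [] false 3 c0N cA202R gN0q2 gN0q0 gN3q2 gN4q2 false true)) t 1 2 1 = true :=
  ex3_b A202R_003_1_4_1 A202R_003_1_5_1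
theorem A202R_003 :
    ∃ t, chk3 (onCell 0 50331648 0 1073741824 50331648 16777216 (corTK [] false 3 c0N cA202R gN0q2 gN0q0 gN3q2 gN4q2 false true)) t 1 1 1 = true :=
  ex3_b A202R_003_1_2_1 A202R_003_1_3_1

def A202R_013 :
    ∃ t, chk3 (onCell 0 50331648 0 1073741824 50331648 16777216 (corTK [] false 3 c0N cA202R gN0q2 gN1q0 gN3q2 gN4q2 false true)) t 1 1 1 = true :=
  ⟨(T.b (T.l 2) (T.b (T.b (T.b (T.a (T.l 2) (T.l 0)) (T.a (T.a (T.a (T.l 204) (T.l 204)) (T.l 204)) (T.b (T.l 204) (T.l 204)))) (T.a (T.a (T.a (T.l 204) (T.l 0)) (T.b (T.l 204) (T.l 0))) (T.a (T.l 0) (T.l 0)))) (T.a (T.a (T.a (T.b (T.l 0) (T.b (T.l 816) (T.b (T.l 816) (T.b (T.l 816) (T.a (T.b (T.l 816) (T.c (T.l 816) (T.l 816))) (T.l 816)))))) (T.b (T.l 0) (T.b (T.l 0) (T.a (T.b (T.l 816) (T.b (T.l 816) (T.a (T.a (T.l 816) (T.l 816)) (T.l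 816)))) (T.b (T.l 816) (T.a (T.b (T.l 816) (T.l 816)) (T.l 816))))))) (T.b (T.a (T.l 0) (T.l 0)) (T.a (T.b (T.l 0) (T.b (T.l 816) (T.a (T.a (T.l 816) (T.l 816)) (T.a (T.l 816) (T.l 816))))) (T.b (T.l 816) (T.b (T.l 816) (T.a (T.b (T.l 816) (T.l 816)) (T.l 880))))))) (T.a (T.b (T.l 0) (T.b (T.l 0) (T.a (T.b (T.l 816) (T.a (T.l 816) (T.l 816))) (T.a (T.l 816) (T.l 816))))) (T.b (T.l 0) (T.b (T.l 816) (T.a (T.b (T.l 816) (T.l 816)) (T.l 884)))))))), by decide +kernel⟩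

def A202R_023 :
    ∃ t, chk3 (onCell 0 50331648 0 1073741824 50331648 16777216 (corTK [] false 3 c0N cA202R gN0q2 gN2q0 gN3q2 gN4q2 false true)) t 1 1 1 = true :=
  ⟨(T.b (T.l 2) (T.b (T.b (T.l 2) (T.b (T.a (T.a (T.a (T.l 204) (T.l 204)) (T.l 204)) (T.l 0)) (T.a (T.a (T.a (T.l 204) (T.l 204)) (T.l 204)) (T.l 0)))) (T.a (T.a (T.a (T.b (T.l 204) (T.b (T.l 0) (T.b (T.l 816) (T.b (T.l 816) (T.b (T.l 816) (T.a (T.c (T.b (T.l 816) (T.l 816)) (T.l 816)) (T.l 816))))))) (T.b (T.l 0) (T.b (T.l 0) (T.b (T.l 0) (T.a (T.b (T.l 816) (T.b (T.l 816) (T.a (T.a (T.l 816) (T.l 816)) (T.l 816)))) (T.a (T.b (T.l 816) (T.l 816)) (T.l 816))))))) (T.b (T.b (T.l 0) (T.l 0)) (T.a (T.b (T.l 0) (T.b (T.l 816) (T.b (T.l 816) (T.b (T.l 816) (T.a (T.a (T.l 816) (T.l 816)) (T.l 816)))))) (T.b (T.l 0) (T.b (T.l 816) (T.b (T.l 816) (T.a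 (T.l 816) (T.l 816)))))))) (T.a (T.b (T.l 0) (T.b (T.l 0) (T.b (T.l 816) (T.b (T.l 816) (T.a (T.a (T.l 816) (T.l 816)) (T.l 816)))))) (T.b (T.l 0) (T.b (T.l 0) (T.a (T.b (T.l 816) (T.l 816)) (T.l 884)))))))), by decide +kernel⟩

def A202R_113 :
    ∃ t, chk3 (onCell 0 50331648 0 1073741824 50331648 16777216 (corTK [] false 3 c0N cA202R gN1q2 gN1q0 gN3q2 gN4q2 false true)) t 1 1 1 = true :=
  ⟨(T.b (T.l 2) (T.b (T.l 2) (T.b (T.l 2) (T.a (T.a (T.l 0) (T.a (T.b (T.l 0) (T.l 0)) (T.l 0))) (T.b (T.l 0) (T.a (T.b (T.l 0) (T.l 0)) (T.l 0))))))), by decide +kernel⟩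

def A202R_123 :
    ∃ t, chk3 (onCell 0 50331648 0 1073741824 50331648 16777216 (corTK [] false 3 c0N cA202R gN1q2 gN2q0 gN3q2 gN4q2 false true)) t 1 1 1 = true :=
  ⟨(T.b (T.l 2) (T.b (T.l 2) (T.b (T.l 2) (T.a (T.a (T.l 0) (T.a (T.b (T.l 2) (T.l 0)) (T.l 4))) (T.b (T.l 0) (T.a (T.b (T.l 0) (T.l 0)) (T.l 0))))))), by decide +kernel⟩

def A202R_223 :
    ∃ t, chk3 (onCell 0 50331648 0 1073741824 50331648 16777216 (corTK [] false 3 c0N cA202R gN2q2 gN2q0 gN3q2 gN4q2 false true)) t 1 1 1 = true :=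
  ⟨(T.l 2), by decide +kernel⟩

def B011E_000 :
    ∃ t, chk3 (onCell 0 50331648 0 1073741824 50331648 16777216 (corTK [] false 3 c0N cB011E gN0q0 gN0q1 gN0q1 gN1q1 true false)) t 1 1 1 = true :=
  ⟨(T.l 1), by decide +kernel⟩

def B011E_100 :
    ∃ t, chk3 (onCell 0 50331648 0 1073741824 50331648 16777216 (corTK [] false 3 c0N cB011E gN1q0 gN0q1 gN0q1 gN1q1 true false)) t 1 1 1 = true :=
  ⟨(T.l 1), by decide +kernel⟩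

def B011E_200 :
    ∃ t, chk3 (onCell 0 50331648 0 1073741824 50331648 16777216 (corTK [] false 3 c0N cB011E gN2q0 gN0q1 gN0q1 gN1q1 true false)) t 1 1 1 = true :=
  ⟨(T.b (T.b (T.b (T.a (T.b (T.a (T.a (T.l 816) (T.l 816)) (T.l 816)) (T.l 1)) (T.l 816)) (T.l 1)) (T.l 1)) (T.l 1)), by decide +kernel⟩

def B011L_020 :
    ∃ t, chk3 (onCell 0 50331648 0 1073741824 50331648 16777216 (corTK [] false 3 c0N cB011L gN0q0 gN2q1 gN0q1 gN1q1 true false)) t 1 1 1 = true :=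
  ⟨(T.l 1), by decide +kernel⟩

def B011L_030 :
    ∃ t, chk3 (onCell 0 50331648 0 1073741824 50331648 16777216 (corTK [] false 3 c0N cB011L gN0q0 gN3q1 gN0q1 gN1q1 true false)) t 1 1 1 = true :=
  ⟨(T.l 1), by decide +kernel⟩

def B011L_040 :
    ∃ t, chk3 (onCell 0 50331648 0 1073741824 50331648 16777216 (corTK [] false 3 c0N cB011L gN0q0 gN4q1 gN0q1 gN1q1 true false)) t 1 1 1 = true :=
  ⟨(T.l 1), by decide +kernel⟩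

def B011L_120 :
    ∃ t, chk3 (onCell 0 50331648 0 1073741824 50331648 16777216 (corTK [] false 3 c0N cB011L gN1q0 gN2q1 gN0q1 gN1q1 true false)) t 1 1 1 = true :=
  ⟨(T.l 1), by decide +kernel⟩

def B011L_130 :
    ∃ t, chk3 (onCell 0 50331648 0 1073741824 50331648 16777216 (corTK [] false 3 c0N cB011L gN1q0 gN3q1 gN0q1 gN1q1 true false)) t 1 1 1 = true :=
  ⟨(T.l 1), by decide +kernel⟩

def B011L_140 :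
    ∃ t, chk3 (onCell 0 50331648 0 1073741824 50331648 16777216 (corTK [] false 3 c0N cB011L gN1q0 gN4q1 gN0q1 gN1q1 true false)) t 1 1 1 = true :=
  ⟨(T.l 1), by decide +kernel⟩

def B011L_220 :
    ∃ t, chk3 (onCell 0 50331648 0 1073741824 50331648 16777216 (corTK [] false 3 c0N cB011L gN2q0 gN2q1 gN0q1 gN1q1 true false)) t 1 1 1 = true :=
  ⟨(T.l 1), by decide +kernel⟩

def B011L_230 :
    ∃ t, chk3 (onCell 0 50331648 0 1073741824 50331648 16777216 (corTK [] false 3 c0N cB011L gN2q0 gN3q1 gN0q1 gN1q1 true false)) t 1 1 1 = true :=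
  ⟨(T.l 1), by decide +kernel⟩

def B011L_240 :
    ∃ t, chk3 (onCell 0 50331648 0 1073741824 50331648 16777216 (corTK [] false 3 c0N cB011L gN2q0 gN4q1 gN0q1 gN1q1 true false)) t 1 1 1 = true :=
  ⟨(T.l 1), by decide +kernel⟩

def B011R_001 :
    ∃ t, chk3 (onCell 0 50331648 0 1073741824 50331648 16777216 (corTK [[⟨0, 0, 1, 25165824⟩, ⟨1, 1, 2, 25165824⟩, ⟨2, 1, 0, 8388608⟩, ⟨0, 0, 0, 83886080⟩, ⟨0, 1, 0, 1040187392⟩, ⟨1, 0, 0, 1040187392⟩, ⟨1, 1, 0, 83886080⟩]] false 3 c0N cB011R gN0q0 gN0q1 gN1q1 gN2q1 false true)) t 1 1 1 = true :=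
  ⟨(T.b (T.b (T.b (T.b (T.b (T.b (T.b (T.b (T.a (T.c (T.a (T.l 204) (T.b (T.c (T.b (T.a (T.a (T.l 204) (T.a (T.l 204) (T.l 204))) (T.c (T.b (T.a (T.a (T.l 204) (T.l 204)) (T.a (T.l 476) (T.l 476))) (T.l 2)) (T.b (T.a (T.a (T.l 204) (T.l 204)) (T.a (T.l 460) (T.l 476))) (T.l 2)))) (T.l 2)) (T.b (T.a (T.a (T.l 204) (T.a (T.l 204) (T.l 204))) (T.c (T.b (T.a (T.a (T.l 204) (T.l 204)) (T.a (T.l 204) (T.l 476))) (T.l 2)) (T.b (T.a (T.a (T.l 204) (T.l 204)) (T.a (T.l 204) (T.l 460))) (T.l 2)))) (T.l 2))) (T.l 2))) (T.a (T.l 204) (T.b (T.c (T.b (T.a (T.a (T.l 204) (T.a (T.l 204) (T.l 204))) (T.c (T.b (T.a (T.a (T.l 204) (T.l 204)) (T.a (T.l 204) (T.l 460))) (T.l 2)) (T.b (T.a (T.a (T.l 204) (T.l 204)) (T.a (T.l 204) (T.l 460))) (T.l 2)))) (T.l 2)) (T.b (T.a (T.a (T.l 204) (T.a (T.l 204) (T.l 204))) (T.c (T.b (T.a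 (T.a (T.l 204) (T.l 204)) (T.a (T.l 204) (T.l 460))) (T.l 2)) (T.b (T.a (T.a (T.l 204) (T.l 204)) (T.a (T.l 204) (T.l 460))) (T.l 2)))) (T.l 2))) (T.l 2)))) (T.c (T.a (T.b (T.c (T.b (T.a (T.c (T.b (T.a (T.a (T.l 476) (T.l 476)) (T.c (T.a (T.l 476) (T.l 476)) (T.a (T.l 476) (T.l 476)))) (T.l 2)) (T.b (T.a (T.a (T.l 476) (T.l 476)) (T.a (T.l 476) (T.a (T.l 476) (T.l 476)))) (T.l 2))) (T.a (T.c (T.b (T.c (T.a (T.l 476) (T.a (T.a (T.l 476) (T.l 476)) (T.l 1024))) (T.a (T.l 476) (T.a (T.a (T.l 476) (T.l 476)) (T.l 1024)))) (T.l 2)) (T.b (T.c (T.a (T.l 476) (T.a (T.a (T.l 476) (T.l 476)) (T.l 1024))) (T.a (T.l 476) (T.a (T.a (T.l 476) (T.l 476)) (T.l 1024)))) (T.l 2))) (T.l 1024))) (T.l 2)) (T.b (T.a (T.c (T.b (T.a (T.a (T.l 476) (T.l 476)) (T.a (T.l 476) (T.l 476))) (T.l 2)) (T.b (T.a (T.a (T.l 476) (T.l 476))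 (T.a (T.l 476) (T.l 476))) (T.l 2))) (T.a (T.c (T.a (T.l 476) (T.a (T.a (T.l 476) (T.l 476)) (T.l 1024))) (T.a (T.l 476) (T.a (T.a (T.l 476) (T.l 476)) (T.l 1024)))) (T.l 1024))) (T.l 2))) (T.l 2)) (T.l 1024)) (T.b (T.a (T.c (T.b (T.a (T.c (T.b (T.a (T.a (T.l 476) (T.l 476)) (T.a (T.l 476) (T.l 476))) (T.l 2)) (T.b (T.a (T.a (T.l 460) (T.l 476)) (T.a (T.l 476) (T.l 476))) (T.l 2))) (T.c (T.b (T.a (T.a (T.l 476) (T.a (T.c (T.l 476) (T.l 476)) (T.l 476))) (T.a (T.a (T.l 476) (T.l 476)) (T.l 1024))) (T.l 2)) (T.b (T.a (T.a (T.l 476) (T.a (T.l 476) (T.l 476))) (T.c (T.b (T.a (T.a (T.l 476) (T.l 476)) (T.a (T.l 476) (T.l 1024))) (T.l 2)) (T.b (T.a (T.a (T.l 476) (T.l 476)) (T.a (T.l 476) (T.l 476))) (T.l 2)))) (T.l 2)))) (T.l 2)) (T.b (T.a (T.c (T.b (T.a (T.a (T.l 460) (T.l 476)) (T.a (T.l 476) (T.l 476))) (T.l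 2)) (T.b (T.a (T.a (T.l 460) (T.l 460)) (T.a (T.l 476) (T.l 476))) (T.l 2))) (T.c (T.b (T.a (T.a (T.l 476) (T.a (T.l 476) (T.l 476))) (T.c (T.b (T.a (T.a (T.l 476) (T.l 476)) (T.a (T.l 476) (T.l 476))) (T.l 2)) (T.b (T.a (T.a (T.l 476) (T.l 476)) (T.a (T.l 476) (T.l 476))) (T.l 2)))) (T.l 2)) (T.b (T.a (T.a (T.l 476) (T.a (T.l 476) (T.l 476))) (T.c (T.b (T.a (T.a (T.l 476) (T.l 476)) (T.a (T.l 476) (T.l 476))) (T.l 2)) (T.b (T.a (T.a (T.l 476) (T.l 476)) (T.a (T.l 476) (T.l 476))) (T.l 2)))) (T.l 2)))) (T.l 2))) (T.a (T.c (T.a (T.a (T.c (T.l 1024) (T.a (T.l 476) (T.l 1024))) (T.l 1024)) (T.l 1024)) (T.b (T.c (T.a (T.b (T.c (T.a (T.a (T.l 476) (T.l 476)) (T.l 1024)) (T.b (T.a (T.a (T.l 476) (T.l 476)) (T.a (T.l 476) (T.l 1024))) (T.l 2))) (T.l 2)) (T.l 1024)) (T.b (T.a (T.c (T.b (T.a (T.a (T.l 476) (T.l 476))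 (T.a (T.l 476) (T.l 476))) (T.l 2)) (T.b (T.a (T.a (T.l 476) (T.l 476)) (T.a (T.l 476) (T.l 476))) (T.l 2))) (T.a (T.a (T.l 476) (T.l 476)) (T.l 1024))) (T.l 2))) (T.l 2))) (T.l 1024))) (T.l 2)))) (T.l 2)) (T.l 2)) (T.l 2)) (T.l 2)) (T.l 2)) (T.l 2)) (T.l 2)) (T.l 2)), by decide +kernel⟩

def B011R_002_1_32_1 :
    ∃ t, chk3 (onCell 0 50331648 0 1073741824 50331648 16777216 (corTK [[⟨0, 0, 1, 25165824⟩, ⟨1, 1, 2, 25165824⟩, ⟨2, 1, 0, 8388608⟩, ⟨0, 0, 0, 83886080⟩, ⟨0, 1, 0, 1040187392⟩, ⟨1, 0, 0, 1040187392⟩, ⟨1, 1, 0, 83886080⟩]] false 3 c0N cB011R gN0q0 gN0q1 gN2q1 gN3q1 true true)) t 1 32 1 = true :=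
  ⟨(T.b (T.b (T.b (T.a (T.a (T.a (T.l 204) (T.l 204)) (T.a (T.a (T.l 204) (T.a (T.l 476) (T.c (T.l 204) (T.l 204)))) (T.a (T.a (T.c (T.l 204) (T.l 204)) (T.c (T.l 476) (T.l 460))) (T.a (T.c (T.c (T.l 476) (T.l 476)) (T.l 476)) (T.c (T.c (T.l 476) (T.l 476)) (T.c (T.l 476) (T.l 460))))))) (T.c (T.a (T.a (T.a (T.a (T.a (T.l 476) (T.l 476)) (T.a (T.l 476) (T.l 476))) (T.a (T.c (T.a (T.l 476) (T.l 476)) (T.a (T.l 476) (T.l 476))) (T.c (T.a (T.l 476) (T.b (T.l 476) (T.l 476))) (T.a (T.l 476) (T.l 476))))) (T.a (T.a (T.c (T.b (T.a (T.l 476) (T.l 476)) (T.l 476)) (T.a (T.l 476) (T.l 476))) (T.a (T.c (T.a (T.l 476) (T.c (T.l 476) (T.l 476))) (T.a (T.l 476) (T.l 476))) (T.l 1024))) (T.l 1024))) (T.l 1024)) (T.b (T.a (T.a (T.a (T.a (T.l 476) (T.c (T.l 476) (T.l 476))) (T.a (T.a (T.l 476) (T.l 476)) (T.a (T.l 476) (T.l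 476)))) (T.a (T.a (T.a (T.l 476) (T.l 476)) (T.a (T.a (T.l 476) (T.l 476)) (T.a (T.l 476) (T.l 476)))) (T.a (T.a (T.a (T.l 476) (T.l 476)) (T.a (T.l 476) (T.l 476))) (T.a (T.a (T.l 476) (T.l 476)) (T.a (T.l 476) (T.l 476)))))) (T.a (T.a (T.a (T.a (T.a (T.l 476) (T.l 476)) (T.c (T.l 1024) (T.l 476))) (T.c (T.l 1024) (T.a (T.l 476) (T.l 476)))) (T.a (T.c (T.l 1024) (T.a (T.l 476) (T.l 476))) (T.l 1024))) (T.l 1024))) (T.a (T.a (T.a (T.a (T.l 476) (T.l 476)) (T.a (T.l 476) (T.c (T.l 476) (T.l 476)))) (T.a (T.a (T.l 476) (T.a (T.c (T.l 476) (T.l 476)) (T.c (T.l 476) (T.l 476)))) (T.a (T.a (T.c (T.l 476) (T.l 476)) (T.l 476)) (T.a (T.l 476) (T.l 476))))) (T.a (T.a (T.a (T.a (T.l 476) (T.l 476)) (T.a (T.l 476) (T.c (T.l 1024) (T.l 476)))) (T.a (T.c (T.l 1024) (T.a (T.l 476) (T.l 476))) (T.l 1024))) (T.l 1024))))))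 (T.a (T.a (T.l 204) (T.a (T.a (T.l 204) (T.a (T.l 204) (T.l 476))) (T.a (T.a (T.l 476) (T.c (T.l 204) (T.l 204))) (T.a (T.c (T.l 476) (T.l 204)) (T.c (T.l 476) (T.l 460)))))) (T.c (T.a (T.a (T.a (T.a (T.l 476) (T.l 476)) (T.a (T.l 476) (T.c (T.l 476) (T.l 476)))) (T.a (T.a (T.c (T.l 476) (T.l 476)) (T.a (T.c (T.l 476) (T.l 476)) (T.c (T.l 476) (T.l 476)))) (T.l 1024))) (T.l 1024)) (T.b (T.a (T.a (T.a (T.a (T.l 476) (T.l 476)) (T.a (T.l 476) (T.l 476))) (T.a (T.a (T.l 476) (T.a (T.l 476) (T.l 476))) (T.a (T.a (T.l 476) (T.l 476)) (T.a (T.l 476) (T.l 476))))) (T.a (T.a (T.a (T.a (T.l 476) (T.l 476)) (T.a (T.l 476) (T.l 476))) (T.a (T.a (T.l 476) (T.l 476)) (T.l 1024))) (T.l 1024))) (T.a (T.a (T.a (T.a (T.l 204) (T.l 476)) (T.a (T.l 476) (T.l 476))) (T.a (T.a (T.l 476) (T.a (T.l 476) (T.l 476))) (T.a (T.a (T.l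 476) (T.l 476)) (T.a (T.l 476) (T.l 476))))) (T.a (T.a (T.a (T.a (T.l 476) (T.l 476)) (T.c (T.l 1024) (T.l 476))) (T.a (T.c (T.l 1024) (T.l 476)) (T.l 1024))) (T.l 1024))))))) (T.b (T.a (T.a (T.l 204) (T.a (T.a (T.l 204) (T.a (T.l 204) (T.l 204))) (T.a (T.a (T.l 220) (T.l 476)) (T.a (T.l 476) (T.c (T.l 220) (T.l 204)))))) (T.c (T.a (T.a (T.a (T.a (T.l 476) (T.l 476)) (T.a (T.l 476) (T.l 476))) (T.a (T.a (T.l 476) (T.a (T.l 476) (T.l 476))) (T.l 1024))) (T.l 1024)) (T.b (T.a (T.a (T.a (T.c (T.l 476) (T.l 476)) (T.c (T.l 476) (T.l 476))) (T.a (T.a (T.l 476) (T.a (T.l 476) (T.l 476))) (T.a (T.a (T.l 476) (T.l 476)) (T.c (T.l 476) (T.l 476))))) (T.a (T.a (T.a (T.c (T.l 476) (T.l 476)) (T.c (T.l 1024) (T.l 476))) (T.a (T.c (T.l 1024) (T.l 476)) (T.l 1024))) (T.l 1024))) (T.a (T.a (T.a (T.l 476) (T.c (T.l 476)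 (T.l 476))) (T.a (T.a (T.l 476) (T.a (T.l 476) (T.l 476))) (T.a (T.c (T.l 476) (T.l 476)) (T.c (T.l 476) (T.l 476))))) (T.a (T.a (T.a (T.c (T.l 476) (T.l 476)) (T.l 476)) (T.a (T.l 476) (T.l 1024))) (T.l 1024)))))) (T.a (T.a (T.l 204) (T.a (T.a (T.l 204) (T.a (T.l 204) (T.l 204))) (T.a (T.a (T.l 204) (T.l 220)) (T.a (T.l 220) (T.l 476))))) (T.c (T.a (T.a (T.a (T.c (T.l 476) (T.l 476)) (T.c (T.l 476) (T.l 476))) (T.a (T.a (T.l 476) (T.a (T.l 476) (T.l 476))) (T.l 1024))) (T.l 1024)) (T.a (T.a (T.a (T.l 476) (T.c (T.l 476) (T.l 476))) (T.a (T.a (T.l 220) (T.a (T.l 476) (T.l 476))) (T.a (T.c (T.l 476) (T.l 476)) (T.c (T.l 476) (T.l 476))))) (T.a (T.a (T.a (T.l 476) (T.l 476)) (T.a (T.l 476) (T.l 476))) (T.l 1024))))))) (T.b (T.b (T.a (T.a (T.l 204) (T.a (T.a (T.l 204) (T.a (T.l 204) (T.l 204))) (T.a (T.a (T.l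 204) (T.l 204)) (T.a (T.l 204) (T.l 220))))) (T.a (T.a (T.a (T.c (T.l 476) (T.l 476)) (T.a (T.l 476) (T.l 476))) (T.a (T.a (T.l 476) (T.a (T.l 476) (T.l 476))) (T.c (T.l 1024) (T.a (T.l 476) (T.l 476))))) (T.a (T.c (T.l 1024) (T.a (T.a (T.l 476) (T.l 476)) (T.a (T.l 476) (T.l 476)))) (T.l 1024)))) (T.a (T.a (T.l 204) (T.a (T.a (T.l 204) (T.a (T.l 204) (T.l 204))) (T.a (T.a (T.l 204) (T.l 204)) (T.c (T.l 476) (T.l 220))))) (T.a (T.a (T.a (T.c (T.l 476) (T.l 220)) (T.c (T.l 476) (T.l 476))) (T.a (T.a (T.l 476) (T.a (T.l 476) (T.l 476))) (T.c (T.l 1024) (T.a (T.l 476) (T.l 476))))) (T.a (T.c (T.l 1024) (T.a (T.a (T.l 476) (T.l 476)) (T.a (T.l 476) (T.l 476)))) (T.l 1024))))) (T.b (T.a (T.a (T.l 204) (T.a (T.a (T.l 204) (T.a (T.l 204) (T.l 204))) (T.a (T.c (T.l 476) (T.l 220)) (T.c (T.l 220) (T.l 204))))) (T.a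 (T.a (T.a (T.c (T.l 220) (T.l 204)) (T.c (T.l 476) (T.l 476))) (T.a (T.a (T.l 476) (T.c (T.l 476) (T.l 476))) (T.c (T.l 1024) (T.a (T.l 476) (T.l 476))))) (T.a (T.c (T.l 1024) (T.a (T.a (T.l 476) (T.l 476)) (T.a (T.l 476) (T.l 476)))) (T.l 1024)))) (T.a (T.a (T.l 204) (T.a (T.a (T.l 204) (T.a (T.l 204) (T.l 204))) (T.a (T.c (T.l 220) (T.l 204)) (T.c (T.l 220) (T.l 204))))) (T.a (T.a (T.a (T.c (T.l 220) (T.l 204)) (T.c (T.l 476) (T.l 220))) (T.a (T.a (T.l 220) (T.c (T.l 476) (T.l 476))) (T.a (T.c (T.l 476) (T.l 220)) (T.c (T.l 1024) (T.l 220))))) (T.a (T.c (T.l 1024) (T.a (T.a (T.l 220) (T.l 220)) (T.a (T.l 476) (T.l 476)))) (T.l 1024))))))), by decide +kernel⟩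

def B011R_002_1_33_1 :
    ∃ t, chk3 (onCell 0 50331648 0 1073741824 50331648 16777216 (corTK [[⟨0, 0, 1, 25165824⟩, ⟨1, 1, 2, 25165824⟩, ⟨2, 1, 0, 8388608⟩, ⟨0, 0, 0, 83886080⟩, ⟨0, 1, 0, 1040187392⟩, ⟨1, 0, 0, 1040187392⟩, ⟨1, 1, 0, 83886080⟩]] false 3 c0N cB011R gN0q0 gN0q1 gN2q1 gN3q1 true true)) t 1 33 1 = true :=
  ⟨(T.b (T.b (T.b (T.a (T.a (T.l 204) (T.a (T.a (T.l 204) (T.a (T.l 204) (T.l 204))) (T.a (T.c (T.l 220) (T.l 204)) (T.c (T.l 204) (T.l 204))))) (T.a (T.a (T.a (T.l 476) (T.c (T.l 220) (T.l 204))) (T.a (T.a (T.l 204) (T.c (T.l 476) (T.l 476))) (T.a (T.c (T.l 476) (T.l 220)) (T.l 476)))) (T.a (T.c (T.l 1024) (T.a (T.a (T.l 220) (T.l 220)) (T.c (T.l 1024) (T.l 476)))) (T.l 1024)))) (T.a (T.a (T.l 204) (T.a (T.a (T.l 204) (T.c (T.l 220) (T.l 204))) (T.a (T.c (T.l 204) (T.l 204)) (T.l 476))))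 (T.a (T.a (T.a (T.l 220) (T.l 476)) (T.a (T.a (T.l 204) (T.c (T.l 476) (T.l 220))) (T.a (T.l 476) (T.l 476)))) (T.a (T.c (T.l 1024) (T.a (T.a (T.l 204) (T.l 204)) (T.c (T.l 1024) (T.l 476)))) (T.l 1024))))) (T.b (T.a (T.a (T.l 204) (T.a (T.a (T.l 204) (T.c (T.l 220) (T.l 204))) (T.a (T.c (T.l 204) (T.l 204)) (T.l 220)))) (T.a (T.a (T.a (T.l 220) (T.l 476)) (T.a (T.a (T.l 204) (T.c (T.l 476) (T.l 220))) (T.a (T.l 476) (T.l 476)))) (T.a (T.c (T.l 1024) (T.a (T.a (T.l 204) (T.l 204)) (T.c (T.l 1024) (T.l 476)))) (T.l 1024)))) (T.a (T.a (T.l 204) (T.a (T.a (T.l 204) (T.c (T.l 220) (T.l 204))) (T.a (T.l 220) (T.l 220)))) (T.a (T.a (T.a (T.l 220) (T.l 476)) (T.a (T.a (T.l 204) (T.l 476)) (T.a (T.l 476) (T.l 476)))) (T.a (T.c (T.l 1024) (T.a (T.a (T.l 204) (T.l 204)) (T.c (T.l 1024) (T.l 476)))) (T.l 1024))))))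 (T.b (T.b (T.a (T.a (T.l 204) (T.a (T.a (T.l 204) (T.c (T.l 204) (T.l 204))) (T.a (T.l 220) (T.l 220)))) (T.a (T.a (T.a (T.l 220) (T.l 220)) (T.a (T.a (T.l 204) (T.l 476)) (T.a (T.l 476) (T.l 476)))) (T.c (T.l 1024) (T.a (T.a (T.c (T.l 476) (T.l 476)) (T.l 476)) (T.a (T.l 476) (T.l 1024)))))) (T.a (T.a (T.l 204) (T.a (T.a (T.l 204) (T.c (T.l 204) (T.l 204))) (T.a (T.l 220) (T.l 220)))) (T.a (T.a (T.a (T.l 204) (T.l 220)) (T.a (T.a (T.l 204) (T.l 476)) (T.a (T.l 220) (T.l 220)))) (T.c (T.l 1024) (T.a (T.a (T.c (T.l 476) (T.l 476)) (T.l 476)) (T.a (T.l 476) (T.l 1024))))))) (T.b (T.a (T.a (T.l 204) (T.a (T.a (T.l 204) (T.c (T.l 204) (T.l 204))) (T.a (T.l 220) (T.l 204)))) (T.a (T.a (T.a (T.l 204) (T.l 204)) (T.a (T.a (T.l 204) (T.l 476)) (T.a (T.l 220) (T.l 220)))) (T.c (T.l 1024) (T.a (T.a (T.c (T.l 476) (T.l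 476)) (T.l 476)) (T.a (T.l 476) (T.l 1024)))))) (T.a (T.a (T.l 204) (T.a (T.a (T.l 204) (T.c (T.l 204) (T.l 204))) (T.a (T.l 220) (T.l 204)))) (T.a (T.a (T.a (T.l 204) (T.l 204)) (T.a (T.a (T.l 204) (T.l 476)) (T.a (T.l 220) (T.l 220)))) (T.c (T.l 1024) (T.a (T.a (T.c (T.l 476) (T.l 476)) (T.l 476)) (T.a (T.l 476) (T.l 1024))))))))), by decide +kernel⟩

def B011R_002_1_17_1 :
    ∃ t, chk3 (onCell 0 50331648 0 1073741824 50331648 16777216 (corTK [[⟨0, 0, 1, 25165824⟩, ⟨1, 1, 2, 25165824⟩, ⟨2, 1, 0, 8388608⟩, ⟨0, 0, 0, 83886080⟩, ⟨0, 1, 0, 1040187392⟩, ⟨1, 0, 0, 1040187392⟩, ⟨1, 1, 0, 83886080⟩]] false 3 c0N cB011R gN0q0 gN0q1 gN2q1 gN3q1 true true)) t 1 17 1 = true :=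
  ⟨(T.b (T.b (T.b (T.b (T.a (T.a (T.l 204) (T.a (T.a (T.l 204) (T.c (T.l 204) (T.l 204))) (T.a (T.l 204) (T.l 204)))) (T.a (T.a (T.a (T.l 204) (T.l 204)) (T.a (T.a (T.l 204) (T.l 220)) (T.a (T.l 220) (T.l 220)))) (T.c (T.l 1024) (T.a (T.a (T.c (T.l 476) (T.l 476)) (T.l 476)) (T.a (T.l 476) (T.l 1024)))))) (T.a (T.a (T.l 204) (T.a (T.a (T.l 204) (T.c (T.l 204) (T.l 204))) (T.a (T.l 204) (T.l 204)))) (T.a (T.a (T.a (T.l 204) (T.l 204)) (T.a (T.a (T.l 204) (T.l 220)) (T.a (T.l 204) (T.l 204)))) (T.c (T.l 1024) (T.a (T.a (T.l 476) (T.l 476)) (T.a (T.l 476) (T.l 1024))))))) (T.b (T.a (T.a (T.l 204) (T.a (T.a (T.l 204) (T.l 220)) (T.a (T.l 204) (T.l 204)))) (T.a (T.a (T.a (T.l 204) (T.l 204)) (T.a (T.a (T.l 204) (T.l 220)) (T.a (T.l 204) (T.l 204)))) (T.a (T.c (T.l 1024) (T.a (T.l 476) (T.l 476))) (T.a (T.c (T.l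 1024) (T.l 220)) (T.l 1024))))) (T.a (T.a (T.l 204) (T.a (T.a (T.l 204) (T.l 220)) (T.a (T.l 204) (T.l 204)))) (T.a (T.a (T.a (T.l 204) (T.l 204)) (T.a (T.a (T.l 204) (T.l 220)) (T.a (T.l 204) (T.l 204)))) (T.a (T.c (T.l 1024) (T.a (T.l 476) (T.l 476))) (T.a (T.c (T.l 1024) (T.l 220)) (T.l 1024))))))) (T.b (T.b (T.a (T.a (T.l 204) (T.a (T.a (T.l 204) (T.l 220)) (T.a (T.l 204) (T.l 204)))) (T.a (T.a (T.a (T.l 204) (T.l 204)) (T.a (T.a (T.l 204) (T.l 204)) (T.a (T.l 204) (T.l 204)))) (T.a (T.c (T.l 1024) (T.a (T.l 476) (T.l 220))) (T.a (T.c (T.l 1024) (T.l 220)) (T.l 1024))))) (T.a (T.a (T.l 204) (T.a (T.a (T.l 204) (T.l 220)) (T.a (T.l 204) (T.l 204)))) (T.a (T.a (T.a (T.l 204) (T.l 204)) (T.a (T.a (T.l 204) (T.l 204)) (T.a (T.l 204) (T.l 204)))) (T.a (T.c (T.l 1024) (T.a (T.l 476) (T.l 220))) (T.a (T.c (T.l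 1024) (T.l 220)) (T.l 1024)))))) (T.b (T.a (T.a (T.l 204) (T.a (T.a (T.l 204) (T.l 220)) (T.a (T.l 204) (T.l 204)))) (T.a (T.a (T.a (T.l 204) (T.l 204)) (T.a (T.a (T.l 204) (T.l 204)) (T.a (T.l 204) (T.l 204)))) (T.a (T.c (T.l 1024) (T.a (T.l 476) (T.l 220))) (T.a (T.c (T.l 1024) (T.l 220)) (T.l 1024))))) (T.a (T.a (T.l 204) (T.a (T.a (T.l 204) (T.l 220)) (T.a (T.l 204) (T.l 204)))) (T.a (T.a (T.c (T.l 476) (T.l 220)) (T.a (T.a (T.l 204) (T.l 204)) (T.a (T.l 204) (T.l 204)))) (T.a (T.c (T.l 1024) (T.a (T.l 476) (T.l 220))) (T.a (T.c (T.l 1024) (T.l 204)) (T.l 1024)))))))) (T.b (T.b (T.b (T.a (T.a (T.l 204) (T.a (T.a (T.l 204) (T.l 204)) (T.a (T.l 204) (T.l 204)))) (T.a (T.a (T.c (T.l 220) (T.l 220)) (T.a (T.a (T.l 204) (T.l 204)) (T.a (T.l 204) (T.l 204)))) (T.a (T.c (T.l 1024) (T.a (T.l 220) (T.l 220)))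 (T.a (T.c (T.l 1024) (T.l 204)) (T.l 1024))))) (T.a (T.a (T.l 204) (T.a (T.a (T.l 204) (T.l 204)) (T.a (T.l 204) (T.l 204)))) (T.a (T.a (T.c (T.l 220) (T.l 220)) (T.a (T.a (T.l 204) (T.l 204)) (T.a (T.l 204) (T.l 204)))) (T.a (T.c (T.l 1024) (T.a (T.l 220) (T.l 204))) (T.a (T.c (T.l 1024) (T.l 204)) (T.l 1024)))))) (T.b (T.a (T.a (T.l 204) (T.a (T.a (T.l 204) (T.l 204)) (T.a (T.l 204) (T.l 204)))) (T.a (T.a (T.c (T.l 220) (T.l 220)) (T.a (T.a (T.l 204) (T.l 204)) (T.a (T.l 204) (T.l 204)))) (T.a (T.c (T.l 1024) (T.a (T.l 220) (T.l 204))) (T.a (T.l 476) (T.l 1024))))) (T.a (T.a (T.l 204) (T.a (T.a (T.l 204) (T.l 204)) (T.a (T.l 204) (T.l 204)))) (T.a (T.a (T.c (T.l 220) (T.l 204)) (T.a (T.a (T.l 204) (T.l 204)) (T.a (T.l 204) (T.l 204)))) (T.a (T.c (T.l 1024) (T.a (T.l 220) (T.l 204))) (T.a (T.l 476) (T.l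 1024))))))) (T.b (T.b (T.a (T.a (T.l 204) (T.a (T.a (T.l 204) (T.l 204)) (T.a (T.l 204) (T.l 204)))) (T.c (T.a (T.a (T.l 220) (T.a (T.a (T.l 204) (T.l 204)) (T.c (T.l 220) (T.l 220)))) (T.a (T.a (T.l 476) (T.l 1024)) (T.l 1024))) (T.b (T.a (T.a (T.l 204) (T.a (T.a (T.l 204) (T.l 204)) (T.l 476))) (T.a (T.a (T.l 220) (T.l 204)) (T.a (T.l 204) (T.l 204)))) (T.a (T.a (T.l 204) (T.a (T.a (T.l 204) (T.l 204)) (T.l 476))) (T.a (T.a (T.l 220) (T.l 204)) (T.a (T.l 204) (T.l 204))))))) (T.a (T.a (T.l 204) (T.a (T.a (T.l 204) (T.l 204)) (T.a (T.l 204) (T.l 204)))) (T.c (T.b (T.a (T.a (T.l 220) (T.a (T.a (T.l 204) (T.l 204)) (T.c (T.l 220) (T.l 220)))) (T.a (T.a (T.l 220) (T.l 1024)) (T.l 1024))) (T.a (T.a (T.l 220) (T.a (T.a (T.l 204) (T.l 204)) (T.c (T.l 220) (T.l 220)))) (T.a (T.a (T.l 220) (T.l 1024)) (T.l 1024))))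 (T.b (T.a (T.a (T.l 204) (T.a (T.a (T.l 204) (T.l 204)) (T.l 476))) (T.a (T.a (T.l 204) (T.l 204)) (T.a (T.l 204) (T.l 204)))) (T.a (T.a (T.l 204) (T.a (T.a (T.l 204) (T.l 204)) (T.l 476))) (T.a (T.a (T.l 204) (T.l 204)) (T.a (T.l 204) (T.l 204)))))))) (T.b (T.a (T.a (T.l 204) (T.a (T.a (T.l 204) (T.l 204)) (T.a (T.l 204) (T.l 204)))) (T.c (T.b (T.a (T.a (T.l 220) (T.a (T.a (T.l 204) (T.l 204)) (T.c (T.l 220) (T.l 220)))) (T.a (T.a (T.l 220) (T.l 1024)) (T.l 1024))) (T.a (T.a (T.l 220) (T.a (T.a (T.l 204) (T.l 204)) (T.l 476))) (T.a (T.a (T.l 220) (T.l 1024)) (T.l 1024)))) (T.b (T.a (T.a (T.l 204) (T.a (T.a (T.l 204) (T.l 204)) (T.l 476))) (T.a (T.a (T.l 204) (T.l 204)) (T.a (T.l 204) (T.l 204)))) (T.a (T.a (T.l 204) (T.a (T.a (T.l 204) (T.l 204)) (T.l 476))) (T.a (T.a (T.l 204) (T.l 204)) (T.a (T.l 204)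 (T.l 204))))))) (T.a (T.a (T.l 204) (T.a (T.a (T.l 204) (T.l 204)) (T.a (T.l 204) (T.l 204)))) (T.c (T.b (T.a (T.a (T.l 220) (T.a (T.a (T.l 204) (T.l 204)) (T.l 476))) (T.a (T.a (T.l 220) (T.l 1024)) (T.l 1024))) (T.a (T.a (T.l 204) (T.a (T.a (T.l 204) (T.l 204)) (T.l 272))) (T.a (T.a (T.l 220) (T.l 1024)) (T.l 1024)))) (T.b (T.a (T.a (T.l 204) (T.a (T.a (T.l 204) (T.l 204)) (T.l 220))) (T.a (T.a (T.l 204) (T.l 204)) (T.a (T.l 204) (T.l 204)))) (T.a (T.a (T.l 204) (T.a (T.a (T.l 204) (T.l 204)) (T.l 16))) (T.a (T.a (T.l 204) (T.l 204)) (T.a (T.l 204) (T.l 204))))))))))), by decide +kernel⟩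

def B011R_002_1_9_1 :
    ∃ t, chk3 (onCell 0 50331648 0 1073741824 50331648 16777216 (corTK [[⟨0, 0, 1, 25165824⟩, ⟨1, 1, 2, 25165824⟩, ⟨2, 1, 0, 8388608⟩, ⟨0, 0, 0, 83886080⟩, ⟨0, 1, 0, 1040187392⟩, ⟨1, 0, 0, 1040187392⟩, ⟨1, 1, 0, 83886080⟩]] false 3 c0N cB011R gN0q0 gN0q1 gN2q1 gN3q1 true true)) t 1 9 1 = true :=
  ⟨(T.b (T.b (T.b (T.b (T.b (T.a (T.a (T.l 204) (T.a (T.a (T.l 204) (T.l 204)) (T.a (T.l 204) (T.l 204)))) (T.c (T.b (T.a (T.a (T.l 204) (T.a (T.a (T.l 204) (T.l 204)) (T.l 272))) (T.a (T.a (T.l 220) (T.l 1024)) (T.l 1024))) (T.a (T.a (T.l 204) (T.a (T.a (T.l 204) (T.l 204)) (T.l 272))) (T.a (T.a (T.l 220) (T.l 1024)) (T.l 1024)))) (T.b (T.a (T.a (T.l 204) (T.a (T.a (T.l 204) (T.l 204)) (T.l 16))) (T.a (T.a (T.l 204) (T.l 204)) (T.a (T.l 204) (T.l 204)))) (T.a (T.a (T.l 204) (T.a (T.a (T.l 204)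 (T.l 204)) (T.l 16))) (T.a (T.a (T.l 204) (T.l 204)) (T.a (T.l 204) (T.l 204))))))) (T.a (T.a (T.l 204) (T.a (T.a (T.l 204) (T.l 204)) (T.a (T.l 204) (T.l 204)))) (T.c (T.b (T.a (T.a (T.l 204) (T.a (T.a (T.l 204) (T.l 204)) (T.l 272))) (T.a (T.a (T.l 220) (T.l 1024)) (T.l 1024))) (T.a (T.a (T.l 204) (T.a (T.a (T.l 204) (T.l 204)) (T.l 272))) (T.a (T.a (T.l 16) (T.l 1024)) (T.l 1024)))) (T.b (T.a (T.a (T.l 204) (T.a (T.a (T.l 204) (T.l 204)) (T.l 16))) (T.a (T.a (T.l 204) (T.l 204)) (T.a (T.l 204) (T.l 204)))) (T.a (T.a (T.l 204) (T.a (T.a (T.l 204) (T.l 204)) (T.l 16))) (T.a (T.a (T.l 204) (T.l 204)) (T.a (T.l 204) (T.l 204)))))))) (T.b (T.a (T.a (T.l 204) (T.c (T.b (T.c (T.b (T.a (T.a (T.l 204) (T.l 204)) (T.a (T.l 204) (T.l 204))) (T.l 2)) (T.b (T.a (T.a (T.l 204) (T.l 204)) (T.a (T.l 204) (T.l 204))) (T.l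 2))) (T.l 2)) (T.b (T.c (T.b (T.a (T.a (T.l 204) (T.l 204)) (T.a (T.l 204) (T.l 204))) (T.l 2)) (T.b (T.a (T.a (T.l 204) (T.l 204)) (T.l 220)) (T.l 2))) (T.l 2)))) (T.c (T.b (T.a (T.a (T.l 204) (T.a (T.a (T.l 204) (T.l 204)) (T.l 272))) (T.l 2)) (T.l 2)) (T.b (T.a (T.a (T.l 204) (T.a (T.a (T.l 204) (T.l 204)) (T.l 16))) (T.l 2)) (T.l 2)))) (T.l 2))) (T.l 2)) (T.l 2)) (T.l 2)), by decide +kernel⟩

def B011R_002_1_5_1 :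
    ∃ t, chk3 (onCell 0 50331648 0 1073741824 50331648 16777216 (corTK [[⟨0, 0, 1, 25165824⟩, ⟨1, 1, 2, 25165824⟩, ⟨2, 1, 0, 8388608⟩, ⟨0, 0, 0, 83886080⟩, ⟨0, 1, 0, 1040187392⟩, ⟨1, 0, 0, 1040187392⟩, ⟨1, 1, 0, 83886080⟩]] false 3 c0N cB011R gN0q0 gN0q1 gN2q1 gN3q1 true true)) t 1 5 1 = true :=
  ⟨(T.l 2), by decide +kernel⟩

def B011R_002_1_3_1 :
    ∃ t, chk3 (onCell 0 50331648 0 1073741824 50331648 16777216 (corTK [[⟨0, 0, 1, 25165824⟩, ⟨1, 1, 2, 25165824⟩, ⟨2, 1, 0, 8388608⟩, ⟨0, 0, 0, 83886080⟩, ⟨0, 1, 0, 1040187392⟩, ⟨1, 0, 0, 1040187392⟩, ⟨1, 1, 0, 83886080⟩]] false 3 c0N cB011R gN0q0 gN0q1 gN2q1 gN3q1 true true)) t 1 3 1 = true :=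
  ⟨(T.l 2), by decide +kernel⟩

theorem B011R_002_1_16_1 :
    ∃ t, chk3 (onCell 0 50331648 0 1073741824 50331648 16777216 (corTK [[⟨0, 0, 1, 25165824⟩, ⟨1, 1, 2, 25165824⟩, ⟨2, 1, 0, 8388608⟩, ⟨0, 0, 0, 83886080⟩, ⟨0, 1, 0, 1040187392⟩, ⟨1, 0, 0, 1040187392⟩, ⟨1, 1, 0, 83886080⟩]] false 3 c0N cB011R gN0q0 gN0q1 gN2q1 gN3q1 true true)) t 1 16 1 = true :=
  ex3_b B011R_002_1_32_1 B011R_002_1_33_1
theorem B011R_002_1_8_1 :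
    ∃ t, chk3 (onCell 0 50331648 0 1073741824 50331648 16777216 (corTK [[⟨0, 0, 1, 25165824⟩, ⟨1, 1, 2, 25165824⟩, ⟨2, 1, 0, 8388608⟩, ⟨0, 0, 0, 83886080⟩, ⟨0, 1, 0, 1040187392⟩, ⟨1, 0, 0, 1040187392⟩, ⟨1, 1, 0, 83886080⟩]] false 3 c0N cB011R gN0q0 gN0q1 gN2q1 gN3q1 true true)) t 1 8 1 = true :=
  ex3_b B011R_002_1_16_1 B011R_002_1_17_1
theorem B011R_002_1_4_1 :
    ∃ t, chk3 (onCell 0 50331648 0 1073741824 50331648 16777216 (corTK [[⟨0, 0, 1, 25165824⟩, ⟨1, 1, 2, 25165824⟩, ⟨2, 1, 0, 8388608⟩, ⟨0, 0, 0, 83886080⟩, ⟨0, 1, 0, 1040187392⟩, ⟨1, 0, 0, 1040187392⟩, ⟨1, 1, 0, 83886080⟩]] false 3 c0N cB011R gN0q0 gN0q1 gN2q1 gN3q1 true true)) t 1 4 1 = true :=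
  ex3_b B011R_002_1_8_1 B011R_002_1_9_1
theorem B011R_002_1_2_1 :
    ∃ t, chk3 (onCell 0 50331648 0 1073741824 50331648 16777216 (corTK [[⟨0, 0, 1, 25165824⟩, ⟨1, 1, 2, 25165824⟩, ⟨2, 1, 0, 8388608⟩, ⟨0, 0, 0, 83886080⟩, ⟨0, 1, 0, 1040187392⟩, ⟨1, 0, 0, 1040187392⟩, ⟨1, 1, 0, 83886080⟩]] false 3 c0N cB011R gN0q0 gN0q1 gN2q1 gN3q1 true true)) t 1 2 1 = true :=
  ex3_b B011R_002_1_4_1 B011R_002_1_5_1
theorem B011R_002 :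
    ∃ t, chk3 (onCell 0 50331648 0 1073741824 50331648 16777216 (corTK [[⟨0, 0, 1, 25165824⟩, ⟨1, 1, 2, 25165824⟩, ⟨2, 1, 0, 8388608⟩, ⟨0, 0, 0, 83886080⟩, ⟨0, 1, 0, 1040187392⟩, ⟨1, 0, 0, 1040187392⟩, ⟨1, 1, 0, 83886080⟩]] false 3 c0N cB011R gN0q0 gN0q1 gN2q1 gN3q1 true true)) t 1 1 1 = true :=
  ex3_b B011R_002_1_2_1 B011R_002_1_3_1

def B011R_003 :
    ∃ t, chk3 (onCell 0 50331648 0 1073741824 50331648 16777216 (corTK [[⟨0, 0, 1, 25165824⟩, ⟨1, 1, 2, 25165824⟩, ⟨2, 1, 0, 8388608⟩, ⟨0, 0, 0, 83886080⟩, ⟨0, 1, 0, 1040187392⟩, ⟨1, 0, 0, 1040187392⟩, ⟨1, 1, 0, 83886080⟩]] false 3 c0N cB011R gN0q0 gN0q1 gN3q1 gN4q1 true true)) t 1 1 1 = true :=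
  ⟨(T.b (T.b (T.b (T.l 1) (T.b (T.b (T.b (T.b (T.a (T.l 1) (T.b (T.l 1) (T.c (T.b (T.l 1) (T.a (T.a (T.l 1) (T.l 204)) (T.a (T.l 204) (T.l 1024)))) (T.a (T.a (T.l 1) (T.l 204)) (T.l 220))))) (T.b (T.a (T.a (T.l 204) (T.a (T.c (T.l 220) (T.l 204)) (T.l 204))) (T.a (T.a (T.l 204) (T.l 204)) (T.a (T.l 204) (T.l 204)))) (T.a (T.a (T.l 204) (T.a (T.c (T.l 220) (T.l 204)) (T.l 204))) (T.a (T.a (T.l 204) (T.l 204)) (T.a (T.l 204) (T.l 204)))))) (T.a (T.a (T.l 204) (T.a (T.a (T.l 204) (T.l 204)) (T.l 204))) (T.a (T.a (T.l 204) (T.l 204)) (T.a (T.l 204) (T.l 220))))) (T.a (T.a (T.l 204) (T.a (T.a (T.l 204) (T.l 204)) (T.b (T.l 220) (T.l 220)))) (T.a (T.a (T.l 204) (T.l 220)) (T.a (T.b (T.l 204) (T.l 204)) (T.b (T.l 220) (T.l 204)))))) (T.a (T.a (T.l 204) (T.a (T.a (T.l 204) (T.b (T.l 204) (T.l 204))) (T.a (T.l 204)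 (T.l 204)))) (T.a (T.a (T.a (T.l 204) (T.b (T.l 204) (T.l 204))) (T.b (T.b (T.l 220) (T.l 220)) (T.b (T.l 204) (T.l 204)))) (T.a (T.b (T.b (T.l 204) (T.l 204)) (T.b (T.l 204) (T.l 204))) (T.b (T.b (T.l 204) (T.l 204)) (T.b (T.l 204) (T.l 204)))))))) (T.b (T.b (T.a (T.a (T.l 0) (T.a (T.a (T.l 204) (T.l 0)) (T.a (T.b (T.l 0) (T.l 0)) (T.b (T.l 204) (T.l 4))))) (T.a (T.a (T.a (T.b (T.l 0) (T.l 0)) (T.b (T.l 0) (T.l 0))) (T.b (T.b (T.l 0) (T.l 0)) (T.a (T.l 0) (T.l 0)))) (T.a (T.b (T.b (T.l 204) (T.l 0)) (T.b (T.l 0) (T.l 68))) (T.b (T.b (T.l 204) (T.l 0)) (T.b (T.l 0) (T.l 0)))))) (T.b (T.b (T.a (T.a (T.l 0) (T.a (T.a (T.l 0) (T.l 0)) (T.a (T.b (T.l 0) (T.l 0)) (T.l 0)))) (T.a (T.a (T.a (T.l 0) (T.l 0)) (T.c (T.l 0) (T.l 0))) (T.a (T.b (T.l 0) (T.l 0)) (T.b (T.l 0) (T.l 0))))) (T.b (T.b (T.a (T.a (T.l 816) (T.a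 (T.a (T.l 816) (T.l 0)) (T.a (T.l 0) (T.l 0)))) (T.a (T.a (T.a (T.l 0) (T.l 0)) (T.c (T.l 0) (T.l 0))) (T.a (T.l 0) (T.l 0)))) (T.a (T.a (T.c (T.b (T.l 816) (T.c (T.b (T.a (T.a (T.l 2) (T.a (T.l 2) (T.l 2))) (T.l 816)) (T.l 2)) (T.b (T.a (T.a (T.l 2) (T.a (T.l 2) (T.l 2))) (T.l 816)) (T.l 2)))) (T.b (T.l 816) (T.c (T.b (T.a (T.c (T.b (T.l 816) (T.l 2)) (T.b (T.l 816) (T.l 2))) (T.l 816)) (T.l 2)) (T.b (T.a (T.c (T.b (T.l 816) (T.l 2)) (T.a (T.l 2) (T.l 816))) (T.l 816)) (T.l 2))))) (T.a (T.a (T.c (T.b (T.l 816) (T.c (T.b (T.l 816) (T.l 2)) (T.b (T.l 816) (T.l 2)))) (T.c (T.a (T.b (T.l 816) (T.b (T.l 816) (T.l 2))) (T.l 816)) (T.l 816))) (T.c (T.a (T.a (T.l 816) (T.l 816)) (T.l 816)) (T.a (T.c (T.l 816) (T.l 816)) (T.l 816)))) (T.a (T.a (T.l 816) (T.l 0)) (T.c (T.l 0) (T.l 0))))) (T.a (T.a (T.a (T.l 0) (T.l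 0)) (T.c (T.l 0) (T.l 0))) (T.a (T.l 0) (T.l 0))))) (T.b (T.a (T.a (T.l 2) (T.a (T.l 2) (T.l 2))) (T.c (T.b (T.a (T.a (T.c (T.b (T.a (T.a (T.l 816) (T.l 816)) (T.l 816)) (T.l 2)) (T.b (T.a (T.a (T.l 816) (T.l 816)) (T.l 816)) (T.l 2))) (T.a (T.c (T.b (T.l 816) (T.l 2)) (T.b (T.l 816) (T.l 2))) (T.a (T.l 816) (T.l 816)))) (T.a (T.a (T.l 816) (T.l 816)) (T.l 0))) (T.a (T.l 2) (T.a (T.l 2) (T.c (T.b (T.a (T.a (T.l 816) (T.l 816)) (T.l 816)) (T.l 2)) (T.b (T.a (T.l 816) (T.l 816)) (T.l 2)))))) (T.b (T.a (T.a (T.c (T.b (T.a (T.a (T.l 816) (T.l 816)) (T.l 816)) (T.l 2)) (T.b (T.a (T.a (T.l 816) (T.l 816)) (T.l 816)) (T.l 2))) (T.a (T.c (T.b (T.l 816) (T.l 2)) (T.b (T.l 816) (T.l 2))) (T.c (T.l 816) (T.l 816)))) (T.a (T.a (T.l 816) (T.l 816)) (T.l 0))) (T.a (T.l 2) (T.a (T.l 2) (T.c (T.b (T.a (T.l 816) (T.l 816))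 (T.l 2)) (T.b (T.a (T.l 816) (T.l 816)) (T.l 2)))))))) (T.l 2)))) (T.l 2))) (T.l 2))) (T.l 2)), by decide +kernel⟩

def B011R_101 :
    ∃ t, chk3 (onCell 0 50331648 0 1073741824 50331648 16777216 (corTK [] false 3 c0N cB011R gN1q0 gN0q1 gN1q1 gN2q1 false true)) t 1 1 1 = true :=
  ⟨(T.l 2), by decide +kernel⟩

def B011R_102 :
    ∃ t, chk3 (onCell 0 50331648 0 1073741824 50331648 16777216 (corTK [] false 3 c0N cB011R gN1q0 gN0q1 gN2q1 gN3q1 true true)) t 1 1 1 = true :=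
  ⟨(T.l 2), by decide +kernel⟩

def B011R_103 :
    ∃ t, chk3 (onCell 0 50331648 0 1073741824 50331648 16777216 (corTK [] false 3 c0N cB011R gN1q0 gN0q1 gN3q1 gN4q1 true true)) t 1 1 1 = true :=
  ⟨(T.l 2), by decide +kernel⟩

def B011R_201 :
    ∃ t, chk3 (onCell 0 50331648 0 1073741824 50331648 16777216 (corTK [] false 3 c0N cB011R gN2q0 gN0q1 gN1q1 gN2q1 false true)) t 1 1 1 = true :=
  ⟨(T.l 2), by decide +kernel⟩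

def B011R_202 :
    ∃ t, chk3 (onCell 0 50331648 0 1073741824 50331648 16777216 (corTK [] false 3 c0N cB011R gN2q0 gN0q1 gN2q1 gN3q1 true true)) t 1 1 1 = true :=
  ⟨(T.l 2), by decide +kernel⟩

def B011R_203 :
    ∃ t, chk3 (onCell 0 50331648 0 1073741824 50331648 16777216 (corTK [] false 3 c0N cB011R gN2q0 gN0q1 gN3q1 gN4q1 true true)) t 1 1 1 = true :=
  ⟨(T.l 2), by decide +kernel⟩

end Pool.Agent.Strip051.G.I3_64_1_16.Tab.CN
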