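import Pool.Agent.Strip051.G.I3_64_1_16.Tab
import Pool.Agent.Strip051.PB.RowK

/-! # Certificates N0 (generated) -/

set_option linter.all false
set_option maxRecDepth 100000

namespace Pool.Agent.Strip051.G.I3_64_1_16.Tab.C.NA00

open Pool.Agent.Strip051.PB Pool.Agent.Strip051.PB.T
open Pool.Agent.Strip051.G.I3_64_1_16.Tab

noncomputable def f_pp_001 : ℕ → ℕ → ℕ → ℕ → Bool := onCell 0 536870912 0 536870912 50331648 16777216
    (rowNK 3 0 true true true .up 0 0 1 (qsf 0 536870912 0 536870912 1) ndN0q0 ndN0q0 pcN1 Cut.none Ext.none)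

def k0_pp_001 : ∃ t, chk3 f_pp_001 t 1 1 1 = true :=
  ⟨(l 4), by decide +kernel⟩

theorem c_pp_001 : CertN 0 536870912 0 536870912 50331648 16777216 3 true true true .up 0 0 1
    ndN0q0 ndN0q0 pcN1 Cut.none Ext.none :=
  certNK0 (fam := true) (s1 := true) (s2 := true) (a := 0) (b := 0) (c := 1) (cn := .up) (n1 := ndN0q0) (n2 := ndN0q0) (pc := pcN1) (cut := Cut.none) (xt := Ext.none) (P1 := 0) (W1 := 536870912) (P2 := 0) (W2 := 536870912) (P3 := 50331648) (W3 := 16777216) (N0 := 3)
    rfl rfl rfl k0_pp_001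

noncomputable def cut_pp_011 : Cut := Cut.of [[⟨0, 0, 0, 50331648⟩, ⟨1, 1, 0, 50331648⟩, ⟨2, 1, 0, 50331648⟩]]

noncomputable def f_pp_011 : ℕ → ℕ → ℕ → ℕ → Bool := onCell 0 536870912 536870912 536870912 50331648 16777216
    (rowNK 3 0 true true true .pnn 0 1 1 (qsf 0 536870912 536870912 536870912 1) ndN0q0 ndN0q1 pcN1 cut_pp_011 Ext.none)

def k0_pp_011 : ∃ t, chk3 f_pp_011 t 1 1 1 = true :=
  ⟨(a (b (l 4) (b (l 4) (a (a (a (b (l 4) (b (l 4) (l 6))) (l 4)) (l 4)) (l 4)))) (l 4)), by decide +kernel⟩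

theorem c_pp_011 : CertN 0 536870912 536870912 536870912 50331648 16777216 3 true true true .pnn 0 1 1
    ndN0q0 ndN0q1 pcN1 cut_pp_011 Ext.none :=
  certNK0 (fam := true) (s1 := true) (s2 := true) (a := 0) (b := 1) (c := 1) (cn := .pnn) (n1 := ndN0q0) (n2 := ndN0q1) (pc := pcN1) (cut := cut_pp_011) (xt := Ext.none) (P1 := 0) (W1 := 536870912) (P2 := 536870912) (W2 := 536870912) (P3 := 50331648) (W3 := 16777216) (N0 := 3)
    rfl rfl rfl k0_pp_011

noncomputable def cut_pp_012 : Cut := Cut.of [[⟨0, 0, 0, 50331648⟩, ⟨1, 1, 0, 50331648⟩, ⟨2, 1, 0, 50331648⟩]]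

noncomputable def f_pp_012 : ℕ → ℕ → ℕ → ℕ → Bool := onCell 0 536870912 536870912 536870912 50331648 16777216
    (rowNK 3 0 true true true .pnp 0 1 2 (qsf 0 536870912 536870912 536870912 2) ndN0q0 ndN0q1 pcN2 cut_pp_012 Ext.none)

def k0_pp_012 : ∃ t, chk3 f_pp_012 t 1 1 1 = true :=
  ⟨(a (b (l 4) (b (l 4) (a (b (l 4) (a (b (l 4) (a (l 6) (l 4))) (l 4))) (l 4)))) (l 4)), by decide +kernel⟩

theorem c_pp_012 : CertN 0 536870912 536870912 536870912 50331648 16777216 3 true true true .pnp 0 1 2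
    ndN0q0 ndN0q1 pcN2 cut_pp_012 Ext.none :=
  certNK0 (fam := true) (s1 := true) (s2 := true) (a := 0) (b := 1) (c := 2) (cn := .pnp) (n1 := ndN0q0) (n2 := ndN0q1) (pc := pcN2) (cut := cut_pp_012) (xt := Ext.none) (P1 := 0) (W1 := 536870912) (P2 := 536870912) (W2 := 536870912) (P3 := 50331648) (W3 := 16777216) (N0 := 3)
    rfl rfl rfl k0_pp_012

noncomputable def cut_pp_022 : Cut := Cut.of [[⟨0, 0, 0, 50331648⟩, ⟨1, 1, 0, 50331648⟩, ⟨2, 1, 0, 50331648⟩]]

noncomputable def f_pp_022 : ℕ → ℕ → ℕ → ℕ → Bool := onCell 0 536870912 0 536870912 50331648 16777216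
    (rowNK 3 0 true true true .pp 0 2 2 (qsf 0 536870912 0 536870912 2) ndN0q0 ndN0q2 pcN2 cut_pp_022 Ext.none)

def k0_pp_022 : ∃ t, chk3 f_pp_022 t 2 2 1 = true :=
  ⟨(a (a (b (l 18834720) (a (l 18867320) (l 18422952))) (b (l 18294432) (a (l 18175640) (l 17968520)))) (b (l 18165560) (a (b (l 17805176) (l 17651088)) (b (l 17528592) (b (l 17365328) (l 17368344)))))), by decide +kernel⟩

def k1_pp_022 : ∃ t, chk3 f_pp_022 t 4 6 1 = true :=
  ⟨(a (b (a (a (l 18568136) (l 18414272)) (l 18178096)) (a (b (a (l 18292704) (l 18182648)) (a (a (b (l 18072416) (a (l 17839832) (l 17879800))) (l 17908912)) (b (l 18017424) (l 17882288)))) (b (l 17963384) (a (l 17834608) (l 17695296))))) (b (a (l 17896288) (l 17656048)) (a (b (l 17677192) (a (l 17554656) (l 17420136))) (b (l 17427280) (b (l 17286720) (l 17055216)))))), by decide +kernel⟩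

def k2_pp_022 : ∃ t, chk3 f_pp_022 t 8 14 1 = true :=
  ⟨(a (b (a (a (a (b (c (l 17763928) (b (l 17422976) (l 17182056))) (c (b (l 17509408) (a (l 17242784) (l 17341088))) (l 16788096))) (b (l 17399704) (b (l 17210248) (a (l 17076480) (l 17186296))))) (a (b (l 17681904) (a (l 17156400) (l 17280080))) (b (l 17711864) (l 17241792)))) (b (a (l 17727472) (l 17711640)) (a (b (l 17579040) (l 17447656)) (l 17538976)))) (a (a (b (a (b (l 16772360) (l 16771544)) (b (l 16818912) (l 16774776))) (a (b (a (l 16767576) (l 16769152)) (l 6)) (b (l 16771392) (a (l 16768096) (l 16769448))))) (a (b (b (l 16946976) (l 16814248)) (b (l 16774160) (l 16771336))) (b (b (l 17153488) (l 16948680)) (b (l 16810160) (l 16773648))))) (b (a (a (b (l 17325232) (l 17102000)) (b (l 17366352) (l 17244056))) (b (l 17393536) (l 17246720))) (a (b (a (l 16908648) (l 17050352)) (a (l 16787488) (l 16849264))) (b (a (l 17162408) (l 17189744)) (a (l 16957736) (l 17060208))))))) (b (b (a (l 17644056) (l 17518712))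 (a (l 17390432) (l 17383320))) (b (a (a (l 17300208) (l 17311200)) (a (l 17262544) (l 17204384))) (a (a (b (l 17201912) (a (l 17101048) (l 17106440))) (b (l 17183216) (l 17095376))) (b (a (l 17141224) (l 17086696)) (a (l 17057752) (l 17005344))))))), by decide +kernel⟩

def k3_pp_022 : ∃ t, chk3 f_pp_022 t 16 15 1 = true :=
  ⟨(b (a (a (l 6) (b (a (b (a (l 16768744) (l 16769864)) (l 6)) (b (b (l 16771904) (l 16770984)) (b (l 16770272) (l 16769760)))) (l 6))) (b (a (b (a (l 16773264) (l 16769320)) (a (b (l 16771976) (l 16771368)) (b (l 16773416) (l 16772712)))) (b (a (l 16772200) (l 16825472)) (a (b (l 16829144) (l 16773800)) (l 16776416)))) (a (b (a (b (l 16770968) (l 6)) (b (l 16772216) (l 16771928))) (a (l 6) (b (a (l 6) (l 16772080)) (l 6)))) (b (a (b (l 16773208) (l 16772824)) (b (l 16798608) (l 16773456))) (a (b (a (l 16772480) (l 16772824)) (a (l 16772544) (l 16772840))) (b (a (l 16773088) (l 16773296)) (a (l 16773064) (l 16773224)))))))) (a (l 6) (b (a (l 6)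 (b (b (a (a (l 6) (b (l 16772992) (l 6))) (a (b (l 16773184) (l 16773336)) (b (l 16773312) (l 16773440)))) (a (l 6) (b (a (l 6) (b (l 16773568) (l 16778912))) (a (l 6) (a (l 6) (b (b (c (l 16785920) (l 16785880)) (l 16787160)) (b (l 16783176) (l 6)))))))) (l 6))) (l 6)))), by decide +kernel⟩

def k4_pp_022 : ∃ t, chk3 f_pp_022 t 34 60 1 = true :=
  ⟨(a (b (a (l 16938536) (l 16992176)) (a (l 16775720) (l 16777632))) (b (a (l 17012088) (l 17001712)) (a (b (l 16947720) (l 16907024)) (b (l 16939024) (l 16899072))))), by decide +kernel⟩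

def k5_pp_022 : ∃ t, chk3 f_pp_022 t 68 61 1 = true :=
  ⟨(b (a (b (l 16822720) (l 16773944)) (b (l 16843904) (l 16774344))) (a (b (a (l 16773480) (l 16787968)) (a (l 16773696) (b (l 16773576) (l 16773472)))) (a (b (l 16778384) (b (l 16784560) (l 16778224))) (b (l 16784560) (b (l 16790128) (l 16783072)))))), by decide +kernel⟩

def k6_pp_022 : ∃ t, chk3 f_pp_022 t 69 61 1 = true :=
  ⟨(b (b (a (l 16848200) (l 16840520)) (a (a (l 16835520) (l 16834304)) (b (l 16835440) (l 16798368)))) (b (a (a (b (l 16813784) (l 16801464)) (l 16774240)) (b (a (l 16807688) (l 16800696)) (a (l 16784000) (b (l 16790320) (a (l 16786016) (a (l 16780328) (b (l 16782328) (b (b (l 16780784) (l 39963335831)) (b (a (l 53385109207) (l 92576685719)) (l 87207977095)))))))))) (a (b (a (l 16791224) (l 16780784)) (a (l 16780792) (b (a (l 16783104) (b (l 16781864) (a (l 16780648) (b (l 22783466983) (b (a (l 16780528) (l 83449880135)) (l 79154913639)))))) (a (a (b (l 16780984) (b (l 16780032) (b (l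 16780848) (a (l 16780432) (l 78618041975))))) (a (b (l 16780352) (b (b (l 16780464) (l 65196269303)) (l 92039814727))) (b (l 19025370503) (l 89892330087)))) (b (a (a (b (l 16780352) (a (l 70028107511) (l 88281718359))) (b (b (l 51774496375) (l 81839267351)) (l 4))) (l 95797910407)) (l 4)))))) (b (a (b (l 16780528) (a (b (l 16783512) (a (l 16781952) (b (l 16781080) (l 25467821671)))) (a (b (l 16781192) (b (b (l 32447143463) (a (l 16780944) (l 88281718439))) (l 86671107255))) (b (b (b (l 16780584) (l 34057756167)) (b (a (l 44258303495) (l 89355460215)) (l 82913009831))) (l 4))))) (b (a (a (a (l 16781168) (b (l 16782208) (b (l 16780576) (l 73786204215)))) (b (b (l 16781488) (b (l 16780696) (l 36742110583))) (a (a (b (l 53921980199) (l 4)) (l 85597365447)) (l 95261039463)))) (b (b (a (b (l 38352723207) (a (l 51237625511) (l 92576685687))) (l 4)) (l 91502943223)) (l 4))) (a (l 91502946295) (l 4)))) (a (b (a (b (b (a (l 16780528) (b (a (l 16780592) (l 86671105671)) (l 80765526119)))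 (a (b (l 29762788871) (a (l 16780560) (l 85060492903))) (l 95797910311))) (a (b (l 85060494439) (l 4)) (l 4))) (l 4)) (l 4)) (l 4)))))), by decide +kernel⟩

def k7_pp_022 : ∃ t, chk3 f_pp_022 t 35 60 1 = true :=
  ⟨(b (a (b (l 16994952) (l 16953384)) (b (l 16943704) (l 16860632))) (a (b (l 16849608) (a (l 16883080) (l 16840384))) (b (a (l 16875592) (l 16826408)) (a (b (l 16845520) (l 16804816)) (b (l 16796120) (a (l 16783544) (b (l 16784216) (a (l 16783368) (b (a (l 16785560) (l 28689047703)) (a (b (l 16780888) (l 66270013191)) (l 84523621031))))))))))), by decide +kernel⟩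

def k8_pp_022 : ∃ t, chk3 f_pp_022 t 35 122 1 = true :=
  ⟨(a (b (a (b (l 16854552) (l 16836280)) (b (l 16832536) (l 16777408))) (a (b (l 16797784) (a (l 16807088) (l 16786280))) (b (a (l 16781152) (b (l 16783568) (a (l 16783256) (b (l 16781696) (a (l 24930951335) (b (l 52311367479) (l 90966072183))))))) (a (b (l 16781440) (b (a (l 16786160) (a (l 21172854807) (a (b (l 16781056) (l 82376138903)) (l 83449884535)))) (b (a (l 16780640) (a (a (l 60901302583) (l 90429202343)) (l 4))) (a (a (l 16782800) (a (l 16781064) (l 71101849799))) (l 4))))) (b (a (a (b (l 16783800) (b (l 30836530423) (a (l 64122528039) (l 92576686023)))) (b (b (l 16781920) (a (l 40500207463) (l 76470558967))) (l 91502943223))) (a (a (b (l 79154914535) (l 4)) (l 95797910823)) (l 4))) (l 4)))))) (b (a (b (l 16780192) (b (a (l 16799072) (a (l 16783504) (b (l 15804145799) (a (a (l 16781048) (l 41037078823)) (l 73249333175))))) (a (a (l 16793208) (l 16781224)) (a (b (a (l 16783712) (a (l 30299659479) (l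 55532593175))) (a (a (l 46405787991) (l 78618046215)) (l 4))) (l 89892336183))))) (b (b (a (a (l 16793504) (a (l 16788088) (l 17414758631))) (a (b (b (l 23857209527) (a (l 16782320) (l 76470559175))) (a (l 64122528503) (l 4))) (l 94187298215))) (a (a (b (l 16781128) (b (l 20099113063) (a (l 16782520) (l 73249334023)))) (b (a (a (l 26541563351) (l 45332045847)) (l 76470557351)) (l 92039814247))) (l 4))) (a (b (a (a (a (b (l 50700755063) (l 4)) (l 84523621351)) (l 4)) (l 4)) (l 4)) (l 4)))) (a (b (a (b (a (a (l 16780672) (b (l 16784832) (b (l 25467821479) (l 54995721655)))) (b (a (a (l 16782504) (l 36205240551)) (a (l 60364430983) (l 89355459415))) (l 85597368535))) (a (a (b (b (a (l 16781664) (l 59827560711)) (l 78081172215)) (l 4)) (l 94187298151)) (l 4))) (l 4)) (l 4)) (l 4)))), by decide +kernel⟩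

def k9_pp_022 : ∃ t, chk3 f_pp_022 t 35 123 1 = true :=
  ⟨(a (b (a (b (a (l 16781200) (b (a (l 16787672) (b (l 16784112) (a (l 16781256) (b (a (l 16781064) (l 67880624311)) (l 84523621111))))) (b (b (a (l 16783112) (a (a (a (l 16780808) (l 65196269703)) (l 86134235223)) (l 4))) (a (a (l 16782664) (a (l 16781048) (l 65196269751))) (l 95797910695))) (a (a (a (l 27078434727) (b (l 37278981815) (l 83449880695))) (l 86671110119)) (l 4))))) (a (a (b (a (l 16784776) (a (l 16783056) (a (l 16780896) (b (l 16783208) (a (l 32447142887) (l 40500207511)))))) (b (a (a (l 22246596327) (b (l 16780728) (l 78618042551))) (a (b (l 69491237127) (l 4)) (l 95797910487))) (l 93113556183))) (b (b (a (l 16781792) (b (a (l 16781016) (a (l 51774496679) (l 73786204183))) (l 80765527255))) (b (a (b (a (l 16780776) (l 76470558663)) (l 73786204631)) (l 4)) (l 93650426967))) (l 4))) (b (l 95261046023) (l 4)))) (b (a (b (a (b (a (a (l 31910273047) (b (l 45332045879) (l 88281718823))) (l 88818588599))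 (l 95261039975)) (l 4)) (l 4)) (l 4)) (l 4))) (l 4)) (l 4)), by decide +kernel⟩

def k10_pp_022 : ∃ t, chk3 f_pp_022 t 68 248 1 = true :=
  ⟨(a (b (a (l 16773424) (l 16783984)) (b (a (l 16773496) (a (l 16794520) (b (l 16794520) (l 16795368)))) (a (l 16784040) (a (l 16784824) (b (l 16786176) (l 16787464)))))) (a (a (b (l 16784008) (b (a (b (l 16795576) (l 16786392)) (l 16786744)) (l 16780968))) (b (l 16787184) (b (l 16783016) (b (b (l 16780688) (a (l 16779520) (a (l 24930949991) (a (b (l 16780736) (l 89355459479)) (l 85060492551))))) (b (a (b (l 16779984) (a (l 16780056) (a (l 16780376) (l 78618041319)))) (a (l 81839267367) (l 4))) (a (a (b (a (l 16780232) (l 56069462935)) (l 75396816215)) (l 89892330823)) (l 4))))))) (b (a (l 16781240) (b (l 16780096) (b (l 16779144) (b (l 16780848) (a (l 16779680) (a (l 31373401207) (a (l 72712461895) (l 90429201687)))))))) (b (b (a (l 16780448) (a (a (b (l 16780056) (a (b (l 16780384) (l 76470557863)) (l 77007429191))) (b (b (l 16780696)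 (c (l 68417494455) (l 67880623415))) (l 95797909879))) (l 91502945431))) (a (a (a (l 16779672) (a (l 16780680) (b (l 16779968) (b (l 16780400) (l 82913008711))))) (b (a (l 28152175607) (b (a (l 52848237543) (l 85060492407)) (l 92576685111))) (l 89355461527))) (l 4))) (a (a (a (b (b (b (a (l 16780304) (l 61438172183)) (l 78618041703)) (l 4)) (l 4)) (l 94187297559)) (l 4)) (l 4)))))), by decide +kernel⟩

def k11_pp_022 : ∃ t, chk3 f_pp_022 t 136 249 1 = true :=
  ⟨(b (a (b (a (l 16784104) (l 16785408)) (a (l 16785976) (l 16782712))) (b (a (l 16782152) (b (l 16783512) (b (l 16781840) (a (l 16779360) (a (l 16780728) (a (b (l 16780272) (l 81302395767)) (l 80228654295))))))) (a (b (l 16781440) (b (a (l 16779272) (a (l 16779992) (b (a (l 16780192) (l 67343752007)) (l 81839266791)))) (b (a (l 16779744) (a (a (l 53921979095) (l 85597362823)) (l 4))) (a (a (l 16779808) (a (l 16780152) (l 65196268327))) (l 95797909575))))) (b (b (a (b (l 16779824) (a (l 16779888) (a (l 16780232)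 (l 70028106615)))) (a (a (b (l 59290688343) (l 92576684743)) (l 90966072295)) (l 4))) (a (a (a (l 30299658439) (b (l 44258302519) (l 87744846535))) (l 86134234231)) (l 4))) (l 94724168327))))) (a (a (b (l 16780648) (b (a (a (l 16779168) (b (l 16779352) (b (l 16779808) (l 31373400391)))) (b (a (c (l 16780192) (l 16779792)) (b (c (l 33520884055) (l 32984013015)) (a (l 68417493703) (l 92576684439)))) (b (a (a (a (l 16780088) (l 51774494999)) (l 78081169991)) (l 4)) (l 92576683879)))) (a (b (b (a (l 16779928) (a (a (l 57680075111) (l 78081169799)) (l 92576684375))) (a (l 6) (l 4))) (l 92576683911)) (l 4)))) (b (b (b (l 16781680) (a (l 16779192) (a (l 16779912) (b (a (l 16780112) (l 62511913687)) (l 79154912199))))) (a (a (a (l 16780408) (b (l 16779688) (b (l 16780128) (l 80228653703)))) (b (b (l 16779896) (c (l 35131496743) (l 35131496727))) (b (a (l 70564977415) (l 92576684487)) (l 4)))) (a (a (b (b (c (l 47479527831) (l 47479527767)) (l 90429200967)) (l 4)) (l 91502942183))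 (l 4)))) (b (l 94187299831) (l 4)))) (b (a (b (b (a (a (a (l 26541562023) (b (l 16780528) (l 83986750039))) (l 83986750631)) (l 4)) (l 94724168055)) (l 4)) (l 4)) (l 4)))), by decide +kernel⟩

def k12_pp_022 : ∃ t, chk3 f_pp_022 t 137 249 1 = true :=
  ⟨(b (a (b (a (b (b (a (l 16779440) (a (l 16780640) (a (b (l 16780344) (l 85060492247)) (l 82913008791)))) (a (b (l 16779904) (a (l 16779968) (a (l 16780304) (l 74323074007)))) (b (a (a (l 64122526631) (l 92576684903)) (l 4)) (l 95261038871)))) (b (a (a (a (c (l 35668367239) (l 34594625479)) (b (l 50163882759) (l 91502943031))) (l 88281717975)) (l 4)) (l 95261039175))) (l 4)) (l 4)) (l 4)) (l 4)), by decide +kernel⟩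

def k13_pp_022 : ∃ t, chk3 f_pp_022 t 69 124 1 = true :=
  ⟨(b (a (b (a (a (a (b (l 16780080) (a (b (l 16779824) (a (b (b (l 16780456) (l 80765525159)) (l 4)) (l 88281719751))) (b (b (l 16780000) (b (l 37278981223) (l 72175591015))) (l 95261039223)))) (b (c (l 16780752) (l 16780424)) (b (b (a (l 34594626807) (l 79691784071)) (l 92039813639)) (l 4)))) (b (b (a (l 16779880) (b (l 16780824) (a (c (l 37815852247) (l 37815852167)) (l 81839267639)))) (a (a (b (l 16780208) (b (a (l 16780520) (l 76470557991)) (l 87207976327))) (b (b (l 42110819559) (l 75396816503)) (l 95261039127))) (l 93650426615))) (l 4))) (b (a (b (b (b (a (a (l 63585656503) (l 4)) (l 4)) (l 94187297591)) (l 4)) (l 4)) (l 4)) (l 4))) (l 4)) (l 4)) (l 4)), by decide +kernel⟩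

def k14_pp_022 : ∃ t, chk3 f_pp_022 t 34 125 1 = true :=
  ⟨(l 4), by decide +kernel⟩

def k15_pp_022 : ∃ t, chk3 f_pp_022 t 35 62 1 = true :=
  ⟨(l 4), by decide +kernel⟩

def k16_pp_022 : ∃ t, chk3 f_pp_022 t 17 63 1 = true :=
  ⟨(l 4), by decide +kernel⟩

def k17_pp_022 : ∃ t, chk3 f_pp_022 t 18 14 1 = true :=
  ⟨(b (a (b (l 17383168) (l 17252760)) (b (l 17250320) (l 17100848))) (b (a (a (l 17141632) (l 17077224)) (b (l 16975528) (a (l 16975664) (l 16870296)))) (a (b (a (l 17025912) (l 16962568)) (a (l 16903584) (b (l 16902872) (a (l 16878176) (l 16825432))))) (b (a (b (l 16918288) (l 16837128)) (b (a (l 16870744) (l 16818528)) (b (l 16783896) (a (l 16800776) (a (l 16787896) (b (a (l 16781304) (l 30836532487)) (a (b (l 24930950887) (l 54458852007)) (l 79154911463)))))))) (a (a (b (l 16855096) (b (l 16803792) (a (l 16791360) (c (l 7751081351) (l 16780760))))) (b (b (l 16833352) (l 16792280)) (b (a (l 16779968) (b (a (l 16783704) (l 17414758535)) (a (a (l 16780920)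 (l 36742111703)) (l 69491239687)))) (a (b (a (l 16779232) (b (l 16781904) (l 54458851767))) (a (b (l 34594627767) (l 69491236967)) (l 4))) (l 89355470231))))) (b (a (b (a (l 16788712) (b (l 16778080) (a (l 16782528) (l 24394080903)))) (a (a (l 16783120) (b (l 16780344) (a (l 32984015319) (l 58216950407)))) (a (b (a (l 16781200) (l 43721433815)) (l 83986749703)) (l 82913018711)))) (b (b (a (a (l 16782288) (b (l 35668369975) (l 68954363719))) (l 4)) (l 94187318935)) (l 4))) (a (b (a (b (a (b (l 42110820839) (l 75933685591)) (l 4)) (l 4)) (l 4)) (l 4)) (l 4)))))))), by decide +kernel⟩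

def k18_pp_022 : ∃ t, chk3 f_pp_022 t 19 14 1 = true :=
  ⟨(b (b (a (l 17124624) (l 16923696)) (a (b (l 17030256) (l 16900496)) (b (a (l 16941944) (l 16843800)) (a (b (l 16892352) (l 16816368)) (a (l 16791240) (b (l 16801664) (b (l 16786976) (a (l 34057761623) (l 74859965559))))))))) (b (a (a (b (l 16902752) (a (a (l 16852424) (l 16837088)) (l 16782864))) (b (b (l 16860512) (a (l 16860568) (l 16810136))) (b (b (l 16783104) (a (l 16793832) (a (l 16782392) (b (l 42110823943) (l 76470557255))))) (a (b (a (l 16782624) (b (l 16783088) (l 37815856327))) (a (b (l 16784400) (a (l 32447145479) (l 70564976791))) (l 80228674983))) (b (l 91502974903) (l 4)))))) (b (a (b (a (l 16816824) (l 16783192)) (a (a (l 16788424) (b (l 16783120) (b (l 16780304) (l 46942662375)))) (b (a (l 26004696999) (l 68417503367)) (l 93650448711)))) (b (a (b (a (l 16786792) (l 45332051671)) (l 73786223159)) (l 110293427927)) (l 4))) (a (b (a (b (a (b (l 16783144) (l 63585665079)) (l 85060492775)) (l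 4)) (l 4)) (l 4)) (l 4)))) (a (b (a (b (a (b (l 16797384) (a (l 16785744) (a (l 16784832) (b (l 16782112) (l 37278983767))))) (b (a (l 16785176) (b (a (l 16789280) (l 43721434951)) (l 68954374295))) (a (b (a (l 26004694007) (l 65196267383)) (l 81839266487)) (l 4)))) (a (b (a (b (l 16781728) (a (l 16781152) (l 59290692327))) (b (a (l 48016402103) (l 4)) (l 4))) (l 102240383591)) (l 4))) (b (l 128010191463) (l 4))) (l 4)) (l 4)))), by decide +kernel⟩

def k19_pp_022 : ∃ t, chk3 f_pp_022 t 36 120 1 = true :=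
  ⟨(a (b (l 16842280) (a (l 16837440) (a (l 16814296) (b (l 16829936) (l 16788320))))) (b (a (b (l 16847464) (l 16805896)) (b (a (l 16823640) (l 16786760)) (a (l 16782072) (b (l 16781864) (a (a (l 16782816) (l 22783467111)) (b (a (l 26004691655) (l 58753818055)) (l 78081169079))))))) (a (b (l 4529855879) (a (b (l 16788192) (b (l 16780504) (a (l 16789808) (a (l 16781456) (l 48016400407))))) (b (a (l 14730403575) (b (a (l 16781088) (l 51774496631)) (l 73786204647))) (a (b (a (l 36742111063) (l 74323072967)) (l 4)) (l 4))))) (b (a (b (a (l 16781112) (b (l 16781088) (a (l 16780704) (l 54995721799)))) (a (b (l 21709725463) (a (l 40500207367) (l 82913007447))) (l 81839268535))) (b (a (b (a (l 44258303575) (l 4)) (l 4)) (l 4)) (l 4))) (l 4))))), by decide +kernel⟩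

def k20_pp_022 : ∃ t, chk3 f_pp_022 t 36 121 1 = true :=
  ⟨(a (b (a (b (l 16806648) (l 16780968)) (b (b (l 16780744) (a (l 16778304) (a (l 16782376) (a (b (l 16784424) (l 56069464343)) (b (l 44258304199) (l 4)))))) (a (a (b (l 16782480) (b (l 16780232) (a (l 16781104) (l 63585657239)))) (a (b (l 16781960) (b (l 52311368039) (l 4))) (b (b (l 16785888) (l 40500207831)) (l 4)))) (b (a (b (a (l 28689047495) (l 66806882087)) (l 83986749991)) (l 4)) (l 4))))) (a (b (a (b (l 16778656) (a (l 16793384) (a (l 16782504) (b (l 16786464) (l 32984015143))))) (b (a (l 16782968) (a (b (l 16785056) (l 48553271735)) (b (l 36742111463) (l 89892330071)))) (b (a (a (a (l 16783744) (l 32984014695)) (l 59827561079)) (l 4)) (l 86134236871)))) (a (b (a (a (l 16780200) (b (l 16784216) (a (l 44795174279) (l 76470559255)))) (a (b (b (l 31910272679) (l 69491237975)) (l 4)) (l 90429201351))) (a (b (a (l 68954365655) (l 4)) (l 4)) (l 4))) (l 4))) (b (a (l 91502954807) (l 4)) (l 4)))) (b (a (b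 (a (b (a (b (l 16782184) (a (l 32447143863) (l 71101847591))) (b (l 71638721079) (l 4))) (l 91502953959)) (l 4)) (l 4)) (l 4)) (l 4))), by decide +kernel⟩

def k21_pp_022 : ∃ t, chk3 f_pp_022 t 37 60 1 = true :=
  ⟨(b (a (b (a (b (a (b (l 16786496) (a (l 16780256) (a (l 17951628823) (a (l 35668369255) (l 49627013095))))) (b (b (a (l 16787728) (a (l 29762788007) (l 66806880727))) (a (l 30836531111) (l 4))) (a (l 75396819783) (l 4)))) (a (b (a (b (l 27615305527) (l 63585656631)) (l 85060491287)) (l 4)) (l 4))) (l 4)) (l 4)) (l 4)) (l 4)), by decide +kernel⟩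

def k22_pp_022 : ∃ t, chk3 f_pp_022 t 18 61 1 = true :=
  ⟨(l 4), by decide +kernel⟩

def k23_pp_022 : ∃ t, chk3 f_pp_022 t 19 30 1 = true :=
  ⟨(l 4), by decide +kernel⟩

def k24_pp_022 : ∃ t, chk3 f_pp_022 t 9 31 1 = true :=
  ⟨(l 4), by decide +kernel⟩

def k25_pp_022 : ∃ t, chk3 f_pp_022 t 5 3 1 = true :=
  ⟨(b (a (b (a (l 17449896) (b (l 17341784) (l 17194576))) (b (a (l 17086592) (a (l 17006752) (b (l 17026880) (l 16872432)))) (a (b (a (l 17120960) (l 17020000)) (a (l 16972888) (b (l 16941264) (a (l 16910480) (l 16819712))))) (b (a (b (l 16951024) (l 16837008)) (a (l 16816576) (b (l 16819944) (b (l 16792744) (l 87208014343))))) (a (a (b (l 16848840) (b (l 16807608) (l 30836548215))) (b (l 16792736) (l 96871753575))) (b (b (l 89892450487) (l 115125309655)) (l 4))))))) (b (b (a (l 17181416) (l 17159568)) (a (a (l 17069696) (l 17138000)) (b (l 16878032) (a (b (l 16895904) (l 16811960)) (b (l 16802944) (l 71638791335)))))) (a (b (b (a (l 16943536) (l 16817032))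 (b (a (l 16812408) (a (l 16815624) (l 86134273735))) (a (a (l 16827320) (l 28689070007)) (l 110293491255)))) (b (a (b (a (l 38889622631) (l 107072221559)) (l 123715250983)) (l 4)) (l 4))) (b (b (a (b (a (l 16829296) (l 46405817191)) (l 96334863015)) (l 122641498583)) (l 4)) (l 4))))) (a (b (b (a (b (a (b (l 16866176) (a (l 16873976) (l 16800752))) (b (a (b (l 16867384) (l 16795920)) (b (l 16797712) (a (l 16790912) (l 82913026839)))) (a (b (a (l 16799192) (l 28689058279)) (a (l 40500220535) (l 97408545255))) (l 115125309863)))) (a (b (a (b (l 16805840) (a (l 16807792) (l 17414765863))) (b (a (l 16787608) (b (l 16785072) (l 71638739223))) (b (l 87744907943) (l 109219707047)))) (a (b (a (b (l 16783128) (l 39426474455)) (l 92039876487)) (l 113514675175)) (l 4))) (b (l 128547095175) (l 4)))) (b (a (b (a (l 105461671687) (l 4)) (l 4)) (l 4)) (l 4))) (l 4)) (l 4)) (l 4))), by decide +kernel⟩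

def k26_pp_022 : ∃ t, chk3 f_pp_022 t 3 1 1 = true :=
  ⟨(b (a (b (a (l 17688160) (b (l 17461920) (l 17323712))) (a (b (l 17403752) (a (b (l 17165528) (l 17078768)) (b (l 17039304) (a (l 16981800) (l 16856232))))) (b (a (l 17183192) (b (l 17041768) (l 16903872))) (b (a (l 16896744) (b (a (l 16861608) (l 48016457719)) (l 80228792791))) (a (b (a (l 16828912) (l 61438240807)) (l 95798052759)) (l 125862811047)))))) (b (l 2) (b (l 2) (b (l 2) (l 4))))) (a (b (b (a (a (b (b (l 17016440) (a (l 16913344) (l 31373464151))) (b (a (b (l 16813640) (l 49090191159)) (l 104924787687)) (l 119420349399))) (b (b (a (l 16835144) (l 86671191047)) (l 107072328247)) (l 4))) (l 4)) (l 4)) (l 4)) (l 4))), by decide +kernel⟩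

theorem s27_pp_022 : ∃ t, chk3 f_pp_022 t 36 60 1 = true := ex3_b k19_pp_022 k20_pp_022

theorem s28_pp_022 : ∃ t, chk3 f_pp_022 t 18 60 1 = true := ex3_a s27_pp_022 k21_pp_022

theorem s29_pp_022 : ∃ t, chk3 f_pp_022 t 18 30 1 = true := ex3_b s28_pp_022 k22_pp_022

theorem s30_pp_022 : ∃ t, chk3 f_pp_022 t 9 30 1 = true := ex3_a s29_pp_022 k23_pp_022

theorem s31_pp_022 : ∃ t, chk3 f_pp_022 t 9 15 1 = true := ex3_b s30_pp_022 k24_pp_022

theorem s32_pp_022 : ∃ t, chk3 f_pp_022 t 9 14 1 = true := ex3_a k17_pp_022 k18_pp_022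

theorem s33_pp_022 : ∃ t, chk3 f_pp_022 t 9 7 1 = true := ex3_b s32_pp_022 s31_pp_022

theorem s34_pp_022 : ∃ t, chk3 f_pp_022 t 68 249 1 = true := ex3_a k11_pp_022 k12_pp_022

theorem s35_pp_022 : ∃ t, chk3 f_pp_022 t 68 124 1 = true := ex3_b k10_pp_022 s34_pp_022

theorem s36_pp_022 : ∃ t, chk3 f_pp_022 t 34 124 1 = true := ex3_a s35_pp_022 k13_pp_022

theorem s37_pp_022 : ∃ t, chk3 f_pp_022 t 34 62 1 = true := ex3_b s36_pp_022 k14_pp_022

theorem s38_pp_022 : ∃ t, chk3 f_pp_022 t 17 62 1 = true := ex3_a s37_pp_022 k15_pp_022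

theorem s39_pp_022 : ∃ t, chk3 f_pp_022 t 17 31 1 = true := ex3_b s38_pp_022 k16_pp_022

theorem s40_pp_022 : ∃ t, chk3 f_pp_022 t 35 61 1 = true := ex3_b k8_pp_022 k9_pp_022

theorem s41_pp_022 : ∃ t, chk3 f_pp_022 t 35 30 1 = true := ex3_b k7_pp_022 s40_pp_022

theorem s42_pp_022 : ∃ t, chk3 f_pp_022 t 34 61 1 = true := ex3_a k5_pp_022 k6_pp_022

theorem s43_pp_022 : ∃ t, chk3 f_pp_022 t 34 30 1 = true := ex3_b k4_pp_022 s42_pp_022

theorem s44_pp_022 : ∃ t, chk3 f_pp_022 t 17 30 1 = true := ex3_a s43_pp_022 s41_pp_022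

theorem s45_pp_022 : ∃ t, chk3 f_pp_022 t 17 15 1 = true := ex3_b s44_pp_022 s39_pp_022

theorem s46_pp_022 : ∃ t, chk3 f_pp_022 t 8 15 1 = true := ex3_a k3_pp_022 s45_pp_022

theorem s47_pp_022 : ∃ t, chk3 f_pp_022 t 8 7 1 = true := ex3_b k2_pp_022 s46_pp_022

theorem s48_pp_022 : ∃ t, chk3 f_pp_022 t 4 7 1 = true := ex3_a s47_pp_022 s33_pp_022

theorem s49_pp_022 : ∃ t, chk3 f_pp_022 t 4 3 1 = true := ex3_b k1_pp_022 s48_pp_022

theorem s50_pp_022 : ∃ t, chk3 f_pp_022 t 2 3 1 = true := ex3_a s49_pp_022 k25_pp_022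

theorem s51_pp_022 : ∃ t, chk3 f_pp_022 t 2 1 1 = true := ex3_b k0_pp_022 s50_pp_022

theorem s52_pp_022 : ∃ t, chk3 f_pp_022 t 1 1 1 = true := ex3_a s51_pp_022 k26_pp_022

theorem c_pp_022 : CertN 0 536870912 0 536870912 50331648 16777216 3 true true true .pp 0 2 2
    ndN0q0 ndN0q2 pcN2 cut_pp_022 Ext.none :=
  certNK0 (fam := true) (s1 := true) (s2 := true) (a := 0) (b := 2) (c := 2) (cn := .pp) (n1 := ndN0q0) (n2 := ndN0q2) (pc := pcN2) (cut := cut_pp_022) (xt := Ext.none) (P1 := 0) (W1 := 536870912) (P2 := 0) (W2 := 536870912) (P3 := 50331648) (W3 := 16777216) (N0 := 3)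
    rfl rfl rfl s52_pp_022

noncomputable def f_pp_023 : ℕ → ℕ → ℕ → ℕ → Bool := onCell 1610612736 536870912 0 536870912 50331648 16777216
    (rowNK 3 2 true true true .up 0 2 3 (qsf 0 536870912 0 536870912 3) ndN0q0 ndN0q2 pcN3 Cut.none Ext.none)

def k0_pp_023 : ∃ t, chk3 f_pp_023 t 1 1 1 = true :=
  ⟨(a (b (a (a (b (b (l 17964032) (a (l 17489280) (b (l 17372760) (l 17182504)))) (b (a (b (l 17227576) (b (l 17078936) (l 86671587895))) (b (b (l 17061808) (l 79155462439)) (a (b (l 86671412615) (l 108146005303)) (l 108682959559)))) (a (b (a (b (b (l 88281918727) (l 100629798247)) (l 4)) (l 4)) (l 4)) (l 4)))) (b (a (b (l 17498928) (b (l 17189648) (a (l 17026136) (b (l 16988888) (l 16904816))))) (b (l 17432360) (a (b (l 17053088) (l 87208434615)) (b (l 17026192) (b (l 16906464) (l 105998500551)))))) (b (b (a (a (l 88819004359) (b (l 90429429095) (l 4))) (l 4)) (l 4)) (l 4)))) (a (b (b (a (b (l 17215400) (l 17150288)) (l 2)) (a (b (l 86671711367) (a (l 109219788647) (l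 4))) (l 2))) (l 4)) (l 2))) (l 4)) (l 2)), by decide +kernel⟩

theorem c_pp_023 : CertN 0 536870912 0 536870912 50331648 16777216 3 true true true .up 0 2 3
    ndN0q0 ndN0q2 pcN3 Cut.none Ext.none :=
  certNK2 (fam := true) (s1 := true) (s2 := true) (a := 0) (b := 2) (c := 3) (cn := .up) (n1 := ndN0q0) (n2 := ndN0q2) (pc := pcN3) (cut := Cut.none) (xt := Ext.none) (P1 := 0) (W1 := 536870912) (P2 := 0) (W2 := 536870912) (P3 := 50331648) (W3 := 16777216) (N0 := 3)
    rfl rfl rfl (fun _ => rfl) k0_pp_023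

noncomputable def f_pp_101 : ℕ → ℕ → ℕ → ℕ → Bool := onCell 536870912 536870912 0 536870912 50331648 16777216
    (rowNK 3 0 true true true .npn 1 0 1 (qsf 536870912 536870912 0 536870912 1) ndN0q1 ndN0q0 pcN1 Cut.none Ext.none)

def k0_pp_101 : ∃ t, chk3 f_pp_101 t 1 1 1 = true :=
  ⟨(a (l 4) (l 5)), by decide +kernel⟩

theorem c_pp_101 : CertN 536870912 536870912 0 536870912 50331648 16777216 3 true true true .npn 1 0 1
    ndN0q1 ndN0q0 pcN1 Cut.none Ext.none :=
  certNK0 (fam := true) (s1 := true) (s2 := true) (a := 1) (b := 0) (c := 1) (cn := .npn) (n1 := ndN0q1) (n2 := ndN0q0) (pc := pcN1) (cut := Cut.none) (xt := Ext.none) (P1 := 536870912) (W1 := 536870912) (P2 := 0) (W2 := 536870912) (P3 := 50331648) (W3 := 16777216) (N0 := 3)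
    rfl rfl rfl k0_pp_101

noncomputable def f_pp_102 : ℕ → ℕ → ℕ → ℕ → Bool := onCell 536870912 536870912 0 536870912 50331648 16777216
    (rowNK 3 0 true true true .npp 1 0 2 (qsf 536870912 536870912 0 536870912 2) ndN0q1 ndN0q0 pcN2 Cut.none Ext.none)

def k0_pp_102 : ∃ t, chk3 f_pp_102 t 1 1 1 = true :=
  ⟨(b (l 5) (l 4)), by decide +kernel⟩

theorem c_pp_102 : CertN 536870912 536870912 0 536870912 50331648 16777216 3 true true true .npp 1 0 2
    ndN0q1 ndN0q0 pcN2 Cut.none Ext.none :=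
  certNK0 (fam := true) (s1 := true) (s2 := true) (a := 1) (b := 0) (c := 2) (cn := .npp) (n1 := ndN0q1) (n2 := ndN0q0) (pc := pcN2) (cut := Cut.none) (xt := Ext.none) (P1 := 536870912) (W1 := 536870912) (P2 := 0) (W2 := 536870912) (P3 := 50331648) (W3 := 16777216) (N0 := 3)
    rfl rfl rfl k0_pp_102

noncomputable def f_pp_112 : ℕ → ℕ → ℕ → ℕ → Bool := onCell 536870912 536870912 536870912 536870912 50331648 16777216
    (rowNK 3 0 true true true .dn 1 1 2 (qsf 536870912 536870912 536870912 536870912 2) ndN0q1 ndN0q1 pcN2 Cut.none Ext.none)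

def k0_pp_112 : ∃ t, chk3 f_pp_112 t 1 1 1 = true :=
  ⟨(l 4), by decide +kernel⟩

theorem c_pp_112 : CertN 536870912 536870912 536870912 536870912 50331648 16777216 3 true true true .dn 1 1 2
    ndN0q1 ndN0q1 pcN2 Cut.none Ext.none :=
  certNK0 (fam := true) (s1 := true) (s2 := true) (a := 1) (b := 1) (c := 2) (cn := .dn) (n1 := ndN0q1) (n2 := ndN0q1) (pc := pcN2) (cut := Cut.none) (xt := Ext.none) (P1 := 536870912) (W1 := 536870912) (P2 := 536870912) (W2 := 536870912) (P3 := 50331648) (W3 := 16777216) (N0 := 3)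
    rfl rfl rfl k0_pp_112

noncomputable def f_pp_113 : ℕ → ℕ → ℕ → ℕ → Bool := onCell 536870912 536870912 536870912 536870912 50331648 16777216
    (rowNK 3 0 true true true .nn 1 1 3 (qsf 536870912 536870912 536870912 536870912 3) ndN0q1 ndN0q1 pcN3 Cut.none Ext.none)

def k0_pp_113 : ∃ t, chk3 f_pp_113 t 1 1 1 = true :=
  ⟨(l 4), by decide +kernel⟩

theorem c_pp_113 : CertN 536870912 536870912 536870912 536870912 50331648 16777216 3 true true true .nn 1 1 3
    ndN0q1 ndN0q1 pcN3 Cut.none Ext.none :=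
  certNK0 (fam := true) (s1 := true) (s2 := true) (a := 1) (b := 1) (c := 3) (cn := .nn) (n1 := ndN0q1) (n2 := ndN0q1) (pc := pcN3) (cut := Cut.none) (xt := Ext.none) (P1 := 536870912) (W1 := 536870912) (P2 := 536870912) (W2 := 536870912) (P3 := 50331648) (W3 := 16777216) (N0 := 3)
    rfl rfl rfl k0_pp_113

noncomputable def f_pp_123 : ℕ → ℕ → ℕ → ℕ → Bool := onCell 536870912 536870912 0 536870912 50331648 16777216
    (rowNK 3 0 true true true .npn 1 2 3 (qsf 536870912 536870912 0 536870912 3) ndN0q1 ndN0q2 pcN3 Cut.none Ext.none)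

def k0_pp_123 : ∃ t, chk3 f_pp_123 t 1 1 1 = true :=
  ⟨(a (b (b (a (a (b (a (b (l 17146512) (l 83987360631)) (a (l 87208586487) (b (l 87208361751) (l 4)))) (a (b (a (b (l 92040019175) (l 4)) (l 4)) (l 4)) (l 4))) (b (a (b (a (b (l 16885240) (l 4)) (l 4)) (l 4)) (l 4)) (l 4))) (l 4)) (l 4)) (l 4)) (l 4)), by decide +kernel⟩

theorem c_pp_123 : CertN 536870912 536870912 0 536870912 50331648 16777216 3 true true true .npn 1 2 3
    ndN0q1 ndN0q2 pcN3 Cut.none Ext.none :=
  certNK0 (fam := true) (s1 := true) (s2 := true) (a := 1) (b := 2) (c := 3) (cn := .npn) (n1 := ndN0q1) (n2 := ndN0q2) (pc := pcN3) (cut := Cut.none) (xt := Ext.none) (P1 := 536870912) (W1 := 536870912) (P2 := 0) (W2 := 536870912) (P3 := 50331648) (W3 := 16777216) (N0 := 3)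
    rfl rfl rfl k0_pp_123

noncomputable def f_pp_202 : ℕ → ℕ → ℕ → ℕ → Bool := onCell 0 536870912 0 536870912 50331648 16777216
    (rowNK 3 0 true true true .pp 2 0 2 (qsf 0 536870912 0 536870912 2) ndN0q2 ndN0q0 pcN2 Cut.none Ext.none)

def k0_pp_202 : ∃ t, chk3 f_pp_202 t 1 1 1 = true :=
  ⟨(l 5), by decide +kernel⟩

theorem c_pp_202 : CertN 0 536870912 0 536870912 50331648 16777216 3 true true true .pp 2 0 2
    ndN0q2 ndN0q0 pcN2 Cut.none Ext.none :=
  certNK0 (fam := true) (s1 := true) (s2 := true) (a := 2) (b := 0) (c := 2) (cn := .pp) (n1 := ndN0q2) (n2 := ndN0q0) (pc := pcN2) (cut := Cut.none) (xt := Ext.none) (P1 := 0) (W1 := 536870912) (P2 := 0) (W2 := 536870912) (P3 := 50331648) (W3 := 16777216) (N0 := 3)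
    rfl rfl rfl k0_pp_202

noncomputable def f_pp_203 : ℕ → ℕ → ℕ → ℕ → Bool := onCell 0 536870912 0 536870912 50331648 16777216
    (rowNK 3 0 true true true .up 2 0 3 (qsf 0 536870912 0 536870912 3) ndN0q2 ndN0q0 pcN3 Cut.none Ext.none)

def k0_pp_203 : ∃ t, chk3 f_pp_203 t 1 1 1 = true :=
  ⟨(l 5), by decide +kernel⟩

theorem c_pp_203 : CertN 0 536870912 0 536870912 50331648 16777216 3 true true true .up 2 0 3
    ndN0q2 ndN0q0 pcN3 Cut.none Ext.none :=
  certNK0 (fam := true) (s1 := true) (s2 := true) (a := 2) (b := 0) (c := 3) (cn := .up) (n1 := ndN0q2) (n2 := ndN0q0) (pc := pcN3) (cut := Cut.none) (xt := Ext.none) (P1 := 0) (W1 := 536870912) (P2 := 0) (W2 := 536870912) (P3 := 50331648) (W3 := 16777216) (N0 := 3)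
    rfl rfl rfl k0_pp_203

noncomputable def f_pp_213 : ℕ → ℕ → ℕ → ℕ → Bool := onCell 0 536870912 536870912 536870912 50331648 16777216
    (rowNK 3 0 true true true .pnn 2 1 3 (qsf 0 536870912 536870912 536870912 3) ndN0q2 ndN0q1 pcN3 Cut.none Ext.none)

def k0_pp_213 : ∃ t, chk3 f_pp_213 t 1 1 1 = true :=
  ⟨(a (l 5) (l 4)), by decide +kernel⟩

theorem c_pp_213 : CertN 0 536870912 536870912 536870912 50331648 16777216 3 true true true .pnn 2 1 3
    ndN0q2 ndN0q1 pcN3 Cut.none Ext.none :=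
  certNK0 (fam := true) (s1 := true) (s2 := true) (a := 2) (b := 1) (c := 3) (cn := .pnn) (n1 := ndN0q2) (n2 := ndN0q1) (pc := pcN3) (cut := Cut.none) (xt := Ext.none) (P1 := 0) (W1 := 536870912) (P2 := 536870912) (W2 := 536870912) (P3 := 50331648) (W3 := 16777216) (N0 := 3)
    rfl rfl rfl k0_pp_213

noncomputable def f_pm_001 : ℕ → ℕ → ℕ → ℕ → Bool := onCell 0 536870912 0 536870912 50331648 16777216
    (rowNK 3 0 true true false .up 0 0 1 (qsf 0 536870912 0 536870912 1) ndN0q0 ndN0q0 pcN1 Cut.none Ext.none)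

def k0_pm_001 : ∃ t, chk3 f_pm_001 t 1 1 1 = true :=
  ⟨(l 3), by decide +kernel⟩

theorem c_pm_001 : CertN 0 536870912 0 536870912 50331648 16777216 3 true true false .up 0 0 1
    ndN0q0 ndN0q0 pcN1 Cut.none Ext.none :=
  certNK0 (fam := true) (s1 := true) (s2 := false) (a := 0) (b := 0) (c := 1) (cn := .up) (n1 := ndN0q0) (n2 := ndN0q0) (pc := pcN1) (cut := Cut.none) (xt := Ext.none) (P1 := 0) (W1 := 536870912) (P2 := 0) (W2 := 536870912) (P3 := 50331648) (W3 := 16777216) (N0 := 3)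
    rfl rfl rfl k0_pm_001

noncomputable def cut_pm_011 : Cut := Cut.of [[⟨0, 0, 0, 50331648⟩, ⟨1, 1, 0, 50331648⟩, ⟨2, 1, 0, 50331648⟩]]

noncomputable def f_pm_011 : ℕ → ℕ → ℕ → ℕ → Bool := onCell 536870912 536870912 536870912 536870912 50331648 16777216
    (rowNK 3 2 true true false .pnn 0 1 1 (qsf 0 536870912 536870912 536870912 1) ndN0q0 ndN0q1 pcN1 cut_pm_011 Ext.none)

def k0_pm_011 : ∃ t, chk3 f_pm_011 t 1 1 1 = true :=
  ⟨(a (l 3) (b (l 3) (a (l 3) (b (l 3) (a (l 3) (b (l 3) (a (l 3) (b (l 3) (l 6))))))))), by decide +kernel⟩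

theorem c_pm_011 : CertN 0 536870912 536870912 536870912 50331648 16777216 3 true true false .pnn 0 1 1
    ndN0q0 ndN0q1 pcN1 cut_pm_011 Ext.none :=
  certNK2 (fam := true) (s1 := true) (s2 := false) (a := 0) (b := 1) (c := 1) (cn := .pnn) (n1 := ndN0q0) (n2 := ndN0q1) (pc := pcN1) (cut := cut_pm_011) (xt := Ext.none) (P1 := 0) (W1 := 536870912) (P2 := 536870912) (W2 := 536870912) (P3 := 50331648) (W3 := 16777216) (N0 := 3)
    rfl rfl rfl (fun _ => rfl) k0_pm_011

noncomputable def cut_pm_012 : Cut := Cut.of [[⟨0, 0, 0, 50331648⟩, ⟨1, 1, 0, 50331648⟩, ⟨2, 1, 0, 50331648⟩], [⟨0, 0, 1, 25165824⟩, ⟨1, 1, 0, 8388608⟩, ⟨2, 1, 1, 25165824⟩, ⟨0, 0, 0, 83886080⟩, ⟨0, 1, 0, 1040187392⟩, ⟨2, 1, 0, 83886080⟩, ⟨2, 2, 0, 1040187392⟩]]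

noncomputable def f_pm_012 : ℕ → ℕ → ℕ → ℕ → Bool := onCell 1073741824 536870912 536870912 536870912 50331648 16777216
    (rowNK 3 2 true true false .pnp 0 1 2 (qsf 0 536870912 536870912 536870912 2) ndN0q0 ndN0q1 pcN2 cut_pm_012 Ext.none)

def k0_pm_012 : ∃ t, chk3 f_pm_012 t 2 2 1 = true :=
  ⟨(a (b (l 3) (l 3)) (b (a (a (a (l 3) (l 2)) (l 2)) (l 2)) (a (a (a (b (l 3) (b (l 3) (a (l 3) (l 16859216)))) (a (b (l 112910921575) (l 77477412199)) (a (b (l 16877160) (l 16858136)) (a (b (l 16847424) (l 16845648)) (b (l 16820576) (l 16830288)))))) (b (l 16873968) (l 16941544))) (b (l 17019360) (l 17053968))))), by decide +kernel⟩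

def k1_pm_012 : ∃ t, chk3 f_pm_012 t 4 6 1 = true :=
  ⟨(a (l 3) (a (b (l 3) (b (l 3) (a (l 3) (a (l 3) (b (l 3) (l 112373884871)))))) (b (a (l 3) (b (l 3) (a (l 135996243447) (l 100562742631)))) (a (b (a (l 3) (l 112910812919)) (b (a (l 111836993591) (l 16822408)) (a (l 72645489751) (l 16846408)))) (b (b (l 78014214103) (l 16823968)) (b (l 16891256) (l 16955464))))))), by decide +kernel⟩

def k2_pm_012 : ∃ t, chk3 f_pm_012 t 8 14 1 = true :=
  ⟨(a (l 3) (b (l 3) (a (l 3) (b (l 3) (a (b (l 3) (a (l 3) (b (l 3) (a (b (l 3) (l 105931379319)) (b (l 109689473655) (l 76940352231)))))) (b (a (b (l 3) (l 112373860023)) (b (l 103783920551) (a (l 83382817399) (l 16799280)))) (a (b (a (l 107005120567) (b (l 78014097863) (l 16795464))) (a (b (l 56539256839) (l 16800736)) (l 16810920))) (l 16802960)))))))), by decide +kernel⟩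

def k3_pm_012 : ∃ t, chk3 f_pm_012 t 16 30 1 = true :=
  ⟨(a (l 3) (b (l 3) (a (l 3) (b (l 3) (a (l 3) (b (l 3) (a (b (l 3) (a (l 3) (b (l 3) (a (b (l 3) (c (l 104857616055) (l 107005099383))) (a (b (l 105394487255) (a (l 82309038199) (l 65129168807))) (b (c (l 89288361367) (l 89288361031)) (l 16784616))))))) (a (b (b (l 3) (a (l 3) (b (l 3) (l 104857617799)))) (b (b (a (l 105394488791) (a (l 94657071063) (a (l 84993393511) (l 68350395047)))) (b (a (l 107541970855) (a (l 16784904) (l 16784920))) (a (a (l 97341423991) (l 16785416)) (l 16784736)))) (b (b (a (a (l 81235296487) (l 16784848)) (l 16784360)) (l 16784336)) (l 16783728)))) (b (b (a (l 3) (b (l 3) (l 107005101335))) (a (b (l 107541972295) (a (l 91435845591) (a (l 74792846327) (l 16785384)))) (b (a (a (l 94657070775) (l 81772168535)) (l 16786184)) (l 16785032)))) (l 16785360)))))))))), by decide +kernel⟩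

def k4_pm_012 : ∃ t, chk3 f_pm_012 t 34 60 1 = true :=
  ⟨(a (l 3) (b (l 3) (a (b (l 3) (a (l 3) (b (a (l 3) (b (l 3) (l 107541981607))) (a (b (l 104320756807) (a (l 108078850503) (l 76940340119))) (b (a (l 100562657223) (l 64592308551)) (l 16789912)))))) (b (a (b (l 3) (a (l 3) (b (l 104857629351) (l 98415174887)))) (b (a (l 108615726887) (b (l 108078853351) (l 69424150615))) (a (b (l 78550956567) (l 16790632)) (l 16794120)))) (a (b (a (b (l 105931368231) (a (l 79624695511) (l 16789704))) (a (b (l 16789336) (l 16791432)) (l 16792224))) (l 16786576)) (l 16786064)))))), by decide +kernel⟩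

def k5_pm_012 : ∃ t, chk3 f_pm_012 t 68 122 1 = true :=
  ⟨(a (b (l 3) (a (l 3) (b (l 3) (a (l 3) (b (l 3) (a (l 3) (b (l 3) (l 105394492055)))))))) (b (a (l 3) (b (l 3) (a (b (l 3) (a (l 3) (l 105931366983))) (b (a (l 3) (l 104857624599)) (a (b (l 105931365703) (l 93583335767)) (b (l 86067142871) (l 16788456))))))) (a (b (a (l 3) (b (l 3) (a (b (l 3) (l 105931364711)) (b (l 105394493655) (a (l 96267688919) (l 16787584)))))) (a (b (a (l 3) (b (l 106468235735) (l 107541975591))) (a (b (l 108078846551) (a (l 91435848999) (l 16787232))) (a (b (l 82845914407) (l 16787208)) (l 16787248)))) (b (b (a (c (l 91435851383) (l 91972721863)) (l 16787840)) (a (c (l 16787848) (l 16788208)) (l 16787312))) (l 16788424)))) (b (a (b (a (b (l 3) (l 108078847991)) (b (l 107005105959) (c (l 71034756535) (l 70497885111)))) (a (a (b (l 95730817767) (l 16788032)) (l 16788040)) (l 16787872))) (a (a (b (l 16788312) (l 16789552)) (l 16789000)) (l 16791064))) (l 16784952))))), by decide +kernel⟩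

def k6_pm_012 : ∃ t, chk3 f_pm_012 t 68 123 1 = true :=
  ⟨(a (b (a (b (l 3) (a (b (l 3) (a (l 3) (b (l 105931361431) (a (l 108078843527) (l 85530266471))))) (b (a (b (l 3) (l 105394490423)) (b (l 108615715831) (a (l 93046460087) (l 67813526343)))) (a (a (b (l 95193943735) (l 16786032)) (b (c (l 77477203079) (l 77477202759)) (l 16785768))) (c (l 16785728) (l 16785536)))))) (b (a (b (a (l 3) (b (l 3) (l 106468234071))) (a (b (l 3) (l 107541973943)) (a (b (l 104857619799) (l 76403461847)) (b (l 92509589959) (l 16786624))))) (b (a (b (l 105931363063) (a (l 95730815719) (l 83382784519))) (b (a (l 95730816263) (l 75866591703)) (l 16786920))) (b (b (a (l 16786888) (l 16786408)) (l 16786384)) (l 16786312)))) (a (a (b (b (a (l 85530267367) (l 16786528)) (l 16786048)) (l 16785856)) (l 16786616)) (l 16790448)))) (a (b (a (b (a (a (b (l 105394489031) (a (l 87140878055) (l 16786736))) (b (l 92509588295) (l 16785624))) (b (b (a (l 16786264) (l 16785848)) (l 16785680)) (l 16785144)))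 (l 16784320)) (l 16786608)) (l 16789016)) (b (l 16794368) (l 16799688)))) (b (a (b (l 16786208) (l 16799656)) (l 16788408)) (a (l 16789032) (l 16803496)))), by decide +kernel⟩

def k7_pm_012 : ∃ t, chk3 f_pm_012 t 69 61 1 = true :=
  ⟨(b (b (a (a (b (a (b (l 3) (a (l 3) (l 107541978631))) (b (a (l 104857625623) (b (l 104320753463) (l 83919660071))) (a (b (l 91435852967) (l 16788960)) (l 16788760)))) (a (b (a (b (l 108078848855) (l 78550949975)) (a (l 16789912) (l 16788584))) (l 16789256)) (l 16792960))) (a (a (b (a (b (l 16789920) (l 16790176)) (l 16789664)) (l 16798256)) (l 16787424)) (l 16791776))) (l 16788496)) (a (a (l 16789120) (l 16820544)) (l 16824600))) (a (b (a (l 16824576) (l 16840784)) (a (l 16840288) (l 16857160))) (b (l 16845504) (l 16862976)))), by decide +kernel⟩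

def k8_pm_012 : ∃ t, chk3 f_pm_012 t 35 30 1 = true :=
  ⟨(b (a (b (a (b (a (l 3) (b (l 3) (l 106468245015))) (a (b (l 109152601319) (a (l 103783887143) (b (l 79624699735) (l 16791416)))) (b (a (l 84993414359) (l 16792464)) (l 16787968)))) (b (a (b (l 97341448311) (a (l 62444833063) (l 16795888))) (b (l 16796488) (l 16807320))) (l 16795984))) (a (b (a (a (c (l 14663311703) (l 16789824)) (l 16793216)) (l 16795152)) (l 16811376)) (b (l 16841880) (l 16867176)))) (b (a (l 16791472) (l 16872816)) (a (l 16889456) (l 16924224)))) (a (b (a (b (l 16856928) (l 16880584)) (l 16883568)) (a (b (l 16902448) (l 16921464)) (b (l 16939456) (l 16960056)))) (b (a (l 16940448) (l 16976208)) (a (l 16988136) (l 17025944))))), by decide +kernel⟩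

def k9_pm_012 : ∃ t, chk3 f_pm_012 t 32 124 1 = true :=
  ⟨(l 3), by decide +kernel⟩

def k10_pm_012 : ∃ t, chk3 f_pm_012 t 66 124 1 = true :=
  ⟨(a (l 3) (b (l 3) (a (l 3) (b (l 3) (a (b (l 3) (b (b (l 3) (l 6)) (l 6))) (b (b (a (l 3) (a (l 107005096199) (a (l 94120195127) (b (l 94120194695) (l 72108486727))))) (a (a (l 3) (b (l 3) (l 86604001911))) (b (a (a (l 94120194423) (l 78014066647)) (l 16782624)) (b (a (l 16782656) (l 16782352)) (l 16782336))))) (a (a (b (b (l 90362098119) (a (l 6) (l 16782440))) (l 6)) (a (c (l 14663298295) (l 16782696)) (l 16781904))) (l 16781408)))))))), by decide +kernel⟩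

def k11_pm_012 : ∃ t, chk3 f_pm_012 t 134 124 1 = true :=
  ⟨(b (a (b (l 3) (a (l 3) (b (l 3) (a (l 3) (b (l 3) (c (l 104857614215) (l 107541968487))))))) (b (a (l 3) (b (l 3) (a (l 3) (b (l 104857616039) (a (l 107005098087) (b (l 94657068231) (l 64592296599))))))) (a (a (b (l 3) (a (b (l 3) (a (l 88751487175) (b (l 94657066855) (l 16783504)))) (b (l 104857613479) (a (b (l 76940326423) (l 16783376)) (l 16783392))))) (b (b (l 3) (a (l 105394485431) (a (l 95193938919) (l 87677745847)))) (b (b (a (l 89825229079) (l 16783696)) (a (l 56002360871) (l 16783360))) (l 16782960)))) (b (b (b (a (l 107541969031) (a (l 71034747431) (l 16783840))) (a (a (l 95730809575) (l 76403456727)) (l 16783648))) (a (a (b (l 81235294871) (l 16783736)) (l 16783608)) (l 16783056))) (l 16782192))))) (a (b (a (b (l 3) (a (b (l 3) (a (l 106468225255) (a (l 88751486247) (b (l 94120194935) (l 16782928))))) (b (a (l 105394483415) (b (l 90898969895) (a (l 71034745431) (l 16783016)))) (a (a (b (l 78550938087)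 (l 16782800)) (l 16782816)) (l 16782560))))) (b (a (a (b (l 3) (a (l 107541967303) (l 88751486679))) (b (l 107541968087) (b (l 82845906583) (l 16783160)))) (a (b (a (l 94657067031) (b (l 94120195687) (l 16783856))) (l 16783024)) (b (b (a (l 88751486359) (l 16783456)) (l 16783232)) (l 16782664)))) (a (c (l 16783776) (l 16783648)) (l 16781600)))) (b (a (a (a (a (b (b (l 89288356247) (l 16782728)) (l 16782176)) (l 16783368)) (l 16782104)) (l 16781504)) (l 16780264)) (l 16781952))) (b (a (l 16783848) (l 16790032)) (l 16780104)))), by decide +kernel⟩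

def k12_pm_012 : ∃ t, chk3 f_pm_012 t 135 124 1 = true :=
  ⟨(b (a (b (a (b (a (b (l 3) (l 107005099639)) (b (l 106468228679) (b (a (l 96267681415) (l 76940328295)) (a (l 82309037335) (l 16784312))))) (b (a (a (l 92509585575) (b (l 86604004583) (l 16784232))) (l 16783952)) (l 16784192))) (a (b (b (b (a (l 96267681735) (l 16784664)) (a (l 70497877527) (l 16784384))) (l 16784008)) (l 16782776)) (l 16782816))) (c (l 16783928) (l 16783120))) (b (l 16783600) (l 16782960))) (b (a (l 16782232) (l 16778448)) (a (a (l 16784744) (l 16793512)) (b (l 16792872) (l 16790016))))), by decide +kernel⟩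

def k13_pm_012 : ∃ t, chk3 f_pm_012 t 16 125 1 = true :=
  ⟨(a (l 6) (a (a (l 6) (b (a (l 6) (b (a (l 6) (l 16781816)) (l 6))) (l 6))) (a (b (b (b (a (l 16782800) (l 16784640)) (a (l 16781016) (a (l 16794192) (l 16792480)))) (a (b (l 16779240) (l 6)) (a (l 16781032) (l 16779888)))) (a (l 6) (b (l 16770088) (l 6)))) (b (a (a (b (l 16781168) (l 16779512)) (b (b (l 16790824) (l 16789712)) (l 16768656))) (b (l 16778696) (l 16778600))) (b (a (l 16769344) (l 16767976)) (a (l 16768496) (l 16767792))))))), by decide +kernel⟩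

def k14_pm_012 : ∃ t, chk3 f_pm_012 t 17 62 1 = true :=
  ⟨(a (a (a (a (b (b (b (l 16791768) (l 16791632)) (b (l 16787840) (l 16779512))) (b (b (l 16788480) (l 16767416)) (b (l 16767288) (l 16767112)))) (b (b (b (l 16802864) (l 16803296)) (b (l 16800336) (l 16793216))) (b (b (l 16781040) (l 16766752)) (b (l 16766624) (l 16766464))))) (a (b (b (b (l 16816240) (l 16817312)) (b (l 16815272) (l 16809440))) (b (b (l 16799008) (l 16782992)) (b (l 16766000) (l 16767312)))) (b (b (l 16790680) (b (l 16832128) (l 16827616))) (b (b (l 16797960) (l 16805200)) (b (l 16785376) (c (l 16767384) (l 16767872))))))) (b (a (b (a (l 16828592) (l 16867632)) (b (l 16818160) (l 16794640))) (b (b (l 16893776) (l 16898264)) (b (l 16879736) (l 16858752)))) (b (b (a (a (l 16819336) (l 16841784)) (l 16834840)) (a (a (l 16807808) (l 16832368)) (a (l 16836624) (l 16841232)))) (a (b (a (l 16769880) (l 16776112)) (b (l 16767584) (l 16765432))) (a (b (l 16803784) (l 16807744)) (b (l 16852744) (l 16817616)))))))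 (b (a (a (b (l 16936232) (l 16881928)) (b (l 16977208) (l 16926408))) (a (b (l 17018304) (l 17033648)) (b (l 17058896) (l 17077176)))) (a (a (b (b (l 16840856) (a (l 16908928) (l 16955720))) (b (l 16789784) (a (l 16848272) (l 16899552)))) (b (b (l 16993888) (l 16973192)) (b (l 16928800) (l 16860224)))) (a (b (l 17043224) (a (l 17010144) (l 17058280))) (b (l 17090776) (l 17076928)))))), by decide +kernel⟩

def k15_pm_012 : ∃ t, chk3 f_pm_012 t 16 63 1 = true :=
  ⟨(a (l 6) (a (l 6) (a (l 6) (b (b (b (a (l 6) (l 16767568)) (l 6)) (l 6)) (l 6))))), by decide +kernel⟩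

def k16_pm_012 : ∃ t, chk3 f_pm_012 t 34 63 1 = true :=
  ⟨(a (b (b (a (b (b (a (l 16766960) (l 16766424)) (a (l 16769936) (l 16766224))) (a (a (l 6) (l 16766752)) (l 16767016))) (a (b (l 16767008) (l 16765888)) (b (l 16765360) (l 16765424)))) (a (a (l 6) (a (l 6) (b (l 16766360) (l 6)))) (b (a (c (l 16766704) (l 16765792)) (l 16766760)) (a (a (l 6) (l 16765912)) (a (l 16765672) (l 16765432)))))) (b (a (l 6) (a (l 6) (a (l 6) (b (l 16765400) (l 6))))) (l 6))) (b (b (a (a (b (l 16764920) (l 16764976)) (b (l 16770648) (l 16764536))) (b (a (l 16784408) (l 16797840)) (a (l 16774480) (l 16771344)))) (a (b (a (l 16764992) (l 16764536)) (a (a (l 16765192) (l 16764952)) (c (l 16765352) (l 16764320)))) (b (a (l 16764096) (l 16763000)) (a (l 16764704) (l 16763600))))) (b (a (b (b (a (l 16764928) (l 16764456)) (a (l 16764888) (l 14))) (a (a (l 6) (l 14)) (l 14))) (b (b (a (l 16763992) (l 16763528)) (l 14)) (l 14))) (a (a (l 6) (l 14)) (l 14))))), by decide +kernel⟩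

def k17_pm_012 : ∃ t, chk3 f_pm_012 t 35 63 1 = true :=
  ⟨(b (b (b (a (a (a (l 16810792) (l 16844112)) (a (l 16897704) (l 16950536))) (a (l 16954824) (l 17097496))) (a (a (a (l 16788304) (l 16804304)) (a (l 16840256) (l 16875160))) (a (a (l 16950944) (l 17004688)) (l 17030832)))) (b (a (a (a (l 16763904) (l 16768624)) (c (l 16944360) (a (l 16796264) (l 16815320)))) (a (a (a (l 16906672) (l 16924912)) (l 16951608)) (l 16960792))) (a (a (a (l 16762408) (l 16762080)) (c (a (l 16949184) (l 17032128)) (a (l 16761616) (l 16762016)))) (a (c (l 17090232) (a (l 16784128) (l 16867360))) (a (l 16931536) (l 17030584)))))) (b (b (b (b (a (a (l 16764168) (c (l 16914304) (l 16760752))) (c (a (l 17081808) (l 17157800)) (a (l 16759104) (l 16911728)))) (l 14)) (l 14)) (l 14)) (l 14))), by decide +kernel⟩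

def k18_pm_012 : ∃ t, chk3 f_pm_012 t 18 7 1 = true :=
  ⟨(b (b (a (b (l 3) (a (l 3) (b (l 125795636311) (a (l 122574395847) (l 73182296471))))) (b (a (l 109152676199) (a (l 73182323383) (l 16794880))) (a (b (a (l 83919697927) (l 16809176)) (l 16797112)) (l 16803216)))) (a (b (a (b (a (l 3) (l 107005154439)) (a (b (l 116668809223) (l 87677788439)) (b (l 68887314999) (l 16811208)))) (b (a (b (l 82309080743) (l 16802800)) (l 16822032)) (l 16794368))) (a (a (b (a (l 16798648) (l 16798296)) (l 16836080)) (b (l 16822200) (l 16889808))) (b (l 16869464) (l 16937576)))) (b (a (b (l 16844800) (l 16906544)) (l 16921064)) (a (l 16953048) (l 17030776))))) (b (a (b (a (b (l 16923248) (l 16975440)) (l 16951264)) (a (b (l 17028872) (l 17081240)) (b (l 17096224) (l 17151696)))) (b (a (l 17075608) (l 17133632)) (a (b (l 17159216) (l 17218880)) (l 17252424)))) (a (b (a (b (a (l 17109544) (l 17149200)) (b (l 17158864) (l 17110000))) (b (l 17205952) (l 17253784))) (a (b (a (b (l 17132320)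 (a (l 17048144) (l 17142944))) (b (l 17206992) (l 17188408))) (c (b (a (l 17223400) (l 17290816)) (a (b (l 17209984) (l 14)) (l 17283144))) (b (b (a (l 16961016) (l 17117680)) (l 14)) (l 14)))) (a (b (l 17199632) (b (l 17224152) (b (l 17216688) (l 17081384)))) (b (l 17312008) (b (l 17325576) (l 17239488)))))) (b (a (b (l 17278560) (l 17333648)) (l 17379904)) (a (b (l 17379008) (b (l 17401216) (l 17323128))) (b (l 17461600) (l 17497904))))))), by decide +kernel⟩

def k19_pm_012 : ∃ t, chk3 f_pm_012 t 19 7 1 = true :=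
  ⟨(b (a (b (a (b (l 16832536) (l 16918504)) (b (l 16902200) (l 16967728))) (b (l 16999040) (l 17108896))) (b (a (l 16916784) (l 17022640)) (b (l 17111824) (l 17207032)))) (b (a (b (a (l 17188624) (l 17241960)) (l 17347104)) (b (l 17327464) (l 17470880))) (b (a (b (l 17450480) (l 17516336)) (l 17614216)) (a (b (l 17575736) (l 17622680)) (b (l 17713632) (l 17769632)))))), by decide +kernel⟩

def k20_pm_012 : ∃ t, chk3 f_pm_012 t 5 3 1 = true :=
  ⟨(b (a (a (a (b (b (l 83382951159) (a (l 16823992) (l 16837784))) (b (l 16862640) (l 17031424))) (a (b (b (l 16823488) (l 16871944)) (b (l 16936432) (l 17021464))) (a (b (l 16869424) (l 17063176)) (b (a (l 16879896) (l 16886608)) (a (b (l 16971376) (l 17062496)) (b (l 16978528) (l 17075728))))))) (b (b (l 16915648) (l 16968136)) (b (l 17035352) (l 17156928)))) (b (l 17124608) (b (l 17158456) (l 17319536)))) (a (b (a (a (b (l 17232536) (b (l 17202512) (l 17314056))) (a (b (l 17144768) (l 17348600)) (b (a (l 17182832) (a (l 17218784)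 (l 17250272))) (b (l 17374952) (l 17494352))))) (b (l 17325680) (l 17554712))) (a (a (b (b (l 17450368) (l 17593144)) (b (l 17736976) (l 17870304))) (a (b (l 17615000) (l 17894552)) (b (a (l 17665168) (l 17703680)) (a (l 17937384) (b (l 17901192) (l 18027304)))))) (b (l 17809592) (b (l 18009632) (l 18137472))))) (b (b (l 17457744) (l 17722448)) (b (l 18009384) (a (l 18235384) (l 18362552)))))), by decide +kernel⟩

def k21_pm_012 : ∃ t, chk3 f_pm_012 t 3 1 1 = true :=
  ⟨(b (a (b (l 2) (b (l 2) (l 17309656))) (l 2)) (b (a (b (l 17317456) (a (l 17299528) (l 17328648))) (b (l 2) (l 17337728))) (a (b (b (a (l 17525352) (l 17514880)) (l 18100840)) (b (a (l 18162712) (l 18211040)) (a (l 18497384) (l 18587864)))) (b (b (l 17660736) (a (l 17778152) (l 17649088))) (b (l 18298872) (a (l 18586936) (l 18510800))))))), by decide +kernel⟩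

theorem s22_pm_012 : ∃ t, chk3 f_pm_012 t 9 7 1 = true := ex3_a k18_pm_012 k19_pm_012

theorem s23_pm_012 : ∃ t, chk3 f_pm_012 t 17 63 1 = true := ex3_a k16_pm_012 k17_pm_012

theorem s24_pm_012 : ∃ t, chk3 f_pm_012 t 8 63 1 = true := ex3_a k15_pm_012 s23_pm_012

theorem s25_pm_012 : ∃ t, chk3 f_pm_012 t 67 124 1 = true := ex3_a k11_pm_012 k12_pm_012

theorem s26_pm_012 : ∃ t, chk3 f_pm_012 t 33 124 1 = true := ex3_a k10_pm_012 s25_pm_012

theorem s27_pm_012 : ∃ t, chk3 f_pm_012 t 16 124 1 = true := ex3_a k9_pm_012 s26_pm_012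

theorem s28_pm_012 : ∃ t, chk3 f_pm_012 t 16 62 1 = true := ex3_b s27_pm_012 k13_pm_012

theorem s29_pm_012 : ∃ t, chk3 f_pm_012 t 8 62 1 = true := ex3_a s28_pm_012 k14_pm_012

theorem s30_pm_012 : ∃ t, chk3 f_pm_012 t 8 31 1 = true := ex3_b s29_pm_012 s24_pm_012

theorem s31_pm_012 : ∃ t, chk3 f_pm_012 t 68 61 1 = true := ex3_b k5_pm_012 k6_pm_012

theorem s32_pm_012 : ∃ t, chk3 f_pm_012 t 34 61 1 = true := ex3_a s31_pm_012 k7_pm_012

theorem s33_pm_012 : ∃ t, chk3 f_pm_012 t 34 30 1 = true := ex3_b k4_pm_012 s32_pm_012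

theorem s34_pm_012 : ∃ t, chk3 f_pm_012 t 17 30 1 = true := ex3_a s33_pm_012 k8_pm_012

theorem s35_pm_012 : ∃ t, chk3 f_pm_012 t 8 30 1 = true := ex3_a k3_pm_012 s34_pm_012

theorem s36_pm_012 : ∃ t, chk3 f_pm_012 t 8 15 1 = true := ex3_b s35_pm_012 s30_pm_012

theorem s37_pm_012 : ∃ t, chk3 f_pm_012 t 8 7 1 = true := ex3_b k2_pm_012 s36_pm_012

theorem s38_pm_012 : ∃ t, chk3 f_pm_012 t 4 7 1 = true := ex3_a s37_pm_012 s22_pm_012

theorem s39_pm_012 : ∃ t, chk3 f_pm_012 t 4 3 1 = true := ex3_b k1_pm_012 s38_pm_012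

theorem s40_pm_012 : ∃ t, chk3 f_pm_012 t 2 3 1 = true := ex3_a s39_pm_012 k20_pm_012

theorem s41_pm_012 : ∃ t, chk3 f_pm_012 t 2 1 1 = true := ex3_b k0_pm_012 s40_pm_012

theorem s42_pm_012 : ∃ t, chk3 f_pm_012 t 1 1 1 = true := ex3_a s41_pm_012 k21_pm_012

theorem c_pm_012 : CertN 0 536870912 536870912 536870912 50331648 16777216 3 true true false .pnp 0 1 2
    ndN0q0 ndN0q1 pcN2 cut_pm_012 Ext.none :=
  certNK2 (fam := true) (s1 := true) (s2 := false) (a := 0) (b := 1) (c := 2) (cn := .pnp) (n1 := ndN0q0) (n2 := ndN0q1) (pc := pcN2) (cut := cut_pm_012) (xt := Ext.none) (P1 := 0) (W1 := 536870912) (P2 := 536870912) (W2 := 536870912) (P3 := 50331648) (W3 := 16777216) (N0 := 3)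
    rfl rfl rfl (fun _ => rfl) s42_pm_012

noncomputable def cut_pm_022 : Cut := Cut.of [[⟨0, 0, 0, 50331648⟩, ⟨1, 1, 0, 50331648⟩, ⟨2, 1, 0, 50331648⟩], [⟨0, 0, 1, 25165824⟩, ⟨1, 1, 0, 8388608⟩, ⟨2, 1, 1, 25165824⟩, ⟨0, 0, 0, 83886080⟩, ⟨0, 1, 0, 1040187392⟩, ⟨2, 1, 0, 83886080⟩, ⟨2, 2, 0, 1040187392⟩]]

noncomputable def f_pm_022 : ℕ → ℕ → ℕ → ℕ → Bool := onCell 1073741824 536870912 0 536870912 50331648 16777216
    (rowNK 3 2 true true false .pp 0 2 2 (qsf 0 536870912 0 536870912 2) ndN0q0 ndN0q2 pcN2 cut_pm_022 Ext.none)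

def k0_pm_022 : ∃ t, chk3 f_pm_022 t 2 2 1 = true :=
  ⟨(a (a (l 1) (b (l 1) (a (l 1) (l 18767264)))) (b (a (a (l 18863104) (l 18729992)) (l 18523904)) (a (a (l 18755784) (l 18665368)) (l 18578528)))), by decide +kernel⟩

def k1_pm_022 : ∃ t, chk3 f_pm_022 t 2 6 1 = true :=
  ⟨(a (a (l 1) (b (a (l 1) (l 18790312)) (b (a (a (l 1) (l 18251072)) (l 18460840)) (a (a (a (l 1) (b (l 17897840) (l 17668376))) (b (l 18161816) (l 18080864))) (l 18328120))))) (a (b (l 18609248) (l 18660472)) (l 18574672))), by decide +kernel⟩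

def k2_pm_022 : ∃ t, chk3 f_pm_022 t 2 14 1 = true :=
  ⟨(a (a (a (l 1) (b (a (l 1) (a (l 1) (b (l 1) (a (b (l 1) (l 16791592)) (b (b (l 17199688) (l 17078888)) (l 17010232)))))) (b (a (l 1) (a (b (a (l 1) (b (l 16791824) (l 16787296))) (a (b (a (l 1) (l 16781040)) (a (l 16776136) (l 16776824))) (l 16780512))) (b (a (l 16803976) (l 17037544)) (a (l 16859800) (l 17004504))))) (b (a (a (l 1) (a (b (l 1) (l 6)) (b (a (l 16771184) (l 16771648)) (a (l 6) (l 16767832))))) (a (a (l 16770744) (l 16771416)) (a (l 16835000) (l 16953336)))) (a (a (l 6) (a (l 6) (a (l 6) (l 16762096)))) (a (a (l 16762464) (l 16762280)) (a (l 16834704) (l 16926216)))))))) (a (a (b (a (b (b (l 17418296) (a (l 17305384) (l 17562248))) (a (b (l 17331360) (l 17332736)) (l 17476208))) (b (l 17756552) (l 17605416))) (a (a (c (b (l 17490392) (l 17410008)) (b (l 16955696) (l 16775048))) (b (l 17269792) (l 17092584))) (b (l 17333768) (a (l 17416784) (l 17555800))))) (b (a (l 17798400) (l 18005560)) (a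 (b (l 17756264) (l 17677368)) (l 17842000)))) (b (a (l 18130040) (l 18235304)) (a (l 17978576) (l 18105048))))) (a (a (l 18284528) (l 18395216)) (l 18520376))), by decide +kernel⟩

def k3_pm_022 : ∃ t, chk3 f_pm_022 t 8 15 1 = true :=
  ⟨(a (l 6) (a (a (l 6) (a (l 6) (a (l 6) (a (l 6) (b (b (b (l 16754144) (l 16746272)) (b (l 16738320) (l 16730272))) (b (b (l 16743088) (b (l 16736952) (l 16743920))) (b (b (l 16752816) (l 16761696)) (l 14)))))))) (b (b (a (b (a (l 16754136) (l 16753080)) (a (l 16745736) (l 16743816))) (b (a (l 16817224) (l 16923384)) (a (l 16803792) (l 16903128)))) (a (a (b (l 16747736) (l 16736544)) (b (l 16734456) (l 16746008))) (b (a (l 16794680) (l 16865680)) (a (l 16769128) (l 16832200))))) (b (a (b (a (a (l 16741584) (l 16739392)) (b (l 16738928) (l 16734224))) (a (b (a (l 16735240) (b (l 16733864) (l 16734600))) (l 16741624)) (b (b (l 16730688) (l 16732024)) (l 16739128)))) (b (a (l 16753536) (l 16781872)) (a (b (l 16793536) (l 16776320)) (b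 (l 16841312) (l 16819368))))) (b (b (a (a (b (l 16748456) (l 16753008)) (a (l 16749608) (l 16748496))) (a (l 16760344) (c (l 17054800) (l 16793696)))) (l 14)) (l 14)))))), by decide +kernel⟩

def k4_pm_022 : ∃ t, chk3 f_pm_022 t 9 15 1 = true :=
  ⟨(a (b (a (a (a (b (b (l 17059784) (l 17034672)) (b (l 16991904) (l 16952608))) (b (b (l 17275504) (l 17246960)) (b (l 17179376) (l 17135816)))) (b (a (l 17287264) (l 17486584)) (a (l 17146656) (l 17426032)))) (a (b (l 17604200) (l 17516800)) (b (l 17728216) (l 17657520)))) (a (b (a (a (b (l 16874984) (a (l 16875864) (l 16956192))) (b (l 17074472) (l 16974464))) (b (l 17135256) (a (l 17217200) (l 17364112)))) (a (b (b (c (l 17174680) (a (l 16864160) (l 17042640))) (c (l 17102640) (l 14))) (c (a (l 14) (l 17281568)) (l 14))) (a (b (l 17137200) (c (l 17361424) (l 14))) (b (l 17343728) (b (l 17330128) (l 17258880)))))) (b (a (l 17311224) (l 17592336)) (a (b (l 17440448) (a (l 17347768) (l 17444248))) (l 17512624))))) (b (b (l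 17943752) (l 17834024)) (a (b (l 17731760) (a (l 17626312) (l 17709696))) (b (l 17881288) (l 17821384))))), by decide +kernel⟩

def k5_pm_022 : ∃ t, chk3 f_pm_022 t 5 15 1 = true :=
  ⟨(a (a (b (l 18134920) (a (l 17976784) (a (l 18060576) (a (l 18099632) (l 18122464))))) (l 18261552)) (l 18463976)), by decide +kernel⟩

def k6_pm_022 : ∃ t, chk3 f_pm_022 t 3 1 1 = true :=
  ⟨(b (a (b (l 18268976) (l 18750320)) (b (l 17940816) (l 18526032))) (b (a (a (l 18608608) (l 18615568)) (l 18536560)) (a (b (l 18669176) (a (l 18644160) (l 18735448))) (b (l 18640976) (l 18858944))))), by decide +kernel⟩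

theorem s7_pm_022 : ∃ t, chk3 f_pm_022 t 4 15 1 = true := ex3_a k3_pm_022 k4_pm_022

theorem s8_pm_022 : ∃ t, chk3 f_pm_022 t 2 15 1 = true := ex3_a s7_pm_022 k5_pm_022

theorem s9_pm_022 : ∃ t, chk3 f_pm_022 t 2 7 1 = true := ex3_b k2_pm_022 s8_pm_022

theorem s10_pm_022 : ∃ t, chk3 f_pm_022 t 2 3 1 = true := ex3_b k1_pm_022 s9_pm_022

theorem s11_pm_022 : ∃ t, chk3 f_pm_022 t 2 1 1 = true := ex3_b k0_pm_022 s10_pm_022

theorem s12_pm_022 : ∃ t, chk3 f_pm_022 t 1 1 1 = true := ex3_a s11_pm_022 k6_pm_022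

theorem c_pm_022 : CertN 0 536870912 0 536870912 50331648 16777216 3 true true false .pp 0 2 2
    ndN0q0 ndN0q2 pcN2 cut_pm_022 Ext.none :=
  certNK2 (fam := true) (s1 := true) (s2 := false) (a := 0) (b := 2) (c := 2) (cn := .pp) (n1 := ndN0q0) (n2 := ndN0q2) (pc := pcN2) (cut := cut_pm_022) (xt := Ext.none) (P1 := 0) (W1 := 536870912) (P2 := 0) (W2 := 536870912) (P3 := 50331648) (W3 := 16777216) (N0 := 3)
    rfl rfl rfl (fun _ => rfl) s12_pm_022

noncomputable def f_pm_023 : ℕ → ℕ → ℕ → ℕ → Bool := onCell 1610612736 536870912 0 536870912 50331648 16777216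
    (rowNK 3 2 true true false .up 0 2 3 (qsf 0 536870912 0 536870912 3) ndN0q0 ndN0q2 pcN3 Cut.none Ext.none)

def k0_pm_023 : ∃ t, chk3 f_pm_023 t 1 1 1 = true :=
  ⟨(a (a (b (b (a (b (l 18249008) (l 18713856)) (b (l 17964824) (l 18249224))) (a (b (l 19192088) (l 19757104)) (b (l 18696288) (l 19172600)))) (b (b (a (l 19711808) (l 19495832)) (l 19471792)) (b (l 19012424) (a (l 18383064) (l 2))))) (b (a (b (b (a (l 17502208) (l 2)) (l 17973472)) (b (l 18192312) (l 18637208))) (l 2)) (b (l 2) (l 2)))) (l 2)), by decide +kernel⟩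

theorem c_pm_023 : CertN 0 536870912 0 536870912 50331648 16777216 3 true true false .up 0 2 3
    ndN0q0 ndN0q2 pcN3 Cut.none Ext.none :=
  certNK2 (fam := true) (s1 := true) (s2 := false) (a := 0) (b := 2) (c := 3) (cn := .up) (n1 := ndN0q0) (n2 := ndN0q2) (pc := pcN3) (cut := Cut.none) (xt := Ext.none) (P1 := 0) (W1 := 536870912) (P2 := 0) (W2 := 536870912) (P3 := 50331648) (W3 := 16777216) (N0 := 3)
    rfl rfl rfl (fun _ => rfl) k0_pm_023

noncomputable def cut_pm_101 : Cut := Cut.of [[⟨0, 1, 0, 50331648⟩, ⟨1, 0, 0, 50331648⟩, ⟨2, 1, 0, 50331648⟩]]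

noncomputable def f_pm_101 : ℕ → ℕ → ℕ → ℕ → Bool := onCell 536870912 536870912 536870912 536870912 50331648 16777216
    (rowNK 3 1 true true false .npn 1 0 1 (qsf 536870912 536870912 0 536870912 1) ndN0q1 ndN0q0 pcN1 cut_pm_101 Ext.none)

def k0_pm_101 : ∃ t, chk3 f_pm_101 t 1 1 1 = true :=
  ⟨(b (l 3) (a (l 3) (b (l 3) (a (l 3) (b (l 3) (a (l 3) (b (l 3) (a (l 3) (l 6))))))))), by decide +kernel⟩

theorem c_pm_101 : CertN 536870912 536870912 0 536870912 50331648 16777216 3 true true false .npn 1 0 1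
    ndN0q1 ndN0q0 pcN1 cut_pm_101 Ext.none :=
  certNK1 (fam := true) (s1 := true) (s2 := false) (a := 1) (b := 0) (c := 1) (cn := .npn) (n1 := ndN0q1) (n2 := ndN0q0) (pc := pcN1) (cut := cut_pm_101) (xt := Ext.none) (P1 := 536870912) (W1 := 536870912) (P2 := 0) (W2 := 536870912) (P3 := 50331648) (W3 := 16777216) (N0 := 3)
    rfl rfl rfl (fun _ => rfl) k0_pm_101

noncomputable def cut_pm_102 : Cut := Cut.of [[⟨0, 1, 0, 50331648⟩, ⟨1, 0, 0, 50331648⟩, ⟨2, 1, 0, 50331648⟩], [⟨0, 1, 0, 8388608⟩, ⟨1, 0, 1, 25165824⟩, ⟨2, 1, 1, 25165824⟩, ⟨1, 0, 0, 83886080⟩, ⟨1, 1, 0, 1040187392⟩, ⟨2, 1, 0, 83886080⟩, ⟨2, 2, 0, 1040187392⟩]]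

noncomputable def f_pm_102 : ℕ → ℕ → ℕ → ℕ → Bool := onCell 536870912 536870912 1073741824 536870912 50331648 16777216
    (rowNK 3 1 true true false .npp 1 0 2 (qsf 536870912 536870912 0 536870912 2) ndN0q1 ndN0q0 pcN2 cut_pm_102 Ext.none)

def k0_pm_102 : ∃ t, chk3 f_pm_102 t 2 1 1 = true :=
  ⟨(b (b (a (l 3) (l 3)) (a (b (b (b (l 3) (l 2)) (l 2)) (l 2)) (b (b (b (a (l 3) (a (l 3) (b (l 3) (l 16859216)))) (b (a (l 112910921575) (l 77477412199)) (b (a (l 16877160) (l 16858136)) (b (a (l 16847424) (l 16845648)) (a (l 16820576) (l 16830288)))))) (a (l 16873968) (l 16941544))) (a (l 17019360) (l 17053968))))) (a (l 2) (a (l 2) (b (l 17309656) (l 2))))), by decide +kernel⟩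

def k1_pm_102 : ∃ t, chk3 f_pm_102 t 6 2 1 = true :=
  ⟨(b (b (l 3) (b (a (l 3) (a (l 3) (b (l 3) (b (l 3) (a (l 3) (l 112373884871)))))) (a (b (l 3) (a (l 3) (b (l 135996243447) (l 100562742631)))) (b (a (b (l 3) (l 112910812919)) (a (b (l 111836993591) (l 16822408)) (b (l 72645489751) (l 16846408)))) (a (a (l 78014214103) (l 16823968)) (a (l 16891256) (l 16955464))))))) (b (b (b (a (a (l 83382951159) (b (l 16823992) (l 16837784))) (a (l 16862640) (l 17031424))) (b (a (a (l 16823488) (l 16871944)) (a (l 16936432) (l 17021464))) (b (a (l 16869424) (l 17063176)) (a (b (l 16879896) (l 16886608)) (b (a (l 16971376) (l 17062496)) (a (l 16978528) (l 17075728))))))) (a (a (l 16915648) (l 16968136)) (a (l 17035352) (l 17156928)))) (a (l 17124608) (a (l 17158456) (l 17319536))))), by decide +kernel⟩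

def k2_pm_102 : ∃ t, chk3 f_pm_102 t 14 8 1 = true :=
  ⟨(b (l 3) (a (l 3) (b (l 3) (a (l 3) (b (a (l 3) (b (l 3) (a (l 3) (b (a (l 3) (l 105931379319)) (a (l 109689473655) (l 76940352231)))))) (a (b (a (l 3) (l 112373860023)) (a (l 103783920551) (b (l 83382817399) (l 16799280)))) (b (a (b (l 107005120567) (a (l 78014097863) (l 16795464))) (b (a (l 56539256839) (l 16800736)) (l 16810920))) (l 16802960)))))))), by decide +kernel⟩

def k3_pm_102 : ∃ t, chk3 f_pm_102 t 30 16 1 = true :=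
  ⟨(b (l 3) (a (l 3) (b (l 3) (a (l 3) (b (l 3) (a (l 3) (b (a (l 3) (b (l 3) (a (l 3) (b (a (l 3) (c (l 104857616055) (l 107005099383))) (b (a (l 105394487255) (a (l 90898972807) (l 16784720))) (a (c (l 89288361367) (l 89288361031)) (l 16784616))))))) (b (a (a (l 3) (b (l 3) (a (l 3) (l 104857617799)))) (a (a (b (l 105394488791) (a (l 94657071063) (b (l 97341424327) (l 16785208)))) (a (b (l 107541970855) (a (l 16785776) (l 16784984))) (b (b (l 97341423991) (l 16785416)) (l 16784736)))) (a (a (b (b (l 81235296487) (l 16784848)) (l 16784360)) (l 16784336)) (l 16783728)))) (a (a (b (l 3) (a (l 3) (l 107005101335))) (b (a (l 107541972295) (b (l 91435845591) (a (l 84456522695) (l 16785304)))) (a (b (a (l 98415167031) (l 16785208)) (l 16786184)) (l 16785032)))) (l 16785360)))))))))), by decide +kernel⟩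

def k4_pm_102 : ∃ t, chk3 f_pm_102 t 60 34 1 = true :=
  ⟨(b (l 3) (a (l 3) (b (a (l 3) (b (l 3) (a (b (l 3) (a (l 3) (l 107541981607))) (b (a (l 104320756807) (b (l 108078850503) (l 76940340119))) (a (b (l 100562657223) (l 64592308551)) (l 16789912)))))) (a (b (a (l 3) (b (l 3) (a (l 104857629351) (l 98415174887)))) (a (b (l 108615726887) (a (l 108078853351) (l 69424150615))) (b (a (l 78550956567) (l 16790632)) (l 16794120)))) (b (a (b (a (l 105931368231) (b (l 79624695511) (l 16789704))) (a (a (l 16792168) (l 16790192)) (l 16792912))) (l 16786576)) (l 16786064)))))), by decide +kernel⟩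

def k5_pm_102 : ∃ t, chk3 f_pm_102 t 122 68 1 = true :=
  ⟨(b (a (l 3) (b (l 3) (a (l 3) (b (l 3) (a (l 3) (b (l 3) (a (l 3) (l 105394492055)))))))) (a (b (l 3) (a (l 3) (b (a (l 3) (b (l 3) (l 105931366983))) (a (b (l 3) (l 104857624599)) (b (a (l 105931365703) (l 93583335767)) (a (l 86067142871) (l 16788456))))))) (b (a (b (l 3) (a (l 3) (a (a (l 106468237079) (l 104857623351)) (b (l 105931364711) (a (l 96267688919) (l 83382786199)))))) (b (a (b (l 3) (a (l 106468235735) (l 107541975591))) (b (a (l 108078846551) (a (l 88751494535) (l 16787032))) (b (a (l 82845914407) (l 16787208)) (l 16787248)))) (a (a (b (c (l 91435851383) (l 91972721863)) (l 16787840)) (b (c (l 16787848) (l 16788208)) (l 16787312))) (l 16788424)))) (a (b (a (b (a (l 3) (l 108078847991)) (a (l 107005105959) (c (l 71034756567) (l 70497885111)))) (a (b (a (l 92509592359) (l 16787688)) (l 16787896)) (l 16787616))) (a (a (b (l 16788432) (l 16788344)) (l 16788752)) (l 16791736))) (l 16784952))))), by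 decide +kernel⟩

def k6_pm_102 : ∃ t, chk3 f_pm_102 t 123 68 1 = true :=
  ⟨(b (a (b (a (l 3) (b (a (l 3) (b (l 3) (a (l 105931361431) (b (l 104320747143) (l 85530266471))))) (a (b (a (l 3) (l 105394490423)) (a (l 108615715831) (b (l 93046460087) (l 67813526343)))) (b (b (a (l 95193943735) (l 16786032)) (a (c (l 77477203079) (l 77477202759)) (l 16785768))) (c (l 16785728) (l 16785536)))))) (a (b (a (b (l 3) (a (l 3) (l 106468234071))) (b (a (l 3) (l 107541973943)) (a (c (l 103247006823) (l 104320748247)) (b (l 76403461847) (l 16786624))))) (a (b (a (l 105931363063) (a (l 96267687287) (l 86067139143))) (a (a (l 95730816279) (l 78550946359)) (l 16786920))) (a (a (b (l 16786888) (l 16786408)) (l 16786384)) (l 16786312)))) (b (b (a (a (a (l 82845912839) (l 16786504)) (l 16786048)) (l 16785856)) (l 16786616)) (l 16790448)))) (b (a (b (a (b (b (a (l 105394489031) (a (l 96267683335) (l 16785680))) (a (l 92509588295) (l 16785624))) (a (a (a (l 73182234487) (l 16785896)) (l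 16785680)) (l 16785144))) (l 16784320)) (l 16786608)) (l 16789016)) (a (l 16794368) (l 16799688)))) (a (b (a (l 16786208) (l 16799656)) (l 16788408)) (b (l 16789032) (l 16803496)))), by decide +kernel⟩

def k7_pm_102 : ∃ t, chk3 f_pm_102 t 61 69 1 = true :=
  ⟨(a (a (b (b (a (b (a (l 3) (b (l 3) (l 107541978631))) (a (b (l 104857625623) (a (l 104320753463) (l 83919660071))) (b (a (l 91435852967) (l 16788960)) (l 16788760)))) (b (a (a (b (l 108078848855) (l 16788288)) (b (l 78550949975) (l 16788448))) (l 16789256)) (l 16792960))) (b (a (a (a (a (l 65129178359) (l 16789104)) (l 16789456)) (l 16792360)) (l 16800128)) (l 16791776))) (l 16788496)) (b (b (l 16789120) (l 16820544)) (l 16824600))) (b (a (b (l 16824576) (l 16840784)) (b (l 16840288) (l 16857160))) (a (l 16845504) (l 16862976)))), by decide +kernel⟩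

def k8_pm_102 : ∃ t, chk3 f_pm_102 t 30 35 1 = true :=
  ⟨(a (b (a (b (a (b (l 3) (a (l 3) (l 106468245015))) (b (a (l 109152601319) (b (l 103783887143) (a (l 79624699735) (l 16791416)))) (a (b (l 84993414359) (l 16792464)) (l 16787968)))) (a (b (a (l 97341448311) (b (l 62444833063) (l 16795888))) (a (l 16796488) (l 16807320))) (l 16795984))) (b (a (a (a (c (l 16792824) (l 16792232)) (l 16794320)) (l 16792856)) (l 16811376)) (a (l 16841880) (l 16867176)))) (a (b (l 16791472) (l 16872816)) (b (l 16889456) (l 16924224)))) (b (a (b (a (l 16856928) (l 16880584)) (l 16883568)) (b (a (l 16902448) (l 16921464)) (a (l 16939456) (l 16960056)))) (a (b (l 16940448) (l 16976208)) (b (l 16988136) (l 17025944))))), by decide +kernel⟩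

def k9_pm_102 : ∃ t, chk3 f_pm_102 t 31 32 1 = true :=
  ⟨(a (a (l 3) (l 6)) (l 6)), by decide +kernel⟩

def k10_pm_102 : ∃ t, chk3 f_pm_102 t 31 66 1 = true :=
  ⟨(a (a (b (l 3) (a (l 3) (b (l 3) (a (l 3) (b (a (l 3) (a (a (l 3) (l 6)) (l 6))) (a (a (b (l 3) (a (l 106468225287) (a (l 103783869911) (b (l 95730807431) (l 73182228519))))) (b (a (l 3) (b (l 3) (l 86604001911))) (a (b (a (l 94120194423) (l 79087808455)) (l 16782624)) (a (b (l 16782656) (l 16782352)) (l 16782336))))) (b (b (a (a (l 90362098119) (b (l 6) (l 16782440))) (l 6)) (b (c (l 14663298295) (l 16782696)) (l 16781904))) (l 16781408)))))))) (b (l 6) (a (b (l 6) (a (b (l 6) (l 16781816)) (l 6))) (l 6)))) (l 6)), by decide +kernel⟩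

def k11_pm_102 : ∃ t, chk3 f_pm_102 t 124 134 1 = true :=
  ⟨(a (b (a (l 3) (b (l 3) (a (l 3) (b (l 3) (a (l 3) (c (l 104857614215) (l 107541968487))))))) (a (b (l 3) (a (l 3) (b (l 3) (a (l 104857616039) (a (l 105931356263) (b (l 95730809895) (l 64592296599))))))) (b (b (a (l 3) (b (a (l 3) (b (l 88751487175) (a (l 94657066855) (l 16783504)))) (a (l 104857613479) (b (a (l 76940326423) (l 16783376)) (l 16783392))))) (a (a (l 3) (a (l 104857614503) (b (l 105394484887) (l 85530262119)))) (a (a (b (l 89825229079) (l 16783696)) (b (l 56002360871) (l 16783360))) (l 16782960)))) (a (b (b (a (l 107541969031) (a (l 81235294871) (l 16783736))) (a (a (l 97341422631) (l 76403456727)) (l 16783608))) (a (a (b (l 71034747431) (l 16783840)) (l 16783648)) (l 16783056))) (l 16782192))))) (b (a (b (a (l 3) (b (a (l 3) (b (l 106468225255) (b (l 88751486247) (a (l 94120194935) (l 16782928))))) (a (b (l 105394483415) (a (l 90898970071) (a (l 70497874503) (l 16783008)))) (a (b (a (l 76403454471)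 (l 16782968)) (l 16782752)) (l 16782552))))) (a (b (b (a (l 3) (a (l 105394483911) (l 87140873863))) (a (l 107541968087) (a (l 82845906583) (l 16783160)))) (b (a (a (l 95730808775) (a (l 91435840903) (l 73182229591))) (l 16783024)) (a (a (a (l 86067131975) (l 16783376)) (l 16783232)) (l 16782664)))) (a (c (l 16783800) (l 16783672)) (l 16781576)))) (a (a (a (b (b (b (a (l 87140872599) (l 67276648487)) (l 16782688)) (l 16782144)) (l 16780920)) (l 16782624)) (l 16783280)) (l 16781952))) (a (a (l 16783896) (l 16784752)) (l 16780104)))), by decide +kernel⟩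

def k12_pm_102 : ∃ t, chk3 f_pm_102 t 124 135 1 = true :=
  ⟨(a (b (a (b (a (b (a (l 3) (l 107005099639)) (a (l 106468228679) (a (b (l 96267681415) (l 76940328295)) (b (l 82309037335) (l 16784312))))) (a (b (b (l 92509585575) (a (l 86604004583) (l 16784232))) (l 16783952)) (l 16784192))) (b (a (a (a (b (l 96267681735) (l 16784664)) (b (l 70497877527) (l 16784384))) (l 16784008)) (l 16782776)) (l 16782816))) (c (l 16783928) (l 16783120))) (a (l 16783600) (l 16782960))) (a (b (l 16782232) (l 16778448)) (b (b (l 16784744) (l 16793512)) (a (l 16792872) (l 16790016))))), by decide +kernel⟩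

def k13_pm_102 : ∃ t, chk3 f_pm_102 t 125 67 1 = true :=
  ⟨(b (a (a (a (b (l 16782800) (l 16784640)) (b (l 16781016) (b (l 16794192) (l 16792480)))) (a (b (l 16779240) (l 16781072)) (b (l 6) (l 16780040)))) (b (l 6) (a (l 16770088) (l 6)))) (a (b (a (b (l 16781168) (a (l 16790824) (l 16789712))) (a (l 16789840) (l 16779288))) (a (l 16778696) (l 16778600))) (a (b (l 16769344) (l 16767976)) (b (l 16768496) (l 16767792))))), by decide +kernel⟩

def k14_pm_102 : ∃ t, chk3 f_pm_102 t 63 67 1 = true :=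
  ⟨(b (l 6) (a (a (a (b (l 6) (l 16767568)) (l 6)) (l 6)) (l 6))), by decide +kernel⟩

def k15_pm_102 : ∃ t, chk3 f_pm_102 t 31 68 1 = true :=
  ⟨(a (b (b (a (a (a (l 16791768) (l 16791632)) (a (l 16787840) (l 16779512))) (a (a (l 16788480) (l 16767416)) (a (l 16767288) (l 16767112)))) (a (a (a (l 16802864) (l 16803296)) (a (l 16800336) (l 16793216))) (a (a (l 16781040) (l 16766752)) (a (l 16766624) (l 16766464))))) (b (a (a (a (l 16816240) (l 16817312)) (a (l 16815272) (l 16809440))) (a (a (l 16799008) (l 16782992)) (a (l 16766000) (l 16767312)))) (a (a (l 16790680) (a (l 16832128) (l 16827616))) (a (a (l 16797960) (l 16805200)) (a (l 16785376) (c (l 16767384) (l 16767872))))))) (a (a (b (a (a (b (l 16766960) (l 16766424)) (b (l 16769936) (l 16766224))) (b (a (l 16766768) (l 6)) (l 16767016))) (b (a (l 16767008) (l 16765888)) (a (l 16765360) (l 16765424)))) (b (a (a (b (l 6) (l 16766392)) (l 6)) (l 6)) (a (b (c (l 16766704) (l 16765792)) (l 16766760)) (b (a (l 16765920)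 (l 6)) (a (l 16765448) (l 16765432)))))) (a (b (l 6) (a (a (b (l 6) (l 16765408)) (l 6)) (l 6))) (l 6)))), by decide +kernel⟩

def k16_pm_102 : ∃ t, chk3 f_pm_102 t 31 69 1 = true :=
  ⟨(a (a (b (a (b (l 16828592) (l 16867632)) (a (l 16818160) (l 16794640))) (a (a (l 16893776) (l 16898264)) (a (l 16879736) (l 16858752)))) (a (a (b (b (l 16819336) (l 16841784)) (l 16834840)) (b (b (l 16807808) (l 16832368)) (b (l 16836624) (l 16841232)))) (b (a (b (l 16769880) (l 16776112)) (a (l 16767584) (l 16765432))) (a (a (l 16778888) (l 16793400)) (a (l 16785616) (l 16776416)))))) (a (a (b (a (a (l 16766520) (l 16765456)) (b (l 16764976) (l 16764536))) (a (a (l 16773520) (l 16763672)) (a (l 16765080) (l 16765744)))) (b (a (b (l 16764992) (l 16764536)) (a (b (l 16764976) (l 16764520)) (b (l 16764960) (l 16764488)))) (a (b (l 16764096) (l 16763000)) (b (l 16764704) (l 16763600))))) (a (b (a (a (b (l 16764928) (l 16764456)) (b (l 16764888) (l 14))) (b (a (l 16766144) (l 6)) (l 14)))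 (a (a (b (l 16763992) (l 16763528)) (l 14)) (l 14))) (b (b (l 6) (l 14)) (l 14))))), by decide +kernel⟩

def k17_pm_102 : ∃ t, chk3 f_pm_102 t 31 35 1 = true :=
  ⟨(a (a (b (b (a (l 16936232) (l 16881928)) (a (l 16977208) (l 16926408))) (b (a (l 17018304) (l 17033648)) (a (l 17058896) (l 17077176)))) (b (b (a (a (l 16840856) (b (l 16908928) (l 16955720))) (a (l 16789784) (a (l 16845440) (l 16818224)))) (a (a (l 16993888) (l 16973192)) (a (l 16928800) (l 16860224)))) (a (b (l 17043224) (l 17090776)) (b (a (l 17045280) (l 17001576)) (l 17076928))))) (a (a (a (b (a (b (l 16789768) (l 16895464)) (b (l 16780928) (l 16868688))) (b (l 16954824) (l 17097496))) (b (b (b (l 16788304) (l 16804304)) (b (l 16840256) (l 16875160))) (b (a (l 16948896) (l 16922720)) (l 17030832)))) (a (b (b (b (l 16763904) (l 16768624)) (c (l 16944360) (b (l 16796264) (l 16815320)))) (b (b (a (l 16940784) (l 16911472)) (l 16951608)) (l 16960792))) (b (b (b (l 16762408) (l 16762080)) (c (b (l 16949184)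 (l 17032128)) (b (l 16761616) (l 16762016)))) (b (c (l 17090232) (b (l 16784128) (l 16867360))) (b (l 16931536) (l 17030584)))))) (a (a (a (a (b (b (l 16764168) (c (l 16914304) (l 16760752))) (c (b (l 17081808) (l 17157800)) (b (l 16759104) (l 16911728)))) (l 14)) (l 14)) (l 14)) (l 14)))), by decide +kernel⟩

def k18_pm_102 : ∃ t, chk3 f_pm_102 t 7 18 1 = true :=
  ⟨(a (a (b (a (l 3) (b (l 3) (a (l 125795636311) (b (l 122574395847) (l 73182296471))))) (a (b (l 109152676199) (b (l 73182323383) (l 16794880))) (b (a (b (l 83919697927) (l 16809176)) (l 16797112)) (l 16803216)))) (b (a (b (a (b (l 3) (l 107005154439)) (b (a (l 116668809223) (l 87677788439)) (a (l 68887314999) (l 16811208)))) (a (b (a (l 82309080743) (l 16802800)) (l 16822032)) (l 16794368))) (b (a (b (b (l 16798648) (l 16798296)) (l 16822200)) (a (l 16840608) (l 16885672))) (a (l 16869464) (l 16937576)))) (a (b (a (l 16844800) (l 16906544)) (l 16921064)) (b (l 16953048) (l 17030776))))) (a (b (a (b (a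 (l 16923248) (l 16975440)) (l 16951264)) (b (a (l 17028872) (l 17081240)) (a (l 17096224) (l 17151696)))) (a (b (l 17075608) (l 17133632)) (b (a (l 17159216) (l 17218880)) (l 17252424)))) (b (a (b (a (b (l 17109544) (l 17149200)) (a (l 17158864) (l 17110000))) (a (l 17205952) (l 17253784))) (b (a (a (b (l 17132320) (l 17206992)) (b (a (l 17129520) (l 17060912)) (l 17188408))) (c (a (b (l 17223400) (l 17290816)) (b (a (l 17209984) (l 14)) (l 17283144))) (a (a (b (l 16961016) (l 17117680)) (l 14)) (l 14)))) (b (a (l 17199632) (a (l 17224152) (a (l 17216688) (l 17081384)))) (a (l 17312008) (a (l 17325576) (l 17239488)))))) (a (b (a (l 17278560) (l 17333648)) (l 17379904)) (b (a (l 17379008) (a (l 17401216) (l 17344096))) (a (l 17461600) (l 17497904))))))), by decide +kernel⟩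

def k19_pm_102 : ∃ t, chk3 f_pm_102 t 7 19 1 = true :=
  ⟨(a (b (a (b (a (l 16832536) (l 16918504)) (a (l 16902200) (l 16967728))) (a (l 16999040) (l 17108896))) (a (b (l 16916784) (l 17022640)) (a (l 17111824) (l 17207032)))) (a (b (a (b (l 17188624) (l 17241960)) (l 17347104)) (a (l 17327464) (l 17470880))) (a (b (a (l 17450480) (l 17516336)) (l 17614216)) (b (a (l 17575736) (l 17622680)) (l 17742920))))), by decide +kernel⟩

def k20_pm_102 : ∃ t, chk3 f_pm_102 t 7 5 1 = true :=
  ⟨(b (a (b (b (a (l 17232536) (a (l 17202512) (l 17314056))) (b (a (l 17144768) (l 17348600)) (a (b (l 17182832) (b (l 17218784) (l 17250272))) (a (l 17374952) (l 17494352))))) (a (l 17325680) (l 17554712))) (b (b (a (a (l 17450368) (l 17593144)) (a (l 17736976) (l 17870304))) (b (a (l 17615000) (l 17894552)) (a (b (l 17665168) (l 17703680)) (b (l 17937384) (a (l 17901192) (l 18027304)))))) (a (l 17809592) (l 18074136)))) (a (a (l 17457744) (l 17722448)) (a (l 18009384) (b (l 18235384)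 (l 18362552))))), by decide +kernel⟩

def k21_pm_102 : ∃ t, chk3 f_pm_102 t 3 3 1 = true :=
  ⟨(a (b (a (l 17317456) (b (l 17299528) (l 17328648))) (a (l 2) (l 17337728))) (b (a (a (b (l 17525352) (l 17514880)) (l 18100840)) (a (b (l 18162712) (l 18211040)) (b (l 18497384) (l 18587864)))) (a (a (l 17660736) (a (l 17740512) (l 17819616))) (a (l 18298872) (b (l 18586936) (l 18510800)))))), by decide +kernel⟩

theorem s22_pm_102 : ∃ t, chk3 f_pm_102 t 7 9 1 = true := ex3_b k18_pm_102 k19_pm_102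

theorem s23_pm_102 : ∃ t, chk3 f_pm_102 t 31 34 1 = true := ex3_b k15_pm_102 k16_pm_102

theorem s24_pm_102 : ∃ t, chk3 f_pm_102 t 31 17 1 = true := ex3_b s23_pm_102 k17_pm_102

theorem s25_pm_102 : ∃ t, chk3 f_pm_102 t 124 67 1 = true := ex3_b k11_pm_102 k12_pm_102

theorem s26_pm_102 : ∃ t, chk3 f_pm_102 t 62 67 1 = true := ex3_a s25_pm_102 k13_pm_102

theorem s27_pm_102 : ∃ t, chk3 f_pm_102 t 31 67 1 = true := ex3_a s26_pm_102 k14_pm_102

theorem s28_pm_102 : ∃ t, chk3 f_pm_102 t 31 33 1 = true := ex3_b k10_pm_102 s27_pm_102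

theorem s29_pm_102 : ∃ t, chk3 f_pm_102 t 31 16 1 = true := ex3_b k9_pm_102 s28_pm_102

theorem s30_pm_102 : ∃ t, chk3 f_pm_102 t 31 8 1 = true := ex3_b s29_pm_102 s24_pm_102

theorem s31_pm_102 : ∃ t, chk3 f_pm_102 t 61 68 1 = true := ex3_a k5_pm_102 k6_pm_102

theorem s32_pm_102 : ∃ t, chk3 f_pm_102 t 61 34 1 = true := ex3_b s31_pm_102 k7_pm_102

theorem s33_pm_102 : ∃ t, chk3 f_pm_102 t 30 34 1 = true := ex3_a k4_pm_102 s32_pm_102

theorem s34_pm_102 : ∃ t, chk3 f_pm_102 t 30 17 1 = true := ex3_b s33_pm_102 k8_pm_102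

theorem s35_pm_102 : ∃ t, chk3 f_pm_102 t 30 8 1 = true := ex3_b k3_pm_102 s34_pm_102

theorem s36_pm_102 : ∃ t, chk3 f_pm_102 t 15 8 1 = true := ex3_a s35_pm_102 s30_pm_102

theorem s37_pm_102 : ∃ t, chk3 f_pm_102 t 7 8 1 = true := ex3_a k2_pm_102 s36_pm_102

theorem s38_pm_102 : ∃ t, chk3 f_pm_102 t 7 4 1 = true := ex3_b s37_pm_102 s22_pm_102

theorem s39_pm_102 : ∃ t, chk3 f_pm_102 t 7 2 1 = true := ex3_b s38_pm_102 k20_pm_102

theorem s40_pm_102 : ∃ t, chk3 f_pm_102 t 3 2 1 = true := ex3_a k1_pm_102 s39_pm_102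

theorem s41_pm_102 : ∃ t, chk3 f_pm_102 t 3 1 1 = true := ex3_b s40_pm_102 k21_pm_102

theorem s42_pm_102 : ∃ t, chk3 f_pm_102 t 1 1 1 = true := ex3_a k0_pm_102 s41_pm_102

theorem c_pm_102 : CertN 536870912 536870912 0 536870912 50331648 16777216 3 true true false .npp 1 0 2
    ndN0q1 ndN0q0 pcN2 cut_pm_102 Ext.none :=
  certNK1 (fam := true) (s1 := true) (s2 := false) (a := 1) (b := 0) (c := 2) (cn := .npp) (n1 := ndN0q1) (n2 := ndN0q0) (pc := pcN2) (cut := cut_pm_102) (xt := Ext.none) (P1 := 536870912) (W1 := 536870912) (P2 := 0) (W2 := 536870912) (P3 := 50331648) (W3 := 16777216) (N0 := 3)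
    rfl rfl rfl (fun _ => rfl) s42_pm_102

noncomputable def f_pm_112 : ℕ → ℕ → ℕ → ℕ → Bool := onCell 536870912 536870912 1073741824 536870912 50331648 16777216
    (rowNK 3 1 true true false .dn 1 1 2 (qsf 536870912 536870912 536870912 536870912 2) ndN0q1 ndN0q1 pcN2 Cut.none Ext.none)

def k0_pm_112 : ∃ t, chk3 f_pm_112 t 1 1 1 = true :=
  ⟨(a (b (b (a (l 3) (l 3)) (a (b (b (b (l 3) (b (l 3) (b (a (l 16864848) (l 3)) (a (b (l 16855560) (l 16849312)) (b (l 16858832) (l 16831872)))))) (a (l 16887792) (l 16876152))) (a (l 17086968) (l 17002808))) (a (b (b (b (l 3) (b (l 112910940535) (b (l 16877392) (b (l 16868592) (l 16841728))))) (l 16894864)) (l 16998416)) (b (b (l 1) (l 16920176)) (l 17032808))))) (b (a (b (a (l 17109544) (l 17034952)) (l 17441536)) (b (l 17269576) (l 17238704))) (a (b (a (a (l 17545992) (l 17366536)) (l 17271720)) (a (a (b (l 17900824) (l 18266136)) (b (l 17538744) (l 17831184))) (a (l 17455592) (l 17327520)))) (a (l 17217536) (l 17182888)))))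 (b (a (b (l 1) (b (l 1) (a (l 109555822087) (l 1)))) (l 1)) (b (a (a (l 17275528) (l 100430068391)) (a (a (l 122979011831) (l 1)) (l 1))) (a (a (l 17215288) (l 17316944)) (a (b (l 93988150199) (l 17742352)) (a (l 18321352) (l 36544850519))))))), by decide +kernel⟩

theorem c_pm_112 : CertN 536870912 536870912 536870912 536870912 50331648 16777216 3 true true false .dn 1 1 2
    ndN0q1 ndN0q1 pcN2 Cut.none Ext.none :=
  certNK1 (fam := true) (s1 := true) (s2 := false) (a := 1) (b := 1) (c := 2) (cn := .dn) (n1 := ndN0q1) (n2 := ndN0q1) (pc := pcN2) (cut := Cut.none) (xt := Ext.none) (P1 := 536870912) (W1 := 536870912) (P2 := 536870912) (W2 := 536870912) (P3 := 50331648) (W3 := 16777216) (N0 := 3)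
    rfl rfl rfl (fun _ => rfl) k0_pm_112

noncomputable def cut_pm_113 : Cut := Cut.of [[⟨0, 1, 0, 14341072⟩, ⟨1, 1, 0, 14341072⟩, ⟨2, 2, 0, 761489⟩]]

noncomputable def f_pm_113 : ℕ → ℕ → ℕ → ℕ → Bool := onCell 536870912 536870912 536870912 536870912 50331648 16777216
    (rowNK 3 0 true true false .nn 1 1 3 (qsf 536870912 536870912 536870912 536870912 3) ndN0q1 ndN0q1 pcN3 cut_pm_113 Ext.none)

def k0_pm_113 : ∃ t, chk3 f_pm_113 t 2 1 1 = true :=
  ⟨(b (a (l 1) (b (l 1) (a (l 1) (l 17153720)))) (b (a (l 139621614295) (l 17425936)) (b (a (a (l 17739944) (l 17605808)) (b (l 17440192) (a (l 17560080) (l 17442368)))) (a (b (l 17769632) (a (l 17840784) (l 17942824))) (b (a (l 17720592) (l 17718720)) (a (l 18038768) (l 18167880))))))), by decide +kernel⟩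

def k1_pm_113 : ∃ t, chk3 f_pm_113 t 3 2 1 = true :=
  ⟨(a (b (l 139621614295) (l 17425936)) (a (b (b (l 17739944) (l 17605808)) (a (l 17440192) (b (l 17560080) (l 17442368)))) (b (a (l 17769632) (b (l 17840784) (l 17942824))) (a (b (l 17720592) (l 17718720)) (b (l 18038768) (l 18167880)))))), by decide +kernel⟩

def k2_pm_113 : ∃ t, chk3 f_pm_113 t 3 6 1 = true :=
  ⟨(a (l 17246336) (a (b (l 17282112) (l 17138624)) (b (a (a (l 17365568) (l 17599136)) (a (l 17832480) (l 18200880))) (a (a (l 17178656) (l 17508440)) (a (b (l 17654072) (a (l 17349336) (l 17580424))) (b (l 18104192) (l 18102040))))))), by decide +kernel⟩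

def k3_pm_113 : ∃ t, chk3 f_pm_113 t 6 7 1 = true :=
  ⟨(b (a (l 17282112) (l 17138624)) (a (b (b (l 17365568) (l 17599136)) (b (l 17832480) (l 18200880))) (b (b (l 17178656) (l 17508440)) (b (a (l 17654072) (b (l 17349336) (l 17580424))) (a (l 18104192) (l 18102040)))))), by decide +kernel⟩

def k4_pm_113 : ∃ t, chk3 f_pm_113 t 7 14 1 = true :=
  ⟨(a (l 16974464) (a (b (l 17066184) (l 16976168)) (b (a (b (l 17432104) (l 17327728)) (a (l 17619000) (l 17952968))) (a (a (l 17000240) (l 17338704)) (a (a (b (l 17326008) (l 17147736)) (l 17468808)) (a (l 17600640) (l 17951224))))))), by decide +kernel⟩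

def k5_pm_113 : ∃ t, chk3 f_pm_113 t 14 15 1 = true :=
  ⟨(b (a (l 17066184) (l 16976168)) (a (a (b (l 17432104) (l 17920512)) (b (l 17327728) (l 17972528))) (b (b (l 17000240) (l 17338704)) (b (b (a (l 17326008) (l 17147736)) (l 17468808)) (b (l 17600640) (l 17951224)))))), by decide +kernel⟩

def k6_pm_113 : ∃ t, chk3 f_pm_113 t 15 30 1 = true :=
  ⟨(a (l 16877728) (a (b (b (l 16946080) (l 16920952)) (l 16881888)) (a (b (b (l 17237728) (l 17162120)) (a (l 16908552) (l 17120536))) (b (a (l 17315464) (l 17578488)) (a (b (l 17158480) (l 17146488)) (a (l 17299312) (l 17533392))))))), by decide +kernel⟩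

def k7_pm_113 : ∃ t, chk3 f_pm_113 t 30 31 1 = true :=
  ⟨(b (a (a (l 16946080) (l 16920952)) (l 16881888)) (b (a (a (l 17237728) (l 17162120)) (b (l 16908552) (l 17120536))) (a (b (l 17315464) (l 17578488)) (b (a (l 17158480) (l 17146488)) (b (l 17299312) (l 17533392)))))), by decide +kernel⟩

def k8_pm_113 : ∃ t, chk3 f_pm_113 t 31 62 1 = true :=
  ⟨(a (l 16827344) (a (b (a (l 16855920) (l 16869048)) (l 16831056)) (a (b (l 17102512) (b (l 16956792) (l 17112088))) (b (a (l 17082616) (l 17258632)) (a (l 17078808) (a (l 17082264) (l 17204136))))))), by decide +kernel⟩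

def k9_pm_113 : ∃ t, chk3 f_pm_113 t 62 63 1 = true :=
  ⟨(b (a (b (l 16855920) (l 16869048)) (l 16831056)) (b (a (l 17102512) (a (l 16956792) (l 17112088))) (a (b (l 17082616) (l 17258632)) (b (l 17078808) (b (l 17082264) (l 17204136)))))), by decide +kernel⟩

def k10_pm_113 : ∃ t, chk3 f_pm_113 t 63 63 1 = true :=
  ⟨(b (a (l 16802168) (a (l 17087088) (a (b (l 16965176) (l 16986512)) (a (b (l 16961016) (l 16953000)) (b (l 17042176) (b (l 16969352) (l 16955208))))))) (a (b (l 17087088) (b (a (l 16965176) (l 16986512)) (b (a (l 16961016) (l 16953000)) (a (l 17042176) (a (l 16969352) (l 16955208)))))) (b (a (l 16789656) (a (l 16932912) (b (a (l 16882824) (a (l 16882288) (l 16913344))) (a (l 16893008) (a (l 16866152) (b (l 16885968) (l 16867648))))))) (a (b (l 16932912) (a (b (l 16882824) (b (l 16882288) (l 16913344))) (b (l 16893008) (b (l 16866152) (a (l 16885968) (l 16867648)))))) (b (a (l 16783424) (a (l 16860504) (b (a (l 16840800) (a (l 16840928) (l 16856712)))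 (a (l 16835280) (a (l 16821952) (b (l 16842640) (l 16833288))))))) (a (b (l 16860504) (a (b (l 16840800) (b (l 16840928) (l 16856712))) (b (l 16835280) (b (l 16821952) (a (l 16842640) (l 16833288)))))) (b (a (l 16780320) (a (l 16818912) (a (b (l 16809080) (l 16806296)) (a (b (l 16819736) (l 16810136)) (b (l 16817200) (b (l 16810072) (l 16805344))))))) (a (b (l 16818912) (b (a (l 16809080) (l 16806296)) (b (a (l 16819736) (l 16810136)) (a (l 16817200) (a (l 16810072) (l 16805344)))))) (b (a (l 16778768) (a (l 16798080) (b (a (l 16803656) (a (l 16798520) (l 16797272))) (a (l 16791768) (a (l 16793696) (b (l 16793680) (l 6))))))) (b (a (l 16798080) (a (l 16777992) (a (l 16787648) (l 6)))) (b (a (a (l 16803656) (l 16791768)) (a (l 16787648) (l 6))) (a (a (a (l 16801744) (l 16799376)) (b (l 16793696) (a (l 16793680) (l 6)))) (l 6))))))))))))), by decide +kernel⟩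

theorem s11_pm_113 : ∃ t, chk3 f_pm_113 t 31 63 1 = true := ex3_a k9_pm_113 k10_pm_113

theorem s12_pm_113 : ∃ t, chk3 f_pm_113 t 31 31 1 = true := ex3_b k8_pm_113 s11_pm_113

theorem s13_pm_113 : ∃ t, chk3 f_pm_113 t 15 31 1 = true := ex3_a k7_pm_113 s12_pm_113

theorem s14_pm_113 : ∃ t, chk3 f_pm_113 t 15 15 1 = true := ex3_b k6_pm_113 s13_pm_113

theorem s15_pm_113 : ∃ t, chk3 f_pm_113 t 7 15 1 = true := ex3_a k5_pm_113 s14_pm_113

theorem s16_pm_113 : ∃ t, chk3 f_pm_113 t 7 7 1 = true := ex3_b k4_pm_113 s15_pm_113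

theorem s17_pm_113 : ∃ t, chk3 f_pm_113 t 3 7 1 = true := ex3_a k3_pm_113 s16_pm_113

theorem s18_pm_113 : ∃ t, chk3 f_pm_113 t 3 3 1 = true := ex3_b k2_pm_113 s17_pm_113

theorem s19_pm_113 : ∃ t, chk3 f_pm_113 t 3 1 1 = true := ex3_b k1_pm_113 s18_pm_113

theorem s20_pm_113 : ∃ t, chk3 f_pm_113 t 1 1 1 = true := ex3_a k0_pm_113 s19_pm_113

theorem c_pm_113 : CertN 536870912 536870912 536870912 536870912 50331648 16777216 3 true true false .nn 1 1 3
    ndN0q1 ndN0q1 pcN3 cut_pm_113 Ext.none :=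
  certNK0 (fam := true) (s1 := true) (s2 := false) (a := 1) (b := 1) (c := 3) (cn := .nn) (n1 := ndN0q1) (n2 := ndN0q1) (pc := pcN3) (cut := cut_pm_113) (xt := Ext.none) (P1 := 536870912) (W1 := 536870912) (P2 := 536870912) (W2 := 536870912) (P3 := 50331648) (W3 := 16777216) (N0 := 3)
    rfl rfl rfl s20_pm_113

noncomputable def cut_pm_123 : Cut := Cut.of [[⟨0, 1, 0, 14341072⟩, ⟨1, 1, 0, 14341072⟩, ⟨2, 2, 0, 761489⟩]]

noncomputable def f_pm_123 : ℕ → ℕ → ℕ → ℕ → Bool := onCell 1610612736 536870912 0 536870912 50331648 16777216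
    (rowNK 3 2 true true false .npn 1 2 3 (qsf 536870912 536870912 0 536870912 3) ndN0q1 ndN0q2 pcN3 cut_pm_123 Ext.none)

def k0_pm_123 : ∃ t, chk3 f_pm_123 t 2 1 1 = true :=
  ⟨(a (b (b (l 1) (a (l 1) (b (l 1) (l 19173168)))) (b (a (l 1) (b (l 19517272) (l 19179200))) (b (a (l 18774144) (l 18785992)) (a (l 18404304) (l 18353352))))) (b (a (b (b (a (l 17502272) (l 17367896)) (l 17994584)) (b (l 18192424) (l 18637256))) (b (b (a (b (l 17112864) (l 17201464)) (b (l 86134825575) (l 17121008))) (a (l 17465312) (l 17344904))) (b (a (l 17835904) (l 17604024)) (l 18208560)))) (b (a (b (l 19241072) (l 19025176)) (b (a (l 18689624) (l 18386168)) (l 18714504))) (b (a (l 18744816) (l 18610640)) (a (l 18414136) (l 18438912)))))), by decide +kernel⟩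

def k1_pm_123 : ∃ t, chk3 f_pm_123 t 6 1 1 = true :=
  ⟨(b (a (b (a (a (b (l 89892867879) (l 17116200)) (b (b (l 4) (l 90429529175)) (b (l 16950504) (l 17098752)))) (b (b (l 4) (a (l 99019278455) (l 4))) (b (l 90429741351) (a (l 17007328) (l 16910016))))) (b (a (l 17382640) (l 17342632)) (a (l 17719704) (l 17475432)))) (b (b (l 4) (a (a (b (l 113514763543) (l 55532871223)) (b (l 4) (b (l 114051578039) (l 95261245559)))) (b (l 4) (l 4)))) (a (b (b (a (l 16945552) (l 16881944)) (a (l 17097880) (l 17003936))) (b (l 17221712) (l 17314560))) (a (b (b (l 88282019191) (l 16979144)) (l 17153160)) (b (b (l 112977935095) (l 84523977751)) (b (l 16961872) (l 17049008))))))) (a (b (b (a (l 18090776) (l 17803584)) (a (l 18396392) (l 18133976))) (b (l 18348440) (b (l 18373800) (l 18377360)))) (b (b (a (l 17592184) (l 17444728)) (a (l 17976432) (b (l 17470968) (l 17621584)))) (b (a (l 18055000) (l 17918336)) (b (l 18102592) (a (l 18283432) (l 18154912))))))), by decide +kernel⟩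

def k2_pm_123 : ∃ t, chk3 f_pm_123 t 14 1 1 = true :=
  ⟨(b (b (l 4) (a (b (b (l 4) (a (b (l 119420316183) (l 95798096791)) (l 4))) (a (b (a (l 16899696) (l 16840096)) (l 16956192)) (b (a (l 86134437895) (l 84523724359)) (l 16883176)))) (b (l 4) (a (b (l 134452804039) (l 86134496775)) (b (l 4) (a (l 123715282487) (l 4))))))) (a (b (b (a (l 17129680) (l 17112200)) (l 17452696)) (b (a (l 17581152) (l 17583512)) (b (l 17781128) (b (l 17928712) (l 18025912))))) (b (b (a (b (l 16882464) (l 16957208)) (b (l 85060759175) (a (l 16892600) (l 16874504)))) (a (l 17125696) (l 17082936))) (b (a (l 17548120) (b (l 17092472) (l 17290376))) (b (l 17747512) (b (l 17665856) (a (l 17853856) (l 17707712)))))))), by decide +kernel⟩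

def k3_pm_123 : ∃ t, chk3 f_pm_123 t 15 2 1 = true :=
  ⟨(l 4), by decide +kernel⟩

def k4_pm_123 : ∃ t, chk3 f_pm_123 t 30 3 1 = true :=
  ⟨(a (b (b (b (a (l 123178426343) (l 4)) (a (l 44795308295) (b (l 104924766711) (l 16821056)))) (b (a (l 16878136) (l 16829656)) (l 16937816))) (b (b (l 16977944) (b (l 17055984) (l 17129824))) (b (l 17374800) (b (l 17422360) (b (l 17515672) (l 17574648)))))) (b (b (b (l 4) (a (b (l 4) (l 117272802839)) (l 4))) (b (a (b (l 85060595783) (l 16797576)) (b (l 137137047399) (l 87208067463))) (a (l 16854576) (b (l 16808720) (l 16829472))))) (b (b (a (l 16904048) (l 16860856)) (l 17175688)) (b (a (l 17158032) (a (l 17068416) (l 17061928))) (b (l 17318736) (b (l 17323952) (a (l 17434200) (l 17328552)))))))), by decide +kernel⟩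

def k5_pm_123 : ∃ t, chk3 f_pm_123 t 31 6 1 = true :=
  ⟨(a (b (l 4) (a (b (b (l 4) (a (l 157538087303) (l 4))) (a (b (l 86134291143) (l 16805112)) (b (l 119957148919) (l 16811616)))) (b (l 4) (b (l 4) (a (b (l 144653189415) (l 89355502775)) (b (l 4) (l 185992283255))))))) (l 4)), by decide +kernel⟩

def k6_pm_123 : ∃ t, chk3 f_pm_123 t 62 7 1 = true :=
  ⟨(b (a (b (b (l 16793960) (l 16832272)) (l 16858384)) (b (a (b (l 16792592) (l 16807144)) (b (b (l 115125304439) (l 84523660487)) (l 16792632))) (b (l 16813072) (l 16847496)))) (b (a (l 17126208) (a (l 17009056) (l 16979400))) (b (a (l 17083992) (a (l 17005832) (l 16974072))) (a (b (l 17164960) (b (l 17207128) (l 17232336))) (b (l 17072136) (b (l 17088744) (a (l 17143528) (l 17080040)))))))), by decide +kernel⟩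

def k7_pm_123 : ∃ t, chk3 f_pm_123 t 126 7 1 = true :=
  ⟨(b (b (a (b (a (b (l 4) (l 179012927975)) (l 4)) (a (l 82376173575) (b (a (l 157001215303) (l 4)) (l 83986775687)))) (b (l 4) (a (b (l 4) (a (b (l 4) (l 132305149383)) (l 4))) (l 4)))) (a (b (l 16811840) (l 16822288)) (b (a (b (b (l 95797925639) (l 16790920)) (l 16784000)) (b (a (b (l 4) (l 174717949079)) (l 4)) (a (l 81302409159) (b (a (l 187602844471) (l 4)) (l 80228668311))))) (a (l 16811640) (b (l 16792968) (l 16807376)))))) (b (b (a (l 16811584) (l 16816568)) (a (l 16896560) (l 16871872))) (b (a (l 16963504) (l 16932672)) (b (a (l 16963072) (l 16945192)) (a (b (l 16995632) (b (l 17012256) (l 17021520))) (b (l 16931416) (b (l 16945792) (a (l 16971536) (l 16936664))))))))), by decide +kernel⟩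

def k8_pm_123 : ∃ t, chk3 f_pm_123 t 254 7 1 = true :=
  ⟨(b (b (l 4) (b (a (b (l 4) (a (b (l 4) (a (l 220351962647) (l 4))) (l 4))) (l 4)) (a (b (a (b (a (l 88281720503) (b (l 4) (l 135526373527))) (l 16784544)) (b (l 4) (a (l 117272752247) (l 234847488839)))) (a (l 16802984) (b (l 88818596023) (l 16780168)))) (a (b (l 4) (b (a (b (l 4) (c (l 181160389495) (l 185455359463))) (l 4)) (a (l 90429204039) (b (l 243437420823) (l 128010170087))))) (l 4))))) (b (b (a (l 16796040) (a (b (b (l 87744852615) (l 16780592)) (l 16803664)) (b (a (b (a (l 100092881975) (b (l 4) (l 104387845079))) (l 16778680)) (b (l 4) (a (l 97408523687) (b (l 267596600055) (l 102240359703))))) (l 16785240)))) (a (l 16812776) (l 16795576))) (b (a (l 16877512) (a (l 16842744) (l 16835664))) (b (a (l 16879744) (b (l 16843824) (l 16857248))) (b (a (l 16882648) (l 16870912)) (b (a (l 16894840) (l 16860352)) (a (b (l 16901000) (l 16904104)) (b (l 16865608) (a (l 16877560) (l 16859256)))))))))), by decide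 +kernel⟩

def k9_pm_123 : ∃ t, chk3 f_pm_123 t 255 14 1 = true :=
  ⟨(l 4), by decide +kernel⟩

def k10_pm_123 : ∃ t, chk3 f_pm_123 t 510 15 1 = true :=
  ⟨(b (b (a (b (a (a (b (l 4) (b (l 4) (l 261691027367))) (l 4)) (l 4)) (b (b (a (a (l 99019134039) (b (l 4) (l 242363670055))) (l 4)) (a (l 93650427831) (a (b (l 4) (l 230015638951)) (l 4)))) (a (l 16778744) (a (l 94187297447) (a (l 101166620855) (b (l 4) (l 101166616887))))))) (b (l 4) (a (a (a (b (l 4) (b (l 4) (b (l 4) (l 106535325911)))) (l 4)) (l 4)) (l 4)))) (a (b (b (l 16784488) (l 16780304)) (l 16781816)) (b (b (a (b (a (l 97945392631) (a (b (l 4) (l 113514648423)) (l 4))) (l 94724170503)) (a (a (b (l 4) (b (l 4) (l 115662133015))) (l 4)) (l 4))) (a (l 16783688) (a (l 97408523943) (a (b (l 331484243591) (l 98482262231)) (b (l 4) (b (l 4) (l 104924713879))))))) (a (l 16779800) (b (l 87744848151) (l 16778992)))))) (b (a (b (l 16804720) (l 16810520)) (b (l 16791296) (l 16804728))) (b (a (l 16829480) (l 16816384))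 (b (a (l 16825648) (l 16830624)) (b (a (l 16834392) (l 16817080)) (a (b (l 16838808) (b (l 16841024) (l 16841976))) (b (l 16820824) (b (l 16822704) (a (l 16828288) (l 16818896)))))))))), by decide +kernel⟩

def k11_pm_123 : ∃ t, chk3 f_pm_123 t 511 30 1 = true :=
  ⟨(a (b (l 4) (b (l 4) (b (a (b (a (b (a (l 113514649399) (l 4)) (l 102777233287)) (l 4)) (a (l 93650425015) (a (b (l 361549008279) (l 103314101063)) (l 4)))) (l 4)) (a (a (l 16778112) (b (c (l 97945395095) (l 99556007863)) (l 16777744))) (a (b (a (a (b (l 4) (l 116735874055)) (l 4)) (l 4)) (a (l 97945392167) (b (l 4) (l 112977779319)))) (l 4)))))) (l 4)), by decide +kernel⟩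

def k12_pm_123 : ∃ t, chk3 f_pm_123 t 511 31 1 = true :=
  ⟨(a (b (b (a (l 16784112) (a (a (l 16780752) (b (l 88818586647) (l 16778160))) (b (b (a (a (l 103314102007) (b (l 4) (l 108145939207))) (l 4)) (a (l 16780056) (a (l 100629746279) (b (l 4) (l 103314100359))))) (l 16779712)))) (a (l 16780136) (l 16784064))) (b (a (l 16807488) (a (l 16803848) (l 16791512))) (b (a (l 16818968) (l 16800936)) (b (a (l 16804208) (l 16806200)) (b (a (l 16807344) (l 16798368)) (a (b (l 16808920) (b (l 16809704) (l 16809960))) (b (l 16799704) (b (l 16800376) (a (l 16803008) (l 16798248)))))))))) (b (a (b (b (b (l 4) (l 4)) (a (b (a (a (l 96871649287) (b (l 458185775927) (l 100629745495))) (a (b (l 4) (b (l 4) (l 118346486967))) (l 4))) (a (l 16780112) (a (l 95261036119) (a (l 102240359415) (b (l 4) (l 16778904)))))) (a (a (a (b (l 4) (b (l 4) (l 118346486951))) (l 4)) (l 4)) (l 4)))) (a (b (c (l 16779696) (l 16780328)) (l 16783408)) (b (a (b (a (l 94187294663) (a (l 101166618375) (b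 (l 4) (l 103850970663)))) (l 16780064)) (b (a (a (b (l 4) (l 119957100167)) (l 4)) (l 4)) (a (l 94724166807) (b (l 4) (c (l 103314101383) (l 102777230807)))))) (a (l 16782984) (l 6))))) (b (l 4) (b (l 4) (l 6)))) (a (a (b (a (l 16790144) (l 16789464)) (b (l 16795560) (b (l 16789472) (b (l 16791696) (b (l 16792808) (b (l 16793368) (b (l 16793640) (l 16793688)))))))) (a (a (b (l 16783712) (b (l 16793424) (c (l 16797200) (l 16796408)))) (b (l 6) (l 6))) (l 6))) (l 6)))), by decide +kernel⟩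

theorem s13_pm_123 : ∃ t, chk3 f_pm_123 t 511 15 1 = true := ex3_b k11_pm_123 k12_pm_123

theorem s14_pm_123 : ∃ t, chk3 f_pm_123 t 255 15 1 = true := ex3_a k10_pm_123 s13_pm_123

theorem s15_pm_123 : ∃ t, chk3 f_pm_123 t 255 7 1 = true := ex3_b k9_pm_123 s14_pm_123

theorem s16_pm_123 : ∃ t, chk3 f_pm_123 t 127 7 1 = true := ex3_a k8_pm_123 s15_pm_123

theorem s17_pm_123 : ∃ t, chk3 f_pm_123 t 63 7 1 = true := ex3_a k7_pm_123 s16_pm_123

theorem s18_pm_123 : ∃ t, chk3 f_pm_123 t 31 7 1 = true := ex3_a k6_pm_123 s17_pm_123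

theorem s19_pm_123 : ∃ t, chk3 f_pm_123 t 31 3 1 = true := ex3_b k5_pm_123 s18_pm_123

theorem s20_pm_123 : ∃ t, chk3 f_pm_123 t 15 3 1 = true := ex3_a k4_pm_123 s19_pm_123

theorem s21_pm_123 : ∃ t, chk3 f_pm_123 t 15 1 1 = true := ex3_b k3_pm_123 s20_pm_123

theorem s22_pm_123 : ∃ t, chk3 f_pm_123 t 7 1 1 = true := ex3_a k2_pm_123 s21_pm_123

theorem s23_pm_123 : ∃ t, chk3 f_pm_123 t 3 1 1 = true := ex3_a k1_pm_123 s22_pm_123

theorem s24_pm_123 : ∃ t, chk3 f_pm_123 t 1 1 1 = true := ex3_a k0_pm_123 s23_pm_123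

theorem c_pm_123 : CertN 536870912 536870912 0 536870912 50331648 16777216 3 true true false .npn 1 2 3
    ndN0q1 ndN0q2 pcN3 cut_pm_123 Ext.none :=
  certNK2 (fam := true) (s1 := true) (s2 := false) (a := 1) (b := 2) (c := 3) (cn := .npn) (n1 := ndN0q1) (n2 := ndN0q2) (pc := pcN3) (cut := cut_pm_123) (xt := Ext.none) (P1 := 536870912) (W1 := 536870912) (P2 := 0) (W2 := 536870912) (P3 := 50331648) (W3 := 16777216) (N0 := 3)
    rfl rfl rfl (fun _ => rfl) s24_pm_123

noncomputable def cut_pm_202 : Cut := Cut.of [[⟨0, 1, 0, 50331648⟩, ⟨1, 0, 0, 50331648⟩, ⟨2, 1, 0, 50331648⟩], [⟨0, 1, 0, 8388608⟩, ⟨1, 0, 1, 25165824⟩, ⟨2, 1, 1, 25165824⟩, ⟨1, 0, 0, 83886080⟩, ⟨1, 1, 0, 1040187392⟩, ⟨2, 1, 0, 83886080⟩, ⟨2, 2, 0, 1040187392⟩]]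

noncomputable def f_pm_202 : ℕ → ℕ → ℕ → ℕ → Bool := onCell 0 536870912 1073741824 536870912 50331648 16777216
    (rowNK 3 1 true true false .pp 2 0 2 (qsf 0 536870912 0 536870912 2) ndN0q2 ndN0q0 pcN2 cut_pm_202 Ext.none)

def k0_pm_202 : ∃ t, chk3 f_pm_202 t 2 1 1 = true :=
  ⟨(b (b (b (l 1) (a (l 1) (b (l 1) (a (l 1) (l 18735232))))) (a (b (b (l 18859888) (l 18729640)) (l 18523904)) (b (b (l 18753728) (l 18665368)) (l 18578528)))) (b (a (l 18268976) (l 18750320)) (a (l 17940816) (l 18505056)))), by decide +kernel⟩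

def k1_pm_202 : ∃ t, chk3 f_pm_202 t 6 1 1 = true :=
  ⟨(b (b (b (l 1) (a (b (l 1) (b (l 18574456) (l 18635912))) (a (b (b (l 1) (b (l 18179240) (l 18321808))) (l 18460776)) (b (b (b (l 1) (a (l 17897816) (b (l 17781344) (l 17891528)))) (b (a (l 18097032) (l 18016472)) (l 18175320))) (l 18328120))))) (b (a (l 18609248) (l 18660472)) (l 18574672))) (b (b (l 18608608) (l 18615568)) (l 18536560))), by decide +kernel⟩

def k2_pm_202 : ∃ t, chk3 f_pm_202 t 14 1 1 = true :=
  ⟨(b (b (b (b (l 1) (a (b (l 1) (b (l 1) (a (l 1) (b (a (l 1) (a (l 16799328) (l 16784496))) (a (a (l 17178712) (l 16974032)) (l 16989256)))))) (a (b (l 1) (b (a (b (l 1) (a (l 16791824) (l 16787296))) (b (a (b (l 1) (l 16781040)) (b (l 16776136) (l 16776824))) (l 16780512))) (a (b (l 16783008) (l 17037544)) (b (l 16859800) (l 17004504))))) (a (b (b (l 1) (b (a (l 1) (l 6)) (a (b (l 16771184) (l 16771648)) (b (l 6) (l 16767832))))) (b (b (l 16775992) (l 16771416)) (b (l 16835000) (l 16953336)))) (b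 (b (l 6) (b (l 6) (a (l 16764536) (l 16760816)))) (b (b (l 16762464) (l 16762280)) (b (l 16834704) (l 16926216)))))))) (b (b (a (b (a (a (b (l 1) (l 17601072)) (b (l 17221480) (l 17562240))) (b (a (l 17331360) (l 17332736)) (l 17476208))) (a (l 17756544) (l 17584448))) (b (b (c (a (l 17490392) (l 17410008)) (a (l 16934728) (l 16775048))) (a (l 17269792) (l 17092584))) (a (b (l 17533984) (l 17632576)) (b (l 17416784) (l 17555800))))) (a (b (l 17756456) (l 18005560)) (b (a (l 17756264) (l 17677368)) (l 17842000)))) (a (b (l 18130040) (l 18235304)) (b (l 17978576) (l 18105048))))) (b (b (l 18284528) (l 18395216)) (l 18520376))) (b (l 18669176) (l 18640976))), by decide +kernel⟩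

def k3_pm_202 : ∃ t, chk3 f_pm_202 t 15 8 1 = true :=
  ⟨(b (l 6) (b (b (l 6) (b (l 6) (b (l 6) (b (l 6) (a (a (a (l 16754144) (l 16746272)) (a (l 16738320) (l 16730272))) (a (a (l 16743088) (a (l 16736952) (l 16743920))) (a (a (l 16752816) (l 16761696)) (l 14)))))))) (a (a (b (a (b (l 16754136) (l 16753080)) (b (l 16745736) (l 16743816))) (a (b (l 16817224) (l 16923384)) (b (l 16803792) (l 16903128)))) (b (b (a (l 16747736) (l 16736544)) (a (l 16734456) (l 16746008))) (a (b (l 16794680) (l 16865680)) (b (l 16790104) (l 16832200))))) (a (b (a (b (b (l 16741584) (l 16739392)) (a (l 16738928) (l 16734224))) (b (a (b (l 16735240) (a (l 16733864) (l 16734600))) (l 16741624)) (a (a (l 16730688) (l 16732024)) (l 16739128)))) (a (b (l 16758784) (l 16781872)) (b (a (l 16793536) (l 16776320)) (a (l 16841312) (l 16819368))))) (a (a (b (b (a (l 16748456) (l 16753008)) (b (l 16749608) (l 16748496))) (b (l 16760344) (c (l 17054800) (l 16793696)))) (l 14)) (l 14)))))), by decide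 +kernel⟩

def k4_pm_202 : ∃ t, chk3 f_pm_202 t 15 9 1 = true :=
  ⟨(b (a (b (b (b (a (a (l 17059784) (l 17034672)) (a (l 16991904) (l 16952608))) (a (a (l 17275504) (l 17246960)) (a (l 17179376) (l 17135816)))) (a (b (l 17308232) (l 17486584)) (b (l 17167624) (l 17426032)))) (b (a (l 17604200) (l 17537768)) (a (l 17728216) (l 17657520)))) (b (a (b (b (a (l 16874984) (b (l 16875864) (l 16956192))) (a (l 17074472) (l 16974464))) (a (l 17135256) (b (l 17217200) (l 17364112)))) (b (a (a (c (l 17174680) (b (l 16864160) (l 17042640))) (c (l 17102640) (l 14))) (c (b (l 14) (l 17281560)) (l 14))) (b (c (l 17351384) (a (l 17141656) (l 14))) (a (l 17343728) (a (l 17330128) (l 17258880)))))) (a (b (l 17332192) (l 17592336)) (b (a (l 17440448) (b (l 17347760) (l 17444248))) (l 17533576))))) (a (b (l 17686096) (l 17974952)) (b (a (l 17731760) (b (l 17626296) (l 17709688))) (a (l 17881288) (l 17821368))))), by decide +kernel⟩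

def k5_pm_202 : ∃ t, chk3 f_pm_202 t 15 5 1 = true :=
  ⟨(b (b (a (l 18134920) (b (l 17976728) (b (l 18060552) (b (l 18099624) (l 18122456))))) (l 18261440)) (l 18464016)), by decide +kernel⟩

def k6_pm_202 : ∃ t, chk3 f_pm_202 t 15 3 1 = true :=
  ⟨(b (b (l 18644328) (l 18735656)) (l 18817352)), by decide +kernel⟩

theorem s7_pm_202 : ∃ t, chk3 f_pm_202 t 15 4 1 = true := ex3_b k3_pm_202 k4_pm_202

theorem s8_pm_202 : ∃ t, chk3 f_pm_202 t 15 2 1 = true := ex3_b s7_pm_202 k5_pm_202

theorem s9_pm_202 : ∃ t, chk3 f_pm_202 t 15 1 1 = true := ex3_b s8_pm_202 k6_pm_202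

theorem s10_pm_202 : ∃ t, chk3 f_pm_202 t 7 1 1 = true := ex3_a k2_pm_202 s9_pm_202

theorem s11_pm_202 : ∃ t, chk3 f_pm_202 t 3 1 1 = true := ex3_a k1_pm_202 s10_pm_202

theorem s12_pm_202 : ∃ t, chk3 f_pm_202 t 1 1 1 = true := ex3_a k0_pm_202 s11_pm_202

theorem c_pm_202 : CertN 0 536870912 0 536870912 50331648 16777216 3 true true false .pp 2 0 2
    ndN0q2 ndN0q0 pcN2 cut_pm_202 Ext.none :=
  certNK1 (fam := true) (s1 := true) (s2 := false) (a := 2) (b := 0) (c := 2) (cn := .pp) (n1 := ndN0q2) (n2 := ndN0q0) (pc := pcN2) (cut := cut_pm_202) (xt := Ext.none) (P1 := 0) (W1 := 536870912) (P2 := 0) (W2 := 536870912) (P3 := 50331648) (W3 := 16777216) (N0 := 3)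
    rfl rfl rfl (fun _ => rfl) s12_pm_202

noncomputable def f_pm_203 : ℕ → ℕ → ℕ → ℕ → Bool := onCell 0 536870912 1610612736 536870912 50331648 16777216
    (rowNK 3 1 true true false .up 2 0 3 (qsf 0 536870912 0 536870912 3) ndN0q2 ndN0q0 pcN3 Cut.none Ext.none)

def k0_pm_203 : ∃ t, chk3 f_pm_203 t 1 1 1 = true :=
  ⟨(b (b (a (a (b (a (l 18249008) (l 18713856)) (a (l 17964824) (l 18249224))) (b (a (l 19192088) (l 19757104)) (a (l 18696288) (l 19172600)))) (a (a (b (l 19711808) (l 19495832)) (l 19471792)) (a (l 19012424) (b (l 18383064) (l 2))))) (a (b (a (a (a (l 17559576) (l 17579616)) (l 17973472)) (a (l 18192312) (l 18637208))) (l 2)) (a (l 2) (l 2)))) (l 2)), by decide +kernel⟩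

theorem c_pm_203 : CertN 0 536870912 0 536870912 50331648 16777216 3 true true false .up 2 0 3
    ndN0q2 ndN0q0 pcN3 Cut.none Ext.none :=
  certNK1 (fam := true) (s1 := true) (s2 := false) (a := 2) (b := 0) (c := 3) (cn := .up) (n1 := ndN0q2) (n2 := ndN0q0) (pc := pcN3) (cut := Cut.none) (xt := Ext.none) (P1 := 0) (W1 := 536870912) (P2 := 0) (W2 := 536870912) (P3 := 50331648) (W3 := 16777216) (N0 := 3)
    rfl rfl rfl (fun _ => rfl) k0_pm_203

noncomputable def cut_pm_213 : Cut := Cut.of [[⟨0, 1, 0, 14341072⟩, ⟨1, 1, 0, 14341072⟩, ⟨2, 2, 0, 761489⟩]]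

noncomputable def f_pm_213 : ℕ → ℕ → ℕ → ℕ → Bool := onCell 0 536870912 1610612736 536870912 50331648 16777216
    (rowNK 3 1 true true false .pnn 2 1 3 (qsf 0 536870912 536870912 536870912 3) ndN0q2 ndN0q1 pcN3 cut_pm_213 Ext.none)

def k0_pm_213 : ∃ t, chk3 f_pm_213 t 1 2 1 = true :=
  ⟨(b (a (a (l 1) (b (l 1) (a (l 1) (l 19173168)))) (a (b (l 1) (a (l 19517272) (l 19179200))) (a (b (l 18774144) (l 18785992)) (b (l 18404304) (l 18353352))))) (a (b (a (a (a (l 17559712) (l 17600728)) (l 17994584)) (a (l 18192424) (l 18637256))) (a (a (b (a (l 17112864) (l 17201464)) (a (l 86134825575) (l 17121008))) (b (l 17465312) (l 17344904))) (a (b (l 17835904) (l 17604024)) (l 18208560)))) (a (b (a (l 19241072) (l 19025176)) (a (b (l 18689624) (l 18386168)) (l 18714504))) (a (b (l 18744816) (l 18610640)) (b (l 18414136) (l 18438912)))))), by decide +kernel⟩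

def k1_pm_213 : ∃ t, chk3 f_pm_213 t 1 6 1 = true :=
  ⟨(a (b (a (b (b (a (l 89892867879) (l 17116200)) (a (a (l 4) (l 90429529175)) (a (l 16950504) (l 17098752)))) (a (a (l 4) (b (l 99019278455) (l 4))) (a (l 90429741351) (b (l 17007328) (l 16910016))))) (a (b (l 17382640) (l 17342632)) (b (l 17719704) (l 17475432)))) (a (a (l 4) (b (b (a (l 113514763543) (l 55532871223)) (a (l 4) (a (l 114051578039) (l 95261245559)))) (a (l 4) (l 4)))) (b (a (a (b (l 16945552) (l 16881944)) (b (l 17097880) (l 17003936))) (a (l 17221712) (l 17314560))) (b (a (a (l 88282019191) (l 16979144)) (l 17153160)) (a (a (l 112977935095) (l 84523977751)) (a (l 16961872) (l 17049008))))))) (b (a (a (b (l 18090776) (l 17803584)) (b (l 18396392) (l 18133976))) (a (l 18348440) (a (l 18373800) (l 18377360)))) (a (a (b (l 17592184) (l 17444728)) (b (l 17976432) (a (l 17470968) (l 17621584)))) (a (b (l 18055000) (l 17918336)) (a (l 18102592) (b (l 18283432) (l 18154912))))))), by decide +kernel⟩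

def k2_pm_213 : ∃ t, chk3 f_pm_213 t 1 14 1 = true :=
  ⟨(a (a (l 4) (b (a (a (l 4) (b (a (l 119420316183) (l 95798096791)) (l 4))) (b (a (b (l 16899696) (l 16840096)) (l 16956192)) (a (b (l 86134437895) (l 84523724359)) (l 16883176)))) (a (l 4) (b (a (l 134452804039) (l 86134496775)) (a (l 4) (b (l 124252153399) (l 4))))))) (b (a (a (b (l 17129680) (l 17112200)) (l 17452696)) (a (b (l 17581152) (l 17583512)) (a (l 17781128) (a (l 17928712) (l 18025912))))) (a (a (b (a (l 16882464) (l 16957208)) (a (l 85060757863) (b (l 16892600) (l 16874504)))) (b (l 17125696) (l 17082936))) (a (b (l 17548120) (a (l 17092472) (l 17290376))) (a (l 17747512) (a (l 17665856) (b (l 17853856) (l 17707712)))))))), by decide +kernel⟩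

def k3_pm_213 : ∃ t, chk3 f_pm_213 t 2 15 1 = true :=
  ⟨(l 4), by decide +kernel⟩

def k4_pm_213 : ∃ t, chk3 f_pm_213 t 3 30 1 = true :=
  ⟨(b (a (a (a (b (l 123178426343) (l 4)) (b (l 44795308295) (a (l 104924766711) (l 16821056)))) (a (b (l 16878136) (l 16829656)) (l 16937816))) (a (a (l 16977944) (a (l 17055984) (l 17129824))) (a (l 17374800) (a (l 17422360) (a (l 17515672) (l 17574648)))))) (a (a (a (l 4) (b (a (l 4) (l 117272802839)) (l 4))) (a (b (a (l 85060595783) (l 16797576)) (a (l 137137047399) (l 87208067463))) (b (l 16854576) (a (l 16808720) (l 16829472))))) (a (a (b (l 16904048) (l 16860856)) (l 17175688)) (a (b (l 17158032) (b (l 17068416) (l 17061928))) (a (l 17318736) (a (l 17323952) (b (l 17434200) (l 17328552)))))))), by decide +kernel⟩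

def k5_pm_213 : ∃ t, chk3 f_pm_213 t 6 31 1 = true :=
  ⟨(b (a (l 4) (b (a (a (l 4) (b (l 157538087303) (l 4))) (b (a (l 86134291143) (l 16805112)) (a (l 119957148919) (l 16811616)))) (a (l 4) (a (l 4) (a (b (l 144653189415) (l 4)) (b (l 89355502615) (l 185992283255))))))) (l 4)), by decide +kernel⟩

def k6_pm_213 : ∃ t, chk3 f_pm_213 t 7 62 1 = true :=
  ⟨(a (b (a (a (l 16793960) (l 16832272)) (l 16858384)) (a (a (b (l 16792592) (a (l 115125304439) (l 84523660487))) (a (l 16827696) (l 16803016))) (a (l 16813072) (l 16847496)))) (a (b (l 17126208) (b (l 17009056) (l 16979400))) (a (b (l 17083992) (b (l 17005832) (l 16974072))) (b (a (l 17164960) (a (l 17207128) (l 17232336))) (a (l 17072136) (a (l 17088744) (b (l 17143528) (l 17080040)))))))), by decide +kernel⟩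

def k7_pm_213 : ∃ t, chk3 f_pm_213 t 7 126 1 = true :=
  ⟨(a (a (b (a (b (a (l 4) (l 179012927975)) (l 4)) (b (l 82376173415) (a (b (l 157001215303) (l 4)) (l 83986775031)))) (a (l 4) (b (a (l 4) (b (a (l 4) (l 132305149383)) (l 4))) (l 4)))) (b (a (l 16811840) (l 16822288)) (a (b (a (a (l 95797925639) (l 16790920)) (l 16784000)) (a (b (a (l 4) (l 174717949079)) (l 4)) (b (l 81302408823) (a (b (l 188139715383) (l 4)) (l 80228668311))))) (b (l 16811640) (a (l 16792968) (l 16807376)))))) (a (a (b (l 16811584) (l 16816568)) (b (l 16896560) (l 16871872))) (a (b (l 16963504) (l 16932672)) (a (b (l 16963072) (l 16945192)) (b (a (l 16995632) (a (l 17012256) (l 17021520))) (a (l 16931416) (a (l 16945792) (b (l 16971536) (l 16936664))))))))), by decide +kernel⟩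

def k8_pm_213 : ∃ t, chk3 f_pm_213 t 7 254 1 = true :=
  ⟨(a (a (l 4) (b (a (a (l 4) (b (a (l 4) (b (l 220351962647) (l 4))) (l 4))) (a (b (a (b (l 88281720503) (a (l 4) (l 135526373527))) (l 16784544)) (a (l 4) (b (l 117272752247) (l 234847488839)))) (b (l 16802984) (a (l 88818596023) (l 16780168))))) (a (l 4) (b (a (l 4) (a (b (a (l 4) (c (l 181160389495) (l 185455359463))) (l 4)) (b (l 90429204039) (a (l 243437420823) (l 128010170087))))) (l 4))))) (a (a (b (l 16796040) (b (a (a (l 87744852615) (l 16780592)) (l 16803664)) (a (b (a (a (b (l 164517387223) (l 4)) (l 101703491159)) (l 16778680)) (a (l 4) (a (b (l 102240360983) (l 268133470967)) (l 95797911159)))) (l 16785240)))) (b (l 16812776) (l 16795576))) (a (b (l 16877512) (b (l 16842744) (l 16835664))) (a (b (l 16879744) (a (l 16843824) (l 16857248))) (a (b (l 16882648) (l 16870912)) (a (b (l 16894840) (l 16860352)) (b (a (l 16901000) (l 16904104)) (a (l 16865608) (b (l 16877560) (l 16859256)))))))))), by decide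 +kernel⟩

def k9_pm_213 : ∃ t, chk3 f_pm_213 t 14 255 1 = true :=
  ⟨(l 4), by decide +kernel⟩

def k10_pm_213 : ∃ t, chk3 f_pm_213 t 15 510 1 = true :=
  ⟨(a (a (b (a (b (a (l 4) (a (l 4) (b (l 261691027367) (l 4)))) (l 4)) (a (a (b (a (b (l 103314101319) (l 4)) (l 123715199911)) (l 4)) (b (l 93650427831) (a (l 4) (b (l 230015638951) (l 4))))) (b (l 16778744) (b (l 93650426535) (b (l 101166620855) (a (l 4) (l 101166616887))))))) (a (l 4) (b (b (b (a (l 4) (a (l 4) (a (l 4) (l 106535325911)))) (l 4)) (l 4)) (l 4)))) (b (a (a (l 16784488) (l 16780304)) (l 16781816)) (a (a (b (a (b (l 97945392631) (b (a (l 4) (l 113514648423)) (l 4))) (l 94724170503)) (b (b (a (l 4) (a (l 4) (l 115662133015))) (l 4)) (l 4))) (b (l 16783688) (b (l 96871653031) (b (a (l 331484243591) (l 98482262231)) (a (l 4) (a (l 4) (l 104924713879))))))) (b (l 16779800) (a (l 87744848151) (l 16778992)))))) (a (b (a (l 16804720) (l 16810520)) (a (l 16791296) (l 16804728))) (a (b (l 16829480) (l 16816384))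 (a (b (l 16825648) (l 16830624)) (a (b (l 16834392) (l 16817080)) (b (a (l 16838808) (a (l 16841024) (l 16841976))) (a (l 16820824) (a (l 16822704) (b (l 16828288) (l 16818896)))))))))), by decide +kernel⟩

def k11_pm_213 : ∃ t, chk3 f_pm_213 t 30 511 1 = true :=
  ⟨(b (a (l 4) (a (l 4) (a (b (a (b (a (b (l 113514649399) (l 4)) (l 102777233287)) (l 4)) (b (l 93650425015) (b (a (l 361549008279) (l 103314101063)) (l 4)))) (l 4)) (b (a (a (b (l 16777840) (l 101166620183)) (l 89355460567)) (l 16780648)) (b (a (b (b (a (l 4) (l 117272744967)) (l 4)) (l 4)) (b (l 97945392167) (a (l 4) (l 112977779319)))) (l 4)))))) (l 4)), by decide +kernel⟩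

def k12_pm_213 : ∃ t, chk3 f_pm_213 t 31 511 1 = true :=
  ⟨(b (a (a (b (l 16784112) (b (a (c (l 89892330103) (l 87744846391)) (l 16778304)) (a (a (b (b (l 103314102007) (a (l 4) (l 108145939207))) (l 4)) (b (l 16780056) (b (l 100629746279) (a (l 4) (l 103314100359))))) (l 16780368)))) (b (l 16780136) (l 16784064))) (a (b (l 16807488) (a (l 16790496) (l 16794328))) (a (b (l 16818968) (l 16800936)) (a (b (l 16804208) (l 16806200)) (a (b (l 16807344) (l 16798368)) (b (a (l 16808920) (a (l 16809704) (l 16809960))) (a (l 16799704) (a (l 16800376) (b (l 16803008) (l 16798248)))))))))) (a (a (a (a (l 4) (l 4)) (b (b (a (a (b (b (l 101703487431) (l 458722646839)) (l 4)) (b (l 95797907751) (b (a (l 4) (l 118346486967)) (l 4)))) (b (l 16780112) (b (l 95261036119) (a (a (l 4) (l 118346486919)) (l 100092874519))))) (b (b (b (a (l 4) (a (l 4) (l 118346486951))) (l 4)) (l 4)) (l 4))) (l 4))) (a (b (b (l 16779688) (b (a (b (l 94187294663) (b (l 101166618375) (a (l 4) (l 103850970663))))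 (l 16780064)) (a (b (b (a (l 4) (l 120493971079)) (l 4)) (l 4)) (b (l 94187295895) (a (l 4) (c (l 103314101383) (l 102777230807))))))) (l 4)) (b (b (l 16783408) (b (l 16782984) (l 6))) (l 6)))) (b (b (a (a (l 16778576) (l 16790632)) (a (l 16795560) (a (l 16789472) (a (l 16791696) (a (l 16792808) (a (l 16793368) (a (l 16793640) (l 16793688)))))))) (b (b (a (l 16783712) (a (l 16793424) (c (l 16797200) (l 16796408)))) (a (l 6) (l 6))) (l 6))) (l 6)))), by decide +kernel⟩

theorem s13_pm_213 : ∃ t, chk3 f_pm_213 t 15 511 1 = true := ex3_a k11_pm_213 k12_pm_213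

theorem s14_pm_213 : ∃ t, chk3 f_pm_213 t 15 255 1 = true := ex3_b k10_pm_213 s13_pm_213

theorem s15_pm_213 : ∃ t, chk3 f_pm_213 t 7 255 1 = true := ex3_a k9_pm_213 s14_pm_213

theorem s16_pm_213 : ∃ t, chk3 f_pm_213 t 7 127 1 = true := ex3_b k8_pm_213 s15_pm_213

theorem s17_pm_213 : ∃ t, chk3 f_pm_213 t 7 63 1 = true := ex3_b k7_pm_213 s16_pm_213

theorem s18_pm_213 : ∃ t, chk3 f_pm_213 t 7 31 1 = true := ex3_b k6_pm_213 s17_pm_213

theorem s19_pm_213 : ∃ t, chk3 f_pm_213 t 3 31 1 = true := ex3_a k5_pm_213 s18_pm_213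

theorem s20_pm_213 : ∃ t, chk3 f_pm_213 t 3 15 1 = true := ex3_b k4_pm_213 s19_pm_213

theorem s21_pm_213 : ∃ t, chk3 f_pm_213 t 1 15 1 = true := ex3_a k3_pm_213 s20_pm_213

theorem s22_pm_213 : ∃ t, chk3 f_pm_213 t 1 7 1 = true := ex3_b k2_pm_213 s21_pm_213

theorem s23_pm_213 : ∃ t, chk3 f_pm_213 t 1 3 1 = true := ex3_b k1_pm_213 s22_pm_213

theorem s24_pm_213 : ∃ t, chk3 f_pm_213 t 1 1 1 = true := ex3_b k0_pm_213 s23_pm_213

theorem c_pm_213 : CertN 0 536870912 536870912 536870912 50331648 16777216 3 true true false .pnn 2 1 3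
    ndN0q2 ndN0q1 pcN3 cut_pm_213 Ext.none :=
  certNK1 (fam := true) (s1 := true) (s2 := false) (a := 2) (b := 1) (c := 3) (cn := .pnn) (n1 := ndN0q2) (n2 := ndN0q1) (pc := pcN3) (cut := cut_pm_213) (xt := Ext.none) (P1 := 0) (W1 := 536870912) (P2 := 536870912) (W2 := 536870912) (P3 := 50331648) (W3 := 16777216) (N0 := 3)
    rfl rfl rfl (fun _ => rfl) s24_pm_213

noncomputable def f_mm_001 : ℕ → ℕ → ℕ → ℕ → Bool := onCell 0 536870912 0 536870912 50331648 16777216
    (rowNK 3 0 true false false .up 0 0 1 (qsf 0 536870912 0 536870912 1) ndN0q0 ndN0q0 pcN1 Cut.none Ext.none)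

def k0_mm_001 : ∃ t, chk3 f_mm_001 t 1 1 1 = true :=
  ⟨(l 4), by decide +kernel⟩

theorem c_mm_001 : CertN 0 536870912 0 536870912 50331648 16777216 3 true false false .up 0 0 1
    ndN0q0 ndN0q0 pcN1 Cut.none Ext.none :=
  certNK0 (fam := true) (s1 := false) (s2 := false) (a := 0) (b := 0) (c := 1) (cn := .up) (n1 := ndN0q0) (n2 := ndN0q0) (pc := pcN1) (cut := Cut.none) (xt := Ext.none) (P1 := 0) (W1 := 536870912) (P2 := 0) (W2 := 536870912) (P3 := 50331648) (W3 := 16777216) (N0 := 3)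
    rfl rfl rfl k0_mm_001

noncomputable def f_mm_011 : ℕ → ℕ → ℕ → ℕ → Bool := onCell 0 536870912 536870912 536870912 50331648 16777216
    (rowNK 3 0 true false false .pnn 0 1 1 (qsf 0 536870912 536870912 536870912 1) ndN0q0 ndN0q1 pcN1 Cut.none Ext.none)

def k0_mm_011 : ∃ t, chk3 f_mm_011 t 1 1 1 = true :=
  ⟨(a (l 5) (l 4)), by decide +kernel⟩

theorem c_mm_011 : CertN 0 536870912 536870912 536870912 50331648 16777216 3 true false false .pnn 0 1 1
    ndN0q0 ndN0q1 pcN1 Cut.none Ext.none :=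
  certNK0 (fam := true) (s1 := false) (s2 := false) (a := 0) (b := 1) (c := 1) (cn := .pnn) (n1 := ndN0q0) (n2 := ndN0q1) (pc := pcN1) (cut := Cut.none) (xt := Ext.none) (P1 := 0) (W1 := 536870912) (P2 := 536870912) (W2 := 536870912) (P3 := 50331648) (W3 := 16777216) (N0 := 3)
    rfl rfl rfl k0_mm_011

noncomputable def f_mm_012 : ℕ → ℕ → ℕ → ℕ → Bool := onCell 0 536870912 536870912 536870912 50331648 16777216
    (rowNK 3 0 true false false .pnp 0 1 2 (qsf 0 536870912 536870912 536870912 2) ndN0q0 ndN0q1 pcN2 Cut.none Ext.none)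

def k0_mm_012 : ∃ t, chk3 f_mm_012 t 1 1 1 = true :=
  ⟨(a (l 5) (l 4)), by decide +kernel⟩

theorem c_mm_012 : CertN 0 536870912 536870912 536870912 50331648 16777216 3 true false false .pnp 0 1 2
    ndN0q0 ndN0q1 pcN2 Cut.none Ext.none :=
  certNK0 (fam := true) (s1 := false) (s2 := false) (a := 0) (b := 1) (c := 2) (cn := .pnp) (n1 := ndN0q0) (n2 := ndN0q1) (pc := pcN2) (cut := Cut.none) (xt := Ext.none) (P1 := 0) (W1 := 536870912) (P2 := 536870912) (W2 := 536870912) (P3 := 50331648) (W3 := 16777216) (N0 := 3)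
    rfl rfl rfl k0_mm_012

noncomputable def f_mm_022 : ℕ → ℕ → ℕ → ℕ → Bool := onCell 0 536870912 0 536870912 50331648 16777216
    (rowNK 3 0 true false false .pp 0 2 2 (qsf 0 536870912 0 536870912 2) ndN0q0 ndN0q2 pcN2 Cut.none Ext.none)

def k0_mm_022 : ∃ t, chk3 f_mm_022 t 1 1 1 = true :=
  ⟨(l 5), by decide +kernel⟩

theorem c_mm_022 : CertN 0 536870912 0 536870912 50331648 16777216 3 true false false .pp 0 2 2
    ndN0q0 ndN0q2 pcN2 Cut.none Ext.none :=
  certNK0 (fam := true) (s1 := false) (s2 := false) (a := 0) (b := 2) (c := 2) (cn := .pp) (n1 := ndN0q0) (n2 := ndN0q2) (pc := pcN2) (cut := Cut.none) (xt := Ext.none) (P1 := 0) (W1 := 536870912) (P2 := 0) (W2 := 536870912) (P3 := 50331648) (W3 := 16777216) (N0 := 3)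
    rfl rfl rfl k0_mm_022

noncomputable def f_mm_023 : ℕ → ℕ → ℕ → ℕ → Bool := onCell 0 536870912 0 536870912 50331648 16777216
    (rowNK 3 0 true false false .up 0 2 3 (qsf 0 536870912 0 536870912 3) ndN0q0 ndN0q2 pcN3 Cut.none Ext.none)

def k0_mm_023 : ∃ t, chk3 f_mm_023 t 1 1 1 = true :=
  ⟨(l 5), by decide +kernel⟩

theorem c_mm_023 : CertN 0 536870912 0 536870912 50331648 16777216 3 true false false .up 0 2 3
    ndN0q0 ndN0q2 pcN3 Cut.none Ext.none :=
  certNK0 (fam := true) (s1 := false) (s2 := false) (a := 0) (b := 2) (c := 3) (cn := .up) (n1 := ndN0q0) (n2 := ndN0q2) (pc := pcN3) (cut := Cut.none) (xt := Ext.none) (P1 := 0) (W1 := 536870912) (P2 := 0) (W2 := 536870912) (P3 := 50331648) (W3 := 16777216) (N0 := 3)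
    rfl rfl rfl k0_mm_023

noncomputable def cut_mm_101 : Cut := Cut.of [[⟨0, 1, 0, 50331648⟩, ⟨1, 0, 0, 50331648⟩, ⟨2, 1, 0, 50331648⟩]]

noncomputable def f_mm_101 : ℕ → ℕ → ℕ → ℕ → Bool := onCell 536870912 536870912 0 536870912 50331648 16777216
    (rowNK 3 0 true false false .npn 1 0 1 (qsf 536870912 536870912 0 536870912 1) ndN0q1 ndN0q0 pcN1 cut_mm_101 Ext.none)

def k0_mm_101 : ∃ t, chk3 f_mm_101 t 1 1 1 = true :=
  ⟨(a (l 4) (b (a (l 4) (b (a (l 4) (a (l 4) (b (b (l 6) (l 4)) (l 2)))) (l 4))) (l 4))), by decide +kernel⟩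

theorem c_mm_101 : CertN 536870912 536870912 0 536870912 50331648 16777216 3 true false false .npn 1 0 1
    ndN0q1 ndN0q0 pcN1 cut_mm_101 Ext.none :=
  certNK0 (fam := true) (s1 := false) (s2 := false) (a := 1) (b := 0) (c := 1) (cn := .npn) (n1 := ndN0q1) (n2 := ndN0q0) (pc := pcN1) (cut := cut_mm_101) (xt := Ext.none) (P1 := 536870912) (W1 := 536870912) (P2 := 0) (W2 := 536870912) (P3 := 50331648) (W3 := 16777216) (N0 := 3)
    rfl rfl rfl k0_mm_101

noncomputable def cut_mm_102 : Cut := Cut.of [[⟨0, 1, 0, 50331648⟩, ⟨1, 0, 0, 50331648⟩, ⟨2, 1, 0, 50331648⟩]]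

noncomputable def f_mm_102 : ℕ → ℕ → ℕ → ℕ → Bool := onCell 536870912 536870912 0 536870912 50331648 16777216
    (rowNK 3 0 true false false .npp 1 0 2 (qsf 536870912 536870912 0 536870912 2) ndN0q1 ndN0q0 pcN2 cut_mm_102 Ext.none)

def k0_mm_102 : ∃ t, chk3 f_mm_102 t 1 1 1 = true :=
  ⟨(b (a (l 4) (a (l 4) (b (a (l 4) (b (a (l 4) (b (l 6) (l 4))) (l 4))) (l 4)))) (l 4)), by decide +kernel⟩

theorem c_mm_102 : CertN 536870912 536870912 0 536870912 50331648 16777216 3 true false false .npp 1 0 2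
    ndN0q1 ndN0q0 pcN2 cut_mm_102 Ext.none :=
  certNK0 (fam := true) (s1 := false) (s2 := false) (a := 1) (b := 0) (c := 2) (cn := .npp) (n1 := ndN0q1) (n2 := ndN0q0) (pc := pcN2) (cut := cut_mm_102) (xt := Ext.none) (P1 := 536870912) (W1 := 536870912) (P2 := 0) (W2 := 536870912) (P3 := 50331648) (W3 := 16777216) (N0 := 3)
    rfl rfl rfl k0_mm_102

noncomputable def f_mm_112 : ℕ → ℕ → ℕ → ℕ → Bool := onCell 536870912 536870912 536870912 536870912 50331648 16777216
    (rowNK 3 0 true false false .dn 1 1 2 (qsf 536870912 536870912 536870912 536870912 2) ndN0q1 ndN0q1 pcN2 Cut.none Ext.none)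

def k0_mm_112 : ∃ t, chk3 f_mm_112 t 1 1 1 = true :=
  ⟨(l 4), by decide +kernel⟩

theorem c_mm_112 : CertN 536870912 536870912 536870912 536870912 50331648 16777216 3 true false false .dn 1 1 2
    ndN0q1 ndN0q1 pcN2 Cut.none Ext.none :=
  certNK0 (fam := true) (s1 := false) (s2 := false) (a := 1) (b := 1) (c := 2) (cn := .dn) (n1 := ndN0q1) (n2 := ndN0q1) (pc := pcN2) (cut := Cut.none) (xt := Ext.none) (P1 := 536870912) (W1 := 536870912) (P2 := 536870912) (W2 := 536870912) (P3 := 50331648) (W3 := 16777216) (N0 := 3)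
    rfl rfl rfl k0_mm_112

noncomputable def f_mm_113 : ℕ → ℕ → ℕ → ℕ → Bool := onCell 536870912 536870912 536870912 536870912 50331648 16777216
    (rowNK 3 0 true false false .nn 1 1 3 (qsf 536870912 536870912 536870912 536870912 3) ndN0q1 ndN0q1 pcN3 Cut.none Ext.none)

def k0_mm_113 : ∃ t, chk3 f_mm_113 t 1 1 1 = true :=
  ⟨(l 4), by decide +kernel⟩

theorem c_mm_113 : CertN 536870912 536870912 536870912 536870912 50331648 16777216 3 true false false .nn 1 1 3
    ndN0q1 ndN0q1 pcN3 Cut.none Ext.none :=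
  certNK0 (fam := true) (s1 := false) (s2 := false) (a := 1) (b := 1) (c := 3) (cn := .nn) (n1 := ndN0q1) (n2 := ndN0q1) (pc := pcN3) (cut := Cut.none) (xt := Ext.none) (P1 := 536870912) (W1 := 536870912) (P2 := 536870912) (W2 := 536870912) (P3 := 50331648) (W3 := 16777216) (N0 := 3)
    rfl rfl rfl k0_mm_113

noncomputable def f_mm_123 : ℕ → ℕ → ℕ → ℕ → Bool := onCell 536870912 536870912 0 536870912 50331648 16777216
    (rowNK 3 0 true false false .npn 1 2 3 (qsf 536870912 536870912 0 536870912 3) ndN0q1 ndN0q2 pcN3 Cut.none Ext.none)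

def k0_mm_123 : ∃ t, chk3 f_mm_123 t 1 1 1 = true :=
  ⟨(a (l 5) (l 4)), by decide +kernel⟩

theorem c_mm_123 : CertN 536870912 536870912 0 536870912 50331648 16777216 3 true false false .npn 1 2 3
    ndN0q1 ndN0q2 pcN3 Cut.none Ext.none :=
  certNK0 (fam := true) (s1 := false) (s2 := false) (a := 1) (b := 2) (c := 3) (cn := .npn) (n1 := ndN0q1) (n2 := ndN0q2) (pc := pcN3) (cut := Cut.none) (xt := Ext.none) (P1 := 536870912) (W1 := 536870912) (P2 := 0) (W2 := 536870912) (P3 := 50331648) (W3 := 16777216) (N0 := 3)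
    rfl rfl rfl k0_mm_123

end Pool.Agent.Strip051.G.I3_64_1_16.Tab.C.NA00

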