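import Pool.Agent.Strip051.G.I3_64_1_16.Tab
import Pool.Agent.Strip051.PB.RowK

/-! # Certificates N1 (generated) -/

set_option linter.all false
set_option maxRecDepth 100000

namespace Pool.Agent.Strip051.G.I3_64_1_16.Tab.C.NA00

open Pool.Agent.Strip051.PB Pool.Agent.Strip051.PB.T
open Pool.Agent.Strip051.G.I3_64_1_16.Tab

noncomputable def cut_mm_202 : Cut := Cut.of [[⟨0, 1, 0, 50331648⟩, ⟨1, 0, 0, 50331648⟩, ⟨2, 1, 0, 50331648⟩]]

noncomputable def f_mm_202 : ℕ → ℕ → ℕ → ℕ → Bool := onCell 0 536870912 0 536870912 50331648 16777216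
    (rowNK 3 0 true false false .pp 2 0 2 (qsf 0 536870912 0 536870912 2) ndN0q2 ndN0q0 pcN2 cut_mm_202 Ext.none)

def k0_mm_202 : ∃ t, chk3 f_mm_202 t 2 2 1 = true :=
  ⟨(b (b (a (b (l 18789792) (l 18557096)) (b (a (l 18761792) (l 18675432)) (l 18422952))) (a (l 18294432) (a (l 18142304) (l 17989072)))) (a (b (l 18029576) (l 17802664)) (b (a (l 17805176) (l 17672056)) (a (l 17528592) (a (l 17365328) (l 17368344)))))), by decide +kernel⟩

def k1_mm_202 : ∃ t, chk3 f_mm_202 t 6 4 1 = true :=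
  ⟨(b (a (b (b (l 18566856) (l 18414272)) (l 18178096)) (b (a (b (b (l 18308296) (l 18271808)) (l 18182648)) (b (b (a (l 18072376) (b (l 17797848) (l 17879800))) (a (l 18074424) (l 17905832))) (a (l 18017424) (l 17882288)))) (a (l 17963384) (b (l 17834608) (l 17695296))))) (a (b (l 17896288) (l 17656048)) (b (a (l 17677192) (b (l 17554656) (l 17420136))) (a (l 17427280) (a (l 17286720) (l 17034240)))))), by decide +kernel⟩

def k2_mm_202 : ∃ t, chk3 f_mm_202 t 14 8 1 = true :=
  ⟨(b (a (b (a (b (c (b (l 17763880) (l 17817360)) (b (a (l 17422968) (l 17161088)) (l 17359328))) (b (l 17681904) (l 17711864))) (a (b (b (a (l 17115640) (l 16992120)) (l 17189280)) (b (l 17483144) (l 17537528))) (b (a (b (l 16902432) (l 17139104)) (b (l 16845656) (l 17041672))) (b (l 17182880) (l 17405160))))) (a (b (l 17727472) (l 17711640)) (b (a (l 17579040) (l 17447656)) (l 17538976)))) (b (b (a (b (a (l 16772360) (l 16771544)) (a (l 16797944) (l 16774776))) (b (a (b (l 16767576)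 (l 16769152)) (l 6)) (a (l 16771392) (b (l 16768096) (l 16769448))))) (b (a (a (l 16946976) (l 16814248)) (a (l 16774160) (l 16771336))) (a (a (l 17153488) (l 16927712)) (a (l 16789192) (l 16773648))))) (a (b (a (b (l 17325232) (l 17366352)) (b (l 17102000) (l 17244056))) (a (l 17393536) (l 17225744))) (b (a (b (l 16887672) (l 17029384)) (b (l 16766520) (l 16849264))) (a (b (l 17162408) (l 17189744)) (b (l 16957736) (l 17060208))))))) (a (a (b (l 17644056) (l 17518712)) (b (b (l 17515680) (l 17470928)) (l 17383320))) (a (b (b (l 17258264) (l 17311200)) (b (l 17262544) (l 17204384))) (b (b (a (l 17201912) (b (l 17101048) (l 17106440))) (a (l 17183216) (l 17095376))) (a (b (l 17141224) (l 17086696)) (b (l 17057752) (l 17005344))))))), by decide +kernel⟩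

def k3_mm_202 : ∃ t, chk3 f_mm_202 t 15 16 1 = true :=
  ⟨(a (b (b (l 6) (a (b (a (b (l 16768744) (l 16769864)) (l 6)) (a (a (l 16771904) (l 16770984)) (a (l 16770272) (l 16769760)))) (l 6))) (a (b (a (b (l 16773264) (l 16769320)) (b (a (l 16771976) (l 16771368)) (a (l 16773416) (l 16772712)))) (a (b (l 16772200) (l 16804504)) (b (a (l 16829144) (l 16773800)) (a (l 16893440) (l 16822968))))) (b (a (b (a (l 16770968) (l 6)) (a (l 16772216) (b (l 16771672) (l 16772184)))) (b (l 6) (a (b (l 6) (l 16772080)) (l 6)))) (a (b (a (l 16773208) (l 16772824)) (a (l 16777632) (l 16773456))) (b (a (b (l 16772480) (l 16772824)) (b (l 16772544) (l 16772840))) (a (b (l 16773088) (l 16773296)) (b (l 16773064) (l 16773224)))))))) (b (l 6) (a (b (l 6) (a (a (b (b (l 6) (a (l 16772992) (l 6))) (b (a (l 16773184) (l 16773336)) (a (l 16773312) (l 16773440)))) (b (l 6) (a (b (l 6) (a (l 16773568) (l 16778912))) (b (l 6) (b (l 6) (a (a (c (l 16785920) (l 16785880)) (l 16787160))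 (a (l 16783176) (l 6)))))))) (l 6))) (l 6)))), by decide +kernel⟩

def k4_mm_202 : ∃ t, chk3 f_mm_202 t 60 34 1 = true :=
  ⟨(b (a (b (l 16917560) (l 16992176)) (b (l 16775720) (l 16777632))) (a (b (l 17012088) (l 17001712)) (b (a (l 16947720) (l 16907024)) (a (l 16939024) (l 16899072))))), by decide +kernel⟩

def k5_mm_202 : ∃ t, chk3 f_mm_202 t 61 68 1 = true :=
  ⟨(a (b (a (l 16822720) (l 16773944)) (a (l 16843904) (l 16774344))) (b (a (b (l 16773480) (l 16787968)) (b (a (l 16773376) (l 16773368)) (a (l 16773576) (l 16773472)))) (b (a (l 16778384) (a (l 16784560) (l 16778224))) (a (l 16784560) (a (l 16790128) (l 16783072)))))), by decide +kernel⟩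

def k6_mm_202 : ∃ t, chk3 f_mm_202 t 61 69 1 = true :=
  ⟨(a (a (b (l 16848200) (l 16840520)) (b (a (l 16843336) (l 16827640)) (a (l 16835440) (l 16798368)))) (a (b (b (a (l 16813784) (l 16801464)) (l 16774240)) (a (b (l 16807688) (l 16800696)) (b (l 16784000) (a (l 16790320) (b (l 16786016) (b (l 16780328) (a (l 16782328) (a (a (l 16780784) (l 39963335831)) (a (b (l 53385109207) (l 92576685719)) (l 87207977095)))))))))) (b (a (b (l 16791224) (l 16780784)) (b (l 16780792) (a (b (l 16783104) (a (l 16781864) (b (l 16780648) (a (l 22783466983) (a (b (l 16780528) (l 83449880135)) (l 79154913639)))))) (b (b (b (l 16780480) (a (l 16780768) (a (l 16780144) (a (l 46942657879) (l 78618041975))))) (b (a (l 16780352) (a (a (l 16780464) (l 65196269303)) (l 92039814727))) (a (l 19025370503) (l 89892330087)))) (a (b (a (a (l 26541563271) (b (l 16780496) (l 81839267351))) (a (b (l 67343752967) (l 4)) (l 95261039223))) (l 95797910407)) (l 4)))))) (a (b (a (l 16780528) (b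 (a (l 16783512) (b (l 16781952) (a (l 16781080) (l 25467821671)))) (b (a (l 16781192) (a (a (l 32447143463) (b (l 16780944) (l 88281718439))) (l 86671107255))) (a (a (a (l 16780584) (l 34057756167)) (a (b (l 44258303495) (l 89355460215)) (l 82913009831))) (l 4))))) (a (b (b (b (l 16781168) (a (l 16782208) (a (l 16780576) (l 73249333303)))) (a (a (l 16781488) (a (l 16780696) (l 36742110583))) (a (a (b (l 49090141815) (l 92576685671)) (l 85060493383)) (l 4)))) (b (a (a (a (l 38352723207) (b (l 51237625511) (l 92576685687))) (l 89892330231)) (l 4)) (l 4))) (b (l 91502946295) (l 4)))) (b (a (b (a (b (a (l 16780528) (a (l 29762788871) (b (l 16780560) (l 85060492903)))) (a (a (b (l 16780592) (l 86671105671)) (l 80765526119)) (l 95797910311))) (a (b (l 85060494439) (l 4)) (l 4))) (l 4)) (l 4)) (l 4)))))), by decide +kernel⟩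

def k7_mm_202 : ∃ t, chk3 f_mm_202 t 60 35 1 = true :=
  ⟨(a (b (a (l 16994952) (l 16953384)) (a (l 16943704) (l 16860632))) (b (a (b (l 16922784) (l 16901120)) (b (l 16883080) (l 16840384))) (a (b (l 16875592) (l 16826408)) (b (a (l 16845520) (l 16804816)) (a (l 16796120) (b (l 16783544) (a (l 16784216) (b (l 16783368) (b (a (l 16785560) (a (l 16780896) (l 66270013191))) (a (l 28689047703) (l 84523621031))))))))))), by decide +kernel⟩

def k8_mm_202 : ∃ t, chk3 f_mm_202 t 122 35 1 = true :=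
  ⟨(b (a (b (a (l 16854552) (l 16836280)) (a (l 16832536) (l 16777408))) (b (a (l 16797784) (a (l 16785208) (l 16782384))) (a (b (l 16781152) (a (l 16783568) (b (l 16783256) (a (l 16781696) (b (l 24930951335) (a (l 52311367479) (l 90966072183))))))) (b (a (l 16781440) (a (b (l 16786160) (b (l 21172854807) (a (b (l 16781056) (l 73786204375)) (l 88281717575)))) (a (b (l 16780640) (b (b (l 60901302583) (l 90429202343)) (l 4))) (b (b (l 16782800) (b (l 16781064) (l 71101849799))) (l 4))))) (a (b (b (a (l 16783800) (a (l 30836530423) (a (l 68417495543) (l 85060493511)))) (a (a (l 16781920) (b (l 40500207463) (l 76470558967))) (l 91502943223))) (a (a (b (l 75933688535) (l 4)) (l 4)) (l 4))) (l 4)))))) (a (b (a (l 16780192) (a (b (l 16799072) (b (l 16783504) (a (l 15804145799) (b (b (l 16781048) (l 41037078823)) (l 73249333175))))) (b (b (l 16793208) (l 16781224)) (b (a (b (l 16783712) (b (l 30299659479) (l 55532593255))) (a (b (l 41037077879) (l 4)) (l 87744852023)))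 (l 89892336183))))) (a (a (b (a (l 16781816) (b (l 16791104) (l 18488500439))) (b (a (a (l 23857209527) (b (l 16782320) (l 76470559175))) (b (l 64122528503) (l 4))) (l 94187298215))) (b (b (a (l 16781128) (a (l 20099113063) (b (l 16782520) (l 73249334039)))) (a (b (b (l 26541563351) (l 45332045847)) (l 76470557351)) (l 92039814247))) (l 4))) (b (a (b (a (b (b (l 50700755063) (l 81839266471)) (l 4)) (l 4)) (l 4)) (l 4)) (l 4)))) (b (a (b (a (b (a (l 16786464) (a (l 16780648) (b (l 16782784) (l 54995721655)))) (a (b (b (l 16782504) (l 36205240551)) (a (l 57680075863) (l 93650426775))) (l 85597368535))) (b (a (a (b (b (l 16781664) (l 59827560711)) (l 92576684935)) (l 81839269335)) (l 4)) (l 4))) (l 4)) (l 4)) (l 4)))), by decide +kernel⟩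

def k9_mm_202 : ∃ t, chk3 f_mm_202 t 123 35 1 = true :=
  ⟨(b (a (b (a (b (l 16781200) (a (b (l 16787672) (a (l 16784112) (b (l 16781256) (a (b (l 16781064) (l 67880624311)) (l 84523621111))))) (a (a (b (l 16783112) (a (b (b (l 16780848) (l 82913009527)) (l 4)) (l 87207981063))) (b (b (l 16782664) (b (l 16781048) (l 65196269751))) (l 95797910695))) (b (b (b (l 27078434727) (a (l 37278981815) (l 83449880695))) (l 86671110119)) (l 4))))) (b (b (a (a (l 16785272) (a (l 16782832) (a (l 16781728) (b (l 16782048) (b (l 16780752) (l 74323074983)))))) (a (b (b (l 22246596327) (a (l 16780728) (l 78618042551))) (a (b (l 69491237127) (l 95797910327)) (l 4))) (l 93113556183))) (a (b (a (l 16781792) (a (a (b (l 16780776) (l 76470558663)) (l 73786204631)) (l 92576684887))) (a (a (b (l 16781016) (a (l 16780760) (l 78081171335))) (l 80765527255)) (l 4))) (l 4))) (a (l 95261046023) (l 4)))) (a (b (a (b (a (b (a (l 26004691623) (b (l 57680077047) (l 88281718823))) (l 88818588599))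 (l 95261039975)) (l 4)) (l 4)) (l 4)) (l 4))) (l 4)) (l 4)), by decide +kernel⟩

def k10_mm_202 : ∃ t, chk3 f_mm_202 t 248 68 1 = true :=
  ⟨(b (a (b (l 16773424) (l 16783984)) (a (b (l 16773496) (b (l 16794520) (a (l 16794520) (l 16795368)))) (b (l 16784040) (b (l 16784824) (a (l 16786176) (l 16787464)))))) (b (b (a (l 16784008) (a (a (b (l 16795576) (l 16796584)) (l 16786888)) (l 16780968))) (a (l 16787184) (a (l 16783016) (a (a (l 16780688) (b (l 16779520) (b (l 24930949991) (a (a (l 53921979479) (l 73249332359)) (l 90429201527))))) (a (b (a (l 16779984) (a (l 23857208183) (b (l 16780128) (l 71638719575)))) (b (l 81839267367) (l 4))) (b (b (a (a (l 16780272) (l 50163882999)) (l 75396816215)) (l 89892330823)) (l 4))))))) (a (b (l 16781240) (a (l 16780096) (a (l 16779144) (a (l 16780848) (b (l 16779680) (b (l 31373401207) (a (l 70564978247) (l 92576685191)))))))) (a (a (b (l 16780448) (b (b (a (l 16780056) (a (a (l 16780416) (l 60364430519)) (l 81839267111)))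 (a (a (l 16780696) (c (l 68417494455) (l 67880623415))) (l 95797909879))) (l 91502945431))) (b (b (b (l 16779672) (b (l 16780680) (a (l 16779968) (a (l 16780400) (l 82913008711))))) (a (b (l 28152175607) (a (a (l 58753817815) (l 77544299751)) (l 92576685111))) (l 89355461527))) (l 4))) (b (b (b (a (a (a (a (l 16780344) (l 54995721335)) (l 78618041703)) (l 4)) (l 4)) (l 94187297559)) (l 4)) (l 4)))))), by decide +kernel⟩

def k11_mm_202 : ∃ t, chk3 f_mm_202 t 249 136 1 = true :=
  ⟨(a (b (a (b (l 16784104) (l 16785408)) (b (l 16785976) (l 16782712))) (a (b (l 16782152) (a (l 16783512) (a (l 16781840) (b (l 16779360) (b (l 16780728) (b (a (l 16780272) (l 81302395767)) (l 80228654295))))))) (b (a (l 16781440) (a (b (l 16779272) (b (l 16779992) (a (b (l 16780192) (l 67343752007)) (l 81839266791)))) (a (b (l 16779744) (b (b (l 53921979095) (l 85597362823)) (l 4))) (b (b (l 16779808) (b (l 16780152) (l 65196268327))) (l 95797909575))))) (a (a (b (a (l 16779824)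 (b (l 16779888) (b (l 16780232) (l 70028106615)))) (b (a (b (l 59290688343) (l 89355459319)) (l 92576684887)) (l 4))) (b (b (b (l 30299658471) (a (l 44258302519) (l 87744846535))) (l 86134234231)) (l 4))) (l 94724168327))))) (b (b (a (l 16780648) (a (b (b (l 16779168) (a (l 16779352) (a (l 16779808) (l 31373400391)))) (a (a (b (l 16779680) (c (l 33520884023) (l 32984013047))) (b (l 16779976) (b (l 68417493703) (l 92576684439)))) (a (b (b (a (l 16780072) (l 54995720487)) (l 78081169991)) (l 4)) (l 92576683879)))) (b (a (a (b (l 16779928) (b (a (l 16780496) (l 82913008023)) (l 92576684375))) (b (l 6) (l 4))) (l 92576683911)) (l 4)))) (a (a (a (l 16781680) (b (l 16779192) (b (l 16779912) (a (b (l 16780112) (l 62511913687)) (l 79154912199))))) (a (a (b (l 16779656) (b (b (c (l 47479527831) (l 47479527767)) (l 81839266503)) (l 4))) (b (b (l 16779720) (c (l 35131496743) (l 35131496727))) (l 94187296727))) (b (b (b (l 16780208) (a (l 16780128) (l 80228653703))) (a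 (a (l 73786202903) (l 89892330055)) (l 4))) (l 4)))) (a (l 94187299831) (l 4)))) (a (b (a (a (b (b (b (l 26541562023) (a (l 16780528) (l 83986750039))) (l 83986750631)) (l 4)) (l 94724168055)) (l 4)) (l 4)) (l 4)))), by decide +kernel⟩

def k12_mm_202 : ∃ t, chk3 f_mm_202 t 249 137 1 = true :=
  ⟨(a (b (a (b (a (a (b (l 16779440) (b (l 16780640) (b (a (l 16780344) (l 85060492247)) (l 82913008791)))) (b (a (l 16779904) (a (l 16780776) (b (l 16780048) (l 67343752199)))) (a (a (b (l 68417494039) (l 4)) (l 88818588935)) (l 95261038871)))) (a (b (b (b (c (l 35668367239) (l 34594625511)) (a (l 50163882759) (l 91502943031))) (l 88281717975)) (l 4)) (l 95261039175))) (l 4)) (l 4)) (l 4)) (l 4)), by decide +kernel⟩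

def k13_mm_202 : ∃ t, chk3 f_mm_202 t 124 69 1 = true :=
  ⟨(a (b (a (b (b (b (a (l 16780080) (b (a (l 16779824) (a (a (a (l 16780808) (l 65196268871)) (l 84523621767)) (l 4))) (a (a (l 16780000) (a (l 37278981223) (l 72175591015))) (l 95261039223)))) (a (c (l 16780752) (l 16780424)) (a (a (b (l 34594626807) (l 79691784071)) (l 92039813639)) (l 4)))) (a (a (b (l 16779880) (a (l 16780824) (b (c (l 37815852247) (l 37815852167)) (l 81839267639)))) (b (b (a (l 16780208) (a (a (l 49090141335) (l 69491236199)) (l 87207976327))) (a (a (l 42110819559) (l 75396816503)) (l 95261039127))) (l 93650426615))) (l 4))) (a (b (a (a (a (b (b (l 63585656503) (l 4)) (l 4)) (l 94187297591)) (l 4)) (l 4)) (l 4)) (l 4))) (l 4)) (l 4)) (l 4)), by decide +kernel⟩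

def k14_mm_202 : ∃ t, chk3 f_mm_202 t 125 34 1 = true :=
  ⟨(l 4), by decide +kernel⟩

def k15_mm_202 : ∃ t, chk3 f_mm_202 t 62 35 1 = true :=
  ⟨(l 4), by decide +kernel⟩

def k16_mm_202 : ∃ t, chk3 f_mm_202 t 63 17 1 = true :=
  ⟨(l 4), by decide +kernel⟩

def k17_mm_202 : ∃ t, chk3 f_mm_202 t 14 18 1 = true :=
  ⟨(a (b (a (l 17383168) (l 17252760)) (a (l 17250320) (l 17100848))) (a (b (b (l 17141632) (l 17077224)) (a (l 16975528) (b (l 16975664) (l 16870296)))) (b (a (b (l 17025912) (l 16962568)) (b (l 16903584) (a (l 16902872) (b (l 16878176) (l 16825432))))) (a (b (a (l 16918288) (l 16837128)) (a (b (l 16870744) (l 16818528)) (a (l 16783896) (b (l 16800776) (b (l 16787896) (a (b (l 16781304) (l 30836532487)) (b (a (l 23320338151) (l 54458852007)) (l 79154911463)))))))) (b (b (a (l 16855096) (a (l 16803792) (b (l 16791360) (c (l 7751081351) (l 16780760))))) (a (a (l 16833352) (l 16792280)) (a (b (l 16779968) (a (b (l 16783704) (l 17414758535)) (b (a (l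 16781472) (l 38889595239)) (l 69491239687)))) (b (a (b (l 16779232) (a (l 16781904) (l 54458851767))) (b (a (l 34594627767) (l 69491236967)) (l 4))) (l 88818599319))))) (a (b (a (b (l 16788712) (a (l 16778080) (b (l 16782528) (l 24394080903)))) (b (a (l 16784216) (a (l 18488500695) (b (l 16780952) (l 61975046839)))) (a (b (a (l 16780432) (l 45868917287)) (l 74323083447)) (l 88281717527)))) (a (a (b (b (l 16782288) (a (l 35668369975) (l 68954363719))) (l 4)) (l 94187318935)) (l 4))) (b (a (b (a (b (a (l 42110820839) (l 75933685591)) (l 4)) (l 4)) (l 4)) (l 4)) (l 4)))))))), by decide +kernel⟩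

def k18_mm_202 : ∃ t, chk3 f_mm_202 t 14 19 1 = true :=
  ⟨(a (a (b (l 17124624) (l 16923696)) (b (a (l 17030256) (l 16900496)) (a (b (l 16941944) (l 16843800)) (b (a (l 16892352) (l 16816368)) (b (l 16791240) (a (l 16801672) (a (l 16786976) (b (l 34057761623) (l 74859965559))))))))) (a (b (b (a (l 16902752) (b (a (l 16884416) (l 16825968)) (l 16782864))) (a (a (l 16860512) (b (l 16860568) (l 16810136))) (a (a (l 16782448) (b (l 16793832) (b (l 16782392) (a (l 42110823943) (l 76470557255))))) (b (a (b (l 16782624) (a (l 16783088) (l 37815856327))) (b (a (l 16784400) (b (l 32447145479) (l 70564976791))) (l 80228674983))) (a (l 91502974903) (l 4)))))) (a (b (a (b (l 16816824) (l 16783192)) (b (b (l 16788424) (a (l 16783120) (a (l 16780304) (l 46942662375)))) (a (b (l 26004696999) (l 68417503367)) (l 93650448711)))) (a (b (a (b (l 16786792) (l 45332051671)) (l 73786223159)) (l 110293427927)) (l 4))) (b (a (b (a (b (a (l 16783144) (l 63585665079)) (l 85060492775))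 (l 4)) (l 4)) (l 4)) (l 4)))) (b (a (b (a (b (a (l 16797384) (a (l 16782952) (a (l 16780968) (b (l 16799456) (l 31373404135))))) (a (b (l 16785176) (a (a (l 16782728) (l 38889597239)) (l 68954374295))) (b (a (b (l 26004694007) (l 65196267383)) (l 81839266487)) (l 4)))) (b (a (b (a (l 16781728) (b (l 16781152) (l 59290692327))) (a (b (l 48016402103) (l 4)) (l 4))) (l 102240383591)) (l 4))) (a (l 128010191463) (l 4))) (l 4)) (l 4)))), by decide +kernel⟩

def k19_mm_202 : ∃ t, chk3 f_mm_202 t 120 36 1 = true :=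
  ⟨(b (a (l 16842280) (b (l 16837440) (a (l 16837784) (a (l 16822312) (l 16791032))))) (a (b (a (l 16847464) (l 16805896)) (a (b (l 16823640) (l 16786760)) (b (l 16782072) (a (l 16781864) (a (b (l 16783400) (b (l 26004691655) (l 58753818055))) (b (l 24394079879) (l 78081169079))))))) (b (a (l 4529855879) (b (a (l 16788192) (a (l 16780504) (b (l 16789808) (b (l 16781456) (l 48016400407))))) (a (b (l 14730403575) (a (b (l 16781088) (l 51774496631)) (l 73786204647))) (b (a (b (l 36742111063) (l 74323072967)) (l 4)) (l 4))))) (a (b (a (b (l 16781112) (a (l 16781088) (b (l 16780704) (l 54995721799)))) (b (a (l 21709725463) (b (l 40500207367) (l 82913007447))) (l 81839268535))) (a (b (a (b (l 44258303575) (l 4)) (l 4)) (l 4)) (l 4))) (l 4))))), by decide +kernel⟩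

def k20_mm_202 : ∃ t, chk3 f_mm_202 t 121 36 1 = true :=
  ⟨(b (a (b (a (l 16806648) (l 16780968)) (a (a (l 16780744) (b (l 16778304) (b (l 16782376) (a (b (l 16784424) (l 44258304199)) (b (l 56069464343) (l 4)))))) (b (b (a (l 16782480) (a (l 16780232) (b (l 16781104) (l 63585657239)))) (b (a (l 16781960) (a (l 52311368039) (l 4))) (a (a (l 16785888) (l 40500207831)) (l 4)))) (a (b (a (b (l 28689047495) (l 66806882087)) (l 83986749991)) (l 4)) (l 4))))) (b (a (b (b (l 16787896) (b (l 16782208) (a (l 16793904) (a (l 16786464) (l 32984015143))))) (a (b (l 16782968) (b (a (l 16785056) (l 48553271735)) (a (l 36742111463) (l 89892330071)))) (a (b (b (a (l 16784016) (l 35131498295)) (l 59827561079)) (l 4)) (l 86134236871)))) (b (a (b (b (l 16782824) (a (l 16784216) (b (l 44795174279) (l 76470559255)))) (a (a (b (l 31910272679) (l 82376138855)) (l 73786203927)) (l 4))) (b (a (b (l 68954365655) (l 4)) (l 4)) (l 4))) (l 4))) (a (b (l 91502954807) (l 4)) (l 4))))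 (a (b (a (b (a (b (a (l 16782184) (b (l 32447143863) (l 71101847591))) (a (l 71638721079) (l 4))) (l 91502953959)) (l 4)) (l 4)) (l 4)) (l 4))), by decide +kernel⟩

def k21_mm_202 : ∃ t, chk3 f_mm_202 t 60 37 1 = true :=
  ⟨(a (b (a (b (a (b (a (l 16786496) (b (l 16780256) (a (l 16780232) (a (l 34594627255) (l 56606334743))))) (a (a (b (l 16787728) (b (l 29762788007) (l 66806880727))) (b (l 30836531111) (l 4))) (b (l 75396819783) (l 4)))) (b (a (b (a (l 27615305527) (l 63585656631)) (l 85060491287)) (l 4)) (l 4))) (l 4)) (l 4)) (l 4)) (l 4)), by decide +kernel⟩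

def k22_mm_202 : ∃ t, chk3 f_mm_202 t 61 18 1 = true :=
  ⟨(l 4), by decide +kernel⟩

def k23_mm_202 : ∃ t, chk3 f_mm_202 t 30 19 1 = true :=
  ⟨(l 4), by decide +kernel⟩

def k24_mm_202 : ∃ t, chk3 f_mm_202 t 31 9 1 = true :=
  ⟨(l 4), by decide +kernel⟩

def k25_mm_202 : ∃ t, chk3 f_mm_202 t 3 5 1 = true :=
  ⟨(a (b (a (b (l 17449896) (a (l 17341784) (l 17194576))) (a (b (l 17065616) (b (l 17006752) (a (l 17026880) (l 16872432)))) (b (a (b (l 17120960) (l 17020000)) (b (l 16972888) (a (l 16941264) (b (l 16910480) (l 16819712))))) (a (b (a (l 16951024) (l 16837008)) (b (l 16816576) (a (l 16819944) (a (l 16792744) (l 87208014343))))) (b (a (b (l 16848840) (l 16792736)) (b (a (l 16807608) (l 30836548215)) (l 96871753575))) (a (a (l 89892450487) (l 115125309655)) (l 4))))))) (a (a (b (l 17181416) (l 17159568)) (b (b (l 17069696) (l 17138000)) (a (l 16878032) (b (a (l 16895904) (l 16811960)) (a (l 16802944) (l 71638791335)))))) (b (a (a (b (l 16943536) (l 16817032))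 (a (b (l 16812408) (b (l 16815624) (l 86134273735))) (b (b (l 16827320) (l 28689070007)) (l 110293491255)))) (a (b (a (b (l 38889622631) (l 107072221559)) (l 123715250983)) (l 4)) (l 4))) (a (a (b (a (b (l 16829296) (l 46405817191)) (l 96334863015)) (l 122641498583)) (l 4)) (l 4))))) (a (b (a (b (a (b (a (l 16866176) (b (l 16873976) (l 16800752))) (a (b (a (l 16867384) (l 16795920)) (a (l 16797712) (b (l 16790912) (l 82913026839)))) (b (a (b (l 16799192) (l 28689058279)) (b (l 40500220535) (l 97408545255))) (l 115125309863)))) (b (a (b (a (l 16805840) (b (l 16807792) (l 17414765863))) (a (b (l 16787608) (a (l 16785072) (l 71638739223))) (a (l 87744907943) (l 109219707047)))) (b (a (b (a (l 16783128) (l 39426474455)) (l 92039876487)) (l 113514675175)) (l 4))) (a (l 128547095175) (l 4)))) (a (b (a (b (l 105461671687) (l 4)) (l 4)) (l 4)) (l 4))) (l 4)) (l 4)) (l 4))), by decide +kernel⟩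

def k26_mm_202 : ∃ t, chk3 f_mm_202 t 1 3 1 = true :=
  ⟨(a (b (a (b (l 17688160) (a (l 17461920) (l 17323712))) (b (a (l 17403752) (b (a (l 17165528) (l 17078768)) (a (l 17039304) (b (l 16981800) (l 16856232))))) (a (b (l 17183192) (a (l 17041768) (l 16903872))) (a (b (l 16896744) (a (b (l 16861608) (l 48016457719)) (l 80228792791))) (b (a (b (l 16828912) (l 61438240807)) (l 95798052759)) (l 125862811047)))))) (a (l 2) (a (l 2) (a (l 2) (l 4))))) (b (a (a (b (b (a (a (l 17016440) (b (l 16913344) (l 31373464151))) (a (b (a (l 16813640) (l 49090191159)) (l 104924787687)) (l 119420349399))) (a (a (b (l 16814176) (l 86671191047)) (l 107072328247)) (l 4))) (l 4)) (l 4)) (l 4)) (l 4))), by decide +kernel⟩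

theorem s27_mm_202 : ∃ t, chk3 f_mm_202 t 60 36 1 = true := ex3_a k19_mm_202 k20_mm_202

theorem s28_mm_202 : ∃ t, chk3 f_mm_202 t 60 18 1 = true := ex3_b s27_mm_202 k21_mm_202

theorem s29_mm_202 : ∃ t, chk3 f_mm_202 t 30 18 1 = true := ex3_a s28_mm_202 k22_mm_202

theorem s30_mm_202 : ∃ t, chk3 f_mm_202 t 30 9 1 = true := ex3_b s29_mm_202 k23_mm_202

theorem s31_mm_202 : ∃ t, chk3 f_mm_202 t 15 9 1 = true := ex3_a s30_mm_202 k24_mm_202

theorem s32_mm_202 : ∃ t, chk3 f_mm_202 t 14 9 1 = true := ex3_b k17_mm_202 k18_mm_202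

theorem s33_mm_202 : ∃ t, chk3 f_mm_202 t 7 9 1 = true := ex3_a s32_mm_202 s31_mm_202

theorem s34_mm_202 : ∃ t, chk3 f_mm_202 t 249 68 1 = true := ex3_b k11_mm_202 k12_mm_202

theorem s35_mm_202 : ∃ t, chk3 f_mm_202 t 124 68 1 = true := ex3_a k10_mm_202 s34_mm_202

theorem s36_mm_202 : ∃ t, chk3 f_mm_202 t 124 34 1 = true := ex3_b s35_mm_202 k13_mm_202

theorem s37_mm_202 : ∃ t, chk3 f_mm_202 t 62 34 1 = true := ex3_a s36_mm_202 k14_mm_202

theorem s38_mm_202 : ∃ t, chk3 f_mm_202 t 62 17 1 = true := ex3_b s37_mm_202 k15_mm_202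

theorem s39_mm_202 : ∃ t, chk3 f_mm_202 t 31 17 1 = true := ex3_a s38_mm_202 k16_mm_202

theorem s40_mm_202 : ∃ t, chk3 f_mm_202 t 61 35 1 = true := ex3_a k8_mm_202 k9_mm_202

theorem s41_mm_202 : ∃ t, chk3 f_mm_202 t 30 35 1 = true := ex3_a k7_mm_202 s40_mm_202

theorem s42_mm_202 : ∃ t, chk3 f_mm_202 t 61 34 1 = true := ex3_b k5_mm_202 k6_mm_202

theorem s43_mm_202 : ∃ t, chk3 f_mm_202 t 30 34 1 = true := ex3_a k4_mm_202 s42_mm_202

theorem s44_mm_202 : ∃ t, chk3 f_mm_202 t 30 17 1 = true := ex3_b s43_mm_202 s41_mm_202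

theorem s45_mm_202 : ∃ t, chk3 f_mm_202 t 15 17 1 = true := ex3_a s44_mm_202 s39_mm_202

theorem s46_mm_202 : ∃ t, chk3 f_mm_202 t 15 8 1 = true := ex3_b k3_mm_202 s45_mm_202

theorem s47_mm_202 : ∃ t, chk3 f_mm_202 t 7 8 1 = true := ex3_a k2_mm_202 s46_mm_202

theorem s48_mm_202 : ∃ t, chk3 f_mm_202 t 7 4 1 = true := ex3_b s47_mm_202 s33_mm_202

theorem s49_mm_202 : ∃ t, chk3 f_mm_202 t 3 4 1 = true := ex3_a k1_mm_202 s48_mm_202

theorem s50_mm_202 : ∃ t, chk3 f_mm_202 t 3 2 1 = true := ex3_b s49_mm_202 k25_mm_202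

theorem s51_mm_202 : ∃ t, chk3 f_mm_202 t 1 2 1 = true := ex3_a k0_mm_202 s50_mm_202

theorem s52_mm_202 : ∃ t, chk3 f_mm_202 t 1 1 1 = true := ex3_b s51_mm_202 k26_mm_202

theorem c_mm_202 : CertN 0 536870912 0 536870912 50331648 16777216 3 true false false .pp 2 0 2
    ndN0q2 ndN0q0 pcN2 cut_mm_202 Ext.none :=
  certNK0 (fam := true) (s1 := false) (s2 := false) (a := 2) (b := 0) (c := 2) (cn := .pp) (n1 := ndN0q2) (n2 := ndN0q0) (pc := pcN2) (cut := cut_mm_202) (xt := Ext.none) (P1 := 0) (W1 := 536870912) (P2 := 0) (W2 := 536870912) (P3 := 50331648) (W3 := 16777216) (N0 := 3)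
    rfl rfl rfl s52_mm_202

noncomputable def f_mm_203 : ℕ → ℕ → ℕ → ℕ → Bool := onCell 0 536870912 1610612736 536870912 50331648 16777216
    (rowNK 3 1 true false false .up 2 0 3 (qsf 0 536870912 0 536870912 3) ndN0q2 ndN0q0 pcN3 Cut.none Ext.none)

def k0_mm_203 : ∃ t, chk3 f_mm_203 t 1 1 1 = true :=
  ⟨(b (a (b (b (a (a (l 17964032) (a (l 17589104) (a (l 17430248) (l 17427864)))) (a (b (a (l 17227576) (a (l 17078936) (l 86671587895))) (a (a (l 17061808) (l 79155462439)) (b (a (l 86671412615) (l 108146005303)) (l 108682959559)))) (b (a (b (a (a (l 88281918727) (l 100629798247)) (l 4)) (l 4)) (l 4)) (l 4)))) (a (b (a (l 17498928) (a (l 17189648) (a (l 17033696) (b (l 16972896) (l 16904816))))) (a (l 17432360) (b (a (l 17053088) (l 87208434615)) (a (l 17026192) (a (l 16906464) (l 105998500551)))))) (a (a (b (b (l 88819004359) (a (l 90429429095) (l 4))) (l 4)) (l 4)) (l 4)))) (b (a (a (b (a (l 17215400) (l 17150288)) (l 2)) (b (a (l 86671711367) (b (l 109219788647)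 (l 4))) (l 2))) (l 4)) (l 2))) (l 4)) (l 2)), by decide +kernel⟩

theorem c_mm_203 : CertN 0 536870912 0 536870912 50331648 16777216 3 true false false .up 2 0 3
    ndN0q2 ndN0q0 pcN3 Cut.none Ext.none :=
  certNK1 (fam := true) (s1 := false) (s2 := false) (a := 2) (b := 0) (c := 3) (cn := .up) (n1 := ndN0q2) (n2 := ndN0q0) (pc := pcN3) (cut := Cut.none) (xt := Ext.none) (P1 := 0) (W1 := 536870912) (P2 := 0) (W2 := 536870912) (P3 := 50331648) (W3 := 16777216) (N0 := 3)
    rfl rfl rfl (fun _ => rfl) k0_mm_203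

noncomputable def f_mm_213 : ℕ → ℕ → ℕ → ℕ → Bool := onCell 0 536870912 536870912 536870912 50331648 16777216
    (rowNK 3 0 true false false .pnn 2 1 3 (qsf 0 536870912 536870912 536870912 3) ndN0q2 ndN0q1 pcN3 Cut.none Ext.none)

def k0_mm_213 : ∃ t, chk3 f_mm_213 t 1 1 1 = true :=
  ⟨(a (b (a (b (b (a (b (a (l 17146512) (l 83987360631)) (b (l 87208586487) (a (l 87208361751) (l 4)))) (b (a (b (a (l 92040019175) (l 4)) (l 4)) (l 4)) (l 4))) (a (b (a (b (a (l 16885240) (l 4)) (l 4)) (l 4)) (l 4)) (l 4))) (l 4)) (l 4)) (l 4)) (l 4)), by decide +kernel⟩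

theorem c_mm_213 : CertN 0 536870912 536870912 536870912 50331648 16777216 3 true false false .pnn 2 1 3
    ndN0q2 ndN0q1 pcN3 Cut.none Ext.none :=
  certNK0 (fam := true) (s1 := false) (s2 := false) (a := 2) (b := 1) (c := 3) (cn := .pnn) (n1 := ndN0q2) (n2 := ndN0q1) (pc := pcN3) (cut := Cut.none) (xt := Ext.none) (P1 := 0) (W1 := 536870912) (P2 := 536870912) (W2 := 536870912) (P3 := 50331648) (W3 := 16777216) (N0 := 3)
    rfl rfl rfl k0_mm_213

end Pool.Agent.Strip051.G.I3_64_1_16.Tab.C.NA00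

namespace Pool.Agent.Strip051.G.I3_64_1_16.Tab.C.NA01

open Pool.Agent.Strip051.PB Pool.Agent.Strip051.PB.T
open Pool.Agent.Strip051.G.I3_64_1_16.Tab

noncomputable def f_pp_001 : ℕ → ℕ → ℕ → ℕ → Bool := onCell 0 536870912 0 536870912 50331648 16777216
    (rowNK 3 0 true true true .up 0 0 1 (qsf 0 536870912 0 536870912 1) ndN0q0 ndN1q0 pcN1 Cut.none Ext.none)

def k0_pp_001 : ∃ t, chk3 f_pp_001 t 1 1 1 = true :=
  ⟨(l 4), by decide +kernel⟩

theorem c_pp_001 : CertN 0 536870912 0 536870912 50331648 16777216 3 true true true .up 0 0 1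
    ndN0q0 ndN1q0 pcN1 Cut.none Ext.none :=
  certNK0 (fam := true) (s1 := true) (s2 := true) (a := 0) (b := 0) (c := 1) (cn := .up) (n1 := ndN0q0) (n2 := ndN1q0) (pc := pcN1) (cut := Cut.none) (xt := Ext.none) (P1 := 0) (W1 := 536870912) (P2 := 0) (W2 := 536870912) (P3 := 50331648) (W3 := 16777216) (N0 := 3)
    rfl rfl rfl k0_pp_001

noncomputable def f_pp_011 : ℕ → ℕ → ℕ → ℕ → Bool := onCell 0 536870912 536870912 536870912 50331648 16777216
    (rowNK 3 0 true true true .pnn 0 1 1 (qsf 0 536870912 536870912 536870912 1) ndN0q0 ndN1q1 pcN1 Cut.none Ext.none)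

def k0_pp_011 : ∃ t, chk3 f_pp_011 t 1 1 1 = true :=
  ⟨(l 4), by decide +kernel⟩

theorem c_pp_011 : CertN 0 536870912 536870912 536870912 50331648 16777216 3 true true true .pnn 0 1 1
    ndN0q0 ndN1q1 pcN1 Cut.none Ext.none :=
  certNK0 (fam := true) (s1 := true) (s2 := true) (a := 0) (b := 1) (c := 1) (cn := .pnn) (n1 := ndN0q0) (n2 := ndN1q1) (pc := pcN1) (cut := Cut.none) (xt := Ext.none) (P1 := 0) (W1 := 536870912) (P2 := 536870912) (W2 := 536870912) (P3 := 50331648) (W3 := 16777216) (N0 := 3)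
    rfl rfl rfl k0_pp_011

noncomputable def f_pp_012 : ℕ → ℕ → ℕ → ℕ → Bool := onCell 0 536870912 536870912 536870912 50331648 16777216
    (rowNK 3 0 true true true .pnp 0 1 2 (qsf 0 536870912 536870912 536870912 2) ndN0q0 ndN1q1 pcN2 Cut.none Ext.none)

def k0_pp_012 : ∃ t, chk3 f_pp_012 t 1 1 1 = true :=
  ⟨(l 4), by decide +kernel⟩

theorem c_pp_012 : CertN 0 536870912 536870912 536870912 50331648 16777216 3 true true true .pnp 0 1 2
    ndN0q0 ndN1q1 pcN2 Cut.none Ext.none :=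
  certNK0 (fam := true) (s1 := true) (s2 := true) (a := 0) (b := 1) (c := 2) (cn := .pnp) (n1 := ndN0q0) (n2 := ndN1q1) (pc := pcN2) (cut := Cut.none) (xt := Ext.none) (P1 := 0) (W1 := 536870912) (P2 := 536870912) (W2 := 536870912) (P3 := 50331648) (W3 := 16777216) (N0 := 3)
    rfl rfl rfl k0_pp_012

noncomputable def cut_pp_022_a : Cut := Cut.of [[⟨0, 0, 0, 50331648⟩, ⟨1, 1, 0, 50331648⟩, ⟨2, 1, 0, 50331648⟩]]

noncomputable def f_pp_022_a : ℕ → ℕ → ℕ → ℕ → Bool := onCell 0 536870912 0 536870912 50331648 16777216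
    (rowNK 3 0 true true true .pp 0 2 2 (qsf 0 536870912 0 536870912 2) ndN0q0 ndN1q2a pcN2 cut_pp_022_a Ext.none)

def k0_pp_022_a : ∃ t, chk3 f_pp_022_a t 1 1 1 = true :=
  ⟨(a (b (a (a (a (b (l 18871560) (l 18745680)) (b (l 18497600) (l 18360000))) (b (l 18041016) (a (l 18021688) (l 17731936)))) (a (b (l 17632384) (l 4)) (b (l 65197486807) (l 4)))) (a (b (a (b (a (a (l 18559952) (l 18387688)) (l 18110680)) (a (b (a (l 18261024) (l 18145096)) (a (a (b (l 18027456) (l 17558824)) (l 17951888)) (a (l 17932304) (l 17884288)))) (a (b (l 17983952) (l 17783656)) (l 4)))) (a (b (l 17768120) (l 4)) (l 4))) (a (a (a (b (b (a (b (a (b (l 17569672) (l 17317208)) (l 17514192)) (a (b (l 17039736) (l 16857512)) (b (l 17301360) (l 17034320)))) (b (l 17466088) (a (b (l 17435544) (l 17240240)) (l 17304840)))) (a (b (a (a (l 16699512) (l 16699960)) (l 16707200)) (a (a (l 16718184) (l 16716040)) (b (l 16708504) (l 16714336)))) (b (a (b (l 17005072) (l 16831872)) (b (l 17176696)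 (l 16932384))) (b (a (l 16709032) (l 16776608)) (a (l 16720280) (l 27078368455)))))) (b (b (a (l 6) (a (b (b (l 16720072) (l 16729080)) (l 6)) (l 4))) (l 6)) (l 6))) (b (b (a (b (l 17688136) (a (l 17474016) (l 17497488))) (l 124253184423)) (b (a (a (l 72712843687) (l 4)) (l 4)) (l 4))) (l 4))) (l 4)) (l 4))) (l 4))) (l 4)), by decide +kernel⟩

theorem c_pp_022_a : CertN 0 536870912 0 536870912 50331648 16777216 3 true true true .pp 0 2 2
    ndN0q0 ndN1q2a pcN2 cut_pp_022_a Ext.none :=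
  certNK0 (fam := true) (s1 := true) (s2 := true) (a := 0) (b := 2) (c := 2) (cn := .pp) (n1 := ndN0q0) (n2 := ndN1q2a) (pc := pcN2) (cut := cut_pp_022_a) (xt := Ext.none) (P1 := 0) (W1 := 536870912) (P2 := 0) (W2 := 536870912) (P3 := 50331648) (W3 := 16777216) (N0 := 3)
    rfl rfl rfl k0_pp_022_a

noncomputable def cut_pp_022_b : Cut := Cut.of [[⟨0, 0, 0, 50331648⟩, ⟨1, 1, 0, 50331648⟩, ⟨2, 1, 0, 50331648⟩]]

noncomputable def f_pp_022_b : ℕ → ℕ → ℕ → ℕ → Bool := onCell 0 536870912 1239849684 370763052 50331648 16777216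
    (rowNK 3 0 true true true .pp 0 2 2 (qsf 0 536870912 1239849684 370763052 2) ndN0q0 ndN1q2b pcN2 cut_pp_022_b Ext.none)

def k0_pp_022_b : ∃ t, chk3 f_pp_022_b t 1 1 1 = true :=
  ⟨(a (b (a (b (a (b (l 18794728) (l 18945904)) (b (l 18192176) (l 18364776))) (a (l 19066608) (l 18549136))) (b (a (b (l 17732432) (l 17900024)) (b (l 49628310343) (l 4))) (l 4))) (a (b (a (l 19074544) (l 4)) (l 4)) (l 4))) (l 4)), by decide +kernel⟩

theorem c_pp_022_b : CertN 0 536870912 1239849684 370763052 50331648 16777216 3 true true true .pp 0 2 2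
    ndN0q0 ndN1q2b pcN2 cut_pp_022_b Ext.none :=
  certNK0 (fam := true) (s1 := true) (s2 := true) (a := 0) (b := 2) (c := 2) (cn := .pp) (n1 := ndN0q0) (n2 := ndN1q2b) (pc := pcN2) (cut := cut_pp_022_b) (xt := Ext.none) (P1 := 0) (W1 := 536870912) (P2 := 1239849684) (W2 := 370763052) (P3 := 50331648) (W3 := 16777216) (N0 := 3)
    rfl rfl rfl k0_pp_022_b

noncomputable def f_pp_023_a : ℕ → ℕ → ℕ → ℕ → Bool := onCell 0 536870912 0 536870912 50331648 16777216
    (rowNK 3 0 true true true .up 0 2 3 (qsf 0 536870912 0 536870912 3) ndN0q0 ndN1q2a pcN3 Cut.none Ext.none)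

def k0_pp_023_a : ∃ t, chk3 f_pp_023_a t 1 1 1 = true :=
  ⟨(a (l 1) (l 4)), by decide +kernel⟩

theorem c_pp_023_a : CertN 0 536870912 0 536870912 50331648 16777216 3 true true true .up 0 2 3
    ndN0q0 ndN1q2a pcN3 Cut.none Ext.none :=
  certNK0 (fam := true) (s1 := true) (s2 := true) (a := 0) (b := 2) (c := 3) (cn := .up) (n1 := ndN0q0) (n2 := ndN1q2a) (pc := pcN3) (cut := Cut.none) (xt := Ext.none) (P1 := 0) (W1 := 536870912) (P2 := 0) (W2 := 536870912) (P3 := 50331648) (W3 := 16777216) (N0 := 3)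
    rfl rfl rfl k0_pp_023_a

noncomputable def f_pp_023_b : ℕ → ℕ → ℕ → ℕ → Bool := onCell 0 536870912 1610612736 536870912 50331648 16777216
    (rowNK 3 1 true true true .up 0 2 3 (qsf 0 536870912 1239849684 370763052 3) ndN0q0 ndN1q2b pcN3 Cut.none Ext.none)

def k0_pp_023_b : ∃ t, chk3 f_pp_023_b t 1 1 1 = true :=
  ⟨(b (l 4) (l 4)), by decide +kernel⟩

theorem c_pp_023_b : CertN 0 536870912 1239849684 370763052 50331648 16777216 3 true true true .up 0 2 3
    ndN0q0 ndN1q2b pcN3 Cut.none Ext.none :=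
  certNK1 (fam := true) (s1 := true) (s2 := true) (a := 0) (b := 2) (c := 3) (cn := .up) (n1 := ndN0q0) (n2 := ndN1q2b) (pc := pcN3) (cut := Cut.none) (xt := Ext.none) (P1 := 0) (W1 := 536870912) (P2 := 1239849684) (W2 := 370763052) (P3 := 50331648) (W3 := 16777216) (N0 := 3)
    rfl rfl rfl (fun _ => rfl) k0_pp_023_b

noncomputable def f_pp_033 : ℕ → ℕ → ℕ → ℕ → Bool := onCell 0 536870912 1610612736 536870912 50331648 16777216
    (rowNK 3 0 true true true .pnn 0 3 3 (qsf 0 536870912 1610612736 536870912 3) ndN0q0 ndN1q3 pcN3 Cut.none Ext.none)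

def k0_pp_033 : ∃ t, chk3 f_pp_033 t 1 1 1 = true :=
  ⟨(a (l 4) (l 4)), by decide +kernel⟩

theorem c_pp_033 : CertN 0 536870912 1610612736 536870912 50331648 16777216 3 true true true .pnn 0 3 3
    ndN0q0 ndN1q3 pcN3 Cut.none Ext.none :=
  certNK0 (fam := true) (s1 := true) (s2 := true) (a := 0) (b := 3) (c := 3) (cn := .pnn) (n1 := ndN0q0) (n2 := ndN1q3) (pc := pcN3) (cut := Cut.none) (xt := Ext.none) (P1 := 0) (W1 := 536870912) (P2 := 1610612736) (W2 := 536870912) (P3 := 50331648) (W3 := 16777216) (N0 := 3)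
    rfl rfl rfl k0_pp_033

noncomputable def f_pp_101 : ℕ → ℕ → ℕ → ℕ → Bool := onCell 536870912 536870912 0 536870912 50331648 16777216
    (rowNK 3 0 true true true .npn 1 0 1 (qsf 536870912 536870912 0 536870912 1) ndN0q1 ndN1q0 pcN1 Cut.none Ext.none)

def k0_pp_101 : ∃ t, chk3 f_pp_101 t 1 1 1 = true :=
  ⟨(l 5), by decide +kernel⟩

theorem c_pp_101 : CertN 536870912 536870912 0 536870912 50331648 16777216 3 true true true .npn 1 0 1
    ndN0q1 ndN1q0 pcN1 Cut.none Ext.none :=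
  certNK0 (fam := true) (s1 := true) (s2 := true) (a := 1) (b := 0) (c := 1) (cn := .npn) (n1 := ndN0q1) (n2 := ndN1q0) (pc := pcN1) (cut := Cut.none) (xt := Ext.none) (P1 := 536870912) (W1 := 536870912) (P2 := 0) (W2 := 536870912) (P3 := 50331648) (W3 := 16777216) (N0 := 3)
    rfl rfl rfl k0_pp_101

noncomputable def f_pp_102 : ℕ → ℕ → ℕ → ℕ → Bool := onCell 536870912 536870912 0 536870912 50331648 16777216
    (rowNK 3 0 true true true .npp 1 0 2 (qsf 536870912 536870912 0 536870912 2) ndN0q1 ndN1q0 pcN2 Cut.none Ext.none)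

def k0_pp_102 : ∃ t, chk3 f_pp_102 t 1 1 1 = true :=
  ⟨(l 5), by decide +kernel⟩

theorem c_pp_102 : CertN 536870912 536870912 0 536870912 50331648 16777216 3 true true true .npp 1 0 2
    ndN0q1 ndN1q0 pcN2 Cut.none Ext.none :=
  certNK0 (fam := true) (s1 := true) (s2 := true) (a := 1) (b := 0) (c := 2) (cn := .npp) (n1 := ndN0q1) (n2 := ndN1q0) (pc := pcN2) (cut := Cut.none) (xt := Ext.none) (P1 := 536870912) (W1 := 536870912) (P2 := 0) (W2 := 536870912) (P3 := 50331648) (W3 := 16777216) (N0 := 3)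
    rfl rfl rfl k0_pp_102

noncomputable def f_pp_112 : ℕ → ℕ → ℕ → ℕ → Bool := onCell 536870912 536870912 536870912 536870912 50331648 16777216
    (rowNK 3 0 true true true .dn 1 1 2 (qsf 536870912 536870912 536870912 536870912 2) ndN0q1 ndN1q1 pcN2 Cut.none Ext.none)

def k0_pp_112 : ∃ t, chk3 f_pp_112 t 1 1 1 = true :=
  ⟨(l 4), by decide +kernel⟩

theorem c_pp_112 : CertN 536870912 536870912 536870912 536870912 50331648 16777216 3 true true true .dn 1 1 2
    ndN0q1 ndN1q1 pcN2 Cut.none Ext.none :=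
  certNK0 (fam := true) (s1 := true) (s2 := true) (a := 1) (b := 1) (c := 2) (cn := .dn) (n1 := ndN0q1) (n2 := ndN1q1) (pc := pcN2) (cut := Cut.none) (xt := Ext.none) (P1 := 536870912) (W1 := 536870912) (P2 := 536870912) (W2 := 536870912) (P3 := 50331648) (W3 := 16777216) (N0 := 3)
    rfl rfl rfl k0_pp_112

noncomputable def f_pp_113 : ℕ → ℕ → ℕ → ℕ → Bool := onCell 536870912 536870912 536870912 536870912 50331648 16777216
    (rowNK 3 0 true true true .nn 1 1 3 (qsf 536870912 536870912 536870912 536870912 3) ndN0q1 ndN1q1 pcN3 Cut.none Ext.none)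

def k0_pp_113 : ∃ t, chk3 f_pp_113 t 1 1 1 = true :=
  ⟨(l 4), by decide +kernel⟩

theorem c_pp_113 : CertN 536870912 536870912 536870912 536870912 50331648 16777216 3 true true true .nn 1 1 3
    ndN0q1 ndN1q1 pcN3 Cut.none Ext.none :=
  certNK0 (fam := true) (s1 := true) (s2 := true) (a := 1) (b := 1) (c := 3) (cn := .nn) (n1 := ndN0q1) (n2 := ndN1q1) (pc := pcN3) (cut := Cut.none) (xt := Ext.none) (P1 := 536870912) (W1 := 536870912) (P2 := 536870912) (W2 := 536870912) (P3 := 50331648) (W3 := 16777216) (N0 := 3)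
    rfl rfl rfl k0_pp_113

noncomputable def f_pp_123_a : ℕ → ℕ → ℕ → ℕ → Bool := onCell 536870912 536870912 0 536870912 50331648 16777216
    (rowNK 3 0 true true true .npn 1 2 3 (qsf 536870912 536870912 0 536870912 3) ndN0q1 ndN1q2a pcN3 Cut.none Ext.none)

def k0_pp_123_a : ∃ t, chk3 f_pp_123_a t 1 1 1 = true :=
  ⟨(l 4), by decide +kernel⟩

theorem c_pp_123_a : CertN 536870912 536870912 0 536870912 50331648 16777216 3 true true true .npn 1 2 3
    ndN0q1 ndN1q2a pcN3 Cut.none Ext.none :=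
  certNK0 (fam := true) (s1 := true) (s2 := true) (a := 1) (b := 2) (c := 3) (cn := .npn) (n1 := ndN0q1) (n2 := ndN1q2a) (pc := pcN3) (cut := Cut.none) (xt := Ext.none) (P1 := 536870912) (W1 := 536870912) (P2 := 0) (W2 := 536870912) (P3 := 50331648) (W3 := 16777216) (N0 := 3)
    rfl rfl rfl k0_pp_123_a

noncomputable def f_pp_123_b : ℕ → ℕ → ℕ → ℕ → Bool := onCell 536870912 536870912 1239849684 370763052 50331648 16777216
    (rowNK 3 0 true true true .npn 1 2 3 (qsf 536870912 536870912 1239849684 370763052 3) ndN0q1 ndN1q2b pcN3 Cut.none Ext.none)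

def k0_pp_123_b : ∃ t, chk3 f_pp_123_b t 1 1 1 = true :=
  ⟨(l 4), by decide +kernel⟩

theorem c_pp_123_b : CertN 536870912 536870912 1239849684 370763052 50331648 16777216 3 true true true .npn 1 2 3
    ndN0q1 ndN1q2b pcN3 Cut.none Ext.none :=
  certNK0 (fam := true) (s1 := true) (s2 := true) (a := 1) (b := 2) (c := 3) (cn := .npn) (n1 := ndN0q1) (n2 := ndN1q2b) (pc := pcN3) (cut := Cut.none) (xt := Ext.none) (P1 := 536870912) (W1 := 536870912) (P2 := 1239849684) (W2 := 370763052) (P3 := 50331648) (W3 := 16777216) (N0 := 3)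
    rfl rfl rfl k0_pp_123_b

noncomputable def f_pp_133 : ℕ → ℕ → ℕ → ℕ → Bool := onCell 536870912 536870912 1610612736 536870912 50331648 16777216
    (rowNK 3 0 true true true .dn 1 3 3 (qsf 536870912 536870912 1610612736 536870912 3) ndN0q1 ndN1q3 pcN3 Cut.none Ext.none)

def k0_pp_133 : ∃ t, chk3 f_pp_133 t 1 1 1 = true :=
  ⟨(l 4), by decide +kernel⟩

theorem c_pp_133 : CertN 536870912 536870912 1610612736 536870912 50331648 16777216 3 true true true .dn 1 3 3
    ndN0q1 ndN1q3 pcN3 Cut.none Ext.none :=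
  certNK0 (fam := true) (s1 := true) (s2 := true) (a := 1) (b := 3) (c := 3) (cn := .dn) (n1 := ndN0q1) (n2 := ndN1q3) (pc := pcN3) (cut := Cut.none) (xt := Ext.none) (P1 := 536870912) (W1 := 536870912) (P2 := 1610612736) (W2 := 536870912) (P3 := 50331648) (W3 := 16777216) (N0 := 3)
    rfl rfl rfl k0_pp_133

noncomputable def f_pp_202 : ℕ → ℕ → ℕ → ℕ → Bool := onCell 0 536870912 0 536870912 50331648 16777216
    (rowNK 3 0 true true true .pp 2 0 2 (qsf 0 536870912 0 536870912 2) ndN0q2 ndN1q0 pcN2 Cut.none Ext.none)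

def k0_pp_202 : ∃ t, chk3 f_pp_202 t 1 1 1 = true :=
  ⟨(l 5), by decide +kernel⟩

theorem c_pp_202 : CertN 0 536870912 0 536870912 50331648 16777216 3 true true true .pp 2 0 2
    ndN0q2 ndN1q0 pcN2 Cut.none Ext.none :=
  certNK0 (fam := true) (s1 := true) (s2 := true) (a := 2) (b := 0) (c := 2) (cn := .pp) (n1 := ndN0q2) (n2 := ndN1q0) (pc := pcN2) (cut := Cut.none) (xt := Ext.none) (P1 := 0) (W1 := 536870912) (P2 := 0) (W2 := 536870912) (P3 := 50331648) (W3 := 16777216) (N0 := 3)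
    rfl rfl rfl k0_pp_202

noncomputable def f_pp_203 : ℕ → ℕ → ℕ → ℕ → Bool := onCell 0 536870912 0 536870912 50331648 16777216
    (rowNK 3 0 true true true .up 2 0 3 (qsf 0 536870912 0 536870912 3) ndN0q2 ndN1q0 pcN3 Cut.none Ext.none)

def k0_pp_203 : ∃ t, chk3 f_pp_203 t 1 1 1 = true :=
  ⟨(l 5), by decide +kernel⟩

theorem c_pp_203 : CertN 0 536870912 0 536870912 50331648 16777216 3 true true true .up 2 0 3
    ndN0q2 ndN1q0 pcN3 Cut.none Ext.none :=
  certNK0 (fam := true) (s1 := true) (s2 := true) (a := 2) (b := 0) (c := 3) (cn := .up) (n1 := ndN0q2) (n2 := ndN1q0) (pc := pcN3) (cut := Cut.none) (xt := Ext.none) (P1 := 0) (W1 := 536870912) (P2 := 0) (W2 := 536870912) (P3 := 50331648) (W3 := 16777216) (N0 := 3)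
    rfl rfl rfl k0_pp_203

noncomputable def f_pp_213 : ℕ → ℕ → ℕ → ℕ → Bool := onCell 0 536870912 536870912 536870912 50331648 16777216
    (rowNK 3 0 true true true .pnn 2 1 3 (qsf 0 536870912 536870912 536870912 3) ndN0q2 ndN1q1 pcN3 Cut.none Ext.none)

def k0_pp_213 : ∃ t, chk3 f_pp_213 t 1 1 1 = true :=
  ⟨(l 4), by decide +kernel⟩

theorem c_pp_213 : CertN 0 536870912 536870912 536870912 50331648 16777216 3 true true true .pnn 2 1 3
    ndN0q2 ndN1q1 pcN3 Cut.none Ext.none :=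
  certNK0 (fam := true) (s1 := true) (s2 := true) (a := 2) (b := 1) (c := 3) (cn := .pnn) (n1 := ndN0q2) (n2 := ndN1q1) (pc := pcN3) (cut := Cut.none) (xt := Ext.none) (P1 := 0) (W1 := 536870912) (P2 := 536870912) (W2 := 536870912) (P3 := 50331648) (W3 := 16777216) (N0 := 3)
    rfl rfl rfl k0_pp_213

noncomputable def f_pm_001 : ℕ → ℕ → ℕ → ℕ → Bool := onCell 0 536870912 0 536870912 50331648 16777216
    (rowNK 3 0 true true false .up 0 0 1 (qsf 0 536870912 0 536870912 1) ndN0q0 ndN1q0 pcN1 Cut.none Ext.none)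

def k0_pm_001 : ∃ t, chk3 f_pm_001 t 1 1 1 = true :=
  ⟨(l 3), by decide +kernel⟩

theorem c_pm_001 : CertN 0 536870912 0 536870912 50331648 16777216 3 true true false .up 0 0 1
    ndN0q0 ndN1q0 pcN1 Cut.none Ext.none :=
  certNK0 (fam := true) (s1 := true) (s2 := false) (a := 0) (b := 0) (c := 1) (cn := .up) (n1 := ndN0q0) (n2 := ndN1q0) (pc := pcN1) (cut := Cut.none) (xt := Ext.none) (P1 := 0) (W1 := 536870912) (P2 := 0) (W2 := 536870912) (P3 := 50331648) (W3 := 16777216) (N0 := 3)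
    rfl rfl rfl k0_pm_001

noncomputable def f_pm_011 : ℕ → ℕ → ℕ → ℕ → Bool := onCell 0 536870912 536870912 536870912 50331648 16777216
    (rowNK 3 1 true true false .pnn 0 1 1 (qsf 0 536870912 536870912 536870912 1) ndN0q0 ndN1q1 pcN1 Cut.none Ext.none)

def k0_pm_011 : ∃ t, chk3 f_pm_011 t 1 1 1 = true :=
  ⟨(l 3), by decide +kernel⟩

theorem c_pm_011 : CertN 0 536870912 536870912 536870912 50331648 16777216 3 true true false .pnn 0 1 1
    ndN0q0 ndN1q1 pcN1 Cut.none Ext.none :=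
  certNK1 (fam := true) (s1 := true) (s2 := false) (a := 0) (b := 1) (c := 1) (cn := .pnn) (n1 := ndN0q0) (n2 := ndN1q1) (pc := pcN1) (cut := Cut.none) (xt := Ext.none) (P1 := 0) (W1 := 536870912) (P2 := 536870912) (W2 := 536870912) (P3 := 50331648) (W3 := 16777216) (N0 := 3)
    rfl rfl rfl (fun _ => rfl) k0_pm_011

noncomputable def f_pm_012 : ℕ → ℕ → ℕ → ℕ → Bool := onCell 1073741824 536870912 536870912 536870912 50331648 16777216
    (rowNK 3 2 true true false .pnp 0 1 2 (qsf 0 536870912 536870912 536870912 2) ndN0q0 ndN1q1 pcN2 Cut.none Ext.none)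

def k0_pm_012 : ∃ t, chk3 f_pm_012 t 1 1 1 = true :=
  ⟨(a (a (a (l 3) (b (b (l 129019496247) (l 134388088039)) (b (a (l 3) (l 17994160)) (l 3)))) (b (a (b (a (a (l 17901504) (l 2)) (l 2)) (a (a (l 17955240) (a (l 17984312) (l 18095160))) (l 18024432))) (b (l 2) (l 18034552))) (b (a (a (a (l 18101488) (a (l 18141016) (l 18313736))) (l 18229672)) (l 18333136)) (a (a (a (b (l 18393384) (l 3)) (b (a (l 18445360) (l 18477592)) (a (l 18762432) (a (l 18795864) (l 18817520))))) (b (l 18553064) (l 18898952))) (b (l 18673360) (l 19030480)))))) (b (a (b (l 2) (a (l 17891216) (l 2))) (l 2)) (a (b (a (l 18363344) (l 18264776)) (b (l 18736656) (l 19062696))) (b (a (l 18001056) (l 2)) (b (l 18474504) (l 18870544)))))), by decide +kernel⟩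

theorem c_pm_012 : CertN 0 536870912 536870912 536870912 50331648 16777216 3 true true false .pnp 0 1 2
    ndN0q0 ndN1q1 pcN2 Cut.none Ext.none :=
  certNK2 (fam := true) (s1 := true) (s2 := false) (a := 0) (b := 1) (c := 2) (cn := .pnp) (n1 := ndN0q0) (n2 := ndN1q1) (pc := pcN2) (cut := Cut.none) (xt := Ext.none) (P1 := 0) (W1 := 536870912) (P2 := 536870912) (W2 := 536870912) (P3 := 50331648) (W3 := 16777216) (N0 := 3)
    rfl rfl rfl (fun _ => rfl) k0_pm_012

noncomputable def cut_pm_022_a : Cut := Cut.of [[⟨0, 0, 0, 50331648⟩, ⟨1, 1, 0, 50331648⟩, ⟨2, 1, 0, 50331648⟩], [⟨0, 0, 1, 33554432⟩, ⟨1, 1, 0, 16777216⟩, ⟨2, 1, 1, 33554432⟩, ⟨0, 0, 0, 83886080⟩, ⟨0, 1, 0, 1040187392⟩, ⟨2, 1, 0, 83886080⟩, ⟨2, 2, 0, 1040187392⟩]]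

noncomputable def f_pm_022_a : ℕ → ℕ → ℕ → ℕ → Bool := onCell 1073741824 536870912 0 536870912 50331648 16777216
    (rowNK 3 2 true true false .pp 0 2 2 (qsf 0 536870912 0 536870912 2) ndN0q0 ndN1q2a pcN2 cut_pm_022_a Ext.none)

def k0_pm_022_a : ∃ t, chk3 f_pm_022_a t 8 1 1 = true :=
  ⟨(b (l 1) (b (l 1) (b (a (l 1) (a (b (l 1) (b (l 1) (b (a (l 1) (a (l 16727072) (b (a (l 16724384) (l 16722800)) (a (l 6) (l 16721664))))) (a (l 6) (a (l 6) (l 16721456)))))) (b (a (l 1) (b (l 1) (a (b (l 1) (l 16717792)) (b (b (l 17080360) (l 16883200)) (l 16930224))))) (a (b (a (b (l 1) (b (l 16723448) (l 16722208))) (b (b (l 16723456) (l 16722056)) (l 16719912))) (a (b (l 16720304) (l 16717656)) (b (l 16716952) (l 16713872)))) (b (a (l 16722264) (l 16813456)) (b (l 16725840) (l 16721792))))))) (a (l 6) (a (a (l 6) (a (l 6) (b (b (b (l 16724352) (l 16721872)) (b (l 16719248) (l 16718416))) (b (b (l 16727104) (b (l 16746784) (l 16742888))) (l 14))))) (b (a (b (a (b (l 16714880)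 (l 16711960)) (b (l 16710648) (l 16707288))) (b (a (l 16729856) (l 16724728)) (a (l 16726600) (b (l 16721960) (l 16722672))))) (b (b (a (l 16804984) (l 16980872)) (a (l 16799120) (l 16966888))) (b (a (l 16795792) (l 16934064)) (a (l 16795184) (l 16882520))))) (b (b (a (a (l 16724448) (l 16732872)) (a (l 16776448) (l 16833360))) (l 14)) (l 14)))))))), by decide +kernel⟩

def k1_pm_022_a : ∃ t, chk3 f_pm_022_a t 9 1 1 = true :=
  ⟨(b (b (l 1) (a (l 1) (l 18742504))) (b (b (a (l 1) (l 146603402135)) (a (a (b (l 1) (a (l 1) (b (l 17808408) (a (l 17708592) (l 17835072))))) (b (l 91840917799) (a (b (l 18045168) (l 17982800)) (l 18159552)))) (a (l 18357352) (l 18453480)))) (a (b (a (b (a (b (b (a (l 1) (l 17531168)) (a (l 17128248) (l 17505312))) (a (b (l 17230944) (l 17287104)) (l 17458168))) (b (l 17672792) (l 17604296))) (a (b (a (l 17079400) (l 17377024)) (a (l 17009464) (l 17299616))) (b (l 17516712) (l 17410880)))) (b (a (l 17872312) (l 18011768)) (b (l 17669704)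 (l 17533304)))) (a (b (a (a (b (l 16903288) (b (l 17085048) (l 17026736))) (b (l 17185000) (l 16992128))) (b (l 17266576) (a (l 17288224) (l 17443856)))) (b (b (a (a (l 16949440) (l 17150608)) (l 17234400)) (a (l 14) (l 17105200))) (a (l 14) (a (l 14) (b (l 17352344) (l 17140272)))))) (b (a (b (l 17624016) (l 17557504)) (l 17714328)) (b (a (l 17452224) (l 17607904)) (a (b (l 17449224) (a (l 17392904) (l 17447416))) (l 17539656)))))) (b (a (b (l 18152888) (l 18006824)) (l 18204400)) (b (a (l 17858136) (l 18002168)) (b (l 17784744) (a (l 17675272) (l 17827432)))))))), by decide +kernel⟩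

def k2_pm_022_a : ∃ t, chk3 f_pm_022_a t 5 1 1 = true :=
  ⟨(b (a (b (l 18876160) (l 18809024)) (l 18731376)) (a (b (a (l 18604160) (l 18632856)) (b (a (l 18329400) (l 18445616)) (b (l 18250888) (a (a (l 17988416) (a (l 18072096) (a (l 18111072) (l 18134160)))) (l 18240536))))) (b (l 18668568) (b (l 18574784) (l 18485304))))), by decide +kernel⟩

def k3_pm_022_a : ∃ t, chk3 f_pm_022_a t 3 1 1 = true :=
  ⟨(b (a (l 18677592) (l 18571408)) (b (a (l 18724400) (l 18656928)) (a (b (l 18727856) (l 18949368)) (b (l 18703928) (l 18734904))))), by decide +kernel⟩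

theorem s4_pm_022_a : ∃ t, chk3 f_pm_022_a t 4 1 1 = true := ex3_a k0_pm_022_a k1_pm_022_a

theorem s5_pm_022_a : ∃ t, chk3 f_pm_022_a t 2 1 1 = true := ex3_a s4_pm_022_a k2_pm_022_a

theorem s6_pm_022_a : ∃ t, chk3 f_pm_022_a t 1 1 1 = true := ex3_a s5_pm_022_a k3_pm_022_a

theorem c_pm_022_a : CertN 0 536870912 0 536870912 50331648 16777216 3 true true false .pp 0 2 2
    ndN0q0 ndN1q2a pcN2 cut_pm_022_a Ext.none :=
  certNK2 (fam := true) (s1 := true) (s2 := false) (a := 0) (b := 2) (c := 2) (cn := .pp) (n1 := ndN0q0) (n2 := ndN1q2a) (pc := pcN2) (cut := cut_pm_022_a) (xt := Ext.none) (P1 := 0) (W1 := 536870912) (P2 := 0) (W2 := 536870912) (P3 := 50331648) (W3 := 16777216) (N0 := 3)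
    rfl rfl rfl (fun _ => rfl) s6_pm_022_a

noncomputable def cut_pm_022_b : Cut := Cut.of [[⟨0, 0, 0, 50331648⟩, ⟨1, 1, 0, 50331648⟩, ⟨2, 1, 0, 50331648⟩], [⟨0, 0, 1, 33554432⟩, ⟨1, 1, 0, 16777216⟩, ⟨2, 1, 1, 33554432⟩, ⟨0, 0, 0, 83886080⟩, ⟨0, 1, 0, 1040187392⟩, ⟨2, 1, 0, 83886080⟩, ⟨2, 2, 0, 1040187392⟩]]

noncomputable def f_pm_022_b : ℕ → ℕ → ℕ → ℕ → Bool := onCell 0 536870912 1239849684 370763052 50331648 16777216
    (rowNK 3 0 true true false .pp 0 2 2 (qsf 0 536870912 1239849684 370763052 2) ndN0q0 ndN1q2b pcN2 cut_pm_022_b Ext.none)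

def k0_pm_022_b : ∃ t, chk3 f_pm_022_b t 1 1 1 = true :=
  ⟨(a (b (a (b (a (l 18928488) (l 18658992)) (l 18534808)) (b (l 18565160) (l 18398696))) (a (b (l 18356152) (l 18309584)) (b (l 18265104) (l 2)))) (b (a (b (l 18359832) (l 18191376)) (l 2)) (l 2))), by decide +kernel⟩

theorem c_pm_022_b : CertN 0 536870912 1239849684 370763052 50331648 16777216 3 true true false .pp 0 2 2
    ndN0q0 ndN1q2b pcN2 cut_pm_022_b Ext.none :=
  certNK0 (fam := true) (s1 := true) (s2 := false) (a := 0) (b := 2) (c := 2) (cn := .pp) (n1 := ndN0q0) (n2 := ndN1q2b) (pc := pcN2) (cut := cut_pm_022_b) (xt := Ext.none) (P1 := 0) (W1 := 536870912) (P2 := 1239849684) (W2 := 370763052) (P3 := 50331648) (W3 := 16777216) (N0 := 3)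
    rfl rfl rfl k0_pm_022_b

noncomputable def f_pm_023_a : ℕ → ℕ → ℕ → ℕ → Bool := onCell 1610612736 536870912 0 536870912 50331648 16777216
    (rowNK 3 2 true true false .up 0 2 3 (qsf 0 536870912 0 536870912 3) ndN0q0 ndN1q2a pcN3 Cut.none Ext.none)

def k0_pm_023_a : ∃ t, chk3 f_pm_023_a t 1 1 1 = true :=
  ⟨(a (b (a (b (l 19549144) (l 19050608)) (a (l 19100680) (l 2))) (a (b (l 18743120) (a (b (l 18412136) (l 18102528)) (l 110699706919))) (b (l 2) (l 2)))) (l 2)), by decide +kernel⟩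

theorem c_pm_023_a : CertN 0 536870912 0 536870912 50331648 16777216 3 true true false .up 0 2 3
    ndN0q0 ndN1q2a pcN3 Cut.none Ext.none :=
  certNK2 (fam := true) (s1 := true) (s2 := false) (a := 0) (b := 2) (c := 3) (cn := .up) (n1 := ndN0q0) (n2 := ndN1q2a) (pc := pcN3) (cut := Cut.none) (xt := Ext.none) (P1 := 0) (W1 := 536870912) (P2 := 0) (W2 := 536870912) (P3 := 50331648) (W3 := 16777216) (N0 := 3)
    rfl rfl rfl (fun _ => rfl) k0_pm_023_a

noncomputable def f_pm_023_b : ℕ → ℕ → ℕ → ℕ → Bool := onCell 1610612736 536870912 1239849684 370763052 50331648 16777216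
    (rowNK 3 2 true true false .up 0 2 3 (qsf 0 536870912 1239849684 370763052 3) ndN0q0 ndN1q2b pcN3 Cut.none Ext.none)

def k0_pm_023_b : ∃ t, chk3 f_pm_023_b t 1 1 1 = true :=
  ⟨(b (a (a (b (a (l 19727112) (l 19393864)) (a (l 19697776) (l 19132344))) (a (b (l 18812160) (l 18513920)) (b (l 18278552) (l 18052288)))) (a (a (l 351216791399) (b (l 2) (l 17400792))) (l 2))) (a (a (a (l 19260712) (l 18661648)) (a (l 18049896) (l 17934256))) (a (a (l 17792224) (l 17749360)) (a (l 266927314471) (l 4))))), by decide +kernel⟩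

theorem c_pm_023_b : CertN 0 536870912 1239849684 370763052 50331648 16777216 3 true true false .up 0 2 3
    ndN0q0 ndN1q2b pcN3 Cut.none Ext.none :=
  certNK2 (fam := true) (s1 := true) (s2 := false) (a := 0) (b := 2) (c := 3) (cn := .up) (n1 := ndN0q0) (n2 := ndN1q2b) (pc := pcN3) (cut := Cut.none) (xt := Ext.none) (P1 := 0) (W1 := 536870912) (P2 := 1239849684) (W2 := 370763052) (P3 := 50331648) (W3 := 16777216) (N0 := 3)
    rfl rfl rfl (fun _ => rfl) k0_pm_023_b

noncomputable def f_pm_033 : ℕ → ℕ → ℕ → ℕ → Bool := onCell 1610612736 536870912 1610612736 536870912 50331648 16777216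
    (rowNK 3 2 true true false .pnn 0 3 3 (qsf 0 536870912 1610612736 536870912 3) ndN0q0 ndN1q3 pcN3 Cut.none Ext.none)

def k0_pm_033 : ∃ t, chk3 f_pm_033 t 1 1 1 = true :=
  ⟨(a (a (b (b (l 18772808) (l 262029782087)) (l 1)) (b (a (b (l 17686632) (l 17749536)) (l 18203088)) (a (l 1) (b (l 18579816) (l 1))))) (a (b (a (b (l 17864664) (l 18186400)) (b (l 17694368) (l 4))) (a (b (l 18480552) (l 1)) (l 4))) (l 4))), by decide +kernel⟩

theorem c_pm_033 : CertN 0 536870912 1610612736 536870912 50331648 16777216 3 true true false .pnn 0 3 3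
    ndN0q0 ndN1q3 pcN3 Cut.none Ext.none :=
  certNK2 (fam := true) (s1 := true) (s2 := false) (a := 0) (b := 3) (c := 3) (cn := .pnn) (n1 := ndN0q0) (n2 := ndN1q3) (pc := pcN3) (cut := Cut.none) (xt := Ext.none) (P1 := 0) (W1 := 536870912) (P2 := 1610612736) (W2 := 536870912) (P3 := 50331648) (W3 := 16777216) (N0 := 3)
    rfl rfl rfl (fun _ => rfl) k0_pm_033

noncomputable def cut_pm_101 : Cut := Cut.of [[⟨0, 1, 0, 50331648⟩, ⟨1, 0, 0, 50331648⟩, ⟨2, 1, 0, 50331648⟩]]

noncomputable def f_pm_101 : ℕ → ℕ → ℕ → ℕ → Bool := onCell 536870912 536870912 0 536870912 50331648 16777216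
    (rowNK 3 2 true true false .npn 1 0 1 (qsf 536870912 536870912 0 536870912 1) ndN0q1 ndN1q0 pcN1 cut_pm_101 Ext.none)

def k0_pm_101 : ∃ t, chk3 f_pm_101 t 1 1 1 = true :=
  ⟨(a (l 3) (b (a (l 3) (b (a (l 3) (b (a (l 3) (b (a (l 3) (b (l 6) (l 3))) (l 3))) (l 3))) (l 3))) (l 3))), by decide +kernel⟩

theorem c_pm_101 : CertN 536870912 536870912 0 536870912 50331648 16777216 3 true true false .npn 1 0 1
    ndN0q1 ndN1q0 pcN1 cut_pm_101 Ext.none :=
  certNK2 (fam := true) (s1 := true) (s2 := false) (a := 1) (b := 0) (c := 1) (cn := .npn) (n1 := ndN0q1) (n2 := ndN1q0) (pc := pcN1) (cut := cut_pm_101) (xt := Ext.none) (P1 := 536870912) (W1 := 536870912) (P2 := 0) (W2 := 536870912) (P3 := 50331648) (W3 := 16777216) (N0 := 3)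
    rfl rfl rfl (fun _ => rfl) k0_pm_101

noncomputable def cut_pm_102 : Cut := Cut.of [[⟨0, 1, 0, 50331648⟩, ⟨1, 0, 0, 50331648⟩, ⟨2, 1, 0, 50331648⟩]]

noncomputable def f_pm_102 : ℕ → ℕ → ℕ → ℕ → Bool := onCell 536870912 536870912 1073741824 536870912 50331648 16777216
    (rowNK 3 1 true true false .npp 1 0 2 (qsf 536870912 536870912 0 536870912 2) ndN0q1 ndN1q0 pcN2 cut_pm_102 Ext.none)

def k0_pm_102 : ∃ t, chk3 f_pm_102 t 1 1 1 = true :=
  ⟨(a (b (b (a (b (l 3) (l 136536300167)) (b (l 140294083575) (b (l 18185944) (l 18216120)))) (b (b (b (a (l 18221344) (l 18244016)) (a (l 2) (l 18136936))) (l 14599424423)) (a (l 2) (l 17985192)))) (a (l 2) (b (l 17741168) (l 2)))) (b (a (b (b (b (a (l 3) (l 146198802327)) (b (l 17859328) (l 18017760))) (b (b (l 17973896) (l 17995744)) (l 18263480))) (b (b (l 18045344) (l 17800808)) (l 17700136))) (b (b (b (b (a (b (l 3) (l 148345653815)) (a (b (l 152103032935) (l 17094000)) (a (b (l 6) (l 16970456)) (l 6)))) (b (a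 (l 17365688) (a (l 17137464) (a (l 17010120) (l 6)))) (a (l 17530360) (a (l 17215832) (a (a (l 17064216) (l 17033096)) (l 17044064)))))) (a (b (l 17710096) (l 17529312)) (b (a (l 17364776) (a (l 17135928) (l 17138216))) (a (l 17293760) (l 17199672))))) (a (b (l 17736728) (l 17581360)) (b (a (l 17368040) (l 17415520)) (l 17483576)))) (b (a (b (l 17724736) (l 17516032)) (l 17666576)) (l 17720656)))) (a (b (b (l 17662232) (l 17756784)) (b (l 17817792) (l 2))) (b (l 18048792) (l 17846376))))), by decide +kernel⟩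

theorem c_pm_102 : CertN 536870912 536870912 0 536870912 50331648 16777216 3 true true false .npp 1 0 2
    ndN0q1 ndN1q0 pcN2 cut_pm_102 Ext.none :=
  certNK1 (fam := true) (s1 := true) (s2 := false) (a := 1) (b := 0) (c := 2) (cn := .npp) (n1 := ndN0q1) (n2 := ndN1q0) (pc := pcN2) (cut := cut_pm_102) (xt := Ext.none) (P1 := 536870912) (W1 := 536870912) (P2 := 0) (W2 := 536870912) (P3 := 50331648) (W3 := 16777216) (N0 := 3)
    rfl rfl rfl (fun _ => rfl) k0_pm_102

noncomputable def f_pm_112 : ℕ → ℕ → ℕ → ℕ → Bool := onCell 536870912 536870912 1073741824 536870912 50331648 16777216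
    (rowNK 3 1 true true false .dn 1 1 2 (qsf 536870912 536870912 536870912 536870912 2) ndN0q1 ndN1q1 pcN2 Cut.none Ext.none)

def k0_pm_112 : ∃ t, chk3 f_pm_112 t 1 1 1 = true :=
  ⟨(a (b (b (b (a (l 3) (l 1)) (a (l 17921472) (b (l 1) (l 18016544)))) (b (b (b (a (l 17954640) (l 18004640)) (a (b (l 17964464) (l 17939136)) (l 17875728))) (l 18048160)) (a (l 17964680) (l 17687872)))) (a (b (l 18082224) (l 18487000)) (b (l 17506984) (a (l 17580992) (l 17647552))))) (b (b (l 1) (b (l 1) (a (l 17544936) (l 1)))) (b (a (l 17727896) (l 17899096)) (a (b (l 17885080) (l 17893032)) (l 18027440))))), by decide +kernel⟩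

theorem c_pm_112 : CertN 536870912 536870912 536870912 536870912 50331648 16777216 3 true true false .dn 1 1 2
    ndN0q1 ndN1q1 pcN2 Cut.none Ext.none :=
  certNK1 (fam := true) (s1 := true) (s2 := false) (a := 1) (b := 1) (c := 2) (cn := .dn) (n1 := ndN0q1) (n2 := ndN1q1) (pc := pcN2) (cut := Cut.none) (xt := Ext.none) (P1 := 536870912) (W1 := 536870912) (P2 := 536870912) (W2 := 536870912) (P3 := 50331648) (W3 := 16777216) (N0 := 3)
    rfl rfl rfl (fun _ => rfl) k0_pm_112

noncomputable def f_pm_113 : ℕ → ℕ → ℕ → ℕ → Bool := onCell 536870912 536870912 1610612736 536870912 50331648 16777216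
    (rowNK 3 1 true true false .nn 1 1 3 (qsf 536870912 536870912 536870912 536870912 3) ndN0q1 ndN1q1 pcN3 Cut.none Ext.none)

def k0_pm_113 : ∃ t, chk3 f_pm_113 t 1 1 1 = true :=
  ⟨(b (a (b (a (l 18659664) (b (l 17826696) (l 17635640))) (a (b (a (l 2) (l 18345272)) (l 2)) (b (a (l 17784904) (l 17534856)) (a (l 17832424) (l 17667976))))) (b (a (b (l 18015736) (l 18256104)) (b (l 19615272) (l 19350504))) (a (b (l 18363232) (l 18255016)) (b (l 18907088) (l 18276968))))) (b (a (a (l 2) (b (a (l 2) (l 17534880)) (l 2))) (b (a (a (l 17898360) (l 17991888)) (b (l 17742864) (l 17405736))) (a (a (l 17489304) (l 17387280)) (a (l 17103984) (l 17102224))))) (a (l 2) (a (b (a (l 2) (b (l 17168360) (l 2))) (l 2)) (b (l 17121056) (b (l 17293904) (l 4))))))), by decide +kernel⟩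

theorem c_pm_113 : CertN 536870912 536870912 536870912 536870912 50331648 16777216 3 true true false .nn 1 1 3
    ndN0q1 ndN1q1 pcN3 Cut.none Ext.none :=
  certNK1 (fam := true) (s1 := true) (s2 := false) (a := 1) (b := 1) (c := 3) (cn := .nn) (n1 := ndN0q1) (n2 := ndN1q1) (pc := pcN3) (cut := Cut.none) (xt := Ext.none) (P1 := 536870912) (W1 := 536870912) (P2 := 536870912) (W2 := 536870912) (P3 := 50331648) (W3 := 16777216) (N0 := 3)
    rfl rfl rfl (fun _ => rfl) k0_pm_113

noncomputable def cut_pm_123_a : Cut := Cut.of [[⟨0, 1, 0, 14341072⟩, ⟨1, 1, 0, 14341072⟩, ⟨2, 2, 0, 761489⟩]]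

noncomputable def f_pm_123_a : ℕ → ℕ → ℕ → ℕ → Bool := onCell 1610612736 536870912 0 536870912 50331648 16777216
    (rowNK 3 2 true true false .npn 1 2 3 (qsf 536870912 536870912 0 536870912 3) ndN0q1 ndN1q2a pcN3 cut_pm_123_a Ext.none)

def k0_pm_123_a : ∃ t, chk3 f_pm_123_a t 1 2 1 = true :=
  ⟨(a (a (b (l 1) (l 19057280)) (a (l 19142896) (l 18839312))) (a (a (b (l 18013912) (l 18239064)) (a (l 17855008) (l 17468704))) (a (b (l 9899714455) (l 17436696)) (a (l 85598090551) (a (l 16993304) (l 4)))))), by decide +kernel⟩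

def k1_pm_123_a : ∃ t, chk3 f_pm_123_a t 2 3 1 = true :=
  ⟨(a (b (l 18915224) (b (l 18442944) (a (l 18102800) (l 18218832)))) (b (l 18903536) (b (l 18509952) (a (l 18332080) (l 18397752))))), by decide +kernel⟩

def k2_pm_123_a : ∃ t, chk3 f_pm_123_a t 6 3 1 = true :=
  ⟨(b (a (l 18325744) (a (l 18023824) (l 17761160))) (a (b (l 18357576) (l 18367960)) (b (l 18066008) (b (l 18170392) (l 18447776))))), by decide +kernel⟩

def k3_pm_123_a : ∃ t, chk3 f_pm_123_a t 7 3 1 = true :=
  ⟨(a (a (b (l 17682552) (b (l 17728856) (b (l 17888960) (l 18069592)))) (b (b (l 17173488) (a (l 17329344) (l 17194408))) (b (l 17541680) (b (l 17620120) (b (l 17729168) (a (l 17876440) (l 17731808))))))) (a (b (a (b (l 17013016) (l 17069288)) (l 16937120)) (b (a (l 17246344) (l 17258752)) (b (b (l 17373024) (l 17463168)) (b (l 17622392) (b (l 17704056) (a (l 17587336) (a (l 17446008) (l 17340288)))))))) (b (a (l 16853648) (a (l 16824824) (a (l 16809456) (l 4)))) (a (b (b (l 16942544)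 (l 17081208)) (b (b (l 17024312) (l 17106072)) (b (l 17210304) (b (l 17239840) (a (l 17289144) (a (l 17138288) (b (l 17070768) (l 17085064)))))))) (a (b (l 17112328) (b (b (l 16865536) (l 16939136)) (b (b (l 16925376) (l 16949616)) (b (l 16996088) (b (l 17037016) (a (l 17060912) (b (l 16950832) (a (l 16973640) (l 16938736))))))))) (a (b (l 16811648) (b (l 16931312) (b (l 16876784) (b (l 16881216) (b (l 16895336) (a (b (l 16899224) (l 16924072)) (b (l 16864200) (b (l 16867536) (a (l 16878416) (l 16860112)))))))))) (b (a (l 16789872) (b (l 4) (l 4))) (a (b (l 16839128) (b (l 16866168) (b (l 16835160) (b (l 16823840) (b (l 16828832) (b (l 16852336) (a (l 16862552) (b (l 16823448) (a (l 16828640) (l 16819256)))))))))) (b (a (l 16798320) (a (l 16789560) (l 16848752))) (a (b (l 16815224) (b (l 16793424) (b (l 16799056) (b (l 16802376) (b (l 16804064) (b (l 16815400) (a (l 16820296) (b (l 16800664) (a (l 16803152) (l 16798408)))))))))) (b (a (l 16802616) (l 16850552))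 (a (b (l 16806304) (b (l 16787232) (b (l 16789360) (b (l 16790440) (b (l 16790992) (b (l 16796512) (a (l 16798872) (b (l 16789040) (a (l 16790248) (l 6)))))))))) (l 6))))))))))))), by decide +kernel⟩

theorem s4_pm_123_a : ∃ t, chk3 f_pm_123_a t 3 3 1 = true := ex3_a k2_pm_123_a k3_pm_123_a

theorem s5_pm_123_a : ∃ t, chk3 f_pm_123_a t 1 3 1 = true := ex3_a k1_pm_123_a s4_pm_123_a

theorem s6_pm_123_a : ∃ t, chk3 f_pm_123_a t 1 1 1 = true := ex3_b k0_pm_123_a s5_pm_123_a

theorem c_pm_123_a : CertN 536870912 536870912 0 536870912 50331648 16777216 3 true true false .npn 1 2 3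
    ndN0q1 ndN1q2a pcN3 cut_pm_123_a Ext.none :=
  certNK2 (fam := true) (s1 := true) (s2 := false) (a := 1) (b := 2) (c := 3) (cn := .npn) (n1 := ndN0q1) (n2 := ndN1q2a) (pc := pcN3) (cut := cut_pm_123_a) (xt := Ext.none) (P1 := 536870912) (W1 := 536870912) (P2 := 0) (W2 := 536870912) (P3 := 50331648) (W3 := 16777216) (N0 := 3)
    rfl rfl rfl (fun _ => rfl) s6_pm_123_a

noncomputable def cut_pm_123_b : Cut := Cut.of [[⟨0, 1, 0, 14341072⟩, ⟨1, 1, 0, 14341072⟩, ⟨2, 2, 0, 761489⟩]]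

noncomputable def f_pm_123_b : ℕ → ℕ → ℕ → ℕ → Bool := onCell 1610612736 536870912 1239849684 370763052 50331648 16777216
    (rowNK 3 2 true true false .npn 1 2 3 (qsf 536870912 536870912 1239849684 370763052 3) ndN0q1 ndN1q2b pcN3 cut_pm_123_b Ext.none)

def k0_pm_123_b : ∃ t, chk3 f_pm_123_b t 1 1 1 = true :=
  ⟨(a (b (a (l 1) (a (b (l 18813984) (l 1)) (b (l 18278968) (l 18057584)))) (l 1)) (a (b (a (b (l 17808656) (l 17720464)) (b (l 17567904) (l 17400712))) (a (l 1) (b (l 17518872) (l 1)))) (a (b (b (a (l 17110448) (l 17109312)) (l 9900081271)) (b (l 17356584) (l 4))) (b (b (l 4) (l 4)) (l 4))))), by decide +kernel⟩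

theorem c_pm_123_b : CertN 536870912 536870912 1239849684 370763052 50331648 16777216 3 true true false .npn 1 2 3
    ndN0q1 ndN1q2b pcN3 cut_pm_123_b Ext.none :=
  certNK2 (fam := true) (s1 := true) (s2 := false) (a := 1) (b := 2) (c := 3) (cn := .npn) (n1 := ndN0q1) (n2 := ndN1q2b) (pc := pcN3) (cut := cut_pm_123_b) (xt := Ext.none) (P1 := 536870912) (W1 := 536870912) (P2 := 1239849684) (W2 := 370763052) (P3 := 50331648) (W3 := 16777216) (N0 := 3)
    rfl rfl rfl (fun _ => rfl) k0_pm_123_b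

noncomputable def f_pm_133 : ℕ → ℕ → ℕ → ℕ → Bool := onCell 536870912 536870912 1610612736 536870912 50331648 16777216
    (rowNK 3 0 true true false .dn 1 3 3 (qsf 536870912 536870912 1610612736 536870912 3) ndN0q1 ndN1q3 pcN3 Cut.none Ext.none)

def k0_pm_133 : ∃ t, chk3 f_pm_133 t 1 1 1 = true :=
  ⟨(l 4), by decide +kernel⟩

theorem c_pm_133 : CertN 536870912 536870912 1610612736 536870912 50331648 16777216 3 true true false .dn 1 3 3
    ndN0q1 ndN1q3 pcN3 Cut.none Ext.none :=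
  certNK0 (fam := true) (s1 := true) (s2 := false) (a := 1) (b := 3) (c := 3) (cn := .dn) (n1 := ndN0q1) (n2 := ndN1q3) (pc := pcN3) (cut := Cut.none) (xt := Ext.none) (P1 := 536870912) (W1 := 536870912) (P2 := 1610612736) (W2 := 536870912) (P3 := 50331648) (W3 := 16777216) (N0 := 3)
    rfl rfl rfl k0_pm_133

noncomputable def cut_pm_202 : Cut := Cut.of [[⟨0, 1, 0, 50331648⟩, ⟨1, 0, 0, 50331648⟩, ⟨2, 1, 0, 50331648⟩]]

noncomputable def f_pm_202 : ℕ → ℕ → ℕ → ℕ → Bool := onCell 0 536870912 0 536870912 50331648 16777216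
    (rowNK 3 0 true true false .pp 2 0 2 (qsf 0 536870912 0 536870912 2) ndN0q2 ndN1q0 pcN2 cut_pm_202 Ext.none)

def k0_pm_202 : ∃ t, chk3 f_pm_202 t 1 1 1 = true :=
  ⟨(a (b (b (b (a (l 18681216) (b (a (l 18678248) (l 18665432)) (l 18446248))) (a (l 18031280) (l 18149840))) (a (l 17395984) (l 17636944))) (b (b (l 17431512) (l 17688800)) (a (l 2) (l 412956727639)))) (b (b (a (b (b (a (l 18573864) (b (a (l 18380896) (b (a (l 18137712) (b (l 17883992) (l 17953224))) (l 18122880))) (l 18296416))) (l 18444472)) (l 18189816)) (a (b (b (b (a (b (b (a (b (l 17390512) (l 17615576)) (a (l 17135288) (l 16884040))) (a (l 17691008) (l 17350832))) (a (l 17815136) (l 17535040))) (b (b (b (a (a (l 16786560) (l 16775704)) (a (l 16777192) (l 6))) (a (l 16775088) (l 16778344))) (b (a (l 16834040) (l 16768776)) (l 16841240))) (a (l 17172072) (l 16784000)))) (a (l 17883464) (b (l 17265856) (l 17488496)))) (a (l 18050176) (b (l 17703152) (l 17859128)))) (l 18042112)) (b (a (b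 (b (a (b (l 6) (l 16793368)) (l 6)) (a (l 16846464) (a (l 16844784) (l 16884408)))) (b (a (l 17377664) (l 17100568)) (l 17566344))) (b (a (b (l 6) (b (l 6) (l 16895672))) (l 6)) (b (a (l 16958872) (b (l 16977336) (l 16948840))) (a (l 17303736) (l 17104416))))) (b (a (l 17789208) (l 17583192)) (l 17852912))))) (a (b (l 17974120) (l 17756352)) (a (l 17974272) (b (l 17951712) (l 17979520))))) (a (b (b (l 17505648) (l 17228704)) (b (l 17188648) (l 2))) (b (a (l 17731392) (l 17920040)) (b (l 17594696) (l 17393488)))))), by decide +kernel⟩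

theorem c_pm_202 : CertN 0 536870912 0 536870912 50331648 16777216 3 true true false .pp 2 0 2
    ndN0q2 ndN1q0 pcN2 cut_pm_202 Ext.none :=
  certNK0 (fam := true) (s1 := true) (s2 := false) (a := 2) (b := 0) (c := 2) (cn := .pp) (n1 := ndN0q2) (n2 := ndN1q0) (pc := pcN2) (cut := cut_pm_202) (xt := Ext.none) (P1 := 0) (W1 := 536870912) (P2 := 0) (W2 := 536870912) (P3 := 50331648) (W3 := 16777216) (N0 := 3)
    rfl rfl rfl k0_pm_202

noncomputable def f_pm_203 : ℕ → ℕ → ℕ → ℕ → Bool := onCell 0 536870912 1610612736 536870912 50331648 16777216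
    (rowNK 3 1 true true false .up 2 0 3 (qsf 0 536870912 0 536870912 3) ndN0q2 ndN1q0 pcN3 Cut.none Ext.none)

def k0_pm_203 : ∃ t, chk3 f_pm_203 t 1 1 1 = true :=
  ⟨(b (b (a (b (a (l 17705864) (l 17015128)) (a (l 17880696) (l 17557712))) (a (b (l 17506984) (l 17043912)) (b (l 18733816) (l 18134728)))) (a (b (l 68420014391) (l 2)) (a (l 2) (l 2)))) (l 2)), by decide +kernel⟩

theorem c_pm_203 : CertN 0 536870912 0 536870912 50331648 16777216 3 true true false .up 2 0 3
    ndN0q2 ndN1q0 pcN3 Cut.none Ext.none :=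
  certNK1 (fam := true) (s1 := true) (s2 := false) (a := 2) (b := 0) (c := 3) (cn := .up) (n1 := ndN0q2) (n2 := ndN1q0) (pc := pcN3) (cut := Cut.none) (xt := Ext.none) (P1 := 0) (W1 := 536870912) (P2 := 0) (W2 := 536870912) (P3 := 50331648) (W3 := 16777216) (N0 := 3)
    rfl rfl rfl (fun _ => rfl) k0_pm_203

noncomputable def f_pm_213 : ℕ → ℕ → ℕ → ℕ → Bool := onCell 0 536870912 1610612736 536870912 50331648 16777216
    (rowNK 3 1 true true false .pnn 2 1 3 (qsf 0 536870912 536870912 536870912 3) ndN0q2 ndN1q1 pcN3 Cut.none Ext.none)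

def k0_pm_213 : ∃ t, chk3 f_pm_213 t 1 1 1 = true :=
  ⟨(a (b (b (b (l 1) (l 1152697183127)) (b (l 68956291671) (l 4))) (l 4)) (b (b (a (b (l 1) (l 17319752)) (b (l 18948064) (l 18407096))) (b (a (l 16998320) (l 17832000)) (a (l 17277144) (l 17265600)))) (b (b (a (l 17333520) (l 17106912)) (a (l 4) (b (l 17244416) (l 17248904)))) (l 4)))), by decide +kernel⟩

theorem c_pm_213 : CertN 0 536870912 536870912 536870912 50331648 16777216 3 true true false .pnn 2 1 3
    ndN0q2 ndN1q1 pcN3 Cut.none Ext.none :=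
  certNK1 (fam := true) (s1 := true) (s2 := false) (a := 2) (b := 1) (c := 3) (cn := .pnn) (n1 := ndN0q2) (n2 := ndN1q1) (pc := pcN3) (cut := Cut.none) (xt := Ext.none) (P1 := 0) (W1 := 536870912) (P2 := 536870912) (W2 := 536870912) (P3 := 50331648) (W3 := 16777216) (N0 := 3)
    rfl rfl rfl (fun _ => rfl) k0_pm_213

noncomputable def f_mm_001 : ℕ → ℕ → ℕ → ℕ → Bool := onCell 0 536870912 0 536870912 50331648 16777216
    (rowNK 3 0 true false false .up 0 0 1 (qsf 0 536870912 0 536870912 1) ndN0q0 ndN1q0 pcN1 Cut.none Ext.none)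

def k0_mm_001 : ∃ t, chk3 f_mm_001 t 1 1 1 = true :=
  ⟨(l 4), by decide +kernel⟩

theorem c_mm_001 : CertN 0 536870912 0 536870912 50331648 16777216 3 true false false .up 0 0 1
    ndN0q0 ndN1q0 pcN1 Cut.none Ext.none :=
  certNK0 (fam := true) (s1 := false) (s2 := false) (a := 0) (b := 0) (c := 1) (cn := .up) (n1 := ndN0q0) (n2 := ndN1q0) (pc := pcN1) (cut := Cut.none) (xt := Ext.none) (P1 := 0) (W1 := 536870912) (P2 := 0) (W2 := 536870912) (P3 := 50331648) (W3 := 16777216) (N0 := 3)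
    rfl rfl rfl k0_mm_001

noncomputable def f_mm_011 : ℕ → ℕ → ℕ → ℕ → Bool := onCell 0 536870912 536870912 536870912 50331648 16777216
    (rowNK 3 0 true false false .pnn 0 1 1 (qsf 0 536870912 536870912 536870912 1) ndN0q0 ndN1q1 pcN1 Cut.none Ext.none)

def k0_mm_011 : ∃ t, chk3 f_mm_011 t 1 1 1 = true :=
  ⟨(l 4), by decide +kernel⟩

theorem c_mm_011 : CertN 0 536870912 536870912 536870912 50331648 16777216 3 true false false .pnn 0 1 1
    ndN0q0 ndN1q1 pcN1 Cut.none Ext.none :=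
  certNK0 (fam := true) (s1 := false) (s2 := false) (a := 0) (b := 1) (c := 1) (cn := .pnn) (n1 := ndN0q0) (n2 := ndN1q1) (pc := pcN1) (cut := Cut.none) (xt := Ext.none) (P1 := 0) (W1 := 536870912) (P2 := 536870912) (W2 := 536870912) (P3 := 50331648) (W3 := 16777216) (N0 := 3)
    rfl rfl rfl k0_mm_011

noncomputable def f_mm_012 : ℕ → ℕ → ℕ → ℕ → Bool := onCell 0 536870912 536870912 536870912 50331648 16777216
    (rowNK 3 0 true false false .pnp 0 1 2 (qsf 0 536870912 536870912 536870912 2) ndN0q0 ndN1q1 pcN2 Cut.none Ext.none)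

def k0_mm_012 : ∃ t, chk3 f_mm_012 t 1 1 1 = true :=
  ⟨(l 4), by decide +kernel⟩

theorem c_mm_012 : CertN 0 536870912 536870912 536870912 50331648 16777216 3 true false false .pnp 0 1 2
    ndN0q0 ndN1q1 pcN2 Cut.none Ext.none :=
  certNK0 (fam := true) (s1 := false) (s2 := false) (a := 0) (b := 1) (c := 2) (cn := .pnp) (n1 := ndN0q0) (n2 := ndN1q1) (pc := pcN2) (cut := Cut.none) (xt := Ext.none) (P1 := 0) (W1 := 536870912) (P2 := 536870912) (W2 := 536870912) (P3 := 50331648) (W3 := 16777216) (N0 := 3)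
    rfl rfl rfl k0_mm_012

noncomputable def f_mm_022_a : ℕ → ℕ → ℕ → ℕ → Bool := onCell 0 536870912 0 536870912 50331648 16777216
    (rowNK 3 0 true false false .pp 0 2 2 (qsf 0 536870912 0 536870912 2) ndN0q0 ndN1q2a pcN2 Cut.none Ext.none)

def k0_mm_022_a : ∃ t, chk3 f_mm_022_a t 1 1 1 = true :=
  ⟨(l 5), by decide +kernel⟩

theorem c_mm_022_a : CertN 0 536870912 0 536870912 50331648 16777216 3 true false false .pp 0 2 2
    ndN0q0 ndN1q2a pcN2 Cut.none Ext.none :=
  certNK0 (fam := true) (s1 := false) (s2 := false) (a := 0) (b := 2) (c := 2) (cn := .pp) (n1 := ndN0q0) (n2 := ndN1q2a) (pc := pcN2) (cut := Cut.none) (xt := Ext.none) (P1 := 0) (W1 := 536870912) (P2 := 0) (W2 := 536870912) (P3 := 50331648) (W3 := 16777216) (N0 := 3)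
    rfl rfl rfl k0_mm_022_a

noncomputable def f_mm_022_b : ℕ → ℕ → ℕ → ℕ → Bool := onCell 0 536870912 1239849684 370763052 50331648 16777216
    (rowNK 3 0 true false false .pp 0 2 2 (qsf 0 536870912 1239849684 370763052 2) ndN0q0 ndN1q2b pcN2 Cut.none Ext.none)

def k0_mm_022_b : ∃ t, chk3 f_mm_022_b t 1 1 1 = true :=
  ⟨(l 5), by decide +kernel⟩

theorem c_mm_022_b : CertN 0 536870912 1239849684 370763052 50331648 16777216 3 true false false .pp 0 2 2
    ndN0q0 ndN1q2b pcN2 Cut.none Ext.none :=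
  certNK0 (fam := true) (s1 := false) (s2 := false) (a := 0) (b := 2) (c := 2) (cn := .pp) (n1 := ndN0q0) (n2 := ndN1q2b) (pc := pcN2) (cut := Cut.none) (xt := Ext.none) (P1 := 0) (W1 := 536870912) (P2 := 1239849684) (W2 := 370763052) (P3 := 50331648) (W3 := 16777216) (N0 := 3)
    rfl rfl rfl k0_mm_022_b

noncomputable def f_mm_023_a : ℕ → ℕ → ℕ → ℕ → Bool := onCell 0 536870912 0 536870912 50331648 16777216
    (rowNK 3 0 true false false .up 0 2 3 (qsf 0 536870912 0 536870912 3) ndN0q0 ndN1q2a pcN3 Cut.none Ext.none)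

def k0_mm_023_a : ∃ t, chk3 f_mm_023_a t 1 1 1 = true :=
  ⟨(l 5), by decide +kernel⟩

theorem c_mm_023_a : CertN 0 536870912 0 536870912 50331648 16777216 3 true false false .up 0 2 3
    ndN0q0 ndN1q2a pcN3 Cut.none Ext.none :=
  certNK0 (fam := true) (s1 := false) (s2 := false) (a := 0) (b := 2) (c := 3) (cn := .up) (n1 := ndN0q0) (n2 := ndN1q2a) (pc := pcN3) (cut := Cut.none) (xt := Ext.none) (P1 := 0) (W1 := 536870912) (P2 := 0) (W2 := 536870912) (P3 := 50331648) (W3 := 16777216) (N0 := 3)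
    rfl rfl rfl k0_mm_023_a

noncomputable def f_mm_023_b : ℕ → ℕ → ℕ → ℕ → Bool := onCell 0 536870912 1239849684 370763052 50331648 16777216
    (rowNK 3 0 true false false .up 0 2 3 (qsf 0 536870912 1239849684 370763052 3) ndN0q0 ndN1q2b pcN3 Cut.none Ext.none)

def k0_mm_023_b : ∃ t, chk3 f_mm_023_b t 1 1 1 = true :=
  ⟨(l 5), by decide +kernel⟩

theorem c_mm_023_b : CertN 0 536870912 1239849684 370763052 50331648 16777216 3 true false false .up 0 2 3
    ndN0q0 ndN1q2b pcN3 Cut.none Ext.none :=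
  certNK0 (fam := true) (s1 := false) (s2 := false) (a := 0) (b := 2) (c := 3) (cn := .up) (n1 := ndN0q0) (n2 := ndN1q2b) (pc := pcN3) (cut := Cut.none) (xt := Ext.none) (P1 := 0) (W1 := 536870912) (P2 := 1239849684) (W2 := 370763052) (P3 := 50331648) (W3 := 16777216) (N0 := 3)
    rfl rfl rfl k0_mm_023_b

noncomputable def f_mm_033 : ℕ → ℕ → ℕ → ℕ → Bool := onCell 0 536870912 1610612736 536870912 50331648 16777216
    (rowNK 3 0 true false false .pnn 0 3 3 (qsf 0 536870912 1610612736 536870912 3) ndN0q0 ndN1q3 pcN3 Cut.none Ext.none)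

def k0_mm_033 : ∃ t, chk3 f_mm_033 t 1 1 1 = true :=
  ⟨(l 5), by decide +kernel⟩

theorem c_mm_033 : CertN 0 536870912 1610612736 536870912 50331648 16777216 3 true false false .pnn 0 3 3
    ndN0q0 ndN1q3 pcN3 Cut.none Ext.none :=
  certNK0 (fam := true) (s1 := false) (s2 := false) (a := 0) (b := 3) (c := 3) (cn := .pnn) (n1 := ndN0q0) (n2 := ndN1q3) (pc := pcN3) (cut := Cut.none) (xt := Ext.none) (P1 := 0) (W1 := 536870912) (P2 := 1610612736) (W2 := 536870912) (P3 := 50331648) (W3 := 16777216) (N0 := 3)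
    rfl rfl rfl k0_mm_033

noncomputable def cut_mm_101 : Cut := Cut.of [[⟨0, 1, 0, 50331648⟩, ⟨1, 0, 0, 50331648⟩, ⟨2, 1, 0, 50331648⟩]]

noncomputable def f_mm_101 : ℕ → ℕ → ℕ → ℕ → Bool := onCell 536870912 536870912 0 536870912 50331648 16777216
    (rowNK 3 0 true false false .npn 1 0 1 (qsf 536870912 536870912 0 536870912 1) ndN0q1 ndN1q0 pcN1 cut_mm_101 Ext.none)

def k0_mm_101 : ∃ t, chk3 f_mm_101 t 1 1 1 = true :=
  ⟨(a (l 4) (b (a (l 4) (b (a (l 4) (a (l 4) (b (b (l 6) (l 4)) (l 2)))) (l 4))) (l 4))), by decide +kernel⟩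

theorem c_mm_101 : CertN 536870912 536870912 0 536870912 50331648 16777216 3 true false false .npn 1 0 1
    ndN0q1 ndN1q0 pcN1 cut_mm_101 Ext.none :=
  certNK0 (fam := true) (s1 := false) (s2 := false) (a := 1) (b := 0) (c := 1) (cn := .npn) (n1 := ndN0q1) (n2 := ndN1q0) (pc := pcN1) (cut := cut_mm_101) (xt := Ext.none) (P1 := 536870912) (W1 := 536870912) (P2 := 0) (W2 := 536870912) (P3 := 50331648) (W3 := 16777216) (N0 := 3)
    rfl rfl rfl k0_mm_101

noncomputable def cut_mm_102 : Cut := Cut.of [[⟨0, 1, 0, 50331648⟩, ⟨1, 0, 0, 50331648⟩, ⟨2, 1, 0, 50331648⟩]]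

noncomputable def f_mm_102 : ℕ → ℕ → ℕ → ℕ → Bool := onCell 536870912 536870912 0 536870912 50331648 16777216
    (rowNK 3 0 true false false .npp 1 0 2 (qsf 536870912 536870912 0 536870912 2) ndN0q1 ndN1q0 pcN2 cut_mm_102 Ext.none)

def k0_mm_102 : ∃ t, chk3 f_mm_102 t 1 1 1 = true :=
  ⟨(a (l 4) (b (b (a (l 4) (a (l 4) (b (a (l 4) (b (l 6) (l 4))) (l 4)))) (l 4)) (l 4))), by decide +kernel⟩

theorem c_mm_102 : CertN 536870912 536870912 0 536870912 50331648 16777216 3 true false false .npp 1 0 2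
    ndN0q1 ndN1q0 pcN2 cut_mm_102 Ext.none :=
  certNK0 (fam := true) (s1 := false) (s2 := false) (a := 1) (b := 0) (c := 2) (cn := .npp) (n1 := ndN0q1) (n2 := ndN1q0) (pc := pcN2) (cut := cut_mm_102) (xt := Ext.none) (P1 := 536870912) (W1 := 536870912) (P2 := 0) (W2 := 536870912) (P3 := 50331648) (W3 := 16777216) (N0 := 3)
    rfl rfl rfl k0_mm_102

noncomputable def f_mm_112 : ℕ → ℕ → ℕ → ℕ → Bool := onCell 536870912 536870912 536870912 536870912 50331648 16777216
    (rowNK 3 0 true false false .dn 1 1 2 (qsf 536870912 536870912 536870912 536870912 2) ndN0q1 ndN1q1 pcN2 Cut.none Ext.none)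

def k0_mm_112 : ∃ t, chk3 f_mm_112 t 1 1 1 = true :=
  ⟨(l 4), by decide +kernel⟩

theorem c_mm_112 : CertN 536870912 536870912 536870912 536870912 50331648 16777216 3 true false false .dn 1 1 2
    ndN0q1 ndN1q1 pcN2 Cut.none Ext.none :=
  certNK0 (fam := true) (s1 := false) (s2 := false) (a := 1) (b := 1) (c := 2) (cn := .dn) (n1 := ndN0q1) (n2 := ndN1q1) (pc := pcN2) (cut := Cut.none) (xt := Ext.none) (P1 := 536870912) (W1 := 536870912) (P2 := 536870912) (W2 := 536870912) (P3 := 50331648) (W3 := 16777216) (N0 := 3)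
    rfl rfl rfl k0_mm_112

noncomputable def f_mm_113 : ℕ → ℕ → ℕ → ℕ → Bool := onCell 536870912 536870912 536870912 536870912 50331648 16777216
    (rowNK 3 0 true false false .nn 1 1 3 (qsf 536870912 536870912 536870912 536870912 3) ndN0q1 ndN1q1 pcN3 Cut.none Ext.none)

def k0_mm_113 : ∃ t, chk3 f_mm_113 t 1 1 1 = true :=
  ⟨(l 4), by decide +kernel⟩

theorem c_mm_113 : CertN 536870912 536870912 536870912 536870912 50331648 16777216 3 true false false .nn 1 1 3
    ndN0q1 ndN1q1 pcN3 Cut.none Ext.none :=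
  certNK0 (fam := true) (s1 := false) (s2 := false) (a := 1) (b := 1) (c := 3) (cn := .nn) (n1 := ndN0q1) (n2 := ndN1q1) (pc := pcN3) (cut := Cut.none) (xt := Ext.none) (P1 := 536870912) (W1 := 536870912) (P2 := 536870912) (W2 := 536870912) (P3 := 50331648) (W3 := 16777216) (N0 := 3)
    rfl rfl rfl k0_mm_113

noncomputable def f_mm_123_a : ℕ → ℕ → ℕ → ℕ → Bool := onCell 536870912 536870912 0 536870912 50331648 16777216
    (rowNK 3 0 true false false .npn 1 2 3 (qsf 536870912 536870912 0 536870912 3) ndN0q1 ndN1q2a pcN3 Cut.none Ext.none)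

def k0_mm_123_a : ∃ t, chk3 f_mm_123_a t 1 1 1 = true :=
  ⟨(l 4), by decide +kernel⟩

theorem c_mm_123_a : CertN 536870912 536870912 0 536870912 50331648 16777216 3 true false false .npn 1 2 3
    ndN0q1 ndN1q2a pcN3 Cut.none Ext.none :=
  certNK0 (fam := true) (s1 := false) (s2 := false) (a := 1) (b := 2) (c := 3) (cn := .npn) (n1 := ndN0q1) (n2 := ndN1q2a) (pc := pcN3) (cut := Cut.none) (xt := Ext.none) (P1 := 536870912) (W1 := 536870912) (P2 := 0) (W2 := 536870912) (P3 := 50331648) (W3 := 16777216) (N0 := 3)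
    rfl rfl rfl k0_mm_123_a

noncomputable def f_mm_123_b : ℕ → ℕ → ℕ → ℕ → Bool := onCell 536870912 536870912 1239849684 370763052 50331648 16777216
    (rowNK 3 0 true false false .npn 1 2 3 (qsf 536870912 536870912 1239849684 370763052 3) ndN0q1 ndN1q2b pcN3 Cut.none Ext.none)

def k0_mm_123_b : ∃ t, chk3 f_mm_123_b t 1 1 1 = true :=
  ⟨(l 4), by decide +kernel⟩

theorem c_mm_123_b : CertN 536870912 536870912 1239849684 370763052 50331648 16777216 3 true false false .npn 1 2 3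
    ndN0q1 ndN1q2b pcN3 Cut.none Ext.none :=
  certNK0 (fam := true) (s1 := false) (s2 := false) (a := 1) (b := 2) (c := 3) (cn := .npn) (n1 := ndN0q1) (n2 := ndN1q2b) (pc := pcN3) (cut := Cut.none) (xt := Ext.none) (P1 := 536870912) (W1 := 536870912) (P2 := 1239849684) (W2 := 370763052) (P3 := 50331648) (W3 := 16777216) (N0 := 3)
    rfl rfl rfl k0_mm_123_b

noncomputable def f_mm_133 : ℕ → ℕ → ℕ → ℕ → Bool := onCell 536870912 536870912 1610612736 536870912 50331648 16777216
    (rowNK 3 0 true false false .dn 1 3 3 (qsf 536870912 536870912 1610612736 536870912 3) ndN0q1 ndN1q3 pcN3 Cut.none Ext.none)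

def k0_mm_133 : ∃ t, chk3 f_mm_133 t 1 1 1 = true :=
  ⟨(l 4), by decide +kernel⟩

theorem c_mm_133 : CertN 536870912 536870912 1610612736 536870912 50331648 16777216 3 true false false .dn 1 3 3
    ndN0q1 ndN1q3 pcN3 Cut.none Ext.none :=
  certNK0 (fam := true) (s1 := false) (s2 := false) (a := 1) (b := 3) (c := 3) (cn := .dn) (n1 := ndN0q1) (n2 := ndN1q3) (pc := pcN3) (cut := Cut.none) (xt := Ext.none) (P1 := 536870912) (W1 := 536870912) (P2 := 1610612736) (W2 := 536870912) (P3 := 50331648) (W3 := 16777216) (N0 := 3)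
    rfl rfl rfl k0_mm_133

noncomputable def cut_mm_202 : Cut := Cut.of [[⟨0, 1, 0, 50331648⟩, ⟨1, 0, 0, 50331648⟩, ⟨2, 1, 0, 50331648⟩]]

noncomputable def f_mm_202 : ℕ → ℕ → ℕ → ℕ → Bool := onCell 0 536870912 0 536870912 50331648 16777216
    (rowNK 3 0 true false false .pp 2 0 2 (qsf 0 536870912 0 536870912 2) ndN0q2 ndN1q0 pcN2 cut_mm_202 Ext.none)

def k0_mm_202 : ∃ t, chk3 f_mm_202 t 1 1 1 = true :=
  ⟨(b (a (b (b (b (a (l 18736000) (a (l 18706752) (l 18618184))) (a (l 18383120) (l 18253248))) (a (l 17913824) (l 17761400))) (b (a (l 17388928) (a (l 17267368) (l 17335920))) (a (l 17363544) (l 17575312)))) (b (a (b (a (b (b (l 18535216) (l 18327752)) (l 18015104)) (b (b (a (b (l 18290256) (l 18223056)) (b (b (a (l 18054072) (l 17808272)) (l 17954080)) (l 17942168))) (l 17985496)) (b (l 17812376) (l 17632552)))) (a (l 17538584) (b (l 17382784) (l 17230928)))) (b (a (b (a (b (b (b (a (b (c (l 17740360) (l 17066416)) (l 17557120)) (b (a (l 17041080) (l 16891056))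 (l 17190664))) (a (l 17600352) (l 17278864))) (l 17482440)) (l 17553768)) (b (b (b (a (a (l 16770016) (l 16768344)) (b (a (l 16760808) (l 6)) (l 16747504))) (l 16752600)) (b (l 16803432) (l 16950768))) (b (l 17087904) (l 17171712)))) (b (a (l 17469976) (l 17183840)) (l 17220560))) (b (a (b (a (b (l 6) (b (l 16753944) (l 16768144))) (l 6)) (b (a (l 16822264) (l 16850552)) (l 16892256))) (b (l 6) (l 4))) (a (l 56607050951) (l 4)))) (a (b (l 17216232) (l 4)) (l 4)))) (a (b (a (l 17394760) (l 4)) (l 4)) (l 4)))) (a (b (a (b (l 17681464) (l 17846568)) (l 4)) (l 4)) (l 4))), by decide +kernel⟩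

theorem c_mm_202 : CertN 0 536870912 0 536870912 50331648 16777216 3 true false false .pp 2 0 2
    ndN0q2 ndN1q0 pcN2 cut_mm_202 Ext.none :=
  certNK0 (fam := true) (s1 := false) (s2 := false) (a := 2) (b := 0) (c := 2) (cn := .pp) (n1 := ndN0q2) (n2 := ndN1q0) (pc := pcN2) (cut := cut_mm_202) (xt := Ext.none) (P1 := 0) (W1 := 536870912) (P2 := 0) (W2 := 536870912) (P3 := 50331648) (W3 := 16777216) (N0 := 3)
    rfl rfl rfl k0_mm_202

noncomputable def f_mm_203 : ℕ → ℕ → ℕ → ℕ → Bool := onCell 0 536870912 1610612736 536870912 50331648 16777216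
    (rowNK 3 1 true false false .up 2 0 3 (qsf 0 536870912 0 536870912 3) ndN0q2 ndN1q0 pcN3 Cut.none Ext.none)

def k0_mm_203 : ∃ t, chk3 f_mm_203 t 1 1 1 = true :=
  ⟨(a (b (l 4) (l 2)) (l 4)), by decide +kernel⟩

theorem c_mm_203 : CertN 0 536870912 0 536870912 50331648 16777216 3 true false false .up 2 0 3
    ndN0q2 ndN1q0 pcN3 Cut.none Ext.none :=
  certNK1 (fam := true) (s1 := false) (s2 := false) (a := 2) (b := 0) (c := 3) (cn := .up) (n1 := ndN0q2) (n2 := ndN1q0) (pc := pcN3) (cut := Cut.none) (xt := Ext.none) (P1 := 0) (W1 := 536870912) (P2 := 0) (W2 := 536870912) (P3 := 50331648) (W3 := 16777216) (N0 := 3)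
    rfl rfl rfl (fun _ => rfl) k0_mm_203

noncomputable def f_mm_213 : ℕ → ℕ → ℕ → ℕ → Bool := onCell 0 536870912 536870912 536870912 50331648 16777216
    (rowNK 3 0 true false false .pnn 2 1 3 (qsf 0 536870912 536870912 536870912 3) ndN0q2 ndN1q1 pcN3 Cut.none Ext.none)

def k0_mm_213 : ∃ t, chk3 f_mm_213 t 1 1 1 = true :=
  ⟨(l 4), by decide +kernel⟩

theorem c_mm_213 : CertN 0 536870912 536870912 536870912 50331648 16777216 3 true false false .pnn 2 1 3
    ndN0q2 ndN1q1 pcN3 Cut.none Ext.none :=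
  certNK0 (fam := true) (s1 := false) (s2 := false) (a := 2) (b := 1) (c := 3) (cn := .pnn) (n1 := ndN0q2) (n2 := ndN1q1) (pc := pcN3) (cut := Cut.none) (xt := Ext.none) (P1 := 0) (W1 := 536870912) (P2 := 536870912) (W2 := 536870912) (P3 := 50331648) (W3 := 16777216) (N0 := 3)
    rfl rfl rfl k0_mm_213

end Pool.Agent.Strip051.G.I3_64_1_16.Tab.C.NA01

namespace Pool.Agent.Strip051.G.I3_64_1_16.Tab.C.NA02

open Pool.Agent.Strip051.PB Pool.Agent.Strip051.PB.T
open Pool.Agent.Strip051.G.I3_64_1_16.Tab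

noncomputable def f_pp_001 : ℕ → ℕ → ℕ → ℕ → Bool := onCell 0 536870912 0 536870912 50331648 16777216
    (rowNK 3 0 true true true .up 0 0 1 (qsf 0 536870912 0 536870912 1) ndN0q0 ndN2q0 pcN1 Cut.none Ext.none)

def k0_pp_001 : ∃ t, chk3 f_pp_001 t 1 1 1 = true :=
  ⟨(l 4), by decide +kernel⟩

theorem c_pp_001 : CertN 0 536870912 0 536870912 50331648 16777216 3 true true true .up 0 0 1
    ndN0q0 ndN2q0 pcN1 Cut.none Ext.none :=
  certNK0 (fam := true) (s1 := true) (s2 := true) (a := 0) (b := 0) (c := 1) (cn := .up) (n1 := ndN0q0) (n2 := ndN2q0) (pc := pcN1) (cut := Cut.none) (xt := Ext.none) (P1 := 0) (W1 := 536870912) (P2 := 0) (W2 := 536870912) (P3 := 50331648) (W3 := 16777216) (N0 := 3)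
    rfl rfl rfl k0_pp_001

noncomputable def f_pp_011 : ℕ → ℕ → ℕ → ℕ → Bool := onCell 0 536870912 536870912 536870912 50331648 16777216
    (rowNK 3 0 true true true .pnn 0 1 1 (qsf 0 536870912 536870912 536870912 1) ndN0q0 ndN2q1 pcN1 Cut.none Ext.none)

def k0_pp_011 : ∃ t, chk3 f_pp_011 t 1 1 1 = true :=
  ⟨(l 4), by decide +kernel⟩

theorem c_pp_011 : CertN 0 536870912 536870912 536870912 50331648 16777216 3 true true true .pnn 0 1 1
    ndN0q0 ndN2q1 pcN1 Cut.none Ext.none :=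
  certNK0 (fam := true) (s1 := true) (s2 := true) (a := 0) (b := 1) (c := 1) (cn := .pnn) (n1 := ndN0q0) (n2 := ndN2q1) (pc := pcN1) (cut := Cut.none) (xt := Ext.none) (P1 := 0) (W1 := 536870912) (P2 := 536870912) (W2 := 536870912) (P3 := 50331648) (W3 := 16777216) (N0 := 3)
    rfl rfl rfl k0_pp_011

noncomputable def f_pp_012 : ℕ → ℕ → ℕ → ℕ → Bool := onCell 0 536870912 536870912 536870912 50331648 16777216
    (rowNK 3 0 true true true .pnp 0 1 2 (qsf 0 536870912 536870912 536870912 2) ndN0q0 ndN2q1 pcN2 Cut.none Ext.none)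

def k0_pp_012 : ∃ t, chk3 f_pp_012 t 1 1 1 = true :=
  ⟨(l 4), by decide +kernel⟩

theorem c_pp_012 : CertN 0 536870912 536870912 536870912 50331648 16777216 3 true true true .pnp 0 1 2
    ndN0q0 ndN2q1 pcN2 Cut.none Ext.none :=
  certNK0 (fam := true) (s1 := true) (s2 := true) (a := 0) (b := 1) (c := 2) (cn := .pnp) (n1 := ndN0q0) (n2 := ndN2q1) (pc := pcN2) (cut := Cut.none) (xt := Ext.none) (P1 := 0) (W1 := 536870912) (P2 := 536870912) (W2 := 536870912) (P3 := 50331648) (W3 := 16777216) (N0 := 3)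
    rfl rfl rfl k0_pp_012

noncomputable def cut_pp_022_a : Cut := Cut.of [[⟨0, 0, 0, 50331648⟩, ⟨1, 1, 0, 50331648⟩, ⟨2, 1, 0, 50331648⟩]]

noncomputable def f_pp_022_a : ℕ → ℕ → ℕ → ℕ → Bool := onCell 0 536870912 0 536870912 50331648 16777216
    (rowNK 3 0 true true true .pp 0 2 2 (qsf 0 536870912 0 536870912 2) ndN0q0 ndN2q2a pcN2 cut_pp_022_a Ext.none)

def k0_pp_022_a : ∃ t, chk3 f_pp_022_a t 1 1 1 = true :=
  ⟨(a (b (l 4) (a (b (l 4) (b (l 4) (b (l 4) (a (a (a (l 6) (l 4)) (l 4)) (l 4))))) (l 4))) (l 4)), by decide +kernel⟩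

theorem c_pp_022_a : CertN 0 536870912 0 536870912 50331648 16777216 3 true true true .pp 0 2 2
    ndN0q0 ndN2q2a pcN2 cut_pp_022_a Ext.none :=
  certNK0 (fam := true) (s1 := true) (s2 := true) (a := 0) (b := 2) (c := 2) (cn := .pp) (n1 := ndN0q0) (n2 := ndN2q2a) (pc := pcN2) (cut := cut_pp_022_a) (xt := Ext.none) (P1 := 0) (W1 := 536870912) (P2 := 0) (W2 := 536870912) (P3 := 50331648) (W3 := 16777216) (N0 := 3)
    rfl rfl rfl k0_pp_022_a

noncomputable def cut_pp_022_b : Cut := Cut.of [[⟨0, 0, 0, 50331648⟩, ⟨1, 1, 0, 50331648⟩, ⟨2, 1, 0, 50331648⟩]]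

noncomputable def f_pp_022_b : ℕ → ℕ → ℕ → ℕ → Bool := onCell 0 536870912 1239849684 370763052 50331648 16777216
    (rowNK 3 0 true true true .pp 0 2 2 (qsf 0 536870912 1239849684 370763052 2) ndN0q0 ndN2q2b pcN2 cut_pp_022_b Ext.none)

def k0_pp_022_b : ∃ t, chk3 f_pp_022_b t 1 1 1 = true :=
  ⟨(l 4), by decide +kernel⟩

theorem c_pp_022_b : CertN 0 536870912 1239849684 370763052 50331648 16777216 3 true true true .pp 0 2 2
    ndN0q0 ndN2q2b pcN2 cut_pp_022_b Ext.none :=
  certNK0 (fam := true) (s1 := true) (s2 := true) (a := 0) (b := 2) (c := 2) (cn := .pp) (n1 := ndN0q0) (n2 := ndN2q2b) (pc := pcN2) (cut := cut_pp_022_b) (xt := Ext.none) (P1 := 0) (W1 := 536870912) (P2 := 1239849684) (W2 := 370763052) (P3 := 50331648) (W3 := 16777216) (N0 := 3)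
    rfl rfl rfl k0_pp_022_b

noncomputable def f_pp_023_a : ℕ → ℕ → ℕ → ℕ → Bool := onCell 1610612736 536870912 0 536870912 50331648 16777216
    (rowNK 3 2 true true true .up 0 2 3 (qsf 0 536870912 0 536870912 3) ndN0q0 ndN2q2a pcN3 Cut.none Ext.none)

def k0_pp_023_a : ∃ t, chk3 f_pp_023_a t 1 1 1 = true :=
  ⟨(l 4), by decide +kernel⟩

theorem c_pp_023_a : CertN 0 536870912 0 536870912 50331648 16777216 3 true true true .up 0 2 3
    ndN0q0 ndN2q2a pcN3 Cut.none Ext.none :=
  certNK2 (fam := true) (s1 := true) (s2 := true) (a := 0) (b := 2) (c := 3) (cn := .up) (n1 := ndN0q0) (n2 := ndN2q2a) (pc := pcN3) (cut := Cut.none) (xt := Ext.none) (P1 := 0) (W1 := 536870912) (P2 := 0) (W2 := 536870912) (P3 := 50331648) (W3 := 16777216) (N0 := 3)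
    rfl rfl rfl (fun _ => rfl) k0_pp_023_a

noncomputable def f_pp_023_b : ℕ → ℕ → ℕ → ℕ → Bool := onCell 0 536870912 1239849684 370763052 50331648 16777216
    (rowNK 3 0 true true true .up 0 2 3 (qsf 0 536870912 1239849684 370763052 3) ndN0q0 ndN2q2b pcN3 Cut.none Ext.none)

def k0_pp_023_b : ∃ t, chk3 f_pp_023_b t 1 1 1 = true :=
  ⟨(l 4), by decide +kernel⟩

theorem c_pp_023_b : CertN 0 536870912 1239849684 370763052 50331648 16777216 3 true true true .up 0 2 3
    ndN0q0 ndN2q2b pcN3 Cut.none Ext.none :=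
  certNK0 (fam := true) (s1 := true) (s2 := true) (a := 0) (b := 2) (c := 3) (cn := .up) (n1 := ndN0q0) (n2 := ndN2q2b) (pc := pcN3) (cut := Cut.none) (xt := Ext.none) (P1 := 0) (W1 := 536870912) (P2 := 1239849684) (W2 := 370763052) (P3 := 50331648) (W3 := 16777216) (N0 := 3)
    rfl rfl rfl k0_pp_023_b

noncomputable def f_pp_033 : ℕ → ℕ → ℕ → ℕ → Bool := onCell 0 536870912 1610612736 536870912 50331648 16777216
    (rowNK 3 0 true true true .pnn 0 3 3 (qsf 0 536870912 1610612736 536870912 3) ndN0q0 ndN2q3 pcN3 Cut.none Ext.none)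

def k0_pp_033 : ∃ t, chk3 f_pp_033 t 1 1 1 = true :=
  ⟨(l 4), by decide +kernel⟩

theorem c_pp_033 : CertN 0 536870912 1610612736 536870912 50331648 16777216 3 true true true .pnn 0 3 3
    ndN0q0 ndN2q3 pcN3 Cut.none Ext.none :=
  certNK0 (fam := true) (s1 := true) (s2 := true) (a := 0) (b := 3) (c := 3) (cn := .pnn) (n1 := ndN0q0) (n2 := ndN2q3) (pc := pcN3) (cut := Cut.none) (xt := Ext.none) (P1 := 0) (W1 := 536870912) (P2 := 1610612736) (W2 := 536870912) (P3 := 50331648) (W3 := 16777216) (N0 := 3)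
    rfl rfl rfl k0_pp_033

noncomputable def f_pp_101 : ℕ → ℕ → ℕ → ℕ → Bool := onCell 536870912 536870912 0 536870912 50331648 16777216
    (rowNK 3 0 true true true .npn 1 0 1 (qsf 536870912 536870912 0 536870912 1) ndN0q1 ndN2q0 pcN1 Cut.none Ext.none)

def k0_pp_101 : ∃ t, chk3 f_pp_101 t 1 1 1 = true :=
  ⟨(l 5), by decide +kernel⟩

theorem c_pp_101 : CertN 536870912 536870912 0 536870912 50331648 16777216 3 true true true .npn 1 0 1
    ndN0q1 ndN2q0 pcN1 Cut.none Ext.none :=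
  certNK0 (fam := true) (s1 := true) (s2 := true) (a := 1) (b := 0) (c := 1) (cn := .npn) (n1 := ndN0q1) (n2 := ndN2q0) (pc := pcN1) (cut := Cut.none) (xt := Ext.none) (P1 := 536870912) (W1 := 536870912) (P2 := 0) (W2 := 536870912) (P3 := 50331648) (W3 := 16777216) (N0 := 3)
    rfl rfl rfl k0_pp_101

noncomputable def f_pp_102 : ℕ → ℕ → ℕ → ℕ → Bool := onCell 536870912 536870912 0 536870912 50331648 16777216
    (rowNK 3 0 true true true .npp 1 0 2 (qsf 536870912 536870912 0 536870912 2) ndN0q1 ndN2q0 pcN2 Cut.none Ext.none)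

def k0_pp_102 : ∃ t, chk3 f_pp_102 t 1 1 1 = true :=
  ⟨(l 5), by decide +kernel⟩

theorem c_pp_102 : CertN 536870912 536870912 0 536870912 50331648 16777216 3 true true true .npp 1 0 2
    ndN0q1 ndN2q0 pcN2 Cut.none Ext.none :=
  certNK0 (fam := true) (s1 := true) (s2 := true) (a := 1) (b := 0) (c := 2) (cn := .npp) (n1 := ndN0q1) (n2 := ndN2q0) (pc := pcN2) (cut := Cut.none) (xt := Ext.none) (P1 := 536870912) (W1 := 536870912) (P2 := 0) (W2 := 536870912) (P3 := 50331648) (W3 := 16777216) (N0 := 3)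
    rfl rfl rfl k0_pp_102

noncomputable def f_pp_112 : ℕ → ℕ → ℕ → ℕ → Bool := onCell 536870912 536870912 536870912 536870912 50331648 16777216
    (rowNK 3 0 true true true .dn 1 1 2 (qsf 536870912 536870912 536870912 536870912 2) ndN0q1 ndN2q1 pcN2 Cut.none Ext.none)

def k0_pp_112 : ∃ t, chk3 f_pp_112 t 1 1 1 = true :=
  ⟨(l 4), by decide +kernel⟩

theorem c_pp_112 : CertN 536870912 536870912 536870912 536870912 50331648 16777216 3 true true true .dn 1 1 2
    ndN0q1 ndN2q1 pcN2 Cut.none Ext.none :=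
  certNK0 (fam := true) (s1 := true) (s2 := true) (a := 1) (b := 1) (c := 2) (cn := .dn) (n1 := ndN0q1) (n2 := ndN2q1) (pc := pcN2) (cut := Cut.none) (xt := Ext.none) (P1 := 536870912) (W1 := 536870912) (P2 := 536870912) (W2 := 536870912) (P3 := 50331648) (W3 := 16777216) (N0 := 3)
    rfl rfl rfl k0_pp_112

noncomputable def f_pp_113 : ℕ → ℕ → ℕ → ℕ → Bool := onCell 536870912 536870912 536870912 536870912 50331648 16777216
    (rowNK 3 0 true true true .nn 1 1 3 (qsf 536870912 536870912 536870912 536870912 3) ndN0q1 ndN2q1 pcN3 Cut.none Ext.none)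

def k0_pp_113 : ∃ t, chk3 f_pp_113 t 1 1 1 = true :=
  ⟨(l 4), by decide +kernel⟩

theorem c_pp_113 : CertN 536870912 536870912 536870912 536870912 50331648 16777216 3 true true true .nn 1 1 3
    ndN0q1 ndN2q1 pcN3 Cut.none Ext.none :=
  certNK0 (fam := true) (s1 := true) (s2 := true) (a := 1) (b := 1) (c := 3) (cn := .nn) (n1 := ndN0q1) (n2 := ndN2q1) (pc := pcN3) (cut := Cut.none) (xt := Ext.none) (P1 := 536870912) (W1 := 536870912) (P2 := 536870912) (W2 := 536870912) (P3 := 50331648) (W3 := 16777216) (N0 := 3)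
    rfl rfl rfl k0_pp_113

noncomputable def f_pp_123_a : ℕ → ℕ → ℕ → ℕ → Bool := onCell 536870912 536870912 0 536870912 50331648 16777216
    (rowNK 3 0 true true true .npn 1 2 3 (qsf 536870912 536870912 0 536870912 3) ndN0q1 ndN2q2a pcN3 Cut.none Ext.none)

def k0_pp_123_a : ∃ t, chk3 f_pp_123_a t 1 1 1 = true :=
  ⟨(l 4), by decide +kernel⟩

theorem c_pp_123_a : CertN 536870912 536870912 0 536870912 50331648 16777216 3 true true true .npn 1 2 3
    ndN0q1 ndN2q2a pcN3 Cut.none Ext.none :=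
  certNK0 (fam := true) (s1 := true) (s2 := true) (a := 1) (b := 2) (c := 3) (cn := .npn) (n1 := ndN0q1) (n2 := ndN2q2a) (pc := pcN3) (cut := Cut.none) (xt := Ext.none) (P1 := 536870912) (W1 := 536870912) (P2 := 0) (W2 := 536870912) (P3 := 50331648) (W3 := 16777216) (N0 := 3)
    rfl rfl rfl k0_pp_123_a

noncomputable def f_pp_123_b : ℕ → ℕ → ℕ → ℕ → Bool := onCell 536870912 536870912 1239849684 370763052 50331648 16777216
    (rowNK 3 0 true true true .npn 1 2 3 (qsf 536870912 536870912 1239849684 370763052 3) ndN0q1 ndN2q2b pcN3 Cut.none Ext.none)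

def k0_pp_123_b : ∃ t, chk3 f_pp_123_b t 1 1 1 = true :=
  ⟨(l 4), by decide +kernel⟩

theorem c_pp_123_b : CertN 536870912 536870912 1239849684 370763052 50331648 16777216 3 true true true .npn 1 2 3
    ndN0q1 ndN2q2b pcN3 Cut.none Ext.none :=
  certNK0 (fam := true) (s1 := true) (s2 := true) (a := 1) (b := 2) (c := 3) (cn := .npn) (n1 := ndN0q1) (n2 := ndN2q2b) (pc := pcN3) (cut := Cut.none) (xt := Ext.none) (P1 := 536870912) (W1 := 536870912) (P2 := 1239849684) (W2 := 370763052) (P3 := 50331648) (W3 := 16777216) (N0 := 3)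
    rfl rfl rfl k0_pp_123_b

noncomputable def f_pp_133 : ℕ → ℕ → ℕ → ℕ → Bool := onCell 536870912 536870912 1610612736 536870912 50331648 16777216
    (rowNK 3 0 true true true .dn 1 3 3 (qsf 536870912 536870912 1610612736 536870912 3) ndN0q1 ndN2q3 pcN3 Cut.none Ext.none)

def k0_pp_133 : ∃ t, chk3 f_pp_133 t 1 1 1 = true :=
  ⟨(l 4), by decide +kernel⟩

theorem c_pp_133 : CertN 536870912 536870912 1610612736 536870912 50331648 16777216 3 true true true .dn 1 3 3
    ndN0q1 ndN2q3 pcN3 Cut.none Ext.none :=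
  certNK0 (fam := true) (s1 := true) (s2 := true) (a := 1) (b := 3) (c := 3) (cn := .dn) (n1 := ndN0q1) (n2 := ndN2q3) (pc := pcN3) (cut := Cut.none) (xt := Ext.none) (P1 := 536870912) (W1 := 536870912) (P2 := 1610612736) (W2 := 536870912) (P3 := 50331648) (W3 := 16777216) (N0 := 3)
    rfl rfl rfl k0_pp_133

noncomputable def f_pp_202 : ℕ → ℕ → ℕ → ℕ → Bool := onCell 0 536870912 0 536870912 50331648 16777216
    (rowNK 3 0 true true true .pp 2 0 2 (qsf 0 536870912 0 536870912 2) ndN0q2 ndN2q0 pcN2 Cut.none Ext.none)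

def k0_pp_202 : ∃ t, chk3 f_pp_202 t 1 1 1 = true :=
  ⟨(l 5), by decide +kernel⟩

theorem c_pp_202 : CertN 0 536870912 0 536870912 50331648 16777216 3 true true true .pp 2 0 2
    ndN0q2 ndN2q0 pcN2 Cut.none Ext.none :=
  certNK0 (fam := true) (s1 := true) (s2 := true) (a := 2) (b := 0) (c := 2) (cn := .pp) (n1 := ndN0q2) (n2 := ndN2q0) (pc := pcN2) (cut := Cut.none) (xt := Ext.none) (P1 := 0) (W1 := 536870912) (P2 := 0) (W2 := 536870912) (P3 := 50331648) (W3 := 16777216) (N0 := 3)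
    rfl rfl rfl k0_pp_202

noncomputable def f_pp_203 : ℕ → ℕ → ℕ → ℕ → Bool := onCell 0 536870912 0 536870912 50331648 16777216
    (rowNK 3 0 true true true .up 2 0 3 (qsf 0 536870912 0 536870912 3) ndN0q2 ndN2q0 pcN3 Cut.none Ext.none)

def k0_pp_203 : ∃ t, chk3 f_pp_203 t 1 1 1 = true :=
  ⟨(l 5), by decide +kernel⟩

theorem c_pp_203 : CertN 0 536870912 0 536870912 50331648 16777216 3 true true true .up 2 0 3
    ndN0q2 ndN2q0 pcN3 Cut.none Ext.none :=
  certNK0 (fam := true) (s1 := true) (s2 := true) (a := 2) (b := 0) (c := 3) (cn := .up) (n1 := ndN0q2) (n2 := ndN2q0) (pc := pcN3) (cut := Cut.none) (xt := Ext.none) (P1 := 0) (W1 := 536870912) (P2 := 0) (W2 := 536870912) (P3 := 50331648) (W3 := 16777216) (N0 := 3)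
    rfl rfl rfl k0_pp_203

noncomputable def f_pp_213 : ℕ → ℕ → ℕ → ℕ → Bool := onCell 0 536870912 536870912 536870912 50331648 16777216
    (rowNK 3 0 true true true .pnn 2 1 3 (qsf 0 536870912 536870912 536870912 3) ndN0q2 ndN2q1 pcN3 Cut.none Ext.none)

def k0_pp_213 : ∃ t, chk3 f_pp_213 t 1 1 1 = true :=
  ⟨(l 4), by decide +kernel⟩

theorem c_pp_213 : CertN 0 536870912 536870912 536870912 50331648 16777216 3 true true true .pnn 2 1 3
    ndN0q2 ndN2q1 pcN3 Cut.none Ext.none :=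
  certNK0 (fam := true) (s1 := true) (s2 := true) (a := 2) (b := 1) (c := 3) (cn := .pnn) (n1 := ndN0q2) (n2 := ndN2q1) (pc := pcN3) (cut := Cut.none) (xt := Ext.none) (P1 := 0) (W1 := 536870912) (P2 := 536870912) (W2 := 536870912) (P3 := 50331648) (W3 := 16777216) (N0 := 3)
    rfl rfl rfl k0_pp_213

noncomputable def f_pm_001 : ℕ → ℕ → ℕ → ℕ → Bool := onCell 0 536870912 536870912 536870912 50331648 16777216
    (rowNK 3 1 true true false .up 0 0 1 (qsf 0 536870912 0 536870912 1) ndN0q0 ndN2q0 pcN1 Cut.none Ext.none)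

def k0_pm_001 : ∃ t, chk3 f_pm_001 t 1 1 1 = true :=
  ⟨(b (l 3) (b (l 3) (a (l 2) (b (l 3) (a (l 2) (b (l 3) (l 97881638375))))))), by decide +kernel⟩

theorem c_pm_001 : CertN 0 536870912 0 536870912 50331648 16777216 3 true true false .up 0 0 1
    ndN0q0 ndN2q0 pcN1 Cut.none Ext.none :=
  certNK1 (fam := true) (s1 := true) (s2 := false) (a := 0) (b := 0) (c := 1) (cn := .up) (n1 := ndN0q0) (n2 := ndN2q0) (pc := pcN1) (cut := Cut.none) (xt := Ext.none) (P1 := 0) (W1 := 536870912) (P2 := 0) (W2 := 536870912) (P3 := 50331648) (W3 := 16777216) (N0 := 3)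
    rfl rfl rfl (fun _ => rfl) k0_pm_001

noncomputable def cut_pm_011 : Cut := Cut.of [[⟨0, 0, 0, 50331648⟩, ⟨1, 1, 0, 50331648⟩, ⟨2, 1, 0, 50331648⟩], [⟨0, 0, 1, 33554432⟩, ⟨1, 1, 2, 33554432⟩, ⟨2, 1, 0, 16777216⟩, ⟨0, 0, 0, 83886080⟩, ⟨0, 1, 0, 1040187392⟩, ⟨1, 0, 0, 1040187392⟩, ⟨1, 1, 0, 83886080⟩]]

noncomputable def f_pm_011 : ℕ → ℕ → ℕ → ℕ → Bool := onCell 536870912 536870912 536870912 536870912 50331648 16777216
    (rowNK 3 2 true true false .pnn 0 1 1 (qsf 0 536870912 536870912 536870912 1) ndN0q0 ndN2q1 pcN1 cut_pm_011 Ext.none)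

def k0_pm_011 : ∃ t, chk3 f_pm_011 t 1 1 1 = true :=
  ⟨(a (l 3) (a (l 3) (a (l 3) (a (l 3) (b (b (l 18409024) (l 223509570743)) (a (l 3) (a (l 3) (b (b (l 17858696) (l 204180973511)) (a (l 3) (b (b (l 94658697591) (b (b (l 17501784) (b (l 17416376) (l 17284184))) (b (b (l 12516338247) (l 14)) (l 14)))) (b (b (l 14) (b (l 14) (l 6))) (l 6)))))))))))), by decide +kernel⟩

theorem c_pm_011 : CertN 0 536870912 536870912 536870912 50331648 16777216 3 true true false .pnn 0 1 1
    ndN0q0 ndN2q1 pcN1 cut_pm_011 Ext.none :=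
  certNK2 (fam := true) (s1 := true) (s2 := false) (a := 0) (b := 1) (c := 1) (cn := .pnn) (n1 := ndN0q0) (n2 := ndN2q1) (pc := pcN1) (cut := cut_pm_011) (xt := Ext.none) (P1 := 0) (W1 := 536870912) (P2 := 536870912) (W2 := 536870912) (P3 := 50331648) (W3 := 16777216) (N0 := 3)
    rfl rfl rfl (fun _ => rfl) k0_pm_011

noncomputable def cut_pm_012 : Cut := Cut.of [[⟨0, 0, 0, 50331648⟩, ⟨1, 1, 0, 50331648⟩, ⟨2, 1, 0, 50331648⟩], [⟨0, 0, 1, 33554432⟩, ⟨1, 1, 2, 33554432⟩, ⟨2, 1, 0, 16777216⟩, ⟨0, 0, 0, 83886080⟩, ⟨0, 1, 0, 1040187392⟩, ⟨1, 0, 0, 1040187392⟩, ⟨1, 1, 0, 83886080⟩]]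

noncomputable def f_pm_012 : ℕ → ℕ → ℕ → ℕ → Bool := onCell 1073741824 536870912 536870912 536870912 50331648 16777216
    (rowNK 3 2 true true false .pnp 0 1 2 (qsf 0 536870912 536870912 536870912 2) ndN0q0 ndN2q1 pcN2 cut_pm_012 Ext.none)

def k0_pm_012 : ∃ t, chk3 f_pm_012 t 2 2 1 = true :=
  ⟨(a (a (a (a (b (l 18311736) (l 18189768)) (b (l 18238032) (l 18207616))) (b (l 18138208) (l 18105840))) (b (l 17926272) (a (l 17868512) (l 17670576)))) (b (a (l 17679496) (l 2)) (a (l 17450928) (l 17073488)))), by decide +kernel⟩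

def k1_pm_012 : ∃ t, chk3 f_pm_012 t 4 6 1 = true :=
  ⟨(a (a (a (b (l 17826928) (b (l 17761160) (l 17871064))) (b (l 17853672) (a (l 17959448) (l 18034704)))) (b (l 17850032) (a (l 18137776) (l 18268136)))) (b (l 17971144) (a (l 18401272) (l 18413864)))), by decide +kernel⟩

def k2_pm_012 : ∃ t, chk3 f_pm_012 t 8 14 1 = true :=
  ⟨(a (a (b (b (l 17882728) (a (l 17751248) (l 17907200))) (b (a (b (l 17645728) (a (b (l 17515848) (l 17426824)) (l 17589936))) (b (l 17831232) (l 17749088))) (a (b (a (b (l 17145080) (a (l 14) (l 17290344))) (c (l 17571784) (l 17220136))) (a (l 14) (c (l 17323576) (b (l 17137008) (l 14))))) (b (l 17385880) (a (b (l 17471672) (l 17241072)) (l 17455856)))))) (b (a (l 18069480) (l 18192200)) (a (b (l 17985448) (b (l 17868496) (l 17667296))) (b (l 18161648) (a (l 17986792) (l 18096192)))))) (b (a (l 18363632) (l 18575416)) (a (b (l 18404656) (a (l 18251600) (l 18444768))) (b (l 18693896) (l 18698912))))), by decide +kernel⟩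

def k3_pm_012 : ∃ t, chk3 f_pm_012 t 16 30 1 = true :=
  ⟨(a (b (a (l 14) (a (l 14) (a (l 14) (a (l 14) (b (l 17247688) (b (l 17164392) (b (l 17106480) (l 17011528)))))))) (b (a (l 14) (a (l 14) (a (l 14) (b (l 16780152) (l 16751624))))) (b (a (l 14) (a (l 14) (a (l 14) (b (l 16705832) (l 16706416))))) (a (l 6) (a (b (l 14) (l 6)) (b (l 16718840) (a (l 16736704) (l 16728760)))))))) (b (a (a (b (b (l 17571176) (l 17414544)) (c (b (l 17540384) (l 17426360)) (b (l 17133008) (l 16843816)))) (b (l 17603240) (c (l 17646712) (b (l 17351848) (l 17201720))))) (a (b (l 17801976) (a (l 17397528) (l 17621144))) (b (l 17932008) (l 17648872)))) (a (a (b (b (c (l 17102224) (b (l 16909328) (l 16838648))) (b (l 16808656) (l 16772024))) (b (b (l 16746248) (l 16715384)) (a (l 16709296) (b (l 16711968) (l 16712784))))) (b (c (b (l 17473096) (l 17182128)) (b (l 16923752) (l 16742928))) (a (b (l 16773936) (l 16729936)) (b (l 16801616) (l 16738832))))) (b (a (c (b (l 17648104)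 (l 17521040)) (b (l 17250712) (l 16963152))) (c (l 17761688) (b (l 17423544) (l 17090912)))) (a (b (c (l 17242432) (l 16769976)) (b (l 16853384) (l 16821880))) (c (b (l 17569848) (a (l 17353720) (l 17463088))) (b (a (l 17056600) (l 17160280)) (a (l 16844632) (l 16898536))))))))), by decide +kernel⟩

def k4_pm_012 : ∃ t, chk3 f_pm_012 t 16 31 1 = true :=
  ⟨(a (b (b (a (l 6) (b (a (l 6) (a (l 6) (b (l 16729320) (l 6)))) (l 6))) (l 6)) (l 6)) (b (a (b (b (a (a (b (l 16721352) (l 16722168)) (a (l 16704864) (l 16700856))) (b (a (l 16705328) (l 16697264)) (a (a (l 16687192) (l 16704152)) (a (l 16700120) (l 16696936))))) (a (a (l 6) (l 16715008)) (a (a (b (l 16708728) (l 6)) (l 16706208)) (l 16703064)))) (a (l 6) (a (l 6) (b (l 16709896) (l 6))))) (b (a (b (b (l 16735928) (l 16691800)) (c (b (l 16748080) (l 16698632)) (l 16696744))) (b (a (l 16742704) (b (l 16950296) (l 16915376))) (a (l 16690704) (l 16733160)))) (a (b (a (l 16705688) (l 16701520)) (l 16697264))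 (a (b (l 16676408) (l 16683120)) (b (l 16693544) (l 16700200)))))) (a (l 6) (a (l 6) (b (a (l 6) (b (l 16696128) (l 6))) (l 6)))))), by decide +kernel⟩

def k5_pm_012 : ∃ t, chk3 f_pm_012 t 17 30 1 = true :=
  ⟨(a (b (a (b (l 18116304) (a (l 17918384) (l 18054688))) (l 18301112)) (a (a (b (b (l 17780904) (l 17584792)) (c (b (l 17759856) (l 17620216)) (b (l 17205472) (a (l 17032760) (l 17184336))))) (b (l 17803736) (c (l 17880992) (b (l 17500264) (l 17258136))))) (b (l 18046864) (b (l 17909992) (a (l 17728608) (l 17948184)))))) (b (l 18617248) (b (l 18496688) (a (l 18173336) (l 18511432))))), by decide +kernel⟩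

def k6_pm_012 : ∃ t, chk3 f_pm_012 t 17 31 1 = true :=
  ⟨(b (a (b (a (b (c (a (b (l 17496200) (l 17402584)) (l 17671784)) (a (b (l 16907992) (l 16851424)) (b (l 17203160) (l 17099256)))) (a (a (l 16834336) (l 16887712)) (c (l 17410016) (l 16839576)))) (c (b (l 17971840) (l 17643160)) (b (a (l 17270320) (l 17581432)) (a (l 17092552) (l 17409104))))) (a (b (a (a (l 16689496) (l 16733088)) (l 16729056)) (a (a (l 16696096) (l 16671304)) (a (l 16667336) (l 16734888)))) (c (a (b (l 17475760) (a (l 17151576) (l 17359736))) (b (l 17778144) (l 17521912))) (b (a (l 16851976) (l 17117992)) (a (l 16679152) (l 16865992)))))) (b (a (b (l 18071016) (l 17720440)) (b (l 18405840) (l 18318280))) (b (a (c (l 18097920) (a (l 17444640) (l 17666592))) (l 18213888)) (a (c (l 17885848) (a (l 17123912) (l 17481480))) (l 17878240))))) (a (a (b (b (a (a (l 16702456) (l 16677616)) (l 16683096)) (a (b (l 16695048) (l 6)) (l 16688872))) (b (a (l 6) (a (l 6) (l 16681152))) (l 6))) (b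 (a (b (a (l 16665704) (l 16738480)) (l 16680736)) (b (c (a (l 17162456) (l 17377512)) (l 16656480)) (a (l 16663632) (l 16743632)))) (a (b (l 16686432) (b (l 16701216) (l 6))) (b (l 16678456) (b (l 16672184) (l 16675000)))))) (b (a (c (a (b (l 17569296) (c (l 17566280) (l 16986656))) (b (l 17889608) (l 17596728))) (b (a (l 16860520) (l 17131128)) (a (l 16654376) (l 16856320)))) (c (b (l 18228288) (l 18069368)) (a (b (l 17519456) (l 17139424)) (b (l 17756680) (l 17558344))))) (a (b (a (l 16660248) (c (c (l 17613376) (l 16973856)) (l 16652320))) (a (l 16671000) (l 16663408))) (c (a (b (l 17625440) (b (l 17428032) (l 17129176))) (b (l 18004992) (l 17592512))) (b (a (l 16832648) (l 17128080)) (b (l 16676784) (l 16664664)))))))), by decide +kernel⟩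

def k7_pm_012 : ∃ t, chk3 f_pm_012 t 9 7 1 = true :=
  ⟨(b (b (a (l 18812960) (l 18943400)) (a (a (l 18972016) (l 19155992)) (l 19315936))) (b (a (b (l 19103072) (a (l 18897240) (l 19223960))) (l 19536536)) (b (a (a (b (l 18775720) (a (l 18495976) (l 18784864))) (b (l 19184224) (l 19132192))) (b (l 19576752) (l 19594656))) (a (a (a (a (b (l 17946048) (c (l 18035976) (b (l 17598440) (b (l 17416040) (l 17215016))))) (b (l 18371424) (c (l 18395224) (b (l 17850416) (l 17618752))))) (b (l 18630912) (c (l 18699984) (b (l 18181912) (l 18018176))))) (a (b (l 18926928) (l 18774032)) (l 19130240))) (l 19608216))))), by decide +kernel⟩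

def k8_pm_012 : ∃ t, chk3 f_pm_012 t 5 3 1 = true :=
  ⟨(b (a (b (l 17648720) (l 18341792)) (l 17775424)) (b (b (l 18958312) (l 19457880)) (b (a (l 19787832) (l 19782336)) (b (a (l 20006200) (l 20034272)) (l 20180704))))), by decide +kernel⟩

def k9_pm_012 : ∃ t, chk3 f_pm_012 t 3 1 1 = true :=
  ⟨(b (a (b (l 2) (a (l 17171960) (l 2))) (l 2)) (a (b (b (l 17283432) (l 17890488)) (b (l 18875896) (b (l 19477264) (b (l 19714224) (l 19832016))))) (b (b (l 2) (l 17661760)) (b (l 18417696) (b (l 18966008) (b (l 19162680) (l 19249488))))))), by decide +kernel⟩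

theorem s10_pm_012 : ∃ t, chk3 f_pm_012 t 17 15 1 = true := ex3_b k5_pm_012 k6_pm_012

theorem s11_pm_012 : ∃ t, chk3 f_pm_012 t 16 15 1 = true := ex3_b k3_pm_012 k4_pm_012

theorem s12_pm_012 : ∃ t, chk3 f_pm_012 t 8 15 1 = true := ex3_a s11_pm_012 s10_pm_012

theorem s13_pm_012 : ∃ t, chk3 f_pm_012 t 8 7 1 = true := ex3_b k2_pm_012 s12_pm_012

theorem s14_pm_012 : ∃ t, chk3 f_pm_012 t 4 7 1 = true := ex3_a s13_pm_012 k7_pm_012

theorem s15_pm_012 : ∃ t, chk3 f_pm_012 t 4 3 1 = true := ex3_b k1_pm_012 s14_pm_012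

theorem s16_pm_012 : ∃ t, chk3 f_pm_012 t 2 3 1 = true := ex3_a s15_pm_012 k8_pm_012

theorem s17_pm_012 : ∃ t, chk3 f_pm_012 t 2 1 1 = true := ex3_b k0_pm_012 s16_pm_012

theorem s18_pm_012 : ∃ t, chk3 f_pm_012 t 1 1 1 = true := ex3_a s17_pm_012 k9_pm_012

theorem c_pm_012 : CertN 0 536870912 536870912 536870912 50331648 16777216 3 true true false .pnp 0 1 2
    ndN0q0 ndN2q1 pcN2 cut_pm_012 Ext.none :=
  certNK2 (fam := true) (s1 := true) (s2 := false) (a := 0) (b := 1) (c := 2) (cn := .pnp) (n1 := ndN0q0) (n2 := ndN2q1) (pc := pcN2) (cut := cut_pm_012) (xt := Ext.none) (P1 := 0) (W1 := 536870912) (P2 := 536870912) (W2 := 536870912) (P3 := 50331648) (W3 := 16777216) (N0 := 3)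
    rfl rfl rfl (fun _ => rfl) s18_pm_012

noncomputable def cut_pm_022_a : Cut := Cut.of [[⟨0, 0, 0, 50331648⟩, ⟨1, 1, 0, 50331648⟩, ⟨2, 1, 0, 50331648⟩], [⟨0, 0, 1, 33554432⟩, ⟨1, 1, 0, 16777216⟩, ⟨2, 1, 1, 33554432⟩, ⟨0, 0, 0, 83886080⟩, ⟨0, 1, 0, 1040187392⟩, ⟨2, 1, 0, 83886080⟩, ⟨2, 2, 0, 1040187392⟩]]

noncomputable def f_pm_022_a : ℕ → ℕ → ℕ → ℕ → Bool := onCell 1073741824 536870912 0 536870912 50331648 16777216
    (rowNK 3 2 true true false .pp 0 2 2 (qsf 0 536870912 0 536870912 2) ndN0q0 ndN2q2a pcN2 cut_pm_022_a Ext.none)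

def k0_pm_022_a : ∃ t, chk3 f_pm_022_a t 2 2 1 = true :=
  ⟨(a (a (l 1) (a (l 1) (b (l 1) (l 18755208)))) (a (b (l 18824400) (l 18757240)) (l 18646096))), by decide +kernel⟩

def k1_pm_022_a : ∃ t, chk3 f_pm_022_a t 4 6 1 = true :=
  ⟨(a (l 1) (a (b (l 1) (a (b (l 1) (a (l 1) (b (l 17762264) (a (b (l 17667224) (l 17658136)) (l 17799288))))) (b (a (l 18083536) (l 18271680)) (a (b (l 18018808) (l 17962488)) (l 18152064))))) (b (l 176131361735) (b (l 18478224) (a (l 18302320) (l 18418392)))))), by decide +kernel⟩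

def k2_pm_022_a : ∃ t, chk3 f_pm_022_a t 8 7 1 = true :=
  ⟨(b (a (l 1) (a (b (l 1) (b (l 1) (b (a (l 1) (a (a (l 1) (l 16700432)) (b (a (l 16691152) (l 16690816)) (a (l 6) (l 16688696))))) (a (l 6) (a (l 6) (b (l 16697928) (l 16699744))))))) (b (b (l 1) (a (l 1) (b (a (l 1) (b (a (l 1) (l 16897344)) (a (b (l 16988952) (l 16882800)) (l 16997064)))) (a (a (b (l 1) (b (l 16745584) (l 16745072))) (b (b (l 16882384) (l 16797568)) (l 16837152))) (c (l 17237872) (l 16669568)))))) (b (a (b (a (l 1) (b (a (l 1) (l 16674792)) (a (l 16678056) (l 16675192)))) (b (a (a (l 1) (l 16684000)) (l 16698472)) (a (a (l 16687384) (l 16681832)) (l 16698872)))) (b (a (b (l 16727840) (l 16809080)) (l 16835816)) (a (l 16722024) (l 16844080)))) (a (b (a (b (l 16705280) (l 16705728)) (b (l 16699248) (l 16699624))) (a (b (l 16706168) (l 16706600)) (b (l 16699992) (l 16702048)))) (b (a (l 16739048) (l 16852984)) (a (l 16736104) (l 16841624)))))))) (a (l 6) (a (a (l 6) (a (l 6) (a (l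 6) (a (l 6) (b (b (b (b (l 16710208) (l 16714240)) (l 16713528)) (b (l 16709400) (l 16718632))) (b (b (l 16728144) (l 16737824)) (l 14))))))) (b (b (a (b (a (b (l 16708096) (l 16712464)) (b (l 16706448) (l 16710880))) (a (b (l 16716872) (l 16721608)) (b (l 16715360) (l 16720160)))) (b (a (l 16713280) (l 16810040)) (b (a (l 16796272) (l 16949416)) (l 16707264)))) (a (b (a (l 16728752) (l 16727408)) (a (l 16738064) (l 16736832))) (b (a (l 16797048) (l 16896608)) (a (l 16799312) (l 16868112))))) (b (b (a (a (l 16734512) (l 16730672)) (a (l 16761136) (l 16819768))) (l 14)) (l 14)))))), by decide +kernel⟩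

def k3_pm_022_a : ∃ t, chk3 f_pm_022_a t 9 7 1 = true :=
  ⟨(b (a (b (a (a (a (b (b (l 1) (b (l 17125576) (a (l 17092472) (l 17294576)))) (b (c (l 17523568) (l 16924048)) (l 17068480))) (b (b (c (l 17723016) (l 17142888)) (l 17342480)) (b (l 17402960) (l 17400544)))) (b (a (l 17583376) (l 17746568)) (a (l 17551400) (l 17689064)))) (a (b (l 17900064) (l 17836096)) (l 18017312))) (a (a (a (b (b (l 17070488) (l 17072840)) (b (l 17075600) (l 17036864))) (b (b (l 17377264) (l 17375128)) (b (l 17331256) (l 17308616)))) (b (b (l 17570336) (l 17542400)) (b (l 17514488) (l 17465648)))) (b (a (l 17770760) (l 17913224)) (a (l 17704056) (l 17840376))))) (b (a (l 18168584) (l 18295960)) (b (l 18138224) (l 18065136)))) (b (a (b (b (a (a (a (l 16998624) (l 17244336)) (l 17416848)) (l 17704344)) (a (a (b (l 16994696) (l 16964208)) (l 17284584)) (l 17522208))) (a (a (a (a (l 16860792) (l 16971696)) (a (l 17119208) (l 17240952))) (a (l 17300224) (l 17457392))) (a (l 17572432)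 (l 17694856)))) (b (a (l 17913352) (l 18056696)) (l 17917200))) (a (a (b (b (a (a (l 16937312) (l 17139704)) (l 17245936)) (a (l 14) (l 17114688))) (a (l 14) (a (l 14) (a (l 14) (l 17258528))))) (b (a (l 17463672) (l 17619664)) (a (b (l 17455896) (l 17339064)) (l 17544280)))) (a (b (l 17759744) (l 17679880)) (l 17870680))))), by decide +kernel⟩

def k4_pm_022_a : ∃ t, chk3 f_pm_022_a t 5 3 1 = true :=
  ⟨(b (a (b (l 18662792) (a (l 18542944) (l 18601912))) (b (l 18653504) (l 18666776))) (b (a (b (l 18471400) (l 18367104)) (l 18571112)) (b (a (b (l 18297040) (l 18245224)) (l 18499296)) (a (a (a (l 17997280) (a (l 18080896) (b (l 18163672) (l 18245640)))) (l 18249120)) (l 18471032))))), by decide +kernel⟩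

def k5_pm_022_a : ∃ t, chk3 f_pm_022_a t 3 1 1 = true :=
  ⟨(b (a (l 18565400) (l 18435304)) (b (a (b (l 18667520) (l 18750048)) (l 18627312)) (b (a (l 18785080) (l 18696792)) (b (a (l 18712456) (l 18717656)) (a (l 18728864) (l 18757056)))))), by decide +kernel⟩

theorem s6_pm_022_a : ∃ t, chk3 f_pm_022_a t 4 7 1 = true := ex3_a k2_pm_022_a k3_pm_022_a

theorem s7_pm_022_a : ∃ t, chk3 f_pm_022_a t 4 3 1 = true := ex3_b k1_pm_022_a s6_pm_022_a

theorem s8_pm_022_a : ∃ t, chk3 f_pm_022_a t 2 3 1 = true := ex3_a s7_pm_022_a k4_pm_022_a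

theorem s9_pm_022_a : ∃ t, chk3 f_pm_022_a t 2 1 1 = true := ex3_b k0_pm_022_a s8_pm_022_a

theorem s10_pm_022_a : ∃ t, chk3 f_pm_022_a t 1 1 1 = true := ex3_a s9_pm_022_a k5_pm_022_a

theorem c_pm_022_a : CertN 0 536870912 0 536870912 50331648 16777216 3 true true false .pp 0 2 2
    ndN0q0 ndN2q2a pcN2 cut_pm_022_a Ext.none :=
  certNK2 (fam := true) (s1 := true) (s2 := false) (a := 0) (b := 2) (c := 2) (cn := .pp) (n1 := ndN0q0) (n2 := ndN2q2a) (pc := pcN2) (cut := cut_pm_022_a) (xt := Ext.none) (P1 := 0) (W1 := 536870912) (P2 := 0) (W2 := 536870912) (P3 := 50331648) (W3 := 16777216) (N0 := 3)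
    rfl rfl rfl (fun _ => rfl) s10_pm_022_a

noncomputable def cut_pm_022_b : Cut := Cut.of [[⟨0, 0, 0, 50331648⟩, ⟨1, 1, 0, 50331648⟩, ⟨2, 1, 0, 50331648⟩], [⟨0, 0, 1, 33554432⟩, ⟨1, 1, 0, 16777216⟩, ⟨2, 1, 1, 33554432⟩, ⟨0, 0, 0, 83886080⟩, ⟨0, 1, 0, 1040187392⟩, ⟨2, 1, 0, 83886080⟩, ⟨2, 2, 0, 1040187392⟩]]

noncomputable def f_pm_022_b : ℕ → ℕ → ℕ → ℕ → Bool := onCell 1073741824 536870912 1239849684 370763052 50331648 16777216
    (rowNK 3 2 true true false .pp 0 2 2 (qsf 0 536870912 1239849684 370763052 2) ndN0q0 ndN2q2b pcN2 cut_pm_022_b Ext.none)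

def k0_pm_022_b : ∃ t, chk3 f_pm_022_b t 1 1 1 = true :=
  ⟨(a (b (a (l 1) (b (a (b (l 18872816) (l 1)) (l 18630936)) (l 161635915943))) (l 1)) (b (a (b (l 18406344) (l 18473672)) (b (l 18242768) (l 18476520))) (a (l 154119877431) (l 18667736)))), by decide +kernel⟩

theorem c_pm_022_b : CertN 0 536870912 1239849684 370763052 50331648 16777216 3 true true false .pp 0 2 2
    ndN0q0 ndN2q2b pcN2 cut_pm_022_b Ext.none :=
  certNK2 (fam := true) (s1 := true) (s2 := false) (a := 0) (b := 2) (c := 2) (cn := .pp) (n1 := ndN0q0) (n2 := ndN2q2b) (pc := pcN2) (cut := cut_pm_022_b) (xt := Ext.none) (P1 := 0) (W1 := 536870912) (P2 := 1239849684) (W2 := 370763052) (P3 := 50331648) (W3 := 16777216) (N0 := 3)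
    rfl rfl rfl (fun _ => rfl) k0_pm_022_b

noncomputable def f_pm_023_a : ℕ → ℕ → ℕ → ℕ → Bool := onCell 1610612736 536870912 0 536870912 50331648 16777216
    (rowNK 3 2 true true false .up 0 2 3 (qsf 0 536870912 0 536870912 3) ndN0q0 ndN2q2a pcN3 Cut.none Ext.none)

def k0_pm_023_a : ∃ t, chk3 f_pm_023_a t 1 1 1 = true :=
  ⟨(a (a (b (l 18153808) (b (l 18412560) (b (l 18319960) (b (l 18315272) (l 18158432))))) (b (l 18183632) (b (l 2) (l 2)))) (l 2)), by decide +kernel⟩

theorem c_pm_023_a : CertN 0 536870912 0 536870912 50331648 16777216 3 true true false .up 0 2 3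
    ndN0q0 ndN2q2a pcN3 Cut.none Ext.none :=
  certNK2 (fam := true) (s1 := true) (s2 := false) (a := 0) (b := 2) (c := 3) (cn := .up) (n1 := ndN0q0) (n2 := ndN2q2a) (pc := pcN3) (cut := Cut.none) (xt := Ext.none) (P1 := 0) (W1 := 536870912) (P2 := 0) (W2 := 536870912) (P3 := 50331648) (W3 := 16777216) (N0 := 3)
    rfl rfl rfl (fun _ => rfl) k0_pm_023_a

noncomputable def f_pm_023_b : ℕ → ℕ → ℕ → ℕ → Bool := onCell 1610612736 536870912 1239849684 370763052 50331648 16777216
    (rowNK 3 2 true true false .up 0 2 3 (qsf 0 536870912 1239849684 370763052 3) ndN0q0 ndN2q2b pcN3 Cut.none Ext.none)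

def k0_pm_023_b : ∃ t, chk3 f_pm_023_b t 1 1 1 = true :=
  ⟨(a (a (b (b (l 18212784) (l 18856736)) (l 19592008)) (b (b (l 18391976) (l 18986728)) (a (l 19591272) (l 19216544)))) (a (b (b (l 2) (a (l 18598656) (l 18099136))) (a (l 18644016) (l 18010896))) (b (l 2) (a (l 17730088) (a (l 17614432) (l 4)))))), by decide +kernel⟩

theorem c_pm_023_b : CertN 0 536870912 1239849684 370763052 50331648 16777216 3 true true false .up 0 2 3
    ndN0q0 ndN2q2b pcN3 Cut.none Ext.none :=
  certNK2 (fam := true) (s1 := true) (s2 := false) (a := 0) (b := 2) (c := 3) (cn := .up) (n1 := ndN0q0) (n2 := ndN2q2b) (pc := pcN3) (cut := Cut.none) (xt := Ext.none) (P1 := 0) (W1 := 536870912) (P2 := 1239849684) (W2 := 370763052) (P3 := 50331648) (W3 := 16777216) (N0 := 3)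
    rfl rfl rfl (fun _ => rfl) k0_pm_023_b

noncomputable def f_pm_033 : ℕ → ℕ → ℕ → ℕ → Bool := onCell 1610612736 536870912 1610612736 536870912 50331648 16777216
    (rowNK 3 2 true true false .pnn 0 3 3 (qsf 0 536870912 1610612736 536870912 3) ndN0q0 ndN2q3 pcN3 Cut.none Ext.none)

def k0_pm_033 : ∃ t, chk3 f_pm_033 t 1 1 1 = true :=
  ⟨(a (b (a (b (a (l 19396736) (l 19339224)) (a (l 1) (l 19549384))) (b (a (l 18859088) (l 18118576)) (a (l 18777296) (l 18050224)))) (a (l 1) (b (a (l 1) (l 17658440)) (l 1)))) (a (b (a (b (l 17459096) (l 17432616)) (b (l 17452240) (l 17149448))) (b (a (l 17374648) (l 17565504)) (a (l 1) (l 4)))) (b (a (b (l 17268976) (l 4)) (l 4)) (l 4)))), by decide +kernel⟩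

theorem c_pm_033 : CertN 0 536870912 1610612736 536870912 50331648 16777216 3 true true false .pnn 0 3 3
    ndN0q0 ndN2q3 pcN3 Cut.none Ext.none :=
  certNK2 (fam := true) (s1 := true) (s2 := false) (a := 0) (b := 3) (c := 3) (cn := .pnn) (n1 := ndN0q0) (n2 := ndN2q3) (pc := pcN3) (cut := Cut.none) (xt := Ext.none) (P1 := 0) (W1 := 536870912) (P2 := 1610612736) (W2 := 536870912) (P3 := 50331648) (W3 := 16777216) (N0 := 3)
    rfl rfl rfl (fun _ => rfl) k0_pm_033

noncomputable def cut_pm_101 : Cut := Cut.of [[⟨0, 1, 0, 50331648⟩, ⟨1, 0, 0, 50331648⟩, ⟨2, 1, 0, 50331648⟩]]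

noncomputable def f_pm_101 : ℕ → ℕ → ℕ → ℕ → Bool := onCell 536870912 536870912 0 536870912 50331648 16777216
    (rowNK 3 2 true true false .npn 1 0 1 (qsf 536870912 536870912 0 536870912 1) ndN0q1 ndN2q0 pcN1 cut_pm_101 Ext.none)

def k0_pm_101 : ∃ t, chk3 f_pm_101 t 1 1 1 = true :=
  ⟨(a (l 3) (a (l 3) (a (b (l 3) (l 3)) (a (b (l 3) (l 3)) (b (a (b (l 3) (l 3)) (b (b (b (a (l 3) (l 6)) (l 105932294071)) (l 17627960)) (l 109692377367))) (b (l 18478696) (l 18698464))))))), by decide +kernel⟩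

theorem c_pm_101 : CertN 536870912 536870912 0 536870912 50331648 16777216 3 true true false .npn 1 0 1
    ndN0q1 ndN2q0 pcN1 cut_pm_101 Ext.none :=
  certNK2 (fam := true) (s1 := true) (s2 := false) (a := 1) (b := 0) (c := 1) (cn := .npn) (n1 := ndN0q1) (n2 := ndN2q0) (pc := pcN1) (cut := cut_pm_101) (xt := Ext.none) (P1 := 536870912) (W1 := 536870912) (P2 := 0) (W2 := 536870912) (P3 := 50331648) (W3 := 16777216) (N0 := 3)
    rfl rfl rfl (fun _ => rfl) k0_pm_101

noncomputable def cut_pm_102 : Cut := Cut.of [[⟨0, 1, 0, 50331648⟩, ⟨1, 0, 0, 50331648⟩, ⟨2, 1, 0, 50331648⟩]]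

noncomputable def f_pm_102 : ℕ → ℕ → ℕ → ℕ → Bool := onCell 536870912 536870912 1073741824 536870912 50331648 16777216
    (rowNK 3 1 true true false .npp 1 0 2 (qsf 536870912 536870912 0 536870912 2) ndN0q1 ndN2q0 pcN2 cut_pm_102 Ext.none)

def k0_pm_102 : ∃ t, chk3 f_pm_102 t 1 1 1 = true :=
  ⟨(a (a (b (b (b (b (b (l 18891144) (l 18904136)) (l 18980528)) (l 18994736)) (l 18602104)) (l 2)) (b (b (b (b (b (l 18639736) (l 18669264)) (l 18771448)) (l 18841360)) (l 18587952)) (b (l 18137024) (l 2)))) (b (b (b (b (b (a (l 18272832) (a (l 17536544) (a (l 17205704) (a (b (l 6) (l 17019096)) (l 6))))) (a (a (l 18287576) (l 18008360)) (a (b (l 17568880) (l 17609656)) (b (a (l 17236904) (a (l 17065840) (l 6))) (a (l 17276960) (a (l 17106248) (l 17004232))))))) (a (b (l 18248712) (l 18325160)) (a (b (l 17668360) (l 17749704)) (b (a (l 17335144) (a (l 17185456) (l 17069736))) (a (l 17416808) (l 17260136)))))) (a (b (l 18397728) (l 18372840)) (a (b (l 17831960) (l 17829552))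 (b (a (l 17503136) (l 17453944)) (l 17514048))))) (a (l 18297016) (a (l 17801632) (l 17808288)))) (b (a (l 18043624) (b (l 17655640) (l 17684872))) (a (l 17819336) (l 17921936))))), by decide +kernel⟩

theorem c_pm_102 : CertN 536870912 536870912 0 536870912 50331648 16777216 3 true true false .npp 1 0 2
    ndN0q1 ndN2q0 pcN2 cut_pm_102 Ext.none :=
  certNK1 (fam := true) (s1 := true) (s2 := false) (a := 1) (b := 0) (c := 2) (cn := .npp) (n1 := ndN0q1) (n2 := ndN2q0) (pc := pcN2) (cut := cut_pm_102) (xt := Ext.none) (P1 := 536870912) (W1 := 536870912) (P2 := 0) (W2 := 536870912) (P3 := 50331648) (W3 := 16777216) (N0 := 3)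
    rfl rfl rfl (fun _ => rfl) k0_pm_102

noncomputable def f_pm_112 : ℕ → ℕ → ℕ → ℕ → Bool := onCell 1073741824 536870912 536870912 536870912 50331648 16777216
    (rowNK 3 2 true true false .dn 1 1 2 (qsf 536870912 536870912 536870912 536870912 2) ndN0q1 ndN2q1 pcN2 Cut.none Ext.none)

def k0_pm_112 : ∃ t, chk3 f_pm_112 t 1 1 1 = true :=
  ⟨(a (b (b (a (a (a (a (l 18315720) (l 18240952)) (l 18140328)) (l 17968608)) (a (l 17680016) (l 17521336))) (a (a (l 1) (a (l 1) (l 17678216))) (a (l 17539704) (l 17073872)))) (a (l 1) (b (a (l 1) (l 17775576)) (l 1)))) (b (a (b (a (l 17642136) (l 18216800)) (l 17626824)) (b (a (l 18622824) (l 18712752)) (l 18083136))) (b (a (l 286187671975) (l 17784968)) (b (a (l 18881504) (l 18417904)) (b (l 416650817127) (b (l 427388685687) (l 435441975207))))))), by decide +kernel⟩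

theorem c_pm_112 : CertN 536870912 536870912 536870912 536870912 50331648 16777216 3 true true false .dn 1 1 2
    ndN0q1 ndN2q1 pcN2 Cut.none Ext.none :=
  certNK2 (fam := true) (s1 := true) (s2 := false) (a := 1) (b := 1) (c := 2) (cn := .dn) (n1 := ndN0q1) (n2 := ndN2q1) (pc := pcN2) (cut := Cut.none) (xt := Ext.none) (P1 := 536870912) (W1 := 536870912) (P2 := 536870912) (W2 := 536870912) (P3 := 50331648) (W3 := 16777216) (N0 := 3)
    rfl rfl rfl (fun _ => rfl) k0_pm_112

noncomputable def f_pm_113 : ℕ → ℕ → ℕ → ℕ → Bool := onCell 1610612736 536870912 536870912 536870912 50331648 16777216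
    (rowNK 3 2 true true false .nn 1 1 3 (qsf 536870912 536870912 536870912 536870912 3) ndN0q1 ndN2q1 pcN3 Cut.none Ext.none)

def k0_pm_113 : ∃ t, chk3 f_pm_113 t 1 1 1 = true :=
  ⟨(a (b (a (b (a (l 19610888) (a (l 18924880) (l 18653256))) (a (l 19725584) (l 18815032))) (b (a (b (l 2) (a (l 18398240) (l 2))) (l 2)) (a (a (l 18153344) (l 17893560)) (a (l 17821832) (l 4))))) (a (b (a (l 19544616) (l 18741896)) (b (a (l 19295584) (l 18835624)) (b (l 18995256) (b (l 18991472) (l 18971464))))) (b (a (l 17774208) (a (l 17136048) (l 17273504))) (b (a (l 17730640) (l 18058792)) (b (a (l 17847672) (l 18293504)) (b (l 18160400) (l 18015016))))))) (b (a (b (l 2) (b (l 2) (l 4))) (l 2)) (a (a (b (a (l 17250632) (l 4)) (b (l 18299128) (b (l 18670952) (b (l 18759568) (l 18760208))))) (b (l 4) (l 4))) (b (l 4) (l 4))))), by decide +kernel⟩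

theorem c_pm_113 : CertN 536870912 536870912 536870912 536870912 50331648 16777216 3 true true false .nn 1 1 3
    ndN0q1 ndN2q1 pcN3 Cut.none Ext.none :=
  certNK2 (fam := true) (s1 := true) (s2 := false) (a := 1) (b := 1) (c := 3) (cn := .nn) (n1 := ndN0q1) (n2 := ndN2q1) (pc := pcN3) (cut := Cut.none) (xt := Ext.none) (P1 := 536870912) (W1 := 536870912) (P2 := 536870912) (W2 := 536870912) (P3 := 50331648) (W3 := 16777216) (N0 := 3)
    rfl rfl rfl (fun _ => rfl) k0_pm_113

noncomputable def cut_pm_123_a : Cut := Cut.of [[⟨0, 1, 0, 14341072⟩, ⟨1, 1, 0, 14341072⟩, ⟨2, 2, 0, 761489⟩]]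

noncomputable def f_pm_123_a : ℕ → ℕ → ℕ → ℕ → Bool := onCell 1610612736 536870912 0 536870912 50331648 16777216
    (rowNK 3 2 true true false .npn 1 2 3 (qsf 536870912 536870912 0 536870912 3) ndN0q1 ndN2q2a pcN3 cut_pm_123_a Ext.none)

def k0_pm_123_a : ∃ t, chk3 f_pm_123_a t 2 1 1 = true :=
  ⟨(b (a (l 18163584) (l 18183624)) (b (a (l 1110848039) (l 18561040)) (b (a (l 18383808) (l 18386344)) (b (a (l 18336384) (l 18458536)) (a (l 18158376) (l 18324240)))))), by decide +kernel⟩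

def k1_pm_123_a : ∃ t, chk3 f_pm_123_a t 3 2 1 = true :=
  ⟨(a (a (l 18015696) (l 17698312)) (a (a (l 17339032) (l 17171200)) (a (b (l 16989048) (l 17060096)) (a (l 16964672) (a (l 17003848) (l 4)))))), by decide +kernel⟩

def k2_pm_123_a : ∃ t, chk3 f_pm_123_a t 6 3 1 = true :=
  ⟨(b (a (l 18221984) (b (l 17884240) (l 18049688))) (b (a (l 18311592) (l 18144208)) (b (a (l 18341008) (l 18242000)) (a (l 18382880) (l 18299592))))), by decide +kernel⟩

def k3_pm_123_a : ∃ t, chk3 f_pm_123_a t 7 3 1 = true :=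
  ⟨(b (a (a (l 17856904) (b (l 17251584) (l 17447920))) (a (b (l 17012064) (l 17367888)) (a (b (l 16799992) (l 17038200)) (a (b (l 16844656) (l 16833656)) (a (b (l 16878440) (l 16804056)) (a (l 118347180647) (l 4))))))) (a (b (b (l 17741048) (l 17937224)) (b (b (l 17833376) (l 17877776)) (a (l 18035464) (b (l 17773008) (l 17963392))))) (b (a (b (l 17267192) (l 17401944)) (a (b (l 16960632) (l 17033304)) (a (b (l 16869536) (l 16882704)) (a (b (l 16837544) (l 16899896)) (b (l 17040928) (a (l 16803568) (l 82913520503))))))) (a (b (b (l 17342344) (l 17389024)) (b (l 17519960) (a (l 17579344) (b (l 17376936) (l 17545704))))) (b (a (b (l 17067144) (l 17084424)) (a (b (l 16891944) (l 16919944)) (a (b (l 16827312) (l 16844768)) (b (a (l 16807960) (a (l 16802856) (l 16925328))) (a (l 16809456) (a (l 16805648) (a (l 16795008) (l 16798632)))))))) (a (b (l 17122456) (b (l 17154224) (a (l 17234320) (a (l 17145440) (l 17081960))))) (a (b (l 16946736) (b (l 16969456) (b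 (l 16981808) (a (l 17022440) (a (l 16972448) (l 16937584)))))) (a (b (l 16857360) (b (l 16872208) (b (l 16880376) (b (l 16884664) (a (l 16904560) (a (l 16878016) (l 16859720))))))) (a (b (l 16814752) (b (l 16823600) (b (l 16828568) (b (l 16831200) (b (l 16832552) (a (l 16842208) (a (l 16828520) (l 16819136)))))))) (a (b (l 16799248) (b (l 16800200) (b (l 16802840) (b (l 16804272) (b (l 16805008) (b (l 16805392) (a (l 16810080) (a (l 16803120) (l 16798368))))))))) (b (a (l 16793400) (l 16842752)) (a (b (l 16789944) (b (l 16790336) (b (l 16790912) (b (l 16791224) (b (l 16791384) (b (l 16791464) (a (l 16793752) (a (l 16790240) (l 6))))))))) (l 6))))))))))))), by decide +kernel⟩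

theorem s4_pm_123_a : ∃ t, chk3 f_pm_123_a t 3 3 1 = true := ex3_a k2_pm_123_a k3_pm_123_a

theorem s5_pm_123_a : ∃ t, chk3 f_pm_123_a t 3 1 1 = true := ex3_b k1_pm_123_a s4_pm_123_a

theorem s6_pm_123_a : ∃ t, chk3 f_pm_123_a t 1 1 1 = true := ex3_a k0_pm_123_a s5_pm_123_a

theorem c_pm_123_a : CertN 536870912 536870912 0 536870912 50331648 16777216 3 true true false .npn 1 2 3
    ndN0q1 ndN2q2a pcN3 cut_pm_123_a Ext.none :=
  certNK2 (fam := true) (s1 := true) (s2 := false) (a := 1) (b := 2) (c := 3) (cn := .npn) (n1 := ndN0q1) (n2 := ndN2q2a) (pc := pcN3) (cut := cut_pm_123_a) (xt := Ext.none) (P1 := 536870912) (W1 := 536870912) (P2 := 0) (W2 := 536870912) (P3 := 50331648) (W3 := 16777216) (N0 := 3)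
    rfl rfl rfl (fun _ => rfl) s6_pm_123_a

noncomputable def cut_pm_123_b : Cut := Cut.of [[⟨0, 1, 0, 14341072⟩, ⟨1, 1, 0, 14341072⟩, ⟨2, 2, 0, 761489⟩]]

noncomputable def f_pm_123_b : ℕ → ℕ → ℕ → ℕ → Bool := onCell 1610612736 536870912 1239849684 370763052 50331648 16777216
    (rowNK 3 2 true true false .npn 1 2 3 (qsf 536870912 536870912 1239849684 370763052 3) ndN0q1 ndN2q2b pcN3 cut_pm_123_b Ext.none)

def k0_pm_123_b : ∃ t, chk3 f_pm_123_b t 1 1 1 = true :=
  ⟨(a (b (a (l 1) (b (l 18519344) (l 18989864))) (l 1)) (a (b (a (b (l 18213424) (l 18598624)) (b (l 17826816) (l 18099152))) (a (l 1) (l 18003864))) (a (b (b (a (l 17496840) (l 17314384)) (l 17604968)) (b (l 17724480) (l 17701168))) (b (a (b (l 17209288) (l 17497920)) (a (l 17447256) (a (b (l 17230320) (l 4)) (l 4)))) (a (l 17614288) (l 4)))))), by decide +kernel⟩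

theorem c_pm_123_b : CertN 536870912 536870912 1239849684 370763052 50331648 16777216 3 true true false .npn 1 2 3
    ndN0q1 ndN2q2b pcN3 cut_pm_123_b Ext.none :=
  certNK2 (fam := true) (s1 := true) (s2 := false) (a := 1) (b := 2) (c := 3) (cn := .npn) (n1 := ndN0q1) (n2 := ndN2q2b) (pc := pcN3) (cut := cut_pm_123_b) (xt := Ext.none) (P1 := 536870912) (W1 := 536870912) (P2 := 1239849684) (W2 := 370763052) (P3 := 50331648) (W3 := 16777216) (N0 := 3)
    rfl rfl rfl (fun _ => rfl) k0_pm_123_b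

noncomputable def f_pm_133 : ℕ → ℕ → ℕ → ℕ → Bool := onCell 536870912 536870912 1610612736 536870912 50331648 16777216
    (rowNK 3 0 true true false .dn 1 3 3 (qsf 536870912 536870912 1610612736 536870912 3) ndN0q1 ndN2q3 pcN3 Cut.none Ext.none)

def k0_pm_133 : ∃ t, chk3 f_pm_133 t 1 1 1 = true :=
  ⟨(a (l 4) (l 2)), by decide +kernel⟩

theorem c_pm_133 : CertN 536870912 536870912 1610612736 536870912 50331648 16777216 3 true true false .dn 1 3 3
    ndN0q1 ndN2q3 pcN3 Cut.none Ext.none :=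
  certNK0 (fam := true) (s1 := true) (s2 := false) (a := 1) (b := 3) (c := 3) (cn := .dn) (n1 := ndN0q1) (n2 := ndN2q3) (pc := pcN3) (cut := Cut.none) (xt := Ext.none) (P1 := 536870912) (W1 := 536870912) (P2 := 1610612736) (W2 := 536870912) (P3 := 50331648) (W3 := 16777216) (N0 := 3)
    rfl rfl rfl k0_pm_133

noncomputable def cut_pm_202 : Cut := Cut.of [[⟨0, 1, 0, 50331648⟩, ⟨1, 0, 0, 50331648⟩, ⟨2, 1, 0, 50331648⟩]]

noncomputable def f_pm_202 : ℕ → ℕ → ℕ → ℕ → Bool := onCell 0 536870912 0 536870912 50331648 16777216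
    (rowNK 3 0 true true false .pp 2 0 2 (qsf 0 536870912 0 536870912 2) ndN0q2 ndN2q0 pcN2 cut_pm_202 Ext.none)

def k0_pm_202 : ∃ t, chk3 f_pm_202 t 1 1 1 = true :=
  ⟨(a (b (b (b (a (l 18713856) (b (a (l 18673016) (l 18656360)) (l 18412864))) (l 18118392)) (b (l 17482736) (l 17587936))) (b (b (l 17975776) (l 18383624)) (b (l 17801368) (l 2)))) (b (a (b (b (b (b (a (l 18606456) (b (a (l 18368360) (b (a (l 18113800) (l 17883136)) (l 18058480))) (l 18261464))) (l 18548776)) (l 18328376)) (l 18099416)) (b (l 17771048) (l 17404512))) (b (a (b (b (b (a (b (b (a (b (l 17390048) (l 17614224)) (a (l 17134272) (l 16882936))) (l 17507120)) (l 17678448)) (b (b (b (a (a (l 16785904) (l 16775000)) (a (l 16781680) (l 6))) (a (l 16773056) (l 16776008))) (a (l 16887752) (l 16761512))) (l 16859448))) (a (l 17873192) (b (l 17259344) (l 17480280)))) (b (l 17853984) (l 17945672))) (l 17984464)) (b (a (b (b (a (b (l 6) (l 16782952)) (l 6)) (a (l 16822248) (l 16969352))) (b (l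 17243680) (l 17562856))) (b (a (b (l 6) (b (l 6) (l 16883120))) (l 6)) (b (a (l 16936832) (b (l 16954448) (l 16996696))) (l 17232624)))) (b (a (l 17772624) (l 17596936)) (l 17823440)))) (b (l 17872280) (l 17723672)))) (b (a (l 17739304) (b (l 17479296) (l 17592472))) (a (b (l 18393800) (l 2)) (l 18284872))))), by decide +kernel⟩

theorem c_pm_202 : CertN 0 536870912 0 536870912 50331648 16777216 3 true true false .pp 2 0 2
    ndN0q2 ndN2q0 pcN2 cut_pm_202 Ext.none :=
  certNK0 (fam := true) (s1 := true) (s2 := false) (a := 2) (b := 0) (c := 2) (cn := .pp) (n1 := ndN0q2) (n2 := ndN2q0) (pc := pcN2) (cut := cut_pm_202) (xt := Ext.none) (P1 := 0) (W1 := 536870912) (P2 := 0) (W2 := 536870912) (P3 := 50331648) (W3 := 16777216) (N0 := 3)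
    rfl rfl rfl k0_pm_202

noncomputable def f_pm_203 : ℕ → ℕ → ℕ → ℕ → Bool := onCell 0 536870912 1610612736 536870912 50331648 16777216
    (rowNK 3 1 true true false .up 2 0 3 (qsf 0 536870912 0 536870912 3) ndN0q2 ndN2q0 pcN3 Cut.none Ext.none)

def k0_pm_203 : ∃ t, chk3 f_pm_203 t 1 1 1 = true :=
  ⟨(b (b (a (b (l 18601744) (l 4)) (b (a (l 18245152) (l 17645832)) (l 76474365847))) (a (l 4) (b (l 18509368) (l 2)))) (l 2)), by decide +kernel⟩

theorem c_pm_203 : CertN 0 536870912 0 536870912 50331648 16777216 3 true true false .up 2 0 3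
    ndN0q2 ndN2q0 pcN3 Cut.none Ext.none :=
  certNK1 (fam := true) (s1 := true) (s2 := false) (a := 2) (b := 0) (c := 3) (cn := .up) (n1 := ndN0q2) (n2 := ndN2q0) (pc := pcN3) (cut := Cut.none) (xt := Ext.none) (P1 := 0) (W1 := 536870912) (P2 := 0) (W2 := 536870912) (P3 := 50331648) (W3 := 16777216) (N0 := 3)
    rfl rfl rfl (fun _ => rfl) k0_pm_203

noncomputable def f_pm_213 : ℕ → ℕ → ℕ → ℕ → Bool := onCell 0 536870912 1610612736 536870912 50331648 16777216
    (rowNK 3 1 true true false .pnn 2 1 3 (qsf 0 536870912 536870912 536870912 3) ndN0q2 ndN2q1 pcN3 Cut.none Ext.none)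

def k0_pm_213 : ∃ t, chk3 f_pm_213 t 1 1 1 = true :=
  ⟨(b (b (a (b (l 1) (l 4)) (b (a (l 1) (l 19230144)) (a (l 18264504) (l 18575088)))) (a (l 4) (b (l 18138432) (l 4)))) (l 4)), by decide +kernel⟩

theorem c_pm_213 : CertN 0 536870912 536870912 536870912 50331648 16777216 3 true true false .pnn 2 1 3
    ndN0q2 ndN2q1 pcN3 Cut.none Ext.none :=
  certNK1 (fam := true) (s1 := true) (s2 := false) (a := 2) (b := 1) (c := 3) (cn := .pnn) (n1 := ndN0q2) (n2 := ndN2q1) (pc := pcN3) (cut := Cut.none) (xt := Ext.none) (P1 := 0) (W1 := 536870912) (P2 := 536870912) (W2 := 536870912) (P3 := 50331648) (W3 := 16777216) (N0 := 3)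
    rfl rfl rfl (fun _ => rfl) k0_pm_213

noncomputable def f_mm_001 : ℕ → ℕ → ℕ → ℕ → Bool := onCell 0 536870912 0 536870912 50331648 16777216
    (rowNK 3 0 true false false .up 0 0 1 (qsf 0 536870912 0 536870912 1) ndN0q0 ndN2q0 pcN1 Cut.none Ext.none)

def k0_mm_001 : ∃ t, chk3 f_mm_001 t 1 1 1 = true :=
  ⟨(l 4), by decide +kernel⟩

theorem c_mm_001 : CertN 0 536870912 0 536870912 50331648 16777216 3 true false false .up 0 0 1
    ndN0q0 ndN2q0 pcN1 Cut.none Ext.none :=
  certNK0 (fam := true) (s1 := false) (s2 := false) (a := 0) (b := 0) (c := 1) (cn := .up) (n1 := ndN0q0) (n2 := ndN2q0) (pc := pcN1) (cut := Cut.none) (xt := Ext.none) (P1 := 0) (W1 := 536870912) (P2 := 0) (W2 := 536870912) (P3 := 50331648) (W3 := 16777216) (N0 := 3)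
    rfl rfl rfl k0_mm_001

noncomputable def f_mm_011 : ℕ → ℕ → ℕ → ℕ → Bool := onCell 0 536870912 536870912 536870912 50331648 16777216
    (rowNK 3 0 true false false .pnn 0 1 1 (qsf 0 536870912 536870912 536870912 1) ndN0q0 ndN2q1 pcN1 Cut.none Ext.none)

def k0_mm_011 : ∃ t, chk3 f_mm_011 t 1 1 1 = true :=
  ⟨(l 4), by decide +kernel⟩

theorem c_mm_011 : CertN 0 536870912 536870912 536870912 50331648 16777216 3 true false false .pnn 0 1 1
    ndN0q0 ndN2q1 pcN1 Cut.none Ext.none :=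
  certNK0 (fam := true) (s1 := false) (s2 := false) (a := 0) (b := 1) (c := 1) (cn := .pnn) (n1 := ndN0q0) (n2 := ndN2q1) (pc := pcN1) (cut := Cut.none) (xt := Ext.none) (P1 := 0) (W1 := 536870912) (P2 := 536870912) (W2 := 536870912) (P3 := 50331648) (W3 := 16777216) (N0 := 3)
    rfl rfl rfl k0_mm_011

noncomputable def f_mm_012 : ℕ → ℕ → ℕ → ℕ → Bool := onCell 0 536870912 536870912 536870912 50331648 16777216
    (rowNK 3 0 true false false .pnp 0 1 2 (qsf 0 536870912 536870912 536870912 2) ndN0q0 ndN2q1 pcN2 Cut.none Ext.none)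

def k0_mm_012 : ∃ t, chk3 f_mm_012 t 1 1 1 = true :=
  ⟨(l 4), by decide +kernel⟩

theorem c_mm_012 : CertN 0 536870912 536870912 536870912 50331648 16777216 3 true false false .pnp 0 1 2
    ndN0q0 ndN2q1 pcN2 Cut.none Ext.none :=
  certNK0 (fam := true) (s1 := false) (s2 := false) (a := 0) (b := 1) (c := 2) (cn := .pnp) (n1 := ndN0q0) (n2 := ndN2q1) (pc := pcN2) (cut := Cut.none) (xt := Ext.none) (P1 := 0) (W1 := 536870912) (P2 := 536870912) (W2 := 536870912) (P3 := 50331648) (W3 := 16777216) (N0 := 3)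
    rfl rfl rfl k0_mm_012

noncomputable def f_mm_022_a : ℕ → ℕ → ℕ → ℕ → Bool := onCell 0 536870912 0 536870912 50331648 16777216
    (rowNK 3 0 true false false .pp 0 2 2 (qsf 0 536870912 0 536870912 2) ndN0q0 ndN2q2a pcN2 Cut.none Ext.none)

def k0_mm_022_a : ∃ t, chk3 f_mm_022_a t 1 1 1 = true :=
  ⟨(l 5), by decide +kernel⟩

theorem c_mm_022_a : CertN 0 536870912 0 536870912 50331648 16777216 3 true false false .pp 0 2 2
    ndN0q0 ndN2q2a pcN2 Cut.none Ext.none :=
  certNK0 (fam := true) (s1 := false) (s2 := false) (a := 0) (b := 2) (c := 2) (cn := .pp) (n1 := ndN0q0) (n2 := ndN2q2a) (pc := pcN2) (cut := Cut.none) (xt := Ext.none) (P1 := 0) (W1 := 536870912) (P2 := 0) (W2 := 536870912) (P3 := 50331648) (W3 := 16777216) (N0 := 3)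
    rfl rfl rfl k0_mm_022_a

noncomputable def f_mm_022_b : ℕ → ℕ → ℕ → ℕ → Bool := onCell 0 536870912 1239849684 370763052 50331648 16777216
    (rowNK 3 0 true false false .pp 0 2 2 (qsf 0 536870912 1239849684 370763052 2) ndN0q0 ndN2q2b pcN2 Cut.none Ext.none)

def k0_mm_022_b : ∃ t, chk3 f_mm_022_b t 1 1 1 = true :=
  ⟨(l 4), by decide +kernel⟩

theorem c_mm_022_b : CertN 0 536870912 1239849684 370763052 50331648 16777216 3 true false false .pp 0 2 2
    ndN0q0 ndN2q2b pcN2 Cut.none Ext.none :=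
  certNK0 (fam := true) (s1 := false) (s2 := false) (a := 0) (b := 2) (c := 2) (cn := .pp) (n1 := ndN0q0) (n2 := ndN2q2b) (pc := pcN2) (cut := Cut.none) (xt := Ext.none) (P1 := 0) (W1 := 536870912) (P2 := 1239849684) (W2 := 370763052) (P3 := 50331648) (W3 := 16777216) (N0 := 3)
    rfl rfl rfl k0_mm_022_b

noncomputable def f_mm_023_a : ℕ → ℕ → ℕ → ℕ → Bool := onCell 0 536870912 0 536870912 50331648 16777216
    (rowNK 3 0 true false false .up 0 2 3 (qsf 0 536870912 0 536870912 3) ndN0q0 ndN2q2a pcN3 Cut.none Ext.none)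

def k0_mm_023_a : ∃ t, chk3 f_mm_023_a t 1 1 1 = true :=
  ⟨(l 5), by decide +kernel⟩

theorem c_mm_023_a : CertN 0 536870912 0 536870912 50331648 16777216 3 true false false .up 0 2 3
    ndN0q0 ndN2q2a pcN3 Cut.none Ext.none :=
  certNK0 (fam := true) (s1 := false) (s2 := false) (a := 0) (b := 2) (c := 3) (cn := .up) (n1 := ndN0q0) (n2 := ndN2q2a) (pc := pcN3) (cut := Cut.none) (xt := Ext.none) (P1 := 0) (W1 := 536870912) (P2 := 0) (W2 := 536870912) (P3 := 50331648) (W3 := 16777216) (N0 := 3)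
    rfl rfl rfl k0_mm_023_a

noncomputable def f_mm_023_b : ℕ → ℕ → ℕ → ℕ → Bool := onCell 0 536870912 1239849684 370763052 50331648 16777216
    (rowNK 3 0 true false false .up 0 2 3 (qsf 0 536870912 1239849684 370763052 3) ndN0q0 ndN2q2b pcN3 Cut.none Ext.none)

def k0_mm_023_b : ∃ t, chk3 f_mm_023_b t 1 1 1 = true :=
  ⟨(l 4), by decide +kernel⟩

theorem c_mm_023_b : CertN 0 536870912 1239849684 370763052 50331648 16777216 3 true false false .up 0 2 3
    ndN0q0 ndN2q2b pcN3 Cut.none Ext.none :=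
  certNK0 (fam := true) (s1 := false) (s2 := false) (a := 0) (b := 2) (c := 3) (cn := .up) (n1 := ndN0q0) (n2 := ndN2q2b) (pc := pcN3) (cut := Cut.none) (xt := Ext.none) (P1 := 0) (W1 := 536870912) (P2 := 1239849684) (W2 := 370763052) (P3 := 50331648) (W3 := 16777216) (N0 := 3)
    rfl rfl rfl k0_mm_023_b

noncomputable def f_mm_033 : ℕ → ℕ → ℕ → ℕ → Bool := onCell 0 536870912 1610612736 536870912 50331648 16777216
    (rowNK 3 0 true false false .pnn 0 3 3 (qsf 0 536870912 1610612736 536870912 3) ndN0q0 ndN2q3 pcN3 Cut.none Ext.none)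

def k0_mm_033 : ∃ t, chk3 f_mm_033 t 1 1 1 = true :=
  ⟨(l 4), by decide +kernel⟩

theorem c_mm_033 : CertN 0 536870912 1610612736 536870912 50331648 16777216 3 true false false .pnn 0 3 3
    ndN0q0 ndN2q3 pcN3 Cut.none Ext.none :=
  certNK0 (fam := true) (s1 := false) (s2 := false) (a := 0) (b := 3) (c := 3) (cn := .pnn) (n1 := ndN0q0) (n2 := ndN2q3) (pc := pcN3) (cut := Cut.none) (xt := Ext.none) (P1 := 0) (W1 := 536870912) (P2 := 1610612736) (W2 := 536870912) (P3 := 50331648) (W3 := 16777216) (N0 := 3)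
    rfl rfl rfl k0_mm_033

noncomputable def cut_mm_101 : Cut := Cut.of [[⟨0, 1, 0, 50331648⟩, ⟨1, 0, 0, 50331648⟩, ⟨2, 1, 0, 50331648⟩]]

noncomputable def f_mm_101 : ℕ → ℕ → ℕ → ℕ → Bool := onCell 536870912 536870912 0 536870912 50331648 16777216
    (rowNK 3 0 true false false .npn 1 0 1 (qsf 536870912 536870912 0 536870912 1) ndN0q1 ndN2q0 pcN1 cut_mm_101 Ext.none)

def k0_mm_101 : ∃ t, chk3 f_mm_101 t 1 1 1 = true :=
  ⟨(a (l 4) (b (a (l 4) (b (a (l 4) (a (l 4) (b (b (l 6) (l 4)) (l 2)))) (l 4))) (l 4))), by decide +kernel⟩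

theorem c_mm_101 : CertN 536870912 536870912 0 536870912 50331648 16777216 3 true false false .npn 1 0 1
    ndN0q1 ndN2q0 pcN1 cut_mm_101 Ext.none :=
  certNK0 (fam := true) (s1 := false) (s2 := false) (a := 1) (b := 0) (c := 1) (cn := .npn) (n1 := ndN0q1) (n2 := ndN2q0) (pc := pcN1) (cut := cut_mm_101) (xt := Ext.none) (P1 := 536870912) (W1 := 536870912) (P2 := 0) (W2 := 536870912) (P3 := 50331648) (W3 := 16777216) (N0 := 3)
    rfl rfl rfl k0_mm_101

noncomputable def cut_mm_102 : Cut := Cut.of [[⟨0, 1, 0, 50331648⟩, ⟨1, 0, 0, 50331648⟩, ⟨2, 1, 0, 50331648⟩]]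

noncomputable def f_mm_102 : ℕ → ℕ → ℕ → ℕ → Bool := onCell 536870912 536870912 0 536870912 50331648 16777216
    (rowNK 3 0 true false false .npp 1 0 2 (qsf 536870912 536870912 0 536870912 2) ndN0q1 ndN2q0 pcN2 cut_mm_102 Ext.none)

def k0_mm_102 : ∃ t, chk3 f_mm_102 t 1 1 1 = true :=
  ⟨(a (l 4) (b (a (l 4) (b (a (l 4) (a (l 4) (b (b (l 6) (l 4)) (l 4)))) (l 4))) (l 4))), by decide +kernel⟩

theorem c_mm_102 : CertN 536870912 536870912 0 536870912 50331648 16777216 3 true false false .npp 1 0 2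
    ndN0q1 ndN2q0 pcN2 cut_mm_102 Ext.none :=
  certNK0 (fam := true) (s1 := false) (s2 := false) (a := 1) (b := 0) (c := 2) (cn := .npp) (n1 := ndN0q1) (n2 := ndN2q0) (pc := pcN2) (cut := cut_mm_102) (xt := Ext.none) (P1 := 536870912) (W1 := 536870912) (P2 := 0) (W2 := 536870912) (P3 := 50331648) (W3 := 16777216) (N0 := 3)
    rfl rfl rfl k0_mm_102

noncomputable def f_mm_112 : ℕ → ℕ → ℕ → ℕ → Bool := onCell 536870912 536870912 536870912 536870912 50331648 16777216
    (rowNK 3 0 true false false .dn 1 1 2 (qsf 536870912 536870912 536870912 536870912 2) ndN0q1 ndN2q1 pcN2 Cut.none Ext.none)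

def k0_mm_112 : ∃ t, chk3 f_mm_112 t 1 1 1 = true :=
  ⟨(l 4), by decide +kernel⟩

theorem c_mm_112 : CertN 536870912 536870912 536870912 536870912 50331648 16777216 3 true false false .dn 1 1 2
    ndN0q1 ndN2q1 pcN2 Cut.none Ext.none :=
  certNK0 (fam := true) (s1 := false) (s2 := false) (a := 1) (b := 1) (c := 2) (cn := .dn) (n1 := ndN0q1) (n2 := ndN2q1) (pc := pcN2) (cut := Cut.none) (xt := Ext.none) (P1 := 536870912) (W1 := 536870912) (P2 := 536870912) (W2 := 536870912) (P3 := 50331648) (W3 := 16777216) (N0 := 3)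
    rfl rfl rfl k0_mm_112

noncomputable def f_mm_113 : ℕ → ℕ → ℕ → ℕ → Bool := onCell 536870912 536870912 536870912 536870912 50331648 16777216
    (rowNK 3 0 true false false .nn 1 1 3 (qsf 536870912 536870912 536870912 536870912 3) ndN0q1 ndN2q1 pcN3 Cut.none Ext.none)

def k0_mm_113 : ∃ t, chk3 f_mm_113 t 1 1 1 = true :=
  ⟨(l 4), by decide +kernel⟩

theorem c_mm_113 : CertN 536870912 536870912 536870912 536870912 50331648 16777216 3 true false false .nn 1 1 3
    ndN0q1 ndN2q1 pcN3 Cut.none Ext.none :=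
  certNK0 (fam := true) (s1 := false) (s2 := false) (a := 1) (b := 1) (c := 3) (cn := .nn) (n1 := ndN0q1) (n2 := ndN2q1) (pc := pcN3) (cut := Cut.none) (xt := Ext.none) (P1 := 536870912) (W1 := 536870912) (P2 := 536870912) (W2 := 536870912) (P3 := 50331648) (W3 := 16777216) (N0 := 3)
    rfl rfl rfl k0_mm_113

noncomputable def f_mm_123_a : ℕ → ℕ → ℕ → ℕ → Bool := onCell 536870912 536870912 0 536870912 50331648 16777216
    (rowNK 3 0 true false false .npn 1 2 3 (qsf 536870912 536870912 0 536870912 3) ndN0q1 ndN2q2a pcN3 Cut.none Ext.none)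

def k0_mm_123_a : ∃ t, chk3 f_mm_123_a t 1 1 1 = true :=
  ⟨(l 4), by decide +kernel⟩

theorem c_mm_123_a : CertN 536870912 536870912 0 536870912 50331648 16777216 3 true false false .npn 1 2 3
    ndN0q1 ndN2q2a pcN3 Cut.none Ext.none :=
  certNK0 (fam := true) (s1 := false) (s2 := false) (a := 1) (b := 2) (c := 3) (cn := .npn) (n1 := ndN0q1) (n2 := ndN2q2a) (pc := pcN3) (cut := Cut.none) (xt := Ext.none) (P1 := 536870912) (W1 := 536870912) (P2 := 0) (W2 := 536870912) (P3 := 50331648) (W3 := 16777216) (N0 := 3)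
    rfl rfl rfl k0_mm_123_a

noncomputable def f_mm_123_b : ℕ → ℕ → ℕ → ℕ → Bool := onCell 536870912 536870912 1239849684 370763052 50331648 16777216
    (rowNK 3 0 true false false .npn 1 2 3 (qsf 536870912 536870912 1239849684 370763052 3) ndN0q1 ndN2q2b pcN3 Cut.none Ext.none)

def k0_mm_123_b : ∃ t, chk3 f_mm_123_b t 1 1 1 = true :=
  ⟨(l 4), by decide +kernel⟩

theorem c_mm_123_b : CertN 536870912 536870912 1239849684 370763052 50331648 16777216 3 true false false .npn 1 2 3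
    ndN0q1 ndN2q2b pcN3 Cut.none Ext.none :=
  certNK0 (fam := true) (s1 := false) (s2 := false) (a := 1) (b := 2) (c := 3) (cn := .npn) (n1 := ndN0q1) (n2 := ndN2q2b) (pc := pcN3) (cut := Cut.none) (xt := Ext.none) (P1 := 536870912) (W1 := 536870912) (P2 := 1239849684) (W2 := 370763052) (P3 := 50331648) (W3 := 16777216) (N0 := 3)
    rfl rfl rfl k0_mm_123_b

noncomputable def f_mm_133 : ℕ → ℕ → ℕ → ℕ → Bool := onCell 536870912 536870912 1610612736 536870912 50331648 16777216
    (rowNK 3 0 true false false .dn 1 3 3 (qsf 536870912 536870912 1610612736 536870912 3) ndN0q1 ndN2q3 pcN3 Cut.none Ext.none)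

def k0_mm_133 : ∃ t, chk3 f_mm_133 t 1 1 1 = true :=
  ⟨(l 4), by decide +kernel⟩

theorem c_mm_133 : CertN 536870912 536870912 1610612736 536870912 50331648 16777216 3 true false false .dn 1 3 3
    ndN0q1 ndN2q3 pcN3 Cut.none Ext.none :=
  certNK0 (fam := true) (s1 := false) (s2 := false) (a := 1) (b := 3) (c := 3) (cn := .dn) (n1 := ndN0q1) (n2 := ndN2q3) (pc := pcN3) (cut := Cut.none) (xt := Ext.none) (P1 := 536870912) (W1 := 536870912) (P2 := 1610612736) (W2 := 536870912) (P3 := 50331648) (W3 := 16777216) (N0 := 3)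
    rfl rfl rfl k0_mm_133

noncomputable def cut_mm_202 : Cut := Cut.of [[⟨0, 1, 0, 50331648⟩, ⟨1, 0, 0, 50331648⟩, ⟨2, 1, 0, 50331648⟩]]

noncomputable def f_mm_202 : ℕ → ℕ → ℕ → ℕ → Bool := onCell 0 536870912 0 536870912 50331648 16777216
    (rowNK 3 0 true false false .pp 2 0 2 (qsf 0 536870912 0 536870912 2) ndN0q2 ndN2q0 pcN2 cut_mm_202 Ext.none)

def k0_mm_202 : ∃ t, chk3 f_mm_202 t 1 1 1 = true :=
  ⟨(b (a (b (b (b (a (l 18735568) (b (l 18770768) (l 18554776))) (a (l 18367032) (l 18237872))) (a (l 17855744) (l 17789688))) (b (a (l 17415888) (l 17571272)) (l 52314062775))) (b (a (b (a (b (b (l 18531752) (l 18318896)) (l 18000272)) (b (b (b (a (l 18287168) (b (a (l 18051952) (l 17784768)) (l 17948056))) (l 18082096)) (l 17973072)) (l 17814016))) (a (l 17567480) (l 58755150775))) (b (a (b (a (b (b (b (b (a (c (l 17738992) (l 17064624)) (a (l 17039256) (l 16889048))) (a (l 17552784) (l 17185480))) (l 17438928)) (l 17511912)) (l 17540160)) (b (b (b (a (a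 (l 16776304) (l 16769128)) (a (a (l 16761584) (l 16760280)) (l 6))) (l 16738976)) (l 16805928)) (b (l 17074808) (l 17165592)))) (a (l 17399768) (l 17156480))) (b (a (a (b (b (l 6) (b (l 16755384) (l 16800232))) (l 16885048)) (b (l 6) (l 16894368))) (b (l 6) (l 4))) (l 4))) (l 4))) (l 4))) (a (l 4) (l 4))), by decide +kernel⟩

theorem c_mm_202 : CertN 0 536870912 0 536870912 50331648 16777216 3 true false false .pp 2 0 2
    ndN0q2 ndN2q0 pcN2 cut_mm_202 Ext.none :=
  certNK0 (fam := true) (s1 := false) (s2 := false) (a := 2) (b := 0) (c := 2) (cn := .pp) (n1 := ndN0q2) (n2 := ndN2q0) (pc := pcN2) (cut := cut_mm_202) (xt := Ext.none) (P1 := 0) (W1 := 536870912) (P2 := 0) (W2 := 536870912) (P3 := 50331648) (W3 := 16777216) (N0 := 3)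
    rfl rfl rfl k0_mm_202

noncomputable def f_mm_203 : ℕ → ℕ → ℕ → ℕ → Bool := onCell 0 536870912 1610612736 536870912 50331648 16777216
    (rowNK 3 1 true false false .up 2 0 3 (qsf 0 536870912 0 536870912 3) ndN0q2 ndN2q0 pcN3 Cut.none Ext.none)

def k0_mm_203 : ∃ t, chk3 f_mm_203 t 1 1 1 = true :=
  ⟨(l 4), by decide +kernel⟩

theorem c_mm_203 : CertN 0 536870912 0 536870912 50331648 16777216 3 true false false .up 2 0 3
    ndN0q2 ndN2q0 pcN3 Cut.none Ext.none :=
  certNK1 (fam := true) (s1 := false) (s2 := false) (a := 2) (b := 0) (c := 3) (cn := .up) (n1 := ndN0q2) (n2 := ndN2q0) (pc := pcN3) (cut := Cut.none) (xt := Ext.none) (P1 := 0) (W1 := 536870912) (P2 := 0) (W2 := 536870912) (P3 := 50331648) (W3 := 16777216) (N0 := 3)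
    rfl rfl rfl (fun _ => rfl) k0_mm_203

noncomputable def f_mm_213 : ℕ → ℕ → ℕ → ℕ → Bool := onCell 0 536870912 536870912 536870912 50331648 16777216
    (rowNK 3 0 true false false .pnn 2 1 3 (qsf 0 536870912 536870912 536870912 3) ndN0q2 ndN2q1 pcN3 Cut.none Ext.none)

def k0_mm_213 : ∃ t, chk3 f_mm_213 t 1 1 1 = true :=
  ⟨(l 4), by decide +kernel⟩

theorem c_mm_213 : CertN 0 536870912 536870912 536870912 50331648 16777216 3 true false false .pnn 2 1 3
    ndN0q2 ndN2q1 pcN3 Cut.none Ext.none :=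
  certNK0 (fam := true) (s1 := false) (s2 := false) (a := 2) (b := 1) (c := 3) (cn := .pnn) (n1 := ndN0q2) (n2 := ndN2q1) (pc := pcN3) (cut := Cut.none) (xt := Ext.none) (P1 := 0) (W1 := 536870912) (P2 := 536870912) (W2 := 536870912) (P3 := 50331648) (W3 := 16777216) (N0 := 3)
    rfl rfl rfl k0_mm_213

end Pool.Agent.Strip051.G.I3_64_1_16.Tab.C.NA02

namespace Pool.Agent.Strip051.G.I3_64_1_16.Tab.C.NA03

open Pool.Agent.Strip051.PB Pool.Agent.Strip051.PB.T
open Pool.Agent.Strip051.G.I3_64_1_16.Tab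

noncomputable def f_pp_001 : ℕ → ℕ → ℕ → ℕ → Bool := onCell 0 536870912 0 536870912 50331648 16777216
    (rowNK 3 0 true true true .up 0 0 1 (qsf 0 536870912 0 536870912 1) ndN0q0 ndN3q0 pcN1 Cut.none Ext.none)

def k0_pp_001 : ∃ t, chk3 f_pp_001 t 1 1 1 = true :=
  ⟨(l 4), by decide +kernel⟩

theorem c_pp_001 : CertN 0 536870912 0 536870912 50331648 16777216 3 true true true .up 0 0 1
    ndN0q0 ndN3q0 pcN1 Cut.none Ext.none :=
  certNK0 (fam := true) (s1 := true) (s2 := true) (a := 0) (b := 0) (c := 1) (cn := .up) (n1 := ndN0q0) (n2 := ndN3q0) (pc := pcN1) (cut := Cut.none) (xt := Ext.none) (P1 := 0) (W1 := 536870912) (P2 := 0) (W2 := 536870912) (P3 := 50331648) (W3 := 16777216) (N0 := 3)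
    rfl rfl rfl k0_pp_001

noncomputable def f_pp_011 : ℕ → ℕ → ℕ → ℕ → Bool := onCell 0 536870912 536870912 536870912 50331648 16777216
    (rowNK 3 0 true true true .pnn 0 1 1 (qsf 0 536870912 536870912 536870912 1) ndN0q0 ndN3q1 pcN1 Cut.none Ext.none)

def k0_pp_011 : ∃ t, chk3 f_pp_011 t 1 1 1 = true :=
  ⟨(l 4), by decide +kernel⟩

theorem c_pp_011 : CertN 0 536870912 536870912 536870912 50331648 16777216 3 true true true .pnn 0 1 1
    ndN0q0 ndN3q1 pcN1 Cut.none Ext.none :=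
  certNK0 (fam := true) (s1 := true) (s2 := true) (a := 0) (b := 1) (c := 1) (cn := .pnn) (n1 := ndN0q0) (n2 := ndN3q1) (pc := pcN1) (cut := Cut.none) (xt := Ext.none) (P1 := 0) (W1 := 536870912) (P2 := 536870912) (W2 := 536870912) (P3 := 50331648) (W3 := 16777216) (N0 := 3)
    rfl rfl rfl k0_pp_011

noncomputable def f_pp_012 : ℕ → ℕ → ℕ → ℕ → Bool := onCell 0 536870912 536870912 536870912 50331648 16777216
    (rowNK 3 0 true true true .pnp 0 1 2 (qsf 0 536870912 536870912 536870912 2) ndN0q0 ndN3q1 pcN2 Cut.none Ext.none)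

def k0_pp_012 : ∃ t, chk3 f_pp_012 t 1 1 1 = true :=
  ⟨(l 4), by decide +kernel⟩

theorem c_pp_012 : CertN 0 536870912 536870912 536870912 50331648 16777216 3 true true true .pnp 0 1 2
    ndN0q0 ndN3q1 pcN2 Cut.none Ext.none :=
  certNK0 (fam := true) (s1 := true) (s2 := true) (a := 0) (b := 1) (c := 2) (cn := .pnp) (n1 := ndN0q0) (n2 := ndN3q1) (pc := pcN2) (cut := Cut.none) (xt := Ext.none) (P1 := 0) (W1 := 536870912) (P2 := 536870912) (W2 := 536870912) (P3 := 50331648) (W3 := 16777216) (N0 := 3)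
    rfl rfl rfl k0_pp_012

noncomputable def f_pp_022 : ℕ → ℕ → ℕ → ℕ → Bool := onCell 0 536870912 1073741824 536870912 50331648 16777216
    (rowNK 3 0 true true true .pp 0 2 2 (qsf 0 536870912 1073741824 536870912 2) ndN0q0 ndN3q2 pcN2 Cut.none Ext.none)

def k0_pp_022 : ∃ t, chk3 f_pp_022 t 1 1 1 = true :=
  ⟨(l 4), by decide +kernel⟩

theorem c_pp_022 : CertN 0 536870912 1073741824 536870912 50331648 16777216 3 true true true .pp 0 2 2
    ndN0q0 ndN3q2 pcN2 Cut.none Ext.none :=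
  certNK0 (fam := true) (s1 := true) (s2 := true) (a := 0) (b := 2) (c := 2) (cn := .pp) (n1 := ndN0q0) (n2 := ndN3q2) (pc := pcN2) (cut := Cut.none) (xt := Ext.none) (P1 := 0) (W1 := 536870912) (P2 := 1073741824) (W2 := 536870912) (P3 := 50331648) (W3 := 16777216) (N0 := 3)
    rfl rfl rfl k0_pp_022

noncomputable def f_pp_023 : ℕ → ℕ → ℕ → ℕ → Bool := onCell 0 536870912 1073741824 536870912 50331648 16777216
    (rowNK 3 0 true true true .up 0 2 3 (qsf 0 536870912 1073741824 536870912 3) ndN0q0 ndN3q2 pcN3 Cut.none Ext.none)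

def k0_pp_023 : ∃ t, chk3 f_pp_023 t 1 1 1 = true :=
  ⟨(l 4), by decide +kernel⟩

theorem c_pp_023 : CertN 0 536870912 1073741824 536870912 50331648 16777216 3 true true true .up 0 2 3
    ndN0q0 ndN3q2 pcN3 Cut.none Ext.none :=
  certNK0 (fam := true) (s1 := true) (s2 := true) (a := 0) (b := 2) (c := 3) (cn := .up) (n1 := ndN0q0) (n2 := ndN3q2) (pc := pcN3) (cut := Cut.none) (xt := Ext.none) (P1 := 0) (W1 := 536870912) (P2 := 1073741824) (W2 := 536870912) (P3 := 50331648) (W3 := 16777216) (N0 := 3)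
    rfl rfl rfl k0_pp_023

noncomputable def f_pp_033 : ℕ → ℕ → ℕ → ℕ → Bool := onCell 0 536870912 0 1230186008 50331648 16777216
    (rowNK 3 0 true true true .pnn 0 3 3 (qsf 0 536870912 0 1230186008 3) ndN0q0 ndN3q3 pcN3 Cut.none Ext.none)

def k0_pp_033 : ∃ t, chk3 f_pp_033 t 1 1 1 = true :=
  ⟨(b (l 4) (l 4)), by decide +kernel⟩

theorem c_pp_033 : CertN 0 536870912 0 1230186008 50331648 16777216 3 true true true .pnn 0 3 3
    ndN0q0 ndN3q3 pcN3 Cut.none Ext.none :=
  certNK0 (fam := true) (s1 := true) (s2 := true) (a := 0) (b := 3) (c := 3) (cn := .pnn) (n1 := ndN0q0) (n2 := ndN3q3) (pc := pcN3) (cut := Cut.none) (xt := Ext.none) (P1 := 0) (W1 := 536870912) (P2 := 0) (W2 := 1230186008) (P3 := 50331648) (W3 := 16777216) (N0 := 3)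
    rfl rfl rfl k0_pp_033

noncomputable def f_pp_101 : ℕ → ℕ → ℕ → ℕ → Bool := onCell 536870912 536870912 0 536870912 50331648 16777216
    (rowNK 3 0 true true true .npn 1 0 1 (qsf 536870912 536870912 0 536870912 1) ndN0q1 ndN3q0 pcN1 Cut.none Ext.none)

def k0_pp_101 : ∃ t, chk3 f_pp_101 t 1 1 1 = true :=
  ⟨(l 4), by decide +kernel⟩

theorem c_pp_101 : CertN 536870912 536870912 0 536870912 50331648 16777216 3 true true true .npn 1 0 1
    ndN0q1 ndN3q0 pcN1 Cut.none Ext.none :=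
  certNK0 (fam := true) (s1 := true) (s2 := true) (a := 1) (b := 0) (c := 1) (cn := .npn) (n1 := ndN0q1) (n2 := ndN3q0) (pc := pcN1) (cut := Cut.none) (xt := Ext.none) (P1 := 536870912) (W1 := 536870912) (P2 := 0) (W2 := 536870912) (P3 := 50331648) (W3 := 16777216) (N0 := 3)
    rfl rfl rfl k0_pp_101

noncomputable def f_pp_102 : ℕ → ℕ → ℕ → ℕ → Bool := onCell 536870912 536870912 0 536870912 50331648 16777216
    (rowNK 3 0 true true true .npp 1 0 2 (qsf 536870912 536870912 0 536870912 2) ndN0q1 ndN3q0 pcN2 Cut.none Ext.none)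

def k0_pp_102 : ∃ t, chk3 f_pp_102 t 1 1 1 = true :=
  ⟨(l 4), by decide +kernel⟩

theorem c_pp_102 : CertN 536870912 536870912 0 536870912 50331648 16777216 3 true true true .npp 1 0 2
    ndN0q1 ndN3q0 pcN2 Cut.none Ext.none :=
  certNK0 (fam := true) (s1 := true) (s2 := true) (a := 1) (b := 0) (c := 2) (cn := .npp) (n1 := ndN0q1) (n2 := ndN3q0) (pc := pcN2) (cut := Cut.none) (xt := Ext.none) (P1 := 536870912) (W1 := 536870912) (P2 := 0) (W2 := 536870912) (P3 := 50331648) (W3 := 16777216) (N0 := 3)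
    rfl rfl rfl k0_pp_102

noncomputable def f_pp_112 : ℕ → ℕ → ℕ → ℕ → Bool := onCell 536870912 536870912 536870912 536870912 50331648 16777216
    (rowNK 3 0 true true true .dn 1 1 2 (qsf 536870912 536870912 536870912 536870912 2) ndN0q1 ndN3q1 pcN2 Cut.none Ext.none)

def k0_pp_112 : ∃ t, chk3 f_pp_112 t 1 1 1 = true :=
  ⟨(l 4), by decide +kernel⟩

theorem c_pp_112 : CertN 536870912 536870912 536870912 536870912 50331648 16777216 3 true true true .dn 1 1 2
    ndN0q1 ndN3q1 pcN2 Cut.none Ext.none :=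
  certNK0 (fam := true) (s1 := true) (s2 := true) (a := 1) (b := 1) (c := 2) (cn := .dn) (n1 := ndN0q1) (n2 := ndN3q1) (pc := pcN2) (cut := Cut.none) (xt := Ext.none) (P1 := 536870912) (W1 := 536870912) (P2 := 536870912) (W2 := 536870912) (P3 := 50331648) (W3 := 16777216) (N0 := 3)
    rfl rfl rfl k0_pp_112

noncomputable def f_pp_113 : ℕ → ℕ → ℕ → ℕ → Bool := onCell 536870912 536870912 536870912 536870912 50331648 16777216
    (rowNK 3 0 true true true .nn 1 1 3 (qsf 536870912 536870912 536870912 536870912 3) ndN0q1 ndN3q1 pcN3 Cut.none Ext.none)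

def k0_pp_113 : ∃ t, chk3 f_pp_113 t 1 1 1 = true :=
  ⟨(l 4), by decide +kernel⟩

theorem c_pp_113 : CertN 536870912 536870912 536870912 536870912 50331648 16777216 3 true true true .nn 1 1 3
    ndN0q1 ndN3q1 pcN3 Cut.none Ext.none :=
  certNK0 (fam := true) (s1 := true) (s2 := true) (a := 1) (b := 1) (c := 3) (cn := .nn) (n1 := ndN0q1) (n2 := ndN3q1) (pc := pcN3) (cut := Cut.none) (xt := Ext.none) (P1 := 536870912) (W1 := 536870912) (P2 := 536870912) (W2 := 536870912) (P3 := 50331648) (W3 := 16777216) (N0 := 3)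
    rfl rfl rfl k0_pp_113

noncomputable def f_pp_123 : ℕ → ℕ → ℕ → ℕ → Bool := onCell 536870912 536870912 1073741824 536870912 50331648 16777216
    (rowNK 3 0 true true true .npn 1 2 3 (qsf 536870912 536870912 1073741824 536870912 3) ndN0q1 ndN3q2 pcN3 Cut.none Ext.none)

def k0_pp_123 : ∃ t, chk3 f_pp_123 t 1 1 1 = true :=
  ⟨(l 4), by decide +kernel⟩

theorem c_pp_123 : CertN 536870912 536870912 1073741824 536870912 50331648 16777216 3 true true true .npn 1 2 3
    ndN0q1 ndN3q2 pcN3 Cut.none Ext.none :=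
  certNK0 (fam := true) (s1 := true) (s2 := true) (a := 1) (b := 2) (c := 3) (cn := .npn) (n1 := ndN0q1) (n2 := ndN3q2) (pc := pcN3) (cut := Cut.none) (xt := Ext.none) (P1 := 536870912) (W1 := 536870912) (P2 := 1073741824) (W2 := 536870912) (P3 := 50331648) (W3 := 16777216) (N0 := 3)
    rfl rfl rfl k0_pp_123

noncomputable def f_pp_133 : ℕ → ℕ → ℕ → ℕ → Bool := onCell 536870912 536870912 0 1230186008 50331648 16777216
    (rowNK 3 0 true true true .dn 1 3 3 (qsf 536870912 536870912 0 1230186008 3) ndN0q1 ndN3q3 pcN3 Cut.none Ext.none)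

def k0_pp_133 : ∃ t, chk3 f_pp_133 t 1 1 1 = true :=
  ⟨(l 4), by decide +kernel⟩

theorem c_pp_133 : CertN 536870912 536870912 0 1230186008 50331648 16777216 3 true true true .dn 1 3 3
    ndN0q1 ndN3q3 pcN3 Cut.none Ext.none :=
  certNK0 (fam := true) (s1 := true) (s2 := true) (a := 1) (b := 3) (c := 3) (cn := .dn) (n1 := ndN0q1) (n2 := ndN3q3) (pc := pcN3) (cut := Cut.none) (xt := Ext.none) (P1 := 536870912) (W1 := 536870912) (P2 := 0) (W2 := 1230186008) (P3 := 50331648) (W3 := 16777216) (N0 := 3)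
    rfl rfl rfl k0_pp_133

noncomputable def f_pp_202 : ℕ → ℕ → ℕ → ℕ → Bool := onCell 0 536870912 0 536870912 50331648 16777216
    (rowNK 3 0 true true true .pp 2 0 2 (qsf 0 536870912 0 536870912 2) ndN0q2 ndN3q0 pcN2 Cut.none Ext.none)

def k0_pp_202 : ∃ t, chk3 f_pp_202 t 1 1 1 = true :=
  ⟨(l 5), by decide +kernel⟩

theorem c_pp_202 : CertN 0 536870912 0 536870912 50331648 16777216 3 true true true .pp 2 0 2
    ndN0q2 ndN3q0 pcN2 Cut.none Ext.none :=
  certNK0 (fam := true) (s1 := true) (s2 := true) (a := 2) (b := 0) (c := 2) (cn := .pp) (n1 := ndN0q2) (n2 := ndN3q0) (pc := pcN2) (cut := Cut.none) (xt := Ext.none) (P1 := 0) (W1 := 536870912) (P2 := 0) (W2 := 536870912) (P3 := 50331648) (W3 := 16777216) (N0 := 3)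
    rfl rfl rfl k0_pp_202

noncomputable def f_pp_203 : ℕ → ℕ → ℕ → ℕ → Bool := onCell 0 536870912 0 536870912 50331648 16777216
    (rowNK 3 0 true true true .up 2 0 3 (qsf 0 536870912 0 536870912 3) ndN0q2 ndN3q0 pcN3 Cut.none Ext.none)

def k0_pp_203 : ∃ t, chk3 f_pp_203 t 1 1 1 = true :=
  ⟨(l 5), by decide +kernel⟩

theorem c_pp_203 : CertN 0 536870912 0 536870912 50331648 16777216 3 true true true .up 2 0 3
    ndN0q2 ndN3q0 pcN3 Cut.none Ext.none :=
  certNK0 (fam := true) (s1 := true) (s2 := true) (a := 2) (b := 0) (c := 3) (cn := .up) (n1 := ndN0q2) (n2 := ndN3q0) (pc := pcN3) (cut := Cut.none) (xt := Ext.none) (P1 := 0) (W1 := 536870912) (P2 := 0) (W2 := 536870912) (P3 := 50331648) (W3 := 16777216) (N0 := 3)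
    rfl rfl rfl k0_pp_203

noncomputable def f_pp_213 : ℕ → ℕ → ℕ → ℕ → Bool := onCell 0 536870912 536870912 536870912 50331648 16777216
    (rowNK 3 0 true true true .pnn 2 1 3 (qsf 0 536870912 536870912 536870912 3) ndN0q2 ndN3q1 pcN3 Cut.none Ext.none)

def k0_pp_213 : ∃ t, chk3 f_pp_213 t 1 1 1 = true :=
  ⟨(l 4), by decide +kernel⟩

theorem c_pp_213 : CertN 0 536870912 536870912 536870912 50331648 16777216 3 true true true .pnn 2 1 3
    ndN0q2 ndN3q1 pcN3 Cut.none Ext.none :=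
  certNK0 (fam := true) (s1 := true) (s2 := true) (a := 2) (b := 1) (c := 3) (cn := .pnn) (n1 := ndN0q2) (n2 := ndN3q1) (pc := pcN3) (cut := Cut.none) (xt := Ext.none) (P1 := 0) (W1 := 536870912) (P2 := 536870912) (W2 := 536870912) (P3 := 50331648) (W3 := 16777216) (N0 := 3)
    rfl rfl rfl k0_pp_213

noncomputable def f_pm_001 : ℕ → ℕ → ℕ → ℕ → Bool := onCell 0 536870912 0 536870912 50331648 16777216
    (rowNK 3 0 true true false .up 0 0 1 (qsf 0 536870912 0 536870912 1) ndN0q0 ndN3q0 pcN1 Cut.none Ext.none)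

def k0_pm_001 : ∃ t, chk3 f_pm_001 t 1 1 1 = true :=
  ⟨(a (l 3) (b (l 3) (a (l 3) (b (l 3) (b (l 232637606743) (a (l 238543716839) (l 148348878695))))))), by decide +kernel⟩

theorem c_pm_001 : CertN 0 536870912 0 536870912 50331648 16777216 3 true true false .up 0 0 1
    ndN0q0 ndN3q0 pcN1 Cut.none Ext.none :=
  certNK0 (fam := true) (s1 := true) (s2 := false) (a := 0) (b := 0) (c := 1) (cn := .up) (n1 := ndN0q0) (n2 := ndN3q0) (pc := pcN1) (cut := Cut.none) (xt := Ext.none) (P1 := 0) (W1 := 536870912) (P2 := 0) (W2 := 536870912) (P3 := 50331648) (W3 := 16777216) (N0 := 3)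
    rfl rfl rfl k0_pm_001

noncomputable def cut_pm_011 : Cut := Cut.of [[⟨0, 0, 0, 50331648⟩, ⟨1, 1, 0, 50331648⟩, ⟨2, 1, 0, 50331648⟩]]

noncomputable def f_pm_011 : ℕ → ℕ → ℕ → ℕ → Bool := onCell 536870912 536870912 536870912 536870912 50331648 16777216
    (rowNK 3 2 true true false .pnn 0 1 1 (qsf 0 536870912 536870912 536870912 1) ndN0q0 ndN3q1 pcN1 cut_pm_011 Ext.none)

def k0_pm_011 : ∃ t, chk3 f_pm_011 t 2 1 1 = true :=
  ⟨(l 3), by decide +kernel⟩

def k1_pm_011 : ∃ t, chk3 f_pm_011 t 6 1 1 = true :=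
  ⟨(l 3), by decide +kernel⟩

def k2_pm_011 : ∃ t, chk3 f_pm_011 t 7 2 1 = true :=
  ⟨(b (a (a (l 3) (b (l 17740576) (l 3))) (a (l 18233208) (l 18383960))) (a (l 3) (a (b (l 17763608) (a (l 3) (l 17710728))) (b (l 18226032) (l 18096504))))), by decide +kernel⟩

def k3_pm_011 : ∃ t, chk3 f_pm_011 t 14 3 1 = true :=
  ⟨(l 3), by decide +kernel⟩

def k4_pm_011 : ∃ t, chk3 f_pm_011 t 15 6 1 = true :=
  ⟨(b (a (a (l 3) (l 372757552967)) (a (l 17773512) (l 18079520))) (a (l 3) (a (b (l 17521792) (a (l 3) (l 17451120))) (b (l 17921992) (a (l 17669880) (l 17865512)))))), by decide +kernel⟩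

def k5_pm_011 : ∃ t, chk3 f_pm_011 t 30 7 1 = true :=
  ⟨(l 3), by decide +kernel⟩

def k6_pm_011 : ∃ t, chk3 f_pm_011 t 31 14 1 = true :=
  ⟨(b (a (a (l 3) (b (l 17211632) (l 3))) (a (b (l 17503408) (b (l 17400192) (l 17301192))) (a (l 17486960) (l 17652368)))) (a (l 3) (a (a (b (l 239612927479) (l 3)) (b (b (l 17285192) (l 10368749847)) (b (b (l 16957800) (a (l 16922920) (l 16960000))) (a (l 3) (b (b (l 16933352) (l 16858536)) (a (l 110226525335) (b (l 16873336) (l 16816744)))))))) (a (b (b (l 17383304) (l 17172456)) (b (b (l 17102752) (a (l 17017752) (l 17054544))) (c (b (l 17117112) (a (l 17003504) (l 17060336))) (b (a (b (l 16965736) (l 16907424)) (l 16863344)) (a (a (l 16782840) (l 16789096)) (b (l 16862624) (l 16796816))))))) (b (b (l 17481272) (l 17200296)) (b (b (l 17121784) (a (l 17091360) (l 17086240))) (b (c (l 17158584) (a (l 16884344) (a (l 16983992) (l 16952568)))) (c (a (l 17117208) (l 17111184)) (a (b (l 16877520) (l 16806944)) (a (l 16820568)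 (l 16763968))))))))))), by decide +kernel⟩

def k7_pm_011 : ∃ t, chk3 f_pm_011 t 31 15 1 = true :=
  ⟨(a (l 3) (b (a (b (a (l 3) (b (b (a (l 3) (a (l 3) (a (l 3) (l 16768672)))) (l 3)) (l 3))) (l 3)) (b (a (a (a (b (b (b (l 16788936) (l 16769784)) (b (l 16770376) (l 16769776))) (b (b (l 16766816) (l 16768512)) (l 3))) (b (b (c (l 16891328) (l 16745400)) (a (l 16765968) (l 16761376))) (b (b (l 16769512) (l 16766048)) (b (a (l 16773696) (l 16772400)) (l 704601143))))) (a (b (b (c (l 16926344) (l 16767200)) (a (l 16772520) (l 16773176))) (b (b (l 16766832) (l 16768624)) (c (b (l 16770320) (l 16761608)) (l 16753024)))) (b (b (c (l 16940400) (l 16768048)) (a (l 16773840) (l 16774512))) (b (a (l 16765720) (l 16764376)) (b (l 16767736) (l 16759024)))))) (b (b (a (b (c (l 17048576) (l 16775608)) (l 16765664)) (a (c (l 16982648) (l 16770672)) (c (l 16954800) (b (l 16802528) (l 16760560))))) (a (a (a (l 16775184) (l 16775856)) (a (l 16776536) (l 16777224))) (a (l 16762528)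 (a (l 16779296) (l 16759024))))) (a (b (a (a (l 16763024) (l 16761672)) (a (l 16760312) (l 16758952))) (a (b (l 16765048) (l 16766832)) (a (l 16763920) (l 16762568)))) (a (a (b (l 16757592) (l 16761208)) (b (l 16756224) (l 16759856))) (b (a (l 16754856) (l 16758728)) (a (l 16758488) (a (l 16736496) (l 16756784)))))))) (b (b (b (b (b (a (a (c (l 16758520) (l 16766568)) (l 16753600)) (a (l 16766600) (l 16742840))) (l 6)) (l 6)) (l 6)) (l 6)) (l 6)))) (l 6))), by decide +kernel⟩

theorem s8_pm_011 : ∃ t, chk3 f_pm_011 t 31 7 1 = true := ex3_b k6_pm_011 k7_pm_011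

theorem s9_pm_011 : ∃ t, chk3 f_pm_011 t 15 7 1 = true := ex3_a k5_pm_011 s8_pm_011

theorem s10_pm_011 : ∃ t, chk3 f_pm_011 t 15 3 1 = true := ex3_b k4_pm_011 s9_pm_011

theorem s11_pm_011 : ∃ t, chk3 f_pm_011 t 7 3 1 = true := ex3_a k3_pm_011 s10_pm_011

theorem s12_pm_011 : ∃ t, chk3 f_pm_011 t 7 1 1 = true := ex3_b k2_pm_011 s11_pm_011

theorem s13_pm_011 : ∃ t, chk3 f_pm_011 t 3 1 1 = true := ex3_a k1_pm_011 s12_pm_011

theorem s14_pm_011 : ∃ t, chk3 f_pm_011 t 1 1 1 = true := ex3_a k0_pm_011 s13_pm_011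

theorem c_pm_011 : CertN 0 536870912 536870912 536870912 50331648 16777216 3 true true false .pnn 0 1 1
    ndN0q0 ndN3q1 pcN1 cut_pm_011 Ext.none :=
  certNK2 (fam := true) (s1 := true) (s2 := false) (a := 0) (b := 1) (c := 1) (cn := .pnn) (n1 := ndN0q0) (n2 := ndN3q1) (pc := pcN1) (cut := cut_pm_011) (xt := Ext.none) (P1 := 0) (W1 := 536870912) (P2 := 536870912) (W2 := 536870912) (P3 := 50331648) (W3 := 16777216) (N0 := 3)
    rfl rfl rfl (fun _ => rfl) s14_pm_011

noncomputable def cut_pm_012 : Cut := Cut.of [[⟨0, 0, 0, 50331648⟩, ⟨1, 1, 0, 50331648⟩, ⟨2, 1, 0, 50331648⟩]]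

noncomputable def f_pm_012 : ℕ → ℕ → ℕ → ℕ → Bool := onCell 1073741824 536870912 536870912 536870912 50331648 16777216
    (rowNK 3 2 true true false .pnp 0 1 2 (qsf 0 536870912 536870912 536870912 2) ndN0q0 ndN3q1 pcN2 cut_pm_012 Ext.none)

def k0_pm_012 : ∃ t, chk3 f_pm_012 t 2 2 1 = true :=
  ⟨(a (a (a (a (b (l 18599976) (l 18465240)) (b (l 18604120) (l 18521920))) (b (l 18649784) (l 18645872))) (b (l 18623736) (l 18907072))) (b (l 18447424) (l 18562664))), by decide +kernel⟩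

def k1_pm_012 : ∃ t, chk3 f_pm_012 t 32 6 1 = true :=
  ⟨(b (l 18334928) (l 18182848)), by decide +kernel⟩

def k2_pm_012 : ∃ t, chk3 f_pm_012 t 32 14 1 = true :=
  ⟨(b (a (b (l 17905176) (l 17773840)) (l 18025872)) (a (a (b (b (l 17587488) (l 17431880)) (b (c (l 17449152) (a (l 17001600) (l 17249936))) (c (a (l 17023616) (l 17323272)) (a (a (b (l 16974368) (l 16762848)) (a (l 16882888) (l 16919464))) (b (l 17114624) (l 16925944)))))) (b (l 17646072) (b (l 17375464) (c (l 17427688) (a (l 17002560) (l 17173008)))))) (b (l 17811424) (b (l 17540400) (c (l 17635248) (a (l 17209472) (l 17425952))))))), by decide +kernel⟩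

def k3_pm_012 : ∃ t, chk3 f_pm_012 t 32 30 1 = true :=
  ⟨(a (a (b (a (b (a (b (c (l 16959928) (a (l 16780992) (l 16796608))) (a (l 16758464) (l 16764880))) (c (b (l 17100520) (l 16877616)) (b (l 16799528) (l 16744024)))) (a (a (b (l 16758792) (a (l 16756984) (l 16755944))) (b (l 16750800) (l 16754384))) (b (l 16747656) (l 16751264)))) (b (b (c (l 17155000) (l 16806776)) (c (l 16891936) (l 16754040))) (a (b (l 16742096) (l 16747096)) (b (l 16779384) (l 16742912))))) (b (b (a (a (a (l 16741632) (l 16757920)) (c (l 16754808) (l 16754824))) (c (l 16732856) (l 16732896))) (a (l 6) (l 16736424))) (l 6))) (a (b (b (c (l 16964480) (b (l 16916632) (l 16824352))) (a (b (l 16796664) (l 16738728)) (l 16755600))) (b (b (a (l 16742368) (l 16738208)) (a (l 16745960) (l 16741832))) (l 6))) (b (b (c (l 17187512) (l 16776496)) (b (l 16811576) (l 16752704))) (b (a (b (l 16734032) (l 16737688)) (a (l 16732752) (l 16730672))) (b (a (l 6) (l 16737168)) (l 6)))))) (b (b (c (a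 (l 17239536) (l 17538456)) (a (b (l 17072336) (l 16842256)) (b (l 17279056) (l 17141744)))) (b (c (a (l 17044688) (l 17379472)) (a (l 16749408) (l 16923008))) (a (a (l 16797208) (l 16843320)) (c (l 17145688) (l 16786272))))) (a (b (a (a (b (l 16725672) (l 16729376)) (c (a (l 16770240) (l 16774360)) (b (l 16721536) (b (l 16724336) (l 16726312))))) (b (l 16746232) (b (l 16721224) (l 16723528)))) (a (b (a (b (l 16732128) (l 6)) (b (l 16728784) (l 16731136))) (l 6)) (b (l 16726992) (l 16731640)))) (b (b (l 16744112) (c (a (l 16840520) (l 16925808)) (l 16700696))) (a (b (l 16723064) (l 16727632)) (b (l 16719168) (l 16723664))))))), by decide +kernel⟩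

def k4_pm_012 : ∃ t, chk3 f_pm_012 t 32 31 1 = true :=
  ⟨(a (l 6) (b (a (l 6) (b (a (l 6) (b (l 16728192) (l 6))) (l 6))) (l 6))), by decide +kernel⟩

def k5_pm_012 : ∃ t, chk3 f_pm_012 t 33 3 1 = true :=
  ⟨(b (a (l 18420960) (l 18508888)) (a (b (b (l 18195824) (b (l 18021488) (b (l 17883992) (l 17761072)))) (b (a (b (b (l 17361016) (c (l 17424800) (b (l 17191168) (l 16983888)))) (b (b (c (l 17226776) (l 16834832)) (l 16753256)) (b (a (l 16715312) (l 16737504)) (a (l 16719728) (l 16694848))))) (b (b (l 17672872) (c (l 17652536) (l 17120872))) (b (c (b (l 17475832) (l 17287920)) (b (l 17024856) (l 16863600))) (b (l 16784592) (l 16710032))))) (b (b (a (b (a (l 16724176) (l 16699216)) (a (l 6) (l 16724592))) (b (a (l 16695272) (l 16691360)) (l 16704144))) (a (l 6) (b (a (l 6) (l 16699880)) (l 6)))) (l 6)))) (b (b (l 18348928) (b (l 18212896) (l 17952120))) (a (b (b (b (l 17811984) (l 17504880)) (b (c (l 17571648) (b (l 17250944) (l 17066856))) (b (c (l 17350056)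 (l 16893504)) (l 16775176)))) (b (b (b (l 16706520) (a (l 16691640) (l 16687720))) (b (l 16699072) (b (l 16696984) (l 6)))) (l 6))) (b (b (b (l 17944888) (l 17783448)) (b (c (l 17769296) (a (l 17312464) (l 17402704))) (c (b (l 17575448) (l 17224168)) (a (l 16808536) (l 16836048))))) (b (b (a (b (l 16848032) (l 16683832)) (b (l 16873336) (l 16734280))) (b (a (l 16687872) (l 16684200)) (a (l 16691944) (l 16688192)))) (b (a (l 6) (b (l 16702704) (l 6))) (l 6)))))))), by decide +kernel⟩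

def k6_pm_012 : ∃ t, chk3 f_pm_012 t 17 6 1 = true :=
  ⟨(a (l 18629736) (l 18778920)), by decide +kernel⟩

def k7_pm_012 : ∃ t, chk3 f_pm_012 t 17 14 1 = true :=
  ⟨(a (b (l 18557912) (a (l 18342584) (l 18521976))) (b (l 18806624) (l 18757912))), by decide +kernel⟩

def k8_pm_012 : ∃ t, chk3 f_pm_012 t 17 30 1 = true :=
  ⟨(a (b (a (b (l 18132840) (l 17935800)) (l 18316352)) (a (b (a (l 17525600) (l 17897264)) (a (c (l 17616744) (b (l 17314192) (l 16985976))) (b (l 17727216) (l 17397936)))) (b (l 18121968) (a (l 17675320) (l 18013800))))) (b (l 18635536) (a (b (l 18392296) (l 18247968)) (l 18582168)))), by decide +kernel⟩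

def k9_pm_012 : ∃ t, chk3 f_pm_012 t 17 31 1 = true :=
  ⟨(a (b (a (b (b (c (a (l 17330272) (l 17678944)) (a (l 16788856) (l 17051960))) (a (a (l 16836672) (l 16891144)) (c (l 17416264) (l 16843136)))) (a (b (l 16689600) (l 16694768)) (b (l 16733024) (l 16686312)))) (b (c (a (l 17791128) (l 18012704)) (a (b (l 17381208) (l 17097912)) (l 17254752))) (c (a (b (l 17482208) (a (l 17156480) (l 17365160))) (b (l 17785704) (l 17528024))) (a (b (l 16856432) (l 16667776)) (b (l 17123784) (l 16870720)))))) (a (b (a (b (a (l 16688176) (l 16684408)) (b (l 16700320) (l 6))) (b (l 16690048) (l 16693816))) (b (a (l 6) (b (l 16696680) (l 6))) (l 6))) (b (a (b (a (l 16672816) (l 16742152)) (l 16680592)) (b (c (a (l 17146088) (l 17382448)) (l 16663768)) (l 16667640))) (a (b (l 16689480) (b (l 16702736) (l 6))) (b (l 16676360) (b (l 16673752) (l 16675528))))))) (b (a (a (b (l 17785928) (c (l 17926640) (b (l 17451544) (l 17129568)))) (b (l 18132704) (c (l 18138480) (b (l 17674424)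 (l 17487904))))) (b (l 18375816) (a (l 17878136) (l 18253944)))) (b (a (c (a (b (l 17553704) (c (l 17570528) (l 16990608))) (b (l 17895488) (l 17601184))) (b (a (l 16865008) (l 17136216)) (a (l 16659720) (l 16860256)))) (c (b (l 18234736) (l 18074232)) (a (b (l 17525032) (l 17143704)) (b (l 17762672) (l 17562928))))) (a (b (a (l 16663488) (c (c (l 17616344) (l 16976680)) (l 16655608))) (a (l 16672072) (l 16659272))) (c (a (b (l 17628504) (b (l 17429672) (l 17129744))) (b (l 18008192) (l 17593664))) (b (a (l 16835464) (l 17131056)) (a (l 16651432) (b (l 17059984) (l 16915256))))))))), by decide +kernel⟩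

def k10_pm_012 : ∃ t, chk3 f_pm_012 t 9 3 1 = true :=
  ⟨(b (a (l 18937672) (l 18992832)) (b (a (a (l 19029808) (l 19189688)) (l 19322928)) (a (b (a (l 18958064) (l 19245992)) (a (b (a (l 18400616) (l 18854104)) (a (a (b (l 17951856) (c (l 18038256) (b (l 17601552) (b (l 17417704) (l 17215600))))) (b (l 18377448) (c (l 18397560) (b (l 17853640) (l 17619920))))) (b (l 18637168) (c (l 18702368) (b (l 18185256) (l 18019376)))))) (b (l 19171976) (a (b (l 18933416) (l 18776424)) (l 19134848))))) (b (l 19520656) (b (l 19598232) (l 19612928)))))), by decide +kernel⟩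

def k11_pm_012 : ∃ t, chk3 f_pm_012 t 5 3 1 = true :=
  ⟨(b (a (l 18966864) (l 18839616)) (b (l 19637872) (a (a (l 19831128) (l 19933376)) (l 19910856)))), by decide +kernel⟩

def k12_pm_012 : ∃ t, chk3 f_pm_012 t 3 1 1 = true :=
  ⟨(b (a (b (l 2) (l 18076232)) (l 2)) (a (b (l 18547448) (a (l 19480328) (l 19198376))) (b (l 18199368) (l 18833704)))), by decide +kernel⟩

theorem s13_pm_012 : ∃ t, chk3 f_pm_012 t 17 15 1 = true := ex3_b k8_pm_012 k9_pm_012

theorem s14_pm_012 : ∃ t, chk3 f_pm_012 t 17 7 1 = true := ex3_b k7_pm_012 s13_pm_012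

theorem s15_pm_012 : ∃ t, chk3 f_pm_012 t 17 3 1 = true := ex3_b k6_pm_012 s14_pm_012

theorem s16_pm_012 : ∃ t, chk3 f_pm_012 t 32 15 1 = true := ex3_b k3_pm_012 k4_pm_012

theorem s17_pm_012 : ∃ t, chk3 f_pm_012 t 32 7 1 = true := ex3_b k2_pm_012 s16_pm_012

theorem s18_pm_012 : ∃ t, chk3 f_pm_012 t 32 3 1 = true := ex3_b k1_pm_012 s17_pm_012

theorem s19_pm_012 : ∃ t, chk3 f_pm_012 t 16 3 1 = true := ex3_a s18_pm_012 k5_pm_012

theorem s20_pm_012 : ∃ t, chk3 f_pm_012 t 8 3 1 = true := ex3_a s19_pm_012 s15_pm_012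

theorem s21_pm_012 : ∃ t, chk3 f_pm_012 t 4 3 1 = true := ex3_a s20_pm_012 k10_pm_012

theorem s22_pm_012 : ∃ t, chk3 f_pm_012 t 2 3 1 = true := ex3_a s21_pm_012 k11_pm_012

theorem s23_pm_012 : ∃ t, chk3 f_pm_012 t 2 1 1 = true := ex3_b k0_pm_012 s22_pm_012

theorem s24_pm_012 : ∃ t, chk3 f_pm_012 t 1 1 1 = true := ex3_a s23_pm_012 k12_pm_012

theorem c_pm_012 : CertN 0 536870912 536870912 536870912 50331648 16777216 3 true true false .pnp 0 1 2
    ndN0q0 ndN3q1 pcN2 cut_pm_012 Ext.none :=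
  certNK2 (fam := true) (s1 := true) (s2 := false) (a := 0) (b := 1) (c := 2) (cn := .pnp) (n1 := ndN0q0) (n2 := ndN3q1) (pc := pcN2) (cut := cut_pm_012) (xt := Ext.none) (P1 := 0) (W1 := 536870912) (P2 := 536870912) (W2 := 536870912) (P3 := 50331648) (W3 := 16777216) (N0 := 3)
    rfl rfl rfl (fun _ => rfl) s24_pm_012

noncomputable def f_pm_022 : ℕ → ℕ → ℕ → ℕ → Bool := onCell 1073741824 536870912 1073741824 536870912 50331648 16777216
    (rowNK 3 2 true true false .pp 0 2 2 (qsf 0 536870912 1073741824 536870912 2) ndN0q0 ndN3q2 pcN2 Cut.none Ext.none)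

def k0_pm_022 : ∃ t, chk3 f_pm_022 t 1 1 1 = true :=
  ⟨(a (a (b (l 3) (l 1)) (b (a (b (a (a (l 3) (a (l 18500432) (a (l 18520232) (a (l 18529000) (l 18534496))))) (l 18573672)) (a (a (l 642269749191) (a (l 18871856) (a (l 18858792) (b (l 18803624) (l 1))))) (l 18846160))) (b (l 18613336) (l 18648160))) (a (l 1) (b (l 18435016) (l 1))))) (b (b (a (l 18559312) (l 18272696)) (a (l 18337912) (l 17907920))) (b (a (l 18211144) (l 17936832)) (a (l 248071266615) (l 18211104))))), by decide +kernel⟩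

theorem c_pm_022 : CertN 0 536870912 1073741824 536870912 50331648 16777216 3 true true false .pp 0 2 2
    ndN0q0 ndN3q2 pcN2 Cut.none Ext.none :=
  certNK2 (fam := true) (s1 := true) (s2 := false) (a := 0) (b := 2) (c := 2) (cn := .pp) (n1 := ndN0q0) (n2 := ndN3q2) (pc := pcN2) (cut := Cut.none) (xt := Ext.none) (P1 := 0) (W1 := 536870912) (P2 := 1073741824) (W2 := 536870912) (P3 := 50331648) (W3 := 16777216) (N0 := 3)
    rfl rfl rfl (fun _ => rfl) k0_pm_022

noncomputable def f_pm_023 : ℕ → ℕ → ℕ → ℕ → Bool := onCell 1610612736 536870912 1073741824 536870912 50331648 16777216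
    (rowNK 3 2 true true false .up 0 2 3 (qsf 0 536870912 1073741824 536870912 3) ndN0q0 ndN3q2 pcN3 Cut.none Ext.none)

def k0_pm_023 : ∃ t, chk3 f_pm_023 t 1 1 1 = true :=
  ⟨(a (b (b (a (l 17957720) (l 17686632)) (a (l 17519192) (l 17100944))) (a (b (l 17615832) (l 17795304)) (b (l 17771536) (a (l 17878032) (l 18182656))))) (b (a (b (l 2) (a (l 16791296) (l 2))) (l 2)) (a (b (b (l 17240480) (l 17659160)) (a (l 18342912) (l 18381720))) (a (b (b (l 2) (l 17779552)) (b (l 18223288) (l 17994184))) (b (l 2) (a (l 17772824) (b (l 2) (l 17728752)))))))), by decide +kernel⟩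

theorem c_pm_023 : CertN 0 536870912 1073741824 536870912 50331648 16777216 3 true true false .up 0 2 3
    ndN0q0 ndN3q2 pcN3 Cut.none Ext.none :=
  certNK2 (fam := true) (s1 := true) (s2 := false) (a := 0) (b := 2) (c := 3) (cn := .up) (n1 := ndN0q0) (n2 := ndN3q2) (pc := pcN3) (cut := Cut.none) (xt := Ext.none) (P1 := 0) (W1 := 536870912) (P2 := 1073741824) (W2 := 536870912) (P3 := 50331648) (W3 := 16777216) (N0 := 3)
    rfl rfl rfl (fun _ => rfl) k0_pm_023

noncomputable def f_pm_033 : ℕ → ℕ → ℕ → ℕ → Bool := onCell 1610612736 536870912 0 1230186008 50331648 16777216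
    (rowNK 3 2 true true false .pnn 0 3 3 (qsf 0 536870912 0 1230186008 3) ndN0q0 ndN3q3 pcN3 Cut.none Ext.none)

def k0_pm_033 : ∃ t, chk3 f_pm_033 t 1 1 1 = true :=
  ⟨(a (b (l 1) (b (a (l 1) (a (l 1) (b (l 1) (l 19315128)))) (a (b (l 1) (b (l 19658784) (l 19997752))) (b (a (l 20037024) (l 20078320)) (l 20421584))))) (b (a (l 1) (l 4)) (a (b (a (b (l 1) (l 18589528)) (b (l 17327072) (l 17878680))) (b (a (l 19728344) (b (l 18786704) (l 19471536))) (a (l 20567688) (l 20169840)))) (b (a (b (l 17130664) (l 17650464)) (l 4)) (a (b (l 18583912) (b (l 19677768) (l 20043336))) (a (b (l 18398088) (l 19514768)) (b (l 4) (a (l 19279920) (l 19212144))))))))), by decide +kernel⟩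

theorem c_pm_033 : CertN 0 536870912 0 1230186008 50331648 16777216 3 true true false .pnn 0 3 3
    ndN0q0 ndN3q3 pcN3 Cut.none Ext.none :=
  certNK2 (fam := true) (s1 := true) (s2 := false) (a := 0) (b := 3) (c := 3) (cn := .pnn) (n1 := ndN0q0) (n2 := ndN3q3) (pc := pcN3) (cut := Cut.none) (xt := Ext.none) (P1 := 0) (W1 := 536870912) (P2 := 0) (W2 := 1230186008) (P3 := 50331648) (W3 := 16777216) (N0 := 3)
    rfl rfl rfl (fun _ => rfl) k0_pm_033

noncomputable def f_pm_101 : ℕ → ℕ → ℕ → ℕ → Bool := onCell 536870912 536870912 0 536870912 50331648 16777216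
    (rowNK 3 2 true true false .npn 1 0 1 (qsf 536870912 536870912 0 536870912 1) ndN0q1 ndN3q0 pcN1 Cut.none Ext.none)

def k0_pm_101 : ∃ t, chk3 f_pm_101 t 1 1 1 = true :=
  ⟨(a (l 3) (b (a (b (l 3) (l 3)) (b (a (b (l 18343808) (l 17871608)) (b (l 18672192) (l 18164584))) (a (b (l 17469488) (l 228876381687)) (b (l 17673648) (l 17216608))))) (a (l 3) (b (a (b (l 18067576) (l 18624208)) (b (l 17587400) (l 18123792))) (a (b (l 206330400151) (l 407523586535)) (l 124055363287)))))), by decide +kernel⟩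

theorem c_pm_101 : CertN 536870912 536870912 0 536870912 50331648 16777216 3 true true false .npn 1 0 1
    ndN0q1 ndN3q0 pcN1 Cut.none Ext.none :=
  certNK2 (fam := true) (s1 := true) (s2 := false) (a := 1) (b := 0) (c := 1) (cn := .npn) (n1 := ndN0q1) (n2 := ndN3q0) (pc := pcN1) (cut := Cut.none) (xt := Ext.none) (P1 := 536870912) (W1 := 536870912) (P2 := 0) (W2 := 536870912) (P3 := 50331648) (W3 := 16777216) (N0 := 3)
    rfl rfl rfl (fun _ => rfl) k0_pm_101

noncomputable def f_pm_102 : ℕ → ℕ → ℕ → ℕ → Bool := onCell 536870912 536870912 1073741824 536870912 50331648 16777216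
    (rowNK 3 1 true true false .npp 1 0 2 (qsf 536870912 536870912 0 536870912 2) ndN0q1 ndN3q0 pcN2 Cut.none Ext.none)

def k0_pm_102 : ∃ t, chk3 f_pm_102 t 1 1 1 = true :=
  ⟨(a (b (b (b (b (b (a (l 18685968) (l 17742848)) (a (l 18722824) (l 17892880))) (a (l 18763904) (l 18001568))) (a (l 18811824) (l 18287968))) (a (l 18734720) (l 18440856))) (b (a (l 2) (l 18474288)) (l 2))) (b (a (b (b (b (b (l 17468736) (l 17352576)) (a (l 17172648) (l 17214016))) (a (l 17494448) (l 17010992))) (b (l 17734928) (l 18142864))) (b (b (b (b (l 18475136) (l 18242016)) (a (l 17669080) (l 18146776))) (a (l 17193152) (b (l 17692584) (l 17494240)))) (b (l 17744936) (l 18259672)))) (b (a (l 18565048) (l 18909144)) (a (l 18855672) (l 19118920))))), by decide +kernel⟩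

theorem c_pm_102 : CertN 536870912 536870912 0 536870912 50331648 16777216 3 true true false .npp 1 0 2
    ndN0q1 ndN3q0 pcN2 Cut.none Ext.none :=
  certNK1 (fam := true) (s1 := true) (s2 := false) (a := 1) (b := 0) (c := 2) (cn := .npp) (n1 := ndN0q1) (n2 := ndN3q0) (pc := pcN2) (cut := Cut.none) (xt := Ext.none) (P1 := 536870912) (W1 := 536870912) (P2 := 0) (W2 := 536870912) (P3 := 50331648) (W3 := 16777216) (N0 := 3)
    rfl rfl rfl (fun _ => rfl) k0_pm_102

noncomputable def f_pm_112 : ℕ → ℕ → ℕ → ℕ → Bool := onCell 536870912 536870912 1073741824 536870912 50331648 16777216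
    (rowNK 3 1 true true false .dn 1 1 2 (qsf 536870912 536870912 536870912 536870912 2) ndN0q1 ndN3q1 pcN2 Cut.none Ext.none)

def k0_pm_112 : ∃ t, chk3 f_pm_112 t 1 1 1 = true :=
  ⟨(a (b (b (b (b (b (l 18779912) (l 18894560)) (a (l 18665192) (l 1))) (a (l 18601776) (l 18546712))) (l 18398720)) (b (l 18070288) (l 18320176))) (b (b (l 1) (a (l 18026536) (l 1))) (b (a (l 17723552) (l 17775720)) (a (l 17772576) (l 17938328))))), by decide +kernel⟩

theorem c_pm_112 : CertN 536870912 536870912 536870912 536870912 50331648 16777216 3 true true false .dn 1 1 2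
    ndN0q1 ndN3q1 pcN2 Cut.none Ext.none :=
  certNK1 (fam := true) (s1 := true) (s2 := false) (a := 1) (b := 1) (c := 2) (cn := .dn) (n1 := ndN0q1) (n2 := ndN3q1) (pc := pcN2) (cut := Cut.none) (xt := Ext.none) (P1 := 536870912) (W1 := 536870912) (P2 := 536870912) (W2 := 536870912) (P3 := 50331648) (W3 := 16777216) (N0 := 3)
    rfl rfl rfl (fun _ => rfl) k0_pm_112

noncomputable def f_pm_113 : ℕ → ℕ → ℕ → ℕ → Bool := onCell 536870912 536870912 1610612736 536870912 50331648 16777216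
    (rowNK 3 1 true true false .nn 1 1 3 (qsf 536870912 536870912 536870912 536870912 3) ndN0q1 ndN3q1 pcN3 Cut.none Ext.none)

def k0_pm_113 : ∃ t, chk3 f_pm_113 t 1 1 1 = true :=
  ⟨(b (a (b (a (l 66140769367) (b (l 19226088) (l 18596424))) (a (b (l 18463104) (l 2)) (b (l 17886216) (l 18340336)))) (b (a (l 18283840) (b (l 17421984) (l 17837512))) (a (b (l 17818720) (l 18360264)) (b (l 18193776) (l 18350120))))) (b (a (b (a (l 2) (l 18960896)) (l 2)) (b (a (l 18676336) (l 4)) (l 18092296))) (a (l 2) (l 4)))), by decide +kernel⟩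

theorem c_pm_113 : CertN 536870912 536870912 536870912 536870912 50331648 16777216 3 true true false .nn 1 1 3
    ndN0q1 ndN3q1 pcN3 Cut.none Ext.none :=
  certNK1 (fam := true) (s1 := true) (s2 := false) (a := 1) (b := 1) (c := 3) (cn := .nn) (n1 := ndN0q1) (n2 := ndN3q1) (pc := pcN3) (cut := Cut.none) (xt := Ext.none) (P1 := 536870912) (W1 := 536870912) (P2 := 536870912) (W2 := 536870912) (P3 := 50331648) (W3 := 16777216) (N0 := 3)
    rfl rfl rfl (fun _ => rfl) k0_pm_113

noncomputable def f_pm_123 : ℕ → ℕ → ℕ → ℕ → Bool := onCell 536870912 536870912 1610612736 536870912 50331648 16777216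
    (rowNK 3 1 true true false .npn 1 2 3 (qsf 536870912 536870912 1073741824 536870912 3) ndN0q1 ndN3q2 pcN3 Cut.none Ext.none)

def k0_pm_123 : ∃ t, chk3 f_pm_123 t 1 1 1 = true :=
  ⟨(b (a (a (b (l 256124556551) (l 17286888)) (b (l 259884549367) (l 398394529431))) (a (a (b (l 1) (l 511675401799)) (l 1)) (l 1))) (b (b (a (a (l 16939824) (l 17094712)) (a (a (l 347390621815) (a (l 17384312) (l 1))) (l 1))) (a (a (l 17561416) (a (l 17007552) (l 17233320))) (a (a (a (l 17283512) (l 17701640)) (l 17682528)) (a (l 17359816) (l 1))))) (a (b (a (b (l 17641752) (l 17789304)) (a (l 17250992) (l 17512192))) (a (b (l 17793464) (b (l 17679592) (l 17684456))) (b (a (l 17482008) (l 17645352)) (b (l 17571784) (a (b (l 17583232) (l 17615024)) (l 17894328)))))) (b (a (a (l 17826208) (b (l 17708408) (l 17516432))) (b (a (l 17152408) (l 1)) (a (a (l 17147552) (l 16920056)) (l 17376848)))) (a (b (l 17800896) (b (l 17500896) (b (l 17475944) (l 17423672)))) (b (l 17082120) (b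 (l 16845616) (b (l 16800544) (l 4))))))))), by decide +kernel⟩

theorem c_pm_123 : CertN 536870912 536870912 1073741824 536870912 50331648 16777216 3 true true false .npn 1 2 3
    ndN0q1 ndN3q2 pcN3 Cut.none Ext.none :=
  certNK1 (fam := true) (s1 := true) (s2 := false) (a := 1) (b := 2) (c := 3) (cn := .npn) (n1 := ndN0q1) (n2 := ndN3q2) (pc := pcN3) (cut := Cut.none) (xt := Ext.none) (P1 := 536870912) (W1 := 536870912) (P2 := 1073741824) (W2 := 536870912) (P3 := 50331648) (W3 := 16777216) (N0 := 3)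
    rfl rfl rfl (fun _ => rfl) k0_pm_123

noncomputable def f_pm_133 : ℕ → ℕ → ℕ → ℕ → Bool := onCell 536870912 536870912 0 1230186008 50331648 16777216
    (rowNK 3 0 true true false .dn 1 3 3 (qsf 536870912 536870912 0 1230186008 3) ndN0q1 ndN3q3 pcN3 Cut.none Ext.none)

def k0_pm_133 : ∃ t, chk3 f_pm_133 t 1 1 1 = true :=
  ⟨(b (l 2) (b (l 2) (a (b (l 2) (a (l 4) (l 2))) (l 2)))), by decide +kernel⟩

theorem c_pm_133 : CertN 536870912 536870912 0 1230186008 50331648 16777216 3 true true false .dn 1 3 3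
    ndN0q1 ndN3q3 pcN3 Cut.none Ext.none :=
  certNK0 (fam := true) (s1 := true) (s2 := false) (a := 1) (b := 3) (c := 3) (cn := .dn) (n1 := ndN0q1) (n2 := ndN3q3) (pc := pcN3) (cut := Cut.none) (xt := Ext.none) (P1 := 536870912) (W1 := 536870912) (P2 := 0) (W2 := 1230186008) (P3 := 50331648) (W3 := 16777216) (N0 := 3)
    rfl rfl rfl k0_pm_133

noncomputable def f_pm_202 : ℕ → ℕ → ℕ → ℕ → Bool := onCell 0 536870912 1073741824 536870912 50331648 16777216
    (rowNK 3 1 true true false .pp 2 0 2 (qsf 0 536870912 0 536870912 2) ndN0q2 ndN3q0 pcN2 Cut.none Ext.none)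

def k0_pm_202 : ∃ t, chk3 f_pm_202 t 1 1 1 = true :=
  ⟨(a (b (b (b (l 1) (l 18912640)) (b (l 117074865591) (l 17976768))) (b (b (l 17830432) (l 17887648)) (l 18155216))) (a (b (b (b (l 1) (l 18350128)) (b (l 17873056) (l 17846936))) (b (l 18148888) (l 18523152))) (b (b (b (b (b (l 19180000) (l 18941496)) (l 18597104)) (b (l 18164376) (l 17851624))) (l 17963520)) (b (l 18578360) (l 18942304))))), by decide +kernel⟩

theorem c_pm_202 : CertN 0 536870912 0 536870912 50331648 16777216 3 true true false .pp 2 0 2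
    ndN0q2 ndN3q0 pcN2 Cut.none Ext.none :=
  certNK1 (fam := true) (s1 := true) (s2 := false) (a := 2) (b := 0) (c := 2) (cn := .pp) (n1 := ndN0q2) (n2 := ndN3q0) (pc := pcN2) (cut := Cut.none) (xt := Ext.none) (P1 := 0) (W1 := 536870912) (P2 := 0) (W2 := 536870912) (P3 := 50331648) (W3 := 16777216) (N0 := 3)
    rfl rfl rfl (fun _ => rfl) k0_pm_202

noncomputable def f_pm_203 : ℕ → ℕ → ℕ → ℕ → Bool := onCell 0 536870912 1610612736 536870912 50331648 16777216
    (rowNK 3 1 true true false .up 2 0 3 (qsf 0 536870912 0 536870912 3) ndN0q2 ndN3q0 pcN3 Cut.none Ext.none)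

def k0_pm_203 : ∃ t, chk3 f_pm_203 t 1 1 1 = true :=
  ⟨(a (l 4) (b (b (b (l 19051088) (l 19096352)) (b (l 4) (l 2))) (l 2))), by decide +kernel⟩

theorem c_pm_203 : CertN 0 536870912 0 536870912 50331648 16777216 3 true true false .up 2 0 3
    ndN0q2 ndN3q0 pcN3 Cut.none Ext.none :=
  certNK1 (fam := true) (s1 := true) (s2 := false) (a := 2) (b := 0) (c := 3) (cn := .up) (n1 := ndN0q2) (n2 := ndN3q0) (pc := pcN3) (cut := Cut.none) (xt := Ext.none) (P1 := 0) (W1 := 536870912) (P2 := 0) (W2 := 536870912) (P3 := 50331648) (W3 := 16777216) (N0 := 3)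
    rfl rfl rfl (fun _ => rfl) k0_pm_203

noncomputable def f_pm_213 : ℕ → ℕ → ℕ → ℕ → Bool := onCell 0 536870912 1610612736 536870912 50331648 16777216
    (rowNK 3 1 true true false .pnn 2 1 3 (qsf 0 536870912 536870912 536870912 3) ndN0q2 ndN3q1 pcN3 Cut.none Ext.none)

def k0_pm_213 : ∃ t, chk3 f_pm_213 t 1 1 1 = true :=
  ⟨(a (l 4) (b (b (b (l 18221392) (l 18281768)) (b (l 4) (l 4))) (l 4))), by decide +kernel⟩

theorem c_pm_213 : CertN 0 536870912 536870912 536870912 50331648 16777216 3 true true false .pnn 2 1 3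
    ndN0q2 ndN3q1 pcN3 Cut.none Ext.none :=
  certNK1 (fam := true) (s1 := true) (s2 := false) (a := 2) (b := 1) (c := 3) (cn := .pnn) (n1 := ndN0q2) (n2 := ndN3q1) (pc := pcN3) (cut := Cut.none) (xt := Ext.none) (P1 := 0) (W1 := 536870912) (P2 := 536870912) (W2 := 536870912) (P3 := 50331648) (W3 := 16777216) (N0 := 3)
    rfl rfl rfl (fun _ => rfl) k0_pm_213

noncomputable def f_mm_001 : ℕ → ℕ → ℕ → ℕ → Bool := onCell 0 536870912 0 536870912 50331648 16777216
    (rowNK 3 0 true false false .up 0 0 1 (qsf 0 536870912 0 536870912 1) ndN0q0 ndN3q0 pcN1 Cut.none Ext.none)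

def k0_mm_001 : ∃ t, chk3 f_mm_001 t 1 1 1 = true :=
  ⟨(l 4), by decide +kernel⟩

theorem c_mm_001 : CertN 0 536870912 0 536870912 50331648 16777216 3 true false false .up 0 0 1
    ndN0q0 ndN3q0 pcN1 Cut.none Ext.none :=
  certNK0 (fam := true) (s1 := false) (s2 := false) (a := 0) (b := 0) (c := 1) (cn := .up) (n1 := ndN0q0) (n2 := ndN3q0) (pc := pcN1) (cut := Cut.none) (xt := Ext.none) (P1 := 0) (W1 := 536870912) (P2 := 0) (W2 := 536870912) (P3 := 50331648) (W3 := 16777216) (N0 := 3)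
    rfl rfl rfl k0_mm_001

noncomputable def f_mm_011 : ℕ → ℕ → ℕ → ℕ → Bool := onCell 0 536870912 536870912 536870912 50331648 16777216
    (rowNK 3 0 true false false .pnn 0 1 1 (qsf 0 536870912 536870912 536870912 1) ndN0q0 ndN3q1 pcN1 Cut.none Ext.none)

def k0_mm_011 : ∃ t, chk3 f_mm_011 t 1 1 1 = true :=
  ⟨(l 4), by decide +kernel⟩

theorem c_mm_011 : CertN 0 536870912 536870912 536870912 50331648 16777216 3 true false false .pnn 0 1 1
    ndN0q0 ndN3q1 pcN1 Cut.none Ext.none :=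
  certNK0 (fam := true) (s1 := false) (s2 := false) (a := 0) (b := 1) (c := 1) (cn := .pnn) (n1 := ndN0q0) (n2 := ndN3q1) (pc := pcN1) (cut := Cut.none) (xt := Ext.none) (P1 := 0) (W1 := 536870912) (P2 := 536870912) (W2 := 536870912) (P3 := 50331648) (W3 := 16777216) (N0 := 3)
    rfl rfl rfl k0_mm_011

noncomputable def f_mm_012 : ℕ → ℕ → ℕ → ℕ → Bool := onCell 0 536870912 536870912 536870912 50331648 16777216
    (rowNK 3 0 true false false .pnp 0 1 2 (qsf 0 536870912 536870912 536870912 2) ndN0q0 ndN3q1 pcN2 Cut.none Ext.none)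

def k0_mm_012 : ∃ t, chk3 f_mm_012 t 1 1 1 = true :=
  ⟨(l 4), by decide +kernel⟩

theorem c_mm_012 : CertN 0 536870912 536870912 536870912 50331648 16777216 3 true false false .pnp 0 1 2
    ndN0q0 ndN3q1 pcN2 Cut.none Ext.none :=
  certNK0 (fam := true) (s1 := false) (s2 := false) (a := 0) (b := 1) (c := 2) (cn := .pnp) (n1 := ndN0q0) (n2 := ndN3q1) (pc := pcN2) (cut := Cut.none) (xt := Ext.none) (P1 := 0) (W1 := 536870912) (P2 := 536870912) (W2 := 536870912) (P3 := 50331648) (W3 := 16777216) (N0 := 3)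
    rfl rfl rfl k0_mm_012

noncomputable def f_mm_022 : ℕ → ℕ → ℕ → ℕ → Bool := onCell 0 536870912 1073741824 536870912 50331648 16777216
    (rowNK 3 0 true false false .pp 0 2 2 (qsf 0 536870912 1073741824 536870912 2) ndN0q0 ndN3q2 pcN2 Cut.none Ext.none)

def k0_mm_022 : ∃ t, chk3 f_mm_022 t 1 1 1 = true :=
  ⟨(l 4), by decide +kernel⟩

theorem c_mm_022 : CertN 0 536870912 1073741824 536870912 50331648 16777216 3 true false false .pp 0 2 2
    ndN0q0 ndN3q2 pcN2 Cut.none Ext.none :=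
  certNK0 (fam := true) (s1 := false) (s2 := false) (a := 0) (b := 2) (c := 2) (cn := .pp) (n1 := ndN0q0) (n2 := ndN3q2) (pc := pcN2) (cut := Cut.none) (xt := Ext.none) (P1 := 0) (W1 := 536870912) (P2 := 1073741824) (W2 := 536870912) (P3 := 50331648) (W3 := 16777216) (N0 := 3)
    rfl rfl rfl k0_mm_022

noncomputable def f_mm_023 : ℕ → ℕ → ℕ → ℕ → Bool := onCell 0 536870912 1073741824 536870912 50331648 16777216
    (rowNK 3 0 true false false .up 0 2 3 (qsf 0 536870912 1073741824 536870912 3) ndN0q0 ndN3q2 pcN3 Cut.none Ext.none)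

def k0_mm_023 : ∃ t, chk3 f_mm_023 t 1 1 1 = true :=
  ⟨(l 4), by decide +kernel⟩

theorem c_mm_023 : CertN 0 536870912 1073741824 536870912 50331648 16777216 3 true false false .up 0 2 3
    ndN0q0 ndN3q2 pcN3 Cut.none Ext.none :=
  certNK0 (fam := true) (s1 := false) (s2 := false) (a := 0) (b := 2) (c := 3) (cn := .up) (n1 := ndN0q0) (n2 := ndN3q2) (pc := pcN3) (cut := Cut.none) (xt := Ext.none) (P1 := 0) (W1 := 536870912) (P2 := 1073741824) (W2 := 536870912) (P3 := 50331648) (W3 := 16777216) (N0 := 3)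
    rfl rfl rfl k0_mm_023

noncomputable def f_mm_033 : ℕ → ℕ → ℕ → ℕ → Bool := onCell 0 536870912 0 1230186008 50331648 16777216
    (rowNK 3 0 true false false .pnn 0 3 3 (qsf 0 536870912 0 1230186008 3) ndN0q0 ndN3q3 pcN3 Cut.none Ext.none)

def k0_mm_033 : ∃ t, chk3 f_mm_033 t 1 1 1 = true :=
  ⟨(l 5), by decide +kernel⟩

theorem c_mm_033 : CertN 0 536870912 0 1230186008 50331648 16777216 3 true false false .pnn 0 3 3
    ndN0q0 ndN3q3 pcN3 Cut.none Ext.none :=
  certNK0 (fam := true) (s1 := false) (s2 := false) (a := 0) (b := 3) (c := 3) (cn := .pnn) (n1 := ndN0q0) (n2 := ndN3q3) (pc := pcN3) (cut := Cut.none) (xt := Ext.none) (P1 := 0) (W1 := 536870912) (P2 := 0) (W2 := 1230186008) (P3 := 50331648) (W3 := 16777216) (N0 := 3)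
    rfl rfl rfl k0_mm_033

noncomputable def f_mm_101 : ℕ → ℕ → ℕ → ℕ → Bool := onCell 536870912 536870912 0 536870912 50331648 16777216
    (rowNK 3 0 true false false .npn 1 0 1 (qsf 536870912 536870912 0 536870912 1) ndN0q1 ndN3q0 pcN1 Cut.none Ext.none)

def k0_mm_101 : ∃ t, chk3 f_mm_101 t 1 1 1 = true :=
  ⟨(l 4), by decide +kernel⟩

theorem c_mm_101 : CertN 536870912 536870912 0 536870912 50331648 16777216 3 true false false .npn 1 0 1
    ndN0q1 ndN3q0 pcN1 Cut.none Ext.none :=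
  certNK0 (fam := true) (s1 := false) (s2 := false) (a := 1) (b := 0) (c := 1) (cn := .npn) (n1 := ndN0q1) (n2 := ndN3q0) (pc := pcN1) (cut := Cut.none) (xt := Ext.none) (P1 := 536870912) (W1 := 536870912) (P2 := 0) (W2 := 536870912) (P3 := 50331648) (W3 := 16777216) (N0 := 3)
    rfl rfl rfl k0_mm_101

noncomputable def f_mm_102 : ℕ → ℕ → ℕ → ℕ → Bool := onCell 536870912 536870912 0 536870912 50331648 16777216
    (rowNK 3 0 true false false .npp 1 0 2 (qsf 536870912 536870912 0 536870912 2) ndN0q1 ndN3q0 pcN2 Cut.none Ext.none)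

def k0_mm_102 : ∃ t, chk3 f_mm_102 t 1 1 1 = true :=
  ⟨(l 4), by decide +kernel⟩

theorem c_mm_102 : CertN 536870912 536870912 0 536870912 50331648 16777216 3 true false false .npp 1 0 2
    ndN0q1 ndN3q0 pcN2 Cut.none Ext.none :=
  certNK0 (fam := true) (s1 := false) (s2 := false) (a := 1) (b := 0) (c := 2) (cn := .npp) (n1 := ndN0q1) (n2 := ndN3q0) (pc := pcN2) (cut := Cut.none) (xt := Ext.none) (P1 := 536870912) (W1 := 536870912) (P2 := 0) (W2 := 536870912) (P3 := 50331648) (W3 := 16777216) (N0 := 3)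
    rfl rfl rfl k0_mm_102

noncomputable def f_mm_112 : ℕ → ℕ → ℕ → ℕ → Bool := onCell 536870912 536870912 536870912 536870912 50331648 16777216
    (rowNK 3 0 true false false .dn 1 1 2 (qsf 536870912 536870912 536870912 536870912 2) ndN0q1 ndN3q1 pcN2 Cut.none Ext.none)

def k0_mm_112 : ∃ t, chk3 f_mm_112 t 1 1 1 = true :=
  ⟨(l 4), by decide +kernel⟩

theorem c_mm_112 : CertN 536870912 536870912 536870912 536870912 50331648 16777216 3 true false false .dn 1 1 2
    ndN0q1 ndN3q1 pcN2 Cut.none Ext.none :=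
  certNK0 (fam := true) (s1 := false) (s2 := false) (a := 1) (b := 1) (c := 2) (cn := .dn) (n1 := ndN0q1) (n2 := ndN3q1) (pc := pcN2) (cut := Cut.none) (xt := Ext.none) (P1 := 536870912) (W1 := 536870912) (P2 := 536870912) (W2 := 536870912) (P3 := 50331648) (W3 := 16777216) (N0 := 3)
    rfl rfl rfl k0_mm_112

noncomputable def f_mm_113 : ℕ → ℕ → ℕ → ℕ → Bool := onCell 536870912 536870912 536870912 536870912 50331648 16777216
    (rowNK 3 0 true false false .nn 1 1 3 (qsf 536870912 536870912 536870912 536870912 3) ndN0q1 ndN3q1 pcN3 Cut.none Ext.none)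

def k0_mm_113 : ∃ t, chk3 f_mm_113 t 1 1 1 = true :=
  ⟨(l 4), by decide +kernel⟩

theorem c_mm_113 : CertN 536870912 536870912 536870912 536870912 50331648 16777216 3 true false false .nn 1 1 3
    ndN0q1 ndN3q1 pcN3 Cut.none Ext.none :=
  certNK0 (fam := true) (s1 := false) (s2 := false) (a := 1) (b := 1) (c := 3) (cn := .nn) (n1 := ndN0q1) (n2 := ndN3q1) (pc := pcN3) (cut := Cut.none) (xt := Ext.none) (P1 := 536870912) (W1 := 536870912) (P2 := 536870912) (W2 := 536870912) (P3 := 50331648) (W3 := 16777216) (N0 := 3)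
    rfl rfl rfl k0_mm_113

noncomputable def f_mm_123 : ℕ → ℕ → ℕ → ℕ → Bool := onCell 536870912 536870912 1073741824 536870912 50331648 16777216
    (rowNK 3 0 true false false .npn 1 2 3 (qsf 536870912 536870912 1073741824 536870912 3) ndN0q1 ndN3q2 pcN3 Cut.none Ext.none)

def k0_mm_123 : ∃ t, chk3 f_mm_123 t 1 1 1 = true :=
  ⟨(l 4), by decide +kernel⟩

theorem c_mm_123 : CertN 536870912 536870912 1073741824 536870912 50331648 16777216 3 true false false .npn 1 2 3
    ndN0q1 ndN3q2 pcN3 Cut.none Ext.none :=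
  certNK0 (fam := true) (s1 := false) (s2 := false) (a := 1) (b := 2) (c := 3) (cn := .npn) (n1 := ndN0q1) (n2 := ndN3q2) (pc := pcN3) (cut := Cut.none) (xt := Ext.none) (P1 := 536870912) (W1 := 536870912) (P2 := 1073741824) (W2 := 536870912) (P3 := 50331648) (W3 := 16777216) (N0 := 3)
    rfl rfl rfl k0_mm_123

noncomputable def f_mm_133 : ℕ → ℕ → ℕ → ℕ → Bool := onCell 536870912 536870912 0 1230186008 50331648 16777216
    (rowNK 3 0 true false false .dn 1 3 3 (qsf 536870912 536870912 0 1230186008 3) ndN0q1 ndN3q3 pcN3 Cut.none Ext.none)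

def k0_mm_133 : ∃ t, chk3 f_mm_133 t 1 1 1 = true :=
  ⟨(l 4), by decide +kernel⟩

theorem c_mm_133 : CertN 536870912 536870912 0 1230186008 50331648 16777216 3 true false false .dn 1 3 3
    ndN0q1 ndN3q3 pcN3 Cut.none Ext.none :=
  certNK0 (fam := true) (s1 := false) (s2 := false) (a := 1) (b := 3) (c := 3) (cn := .dn) (n1 := ndN0q1) (n2 := ndN3q3) (pc := pcN3) (cut := Cut.none) (xt := Ext.none) (P1 := 536870912) (W1 := 536870912) (P2 := 0) (W2 := 1230186008) (P3 := 50331648) (W3 := 16777216) (N0 := 3)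
    rfl rfl rfl k0_mm_133

noncomputable def f_mm_202 : ℕ → ℕ → ℕ → ℕ → Bool := onCell 0 536870912 0 536870912 50331648 16777216
    (rowNK 3 0 true false false .pp 2 0 2 (qsf 0 536870912 0 536870912 2) ndN0q2 ndN3q0 pcN2 Cut.none Ext.none)

def k0_mm_202 : ∃ t, chk3 f_mm_202 t 1 1 1 = true :=
  ⟨(b (a (b (b (a (l 18478200) (l 18465056)) (l 21712477975)) (l 4)) (l 4)) (l 4)), by decide +kernel⟩

theorem c_mm_202 : CertN 0 536870912 0 536870912 50331648 16777216 3 true false false .pp 2 0 2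
    ndN0q2 ndN3q0 pcN2 Cut.none Ext.none :=
  certNK0 (fam := true) (s1 := false) (s2 := false) (a := 2) (b := 0) (c := 2) (cn := .pp) (n1 := ndN0q2) (n2 := ndN3q0) (pc := pcN2) (cut := Cut.none) (xt := Ext.none) (P1 := 0) (W1 := 536870912) (P2 := 0) (W2 := 536870912) (P3 := 50331648) (W3 := 16777216) (N0 := 3)
    rfl rfl rfl k0_mm_202

noncomputable def f_mm_203 : ℕ → ℕ → ℕ → ℕ → Bool := onCell 0 536870912 1610612736 536870912 50331648 16777216
    (rowNK 3 1 true false false .up 2 0 3 (qsf 0 536870912 0 536870912 3) ndN0q2 ndN3q0 pcN3 Cut.none Ext.none)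

def k0_mm_203 : ∃ t, chk3 f_mm_203 t 1 1 1 = true :=
  ⟨(l 4), by decide +kernel⟩

theorem c_mm_203 : CertN 0 536870912 0 536870912 50331648 16777216 3 true false false .up 2 0 3
    ndN0q2 ndN3q0 pcN3 Cut.none Ext.none :=
  certNK1 (fam := true) (s1 := false) (s2 := false) (a := 2) (b := 0) (c := 3) (cn := .up) (n1 := ndN0q2) (n2 := ndN3q0) (pc := pcN3) (cut := Cut.none) (xt := Ext.none) (P1 := 0) (W1 := 536870912) (P2 := 0) (W2 := 536870912) (P3 := 50331648) (W3 := 16777216) (N0 := 3)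
    rfl rfl rfl (fun _ => rfl) k0_mm_203

noncomputable def f_mm_213 : ℕ → ℕ → ℕ → ℕ → Bool := onCell 0 536870912 536870912 536870912 50331648 16777216
    (rowNK 3 0 true false false .pnn 2 1 3 (qsf 0 536870912 536870912 536870912 3) ndN0q2 ndN3q1 pcN3 Cut.none Ext.none)

def k0_mm_213 : ∃ t, chk3 f_mm_213 t 1 1 1 = true :=
  ⟨(l 4), by decide +kernel⟩

theorem c_mm_213 : CertN 0 536870912 536870912 536870912 50331648 16777216 3 true false false .pnn 2 1 3
    ndN0q2 ndN3q1 pcN3 Cut.none Ext.none :=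
  certNK0 (fam := true) (s1 := false) (s2 := false) (a := 2) (b := 1) (c := 3) (cn := .pnn) (n1 := ndN0q2) (n2 := ndN3q1) (pc := pcN3) (cut := Cut.none) (xt := Ext.none) (P1 := 0) (W1 := 536870912) (P2 := 536870912) (W2 := 536870912) (P3 := 50331648) (W3 := 16777216) (N0 := 3)
    rfl rfl rfl k0_mm_213

end Pool.Agent.Strip051.G.I3_64_1_16.Tab.C.NA03

namespace Pool.Agent.Strip051.G.I3_64_1_16.Tab.C.NA04

open Pool.Agent.Strip051.PB Pool.Agent.Strip051.PB.T
open Pool.Agent.Strip051.G.I3_64_1_16.Tab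

noncomputable def f_pp_001 : ℕ → ℕ → ℕ → ℕ → Bool := onCell 0 536870912 0 536870912 50331648 16777216
    (rowNK 3 0 true true true .up 0 0 1 (qsf 0 536870912 0 536870912 1) ndN0q0 ndN4q0 pcN1 Cut.none Ext.none)

def k0_pp_001 : ∃ t, chk3 f_pp_001 t 1 1 1 = true :=
  ⟨(l 4), by decide +kernel⟩

theorem c_pp_001 : CertN 0 536870912 0 536870912 50331648 16777216 3 true true true .up 0 0 1
    ndN0q0 ndN4q0 pcN1 Cut.none Ext.none :=
  certNK0 (fam := true) (s1 := true) (s2 := true) (a := 0) (b := 0) (c := 1) (cn := .up) (n1 := ndN0q0) (n2 := ndN4q0) (pc := pcN1) (cut := Cut.none) (xt := Ext.none) (P1 := 0) (W1 := 536870912) (P2 := 0) (W2 := 536870912) (P3 := 50331648) (W3 := 16777216) (N0 := 3)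
    rfl rfl rfl k0_pp_001

noncomputable def f_pp_011 : ℕ → ℕ → ℕ → ℕ → Bool := onCell 0 536870912 536870912 536870912 50331648 16777216
    (rowNK 3 0 true true true .pnn 0 1 1 (qsf 0 536870912 536870912 536870912 1) ndN0q0 ndN4q1 pcN1 Cut.none Ext.none)

def k0_pp_011 : ∃ t, chk3 f_pp_011 t 1 1 1 = true :=
  ⟨(l 4), by decide +kernel⟩

theorem c_pp_011 : CertN 0 536870912 536870912 536870912 50331648 16777216 3 true true true .pnn 0 1 1
    ndN0q0 ndN4q1 pcN1 Cut.none Ext.none :=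
  certNK0 (fam := true) (s1 := true) (s2 := true) (a := 0) (b := 1) (c := 1) (cn := .pnn) (n1 := ndN0q0) (n2 := ndN4q1) (pc := pcN1) (cut := Cut.none) (xt := Ext.none) (P1 := 0) (W1 := 536870912) (P2 := 536870912) (W2 := 536870912) (P3 := 50331648) (W3 := 16777216) (N0 := 3)
    rfl rfl rfl k0_pp_011

noncomputable def f_pp_012 : ℕ → ℕ → ℕ → ℕ → Bool := onCell 0 536870912 536870912 536870912 50331648 16777216
    (rowNK 3 0 true true true .pnp 0 1 2 (qsf 0 536870912 536870912 536870912 2) ndN0q0 ndN4q1 pcN2 Cut.none Ext.none)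

def k0_pp_012 : ∃ t, chk3 f_pp_012 t 1 1 1 = true :=
  ⟨(l 4), by decide +kernel⟩

theorem c_pp_012 : CertN 0 536870912 536870912 536870912 50331648 16777216 3 true true true .pnp 0 1 2
    ndN0q0 ndN4q1 pcN2 Cut.none Ext.none :=
  certNK0 (fam := true) (s1 := true) (s2 := true) (a := 0) (b := 1) (c := 2) (cn := .pnp) (n1 := ndN0q0) (n2 := ndN4q1) (pc := pcN2) (cut := Cut.none) (xt := Ext.none) (P1 := 0) (W1 := 536870912) (P2 := 536870912) (W2 := 536870912) (P3 := 50331648) (W3 := 16777216) (N0 := 3)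
    rfl rfl rfl k0_pp_012

noncomputable def f_pp_022 : ℕ → ℕ → ℕ → ℕ → Bool := onCell 0 536870912 1073741824 536870912 50331648 16777216
    (rowNK 3 0 true true true .pp 0 2 2 (qsf 0 536870912 1073741824 536870912 2) ndN0q0 ndN4q2 pcN2 Cut.none Ext.none)

def k0_pp_022 : ∃ t, chk3 f_pp_022 t 1 1 1 = true :=
  ⟨(l 4), by decide +kernel⟩

theorem c_pp_022 : CertN 0 536870912 1073741824 536870912 50331648 16777216 3 true true true .pp 0 2 2
    ndN0q0 ndN4q2 pcN2 Cut.none Ext.none :=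
  certNK0 (fam := true) (s1 := true) (s2 := true) (a := 0) (b := 2) (c := 2) (cn := .pp) (n1 := ndN0q0) (n2 := ndN4q2) (pc := pcN2) (cut := Cut.none) (xt := Ext.none) (P1 := 0) (W1 := 536870912) (P2 := 1073741824) (W2 := 536870912) (P3 := 50331648) (W3 := 16777216) (N0 := 3)
    rfl rfl rfl k0_pp_022

noncomputable def f_pp_023 : ℕ → ℕ → ℕ → ℕ → Bool := onCell 0 536870912 1073741824 536870912 50331648 16777216
    (rowNK 3 0 true true true .up 0 2 3 (qsf 0 536870912 1073741824 536870912 3) ndN0q0 ndN4q2 pcN3 Cut.none Ext.none)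

def k0_pp_023 : ∃ t, chk3 f_pp_023 t 1 1 1 = true :=
  ⟨(l 4), by decide +kernel⟩

theorem c_pp_023 : CertN 0 536870912 1073741824 536870912 50331648 16777216 3 true true true .up 0 2 3
    ndN0q0 ndN4q2 pcN3 Cut.none Ext.none :=
  certNK0 (fam := true) (s1 := true) (s2 := true) (a := 0) (b := 2) (c := 3) (cn := .up) (n1 := ndN0q0) (n2 := ndN4q2) (pc := pcN3) (cut := Cut.none) (xt := Ext.none) (P1 := 0) (W1 := 536870912) (P2 := 1073741824) (W2 := 536870912) (P3 := 50331648) (W3 := 16777216) (N0 := 3)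
    rfl rfl rfl k0_pp_023

noncomputable def f_pp_033 : ℕ → ℕ → ℕ → ℕ → Bool := onCell 0 536870912 0 1230186008 50331648 16777216
    (rowNK 3 0 true true true .pnn 0 3 3 (qsf 0 536870912 0 1230186008 3) ndN0q0 ndN4q3 pcN3 Cut.none Ext.none)

def k0_pp_033 : ∃ t, chk3 f_pp_033 t 1 1 1 = true :=
  ⟨(l 4), by decide +kernel⟩

theorem c_pp_033 : CertN 0 536870912 0 1230186008 50331648 16777216 3 true true true .pnn 0 3 3
    ndN0q0 ndN4q3 pcN3 Cut.none Ext.none :=
  certNK0 (fam := true) (s1 := true) (s2 := true) (a := 0) (b := 3) (c := 3) (cn := .pnn) (n1 := ndN0q0) (n2 := ndN4q3) (pc := pcN3) (cut := Cut.none) (xt := Ext.none) (P1 := 0) (W1 := 536870912) (P2 := 0) (W2 := 1230186008) (P3 := 50331648) (W3 := 16777216) (N0 := 3)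
    rfl rfl rfl k0_pp_033

noncomputable def f_pp_101 : ℕ → ℕ → ℕ → ℕ → Bool := onCell 536870912 536870912 0 536870912 50331648 16777216
    (rowNK 3 0 true true true .npn 1 0 1 (qsf 536870912 536870912 0 536870912 1) ndN0q1 ndN4q0 pcN1 Cut.none Ext.none)

def k0_pp_101 : ∃ t, chk3 f_pp_101 t 1 1 1 = true :=
  ⟨(l 4), by decide +kernel⟩

theorem c_pp_101 : CertN 536870912 536870912 0 536870912 50331648 16777216 3 true true true .npn 1 0 1
    ndN0q1 ndN4q0 pcN1 Cut.none Ext.none :=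
  certNK0 (fam := true) (s1 := true) (s2 := true) (a := 1) (b := 0) (c := 1) (cn := .npn) (n1 := ndN0q1) (n2 := ndN4q0) (pc := pcN1) (cut := Cut.none) (xt := Ext.none) (P1 := 536870912) (W1 := 536870912) (P2 := 0) (W2 := 536870912) (P3 := 50331648) (W3 := 16777216) (N0 := 3)
    rfl rfl rfl k0_pp_101

noncomputable def f_pp_102 : ℕ → ℕ → ℕ → ℕ → Bool := onCell 536870912 536870912 0 536870912 50331648 16777216
    (rowNK 3 0 true true true .npp 1 0 2 (qsf 536870912 536870912 0 536870912 2) ndN0q1 ndN4q0 pcN2 Cut.none Ext.none)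

def k0_pp_102 : ∃ t, chk3 f_pp_102 t 1 1 1 = true :=
  ⟨(l 4), by decide +kernel⟩

theorem c_pp_102 : CertN 536870912 536870912 0 536870912 50331648 16777216 3 true true true .npp 1 0 2
    ndN0q1 ndN4q0 pcN2 Cut.none Ext.none :=
  certNK0 (fam := true) (s1 := true) (s2 := true) (a := 1) (b := 0) (c := 2) (cn := .npp) (n1 := ndN0q1) (n2 := ndN4q0) (pc := pcN2) (cut := Cut.none) (xt := Ext.none) (P1 := 536870912) (W1 := 536870912) (P2 := 0) (W2 := 536870912) (P3 := 50331648) (W3 := 16777216) (N0 := 3)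
    rfl rfl rfl k0_pp_102

noncomputable def f_pp_112 : ℕ → ℕ → ℕ → ℕ → Bool := onCell 536870912 536870912 536870912 536870912 50331648 16777216
    (rowNK 3 0 true true true .dn 1 1 2 (qsf 536870912 536870912 536870912 536870912 2) ndN0q1 ndN4q1 pcN2 Cut.none Ext.none)

def k0_pp_112 : ∃ t, chk3 f_pp_112 t 1 1 1 = true :=
  ⟨(l 4), by decide +kernel⟩

theorem c_pp_112 : CertN 536870912 536870912 536870912 536870912 50331648 16777216 3 true true true .dn 1 1 2
    ndN0q1 ndN4q1 pcN2 Cut.none Ext.none :=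
  certNK0 (fam := true) (s1 := true) (s2 := true) (a := 1) (b := 1) (c := 2) (cn := .dn) (n1 := ndN0q1) (n2 := ndN4q1) (pc := pcN2) (cut := Cut.none) (xt := Ext.none) (P1 := 536870912) (W1 := 536870912) (P2 := 536870912) (W2 := 536870912) (P3 := 50331648) (W3 := 16777216) (N0 := 3)
    rfl rfl rfl k0_pp_112

noncomputable def f_pp_113 : ℕ → ℕ → ℕ → ℕ → Bool := onCell 536870912 536870912 536870912 536870912 50331648 16777216
    (rowNK 3 0 true true true .nn 1 1 3 (qsf 536870912 536870912 536870912 536870912 3) ndN0q1 ndN4q1 pcN3 Cut.none Ext.none)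

def k0_pp_113 : ∃ t, chk3 f_pp_113 t 1 1 1 = true :=
  ⟨(l 4), by decide +kernel⟩

theorem c_pp_113 : CertN 536870912 536870912 536870912 536870912 50331648 16777216 3 true true true .nn 1 1 3
    ndN0q1 ndN4q1 pcN3 Cut.none Ext.none :=
  certNK0 (fam := true) (s1 := true) (s2 := true) (a := 1) (b := 1) (c := 3) (cn := .nn) (n1 := ndN0q1) (n2 := ndN4q1) (pc := pcN3) (cut := Cut.none) (xt := Ext.none) (P1 := 536870912) (W1 := 536870912) (P2 := 536870912) (W2 := 536870912) (P3 := 50331648) (W3 := 16777216) (N0 := 3)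
    rfl rfl rfl k0_pp_113

noncomputable def f_pp_123 : ℕ → ℕ → ℕ → ℕ → Bool := onCell 536870912 536870912 1073741824 536870912 50331648 16777216
    (rowNK 3 0 true true true .npn 1 2 3 (qsf 536870912 536870912 1073741824 536870912 3) ndN0q1 ndN4q2 pcN3 Cut.none Ext.none)

def k0_pp_123 : ∃ t, chk3 f_pp_123 t 1 1 1 = true :=
  ⟨(l 4), by decide +kernel⟩

theorem c_pp_123 : CertN 536870912 536870912 1073741824 536870912 50331648 16777216 3 true true true .npn 1 2 3
    ndN0q1 ndN4q2 pcN3 Cut.none Ext.none :=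
  certNK0 (fam := true) (s1 := true) (s2 := true) (a := 1) (b := 2) (c := 3) (cn := .npn) (n1 := ndN0q1) (n2 := ndN4q2) (pc := pcN3) (cut := Cut.none) (xt := Ext.none) (P1 := 536870912) (W1 := 536870912) (P2 := 1073741824) (W2 := 536870912) (P3 := 50331648) (W3 := 16777216) (N0 := 3)
    rfl rfl rfl k0_pp_123

noncomputable def f_pp_133 : ℕ → ℕ → ℕ → ℕ → Bool := onCell 536870912 536870912 0 1230186008 50331648 16777216
    (rowNK 3 0 true true true .dn 1 3 3 (qsf 536870912 536870912 0 1230186008 3) ndN0q1 ndN4q3 pcN3 Cut.none Ext.none)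

def k0_pp_133 : ∃ t, chk3 f_pp_133 t 1 1 1 = true :=
  ⟨(l 4), by decide +kernel⟩

theorem c_pp_133 : CertN 536870912 536870912 0 1230186008 50331648 16777216 3 true true true .dn 1 3 3
    ndN0q1 ndN4q3 pcN3 Cut.none Ext.none :=
  certNK0 (fam := true) (s1 := true) (s2 := true) (a := 1) (b := 3) (c := 3) (cn := .dn) (n1 := ndN0q1) (n2 := ndN4q3) (pc := pcN3) (cut := Cut.none) (xt := Ext.none) (P1 := 536870912) (W1 := 536870912) (P2 := 0) (W2 := 1230186008) (P3 := 50331648) (W3 := 16777216) (N0 := 3)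
    rfl rfl rfl k0_pp_133

noncomputable def f_pp_202 : ℕ → ℕ → ℕ → ℕ → Bool := onCell 0 536870912 0 536870912 50331648 16777216
    (rowNK 3 0 true true true .pp 2 0 2 (qsf 0 536870912 0 536870912 2) ndN0q2 ndN4q0 pcN2 Cut.none Ext.none)

def k0_pp_202 : ∃ t, chk3 f_pp_202 t 1 1 1 = true :=
  ⟨(l 4), by decide +kernel⟩

theorem c_pp_202 : CertN 0 536870912 0 536870912 50331648 16777216 3 true true true .pp 2 0 2
    ndN0q2 ndN4q0 pcN2 Cut.none Ext.none :=
  certNK0 (fam := true) (s1 := true) (s2 := true) (a := 2) (b := 0) (c := 2) (cn := .pp) (n1 := ndN0q2) (n2 := ndN4q0) (pc := pcN2) (cut := Cut.none) (xt := Ext.none) (P1 := 0) (W1 := 536870912) (P2 := 0) (W2 := 536870912) (P3 := 50331648) (W3 := 16777216) (N0 := 3)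
    rfl rfl rfl k0_pp_202

noncomputable def f_pp_203 : ℕ → ℕ → ℕ → ℕ → Bool := onCell 0 536870912 0 536870912 50331648 16777216
    (rowNK 3 0 true true true .up 2 0 3 (qsf 0 536870912 0 536870912 3) ndN0q2 ndN4q0 pcN3 Cut.none Ext.none)

def k0_pp_203 : ∃ t, chk3 f_pp_203 t 1 1 1 = true :=
  ⟨(l 4), by decide +kernel⟩

theorem c_pp_203 : CertN 0 536870912 0 536870912 50331648 16777216 3 true true true .up 2 0 3
    ndN0q2 ndN4q0 pcN3 Cut.none Ext.none :=
  certNK0 (fam := true) (s1 := true) (s2 := true) (a := 2) (b := 0) (c := 3) (cn := .up) (n1 := ndN0q2) (n2 := ndN4q0) (pc := pcN3) (cut := Cut.none) (xt := Ext.none) (P1 := 0) (W1 := 536870912) (P2 := 0) (W2 := 536870912) (P3 := 50331648) (W3 := 16777216) (N0 := 3)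
    rfl rfl rfl k0_pp_203

noncomputable def f_pp_213 : ℕ → ℕ → ℕ → ℕ → Bool := onCell 0 536870912 536870912 536870912 50331648 16777216
    (rowNK 3 0 true true true .pnn 2 1 3 (qsf 0 536870912 536870912 536870912 3) ndN0q2 ndN4q1 pcN3 Cut.none Ext.none)

def k0_pp_213 : ∃ t, chk3 f_pp_213 t 1 1 1 = true :=
  ⟨(l 4), by decide +kernel⟩

theorem c_pp_213 : CertN 0 536870912 536870912 536870912 50331648 16777216 3 true true true .pnn 2 1 3
    ndN0q2 ndN4q1 pcN3 Cut.none Ext.none :=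
  certNK0 (fam := true) (s1 := true) (s2 := true) (a := 2) (b := 1) (c := 3) (cn := .pnn) (n1 := ndN0q2) (n2 := ndN4q1) (pc := pcN3) (cut := Cut.none) (xt := Ext.none) (P1 := 0) (W1 := 536870912) (P2 := 536870912) (W2 := 536870912) (P3 := 50331648) (W3 := 16777216) (N0 := 3)
    rfl rfl rfl k0_pp_213

noncomputable def f_pm_001 : ℕ → ℕ → ℕ → ℕ → Bool := onCell 0 536870912 536870912 536870912 50331648 16777216
    (rowNK 3 1 true true false .up 0 0 1 (qsf 0 536870912 0 536870912 1) ndN0q0 ndN4q0 pcN1 Cut.none Ext.none)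

def k0_pm_001 : ∃ t, chk3 f_pm_001 t 1 1 1 = true :=
  ⟨(a (b (l 3) (b (b (l 3) (l 2)) (l 2))) (b (b (l 3) (a (l 3) (b (a (l 3) (b (a (l 3) (b (l 3) (l 330343587671))) (a (b (l 3) (l 387251884199)) (b (a (l 311016187079) (l 16877496)) (l 16906224))))) (a (b (a (l 3) (a (l 3) (l 381346304583))) (a (b (l 327122357271) (a (l 315848022519) (l 315847982151))) (b (a (l 344302135159) (l 16825808)) (l 16850600)))) (b (a (b (a (l 357723935751) (l 16851088)) (l 16863752)) (l 16906408)) (a (l 16934808) (l 17052400))))))) (b (a (b (a (b (l 3) (a (l 3) (b (l 3) (a (l 3) (l 333564766343))))) (b (a (l 3) (b (a (l 3) (l 342691547367)) (a (l 337322837847) (l 16870840)))) (a (b (a (l 316384901575) (l 307258045047)) (a (l 243370427079) (l 16840392))) (b (l 16847512) (l 16939624))))) (a (b (a (l 2) (b (l 181026332087) (l 2))) (l 2)) (b (a (l 16893432) (l 17085896)) (l 17363096)))) (b (a (b (a (a (l 168208552567) (l 16878248)) (l 16971888)) (a (l 17041464) (l 17140936))) (l 17398496))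 (a (l 17554488) (l 17572544)))) (a (b (a (l 2) (l 172975260551)) (l 2)) (b (l 170291567367) (l 18451096)))))), by decide +kernel⟩

theorem c_pm_001 : CertN 0 536870912 0 536870912 50331648 16777216 3 true true false .up 0 0 1
    ndN0q0 ndN4q0 pcN1 Cut.none Ext.none :=
  certNK1 (fam := true) (s1 := true) (s2 := false) (a := 0) (b := 0) (c := 1) (cn := .up) (n1 := ndN0q0) (n2 := ndN4q0) (pc := pcN1) (cut := Cut.none) (xt := Ext.none) (P1 := 0) (W1 := 536870912) (P2 := 0) (W2 := 536870912) (P3 := 50331648) (W3 := 16777216) (N0 := 3)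
    rfl rfl rfl (fun _ => rfl) k0_pm_001

noncomputable def cut_pm_011 : Cut := Cut.of [[⟨0, 0, 0, 50331648⟩, ⟨1, 1, 0, 50331648⟩, ⟨2, 1, 0, 50331648⟩]]

noncomputable def f_pm_011 : ℕ → ℕ → ℕ → ℕ → Bool := onCell 0 536870912 536870912 536870912 50331648 16777216
    (rowNK 3 1 true true false .pnn 0 1 1 (qsf 0 536870912 536870912 536870912 1) ndN0q0 ndN4q1 pcN1 cut_pm_011 Ext.none)

def k0_pm_011 : ∃ t, chk3 f_pm_011 t 1 2 1 = true :=
  ⟨(a (l 3) (b (l 1) (a (l 3) (l 1)))), by decide +kernel⟩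

def k1_pm_011 : ∃ t, chk3 f_pm_011 t 2 6 1 = true :=
  ⟨(a (l 3) (b (l 3) (a (l 3) (b (l 3) (a (b (l 3) (b (l 3) (l 371145729415))) (b (a (l 3) (l 311016153655)) (a (b (l 317995443639) (l 186998942487)) (b (l 137606805351) (l 16871464))))))))), by decide +kernel⟩

def k2_pm_011 : ∃ t, chk3 f_pm_011 t 4 14 1 = true :=
  ⟨(a (l 3) (b (l 3) (a (l 3) (b (l 3) (a (l 3) (b (l 3) (a (b (l 3) (l 307794848183)) (b (l 289004371127) (a (b (l 277730053943) (l 128479943223)) (l 16790760)))))))))), by decide +kernel⟩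

def k3_pm_011 : ∃ t, chk3 f_pm_011 t 8 30 1 = true :=
  ⟨(a (l 3) (b (l 3) (a (l 3) (b (l 3) (a (l 3) (b (l 3) (a (l 3) (b (l 3) (a (b (l 3) (a (l 3) (b (l 3) (l 235317240727)))) (b (a (l 3) (b (l 289541199415) (l 214916143623))) (a (b (l 225116693495) (l 16782216)) (l 16781704)))))))))))), by decide +kernel⟩

def k4_pm_011 : ∃ t, chk3 f_pm_011 t 16 31 1 = true :=
  ⟨(b (a (l 3) (b (l 3) (a (l 3) (b (l 3) (a (l 3) (b (l 3) (b (l 3) (a (l 3) (a (l 3) (b (l 3) (b (a (l 3) (a (l 3) (l 215453010599))) (a (l 6) (a (l 123648083975) (l 16777432)))))))))))))) (a (l 6) (b (b (a (l 6) (a (l 6) (b (a (l 6) (a (l 6) (a (l 6) (b (l 16781312) (l 6))))) (l 6)))) (l 6)) (l 6)))), by decide +kernel⟩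

def k5_pm_011 : ∃ t, chk3 f_pm_011 t 34 124 1 = true :=
  ⟨(a (l 3) (b (l 3) (a (l 3) (b (l 3) (a (l 3) (b (l 3) (a (a (l 401747217415) (b (l 3) (b (l 398525990135) (l 154786596583)))) (a (b (l 407115925143) (l 98415150679)) (b (b (l 372756186407) (l 137606727191)) (l 16781576)))))))))), by decide +kernel⟩

def k6_pm_011 : ∃ t, chk3 f_pm_011 t 68 125 1 = true :=
  ⟨(b (a (l 3) (b (l 3) (a (l 3) (b (l 3) (a (l 333564618263) (b (l 324974682119) (a (b (l 311552908071) (l 132238018311)) (b (l 125258696343) (l 16777880))))))))) (a (b (a (l 3) (b (l 3) (a (l 3) (b (l 3) (b (a (l 3) (a (l 271824460407) (l 146196662215))) (a (a (l 279877518935) (l 154786596903)) (l 16779848))))))) (a (b (a (l 3) (b (l 3) (b (a (l 3) (a (l 305647322999) (l 182703884615))) (a (a (l 305647323095) (l 190756948391)) (l 67276637895))))) (a (a (a (b (l 309942296487) (b (l 115595020231) (l 16777104))) (b (b (l 3) (l 207399946839)) (l 16779704))) (b (b (a (l 304573581367) (l 198810012151))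 (l 79624669047)) (l 16781840))) (a (b (b (l 73719088935) (l 16782104)) (l 16786424)) (l 16781136)))) (b (a (b (b (a (l 3) (a (l 288467453623) (l 163376531591))) (a (a (l 295446775591) (l 172503337191)) (l 16778640))) (l 29695674007)) (b (l 16777952) (l 16785912))) (a (b (l 16786008) (l 16784816)) (b (l 16784824) (l 16794456)))))) (b (a (b (a (l 328732780503) (b (l 325511553495) (b (a (l 313700386935) (a (l 209010559175) (l 16778112))) (a (a (l 218674235703) (l 118279374391)) (l 16782256))))) (a (b (b (a (l 3) (a (l 228337912231) (l 127406179991))) (a (a (l 237464717831) (l 136532985591)) (l 16779744))) (l 16779160)) (b (l 16781680) (l 16785696)))) (b (a (b (b (a (l 316384746519) (l 142438566071)) (a (a (l 198273140823) (l 16778712)) (l 16777376))) (l 16777248)) (l 16778448)) (l 16777088))) (a (b (a (b (l 16785808) (l 16795312)) (l 16784400)) (a (l 16794032) (l 16793184))) (b (l 16784408) (l 16791912)))))), by decide +kernel⟩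

def k7_pm_011 : ∃ t, chk3 f_pm_011 t 69 125 1 = true :=
  ⟨(b (a (b (a (l 3) (b (l 3) (a (b (l 3) (b (l 3) (a (l 3) (a (l 337322716551) (l 196662527735))))) (b (b (l 3) (a (l 3) (a (l 384567346055) (l 174650820071)))) (b (a (a (l 381882991639) (l 185925109367)) (l 16778328)) (l 16779160)))))) (a (b (a (b (l 3) (l 322290327319)) (b (a (l 3) (a (l 333027744935) (l 335712096167))) (a (b (l 295446780215) (l 102710117655)) (l 63518541127)))) (a (b (a (b (l 301889231415) (l 117742503447)) (l 73719088663)) (l 16779080)) (l 16781024))) (b (a (b (a (b (a (l 331417136647) (l 207399946103)) (l 16777808)) (l 16778792)) (l 16780896)) (l 16783456)) (l 16786784)))) (a (b (a (a (b (l 3) (b (a (b (l 381346120455) (l 16777968)) (l 98415150327)) (l 16781520))) (b (a (l 387788573207) (b (l 3) (b (l 3) (l 16777800)))) (l 16779288))) (b (a (b (l 399062861847) (a (l 145122920215) (l 16778440))) (b (b (l 414095246583) (l 172503336647)) (l 16780376))) (l 16785752))) (l 16778400))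 (b (a (a (b (b (l 108615697831) (l 16783088)) (l 16789928)) (l 16777832)) (l 16782400)) (l 16785520)))) (a (a (b (l 16777608) (c (l 16781576) (l 16772728))) (b (l 16781248) (l 16770424))) (b (a (l 16782664) (l 16817968)) (a (l 16785144) (l 16823112))))), by decide +kernel⟩

def k8_pm_011 : ∃ t, chk3 f_pm_011 t 35 62 1 = true :=
  ⟨(b (a (b (a (l 3) (b (l 3) (a (b (l 3) (l 405505315511)) (b (l 391009801031) (a (b (l 348596997351) (a (l 218674240663) (l 105931344647))) (b (a (l 192367562439) (l 16779776)) (l 16785096))))))) (a (b (a (l 3) (b (l 3) (a (b (l 3) (a (l 334101481255) (l 152639113847))) (b (a (l 307257946199) (l 140827953655)) (l 16779800))))) (b (a (a (a (l 410874022359) (b (l 3) (b (l 337322706263) (l 16778504)))) (b (a (l 359334414071) (c (l 162839660775) (l 162839660823))) (l 16778576))) (l 16778304)) (a (a (b (l 64592283255) (l 16786264)) (l 16790056)) (l 16800672)))) (b (a (b (a (b (l 371682446439) (a (l 280951263719) (l 129016793767))) (b (a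 (l 232096013399) (l 117742504663)) (l 16783728))) (l 16779720)) (l 16778048)) (a (l 16788832) (l 16826080))))) (b (a (b (a (b (l 3) (a (l 3) (l 339470192871))) (b (a (l 3) (l 273435081351)) (b (a (l 265382016775) (l 106468216791)) (a (c (l 115595022119) (l 115058151175)) (l 16787984))))) (a (b (b (a (l 285246240375) (a (l 168208371543) (l 16781000))) (a (a (l 180019531527) (l 16780376)) (l 16786520))) (l 16783168)) (l 16782056))) (b (a (b (a (b (l 244980917063) (l 96804540519)) (l 16779592)) (l 16786560)) (l 16785800)) (l 16808464))) (a (b (l 16782208) (l 16831184)) (b (l 16859936) (l 16889112))))) (a (b (a (a (b (l 16781864) (l 16820888)) (b (l 16817544) (l 16836920))) (b (l 16821112) (l 16842368))) (a (b (a (l 16834232) (l 16852048)) (a (l 16841896) (l 16862056))) (b (l 16859992) (l 16873240)))) (b (a (b (l 16878144) (l 16901696)) (l 16908760)) (a (b (l 16922296) (l 16939360)) (l 16976008))))), by decide +kernel⟩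

def k9_pm_011 : ∃ t, chk3 f_pm_011 t 17 126 1 = true :=
  ⟨(a (a (b (a (b (a (b (a (b (l 16786184) (l 16784968)) (b (l 16784880) (l 16783976))) (a (b (l 16783976) (l 6)) (l 16782704))) (b (a (l 16783544) (l 16793184)) (l 16781416))) (a (b (l 16776184) (l 6)) (b (l 16779712) (l 16777992)))) (b (a (b (l 16781416) (l 16779704)) (c (b (l 16784488) (l 16778784)) (l 16770984))) (a (b (l 16777992) (l 16776264)) (b (l 16786752) (l 16785024))))) (a (a (l 6) (a (l 6) (b (l 16769736) (l 6)))) (a (b (l 16765808) (l 16762328)) (b (a (l 16772368) (l 16781984)) (l 16760568))))) (b (b (a (a (a (l 16788056) (l 16769304)) (l 16781528)) (a (l 16800064) (l 16799632))) (a (a (l 16775648) (l 16782440)) (a (l 16783632) (l 16787864)))) (a (b (a (c (l 16770216) (l 16770160)) (l 16778936)) (a (a (l 16777600) (l 16776728)) (l 16764920))) (b (a (l 16777184) (l 16785840)) (a (l 16773648) (l 16771880)))))) (a (b (a (b (a (l 16821712) (l 16865904)) (a (l 16814216) (l 16841368))) (b (l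 16839304) (l 16820064))) (b (a (a (l 16796736) (l 16828896)) (l 16793296)) (a (a (l 16788160) (l 16805696)) (l 16778488)))) (b (a (b (l 16952192) (l 16939008)) (l 16946800)) (a (b (l 16898832) (l 16872456)) (b (l 17023640) (l 16984016)))))), by decide +kernel⟩

def k10_pm_011 : ∃ t, chk3 f_pm_011 t 17 127 1 = true :=
  ⟨(a (b (a (a (l 6) (a (l 6) (b (l 16757056) (l 6)))) (a (b (b (l 16755280) (l 16756128)) (a (l 16751728) (l 16749936))) (a (b (l 16770080) (l 16766496)) (b (l 16768304) (l 16764704))))) (a (l 6) (b (a (c (l 16748296) (l 16747184)) (l 16743632)) (b (l 16744696) (a (l 6) (l 16739088)))))) (b (a (b (a (l 16747800) (l 16773872)) (a (c (l 16744000) (l 16743584)) (l 16766800))) (a (b (l 16816568) (l 16792448)) (b (l 16937592) (l 16883120)))) (b (a (c (a (l 16739288) (l 16768272)) (a (l 16739936) (l 16754648))) (a (l 16777160) (l 16840056))) (b (a (a (l 16734648) (l 16730992)) (c (l 16890640) (l 16774304))) (a (a (l 16753776) (l 16729136)) (a (l 16794992)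 (l 16859144))))))), by decide +kernel⟩

def k11_pm_011 : ∃ t, chk3 f_pm_011 t 18 60 1 = true :=
  ⟨(a (l 3) (b (l 3) (a (l 3) (b (l 3) (a (b (l 3) (a (l 3) (b (l 290614949911) (a (l 296520527383) (l 195051927431))))) (b (a (l 298668015271) (b (l 298131142615) (a (l 275582561751) (l 16782456)))) (a (b (a (l 288467463671) (l 175187703751)) (l 16790544)) (l 16779248)))))))), by decide +kernel⟩

def k12_pm_011 : ∃ t, chk3 f_pm_011 t 18 61 1 = true :=
  ⟨(a (b (a (l 3) (b (l 3) (a (b (l 3) (l 356650071207)) (b (a (l 3) (l 295983667687)) (a (b (l 293836171607) (a (l 241222824903) (b (l 196125664999) (l 16785376)))) (b (a (b (l 293299299239) (l 184851376007)) (l 116668770327)) (l 16794824))))))) (a (b (a (l 3) (b (l 3) (a (b (l 3) (a (l 293836168055) (b (l 290614941879) (l 144586054503)))) (a (b (l 288467459175) (l 89825221639)) (b (b (l 268603234727) (l 16780896)) (l 16793072)))))) (a (b (a (b (l 3) (a (l 295446790839) (b (l 292225554183) (l 187535726983)))) (b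 (a (l 294373038759) (b (l 292225554407) (l 165524019815))) (b (a (l 175187696119) (l 16785832)) (l 16779096)))) (a (b (a (b (a (l 271287587271) (l 163913405735)) (l 16783624)) (l 16777960)) (l 16779408)) (l 16789344))) (b (b (b (a (a (l 155323472647) (l 16787344)) (l 16801080)) (l 16779312)) (l 16791888)) (l 16816968)))) (b (a (b (a (b (l 294373052471) (a (l 270750729799) (b (l 247128398487) (l 16782304)))) (b (a (l 256255207559) (b (l 218137372023) (l 16783816))) (l 16781152))) (a (b (l 16782192) (l 16785920)) (l 16795984))) (b (l 16784648) (l 16823776))) (a (b (l 16820528) (l 16875184)) (l 16895616))))) (b (a (b (a (b (l 3) (l 294373054183)) (b (a (l 3) (l 272361347687)) (a (b (l 269676991463) (a (l 167671508903) (l 16787960))) (b (l 110763192519) (l 16801464))))) (a (b (a (b (l 295446784791) (a (b (l 293836170391) (l 16783768)) (l 16784640))) (b (a (l 185388248935) (l 16786280)) (l 16777136))) (l 16793056)) (l 16792008))) (a (b (b (a (b (a (l 295983656503)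 (l 214379280263)) (l 16784416)) (l 16786248)) (l 16799440)) (l 16849296)) (l 16788936))) (a (b (a (b (l 16847800) (l 16881720)) (l 16901440)) (l 16951192)) (l 16905672)))), by decide +kernel⟩

def k13_pm_011 : ∃ t, chk3 f_pm_011 t 19 30 1 = true :=
  ⟨(b (a (b (a (l 3) (b (a (l 3) (l 306721097767)) (a (b (l 302962987511) (a (l 276656307591) (b (l 241759696535) (l 16788432)))) (b (a (l 250349643239) (l 136533003175)) (l 16784912))))) (a (b (a (b (l 3) (a (l 299741757031) (b (l 299741755255) (l 160155319927)))) (b (a (l 299741756935) (b (l 285246240519) (l 16784872))) (a (l 98415165223) (l 16786264)))) (a (b (a (b (l 177335189111) (l 16783632)) (l 16782752)) (l 16805752)) (b (l 16808880) (l 16861600)))) (b (a (l 16786072) (l 16809408)) (l 16854856)))) (b (a (b (a (b (l 303499858135) (a (l 227264193863) (l 16789056))) (b (a (l 197736290647) (l 16792888)) (l 16792144))) (l 16798744)) (l 16791672)) (a (b (l 16879792) (l 16962384)) (l 16994352)))) (b (a (a (b (a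 (l 16854280) (l 16909928)) (l 16958448)) (l 16972064)) (l 17067768)) (a (l 17030216) (l 17220072)))), by decide +kernel⟩

def k14_pm_011 : ∃ t, chk3 f_pm_011 t 9 31 1 = true :=
  ⟨(b (a (a (b (a (b (a (b (l 16813000) (l 16866096)) (l 16866496)) (a (l 16891680) (l 16951416))) (b (l 16902224) (l 17009944))) (a (b (l 16928128) (l 17001912)) (b (l 17073272) (l 17132720)))) (b (a (l 17011296) (l 17126832)) (a (l 17185744) (l 17263576)))) (a (b (l 17230960) (l 17371256)) (l 17427112))) (a (b (a (a (b (a (l 17061936) (l 17112928)) (a (l 17046352) (l 17148008))) (b (l 17186432) (l 17231936))) (a (l 17306744) (l 17394328))) (b (a (a (b (l 17004432) (l 16942376)) (l 17244960)) (l 17434272)) (a (a (a (b (l 16976520) (l 16872952)) (a (l 16974016) (l 17101064))) (a (l 17161880) (l 17320368))) (l 17374552)))) (a (b (l 17510912) (l 17644120)) (l 17714976)))), by decide +kernel⟩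

def k15_pm_011 : ∃ t, chk3 f_pm_011 t 5 7 1 = true :=
  ⟨(b (a (b (a (l 3) (b (l 3) (a (b (l 3) (a (l 3) (l 302426161559))) (b (l 282025093575) (a (b (l 263771425911) (l 16802752)) (l 16831456)))))) (a (b (a (l 3) (b (a (l 3) (l 320142903783)) (a (b (l 314237296023) (a (l 304036737671) (l 176798338983))) (b (a (l 265918902071) (l 16795560)) (l 16822392))))) (a (b (a (a (l 315311056455) (l 273972004343)) (b (a (l 309942318455) (l 215989922183)) (a (l 128479950247) (l 16800552)))) (b (a (a (b (l 241759723319) (l 16796992)) (l 16814048)) (l 16816936)) (l 16820112))) (b (a (b (l 16793712) (l 16822920)) (l 16832656)) (l 16907680)))) (b (a (b (a (b (l 316384777783) (l 169282153463)) (b (l 137606768839) (l 16837472))) (l 16816784)) (l 16830688)) (b (a (l 16933248) (l 17073696)) (l 17103360))))) (b (a (b (a (a (l 320142949975) (l 268603345415)) (b (a (l 305647373335) (l 166060951719)) (l 16839984))) (a (a (b (l 132774943847) (l 16837744)) (l 16865296)) (b (l 16873008)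 (l 16993176)))) (b (b (l 16855888) (l 17052024)) (l 17141576))) (a (b (a (l 16966696) (l 17116704)) (l 17253272)) (l 17424360)))) (a (a (b (b (a (b (a (l 16895072) (l 16995664)) (l 17083240)) (l 17050792)) (a (l 17269192) (l 17372960))) (b (l 17587920) (l 17874056))) (b (b (l 17239720) (l 17509504)) (l 17787304))) (b (a (l 17553568) (l 17688264)) (l 18071328)))), by decide +kernel⟩

def k16_pm_011 : ∃ t, chk3 f_pm_011 t 3 3 1 = true :=
  ⟨(b (a (b (a (b (l 3) (a (l 3) (b (l 3) (a (l 3) (l 331954112951))))) (a (a (l 332356955639) (l 1)) (l 1))) (a (b (a (b (l 3) (a (l 336785985143) (l 250886617751))) (b (a (l 323901044855) (l 173040329511)) (a (l 16833568) (l 16884240)))) (a (a (b (b (l 251960309031) (l 16825480)) (l 16897560)) (l 16848672)) (b (l 17023616) (l 17100288)))) (a (b (l 16913744) (l 17172920)) (l 17398336)))) (b (l 1) (a (l 17508712) (l 1)))) (a (b (a (b (a (l 17303424) (l 17292032)) (l 17518496)) (l 17768192)) (b (l 18054656) (l 18309664))) (b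 (l 18029000) (l 18383560)))), by decide +kernel⟩

theorem s17_pm_011 : ∃ t, chk3 f_pm_011 t 18 30 1 = true := ex3_b k11_pm_011 k12_pm_011

theorem s18_pm_011 : ∃ t, chk3 f_pm_011 t 9 30 1 = true := ex3_a s17_pm_011 k13_pm_011

theorem s19_pm_011 : ∃ t, chk3 f_pm_011 t 9 15 1 = true := ex3_b s18_pm_011 k14_pm_011

theorem s20_pm_011 : ∃ t, chk3 f_pm_011 t 17 63 1 = true := ex3_b k9_pm_011 k10_pm_011

theorem s21_pm_011 : ∃ t, chk3 f_pm_011 t 34 125 1 = true := ex3_a k6_pm_011 k7_pm_011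

theorem s22_pm_011 : ∃ t, chk3 f_pm_011 t 34 62 1 = true := ex3_b k5_pm_011 s21_pm_011

theorem s23_pm_011 : ∃ t, chk3 f_pm_011 t 17 62 1 = true := ex3_a s22_pm_011 k8_pm_011

theorem s24_pm_011 : ∃ t, chk3 f_pm_011 t 17 31 1 = true := ex3_b s23_pm_011 s20_pm_011

theorem s25_pm_011 : ∃ t, chk3 f_pm_011 t 8 31 1 = true := ex3_a k4_pm_011 s24_pm_011

theorem s26_pm_011 : ∃ t, chk3 f_pm_011 t 8 15 1 = true := ex3_b k3_pm_011 s25_pm_011

theorem s27_pm_011 : ∃ t, chk3 f_pm_011 t 4 15 1 = true := ex3_a s26_pm_011 s19_pm_011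

theorem s28_pm_011 : ∃ t, chk3 f_pm_011 t 4 7 1 = true := ex3_b k2_pm_011 s27_pm_011

theorem s29_pm_011 : ∃ t, chk3 f_pm_011 t 2 7 1 = true := ex3_a s28_pm_011 k15_pm_011

theorem s30_pm_011 : ∃ t, chk3 f_pm_011 t 2 3 1 = true := ex3_b k1_pm_011 s29_pm_011

theorem s31_pm_011 : ∃ t, chk3 f_pm_011 t 1 3 1 = true := ex3_a s30_pm_011 k16_pm_011

theorem s32_pm_011 : ∃ t, chk3 f_pm_011 t 1 1 1 = true := ex3_b k0_pm_011 s31_pm_011

theorem c_pm_011 : CertN 0 536870912 536870912 536870912 50331648 16777216 3 true true false .pnn 0 1 1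
    ndN0q0 ndN4q1 pcN1 cut_pm_011 Ext.none :=
  certNK1 (fam := true) (s1 := true) (s2 := false) (a := 0) (b := 1) (c := 1) (cn := .pnn) (n1 := ndN0q0) (n2 := ndN4q1) (pc := pcN1) (cut := cut_pm_011) (xt := Ext.none) (P1 := 0) (W1 := 536870912) (P2 := 536870912) (W2 := 536870912) (P3 := 50331648) (W3 := 16777216) (N0 := 3)
    rfl rfl rfl (fun _ => rfl) s32_pm_011

end Pool.Agent.Strip051.G.I3_64_1_16.Tab.C.NA04

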