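import Pool.Agent.Strip051.G.I3_64_1_16.Gn
import Pool.Agent.Strip051.PB.Corns
import Pool.Agent.Strip051.PB.CornK

/-! # Certificates of the aligned corners (generated) -/

set_option linter.all false

namespace Pool.Agent.Strip051.G.I3_64_1_16.Tab.CN

open Pool.Agent.Strip051.PB

def B102E_000_4_385_1 :
    ∃ t, chk3 (onCell 0 50331648 0 1073741824 50331648 16777216 (corTK [] false 3 c0N cB102E gN0q1 gN0q2 gN0q0 gN1q0 true true)) t 4 385 1 = true :=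
  ⟨(T.a (T.l 0) (T.a (T.l 816) (T.c (T.a (T.l 816) (T.b (T.c (T.a (T.l 816) (T.b (T.c (T.b (T.c (T.b (T.a (T.c (T.b (T.l 1) (T.l 816)) (T.b (T.l 1) (T.l 816))) (T.l 1)) (T.a (T.l 816) (T.a (T.l 816) (T.c (T.b (T.l 1) (T.l 816)) (T.b (T.l 1) (T.l 816)))))) (T.b (T.a (T.c (T.b (T.l 1) (T.l 816)) (T.b (T.l 1) (T.l 816))) (T.l 1)) (T.a (T.l 816) (T.a (T.l 816) (T.c (T.b (T.l 1) (T.l 816)) (T.b (T.l 1) (T.l 816))))))) (T.l 816)) (T.b (T.c (T.b (T.a (T.c (T.b (T.l 1) (T.l 816)) (T.b (T.l 1) (T.l 816))) (T.l 1)) (T.a (T.l 816) (T.a (T.l 816) (T.c (T.b (T.l 1) (T.l 816)) (T.c (T.l 944) (T.l 944)))))) (T.b (T.a (T.c (T.b (T.l 1) (T.l 816)) (T.b (T.l 1) (T.l 816))) (T.l 1)) (T.l 944))) (T.l 816))) (T.l 816))) (T.a (T.l 816) (T.b (T.c (T.b (T.c (T.b (T.a (T.c (T.b (T.l 1) (T.l 816)) (T.b (T.l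 1) (T.l 816))) (T.l 1)) (T.l 816)) (T.b (T.a (T.c (T.b (T.l 1) (T.l 816)) (T.b (T.l 1) (T.l 816))) (T.l 1)) (T.l 816))) (T.l 816)) (T.b (T.c (T.b (T.a (T.c (T.b (T.l 1) (T.l 816)) (T.b (T.l 1) (T.l 816))) (T.l 1)) (T.l 816)) (T.b (T.a (T.c (T.b (T.l 1) (T.l 816)) (T.b (T.l 1) (T.l 816))) (T.l 1)) (T.l 816))) (T.l 816))) (T.l 816)))) (T.l 816))) (T.a (T.l 816) (T.b (T.a (T.l 816) (T.c (T.b (T.c (T.b (T.c (T.b (T.a (T.c (T.b (T.l 1) (T.l 816)) (T.b (T.l 1) (T.l 816))) (T.l 1)) (T.l 816)) (T.b (T.a (T.c (T.b (T.l 1) (T.l 816)) (T.b (T.l 1) (T.l 816))) (T.l 1)) (T.l 816))) (T.l 816)) (T.b (T.c (T.b (T.a (T.c (T.b (T.l 1) (T.l 816)) (T.b (T.l 1) (T.l 816))) (T.l 1)) (T.l 816)) (T.b (T.a (T.c (T.b (T.l 1) (T.l 816)) (T.b (T.l 1) (T.l 816))) (T.l 1)) (T.l 816))) (T.l 816))) (T.l 816)) (T.b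 (T.c (T.b (T.c (T.b (T.a (T.c (T.b (T.l 1) (T.l 816)) (T.b (T.l 1) (T.l 816))) (T.l 1)) (T.l 816)) (T.b (T.a (T.c (T.b (T.l 1) (T.l 816)) (T.b (T.l 1) (T.l 816))) (T.l 1)) (T.l 816))) (T.l 816)) (T.b (T.c (T.b (T.a (T.c (T.b (T.l 1) (T.l 816)) (T.b (T.l 1) (T.l 816))) (T.l 1)) (T.l 816)) (T.b (T.a (T.c (T.b (T.l 1) (T.l 816)) (T.b (T.l 1) (T.l 816))) (T.l 1)) (T.l 816))) (T.l 816))) (T.l 816)))) (T.l 816)))))), by decide +kernel⟩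

def B102E_000_4_193_1 :
    ∃ t, chk3 (onCell 0 50331648 0 1073741824 50331648 16777216 (corTK [] false 3 c0N cB102E gN0q1 gN0q2 gN0q0 gN1q0 true true)) t 4 193 1 = true :=
  ⟨(T.l 0), by decide +kernel⟩

def B102E_000_5_384_1 :
    ∃ t, chk3 (onCell 0 50331648 0 1073741824 50331648 16777216 (corTK [] false 3 c0N cB102E gN0q1 gN0q2 gN0q0 gN1q0 true true)) t 5 384 1 = true :=
  ⟨(T.l 1), by decide +kernel⟩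

def B102E_000_20_385_2 :
    ∃ t, chk3 (onCell 0 50331648 0 1073741824 50331648 16777216 (corTK [] false 3 c0N cB102E gN0q1 gN0q2 gN0q0 gN1q0 true true)) t 20 385 2 = true :=
  ⟨(T.b (T.c (T.b (T.a (T.c (T.b (T.a (T.a (T.a (T.c (T.b (T.l 1) (T.a (T.l 1) (T.l 1))) (T.b (T.l 1) (T.a (T.l 1) (T.l 1)))) (T.l 1)) (T.l 1)) (T.l 1)) (T.a (T.a (T.l 816) (T.a (T.l 816) (T.c (T.b (T.c (T.b (T.l 1) (T.l 816)) (T.b (T.l 1) (T.l 816))) (T.l 816)) (T.b (T.c (T.b (T.l 1) (T.l 816)) (T.b (T.l 1) (T.l 816))) (T.l 816))))) (T.c (T.b (T.l 1) (T.a (T.l 816) (T.c (T.b (T.l 1) (T.l 816)) (T.b (T.l 1) (T.l 816))))) (T.b (T.l 1) (T.a (T.l 816) (T.c (T.b (T.l 1) (T.l 816)) (T.b (T.l 1) (T.l 816)))))))) (T.b (T.a (T.a (T.a (T.c (T.b (T.l 1) (T.a (T.l 1) (T.l 1))) (T.b (T.l 1) (T.a (T.l 1) (T.l 1)))) (T.l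 1)) (T.l 1)) (T.l 1)) (T.a (T.a (T.l 816) (T.a (T.l 816) (T.c (T.b (T.c (T.b (T.l 1) (T.l 816)) (T.b (T.l 1) (T.l 816))) (T.l 816)) (T.b (T.c (T.b (T.l 1) (T.l 816)) (T.b (T.l 1) (T.l 816))) (T.l 816))))) (T.c (T.b (T.l 1) (T.a (T.l 816) (T.c (T.b (T.l 1) (T.l 816)) (T.b (T.l 1) (T.l 816))))) (T.b (T.l 1) (T.a (T.l 816) (T.c (T.b (T.l 1) (T.l 816)) (T.b (T.l 1) (T.l 816))))))))) (T.l 1)) (T.a (T.l 816) (T.c (T.b (T.a (T.a (T.l 816) (T.c (T.b (T.c (T.b (T.l 1) (T.l 816)) (T.b (T.l 1) (T.l 816))) (T.l 816)) (T.b (T.c (T.b (T.l 1) (T.l 816)) (T.b (T.l 1) (T.l 816))) (T.l 816)))) (T.c (T.b (T.l 1) (T.a (T.l 816) (T.c (T.b (T.l 1) (T.l 816)) (T.b (T.l 1) (T.l 816))))) (T.b (T.l 1) (T.a (T.l 816) (T.c (T.b (T.l 1) (T.l 816)) (T.b (T.l 1) (T.l 816))))))) (T.l 816)) (T.b (T.a (T.a (T.l 816)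 (T.c (T.b (T.c (T.b (T.l 1) (T.l 816)) (T.b (T.l 1) (T.l 816))) (T.l 816)) (T.b (T.c (T.b (T.l 1) (T.l 816)) (T.b (T.l 1) (T.l 816))) (T.l 816)))) (T.c (T.b (T.l 1) (T.a (T.l 816) (T.c (T.b (T.l 1) (T.l 816)) (T.b (T.l 1) (T.l 816))))) (T.b (T.l 1) (T.a (T.l 816) (T.c (T.b (T.l 1) (T.l 816)) (T.b (T.l 1) (T.l 816))))))) (T.l 816))))) (T.b (T.a (T.c (T.b (T.a (T.a (T.a (T.c (T.b (T.l 1) (T.a (T.l 1) (T.l 1))) (T.b (T.l 1) (T.a (T.l 1) (T.l 1)))) (T.l 1)) (T.l 1)) (T.l 1)) (T.a (T.a (T.l 816) (T.a (T.l 816) (T.c (T.b (T.c (T.b (T.l 1) (T.l 816)) (T.b (T.l 1) (T.l 816))) (T.l 816)) (T.b (T.c (T.b (T.l 1) (T.l 816)) (T.b (T.l 1) (T.l 816))) (T.l 816))))) (T.c (T.b (T.l 1) (T.a (T.l 816) (T.c (T.b (T.l 1) (T.l 816)) (T.b (T.l 1) (T.l 816))))) (T.b (T.l 1) (T.a (T.l 816) (T.c (T.b (T.l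 1) (T.l 816)) (T.b (T.l 1) (T.l 816)))))))) (T.b (T.a (T.a (T.a (T.c (T.b (T.l 1) (T.a (T.l 1) (T.l 1))) (T.b (T.l 1) (T.a (T.l 1) (T.l 1)))) (T.l 1)) (T.l 1)) (T.l 1)) (T.a (T.a (T.l 816) (T.a (T.l 816) (T.c (T.b (T.c (T.b (T.l 1) (T.l 816)) (T.b (T.l 1) (T.l 816))) (T.l 816)) (T.b (T.c (T.b (T.l 1) (T.l 816)) (T.b (T.l 1) (T.l 816))) (T.l 816))))) (T.c (T.b (T.l 1) (T.a (T.l 816) (T.c (T.b (T.l 1) (T.l 816)) (T.b (T.l 1) (T.l 816))))) (T.b (T.l 1) (T.a (T.l 816) (T.c (T.b (T.l 1) (T.l 816)) (T.b (T.l 1) (T.l 816))))))))) (T.l 1)) (T.a (T.l 816) (T.c (T.b (T.a (T.a (T.l 816) (T.c (T.b (T.c (T.b (T.l 1) (T.l 816)) (T.b (T.l 1) (T.l 816))) (T.l 816)) (T.b (T.c (T.b (T.l 1) (T.l 816)) (T.b (T.l 1) (T.l 816))) (T.l 816)))) (T.c (T.b (T.l 1) (T.a (T.l 816) (T.c (T.b (T.l 1) (T.l 816))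 (T.b (T.l 1) (T.l 816))))) (T.b (T.l 1) (T.a (T.l 816) (T.c (T.b (T.l 1) (T.l 816)) (T.b (T.l 1) (T.l 816))))))) (T.l 816)) (T.b (T.a (T.a (T.l 816) (T.c (T.b (T.c (T.a (T.l 944) (T.l 1)) (T.a (T.l 944) (T.l 1))) (T.l 816)) (T.a (T.l 944) (T.b (T.l 1) (T.l 816))))) (T.c (T.b (T.l 1) (T.a (T.l 816) (T.c (T.b (T.l 1) (T.l 816)) (T.b (T.l 1) (T.l 816))))) (T.b (T.l 1) (T.a (T.l 816) (T.c (T.b (T.l 1) (T.l 816)) (T.b (T.l 1) (T.l 816))))))) (T.l 816)))))) (T.a (T.l 816) (T.l 816))), by decide +kernel⟩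

def B102E_000_20_385_3 :
    ∃ t, chk3 (onCell 0 50331648 0 1073741824 50331648 16777216 (corTK [] false 3 c0N cB102E gN0q1 gN0q2 gN0q0 gN1q0 true true)) t 20 385 3 = true :=
  ⟨(T.b (T.c (T.b (T.a (T.c (T.b (T.a (T.a (T.a (T.c (T.b (T.l 1) (T.a (T.l 1) (T.l 1))) (T.b (T.l 1) (T.a (T.l 1) (T.l 1)))) (T.l 1)) (T.l 1)) (T.l 1)) (T.a (T.a (T.l 816) (T.a (T.l 816) (T.c (T.b (T.c (T.b (T.l 1) (T.l 816)) (T.b (T.l 1) (T.l 816))) (T.l 816)) (T.b (T.c (T.b (T.l 1) (T.l 816)) (T.b (T.l 1) (T.l 816))) (T.l 816))))) (T.c (T.b (T.l 1) (T.a (T.l 816) (T.c (T.b (T.l 1) (T.l 816)) (T.b (T.l 1) (T.l 816))))) (T.b (T.l 1) (T.a (T.l 816) (T.c (T.b (T.l 1) (T.l 816)) (T.b (T.l 1) (T.l 816)))))))) (T.b (T.a (T.a (T.a (T.c (T.b (T.l 1) (T.a (T.l 1) (T.l 1))) (T.b (T.l 1) (T.a (T.l 1) (T.l 1)))) (T.l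 1)) (T.l 1)) (T.l 1)) (T.a (T.a (T.l 816) (T.c (T.a (T.l 816) (T.b (T.c (T.b (T.l 1) (T.l 816)) (T.l 944)) (T.l 816))) (T.l 944))) (T.c (T.b (T.l 1) (T.a (T.l 816) (T.c (T.b (T.l 1) (T.l 816)) (T.b (T.l 1) (T.l 816))))) (T.b (T.l 1) (T.a (T.l 816) (T.c (T.b (T.l 1) (T.l 816)) (T.b (T.l 1) (T.l 816))))))))) (T.l 1)) (T.a (T.l 816) (T.c (T.b (T.a (T.a (T.l 816) (T.a (T.l 816) (T.c (T.b (T.l 1) (T.l 816)) (T.b (T.l 1) (T.l 816))))) (T.c (T.b (T.l 1) (T.a (T.l 816) (T.c (T.b (T.l 1) (T.l 816)) (T.b (T.l 1) (T.l 816))))) (T.b (T.l 1) (T.a (T.l 816) (T.c (T.b (T.l 1) (T.l 816)) (T.b (T.l 1) (T.l 816))))))) (T.l 816)) (T.b (T.a (T.a (T.l 816) (T.a (T.l 816) (T.c (T.b (T.l 1) (T.l 816)) (T.b (T.l 1) (T.l 816))))) (T.c (T.b (T.l 1) (T.a (T.l 816) (T.c (T.b (T.l 1) (T.l 816)) (T.b (T.l 1)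 (T.l 816))))) (T.b (T.l 1) (T.a (T.l 816) (T.c (T.b (T.l 1) (T.l 816)) (T.b (T.l 1) (T.l 816))))))) (T.l 816))))) (T.b (T.a (T.c (T.b (T.a (T.a (T.a (T.c (T.b (T.l 1) (T.a (T.l 1) (T.l 1))) (T.b (T.l 1) (T.a (T.l 1) (T.l 1)))) (T.l 1)) (T.l 1)) (T.l 1)) (T.a (T.l 816) (T.c (T.b (T.l 1) (T.a (T.l 816) (T.c (T.b (T.l 1) (T.l 816)) (T.b (T.l 1) (T.l 816))))) (T.b (T.l 1) (T.a (T.l 816) (T.c (T.b (T.l 1) (T.l 816)) (T.b (T.l 1) (T.l 816)))))))) (T.b (T.a (T.a (T.a (T.c (T.b (T.l 1) (T.a (T.l 1) (T.l 1))) (T.b (T.l 1) (T.a (T.l 1) (T.l 1)))) (T.l 1)) (T.l 1)) (T.l 1)) (T.a (T.l 816) (T.c (T.b (T.l 1) (T.a (T.l 816) (T.c (T.b (T.l 1) (T.l 816)) (T.b (T.l 1) (T.l 816))))) (T.b (T.l 1) (T.a (T.l 816) (T.c (T.b (T.l 1) (T.l 816)) (T.b (T.l 1) (T.l 816))))))))) (T.l 1)) (T.a (T.l 816) (T.c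 (T.b (T.a (T.a (T.l 816) (T.a (T.l 816) (T.c (T.b (T.l 1) (T.l 816)) (T.b (T.l 1) (T.l 816))))) (T.c (T.b (T.l 1) (T.a (T.l 816) (T.c (T.b (T.l 1) (T.l 816)) (T.b (T.l 1) (T.l 816))))) (T.b (T.l 1) (T.a (T.l 816) (T.a (T.l 944) (T.l 1)))))) (T.l 816)) (T.b (T.a (T.a (T.l 816) (T.a (T.l 816) (T.c (T.b (T.l 1) (T.l 816)) (T.b (T.l 1) (T.l 816))))) (T.c (T.b (T.l 1) (T.a (T.l 816) (T.a (T.l 816) (T.l 1)))) (T.b (T.l 1) (T.a (T.l 816) (T.a (T.l 816) (T.l 1)))))) (T.l 816)))))) (T.a (T.l 816) (T.l 816))), by decide +kernel⟩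

def B102E_000_21_385_1 :
    ∃ t, chk3 (onCell 0 50331648 0 1073741824 50331648 16777216 (corTK [] false 3 c0N cB102E gN0q1 gN0q2 gN0q0 gN1q0 true true)) t 21 385 1 = true :=
  ⟨(T.c (T.b (T.a (T.c (T.b (T.l 1) (T.c (T.b (T.l 1) (T.a (T.c (T.b (T.a (T.c (T.b (T.l 1) (T.l 816)) (T.b (T.l 1) (T.l 816))) (T.l 1)) (T.l 816)) (T.b (T.a (T.c (T.b (T.l 1) (T.l 816)) (T.a (T.l 816) (T.l 944))) (T.l 1)) (T.l 816))) (T.a (T.c (T.b (T.l 1) (T.c (T.b (T.l 1) (T.l 816)) (T.b (T.l 1) (T.l 816)))) (T.b (T.l 1) (T.c (T.b (T.l 1) (T.l 816)) (T.b (T.l 1) (T.l 816))))) (T.l 1)))) (T.b (T.l 1) (T.a (T.c (T.b (T.a (T.a (T.l 816) (T.l 944)) (T.l 1)) (T.l 816)) (T.a (T.l 944) (T.b (T.l 1) (T.l 816)))) (T.c (T.b (T.l 1) (T.a (T.c (T.b (T.l 1) (T.l 816)) (T.b (T.l 1) (T.l 816))) (T.l 1))) (T.b (T.l 1) (T.a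 (T.c (T.b (T.l 1) (T.l 816)) (T.b (T.l 1) (T.l 816))) (T.l 1)))))))) (T.b (T.l 1) (T.c (T.b (T.l 1) (T.a (T.a (T.l 944) (T.c (T.b (T.l 1) (T.l 816)) (T.b (T.l 1) (T.l 816)))) (T.c (T.b (T.l 1) (T.a (T.c (T.b (T.l 1) (T.l 816)) (T.b (T.l 1) (T.l 816))) (T.l 1))) (T.b (T.l 1) (T.a (T.c (T.b (T.l 1) (T.l 816)) (T.b (T.l 1) (T.l 816))) (T.l 1)))))) (T.b (T.l 1) (T.a (T.a (T.l 816) (T.c (T.b (T.l 1) (T.l 816)) (T.b (T.l 1) (T.l 816)))) (T.c (T.b (T.l 1) (T.a (T.c (T.b (T.l 1) (T.l 816)) (T.b (T.l 1) (T.l 816))) (T.l 1))) (T.b (T.l 1) (T.a (T.c (T.b (T.l 1) (T.l 816)) (T.b (T.l 1) (T.l 816))) (T.l 1))))))))) (T.l 1)) (T.c (T.b (T.a (T.a (T.l 816) (T.l 816)) (T.c (T.b (T.a (T.c (T.b (T.a (T.a (T.l 816) (T.l 1)) (T.l 1)) (T.l 816)) (T.b (T.a (T.a (T.l 816) (T.l 1)) (T.l 1)) (T.l 816))) (T.a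 (T.a (T.c (T.b (T.l 1) (T.a (T.l 816) (T.l 1))) (T.b (T.l 1) (T.a (T.l 816) (T.l 1)))) (T.l 1)) (T.l 1))) (T.a (T.l 816) (T.l 816))) (T.b (T.a (T.c (T.b (T.a (T.a (T.l 816) (T.l 1)) (T.l 1)) (T.l 816)) (T.b (T.a (T.a (T.l 816) (T.l 1)) (T.l 1)) (T.l 816))) (T.a (T.a (T.c (T.b (T.l 1) (T.a (T.l 816) (T.l 1))) (T.b (T.l 1) (T.a (T.l 816) (T.l 1)))) (T.l 1)) (T.l 1))) (T.a (T.l 816) (T.l 816))))) (T.l 816)) (T.b (T.a (T.a (T.l 816) (T.l 816)) (T.c (T.b (T.a (T.c (T.b (T.a (T.a (T.l 816) (T.l 1)) (T.l 1)) (T.l 816)) (T.b (T.a (T.a (T.l 816) (T.l 1)) (T.l 1)) (T.l 816))) (T.a (T.a (T.c (T.b (T.l 1) (T.l 944)) (T.b (T.l 1) (T.l 944))) (T.l 1)) (T.l 1))) (T.a (T.l 816) (T.l 816))) (T.b (T.a (T.c (T.b (T.a (T.a (T.l 816) (T.l 1)) (T.l 1)) (T.l 816)) (T.b (T.a (T.a (T.l 816) (T.l 1)) (T.l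 1)) (T.l 816))) (T.a (T.a (T.c (T.b (T.l 1) (T.l 816)) (T.b (T.l 1) (T.l 816))) (T.l 1)) (T.l 1))) (T.a (T.l 816) (T.l 816))))) (T.l 816)))) (T.b (T.a (T.c (T.b (T.l 1) (T.c (T.b (T.l 1) (T.a (T.a (T.l 816) (T.c (T.b (T.l 1) (T.l 816)) (T.b (T.l 1) (T.l 816)))) (T.c (T.b (T.l 1) (T.a (T.a (T.l 816) (T.l 944)) (T.l 1))) (T.b (T.l 1) (T.a (T.c (T.l 944) (T.l 944)) (T.l 1)))))) (T.b (T.l 1) (T.a (T.a (T.l 816) (T.c (T.b (T.l 1) (T.l 816)) (T.b (T.l 1) (T.l 816)))) (T.c (T.b (T.l 1) (T.a (T.l 944) (T.l 1))) (T.b (T.l 1) (T.a (T.l 816) (T.l 1)))))))) (T.b (T.l 1) (T.c (T.b (T.l 1) (T.a (T.a (T.l 816) (T.c (T.b (T.l 1) (T.l 816)) (T.b (T.l 1) (T.l 816)))) (T.c (T.b (T.l 1) (T.a (T.l 816) (T.l 1))) (T.b (T.l 1) (T.a (T.l 816) (T.l 1)))))) (T.b (T.l 1) (T.a (T.a (T.l 816) (T.c (T.b (T.l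 1) (T.l 816)) (T.b (T.l 1) (T.l 816)))) (T.c (T.b (T.l 1) (T.a (T.l 816) (T.l 1))) (T.b (T.l 1) (T.a (T.l 816) (T.l 1))))))))) (T.l 1)) (T.c (T.b (T.a (T.c (T.l 816) (T.l 816)) (T.c (T.b (T.a (T.c (T.b (T.a (T.a (T.l 816) (T.l 1)) (T.l 1)) (T.l 816)) (T.b (T.a (T.a (T.l 816) (T.l 1)) (T.l 1)) (T.l 816))) (T.a (T.c (T.b (T.l 1) (T.a (T.l 816) (T.l 1))) (T.b (T.l 1) (T.a (T.l 816) (T.l 1)))) (T.l 1))) (T.a (T.l 816) (T.l 816))) (T.b (T.a (T.c (T.b (T.a (T.a (T.l 816) (T.l 1)) (T.l 1)) (T.l 816)) (T.b (T.a (T.a (T.l 816) (T.l 1)) (T.l 1)) (T.l 816))) (T.a (T.c (T.b (T.l 1) (T.a (T.l 816) (T.l 1))) (T.b (T.l 1) (T.a (T.l 816) (T.l 1)))) (T.l 1))) (T.a (T.l 816) (T.l 816))))) (T.l 816)) (T.b (T.a (T.l 816) (T.c (T.b (T.a (T.c (T.b (T.a (T.a (T.l 816) (T.l 1)) (T.l 1)) (T.l 816)) (T.b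 (T.a (T.a (T.l 816) (T.l 1)) (T.l 1)) (T.l 816))) (T.a (T.c (T.b (T.l 1) (T.a (T.l 816) (T.l 1))) (T.b (T.l 1) (T.a (T.l 816) (T.l 1)))) (T.l 1))) (T.a (T.l 816) (T.l 816))) (T.b (T.a (T.c (T.b (T.a (T.a (T.l 816) (T.l 1)) (T.l 1)) (T.l 816)) (T.b (T.a (T.l 944) (T.l 1)) (T.l 816))) (T.a (T.c (T.b (T.l 1) (T.a (T.l 816) (T.l 1))) (T.b (T.l 1) (T.a (T.l 816) (T.l 1)))) (T.l 1))) (T.a (T.l 816) (T.l 816))))) (T.l 816))))), by decide +kernel⟩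

def B102E_000_11_385_1 :
    ∃ t, chk3 (onCell 0 50331648 0 1073741824 50331648 16777216 (corTK [] false 3 c0N cB102E gN0q1 gN0q2 gN0q0 gN1q0 true true)) t 11 385 1 = true :=
  ⟨(T.c (T.b (T.l 1) (T.a (T.c (T.b (T.a (T.a (T.c (T.b (T.l 1) (T.c (T.b (T.l 1) (T.a (T.l 816) (T.a (T.l 816) (T.l 944)))) (T.b (T.l 1) (T.a (T.l 816) (T.l 944))))) (T.b (T.l 1) (T.c (T.b (T.l 1) (T.a (T.l 816) (T.l 816))) (T.b (T.l 1) (T.a (T.l 816) (T.l 816)))))) (T.l 1)) (T.l 1)) (T.a (T.a (T.l 816) (T.a (T.l 816) (T.c (T.b (T.a (T.l 816) (T.c (T.b (T.a (T.l 816) (T.l 1)) (T.l 816)) (T.b (T.a (T.l 816) (T.l 1)) (T.l 816)))) (T.l 816)) (T.b (T.a (T.l 816) (T.c (T.b (T.a (T.l 816) (T.l 1)) (T.l 816)) (T.b (T.a (T.l 816) (T.l 1)) (T.l 816)))) (T.l 816))))) (T.c (T.b (T.a (T.c (T.b (T.l 1) (T.a (T.l 816) (T.a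 (T.l 816) (T.l 1)))) (T.b (T.l 1) (T.a (T.l 816) (T.a (T.l 816) (T.l 1))))) (T.l 1)) (T.a (T.l 816) (T.a (T.l 816) (T.c (T.b (T.c (T.b (T.l 1) (T.l 816)) (T.b (T.l 1) (T.l 816))) (T.l 816)) (T.b (T.c (T.b (T.l 1) (T.l 816)) (T.b (T.l 1) (T.l 816))) (T.l 816)))))) (T.b (T.a (T.c (T.b (T.l 1) (T.a (T.l 816) (T.a (T.l 816) (T.l 1)))) (T.b (T.l 1) (T.a (T.l 816) (T.a (T.l 816) (T.l 1))))) (T.l 1)) (T.a (T.l 816) (T.a (T.l 816) (T.c (T.b (T.a (T.l 944) (T.l 1)) (T.l 816)) (T.b (T.a (T.l 944) (T.l 1)) (T.l 816))))))))) (T.b (T.a (T.a (T.c (T.b (T.l 1) (T.c (T.b (T.l 1) (T.l 944)) (T.b (T.l 1) (T.l 816)))) (T.b (T.l 1) (T.c (T.b (T.l 1) (T.l 816)) (T.b (T.l 1) (T.l 816))))) (T.l 1)) (T.l 1)) (T.a (T.a (T.l 816) (T.a (T.l 816) (T.c (T.b (T.a (T.l 816) (T.c (T.b (T.a (T.l 816) (T.l 1)) (T.l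 816)) (T.c (T.b (T.a (T.l 816) (T.l 1)) (T.l 816)) (T.l 944)))) (T.l 816)) (T.c (T.a (T.l 816) (T.l 944)) (T.l 944))))) (T.c (T.b (T.a (T.c (T.b (T.l 1) (T.a (T.l 816) (T.a (T.l 816) (T.l 1)))) (T.b (T.l 1) (T.a (T.l 816) (T.a (T.l 816) (T.l 1))))) (T.l 1)) (T.a (T.l 816) (T.a (T.l 816) (T.c (T.b (T.a (T.l 816) (T.l 1)) (T.l 816)) (T.b (T.a (T.l 816) (T.l 1)) (T.l 816)))))) (T.b (T.a (T.c (T.b (T.l 1) (T.a (T.l 816) (T.a (T.l 816) (T.l 1)))) (T.b (T.l 1) (T.a (T.l 816) (T.a (T.l 816) (T.l 1))))) (T.l 1)) (T.a (T.l 816) (T.a (T.l 816) (T.c (T.b (T.a (T.l 816) (T.l 1)) (T.l 816)) (T.b (T.a (T.l 816) (T.l 1)) (T.l 816)))))))))) (T.a (T.a (T.c (T.b (T.l 1) (T.a (T.c (T.b (T.l 1) (T.c (T.b (T.l 1) (T.l 816)) (T.b (T.l 1) (T.l 816)))) (T.b (T.l 1) (T.c (T.b (T.l 1) (T.l 816)) (T.b (T.l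 1) (T.l 816))))) (T.l 1))) (T.b (T.l 1) (T.a (T.c (T.b (T.l 1) (T.c (T.b (T.l 1) (T.l 816)) (T.b (T.l 1) (T.l 816)))) (T.b (T.l 1) (T.c (T.b (T.l 1) (T.l 816)) (T.b (T.l 1) (T.l 816))))) (T.l 1)))) (T.l 1)) (T.l 1)))) (T.b (T.l 1) (T.a (T.c (T.b (T.a (T.a (T.c (T.b (T.l 1) (T.c (T.b (T.l 1) (T.l 816)) (T.b (T.l 1) (T.l 816)))) (T.b (T.l 1) (T.c (T.b (T.l 1) (T.l 816)) (T.b (T.l 1) (T.l 816))))) (T.l 1)) (T.l 1)) (T.a (T.a (T.l 816) (T.a (T.l 816) (T.c (T.l 944) (T.l 816)))) (T.c (T.b (T.a (T.c (T.b (T.l 1) (T.a (T.l 816) (T.a (T.l 816) (T.l 1)))) (T.b (T.l 1) (T.a (T.l 816) (T.a (T.l 816) (T.l 1))))) (T.l 1)) (T.a (T.l 816) (T.a (T.l 816) (T.c (T.b (T.a (T.l 816) (T.l 1)) (T.l 816)) (T.b (T.a (T.l 816) (T.l 1)) (T.l 816)))))) (T.b (T.a (T.c (T.b (T.l 1) (T.a (T.l 816) (T.a (T.l 816)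 (T.l 1)))) (T.b (T.l 1) (T.a (T.l 816) (T.a (T.l 816) (T.l 1))))) (T.l 1)) (T.a (T.l 816) (T.a (T.l 816) (T.a (T.l 816) (T.c (T.b (T.l 1) (T.l 816)) (T.b (T.l 1) (T.l 816)))))))))) (T.b (T.a (T.a (T.c (T.b (T.l 1) (T.c (T.b (T.l 1) (T.l 816)) (T.b (T.l 1) (T.l 816)))) (T.b (T.l 1) (T.c (T.b (T.l 1) (T.l 816)) (T.b (T.l 1) (T.l 816))))) (T.l 1)) (T.l 1)) (T.a (T.a (T.l 816) (T.l 944)) (T.c (T.b (T.a (T.c (T.b (T.l 1) (T.a (T.l 816) (T.l 944))) (T.b (T.l 1) (T.a (T.l 816) (T.l 944)))) (T.l 1)) (T.a (T.l 816) (T.a (T.l 816) (T.a (T.l 816) (T.c (T.b (T.l 1) (T.l 816)) (T.b (T.l 1) (T.l 816))))))) (T.b (T.a (T.c (T.b (T.l 1) (T.l 944)) (T.b (T.l 1) (T.l 944))) (T.l 1)) (T.a (T.l 816) (T.a (T.l 816) (T.a (T.l 816) (T.c (T.b (T.l 1) (T.l 816)) (T.b (T.l 1) (T.l 816))))))))))) (T.a (T.a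 (T.c (T.b (T.l 1) (T.a (T.c (T.b (T.l 1) (T.c (T.b (T.l 1) (T.l 816)) (T.b (T.l 1) (T.l 816)))) (T.b (T.l 1) (T.c (T.b (T.l 1) (T.l 816)) (T.b (T.l 1) (T.l 816))))) (T.l 1))) (T.b (T.l 1) (T.a (T.c (T.b (T.l 1) (T.c (T.b (T.l 1) (T.l 816)) (T.b (T.l 1) (T.l 816)))) (T.b (T.l 1) (T.c (T.b (T.l 1) (T.l 816)) (T.b (T.l 1) (T.l 816))))) (T.l 1)))) (T.l 1)) (T.l 1))))), by decide +kernel⟩

def B102E_000_5_193_1 :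
    ∃ t, chk3 (onCell 0 50331648 0 1073741824 50331648 16777216 (corTK [] false 3 c0N cB102E gN0q1 gN0q2 gN0q0 gN1q0 true true)) t 5 193 1 = true :=
  ⟨(T.a (T.a (T.l 0) (T.l 0)) (T.b (T.a (T.a (T.l 816) (T.l 816)) (T.c (T.b (T.c (T.b (T.a (T.a (T.l 816) (T.c (T.a (T.l 944) (T.b (T.c (T.b (T.l 1) (T.l 816)) (T.b (T.l 1) (T.l 816))) (T.l 816))) (T.a (T.l 816) (T.b (T.c (T.b (T.l 1) (T.l 816)) (T.b (T.l 1) (T.l 816))) (T.l 816))))) (T.c (T.b (T.a (T.a (T.c (T.b (T.l 1) (T.a (T.l 816) (T.l 1))) (T.b (T.l 1) (T.a (T.l 816) (T.l 1)))) (T.l 1)) (T.l 1)) (T.a (T.l 816) (T.c (T.b (T.a (T.a (T.l 816) (T.l 1)) (T.l 1)) (T.l 816)) (T.b (T.a (T.a (T.l 816) (T.l 1)) (T.l 1)) (T.l 816))))) (T.b (T.a (T.a (T.c (T.b (T.l 1) (T.a (T.l 816) (T.l 1))) (T.b (T.l 1) (T.a (T.l 816) (T.l 1)))) (T.l 1))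 (T.l 1)) (T.a (T.l 816) (T.c (T.b (T.a (T.a (T.l 816) (T.l 1)) (T.l 1)) (T.l 816)) (T.b (T.a (T.a (T.l 816) (T.l 1)) (T.l 1)) (T.l 816))))))) (T.l 816)) (T.b (T.a (T.a (T.l 816) (T.a (T.l 816) (T.c (T.b (T.c (T.b (T.l 1) (T.l 816)) (T.b (T.l 1) (T.l 816))) (T.l 816)) (T.b (T.c (T.b (T.l 1) (T.l 816)) (T.b (T.l 1) (T.l 816))) (T.l 816))))) (T.c (T.b (T.a (T.a (T.c (T.b (T.l 1) (T.c (T.l 944) (T.l 944))) (T.b (T.l 1) (T.l 944))) (T.l 1)) (T.l 1)) (T.a (T.l 816) (T.c (T.b (T.a (T.a (T.l 816) (T.l 1)) (T.l 1)) (T.l 816)) (T.b (T.a (T.a (T.l 816) (T.l 1)) (T.l 1)) (T.l 816))))) (T.b (T.a (T.a (T.c (T.b (T.l 1) (T.l 816)) (T.b (T.l 1) (T.l 816))) (T.l 1)) (T.l 1)) (T.a (T.l 816) (T.c (T.b (T.a (T.a (T.l 816) (T.l 1)) (T.l 1)) (T.l 816)) (T.b (T.a (T.a (T.l 816) (T.l 1)) (T.l 1)) (T.l 816)))))))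 (T.l 816))) (T.l 816)) (T.b (T.c (T.b (T.a (T.a (T.l 816) (T.a (T.l 816) (T.c (T.b (T.c (T.b (T.l 1) (T.l 816)) (T.b (T.l 1) (T.l 816))) (T.l 816)) (T.b (T.c (T.b (T.l 1) (T.l 816)) (T.b (T.l 1) (T.l 816))) (T.l 816))))) (T.c (T.b (T.a (T.a (T.c (T.b (T.l 1) (T.l 816)) (T.b (T.l 1) (T.l 816))) (T.l 1)) (T.l 1)) (T.a (T.l 816) (T.c (T.b (T.a (T.a (T.l 816) (T.l 1)) (T.l 1)) (T.l 816)) (T.b (T.a (T.l 944) (T.l 1)) (T.l 816))))) (T.b (T.a (T.c (T.b (T.l 1) (T.a (T.l 816) (T.l 1))) (T.b (T.l 1) (T.a (T.l 816) (T.l 1)))) (T.l 1)) (T.a (T.l 816) (T.c (T.b (T.a (T.l 944) (T.l 1)) (T.l 816)) (T.b (T.a (T.l 816) (T.l 1)) (T.l 816))))))) (T.l 816)) (T.b (T.a (T.a (T.l 816) (T.a (T.l 816) (T.c (T.b (T.c (T.b (T.l 1) (T.l 816)) (T.b (T.l 1) (T.l 816))) (T.l 816)) (T.b (T.c (T.b (T.l 1) (T.l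 816)) (T.b (T.l 1) (T.l 816))) (T.l 816))))) (T.c (T.b (T.a (T.c (T.b (T.l 1) (T.a (T.l 816) (T.l 1))) (T.b (T.l 1) (T.a (T.l 816) (T.l 1)))) (T.l 1)) (T.a (T.l 816) (T.c (T.b (T.a (T.l 816) (T.l 1)) (T.l 816)) (T.b (T.a (T.l 816) (T.l 1)) (T.l 816))))) (T.b (T.a (T.c (T.b (T.l 1) (T.a (T.l 816) (T.l 1))) (T.b (T.l 1) (T.a (T.l 816) (T.l 1)))) (T.l 1)) (T.a (T.l 816) (T.c (T.b (T.a (T.l 816) (T.l 1)) (T.l 816)) (T.b (T.a (T.l 816) (T.l 1)) (T.l 816))))))) (T.l 816))) (T.l 816)))) (T.l 0))), by decide +kernel⟩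

def B102E_000_3_192_1 :
    ∃ t, chk3 (onCell 0 50331648 0 1073741824 50331648 16777216 (corTK [] false 3 c0N cB102E gN0q1 gN0q2 gN0q0 gN1q0 true true)) t 3 192 1 = true :=
  ⟨(T.l 1), by decide +kernel⟩

def B102E_000_12_386_1 :
    ∃ t, chk3 (onCell 0 50331648 0 1073741824 50331648 16777216 (corTK [] false 3 c0N cB102E gN0q1 gN0q2 gN0q0 gN1q0 true true)) t 12 386 1 = true :=
  ⟨(T.c (T.b (T.a (T.c (T.b (T.a (T.a (T.l 1) (T.l 1)) (T.l 1)) (T.a (T.a (T.l 816) (T.c (T.b (T.c (T.b (T.l 1) (T.l 944)) (T.b (T.l 1) (T.l 944))) (T.l 816)) (T.b (T.c (T.b (T.l 1) (T.l 816)) (T.b (T.l 1) (T.l 816))) (T.l 816)))) (T.c (T.b (T.l 1) (T.a (T.a (T.l 816) (T.a (T.l 816) (T.c (T.b (T.l 1) (T.l 816)) (T.b (T.l 1) (T.l 816))))) (T.c (T.b (T.l 1) (T.a (T.l 816) (T.a (T.l 816) (T.l 1)))) (T.b (T.l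 1) (T.a (T.l 816) (T.a (T.l 816) (T.l 1))))))) (T.b (T.l 1) (T.a (T.a (T.l 816) (T.c (T.a (T.l 816) (T.b (T.l 1) (T.l 816))) (T.l 944))) (T.c (T.b (T.l 1) (T.a (T.l 816) (T.a (T.l 816) (T.l 1)))) (T.b (T.l 1) (T.a (T.l 816) (T.a (T.l 816) (T.l 1)))))))))) (T.b (T.a (T.a (T.l 1) (T.l 1)) (T.l 1)) (T.a (T.a (T.l 816) (T.c (T.b (T.c (T.b (T.l 1) (T.l 816)) (T.b (T.l 1) (T.l 816))) (T.l 816)) (T.b (T.c (T.b (T.l 1) (T.l 816)) (T.b (T.l 1) (T.l 816))) (T.l 816)))) (T.c (T.b (T.l 1) (T.a (T.c (T.l 944) (T.l 944)) (T.c (T.b (T.l 1) (T.a (T.l 816) (T.a (T.l 816) (T.l 1)))) (T.b (T.l 1) (T.a (T.l 816) (T.a (T.l 816) (T.l 1))))))) (T.b (T.l 1) (T.a (T.l 944) (T.c (T.b (T.l 1) (T.a (T.l 816) (T.a (T.l 816) (T.l 1)))) (T.b (T.l 1) (T.a (T.l 816) (T.l 944)))))))))) (T.l 1)) (T.a (T.c (T.l 816)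 (T.l 816)) (T.c (T.b (T.a (T.c (T.b (T.a (T.a (T.l 816) (T.c (T.b (T.l 1) (T.l 816)) (T.b (T.l 1) (T.l 816)))) (T.c (T.b (T.l 1) (T.a (T.l 816) (T.l 1))) (T.b (T.l 1) (T.a (T.l 816) (T.l 1))))) (T.l 816)) (T.b (T.a (T.a (T.l 816) (T.c (T.b (T.l 1) (T.l 816)) (T.b (T.l 1) (T.l 816)))) (T.c (T.b (T.l 1) (T.a (T.l 816) (T.l 1))) (T.b (T.l 1) (T.a (T.l 816) (T.l 1))))) (T.l 816))) (T.c (T.b (T.l 1) (T.a (T.a (T.l 944) (T.c (T.b (T.l 1) (T.l 816)) (T.b (T.l 1) (T.l 816)))) (T.a (T.c (T.b (T.l 1) (T.a (T.l 816) (T.l 1))) (T.b (T.l 1) (T.a (T.l 816) (T.l 1)))) (T.l 1)))) (T.b (T.l 1) (T.a (T.a (T.l 816) (T.c (T.b (T.l 1) (T.l 816)) (T.b (T.l 1) (T.l 816)))) (T.a (T.c (T.b (T.l 1) (T.a (T.l 816) (T.l 1))) (T.b (T.l 1) (T.l 944))) (T.l 1)))))) (T.a (T.l 816) (T.l 816))) (T.b (T.a (T.c (T.b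 (T.a (T.a (T.l 816) (T.c (T.b (T.l 1) (T.l 816)) (T.b (T.l 1) (T.l 816)))) (T.c (T.b (T.l 1) (T.a (T.l 816) (T.l 1))) (T.b (T.l 1) (T.a (T.l 816) (T.l 1))))) (T.l 816)) (T.b (T.a (T.a (T.l 816) (T.c (T.b (T.l 1) (T.l 816)) (T.b (T.l 1) (T.l 816)))) (T.c (T.b (T.l 1) (T.a (T.l 816) (T.l 1))) (T.b (T.l 1) (T.a (T.l 816) (T.l 1))))) (T.l 816))) (T.c (T.b (T.l 1) (T.a (T.a (T.l 816) (T.c (T.b (T.l 1) (T.l 816)) (T.b (T.l 1) (T.l 816)))) (T.a (T.c (T.b (T.l 1) (T.l 944)) (T.b (T.l 1) (T.l 816))) (T.l 1)))) (T.b (T.l 1) (T.a (T.a (T.l 816) (T.c (T.b (T.l 1) (T.l 816)) (T.b (T.l 1) (T.l 816)))) (T.a (T.c (T.b (T.l 1) (T.l 816)) (T.b (T.l 1) (T.l 816))) (T.l 1)))))) (T.a (T.l 816) (T.l 816)))))) (T.b (T.a (T.c (T.b (T.a (T.a (T.l 1) (T.l 1)) (T.l 1)) (T.a (T.a (T.l 816) (T.c (T.b (T.c (T.b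 (T.l 1) (T.l 816)) (T.b (T.l 1) (T.l 816))) (T.l 816)) (T.b (T.c (T.b (T.l 1) (T.l 816)) (T.b (T.l 1) (T.l 816))) (T.l 816)))) (T.c (T.b (T.l 1) (T.a (T.l 816) (T.c (T.b (T.l 1) (T.a (T.l 816) (T.l 944))) (T.b (T.l 1) (T.l 944))))) (T.b (T.l 1) (T.a (T.l 816) (T.c (T.b (T.l 1) (T.l 816)) (T.b (T.l 1) (T.l 816)))))))) (T.b (T.a (T.a (T.l 1) (T.l 1)) (T.l 1)) (T.a (T.a (T.l 816) (T.c (T.b (T.c (T.b (T.l 1) (T.l 816)) (T.b (T.l 1) (T.l 816))) (T.l 816)) (T.b (T.c (T.b (T.l 1) (T.l 816)) (T.b (T.l 1) (T.l 816))) (T.l 816)))) (T.c (T.b (T.l 1) (T.a (T.l 816) (T.c (T.b (T.l 1) (T.l 816)) (T.b (T.l 1) (T.l 816))))) (T.b (T.l 1) (T.a (T.l 816) (T.c (T.b (T.l 1) (T.l 816)) (T.b (T.l 1) (T.l 816))))))))) (T.l 1)) (T.a (T.c (T.l 816) (T.l 816)) (T.c (T.b (T.a (T.c (T.b (T.a (T.a (T.l 816) (T.c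 (T.b (T.l 1) (T.l 816)) (T.b (T.l 1) (T.l 816)))) (T.c (T.b (T.l 1) (T.a (T.l 816) (T.l 1))) (T.b (T.l 1) (T.a (T.l 816) (T.l 1))))) (T.l 816)) (T.b (T.a (T.a (T.l 816) (T.c (T.b (T.l 1) (T.l 816)) (T.a (T.l 816) (T.l 944)))) (T.c (T.b (T.l 1) (T.a (T.l 816) (T.l 1))) (T.b (T.l 1) (T.a (T.l 816) (T.l 1))))) (T.l 816))) (T.c (T.b (T.l 1) (T.a (T.a (T.l 816) (T.c (T.b (T.l 1) (T.l 816)) (T.b (T.l 1) (T.l 816)))) (T.a (T.c (T.b (T.l 1) (T.l 816)) (T.b (T.l 1) (T.l 816))) (T.l 1)))) (T.b (T.l 1) (T.a (T.a (T.l 816) (T.c (T.b (T.l 1) (T.l 816)) (T.b (T.l 1) (T.l 816)))) (T.a (T.c (T.b (T.l 1) (T.l 816)) (T.b (T.l 1) (T.l 816))) (T.l 1)))))) (T.a (T.l 816) (T.l 816))) (T.b (T.a (T.c (T.b (T.a (T.a (T.l 816) (T.l 944)) (T.c (T.b (T.l 1) (T.a (T.l 816) (T.l 1))) (T.b (T.l 1) (T.a (T.l 816)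 (T.l 1))))) (T.l 816)) (T.a (T.l 944) (T.b (T.c (T.b (T.l 1) (T.a (T.l 816) (T.l 1))) (T.b (T.l 1) (T.a (T.l 816) (T.l 1)))) (T.l 816)))) (T.c (T.b (T.l 1) (T.a (T.a (T.l 816) (T.c (T.b (T.l 1) (T.l 816)) (T.b (T.l 1) (T.l 816)))) (T.a (T.c (T.b (T.l 1) (T.l 816)) (T.b (T.l 1) (T.l 816))) (T.l 1)))) (T.b (T.l 1) (T.a (T.a (T.l 816) (T.c (T.b (T.l 1) (T.l 816)) (T.b (T.l 1) (T.l 816)))) (T.a (T.c (T.b (T.l 1) (T.l 816)) (T.b (T.l 1) (T.l 816))) (T.l 1)))))) (T.a (T.l 816) (T.l 816))))))), by decide +kernel⟩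

def B102E_000_13_386_1 :
    ∃ t, chk3 (onCell 0 50331648 0 1073741824 50331648 16777216 (corTK [] false 3 c0N cB102E gN0q1 gN0q2 gN0q0 gN1q0 true true)) t 13 386 1 = true :=
  ⟨(T.a (T.c (T.b (T.l 1) (T.c (T.b (T.l 1) (T.a (T.c (T.b (T.a (T.c (T.b (T.l 1) (T.l 816)) (T.b (T.l 1) (T.l 816))) (T.l 1)) (T.l 944)) (T.b (T.a (T.c (T.b (T.l 1) (T.l 816)) (T.b (T.l 1) (T.l 816))) (T.l 1)) (T.l 816))) (T.a (T.c (T.b (T.l 1) (T.c (T.b (T.l 1) (T.l 944)) (T.b (T.l 1) (T.l 944)))) (T.b (T.l 1) (T.c (T.b (T.l 1) (T.l 816)) (T.b (T.l 1) (T.l 816))))) (T.l 1)))) (T.b (T.l 1) (T.a (T.c (T.b (T.a (T.c (T.b (T.l 1) (T.l 816)) (T.b (T.l 1) (T.l 816))) (T.l 1)) (T.l 816)) (T.b (T.a (T.c (T.b (T.l 1) (T.l 816)) (T.b (T.l 1) (T.l 816))) (T.l 1)) (T.l 816))) (T.a (T.c (T.b (T.l 1) (T.c (T.b (T.l 1)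 (T.l 816)) (T.b (T.l 1) (T.l 816)))) (T.b (T.l 1) (T.c (T.b (T.l 1) (T.l 816)) (T.b (T.l 1) (T.l 816))))) (T.l 1)))))) (T.b (T.l 1) (T.c (T.b (T.l 1) (T.a (T.c (T.b (T.a (T.c (T.b (T.l 1) (T.l 816)) (T.b (T.l 1) (T.l 816))) (T.l 1)) (T.l 816)) (T.b (T.a (T.c (T.b (T.l 1) (T.l 816)) (T.b (T.l 1) (T.l 816))) (T.l 1)) (T.l 816))) (T.a (T.c (T.b (T.l 1) (T.c (T.b (T.l 1) (T.l 816)) (T.b (T.l 1) (T.l 816)))) (T.b (T.l 1) (T.c (T.b (T.l 1) (T.l 816)) (T.b (T.l 1) (T.l 816))))) (T.l 1)))) (T.b (T.l 1) (T.a (T.c (T.b (T.a (T.c (T.b (T.l 1) (T.l 816)) (T.b (T.l 1) (T.l 816))) (T.l 1)) (T.l 816)) (T.b (T.a (T.c (T.b (T.l 1) (T.l 816)) (T.b (T.l 1) (T.l 816))) (T.l 1)) (T.l 816))) (T.a (T.c (T.b (T.l 1) (T.c (T.b (T.l 1) (T.l 816)) (T.b (T.l 1) (T.l 816)))) (T.b (T.l 1) (T.c (T.b (T.l 1) (T.l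 816)) (T.b (T.l 1) (T.l 816))))) (T.l 1))))))) (T.l 1)), by decide +kernel⟩

def B102E_000_6_387_1 :
    ∃ t, chk3 (onCell 0 50331648 0 1073741824 50331648 16777216 (corTK [] false 3 c0N cB102E gN0q1 gN0q2 gN0q0 gN1q0 true true)) t 6 387 1 = true :=
  ⟨(T.a (T.a (T.l 0) (T.l 0)) (T.a (T.a (T.l 816) (T.a (T.l 816) (T.c (T.b (T.c (T.b (T.a (T.l 816) (T.c (T.b (T.a (T.l 816) (T.c (T.b (T.l 1) (T.l 816)) (T.b (T.l 1) (T.l 816)))) (T.l 816)) (T.b (T.a (T.l 816) (T.c (T.b (T.l 1) (T.l 816)) (T.b (T.l 1) (T.l 816)))) (T.l 816)))) (T.l 816)) (T.a (T.l 816) (T.c (T.b (T.c (T.b (T.a (T.l 816) (T.l 944)) (T.l 816)) (T.l 944)) (T.l 816)) (T.l 944)))) (T.l 816)) (T.b (T.c (T.c (T.l 944) (T.l 944)) (T.l 944)) (T.l 816))))) (T.c (T.b (T.c (T.b (T.a (T.c (T.b (T.a (T.c (T.b (T.l 1) (T.a (T.l 816)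 (T.l 1))) (T.b (T.l 1) (T.a (T.l 816) (T.l 1)))) (T.l 1)) (T.a (T.l 816) (T.a (T.l 816) (T.c (T.b (T.l 1) (T.l 816)) (T.b (T.l 1) (T.l 816)))))) (T.b (T.a (T.c (T.b (T.l 1) (T.a (T.l 816) (T.l 1))) (T.b (T.l 1) (T.a (T.l 816) (T.l 1)))) (T.l 1)) (T.a (T.l 816) (T.a (T.l 816) (T.c (T.b (T.l 1) (T.l 816)) (T.b (T.l 1) (T.l 816))))))) (T.a (T.a (T.c (T.b (T.l 1) (T.c (T.b (T.l 1) (T.l 944)) (T.b (T.l 1) (T.l 816)))) (T.b (T.l 1) (T.c (T.b (T.l 1) (T.l 816)) (T.b (T.l 1) (T.l 816))))) (T.l 1)) (T.l 1))) (T.a (T.l 816) (T.a (T.l 816) (T.c (T.b (T.c (T.b (T.a (T.a (T.l 816) (T.l 1)) (T.l 1)) (T.l 816)) (T.b (T.a (T.a (T.l 816) (T.l 1)) (T.l 1)) (T.l 816))) (T.l 816)) (T.b (T.c (T.b (T.a (T.a (T.l 816) (T.l 1)) (T.l 1)) (T.l 816)) (T.b (T.a (T.a (T.l 816) (T.l 1)) (T.l 1)) (T.l 816))) (T.l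 816)))))) (T.b (T.a (T.c (T.b (T.a (T.c (T.b (T.l 1) (T.a (T.l 816) (T.l 1))) (T.b (T.l 1) (T.a (T.l 816) (T.l 1)))) (T.l 1)) (T.a (T.l 816) (T.a (T.l 816) (T.c (T.b (T.l 1) (T.l 816)) (T.b (T.l 1) (T.l 816)))))) (T.b (T.a (T.c (T.b (T.l 1) (T.a (T.l 816) (T.l 1))) (T.b (T.l 1) (T.a (T.l 816) (T.l 1)))) (T.l 1)) (T.a (T.l 816) (T.a (T.l 816) (T.c (T.b (T.l 1) (T.l 816)) (T.b (T.l 1) (T.l 816))))))) (T.a (T.a (T.c (T.b (T.l 1) (T.c (T.b (T.l 1) (T.l 816)) (T.b (T.l 1) (T.l 816)))) (T.b (T.l 1) (T.c (T.b (T.l 1) (T.l 816)) (T.b (T.l 1) (T.l 816))))) (T.l 1)) (T.l 1))) (T.a (T.l 816) (T.a (T.l 816) (T.c (T.b (T.c (T.b (T.a (T.a (T.l 816) (T.l 1)) (T.l 1)) (T.l 816)) (T.b (T.a (T.l 944) (T.l 1)) (T.l 816))) (T.l 816)) (T.a (T.l 944) (T.b (T.c (T.b (T.l 1) (T.l 816)) (T.b (T.l 1) (T.l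 816))) (T.l 816)))))))) (T.l 816)) (T.b (T.c (T.b (T.a (T.c (T.b (T.a (T.c (T.b (T.l 1) (T.a (T.l 816) (T.l 1))) (T.b (T.l 1) (T.a (T.l 816) (T.l 1)))) (T.l 1)) (T.a (T.l 816) (T.a (T.l 816) (T.c (T.b (T.l 1) (T.l 816)) (T.b (T.l 1) (T.l 816)))))) (T.b (T.a (T.c (T.b (T.l 1) (T.a (T.l 816) (T.l 1))) (T.b (T.l 1) (T.l 944))) (T.l 1)) (T.a (T.l 816) (T.a (T.l 816) (T.c (T.b (T.l 1) (T.l 816)) (T.b (T.l 1) (T.l 816))))))) (T.a (T.a (T.c (T.b (T.l 1) (T.c (T.b (T.l 1) (T.l 816)) (T.b (T.l 1) (T.l 816)))) (T.b (T.l 1) (T.c (T.b (T.l 1) (T.l 816)) (T.b (T.l 1) (T.l 816))))) (T.l 1)) (T.l 1))) (T.a (T.l 816) (T.a (T.l 816) (T.a (T.l 944) (T.c (T.b (T.c (T.b (T.l 1) (T.l 816)) (T.b (T.l 1) (T.l 816))) (T.l 816)) (T.b (T.c (T.b (T.l 1) (T.l 816)) (T.b (T.l 1) (T.l 816))) (T.l 816))))))) (T.b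 (T.a (T.c (T.b (T.a (T.c (T.b (T.l 1) (T.l 944)) (T.b (T.l 1) (T.l 944))) (T.l 1)) (T.a (T.l 816) (T.a (T.l 816) (T.c (T.b (T.l 1) (T.l 816)) (T.b (T.l 1) (T.l 816)))))) (T.b (T.a (T.c (T.b (T.l 1) (T.l 816)) (T.b (T.l 1) (T.l 816))) (T.l 1)) (T.a (T.l 816) (T.a (T.l 816) (T.c (T.b (T.l 1) (T.l 816)) (T.b (T.l 1) (T.l 816))))))) (T.a (T.a (T.c (T.b (T.l 1) (T.c (T.b (T.l 1) (T.l 816)) (T.b (T.l 1) (T.l 816)))) (T.b (T.l 1) (T.c (T.b (T.l 1) (T.l 816)) (T.b (T.l 1) (T.l 816))))) (T.l 1)) (T.l 1))) (T.a (T.l 816) (T.a (T.l 816) (T.a (T.l 816) (T.c (T.b (T.c (T.b (T.l 1) (T.l 816)) (T.b (T.l 1) (T.l 816))) (T.l 816)) (T.b (T.c (T.b (T.l 1) (T.l 816)) (T.b (T.l 1) (T.l 816))) (T.l 816)))))))) (T.l 816))))), by decide +kernel⟩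

def B102E_000_7_386_1 :
    ∃ t, chk3 (onCell 0 50331648 0 1073741824 50331648 16777216 (corTK [] false 3 c0N cB102E gN0q1 gN0q2 gN0q0 gN1q0 true true)) t 7 386 1 = true :=
  ⟨(T.l 1), by decide +kernel⟩

def B102E_000_14_387_1 :
    ∃ t, chk3 (onCell 0 50331648 0 1073741824 50331648 16777216 (corTK [] false 3 c0N cB102E gN0q1 gN0q2 gN0q0 gN1q0 true true)) t 14 387 1 = true :=
  ⟨(T.c (T.b (T.a (T.a (T.c (T.b (T.l 1) (T.c (T.b (T.l 1) (T.a (T.l 816) (T.c (T.b (T.l 1) (T.l 944)) (T.b (T.l 1) (T.l 944))))) (T.b (T.l 1) (T.a (T.l 816) (T.c (T.b (T.l 1) (T.l 816)) (T.b (T.l 1) (T.l 816))))))) (T.b (T.l 1) (T.c (T.b (T.l 1) (T.a (T.l 816) (T.c (T.b (T.l 1) (T.l 816)) (T.b (T.l 1) (T.l 816))))) (T.b (T.l 1) (T.a (T.l 816) (T.c (T.b (T.l 1) (T.l 816)) (T.b (T.l 1) (T.l 816)))))))) (T.l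 1)) (T.l 1)) (T.a (T.a (T.l 816) (T.c (T.b (T.c (T.b (T.a (T.a (T.l 816) (T.a (T.l 816) (T.c (T.b (T.l 1) (T.l 816)) (T.b (T.l 1) (T.l 816))))) (T.c (T.b (T.l 1) (T.a (T.l 816) (T.a (T.l 944) (T.l 1)))) (T.b (T.l 1) (T.a (T.l 816) (T.a (T.l 816) (T.l 1)))))) (T.l 816)) (T.b (T.a (T.a (T.l 816) (T.a (T.l 816) (T.c (T.b (T.l 1) (T.l 816)) (T.b (T.l 1) (T.l 816))))) (T.c (T.b (T.l 1) (T.a (T.l 816) (T.a (T.l 816) (T.l 1)))) (T.b (T.l 1) (T.a (T.l 816) (T.a (T.l 816) (T.l 1)))))) (T.l 816))) (T.l 816)) (T.b (T.c (T.b (T.a (T.a (T.l 816) (T.c (T.a (T.l 816) (T.l 944)) (T.l 944))) (T.c (T.b (T.l 1) (T.a (T.l 816) (T.a (T.l 816) (T.l 1)))) (T.b (T.l 1) (T.a (T.l 816) (T.a (T.l 816) (T.l 1)))))) (T.l 816)) (T.b (T.a (T.l 944) (T.c (T.b (T.l 1) (T.a (T.l 816) (T.a (T.l 816) (T.l 1)))) (T.b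 (T.l 1) (T.a (T.l 816) (T.a (T.l 816) (T.l 1)))))) (T.l 816))) (T.l 816)))) (T.c (T.b (T.a (T.c (T.b (T.l 1) (T.a (T.a (T.l 816) (T.c (T.b (T.l 1) (T.l 816)) (T.b (T.l 1) (T.l 816)))) (T.c (T.b (T.l 1) (T.a (T.l 944) (T.l 1))) (T.b (T.l 1) (T.a (T.l 816) (T.l 1)))))) (T.b (T.l 1) (T.a (T.a (T.l 816) (T.c (T.b (T.l 1) (T.l 816)) (T.b (T.l 1) (T.l 816)))) (T.c (T.b (T.l 1) (T.a (T.l 816) (T.l 1))) (T.b (T.l 1) (T.a (T.l 816) (T.l 1))))))) (T.l 1)) (T.a (T.l 816) (T.c (T.b (T.a (T.c (T.b (T.a (T.a (T.l 816) (T.l 1)) (T.l 1)) (T.l 816)) (T.b (T.a (T.a (T.l 816) (T.l 1)) (T.l 1)) (T.l 816))) (T.a (T.a (T.c (T.b (T.l 1) (T.l 944)) (T.b (T.l 1) (T.l 816))) (T.l 1)) (T.l 1))) (T.l 816)) (T.b (T.a (T.c (T.b (T.a (T.a (T.l 816) (T.l 1)) (T.l 1)) (T.l 816)) (T.b (T.a (T.a (T.l 816) (T.l 1))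 (T.l 1)) (T.l 816))) (T.a (T.c (T.b (T.l 1) (T.a (T.l 816) (T.l 1))) (T.b (T.l 1) (T.a (T.l 816) (T.l 1)))) (T.l 1))) (T.l 816))))) (T.b (T.a (T.c (T.b (T.l 1) (T.a (T.a (T.l 816) (T.c (T.b (T.l 1) (T.l 816)) (T.b (T.l 1) (T.l 816)))) (T.c (T.b (T.l 1) (T.a (T.l 816) (T.l 1))) (T.b (T.l 1) (T.a (T.l 816) (T.l 1)))))) (T.b (T.l 1) (T.a (T.a (T.l 816) (T.c (T.b (T.l 1) (T.l 816)) (T.b (T.l 1) (T.l 816)))) (T.c (T.b (T.l 1) (T.a (T.l 816) (T.l 1))) (T.b (T.l 1) (T.a (T.l 816) (T.l 1))))))) (T.l 1)) (T.a (T.l 816) (T.c (T.b (T.a (T.c (T.b (T.a (T.l 944) (T.l 1)) (T.l 816)) (T.b (T.a (T.l 944) (T.l 1)) (T.l 816))) (T.a (T.c (T.b (T.l 1) (T.a (T.l 816) (T.l 1))) (T.b (T.l 1) (T.a (T.l 816) (T.l 1)))) (T.l 1))) (T.l 816)) (T.b (T.a (T.c (T.b (T.a (T.l 944) (T.l 1)) (T.l 816)) (T.a (T.l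 944) (T.b (T.l 1) (T.l 816)))) (T.a (T.c (T.b (T.l 1) (T.a (T.l 816) (T.l 1))) (T.b (T.l 1) (T.a (T.l 816) (T.l 1)))) (T.l 1))) (T.l 816)))))))) (T.b (T.a (T.a (T.c (T.b (T.l 1) (T.c (T.b (T.l 1) (T.a (T.l 816) (T.c (T.b (T.l 1) (T.l 816)) (T.b (T.l 1) (T.l 816))))) (T.b (T.l 1) (T.a (T.l 816) (T.c (T.b (T.l 1) (T.l 816)) (T.b (T.l 1) (T.l 816))))))) (T.b (T.l 1) (T.c (T.b (T.l 1) (T.a (T.l 816) (T.c (T.b (T.l 1) (T.l 816)) (T.b (T.l 1) (T.l 816))))) (T.b (T.l 1) (T.a (T.l 816) (T.c (T.b (T.l 1) (T.l 816)) (T.b (T.l 1) (T.l 816)))))))) (T.l 1)) (T.l 1)) (T.a (T.a (T.l 816) (T.c (T.b (T.c (T.a (T.l 944) (T.b (T.c (T.b (T.l 1) (T.a (T.l 816) (T.a (T.l 816) (T.l 1)))) (T.b (T.l 1) (T.a (T.l 816) (T.a (T.l 816) (T.l 1))))) (T.l 816))) (T.a (T.l 944) (T.b (T.c (T.b (T.l 1) (T.a (T.l 816)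 (T.a (T.l 816) (T.l 1)))) (T.b (T.l 1) (T.a (T.l 816) (T.l 944)))) (T.l 816)))) (T.l 816)) (T.a (T.l 944) (T.b (T.c (T.b (T.c (T.b (T.l 1) (T.l 944)) (T.b (T.l 1) (T.l 944))) (T.l 816)) (T.b (T.c (T.b (T.l 1) (T.l 944)) (T.b (T.l 1) (T.l 944))) (T.l 816))) (T.l 816))))) (T.c (T.b (T.a (T.c (T.b (T.l 1) (T.a (T.a (T.l 816) (T.c (T.b (T.l 1) (T.l 816)) (T.b (T.l 1) (T.l 816)))) (T.c (T.b (T.l 1) (T.a (T.l 816) (T.l 1))) (T.b (T.l 1) (T.a (T.l 816) (T.l 1)))))) (T.b (T.l 1) (T.a (T.a (T.l 816) (T.c (T.b (T.l 1) (T.l 816)) (T.b (T.l 1) (T.l 816)))) (T.c (T.b (T.l 1) (T.a (T.l 816) (T.l 1))) (T.b (T.l 1) (T.a (T.l 816) (T.l 1))))))) (T.l 1)) (T.a (T.l 816) (T.c (T.b (T.a (T.a (T.l 944) (T.c (T.b (T.l 1) (T.l 816)) (T.b (T.l 1) (T.l 816)))) (T.a (T.c (T.b (T.l 1) (T.a (T.l 816) (T.l 1)))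 (T.b (T.l 1) (T.a (T.l 816) (T.l 1)))) (T.l 1))) (T.l 816)) (T.b (T.a (T.a (T.l 816) (T.c (T.b (T.l 1) (T.l 816)) (T.b (T.l 1) (T.l 816)))) (T.a (T.c (T.b (T.l 1) (T.a (T.l 816) (T.l 1))) (T.b (T.l 1) (T.l 944))) (T.l 1))) (T.l 816))))) (T.b (T.a (T.c (T.b (T.l 1) (T.a (T.a (T.l 816) (T.c (T.b (T.l 1) (T.l 816)) (T.b (T.l 1) (T.l 816)))) (T.c (T.b (T.l 1) (T.a (T.l 816) (T.l 1))) (T.b (T.l 1) (T.a (T.l 816) (T.l 1)))))) (T.b (T.l 1) (T.a (T.a (T.l 816) (T.c (T.b (T.l 1) (T.l 816)) (T.b (T.l 1) (T.l 816)))) (T.c (T.b (T.l 1) (T.a (T.l 816) (T.l 1))) (T.b (T.l 1) (T.a (T.l 816) (T.l 1))))))) (T.l 1)) (T.a (T.l 816) (T.c (T.b (T.a (T.a (T.l 816) (T.c (T.b (T.l 1) (T.l 816)) (T.b (T.l 1) (T.l 816)))) (T.a (T.c (T.b (T.l 1) (T.l 944)) (T.b (T.l 1) (T.l 944))) (T.l 1))) (T.l 816)) (T.b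 (T.a (T.a (T.l 816) (T.c (T.b (T.l 1) (T.l 816)) (T.b (T.l 1) (T.l 816)))) (T.a (T.c (T.b (T.l 1) (T.l 944)) (T.b (T.l 1) (T.l 944))) (T.l 1))) (T.l 816))))))))), by decide +kernel⟩

def B102E_000_15_387_1 :
    ∃ t, chk3 (onCell 0 50331648 0 1073741824 50331648 16777216 (corTK [] false 3 c0N cB102E gN0q1 gN0q2 gN0q0 gN1q0 true true)) t 15 387 1 = true :=
  ⟨(T.a (T.a (T.c (T.b (T.l 1) (T.a (T.c (T.b (T.l 1) (T.c (T.b (T.l 1) (T.c (T.b (T.l 1) (T.l 944)) (T.b (T.l 1) (T.l 944)))) (T.b (T.l 1) (T.c (T.b (T.l 1) (T.l 816)) (T.b (T.l 1) (T.l 816)))))) (T.b (T.l 1) (T.c (T.b (T.l 1) (T.c (T.b (T.l 1) (T.l 816)) (T.b (T.l 1) (T.l 816)))) (T.b (T.l 1) (T.c (T.b (T.l 1) (T.l 816)) (T.b (T.l 1) (T.l 816))))))) (T.l 1))) (T.b (T.l 1) (T.a (T.c (T.b (T.l 1) (T.c (T.b (T.l 1) (T.c (T.b (T.l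 1) (T.l 816)) (T.b (T.l 1) (T.l 816)))) (T.b (T.l 1) (T.c (T.b (T.l 1) (T.l 816)) (T.b (T.l 1) (T.l 816)))))) (T.b (T.l 1) (T.c (T.b (T.l 1) (T.c (T.b (T.l 1) (T.l 816)) (T.b (T.l 1) (T.l 816)))) (T.b (T.l 1) (T.c (T.b (T.l 1) (T.l 816)) (T.b (T.l 1) (T.l 816))))))) (T.l 1)))) (T.l 1)) (T.l 1)), by decide +kernel⟩

def B102E_000_2_97_1 :
    ∃ t, chk3 (onCell 0 50331648 0 1073741824 50331648 16777216 (corTK [] false 3 c0N cB102E gN0q1 gN0q2 gN0q0 gN1q0 true true)) t 2 97 1 = true :=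
  ⟨(T.a (T.l 204) (T.a (T.l 0) (T.l 0))), by decide +kernel⟩

def B102E_000_6_97_1 :
    ∃ t, chk3 (onCell 0 50331648 0 1073741824 50331648 16777216 (corTK [] false 3 c0N cB102E gN0q1 gN0q2 gN0q0 gN1q0 true true)) t 6 97 1 = true :=
  ⟨(T.a (T.l 0) (T.b (T.l 0) (T.l 204))), by decide +kernel⟩

def B102E_000_14_194_1 :
    ∃ t, chk3 (onCell 0 50331648 0 1073741824 50331648 16777216 (corTK [] false 3 c0N cB102E gN0q1 gN0q2 gN0q0 gN1q0 true true)) t 14 194 1 = true :=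
  ⟨(T.a (T.l 0) (T.c (T.l 0) (T.l 0))), by decide +kernel⟩

def B102E_000_15_388_2 :
    ∃ t, chk3 (onCell 0 50331648 0 1073741824 50331648 16777216 (corTK [] false 3 c0N cB102E gN0q1 gN0q2 gN0q0 gN1q0 true true)) t 15 388 2 = true :=
  ⟨(T.b (T.a (T.c (T.b (T.a (T.a (T.l 816) (T.a (T.l 816) (T.c (T.b (T.a (T.l 816) (T.c (T.b (T.a (T.l 816) (T.l 1)) (T.l 816)) (T.b (T.a (T.l 816) (T.l 1)) (T.l 816)))) (T.l 816)) (T.b (T.a (T.l 816) (T.c (T.b (T.a (T.l 816) (T.l 1)) (T.l 816)) (T.c (T.b (T.c (T.l 944) (T.l 944)) (T.l 816)) (T.l 944)))) (T.l 816))))) (T.c (T.b (T.a (T.c (T.b (T.l 1) (T.a (T.l 816) (T.a (T.l 816) (T.l 1)))) (T.b (T.l 1) (T.a (T.l 816) (T.a (T.l 816) (T.l 1))))) (T.l 1)) (T.a (T.l 816) (T.a (T.l 816) (T.c (T.b (T.c (T.b (T.l 1) (T.l 816)) (T.b (T.l 1) (T.l 816))) (T.l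 816)) (T.b (T.c (T.b (T.l 1) (T.l 816)) (T.b (T.l 1) (T.l 816))) (T.l 816)))))) (T.b (T.a (T.c (T.b (T.l 1) (T.a (T.l 816) (T.a (T.l 816) (T.l 1)))) (T.b (T.l 1) (T.a (T.l 816) (T.a (T.l 816) (T.l 1))))) (T.l 1)) (T.a (T.l 816) (T.a (T.l 816) (T.c (T.b (T.c (T.b (T.l 1) (T.l 816)) (T.b (T.l 1) (T.l 816))) (T.l 816)) (T.b (T.a (T.l 944) (T.l 1)) (T.l 816)))))))) (T.l 816)) (T.b (T.a (T.a (T.l 816) (T.a (T.l 816) (T.c (T.c (T.b (T.l 944) (T.l 816)) (T.l 944)) (T.l 944)))) (T.c (T.b (T.a (T.c (T.b (T.l 1) (T.a (T.l 816) (T.a (T.l 816) (T.l 1)))) (T.b (T.l 1) (T.a (T.l 816) (T.a (T.l 816) (T.l 1))))) (T.l 1)) (T.a (T.l 816) (T.a (T.l 816) (T.c (T.b (T.a (T.l 944) (T.l 1)) (T.l 816)) (T.b (T.a (T.l 944) (T.l 1)) (T.l 816)))))) (T.b (T.a (T.c (T.b (T.l 1) (T.a (T.l 816) (T.a (T.l 816)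 (T.l 1)))) (T.b (T.l 1) (T.a (T.l 816) (T.a (T.l 816) (T.l 1))))) (T.l 1)) (T.a (T.l 816) (T.a (T.l 816) (T.c (T.b (T.a (T.l 944) (T.l 1)) (T.l 816)) (T.b (T.a (T.l 944) (T.l 1)) (T.l 816)))))))) (T.l 816))) (T.c (T.b (T.a (T.a (T.a (T.c (T.b (T.l 1) (T.c (T.b (T.l 1) (T.l 816)) (T.b (T.l 1) (T.l 816)))) (T.b (T.l 1) (T.c (T.b (T.l 1) (T.l 816)) (T.b (T.l 1) (T.l 816))))) (T.l 1)) (T.l 1)) (T.l 1)) (T.a (T.a (T.l 816) (T.c (T.b (T.c (T.b (T.a (T.c (T.b (T.l 1) (T.l 816)) (T.b (T.l 1) (T.l 816))) (T.l 1)) (T.l 816)) (T.b (T.a (T.c (T.b (T.l 1) (T.l 816)) (T.b (T.l 1) (T.l 816))) (T.l 1)) (T.l 816))) (T.l 816)) (T.b (T.c (T.b (T.a (T.c (T.b (T.l 1) (T.l 816)) (T.a (T.l 816) (T.l 944))) (T.l 1)) (T.l 816)) (T.a (T.l 944) (T.b (T.l 1) (T.l 816)))) (T.l 816)))) (T.c (T.b (T.a (T.a (T.c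 (T.b (T.l 1) (T.a (T.l 816) (T.l 1))) (T.b (T.l 1) (T.a (T.l 816) (T.l 1)))) (T.l 1)) (T.l 1)) (T.a (T.l 816) (T.c (T.b (T.a (T.c (T.b (T.l 1) (T.l 816)) (T.b (T.l 1) (T.l 816))) (T.l 1)) (T.l 816)) (T.b (T.a (T.c (T.b (T.l 1) (T.l 816)) (T.b (T.l 1) (T.l 816))) (T.l 1)) (T.l 816))))) (T.b (T.a (T.a (T.c (T.b (T.l 1) (T.a (T.l 816) (T.l 1))) (T.b (T.l 1) (T.a (T.l 816) (T.l 1)))) (T.l 1)) (T.l 1)) (T.a (T.l 816) (T.c (T.b (T.a (T.a (T.l 944) (T.l 1)) (T.l 1)) (T.l 816)) (T.b (T.a (T.a (T.l 944) (T.l 1)) (T.l 1)) (T.l 816)))))))) (T.b (T.a (T.a (T.a (T.c (T.b (T.l 1) (T.c (T.b (T.l 1) (T.l 816)) (T.b (T.l 1) (T.l 816)))) (T.b (T.l 1) (T.c (T.b (T.l 1) (T.l 816)) (T.b (T.l 1) (T.l 816))))) (T.l 1)) (T.l 1)) (T.l 1)) (T.a (T.a (T.l 816) (T.c (T.a (T.l 944) (T.b (T.c (T.b (T.l 1) (T.l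 816)) (T.b (T.l 1) (T.l 816))) (T.l 816))) (T.a (T.l 944) (T.b (T.c (T.b (T.l 1) (T.l 816)) (T.b (T.l 1) (T.l 816))) (T.l 816))))) (T.c (T.b (T.a (T.a (T.c (T.b (T.l 1) (T.a (T.l 816) (T.l 1))) (T.b (T.l 1) (T.a (T.l 816) (T.l 1)))) (T.l 1)) (T.l 1)) (T.a (T.l 816) (T.c (T.b (T.a (T.a (T.l 944) (T.l 1)) (T.l 1)) (T.l 816)) (T.b (T.a (T.a (T.l 944) (T.l 1)) (T.l 1)) (T.l 816))))) (T.b (T.a (T.a (T.c (T.b (T.l 1) (T.a (T.l 816) (T.l 1))) (T.b (T.l 1) (T.a (T.l 816) (T.l 1)))) (T.l 1)) (T.l 1)) (T.a (T.l 816) (T.c (T.b (T.a (T.a (T.l 944) (T.l 1)) (T.l 1)) (T.l 816)) (T.b (T.a (T.a (T.l 944) (T.l 1)) (T.l 1)) (T.l 816)))))))))) (T.a (T.l 816) (T.l 816))), by decide +kernel⟩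

def B102E_000_15_388_3 :
    ∃ t, chk3 (onCell 0 50331648 0 1073741824 50331648 16777216 (corTK [] false 3 c0N cB102E gN0q1 gN0q2 gN0q0 gN1q0 true true)) t 15 388 3 = true :=
  ⟨(T.b (T.a (T.c (T.b (T.a (T.a (T.l 816) (T.l 944)) (T.c (T.b (T.a (T.c (T.b (T.l 1) (T.a (T.l 816) (T.a (T.l 816) (T.l 1)))) (T.b (T.l 1) (T.a (T.l 816) (T.a (T.l 816) (T.l 1))))) (T.l 1)) (T.a (T.l 816) (T.a (T.l 816) (T.c (T.b (T.a (T.l 944) (T.l 1)) (T.l 816)) (T.b (T.a (T.l 816) (T.l 1)) (T.l 816)))))) (T.b (T.a (T.c (T.b (T.l 1) (T.a (T.l 816) (T.a (T.l 816) (T.l 1)))) (T.b (T.l 1) (T.a (T.l 816) (T.c (T.l 944) (T.l 944))))) (T.l 1)) (T.a (T.l 816) (T.a (T.l 816) (T.c (T.b (T.a (T.l 816) (T.l 1)) (T.l 816)) (T.b (T.a (T.l 816) (T.l 1)) (T.l 816)))))))) (T.l 816)) (T.b (T.a (T.c (T.l 944) (T.l 944))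 (T.c (T.b (T.a (T.c (T.b (T.l 1) (T.a (T.l 816) (T.l 944))) (T.b (T.l 1) (T.l 944))) (T.l 1)) (T.a (T.l 816) (T.a (T.l 816) (T.c (T.b (T.a (T.l 816) (T.l 1)) (T.l 816)) (T.b (T.a (T.l 816) (T.l 1)) (T.l 816)))))) (T.b (T.a (T.c (T.b (T.l 1) (T.l 944)) (T.b (T.l 1) (T.l 944))) (T.l 1)) (T.a (T.l 816) (T.a (T.l 816) (T.c (T.a (T.l 816) (T.b (T.l 1) (T.l 816))) (T.a (T.l 816) (T.b (T.l 1) (T.l 816))))))))) (T.l 816))) (T.c (T.b (T.a (T.a (T.a (T.c (T.b (T.l 1) (T.c (T.b (T.l 1) (T.l 816)) (T.b (T.l 1) (T.l 816)))) (T.b (T.l 1) (T.c (T.b (T.l 1) (T.l 816)) (T.b (T.l 1) (T.l 816))))) (T.l 1)) (T.l 1)) (T.l 1)) (T.a (T.a (T.l 816) (T.a (T.l 944) (T.c (T.b (T.c (T.b (T.l 1) (T.l 816)) (T.b (T.l 1) (T.l 816))) (T.l 816)) (T.b (T.c (T.b (T.l 1) (T.l 816)) (T.b (T.l 1) (T.l 816))) (T.l 816)))))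 (T.c (T.b (T.a (T.a (T.c (T.b (T.l 1) (T.a (T.l 816) (T.l 1))) (T.b (T.l 1) (T.a (T.l 816) (T.l 1)))) (T.l 1)) (T.l 1)) (T.a (T.l 816) (T.c (T.b (T.a (T.a (T.l 944) (T.l 1)) (T.l 1)) (T.l 816)) (T.b (T.a (T.a (T.l 816) (T.l 1)) (T.l 1)) (T.l 816))))) (T.b (T.a (T.a (T.c (T.b (T.l 1) (T.a (T.l 816) (T.l 1))) (T.b (T.l 1) (T.c (T.l 944) (T.l 944)))) (T.l 1)) (T.l 1)) (T.a (T.l 816) (T.c (T.b (T.a (T.a (T.l 816) (T.l 1)) (T.l 1)) (T.l 816)) (T.b (T.a (T.a (T.l 816) (T.l 1)) (T.l 1)) (T.l 816)))))))) (T.b (T.a (T.a (T.a (T.c (T.b (T.l 1) (T.c (T.b (T.l 1) (T.l 816)) (T.b (T.l 1) (T.l 816)))) (T.b (T.l 1) (T.c (T.b (T.l 1) (T.l 816)) (T.b (T.l 1) (T.l 816))))) (T.l 1)) (T.l 1)) (T.l 1)) (T.a (T.a (T.l 816) (T.a (T.l 816) (T.c (T.b (T.c (T.b (T.l 1) (T.l 816)) (T.b (T.l 1) (T.l 816)))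 (T.l 816)) (T.b (T.c (T.b (T.l 1) (T.l 816)) (T.b (T.l 1) (T.l 816))) (T.l 816))))) (T.c (T.b (T.a (T.a (T.c (T.b (T.l 1) (T.l 944)) (T.b (T.l 1) (T.l 944))) (T.l 1)) (T.l 1)) (T.a (T.l 816) (T.c (T.b (T.a (T.a (T.l 816) (T.l 1)) (T.l 1)) (T.l 816)) (T.b (T.a (T.a (T.l 816) (T.l 1)) (T.l 1)) (T.l 816))))) (T.b (T.a (T.a (T.c (T.b (T.l 1) (T.l 944)) (T.b (T.l 1) (T.l 944))) (T.l 1)) (T.l 1)) (T.a (T.l 816) (T.c (T.b (T.a (T.a (T.l 816) (T.l 1)) (T.l 1)) (T.l 816)) (T.b (T.a (T.a (T.l 816) (T.l 1)) (T.l 1)) (T.l 816)))))))))) (T.a (T.l 816) (T.l 816))), by decide +kernel⟩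

def B102E_000_15_389_1 :
    ∃ t, chk3 (onCell 0 50331648 0 1073741824 50331648 16777216 (corTK [] false 3 c0N cB102E gN0q1 gN0q2 gN0q0 gN1q0 true true)) t 15 389 1 = true :=
  ⟨(T.l 0), by decide +kernel⟩

def B102E_000_7_195_1 :
    ∃ t, chk3 (onCell 0 50331648 0 1073741824 50331648 16777216 (corTK [] false 3 c0N cB102E gN0q1 gN0q2 gN0q0 gN1q0 true true)) t 7 195 1 = true :=
  ⟨(T.l 0), by decide +kernel⟩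

def B102E_000_1_49_1 :
    ∃ t, chk3 (onCell 0 50331648 0 1073741824 50331648 16777216 (corTK [] false 3 c0N cB102E gN0q1 gN0q2 gN0q0 gN1q0 true true)) t 1 49 1 = true :=
  ⟨(T.a (T.a (T.l 204) (T.a (T.l 0) (T.l 204))) (T.a (T.b (T.l 0) (T.l 204)) (T.l 0))), by decide +kernel⟩

def B102E_000_1_25_1 :
    ∃ t, chk3 (onCell 0 50331648 0 1073741824 50331648 16777216 (corTK [] false 3 c0N cB102E gN0q1 gN0q2 gN0q0 gN1q0 true true)) t 1 25 1 = true :=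
  ⟨(T.a (T.a (T.a (T.l 204) (T.l 204)) (T.a (T.l 204) (T.l 204))) (T.a (T.b (T.l 204) (T.l 204)) (T.l 204))), by decide +kernel⟩

def B102E_000_1_13_1 :
    ∃ t, chk3 (onCell 0 50331648 0 1073741824 50331648 16777216 (corTK [] false 3 c0N cB102E gN0q1 gN0q2 gN0q0 gN1q0 true true)) t 1 13 1 = true :=
  ⟨(T.a (T.a (T.a (T.l 204) (T.l 204)) (T.b (T.l 0) (T.l 204))) (T.a (T.l 204) (T.l 204))), by decide +kernel⟩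

def B102E_000_1_7_1 :
    ∃ t, chk3 (onCell 0 50331648 0 1073741824 50331648 16777216 (corTK [] false 3 c0N cB102E gN0q1 gN0q2 gN0q0 gN1q0 true true)) t 1 7 1 = true :=
  ⟨(T.b (T.b (T.a (T.a (T.a (T.l 204) (T.l 204)) (T.l 204)) (T.l 204)) (T.l 2)) (T.l 2)), by decide +kernel⟩

end Pool.Agent.Strip051.G.I3_64_1_16.Tab.CN
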