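import Pool.Agent.Strip051.G.I3_64_1_16.Gn
import Pool.Agent.Strip051.PB.Corns
import Pool.Agent.Strip051.PB.CornK
import Pool.Agent.Strip051.G.I3_64_1_16.CNB_0
import Pool.Agent.Strip051.G.I3_64_1_16.CNB_1
import Pool.Agent.Strip051.G.I3_64_1_16.CNB_2
import Pool.Agent.Strip051.G.I3_64_1_16.CNB_3

/-! # Certificates of the aligned corners (generated) -/

set_option linter.all false

namespace Pool.Agent.Strip051.G.I3_64_1_16.Tab.CN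

open Pool.Agent.Strip051.PB

def B022L_040_1_2_1 :
    ∃ t, chk3 (onCell 0 50331648 0 1073741824 50331648 16777216 (corTK [] false 3 c0N cB022L gN0q0 gN4q2 gN0q2 gN1q2 true true)) t 1 2 1 = true :=
  ⟨(T.b (T.b (T.l 2) (T.b (T.a (T.b (T.l 2) (T.b (T.a (T.a (T.l 204) (T.l 2)) (T.l 2)) (T.a (T.a (T.l 204) (T.a (T.l 0) (T.l 0))) (T.a (T.c (T.l 0) (T.l 0)) (T.b (T.l 2) (T.l 0)))))) (T.l 2)) (T.b (T.a (T.b (T.a (T.a (T.l 204) (T.a (T.l 0) (T.l 0))) (T.a (T.c (T.l 0) (T.l 0)) (T.b (T.l 0) (T.l 0)))) (T.a (T.a (T.l 204) (T.a (T.l 0) (T.l 0))) (T.a (T.c (T.l 0) (T.l 0)) (T.b (T.l 0) (T.l 0))))) (T.a (T.a (T.l 272) (T.l 204)) (T.a (T.l 204) (T.l 204)))) (T.a (T.b (T.a (T.a (T.l 204) (T.a (T.l 0) (T.l 0))) (T.a (T.c (T.l 0) (T.l 0)) (T.b (T.l 0) (T.l 0)))) (T.a (T.a (T.l 204) (T.a (T.l 0) (T.l 0))) (T.a (T.l 0) (T.b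 (T.l 0) (T.l 0))))) (T.a (T.a (T.l 272) (T.l 0)) (T.a (T.l 204) (T.l 204))))))) (T.b (T.b (T.b (T.a (T.a (T.a (T.l 204) (T.a (T.b (T.l 0) (T.l 204)) (T.l 0))) (T.a (T.b (T.l 0) (T.l 0)) (T.a (T.l 204) (T.l 204)))) (T.a (T.a (T.b (T.l 0) (T.l 0)) (T.l 0)) (T.a (T.l 204) (T.l 204)))) (T.a (T.a (T.a (T.l 204) (T.a (T.l 204) (T.l 0))) (T.a (T.b (T.l 0) (T.l 0)) (T.a (T.l 204) (T.l 204)))) (T.a (T.a (T.b (T.l 0) (T.l 0)) (T.l 0)) (T.a (T.l 204) (T.l 204))))) (T.b (T.a (T.a (T.a (T.l 204) (T.a (T.l 204) (T.l 0))) (T.a (T.b (T.l 0) (T.l 0)) (T.a (T.l 204) (T.l 204)))) (T.a (T.a (T.b (T.l 0) (T.l 0)) (T.l 0)) (T.a (T.l 0) (T.l 204)))) (T.a (T.a (T.a (T.l 204) (T.a (T.l 204) (T.l 0))) (T.a (T.b (T.l 0) (T.l 0)) (T.a (T.l 204) (T.l 204)))) (T.a (T.a (T.b (T.l 0) (T.l 0)) (T.l 0)) (T.a (T.l 0) (T.l 0)))))) (T.b (T.a (T.a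 (T.a (T.l 204) (T.a (T.l 204) (T.b (T.l 0) (T.l 0)))) (T.a (T.a (T.l 0) (T.l 0)) (T.a (T.l 0) (T.l 0)))) (T.a (T.a (T.a (T.b (T.l 204) (T.l 0)) (T.l 272)) (T.a (T.l 272) (T.l 0))) (T.a (T.b (T.l 0) (T.l 0)) (T.b (T.l 0) (T.l 0))))) (T.a (T.a (T.a (T.l 204) (T.a (T.l 204) (T.b (T.l 0) (T.l 204)))) (T.a (T.a (T.l 276) (T.l 0)) (T.b (T.l 0) (T.l 272)))) (T.a (T.a (T.a (T.l 0) (T.b (T.l 0) (T.l 0))) (T.b (T.b (T.l 0) (T.l 0)) (T.b (T.l 0) (T.l 0)))) (T.a (T.b (T.l 0) (T.l 272)) (T.b (T.l 0) (T.l 0)))))))), by decide +kernel⟩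

def B022L_040_1_12_1 :
    ∃ t, chk3 (onCell 0 50331648 0 1073741824 50331648 16777216 (corTK [] false 3 c0N cB022L gN0q0 gN4q2 gN0q2 gN1q2 true true)) t 1 12 1 = true :=
  ⟨(T.b (T.a (T.a (T.l 0) (T.a (T.a (T.b (T.l 0) (T.l 0)) (T.b (T.l 0) (T.l 0))) (T.a (T.l 68) (T.l 0)))) (T.a (T.a (T.a (T.l 68) (T.b (T.l 0) (T.l 0))) (T.b (T.b (T.l 0) (T.l 0)) (T.b (T.l 0) (T.l 0)))) (T.a (T.b (T.b (T.l 0) (T.l 0)) (T.b (T.l 0) (T.l 0))) (T.b (T.l 272) (T.b (T.l 0) (T.l 0)))))) (T.a (T.a (T.l 0) (T.a (T.a (T.l 816) (T.b (T.l 0) (T.l 68))) (T.a (T.b (T.l 0) (T.l 0)) (T.b (T.l 0) (T.l 68))))) (T.a (T.a (T.b (T.b (T.l 0) (T.l 0)) (T.a (T.l 0) (T.l 0))) (T.b (T.b (T.l 84) (T.l 0)) (T.a (T.l 0) (T.l 0)))) (T.a (T.b (T.b (T.l 0) (T.l 0)) (T.a (T.l 68) (T.l 68))) (T.b (T.b (T.l 0) (T.l 0)) (T.a (T.l 4) (T.l 4))))))), by decide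 +kernel⟩

def B022L_040_1_52_1 :
    ∃ t, chk3 (onCell 0 50331648 0 1073741824 50331648 16777216 (corTK [] false 3 c0N cB022L gN0q0 gN4q2 gN0q2 gN1q2 true true)) t 1 52 1 = true :=
  ⟨(T.b (T.a (T.a (T.l 816) (T.a (T.a (T.l 816) (T.l 816)) (T.a (T.l 0) (T.l 0)))) (T.a (T.a (T.a (T.l 816) (T.l 816)) (T.b (T.l 0) (T.l 0))) (T.a (T.b (T.l 0) (T.l 0)) (T.b (T.l 816) (T.l 884))))) (T.a (T.a (T.l 816) (T.a (T.l 816) (T.a (T.b (T.l 816) (T.l 884)) (T.b (T.l 816) (T.l 816))))) (T.a (T.a (T.a (T.l 884) (T.l 816)) (T.a (T.l 816) (T.l 816))) (T.a (T.b (T.l 884) (T.l 884)) (T.a (T.l 884) (T.l 816)))))), by decide +kernel⟩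

def B022L_040_1_212_1 :
    ∃ t, chk3 (onCell 0 50331648 0 1073741824 50331648 16777216 (corTK [] false 3 c0N cB022L gN0q0 gN4q2 gN0q2 gN1q2 true true)) t 1 212 1 = true :=
  ⟨(T.b (T.a (T.a (T.l 816) (T.a (T.l 816) (T.a (T.l 884) (T.l 816)))) (T.a (T.a (T.a (T.l 816) (T.l 816)) (T.c (T.l 884) (T.l 884))) (T.a (T.l 884) (T.c (T.l 820) (T.l 816))))) (T.a (T.a (T.l 816) (T.a (T.l 816) (T.a (T.c (T.l 816) (T.l 816)) (T.l 816)))) (T.a (T.a (T.a (T.l 816) (T.l 816)) (T.a (T.l 816) (T.l 816))) (T.a (T.c (T.l 884) (T.l 884)) (T.c (T.l 884) (T.l 884)))))), by decide +kernel⟩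

def B022L_040_1_426_1 :
    ∃ t, chk3 (onCell 0 50331648 0 1073741824 50331648 16777216 (corTK [] false 3 c0N cB022L gN0q0 gN4q2 gN0q2 gN1q2 true true)) t 1 426 1 = true :=
  ⟨(T.a (T.a (T.c (T.b (T.l 816) (T.c (T.b (T.l 816) (T.a (T.c (T.b (T.a (T.a (T.l 1) (T.c (T.b (T.l 816) (T.l 1)) (T.b (T.l 816) (T.l 1)))) (T.a (T.c (T.b (T.l 816) (T.l 1)) (T.b (T.l 816) (T.l 1))) (T.l 816))) (T.l 1)) (T.b (T.a (T.a (T.l 1) (T.c (T.b (T.l 816) (T.l 1)) (T.b (T.l 816) (T.l 1)))) (T.a (T.c (T.b (T.l 816) (T.l 1)) (T.b (T.l 816) (T.l 1))) (T.l 816))) (T.l 1))) (T.a (T.c (T.b (T.l 816) (T.c (T.b (T.l 816) (T.l 1)) (T.b (T.l 816) (T.l 1)))) (T.b (T.l 816) (T.c (T.b (T.l 816) (T.l 1)) (T.b (T.l 816) (T.l 1))))) (T.l 816)))) (T.b (T.l 816) (T.a (T.c (T.b (T.a (T.a (T.l 1) (T.c (T.b (T.l 816) (T.l 1)) (T.b (T.l 816) (T.l 1))))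 (T.a (T.c (T.b (T.l 816) (T.l 1)) (T.b (T.l 816) (T.l 1))) (T.l 816))) (T.l 1)) (T.b (T.a (T.a (T.l 1) (T.c (T.b (T.l 816) (T.l 1)) (T.b (T.l 816) (T.l 1)))) (T.a (T.c (T.b (T.l 816) (T.l 1)) (T.b (T.l 816) (T.l 1))) (T.l 816))) (T.l 1))) (T.a (T.c (T.b (T.l 816) (T.c (T.b (T.l 816) (T.l 1)) (T.b (T.l 816) (T.l 1)))) (T.b (T.l 816) (T.c (T.b (T.l 816) (T.l 1)) (T.b (T.l 816) (T.l 1))))) (T.l 816)))))) (T.b (T.l 816) (T.c (T.b (T.l 816) (T.a (T.c (T.b (T.a (T.a (T.l 1) (T.c (T.b (T.l 816) (T.l 1)) (T.b (T.l 816) (T.l 1)))) (T.a (T.c (T.b (T.l 816) (T.l 1)) (T.b (T.l 816) (T.l 1))) (T.l 816))) (T.l 1)) (T.b (T.a (T.a (T.l 1) (T.c (T.b (T.l 816) (T.l 1)) (T.b (T.l 816) (T.l 1)))) (T.a (T.c (T.b (T.l 816) (T.l 1)) (T.b (T.l 816) (T.l 1))) (T.l 816))) (T.l 1))) (T.a (T.c (T.b (T.l 816) (T.c (T.b (T.l 816) (T.l 1))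 (T.b (T.l 816) (T.l 1)))) (T.b (T.l 816) (T.c (T.b (T.l 816) (T.l 1)) (T.b (T.l 816) (T.l 1))))) (T.l 816)))) (T.b (T.l 816) (T.a (T.c (T.b (T.a (T.a (T.l 1) (T.c (T.b (T.l 816) (T.l 1)) (T.b (T.l 816) (T.l 1)))) (T.a (T.c (T.b (T.l 816) (T.l 1)) (T.a (T.l 816) (T.l 816))) (T.l 816))) (T.l 1)) (T.b (T.a (T.a (T.l 1) (T.c (T.b (T.l 816) (T.l 1)) (T.b (T.l 816) (T.l 1)))) (T.l 816)) (T.l 1))) (T.a (T.a (T.c (T.b (T.l 816) (T.c (T.b (T.l 816) (T.l 1)) (T.b (T.l 816) (T.l 1)))) (T.b (T.l 816) (T.c (T.b (T.l 816) (T.l 1)) (T.b (T.l 816) (T.l 1))))) (T.l 816)) (T.l 816))))))) (T.a (T.l 816) (T.a (T.a (T.l 816) (T.l 816)) (T.c (T.l 816) (T.l 816))))) (T.a (T.a (T.a (T.l 816) (T.l 816)) (T.a (T.l 816) (T.l 816))) (T.a (T.a (T.l 816) (T.l 816)) (T.a (T.l 816) (T.l 816))))), by decide +kernel⟩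

def B022L_040_2_427_1 :
    ∃ t, chk3 (onCell 0 50331648 0 1073741824 50331648 16777216 (corTK [] false 3 c0N cB022L gN0q0 gN4q2 gN0q2 gN1q2 true true)) t 2 427 1 = true :=
  ⟨(T.c (T.b (T.a (T.a (T.l 1) (T.a (T.l 1) (T.a (T.l 1) (T.a (T.l 1) (T.c (T.b (T.a (T.l 1) (T.c (T.b (T.c (T.b (T.l 816) (T.l 1)) (T.b (T.l 816) (T.l 1))) (T.l 1)) (T.b (T.c (T.b (T.l 816) (T.l 1)) (T.b (T.l 816) (T.l 1))) (T.l 1)))) (T.l 1)) (T.b (T.a (T.l 1) (T.c (T.b (T.c (T.b (T.l 816) (T.l 1)) (T.b (T.l 816) (T.l 1))) (T.l 1)) (T.b (T.c (T.b (T.l 816) (T.l 1)) (T.b (T.l 816) (T.l 1))) (T.l 1)))) (T.l 1))))))) (T.c (T.b (T.a (T.c (T.b (T.a (T.a (T.c (T.b (T.l 816) (T.l 1)) (T.b (T.l 816) (T.l 1))) (T.l 816)) (T.l 816)) (T.a (T.l 1) (T.c (T.b (T.l 816) (T.l 1)) (T.b (T.l 816) (T.l 1))))) (T.b (T.a (T.a (T.c (T.b (T.l 816) (T.l 1)) (T.b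 (T.l 816) (T.l 1))) (T.l 816)) (T.l 816)) (T.a (T.l 1) (T.c (T.b (T.l 816) (T.l 1)) (T.b (T.l 816) (T.l 1)))))) (T.a (T.a (T.l 816) (T.l 816)) (T.l 816))) (T.a (T.l 1) (T.c (T.b (T.a (T.a (T.l 1) (T.a (T.l 1) (T.c (T.b (T.l 816) (T.l 1)) (T.b (T.l 816) (T.l 1))))) (T.a (T.c (T.b (T.l 816) (T.l 1)) (T.b (T.l 816) (T.l 1))) (T.l 816))) (T.l 1)) (T.b (T.a (T.a (T.l 1) (T.a (T.l 1) (T.c (T.b (T.l 816) (T.l 1)) (T.b (T.l 816) (T.l 1))))) (T.a (T.c (T.b (T.l 816) (T.l 1)) (T.b (T.l 816) (T.l 1))) (T.l 816))) (T.l 1))))) (T.b (T.a (T.c (T.b (T.a (T.a (T.c (T.b (T.l 816) (T.l 1)) (T.b (T.l 816) (T.l 1))) (T.l 816)) (T.l 816)) (T.a (T.l 1) (T.c (T.b (T.l 816) (T.l 1)) (T.b (T.l 816) (T.l 1))))) (T.b (T.a (T.a (T.c (T.b (T.l 816) (T.l 1)) (T.b (T.l 816) (T.l 1))) (T.l 816)) (T.l 816)) (T.a (T.l 1) (T.c (T.b (T.l 816)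 (T.l 1)) (T.b (T.l 816) (T.l 1)))))) (T.a (T.a (T.l 816) (T.l 816)) (T.l 816))) (T.a (T.l 1) (T.c (T.b (T.a (T.a (T.l 1) (T.a (T.l 1) (T.c (T.b (T.l 816) (T.l 1)) (T.b (T.l 816) (T.l 1))))) (T.a (T.c (T.b (T.l 816) (T.l 1)) (T.b (T.l 816) (T.l 1))) (T.l 816))) (T.l 1)) (T.b (T.a (T.a (T.l 1) (T.a (T.l 1) (T.c (T.b (T.l 816) (T.l 1)) (T.b (T.l 816) (T.l 1))))) (T.a (T.c (T.b (T.l 816) (T.l 1)) (T.a (T.l 816) (T.l 816))) (T.l 816))) (T.l 1))))))) (T.l 1)) (T.b (T.a (T.a (T.l 1) (T.a (T.l 1) (T.a (T.l 1) (T.a (T.l 1) (T.c (T.b (T.a (T.l 1) (T.c (T.b (T.c (T.b (T.l 816) (T.l 1)) (T.b (T.l 816) (T.l 1))) (T.l 1)) (T.b (T.c (T.b (T.l 816) (T.l 1)) (T.a (T.l 1) (T.l 816))) (T.l 1)))) (T.l 1)) (T.b (T.a (T.l 1) (T.c (T.b (T.a (T.l 1) (T.l 816)) (T.l 1)) (T.b (T.l 952) (T.l 1)))) (T.l 1))))))) (T.c (T.b (T.a (T.c (T.b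 (T.a (T.a (T.l 816) (T.l 816)) (T.l 816)) (T.a (T.l 1) (T.c (T.b (T.l 816) (T.l 1)) (T.b (T.l 816) (T.l 1))))) (T.b (T.l 816) (T.a (T.l 1) (T.c (T.b (T.l 816) (T.l 1)) (T.b (T.l 816) (T.l 1)))))) (T.a (T.a (T.l 816) (T.l 816)) (T.l 816))) (T.a (T.l 1) (T.c (T.b (T.a (T.a (T.l 1) (T.c (T.b (T.l 816) (T.l 1)) (T.b (T.l 816) (T.l 1)))) (T.a (T.a (T.l 816) (T.l 816)) (T.l 816))) (T.l 1)) (T.b (T.a (T.a (T.l 1) (T.c (T.b (T.l 816) (T.l 1)) (T.b (T.l 816) (T.l 1)))) (T.a (T.a (T.l 816) (T.l 816)) (T.l 816))) (T.l 1))))) (T.b (T.a (T.c (T.b (T.l 816) (T.a (T.l 1) (T.c (T.b (T.l 816) (T.l 1)) (T.b (T.l 816) (T.l 1))))) (T.b (T.l 816) (T.a (T.l 1) (T.c (T.b (T.l 816) (T.l 1)) (T.b (T.l 816) (T.l 1)))))) (T.a (T.a (T.l 816) (T.l 816)) (T.l 816))) (T.a (T.l 1) (T.c (T.b (T.a (T.a (T.l 1) (T.c (T.b (T.l 816) (T.l 1)) (T.b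 (T.l 816) (T.l 1)))) (T.a (T.a (T.l 816) (T.l 816)) (T.l 816))) (T.l 1)) (T.b (T.a (T.a (T.l 1) (T.c (T.b (T.l 816) (T.l 1)) (T.b (T.l 816) (T.l 1)))) (T.a (T.a (T.l 816) (T.l 816)) (T.l 816))) (T.l 1))))))) (T.l 1))), by decide +kernel⟩

def B022L_040_3_427_1 :
    ∃ t, chk3 (onCell 0 50331648 0 1073741824 50331648 16777216 (corTK [] false 3 c0N cB022L gN0q0 gN4q2 gN0q2 gN1q2 true true)) t 3 427 1 = true :=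
  ⟨(T.a (T.a (T.c (T.b (T.a (T.c (T.b (T.l 816) (T.c (T.b (T.l 816) (T.c (T.b (T.a (T.l 816) (T.l 816)) (T.l 1)) (T.b (T.a (T.l 816) (T.l 816)) (T.l 1)))) (T.b (T.l 816) (T.c (T.b (T.a (T.l 816) (T.l 816)) (T.l 1)) (T.b (T.a (T.l 816) (T.l 816)) (T.l 1)))))) (T.b (T.l 816) (T.c (T.b (T.l 816) (T.c (T.b (T.a (T.l 816) (T.l 816)) (T.l 1)) (T.b (T.a (T.l 816) (T.l 816)) (T.l 1)))) (T.b (T.l 816) (T.c (T.b (T.a (T.l 816) (T.l 816)) (T.l 1)) (T.b (T.a (T.l 816) (T.l 816)) (T.l 1))))))) (T.a (T.l 816) (T.l 816))) (T.a (T.l 1) (T.a (T.l 1) (T.a (T.l 1) (T.c (T.b (T.a (T.l 1) (T.c (T.b (T.c (T.b (T.l 816) (T.l 1)) (T.b (T.l 816) (T.l 1))) (T.l 1)) (T.b (T.c (T.a (T.l 952) (T.l 816)) (T.l 952)) (T.l 1)))) (T.l 1)) (T.b (T.c (T.b (T.a (T.l 1) (T.l 952)) (T.l 1)) (T.b (T.a (T.l 1) (T.l 816)) (T.l 1))) (T.l 1))))))) (T.b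 (T.a (T.c (T.b (T.l 816) (T.c (T.b (T.l 816) (T.c (T.b (T.a (T.l 816) (T.l 816)) (T.l 1)) (T.b (T.a (T.l 816) (T.l 816)) (T.l 1)))) (T.b (T.l 816) (T.c (T.b (T.a (T.l 816) (T.l 816)) (T.l 1)) (T.a (T.b (T.l 816) (T.l 1)) (T.l 816)))))) (T.b (T.l 816) (T.c (T.a (T.b (T.l 816) (T.c (T.b (T.l 816) (T.l 1)) (T.a (T.l 1) (T.l 952)))) (T.l 816)) (T.a (T.b (T.l 816) (T.a (T.l 1) (T.l 952))) (T.l 816))))) (T.a (T.l 816) (T.l 816))) (T.a (T.l 1) (T.a (T.l 1) (T.a (T.l 1) (T.c (T.b (T.c (T.b (T.a (T.l 1) (T.l 816)) (T.l 1)) (T.b (T.l 952) (T.l 1))) (T.l 1)) (T.b (T.c (T.b (T.l 816) (T.l 1)) (T.b (T.l 816) (T.l 1))) (T.l 1)))))))) (T.c (T.b (T.a (T.l 816) (T.l 816)) (T.c (T.b (T.a (T.c (T.b (T.a (T.a (T.l 952) (T.l 816)) (T.l 816)) (T.l 1)) (T.b (T.a (T.a (T.l 816) (T.l 816)) (T.l 816)) (T.l 1))) (T.c (T.b (T.l 816) (T.c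 (T.b (T.a (T.l 816) (T.l 816)) (T.l 1)) (T.a (T.b (T.l 816) (T.l 1)) (T.l 816)))) (T.a (T.b (T.l 816) (T.c (T.b (T.l 816) (T.l 1)) (T.b (T.l 816) (T.l 1)))) (T.l 816)))) (T.l 1)) (T.b (T.a (T.c (T.b (T.a (T.a (T.l 816) (T.l 816)) (T.l 816)) (T.l 1)) (T.b (T.a (T.l 816) (T.l 816)) (T.l 1))) (T.a (T.c (T.b (T.l 816) (T.c (T.b (T.l 816) (T.l 1)) (T.b (T.l 816) (T.l 1)))) (T.b (T.l 816) (T.a (T.l 1) (T.l 952)))) (T.l 816))) (T.l 1)))) (T.b (T.a (T.l 816) (T.l 816)) (T.c (T.b (T.a (T.c (T.b (T.a (T.l 816) (T.l 816)) (T.l 1)) (T.b (T.a (T.l 816) (T.l 816)) (T.l 1))) (T.a (T.c (T.b (T.l 816) (T.a (T.l 1) (T.l 944))) (T.a (T.b (T.l 816) (T.l 1)) (T.l 816))) (T.l 816))) (T.l 1)) (T.b (T.a (T.c (T.b (T.a (T.l 816) (T.l 816)) (T.l 1)) (T.b (T.a (T.l 816) (T.l 816)) (T.l 1))) (T.a (T.a (T.c (T.b (T.l 816) (T.l 1)) (T.b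 (T.l 816) (T.l 1))) (T.l 816)) (T.l 816))) (T.l 1)))))) (T.a (T.a (T.c (T.b (T.l 816) (T.c (T.b (T.l 816) (T.a (T.l 1) (T.a (T.l 1) (T.c (T.b (T.c (T.b (T.l 816) (T.l 1)) (T.b (T.l 816) (T.l 1))) (T.l 1)) (T.b (T.a (T.l 952) (T.l 816)) (T.l 1)))))) (T.b (T.l 816) (T.a (T.l 1) (T.a (T.l 1) (T.c (T.b (T.l 952) (T.l 1)) (T.b (T.l 816) (T.l 1)))))))) (T.b (T.l 816) (T.c (T.b (T.l 816) (T.a (T.l 1) (T.c (T.b (T.a (T.l 1) (T.l 816)) (T.l 1)) (T.b (T.a (T.l 1) (T.l 816)) (T.l 1))))) (T.b (T.l 816) (T.a (T.l 1) (T.c (T.b (T.a (T.l 1) (T.l 816)) (T.l 1)) (T.b (T.a (T.l 1) (T.l 816)) (T.l 1)))))))) (T.c (T.b (T.l 816) (T.c (T.b (T.l 816) (T.c (T.b (T.a (T.l 816) (T.l 816)) (T.l 1)) (T.b (T.a (T.l 816) (T.l 816)) (T.l 1)))) (T.b (T.l 816) (T.c (T.b (T.a (T.l 816) (T.l 816)) (T.l 1)) (T.b (T.a (T.l 816) (T.l 816)) (T.l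 1)))))) (T.b (T.l 816) (T.c (T.b (T.l 816) (T.c (T.b (T.a (T.l 816) (T.l 816)) (T.l 1)) (T.b (T.l 816) (T.l 1)))) (T.b (T.l 816) (T.c (T.b (T.l 816) (T.l 1)) (T.b (T.l 816) (T.l 1)))))))) (T.a (T.c (T.b (T.l 816) (T.c (T.b (T.l 816) (T.a (T.c (T.b (T.l 816) (T.c (T.b (T.l 816) (T.l 1)) (T.a (T.l 1) (T.l 952)))) (T.b (T.l 816) (T.a (T.l 1) (T.l 952)))) (T.l 816))) (T.a (T.b (T.l 816) (T.c (T.b (T.l 816) (T.a (T.l 1) (T.l 816))) (T.a (T.b (T.l 816) (T.l 1)) (T.l 816)))) (T.l 816)))) (T.b (T.l 816) (T.a (T.c (T.a (T.b (T.l 816) (T.c (T.b (T.l 816) (T.l 1)) (T.b (T.l 816) (T.l 1)))) (T.l 816)) (T.a (T.c (T.a (T.l 816) (T.l 816)) (T.l 816)) (T.l 816))) (T.l 816)))) (T.a (T.c (T.l 816) (T.l 816)) (T.l 816))))), by decide +kernel⟩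

def B022L_040_1_107_1 :
    ∃ t, chk3 (onCell 0 50331648 0 1073741824 50331648 16777216 (corTK [] false 3 c0N cB022L gN0q0 gN4q2 gN0q2 gN1q2 true true)) t 1 107 1 = true :=
  ⟨(T.a (T.l 1) (T.a (T.l 1) (T.a (T.l 1) (T.b (T.a (T.l 1) (T.b (T.a (T.l 1) (T.c (T.b (T.c (T.b (T.c (T.b (T.c (T.b (T.l 816) (T.l 1)) (T.b (T.l 816) (T.l 1))) (T.l 1)) (T.b (T.c (T.b (T.l 816) (T.l 1)) (T.b (T.l 816) (T.l 1))) (T.l 1))) (T.l 1)) (T.b (T.c (T.b (T.c (T.b (T.l 816) (T.l 1)) (T.b (T.l 816) (T.l 1))) (T.l 1)) (T.b (T.c (T.b (T.l 816) (T.l 1)) (T.b (T.l 816) (T.l 1))) (T.l 1))) (T.l 1))) (T.l 1)) (T.b (T.c (T.b (T.c (T.b (T.a (T.l 952) (T.l 816)) (T.l 1)) (T.b (T.a (T.l 952) (T.l 816)) (T.l 1))) (T.l 1)) (T.b (T.c (T.b (T.l 952) (T.l 1)) (T.b (T.l 952) (T.l 1))) (T.l 1))) (T.l 1)))) (T.l 1))) (T.l 1))))), by decide +kernel⟩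

def B022L_040_1_27_1 :
    ∃ t, chk3 (onCell 0 50331648 0 1073741824 50331648 16777216 (corTK [] false 3 c0N cB022L gN0q0 gN4q2 gN0q2 gN1q2 true true)) t 1 27 1 = true :=
  ⟨(T.l 1), by decide +kernel⟩

def B022L_040_1_7_1 :
    ∃ t, chk3 (onCell 0 50331648 0 1073741824 50331648 16777216 (corTK [] false 3 c0N cB022L gN0q0 gN4q2 gN0q2 gN1q2 true true)) t 1 7 1 = true :=
  ⟨(T.l 1), by decide +kernel⟩

theorem B022L_040_1_427_1 :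
    ∃ t, chk3 (onCell 0 50331648 0 1073741824 50331648 16777216 (corTK [] false 3 c0N cB022L gN0q0 gN4q2 gN0q2 gN1q2 true true)) t 1 427 1 = true :=
  ex3_a B022L_040_2_427_1 B022L_040_3_427_1
theorem B022L_040_1_213_1 :
    ∃ t, chk3 (onCell 0 50331648 0 1073741824 50331648 16777216 (corTK [] false 3 c0N cB022L gN0q0 gN4q2 gN0q2 gN1q2 true true)) t 1 213 1 = true :=
  ex3_b B022L_040_1_426_1 B022L_040_1_427_1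
theorem B022L_040_1_106_1 :
    ∃ t, chk3 (onCell 0 50331648 0 1073741824 50331648 16777216 (corTK [] false 3 c0N cB022L gN0q0 gN4q2 gN0q2 gN1q2 true true)) t 1 106 1 = true :=
  ex3_b B022L_040_1_212_1 B022L_040_1_213_1
theorem B022L_040_1_53_1 :
    ∃ t, chk3 (onCell 0 50331648 0 1073741824 50331648 16777216 (corTK [] false 3 c0N cB022L gN0q0 gN4q2 gN0q2 gN1q2 true true)) t 1 53 1 = true :=
  ex3_b B022L_040_1_106_1 B022L_040_1_107_1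
theorem B022L_040_1_26_1 :
    ∃ t, chk3 (onCell 0 50331648 0 1073741824 50331648 16777216 (corTK [] false 3 c0N cB022L gN0q0 gN4q2 gN0q2 gN1q2 true true)) t 1 26 1 = true :=
  ex3_b B022L_040_1_52_1 B022L_040_1_53_1
theorem B022L_040_1_13_1 :
    ∃ t, chk3 (onCell 0 50331648 0 1073741824 50331648 16777216 (corTK [] false 3 c0N cB022L gN0q0 gN4q2 gN0q2 gN1q2 true true)) t 1 13 1 = true :=
  ex3_b B022L_040_1_26_1 B022L_040_1_27_1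
theorem B022L_040_1_6_1 :
    ∃ t, chk3 (onCell 0 50331648 0 1073741824 50331648 16777216 (corTK [] false 3 c0N cB022L gN0q0 gN4q2 gN0q2 gN1q2 true true)) t 1 6 1 = true :=
  ex3_b B022L_040_1_12_1 B022L_040_1_13_1
theorem B022L_040_1_3_1 :
    ∃ t, chk3 (onCell 0 50331648 0 1073741824 50331648 16777216 (corTK [] false 3 c0N cB022L gN0q0 gN4q2 gN0q2 gN1q2 true true)) t 1 3 1 = true :=
  ex3_b B022L_040_1_6_1 B022L_040_1_7_1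
theorem B022L_040 :
    ∃ t, chk3 (onCell 0 50331648 0 1073741824 50331648 16777216 (corTK [] false 3 c0N cB022L gN0q0 gN4q2 gN0q2 gN1q2 true true)) t 1 1 1 = true :=
  ex3_b B022L_040_1_2_1 B022L_040_1_3_1

def B022L_041 :
    ∃ t, chk3 (onCell 0 50331648 0 1073741824 50331648 16777216 (corTK [] false 3 c0N cB022L gN0q0 gN4q2 gN1q2 gN2q2 true true)) t 1 1 1 = true :=
  ⟨(T.b (T.b (T.b (T.b (T.a (T.a (T.l 204) (T.a (T.l 204) (T.l 204))) (T.a (T.a (T.l 204) (T.l 0)) (T.b (T.l 0) (T.l 0)))) (T.a (T.a (T.l 204) (T.a (T.l 204) (T.l 204))) (T.a (T.a (T.l 204) (T.l 0)) (T.b (T.l 0) (T.l 0))))) (T.b (T.a (T.a (T.l 204) (T.a (T.l 0) (T.l 204))) (T.a (T.l 0) (T.b (T.l 0) (T.l 0)))) (T.b (T.a (T.a (T.l 1) (T.a (T.l 1) (T.l 204))) (T.a (T.l 0) (T.l 0))) (T.l 1)))) (T.l 1)) (T.l 1)), by decide +kernel⟩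

def B022L_042 :
    ∃ t, chk3 (onCell 0 50331648 0 1073741824 50331648 16777216 (corTK [] false 3 c0N cB022L gN0q0 gN4q2 gN2q2 gN3q2 true false)) t 1 1 1 = true :=
  ⟨(T.l 1), by decide +kernel⟩

def B022L_140 :
    ∃ t, chk3 (onCell 0 50331648 0 1073741824 50331648 16777216 (corTK [] false 3 c0N cB022L gN1q0 gN4q2 gN0q2 gN1q2 true true)) t 1 1 1 = true :=
  ⟨(T.b (T.b (T.b (T.b (T.a (T.l 2) (T.l 2)) (T.b (T.a (T.b (T.a (T.a (T.l 816) (T.l 0)) (T.a (T.l 0) (T.l 0))) (T.a (T.a (T.l 816) (T.l 0)) (T.a (T.l 0) (T.l 0)))) (T.a (T.l 0) (T.l 0))) (T.b (T.a (T.a (T.a (T.l 816) (T.l 0)) (T.a (T.l 0) (T.l 0))) (T.a (T.l 0) (T.l 0))) (T.a (T.a (T.a (T.l 816) (T.l 0)) (T.a (T.l 0) (T.l 816))) (T.a (T.l 0) (T.l 0)))))) (T.b (T.a (T.a (T.a (T.l 816) (T.l 0)) (T.a (T.l 0) (T.l 0))) (T.a (T.l 0) (T.l 0))) (T.a (T.a (T.a (T.l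 816) (T.l 0)) (T.b (T.l 0) (T.l 0))) (T.a (T.l 0) (T.l 816))))) (T.b (T.b (T.a (T.a (T.a (T.l 816) (T.l 0)) (T.l 0)) (T.b (T.l 0) (T.l 0))) (T.a (T.a (T.a (T.l 816) (T.l 816)) (T.l 0)) (T.b (T.l 0) (T.l 0)))) (T.b (T.a (T.a (T.a (T.l 816) (T.l 816)) (T.l 816)) (T.b (T.l 0) (T.l 816))) (T.a (T.l 1) (T.b (T.l 816) (T.l 1)))))) (T.l 1)), by decide +kernel⟩

def B022L_141 :
    ∃ t, chk3 (onCell 0 50331648 0 1073741824 50331648 16777216 (corTK [] false 3 c0N cB022L gN1q0 gN4q2 gN1q2 gN2q2 true true)) t 1 1 1 = true :=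
  ⟨(T.b (T.b (T.b (T.b (T.b (T.a (T.a (T.l 204) (T.a (T.l 0) (T.l 0))) (T.a (T.a (T.l 204) (T.l 0)) (T.l 0))) (T.a (T.a (T.l 0) (T.l 0)) (T.a (T.l 68) (T.l 0)))) (T.b (T.a (T.a (T.l 816) (T.l 0)) (T.a (T.l 0) (T.l 0))) (T.a (T.l 1) (T.a (T.l 1) (T.l 0))))) (T.l 1)) (T.l 1)) (T.l 1)), by decide +kernel⟩

def B022L_142 :
    ∃ t, chk3 (onCell 0 50331648 0 1073741824 50331648 16777216 (corTK [] false 3 c0N cB022L gN1q0 gN4q2 gN2q2 gN3q2 true false)) t 1 1 1 = true :=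
  ⟨(T.l 1), by decide +kernel⟩

def B022L_240 :
    ∃ t, chk3 (onCell 0 50331648 0 1073741824 50331648 16777216 (corTK [] false 3 c0N cB022L gN2q0 gN4q2 gN0q2 gN1q2 true true)) t 1 1 1 = true :=
  ⟨(T.b (T.b (T.b (T.b (T.b (T.l 2) (T.b (T.a (T.l 2) (T.l 2)) (T.a (T.a (T.a (T.l 816) (T.l 0)) (T.a (T.l 0) (T.l 0))) (T.a (T.l 0) (T.l 2))))) (T.b (T.b (T.a (T.a (T.a (T.l 816) (T.l 0)) (T.a (T.l 0) (T.l 0))) (T.a (T.l 0) (T.l 0))) (T.a (T.a (T.a (T.l 816) (T.l 0)) (T.l 0)) (T.a (T.l 0) (T.l 0)))) (T.a (T.a (T.a (T.l 816) (T.l 0)) (T.l 0)) (T.a (T.l 0) (T.l 0))))) (T.a (T.a (T.a (T.l 816) (T.l 0)) (T.a (T.l 0) (T.l 0))) (T.a (T.l 0) (T.l 0)))) (T.b (T.b (T.a (T.a (T.a (T.l 816) (T.l 816)) (T.l 0)) (T.l 0)) (T.a (T.a (T.a (T.l 816) (T.l 816)) (T.l 816)) (T.l 0))) (T.l 1))) (T.l 1)), by decide +kernel⟩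

def B022L_241 :
    ∃ t, chk3 (onCell 0 50331648 0 1073741824 50331648 16777216 (corTK [] false 3 c0N cB022L gN2q0 gN4q2 gN1q2 gN2q2 true true)) t 1 1 1 = true :=
  ⟨(T.b (T.b (T.b (T.b (T.b (T.b (T.a (T.a (T.l 204) (T.a (T.l 204) (T.l 204))) (T.a (T.a (T.l 204) (T.l 0)) (T.l 0))) (T.a (T.a (T.l 204) (T.l 0)) (T.a (T.l 68) (T.l 0)))) (T.b (T.a (T.a (T.l 0) (T.l 0)) (T.a (T.l 0) (T.l 0))) (T.a (T.a (T.l 816) (T.l 0)) (T.a (T.l 0) (T.l 0))))) (T.a (T.l 1) (T.a (T.b (T.l 0) (T.l 1)) (T.l 0)))) (T.l 1)) (T.l 1)) (T.l 1)), by decide +kernel⟩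

def B022L_242 :
    ∃ t, chk3 (onCell 0 50331648 0 1073741824 50331648 16777216 (corTK [] false 3 c0N cB022L gN2q0 gN4q2 gN2q2 gN3q2 true false)) t 1 1 1 = true :=
  ⟨(T.l 1), by decide +kernel⟩

def B022R_003 :
    ∃ t, chk3 (onCell 0 50331648 0 1073741824 50331648 16777216 (corTK [] false 3 c0N cB022R gN0q0 gN0q2 gN3q2 gN4q2 false true)) t 1 1 1 = true :=
  ⟨(T.b (T.b (T.a (T.a (T.a (T.b (T.b (T.b (T.b (T.c (T.l 204) (T.l 204)) (T.l 204)) (T.l 204)) (T.l 204)) (T.l 204)) (T.a (T.b (T.a (T.b (T.l 204) (T.l 204)) (T.l 204)) (T.a (T.l 204) (T.l 204))) (T.b (T.a (T.l 204) (T.l 204)) (T.l 204)))) (T.a (T.a (T.a (T.l 204) (T.l 204)) (T.l 476)) (T.b (T.a (T.b (T.l 204) (T.l 204)) (T.l 204)) (T.a (T.l 204) (T.l 204))))) (T.a (T.a (T.b (T.b (T.l 220) (T.l 204)) (T.l 460)) (T.b (T.l 220) (T.l 204))) (T.a (T.b (T.l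 204) (T.l 204)) (T.b (T.l 204) (T.l 204))))) (T.a (T.a (T.a (T.l 204) (T.a (T.b (T.l 204) (T.l 204)) (T.l 204))) (T.a (T.a (T.l 204) (T.l 204)) (T.l 460))) (T.a (T.b (T.a (T.l 460) (T.l 204)) (T.a (T.l 204) (T.l 460))) (T.b (T.b (T.l 476) (T.l 460)) (T.b (T.l 460) (T.l 460)))))) (T.b (T.a (T.a (T.a (T.l 204) (T.a (T.l 204) (T.l 204))) (T.a (T.l 460) (T.b (T.l 460) (T.l 460)))) (T.a (T.a (T.b (T.l 204) (T.l 204)) (T.b (T.l 204) (T.l 204))) (T.b (T.b (T.l 460) (T.l 460)) (T.b (T.l 460) (T.l 460))))) (T.a (T.a (T.a (T.l 204) (T.a (T.l 204) (T.l 204))) (T.a (T.a (T.b (T.l 204) (T.l 204)) (T.l 460)) (T.b (T.l 460) (T.l 204)))) (T.a (T.a (T.b (T.l 204) (T.l 204)) (T.b (T.l 204) (T.l 204))) (T.a (T.b (T.l 204) (T.l 204)) (T.b (T.l 204) (T.l 204))))))), by decide +kernel⟩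

def B022R_013 :
    ∃ t, chk3 (onCell 0 50331648 0 1073741824 50331648 16777216 (corTK [] false 3 c0N cB022R gN0q0 gN1q2 gN3q2 gN4q2 false true)) t 1 1 1 = true :=
  ⟨(T.b (T.b (T.a (T.a (T.l 204) (T.a (T.l 204) (T.b (T.l 204) (T.l 0)))) (T.a (T.b (T.l 272) (T.l 256)) (T.b (T.b (T.l 204) (T.l 204)) (T.l 0)))) (T.a (T.a (T.l 0) (T.l 0)) (T.a (T.b (T.l 256) (T.b (T.l 0) (T.l 0))) (T.b (T.b (T.l 0) (T.l 0)) (T.l 320))))) (T.b (T.a (T.a (T.l 0) (T.a (T.l 0) (T.b (T.l 0) (T.l 0)))) (T.a (T.b (T.l 64) (T.l 64)) (T.b (T.b (T.l 0) (T.l 0)) (T.l 0)))) (T.a (T.a (T.l 816) (T.a (T.a (T.l 0) (T.l 0)) (T.b (T.l 0) (T.l 816)))) (T.a (T.a (T.b (T.l 0) (T.l 816)) (T.b (T.l 0) (T.l 816))) (T.b (T.b (T.l 0) (T.l 816)) (T.b (T.l 816) (T.l 816))))))), by decide +kernel⟩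

def B022R_023 :
    ∃ t, chk3 (onCell 0 50331648 0 1073741824 50331648 16777216 (corTK [] false 3 c0N cB022R gN0q0 gN2q2 gN3q2 gN4q2 false true)) t 1 1 1 = true :=
  ⟨(T.b (T.l 2) (T.b (T.l 2) (T.b (T.l 2) (T.b (T.a (T.l 2) (T.b (T.l 2) (T.a (T.l 2) (T.a (T.l 2) (T.l 816))))) (T.a (T.a (T.l 816) (T.a (T.l 816) (T.l 816))) (T.a (T.a (T.l 816) (T.a (T.l 816) (T.l 816))) (T.a (T.l 816) (T.l 816)))))))), by decide +kernel⟩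

def B022R_103 :
    ∃ t, chk3 (onCell 0 50331648 0 1073741824 50331648 16777216 (corTK [] false 3 c0N cB022R gN1q0 gN0q2 gN3q2 gN4q2 false true)) t 1 1 1 = true :=
  ⟨(T.b (T.b (T.a (T.a (T.a (T.b (T.b (T.b (T.b (T.b (T.c (T.a (T.l 204) (T.l 204)) (T.l 204)) (T.l 204)) (T.l 204)) (T.l 204)) (T.l 204)) (T.l 0)) (T.b (T.b (T.b (T.a (T.a (T.b (T.l 204) (T.l 204)) (T.l 204)) (T.b (T.l 460) (T.l 204))) (T.l 0)) (T.l 0)) (T.l 0))) (T.b (T.b (T.a (T.a (T.b (T.l 204) (T.l 204)) (T.l 204)) (T.a (T.l 204) (T.l 204))) (T.l 0)) (T.l 0))) (T.a (T.b (T.b (T.a (T.b (T.l 204) (T.l 204)) (T.l 204)) (T.l 204)) (T.l 0)) (T.b (T.a (T.l 204) (T.l 460)) (T.l 0)))) (T.a (T.a (T.a (T.l 816) (T.l 816)) (T.l 0)) (T.b (T.b (T.l 0) (T.l 0)) (T.b (T.l 0) (T.l 0))))) (T.a (T.b (T.a (T.a (T.l 816) (T.l 816)) (T.b (T.l 816) (T.l 0))) (T.a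 (T.a (T.l 816) (T.l 816)) (T.b (T.l 816) (T.l 816)))) (T.b (T.a (T.l 0) (T.l 0)) (T.b (T.l 816) (T.l 816))))), by decide +kernel⟩

def B022R_113 :
    ∃ t, chk3 (onCell 0 50331648 0 1073741824 50331648 16777216 (corTK [] false 3 c0N cB022R gN1q0 gN1q2 gN3q2 gN4q2 false true)) t 1 1 1 = true :=
  ⟨(T.b (T.b (T.b (T.a (T.a (T.l 0) (T.a (T.l 0) (T.l 0))) (T.b (T.a (T.l 0) (T.l 0)) (T.l 0))) (T.a (T.a (T.l 816) (T.l 0)) (T.l 0))) (T.b (T.a (T.a (T.l 816) (T.l 816)) (T.b (T.l 816) (T.l 0))) (T.a (T.l 2) (T.b (T.l 0) (T.l 816))))) (T.b (T.b (T.b (T.l 2) (T.l 2)) (T.l 2)) (T.l 2))), by decide +kernel⟩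

def B022R_123 :
    ∃ t, chk3 (onCell 0 50331648 0 1073741824 50331648 16777216 (corTK [] false 3 c0N cB022R gN1q0 gN2q2 gN3q2 gN4q2 false true)) t 1 1 1 = true :=
  ⟨(T.l 2), by decide +kernel⟩

def B022R_203 :
    ∃ t, chk3 (onCell 0 50331648 0 1073741824 50331648 16777216 (corTK [] false 3 c0N cB022R gN2q0 gN0q2 gN3q2 gN4q2 false true)) t 1 1 1 = true :=
  ⟨(T.b (T.b (T.a (T.a (T.a (T.b (T.b (T.b (T.b (T.b (T.c (T.a (T.l 204) (T.l 204)) (T.l 204)) (T.l 204)) (T.l 204)) (T.l 204)) (T.l 204)) (T.l 0)) (T.b (T.b (T.b (T.b (T.a (T.a (T.l 204) (T.l 204)) (T.l 460)) (T.l 204)) (T.l 0)) (T.l 0)) (T.l 0))) (T.b (T.b (T.b (T.a (T.a (T.l 204) (T.l 204)) (T.a (T.l 204) (T.l 204))) (T.l 0)) (T.l 0)) (T.l 0))) (T.b (T.a (T.b (T.a (T.b (T.l 204) (T.l 204)) (T.l 204)) (T.l 0)) (T.a (T.l 460) (T.l 476))) (T.l 0))) (T.b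 (T.a (T.a (T.a (T.l 816) (T.l 816)) (T.l 816)) (T.b (T.l 0) (T.l 0))) (T.a (T.a (T.a (T.l 816) (T.l 816)) (T.l 816)) (T.b (T.l 0) (T.l 0))))) (T.b (T.a (T.a (T.a (T.l 816) (T.l 816)) (T.b (T.l 816) (T.l 816))) (T.b (T.l 0) (T.l 816))) (T.a (T.a (T.a (T.l 816) (T.l 816)) (T.l 0)) (T.b (T.l 816) (T.l 816))))), by decide +kernel⟩

def B022R_213 :
    ∃ t, chk3 (onCell 0 50331648 0 1073741824 50331648 16777216 (corTK [] false 3 c0N cB022R gN2q0 gN1q2 gN3q2 gN4q2 false true)) t 1 1 1 = true :=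
  ⟨(T.b (T.b (T.b (T.a (T.a (T.l 0) (T.a (T.l 0) (T.l 0))) (T.b (T.a (T.l 0) (T.l 0)) (T.l 0))) (T.a (T.a (T.l 2) (T.l 0)) (T.l 0))) (T.l 2)) (T.l 2)), by decide +kernel⟩

def B022R_223 :
    ∃ t, chk3 (onCell 0 50331648 0 1073741824 50331648 16777216 (corTK [] false 3 c0N cB022R gN2q0 gN2q2 gN3q2 gN4q2 false true)) t 1 1 1 = true :=
  ⟨(T.l 2), by decide +kernel⟩

def B101E_000 :
    ∃ t, chk3 (onCell 0 50331648 0 1073741824 50331648 16777216 (corTK [] false 3 c0N cB101E gN0q1 gN0q1 gN0q0 gN1q0 true true)) t 1 1 1 = true :=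
  ⟨(T.l 2), by decide +kernel⟩

def B101E_001 :
    ∃ t, chk3 (onCell 0 50331648 0 1073741824 50331648 16777216 (corTK [] false 3 c0N cB101E gN0q1 gN0q1 gN1q0 gN2q0 true true)) t 1 1 1 = true :=
  ⟨(T.b (T.l 2) (T.b (T.l 2) (T.b (T.l 2) (T.b (T.l 2) (T.b (T.l 2) (T.a (T.a (T.a (T.l 204) (T.l 204)) (T.l 204)) (T.l 0))))))), by decide +kernel⟩

def B101E_002 :
    ∃ t, chk3 (onCell 0 50331648 0 1073741824 50331648 16777216 (corTK [] false 3 c0N cB101E gN0q1 gN0q1 gN2q0 gN3q0 true false)) t 1 1 1 = true :=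
  ⟨(T.b (T.b (T.a (T.a (T.a (T.l 204) (T.l 204)) (T.l 204)) (T.l 204)) (T.a (T.a (T.a (T.l 204) (T.l 204)) (T.l 204)) (T.b (T.l 204) (T.l 204)))) (T.b (T.a (T.a (T.a (T.l 204) (T.l 204)) (T.b (T.l 204) (T.l 204))) (T.b (T.l 204) (T.l 204))) (T.b (T.a (T.a (T.a (T.l 204) (T.l 204)) (T.l 204)) (T.l 204)) (T.a (T.a (T.a (T.l 204) (T.l 204)) (T.l 204)) (T.l 204))))), by decide +kernel⟩

theorem B101L_200_6_2047_6 :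
    ∃ t, chk3 (onCell 0 50331648 0 1073741824 50331648 16777216 (corTK [[⟨0, 1, 2, 33554432⟩, ⟨1, 0, 1, 33554432⟩, ⟨2, 1, 0, 15728640⟩, ⟨0, 0, 0, 1040187392⟩, ⟨0, 1, 0, 83886080⟩, ⟨1, 0, 0, 83886080⟩, ⟨1, 1, 0, 1040187392⟩]] false 3 c0N cB101L gN2q1 gN0q1 gN0q0 gN1q0 true true)) t 6 2047 6 = true :=
  ex3_a B101L_200_12_2047_6 B101L_200_13_2047_6
theorem B101L_200_6_1023_6 :
    ∃ t, chk3 (onCell 0 50331648 0 1073741824 50331648 16777216 (corTK [[⟨0, 1, 2, 33554432⟩, ⟨1, 0, 1, 33554432⟩, ⟨2, 1, 0, 15728640⟩, ⟨0, 0, 0, 1040187392⟩, ⟨0, 1, 0, 83886080⟩, ⟨1, 0, 0, 83886080⟩, ⟨1, 1, 0, 1040187392⟩]] false 3 c0N cB101L gN2q1 gN0q1 gN0q0 gN1q0 true true)) t 6 1023 6 = true :=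
  ex3_b B101L_200_6_2046_6 B101L_200_6_2047_6
theorem B101L_200_6_1023_3 :
    ∃ t, chk3 (onCell 0 50331648 0 1073741824 50331648 16777216 (corTK [[⟨0, 1, 2, 33554432⟩, ⟨1, 0, 1, 33554432⟩, ⟨2, 1, 0, 15728640⟩, ⟨0, 0, 0, 1040187392⟩, ⟨0, 1, 0, 83886080⟩, ⟨1, 0, 0, 83886080⟩, ⟨1, 1, 0, 1040187392⟩]] false 3 c0N cB101L gN2q1 gN0q1 gN0q0 gN1q0 true true)) t 6 1023 3 = true :=
  ex3_c B101L_200_6_1023_6 B101L_200_6_1023_7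
theorem B101L_200_6_511_3 :
    ∃ t, chk3 (onCell 0 50331648 0 1073741824 50331648 16777216 (corTK [[⟨0, 1, 2, 33554432⟩, ⟨1, 0, 1, 33554432⟩, ⟨2, 1, 0, 15728640⟩, ⟨0, 0, 0, 1040187392⟩, ⟨0, 1, 0, 83886080⟩, ⟨1, 0, 0, 83886080⟩, ⟨1, 1, 0, 1040187392⟩]] false 3 c0N cB101L gN2q1 gN0q1 gN0q0 gN1q0 true true)) t 6 511 3 = true :=
  ex3_b B101L_200_6_1022_3 B101L_200_6_1023_3
theorem B101L_200_6_2047_5 :
    ∃ t, chk3 (onCell 0 50331648 0 1073741824 50331648 16777216 (corTK [[⟨0, 1, 2, 33554432⟩, ⟨1, 0, 1, 33554432⟩, ⟨2, 1, 0, 15728640⟩, ⟨0, 0, 0, 1040187392⟩, ⟨0, 1, 0, 83886080⟩, ⟨1, 0, 0, 83886080⟩, ⟨1, 1, 0, 1040187392⟩]] false 3 c0N cB101L gN2q1 gN0q1 gN0q0 gN1q0 true true)) t 6 2047 5 = true :=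
  ex3_a B101L_200_12_2047_5 B101L_200_13_2047_5
theorem B101L_200_6_1023_5 :
    ∃ t, chk3 (onCell 0 50331648 0 1073741824 50331648 16777216 (corTK [[⟨0, 1, 2, 33554432⟩, ⟨1, 0, 1, 33554432⟩, ⟨2, 1, 0, 15728640⟩, ⟨0, 0, 0, 1040187392⟩, ⟨0, 1, 0, 83886080⟩, ⟨1, 0, 0, 83886080⟩, ⟨1, 1, 0, 1040187392⟩]] false 3 c0N cB101L gN2q1 gN0q1 gN0q0 gN1q0 true true)) t 6 1023 5 = true :=
  ex3_b B101L_200_6_2046_5 B101L_200_6_2047_5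
theorem B101L_200_26_2047_4 :
    ∃ t, chk3 (onCell 0 50331648 0 1073741824 50331648 16777216 (corTK [[⟨0, 1, 2, 33554432⟩, ⟨1, 0, 1, 33554432⟩, ⟨2, 1, 0, 15728640⟩, ⟨0, 0, 0, 1040187392⟩, ⟨0, 1, 0, 83886080⟩, ⟨1, 0, 0, 83886080⟩, ⟨1, 1, 0, 1040187392⟩]] false 3 c0N cB101L gN2q1 gN0q1 gN0q0 gN1q0 true true)) t 26 2047 4 = true :=
  ex3_c B101L_200_26_2047_8 B101L_200_26_2047_9
theorem B101L_200_13_2047_4 :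
    ∃ t, chk3 (onCell 0 50331648 0 1073741824 50331648 16777216 (corTK [[⟨0, 1, 2, 33554432⟩, ⟨1, 0, 1, 33554432⟩, ⟨2, 1, 0, 15728640⟩, ⟨0, 0, 0, 1040187392⟩, ⟨0, 1, 0, 83886080⟩, ⟨1, 0, 0, 83886080⟩, ⟨1, 1, 0, 1040187392⟩]] false 3 c0N cB101L gN2q1 gN0q1 gN0q0 gN1q0 true true)) t 13 2047 4 = true :=
  ex3_a B101L_200_26_2047_4 B101L_200_27_2047_4
theorem B101L_200_12_2047_4 :
    ∃ t, chk3 (onCell 0 50331648 0 1073741824 50331648 16777216 (corTK [[⟨0, 1, 2, 33554432⟩, ⟨1, 0, 1, 33554432⟩, ⟨2, 1, 0, 15728640⟩, ⟨0, 0, 0, 1040187392⟩, ⟨0, 1, 0, 83886080⟩, ⟨1, 0, 0, 83886080⟩, ⟨1, 1, 0, 1040187392⟩]] false 3 c0N cB101L gN2q1 gN0q1 gN0q0 gN1q0 true true)) t 12 2047 4 = true :=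
  ex3_c B101L_200_12_2047_8 B101L_200_12_2047_9
theorem B101L_200_6_2047_4 :
    ∃ t, chk3 (onCell 0 50331648 0 1073741824 50331648 16777216 (corTK [[⟨0, 1, 2, 33554432⟩, ⟨1, 0, 1, 33554432⟩, ⟨2, 1, 0, 15728640⟩, ⟨0, 0, 0, 1040187392⟩, ⟨0, 1, 0, 83886080⟩, ⟨1, 0, 0, 83886080⟩, ⟨1, 1, 0, 1040187392⟩]] false 3 c0N cB101L gN2q1 gN0q1 gN0q0 gN1q0 true true)) t 6 2047 4 = true :=
  ex3_a B101L_200_12_2047_4 B101L_200_13_2047_4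
theorem B101L_200_6_1023_4 :
    ∃ t, chk3 (onCell 0 50331648 0 1073741824 50331648 16777216 (corTK [[⟨0, 1, 2, 33554432⟩, ⟨1, 0, 1, 33554432⟩, ⟨2, 1, 0, 15728640⟩, ⟨0, 0, 0, 1040187392⟩, ⟨0, 1, 0, 83886080⟩, ⟨1, 0, 0, 83886080⟩, ⟨1, 1, 0, 1040187392⟩]] false 3 c0N cB101L gN2q1 gN0q1 gN0q0 gN1q0 true true)) t 6 1023 4 = true :=
  ex3_b B101L_200_6_2046_4 B101L_200_6_2047_4
theorem B101L_200_6_1023_2 :
    ∃ t, chk3 (onCell 0 50331648 0 1073741824 50331648 16777216 (corTK [[⟨0, 1, 2, 33554432⟩, ⟨1, 0, 1, 33554432⟩, ⟨2, 1, 0, 15728640⟩, ⟨0, 0, 0, 1040187392⟩, ⟨0, 1, 0, 83886080⟩, ⟨1, 0, 0, 83886080⟩, ⟨1, 1, 0, 1040187392⟩]] false 3 c0N cB101L gN2q1 gN0q1 gN0q0 gN1q0 true true)) t 6 1023 2 = true :=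
  ex3_c B101L_200_6_1023_4 B101L_200_6_1023_5
theorem B101L_200_6_511_2 :
    ∃ t, chk3 (onCell 0 50331648 0 1073741824 50331648 16777216 (corTK [[⟨0, 1, 2, 33554432⟩, ⟨1, 0, 1, 33554432⟩, ⟨2, 1, 0, 15728640⟩, ⟨0, 0, 0, 1040187392⟩, ⟨0, 1, 0, 83886080⟩, ⟨1, 0, 0, 83886080⟩, ⟨1, 1, 0, 1040187392⟩]] false 3 c0N cB101L gN2q1 gN0q1 gN0q0 gN1q0 true true)) t 6 511 2 = true :=
  ex3_b B101L_200_6_1022_2 B101L_200_6_1023_2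
theorem B101L_200_6_511_1 :
    ∃ t, chk3 (onCell 0 50331648 0 1073741824 50331648 16777216 (corTK [[⟨0, 1, 2, 33554432⟩, ⟨1, 0, 1, 33554432⟩, ⟨2, 1, 0, 15728640⟩, ⟨0, 0, 0, 1040187392⟩, ⟨0, 1, 0, 83886080⟩, ⟨1, 0, 0, 83886080⟩, ⟨1, 1, 0, 1040187392⟩]] false 3 c0N cB101L gN2q1 gN0q1 gN0q0 gN1q0 true true)) t 6 511 1 = true :=
  ex3_c B101L_200_6_511_2 B101L_200_6_511_3
theorem B101L_200_3_511_1 :
    ∃ t, chk3 (onCell 0 50331648 0 1073741824 50331648 16777216 (corTK [[⟨0, 1, 2, 33554432⟩, ⟨1, 0, 1, 33554432⟩, ⟨2, 1, 0, 15728640⟩, ⟨0, 0, 0, 1040187392⟩, ⟨0, 1, 0, 83886080⟩, ⟨1, 0, 0, 83886080⟩, ⟨1, 1, 0, 1040187392⟩]] false 3 c0N cB101L gN2q1 gN0q1 gN0q0 gN1q0 true true)) t 3 511 1 = true :=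
  ex3_a B101L_200_6_511_1 B101L_200_7_511_1
theorem B101L_200_2_511_1 :
    ∃ t, chk3 (onCell 0 50331648 0 1073741824 50331648 16777216 (corTK [[⟨0, 1, 2, 33554432⟩, ⟨1, 0, 1, 33554432⟩, ⟨2, 1, 0, 15728640⟩, ⟨0, 0, 0, 1040187392⟩, ⟨0, 1, 0, 83886080⟩, ⟨1, 0, 0, 83886080⟩, ⟨1, 1, 0, 1040187392⟩]] false 3 c0N cB101L gN2q1 gN0q1 gN0q0 gN1q0 true true)) t 2 511 1 = true :=
  ex3_c B101L_200_2_511_2 B101L_200_2_511_3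
theorem B101L_200_1_511_1 :
    ∃ t, chk3 (onCell 0 50331648 0 1073741824 50331648 16777216 (corTK [[⟨0, 1, 2, 33554432⟩, ⟨1, 0, 1, 33554432⟩, ⟨2, 1, 0, 15728640⟩, ⟨0, 0, 0, 1040187392⟩, ⟨0, 1, 0, 83886080⟩, ⟨1, 0, 0, 83886080⟩, ⟨1, 1, 0, 1040187392⟩]] false 3 c0N cB101L gN2q1 gN0q1 gN0q0 gN1q0 true true)) t 1 511 1 = true :=
  ex3_a B101L_200_2_511_1 B101L_200_3_511_1
theorem B101L_200_1_255_1 :
    ∃ t, chk3 (onCell 0 50331648 0 1073741824 50331648 16777216 (corTK [[⟨0, 1, 2, 33554432⟩, ⟨1, 0, 1, 33554432⟩, ⟨2, 1, 0, 15728640⟩, ⟨0, 0, 0, 1040187392⟩, ⟨0, 1, 0, 83886080⟩, ⟨1, 0, 0, 83886080⟩, ⟨1, 1, 0, 1040187392⟩]] false 3 c0N cB101L gN2q1 gN0q1 gN0q0 gN1q0 true true)) t 1 255 1 = true :=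
  ex3_b B101L_200_1_510_1 B101L_200_1_511_1
theorem B101L_200_1_127_1 :
    ∃ t, chk3 (onCell 0 50331648 0 1073741824 50331648 16777216 (corTK [[⟨0, 1, 2, 33554432⟩, ⟨1, 0, 1, 33554432⟩, ⟨2, 1, 0, 15728640⟩, ⟨0, 0, 0, 1040187392⟩, ⟨0, 1, 0, 83886080⟩, ⟨1, 0, 0, 83886080⟩, ⟨1, 1, 0, 1040187392⟩]] false 3 c0N cB101L gN2q1 gN0q1 gN0q0 gN1q0 true true)) t 1 127 1 = true :=
  ex3_b B101L_200_1_254_1 B101L_200_1_255_1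
theorem B101L_200_1_63_1 :
    ∃ t, chk3 (onCell 0 50331648 0 1073741824 50331648 16777216 (corTK [[⟨0, 1, 2, 33554432⟩, ⟨1, 0, 1, 33554432⟩, ⟨2, 1, 0, 15728640⟩, ⟨0, 0, 0, 1040187392⟩, ⟨0, 1, 0, 83886080⟩, ⟨1, 0, 0, 83886080⟩, ⟨1, 1, 0, 1040187392⟩]] false 3 c0N cB101L gN2q1 gN0q1 gN0q0 gN1q0 true true)) t 1 63 1 = true :=
  ex3_b B101L_200_1_126_1 B101L_200_1_127_1
theorem B101L_200_1_31_1 :
    ∃ t, chk3 (onCell 0 50331648 0 1073741824 50331648 16777216 (corTK [[⟨0, 1, 2, 33554432⟩, ⟨1, 0, 1, 33554432⟩, ⟨2, 1, 0, 15728640⟩, ⟨0, 0, 0, 1040187392⟩, ⟨0, 1, 0, 83886080⟩, ⟨1, 0, 0, 83886080⟩, ⟨1, 1, 0, 1040187392⟩]] false 3 c0N cB101L gN2q1 gN0q1 gN0q0 gN1q0 true true)) t 1 31 1 = true :=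
  ex3_b B101L_200_1_62_1 B101L_200_1_63_1
theorem B101L_200_1_15_1 :
    ∃ t, chk3 (onCell 0 50331648 0 1073741824 50331648 16777216 (corTK [[⟨0, 1, 2, 33554432⟩, ⟨1, 0, 1, 33554432⟩, ⟨2, 1, 0, 15728640⟩, ⟨0, 0, 0, 1040187392⟩, ⟨0, 1, 0, 83886080⟩, ⟨1, 0, 0, 83886080⟩, ⟨1, 1, 0, 1040187392⟩]] false 3 c0N cB101L gN2q1 gN0q1 gN0q0 gN1q0 true true)) t 1 15 1 = true :=
  ex3_b B101L_200_1_30_1 B101L_200_1_31_1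
theorem B101L_200_1_7_1 :
    ∃ t, chk3 (onCell 0 50331648 0 1073741824 50331648 16777216 (corTK [[⟨0, 1, 2, 33554432⟩, ⟨1, 0, 1, 33554432⟩, ⟨2, 1, 0, 15728640⟩, ⟨0, 0, 0, 1040187392⟩, ⟨0, 1, 0, 83886080⟩, ⟨1, 0, 0, 83886080⟩, ⟨1, 1, 0, 1040187392⟩]] false 3 c0N cB101L gN2q1 gN0q1 gN0q0 gN1q0 true true)) t 1 7 1 = true :=
  ex3_b B101L_200_1_14_1 B101L_200_1_15_1
theorem B101L_200_1_3_1 :
    ∃ t, chk3 (onCell 0 50331648 0 1073741824 50331648 16777216 (corTK [[⟨0, 1, 2, 33554432⟩, ⟨1, 0, 1, 33554432⟩, ⟨2, 1, 0, 15728640⟩, ⟨0, 0, 0, 1040187392⟩, ⟨0, 1, 0, 83886080⟩, ⟨1, 0, 0, 83886080⟩, ⟨1, 1, 0, 1040187392⟩]] false 3 c0N cB101L gN2q1 gN0q1 gN0q0 gN1q0 true true)) t 1 3 1 = true :=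
  ex3_b B101L_200_1_6_1 B101L_200_1_7_1
theorem B101L_200 :
    ∃ t, chk3 (onCell 0 50331648 0 1073741824 50331648 16777216 (corTK [[⟨0, 1, 2, 33554432⟩, ⟨1, 0, 1, 33554432⟩, ⟨2, 1, 0, 15728640⟩, ⟨0, 0, 0, 1040187392⟩, ⟨0, 1, 0, 83886080⟩, ⟨1, 0, 0, 83886080⟩, ⟨1, 1, 0, 1040187392⟩]] false 3 c0N cB101L gN2q1 gN0q1 gN0q0 gN1q0 true true)) t 1 1 1 = true :=
  ex3_b B101L_200_1_2_1 B101L_200_1_3_1

def B101L_201 :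
    ∃ t, chk3 (onCell 0 50331648 0 1073741824 50331648 16777216 (corTK [[⟨0, 1, 2, 33554432⟩, ⟨1, 0, 1, 33554432⟩, ⟨2, 1, 0, 15728640⟩, ⟨0, 0, 0, 1040187392⟩, ⟨0, 1, 0, 83886080⟩, ⟨1, 0, 0, 83886080⟩, ⟨1, 1, 0, 1040187392⟩]] false 3 c0N cB101L gN2q1 gN0q1 gN1q0 gN2q0 true true)) t 1 1 1 = true :=
  ⟨(T.l 1), by decide +kernel⟩

def B101L_202 :
    ∃ t, chk3 (onCell 0 50331648 0 1073741824 50331648 16777216 (corTK [[⟨0, 1, 2, 33554432⟩, ⟨1, 0, 1, 33554432⟩, ⟨2, 1, 0, 15728640⟩, ⟨0, 0, 0, 1040187392⟩, ⟨0, 1, 0, 83886080⟩, ⟨1, 0, 0, 83886080⟩, ⟨1, 1, 0, 1040187392⟩]] false 3 c0N cB101L gN2q1 gN0q1 gN2q0 gN3q0 true false)) t 1 1 1 = true :=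
  ⟨(T.l 1), by decide +kernel⟩

def B101L_300 :
    ∃ t, chk3 (onCell 0 50331648 0 1073741824 50331648 16777216 (corTK [] false 3 c0N cB101L gN3q1 gN0q1 gN0q0 gN1q0 true true)) t 1 1 1 = true :=
  ⟨(T.b (T.l 1) (T.b (T.l 1) (T.b (T.b (T.l 1) (T.b (T.l 1) (T.b (T.l 1) (T.b (T.b (T.l 1) (T.a (T.c (T.b (T.l 1) (T.a (T.l 816) (T.c (T.b (T.l 1) (T.a (T.a (T.l 816) (T.l 816)) (T.l 816))) (T.b (T.l 1) (T.a (T.a (T.l 816) (T.l 816)) (T.l 816)))))) (T.b (T.l 1) (T.a (T.l 816) (T.c (T.b (T.l 1) (T.a (T.a (T.l 816) (T.l 816)) (T.l 816))) (T.b (T.l 1) (T.a (T.a (T.l 816) (T.l 816)) (T.l 816))))))) (T.c (T.b (T.l 1) (T.a (T.c (T.b (T.l 1) (T.a (T.l 816) (T.l 880))) (T.b (T.l 1) (T.a (T.l 816) (T.l 816)))) (T.l 1))) (T.b (T.l 1) (T.a (T.c (T.b (T.l 1) (T.a (T.l 816) (T.l 816))) (T.a (T.l 880) (T.l 880))) (T.l 1)))))) (T.b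 (T.a (T.a (T.l 816) (T.a (T.a (T.l 816) (T.l 816)) (T.l 816))) (T.a (T.a (T.l 816) (T.l 816)) (T.a (T.l 816) (T.l 880)))) (T.a (T.a (T.l 816) (T.a (T.l 0) (T.l 816))) (T.a (T.a (T.l 816) (T.l 816)) (T.l 0)))))))) (T.b (T.b (T.a (T.a (T.l 0) (T.a (T.l 0) (T.l 0))) (T.a (T.a (T.l 0) (T.l 0)) (T.b (T.l 0) (T.l 0)))) (T.a (T.a (T.l 204) (T.l 16)) (T.a (T.l 0) (T.l 204)))) (T.a (T.a (T.l 204) (T.b (T.l 0) (T.l 0))) (T.a (T.l 0) (T.l 204))))))), by decide +kernel⟩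

def B101L_301 :
    ∃ t, chk3 (onCell 0 50331648 0 1073741824 50331648 16777216 (corTK [] false 3 c0N cB101L gN3q1 gN0q1 gN1q0 gN2q0 true true)) t 1 1 1 = true :=
  ⟨(T.l 1), by decide +kernel⟩

def B101L_302 :
    ∃ t, chk3 (onCell 0 50331648 0 1073741824 50331648 16777216 (corTK [] false 3 c0N cB101L gN3q1 gN0q1 gN2q0 gN3q0 true false)) t 1 1 1 = true :=
  ⟨(T.l 1), by decide +kernel⟩

def B101L_400 :
    ∃ t, chk3 (onCell 0 50331648 0 1073741824 50331648 16777216 (corTK [] false 3 c0N cB101L gN4q1 gN0q1 gN0q0 gN1q0 true true)) t 1 1 1 = true :=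
  ⟨(T.b (T.l 1) (T.b (T.b (T.l 1) (T.b (T.b (T.l 1) (T.b (T.b (T.b (T.l 1) (T.a (T.a (T.l 1) (T.a (T.l 1) (T.l 1))) (T.c (T.b (T.a (T.l 1) (T.a (T.l 1) (T.c (T.b (T.l 1) (T.c (T.b (T.a (T.l 1) (T.a (T.l 1) (T.l 204))) (T.a (T.l 204) (T.l 204))) (T.b (T.a (T.l 1) (T.a (T.l 1) (T.l 204))) (T.a (T.l 204) (T.l 204))))) (T.b (T.l 1) (T.c (T.b (T.a (T.l 1) (T.a (T.l 1) (T.l 204))) (T.a (T.l 204) (T.l 204))) (T.b (T.a (T.l 1) (T.a (T.l 1) (T.l 204))) (T.a (T.l 204) (T.l 204)))))))) (T.a (T.a (T.c (T.b (T.l 1) (T.c (T.b (T.a (T.l 1) (T.a (T.l 1) (T.l 204))) (T.a (T.l 204) (T.l 204))) (T.b (T.a (T.l 1) (T.a (T.l 1) (T.l 204))) (T.a (T.l 204) (T.l 204))))) (T.b (T.l 1) (T.c (T.b (T.a (T.l 1) (T.a (T.l 1) (T.l 204))) (T.a (T.l 204) (T.l 204))) (T.b (T.a (T.l 1) (T.a (T.l 1) (T.l 204))) (T.a (T.l 204) (T.l 204)))))) (T.c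 (T.b (T.a (T.l 1) (T.c (T.b (T.l 1) (T.l 204)) (T.b (T.l 1) (T.l 204)))) (T.l 0)) (T.b (T.a (T.l 1) (T.c (T.b (T.l 1) (T.l 204)) (T.b (T.l 1) (T.l 204)))) (T.l 0)))) (T.a (T.a (T.a (T.a (T.c (T.b (T.c (T.b (T.l 1) (T.l 204)) (T.b (T.l 1) (T.l 204))) (T.l 204)) (T.c (T.b (T.b (T.l 1) (T.l 204)) (T.l 204)) (T.l 204))) (T.l 204)) (T.l 204)) (T.l 204)) (T.l 204)))) (T.b (T.a (T.l 1) (T.a (T.l 1) (T.c (T.b (T.l 1) (T.c (T.b (T.a (T.l 1) (T.l 204)) (T.l 0)) (T.b (T.a (T.l 1) (T.l 204)) (T.l 0)))) (T.b (T.l 1) (T.c (T.b (T.a (T.l 1) (T.l 204)) (T.l 0)) (T.b (T.a (T.l 1) (T.l 204)) (T.l 0))))))) (T.a (T.a (T.c (T.b (T.l 1) (T.c (T.b (T.a (T.l 1) (T.a (T.l 1) (T.l 204))) (T.a (T.l 204) (T.l 204))) (T.a (T.b (T.l 1) (T.l 204)) (T.l 204)))) (T.b (T.l 1) (T.a (T.c (T.b (T.l 1) (T.l 204)) (T.b (T.l 1) (T.l 204))) (T.l 204))))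 (T.c (T.b (T.a (T.l 1) (T.c (T.b (T.l 1) (T.l 204)) (T.b (T.l 1) (T.l 204)))) (T.l 0)) (T.b (T.a (T.l 1) (T.c (T.b (T.l 1) (T.l 204)) (T.b (T.l 1) (T.l 204)))) (T.l 0)))) (T.a (T.a (T.a (T.l 204) (T.l 204)) (T.l 204)) (T.l 204))))))) (T.b (T.a (T.a (T.c (T.b (T.c (T.b (T.l 1) (T.a (T.a (T.l 1) (T.a (T.l 1) (T.l 1))) (T.c (T.b (T.a (T.l 1) (T.a (T.l 1) (T.l 204))) (T.l 204)) (T.b (T.a (T.l 1) (T.a (T.l 1) (T.l 204))) (T.l 204))))) (T.b (T.l 1) (T.a (T.a (T.l 1) (T.a (T.l 1) (T.l 1))) (T.c (T.b (T.a (T.l 1) (T.a (T.l 1) (T.l 204))) (T.l 204)) (T.b (T.a (T.l 1) (T.a (T.l 1) (T.l 204))) (T.l 204)))))) (T.a (T.a (T.a (T.c (T.b (T.c (T.b (T.c (T.b (T.l 1) (T.l 204)) (T.b (T.l 1) (T.l 204))) (T.l 204)) (T.b (T.a (T.l 1) (T.l 204)) (T.l 204))) (T.l 204)) (T.a (T.b (T.c (T.b (T.l 1) (T.l 204)) (T.b (T.l 1) (T.l 204)))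 (T.l 204)) (T.l 204))) (T.l 204)) (T.l 204)) (T.l 204))) (T.b (T.c (T.b (T.l 1) (T.a (T.a (T.l 1) (T.a (T.l 1) (T.l 1))) (T.c (T.b (T.a (T.l 1) (T.l 204)) (T.l 204)) (T.b (T.a (T.l 1) (T.l 204)) (T.l 204))))) (T.b (T.l 1) (T.a (T.a (T.l 1) (T.a (T.l 1) (T.l 1))) (T.c (T.b (T.a (T.l 1) (T.l 204)) (T.l 204)) (T.b (T.a (T.l 1) (T.l 204)) (T.l 204)))))) (T.a (T.a (T.c (T.a (T.c (T.a (T.b (T.b (T.l 1) (T.l 204)) (T.l 204)) (T.l 204)) (T.l 204)) (T.l 204)) (T.l 204)) (T.l 204)) (T.l 204)))) (T.a (T.c (T.b (T.c (T.b (T.a (T.l 1) (T.c (T.b (T.l 1) (T.l 204)) (T.b (T.l 1) (T.l 204)))) (T.l 204)) (T.b (T.c (T.b (T.l 1) (T.a (T.l 1) (T.l 204))) (T.b (T.l 1) (T.a (T.l 1) (T.l 204)))) (T.l 204))) (T.l 204)) (T.b (T.c (T.b (T.c (T.b (T.l 1) (T.a (T.l 1) (T.l 204))) (T.b (T.l 1) (T.a (T.l 1) (T.l 204)))) (T.l 204)) (T.b (T.c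 (T.b (T.l 1) (T.a (T.l 1) (T.l 204))) (T.b (T.l 1) (T.a (T.l 1) (T.l 204)))) (T.l 204))) (T.l 204))) (T.a (T.a (T.c (T.b (T.a (T.c (T.b (T.c (T.b (T.l 1) (T.l 204)) (T.b (T.l 1) (T.l 204))) (T.l 204)) (T.c (T.b (T.b (T.l 1) (T.l 204)) (T.l 204)) (T.l 204))) (T.l 204)) (T.l 204)) (T.l 204)) (T.l 204)) (T.l 0)))) (T.a (T.a (T.l 0) (T.l 0)) (T.a (T.l 204) (T.l 204)))) (T.a (T.a (T.l 204) (T.a (T.l 204) (T.l 0))) (T.a (T.a (T.l 204) (T.l 204)) (T.l 0))))) (T.a (T.a (T.l 204) (T.a (T.l 204) (T.l 0))) (T.a (T.a (T.l 204) (T.l 204)) (T.l 0))))) (T.a (T.a (T.l 204) (T.a (T.l 204) (T.l 0))) (T.a (T.b (T.l 0) (T.l 204)) (T.b (T.l 204) (T.l 204)))))) (T.b (T.b (T.a (T.a (T.l 204) (T.b (T.l 0) (T.l 204))) (T.a (T.l 204) (T.l 204))) (T.a (T.a (T.l 204) (T.l 0)) (T.b (T.l 0) (T.l 204)))) (T.a (T.a (T.l 204) (T.b (T.l 204)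 (T.l 204))) (T.a (T.l 204) (T.l 204)))))), by decide +kernel⟩

def B101L_401 :
    ∃ t, chk3 (onCell 0 50331648 0 1073741824 50331648 16777216 (corTK [] false 3 c0N cB101L gN4q1 gN0q1 gN1q0 gN2q0 true true)) t 1 1 1 = true :=
  ⟨(T.l 1), by decide +kernel⟩

def B101L_402 :
    ∃ t, chk3 (onCell 0 50331648 0 1073741824 50331648 16777216 (corTK [] false 3 c0N cB101L gN4q1 gN0q1 gN2q0 gN3q0 true false)) t 1 1 1 = true :=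
  ⟨(T.l 1), by decide +kernel⟩

def B101R_020 :
    ∃ t, chk3 (onCell 0 50331648 0 1073741824 50331648 16777216 (corTK [] false 3 c0N cB101R gN0q1 gN2q1 gN0q0 gN1q0 true true)) t 1 1 1 = true :=
  ⟨(T.l 1), by decide +kernel⟩

def B101R_021 :
    ∃ t, chk3 (onCell 0 50331648 0 1073741824 50331648 16777216 (corTK [] false 3 c0N cB101R gN0q1 gN2q1 gN1q0 gN2q0 true true)) t 1 1 1 = true :=
  ⟨(T.l 1), by decide +kernel⟩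

def B101R_022 :
    ∃ t, chk3 (onCell 0 50331648 0 1073741824 50331648 16777216 (corTK [] false 3 c0N cB101R gN0q1 gN2q1 gN2q0 gN3q0 true false)) t 1 1 1 = true :=
  ⟨(T.l 1), by decide +kernel⟩

def B101R_030 :
    ∃ t, chk3 (onCell 0 50331648 0 1073741824 50331648 16777216 (corTK [] false 3 c0N cB101R gN0q1 gN3q1 gN0q0 gN1q0 true true)) t 1 1 1 = true :=
  ⟨(T.l 1), by decide +kernel⟩

def B101R_031 :
    ∃ t, chk3 (onCell 0 50331648 0 1073741824 50331648 16777216 (corTK [] false 3 c0N cB101R gN0q1 gN3q1 gN1q0 gN2q0 true true)) t 1 1 1 = true :=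
  ⟨(T.l 1), by decide +kernel⟩

def B101R_032 :
    ∃ t, chk3 (onCell 0 50331648 0 1073741824 50331648 16777216 (corTK [] false 3 c0N cB101R gN0q1 gN3q1 gN2q0 gN3q0 true false)) t 1 1 1 = true :=
  ⟨(T.l 1), by decide +kernel⟩

def B101R_040 :
    ∃ t, chk3 (onCell 0 50331648 0 1073741824 50331648 16777216 (corTK [] false 3 c0N cB101R gN0q1 gN4q1 gN0q0 gN1q0 true true)) t 1 1 1 = true :=
  ⟨(T.l 1), by decide +kernel⟩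

def B101R_041 :
    ∃ t, chk3 (onCell 0 50331648 0 1073741824 50331648 16777216 (corTK [] false 3 c0N cB101R gN0q1 gN4q1 gN1q0 gN2q0 true true)) t 1 1 1 = true :=
  ⟨(T.l 1), by decide +kernel⟩

def B101R_042 :
    ∃ t, chk3 (onCell 0 50331648 0 1073741824 50331648 16777216 (corTK [] false 3 c0N cB101R gN0q1 gN4q1 gN2q0 gN3q0 true false)) t 1 1 1 = true :=
  ⟨(T.l 1), by decide +kernel⟩

theorem B102E_000_15_388_1 :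
    ∃ t, chk3 (onCell 0 50331648 0 1073741824 50331648 16777216 (corTK [] false 3 c0N cB102E gN0q1 gN0q2 gN0q0 gN1q0 true true)) t 15 388 1 = true :=
  ex3_c B102E_000_15_388_2 B102E_000_15_388_3
theorem B102E_000_15_194_1 :
    ∃ t, chk3 (onCell 0 50331648 0 1073741824 50331648 16777216 (corTK [] false 3 c0N cB102E gN0q1 gN0q2 gN0q0 gN1q0 true true)) t 15 194 1 = true :=
  ex3_b B102E_000_15_388_1 B102E_000_15_389_1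
theorem B102E_000_7_194_1 :
    ∃ t, chk3 (onCell 0 50331648 0 1073741824 50331648 16777216 (corTK [] false 3 c0N cB102E gN0q1 gN0q2 gN0q0 gN1q0 true true)) t 7 194 1 = true :=
  ex3_a B102E_000_14_194_1 B102E_000_15_194_1
theorem B102E_000_7_97_1 :
    ∃ t, chk3 (onCell 0 50331648 0 1073741824 50331648 16777216 (corTK [] false 3 c0N cB102E gN0q1 gN0q2 gN0q0 gN1q0 true true)) t 7 97 1 = true :=
  ex3_b B102E_000_7_194_1 B102E_000_7_195_1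
theorem B102E_000_3_97_1 :
    ∃ t, chk3 (onCell 0 50331648 0 1073741824 50331648 16777216 (corTK [] false 3 c0N cB102E gN0q1 gN0q2 gN0q0 gN1q0 true true)) t 3 97 1 = true :=
  ex3_a B102E_000_6_97_1 B102E_000_7_97_1
theorem B102E_000_1_97_1 :
    ∃ t, chk3 (onCell 0 50331648 0 1073741824 50331648 16777216 (corTK [] false 3 c0N cB102E gN0q1 gN0q2 gN0q0 gN1q0 true true)) t 1 97 1 = true :=
  ex3_a B102E_000_2_97_1 B102E_000_3_97_1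
theorem B102E_000_7_387_1 :
    ∃ t, chk3 (onCell 0 50331648 0 1073741824 50331648 16777216 (corTK [] false 3 c0N cB102E gN0q1 gN0q2 gN0q0 gN1q0 true true)) t 7 387 1 = true :=
  ex3_a B102E_000_14_387_1 B102E_000_15_387_1
theorem B102E_000_7_193_1 :
    ∃ t, chk3 (onCell 0 50331648 0 1073741824 50331648 16777216 (corTK [] false 3 c0N cB102E gN0q1 gN0q2 gN0q0 gN1q0 true true)) t 7 193 1 = true :=
  ex3_b B102E_000_7_386_1 B102E_000_7_387_1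
theorem B102E_000_6_386_1 :
    ∃ t, chk3 (onCell 0 50331648 0 1073741824 50331648 16777216 (corTK [] false 3 c0N cB102E gN0q1 gN0q2 gN0q0 gN1q0 true true)) t 6 386 1 = true :=
  ex3_a B102E_000_12_386_1 B102E_000_13_386_1
theorem B102E_000_6_193_1 :
    ∃ t, chk3 (onCell 0 50331648 0 1073741824 50331648 16777216 (corTK [] false 3 c0N cB102E gN0q1 gN0q2 gN0q0 gN1q0 true true)) t 6 193 1 = true :=
  ex3_b B102E_000_6_386_1 B102E_000_6_387_1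
theorem B102E_000_3_193_1 :
    ∃ t, chk3 (onCell 0 50331648 0 1073741824 50331648 16777216 (corTK [] false 3 c0N cB102E gN0q1 gN0q2 gN0q0 gN1q0 true true)) t 3 193 1 = true :=
  ex3_a B102E_000_6_193_1 B102E_000_7_193_1
theorem B102E_000_3_96_1 :
    ∃ t, chk3 (onCell 0 50331648 0 1073741824 50331648 16777216 (corTK [] false 3 c0N cB102E gN0q1 gN0q2 gN0q0 gN1q0 true true)) t 3 96 1 = true :=
  ex3_b B102E_000_3_192_1 B102E_000_3_193_1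
theorem B102E_000_20_385_1 :
    ∃ t, chk3 (onCell 0 50331648 0 1073741824 50331648 16777216 (corTK [] false 3 c0N cB102E gN0q1 gN0q2 gN0q0 gN1q0 true true)) t 20 385 1 = true :=
  ex3_c B102E_000_20_385_2 B102E_000_20_385_3
theorem B102E_000_10_385_1 :
    ∃ t, chk3 (onCell 0 50331648 0 1073741824 50331648 16777216 (corTK [] false 3 c0N cB102E gN0q1 gN0q2 gN0q0 gN1q0 true true)) t 10 385 1 = true :=
  ex3_a B102E_000_20_385_1 B102E_000_21_385_1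
theorem B102E_000_5_385_1 :
    ∃ t, chk3 (onCell 0 50331648 0 1073741824 50331648 16777216 (corTK [] false 3 c0N cB102E gN0q1 gN0q2 gN0q0 gN1q0 true true)) t 5 385 1 = true :=
  ex3_a B102E_000_10_385_1 B102E_000_11_385_1
theorem B102E_000_5_192_1 :
    ∃ t, chk3 (onCell 0 50331648 0 1073741824 50331648 16777216 (corTK [] false 3 c0N cB102E gN0q1 gN0q2 gN0q0 gN1q0 true true)) t 5 192 1 = true :=
  ex3_b B102E_000_5_384_1 B102E_000_5_385_1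
theorem B102E_000_5_96_1 :
    ∃ t, chk3 (onCell 0 50331648 0 1073741824 50331648 16777216 (corTK [] false 3 c0N cB102E gN0q1 gN0q2 gN0q0 gN1q0 true true)) t 5 96 1 = true :=
  ex3_b B102E_000_5_192_1 B102E_000_5_193_1
theorem B102E_000_9_769_3 :
    ∃ t, chk3 (onCell 0 50331648 0 1073741824 50331648 16777216 (corTK [] false 3 c0N cB102E gN0q1 gN0q2 gN0q0 gN1q0 true true)) t 9 769 3 = true :=
  ex3_a B102E_000_18_769_3 B102E_000_19_769_3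
theorem B102E_000_9_384_3 :
    ∃ t, chk3 (onCell 0 50331648 0 1073741824 50331648 16777216 (corTK [] false 3 c0N cB102E gN0q1 gN0q2 gN0q0 gN1q0 true true)) t 9 384 3 = true :=
  ex3_b B102E_000_9_768_3 B102E_000_9_769_3
theorem B102E_000_9_769_2 :
    ∃ t, chk3 (onCell 0 50331648 0 1073741824 50331648 16777216 (corTK [] false 3 c0N cB102E gN0q1 gN0q2 gN0q0 gN1q0 true true)) t 9 769 2 = true :=
  ex3_a B102E_000_18_769_2 B102E_000_19_769_2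
theorem B102E_000_9_384_2 :
    ∃ t, chk3 (onCell 0 50331648 0 1073741824 50331648 16777216 (corTK [] false 3 c0N cB102E gN0q1 gN0q2 gN0q0 gN1q0 true true)) t 9 384 2 = true :=
  ex3_b B102E_000_9_768_2 B102E_000_9_769_2
theorem B102E_000_9_384_1 :
    ∃ t, chk3 (onCell 0 50331648 0 1073741824 50331648 16777216 (corTK [] false 3 c0N cB102E gN0q1 gN0q2 gN0q0 gN1q0 true true)) t 9 384 1 = true :=
  ex3_c B102E_000_9_384_2 B102E_000_9_384_3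
theorem B102E_000_16_768_3 :
    ∃ t, chk3 (onCell 0 50331648 0 1073741824 50331648 16777216 (corTK [] false 3 c0N cB102E gN0q1 gN0q2 gN0q0 gN1q0 true true)) t 16 768 3 = true :=
  ex3_c B102E_000_16_768_6 B102E_000_16_768_7
theorem B102E_000_8_768_3 :
    ∃ t, chk3 (onCell 0 50331648 0 1073741824 50331648 16777216 (corTK [] false 3 c0N cB102E gN0q1 gN0q2 gN0q0 gN1q0 true true)) t 8 768 3 = true :=
  ex3_a B102E_000_16_768_3 B102E_000_17_768_3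
theorem B102E_000_8_384_3 :
    ∃ t, chk3 (onCell 0 50331648 0 1073741824 50331648 16777216 (corTK [] false 3 c0N cB102E gN0q1 gN0q2 gN0q0 gN1q0 true true)) t 8 384 3 = true :=
  ex3_b B102E_000_8_768_3 B102E_000_8_769_3
theorem B102E_000_16_768_2 :
    ∃ t, chk3 (onCell 0 50331648 0 1073741824 50331648 16777216 (corTK [] false 3 c0N cB102E gN0q1 gN0q2 gN0q0 gN1q0 true true)) t 16 768 2 = true :=
  ex3_c B102E_000_16_768_4 B102E_000_16_768_5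
theorem B102E_000_8_768_2 :
    ∃ t, chk3 (onCell 0 50331648 0 1073741824 50331648 16777216 (corTK [] false 3 c0N cB102E gN0q1 gN0q2 gN0q0 gN1q0 true true)) t 8 768 2 = true :=
  ex3_a B102E_000_16_768_2 B102E_000_17_768_2
theorem B102E_000_8_384_2 :
    ∃ t, chk3 (onCell 0 50331648 0 1073741824 50331648 16777216 (corTK [] false 3 c0N cB102E gN0q1 gN0q2 gN0q0 gN1q0 true true)) t 8 384 2 = true :=
  ex3_b B102E_000_8_768_2 B102E_000_8_769_2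
theorem B102E_000_8_384_1 :
    ∃ t, chk3 (onCell 0 50331648 0 1073741824 50331648 16777216 (corTK [] false 3 c0N cB102E gN0q1 gN0q2 gN0q0 gN1q0 true true)) t 8 384 1 = true :=
  ex3_c B102E_000_8_384_2 B102E_000_8_384_3
theorem B102E_000_4_384_1 :
    ∃ t, chk3 (onCell 0 50331648 0 1073741824 50331648 16777216 (corTK [] false 3 c0N cB102E gN0q1 gN0q2 gN0q0 gN1q0 true true)) t 4 384 1 = true :=
  ex3_a B102E_000_8_384_1 B102E_000_9_384_1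
theorem B102E_000_4_192_1 :
    ∃ t, chk3 (onCell 0 50331648 0 1073741824 50331648 16777216 (corTK [] false 3 c0N cB102E gN0q1 gN0q2 gN0q0 gN1q0 true true)) t 4 192 1 = true :=
  ex3_b B102E_000_4_384_1 B102E_000_4_385_1
theorem B102E_000_4_96_1 :
    ∃ t, chk3 (onCell 0 50331648 0 1073741824 50331648 16777216 (corTK [] false 3 c0N cB102E gN0q1 gN0q2 gN0q0 gN1q0 true true)) t 4 96 1 = true :=
  ex3_b B102E_000_4_192_1 B102E_000_4_193_1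
theorem B102E_000_2_96_1 :
    ∃ t, chk3 (onCell 0 50331648 0 1073741824 50331648 16777216 (corTK [] false 3 c0N cB102E gN0q1 gN0q2 gN0q0 gN1q0 true true)) t 2 96 1 = true :=
  ex3_a B102E_000_4_96_1 B102E_000_5_96_1
theorem B102E_000_1_96_1 :
    ∃ t, chk3 (onCell 0 50331648 0 1073741824 50331648 16777216 (corTK [] false 3 c0N cB102E gN0q1 gN0q2 gN0q0 gN1q0 true true)) t 1 96 1 = true :=
  ex3_a B102E_000_2_96_1 B102E_000_3_96_1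
theorem B102E_000_1_48_1 :
    ∃ t, chk3 (onCell 0 50331648 0 1073741824 50331648 16777216 (corTK [] false 3 c0N cB102E gN0q1 gN0q2 gN0q0 gN1q0 true true)) t 1 48 1 = true :=
  ex3_b B102E_000_1_96_1 B102E_000_1_97_1
theorem B102E_000_1_24_1 :
    ∃ t, chk3 (onCell 0 50331648 0 1073741824 50331648 16777216 (corTK [] false 3 c0N cB102E gN0q1 gN0q2 gN0q0 gN1q0 true true)) t 1 24 1 = true :=
  ex3_b B102E_000_1_48_1 B102E_000_1_49_1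
theorem B102E_000_1_12_1 :
    ∃ t, chk3 (onCell 0 50331648 0 1073741824 50331648 16777216 (corTK [] false 3 c0N cB102E gN0q1 gN0q2 gN0q0 gN1q0 true true)) t 1 12 1 = true :=
  ex3_b B102E_000_1_24_1 B102E_000_1_25_1
theorem B102E_000_1_6_1 :
    ∃ t, chk3 (onCell 0 50331648 0 1073741824 50331648 16777216 (corTK [] false 3 c0N cB102E gN0q1 gN0q2 gN0q0 gN1q0 true true)) t 1 6 1 = true :=
  ex3_b B102E_000_1_12_1 B102E_000_1_13_1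
theorem B102E_000_1_3_1 :
    ∃ t, chk3 (onCell 0 50331648 0 1073741824 50331648 16777216 (corTK [] false 3 c0N cB102E gN0q1 gN0q2 gN0q0 gN1q0 true true)) t 1 3 1 = true :=
  ex3_b B102E_000_1_6_1 B102E_000_1_7_1
theorem B102E_000 :
    ∃ t, chk3 (onCell 0 50331648 0 1073741824 50331648 16777216 (corTK [] false 3 c0N cB102E gN0q1 gN0q2 gN0q0 gN1q0 true true)) t 1 1 1 = true :=
  ex3_b B102E_000_1_2_1 B102E_000_1_3_1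

def B102E_001 :
    ∃ t, chk3 (onCell 0 50331648 0 1073741824 50331648 16777216 (corTK [] false 3 c0N cB102E gN0q1 gN0q2 gN1q0 gN2q0 true true)) t 1 1 1 = true :=
  ⟨(T.b (T.l 1) (T.b (T.l 1) (T.b (T.b (T.b (T.l 1) (T.a (T.a (T.a (T.l 204) (T.l 204)) (T.l 204)) (T.l 204))) (T.a (T.a (T.a (T.l 204) (T.l 204)) (T.l 204)) (T.l 204))) (T.a (T.a (T.a (T.l 204) (T.l 204)) (T.l 0)) (T.l 0))))), by decide +kernel⟩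

def B102E_002 :
    ∃ t, chk3 (onCell 0 50331648 0 1073741824 50331648 16777216 (corTK [] false 3 c0N cB102E gN0q1 gN0q2 gN2q0 gN3q0 true false)) t 1 1 1 = true :=
  ⟨(T.b (T.l 1) (T.b (T.l 1) (T.b (T.l 1) (T.a (T.b (T.l 1) (T.a (T.a (T.l 204) (T.l 204)) (T.l 204))) (T.l 204))))), by decide +kernel⟩

def B102E_010 :
    ∃ t, chk3 (onCell 0 50331648 0 1073741824 50331648 16777216 (corTK [] false 3 c0N cB102E gN0q1 gN1q2 gN0q0 gN1q0 true true)) t 1 1 1 = true :=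
  ⟨(T.b (T.b (T.l 1) (T.b (T.b (T.b (T.l 1) (T.b (T.a (T.a (T.b (T.b (T.l 1) (T.a (T.l 204) (T.c (T.b (T.l 1) (T.l 204)) (T.b (T.l 1) (T.l 204))))) (T.l 204)) (T.b (T.a (T.l 1) (T.l 1)) (T.a (T.a (T.l 204) (T.l 460)) (T.b (T.c (T.b (T.a (T.c (T.b (T.l 1) (T.l 460)) (T.b (T.l 1) (T.l 204))) (T.l 1)) (T.a (T.l 204) (T.l 460))) (T.b (T.a (T.a (T.l 460) (T.l 1)) (T.l 1)) (T.a (T.l 204) (T.l 204)))) (T.l 204))))) (T.b (T.l 1) (T.a (T.b (T.a (T.a (T.a (T.c (T.b (T.l 1) (T.c (T.b (T.l 1) (T.l 204)) (T.c (T.l 460) (T.l 460)))) (T.b (T.l 1) (T.l 460))) (T.l 1)) (T.l 1)) (T.l 1)) (T.a (T.a (T.l 204) (T.l 476)) (T.c (T.b (T.a (T.c (T.b (T.l 1) (T.l 460)) (T.a (T.l 476) (T.l 1))) (T.l 1)) (T.a (T.l 204) (T.l 476))) (T.b (T.a (T.a (T.l 460) (T.l 1)) (T.l 1)) (T.l 476))))) (T.a (T.a (T.b (T.l 1) (T.c (T.b (T.l 1) (T.c (T.b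 (T.l 1) (T.l 476)) (T.b (T.l 1) (T.l 460)))) (T.b (T.l 1) (T.c (T.b (T.l 1) (T.l 204)) (T.b (T.l 1) (T.l 204)))))) (T.l 1)) (T.l 1))))) (T.a (T.a (T.l 204) (T.a (T.l 204) (T.l 204))) (T.a (T.a (T.l 204) (T.l 204)) (T.b (T.b (T.a (T.a (T.l 204) (T.l 476)) (T.c (T.b (T.a (T.c (T.b (T.l 1) (T.l 476)) (T.b (T.l 1) (T.l 460))) (T.l 1)) (T.l 476)) (T.b (T.a (T.c (T.b (T.l 1) (T.l 204)) (T.b (T.l 1) (T.l 204))) (T.l 1)) (T.l 476)))) (T.l 476)) (T.l 204)))))) (T.a (T.a (T.l 204) (T.a (T.l 204) (T.l 204))) (T.a (T.b (T.l 204) (T.l 204)) (T.l 204)))) (T.a (T.a (T.l 204) (T.b (T.l 0) (T.l 204))) (T.b (T.l 0) (T.l 0))))) (T.b (T.b (T.a (T.a (T.a (T.l 204) (T.l 204)) (T.l 204)) (T.l 0)) (T.a (T.a (T.a (T.l 204) (T.l 204)) (T.l 204)) (T.l 204))) (T.l 2))), by decide +kernel⟩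

def B102E_011 :
    ∃ t, chk3 (onCell 0 50331648 0 1073741824 50331648 16777216 (corTK [] false 3 c0N cB102E gN0q1 gN1q2 gN1q0 gN2q0 true true)) t 1 1 1 = true :=
  ⟨(T.b (T.l 1) (T.b (T.b (T.l 1) (T.a (T.a (T.a (T.l 204) (T.l 204)) (T.l 204)) (T.l 204))) (T.a (T.a (T.a (T.l 204) (T.l 204)) (T.l 0)) (T.b (T.l 204) (T.l 0))))), by decide +kernel⟩

def B102E_012 :
    ∃ t, chk3 (onCell 0 50331648 0 1073741824 50331648 16777216 (corTK [] false 3 c0N cB102E gN0q1 gN1q2 gN2q0 gN3q0 true false)) t 1 1 1 = true :=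
  ⟨(T.b (T.l 1) (T.b (T.l 1) (T.a (T.b (T.l 1) (T.b (T.l 1) (T.a (T.a (T.l 204) (T.l 204)) (T.l 204)))) (T.l 0)))), by decide +kernel⟩

def B102E_020_1_2_1 :
    ∃ t, chk3 (onCell 0 50331648 0 1073741824 50331648 16777216 (corTK [[⟨0, 1, 0, 8388608⟩, ⟨1, 0, 1, 25165824⟩, ⟨2, 1, 1, 25165824⟩, ⟨1, 0, 0, 83886080⟩, ⟨1, 1, 0, 1040187392⟩, ⟨2, 1, 0, 83886080⟩, ⟨2, 2, 0, 1040187392⟩]] false 3 c0N cB102E gN0q1 gN2q2 gN0q0 gN1q0 true true)) t 1 2 1 = true :=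
  ⟨(T.b (T.b (T.b (T.b (T.b (T.b (T.b (T.a (T.a (T.l 204) (T.a (T.a (T.c (T.l 220) (T.l 204)) (T.a (T.l 204) (T.l 204))) (T.c (T.b (T.c (T.a (T.l 220) (T.l 476)) (T.a (T.l 220) (T.l 476))) (T.l 204)) (T.a (T.l 476) (T.l 476))))) (T.c (T.a (T.a (T.b (T.c (T.b (T.a (T.a (T.l 220) (T.l 476)) (T.a (T.l 476) (T.l 476))) (T.l 204)) (T.a (T.l 476) (T.a (T.l 476) (T.l 476)))) (T.l 204)) (T.a (T.b (T.a (T.c (T.c (T.l 476) (T.l 476)) (T.l 476)) (T.a (T.a (T.l 476) (T.a (T.l 476) (T.l 476))) (T.l 1024))) (T.l 220)) (T.l 1024))) (T.l 1024)) (T.b (T.a (T.a (T.a (T.c (T.l 476) (T.l 476)) (T.a (T.l 476) (T.l 476))) (T.a (T.a (T.c (T.l 476) (T.l 476)) (T.c (T.b (T.c (T.a (T.a (T.l 476) (T.l 476)) (T.l 476)) (T.a (T.c (T.l 476) (T.l 476)) (T.l 476))) (T.l 204)) (T.a (T.a (T.l 476) (T.l 476)) (T.l 476)))) (T.a (T.c (T.b (T.c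 (T.a (T.l 476) (T.l 476)) (T.a (T.l 476) (T.l 476))) (T.l 204)) (T.a (T.l 476) (T.l 476))) (T.c (T.c (T.l 1024) (T.a (T.l 476) (T.l 476))) (T.a (T.l 476) (T.l 476)))))) (T.a (T.a (T.c (T.a (T.a (T.c (T.l 1024) (T.l 476)) (T.l 1024)) (T.l 1024)) (T.b (T.a (T.a (T.l 476) (T.l 476)) (T.a (T.l 476) (T.l 476))) (T.l 220))) (T.a (T.c (T.l 1024) (T.a (T.l 476) (T.l 476))) (T.l 1024))) (T.l 1024))) (T.a (T.a (T.l 204) (T.a (T.a (T.l 204) (T.l 204)) (T.l 204))) (T.a (T.a (T.l 204) (T.l 204)) (T.l 1024)))))) (T.a (T.a (T.l 204) (T.a (T.l 204) (T.l 204))) (T.c (T.a (T.a (T.l 204) (T.a (T.l 204) (T.l 1024))) (T.l 1024)) (T.b (T.a (T.a (T.l 204) (T.a (T.l 204) (T.l 204))) (T.a (T.a (T.l 204) (T.l 204)) (T.l 1024))) (T.a (T.a (T.l 204) (T.a (T.l 204) (T.l 204))) (T.a (T.l 204) (T.l 1024))))))) (T.b (T.a (T.a (T.l 204) (T.a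 (T.l 204) (T.l 204))) (T.a (T.a (T.l 204) (T.a (T.l 204) (T.l 204))) (T.a (T.l 204) (T.l 1024)))) (T.a (T.a (T.l 204) (T.a (T.l 204) (T.l 204))) (T.a (T.a (T.l 204) (T.l 220)) (T.a (T.l 204) (T.l 1024)))))) (T.b (T.b (T.a (T.a (T.l 204) (T.l 204)) (T.a (T.a (T.l 204) (T.l 204)) (T.a (T.l 204) (T.l 1024)))) (T.a (T.a (T.l 204) (T.l 204)) (T.a (T.a (T.l 204) (T.l 204)) (T.a (T.l 204) (T.l 1024))))) (T.b (T.a (T.a (T.l 204) (T.l 204)) (T.a (T.a (T.l 204) (T.l 204)) (T.a (T.l 204) (T.l 1024)))) (T.a (T.a (T.l 204) (T.l 204)) (T.a (T.a (T.l 204) (T.l 204)) (T.l 0)))))) (T.b (T.b (T.b (T.a (T.a (T.l 204) (T.l 204)) (T.a (T.a (T.l 204) (T.l 204)) (T.l 0))) (T.a (T.a (T.l 204) (T.l 204)) (T.a (T.a (T.l 204) (T.l 204)) (T.l 0)))) (T.b (T.a (T.a (T.l 204) (T.l 204)) (T.a (T.a (T.l 204) (T.l 204)) (T.l 0))) (T.a (T.a (T.l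 204) (T.l 204)) (T.a (T.a (T.l 204) (T.l 204)) (T.l 0))))) (T.b (T.b (T.a (T.a (T.l 204) (T.l 204)) (T.a (T.a (T.l 204) (T.l 204)) (T.l 0))) (T.a (T.a (T.l 204) (T.l 204)) (T.a (T.a (T.l 204) (T.l 204)) (T.l 0)))) (T.b (T.a (T.a (T.l 204) (T.l 204)) (T.a (T.a (T.l 204) (T.l 204)) (T.l 0))) (T.a (T.a (T.l 204) (T.l 204)) (T.a (T.a (T.l 204) (T.l 204)) (T.l 0))))))) (T.b (T.b (T.b (T.b (T.a (T.a (T.l 204) (T.l 204)) (T.a (T.a (T.l 204) (T.l 204)) (T.l 0))) (T.a (T.a (T.l 204) (T.l 204)) (T.a (T.a (T.l 204) (T.l 204)) (T.l 0)))) (T.b (T.a (T.a (T.l 204) (T.l 204)) (T.a (T.a (T.l 204) (T.l 204)) (T.l 0))) (T.a (T.a (T.l 204) (T.l 204)) (T.a (T.a (T.l 204) (T.l 204)) (T.l 0))))) (T.b (T.b (T.a (T.a (T.l 204) (T.l 204)) (T.a (T.a (T.l 204) (T.l 204)) (T.l 0))) (T.a (T.a (T.l 204) (T.l 204)) (T.a (T.a (T.l 204) (T.l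 204)) (T.l 0)))) (T.b (T.a (T.a (T.l 204) (T.l 204)) (T.a (T.a (T.l 204) (T.l 204)) (T.l 0))) (T.a (T.a (T.l 204) (T.l 204)) (T.a (T.a (T.l 204) (T.l 204)) (T.l 0)))))) (T.b (T.b (T.b (T.a (T.a (T.l 204) (T.l 204)) (T.a (T.a (T.l 204) (T.l 204)) (T.l 0))) (T.a (T.a (T.l 204) (T.l 204)) (T.a (T.a (T.l 204) (T.l 204)) (T.l 204)))) (T.b (T.a (T.a (T.l 204) (T.l 204)) (T.a (T.a (T.l 204) (T.l 204)) (T.l 204))) (T.a (T.a (T.l 204) (T.l 204)) (T.a (T.a (T.l 204) (T.l 204)) (T.l 204))))) (T.b (T.b (T.a (T.a (T.l 204) (T.l 204)) (T.a (T.a (T.l 204) (T.l 204)) (T.l 204))) (T.a (T.a (T.l 204) (T.l 204)) (T.a (T.l 204) (T.l 204)))) (T.b (T.a (T.a (T.l 204) (T.l 204)) (T.a (T.l 204) (T.l 204))) (T.a (T.a (T.l 204) (T.l 204)) (T.a (T.l 204) (T.l 204)))))))) (T.b (T.b (T.b (T.b (T.b (T.a (T.a (T.l 204) (T.l 204)) (T.a (T.l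 204) (T.l 204))) (T.a (T.a (T.l 204) (T.l 204)) (T.a (T.l 204) (T.l 204)))) (T.b (T.a (T.a (T.l 204) (T.l 204)) (T.a (T.l 204) (T.l 204))) (T.a (T.a (T.l 204) (T.l 204)) (T.a (T.l 204) (T.l 204))))) (T.b (T.b (T.a (T.a (T.l 204) (T.l 204)) (T.a (T.l 204) (T.l 204))) (T.a (T.a (T.l 204) (T.l 204)) (T.a (T.l 204) (T.l 204)))) (T.b (T.a (T.a (T.l 204) (T.l 204)) (T.a (T.l 204) (T.l 204))) (T.a (T.a (T.l 204) (T.l 204)) (T.a (T.l 204) (T.l 204)))))) (T.b (T.b (T.b (T.a (T.a (T.l 204) (T.l 204)) (T.a (T.l 204) (T.l 204))) (T.a (T.a (T.l 204) (T.l 204)) (T.a (T.l 204) (T.l 204)))) (T.b (T.a (T.a (T.l 204) (T.l 204)) (T.a (T.l 204) (T.l 204))) (T.a (T.a (T.l 204) (T.l 204)) (T.a (T.l 204) (T.l 204))))) (T.b (T.b (T.a (T.a (T.l 204) (T.l 204)) (T.a (T.l 204) (T.l 204))) (T.a (T.a (T.l 204) (T.l 204)) (T.a (T.l 204)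 (T.l 204)))) (T.b (T.a (T.a (T.l 204) (T.l 204)) (T.a (T.l 204) (T.l 204))) (T.a (T.a (T.l 204) (T.l 204)) (T.a (T.l 204) (T.l 204))))))) (T.b (T.b (T.b (T.b (T.a (T.a (T.l 204) (T.l 204)) (T.a (T.l 204) (T.l 204))) (T.a (T.a (T.l 204) (T.l 204)) (T.a (T.l 204) (T.l 204)))) (T.b (T.a (T.a (T.l 204) (T.l 204)) (T.a (T.l 204) (T.l 204))) (T.a (T.a (T.l 204) (T.l 204)) (T.a (T.l 204) (T.l 204))))) (T.b (T.b (T.a (T.a (T.l 204) (T.l 204)) (T.a (T.l 204) (T.l 204))) (T.a (T.a (T.l 204) (T.l 204)) (T.a (T.l 204) (T.l 204)))) (T.a (T.a (T.l 204) (T.l 204)) (T.a (T.l 204) (T.l 204))))) (T.b (T.b (T.a (T.a (T.l 204) (T.l 204)) (T.a (T.l 204) (T.l 204))) (T.a (T.a (T.l 204) (T.l 204)) (T.a (T.l 204) (T.l 204)))) (T.b (T.a (T.a (T.l 204) (T.l 204)) (T.a (T.l 204) (T.l 204))) (T.a (T.a (T.l 204) (T.l 204)) (T.a (T.l 204)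 (T.l 204)))))))) (T.b (T.b (T.b (T.b (T.a (T.a (T.l 204) (T.l 204)) (T.a (T.l 204) (T.l 204))) (T.b (T.a (T.a (T.l 204) (T.l 204)) (T.a (T.l 204) (T.l 204))) (T.a (T.a (T.l 204) (T.l 204)) (T.a (T.l 204) (T.l 204))))) (T.b (T.b (T.a (T.a (T.l 204) (T.l 204)) (T.a (T.l 204) (T.l 204))) (T.a (T.a (T.l 204) (T.l 204)) (T.a (T.l 204) (T.l 204)))) (T.a (T.a (T.l 204) (T.l 204)) (T.a (T.l 204) (T.l 204))))) (T.b (T.a (T.a (T.l 204) (T.l 204)) (T.a (T.l 204) (T.l 204))) (T.a (T.a (T.l 204) (T.l 204)) (T.l 204)))) (T.a (T.a (T.l 204) (T.l 204)) (T.l 204)))), by decide +kernel⟩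

def B102E_020_1_3_1 :
    ∃ t, chk3 (onCell 0 50331648 0 1073741824 50331648 16777216 (corTK [[⟨0, 1, 0, 8388608⟩, ⟨1, 0, 1, 25165824⟩, ⟨2, 1, 1, 25165824⟩, ⟨1, 0, 0, 83886080⟩, ⟨1, 1, 0, 1040187392⟩, ⟨2, 1, 0, 83886080⟩, ⟨2, 2, 0, 1040187392⟩]] false 3 c0N cB102E gN0q1 gN2q2 gN0q0 gN1q0 true true)) t 1 3 1 = true :=
  ⟨(T.b (T.b (T.a (T.a (T.a (T.l 204) (T.l 204)) (T.l 204)) (T.l 204)) (T.l 2)) (T.l 2)), by decide +kernel⟩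

theorem B102E_020 :
    ∃ t, chk3 (onCell 0 50331648 0 1073741824 50331648 16777216 (corTK [[⟨0, 1, 0, 8388608⟩, ⟨1, 0, 1, 25165824⟩, ⟨2, 1, 1, 25165824⟩, ⟨1, 0, 0, 83886080⟩, ⟨1, 1, 0, 1040187392⟩, ⟨2, 1, 0, 83886080⟩, ⟨2, 2, 0, 1040187392⟩]] false 3 c0N cB102E gN0q1 gN2q2 gN0q0 gN1q0 true true)) t 1 1 1 = true :=
  ex3_b B102E_020_1_2_1 B102E_020_1_3_1

def B102E_021 :
    ∃ t, chk3 (onCell 0 50331648 0 1073741824 50331648 16777216 (corTK [[⟨0, 1, 0, 8388608⟩, ⟨1, 0, 1, 25165824⟩, ⟨2, 1, 1, 25165824⟩, ⟨1, 0, 0, 83886080⟩, ⟨1, 1, 0, 1040187392⟩, ⟨2, 1, 0, 83886080⟩, ⟨2, 2, 0, 1040187392⟩]] false 3 c0N cB102E gN0q1 gN2q2 gN1q0 gN2q0 true true)) t 1 1 1 = true :=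
  ⟨(T.b (T.l 1) (T.b (T.a (T.a (T.a (T.l 204) (T.l 204)) (T.l 0)) (T.b (T.l 204) (T.l 204))) (T.a (T.a (T.a (T.l 204) (T.l 204)) (T.l 0)) (T.l 0)))), by decide +kernel⟩

def B102E_022 :
    ∃ t, chk3 (onCell 0 50331648 0 1073741824 50331648 16777216 (corTK [[⟨0, 1, 0, 8388608⟩, ⟨1, 0, 1, 25165824⟩, ⟨2, 1, 1, 25165824⟩, ⟨1, 0, 0, 83886080⟩, ⟨1, 1, 0, 1040187392⟩, ⟨2, 1, 0, 83886080⟩, ⟨2, 2, 0, 1040187392⟩]] false 3 c0N cB102E gN0q1 gN2q2 gN2q0 gN3q0 true false)) t 1 1 1 = true :=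
  ⟨(T.b (T.l 1) (T.b (T.l 1) (T.a (T.b (T.l 1) (T.a (T.a (T.l 204) (T.l 204)) (T.l 204))) (T.l 204)))), by decide +kernel⟩

def B102L_200_1_2_1 :
    ∃ t, chk3 (onCell 0 50331648 0 1073741824 50331648 16777216 (corTK [[⟨0, 1, 2, 33554432⟩, ⟨1, 0, 1, 33554432⟩, ⟨2, 1, 0, 15728640⟩, ⟨0, 0, 0, 1040187392⟩, ⟨0, 1, 0, 83886080⟩, ⟨1, 0, 0, 83886080⟩, ⟨1, 1, 0, 1040187392⟩]] false 3 c0N cB102L gN2q1 gN0q2 gN0q0 gN1q0 true true)) t 1 2 1 = true :=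
  ⟨(T.b (T.l 2) (T.b (T.l 2) (T.a (T.a (T.a (T.l 204) (T.l 204)) (T.l 204)) (T.l 0)))), by decide +kernel⟩

def B102L_200_1_6_1 :
    ∃ t, chk3 (onCell 0 50331648 0 1073741824 50331648 16777216 (corTK [[⟨0, 1, 2, 33554432⟩, ⟨1, 0, 1, 33554432⟩, ⟨2, 1, 0, 15728640⟩, ⟨0, 0, 0, 1040187392⟩, ⟨0, 1, 0, 83886080⟩, ⟨1, 0, 0, 83886080⟩, ⟨1, 1, 0, 1040187392⟩]] false 3 c0N cB102L gN2q1 gN0q2 gN0q0 gN1q0 true true)) t 1 6 1 = true :=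
  ⟨(T.b (T.a (T.a (T.l 204) (T.l 204)) (T.b (T.l 204) (T.l 204))) (T.b (T.b (T.a (T.a (T.l 204) (T.l 204)) (T.l 204)) (T.a (T.a (T.l 204) (T.l 204)) (T.a (T.l 204) (T.l 204)))) (T.b (T.a (T.a (T.l 204) (T.l 204)) (T.a (T.l 204) (T.l 204))) (T.b (T.b (T.a (T.a (T.l 204) (T.l 204)) (T.a (T.l 204) (T.l 204))) (T.a (T.a (T.l 204) (T.l 204)) (T.a (T.l 204) (T.l 204)))) (T.b (T.a (T.a (T.l 204) (T.l 204)) (T.a (T.l 204) (T.l 204))) (T.a (T.a (T.l 204) (T.l 204)) (T.a (T.l 204) (T.l 204)))))))), by decide +kernel⟩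

def B102L_200_1_7_1 :
    ∃ t, chk3 (onCell 0 50331648 0 1073741824 50331648 16777216 (corTK [[⟨0, 1, 2, 33554432⟩, ⟨1, 0, 1, 33554432⟩, ⟨2, 1, 0, 15728640⟩, ⟨0, 0, 0, 1040187392⟩, ⟨0, 1, 0, 83886080⟩, ⟨1, 0, 0, 83886080⟩, ⟨1, 1, 0, 1040187392⟩]] false 3 c0N cB102L gN2q1 gN0q2 gN0q0 gN1q0 true true)) t 1 7 1 = true :=
  ⟨(T.b (T.b (T.b (T.b (T.b (T.a (T.a (T.l 204) (T.l 204)) (T.a (T.l 204) (T.l 204))) (T.a (T.a (T.l 204) (T.l 204)) (T.a (T.l 204) (T.l 204)))) (T.b (T.a (T.a (T.l 204) (T.l 204)) (T.a (T.l 204) (T.l 204))) (T.a (T.a (T.l 204) (T.l 204)) (T.a (T.l 204) (T.l 204))))) (T.b (T.b (T.a (T.a (T.l 204) (T.l 204)) (T.a (T.l 204) (T.l 204))) (T.a (T.a (T.l 204) (T.l 204)) (T.a (T.l 204) (T.l 204)))) (T.b (T.a (T.a (T.l 204) (T.l 204)) (T.a (T.l 204) (T.l 204))) (T.a (T.a (T.l 204) (T.l 204)) (T.a (T.l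 204) (T.l 0)))))) (T.b (T.b (T.b (T.a (T.a (T.l 204) (T.l 204)) (T.a (T.l 204) (T.l 0))) (T.b (T.a (T.a (T.l 204) (T.l 204)) (T.a (T.l 204) (T.l 0))) (T.a (T.a (T.l 204) (T.l 204)) (T.a (T.l 204) (T.l 0))))) (T.b (T.b (T.a (T.a (T.l 204) (T.l 204)) (T.a (T.l 204) (T.l 0))) (T.a (T.a (T.l 204) (T.l 204)) (T.a (T.l 204) (T.l 0)))) (T.b (T.a (T.a (T.l 204) (T.l 204)) (T.a (T.l 204) (T.l 0))) (T.a (T.a (T.l 204) (T.l 204)) (T.a (T.l 204) (T.l 0)))))) (T.b (T.b (T.b (T.a (T.a (T.l 204) (T.l 204)) (T.a (T.l 204) (T.l 0))) (T.a (T.a (T.l 204) (T.l 204)) (T.a (T.l 204) (T.l 0)))) (T.b (T.a (T.a (T.l 204) (T.l 0)) (T.a (T.l 204) (T.l 0))) (T.a (T.a (T.l 204) (T.l 0)) (T.a (T.l 204) (T.l 0))))) (T.b (T.b (T.a (T.a (T.l 204) (T.l 0)) (T.a (T.l 204) (T.l 0))) (T.a (T.a (T.l 204) (T.l 0)) (T.a (T.l 204) (T.l 0)))) (T.b (T.a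 (T.a (T.l 204) (T.l 0)) (T.a (T.l 204) (T.l 0))) (T.a (T.a (T.l 204) (T.l 0)) (T.a (T.l 204) (T.l 0)))))))) (T.b (T.b (T.b (T.b (T.b (T.a (T.a (T.l 204) (T.l 0)) (T.a (T.l 204) (T.l 0))) (T.a (T.a (T.l 204) (T.l 0)) (T.a (T.l 204) (T.l 0)))) (T.b (T.a (T.a (T.l 204) (T.l 0)) (T.a (T.l 204) (T.l 0))) (T.a (T.a (T.l 204) (T.l 0)) (T.a (T.a (T.l 204) (T.l 0)) (T.l 0))))) (T.b (T.b (T.a (T.a (T.l 204) (T.l 0)) (T.a (T.a (T.l 204) (T.l 0)) (T.l 1024))) (T.a (T.a (T.l 204) (T.l 0)) (T.a (T.a (T.l 204) (T.l 0)) (T.l 1024)))) (T.b (T.a (T.a (T.l 204) (T.l 0)) (T.a (T.a (T.l 204) (T.l 0)) (T.l 1024))) (T.a (T.a (T.l 204) (T.l 0)) (T.a (T.a (T.l 204) (T.l 0)) (T.l 1024)))))) (T.b (T.b (T.b (T.a (T.a (T.l 204) (T.l 0)) (T.a (T.a (T.l 204) (T.l 0)) (T.l 1024))) (T.a (T.a (T.l 204) (T.l 0)) (T.a (T.a (T.l 204) (T.l 0)) (T.l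 1024)))) (T.b (T.a (T.a (T.l 204) (T.l 0)) (T.a (T.a (T.l 204) (T.l 0)) (T.l 1024))) (T.a (T.a (T.l 204) (T.l 0)) (T.a (T.a (T.l 204) (T.l 0)) (T.l 1024))))) (T.b (T.b (T.a (T.a (T.l 204) (T.l 0)) (T.a (T.a (T.l 204) (T.l 0)) (T.l 1024))) (T.a (T.a (T.l 204) (T.l 0)) (T.a (T.a (T.l 204) (T.l 0)) (T.l 1024)))) (T.b (T.a (T.a (T.l 204) (T.l 0)) (T.a (T.a (T.l 0) (T.l 0)) (T.l 1024))) (T.a (T.a (T.l 0) (T.l 0)) (T.a (T.a (T.l 0) (T.l 0)) (T.l 1024))))))) (T.b (T.b (T.b (T.b (T.a (T.a (T.l 0) (T.l 0)) (T.a (T.a (T.l 0) (T.l 0)) (T.l 1024))) (T.a (T.a (T.l 816) (T.l 0)) (T.a (T.a (T.l 0) (T.l 0)) (T.l 1024)))) (T.b (T.a (T.a (T.l 816) (T.l 0)) (T.a (T.a (T.l 816) (T.l 0)) (T.l 1024))) (T.a (T.a (T.l 816) (T.l 0)) (T.a (T.a (T.l 816) (T.l 0)) (T.l 1024))))) (T.b (T.b (T.a (T.a (T.l 816) (T.l 0)) (T.a (T.a (T.l 816)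 (T.l 0)) (T.l 1024))) (T.a (T.a (T.l 816) (T.l 0)) (T.a (T.a (T.l 816) (T.l 0)) (T.l 1024)))) (T.b (T.a (T.a (T.l 816) (T.l 0)) (T.a (T.a (T.l 816) (T.l 0)) (T.l 1024))) (T.a (T.a (T.l 816) (T.l 0)) (T.a (T.a (T.l 816) (T.l 0)) (T.l 1024)))))) (T.b (T.b (T.b (T.a (T.a (T.l 816) (T.l 0)) (T.a (T.a (T.l 816) (T.l 0)) (T.l 1024))) (T.a (T.a (T.l 816) (T.a (T.l 816) (T.l 816))) (T.a (T.a (T.l 816) (T.a (T.l 816) (T.l 1024))) (T.l 1024)))) (T.b (T.a (T.a (T.l 816) (T.a (T.l 816) (T.l 816))) (T.a (T.a (T.l 816) (T.a (T.l 816) (T.l 1024))) (T.l 1024))) (T.a (T.a (T.l 816) (T.a (T.l 816) (T.l 816))) (T.a (T.a (T.l 816) (T.a (T.l 816) (T.l 1024))) (T.l 1024))))) (T.b (T.b (T.a (T.a (T.l 816) (T.a (T.l 816) (T.l 816))) (T.a (T.a (T.l 816) (T.a (T.l 816) (T.l 1024))) (T.l 1024))) (T.a (T.a (T.l 816) (T.a (T.l 816) (T.l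 816))) (T.a (T.a (T.l 816) (T.a (T.l 816) (T.l 1024))) (T.l 1024)))) (T.b (T.a (T.a (T.l 816) (T.a (T.a (T.l 816) (T.l 816)) (T.l 816))) (T.a (T.a (T.l 816) (T.a (T.a (T.l 816) (T.l 816)) (T.l 1024))) (T.l 1024))) (T.a (T.a (T.c (T.l 816) (T.l 816)) (T.a (T.a (T.l 816) (T.c (T.a (T.l 820) (T.l 884)) (T.a (T.l 820) (T.l 820)))) (T.a (T.c (T.b (T.l 816) (T.a (T.l 884) (T.c (T.l 884) (T.l 820)))) (T.b (T.l 816) (T.a (T.l 820) (T.c (T.l 820) (T.l 820))))) (T.c (T.b (T.l 816) (T.c (T.b (T.l 816) (T.a (T.l 884) (T.c (T.l 884) (T.l 884)))) (T.a (T.l 884) (T.c (T.l 884) (T.l 884))))) (T.b (T.l 816) (T.c (T.a (T.l 884) (T.c (T.l 884) (T.l 884))) (T.a (T.l 820) (T.l 884)))))))) (T.a (T.a (T.a (T.c (T.b (T.l 816) (T.c (T.b (T.l 816) (T.c (T.b (T.l 816) (T.a (T.a (T.l 884) (T.l 884)) (T.a (T.l 884) (T.l 884)))) (T.a (T.l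 884) (T.a (T.l 884) (T.l 884))))) (T.b (T.l 816) (T.c (T.a (T.l 884) (T.a (T.l 884) (T.l 884))) (T.a (T.l 884) (T.a (T.l 884) (T.l 884))))))) (T.b (T.l 816) (T.c (T.b (T.l 816) (T.c (T.a (T.l 884) (T.l 884)) (T.a (T.l 884) (T.l 884)))) (T.b (T.l 816) (T.a (T.l 884) (T.l 884)))))) (T.c (T.b (T.l 816) (T.c (T.b (T.l 816) (T.c (T.b (T.l 816) (T.a (T.a (T.l 884) (T.l 884)) (T.a (T.l 884) (T.l 884)))) (T.b (T.l 816) (T.a (T.a (T.l 884) (T.l 884)) (T.a (T.l 884) (T.l 884)))))) (T.b (T.l 816) (T.c (T.b (T.l 816) (T.a (T.a (T.l 884) (T.l 884)) (T.a (T.l 884) (T.l 884)))) (T.b (T.l 816) (T.a (T.a (T.l 884) (T.l 884)) (T.a (T.l 884) (T.l 884)))))))) (T.b (T.l 816) (T.c (T.b (T.l 816) (T.c (T.b (T.l 816) (T.a (T.a (T.l 884) (T.l 884)) (T.a (T.l 884) (T.l 884)))) (T.b (T.l 816) (T.a (T.a (T.l 884) (T.l 884)) (T.a (T.l 884)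 (T.l 884)))))) (T.b (T.l 816) (T.c (T.b (T.l 816) (T.a (T.l 884) (T.l 884))) (T.a (T.l 884) (T.l 884)))))))) (T.a (T.a (T.c (T.b (T.l 816) (T.c (T.b (T.l 816) (T.c (T.a (T.l 884) (T.l 884)) (T.a (T.l 884) (T.l 884)))) (T.b (T.l 816) (T.a (T.l 884) (T.l 884))))) (T.b (T.l 816) (T.c (T.a (T.l 884) (T.l 884)) (T.a (T.l 884) (T.l 884))))) (T.a (T.c (T.b (T.l 816) (T.c (T.b (T.l 816) (T.a (T.l 884) (T.a (T.c (T.a (T.l 884) (T.l 884)) (T.c (T.l 884) (T.l 884))) (T.l 1024)))) (T.a (T.l 884) (T.b (T.l 816) (T.a (T.c (T.l 884) (T.l 884)) (T.l 1024)))))) (T.b (T.l 816) (T.a (T.l 884) (T.c (T.a (T.l 884) (T.l 884)) (T.a (T.l 884) (T.l 884)))))) (T.l 1024))) (T.l 1024))) (T.l 1024))))))))), by decide +kernel⟩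

theorem B102L_200_1_3_1 :
    ∃ t, chk3 (onCell 0 50331648 0 1073741824 50331648 16777216 (corTK [[⟨0, 1, 2, 33554432⟩, ⟨1, 0, 1, 33554432⟩, ⟨2, 1, 0, 15728640⟩, ⟨0, 0, 0, 1040187392⟩, ⟨0, 1, 0, 83886080⟩, ⟨1, 0, 0, 83886080⟩, ⟨1, 1, 0, 1040187392⟩]] false 3 c0N cB102L gN2q1 gN0q2 gN0q0 gN1q0 true true)) t 1 3 1 = true :=
  ex3_b B102L_200_1_6_1 B102L_200_1_7_1
theorem B102L_200 :
    ∃ t, chk3 (onCell 0 50331648 0 1073741824 50331648 16777216 (corTK [[⟨0, 1, 2, 33554432⟩, ⟨1, 0, 1, 33554432⟩, ⟨2, 1, 0, 15728640⟩, ⟨0, 0, 0, 1040187392⟩, ⟨0, 1, 0, 83886080⟩, ⟨1, 0, 0, 83886080⟩, ⟨1, 1, 0, 1040187392⟩]] false 3 c0N cB102L gN2q1 gN0q2 gN0q0 gN1q0 true true)) t 1 1 1 = true :=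
  ex3_b B102L_200_1_2_1 B102L_200_1_3_1

def B102L_201 :
    ∃ t, chk3 (onCell 0 50331648 0 1073741824 50331648 16777216 (corTK [[⟨0, 1, 2, 33554432⟩, ⟨1, 0, 1, 33554432⟩, ⟨2, 1, 0, 15728640⟩, ⟨0, 0, 0, 1040187392⟩, ⟨0, 1, 0, 83886080⟩, ⟨1, 0, 0, 83886080⟩, ⟨1, 1, 0, 1040187392⟩]] false 3 c0N cB102L gN2q1 gN0q2 gN1q0 gN2q0 true true)) t 1 1 1 = true :=
  ⟨(T.b (T.b (T.a (T.a (T.a (T.l 204) (T.l 204)) (T.l 0)) (T.b (T.l 0) (T.l 0))) (T.b (T.a (T.a (T.a (T.l 204) (T.l 204)) (T.l 204)) (T.l 0)) (T.a (T.a (T.a (T.l 204) (T.l 204)) (T.l 204)) (T.l 0)))) (T.l 1)), by decide +kernel⟩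

def B102L_202 :
    ∃ t, chk3 (onCell 0 50331648 0 1073741824 50331648 16777216 (corTK [[⟨0, 1, 2, 33554432⟩, ⟨1, 0, 1, 33554432⟩, ⟨2, 1, 0, 15728640⟩, ⟨0, 0, 0, 1040187392⟩, ⟨0, 1, 0, 83886080⟩, ⟨1, 0, 0, 83886080⟩, ⟨1, 1, 0, 1040187392⟩]] false 3 c0N cB102L gN2q1 gN0q2 gN2q0 gN3q0 true false)) t 1 1 1 = true :=
  ⟨(T.b (T.b (T.a (T.a (T.a (T.l 204) (T.l 204)) (T.l 204)) (T.l 0)) (T.l 1)) (T.l 1)), by decide +kernel⟩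

end Pool.Agent.Strip051.G.I3_64_1_16.Tab.CN
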