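import Pool.Agent.Strip051.G.I3_64_1_16.Tab
import Pool.Agent.Strip051.PB.RowK

/-! # Certificates N3 (generated) -/

set_option linter.all false
set_option maxRecDepth 100000

namespace Pool.Agent.Strip051.G.I3_64_1_16.Tab.C.NB00

open Pool.Agent.Strip051.PB Pool.Agent.Strip051.PB.T
open Pool.Agent.Strip051.G.I3_64_1_16.Tab

noncomputable def f_pp_112 : ℕ → ℕ → ℕ → ℕ → Bool := onCell 536870912 536870912 0 536870912 50331648 16777216
    (rowNK 3 0 false true true .dn 1 1 2 (qsf 536870912 536870912 0 536870912 1) ndN0q1 ndN0q2 pcN1 Cut.none Ext.none)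

def k0_pp_112 : ∃ t, chk3 f_pp_112 t 1 1 1 = true :=
  ⟨(a (b (a (b (a (b (a (a (l 16886840) (l 45265096743)) (b (a (l 16833896) (l 16859520)) (l 114521369047))) (a (l 126869560711) (l 3))) (b (a (l 125795787655) (l 3)) (l 3))) (l 3)) (l 3)) (l 3)) (l 1)), by decide +kernel⟩

theorem c_pp_112 : CertN 536870912 536870912 0 536870912 50331648 16777216 3 false true true .dn 1 1 2
    ndN0q1 ndN0q2 pcN1 Cut.none Ext.none :=
  certNK0 (fam := false) (s1 := true) (s2 := true) (a := 1) (b := 1) (c := 2) (cn := .dn) (n1 := ndN0q1) (n2 := ndN0q2) (pc := pcN1) (cut := Cut.none) (xt := Ext.none) (P1 := 536870912) (W1 := 536870912) (P2 := 0) (W2 := 536870912) (P3 := 50331648) (W3 := 16777216) (N0 := 3)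
    rfl rfl rfl k0_pp_112

noncomputable def f_pp_202 : ℕ → ℕ → ℕ → ℕ → Bool := onCell 0 536870912 0 536870912 50331648 16777216
    (rowNK 3 0 false true true .pp 2 0 2 (qsf 0 536870912 0 536870912 0) ndN0q2 ndN0q2 pcN0 Cut.none Ext.none)

def k0_pp_202 : ∃ t, chk3 f_pp_202 t 1 1 1 = true :=
  ⟨(l 3), by decide +kernel⟩

theorem c_pp_202 : CertN 0 536870912 0 536870912 50331648 16777216 3 false true true .pp 2 0 2
    ndN0q2 ndN0q2 pcN0 Cut.none Ext.none :=
  certNK0 (fam := false) (s1 := true) (s2 := true) (a := 2) (b := 0) (c := 2) (cn := .pp) (n1 := ndN0q2) (n2 := ndN0q2) (pc := pcN0) (cut := Cut.none) (xt := Ext.none) (P1 := 0) (W1 := 536870912) (P2 := 0) (W2 := 536870912) (P3 := 50331648) (W3 := 16777216) (N0 := 3)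
    rfl rfl rfl k0_pp_202

noncomputable def f_pm_001 : ℕ → ℕ → ℕ → ℕ → Bool := onCell 0 536870912 536870912 536870912 50331648 16777216
    (rowNK 3 0 false true false .up 0 0 1 (qsf 0 536870912 536870912 536870912 0) ndN0q0 ndN0q1 pcN0 Cut.none Ext.none)

def k0_pm_001 : ∃ t, chk3 f_pm_001 t 2 1 1 = true :=
  ⟨(b (l 4) (b (b (l 4) (l 2)) (l 2))), by decide +kernel⟩

def k1_pm_001 : ∃ t, chk3 f_pm_001 t 3 2 1 = true :=
  ⟨(b (l 4) (a (l 4) (b (a (l 4) (b (a (l 4) (b (l 4) (a (l 4) (l 111367321367)))) (a (b (l 4) (a (l 4) (l 108682978503))) (a (b (l 110293575287) (l 16877392)) (l 16913056))))) (a (b (a (l 4) (b (l 4) (a (l 4) (l 109219862695)))) (a (b (a (l 4) (l 116736062583)) (a (l 111367380807) (b (l 93650577351) (l 16877216)))) (a (l 88282135879) (l 16967432)))) (b (a (b (a (l 105998640167) (l 16862016)) (l 16918752)) (l 16919280)) (l 17127576)))))), by decide +kernel⟩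

def k2_pm_001 : ∃ t, chk3 f_pm_001 t 3 3 1 = true :=
  ⟨(b (a (a (b (a (l 4) (b (l 4) (b (l 4) (a (l 4) (b (l 4) (a (l 107609175847) (l 93113784311))))))) (b (a (l 2) (a (l 2) (b (b (l 160088626263) (l 2)) (l 2)))) (l 2))) (b (b (a (l 4) (b (a (l 4) (l 109756800359)) (a (b (l 108682962103) (l 67344012871)) (a (l 87745177079) (l 16913008))))) (a (b (a (b (l 4) (l 108682995623)) (b (l 88281923703) (l 93113907799))) (a (a (b (l 83986898247) (l 16929736)) (b (l 92040092567) (l 16915840))) (a (l 17032704) (l 17014056)))) (b (a (b (l 16943192) (l 16936288)) (l 17020056)) (a (l 17074208) (l 17102040))))) (b (a (b (a (a (l 17108064) (l 17095416)) (l 17185040)) (a (l 17314008) (l 17279504))) (b (l 17321136) (l 17411616))) (a (b (l 137004585047) (l 2)) (b (l 17594120) (l 17830152)))))) (b (b (a (b (a (b (a (l 96335026583) (l 16886000)) (l 16982504)) (l 16937912)) (a (a (l 16956920) (l 16985448)) (l 17060240))) (l 17166568)) (a (a (a (l 17200944) (l 17185320)) (l 17276776))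 (l 17289080))) (a (b (a (l 17555152) (l 17470976)) (a (l 17906592) (l 17848944))) (b (a (l 17492672) (l 17477928)) (l 17925680))))) (a (b (a (l 2) (b (a (l 2) (l 112847034551)) (l 2))) (l 2)) (a (b (b (a (l 18451616) (l 18350224)) (a (l 109627306775) (b (l 18824072) (l 19183296)))) (b (b (a (l 2) (l 128954739223)) (l 2)) (l 2))) (b (b (l 18372376) (b (l 18750464) (a (l 19064248) (l 18877080)))) (b (b (a (l 18737216) (l 18425624)) (a (l 18167152) (l 17854952))) (b (l 59158435815) (b (l 18105576) (l 18576104)))))))), by decide +kernel⟩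

theorem s3_pm_001 : ∃ t, chk3 f_pm_001 t 3 1 1 = true := ex3_b k1_pm_001 k2_pm_001

theorem s4_pm_001 : ∃ t, chk3 f_pm_001 t 1 1 1 = true := ex3_a k0_pm_001 s3_pm_001

theorem c_pm_001 : CertN 0 536870912 536870912 536870912 50331648 16777216 3 false true false .up 0 0 1
    ndN0q0 ndN0q1 pcN0 Cut.none Ext.none :=
  certNK0 (fam := false) (s1 := true) (s2 := false) (a := 0) (b := 0) (c := 1) (cn := .up) (n1 := ndN0q0) (n2 := ndN0q1) (pc := pcN0) (cut := Cut.none) (xt := Ext.none) (P1 := 0) (W1 := 536870912) (P2 := 536870912) (W2 := 536870912) (P3 := 50331648) (W3 := 16777216) (N0 := 3)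
    rfl rfl rfl s4_pm_001

noncomputable def cut_pm_011 : Cut := Cut.of [[⟨0, 0, 0, 50331648⟩, ⟨1, 1, 0, 50331648⟩, ⟨2, 1, 0, 50331648⟩], [⟨0, 0, 1, 25165824⟩, ⟨1, 1, 2, 25165824⟩, ⟨2, 1, 0, 8388608⟩, ⟨0, 0, 0, 83886080⟩, ⟨0, 1, 0, 1040187392⟩, ⟨1, 0, 0, 1040187392⟩, ⟨1, 1, 0, 83886080⟩]]

noncomputable def f_pm_011 : ℕ → ℕ → ℕ → ℕ → Bool := onCell 0 536870912 536870912 536870912 50331648 16777216
    (rowNK 3 0 false true false .pnn 0 1 1 (qsf 0 536870912 536870912 536870912 1) ndN0q0 ndN0q1 pcN1 cut_pm_011 Ext.none)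

def k0_pm_011 : ∃ t, chk3 f_pm_011 t 2 2 1 = true :=
  ⟨(l 4), by decide +kernel⟩

def k1_pm_011 : ∃ t, chk3 f_pm_011 t 2 6 1 = true :=
  ⟨(a (l 4) (b (l 4) (a (l 4) (b (l 4) (a (b (l 4) (a (l 4) (b (l 4) (l 116199099719)))) (b (a (l 4) (b (l 109219779959) (l 108682890743))) (a (b (l 114588500327) (a (l 93113615783) (l 16804344))) (b (l 16820424) (l 16860056))))))))), by decide +kernel⟩

def k2_pm_011 : ∃ t, chk3 f_pm_011 t 2 14 1 = true :=
  ⟨(a (a (l 4) (b (l 4) (a (l 4) (b (l 4) (a (l 4) (b (l 4) (a (b (l 4) (a (l 4) (b (l 4) (l 104924730983)))) (b (a (l 4) (l 99019175495)) (a (b (l 100629783975) (l 39963353127)) (l 16788208)))))))))) (a (b (a (l 4) (b (l 4) (a (b (l 4) (a (l 4) (l 111904121175))) (b (a (l 108682870759) (l 93650483863)) (a (b (l 100092927863) (l 16799288)) (l 16825440)))))) (a (b (a (l 4) (b (a (l 4) (l 112977857255)) (a (b (l 110830355303) (a (l 107609094519) (l 59290721511))) (b (a (l 98482308071) (l 16798912)) (l 16817992))))) (a (b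 (a (b (l 4) (a (l 108682839975) (l 87744884791))) (b (a (l 108682838183) (b (l 106535348679) (l 16791752))) (a (l 39963360951) (l 16796592)))) (b (a (a (b (l 83449913431) (l 16794992)) (l 16810808)) (l 16831464)) (l 16812200))) (b (a (b (l 16790080) (l 16815752)) (l 16822936)) (l 16871768)))) (b (a (b (a (b (l 110293459047) (a (l 80228695127) (l 16795640))) (b (l 44258341783) (l 16831472))) (l 16807720)) (b (a (l 16858032) (l 16903176)) (l 16962832))) (a (b (l 16916952) (l 17051344)) (l 17092864))))) (b (a (b (a (b (l 110293526439) (l 92576789143)) (b (a (l 108145987575) (l 75396923847)) (l 16832416))) (a (b (a (l 42110872167) (l 16839208)) (l 16869976)) (b (l 16859080) (l 16972656)))) (b (b (l 16842424) (l 17053376)) (l 17175200))) (a (b (a (l 16923064) (l 17085632)) (l 17210920)) (b (l 17192688) (l 17346920)))))), by decide +kernel⟩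

def k3_pm_011 : ∃ t, chk3 f_pm_011 t 8 30 1 = true :=
  ⟨(a (l 4) (b (l 4) (a (l 4) (b (l 4) (a (l 4) (b (l 4) (a (l 4) (b (l 4) (a (b (l 4) (a (l 4) (b (l 4) (l 82913011015)))) (b (a (l 4) (b (l 100629748391) (a (l 100629746439) (l 60364429239)))) (a (b (a (l 101703488247) (l 65733138455)) (l 16781960)) (l 16781264)))))))))))), by decide +kernel⟩

def k4_pm_011 : ∃ t, chk3 f_pm_011 t 18 60 1 = true :=
  ⟨(a (l 4) (b (l 4) (a (l 4) (b (l 4) (a (b (l 4) (a (l 4) (b (l 100629757703) (a (l 102240366711) (l 66806889319))))) (b (a (l 104924737815) (b (l 103850982631) (a (l 95797915367) (l 16784920)))) (a (b (a (l 100629753767) (l 59827567239)) (l 16789560)) (l 16788200)))))))), by decide +kernel⟩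

def k5_pm_011 : ∃ t, chk3 f_pm_011 t 36 61 1 = true :=
  ⟨(b (a (l 4) (b (l 4) (a (b (l 4) (a (l 4) (b (l 4) (l 103314113591)))) (b (a (l 4) (b (l 4) (l 102777242791))) (a (b (l 102777242727) (a (b (l 99019138439) (l 72175593975)) (b (l 67343755783) (l 16784856)))) (b (a (b (l 101166622167) (l 63585659431)) (l 39426468503)) (l 16793840))))))) (a (b (a (l 4) (b (l 4) (a (b (l 4) (a (l 102777243895) (b (l 101166619383) (l 49090141719)))) (a (b (l 101703502103) (l 29762788887)) (b (b (l 96334781255) (l 16780680)) (l 16792280)))))) (a (b (a (b (l 4) (a (l 103850985687) (b (l 102240361127) (l 63585656359)))) (b (a (l 103314114775) (b (l 101703490247) (l 57143205223))) (b (a (l 60364430631) (l 16785384)) (l 16778504)))) (a (b (a (b (a (l 97408520983) (l 56069462007)) (l 16783296)) (l 16782672)) (l 16778424)) (l 16787928))) (b (a (a (b (b (l 52848238039) (l 16786096)) (l 16798088)) (l 16777864)) (l 16791080)) (l 16814352)))) (b (a (b (a (b (l 103850984471) (a (l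 97945405783) (b (l 86134234023) (l 16781984)))) (b (a (l 90429213111) (b (l 75396819207) (l 16783392))) (l 16780368))) (a (b (l 16781512) (l 16784520)) (l 16794088))) (b (l 16782952) (l 16820552))) (a (b (l 16817608) (l 16870800)) (l 16890072))))), by decide +kernel⟩

def k6_pm_011 : ∃ t, chk3 f_pm_011 t 37 61 1 = true :=
  ⟨(b (a (b (a (b (l 4) (a (l 4) (b (l 4) (l 101166635047)))) (b (a (l 4) (b (l 4) (l 90429216407))) (a (b (l 97945409367) (a (l 57143210871) (l 16787216))) (b (l 36742116279) (l 16800016))))) (a (b (a (b (l 102777242759) (a (b (l 101166622231) (l 16783720)) (l 16784128))) (b (a (l 63585662199) (l 16785648)) (l 16786416))) (l 16791120)) (l 16789000))) (b (a (b (a (b (a (l 102240366935) (l 83449892151)) (l 16783688)) (l 16784968)) (l 16796976)) (l 16794368)) (a (l 16844312) (l 16898960)))) (a (b (a (b (l 16823296) (l 16876584)) (l 16895112)) (l 16921576)) (l 16873336))), by decide +kernel⟩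

def k7_pm_011 : ∃ t, chk3 f_pm_011 t 19 30 1 = true :=
  ⟨(b (a (b (a (l 4) (b (a (l 4) (b (l 4) (l 106535355559))) (a (b (l 106535356247) (a (l 100092897943) (b (l 90966100247) (l 16787384)))) (b (a (l 88818618743) (l 44795187399)) (l 16782752))))) (a (b (a (b (l 4) (a (l 104924737255) (b (l 103314111207) (l 53921989303)))) (b (a (l 104387865783) (b (l 99556014327) (l 16784160))) (a (l 31373410407) (l 16784176)))) (b (a (a (b (l 59827569687) (l 16782392)) (l 16780952)) (l 16805568)) (l 16798264))) (b (a (l 16785952) (l 16804592)) (l 16847488)))) (b (a (b (a (b (l 105998494471) (a (l 80765554535) (l 16787864))) (b (a (l 79154941159) (l 16791360)) (l 16789360))) (l 16794344)) (l 16805760)) (a (b (l 16871744) (l 16950544)) (l 16958856)))) (a (b (a (b (a (l 16848640) (l 16902160)) (l 16948088)) (l 16938032)) (l 16948672)) (b (l 17047464) (l 17190928)))), by decide +kernel⟩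

def k8_pm_011 : ∃ t, chk3 f_pm_011 t 16 62 1 = true :=
  ⟨(a (l 4) (b (l 4) (a (l 4) (b (l 4) (a (l 4) (b (l 4) (a (l 4) (b (l 4) (a (l 4) (b (l 4) (b (a (l 4) (a (l 4) (l 71638714647))) (a (l 6) (a (l 41037072295) (l 16780032)))))))))))))), by decide +kernel⟩

def k9_pm_011 : ∃ t, chk3 f_pm_011 t 34 124 1 = true :=
  ⟨(a (l 4) (b (l 4) (a (l 4) (b (l 4) (a (l 4) (b (l 4) (a (a (l 112977781607) (b (l 4) (a (l 110293424695) (l 60364426007)))) (a (b (l 110293430887) (l 32984008711)) (b (a (l 90429206167) (l 56069458711)) (l 16781432)))))))))), by decide +kernel⟩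

def k10_pm_011 : ∃ t, chk3 f_pm_011 t 68 125 1 = true :=
  ⟨(b (a (l 4) (b (l 4) (a (l 4) (b (l 4) (a (l 134452617767) (b (l 134452616343) (b (a (l 126936417447) (l 41573942823)) (a (l 44258297495) (l 16777872))))))))) (a (b (a (l 4) (b (l 4) (a (l 4) (b (l 4) (b (a (l 4) (a (l 81839261863) (l 48553264839))) (a (a (l 89892329879) (l 51237619479)) (l 16779832))))))) (a (b (a (l 4) (b (l 4) (b (a (l 4) (a (l 97408522855) (l 59827554311))) (a (a (l 98482264727) (l 62511908935)) (l 22246590087))))) (a (a (b (a (l 119420225495) (b (l 4) (l 68954360023))) (b (a (l 38352717687) (l 16777368)) (l 16782144))) (b (b (a (l 97945393879) (l 66270005399)) (l 26541557543)) (l 16781776))) (a (a (b (l 19562235975) (l 16786504)) (l 16781560)) (l 16781048)))) (b (a (b (b (a (l 4) (a (l 92576684503) (l 54458845031))) (a (a (l 94724168231) (l 57143199671)) (l 16778616))) (c (l 9361688151) (l 16777984))) (b (l 16777912) (l 16785848))) (a (b (l 16785904) (l 16785104)) (l 16784720)))))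 (b (a (b (a (l 135526359703) (b (l 139284449399) (b (a (l 125862675943) (c (l 51237619623) (l 50700748647))) (a (a (l 72175585207) (l 39426459127)) (l 16782240))))) (a (b (b (a (l 4) (a (l 75933681671) (l 42647684679))) (a (a (l 78618036311) (l 45332039319)) (l 16779728))) (l 16779120)) (b (l 16779016) (l 16785848)))) (b (a (b (b (a (l 128547030343) (l 46405781223)) (a (c (l 48553264967) (l 48553264903)) (l 16777384))) (l 16777264)) (l 16778448)) (l 16777152))) (a (b (a (b (l 16785848) (l 16785096)) (l 16784720)) (l 16778344)) (b (l 16784616) (l 16782056)))))), by decide +kernel⟩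

def k11_pm_011 : ∃ t, chk3 f_pm_011 t 69 125 1 = true :=
  ⟨(b (b (a (a (l 4) (b (l 4) (a (b (l 4) (b (l 4) (a (l 4) (a (l 137136964471) (l 65733133927))))) (b (a (l 4) (a (l 130694514167) (b (l 4) (l 58753812007)))) (b (a (a (l 135526351719) (l 61975037479)) (l 16778296)) (l 16779104)))))) (a (a (a (b (l 4) (b (b (l 66270005735) (l 16778488)) (l 16781408))) (b (b (l 4) (b (l 4) (l 63585651175))) (l 16779160))) (b (a (b (l 112977785511) (a (l 49090136311) (l 16778400))) (b (b (l 111367172071) (l 58216942055)) (l 16780280))) (l 16785520))) (a (a (b (a (b (l 44795168967) (l 16782240)) (l 16778608)) (l 16789576)) (l 16777520)) (l 16781952)))) (a (a (b (a (b (l 4) (a (l 4) (l 131768258407))) (b (a (l 4) (a (l 134989481543) (b (l 4) (l 72175584743)))) (a (b (l 122641452407) (l 34057749767)) (l 16777984)))) (a (b (a (b (l 124788938871) (l 39426459143)) (l 23857202727)) (l 16779048)) (l 16780952))) (b (a (b (b (a (a (l 139284448135) (l 68954359495)) (l 16777944))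 (l 16777984)) (l 16780808)) (l 16783296)) (l 16786568))) (a (c (l 16780904) (l 16780288)) (l 16784736)))) (a (b (b (a (l 16782176) (l 16790264)) (a (l 16782864) (l 16792168))) (b (a (l 16781344) (l 16792088)) (a (l 16777384) (l 16789824)))) (a (b (l 16779432) (a (l 16780784) (l 16788520))) (b (l 16795944) (l 16780088))))), by decide +kernel⟩

def k12_pm_011 : ∃ t, chk3 f_pm_011 t 35 62 1 = true :=
  ⟨(b (a (b (a (l 4) (b (l 4) (a (b (l 4) (l 109219688407)) (b (a (l 4) (l 106535332439)) (a (b (l 105461594503) (a (l 77544299959) (l 35668364519))) (b (a (l 72712461767) (l 16779656)) (l 16784792))))))) (a (b (a (l 4) (b (l 4) (a (a (l 104387846903) (b (l 4) (a (l 71638719015) (l 42110814759)))) (b (a (l 92039819799) (l 47479524535)) (l 16782232))))) (b (a (a (a (l 110830297895) (b (l 4) (b (l 100092882839) (l 16778480)))) (b (a (l 102240367159) (a (l 78081169943) (l 46942653351))) (l 16778432))) (l 7214205639)) (a (a (b (l 21172848583) (l 16785984)) (l 16789656))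 (l 16799936)))) (b (a (b (a (b (l 106535336375) (a (l 87207976359) (l 43721428071))) (b (a (l 82376138167) (l 39426460871)) (l 16783480))) (l 16779280)) (l 16779912)) (a (l 16787776) (l 16824440))))) (b (a (b (b (a (l 4) (a (l 4) (l 97408532151))) (a (l 104924721047) (b (a (l 94187305351) (l 35668365959)) (a (c (l 38889591159) (l 38352720439)) (l 16787544))))) (a (b (b (a (l 101703498103) (a (l 57680073335) (l 16780816))) (a (a (l 61975040599) (l 16780224)) (l 16786152))) (l 16782560)) (l 16781088))) (b (a (b (a (b (l 86671107367) (l 32447140391)) (l 16779880)) (l 16785768)) (l 16784616)) (l 16785496))) (a (b (l 16785776) (l 16828536)) (b (l 16856808) (l 16884896))))) (a (b (a (a (b (l 16781112) (l 16798664)) (b (l 16795336) (l 16835120))) (b (a (l 16831816) (l 16848344)) (c (l 16880640) (l 16819488)))) (a (b (a (l 16811680) (l 16828872)) (a (l 16798240) (l 16817688))) (a (b (l 16868152) (l 16859080)) (b (l 16887328) (l 16880208))))) (b (a (b (l 16853624)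 (l 16876360)) (l 16882048)) (a (b (l 16896264) (l 16891808)) (a (l 16957840) (l 16979272)))))), by decide +kernel⟩

def k13_pm_011 : ∃ t, chk3 f_pm_011 t 16 63 1 = true :=
  ⟨(b (a (l 6) (a (l 6) (b (a (l 6) (b (a (l 6) (b (a (l 6) (a (l 6) (l 16781216))) (l 6))) (l 6))) (l 6)))) (l 6)), by decide +kernel⟩

def k14_pm_011 : ∃ t, chk3 f_pm_011 t 34 63 1 = true :=
  ⟨(b (a (b (b (a (a (a (b (b (l 16786080) (l 16785120)) (l 16784016)) (b (l 16784736) (l 16783256))) (b (c (l 16778336) (l 16778392)) (c (l 16776848) (l 16776912)))) (b (a (l 16776848) (l 16780552)) (a (l 16775352) (l 16779048)))) (b (a (a (l 16773320) (l 16771472)) (a (l 16773864) (l 16777544))) (a (a (l 6) (l 16769992)) (a (c (l 16777576) (l 16772424)) (l 16776056))))) (a (b (b (a (l 6) (l 16768528)) (l 6)) (l 6)) (b (b (a (l 16766968) (l 16774568)) (a (l 16765496) (a (l 16763000) (l 16762200)))) (b (a (l 16764032) (a (l 16761528) (l 16760728))) (a (l 6) (a (l 16760064) (l 16759256))))))) (b (b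 (a (a (a (l 16778632) (l 16780384)) (a (l 16777680) (l 16775632))) (a (a (l 16774168) (l 16783688)) (c (l 16837952) (l 16764832)))) (b (a (a (l 16775968) (l 16767512)) (a (l 16789104) (l 16791328))) (a (a (l 16774472) (l 16783352)) (a (l 16778392) (l 16783192))))) (a (a (b (b (l 16772976) (l 16771480)) (a (b (l 16759920) (l 16758440)) (b (l 16759104) (l 16757624)))) (b (b (l 16771360) (l 16769864)) (b (l 16768368) (a (l 16756808) (l 16755984))))) (b (a (b (l 16764496) (l 16778712)) (b (l 16772232) (l 16779144))) (b (a (l 16766720) (l 16761664)) (a (l 16765224) (l 16774032))))))) (a (b (a (l 6) (a (l 6) (b (b (l 16759504) (l 6)) (l 6)))) (l 6)) (a (a (b (b (a (b (l 16756976) (l 16757048)) (b (l 16756152) (l 14))) (a (l 6) (l 14))) (l 6)) (b (b (b (a (l 16755328) (l 16754496)) (l 14)) (l 14)) (l 14))) (b (b (b (b (a (l 16753616) (l 16751936)) (l 14)) (l 14)) (l 14)) (l 14))))), by decide +kernel⟩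

def k15_pm_011 : ∃ t, chk3 f_pm_011 t 35 63 1 = true :=
  ⟨(b (b (b (a (a (a (l 16774584) (l 16779608)) (a (l 16823712) (l 16868320))) (a (c (l 16991984) (l 16837480)) (l 16973344))) (a (a (a (a (l 16785664) (l 16777632)) (a (l 16790728) (l 16803944))) (a (l 16781984) (l 16808784))) (a (a (l 16877552) (l 16925224)) (l 16943856)))) (a (a (a (b (a (l 16757248) (l 16772728)) (b (l 16776480) (l 16769568))) (b (a (l 16777760) (l 16772312)) (b (l 16770032) (l 16777056)))) (a (b (a (l 16787808) (l 16803272)) (b (l 16784088) (l 16773376))) (b (a (l 16797696) (l 16833984)) (b (l 16818512) (a (l 16780448) (l 16798880)))))) (b (a (a (l 16793864) (l 16865792)) (a (l 16937200) (l 17008024))) (a (a (b (l 16852240) (a (l 16817096) (l 16835104))) (b (l 16885280) (l 16840760))) (c (l 17091792) (b (a (l 16929488) (l 16961672)) (l 16878672))))))) (b (b (b (b (b (a (a (c (l 16770312) (l 16760328)) (c (l 16912072) (l 16763592))) (c (l 16979880) (a (l 16822008) (l 16917416))))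 (l 14)) (l 14)) (l 14)) (l 14)) (l 14))), by decide +kernel⟩

def k16_pm_011 : ∃ t, chk3 f_pm_011 t 9 31 1 = true :=
  ⟨(a (b (a (b (a (a (b (b (l 16810680) (l 16862512)) (l 16886248)) (b (l 16861816) (l 16944032))) (b (l 16894608) (l 16999304))) (a (b (a (l 16962704) (l 17001704)) (a (l 17011456) (l 17054008))) (b (l 17059648) (l 17116248)))) (b (a (l 16955568) (l 17107952)) (a (l 17165032) (l 17236832)))) (a (b (b (a (a (l 16966640) (l 17098560)) (a (l 17144880) (l 17189488))) (a (a (b (l 17029320) (a (l 17002552) (l 17096184))) (b (l 17104328) (l 17077576))) (a (b (l 17176936) (l 17197504)) (l 17217928)))) (b (b (a (a (a (l 16944640) (l 17041352)) (l 17089648)) (a (l 17172376) (l 17273936))) (a (c (a (l 17180504) (l 17248440)) (l 14)) (a (a (l 17210536) (l 17242928)) (l 17291968)))) (a (c (a (b (l 17186944) (l 14)) (b (l 17261856) (l 17270616))) (l 14)) (a (b (l 17131456) (c (l 17344696) (l 14))) (a (b (l 17287368) (l 17190528)) (b (l 17322376) (l 17289736)))))))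 (b (a (b (b (l 17238480) (l 17266704)) (l 17311176)) (b (l 17330552) (l 17395272))) (b (a (a (l 17341152) (l 17393032)) (l 17461024)) (a (a (b (l 17372792) (l 17387528)) (l 17443856)) (l 17523184)))))) (b (b (a (l 17203824) (l 17318064)) (b (l 17361240) (a (l 17367368) (l 17478408)))) (b (a (a (b (l 17400056) (l 17466256)) (l 17492352)) (l 17562352)) (a (b (l 17565776) (l 17635704)) (l 17683752))))), by decide +kernel⟩

def k17_pm_011 : ∃ t, chk3 f_pm_011 t 5 15 1 = true :=
  ⟨(a (b (a (b (a (b (a (l 16883760) (l 16979784)) (l 17061568)) (l 17023656)) (a (l 17192024) (l 17327024))) (b (l 17156152) (l 17447800))) (b (a (b (a (l 17417728) (l 17503168)) (a (b (l 17510448) (l 17561880)) (l 17600976))) (b (a (l 17573616) (l 17631224)) (l 17650696))) (b (a (l 17833048) (l 17663680)) (a (a (l 17717232) (l 17715560)) (l 17667576))))) (b (b (l 17453200) (b (l 17591008) (a (l 17623376) (l 17708088)))) (b (a (b (l 17681280) (l 17654864)) (l 17693224)) (b (l 17808976)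 (a (l 17646352) (l 17783280)))))), by decide +kernel⟩

def k18_pm_011 : ∃ t, chk3 f_pm_011 t 3 1 1 = true :=
  ⟨(b (b (l 1) (a (l 4) (l 1))) (b (a (b (a (b (l 4) (a (l 4) (b (l 4) (a (l 4) (l 119957254711))))) (b (l 1) (a (b (l 1) (l 130493356551)) (l 1)))) (a (b (a (b (l 4) (a (l 119420400167) (l 84523761383))) (b (a (l 116736044135) (l 75397003207)) (a (l 16824112) (l 16888072)))) (a (b (a (b (l 89892420247) (l 16817792)) (l 16838776)) (a (l 16881256) (l 16970160))) (b (l 17020568) (l 17065392)))) (b (a (b (l 16865232) (l 16979464)) (l 17068320)) (l 17352568)))) (b (l 1) (a (l 164317593031) (l 1)))) (a (b (a (b (a (b (l 17055712) (l 17182920)) (l 17239776)) (l 17613416)) (b (l 17400120) (l 17639728))) (b (a (b (l 17667736) (a (l 17915712) (l 17795176))) (b (a (l 17776352) (l 17830320)) (a (l 17732160) (l 17685624)))) (b (a (a (l 17603792) (l 17539256)) (l 17682712)) (a (a (l 17846608) (l 17864528)) (b (l 17816088) (l 18134296)))))) (b (b (l 17773992) (b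 (l 17823728) (a (l 17844320) (l 17947264)))) (b (a (b (l 18003736) (l 17622848)) (b (l 17820960) (l 17550720))) (b (a (l 17510816) (l 17471608)) (b (l 18120304) (l 18396800)))))))), by decide +kernel⟩

theorem s19_pm_011 : ∃ t, chk3 f_pm_011 t 17 63 1 = true := ex3_a k14_pm_011 k15_pm_011

theorem s20_pm_011 : ∃ t, chk3 f_pm_011 t 8 63 1 = true := ex3_a k13_pm_011 s19_pm_011

theorem s21_pm_011 : ∃ t, chk3 f_pm_011 t 34 125 1 = true := ex3_a k10_pm_011 k11_pm_011

theorem s22_pm_011 : ∃ t, chk3 f_pm_011 t 34 62 1 = true := ex3_b k9_pm_011 s21_pm_011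

theorem s23_pm_011 : ∃ t, chk3 f_pm_011 t 17 62 1 = true := ex3_a s22_pm_011 k12_pm_011

theorem s24_pm_011 : ∃ t, chk3 f_pm_011 t 8 62 1 = true := ex3_a k8_pm_011 s23_pm_011

theorem s25_pm_011 : ∃ t, chk3 f_pm_011 t 8 31 1 = true := ex3_b s24_pm_011 s20_pm_011

theorem s26_pm_011 : ∃ t, chk3 f_pm_011 t 4 31 1 = true := ex3_a s25_pm_011 k16_pm_011

theorem s27_pm_011 : ∃ t, chk3 f_pm_011 t 18 61 1 = true := ex3_a k5_pm_011 k6_pm_011

theorem s28_pm_011 : ∃ t, chk3 f_pm_011 t 18 30 1 = true := ex3_b k4_pm_011 s27_pm_011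

theorem s29_pm_011 : ∃ t, chk3 f_pm_011 t 9 30 1 = true := ex3_a s28_pm_011 k7_pm_011

theorem s30_pm_011 : ∃ t, chk3 f_pm_011 t 4 30 1 = true := ex3_a k3_pm_011 s29_pm_011

theorem s31_pm_011 : ∃ t, chk3 f_pm_011 t 4 15 1 = true := ex3_b s30_pm_011 s26_pm_011

theorem s32_pm_011 : ∃ t, chk3 f_pm_011 t 2 15 1 = true := ex3_a s31_pm_011 k17_pm_011

theorem s33_pm_011 : ∃ t, chk3 f_pm_011 t 2 7 1 = true := ex3_b k2_pm_011 s32_pm_011

theorem s34_pm_011 : ∃ t, chk3 f_pm_011 t 2 3 1 = true := ex3_b k1_pm_011 s33_pm_011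

theorem s35_pm_011 : ∃ t, chk3 f_pm_011 t 2 1 1 = true := ex3_b k0_pm_011 s34_pm_011

theorem s36_pm_011 : ∃ t, chk3 f_pm_011 t 1 1 1 = true := ex3_a s35_pm_011 k18_pm_011

theorem c_pm_011 : CertN 0 536870912 536870912 536870912 50331648 16777216 3 false true false .pnn 0 1 1
    ndN0q0 ndN0q1 pcN1 cut_pm_011 Ext.none :=
  certNK0 (fam := false) (s1 := true) (s2 := false) (a := 0) (b := 1) (c := 1) (cn := .pnn) (n1 := ndN0q0) (n2 := ndN0q1) (pc := pcN1) (cut := cut_pm_011) (xt := Ext.none) (P1 := 0) (W1 := 536870912) (P2 := 536870912) (W2 := 536870912) (P3 := 50331648) (W3 := 16777216) (N0 := 3)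
    rfl rfl rfl s36_pm_011

noncomputable def cut_pm_012 : Cut := Cut.of [[⟨0, 0, 0, 50331648⟩, ⟨1, 1, 0, 50331648⟩, ⟨2, 1, 0, 50331648⟩], [⟨0, 0, 1, 25165824⟩, ⟨1, 1, 2, 25165824⟩, ⟨2, 1, 0, 8388608⟩, ⟨0, 0, 0, 83886080⟩, ⟨0, 1, 0, 1040187392⟩, ⟨1, 0, 0, 1040187392⟩, ⟨1, 1, 0, 83886080⟩]]

noncomputable def f_pm_012 : ℕ → ℕ → ℕ → ℕ → Bool := onCell 536870912 536870912 0 536870912 50331648 16777216
    (rowNK 3 2 false true false .pnp 0 1 2 (qsf 0 536870912 0 536870912 1) ndN0q0 ndN0q2 pcN1 cut_pm_012 Ext.none)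

def k0_pm_012 : ∃ t, chk3 f_pm_012 t 2 1 1 = true :=
  ⟨(b (a (b (l 2) (a (l 2) (l 17586840))) (b (a (b (l 17230240) (l 17323984)) (l 17455296)) (a (l 17614744) (l 17746496)))) (a (a (b (l 2) (b (l 17383488) (b (l 17713240) (l 18092936)))) (b (b (l 17768296) (l 17646632)) (b (l 17362792) (b (l 17836568) (l 18155688))))) (b (a (l 17962408) (l 17778856)) (b (a (l 17480664) (l 17522336)) (b (l 17847280) (a (l 18120632) (l 18000304))))))), by decide +kernel⟩

def k1_pm_012 : ∃ t, chk3 f_pm_012 t 3 2 1 = true :=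
  ⟨(a (b (a (l 17624776) (l 17883824)) (a (l 17908088) (l 18137280))) (a (b (l 18221784) (a (l 18375592) (l 18572600))) (a (b (l 18543400) (a (l 18723560) (l 18832792))) (a (b (l 18728352) (l 18943784)) (b (l 18845488) (l 19025904)))))), by decide +kernel⟩

def k2_pm_012 : ∃ t, chk3 f_pm_012 t 6 3 1 = true :=
  ⟨(b (a (l 17935088) (l 18219216)) (a (b (l 17789960) (b (l 17665632) (a (l 17827664) (l 17700352)))) (b (l 18100960) (b (l 17980456) (b (l 17871144) (a (l 17722696) (l 17822744))))))), by decide +kernel⟩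

def k3_pm_012 : ∃ t, chk3 f_pm_012 t 14 3 1 = true :=
  ⟨(b (a (l 18509360) (b (l 18726544) (l 18701128))) (b (a (l 18368992) (b (l 18562656) (a (l 18377360) (l 18357024)))) (a (b (l 18133304) (b (l 17951760) (a (l 17824632) (b (l 17809088) (l 17718600))))) (a (b (l 18117440) (b (a (l 17874160) (l 17807728)) (b (a (l 17721232) (l 17628360)) (a (l 17609824) (a (l 17529416) (l 17379544)))))) (b (b (l 18117336) (a (l 17951336) (l 17858648))) (b (a (l 17503600) (a (l 17393072) (b (l 17627632) (l 17413944)))) (b (a (c (l 17618432) (l 17249416)) (c (l 17379752) (a (l 17173352) (b (l 17226232) (l 14))))) (a (c (b (l 17505096) (l 17426488)) (b (l 17140624) (a (l 17252088) (l 14)))) (c (b (l 17254344) (a (l 17315592) (l 14))) (l 14)))))))))), by decide +kernel⟩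

def k4_pm_012 : ∃ t, chk3 f_pm_012 t 30 3 1 = true :=
  ⟨(b (a (l 18822176) (b (l 18920768) (l 18772880))) (b (a (b (l 18542992) (b (l 18341912) (l 18161352))) (b (a (l 18477848) (l 18405768)) (b (a (l 18219704) (l 18093352)) (a (l 17987208) (a (l 17859536) (l 17669368)))))) (a (b (b (a (l 17991256) (l 17804432)) (b (a (l 17804256) (l 17521808)) (a (l 17662976) (a (l 17532560) (l 17279416))))) (b (a (b (a (l 17551256) (l 17357672)) (c (a (l 17531056) (l 17441032)) (a (l 17123024) (b (l 17181896) (l 17029872))))) (b (c (a (l 17522112) (l 17413632)) (a (l 17069400) (b (l 17108880) (l 17009200)))) (c (a (l 17125856) (b (l 17263152) (l 17011608))) (a (b (l 17013504) (l 16833408)) (b (l 16864688) (l 16760024)))))) (b (b (a (c (a (l 17402248) (l 17303408)) (a (l 17038408) (l 16750368))) (a (c (l 17040952) (l 16746360)) (l 16753288))) (l 14)) (l 14)))) (b (b (b (a (l 17774664) (a (l 17611808) (l 17412736))) (a (a (l 17663936) (l 17553088)) (a (l 17315400) (l 17050040))))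 (a (b (a (l 17428208) (l 17172808)) (c (a (l 17489480) (l 17293336)) (a (l 17026640) (l 16816336)))) (b (a (b (l 17198944) (l 17043800)) (l 16807048)) (a (l 16736560) (l 16739776))))) (a (b (b (a (b (l 16977536) (l 16848024)) (l 16743952)) (a (b (l 16777880) (l 16747000)) (b (l 16742760) (l 16751464)))) (b (a (b (l 16754400) (l 14)) (b (a (l 16750392) (l 16750792)) (a (l 14) (l 16757136)))) (a (l 14) (a (l 14) (l 6))))) (b (a (b (b (l 16773064) (l 16739832)) (b (l 16743240) (l 16753320))) (b (b (l 16737584) (l 16746184)) (b (l 16752280) (a (l 16748288) (l 6))))) (b (a (b (a (l 16751192) (l 16751592)) (l 6)) (l 6)) (l 6)))))))), by decide +kernel⟩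

def k5_pm_012 : ∃ t, chk3 f_pm_012 t 31 3 1 = true :=
  ⟨(a (b (b (l 18981864) (a (l 18737920) (l 18686544))) (a (b (b (l 18214984) (b (a (l 17961656) (l 17850640)) (c (a (l 17853560) (l 17719416)) (a (l 17312520) (l 17155400))))) (b (b (a (b (l 17142872) (l 16875448)) (b (l 17066552) (l 16823192))) (a (b (l 16732376) (a (l 16733744) (l 16734168))) (b (l 16728144) (l 16734440)))) (b (b (a (b (l 16748352) (l 16751776)) (b (l 16739440) (l 6))) (l 6)) (l 6)))) (b (b (b (l 18263816) (l 17993184)) (b (b (l 17737016) (l 17428592)) (b (l 17047048) (l 16817392)))) (b (b (b (l 16716816) (a (l 16722376) (l 16722424))) (b (a (l 16728352) (l 16728528)) (a (l 16740016) (l 6)))) (l 6))))) (b (b (l 18964752) (b (l 18706768) (a (l 18434400) (b (l 18376472) (l 18109336))))) (b (b (b (a (l 18060752) (a (l 17842080) (l 17652120))) (a (b (l 17805424) (l 17600952)) (a (l 17374240) (l 17122608)))) (a (b (b (l 17258488) (l 16959968)) (b (l 16759576) (l 16711744))) (b (a (l 16778408)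 (l 16700080)) (a (l 16714968) (b (l 16707304) (l 6)))))) (b (a (b (b (a (l 16716888) (l 16717440)) (a (l 16722696) (l 6))) (l 6)) (l 6)) (l 6))))), by decide +kernel⟩

theorem s6_pm_012 : ∃ t, chk3 f_pm_012 t 15 3 1 = true := ex3_a k4_pm_012 k5_pm_012

theorem s7_pm_012 : ∃ t, chk3 f_pm_012 t 7 3 1 = true := ex3_a k3_pm_012 s6_pm_012

theorem s8_pm_012 : ∃ t, chk3 f_pm_012 t 3 3 1 = true := ex3_a k2_pm_012 s7_pm_012

theorem s9_pm_012 : ∃ t, chk3 f_pm_012 t 3 1 1 = true := ex3_b k1_pm_012 s8_pm_012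

theorem s10_pm_012 : ∃ t, chk3 f_pm_012 t 1 1 1 = true := ex3_a k0_pm_012 s9_pm_012

theorem c_pm_012 : CertN 0 536870912 0 536870912 50331648 16777216 3 false true false .pnp 0 1 2
    ndN0q0 ndN0q2 pcN1 cut_pm_012 Ext.none :=
  certNK2 (fam := false) (s1 := true) (s2 := false) (a := 0) (b := 1) (c := 2) (cn := .pnp) (n1 := ndN0q0) (n2 := ndN0q2) (pc := pcN1) (cut := cut_pm_012) (xt := Ext.none) (P1 := 0) (W1 := 536870912) (P2 := 0) (W2 := 536870912) (P3 := 50331648) (W3 := 16777216) (N0 := 3)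
    rfl rfl rfl (fun _ => rfl) s10_pm_012

noncomputable def cut_pm_022 : Cut := Cut.of [[⟨0, 0, 0, 50331648⟩, ⟨1, 1, 0, 50331648⟩, ⟨2, 1, 0, 50331648⟩]]

noncomputable def f_pm_022 : ℕ → ℕ → ℕ → ℕ → Bool := onCell 1073741824 536870912 0 536870912 50331648 16777216
    (rowNK 3 2 false true false .pp 0 2 2 (qsf 0 536870912 0 536870912 2) ndN0q0 ndN0q2 pcN2 cut_pm_022 Ext.none)

def k0_pm_022 : ∃ t, chk3 f_pm_022 t 2 2 1 = true :=
  ⟨(a (a (b (l 18948032) (b (l 19086328) (l 19067760))) (b (l 18869600) (b (l 18941096) (l 18886288)))) (a (b (l 18949984) (l 365110666295)) (l 1))), by decide +kernel⟩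

def k1_pm_022 : ∃ t, chk3 f_pm_022 t 4 6 1 = true :=
  ⟨(a (a (b (l 18960496) (b (l 18503544) (a (b (l 18305000) (b (l 18078880) (l 17898792))) (b (l 18215864) (l 17914936))))) (b (l 18799704) (b (l 18432720) (b (l 18060272) (a (l 17862880) (l 17684112)))))) (b (a (l 18698816) (l 60703931063)) (a (b (a (l 18359960) (l 18272544)) (b (a (l 18068432) (l 266861002071)) (a (a (l 17816968) (a (l 53722219847) (l 236258850263))) (l 1)))) (b (l 317327499239) (l 1))))), by decide +kernel⟩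

def k2_pm_022 : ∃ t, chk3 f_pm_022 t 4 7 1 = true :=
  ⟨(a (b (a (b (b (b (a (a (l 17668144) (l 17672952)) (l 17630648)) (a (a (l 17233712) (l 17392784)) (l 17173728))) (a (a (b (l 16945632) (l 16793880)) (l 16747184)) (a (l 16826544) (l 16829824)))) (b (a (a (b (l 16691568) (a (l 16674840) (l 16664984))) (b (l 16693184) (l 16702112))) (a (b (l 16693680) (l 16701792)) (b (l 16714160) (l 16721448)))) (b (a (a (a (l 16685248) (l 16674936)) (l 16711416)) (a (l 16731248) (l 16750016))) (l 6)))) (b (a (a (b (l 17330992) (l 16756304)) (b (l 17260856) (b (l 17133104) (l 16888664)))) (b (b (l 17394760) (a (l 17368424) (l 17228264))) (a (b (l 17021664) (l 16793208)) (a (b (l 17077192) (b (l 16776368) (a (l 16771640) (l 138546470295)))) (b (c (b (l 17498696) (l 80028058839)) (b (l 16784568) (a (l 16812512) (l 142304565143)))) (l 154652672823)))))) (a (b (a (b (l 16733568) (l 16739936)) (b (l 16751776) (a (l 16753032) (l 16761416)))) (a (b (a (l 16742344) (l 16750856))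 (l 6)) (b (a (l 16759080) (b (a (l 16763584) (l 79490434983)) (a (l 6) (l 1)))) (a (l 6) (l 1))))) (b (a (b (a (l 16764680) (b (l 16777104) (l 86469764791))) (a (b (l 48888798359) (a (l 74658598935) (l 132640660711))) (l 132640669959))) (b (l 133177555735) (l 1))) (a (b (l 164852905911) (l 1)) (l 1)))))) (a (l 6) (a (a (l 6) (a (l 6) (l 1))) (l 1)))) (b (b (a (a (b (a (a (b (l 17583272) (c (l 17455960) (b (l 17215320) (l 84322507447)))) (b (c (l 17811912) (l 69290573575)) (l 214246338551))) (l 230352693383)) (a (b (a (l 186865502647) (l 1)) (l 1)) (l 1))) (l 1)) (l 1)) (l 1)) (l 1))), by decide +kernel⟩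

def k3_pm_022 : ∃ t, chk3 f_pm_022 t 5 3 1 = true :=
  ⟨(b (l 1) (l 1)), by decide +kernel⟩

def k4_pm_022 : ∃ t, chk3 f_pm_022 t 3 1 1 = true :=
  ⟨(l 1), by decide +kernel⟩

theorem s5_pm_022 : ∃ t, chk3 f_pm_022 t 4 3 1 = true := ex3_b k1_pm_022 k2_pm_022

theorem s6_pm_022 : ∃ t, chk3 f_pm_022 t 2 3 1 = true := ex3_a s5_pm_022 k3_pm_022

theorem s7_pm_022 : ∃ t, chk3 f_pm_022 t 2 1 1 = true := ex3_b k0_pm_022 s6_pm_022

theorem s8_pm_022 : ∃ t, chk3 f_pm_022 t 1 1 1 = true := ex3_a s7_pm_022 k4_pm_022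

theorem c_pm_022 : CertN 0 536870912 0 536870912 50331648 16777216 3 false true false .pp 0 2 2
    ndN0q0 ndN0q2 pcN2 cut_pm_022 Ext.none :=
  certNK2 (fam := false) (s1 := true) (s2 := false) (a := 0) (b := 2) (c := 2) (cn := .pp) (n1 := ndN0q0) (n2 := ndN0q2) (pc := pcN2) (cut := cut_pm_022) (xt := Ext.none) (P1 := 0) (W1 := 536870912) (P2 := 0) (W2 := 536870912) (P3 := 50331648) (W3 := 16777216) (N0 := 3)
    rfl rfl rfl (fun _ => rfl) s8_pm_022

noncomputable def cut_pm_101 : Cut := Cut.of [[⟨0, 1, 0, 50331648⟩, ⟨1, 0, 0, 50331648⟩, ⟨2, 1, 0, 50331648⟩]]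

noncomputable def f_pm_101 : ℕ → ℕ → ℕ → ℕ → Bool := onCell 536870912 536870912 536870912 536870912 50331648 16777216
    (rowNK 3 0 false true false .npn 1 0 1 (qsf 536870912 536870912 536870912 536870912 0) ndN0q1 ndN0q1 pcN0 cut_pm_101 Ext.none)

def k0_pm_101 : ∃ t, chk3 f_pm_101 t 2 1 1 = true :=
  ⟨(b (a (b (a (b (l 4) (a (b (l 4) (b (l 4) (l 117273072823))) (b (b (l 4) (a (l 4) (l 113514806567))) (a (b (l 112441067239) (l 16883584)) (l 16903264))))) (b (a (a (l 4) (l 1)) (l 1)) (a (a (b (b (l 112977953863) (b (l 16863648) (l 16821112))) (l 16815896)) (l 144452310439)) (l 137473244647)))) (b (a (a (b (b (a (l 111367324151) (l 16866488)) (l 16922200)) (l 16865528)) (l 17116008)) (a (l 16995504) (l 17110432))) (a (l 17262232) (l 17231616)))) (b (a (b (l 1) (a (l 17145584) (l 1))) (l 1)) (a (b (a (l 17168712) (l 17278120)) (l 17360648)) (b (a (l 17398320) (l 1)) (l 17599424))))) (b (a (b (a (a (l 17153184) (l 17130696)) (l 17254312)) (a (b (l 17391152)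 (l 17796872)) (b (l 17172048) (l 17456512)))) (b (a (l 17414448) (l 17658112)) (a (l 17443856) (l 17598344)))) (a (a (b (b (l 18136592) (a (l 18751184) (l 18450464))) (b (b (a (l 18137288) (l 17870984)) (a (l 17525872) (l 17325664))) (b (l 17700648) (l 18534800)))) (b (b (l 17921040) (b (l 18205712) (l 18014192))) (b (b (l 17573448) (l 17343504)) (b (l 17825104) (l 18464520))))) (b (a (b (a (l 17546464) (l 17304464)) (a (l 17620488) (l 17299112))) (b (l 17459432) (l 17271600))) (b (a (l 17537024) (l 17503896)) (a (b (l 17882200) (l 18396384)) (b (l 17877640) (l 18256480)))))))), by decide +kernel⟩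

def k1_pm_101 : ∃ t, chk3 f_pm_101 t 3 1 1 = true :=
  ⟨(b (a (b (l 1) (a (b (l 1) (l 17917760)) (l 1))) (l 1)) (a (b (a (b (l 17954224) (l 17887168)) (b (l 18354376) (l 18269944))) (b (a (b (l 17846240) (l 17558176)) (b (l 18297368) (l 17806584))) (b (a (l 17610888) (l 17664808)) (b (l 17987824) (a (l 18047160) (l 17811192)))))) (b (a (b (l 1) (l 126739359639)) (l 1)) (b (a (b (a (l 18355432) (l 18740968)) (a (l 17966648) (l 18071696))) (b (l 1) (a (l 18430240) (l 1)))) (a (b (l 17824304) (a (l 17510640) (l 17594528))) (b (b (l 195456753223) (a (l 17550912) (l 238406225367))) (a (b (l 17347120) (a (l 17206664) (l 17226504))) (l 6)))))))), by decide +kernel⟩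

theorem s2_pm_101 : ∃ t, chk3 f_pm_101 t 1 1 1 = true := ex3_a k0_pm_101 k1_pm_101

theorem c_pm_101 : CertN 536870912 536870912 536870912 536870912 50331648 16777216 3 false true false .npn 1 0 1
    ndN0q1 ndN0q1 pcN0 cut_pm_101 Ext.none :=
  certNK0 (fam := false) (s1 := true) (s2 := false) (a := 1) (b := 0) (c := 1) (cn := .npn) (n1 := ndN0q1) (n2 := ndN0q1) (pc := pcN0) (cut := cut_pm_101) (xt := Ext.none) (P1 := 536870912) (W1 := 536870912) (P2 := 536870912) (W2 := 536870912) (P3 := 50331648) (W3 := 16777216) (N0 := 3)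
    rfl rfl rfl s2_pm_101

noncomputable def cut_pm_102 : Cut := Cut.of [[⟨0, 1, 0, 50331648⟩, ⟨1, 0, 0, 50331648⟩, ⟨2, 1, 0, 50331648⟩]]

noncomputable def f_pm_102 : ℕ → ℕ → ℕ → ℕ → Bool := onCell 536870912 536870912 0 536870912 50331648 16777216
    (rowNK 3 0 false true false .npp 1 0 2 (qsf 536870912 536870912 0 536870912 0) ndN0q1 ndN0q2 pcN0 cut_pm_102 Ext.none)

def k0_pm_102 : ∃ t, chk3 f_pm_102 t 2 1 1 = true :=
  ⟨(b (a (b (l 2) (b (l 2) (l 260485500359))) (b (a (a (a (l 2) (b (l 3) (b (b (l 122574440855) (l 16814432)) (l 16907432)))) (b (l 3) (b (l 135459459607) (a (l 16850880) (b (a (l 16845144) (l 106468293495)) (l 16830000)))))) (b (l 3) (a (b (l 3) (l 137606944935)) (l 3)))) (a (b (a (l 17233056) (b (a (l 17007712) (l 16907744)) (l 17128376))) (l 17601072)) (b (a (b (a (l 16845728) (b (l 135459308551) (l 16842424))) (a (l 17010032) (l 16924384))) (b (a (l 137606829975) (l 3)) (a (b (l 16878848) (l 16876928)) (b (l 134385572311) (b (l 16855664)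 (l 16825624)))))) (a (l 17386024) (b (a (l 17006696) (l 16956400)) (l 17157504))))))) (b (a (b (a (l 2) (l 17923720)) (l 18491168)) (a (b (l 17746600) (l 18083512)) (b (a (l 17555064) (l 17463432)) (l 17935832)))) (a (b (l 18516384) (a (l 18874152) (l 18656872))) (b (a (l 18338184) (l 18262208)) (a (l 18543096) (l 18376808)))))), by decide +kernel⟩

def k1_pm_102 : ∃ t, chk3 f_pm_102 t 3 2 1 = true :=
  ⟨(a (b (l 3) (a (b (a (b (l 3) (l 141901897175)) (l 3)) (a (b (a (a (l 16863512) (a (l 41507010487) (l 91436074919))) (b (l 125795642903) (a (l 16852296) (l 127943118439)))) (b (a (l 16952712) (l 16894448)) (l 17099552))) (b (l 131701308855) (a (b (a (l 91435993095) (l 140291155927)) (l 16862216)) (b (l 3) (l 113984564631)))))) (l 3))) (l 3)), by decide +kernel⟩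

def k2_pm_102 : ∃ t, chk3 f_pm_102 t 3 6 1 = true :=
  ⟨(a (a (b (a (b (l 17237000) (l 17316272)) (b (a (l 17108112) (b (a (l 16855144) (l 16843808)) (l 16986584))) (l 17329920))) (a (l 17594544) (b (l 17311744) (l 17504264)))) (b (a (b (a (b (l 123648249239) (a (l 16861752) (l 91972894775))) (b (l 3) (a (l 132775014167) (l 3)))) (a (b (a (l 16938000) (l 16923752)) (l 17007800)) (b (a (l 16845384) (b (l 141364925623) (l 16833344))) (a (l 16923120) (l 16878112))))) (b (l 3) (a (b (l 132238159367) (a (a (l 16841560) (l 85530426727)) (l 113984555159))) (b (l 3) (l 126332549799))))) (a (b (a (l 17154704) (l 17189976)) (l 17381400)) (b (a (b (a (l 16926872) (l 16887800)) (l 17039664)) (b (a (b (l 112910768919) (l 16830944)) (b (l 116131957575) (a (l 122037555207) (l 117742567527)))) (a (b (l 16881760) (l 16911648)) (a (l 16860816) (b (l 16825792) (l 16855144)))))) (a (l 17211936) (b (l 17062232) (l 17059472))))))) (a (b (l 3) (a (b (a (b (l 3) (a (b (a (b (l 107541999431)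 (l 140828019111)) (l 113984454999)) (l 91972853991)) (b (l 3) (l 135996200791)))) (l 3)) (a (b (b (a (l 16851272) (l 82846024295)) (a (l 16889632) (l 16846824))) (a (l 16966824) (l 16987336))) (b (a (b (l 123648146711) (b (a (a (l 16806432) (l 148344199207)) (l 112373835991)) (l 88214713255))) (l 3)) (a (b (a (l 16850136) (l 16817536)) (l 16906776)) (b (a (b (a (b (l 104320767655) (l 16811576)) (l 107541994423)) (l 16812760)) (l 121500663287)) (a (l 16826192) (l 85530358359))))))) (b (l 3) (a (b (l 3) (a (a (b (l 3) (b (l 112373833239) (a (b (l 16811784) (l 16802320)) (l 109152620871)))) (l 127943128007)) (l 3))) (l 3))))) (l 3))), by decide +kernel⟩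

def k3_pm_102 : ∃ t, chk3 f_pm_102 t 6 7 1 = true :=
  ⟨(b (a (a (l 17956368) (l 18035112)) (a (b (l 17496016) (l 17704832)) (b (l 17502616) (l 17495672)))) (a (b (l 18072120) (l 18154896)) (b (a (l 17816336) (l 17649128)) (l 17860432)))), by decide +kernel⟩

def k4_pm_102 : ∃ t, chk3 f_pm_102 t 14 14 1 = true :=
  ⟨(a (b (a (b (l 17080336) (l 17141416)) (b (b (a (l 16916800) (a (l 16867856) (l 16855808))) (l 17020088)) (l 17119088))) (a (l 17295632) (l 17358592))) (b (a (b (a (a (b (b (l 16809424) (l 16835592)) (l 16853880)) (a (b (l 77477273031) (l 16797344)) (b (b (l 108615731735) (l 16805144)) (l 16853928)))) (b (a (b (l 3) (a (b (l 103783893959) (a (l 16810456) (l 100562665927))) (l 112373832935))) (l 3)) (a (b (l 97878350807) (l 16841712)) (b (l 119353153447) (a (l 16803704) (b (l 105931375463) (a (l 16809056) (l 100562663543)))))))) (a (b (l 16910496) (l 16941824)) (b (a (l 16881104) (b (l 16813040) (l 16839344))) (l 16937656)))) (b (a (a (a (l 129016840503)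 (l 3)) (l 3)) (l 3)) (a (b (a (b (a (b (l 106468261991) (l 16805024)) (l 116668812151)) (a (l 16813736) (l 88214652103))) (b (l 3) (a (b (l 108615727927) (a (l 16807880) (l 102710165991))) (l 116668799511)))) (a (b (l 16852464) (l 16836856)) (b (a (l 16805736) (b (l 107005130743) (l 16803952))) (l 16844432)))) (b (l 3) (a (b (a (b (l 3) (l 113447583783)) (l 3)) (a (l 81772199335) (b (l 111300101543) (a (b (l 16799112) (l 16804424)) (l 102710164039))))) (b (l 3) (l 129016821287))))))) (a (b (a (l 17020128) (l 17016304)) (l 17154008)) (b (b (a (a (l 16876312) (l 16883968)) (a (b (a (l 16823912) (l 16806568)) (l 16841624)) (b (a (b (a (b (l 98952068023) (l 16807744)) (l 109152595831)) (l 16797904)) (b (l 3) (a (l 102710163127) (l 106468242263)))) (a (l 16815560) (b (a (l 16803112) (b (l 98415196263) (l 16796960))) (l 16804712)))))) (a (l 16932712) (a (l 16828728) (b (l 16854208) (l 16838648))))) (a (l 17032296) (b (l 16958392) (l 16947968))))))), by decide +kernel⟩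

def k5_pm_102 : ∃ t, chk3 f_pm_102 t 30 28 1 = true :=
  ⟨(l 3), by decide +kernel⟩

def k6_pm_102 : ∃ t, chk3 f_pm_102 t 60 58 1 = true :=
  ⟨(a (b (a (b (l 3) (a (b (a (l 109689476247) (l 3)) (a (b (l 103783890103) (l 16803824)) (b (l 104857628007) (l 100562666935)))) (b (l 3) (a (l 111300080743) (l 3))))) (l 3)) (a (b (a (l 16796528) (b (a (b (l 100025797703) (a (l 16784512) (l 16798488))) (b (l 3) (l 108078862455))) (a (l 16800472) (b (a (l 16786232) (l 88214635431)) (l 16803648))))) (a (l 16791488) (l 16815880))) (b (a (b (l 3) (a (b (l 105394497927) (l 99488927079)) (l 112910693047))) (l 3)) (a (b (a (l 16802720) (b (l 99488926023) (a (l 16805344) (l 16793064)))) (l 16804888)) (b (a (b (l 3) (l 108615732471)) (l 3)) (a (b (a (l 16796608) (l 98952054087)) (l 16803536)) (b (l 105931367847) (a (l 86604020199) (l 97341442855))))))))) (b (l 3) (a (b (l 3) (a (b (l 3) (a (l 115058175943) (l 3))) (l 3))) (l 3)))), by decide +kernel⟩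

def k7_pm_102 : ∃ t, chk3 f_pm_102 t 60 59 1 = true :=
  ⟨(a (b (a (b (a (l 16838848) (l 16821320)) (l 16856448)) (b (a (l 16824704) (b (l 16795216) (l 16813672))) (l 16863272))) (a (l 16895920) (l 16902824))) (b (a (b (a (b (a (b (a (l 98415182903) (l 102173271175)) (a (l 16794800) (l 87140890967))) (b (l 3) (a (l 96804571543) (l 3)))) (a (l 16800408) (b (a (l 16796576) (b (l 95730819559) (l 86604018215))) (l 16793032)))) (b (l 3) (a (b (l 107005108791) (b (l 97878309847) (a (l 16786544) (l 96804560439)))) (l 3)))) (a (l 16805312) (b (a (b (a (l 16803520) (l 16791336)) (l 16800000)) (b (a (b (l 104320753751) (l 87140889031)) (l 102173270119)) (a (l 16794824) (b (l 97878306423) (l 16791816))))) (l 16804664)))) (b (l 3) (a (b (a (b (l 3) (a (b (l 93046464663) (l 95730823543)) (l 3))) (l 3)) (a (b (a (l 86067146343) (b (l 102710140567) (l 87140888583))) (a (l 16801800) (l 16794864))) (b (a (l 102173269607) (l 3)) (a (b (l 96804564375) (l 16791864)) (b (l 3)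 (l 95193952279)))))) (l 3)))) (a (b (a (l 16821240) (l 16824480)) (l 16817784)) (b (a (b (a (l 16804544) (b (a (l 16793112) (b (l 86604016631) (l 16784864))) (l 16800088))) (l 16813304)) (b (a (b (a (b (l 101099527367) (a (l 16790168) (l 89288370631))) (l 102173269111)) (a (l 16794928) (a (l 86604016743) (b (l 102710139991) (l 16790192))))) (b (l 3) (a (a (a (l 95730822887) (l 99488914327)) (l 97878301575)) (l 3)))) (b (a (l 16791400) (a (b (l 87140887511) (l 16784936)) (b (l 99488914119) (a (l 86604014807) (l 96267688263))))) (l 16792296)))) (a (b (l 16805536) (l 16818736)) (b (l 16808680) (l 16821888))))))), by decide +kernel⟩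

def k8_pm_102 : ∃ t, chk3 f_pm_102 t 61 29 1 = true :=
  ⟨(b (l 3) (a (b (l 3) (a (b (a (b (l 3) (a (b (a (l 103783881575) (l 3)) (a (b (a (l 88751498871) (l 98415172215)) (l 86604015207)) (b (l 3) (c (l 102710139207) (l 103247009655))))) (l 3))) (l 3)) (a (b (a (b (a (l 16793272) (a (l 16790712) (b (l 88751498791) (l 16785936)))) (l 16800248)) (b (a (b (l 98415171735) (a (l 87677756487) (l 104320751591))) (l 3)) (a (b (l 16789888) (l 16783296)) (a (b (a (l 88751497815) (l 90898981159)) (l 16785992)) (b (l 93583333447) (l 87677756311)))))) (l 16790912)) (b (a (b (l 3) (a (b (l 3) (l 101636396663)) (l 3))) (l 3)) (a (b (a (a (l 86067143303) (b (a (l 89288368343) (l 95193945815)) (l 16786056))) (b (l 97878300231) (a (a (l 87677755031) (l 89288368311)) (l 100025783847)))) (a (l 16791656) (b (l 86604013863) (l 16793904)))) (b (l 3) (a (a (b (a (l 89825239015) (l 101636396551)) (l 16791368)) (b (l 90898978231) (a (l 87677755079) (l 89825238791)))) (b (l 3) (l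 100562654311)))))))) (l 3))) (l 3))), by decide +kernel⟩

def k9_pm_102 : ∃ t, chk3 f_pm_102 t 31 14 1 = true :=
  ⟨(l 3), by decide +kernel⟩

def k10_pm_102 : ∃ t, chk3 f_pm_102 t 14 15 1 = true :=
  ⟨(a (b (a (l 17486608) (l 17505664)) (l 17739576)) (b (a (b (l 17194728) (l 17303176)) (b (l 17207400) (l 17164168))) (b (a (l 17347640) (l 17257304)) (l 17328496)))), by decide +kernel⟩

def k11_pm_102 : ∃ t, chk3 f_pm_102 t 60 30 1 = true :=
  ⟨(b (a (b (l 16951888) (l 16983208)) (b (a (l 16857272) (a (l 16830712) (l 16875840))) (l 16975944))) (a (l 17061264) (l 17075360))), by decide +kernel⟩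

def k12_pm_102 : ∃ t, chk3 f_pm_102 t 122 120 1 = true :=
  ⟨(b (a (a (l 16829064) (b (a (l 16803792) (a (l 16790864) (b (b (a (l 87677755207) (b (l 94120203655) (l 89825238407))) (l 16787912)) (l 16791792)))) (l 16812504))) (a (b (a (b (a (b (l 3) (a (a (l 88751496583) (l 96804558887)) (l 95193945111))) (l 3)) (a (a (l 16789240) (b (b (l 89288367223) (l 16786472)) (l 16784464))) (a (b (a (l 96267687911) (l 95730815991)) (l 86604012247)) (b (l 3) (b (l 102173266775) (l 88751496055)))))) (b (l 3) (a (b (l 3) (l 100025785479)) (l 3)))) (a (l 16789240) (b (a (a (a (l 86067141671) (b (b (l 93583333191) (l 16787008)) (l 16785000))) (b (a (l 95193944599) (l 92509590215)) (l 87140883175))) (b (l 3) (a (a (b (l 101099525783) (l 16788344)) (l 102710137223)) (l 93046460775)))) (a (l 16791936) (a (l 16789360) (b (a (l 87677753783) (b (l 99488912583) (l 89288365527))) (l 16784560))))))) (b (l 3) (a (b (l 3) (a (a (b (l 98415169623) (b (l 88751495303) (l 16785680))) (b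 (l 3) (a (b (l 97341428471) (l 89288365399)) (l 99488911335)))) (l 3))) (l 3))))) (a (a (l 16829216) (b (l 16804728) (l 16817936))) (a (b (l 16797320) (l 16821064)) (b (a (b (a (b (l 16787184) (l 16792376)) (a (b (b (l 90898978551) (l 87677753047)) (l 16784560)) (b (l 97341427351) (a (l 16788528) (b (l 91435848775) (l 16786136)))))) (l 16790168)) (b (a (a (b (l 3) (a (b (l 93046460439) (l 90362106919)) (l 95730814503))) (l 3)) (l 3)) (a (a (l 86067140391) (b (b (l 102710136119) (l 88214623511)) (l 16789816))) (a (b (l 96804555959) (a (l 87140881351) (b (l 92509589799) (l 16786152)))) (b (l 3) (a (l 95193945543) (l 92509588535))))))) (a (l 16807672) (b (a (l 16800664) (b (c (l 86067140119) (l 86604010711)) (l 16792392))) (l 16802040))))))), by decide +kernel⟩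

def k13_pm_102 : ∃ t, chk3 f_pm_102 t 122 121 1 = true :=
  ⟨(a (l 16901808) (b (a (l 16798984) (b (l 16816448) (l 16808712))) (a (l 16846360) (l 16828520)))), by decide +kernel⟩

def k14_pm_102 : ∃ t, chk3 f_pm_102 t 123 120 1 = true :=
  ⟨(a (b (l 3) (a (b (l 3) (a (a (a (b (b (b (l 98952039335) (a (l 16787464) (l 91435847927))) (l 16789832)) (l 16791080)) (b (b (l 96267684551) (a (l 87677752119) (b (l 99488910967) (l 88751492967)))) (l 16787616))) (a (b (b (l 3) (l 101099523799)) (b (b (l 88214622679) (l 16784824)) (l 16782824))) (b (l 3) (b (a (b (l 97341426935) (l 88751492855)) (l 99488909639)) (l 16787232))))) (b (l 3) (a (b (l 3) (a (b (l 95730815559) (l 87677751367)) (l 100025780215))) (l 3))))) (l 3))) (l 3)), by decide +kernel⟩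

def k15_pm_102 : ∃ t, chk3 f_pm_102 t 246 121 1 = true :=
  ⟨(b (a (b (a (l 16797784) (b (a (a (l 16787640) (a (l 16787336) (b (b (l 91435847095) (l 16785304)) (l 16783296)))) (a (b (a (b (l 93046459255) (l 89825234343)) (l 96267683735)) (l 86067138151)) (b (l 3) (b (l 102710134455) (l 88214621863))))) (l 16787632))) (a (l 16795288) (l 16807296))) (b (a (a (a (b (b (l 3) (l 99488908871)) (a (l 86067138375) (b (b (l 91972717319) (l 16785344)) (l 16783336)))) (b (l 3) (b (b (l 3) (l 95730814759)) (l 86604008999)))) (b (l 3) (b (l 3) (a (b (l 98415166775) (a (l 16786672) (l 90898975383))) (l 98952037511))))) (l 3)) (a (b (a (l 16790296) (b (a (l 16786432) (a (l 87677750551) (b (l 97878296823) (l 88214620487)))) (l 16787288))) (l 16791144)) (b (a (a (b (c (l 102710135063) (l 103247005623)) (b (l 88214621111) (l 16784064))) (b (l 3) (a (b (l 96267683799) (l 88751491383)) (l 100025778919)))) (l 3)) (b (a (l 16786896) (a (b (l 95193943047) (l 87677749831)) (l 102173264887)))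 (a (l 16790800) (a (l 16788232) (a (l 86604007319) (b (l 90898974615) (l 16784576)))))))))) (a (b (l 16824992) (l 16817216)) (b (a (l 16811536) (l 16786824)) (l 16820248)))), by decide +kernel⟩

def k16_pm_102 : ∃ t, chk3 f_pm_102 t 247 121 1 = true :=
  ⟨(b (a (b (l 3) (a (b (l 3) (b (l 3) (a (a (a (b (l 90898973223) (l 89288361895)) (l 98415165767)) (l 3)) (l 3)))) (l 3))) (l 3)) (a (b (a (b (a (b (a (l 86604007607) (b (l 101636391031) (a (l 16784608) (l 89825232663)))) (l 16787400)) (a (b (l 101636393591) (a (l 87140878295) (b (l 91435844999) (l 16785944)))) (b (l 3) (b (l 3) (l 95730813191))))) (a (l 16788696) (a (l 16791360) (a (l 16787456) (b (l 87140878295) (l 16781784)))))) (b (l 3) (b (a (a (b (l 98952036087) (a (l 88214619063) (l 90898973879))) (l 102173261703)) (l 3)) (b (a (a (l 16786416) (a (l 89288361175) (l 95730811847))) (l 3)) (a (l 86604006967) (a (l 101636390263) (l 3))))))) (a (l 16796272) (b (a (l 16785304) (a (a (l 16786224) (b (b (l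 89825231863) (l 16783856)) (l 16781864))) (b (a (b (l 94120198823) (l 88751489831)) (l 101636390087)) (l 86067135303)))) (l 16790568)))) (b (l 3) (a (b (a (b (l 3) (a (b (l 95730812439) (l 87677748471)) (c (l 104320745879) (l 104320745607)))) (l 3)) (a (b (a (l 16787600) (a (l 86604006183) (b (l 90898973143) (l 16783944)))) (l 16791096)) (b (a (a (b (l 3) (l 89288360487)) (l 100562647863)) (l 3)) (a (l 86604006247) (b (l 102173260423) (a (l 16785288) (l 89825231159))))))) (b (l 3) (a (a (b (l 3) (l 104857616775)) (l 3)) (l 3))))))), by decide +kernel⟩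

def k17_pm_102 : ∃ t, chk3 f_pm_102 t 61 61 1 = true :=
  ⟨(a (b (a (l 16912408) (l 16918824)) (l 16967816)) (b (a (b (a (l 16836960) (l 16803304)) (l 16854240)) (a (b (b (l 16812816) (l 16807624)) (l 16827320)) (b (b (a (b (l 16786320) (l 16805216)) (b (a (a (b (a (l 87140876999) (b (l 96804552871) (l 87140876279))) (l 16786840)) (b (a (b (l 3) (l 90362101815)) (l 100025776631)) (a (l 16785568) (a (l 87140876263) (l 88214618439))))) (b (l 3) (a (b (l 100025776391) (a (l 88214617895) (l 90898972439))) (l 3)))) (a (l 16789040) (b (a (l 16785168) (b (a (l 89288359831) (l 93046455591)) (l 87140876295))) (l 16786048))))) (a (l 16815088) (l 16790336))) (b (l 16823720) (l 16815864))))) (a (l 16893416) (b (l 16819576) (l 16870536))))), by decide +kernel⟩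

def k18_pm_102 : ∃ t, chk3 f_pm_102 t 62 60 1 = true :=
  ⟨(l 3), by decide +kernel⟩

def k19_pm_102 : ∃ t, chk3 f_pm_102 t 248 244 1 = true :=
  ⟨(a (b (a (b (l 3) (a (a (a (b (l 103783875063) (l 86067133991)) (b (l 3) (b (l 89825230567) (l 16783288)))) (b (l 3) (a (b (l 92509583303) (l 88751488631)) (l 103247003975)))) (l 3))) (l 3)) (a (b (b (b (a (l 86067134343) (a (c (l 104320744423) (l 104857615047)) (l 3))) (a (l 16786344) (a (a (l 16785968) (l 89288359415)) (l 101099517495)))) (a (l 16789616) (a (l 16787056) (a (l 87140875767) (b (l 97878293911) (l 16784864)))))) (l 16789832)) (b (b (l 3) (b (l 3) (a (a (a (l 89825230087) (l 94120195511)) (l 3)) (l 3)))) (a (a (b (b (l 87677746631) (l 16782112)) (l 16790624)) (b (b (l 102710129879) (a (l 87140875271) (l 89825229991))) (l 16784552))) (b (l 3) (a (b (a (l 88751488103) (l 95730809575)) (l 87140875111)) (b (l 3) (l 104857614487)))))))) (l 3)), by decide +kernel⟩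

def k20_pm_102 : ∃ t, chk3 f_pm_102 t 248 245 1 = true :=
  ⟨(a (a (b (l 16799688) (l 16802328)) (b (b (a (l 16789624) (b (a (l 16786344) (a (l 16784408) (b (l 89288358791) (l 16782688)))) (l 16789864))) (l 16793928)) (l 16814256))) (b (a (b (b (a (a (b (l 102173258679) (a (l 88214616823) (l 96804551063))) (l 3)) (l 3)) (a (a (l 86067132983) (a (b (l 89825229447) (l 16785376)) (b (l 95193936599) (l 88751487623)))) (a (a (l 105394485207) (l 3)) (l 3)))) (a (l 16784272) (a (b (a (l 86604003879) (b (l 90898970983) (l 16784128))) (l 16785648)) (a (b (b (l 3) (l 89288358327)) (l 16784368)) (b (l 105931356279) (l 87140874695)))))) (a (a (b (l 3) (b (l 3) (b (l 105394484727) (a (l 87140874151) (l 90362099991))))) (a (l 130627417991) (l 3))) (l 3))) (a (b (l 16791440) (l 16808480)) (b (a (b (a (l 16783992) (b (a (l 88751487095) (l 97878292199)) (l 87140874167))) (l 16784896)) (a (a (b (b (l 3) (l 98415163223)) (l 16784512)) (b (l 3) (b (l 89288357879) (l 16782136))))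 (b (l 3) (b (l 104857612471) (a (l 88214615831) (l 97878292183)))))) (a (l 16791200) (a (l 16788912) (b (l 86067132071) (l 16789400)))))))), by decide +kernel⟩

def k21_pm_102 : ∃ t, chk3 f_pm_102 t 249 122 1 = true :=
  ⟨(b (l 3) (a (b (l 3) (a (b (l 3) (a (a (b (a (b (l 89825228567) (l 16784840)) (b (l 97878290183) (l 88751486583))) (l 16785944)) (b (b (l 3) (l 105931355063)) (a (l 86604002839) (b (l 90362099047) (l 16783600))))) (b (l 3) (a (b (l 3) (a (l 89288357463) (l 100025773527))) (l 3))))) (l 3))) (l 3))), by decide +kernel⟩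

def k22_pm_102 : ∃ t, chk3 f_pm_102 t 125 122 1 = true :=
  ⟨(l 3), by decide +kernel⟩

def k23_pm_102 : ∃ t, chk3 f_pm_102 t 62 123 1 = true :=
  ⟨(b (a (b (a (a (l 16810896) (a (l 16797336) (l 16801384))) (a (a (a (l 16786712) (b (a (b (a (l 16783848) (l 87140873831)) (l 16789552)) (b (a (b (l 98952033495) (l 86604002215)) (b (l 3) (l 89825228055))) (l 16783480))) (l 16790696))) (b (a (a (b (b (l 3) (l 108078837287)) (b (a (l 88751486071) (l 102710127767)) (l 86604002407))) (a (b (l 3) (b (l 3) (l 90898969783))) (l 3))) (l 3)) (b (a (a (l 16785288) (a (l 16784016) (b (l 89288356887) (l 16781640)))) (a (a (b (l 101636385783) (l 88214614839)) (b (l 3) (l 100025774823))) (l 3))) (a (l 16788832) (a (l 86067131255) (a (b (l 89825227399) (l 16784352)) (b (l 101099514807) (l 88751485671)))))))) (a (b (l 3) (a (a (a (b (l 3) (b (l 3) (l 103783869095))) (l 3)) (l 3)) (l 3))) (l 3)))) (a (a (l 16823968) (l 16826848)) (a (a (l 16813256) (b (l 16783544) (l 16796960)))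 (a (b (a (a (b (a (l 86604001863) (b (l 92509581863) (l 16783120))) (l 16784656)) (b (b (l 3) (a (l 89288356407) (l 102710127143))) (b (l 87140872935) (l 16785800)))) (a (b (l 3) (a (b (l 101099516007) (l 87140872023)) (b (l 3) (l 90362098167)))) (l 129553672007))) (b (a (l 16788512) (a (l 16783024) (b (a (l 88751485207) (l 104857610455)) (l 86604001479)))) (l 16784264))) (b (l 3) (a (a (a (b (b (l 3) (l 93583323223)) (l 16783232)) (b (l 3) (b (l 89288355767) (l 6)))) (b (l 3) (l 6))) (l 3))))))) (l 3)) (a (a (l 16873800) (a (b (l 16821768) (l 16813824)) (b (a (b (l 16794400) (l 16811408)) (l 6)) (l 6)))) (l 6))), by decide +kernel⟩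

def k24_pm_102 : ∃ t, chk3 f_pm_102 t 63 30 1 = true :=
  ⟨(l 3), by decide +kernel⟩

def k25_pm_102 : ∃ t, chk3 f_pm_102 t 15 31 1 = true :=
  ⟨(a (b (a (a (l 17156048) (l 17159680)) (a (b (l 16998584) (l 17052808)) (b (l 16990256) (l 16978680)))) (a (l 17260760) (b (a (l 17071184) (l 17012904)) (l 17055984)))) (b (a (a (b (a (l 16936312) (a (l 16893448) (l 6))) (l 6)) (l 6)) (l 6)) (l 6))), by decide +kernel⟩

theorem s26_pm_102 : ∃ t, chk3 f_pm_102 t 248 122 1 = true := ex3_b k19_pm_102 k20_pm_102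

theorem s27_pm_102 : ∃ t, chk3 f_pm_102 t 124 122 1 = true := ex3_a s26_pm_102 k21_pm_102

theorem s28_pm_102 : ∃ t, chk3 f_pm_102 t 62 122 1 = true := ex3_a s27_pm_102 k22_pm_102

theorem s29_pm_102 : ∃ t, chk3 f_pm_102 t 62 61 1 = true := ex3_b s28_pm_102 k23_pm_102

theorem s30_pm_102 : ∃ t, chk3 f_pm_102 t 62 30 1 = true := ex3_b k18_pm_102 s29_pm_102

theorem s31_pm_102 : ∃ t, chk3 f_pm_102 t 31 30 1 = true := ex3_a s30_pm_102 k24_pm_102

theorem s32_pm_102 : ∃ t, chk3 f_pm_102 t 123 121 1 = true := ex3_a k15_pm_102 k16_pm_102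

theorem s33_pm_102 : ∃ t, chk3 f_pm_102 t 123 60 1 = true := ex3_b k14_pm_102 s32_pm_102

theorem s34_pm_102 : ∃ t, chk3 f_pm_102 t 122 60 1 = true := ex3_b k12_pm_102 k13_pm_102

theorem s35_pm_102 : ∃ t, chk3 f_pm_102 t 61 60 1 = true := ex3_a s34_pm_102 s33_pm_102

theorem s36_pm_102 : ∃ t, chk3 f_pm_102 t 61 30 1 = true := ex3_b s35_pm_102 k17_pm_102

theorem s37_pm_102 : ∃ t, chk3 f_pm_102 t 30 30 1 = true := ex3_a k11_pm_102 s36_pm_102

theorem s38_pm_102 : ∃ t, chk3 f_pm_102 t 15 30 1 = true := ex3_a s37_pm_102 s31_pm_102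

theorem s39_pm_102 : ∃ t, chk3 f_pm_102 t 15 15 1 = true := ex3_b s38_pm_102 k25_pm_102

theorem s40_pm_102 : ∃ t, chk3 f_pm_102 t 7 15 1 = true := ex3_a k10_pm_102 s39_pm_102

theorem s41_pm_102 : ∃ t, chk3 f_pm_102 t 60 29 1 = true := ex3_b k6_pm_102 k7_pm_102

theorem s42_pm_102 : ∃ t, chk3 f_pm_102 t 30 29 1 = true := ex3_a s41_pm_102 k8_pm_102

theorem s43_pm_102 : ∃ t, chk3 f_pm_102 t 30 14 1 = true := ex3_b k5_pm_102 s42_pm_102

theorem s44_pm_102 : ∃ t, chk3 f_pm_102 t 15 14 1 = true := ex3_a s43_pm_102 k9_pm_102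

theorem s45_pm_102 : ∃ t, chk3 f_pm_102 t 7 14 1 = true := ex3_a k4_pm_102 s44_pm_102

theorem s46_pm_102 : ∃ t, chk3 f_pm_102 t 7 7 1 = true := ex3_b s45_pm_102 s40_pm_102

theorem s47_pm_102 : ∃ t, chk3 f_pm_102 t 3 7 1 = true := ex3_a k3_pm_102 s46_pm_102

theorem s48_pm_102 : ∃ t, chk3 f_pm_102 t 3 3 1 = true := ex3_b k2_pm_102 s47_pm_102

theorem s49_pm_102 : ∃ t, chk3 f_pm_102 t 3 1 1 = true := ex3_b k1_pm_102 s48_pm_102

theorem s50_pm_102 : ∃ t, chk3 f_pm_102 t 1 1 1 = true := ex3_a k0_pm_102 s49_pm_102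

theorem c_pm_102 : CertN 536870912 536870912 0 536870912 50331648 16777216 3 false true false .npp 1 0 2
    ndN0q1 ndN0q2 pcN0 cut_pm_102 Ext.none :=
  certNK0 (fam := false) (s1 := true) (s2 := false) (a := 1) (b := 0) (c := 2) (cn := .npp) (n1 := ndN0q1) (n2 := ndN0q2) (pc := pcN0) (cut := cut_pm_102) (xt := Ext.none) (P1 := 536870912) (W1 := 536870912) (P2 := 0) (W2 := 536870912) (P3 := 50331648) (W3 := 16777216) (N0 := 3)
    rfl rfl rfl s50_pm_102

noncomputable def f_pm_112 : ℕ → ℕ → ℕ → ℕ → Bool := onCell 536870912 536870912 0 536870912 50331648 16777216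
    (rowNK 3 2 false true false .dn 1 1 2 (qsf 536870912 536870912 0 536870912 1) ndN0q1 ndN0q2 pcN1 Cut.none Ext.none)

def k0_pm_112 : ∃ t, chk3 f_pm_112 t 1 1 1 = true :=
  ⟨(a (b (a (b (a (b (a (b (l 3) (l 117205772247)) (b (l 117205755895) (b (a (l 16846392) (l 16814720)) (l 16846136)))) (a (b (l 55465736535) (l 16935024)) (l 17012784))) (b (a (b (l 56539431431) (l 16926888)) (l 16975288)) (l 17251392))) (a (b (l 17373880) (l 17466896)) (l 17565856))) (a (b (b (l 17251144) (l 17323888)) (l 17614440)) (l 1))) (a (a (b (a (l 17934832) (l 17894864)) (b (l 17383400) (b (l 17713544) (l 18093504)))) (b (b (l 17768208) (l 17646360)) (b (l 17384864) (l 1)))) (b (l 1) (l 1)))) (l 1)), by decide +kernel⟩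

theorem c_pm_112 : CertN 536870912 536870912 0 536870912 50331648 16777216 3 false true false .dn 1 1 2
    ndN0q1 ndN0q2 pcN1 Cut.none Ext.none :=
  certNK2 (fam := false) (s1 := true) (s2 := false) (a := 1) (b := 1) (c := 2) (cn := .dn) (n1 := ndN0q1) (n2 := ndN0q2) (pc := pcN1) (cut := Cut.none) (xt := Ext.none) (P1 := 536870912) (W1 := 536870912) (P2 := 0) (W2 := 536870912) (P3 := 50331648) (W3 := 16777216) (N0 := 3)
    rfl rfl rfl (fun _ => rfl) k0_pm_112

noncomputable def cut_pm_202 : Cut := Cut.of [[⟨0, 1, 0, 50331648⟩, ⟨1, 0, 0, 50331648⟩, ⟨2, 1, 0, 50331648⟩]]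

noncomputable def f_pm_202 : ℕ → ℕ → ℕ → ℕ → Bool := onCell 0 536870912 0 536870912 50331648 16777216
    (rowNK 3 0 false true false .pp 2 0 2 (qsf 0 536870912 0 536870912 0) ndN0q2 ndN0q2 pcN0 cut_pm_202 Ext.none)

def k0_pm_202 : ∃ t, chk3 f_pm_202 t 1 1 1 = true :=
  ⟨(a (l 3) (b (l 3) (a (l 3) (b (l 3) (b (l 3) (a (l 3) (l 6))))))), by decide +kernel⟩

theorem c_pm_202 : CertN 0 536870912 0 536870912 50331648 16777216 3 false true false .pp 2 0 2
    ndN0q2 ndN0q2 pcN0 cut_pm_202 Ext.none :=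
  certNK0 (fam := false) (s1 := true) (s2 := false) (a := 2) (b := 0) (c := 2) (cn := .pp) (n1 := ndN0q2) (n2 := ndN0q2) (pc := pcN0) (cut := cut_pm_202) (xt := Ext.none) (P1 := 0) (W1 := 536870912) (P2 := 0) (W2 := 536870912) (P3 := 50331648) (W3 := 16777216) (N0 := 3)
    rfl rfl rfl k0_pm_202

noncomputable def f_mm_001 : ℕ → ℕ → ℕ → ℕ → Bool := onCell 0 536870912 0 536870912 50331648 16777216
    (rowNK 3 1 false false false .up 0 0 1 (qsf 0 536870912 536870912 536870912 0) ndN0q0 ndN0q1 pcN0 Cut.none Ext.none)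

def k0_mm_001 : ∃ t, chk3 f_mm_001 t 1 1 1 = true :=
  ⟨(l 3), by decide +kernel⟩

theorem c_mm_001 : CertN 0 536870912 536870912 536870912 50331648 16777216 3 false false false .up 0 0 1
    ndN0q0 ndN0q1 pcN0 Cut.none Ext.none :=
  certNK1 (fam := false) (s1 := false) (s2 := false) (a := 0) (b := 0) (c := 1) (cn := .up) (n1 := ndN0q0) (n2 := ndN0q1) (pc := pcN0) (cut := Cut.none) (xt := Ext.none) (P1 := 0) (W1 := 536870912) (P2 := 536870912) (W2 := 536870912) (P3 := 50331648) (W3 := 16777216) (N0 := 3)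
    rfl rfl rfl (fun _ => rfl) k0_mm_001

noncomputable def f_mm_011 : ℕ → ℕ → ℕ → ℕ → Bool := onCell 0 536870912 536870912 536870912 50331648 16777216
    (rowNK 3 1 false false false .pnn 0 1 1 (qsf 0 536870912 536870912 536870912 1) ndN0q0 ndN0q1 pcN1 Cut.none Ext.none)

def k0_mm_011 : ∃ t, chk3 f_mm_011 t 1 1 1 = true :=
  ⟨(l 5), by decide +kernel⟩

theorem c_mm_011 : CertN 0 536870912 536870912 536870912 50331648 16777216 3 false false false .pnn 0 1 1
    ndN0q0 ndN0q1 pcN1 Cut.none Ext.none :=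
  certNK1 (fam := false) (s1 := false) (s2 := false) (a := 0) (b := 1) (c := 1) (cn := .pnn) (n1 := ndN0q0) (n2 := ndN0q1) (pc := pcN1) (cut := Cut.none) (xt := Ext.none) (P1 := 0) (W1 := 536870912) (P2 := 536870912) (W2 := 536870912) (P3 := 50331648) (W3 := 16777216) (N0 := 3)
    rfl rfl rfl (fun _ => rfl) k0_mm_011

noncomputable def f_mm_012 : ℕ → ℕ → ℕ → ℕ → Bool := onCell 0 536870912 0 536870912 50331648 16777216
    (rowNK 3 0 false false false .pnp 0 1 2 (qsf 0 536870912 0 536870912 1) ndN0q0 ndN0q2 pcN1 Cut.none Ext.none)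

def k0_mm_012 : ∃ t, chk3 f_mm_012 t 1 1 1 = true :=
  ⟨(l 5), by decide +kernel⟩

theorem c_mm_012 : CertN 0 536870912 0 536870912 50331648 16777216 3 false false false .pnp 0 1 2
    ndN0q0 ndN0q2 pcN1 Cut.none Ext.none :=
  certNK0 (fam := false) (s1 := false) (s2 := false) (a := 0) (b := 1) (c := 2) (cn := .pnp) (n1 := ndN0q0) (n2 := ndN0q2) (pc := pcN1) (cut := Cut.none) (xt := Ext.none) (P1 := 0) (W1 := 536870912) (P2 := 0) (W2 := 536870912) (P3 := 50331648) (W3 := 16777216) (N0 := 3)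
    rfl rfl rfl k0_mm_012

noncomputable def f_mm_022 : ℕ → ℕ → ℕ → ℕ → Bool := onCell 0 536870912 0 536870912 50331648 16777216
    (rowNK 3 0 false false false .pp 0 2 2 (qsf 0 536870912 0 536870912 2) ndN0q0 ndN0q2 pcN2 Cut.none Ext.none)

def k0_mm_022 : ∃ t, chk3 f_mm_022 t 1 1 1 = true :=
  ⟨(l 5), by decide +kernel⟩

theorem c_mm_022 : CertN 0 536870912 0 536870912 50331648 16777216 3 false false false .pp 0 2 2
    ndN0q0 ndN0q2 pcN2 Cut.none Ext.none :=
  certNK0 (fam := false) (s1 := false) (s2 := false) (a := 0) (b := 2) (c := 2) (cn := .pp) (n1 := ndN0q0) (n2 := ndN0q2) (pc := pcN2) (cut := Cut.none) (xt := Ext.none) (P1 := 0) (W1 := 536870912) (P2 := 0) (W2 := 536870912) (P3 := 50331648) (W3 := 16777216) (N0 := 3)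
    rfl rfl rfl k0_mm_022

noncomputable def f_mm_101 : ℕ → ℕ → ℕ → ℕ → Bool := onCell 536870912 536870912 536870912 536870912 50331648 16777216
    (rowNK 3 0 false false false .npn 1 0 1 (qsf 536870912 536870912 536870912 536870912 0) ndN0q1 ndN0q1 pcN0 Cut.none Ext.none)

def k0_mm_101 : ∃ t, chk3 f_mm_101 t 1 1 1 = true :=
  ⟨(l 3), by decide +kernel⟩

theorem c_mm_101 : CertN 536870912 536870912 536870912 536870912 50331648 16777216 3 false false false .npn 1 0 1
    ndN0q1 ndN0q1 pcN0 Cut.none Ext.none :=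
  certNK0 (fam := false) (s1 := false) (s2 := false) (a := 1) (b := 0) (c := 1) (cn := .npn) (n1 := ndN0q1) (n2 := ndN0q1) (pc := pcN0) (cut := Cut.none) (xt := Ext.none) (P1 := 536870912) (W1 := 536870912) (P2 := 536870912) (W2 := 536870912) (P3 := 50331648) (W3 := 16777216) (N0 := 3)
    rfl rfl rfl k0_mm_101

noncomputable def f_mm_102 : ℕ → ℕ → ℕ → ℕ → Bool := onCell 536870912 536870912 0 536870912 50331648 16777216
    (rowNK 3 0 false false false .npp 1 0 2 (qsf 536870912 536870912 0 536870912 0) ndN0q1 ndN0q2 pcN0 Cut.none Ext.none)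

def k0_mm_102 : ∃ t, chk3 f_mm_102 t 1 1 1 = true :=
  ⟨(a (l 5) (l 3)), by decide +kernel⟩

theorem c_mm_102 : CertN 536870912 536870912 0 536870912 50331648 16777216 3 false false false .npp 1 0 2
    ndN0q1 ndN0q2 pcN0 Cut.none Ext.none :=
  certNK0 (fam := false) (s1 := false) (s2 := false) (a := 1) (b := 0) (c := 2) (cn := .npp) (n1 := ndN0q1) (n2 := ndN0q2) (pc := pcN0) (cut := Cut.none) (xt := Ext.none) (P1 := 536870912) (W1 := 536870912) (P2 := 0) (W2 := 536870912) (P3 := 50331648) (W3 := 16777216) (N0 := 3)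
    rfl rfl rfl k0_mm_102

noncomputable def f_mm_112 : ℕ → ℕ → ℕ → ℕ → Bool := onCell 536870912 536870912 0 536870912 50331648 16777216
    (rowNK 3 2 false false false .dn 1 1 2 (qsf 536870912 536870912 0 536870912 1) ndN0q1 ndN0q2 pcN1 Cut.none Ext.none)

def k0_mm_112 : ∃ t, chk3 f_mm_112 t 1 1 1 = true :=
  ⟨(l 5), by decide +kernel⟩

theorem c_mm_112 : CertN 536870912 536870912 0 536870912 50331648 16777216 3 false false false .dn 1 1 2
    ndN0q1 ndN0q2 pcN1 Cut.none Ext.none :=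
  certNK2 (fam := false) (s1 := false) (s2 := false) (a := 1) (b := 1) (c := 2) (cn := .dn) (n1 := ndN0q1) (n2 := ndN0q2) (pc := pcN1) (cut := Cut.none) (xt := Ext.none) (P1 := 536870912) (W1 := 536870912) (P2 := 0) (W2 := 536870912) (P3 := 50331648) (W3 := 16777216) (N0 := 3)
    rfl rfl rfl (fun _ => rfl) k0_mm_112

noncomputable def f_mm_202 : ℕ → ℕ → ℕ → ℕ → Bool := onCell 0 536870912 0 536870912 50331648 16777216
    (rowNK 3 0 false false false .pp 2 0 2 (qsf 0 536870912 0 536870912 0) ndN0q2 ndN0q2 pcN0 Cut.none Ext.none)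

def k0_mm_202 : ∃ t, chk3 f_mm_202 t 1 1 1 = true :=
  ⟨(l 3), by decide +kernel⟩

theorem c_mm_202 : CertN 0 536870912 0 536870912 50331648 16777216 3 false false false .pp 2 0 2
    ndN0q2 ndN0q2 pcN0 Cut.none Ext.none :=
  certNK0 (fam := false) (s1 := false) (s2 := false) (a := 2) (b := 0) (c := 2) (cn := .pp) (n1 := ndN0q2) (n2 := ndN0q2) (pc := pcN0) (cut := Cut.none) (xt := Ext.none) (P1 := 0) (W1 := 536870912) (P2 := 0) (W2 := 536870912) (P3 := 50331648) (W3 := 16777216) (N0 := 3)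
    rfl rfl rfl k0_mm_202

end Pool.Agent.Strip051.G.I3_64_1_16.Tab.C.NB00

namespace Pool.Agent.Strip051.G.I3_64_1_16.Tab.C.NB01

open Pool.Agent.Strip051.PB Pool.Agent.Strip051.PB.T
open Pool.Agent.Strip051.G.I3_64_1_16.Tab

noncomputable def f_pp_001 : ℕ → ℕ → ℕ → ℕ → Bool := onCell 0 536870912 536870912 536870912 50331648 16777216
    (rowNK 3 0 false true true .up 0 0 1 (qsf 0 536870912 536870912 536870912 0) ndN0q0 ndN1q1 pcN0 Cut.none Ext.none)

def k0_pp_001 : ∃ t, chk3 f_pp_001 t 1 1 1 = true :=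
  ⟨(l 3), by decide +kernel⟩

theorem c_pp_001 : CertN 0 536870912 536870912 536870912 50331648 16777216 3 false true true .up 0 0 1
    ndN0q0 ndN1q1 pcN0 Cut.none Ext.none :=
  certNK0 (fam := false) (s1 := true) (s2 := true) (a := 0) (b := 0) (c := 1) (cn := .up) (n1 := ndN0q0) (n2 := ndN1q1) (pc := pcN0) (cut := Cut.none) (xt := Ext.none) (P1 := 0) (W1 := 536870912) (P2 := 536870912) (W2 := 536870912) (P3 := 50331648) (W3 := 16777216) (N0 := 3)
    rfl rfl rfl k0_pp_001

noncomputable def f_pp_011 : ℕ → ℕ → ℕ → ℕ → Bool := onCell 0 536870912 536870912 536870912 50331648 16777216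
    (rowNK 3 0 false true true .pnn 0 1 1 (qsf 0 536870912 536870912 536870912 1) ndN0q0 ndN1q1 pcN1 Cut.none Ext.none)

def k0_pp_011 : ∃ t, chk3 f_pp_011 t 1 1 1 = true :=
  ⟨(l 3), by decide +kernel⟩

theorem c_pp_011 : CertN 0 536870912 536870912 536870912 50331648 16777216 3 false true true .pnn 0 1 1
    ndN0q0 ndN1q1 pcN1 Cut.none Ext.none :=
  certNK0 (fam := false) (s1 := true) (s2 := true) (a := 0) (b := 1) (c := 1) (cn := .pnn) (n1 := ndN0q0) (n2 := ndN1q1) (pc := pcN1) (cut := Cut.none) (xt := Ext.none) (P1 := 0) (W1 := 536870912) (P2 := 536870912) (W2 := 536870912) (P3 := 50331648) (W3 := 16777216) (N0 := 3)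
    rfl rfl rfl k0_pp_011

noncomputable def cut_pp_012_a : Cut := Cut.of [[⟨0, 0, 0, 50331648⟩, ⟨1, 1, 0, 50331648⟩, ⟨2, 1, 0, 50331648⟩]]

noncomputable def f_pp_012_a : ℕ → ℕ → ℕ → ℕ → Bool := onCell 536870912 536870912 0 536870912 50331648 16777216
    (rowNK 3 2 false true true .pnp 0 1 2 (qsf 0 536870912 0 536870912 1) ndN0q0 ndN1q2a pcN1 cut_pp_012_a Ext.none)

def k0_pp_012_a : ∃ t, chk3 f_pp_012_a t 2 1 1 = true :=
  ⟨(l 3), by decide +kernel⟩

def k1_pp_012_a : ∃ t, chk3 f_pp_012_a t 6 1 1 = true :=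
  ⟨(b (a (l 3) (b (a (l 3) (l 56002898055)) (l 3))) (l 3)), by decide +kernel⟩

def k2_pp_012_a : ∃ t, chk3 f_pp_012_a t 7 2 1 = true :=
  ⟨(a (b (a (l 70499217511) (l 17440680)) (a (b (l 73182869191) (l 3)) (b (l 17292496) (a (l 17069512) (l 17265064))))) (b (a (l 17719096) (l 18043544)) (a (b (l 17597344) (a (l 17408688) (l 17564152))) (b (l 17928968) (a (l 17730944) (l 17904072)))))), by decide +kernel⟩

def k3_pp_012_a : ∃ t, chk3 f_pp_012_a t 14 3 1 = true :=
  ⟨(b (a (l 3) (b (b (a (l 3) (l 17157960)) (l 3)) (l 3))) (l 3)), by decide +kernel⟩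

def k4_pp_012_a : ∃ t, chk3 f_pp_012_a t 15 6 1 = true :=
  ⟨(a (b (a (b (l 17303112) (l 17217328)) (l 17415832)) (a (b (l 46875963511) (l 3)) (b (l 17270056) (a (l 49023482391) (l 17163728))))) (b (a (l 17578696) (b (l 17789328) (l 17686856))) (a (b (l 17422944) (a (l 17254656) (l 17253632))) (b (a (l 17526112) (l 17579024)) (b (a (l 17409160) (l 17438912)) (a (l 17315168) (a (l 17323624) (l 17230072)))))))), by decide +kernel⟩

def k5_pp_012_a : ∃ t, chk3 f_pp_012_a t 30 7 1 = true :=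
  ⟨(b (a (l 3) (b (a (l 3) (b (l 17076720) (l 3))) (l 3))) (l 3)), by decide +kernel⟩

def k6_pp_012_a : ∃ t, chk3 f_pp_012_a t 31 7 1 = true :=
  ⟨(b (a (b (b (a (l 17138848) (l 17080856)) (a (b (l 17074608) (l 16966688)) (b (l 17048096) (a (l 17053864) (l 17058696))))) (b (a (b (a (l 3) (l 16991624)) (l 3)) (b (a (l 16938264) (l 16852232)) (a (b (l 16939720) (l 16870424)) (b (l 16889584) (l 16815848))))) (a (l 3) (b (a (a (l 3) (l 6610197991)) (a (l 3388972391) (a (l 16805248) (l 16795872)))) (a (l 3) (a (b (l 16791280) (l 16782136)) (b (l 16791464) (l 16778488)))))))) (b (a (a (b (l 17203952) (b (l 17115584) (l 16966920))) (b (l 17119760) (b (l 17038896) (l 16836712)))) (a (b (b (l 17225760) (l 17109568)) (b (l 16901016) (l 16745440))) (b (b (l 17136424) (l 16879752)) (b (a (l 16943336) (l 16884520)) (l 16746808))))) (a (a (b (a (b (l 16945448) (l 16811440)) (b (l 16910648) (l 16811296))) (b (a (b (l 16839568) (l 16801376)) (l 16758888)) (a (b (l 16783648)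 (l 16763544)) (l 16763848)))) (b (b (l 16752792) (a (l 16782800) (l 16787480))) (b (a (l 16758656) (l 16757280)) (a (l 16762072) (l 16760920))))) (a (b (b (l 16751128) (b (l 16753080) (l 16753704))) (b (a (l 16756072) (l 16754832)) (a (l 16758432) (l 16757224)))) (b (b (a (l 16792408) (l 16747488)) (a (l 16751192) (l 16749872))) (b (a (l 16753576) (l 16752288)) (l 6))))))) (a (b (b (a (l 3) (b (a (l 3) (b (a (l 3) (l 16765472)) (l 3))) (l 3))) (l 3)) (l 3)) (b (a (b (a (b (a (b (l 16764672) (l 16765744)) (b (l 16763600) (l 16764760))) (a (b (l 3925849607) (l 3)) (b (l 16767240) (l 6)))) (b (a (b (l 16762504) (l 16763680)) (b (l 16761376) (l 6))) (l 6))) (l 6)) (l 6)) (l 6)))), by decide +kernel⟩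

theorem s7_pp_012_a : ∃ t, chk3 f_pp_012_a t 15 7 1 = true := ex3_a k5_pp_012_a k6_pp_012_a

theorem s8_pp_012_a : ∃ t, chk3 f_pp_012_a t 15 3 1 = true := ex3_b k4_pp_012_a s7_pp_012_a

theorem s9_pp_012_a : ∃ t, chk3 f_pp_012_a t 7 3 1 = true := ex3_a k3_pp_012_a s8_pp_012_a

theorem s10_pp_012_a : ∃ t, chk3 f_pp_012_a t 7 1 1 = true := ex3_b k2_pp_012_a s9_pp_012_a

theorem s11_pp_012_a : ∃ t, chk3 f_pp_012_a t 3 1 1 = true := ex3_a k1_pp_012_a s10_pp_012_a

theorem s12_pp_012_a : ∃ t, chk3 f_pp_012_a t 1 1 1 = true := ex3_a k0_pp_012_a s11_pp_012_a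

theorem c_pp_012_a : CertN 0 536870912 0 536870912 50331648 16777216 3 false true true .pnp 0 1 2
    ndN0q0 ndN1q2a pcN1 cut_pp_012_a Ext.none :=
  certNK2 (fam := false) (s1 := true) (s2 := true) (a := 0) (b := 1) (c := 2) (cn := .pnp) (n1 := ndN0q0) (n2 := ndN1q2a) (pc := pcN1) (cut := cut_pp_012_a) (xt := Ext.none) (P1 := 0) (W1 := 536870912) (P2 := 0) (W2 := 536870912) (P3 := 50331648) (W3 := 16777216) (N0 := 3)
    rfl rfl rfl (fun _ => rfl) s12_pp_012_a

noncomputable def cut_pp_012_b : Cut := Cut.of [[⟨0, 0, 0, 50331648⟩, ⟨1, 1, 0, 50331648⟩, ⟨2, 1, 0, 50331648⟩]]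

noncomputable def f_pp_012_b : ℕ → ℕ → ℕ → ℕ → Bool := onCell 536870912 536870912 1239849684 370763052 50331648 16777216
    (rowNK 3 2 false true true .pnp 0 1 2 (qsf 0 536870912 1239849684 370763052 1) ndN0q0 ndN1q2b pcN1 cut_pp_012_b Ext.none)

def k0_pp_012_b : ∃ t, chk3 f_pp_012_b t 1 1 1 = true :=
  ⟨(a (l 3) (a (a (l 3) (b (b (b (a (l 3) (l 17242256)) (l 74793840583)) (l 90363439927)) (b (l 3) (l 2)))) (b (a (b (a (l 17580424) (l 17624264)) (l 17817728)) (b (a (l 17894552) (l 18204840)) (l 18265392))) (a (b (l 17548736) (l 17443176)) (b (l 17981592) (l 17827088)))))), by decide +kernel⟩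

theorem c_pp_012_b : CertN 0 536870912 1239849684 370763052 50331648 16777216 3 false true true .pnp 0 1 2
    ndN0q0 ndN1q2b pcN1 cut_pp_012_b Ext.none :=
  certNK2 (fam := false) (s1 := true) (s2 := true) (a := 0) (b := 1) (c := 2) (cn := .pnp) (n1 := ndN0q0) (n2 := ndN1q2b) (pc := pcN1) (cut := cut_pp_012_b) (xt := Ext.none) (P1 := 0) (W1 := 536870912) (P2 := 1239849684) (W2 := 370763052) (P3 := 50331648) (W3 := 16777216) (N0 := 3)
    rfl rfl rfl (fun _ => rfl) k0_pp_012_b

noncomputable def cut_pp_022_a : Cut := Cut.of [[⟨0, 0, 0, 50331648⟩, ⟨1, 1, 0, 50331648⟩, ⟨2, 1, 0, 50331648⟩]]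

noncomputable def f_pp_022_a : ℕ → ℕ → ℕ → ℕ → Bool := onCell 1073741824 536870912 0 536870912 50331648 16777216
    (rowNK 3 2 false true true .pp 0 2 2 (qsf 0 536870912 0 536870912 2) ndN0q0 ndN1q2a pcN2 cut_pp_022_a Ext.none)

def k0_pp_022_a : ∃ t, chk3 f_pp_022_a t 2 2 1 = true :=
  ⟨(b (a (a (a (a (l 18261792) (l 18275592)) (l 18360240)) (l 18680744)) (l 18951408)) (a (a (a (a (l 18098384) (a (l 18146720) (l 18180256))) (a (l 18237000) (l 18328320))) (a (l 18473552) (l 18677280))) (a (l 18904552) (l 1)))), by decide +kernel⟩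

def k1_pp_022_a : ∃ t, chk3 f_pp_022_a t 2 6 1 = true :=
  ⟨(a (a (a (a (b (l 17863160) (b (b (l 17691488) (l 17597600)) (b (a (l 17463952) (l 17502064)) (a (b (l 17361656) (l 17240600)) (l 17354520))))) (b (a (l 17928200) (l 17972480)) (a (b (l 17713360) (l 17261560)) (b (l 17759816) (a (l 17504104) (l 17526984)))))) (b (a (l 18046776) (l 18162944)) (a (b (a (l 17814800) (l 17871880)) (a (b (l 17640816) (l 17477232)) (b (l 17696296) (l 17528552)))) (b (l 17963656) (b (l 17787640) (a (l 17584864) (l 17645712))))))) (a (b (a (l 18291152) (l 18422040)) (b (a (l 18101608) (l 18245840)) (a (b (l 17924432) (a (l 17711040) (l 17536872))) (b (l 18053680) (l 1))))) (b (l 18597296) (b (l 18422184) (l 1))))) (l 1)), by decide +kernel⟩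

def k2_pp_022_a : ∃ t, chk3 f_pp_022_a t 4 14 1 = true :=
  ⟨(b (a (a (a (a (a (b (c (l 17269616) (b (l 17060272) (l 16931304))) (b (b (l 16896984) (l 16855528)) (l 16746848))) (b (l 16979240) (l 16755696))) (b (b (l 17215920) (l 17063048)) (b (l 16912232) (l 16821200)))) (a (b (l 17082096) (b (l 16985488) (l 16817224))) (a (b (l 17209328) (l 16911752)) (b (l 17225744) (l 16813720))))) (a (b (a (a (l 17243944) (l 17263480)) (b (l 17362416) (l 17202976))) (a (a (l 16843360) (l 16853800)) (b (l 16888272) (l 16734048)))) (b (a (b (l 17412992) (l 17247568)) (b (l 17468592) (l 17192736))) (a (b (l 16882472) (l 16726808)) (b (a (l 17101192) (a (l 17012232) (l 17084160))) (a (l 16725824) (l 16906912))))))) (a (a (a (b (a (b (l 17512984) (l 17145632)) (l 23656731767)) (a (l 17042760) (l 1))) (b (l 17480784) (l 1))) (l 1)) (l 1))) (a (b (a (a (a (a (b (l 16750784) (a (l 16750232) (l 16745272))) (b (l 16735336) (l 16758784))) (a (b (l 16725104) (l 16727864)) (l 16737312)))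 (a (a (l 16727128) (l 16725056)) (a (l 16727544) (b (l 16728704) (l 16733392))))) (a (a (a (b (l 16710088) (l 16735328)) (b (l 16713112) (l 16716952))) (b (a (l 16715432) (l 16717752)) (a (l 16718848) (l 16720752)))) (a (a (b (l 16720048) (a (l 16721632) (l 16722608))) (b (l 16722328) (l 16724488))) (a (l 16725464) (l 1))))) (b (a (b (a (a (a (l 16754672) (l 16739704)) (a (l 16729960) (l 16741144))) (a (l 16730896) (a (l 16712976) (l 16736944)))) (l 6)) (a (a (a (l 16729176) (l 16726112)) (a (l 16727592) (a (l 16722816) (l 16723608)))) (a (a (l 16725288) (l 1)) (l 1)))) (a (l 6) (a (a (l 6) (a (l 6) (l 1))) (l 1))))) (l 1))), by decide +kernel⟩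

def k3_pp_022_a : ∃ t, chk3 f_pp_022_a t 4 15 1 = true :=
  ⟨(a (a (l 6) (a (a (l 6) (a (l 6) (l 1))) (l 1))) (l 1)), by decide +kernel⟩

def k4_pp_022_a : ∃ t, chk3 f_pp_022_a t 5 7 1 = true :=
  ⟨(l 1), by decide +kernel⟩

def k5_pp_022_a : ∃ t, chk3 f_pp_022_a t 3 1 1 = true :=
  ⟨(l 1), by decide +kernel⟩

theorem s6_pp_022_a : ∃ t, chk3 f_pp_022_a t 4 7 1 = true := ex3_b k2_pp_022_a k3_pp_022_a

theorem s7_pp_022_a : ∃ t, chk3 f_pp_022_a t 2 7 1 = true := ex3_a s6_pp_022_a k4_pp_022_a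

theorem s8_pp_022_a : ∃ t, chk3 f_pp_022_a t 2 3 1 = true := ex3_b k1_pp_022_a s7_pp_022_a

theorem s9_pp_022_a : ∃ t, chk3 f_pp_022_a t 2 1 1 = true := ex3_b k0_pp_022_a s8_pp_022_a

theorem s10_pp_022_a : ∃ t, chk3 f_pp_022_a t 1 1 1 = true := ex3_a s9_pp_022_a k5_pp_022_a

theorem c_pp_022_a : CertN 0 536870912 0 536870912 50331648 16777216 3 false true true .pp 0 2 2
    ndN0q0 ndN1q2a pcN2 cut_pp_022_a Ext.none :=
  certNK2 (fam := false) (s1 := true) (s2 := true) (a := 0) (b := 2) (c := 2) (cn := .pp) (n1 := ndN0q0) (n2 := ndN1q2a) (pc := pcN2) (cut := cut_pp_022_a) (xt := Ext.none) (P1 := 0) (W1 := 536870912) (P2 := 0) (W2 := 536870912) (P3 := 50331648) (W3 := 16777216) (N0 := 3)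
    rfl rfl rfl (fun _ => rfl) s10_pp_022_a

noncomputable def cut_pp_022_b : Cut := Cut.of [[⟨0, 0, 0, 50331648⟩, ⟨1, 1, 0, 50331648⟩, ⟨2, 1, 0, 50331648⟩]]

noncomputable def f_pp_022_b : ℕ → ℕ → ℕ → ℕ → Bool := onCell 1073741824 536870912 1239849684 370763052 50331648 16777216
    (rowNK 3 2 false true true .pp 0 2 2 (qsf 0 536870912 1239849684 370763052 2) ndN0q0 ndN1q2b pcN2 cut_pp_022_b Ext.none)

def k0_pp_022_b : ∃ t, chk3 f_pp_022_b t 1 1 1 = true :=
  ⟨(a (a (a (a (a (b (l 18443032) (l 18169112)) (b (b (l 18413888) (l 18388792)) (l 18142560))) (b (b (l 18454576) (l 18403536)) (l 18165568))) (b (b (a (l 18537936) (l 18595584)) (l 18414000)) (b (l 18215520) (l 17986040)))) (b (b (a (l 18720392) (l 18733664)) (l 18468296)) (b (l 18133160) (l 17828504)))) (a (b (l 218006843479) (l 18064960)) (b (l 1) (l 18272104)))), by decide +kernel⟩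

theorem c_pp_022_b : CertN 0 536870912 1239849684 370763052 50331648 16777216 3 false true true .pp 0 2 2
    ndN0q0 ndN1q2b pcN2 cut_pp_022_b Ext.none :=
  certNK2 (fam := false) (s1 := true) (s2 := true) (a := 0) (b := 2) (c := 2) (cn := .pp) (n1 := ndN0q0) (n2 := ndN1q2b) (pc := pcN2) (cut := cut_pp_022_b) (xt := Ext.none) (P1 := 0) (W1 := 536870912) (P2 := 1239849684) (W2 := 370763052) (P3 := 50331648) (W3 := 16777216) (N0 := 3)
    rfl rfl rfl (fun _ => rfl) k0_pp_022_b

noncomputable def f_pp_023 : ℕ → ℕ → ℕ → ℕ → Bool := onCell 0 536870912 1073741824 536870912 50331648 16777216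
    (rowNK 3 1 false true true .up 0 2 3 (qsf 0 536870912 1610612736 536870912 2) ndN0q0 ndN1q3 pcN2 Cut.none Ext.none)

def k0_pp_023 : ∃ t, chk3 f_pp_023 t 1 1 1 = true :=
  ⟨(a (b (b (l 1) (l 359740237111)) (b (l 337728139319) (a (l 17857616) (l 17506656)))) (a (b (b (b (l 1) (l 18249032)) (l 17756680)) (b (l 17494920) (l 17252352))) (b (b (b (b (b (l 18306192) (l 18223912)) (l 18141216)) (l 17919992)) (l 17354872)) (b (l 17352752) (l 17074648))))), by decide +kernel⟩

theorem c_pp_023 : CertN 0 536870912 1610612736 536870912 50331648 16777216 3 false true true .up 0 2 3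
    ndN0q0 ndN1q3 pcN2 Cut.none Ext.none :=
  certNK1 (fam := false) (s1 := true) (s2 := true) (a := 0) (b := 2) (c := 3) (cn := .up) (n1 := ndN0q0) (n2 := ndN1q3) (pc := pcN2) (cut := Cut.none) (xt := Ext.none) (P1 := 0) (W1 := 536870912) (P2 := 1610612736) (W2 := 536870912) (P3 := 50331648) (W3 := 16777216) (N0 := 3)
    rfl rfl rfl (fun _ => rfl) k0_pp_023

noncomputable def f_pp_033 : ℕ → ℕ → ℕ → ℕ → Bool := onCell 1610612736 536870912 1610612736 536870912 50331648 16777216
    (rowNK 3 2 false true true .pnn 0 3 3 (qsf 0 536870912 1610612736 536870912 3) ndN0q0 ndN1q3 pcN3 Cut.none Ext.none)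

def k0_pp_033 : ∃ t, chk3 f_pp_033 t 1 1 1 = true :=
  ⟨(a (a (b (a (l 18929456) (l 18259256)) (b (l 17968552) (a (l 17670344) (l 16914032)))) (b (a (b (l 17752072) (l 17683392)) (l 18303192)) (a (b (l 17622448) (l 17616640)) (b (l 18174760) (l 17974536))))) (a (b (a (l 321086604167) (l 1)) (a (b (l 18343792) (l 4)) (l 4))) (l 4))), by decide +kernel⟩

theorem c_pp_033 : CertN 0 536870912 1610612736 536870912 50331648 16777216 3 false true true .pnn 0 3 3
    ndN0q0 ndN1q3 pcN3 Cut.none Ext.none :=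
  certNK2 (fam := false) (s1 := true) (s2 := true) (a := 0) (b := 3) (c := 3) (cn := .pnn) (n1 := ndN0q0) (n2 := ndN1q3) (pc := pcN3) (cut := Cut.none) (xt := Ext.none) (P1 := 0) (W1 := 536870912) (P2 := 1610612736) (W2 := 536870912) (P3 := 50331648) (W3 := 16777216) (N0 := 3)
    rfl rfl rfl (fun _ => rfl) k0_pp_033

noncomputable def f_pp_101 : ℕ → ℕ → ℕ → ℕ → Bool := onCell 536870912 536870912 536870912 536870912 50331648 16777216
    (rowNK 3 0 false true true .npn 1 0 1 (qsf 536870912 536870912 536870912 536870912 0) ndN0q1 ndN1q1 pcN0 Cut.none Ext.none)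

def k0_pp_101 : ∃ t, chk3 f_pp_101 t 1 1 1 = true :=
  ⟨(l 3), by decide +kernel⟩

theorem c_pp_101 : CertN 536870912 536870912 536870912 536870912 50331648 16777216 3 false true true .npn 1 0 1
    ndN0q1 ndN1q1 pcN0 Cut.none Ext.none :=
  certNK0 (fam := false) (s1 := true) (s2 := true) (a := 1) (b := 0) (c := 1) (cn := .npn) (n1 := ndN0q1) (n2 := ndN1q1) (pc := pcN0) (cut := Cut.none) (xt := Ext.none) (P1 := 536870912) (W1 := 536870912) (P2 := 536870912) (W2 := 536870912) (P3 := 50331648) (W3 := 16777216) (N0 := 3)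
    rfl rfl rfl k0_pp_101

noncomputable def f_pp_102_a : ℕ → ℕ → ℕ → ℕ → Bool := onCell 536870912 536870912 0 536870912 50331648 16777216
    (rowNK 3 0 false true true .npp 1 0 2 (qsf 536870912 536870912 0 536870912 0) ndN0q1 ndN1q2a pcN0 Cut.none Ext.none)

def k0_pp_102_a : ∃ t, chk3 f_pp_102_a t 1 1 1 = true :=
  ⟨(l 3), by decide +kernel⟩

theorem c_pp_102_a : CertN 536870912 536870912 0 536870912 50331648 16777216 3 false true true .npp 1 0 2
    ndN0q1 ndN1q2a pcN0 Cut.none Ext.none :=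
  certNK0 (fam := false) (s1 := true) (s2 := true) (a := 1) (b := 0) (c := 2) (cn := .npp) (n1 := ndN0q1) (n2 := ndN1q2a) (pc := pcN0) (cut := Cut.none) (xt := Ext.none) (P1 := 536870912) (W1 := 536870912) (P2 := 0) (W2 := 536870912) (P3 := 50331648) (W3 := 16777216) (N0 := 3)
    rfl rfl rfl k0_pp_102_a

noncomputable def f_pp_102_b : ℕ → ℕ → ℕ → ℕ → Bool := onCell 536870912 536870912 0 536870912 50331648 16777216
    (rowNK 3 1 false true true .npp 1 0 2 (qsf 536870912 536870912 1239849684 370763052 0) ndN0q1 ndN1q2b pcN0 Cut.none Ext.none)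

def k0_pp_102_b : ∃ t, chk3 f_pp_102_b t 1 1 1 = true :=
  ⟨(l 3), by decide +kernel⟩

theorem c_pp_102_b : CertN 536870912 536870912 1239849684 370763052 50331648 16777216 3 false true true .npp 1 0 2
    ndN0q1 ndN1q2b pcN0 Cut.none Ext.none :=
  certNK1 (fam := false) (s1 := true) (s2 := true) (a := 1) (b := 0) (c := 2) (cn := .npp) (n1 := ndN0q1) (n2 := ndN1q2b) (pc := pcN0) (cut := Cut.none) (xt := Ext.none) (P1 := 536870912) (W1 := 536870912) (P2 := 1239849684) (W2 := 370763052) (P3 := 50331648) (W3 := 16777216) (N0 := 3)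
    rfl rfl rfl (fun _ => rfl) k0_pp_102_b

noncomputable def f_pp_112_a : ℕ → ℕ → ℕ → ℕ → Bool := onCell 536870912 536870912 0 536870912 50331648 16777216
    (rowNK 3 0 false true true .dn 1 1 2 (qsf 536870912 536870912 0 536870912 1) ndN0q1 ndN1q2a pcN1 Cut.none Ext.none)

def k0_pp_112_a : ∃ t, chk3 f_pp_112_a t 1 1 1 = true :=
  ⟨(l 3), by decide +kernel⟩

theorem c_pp_112_a : CertN 536870912 536870912 0 536870912 50331648 16777216 3 false true true .dn 1 1 2
    ndN0q1 ndN1q2a pcN1 Cut.none Ext.none :=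
  certNK0 (fam := false) (s1 := true) (s2 := true) (a := 1) (b := 1) (c := 2) (cn := .dn) (n1 := ndN0q1) (n2 := ndN1q2a) (pc := pcN1) (cut := Cut.none) (xt := Ext.none) (P1 := 536870912) (W1 := 536870912) (P2 := 0) (W2 := 536870912) (P3 := 50331648) (W3 := 16777216) (N0 := 3)
    rfl rfl rfl k0_pp_112_a

noncomputable def f_pp_112_b : ℕ → ℕ → ℕ → ℕ → Bool := onCell 536870912 536870912 1239849684 370763052 50331648 16777216
    (rowNK 3 0 false true true .dn 1 1 2 (qsf 536870912 536870912 1239849684 370763052 1) ndN0q1 ndN1q2b pcN1 Cut.none Ext.none)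

def k0_pp_112_b : ∃ t, chk3 f_pp_112_b t 1 1 1 = true :=
  ⟨(a (b (l 3) (a (b (a (b (l 3) (l 17274312)) (l 3)) (a (l 78015976535) (l 138145002375))) (l 3))) (l 3)), by decide +kernel⟩

theorem c_pp_112_b : CertN 536870912 536870912 1239849684 370763052 50331648 16777216 3 false true true .dn 1 1 2
    ndN0q1 ndN1q2b pcN1 Cut.none Ext.none :=
  certNK0 (fam := false) (s1 := true) (s2 := true) (a := 1) (b := 1) (c := 2) (cn := .dn) (n1 := ndN0q1) (n2 := ndN1q2b) (pc := pcN1) (cut := Cut.none) (xt := Ext.none) (P1 := 536870912) (W1 := 536870912) (P2 := 1239849684) (W2 := 370763052) (P3 := 50331648) (W3 := 16777216) (N0 := 3)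
    rfl rfl rfl k0_pp_112_b

noncomputable def cut_pp_113 : Cut := Cut.of [[⟨0, 1, 0, 14341072⟩, ⟨1, 1, 0, 14341072⟩, ⟨2, 2, 0, 761489⟩]]

noncomputable def f_pp_113 : ℕ → ℕ → ℕ → ℕ → Bool := onCell 536870912 536870912 536870912 536870912 50331648 16777216
    (rowNK 3 1 false true true .nn 1 1 3 (qsf 536870912 536870912 1610612736 536870912 1) ndN0q1 ndN1q3 pcN1 cut_pp_113 Ext.none)

def k0_pp_113 : ∃ t, chk3 f_pp_113 t 1 1 1 = true :=
  ⟨(b (l 3) (a (b (a (l 3) (l 3)) (a (b (l 17869168) (l 17894288)) (b (l 131165721207) (l 17605216)))) (b (l 3) (a (b (l 242297833271) (l 139218617911)) (b (l 3) (a (l 153176967911) (b (l 3) (a (l 149955068631) (b (l 3) (a (l 160692326631) (b (l 3) (a (l 163913478535) (b (l 3) (a (l 165524052791) (b (l 3) (a (l 166060904007) (b (l 3) (a (l 165524027223) (b (l 3) (b (l 534891203959) (a (l 16779704) (a (l 165524016567) (l 6))))))))))))))))))))))), by decide +kernel⟩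

theorem c_pp_113 : CertN 536870912 536870912 1610612736 536870912 50331648 16777216 3 false true true .nn 1 1 3
    ndN0q1 ndN1q3 pcN1 cut_pp_113 Ext.none :=
  certNK1 (fam := false) (s1 := true) (s2 := true) (a := 1) (b := 1) (c := 3) (cn := .nn) (n1 := ndN0q1) (n2 := ndN1q3) (pc := pcN1) (cut := cut_pp_113) (xt := Ext.none) (P1 := 536870912) (W1 := 536870912) (P2 := 1610612736) (W2 := 536870912) (P3 := 50331648) (W3 := 16777216) (N0 := 3)
    rfl rfl rfl (fun _ => rfl) k0_pp_113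

noncomputable def cut_pp_123 : Cut := Cut.of [[⟨0, 1, 0, 14341072⟩, ⟨1, 1, 0, 14341072⟩, ⟨2, 2, 0, 761489⟩]]

noncomputable def f_pp_123 : ℕ → ℕ → ℕ → ℕ → Bool := onCell 1073741824 536870912 1610612736 536870912 50331648 16777216
    (rowNK 3 2 false true true .npn 1 2 3 (qsf 536870912 536870912 1610612736 536870912 2) ndN0q1 ndN1q3 pcN2 cut_pp_123 Ext.none)

def k0_pp_123 : ∃ t, chk3 f_pp_123 t 1 1 1 = true :=
  ⟨(a (b (a (a (a (a (b (l 18011776) (l 17687512)) (b (l 17967312) (l 17645136))) (b (l 17943232) (l 17628064))) (b (l 18055152) (l 17512768))) (b (a (l 17642392) (l 1)) (a (l 17262664) (l 17121392)))) (a (a (a (a (b (l 17336936) (b (l 17072408) (b (l 16933880) (a (b (l 16858136) (b (l 16820600) (b (l 16801512) (b (l 16791872) (b (l 16808008) (b (l 16784608) (l 6))))))) (l 16839376))))) (b (l 17300264) (b (l 17034144) (a (l 16890088) (l 16886320))))) (b (l 17289368) (a (b (l 17062424) (l 16877664)) (l 16997072)))) (b (l 17367024) (a (b (l 17006464)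 (l 16820576)) (l 16954904)))) (b (a (l 16909696) (l 17021320)) (a (l 17247264) (l 17246048))))) (b (a (b (l 1) (l 196530112423)) (l 1)) (a (b (l 17442872) (a (l 17407336) (l 17409504))) (b (a (l 17289776) (l 1)) (a (l 17186728) (l 16907928)))))), by decide +kernel⟩

theorem c_pp_123 : CertN 536870912 536870912 1610612736 536870912 50331648 16777216 3 false true true .npn 1 2 3
    ndN0q1 ndN1q3 pcN2 cut_pp_123 Ext.none :=
  certNK2 (fam := false) (s1 := true) (s2 := true) (a := 1) (b := 2) (c := 3) (cn := .npn) (n1 := ndN0q1) (n2 := ndN1q3) (pc := pcN2) (cut := cut_pp_123) (xt := Ext.none) (P1 := 536870912) (W1 := 536870912) (P2 := 1610612736) (W2 := 536870912) (P3 := 50331648) (W3 := 16777216) (N0 := 3)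
    rfl rfl rfl (fun _ => rfl) k0_pp_123

noncomputable def f_pp_133 : ℕ → ℕ → ℕ → ℕ → Bool := onCell 1610612736 536870912 1610612736 536870912 50331648 16777216
    (rowNK 3 2 false true true .dn 1 3 3 (qsf 536870912 536870912 1610612736 536870912 3) ndN0q1 ndN1q3 pcN3 Cut.none Ext.none)

def k0_pp_133 : ∃ t, chk3 f_pp_133 t 1 1 1 = true :=
  ⟨(a (b (l 1) (a (b (l 1) (a (l 17760120) (l 1))) (l 1))) (l 1)), by decide +kernel⟩

theorem c_pp_133 : CertN 536870912 536870912 1610612736 536870912 50331648 16777216 3 false true true .dn 1 3 3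
    ndN0q1 ndN1q3 pcN3 Cut.none Ext.none :=
  certNK2 (fam := false) (s1 := true) (s2 := true) (a := 1) (b := 3) (c := 3) (cn := .dn) (n1 := ndN0q1) (n2 := ndN1q3) (pc := pcN3) (cut := Cut.none) (xt := Ext.none) (P1 := 536870912) (W1 := 536870912) (P2 := 1610612736) (W2 := 536870912) (P3 := 50331648) (W3 := 16777216) (N0 := 3)
    rfl rfl rfl (fun _ => rfl) k0_pp_133

noncomputable def f_pp_202_a : ℕ → ℕ → ℕ → ℕ → Bool := onCell 0 536870912 0 536870912 50331648 16777216
    (rowNK 3 0 false true true .pp 2 0 2 (qsf 0 536870912 0 536870912 0) ndN0q2 ndN1q2a pcN0 Cut.none Ext.none)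

def k0_pp_202_a : ∃ t, chk3 f_pp_202_a t 1 1 1 = true :=
  ⟨(l 3), by decide +kernel⟩

theorem c_pp_202_a : CertN 0 536870912 0 536870912 50331648 16777216 3 false true true .pp 2 0 2
    ndN0q2 ndN1q2a pcN0 Cut.none Ext.none :=
  certNK0 (fam := false) (s1 := true) (s2 := true) (a := 2) (b := 0) (c := 2) (cn := .pp) (n1 := ndN0q2) (n2 := ndN1q2a) (pc := pcN0) (cut := Cut.none) (xt := Ext.none) (P1 := 0) (W1 := 536870912) (P2 := 0) (W2 := 536870912) (P3 := 50331648) (W3 := 16777216) (N0 := 3)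
    rfl rfl rfl k0_pp_202_a

noncomputable def f_pp_202_b : ℕ → ℕ → ℕ → ℕ → Bool := onCell 0 536870912 1239849684 370763052 50331648 16777216
    (rowNK 3 0 false true true .pp 2 0 2 (qsf 0 536870912 1239849684 370763052 0) ndN0q2 ndN1q2b pcN0 Cut.none Ext.none)

def k0_pp_202_b : ∃ t, chk3 f_pp_202_b t 1 1 1 = true :=
  ⟨(l 3), by decide +kernel⟩

theorem c_pp_202_b : CertN 0 536870912 1239849684 370763052 50331648 16777216 3 false true true .pp 2 0 2
    ndN0q2 ndN1q2b pcN0 Cut.none Ext.none :=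
  certNK0 (fam := false) (s1 := true) (s2 := true) (a := 2) (b := 0) (c := 2) (cn := .pp) (n1 := ndN0q2) (n2 := ndN1q2b) (pc := pcN0) (cut := Cut.none) (xt := Ext.none) (P1 := 0) (W1 := 536870912) (P2 := 1239849684) (W2 := 370763052) (P3 := 50331648) (W3 := 16777216) (N0 := 3)
    rfl rfl rfl k0_pp_202_b

noncomputable def f_pp_203 : ℕ → ℕ → ℕ → ℕ → Bool := onCell 0 536870912 0 536870912 50331648 16777216
    (rowNK 3 1 false true true .up 2 0 3 (qsf 0 536870912 1610612736 536870912 0) ndN0q2 ndN1q3 pcN0 Cut.none Ext.none)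

def k0_pp_203 : ∃ t, chk3 f_pp_203 t 1 1 1 = true :=
  ⟨(l 3), by decide +kernel⟩

theorem c_pp_203 : CertN 0 536870912 1610612736 536870912 50331648 16777216 3 false true true .up 2 0 3
    ndN0q2 ndN1q3 pcN0 Cut.none Ext.none :=
  certNK1 (fam := false) (s1 := true) (s2 := true) (a := 2) (b := 0) (c := 3) (cn := .up) (n1 := ndN0q2) (n2 := ndN1q3) (pc := pcN0) (cut := Cut.none) (xt := Ext.none) (P1 := 0) (W1 := 536870912) (P2 := 1610612736) (W2 := 536870912) (P3 := 50331648) (W3 := 16777216) (N0 := 3)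
    rfl rfl rfl (fun _ => rfl) k0_pp_203

noncomputable def cut_pp_213 : Cut := Cut.of [[⟨0, 1, 0, 14341072⟩, ⟨1, 1, 0, 14341072⟩, ⟨2, 2, 0, 761489⟩]]

noncomputable def f_pp_213 : ℕ → ℕ → ℕ → ℕ → Bool := onCell 0 536870912 1610612736 536870912 50331648 16777216
    (rowNK 3 0 false true true .pnn 2 1 3 (qsf 0 536870912 1610612736 536870912 1) ndN0q2 ndN1q3 pcN1 cut_pp_213 Ext.none)

def k0_pp_213 : ∃ t, chk3 f_pp_213 t 1 1 1 = true :=
  ⟨(b (l 3) (a (l 3) (b (l 3) (a (l 3) (a (l 3) (b (l 3) (a (l 3) (b (l 3) (a (l 3) (b (l 3) (a (l 3) (b (l 3) (b (l 3) (b (l 3) (b (l 3) (b (l 3) (l 6))))))))))))))))), by decide +kernel⟩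

theorem c_pp_213 : CertN 0 536870912 1610612736 536870912 50331648 16777216 3 false true true .pnn 2 1 3
    ndN0q2 ndN1q3 pcN1 cut_pp_213 Ext.none :=
  certNK0 (fam := false) (s1 := true) (s2 := true) (a := 2) (b := 1) (c := 3) (cn := .pnn) (n1 := ndN0q2) (n2 := ndN1q3) (pc := pcN1) (cut := cut_pp_213) (xt := Ext.none) (P1 := 0) (W1 := 536870912) (P2 := 1610612736) (W2 := 536870912) (P3 := 50331648) (W3 := 16777216) (N0 := 3)
    rfl rfl rfl k0_pp_213

noncomputable def f_pm_001 : ℕ → ℕ → ℕ → ℕ → Bool := onCell 0 536870912 536870912 536870912 50331648 16777216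
    (rowNK 3 0 false true false .up 0 0 1 (qsf 0 536870912 536870912 536870912 0) ndN0q0 ndN1q1 pcN0 Cut.none Ext.none)

def k0_pm_001 : ∃ t, chk3 f_pm_001 t 1 1 1 = true :=
  ⟨(l 4), by decide +kernel⟩

theorem c_pm_001 : CertN 0 536870912 536870912 536870912 50331648 16777216 3 false true false .up 0 0 1
    ndN0q0 ndN1q1 pcN0 Cut.none Ext.none :=
  certNK0 (fam := false) (s1 := true) (s2 := false) (a := 0) (b := 0) (c := 1) (cn := .up) (n1 := ndN0q0) (n2 := ndN1q1) (pc := pcN0) (cut := Cut.none) (xt := Ext.none) (P1 := 0) (W1 := 536870912) (P2 := 536870912) (W2 := 536870912) (P3 := 50331648) (W3 := 16777216) (N0 := 3)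
    rfl rfl rfl k0_pm_001

noncomputable def f_pm_011 : ℕ → ℕ → ℕ → ℕ → Bool := onCell 0 536870912 536870912 536870912 50331648 16777216
    (rowNK 3 0 false true false .pnn 0 1 1 (qsf 0 536870912 536870912 536870912 1) ndN0q0 ndN1q1 pcN1 Cut.none Ext.none)

def k0_pm_011 : ∃ t, chk3 f_pm_011 t 1 1 1 = true :=
  ⟨(l 4), by decide +kernel⟩

theorem c_pm_011 : CertN 0 536870912 536870912 536870912 50331648 16777216 3 false true false .pnn 0 1 1
    ndN0q0 ndN1q1 pcN1 Cut.none Ext.none :=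
  certNK0 (fam := false) (s1 := true) (s2 := false) (a := 0) (b := 1) (c := 1) (cn := .pnn) (n1 := ndN0q0) (n2 := ndN1q1) (pc := pcN1) (cut := Cut.none) (xt := Ext.none) (P1 := 0) (W1 := 536870912) (P2 := 536870912) (W2 := 536870912) (P3 := 50331648) (W3 := 16777216) (N0 := 3)
    rfl rfl rfl k0_pm_011

noncomputable def cut_pm_012_a : Cut := Cut.of [[⟨0, 0, 0, 50331648⟩, ⟨1, 1, 0, 50331648⟩, ⟨2, 1, 0, 50331648⟩], [⟨0, 0, 1, 33554432⟩, ⟨1, 1, 2, 33554432⟩, ⟨2, 1, 0, 16777216⟩, ⟨0, 0, 0, 83886080⟩, ⟨0, 1, 0, 1040187392⟩, ⟨1, 0, 0, 1040187392⟩, ⟨1, 1, 0, 83886080⟩]]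

noncomputable def f_pm_012_a : ℕ → ℕ → ℕ → ℕ → Bool := onCell 536870912 536870912 0 536870912 50331648 16777216
    (rowNK 3 2 false true false .pnp 0 1 2 (qsf 0 536870912 0 536870912 1) ndN0q0 ndN1q2a pcN1 cut_pm_012_a Ext.none)

def k0_pm_012_a : ∃ t, chk3 f_pm_012_a t 2 1 1 = true :=
  ⟨(a (b (b (l 2) (l 274444264679)) (b (a (l 2) (l 17353360)) (b (l 17859640) (a (l 18041376) (l 18109040))))) (b (b (l 18064816) (l 17751656)) (b (l 17773240) (b (l 17792568) (a (l 18099952) (l 18069184)))))), by decide +kernel⟩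

def k1_pm_012_a : ∃ t, chk3 f_pm_012_a t 3 2 1 = true :=
  ⟨(a (a (l 18100048) (l 18466600)) (a (a (l 18850184) (l 19149976)) (a (b (l 19398872) (l 19468832)) (a (b (l 19542280) (l 19568808)) (b (l 19630064) (l 19610256)))))), by decide +kernel⟩

def k2_pm_012_a : ∃ t, chk3 f_pm_012_a t 6 3 1 = true :=
  ⟨(b (a (l 17981056) (l 18407752)) (a (b (l 17819752) (b (l 17720960) (l 17886976))) (b (l 18212024) (b (l 18023912) (a (l 17780640) (a (l 17868496) (l 17904496))))))), by decide +kernel⟩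

def k3_pm_012_a : ∃ t, chk3 f_pm_012_a t 14 3 1 = true :=
  ⟨(b (a (l 18793976) (l 19059456)) (b (a (l 18492264) (a (l 18600688) (b (l 18739872) (l 18459288)))) (a (b (l 18186048) (b (l 17974904) (a (l 17831504) (l 17770824)))) (a (b (l 18168832) (b (a (l 17894072) (l 17825328)) (a (l 17461064) (b (l 17634488) (a (l 17531000) (l 17401616)))))) (b (b (l 18175584) (a (l 17986416) (l 17888768))) (b (a (l 17538920) (a (l 17425360) (b (l 17640928) (l 17398408)))) (b (a (c (l 17624272) (l 17272200)) (a (l 17150184) (l 14))) (a (a (a (l 17347760) (l 17229720)) (b (l 17318760) (l 14))) (l 14))))))))), by decide +kernel⟩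

def k4_pm_012_a : ∃ t, chk3 f_pm_012_a t 30 3 1 = true :=
  ⟨(b (a (l 19155248) (b (l 19318064) (l 19023488))) (b (a (b (l 18699928) (b (l 18448968) (l 18236936))) (b (a (l 18624336) (l 18544984)) (a (b (l 18315856) (l 18051520)) (b (l 18181608) (a (l 17917504) (l 17597048)))))) (a (b (b (a (l 18040784) (l 17763256)) (b (a (l 17834472) (l 17440368)) (a (l 17639928) (a (l 17504608) (l 17226880))))) (b (b (a (a (l 17561928) (l 17323544)) (c (a (l 17531864) (l 17399216)) (a (l 17027064) (b (l 17106608) (l 16961520))))) (l 14)) (l 14))) (a (b (b (c (l 17900856) (a (l 17594672) (l 17242368))) (b (c (l 17456144) (a (l 17316456) (l 17081992))) (c (a (l 17502432) (l 17218392)) (a (l 16942648) (l 16727688))))) (b (b (a (c (b (l 17342856) (l 17189488)) (b (l 16925416) (l 16833040))) (b (l 16804464) (l 16763808))) (l 14)) (l 14))) (a (b (b (b (l 17647192) (l 17210928)) (b (c (l 17421352) (l 16860184)) (b (l 16861584) (l 16794144)))) (b (b (b (l 16763504) (l 16740728))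 (l 14)) (l 14))) (b (b (b (l 17317568) (a (l 17194664) (l 17082808))) (b (a (l 16925576) (l 16881480)) (a (l 16777568) (l 16719904)))) (b (b (b (l 16719160) (l 16726408)) (a (l 14) (b (l 16724192) (l 6)))) (l 6)))))))), by decide +kernel⟩

def k5_pm_012_a : ∃ t, chk3 f_pm_012_a t 31 3 1 = true :=
  ⟨(a (b (b (l 19378256) (a (l 18977048) (l 18917344))) (a (b (b (b (l 18550784) (l 18301768)) (b (a (l 18043384) (l 17927840)) (a (a (l 17562480) (l 17426600)) (b (l 17606264) (l 17225720))))) (b (a (b (b (c (l 17591040) (l 16997376)) (a (l 17003520) (l 16955488))) (b (l 16700144) (b (l 16716032) (l 16712592)))) (b (b (l 16961056) (l 16807760)) (b (l 16707544) (l 16708376)))) (b (b (a (a (l 16721496) (l 16719528)) (b (l 16711216) (l 6))) (l 6)) (l 6)))) (b (b (b (l 18404808) (l 17993688)) (b (c (l 17854824) (b (l 17549880) (l 17168768))) (b (c (l 17427888) (l 16818168)) (a (l 17012128) (l 16874208))))) (b (b (b (a (l 16852656) (l 16682048)) (a (l 16694648) (l 16695240)))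 (b (a (l 16692480) (l 16695744)) (a (b (l 16697656) (l 6)) (l 6)))) (l 6))))) (b (b (l 19331216) (b (l 18963608) (a (l 18621776) (b (l 18574792) (l 18166184))))) (b (b (b (a (l 18151736) (c (l 18197096) (a (l 17663312) (l 17439464)))) (a (c (l 18098344) (a (l 17605552) (l 17397816))) (a (b (l 17558184) (l 17216688)) (b (l 17222352) (l 16976632))))) (b (a (a (b (l 17460504) (l 17124400)) (b (l 17183808) (l 16968120))) (a (l 16727800) (b (l 16650184) (l 16648832)))) (b (a (a (l 16913104) (l 16658752)) (a (l 16659888) (l 16660992))) (a (a (l 16670016) (l 16671216)) (a (l 16672400) (l 6)))))) (b (a (b (b (a (l 16682840) (l 16684088)) (a (l 16685592) (l 6))) (l 6)) (l 6)) (l 6))))), by decide +kernel⟩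

theorem s6_pm_012_a : ∃ t, chk3 f_pm_012_a t 15 3 1 = true := ex3_a k4_pm_012_a k5_pm_012_a

theorem s7_pm_012_a : ∃ t, chk3 f_pm_012_a t 7 3 1 = true := ex3_a k3_pm_012_a s6_pm_012_a

theorem s8_pm_012_a : ∃ t, chk3 f_pm_012_a t 3 3 1 = true := ex3_a k2_pm_012_a s7_pm_012_a

theorem s9_pm_012_a : ∃ t, chk3 f_pm_012_a t 3 1 1 = true := ex3_b k1_pm_012_a s8_pm_012_a

theorem s10_pm_012_a : ∃ t, chk3 f_pm_012_a t 1 1 1 = true := ex3_a k0_pm_012_a s9_pm_012_a

theorem c_pm_012_a : CertN 0 536870912 0 536870912 50331648 16777216 3 false true false .pnp 0 1 2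
    ndN0q0 ndN1q2a pcN1 cut_pm_012_a Ext.none :=
  certNK2 (fam := false) (s1 := true) (s2 := false) (a := 0) (b := 1) (c := 2) (cn := .pnp) (n1 := ndN0q0) (n2 := ndN1q2a) (pc := pcN1) (cut := cut_pm_012_a) (xt := Ext.none) (P1 := 0) (W1 := 536870912) (P2 := 0) (W2 := 536870912) (P3 := 50331648) (W3 := 16777216) (N0 := 3)
    rfl rfl rfl (fun _ => rfl) s10_pm_012_a

noncomputable def cut_pm_012_b : Cut := Cut.of [[⟨0, 0, 0, 50331648⟩, ⟨1, 1, 0, 50331648⟩, ⟨2, 1, 0, 50331648⟩], [⟨0, 0, 1, 33554432⟩, ⟨1, 1, 2, 33554432⟩, ⟨2, 1, 0, 16777216⟩, ⟨0, 0, 0, 83886080⟩, ⟨0, 1, 0, 1040187392⟩, ⟨1, 0, 0, 1040187392⟩, ⟨1, 1, 0, 83886080⟩]]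

noncomputable def f_pm_012_b : ℕ → ℕ → ℕ → ℕ → Bool := onCell 536870912 536870912 1239849684 370763052 50331648 16777216
    (rowNK 3 2 false true false .pnp 0 1 2 (qsf 0 536870912 1239849684 370763052 1) ndN0q0 ndN1q2b pcN1 cut_pm_012_b Ext.none)

def k0_pm_012_b : ∃ t, chk3 f_pm_012_b t 1 1 1 = true :=
  ⟨(a (b (a (l 2) (b (a (l 17976200) (l 18090640)) (l 18122160))) (l 2)) (b (a (a (l 18508480) (l 18723528)) (a (b (l 19008488) (l 19009456)) (a (b (l 19460768) (l 19454928)) (a (l 19685120) (l 19816008))))) (a (b (l 18378912) (l 2)) (a (b (l 18843592) (l 18559920)) (a (l 19048448) (a (l 19243392) (l 19373232))))))), by decide +kernel⟩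

theorem c_pm_012_b : CertN 0 536870912 1239849684 370763052 50331648 16777216 3 false true false .pnp 0 1 2
    ndN0q0 ndN1q2b pcN1 cut_pm_012_b Ext.none :=
  certNK2 (fam := false) (s1 := true) (s2 := false) (a := 0) (b := 1) (c := 2) (cn := .pnp) (n1 := ndN0q0) (n2 := ndN1q2b) (pc := pcN1) (cut := cut_pm_012_b) (xt := Ext.none) (P1 := 0) (W1 := 536870912) (P2 := 1239849684) (W2 := 370763052) (P3 := 50331648) (W3 := 16777216) (N0 := 3)
    rfl rfl rfl (fun _ => rfl) k0_pm_012_b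

noncomputable def cut_pm_022_a : Cut := Cut.of [[⟨0, 0, 0, 50331648⟩, ⟨1, 1, 0, 50331648⟩, ⟨2, 1, 0, 50331648⟩]]

noncomputable def f_pm_022_a : ℕ → ℕ → ℕ → ℕ → Bool := onCell 1073741824 536870912 0 536870912 50331648 16777216
    (rowNK 3 2 false true false .pp 0 2 2 (qsf 0 536870912 0 536870912 2) ndN0q0 ndN1q2a pcN2 cut_pm_022_a Ext.none)

def k0_pm_022_a : ∃ t, chk3 f_pm_022_a t 4 2 1 = true :=
  ⟨(a (b (l 19594040) (l 19516664)) (b (l 19290248) (b (l 19224368) (l 19058616)))), by decide +kernel⟩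

def k1_pm_022_a : ∃ t, chk3 f_pm_022_a t 4 6 1 = true :=
  ⟨(a (a (b (l 19223256) (b (l 18674000) (a (b (l 18439928) (c (l 18401200) (l 17641800))) (b (l 18327056) (l 17995256))))) (b (l 18998360) (b (l 18537864) (b (l 17929320) (a (l 17888328) (l 17729352)))))) (b (a (l 18803264) (b (l 18765880) (l 98284351831))) (a (b (a (l 18395160) (l 55870709975)) (a (b (l 18054520) (a (l 17782808) (a (l 53722112679) (l 234111235639)))) (b (l 264176523271) (l 1)))) (b (l 313032375447) (l 1))))), by decide +kernel⟩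

def k2_pm_022_a : ∃ t, chk3 f_pm_022_a t 4 7 1 = true :=
  ⟨(a (b (a (b (b (a (c (b (l 18102832) (l 17865128)) (a (b (l 17457808) (l 17176256)) (l 17248584))) (a (l 17335928) (l 17364920))) (a (a (b (c (l 17611504) (l 16849344)) (l 16728024)) (b (l 17076616) (l 16860792))) (a (l 16768872) (l 16799256)))) (b (a (b (a (a (l 16635088) (l 16633856)) (l 16653304)) (a (a (l 16645448) (l 16644464)) (l 16664280))) (b (a (b (l 16653552) (l 16660000)) (l 16672736)) (a (b (l 16666552) (l 16673208)) (l 16685448)))) (b (b (a (a (l 16674008) (l 16672744)) (a (l 16679960) (l 16695176))) (l 6)) (l 6)))) (b (a (b (b (l 17598520) (l 17143048)) (a (l 16770880) (b (l 17135160) (l 16853920)))) (b (b (l 17478544) (a (l 17363944) (l 17346096))) (a (b (l 17105816) (l 16861080)) (a (b (l 17121856) (b (l 16829600) (l 82174703783))) (b (c (l 63385042903) (b (l 16913152) (l 81637825751))) (l 159484415847)))))) (a (b (a (b (l 16687680) (l 16699896)) (b (l 16701488) (l 16713240))) (a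 (b (l 16701968) (l 6)) (b (a (l 16722216) (b (l 49962417319) (l 109555086951))) (a (l 6) (l 1))))) (b (a (b (a (l 16690160) (l 73584725799)) (a (b (l 16703912) (l 99891398567)) (l 154115366647))) (b (l 146599168791) (l 1))) (a (b (l 160557835095) (l 1)) (l 1)))))) (a (l 6) (a (a (l 6) (a (l 6) (l 1))) (l 1)))) (b (a (b (a (b (a (b (a (l 17530616) (l 67143406631)) (c (l 94524398135) (a (l 64995048423) (l 190623358407)))) (l 242700542551)) (a (b (l 194381534567) (l 1)) (l 1))) (l 1)) (l 1)) (l 1)) (l 1))), by decide +kernel⟩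

def k3_pm_022_a : ∃ t, chk3 f_pm_022_a t 5 1 1 = true :=
  ⟨(b (a (b (l 19124880) (l 367258247399)) (l 1)) (b (l 1) (l 1))), by decide +kernel⟩

def k4_pm_022_a : ∃ t, chk3 f_pm_022_a t 3 1 1 = true :=
  ⟨(l 1), by decide +kernel⟩

theorem s5_pm_022_a : ∃ t, chk3 f_pm_022_a t 4 3 1 = true := ex3_b k1_pm_022_a k2_pm_022_a

theorem s6_pm_022_a : ∃ t, chk3 f_pm_022_a t 4 1 1 = true := ex3_b k0_pm_022_a s5_pm_022_a

theorem s7_pm_022_a : ∃ t, chk3 f_pm_022_a t 2 1 1 = true := ex3_a s6_pm_022_a k3_pm_022_a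

theorem s8_pm_022_a : ∃ t, chk3 f_pm_022_a t 1 1 1 = true := ex3_a s7_pm_022_a k4_pm_022_a

theorem c_pm_022_a : CertN 0 536870912 0 536870912 50331648 16777216 3 false true false .pp 0 2 2
    ndN0q0 ndN1q2a pcN2 cut_pm_022_a Ext.none :=
  certNK2 (fam := false) (s1 := true) (s2 := false) (a := 0) (b := 2) (c := 2) (cn := .pp) (n1 := ndN0q0) (n2 := ndN1q2a) (pc := pcN2) (cut := cut_pm_022_a) (xt := Ext.none) (P1 := 0) (W1 := 536870912) (P2 := 0) (W2 := 536870912) (P3 := 50331648) (W3 := 16777216) (N0 := 3)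
    rfl rfl rfl (fun _ => rfl) s8_pm_022_a

noncomputable def cut_pm_022_b : Cut := Cut.of [[⟨0, 0, 0, 50331648⟩, ⟨1, 1, 0, 50331648⟩, ⟨2, 1, 0, 50331648⟩]]

noncomputable def f_pm_022_b : ℕ → ℕ → ℕ → ℕ → Bool := onCell 1073741824 536870912 1239849684 370763052 50331648 16777216
    (rowNK 3 2 false true false .pp 0 2 2 (qsf 0 536870912 1239849684 370763052 2) ndN0q0 ndN1q2b pcN2 cut_pm_022_b Ext.none)

def k0_pm_022_b : ∃ t, chk3 f_pm_022_b t 1 1 1 = true :=
  ⟨(a (b (a (b (a (l 19808312) (l 19553728)) (l 19776800)) (b (a (l 19388208) (l 358669591095)) (l 19518208))) (a (l 19526568) (l 19321048))) (b (a (b (l 1) (l 19476296)) (l 1)) (a (l 19385312) (l 347931571975)))), by decide +kernel⟩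

theorem c_pm_022_b : CertN 0 536870912 1239849684 370763052 50331648 16777216 3 false true false .pp 0 2 2
    ndN0q0 ndN1q2b pcN2 cut_pm_022_b Ext.none :=
  certNK2 (fam := false) (s1 := true) (s2 := false) (a := 0) (b := 2) (c := 2) (cn := .pp) (n1 := ndN0q0) (n2 := ndN1q2b) (pc := pcN2) (cut := cut_pm_022_b) (xt := Ext.none) (P1 := 0) (W1 := 536870912) (P2 := 1239849684) (W2 := 370763052) (P3 := 50331648) (W3 := 16777216) (N0 := 3)
    rfl rfl rfl (fun _ => rfl) k0_pm_022_b

noncomputable def f_pm_023 : ℕ → ℕ → ℕ → ℕ → Bool := onCell 0 536870912 1073741824 536870912 50331648 16777216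
    (rowNK 3 1 false true false .up 0 2 3 (qsf 0 536870912 1610612736 536870912 2) ndN0q0 ndN1q3 pcN2 Cut.none Ext.none)

def k0_pm_023 : ∃ t, chk3 f_pm_023 t 1 1 1 = true :=
  ⟨(b (a (b (l 1) (l 353837025623)) (b (l 199754856343) (l 253977663959))) (a (b (l 339341751495) (l 258273809783)) (b (a (l 18607864) (l 17813680)) (l 18105400)))), by decide +kernel⟩

theorem c_pm_023 : CertN 0 536870912 1610612736 536870912 50331648 16777216 3 false true false .up 0 2 3
    ndN0q0 ndN1q3 pcN2 Cut.none Ext.none :=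
  certNK1 (fam := false) (s1 := true) (s2 := false) (a := 0) (b := 2) (c := 3) (cn := .up) (n1 := ndN0q0) (n2 := ndN1q3) (pc := pcN2) (cut := Cut.none) (xt := Ext.none) (P1 := 0) (W1 := 536870912) (P2 := 1610612736) (W2 := 536870912) (P3 := 50331648) (W3 := 16777216) (N0 := 3)
    rfl rfl rfl (fun _ => rfl) k0_pm_023

noncomputable def f_pm_033 : ℕ → ℕ → ℕ → ℕ → Bool := onCell 1610612736 536870912 1610612736 536870912 50331648 16777216
    (rowNK 3 2 false true false .pnn 0 3 3 (qsf 0 536870912 1610612736 536870912 3) ndN0q0 ndN1q3 pcN3 Cut.none Ext.none)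

def k0_pm_033 : ∃ t, chk3 f_pm_033 t 1 1 1 = true :=
  ⟨(a (a (b (a (l 372828385143) (l 4)) (b (a (l 18202600) (l 18478632)) (a (l 16956752) (l 17591096)))) (b (l 4) (a (b (l 4) (l 17983760)) (l 4)))) (l 4)), by decide +kernel⟩

theorem c_pm_033 : CertN 0 536870912 1610612736 536870912 50331648 16777216 3 false true false .pnn 0 3 3
    ndN0q0 ndN1q3 pcN3 Cut.none Ext.none :=
  certNK2 (fam := false) (s1 := true) (s2 := false) (a := 0) (b := 3) (c := 3) (cn := .pnn) (n1 := ndN0q0) (n2 := ndN1q3) (pc := pcN3) (cut := Cut.none) (xt := Ext.none) (P1 := 0) (W1 := 536870912) (P2 := 1610612736) (W2 := 536870912) (P3 := 50331648) (W3 := 16777216) (N0 := 3)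
    rfl rfl rfl (fun _ => rfl) k0_pm_033

noncomputable def f_pm_101 : ℕ → ℕ → ℕ → ℕ → Bool := onCell 0 536870912 536870912 536870912 50331648 16777216
    (rowNK 3 2 false true false .npn 1 0 1 (qsf 536870912 536870912 536870912 536870912 0) ndN0q1 ndN1q1 pcN0 Cut.none Ext.none)

def k0_pm_101 : ∃ t, chk3 f_pm_101 t 1 1 1 = true :=
  ⟨(a (b (l 4) (a (b (l 4) (a (l 19180864) (l 19087760))) (l 4))) (l 4)), by decide +kernel⟩

theorem c_pm_101 : CertN 536870912 536870912 536870912 536870912 50331648 16777216 3 false true false .npn 1 0 1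
    ndN0q1 ndN1q1 pcN0 Cut.none Ext.none :=
  certNK2 (fam := false) (s1 := true) (s2 := false) (a := 1) (b := 0) (c := 1) (cn := .npn) (n1 := ndN0q1) (n2 := ndN1q1) (pc := pcN0) (cut := Cut.none) (xt := Ext.none) (P1 := 536870912) (W1 := 536870912) (P2 := 536870912) (W2 := 536870912) (P3 := 50331648) (W3 := 16777216) (N0 := 3)
    rfl rfl rfl (fun _ => rfl) k0_pm_101

noncomputable def cut_pm_102_a : Cut := Cut.of [[⟨0, 1, 0, 50331648⟩, ⟨1, 0, 0, 50331648⟩, ⟨2, 1, 0, 50331648⟩]]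

noncomputable def f_pm_102_a : ℕ → ℕ → ℕ → ℕ → Bool := onCell 536870912 536870912 0 536870912 50331648 16777216
    (rowNK 3 0 false true false .npp 1 0 2 (qsf 536870912 536870912 0 536870912 0) ndN0q1 ndN1q2a pcN0 cut_pm_102_a Ext.none)

def k0_pm_102_a : ∃ t, chk3 f_pm_102_a t 2 1 1 = true :=
  ⟨(b (a (b (l 2) (l 18407328)) (a (l 18396696) (a (l 18058408) (l 17942800)))) (b (a (l 18640072) (a (l 18496672) (l 18286104))) (b (a (l 18779304) (l 18541304)) (a (b (l 18829240) (l 18893128)) (a (l 18648104) (l 18452952)))))), by decide +kernel⟩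

def k1_pm_102_a : ∃ t, chk3 f_pm_102_a t 3 2 1 = true :=
  ⟨(a (a (b (a (l 17557872) (l 17369648)) (l 17763928)) (b (a (l 17305568) (b (l 116132441607) (l 17103008))) (a (l 17466856) (l 17406848)))) (a (b (a (b (l 129017654295) (l 132775651319)) (l 3)) (a (b (l 17331448) (l 17185872)) (b (a (l 126870224279) (l 3)) (a (l 17293704) (l 125259649111))))) (l 3))), by decide +kernel⟩

def k2_pm_102_a : ∃ t, chk3 f_pm_102_a t 6 3 1 = true :=
  ⟨(b (a (b (l 17996104) (l 18086032)) (b (l 17686928) (l 18000680))) (b (a (l 18170104) (a (l 17909392) (l 17724672))) (a (l 18187208) (a (l 17943120) (l 17907640))))), by decide +kernel⟩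

def k3_pm_102_a : ∃ t, chk3 f_pm_102_a t 7 6 1 = true :=
  ⟨(a (a (a (l 17421528) (l 17418656)) (b (a (l 17071504) (l 69425339431)) (a (l 17173216) (l 17133600)))) (a (a (b (a (l 100563521095) (l 130628420807)) (b (a (l 17105696) (l 17161864)) (l 17049688))) (b (l 3) (b (a (l 131702045047) (l 3)) (a (l 89289166583) (a (l 101100282151) (l 137070694807)))))) (l 3))), by decide +kernel⟩

def k4_pm_102_a : ∃ t, chk3 f_pm_102_a t 7 7 1 = true :=
  ⟨(a (a (b (l 17712712) (l 17851312)) (b (b (l 17240160) (l 17434312)) (b (l 17566392) (l 17527416)))) (b (a (a (b (l 17036400) (l 17085976)) (a (b (l 17012152) (l 16980072)) (b (b (l 95731492951) (l 17018448)) (l 17019160)))) (a (a (b (a (b (l 139218029271) (l 104858136967)) (b (l 3) (b (l 146197273111) (l 140291542839)))) (b (a (l 16969168) (a (l 16973520) (b (l 126332833991) (l 16952592)))) (a (l 16902976) (l 16893312)))) (b (l 3) (b (a (a (b (l 142439007271) (b (l 139754557015) (l 120963897271))) (b (l 3) (b (l 3)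 (l 141365047191)))) (l 3)) (a (a (l 16880712) (b (b (a (l 117742762007) (l 140291246103)) (l 126332472071)) (l 16843752))) (b (a (a (b (l 3) (l 139217393735)) (l 3)) (l 3)) (a (b (a (l 127943064359) (b (l 145659887383) (l 136533031303))) (a (l 16815248) (l 127406196583))) (b (l 3) (a (b (l 139217371799) (l 134385502935)) (l 3))))))))) (l 3))) (a (b (a (l 17337408) (a (l 17057176) (l 17026408))) (b (a (l 17180264) (a (l 17095152) (l 17037880))) (a (l 17177104) (l 17156696)))) (b (a (a (b (l 16942584) (l 16931240)) (a (b (l 16882312) (l 16882016)) (b (b (a (l 16818528) (b (a (l 127406198967) (b (l 132774875751) (a (l 16791792) (l 129553662407)))) (a (l 16787552) (l 16787504)))) (l 16841528)) (a (l 16874256) (l 16875264))))) (b (a (a (b (a (b (l 139217317447) (a (b (a (l 129016792423) (l 139217315767)) (a (l 16772064) (l 127943051559))) (l 139217316119))) (l 3)) (a (b (a (l 16788720) (b (a (l 126869300231) (l 138143575271)) (a (l 16773320) (l 125795559431))))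 (a (l 16789832) (l 6))) (b (a (l 137606709991) (l 3)) (l 6)))) (l 3)) (l 3)) (l 6))) (a (b (a (l 17070560) (l 6)) (l 6)) (l 6)))))), by decide +kernel⟩

theorem s5_pm_102_a : ∃ t, chk3 f_pm_102_a t 7 3 1 = true := ex3_b k3_pm_102_a k4_pm_102_a

theorem s6_pm_102_a : ∃ t, chk3 f_pm_102_a t 3 3 1 = true := ex3_a k2_pm_102_a s5_pm_102_a

theorem s7_pm_102_a : ∃ t, chk3 f_pm_102_a t 3 1 1 = true := ex3_b k1_pm_102_a s6_pm_102_a

theorem s8_pm_102_a : ∃ t, chk3 f_pm_102_a t 1 1 1 = true := ex3_a k0_pm_102_a s7_pm_102_a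

theorem c_pm_102_a : CertN 536870912 536870912 0 536870912 50331648 16777216 3 false true false .npp 1 0 2
    ndN0q1 ndN1q2a pcN0 cut_pm_102_a Ext.none :=
  certNK0 (fam := false) (s1 := true) (s2 := false) (a := 1) (b := 0) (c := 2) (cn := .npp) (n1 := ndN0q1) (n2 := ndN1q2a) (pc := pcN0) (cut := cut_pm_102_a) (xt := Ext.none) (P1 := 536870912) (W1 := 536870912) (P2 := 0) (W2 := 536870912) (P3 := 50331648) (W3 := 16777216) (N0 := 3)
    rfl rfl rfl s8_pm_102_a

noncomputable def cut_pm_102_b : Cut := Cut.of [[⟨0, 1, 0, 50331648⟩, ⟨1, 0, 0, 50331648⟩, ⟨2, 1, 0, 50331648⟩]]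

noncomputable def f_pm_102_b : ℕ → ℕ → ℕ → ℕ → Bool := onCell 536870912 536870912 0 536870912 50331648 16777216
    (rowNK 3 1 false true false .npp 1 0 2 (qsf 536870912 536870912 1239849684 370763052 0) ndN0q1 ndN1q2b pcN0 cut_pm_102_b Ext.none)

def k0_pm_102_b : ∃ t, chk3 f_pm_102_b t 1 1 1 = true :=
  ⟨(a (b (l 1) (b (l 1) (a (l 1) (b (l 177202733399) (l 17779176))))) (a (b (l 1) (b (a (b (l 1) (l 17457584)) (b (a (l 168611766999) (a (b (l 1) (l 17073952)) (l 3))) (b (l 41507933479) (l 17225304)))) (a (l 17598192) (b (l 17293968) (l 17236816))))) (a (b (l 3) (a (b (l 3) (l 343230151079)) (l 3))) (l 3)))), by decide +kernel⟩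

theorem c_pm_102_b : CertN 536870912 536870912 1239849684 370763052 50331648 16777216 3 false true false .npp 1 0 2
    ndN0q1 ndN1q2b pcN0 cut_pm_102_b Ext.none :=
  certNK1 (fam := false) (s1 := true) (s2 := false) (a := 1) (b := 0) (c := 2) (cn := .npp) (n1 := ndN0q1) (n2 := ndN1q2b) (pc := pcN0) (cut := cut_pm_102_b) (xt := Ext.none) (P1 := 536870912) (W1 := 536870912) (P2 := 1239849684) (W2 := 370763052) (P3 := 50331648) (W3 := 16777216) (N0 := 3)
    rfl rfl rfl (fun _ => rfl) k0_pm_102_b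

noncomputable def f_pm_112_a : ℕ → ℕ → ℕ → ℕ → Bool := onCell 536870912 536870912 0 536870912 50331648 16777216
    (rowNK 3 2 false true false .dn 1 1 2 (qsf 536870912 536870912 0 536870912 1) ndN0q1 ndN1q2a pcN1 Cut.none Ext.none)

def k0_pm_112_a : ∃ t, chk3 f_pm_112_a t 1 1 1 = true :=
  ⟨(a (a (b (b (a (l 17844504) (l 17893040)) (a (l 17823048) (l 17719328))) (b (a (l 17371176) (l 17353096)) (b (l 17924248) (a (l 18042064) (l 1))))) (b (a (l 17808712) (l 1)) (b (l 1) (l 1)))) (l 1)), by decide +kernel⟩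

theorem c_pm_112_a : CertN 536870912 536870912 0 536870912 50331648 16777216 3 false true false .dn 1 1 2
    ndN0q1 ndN1q2a pcN1 Cut.none Ext.none :=
  certNK2 (fam := false) (s1 := true) (s2 := false) (a := 1) (b := 1) (c := 2) (cn := .dn) (n1 := ndN0q1) (n2 := ndN1q2a) (pc := pcN1) (cut := Cut.none) (xt := Ext.none) (P1 := 536870912) (W1 := 536870912) (P2 := 0) (W2 := 536870912) (P3 := 50331648) (W3 := 16777216) (N0 := 3)
    rfl rfl rfl (fun _ => rfl) k0_pm_112_a

noncomputable def f_pm_112_b : ℕ → ℕ → ℕ → ℕ → Bool := onCell 536870912 536870912 1239849684 370763052 50331648 16777216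
    (rowNK 3 2 false true false .dn 1 1 2 (qsf 536870912 536870912 1239849684 370763052 1) ndN0q1 ndN1q2b pcN1 Cut.none Ext.none)

def k0_pm_112_b : ∃ t, chk3 f_pm_112_b t 1 1 1 = true :=
  ⟨(a (b (a (b (l 17946616) (l 17832824)) (a (l 18084376) (l 18193568))) (a (a (b (l 17477704) (a (l 163915031175) (l 126871143431))) (b (l 17498824) (l 17493728))) (b (l 17841048) (l 17593096)))) (b (a (a (l 18383000) (l 18749968)) (l 1)) (a (b (l 18294984) (l 18098872)) (a (l 18913640) (a (l 19074312) (a (l 19250432) (l 19383952))))))), by decide +kernel⟩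

theorem c_pm_112_b : CertN 536870912 536870912 1239849684 370763052 50331648 16777216 3 false true false .dn 1 1 2
    ndN0q1 ndN1q2b pcN1 Cut.none Ext.none :=
  certNK2 (fam := false) (s1 := true) (s2 := false) (a := 1) (b := 1) (c := 2) (cn := .dn) (n1 := ndN0q1) (n2 := ndN1q2b) (pc := pcN1) (cut := Cut.none) (xt := Ext.none) (P1 := 536870912) (W1 := 536870912) (P2 := 1239849684) (W2 := 370763052) (P3 := 50331648) (W3 := 16777216) (N0 := 3)
    rfl rfl rfl (fun _ => rfl) k0_pm_112_b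

noncomputable def cut_pm_113 : Cut := Cut.of [[⟨0, 1, 0, 14341072⟩, ⟨1, 1, 0, 14341072⟩, ⟨2, 2, 0, 761489⟩]]

noncomputable def f_pm_113 : ℕ → ℕ → ℕ → ℕ → Bool := onCell 536870912 536870912 536870912 536870912 50331648 16777216
    (rowNK 3 1 false true false .nn 1 1 3 (qsf 536870912 536870912 1610612736 536870912 1) ndN0q1 ndN1q3 pcN1 cut_pm_113 Ext.none)

def k0_pm_113 : ∃ t, chk3 f_pm_113 t 1 1 1 = true :=
  ⟨(a (b (a (l 1) (b (l 1) (l 17568904))) (b (a (l 18043016) (l 17733584)) (a (b (l 18285232) (b (l 18399256) (b (l 18452112) (l 18486376)))) (l 17864904)))) (b (b (a (l 207804263111) (a (b (l 102175571063) (l 17599928)) (l 3))) (a (l 17474072) (a (l 151567192807) (l 202569749527)))) (a (b (l 17297504) (l 17339800)) (b (b (l 200959068743) (l 219212406391)) (a (l 17031552) (b (l 275583554711) (a (l 16881248) (a (l 16879744) (b (l 16968816) (a (l 16832752) (b (l 16855280) (a (l 16806176) (a (l 16804600) (a (l 16824984) (b (l 3) (b (l 16797312) (b (l 16787392)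 (b (l 16782456) (b (l 16782632) (b (l 16779456) (a (l 16778184) (a (l 16777904) (l 6))))))))))))))))))))))), by decide +kernel⟩

theorem c_pm_113 : CertN 536870912 536870912 1610612736 536870912 50331648 16777216 3 false true false .nn 1 1 3
    ndN0q1 ndN1q3 pcN1 cut_pm_113 Ext.none :=
  certNK1 (fam := false) (s1 := true) (s2 := false) (a := 1) (b := 1) (c := 3) (cn := .nn) (n1 := ndN0q1) (n2 := ndN1q3) (pc := pcN1) (cut := cut_pm_113) (xt := Ext.none) (P1 := 536870912) (W1 := 536870912) (P2 := 1610612736) (W2 := 536870912) (P3 := 50331648) (W3 := 16777216) (N0 := 3)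
    rfl rfl rfl (fun _ => rfl) k0_pm_113

noncomputable def cut_pm_123 : Cut := Cut.of [[⟨0, 1, 0, 14341072⟩, ⟨1, 1, 0, 14341072⟩, ⟨2, 2, 0, 761489⟩]]

noncomputable def f_pm_123 : ℕ → ℕ → ℕ → ℕ → Bool := onCell 1073741824 536870912 1610612736 536870912 50331648 16777216
    (rowNK 3 2 false true false .npn 1 2 3 (qsf 536870912 536870912 1610612736 536870912 2) ndN0q1 ndN1q3 pcN2 cut_pm_123 Ext.none)

def k0_pm_123 : ∃ t, chk3 f_pm_123 t 1 1 1 = true :=
  ⟨(a (b (a (b (l 18742416) (l 17853784)) (b (l 359204235335) (l 17888000))) (a (b (a (a (a (l 17365288) (l 17301176)) (l 17215472)) (l 17238112)) (a (a (a (b (l 17004912) (b (l 16874256) (b (l 16824064) (b (l 16803496) (a (b (l 16791144) (b (l 16786552) (b (l 16784336) (b (l 16783248) (l 6))))) (l 16794672)))))) (a (l 17125984) (l 17091032))) (b (l 16892688) (a (l 16861680) (l 16839632)))) (a (l 17171808) (l 17068160)))) (b (a (l 16993880) (l 17088376)) (b (l 17228296) (l 17575624))))) (b (a (b (l 1) (l 18282400))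 (l 1)) (a (b (l 17383376) (b (l 16957384) (l 17349552))) (b (l 18009568) (a (l 16853008) (l 17205632)))))), by decide +kernel⟩

theorem c_pm_123 : CertN 536870912 536870912 1610612736 536870912 50331648 16777216 3 false true false .npn 1 2 3
    ndN0q1 ndN1q3 pcN2 cut_pm_123 Ext.none :=
  certNK2 (fam := false) (s1 := true) (s2 := false) (a := 1) (b := 2) (c := 3) (cn := .npn) (n1 := ndN0q1) (n2 := ndN1q3) (pc := pcN2) (cut := cut_pm_123) (xt := Ext.none) (P1 := 536870912) (W1 := 536870912) (P2 := 1610612736) (W2 := 536870912) (P3 := 50331648) (W3 := 16777216) (N0 := 3)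
    rfl rfl rfl (fun _ => rfl) k0_pm_123

noncomputable def f_pm_133 : ℕ → ℕ → ℕ → ℕ → Bool := onCell 536870912 536870912 1610612736 536870912 50331648 16777216
    (rowNK 3 0 false true false .dn 1 3 3 (qsf 536870912 536870912 1610612736 536870912 3) ndN0q1 ndN1q3 pcN3 Cut.none Ext.none)

def k0_pm_133 : ∃ t, chk3 f_pm_133 t 1 1 1 = true :=
  ⟨(a (b (l 1) (a (b (l 1) (a (l 759172036183) (l 1))) (l 1))) (l 1)), by decide +kernel⟩

theorem c_pm_133 : CertN 536870912 536870912 1610612736 536870912 50331648 16777216 3 false true false .dn 1 3 3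
    ndN0q1 ndN1q3 pcN3 Cut.none Ext.none :=
  certNK0 (fam := false) (s1 := true) (s2 := false) (a := 1) (b := 3) (c := 3) (cn := .dn) (n1 := ndN0q1) (n2 := ndN1q3) (pc := pcN3) (cut := Cut.none) (xt := Ext.none) (P1 := 536870912) (W1 := 536870912) (P2 := 1610612736) (W2 := 536870912) (P3 := 50331648) (W3 := 16777216) (N0 := 3)
    rfl rfl rfl k0_pm_133

noncomputable def cut_pm_202_a : Cut := Cut.of [[⟨0, 1, 0, 50331648⟩, ⟨1, 0, 0, 50331648⟩, ⟨2, 1, 0, 50331648⟩]]

noncomputable def f_pm_202_a : ℕ → ℕ → ℕ → ℕ → Bool := onCell 0 536870912 0 536870912 50331648 16777216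
    (rowNK 3 0 false true false .pp 2 0 2 (qsf 0 536870912 0 536870912 0) ndN0q2 ndN1q2a pcN0 cut_pm_202_a Ext.none)

def k0_pm_202_a : ∃ t, chk3 f_pm_202_a t 1 1 1 = true :=
  ⟨(a (l 3) (b (l 3) (a (l 3) (b (l 3) (a (l 3) (b (l 3) (l 6))))))), by decide +kernel⟩

theorem c_pm_202_a : CertN 0 536870912 0 536870912 50331648 16777216 3 false true false .pp 2 0 2
    ndN0q2 ndN1q2a pcN0 cut_pm_202_a Ext.none :=
  certNK0 (fam := false) (s1 := true) (s2 := false) (a := 2) (b := 0) (c := 2) (cn := .pp) (n1 := ndN0q2) (n2 := ndN1q2a) (pc := pcN0) (cut := cut_pm_202_a) (xt := Ext.none) (P1 := 0) (W1 := 536870912) (P2 := 0) (W2 := 536870912) (P3 := 50331648) (W3 := 16777216) (N0 := 3)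
    rfl rfl rfl k0_pm_202_a

noncomputable def cut_pm_202_b : Cut := Cut.of [[⟨0, 1, 0, 50331648⟩, ⟨1, 0, 0, 50331648⟩, ⟨2, 1, 0, 50331648⟩]]

noncomputable def f_pm_202_b : ℕ → ℕ → ℕ → ℕ → Bool := onCell 0 536870912 1239849684 370763052 50331648 16777216
    (rowNK 3 0 false true false .pp 2 0 2 (qsf 0 536870912 1239849684 370763052 0) ndN0q2 ndN1q2b pcN0 cut_pm_202_b Ext.none)

def k0_pm_202_b : ∃ t, chk3 f_pm_202_b t 1 1 1 = true :=
  ⟨(l 3), by decide +kernel⟩

theorem c_pm_202_b : CertN 0 536870912 1239849684 370763052 50331648 16777216 3 false true false .pp 2 0 2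
    ndN0q2 ndN1q2b pcN0 cut_pm_202_b Ext.none :=
  certNK0 (fam := false) (s1 := true) (s2 := false) (a := 2) (b := 0) (c := 2) (cn := .pp) (n1 := ndN0q2) (n2 := ndN1q2b) (pc := pcN0) (cut := cut_pm_202_b) (xt := Ext.none) (P1 := 0) (W1 := 536870912) (P2 := 1239849684) (W2 := 370763052) (P3 := 50331648) (W3 := 16777216) (N0 := 3)
    rfl rfl rfl k0_pm_202_b

noncomputable def f_pm_203 : ℕ → ℕ → ℕ → ℕ → Bool := onCell 0 536870912 0 536870912 50331648 16777216
    (rowNK 3 1 false true false .up 2 0 3 (qsf 0 536870912 1610612736 536870912 0) ndN0q2 ndN1q3 pcN0 Cut.none Ext.none)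

def k0_pm_203 : ∃ t, chk3 f_pm_203 t 1 1 1 = true :=
  ⟨(l 3), by decide +kernel⟩

theorem c_pm_203 : CertN 0 536870912 1610612736 536870912 50331648 16777216 3 false true false .up 2 0 3
    ndN0q2 ndN1q3 pcN0 Cut.none Ext.none :=
  certNK1 (fam := false) (s1 := true) (s2 := false) (a := 2) (b := 0) (c := 3) (cn := .up) (n1 := ndN0q2) (n2 := ndN1q3) (pc := pcN0) (cut := Cut.none) (xt := Ext.none) (P1 := 0) (W1 := 536870912) (P2 := 1610612736) (W2 := 536870912) (P3 := 50331648) (W3 := 16777216) (N0 := 3)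
    rfl rfl rfl (fun _ => rfl) k0_pm_203

noncomputable def cut_pm_213 : Cut := Cut.of [[⟨0, 1, 0, 14341072⟩, ⟨1, 1, 0, 14341072⟩, ⟨2, 2, 0, 761489⟩]]

noncomputable def f_pm_213 : ℕ → ℕ → ℕ → ℕ → Bool := onCell 0 536870912 1610612736 536870912 50331648 16777216
    (rowNK 3 0 false true false .pnn 2 1 3 (qsf 0 536870912 1610612736 536870912 1) ndN0q2 ndN1q3 pcN1 cut_pm_213 Ext.none)

def k0_pm_213 : ∃ t, chk3 f_pm_213 t 1 1 1 = true :=
  ⟨(b (l 3) (a (l 3) (b (l 3) (a (l 3) (a (l 3) (a (l 3) (b (l 3) (a (l 3) (b (l 3) (a (l 3) (a (l 3) (b (l 3) (b (l 3) (b (l 3) (b (l 3) (b (l 3) (b (l 3) (l 6)))))))))))))))))), by decide +kernel⟩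

theorem c_pm_213 : CertN 0 536870912 1610612736 536870912 50331648 16777216 3 false true false .pnn 2 1 3
    ndN0q2 ndN1q3 pcN1 cut_pm_213 Ext.none :=
  certNK0 (fam := false) (s1 := true) (s2 := false) (a := 2) (b := 1) (c := 3) (cn := .pnn) (n1 := ndN0q2) (n2 := ndN1q3) (pc := pcN1) (cut := cut_pm_213) (xt := Ext.none) (P1 := 0) (W1 := 536870912) (P2 := 1610612736) (W2 := 536870912) (P3 := 50331648) (W3 := 16777216) (N0 := 3)
    rfl rfl rfl k0_pm_213

noncomputable def f_mm_001 : ℕ → ℕ → ℕ → ℕ → Bool := onCell 0 536870912 536870912 536870912 50331648 16777216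
    (rowNK 3 0 false false false .up 0 0 1 (qsf 0 536870912 536870912 536870912 0) ndN0q0 ndN1q1 pcN0 Cut.none Ext.none)

def k0_mm_001 : ∃ t, chk3 f_mm_001 t 1 1 1 = true :=
  ⟨(l 3), by decide +kernel⟩

theorem c_mm_001 : CertN 0 536870912 536870912 536870912 50331648 16777216 3 false false false .up 0 0 1
    ndN0q0 ndN1q1 pcN0 Cut.none Ext.none :=
  certNK0 (fam := false) (s1 := false) (s2 := false) (a := 0) (b := 0) (c := 1) (cn := .up) (n1 := ndN0q0) (n2 := ndN1q1) (pc := pcN0) (cut := Cut.none) (xt := Ext.none) (P1 := 0) (W1 := 536870912) (P2 := 536870912) (W2 := 536870912) (P3 := 50331648) (W3 := 16777216) (N0 := 3)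
    rfl rfl rfl k0_mm_001

noncomputable def f_mm_011 : ℕ → ℕ → ℕ → ℕ → Bool := onCell 0 536870912 536870912 536870912 50331648 16777216
    (rowNK 3 0 false false false .pnn 0 1 1 (qsf 0 536870912 536870912 536870912 1) ndN0q0 ndN1q1 pcN1 Cut.none Ext.none)

def k0_mm_011 : ∃ t, chk3 f_mm_011 t 1 1 1 = true :=
  ⟨(l 3), by decide +kernel⟩

theorem c_mm_011 : CertN 0 536870912 536870912 536870912 50331648 16777216 3 false false false .pnn 0 1 1
    ndN0q0 ndN1q1 pcN1 Cut.none Ext.none :=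
  certNK0 (fam := false) (s1 := false) (s2 := false) (a := 0) (b := 1) (c := 1) (cn := .pnn) (n1 := ndN0q0) (n2 := ndN1q1) (pc := pcN1) (cut := Cut.none) (xt := Ext.none) (P1 := 0) (W1 := 536870912) (P2 := 536870912) (W2 := 536870912) (P3 := 50331648) (W3 := 16777216) (N0 := 3)
    rfl rfl rfl k0_mm_011

noncomputable def f_mm_012_a : ℕ → ℕ → ℕ → ℕ → Bool := onCell 0 536870912 0 536870912 50331648 16777216
    (rowNK 3 0 false false false .pnp 0 1 2 (qsf 0 536870912 0 536870912 1) ndN0q0 ndN1q2a pcN1 Cut.none Ext.none)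

def k0_mm_012_a : ∃ t, chk3 f_mm_012_a t 1 1 1 = true :=
  ⟨(l 5), by decide +kernel⟩

theorem c_mm_012_a : CertN 0 536870912 0 536870912 50331648 16777216 3 false false false .pnp 0 1 2
    ndN0q0 ndN1q2a pcN1 Cut.none Ext.none :=
  certNK0 (fam := false) (s1 := false) (s2 := false) (a := 0) (b := 1) (c := 2) (cn := .pnp) (n1 := ndN0q0) (n2 := ndN1q2a) (pc := pcN1) (cut := Cut.none) (xt := Ext.none) (P1 := 0) (W1 := 536870912) (P2 := 0) (W2 := 536870912) (P3 := 50331648) (W3 := 16777216) (N0 := 3)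
    rfl rfl rfl k0_mm_012_a

noncomputable def f_mm_012_b : ℕ → ℕ → ℕ → ℕ → Bool := onCell 0 536870912 1239849684 370763052 50331648 16777216
    (rowNK 3 0 false false false .pnp 0 1 2 (qsf 0 536870912 1239849684 370763052 1) ndN0q0 ndN1q2b pcN1 Cut.none Ext.none)

def k0_mm_012_b : ∃ t, chk3 f_mm_012_b t 1 1 1 = true :=
  ⟨(l 5), by decide +kernel⟩

theorem c_mm_012_b : CertN 0 536870912 1239849684 370763052 50331648 16777216 3 false false false .pnp 0 1 2
    ndN0q0 ndN1q2b pcN1 Cut.none Ext.none :=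
  certNK0 (fam := false) (s1 := false) (s2 := false) (a := 0) (b := 1) (c := 2) (cn := .pnp) (n1 := ndN0q0) (n2 := ndN1q2b) (pc := pcN1) (cut := Cut.none) (xt := Ext.none) (P1 := 0) (W1 := 536870912) (P2 := 1239849684) (W2 := 370763052) (P3 := 50331648) (W3 := 16777216) (N0 := 3)
    rfl rfl rfl k0_mm_012_b

noncomputable def f_mm_022_a : ℕ → ℕ → ℕ → ℕ → Bool := onCell 0 536870912 0 536870912 50331648 16777216
    (rowNK 3 0 false false false .pp 0 2 2 (qsf 0 536870912 0 536870912 2) ndN0q0 ndN1q2a pcN2 Cut.none Ext.none)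

def k0_mm_022_a : ∃ t, chk3 f_mm_022_a t 1 1 1 = true :=
  ⟨(l 5), by decide +kernel⟩

theorem c_mm_022_a : CertN 0 536870912 0 536870912 50331648 16777216 3 false false false .pp 0 2 2
    ndN0q0 ndN1q2a pcN2 Cut.none Ext.none :=
  certNK0 (fam := false) (s1 := false) (s2 := false) (a := 0) (b := 2) (c := 2) (cn := .pp) (n1 := ndN0q0) (n2 := ndN1q2a) (pc := pcN2) (cut := Cut.none) (xt := Ext.none) (P1 := 0) (W1 := 536870912) (P2 := 0) (W2 := 536870912) (P3 := 50331648) (W3 := 16777216) (N0 := 3)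
    rfl rfl rfl k0_mm_022_a

noncomputable def f_mm_022_b : ℕ → ℕ → ℕ → ℕ → Bool := onCell 0 536870912 1239849684 370763052 50331648 16777216
    (rowNK 3 0 false false false .pp 0 2 2 (qsf 0 536870912 1239849684 370763052 2) ndN0q0 ndN1q2b pcN2 Cut.none Ext.none)

def k0_mm_022_b : ∃ t, chk3 f_mm_022_b t 1 1 1 = true :=
  ⟨(l 5), by decide +kernel⟩

theorem c_mm_022_b : CertN 0 536870912 1239849684 370763052 50331648 16777216 3 false false false .pp 0 2 2
    ndN0q0 ndN1q2b pcN2 Cut.none Ext.none :=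
  certNK0 (fam := false) (s1 := false) (s2 := false) (a := 0) (b := 2) (c := 2) (cn := .pp) (n1 := ndN0q0) (n2 := ndN1q2b) (pc := pcN2) (cut := Cut.none) (xt := Ext.none) (P1 := 0) (W1 := 536870912) (P2 := 1239849684) (W2 := 370763052) (P3 := 50331648) (W3 := 16777216) (N0 := 3)
    rfl rfl rfl k0_mm_022_b

noncomputable def f_mm_023 : ℕ → ℕ → ℕ → ℕ → Bool := onCell 0 536870912 1610612736 536870912 50331648 16777216
    (rowNK 3 0 false false false .up 0 2 3 (qsf 0 536870912 1610612736 536870912 2) ndN0q0 ndN1q3 pcN2 Cut.none Ext.none)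

def k0_mm_023 : ∃ t, chk3 f_mm_023 t 1 1 1 = true :=
  ⟨(l 5), by decide +kernel⟩

theorem c_mm_023 : CertN 0 536870912 1610612736 536870912 50331648 16777216 3 false false false .up 0 2 3
    ndN0q0 ndN1q3 pcN2 Cut.none Ext.none :=
  certNK0 (fam := false) (s1 := false) (s2 := false) (a := 0) (b := 2) (c := 3) (cn := .up) (n1 := ndN0q0) (n2 := ndN1q3) (pc := pcN2) (cut := Cut.none) (xt := Ext.none) (P1 := 0) (W1 := 536870912) (P2 := 1610612736) (W2 := 536870912) (P3 := 50331648) (W3 := 16777216) (N0 := 3)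
    rfl rfl rfl k0_mm_023

noncomputable def f_mm_033 : ℕ → ℕ → ℕ → ℕ → Bool := onCell 0 536870912 1610612736 536870912 50331648 16777216
    (rowNK 3 0 false false false .pnn 0 3 3 (qsf 0 536870912 1610612736 536870912 3) ndN0q0 ndN1q3 pcN3 Cut.none Ext.none)

def k0_mm_033 : ∃ t, chk3 f_mm_033 t 1 1 1 = true :=
  ⟨(l 5), by decide +kernel⟩

theorem c_mm_033 : CertN 0 536870912 1610612736 536870912 50331648 16777216 3 false false false .pnn 0 3 3
    ndN0q0 ndN1q3 pcN3 Cut.none Ext.none :=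
  certNK0 (fam := false) (s1 := false) (s2 := false) (a := 0) (b := 3) (c := 3) (cn := .pnn) (n1 := ndN0q0) (n2 := ndN1q3) (pc := pcN3) (cut := Cut.none) (xt := Ext.none) (P1 := 0) (W1 := 536870912) (P2 := 1610612736) (W2 := 536870912) (P3 := 50331648) (W3 := 16777216) (N0 := 3)
    rfl rfl rfl k0_mm_033

noncomputable def f_mm_101 : ℕ → ℕ → ℕ → ℕ → Bool := onCell 536870912 536870912 536870912 536870912 50331648 16777216
    (rowNK 3 0 false false false .npn 1 0 1 (qsf 536870912 536870912 536870912 536870912 0) ndN0q1 ndN1q1 pcN0 Cut.none Ext.none)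

def k0_mm_101 : ∃ t, chk3 f_mm_101 t 1 1 1 = true :=
  ⟨(l 3), by decide +kernel⟩

theorem c_mm_101 : CertN 536870912 536870912 536870912 536870912 50331648 16777216 3 false false false .npn 1 0 1
    ndN0q1 ndN1q1 pcN0 Cut.none Ext.none :=
  certNK0 (fam := false) (s1 := false) (s2 := false) (a := 1) (b := 0) (c := 1) (cn := .npn) (n1 := ndN0q1) (n2 := ndN1q1) (pc := pcN0) (cut := Cut.none) (xt := Ext.none) (P1 := 536870912) (W1 := 536870912) (P2 := 536870912) (W2 := 536870912) (P3 := 50331648) (W3 := 16777216) (N0 := 3)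
    rfl rfl rfl k0_mm_101

noncomputable def f_mm_102_a : ℕ → ℕ → ℕ → ℕ → Bool := onCell 536870912 536870912 0 536870912 50331648 16777216
    (rowNK 3 0 false false false .npp 1 0 2 (qsf 536870912 536870912 0 536870912 0) ndN0q1 ndN1q2a pcN0 Cut.none Ext.none)

def k0_mm_102_a : ∃ t, chk3 f_mm_102_a t 1 1 1 = true :=
  ⟨(l 3), by decide +kernel⟩

theorem c_mm_102_a : CertN 536870912 536870912 0 536870912 50331648 16777216 3 false false false .npp 1 0 2
    ndN0q1 ndN1q2a pcN0 Cut.none Ext.none :=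
  certNK0 (fam := false) (s1 := false) (s2 := false) (a := 1) (b := 0) (c := 2) (cn := .npp) (n1 := ndN0q1) (n2 := ndN1q2a) (pc := pcN0) (cut := Cut.none) (xt := Ext.none) (P1 := 536870912) (W1 := 536870912) (P2 := 0) (W2 := 536870912) (P3 := 50331648) (W3 := 16777216) (N0 := 3)
    rfl rfl rfl k0_mm_102_a

noncomputable def f_mm_102_b : ℕ → ℕ → ℕ → ℕ → Bool := onCell 536870912 536870912 1239849684 370763052 50331648 16777216
    (rowNK 3 0 false false false .npp 1 0 2 (qsf 536870912 536870912 1239849684 370763052 0) ndN0q1 ndN1q2b pcN0 Cut.none Ext.none)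

def k0_mm_102_b : ∃ t, chk3 f_mm_102_b t 1 1 1 = true :=
  ⟨(l 5), by decide +kernel⟩

theorem c_mm_102_b : CertN 536870912 536870912 1239849684 370763052 50331648 16777216 3 false false false .npp 1 0 2
    ndN0q1 ndN1q2b pcN0 Cut.none Ext.none :=
  certNK0 (fam := false) (s1 := false) (s2 := false) (a := 1) (b := 0) (c := 2) (cn := .npp) (n1 := ndN0q1) (n2 := ndN1q2b) (pc := pcN0) (cut := Cut.none) (xt := Ext.none) (P1 := 536870912) (W1 := 536870912) (P2 := 1239849684) (W2 := 370763052) (P3 := 50331648) (W3 := 16777216) (N0 := 3)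
    rfl rfl rfl k0_mm_102_b

noncomputable def f_mm_112_a : ℕ → ℕ → ℕ → ℕ → Bool := onCell 536870912 536870912 0 536870912 50331648 16777216
    (rowNK 3 0 false false false .dn 1 1 2 (qsf 536870912 536870912 0 536870912 1) ndN0q1 ndN1q2a pcN1 Cut.none Ext.none)

def k0_mm_112_a : ∃ t, chk3 f_mm_112_a t 1 1 1 = true :=
  ⟨(l 3), by decide +kernel⟩

theorem c_mm_112_a : CertN 536870912 536870912 0 536870912 50331648 16777216 3 false false false .dn 1 1 2
    ndN0q1 ndN1q2a pcN1 Cut.none Ext.none :=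
  certNK0 (fam := false) (s1 := false) (s2 := false) (a := 1) (b := 1) (c := 2) (cn := .dn) (n1 := ndN0q1) (n2 := ndN1q2a) (pc := pcN1) (cut := Cut.none) (xt := Ext.none) (P1 := 536870912) (W1 := 536870912) (P2 := 0) (W2 := 536870912) (P3 := 50331648) (W3 := 16777216) (N0 := 3)
    rfl rfl rfl k0_mm_112_a

noncomputable def f_mm_112_b : ℕ → ℕ → ℕ → ℕ → Bool := onCell 536870912 536870912 1239849684 370763052 50331648 16777216
    (rowNK 3 0 false false false .dn 1 1 2 (qsf 536870912 536870912 1239849684 370763052 1) ndN0q1 ndN1q2b pcN1 Cut.none Ext.none)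

def k0_mm_112_b : ∃ t, chk3 f_mm_112_b t 1 1 1 = true :=
  ⟨(l 5), by decide +kernel⟩

theorem c_mm_112_b : CertN 536870912 536870912 1239849684 370763052 50331648 16777216 3 false false false .dn 1 1 2
    ndN0q1 ndN1q2b pcN1 Cut.none Ext.none :=
  certNK0 (fam := false) (s1 := false) (s2 := false) (a := 1) (b := 1) (c := 2) (cn := .dn) (n1 := ndN0q1) (n2 := ndN1q2b) (pc := pcN1) (cut := Cut.none) (xt := Ext.none) (P1 := 536870912) (W1 := 536870912) (P2 := 1239849684) (W2 := 370763052) (P3 := 50331648) (W3 := 16777216) (N0 := 3)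
    rfl rfl rfl k0_mm_112_b

noncomputable def f_mm_113 : ℕ → ℕ → ℕ → ℕ → Bool := onCell 536870912 536870912 1610612736 536870912 50331648 16777216
    (rowNK 3 0 false false false .nn 1 1 3 (qsf 536870912 536870912 1610612736 536870912 1) ndN0q1 ndN1q3 pcN1 Cut.none Ext.none)

def k0_mm_113 : ∃ t, chk3 f_mm_113 t 1 1 1 = true :=
  ⟨(l 5), by decide +kernel⟩

theorem c_mm_113 : CertN 536870912 536870912 1610612736 536870912 50331648 16777216 3 false false false .nn 1 1 3
    ndN0q1 ndN1q3 pcN1 Cut.none Ext.none :=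
  certNK0 (fam := false) (s1 := false) (s2 := false) (a := 1) (b := 1) (c := 3) (cn := .nn) (n1 := ndN0q1) (n2 := ndN1q3) (pc := pcN1) (cut := Cut.none) (xt := Ext.none) (P1 := 536870912) (W1 := 536870912) (P2 := 1610612736) (W2 := 536870912) (P3 := 50331648) (W3 := 16777216) (N0 := 3)
    rfl rfl rfl k0_mm_113

noncomputable def f_mm_123 : ℕ → ℕ → ℕ → ℕ → Bool := onCell 536870912 536870912 1610612736 536870912 50331648 16777216
    (rowNK 3 0 false false false .npn 1 2 3 (qsf 536870912 536870912 1610612736 536870912 2) ndN0q1 ndN1q3 pcN2 Cut.none Ext.none)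

def k0_mm_123 : ∃ t, chk3 f_mm_123 t 1 1 1 = true :=
  ⟨(l 5), by decide +kernel⟩

theorem c_mm_123 : CertN 536870912 536870912 1610612736 536870912 50331648 16777216 3 false false false .npn 1 2 3
    ndN0q1 ndN1q3 pcN2 Cut.none Ext.none :=
  certNK0 (fam := false) (s1 := false) (s2 := false) (a := 1) (b := 2) (c := 3) (cn := .npn) (n1 := ndN0q1) (n2 := ndN1q3) (pc := pcN2) (cut := Cut.none) (xt := Ext.none) (P1 := 536870912) (W1 := 536870912) (P2 := 1610612736) (W2 := 536870912) (P3 := 50331648) (W3 := 16777216) (N0 := 3)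
    rfl rfl rfl k0_mm_123

noncomputable def f_mm_133 : ℕ → ℕ → ℕ → ℕ → Bool := onCell 536870912 536870912 1610612736 536870912 50331648 16777216
    (rowNK 3 0 false false false .dn 1 3 3 (qsf 536870912 536870912 1610612736 536870912 3) ndN0q1 ndN1q3 pcN3 Cut.none Ext.none)

def k0_mm_133 : ∃ t, chk3 f_mm_133 t 1 1 1 = true :=
  ⟨(l 5), by decide +kernel⟩

theorem c_mm_133 : CertN 536870912 536870912 1610612736 536870912 50331648 16777216 3 false false false .dn 1 3 3
    ndN0q1 ndN1q3 pcN3 Cut.none Ext.none :=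
  certNK0 (fam := false) (s1 := false) (s2 := false) (a := 1) (b := 3) (c := 3) (cn := .dn) (n1 := ndN0q1) (n2 := ndN1q3) (pc := pcN3) (cut := Cut.none) (xt := Ext.none) (P1 := 536870912) (W1 := 536870912) (P2 := 1610612736) (W2 := 536870912) (P3 := 50331648) (W3 := 16777216) (N0 := 3)
    rfl rfl rfl k0_mm_133

noncomputable def f_mm_202_a : ℕ → ℕ → ℕ → ℕ → Bool := onCell 0 536870912 0 536870912 50331648 16777216
    (rowNK 3 0 false false false .pp 2 0 2 (qsf 0 536870912 0 536870912 0) ndN0q2 ndN1q2a pcN0 Cut.none Ext.none)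

def k0_mm_202_a : ∃ t, chk3 f_mm_202_a t 1 1 1 = true :=
  ⟨(l 3), by decide +kernel⟩

theorem c_mm_202_a : CertN 0 536870912 0 536870912 50331648 16777216 3 false false false .pp 2 0 2
    ndN0q2 ndN1q2a pcN0 Cut.none Ext.none :=
  certNK0 (fam := false) (s1 := false) (s2 := false) (a := 2) (b := 0) (c := 2) (cn := .pp) (n1 := ndN0q2) (n2 := ndN1q2a) (pc := pcN0) (cut := Cut.none) (xt := Ext.none) (P1 := 0) (W1 := 536870912) (P2 := 0) (W2 := 536870912) (P3 := 50331648) (W3 := 16777216) (N0 := 3)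
    rfl rfl rfl k0_mm_202_a

noncomputable def f_mm_202_b : ℕ → ℕ → ℕ → ℕ → Bool := onCell 0 536870912 1239849684 370763052 50331648 16777216
    (rowNK 3 0 false false false .pp 2 0 2 (qsf 0 536870912 1239849684 370763052 0) ndN0q2 ndN1q2b pcN0 Cut.none Ext.none)

def k0_mm_202_b : ∃ t, chk3 f_mm_202_b t 1 1 1 = true :=
  ⟨(l 3), by decide +kernel⟩

theorem c_mm_202_b : CertN 0 536870912 1239849684 370763052 50331648 16777216 3 false false false .pp 2 0 2
    ndN0q2 ndN1q2b pcN0 Cut.none Ext.none :=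
  certNK0 (fam := false) (s1 := false) (s2 := false) (a := 2) (b := 0) (c := 2) (cn := .pp) (n1 := ndN0q2) (n2 := ndN1q2b) (pc := pcN0) (cut := Cut.none) (xt := Ext.none) (P1 := 0) (W1 := 536870912) (P2 := 1239849684) (W2 := 370763052) (P3 := 50331648) (W3 := 16777216) (N0 := 3)
    rfl rfl rfl k0_mm_202_b

noncomputable def f_mm_203 : ℕ → ℕ → ℕ → ℕ → Bool := onCell 0 536870912 0 536870912 50331648 16777216
    (rowNK 3 1 false false false .up 2 0 3 (qsf 0 536870912 1610612736 536870912 0) ndN0q2 ndN1q3 pcN0 Cut.none Ext.none)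

def k0_mm_203 : ∃ t, chk3 f_mm_203 t 1 1 1 = true :=
  ⟨(l 3), by decide +kernel⟩

theorem c_mm_203 : CertN 0 536870912 1610612736 536870912 50331648 16777216 3 false false false .up 2 0 3
    ndN0q2 ndN1q3 pcN0 Cut.none Ext.none :=
  certNK1 (fam := false) (s1 := false) (s2 := false) (a := 2) (b := 0) (c := 3) (cn := .up) (n1 := ndN0q2) (n2 := ndN1q3) (pc := pcN0) (cut := Cut.none) (xt := Ext.none) (P1 := 0) (W1 := 536870912) (P2 := 1610612736) (W2 := 536870912) (P3 := 50331648) (W3 := 16777216) (N0 := 3)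
    rfl rfl rfl (fun _ => rfl) k0_mm_203

noncomputable def f_mm_213 : ℕ → ℕ → ℕ → ℕ → Bool := onCell 0 536870912 1610612736 536870912 50331648 16777216
    (rowNK 3 0 false false false .pnn 2 1 3 (qsf 0 536870912 1610612736 536870912 1) ndN0q2 ndN1q3 pcN1 Cut.none Ext.none)

def k0_mm_213 : ∃ t, chk3 f_mm_213 t 1 1 1 = true :=
  ⟨(a (l 3) (l 5)), by decide +kernel⟩

theorem c_mm_213 : CertN 0 536870912 1610612736 536870912 50331648 16777216 3 false false false .pnn 2 1 3
    ndN0q2 ndN1q3 pcN1 Cut.none Ext.none :=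
  certNK0 (fam := false) (s1 := false) (s2 := false) (a := 2) (b := 1) (c := 3) (cn := .pnn) (n1 := ndN0q2) (n2 := ndN1q3) (pc := pcN1) (cut := Cut.none) (xt := Ext.none) (P1 := 0) (W1 := 536870912) (P2 := 1610612736) (W2 := 536870912) (P3 := 50331648) (W3 := 16777216) (N0 := 3)
    rfl rfl rfl k0_mm_213

end Pool.Agent.Strip051.G.I3_64_1_16.Tab.C.NB01

namespace Pool.Agent.Strip051.G.I3_64_1_16.Tab.C.NB02

open Pool.Agent.Strip051.PB Pool.Agent.Strip051.PB.T
open Pool.Agent.Strip051.G.I3_64_1_16.Tab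

noncomputable def f_pp_001 : ℕ → ℕ → ℕ → ℕ → Bool := onCell 0 536870912 0 536870912 50331648 16777216
    (rowNK 3 1 false true true .up 0 0 1 (qsf 0 536870912 536870912 536870912 0) ndN0q0 ndN2q1 pcN0 Cut.none Ext.none)

def k0_pp_001 : ∃ t, chk3 f_pp_001 t 1 1 1 = true :=
  ⟨(l 3), by decide +kernel⟩

theorem c_pp_001 : CertN 0 536870912 536870912 536870912 50331648 16777216 3 false true true .up 0 0 1
    ndN0q0 ndN2q1 pcN0 Cut.none Ext.none :=
  certNK1 (fam := false) (s1 := true) (s2 := true) (a := 0) (b := 0) (c := 1) (cn := .up) (n1 := ndN0q0) (n2 := ndN2q1) (pc := pcN0) (cut := Cut.none) (xt := Ext.none) (P1 := 0) (W1 := 536870912) (P2 := 536870912) (W2 := 536870912) (P3 := 50331648) (W3 := 16777216) (N0 := 3)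
    rfl rfl rfl (fun _ => rfl) k0_pp_001

noncomputable def cut_pp_011 : Cut := Cut.of [[⟨0, 0, 0, 50331648⟩, ⟨1, 1, 0, 50331648⟩, ⟨2, 1, 0, 50331648⟩]]

noncomputable def f_pp_011 : ℕ → ℕ → ℕ → ℕ → Bool := onCell 0 536870912 536870912 536870912 50331648 16777216
    (rowNK 3 0 false true true .pnn 0 1 1 (qsf 0 536870912 536870912 536870912 1) ndN0q0 ndN2q1 pcN1 cut_pp_011 Ext.none)

def k0_pp_011 : ∃ t, chk3 f_pp_011 t 1 1 1 = true :=
  ⟨(a (b (l 3) (a (b (l 3) (b (l 3) (b (l 3) (b (l 3) (a (a (a (l 6) (l 3)) (l 3)) (l 3)))))) (l 3))) (l 3)), by decide +kernel⟩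

theorem c_pp_011 : CertN 0 536870912 536870912 536870912 50331648 16777216 3 false true true .pnn 0 1 1
    ndN0q0 ndN2q1 pcN1 cut_pp_011 Ext.none :=
  certNK0 (fam := false) (s1 := true) (s2 := true) (a := 0) (b := 1) (c := 1) (cn := .pnn) (n1 := ndN0q0) (n2 := ndN2q1) (pc := pcN1) (cut := cut_pp_011) (xt := Ext.none) (P1 := 0) (W1 := 536870912) (P2 := 536870912) (W2 := 536870912) (P3 := 50331648) (W3 := 16777216) (N0 := 3)
    rfl rfl rfl k0_pp_011

noncomputable def cut_pp_012_a : Cut := Cut.of [[⟨0, 0, 0, 50331648⟩, ⟨1, 1, 0, 50331648⟩, ⟨2, 1, 0, 50331648⟩], [⟨0, 0, 1, 33554432⟩, ⟨1, 1, 0, 16777216⟩, ⟨2, 1, 1, 33554432⟩, ⟨0, 0, 0, 83886080⟩, ⟨0, 1, 0, 1040187392⟩, ⟨2, 1, 0, 83886080⟩, ⟨2, 2, 0, 1040187392⟩]]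

noncomputable def f_pp_012_a : ℕ → ℕ → ℕ → ℕ → Bool := onCell 536870912 536870912 0 536870912 50331648 16777216
    (rowNK 3 2 false true true .pnp 0 1 2 (qsf 0 536870912 0 536870912 1) ndN0q0 ndN2q2a pcN1 cut_pp_012_a Ext.none)

def k0_pp_012_a : ∃ t, chk3 f_pp_012_a t 1 1 1 = true :=
  ⟨(a (l 3) (a (l 3) (a (l 3) (a (l 3) (a (l 3) (b (b (l 17991208) (b (l 17913512) (l 25402592039))) (a (l 3) (a (l 3) (b (b (b (l 17740368) (l 17637352)) (b (l 17508384) (b (l 17263936) (b (l 17251632) (l 14))))) (b (l 14) (l 6))))))))))), by decide +kernel⟩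

theorem c_pp_012_a : CertN 0 536870912 0 536870912 50331648 16777216 3 false true true .pnp 0 1 2
    ndN0q0 ndN2q2a pcN1 cut_pp_012_a Ext.none :=
  certNK2 (fam := false) (s1 := true) (s2 := true) (a := 0) (b := 1) (c := 2) (cn := .pnp) (n1 := ndN0q0) (n2 := ndN2q2a) (pc := pcN1) (cut := cut_pp_012_a) (xt := Ext.none) (P1 := 0) (W1 := 536870912) (P2 := 0) (W2 := 536870912) (P3 := 50331648) (W3 := 16777216) (N0 := 3)
    rfl rfl rfl (fun _ => rfl) k0_pp_012_a

noncomputable def cut_pp_012_b : Cut := Cut.of [[⟨0, 0, 0, 50331648⟩, ⟨1, 1, 0, 50331648⟩, ⟨2, 1, 0, 50331648⟩], [⟨0, 0, 1, 33554432⟩, ⟨1, 1, 0, 16777216⟩, ⟨2, 1, 1, 33554432⟩, ⟨0, 0, 0, 83886080⟩, ⟨0, 1, 0, 1040187392⟩, ⟨2, 1, 0, 83886080⟩, ⟨2, 2, 0, 1040187392⟩]]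

noncomputable def f_pp_012_b : ℕ → ℕ → ℕ → ℕ → Bool := onCell 536870912 536870912 1239849684 370763052 50331648 16777216
    (rowNK 3 2 false true true .pnp 0 1 2 (qsf 0 536870912 1239849684 370763052 1) ndN0q0 ndN2q2b pcN1 cut_pp_012_b Ext.none)

def k0_pp_012_b : ∃ t, chk3 f_pp_012_b t 1 1 1 = true :=
  ⟨(a (l 3) (a (l 3) (a (l 3) (a (l 3) (a (l 3) (b (a (l 3) (b (l 18305096) (l 18632432))) (l 18877128))))))), by decide +kernel⟩

theorem c_pp_012_b : CertN 0 536870912 1239849684 370763052 50331648 16777216 3 false true true .pnp 0 1 2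
    ndN0q0 ndN2q2b pcN1 cut_pp_012_b Ext.none :=
  certNK2 (fam := false) (s1 := true) (s2 := true) (a := 0) (b := 1) (c := 2) (cn := .pnp) (n1 := ndN0q0) (n2 := ndN2q2b) (pc := pcN1) (cut := cut_pp_012_b) (xt := Ext.none) (P1 := 0) (W1 := 536870912) (P2 := 1239849684) (W2 := 370763052) (P3 := 50331648) (W3 := 16777216) (N0 := 3)
    rfl rfl rfl (fun _ => rfl) k0_pp_012_b

noncomputable def cut_pp_022_a : Cut := Cut.of [[⟨0, 0, 0, 50331648⟩, ⟨1, 1, 0, 50331648⟩, ⟨2, 1, 0, 50331648⟩], [⟨0, 0, 1, 33554432⟩, ⟨1, 1, 0, 16777216⟩, ⟨2, 1, 1, 33554432⟩, ⟨0, 0, 0, 83886080⟩, ⟨0, 1, 0, 1040187392⟩, ⟨2, 1, 0, 83886080⟩, ⟨2, 2, 0, 1040187392⟩]]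

noncomputable def f_pp_022_a : ℕ → ℕ → ℕ → ℕ → Bool := onCell 1073741824 536870912 0 536870912 50331648 16777216
    (rowNK 3 2 false true true .pp 0 2 2 (qsf 0 536870912 0 536870912 2) ndN0q0 ndN2q2a pcN2 cut_pp_022_a Ext.none)

def k0_pp_022_a : ∃ t, chk3 f_pp_022_a t 2 2 1 = true :=
  ⟨(a (a (a (a (b (l 18113328) (b (l 18036816) (l 17932080))) (a (b (l 18186704) (l 18068216)) (b (l 18231360) (l 18120608)))) (a (b (l 18300608) (l 18202080)) (b (l 18401928) (l 18320136)))) (a (b (l 18536104) (a (l 18439680) (l 18536320))) (b (l 18670104) (l 18676320)))) (a (b (l 18860496) (l 18889152)) (l 1))), by decide +kernel⟩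

def k1_pp_022_a : ∃ t, chk3 f_pp_022_a t 4 6 1 = true :=
  ⟨(b (a (a (a (b (l 17816848) (l 17628520)) (a (l 17860568) (l 17921120))) (a (a (l 17988768) (l 18054984)) (l 18153608))) (a (a (l 18294256) (l 18427544)) (l 18602576))) (a (a (a (a (b (b (l 17584008) (l 17506752)) (b (b (l 17440760) (l 17286904)) (l 14))) (b (l 17605336) (b (l 17466704) (b (l 17374408) (l 17192032))))) (a (b (l 17666384) (b (l 17518840) (b (l 17419104) (l 17336032)))) (b (a (l 17713184) (l 17744192)) (b (a (l 17559184) (l 17586104)) (a (l 17411640) (l 17350032)))))) (a (b (a (l 17791240) (l 17856768)) (b (a (l 17606360) (l 17685368)) (a (a (l 17436408) (l 17481184)) (b (l 17565184) (l 17425264))))) (b (a (l 17924384) (l 17993144)) (b (a (l 17745760) (l 17807912)) (a (b (l 17619224) (l 17516608)) (b (l 17675304) (l 17568248))))))) (a (b (a (l 18035920) (b (l 18295152) (l 18186440))) (a (b (a (l 17871912) (l 17937528)) (a (b (l 17733512) (l 17622232)) (a (b (l 17778208) (l 17657424))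 (l 17734440)))) (b (a (l 17996520) (l 1)) (l 1)))) (b (l 18410312) (l 1))))), by decide +kernel⟩

def k2_pp_022_a : ∃ t, chk3 f_pp_022_a t 8 28 1 = true :=
  ⟨(a (a (a (l 14) (a (l 14) (b (b (l 17151888) (l 16939600)) (b (l 16812344) (l 16764608))))) (a (b (b (l 17092200) (a (l 17013800) (l 17046792))) (b (a (l 16859416) (l 16907312)) (a (l 16803480) (l 16822336)))) (b (a (b (l 17264680) (l 17080512)) (b (l 17219344) (l 16967912))) (a (b (l 16935064) (l 16821152)) (a (l 16727328) (l 16708640)))))) (a (a (b (a (b (l 17280024) (l 17045200)) (b (l 17320264) (l 17102208))) (a (b (l 16846272) (l 16758880)) (b (l 16897704) (l 16781840)))) (b (a (b (l 17340352) (l 17118104)) (b (l 17361112) (l 17134744))) (b (a (l 16908016) (l 16919176)) (a (l 16784664) (l 16767472))))) (a (b (b (l 17163248) (a (l 17131168) (l 17128352))) (b (a (l 16889232) (l 16881112)) (a (l 16751240) (l 16714992)))) (b (b (l 17229976) (a (l 17126280) (l 17083024))) (b (a (l 16831888) (a (b (l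 17104472) (l 16786280)) (b (l 16943816) (l 16999104)))) (a (b (a (l 16909016) (l 16703248)) (a (l 16672544) (l 16778768))) (b (l 16832232) (l 1)))))))), by decide +kernel⟩

def k3_pp_022_a : ∃ t, chk3 f_pp_022_a t 8 29 1 = true :=
  ⟨(b (a (a (a (l 14) (a (l 14) (b (l 16738712) (l 16742440)))) (a (b (a (l 16746712) (l 16738944)) (a (l 16732112) (l 16740080))) (a (b (l 16731112) (l 16732296)) (b (l 16716856) (a (l 16726488) (l 16722376)))))) (a (a (a (b (a (l 16717120) (l 16712968)) (a (l 16718504) (l 16714416))) (b (l 16706040) (a (l 16710520) (b (l 16706808) (l 16707680))))) (b (b (a (l 16698360) (l 16697120)) (a (l 16701032) (l 16700320))) (a (l 16696136) (b (l 16703552) (l 16706800))))) (a (b (a (b (l 16696488) (l 16699624)) (b (a (l 16674552) (l 16674272)) (a (l 16677632) (l 16677312)))) (b (a (a (l 16681416) (l 16683704)) (l 16681024)) (a (a (l 16687240) (l 16684248)) (l 1)))) (a (b (b (l 16674232) (l 1)) (l 1)) (l 1))))) (b (b (a (a (a (l 14) (a (l 14)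 (l 16736144))) (a (a (l 16728440) (l 16720696)) (a (l 16713000) (l 16717296)))) (a (a (a (l 16717728) (l 16711944)) (a (l 16711000) (a (l 16688640) (l 16690872)))) (a (l 16702968) (l 1)))) (a (l 6) (a (a (l 6) (a (l 6) (a (l 6) (l 1)))) (l 1)))) (a (l 6) (a (a (l 6) (a (l 6) (l 1))) (l 1))))), by decide +kernel⟩

def k4_pp_022_a : ∃ t, chk3 f_pp_022_a t 8 15 1 = true :=
  ⟨(a (l 6) (a (a (l 6) (a (l 6) (l 1))) (l 1))), by decide +kernel⟩

def k5_pp_022_a : ∃ t, chk3 f_pp_022_a t 9 7 1 = true :=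
  ⟨(b (a (b (a (b (a (a (b (l 17433144) (c (l 17559312) (a (l 16952408) (l 16998560)))) (b (c (l 17731192) (l 17111584)) (l 17317584))) (l 17417848)) (a (b (a (l 16955040) (l 1)) (l 1)) (l 1))) (l 1)) (l 1)) (l 1)) (l 1)), by decide +kernel⟩

def k6_pp_022_a : ∃ t, chk3 f_pp_022_a t 5 3 1 = true :=
  ⟨(b (l 1) (l 1)), by decide +kernel⟩

def k7_pp_022_a : ∃ t, chk3 f_pp_022_a t 3 1 1 = true :=
  ⟨(l 1), by decide +kernel⟩

theorem s8_pp_022_a : ∃ t, chk3 f_pp_022_a t 8 14 1 = true := ex3_b k2_pp_022_a k3_pp_022_a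

theorem s9_pp_022_a : ∃ t, chk3 f_pp_022_a t 8 7 1 = true := ex3_b s8_pp_022_a k4_pp_022_a

theorem s10_pp_022_a : ∃ t, chk3 f_pp_022_a t 4 7 1 = true := ex3_a s9_pp_022_a k5_pp_022_a

theorem s11_pp_022_a : ∃ t, chk3 f_pp_022_a t 4 3 1 = true := ex3_b k1_pp_022_a s10_pp_022_a

theorem s12_pp_022_a : ∃ t, chk3 f_pp_022_a t 2 3 1 = true := ex3_a s11_pp_022_a k6_pp_022_a

theorem s13_pp_022_a : ∃ t, chk3 f_pp_022_a t 2 1 1 = true := ex3_b k0_pp_022_a s12_pp_022_a

theorem s14_pp_022_a : ∃ t, chk3 f_pp_022_a t 1 1 1 = true := ex3_a s13_pp_022_a k7_pp_022_a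

theorem c_pp_022_a : CertN 0 536870912 0 536870912 50331648 16777216 3 false true true .pp 0 2 2
    ndN0q0 ndN2q2a pcN2 cut_pp_022_a Ext.none :=
  certNK2 (fam := false) (s1 := true) (s2 := true) (a := 0) (b := 2) (c := 2) (cn := .pp) (n1 := ndN0q0) (n2 := ndN2q2a) (pc := pcN2) (cut := cut_pp_022_a) (xt := Ext.none) (P1 := 0) (W1 := 536870912) (P2 := 0) (W2 := 536870912) (P3 := 50331648) (W3 := 16777216) (N0 := 3)
    rfl rfl rfl (fun _ => rfl) s14_pp_022_a

noncomputable def cut_pp_022_b : Cut := Cut.of [[⟨0, 0, 0, 50331648⟩, ⟨1, 1, 0, 50331648⟩, ⟨2, 1, 0, 50331648⟩], [⟨0, 0, 1, 33554432⟩, ⟨1, 1, 0, 16777216⟩, ⟨2, 1, 1, 33554432⟩, ⟨0, 0, 0, 83886080⟩, ⟨0, 1, 0, 1040187392⟩, ⟨2, 1, 0, 83886080⟩, ⟨2, 2, 0, 1040187392⟩]]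

noncomputable def f_pp_022_b : ℕ → ℕ → ℕ → ℕ → Bool := onCell 1073741824 536870912 1239849684 370763052 50331648 16777216
    (rowNK 3 2 false true true .pp 0 2 2 (qsf 0 536870912 1239849684 370763052 2) ndN0q0 ndN2q2b pcN2 cut_pp_022_b Ext.none)

def k0_pp_022_b : ∃ t, chk3 f_pp_022_b t 1 1 1 = true :=
  ⟨(a (b (b (a (a (a (a (l 18373504) (a (l 18421688) (l 18448512))) (a (l 18490160) (l 18554096))) (a (l 18626232) (l 18653104))) (a (b (l 18765112) (l 18639176)) (l 18664640))) (a (a (a (a (l 18674616) (l 18650752)) (l 18685864)) (a (l 18735792) (l 18656128))) (l 18513472))) (a (a (a (a (l 18781520) (b (l 18744824) (l 18688928))) (b (l 18749672) (l 18681608))) (a (l 18731960) (l 18594168))) (a (l 18404192) (l 18293384)))) (b (a (b (l 1) (l 18498584)) (l 1)) (a (l 18561056) (l 18681736)))), by decide +kernel⟩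

theorem c_pp_022_b : CertN 0 536870912 1239849684 370763052 50331648 16777216 3 false true true .pp 0 2 2
    ndN0q0 ndN2q2b pcN2 cut_pp_022_b Ext.none :=
  certNK2 (fam := false) (s1 := true) (s2 := true) (a := 0) (b := 2) (c := 2) (cn := .pp) (n1 := ndN0q0) (n2 := ndN2q2b) (pc := pcN2) (cut := cut_pp_022_b) (xt := Ext.none) (P1 := 0) (W1 := 536870912) (P2 := 1239849684) (W2 := 370763052) (P3 := 50331648) (W3 := 16777216) (N0 := 3)
    rfl rfl rfl (fun _ => rfl) k0_pp_022_b

noncomputable def f_pp_023 : ℕ → ℕ → ℕ → ℕ → Bool := onCell 0 536870912 1073741824 536870912 50331648 16777216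
    (rowNK 3 1 false true true .up 0 2 3 (qsf 0 536870912 1610612736 536870912 2) ndN0q0 ndN2q3 pcN2 Cut.none Ext.none)

def k0_pp_023 : ∃ t, chk3 f_pp_023 t 1 1 1 = true :=
  ⟨(a (b (b (l 1) (a (l 1) (l 336117945607))) (b (a (l 348466567255) (l 17935784)) (a (l 17883328) (l 18106056)))) (a (b (b (b (l 1) (l 343633839495)) (l 336654063351)) (b (l 17977744) (l 18446544))) (b (b (b (b (b (l 17808208) (l 17910960)) (l 44596161559)) (b (l 18009752) (l 17915584))) (b (l 17736552) (l 17764360))) (b (l 18388104) (b (l 18540040) (l 17999432)))))), by decide +kernel⟩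

theorem c_pp_023 : CertN 0 536870912 1610612736 536870912 50331648 16777216 3 false true true .up 0 2 3
    ndN0q0 ndN2q3 pcN2 Cut.none Ext.none :=
  certNK1 (fam := false) (s1 := true) (s2 := true) (a := 0) (b := 2) (c := 3) (cn := .up) (n1 := ndN0q0) (n2 := ndN2q3) (pc := pcN2) (cut := Cut.none) (xt := Ext.none) (P1 := 0) (W1 := 536870912) (P2 := 1610612736) (W2 := 536870912) (P3 := 50331648) (W3 := 16777216) (N0 := 3)
    rfl rfl rfl (fun _ => rfl) k0_pp_023

noncomputable def f_pp_033 : ℕ → ℕ → ℕ → ℕ → Bool := onCell 1610612736 536870912 1610612736 536870912 50331648 16777216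
    (rowNK 3 2 false true true .pnn 0 3 3 (qsf 0 536870912 1610612736 536870912 3) ndN0q0 ndN2q3 pcN3 Cut.none Ext.none)

def k0_pp_033 : ∃ t, chk3 f_pp_033 t 1 1 1 = true :=
  ⟨(b (a (a (b (a (l 19399816) (l 19339848)) (a (l 20121104) (l 19573984))) (a (b (l 18845152) (l 18787888)) (b (l 1) (l 18037304)))) (a (a (b (l 1) (l 17384328)) (l 1)) (l 1))) (a (a (b (a (l 19955616) (l 19189816)) (a (l 18646584) (l 17882072))) (b (a (l 18424352) (l 17714216)) (a (b (l 17642744) (l 17367576)) (l 17516264)))) (a (a (b (l 17269232) (l 17573472)) (b (l 17541960) (l 4))) (l 4)))), by decide +kernel⟩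

theorem c_pp_033 : CertN 0 536870912 1610612736 536870912 50331648 16777216 3 false true true .pnn 0 3 3
    ndN0q0 ndN2q3 pcN3 Cut.none Ext.none :=
  certNK2 (fam := false) (s1 := true) (s2 := true) (a := 0) (b := 3) (c := 3) (cn := .pnn) (n1 := ndN0q0) (n2 := ndN2q3) (pc := pcN3) (cut := Cut.none) (xt := Ext.none) (P1 := 0) (W1 := 536870912) (P2 := 1610612736) (W2 := 536870912) (P3 := 50331648) (W3 := 16777216) (N0 := 3)
    rfl rfl rfl (fun _ => rfl) k0_pp_033

noncomputable def f_pp_101 : ℕ → ℕ → ℕ → ℕ → Bool := onCell 536870912 536870912 536870912 536870912 50331648 16777216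
    (rowNK 3 0 false true true .npn 1 0 1 (qsf 536870912 536870912 536870912 536870912 0) ndN0q1 ndN2q1 pcN0 Cut.none Ext.none)

def k0_pp_101 : ∃ t, chk3 f_pp_101 t 1 1 1 = true :=
  ⟨(a (l 3) (l 5)), by decide +kernel⟩

theorem c_pp_101 : CertN 536870912 536870912 536870912 536870912 50331648 16777216 3 false true true .npn 1 0 1
    ndN0q1 ndN2q1 pcN0 Cut.none Ext.none :=
  certNK0 (fam := false) (s1 := true) (s2 := true) (a := 1) (b := 0) (c := 1) (cn := .npn) (n1 := ndN0q1) (n2 := ndN2q1) (pc := pcN0) (cut := Cut.none) (xt := Ext.none) (P1 := 536870912) (W1 := 536870912) (P2 := 536870912) (W2 := 536870912) (P3 := 50331648) (W3 := 16777216) (N0 := 3)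
    rfl rfl rfl k0_pp_101

noncomputable def f_pp_102_a : ℕ → ℕ → ℕ → ℕ → Bool := onCell 536870912 536870912 0 536870912 50331648 16777216
    (rowNK 3 0 false true true .npp 1 0 2 (qsf 536870912 536870912 0 536870912 0) ndN0q1 ndN2q2a pcN0 Cut.none Ext.none)

def k0_pp_102_a : ∃ t, chk3 f_pp_102_a t 1 1 1 = true :=
  ⟨(l 3), by decide +kernel⟩

theorem c_pp_102_a : CertN 536870912 536870912 0 536870912 50331648 16777216 3 false true true .npp 1 0 2
    ndN0q1 ndN2q2a pcN0 Cut.none Ext.none :=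
  certNK0 (fam := false) (s1 := true) (s2 := true) (a := 1) (b := 0) (c := 2) (cn := .npp) (n1 := ndN0q1) (n2 := ndN2q2a) (pc := pcN0) (cut := Cut.none) (xt := Ext.none) (P1 := 536870912) (W1 := 536870912) (P2 := 0) (W2 := 536870912) (P3 := 50331648) (W3 := 16777216) (N0 := 3)
    rfl rfl rfl k0_pp_102_a

noncomputable def f_pp_102_b : ℕ → ℕ → ℕ → ℕ → Bool := onCell 536870912 536870912 0 536870912 50331648 16777216
    (rowNK 3 1 false true true .npp 1 0 2 (qsf 536870912 536870912 1239849684 370763052 0) ndN0q1 ndN2q2b pcN0 Cut.none Ext.none)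

def k0_pp_102_b : ∃ t, chk3 f_pp_102_b t 1 1 1 = true :=
  ⟨(l 3), by decide +kernel⟩

theorem c_pp_102_b : CertN 536870912 536870912 1239849684 370763052 50331648 16777216 3 false true true .npp 1 0 2
    ndN0q1 ndN2q2b pcN0 Cut.none Ext.none :=
  certNK1 (fam := false) (s1 := true) (s2 := true) (a := 1) (b := 0) (c := 2) (cn := .npp) (n1 := ndN0q1) (n2 := ndN2q2b) (pc := pcN0) (cut := Cut.none) (xt := Ext.none) (P1 := 536870912) (W1 := 536870912) (P2 := 1239849684) (W2 := 370763052) (P3 := 50331648) (W3 := 16777216) (N0 := 3)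
    rfl rfl rfl (fun _ => rfl) k0_pp_102_b

noncomputable def f_pp_112_a : ℕ → ℕ → ℕ → ℕ → Bool := onCell 536870912 536870912 0 536870912 50331648 16777216
    (rowNK 3 0 false true true .dn 1 1 2 (qsf 536870912 536870912 0 536870912 1) ndN0q1 ndN2q2a pcN1 Cut.none Ext.none)

def k0_pp_112_a : ∃ t, chk3 f_pp_112_a t 1 1 1 = true :=
  ⟨(l 3), by decide +kernel⟩

theorem c_pp_112_a : CertN 536870912 536870912 0 536870912 50331648 16777216 3 false true true .dn 1 1 2
    ndN0q1 ndN2q2a pcN1 Cut.none Ext.none :=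
  certNK0 (fam := false) (s1 := true) (s2 := true) (a := 1) (b := 1) (c := 2) (cn := .dn) (n1 := ndN0q1) (n2 := ndN2q2a) (pc := pcN1) (cut := Cut.none) (xt := Ext.none) (P1 := 536870912) (W1 := 536870912) (P2 := 0) (W2 := 536870912) (P3 := 50331648) (W3 := 16777216) (N0 := 3)
    rfl rfl rfl k0_pp_112_a

noncomputable def f_pp_112_b : ℕ → ℕ → ℕ → ℕ → Bool := onCell 536870912 536870912 1239849684 370763052 50331648 16777216
    (rowNK 3 0 false true true .dn 1 1 2 (qsf 536870912 536870912 1239849684 370763052 1) ndN0q1 ndN2q2b pcN1 Cut.none Ext.none)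

def k0_pp_112_b : ∃ t, chk3 f_pp_112_b t 1 1 1 = true :=
  ⟨(a (b (l 3) (a (b (l 3) (a (l 164453372519) (l 3))) (l 3))) (l 3)), by decide +kernel⟩

theorem c_pp_112_b : CertN 536870912 536870912 1239849684 370763052 50331648 16777216 3 false true true .dn 1 1 2
    ndN0q1 ndN2q2b pcN1 Cut.none Ext.none :=
  certNK0 (fam := false) (s1 := true) (s2 := true) (a := 1) (b := 1) (c := 2) (cn := .dn) (n1 := ndN0q1) (n2 := ndN2q2b) (pc := pcN1) (cut := Cut.none) (xt := Ext.none) (P1 := 536870912) (W1 := 536870912) (P2 := 1239849684) (W2 := 370763052) (P3 := 50331648) (W3 := 16777216) (N0 := 3)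
    rfl rfl rfl k0_pp_112_b

noncomputable def cut_pp_113 : Cut := Cut.of [[⟨0, 1, 0, 14341072⟩, ⟨1, 1, 0, 14341072⟩, ⟨2, 2, 0, 761489⟩]]

noncomputable def f_pp_113 : ℕ → ℕ → ℕ → ℕ → Bool := onCell 536870912 536870912 536870912 536870912 50331648 16777216
    (rowNK 3 1 false true true .nn 1 1 3 (qsf 536870912 536870912 1610612736 536870912 1) ndN0q1 ndN2q3 pcN1 cut_pp_113 Ext.none)

def k0_pp_113 : ∃ t, chk3 f_pp_113 t 1 1 1 = true :=
  ⟨(b (l 3) (b (l 3) (b (a (l 3) (l 3)) (a (b (l 3) (a (l 18058560) (l 18405480))) (a (a (l 155326396215) (l 166063797399)) (b (l 3) (b (l 3) (b (l 3) (b (a (l 3) (l 3)) (a (l 196127666775) (b (l 3) (a (l 231560354471) (a (a (l 17261688) (l 208474411175)) (a (a (l 211695442023) (l 213305918583)) (b (l 3) (b (l 3) (b (l 3) (b (l 3) (b (l 3) (a (a (l 16907664) (l 16871368)) (a (a (l 16843728) (l 16825080)) (a (a (l 16810984) (l 16798912)) (a (a (l 16794416) (l 258402702775)) (l 6)))))))))))))))))))))))), by decide +kernel⟩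

theorem c_pp_113 : CertN 536870912 536870912 1610612736 536870912 50331648 16777216 3 false true true .nn 1 1 3
    ndN0q1 ndN2q3 pcN1 cut_pp_113 Ext.none :=
  certNK1 (fam := false) (s1 := true) (s2 := true) (a := 1) (b := 1) (c := 3) (cn := .nn) (n1 := ndN0q1) (n2 := ndN2q3) (pc := pcN1) (cut := cut_pp_113) (xt := Ext.none) (P1 := 536870912) (W1 := 536870912) (P2 := 1610612736) (W2 := 536870912) (P3 := 50331648) (W3 := 16777216) (N0 := 3)
    rfl rfl rfl (fun _ => rfl) k0_pp_113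

noncomputable def cut_pp_123 : Cut := Cut.of [[⟨0, 1, 0, 14341072⟩, ⟨1, 1, 0, 14341072⟩, ⟨2, 2, 0, 761489⟩]]

noncomputable def f_pp_123 : ℕ → ℕ → ℕ → ℕ → Bool := onCell 1073741824 536870912 1610612736 536870912 50331648 16777216
    (rowNK 3 2 false true true .npn 1 2 3 (qsf 536870912 536870912 1610612736 536870912 2) ndN0q1 ndN2q3 pcN2 cut_pp_123 Ext.none)

def k0_pp_123 : ∃ t, chk3 f_pp_123 t 1 1 1 = true :=
  ⟨(a (b (a (a (a (a (b (l 17995384) (l 18286712)) (b (l 18115448) (l 18274104))) (b (l 18124240) (l 18240872))) (b (a (l 18045000) (l 17926368)) (a (l 18199248) (l 18020616)))) (b (a (l 17760888) (l 1)) (a (l 17779680) (l 17878536)))) (a (b (a (a (a (l 18347640) (b (l 18325760) (l 18224784))) (l 18478960)) (a (l 18198696) (l 18002176))) (a (a (a (b (b (l 18083568) (l 17848392)) (b (b (l 17611936) (l 17418080)) (b (b (l 17252544) (l 17130936)) (a (b (b (l 17032160) (l 16963856)) (a (a (b (b (l 16908296) (l 16872048)) (b (b (l 16844448) (l 16825824))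 (b (b (l 16811744) (l 16798376)) (a (b (b (l 16794576) (l 16788504)) (l 6)) (l 16788720))))) (l 16939552)) (l 16900608))) (l 16996656))))) (b (a (l 17960448) (l 17945616)) (b (a (l 17513256) (l 17502288)) (a (l 17213824) (l 17165584))))) (b (l 18082768) (b (l 17669856) (a (l 17174200) (l 17035224))))) (b (a (l 17820840) (l 17635456)) (a (b (l 17396536) (l 16978272)) (l 17079464))))) (b (a (l 17856848) (l 18157872)) (b (l 17855672) (a (l 17277480) (l 17567456)))))) (b (a (b (l 1) (l 18349256)) (l 1)) (b (a (l 18511920) (l 18547472)) (a (b (l 18325080) (l 17791192)) (b (l 18239168) (l 17527280)))))), by decide +kernel⟩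

theorem c_pp_123 : CertN 536870912 536870912 1610612736 536870912 50331648 16777216 3 false true true .npn 1 2 3
    ndN0q1 ndN2q3 pcN2 cut_pp_123 Ext.none :=
  certNK2 (fam := false) (s1 := true) (s2 := true) (a := 1) (b := 2) (c := 3) (cn := .npn) (n1 := ndN0q1) (n2 := ndN2q3) (pc := pcN2) (cut := cut_pp_123) (xt := Ext.none) (P1 := 536870912) (W1 := 536870912) (P2 := 1610612736) (W2 := 536870912) (P3 := 50331648) (W3 := 16777216) (N0 := 3)
    rfl rfl rfl (fun _ => rfl) k0_pp_123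

noncomputable def f_pp_133 : ℕ → ℕ → ℕ → ℕ → Bool := onCell 1610612736 536870912 1610612736 536870912 50331648 16777216
    (rowNK 3 2 false true true .dn 1 3 3 (qsf 536870912 536870912 1610612736 536870912 3) ndN0q1 ndN2q3 pcN3 Cut.none Ext.none)

def k0_pp_133 : ∃ t, chk3 f_pp_133 t 1 1 1 = true :=
  ⟨(a (b (l 1) (a (b (l 1) (a (l 722129728871) (l 1))) (l 1))) (l 1)), by decide +kernel⟩

theorem c_pp_133 : CertN 536870912 536870912 1610612736 536870912 50331648 16777216 3 false true true .dn 1 3 3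
    ndN0q1 ndN2q3 pcN3 Cut.none Ext.none :=
  certNK2 (fam := false) (s1 := true) (s2 := true) (a := 1) (b := 3) (c := 3) (cn := .dn) (n1 := ndN0q1) (n2 := ndN2q3) (pc := pcN3) (cut := Cut.none) (xt := Ext.none) (P1 := 536870912) (W1 := 536870912) (P2 := 1610612736) (W2 := 536870912) (P3 := 50331648) (W3 := 16777216) (N0 := 3)
    rfl rfl rfl (fun _ => rfl) k0_pp_133

noncomputable def f_pp_202_a : ℕ → ℕ → ℕ → ℕ → Bool := onCell 0 536870912 0 536870912 50331648 16777216
    (rowNK 3 0 false true true .pp 2 0 2 (qsf 0 536870912 0 536870912 0) ndN0q2 ndN2q2a pcN0 Cut.none Ext.none)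

def k0_pp_202_a : ∃ t, chk3 f_pp_202_a t 1 1 1 = true :=
  ⟨(l 3), by decide +kernel⟩

theorem c_pp_202_a : CertN 0 536870912 0 536870912 50331648 16777216 3 false true true .pp 2 0 2
    ndN0q2 ndN2q2a pcN0 Cut.none Ext.none :=
  certNK0 (fam := false) (s1 := true) (s2 := true) (a := 2) (b := 0) (c := 2) (cn := .pp) (n1 := ndN0q2) (n2 := ndN2q2a) (pc := pcN0) (cut := Cut.none) (xt := Ext.none) (P1 := 0) (W1 := 536870912) (P2 := 0) (W2 := 536870912) (P3 := 50331648) (W3 := 16777216) (N0 := 3)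
    rfl rfl rfl k0_pp_202_a

noncomputable def f_pp_202_b : ℕ → ℕ → ℕ → ℕ → Bool := onCell 0 536870912 1239849684 370763052 50331648 16777216
    (rowNK 3 0 false true true .pp 2 0 2 (qsf 0 536870912 1239849684 370763052 0) ndN0q2 ndN2q2b pcN0 Cut.none Ext.none)

def k0_pp_202_b : ∃ t, chk3 f_pp_202_b t 1 1 1 = true :=
  ⟨(l 3), by decide +kernel⟩

theorem c_pp_202_b : CertN 0 536870912 1239849684 370763052 50331648 16777216 3 false true true .pp 2 0 2
    ndN0q2 ndN2q2b pcN0 Cut.none Ext.none :=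
  certNK0 (fam := false) (s1 := true) (s2 := true) (a := 2) (b := 0) (c := 2) (cn := .pp) (n1 := ndN0q2) (n2 := ndN2q2b) (pc := pcN0) (cut := Cut.none) (xt := Ext.none) (P1 := 0) (W1 := 536870912) (P2 := 1239849684) (W2 := 370763052) (P3 := 50331648) (W3 := 16777216) (N0 := 3)
    rfl rfl rfl k0_pp_202_b

noncomputable def f_pp_203 : ℕ → ℕ → ℕ → ℕ → Bool := onCell 0 536870912 0 536870912 50331648 16777216
    (rowNK 3 1 false true true .up 2 0 3 (qsf 0 536870912 1610612736 536870912 0) ndN0q2 ndN2q3 pcN0 Cut.none Ext.none)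

def k0_pp_203 : ∃ t, chk3 f_pp_203 t 1 1 1 = true :=
  ⟨(l 3), by decide +kernel⟩

theorem c_pp_203 : CertN 0 536870912 1610612736 536870912 50331648 16777216 3 false true true .up 2 0 3
    ndN0q2 ndN2q3 pcN0 Cut.none Ext.none :=
  certNK1 (fam := false) (s1 := true) (s2 := true) (a := 2) (b := 0) (c := 3) (cn := .up) (n1 := ndN0q2) (n2 := ndN2q3) (pc := pcN0) (cut := Cut.none) (xt := Ext.none) (P1 := 0) (W1 := 536870912) (P2 := 1610612736) (W2 := 536870912) (P3 := 50331648) (W3 := 16777216) (N0 := 3)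
    rfl rfl rfl (fun _ => rfl) k0_pp_203

noncomputable def cut_pp_213 : Cut := Cut.of [[⟨0, 1, 0, 14341072⟩, ⟨1, 1, 0, 14341072⟩, ⟨2, 2, 0, 761489⟩]]

noncomputable def f_pp_213 : ℕ → ℕ → ℕ → ℕ → Bool := onCell 0 536870912 1610612736 536870912 50331648 16777216
    (rowNK 3 0 false true true .pnn 2 1 3 (qsf 0 536870912 1610612736 536870912 1) ndN0q2 ndN2q3 pcN1 cut_pp_213 Ext.none)

def k0_pp_213 : ∃ t, chk3 f_pp_213 t 1 1 1 = true :=
  ⟨(b (l 3) (a (l 3) (b (l 3) (a (l 3) (b (l 3) (b (l 3) (a (l 3) (b (l 3) (a (l 3) (b (l 3) (a (l 3) (b (l 3) (b (l 3) (b (l 3) (b (l 3) (l 6)))))))))))))))), by decide +kernel⟩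

theorem c_pp_213 : CertN 0 536870912 1610612736 536870912 50331648 16777216 3 false true true .pnn 2 1 3
    ndN0q2 ndN2q3 pcN1 cut_pp_213 Ext.none :=
  certNK0 (fam := false) (s1 := true) (s2 := true) (a := 2) (b := 1) (c := 3) (cn := .pnn) (n1 := ndN0q2) (n2 := ndN2q3) (pc := pcN1) (cut := cut_pp_213) (xt := Ext.none) (P1 := 0) (W1 := 536870912) (P2 := 1610612736) (W2 := 536870912) (P3 := 50331648) (W3 := 16777216) (N0 := 3)
    rfl rfl rfl k0_pp_213

noncomputable def f_pm_001 : ℕ → ℕ → ℕ → ℕ → Bool := onCell 0 536870912 536870912 536870912 50331648 16777216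
    (rowNK 3 0 false true false .up 0 0 1 (qsf 0 536870912 536870912 536870912 0) ndN0q0 ndN2q1 pcN0 Cut.none Ext.none)

def k0_pm_001 : ∃ t, chk3 f_pm_001 t 1 1 1 = true :=
  ⟨(l 4), by decide +kernel⟩

theorem c_pm_001 : CertN 0 536870912 536870912 536870912 50331648 16777216 3 false true false .up 0 0 1
    ndN0q0 ndN2q1 pcN0 Cut.none Ext.none :=
  certNK0 (fam := false) (s1 := true) (s2 := false) (a := 0) (b := 0) (c := 1) (cn := .up) (n1 := ndN0q0) (n2 := ndN2q1) (pc := pcN0) (cut := Cut.none) (xt := Ext.none) (P1 := 0) (W1 := 536870912) (P2 := 536870912) (W2 := 536870912) (P3 := 50331648) (W3 := 16777216) (N0 := 3)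
    rfl rfl rfl k0_pm_001

noncomputable def f_pm_011 : ℕ → ℕ → ℕ → ℕ → Bool := onCell 0 536870912 536870912 536870912 50331648 16777216
    (rowNK 3 0 false true false .pnn 0 1 1 (qsf 0 536870912 536870912 536870912 1) ndN0q0 ndN2q1 pcN1 Cut.none Ext.none)

def k0_pm_011 : ∃ t, chk3 f_pm_011 t 1 1 1 = true :=
  ⟨(l 4), by decide +kernel⟩

theorem c_pm_011 : CertN 0 536870912 536870912 536870912 50331648 16777216 3 false true false .pnn 0 1 1
    ndN0q0 ndN2q1 pcN1 Cut.none Ext.none :=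
  certNK0 (fam := false) (s1 := true) (s2 := false) (a := 0) (b := 1) (c := 1) (cn := .pnn) (n1 := ndN0q0) (n2 := ndN2q1) (pc := pcN1) (cut := Cut.none) (xt := Ext.none) (P1 := 0) (W1 := 536870912) (P2 := 536870912) (W2 := 536870912) (P3 := 50331648) (W3 := 16777216) (N0 := 3)
    rfl rfl rfl k0_pm_011

noncomputable def cut_pm_012_a : Cut := Cut.of [[⟨0, 0, 0, 50331648⟩, ⟨1, 1, 0, 50331648⟩, ⟨2, 1, 0, 50331648⟩], [⟨0, 0, 1, 33554432⟩, ⟨1, 1, 2, 33554432⟩, ⟨2, 1, 0, 16777216⟩, ⟨0, 0, 0, 83886080⟩, ⟨0, 1, 0, 1040187392⟩, ⟨1, 0, 0, 1040187392⟩, ⟨1, 1, 0, 83886080⟩]]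

noncomputable def f_pm_012_a : ℕ → ℕ → ℕ → ℕ → Bool := onCell 536870912 536870912 0 536870912 50331648 16777216
    (rowNK 3 2 false true false .pnp 0 1 2 (qsf 0 536870912 0 536870912 1) ndN0q0 ndN2q2a pcN1 cut_pm_012_a Ext.none)

def k0_pm_012_a : ∃ t, chk3 f_pm_012_a t 2 1 1 = true :=
  ⟨(b (a (l 17377992) (a (l 17306104) (l 17329656))) (b (a (a (l 2) (l 17656360)) (b (l 17543680) (l 17733208))) (a (b (l 17979592) (b (l 18129544) (l 18250872))) (b (l 18022408) (b (l 18172808) (a (l 18225088) (l 18065480))))))), by decide +kernel⟩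

def k1_pm_012_a : ∃ t, chk3 f_pm_012_a t 3 2 1 = true :=
  ⟨(a (a (l 17763856) (l 18366512)) (a (a (l 18946800) (l 19378440)) (a (b (l 19783448) (l 19722808)) (a (b (l 19932144) (l 19836176)) (b (l 20034592) (l 19899368)))))), by decide +kernel⟩

def k2_pm_012_a : ∃ t, chk3 f_pm_012_a t 6 3 1 = true :=
  ⟨(b (a (l 17883952) (b (l 18413176) (l 18417768))) (b (a (l 17786816) (b (l 18325576) (l 18195032))) (b (a (l 17817464) (b (l 18094376) (l 18010256))) (a (l 17808520) (a (l 17786848) (l 17775608)))))), by decide +kernel⟩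

def k3_pm_012_a : ∃ t, chk3 f_pm_012_a t 7 6 1 = true :=
  ⟨(a (a (l 18873592) (b (l 19275888) (l 19113224))) (a (b (l 19554584) (a (l 19177224) (b (l 19281440) (l 19049904)))) (a (b (l 19580792) (b (a (l 19262904) (l 19229728)) (a (l 18969032) (l 18878360)))) (b (l 19552296) (b (l 19138152) (b (a (l 18875920) (l 18713160)) (c (l 18698224) (a (l 18356424) (a (l 18160312) (l 17994968)))))))))), by decide +kernel⟩

def k4_pm_012_a : ∃ t, chk3 f_pm_012_a t 14 7 1 = true :=
  ⟨(b (a (b (l 18664936) (l 18460808)) (b (l 18838624) (a (l 18542984) (l 18518608)))) (b (a (b (l 18289448) (l 18151632)) (b (a (l 18299976) (l 18213344)) (a (l 18103712) (a (l 18011744) (l 17910696))))) (a (b (l 17991896) (a (l 17836704) (l 17775584))) (a (b (a (l 17908848) (l 17838512)) (a (l 17569776) (b (l 17639416) (b (l 17535456) (l 17381312))))) (b (a (l 17528912) (a (l 17413280) (b (l 17651248) (l 17403192)))) (b (a (c (l 17629000) (l 17274200)) (a (l 17152192) (l 14))) (a (a (a (l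 17348544) (l 17230344)) (b (l 17319552) (l 14))) (l 14)))))))), by decide +kernel⟩

def k5_pm_012_a : ∃ t, chk3 f_pm_012_a t 15 14 1 = true :=
  ⟨(a (a (b (l 18802024) (b (l 18520496) (a (l 18329456) (l 18230512)))) (b (a (l 18720296) (l 18636816)) (b (a (l 18380312) (l 18073200)) (b (a (l 18172464) (a (l 18044480) (l 17939400))) (a (l 18016376) (a (l 17867040) (l 17597168))))))) (a (b (a (a (l 18549600) (l 18267320)) (b (l 18499624) (a (l 18228424) (l 17874360)))) (a (a (b (l 17993664) (b (l 17688248) (a (l 17530928) (l 17387088)))) (b (b (l 18075784) (l 17880768)) (c (b (l 17925552) (l 17692776)) (b (l 17399480) (l 16954224))))) (a (b (c (l 18106368) (b (l 17681840) (l 17451144))) (c (b (l 17767680) (l 17293696)) (b (l 17044600) (l 16750984)))) (b (c (l 17770336) (b (l 17499424) (l 17089960))) (b (c (l 17426648) (l 16791432)) (b (l 16850400) (l 16803280))))))) (b (b (b (a (l 18373112) (c (l 18398648) (a (l 17855344) (l 17646552)))) (a (l 18021720) (c (l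 18136624) (a (l 17617600) (a (l 17438208) (l 17260464)))))) (a (c (b (l 18279536) (l 18060296)) (b (a (l 17777608) (l 17583120)) (a (l 17543656) (l 17168072)))) (c (a (b (l 18029288) (l 17674968)) (b (l 17663840) (a (l 17482000) (l 17165640)))) (b (a (l 17178600) (a (l 17092328) (l 16931096))) (a (l 16845952) (l 16646304)))))) (a (b (c (a (b (l 17907184) (l 17534968)) (b (l 17617840) (a (l 17374672) (l 17130696)))) (b (a (l 17131408) (l 16839784)) (a (l 16828392) (l 16652760)))) (b (a (c (b (l 17350416) (l 17101080)) (l 16673296)) (b (l 16737064) (l 16660032))) (a (b (l 16700048) (l 16663504)) (l 16681264)))) (b (b (a (c (a (l 17451960) (l 17182504)) (l 16673552)) (a (l 16769136) (l 16653576))) (a (l 16664648) (l 16671552))) (b (a (l 16674944) (b (l 16667272) (l 16671944))) (a (a (l 16683136) (l 16686144)) (l 6)))))))), by decide +kernel⟩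

def k6_pm_012_a : ∃ t, chk3 f_pm_012_a t 30 15 1 = true :=
  ⟨(b (a (b (a (l 18072984) (b (l 18017840) (l 17817488))) (a (b (l 17856432) (l 17612200)) (c (b (l 17864008) (l 17681176)) (b (l 17365520) (a (l 17385992) (l 17176064)))))) (b (a (c (b (l 18041048) (l 17859696)) (b (l 17523960) (a (l 17522248) (l 17241704)))) (a (b (l 17461864) (b (l 17386968) (l 17148536))) (b (b (l 17458304) (l 17239592)) (c (b (l 17595944) (l 17474384)) (b (l 17041784) (l 16848528)))))) (a (b (a (l 17312032) (c (l 17598632) (l 16982016))) (c (a (l 17512416) (l 17120712)) (a (b (l 17166360) (l 17035352)) (b (l 16974960) (l 16853136))))) (b (a (c (l 17328672) (a (l 17036416) (l 16936072))) (a (b (l 17038352) (l 16945712)) (l 16799736))) (b (a (c (l 17184592) (l 16791832)) (l 16724080)) (a (l 16749704) (a (l 16721184) (l 16703792)))))))) (b (b (a (a (a (l 17570464) (l 17309136)) (c (a (l 17539704) (l 17383888)) (a (l 16965112) (b (l 17085312) (l 16916840))))) (b (a (a (c (l 17347608)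 (l 16880264)) (l 16781296)) (a (l 16737024) (a (l 16712584) (l 16713336)))) (a (a (c (l 17149296) (l 16785576)) (l 16738064)) (a (a (l 16721144) (l 16721680)) (a (l 16722216) (l 16722968)))))) (a (l 14) (a (l 14) (a (l 14) (a (l 14) (b (l 16732680) (l 6))))))) (a (l 14) (a (l 14) (a (l 14) (l 6)))))), by decide +kernel⟩

def k7_pm_012_a : ∃ t, chk3 f_pm_012_a t 31 15 1 = true :=
  ⟨(b (a (b (a (b (a (c (l 17489592) (a (l 17060808) (l 16974224))) (c (b (l 17499376) (l 17360128)) (l 16708136))) (b (a (c (l 17360896) (l 16758448)) (l 16830208)) (a (a (l 16942816) (l 16908952)) (l 16749560)))) (b (b (a (l 16841216) (l 16661856)) (a (l 16797928) (l 16687728))) (a (b (l 16685928) (l 16690704)) (b (l 16692728) (l 16697544))))) (a (a (b (a (l 16784080) (l 16713240)) (a (b (l 16694848) (a (l 16704384) (l 16704696))) (b (b (l 16693264) (l 16697968)) (b (l 16702696) (l 16686472))))) (b (b (l 16688624) (l 16693808)) (b (b (l 16697752) (l 16700400)) (b (a (l 16703192)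 (l 16704816)) (l 16708184))))) (b (a (b (l 16695488) (l 16700712)) (b (l 16702376) (l 6))) (a (b (a (l 16704280) (l 6)) (l 6)) (l 6))))) (b (a (b (a (b (l 16668336) (l 16694248)) (b (l 16674376) (l 16684592))) (a (b (l 16699288) (l 16688416)) (l 6))) (l 6)) (l 6))) (a (a (b (b (a (b (a (l 16713848) (l 16714608)) (a (l 16723480) (l 16724232))) (b (l 16715352) (l 6))) (l 6)) (l 6)) (l 6)) (l 6))), by decide +kernel⟩

theorem s8_pm_012_a : ∃ t, chk3 f_pm_012_a t 15 15 1 = true := ex3_a k6_pm_012_a k7_pm_012_a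

theorem s9_pm_012_a : ∃ t, chk3 f_pm_012_a t 15 7 1 = true := ex3_b k5_pm_012_a s8_pm_012_a

theorem s10_pm_012_a : ∃ t, chk3 f_pm_012_a t 7 7 1 = true := ex3_a k4_pm_012_a s9_pm_012_a

theorem s11_pm_012_a : ∃ t, chk3 f_pm_012_a t 7 3 1 = true := ex3_b k3_pm_012_a s10_pm_012_a

theorem s12_pm_012_a : ∃ t, chk3 f_pm_012_a t 3 3 1 = true := ex3_a k2_pm_012_a s11_pm_012_a

theorem s13_pm_012_a : ∃ t, chk3 f_pm_012_a t 3 1 1 = true := ex3_b k1_pm_012_a s12_pm_012_a

theorem s14_pm_012_a : ∃ t, chk3 f_pm_012_a t 1 1 1 = true := ex3_a k0_pm_012_a s13_pm_012_a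

theorem c_pm_012_a : CertN 0 536870912 0 536870912 50331648 16777216 3 false true false .pnp 0 1 2
    ndN0q0 ndN2q2a pcN1 cut_pm_012_a Ext.none :=
  certNK2 (fam := false) (s1 := true) (s2 := false) (a := 0) (b := 1) (c := 2) (cn := .pnp) (n1 := ndN0q0) (n2 := ndN2q2a) (pc := pcN1) (cut := cut_pm_012_a) (xt := Ext.none) (P1 := 0) (W1 := 536870912) (P2 := 0) (W2 := 536870912) (P3 := 50331648) (W3 := 16777216) (N0 := 3)
    rfl rfl rfl (fun _ => rfl) s14_pm_012_a

noncomputable def cut_pm_012_b : Cut := Cut.of [[⟨0, 0, 0, 50331648⟩, ⟨1, 1, 0, 50331648⟩, ⟨2, 1, 0, 50331648⟩], [⟨0, 0, 1, 33554432⟩, ⟨1, 1, 2, 33554432⟩, ⟨2, 1, 0, 16777216⟩, ⟨0, 0, 0, 83886080⟩, ⟨0, 1, 0, 1040187392⟩, ⟨1, 0, 0, 1040187392⟩, ⟨1, 1, 0, 83886080⟩]]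

noncomputable def f_pm_012_b : ℕ → ℕ → ℕ → ℕ → Bool := onCell 536870912 536870912 1239849684 370763052 50331648 16777216
    (rowNK 3 2 false true false .pnp 0 1 2 (qsf 0 536870912 1239849684 370763052 1) ndN0q0 ndN2q2b pcN1 cut_pm_012_b Ext.none)

def k0_pm_012_b : ∃ t, chk3 f_pm_012_b t 1 1 1 = true :=
  ⟨(a (b (a (l 2) (b (a (l 16876392) (l 17146680)) (l 17278936))) (l 2)) (b (a (b (a (l 17593920) (l 18237792)) (l 17672168)) (a (b (a (l 18869608) (l 19346296)) (l 18808344)) (a (b (l 19778424) (l 19453864)) (a (b (l 19967088) (l 19647560)) (b (l 20104232) (l 19788928)))))) (a (b (l 17526976) (l 2)) (a (l 18335040) (a (l 18701352) (a (l 18877264) (l 18998960))))))), by decide +kernel⟩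

theorem c_pm_012_b : CertN 0 536870912 1239849684 370763052 50331648 16777216 3 false true false .pnp 0 1 2
    ndN0q0 ndN2q2b pcN1 cut_pm_012_b Ext.none :=
  certNK2 (fam := false) (s1 := true) (s2 := false) (a := 0) (b := 1) (c := 2) (cn := .pnp) (n1 := ndN0q0) (n2 := ndN2q2b) (pc := pcN1) (cut := cut_pm_012_b) (xt := Ext.none) (P1 := 0) (W1 := 536870912) (P2 := 1239849684) (W2 := 370763052) (P3 := 50331648) (W3 := 16777216) (N0 := 3)
    rfl rfl rfl (fun _ => rfl) k0_pm_012_b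

noncomputable def cut_pm_022_a : Cut := Cut.of [[⟨0, 0, 0, 50331648⟩, ⟨1, 1, 0, 50331648⟩, ⟨2, 1, 0, 50331648⟩]]

noncomputable def f_pm_022_a : ℕ → ℕ → ℕ → ℕ → Bool := onCell 1073741824 536870912 0 536870912 50331648 16777216
    (rowNK 3 2 false true false .pp 0 2 2 (qsf 0 536870912 0 536870912 2) ndN0q0 ndN2q2a pcN2 cut_pm_022_a Ext.none)

def k0_pm_022_a : ∃ t, chk3 f_pm_022_a t 1 1 1 = true :=
  ⟨(a (a (a (a (b (l 35138314135) (b (b (l 19398744) (a (b (l 18957368) (b (l 18535440) (a (l 17965808) (l 18111008)))) (l 4))) (a (a (b (b (b (c (l 18076944) (b (l 17506016) (a (l 17222400) (l 17205504)))) (c (b (l 17530624) (a (l 17117752) (l 17243512))) (a (l 16659224) (l 16662048)))) (b (b (a (l 16656632) (l 16655096)) (a (l 16670632) (l 4))) (b (a (l 16684952) (l 4)) (l 6)))) (l 6)) (l 4)) (l 4)))) (b (l 19751136) (l 4))) (l 4)) (l 4)) (l 1)), by decide +kernel⟩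

theorem c_pm_022_a : CertN 0 536870912 0 536870912 50331648 16777216 3 false true false .pp 0 2 2
    ndN0q0 ndN2q2a pcN2 cut_pm_022_a Ext.none :=
  certNK2 (fam := false) (s1 := true) (s2 := false) (a := 0) (b := 2) (c := 2) (cn := .pp) (n1 := ndN0q0) (n2 := ndN2q2a) (pc := pcN2) (cut := cut_pm_022_a) (xt := Ext.none) (P1 := 0) (W1 := 536870912) (P2 := 0) (W2 := 536870912) (P3 := 50331648) (W3 := 16777216) (N0 := 3)
    rfl rfl rfl (fun _ => rfl) k0_pm_022_a

noncomputable def cut_pm_022_b : Cut := Cut.of [[⟨0, 0, 0, 50331648⟩, ⟨1, 1, 0, 50331648⟩, ⟨2, 1, 0, 50331648⟩]]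

noncomputable def f_pm_022_b : ℕ → ℕ → ℕ → ℕ → Bool := onCell 1073741824 536870912 1239849684 370763052 50331648 16777216
    (rowNK 3 2 false true false .pp 0 2 2 (qsf 0 536870912 1239849684 370763052 2) ndN0q0 ndN2q2b pcN2 cut_pm_022_b Ext.none)

def k0_pm_022_b : ∃ t, chk3 f_pm_022_b t 1 1 1 = true :=
  ⟨(a (b (a (b (a (l 20151192) (l 19972608)) (l 20013432)) (l 4)) (a (b (l 19627400) (l 19118752)) (b (l 19963864) (l 19608792)))) (l 4)), by decide +kernel⟩

theorem c_pm_022_b : CertN 0 536870912 1239849684 370763052 50331648 16777216 3 false true false .pp 0 2 2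
    ndN0q0 ndN2q2b pcN2 cut_pm_022_b Ext.none :=
  certNK2 (fam := false) (s1 := true) (s2 := false) (a := 0) (b := 2) (c := 2) (cn := .pp) (n1 := ndN0q0) (n2 := ndN2q2b) (pc := pcN2) (cut := cut_pm_022_b) (xt := Ext.none) (P1 := 0) (W1 := 536870912) (P2 := 1239849684) (W2 := 370763052) (P3 := 50331648) (W3 := 16777216) (N0 := 3)
    rfl rfl rfl (fun _ => rfl) k0_pm_022_b

noncomputable def f_pm_023 : ℕ → ℕ → ℕ → ℕ → Bool := onCell 0 536870912 1073741824 536870912 50331648 16777216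
    (rowNK 3 1 false true false .up 0 2 3 (qsf 0 536870912 1610612736 536870912 2) ndN0q0 ndN2q3 pcN2 Cut.none Ext.none)

def k0_pm_023 : ∃ t, chk3 f_pm_023 t 1 1 1 = true :=
  ⟨(b (a (b (l 1) (l 335584518391)) (b (a (l 20245928) (l 19481216)) (a (l 19544680) (l 18601008)))) (a (b (l 4) (l 4)) (b (a (l 19113072) (l 18120432)) (a (l 18861256) (l 17846232))))), by decide +kernel⟩

theorem c_pm_023 : CertN 0 536870912 1610612736 536870912 50331648 16777216 3 false true false .up 0 2 3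
    ndN0q0 ndN2q3 pcN2 Cut.none Ext.none :=
  certNK1 (fam := false) (s1 := true) (s2 := false) (a := 0) (b := 2) (c := 3) (cn := .up) (n1 := ndN0q0) (n2 := ndN2q3) (pc := pcN2) (cut := Cut.none) (xt := Ext.none) (P1 := 0) (W1 := 536870912) (P2 := 1610612736) (W2 := 536870912) (P3 := 50331648) (W3 := 16777216) (N0 := 3)
    rfl rfl rfl (fun _ => rfl) k0_pm_023

noncomputable def f_pm_033 : ℕ → ℕ → ℕ → ℕ → Bool := onCell 1610612736 536870912 1610612736 536870912 50331648 16777216
    (rowNK 3 2 false true false .pnn 0 3 3 (qsf 0 536870912 1610612736 536870912 3) ndN0q0 ndN2q3 pcN3 Cut.none Ext.none)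

def k0_pm_033 : ∃ t, chk3 f_pm_033 t 1 1 1 = true :=
  ⟨(a (b (l 4) (a (b (a (l 18832000) (l 4)) (a (b (l 17891384) (l 17304968)) (b (l 18417360) (l 17525432)))) (b (l 4) (a (l 18365328) (l 4))))) (l 4)), by decide +kernel⟩

theorem c_pm_033 : CertN 0 536870912 1610612736 536870912 50331648 16777216 3 false true false .pnn 0 3 3
    ndN0q0 ndN2q3 pcN3 Cut.none Ext.none :=
  certNK2 (fam := false) (s1 := true) (s2 := false) (a := 0) (b := 3) (c := 3) (cn := .pnn) (n1 := ndN0q0) (n2 := ndN2q3) (pc := pcN3) (cut := Cut.none) (xt := Ext.none) (P1 := 0) (W1 := 536870912) (P2 := 1610612736) (W2 := 536870912) (P3 := 50331648) (W3 := 16777216) (N0 := 3)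
    rfl rfl rfl (fun _ => rfl) k0_pm_033

noncomputable def f_pm_101 : ℕ → ℕ → ℕ → ℕ → Bool := onCell 536870912 536870912 536870912 536870912 50331648 16777216
    (rowNK 3 0 false true false .npn 1 0 1 (qsf 536870912 536870912 536870912 536870912 0) ndN0q1 ndN2q1 pcN0 Cut.none Ext.none)

def k0_pm_101 : ∃ t, chk3 f_pm_101 t 1 1 1 = true :=
  ⟨(l 4), by decide +kernel⟩

theorem c_pm_101 : CertN 536870912 536870912 536870912 536870912 50331648 16777216 3 false true false .npn 1 0 1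
    ndN0q1 ndN2q1 pcN0 Cut.none Ext.none :=
  certNK0 (fam := false) (s1 := true) (s2 := false) (a := 1) (b := 0) (c := 1) (cn := .npn) (n1 := ndN0q1) (n2 := ndN2q1) (pc := pcN0) (cut := Cut.none) (xt := Ext.none) (P1 := 536870912) (W1 := 536870912) (P2 := 536870912) (W2 := 536870912) (P3 := 50331648) (W3 := 16777216) (N0 := 3)
    rfl rfl rfl k0_pm_101

noncomputable def cut_pm_102_a : Cut := Cut.of [[⟨0, 1, 0, 50331648⟩, ⟨1, 0, 0, 50331648⟩, ⟨2, 1, 0, 50331648⟩], [⟨0, 1, 0, 8388608⟩, ⟨1, 0, 1, 25165824⟩, ⟨2, 1, 1, 25165824⟩, ⟨1, 0, 0, 83886080⟩, ⟨1, 1, 0, 1040187392⟩, ⟨2, 1, 0, 83886080⟩, ⟨2, 2, 0, 1040187392⟩]]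

noncomputable def f_pm_102_a : ℕ → ℕ → ℕ → ℕ → Bool := onCell 536870912 536870912 0 536870912 50331648 16777216
    (rowNK 3 0 false true false .npp 1 0 2 (qsf 536870912 536870912 0 536870912 0) ndN0q1 ndN2q2a pcN0 cut_pm_102_a Ext.none)

def k0_pm_102_a : ∃ t, chk3 f_pm_102_a t 1 1 1 = true :=
  ⟨(a (b (a (l 18624512) (l 18450024)) (b (a (l 18862816) (l 18823176)) (b (a (l 18902456) (l 18668208)) (b (a (l 18880312) (l 18632176)) (a (l 18850080) (l 18686632)))))) (b (a (a (l 18114960) (l 17970624)) (a (a (l 17546888) (l 17420520)) (a (b (l 17621000) (l 17508256)) (a (b (l 17829624) (l 17708608)) (b (l 17988064) (a (l 17822952) (b (l 17948848) (l 17843312)))))))) (a (b (a (l 18295160) (b (l 17931104) (l 18018032))) (b (a (l 18288544) (l 18032600)) (b (a (l 18242728) (l 18023376)) (a (l 18225136) (l 17879632))))) (b (a (b (l 17731032) (a (l 17716320) (l 17539840))) (a (b (l 17351064) (l 17501496)) (b (a (l 17524992) (a (l 17626440) (a (l 17670560) (l 17693736))))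 (a (b (l 17393760) (l 17294872)) (a (b (l 17477416) (l 17352144)) (a (b (l 17507072) (l 17360472)) (b (l 17495480) (b (a (l 17402392) (l 17375672)) (c (l 17391192) (b (l 17107064) (l 14))))))))))) (b (a (a (l 17694712) (b (l 17498248) (l 17451008))) (a (b (l 17295040) (a (l 17280544) (l 17140664))) (a (b (l 17175416) (a (l 17053824) (l 17021816))) (a (b (l 17174312) (b (l 16991336) (l 16912712))) (a (b (b (l 17201240) (l 17056152)) (b (l 16868232) (l 16846080))) (b (b (a (l 17169248) (b (c (l 17288648) (l 14)) (l 14))) (l 14)) (b (l 14) (b (l 14) (l 6))))))))) (b (a (b (l 17541840) (l 17520048)) (a (b (a (l 17264656) (l 17146512)) (l 17370936)) (b (a (a (l 17037928) (l 16973952)) (a (l 16973744) (l 6))) (a (a (l 17038264) (l 16971512)) (l 6))))) (a (a (l 17581624) (l 17369448)) (a (a (l 17291248) (l 17271088)) (b (a (b (l 17077120) (l 6)) (l 6)) (l 6)))))))))), by decide +kernel⟩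

theorem c_pm_102_a : CertN 536870912 536870912 0 536870912 50331648 16777216 3 false true false .npp 1 0 2
    ndN0q1 ndN2q2a pcN0 cut_pm_102_a Ext.none :=
  certNK0 (fam := false) (s1 := true) (s2 := false) (a := 1) (b := 0) (c := 2) (cn := .npp) (n1 := ndN0q1) (n2 := ndN2q2a) (pc := pcN0) (cut := cut_pm_102_a) (xt := Ext.none) (P1 := 536870912) (W1 := 536870912) (P2 := 0) (W2 := 536870912) (P3 := 50331648) (W3 := 16777216) (N0 := 3)
    rfl rfl rfl k0_pm_102_a

noncomputable def cut_pm_102_b : Cut := Cut.of [[⟨0, 1, 0, 50331648⟩, ⟨1, 0, 0, 50331648⟩, ⟨2, 1, 0, 50331648⟩], [⟨0, 1, 0, 8388608⟩, ⟨1, 0, 1, 25165824⟩, ⟨2, 1, 1, 25165824⟩, ⟨1, 0, 0, 83886080⟩, ⟨1, 1, 0, 1040187392⟩, ⟨2, 1, 0, 83886080⟩, ⟨2, 2, 0, 1040187392⟩]]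

noncomputable def f_pm_102_b : ℕ → ℕ → ℕ → ℕ → Bool := onCell 536870912 536870912 1239849684 370763052 50331648 16777216
    (rowNK 3 0 false true false .npp 1 0 2 (qsf 536870912 536870912 1239849684 370763052 0) ndN0q1 ndN2q2b pcN0 cut_pm_102_b Ext.none)

def k0_pm_102_b : ∃ t, chk3 f_pm_102_b t 1 1 1 = true :=
  ⟨(a (b (a (l 2) (b (l 18180208) (l 17781736))) (l 2)) (b (a (b (a (l 17872568) (l 17851288)) (a (l 17666320) (l 17722440))) (a (b (a (l 17557328) (l 17669024)) (l 17904600)) (b (a (b (l 17763304) (l 17972168)) (a (l 18089712) (b (l 18139736) (l 18354760)))) (a (l 18196760) (a (l 18409608) (l 18572824)))))) (a (b (l 18070736) (l 2)) (a (b (l 18070024) (l 18108528)) (b (a (l 18347392) (l 18620304)) (l 18698968)))))), by decide +kernel⟩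

theorem c_pm_102_b : CertN 536870912 536870912 1239849684 370763052 50331648 16777216 3 false true false .npp 1 0 2
    ndN0q1 ndN2q2b pcN0 cut_pm_102_b Ext.none :=
  certNK0 (fam := false) (s1 := true) (s2 := false) (a := 1) (b := 0) (c := 2) (cn := .npp) (n1 := ndN0q1) (n2 := ndN2q2b) (pc := pcN0) (cut := cut_pm_102_b) (xt := Ext.none) (P1 := 536870912) (W1 := 536870912) (P2 := 1239849684) (W2 := 370763052) (P3 := 50331648) (W3 := 16777216) (N0 := 3)
    rfl rfl rfl k0_pm_102_b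

noncomputable def f_pm_112_a : ℕ → ℕ → ℕ → ℕ → Bool := onCell 536870912 536870912 0 536870912 50331648 16777216
    (rowNK 3 2 false true false .dn 1 1 2 (qsf 536870912 536870912 0 536870912 1) ndN0q1 ndN2q2a pcN1 Cut.none Ext.none)

def k0_pm_112_a : ∃ t, chk3 f_pm_112_a t 1 1 1 = true :=
  ⟨(a (b (a (l 17357056) (a (l 17306992) (l 1))) (b (a (l 55870377047) (l 1)) (a (b (l 18065200) (b (l 18132240) (l 18296912))) (l 1)))) (l 1)), by decide +kernel⟩

theorem c_pm_112_a : CertN 536870912 536870912 0 536870912 50331648 16777216 3 false true false .dn 1 1 2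
    ndN0q1 ndN2q2a pcN1 Cut.none Ext.none :=
  certNK2 (fam := false) (s1 := true) (s2 := false) (a := 1) (b := 1) (c := 2) (cn := .dn) (n1 := ndN0q1) (n2 := ndN2q2a) (pc := pcN1) (cut := Cut.none) (xt := Ext.none) (P1 := 536870912) (W1 := 536870912) (P2 := 0) (W2 := 536870912) (P3 := 50331648) (W3 := 16777216) (N0 := 3)
    rfl rfl rfl (fun _ => rfl) k0_pm_112_a

noncomputable def f_pm_112_b : ℕ → ℕ → ℕ → ℕ → Bool := onCell 536870912 536870912 1239849684 370763052 50331648 16777216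
    (rowNK 3 2 false true false .dn 1 1 2 (qsf 536870912 536870912 1239849684 370763052 1) ndN0q1 ndN2q2b pcN1 Cut.none Ext.none)

def k0_pm_112_b : ∃ t, chk3 f_pm_112_b t 1 1 1 = true :=
  ⟨(a (b (a (b (a (l 16923344) (l 16831832)) (a (l 17602984) (l 17464096))) (b (a (l 16876392) (l 17146472)) (l 17257096))) (a (b (a (l 17950296) (l 17830464)) (a (l 18330424) (l 18058680))) (b (l 17685248) (l 17871048)))) (b (a (b (l 1) (l 17693488)) (l 1)) (a (b (l 17506144) (l 17657472)) (a (l 18315416) (a (l 18706032) (a (l 18884152) (l 19009608))))))), by decide +kernel⟩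

theorem c_pm_112_b : CertN 536870912 536870912 1239849684 370763052 50331648 16777216 3 false true false .dn 1 1 2
    ndN0q1 ndN2q2b pcN1 Cut.none Ext.none :=
  certNK2 (fam := false) (s1 := true) (s2 := false) (a := 1) (b := 1) (c := 2) (cn := .dn) (n1 := ndN0q1) (n2 := ndN2q2b) (pc := pcN1) (cut := Cut.none) (xt := Ext.none) (P1 := 536870912) (W1 := 536870912) (P2 := 1239849684) (W2 := 370763052) (P3 := 50331648) (W3 := 16777216) (N0 := 3)
    rfl rfl rfl (fun _ => rfl) k0_pm_112_b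

noncomputable def cut_pm_113 : Cut := Cut.of [[⟨0, 1, 0, 14341072⟩, ⟨1, 1, 0, 14341072⟩, ⟨2, 2, 0, 761489⟩]]

noncomputable def f_pm_113 : ℕ → ℕ → ℕ → ℕ → Bool := onCell 536870912 536870912 536870912 536870912 50331648 16777216
    (rowNK 3 1 false true false .nn 1 1 3 (qsf 536870912 536870912 1610612736 536870912 1) ndN0q1 ndN2q3 pcN1 cut_pm_113 Ext.none)

def k0_pm_113 : ∃ t, chk3 f_pm_113 t 1 1 1 = true :=
  ⟨(a (b (b (l 1) (a (l 1) (l 191162837287))) (b (a (l 18574344) (l 262029481047)) (b (a (l 18857272) (l 17713504)) (b (a (l 18880976) (l 17533440)) (b (a (l 18803544) (l 17435976)) (a (l 18748880) (l 17406776))))))) (b (a (a (b (l 1) (l 17817216)) (b (l 17855296) (l 17331384))) (b (a (l 134789849815) (b (l 17659752) (l 17936096))) (a (l 17613616) (a (l 17948024) (l 18175624))))) (a (b (a (l 17288632) (l 17647008)) (a (l 17688536) (l 17916544))) (b (a (l 17991952) (a (l 18208344) (l 18333904))) (a (l 18056568) (b (a (l 18098944) (b (l 18127568) (l 17933080)))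 (a (l 17709464) (b (a (l 17712600) (b (l 17677896) (l 17455024))) (a (l 17350800) (a (l 17445328) (b (b (l 17297824) (l 17137392)) (a (l 17159424) (b (b (l 17057360) (l 16947960)) (a (l 16983264) (b (b (l 16922584) (l 16865648)) (a (l 16881392) (b (b (l 16851272) (l 16822216)) (a (l 16829600) (b (b (l 16814592) (l 16799912)) (a (l 16803480) (b (b (l 16795992) (l 16788616)) (a (l 16790368) (l 6))))))))))))))))))))))), by decide +kernel⟩

theorem c_pm_113 : CertN 536870912 536870912 1610612736 536870912 50331648 16777216 3 false true false .nn 1 1 3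
    ndN0q1 ndN2q3 pcN1 cut_pm_113 Ext.none :=
  certNK1 (fam := false) (s1 := true) (s2 := false) (a := 1) (b := 1) (c := 3) (cn := .nn) (n1 := ndN0q1) (n2 := ndN2q3) (pc := pcN1) (cut := cut_pm_113) (xt := Ext.none) (P1 := 536870912) (W1 := 536870912) (P2 := 1610612736) (W2 := 536870912) (P3 := 50331648) (W3 := 16777216) (N0 := 3)
    rfl rfl rfl (fun _ => rfl) k0_pm_113

end Pool.Agent.Strip051.G.I3_64_1_16.Tab.C.NB02

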