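import Pool.Agent.Strip051.G.I3_64_1_16.Tab
import Pool.Agent.Strip051.PB.RowK

/-! # Certificates N4 (generated) -/

set_option linter.all false
set_option maxRecDepth 100000

namespace Pool.Agent.Strip051.G.I3_64_1_16.Tab.C.NB02

open Pool.Agent.Strip051.PB Pool.Agent.Strip051.PB.T
open Pool.Agent.Strip051.G.I3_64_1_16.Tab

noncomputable def cut_pm_123 : Cut := Cut.of [[⟨0, 1, 0, 14341072⟩, ⟨1, 1, 0, 14341072⟩, ⟨2, 2, 0, 761489⟩]]

noncomputable def f_pm_123 : ℕ → ℕ → ℕ → ℕ → Bool := onCell 1073741824 536870912 1610612736 536870912 50331648 16777216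
    (rowNK 3 2 false true false .npn 1 2 3 (qsf 536870912 536870912 1610612736 536870912 2) ndN0q1 ndN2q3 pcN2 cut_pm_123 Ext.none)

def k0_pm_123 : ∃ t, chk3 f_pm_123 t 1 1 1 = true :=
  ⟨(a (b (a (b (l 18889360) (b (l 17938416) (l 17523656))) (b (l 359205476007) (l 18089360))) (a (a (a (a (b (l 17836656) (b (l 17733240) (b (l 17393800) (b (l 17123640) (b (l 16957584) (b (l 16865944) (b (l 16817832) (a (b (l 16796984) (b (l 16784664) (l 6))) (l 16781512))))))))) (b (l 17869264) (b (l 17786528) (b (l 17442480) (a (l 17012888) (l 17020752)))))) (b (l 17906600) (b (l 17851600) (a (l 17482112) (l 17276384))))) (b (l 17939032) (b (l 17986328) (a (l 17341056) (l 17488448))))) (b (l 17943768) (b (l 18123168) (a (l 17686760) (l 17817752)))))) (b (a (b (l 1) (l 313570516311)) (l 1)) (a (b (b (l 17856304) (l 17690776)) (b (l 17810664) (l 17708272))) (b (l 359203962935) (b (l 17508616) (l 17194240)))))), by decide +kernel⟩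

theorem c_pm_123 : CertN 536870912 536870912 1610612736 536870912 50331648 16777216 3 false true false .npn 1 2 3
    ndN0q1 ndN2q3 pcN2 cut_pm_123 Ext.none :=
  certNK2 (fam := false) (s1 := true) (s2 := false) (a := 1) (b := 2) (c := 3) (cn := .npn) (n1 := ndN0q1) (n2 := ndN2q3) (pc := pcN2) (cut := cut_pm_123) (xt := Ext.none) (P1 := 536870912) (W1 := 536870912) (P2 := 1610612736) (W2 := 536870912) (P3 := 50331648) (W3 := 16777216) (N0 := 3)
    rfl rfl rfl (fun _ => rfl) k0_pm_123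

noncomputable def f_pm_133 : ℕ → ℕ → ℕ → ℕ → Bool := onCell 536870912 536870912 1610612736 536870912 50331648 16777216
    (rowNK 3 0 false true false .dn 1 3 3 (qsf 536870912 536870912 1610612736 536870912 3) ndN0q1 ndN2q3 pcN3 Cut.none Ext.none)

def k0_pm_133 : ∃ t, chk3 f_pm_133 t 1 1 1 = true :=
  ⟨(a (b (l 1) (a (b (l 1) (a (b (l 1) (l 18375984)) (l 1))) (l 1))) (l 1)), by decide +kernel⟩

theorem c_pm_133 : CertN 536870912 536870912 1610612736 536870912 50331648 16777216 3 false true false .dn 1 3 3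
    ndN0q1 ndN2q3 pcN3 Cut.none Ext.none :=
  certNK0 (fam := false) (s1 := true) (s2 := false) (a := 1) (b := 3) (c := 3) (cn := .dn) (n1 := ndN0q1) (n2 := ndN2q3) (pc := pcN3) (cut := Cut.none) (xt := Ext.none) (P1 := 536870912) (W1 := 536870912) (P2 := 1610612736) (W2 := 536870912) (P3 := 50331648) (W3 := 16777216) (N0 := 3)
    rfl rfl rfl k0_pm_133

noncomputable def cut_pm_202_a : Cut := Cut.of [[⟨0, 1, 0, 50331648⟩, ⟨1, 0, 0, 50331648⟩, ⟨2, 1, 0, 50331648⟩], [⟨0, 1, 0, 8388608⟩, ⟨1, 0, 1, 25165824⟩, ⟨2, 1, 1, 25165824⟩, ⟨1, 0, 0, 83886080⟩, ⟨1, 1, 0, 1040187392⟩, ⟨2, 1, 0, 83886080⟩, ⟨2, 2, 0, 1040187392⟩]]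

noncomputable def f_pm_202_a : ℕ → ℕ → ℕ → ℕ → Bool := onCell 0 536870912 0 536870912 50331648 16777216
    (rowNK 3 0 false true false .pp 2 0 2 (qsf 0 536870912 0 536870912 0) ndN0q2 ndN2q2a pcN0 cut_pm_202_a Ext.none)

def k0_pm_202_a : ∃ t, chk3 f_pm_202_a t 1 1 1 = true :=
  ⟨(a (l 3) (a (l 3) (a (l 3) (a (l 3) (a (l 3) (b (b (l 113986949703) (a (l 3) (l 115060329847))) (a (l 3) (a (l 3) (b (b (l 132239463959) (b (l 131165768679) (b (l 132776108423) (c (l 132776111847) (l 14))))) (b (b (b (b (c (l 133849642279) (l 14)) (l 14)) (l 14)) (b (l 14) (b (l 14) (l 6)))) (l 6))))))))))), by decide +kernel⟩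

theorem c_pm_202_a : CertN 0 536870912 0 536870912 50331648 16777216 3 false true false .pp 2 0 2
    ndN0q2 ndN2q2a pcN0 cut_pm_202_a Ext.none :=
  certNK0 (fam := false) (s1 := true) (s2 := false) (a := 2) (b := 0) (c := 2) (cn := .pp) (n1 := ndN0q2) (n2 := ndN2q2a) (pc := pcN0) (cut := cut_pm_202_a) (xt := Ext.none) (P1 := 0) (W1 := 536870912) (P2 := 0) (W2 := 536870912) (P3 := 50331648) (W3 := 16777216) (N0 := 3)
    rfl rfl rfl k0_pm_202_a

noncomputable def cut_pm_202_b : Cut := Cut.of [[⟨0, 1, 0, 50331648⟩, ⟨1, 0, 0, 50331648⟩, ⟨2, 1, 0, 50331648⟩], [⟨0, 1, 0, 8388608⟩, ⟨1, 0, 1, 25165824⟩, ⟨2, 1, 1, 25165824⟩, ⟨1, 0, 0, 83886080⟩, ⟨1, 1, 0, 1040187392⟩, ⟨2, 1, 0, 83886080⟩, ⟨2, 2, 0, 1040187392⟩]]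

noncomputable def f_pm_202_b : ℕ → ℕ → ℕ → ℕ → Bool := onCell 0 536870912 1239849684 370763052 50331648 16777216
    (rowNK 3 0 false true false .pp 2 0 2 (qsf 0 536870912 1239849684 370763052 0) ndN0q2 ndN2q2b pcN0 cut_pm_202_b Ext.none)

def k0_pm_202_b : ∃ t, chk3 f_pm_202_b t 1 1 1 = true :=
  ⟨(a (l 3) (a (l 3) (a (l 3) (a (l 3) (b (a (l 3) (b (l 113987532023) (l 18656608))) (l 139758670279)))))), by decide +kernel⟩

theorem c_pm_202_b : CertN 0 536870912 1239849684 370763052 50331648 16777216 3 false true false .pp 2 0 2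
    ndN0q2 ndN2q2b pcN0 cut_pm_202_b Ext.none :=
  certNK0 (fam := false) (s1 := true) (s2 := false) (a := 2) (b := 0) (c := 2) (cn := .pp) (n1 := ndN0q2) (n2 := ndN2q2b) (pc := pcN0) (cut := cut_pm_202_b) (xt := Ext.none) (P1 := 0) (W1 := 536870912) (P2 := 1239849684) (W2 := 370763052) (P3 := 50331648) (W3 := 16777216) (N0 := 3)
    rfl rfl rfl k0_pm_202_b

noncomputable def f_pm_203 : ℕ → ℕ → ℕ → ℕ → Bool := onCell 0 536870912 0 536870912 50331648 16777216
    (rowNK 3 1 false true false .up 2 0 3 (qsf 0 536870912 1610612736 536870912 0) ndN0q2 ndN2q3 pcN0 Cut.none Ext.none)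

def k0_pm_203 : ∃ t, chk3 f_pm_203 t 1 1 1 = true :=
  ⟨(b (l 1) (a (l 3) (a (l 3) (a (l 3) (b (l 1) (l 141904291447)))))), by decide +kernel⟩

theorem c_pm_203 : CertN 0 536870912 1610612736 536870912 50331648 16777216 3 false true false .up 2 0 3
    ndN0q2 ndN2q3 pcN0 Cut.none Ext.none :=
  certNK1 (fam := false) (s1 := true) (s2 := false) (a := 2) (b := 0) (c := 3) (cn := .up) (n1 := ndN0q2) (n2 := ndN2q3) (pc := pcN0) (cut := Cut.none) (xt := Ext.none) (P1 := 0) (W1 := 536870912) (P2 := 1610612736) (W2 := 536870912) (P3 := 50331648) (W3 := 16777216) (N0 := 3)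
    rfl rfl rfl (fun _ => rfl) k0_pm_203

noncomputable def cut_pm_213 : Cut := Cut.of [[⟨0, 1, 0, 14341072⟩, ⟨1, 1, 0, 14341072⟩, ⟨2, 2, 0, 761489⟩]]

noncomputable def f_pm_213 : ℕ → ℕ → ℕ → ℕ → Bool := onCell 0 536870912 1610612736 536870912 50331648 16777216
    (rowNK 3 0 false true false .pnn 2 1 3 (qsf 0 536870912 1610612736 536870912 1) ndN0q2 ndN2q3 pcN1 cut_pm_213 Ext.none)

def k0_pm_213 : ∃ t, chk3 f_pm_213 t 1 1 1 = true :=
  ⟨(a (l 3) (a (l 3) (a (b (l 3) (l 3)) (a (b (l 3) (l 3)) (b (b (l 17979920) (l 18355616)) (b (l 212771857207) (b (b (l 235319834839) (l 248204272103)) (b (b (l 258941223175) (l 266457032215)) (a (l 3) (b (b (l 267530440199) (l 271825164055)) (a (l 3) (a (l 3) (a (l 3) (a (l 3) (a (l 3) (a (l 3) (a (l 3) (b (b (l 17029168) (l 16960440)) (b (b (l 16907272) (l 16870968)) (b (b (l 16843320) (l 16824664)) (b (b (l 16810568) (l 16798488)) (b (b (l 16792360) (l 282561893303)) (l 6))))))))))))))))))))))), by decide +kernel⟩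

theorem c_pm_213 : CertN 0 536870912 1610612736 536870912 50331648 16777216 3 false true false .pnn 2 1 3
    ndN0q2 ndN2q3 pcN1 cut_pm_213 Ext.none :=
  certNK0 (fam := false) (s1 := true) (s2 := false) (a := 2) (b := 1) (c := 3) (cn := .pnn) (n1 := ndN0q2) (n2 := ndN2q3) (pc := pcN1) (cut := cut_pm_213) (xt := Ext.none) (P1 := 0) (W1 := 536870912) (P2 := 1610612736) (W2 := 536870912) (P3 := 50331648) (W3 := 16777216) (N0 := 3)
    rfl rfl rfl k0_pm_213

noncomputable def f_mm_001 : ℕ → ℕ → ℕ → ℕ → Bool := onCell 0 536870912 0 536870912 50331648 16777216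
    (rowNK 3 1 false false false .up 0 0 1 (qsf 0 536870912 536870912 536870912 0) ndN0q0 ndN2q1 pcN0 Cut.none Ext.none)

def k0_mm_001 : ∃ t, chk3 f_mm_001 t 1 1 1 = true :=
  ⟨(l 3), by decide +kernel⟩

theorem c_mm_001 : CertN 0 536870912 536870912 536870912 50331648 16777216 3 false false false .up 0 0 1
    ndN0q0 ndN2q1 pcN0 Cut.none Ext.none :=
  certNK1 (fam := false) (s1 := false) (s2 := false) (a := 0) (b := 0) (c := 1) (cn := .up) (n1 := ndN0q0) (n2 := ndN2q1) (pc := pcN0) (cut := Cut.none) (xt := Ext.none) (P1 := 0) (W1 := 536870912) (P2 := 536870912) (W2 := 536870912) (P3 := 50331648) (W3 := 16777216) (N0 := 3)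
    rfl rfl rfl (fun _ => rfl) k0_mm_001

noncomputable def f_mm_011 : ℕ → ℕ → ℕ → ℕ → Bool := onCell 0 536870912 536870912 536870912 50331648 16777216
    (rowNK 3 1 false false false .pnn 0 1 1 (qsf 0 536870912 536870912 536870912 1) ndN0q0 ndN2q1 pcN1 Cut.none Ext.none)

def k0_mm_011 : ∃ t, chk3 f_mm_011 t 1 1 1 = true :=
  ⟨(l 5), by decide +kernel⟩

theorem c_mm_011 : CertN 0 536870912 536870912 536870912 50331648 16777216 3 false false false .pnn 0 1 1
    ndN0q0 ndN2q1 pcN1 Cut.none Ext.none :=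
  certNK1 (fam := false) (s1 := false) (s2 := false) (a := 0) (b := 1) (c := 1) (cn := .pnn) (n1 := ndN0q0) (n2 := ndN2q1) (pc := pcN1) (cut := Cut.none) (xt := Ext.none) (P1 := 0) (W1 := 536870912) (P2 := 536870912) (W2 := 536870912) (P3 := 50331648) (W3 := 16777216) (N0 := 3)
    rfl rfl rfl (fun _ => rfl) k0_mm_011

noncomputable def f_mm_012_a : ℕ → ℕ → ℕ → ℕ → Bool := onCell 0 536870912 0 536870912 50331648 16777216
    (rowNK 3 0 false false false .pnp 0 1 2 (qsf 0 536870912 0 536870912 1) ndN0q0 ndN2q2a pcN1 Cut.none Ext.none)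

def k0_mm_012_a : ∃ t, chk3 f_mm_012_a t 1 1 1 = true :=
  ⟨(l 5), by decide +kernel⟩

theorem c_mm_012_a : CertN 0 536870912 0 536870912 50331648 16777216 3 false false false .pnp 0 1 2
    ndN0q0 ndN2q2a pcN1 Cut.none Ext.none :=
  certNK0 (fam := false) (s1 := false) (s2 := false) (a := 0) (b := 1) (c := 2) (cn := .pnp) (n1 := ndN0q0) (n2 := ndN2q2a) (pc := pcN1) (cut := Cut.none) (xt := Ext.none) (P1 := 0) (W1 := 536870912) (P2 := 0) (W2 := 536870912) (P3 := 50331648) (W3 := 16777216) (N0 := 3)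
    rfl rfl rfl k0_mm_012_a

noncomputable def f_mm_012_b : ℕ → ℕ → ℕ → ℕ → Bool := onCell 0 536870912 1239849684 370763052 50331648 16777216
    (rowNK 3 0 false false false .pnp 0 1 2 (qsf 0 536870912 1239849684 370763052 1) ndN0q0 ndN2q2b pcN1 Cut.none Ext.none)

def k0_mm_012_b : ∃ t, chk3 f_mm_012_b t 1 1 1 = true :=
  ⟨(l 5), by decide +kernel⟩

theorem c_mm_012_b : CertN 0 536870912 1239849684 370763052 50331648 16777216 3 false false false .pnp 0 1 2
    ndN0q0 ndN2q2b pcN1 Cut.none Ext.none :=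
  certNK0 (fam := false) (s1 := false) (s2 := false) (a := 0) (b := 1) (c := 2) (cn := .pnp) (n1 := ndN0q0) (n2 := ndN2q2b) (pc := pcN1) (cut := Cut.none) (xt := Ext.none) (P1 := 0) (W1 := 536870912) (P2 := 1239849684) (W2 := 370763052) (P3 := 50331648) (W3 := 16777216) (N0 := 3)
    rfl rfl rfl k0_mm_012_b

noncomputable def f_mm_022_a : ℕ → ℕ → ℕ → ℕ → Bool := onCell 0 536870912 0 536870912 50331648 16777216
    (rowNK 3 0 false false false .pp 0 2 2 (qsf 0 536870912 0 536870912 2) ndN0q0 ndN2q2a pcN2 Cut.none Ext.none)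

def k0_mm_022_a : ∃ t, chk3 f_mm_022_a t 1 1 1 = true :=
  ⟨(l 5), by decide +kernel⟩

theorem c_mm_022_a : CertN 0 536870912 0 536870912 50331648 16777216 3 false false false .pp 0 2 2
    ndN0q0 ndN2q2a pcN2 Cut.none Ext.none :=
  certNK0 (fam := false) (s1 := false) (s2 := false) (a := 0) (b := 2) (c := 2) (cn := .pp) (n1 := ndN0q0) (n2 := ndN2q2a) (pc := pcN2) (cut := Cut.none) (xt := Ext.none) (P1 := 0) (W1 := 536870912) (P2 := 0) (W2 := 536870912) (P3 := 50331648) (W3 := 16777216) (N0 := 3)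
    rfl rfl rfl k0_mm_022_a

noncomputable def f_mm_022_b : ℕ → ℕ → ℕ → ℕ → Bool := onCell 0 536870912 1239849684 370763052 50331648 16777216
    (rowNK 3 0 false false false .pp 0 2 2 (qsf 0 536870912 1239849684 370763052 2) ndN0q0 ndN2q2b pcN2 Cut.none Ext.none)

def k0_mm_022_b : ∃ t, chk3 f_mm_022_b t 1 1 1 = true :=
  ⟨(l 5), by decide +kernel⟩

theorem c_mm_022_b : CertN 0 536870912 1239849684 370763052 50331648 16777216 3 false false false .pp 0 2 2
    ndN0q0 ndN2q2b pcN2 Cut.none Ext.none :=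
  certNK0 (fam := false) (s1 := false) (s2 := false) (a := 0) (b := 2) (c := 2) (cn := .pp) (n1 := ndN0q0) (n2 := ndN2q2b) (pc := pcN2) (cut := Cut.none) (xt := Ext.none) (P1 := 0) (W1 := 536870912) (P2 := 1239849684) (W2 := 370763052) (P3 := 50331648) (W3 := 16777216) (N0 := 3)
    rfl rfl rfl k0_mm_022_b

noncomputable def f_mm_023 : ℕ → ℕ → ℕ → ℕ → Bool := onCell 0 536870912 1610612736 536870912 50331648 16777216
    (rowNK 3 0 false false false .up 0 2 3 (qsf 0 536870912 1610612736 536870912 2) ndN0q0 ndN2q3 pcN2 Cut.none Ext.none)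

def k0_mm_023 : ∃ t, chk3 f_mm_023 t 1 1 1 = true :=
  ⟨(l 5), by decide +kernel⟩

theorem c_mm_023 : CertN 0 536870912 1610612736 536870912 50331648 16777216 3 false false false .up 0 2 3
    ndN0q0 ndN2q3 pcN2 Cut.none Ext.none :=
  certNK0 (fam := false) (s1 := false) (s2 := false) (a := 0) (b := 2) (c := 3) (cn := .up) (n1 := ndN0q0) (n2 := ndN2q3) (pc := pcN2) (cut := Cut.none) (xt := Ext.none) (P1 := 0) (W1 := 536870912) (P2 := 1610612736) (W2 := 536870912) (P3 := 50331648) (W3 := 16777216) (N0 := 3)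
    rfl rfl rfl k0_mm_023

noncomputable def f_mm_033 : ℕ → ℕ → ℕ → ℕ → Bool := onCell 0 536870912 1610612736 536870912 50331648 16777216
    (rowNK 3 0 false false false .pnn 0 3 3 (qsf 0 536870912 1610612736 536870912 3) ndN0q0 ndN2q3 pcN3 Cut.none Ext.none)

def k0_mm_033 : ∃ t, chk3 f_mm_033 t 1 1 1 = true :=
  ⟨(l 5), by decide +kernel⟩

theorem c_mm_033 : CertN 0 536870912 1610612736 536870912 50331648 16777216 3 false false false .pnn 0 3 3
    ndN0q0 ndN2q3 pcN3 Cut.none Ext.none :=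
  certNK0 (fam := false) (s1 := false) (s2 := false) (a := 0) (b := 3) (c := 3) (cn := .pnn) (n1 := ndN0q0) (n2 := ndN2q3) (pc := pcN3) (cut := Cut.none) (xt := Ext.none) (P1 := 0) (W1 := 536870912) (P2 := 1610612736) (W2 := 536870912) (P3 := 50331648) (W3 := 16777216) (N0 := 3)
    rfl rfl rfl k0_mm_033

noncomputable def cut_mm_101 : Cut := Cut.of [[⟨0, 1, 0, 50331648⟩, ⟨1, 0, 0, 50331648⟩, ⟨2, 1, 0, 50331648⟩]]

noncomputable def f_mm_101 : ℕ → ℕ → ℕ → ℕ → Bool := onCell 536870912 536870912 0 536870912 50331648 16777216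
    (rowNK 3 1 false false false .npn 1 0 1 (qsf 536870912 536870912 536870912 536870912 0) ndN0q1 ndN2q1 pcN0 cut_mm_101 Ext.none)

def k0_mm_101 : ∃ t, chk3 f_mm_101 t 1 1 1 = true :=
  ⟨(a (l 3) (a (l 3) (a (l 3) (b (a (l 3) (b (b (b (l 6) (a (l 3) (l 2))) (l 2)) (l 2))) (l 2))))), by decide +kernel⟩

theorem c_mm_101 : CertN 536870912 536870912 536870912 536870912 50331648 16777216 3 false false false .npn 1 0 1
    ndN0q1 ndN2q1 pcN0 cut_mm_101 Ext.none :=
  certNK1 (fam := false) (s1 := false) (s2 := false) (a := 1) (b := 0) (c := 1) (cn := .npn) (n1 := ndN0q1) (n2 := ndN2q1) (pc := pcN0) (cut := cut_mm_101) (xt := Ext.none) (P1 := 536870912) (W1 := 536870912) (P2 := 536870912) (W2 := 536870912) (P3 := 50331648) (W3 := 16777216) (N0 := 3)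
    rfl rfl rfl (fun _ => rfl) k0_mm_101

noncomputable def f_mm_102_a : ℕ → ℕ → ℕ → ℕ → Bool := onCell 536870912 536870912 0 536870912 50331648 16777216
    (rowNK 3 0 false false false .npp 1 0 2 (qsf 536870912 536870912 0 536870912 0) ndN0q1 ndN2q2a pcN0 Cut.none Ext.none)

def k0_mm_102_a : ∃ t, chk3 f_mm_102_a t 1 1 1 = true :=
  ⟨(l 3), by decide +kernel⟩

theorem c_mm_102_a : CertN 536870912 536870912 0 536870912 50331648 16777216 3 false false false .npp 1 0 2
    ndN0q1 ndN2q2a pcN0 Cut.none Ext.none :=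
  certNK0 (fam := false) (s1 := false) (s2 := false) (a := 1) (b := 0) (c := 2) (cn := .npp) (n1 := ndN0q1) (n2 := ndN2q2a) (pc := pcN0) (cut := Cut.none) (xt := Ext.none) (P1 := 536870912) (W1 := 536870912) (P2 := 0) (W2 := 536870912) (P3 := 50331648) (W3 := 16777216) (N0 := 3)
    rfl rfl rfl k0_mm_102_a

noncomputable def f_mm_102_b : ℕ → ℕ → ℕ → ℕ → Bool := onCell 536870912 536870912 0 536870912 50331648 16777216
    (rowNK 3 1 false false false .npp 1 0 2 (qsf 536870912 536870912 1239849684 370763052 0) ndN0q1 ndN2q2b pcN0 Cut.none Ext.none)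

def k0_mm_102_b : ∃ t, chk3 f_mm_102_b t 1 1 1 = true :=
  ⟨(l 3), by decide +kernel⟩

theorem c_mm_102_b : CertN 536870912 536870912 1239849684 370763052 50331648 16777216 3 false false false .npp 1 0 2
    ndN0q1 ndN2q2b pcN0 Cut.none Ext.none :=
  certNK1 (fam := false) (s1 := false) (s2 := false) (a := 1) (b := 0) (c := 2) (cn := .npp) (n1 := ndN0q1) (n2 := ndN2q2b) (pc := pcN0) (cut := Cut.none) (xt := Ext.none) (P1 := 536870912) (W1 := 536870912) (P2 := 1239849684) (W2 := 370763052) (P3 := 50331648) (W3 := 16777216) (N0 := 3)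
    rfl rfl rfl (fun _ => rfl) k0_mm_102_b

noncomputable def f_mm_112_a : ℕ → ℕ → ℕ → ℕ → Bool := onCell 536870912 536870912 0 536870912 50331648 16777216
    (rowNK 3 0 false false false .dn 1 1 2 (qsf 536870912 536870912 0 536870912 1) ndN0q1 ndN2q2a pcN1 Cut.none Ext.none)

def k0_mm_112_a : ∃ t, chk3 f_mm_112_a t 1 1 1 = true :=
  ⟨(l 3), by decide +kernel⟩

theorem c_mm_112_a : CertN 536870912 536870912 0 536870912 50331648 16777216 3 false false false .dn 1 1 2
    ndN0q1 ndN2q2a pcN1 Cut.none Ext.none :=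
  certNK0 (fam := false) (s1 := false) (s2 := false) (a := 1) (b := 1) (c := 2) (cn := .dn) (n1 := ndN0q1) (n2 := ndN2q2a) (pc := pcN1) (cut := Cut.none) (xt := Ext.none) (P1 := 536870912) (W1 := 536870912) (P2 := 0) (W2 := 536870912) (P3 := 50331648) (W3 := 16777216) (N0 := 3)
    rfl rfl rfl k0_mm_112_a

noncomputable def f_mm_112_b : ℕ → ℕ → ℕ → ℕ → Bool := onCell 536870912 536870912 536870912 536870912 50331648 16777216
    (rowNK 3 1 false false false .dn 1 1 2 (qsf 536870912 536870912 1239849684 370763052 1) ndN0q1 ndN2q2b pcN1 Cut.none Ext.none)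

def k0_mm_112_b : ∃ t, chk3 f_mm_112_b t 1 1 1 = true :=
  ⟨(l 5), by decide +kernel⟩

theorem c_mm_112_b : CertN 536870912 536870912 1239849684 370763052 50331648 16777216 3 false false false .dn 1 1 2
    ndN0q1 ndN2q2b pcN1 Cut.none Ext.none :=
  certNK1 (fam := false) (s1 := false) (s2 := false) (a := 1) (b := 1) (c := 2) (cn := .dn) (n1 := ndN0q1) (n2 := ndN2q2b) (pc := pcN1) (cut := Cut.none) (xt := Ext.none) (P1 := 536870912) (W1 := 536870912) (P2 := 1239849684) (W2 := 370763052) (P3 := 50331648) (W3 := 16777216) (N0 := 3)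
    rfl rfl rfl (fun _ => rfl) k0_mm_112_b

noncomputable def f_mm_113 : ℕ → ℕ → ℕ → ℕ → Bool := onCell 536870912 536870912 1610612736 536870912 50331648 16777216
    (rowNK 3 0 false false false .nn 1 1 3 (qsf 536870912 536870912 1610612736 536870912 1) ndN0q1 ndN2q3 pcN1 Cut.none Ext.none)

def k0_mm_113 : ∃ t, chk3 f_mm_113 t 1 1 1 = true :=
  ⟨(l 5), by decide +kernel⟩

theorem c_mm_113 : CertN 536870912 536870912 1610612736 536870912 50331648 16777216 3 false false false .nn 1 1 3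
    ndN0q1 ndN2q3 pcN1 Cut.none Ext.none :=
  certNK0 (fam := false) (s1 := false) (s2 := false) (a := 1) (b := 1) (c := 3) (cn := .nn) (n1 := ndN0q1) (n2 := ndN2q3) (pc := pcN1) (cut := Cut.none) (xt := Ext.none) (P1 := 536870912) (W1 := 536870912) (P2 := 1610612736) (W2 := 536870912) (P3 := 50331648) (W3 := 16777216) (N0 := 3)
    rfl rfl rfl k0_mm_113

noncomputable def f_mm_123 : ℕ → ℕ → ℕ → ℕ → Bool := onCell 536870912 536870912 1610612736 536870912 50331648 16777216
    (rowNK 3 0 false false false .npn 1 2 3 (qsf 536870912 536870912 1610612736 536870912 2) ndN0q1 ndN2q3 pcN2 Cut.none Ext.none)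

def k0_mm_123 : ∃ t, chk3 f_mm_123 t 1 1 1 = true :=
  ⟨(l 5), by decide +kernel⟩

theorem c_mm_123 : CertN 536870912 536870912 1610612736 536870912 50331648 16777216 3 false false false .npn 1 2 3
    ndN0q1 ndN2q3 pcN2 Cut.none Ext.none :=
  certNK0 (fam := false) (s1 := false) (s2 := false) (a := 1) (b := 2) (c := 3) (cn := .npn) (n1 := ndN0q1) (n2 := ndN2q3) (pc := pcN2) (cut := Cut.none) (xt := Ext.none) (P1 := 536870912) (W1 := 536870912) (P2 := 1610612736) (W2 := 536870912) (P3 := 50331648) (W3 := 16777216) (N0 := 3)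
    rfl rfl rfl k0_mm_123

noncomputable def f_mm_133 : ℕ → ℕ → ℕ → ℕ → Bool := onCell 536870912 536870912 1610612736 536870912 50331648 16777216
    (rowNK 3 0 false false false .dn 1 3 3 (qsf 536870912 536870912 1610612736 536870912 3) ndN0q1 ndN2q3 pcN3 Cut.none Ext.none)

def k0_mm_133 : ∃ t, chk3 f_mm_133 t 1 1 1 = true :=
  ⟨(l 5), by decide +kernel⟩

theorem c_mm_133 : CertN 536870912 536870912 1610612736 536870912 50331648 16777216 3 false false false .dn 1 3 3
    ndN0q1 ndN2q3 pcN3 Cut.none Ext.none :=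
  certNK0 (fam := false) (s1 := false) (s2 := false) (a := 1) (b := 3) (c := 3) (cn := .dn) (n1 := ndN0q1) (n2 := ndN2q3) (pc := pcN3) (cut := Cut.none) (xt := Ext.none) (P1 := 536870912) (W1 := 536870912) (P2 := 1610612736) (W2 := 536870912) (P3 := 50331648) (W3 := 16777216) (N0 := 3)
    rfl rfl rfl k0_mm_133

noncomputable def f_mm_202_a : ℕ → ℕ → ℕ → ℕ → Bool := onCell 0 536870912 0 536870912 50331648 16777216
    (rowNK 3 0 false false false .pp 2 0 2 (qsf 0 536870912 0 536870912 0) ndN0q2 ndN2q2a pcN0 Cut.none Ext.none)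

def k0_mm_202_a : ∃ t, chk3 f_mm_202_a t 1 1 1 = true :=
  ⟨(l 3), by decide +kernel⟩

theorem c_mm_202_a : CertN 0 536870912 0 536870912 50331648 16777216 3 false false false .pp 2 0 2
    ndN0q2 ndN2q2a pcN0 Cut.none Ext.none :=
  certNK0 (fam := false) (s1 := false) (s2 := false) (a := 2) (b := 0) (c := 2) (cn := .pp) (n1 := ndN0q2) (n2 := ndN2q2a) (pc := pcN0) (cut := Cut.none) (xt := Ext.none) (P1 := 0) (W1 := 536870912) (P2 := 0) (W2 := 536870912) (P3 := 50331648) (W3 := 16777216) (N0 := 3)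
    rfl rfl rfl k0_mm_202_a

noncomputable def f_mm_202_b : ℕ → ℕ → ℕ → ℕ → Bool := onCell 0 536870912 1239849684 370763052 50331648 16777216
    (rowNK 3 0 false false false .pp 2 0 2 (qsf 0 536870912 1239849684 370763052 0) ndN0q2 ndN2q2b pcN0 Cut.none Ext.none)

def k0_mm_202_b : ∃ t, chk3 f_mm_202_b t 1 1 1 = true :=
  ⟨(l 3), by decide +kernel⟩

theorem c_mm_202_b : CertN 0 536870912 1239849684 370763052 50331648 16777216 3 false false false .pp 2 0 2
    ndN0q2 ndN2q2b pcN0 Cut.none Ext.none :=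
  certNK0 (fam := false) (s1 := false) (s2 := false) (a := 2) (b := 0) (c := 2) (cn := .pp) (n1 := ndN0q2) (n2 := ndN2q2b) (pc := pcN0) (cut := Cut.none) (xt := Ext.none) (P1 := 0) (W1 := 536870912) (P2 := 1239849684) (W2 := 370763052) (P3 := 50331648) (W3 := 16777216) (N0 := 3)
    rfl rfl rfl k0_mm_202_b

noncomputable def f_mm_203 : ℕ → ℕ → ℕ → ℕ → Bool := onCell 0 536870912 0 536870912 50331648 16777216
    (rowNK 3 1 false false false .up 2 0 3 (qsf 0 536870912 1610612736 536870912 0) ndN0q2 ndN2q3 pcN0 Cut.none Ext.none)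

def k0_mm_203 : ∃ t, chk3 f_mm_203 t 1 1 1 = true :=
  ⟨(l 3), by decide +kernel⟩

theorem c_mm_203 : CertN 0 536870912 1610612736 536870912 50331648 16777216 3 false false false .up 2 0 3
    ndN0q2 ndN2q3 pcN0 Cut.none Ext.none :=
  certNK1 (fam := false) (s1 := false) (s2 := false) (a := 2) (b := 0) (c := 3) (cn := .up) (n1 := ndN0q2) (n2 := ndN2q3) (pc := pcN0) (cut := Cut.none) (xt := Ext.none) (P1 := 0) (W1 := 536870912) (P2 := 1610612736) (W2 := 536870912) (P3 := 50331648) (W3 := 16777216) (N0 := 3)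
    rfl rfl rfl (fun _ => rfl) k0_mm_203

noncomputable def f_mm_213 : ℕ → ℕ → ℕ → ℕ → Bool := onCell 0 536870912 1610612736 536870912 50331648 16777216
    (rowNK 3 0 false false false .pnn 2 1 3 (qsf 0 536870912 1610612736 536870912 1) ndN0q2 ndN2q3 pcN1 Cut.none Ext.none)

def k0_mm_213 : ∃ t, chk3 f_mm_213 t 1 1 1 = true :=
  ⟨(b (l 3) (a (l 3) (l 5))), by decide +kernel⟩

theorem c_mm_213 : CertN 0 536870912 1610612736 536870912 50331648 16777216 3 false false false .pnn 2 1 3
    ndN0q2 ndN2q3 pcN1 Cut.none Ext.none :=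
  certNK0 (fam := false) (s1 := false) (s2 := false) (a := 2) (b := 1) (c := 3) (cn := .pnn) (n1 := ndN0q2) (n2 := ndN2q3) (pc := pcN1) (cut := Cut.none) (xt := Ext.none) (P1 := 0) (W1 := 536870912) (P2 := 1610612736) (W2 := 536870912) (P3 := 50331648) (W3 := 16777216) (N0 := 3)
    rfl rfl rfl k0_mm_213

end Pool.Agent.Strip051.G.I3_64_1_16.Tab.C.NB02

namespace Pool.Agent.Strip051.G.I3_64_1_16.Tab.C.NB03

open Pool.Agent.Strip051.PB Pool.Agent.Strip051.PB.T
open Pool.Agent.Strip051.G.I3_64_1_16.Tab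

noncomputable def f_pp_001 : ℕ → ℕ → ℕ → ℕ → Bool := onCell 0 536870912 0 536870912 50331648 16777216
    (rowNK 3 1 false true true .up 0 0 1 (qsf 0 536870912 536870912 536870912 0) ndN0q0 ndN3q1 pcN0 Cut.none Ext.none)

def k0_pp_001 : ∃ t, chk3 f_pp_001 t 1 1 1 = true :=
  ⟨(l 3), by decide +kernel⟩

theorem c_pp_001 : CertN 0 536870912 536870912 536870912 50331648 16777216 3 false true true .up 0 0 1
    ndN0q0 ndN3q1 pcN0 Cut.none Ext.none :=
  certNK1 (fam := false) (s1 := true) (s2 := true) (a := 0) (b := 0) (c := 1) (cn := .up) (n1 := ndN0q0) (n2 := ndN3q1) (pc := pcN0) (cut := Cut.none) (xt := Ext.none) (P1 := 0) (W1 := 536870912) (P2 := 536870912) (W2 := 536870912) (P3 := 50331648) (W3 := 16777216) (N0 := 3)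
    rfl rfl rfl (fun _ => rfl) k0_pp_001

noncomputable def cut_pp_011 : Cut := Cut.of [[⟨0, 0, 0, 50331648⟩, ⟨1, 1, 0, 50331648⟩, ⟨2, 1, 0, 50331648⟩]]

noncomputable def f_pp_011 : ℕ → ℕ → ℕ → ℕ → Bool := onCell 0 536870912 536870912 536870912 50331648 16777216
    (rowNK 3 1 false true true .pnn 0 1 1 (qsf 0 536870912 536870912 536870912 1) ndN0q0 ndN3q1 pcN1 cut_pp_011 Ext.none)

def k0_pp_011 : ∃ t, chk3 f_pp_011 t 1 1 1 = true :=
  ⟨(b (l 3) (a (b (l 3) (a (b (l 3) (a (b (l 3) (a (l 6) (l 3))) (l 3))) (l 3))) (l 3))), by decide +kernel⟩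

theorem c_pp_011 : CertN 0 536870912 536870912 536870912 50331648 16777216 3 false true true .pnn 0 1 1
    ndN0q0 ndN3q1 pcN1 cut_pp_011 Ext.none :=
  certNK1 (fam := false) (s1 := true) (s2 := true) (a := 0) (b := 1) (c := 1) (cn := .pnn) (n1 := ndN0q0) (n2 := ndN3q1) (pc := pcN1) (cut := cut_pp_011) (xt := Ext.none) (P1 := 0) (W1 := 536870912) (P2 := 536870912) (W2 := 536870912) (P3 := 50331648) (W3 := 16777216) (N0 := 3)
    rfl rfl rfl (fun _ => rfl) k0_pp_011

noncomputable def f_pp_012 : ℕ → ℕ → ℕ → ℕ → Bool := onCell 0 536870912 536870912 536870912 50331648 16777216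
    (rowNK 3 1 false true true .pnp 0 1 2 (qsf 0 536870912 1073741824 536870912 1) ndN0q0 ndN3q2 pcN1 Cut.none Ext.none)

def k0_pp_012 : ∃ t, chk3 f_pp_012 t 1 1 1 = true :=
  ⟨(l 3), by decide +kernel⟩

theorem c_pp_012 : CertN 0 536870912 1073741824 536870912 50331648 16777216 3 false true true .pnp 0 1 2
    ndN0q0 ndN3q2 pcN1 Cut.none Ext.none :=
  certNK1 (fam := false) (s1 := true) (s2 := true) (a := 0) (b := 1) (c := 2) (cn := .pnp) (n1 := ndN0q0) (n2 := ndN3q2) (pc := pcN1) (cut := Cut.none) (xt := Ext.none) (P1 := 0) (W1 := 536870912) (P2 := 1073741824) (W2 := 536870912) (P3 := 50331648) (W3 := 16777216) (N0 := 3)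
    rfl rfl rfl (fun _ => rfl) k0_pp_012

noncomputable def f_pp_022 : ℕ → ℕ → ℕ → ℕ → Bool := onCell 1073741824 536870912 1073741824 536870912 50331648 16777216
    (rowNK 3 2 false true true .pp 0 2 2 (qsf 0 536870912 1073741824 536870912 2) ndN0q0 ndN3q2 pcN2 Cut.none Ext.none)

def k0_pp_022 : ∃ t, chk3 f_pp_022 t 1 1 1 = true :=
  ⟨(a (a (b (l 3) (a (l 3) (b (l 3) (l 182170810599)))) (b (b (a (a (a (l 3) (l 1)) (l 1)) (l 1)) (a (a (a (l 450069754151) (a (l 18875456) (b (l 80031820311) (l 18604112)))) (b (l 18849680) (l 18644048))) (b (l 19033416) (l 18742464)))) (a (b (a (a (l 18536536) (a (l 18538648) (l 18539968))) (l 18542632)) (a (a (l 18453192) (a (l 18452984) (l 18453544))) (l 18456016))) (b (l 18536776) (l 18447472))))) (b (b (l 1) (b (l 1) (l 19399032))) (b (a (a (l 18537448) (l 18577608)) (l 83253499895)) (a (l 18357296) (l 18233056))))), by decide +kernel⟩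

theorem c_pp_022 : CertN 0 536870912 1073741824 536870912 50331648 16777216 3 false true true .pp 0 2 2
    ndN0q0 ndN3q2 pcN2 Cut.none Ext.none :=
  certNK2 (fam := false) (s1 := true) (s2 := true) (a := 0) (b := 2) (c := 2) (cn := .pp) (n1 := ndN0q0) (n2 := ndN3q2) (pc := pcN2) (cut := Cut.none) (xt := Ext.none) (P1 := 0) (W1 := 536870912) (P2 := 1073741824) (W2 := 536870912) (P3 := 50331648) (W3 := 16777216) (N0 := 3)
    rfl rfl rfl (fun _ => rfl) k0_pp_022

noncomputable def f_pp_023 : ℕ → ℕ → ℕ → ℕ → Bool := onCell 1073741824 536870912 0 1230186008 50331648 16777216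
    (rowNK 3 2 false true true .up 0 2 3 (qsf 0 536870912 0 1230186008 2) ndN0q0 ndN3q3 pcN2 Cut.none Ext.none)

def k0_pp_023 : ∃ t, chk3 f_pp_023 t 1 1 1 = true :=
  ⟨(a (b (l 2) (b (b (l 2) (a (l 2) (a (l 2) (l 18308096)))) (b (a (l 2) (a (a (a (l 18982416) (a (l 18951552) (b (l 2) (l 19103640)))) (l 18916184)) (l 18994104))) (a (a (l 3) (a (l 3) (b (l 19613480) (l 20234744)))) (a (a (a (l 19955112) (a (l 19751944) (b (l 19531216) (l 19942080)))) (l 19736320)) (l 19734528)))))) (b (a (l 2) (b (l 17239568) (l 17694880))) (b (a (b (l 18128720) (l 18684488)) (b (l 18305536) (l 18770944))) (b (a (l 19261760) (l 19560048)) (a (l 20041640) (l 20003976)))))), by decide +kernel⟩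

theorem c_pp_023 : CertN 0 536870912 0 1230186008 50331648 16777216 3 false true true .up 0 2 3
    ndN0q0 ndN3q3 pcN2 Cut.none Ext.none :=
  certNK2 (fam := false) (s1 := true) (s2 := true) (a := 0) (b := 2) (c := 3) (cn := .up) (n1 := ndN0q0) (n2 := ndN3q3) (pc := pcN2) (cut := Cut.none) (xt := Ext.none) (P1 := 0) (W1 := 536870912) (P2 := 0) (W2 := 1230186008) (P3 := 50331648) (W3 := 16777216) (N0 := 3)
    rfl rfl rfl (fun _ => rfl) k0_pp_023

noncomputable def f_pp_033 : ℕ → ℕ → ℕ → ℕ → Bool := onCell 1610612736 536870912 0 1230186008 50331648 16777216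
    (rowNK 3 2 false true true .pnn 0 3 3 (qsf 0 536870912 0 1230186008 3) ndN0q0 ndN3q3 pcN3 Cut.none Ext.none)

def k0_pp_033 : ∃ t, chk3 f_pp_033 t 1 1 1 = true :=
  ⟨(a (b (a (b (a (l 17981424) (l 17169088)) (a (b (l 18999352) (l 19526776)) (b (l 18132992) (l 18996624)))) (b (a (l 17238112) (l 17713112)) (a (l 17688104) (l 17119336)))) (b (a (b (a (l 19499504) (l 19581312)) (l 19535544)) (b (a (l 19113416) (l 18252144)) (a (l 19754328) (l 19347040)))) (a (b (a (l 19297392) (l 19754224)) (a (l 19674424) (l 19900960))) (b (a (l 20043208) (l 20066176)) (l 141775056327))))) (b (a (a (b (l 17900664) (l 17624080)) (b (l 4) (l 17573200))) (l 4)) (b (a (a (b (l 17451624) (l 18588464)) (b (l 17306080) (l 17832016))) (a (b (l 17217008) (l 1)) (l 1))) (l 1)))), by decide +kernel⟩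

theorem c_pp_033 : CertN 0 536870912 0 1230186008 50331648 16777216 3 false true true .pnn 0 3 3
    ndN0q0 ndN3q3 pcN3 Cut.none Ext.none :=
  certNK2 (fam := false) (s1 := true) (s2 := true) (a := 0) (b := 3) (c := 3) (cn := .pnn) (n1 := ndN0q0) (n2 := ndN3q3) (pc := pcN3) (cut := Cut.none) (xt := Ext.none) (P1 := 0) (W1 := 536870912) (P2 := 0) (W2 := 1230186008) (P3 := 50331648) (W3 := 16777216) (N0 := 3)
    rfl rfl rfl (fun _ => rfl) k0_pp_033

noncomputable def f_pp_101 : ℕ → ℕ → ℕ → ℕ → Bool := onCell 536870912 536870912 536870912 536870912 50331648 16777216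
    (rowNK 3 0 false true true .npn 1 0 1 (qsf 536870912 536870912 536870912 536870912 0) ndN0q1 ndN3q1 pcN0 Cut.none Ext.none)

def k0_pp_101 : ∃ t, chk3 f_pp_101 t 1 1 1 = true :=
  ⟨(a (l 3) (l 5)), by decide +kernel⟩

theorem c_pp_101 : CertN 536870912 536870912 536870912 536870912 50331648 16777216 3 false true true .npn 1 0 1
    ndN0q1 ndN3q1 pcN0 Cut.none Ext.none :=
  certNK0 (fam := false) (s1 := true) (s2 := true) (a := 1) (b := 0) (c := 1) (cn := .npn) (n1 := ndN0q1) (n2 := ndN3q1) (pc := pcN0) (cut := Cut.none) (xt := Ext.none) (P1 := 536870912) (W1 := 536870912) (P2 := 536870912) (W2 := 536870912) (P3 := 50331648) (W3 := 16777216) (N0 := 3)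
    rfl rfl rfl k0_pp_101

noncomputable def f_pp_102 : ℕ → ℕ → ℕ → ℕ → Bool := onCell 536870912 536870912 1073741824 536870912 50331648 16777216
    (rowNK 3 0 false true true .npp 1 0 2 (qsf 536870912 536870912 1073741824 536870912 0) ndN0q1 ndN3q2 pcN0 Cut.none Ext.none)

def k0_pp_102 : ∃ t, chk3 f_pp_102 t 1 1 1 = true :=
  ⟨(l 3), by decide +kernel⟩

theorem c_pp_102 : CertN 536870912 536870912 1073741824 536870912 50331648 16777216 3 false true true .npp 1 0 2
    ndN0q1 ndN3q2 pcN0 Cut.none Ext.none :=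
  certNK0 (fam := false) (s1 := true) (s2 := true) (a := 1) (b := 0) (c := 2) (cn := .npp) (n1 := ndN0q1) (n2 := ndN3q2) (pc := pcN0) (cut := Cut.none) (xt := Ext.none) (P1 := 536870912) (W1 := 536870912) (P2 := 1073741824) (W2 := 536870912) (P3 := 50331648) (W3 := 16777216) (N0 := 3)
    rfl rfl rfl k0_pp_102

noncomputable def f_pp_112 : ℕ → ℕ → ℕ → ℕ → Bool := onCell 536870912 536870912 1073741824 536870912 50331648 16777216
    (rowNK 3 0 false true true .dn 1 1 2 (qsf 536870912 536870912 1073741824 536870912 1) ndN0q1 ndN3q2 pcN1 Cut.none Ext.none)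

def k0_pp_112 : ∃ t, chk3 f_pp_112 t 1 1 1 = true :=
  ⟨(l 3), by decide +kernel⟩

theorem c_pp_112 : CertN 536870912 536870912 1073741824 536870912 50331648 16777216 3 false true true .dn 1 1 2
    ndN0q1 ndN3q2 pcN1 Cut.none Ext.none :=
  certNK0 (fam := false) (s1 := true) (s2 := true) (a := 1) (b := 1) (c := 2) (cn := .dn) (n1 := ndN0q1) (n2 := ndN3q2) (pc := pcN1) (cut := Cut.none) (xt := Ext.none) (P1 := 536870912) (W1 := 536870912) (P2 := 1073741824) (W2 := 536870912) (P3 := 50331648) (W3 := 16777216) (N0 := 3)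
    rfl rfl rfl k0_pp_112

noncomputable def cut_pp_113 : Cut := Cut.of [[⟨0, 1, 0, 14341072⟩, ⟨1, 1, 0, 14341072⟩, ⟨2, 2, 0, 761489⟩]]

noncomputable def f_pp_113 : ℕ → ℕ → ℕ → ℕ → Bool := onCell 536870912 536870912 0 1230186008 50331648 16777216
    (rowNK 3 2 false true true .nn 1 1 3 (qsf 536870912 536870912 0 1230186008 1) ndN0q1 ndN3q3 pcN1 cut_pp_113 Ext.none)

def k0_pp_113 : ∃ t, chk3 f_pp_113 t 1 1 1 = true :=
  ⟨(b (a (l 2) (a (l 2) (b (a (l 2) (a (l 2) (a (l 3) (b (a (l 2) (b (b (l 6) (l 3)) (l 3))) (l 3))))) (l 3)))) (a (b (l 3) (b (a (l 2) (l 3)) (l 3))) (b (l 3) (l 3)))), by decide +kernel⟩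

theorem c_pp_113 : CertN 536870912 536870912 0 1230186008 50331648 16777216 3 false true true .nn 1 1 3
    ndN0q1 ndN3q3 pcN1 cut_pp_113 Ext.none :=
  certNK2 (fam := false) (s1 := true) (s2 := true) (a := 1) (b := 1) (c := 3) (cn := .nn) (n1 := ndN0q1) (n2 := ndN3q3) (pc := pcN1) (cut := cut_pp_113) (xt := Ext.none) (P1 := 536870912) (W1 := 536870912) (P2 := 0) (W2 := 1230186008) (P3 := 50331648) (W3 := 16777216) (N0 := 3)
    rfl rfl rfl (fun _ => rfl) k0_pp_113

noncomputable def cut_pp_123 : Cut := Cut.of [[⟨0, 1, 0, 14341072⟩, ⟨1, 1, 0, 14341072⟩, ⟨2, 2, 0, 761489⟩]]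

noncomputable def f_pp_123 : ℕ → ℕ → ℕ → ℕ → Bool := onCell 1073741824 536870912 0 1230186008 50331648 16777216
    (rowNK 3 2 false true true .npn 1 2 3 (qsf 536870912 536870912 0 1230186008 2) ndN0q1 ndN3q3 pcN2 cut_pp_123 Ext.none)

def k0_pp_123 : ∃ t, chk3 f_pp_123 t 1 2 1 = true :=
  ⟨(b (a (a (a (a (a (b (b (a (b (l 6) (a (l 3) (b (a (b (l 6) (l 312626674423)) (l 254107737399)) (a (l 3) (b (l 300815510231) (l 3)))))) (b (l 16789320) (a (b (l 16784760) (l 243370343751)) (l 16790584)))) (a (l 3) (b (b (l 268066416935) (l 275045726727)) (l 295446812967)))) (l 3)) (b (a (b (l 16795992) (l 224043045511)) (l 16966320)) (a (b (l 237464822727) (l 3)) (b (l 191831059191) (l 261624056295))))) (a (b (l 17021488) (a (l 175188241319) (l 16982632))) (b (l 16796120) (l 16984288)))) (a (b (l 16798856) (b (l 16819912) (l 17047872))) (l 16907720))) (a (l 17145800) (l 17381928))) (a (l 17487472) (l 17240248))) (a (a (a (b (a (l 3) (a (b (l 254108001559) (l 255181914791)) (l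 17229984))) (a (l 3) (b (l 249813489847) (l 248203218151)))) (a (b (a (b (l 16967888) (l 17070560)) (l 17033152)) (a (a (l 17271112) (l 17376208)) (l 17423664))) (b (l 17130488) (a (l 17325640) (l 17200952))))) (a (a (b (a (l 16895672) (l 16984504)) (b (l 17115624) (l 17314040))) (l 17284392)) (b (l 17325784) (l 17463920)))) (a (l 17838360) (l 17923320)))), by decide +kernel⟩

def k1_pp_123 : ∃ t, chk3 f_pp_123 t 1 3 1 = true :=
  ⟨(b (a (b (a (a (l 3) (a (l 25940006007) (a (l 17719608) (l 17708816)))) (a (a (b (l 17464664) (l 17721368)) (l 17575680)) (l 17795688))) (a (a (l 3) (a (a (l 228341299719) (l 18485232)) (b (l 18097832) (l 18480504)))) (a (a (a (l 18281776) (a (l 18240544) (l 18179848))) (l 18158368)) (l 18308080)))) (a (b (l 18128696) (l 197606366967)) (b (l 18299520) (l 1)))) (a (a (a (l 3) (b (a (a (l 3) (l 214384339223)) (b (l 18836280) (l 19216760))) (a (l 3) (b (l 19613976) (l 1))))) (b (a (a (a (l 18982376) (a (l 18951568) (b (l 18730448) (l 19103728))))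 (l 18916504)) (l 18995608)) (a (a (a (l 82718165367) (l 1)) (l 1)) (l 1)))) (l 1))), by decide +kernel⟩

theorem s2_pp_123 : ∃ t, chk3 f_pp_123 t 1 1 1 = true := ex3_b k0_pp_123 k1_pp_123

theorem c_pp_123 : CertN 536870912 536870912 0 1230186008 50331648 16777216 3 false true true .npn 1 2 3
    ndN0q1 ndN3q3 pcN2 cut_pp_123 Ext.none :=
  certNK2 (fam := false) (s1 := true) (s2 := true) (a := 1) (b := 2) (c := 3) (cn := .npn) (n1 := ndN0q1) (n2 := ndN3q3) (pc := pcN2) (cut := cut_pp_123) (xt := Ext.none) (P1 := 536870912) (W1 := 536870912) (P2 := 0) (W2 := 1230186008) (P3 := 50331648) (W3 := 16777216) (N0 := 3)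
    rfl rfl rfl (fun _ => rfl) s2_pp_123

noncomputable def f_pp_133 : ℕ → ℕ → ℕ → ℕ → Bool := onCell 536870912 536870912 0 1230186008 50331648 16777216
    (rowNK 3 0 false true true .dn 1 3 3 (qsf 536870912 536870912 0 1230186008 3) ndN0q1 ndN3q3 pcN3 Cut.none Ext.none)

def k0_pp_133 : ∃ t, chk3 f_pp_133 t 1 1 1 = true :=
  ⟨(b (b (a (a (a (l 2632316517943) (l 1)) (l 1)) (l 1)) (l 1)) (l 1)), by decide +kernel⟩

theorem c_pp_133 : CertN 536870912 536870912 0 1230186008 50331648 16777216 3 false true true .dn 1 3 3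
    ndN0q1 ndN3q3 pcN3 Cut.none Ext.none :=
  certNK0 (fam := false) (s1 := true) (s2 := true) (a := 1) (b := 3) (c := 3) (cn := .dn) (n1 := ndN0q1) (n2 := ndN3q3) (pc := pcN3) (cut := Cut.none) (xt := Ext.none) (P1 := 536870912) (W1 := 536870912) (P2 := 0) (W2 := 1230186008) (P3 := 50331648) (W3 := 16777216) (N0 := 3)
    rfl rfl rfl k0_pp_133

noncomputable def f_pp_202 : ℕ → ℕ → ℕ → ℕ → Bool := onCell 0 536870912 1073741824 536870912 50331648 16777216
    (rowNK 3 0 false true true .pp 2 0 2 (qsf 0 536870912 1073741824 536870912 0) ndN0q2 ndN3q2 pcN0 Cut.none Ext.none)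

def k0_pp_202 : ∃ t, chk3 f_pp_202 t 1 1 1 = true :=
  ⟨(l 3), by decide +kernel⟩

theorem c_pp_202 : CertN 0 536870912 1073741824 536870912 50331648 16777216 3 false true true .pp 2 0 2
    ndN0q2 ndN3q2 pcN0 Cut.none Ext.none :=
  certNK0 (fam := false) (s1 := true) (s2 := true) (a := 2) (b := 0) (c := 2) (cn := .pp) (n1 := ndN0q2) (n2 := ndN3q2) (pc := pcN0) (cut := Cut.none) (xt := Ext.none) (P1 := 0) (W1 := 536870912) (P2 := 1073741824) (W2 := 536870912) (P3 := 50331648) (W3 := 16777216) (N0 := 3)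
    rfl rfl rfl k0_pp_202

noncomputable def f_pp_203 : ℕ → ℕ → ℕ → ℕ → Bool := onCell 0 536870912 0 1230186008 50331648 16777216
    (rowNK 3 0 false true true .up 2 0 3 (qsf 0 536870912 0 1230186008 0) ndN0q2 ndN3q3 pcN0 Cut.none Ext.none)

def k0_pp_203 : ∃ t, chk3 f_pp_203 t 1 1 1 = true :=
  ⟨(b (l 2) (l 3)), by decide +kernel⟩

theorem c_pp_203 : CertN 0 536870912 0 1230186008 50331648 16777216 3 false true true .up 2 0 3
    ndN0q2 ndN3q3 pcN0 Cut.none Ext.none :=
  certNK0 (fam := false) (s1 := true) (s2 := true) (a := 2) (b := 0) (c := 3) (cn := .up) (n1 := ndN0q2) (n2 := ndN3q3) (pc := pcN0) (cut := Cut.none) (xt := Ext.none) (P1 := 0) (W1 := 536870912) (P2 := 0) (W2 := 1230186008) (P3 := 50331648) (W3 := 16777216) (N0 := 3)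
    rfl rfl rfl k0_pp_203

noncomputable def cut_pp_213 : Cut := Cut.of [[⟨0, 1, 0, 14341072⟩, ⟨1, 1, 0, 14341072⟩, ⟨2, 2, 0, 761489⟩]]

noncomputable def f_pp_213 : ℕ → ℕ → ℕ → ℕ → Bool := onCell 0 536870912 0 1230186008 50331648 16777216
    (rowNK 3 0 false true true .pnn 2 1 3 (qsf 0 536870912 0 1230186008 1) ndN0q2 ndN3q3 pcN1 cut_pp_213 Ext.none)

def k0_pp_213 : ∃ t, chk3 f_pp_213 t 1 1 1 = true :=
  ⟨(b (a (l 3) (b (a (l 3) (a (l 3) (b (a (l 3) (b (a (l 3) (b (l 6) (l 3))) (l 3))) (l 3)))) (l 3))) (l 3)), by decide +kernel⟩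

theorem c_pp_213 : CertN 0 536870912 0 1230186008 50331648 16777216 3 false true true .pnn 2 1 3
    ndN0q2 ndN3q3 pcN1 cut_pp_213 Ext.none :=
  certNK0 (fam := false) (s1 := true) (s2 := true) (a := 2) (b := 1) (c := 3) (cn := .pnn) (n1 := ndN0q2) (n2 := ndN3q3) (pc := pcN1) (cut := cut_pp_213) (xt := Ext.none) (P1 := 0) (W1 := 536870912) (P2 := 0) (W2 := 1230186008) (P3 := 50331648) (W3 := 16777216) (N0 := 3)
    rfl rfl rfl k0_pp_213

noncomputable def f_pm_001 : ℕ → ℕ → ℕ → ℕ → Bool := onCell 0 536870912 536870912 536870912 50331648 16777216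
    (rowNK 3 0 false true false .up 0 0 1 (qsf 0 536870912 536870912 536870912 0) ndN0q0 ndN3q1 pcN0 Cut.none Ext.none)

def k0_pm_001 : ∃ t, chk3 f_pm_001 t 1 1 1 = true :=
  ⟨(l 4), by decide +kernel⟩

theorem c_pm_001 : CertN 0 536870912 536870912 536870912 50331648 16777216 3 false true false .up 0 0 1
    ndN0q0 ndN3q1 pcN0 Cut.none Ext.none :=
  certNK0 (fam := false) (s1 := true) (s2 := false) (a := 0) (b := 0) (c := 1) (cn := .up) (n1 := ndN0q0) (n2 := ndN3q1) (pc := pcN0) (cut := Cut.none) (xt := Ext.none) (P1 := 0) (W1 := 536870912) (P2 := 536870912) (W2 := 536870912) (P3 := 50331648) (W3 := 16777216) (N0 := 3)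
    rfl rfl rfl k0_pm_001

noncomputable def f_pm_011 : ℕ → ℕ → ℕ → ℕ → Bool := onCell 0 536870912 536870912 536870912 50331648 16777216
    (rowNK 3 0 false true false .pnn 0 1 1 (qsf 0 536870912 536870912 536870912 1) ndN0q0 ndN3q1 pcN1 Cut.none Ext.none)

def k0_pm_011 : ∃ t, chk3 f_pm_011 t 1 1 1 = true :=
  ⟨(l 4), by decide +kernel⟩

theorem c_pm_011 : CertN 0 536870912 536870912 536870912 50331648 16777216 3 false true false .pnn 0 1 1
    ndN0q0 ndN3q1 pcN1 Cut.none Ext.none :=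
  certNK0 (fam := false) (s1 := true) (s2 := false) (a := 0) (b := 1) (c := 1) (cn := .pnn) (n1 := ndN0q0) (n2 := ndN3q1) (pc := pcN1) (cut := Cut.none) (xt := Ext.none) (P1 := 0) (W1 := 536870912) (P2 := 536870912) (W2 := 536870912) (P3 := 50331648) (W3 := 16777216) (N0 := 3)
    rfl rfl rfl k0_pm_011

noncomputable def f_pm_012 : ℕ → ℕ → ℕ → ℕ → Bool := onCell 0 536870912 1073741824 536870912 50331648 16777216
    (rowNK 3 0 false true false .pnp 0 1 2 (qsf 0 536870912 1073741824 536870912 1) ndN0q0 ndN3q2 pcN1 Cut.none Ext.none)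

def k0_pm_012 : ∃ t, chk3 f_pm_012 t 1 1 1 = true :=
  ⟨(l 4), by decide +kernel⟩

theorem c_pm_012 : CertN 0 536870912 1073741824 536870912 50331648 16777216 3 false true false .pnp 0 1 2
    ndN0q0 ndN3q2 pcN1 Cut.none Ext.none :=
  certNK0 (fam := false) (s1 := true) (s2 := false) (a := 0) (b := 1) (c := 2) (cn := .pnp) (n1 := ndN0q0) (n2 := ndN3q2) (pc := pcN1) (cut := Cut.none) (xt := Ext.none) (P1 := 0) (W1 := 536870912) (P2 := 1073741824) (W2 := 536870912) (P3 := 50331648) (W3 := 16777216) (N0 := 3)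
    rfl rfl rfl k0_pm_012

noncomputable def f_pm_022 : ℕ → ℕ → ℕ → ℕ → Bool := onCell 0 536870912 1073741824 536870912 50331648 16777216
    (rowNK 3 0 false true false .pp 0 2 2 (qsf 0 536870912 1073741824 536870912 2) ndN0q0 ndN3q2 pcN2 Cut.none Ext.none)

def k0_pm_022 : ∃ t, chk3 f_pm_022 t 1 1 1 = true :=
  ⟨(l 4), by decide +kernel⟩

theorem c_pm_022 : CertN 0 536870912 1073741824 536870912 50331648 16777216 3 false true false .pp 0 2 2
    ndN0q0 ndN3q2 pcN2 Cut.none Ext.none :=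
  certNK0 (fam := false) (s1 := true) (s2 := false) (a := 0) (b := 2) (c := 2) (cn := .pp) (n1 := ndN0q0) (n2 := ndN3q2) (pc := pcN2) (cut := Cut.none) (xt := Ext.none) (P1 := 0) (W1 := 536870912) (P2 := 1073741824) (W2 := 536870912) (P3 := 50331648) (W3 := 16777216) (N0 := 3)
    rfl rfl rfl k0_pm_022

noncomputable def f_pm_023 : ℕ → ℕ → ℕ → ℕ → Bool := onCell 0 536870912 0 1230186008 50331648 16777216
    (rowNK 3 0 false true false .up 0 2 3 (qsf 0 536870912 0 1230186008 2) ndN0q0 ndN3q3 pcN2 Cut.none Ext.none)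

def k0_pm_023 : ∃ t, chk3 f_pm_023 t 1 1 1 = true :=
  ⟨(a (b (l 2) (l 4)) (b (a (l 2) (b (l 17469832) (a (l 18048960) (l 17857184)))) (b (a (l 4) (b (l 18344760) (l 4))) (l 4)))), by decide +kernel⟩

theorem c_pm_023 : CertN 0 536870912 0 1230186008 50331648 16777216 3 false true false .up 0 2 3
    ndN0q0 ndN3q3 pcN2 Cut.none Ext.none :=
  certNK0 (fam := false) (s1 := true) (s2 := false) (a := 0) (b := 2) (c := 3) (cn := .up) (n1 := ndN0q0) (n2 := ndN3q3) (pc := pcN2) (cut := Cut.none) (xt := Ext.none) (P1 := 0) (W1 := 536870912) (P2 := 0) (W2 := 1230186008) (P3 := 50331648) (W3 := 16777216) (N0 := 3)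
    rfl rfl rfl k0_pm_023

noncomputable def f_pm_033 : ℕ → ℕ → ℕ → ℕ → Bool := onCell 1610612736 536870912 0 1230186008 50331648 16777216
    (rowNK 3 2 false true false .pnn 0 3 3 (qsf 0 536870912 0 1230186008 3) ndN0q0 ndN3q3 pcN3 Cut.none Ext.none)

def k0_pm_033 : ∃ t, chk3 f_pm_033 t 1 1 1 = true :=
  ⟨(a (b (a (b (a (l 16882160) (l 17398104)) (a (l 17921624) (l 18131248))) (b (a (l 17779312) (l 4)) (l 4))) (l 4)) (b (l 4) (l 4))), by decide +kernel⟩

theorem c_pm_033 : CertN 0 536870912 0 1230186008 50331648 16777216 3 false true false .pnn 0 3 3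
    ndN0q0 ndN3q3 pcN3 Cut.none Ext.none :=
  certNK2 (fam := false) (s1 := true) (s2 := false) (a := 0) (b := 3) (c := 3) (cn := .pnn) (n1 := ndN0q0) (n2 := ndN3q3) (pc := pcN3) (cut := Cut.none) (xt := Ext.none) (P1 := 0) (W1 := 536870912) (P2 := 0) (W2 := 1230186008) (P3 := 50331648) (W3 := 16777216) (N0 := 3)
    rfl rfl rfl (fun _ => rfl) k0_pm_033

noncomputable def f_pm_101 : ℕ → ℕ → ℕ → ℕ → Bool := onCell 536870912 536870912 536870912 536870912 50331648 16777216
    (rowNK 3 0 false true false .npn 1 0 1 (qsf 536870912 536870912 536870912 536870912 0) ndN0q1 ndN3q1 pcN0 Cut.none Ext.none)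

def k0_pm_101 : ∃ t, chk3 f_pm_101 t 1 1 1 = true :=
  ⟨(l 4), by decide +kernel⟩

theorem c_pm_101 : CertN 536870912 536870912 536870912 536870912 50331648 16777216 3 false true false .npn 1 0 1
    ndN0q1 ndN3q1 pcN0 Cut.none Ext.none :=
  certNK0 (fam := false) (s1 := true) (s2 := false) (a := 1) (b := 0) (c := 1) (cn := .npn) (n1 := ndN0q1) (n2 := ndN3q1) (pc := pcN0) (cut := Cut.none) (xt := Ext.none) (P1 := 536870912) (W1 := 536870912) (P2 := 536870912) (W2 := 536870912) (P3 := 50331648) (W3 := 16777216) (N0 := 3)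
    rfl rfl rfl k0_pm_101

noncomputable def f_pm_102 : ℕ → ℕ → ℕ → ℕ → Bool := onCell 536870912 536870912 0 536870912 50331648 16777216
    (rowNK 3 1 false true false .npp 1 0 2 (qsf 536870912 536870912 1073741824 536870912 0) ndN0q1 ndN3q2 pcN0 Cut.none Ext.none)

def k0_pm_102 : ∃ t, chk3 f_pm_102 t 1 1 1 = true :=
  ⟨(b (a (b (l 1) (a (l 1) (b (l 1) (l 324310014679)))) (b (a (b (l 1) (l 19902592)) (b (l 19620280) (b (l 18658240) (l 95599902503)))) (a (b (l 248072882215) (l 530465340647)) (b (a (l 17824320) (l 17566152)) (a (l 17270896) (l 18017456)))))) (a (a (l 4) (b (a (l 314108386071) (b (l 18766016) (l 18174768))) (b (a (l 18531992) (l 17624280)) (a (l 18185984) (l 17181056))))) (b (a (b (a (l 17864592) (l 16961320)) (a (l 17142360) (l 17645944))) (b (a (l 17844512) (a (l 18230912) (l 18085544))) (a (a (l 18242072) (l 18298064)) (a (l 17986424) (l 17816600))))) (a (b (a (l 17245376) (b (l 18031592) (l 18259408))) (a (l 17923600) (a (l 18405232) (l 18334056))))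 (b (a (a (l 18333048) (l 17949696)) (a (l 17751416) (l 17669536))) (a (a (l 18043912) (b (l 17708512) (l 17628896))) (l 17676984))))))), by decide +kernel⟩

theorem c_pm_102 : CertN 536870912 536870912 1073741824 536870912 50331648 16777216 3 false true false .npp 1 0 2
    ndN0q1 ndN3q2 pcN0 Cut.none Ext.none :=
  certNK1 (fam := false) (s1 := true) (s2 := false) (a := 1) (b := 0) (c := 2) (cn := .npp) (n1 := ndN0q1) (n2 := ndN3q2) (pc := pcN0) (cut := Cut.none) (xt := Ext.none) (P1 := 536870912) (W1 := 536870912) (P2 := 1073741824) (W2 := 536870912) (P3 := 50331648) (W3 := 16777216) (N0 := 3)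
    rfl rfl rfl (fun _ => rfl) k0_pm_102

noncomputable def f_pm_112 : ℕ → ℕ → ℕ → ℕ → Bool := onCell 536870912 536870912 1073741824 536870912 50331648 16777216
    (rowNK 3 2 false true false .dn 1 1 2 (qsf 536870912 536870912 1073741824 536870912 1) ndN0q1 ndN3q2 pcN1 Cut.none Ext.none)

def k0_pm_112 : ∃ t, chk3 f_pm_112 t 1 1 1 = true :=
  ⟨(a (b (b (l 4) (a (l 18186768) (l 4))) (a (b (a (b (a (l 17748096) (l 17802304)) (b (l 17813680) (l 18029272))) (b (l 17897760) (l 18059984))) (b (a (b (l 18546464) (a (l 18861640) (l 18765680))) (b (l 17969208) (l 18344608))) (a (l 18582624) (a (l 18632312) (l 18303600))))) (b (l 18048512) (a (b (l 17992304) (l 18194736)) (b (l 17780720) (a (l 18035960) (l 17882672))))))) (b (l 4) (b (a (l 4) (l 4)) (a (a (b (l 18097472) (l 17942936)) (l 18083968)) (l 18820048))))), by decide +kernel⟩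

theorem c_pm_112 : CertN 536870912 536870912 1073741824 536870912 50331648 16777216 3 false true false .dn 1 1 2
    ndN0q1 ndN3q2 pcN1 Cut.none Ext.none :=
  certNK2 (fam := false) (s1 := true) (s2 := false) (a := 1) (b := 1) (c := 2) (cn := .dn) (n1 := ndN0q1) (n2 := ndN3q2) (pc := pcN1) (cut := Cut.none) (xt := Ext.none) (P1 := 536870912) (W1 := 536870912) (P2 := 1073741824) (W2 := 536870912) (P3 := 50331648) (W3 := 16777216) (N0 := 3)
    rfl rfl rfl (fun _ => rfl) k0_pm_112

noncomputable def cut_pm_113 : Cut := Cut.of [[⟨0, 1, 0, 14341072⟩, ⟨1, 1, 0, 14341072⟩, ⟨2, 2, 0, 761489⟩]]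

noncomputable def f_pm_113 : ℕ → ℕ → ℕ → ℕ → Bool := onCell 536870912 536870912 0 1230186008 50331648 16777216
    (rowNK 3 2 false true false .nn 1 1 3 (qsf 536870912 536870912 0 1230186008 1) ndN0q1 ndN3q3 pcN1 cut_pm_113 Ext.none)

def k0_pm_113 : ∃ t, chk3 f_pm_113 t 1 1 1 = true :=
  ⟨(b (a (l 2) (a (l 2) (b (a (l 2) (a (l 2) (b (a (l 2) (b (a (l 2) (b (l 6) (l 852114806679))) (l 838693042711))) (l 811312676999)))) (a (b (l 1433009776439) (l 906339787815)) (b (l 743667672135) (l 17123824)))))) (b (a (a (l 2) (b (l 2) (a (l 2) (b (l 2) (l 920301851831))))) (a (b (a (l 2) (l 957343527879)) (a (l 761387455383) (b (l 18137784) (l 18430952)))) (a (b (l 17628792) (l 18139408)) (a (b (l 17522440) (l 18020744)) (a (b (l 17472864) (l 17967744)) (l 17676848)))))) (a (b (a (l 2) (b (a (l 878426260807) (l 19006960)) (a (l 19417872) (l 19346688)))) (a (b (a (l 2) (b (l 19689648) (l 19860104))) (a (b (a (l 2) (l 19941904)) (l 20204696)) (l 20305312))) (b (a (l 19814104)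 (l 19818432)) (l 20362784)))) (b (a (a (b (l 18883640) (l 19276224)) (l 18969000)) (a (l 18752040) (a (l 18601344) (a (l 18576400) (l 18565184))))) (a (b (l 19621696) (a (l 19924288) (l 19716968))) (a (l 19609584) (a (l 19383712) (a (l 19384680) (l 19385288))))))))), by decide +kernel⟩

theorem c_pm_113 : CertN 536870912 536870912 0 1230186008 50331648 16777216 3 false true false .nn 1 1 3
    ndN0q1 ndN3q3 pcN1 cut_pm_113 Ext.none :=
  certNK2 (fam := false) (s1 := true) (s2 := false) (a := 1) (b := 1) (c := 3) (cn := .nn) (n1 := ndN0q1) (n2 := ndN3q3) (pc := pcN1) (cut := cut_pm_113) (xt := Ext.none) (P1 := 536870912) (W1 := 536870912) (P2 := 0) (W2 := 1230186008) (P3 := 50331648) (W3 := 16777216) (N0 := 3)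
    rfl rfl rfl (fun _ => rfl) k0_pm_113

noncomputable def cut_pm_123 : Cut := Cut.of [[⟨0, 1, 0, 14341072⟩, ⟨1, 1, 0, 14341072⟩, ⟨2, 2, 0, 761489⟩]]

noncomputable def f_pm_123 : ℕ → ℕ → ℕ → ℕ → Bool := onCell 1073741824 536870912 0 1230186008 50331648 16777216
    (rowNK 3 2 false true false .npn 1 2 3 (qsf 536870912 536870912 0 1230186008 2) ndN0q1 ndN3q3 pcN2 cut_pm_123 Ext.none)

def k0_pm_123 : ∃ t, chk3 f_pm_123 t 1 1 1 = true :=
  ⟨(b (b (a (a (a (a (a (b (b (a (b (l 6) (l 16792224)) (l 16794304)) (l 16806072)) (l 16829216)) (a (l 16915768) (l 16924336))) (a (l 16996168) (l 16857928))) (a (l 16973480) (l 17074104))) (a (l 17279096) (l 17428912))) (a (l 17450680) (l 16839424))) (a (a (a (a (a (b (l 16847768) (l 17039064)) (b (l 16915584) (l 17103976))) (b (l 17003512) (l 17180856))) (b (l 17177712) (l 17264648))) (b (l 17280160) (l 17206208))) (a (b (l 16992024) (l 17323696)) (l 17667800)))) (b (a (a (b (l 17410080) (l 17838336)) (b (l 17313288) (l 17739736)))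 (a (b (l 17893416) (l 18415816)) (b (l 18383040) (l 1)))) (a (a (b (l 18537736) (l 19380856)) (b (l 18543864) (l 4))) (l 1)))), by decide +kernel⟩

theorem c_pm_123 : CertN 536870912 536870912 0 1230186008 50331648 16777216 3 false true false .npn 1 2 3
    ndN0q1 ndN3q3 pcN2 cut_pm_123 Ext.none :=
  certNK2 (fam := false) (s1 := true) (s2 := false) (a := 1) (b := 2) (c := 3) (cn := .npn) (n1 := ndN0q1) (n2 := ndN3q3) (pc := pcN2) (cut := cut_pm_123) (xt := Ext.none) (P1 := 536870912) (W1 := 536870912) (P2 := 0) (W2 := 1230186008) (P3 := 50331648) (W3 := 16777216) (N0 := 3)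
    rfl rfl rfl (fun _ => rfl) k0_pm_123

noncomputable def f_pm_133 : ℕ → ℕ → ℕ → ℕ → Bool := onCell 536870912 536870912 0 1230186008 50331648 16777216
    (rowNK 3 0 false true false .dn 1 3 3 (qsf 536870912 536870912 0 1230186008 3) ndN0q1 ndN3q3 pcN3 Cut.none Ext.none)

def k0_pm_133 : ∃ t, chk3 f_pm_133 t 1 1 1 = true :=
  ⟨(b (b (a (a (a (l 17772792) (l 1)) (l 1)) (l 1)) (l 1)) (l 1)), by decide +kernel⟩

theorem c_pm_133 : CertN 536870912 536870912 0 1230186008 50331648 16777216 3 false true false .dn 1 3 3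
    ndN0q1 ndN3q3 pcN3 Cut.none Ext.none :=
  certNK0 (fam := false) (s1 := true) (s2 := false) (a := 1) (b := 3) (c := 3) (cn := .dn) (n1 := ndN0q1) (n2 := ndN3q3) (pc := pcN3) (cut := Cut.none) (xt := Ext.none) (P1 := 536870912) (W1 := 536870912) (P2 := 0) (W2 := 1230186008) (P3 := 50331648) (W3 := 16777216) (N0 := 3)
    rfl rfl rfl k0_pm_133

noncomputable def f_pm_202 : ℕ → ℕ → ℕ → ℕ → Bool := onCell 0 536870912 0 536870912 50331648 16777216
    (rowNK 3 1 false true false .pp 2 0 2 (qsf 0 536870912 1073741824 536870912 0) ndN0q2 ndN3q2 pcN0 Cut.none Ext.none)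

def k0_pm_202 : ∃ t, chk3 f_pm_202 t 1 1 1 = true :=
  ⟨(a (a (b (l 3) (l 3)) (b (b (b (a (b (l 18612736) (l 18419656)) (l 18645960)) (a (l 138684031287) (l 18328008))) (b (l 140294399415) (a (l 3) (l 18394608)))) (a (l 3) (b (l 170895909623) (l 235856860391))))) (b (b (b (a (a (l 17969864) (l 17633816)) (b (a (l 18218880) (l 18735224)) (a (l 17712520) (l 18230192)))) (a (a (l 18256968) (l 17900840)) (a (l 17803112) (l 17752400)))) (b (a (a (l 18302368) (l 17909928)) (l 17989760)) (a (a (l 18015592) (l 17862024)) (a (l 17841432) (l 18101464))))) (b (a (a (l 18200056) (l 17922952)) (b (a (l 17789360) (l 17880552)) (a (l 17776304) (l 17700248)))) (a (l 119825970967) (a (l 17743160) (l 17736760)))))), by decide +kernel⟩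

theorem c_pm_202 : CertN 0 536870912 1073741824 536870912 50331648 16777216 3 false true false .pp 2 0 2
    ndN0q2 ndN3q2 pcN0 Cut.none Ext.none :=
  certNK1 (fam := false) (s1 := true) (s2 := false) (a := 2) (b := 0) (c := 2) (cn := .pp) (n1 := ndN0q2) (n2 := ndN3q2) (pc := pcN0) (cut := Cut.none) (xt := Ext.none) (P1 := 0) (W1 := 536870912) (P2 := 1073741824) (W2 := 536870912) (P3 := 50331648) (W3 := 16777216) (N0 := 3)
    rfl rfl rfl (fun _ => rfl) k0_pm_202

noncomputable def f_pm_203 : ℕ → ℕ → ℕ → ℕ → Bool := onCell 0 536870912 0 1230186008 50331648 16777216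
    (rowNK 3 0 false true false .up 2 0 3 (qsf 0 536870912 0 1230186008 0) ndN0q2 ndN3q3 pcN0 Cut.none Ext.none)

def k0_pm_203 : ∃ t, chk3 f_pm_203 t 1 1 1 = true :=
  ⟨(b (l 2) (b (l 2) (a (a (l 3) (b (l 3) (b (l 3) (l 226196962935)))) (b (l 2) (a (a (b (l 183246847895) (l 19878920)) (l 19587784)) (a (l 19491672) (l 19428304))))))), by decide +kernel⟩

theorem c_pm_203 : CertN 0 536870912 0 1230186008 50331648 16777216 3 false true false .up 2 0 3
    ndN0q2 ndN3q3 pcN0 Cut.none Ext.none :=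
  certNK0 (fam := false) (s1 := true) (s2 := false) (a := 2) (b := 0) (c := 3) (cn := .up) (n1 := ndN0q2) (n2 := ndN3q3) (pc := pcN0) (cut := Cut.none) (xt := Ext.none) (P1 := 0) (W1 := 536870912) (P2 := 0) (W2 := 1230186008) (P3 := 50331648) (W3 := 16777216) (N0 := 3)
    rfl rfl rfl k0_pm_203

noncomputable def cut_pm_213 : Cut := Cut.of [[⟨0, 1, 0, 14341072⟩, ⟨1, 1, 0, 14341072⟩, ⟨2, 2, 0, 761489⟩]]

noncomputable def f_pm_213 : ℕ → ℕ → ℕ → ℕ → Bool := onCell 0 536870912 0 1230186008 50331648 16777216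
    (rowNK 3 0 false true false .pnn 2 1 3 (qsf 0 536870912 0 1230186008 1) ndN0q2 ndN3q3 pcN1 cut_pm_213 Ext.none)

def k0_pm_213 : ∃ t, chk3 f_pm_213 t 1 1 1 = true :=
  ⟨(b (a (l 3) (b (a (l 3) (a (b (l 3) (l 3)) (b (a (l 3) (b (a (l 3) (b (l 6) (a (a (l 311552928135) (b (a (l 309942295399) (l 297594271175)) (l 271824477159))) (b (b (l 6) (l 16780792)) (l 16782224))))) (a (a (l 318532277639) (b (l 311552918983) (l 282025023287))) (b (a (l 269676996807) (l 16784568)) (l 16783528))))) (a (b (a (l 3) (l 333564705815)) (l 267529705767)) (b (a (l 262160892903) (l 16795624)) (l 16837968)))))) (a (l 3) (a (b (b (l 379735858775) (l 264308779847)) (b (l 248202922343) (l 232634025639))) (b (b (a (l 253034256807) (l 16905568)) (l 17013608)) (l 17333696)))))) (b (a (l 3) (a (b (b (l 378126451447) (l 252499181575)) (a (l 3) (a (l 248742073495) (l 203108416807)))) (b (b (l 203643951063) (l 17898424)) (a (l 18336952) (l 18387648))))) (a (b (l 3) (b (l 3) (l 1))) (b (b (a (a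 (l 242300651927) (l 18848920)) (l 18899792)) (a (a (l 198814877943) (l 19204376)) (l 19258600))) (b (a (a (l 184857484647) (l 19529368)) (l 19567960)) (a (l 1) (a (l 19742232) (l 19847184)))))))), by decide +kernel⟩

theorem c_pm_213 : CertN 0 536870912 0 1230186008 50331648 16777216 3 false true false .pnn 2 1 3
    ndN0q2 ndN3q3 pcN1 cut_pm_213 Ext.none :=
  certNK0 (fam := false) (s1 := true) (s2 := false) (a := 2) (b := 1) (c := 3) (cn := .pnn) (n1 := ndN0q2) (n2 := ndN3q3) (pc := pcN1) (cut := cut_pm_213) (xt := Ext.none) (P1 := 0) (W1 := 536870912) (P2 := 0) (W2 := 1230186008) (P3 := 50331648) (W3 := 16777216) (N0 := 3)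
    rfl rfl rfl k0_pm_213

noncomputable def f_mm_001 : ℕ → ℕ → ℕ → ℕ → Bool := onCell 0 536870912 0 536870912 50331648 16777216
    (rowNK 3 1 false false false .up 0 0 1 (qsf 0 536870912 536870912 536870912 0) ndN0q0 ndN3q1 pcN0 Cut.none Ext.none)

def k0_mm_001 : ∃ t, chk3 f_mm_001 t 1 1 1 = true :=
  ⟨(l 3), by decide +kernel⟩

theorem c_mm_001 : CertN 0 536870912 536870912 536870912 50331648 16777216 3 false false false .up 0 0 1
    ndN0q0 ndN3q1 pcN0 Cut.none Ext.none :=
  certNK1 (fam := false) (s1 := false) (s2 := false) (a := 0) (b := 0) (c := 1) (cn := .up) (n1 := ndN0q0) (n2 := ndN3q1) (pc := pcN0) (cut := Cut.none) (xt := Ext.none) (P1 := 0) (W1 := 536870912) (P2 := 536870912) (W2 := 536870912) (P3 := 50331648) (W3 := 16777216) (N0 := 3)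
    rfl rfl rfl (fun _ => rfl) k0_mm_001

noncomputable def f_mm_011 : ℕ → ℕ → ℕ → ℕ → Bool := onCell 0 536870912 536870912 536870912 50331648 16777216
    (rowNK 3 1 false false false .pnn 0 1 1 (qsf 0 536870912 536870912 536870912 1) ndN0q0 ndN3q1 pcN1 Cut.none Ext.none)

def k0_mm_011 : ∃ t, chk3 f_mm_011 t 1 1 1 = true :=
  ⟨(l 5), by decide +kernel⟩

theorem c_mm_011 : CertN 0 536870912 536870912 536870912 50331648 16777216 3 false false false .pnn 0 1 1
    ndN0q0 ndN3q1 pcN1 Cut.none Ext.none :=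
  certNK1 (fam := false) (s1 := false) (s2 := false) (a := 0) (b := 1) (c := 1) (cn := .pnn) (n1 := ndN0q0) (n2 := ndN3q1) (pc := pcN1) (cut := Cut.none) (xt := Ext.none) (P1 := 0) (W1 := 536870912) (P2 := 536870912) (W2 := 536870912) (P3 := 50331648) (W3 := 16777216) (N0 := 3)
    rfl rfl rfl (fun _ => rfl) k0_mm_011

noncomputable def f_mm_012 : ℕ → ℕ → ℕ → ℕ → Bool := onCell 0 536870912 1073741824 536870912 50331648 16777216
    (rowNK 3 0 false false false .pnp 0 1 2 (qsf 0 536870912 1073741824 536870912 1) ndN0q0 ndN3q2 pcN1 Cut.none Ext.none)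

def k0_mm_012 : ∃ t, chk3 f_mm_012 t 1 1 1 = true :=
  ⟨(l 5), by decide +kernel⟩

theorem c_mm_012 : CertN 0 536870912 1073741824 536870912 50331648 16777216 3 false false false .pnp 0 1 2
    ndN0q0 ndN3q2 pcN1 Cut.none Ext.none :=
  certNK0 (fam := false) (s1 := false) (s2 := false) (a := 0) (b := 1) (c := 2) (cn := .pnp) (n1 := ndN0q0) (n2 := ndN3q2) (pc := pcN1) (cut := Cut.none) (xt := Ext.none) (P1 := 0) (W1 := 536870912) (P2 := 1073741824) (W2 := 536870912) (P3 := 50331648) (W3 := 16777216) (N0 := 3)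
    rfl rfl rfl k0_mm_012

noncomputable def f_mm_022 : ℕ → ℕ → ℕ → ℕ → Bool := onCell 0 536870912 1073741824 536870912 50331648 16777216
    (rowNK 3 0 false false false .pp 0 2 2 (qsf 0 536870912 1073741824 536870912 2) ndN0q0 ndN3q2 pcN2 Cut.none Ext.none)

def k0_mm_022 : ∃ t, chk3 f_mm_022 t 1 1 1 = true :=
  ⟨(l 5), by decide +kernel⟩

theorem c_mm_022 : CertN 0 536870912 1073741824 536870912 50331648 16777216 3 false false false .pp 0 2 2
    ndN0q0 ndN3q2 pcN2 Cut.none Ext.none :=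
  certNK0 (fam := false) (s1 := false) (s2 := false) (a := 0) (b := 2) (c := 2) (cn := .pp) (n1 := ndN0q0) (n2 := ndN3q2) (pc := pcN2) (cut := Cut.none) (xt := Ext.none) (P1 := 0) (W1 := 536870912) (P2 := 1073741824) (W2 := 536870912) (P3 := 50331648) (W3 := 16777216) (N0 := 3)
    rfl rfl rfl k0_mm_022

noncomputable def f_mm_023 : ℕ → ℕ → ℕ → ℕ → Bool := onCell 0 536870912 0 1230186008 50331648 16777216
    (rowNK 3 0 false false false .up 0 2 3 (qsf 0 536870912 0 1230186008 2) ndN0q0 ndN3q3 pcN2 Cut.none Ext.none)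

def k0_mm_023 : ∃ t, chk3 f_mm_023 t 1 1 1 = true :=
  ⟨(l 5), by decide +kernel⟩

theorem c_mm_023 : CertN 0 536870912 0 1230186008 50331648 16777216 3 false false false .up 0 2 3
    ndN0q0 ndN3q3 pcN2 Cut.none Ext.none :=
  certNK0 (fam := false) (s1 := false) (s2 := false) (a := 0) (b := 2) (c := 3) (cn := .up) (n1 := ndN0q0) (n2 := ndN3q3) (pc := pcN2) (cut := Cut.none) (xt := Ext.none) (P1 := 0) (W1 := 536870912) (P2 := 0) (W2 := 1230186008) (P3 := 50331648) (W3 := 16777216) (N0 := 3)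
    rfl rfl rfl k0_mm_023

noncomputable def f_mm_033 : ℕ → ℕ → ℕ → ℕ → Bool := onCell 0 536870912 0 1230186008 50331648 16777216
    (rowNK 3 0 false false false .pnn 0 3 3 (qsf 0 536870912 0 1230186008 3) ndN0q0 ndN3q3 pcN3 Cut.none Ext.none)

def k0_mm_033 : ∃ t, chk3 f_mm_033 t 1 1 1 = true :=
  ⟨(l 5), by decide +kernel⟩

theorem c_mm_033 : CertN 0 536870912 0 1230186008 50331648 16777216 3 false false false .pnn 0 3 3
    ndN0q0 ndN3q3 pcN3 Cut.none Ext.none :=
  certNK0 (fam := false) (s1 := false) (s2 := false) (a := 0) (b := 3) (c := 3) (cn := .pnn) (n1 := ndN0q0) (n2 := ndN3q3) (pc := pcN3) (cut := Cut.none) (xt := Ext.none) (P1 := 0) (W1 := 536870912) (P2 := 0) (W2 := 1230186008) (P3 := 50331648) (W3 := 16777216) (N0 := 3)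
    rfl rfl rfl k0_mm_033

noncomputable def cut_mm_101 : Cut := Cut.of [[⟨0, 1, 0, 50331648⟩, ⟨1, 0, 0, 50331648⟩, ⟨2, 1, 0, 50331648⟩]]

noncomputable def f_mm_101 : ℕ → ℕ → ℕ → ℕ → Bool := onCell 536870912 536870912 0 536870912 50331648 16777216
    (rowNK 3 1 false false false .npn 1 0 1 (qsf 536870912 536870912 536870912 536870912 0) ndN0q1 ndN3q1 pcN0 cut_mm_101 Ext.none)

def k0_mm_101 : ∃ t, chk3 f_mm_101 t 1 1 1 = true :=
  ⟨(a (l 3) (b (b (a (l 3) (b (a (l 3) (a (l 3) (b (l 6) (l 3)))) (l 3))) (l 3)) (l 3))), by decide +kernel⟩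

theorem c_mm_101 : CertN 536870912 536870912 536870912 536870912 50331648 16777216 3 false false false .npn 1 0 1
    ndN0q1 ndN3q1 pcN0 cut_mm_101 Ext.none :=
  certNK1 (fam := false) (s1 := false) (s2 := false) (a := 1) (b := 0) (c := 1) (cn := .npn) (n1 := ndN0q1) (n2 := ndN3q1) (pc := pcN0) (cut := cut_mm_101) (xt := Ext.none) (P1 := 536870912) (W1 := 536870912) (P2 := 536870912) (W2 := 536870912) (P3 := 50331648) (W3 := 16777216) (N0 := 3)
    rfl rfl rfl (fun _ => rfl) k0_mm_101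

noncomputable def f_mm_102 : ℕ → ℕ → ℕ → ℕ → Bool := onCell 536870912 536870912 1073741824 536870912 50331648 16777216
    (rowNK 3 0 false false false .npp 1 0 2 (qsf 536870912 536870912 1073741824 536870912 0) ndN0q1 ndN3q2 pcN0 Cut.none Ext.none)

def k0_mm_102 : ∃ t, chk3 f_mm_102 t 1 1 1 = true :=
  ⟨(l 3), by decide +kernel⟩

theorem c_mm_102 : CertN 536870912 536870912 1073741824 536870912 50331648 16777216 3 false false false .npp 1 0 2
    ndN0q1 ndN3q2 pcN0 Cut.none Ext.none :=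
  certNK0 (fam := false) (s1 := false) (s2 := false) (a := 1) (b := 0) (c := 2) (cn := .npp) (n1 := ndN0q1) (n2 := ndN3q2) (pc := pcN0) (cut := Cut.none) (xt := Ext.none) (P1 := 536870912) (W1 := 536870912) (P2 := 1073741824) (W2 := 536870912) (P3 := 50331648) (W3 := 16777216) (N0 := 3)
    rfl rfl rfl k0_mm_102

noncomputable def f_mm_112 : ℕ → ℕ → ℕ → ℕ → Bool := onCell 536870912 536870912 1073741824 536870912 50331648 16777216
    (rowNK 3 0 false false false .dn 1 1 2 (qsf 536870912 536870912 1073741824 536870912 1) ndN0q1 ndN3q2 pcN1 Cut.none Ext.none)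

def k0_mm_112 : ∃ t, chk3 f_mm_112 t 1 1 1 = true :=
  ⟨(l 3), by decide +kernel⟩

theorem c_mm_112 : CertN 536870912 536870912 1073741824 536870912 50331648 16777216 3 false false false .dn 1 1 2
    ndN0q1 ndN3q2 pcN1 Cut.none Ext.none :=
  certNK0 (fam := false) (s1 := false) (s2 := false) (a := 1) (b := 1) (c := 2) (cn := .dn) (n1 := ndN0q1) (n2 := ndN3q2) (pc := pcN1) (cut := Cut.none) (xt := Ext.none) (P1 := 536870912) (W1 := 536870912) (P2 := 1073741824) (W2 := 536870912) (P3 := 50331648) (W3 := 16777216) (N0 := 3)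
    rfl rfl rfl k0_mm_112

noncomputable def f_mm_113 : ℕ → ℕ → ℕ → ℕ → Bool := onCell 536870912 536870912 0 1230186008 50331648 16777216
    (rowNK 3 0 false false false .nn 1 1 3 (qsf 536870912 536870912 0 1230186008 1) ndN0q1 ndN3q3 pcN1 Cut.none Ext.none)

def k0_mm_113 : ∃ t, chk3 f_mm_113 t 1 1 1 = true :=
  ⟨(b (l 5) (a (l 5) (b (l 5) (l 3)))), by decide +kernel⟩

theorem c_mm_113 : CertN 536870912 536870912 0 1230186008 50331648 16777216 3 false false false .nn 1 1 3
    ndN0q1 ndN3q3 pcN1 Cut.none Ext.none :=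
  certNK0 (fam := false) (s1 := false) (s2 := false) (a := 1) (b := 1) (c := 3) (cn := .nn) (n1 := ndN0q1) (n2 := ndN3q3) (pc := pcN1) (cut := Cut.none) (xt := Ext.none) (P1 := 536870912) (W1 := 536870912) (P2 := 0) (W2 := 1230186008) (P3 := 50331648) (W3 := 16777216) (N0 := 3)
    rfl rfl rfl k0_mm_113

noncomputable def f_mm_123 : ℕ → ℕ → ℕ → ℕ → Bool := onCell 1073741824 536870912 0 1230186008 50331648 16777216
    (rowNK 3 2 false false false .npn 1 2 3 (qsf 536870912 536870912 0 1230186008 2) ndN0q1 ndN3q3 pcN2 Cut.none Ext.none)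

def k0_mm_123 : ∃ t, chk3 f_mm_123 t 1 1 1 = true :=
  ⟨(b (l 5) (l 5)), by decide +kernel⟩

theorem c_mm_123 : CertN 536870912 536870912 0 1230186008 50331648 16777216 3 false false false .npn 1 2 3
    ndN0q1 ndN3q3 pcN2 Cut.none Ext.none :=
  certNK2 (fam := false) (s1 := false) (s2 := false) (a := 1) (b := 2) (c := 3) (cn := .npn) (n1 := ndN0q1) (n2 := ndN3q3) (pc := pcN2) (cut := Cut.none) (xt := Ext.none) (P1 := 536870912) (W1 := 536870912) (P2 := 0) (W2 := 1230186008) (P3 := 50331648) (W3 := 16777216) (N0 := 3)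
    rfl rfl rfl (fun _ => rfl) k0_mm_123

noncomputable def f_mm_133 : ℕ → ℕ → ℕ → ℕ → Bool := onCell 1610612736 536870912 0 1230186008 50331648 16777216
    (rowNK 3 2 false false false .dn 1 3 3 (qsf 536870912 536870912 0 1230186008 3) ndN0q1 ndN3q3 pcN3 Cut.none Ext.none)

def k0_mm_133 : ∃ t, chk3 f_mm_133 t 1 1 1 = true :=
  ⟨(l 5), by decide +kernel⟩

theorem c_mm_133 : CertN 536870912 536870912 0 1230186008 50331648 16777216 3 false false false .dn 1 3 3
    ndN0q1 ndN3q3 pcN3 Cut.none Ext.none :=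
  certNK2 (fam := false) (s1 := false) (s2 := false) (a := 1) (b := 3) (c := 3) (cn := .dn) (n1 := ndN0q1) (n2 := ndN3q3) (pc := pcN3) (cut := Cut.none) (xt := Ext.none) (P1 := 536870912) (W1 := 536870912) (P2 := 0) (W2 := 1230186008) (P3 := 50331648) (W3 := 16777216) (N0 := 3)
    rfl rfl rfl (fun _ => rfl) k0_mm_133

noncomputable def f_mm_202 : ℕ → ℕ → ℕ → ℕ → Bool := onCell 0 536870912 1073741824 536870912 50331648 16777216
    (rowNK 3 0 false false false .pp 2 0 2 (qsf 0 536870912 1073741824 536870912 0) ndN0q2 ndN3q2 pcN0 Cut.none Ext.none)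

def k0_mm_202 : ∃ t, chk3 f_mm_202 t 1 1 1 = true :=
  ⟨(l 3), by decide +kernel⟩

theorem c_mm_202 : CertN 0 536870912 1073741824 536870912 50331648 16777216 3 false false false .pp 2 0 2
    ndN0q2 ndN3q2 pcN0 Cut.none Ext.none :=
  certNK0 (fam := false) (s1 := false) (s2 := false) (a := 2) (b := 0) (c := 2) (cn := .pp) (n1 := ndN0q2) (n2 := ndN3q2) (pc := pcN0) (cut := Cut.none) (xt := Ext.none) (P1 := 0) (W1 := 536870912) (P2 := 1073741824) (W2 := 536870912) (P3 := 50331648) (W3 := 16777216) (N0 := 3)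
    rfl rfl rfl k0_mm_202

noncomputable def f_mm_203 : ℕ → ℕ → ℕ → ℕ → Bool := onCell 0 536870912 0 1230186008 50331648 16777216
    (rowNK 3 0 false false false .up 2 0 3 (qsf 0 536870912 0 1230186008 0) ndN0q2 ndN3q3 pcN0 Cut.none Ext.none)

def k0_mm_203 : ∃ t, chk3 f_mm_203 t 1 1 1 = true :=
  ⟨(b (l 2) (l 3)), by decide +kernel⟩

theorem c_mm_203 : CertN 0 536870912 0 1230186008 50331648 16777216 3 false false false .up 2 0 3
    ndN0q2 ndN3q3 pcN0 Cut.none Ext.none :=
  certNK0 (fam := false) (s1 := false) (s2 := false) (a := 2) (b := 0) (c := 3) (cn := .up) (n1 := ndN0q2) (n2 := ndN3q3) (pc := pcN0) (cut := Cut.none) (xt := Ext.none) (P1 := 0) (W1 := 536870912) (P2 := 0) (W2 := 1230186008) (P3 := 50331648) (W3 := 16777216) (N0 := 3)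
    rfl rfl rfl k0_mm_203

noncomputable def f_mm_213 : ℕ → ℕ → ℕ → ℕ → Bool := onCell 0 536870912 0 1230186008 50331648 16777216
    (rowNK 3 0 false false false .pnn 2 1 3 (qsf 0 536870912 0 1230186008 1) ndN0q2 ndN3q3 pcN1 Cut.none Ext.none)

def k0_mm_213 : ∃ t, chk3 f_mm_213 t 1 1 1 = true :=
  ⟨(b (a (l 3) (l 5)) (l 3)), by decide +kernel⟩

theorem c_mm_213 : CertN 0 536870912 0 1230186008 50331648 16777216 3 false false false .pnn 2 1 3
    ndN0q2 ndN3q3 pcN1 Cut.none Ext.none :=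
  certNK0 (fam := false) (s1 := false) (s2 := false) (a := 2) (b := 1) (c := 3) (cn := .pnn) (n1 := ndN0q2) (n2 := ndN3q3) (pc := pcN1) (cut := Cut.none) (xt := Ext.none) (P1 := 0) (W1 := 536870912) (P2 := 0) (W2 := 1230186008) (P3 := 50331648) (W3 := 16777216) (N0 := 3)
    rfl rfl rfl k0_mm_213

end Pool.Agent.Strip051.G.I3_64_1_16.Tab.C.NB03

namespace Pool.Agent.Strip051.G.I3_64_1_16.Tab.C.NB04

open Pool.Agent.Strip051.PB Pool.Agent.Strip051.PB.T
open Pool.Agent.Strip051.G.I3_64_1_16.Tab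

noncomputable def f_pp_001 : ℕ → ℕ → ℕ → ℕ → Bool := onCell 0 536870912 0 536870912 50331648 16777216
    (rowNK 3 1 false true true .up 0 0 1 (qsf 0 536870912 536870912 536870912 0) ndN0q0 ndN4q1 pcN0 Cut.none Ext.none)

def k0_pp_001 : ∃ t, chk3 f_pp_001 t 1 1 1 = true :=
  ⟨(l 3), by decide +kernel⟩

theorem c_pp_001 : CertN 0 536870912 536870912 536870912 50331648 16777216 3 false true true .up 0 0 1
    ndN0q0 ndN4q1 pcN0 Cut.none Ext.none :=
  certNK1 (fam := false) (s1 := true) (s2 := true) (a := 0) (b := 0) (c := 1) (cn := .up) (n1 := ndN0q0) (n2 := ndN4q1) (pc := pcN0) (cut := Cut.none) (xt := Ext.none) (P1 := 0) (W1 := 536870912) (P2 := 536870912) (W2 := 536870912) (P3 := 50331648) (W3 := 16777216) (N0 := 3)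
    rfl rfl rfl (fun _ => rfl) k0_pp_001

noncomputable def cut_pp_011 : Cut := Cut.of [[⟨0, 0, 0, 50331648⟩, ⟨1, 1, 0, 50331648⟩, ⟨2, 1, 0, 50331648⟩]]

noncomputable def f_pp_011 : ℕ → ℕ → ℕ → ℕ → Bool := onCell 0 536870912 536870912 536870912 50331648 16777216
    (rowNK 3 1 false true true .pnn 0 1 1 (qsf 0 536870912 536870912 536870912 1) ndN0q0 ndN4q1 pcN1 cut_pp_011 Ext.none)

def k0_pp_011 : ∃ t, chk3 f_pp_011 t 1 1 1 = true :=
  ⟨(b (l 3) (a (b (l 3) (a (b (l 3) (a (b (l 3) (a (l 6) (l 3))) (l 3))) (l 3))) (l 3))), by decide +kernel⟩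

theorem c_pp_011 : CertN 0 536870912 536870912 536870912 50331648 16777216 3 false true true .pnn 0 1 1
    ndN0q0 ndN4q1 pcN1 cut_pp_011 Ext.none :=
  certNK1 (fam := false) (s1 := true) (s2 := true) (a := 0) (b := 1) (c := 1) (cn := .pnn) (n1 := ndN0q0) (n2 := ndN4q1) (pc := pcN1) (cut := cut_pp_011) (xt := Ext.none) (P1 := 0) (W1 := 536870912) (P2 := 536870912) (W2 := 536870912) (P3 := 50331648) (W3 := 16777216) (N0 := 3)
    rfl rfl rfl (fun _ => rfl) k0_pp_011

noncomputable def cut_pp_012 : Cut := Cut.of [[⟨0, 0, 0, 50331648⟩, ⟨1, 1, 0, 50331648⟩, ⟨2, 1, 0, 50331648⟩]]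

noncomputable def f_pp_012 : ℕ → ℕ → ℕ → ℕ → Bool := onCell 0 536870912 536870912 536870912 50331648 16777216
    (rowNK 3 1 false true true .pnp 0 1 2 (qsf 0 536870912 1073741824 536870912 1) ndN0q0 ndN4q2 pcN1 cut_pp_012 Ext.none)

def k0_pp_012 : ∃ t, chk3 f_pp_012 t 1 1 1 = true :=
  ⟨(b (l 3) (a (b (l 3) (a (a (a (b (l 1) (b (l 3) (l 6))) (l 3)) (l 3)) (l 3))) (l 3))), by decide +kernel⟩

theorem c_pp_012 : CertN 0 536870912 1073741824 536870912 50331648 16777216 3 false true true .pnp 0 1 2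
    ndN0q0 ndN4q2 pcN1 cut_pp_012 Ext.none :=
  certNK1 (fam := false) (s1 := true) (s2 := true) (a := 0) (b := 1) (c := 2) (cn := .pnp) (n1 := ndN0q0) (n2 := ndN4q2) (pc := pcN1) (cut := cut_pp_012) (xt := Ext.none) (P1 := 0) (W1 := 536870912) (P2 := 1073741824) (W2 := 536870912) (P3 := 50331648) (W3 := 16777216) (N0 := 3)
    rfl rfl rfl (fun _ => rfl) k0_pp_012

noncomputable def cut_pp_022 : Cut := Cut.of [[⟨0, 0, 0, 50331648⟩, ⟨1, 1, 0, 50331648⟩, ⟨2, 1, 0, 50331648⟩]]

noncomputable def f_pp_022 : ℕ → ℕ → ℕ → ℕ → Bool := onCell 0 536870912 1073741824 536870912 50331648 16777216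
    (rowNK 3 1 false true true .pp 0 2 2 (qsf 0 536870912 1073741824 536870912 2) ndN0q0 ndN4q2 pcN2 cut_pp_022 Ext.none)

def k0_pp_022 : ∃ t, chk3 f_pp_022 t 16 16 1 = true :=
  ⟨(b (a (l 6) (b (l 6) (a (l 6) (b (l 6) (a (l 6) (b (l 6) (a (l 6) (b (l 6) (b (l 6) (b (l 6) (l 16781104))))))))))) (b (a (l 6) (a (b (l 6) (a (l 6) (b (l 6) (a (l 6) (l 16775832))))) (b (b (a (l 6) (a (b (l 6) (l 16777248)) (b (a (l 16781576) (l 16780216)) (l 16777152)))) (a (a (l 6) (b (l 6) (l 16785592))) (a (b (l 16780056) (a (l 16787472) (l 16788728))) (b (l 16782576) (l 16780128))))) (a (b (a (b (l 6) (l 16779872)) (b (a (l 16782680) (l 16783776)) (l 16781344))) (a (l 16777328) (l 16778800))) (b (a (b (l 16785656) (l 16783208)) (a (l 16786312) (l 16787568))) (a (b (l 16781112) (l 16779416)) (b (l 16783256) (b (l 16781408) (l 16780448))))))))) (a (a (l 6) (b (l 6) (a (l 6) (b (l 6) (l 16736944))))) (a (b (b (a (l 6) (a (l 16770928) (l 16772440))) (a (l 16746872) (a (l 16746568) (l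 16769064)))) (a (b (l 16743488) (l 16758464)) (b (l 16764928) (l 16761576)))) (b (a (b (a (l 16773944) (l 16775424)) (a (l 16770568) (l 16772056))) (b (b (l 16778456) (l 16776776)) (l 16770296))) (a (b (l 16767952) (l 16763600)) (b (l 16799936) (l 16836632)))))))), by decide +kernel⟩

def k1_pp_022 : ∃ t, chk3 f_pp_022 t 16 17 1 = true :=
  ⟨(b (a (b (a (a (l 6) (b (l 6) (l 16721352))) (b (a (b (l 6) (l 16729656)) (l 16734512)) (a (l 16724552) (a (l 16721776) (l 16723400))))) (a (b (a (l 16712704) (l 16714704)) (a (l 16704752) (l 16702856))) (a (a (l 16718856) (l 16720536)) (b (l 16737040) (l 16802480))))) (a (b (a (b (b (l 16734136) (l 16730792)) (a (l 16725008) (l 16758112))) (b (a (l 16755784) (l 16761000)) (l 16767008))) (a (b (l 16805416) (l 16927872)) (b (l 16889360) (l 17052296)))) (b (a (b (b (l 16809880) (l 16858752)) (l 16830376)) (b (b (l 16876712) (l 16919320)) (l 16902632))) (a (b (l 16977240) (l 17145544)) (b (l 17079600) (l 17174024)))))) (a (a (b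 (a (b (l 16692888) (l 16686296)) (b (l 16696280) (l 16861192))) (a (a (l 16883376) (l 16960496)) (b (l 17025352) (l 17272832)))) (b (a (b (l 16842048) (l 16985416)) (b (l 16945880) (l 17161768))) (a (b (l 17217120) (l 17413072)) (l 17286856)))) (b (a (a (b (l 17106832) (l 17278600)) (l 17080304)) (a (l 17279264) (l 17314144))) (a (a (l 17459416) (l 17485072)) (l 17495088))))), by decide +kernel⟩

def k2_pp_022 : ∃ t, chk3 f_pp_022 t 17 32 1 = true :=
  ⟨(b (l 3) (a (b (l 3) (a (b (l 3) (a (b (l 3) (a (b (l 3) (a (b (a (a (a (l 6) (a (l 6) (l 290614941847))) (l 299741747783)) (l 3)) (a (a (l 16779872) (b (b (a (l 202568112583) (l 279877524151)) (a (l 16780144) (l 196662532567))) (l 16780016))) (a (b (l 302426101975) (b (a (l 191293823479) (l 279340653239)) (a (l 16780152) (l 185925114327)))) (l 299204876855)))) (l 3))) (l 3))) (l 3))) (l 3))) (l 3))), by decide +kernel⟩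

def k3_pp_022 : ∃ t, chk3 f_pp_022 t 136 132 1 = true :=
  ⟨(b (a (b (a (b (b (a (l 16779432) (b (b (a (l 16780088) (a (l 180019534263) (l 279340653223))) (c (l 59223578871) (l 58149836919))) (l 16779880))) (l 16779128)) (l 16783464)) (a (b (a (b (b (l 278266912071) (b (a (l 167134632391) (l 275582556839)) (a (l 16780152) (l 160692181447)))) (l 16779880)) (b (l 295446780455) (a (l 16780416) (b (b (l 265918880423) (l 147807279495)) (l 16780088))))) (l 16779128)) (b (b (l 3) (a (b (l 271824461191) (b (a (l 140827957559) (l 254644591255)) (a (l 16780160) (l 16780280)))) (l 289541200391))) (b (b (b (a (l 16780088) (a (l 16780280) (l 244980914839))) (l 16780096)) (l 16779880)) (l 16779432))))) (c (l 16779328) (l 16779264))) (b (b (l 3) (a (a (b (b (l 285783103991) (a (b (a (l 16780280) (l 234780367511)) (l 16780224)) (l 257328946615))) (a (l 16779880) (b (b (a (l 16780288) (l 224042949271)) (l 16780224)) (l 16780024)))) (b (l 3) (b (a (l 252497108391) (l 3)) (a (a (l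 16780224) (b (l 213305531047) (l 16780288))) (l 247128399351))))) (l 3))) (b (a (a (l 16779128) (a (l 16779576) (b (b (l 88751479367) (l 16780024)) (l 16779576)))) (b (a (b (b (l 301352360551) (a (l 225116691543) (l 3))) (a (l 81772157527) (b (l 279340653783) (l 217600498775)))) (l 3)) (a (c (l 38822484503) (l 16780640)) (b (b (l 300815489607) (a (a (l 170892729047) (l 276656298887)) (l 3))) (a (l 84993381591) (b (l 275582557383) (a (l 16780400) (l 266455751543)))))))) (a (l 16778216) (a (l 16779120) (l 16780704)))))) (a (b (l 16779800) (l 16782592)) (a (l 16778432) (a (l 16778688) (l 16779296))))), by decide +kernel⟩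

def k4_pp_022 : ∃ t, chk3 f_pp_022 t 137 132 1 = true :=
  ⟨(b (b (l 3) (b (l 3) (a (a (a (b (b (b (l 292225554983) (b (l 248202141431) (a (l 171429600103) (l 3)))) (b (a (l 16780520) (l 259476430071)) (a (l 16780224) (a (l 16780408) (l 243907173223))))) (l 16780008)) (b (l 3) (a (b (b (l 252497108279) (a (l 16780408) (l 232632884071))) (l 16780288)) (b (l 3) (b (l 244980915511) (a (l 16780408) (l 221358594919))))))) (a (c (l 298131136615) (l 300278620119)) (l 3))) (l 3)))) (b (b (a (a (l 16780720) (a (b (b (b (l 255181463463) (a (a (l 16780408) (l 209547434887)) (l 278803783175))) (b (a (l 16780352) (l 229948529943)) (l 69960997655))) (l 16780000)) (b (l 299741748519) (a (a (l 65666030359) (b (l 220821724439) (l 16780344))) (b (l 278266912551) (b (l 213305531671) (l 122574347095))))))) (a (a (a (l 298668007015) (l 3)) (l 3)) (l 3))) (a (l 16780760) (a (a (b (a (a (l 16780344) (b (l 202031242519) (l 16780336))) (b (l 273971945223) (b (l 195588791607) (l 16780464))))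 (l 16779984)) (b (l 292762426583) (b (a (b (l 186461986167) (l 16780464)) (l 262697656103)) (b (c (c (l 90362092487) (l 90362092407)) (l 88751479639)) (l 16780328))))) (a (b (l 3) (l 286856846503)) (l 3))))) (a (c (l 16778824) (l 16779544)) (a (l 16781392) (b (b (b (a (a (b (c (l 166060891319) (l 164450278439)) (l 16780456)) (l 251423366999)) (l 3)) (a (l 64055417863) (l 274508817751))) (a (l 16779960) (b (a (a (l 16780448) (l 142438571127)) (l 237464723335)) (l 16780384)))) (l 16779592)))))), by decide +kernel⟩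

def k5_pp_022 : ∃ t, chk3 f_pp_022 t 69 132 1 = true :=
  ⟨(b (l 3) (a (b (l 3) (a (b (b (l 3) (b (l 3) (a (a (a (l 231022272359) (l 3)) (l 3)) (l 3)))) (b (a (a (a (l 16780376) (b (l 224579821399) (l 83919641335))) (b (l 3) (b (l 292225555287) (a (l 193441308135) (l 3))))) (l 3)) (a (b (a (l 16780088) (b (a (l 16780552) (l 258402688631)) (l 95193930935))) (l 16780080)) (b (l 3) (b (l 288467459527) (a (a (l 172503342455) (l 3)) (l 3))))))) (l 3))) (l 3))), by decide +kernel⟩

def k6_pp_022 : ∃ t, chk3 f_pp_022 t 68 133 1 = true :=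
  ⟨(a (b (a (b (l 16790624) (l 16788168)) (b (l 16793048) (l 16771312))) (b (l 16769704) (l 16776312))) (b (b (a (l 16777568) (l 16781504)) (a (l 16781392) (l 16786072))) (a (l 16790864) (l 16780592)))), by decide +kernel⟩

def k7_pp_022 : ∃ t, chk3 f_pp_022 t 138 133 1 = true :=
  ⟨(b (a (b (a (l 16781536) (b (b (a (b (b (a (l 16780544) (l 241759690327)) (l 80161545047)) (l 16780344)) (b (l 301889232119) (b (l 253033980247) (a (l 149954764055) (l 278803783511))))) (b (b (a (l 16780128) (a (l 16780536) (l 224579821111))) (l 16780920)) (l 16780264))) (l 16781592))) (l 16786344)) (b (a (b (b (l 3) (a (b (l 301352361143) (b (l 242296561959) (a (l 16780640) (l 278266912535)))) (l 3))) (a (a (l 16780624) (a (l 16780344) (b (c (l 107541962071) (l 106468220087)) (l 16780664)))) (b (b (l 294373039223) (a (a (l 16780632) (l 192904437367)) (l 267529494583))) (a (l 16780368) (l 79624674679))))) (b (l 3) (b (l 3) (a (b (l 285783104567) (a (a (l 16780624) (l 170892729815)) (l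 255181463623))) (l 3))))) (a (l 16784184) (b (b (a (l 51707387111) (b (l 276656298999) (a (a (l 16780608) (l 147807280471)) (l 239612207207)))) (l 16781104)) (l 16783592))))) (a (l 16776472) (a (l 16785424) (l 16783424)))), by decide +kernel⟩

def k8_pp_022 : ∃ t, chk3 f_pp_022 t 139 133 1 = true :=
  ⟨(b (b (l 3) (a (a (a (b (b (l 3) (b (l 265382012407) (a (l 16780816) (l 227264176183)))) (l 16781544)) (b (l 3) (b (b (a (l 217600499751) (l 3)) (a (l 16780640) (l 210084306967))) (l 16781000)))) (b (l 3) (a (b (l 3) (b (a (l 202031243287) (l 278803784071)) (a (l 16780616) (l 193978179639)))) (l 300278620599)))) (l 3))) (a (a (l 16780744) (a (l 16780952) (b (b (b (b (a (a (l 149417893319) (l 227801046855)) (l 278803783991)) (c (l 102173253143) (l 100562640295))) (l 16781496)) (l 16784696)) (l 16792000)))) (a (b (a (b (b (l 300278619815) (b (b (l 239075336631) (a (l 16780760) (l 271824461751))) (l 88751480359))) (l 16782832)) (b (l 296520524055) (b (a (l 80161545751)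 (b (l 261623914759) (l 137606733447))) (l 16782048)))) (l 16789152)) (b (b (l 3) (b (l 291688685719) (a (a (l 87677736423) (b (l 247665271047) (l 116668767687))) (l 278803783079)))) (a (l 16780808) (a (l 16780496) (b (b (b (l 232096014551) (l 16780760)) (l 16782136)) (l 16785944)))))))), by decide +kernel⟩

def k9_pp_022 : ∃ t, chk3 f_pp_022 t 34 67 1 = true :=
  ⟨(a (b (a (b (a (l 16781224) (l 16798368)) (l 16773168)) (b (a (l 16809400) (l 16815368)) (l 16784560))) (a (b (l 16823584) (l 16856928)) (b (l 16844272) (l 16896832)))) (b (a (b (a (l 16817144) (l 16794488)) (a (l 16841448) (l 16840112))) (b (a (l 16789928) (c (l 16785440) (l 16777952))) (a (l 16836000) (l 16829576)))) (a (b (l 16869160) (l 16899984)) (b (l 16861336) (l 16891976))))), by decide +kernel⟩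

def k10_pp_022 : ∃ t, chk3 f_pp_022 t 35 66 1 = true :=
  ⟨(b (l 3) (a (b (l 3) (a (b (l 3) (a (a (a (b (b (l 271287592855) (b (a (l 16780816) (l 213842403495)) (l 16781248))) (l 16784256)) (a (b (b (l 3) (l 235317240695)) (l 16779952)) (b (l 3) (b (l 114521284471) (l 16782720))))) (b (l 3) (b (b (l 301352362135) (a (a (l 187535728759) (l 278803784183)) (l 3))) (b (a (l 102710123847) (l 300815490471)) (a (l 16781712) (a (l 168208375815) (l 275045687719))))))) (l 3))) (l 3))) (l 3))), by decide +kernel⟩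

def k11_pp_022 : ∃ t, chk3 f_pp_022 t 70 67 1 = true :=
  ⟨(b (a (b (b (a (a (l 16791520) (a (l 16787896) (a (l 16780776) (b (l 54928613191) (l 16787720))))) (a (b (b (b (l 294909910999) (a (a (l 147270410039) (l 260013302183)) (l 3))) (a (l 16781632) (b (l 279877524711) (a (l 124721831511) (l 244444045655))))) (l 16781872)) (b (l 3) (b (b (l 279877525255) (a (a (l 16781008) (l 225116692759)) (l 3))) (a (l 16780832) (b (l 239612208103) (a (l 16781168) (l 207399952631)))))))) (a (l 16801384) (l 16780976))) (a (l 16800272) (l 16790360))) (b (b (l 3) (b (a (a (b (a (b (l 227801047943) (l 123111217415)) (l 302426103655)) (b (a (l 16782032) (l 215453016903)) (l 60834193159))) (l 300815492167)) (l 3)) (a (a (l 16780752) (a (a (l 54928613111) (b (b (l 265918882295) (l 145122926407)) (l 16782680))) (b (l 288467459719) (b (a (l 16781016) (l 249275883927)) (l 86603996535))))) (a (l 292762433511) (l 3))))) (b (a (l 16782672) (a (b (a (b (a (l 16780392) (b (l 232096014663)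 (l 16781240))) (l 16784024)) (b (l 270750719399) (c (l 98415157207) (l 97341415255)))) (l 16782352)) (b (c (l 283098756951) (l 285246240407)) (b (a (l 86067126183) (l 250349629783)) (l 52781129527))))) (l 16782992)))) (a (b (l 16824344) (l 16876120)) (b (a (l 16829480) (l 16796608)) (l 16854792)))), by decide +kernel⟩

def k12_pp_022 : ∃ t, chk3 f_pp_022 t 71 67 1 = true :=
  ⟨(b (b (l 3) (a (b (a (b (l 3) (b (l 3) (b (l 302426105143) (a (a (l 202568114983) (l 3)) (l 3))))) (l 3)) (a (b (a (b (a (l 68887255031) (a (a (l 170892730727) (l 217600500215)) (l 277730041095))) (l 16781312)) (b (l 3) (b (l 280951267111) (a (a (l 16781296) (l 229411660103)) (l 3))))) (b (a (l 16787456) (a (l 16780160) (a (a (l 131701153703) (l 183777632583)) (l 237464724439)))) (l 16782624))) (b (l 3) (b (l 3) (a (a (a (a (l 16781104) (l 163376537863)) (l 224042951543)) (l 303499845431)) (l 3)))))) (l 3))) (a (b (b (a (l 16786720) (a (a (l 16783680) (b (a (l 62444806007) (b (l 210084307751)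 (l 16783040))) (l 16789352))) (a (b (b (l 294373039799) (c (l 130090541463) (l 128479928471))) (l 16780768)) (b (l 291688685799) (b (l 116131897559) (l 16784560)))))) (l 16785000)) (a (l 16836280) (l 16802088))) (b (b (a (b (l 3) (b (l 294373046679) (a (a (l 102710124583) (l 263771397415)) (l 3)))) (l 3)) (a (b (b (a (l 64592289735) (l 268066370423)) (a (l 16787024) (a (l 85530253127) (l 239612211367)))) (l 29695680279)) (a (b (l 3) (b (a (l 224579825703) (l 3)) (a (l 16780216) (c (l 185388244039) (l 182703889559))))) (l 3)))) (b (a (l 16780288) (a (l 16780224) (b (b (a (l 164987149959) (l 3)) (a (l 16783584) (l 149954764679))) (l 16782384)))) (l 16789432))))), by decide +kernel⟩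

def k13_pp_022 : ∃ t, chk3 f_pp_022 t 17 17 1 = true :=
  ⟨(b (b (a (a (b (a (l 16807528) (l 16886056)) (a (l 16993104) (l 17024496))) (b (a (l 16929296) (l 16941336)) (a (l 17022504) (l 17011528)))) (a (b (a (l 16925136) (l 16882840)) (l 16962600)) (a (b (l 16816040) (l 16946880)) (b (b (l 16814112) (l 16868544)) (l 16919520))))) (a (a (a (l 16953584) (l 17102512)) (b (l 17092240) (l 17167928))) (a (b (l 17054248) (l 17125752)) (b (l 17002416) (l 17071656))))) (a (b (a (l 17312040) (l 17281432)) (a (l 17473640) (l 17428744))) (b (a (l 17232600) (l 17174560)) (l 17339952)))), by decide +kernel⟩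

def k14_pp_022 : ∃ t, chk3 f_pp_022 t 9 16 1 = true :=
  ⟨(a (b (l 3) (b (l 3) (a (b (l 3) (a (b (l 3) (a (b (a (a (b (l 302962975671) (b (a (l 135459250183) (l 288467459543)) (b (l 102710124743) (l 16781016)))) (l 299204885639)) (l 3)) (a (a (l 16782056) (b (a (l 74255966199) (b (l 265382010023) (l 97878284311))) (l 16778920))) (b (l 291688692359) (a (a (l 16781496) (b (l 239612211191) (l 81235287159))) (l 257328952407))))) (l 3))) (l 3))) (l 3)))) (l 3)), by decide +kernel⟩

def k15_pp_022 : ∃ t, chk3 f_pp_022 t 36 34 1 = true :=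
  ⟨(b (b (a (b (a (b (a (l 16784368) (a (l 16783936) (a (l 16781112) (b (b (l 209010567527) (l 16783456)) (l 16789432))))) (l 16793728)) (b (a (b (b (l 3) (a (a (l 162839665543) (l 3)) (l 3))) (a (b (b (l 122574348599) (l 70497867095)) (l 16780824)) (b (l 3) (b (l 245517796535) (l 156934087287))))) (l 3)) (a (a (l 16785864) (a (l 16780360) (b (l 79087804295) (l 16791328)))) (a (b (b (l 282561879639) (b (l 190756953703) (l 130090541367))) (l 16780968)) (a (b (l 3) (a (l 115595026615) (l 167671505687))) (l 271287601927)))))) (a (l 16818920) (a (l 16796880) (a (l 16785768) (l 16780976))))) (b (l 3) (a (b (a (b (a (b (l 226727309319) (a (l 16783512) (l 198810020247))) (l 3)) (a (l 16782528) (b (l 199346889847) (l 90362093447)))) (l 305647342583)) (a (l 16786136) (b (a (b (a (l 133848634599) (l 264845138631)) (l 66739772823)) (l 281488137991)) (a (l 16779256) (a (l 16781712) (a (l 109689446215) (l 161229054343))))))) (b (l 3) (a (l 286856859831) (l 3)))))) (a (b (a (l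 16873776) (l 16823352)) (l 16872192)) (a (b (l 16783096) (l 16848488)) (b (b (a (a (a (l 16784184) (a (l 52781129063) (b (l 131164282855) (l 16789024)))) (a (b (l 210621178839) (l 16781064)) (b (l 3) (l 89825222055)))) (a (a (b (l 3) (l 184314505159)) (l 294909911527)) (l 3))) (a (b (l 16786016) (l 16804944)) (a (l 42043710519) (b (b (l 270213847815) (l 142975443015)) (l 16781328))))) (b (l 16789248) (l 16827128)))))) (b (a (l 16923336) (b (l 16825464) (l 16901120))) (a (l 17012224) (l 16951328)))), by decide +kernel⟩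

def k16_pp_022 : ∃ t, chk3 f_pp_022 t 37 34 1 = true :=
  ⟨(b (b (l 3) (a (b (a (b (l 3) (a (a (b (l 3) (b (l 230485399943) (l 117205638983))) (l 3)) (l 3))) (l 3)) (a (b (a (a (l 16781296) (b (a (l 100562640487) (l 196662534807)) (l 16783416))) (a (b (l 3) (a (l 77477191015) (l 163376538231))) (l 294373041063))) (b (a (l 16800704) (a (l 16779232) (a (l 67276642615) (l 138680475959)))) (l 16780776))) (b (l 3) (a (a (b (l 253033979079) (a (l 16780184) (l 112373800839))) (l 263771408903)) (l 3))))) (l 3))) (b (a (b (a (b (a (l 16821744) (l 16786016)) (l 16831136)) (b (b (a (a (l 16781376) (l 69424127687)) (c (l 246591539319) (l 248202151847))) (a (l 16786080) (a (l 16780584) (l 191830699495)))) (a (l 16788104) (l 16781480)))) (a (l 16856232) (b (l 16797472) (l 16835040)))) (b (a (b (l 3) (a (b (a (a (l 121500606743) (l 213842401847)) (l 3)) (a (l 16782776) (c (l 142438573223) (l 141364831191)))) (l 3))) (l 3)) (a (b (a (l 16786296) (b (a (l 122037478279) (l 273435074151))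 (a (l 16779768) (l 96804544983)))) (l 16785136)) (b (l 300815505975) (a (b (a (l 76403450055) (l 218137369527)) (l 16781184)) (l 258939571575)))))) (a (b (l 16853624) (l 16907472)) (b (b (a (l 16801568) (a (l 16780240) (b (a (l 16781536) (l 166060894007)) (l 16780856)))) (c (l 16785192) (l 16780088))) (a (l 16863320) (l 16813720)))))), by decide +kernel⟩

def k17_pp_022 : ∃ t, chk3 f_pp_022 t 18 35 1 = true :=
  ⟨(a (b (a (l 17112616) (l 17049944)) (l 17209184)) (b (a (l 16946336) (b (l 16855080) (l 16959872))) (l 17039712))), by decide +kernel⟩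

def k18_pp_022 : ∃ t, chk3 f_pp_022 t 19 17 1 = true :=
  ⟨(b (b (l 3) (a (b (l 3) (a (b (a (b (a (b (l 3) (a (l 143512315319) (l 3))) (l 3)) (a (b (c (l 86067127367) (l 83919643639)) (l 16783176)) (a (a (l 147807283527) (l 206326214871)) (l 276119450887)))) (l 3)) (a (b (a (l 16784720) (l 16781560)) (l 16793824)) (b (a (b (l 246591529159) (l 125258705351)) (l 3)) (a (l 16783920) (b (l 214379284151) (l 93583320599)))))) (l 3))) (l 3))) (a (b (b (a (b (a (l 16817664) (l 16790336)) (l 16814304)) (b (a (b (a (b (l 178408927399) (l 16782352)) (l 271824463735)) (a (l 16778192) (b (l 129553672983) (l 16779552)))) (l 289004358343)) (a (b (a (l 16814680) (l 16780584)) (l 16823504)) (b (a (l 74255968167) (l 221358617239)) (l 16781824))))) (a (l 16881624) (c (l 16788488) (l 16782512)))) (a (l 16992632) (l 16874264))) (b (b (a (b (l 3) (a (l 263771428839) (l 3))) (l 3)) (a (b (a (b (a (l 16783256) (l 157470962439)) (l 16781480)) (b (l 3) (a (l 131164286839) (l 278803785655))))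 (a (l 16803800) (b (l 69961001975) (l 16786384)))) (b (l 3) (a (b (l 268603239671) (a (l 16784168) (l 210621177911))) (l 3))))) (b (a (b (a (l 16854224) (l 16808256)) (l 16870592)) (b (a (l 16784088) (b (l 228337940199) (l 97341420215))) (l 16800784))) (a (l 16913296) (l 16821896)))))), by decide +kernel⟩

def k19_pp_022 : ∃ t, chk3 f_pp_022 t 4 9 1 = true :=
  ⟨(a (b (b (a (a (b (a (a (b (l 17286896) (l 17548720)) (l 17452648)) (a (l 17619704) (l 17657000))) (a (a (l 17780888) (l 17829864)) (l 17863992))) (a (b (l 17679136) (l 17860480)) (l 17746600))) (a (b (l 17598384) (l 17733376)) (l 17530680))) (a (a (a (l 18150480) (l 18140296)) (l 18064656)) (a (l 17916544) (l 17757256)))) (a (a (b (l 18463960) (l 18708200)) (l 18421408)) (b (l 18042392) (l 18224672)))) (b (a (b (a (l 17388920) (l 17233744)) (l 17489360)) (b (a (b (l 17078016) (l 17185072)) (b (l 16886456) (l 17074472))) (a (l 17333968) (l 17219608)))) (a (b (l 17715720) (l 17880024)) (b (l 17451088) (l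 17606176))))), by decide +kernel⟩

def k20_pp_022 : ∃ t, chk3 f_pp_022 t 4 5 1 = true :=
  ⟨(b (b (b (a (a (l 18804952) (l 18397840)) (a (l 18033784) (l 17747560))) (a (a (l 18980440) (l 18578520)) (b (l 17998592) (b (l 18070800) (l 18131160))))) (a (a (l 19176984) (l 18773968)) (l 18258528))) (a (l 19165360) (l 18436584))), by decide +kernel⟩

def k21_pp_022 : ∃ t, chk3 f_pp_022 t 5 2 1 = true :=
  ⟨(b (b (a (b (l 3) (b (l 3) (a (b (l 3) (a (b (a (b (l 316384780935) (a (b (l 171429611703) (l 16783800)) (l 275582584583))) (l 3)) (a (b (a (l 16794048) (l 94120196055)) (a (l 16842464) (l 16798976))) (b (l 275582586871) (a (l 16787760) (l 207936845095))))) (l 3))) (l 3)))) (l 3)) (b (a (b (a (b (a (b (a (l 16850480) (l 16785336)) (l 16838192)) (b (b (l 271824536519) (a (a (l 16787968) (l 118279388935)) (l 290614973591))) (b (a (l 16803312) (a (l 16784264) (l 219747985111))) (l 16784080)))) (a (l 16934624) (b (a (l 16886488) (l 16804408)) (l 16914008)))) (b (a (a (l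 301889295847) (l 3)) (l 3)) (a (b (a (b (l 101099520855) (l 16799600)) (l 223506124919)) (l 16784976)) (b (l 3) (a (b (l 222969232439) (l 16786920)) (l 309942331031)))))) (a (a (l 17118088) (l 16923336)) (b (b (a (l 16840816) (a (l 16809496) (l 114521298631))) (l 16786096)) (a (l 16990984) (l 16898624))))) (b (l 3) (a (b (a (b (a (l 266992651111) (l 3)) (a (l 16810200) (l 193978202247))) (b (l 3) (l 338396499127))) (a (l 16814376) (b (a (l 130627427271) (l 276119457255)) (l 16798584)))) (b (l 3) (a (b (l 3) (a (l 195588815095) (l 3))) (l 3)))))) (a (b (a (l 17240328) (b (l 17034744) (l 17111064))) (a (l 17390416) (l 17218248))) (b (a (a (l 17076376) (b (l 16938968) (l 16948312))) (b (a (b (l 109689463543) (l 16800456)) (b (a (l 267529499591) (l 3)) (l 139754240727))) (l 16807768))) (a (l 17080448) (l 17074632)))))) (b (b (b (a (l 17431456) (l 17271928)) (b (a (l 17524232) (l 17230824)) (a (b (l 17571560) (b (l 17603368) (l 17631488))) (b (l 17270216) (b (l 17288976)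 (l 17302984)))))) (a (l 17731672) (l 17401264))) (a (l 17948792) (l 17628336)))), by decide +kernel⟩

def k22_pp_022 : ∃ t, chk3 f_pp_022 t 2 3 1 = true :=
  ⟨(a (b (a (b (l 19210536) (l 19162736)) (l 18864280)) (a (l 19066816) (l 18650816))) (b (b (l 18167648) (l 18109584)) (a (l 18336112) (l 2)))), by decide +kernel⟩

def k23_pp_022 : ∃ t, chk3 f_pp_022 t 3 1 1 = true :=
  ⟨(b (b (b (l 3) (a (b (l 3) (a (b (a (b (l 375440605175) (a (l 132774926055) (b (l 3) (l 194515076647)))) (l 3)) (a (a (l 16985000) (l 16793032)) (b (a (l 164987186327) (l 315847888631)) (l 16795872)))) (b (l 3) (a (b (l 3) (a (l 175187733799) (l 313163532231))) (l 3))))) (l 3))) (a (b (b (b (a (a (l 16998152) (l 16880264)) (a (b (l 16833504) (l 16886184)) (b (l 240686019095) (l 16835256)))) (b (a (l 17038312) (l 16909504)) (b (a (l 17075480) (l 16944448)) (a (b (l 17092968) (l 17104328)) (b (l 16960624) (l 16971064)))))) (a (l 17196608) (b (l 17017144) (l 17094016)))) (a (l 17414920) (l 17261952)))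 (b (b (b (b (b (l 3) (l 2)) (l 2)) (l 2)) (l 2)) (l 2)))) (a (b (b (l 17544376) (l 2)) (l 2)) (l 2))), by decide +kernel⟩

theorem s24_pp_022 : ∃ t, chk3 f_pp_022 t 18 34 1 = true := ex3_a k15_pp_022 k16_pp_022

theorem s25_pp_022 : ∃ t, chk3 f_pp_022 t 18 17 1 = true := ex3_b s24_pp_022 k17_pp_022

theorem s26_pp_022 : ∃ t, chk3 f_pp_022 t 9 17 1 = true := ex3_a s25_pp_022 k18_pp_022

theorem s27_pp_022 : ∃ t, chk3 f_pp_022 t 9 8 1 = true := ex3_b k14_pp_022 s26_pp_022

theorem s28_pp_022 : ∃ t, chk3 f_pp_022 t 35 67 1 = true := ex3_a k11_pp_022 k12_pp_022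

theorem s29_pp_022 : ∃ t, chk3 f_pp_022 t 35 33 1 = true := ex3_b k10_pp_022 s28_pp_022

theorem s30_pp_022 : ∃ t, chk3 f_pp_022 t 69 133 1 = true := ex3_a k7_pp_022 k8_pp_022

theorem s31_pp_022 : ∃ t, chk3 f_pp_022 t 34 133 1 = true := ex3_a k6_pp_022 s30_pp_022

theorem s32_pp_022 : ∃ t, chk3 f_pp_022 t 68 132 1 = true := ex3_a k3_pp_022 k4_pp_022

theorem s33_pp_022 : ∃ t, chk3 f_pp_022 t 34 132 1 = true := ex3_a s32_pp_022 k5_pp_022

theorem s34_pp_022 : ∃ t, chk3 f_pp_022 t 34 66 1 = true := ex3_b s33_pp_022 s31_pp_022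

theorem s35_pp_022 : ∃ t, chk3 f_pp_022 t 34 33 1 = true := ex3_b s34_pp_022 k9_pp_022

theorem s36_pp_022 : ∃ t, chk3 f_pp_022 t 17 33 1 = true := ex3_a s35_pp_022 s29_pp_022

theorem s37_pp_022 : ∃ t, chk3 f_pp_022 t 17 16 1 = true := ex3_b k2_pp_022 s36_pp_022

theorem s38_pp_022 : ∃ t, chk3 f_pp_022 t 17 8 1 = true := ex3_b s37_pp_022 k13_pp_022

theorem s39_pp_022 : ∃ t, chk3 f_pp_022 t 16 8 1 = true := ex3_b k0_pp_022 k1_pp_022

theorem s40_pp_022 : ∃ t, chk3 f_pp_022 t 8 8 1 = true := ex3_a s39_pp_022 s38_pp_022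

theorem s41_pp_022 : ∃ t, chk3 f_pp_022 t 4 8 1 = true := ex3_a s40_pp_022 s27_pp_022

theorem s42_pp_022 : ∃ t, chk3 f_pp_022 t 4 4 1 = true := ex3_b s41_pp_022 k19_pp_022

theorem s43_pp_022 : ∃ t, chk3 f_pp_022 t 4 2 1 = true := ex3_b s42_pp_022 k20_pp_022

theorem s44_pp_022 : ∃ t, chk3 f_pp_022 t 2 2 1 = true := ex3_a s43_pp_022 k21_pp_022

theorem s45_pp_022 : ∃ t, chk3 f_pp_022 t 2 1 1 = true := ex3_b s44_pp_022 k22_pp_022

theorem s46_pp_022 : ∃ t, chk3 f_pp_022 t 1 1 1 = true := ex3_a s45_pp_022 k23_pp_022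

theorem c_pp_022 : CertN 0 536870912 1073741824 536870912 50331648 16777216 3 false true true .pp 0 2 2
    ndN0q0 ndN4q2 pcN2 cut_pp_022 Ext.none :=
  certNK1 (fam := false) (s1 := true) (s2 := true) (a := 0) (b := 2) (c := 2) (cn := .pp) (n1 := ndN0q0) (n2 := ndN4q2) (pc := pcN2) (cut := cut_pp_022) (xt := Ext.none) (P1 := 0) (W1 := 536870912) (P2 := 1073741824) (W2 := 536870912) (P3 := 50331648) (W3 := 16777216) (N0 := 3)
    rfl rfl rfl (fun _ => rfl) s46_pp_022

noncomputable def f_pp_023 : ℕ → ℕ → ℕ → ℕ → Bool := onCell 1073741824 536870912 0 1230186008 50331648 16777216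
    (rowNK 3 2 false true true .up 0 2 3 (qsf 0 536870912 0 1230186008 2) ndN0q0 ndN4q3 pcN2 Cut.none Ext.none)

def k0_pp_023 : ∃ t, chk3 f_pp_023 t 1 1 1 = true :=
  ⟨(a (b (l 2) (b (a (l 2) (a (l 2) (b (l 2) (l 383427254679)))) (a (b (l 2) (l 3)) (a (b (b (a (l 2) (l 387184852999)) (a (a (l 3) (a (l 3) (a (l 267529630983) (a (l 16839968) (l 16806976))))) (a (l 16847576) (l 16919664)))) (a (a (b (l 3) (b (a (l 3) (l 303499896455)) (a (l 341080861095) (l 196125797927)))) (a (b (b (l 308868602663) (l 260550328999)) (b (l 156934241831) (l 16864432))) (b (a (l 16900304) (a (l 16853736) (l 16843304))) (a (l 16903872) (a (l 16902992) (l 16915568)))))) (b (a (l 16891048) (l 16976312)) (b (l 16994816) (l 17051688))))) (b (a (l 17116344) (l 17146944)) (b (l 17250568) (l 17384456))))))) (b (a (l 2) (b (l 17652680) (a (l 356584741415) (l 17519488)))) (b (a (b (a (l 2) (l 17305712)) (a (l 17233128) (l 17448864))) (b (b (l 17131480) (l 17534696)) (b (l 17737896) (l 17808168))))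 (b (a (a (l 17349432) (l 17616768)) (l 17999728)) (a (a (l 17738992) (l 17961064)) (l 18458544)))))), by decide +kernel⟩

theorem c_pp_023 : CertN 0 536870912 0 1230186008 50331648 16777216 3 false true true .up 0 2 3
    ndN0q0 ndN4q3 pcN2 Cut.none Ext.none :=
  certNK2 (fam := false) (s1 := true) (s2 := true) (a := 0) (b := 2) (c := 3) (cn := .up) (n1 := ndN0q0) (n2 := ndN4q3) (pc := pcN2) (cut := Cut.none) (xt := Ext.none) (P1 := 0) (W1 := 536870912) (P2 := 0) (W2 := 1230186008) (P3 := 50331648) (W3 := 16777216) (N0 := 3)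
    rfl rfl rfl (fun _ => rfl) k0_pp_023

noncomputable def f_pp_033 : ℕ → ℕ → ℕ → ℕ → Bool := onCell 1610612736 536870912 0 1230186008 50331648 16777216
    (rowNK 3 2 false true true .pnn 0 3 3 (qsf 0 536870912 0 1230186008 3) ndN0q0 ndN4q3 pcN3 Cut.none Ext.none)

def k0_pp_033 : ∃ t, chk3 f_pp_033 t 1 1 1 = true :=
  ⟨(a (b (a (b (b (a (l 18073248) (l 17226432)) (a (l 19024976) (l 18377280))) (b (a (l 18493368) (l 18640000)) (a (l 17233600) (l 17689312)))) (b (a (b (l 17169240) (l 17473264)) (b (l 17671216) (l 17080632))) (b (a (l 18284952) (l 17517096)) (a (l 17967848) (l 17805672))))) (b (a (b (a (l 17538968) (l 17372496)) (l 17917376)) (b (a (l 17138024) (l 17260504)) (a (l 18013744) (l 17939024)))) (b (l 18678768) (a (l 19129936) (b (l 19368136) (l 1)))))) (b (a (b (a (l 17267224) (l 17492544)) (a (b (l 17187112) (l 17334920)) (l 17533808))) (a (l 17859176) (a (l 18127728) (b (l 4) (l 4))))) (b (a (b (a (l 17218736) (b (l 17302256) (l 17396344))) (a (l 17977024)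 (b (l 17540184) (l 1)))) (a (b (b (l 18025760) (l 1)) (l 1)) (l 1))) (l 1)))), by decide +kernel⟩

theorem c_pp_033 : CertN 0 536870912 0 1230186008 50331648 16777216 3 false true true .pnn 0 3 3
    ndN0q0 ndN4q3 pcN3 Cut.none Ext.none :=
  certNK2 (fam := false) (s1 := true) (s2 := true) (a := 0) (b := 3) (c := 3) (cn := .pnn) (n1 := ndN0q0) (n2 := ndN4q3) (pc := pcN3) (cut := Cut.none) (xt := Ext.none) (P1 := 0) (W1 := 536870912) (P2 := 0) (W2 := 1230186008) (P3 := 50331648) (W3 := 16777216) (N0 := 3)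
    rfl rfl rfl (fun _ => rfl) k0_pp_033

noncomputable def f_pp_101 : ℕ → ℕ → ℕ → ℕ → Bool := onCell 536870912 536870912 536870912 536870912 50331648 16777216
    (rowNK 3 0 false true true .npn 1 0 1 (qsf 536870912 536870912 536870912 536870912 0) ndN0q1 ndN4q1 pcN0 Cut.none Ext.none)

def k0_pp_101 : ∃ t, chk3 f_pp_101 t 1 1 1 = true :=
  ⟨(a (l 3) (l 5)), by decide +kernel⟩

theorem c_pp_101 : CertN 536870912 536870912 536870912 536870912 50331648 16777216 3 false true true .npn 1 0 1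
    ndN0q1 ndN4q1 pcN0 Cut.none Ext.none :=
  certNK0 (fam := false) (s1 := true) (s2 := true) (a := 1) (b := 0) (c := 1) (cn := .npn) (n1 := ndN0q1) (n2 := ndN4q1) (pc := pcN0) (cut := Cut.none) (xt := Ext.none) (P1 := 536870912) (W1 := 536870912) (P2 := 536870912) (W2 := 536870912) (P3 := 50331648) (W3 := 16777216) (N0 := 3)
    rfl rfl rfl k0_pp_101

noncomputable def f_pp_102 : ℕ → ℕ → ℕ → ℕ → Bool := onCell 536870912 536870912 1073741824 536870912 50331648 16777216
    (rowNK 3 0 false true true .npp 1 0 2 (qsf 536870912 536870912 1073741824 536870912 0) ndN0q1 ndN4q2 pcN0 Cut.none Ext.none)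

def k0_pp_102 : ∃ t, chk3 f_pp_102 t 1 1 1 = true :=
  ⟨(a (l 3) (b (l 5) (l 3))), by decide +kernel⟩

theorem c_pp_102 : CertN 536870912 536870912 1073741824 536870912 50331648 16777216 3 false true true .npp 1 0 2
    ndN0q1 ndN4q2 pcN0 Cut.none Ext.none :=
  certNK0 (fam := false) (s1 := true) (s2 := true) (a := 1) (b := 0) (c := 2) (cn := .npp) (n1 := ndN0q1) (n2 := ndN4q2) (pc := pcN0) (cut := Cut.none) (xt := Ext.none) (P1 := 536870912) (W1 := 536870912) (P2 := 1073741824) (W2 := 536870912) (P3 := 50331648) (W3 := 16777216) (N0 := 3)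
    rfl rfl rfl k0_pp_102

noncomputable def f_pp_112 : ℕ → ℕ → ℕ → ℕ → Bool := onCell 536870912 536870912 1073741824 536870912 50331648 16777216
    (rowNK 3 0 false true true .dn 1 1 2 (qsf 536870912 536870912 1073741824 536870912 1) ndN0q1 ndN4q2 pcN1 Cut.none Ext.none)

def k0_pp_112 : ∃ t, chk3 f_pp_112 t 1 1 1 = true :=
  ⟨(a (l 3) (b (l 5) (l 3))), by decide +kernel⟩

theorem c_pp_112 : CertN 536870912 536870912 1073741824 536870912 50331648 16777216 3 false true true .dn 1 1 2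
    ndN0q1 ndN4q2 pcN1 Cut.none Ext.none :=
  certNK0 (fam := false) (s1 := true) (s2 := true) (a := 1) (b := 1) (c := 2) (cn := .dn) (n1 := ndN0q1) (n2 := ndN4q2) (pc := pcN1) (cut := Cut.none) (xt := Ext.none) (P1 := 536870912) (W1 := 536870912) (P2 := 1073741824) (W2 := 536870912) (P3 := 50331648) (W3 := 16777216) (N0 := 3)
    rfl rfl rfl k0_pp_112

noncomputable def cut_pp_113 : Cut := Cut.of [[⟨0, 1, 0, 14341072⟩, ⟨1, 1, 0, 14341072⟩, ⟨2, 2, 0, 761489⟩]]

noncomputable def f_pp_113 : ℕ → ℕ → ℕ → ℕ → Bool := onCell 536870912 536870912 0 1230186008 50331648 16777216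
    (rowNK 3 2 false true true .nn 1 1 3 (qsf 536870912 536870912 0 1230186008 1) ndN0q1 ndN4q3 pcN1 cut_pp_113 Ext.none)

def k0_pp_113 : ∃ t, chk3 f_pp_113 t 1 1 1 = true :=
  ⟨(b (a (l 2) (a (l 2) (b (a (l 2) (b (a (l 2) (b (a (l 2) (b (a (l 2) (l 6)) (l 3))) (l 3))) (l 3))) (l 3)))) (b (a (a (l 2) (b (l 2) (a (l 2) (l 3)))) (a (l 3) (l 3))) (a (a (b (l 2) (l 3)) (l 3)) (l 3)))), by decide +kernel⟩

theorem c_pp_113 : CertN 536870912 536870912 0 1230186008 50331648 16777216 3 false true true .nn 1 1 3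
    ndN0q1 ndN4q3 pcN1 cut_pp_113 Ext.none :=
  certNK2 (fam := false) (s1 := true) (s2 := true) (a := 1) (b := 1) (c := 3) (cn := .nn) (n1 := ndN0q1) (n2 := ndN4q3) (pc := pcN1) (cut := cut_pp_113) (xt := Ext.none) (P1 := 536870912) (W1 := 536870912) (P2 := 0) (W2 := 1230186008) (P3 := 50331648) (W3 := 16777216) (N0 := 3)
    rfl rfl rfl (fun _ => rfl) k0_pp_113

noncomputable def cut_pp_123 : Cut := Cut.of [[⟨0, 1, 0, 14341072⟩, ⟨1, 1, 0, 14341072⟩, ⟨2, 2, 0, 761489⟩]]

noncomputable def f_pp_123 : ℕ → ℕ → ℕ → ℕ → Bool := onCell 1073741824 536870912 0 1230186008 50331648 16777216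
    (rowNK 3 2 false true true .npn 1 2 3 (qsf 536870912 536870912 0 1230186008 2) ndN0q1 ndN4q3 pcN2 cut_pp_123 Ext.none)

def k0_pp_123 : ∃ t, chk3 f_pp_123 t 8 16 1 = true :=
  ⟨(a (a (b (a (l 6) (a (l 6) (a (a (l 6) (l 16809448)) (l 16790688)))) (a (l 3) (b (a (b (l 6) (l 3)) (b (a (b (a (l 6) (b (l 16778688) (a (l 273435071703) (l 16778056)))) (a (l 3) (b (a (l 315847871703) (a (b (l 287930583991) (l 3)) (a (l 286319971319) (l 273435071687)))) (l 3)))) (b (l 16780216) (a (b (a (l 256792071751) (l 16778416)) (b (l 276656297159) (a (l 3) (l 284172487575)))) (l 16778936)))) (a (l 3) (b (a (b (a (l 3) (l 315311000567)) (l 3)) (b (l 273435071767) (a (l 3) (b (c (l 294373035271) (l 295446777127)) (l 3))))) (l 3))))) (l 3)))) (a (b (l 16796032) (b (a (b (l 16804032) (a (b (a (b (l 16778824) (a (l 267529492007) (l 16778184))) (l 16779704)) (a (b (a (b (l 313163515671) (l 3)) (a (b (l 275045684359) (l 3)) (l 271824459031))) (l 3)) (a (l 276656297223) (b (l 16778568)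 (l 263771395815))))) (l 16780800))) (l 16788864)) (a (b (a (b (a (l 3) (b (a (l 3) (b (l 312089773559) (l 3))) (l 3))) (l 3)) (b (a (a (b (l 278803780935) (l 3)) (l 273971942631)) (b (l 16779008) (a (l 260013299671) (l 16778368)))) (a (l 3) (b (a (b (l 308868550407) (l 3)) (l 273971942583)) (l 317458485879))))) (l 3)) (b (a (b (l 16780608) (a (b (l 16778424) (l 275582560519)) (l 16779328))) (l 16782480)) (a (b (a (b (a (l 3) (b (l 299204876263) (l 3))) (l 3)) (a (b (l 269140104663) (l 316384742247)) (l 267529492247))) (l 3)) (b (a (l 272898202775) (l 16780168)) (a (b (l 282025006711) (l 315847872295)) (b (l 16778672) (l 266455750423))))))))) (b (l 16893656) (a (b (l 16796672) (l 16814040)) (l 16837992))))) (a (l 17045608) (l 16806368))), by decide +kernel⟩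

def k1_pp_123 : ∃ t, chk3 f_pp_123 t 8 17 1 = true :=
  ⟨(a (a (l 3) (b (a (b (a (l 3) (b (a (l 3) (b (a (l 3) (b (a (l 3) (l 295983650967)) (l 3))) (l 3))) (l 3))) (l 3)) (b (a (b (a (b (a (l 272898203543) (l 16779032)) (a (l 318532229431) (b (l 271824464359) (a (l 3) (l 306184198791))))) (b (l 16781208) (a (b (l 16778968) (l 256792072103)) (l 16779920)))) (a (l 3) (b (b (l 272361332727) (a (l 3) (l 276656302423))) (a (l 3) (b (l 315311000887) (l 3)))))) (b (l 16784688) (a (b (l 16780104) (a (l 279877528295) (l 272898203079))) (l 16782088)))) (a (l 3) (b (a (b (a (l 3) (b (l 282025011863) (l 316921614023))) (l 3)) (a (a (b (l 261087041799) (l 3)) (l 275045689575)) (b (l 16779768) (l 270213851911)))) (a (l 3) (b (l 319605973623) (l 3))))))) (l 3))) (a (b (a (b (l 16896248) (a (b (a (l 16781024) (l 16784112)) (a (a (b (l 285246232679) (l 3)) (l 275582560503)) (b (l 16780992) (a (l 259476429559) (l 16779704))))) (l 16786824))) (l 16844968)) (a (b (a (b (a (l 3) (b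 (a (l 316384743815) (l 272898206199)) (l 3))) (l 3)) (b (a (b (l 271824464855) (l 271287593799)) (l 16782080)) (a (b (a (l 3) (b (l 292225559831) (l 3))) (l 3)) (l 274508824119)))) (l 3)) (b (a (b (l 16786936) (a (l 254644594167) (l 16784344))) (l 16791600)) (a (b (b (a (l 271824464823) (l 16781168)) (b (l 275045695127) (a (l 3) (l 255718339159)))) (a (l 3) (b (l 292762431719) (l 3)))) (b (l 16785064) (a (b (l 16780232) (l 269140121175)) (l 16782488))))))) (b (l 16893776) (a (l 16889768) (l 16815024))))), by decide +kernel⟩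

def k2_pp_123 : ∃ t, chk3 f_pp_123 t 9 8 1 = true :=
  ⟨(a (a (l 17060808) (l 17015112)) (l 17043224)), by decide +kernel⟩

def k3_pp_123 : ∃ t, chk3 f_pp_123 t 5 8 1 = true :=
  ⟨(l 17297504), by decide +kernel⟩

def k4_pp_123 : ∃ t, chk3 f_pp_123 t 3 8 1 = true :=
  ⟨(a (l 17516888) (l 17283544)), by decide +kernel⟩

def k5_pp_123 : ∃ t, chk3 f_pp_123 t 1 9 1 = true :=
  ⟨(a (a (a (a (l 3) (b (a (b (a (l 3) (b (a (l 3) (b (a (b (l 316921615239) (l 3)) (l 269140121111)) (l 323900949463))) (l 3))) (l 3)) (b (a (b (a (b (l 16783288) (a (l 285783119687) (l 270750728055))) (l 16788152)) (a (b (a (l 3) (l 301352368183)) (l 3)) (b (a (l 247128417735) (l 16783440)) (l 287393733079)))) (b (l 16799608) (l 16790648))) (a (b (a (l 3) (b (l 324974688615) (l 3))) (l 3)) (b (a (l 277193195319) (l 265918907415)) (a (l 3) (b (l 272361346935) (l 324437813623))))))) (l 3))) (a (b (a (b (l 16946336) (a (b (l 16797216) (a (l 239075341511) (l 16792072))) (l 16807984))) (l 16937120))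 (a (b (a (b (l 275582593111) (a (l 3) (l 321753480983))) (b (l 16794872) (a (l 250349646199) (l 16789760)))) (a (l 3) (b (l 286320014791) (l 335712119975)))) (b (l 16812792) (a (b (l 16792864) (l 246054683527)) (l 16803984))))) (b (a (l 16969800) (l 16889136)) (a (l 16976856) (l 16958624))))) (a (a (b (l 17104520) (l 17033312)) (l 17110024)) (l 17282552))) (a (l 17555904) (l 17540160))), by decide +kernel⟩

def k6_pp_123 : ∃ t, chk3 f_pp_123 t 1 5 1 = true :=
  ⟨(a (a (a (l 3) (a (b (a (l 3) (b (b (a (b (l 293299318551) (l 338396476759)) (l 240686002103)) (a (l 3) (l 309405478439))) (l 3))) (l 3)) (b (a (b (b (l 16810936) (a (l 238538497879) (l 16803608))) (b (l 271287669319) (a (l 3) (l 297594289655)))) (b (l 17028704) (a (l 253570956823) (l 16815296)))) (a (l 3) (b (a (l 302963071127) (l 247128475767)) (l 350744667719)))))) (a (a (a (b (b (l 16851784) (l 16841600)) (b (l 16877016) (a (l 260550235223) (l 16841616)))) (b (a (l 17043496) (a (l 16878696) (l 17114088)))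 (a (l 16894728) (a (l 16847536) (a (l 16853280) (l 16856080)))))) (b (l 16970520) (l 16994048))) (b (l 17140744) (b (l 16920000) (l 17009336))))) (a (a (b (l 17376672) (l 17052320)) (b (l 17428776) (l 17149744))) (a (b (l 17457696) (l 17337200)) (l 236258445383)))), by decide +kernel⟩

def k7_pp_123 : ∃ t, chk3 f_pp_123 t 1 3 1 = true :=
  ⟨(b (a (a (l 3) (a (a (a (b (b (a (l 3) (l 274508874935)) (l 3)) (l 3)) (b (a (b (l 16850568) (l 263234611911)) (a (b (l 16814024) (l 16797720)) (a (l 16900112) (l 16864520)))) (a (l 3) (b (a (l 271287681063) (a (l 16815184) (l 16800992))) (a (l 3) (a (l 16827976) (l 16793280))))))) (b (l 17019144) (b (l 16856632) (l 16890192)))) (b (l 17016768) (l 17204416)))) (a (b (a (l 17185416) (l 17306248)) (a (l 17234368) (l 17454384))) (b (a (l 17375496) (l 1)) (l 1)))) (a (a (b (l 3) (l 3)) (b (a (a (a (l 3) (a (l 3) (b (a (l 3) (a (l 16827912) (l 16793888))) (a (l 267529640359) (a (l 16861048) (l 16807096)))))) (a (b (l 16828912) (l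 16868808)) (l 17053792))) (a (l 17201976) (l 17150520))) (a (a (a (b (l 3) (l 1)) (l 1)) (l 1)) (l 1)))) (l 1))), by decide +kernel⟩

theorem s8_pp_123 : ∃ t, chk3 f_pp_123 t 8 8 1 = true := ex3_b k0_pp_123 k1_pp_123

theorem s9_pp_123 : ∃ t, chk3 f_pp_123 t 4 8 1 = true := ex3_a s8_pp_123 k2_pp_123

theorem s10_pp_123 : ∃ t, chk3 f_pp_123 t 2 8 1 = true := ex3_a s9_pp_123 k3_pp_123

theorem s11_pp_123 : ∃ t, chk3 f_pp_123 t 1 8 1 = true := ex3_a s10_pp_123 k4_pp_123

theorem s12_pp_123 : ∃ t, chk3 f_pp_123 t 1 4 1 = true := ex3_b s11_pp_123 k5_pp_123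

theorem s13_pp_123 : ∃ t, chk3 f_pp_123 t 1 2 1 = true := ex3_b s12_pp_123 k6_pp_123

theorem s14_pp_123 : ∃ t, chk3 f_pp_123 t 1 1 1 = true := ex3_b s13_pp_123 k7_pp_123

theorem c_pp_123 : CertN 536870912 536870912 0 1230186008 50331648 16777216 3 false true true .npn 1 2 3
    ndN0q1 ndN4q3 pcN2 cut_pp_123 Ext.none :=
  certNK2 (fam := false) (s1 := true) (s2 := true) (a := 1) (b := 2) (c := 3) (cn := .npn) (n1 := ndN0q1) (n2 := ndN4q3) (pc := pcN2) (cut := cut_pp_123) (xt := Ext.none) (P1 := 536870912) (W1 := 536870912) (P2 := 0) (W2 := 1230186008) (P3 := 50331648) (W3 := 16777216) (N0 := 3)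
    rfl rfl rfl (fun _ => rfl) s14_pp_123

noncomputable def f_pp_133 : ℕ → ℕ → ℕ → ℕ → Bool := onCell 536870912 536870912 0 1230186008 50331648 16777216
    (rowNK 3 0 false true true .dn 1 3 3 (qsf 536870912 536870912 0 1230186008 3) ndN0q1 ndN4q3 pcN3 Cut.none Ext.none)

def k0_pp_133 : ∃ t, chk3 f_pp_133 t 1 1 1 = true :=
  ⟨(b (b (a (a (a (b (l 18971312) (l 1)) (l 1)) (l 1)) (l 1)) (l 1)) (l 1)), by decide +kernel⟩

theorem c_pp_133 : CertN 536870912 536870912 0 1230186008 50331648 16777216 3 false true true .dn 1 3 3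
    ndN0q1 ndN4q3 pcN3 Cut.none Ext.none :=
  certNK0 (fam := false) (s1 := true) (s2 := true) (a := 1) (b := 3) (c := 3) (cn := .dn) (n1 := ndN0q1) (n2 := ndN4q3) (pc := pcN3) (cut := Cut.none) (xt := Ext.none) (P1 := 536870912) (W1 := 536870912) (P2 := 0) (W2 := 1230186008) (P3 := 50331648) (W3 := 16777216) (N0 := 3)
    rfl rfl rfl k0_pp_133

noncomputable def f_pp_202 : ℕ → ℕ → ℕ → ℕ → Bool := onCell 0 536870912 1073741824 536870912 50331648 16777216
    (rowNK 3 0 false true true .pp 2 0 2 (qsf 0 536870912 1073741824 536870912 0) ndN0q2 ndN4q2 pcN0 Cut.none Ext.none)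

def k0_pp_202 : ∃ t, chk3 f_pp_202 t 1 1 1 = true :=
  ⟨(l 5), by decide +kernel⟩

theorem c_pp_202 : CertN 0 536870912 1073741824 536870912 50331648 16777216 3 false true true .pp 2 0 2
    ndN0q2 ndN4q2 pcN0 Cut.none Ext.none :=
  certNK0 (fam := false) (s1 := true) (s2 := true) (a := 2) (b := 0) (c := 2) (cn := .pp) (n1 := ndN0q2) (n2 := ndN4q2) (pc := pcN0) (cut := Cut.none) (xt := Ext.none) (P1 := 0) (W1 := 536870912) (P2 := 1073741824) (W2 := 536870912) (P3 := 50331648) (W3 := 16777216) (N0 := 3)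
    rfl rfl rfl k0_pp_202

noncomputable def f_pp_203 : ℕ → ℕ → ℕ → ℕ → Bool := onCell 0 536870912 0 1230186008 50331648 16777216
    (rowNK 3 0 false true true .up 2 0 3 (qsf 0 536870912 0 1230186008 0) ndN0q2 ndN4q3 pcN0 Cut.none Ext.none)

def k0_pp_203 : ∃ t, chk3 f_pp_203 t 1 1 1 = true :=
  ⟨(b (l 2) (b (l 2) (a (l 5) (l 3)))), by decide +kernel⟩

theorem c_pp_203 : CertN 0 536870912 0 1230186008 50331648 16777216 3 false true true .up 2 0 3
    ndN0q2 ndN4q3 pcN0 Cut.none Ext.none :=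
  certNK0 (fam := false) (s1 := true) (s2 := true) (a := 2) (b := 0) (c := 3) (cn := .up) (n1 := ndN0q2) (n2 := ndN4q3) (pc := pcN0) (cut := Cut.none) (xt := Ext.none) (P1 := 0) (W1 := 536870912) (P2 := 0) (W2 := 1230186008) (P3 := 50331648) (W3 := 16777216) (N0 := 3)
    rfl rfl rfl k0_pp_203

noncomputable def cut_pp_213 : Cut := Cut.of [[⟨0, 1, 0, 14341072⟩, ⟨1, 1, 0, 14341072⟩, ⟨2, 2, 0, 761489⟩]]

noncomputable def f_pp_213 : ℕ → ℕ → ℕ → ℕ → Bool := onCell 0 536870912 0 1230186008 50331648 16777216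
    (rowNK 3 0 false true true .pnn 2 1 3 (qsf 0 536870912 0 1230186008 1) ndN0q2 ndN4q3 pcN1 cut_pp_213 Ext.none)

def k0_pp_213 : ∃ t, chk3 f_pp_213 t 1 1 1 = true :=
  ⟨(a (b (l 3) (l 5)) (b (b (a (l 3) (b (a (l 3) (b (a (l 3) (b (a (l 3) (l 6)) (l 3))) (l 3))) (l 3))) (l 3)) (b (l 3) (l 3)))), by decide +kernel⟩

theorem c_pp_213 : CertN 0 536870912 0 1230186008 50331648 16777216 3 false true true .pnn 2 1 3
    ndN0q2 ndN4q3 pcN1 cut_pp_213 Ext.none :=
  certNK0 (fam := false) (s1 := true) (s2 := true) (a := 2) (b := 1) (c := 3) (cn := .pnn) (n1 := ndN0q2) (n2 := ndN4q3) (pc := pcN1) (cut := cut_pp_213) (xt := Ext.none) (P1 := 0) (W1 := 536870912) (P2 := 0) (W2 := 1230186008) (P3 := 50331648) (W3 := 16777216) (N0 := 3)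
    rfl rfl rfl k0_pp_213

noncomputable def f_pm_001 : ℕ → ℕ → ℕ → ℕ → Bool := onCell 0 536870912 536870912 536870912 50331648 16777216
    (rowNK 3 0 false true false .up 0 0 1 (qsf 0 536870912 536870912 536870912 0) ndN0q0 ndN4q1 pcN0 Cut.none Ext.none)

def k0_pm_001 : ∃ t, chk3 f_pm_001 t 1 1 1 = true :=
  ⟨(l 4), by decide +kernel⟩

theorem c_pm_001 : CertN 0 536870912 536870912 536870912 50331648 16777216 3 false true false .up 0 0 1
    ndN0q0 ndN4q1 pcN0 Cut.none Ext.none :=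
  certNK0 (fam := false) (s1 := true) (s2 := false) (a := 0) (b := 0) (c := 1) (cn := .up) (n1 := ndN0q0) (n2 := ndN4q1) (pc := pcN0) (cut := Cut.none) (xt := Ext.none) (P1 := 0) (W1 := 536870912) (P2 := 536870912) (W2 := 536870912) (P3 := 50331648) (W3 := 16777216) (N0 := 3)
    rfl rfl rfl k0_pm_001

noncomputable def f_pm_011 : ℕ → ℕ → ℕ → ℕ → Bool := onCell 0 536870912 536870912 536870912 50331648 16777216
    (rowNK 3 0 false true false .pnn 0 1 1 (qsf 0 536870912 536870912 536870912 1) ndN0q0 ndN4q1 pcN1 Cut.none Ext.none)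

def k0_pm_011 : ∃ t, chk3 f_pm_011 t 1 1 1 = true :=
  ⟨(l 4), by decide +kernel⟩

theorem c_pm_011 : CertN 0 536870912 536870912 536870912 50331648 16777216 3 false true false .pnn 0 1 1
    ndN0q0 ndN4q1 pcN1 Cut.none Ext.none :=
  certNK0 (fam := false) (s1 := true) (s2 := false) (a := 0) (b := 1) (c := 1) (cn := .pnn) (n1 := ndN0q0) (n2 := ndN4q1) (pc := pcN1) (cut := Cut.none) (xt := Ext.none) (P1 := 0) (W1 := 536870912) (P2 := 536870912) (W2 := 536870912) (P3 := 50331648) (W3 := 16777216) (N0 := 3)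
    rfl rfl rfl k0_pm_011

noncomputable def f_pm_012 : ℕ → ℕ → ℕ → ℕ → Bool := onCell 0 536870912 1073741824 536870912 50331648 16777216
    (rowNK 3 0 false true false .pnp 0 1 2 (qsf 0 536870912 1073741824 536870912 1) ndN0q0 ndN4q2 pcN1 Cut.none Ext.none)

def k0_pm_012 : ∃ t, chk3 f_pm_012 t 1 1 1 = true :=
  ⟨(l 4), by decide +kernel⟩

theorem c_pm_012 : CertN 0 536870912 1073741824 536870912 50331648 16777216 3 false true false .pnp 0 1 2
    ndN0q0 ndN4q2 pcN1 Cut.none Ext.none :=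
  certNK0 (fam := false) (s1 := true) (s2 := false) (a := 0) (b := 1) (c := 2) (cn := .pnp) (n1 := ndN0q0) (n2 := ndN4q2) (pc := pcN1) (cut := Cut.none) (xt := Ext.none) (P1 := 0) (W1 := 536870912) (P2 := 1073741824) (W2 := 536870912) (P3 := 50331648) (W3 := 16777216) (N0 := 3)
    rfl rfl rfl k0_pm_012

noncomputable def f_pm_022 : ℕ → ℕ → ℕ → ℕ → Bool := onCell 0 536870912 1073741824 536870912 50331648 16777216
    (rowNK 3 0 false true false .pp 0 2 2 (qsf 0 536870912 1073741824 536870912 2) ndN0q0 ndN4q2 pcN2 Cut.none Ext.none)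

def k0_pm_022 : ∃ t, chk3 f_pm_022 t 1 1 1 = true :=
  ⟨(l 4), by decide +kernel⟩

theorem c_pm_022 : CertN 0 536870912 1073741824 536870912 50331648 16777216 3 false true false .pp 0 2 2
    ndN0q0 ndN4q2 pcN2 Cut.none Ext.none :=
  certNK0 (fam := false) (s1 := true) (s2 := false) (a := 0) (b := 2) (c := 2) (cn := .pp) (n1 := ndN0q0) (n2 := ndN4q2) (pc := pcN2) (cut := Cut.none) (xt := Ext.none) (P1 := 0) (W1 := 536870912) (P2 := 1073741824) (W2 := 536870912) (P3 := 50331648) (W3 := 16777216) (N0 := 3)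
    rfl rfl rfl k0_pm_022

noncomputable def f_pm_023 : ℕ → ℕ → ℕ → ℕ → Bool := onCell 0 536870912 0 1230186008 50331648 16777216
    (rowNK 3 0 false true false .up 0 2 3 (qsf 0 536870912 0 1230186008 2) ndN0q0 ndN4q3 pcN2 Cut.none Ext.none)

def k0_pm_023 : ∃ t, chk3 f_pm_023 t 1 1 1 = true :=
  ⟨(b (a (l 2) (a (l 2) (b (a (l 2) (l 17525056)) (a (l 4) (l 4))))) (l 4)), by decide +kernel⟩

theorem c_pm_023 : CertN 0 536870912 0 1230186008 50331648 16777216 3 false true false .up 0 2 3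
    ndN0q0 ndN4q3 pcN2 Cut.none Ext.none :=
  certNK0 (fam := false) (s1 := true) (s2 := false) (a := 0) (b := 2) (c := 3) (cn := .up) (n1 := ndN0q0) (n2 := ndN4q3) (pc := pcN2) (cut := Cut.none) (xt := Ext.none) (P1 := 0) (W1 := 536870912) (P2 := 0) (W2 := 1230186008) (P3 := 50331648) (W3 := 16777216) (N0 := 3)
    rfl rfl rfl k0_pm_023

noncomputable def f_pm_033 : ℕ → ℕ → ℕ → ℕ → Bool := onCell 1610612736 536870912 0 1230186008 50331648 16777216
    (rowNK 3 2 false true false .pnn 0 3 3 (qsf 0 536870912 0 1230186008 3) ndN0q0 ndN4q3 pcN3 Cut.none Ext.none)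

def k0_pm_033 : ∃ t, chk3 f_pm_033 t 1 1 1 = true :=
  ⟨(b (b (a (a (a (b (l 16897008) (l 17682016)) (l 17579216)) (a (b (l 17763248) (l 4)) (l 4))) (l 4)) (l 4)) (l 4)), by decide +kernel⟩

theorem c_pm_033 : CertN 0 536870912 0 1230186008 50331648 16777216 3 false true false .pnn 0 3 3
    ndN0q0 ndN4q3 pcN3 Cut.none Ext.none :=
  certNK2 (fam := false) (s1 := true) (s2 := false) (a := 0) (b := 3) (c := 3) (cn := .pnn) (n1 := ndN0q0) (n2 := ndN4q3) (pc := pcN3) (cut := Cut.none) (xt := Ext.none) (P1 := 0) (W1 := 536870912) (P2 := 0) (W2 := 1230186008) (P3 := 50331648) (W3 := 16777216) (N0 := 3)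
    rfl rfl rfl (fun _ => rfl) k0_pm_033

noncomputable def f_pm_101 : ℕ → ℕ → ℕ → ℕ → Bool := onCell 536870912 536870912 536870912 536870912 50331648 16777216
    (rowNK 3 0 false true false .npn 1 0 1 (qsf 536870912 536870912 536870912 536870912 0) ndN0q1 ndN4q1 pcN0 Cut.none Ext.none)

def k0_pm_101 : ∃ t, chk3 f_pm_101 t 1 1 1 = true :=
  ⟨(l 4), by decide +kernel⟩

theorem c_pm_101 : CertN 536870912 536870912 536870912 536870912 50331648 16777216 3 false true false .npn 1 0 1
    ndN0q1 ndN4q1 pcN0 Cut.none Ext.none :=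
  certNK0 (fam := false) (s1 := true) (s2 := false) (a := 1) (b := 0) (c := 1) (cn := .npn) (n1 := ndN0q1) (n2 := ndN4q1) (pc := pcN0) (cut := Cut.none) (xt := Ext.none) (P1 := 536870912) (W1 := 536870912) (P2 := 536870912) (W2 := 536870912) (P3 := 50331648) (W3 := 16777216) (N0 := 3)
    rfl rfl rfl k0_pm_101

noncomputable def f_pm_102 : ℕ → ℕ → ℕ → ℕ → Bool := onCell 536870912 536870912 0 536870912 50331648 16777216
    (rowNK 3 1 false true false .npp 1 0 2 (qsf 536870912 536870912 1073741824 536870912 0) ndN0q1 ndN4q2 pcN0 Cut.none Ext.none)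

def k0_pm_102 : ∃ t, chk3 f_pm_102 t 1 1 1 = true :=
  ⟨(b (l 4) (a (l 4) (b (l 4) (a (l 4) (a (l 4) (a (l 4) (l 38357227687))))))), by decide +kernel⟩

theorem c_pm_102 : CertN 536870912 536870912 1073741824 536870912 50331648 16777216 3 false true false .npp 1 0 2
    ndN0q1 ndN4q2 pcN0 Cut.none Ext.none :=
  certNK1 (fam := false) (s1 := true) (s2 := false) (a := 1) (b := 0) (c := 2) (cn := .npp) (n1 := ndN0q1) (n2 := ndN4q2) (pc := pcN0) (cut := Cut.none) (xt := Ext.none) (P1 := 536870912) (W1 := 536870912) (P2 := 1073741824) (W2 := 536870912) (P3 := 50331648) (W3 := 16777216) (N0 := 3)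
    rfl rfl rfl (fun _ => rfl) k0_pm_102

noncomputable def f_pm_112 : ℕ → ℕ → ℕ → ℕ → Bool := onCell 536870912 536870912 1073741824 536870912 50331648 16777216
    (rowNK 3 0 false true false .dn 1 1 2 (qsf 536870912 536870912 1073741824 536870912 1) ndN0q1 ndN4q2 pcN1 Cut.none Ext.none)

def k0_pm_112 : ∃ t, chk3 f_pm_112 t 1 1 1 = true :=
  ⟨(a (l 4) (b (l 4) (b (l 4) (l 19110376)))), by decide +kernel⟩

theorem c_pm_112 : CertN 536870912 536870912 1073741824 536870912 50331648 16777216 3 false true false .dn 1 1 2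
    ndN0q1 ndN4q2 pcN1 Cut.none Ext.none :=
  certNK0 (fam := false) (s1 := true) (s2 := false) (a := 1) (b := 1) (c := 2) (cn := .dn) (n1 := ndN0q1) (n2 := ndN4q2) (pc := pcN1) (cut := Cut.none) (xt := Ext.none) (P1 := 536870912) (W1 := 536870912) (P2 := 1073741824) (W2 := 536870912) (P3 := 50331648) (W3 := 16777216) (N0 := 3)
    rfl rfl rfl k0_pm_112

noncomputable def cut_pm_113 : Cut := Cut.of [[⟨0, 1, 0, 14341072⟩, ⟨1, 1, 0, 14341072⟩, ⟨2, 2, 0, 761489⟩]]

noncomputable def f_pm_113 : ℕ → ℕ → ℕ → ℕ → Bool := onCell 536870912 536870912 0 1230186008 50331648 16777216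
    (rowNK 3 2 false true false .nn 1 1 3 (qsf 536870912 536870912 0 1230186008 1) ndN0q1 ndN4q3 pcN1 cut_pm_113 Ext.none)

def k0_pm_113 : ∃ t, chk3 f_pm_113 t 1 1 1 = true :=
  ⟨(b (a (l 2) (a (l 2) (b (a (l 2) (b (a (l 2) (b (a (l 2) (b (a (l 2) (l 6)) (l 836008676055))) (l 823660653303))) (l 785542876743))) (b (a (l 1975248862647) (l 16971912)) (a (b (l 16951704) (l 17098288)) (a (l 17217832) (a (l 17304904) (l 17370888)))))))) (b (a (a (l 2) (b (l 2) (a (l 2) (b (l 2) (l 903655603239))))) (a (b (a (l 2) (l 912782154791)) (a (l 734004666551) (l 130025925495))) (a (b (a (l 17366856) (l 17574552)) (l 18248544)) (a (b (l 17834024) (l 18670592)) (a (l 18561544) (l 18414560)))))) (a (a (b (l 2) (b (a (l 2) (a (b (l 2) (l 17937912)) (l 18139152))) (a (b (a (l 2) (l 17975600)) (l 18645608)) (l 18715032)))) (b (a (b (b (l 2) (l 17391904)) (b (a (l 2) (l 430672629255)) (a (b (l 17536648) (l 17822256)) (l 17939256)))) (b (b (l 17240160) (a (l 416713723847) (l 17205224)))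 (a (b (b (l 17164344) (l 17927992)) (l 18070920)) (l 18130888)))) (b (a (l 18091616) (l 18746520)) (l 18965456)))) (b (a (a (b (a (b (l 17360480) (l 17577960)) (l 17757432)) (l 18349840)) (l 18255672)) (l 19121744)) (l 4))))), by decide +kernel⟩

theorem c_pm_113 : CertN 536870912 536870912 0 1230186008 50331648 16777216 3 false true false .nn 1 1 3
    ndN0q1 ndN4q3 pcN1 cut_pm_113 Ext.none :=
  certNK2 (fam := false) (s1 := true) (s2 := false) (a := 1) (b := 1) (c := 3) (cn := .nn) (n1 := ndN0q1) (n2 := ndN4q3) (pc := pcN1) (cut := cut_pm_113) (xt := Ext.none) (P1 := 536870912) (W1 := 536870912) (P2 := 0) (W2 := 1230186008) (P3 := 50331648) (W3 := 16777216) (N0 := 3)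
    rfl rfl rfl (fun _ => rfl) k0_pm_113

noncomputable def cut_pm_123 : Cut := Cut.of [[⟨0, 1, 0, 14341072⟩, ⟨1, 1, 0, 14341072⟩, ⟨2, 2, 0, 761489⟩]]

noncomputable def f_pm_123 : ℕ → ℕ → ℕ → ℕ → Bool := onCell 1073741824 536870912 0 1230186008 50331648 16777216
    (rowNK 3 2 false true false .npn 1 2 3 (qsf 536870912 536870912 0 1230186008 2) ndN0q1 ndN4q3 pcN2 cut_pm_123 Ext.none)

def k0_pm_123 : ∃ t, chk3 f_pm_123 t 1 1 1 = true :=
  ⟨(b (b (a (a (a (a (a (b (b (b (a (l 6) (l 16794000)) (l 16804608)) (l 16829768)) (l 16905272)) (a (l 16996096) (l 16952920))) (a (l 17030712) (l 16948576))) (a (l 17152856) (l 17084072))) (a (l 17213792) (l 17308000))) (a (b (l 17362424) (l 16872960)) (a (l 16976680) (l 17297704)))) (a (a (a (b (a (a (l 17114472) (l 17048696)) (l 16979624)) (l 17551040)) (l 17236168)) (b (l 17054736) (l 17787144))) (a (b (l 17527968) (l 18068280)) (a (l 17986600) (l 18054176))))) (b (a (a (b (l 18235192) (l 18836560)) (b (l 18372816) (l 4)))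 (l 4)) (l 4))), by decide +kernel⟩

theorem c_pm_123 : CertN 536870912 536870912 0 1230186008 50331648 16777216 3 false true false .npn 1 2 3
    ndN0q1 ndN4q3 pcN2 cut_pm_123 Ext.none :=
  certNK2 (fam := false) (s1 := true) (s2 := false) (a := 1) (b := 2) (c := 3) (cn := .npn) (n1 := ndN0q1) (n2 := ndN4q3) (pc := pcN2) (cut := cut_pm_123) (xt := Ext.none) (P1 := 536870912) (W1 := 536870912) (P2 := 0) (W2 := 1230186008) (P3 := 50331648) (W3 := 16777216) (N0 := 3)
    rfl rfl rfl (fun _ => rfl) k0_pm_123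

noncomputable def f_pm_133 : ℕ → ℕ → ℕ → ℕ → Bool := onCell 536870912 536870912 0 1230186008 50331648 16777216
    (rowNK 3 0 false true false .dn 1 3 3 (qsf 536870912 536870912 0 1230186008 3) ndN0q1 ndN4q3 pcN3 Cut.none Ext.none)

def k0_pm_133 : ∃ t, chk3 f_pm_133 t 1 1 1 = true :=
  ⟨(b (a (a (b (b (l 701190070071) (l 1)) (l 1)) (l 1)) (l 1)) (l 1)), by decide +kernel⟩

theorem c_pm_133 : CertN 536870912 536870912 0 1230186008 50331648 16777216 3 false true false .dn 1 3 3
    ndN0q1 ndN4q3 pcN3 Cut.none Ext.none :=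
  certNK0 (fam := false) (s1 := true) (s2 := false) (a := 1) (b := 3) (c := 3) (cn := .dn) (n1 := ndN0q1) (n2 := ndN4q3) (pc := pcN3) (cut := Cut.none) (xt := Ext.none) (P1 := 536870912) (W1 := 536870912) (P2 := 0) (W2 := 1230186008) (P3 := 50331648) (W3 := 16777216) (N0 := 3)
    rfl rfl rfl k0_pm_133

noncomputable def f_pm_202 : ℕ → ℕ → ℕ → ℕ → Bool := onCell 0 536870912 1073741824 536870912 50331648 16777216
    (rowNK 3 0 false true false .pp 2 0 2 (qsf 0 536870912 1073741824 536870912 0) ndN0q2 ndN4q2 pcN0 Cut.none Ext.none)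

def k0_pm_202 : ∃ t, chk3 f_pm_202 t 1 1 1 = true :=
  ⟨(a (b (b (b (l 1) (l 19532720)) (a (b (l 19040304) (l 18493656)) (l 19022712))) (b (b (a (l 17883584) (l 18162232)) (a (b (l 17686416) (l 17508336)) (a (l 17806528) (l 17744128)))) (b (a (a (l 17861896) (l 17696240)) (a (l 17462704) (l 17872032))) (a (b (a (l 18021440) (l 18138088)) (l 17978064)) (b (a (l 17820264) (l 17512496)) (a (l 18231184) (l 17686224))))))) (b (b (a (b (l 1) (l 19762312)) (l 4)) (a (b (l 19455920) (l 19077600)) (a (l 19478216) (l 4)))) (b (a (b (l 18615840) (l 18003296)) (a (l 18882632) (l 19176688))) (a (a (b (l 17916824) (b (l 18121816) (l 17811872))) (b (l 17528744) (b (l 18008328) (l 18259112)))) (b (a (l 18009136) (l 18603464)) (a (l 17608072) (l 17941016))))))), by decide +kernel⟩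

theorem c_pm_202 : CertN 0 536870912 1073741824 536870912 50331648 16777216 3 false true false .pp 2 0 2
    ndN0q2 ndN4q2 pcN0 Cut.none Ext.none :=
  certNK0 (fam := false) (s1 := true) (s2 := false) (a := 2) (b := 0) (c := 2) (cn := .pp) (n1 := ndN0q2) (n2 := ndN4q2) (pc := pcN0) (cut := Cut.none) (xt := Ext.none) (P1 := 0) (W1 := 536870912) (P2 := 1073741824) (W2 := 536870912) (P3 := 50331648) (W3 := 16777216) (N0 := 3)
    rfl rfl rfl k0_pm_202

noncomputable def f_pm_203 : ℕ → ℕ → ℕ → ℕ → Bool := onCell 0 536870912 0 1230186008 50331648 16777216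
    (rowNK 3 0 false true false .up 2 0 3 (qsf 0 536870912 0 1230186008 0) ndN0q2 ndN4q3 pcN0 Cut.none Ext.none)

def k0_pm_203 : ∃ t, chk3 f_pm_203 t 1 1 1 = true :=
  ⟨(b (l 2) (b (l 2) (a (b (b (l 2) (a (l 17210728) (l 17862240))) (b (a (a (l 17352952) (l 17649720)) (l 18018128)) (a (b (l 17911184) (l 17937496)) (b (l 18287360) (a (l 18321552) (l 18291176)))))) (b (l 2) (a (b (a (l 18384120) (b (l 2) (l 18275784))) (b (a (l 18316896) (a (l 17852808) (l 17378464))) (a (l 17716256) (l 18056056)))) (b (a (b (l 2) (a (l 17616824) (l 2))) (l 2)) (b (a (l 18260264) (a (l 18445168) (l 2))) (a (l 18241920) (l 17472256))))))))), by decide +kernel⟩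

theorem c_pm_203 : CertN 0 536870912 0 1230186008 50331648 16777216 3 false true false .up 2 0 3
    ndN0q2 ndN4q3 pcN0 Cut.none Ext.none :=
  certNK0 (fam := false) (s1 := true) (s2 := false) (a := 2) (b := 0) (c := 3) (cn := .up) (n1 := ndN0q2) (n2 := ndN4q3) (pc := pcN0) (cut := Cut.none) (xt := Ext.none) (P1 := 0) (W1 := 536870912) (P2 := 0) (W2 := 1230186008) (P3 := 50331648) (W3 := 16777216) (N0 := 3)
    rfl rfl rfl k0_pm_203

noncomputable def cut_pm_213 : Cut := Cut.of [[⟨0, 1, 0, 14341072⟩, ⟨1, 1, 0, 14341072⟩, ⟨2, 2, 0, 761489⟩]]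

noncomputable def f_pm_213 : ℕ → ℕ → ℕ → ℕ → Bool := onCell 0 536870912 0 1230186008 50331648 16777216
    (rowNK 3 0 false true false .pnn 2 1 3 (qsf 0 536870912 0 1230186008 1) ndN0q2 ndN4q3 pcN1 cut_pm_213 Ext.none)

def k0_pm_213 : ∃ t, chk3 f_pm_213 t 2 2 1 = true :=
  ⟨(b (l 3) (a (l 3) (b (l 3) (a (b (l 3) (l 329269803111)) (b (a (l 3) (b (l 308331754183) (l 282025034263))) (a (b (l 297057432391) (l 266455771735)) (l 240149211223))))))), by decide +kernel⟩

def k1_pm_213 : ∃ t, chk3 f_pm_213 t 6 4 1 = true :=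
  ⟨(b (l 3) (a (l 3) (b (l 3) (a (l 3) (b (a (l 3) (b (l 3) (l 290078083767))) (a (b (l 3) (l 286319978551)) (b (l 272898218375) (l 16783504)))))))), by decide +kernel⟩

def k2_pm_213 : ∃ t, chk3 f_pm_213 t 14 8 1 = true :=
  ⟨(b (l 3) (a (l 3) (b (l 3) (a (l 3) (b (a (l 3) (b (l 3) (a (l 3) (b (l 3) (a (l 3) (l 291151808551)))))) (a (b (l 3) (a (l 3) (b (l 295446778903) (l 281488142039)))) (b (a (b (l 3) (l 289004330727)) (l 268066369079)) (a (l 263234531847) (l 16780904))))))))), by decide +kernel⟩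

def k3_pm_213 : ∃ t, chk3 f_pm_213 t 15 16 1 = true :=
  ⟨(a (b (l 3) (a (l 3) (b (l 3) (a (l 3) (b (a (l 3) (b (l 3) (a (l 3) (b (l 3) (a (l 3) (l 295446775239)))))) (a (b (l 3) (a (l 3) (b (l 3) (a (l 297057388599) (l 279877522887))))) (b (a (b (l 3) (a (l 3) (l 289004328951))) (a (l 278266910151) (l 262697654599))) (a (b (l 273971947879) (l 255718326887)) (l 16778968))))))))) (b (a (a (l 3) (a (l 3) (l 6))) (l 6)) (a (b (a (b (l 3) (a (l 3) (b (a (l 3) (b (a (l 3) (l 297057388279)) (a (b (l 3) (l 293299293591)) (l 271287588263)))) (b (b (a (l 3) (l 264308264295)) (l 275045684439)) (a (l 276119426311) (l 16778544)))))) (b (a (b (a (l 3) (b (l 3) (a (l 3) (b (l 297057387799) (l 279340649239))))) (a (b (l 3) (a (l 298131130439) (l 278803778359))) (b (a (b (l 295446776055) (l 273971942583)) (l 260550165527)) (l 253570843031)))) (b (l 6) (l 16779664))) (a (b (a (b (a (l 275045684391) (l 16777936)) (l 16778344)) (l 16779224)) (l 16780048)) (l 16781824)))) (a (b (a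 (b (a (l 298668003591) (b (a (l 3) (l 284172487799)) (l 270750717463))) (a (l 276119426359) (l 16778576))) (b (a (l 259476424647) (l 16779616)) (l 16780440))) (l 16781376)) (l 16784952))) (l 16789720)))), by decide +kernel⟩

def k4_pm_213 : ∃ t, chk3 f_pm_213 t 15 17 1 = true :=
  ⟨(a (b (a (b (l 3) (a (b (l 3) (l 3)) (b (a (l 3) (b (a (l 3) (b (l 3) (l 293299291879))) (c (l 279340652551) (l 278803781543)))) (a (a (b (l 3) (l 283635620055)) (l 275045689831)) (b (l 260550167063) (l 16779960)))))) (b (a (b (a (l 3) (b (l 3) (a (l 3) (b (l 295446775879) (l 276656302519))))) (a (b (l 298668005287) (a (l 296520519063) (l 276119431639))) (b (a (l 280414394151) (l 262697651015)) (l 16779152)))) (b (a (a (c (c (l 276119429095) (l 276119429063)) (l 275582558103)) (b (l 264308267463) (l 16779360))) (l 16780504)) (l 16782176))) (a (b (a (b (a (l 271824464487) (l 16778728)) (l 16779552)) (l 16781312)) (l 16783000)) (l 16786576)))) (a (b (a (b (a (b (l 3) (l 295983649639)) (l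 277193171463)) (a (b (l 280951265607) (l 262160779383)) (l 16780064))) (b (l 270213858519) (l 16783832))) (l 16785808)) (l 16793072))) (l 16824016)), by decide +kernel⟩

def k5_pm_213 : ∃ t, chk3 f_pm_213 t 7 9 1 = true :=
  ⟨(a (b (a (b (l 3) (a (b (l 3) (l 289541239863)) (b (a (l 287930599847) (b (l 292762426727) (l 270750733623))) (a (l 277193185767) (l 16781800))))) (b (a (b (a (l 3) (b (l 3) (a (l 295983651815) (l 279340668807)))) (a (b (l 295983654199) (l 277730056903)) (b (l 264308284199) (l 16781440)))) (b (a (b (a (l 284172497415) (l 258402684087)) (l 16780552)) (l 16784072)) (l 16787624))) (a (b (a (l 254107720791) (l 16785928)) (l 16789592)) (l 16796960)))) (a (b (a (b (l 279340672071) (l 255181484455)) (l 16788488)) (l 16796512)) (l 16811824))) (b (a (l 16806952) (l 16830640)) (l 16850416))), by decide +kernel⟩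

def k6_pm_213 : ∃ t, chk3 f_pm_213 t 3 5 1 = true :=
  ⟨(a (b (a (b (a (l 3) (b (l 3) (l 304036776391))) (a (b (l 3) (l 293836205431)) (b (a (l 295983679015) (l 270750736823)) (l 249275914151)))) (b (a (b (a (l 3) (l 285246260167)) (a (l 278266930999) (l 257865861575))) (b (a (l 253034024327) (l 16793384)) (l 16802368))) (l 16878016))) (a (b (a (b (l 268066403287) (l 16794200)) (l 16810992)) (l 16839984)) (l 16876312))) (b (a (l 16869432) (l 16906856)) (l 17065536))), by decide +kernel⟩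

def k7_pm_213 : ∃ t, chk3 f_pm_213 t 1 3 1 = true :=
  ⟨(b (a (b (a (a (l 3) (b (l 3) (a (l 3) (l 287930714343)))) (a (b (a (l 309942363239) (b (l 279340674071) (l 242296578583))) (a (b (l 259476454631) (l 16807032)) (l 16829144))) (b (l 16847432) (l 16887880)))) (a (a (b (l 323364195447) (a (l 285783252951) (b (l 258402716535) (l 16817640)))) (b (a (b (l 285783115543) (l 245517807255)) (l 16899000)) (l 16873088))) (b (l 16929912) (l 17037680)))) (b (a (l 17014376) (a (l 17091272) (l 17174120))) (a (b (l 17120464) (l 17204208)) (b (l 17226392) (l 17197368))))) (a (b (a (b (a (a (l 242833808343) (l 16892520)) (l 16989208)) (l 17083976)) (b (l 17191632) (a (l 17328992) (l 17376144)))) (b (a (l 1) (a (l 1) (l 17099312))) (l 1))) (b (a (b (l 17236608) (a (l 17177816) (l 17298896))) (b (l 17228760) (a (b (l 17498344) (a (l 17737208) (l 17853032))) (b (a (l 17678224) (b (l 17672056) (l 17746344))) (a (l 17778728) (l 17425008)))))) (a (b (a (l 17533760) (b (a (l 17701472)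 (l 17908016)) (l 17860616))) (l 1)) (b (a (b (a (l 17936856) (l 17735352)) (a (l 17463264) (l 17516808))) (b (a (l 17174296) (l 17910824)) (a (l 18118408) (l 18375616)))) (a (b (l 18059640) (l 1)) (b (a (l 18460304) (l 18518896)) (l 18565872)))))))), by decide +kernel⟩

theorem s8_pm_213 : ∃ t, chk3 f_pm_213 t 15 8 1 = true := ex3_b k3_pm_213 k4_pm_213

theorem s9_pm_213 : ∃ t, chk3 f_pm_213 t 7 8 1 = true := ex3_a k2_pm_213 s8_pm_213

theorem s10_pm_213 : ∃ t, chk3 f_pm_213 t 7 4 1 = true := ex3_b s9_pm_213 k5_pm_213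

theorem s11_pm_213 : ∃ t, chk3 f_pm_213 t 3 4 1 = true := ex3_a k1_pm_213 s10_pm_213

theorem s12_pm_213 : ∃ t, chk3 f_pm_213 t 3 2 1 = true := ex3_b s11_pm_213 k6_pm_213

theorem s13_pm_213 : ∃ t, chk3 f_pm_213 t 1 2 1 = true := ex3_a k0_pm_213 s12_pm_213

theorem s14_pm_213 : ∃ t, chk3 f_pm_213 t 1 1 1 = true := ex3_b s13_pm_213 k7_pm_213

theorem c_pm_213 : CertN 0 536870912 0 1230186008 50331648 16777216 3 false true false .pnn 2 1 3
    ndN0q2 ndN4q3 pcN1 cut_pm_213 Ext.none :=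
  certNK0 (fam := false) (s1 := true) (s2 := false) (a := 2) (b := 1) (c := 3) (cn := .pnn) (n1 := ndN0q2) (n2 := ndN4q3) (pc := pcN1) (cut := cut_pm_213) (xt := Ext.none) (P1 := 0) (W1 := 536870912) (P2 := 0) (W2 := 1230186008) (P3 := 50331648) (W3 := 16777216) (N0 := 3)
    rfl rfl rfl s14_pm_213

noncomputable def f_mm_001 : ℕ → ℕ → ℕ → ℕ → Bool := onCell 0 536870912 0 536870912 50331648 16777216
    (rowNK 3 1 false false false .up 0 0 1 (qsf 0 536870912 536870912 536870912 0) ndN0q0 ndN4q1 pcN0 Cut.none Ext.none)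

def k0_mm_001 : ∃ t, chk3 f_mm_001 t 1 1 1 = true :=
  ⟨(l 3), by decide +kernel⟩

theorem c_mm_001 : CertN 0 536870912 536870912 536870912 50331648 16777216 3 false false false .up 0 0 1
    ndN0q0 ndN4q1 pcN0 Cut.none Ext.none :=
  certNK1 (fam := false) (s1 := false) (s2 := false) (a := 0) (b := 0) (c := 1) (cn := .up) (n1 := ndN0q0) (n2 := ndN4q1) (pc := pcN0) (cut := Cut.none) (xt := Ext.none) (P1 := 0) (W1 := 536870912) (P2 := 536870912) (W2 := 536870912) (P3 := 50331648) (W3 := 16777216) (N0 := 3)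
    rfl rfl rfl (fun _ => rfl) k0_mm_001

noncomputable def f_mm_011 : ℕ → ℕ → ℕ → ℕ → Bool := onCell 0 536870912 536870912 536870912 50331648 16777216
    (rowNK 3 1 false false false .pnn 0 1 1 (qsf 0 536870912 536870912 536870912 1) ndN0q0 ndN4q1 pcN1 Cut.none Ext.none)

def k0_mm_011 : ∃ t, chk3 f_mm_011 t 1 1 1 = true :=
  ⟨(l 5), by decide +kernel⟩

theorem c_mm_011 : CertN 0 536870912 536870912 536870912 50331648 16777216 3 false false false .pnn 0 1 1
    ndN0q0 ndN4q1 pcN1 Cut.none Ext.none :=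
  certNK1 (fam := false) (s1 := false) (s2 := false) (a := 0) (b := 1) (c := 1) (cn := .pnn) (n1 := ndN0q0) (n2 := ndN4q1) (pc := pcN1) (cut := Cut.none) (xt := Ext.none) (P1 := 0) (W1 := 536870912) (P2 := 536870912) (W2 := 536870912) (P3 := 50331648) (W3 := 16777216) (N0 := 3)
    rfl rfl rfl (fun _ => rfl) k0_mm_011

noncomputable def f_mm_012 : ℕ → ℕ → ℕ → ℕ → Bool := onCell 0 536870912 1073741824 536870912 50331648 16777216
    (rowNK 3 0 false false false .pnp 0 1 2 (qsf 0 536870912 1073741824 536870912 1) ndN0q0 ndN4q2 pcN1 Cut.none Ext.none)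

def k0_mm_012 : ∃ t, chk3 f_mm_012 t 1 1 1 = true :=
  ⟨(l 5), by decide +kernel⟩

theorem c_mm_012 : CertN 0 536870912 1073741824 536870912 50331648 16777216 3 false false false .pnp 0 1 2
    ndN0q0 ndN4q2 pcN1 Cut.none Ext.none :=
  certNK0 (fam := false) (s1 := false) (s2 := false) (a := 0) (b := 1) (c := 2) (cn := .pnp) (n1 := ndN0q0) (n2 := ndN4q2) (pc := pcN1) (cut := Cut.none) (xt := Ext.none) (P1 := 0) (W1 := 536870912) (P2 := 1073741824) (W2 := 536870912) (P3 := 50331648) (W3 := 16777216) (N0 := 3)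
    rfl rfl rfl k0_mm_012

noncomputable def f_mm_022 : ℕ → ℕ → ℕ → ℕ → Bool := onCell 0 536870912 1073741824 536870912 50331648 16777216
    (rowNK 3 0 false false false .pp 0 2 2 (qsf 0 536870912 1073741824 536870912 2) ndN0q0 ndN4q2 pcN2 Cut.none Ext.none)

def k0_mm_022 : ∃ t, chk3 f_mm_022 t 1 1 1 = true :=
  ⟨(l 5), by decide +kernel⟩

theorem c_mm_022 : CertN 0 536870912 1073741824 536870912 50331648 16777216 3 false false false .pp 0 2 2
    ndN0q0 ndN4q2 pcN2 Cut.none Ext.none :=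
  certNK0 (fam := false) (s1 := false) (s2 := false) (a := 0) (b := 2) (c := 2) (cn := .pp) (n1 := ndN0q0) (n2 := ndN4q2) (pc := pcN2) (cut := Cut.none) (xt := Ext.none) (P1 := 0) (W1 := 536870912) (P2 := 1073741824) (W2 := 536870912) (P3 := 50331648) (W3 := 16777216) (N0 := 3)
    rfl rfl rfl k0_mm_022

noncomputable def f_mm_023 : ℕ → ℕ → ℕ → ℕ → Bool := onCell 0 536870912 0 1230186008 50331648 16777216
    (rowNK 3 0 false false false .up 0 2 3 (qsf 0 536870912 0 1230186008 2) ndN0q0 ndN4q3 pcN2 Cut.none Ext.none)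

def k0_mm_023 : ∃ t, chk3 f_mm_023 t 1 1 1 = true :=
  ⟨(l 5), by decide +kernel⟩

theorem c_mm_023 : CertN 0 536870912 0 1230186008 50331648 16777216 3 false false false .up 0 2 3
    ndN0q0 ndN4q3 pcN2 Cut.none Ext.none :=
  certNK0 (fam := false) (s1 := false) (s2 := false) (a := 0) (b := 2) (c := 3) (cn := .up) (n1 := ndN0q0) (n2 := ndN4q3) (pc := pcN2) (cut := Cut.none) (xt := Ext.none) (P1 := 0) (W1 := 536870912) (P2 := 0) (W2 := 1230186008) (P3 := 50331648) (W3 := 16777216) (N0 := 3)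
    rfl rfl rfl k0_mm_023

noncomputable def f_mm_033 : ℕ → ℕ → ℕ → ℕ → Bool := onCell 0 536870912 0 1230186008 50331648 16777216
    (rowNK 3 0 false false false .pnn 0 3 3 (qsf 0 536870912 0 1230186008 3) ndN0q0 ndN4q3 pcN3 Cut.none Ext.none)

def k0_mm_033 : ∃ t, chk3 f_mm_033 t 1 1 1 = true :=
  ⟨(l 5), by decide +kernel⟩

theorem c_mm_033 : CertN 0 536870912 0 1230186008 50331648 16777216 3 false false false .pnn 0 3 3
    ndN0q0 ndN4q3 pcN3 Cut.none Ext.none :=
  certNK0 (fam := false) (s1 := false) (s2 := false) (a := 0) (b := 3) (c := 3) (cn := .pnn) (n1 := ndN0q0) (n2 := ndN4q3) (pc := pcN3) (cut := Cut.none) (xt := Ext.none) (P1 := 0) (W1 := 536870912) (P2 := 0) (W2 := 1230186008) (P3 := 50331648) (W3 := 16777216) (N0 := 3)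
    rfl rfl rfl k0_mm_033

noncomputable def cut_mm_101 : Cut := Cut.of [[⟨0, 1, 0, 50331648⟩, ⟨1, 0, 0, 50331648⟩, ⟨2, 1, 0, 50331648⟩]]

noncomputable def f_mm_101 : ℕ → ℕ → ℕ → ℕ → Bool := onCell 536870912 536870912 0 536870912 50331648 16777216
    (rowNK 3 1 false false false .npn 1 0 1 (qsf 536870912 536870912 536870912 536870912 0) ndN0q1 ndN4q1 pcN0 cut_mm_101 Ext.none)

def k0_mm_101 : ∃ t, chk3 f_mm_101 t 1 1 1 = true :=
  ⟨(b (a (l 3) (b (a (l 3) (b (a (l 3) (b (a (l 3) (l 6)) (l 3))) (l 3))) (l 3))) (l 3)), by decide +kernel⟩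

theorem c_mm_101 : CertN 536870912 536870912 536870912 536870912 50331648 16777216 3 false false false .npn 1 0 1
    ndN0q1 ndN4q1 pcN0 cut_mm_101 Ext.none :=
  certNK1 (fam := false) (s1 := false) (s2 := false) (a := 1) (b := 0) (c := 1) (cn := .npn) (n1 := ndN0q1) (n2 := ndN4q1) (pc := pcN0) (cut := cut_mm_101) (xt := Ext.none) (P1 := 536870912) (W1 := 536870912) (P2 := 536870912) (W2 := 536870912) (P3 := 50331648) (W3 := 16777216) (N0 := 3)
    rfl rfl rfl (fun _ => rfl) k0_mm_101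

noncomputable def cut_mm_102 : Cut := Cut.of [[⟨0, 1, 0, 50331648⟩, ⟨1, 0, 0, 50331648⟩, ⟨2, 1, 0, 50331648⟩]]

noncomputable def f_mm_102 : ℕ → ℕ → ℕ → ℕ → Bool := onCell 536870912 536870912 0 536870912 50331648 16777216
    (rowNK 3 1 false false false .npp 1 0 2 (qsf 536870912 536870912 1073741824 536870912 0) ndN0q1 ndN4q2 pcN0 cut_mm_102 Ext.none)

def k0_mm_102 : ∃ t, chk3 f_mm_102 t 1 1 1 = true :=
  ⟨(b (a (l 3) (b (a (l 3) (b (a (l 3) (b (a (l 3) (l 6)) (l 3))) (l 3))) (l 3))) (l 3)), by decide +kernel⟩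

theorem c_mm_102 : CertN 536870912 536870912 1073741824 536870912 50331648 16777216 3 false false false .npp 1 0 2
    ndN0q1 ndN4q2 pcN0 cut_mm_102 Ext.none :=
  certNK1 (fam := false) (s1 := false) (s2 := false) (a := 1) (b := 0) (c := 2) (cn := .npp) (n1 := ndN0q1) (n2 := ndN4q2) (pc := pcN0) (cut := cut_mm_102) (xt := Ext.none) (P1 := 536870912) (W1 := 536870912) (P2 := 1073741824) (W2 := 536870912) (P3 := 50331648) (W3 := 16777216) (N0 := 3)
    rfl rfl rfl (fun _ => rfl) k0_mm_102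

noncomputable def f_mm_112 : ℕ → ℕ → ℕ → ℕ → Bool := onCell 536870912 536870912 1073741824 536870912 50331648 16777216
    (rowNK 3 2 false false false .dn 1 1 2 (qsf 536870912 536870912 1073741824 536870912 1) ndN0q1 ndN4q2 pcN1 Cut.none Ext.none)

def k0_mm_112 : ∃ t, chk3 f_mm_112 t 1 1 1 = true :=
  ⟨(a (l 3) (l 5)), by decide +kernel⟩

theorem c_mm_112 : CertN 536870912 536870912 1073741824 536870912 50331648 16777216 3 false false false .dn 1 1 2
    ndN0q1 ndN4q2 pcN1 Cut.none Ext.none :=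
  certNK2 (fam := false) (s1 := false) (s2 := false) (a := 1) (b := 1) (c := 2) (cn := .dn) (n1 := ndN0q1) (n2 := ndN4q2) (pc := pcN1) (cut := Cut.none) (xt := Ext.none) (P1 := 536870912) (W1 := 536870912) (P2 := 1073741824) (W2 := 536870912) (P3 := 50331648) (W3 := 16777216) (N0 := 3)
    rfl rfl rfl (fun _ => rfl) k0_mm_112

noncomputable def f_mm_113 : ℕ → ℕ → ℕ → ℕ → Bool := onCell 536870912 536870912 0 1230186008 50331648 16777216
    (rowNK 3 0 false false false .nn 1 1 3 (qsf 536870912 536870912 0 1230186008 1) ndN0q1 ndN4q3 pcN1 Cut.none Ext.none)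

def k0_mm_113 : ∃ t, chk3 f_mm_113 t 1 1 1 = true :=
  ⟨(b (l 5) (a (l 5) (b (a (l 5) (l 3)) (l 3)))), by decide +kernel⟩

theorem c_mm_113 : CertN 536870912 536870912 0 1230186008 50331648 16777216 3 false false false .nn 1 1 3
    ndN0q1 ndN4q3 pcN1 Cut.none Ext.none :=
  certNK0 (fam := false) (s1 := false) (s2 := false) (a := 1) (b := 1) (c := 3) (cn := .nn) (n1 := ndN0q1) (n2 := ndN4q3) (pc := pcN1) (cut := Cut.none) (xt := Ext.none) (P1 := 536870912) (W1 := 536870912) (P2 := 0) (W2 := 1230186008) (P3 := 50331648) (W3 := 16777216) (N0 := 3)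
    rfl rfl rfl k0_mm_113

noncomputable def f_mm_123 : ℕ → ℕ → ℕ → ℕ → Bool := onCell 1073741824 536870912 0 1230186008 50331648 16777216
    (rowNK 3 2 false false false .npn 1 2 3 (qsf 536870912 536870912 0 1230186008 2) ndN0q1 ndN4q3 pcN2 Cut.none Ext.none)

def k0_mm_123 : ∃ t, chk3 f_mm_123 t 1 1 1 = true :=
  ⟨(b (l 5) (l 5)), by decide +kernel⟩

theorem c_mm_123 : CertN 536870912 536870912 0 1230186008 50331648 16777216 3 false false false .npn 1 2 3
    ndN0q1 ndN4q3 pcN2 Cut.none Ext.none :=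
  certNK2 (fam := false) (s1 := false) (s2 := false) (a := 1) (b := 2) (c := 3) (cn := .npn) (n1 := ndN0q1) (n2 := ndN4q3) (pc := pcN2) (cut := Cut.none) (xt := Ext.none) (P1 := 536870912) (W1 := 536870912) (P2 := 0) (W2 := 1230186008) (P3 := 50331648) (W3 := 16777216) (N0 := 3)
    rfl rfl rfl (fun _ => rfl) k0_mm_123

noncomputable def f_mm_133 : ℕ → ℕ → ℕ → ℕ → Bool := onCell 1610612736 536870912 0 1230186008 50331648 16777216
    (rowNK 3 2 false false false .dn 1 3 3 (qsf 536870912 536870912 0 1230186008 3) ndN0q1 ndN4q3 pcN3 Cut.none Ext.none)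

def k0_mm_133 : ∃ t, chk3 f_mm_133 t 1 1 1 = true :=
  ⟨(l 5), by decide +kernel⟩

theorem c_mm_133 : CertN 536870912 536870912 0 1230186008 50331648 16777216 3 false false false .dn 1 3 3
    ndN0q1 ndN4q3 pcN3 Cut.none Ext.none :=
  certNK2 (fam := false) (s1 := false) (s2 := false) (a := 1) (b := 3) (c := 3) (cn := .dn) (n1 := ndN0q1) (n2 := ndN4q3) (pc := pcN3) (cut := Cut.none) (xt := Ext.none) (P1 := 536870912) (W1 := 536870912) (P2 := 0) (W2 := 1230186008) (P3 := 50331648) (W3 := 16777216) (N0 := 3)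
    rfl rfl rfl (fun _ => rfl) k0_mm_133

noncomputable def cut_mm_202 : Cut := Cut.of [[⟨0, 1, 0, 50331648⟩, ⟨1, 0, 0, 50331648⟩, ⟨2, 1, 0, 50331648⟩]]

noncomputable def f_mm_202 : ℕ → ℕ → ℕ → ℕ → Bool := onCell 0 536870912 0 536870912 50331648 16777216
    (rowNK 3 1 false false false .pp 2 0 2 (qsf 0 536870912 1073741824 536870912 0) ndN0q2 ndN4q2 pcN0 cut_mm_202 Ext.none)

def k0_mm_202 : ∃ t, chk3 f_mm_202 t 2 4 1 = true :=
  ⟨(b (a (l 18548104) (b (l 18281864) (l 18024520))) (a (l 17934344) (l 17855200))), by decide +kernel⟩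

def k1_mm_202 : ∃ t, chk3 f_mm_202 t 6 8 1 = true :=
  ⟨(a (l 17964904) (b (l 17721800) (a (l 17749352) (l 17603480)))), by decide +kernel⟩

def k2_mm_202 : ∃ t, chk3 f_mm_202 t 14 8 1 = true :=
  ⟨(b (a (b (l 17216312) (l 17446536)) (b (b (l 17091360) (l 17021256)) (a (l 17214776) (b (l 16920128) (l 17079944))))) (a (b (l 17456512) (l 17364248)) (b (b (a (l 17268088) (l 17114712)) (l 17176368)) (a (l 17176296) (l 17049416))))), by decide +kernel⟩

def k3_mm_202 : ∃ t, chk3 f_mm_202 t 15 16 1 = true :=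
  ⟨(a (b (a (b (l 6) (l 16911872)) (l 6)) (b (a (l 16963520) (b (a (l 16846352) (l 6)) (l 16898816))) (a (a (l 16926280) (l 16884944)) (a (l 16851576) (l 16846488))))) (b (l 6) (a (b (l 6) (a (a (b (l 16810752) (l 16802392)) (b (l 6) (a (l 16793168) (a (l 16799104) (a (a (l 16791976) (l 6)) (l 6)))))) (l 6))) (l 6)))), by decide +kernel⟩

def k4_mm_202 : ∃ t, chk3 f_mm_202 t 60 34 1 = true :=
  ⟨(b (l 16958024) (l 16962248)), by decide +kernel⟩

def k5_mm_202 : ∃ t, chk3 f_mm_202 t 61 68 1 = true :=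
  ⟨(a (l 16850576) (a (l 16814712) (b (l 16806264) (l 16818184)))), by decide +kernel⟩

def k6_mm_202 : ∃ t, chk3 f_mm_202 t 122 69 1 = true :=
  ⟨(l 16855952), by decide +kernel⟩

def k7_mm_202 : ∃ t, chk3 f_mm_202 t 246 69 1 = true :=
  ⟨(b (l 16814592) (a (l 16809040) (b (l 16798504) (a (l 16792976) (b (l 16788160) (a (l 16784880) (b (l 126869314439) (a (b (l 16781760) (a (l 178408922007) (l 245517787271))) (a (b (l 226190434743) (l 285783104471)) (l 273971944551)))))))))), by decide +kernel⟩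

def k8_mm_202 : ∃ t, chk3 f_mm_202 t 247 69 1 = true :=
  ⟨(b (a (b (l 16797680) (l 16792744)) (b (a (l 16789800) (l 16780784)) (a (b (l 16785872) (a (l 16783760) (b (l 16779736) (b (a (l 16781840) (a (l 176261438327) (l 243907174471))) (a (a (l 16781416) (a (l 189683211143) (l 235854110551))) (l 272898202503)))))) (b (a (b (l 16783176) (a (l 16782368) (a (l 16781752) (a (l 152639117991) (b (l 16781544) (l 229948530519)))))) (b (a (l 16781960) (b (l 16780136) (a (a (l 16781120) (l 226727305047)) (l 251960236711)))) (b (a (a (l 16780576) (c (l 238538465271) (l 237464723303))) (l 283098749847)) (l 275045689079)))) (a (b (a (b (l 154249730711) (a (a (l 183777631047) (l 233169756055)) (l 264308267735))) (a (b (l 241222819911) (l 3)) (l 284709362743))) (l 285246234311)) (l 3)))))) (a (b (a (b (l 16790384) (l 16786056)) (b (a (l 16785640) (a (l 16783392) (a (l 16779720) (b (l 16782632) (b (l 16781616) (l 231022272823)))))) (a (b (l 16779848) (a (a (l 16780384) (b (l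 16781592) (l 236390981911))) (a (b (l 213842403671) (l 276656298839)) (l 267529496135)))) (b (a (a (b (l 16781600) (l 233706627367)) (b (l 186998856519) (l 274508815159))) (l 269676979927)) (l 3))))) (a (b (a (a (l 16783840) (a (l 125258701735) (b (l 16782992) (b (l 16781560) (l 240685949143))))) (b (a (l 138680474359) (a (b (l 16781576) (l 238538465511)) (b (l 217063629207) (l 279340653431)))) (a (a (b (l 220284854663) (l 282025008023)) (l 270750719031)) (l 3)))) (b (a (a (b (a (l 16781544) (l 223506080199)) (l 248202141959)) (l 274508815623)) (l 3)) (l 3))) (b (a (b (l 275582560391) (l 3)) (l 3)) (l 3)))) (b (a (b (b (b (a (l 135459248951) (a (l 258939561383) (l 3))) (a (a (l 16781616) (a (l 228874789207) (l 269676976903))) (l 3))) (b (a (a (a (l 183240760151) (l 248202141687)) (l 287393717319)) (l 3)) (l 282561882807))) (l 3)) (l 3)) (l 3)))), by decide +kernel⟩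

def k9_mm_202 : ∃ t, chk3 f_mm_202 t 60 35 1 = true :=
  ⟨(a (l 16921680) (b (l 16850600) (a (l 16859976) (b (l 16835888) (a (l 16796032) (b (l 16784040) (a (l 16784680) (b (l 16781336) (a (a (l 16780232) (b (l 16784920) (a (l 207399953671) (l 230485402583)))) (b (a (l 201494374359) (a (l 229411660855) (l 246054656967))) (l 267529499095))))))))))), by decide +kernel⟩

def k10_mm_202 : ∃ t, chk3 f_mm_202 t 122 70 1 = true :=
  ⟨(a (b (l 16848672) (l 16804088)) (b (a (l 16822136) (b (l 16810472) (l 16788480))) (a (b (l 16804096) (a (l 16795424) (b (l 16789712) (a (a (l 16786328) (a (l 16784672) (b (l 16785232) (l 163913407319)))) (a (b (l 16783608) (b (l 218137371799) (l 260013300791))) (b (b (l 16782344) (l 231559144567)) (l 277730041207))))))) (b (a (b (l 16793952) (b (l 16789096) (l 115595025399))) (b (a (l 16787424) (a (l 16780328) (b (l 16783760) (b (l 172503342023) (l 239075337895))))) (a (a (b (l 16783728) (b (l 208473695383) (l 244444044359))) (b (a (l 16782248)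 (b (l 16782032) (l 236927852887))) (l 271824461127))) (a (b (b (l 235317240791) (l 279340653719)) (l 3)) (l 3))))) (a (b (a (b (l 16784736) (a (l 149954763671) (b (l 214379275543) (l 256255204423)))) (b (a (b (l 16782424) (l 227264177335)) (b (l 238538466135) (l 284172491975))) (l 277730041559))) (a (a (b (l 255718336295) (l 3)) (l 3)) (l 3))) (l 3)))))), by decide +kernel⟩

def k11_mm_202 : ∃ t, chk3 f_mm_202 t 122 71 1 = true :=
  ⟨(a (b (a (b (l 16814368) (l 16789784)) (b (a (l 16800224) (b (l 16794352) (a (l 16789680) (a (l 16786208) (a (l 16784504) (b (l 16785088) (l 209547437639))))))) (a (b (l 16779128) (a (a (l 16786016) (a (l 16780352) (b (l 16784888) (l 217600501223)))) (a (b (l 16783200) (a (l 229948532503) (l 264308268103))) (b (b (l 170355858231) (l 237464722503)) (l 3))))) (b (a (b (l 16781808) (a (a (l 16782720) (l 213842404887)) (b (l 230485402615) (l 272898202679)))) (a (b (b (l 16780744) (l 232632884375)) (l 3)) (l 272361337703))) (l 280951273463)))))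 (a (b (a (b (l 16794224) (a (l 16789328) (a (l 16785768) (b (l 16785216) (a (l 160155310711) (l 225116693879)))))) (b (a (l 16781824) (b (l 16780256) (a (a (l 16781152) (l 221358597559)) (l 244444047047)))) (a (b (a (l 150491634375) (a (l 223506081175) (l 236390985927))) (l 263234531831)) (l 279877525655)))) (a (b (a (a (b (l 16785072) (a (l 202568115431) (l 227801048215))) (b (l 155323472455) (l 257328951479))) (a (a (b (l 226727306503) (l 3)) (l 264308273655)) (l 280951267111))) (l 285246235575)) (l 3))) (b (a (b (a (a (b (a (l 219747984919) (l 232096016103)) (l 3)) (l 275582557959)) (l 3)) (l 3)) (l 3)) (l 3)))) (b (a (b (a (b (a (l 16787416) (b (l 16784616) (a (a (l 16782944) (l 204715599383)) (b (l 222969210039) (l 264308268087))))) (a (a (b (l 16783424) (b (l 226190435367) (l 268603235383))) (b (b (l 16782144) (l 238001595239)) (l 284709363143))) (l 273971950807))) (b (a (a (b (b (l 16782248) (l 235317240871)) (l 281488137623)) (l 269140112215)) (l 3)) (l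 3))) (l 3)) (l 3)) (l 3))), by decide +kernel⟩

def k12_mm_202 : ∃ t, chk3 f_mm_202 t 123 35 1 = true :=
  ⟨(b (a (b (a (b (a (l 16798040) (b (l 16792768) (l 16780552))) (a (b (l 16789312) (a (l 16780040) (b (a (l 16783768) (a (l 16782352) (b (l 16782136) (l 226727305671)))) (a (b (l 163913407351) (a (l 229411660263) (l 268066364359))) (l 266455757191))))) (b (a (a (l 16781624) (b (l 16783752) (b (l 16780440) (a (l 224042951127) (l 262697655223))))) (b (a (a (l 16782368) (b (l 16782160) (l 220821725639))) (b (a (l 16781432) (l 238538465591)) (l 267529493559))) (l 270213851271))) (a (a (a (b (b (l 16780744) (l 265382009799)) (l 3)) (l 271287595751)) (l 285783105623)) (l 3))))) (b (a (b (a (l 16786920) (b (l 16784536) (a (l 16782792) (b (l 16781776) (a (l 187535727543) (l 250349625479)))))) (a (b (b (l 16783472) (c (l 142438570903) (l 141901699943))) (b (a (l 16781768) (a (l 236390982007) (l 276119428039))) (b (a (l 224579822263) (l 3)) (l 265918883591)))) (b (a (b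 (a (l 16781472) (l 233706627447)) (l 263771397143)) (l 279877524855)) (l 3)))) (b (a (a (a (b (l 16782352) (b (l 231559143863) (l 287930588183))) (b (b (l 16782152) (l 183777631175)) (l 277193170071))) (b (b (a (l 16781512) (l 228874789319)) (l 260013303351)) (l 3))) (l 281488141175)) (l 3))) (a (b (l 285783109399) (l 3)) (l 3)))) (a (b (a (b (a (b (a (a (l 16782304) (b (l 16782088) (l 232096014775))) (a (b (l 184851373031) (l 270750718935)) (l 263234526327))) (l 273971950359)) (l 285783106071)) (l 3)) (l 3)) (l 3)) (l 3))) (l 3)) (l 3)), by decide +kernel⟩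

def k13_mm_202 : ∃ t, chk3 f_mm_202 t 248 68 1 = true :=
  ⟨(b (b (l 16795888) (l 16799272)) (a (b (l 16789976) (a (l 16786912) (b (l 16784920) (a (l 16783360) (b (l 16782360) (a (a (l 16781768) (c (l 144049183335) (l 143512312407))) (b (a (l 16781256) (a (l 185925114455) (l 234780368551))) (a (a (l 236390981287) (l 258939559335)) (l 285246233207))))))))) (b (a (l 16780680) (b (a (l 16784080) (b (l 16783096) (l 16780624))) (a (b (l 16782336) (a (l 16780248) (a (b (l 16781248) (b (l 197199403543) (l 257328946279))) (b (b (l 16780992) (l 228874788183)) (l 279340652983))))) (b (b (a (l 16781448) (a (b (l 16780992) (l 224579820839)) (a (l 244444044647) (l 272898201879)))) (a (a (l 16781048) (b (l 191293823415) (l 254644591687))) (l 279877524039))) (a (a (a (b (l 247128399239) (l 3)) (l 280414394983)) (l 3)) (l 3)))))) (a (b (a (a (l 16782952) (b (l 16782744) (l 130090539431))) (a (b (l 16781960) (b (a (l 16781256) (b (l 16780992) (l 235317239111))) (a (a (l 230485401255)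 (l 253570850167)) (l 283635620375)))) (b (b (l 16781456) (a (l 163913407015) (b (l 202031241767) (l 267529493639)))) (a (l 271287590871) (l 3))))) (a (a (b (a (l 138143603047) (b (l 16781256) (a (l 233706626759) (l 256255204743)))) (l 276119430663)) (b (b (a (a (l 181093276231) (l 231559143047)) (l 264308267479)) (l 285246233351)) (l 3))) (l 3))) (b (a (a (b (b (a (b (l 16780992) (l 232096013671)) (l 251960237751)) (l 283098749607)) (l 3)) (l 3)) (l 3)) (l 3)))))), by decide +kernel⟩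

def k14_mm_202 : ∃ t, chk3 f_mm_202 t 498 136 1 = true :=
  ⟨(b (a (l 16788152) (l 16780504)) (a (b (l 16784784) (a (l 16783272) (a (l 16780144) (b (l 16781912) (a (b (l 16781232) (b (l 16780448) (l 246054657175))) (b (b (l 16780976) (c (l 198273145223) (l 198273145223))) (l 270213847287))))))) (b (a (l 16780504) (b (a (l 16781888) (a (l 16781304) (b (l 16781200) (b (l 16780752) (a (l 205789337895) (l 257328945767)))))) (a (b (c (l 143512312103) (l 141364828311)) (a (b (l 16780760) (l 239612206183)) (l 265918881207))) (b (a (a (b (l 16780656) (l 259476429447)) (l 254644591639)) (l 285246232807)) (l 3))))) (a (b (a (a (l 16781320) (b (l 16781224) (b (l 16780768) (l 242833431671)))) (b (a (b (l 16780968) (c (l 193441306999) (l 190756952279))) (a (b (l 16780656) (l 263771396775)) (l 257328946247))) (l 273435074199))) (a (a (a (b (b (l 16780664) (l 274508815143)) (l 3)) (l 273971946471)) (l 285783104151)) (l 3))) (b (l 285246233815) (l 3)))))), by decide +kernel⟩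

def k15_mm_202 : ∃ t, chk3 f_mm_202 t 499 136 1 = true :=
  ⟨(b (a (b (a (l 16783928) (l 16779784)) (a (b (l 16782240) (a (l 16781488) (b (l 137069861015) (b (a (l 16780752) (l 247128398791)) (b (a (l 206326208711) (l 277193169703)) (l 266455752023)))))) (a (b (a (l 16781280) (a (l 135459248263) (b (l 16781080) (b (l 16780640) (l 249275882023))))) (b (b (a (a (l 16780640) (l 223506077943)) (l 276119427847)) (l 272898201703)) (l 3))) (b (a (a (b (l 16780888) (b (l 220284852407) (l 277193169543))) (b (l 164450277447) (l 278266910711))) (b (b (a (l 16780632) (l 215989885031)) (l 256255204055)) (l 3))) (l 3))))) (b (a (b (a (l 16781824) (a (l 16781256) (a (l 16780304) (b (l 16781056) (b (l 16780616) (l 241222818279)))))) (a (b (l 16779992) (a (a (l 160692180967) (b (l 16780624) (l 245517785607))) (a (b (l 213842401383) (l 277730040391)) (l 275582556087)))) (a (b (b (a (l 16780624) (l 210084304935)) (l 253570849447)) (l 3)) (l 279877523767)))) (b (a (b (a (l 16780104)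 (l 6)) (a (a (b (l 207399950359) (l 278266911239)) (l 273435072391)) (l 3))) (c (l 279877525287) (l 280414396071))) (l 3))) (a (a (b (l 282025007687) (l 3)) (l 3)) (l 3)))) (a (b (a (b (a (b (b (b (l 16780176) (a (l 16780880) (l 229411658455))) (a (l 182703888631) (l 268603235111))) (a (l 263771397511) (l 3))) (l 284172491447)) (l 3)) (l 3)) (l 3)) (l 3))), by decide +kernel⟩

def k16_mm_202 : ∃ t, chk3 f_mm_202 t 249 137 1 = true :=
  ⟨(a (b (a (b (a (a (b (l 16781928) (a (b (l 16781240) (b (l 186461985207) (l 251423366183))) (b (b (l 16780984) (l 221358595383)) (l 274508814679)))) (b (a (l 16780024) (b (l 16781240) (b (l 181630146983) (l 248202140679)))) (b (a (b (l 236390980903) (l 277730040871)) (l 286856845767)) (l 3)))) (b (a (b (a (b (l 16780984) (c (l 202568112535) (l 202568112535))) (b (l 232096013463) (l 277730040807))) (l 276656298455)) (l 285246233511)) (l 3))) (l 3)) (l 3)) (l 3)) (l 3)), by decide +kernel⟩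

def k17_mm_202 : ∃ t, chk3 f_mm_202 t 124 69 1 = true :=
  ⟨(a (b (a (b (a (b (a (l 16784168) (a (l 16782968) (a (l 16782368) (a (l 16780760) (b (l 16782472) (b (l 16781560) (l 197736274599))))))) (a (b (l 16782368) (a (a (l 16781760) (a (l 16780136) (b (l 16781552) (l 222969208615)))) (b (a (l 16781240) (a (l 221358595879) (l 246054657687))) (l 265382012231)))) (b (b (a (l 16781456) (a (a (l 200957500119) (l 243370303127)) (l 273971944055))) (a (a (a (l 16781136) (l 219747983143)) (l 250886495991)) (l 287930588119))) (l 282025008663)))) (b (b (b (a (l 16780552) (a (a (a (l 191830694567) (l 237464723095)) (l 269140105767)) (l 3))) (a (a (l 16781664) (a (a (l 16781144) (l 193441307303)) (l 246591528727))) (l 285783104791))) (a (a (b (a (l 16781248) (a (l 195588790951) (l 240685948567))) (a (l 248739012311) (l 286856846039))) (l 278803782695)) (l 3))) (l 3))) (a (b (a (a (a (b (a (b (l 225116692343) (l 3)) (l 266455754087)) (l 3)) (l 283098750551)) (l 3)) (l 3))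 (l 3)) (l 3))) (l 3)) (l 3)) (l 3)), by decide +kernel⟩

def k18_mm_202 : ∃ t, chk3 f_mm_202 t 125 34 1 = true :=
  ⟨(l 3), by decide +kernel⟩

def k19_mm_202 : ∃ t, chk3 f_mm_202 t 63 34 1 = true :=
  ⟨(l 3), by decide +kernel⟩

def k20_mm_202 : ∃ t, chk3 f_mm_202 t 31 35 1 = true :=
  ⟨(l 3), by decide +kernel⟩

def k21_mm_202 : ∃ t, chk3 f_mm_202 t 6 9 1 = true :=
  ⟨(b (a (l 17635112) (a (l 17527736) (b (l 17398040) (l 17258272)))) (a (b (l 17435576) (l 17312944)) (a (l 17216144) (l 17103824)))), by decide +kernel⟩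

def k22_mm_202 : ∃ t, chk3 f_mm_202 t 14 18 1 = true :=
  ⟨(a (b (l 17216984) (l 17230880)) (b (a (l 17001616) (a (l 16949464) (b (l 16931368) (l 16851616)))) (a (a (l 16977080) (l 16897392)) (a (b (l 16841208) (a (b (l 16857664) (l 16830768)) (b (l 16803960) (a (b (l 16813064) (l 16778928)) (b (a (l 16800640) (a (l 16794360) (l 197199415191))) (a (b (l 16780280) (a (l 198273151495) (l 211694921287))) (b (b (l 207936828631) (l 225116696855)) (l 265382010311)))))))) (b (a (b (l 16846736) (a (l 16827120) (b (l 16816784) (l 16781872)))) (b (a (l 16820360) (b (l 16809544) (a (l 16799800) (b (l 16794296) (a (l 16789480) (l 192367570823)))))) (a (b (a (l 16803576) (b (l 16798192) (l 16780704))) (a (b (l 16793120) (a (l 16788432) (l 204715603191))) (b (a (l 192904442183) (b (l 199883761367) (l 224042949079))) (a (l 232096015399) (l 3))))) (b (a (b (l 190220090823) (a (b (l 16786224) (l 215453018935)) (b (l 207399953287) (l 263234525463)))) (b (a (b (l 193441310455) (l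 213305531527)) (l 247128400903)) (l 3))) (l 279340666839))))) (a (b (a (b (l 16806408) (a (l 16786640) (b (l 16791944) (a (l 16782136) (l 208473697687))))) (b (a (b (l 16796888) (l 16779584)) (b (a (l 16790352) (l 198273151287)) (a (l 206863085895) (l 236390982727)))) (a (b (a (l 202568118471) (b (l 216526760903) (l 247128398103))) (l 254107731335)) (l 282025009847)))) (a (b (a (b (l 196662541607) (a (l 210084309479) (l 247128398503))) (b (l 239612208663) (l 3))) (l 3)) (l 3))) (b (a (b (a (b (a (b (l 205252470375) (l 229948528903)) (l 260013300455)) (l 3)) (l 3)) (l 3)) (l 3)) (l 3)))))))), by decide +kernel⟩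

def k23_mm_202 : ∃ t, chk3 f_mm_202 t 14 19 1 = true :=
  ⟨(a (a (l 17012096) (b (l 16949256) (a (l 16879296) (b (l 16832192) (a (l 16822712) (b (l 16787352) (a (b (l 16799248) (l 220284869767)) (b (l 218674251479) (l 255718356199))))))))) (a (b (a (b (l 16896192) (l 16836232)) (b (b (l 16830176) (a (l 16840712) (a (l 16818392) (b (l 16809352) (a (l 16800840) (b (l 16796224) (l 16779624))))))) (a (b (l 16795280) (a (b (l 16805776) (l 200420650471)) (b (a (l 16794928) (l 213842415655)) (a (b (l 200957506935) (l 229948529975)) (l 260550172807))))) (b (a (b (l 16779096) (b (l 202568128151) (a (l 16783696) (l 225116692423)))) (b (a (l 207399964263) (b (l 212768666695) (l 252497108247))) (l 264845162103))) (a (b (a (l 232096019495) (l 3)) (l 3)) (l 3)))))) (a (b (a (b (l 16825608) (a (l 16810216) (b (l 16802392) (l 214379292647)))) (b (a (l 16784384) (b (l 16786608) (a (l 206863093415) (l 217063640887)))) (a (b (l 217063643527) (l 241222830967)) (l 270750743895))))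 (a (a (b (a (l 212768683607) (b (l 260550212455) (l 231559143351))) (l 279340678983)) (c (l 276656347783) (l 277193213191))) (l 3))) (b (a (b (a (b (a (l 215453026087) (l 236927862855)) (l 275582559927)) (l 3)) (l 3)) (l 3)) (l 3)))) (b (a (b (a (b (a (l 16791736) (b (l 16782224) (a (l 16783976) (b (l 16779112) (l 212768666535))))) (a (b (a (l 16797720) (l 202568126631)) (a (b (a (l 16790408) (l 266455777495)) (l 214916146919)) (l 244444050359))) (b (a (b (l 210621185143) (l 240685958503)) (l 269140107623)) (l 3)))) (b (a (b (a (l 193441321735) (b (l 202568121063) (l 233169760455))) (a (b (a (l 209010569399) (l 236927851207)) (l 3)) (l 3))) (l 279340668695)) (l 3))) (a (b (l 291151842631) (l 3)) (l 3))) (l 3)) (l 3)))), by decide +kernel⟩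

def k24_mm_202 : ∃ t, chk3 f_mm_202 t 120 36 1 = true :=
  ⟨(b (a (l 16877272) (b (l 16854640) (l 16804096))) (a (b (l 16812024) (b (l 16780824) (a (l 16784712) (a (b (l 16795416) (a (l 16790504) (b (l 16787664) (l 193978181495)))) (b (a (l 16783176) (b (l 16780312) (l 204715599223))) (a (a (l 204715599367) (a (l 212768661911) (l 231022273159))) (l 259476429415))))))) (b (a (b (l 16812296) (a (l 16802256) (b (l 16796472) (l 119353120071)))) (b (a (l 16787560) (a (l 16780224) (b (l 16789784) (a (l 194515053847) (b (l 191830697063) (l 248739010967)))))) (a (b (a (l 16789344) (b (l 16786424) (l 192904438967))) (a (a (b (l 16785032) (l 218674242183)) (b (l 198273147703) (l 254644590839))) (l 251960239527))) (b (a (b (c (l 206863082759) (l 204715598615)) (l 261623913047)) (l 3)) (l 3))))) (a (b (a (b (l 16780752) (a (l 191830700599) (a (l 203104987463) (a (l 210084308087) (l 220284855207))))) (b (a (a (l 187535731815) (b (l 16784816) (l 218674241559))) (b (l 208473695159)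 (l 268066363895))) (l 264845144615))) (a (b (a (b (l 210621177399) (l 3)) (l 3)) (l 3)) (l 3))) (l 3))))), by decide +kernel⟩

def k25_mm_202 : ∃ t, chk3 f_mm_202 t 121 36 1 = true :=
  ⟨(b (a (b (a (l 16826112) (b (l 16814256) (a (l 16804232) (l 16781424)))) (a (b (l 16782832) (a (b (l 16797440) (l 16779512)) (b (a (l 16790216) (a (l 16781368) (b (l 16786064) (l 205789341111)))) (a (b (l 16782048) (a (l 208473695543) (l 242833436391))) (b (c (a (l 220821726711) (l 262160784103)) (l 220821726583)) (l 3)))))) (b (a (b (l 16793032) (a (l 16788008) (b (l 16785064) (a (l 202031244775) (l 229411661255))))) (b (a (a (l 16781760) (b (l 16786448) (l 155860342855))) (b (c (a (l 16779176) (l 217600501287)) (l 193441310775)) (l 238538465527))) (a (a (b (a (l 203104985975) (l 226190434903)) (l 3)) (l 267529504167)) (l 3)))) (a (b (a (b (a (l 16783688) (a (l 206863082247) (l 229411660247))) (l 243370302935)) (l 272898203143)) (l 3)) (l 3))))) (b (a (b (a (l 16799728) (b (l 16793744)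 (a (l 16783504) (a (l 16780560) (b (l 16784600) (a (l 215453017239) (l 227801046119))))))) (a (b (b (l 16790424) (l 116668766295)) (a (b (l 16785432) (b (l 203641858055) (l 210084306855))) (a (b (a (l 16780384) (l 220284855271)) (l 273435073479)) (l 256255209847)))) (a (b (a (b (l 16784424) (a (l 218674242567) (l 231559142311))) (b (c (l 211694921463) (l 210084308471)) (l 269140106199))) (l 3)) (l 270750725959)))) (b (a (b (a (l 16779952) (a (b (l 16784768) (a (l 211158049991) (l 225653562775))) (b (l 205252470775) (l 263234526215)))) (a (b (a (l 208473696167) (l 236390983239)) (l 271824461127)) (l 3))) (b (a (a (a (b (l 232632886199) (l 3)) (l 268603235671)) (l 3)) (l 3)) (l 3))) (l 3))) (a (b (a (l 276656306711) (l 3)) (l 3)) (l 3)))) (a (b (a (b (a (b (a (a (l 16780960) (l 190220086135)) (b (c (l 204715599927) (l 203104986711)) (l 248739011271))) (a (l 248202143271) (l 3))) (l 284172504599)) (l 3)) (l 3)) (l 3)) (l 3))), by decide +kernel⟩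

def k26_mm_202 : ∃ t, chk3 f_mm_202 t 60 37 1 = true :=
  ⟨(a (b (a (b (a (b (a (l 16785384) (b (l 16779768) (a (b (l 16787192) (l 198810019479)) (a (l 206863082855) (l 229411660503))))) (a (b (a (l 16782216) (b (l 186461988615) (l 210084306775))) (a (a (l 209547436615) (l 234780369639)) (l 3))) (a (l 259476435415) (l 3)))) (b (a (b (a (b (l 16779872) (l 207399952983)) (b (l 213305531239) (l 3))) (l 276656299399)) (l 3)) (l 3))) (l 3)) (l 3)) (l 3)) (l 3)), by decide +kernel⟩

def k27_mm_202 : ∃ t, chk3 f_mm_202 t 61 18 1 = true :=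
  ⟨(l 3), by decide +kernel⟩

def k28_mm_202 : ∃ t, chk3 f_mm_202 t 31 18 1 = true :=
  ⟨(l 3), by decide +kernel⟩

def k29_mm_202 : ∃ t, chk3 f_mm_202 t 15 19 1 = true :=
  ⟨(l 3), by decide +kernel⟩

def k30_mm_202 : ∃ t, chk3 f_mm_202 t 2 5 1 = true :=
  ⟨(b (a (a (l 17607328) (l 17590336)) (b (a (l 17515048) (a (l 17489616) (l 17366704))) (a (l 17531800) (l 17416576)))) (a (b (l 17725552) (a (l 17894352) (l 17675648))) (a (l 17666064) (b (l 17261016) (l 17146584))))), by decide +kernel⟩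

def k31_mm_202 : ∃ t, chk3 f_mm_202 t 3 5 1 = true :=
  ⟨(a (b (a (b (l 17368136) (l 17105424)) (a (b (l 17042992) (b (l 16947832) (l 16916880))) (b (b (l 16969544) (a (l 16926840) (a (l 16881376) (l 16848264)))) (a (b (l 16864304) (a (l 16846576) (b (a (l 16818128) (l 16783528)) (a (l 258402758423) (l 246591554791))))) (b (a (b (l 16835024) (a (l 16815192) (l 240149137079))) (b (a (l 16811328) (b (l 16801824) (l 203641887495))) (a (b (l 273435139207) (l 254644615799)) (l 294373067399)))) (a (b (a (b (l 16806728) (l 218137395175)) (l 270750745527)) (l 3)) (l 3))))))) (a (a (b (l 17060496) (l 16955576)) (b (l 16917024) (a (b (l 16891992) (l 16843200)) (b (l 16835120) (a (l 263771531399) (l 253570926167)))))) (b (a (a (b (l 16874896) (a (l 16840688) (l 207936964119))) (b (a (l 16832304) (l 261087183927)) (a (b (l 263234618487) (l 254644640919)) (l 293299350695)))) (a (b (a (b (a (l 258939628823) (l 221358645943)) (l 286320003591)) (l 315847912071)) (l 3)) (l 3)))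 (a (a (b (a (b (l 16805528) (l 224043005175)) (l 272898276279)) (l 321753494775)) (l 3)) (l 3))))) (b (a (a (b (a (b (a (l 16882208) (b (l 16861384) (b (l 16833128) (l 16794392)))) (a (b (l 16828880) (a (b (l 16814040) (l 243370350727)) (b (l 219748022103) (l 231559167623)))) (b (a (b (l 16808440) (a (l 16797080) (l 204715628983))) (a (b (l 225653591991) (l 253033981479)) (l 256792101655))) (l 297057426231)))) (b (a (b (a (l 16829240) (b (l 16816360) (a (l 16803096) (l 221895497607)))) (a (b (l 221358640407) (a (l 223506105239) (l 236927875223))) (b (a (b (l 224579838103) (l 231559185831)) (l 260550195975)) (l 3)))) (b (a (b (a (l 224579855303) (b (l 218137389207) (l 210084318615))) (l 254107735863)) (l 292762456679)) (l 3))) (a (l 326585358247) (l 3)))) (a (b (a (b (l 279340726375) (l 3)) (l 3)) (l 3)) (l 3))) (l 3)) (l 3)) (l 3))), by decide +kernel⟩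

def k32_mm_202 : ∃ t, chk3 f_mm_202 t 1 3 1 = true :=
  ⟨(a (b (a (b (a (l 17787120) (l 17700816)) (a (l 17740584) (l 17281456))) (b (a (l 17240168) (b (l 17066264) (a (l 16985464) (a (l 16896720) (b (l 16865128) (l 217063754023)))))) (a (b (l 17038800) (l 258336069239)) (b (a (b (l 16906032) (l 16855392)) (a (b (l 16822624) (l 255718412503)) (l 285783243591))) (a (a (b (l 16832896) (l 241759756935)) (l 275582697287)) (l 327122238007)))))) (a (l 2) (a (l 2) (a (l 2) (l 3))))) (b (a (b (a (b (b (a (l 16858712) (a (a (l 212768753015) (l 236391062999)) (l 306721124199))) (a (a (l 16858264) (l 243370457687)) (l 312626760167))) (a (a (b (a (l 16823512) (l 264308390535)) (l 271824533623)) (l 300278739719)) (l 3))) (l 3)) (l 3)) (l 3)) (l 3))), by decide +kernel⟩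

theorem s33_mm_202 : ∃ t, chk3 f_mm_202 t 1 5 1 = true := ex3_a k30_mm_202 k31_mm_202

theorem s34_mm_202 : ∃ t, chk3 f_mm_202 t 60 36 1 = true := ex3_a k24_mm_202 k25_mm_202

theorem s35_mm_202 : ∃ t, chk3 f_mm_202 t 60 18 1 = true := ex3_b s34_mm_202 k26_mm_202

theorem s36_mm_202 : ∃ t, chk3 f_mm_202 t 30 18 1 = true := ex3_a s35_mm_202 k27_mm_202

theorem s37_mm_202 : ∃ t, chk3 f_mm_202 t 15 18 1 = true := ex3_a s36_mm_202 k28_mm_202

theorem s38_mm_202 : ∃ t, chk3 f_mm_202 t 15 9 1 = true := ex3_b s37_mm_202 k29_mm_202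

theorem s39_mm_202 : ∃ t, chk3 f_mm_202 t 14 9 1 = true := ex3_b k22_mm_202 k23_mm_202

theorem s40_mm_202 : ∃ t, chk3 f_mm_202 t 7 9 1 = true := ex3_a s39_mm_202 s38_mm_202

theorem s41_mm_202 : ∃ t, chk3 f_mm_202 t 3 9 1 = true := ex3_a k21_mm_202 s40_mm_202

theorem s42_mm_202 : ∃ t, chk3 f_mm_202 t 249 136 1 = true := ex3_a k14_mm_202 k15_mm_202

theorem s43_mm_202 : ∃ t, chk3 f_mm_202 t 249 68 1 = true := ex3_b s42_mm_202 k16_mm_202

theorem s44_mm_202 : ∃ t, chk3 f_mm_202 t 124 68 1 = true := ex3_a k13_mm_202 s43_mm_202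

theorem s45_mm_202 : ∃ t, chk3 f_mm_202 t 124 34 1 = true := ex3_b s44_mm_202 k17_mm_202

theorem s46_mm_202 : ∃ t, chk3 f_mm_202 t 62 34 1 = true := ex3_a s45_mm_202 k18_mm_202

theorem s47_mm_202 : ∃ t, chk3 f_mm_202 t 31 34 1 = true := ex3_a s46_mm_202 k19_mm_202

theorem s48_mm_202 : ∃ t, chk3 f_mm_202 t 31 17 1 = true := ex3_b s47_mm_202 k20_mm_202

theorem s49_mm_202 : ∃ t, chk3 f_mm_202 t 122 35 1 = true := ex3_b k10_mm_202 k11_mm_202

theorem s50_mm_202 : ∃ t, chk3 f_mm_202 t 61 35 1 = true := ex3_a s49_mm_202 k12_mm_202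

theorem s51_mm_202 : ∃ t, chk3 f_mm_202 t 30 35 1 = true := ex3_a k9_mm_202 s50_mm_202

theorem s52_mm_202 : ∃ t, chk3 f_mm_202 t 123 69 1 = true := ex3_a k7_mm_202 k8_mm_202

theorem s53_mm_202 : ∃ t, chk3 f_mm_202 t 61 69 1 = true := ex3_a k6_mm_202 s52_mm_202

theorem s54_mm_202 : ∃ t, chk3 f_mm_202 t 61 34 1 = true := ex3_b k5_mm_202 s53_mm_202

theorem s55_mm_202 : ∃ t, chk3 f_mm_202 t 30 34 1 = true := ex3_a k4_mm_202 s54_mm_202

theorem s56_mm_202 : ∃ t, chk3 f_mm_202 t 30 17 1 = true := ex3_b s55_mm_202 s51_mm_202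

theorem s57_mm_202 : ∃ t, chk3 f_mm_202 t 15 17 1 = true := ex3_a s56_mm_202 s48_mm_202

theorem s58_mm_202 : ∃ t, chk3 f_mm_202 t 15 8 1 = true := ex3_b k3_mm_202 s57_mm_202

theorem s59_mm_202 : ∃ t, chk3 f_mm_202 t 7 8 1 = true := ex3_a k2_mm_202 s58_mm_202

theorem s60_mm_202 : ∃ t, chk3 f_mm_202 t 3 8 1 = true := ex3_a k1_mm_202 s59_mm_202

theorem s61_mm_202 : ∃ t, chk3 f_mm_202 t 3 4 1 = true := ex3_b s60_mm_202 s41_mm_202

theorem s62_mm_202 : ∃ t, chk3 f_mm_202 t 1 4 1 = true := ex3_a k0_mm_202 s61_mm_202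

theorem s63_mm_202 : ∃ t, chk3 f_mm_202 t 1 2 1 = true := ex3_b s62_mm_202 s33_mm_202

theorem s64_mm_202 : ∃ t, chk3 f_mm_202 t 1 1 1 = true := ex3_b s63_mm_202 k32_mm_202

theorem c_mm_202 : CertN 0 536870912 1073741824 536870912 50331648 16777216 3 false false false .pp 2 0 2
    ndN0q2 ndN4q2 pcN0 cut_mm_202 Ext.none :=
  certNK1 (fam := false) (s1 := false) (s2 := false) (a := 2) (b := 0) (c := 2) (cn := .pp) (n1 := ndN0q2) (n2 := ndN4q2) (pc := pcN0) (cut := cut_mm_202) (xt := Ext.none) (P1 := 0) (W1 := 536870912) (P2 := 1073741824) (W2 := 536870912) (P3 := 50331648) (W3 := 16777216) (N0 := 3)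
    rfl rfl rfl (fun _ => rfl) s64_mm_202

noncomputable def f_mm_203 : ℕ → ℕ → ℕ → ℕ → Bool := onCell 0 536870912 0 1230186008 50331648 16777216
    (rowNK 3 0 false false false .up 2 0 3 (qsf 0 536870912 0 1230186008 0) ndN0q2 ndN4q3 pcN0 Cut.none Ext.none)

def k0_mm_203 : ∃ t, chk3 f_mm_203 t 1 1 1 = true :=
  ⟨(b (l 2) (b (l 2) (a (b (a (b (l 2) (b (l 2) (a (l 16932152) (a (a (l 266992840839) (l 285246292839)) (l 3))))) (l 3)) (a (b (a (l 17094792) (a (b (l 16865664) (l 16968440)) (b (a (l 249812869239) (l 297594325079)) (a (l 16879584) (l 235317452423))))) (a (l 17376768) (b (l 17025088) (l 17158904)))) (b (a (a (b (l 3) (a (l 266992743719) (l 311016081479))) (l 3)) (l 3)) (a (a (b (a (l 16866840) (b (l 247665312983) (l 16833392))) (l 16950888)) (b (b (l 323364129959) (l 285246347047)) (a (b (l 16826424) (l 16882464)) (b (l 266455823047) (l 224579973687))))) (a (b (l 3) (a (l 292225697383) (l 3))) (l 3)))))) (l 3)))), by decide +kernel⟩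

theorem c_mm_203 : CertN 0 536870912 0 1230186008 50331648 16777216 3 false false false .up 2 0 3
    ndN0q2 ndN4q3 pcN0 Cut.none Ext.none :=
  certNK0 (fam := false) (s1 := false) (s2 := false) (a := 2) (b := 0) (c := 3) (cn := .up) (n1 := ndN0q2) (n2 := ndN4q3) (pc := pcN0) (cut := Cut.none) (xt := Ext.none) (P1 := 0) (W1 := 536870912) (P2 := 0) (W2 := 1230186008) (P3 := 50331648) (W3 := 16777216) (N0 := 3)
    rfl rfl rfl k0_mm_203

noncomputable def f_mm_213 : ℕ → ℕ → ℕ → ℕ → Bool := onCell 0 536870912 0 1230186008 50331648 16777216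
    (rowNK 3 0 false false false .pnn 2 1 3 (qsf 0 536870912 0 1230186008 1) ndN0q2 ndN4q3 pcN1 Cut.none Ext.none)

def k0_mm_213 : ∃ t, chk3 f_mm_213 t 1 1 1 = true :=
  ⟨(b (a (l 3) (b (l 5) (l 3))) (b (a (b (l 3) (a (l 3) (l 3))) (l 3)) (a (b (a (b (a (a (b (l 280951315143) (l 233706688711)) (l 307258056519)) (l 3)) (a (a (l 16885904) (b (l 247665361559) (l 16847216))) (a (b (l 311552965095) (l 258402811319)) (l 327659162615)))) (l 3)) (b (a (l 1) (a (l 1) (l 3))) (l 1))) (l 3)))), by decide +kernel⟩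

theorem c_mm_213 : CertN 0 536870912 0 1230186008 50331648 16777216 3 false false false .pnn 2 1 3
    ndN0q2 ndN4q3 pcN1 Cut.none Ext.none :=
  certNK0 (fam := false) (s1 := false) (s2 := false) (a := 2) (b := 1) (c := 3) (cn := .pnn) (n1 := ndN0q2) (n2 := ndN4q3) (pc := pcN1) (cut := Cut.none) (xt := Ext.none) (P1 := 0) (W1 := 536870912) (P2 := 0) (W2 := 1230186008) (P3 := 50331648) (W3 := 16777216) (N0 := 3)
    rfl rfl rfl k0_mm_213

end Pool.Agent.Strip051.G.I3_64_1_16.Tab.C.NB04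

namespace Pool.Agent.Strip051.G.I3_64_1_16.Tab.C.NB10

open Pool.Agent.Strip051.PB Pool.Agent.Strip051.PB.T
open Pool.Agent.Strip051.G.I3_64_1_16.Tab

noncomputable def f_pp_001 : ℕ → ℕ → ℕ → ℕ → Bool := onCell 0 536870912 0 536870912 50331648 16777216
    (rowNK 3 1 false true true .up 0 0 1 (qsf 0 536870912 536870912 536870912 0) ndN1q0 ndN0q1 pcN0 Cut.none Ext.none)

def k0_pp_001 : ∃ t, chk3 f_pp_001 t 1 1 1 = true :=
  ⟨(l 3), by decide +kernel⟩

theorem c_pp_001 : CertN 0 536870912 536870912 536870912 50331648 16777216 3 false true true .up 0 0 1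
    ndN1q0 ndN0q1 pcN0 Cut.none Ext.none :=
  certNK1 (fam := false) (s1 := true) (s2 := true) (a := 0) (b := 0) (c := 1) (cn := .up) (n1 := ndN1q0) (n2 := ndN0q1) (pc := pcN0) (cut := Cut.none) (xt := Ext.none) (P1 := 0) (W1 := 536870912) (P2 := 536870912) (W2 := 536870912) (P3 := 50331648) (W3 := 16777216) (N0 := 3)
    rfl rfl rfl (fun _ => rfl) k0_pp_001

noncomputable def cut_pp_011 : Cut := Cut.of [[⟨0, 0, 0, 50331648⟩, ⟨1, 1, 0, 50331648⟩, ⟨2, 1, 0, 50331648⟩]]

noncomputable def f_pp_011 : ℕ → ℕ → ℕ → ℕ → Bool := onCell 0 536870912 536870912 536870912 50331648 16777216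
    (rowNK 3 0 false true true .pnn 0 1 1 (qsf 0 536870912 536870912 536870912 1) ndN1q0 ndN0q1 pcN1 cut_pp_011 Ext.none)

def k0_pp_011 : ∃ t, chk3 f_pp_011 t 1 1 1 = true :=
  ⟨(a (b (l 3) (b (l 3) (a (b (l 3) (a (b (l 3) (a (b (l 3) (a (l 6) (l 3))) (l 3))) (l 3))) (l 3)))) (l 3)), by decide +kernel⟩

theorem c_pp_011 : CertN 0 536870912 536870912 536870912 50331648 16777216 3 false true true .pnn 0 1 1
    ndN1q0 ndN0q1 pcN1 cut_pp_011 Ext.none :=
  certNK0 (fam := false) (s1 := true) (s2 := true) (a := 0) (b := 1) (c := 1) (cn := .pnn) (n1 := ndN1q0) (n2 := ndN0q1) (pc := pcN1) (cut := cut_pp_011) (xt := Ext.none) (P1 := 0) (W1 := 536870912) (P2 := 536870912) (W2 := 536870912) (P3 := 50331648) (W3 := 16777216) (N0 := 3)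
    rfl rfl rfl k0_pp_011

noncomputable def cut_pp_012 : Cut := Cut.of [[⟨0, 0, 0, 50331648⟩, ⟨1, 1, 0, 50331648⟩, ⟨2, 1, 0, 50331648⟩]]

noncomputable def f_pp_012 : ℕ → ℕ → ℕ → ℕ → Bool := onCell 536870912 536870912 0 536870912 50331648 16777216
    (rowNK 3 2 false true true .pnp 0 1 2 (qsf 0 536870912 0 536870912 1) ndN1q0 ndN0q2 pcN1 cut_pp_012 Ext.none)

def k0_pp_012 : ∃ t, chk3 f_pp_012 t 1 1 1 = true :=
  ⟨(a (b (b (a (l 2) (l 18184312)) (a (l 18188976) (l 18209416))) (a (b (l 124725199207) (l 3)) (b (l 18269040) (b (l 138146863527) (l 3))))) (b (a (b (l 18025464) (l 18003904)) (a (l 17972128) (a (l 18183104) (a (l 18291920) (l 18650264))))) (a (b (l 17967272) (b (l 18088640) (b (l 133314315031) (l 3)))) (b (a (l 17639792) (a (l 17633512) (b (l 17948008) (l 17684032)))) (a (b (l 17507528) (b (l 17413232) (b (l 17501528) (l 3)))) (b (a (l 17290472) (b (l 17393496) (a (l 17162944) (l 17061048)))) (a (b (l 17173912) (b (l 17112848) (l 132775464167))) (b (a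 (l 17063648) (b (l 16993992) (l 6))) (a (b (l 16982496) (l 6)) (l 6)))))))))), by decide +kernel⟩

theorem c_pp_012 : CertN 0 536870912 0 536870912 50331648 16777216 3 false true true .pnp 0 1 2
    ndN1q0 ndN0q2 pcN1 cut_pp_012 Ext.none :=
  certNK2 (fam := false) (s1 := true) (s2 := true) (a := 0) (b := 1) (c := 2) (cn := .pnp) (n1 := ndN1q0) (n2 := ndN0q2) (pc := pcN1) (cut := cut_pp_012) (xt := Ext.none) (P1 := 0) (W1 := 536870912) (P2 := 0) (W2 := 536870912) (P3 := 50331648) (W3 := 16777216) (N0 := 3)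
    rfl rfl rfl (fun _ => rfl) k0_pp_012

noncomputable def cut_pp_022 : Cut := Cut.of [[⟨0, 0, 0, 50331648⟩, ⟨1, 1, 0, 50331648⟩, ⟨2, 1, 0, 50331648⟩]]

noncomputable def f_pp_022 : ℕ → ℕ → ℕ → ℕ → Bool := onCell 1073741824 536870912 0 536870912 50331648 16777216
    (rowNK 3 2 false true true .pp 0 2 2 (qsf 0 536870912 0 536870912 2) ndN1q0 ndN0q2 pcN2 cut_pp_022 Ext.none)

def k0_pp_022 : ∃ t, chk3 f_pp_022 t 1 1 1 = true :=
  ⟨(a (b (a (b (a (l 18608720) (l 18530712)) (a (a (a (l 18370552) (l 18282840)) (l 18221312)) (a (l 18314368) (l 18692984)))) (a (b (l 291022282039) (a (l 546035406551) (l 1))) (l 1))) (a (b (a (a (a (l 17934400) (b (l 18010032) (l 17686808))) (b (l 18023768) (a (l 17695192) (b (l 17898200) (l 17672080))))) (b (a (l 18262168) (l 292631890407)) (a (b (a (l 18059088) (l 246997180663)) (a (b (l 17926904) (a (l 17732216) (b (l 269544458487) (l 285650906615)))) (b (l 425238048423) (l 1)))) (b (l 460672382087) (l 1))))) (b (a (a (a (b (l 17235488)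 (l 16943408)) (a (b (l 17126064) (l 16830928)) (b (l 17089736) (b (l 16769000) (l 16821784))))) (a (b (a (l 17089272) (l 17121192)) (a (b (l 16739200) (b (l 16773472) (l 6))) (b (a (l 16739512) (b (l 16736192) (l 16774320))) (b (a (b (l 16741944) (l 6)) (b (l 260952837975) (a (l 6) (l 1)))) (a (l 6) (l 1)))))) (b (b (a (l 17331448) (l 17186104)) (a (b (l 17101264) (l 16859728)) (b (a (l 17163536) (b (l 272228063991) (l 289407624919))) (a (b (l 271690716279) (l 285649050647)) (l 307661048215))))) (a (b (b (a (l 16762288) (l 287259533831)) (a (b (l 269542745863) (l 251826021623)) (l 257731641191))) (b (a (l 250752324871) (l 1)) (l 1))) (b (b (l 271153501847) (l 1)) (l 1)))))) (a (b (a (b (a (b (a (l 17555432) (l 300146055511)) (a (b (l 17209040) (l 289408194343)) (l 376918321863))) (l 397856568631)) (a (b (l 347926914055) (l 1)) (l 1))) (l 1)) (l 1)) (l 1))) (a (a (l 6) (a (b (a (l 6) (l 1)) (l 1)) (l 1))) (l 1)))) (b (l 1) (l 1)))) (l 1)), by decide +kernel⟩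

theorem c_pp_022 : CertN 0 536870912 0 536870912 50331648 16777216 3 false true true .pp 0 2 2
    ndN1q0 ndN0q2 pcN2 cut_pp_022 Ext.none :=
  certNK2 (fam := false) (s1 := true) (s2 := true) (a := 0) (b := 2) (c := 2) (cn := .pp) (n1 := ndN1q0) (n2 := ndN0q2) (pc := pcN2) (cut := cut_pp_022) (xt := Ext.none) (P1 := 0) (W1 := 536870912) (P2 := 0) (W2 := 536870912) (P3 := 50331648) (W3 := 16777216) (N0 := 3)
    rfl rfl rfl (fun _ => rfl) k0_pp_022

noncomputable def f_pp_101 : ℕ → ℕ → ℕ → ℕ → Bool := onCell 536870912 536870912 536870912 536870912 50331648 16777216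
    (rowNK 3 0 false true true .npn 1 0 1 (qsf 536870912 536870912 536870912 536870912 0) ndN1q1 ndN0q1 pcN0 Cut.none Ext.none)

def k0_pp_101 : ∃ t, chk3 f_pp_101 t 1 1 1 = true :=
  ⟨(l 3), by decide +kernel⟩

theorem c_pp_101 : CertN 536870912 536870912 536870912 536870912 50331648 16777216 3 false true true .npn 1 0 1
    ndN1q1 ndN0q1 pcN0 Cut.none Ext.none :=
  certNK0 (fam := false) (s1 := true) (s2 := true) (a := 1) (b := 0) (c := 1) (cn := .npn) (n1 := ndN1q1) (n2 := ndN0q1) (pc := pcN0) (cut := Cut.none) (xt := Ext.none) (P1 := 536870912) (W1 := 536870912) (P2 := 536870912) (W2 := 536870912) (P3 := 50331648) (W3 := 16777216) (N0 := 3)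
    rfl rfl rfl k0_pp_101

noncomputable def f_pp_102 : ℕ → ℕ → ℕ → ℕ → Bool := onCell 0 536870912 0 536870912 50331648 16777216
    (rowNK 3 2 false true true .npp 1 0 2 (qsf 536870912 536870912 0 536870912 0) ndN1q1 ndN0q2 pcN0 Cut.none Ext.none)

def k0_pp_102 : ∃ t, chk3 f_pp_102 t 1 1 1 = true :=
  ⟨(a (b (b (a (l 2) (a (b (l 18780424) (a (l 168749855959) (l 18762544))) (b (l 18372328) (l 18443936)))) (a (l 3) (b (a (a (l 3) (l 227804990487)) (l 151032402743)) (l 3)))) (l 3)) (b (a (b (b (l 18137320) (l 18114944)) (a (l 145126253159) (l 18038864))) (b (l 18083600) (l 17964864))) (a (l 3) (b (b (l 17997184) (l 3)) (l 3))))), by decide +kernel⟩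

theorem c_pp_102 : CertN 536870912 536870912 0 536870912 50331648 16777216 3 false true true .npp 1 0 2
    ndN1q1 ndN0q2 pcN0 Cut.none Ext.none :=
  certNK2 (fam := false) (s1 := true) (s2 := true) (a := 1) (b := 0) (c := 2) (cn := .npp) (n1 := ndN1q1) (n2 := ndN0q2) (pc := pcN0) (cut := Cut.none) (xt := Ext.none) (P1 := 536870912) (W1 := 536870912) (P2 := 0) (W2 := 536870912) (P3 := 50331648) (W3 := 16777216) (N0 := 3)
    rfl rfl rfl (fun _ => rfl) k0_pp_102

noncomputable def f_pp_112 : ℕ → ℕ → ℕ → ℕ → Bool := onCell 536870912 536870912 0 536870912 50331648 16777216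
    (rowNK 3 2 false true true .dn 1 1 2 (qsf 536870912 536870912 0 536870912 1) ndN1q1 ndN0q2 pcN1 Cut.none Ext.none)

def k0_pp_112 : ∃ t, chk3 f_pp_112 t 1 1 1 = true :=
  ⟨(a (b (b (a (l 17906024) (l 17930040)) (a (l 17914648) (l 17967048))) (a (b (l 139757015671) (l 3)) (b (l 1) (l 1)))) (l 1)), by decide +kernel⟩

theorem c_pp_112 : CertN 536870912 536870912 0 536870912 50331648 16777216 3 false true true .dn 1 1 2
    ndN1q1 ndN0q2 pcN1 Cut.none Ext.none :=
  certNK2 (fam := false) (s1 := true) (s2 := true) (a := 1) (b := 1) (c := 2) (cn := .dn) (n1 := ndN1q1) (n2 := ndN0q2) (pc := pcN1) (cut := Cut.none) (xt := Ext.none) (P1 := 536870912) (W1 := 536870912) (P2 := 0) (W2 := 536870912) (P3 := 50331648) (W3 := 16777216) (N0 := 3)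
    rfl rfl rfl (fun _ => rfl) k0_pp_112

noncomputable def f_pp_202_a : ℕ → ℕ → ℕ → ℕ → Bool := onCell 0 536870912 0 536870912 50331648 16777216
    (rowNK 3 0 false true true .pp 2 0 2 (qsf 0 536870912 0 536870912 0) ndN1q2a ndN0q2 pcN0 Cut.none Ext.none)

def k0_pp_202_a : ∃ t, chk3 f_pp_202_a t 1 1 1 = true :=
  ⟨(l 3), by decide +kernel⟩

theorem c_pp_202_a : CertN 0 536870912 0 536870912 50331648 16777216 3 false true true .pp 2 0 2
    ndN1q2a ndN0q2 pcN0 Cut.none Ext.none :=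
  certNK0 (fam := false) (s1 := true) (s2 := true) (a := 2) (b := 0) (c := 2) (cn := .pp) (n1 := ndN1q2a) (n2 := ndN0q2) (pc := pcN0) (cut := Cut.none) (xt := Ext.none) (P1 := 0) (W1 := 536870912) (P2 := 0) (W2 := 536870912) (P3 := 50331648) (W3 := 16777216) (N0 := 3)
    rfl rfl rfl k0_pp_202_a

noncomputable def f_pp_202_b : ℕ → ℕ → ℕ → ℕ → Bool := onCell 1239849684 370763052 0 536870912 50331648 16777216
    (rowNK 3 0 false true true .pp 2 0 2 (qsf 1239849684 370763052 0 536870912 0) ndN1q2b ndN0q2 pcN0 Cut.none Ext.none)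

def k0_pp_202_b : ∃ t, chk3 f_pp_202_b t 1 1 1 = true :=
  ⟨(l 3), by decide +kernel⟩

theorem c_pp_202_b : CertN 1239849684 370763052 0 536870912 50331648 16777216 3 false true true .pp 2 0 2
    ndN1q2b ndN0q2 pcN0 Cut.none Ext.none :=
  certNK0 (fam := false) (s1 := true) (s2 := true) (a := 2) (b := 0) (c := 2) (cn := .pp) (n1 := ndN1q2b) (n2 := ndN0q2) (pc := pcN0) (cut := Cut.none) (xt := Ext.none) (P1 := 1239849684) (W1 := 370763052) (P2 := 0) (W2 := 536870912) (P3 := 50331648) (W3 := 16777216) (N0 := 3)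
    rfl rfl rfl k0_pp_202_b

noncomputable def f_pm_001 : ℕ → ℕ → ℕ → ℕ → Bool := onCell 0 536870912 0 536870912 50331648 16777216
    (rowNK 3 1 false true false .up 0 0 1 (qsf 0 536870912 536870912 536870912 0) ndN1q0 ndN0q1 pcN0 Cut.none Ext.none)

def k0_pm_001 : ∃ t, chk3 f_pm_001 t 1 1 1 = true :=
  ⟨(a (l 4) (b (l 4) (b (l 4) (l 4)))), by decide +kernel⟩

theorem c_pm_001 : CertN 0 536870912 536870912 536870912 50331648 16777216 3 false true false .up 0 0 1
    ndN1q0 ndN0q1 pcN0 Cut.none Ext.none :=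
  certNK1 (fam := false) (s1 := true) (s2 := false) (a := 0) (b := 0) (c := 1) (cn := .up) (n1 := ndN1q0) (n2 := ndN0q1) (pc := pcN0) (cut := Cut.none) (xt := Ext.none) (P1 := 0) (W1 := 536870912) (P2 := 536870912) (W2 := 536870912) (P3 := 50331648) (W3 := 16777216) (N0 := 3)
    rfl rfl rfl (fun _ => rfl) k0_pm_001

noncomputable def cut_pm_011 : Cut := Cut.of [[⟨0, 0, 0, 50331648⟩, ⟨1, 1, 0, 50331648⟩, ⟨2, 1, 0, 50331648⟩]]

noncomputable def f_pm_011 : ℕ → ℕ → ℕ → ℕ → Bool := onCell 0 536870912 536870912 536870912 50331648 16777216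
    (rowNK 3 0 false true false .pnn 0 1 1 (qsf 0 536870912 536870912 536870912 1) ndN1q0 ndN0q1 pcN1 cut_pm_011 Ext.none)

def k0_pm_011 : ∃ t, chk3 f_pm_011 t 1 1 1 = true :=
  ⟨(b (l 4) (a (a (b (l 4) (a (b (l 4) (a (b (l 4) (a (b (l 4) (l 6)) (l 4))) (l 4))) (l 4))) (l 4)) (l 4))), by decide +kernel⟩

theorem c_pm_011 : CertN 0 536870912 536870912 536870912 50331648 16777216 3 false true false .pnn 0 1 1
    ndN1q0 ndN0q1 pcN1 cut_pm_011 Ext.none :=
  certNK0 (fam := false) (s1 := true) (s2 := false) (a := 0) (b := 1) (c := 1) (cn := .pnn) (n1 := ndN1q0) (n2 := ndN0q1) (pc := pcN1) (cut := cut_pm_011) (xt := Ext.none) (P1 := 0) (W1 := 536870912) (P2 := 536870912) (W2 := 536870912) (P3 := 50331648) (W3 := 16777216) (N0 := 3)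
    rfl rfl rfl k0_pm_011

noncomputable def cut_pm_012 : Cut := Cut.of [[⟨0, 0, 0, 50331648⟩, ⟨1, 1, 0, 50331648⟩, ⟨2, 1, 0, 50331648⟩]]

noncomputable def f_pm_012 : ℕ → ℕ → ℕ → ℕ → Bool := onCell 536870912 536870912 0 536870912 50331648 16777216
    (rowNK 3 2 false true false .pnp 0 1 2 (qsf 0 536870912 0 536870912 1) ndN1q0 ndN0q2 pcN1 cut_pm_012 Ext.none)

def k0_pm_012 : ∃ t, chk3 f_pm_012 t 1 1 1 = true :=
  ⟨(a (b (a (a (l 2) (b (l 2) (b (l 2) (b (l 2) (l 17130152))))) (a (b (l 17950224) (b (l 17545720) (b (l 17365448) (l 17318344)))) (l 17878928))) (a (b (a (l 2) (b (l 18146456) (l 19180704))) (l 19357480)) (b (b (a (b (l 17518008) (l 18275480)) (a (l 17986248) (l 18060712))) (a (b (l 19051440) (l 19296824)) (b (l 18763312) (l 19180880)))) (l 19239416)))) (b (a (l 18308280) (a (l 18611824) (a (l 18847680) (a (l 18959800) (l 19027760))))) (b (a (a (b (l 18463544) (b (l 18376512) (l 19048320))) (a (l 18709744) (l 18702544))) (a (a (l 18873184) (l 19017184))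 (a (b (l 19192528) (l 19082632)) (a (l 19359176) (b (l 19183984) (l 18805656)))))) (b (a (a (a (l 19162968) (l 18853472)) (b (l 18889120) (l 18929888))) (a (a (l 18695048) (a (l 18727192) (l 18692208))) (a (a (l 18594504) (l 18429344)) (a (a (l 18223968) (l 18017896)) (b (l 18016384) (l 16956520)))))) (a (l 18752944) (a (a (l 18252344) (b (l 18190192) (l 4))) (a (b (a (l 17833920) (a (l 17535760) (l 17250032))) (b (l 17047248) (l 4))) (a (a (b (l 17016864) (b (l 16974824) (l 4))) (b (l 16969920) (l 6))) (b (a (l 16920912) (l 6)) (l 6)))))))))), by decide +kernel⟩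

theorem c_pm_012 : CertN 0 536870912 0 536870912 50331648 16777216 3 false true false .pnp 0 1 2
    ndN1q0 ndN0q2 pcN1 cut_pm_012 Ext.none :=
  certNK2 (fam := false) (s1 := true) (s2 := false) (a := 0) (b := 1) (c := 2) (cn := .pnp) (n1 := ndN1q0) (n2 := ndN0q2) (pc := pcN1) (cut := cut_pm_012) (xt := Ext.none) (P1 := 0) (W1 := 536870912) (P2 := 0) (W2 := 536870912) (P3 := 50331648) (W3 := 16777216) (N0 := 3)
    rfl rfl rfl (fun _ => rfl) k0_pm_012

noncomputable def cut_pm_022 : Cut := Cut.of [[⟨0, 0, 0, 50331648⟩, ⟨1, 1, 0, 50331648⟩, ⟨2, 1, 0, 50331648⟩]]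

noncomputable def f_pm_022 : ℕ → ℕ → ℕ → ℕ → Bool := onCell 0 536870912 0 536870912 50331648 16777216
    (rowNK 3 0 false true false .pp 0 2 2 (qsf 0 536870912 0 536870912 2) ndN1q0 ndN0q2 pcN2 cut_pm_022 Ext.none)

def k0_pm_022 : ∃ t, chk3 f_pm_022 t 1 1 1 = true :=
  ⟨(a (b (a (a (b (l 18797680) (a (l 18847520) (l 18824664))) (b (l 18793216) (l 19025688))) (b (l 19382040) (a (l 19513896) (l 1)))) (a (a (b (a (b (l 18612424) (a (b (l 18298048) (a (b (l 18038104) (l 17793592)) (l 17903384))) (l 18122808))) (b (l 18675080) (l 18255224))) (b (b (a (a (a (b (b (l 17562152) (l 17209128)) (b (l 16909080) (l 16780224))) (l 17229008)) (l 17224728)) (a (l 17323528) (l 17527600))) (a (a (a (a (b (l 16774912) (b (l 16770304) (l 6))) (l 16736472)) (l 16741424)) (b (l 16749032) (l 16781776))) (a (l 16878504) (l 16987808)))) (a (l 6) (b (a (b (l 16917456) (l 1)) (l 1)) (l 1))))) (b (b (l 19059888) (a (l 18618856) (l 19051616))) (b (b (a (l 17940544) (l 1)) (l 1)) (l 1))))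 (b (l 1) (l 1)))) (l 1)), by decide +kernel⟩

theorem c_pm_022 : CertN 0 536870912 0 536870912 50331648 16777216 3 false true false .pp 0 2 2
    ndN1q0 ndN0q2 pcN2 cut_pm_022 Ext.none :=
  certNK0 (fam := false) (s1 := true) (s2 := false) (a := 0) (b := 2) (c := 2) (cn := .pp) (n1 := ndN1q0) (n2 := ndN0q2) (pc := pcN2) (cut := cut_pm_022) (xt := Ext.none) (P1 := 0) (W1 := 536870912) (P2 := 0) (W2 := 536870912) (P3 := 50331648) (W3 := 16777216) (N0 := 3)
    rfl rfl rfl k0_pm_022

noncomputable def f_pm_101 : ℕ → ℕ → ℕ → ℕ → Bool := onCell 0 536870912 536870912 536870912 50331648 16777216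
    (rowNK 3 2 false true false .npn 1 0 1 (qsf 536870912 536870912 536870912 536870912 0) ndN1q1 ndN0q1 pcN0 Cut.none Ext.none)

def k0_pm_101 : ∃ t, chk3 f_pm_101 t 1 1 1 = true :=
  ⟨(b (l 4) (b (l 4) (a (a (l 19074008) (b (l 4) (l 18929104))) (b (l 4) (a (l 18934424) (l 4)))))), by decide +kernel⟩

theorem c_pm_101 : CertN 536870912 536870912 536870912 536870912 50331648 16777216 3 false true false .npn 1 0 1
    ndN1q1 ndN0q1 pcN0 Cut.none Ext.none :=
  certNK2 (fam := false) (s1 := true) (s2 := false) (a := 1) (b := 0) (c := 1) (cn := .npn) (n1 := ndN1q1) (n2 := ndN0q1) (pc := pcN0) (cut := Cut.none) (xt := Ext.none) (P1 := 536870912) (W1 := 536870912) (P2 := 536870912) (W2 := 536870912) (P3 := 50331648) (W3 := 16777216) (N0 := 3)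
    rfl rfl rfl (fun _ => rfl) k0_pm_101

noncomputable def f_pm_102 : ℕ → ℕ → ℕ → ℕ → Bool := onCell 0 536870912 0 536870912 50331648 16777216
    (rowNK 3 2 false true false .npp 1 0 2 (qsf 536870912 536870912 0 536870912 0) ndN1q1 ndN0q2 pcN0 Cut.none Ext.none)

def k0_pm_102 : ∃ t, chk3 f_pm_102 t 1 1 1 = true :=
  ⟨(a (a (b (a (l 2) (b (l 2) (l 18094296))) (b (a (l 2) (l 18259192)) (l 18932944))) (b (a (b (b (l 18628264) (l 18540888)) (l 18359112)) (b (b (l 18305448) (l 18240872)) (l 18027080))) (b (a (l 17992632) (l 17541584)) (l 18453176)))) (b (b (a (a (l 18153184) (l 18215440)) (l 18432200)) (a (b (a (l 18071800) (l 18386904)) (l 17643616)) (a (b (l 18670384) (l 17765376)) (b (l 18847064) (l 18414408))))) (a (b (b (a (l 17194296) (l 16881464)) (l 17183576)) (b (l 17900800) (l 18602272))) (b (b (a (l 17148472) (b (l 16925016) (l 17524120))) (l 17161520)) (a (l 18261536) (l 18521232)))))), by decide +kernel⟩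

theorem c_pm_102 : CertN 536870912 536870912 0 536870912 50331648 16777216 3 false true false .npp 1 0 2
    ndN1q1 ndN0q2 pcN0 Cut.none Ext.none :=
  certNK2 (fam := false) (s1 := true) (s2 := false) (a := 1) (b := 0) (c := 2) (cn := .npp) (n1 := ndN1q1) (n2 := ndN0q2) (pc := pcN0) (cut := Cut.none) (xt := Ext.none) (P1 := 536870912) (W1 := 536870912) (P2 := 0) (W2 := 536870912) (P3 := 50331648) (W3 := 16777216) (N0 := 3)
    rfl rfl rfl (fun _ => rfl) k0_pm_102

noncomputable def f_pm_112 : ℕ → ℕ → ℕ → ℕ → Bool := onCell 536870912 536870912 0 536870912 50331648 16777216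
    (rowNK 3 0 false true false .dn 1 1 2 (qsf 536870912 536870912 0 536870912 1) ndN1q1 ndN0q2 pcN1 Cut.none Ext.none)

def k0_pm_112 : ∃ t, chk3 f_pm_112 t 1 1 1 = true :=
  ⟨(a (b (a (b (l 17612096) (b (l 17029080) (a (b (l 16886408) (l 16981640)) (b (l 16858832) (l 17114296))))) (b (l 17845800) (a (b (l 17030352) (l 17100288)) (l 1)))) (b (a (b (b (l 17782304) (l 18587296)) (a (l 18965240) (l 18958512))) (l 1)) (l 19042016))) (l 1)), by decide +kernel⟩

theorem c_pm_112 : CertN 536870912 536870912 0 536870912 50331648 16777216 3 false true false .dn 1 1 2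
    ndN1q1 ndN0q2 pcN1 Cut.none Ext.none :=
  certNK0 (fam := false) (s1 := true) (s2 := false) (a := 1) (b := 1) (c := 2) (cn := .dn) (n1 := ndN1q1) (n2 := ndN0q2) (pc := pcN1) (cut := Cut.none) (xt := Ext.none) (P1 := 536870912) (W1 := 536870912) (P2 := 0) (W2 := 536870912) (P3 := 50331648) (W3 := 16777216) (N0 := 3)
    rfl rfl rfl k0_pm_112

noncomputable def cut_pm_202_a : Cut := Cut.of [[⟨0, 1, 0, 50331648⟩, ⟨1, 0, 0, 50331648⟩, ⟨2, 1, 0, 50331648⟩]]

noncomputable def f_pm_202_a : ℕ → ℕ → ℕ → ℕ → Bool := onCell 0 536870912 0 536870912 50331648 16777216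
    (rowNK 3 0 false true false .pp 2 0 2 (qsf 0 536870912 0 536870912 0) ndN1q2a ndN0q2 pcN0 cut_pm_202_a Ext.none)

def k0_pm_202_a : ∃ t, chk3 f_pm_202_a t 1 1 1 = true :=
  ⟨(a (l 3) (b (l 3) (b (l 3) (b (l 3) (a (l 1) (a (l 3) (l 6))))))), by decide +kernel⟩

theorem c_pm_202_a : CertN 0 536870912 0 536870912 50331648 16777216 3 false true false .pp 2 0 2
    ndN1q2a ndN0q2 pcN0 cut_pm_202_a Ext.none :=
  certNK0 (fam := false) (s1 := true) (s2 := false) (a := 2) (b := 0) (c := 2) (cn := .pp) (n1 := ndN1q2a) (n2 := ndN0q2) (pc := pcN0) (cut := cut_pm_202_a) (xt := Ext.none) (P1 := 0) (W1 := 536870912) (P2 := 0) (W2 := 536870912) (P3 := 50331648) (W3 := 16777216) (N0 := 3)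
    rfl rfl rfl k0_pm_202_a

noncomputable def cut_pm_202_b : Cut := Cut.of [[⟨0, 1, 0, 50331648⟩, ⟨1, 0, 0, 50331648⟩, ⟨2, 1, 0, 50331648⟩]]

noncomputable def f_pm_202_b : ℕ → ℕ → ℕ → ℕ → Bool := onCell 1239849684 370763052 0 536870912 50331648 16777216
    (rowNK 3 0 false true false .pp 2 0 2 (qsf 1239849684 370763052 0 536870912 0) ndN1q2b ndN0q2 pcN0 cut_pm_202_b Ext.none)

def k0_pm_202_b : ∃ t, chk3 f_pm_202_b t 1 1 1 = true :=
  ⟨(l 3), by decide +kernel⟩

theorem c_pm_202_b : CertN 1239849684 370763052 0 536870912 50331648 16777216 3 false true false .pp 2 0 2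
    ndN1q2b ndN0q2 pcN0 cut_pm_202_b Ext.none :=
  certNK0 (fam := false) (s1 := true) (s2 := false) (a := 2) (b := 0) (c := 2) (cn := .pp) (n1 := ndN1q2b) (n2 := ndN0q2) (pc := pcN0) (cut := cut_pm_202_b) (xt := Ext.none) (P1 := 1239849684) (W1 := 370763052) (P2 := 0) (W2 := 536870912) (P3 := 50331648) (W3 := 16777216) (N0 := 3)
    rfl rfl rfl k0_pm_202_b

noncomputable def f_mm_001 : ℕ → ℕ → ℕ → ℕ → Bool := onCell 0 536870912 536870912 536870912 50331648 16777216
    (rowNK 3 0 false false false .up 0 0 1 (qsf 0 536870912 536870912 536870912 0) ndN1q0 ndN0q1 pcN0 Cut.none Ext.none)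

def k0_mm_001 : ∃ t, chk3 f_mm_001 t 1 1 1 = true :=
  ⟨(l 5), by decide +kernel⟩

theorem c_mm_001 : CertN 0 536870912 536870912 536870912 50331648 16777216 3 false false false .up 0 0 1
    ndN1q0 ndN0q1 pcN0 Cut.none Ext.none :=
  certNK0 (fam := false) (s1 := false) (s2 := false) (a := 0) (b := 0) (c := 1) (cn := .up) (n1 := ndN1q0) (n2 := ndN0q1) (pc := pcN0) (cut := Cut.none) (xt := Ext.none) (P1 := 0) (W1 := 536870912) (P2 := 536870912) (W2 := 536870912) (P3 := 50331648) (W3 := 16777216) (N0 := 3)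
    rfl rfl rfl k0_mm_001

noncomputable def f_mm_011 : ℕ → ℕ → ℕ → ℕ → Bool := onCell 0 536870912 536870912 536870912 50331648 16777216
    (rowNK 3 0 false false false .pnn 0 1 1 (qsf 0 536870912 536870912 536870912 1) ndN1q0 ndN0q1 pcN1 Cut.none Ext.none)

def k0_mm_011 : ∃ t, chk3 f_mm_011 t 1 1 1 = true :=
  ⟨(l 5), by decide +kernel⟩

theorem c_mm_011 : CertN 0 536870912 536870912 536870912 50331648 16777216 3 false false false .pnn 0 1 1
    ndN1q0 ndN0q1 pcN1 Cut.none Ext.none :=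
  certNK0 (fam := false) (s1 := false) (s2 := false) (a := 0) (b := 1) (c := 1) (cn := .pnn) (n1 := ndN1q0) (n2 := ndN0q1) (pc := pcN1) (cut := Cut.none) (xt := Ext.none) (P1 := 0) (W1 := 536870912) (P2 := 536870912) (W2 := 536870912) (P3 := 50331648) (W3 := 16777216) (N0 := 3)
    rfl rfl rfl k0_mm_011

noncomputable def f_mm_012 : ℕ → ℕ → ℕ → ℕ → Bool := onCell 0 536870912 0 536870912 50331648 16777216
    (rowNK 3 0 false false false .pnp 0 1 2 (qsf 0 536870912 0 536870912 1) ndN1q0 ndN0q2 pcN1 Cut.none Ext.none)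

def k0_mm_012 : ∃ t, chk3 f_mm_012 t 1 1 1 = true :=
  ⟨(l 5), by decide +kernel⟩

theorem c_mm_012 : CertN 0 536870912 0 536870912 50331648 16777216 3 false false false .pnp 0 1 2
    ndN1q0 ndN0q2 pcN1 Cut.none Ext.none :=
  certNK0 (fam := false) (s1 := false) (s2 := false) (a := 0) (b := 1) (c := 2) (cn := .pnp) (n1 := ndN1q0) (n2 := ndN0q2) (pc := pcN1) (cut := Cut.none) (xt := Ext.none) (P1 := 0) (W1 := 536870912) (P2 := 0) (W2 := 536870912) (P3 := 50331648) (W3 := 16777216) (N0 := 3)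
    rfl rfl rfl k0_mm_012

noncomputable def f_mm_022 : ℕ → ℕ → ℕ → ℕ → Bool := onCell 0 536870912 0 536870912 50331648 16777216
    (rowNK 3 0 false false false .pp 0 2 2 (qsf 0 536870912 0 536870912 2) ndN1q0 ndN0q2 pcN2 Cut.none Ext.none)

def k0_mm_022 : ∃ t, chk3 f_mm_022 t 1 1 1 = true :=
  ⟨(l 5), by decide +kernel⟩

theorem c_mm_022 : CertN 0 536870912 0 536870912 50331648 16777216 3 false false false .pp 0 2 2
    ndN1q0 ndN0q2 pcN2 Cut.none Ext.none :=
  certNK0 (fam := false) (s1 := false) (s2 := false) (a := 0) (b := 2) (c := 2) (cn := .pp) (n1 := ndN1q0) (n2 := ndN0q2) (pc := pcN2) (cut := Cut.none) (xt := Ext.none) (P1 := 0) (W1 := 536870912) (P2 := 0) (W2 := 536870912) (P3 := 50331648) (W3 := 16777216) (N0 := 3)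
    rfl rfl rfl k0_mm_022

noncomputable def f_mm_101 : ℕ → ℕ → ℕ → ℕ → Bool := onCell 536870912 536870912 536870912 536870912 50331648 16777216
    (rowNK 3 0 false false false .npn 1 0 1 (qsf 536870912 536870912 536870912 536870912 0) ndN1q1 ndN0q1 pcN0 Cut.none Ext.none)

def k0_mm_101 : ∃ t, chk3 f_mm_101 t 1 1 1 = true :=
  ⟨(l 3), by decide +kernel⟩

theorem c_mm_101 : CertN 536870912 536870912 536870912 536870912 50331648 16777216 3 false false false .npn 1 0 1
    ndN1q1 ndN0q1 pcN0 Cut.none Ext.none :=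
  certNK0 (fam := false) (s1 := false) (s2 := false) (a := 1) (b := 0) (c := 1) (cn := .npn) (n1 := ndN1q1) (n2 := ndN0q1) (pc := pcN0) (cut := Cut.none) (xt := Ext.none) (P1 := 536870912) (W1 := 536870912) (P2 := 536870912) (W2 := 536870912) (P3 := 50331648) (W3 := 16777216) (N0 := 3)
    rfl rfl rfl k0_mm_101

noncomputable def f_mm_102 : ℕ → ℕ → ℕ → ℕ → Bool := onCell 536870912 536870912 0 536870912 50331648 16777216
    (rowNK 3 0 false false false .npp 1 0 2 (qsf 536870912 536870912 0 536870912 0) ndN1q1 ndN0q2 pcN0 Cut.none Ext.none)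

def k0_mm_102 : ∃ t, chk3 f_mm_102 t 1 1 1 = true :=
  ⟨(l 5), by decide +kernel⟩

theorem c_mm_102 : CertN 536870912 536870912 0 536870912 50331648 16777216 3 false false false .npp 1 0 2
    ndN1q1 ndN0q2 pcN0 Cut.none Ext.none :=
  certNK0 (fam := false) (s1 := false) (s2 := false) (a := 1) (b := 0) (c := 2) (cn := .npp) (n1 := ndN1q1) (n2 := ndN0q2) (pc := pcN0) (cut := Cut.none) (xt := Ext.none) (P1 := 536870912) (W1 := 536870912) (P2 := 0) (W2 := 536870912) (P3 := 50331648) (W3 := 16777216) (N0 := 3)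
    rfl rfl rfl k0_mm_102

noncomputable def f_mm_112 : ℕ → ℕ → ℕ → ℕ → Bool := onCell 536870912 536870912 0 536870912 50331648 16777216
    (rowNK 3 0 false false false .dn 1 1 2 (qsf 536870912 536870912 0 536870912 1) ndN1q1 ndN0q2 pcN1 Cut.none Ext.none)

def k0_mm_112 : ∃ t, chk3 f_mm_112 t 1 1 1 = true :=
  ⟨(l 5), by decide +kernel⟩

theorem c_mm_112 : CertN 536870912 536870912 0 536870912 50331648 16777216 3 false false false .dn 1 1 2
    ndN1q1 ndN0q2 pcN1 Cut.none Ext.none :=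
  certNK0 (fam := false) (s1 := false) (s2 := false) (a := 1) (b := 1) (c := 2) (cn := .dn) (n1 := ndN1q1) (n2 := ndN0q2) (pc := pcN1) (cut := Cut.none) (xt := Ext.none) (P1 := 536870912) (W1 := 536870912) (P2 := 0) (W2 := 536870912) (P3 := 50331648) (W3 := 16777216) (N0 := 3)
    rfl rfl rfl k0_mm_112

noncomputable def f_mm_202_a : ℕ → ℕ → ℕ → ℕ → Bool := onCell 0 536870912 0 536870912 50331648 16777216
    (rowNK 3 0 false false false .pp 2 0 2 (qsf 0 536870912 0 536870912 0) ndN1q2a ndN0q2 pcN0 Cut.none Ext.none)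

def k0_mm_202_a : ∃ t, chk3 f_mm_202_a t 1 1 1 = true :=
  ⟨(l 3), by decide +kernel⟩

theorem c_mm_202_a : CertN 0 536870912 0 536870912 50331648 16777216 3 false false false .pp 2 0 2
    ndN1q2a ndN0q2 pcN0 Cut.none Ext.none :=
  certNK0 (fam := false) (s1 := false) (s2 := false) (a := 2) (b := 0) (c := 2) (cn := .pp) (n1 := ndN1q2a) (n2 := ndN0q2) (pc := pcN0) (cut := Cut.none) (xt := Ext.none) (P1 := 0) (W1 := 536870912) (P2 := 0) (W2 := 536870912) (P3 := 50331648) (W3 := 16777216) (N0 := 3)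
    rfl rfl rfl k0_mm_202_a

noncomputable def f_mm_202_b : ℕ → ℕ → ℕ → ℕ → Bool := onCell 1239849684 370763052 0 536870912 50331648 16777216
    (rowNK 3 0 false false false .pp 2 0 2 (qsf 1239849684 370763052 0 536870912 0) ndN1q2b ndN0q2 pcN0 Cut.none Ext.none)

def k0_mm_202_b : ∃ t, chk3 f_mm_202_b t 1 1 1 = true :=
  ⟨(l 3), by decide +kernel⟩

theorem c_mm_202_b : CertN 1239849684 370763052 0 536870912 50331648 16777216 3 false false false .pp 2 0 2
    ndN1q2b ndN0q2 pcN0 Cut.none Ext.none :=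
  certNK0 (fam := false) (s1 := false) (s2 := false) (a := 2) (b := 0) (c := 2) (cn := .pp) (n1 := ndN1q2b) (n2 := ndN0q2) (pc := pcN0) (cut := Cut.none) (xt := Ext.none) (P1 := 1239849684) (W1 := 370763052) (P2 := 0) (W2 := 536870912) (P3 := 50331648) (W3 := 16777216) (N0 := 3)
    rfl rfl rfl k0_mm_202_b

end Pool.Agent.Strip051.G.I3_64_1_16.Tab.C.NB10

namespace Pool.Agent.Strip051.G.I3_64_1_16.Tab.C.NB11

open Pool.Agent.Strip051.PB Pool.Agent.Strip051.PB.T
open Pool.Agent.Strip051.G.I3_64_1_16.Tab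

noncomputable def f_pp_001 : ℕ → ℕ → ℕ → ℕ → Bool := onCell 0 536870912 536870912 536870912 50331648 16777216
    (rowNK 3 0 false true true .up 0 0 1 (qsf 0 536870912 536870912 536870912 0) ndN1q0 ndN1q1 pcN0 Cut.none Ext.none)

def k0_pp_001 : ∃ t, chk3 f_pp_001 t 1 1 1 = true :=
  ⟨(l 3), by decide +kernel⟩

theorem c_pp_001 : CertN 0 536870912 536870912 536870912 50331648 16777216 3 false true true .up 0 0 1
    ndN1q0 ndN1q1 pcN0 Cut.none Ext.none :=
  certNK0 (fam := false) (s1 := true) (s2 := true) (a := 0) (b := 0) (c := 1) (cn := .up) (n1 := ndN1q0) (n2 := ndN1q1) (pc := pcN0) (cut := Cut.none) (xt := Ext.none) (P1 := 0) (W1 := 536870912) (P2 := 536870912) (W2 := 536870912) (P3 := 50331648) (W3 := 16777216) (N0 := 3)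
    rfl rfl rfl k0_pp_001

noncomputable def f_pp_011 : ℕ → ℕ → ℕ → ℕ → Bool := onCell 0 536870912 536870912 536870912 50331648 16777216
    (rowNK 3 0 false true true .pnn 0 1 1 (qsf 0 536870912 536870912 536870912 1) ndN1q0 ndN1q1 pcN1 Cut.none Ext.none)

def k0_pp_011 : ∃ t, chk3 f_pp_011 t 1 1 1 = true :=
  ⟨(l 3), by decide +kernel⟩

theorem c_pp_011 : CertN 0 536870912 536870912 536870912 50331648 16777216 3 false true true .pnn 0 1 1
    ndN1q0 ndN1q1 pcN1 Cut.none Ext.none :=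
  certNK0 (fam := false) (s1 := true) (s2 := true) (a := 0) (b := 1) (c := 1) (cn := .pnn) (n1 := ndN1q0) (n2 := ndN1q1) (pc := pcN1) (cut := Cut.none) (xt := Ext.none) (P1 := 0) (W1 := 536870912) (P2 := 536870912) (W2 := 536870912) (P3 := 50331648) (W3 := 16777216) (N0 := 3)
    rfl rfl rfl k0_pp_011

noncomputable def cut_pp_012_a : Cut := Cut.of [[⟨0, 0, 0, 50331648⟩, ⟨1, 1, 0, 50331648⟩, ⟨2, 1, 0, 50331648⟩]]

noncomputable def f_pp_012_a : ℕ → ℕ → ℕ → ℕ → Bool := onCell 536870912 536870912 0 536870912 50331648 16777216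
    (rowNK 3 2 false true true .pnp 0 1 2 (qsf 0 536870912 0 536870912 1) ndN1q0 ndN1q2a pcN1 cut_pp_012_a Ext.none)

def k0_pp_012_a : ∃ t, chk3 f_pp_012_a t 1 1 1 = true :=
  ⟨(a (b (a (l 135462724359) (l 18295912)) (a (l 3) (b (l 18497864) (l 3)))) (a (b (l 18111032) (b (l 18130048) (b (l 18155392) (l 3)))) (b (a (l 17823224) (l 17821072)) (b (a (l 17686992) (a (l 17513192) (b (l 17769504) (l 17591072)))) (a (b (l 17528944) (b (l 17420480) (l 3))) (b (a (l 17300824) (b (l 17360768) (a (l 17175992) (l 17076704)))) (a (b (l 17181192) (l 212769341847)) (b (a (l 17064048) (b (l 17002752) (l 6))) (a (b (l 16985032) (l 6)) (l 6)))))))))), by decide +kernel⟩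

theorem c_pp_012_a : CertN 0 536870912 0 536870912 50331648 16777216 3 false true true .pnp 0 1 2
    ndN1q0 ndN1q2a pcN1 cut_pp_012_a Ext.none :=
  certNK2 (fam := false) (s1 := true) (s2 := true) (a := 0) (b := 1) (c := 2) (cn := .pnp) (n1 := ndN1q0) (n2 := ndN1q2a) (pc := pcN1) (cut := cut_pp_012_a) (xt := Ext.none) (P1 := 0) (W1 := 536870912) (P2 := 0) (W2 := 536870912) (P3 := 50331648) (W3 := 16777216) (N0 := 3)
    rfl rfl rfl (fun _ => rfl) k0_pp_012_a

noncomputable def cut_pp_012_b : Cut := Cut.of [[⟨0, 0, 0, 50331648⟩, ⟨1, 1, 0, 50331648⟩, ⟨2, 1, 0, 50331648⟩]]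

noncomputable def f_pp_012_b : ℕ → ℕ → ℕ → ℕ → Bool := onCell 536870912 536870912 1239849684 370763052 50331648 16777216
    (rowNK 3 2 false true true .pnp 0 1 2 (qsf 0 536870912 1239849684 370763052 1) ndN1q0 ndN1q2b pcN1 cut_pp_012_b Ext.none)

def k0_pp_012_b : ∃ t, chk3 f_pp_012_b t 1 1 1 = true :=
  ⟨(a (a (l 2) (b (l 18305712) (l 2))) (a (b (l 18246880) (l 18110976)) (b (b (l 18075360) (l 18056992)) (l 18092888)))), by decide +kernel⟩

theorem c_pp_012_b : CertN 0 536870912 1239849684 370763052 50331648 16777216 3 false true true .pnp 0 1 2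
    ndN1q0 ndN1q2b pcN1 cut_pp_012_b Ext.none :=
  certNK2 (fam := false) (s1 := true) (s2 := true) (a := 0) (b := 1) (c := 2) (cn := .pnp) (n1 := ndN1q0) (n2 := ndN1q2b) (pc := pcN1) (cut := cut_pp_012_b) (xt := Ext.none) (P1 := 0) (W1 := 536870912) (P2 := 1239849684) (W2 := 370763052) (P3 := 50331648) (W3 := 16777216) (N0 := 3)
    rfl rfl rfl (fun _ => rfl) k0_pp_012_b

noncomputable def cut_pp_022_a : Cut := Cut.of [[⟨0, 0, 0, 50331648⟩, ⟨1, 1, 0, 50331648⟩, ⟨2, 1, 0, 50331648⟩]]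

noncomputable def f_pp_022_a : ℕ → ℕ → ℕ → ℕ → Bool := onCell 1073741824 536870912 0 536870912 50331648 16777216
    (rowNK 3 2 false true true .pp 0 2 2 (qsf 0 536870912 0 536870912 2) ndN1q0 ndN1q2a pcN2 cut_pp_022_a Ext.none)

def k0_pp_022_a : ∃ t, chk3 f_pp_022_a t 1 1 1 = true :=
  ⟨(a (b (a (a (a (a (l 18153208) (l 18115328)) (b (l 18163832) (l 18113088))) (a (l 18398480) (b (l 18495120) (l 18580784)))) (a (b (l 18909680) (a (l 490738294135) (l 1))) (l 1))) (b (a (a (a (a (l 17842752) (a (l 17825272) (l 17825944))) (b (l 17988000) (a (l 17681056) (b (l 17882680) (l 17647704))))) (a (b (l 18378816) (b (a (l 18034792) (l 275451219815)) (a (b (l 17885680) (a (l 17682592) (b (l 301219719719) (l 268470890983)))) (b (l 392488787767) (l 1))))) (b (l 271693949463) (b (l 498253222999) (l 1))))) (l 1)) (a (b (a (a (a (b (l 17236792) (l 16960064)) (a (b (l 17132496) (l 16857504)) (b (l 17091896) (b (a (l 16828056) (l 16793768)) (l 16850352))))) (a (b (a (l 17082472)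 (l 17100480)) (a (b (l 16763408) (b (l 16757056) (l 6))) (b (a (l 16696112) (a (l 16704728) (b (l 16683160) (l 16726864)))) (a (b (a (l 16718920) (l 311418577335)) (l 6)) (b (b (l 307660506423) (l 277058887671)) (l 1)))))) (b (b (a (l 17299728) (b (l 17434168) (l 17295024))) (a (b (l 17059136) (l 16766464)) (a (b (l 17104888) (b (l 308734569799) (l 272227109255))) (c (b (l 283502638263) (l 311419534743)) (l 301754965559))))) (a (b (a (b (b (l 16694400) (l 16726304)) (l 295312492439)) (b (l 299070581159) (l 255584037143))) (b (a (l 248604741079) (l 1)) (l 1))) (b (b (l 268469021719) (l 1)) (l 1)))))) (a (b (a (b (a (b (a (l 17496560) (l 285650402903)) (a (b (l 306588078519) (l 273301858055)) (l 341484677207))) (l 360275416087)) (a (b (l 316788095495) (l 1)) (l 1))) (l 1)) (l 1)) (l 1))) (a (a (l 6) (a (a (l 6) (b (l 1) (l 1))) (l 1))) (l 1))) (l 1)))) (l 1)), by decide +kernel⟩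

theorem c_pp_022_a : CertN 0 536870912 0 536870912 50331648 16777216 3 false true true .pp 0 2 2
    ndN1q0 ndN1q2a pcN2 cut_pp_022_a Ext.none :=
  certNK2 (fam := false) (s1 := true) (s2 := true) (a := 0) (b := 2) (c := 2) (cn := .pp) (n1 := ndN1q0) (n2 := ndN1q2a) (pc := pcN2) (cut := cut_pp_022_a) (xt := Ext.none) (P1 := 0) (W1 := 536870912) (P2 := 0) (W2 := 536870912) (P3 := 50331648) (W3 := 16777216) (N0 := 3)
    rfl rfl rfl (fun _ => rfl) k0_pp_022_a

noncomputable def cut_pp_022_b : Cut := Cut.of [[⟨0, 0, 0, 50331648⟩, ⟨1, 1, 0, 50331648⟩, ⟨2, 1, 0, 50331648⟩]]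

noncomputable def f_pp_022_b : ℕ → ℕ → ℕ → ℕ → Bool := onCell 1073741824 536870912 1239849684 370763052 50331648 16777216
    (rowNK 3 2 false true true .pp 0 2 2 (qsf 0 536870912 1239849684 370763052 2) ndN1q0 ndN1q2b pcN2 cut_pp_022_b Ext.none)

def k0_pp_022_b : ∃ t, chk3 f_pp_022_b t 1 1 1 = true :=
  ⟨(a (a (a (a (a (b (l 18086128) (l 17995592)) (b (l 18049192) (l 17926592))) (b (l 18077808) (l 17810912))) (b (b (b (l 18276456) (l 18096976)) (l 17798792)) (l 17539328))) (b (b (b (a (l 18709208) (l 572342593831)) (l 227670959799)) (l 186867646823)) (b (l 17416552) (l 17077776)))) (b (a (b (l 1) (a (l 18771768) (l 621197273751))) (l 1)) (a (b (l 270619444503) (l 17396384)) (b (a (l 680252644247) (l 1)) (l 367793179367))))), by decide +kernel⟩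

theorem c_pp_022_b : CertN 0 536870912 1239849684 370763052 50331648 16777216 3 false true true .pp 0 2 2
    ndN1q0 ndN1q2b pcN2 cut_pp_022_b Ext.none :=
  certNK2 (fam := false) (s1 := true) (s2 := true) (a := 0) (b := 2) (c := 2) (cn := .pp) (n1 := ndN1q0) (n2 := ndN1q2b) (pc := pcN2) (cut := cut_pp_022_b) (xt := Ext.none) (P1 := 0) (W1 := 536870912) (P2 := 1239849684) (W2 := 370763052) (P3 := 50331648) (W3 := 16777216) (N0 := 3)
    rfl rfl rfl (fun _ => rfl) k0_pp_022_b

noncomputable def f_pp_023 : ℕ → ℕ → ℕ → ℕ → Bool := onCell 1073741824 536870912 1610612736 536870912 50331648 16777216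
    (rowNK 3 2 false true true .up 0 2 3 (qsf 0 536870912 1610612736 536870912 2) ndN1q0 ndN1q3 pcN2 Cut.none Ext.none)

def k0_pp_023 : ∃ t, chk3 f_pp_023 t 1 1 1 = true :=
  ⟨(a (b (a (l 17525016) (l 17337360)) (a (l 2) (l 17090800))) (b (a (b (l 16932400) (l 17077952)) (b (l 17424008) (l 16988848))) (a (l 17138040) (l 17160320)))), by decide +kernel⟩

theorem c_pp_023 : CertN 0 536870912 1610612736 536870912 50331648 16777216 3 false true true .up 0 2 3
    ndN1q0 ndN1q3 pcN2 Cut.none Ext.none :=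
  certNK2 (fam := false) (s1 := true) (s2 := true) (a := 0) (b := 2) (c := 3) (cn := .up) (n1 := ndN1q0) (n2 := ndN1q3) (pc := pcN2) (cut := Cut.none) (xt := Ext.none) (P1 := 0) (W1 := 536870912) (P2 := 1610612736) (W2 := 536870912) (P3 := 50331648) (W3 := 16777216) (N0 := 3)
    rfl rfl rfl (fun _ => rfl) k0_pp_023

noncomputable def f_pp_033 : ℕ → ℕ → ℕ → ℕ → Bool := onCell 1610612736 536870912 1610612736 536870912 50331648 16777216
    (rowNK 3 2 false true true .pnn 0 3 3 (qsf 0 536870912 1610612736 536870912 3) ndN1q0 ndN1q3 pcN3 Cut.none Ext.none)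

def k0_pp_033 : ∃ t, chk3 f_pp_033 t 1 1 1 = true :=
  ⟨(a (b (a (b (a (l 18800368) (b (l 938488872887) (l 18221704))) (a (l 17703904) (l 17417072))) (b (a (b (l 1) (l 18039072)) (l 1)) (a (l 17645560) (l 682399540647)))) (a (b (a (l 16990432) (l 17151208)) (a (l 16850896) (l 16863176))) (b (a (l 17542712) (l 17880312)) (l 4)))) (b (a (b (l 1) (a (b (l 1) (l 18582672)) (l 1))) (l 1)) (b (a (a (l 18180984) (l 923991358055)) (a (b (l 1) (l 4)) (l 1))) (l 4)))), by decide +kernel⟩

theorem c_pp_033 : CertN 0 536870912 1610612736 536870912 50331648 16777216 3 false true true .pnn 0 3 3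
    ndN1q0 ndN1q3 pcN3 Cut.none Ext.none :=
  certNK2 (fam := false) (s1 := true) (s2 := true) (a := 0) (b := 3) (c := 3) (cn := .pnn) (n1 := ndN1q0) (n2 := ndN1q3) (pc := pcN3) (cut := Cut.none) (xt := Ext.none) (P1 := 0) (W1 := 536870912) (P2 := 1610612736) (W2 := 536870912) (P3 := 50331648) (W3 := 16777216) (N0 := 3)
    rfl rfl rfl (fun _ => rfl) k0_pp_033

noncomputable def f_pp_101 : ℕ → ℕ → ℕ → ℕ → Bool := onCell 536870912 536870912 536870912 536870912 50331648 16777216
    (rowNK 3 0 false true true .npn 1 0 1 (qsf 536870912 536870912 536870912 536870912 0) ndN1q1 ndN1q1 pcN0 Cut.none Ext.none)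

def k0_pp_101 : ∃ t, chk3 f_pp_101 t 1 1 1 = true :=
  ⟨(l 3), by decide +kernel⟩

theorem c_pp_101 : CertN 536870912 536870912 536870912 536870912 50331648 16777216 3 false true true .npn 1 0 1
    ndN1q1 ndN1q1 pcN0 Cut.none Ext.none :=
  certNK0 (fam := false) (s1 := true) (s2 := true) (a := 1) (b := 0) (c := 1) (cn := .npn) (n1 := ndN1q1) (n2 := ndN1q1) (pc := pcN0) (cut := Cut.none) (xt := Ext.none) (P1 := 536870912) (W1 := 536870912) (P2 := 536870912) (W2 := 536870912) (P3 := 50331648) (W3 := 16777216) (N0 := 3)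
    rfl rfl rfl k0_pp_101

noncomputable def f_pp_102_a : ℕ → ℕ → ℕ → ℕ → Bool := onCell 0 536870912 0 536870912 50331648 16777216
    (rowNK 3 2 false true true .npp 1 0 2 (qsf 536870912 536870912 0 536870912 0) ndN1q1 ndN1q2a pcN0 Cut.none Ext.none)

def k0_pp_102_a : ∃ t, chk3 f_pp_102_a t 1 1 1 = true :=
  ⟨(b (a (l 3) (a (l 3) (l 158547315863))) (l 3)), by decide +kernel⟩

theorem c_pp_102_a : CertN 536870912 536870912 0 536870912 50331648 16777216 3 false true true .npp 1 0 2
    ndN1q1 ndN1q2a pcN0 Cut.none Ext.none :=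
  certNK2 (fam := false) (s1 := true) (s2 := true) (a := 1) (b := 0) (c := 2) (cn := .npp) (n1 := ndN1q1) (n2 := ndN1q2a) (pc := pcN0) (cut := Cut.none) (xt := Ext.none) (P1 := 536870912) (W1 := 536870912) (P2 := 0) (W2 := 536870912) (P3 := 50331648) (W3 := 16777216) (N0 := 3)
    rfl rfl rfl (fun _ => rfl) k0_pp_102_a

noncomputable def f_pp_102_b : ℕ → ℕ → ℕ → ℕ → Bool := onCell 0 536870912 1239849684 370763052 50331648 16777216
    (rowNK 3 2 false true true .npp 1 0 2 (qsf 536870912 536870912 1239849684 370763052 0) ndN1q1 ndN1q2b pcN0 Cut.none Ext.none)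

def k0_pp_102_b : ∃ t, chk3 f_pp_102_b t 1 1 1 = true :=
  ⟨(a (l 3) (a (b (l 3) (l 3)) (b (b (l 18353032) (l 18639056)) (a (l 3) (l 18845560))))), by decide +kernel⟩

theorem c_pp_102_b : CertN 536870912 536870912 1239849684 370763052 50331648 16777216 3 false true true .npp 1 0 2
    ndN1q1 ndN1q2b pcN0 Cut.none Ext.none :=
  certNK2 (fam := false) (s1 := true) (s2 := true) (a := 1) (b := 0) (c := 2) (cn := .npp) (n1 := ndN1q1) (n2 := ndN1q2b) (pc := pcN0) (cut := Cut.none) (xt := Ext.none) (P1 := 536870912) (W1 := 536870912) (P2 := 1239849684) (W2 := 370763052) (P3 := 50331648) (W3 := 16777216) (N0 := 3)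
    rfl rfl rfl (fun _ => rfl) k0_pp_102_b

noncomputable def f_pp_112_a : ℕ → ℕ → ℕ → ℕ → Bool := onCell 536870912 536870912 0 536870912 50331648 16777216
    (rowNK 3 0 false true true .dn 1 1 2 (qsf 536870912 536870912 0 536870912 1) ndN1q1 ndN1q2a pcN1 Cut.none Ext.none)

def k0_pp_112_a : ∃ t, chk3 f_pp_112_a t 1 1 1 = true :=
  ⟨(a (b (a (l 136535955543) (b (l 18058224) (l 3))) (l 3)) (l 1)), by decide +kernel⟩

theorem c_pp_112_a : CertN 536870912 536870912 0 536870912 50331648 16777216 3 false true true .dn 1 1 2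
    ndN1q1 ndN1q2a pcN1 Cut.none Ext.none :=
  certNK0 (fam := false) (s1 := true) (s2 := true) (a := 1) (b := 1) (c := 2) (cn := .dn) (n1 := ndN1q1) (n2 := ndN1q2a) (pc := pcN1) (cut := Cut.none) (xt := Ext.none) (P1 := 536870912) (W1 := 536870912) (P2 := 0) (W2 := 536870912) (P3 := 50331648) (W3 := 16777216) (N0 := 3)
    rfl rfl rfl k0_pp_112_a

noncomputable def f_pp_112_b : ℕ → ℕ → ℕ → ℕ → Bool := onCell 536870912 536870912 1239849684 370763052 50331648 16777216
    (rowNK 3 2 false true true .dn 1 1 2 (qsf 536870912 536870912 1239849684 370763052 1) ndN1q1 ndN1q2b pcN1 Cut.none Ext.none)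

def k0_pp_112_b : ∃ t, chk3 f_pp_112_b t 1 1 1 = true :=
  ⟨(a (a (b (l 18106112) (l 18394976)) (l 18266488)) (a (l 18092168) (l 366719261879))), by decide +kernel⟩

theorem c_pp_112_b : CertN 536870912 536870912 1239849684 370763052 50331648 16777216 3 false true true .dn 1 1 2
    ndN1q1 ndN1q2b pcN1 Cut.none Ext.none :=
  certNK2 (fam := false) (s1 := true) (s2 := true) (a := 1) (b := 1) (c := 2) (cn := .dn) (n1 := ndN1q1) (n2 := ndN1q2b) (pc := pcN1) (cut := Cut.none) (xt := Ext.none) (P1 := 536870912) (W1 := 536870912) (P2 := 1239849684) (W2 := 370763052) (P3 := 50331648) (W3 := 16777216) (N0 := 3)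
    rfl rfl rfl (fun _ => rfl) k0_pp_112_b

noncomputable def f_pp_113 : ℕ → ℕ → ℕ → ℕ → Bool := onCell 536870912 536870912 536870912 536870912 50331648 16777216
    (rowNK 3 1 false true true .nn 1 1 3 (qsf 536870912 536870912 1610612736 536870912 1) ndN1q1 ndN1q3 pcN1 Cut.none Ext.none)

def k0_pp_113 : ∃ t, chk3 f_pp_113 t 1 1 1 = true :=
  ⟨(a (b (b (l 1) (l 17959952)) (b (l 17619960) (l 17609272))) (b (b (l 389805174855) (l 17837744)) (b (l 17422560) (b (l 17185488) (b (l 17189352) (b (l 17187768) (l 17188784))))))), by decide +kernel⟩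

theorem c_pp_113 : CertN 536870912 536870912 1610612736 536870912 50331648 16777216 3 false true true .nn 1 1 3
    ndN1q1 ndN1q3 pcN1 Cut.none Ext.none :=
  certNK1 (fam := false) (s1 := true) (s2 := true) (a := 1) (b := 1) (c := 3) (cn := .nn) (n1 := ndN1q1) (n2 := ndN1q3) (pc := pcN1) (cut := Cut.none) (xt := Ext.none) (P1 := 536870912) (W1 := 536870912) (P2 := 1610612736) (W2 := 536870912) (P3 := 50331648) (W3 := 16777216) (N0 := 3)
    rfl rfl rfl (fun _ => rfl) k0_pp_113

noncomputable def f_pp_123 : ℕ → ℕ → ℕ → ℕ → Bool := onCell 1073741824 536870912 1610612736 536870912 50331648 16777216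
    (rowNK 3 2 false true true .npn 1 2 3 (qsf 536870912 536870912 1610612736 536870912 2) ndN1q1 ndN1q3 pcN2 Cut.none Ext.none)

def k0_pp_123 : ∃ t, chk3 f_pp_123 t 1 1 1 = true :=
  ⟨(a (b (a (l 17444480) (l 17120368)) (a (l 17183944) (l 16927904))) (b (a (l 17046296) (l 1)) (a (l 16880464) (l 16982192)))), by decide +kernel⟩

theorem c_pp_123 : CertN 536870912 536870912 1610612736 536870912 50331648 16777216 3 false true true .npn 1 2 3
    ndN1q1 ndN1q3 pcN2 Cut.none Ext.none :=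
  certNK2 (fam := false) (s1 := true) (s2 := true) (a := 1) (b := 2) (c := 3) (cn := .npn) (n1 := ndN1q1) (n2 := ndN1q3) (pc := pcN2) (cut := Cut.none) (xt := Ext.none) (P1 := 536870912) (W1 := 536870912) (P2 := 1610612736) (W2 := 536870912) (P3 := 50331648) (W3 := 16777216) (N0 := 3)
    rfl rfl rfl (fun _ => rfl) k0_pp_123

noncomputable def f_pp_133 : ℕ → ℕ → ℕ → ℕ → Bool := onCell 1610612736 536870912 1610612736 536870912 50331648 16777216
    (rowNK 3 2 false true true .dn 1 3 3 (qsf 536870912 536870912 1610612736 536870912 3) ndN1q1 ndN1q3 pcN3 Cut.none Ext.none)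

def k0_pp_133 : ∃ t, chk3 f_pp_133 t 1 1 1 = true :=
  ⟨(a (b (l 1) (a (b (l 1) (a (l 16912088) (l 1))) (l 1))) (l 1)), by decide +kernel⟩

theorem c_pp_133 : CertN 536870912 536870912 1610612736 536870912 50331648 16777216 3 false true true .dn 1 3 3
    ndN1q1 ndN1q3 pcN3 Cut.none Ext.none :=
  certNK2 (fam := false) (s1 := true) (s2 := true) (a := 1) (b := 3) (c := 3) (cn := .dn) (n1 := ndN1q1) (n2 := ndN1q3) (pc := pcN3) (cut := Cut.none) (xt := Ext.none) (P1 := 536870912) (W1 := 536870912) (P2 := 1610612736) (W2 := 536870912) (P3 := 50331648) (W3 := 16777216) (N0 := 3)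
    rfl rfl rfl (fun _ => rfl) k0_pp_133

noncomputable def f_pp_202_aa : ℕ → ℕ → ℕ → ℕ → Bool := onCell 0 536870912 0 536870912 50331648 16777216
    (rowNK 3 0 false true true .pp 2 0 2 (qsf 0 536870912 0 536870912 0) ndN1q2a ndN1q2a pcN0 Cut.none Ext.none)

def k0_pp_202_aa : ∃ t, chk3 f_pp_202_aa t 1 1 1 = true :=
  ⟨(l 3), by decide +kernel⟩

theorem c_pp_202_aa : CertN 0 536870912 0 536870912 50331648 16777216 3 false true true .pp 2 0 2
    ndN1q2a ndN1q2a pcN0 Cut.none Ext.none :=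
  certNK0 (fam := false) (s1 := true) (s2 := true) (a := 2) (b := 0) (c := 2) (cn := .pp) (n1 := ndN1q2a) (n2 := ndN1q2a) (pc := pcN0) (cut := Cut.none) (xt := Ext.none) (P1 := 0) (W1 := 536870912) (P2 := 0) (W2 := 536870912) (P3 := 50331648) (W3 := 16777216) (N0 := 3)
    rfl rfl rfl k0_pp_202_aa

noncomputable def f_pp_202_ab : ℕ → ℕ → ℕ → ℕ → Bool := onCell 0 536870912 1239849684 370763052 50331648 16777216
    (rowNK 3 0 false true true .pp 2 0 2 (qsf 0 536870912 1239849684 370763052 0) ndN1q2a ndN1q2b pcN0 Cut.none Ext.none)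

def k0_pp_202_ab : ∃ t, chk3 f_pp_202_ab t 1 1 1 = true :=
  ⟨(l 3), by decide +kernel⟩

theorem c_pp_202_ab : CertN 0 536870912 1239849684 370763052 50331648 16777216 3 false true true .pp 2 0 2
    ndN1q2a ndN1q2b pcN0 Cut.none Ext.none :=
  certNK0 (fam := false) (s1 := true) (s2 := true) (a := 2) (b := 0) (c := 2) (cn := .pp) (n1 := ndN1q2a) (n2 := ndN1q2b) (pc := pcN0) (cut := Cut.none) (xt := Ext.none) (P1 := 0) (W1 := 536870912) (P2 := 1239849684) (W2 := 370763052) (P3 := 50331648) (W3 := 16777216) (N0 := 3)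
    rfl rfl rfl k0_pp_202_ab

noncomputable def f_pp_202_ba : ℕ → ℕ → ℕ → ℕ → Bool := onCell 1239849684 370763052 0 536870912 50331648 16777216
    (rowNK 3 0 false true true .pp 2 0 2 (qsf 1239849684 370763052 0 536870912 0) ndN1q2b ndN1q2a pcN0 Cut.none Ext.none)

def k0_pp_202_ba : ∃ t, chk3 f_pp_202_ba t 1 1 1 = true :=
  ⟨(l 3), by decide +kernel⟩

theorem c_pp_202_ba : CertN 1239849684 370763052 0 536870912 50331648 16777216 3 false true true .pp 2 0 2
    ndN1q2b ndN1q2a pcN0 Cut.none Ext.none :=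
  certNK0 (fam := false) (s1 := true) (s2 := true) (a := 2) (b := 0) (c := 2) (cn := .pp) (n1 := ndN1q2b) (n2 := ndN1q2a) (pc := pcN0) (cut := Cut.none) (xt := Ext.none) (P1 := 1239849684) (W1 := 370763052) (P2 := 0) (W2 := 536870912) (P3 := 50331648) (W3 := 16777216) (N0 := 3)
    rfl rfl rfl k0_pp_202_ba

noncomputable def f_pp_202_bb : ℕ → ℕ → ℕ → ℕ → Bool := onCell 1239849684 370763052 1239849684 370763052 50331648 16777216
    (rowNK 3 0 false true true .pp 2 0 2 (qsf 1239849684 370763052 1239849684 370763052 0) ndN1q2b ndN1q2b pcN0 Cut.none Ext.none)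

def k0_pp_202_bb : ∃ t, chk3 f_pp_202_bb t 1 1 1 = true :=
  ⟨(l 3), by decide +kernel⟩

theorem c_pp_202_bb : CertN 1239849684 370763052 1239849684 370763052 50331648 16777216 3 false true true .pp 2 0 2
    ndN1q2b ndN1q2b pcN0 Cut.none Ext.none :=
  certNK0 (fam := false) (s1 := true) (s2 := true) (a := 2) (b := 0) (c := 2) (cn := .pp) (n1 := ndN1q2b) (n2 := ndN1q2b) (pc := pcN0) (cut := Cut.none) (xt := Ext.none) (P1 := 1239849684) (W1 := 370763052) (P2 := 1239849684) (W2 := 370763052) (P3 := 50331648) (W3 := 16777216) (N0 := 3)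
    rfl rfl rfl k0_pp_202_bb

noncomputable def f_pp_203_a : ℕ → ℕ → ℕ → ℕ → Bool := onCell 0 536870912 0 536870912 50331648 16777216
    (rowNK 3 1 false true true .up 2 0 3 (qsf 0 536870912 1610612736 536870912 0) ndN1q2a ndN1q3 pcN0 Cut.none Ext.none)

def k0_pp_203_a : ∃ t, chk3 f_pp_203_a t 1 1 1 = true :=
  ⟨(l 3), by decide +kernel⟩

theorem c_pp_203_a : CertN 0 536870912 1610612736 536870912 50331648 16777216 3 false true true .up 2 0 3
    ndN1q2a ndN1q3 pcN0 Cut.none Ext.none :=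
  certNK1 (fam := false) (s1 := true) (s2 := true) (a := 2) (b := 0) (c := 3) (cn := .up) (n1 := ndN1q2a) (n2 := ndN1q3) (pc := pcN0) (cut := Cut.none) (xt := Ext.none) (P1 := 0) (W1 := 536870912) (P2 := 1610612736) (W2 := 536870912) (P3 := 50331648) (W3 := 16777216) (N0 := 3)
    rfl rfl rfl (fun _ => rfl) k0_pp_203_a

noncomputable def f_pp_203_b : ℕ → ℕ → ℕ → ℕ → Bool := onCell 1239849684 370763052 1610612736 536870912 50331648 16777216
    (rowNK 3 0 false true true .up 2 0 3 (qsf 1239849684 370763052 1610612736 536870912 0) ndN1q2b ndN1q3 pcN0 Cut.none Ext.none)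

def k0_pp_203_b : ∃ t, chk3 f_pp_203_b t 1 1 1 = true :=
  ⟨(l 3), by decide +kernel⟩

theorem c_pp_203_b : CertN 1239849684 370763052 1610612736 536870912 50331648 16777216 3 false true true .up 2 0 3
    ndN1q2b ndN1q3 pcN0 Cut.none Ext.none :=
  certNK0 (fam := false) (s1 := true) (s2 := true) (a := 2) (b := 0) (c := 3) (cn := .up) (n1 := ndN1q2b) (n2 := ndN1q3) (pc := pcN0) (cut := Cut.none) (xt := Ext.none) (P1 := 1239849684) (W1 := 370763052) (P2 := 1610612736) (W2 := 536870912) (P3 := 50331648) (W3 := 16777216) (N0 := 3)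
    rfl rfl rfl k0_pp_203_b

noncomputable def cut_pp_213_a : Cut := Cut.of [[⟨0, 1, 0, 14341072⟩, ⟨1, 1, 0, 14341072⟩, ⟨2, 2, 0, 761489⟩]]

noncomputable def f_pp_213_a : ℕ → ℕ → ℕ → ℕ → Bool := onCell 0 536870912 1610612736 536870912 50331648 16777216
    (rowNK 3 0 false true true .pnn 2 1 3 (qsf 0 536870912 1610612736 536870912 1) ndN1q2a ndN1q3 pcN1 cut_pp_213_a Ext.none)

def k0_pp_213_a : ∃ t, chk3 f_pp_213_a t 1 1 1 = true :=
  ⟨(b (l 3) (a (l 3) (b (l 3) (a (l 3) (b (l 3) (a (l 3) (b (l 3) (a (l 3) (b (l 3) (a (l 3) (b (l 3) (b (l 3) (b (l 3) (b (l 3) (b (l 3) (l 6)))))))))))))))), by decide +kernel⟩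

theorem c_pp_213_a : CertN 0 536870912 1610612736 536870912 50331648 16777216 3 false true true .pnn 2 1 3
    ndN1q2a ndN1q3 pcN1 cut_pp_213_a Ext.none :=
  certNK0 (fam := false) (s1 := true) (s2 := true) (a := 2) (b := 1) (c := 3) (cn := .pnn) (n1 := ndN1q2a) (n2 := ndN1q3) (pc := pcN1) (cut := cut_pp_213_a) (xt := Ext.none) (P1 := 0) (W1 := 536870912) (P2 := 1610612736) (W2 := 536870912) (P3 := 50331648) (W3 := 16777216) (N0 := 3)
    rfl rfl rfl k0_pp_213_a

noncomputable def cut_pp_213_b : Cut := Cut.of [[⟨0, 1, 0, 14341072⟩, ⟨1, 1, 0, 14341072⟩, ⟨2, 2, 0, 761489⟩]]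

noncomputable def f_pp_213_b : ℕ → ℕ → ℕ → ℕ → Bool := onCell 1239849684 370763052 1610612736 536870912 50331648 16777216
    (rowNK 3 0 false true true .pnn 2 1 3 (qsf 1239849684 370763052 1610612736 536870912 1) ndN1q2b ndN1q3 pcN1 cut_pp_213_b Ext.none)

def k0_pp_213_b : ∃ t, chk3 f_pp_213_b t 1 1 1 = true :=
  ⟨(l 3), by decide +kernel⟩

theorem c_pp_213_b : CertN 1239849684 370763052 1610612736 536870912 50331648 16777216 3 false true true .pnn 2 1 3
    ndN1q2b ndN1q3 pcN1 cut_pp_213_b Ext.none :=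
  certNK0 (fam := false) (s1 := true) (s2 := true) (a := 2) (b := 1) (c := 3) (cn := .pnn) (n1 := ndN1q2b) (n2 := ndN1q3) (pc := pcN1) (cut := cut_pp_213_b) (xt := Ext.none) (P1 := 1239849684) (W1 := 370763052) (P2 := 1610612736) (W2 := 536870912) (P3 := 50331648) (W3 := 16777216) (N0 := 3)
    rfl rfl rfl k0_pp_213_b

noncomputable def f_pp_303 : ℕ → ℕ → ℕ → ℕ → Bool := onCell 1610612736 536870912 1610612736 536870912 50331648 16777216
    (rowNK 3 0 false true true .npn 3 0 3 (qsf 1610612736 536870912 1610612736 536870912 0) ndN1q3 ndN1q3 pcN0 Cut.none Ext.none)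

def k0_pp_303 : ∃ t, chk3 f_pp_303 t 1 1 1 = true :=
  ⟨(l 3), by decide +kernel⟩

theorem c_pp_303 : CertN 1610612736 536870912 1610612736 536870912 50331648 16777216 3 false true true .npn 3 0 3
    ndN1q3 ndN1q3 pcN0 Cut.none Ext.none :=
  certNK0 (fam := false) (s1 := true) (s2 := true) (a := 3) (b := 0) (c := 3) (cn := .npn) (n1 := ndN1q3) (n2 := ndN1q3) (pc := pcN0) (cut := Cut.none) (xt := Ext.none) (P1 := 1610612736) (W1 := 536870912) (P2 := 1610612736) (W2 := 536870912) (P3 := 50331648) (W3 := 16777216) (N0 := 3)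
    rfl rfl rfl k0_pp_303

noncomputable def f_pp_313 : ℕ → ℕ → ℕ → ℕ → Bool := onCell 1610612736 536870912 1610612736 536870912 50331648 16777216
    (rowNK 3 0 false true true .dn 3 1 3 (qsf 1610612736 536870912 1610612736 536870912 1) ndN1q3 ndN1q3 pcN1 Cut.none Ext.none)

def k0_pp_313 : ∃ t, chk3 f_pp_313 t 1 1 1 = true :=
  ⟨(l 3), by decide +kernel⟩

theorem c_pp_313 : CertN 1610612736 536870912 1610612736 536870912 50331648 16777216 3 false true true .dn 3 1 3
    ndN1q3 ndN1q3 pcN1 Cut.none Ext.none :=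
  certNK0 (fam := false) (s1 := true) (s2 := true) (a := 3) (b := 1) (c := 3) (cn := .dn) (n1 := ndN1q3) (n2 := ndN1q3) (pc := pcN1) (cut := Cut.none) (xt := Ext.none) (P1 := 1610612736) (W1 := 536870912) (P2 := 1610612736) (W2 := 536870912) (P3 := 50331648) (W3 := 16777216) (N0 := 3)
    rfl rfl rfl k0_pp_313

noncomputable def f_pm_001 : ℕ → ℕ → ℕ → ℕ → Bool := onCell 0 536870912 536870912 536870912 50331648 16777216
    (rowNK 3 0 false true false .up 0 0 1 (qsf 0 536870912 536870912 536870912 0) ndN1q0 ndN1q1 pcN0 Cut.none Ext.none)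

def k0_pm_001 : ∃ t, chk3 f_pm_001 t 1 1 1 = true :=
  ⟨(l 4), by decide +kernel⟩

theorem c_pm_001 : CertN 0 536870912 536870912 536870912 50331648 16777216 3 false true false .up 0 0 1
    ndN1q0 ndN1q1 pcN0 Cut.none Ext.none :=
  certNK0 (fam := false) (s1 := true) (s2 := false) (a := 0) (b := 0) (c := 1) (cn := .up) (n1 := ndN1q0) (n2 := ndN1q1) (pc := pcN0) (cut := Cut.none) (xt := Ext.none) (P1 := 0) (W1 := 536870912) (P2 := 536870912) (W2 := 536870912) (P3 := 50331648) (W3 := 16777216) (N0 := 3)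
    rfl rfl rfl k0_pm_001

noncomputable def f_pm_011 : ℕ → ℕ → ℕ → ℕ → Bool := onCell 0 536870912 536870912 536870912 50331648 16777216
    (rowNK 3 0 false true false .pnn 0 1 1 (qsf 0 536870912 536870912 536870912 1) ndN1q0 ndN1q1 pcN1 Cut.none Ext.none)

def k0_pm_011 : ∃ t, chk3 f_pm_011 t 1 1 1 = true :=
  ⟨(l 4), by decide +kernel⟩

theorem c_pm_011 : CertN 0 536870912 536870912 536870912 50331648 16777216 3 false true false .pnn 0 1 1
    ndN1q0 ndN1q1 pcN1 Cut.none Ext.none :=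
  certNK0 (fam := false) (s1 := true) (s2 := false) (a := 0) (b := 1) (c := 1) (cn := .pnn) (n1 := ndN1q0) (n2 := ndN1q1) (pc := pcN1) (cut := Cut.none) (xt := Ext.none) (P1 := 0) (W1 := 536870912) (P2 := 536870912) (W2 := 536870912) (P3 := 50331648) (W3 := 16777216) (N0 := 3)
    rfl rfl rfl k0_pm_011

noncomputable def cut_pm_012_a : Cut := Cut.of [[⟨0, 0, 0, 50331648⟩, ⟨1, 1, 0, 50331648⟩, ⟨2, 1, 0, 50331648⟩]]

noncomputable def f_pm_012_a : ℕ → ℕ → ℕ → ℕ → Bool := onCell 536870912 536870912 0 536870912 50331648 16777216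
    (rowNK 3 2 false true false .pnp 0 1 2 (qsf 0 536870912 0 536870912 1) ndN1q0 ndN1q2a pcN1 cut_pm_012_a Ext.none)

def k0_pm_012_a : ∃ t, chk3 f_pm_012_a t 1 1 1 = true :=
  ⟨(a (b (a (b (l 2) (l 19202656)) (b (a (l 18941720) (l 18967672)) (l 19340848))) (b (l 19370552) (l 224652593031))) (b (a (a (b (b (l 18345896) (l 19022176)) (l 19076152)) (l 18980184)) (a (a (l 19234288) (l 19462736)) (a (l 19645224) (a (a (l 19674944) (l 19708272)) (l 19750184))))) (a (b (l 19350088) (l 4)) (a (b (l 19354552) (l 4)) (a (b (a (l 19375536) (l 19378432)) (l 4)) (a (b (b (l 19578032) (l 19156448)) (l 4)) (b (l 19306504) (b (l 4) (b (l 4) (l 6)))))))))), by decide +kernel⟩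

theorem c_pm_012_a : CertN 0 536870912 0 536870912 50331648 16777216 3 false true false .pnp 0 1 2
    ndN1q0 ndN1q2a pcN1 cut_pm_012_a Ext.none :=
  certNK2 (fam := false) (s1 := true) (s2 := false) (a := 0) (b := 1) (c := 2) (cn := .pnp) (n1 := ndN1q0) (n2 := ndN1q2a) (pc := pcN1) (cut := cut_pm_012_a) (xt := Ext.none) (P1 := 0) (W1 := 536870912) (P2 := 0) (W2 := 536870912) (P3 := 50331648) (W3 := 16777216) (N0 := 3)
    rfl rfl rfl (fun _ => rfl) k0_pm_012_a

noncomputable def cut_pm_012_b : Cut := Cut.of [[⟨0, 0, 0, 50331648⟩, ⟨1, 1, 0, 50331648⟩, ⟨2, 1, 0, 50331648⟩]]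

noncomputable def f_pm_012_b : ℕ → ℕ → ℕ → ℕ → Bool := onCell 536870912 536870912 1239849684 370763052 50331648 16777216
    (rowNK 3 2 false true false .pnp 0 1 2 (qsf 0 536870912 1239849684 370763052 1) ndN1q0 ndN1q2b pcN1 cut_pm_012_b Ext.none)

def k0_pm_012_b : ∃ t, chk3 f_pm_012_b t 1 1 1 = true :=
  ⟨(a (a (l 2) (b (a (l 17943728) (l 17898144)) (l 2))) (b (a (a (l 18081496) (b (l 18569960) (l 18452400))) (a (l 19207416) (a (l 19714880) (a (l 19694024) (l 19749328))))) (a (a (l 2) (l 18155952)) (a (l 18791488) (a (l 19160136) (a (l 19170704) (l 19183128))))))), by decide +kernel⟩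

theorem c_pm_012_b : CertN 0 536870912 1239849684 370763052 50331648 16777216 3 false true false .pnp 0 1 2
    ndN1q0 ndN1q2b pcN1 cut_pm_012_b Ext.none :=
  certNK2 (fam := false) (s1 := true) (s2 := false) (a := 0) (b := 1) (c := 2) (cn := .pnp) (n1 := ndN1q0) (n2 := ndN1q2b) (pc := pcN1) (cut := cut_pm_012_b) (xt := Ext.none) (P1 := 0) (W1 := 536870912) (P2 := 1239849684) (W2 := 370763052) (P3 := 50331648) (W3 := 16777216) (N0 := 3)
    rfl rfl rfl (fun _ => rfl) k0_pm_012_b

end Pool.Agent.Strip051.G.I3_64_1_16.Tab.C.NB11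

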