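import Pool.Agent.Strip051.G.I3_64_1_16.Fact
import Pool.Agent.Strip051.G.I3_64_1_16.CrnB
import Pool.Agent.Strip051.PB.C12G

/-! # The corner (1, 1, 2): the germs (generated) -/

set_option linter.all false

namespace Pool.Agent.Strip051.G.I3_64_1_16.Tab

open Pool.Agent.Strip051.PB Pool.Agent.StripNear Pool.Agent.Strip051.LC

theorem gatF03 {x : ℝ} (hx : ((50331648 : ℕ) : ℝ) / S ≤ x) (hx' : x ≤ (((50331648 : ℕ) : ℝ) + (16777216 : ℕ)) / S) (l : Bool) : gF0q3.At3 l (c0F.v x) x := gz_at3 l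
theorem gatF13 {x : ℝ} (hx : ((50331648 : ℕ) : ℝ) / S ≤ x) (hx' : x ≤ (((50331648 : ℕ) : ℝ) + (16777216 : ℕ)) / S) : gF1q3.At3 true (c0F.v x) x :=
  at3_of rfl (atF13 ⟨InQ.two, fun h => absurd h (by decide)⟩) ((sideF hx hx').pinK.top 1) ((sideF hx hx').pinL.top 1)
theorem gatF23 {x : ℝ} (hx : ((50331648 : ℕ) : ℝ) / S ≤ x) (hx' : x ≤ (((50331648 : ℕ) : ℝ) + (16777216 : ℕ)) / S) : gF2q3.At3 true (c0F.v x) x :=
  at3_of rfl (atF23 ⟨InQ.two, fun h => absurd h (by decide)⟩) ((sideF hx hx').pinK.top 2) ((sideF hx hx').pinL.top 2)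
theorem gatF33 {x : ℝ} (hx : ((50331648 : ℕ) : ℝ) / S ≤ x) (hx' : x ≤ (((50331648 : ℕ) : ℝ) + (16777216 : ℕ)) / S) : gF3q3.At3 false (c0F.v x) x :=
  at3_of rfl (atF33 ⟨InQ.two, fun h => absurd h (by decide)⟩) ((sideF hx hx').pinK.top 3) ((sideF hx hx').pinL.top 3)
theorem gatF43 {x : ℝ} (hx : ((50331648 : ℕ) : ℝ) / S ≤ x) (hx' : x ≤ (((50331648 : ℕ) : ℝ) + (16777216 : ℕ)) / S) : gF4q3.At3 false (c0F.v x) x :=
  at3_of rfl (atF43 ⟨InQ.two, fun h => absurd h (by decide)⟩) ((sideF hx hx').pinK.top 4) ((sideF hx hx').pinL.top 4)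
theorem g3okF {x : ℝ} (hx : ((50331648 : ℕ) : ℝ) / S ≤ x) (hx' : x ≤ (((50331648 : ℕ) : ℝ) + (16777216 : ℕ)) / S) : Gn3 PP tKF tL gF 2 x := by
  refine Gn3.of (sideF hx hx').pinK (sideF hx hx').pinL (fun j => by fin_cases j <;> rfl) rfl (fun j y hj ho => ?_)
  fin_cases j
  · exact absurd rfl hj
  · exact atF13 ho
  · exact atF23 ho
  · exact atF33 ho
  · exact atF43 ho

theorem gatN03 {x : ℝ} (hx : ((50331648 : ℕ) : ℝ) / S ≤ x) (hx' : x ≤ (((50331648 : ℕ) : ℝ) + (16777216 : ℕ)) / S) (l : Bool) : gN0q3.At3 l (c0N.v x) x := gz_at3 l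
theorem gatN13 {x : ℝ} (hx : ((50331648 : ℕ) : ℝ) / S ≤ x) (hx' : x ≤ (((50331648 : ℕ) : ℝ) + (16777216 : ℕ)) / S) : gN1q3.At3 true (c0N.v x) x :=
  at3_of rfl (atN13 ⟨InQ.two, fun h => absurd h (by decide)⟩) ((sideN hx hx').pinK.top 1) ((sideN hx hx').pinL.top 1)
theorem gatN23 {x : ℝ} (hx : ((50331648 : ℕ) : ℝ) / S ≤ x) (hx' : x ≤ (((50331648 : ℕ) : ℝ) + (16777216 : ℕ)) / S) : gN2q3.At3 true (c0N.v x) x :=
  at3_of rfl (atN23 ⟨InQ.two, fun h => absurd h (by decide)⟩) ((sideN hx hx').pinK.top 2) ((sideN hx hx').pinL.top 2)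
theorem gatN33 {x : ℝ} (hx : ((50331648 : ℕ) : ℝ) / S ≤ x) (hx' : x ≤ (((50331648 : ℕ) : ℝ) + (16777216 : ℕ)) / S) : gN3q3.At3 false (c0N.v x) x :=
  at3_of rfl (atN33 ⟨InQ.two, fun h => absurd h (by decide)⟩) ((sideN hx hx').pinK.top 3) ((sideN hx hx').pinL.top 3)
theorem gatN43 {x : ℝ} (hx : ((50331648 : ℕ) : ℝ) / S ≤ x) (hx' : x ≤ (((50331648 : ℕ) : ℝ) + (16777216 : ℕ)) / S) : gN4q3.At3 false (c0N.v x) x :=
  at3_of rfl (atN43 ⟨InQ.two, fun h => absurd h (by decide)⟩) ((sideN hx hx').pinK.top 4) ((sideN hx hx').pinL.top 4)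
theorem g3okN {x : ℝ} (hx : ((50331648 : ℕ) : ℝ) / S ≤ x) (hx' : x ≤ (((50331648 : ℕ) : ℝ) + (16777216 : ℕ)) / S) : Gn3 PP tKN tL gN 2 x := by
  refine Gn3.of (sideN hx hx').pinK (sideN hx hx').pinL (fun j => by fin_cases j <;> rfl) rfl (fun j y hj ho => ?_)
  fin_cases j
  · exact absurd rfl hj
  · exact atN13 ho
  · exact atN23 ho
  · exact atN33 ho
  · exact atN43 ho

theorem xr0 {x : ℝ} (hx : ((50331648 : ℕ) : ℝ) / S ≤ x) (hx' : x ≤ (((50331648 : ℕ) : ℝ) + (16777216 : ℕ)) / S) : 0 < x ∧ x < 1 := by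
  have X : XR 1048576 x := XR.of hx hx' (by norm_num) (by norm_num) (by norm_num) (by norm_num)
  exact ⟨X.x0, by linarith [X.b, X.p0]⟩

end Pool.Agent.Strip051.G.I3_64_1_16.Tab
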