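import Pool.Agent.Strip051.PB.DgE
import Pool.Agent.Strip051.G.I3_64_1_16.Fact

/-! # The corner (1, 1, 2): parameters of the degenerate charts (generated) -/

set_option linter.all false

namespace Pool.Agent.Strip051.G.I3_64_1_16.Tab.DG

open Pool.Agent.Strip051.PB Pool.Agent.Strip051.PB.Dg Pool.Agent.StripNear Pool.Agent.Strip051.LC

noncomputable def pFma : Fn1 := ⟨_, _, fun h1 => (enc_norm (enc_add (enc_scale 40276308923 105000000000 (enc_subr 7 128 h1)) (enc_rat _ 3455773169 140000000000)))⟩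
noncomputable def pFmb : Fn1 := ⟨_, _, fun h1 => (enc_norm (enc_subr 217037 14000000 (enc_neg (enc_scale 35808897 140000000 (enc_subr 7 128 h1)))))⟩
noncomputable def pFmu : Fn1 := ⟨_, _, fun h1 => (mug3.enc h1)⟩
noncomputable def pFnx : Fn1 := ⟨_, _, fun h1 => (enc_norm (enc_add h1 (enc_pnc _ 3)))⟩
noncomputable def pFc0 : Fn1 := ⟨_, _, fun h1 => (enc_pnc _ 1)⟩
noncomputable def pFkc : Fn1 := ⟨_, _, fun h1 => (enc_norm (enc_subr 9458863 25000000 (enc_scale 35793 5000000 (enc_subr 7 128 h1))))⟩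
noncomputable def pFjc : Fn1 := ⟨_, _, fun h1 => (enc_norm (enc_add (enc_scale 10639043 20000000 (enc_subr 7 128 h1)) (enc_rat _ 22252401 25000000)))⟩
noncomputable def pFca : Fn1 := ⟨_, _, fun h1 => (enc_norm (enc_add (enc_scale 18076397 5000000 (enc_subr 7 128 h1)) (enc_rat _ 1476373 20000000)))⟩
noncomputable def pFcb : Fn1 := ⟨_, _, fun h1 => (enc_norm (enc_subr 3887 20000 (enc_neg (enc_scale 671647 200000 (enc_subr 7 128 h1)))))⟩
noncomputable def pFcc : Fn1 := ⟨_, _, fun h1 => (enc_norm (enc_sub (enc_rat _ 3287 125000) (enc_scale 380443 200000 (enc_subr 7 128 h1))))⟩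
noncomputable def pFsv : Fn1 := ⟨_, _, fun h1 => (enc_norm (enc_subr 896317 67108864 h1))⟩
noncomputable def pFx11 : Fn1 := ⟨_, _, fun h1 => (cv1m.enc h1)⟩
noncomputable def pFx01 : Fn1 := ⟨_, _, fun h1 => (c1g.enc h1)⟩
noncomputable def pFK11 : Fn2 := ⟨_, _, fun h1 h2 => (kf1q1.enc h1 h2)⟩
noncomputable def pFK01 : Fn2 := ⟨_, _, fun h1 h2 => (kf0q1.enc h1 h2)⟩
noncomputable def pFL11 : Fn2 := ⟨_, _, fun h1 h2 => (l1q1.enc h1 h2)⟩
noncomputable def pFL01 : Fn2 := ⟨_, _, fun h1 h2 => (l0q1.enc h1 h2)⟩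
noncomputable def kFc0 : Fn1 := ⟨_, _, fun h1 => (enc_norm (enc_sub (enc_rat _ 311340931 258398100000000) (enc_scale 42480743 8613270000000 (enc_subr 7 128 h1))))⟩
noncomputable def kFc0g : Fn1 := ⟨_, _, fun h1 => (enc_norm (enc_sub (enc_rat _ 46801 1000000) (enc_scale 176967 50000 (enc_subr 7 128 h1))))⟩
noncomputable def kFa0_2 : Fn1 := ⟨_, _, fun h1 => (enc_subr 7 128 h1)⟩
noncomputable def kFa0 : Fn1 := ⟨_, _, fun h1 => (enc_norm (enc_add (enc_mul (enc_norm (enc_sub (enc_rat _ 130484546429 6140335687500000) (enc_scale 1883721 8432500 (kFa0_2.enc h1)))) (enc_norm (kFa0_2.enc h1))) (enc_rat _ 3723532502737 1637422850000000000)))⟩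
noncomputable def kFa0g : Fn1 := ⟨_, _, fun h1 => (enc_norm (enc_subr 39088133 100000000 (enc_neg (enc_scale 27260421 1000000 (enc_subr 7 128 h1)))))⟩
noncomputable def kFd0_2 : Fn1 := ⟨_, _, fun h1 => (enc_subr 7 128 h1)⟩
noncomputable def kFd0 : Fn1 := ⟨_, _, fun h1 => (enc_norm (enc_add (enc_mul (enc_norm (enc_sub (enc_rat _ 130484546429 6140335687500000) (enc_scale 1883721 8432500 (kFd0_2.enc h1)))) (enc_norm (kFd0_2.enc h1))) (enc_rat _ 3723532502737 1637422850000000000)))⟩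
noncomputable def kFd0g : Fn1 := ⟨_, _, fun h1 => (enc_norm (enc_subr 39088133 100000000 (enc_neg (enc_scale 27260421 1000000 (enc_subr 7 128 h1)))))⟩
noncomputable def kFe0_2 : Fn1 := ⟨_, _, fun h1 => (enc_subr 7 128 h1)⟩
noncomputable def kFe0 : Fn1 := ⟨_, _, fun h1 => (enc_norm (enc_add (enc_mul (enc_norm (enc_sub (enc_rat _ 130484546429 6140335687500000) (enc_scale 1883721 8432500 (kFe0_2.enc h1)))) (enc_norm (kFe0_2.enc h1))) (enc_rat _ 3723532502737 1637422850000000000)))⟩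
noncomputable def kFe0g : Fn1 := ⟨_, _, fun h1 => (enc_norm (enc_subr 39088133 100000000 (enc_neg (enc_scale 27260421 1000000 (enc_subr 7 128 h1)))))⟩
noncomputable def cFxs1 : Fn1 := ⟨_, _, fun h1 => (enc_norm (enc_add (enc_scale 2 5 (dgxi.enc h1)) (enc_scale 3 5 (dgws.enc h1))))⟩
noncomputable def cFsB1 : Fn2 := ⟨_, _, fun h1 h2 => (enc_norm (enc_add (enc_scale 127 7500 (enc_subr 7 128 h2)) (enc_rat _ 6257 25000)))⟩
noncomputable def cFBs1 : Fn2 := ⟨_, _, fun h1 h2 => (cFsB1.enc h1 h2)⟩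
noncomputable def cFsX1 : Fn2 := ⟨_, _, fun h1 h2 => (enc_norm (enc_add (enc_scale 5033 7500 (enc_subr 7 128 h2)) (enc_rat _ 173 5000)))⟩
noncomputable def cFxs2 : Fn1 := ⟨_, _, fun h1 => (dgws.enc h1)⟩
noncomputable def cFsB2 : Fn2 := ⟨_, _, fun h1 h2 => (enc_norm (enc_subr 7991 150000 (enc_neg (enc_scale 137 3000 (enc_subr 7 128 h2)))))⟩
noncomputable def cFBs2 : Fn2 := ⟨_, _, fun h1 h2 => (cFsB2.enc h1 h2)⟩
noncomputable def cFsX2 : Fn2 := ⟨_, _, fun h1 h2 => (enc_norm (enc_add (enc_scale 4963 7500 (enc_subr 7 128 h2)) (enc_rat _ 1123 30000)))⟩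
noncomputable def nFsc2 : Fn1 := ⟨_, _, fun h1 => h1⟩
noncomputable def nFBv2 : Fn1 := ⟨_, _, fun h1 => (enc_norm (enc_sub (enc_rat _ 17355489 2500000) (enc_scale 7 500000 (enc_subr 7 128 h1))))⟩
noncomputable def nFBm2 : Fn1 := ⟨_, _, fun h1 => (enc_norm (enc_add (enc_scale 11 15000 (enc_subr 7 128 h1)) (enc_rat _ 1862129 150000)))⟩
noncomputable def nFXv2 : Fn1 := ⟨_, _, fun h1 => (enc_norm (enc_subr 22781 1000000 (enc_neg (enc_scale 1789 200000 (enc_subr 7 128 h1)))))⟩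
noncomputable def nFXm2 : Fn1 := ⟨_, _, fun h1 => (enc_norm (enc_sub (enc_rat _ 14111 150000) (enc_scale 392 1875 (enc_subr 7 128 h1))))⟩
noncomputable def nFsc3 : Fn1 := ⟨_, _, fun h1 => (enc_norm (enc_add (enc_scale 3 5 h1) (enc_rat _ 2 5)))⟩
noncomputable def nFBv3 : Fn1 := ⟨_, _, fun h1 => (enc_rat _ 1 2)⟩
noncomputable def nFBm3 : Fn1 := ⟨_, _, fun h1 => (enc_norm (enc_subr 11938 1875 (enc_scale 73 15000 (enc_subr 7 128 h1))))⟩
noncomputable def nFXv3 : Fn1 := ⟨_, _, fun h1 => (enc_norm (enc_add (enc_scale 13437036577 210000000000 (enc_subr 7 128 h1)) (enc_rat _ 126423833 40000000000)))⟩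
noncomputable def nFXm3 : Fn1 := ⟨_, _, fun h1 => (enc_norm (enc_subr 32813389 200000000 (enc_scale 274446577 3150000000 (enc_subr 7 128 h1))))⟩
noncomputable def l12F : List Knk := [⟨1, 100, kFc0, kFc0g⟩]
noncomputable def laF : List Knk := [⟨21, 1000, kFa0, kFa0g⟩]
noncomputable def lbF : List Knk := []
noncomputable def l1F : List Knk := [⟨21, 1000, kFe0, kFe0g⟩]
noncomputable def l2F : List Knk := [⟨21, 1000, kFd0, kFd0g⟩]
noncomputable def cvF1 : CvP := ⟨cFxs1, cFBs1, cFsX1⟩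
noncomputable def cvF2 : CvP := ⟨cFxs2, cFBs2, cFsX2⟩
noncomputable def ndFP2 : NdP := ⟨nFsc2, nFBv2, nFBm2, nFXv2, nFXm2⟩
noncomputable def ndFP3 : NdP := ⟨nFsc3, nFBv3, nFBm3, nFXv3, nFXm3⟩
noncomputable def pF : Pm := ⟨pFma, pFmb, pFmu, pFnx, pFc0, pFkc, pFjc, pFkc, pFjc, pFkc, pFjc, pFca, pFcb, pFcc, pFcc, pFcc, pFsv, l12F, l12F, l12F, laF, lbF, l1F, l2F, cvF1, pFx11, pFx01, pFK11, pFK01, pFL11, pFL01⟩
noncomputable def pNc0 : Fn1 := ⟨_, _, fun h1 => (enc_norm (enc_add (enc_pnc _ 1) (enc_mul (mug3.enc h1) (gug.enc h1))))⟩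
noncomputable def pNk12_3 : Fn1 := ⟨_, _, fun h1 => (enc_subr 7 128 h1)⟩
noncomputable def pNk12 : Fn1 := ⟨_, _, fun h1 => (enc_norm (enc_add (enc_mul (pNc0.enc h1) (enc_norm (enc_subr 9458863 25000000 (enc_scale 35793 5000000 (pNk12_3.enc h1))))) (enc_mul (pFmu.enc h1) (enc_norm (enc_sub (enc_rat _ 252973 1250000) (enc_scale 220691 500000 (pNk12_3.enc h1)))))))⟩
noncomputable def pNj12_3 : Fn1 := ⟨_, _, fun h1 => (enc_subr 7 128 h1)⟩
noncomputable def pNj12 : Fn1 := ⟨_, _, fun h1 => (enc_norm (enc_add (enc_mul (pNc0.enc h1) (enc_norm (enc_add (enc_scale 10639043 20000000 (pNj12_3.enc h1)) (enc_rat _ 22252401 25000000)))) (enc_mul (pFmu.enc h1) (enc_norm (enc_add (enc_scale 14159 25000 (pNj12_3.enc h1)) (enc_rat _ 2381 5000000))))))⟩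
noncomputable def pNk23_3 : Fn1 := ⟨_, _, fun h1 => (enc_subr 7 128 h1)⟩
noncomputable def pNk23 : Fn1 := ⟨_, _, fun h1 => (enc_norm (enc_add (enc_mul (pNc0.enc h1) (enc_norm (enc_subr 9458863 25000000 (enc_scale 35793 5000000 (pNk23_3.enc h1))))) (enc_mul (pFmu.enc h1) (enc_norm (enc_add (enc_scale 11451 1000000 (pNk23_3.enc h1)) (enc_rat _ 2169871 10000000))))))⟩
noncomputable def pNj23_3 : Fn1 := ⟨_, _, fun h1 => (enc_subr 7 128 h1)⟩
noncomputable def pNj23 : Fn1 := ⟨_, _, fun h1 => (enc_norm (enc_add (enc_mul (pNc0.enc h1) (enc_norm (enc_add (enc_scale 10639043 20000000 (pNj23_3.enc h1)) (enc_rat _ 22252401 25000000)))) (enc_mul (pFmu.enc h1) (enc_norm (enc_subr 173583 400000 (enc_neg (enc_scale 4897 200000 (pNj23_3.enc h1))))))))⟩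
noncomputable def pNk13_3 : Fn1 := ⟨_, _, fun h1 => (enc_subr 7 128 h1)⟩
noncomputable def pNk13 : Fn1 := ⟨_, _, fun h1 => (enc_norm (enc_add (enc_mul (pNc0.enc h1) (enc_norm (enc_subr 9458863 25000000 (enc_scale 35793 5000000 (pNk13_3.enc h1))))) (enc_mul (pFmu.enc h1) (enc_norm (enc_add (enc_scale 4969 1000000 (pNk13_3.enc h1)) (enc_rat _ 1223761 10000000))))))⟩
noncomputable def pNj13_3 : Fn1 := ⟨_, _, fun h1 => (enc_subr 7 128 h1)⟩
noncomputable def pNj13 : Fn1 := ⟨_, _, fun h1 => (enc_norm (enc_add (enc_mul (pNc0.enc h1) (enc_norm (enc_add (enc_scale 10639043 20000000 (pNj13_3.enc h1)) (enc_rat _ 22252401 25000000)))) (enc_mul (pFmu.enc h1) (enc_norm (enc_sub (enc_rat _ 7133 200000) (enc_scale 10223 100000 (pNj13_3.enc h1)))))))⟩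
noncomputable def pNc12 : Fn1 := ⟨_, _, fun h1 => (enc_norm (enc_mul (pNc0.enc h1) (enc_norm (enc_sub (enc_rat _ 3287 125000) (enc_scale 380443 200000 (enc_subr 7 128 h1))))))⟩
noncomputable def pNc23 : Fn1 := ⟨_, _, fun h1 => (enc_norm (enc_mul (pNc0.enc h1) (enc_norm (enc_sub (enc_rat _ 3287 125000) (enc_scale 380443 200000 (enc_subr 7 128 h1))))))⟩
noncomputable def pNc13 : Fn1 := ⟨_, _, fun h1 => (enc_norm (enc_mul (pNc0.enc h1) (enc_norm (enc_sub (enc_rat _ 3287 125000) (enc_scale 380443 200000 (enc_subr 7 128 h1))))))⟩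
noncomputable def pNK11 : Fn2 := ⟨_, _, fun h1 h2 => (kn1q1.enc h1 h2)⟩
noncomputable def pNK01 : Fn2 := ⟨_, _, fun h1 h2 => (kn0q1.enc h1 h2)⟩
noncomputable def kNc12_0 : Fn1 := ⟨_, _, fun h1 => (enc_norm (enc_mul (pNc0.enc h1) (enc_norm (enc_sub (enc_rat _ 311340931 258398100000000) (enc_scale 42480743 8613270000000 (enc_subr 7 128 h1))))))⟩
noncomputable def kNc12_0g : Fn1 := ⟨_, _, fun h1 => (enc_norm (enc_mul (pNc0.enc h1) (enc_norm (enc_sub (enc_rat _ 46801 1000000) (enc_scale 176967 50000 (enc_subr 7 128 h1))))))⟩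
noncomputable def kNc23_0 : Fn1 := ⟨_, _, fun h1 => (enc_norm (enc_mul (pNc0.enc h1) (enc_norm (enc_sub (enc_rat _ 311340931 258398100000000) (enc_scale 42480743 8613270000000 (enc_subr 7 128 h1))))))⟩
noncomputable def kNc23_0g : Fn1 := ⟨_, _, fun h1 => (enc_norm (enc_mul (pNc0.enc h1) (enc_norm (enc_sub (enc_rat _ 46801 1000000) (enc_scale 176967 50000 (enc_subr 7 128 h1))))))⟩
noncomputable def kNc13_0 : Fn1 := ⟨_, _, fun h1 => (enc_norm (enc_mul (pNc0.enc h1) (enc_norm (enc_sub (enc_rat _ 311340931 258398100000000) (enc_scale 42480743 8613270000000 (enc_subr 7 128 h1))))))⟩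
noncomputable def kNc13_0g : Fn1 := ⟨_, _, fun h1 => (enc_norm (enc_mul (pNc0.enc h1) (enc_norm (enc_sub (enc_rat _ 46801 1000000) (enc_scale 176967 50000 (enc_subr 7 128 h1))))))⟩
noncomputable def cNsD1 : Fn2 := ⟨_, _, fun h1 h2 => (enc_norm (enc_subr 434047 1000000 (enc_neg (enc_scale 1657 100000 (enc_subr 7 128 h2)))))⟩
noncomputable def cNBs1 : Fn2 := ⟨_, _, fun h1 h2 => (enc_norm (enc_add (enc_mul (pNc0.enc h2) (cFsB1.enc h1 h2)) (enc_mul (pFmu.enc h2) (cNsD1.enc h1 h2))))⟩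
noncomputable def cNsD2 : Fn2 := ⟨_, _, fun h1 h2 => (enc_norm (enc_add (enc_scale 72023 1953125 (enc_subr 7 128 h2)) (enc_rat _ 4908269 62500000)))⟩
noncomputable def cNBs2 : Fn2 := ⟨_, _, fun h1 h2 => (enc_norm (enc_add (enc_mul (pNc0.enc h2) (cFsB2.enc h1 h2)) (enc_mul (pFmu.enc h2) (cNsD2.enc h1 h2))))⟩
noncomputable def nNBv2_3 : Fn1 := ⟨_, _, fun h1 => (enc_subr 7 128 h1)⟩
noncomputable def nNBv2 : Fn1 := ⟨_, _, fun h1 => (enc_norm (enc_add (enc_mul (pNc0.enc h1) (enc_norm (enc_sub (enc_rat _ 17355489 2500000) (enc_scale 7 500000 (nNBv2_3.enc h1))))) (enc_mul (pFmu.enc h1) (enc_norm (enc_subr 7246527 10000000 (enc_neg (enc_scale 1 40000 (nNBv2_3.enc h1))))))))⟩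
noncomputable def nNBm2_3 : Fn1 := ⟨_, _, fun h1 => (enc_subr 7 128 h1)⟩
noncomputable def nNBm2 : Fn1 := ⟨_, _, fun h1 => (enc_norm (enc_add (enc_mul (pNc0.enc h1) (enc_norm (enc_add (enc_scale 11 15000 (nNBm2_3.enc h1)) (enc_rat _ 1862129 150000)))) (enc_mul (pFmu.enc h1) (enc_norm (enc_sub (enc_rat _ 282431 31250) (enc_scale 9 100000 (nNBm2_3.enc h1)))))))⟩
noncomputable def nNBv3 : Fn1 := ⟨_, _, fun h1 => (enc_half (pNc0.enc h1))⟩
noncomputable def nNBm3_3 : Fn1 := ⟨_, _, fun h1 => (enc_subr 7 128 h1)⟩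
noncomputable def nNBm3 : Fn1 := ⟨_, _, fun h1 => (enc_norm (enc_add (enc_mul (pNc0.enc h1) (enc_norm (enc_subr 11938 1875 (enc_scale 73 15000 (nNBm3_3.enc h1))))) (enc_mul (pFmu.enc h1) (enc_norm (enc_subr 5715373 500000 (enc_scale 1 12500 (nNBm3_3.enc h1)))))))⟩
noncomputable def l12N : List Knk := [⟨1, 100, kNc12_0, kNc12_0g⟩]
noncomputable def l23N : List Knk := [⟨1, 100, kNc23_0, kNc23_0g⟩]
noncomputable def l13N : List Knk := [⟨1, 100, kNc13_0, kNc13_0g⟩]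
noncomputable def cvN1 : CvP := ⟨cFxs1, cNBs1, cFsX1⟩
noncomputable def cvN2 : CvP := ⟨cFxs2, cNBs2, cFsX2⟩
noncomputable def ndNP2 : NdP := ⟨nFsc2, nNBv2, nNBm2, nFXv2, nFXm2⟩
noncomputable def ndNP3 : NdP := ⟨nFsc3, nNBv3, nNBm3, nFXv3, nFXm3⟩
noncomputable def pN : Pm := ⟨pFma, pFmb, pFmu, pFnx, pNc0, pNk12, pNj12, pNk23, pNj23, pNk13, pNj13, pFca, pFcb, pNc12, pNc23, pNc13, pFsv, l12N, l23N, l13N, laF, lbF, l1F, l2F, cvN1, pFx11, pFx01, pNK11, pNK01, pFL11, pFL01⟩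

end Pool.Agent.Strip051.G.I3_64_1_16.Tab.DG
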