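import Pool.Agent.Strip051.G.I3_64_1_16.Fs

/-! # Certificates at the floor (generated) -/

set_option linter.all false

namespace Pool.Agent.Strip051.G.I3_64_1_16.Tab

open Pool.Agent.Strip051.PB

theorem cF_m00 : CertNd 0 536870912 50331648 16777216 (ftMono true 0 mZ) [] ndF0q0 cZ :=
  certNd (T := (ftMono true 0 mZ)) (L := []) (P1 := 0) (W1 := 536870912) (P3 := 50331648) (W3 := 16777216) (n := ndF0q0) (c := cZ)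
    ⟨T.a (T.a (T.a (T.a (T.c (T.l 0) (T.l 0)) (T.a (T.l 0) (T.c (T.a (T.c (T.l 0) (T.l 0)) (T.l 0)) (T.a (T.l 0) (T.c (T.l 0) (T.l 0)))))) (T.l 0)) (T.l 0)) (T.l 0),
      by decide +kernel⟩
theorem cF_m01 : CertNd 536870912 536870912 50331648 16777216 (ftMono true 1 mZ) [] ndF0q1 cZ :=
  certNd (T := (ftMono true 1 mZ)) (L := []) (P1 := 536870912) (W1 := 536870912) (P3 := 50331648) (W3 := 16777216) (n := ndF0q1) (c := cZ)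
    ⟨T.a (T.l 0) (T.a (T.l 0) (T.a (T.l 0) (T.a (T.a (T.c (T.l 0) (T.l 0)) (T.l 0)) (T.c (T.l 0) (T.l 0))))),
      by decide +kernel⟩
theorem cF_g00 : CertGe 0 13958643 50331648 16777216 true [] (((2 : ℕ) : ℝ) / ((1 : ℕ) : ℝ)) 0 ((0 : ℕ) : ℝ)
    (((2 : ℕ) : ℝ) / 2) mZ ndF0q0 cZ :=
  certGe (z := true) (L := []) (P1 := 0) (W1 := 13958643) (P3 := 50331648) (W3 := 16777216) (oa := 2) (ob := 1)
    (q := 0) (bb := 0) (hB := 2) (M := mZ) (n := ndF0q0) (c := cZ) (sX := c1g_fs) (sK := kf0q0_fs)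
    (sL := l0q0_fs) ⟨T.c (T.c (T.c (T.a (T.l 0) (T.l 0)) (T.l 0)) (T.c (T.l 0) (T.l 0))) (T.c (T.c (T.l 0) (T.l 0)) (T.c (T.l 0) (T.l 0))),
      by decide +kernel⟩
theorem cF_w00a : CertNd 13958643 21474837 50331648 16777216 (ftWall true 0 mZ 1 1) [] ndF0q0 cZ :=
  certNd (T := (ftWall true 0 mZ 1 1)) (L := []) (P1 := 13958643) (W1 := 21474837) (P3 := 50331648) (W3 := 16777216) (n := ndF0q0) (c := cZ)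
    ⟨T.c (T.c (T.a (T.c (T.a (T.c (T.a (T.a (T.c (T.l 0) (T.l 0)) (T.c (T.l 0) (T.l 0))) (T.a (T.c (T.l 0) (T.l 0)) (T.c (T.l 0) (T.l 0)))) (T.a (T.a (T.c (T.l 0) (T.l 0)) (T.c (T.l 0) (T.l 0))) (T.a (T.c (T.l 0) (T.l 0)) (T.c (T.l 0) (T.l 0))))) (T.c (T.a (T.a (T.c (T.l 0) (T.l 0)) (T.c (T.l 0) (T.l 0))) (T.a (T.c (T.l 0) (T.l 0)) (T.c (T.a (T.l 0) (T.l 0)) (T.l 0)))) (T.a (T.a (T.c (T.l 0) (T.l 0)) (T.c (T.l 0) (T.l 0))) (T.a (T.c (T.l 0) (T.l 0)) (T.c (T.l 0) (T.l 0)))))) (T.a (T.c (T.a (T.a (T.c (T.l 0) (T.l 0)) (T.c (T.l 0) (T.l 0))) (T.a (T.c (T.l 0) (T.l 0)) (T.c (T.l 0) (T.l 0)))) (T.a (T.c (T.l 0) (T.l 0)) (T.a (T.c (T.l 0) (T.l 0)) (T.c (T.l 0) (T.l 0))))) (T.c (T.a (T.a (T.c (T.l 0) (T.l 0)) (T.c (T.l 0) (T.l 0))) (T.a (T.c (T.l 0) (T.l 0)) (T.c (T.l 0) (T.l 0)))) (T.a (T.a (T.c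 (T.l 0) (T.l 0)) (T.c (T.l 0) (T.l 0))) (T.a (T.c (T.l 0) (T.l 0)) (T.c (T.l 0) (T.l 0))))))) (T.c (T.a (T.c (T.a (T.a (T.c (T.a (T.l 0) (T.l 0)) (T.a (T.l 0) (T.l 0))) (T.c (T.a (T.l 0) (T.l 0)) (T.a (T.l 0) (T.l 0)))) (T.a (T.c (T.c (T.l 0) (T.l 0)) (T.a (T.l 0) (T.l 0))) (T.c (T.a (T.c (T.l 0) (T.l 0)) (T.c (T.l 0) (T.l 0))) (T.c (T.l 0) (T.l 0))))) (T.a (T.a (T.c (T.a (T.l 0) (T.l 0)) (T.l 0)) (T.c (T.a (T.l 0) (T.l 0)) (T.a (T.l 0) (T.l 0)))) (T.a (T.c (T.a (T.l 0) (T.l 0)) (T.a (T.l 0) (T.l 0))) (T.c (T.c (T.l 0) (T.l 0)) (T.c (T.l 0) (T.l 0)))))) (T.c (T.a (T.a (T.c (T.a (T.c (T.l 0) (T.l 0)) (T.c (T.l 0) (T.l 0))) (T.a (T.c (T.l 0) (T.l 0)) (T.c (T.l 0) (T.l 0)))) (T.c (T.a (T.c (T.l 0) (T.l 0)) (T.c (T.l 0) (T.l 0))) (T.a (T.c (T.l 0) (T.l 0)) (T.c (T.l 0) (T.l 0))))) (T.a (T.c (T.a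 (T.c (T.l 0) (T.l 0)) (T.c (T.a (T.l 0) (T.l 0)) (T.l 0))) (T.a (T.c (T.l 0) (T.l 0)) (T.c (T.l 0) (T.l 0)))) (T.c (T.a (T.c (T.a (T.l 0) (T.l 0)) (T.a (T.l 0) (T.l 0))) (T.c (T.a (T.l 0) (T.l 0)) (T.a (T.l 0) (T.l 0)))) (T.a (T.c (T.a (T.l 0) (T.l 0)) (T.l 0)) (T.c (T.a (T.l 0) (T.l 0)) (T.a (T.l 0) (T.l 0))))))) (T.a (T.a (T.c (T.a (T.c (T.l 0) (T.l 0)) (T.c (T.l 0) (T.l 0))) (T.a (T.c (T.l 0) (T.l 0)) (T.c (T.l 0) (T.l 0)))) (T.c (T.a (T.c (T.l 0) (T.l 0)) (T.c (T.l 0) (T.l 0))) (T.a (T.c (T.l 0) (T.l 0)) (T.c (T.l 0) (T.l 0))))) (T.a (T.c (T.a (T.c (T.l 0) (T.l 0)) (T.c (T.l 0) (T.l 0))) (T.a (T.c (T.l 0) (T.l 0)) (T.c (T.l 0) (T.l 0)))) (T.c (T.a (T.c (T.l 0) (T.l 0)) (T.c (T.a (T.l 0) (T.l 0)) (T.l 0))) (T.a (T.c (T.l 0) (T.l 0)) (T.c (T.l 0) (T.l 0)))))))) (T.a (T.c (T.a (T.a (T.c (T.l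 0) (T.l 0)) (T.c (T.a (T.l 0) (T.l 0)) (T.a (T.l 0) (T.l 0)))) (T.a (T.c (T.a (T.l 0) (T.l 0)) (T.a (T.l 0) (T.l 0))) (T.c (T.c (T.l 0) (T.l 0)) (T.a (T.l 0) (T.l 0))))) (T.a (T.a (T.c (T.l 0) (T.l 0)) (T.c (T.l 0) (T.l 0))) (T.a (T.c (T.a (T.l 0) (T.l 0)) (T.a (T.l 0) (T.l 0))) (T.c (T.a (T.l 0) (T.l 0)) (T.a (T.l 0) (T.l 0)))))) (T.c (T.a (T.a (T.c (T.a (T.c (T.l 0) (T.l 0)) (T.c (T.l 0) (T.l 0))) (T.c (T.l 0) (T.l 0))) (T.c (T.a (T.c (T.l 0) (T.l 0)) (T.c (T.l 0) (T.l 0))) (T.a (T.c (T.l 0) (T.l 0)) (T.c (T.l 0) (T.l 0))))) (T.a (T.c (T.a (T.c (T.l 0) (T.l 0)) (T.c (T.l 0) (T.l 0))) (T.a (T.c (T.l 0) (T.l 0)) (T.c (T.l 0) (T.l 0)))) (T.c (T.a (T.c (T.l 0) (T.l 0)) (T.c (T.l 0) (T.l 0))) (T.a (T.c (T.l 0) (T.l 0)) (T.c (T.l 0) (T.l 0)))))) (T.a (T.a (T.c (T.c (T.l 0) (T.l 0)) (T.c (T.l 0)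 (T.l 0))) (T.c (T.a (T.c (T.l 0) (T.l 0)) (T.c (T.l 0) (T.l 0))) (T.a (T.c (T.l 0) (T.l 0)) (T.c (T.l 0) (T.l 0))))) (T.a (T.c (T.a (T.c (T.l 0) (T.l 0)) (T.c (T.l 0) (T.l 0))) (T.a (T.c (T.l 0) (T.l 0)) (T.c (T.l 0) (T.l 0)))) (T.c (T.a (T.c (T.l 0) (T.l 0)) (T.c (T.l 0) (T.l 0))) (T.a (T.c (T.l 0) (T.l 0)) (T.c (T.l 0) (T.l 0)))))))))) (T.a (T.c (T.a (T.c (T.a (T.c (T.l 0) (T.l 0)) (T.c (T.l 0) (T.l 0))) (T.a (T.c (T.l 0) (T.l 0)) (T.c (T.l 0) (T.l 0)))) (T.c (T.a (T.a (T.c (T.l 0) (T.l 0)) (T.c (T.l 0) (T.l 0))) (T.a (T.c (T.l 0) (T.l 0)) (T.c (T.l 0) (T.l 0)))) (T.a (T.c (T.l 0) (T.l 0)) (T.a (T.c (T.l 0) (T.l 0)) (T.c (T.l 0) (T.l 0)))))) (T.a (T.c (T.a (T.a (T.l 0) (T.l 0)) (T.c (T.l 0) (T.l 0))) (T.a (T.a (T.l 0) (T.l 0)) (T.a (T.l 0) (T.l 0)))) (T.c (T.a (T.c (T.l 0) (T.l 0)) (T.a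 (T.c (T.l 0) (T.l 0)) (T.c (T.l 0) (T.l 0)))) (T.a (T.c (T.l 0) (T.l 0)) (T.c (T.l 0) (T.l 0)))))) (T.c (T.a (T.c (T.a (T.a (T.c (T.l 0) (T.l 0)) (T.c (T.l 0) (T.l 0))) (T.a (T.c (T.a (T.l 0) (T.l 0)) (T.a (T.l 0) (T.l 0))) (T.c (T.a (T.l 0) (T.l 0)) (T.a (T.l 0) (T.l 0))))) (T.a (T.a (T.c (T.l 0) (T.l 0)) (T.c (T.l 0) (T.l 0))) (T.a (T.c (T.l 0) (T.l 0)) (T.c (T.a (T.l 0) (T.l 0)) (T.a (T.l 0) (T.l 0)))))) (T.c (T.a (T.a (T.c (T.c (T.l 0) (T.l 0)) (T.a (T.l 0) (T.l 0))) (T.c (T.c (T.l 0) (T.l 0)) (T.c (T.l 0) (T.l 0)))) (T.a (T.c (T.a (T.c (T.l 0) (T.l 0)) (T.c (T.l 0) (T.l 0))) (T.a (T.c (T.l 0) (T.l 0)) (T.c (T.l 0) (T.l 0)))) (T.c (T.a (T.c (T.l 0) (T.l 0)) (T.c (T.l 0) (T.l 0))) (T.a (T.c (T.l 0) (T.l 0)) (T.c (T.l 0) (T.l 0)))))) (T.a (T.a (T.c (T.a (T.l 0) (T.l 0)) (T.a (T.l 0) (T.l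 0))) (T.c (T.c (T.l 0) (T.l 0)) (T.c (T.l 0) (T.l 0)))) (T.a (T.c (T.c (T.l 0) (T.l 0)) (T.c (T.l 0) (T.l 0))) (T.c (T.a (T.c (T.l 0) (T.l 0)) (T.c (T.l 0) (T.l 0))) (T.c (T.a (T.l 0) (T.l 0)) (T.l 0))))))) (T.a (T.c (T.a (T.a (T.c (T.l 0) (T.l 0)) (T.c (T.l 0) (T.l 0))) (T.a (T.c (T.l 0) (T.l 0)) (T.c (T.a (T.l 0) (T.l 0)) (T.a (T.l 0) (T.l 0))))) (T.a (T.a (T.c (T.l 0) (T.l 0)) (T.c (T.l 0) (T.l 0))) (T.a (T.c (T.l 0) (T.l 0)) (T.c (T.a (T.l 0) (T.l 0)) (T.l 0))))) (T.c (T.a (T.a (T.c (T.a (T.l 0) (T.l 0)) (T.a (T.l 0) (T.l 0))) (T.c (T.a (T.l 0) (T.l 0)) (T.a (T.l 0) (T.l 0)))) (T.a (T.c (T.c (T.l 0) (T.l 0)) (T.c (T.l 0) (T.l 0))) (T.c (T.c (T.l 0) (T.l 0)) (T.c (T.l 0) (T.l 0))))) (T.a (T.a (T.c (T.a (T.l 0) (T.l 0)) (T.a (T.l 0) (T.l 0))) (T.c (T.a (T.l 0) (T.l 0)) (T.a (T.l 0) (T.l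 0)))) (T.a (T.c (T.a (T.l 0) (T.l 0)) (T.a (T.l 0) (T.l 0))) (T.c (T.c (T.l 0) (T.l 0)) (T.a (T.l 0) (T.l 0)))))))))) (T.c (T.a (T.c (T.a (T.c (T.a (T.a (T.l 0) (T.l 0)) (T.a (T.l 0) (T.l 0))) (T.a (T.a (T.l 0) (T.l 0)) (T.a (T.l 0) (T.l 0)))) (T.c (T.a (T.a (T.l 0) (T.l 0)) (T.c (T.l 0) (T.l 0))) (T.a (T.a (T.l 0) (T.l 0)) (T.c (T.l 0) (T.l 0))))) (T.a (T.c (T.a (T.a (T.l 0) (T.l 0)) (T.a (T.l 0) (T.l 0))) (T.a (T.a (T.l 0) (T.l 0)) (T.a (T.l 0) (T.l 0)))) (T.c (T.a (T.a (T.l 0) (T.l 0)) (T.a (T.l 0) (T.l 0))) (T.a (T.a (T.l 0) (T.l 0)) (T.a (T.l 0) (T.l 0)))))) (T.c (T.a (T.c (T.a (T.a (T.c (T.l 0) (T.l 0)) (T.c (T.l 0) (T.l 0))) (T.a (T.c (T.l 0) (T.l 0)) (T.c (T.l 0) (T.l 0)))) (T.a (T.a (T.c (T.l 0) (T.l 0)) (T.c (T.l 0) (T.l 0))) (T.a (T.c (T.l 0) (T.l 0)) (T.c (T.l 0) (T.l 0))))) (T.c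 (T.a (T.a (T.c (T.a (T.l 0) (T.l 0)) (T.a (T.l 0) (T.l 0))) (T.c (T.a (T.l 0) (T.l 0)) (T.a (T.l 0) (T.l 0)))) (T.a (T.c (T.a (T.l 0) (T.l 0)) (T.a (T.l 0) (T.l 0))) (T.c (T.a (T.l 0) (T.l 0)) (T.a (T.l 0) (T.l 0))))) (T.a (T.a (T.c (T.a (T.l 0) (T.l 0)) (T.l 0)) (T.c (T.a (T.l 0) (T.l 0)) (T.a (T.l 0) (T.l 0)))) (T.a (T.c (T.a (T.l 0) (T.l 0)) (T.a (T.l 0) (T.l 0))) (T.c (T.a (T.l 0) (T.l 0)) (T.a (T.l 0) (T.l 0))))))) (T.a (T.a (T.c (T.c (T.l 0) (T.l 0)) (T.c (T.l 0) (T.l 0))) (T.c (T.a (T.c (T.l 0) (T.l 0)) (T.c (T.l 0) (T.l 0))) (T.a (T.c (T.l 0) (T.l 0)) (T.c (T.l 0) (T.l 0))))) (T.c (T.a (T.a (T.c (T.l 0) (T.l 0)) (T.c (T.a (T.l 0) (T.l 0)) (T.a (T.l 0) (T.l 0)))) (T.a (T.c (T.a (T.l 0) (T.l 0)) (T.a (T.l 0) (T.l 0))) (T.c (T.a (T.l 0) (T.l 0)) (T.a (T.l 0) (T.l 0))))) (T.a (T.a (T.c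 (T.l 0) (T.l 0)) (T.c (T.l 0) (T.l 0))) (T.a (T.c (T.a (T.l 0) (T.l 0)) (T.a (T.l 0) (T.l 0))) (T.c (T.a (T.l 0) (T.l 0)) (T.a (T.l 0) (T.l 0))))))))) (T.a (T.c (T.a (T.c (T.a (T.a (T.l 0) (T.l 0)) (T.a (T.l 0) (T.l 0))) (T.a (T.a (T.l 0) (T.l 0)) (T.a (T.l 0) (T.l 0)))) (T.c (T.a (T.a (T.l 0) (T.l 0)) (T.a (T.l 0) (T.l 0))) (T.a (T.a (T.l 0) (T.l 0)) (T.a (T.l 0) (T.l 0))))) (T.a (T.c (T.a (T.l 0) (T.a (T.l 0) (T.l 0))) (T.a (T.l 0) (T.l 0))) (T.c (T.a (T.a (T.l 0) (T.l 0)) (T.a (T.l 0) (T.l 0))) (T.a (T.a (T.l 0) (T.l 0)) (T.a (T.l 0) (T.l 0)))))) (T.c (T.a (T.a (T.c (T.c (T.l 0) (T.l 0)) (T.c (T.l 0) (T.l 0))) (T.c (T.a (T.c (T.l 0) (T.l 0)) (T.c (T.l 0) (T.l 0))) (T.a (T.c (T.l 0) (T.l 0)) (T.c (T.l 0) (T.l 0))))) (T.a (T.c (T.a (T.c (T.l 0) (T.l 0)) (T.c (T.l 0) (T.l 0))) (T.a (T.c (T.l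 0) (T.l 0)) (T.c (T.l 0) (T.l 0)))) (T.c (T.a (T.c (T.l 0) (T.l 0)) (T.c (T.a (T.l 0) (T.l 0)) (T.l 0))) (T.a (T.c (T.l 0) (T.l 0)) (T.c (T.l 0) (T.l 0)))))) (T.a (T.a (T.c (T.a (T.l 0) (T.l 0)) (T.a (T.l 0) (T.l 0))) (T.c (T.a (T.c (T.l 0) (T.l 0)) (T.c (T.l 0) (T.l 0))) (T.a (T.c (T.l 0) (T.l 0)) (T.c (T.l 0) (T.l 0))))) (T.a (T.c (T.a (T.c (T.l 0) (T.l 0)) (T.c (T.l 0) (T.l 0))) (T.a (T.c (T.l 0) (T.l 0)) (T.c (T.l 0) (T.l 0)))) (T.c (T.a (T.c (T.l 0) (T.l 0)) (T.c (T.l 0) (T.l 0))) (T.a (T.c (T.l 0) (T.l 0)) (T.c (T.l 0) (T.l 0))))))))),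
      by decide +kernel⟩
theorem cF_w00b : CertNd 82678120 454192792 50331648 16777216 (ftWall true 0 mZ 1 1) [] ndF0q0 cZ :=
  certNd (T := (ftWall true 0 mZ 1 1)) (L := []) (P1 := 82678120) (W1 := 454192792) (P3 := 50331648) (W3 := 16777216) (n := ndF0q0) (c := cZ)
    ⟨T.a (T.a (T.a (T.a (T.a (T.c (T.l 0) (T.l 0)) (T.l 0)) (T.l 0)) (T.l 0)) (T.l 0)) (T.l 0),
      by decide +kernel⟩
theorem cF_w01b : CertNd 536870912 530428462 50331648 16777216 (ftWall true 1 mZ 1 1) [] ndF0q1 cZ :=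
  certNd (T := (ftWall true 1 mZ 1 1)) (L := []) (P1 := 536870912) (W1 := 530428462) (P3 := 50331648) (W3 := 16777216) (n := ndF0q1) (c := cZ)
    ⟨T.a (T.l 0) (T.a (T.l 0) (T.a (T.l 0) (T.a (T.a (T.l 0) (T.l 0)) (T.l 0)))),
      by decide +kernel⟩
theorem cF_g01 : CertGe 1067299374 6442450 50331648 16777216 true [] (((2 : ℕ) : ℝ) / ((1 : ℕ) : ℝ)) 1 ((1 : ℕ) : ℝ)
    (((1 : ℕ) : ℝ) / 2) mZ ndF0q1 cZ :=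
  certGe (z := true) (L := []) (P1 := 1067299374) (W1 := 6442450) (P3 := 50331648) (W3 := 16777216) (oa := 2) (ob := 1)
    (q := 1) (bb := 1) (hB := 1) (M := mZ) (n := ndF0q1) (c := cZ) (sX := c1g_fs) (sK := kf0q1_fs)
    (sL := l0q1_fs) ⟨T.l 0,
      by decide +kernel⟩
theorem cF_tl : CertTg 35433480 47244640 50331648 16777216 (ftTf true dlg) [⟨6, 0⟩] :=
  certTg (T := (ftTf true dlg)) (L := [⟨6, 0⟩]) (P1 := 35433480) (W1 := 47244640) (P3 := 50331648) (W3 := 16777216)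
    ⟨T.a (T.a (T.c (T.a (T.l 0) (T.l 0)) (T.c (T.l 0) (T.l 0))) (T.c (T.l 0) (T.l 0))) (T.a (T.c (T.l 0) (T.l 0)) (T.l 0)),
      by decide +kernel⟩
theorem cF_th : CertTg 35433480 47244640 50331648 16777216 (ftTf false dlg) [⟨5, 0⟩] :=
  certTg (T := (ftTf false dlg)) (L := [⟨5, 0⟩]) (P1 := 35433480) (W1 := 47244640) (P3 := 50331648) (W3 := 16777216)
    ⟨T.l 0,
      by decide +kernel⟩
theorem cF_m10 : CertNd 0 15032385 50331648 16777216 (ftMono true 0 mZ) [] ndF1q0 cZ :=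
  certNd (T := (ftMono true 0 mZ)) (L := []) (P1 := 0) (W1 := 15032385) (P3 := 50331648) (W3 := 16777216) (n := ndF1q0) (c := cZ)
    ⟨T.c (T.l 0) (T.l 0),
      by decide +kernel⟩
theorem cF_g10 : CertGe 0 15032385 50331648 16777216 true [] (((2 : ℕ) : ℝ) / ((1 : ℕ) : ℝ)) 0 ((0 : ℕ) : ℝ)
    (((2 : ℕ) : ℝ) / 2) mZ ndF1q0 cZ :=
  certGe (z := true) (L := []) (P1 := 0) (W1 := 15032385) (P3 := 50331648) (W3 := 16777216) (oa := 2) (ob := 1)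
    (q := 0) (bb := 0) (hB := 2) (M := mZ) (n := ndF1q0) (c := cZ) (sX := cv1m_fs) (sK := kf1q0_fs)
    (sL := l1q0_fs) ⟨T.l 0,
      by decide +kernel⟩
theorem cF_w10 : CertNd 15032385 521838527 50331648 16777216 (ftWallC true 0 mZ 1 1 1 16) [] ndF1q0 cZ :=
  certNd (T := (ftWallC true 0 mZ 1 1 1 16)) (L := []) (P1 := 15032385) (W1 := 521838527) (P3 := 50331648) (W3 := 16777216) (n := ndF1q0) (c := cZ)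
    ⟨T.a (T.a (T.a (T.a (T.l 0) (T.c (T.l 0) (T.l 0))) (T.l 0)) (T.l 0)) (T.l 0),
      by decide +kernel⟩
theorem cF_w11 : CertNd 536870912 536870912 50331648 16777216 (ftWall true 1 mZ 1 1) [] ndF1q1 cZ :=
  certNd (T := (ftWall true 1 mZ 1 1)) (L := []) (P1 := 536870912) (W1 := 536870912) (P3 := 50331648) (W3 := 16777216) (n := ndF1q1) (c := cZ)
    ⟨T.a (T.l 0) (T.a (T.l 0) (T.a (T.l 0) (T.l 0))),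
      by decide +kernel⟩
theorem cF_m20 : CertNd 0 15032385 50331648 16777216 (ftMono true 0 mZ) [] ndF2q0 cZ :=
  certNd (T := (ftMono true 0 mZ)) (L := []) (P1 := 0) (W1 := 15032385) (P3 := 50331648) (W3 := 16777216) (n := ndF2q0) (c := cZ)
    ⟨T.c (T.l 0) (T.l 0),
      by decide +kernel⟩
theorem cF_g20 : CertGe 0 15032385 50331648 16777216 true [] (((2 : ℕ) : ℝ) / ((1 : ℕ) : ℝ)) 0 ((0 : ℕ) : ℝ)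
    (((2 : ℕ) : ℝ) / 2) mZ ndF2q0 cZ :=
  certGe (z := true) (L := []) (P1 := 0) (W1 := 15032385) (P3 := 50331648) (W3 := 16777216) (oa := 2) (ob := 1)
    (q := 0) (bb := 0) (hB := 2) (M := mZ) (n := ndF2q0) (c := cZ) (sX := cv2m_fs) (sK := kf2q0_fs)
    (sL := l2q0_fs) ⟨T.l 0,
      by decide +kernel⟩
theorem cF_w20 : CertNd 15032385 521838527 50331648 16777216 (ftWallC true 0 mZ 1 1 1 16) [] ndF2q0 cZ :=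
  certNd (T := (ftWallC true 0 mZ 1 1 1 16)) (L := []) (P1 := 15032385) (W1 := 521838527) (P3 := 50331648) (W3 := 16777216) (n := ndF2q0) (c := cZ)
    ⟨T.a (T.a (T.a (T.a (T.l 0) (T.l 0)) (T.l 0)) (T.l 0)) (T.l 0),
      by decide +kernel⟩
theorem cF_w21 : CertNd 536870912 536870912 50331648 16777216 (ftWall true 1 mZ 1 1) [] ndF2q1 cZ :=
  certNd (T := (ftWall true 1 mZ 1 1)) (L := []) (P1 := 536870912) (W1 := 536870912) (P3 := 50331648) (W3 := 16777216) (n := ndF2q1) (c := cZ)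
    ⟨T.a (T.l 0) (T.a (T.l 0) (T.a (T.l 0) (T.a (T.l 0) (T.a (T.l 0) (T.l 0))))),
      by decide +kernel⟩
theorem cF_w30 : CertNd 0 536870912 50331648 16777216 (ftWallC true 0 mZ 1 1 1 16) [] ndF3q0 cZ :=
  certNd (T := (ftWallC true 0 mZ 1 1 1 16)) (L := []) (P1 := 0) (W1 := 536870912) (P3 := 50331648) (W3 := 16777216) (n := ndF3q0) (c := cZ)
    ⟨T.a (T.a (T.a (T.a (T.l 0) (T.l 0)) (T.l 0)) (T.l 0)) (T.l 0),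
      by decide +kernel⟩
theorem cF_w31 : CertNd 536870912 536870912 50331648 16777216 (ftWall true 1 mZ 1 1) [] ndF3q1 cZ :=
  certNd (T := (ftWall true 1 mZ 1 1)) (L := []) (P1 := 536870912) (W1 := 536870912) (P3 := 50331648) (W3 := 16777216) (n := ndF3q1) (c := cZ)
    ⟨T.a (T.l 0) (T.a (T.l 0) (T.a (T.l 0) (T.l 0))),
      by decide +kernel⟩
theorem cF_w32 : CertNd 1073741824 166215235 50331648 16777216 (ftWall true 2 mZ 1 1) [⟨4, 0⟩] ndF3q2 cZ :=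
  certNd (T := (ftWall true 2 mZ 1 1)) (L := [⟨4, 0⟩]) (P1 := 1073741824) (W1 := 166215235) (P3 := 50331648) (W3 := 16777216) (n := ndF3q2) (c := cZ)
    ⟨T.a (T.a (T.l 0) (T.l 0)) (T.l 0),
      by decide +kernel⟩
theorem cF_w40 : CertNd 0 536870912 50331648 16777216 (ftWallC true 0 mZ 1 1 1 16) [] ndF4q0 cZ :=
  certNd (T := (ftWallC true 0 mZ 1 1 1 16)) (L := []) (P1 := 0) (W1 := 536870912) (P3 := 50331648) (W3 := 16777216) (n := ndF4q0) (c := cZ)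
    ⟨T.a (T.a (T.a (T.a (T.l 0) (T.l 0)) (T.l 0)) (T.l 0)) (T.l 0),
      by decide +kernel⟩
theorem cF_w41 : CertNd 536870912 536870912 50331648 16777216 (ftWall true 1 mZ 1 1) [] ndF4q1 cZ :=
  certNd (T := (ftWall true 1 mZ 1 1)) (L := []) (P1 := 536870912) (W1 := 536870912) (P3 := 50331648) (W3 := 16777216) (n := ndF4q1) (c := cZ)
    ⟨T.a (T.l 0) (T.a (T.l 0) (T.a (T.l 0) (T.l 0))),
      by decide +kernel⟩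
theorem cF_w42 : CertNd 1073741824 166215235 50331648 16777216 (ftWall true 2 mZ 1 1) [⟨4, 0⟩] ndF4q2 cZ :=
  certNd (T := (ftWall true 2 mZ 1 1)) (L := [⟨4, 0⟩]) (P1 := 1073741824) (W1 := 166215235) (P3 := 50331648) (W3 := 16777216) (n := ndF4q2) (c := cZ)
    ⟨T.a (T.a (T.l 0) (T.l 0)) (T.l 0),
      by decide +kernel⟩
theorem cF_st : CertSt 1073741824 15032385 50331648 16777216 true [] (((2 : ℕ) : ℝ) / ((1 : ℕ) : ℝ)) mZ ndF2q2 cZ ndF3q2 cZ :=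
  certSt (z := true) (L := []) (P1 := 1073741824) (W1 := 15032385) (P3 := 50331648) (W3 := 16777216) (oa := 2) (ob := 1)
    (M := mZ) (n := ndF2q2) (c := cZ) (n' := ndF3q2) (c' := cZ) (sX := cv2p_fs) (sK := kf2q2_fs) (sL := l2q2_fs)
    ⟨T.l 0,
      by decide +kernel⟩
theorem cF_sm : CertSd 513662869 23208043 50331648 16777216 (ftMono true 2 mZ) [] ygF xsF pcF2 dZ :=
  certSd (T := (ftMono true 2 mZ)) (L := []) (P1 := 513662869) (W1 := 23208043) (P3 := 50331648) (W3 := 16777216) (Y := ygF) (X := xsF)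
    (pc := pcF2) (c := dZ) ⟨T.c (T.l 0) (T.l 0),
      by decide +kernel⟩
theorem cF_sw : CertSd 0 513662873 50331648 16777216 (ftWall true 2 mZ 1 1) [] ygF xsF pcF2 dZ :=
  certSd (T := (ftWall true 2 mZ 1 1)) (L := []) (P1 := 0) (W1 := 513662873) (P3 := 50331648) (W3 := 16777216) (Y := ygF) (X := xsF)
    (pc := pcF2) (c := dZ) ⟨T.a (T.l 0) (T.a (T.l 0) (T.a (T.a (T.l 0) (T.l 0)) (T.a (T.c (T.l 0) (T.l 0)) (T.a (T.l 0) (T.l 0))))),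
      by decide +kernel⟩

end Pool.Agent.Strip051.G.I3_64_1_16.Tab
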