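import Pool.Agent.Strip051.PB.FlAsm
import Pool.Agent.Strip051.G.I3_64_1_16.Tab

/-! # Slopes (generated) -/

set_option linter.all false

namespace Pool.Agent.Strip051.G.I3_64_1_16.Tab

open Pool.Agent.Strip051.PB

attribute [local irreducible] padd psub pneg pmul psq pinv psqrt psqrtg pabs pps pmax pmin pphi
  plam pcase phf pnat prat pscale pnorm pdc pnc pone ppos pnn

noncomputable def c1g_fs : Sl1 c1g := ⟨_, fun h1 => (pr_sqrtg (pr_csub (enc_pnc _ 1) (pr_scale 3 4 (pr_sq h1))))⟩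
noncomputable def kcg_6_fs : Sl2 kcg_6 := ⟨_, fun h1 h2 => (pr_addc h1 (enc_rat _ 41 100))⟩
noncomputable def kcg_9_fs : Sl2 kcg_9 := ⟨_, fun h1 h2 => (pr_addc h1 (enc_rat _ 661 1387))⟩
noncomputable def kcg_12_fs : Sl2 kcg_12 := ⟨_, fun h1 h2 => (pr_addc h1 (enc_rat _ 49 100))⟩
noncomputable def kcg_13_fs : Sl2 kcg_13 := ⟨_, fun h1 h2 => (pr_scale 890359 1000000 h1)⟩
noncomputable def kcg_18_fs : Sl2 kcg_18 := ⟨_, fun h1 h2 => (pr_scale 51293 100000 h1)⟩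
noncomputable def kcg_38_fs : Sl2 kcg_38 := ⟨_, fun h1 h2 => (pr_scale 207632513 232875000 h1)⟩
noncomputable def kcg_43_fs : Sl2 kcg_43 := ⟨_, fun h1 h2 => (pr_scale 26132467 62100000 h1)⟩
noncomputable def kcg_63_fs : Sl2 kcg_63 := ⟨_, fun h1 h2 => (pr_addc h1 (enc_rat _ 23 50))⟩
noncomputable def kcg_64_fs : Sl2 kcg_64 := ⟨_, fun h1 h2 => (pr_scale 2054742023 2298000000 h1)⟩
noncomputable def kcg_69_fs : Sl2 kcg_69 := ⟨_, fun h1 h2 => (pr_scale 20606659 76600000 h1)⟩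
noncomputable def kcg_88_fs : Sl2 kcg_88 := ⟨_, fun h1 h2 => (pr_addc h1 (enc_rat _ 191 434))⟩
noncomputable def kcg_89_fs : Sl2 kcg_89 := ⟨_, fun h1 h2 => (pr_scale 38757719 43200000 h1)⟩
noncomputable def kcg_94_fs : Sl2 kcg_94 := ⟨_, fun h1 h2 => (pr_scale 2959229 21600000 h1)⟩
noncomputable def kcg_111_fs : Sl2 kcg_111 := ⟨_, fun h1 h2 => (pr_scale 2936227 3265000 h1)⟩
noncomputable def kcg_116_fs : Sl2 kcg_116 := ⟨_, fun h1 h2 => (pr_scale 313131 8162500 h1)⟩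
noncomputable def kcg_138_fs : Sl2 kcg_138 := ⟨_, fun h1 h2 => (pr_addc h1 (enc_rat _ 1 4))⟩
noncomputable def kcg_141_fs : Sl2 kcg_141 := ⟨_, fun h1 h2 => (pr_addc h1 (enc_rat _ 7 20))⟩
noncomputable def kcg_142_fs : Sl2 kcg_142 := ⟨_, fun h1 h2 => (pr_scale 5396893 6000000 h1)⟩
noncomputable def kcg_147_fs : Sl2 kcg_147 := ⟨_, fun h1 h2 => (pr_scale 1067 24000 h1)⟩
noncomputable def kcg_164_fs : Sl2 kcg_164 := ⟨_, fun h1 h2 => (pr_scale 448109 500000 h1)⟩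
noncomputable def kcg_169_fs : Sl2 kcg_169 := ⟨_, fun h1 h2 => (pr_scale 12279 125000 h1)⟩
noncomputable def kcg_188_fs : Sl2 kcg_188 := ⟨_, fun h1 h2 => (pr_addc h1 (enc_rat _ 3 20))⟩
noncomputable def kcg_189_fs : Sl2 kcg_189 := ⟨_, fun h1 h2 => (pr_scale 442261 500000 h1)⟩
noncomputable def kcg_194_fs : Sl2 kcg_194 := ⟨_, fun h1 h2 => (pr_scale 99693 1000000 h1)⟩
noncomputable def kcg_211_fs : Sl2 kcg_211 := ⟨_, fun h1 h2 => (pr_scale 1266763 2250000 h1)⟩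
noncomputable def kcg_216_fs : Sl2 kcg_216 := ⟨_, fun h1 h2 => (pr_scale 38191 900000 h1)⟩
noncomputable def kcg_230_fs : Sl2 kcg_230 := ⟨_, fun h1 h2 => (pr_scale 500819 2000000 h1)⟩
noncomputable def kcg_238_fs : Sl2 kcg_238 := ⟨_, fun h1 h2 => (pr_csub (enc_rat _ 41 100) h1)⟩
noncomputable def kcg_239_fs : Sl2 kcg_239 := ⟨_, fun h1 h2 => (pr_csub (enc_rat _ 661 1387) h1)⟩
noncomputable def kcg_240_fs : Sl2 kcg_240 := ⟨_, fun h1 h2 => (pr_csub (enc_rat _ 49 100) h1)⟩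
noncomputable def kcg_259_fs : Sl2 kcg_259 := ⟨_, fun h1 h2 => (pr_csub (enc_rat _ 23 50) h1)⟩
noncomputable def kcg_268_fs : Sl2 kcg_268 := ⟨_, fun h1 h2 => (pr_csub (enc_rat _ 191 434) h1)⟩
noncomputable def kcg_288_fs : Sl2 kcg_288 := ⟨_, fun h1 h2 => (pr_csub (enc_rat _ 1 4) h1)⟩
noncomputable def kcg_289_fs : Sl2 kcg_289 := ⟨_, fun h1 h2 => (pr_csub (enc_rat _ 7 20) h1)⟩
noncomputable def kcg_309_fs : Sl2 kcg_309 := ⟨_, fun h1 h2 => (pr_csub (enc_rat _ 3 20) h1)⟩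
noncomputable def kcg_fs : Sl2 kcg := ⟨_, fun h1 h2 => (pr_norm (pr_case h1 (pr_case (kcg_6_fs.snd h1 h2) (pr_case (kcg_9_fs.snd h1 h2) (pr_case (kcg_12_fs.snd h1 h2) (pr_add (pr_add (pr_subr 3341249 50000000 (pr_neg (kcg_13_fs.snd h1 h2))) (pr_cmul (enc_norm (kcg_3.enc h1.l h2)) (pr_norm (pr_subr 659059 2500000 (pr_neg (kcg_18_fs.snd h1 h2)))))) (pr_cmul (enc_norm (kcg_30.enc h1.l h2)) (pr_norm (pr_mul (pr_norm (pr_addc h1 (enc_rat _ 1 2))) (pr_norm (pr_csub (enc_neg (enc_rat _ 49 100)) h1)))))) (pr_add (pr_add (pr_subr 12563236837 186300000000 (pr_neg (kcg_38_fs.snd h1 h2))) (pr_cmul (enc_norm (kcg_3.enc h1.l h2)) (pr_norm (pr_subr 678399371 3105000000 (pr_neg (kcg_43_fs.snd h1 h2)))))) (pr_cmul (enc_norm (kcg_55.enc h1.l h2)) (pr_norm (pr_mul (pr_norm (kcg_12_fs.snd h1 h2)) (pr_norm (pr_csub (enc_neg (enc_rat _ 661 1387)) h1))))))) (pr_case (kcg_63_fs.snd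 h1 h2) (pr_add (pr_add (pr_subr 7887349801 114900000000 (pr_neg (kcg_64_fs.snd h1 h2))) (pr_cmul (enc_norm (kcg_3.enc h1.l h2)) (pr_norm (pr_subr 17491713 119687500 (pr_neg (kcg_69_fs.snd h1 h2)))))) (pr_cmul (enc_norm (kcg_81.enc h1.l h2)) (pr_norm (pr_mul (pr_norm (kcg_9_fs.snd h1 h2)) (pr_norm (pr_csub (enc_neg (enc_rat _ 23 50)) h1)))))) (pr_case (kcg_88_fs.snd h1 h2) (pr_add (pr_add (pr_subr 756401909 10800000000 (pr_neg (kcg_89_fs.snd h1 h2))) (pr_cmul (enc_norm (kcg_3.enc h1.l h2)) (pr_norm (pr_subr 92251351 1080000000 (pr_neg (kcg_94_fs.snd h1 h2)))))) (pr_cmul (enc_norm (kcg_106.enc h1.l h2)) (pr_norm (pr_mul (pr_norm (kcg_63_fs.snd h1 h2)) (pr_norm (pr_csub (enc_neg (enc_rat _ 191 434)) h1)))))) (pr_add (pr_add (pr_subr 2317384347 32650000000 (pr_neg (kcg_111_fs.snd h1 h2))) (pr_cmul (enc_norm (kcg_3.enc h1.l h2)) (pr_norm (pr_subr 274309491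 6530000000 (pr_neg (kcg_116_fs.snd h1 h2)))))) (pr_cmul (enc_norm (kcg_128.enc h1.l h2)) (pr_norm (pr_mul (pr_norm (kcg_88_fs.snd h1 h2)) (pr_norm (pr_csub (enc_neg (enc_rat _ 41 100)) h1))))))))) (pr_case (kcg_138_fs.snd h1 h2) (pr_case (kcg_141_fs.snd h1 h2) (pr_add (pr_add (pr_subr 42629801 600000000 (pr_neg (kcg_142_fs.snd h1 h2))) (pr_cmul (enc_norm (kcg_3.enc h1.l h2)) (pr_norm (pr_subr 483071 60000000 (kcg_147_fs.snd h1 h2))))) (pr_cmul (enc_norm (kcg_159.enc h1.l h2)) (pr_norm (pr_mul (pr_norm (kcg_6_fs.snd h1 h2)) (pr_norm (pr_csub (enc_neg (enc_rat _ 7 20)) h1)))))) (pr_add (pr_add (pr_subr 6990721 100000000 (pr_neg (kcg_164_fs.snd h1 h2))) (pr_cmul (enc_norm (kcg_3.enc h1.l h2)) (pr_norm (pr_addc (kcg_169_fs.snd h1 h2) (enc_rat _ 6731 625000))))) (pr_cmul (enc_norm (kcg_180.enc h1.l h2)) (pr_norm (pr_mul (pr_norm (kcg_141_fs.snd h1 h2)) (pr_norm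 (pr_csub (enc_neg (enc_rat _ 1 4)) h1))))))) (pr_case (kcg_188_fs.snd h1 h2) (pr_add (pr_add (pr_subr 6698321 100000000 (pr_neg (kcg_189_fs.snd h1 h2))) (pr_cmul (enc_norm (kcg_3.enc h1.l h2)) (pr_norm (pr_addc (kcg_194_fs.snd h1 h2) (enc_rat _ 222697 20000000))))) (pr_cmul (enc_norm (kcg_203.enc h1.l h2)) (pr_norm (pr_mul (pr_norm (kcg_138_fs.snd h1 h2)) (pr_norm (pr_csub (enc_neg (enc_rat _ 3 20)) h1)))))) (pr_case (pr_addc h1 (enc_rat _ 3 50)) (pr_add (pr_add (pr_subr 5626733 300000000 (pr_neg (kcg_211_fs.snd h1 h2))) (pr_cmul (enc_norm (kcg_3.enc h1.l h2)) (pr_norm (pr_addc (kcg_216_fs.snd h1 h2) (enc_rat _ 38191 15000000))))) (pr_cmul (enc_norm (kcg_225.enc h1.l h2)) (pr_norm (pr_mul (pr_norm (kcg_188_fs.snd h1 h2)) (pr_norm (pr_csub (enc_neg (enc_rat _ 3 50)) h1)))))) (pr_neg (kcg_230_fs.snd h1 h2)))))) (pr_neg (pr_case (kcg_238_fs.snd h1 h2) (pr_case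 (kcg_239_fs.snd h1 h2) (pr_case (kcg_240_fs.snd h1 h2) (pr_add (pr_add (pr_subr 3341249 50000000 (kcg_13_fs.snd h1 h2)) (pr_cmul (enc_norm (kcg_3.enc h1.l h2)) (pr_norm (pr_subr 659059 2500000 (kcg_18_fs.snd h1 h2))))) (pr_cmul (enc_norm (kcg_30.enc h1.l h2)) (pr_norm (pr_mul (pr_norm (pr_csub (enc_rat _ 1 2) h1)) (pr_norm (pr_subr 49 100 h1)))))) (pr_add (pr_add (pr_subr 12563236837 186300000000 (kcg_38_fs.snd h1 h2)) (pr_cmul (enc_norm (kcg_3.enc h1.l h2)) (pr_norm (pr_subr 678399371 3105000000 (kcg_43_fs.snd h1 h2))))) (pr_cmul (enc_norm (kcg_55.enc h1.l h2)) (pr_norm (pr_mul (pr_norm (kcg_240_fs.snd h1 h2)) (pr_norm (pr_subr 661 1387 h1))))))) (pr_case (kcg_259_fs.snd h1 h2) (pr_add (pr_add (pr_subr 7887349801 114900000000 (kcg_64_fs.snd h1 h2)) (pr_cmul (enc_norm (kcg_3.enc h1.l h2)) (pr_norm (pr_subr 17491713 119687500 (kcg_69_fs.snd h1 h2)))))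 (pr_cmul (enc_norm (kcg_81.enc h1.l h2)) (pr_norm (pr_mul (pr_norm (kcg_239_fs.snd h1 h2)) (pr_norm (pr_subr 23 50 h1)))))) (pr_case (kcg_268_fs.snd h1 h2) (pr_add (pr_add (pr_subr 756401909 10800000000 (kcg_89_fs.snd h1 h2)) (pr_cmul (enc_norm (kcg_3.enc h1.l h2)) (pr_norm (pr_subr 92251351 1080000000 (kcg_94_fs.snd h1 h2))))) (pr_cmul (enc_norm (kcg_106.enc h1.l h2)) (pr_norm (pr_mul (pr_norm (kcg_259_fs.snd h1 h2)) (pr_norm (pr_subr 191 434 h1)))))) (pr_add (pr_add (pr_subr 2317384347 32650000000 (kcg_111_fs.snd h1 h2)) (pr_cmul (enc_norm (kcg_3.enc h1.l h2)) (pr_norm (pr_subr 274309491 6530000000 (kcg_116_fs.snd h1 h2))))) (pr_cmul (enc_norm (kcg_128.enc h1.l h2)) (pr_norm (pr_mul (pr_norm (kcg_268_fs.snd h1 h2)) (pr_norm (pr_subr 41 100 h1))))))))) (pr_case (kcg_288_fs.snd h1 h2) (pr_case (kcg_289_fs.snd h1 h2) (pr_add (pr_add (pr_subr 42629801 600000000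 (kcg_142_fs.snd h1 h2)) (pr_cmul (enc_norm (kcg_3.enc h1.l h2)) (pr_norm (pr_subr 483071 60000000 (pr_neg (kcg_147_fs.snd h1 h2)))))) (pr_cmul (enc_norm (kcg_159.enc h1.l h2)) (pr_norm (pr_mul (pr_norm (kcg_238_fs.snd h1 h2)) (pr_norm (pr_subr 7 20 h1)))))) (pr_add (pr_add (pr_subr 6990721 100000000 (kcg_164_fs.snd h1 h2)) (pr_cmul (enc_norm (kcg_3.enc h1.l h2)) (pr_norm (pr_csub (enc_rat _ 6731 625000) (kcg_169_fs.snd h1 h2))))) (pr_cmul (enc_norm (kcg_180.enc h1.l h2)) (pr_norm (pr_mul (pr_norm (kcg_289_fs.snd h1 h2)) (pr_norm (pr_subr 1 4 h1))))))) (pr_case (kcg_309_fs.snd h1 h2) (pr_add (pr_add (pr_subr 6698321 100000000 (kcg_189_fs.snd h1 h2)) (pr_cmul (enc_norm (kcg_3.enc h1.l h2)) (pr_norm (pr_csub (enc_rat _ 222697 20000000) (kcg_194_fs.snd h1 h2))))) (pr_cmul (enc_norm (kcg_203.enc h1.l h2)) (pr_norm (pr_mul (pr_norm (kcg_288_fs.snd h1 h2)) (pr_norm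 (pr_subr 3 20 h1)))))) (pr_case (pr_csub (enc_rat _ 3 50) h1) (pr_add (pr_add (pr_subr 5626733 300000000 (kcg_211_fs.snd h1 h2)) (pr_cmul (enc_norm (kcg_3.enc h1.l h2)) (pr_norm (pr_csub (enc_rat _ 38191 15000000) (kcg_216_fs.snd h1 h2))))) (pr_cmul (enc_norm (kcg_225.enc h1.l h2)) (pr_norm (pr_mul (pr_norm (kcg_309_fs.snd h1 h2)) (pr_norm (pr_subr 3 50 h1)))))) (kcg_230_fs.snd h1 h2))))))))⟩
noncomputable def kf0q0_9_fs : Sl2 kf0q0_9 := ⟨_, fun h1 h2 => (pr_scale 3 2 h1)⟩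
noncomputable def kf0q0_12_fs : Sl2 kf0q0_12 := ⟨_, fun h1 h2 => (pr_cadd (enc_pnc _ 1) (c1g_fs.snd h1))⟩
noncomputable def kf0q0_fs : Sl2 kf0q0 := ⟨_, fun h1 h2 => (pr_norm (pr_add (pr_mul (pr_norm (pr_mul (pr_norm (pr_sub (c1g_fs.snd h1) (kf0q0_9_fs.snd h1 h2))) (pr_norm (kf0q0_12_fs.snd h1 h2)))) (pr_nd (pr_inv (pr_sub (kf0q0_12_fs.snd h1 h2) (kf0q0_9_fs.snd h1 h2))))) (pr_mul h1 (kcg_fs.snd (pr_norm (pr_sub (pr_scale 3 4 h1) (pr_half (c1g_fs.snd h1)))) h2))))⟩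
noncomputable def txg_6_fs : Sl3 txg_6 := ⟨_, fun h1 h2 h3 => (pr_add h1 (pr_half h2))⟩
noncomputable def txg_27_fs : Sl3 txg_27 := ⟨_, fun h1 h2 h3 => (pr_addc h1 (enc_rat _ 479 1000))⟩
noncomputable def txg_77_fs : Sl3 txg_77 := ⟨_, fun h1 h2 h3 => (pr_addc h1 (enc_rat _ 191 434))⟩
noncomputable def txg_80_fs : Sl3 txg_80 := ⟨_, fun h1 h2 h3 => (pr_addc h1 (enc_rat _ 3 50))⟩
noncomputable def txg_83_fs : Sl3 txg_83 := ⟨_, fun h1 h2 h3 => (pr_addc h1 (enc_rat _ 3 10))⟩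
noncomputable def txg_86_fs : Sl3 txg_86 := ⟨_, fun h1 h2 h3 => (pr_addc h1 (enc_rat _ 41 100))⟩
noncomputable def txg_113_fs : Sl3 txg_113 := ⟨_, fun h1 h2 h3 => (pr_addc h1 (enc_rat _ 9 25))⟩
noncomputable def txg_157_fs : Sl3 txg_157 := ⟨_, fun h1 h2 h3 => (pr_addc h1 (enc_rat _ 9 50))⟩
noncomputable def txg_160_fs : Sl3 txg_160 := ⟨_, fun h1 h2 h3 => (pr_addc h1 (enc_rat _ 6 25))⟩
noncomputable def txg_198_fs : Sl3 txg_198 := ⟨_, fun h1 h2 h3 => (pr_addc h1 (enc_rat _ 3 25))⟩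
noncomputable def txg_234_fs : Sl3 txg_234 := ⟨_, fun h1 h2 h3 => (pr_subr 6 25 h1)⟩
noncomputable def txg_235_fs : Sl3 txg_235 := ⟨_, fun h1 h2 h3 => (pr_subr 3 25 h1)⟩
noncomputable def txg_236_fs : Sl3 txg_236 := ⟨_, fun h1 h2 h3 => (pr_subr 3 50 h1)⟩
noncomputable def txg_275_fs : Sl3 txg_275 := ⟨_, fun h1 h2 h3 => (pr_subr 9 50 h1)⟩
noncomputable def txg_314_fs : Sl3 txg_314 := ⟨_, fun h1 h2 h3 => (pr_subr 9 25 h1)⟩
noncomputable def txg_315_fs : Sl3 txg_315 := ⟨_, fun h1 h2 h3 => (pr_subr 3 10 h1)⟩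
noncomputable def txg_353_fs : Sl3 txg_353 := ⟨_, fun h1 h2 h3 => (pr_subr 43 100 h1)⟩
noncomputable def txg_fs : Sl3 txg := ⟨_, fun h1 h2 h3 => (pr_case (pr_addc h1 (enc_rat _ 661 1387)) (pr_case (txg_27_fs.snd h1 h2 h3) (pr_add (pr_add (pr_addc (pr_scale 4591 175000 h1) (enc_rat _ 4591 350000)) (pr_cmul (enc_norm (txg_4.enc h1.l h2.l h3)) (pr_norm (pr_addc (pr_scale 6031 13125 h1) (enc_rat _ 6031 26250))))) (pr_cmul (enc_norm (enc_subr 1476373 20000000 (enc_neg (enc_scale 18076397 5000000 (txg_4.enc h1.l h2.l h3))))) (pr_norm (pr_mul (pr_norm (pr_addc h1 (enc_rat _ 1 2))) (pr_norm (pr_csub (enc_neg (enc_rat _ 479 1000)) h1)))))) (pr_add (pr_add (pr_add (pr_addc (pr_scale 808889043933 29941446400000 h1) (enc_rat _ 80790638738919 5988289280000000)) (pr_cmul (enc_norm (txg_4.enc h1.l h2.l h3)) (pr_norm (pr_addc (pr_scale 3577591390199 7485361600000 h1)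 (enc_rat _ 1785897021200681 7485361600000000))))) (pr_cmul (txg_63.enc h1.l h2.l h3) (pr_norm (pr_subr 902302359 8432500000 (pr_neg (pr_scale 1883721 8432500 h1)))))) (pr_cmul (enc_norm (enc_add (enc_scale 29556427 1250000 (txg_4.enc h1.l h2.l h3)) (enc_rat _ 7926567 25000000))) (pr_norm (pr_mul (pr_norm (txg_27_fs.snd h1 h2 h3)) (pr_norm (pr_csub (enc_neg (enc_rat _ 661 1387)) h1))))))) (pr_case (txg_77_fs.snd h1 h2 h3) (pr_sub (pr_mul (pr_norm (pr_csub (enc_pnc _ 1) h2)) (pr_norm (pr_subn 1 (pr_nat 2 h2)))) (pr_mul (pr_norm (pr_nat 2 (pr_subc (pr_scale 4 3 (txg_6_fs.snd h1 h2 h3)) h3))) (pr_norm (pr_mul (pr_norm (pr_subn 1 (pr_add (pr_scale 2 3 (txg_6_fs.snd h1 h2 h3)) h2))) (kcg_fs.snd h1 h3))))) (pr_case (txg_80_fs.snd h1 h2 h3) (pr_case (txg_83_fs.snd h1 h2 h3) (pr_case (txg_86_fs.snd h1 h2 h3) (pr_add (pr_add (pr_add (pr_addc (pr_scale 51223494549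 566804000000 h1) (enc_rat _ 2352196642737 56680400000000)) (pr_cmul (enc_norm (txg_4.enc h1.l h2.l h3)) (pr_norm (pr_subr 3893939633011 56680400000000 (pr_neg (pr_scale 119380164651 566804000000 h1)))))) (pr_cmul (txg_63.enc h1.l h2.l h3) (pr_norm (pr_addc (pr_scale 251247 4081250 h1) (enc_rat _ 10301127 408125000))))) (pr_cmul (enc_norm (enc_subr 35468811 20000000 (enc_scale 171200989 10000000 (txg_4.enc h1.l h2.l h3)))) (pr_norm (pr_mul (pr_norm (txg_77_fs.snd h1 h2 h3)) (pr_norm (pr_csub (enc_neg (enc_rat _ 41 100)) h1)))))) (pr_case (txg_113_fs.snd h1 h2 h3) (pr_add (pr_add (pr_addc (pr_scale 24549 156250 h1) (enc_rat _ 34431573 500000000)) (pr_cmul (enc_norm (txg_4.enc h1.l h2.l h3)) (pr_norm (pr_subr 1148989 12500000 (pr_neg (pr_scale 66813 250000 h1)))))) (pr_cmul (enc_norm (enc_subr 26748587 100000000 (enc_neg (enc_scale 91709497 10000000 (txg_4.enc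 h1.l h2.l h3))))) (pr_norm (pr_mul (pr_norm (txg_86_fs.snd h1 h2 h3)) (pr_norm (pr_csub (enc_neg (enc_rat _ 9 25)) h1)))))) (pr_add (pr_add (pr_addc (pr_scale 511399 3000000 h1) (enc_rat _ 7367013 100000000)) (pr_cmul (enc_norm (txg_4.enc h1.l h2.l h3)) (pr_norm (pr_addc (pr_scale 10169 40000 h1) (enc_rat _ 479063 5000000))))) (pr_cmul (enc_norm (enc_sub (enc_rat _ 143 400000) (enc_scale 52441 50000 (txg_4.enc h1.l h2.l h3)))) (pr_norm (pr_mul (pr_norm (txg_113_fs.snd h1 h2 h3)) (pr_norm (pr_csub (enc_neg (enc_rat _ 3 10)) h1)))))))) (pr_case (txg_157_fs.snd h1 h2 h3) (pr_case (txg_160_fs.snd h1 h2 h3) (pr_add (pr_add (pr_addc (pr_scale 253639 1500000 h1) (enc_rat _ 7325803 100000000)) (pr_cmul (enc_norm (txg_4.enc h1.l h2.l h3)) (pr_norm (pr_addc (pr_scale 8363 25000 h1) (enc_rat _ 1199011 10000000))))) (pr_cmul (enc_norm (enc_sub (enc_rat _ 22539 1000000)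 (enc_scale 57891 200000 (txg_4.enc h1.l h2.l h3)))) (pr_norm (pr_mul (pr_norm (txg_83_fs.snd h1 h2 h3)) (pr_norm (pr_csub (enc_neg (enc_rat _ 6 25)) h1)))))) (pr_add (pr_add (pr_addc (pr_scale 970351 6000000 h1) (enc_rat _ 7148983 100000000)) (pr_cmul (enc_norm (txg_4.enc h1.l h2.l h3)) (pr_norm (pr_addc (pr_scale 195229 600000 h1) (enc_rat _ 1177079 10000000))))) (pr_cmul (enc_norm (enc_add (enc_scale 17671 40000 (txg_4.enc h1.l h2.l h3)) (enc_rat _ 100251 1000000))) (pr_norm (pr_mul (pr_norm (txg_160_fs.snd h1 h2 h3)) (pr_norm (pr_csub (enc_neg (enc_rat _ 9 50)) h1))))))) (pr_case (txg_198_fs.snd h1 h2 h3) (pr_add (pr_add (pr_addc (pr_scale 419677 3000000 h1) (enc_rat _ 844499 12500000)) (pr_cmul (enc_norm (txg_4.enc h1.l h2.l h3)) (pr_norm (pr_addc (pr_scale 9313 40000 h1) (enc_rat _ 1010477 10000000))))) (pr_cmul (enc_norm (enc_add (enc_scale 22017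 20000 (txg_4.enc h1.l h2.l h3)) (enc_rat _ 527259 2000000))) (pr_norm (pr_mul (pr_norm (txg_157_fs.snd h1 h2 h3)) (pr_norm (pr_csub (enc_neg (enc_rat _ 3 25)) h1)))))) (pr_add (pr_add (pr_addc (pr_scale 618019 6000000 h1) (enc_rat _ 3156661 50000000)) (pr_cmul (enc_norm (txg_4.enc h1.l h2.l h3)) (pr_norm (pr_addc (pr_scale 7121 100000 h1) (enc_rat _ 816539 10000000))))) (pr_cmul (enc_norm (enc_add (enc_scale 159271 100000 (txg_4.enc h1.l h2.l h3)) (enc_rat _ 351191 1000000))) (pr_norm (pr_mul (pr_norm (txg_198_fs.snd h1 h2 h3)) (pr_norm (pr_csub (enc_neg (enc_rat _ 3 50)) h1))))))))) (pr_case (txg_234_fs.snd h1 h2 h3) (pr_case (txg_235_fs.snd h1 h2 h3) (pr_case (txg_236_fs.snd h1 h2 h3) (pr_add (pr_add (pr_csub (enc_rat _ 1136709 20000000) (pr_scale 5879 3000000 h1)) (pr_cmul (enc_norm (txg_4.enc h1.l h2.l h3)) (pr_norm (pr_csub (enc_rat _ 1510591 20000000)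 (pr_scale 2469 80000 h1))))) (pr_cmul (enc_norm (enc_add (enc_scale 10851 200000 (txg_4.enc h1.l h2.l h3)) (enc_rat _ 1398189 2000000))) (pr_norm (pr_mul (pr_norm (txg_80_fs.snd h1 h2 h3)) (pr_norm (pr_csub (enc_rat _ 3 50) h1)))))) (pr_add (pr_add (pr_csub (enc_rat _ 3192399 50000000) (pr_scale 713011 6000000 h1)) (pr_cmul (enc_norm (txg_4.enc h1.l h2.l h3)) (pr_norm (pr_addc (pr_scale 3817 150000 h1) (enc_rat _ 72151 1000000))))) (pr_cmul (enc_norm (enc_sub (enc_rat _ 43979 80000) (enc_scale 52351 50000 (txg_4.enc h1.l h2.l h3)))) (pr_norm (pr_mul (pr_norm (txg_236_fs.snd h1 h2 h3)) (pr_norm (pr_csub (enc_rat _ 3 25) h1))))))) (pr_case (txg_275_fs.snd h1 h2 h3) (pr_add (pr_add (pr_csub (enc_rat _ 1715301 25000000) (pr_scale 475607 3000000 h1)) (pr_cmul (enc_norm (txg_4.enc h1.l h2.l h3)) (pr_norm (pr_addc (pr_scale 2123 18750 h1) (enc_rat _ 308087 5000000)))))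 (pr_cmul (enc_norm (enc_sub (enc_rat _ 1749 15625) (enc_scale 10399 25000 (txg_4.enc h1.l h2.l h3)))) (pr_norm (pr_mul (pr_norm (txg_235_fs.snd h1 h2 h3)) (pr_norm (pr_csub (enc_rat _ 9 50) h1)))))) (pr_add (pr_add (pr_csub (enc_rat _ 3509121 50000000) (pr_scale 8363 50000 h1)) (pr_cmul (enc_norm (txg_4.enc h1.l h2.l h3)) (pr_norm (pr_addc (pr_scale 35317 300000 h1) (enc_rat _ 7601 125000))))) (pr_cmul (enc_norm (enc_add (enc_scale 68203 200000 (txg_4.enc h1.l h2.l h3)) (enc_rat _ 33469 1000000))) (pr_norm (pr_mul (pr_norm (txg_275_fs.snd h1 h2 h3)) (pr_norm (pr_csub (enc_rat _ 6 25) h1)))))))) (pr_case (txg_314_fs.snd h1 h2 h3) (pr_case (txg_315_fs.snd h1 h2 h3) (pr_add (pr_add (pr_csub (enc_rat _ 3544989 50000000) (pr_scale 170249 1000000 h1)) (pr_cmul (enc_norm (txg_4.enc h1.l h2.l h3)) (pr_norm (pr_addc (pr_scale 1757 120000 h1) (enc_rat _ 213869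 2500000))))) (pr_cmul (enc_norm (enc_add (enc_scale 68851 50000 (txg_4.enc h1.l h2.l h3)) (enc_rat _ 6539 400000))) (pr_norm (pr_mul (pr_norm (txg_234_fs.snd h1 h2 h3)) (pr_norm (pr_csub (enc_rat _ 3 10) h1)))))) (pr_add (pr_add (pr_csub (enc_rat _ 7125363 100000000) (pr_scale 342857 2000000 h1)) (pr_cmul (enc_norm (txg_4.enc h1.l h2.l h3)) (pr_norm (pr_csub (enc_rat _ 1650601 10000000) (pr_scale 313 1250 h1))))) (pr_cmul (enc_norm (enc_add (enc_scale 608067 200000 (txg_4.enc h1.l h2.l h3)) (enc_rat _ 6627 2000000))) (pr_norm (pr_mul (pr_norm (txg_315_fs.snd h1 h2 h3)) (pr_norm (pr_csub (enc_rat _ 9 25) h1))))))) (pr_case (txg_353_fs.snd h1 h2 h3) (pr_add (pr_add (pr_csub (enc_rat _ 33684291 700000000) (pr_scale 750187 7000000 h1)) (pr_cmul (enc_norm (txg_4.enc h1.l h2.l h3)) (pr_norm (pr_csub (enc_rat _ 3968879 14000000) (pr_scale 405563 700000 h1)))))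 (pr_cmul (enc_norm (enc_subr 920827 1000000 (enc_scale 41873 20000 (txg_4.enc h1.l h2.l h3)))) (pr_norm (pr_mul (pr_norm (txg_314_fs.snd h1 h2 h3)) (pr_norm (pr_csub (enc_rat _ 43 100) h1)))))) (pr_add (pr_add (pr_csub (enc_rat _ 163 11200) (pr_scale 163 5600 h1)) (pr_cmul (enc_norm (txg_4.enc h1.l h2.l h3)) (pr_norm (pr_csub (enc_rat _ 171799 700000) (pr_scale 171799 350000 h1))))) (pr_cmul (enc_norm (enc_subr 3887 20000 (enc_neg (enc_scale 671647 200000 (txg_4.enc h1.l h2.l h3))))) (pr_norm (pr_mul (pr_norm (txg_353_fs.snd h1 h2 h3)) (pr_norm (pr_csub (enc_rat _ 1 2) h1))))))))))))⟩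
noncomputable def l0q0_fs : Sl2 l0q0 := ⟨_, fun h1 h2 => (pr_norm (txg_fs.snd (pr_norm (pr_sub (pr_scale 3 4 h1) (pr_half (c1g_fs.snd h1)))) (pr_nd (c1g_fs.snd h1)) h2))⟩
noncomputable def swg_fs : Sl1 swg := ⟨_, fun h1 => (pr_sqrt (pr_csub (enc_pnc _ 1) (pr_scale 3 4 (pr_sq (pr_norm (pr_subn 1 h1))))))⟩
noncomputable def cv1m_fs : Sl1 cv1m := ⟨_, fun h1 => (pr_norm (pr_add (pr_scale 2 5 (c1g_fs.snd h1)) (pr_scale 3 5 (pr_addc (swg_fs.snd h1) (enc_rat _ 1 2)))))⟩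
noncomputable def bf1q0_11_fs : Sl2 bf1q0_11 := ⟨_, fun h1 h2 => (pr_csub (enc_pnc _ 1) (pr_scale 64933 50000 h1))⟩
noncomputable def bf1q0_fs : Sl2 bf1q0 := ⟨_, fun h1 h2 => (pr_norm (pr_case (pr_subr 1 20 h1) (pr_case (pr_subr 3 200 h1) (pr_sub (bf1q0_11_fs.snd h1 h2) (pr_cmul (enc_norm (bf1q0_3.enc h1.l h2)) (pr_nd (pr_scale 1 200 h1)))) (pr_add (bf1q0_11_fs.snd h1 h2) (pr_cmul (enc_norm (bf1q0_3.enc h1.l h2)) (pr_norm (pr_csub (enc_rat _ 9 7000000) (pr_scale 89 17500 h1)))))) (pr_case (pr_subr 3 25 h1) (pr_add (pr_csub (enc_rat _ 14000003 14000000) (pr_scale 181813 140000 h1)) (pr_cmul (enc_norm (bf1q0_3.enc h1.l h2)) (pr_norm (pr_csub (enc_rat _ 19 7000000) (pr_scale 179 35000 h1))))) (pr_case (pr_subr 1 4 h1) (pr_add (pr_csub (enc_rat _ 130000069 130000000) (pr_scale 1688267 1300000 h1)) (pr_cmul (enc_norm (bf1q0_3.enc h1.l h2)) (pr_norm (pr_csub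 (enc_rat _ 1 520000) (pr_scale 83 16250 h1))))) (pr_add (pr_csub (enc_rat _ 1000001 1000000) (pr_scale 202917 156250 h1)) (pr_cmul (enc_norm (bf1q0_3.enc h1.l h2)) (pr_norm (pr_subr 1 1000000 (pr_neg (pr_scale 637 125000 h1))))))))))⟩
noncomputable def kf1q0_fs : Sl2 kf1q0 := ⟨_, fun h1 h2 => (pr_norm (pr_mul (cv1m_fs.snd h1) (bf1q0_fs.snd h1 h2)))⟩
noncomputable def bx1q0_fs : Sl2 bx1q0 := ⟨_, fun h1 h2 => (pr_norm (pr_case (pr_subr 1 20 h1) (pr_case (pr_subr 3 200 h1) (pr_sub (pr_scale 32629 150000 h1) (pr_cmul (enc_norm (bx1q0_3.enc h1.l h2)) (pr_nd (pr_scale 111 5000 h1)))) (pr_add (pr_subr 1 14000000 (pr_scale 9517 43750 h1)) (pr_cmul (enc_norm (bx1q0_3.enc h1.l h2)) (pr_norm (pr_subr 3 200000 (pr_neg (pr_scale 53 2500 h1))))))) (pr_case (pr_subr 3 25 h1) (pr_add (pr_subr 1 2800000 (pr_scale 38069 175000 h1)) (pr_cmul (enc_norm (bx1q0_3.enc h1.l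 h2)) (pr_norm (pr_subr 37 700000 (pr_neg (pr_scale 1431 70000 h1)))))) (pr_case (pr_subr 1 4 h1) (pr_add (pr_subr 7 130000000 (pr_scale 56559 260000 h1)) (pr_cmul (enc_norm (bx1q0_3.enc h1.l h2)) (pr_norm (pr_subr 677 6500000 (pr_neg (pr_scale 1301 65000 h1)))))) (pr_add (pr_addc (pr_scale 543833 2500000 h1) (enc_rat _ 3 10000000)) (pr_cmul (enc_norm (bx1q0_3.enc h1.l h2)) (pr_norm (pr_subr 69 500000 (pr_neg (pr_scale 497 25000 h1))))))))))⟩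
noncomputable def l1q0_fs : Sl2 l1q0 := ⟨_, fun h1 h2 => (pr_norm (pr_mul (cv1m_fs.snd h1) (bx1q0_fs.snd h1 h2)))⟩
noncomputable def cv2m_fs : Sl1 cv2m := ⟨_, fun h1 => (pr_norm (pr_addc (swg_fs.snd h1) (enc_rat _ 1 2)))⟩
noncomputable def bf2q0_fs : Sl2 bf2q0 := ⟨_, fun h1 h2 => (pr_norm (pr_case (pr_subr 1 20 h1) (pr_case (pr_subr 3 200 h1) (pr_sub (pr_csub (enc_pnc _ 1) (pr_scale 604597 150000 h1)) (pr_cmul (enc_norm (bf2q0_3.enc h1.l h2)) (pr_nd (pr_scale 3 200 h1)))) (pr_add (pr_csub (enc_rat _ 35000001 35000000) (pr_scale 1410727 350000 h1)) (pr_cmul (enc_norm (bf2q0_3.enc h1.l h2)) (pr_norm (pr_csub (enc_rat _ 9 7000000) (pr_scale 66 4375 h1)))))) (pr_case (pr_subr 3 25 h1) (pr_add (pr_csub (enc_rat _ 70000017 70000000) (pr_scale 2821457 700000 h1)) (pr_cmul (enc_norm (bf2q0_3.enc h1.l h2)) (pr_norm (pr_csub (enc_rat _ 59 7000000) (pr_scale 533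 35000 h1))))) (pr_case (pr_subr 1 4 h1) (pr_add (pr_csub (enc_rat _ 130000083 130000000) (pr_scale 5239853 1300000 h1)) (pr_cmul (enc_norm (bf2q0_3.enc h1.l h2)) (pr_norm (pr_csub (enc_rat _ 413 13000000) (pr_scale 401 26000 h1))))) (pr_add (pr_csub (enc_rat _ 5000007 5000000) (pr_scale 1259581 312500 h1)) (pr_cmul (enc_norm (bf2q0_3.enc h1.l h2)) (pr_norm (pr_csub (enc_rat _ 67 1000000) (pr_scale 3891 250000 h1)))))))))⟩
noncomputable def kf2q0_fs : Sl2 kf2q0 := ⟨_, fun h1 h2 => (pr_norm (pr_mul (cv2m_fs.snd h1) (bf2q0_fs.snd h1 h2)))⟩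
noncomputable def bx2q0_fs : Sl2 bx2q0 := ⟨_, fun h1 h2 => (pr_norm (pr_case (pr_subr 1 20 h1) (pr_case (pr_subr 3 200 h1) (pr_sub (pr_scale 22061 150000 h1) (pr_cmul (enc_norm (bx2q0_3.enc h1.l h2)) (pr_nd (pr_scale 5917 15000 h1)))) (pr_add (pr_subr 1 7000000 (pr_scale 51479 350000 h1)) (pr_cmul (enc_norm (bx2q0_3.enc h1.l h2)) (pr_norm (pr_subr 1 1750000 (pr_neg (pr_scale 2761 7000 h1))))))) (pr_case (pr_subr 3 25 h1) (pr_add (pr_subr 9 7000000 (pr_scale 51487 350000 h1)) (pr_cmul (enc_norm (bx2q0_3.enc h1.l h2)) (pr_norm (pr_subr 3 250000 (pr_neg (pr_scale 1971 5000 h1)))))) (pr_case (pr_subr 1 4 h1) (pr_add (pr_subr 309 65000000 (pr_scale 7651 52000 h1)) (pr_cmul (enc_norm (bx2q0_3.enc h1.l h2)) (pr_norm (pr_subr 33 812500 (pr_neg (pr_scale 10243 26000 h1)))))) (pr_add (pr_subr 21 2000000 (pr_scale 183947 1250000 h1)) (pr_cmul (enc_norm (bx2q0_3.enc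 h1.l h2)) (pr_norm (pr_csub (enc_rat _ 7 250000) (pr_scale 98559 250000 h1)))))))))⟩
noncomputable def l2q0_fs : Sl2 l2q0 := ⟨_, fun h1 h2 => (pr_norm (pr_mul (cv2m_fs.snd h1) (bx2q0_fs.snd h1 h2)))⟩
noncomputable def kf0q1_10_fs : Sl2 kf0q1_10 := ⟨_, fun h1 h2 => (pr_scale 3 2 h1)⟩
noncomputable def kf0q1_fs : Sl2 kf0q1 := ⟨_, fun h1 h2 => (pr_norm (pr_add (pr_mul (pr_norm (pr_mul (pr_norm (pr_cadd (enc_pnc _ 1) (pr_nat 2 (c1g_fs.snd h1)))) (pr_norm (pr_sub (kf0q1_10_fs.snd h1 h2) (c1g_fs.snd h1))))) (pr_nd (pr_inv (pr_nat 2 (pr_sub (pr_cadd (enc_pnc _ 1) (kf0q1_10_fs.snd h1 h2)) (c1g_fs.snd h1)))))) (pr_mul (pr_norm (pr_subn 1 h1)) (kcg_fs.snd (pr_norm (pr_sub (pr_scale 3 4 h1) (pr_half (c1g_fs.snd h1)))) h2))))⟩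
noncomputable def l0q1_fs : Sl2 l0q1 := ⟨_, fun h1 h2 => (pr_norm (txg_fs.snd (pr_norm (pr_sub (pr_scale 3 4 h1) (pr_half (c1g_fs.snd h1)))) (pr_nd (c1g_fs.snd h1)) h2))⟩
noncomputable def cv2p_fs : Sl1 cv2p := ⟨_, fun h1 => (pr_norm (pr_subr 1 2 (swg_fs.snd h1)))⟩
noncomputable def gsg_fs : Sl1 gsg := ⟨_, fun h1 => (pr_sqrt (pr_csub (enc_pnc _ 1) (pr_scale 3 4 (pr_sq h1))))⟩
noncomputable def esg_fs : Sl1 esg := ⟨_, fun h1 => (pr_norm (pr_subn 1 (pr_add (pr_half h1) (gsg_fs.snd h1))))⟩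
noncomputable def kf2q2_67_fs : Sl2 kf2q2_67 := ⟨_, fun h1 h2 => (pr_subn 1 h1)⟩
noncomputable def kf2q2_68_fs : Sl2 kf2q2_68 := ⟨_, fun h1 h2 => (gsg_fs.snd (pr_norm (kf2q2_67_fs.snd h1 h2)))⟩
noncomputable def kf2q2_74_fs : Sl2 kf2q2_74 := ⟨_, fun h1 h2 => (pr_scale 3 2 (kf2q2_67_fs.snd h1 h2))⟩
noncomputable def kf2q2_76_fs : Sl2 kf2q2_76 := ⟨_, fun h1 h2 => (pr_cadd (enc_pnc _ 1) (kf2q2_68_fs.snd h1 h2))⟩
noncomputable def kf2q2_fs : Sl2 kf2q2 := ⟨_, fun h1 h2 => (pr_norm (pr_case (pr_subr 33 32 h1) (pr_mul (cv2p_fs.snd h1) (pr_norm (pr_case (pr_subr 203 200 h1) (pr_add (pr_csub (enc_rat _ 157991 150000) (pr_scale 7991 150000 h1)) (pr_cmul (enc_norm (kf2q2_4.enc h1.l h2)) (pr_norm (pr_csub (enc_rat _ 137 3000) (pr_scale 137 3000 h1))))) (pr_add (pr_csub (enc_rat _ 106976101 101562500) (pr_scale 866169 16250000 h1)) (pr_cmul (enc_norm (kf2q2_4.enc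 h1.l h2)) (pr_norm (pr_csub (enc_rat _ 87333087 3250000000) (pr_scale 441179 16250000 h1)))))))) (pr_case (pr_subr 69 64 h1) (pr_add (pr_sub (pr_mul (pr_norm (pr_mul (pr_norm (pr_sub (kf2q2_68_fs.snd h1 h2) (kf2q2_74_fs.snd h1 h2))) (pr_norm (kf2q2_76_fs.snd h1 h2)))) (pr_nd (pr_inv (pr_sub (kf2q2_76_fs.snd h1 h2) (kf2q2_74_fs.snd h1 h2))))) (pr_mul (pr_norm (pr_sub (pr_half (kf2q2_67_fs.snd h1 h2)) (pr_mul (pr_nd (pr_scale 3 4 (pr_sq (pr_norm (kf2q2_67_fs.snd h1 h2))))) (pr_nd (pr_inv (kf2q2_68_fs.snd h1 h2)))))) (pr_nd (pr_inv (pr_nat 2 (esg_fs.snd (pr_norm (kf2q2_67_fs.snd h1 h2)))))))) (pr_mul (kcg_fs.snd (pr_norm (pr_sub (pr_scale 3 4 (kf2q2_67_fs.snd h1 h2)) (pr_half (kf2q2_68_fs.snd h1 h2)))) h2) (pr_norm (kf2q2_67_fs.snd h1 h2)))) (pr_mul (cv2p_fs.snd h1) (pr_norm (pr_case (pr_subr 29 25 h1) (pr_add (pr_csub (enc_rat _ 1623277181641 163750000000)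 (pr_scale 6777518763 818750000 h1)) (pr_cmul (enc_norm (kf2q2_4.enc h1.l h2)) (pr_norm (pr_subr 115889369 8187500000 (pr_scale 96948 10234375 h1))))) (pr_case (pr_subr 13 10 h1) (pr_add (pr_csub (enc_rat _ 3965257 400000) (pr_scale 1655577 200000 h1)) (pr_cmul (enc_norm (kf2q2_4.enc h1.l h2)) (pr_norm (pr_subr 5301 250000 (pr_scale 311 20000 h1))))) (pr_add (pr_csub (enc_rat _ 198262837 20000000) (pr_scale 16555769 2000000 h1)) (pr_cmul (enc_norm (kf2q2_4.enc h1.l h2)) (pr_norm (pr_subr 661 31250 (pr_scale 1551 100000 h1))))))))))))⟩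
noncomputable def qsg_fs : Sl1 qsg := ⟨_, fun h1 => (pr_norm (pr_mul (pr_norm (pr_csub (enc_pnc _ 1) (gsg_fs.snd h1))) (pr_norm (pr_subn 1 (pr_nat 2 (gsg_fs.snd h1))))))⟩
noncomputable def l2q2_80_fs : Sl2 l2q2_80 := ⟨_, fun h1 h2 => (pr_subn 1 h1)⟩
noncomputable def l2q2_fs : Sl2 l2q2 := ⟨_, fun h1 h2 => (pr_norm (pr_case (pr_subr 33 32 h1) (pr_mul (cv2p_fs.snd h1) (pr_norm (pr_case (pr_subr 203 200 h1) (pr_add (pr_subr 1123 30000 (pr_scale 1123 30000 h1)) (pr_cmul (enc_norm (l2q2_4.enc h1.l h2)) (pr_norm (pr_subr 4963 7500 (pr_scale 4963 7500 h1))))) (pr_add (pr_add (pr_subr 683673619 16250000000 (pr_scale 1706399 40625000 h1)) (pr_cmul (enc_norm (l2q2_4.enc h1.l h2)) (pr_norm (pr_subr 1188916211 1625000000 (pr_scale 5936187 8125000 h1))))) (pr_cmul (l2q2_31.enc h1.l h2) (pr_norm (pr_csub (enc_rat _ 2233 32500) (pr_scale 22 325 h1)))))))) (pr_case (pr_subr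 69 64 h1) (pr_sub (qsg_fs.snd (pr_norm (l2q2_80_fs.snd h1 h2))) (pr_mul (pr_norm (pr_nat 2 (pr_subc (l2q2_80_fs.snd h1 h2) h2))) (pr_norm (pr_mul (esg_fs.snd (pr_norm (l2q2_80_fs.snd h1 h2))) (kcg_fs.snd (pr_norm (pr_sub (pr_scale 3 4 (l2q2_80_fs.snd h1 h2)) (pr_half (gsg_fs.snd (pr_norm (l2q2_80_fs.snd h1 h2)))))) h2))))) (pr_mul (cv2p_fs.snd h1) (pr_norm (pr_case (pr_subr 29 25 h1) (pr_add (pr_add (pr_subr 12426033989 163750000000 (pr_scale 30126851 409375000 h1)) (pr_cmul (enc_norm (l2q2_4.enc h1.l h2)) (pr_norm (pr_csub (enc_rat _ 2514575809 4093750000) (pr_scale 42994223 81875000 h1))))) (pr_cmul (l2q2_31.enc h1.l h2) (pr_norm (pr_subr 21518 409375 (pr_scale 742 16375 h1))))) (pr_case (pr_subr 13 10 h1) (pr_add (pr_subr 5312401 70000000 (pr_scale 51519 700000 h1)) (pr_cmul (enc_norm (l2q2_4.enc h1.l h2)) (pr_norm (pr_subr 32797 500000 (pr_scale 1219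 20000 h1))))) (pr_add (pr_subr 18973 250000 (pr_scale 73599 1000000 h1)) (pr_cmul (enc_norm (l2q2_4.enc h1.l h2)) (pr_norm (pr_subr 130239 2000000 (pr_scale 12117 200000 h1))))))))))))⟩
noncomputable def gug_fs : Sl1 gug := ⟨_, fun h1 => (pr_norm (pr_add (pr_scale 3 4 h1) (pr_scale 3 2 (pr_csub (enc_pnc _ 1) (gsg_fs.snd h1)))))⟩
noncomputable def kug_2_fs : Sl1 kug_2 := ⟨_, fun h1 => (pr_sq h1)⟩
noncomputable def kug_fs : Sl1 kug := ⟨_, fun h1 => (pr_norm (pr_add (pr_add (pr_scale 3 4 h1) (pr_scale 3 2 (kug_2_fs.snd h1))) (pr_mul (pr_norm (pr_mul (pr_nd (pr_scale 3 4 (kug_2_fs.snd h1))) (pr_nd (pr_inv (gsg_fs.snd h1))))) (gug_fs.snd h1))))⟩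
noncomputable def kp0q0_8_fs : Sl2 kp0q0_8 := ⟨_, fun h1 h2 => (pr_sub (pr_scale 3 4 h1) (pr_half (c1g_fs.snd h1)))⟩
noncomputable def kp0q0_fs : Sl2 kp0q0 := ⟨_, fun h1 h2 => (pr_norm (pr_case (pr_addc (kp0q0_8_fs.snd h1 h2) (enc_rat _ 661 1387)) (pr_mul h1 (pr_norm (pr_add (pr_subr 252488811833 650000000000 (pr_neg (pr_scale 315272116833 325000000000 (kp0q0_8_fs.snd h1 h2)))) (pr_cmul (enc_norm (kp0q0_3.enc h1.l h2)) (pr_norm (pr_addc (pr_scale 1447283251737 325000000000 (kp0q0_8_fs.snd h1 h2)) (enc_rat _ 1403049451737 650000000000))))))) (pr_case (pr_addc (kp0q0_8_fs.snd h1 h2) (enc_rat _ 191 434)) (pr_sub (kug_fs.snd h1) (pr_mul h1 (pr_norm (pr_mul (kcg_fs.snd (pr_norm (kp0q0_8_fs.snd h1 h2)) h2) (pr_norm (pr_add (gug_fs.snd h1) (pr_nat 2 (c1g_fs.snd h1)))))))) (pr_mul h1 (pr_norm (pr_case (pr_addc (kp0q0_8_fs.snd h1 h2) (enc_rat _ 3 10)) (pr_case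 (pr_addc (kp0q0_8_fs.snd h1 h2) (enc_rat _ 2 5)) (pr_add (pr_csub (enc_rat _ 44065346579 217500000000) (pr_scale 52636171 87000000000 (kp0q0_8_fs.snd h1 h2))) (pr_cmul (enc_norm (kp0q0_3.enc h1.l h2)) (pr_norm (pr_subr 6153490967 72500000000 (pr_neg (pr_scale 8999478467 29000000000 (kp0q0_8_fs.snd h1 h2))))))) (pr_add (pr_csub (enc_rat _ 2026017 10000000) (pr_scale 599 1000000 (kp0q0_8_fs.snd h1 h2))) (pr_cmul (enc_norm (kp0q0_3.enc h1.l h2)) (pr_norm (pr_subr 30381 200000 (pr_neg (pr_scale 4779 10000 (kp0q0_8_fs.snd h1 h2)))))))) (pr_case (kp0q0_8_fs.snd h1 h2) (pr_add (pr_csub (enc_rat _ 405233 2000000) (pr_scale 1649 3000000 (kp0q0_8_fs.snd h1 h2))) (pr_cmul (enc_norm (kp0q0_3.enc h1.l h2)) (pr_norm (pr_subr 79101 500000 (pr_neg (pr_scale 49889 100000 (kp0q0_8_fs.snd h1 h2))))))) (pr_add (pr_csub (enc_rat _ 405233 2000000) (pr_scale 2381 5000000 (kp0q0_8_fs.snd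 h1 h2))) (pr_cmul (enc_norm (kp0q0_3.enc h1.l h2)) (pr_norm (pr_subr 79101 500000 (pr_neg (pr_scale 14159 25000 (kp0q0_8_fs.snd h1 h2))))))))))))))⟩
noncomputable def kn0q0_fs : Sl2 kn0q0 := ⟨_, fun h1 h2 => (pr_norm (pr_add (pr_cmul (enc_norm (enc_add (enc_pnc _ 1) (enc_mul (mug3.enc h2) (gug.enc h2)))) (kf0q0_fs.snd h1 h2)) (pr_cmul (mug3.enc h2) (kp0q0_fs.snd h1 h2))))⟩
noncomputable def bd1q0_fs : Sl2 bd1q0 := ⟨_, fun h1 h2 => (pr_norm (pr_case (pr_subr 1 10 h1) (pr_sub (pr_neg (pr_scale 11186827 1000000 h1)) (pr_cmul (enc_norm (bd1q0_3.enc h1.l h2)) (pr_nd (pr_scale 23 50000 h1)))) (pr_add (pr_csub (enc_rat _ 3 20000000) (pr_scale 22373657 2000000 h1)) (pr_cmul (enc_norm (bd1q0_3.enc h1.l h2)) (pr_norm (pr_csub (enc_rat _ 1 400000) (pr_scale 97 200000 h1)))))))⟩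
noncomputable def kp1q0_fs : Sl2 kp1q0 := ⟨_, fun h1 h2 => (pr_norm (pr_mul (cv1m_fs.snd h1) (bd1q0_fs.snd h1 h2)))⟩
noncomputable def kn1q0_fs : Sl2 kn1q0 := ⟨_, fun h1 h2 => (pr_norm (pr_add (pr_cmul (enc_norm (enc_add (enc_pnc _ 1) (enc_mul (mug3.enc h2) (gug.enc h2)))) (kf1q0_fs.snd h1 h2)) (pr_cmul (mug3.enc h2) (kp1q0_fs.snd h1 h2))))⟩
noncomputable def bd2q0_fs : Sl2 bd2q0 := ⟨_, fun h1 h2 => (pr_norm (pr_case (pr_subr 1 10 h1) (pr_sub (pr_neg (pr_scale 1662587 1000000 h1)) (pr_cmul (enc_norm (bd2q0_3.enc h1.l h2)) (pr_nd (pr_scale 177 100000 h1)))) (pr_add (pr_csub (enc_rat _ 3 8000000) (pr_scale 6650363 4000000 h1)) (pr_cmul (enc_norm (bd2q0_3.enc h1.l h2)) (pr_norm (pr_csub (enc_rat _ 29 2000000) (pr_scale 383 200000 h1)))))))⟩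
noncomputable def kp2q0_fs : Sl2 kp2q0 := ⟨_, fun h1 h2 => (pr_norm (pr_mul (cv2m_fs.snd h1) (bd2q0_fs.snd h1 h2)))⟩
noncomputable def kn2q0_fs : Sl2 kn2q0 := ⟨_, fun h1 h2 => (pr_norm (pr_add (pr_cmul (enc_norm (enc_add (enc_pnc _ 1) (enc_mul (mug3.enc h2) (gug.enc h2)))) (kf2q0_fs.snd h1 h2)) (pr_cmul (mug3.enc h2) (kp2q0_fs.snd h1 h2))))⟩
noncomputable def kp0q1_9_fs : Sl2 kp0q1_9 := ⟨_, fun h1 h2 => (pr_sub (pr_scale 3 4 h1) (pr_half (c1g_fs.snd h1)))⟩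
noncomputable def kp0q1_fs : Sl2 kp0q1 := ⟨_, fun h1 h2 => (pr_norm (pr_mul (pr_norm (pr_subn 1 h1)) (pr_norm (pr_case (pr_addc (kp0q1_9_fs.snd h1 h2) (enc_rat _ 3 10)) (pr_case (pr_addc (kp0q1_9_fs.snd h1 h2) (enc_rat _ 2 5)) (pr_add (pr_csub (enc_rat _ 44065346579 217500000000) (pr_scale 52636171 87000000000 (kp0q1_9_fs.snd h1 h2))) (pr_cmul (enc_norm (kp0q1_3.enc h1.l h2)) (pr_norm (pr_subr 6153490967 72500000000 (pr_neg (pr_scale 8999478467 29000000000 (kp0q1_9_fs.snd h1 h2))))))) (pr_add (pr_csub (enc_rat _ 2026017 10000000) (pr_scale 599 1000000 (kp0q1_9_fs.snd h1 h2))) (pr_cmul (enc_norm (kp0q1_3.enc h1.l h2)) (pr_norm (pr_subr 30381 200000 (pr_neg (pr_scale 4779 10000 (kp0q1_9_fs.snd h1 h2)))))))) (pr_case (kp0q1_9_fs.snd h1 h2) (pr_add (pr_csub (enc_rat _ 405233 2000000) (pr_scale 1649 3000000 (kp0q1_9_fs.snd h1 h2))) (pr_cmul (enc_norm (kp0q1_3.enc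 h1.l h2)) (pr_norm (pr_subr 79101 500000 (pr_neg (pr_scale 49889 100000 (kp0q1_9_fs.snd h1 h2))))))) (pr_add (pr_csub (enc_rat _ 405233 2000000) (pr_scale 2381 5000000 (kp0q1_9_fs.snd h1 h2))) (pr_cmul (enc_norm (kp0q1_3.enc h1.l h2)) (pr_norm (pr_subr 79101 500000 (pr_neg (pr_scale 14159 25000 (kp0q1_9_fs.snd h1 h2))))))))))))⟩
noncomputable def kn0q1_fs : Sl2 kn0q1 := ⟨_, fun h1 h2 => (pr_norm (pr_add (pr_cmul (enc_norm (enc_add (enc_pnc _ 1) (enc_mul (mug3.enc h2) (gug.enc h2)))) (kf0q1_fs.snd h1 h2)) (pr_cmul (mug3.enc h2) (kp0q1_fs.snd h1 h2))))⟩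
noncomputable def kp2q2_41_fs : Sl2 kp2q2_41 := ⟨_, fun h1 h2 => (pr_subn 1 h1)⟩
noncomputable def kp2q2_42_fs : Sl2 kp2q2_42 := ⟨_, fun h1 h2 => (gsg_fs.snd (pr_norm (kp2q2_41_fs.snd h1 h2)))⟩
noncomputable def kp2q2_46_fs : Sl2 kp2q2_46 := ⟨_, fun h1 h2 => (esg_fs.snd (pr_norm (kp2q2_41_fs.snd h1 h2)))⟩
noncomputable def kp2q2_54_fs : Sl2 kp2q2_54 := ⟨_, fun h1 h2 => (pr_mul (pr_nd (pr_scale 3 4 (pr_sq (pr_norm (kp2q2_41_fs.snd h1 h2))))) (pr_nd (pr_inv (kp2q2_42_fs.snd h1 h2))))⟩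
noncomputable def kp2q2_fs : Sl2 kp2q2 := ⟨_, fun h1 h2 => (pr_norm (pr_case (pr_subr 33 32 h1) (pr_mul (cv2p_fs.snd h1) (pr_norm (pr_add (pr_subr 4908269 62500000 (pr_scale 4908269 62500000 h1)) (pr_cmul (enc_norm (kp2q2_4.enc h1.l h2)) (pr_norm (pr_subr 72023 1953125 (pr_scale 72023 1953125 h1))))))) (pr_case (pr_subr 69 64 h1) (pr_add (pr_sub (kug_fs.snd (pr_norm (kp2q2_41_fs.snd h1 h2))) (pr_mul (pr_norm (pr_sub (pr_mul (pr_norm (pr_mul (pr_norm (kp2q2_54_fs.snd h1 h2)) (pr_norm (pr_subn 3 (pr_nat 4 (kp2q2_42_fs.snd h1 h2)))))) (kp2q2_46_fs.snd h1 h2)) (pr_mul (qsg_fs.snd (pr_norm (kp2q2_41_fs.snd h1 h2))) (pr_norm (pr_sub (pr_half (kp2q2_41_fs.snd h1 h2)) (kp2q2_54_fs.snd h1 h2)))))) (pr_nd (pr_inv (pr_mul (pr_nd (pr_nat 2 (kp2q2_46_fs.snd h1 h2))) (kp2q2_46_fs.snd h1 h2)))))) (pr_mul (pr_norm (pr_mul (pr_norm (kp2q2_41_fs.snd h1 h2)) (kcg_fs.snd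 (pr_norm (pr_sub (pr_scale 3 4 (kp2q2_41_fs.snd h1 h2)) (pr_half (kp2q2_42_fs.snd h1 h2)))) h2))) (pr_norm (pr_sub (pr_csub (enc_pnc _ 1) (gug_fs.snd (pr_norm (kp2q2_41_fs.snd h1 h2)))) (pr_nat 2 (kp2q2_42_fs.snd h1 h2)))))) (pr_mul (cv2p_fs.snd h1) (pr_norm (pr_case (pr_subr 11 10 h1) (pr_add (pr_subr 2310165769 546875000 (pr_scale 215137479 54687500 h1)) (pr_cmul (enc_norm (kp2q2_4.enc h1.l h2)) (pr_norm (pr_subr 1160743 125000000 (pr_scale 38997 3125000 h1))))) (pr_add (pr_subr 10560751 2500000 (pr_scale 196697 50000 h1)) (pr_cmul (enc_norm (kp2q2_4.enc h1.l h2)) (pr_norm (pr_csub (enc_rat _ 34457 2000000) (pr_scale 93 8000 h1)))))))))))⟩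
noncomputable def kn2q2_fs : Sl2 kn2q2 := ⟨_, fun h1 h2 => (pr_norm (pr_add (pr_cmul (enc_norm (enc_add (enc_pnc _ 1) (enc_mul (mug3.enc h2) (gug.enc h2)))) (kf2q2_fs.snd h1 h2)) (pr_cmul (mug3.enc h2) (kp2q2_fs.snd h1 h2))))⟩
noncomputable def dlg : Fn2 := ⟨_, _, fun h1 h2 => (kcg.enc (enc_norm (enc_sub (enc_scale 3 4 h1) (enc_half (c1g.enc h1)))) h2)⟩

end Pool.Agent.Strip051.G.I3_64_1_16.Tab
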