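import Pool.Agent.Strip051.G.I3_64_1_16.Tab
import Pool.Agent.Strip051.PB.C12G

/-! # Slopes of the tables near the lattice heights (generated) -/

set_option linter.all false

namespace Pool.Agent.Strip051.G.I3_64_1_16.Tab

open Pool.Agent.Strip051.PB

attribute [local irreducible] padd psub pneg pmul psq pinv psqrt psqrtg pabs pps pmax pmin pphi plam
  pcase phf pnat prat pscale pnorm pdc pnc pone ppos pnn Enc pbad pzero

noncomputable def idf_s : Sl1 idf := ⟨fun _ _ D => D, fun h => h⟩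

noncomputable def c1g_s : Sl1 c1g := ⟨_, fun h1 => (pr_sqrtgz (pr_csub (enc_pnc _ 1) (pr_scale 3 4 (pr_sq h1))))⟩
noncomputable def kcg_6_s : Sl2 kcg_6 := ⟨_, fun h1 h2 => (pr_addc h1 (enc_rat _ 41 100))⟩
noncomputable def kcg_9_s : Sl2 kcg_9 := ⟨_, fun h1 h2 => (pr_addc h1 (enc_rat _ 661 1387))⟩
noncomputable def kcg_12_s : Sl2 kcg_12 := ⟨_, fun h1 h2 => (pr_addc h1 (enc_rat _ 49 100))⟩
noncomputable def kcg_13_s : Sl2 kcg_13 := ⟨_, fun h1 h2 => (pr_scale 890359 1000000 h1)⟩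
noncomputable def kcg_18_s : Sl2 kcg_18 := ⟨_, fun h1 h2 => (pr_scale 51293 100000 h1)⟩
noncomputable def kcg_38_s : Sl2 kcg_38 := ⟨_, fun h1 h2 => (pr_scale 207632513 232875000 h1)⟩
noncomputable def kcg_43_s : Sl2 kcg_43 := ⟨_, fun h1 h2 => (pr_scale 26132467 62100000 h1)⟩
noncomputable def kcg_63_s : Sl2 kcg_63 := ⟨_, fun h1 h2 => (pr_addc h1 (enc_rat _ 23 50))⟩
noncomputable def kcg_64_s : Sl2 kcg_64 := ⟨_, fun h1 h2 => (pr_scale 2054742023 2298000000 h1)⟩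
noncomputable def kcg_69_s : Sl2 kcg_69 := ⟨_, fun h1 h2 => (pr_scale 20606659 76600000 h1)⟩
noncomputable def kcg_88_s : Sl2 kcg_88 := ⟨_, fun h1 h2 => (pr_addc h1 (enc_rat _ 191 434))⟩
noncomputable def kcg_89_s : Sl2 kcg_89 := ⟨_, fun h1 h2 => (pr_scale 38757719 43200000 h1)⟩
noncomputable def kcg_94_s : Sl2 kcg_94 := ⟨_, fun h1 h2 => (pr_scale 2959229 21600000 h1)⟩
noncomputable def kcg_111_s : Sl2 kcg_111 := ⟨_, fun h1 h2 => (pr_scale 2936227 3265000 h1)⟩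
noncomputable def kcg_116_s : Sl2 kcg_116 := ⟨_, fun h1 h2 => (pr_scale 313131 8162500 h1)⟩
noncomputable def kcg_138_s : Sl2 kcg_138 := ⟨_, fun h1 h2 => (pr_addc h1 (enc_rat _ 1 4))⟩
noncomputable def kcg_141_s : Sl2 kcg_141 := ⟨_, fun h1 h2 => (pr_addc h1 (enc_rat _ 7 20))⟩
noncomputable def kcg_142_s : Sl2 kcg_142 := ⟨_, fun h1 h2 => (pr_scale 5396893 6000000 h1)⟩
noncomputable def kcg_147_s : Sl2 kcg_147 := ⟨_, fun h1 h2 => (pr_scale 1067 24000 h1)⟩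
noncomputable def kcg_164_s : Sl2 kcg_164 := ⟨_, fun h1 h2 => (pr_scale 448109 500000 h1)⟩
noncomputable def kcg_169_s : Sl2 kcg_169 := ⟨_, fun h1 h2 => (pr_scale 12279 125000 h1)⟩
noncomputable def kcg_188_s : Sl2 kcg_188 := ⟨_, fun h1 h2 => (pr_addc h1 (enc_rat _ 3 20))⟩
noncomputable def kcg_189_s : Sl2 kcg_189 := ⟨_, fun h1 h2 => (pr_scale 442261 500000 h1)⟩
noncomputable def kcg_194_s : Sl2 kcg_194 := ⟨_, fun h1 h2 => (pr_scale 99693 1000000 h1)⟩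
noncomputable def kcg_211_s : Sl2 kcg_211 := ⟨_, fun h1 h2 => (pr_scale 1266763 2250000 h1)⟩
noncomputable def kcg_216_s : Sl2 kcg_216 := ⟨_, fun h1 h2 => (pr_scale 38191 900000 h1)⟩
noncomputable def kcg_230_s : Sl2 kcg_230 := ⟨_, fun h1 h2 => (pr_scale 500819 2000000 h1)⟩
noncomputable def kcg_238_s : Sl2 kcg_238 := ⟨_, fun h1 h2 => (pr_csub (enc_rat _ 41 100) h1)⟩
noncomputable def kcg_239_s : Sl2 kcg_239 := ⟨_, fun h1 h2 => (pr_csub (enc_rat _ 661 1387) h1)⟩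
noncomputable def kcg_240_s : Sl2 kcg_240 := ⟨_, fun h1 h2 => (pr_csub (enc_rat _ 49 100) h1)⟩
noncomputable def kcg_259_s : Sl2 kcg_259 := ⟨_, fun h1 h2 => (pr_csub (enc_rat _ 23 50) h1)⟩
noncomputable def kcg_268_s : Sl2 kcg_268 := ⟨_, fun h1 h2 => (pr_csub (enc_rat _ 191 434) h1)⟩
noncomputable def kcg_288_s : Sl2 kcg_288 := ⟨_, fun h1 h2 => (pr_csub (enc_rat _ 1 4) h1)⟩
noncomputable def kcg_289_s : Sl2 kcg_289 := ⟨_, fun h1 h2 => (pr_csub (enc_rat _ 7 20) h1)⟩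
noncomputable def kcg_309_s : Sl2 kcg_309 := ⟨_, fun h1 h2 => (pr_csub (enc_rat _ 3 20) h1)⟩
noncomputable def kcg_s : Sl2 kcg := ⟨_, fun h1 h2 => (pr_norm (pr_case h1 (pr_case (kcg_6_s.snd h1 h2) (pr_case (kcg_9_s.snd h1 h2) (pr_case (kcg_12_s.snd h1 h2) (pr_add (pr_add (pr_subr 3341249 50000000 (pr_neg (kcg_13_s.snd h1 h2))) (pr_cmul (enc_norm (kcg_3.enc h1.l h2)) (pr_norm (pr_subr 659059 2500000 (pr_neg (kcg_18_s.snd h1 h2)))))) (pr_cmul (enc_norm (kcg_30.enc h1.l h2)) (pr_norm (pr_mul (pr_norm (pr_addc h1 (enc_rat _ 1 2))) (pr_norm (pr_csub (enc_neg (enc_rat _ 49 100)) h1)))))) (pr_add (pr_add (pr_subr 12563236837 186300000000 (pr_neg (kcg_38_s.snd h1 h2))) (pr_cmul (enc_norm (kcg_3.enc h1.l h2)) (pr_norm (pr_subr 678399371 3105000000 (pr_neg (kcg_43_s.snd h1 h2)))))) (pr_cmul (enc_norm (kcg_55.enc h1.l h2)) (pr_norm (pr_mul (pr_norm (kcg_12_s.snd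 h1 h2)) (pr_norm (pr_csub (enc_neg (enc_rat _ 661 1387)) h1))))))) (pr_case (kcg_63_s.snd h1 h2) (pr_add (pr_add (pr_subr 7887349801 114900000000 (pr_neg (kcg_64_s.snd h1 h2))) (pr_cmul (enc_norm (kcg_3.enc h1.l h2)) (pr_norm (pr_subr 17491713 119687500 (pr_neg (kcg_69_s.snd h1 h2)))))) (pr_cmul (enc_norm (kcg_81.enc h1.l h2)) (pr_norm (pr_mul (pr_norm (kcg_9_s.snd h1 h2)) (pr_norm (pr_csub (enc_neg (enc_rat _ 23 50)) h1)))))) (pr_case (kcg_88_s.snd h1 h2) (pr_add (pr_add (pr_subr 756401909 10800000000 (pr_neg (kcg_89_s.snd h1 h2))) (pr_cmul (enc_norm (kcg_3.enc h1.l h2)) (pr_norm (pr_subr 92251351 1080000000 (pr_neg (kcg_94_s.snd h1 h2)))))) (pr_cmul (enc_norm (kcg_106.enc h1.l h2)) (pr_norm (pr_mul (pr_norm (kcg_63_s.snd h1 h2)) (pr_norm (pr_csub (enc_neg (enc_rat _ 191 434)) h1)))))) (pr_add (pr_add (pr_subr 2317384347 32650000000 (pr_neg (kcg_111_s.snd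 h1 h2))) (pr_cmul (enc_norm (kcg_3.enc h1.l h2)) (pr_norm (pr_subr 274309491 6530000000 (pr_neg (kcg_116_s.snd h1 h2)))))) (pr_cmul (enc_norm (kcg_128.enc h1.l h2)) (pr_norm (pr_mul (pr_norm (kcg_88_s.snd h1 h2)) (pr_norm (pr_csub (enc_neg (enc_rat _ 41 100)) h1))))))))) (pr_case (kcg_138_s.snd h1 h2) (pr_case (kcg_141_s.snd h1 h2) (pr_add (pr_add (pr_subr 42629801 600000000 (pr_neg (kcg_142_s.snd h1 h2))) (pr_cmul (enc_norm (kcg_3.enc h1.l h2)) (pr_norm (pr_subr 483071 60000000 (kcg_147_s.snd h1 h2))))) (pr_cmul (enc_norm (kcg_159.enc h1.l h2)) (pr_norm (pr_mul (pr_norm (kcg_6_s.snd h1 h2)) (pr_norm (pr_csub (enc_neg (enc_rat _ 7 20)) h1)))))) (pr_add (pr_add (pr_subr 6990721 100000000 (pr_neg (kcg_164_s.snd h1 h2))) (pr_cmul (enc_norm (kcg_3.enc h1.l h2)) (pr_norm (pr_addc (kcg_169_s.snd h1 h2) (enc_rat _ 6731 625000))))) (pr_cmul (enc_norm (kcg_180.enc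 h1.l h2)) (pr_norm (pr_mul (pr_norm (kcg_141_s.snd h1 h2)) (pr_norm (pr_csub (enc_neg (enc_rat _ 1 4)) h1))))))) (pr_case (kcg_188_s.snd h1 h2) (pr_add (pr_add (pr_subr 6698321 100000000 (pr_neg (kcg_189_s.snd h1 h2))) (pr_cmul (enc_norm (kcg_3.enc h1.l h2)) (pr_norm (pr_addc (kcg_194_s.snd h1 h2) (enc_rat _ 222697 20000000))))) (pr_cmul (enc_norm (kcg_203.enc h1.l h2)) (pr_norm (pr_mul (pr_norm (kcg_138_s.snd h1 h2)) (pr_norm (pr_csub (enc_neg (enc_rat _ 3 20)) h1)))))) (pr_case (pr_addc h1 (enc_rat _ 3 50)) (pr_add (pr_add (pr_subr 5626733 300000000 (pr_neg (kcg_211_s.snd h1 h2))) (pr_cmul (enc_norm (kcg_3.enc h1.l h2)) (pr_norm (pr_addc (kcg_216_s.snd h1 h2) (enc_rat _ 38191 15000000))))) (pr_cmul (enc_norm (kcg_225.enc h1.l h2)) (pr_norm (pr_mul (pr_norm (kcg_188_s.snd h1 h2)) (pr_norm (pr_csub (enc_neg (enc_rat _ 3 50)) h1)))))) (pr_neg (kcg_230_s.snd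 h1 h2)))))) (pr_neg (pr_case (kcg_238_s.snd h1 h2) (pr_case (kcg_239_s.snd h1 h2) (pr_case (kcg_240_s.snd h1 h2) (pr_add (pr_add (pr_subr 3341249 50000000 (kcg_13_s.snd h1 h2)) (pr_cmul (enc_norm (kcg_3.enc h1.l h2)) (pr_norm (pr_subr 659059 2500000 (kcg_18_s.snd h1 h2))))) (pr_cmul (enc_norm (kcg_30.enc h1.l h2)) (pr_norm (pr_mul (pr_norm (pr_csub (enc_rat _ 1 2) h1)) (pr_norm (pr_subr 49 100 h1)))))) (pr_add (pr_add (pr_subr 12563236837 186300000000 (kcg_38_s.snd h1 h2)) (pr_cmul (enc_norm (kcg_3.enc h1.l h2)) (pr_norm (pr_subr 678399371 3105000000 (kcg_43_s.snd h1 h2))))) (pr_cmul (enc_norm (kcg_55.enc h1.l h2)) (pr_norm (pr_mul (pr_norm (kcg_240_s.snd h1 h2)) (pr_norm (pr_subr 661 1387 h1))))))) (pr_case (kcg_259_s.snd h1 h2) (pr_add (pr_add (pr_subr 7887349801 114900000000 (kcg_64_s.snd h1 h2)) (pr_cmul (enc_norm (kcg_3.enc h1.l h2)) (pr_norm (pr_subr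 17491713 119687500 (kcg_69_s.snd h1 h2))))) (pr_cmul (enc_norm (kcg_81.enc h1.l h2)) (pr_norm (pr_mul (pr_norm (kcg_239_s.snd h1 h2)) (pr_norm (pr_subr 23 50 h1)))))) (pr_case (kcg_268_s.snd h1 h2) (pr_add (pr_add (pr_subr 756401909 10800000000 (kcg_89_s.snd h1 h2)) (pr_cmul (enc_norm (kcg_3.enc h1.l h2)) (pr_norm (pr_subr 92251351 1080000000 (kcg_94_s.snd h1 h2))))) (pr_cmul (enc_norm (kcg_106.enc h1.l h2)) (pr_norm (pr_mul (pr_norm (kcg_259_s.snd h1 h2)) (pr_norm (pr_subr 191 434 h1)))))) (pr_add (pr_add (pr_subr 2317384347 32650000000 (kcg_111_s.snd h1 h2)) (pr_cmul (enc_norm (kcg_3.enc h1.l h2)) (pr_norm (pr_subr 274309491 6530000000 (kcg_116_s.snd h1 h2))))) (pr_cmul (enc_norm (kcg_128.enc h1.l h2)) (pr_norm (pr_mul (pr_norm (kcg_268_s.snd h1 h2)) (pr_norm (pr_subr 41 100 h1))))))))) (pr_case (kcg_288_s.snd h1 h2) (pr_case (kcg_289_s.snd h1 h2) (pr_add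 (pr_add (pr_subr 42629801 600000000 (kcg_142_s.snd h1 h2)) (pr_cmul (enc_norm (kcg_3.enc h1.l h2)) (pr_norm (pr_subr 483071 60000000 (pr_neg (kcg_147_s.snd h1 h2)))))) (pr_cmul (enc_norm (kcg_159.enc h1.l h2)) (pr_norm (pr_mul (pr_norm (kcg_238_s.snd h1 h2)) (pr_norm (pr_subr 7 20 h1)))))) (pr_add (pr_add (pr_subr 6990721 100000000 (kcg_164_s.snd h1 h2)) (pr_cmul (enc_norm (kcg_3.enc h1.l h2)) (pr_norm (pr_csub (enc_rat _ 6731 625000) (kcg_169_s.snd h1 h2))))) (pr_cmul (enc_norm (kcg_180.enc h1.l h2)) (pr_norm (pr_mul (pr_norm (kcg_289_s.snd h1 h2)) (pr_norm (pr_subr 1 4 h1))))))) (pr_case (kcg_309_s.snd h1 h2) (pr_add (pr_add (pr_subr 6698321 100000000 (kcg_189_s.snd h1 h2)) (pr_cmul (enc_norm (kcg_3.enc h1.l h2)) (pr_norm (pr_csub (enc_rat _ 222697 20000000) (kcg_194_s.snd h1 h2))))) (pr_cmul (enc_norm (kcg_203.enc h1.l h2)) (pr_norm (pr_mul (pr_norm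 (kcg_288_s.snd h1 h2)) (pr_norm (pr_subr 3 20 h1)))))) (pr_case (pr_csub (enc_rat _ 3 50) h1) (pr_add (pr_add (pr_subr 5626733 300000000 (kcg_211_s.snd h1 h2)) (pr_cmul (enc_norm (kcg_3.enc h1.l h2)) (pr_norm (pr_csub (enc_rat _ 38191 15000000) (kcg_216_s.snd h1 h2))))) (pr_cmul (enc_norm (kcg_225.enc h1.l h2)) (pr_norm (pr_mul (pr_norm (kcg_309_s.snd h1 h2)) (pr_norm (pr_subr 3 50 h1)))))) (kcg_230_s.snd h1 h2))))))))⟩
noncomputable def kf0q0_9_s : Sl2 kf0q0_9 := ⟨_, fun h1 h2 => (pr_scale 3 2 h1)⟩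
noncomputable def kf0q0_12_s : Sl2 kf0q0_12 := ⟨_, fun h1 h2 => (pr_cadd (enc_pnc _ 1) (c1g_s.snd h1))⟩
noncomputable def kf0q0_s : Sl2 kf0q0 := ⟨_, fun h1 h2 => (pr_norm (pr_add (pr_mul (pr_norm (pr_mul (pr_norm (pr_sub (c1g_s.snd h1) (kf0q0_9_s.snd h1 h2))) (pr_norm (kf0q0_12_s.snd h1 h2)))) (pr_nd (pr_inv (pr_sub (kf0q0_12_s.snd h1 h2) (kf0q0_9_s.snd h1 h2))))) (pr_mul h1 (kcg_s.snd (pr_norm (pr_sub (pr_scale 3 4 h1) (pr_half (c1g_s.snd h1)))) h2))))⟩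
noncomputable def txg_6_s : Sl3 txg_6 := ⟨_, fun h1 h2 h3 => (pr_add h1 (pr_half h2))⟩
noncomputable def txg_27_s : Sl3 txg_27 := ⟨_, fun h1 h2 h3 => (pr_addc h1 (enc_rat _ 479 1000))⟩
noncomputable def txg_77_s : Sl3 txg_77 := ⟨_, fun h1 h2 h3 => (pr_addc h1 (enc_rat _ 191 434))⟩
noncomputable def txg_80_s : Sl3 txg_80 := ⟨_, fun h1 h2 h3 => (pr_addc h1 (enc_rat _ 3 50))⟩
noncomputable def txg_83_s : Sl3 txg_83 := ⟨_, fun h1 h2 h3 => (pr_addc h1 (enc_rat _ 3 10))⟩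
noncomputable def txg_86_s : Sl3 txg_86 := ⟨_, fun h1 h2 h3 => (pr_addc h1 (enc_rat _ 41 100))⟩
noncomputable def txg_113_s : Sl3 txg_113 := ⟨_, fun h1 h2 h3 => (pr_addc h1 (enc_rat _ 9 25))⟩
noncomputable def txg_157_s : Sl3 txg_157 := ⟨_, fun h1 h2 h3 => (pr_addc h1 (enc_rat _ 9 50))⟩
noncomputable def txg_160_s : Sl3 txg_160 := ⟨_, fun h1 h2 h3 => (pr_addc h1 (enc_rat _ 6 25))⟩
noncomputable def txg_198_s : Sl3 txg_198 := ⟨_, fun h1 h2 h3 => (pr_addc h1 (enc_rat _ 3 25))⟩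
noncomputable def txg_234_s : Sl3 txg_234 := ⟨_, fun h1 h2 h3 => (pr_subr 6 25 h1)⟩
noncomputable def txg_235_s : Sl3 txg_235 := ⟨_, fun h1 h2 h3 => (pr_subr 3 25 h1)⟩
noncomputable def txg_236_s : Sl3 txg_236 := ⟨_, fun h1 h2 h3 => (pr_subr 3 50 h1)⟩
noncomputable def txg_275_s : Sl3 txg_275 := ⟨_, fun h1 h2 h3 => (pr_subr 9 50 h1)⟩
noncomputable def txg_314_s : Sl3 txg_314 := ⟨_, fun h1 h2 h3 => (pr_subr 9 25 h1)⟩
noncomputable def txg_315_s : Sl3 txg_315 := ⟨_, fun h1 h2 h3 => (pr_subr 3 10 h1)⟩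
noncomputable def txg_353_s : Sl3 txg_353 := ⟨_, fun h1 h2 h3 => (pr_subr 43 100 h1)⟩
noncomputable def txg_s : Sl3 txg := ⟨_, fun h1 h2 h3 => (pr_case (pr_addc h1 (enc_rat _ 661 1387)) (pr_case (txg_27_s.snd h1 h2 h3) (pr_add (pr_add (pr_addc (pr_scale 4591 175000 h1) (enc_rat _ 4591 350000)) (pr_cmul (enc_norm (txg_4.enc h1.l h2.l h3)) (pr_norm (pr_addc (pr_scale 6031 13125 h1) (enc_rat _ 6031 26250))))) (pr_cmul (enc_norm (enc_subr 1476373 20000000 (enc_neg (enc_scale 18076397 5000000 (txg_4.enc h1.l h2.l h3))))) (pr_norm (pr_mul (pr_norm (pr_addc h1 (enc_rat _ 1 2))) (pr_norm (pr_csub (enc_neg (enc_rat _ 479 1000)) h1)))))) (pr_add (pr_add (pr_add (pr_addc (pr_scale 808889043933 29941446400000 h1) (enc_rat _ 80790638738919 5988289280000000)) (pr_cmul (enc_norm (txg_4.enc h1.l h2.l h3)) (pr_norm (pr_addc (pr_scale 3577591390199 7485361600000 h1) (enc_rat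 _ 1785897021200681 7485361600000000))))) (pr_cmul (txg_63.enc h1.l h2.l h3) (pr_norm (pr_subr 902302359 8432500000 (pr_neg (pr_scale 1883721 8432500 h1)))))) (pr_cmul (enc_norm (enc_add (enc_scale 29556427 1250000 (txg_4.enc h1.l h2.l h3)) (enc_rat _ 7926567 25000000))) (pr_norm (pr_mul (pr_norm (txg_27_s.snd h1 h2 h3)) (pr_norm (pr_csub (enc_neg (enc_rat _ 661 1387)) h1))))))) (pr_case (txg_77_s.snd h1 h2 h3) (pr_sub (pr_mul (pr_norm (pr_csub (enc_pnc _ 1) h2)) (pr_norm (pr_subn 1 (pr_nat 2 h2)))) (pr_mul (pr_norm (pr_nat 2 (pr_subc (pr_scale 4 3 (txg_6_s.snd h1 h2 h3)) h3))) (pr_norm (pr_mul (pr_norm (pr_subn 1 (pr_add (pr_scale 2 3 (txg_6_s.snd h1 h2 h3)) h2))) (kcg_s.snd h1 h3))))) (pr_case (txg_80_s.snd h1 h2 h3) (pr_case (txg_83_s.snd h1 h2 h3) (pr_case (txg_86_s.snd h1 h2 h3) (pr_add (pr_add (pr_add (pr_addc (pr_scale 51223494549 566804000000 h1)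 (enc_rat _ 2352196642737 56680400000000)) (pr_cmul (enc_norm (txg_4.enc h1.l h2.l h3)) (pr_norm (pr_subr 3893939633011 56680400000000 (pr_neg (pr_scale 119380164651 566804000000 h1)))))) (pr_cmul (txg_63.enc h1.l h2.l h3) (pr_norm (pr_addc (pr_scale 251247 4081250 h1) (enc_rat _ 10301127 408125000))))) (pr_cmul (enc_norm (enc_subr 35468811 20000000 (enc_scale 171200989 10000000 (txg_4.enc h1.l h2.l h3)))) (pr_norm (pr_mul (pr_norm (txg_77_s.snd h1 h2 h3)) (pr_norm (pr_csub (enc_neg (enc_rat _ 41 100)) h1)))))) (pr_case (txg_113_s.snd h1 h2 h3) (pr_add (pr_add (pr_addc (pr_scale 24549 156250 h1) (enc_rat _ 34431573 500000000)) (pr_cmul (enc_norm (txg_4.enc h1.l h2.l h3)) (pr_norm (pr_subr 1148989 12500000 (pr_neg (pr_scale 66813 250000 h1)))))) (pr_cmul (enc_norm (enc_subr 26748587 100000000 (enc_neg (enc_scale 91709497 10000000 (txg_4.enc h1.l h2.l h3)))))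 (pr_norm (pr_mul (pr_norm (txg_86_s.snd h1 h2 h3)) (pr_norm (pr_csub (enc_neg (enc_rat _ 9 25)) h1)))))) (pr_add (pr_add (pr_addc (pr_scale 511399 3000000 h1) (enc_rat _ 7367013 100000000)) (pr_cmul (enc_norm (txg_4.enc h1.l h2.l h3)) (pr_norm (pr_addc (pr_scale 10169 40000 h1) (enc_rat _ 479063 5000000))))) (pr_cmul (enc_norm (enc_sub (enc_rat _ 143 400000) (enc_scale 52441 50000 (txg_4.enc h1.l h2.l h3)))) (pr_norm (pr_mul (pr_norm (txg_113_s.snd h1 h2 h3)) (pr_norm (pr_csub (enc_neg (enc_rat _ 3 10)) h1)))))))) (pr_case (txg_157_s.snd h1 h2 h3) (pr_case (txg_160_s.snd h1 h2 h3) (pr_add (pr_add (pr_addc (pr_scale 253639 1500000 h1) (enc_rat _ 7325803 100000000)) (pr_cmul (enc_norm (txg_4.enc h1.l h2.l h3)) (pr_norm (pr_addc (pr_scale 8363 25000 h1) (enc_rat _ 1199011 10000000))))) (pr_cmul (enc_norm (enc_sub (enc_rat _ 22539 1000000) (enc_scale 57891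 200000 (txg_4.enc h1.l h2.l h3)))) (pr_norm (pr_mul (pr_norm (txg_83_s.snd h1 h2 h3)) (pr_norm (pr_csub (enc_neg (enc_rat _ 6 25)) h1)))))) (pr_add (pr_add (pr_addc (pr_scale 970351 6000000 h1) (enc_rat _ 7148983 100000000)) (pr_cmul (enc_norm (txg_4.enc h1.l h2.l h3)) (pr_norm (pr_addc (pr_scale 195229 600000 h1) (enc_rat _ 1177079 10000000))))) (pr_cmul (enc_norm (enc_add (enc_scale 17671 40000 (txg_4.enc h1.l h2.l h3)) (enc_rat _ 100251 1000000))) (pr_norm (pr_mul (pr_norm (txg_160_s.snd h1 h2 h3)) (pr_norm (pr_csub (enc_neg (enc_rat _ 9 50)) h1))))))) (pr_case (txg_198_s.snd h1 h2 h3) (pr_add (pr_add (pr_addc (pr_scale 419677 3000000 h1) (enc_rat _ 844499 12500000)) (pr_cmul (enc_norm (txg_4.enc h1.l h2.l h3)) (pr_norm (pr_addc (pr_scale 9313 40000 h1) (enc_rat _ 1010477 10000000))))) (pr_cmul (enc_norm (enc_add (enc_scale 22017 20000 (txg_4.enc h1.l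 h2.l h3)) (enc_rat _ 527259 2000000))) (pr_norm (pr_mul (pr_norm (txg_157_s.snd h1 h2 h3)) (pr_norm (pr_csub (enc_neg (enc_rat _ 3 25)) h1)))))) (pr_add (pr_add (pr_addc (pr_scale 618019 6000000 h1) (enc_rat _ 3156661 50000000)) (pr_cmul (enc_norm (txg_4.enc h1.l h2.l h3)) (pr_norm (pr_addc (pr_scale 7121 100000 h1) (enc_rat _ 816539 10000000))))) (pr_cmul (enc_norm (enc_add (enc_scale 159271 100000 (txg_4.enc h1.l h2.l h3)) (enc_rat _ 351191 1000000))) (pr_norm (pr_mul (pr_norm (txg_198_s.snd h1 h2 h3)) (pr_norm (pr_csub (enc_neg (enc_rat _ 3 50)) h1))))))))) (pr_case (txg_234_s.snd h1 h2 h3) (pr_case (txg_235_s.snd h1 h2 h3) (pr_case (txg_236_s.snd h1 h2 h3) (pr_add (pr_add (pr_csub (enc_rat _ 1136709 20000000) (pr_scale 5879 3000000 h1)) (pr_cmul (enc_norm (txg_4.enc h1.l h2.l h3)) (pr_norm (pr_csub (enc_rat _ 1510591 20000000) (pr_scale 2469 80000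 h1))))) (pr_cmul (enc_norm (enc_add (enc_scale 10851 200000 (txg_4.enc h1.l h2.l h3)) (enc_rat _ 1398189 2000000))) (pr_norm (pr_mul (pr_norm (txg_80_s.snd h1 h2 h3)) (pr_norm (pr_csub (enc_rat _ 3 50) h1)))))) (pr_add (pr_add (pr_csub (enc_rat _ 3192399 50000000) (pr_scale 713011 6000000 h1)) (pr_cmul (enc_norm (txg_4.enc h1.l h2.l h3)) (pr_norm (pr_addc (pr_scale 3817 150000 h1) (enc_rat _ 72151 1000000))))) (pr_cmul (enc_norm (enc_sub (enc_rat _ 43979 80000) (enc_scale 52351 50000 (txg_4.enc h1.l h2.l h3)))) (pr_norm (pr_mul (pr_norm (txg_236_s.snd h1 h2 h3)) (pr_norm (pr_csub (enc_rat _ 3 25) h1))))))) (pr_case (txg_275_s.snd h1 h2 h3) (pr_add (pr_add (pr_csub (enc_rat _ 1715301 25000000) (pr_scale 475607 3000000 h1)) (pr_cmul (enc_norm (txg_4.enc h1.l h2.l h3)) (pr_norm (pr_addc (pr_scale 2123 18750 h1) (enc_rat _ 308087 5000000))))) (pr_cmul (enc_norm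 (enc_sub (enc_rat _ 1749 15625) (enc_scale 10399 25000 (txg_4.enc h1.l h2.l h3)))) (pr_norm (pr_mul (pr_norm (txg_235_s.snd h1 h2 h3)) (pr_norm (pr_csub (enc_rat _ 9 50) h1)))))) (pr_add (pr_add (pr_csub (enc_rat _ 3509121 50000000) (pr_scale 8363 50000 h1)) (pr_cmul (enc_norm (txg_4.enc h1.l h2.l h3)) (pr_norm (pr_addc (pr_scale 35317 300000 h1) (enc_rat _ 7601 125000))))) (pr_cmul (enc_norm (enc_add (enc_scale 68203 200000 (txg_4.enc h1.l h2.l h3)) (enc_rat _ 33469 1000000))) (pr_norm (pr_mul (pr_norm (txg_275_s.snd h1 h2 h3)) (pr_norm (pr_csub (enc_rat _ 6 25) h1)))))))) (pr_case (txg_314_s.snd h1 h2 h3) (pr_case (txg_315_s.snd h1 h2 h3) (pr_add (pr_add (pr_csub (enc_rat _ 3544989 50000000) (pr_scale 170249 1000000 h1)) (pr_cmul (enc_norm (txg_4.enc h1.l h2.l h3)) (pr_norm (pr_addc (pr_scale 1757 120000 h1) (enc_rat _ 213869 2500000))))) (pr_cmul (enc_norm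 (enc_add (enc_scale 68851 50000 (txg_4.enc h1.l h2.l h3)) (enc_rat _ 6539 400000))) (pr_norm (pr_mul (pr_norm (txg_234_s.snd h1 h2 h3)) (pr_norm (pr_csub (enc_rat _ 3 10) h1)))))) (pr_add (pr_add (pr_csub (enc_rat _ 7125363 100000000) (pr_scale 342857 2000000 h1)) (pr_cmul (enc_norm (txg_4.enc h1.l h2.l h3)) (pr_norm (pr_csub (enc_rat _ 1650601 10000000) (pr_scale 313 1250 h1))))) (pr_cmul (enc_norm (enc_add (enc_scale 608067 200000 (txg_4.enc h1.l h2.l h3)) (enc_rat _ 6627 2000000))) (pr_norm (pr_mul (pr_norm (txg_315_s.snd h1 h2 h3)) (pr_norm (pr_csub (enc_rat _ 9 25) h1))))))) (pr_case (txg_353_s.snd h1 h2 h3) (pr_add (pr_add (pr_csub (enc_rat _ 33684291 700000000) (pr_scale 750187 7000000 h1)) (pr_cmul (enc_norm (txg_4.enc h1.l h2.l h3)) (pr_norm (pr_csub (enc_rat _ 3968879 14000000) (pr_scale 405563 700000 h1))))) (pr_cmul (enc_norm (enc_subr 920827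 1000000 (enc_scale 41873 20000 (txg_4.enc h1.l h2.l h3)))) (pr_norm (pr_mul (pr_norm (txg_314_s.snd h1 h2 h3)) (pr_norm (pr_csub (enc_rat _ 43 100) h1)))))) (pr_add (pr_add (pr_csub (enc_rat _ 163 11200) (pr_scale 163 5600 h1)) (pr_cmul (enc_norm (txg_4.enc h1.l h2.l h3)) (pr_norm (pr_csub (enc_rat _ 171799 700000) (pr_scale 171799 350000 h1))))) (pr_cmul (enc_norm (enc_subr 3887 20000 (enc_neg (enc_scale 671647 200000 (txg_4.enc h1.l h2.l h3))))) (pr_norm (pr_mul (pr_norm (txg_353_s.snd h1 h2 h3)) (pr_norm (pr_csub (enc_rat _ 1 2) h1))))))))))))⟩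
noncomputable def l0q0_s : Sl2 l0q0 := ⟨_, fun h1 h2 => (pr_norm (txg_s.snd (pr_norm (pr_sub (pr_scale 3 4 h1) (pr_half (c1g_s.snd h1)))) (pr_nd (c1g_s.snd h1)) h2))⟩
noncomputable def kf0q1_10_s : Sl2 kf0q1_10 := ⟨_, fun h1 h2 => (pr_scale 3 2 h1)⟩
noncomputable def kf0q1_s : Sl2 kf0q1 := ⟨_, fun h1 h2 => (pr_norm (pr_add (pr_mul (pr_norm (pr_mul (pr_norm (pr_cadd (enc_pnc _ 1) (pr_nat 2 (c1g_s.snd h1)))) (pr_norm (pr_sub (kf0q1_10_s.snd h1 h2) (c1g_s.snd h1))))) (pr_nd (pr_inv (pr_nat 2 (pr_sub (pr_cadd (enc_pnc _ 1) (kf0q1_10_s.snd h1 h2)) (c1g_s.snd h1)))))) (pr_mul (pr_norm (pr_subn 1 h1)) (kcg_s.snd (pr_norm (pr_sub (pr_scale 3 4 h1) (pr_half (c1g_s.snd h1)))) h2))))⟩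
noncomputable def l0q1_s : Sl2 l0q1 := ⟨_, fun h1 h2 => (pr_norm (txg_s.snd (pr_norm (pr_sub (pr_scale 3 4 h1) (pr_half (c1g_s.snd h1)))) (pr_nd (c1g_s.snd h1)) h2))⟩
noncomputable def yag_s : Sl1 yag := ⟨_, fun h1 => (pr_sqrt (pr_scale 4 3 (pr_csub (enc_pnc _ 1) (pr_sq h1))))⟩
noncomputable def kfc02_s : Sl2 kfc02 := ⟨_, fun h1 h2 => (pr_norm (pr_add h1 (pr_mul (pr_norm (pr_subn 1 (yag_s.snd h1))) (kcg_s.snd (pr_nd (pr_neg h1)) h2))))⟩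
noncomputable def lc02_7_s : Sl2 lc02_7 := ⟨_, fun h1 h2 => (pr_scale 3 4 (yag_s.snd h1))⟩
noncomputable def lc02_8_s : Sl2 lc02_8 := ⟨_, fun h1 h2 => (pr_half h1)⟩
noncomputable def lc02_s : Sl2 lc02 := ⟨_, fun h1 h2 => (pr_norm (pr_sub (txg_s.snd (pr_nd (pr_neg h1)) (pr_norm (pr_add (lc02_7_s.snd h1 h2) (lc02_8_s.snd h1 h2))) h2) (txg_s.snd h1 (pr_norm (pr_sub (lc02_7_s.snd h1 h2) (lc02_8_s.snd h1 h2))) h2)))⟩
noncomputable def swg_s : Sl1 swg := ⟨_, fun h1 => (pr_sqrt (pr_csub (enc_pnc _ 1) (pr_scale 3 4 (pr_sq (pr_norm (pr_subn 1 h1))))))⟩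
noncomputable def cv1m_s : Sl1 cv1m := ⟨_, fun h1 => (pr_norm (pr_add (pr_scale 2 5 (c1g_s.snd h1)) (pr_scale 3 5 (pr_addc (swg_s.snd h1) (enc_rat _ 1 2)))))⟩
noncomputable def bf1q0_11_s : Sl2 bf1q0_11 := ⟨_, fun h1 h2 => (pr_csub (enc_pnc _ 1) (pr_scale 64933 50000 h1))⟩
noncomputable def bf1q0_s : Sl2 bf1q0 := ⟨_, fun h1 h2 => (pr_norm (pr_case (pr_subr 1 20 h1) (pr_case (pr_subr 3 200 h1) (pr_sub (bf1q0_11_s.snd h1 h2) (pr_cmul (enc_norm (bf1q0_3.enc h1.l h2)) (pr_nd (pr_scale 1 200 h1)))) (pr_add (bf1q0_11_s.snd h1 h2) (pr_cmul (enc_norm (bf1q0_3.enc h1.l h2)) (pr_norm (pr_csub (enc_rat _ 9 7000000) (pr_scale 89 17500 h1)))))) (pr_case (pr_subr 3 25 h1) (pr_add (pr_csub (enc_rat _ 14000003 14000000) (pr_scale 181813 140000 h1)) (pr_cmul (enc_norm (bf1q0_3.enc h1.l h2)) (pr_norm (pr_csub (enc_rat _ 19 7000000) (pr_scale 179 35000 h1))))) (pr_case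 (pr_subr 1 4 h1) (pr_add (pr_csub (enc_rat _ 130000069 130000000) (pr_scale 1688267 1300000 h1)) (pr_cmul (enc_norm (bf1q0_3.enc h1.l h2)) (pr_norm (pr_csub (enc_rat _ 1 520000) (pr_scale 83 16250 h1))))) (pr_add (pr_csub (enc_rat _ 1000001 1000000) (pr_scale 202917 156250 h1)) (pr_cmul (enc_norm (bf1q0_3.enc h1.l h2)) (pr_norm (pr_subr 1 1000000 (pr_neg (pr_scale 637 125000 h1))))))))))⟩
noncomputable def kf1q0_s : Sl2 kf1q0 := ⟨_, fun h1 h2 => (pr_norm (pr_mul (cv1m_s.snd h1) (bf1q0_s.snd h1 h2)))⟩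
noncomputable def bx1q0_s : Sl2 bx1q0 := ⟨_, fun h1 h2 => (pr_norm (pr_case (pr_subr 1 20 h1) (pr_case (pr_subr 3 200 h1) (pr_sub (pr_scale 32629 150000 h1) (pr_cmul (enc_norm (bx1q0_3.enc h1.l h2)) (pr_nd (pr_scale 111 5000 h1)))) (pr_add (pr_subr 1 14000000 (pr_scale 9517 43750 h1)) (pr_cmul (enc_norm (bx1q0_3.enc h1.l h2)) (pr_norm (pr_subr 3 200000 (pr_neg (pr_scale 53 2500 h1))))))) (pr_case (pr_subr 3 25 h1) (pr_add (pr_subr 1 2800000 (pr_scale 38069 175000 h1)) (pr_cmul (enc_norm (bx1q0_3.enc h1.l h2)) (pr_norm (pr_subr 37 700000 (pr_neg (pr_scale 1431 70000 h1)))))) (pr_case (pr_subr 1 4 h1) (pr_add (pr_subr 7 130000000 (pr_scale 56559 260000 h1)) (pr_cmul (enc_norm (bx1q0_3.enc h1.l h2)) (pr_norm (pr_subr 677 6500000 (pr_neg (pr_scale 1301 65000 h1)))))) (pr_add (pr_addc (pr_scale 543833 2500000 h1) (enc_rat _ 3 10000000)) (pr_cmul (enc_norm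 (bx1q0_3.enc h1.l h2)) (pr_norm (pr_subr 69 500000 (pr_neg (pr_scale 497 25000 h1))))))))))⟩
noncomputable def l1q0_s : Sl2 l1q0 := ⟨_, fun h1 h2 => (pr_norm (pr_mul (cv1m_s.snd h1) (bx1q0_s.snd h1 h2)))⟩
noncomputable def bf1q1_s : Sl2 bf1q1 := ⟨_, fun h1 h2 => (pr_norm (pr_case (pr_subr 22 25 h1) (pr_case (pr_subr 3 4 h1) (pr_add (pr_csub (enc_rat _ 13405911 10000000) (pr_scale 1460571 2500000 h1)) (pr_cmul (enc_norm (bf1q1_3.enc h1.l h2)) (pr_norm (pr_subr 32643 1000000 (pr_scale 13157 250000 h1))))) (pr_add (pr_csub (enc_rat _ 174276849 130000000) (pr_scale 759497 1300000 h1)) (pr_cmul (enc_norm (bf1q1_3.enc h1.l h2)) (pr_norm (pr_subr 426561 13000000 (pr_scale 6871 130000 h1)))))) (pr_case (pr_subr 19 20 h1) (pr_add (pr_csub (enc_rat _ 536237 400000) (pr_scale 58423 100000 h1)) (pr_cmul (enc_norm (bf1q1_3.enc h1.l h2)) (pr_norm (pr_subr 231467 7000000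 (pr_scale 93 1750 h1))))) (pr_case (pr_subr 197 200 h1) (pr_add (pr_csub (enc_rat _ 9384157 7000000) (pr_scale 204481 350000 h1)) (pr_cmul (enc_norm (bf1q1_3.enc h1.l h2)) (pr_norm (pr_subr 232987 7000000 (pr_scale 467 8750 h1))))) (pr_add (pr_csub (enc_rat _ 1608707 1200000) (pr_scale 43817 75000 h1)) (pr_cmul (enc_norm (bf1q1_3.enc h1.l h2)) (pr_norm (pr_subr 10033 300000 (pr_scale 803 15000 h1)))))))))⟩
noncomputable def kf1q1_s : Sl2 kf1q1 := ⟨_, fun h1 h2 => (pr_norm (pr_mul (cv1m_s.snd h1) (bf1q1_s.snd h1 h2)))⟩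
noncomputable def bx1q1_s : Sl2 bx1q1 := ⟨_, fun h1 h2 => (pr_norm (pr_case (pr_subr 22 25 h1) (pr_case (pr_subr 3 4 h1) (pr_add (pr_csub (enc_rat _ 74177 5000000) (pr_scale 18887 2500000 h1)) (pr_cmul (enc_norm (bx1q1_3.enc h1.l h2)) (pr_norm (pr_subr 41359 125000 (pr_scale 112391 250000 h1))))) (pr_add (pr_csub (enc_rat _ 1931359 130000000) (pr_scale 4929 650000 h1)) (pr_cmul (enc_norm (bx1q1_3.enc h1.l h2)) (pr_norm (pr_subr 4315187 13000000 (pr_scale 14657 32500 h1)))))) (pr_case (pr_subr 19 20 h1) (pr_add (pr_csub (enc_rat _ 208553 14000000) (pr_scale 267 35000 h1)) (pr_cmul (enc_norm (bx1q1_3.enc h1.l h2)) (pr_norm (pr_subr 333623 1000000 (pr_scale 4529 10000 h1))))) (pr_case (pr_subr 197 200 h1) (pr_add (pr_csub (enc_rat _ 8371 560000) (pr_scale 2689 350000 h1)) (pr_cmul (enc_norm (bx1q1_3.enc h1.l h2)) (pr_norm (pr_subr 586809 1750000 (pr_scale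 7957 17500 h1))))) (pr_add (pr_csub (enc_rat _ 18731 1250000) (pr_scale 193 25000 h1)) (pr_cmul (enc_norm (bx1q1_3.enc h1.l h2)) (pr_norm (pr_subr 1010827 3000000 (pr_scale 1369 3000 h1)))))))))⟩
noncomputable def l1q1_s : Sl2 l1q1 := ⟨_, fun h1 h2 => (pr_norm (pr_mul (cv1m_s.snd h1) (bx1q1_s.snd h1 h2)))⟩
noncomputable def cv1p_s : Sl1 cv1p := ⟨_, fun h1 => (pr_norm (pr_add (pr_scale 2 5 (c1g_s.snd h1)) (pr_scale 3 5 (pr_subr 1 2 (swg_s.snd h1)))))⟩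
noncomputable def bf1q2_52_s : Sl2 bf1q2_52 := ⟨_, fun h1 h2 => (pr_scale 500819 2000000 h1)⟩
noncomputable def bf1q2_s : Sl2 bf1q2 := ⟨_, fun h1 h2 => (pr_norm (pr_case (pr_subr 27 25 h1) (pr_case (pr_subr 203 200 h1) (pr_add (pr_addc (pr_scale 6257 25000 h1) (enc_rat _ 18743 25000)) (pr_cmul (enc_norm (bf1q2_3.enc h1.l h2)) (pr_norm (pr_subr 127 7500 (pr_scale 127 7500 h1))))) (pr_case (pr_subr 21 20 h1) (pr_add (pr_addc (pr_scale 8763 35000 h1) (enc_rat _ 468517 625000)) (pr_cmul (enc_norm (bf1q2_3.enc h1.l h2)) (pr_norm (pr_subr 163 500000 (pr_scale 1 1750 h1))))) (pr_add (pr_addc (pr_scale 75127 300000 h1) (enc_rat _ 7495727 10000000)) (pr_cmul (enc_norm (bf1q2_3.enc h1.l h2)) (pr_norm (pr_csub (enc_rat _ 1303 125000) (pr_scale 29 3000 h1))))))) (pr_case (pr_subr 231 200 h1) (pr_case (pr_subr 577 500 h1) (pr_add (pr_addc (pr_scale 18533163 74000000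 h1) (enc_rat _ 693329957 925000000)) (pr_cmul (enc_norm (bf1q2_3.enc h1.l h2)) (pr_norm (pr_subr 577 2312500 (pr_scale 1 4625 h1))))) (pr_addc (bf1q2_52_s.snd h1 h2) (enc_rat _ 1499181 2000000))) (pr_case (pr_subr 13 10 h1) (pr_add (pr_addc (pr_scale 14523731 58000000 h1) (enc_rat _ 434762721 580000000)) (pr_cmul (enc_norm (bf1q2_3.enc h1.l h2)) (pr_norm (pr_csub (enc_rat _ 497343 29000000) (pr_scale 2153 145000 h1))))) (pr_add (pr_addc (bf1q2_52_s.snd h1 h2) (enc_rat _ 14991809 20000000)) (pr_cmul (enc_norm (bf1q2_3.enc h1.l h2)) (pr_norm (pr_csub (enc_rat _ 2797 400000) (pr_scale 1407 200000 h1)))))))))⟩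
noncomputable def kf1q2_s : Sl2 kf1q2 := ⟨_, fun h1 h2 => (pr_norm (pr_mul (cv1p_s.snd h1) (bf1q2_s.snd h1 h2)))⟩
noncomputable def bx1q2_s : Sl2 bx1q2 := ⟨_, fun h1 h2 => (pr_norm (pr_case (pr_subr 27 25 h1) (pr_case (pr_subr 203 200 h1) (pr_add (pr_subr 173 5000 (pr_scale 173 5000 h1)) (pr_cmul (enc_norm (bx1q2_3.enc h1.l h2)) (pr_norm (pr_subr 5033 7500 (pr_scale 5033 7500 h1))))) (pr_case (pr_subr 21 20 h1) (pr_add (pr_subr 85891 2500000 (pr_scale 859 25000 h1)) (pr_cmul (enc_norm (bx1q2_3.enc h1.l h2)) (pr_norm (pr_subr 20357 31250 (pr_scale 2281 3500 h1))))) (pr_add (pr_subr 289909 10000000 (pr_scale 117 4000 h1)) (pr_cmul (enc_norm (bx1q2_3.enc h1.l h2)) (pr_norm (pr_subr 429369 1000000 (pr_scale 13207 30000 h1))))))) (pr_case (pr_subr 231 200 h1) (pr_casec (pr_subr 577 500 h1) (pr_add (pr_subr 6167593 370000000 (pr_scale 39607 2220000 h1)) (pr_cmul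 (enc_norm (bx1q2_3.enc h1.l h2)) (pr_norm (pr_subr 6741609 37000000 (pr_scale 7821 37000 h1))))) (enc_add (enc_rat _ 5879 1500000) (enc_scale 2469 40000 (bx1q2_3.enc h1.l h2)))) (pr_case (pr_subr 13 10 h1) (pr_add (pr_addc (pr_scale 1 870000 h1) (enc_rat _ 681733 174000000)) (pr_cmul (enc_norm (bx1q2_3.enc h1.l h2)) (pr_norm (pr_csub (enc_rat _ 1879191 29000000) (pr_scale 193 72500 h1))))) (pr_add (pr_addc (pr_scale 1 500000 h1) (enc_rat _ 39169 10000000)) (pr_cmul (enc_norm (bx1q2_3.enc h1.l h2)) (pr_norm (pr_csub (enc_rat _ 26483 400000) (pr_scale 749 200000 h1)))))))))⟩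
noncomputable def l1q2_s : Sl2 l1q2 := ⟨_, fun h1 h2 => (pr_norm (pr_mul (cv1p_s.snd h1) (bx1q2_s.snd h1 h2)))⟩
noncomputable def cv1r_s : Sl1 cv1r := ⟨_, fun h1 => (pr_norm (pr_scale 3 5 (pr_subr 1 2 (swg_s.snd h1))))⟩
noncomputable def bf1q3_34_s : Sl2 bf1q3_34 := ⟨_, fun h1 h2 => (pr_subr 445706273 70000000 (pr_scale 671577 175000 h1))⟩
noncomputable def bf1q3_s : Sl2 bf1q3 := ⟨_, fun h1 h2 => (pr_norm (pr_case (pr_subr 47 25 h1) (pr_case (pr_subr 7 4 h1) (pr_add (pr_subr 63672323 10000000 (pr_scale 9593957 2500000 h1)) (pr_cmul (enc_norm (bf1q3_3.enc h1.l h2)) (pr_norm (pr_subr 1859 500000 (pr_scale 121 62500 h1))))) (pr_add (pr_subr 827740087 130000000 (pr_scale 4988857 1300000 h1)) (pr_cmul (enc_norm (bf1q3_3.enc h1.l h2)) (pr_norm (pr_subr 9643 2600000 (pr_scale 251 130000 h1)))))) (pr_case (pr_subr 39 20 h1) (pr_add (bf1q3_34_s.snd h1 h2) (pr_cmul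 (enc_norm (bf1q3_3.enc h1.l h2)) (pr_norm (pr_subr 25933 7000000 (pr_scale 27 14000 h1))))) (pr_case (pr_subr 397 200 h1) (pr_add (bf1q3_34_s.snd h1 h2) (pr_cmul (enc_norm (bf1q3_3.enc h1.l h2)) (pr_norm (pr_subr 1633 437500 (pr_scale 17 8750 h1))))) (pr_add (pr_subr 15918067 2500000 (pr_scale 191879 50000 h1)) (pr_cmul (enc_norm (bf1q3_3.enc h1.l h2)) (pr_norm (pr_subr 11141 3000000 (pr_scale 29 15000 h1)))))))))⟩
noncomputable def kf1q3_s : Sl2 kf1q3 := ⟨_, fun h1 h2 => (pr_norm (pr_mul (cv1r_s.snd h1) (bf1q3_s.snd h1 h2)))⟩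
noncomputable def bx1q3_s : Sl2 bx1q3 := ⟨_, fun h1 h2 => (pr_norm (pr_case (pr_subr 47 25 h1) (pr_case (pr_subr 7 4 h1) (pr_add (pr_subr 3745481 2000000 (pr_scale 2653813 2500000 h1)) (pr_cmul (enc_norm (bx1q3_3.enc h1.l h2)) (pr_norm (pr_csub (enc_rat _ 326283 1000000) (pr_scale 42213 250000 h1))))) (pr_add (pr_subr 121728241 65000000 (pr_scale 86249 81250 h1)) (pr_cmul (enc_norm (bx1q3_3.enc h1.l h2)) (pr_norm (pr_csub (enc_rat _ 529187 1625000) (pr_scale 1369 8125 h1)))))) (pr_case (pr_subr 39 20 h1) (pr_add (pr_subr 65545853 35000000 (pr_scale 743067 700000 h1)) (pr_cmul (enc_norm (bx1q3_3.enc h1.l h2)) (pr_norm (pr_csub (enc_rat _ 569167 1750000) (pr_scale 11779 70000 h1))))) (pr_case (pr_subr 397 200 h1) (pr_add (pr_subr 131091901 70000000 (pr_scale 185767 175000 h1)) (pr_cmul (enc_norm (bx1q3_3.enc h1.l h2)) (pr_norm (pr_csub (enc_rat _ 325099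 1000000) (pr_scale 841 5000 h1))))) (pr_add (pr_subr 561823 300000 (pr_scale 159229 150000 h1)) (pr_cmul (enc_norm (bx1q3_3.enc h1.l h2)) (pr_norm (pr_csub (enc_rat _ 9749 30000) (pr_scale 1261 7500 h1)))))))))⟩
noncomputable def l1q3_s : Sl2 l1q3 := ⟨_, fun h1 h2 => (pr_norm (pr_mul (cv1r_s.snd h1) (bx1q3_s.snd h1 h2)))⟩
noncomputable def cv2m_s : Sl1 cv2m := ⟨_, fun h1 => (pr_norm (pr_addc (swg_s.snd h1) (enc_rat _ 1 2)))⟩
noncomputable def bf2q0_s : Sl2 bf2q0 := ⟨_, fun h1 h2 => (pr_norm (pr_case (pr_subr 1 20 h1) (pr_case (pr_subr 3 200 h1) (pr_sub (pr_csub (enc_pnc _ 1) (pr_scale 604597 150000 h1)) (pr_cmul (enc_norm (bf2q0_3.enc h1.l h2)) (pr_nd (pr_scale 3 200 h1)))) (pr_add (pr_csub (enc_rat _ 35000001 35000000) (pr_scale 1410727 350000 h1)) (pr_cmul (enc_norm (bf2q0_3.enc h1.l h2)) (pr_norm (pr_csub (enc_rat _ 9 7000000) (pr_scale 66 4375 h1))))))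 (pr_case (pr_subr 3 25 h1) (pr_add (pr_csub (enc_rat _ 70000017 70000000) (pr_scale 2821457 700000 h1)) (pr_cmul (enc_norm (bf2q0_3.enc h1.l h2)) (pr_norm (pr_csub (enc_rat _ 59 7000000) (pr_scale 533 35000 h1))))) (pr_case (pr_subr 1 4 h1) (pr_add (pr_csub (enc_rat _ 130000083 130000000) (pr_scale 5239853 1300000 h1)) (pr_cmul (enc_norm (bf2q0_3.enc h1.l h2)) (pr_norm (pr_csub (enc_rat _ 413 13000000) (pr_scale 401 26000 h1))))) (pr_add (pr_csub (enc_rat _ 5000007 5000000) (pr_scale 1259581 312500 h1)) (pr_cmul (enc_norm (bf2q0_3.enc h1.l h2)) (pr_norm (pr_csub (enc_rat _ 67 1000000) (pr_scale 3891 250000 h1)))))))))⟩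
noncomputable def kf2q0_s : Sl2 kf2q0 := ⟨_, fun h1 h2 => (pr_norm (pr_mul (cv2m_s.snd h1) (bf2q0_s.snd h1 h2)))⟩
noncomputable def bx2q0_s : Sl2 bx2q0 := ⟨_, fun h1 h2 => (pr_norm (pr_case (pr_subr 1 20 h1) (pr_case (pr_subr 3 200 h1) (pr_sub (pr_scale 22061 150000 h1) (pr_cmul (enc_norm (bx2q0_3.enc h1.l h2)) (pr_nd (pr_scale 5917 15000 h1)))) (pr_add (pr_subr 1 7000000 (pr_scale 51479 350000 h1)) (pr_cmul (enc_norm (bx2q0_3.enc h1.l h2)) (pr_norm (pr_subr 1 1750000 (pr_neg (pr_scale 2761 7000 h1))))))) (pr_case (pr_subr 3 25 h1) (pr_add (pr_subr 9 7000000 (pr_scale 51487 350000 h1)) (pr_cmul (enc_norm (bx2q0_3.enc h1.l h2)) (pr_norm (pr_subr 3 250000 (pr_neg (pr_scale 1971 5000 h1)))))) (pr_case (pr_subr 1 4 h1) (pr_add (pr_subr 309 65000000 (pr_scale 7651 52000 h1)) (pr_cmul (enc_norm (bx2q0_3.enc h1.l h2)) (pr_norm (pr_subr 33 812500 (pr_neg (pr_scale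 10243 26000 h1)))))) (pr_add (pr_subr 21 2000000 (pr_scale 183947 1250000 h1)) (pr_cmul (enc_norm (bx2q0_3.enc h1.l h2)) (pr_norm (pr_csub (enc_rat _ 7 250000) (pr_scale 98559 250000 h1)))))))))⟩
noncomputable def l2q0_s : Sl2 l2q0 := ⟨_, fun h1 h2 => (pr_norm (pr_mul (cv2m_s.snd h1) (bx2q0_s.snd h1 h2)))⟩
noncomputable def gsg_s : Sl1 gsg := ⟨_, fun h1 => (pr_sqrt (pr_csub (enc_pnc _ 1) (pr_scale 3 4 (pr_sq h1))))⟩
noncomputable def esg_s : Sl1 esg := ⟨_, fun h1 => (pr_norm (pr_subn 1 (pr_add (pr_half h1) (gsg_s.snd h1))))⟩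
noncomputable def kf2q1_66_s : Sl2 kf2q1_66 := ⟨_, fun h1 h2 => (pr_csub (enc_pnc _ 1) h1)⟩
noncomputable def kf2q1_67_s : Sl2 kf2q1_67 := ⟨_, fun h1 h2 => (gsg_s.snd (pr_norm (kf2q1_66_s.snd h1 h2)))⟩
noncomputable def kf2q1_73_s : Sl2 kf2q1_73 := ⟨_, fun h1 h2 => (pr_scale 3 2 (kf2q1_66_s.snd h1 h2))⟩
noncomputable def kf2q1_75_s : Sl2 kf2q1_75 := ⟨_, fun h1 h2 => (pr_cadd (enc_pnc _ 1) (kf2q1_67_s.snd h1 h2))⟩
noncomputable def kf2q1_s : Sl2 kf2q1 := ⟨_, fun h1 h2 => (pr_norm (pr_case (pr_subr 59 64 h1) (pr_mul (cv2m_s.snd h1) (pr_norm (pr_case (pr_subr 3 4 h1) (pr_add (pr_subr 36058193 10000000 (pr_scale 6183471 1250000 h1)) (pr_cmul (enc_norm (kf2q1_4.enc h1.l h2)) (pr_norm (pr_csub (enc_rat _ 14923 1000000) (pr_scale 2223 125000 h1))))) (pr_case (pr_subr 22 25 h1) (pr_add (pr_subr 468756671 130000000 (pr_scale 1607703 325000 h1)) (pr_cmul (enc_norm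 (kf2q1_4.enc h1.l h2)) (pr_norm (pr_csub (enc_rat _ 19423 1300000) (pr_scale 463 26000 h1))))) (pr_add (pr_subr 301987410413 83750000000 (pr_scale 1035731569 209375000 h1)) (pr_cmul (enc_norm (kf2q1_4.enc h1.l h2)) (pr_norm (pr_csub (enc_rat _ 47969133 4187500000) (pr_scale 579841 41875000 h1))))))))) (pr_case (pr_subr 31 32 h1) (pr_add (pr_add (pr_mul (pr_norm (pr_mul (pr_norm (pr_sub (kf2q1_67_s.snd h1 h2) (kf2q1_73_s.snd h1 h2))) (pr_norm (kf2q1_75_s.snd h1 h2)))) (pr_nd (pr_inv (pr_sub (kf2q1_75_s.snd h1 h2) (kf2q1_73_s.snd h1 h2))))) (pr_mul (pr_norm (pr_sub (pr_half (kf2q1_66_s.snd h1 h2)) (pr_mul (pr_nd (pr_scale 3 4 (pr_sq (pr_norm (kf2q1_66_s.snd h1 h2))))) (pr_nd (pr_inv (kf2q1_67_s.snd h1 h2)))))) (pr_nd (pr_inv (pr_nat 2 (esg_s.snd (pr_norm (kf2q1_66_s.snd h1 h2)))))))) (pr_mul (kcg_s.snd (pr_norm (pr_sub (pr_scale 3 4 (kf2q1_66_s.snd h1 h2))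 (pr_half (kf2q1_67_s.snd h1 h2)))) h2) (pr_norm (kf2q1_66_s.snd h1 h2)))) (pr_mul (cv2m_s.snd h1) (pr_norm (pr_case (pr_subr 197 200 h1) (pr_add (pr_addc (pr_scale 45702967 81250000 h1) (enc_rat _ 7125826751 16250000000)) (pr_cmul (enc_norm (kf2q1_4.enc h1.l h2)) (pr_norm (pr_csub (enc_rat _ 513363 325000000) (pr_scale 3279 1625000 h1))))) (pr_add (pr_addc (pr_scale 7427 15000 h1) (enc_rat _ 7573 15000)) (pr_cmul (enc_norm (kf2q1_4.enc h1.l h2)) (pr_norm (pr_subr 17 625 (pr_scale 17 625 h1)))))))))))⟩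
noncomputable def qsg_s : Sl1 qsg := ⟨_, fun h1 => (pr_norm (pr_mul (pr_norm (pr_csub (enc_pnc _ 1) (gsg_s.snd h1))) (pr_norm (pr_subn 1 (pr_nat 2 (gsg_s.snd h1))))))⟩
noncomputable def l2q1_81_s : Sl2 l2q1_81 := ⟨_, fun h1 h2 => (pr_csub (enc_pnc _ 1) h1)⟩
noncomputable def l2q1_s : Sl2 l2q1 := ⟨_, fun h1 h2 => (pr_norm (pr_case (pr_subr 59 64 h1) (pr_mul (cv2m_s.snd h1) (pr_norm (pr_case (pr_subr 3 4 h1) (pr_add (pr_csub (enc_rat _ 799773 10000000) (pr_scale 213777 2500000 h1)) (pr_cmul (enc_norm (l2q1_4.enc h1.l h2)) (pr_norm (pr_csub (enc_rat _ 1300751 1000000) (pr_scale 17639 12500 h1))))) (pr_case (pr_subr 22 25 h1) (pr_add (pr_csub (enc_rat _ 10396221 130000000) (pr_scale 111153 1300000 h1)) (pr_cmul (enc_norm (l2q1_4.enc h1.l h2)) (pr_norm (pr_csub (enc_rat _ 162517 125000) (pr_scale 14103 10000 h1))))) (pr_add (pr_add (pr_csub (enc_rat _ 6696698767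 83750000000) (pr_scale 35799167 418750000 h1)) (pr_cmul (enc_norm (l2q1_4.enc h1.l h2)) (pr_norm (pr_csub (enc_rat _ 504877379 523437500) (pr_scale 43086989 41875000 h1))))) (pr_cmul (l2q1_43.enc h1.l h2) (pr_norm (pr_csub (enc_rat _ 27126 1046875) (pr_scale 1233 41875 h1))))))))) (pr_case (pr_subr 31 32 h1) (pr_sub (qsg_s.snd (pr_norm (l2q1_81_s.snd h1 h2))) (pr_mul (pr_norm (pr_nat 2 (pr_subc (l2q1_81_s.snd h1 h2) h2))) (pr_norm (pr_mul (esg_s.snd (pr_norm (l2q1_81_s.snd h1 h2))) (kcg_s.snd (pr_norm (pr_sub (pr_scale 3 4 (l2q1_81_s.snd h1 h2)) (pr_half (gsg_s.snd (pr_norm (l2q1_81_s.snd h1 h2)))))) h2))))) (pr_mul (cv2m_s.snd h1) (pr_norm (pr_case (pr_subr 197 200 h1) (pr_add (pr_add (pr_csub (enc_rat _ 457320783 32500000000) (pr_scale 2290839 162500000 h1)) (pr_cmul (enc_norm (l2q1_4.enc h1.l h2)) (pr_norm (pr_csub (enc_rat _ 37567341 130000000) (pr_scale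 189023 650000 h1))))) (pr_cmul (l2q1_43.enc h1.l h2) (pr_norm (pr_subr 36051 1625000 (pr_scale 183 8125 h1))))) (pr_add (pr_csub (enc_rat _ 309 25000) (pr_scale 309 25000 h1)) (pr_cmul (enc_norm (l2q1_4.enc h1.l h2)) (pr_norm (pr_csub (enc_rat _ 2537 15000) (pr_scale 2537 15000 h1)))))))))))⟩
noncomputable def cv2p_s : Sl1 cv2p := ⟨_, fun h1 => (pr_norm (pr_subr 1 2 (swg_s.snd h1)))⟩
noncomputable def kf2q2_67_s : Sl2 kf2q2_67 := ⟨_, fun h1 h2 => (pr_subn 1 h1)⟩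
noncomputable def kf2q2_68_s : Sl2 kf2q2_68 := ⟨_, fun h1 h2 => (gsg_s.snd (pr_norm (kf2q2_67_s.snd h1 h2)))⟩
noncomputable def kf2q2_74_s : Sl2 kf2q2_74 := ⟨_, fun h1 h2 => (pr_scale 3 2 (kf2q2_67_s.snd h1 h2))⟩
noncomputable def kf2q2_76_s : Sl2 kf2q2_76 := ⟨_, fun h1 h2 => (pr_cadd (enc_pnc _ 1) (kf2q2_68_s.snd h1 h2))⟩
noncomputable def kf2q2_s : Sl2 kf2q2 := ⟨_, fun h1 h2 => (pr_norm (pr_case (pr_subr 33 32 h1) (pr_mul (cv2p_s.snd h1) (pr_norm (pr_case (pr_subr 203 200 h1) (pr_add (pr_csub (enc_rat _ 157991 150000) (pr_scale 7991 150000 h1)) (pr_cmul (enc_norm (kf2q2_4.enc h1.l h2)) (pr_norm (pr_csub (enc_rat _ 137 3000) (pr_scale 137 3000 h1))))) (pr_add (pr_csub (enc_rat _ 106976101 101562500) (pr_scale 866169 16250000 h1)) (pr_cmul (enc_norm (kf2q2_4.enc h1.l h2)) (pr_norm (pr_csub (enc_rat _ 87333087 3250000000) (pr_scale 441179 16250000 h1))))))))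 (pr_case (pr_subr 69 64 h1) (pr_add (pr_sub (pr_mul (pr_norm (pr_mul (pr_norm (pr_sub (kf2q2_68_s.snd h1 h2) (kf2q2_74_s.snd h1 h2))) (pr_norm (kf2q2_76_s.snd h1 h2)))) (pr_nd (pr_inv (pr_sub (kf2q2_76_s.snd h1 h2) (kf2q2_74_s.snd h1 h2))))) (pr_mul (pr_norm (pr_sub (pr_half (kf2q2_67_s.snd h1 h2)) (pr_mul (pr_nd (pr_scale 3 4 (pr_sq (pr_norm (kf2q2_67_s.snd h1 h2))))) (pr_nd (pr_inv (kf2q2_68_s.snd h1 h2)))))) (pr_nd (pr_inv (pr_nat 2 (esg_s.snd (pr_norm (kf2q2_67_s.snd h1 h2)))))))) (pr_mul (kcg_s.snd (pr_norm (pr_sub (pr_scale 3 4 (kf2q2_67_s.snd h1 h2)) (pr_half (kf2q2_68_s.snd h1 h2)))) h2) (pr_norm (kf2q2_67_s.snd h1 h2)))) (pr_mul (cv2p_s.snd h1) (pr_norm (pr_case (pr_subr 29 25 h1) (pr_add (pr_csub (enc_rat _ 1623277181641 163750000000) (pr_scale 6777518763 818750000 h1)) (pr_cmul (enc_norm (kf2q2_4.enc h1.l h2)) (pr_norm (pr_subr 115889369 8187500000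 (pr_scale 96948 10234375 h1))))) (pr_case (pr_subr 13 10 h1) (pr_add (pr_csub (enc_rat _ 3965257 400000) (pr_scale 1655577 200000 h1)) (pr_cmul (enc_norm (kf2q2_4.enc h1.l h2)) (pr_norm (pr_subr 5301 250000 (pr_scale 311 20000 h1))))) (pr_add (pr_csub (enc_rat _ 198262837 20000000) (pr_scale 16555769 2000000 h1)) (pr_cmul (enc_norm (kf2q2_4.enc h1.l h2)) (pr_norm (pr_subr 661 31250 (pr_scale 1551 100000 h1))))))))))))⟩
noncomputable def l2q2_80_s : Sl2 l2q2_80 := ⟨_, fun h1 h2 => (pr_subn 1 h1)⟩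
noncomputable def l2q2_s : Sl2 l2q2 := ⟨_, fun h1 h2 => (pr_norm (pr_case (pr_subr 33 32 h1) (pr_mul (cv2p_s.snd h1) (pr_norm (pr_case (pr_subr 203 200 h1) (pr_add (pr_subr 1123 30000 (pr_scale 1123 30000 h1)) (pr_cmul (enc_norm (l2q2_4.enc h1.l h2)) (pr_norm (pr_subr 4963 7500 (pr_scale 4963 7500 h1))))) (pr_add (pr_add (pr_subr 683673619 16250000000 (pr_scale 1706399 40625000 h1)) (pr_cmul (enc_norm (l2q2_4.enc h1.l h2)) (pr_norm (pr_subr 1188916211 1625000000 (pr_scale 5936187 8125000 h1))))) (pr_cmul (l2q2_31.enc h1.l h2) (pr_norm (pr_csub (enc_rat _ 2233 32500) (pr_scale 22 325 h1)))))))) (pr_case (pr_subr 69 64 h1) (pr_sub (qsg_s.snd (pr_norm (l2q2_80_s.snd h1 h2))) (pr_mul (pr_norm (pr_nat 2 (pr_subc (l2q2_80_s.snd h1 h2) h2))) (pr_norm (pr_mul (esg_s.snd (pr_norm (l2q2_80_s.snd h1 h2))) (kcg_s.snd (pr_norm (pr_sub (pr_scale 3 4 (l2q2_80_s.snd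 h1 h2)) (pr_half (gsg_s.snd (pr_norm (l2q2_80_s.snd h1 h2)))))) h2))))) (pr_mul (cv2p_s.snd h1) (pr_norm (pr_case (pr_subr 29 25 h1) (pr_add (pr_add (pr_subr 12426033989 163750000000 (pr_scale 30126851 409375000 h1)) (pr_cmul (enc_norm (l2q2_4.enc h1.l h2)) (pr_norm (pr_csub (enc_rat _ 2514575809 4093750000) (pr_scale 42994223 81875000 h1))))) (pr_cmul (l2q2_31.enc h1.l h2) (pr_norm (pr_subr 21518 409375 (pr_scale 742 16375 h1))))) (pr_case (pr_subr 13 10 h1) (pr_add (pr_subr 5312401 70000000 (pr_scale 51519 700000 h1)) (pr_cmul (enc_norm (l2q2_4.enc h1.l h2)) (pr_norm (pr_subr 32797 500000 (pr_scale 1219 20000 h1))))) (pr_add (pr_subr 18973 250000 (pr_scale 73599 1000000 h1)) (pr_cmul (enc_norm (l2q2_4.enc h1.l h2)) (pr_norm (pr_subr 130239 2000000 (pr_scale 12117 200000 h1))))))))))))⟩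
noncomputable def cv2r_s : Sl1 cv2r := ⟨_, fun h1 => (pr_norm (pr_subr 1 2 (swg_s.snd h1)))⟩
noncomputable def bf2q3_s : Sl2 bf2q3 := ⟨_, fun h1 h2 => (pr_norm (pr_case (pr_subr 47 25 h1) (pr_case (pr_subr 7 4 h1) (pr_add (pr_subr 178861789 10000000 (pr_scale 7758867 625000 h1)) (pr_cmul (enc_norm (bf2q3_3.enc h1.l h2)) (pr_norm (pr_subr 783 500000 (pr_scale 97 125000 h1))))) (pr_add (pr_subr 2325203369 130000000 (pr_scale 4034611 325000 h1)) (pr_cmul (enc_norm (bf2q3_3.enc h1.l h2)) (pr_norm (pr_subr 20379 13000000 (pr_scale 101 130000 h1)))))) (pr_case (pr_subr 39 20 h1) (pr_add (pr_subr 1252032511 70000000 (pr_scale 8689931 700000 h1)) (pr_cmul (enc_norm (bf2q3_3.enc h1.l h2)) (pr_norm (pr_subr 11089 7000000 (pr_scale 11 14000 h1))))) (pr_case (pr_subr 397 200 h1) (pr_add (pr_subr 313008079 17500000 (pr_scale 868993 70000 h1)) (pr_cmul (enc_norm (bf2q3_3.enc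 h1.l h2)) (pr_norm (pr_subr 5447 3500000 (pr_scale 27 35000 h1))))) (pr_add (pr_subr 134146433 7500000 (pr_scale 1862129 150000 h1)) (pr_cmul (enc_norm (bf2q3_3.enc h1.l h2)) (pr_norm (pr_subr 2221 1500000 (pr_scale 11 15000 h1)))))))))⟩
noncomputable def kf2q3_s : Sl2 kf2q3 := ⟨_, fun h1 h2 => (pr_norm (pr_mul (cv2r_s.snd h1) (bf2q3_s.snd h1 h2)))⟩
noncomputable def bx2q3_s : Sl2 bx2q3 := ⟨_, fun h1 h2 => (pr_norm (pr_case (pr_subr 47 25 h1) (pr_case (pr_subr 7 4 h1) (pr_add (pr_subr 2109351 10000000 (pr_scale 235193 2500000 h1)) (pr_cmul (enc_norm (bx2q3_3.enc h1.l h2)) (pr_norm (pr_csub (enc_rat _ 410037 1000000) (pr_scale 52383 250000 h1))))) (pr_add (pr_subr 1096853 5200000 (pr_scale 122299 1300000 h1)) (pr_cmul (enc_norm (bx2q3_3.enc h1.l h2)) (pr_norm (pr_csub (enc_rat _ 1331257 3250000) (pr_scale 3401 16250 h1)))))) (pr_case (pr_subr 39 20 h1)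 (pr_add (pr_subr 14765271 70000000 (pr_scale 65853 700000 h1)) (pr_cmul (enc_norm (bx2q3_3.enc h1.l h2)) (pr_norm (pr_csub (enc_rat _ 179073 437500) (pr_scale 14639 70000 h1))))) (pr_case (pr_subr 397 200 h1) (pr_add (pr_subr 7382733 35000000 (pr_scale 32927 350000 h1)) (pr_cmul (enc_norm (bx2q3_3.enc h1.l h2)) (pr_norm (pr_csub (enc_rat _ 2864583 7000000) (pr_scale 3659 17500 h1))))) (pr_add (pr_subr 632783 3000000 (pr_scale 14111 150000 h1)) (pr_cmul (enc_norm (bx2q3_3.enc h1.l h2)) (pr_norm (pr_csub (enc_rat _ 245513 600000) (pr_scale 392 1875 h1)))))))))⟩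
noncomputable def l2q3_s : Sl2 l2q3 := ⟨_, fun h1 h2 => (pr_norm (pr_mul (cv2r_s.snd h1) (bx2q3_s.snd h1 h2)))⟩
noncomputable def c3g_s : Sl1 c3g := ⟨_, fun h1 => (pr_sqrtg (pr_csub (enc_pnc _ 3) (pr_scale 3 4 (pr_sq h1))))⟩
noncomputable def cv3m_s : Sl1 cv3m := ⟨_, fun h1 => (pr_norm (pr_add (pr_scale 3 5 (pr_addc (swg_s.snd h1) (enc_rat _ 1 2))) (pr_scale 2 5 (c3g_s.snd h1))))⟩
noncomputable def bf3q0_16_s : Sl2 bf3q0_16 := ⟨_, fun h1 h2 => (pr_cmul (enc_norm (bf3q0_3.enc h1.l h2)) (pr_norm (pr_csub (enc_rat _ 4959 1000000) (pr_scale 153 5000 h1))))⟩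
noncomputable def bf3q0_s : Sl2 bf3q0 := ⟨_, fun h1 h2 => (pr_norm (pr_case (pr_subr 1 20 h1) (pr_case (pr_subr 3 200 h1) (pr_add (pr_subr 12572137 10000000 (pr_scale 160507 37500 h1)) (bf3q0_16_s.snd h1 h2)) (pr_add (pr_subr 44002479 35000000 (pr_scale 299613 70000 h1)) (bf3q0_16_s.snd h1 h2))) (pr_case (pr_subr 3 25 h1) (pr_add (pr_subr 88004953 70000000 (pr_scale 2996129 700000 h1)) (bf3q0_16_s.snd h1 h2)) (pr_case (pr_subr 1 4 h1) (pr_add (pr_subr 6537511 5200000 (pr_scale 69553 16250 h1)) (pr_cmul (enc_norm (bf3q0_3.enc h1.l h2)) (pr_norm (pr_csub (enc_rat _ 64443 13000000) (pr_scale 497 16250 h1))))) (pr_add (pr_subr 1571517 1250000 (pr_scale 10700461 2500000 h1)) (pr_cmul (enc_norm (bf3q0_3.enc h1.l h2)) (pr_norm (pr_csub (enc_rat _ 4967 1000000) (pr_scale 957 31250 h1)))))))))⟩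
noncomputable def kf3q0_s : Sl2 kf3q0 := ⟨_, fun h1 h2 => (pr_norm (pr_mul (cv3m_s.snd h1) (bf3q0_s.snd h1 h2)))⟩
noncomputable def bx3q0_s : Sl2 bx3q0 := ⟨_, fun h1 h2 => (pr_norm (pr_case (pr_subr 1 20 h1) (pr_case (pr_subr 3 200 h1) (pr_add (pr_addc (pr_scale 4247 50000 h1) (enc_rat _ 145253 10000000)) (pr_cmul (enc_norm (bx3q0_3.enc h1.l h2)) (pr_norm (pr_csub (enc_rat _ 47413 500000) (pr_scale 1243 7500 h1))))) (pr_add (pr_addc (pr_scale 29727 350000 h1) (enc_rat _ 1016777 70000000)) (pr_cmul (enc_norm (bx3q0_3.enc h1.l h2)) (pr_norm (pr_csub (enc_rat _ 663753 7000000) (pr_scale 5791 35000 h1)))))) (pr_case (pr_subr 3 25 h1) (pr_add (pr_addc (pr_scale 59461 700000 h1) (enc_rat _ 508371 35000000)) (pr_cmul (enc_norm (bx3q0_3.enc h1.l h2)) (pr_norm (pr_csub (enc_rat _ 165857 1750000) (pr_scale 11517 70000 h1))))) (pr_case (pr_subr 1 4 h1) (pr_add (pr_addc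 (pr_scale 110431 1300000 h1) (enc_rat _ 944097 65000000)) (pr_cmul (enc_norm (bx3q0_3.enc h1.l h2)) (pr_norm (pr_csub (enc_rat _ 38437 406250) (pr_scale 10607 65000 h1))))) (pr_add (pr_addc (pr_scale 21237 250000 h1) (enc_rat _ 145243 10000000)) (pr_cmul (enc_norm (bx3q0_3.enc h1.l h2)) (pr_norm (pr_csub (enc_rat _ 11789 125000) (pr_scale 20247 125000 h1)))))))))⟩
noncomputable def l3q0_s : Sl2 l3q0 := ⟨_, fun h1 h2 => (pr_norm (pr_mul (cv3m_s.snd h1) (bx3q0_s.snd h1 h2)))⟩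
noncomputable def bf3q1_s : Sl2 bf3q1 := ⟨_, fun h1 h2 => (pr_norm (pr_case (pr_subr 22 25 h1) (pr_case (pr_subr 3 4 h1) (pr_add (pr_addc (pr_scale 690363 2500000 h1) (enc_rat _ 113103 156250)) (pr_cmul (enc_norm (bf3q1_3.enc h1.l h2)) (pr_norm (pr_subr 297149 1000000 (pr_scale 36941 125000 h1))))) (pr_add (pr_addc (pr_scale 358981 1300000 h1) (enc_rat _ 47051139 65000000)) (pr_cmul (enc_norm (bf3q1_3.enc h1.l h2)) (pr_norm (pr_subr 1944757 6500000 (pr_scale 38773 130000 h1)))))) (pr_case (pr_subr 19 20 h1) (pr_add (pr_addc (pr_scale 19329 70000 h1) (enc_rat _ 25335557 35000000)) (pr_cmul (enc_norm (bf3q1_3.enc h1.l h2)) (pr_norm (pr_subr 212403 700000 (pr_scale 4243 14000 h1))))) (pr_case (pr_subr 197 200 h1) (pr_add (pr_addc (pr_scale 48319 175000 h1) (enc_rat _ 12668111 17500000)) (pr_cmul (enc_norm (bf3q1_3.enc h1.l h2)) (pr_norm (pr_subr 432539 1400000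 (pr_scale 10811 35000 h1))))) (pr_add (pr_addc (pr_scale 4141 15000 h1) (enc_rat _ 10859 15000)) (pr_cmul (enc_norm (bf3q1_3.enc h1.l h2)) (pr_norm (pr_subr 196 625 (pr_scale 196 625 h1)))))))))⟩
noncomputable def kf3q1_s : Sl2 kf3q1 := ⟨_, fun h1 h2 => (pr_norm (pr_mul (cv3m_s.snd h1) (bf3q1_s.snd h1 h2)))⟩
noncomputable def bx3q1_s : Sl2 bx3q1 := ⟨_, fun h1 h2 => (pr_norm (pr_case (pr_subr 22 25 h1) (pr_case (pr_subr 3 4 h1) (pr_add (pr_csub (enc_rat _ 146913 10000000) (pr_scale 36849 2500000 h1)) (pr_cmul (enc_norm (bx3q1_3.enc h1.l h2)) (pr_norm (pr_csub (enc_rat _ 45251 200000) (pr_scale 28239 125000 h1))))) (pr_add (pr_csub (enc_rat _ 237651 16250000) (pr_scale 9523 650000 h1)) (pr_cmul (enc_norm (bx3q1_3.enc h1.l h2)) (pr_norm (pr_csub (enc_rat _ 2921473 13000000) (pr_scale 1819 8125 h1)))))) (pr_case (pr_subr 19 20 h1) (pr_add (pr_csub (enc_rat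 _ 12697 875000) (pr_scale 2033 140000 h1)) (pr_cmul (enc_norm (bx3q1_3.enc h1.l h2)) (pr_norm (pr_csub (enc_rat _ 1561187 7000000) (pr_scale 971 4375 h1))))) (pr_case (pr_subr 197 200 h1) (pr_add (pr_csub (enc_rat _ 28981 2000000) (pr_scale 29 2000 h1)) (pr_cmul (enc_norm (bx3q1_3.enc h1.l h2)) (pr_norm (pr_csub (enc_rat _ 1763347 7000000) (pr_scale 1104 4375 h1))))) (pr_add (pr_csub (enc_rat _ 26 1875) (pr_scale 26 1875 h1)) (pr_cmul (enc_norm (bx3q1_3.enc h1.l h2)) (pr_norm (pr_csub (enc_rat _ 3349 15000) (pr_scale 3349 15000 h1)))))))))⟩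
noncomputable def l3q1_s : Sl2 l3q1 := ⟨_, fun h1 h2 => (pr_norm (pr_mul (cv3m_s.snd h1) (bx3q1_s.snd h1 h2)))⟩
noncomputable def cv3p_s : Sl1 cv3p := ⟨_, fun h1 => (pr_norm (pr_add (pr_scale 3 5 (pr_subr 1 2 (swg_s.snd h1))) (pr_scale 2 5 (c3g_s.snd h1))))⟩
noncomputable def bf3q2_8_s : Sl2 bf3q2_8 := ⟨_, fun h1 h2 => (pr_scale 109273 37500 h1)⟩
noncomputable def bf3q2_s : Sl2 bf3q2 := ⟨_, fun h1 h2 => (pr_norm (pr_case (pr_subr 27 25 h1) (pr_case (pr_subr 203 200 h1) (pr_add (pr_csub (enc_rat _ 112237931 30000000) (bf3q2_8_s.snd h1 h2)) (pr_cmul (enc_norm (bf3q2_3.enc h1.l h2)) (pr_norm (pr_subr 2561801 3000000 (pr_scale 9547 15000 h1))))) (pr_case (pr_subr 21 20 h1) (pr_add (pr_csub (enc_rat _ 7482521 2000000) (pr_scale 25497 8750 h1)) (pr_cmul (enc_norm (bf3q2_3.enc h1.l h2)) (pr_norm (pr_subr 853141 1000000 (pr_scale 22249 35000 h1))))) (pr_add (pr_csub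 (enc_rat _ 7482529 2000000) (bf3q2_8_s.snd h1 h2)) (pr_cmul (enc_norm (bf3q2_3.enc h1.l h2)) (pr_norm (pr_subr 851231 1000000 (pr_scale 2377 3750 h1))))))) (pr_case (pr_subr 29 25 h1) (pr_add (pr_csub (enc_rat _ 74825281 20000000) (pr_scale 2331157 800000 h1)) (pr_cmul (enc_norm (bf3q2_3.enc h1.l h2)) (pr_norm (pr_subr 848783 1000000 (pr_scale 1579 2500 h1))))) (pr_case (pr_subr 13 10 h1) (pr_add (pr_csub (enc_rat _ 6547211 1750000) (pr_scale 1019881 350000 h1)) (pr_cmul (enc_norm (bf3q2_3.enc h1.l h2)) (pr_norm (pr_subr 5921123 7000000 (pr_scale 88073 140000 h1))))) (pr_add (pr_csub (enc_rat _ 299301 80000) (pr_scale 582789 200000 h1)) (pr_cmul (enc_norm (bf3q2_3.enc h1.l h2)) (pr_norm (pr_subr 843687 1000000 (pr_scale 62741 100000 h1)))))))))⟩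
noncomputable def kf3q2_s : Sl2 kf3q2 := ⟨_, fun h1 h2 => (pr_norm (pr_mul (cv3p_s.snd h1) (bf3q2_s.snd h1 h2)))⟩
noncomputable def bx3q2_s : Sl2 bx3q2 := ⟨_, fun h1 h2 => (pr_norm (pr_case (pr_subr 27 25 h1) (pr_case (pr_subr 203 200 h1) (pr_add (pr_csub (enc_rat _ 304933 1875000) (pr_scale 12343 75000 h1)) (pr_cmul (enc_norm (bx3q2_3.enc h1.l h2)) (pr_norm (pr_subr 774511 3000000 (pr_scale 409 1875 h1))))) (pr_case (pr_subr 21 20 h1) (pr_add (pr_csub (enc_rat _ 1625681 10000000) (pr_scale 57579 350000 h1)) (pr_cmul (enc_norm (bx3q2_3.enc h1.l h2)) (pr_norm (pr_subr 51839 200000 (pr_scale 767 3500 h1))))) (pr_add (pr_csub (enc_rat _ 812763 5000000) (pr_scale 49349 300000 h1)) (pr_cmul (enc_norm (bx3q2_3.enc h1.l h2)) (pr_norm (pr_subr 5197 20000 (pr_scale 6593 30000 h1))))))) (pr_case (pr_subr 29 25 h1) (pr_add (pr_csub (enc_rat _ 1625481 10000000) (pr_scale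 65797 400000 h1)) (pr_cmul (enc_norm (bx3q2_3.enc h1.l h2)) (pr_norm (pr_subr 259211 1000000 (pr_scale 8767 40000 h1))))) (pr_case (pr_subr 13 10 h1) (pr_add (pr_csub (enc_rat _ 5689517 35000000) (pr_scale 230301 1400000 h1)) (pr_cmul (enc_norm (bx3q2_3.enc h1.l h2)) (pr_norm (pr_subr 450741 1750000 (pr_scale 15243 70000 h1))))) (pr_add (pr_csub (enc_rat _ 50801 312500) (pr_scale 32901 200000 h1)) (pr_cmul (enc_norm (bx3q2_3.enc h1.l h2)) (pr_norm (pr_subr 513151 2000000 (pr_scale 43399 200000 h1)))))))))⟩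
noncomputable def l3q2_s : Sl2 l3q2 := ⟨_, fun h1 h2 => (pr_norm (pr_mul (cv3p_s.snd h1) (bx3q2_s.snd h1 h2)))⟩
noncomputable def ycg_s : Sl1 ycg := ⟨_, fun h1 => (pr_sqrtg (pr_scale 4 3 (pr_csub (enc_pnc _ 3) (pr_sq h1))))⟩
noncomputable def xc33_s : Sl1 xc33 := ⟨_, fun h1 => (pr_norm (pr_add (pr_scale 3 5 (pr_subr 1 2 (swg_s.snd (pr_nd (ycg_s.snd h1))))) (pr_scale 2 5 h1)))⟩
noncomputable def bf3q3_34_s : Sl2 bf3q3_34 := ⟨_, fun h1 h2 => (pr_csub (enc_rat _ 463185201 35000000) (pr_scale 1114213 175000 h1))⟩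
noncomputable def bf3q3_s : Sl2 bf3q3 := ⟨_, fun h1 h2 => (pr_norm (pr_case (pr_subr 47 25 h1) (pr_case (pr_subr 7 4 h1) (pr_add (pr_csub (enc_rat _ 132338639 10000000) (pr_scale 1591733 250000 h1)) (pr_cmul (enc_norm (bf3q3_3.enc h1.l h2)) (pr_norm (pr_subr 4833 500000 (pr_scale 151 31250 h1))))) (pr_add (pr_csub (enc_rat _ 860201101 65000000) (pr_scale 8277011 1300000 h1)) (pr_cmul (enc_norm (bf3q3_3.enc h1.l h2)) (pr_norm (pr_subr 25161 2600000 (pr_scale 629 130000 h1)))))) (pr_case (pr_subr 39 20 h1) (pr_add (bf3q3_34_s.snd h1 h2) (pr_cmul (enc_norm (bf3q3_3.enc h1.l h2)) (pr_norm (pr_subr 67799 7000000 (pr_scale 339 70000 h1))))) (pr_case (pr_subr 397 200 h1) (pr_add (bf3q3_34_s.snd h1 h2) (pr_cmul (enc_norm (bf3q3_3.enc h1.l h2)) (pr_norm (pr_subr 16901 1750000 (pr_scale 169 35000 h1))))) (pr_add (pr_csub (enc_rat _ 49627 3750) (pr_scale 11938 1875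 h1)) (pr_cmul (enc_norm (bf3q3_3.enc h1.l h2)) (pr_norm (pr_subr 73 7500 (pr_scale 73 15000 h1)))))))))⟩
noncomputable def kfc33_s : Sl2 kfc33 := ⟨_, fun h1 h2 => (pr_norm (pr_mul (pr_norm (pr_add (pr_scale 3 5 (pr_subr 1 2 (swg_s.snd (pr_nd (ycg_s.snd h1))))) (pr_scale 2 5 h1))) (bf3q3_s.snd (pr_nd (ycg_s.snd h1)) h2)))⟩
noncomputable def bx3q3_s : Sl2 bx3q3 := ⟨_, fun h1 h2 => (pr_norm (pr_case (pr_subr 47 25 h1) (pr_case (pr_subr 7 4 h1) (pr_add (pr_csub (enc_rat _ 3312717 10000000) (pr_scale 82027 500000 h1)) (pr_cmul (enc_norm (bx3q3_3.enc h1.l h2)) (pr_norm (pr_subr 107047 1000000 (pr_scale 21353 250000 h1))))) (pr_add (pr_csub (enc_rat _ 43067561 130000000) (pr_scale 213283 1300000 h1)) (pr_cmul (enc_norm (bx3q3_3.enc h1.l h2)) (pr_norm (pr_subr 700919 6500000 (pr_scale 5581 65000 h1)))))) (pr_case (pr_subr 39 20 h1) (pr_add (pr_csub (enc_rat _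 23190847 70000000) (pr_scale 3589 21875 h1)) (pr_cmul (enc_norm (bx3q3_3.enc h1.l h2)) (pr_norm (pr_subr 381337 3500000 (pr_scale 1513 17500 h1))))) (pr_case (pr_subr 397 200 h1) (pr_add (pr_csub (enc_rat _ 23191237 70000000) (pr_scale 2297 14000 h1)) (pr_cmul (enc_norm (bx3q3_3.enc h1.l h2)) (pr_norm (pr_subr 192131 1750000 (pr_scale 3041 35000 h1))))) (pr_add (pr_csub (enc_rat _ 13251779433 40000000000) (pr_scale 32813389 200000000 h1)) (pr_cmul (enc_norm (bx3q3_3.enc h1.l h2)) (pr_norm (pr_subr 69467521069 630000000000 (pr_scale 274446577 3150000000 h1)))))))))⟩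
noncomputable def lc33_s : Sl2 lc33 := ⟨_, fun h1 h2 => (pr_norm (pr_mul (pr_norm (pr_add (pr_scale 3 5 (pr_subr 1 2 (swg_s.snd (pr_nd (ycg_s.snd h1))))) (pr_scale 2 5 h1))) (bx3q3_s.snd (pr_nd (ycg_s.snd h1)) h2)))⟩
noncomputable def kf4q0_s : Sl2 kf4q0 := ⟨_, fun h1 h2 => (pr_norm (pr_sub (pr_mul h1 (kcg_s.snd (pr_nd (pr_half h1)) h2)) (pr_mul (pr_norm (pr_mul (pr_nd (pr_sq h1)) (pr_norm (pr_addc (c3g_s.snd h1) (enc_rat _ 3 2))))) (pr_nd (pr_inv (pr_mul (pr_norm (pr_csub (enc_pnc _ 1) h1)) (pr_norm (pr_cadd (enc_pnc _ 1) h1))))))))⟩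
noncomputable def l4q0_6_s : Sl2 l4q0_6 := ⟨_, fun h1 h2 => (pr_half h1)⟩
noncomputable def l4q0_7_s : Sl2 l4q0_7 := ⟨_, fun h1 h2 => (pr_half (c3g_s.snd h1))⟩
noncomputable def l4q0_8_s : Sl2 l4q0_8 := ⟨_, fun h1 h2 => (pr_scale 1 4 h1)⟩
noncomputable def l4q0_s : Sl2 l4q0 := ⟨_, fun h1 h2 => (pr_norm (pr_add (txg_s.snd (pr_nd (l4q0_6_s.snd h1 h2)) (pr_norm (pr_sub (l4q0_7_s.snd h1 h2) (l4q0_8_s.snd h1 h2))) h2) (txg_s.snd (pr_nd (pr_neg (l4q0_6_s.snd h1 h2))) (pr_norm (pr_add (l4q0_7_s.snd h1 h2) (l4q0_8_s.snd h1 h2))) h2)))⟩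
noncomputable def kf4q1_s : Sl2 kf4q1 := ⟨_, fun h1 h2 => (pr_norm (pr_add (pr_mul (pr_norm (pr_mul h1 (pr_norm (pr_addc (c3g_s.snd h1) (enc_rat _ 3 2))))) (pr_nd (pr_inv (pr_cadd (enc_pnc _ 1) h1)))) (pr_mul (pr_norm (pr_subn 1 h1)) (kcg_s.snd (pr_nd (pr_half h1)) h2))))⟩
noncomputable def l4q1_7_s : Sl2 l4q1_7 := ⟨_, fun h1 h2 => (pr_half h1)⟩
noncomputable def l4q1_8_s : Sl2 l4q1_8 := ⟨_, fun h1 h2 => (pr_half (c3g_s.snd h1))⟩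
noncomputable def l4q1_9_s : Sl2 l4q1_9 := ⟨_, fun h1 h2 => (pr_scale 1 4 h1)⟩
noncomputable def l4q1_s : Sl2 l4q1 := ⟨_, fun h1 h2 => (pr_norm (pr_add (txg_s.snd (pr_nd (l4q1_7_s.snd h1 h2)) (pr_norm (pr_sub (l4q1_8_s.snd h1 h2) (l4q1_9_s.snd h1 h2))) h2) (txg_s.snd (pr_nd (pr_neg (l4q1_7_s.snd h1 h2))) (pr_norm (pr_add (l4q1_8_s.snd h1 h2) (l4q1_9_s.snd h1 h2))) h2)))⟩
noncomputable def kf4q2_s : Sl2 kf4q2 := ⟨_, fun h1 h2 => (pr_norm (pr_add (pr_mul (pr_norm (pr_mul (pr_norm (pr_sub (pr_nat 2 (c3g_s.snd h1)) h1)) (pr_norm (pr_sub (pr_addc (c3g_s.snd h1) (enc_pnc _ 3)) (pr_scale 3 2 h1))))) (pr_nd (pr_inv (pr_nat 4 (pr_csub (enc_pnc _ 2) h1))))) (pr_mul (pr_norm (pr_subn 1 h1)) (kcg_s.snd (pr_norm (pr_sub (pr_scale 1 4 h1) (pr_half (c3g_s.snd h1)))) h2))))⟩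
noncomputable def l4q2_7_s : Sl2 l4q2_7 := ⟨_, fun h1 h2 => (pr_half (c3g_s.snd h1))⟩
noncomputable def l4q2_8_s : Sl2 l4q2_8 := ⟨_, fun h1 h2 => (pr_scale 1 4 h1)⟩
noncomputable def l4q2_9_s : Sl2 l4q2_9 := ⟨_, fun h1 h2 => (pr_sub (l4q2_7_s.snd h1 h2) (l4q2_8_s.snd h1 h2))⟩
noncomputable def l4q2_12_s : Sl2 l4q2_12 := ⟨_, fun h1 h2 => (pr_add (pr_scale 1 4 (c3g_s.snd h1)) (pr_scale 3 8 h1))⟩
noncomputable def l4q2_14_s : Sl2 l4q2_14 := ⟨_, fun h1 h2 => (pr_half (l4q2_9_s.snd h1 h2))⟩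
noncomputable def l4q2_s : Sl2 l4q2 := ⟨_, fun h1 h2 => (pr_norm (pr_sub (pr_nat 2 (txg_s.snd (pr_norm (pr_sub (l4q2_8_s.snd h1 h2) (l4q2_7_s.snd h1 h2))) (pr_norm (pr_add (l4q2_12_s.snd h1 h2) (l4q2_14_s.snd h1 h2))) h2)) (txg_s.snd (pr_norm (l4q2_9_s.snd h1 h2)) (pr_norm (pr_sub (l4q2_12_s.snd h1 h2) (l4q2_14_s.snd h1 h2))) h2)))⟩
noncomputable def kfc43_s : Sl2 kfc43 := ⟨_, fun h1 h2 => (pr_norm (pr_sub (pr_mul (pr_norm (pr_subn 2 (ycg_s.snd h1))) (kcg_s.snd (pr_norm (pr_sub (pr_scale 1 4 (ycg_s.snd h1)) (pr_half h1))) h2)) (pr_mul (pr_norm (pr_mul (pr_norm (pr_sub (pr_nat 2 h1) (ycg_s.snd h1))) (pr_norm (pr_sub (pr_addc h1 (enc_pnc _ 3)) (pr_scale 3 2 (ycg_s.snd h1)))))) (pr_nd (pr_inv (pr_nat 4 (pr_subn 1 (ycg_s.snd h1))))))))⟩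
noncomputable def lc43_7_s : Sl2 lc43_7 := ⟨_, fun h1 h2 => (pr_half h1)⟩
noncomputable def lc43_8_s : Sl2 lc43_8 := ⟨_, fun h1 h2 => (pr_scale 1 4 (ycg_s.snd h1))⟩
noncomputable def lc43_9_s : Sl2 lc43_9 := ⟨_, fun h1 h2 => (pr_sub (lc43_7_s.snd h1 h2) (lc43_8_s.snd h1 h2))⟩
noncomputable def lc43_12_s : Sl2 lc43_12 := ⟨_, fun h1 h2 => (pr_add (pr_scale 1 4 h1) (pr_scale 3 8 (ycg_s.snd h1)))⟩
noncomputable def lc43_14_s : Sl2 lc43_14 := ⟨_, fun h1 h2 => (pr_half (lc43_9_s.snd h1 h2))⟩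
noncomputable def lc43_s : Sl2 lc43 := ⟨_, fun h1 h2 => (pr_norm (pr_sub (pr_nat 2 (txg_s.snd (pr_norm (pr_sub (lc43_8_s.snd h1 h2) (lc43_7_s.snd h1 h2))) (pr_norm (pr_add (lc43_12_s.snd h1 h2) (lc43_14_s.snd h1 h2))) h2)) (txg_s.snd (pr_norm (lc43_9_s.snd h1 h2)) (pr_norm (pr_sub (lc43_12_s.snd h1 h2) (lc43_14_s.snd h1 h2))) h2)))⟩
noncomputable def gF0q0 : Gn := ⟨ndF0q0, c1g_s, kf0q0_s, l0q0_s, false⟩
noncomputable def gF0q1 : Gn := ⟨ndF0q1, c1g_s, kf0q1_s, l0q1_s, false⟩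
noncomputable def gF0q2 : Gn := ⟨ndF0q2, idf_s, kfc02_s, lc02_s, true⟩
noncomputable def gF1q0 : Gn := ⟨ndF1q0, cv1m_s, kf1q0_s, l1q0_s, false⟩
noncomputable def gF1q1 : Gn := ⟨ndF1q1, cv1m_s, kf1q1_s, l1q1_s, false⟩
noncomputable def gF1q2 : Gn := ⟨ndF1q2, cv1p_s, kf1q2_s, l1q2_s, false⟩
noncomputable def gF1q3 : Gn := ⟨ndF1q3, cv1r_s, kf1q3_s, l1q3_s, false⟩
noncomputable def gF2q0 : Gn := ⟨ndF2q0, cv2m_s, kf2q0_s, l2q0_s, false⟩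
noncomputable def gF2q1 : Gn := ⟨ndF2q1, cv2m_s, kf2q1_s, l2q1_s, false⟩
noncomputable def gF2q2 : Gn := ⟨ndF2q2, cv2p_s, kf2q2_s, l2q2_s, false⟩
noncomputable def gF2q3 : Gn := ⟨ndF2q3, cv2r_s, kf2q3_s, l2q3_s, false⟩
noncomputable def gF3q0 : Gn := ⟨ndF3q0, cv3m_s, kf3q0_s, l3q0_s, false⟩
noncomputable def gF3q1 : Gn := ⟨ndF3q1, cv3m_s, kf3q1_s, l3q1_s, false⟩
noncomputable def gF3q2 : Gn := ⟨ndF3q2, cv3p_s, kf3q2_s, l3q2_s, false⟩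
noncomputable def gF3q3 : Gn := ⟨ndF3q3, xc33_s, kfc33_s, lc33_s, false⟩
noncomputable def gF4q0 : Gn := ⟨ndF4q0, c3g_s, kf4q0_s, l4q0_s, false⟩
noncomputable def gF4q1 : Gn := ⟨ndF4q1, c3g_s, kf4q1_s, l4q1_s, false⟩
noncomputable def gF4q2 : Gn := ⟨ndF4q2, c3g_s, kf4q2_s, l4q2_s, false⟩
noncomputable def gF4q3 : Gn := ⟨ndF4q3, idf_s, kfc43_s, lc43_s, false⟩
noncomputable def gF0q3 : Gn := gz
noncomputable def gF (j : Fin 5) (q : ℕ) : Gn :=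
  match j, q with
  | 0, 0 => gF0q0
  | 0, 1 => gF0q1
  | 0, 2 => gF0q2
  | 0, 3 => gF0q3
  | 1, 0 => gF1q0
  | 1, 1 => gF1q1
  | 1, 2 => gF1q2
  | 1, 3 => gF1q3
  | 2, 0 => gF2q0
  | 2, 1 => gF2q1
  | 2, 2 => gF2q2
  | 2, 3 => gF2q3
  | 3, 0 => gF3q0
  | 3, 1 => gF3q1
  | 3, 2 => gF3q2
  | 3, 3 => gF3q3
  | 4, 0 => gF4q0
  | 4, 1 => gF4q1
  | 4, 2 => gF4q2
  | 4, 3 => gF4q3
  | _, _ => gF0q0

noncomputable def c0n : Fn1 := ⟨_, _, fun h1 => (enc_norm (enc_add (enc_pnc _ 1) (enc_mul (mug3.enc h1) (gug.enc h1))))⟩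
noncomputable def gug_s : Sl1 gug := ⟨_, fun h1 => (pr_norm (pr_add (pr_scale 3 4 h1) (pr_scale 3 2 (pr_csub (enc_pnc _ 1) (gsg_s.snd h1)))))⟩
noncomputable def kug_2_s : Sl1 kug_2 := ⟨_, fun h1 => (pr_sq h1)⟩
noncomputable def kug_s : Sl1 kug := ⟨_, fun h1 => (pr_norm (pr_add (pr_add (pr_scale 3 4 h1) (pr_scale 3 2 (kug_2_s.snd h1))) (pr_mul (pr_norm (pr_mul (pr_nd (pr_scale 3 4 (kug_2_s.snd h1))) (pr_nd (pr_inv (gsg_s.snd h1))))) (gug_s.snd h1))))⟩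
noncomputable def kp0q0_8_s : Sl2 kp0q0_8 := ⟨_, fun h1 h2 => (pr_sub (pr_scale 3 4 h1) (pr_half (c1g_s.snd h1)))⟩
noncomputable def kp0q0_s : Sl2 kp0q0 := ⟨_, fun h1 h2 => (pr_norm (pr_case (pr_addc (kp0q0_8_s.snd h1 h2) (enc_rat _ 661 1387)) (pr_mul h1 (pr_norm (pr_add (pr_subr 252488811833 650000000000 (pr_neg (pr_scale 315272116833 325000000000 (kp0q0_8_s.snd h1 h2)))) (pr_cmul (enc_norm (kp0q0_3.enc h1.l h2)) (pr_norm (pr_addc (pr_scale 1447283251737 325000000000 (kp0q0_8_s.snd h1 h2)) (enc_rat _ 1403049451737 650000000000))))))) (pr_case (pr_addc (kp0q0_8_s.snd h1 h2) (enc_rat _ 191 434)) (pr_sub (kug_s.snd h1) (pr_mul h1 (pr_norm (pr_mul (kcg_s.snd (pr_norm (kp0q0_8_s.snd h1 h2)) h2) (pr_norm (pr_add (gug_s.snd h1) (pr_nat 2 (c1g_s.snd h1)))))))) (pr_mul h1 (pr_norm (pr_case (pr_addc (kp0q0_8_s.snd h1 h2) (enc_rat _ 3 10)) (pr_case (pr_addc (kp0q0_8_s.snd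 h1 h2) (enc_rat _ 2 5)) (pr_add (pr_csub (enc_rat _ 44065346579 217500000000) (pr_scale 52636171 87000000000 (kp0q0_8_s.snd h1 h2))) (pr_cmul (enc_norm (kp0q0_3.enc h1.l h2)) (pr_norm (pr_subr 6153490967 72500000000 (pr_neg (pr_scale 8999478467 29000000000 (kp0q0_8_s.snd h1 h2))))))) (pr_add (pr_csub (enc_rat _ 2026017 10000000) (pr_scale 599 1000000 (kp0q0_8_s.snd h1 h2))) (pr_cmul (enc_norm (kp0q0_3.enc h1.l h2)) (pr_norm (pr_subr 30381 200000 (pr_neg (pr_scale 4779 10000 (kp0q0_8_s.snd h1 h2)))))))) (pr_case (kp0q0_8_s.snd h1 h2) (pr_add (pr_csub (enc_rat _ 405233 2000000) (pr_scale 1649 3000000 (kp0q0_8_s.snd h1 h2))) (pr_cmul (enc_norm (kp0q0_3.enc h1.l h2)) (pr_norm (pr_subr 79101 500000 (pr_neg (pr_scale 49889 100000 (kp0q0_8_s.snd h1 h2))))))) (pr_add (pr_csub (enc_rat _ 405233 2000000) (pr_scale 2381 5000000 (kp0q0_8_s.snd h1 h2))) (pr_cmul (enc_norm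 (kp0q0_3.enc h1.l h2)) (pr_norm (pr_subr 79101 500000 (pr_neg (pr_scale 14159 25000 (kp0q0_8_s.snd h1 h2))))))))))))))⟩
noncomputable def kn0q0_s : Sl2 kn0q0 := ⟨_, fun h1 h2 => (pr_norm (pr_add (pr_cmul (enc_norm (enc_add (enc_pnc _ 1) (enc_mul (mug3.enc h2) (gug.enc h2)))) (kf0q0_s.snd h1 h2)) (pr_cmul (mug3.enc h2) (kp0q0_s.snd h1 h2))))⟩
noncomputable def kp0q1_9_s : Sl2 kp0q1_9 := ⟨_, fun h1 h2 => (pr_sub (pr_scale 3 4 h1) (pr_half (c1g_s.snd h1)))⟩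
noncomputable def kp0q1_s : Sl2 kp0q1 := ⟨_, fun h1 h2 => (pr_norm (pr_mul (pr_norm (pr_subn 1 h1)) (pr_norm (pr_case (pr_addc (kp0q1_9_s.snd h1 h2) (enc_rat _ 3 10)) (pr_case (pr_addc (kp0q1_9_s.snd h1 h2) (enc_rat _ 2 5)) (pr_add (pr_csub (enc_rat _ 44065346579 217500000000) (pr_scale 52636171 87000000000 (kp0q1_9_s.snd h1 h2))) (pr_cmul (enc_norm (kp0q1_3.enc h1.l h2)) (pr_norm (pr_subr 6153490967 72500000000 (pr_neg (pr_scale 8999478467 29000000000 (kp0q1_9_s.snd h1 h2))))))) (pr_add (pr_csub (enc_rat _ 2026017 10000000) (pr_scale 599 1000000 (kp0q1_9_s.snd h1 h2))) (pr_cmul (enc_norm (kp0q1_3.enc h1.l h2)) (pr_norm (pr_subr 30381 200000 (pr_neg (pr_scale 4779 10000 (kp0q1_9_s.snd h1 h2)))))))) (pr_case (kp0q1_9_s.snd h1 h2) (pr_add (pr_csub (enc_rat _ 405233 2000000) (pr_scale 1649 3000000 (kp0q1_9_s.snd h1 h2))) (pr_cmul (enc_norm (kp0q1_3.enc h1.l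 h2)) (pr_norm (pr_subr 79101 500000 (pr_neg (pr_scale 49889 100000 (kp0q1_9_s.snd h1 h2))))))) (pr_add (pr_csub (enc_rat _ 405233 2000000) (pr_scale 2381 5000000 (kp0q1_9_s.snd h1 h2))) (pr_cmul (enc_norm (kp0q1_3.enc h1.l h2)) (pr_norm (pr_subr 79101 500000 (pr_neg (pr_scale 14159 25000 (kp0q1_9_s.snd h1 h2))))))))))))⟩
noncomputable def kn0q1_s : Sl2 kn0q1 := ⟨_, fun h1 h2 => (pr_norm (pr_add (pr_cmul (enc_norm (enc_add (enc_pnc _ 1) (enc_mul (mug3.enc h2) (gug.enc h2)))) (kf0q1_s.snd h1 h2)) (pr_cmul (mug3.enc h2) (kp0q1_s.snd h1 h2))))⟩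
noncomputable def kpc02_s : Sl2 kpc02 := ⟨_, fun h1 h2 => (pr_norm (pr_mul (pr_norm (pr_subn 1 (yag_s.snd h1))) (pr_norm (pr_case (pr_subr 1 10 h1) (pr_sub (pr_neg (pr_scale 434041 1000000 h1)) (pr_cmul (enc_norm (kpc02_4.enc h1.l h2)) (pr_nd (pr_scale 1657 100000 h1)))) (pr_add (pr_subr 167 20000000 (pr_neg (pr_scale 173583 400000 h1))) (pr_cmul (enc_norm (kpc02_4.enc h1.l h2)) (pr_norm (pr_csub (enc_rat _ 1583 2000000) (pr_scale 4897 200000 h1)))))))))⟩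
noncomputable def knc02_s : Sl2 knc02 := ⟨_, fun h1 h2 => (pr_norm (pr_add (pr_cmul (enc_norm (enc_add (enc_pnc _ 1) (enc_mul (mug3.enc h2) (gug.enc h2)))) (kfc02_s.snd h1 h2)) (pr_cmul (mug3.enc h2) (kpc02_s.snd h1 h2))))⟩
noncomputable def bd1q0_s : Sl2 bd1q0 := ⟨_, fun h1 h2 => (pr_norm (pr_case (pr_subr 1 10 h1) (pr_sub (pr_neg (pr_scale 11186827 1000000 h1)) (pr_cmul (enc_norm (bd1q0_3.enc h1.l h2)) (pr_nd (pr_scale 23 50000 h1)))) (pr_add (pr_csub (enc_rat _ 3 20000000) (pr_scale 22373657 2000000 h1)) (pr_cmul (enc_norm (bd1q0_3.enc h1.l h2)) (pr_norm (pr_csub (enc_rat _ 1 400000) (pr_scale 97 200000 h1)))))))⟩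
noncomputable def kp1q0_s : Sl2 kp1q0 := ⟨_, fun h1 h2 => (pr_norm (pr_mul (cv1m_s.snd h1) (bd1q0_s.snd h1 h2)))⟩
noncomputable def kn1q0_s : Sl2 kn1q0 := ⟨_, fun h1 h2 => (pr_norm (pr_add (pr_cmul (enc_norm (enc_add (enc_pnc _ 1) (enc_mul (mug3.enc h2) (gug.enc h2)))) (kf1q0_s.snd h1 h2)) (pr_cmul (mug3.enc h2) (kp1q0_s.snd h1 h2))))⟩
noncomputable def bd1q1_9_s : Sl2 bd1q1_9 := ⟨_, fun h1 h2 => (pr_subr 29292461 5000000 (pr_scale 1235841 200000 h1))⟩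
noncomputable def bd1q1_s : Sl2 bd1q1 := ⟨_, fun h1 h2 => (pr_norm (pr_case (pr_subr 9 10 h1) (pr_add (bd1q1_9_s.snd h1 h2) (pr_cmul (enc_norm (bd1q1_3.enc h1.l h2)) (pr_norm (pr_subr 393 500000 (pr_scale 189 100000 h1))))) (pr_add (bd1q1_9_s.snd h1 h2) (pr_cmul (enc_norm (bd1q1_3.enc h1.l h2)) (pr_norm (pr_subr 429 500000 (pr_scale 197 100000 h1)))))))⟩
noncomputable def kp1q1_s : Sl2 kp1q1 := ⟨_, fun h1 h2 => (pr_norm (pr_mul (cv1m_s.snd h1) (bd1q1_s.snd h1 h2)))⟩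
noncomputable def kn1q1_s : Sl2 kn1q1 := ⟨_, fun h1 h2 => (pr_norm (pr_add (pr_cmul (enc_norm (enc_add (enc_pnc _ 1) (enc_mul (mug3.enc h2) (gug.enc h2)))) (kf1q1_s.snd h1 h2)) (pr_cmul (mug3.enc h2) (kp1q1_s.snd h1 h2))))⟩
noncomputable def bd1q2_16_s : Sl2 bd1q2_16 := ⟨_, fun h1 h2 => (pr_cmul (enc_norm (bd1q2_3.enc h1.l h2)) (pr_norm (pr_csub (enc_rat _ 1657 100000) (pr_scale 1657 100000 h1))))⟩
noncomputable def bd1q2_s : Sl2 bd1q2 := ⟨_, fun h1 h2 => (pr_norm (pr_case (pr_subr 577 500 h1) (pr_case (pr_subr 11 10 h1) (pr_add (pr_csub (enc_rat _ 434047 1000000) (pr_scale 434047 1000000 h1)) (bd1q2_16_s.snd h1 h2)) (pr_add (pr_csub (enc_rat _ 4882817 11250000) (pr_scale 3906269 9000000 h1)) (bd1q2_16_s.snd h1 h2))) (pr_case (pr_subr 231 200 h1) (pr_add (pr_csub (enc_rat _ 434041 1000000) (pr_scale 434041 1000000 h1)) (bd1q2_16_s.snd h1 h2)) (pr_add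 (pr_csub (enc_rat _ 6239349 14375000) (pr_scale 29948869 69000000 h1)) (pr_cmul (enc_norm (bd1q2_3.enc h1.l h2)) (pr_norm (pr_csub (enc_rat _ 78299 5750000) (pr_scale 32231 2300000 h1))))))))⟩
noncomputable def kp1q2_s : Sl2 kp1q2 := ⟨_, fun h1 h2 => (pr_norm (pr_mul (cv1p_s.snd h1) (bd1q2_s.snd h1 h2)))⟩
noncomputable def kn1q2_s : Sl2 kn1q2 := ⟨_, fun h1 h2 => (pr_norm (pr_add (pr_cmul (enc_norm (enc_add (enc_pnc _ 1) (enc_mul (mug3.enc h2) (gug.enc h2)))) (kf1q2_s.snd h1 h2)) (pr_cmul (mug3.enc h2) (kp1q2_s.snd h1 h2))))⟩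
noncomputable def bd1q3_s : Sl2 bd1q3 := ⟨_, fun h1 h2 => (pr_norm (pr_case (pr_subr 19 10 h1) (pr_add (pr_csub (enc_rat _ 555204241 40000000) (pr_scale 28387819 4000000 h1)) (pr_cmul (enc_norm (bd1q3_3.enc h1.l h2)) (pr_norm (pr_subr 97 2000000 (pr_scale 1 40000 h1))))) (pr_add (pr_csub (enc_rat _ 27760213 2000000) (pr_scale 1419391 200000 h1)) (pr_cmul (enc_norm (bd1q3_3.enc h1.l h2)) (pr_norm (pr_subr 39 1000000 (pr_scale 1 50000 h1)))))))⟩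
noncomputable def kp1q3_s : Sl2 kp1q3 := ⟨_, fun h1 h2 => (pr_norm (pr_mul (cv1r_s.snd h1) (bd1q3_s.snd h1 h2)))⟩
noncomputable def kn1q3_s : Sl2 kn1q3 := ⟨_, fun h1 h2 => (pr_norm (pr_add (pr_cmul (enc_norm (enc_add (enc_pnc _ 1) (enc_mul (mug3.enc h2) (gug.enc h2)))) (kf1q3_s.snd h1 h2)) (pr_cmul (mug3.enc h2) (kp1q3_s.snd h1 h2))))⟩
noncomputable def bd2q0_s : Sl2 bd2q0 := ⟨_, fun h1 h2 => (pr_norm (pr_case (pr_subr 1 10 h1) (pr_sub (pr_neg (pr_scale 1662587 1000000 h1)) (pr_cmul (enc_norm (bd2q0_3.enc h1.l h2)) (pr_nd (pr_scale 177 100000 h1)))) (pr_add (pr_csub (enc_rat _ 3 8000000) (pr_scale 6650363 4000000 h1)) (pr_cmul (enc_norm (bd2q0_3.enc h1.l h2)) (pr_norm (pr_csub (enc_rat _ 29 2000000) (pr_scale 383 200000 h1)))))))⟩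
noncomputable def kp2q0_s : Sl2 kp2q0 := ⟨_, fun h1 h2 => (pr_norm (pr_mul (cv2m_s.snd h1) (bd2q0_s.snd h1 h2)))⟩
noncomputable def kn2q0_s : Sl2 kn2q0 := ⟨_, fun h1 h2 => (pr_norm (pr_add (pr_cmul (enc_norm (enc_add (enc_pnc _ 1) (enc_mul (mug3.enc h2) (gug.enc h2)))) (kf2q0_s.snd h1 h2)) (pr_cmul (mug3.enc h2) (kp2q0_s.snd h1 h2))))⟩
noncomputable def kp2q1_42_s : Sl2 kp2q1_42 := ⟨_, fun h1 h2 => (pr_csub (enc_pnc _ 1) h1)⟩
noncomputable def kp2q1_43_s : Sl2 kp2q1_43 := ⟨_, fun h1 h2 => (gsg_s.snd (pr_norm (kp2q1_42_s.snd h1 h2)))⟩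
noncomputable def kp2q1_47_s : Sl2 kp2q1_47 := ⟨_, fun h1 h2 => (esg_s.snd (pr_norm (kp2q1_42_s.snd h1 h2)))⟩
noncomputable def kp2q1_55_s : Sl2 kp2q1_55 := ⟨_, fun h1 h2 => (pr_mul (pr_nd (pr_scale 3 4 (pr_sq (pr_norm (kp2q1_42_s.snd h1 h2))))) (pr_nd (pr_inv (kp2q1_43_s.snd h1 h2))))⟩
noncomputable def kp2q1_s : Sl2 kp2q1 := ⟨_, fun h1 h2 => (pr_norm (pr_case (pr_subr 59 64 h1) (pr_mul (cv2m_s.snd h1) (pr_norm (pr_case (pr_subr 9 10 h1) (pr_add (pr_csub (enc_rat _ 48841791 20000000) (pr_scale 1052911 400000 h1)) (pr_cmul (enc_norm (kp2q1_4.enc h1.l h2)) (pr_norm (pr_subr 1907 400000 (pr_scale 2013 200000 h1))))) (pr_add (pr_csub (enc_rat _ 10684134651 4375000000) (pr_scale 575810307 218750000 h1)) (pr_cmul (enc_norm (kp2q1_4.enc h1.l h2)) (pr_norm (pr_csub (enc_rat _ 14058869 875000000) (pr_scale 286229 21875000 h1)))))))) (pr_case (pr_subr 31 32 h1)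 (pr_sub (pr_add (kug_s.snd (pr_norm (kp2q1_42_s.snd h1 h2))) (pr_mul (pr_norm (pr_sub (pr_mul (pr_norm (pr_mul (pr_norm (kp2q1_55_s.snd h1 h2)) (pr_norm (pr_subn 3 (pr_nat 4 (kp2q1_43_s.snd h1 h2)))))) (kp2q1_47_s.snd h1 h2)) (pr_mul (qsg_s.snd (pr_norm (kp2q1_42_s.snd h1 h2))) (pr_norm (pr_sub (pr_half (kp2q1_42_s.snd h1 h2)) (kp2q1_55_s.snd h1 h2)))))) (pr_nd (pr_inv (pr_mul (pr_nd (pr_nat 2 (kp2q1_47_s.snd h1 h2))) (kp2q1_47_s.snd h1 h2)))))) (pr_mul (pr_norm (pr_mul (pr_norm (kp2q1_42_s.snd h1 h2)) (kcg_s.snd (pr_norm (pr_sub (pr_scale 3 4 (kp2q1_42_s.snd h1 h2)) (pr_half (kp2q1_43_s.snd h1 h2)))) h2))) (pr_norm (pr_add (pr_cadd (enc_pnc _ 1) (gug_s.snd (pr_norm (kp2q1_42_s.snd h1 h2)))) (pr_nat 2 (kp2q1_43_s.snd h1 h2)))))) (pr_mul (cv2m_s.snd h1) (pr_norm (pr_add (pr_csub (enc_rat _ 714976 9765625) (pr_scale 714976 9765625 h1)) (pr_cmul (enc_norm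 (kp2q1_4.enc h1.l h2)) (pr_norm (pr_csub (enc_rat _ 226871 6250000) (pr_scale 226871 6250000 h1))))))))))⟩
noncomputable def kn2q1_s : Sl2 kn2q1 := ⟨_, fun h1 h2 => (pr_norm (pr_add (pr_cmul (enc_norm (enc_add (enc_pnc _ 1) (enc_mul (mug3.enc h2) (gug.enc h2)))) (kf2q1_s.snd h1 h2)) (pr_cmul (mug3.enc h2) (kp2q1_s.snd h1 h2))))⟩
noncomputable def kp2q2_41_s : Sl2 kp2q2_41 := ⟨_, fun h1 h2 => (pr_subn 1 h1)⟩
noncomputable def kp2q2_42_s : Sl2 kp2q2_42 := ⟨_, fun h1 h2 => (gsg_s.snd (pr_norm (kp2q2_41_s.snd h1 h2)))⟩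
noncomputable def kp2q2_46_s : Sl2 kp2q2_46 := ⟨_, fun h1 h2 => (esg_s.snd (pr_norm (kp2q2_41_s.snd h1 h2)))⟩
noncomputable def kp2q2_54_s : Sl2 kp2q2_54 := ⟨_, fun h1 h2 => (pr_mul (pr_nd (pr_scale 3 4 (pr_sq (pr_norm (kp2q2_41_s.snd h1 h2))))) (pr_nd (pr_inv (kp2q2_42_s.snd h1 h2))))⟩
noncomputable def kp2q2_s : Sl2 kp2q2 := ⟨_, fun h1 h2 => (pr_norm (pr_case (pr_subr 33 32 h1) (pr_mul (cv2p_s.snd h1) (pr_norm (pr_add (pr_subr 4908269 62500000 (pr_scale 4908269 62500000 h1)) (pr_cmul (enc_norm (kp2q2_4.enc h1.l h2)) (pr_norm (pr_subr 72023 1953125 (pr_scale 72023 1953125 h1))))))) (pr_case (pr_subr 69 64 h1) (pr_add (pr_sub (kug_s.snd (pr_norm (kp2q2_41_s.snd h1 h2))) (pr_mul (pr_norm (pr_sub (pr_mul (pr_norm (pr_mul (pr_norm (kp2q2_54_s.snd h1 h2)) (pr_norm (pr_subn 3 (pr_nat 4 (kp2q2_42_s.snd h1 h2)))))) (kp2q2_46_s.snd h1 h2)) (pr_mul (qsg_s.snd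 (pr_norm (kp2q2_41_s.snd h1 h2))) (pr_norm (pr_sub (pr_half (kp2q2_41_s.snd h1 h2)) (kp2q2_54_s.snd h1 h2)))))) (pr_nd (pr_inv (pr_mul (pr_nd (pr_nat 2 (kp2q2_46_s.snd h1 h2))) (kp2q2_46_s.snd h1 h2)))))) (pr_mul (pr_norm (pr_mul (pr_norm (kp2q2_41_s.snd h1 h2)) (kcg_s.snd (pr_norm (pr_sub (pr_scale 3 4 (kp2q2_41_s.snd h1 h2)) (pr_half (kp2q2_42_s.snd h1 h2)))) h2))) (pr_norm (pr_sub (pr_csub (enc_pnc _ 1) (gug_s.snd (pr_norm (kp2q2_41_s.snd h1 h2)))) (pr_nat 2 (kp2q2_42_s.snd h1 h2)))))) (pr_mul (cv2p_s.snd h1) (pr_norm (pr_case (pr_subr 11 10 h1) (pr_add (pr_subr 2310165769 546875000 (pr_scale 215137479 54687500 h1)) (pr_cmul (enc_norm (kp2q2_4.enc h1.l h2)) (pr_norm (pr_subr 1160743 125000000 (pr_scale 38997 3125000 h1))))) (pr_add (pr_subr 10560751 2500000 (pr_scale 196697 50000 h1)) (pr_cmul (enc_norm (kp2q2_4.enc h1.l h2)) (pr_norm (pr_csub (enc_rat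 _ 34457 2000000) (pr_scale 93 8000 h1)))))))))))⟩
noncomputable def kn2q2_s : Sl2 kn2q2 := ⟨_, fun h1 h2 => (pr_norm (pr_add (pr_cmul (enc_norm (enc_add (enc_pnc _ 1) (enc_mul (mug3.enc h2) (gug.enc h2)))) (kf2q2_s.snd h1 h2)) (pr_cmul (mug3.enc h2) (kp2q2_s.snd h1 h2))))⟩
noncomputable def bd2q3_s : Sl2 bd2q3 := ⟨_, fun h1 h2 => (pr_norm (pr_case (pr_subr 19 10 h1) (pr_add (pr_subr 752009411 40000000 (pr_scale 7230233 800000 h1)) (pr_cmul (enc_norm (bd2q3_3.enc h1.l h2)) (pr_norm (pr_csub (enc_rat _ 639 4000000) (pr_scale 37 400000 h1))))) (pr_add (pr_subr 188002367 10000000 (pr_scale 282431 31250 h1)) (pr_cmul (enc_norm (bd2q3_3.enc h1.l h2)) (pr_norm (pr_csub (enc_rat _ 31 200000) (pr_scale 9 100000 h1)))))))⟩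
noncomputable def kp2q3_s : Sl2 kp2q3 := ⟨_, fun h1 h2 => (pr_norm (pr_mul (cv2r_s.snd h1) (bd2q3_s.snd h1 h2)))⟩
noncomputable def kn2q3_s : Sl2 kn2q3 := ⟨_, fun h1 h2 => (pr_norm (pr_add (pr_cmul (enc_norm (enc_add (enc_pnc _ 1) (enc_mul (mug3.enc h2) (gug.enc h2)))) (kf2q3_s.snd h1 h2)) (pr_cmul (mug3.enc h2) (kp2q3_s.snd h1 h2))))⟩
noncomputable def bd3q0_9_s : Sl2 bd3q0_9 := ⟨_, fun h1 h2 => (pr_csub (enc_rat _ 62619589 10000000) (pr_scale 7268679 1000000 h1))⟩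
noncomputable def bd3q0_s : Sl2 bd3q0 := ⟨_, fun h1 h2 => (pr_norm (pr_case (pr_subr 1 10 h1) (pr_add (bd3q0_9_s.snd h1 h2) (pr_cmul (enc_norm (bd3q0_3.enc h1.l h2)) (pr_norm (pr_subr 113 1000000 (pr_neg (pr_scale 159 100000 h1)))))) (pr_add (bd3q0_9_s.snd h1 h2) (pr_cmul (enc_norm (bd3q0_3.enc h1.l h2)) (pr_norm (pr_subr 429 4000000 (pr_neg (pr_scale 659 400000 h1))))))))⟩
noncomputable def kp3q0_s : Sl2 kp3q0 := ⟨_, fun h1 h2 => (pr_norm (pr_mul (cv3m_s.snd h1) (bd3q0_s.snd h1 h2)))⟩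
noncomputable def kn3q0_s : Sl2 kn3q0 := ⟨_, fun h1 h2 => (pr_norm (pr_add (pr_cmul (enc_norm (enc_add (enc_pnc _ 1) (enc_mul (mug3.enc h2) (gug.enc h2)))) (kf3q0_s.snd h1 h2)) (pr_cmul (mug3.enc h2) (kp3q0_s.snd h1 h2))))⟩
noncomputable def bd3q1_s : Sl2 bd3q1 := ⟨_, fun h1 h2 => (pr_norm (pr_case (pr_subr 9 10 h1) (pr_add (pr_subr 22458267 40000000 (pr_scale 2245831 4000000 h1)) (pr_cmul (enc_norm (bd3q1_3.enc h1.l h2)) (pr_norm (pr_subr 489 80000 (pr_scale 1211 200000 h1))))) (pr_add (pr_subr 561447 1000000 (pr_scale 561447 1000000 h1)) (pr_cmul (enc_norm (bd3q1_3.enc h1.l h2)) (pr_norm (pr_subr 663 100000 (pr_scale 663 100000 h1)))))))⟩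
noncomputable def kp3q1_s : Sl2 kp3q1 := ⟨_, fun h1 h2 => (pr_norm (pr_mul (cv3m_s.snd h1) (bd3q1_s.snd h1 h2)))⟩
noncomputable def kn3q1_s : Sl2 kn3q1 := ⟨_, fun h1 h2 => (pr_norm (pr_add (pr_cmul (enc_norm (enc_add (enc_pnc _ 1) (enc_mul (mug3.enc h2) (gug.enc h2)))) (kf3q1_s.snd h1 h2)) (pr_cmul (mug3.enc h2) (kp3q1_s.snd h1 h2))))⟩
noncomputable def bd3q2_s : Sl2 bd3q2 := ⟨_, fun h1 h2 => (pr_norm (pr_case (pr_subr 11 10 h1) (pr_add (pr_csub (enc_rat _ 20867579 2500000) (pr_scale 8087517 1000000 h1)) (pr_cmul (enc_norm (bd3q2_3.enc h1.l h2)) (pr_norm (pr_subr 17743 200000 (pr_scale 6203 100000 h1))))) (pr_add (pr_csub (enc_rat _ 166940621 20000000) (pr_scale 16175033 2000000 h1)) (pr_cmul (enc_norm (bd3q2_3.enc h1.l h2)) (pr_norm (pr_subr 348029 4000000 (pr_scale 24191 400000 h1)))))))⟩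
noncomputable def kp3q2_s : Sl2 kp3q2 := ⟨_, fun h1 h2 => (pr_norm (pr_mul (cv3p_s.snd h1) (bd3q2_s.snd h1 h2)))⟩
noncomputable def kn3q2_s : Sl2 kn3q2 := ⟨_, fun h1 h2 => (pr_norm (pr_add (pr_cmul (enc_norm (enc_add (enc_pnc _ 1) (enc_mul (mug3.enc h2) (gug.enc h2)))) (kf3q2_s.snd h1 h2)) (pr_cmul (mug3.enc h2) (kp3q2_s.snd h1 h2))))⟩
noncomputable def bd3q3_s : Sl2 bd3q3 := ⟨_, fun h1 h2 => (pr_norm (pr_case (pr_subr 19 10 h1) (pr_add (pr_csub (enc_rat _ 457229859 20000000) (pr_scale 22861493 2000000 h1)) (pr_cmul (enc_norm (bd3q3_3.enc h1.l h2)) (pr_norm (pr_subr 621 4000000 (pr_scale 31 400000 h1))))) (pr_add (pr_csub (enc_rat _ 5715373 250000) (pr_scale 5715373 500000 h1)) (pr_cmul (enc_norm (bd3q3_3.enc h1.l h2)) (pr_norm (pr_subr 1 6250 (pr_scale 1 12500 h1)))))))⟩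
noncomputable def kpc33_s : Sl2 kpc33 := ⟨_, fun h1 h2 => (pr_norm (pr_mul (pr_norm (pr_add (pr_scale 3 5 (pr_subr 1 2 (swg_s.snd (pr_nd (ycg_s.snd h1))))) (pr_scale 2 5 h1))) (bd3q3_s.snd (pr_nd (ycg_s.snd h1)) h2)))⟩
noncomputable def knc33_s : Sl2 knc33 := ⟨_, fun h1 h2 => (pr_norm (pr_add (pr_cmul (enc_norm (enc_add (enc_pnc _ 1) (enc_mul (mug3.enc h2) (gug.enc h2)))) (kfc33_s.snd h1 h2)) (pr_cmul (mug3.enc h2) (kpc33_s.snd h1 h2))))⟩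
noncomputable def kp4q0_s : Sl2 kp4q0 := ⟨_, fun h1 h2 => (pr_norm (pr_mul h1 (pr_norm (pr_case (pr_subr 1 10 (pr_half h1)) (pr_add (pr_csub (enc_rat _ 6600927 10000000) (pr_scale 353563 500000 h1)) (pr_cmul (enc_norm (kp4q0_3.enc h1.l h2)) (pr_norm (pr_csub (enc_rat _ 17 12500) (pr_scale 859 100000 h1))))) (pr_add (pr_csub (enc_rat _ 26403707 40000000) (pr_scale 5657007 8000000 h1)) (pr_cmul (enc_norm (kp4q0_3.enc h1.l h2)) (pr_norm (pr_csub (enc_rat _ 1391 1000000) (pr_scale 1749 200000 h1)))))))))⟩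
noncomputable def kn4q0_s : Sl2 kn4q0 := ⟨_, fun h1 h2 => (pr_norm (pr_add (pr_cmul (enc_norm (enc_add (enc_pnc _ 1) (enc_mul (mug3.enc h2) (gug.enc h2)))) (kf4q0_s.snd h1 h2)) (pr_cmul (mug3.enc h2) (kp4q0_s.snd h1 h2))))⟩
noncomputable def kp4q1_s : Sl2 kp4q1 := ⟨_, fun h1 h2 => (pr_norm (pr_mul (pr_norm (pr_subn 1 h1)) (pr_norm (pr_case (pr_subr 1 10 (pr_half h1)) (pr_add (pr_csub (enc_rat _ 6600927 10000000) (pr_scale 353563 500000 h1)) (pr_cmul (enc_norm (kp4q1_3.enc h1.l h2)) (pr_norm (pr_csub (enc_rat _ 17 12500) (pr_scale 859 100000 h1))))) (pr_add (pr_csub (enc_rat _ 26403707 40000000) (pr_scale 5657007 8000000 h1)) (pr_cmul (enc_norm (kp4q1_3.enc h1.l h2)) (pr_norm (pr_csub (enc_rat _ 1391 1000000) (pr_scale 1749 200000 h1)))))))))⟩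
noncomputable def kn4q1_s : Sl2 kn4q1 := ⟨_, fun h1 h2 => (pr_norm (pr_add (pr_cmul (enc_norm (enc_add (enc_pnc _ 1) (enc_mul (mug3.enc h2) (gug.enc h2)))) (kf4q1_s.snd h1 h2)) (pr_cmul (mug3.enc h2) (kp4q1_s.snd h1 h2))))⟩
noncomputable def kp4q2_9_s : Sl2 kp4q2_9 := ⟨_, fun h1 h2 => (pr_sub (pr_half (c3g_s.snd h1)) (pr_scale 1 4 h1))⟩
noncomputable def kp4q2_s : Sl2 kp4q2 := ⟨_, fun h1 h2 => (pr_norm (pr_mul (pr_norm (pr_subn 1 h1)) (pr_norm (pr_case (pr_addc (kp4q2_9_s.snd h1 h2) (enc_rat _ 2 5)) (pr_add (pr_addc (pr_scale 7133 200000 (kp4q2_9_s.snd h1 h2)) (enc_rat _ 701043 5000000)) (pr_cmul (enc_norm (kp4q2_3.enc h1.l h2)) (pr_norm (pr_subr 23073 500000 (pr_neg (pr_scale 10223 100000 (kp4q2_9_s.snd h1 h2))))))) (pr_add (pr_addc (pr_scale 320983 9000000 (kp4q2_9_s.snd h1 h2)) (enc_rat _ 6309383 45000000)) (pr_cmul (enc_norm (kp4q2_3.enc h1.l h2))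 (pr_norm (pr_subr 69751 1500000 (pr_neg (pr_scale 6187 60000 (kp4q2_9_s.snd h1 h2)))))))))))⟩
noncomputable def kn4q2_s : Sl2 kn4q2 := ⟨_, fun h1 h2 => (pr_norm (pr_add (pr_cmul (enc_norm (enc_add (enc_pnc _ 1) (enc_mul (mug3.enc h2) (gug.enc h2)))) (kf4q2_s.snd h1 h2)) (pr_cmul (mug3.enc h2) (kp4q2_s.snd h1 h2))))⟩
noncomputable def kpc43_9_s : Sl2 kpc43_9 := ⟨_, fun h1 h2 => (pr_sub (pr_half h1) (pr_scale 1 4 (ycg_s.snd h1)))⟩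
noncomputable def kpc43_s : Sl2 kpc43 := ⟨_, fun h1 h2 => (pr_norm (pr_mul (pr_norm (pr_subn 2 (ycg_s.snd h1))) (pr_norm (pr_case (pr_addc (kpc43_9_s.snd h1 h2) (enc_rat _ 2 5)) (pr_add (pr_addc (pr_scale 7133 200000 (kpc43_9_s.snd h1 h2)) (enc_rat _ 701043 5000000)) (pr_cmul (enc_norm (kpc43_4.enc h1.l h2)) (pr_norm (pr_subr 23073 500000 (pr_neg (pr_scale 10223 100000 (kpc43_9_s.snd h1 h2))))))) (pr_add (pr_addc (pr_scale 320983 9000000 (kpc43_9_s.snd h1 h2)) (enc_rat _ 6309383 45000000)) (pr_cmul (enc_norm (kpc43_4.enc h1.l h2)) (pr_norm (pr_subr 69751 1500000 (pr_neg (pr_scale 6187 60000 (kpc43_9_s.snd h1 h2)))))))))))⟩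
noncomputable def knc43_s : Sl2 knc43 := ⟨_, fun h1 h2 => (pr_norm (pr_add (pr_cmul (enc_norm (enc_add (enc_pnc _ 1) (enc_mul (mug3.enc h2) (gug.enc h2)))) (kfc43_s.snd h1 h2)) (pr_cmul (mug3.enc h2) (kpc43_s.snd h1 h2))))⟩
noncomputable def gN0q0 : Gn := ⟨ndN0q0, c1g_s, kn0q0_s, l0q0_s, false⟩
noncomputable def gN0q1 : Gn := ⟨ndN0q1, c1g_s, kn0q1_s, l0q1_s, false⟩
noncomputable def gN0q2 : Gn := ⟨ndN0q2, idf_s, knc02_s, lc02_s, true⟩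
noncomputable def gN1q0 : Gn := ⟨ndN1q0, cv1m_s, kn1q0_s, l1q0_s, false⟩
noncomputable def gN1q1 : Gn := ⟨ndN1q1, cv1m_s, kn1q1_s, l1q1_s, false⟩
noncomputable def gN1q2 : Gn := ⟨ndN1q2, cv1p_s, kn1q2_s, l1q2_s, false⟩
noncomputable def gN1q3 : Gn := ⟨ndN1q3, cv1r_s, kn1q3_s, l1q3_s, false⟩
noncomputable def gN2q0 : Gn := ⟨ndN2q0, cv2m_s, kn2q0_s, l2q0_s, false⟩
noncomputable def gN2q1 : Gn := ⟨ndN2q1, cv2m_s, kn2q1_s, l2q1_s, false⟩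
noncomputable def gN2q2 : Gn := ⟨ndN2q2, cv2p_s, kn2q2_s, l2q2_s, false⟩
noncomputable def gN2q3 : Gn := ⟨ndN2q3, cv2r_s, kn2q3_s, l2q3_s, false⟩
noncomputable def gN3q0 : Gn := ⟨ndN3q0, cv3m_s, kn3q0_s, l3q0_s, false⟩
noncomputable def gN3q1 : Gn := ⟨ndN3q1, cv3m_s, kn3q1_s, l3q1_s, false⟩
noncomputable def gN3q2 : Gn := ⟨ndN3q2, cv3p_s, kn3q2_s, l3q2_s, false⟩
noncomputable def gN3q3 : Gn := ⟨ndN3q3, xc33_s, knc33_s, lc33_s, false⟩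
noncomputable def gN4q0 : Gn := ⟨ndN4q0, c3g_s, kn4q0_s, l4q0_s, false⟩
noncomputable def gN4q1 : Gn := ⟨ndN4q1, c3g_s, kn4q1_s, l4q1_s, false⟩
noncomputable def gN4q2 : Gn := ⟨ndN4q2, c3g_s, kn4q2_s, l4q2_s, false⟩
noncomputable def gN4q3 : Gn := ⟨ndN4q3, idf_s, knc43_s, lc43_s, false⟩
noncomputable def gN0q3 : Gn := gz
noncomputable def gN (j : Fin 5) (q : ℕ) : Gn :=
  match j, q with
  | 0, 0 => gN0q0
  | 0, 1 => gN0q1
  | 0, 2 => gN0q2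
  | 0, 3 => gN0q3
  | 1, 0 => gN1q0
  | 1, 1 => gN1q1
  | 1, 2 => gN1q2
  | 1, 3 => gN1q3
  | 2, 0 => gN2q0
  | 2, 1 => gN2q1
  | 2, 2 => gN2q2
  | 2, 3 => gN2q3
  | 3, 0 => gN3q0
  | 3, 1 => gN3q1
  | 3, 2 => gN3q2
  | 3, 3 => gN3q3
  | 4, 0 => gN4q0
  | 4, 1 => gN4q1
  | 4, 2 => gN4q2
  | 4, 3 => gN4q3
  | _, _ => gN0q0

noncomputable def c0F : Fn1 := ⟨fun _ => pone, fun _ => 1, fun _ => enc_one _⟩
noncomputable def c0N : Fn1 := c0n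

end Pool.Agent.Strip051.G.I3_64_1_16.Tab
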