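import Pool.Agent.Strip051.PB.MolRw
import Pool.Agent.Strip051.PB.MoR6
import Pool.Agent.Strip051.G.I3_64_1_16.Tab

/-! # The tight charts of a table: data (generated) -/

set_option linter.all false

namespace Pool.Agent.Strip051.G.I3_64_1_16.Tab.Mo

open Pool.Agent.Strip051.PB Pool.Agent.Strip051.PB.Mol
open Pool.Agent.Strip051.G.I3_64_1_16.Tab

noncomputable def dq : Fn3 :=
  dqK2 (dqK2 (dqK2 (dqQ (lnF true 248645697020593 258398100000000 false 83356143199453 17226540000000 7 128) (lnF true 73097 1000000 false 1088311 200000 7 128)) (lnF false 60827830469 98966472300000000 true 42702925937 6597764820000000 7 128) (lnF true 20903 1000000 true 4317 6250 7 128) true 661 1387) (lnF true 168442384283 622484767800000000 false 38065155947 8892639540000000 7 128) (lnF false 40507 2000000 true 103679 50000 7 128) true 23 50) (lnF false 8911951 23912043750000 false 14423549 5465610000000 7 128) (lnF false 51593 1000000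 true 117061 100000 7 128) true 191 434

noncomputable def mL : Fn2 :=
  exH2 (exQ (exC (lnF false 3455773169 140000000000 false 40276308923 105000000000 7 128)) (lnF false 1476373 20000000 false 18076397 5000000 7 128) false) (lqF false 3723532502737 1637422850000000000 false 130484546429 6140335687500000 true 1883721 8432500 7 128) (lnF true 39088133 100000000 true 27260421 1000000 7 128) false 21 1000

noncomputable def mR : Fn2 :=
  exQ (exC (lnF true 217037 14000000 true 35808897 140000000 7 128)) (lnF true 3887 20000 true 671647 200000 7 128) true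

noncomputable def kp : Fn2 :=
  plA (lnF true 2169871 10000000 true 11451 1000000 7 128) (lnF true 173583 400000 true 4897 200000 7 128) false 1 2

noncomputable def kb : Fn2 :=
  plA (lnF false 252973 1250000 true 220691 500000 7 128) (lnF true 2381 5000000 true 14159 25000 7 128) false 1 2

noncomputable def rK1 : Fn2 :=
  scH (exC (lnF false 6257 25000 false 127 7500 7 128)) (lnF false 2 21875 true 859 52500 7 128) 3 200

noncomputable def rX1 : Fn2 :=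
  scH (exC (lnF false 173 5000 false 5033 7500 7 128)) (lnF true 3 12500 true 254 13125 7 128) 3 200

noncomputable def rD1 : Fn2 :=
  exC (lnF true 434047 1000000 true 1657 100000 7 128)

noncomputable def sk1 : MolS :=
  stK 2 3 5 rK1 rX1 rD1

noncomputable def rK2 : Fn2 :=
  scH (exC (lnF true 7991 150000 true 137 3000 7 128)) (lnF true 179 6093750 false 902713 48750000 7 128) 3 200

noncomputable def rX2 : Fn2 :=
  scH (exC (lnF false 1123 30000 false 4963 7500 7 128)) (lqF false 1114019 243750000 false 1678811 24375000 true 22 325 7 128) 3 200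

noncomputable def rD2 : Fn2 :=
  exC (lnF false 4908269 62500000 false 72023 1953125 7 128)

noncomputable def sk2 : MolS :=
  stK 0 1 1 rK2 rX2 rD2

noncomputable def sp : MolS :=
  stP kcg mL mR kp

noncomputable def sm : MolS :=
  stM kcg mR kb

noncomputable def sK_Ap : Fn3 :=
  sl0 (sgF (w3W false) cv3p (w3K false 1 kcg) kf3q2)

noncomputable def sX_Ap : Fn3 :=
  sl0 (sgF (w3W false) cv3p (w3Q false kcg) l3q2)

noncomputable def sD_Ap : Fn3 :=
  sl0 (sgF (w3W false) cv3p (w3D false 1 kcg) kp3q2)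

noncomputable def T_Ap : MolT :=
  ⟨kcg, dq, sp, 2, sK_Ap, sX_Ap, sD_Ap, 0, 1, 0, 1⟩

noncomputable def sk_Ap : List Fn3 := [skP true 25165824, skM true 25165824]

noncomputable def cx_Ap : List Fn3 :=
  [f3A sp.xs (tCX cv3p)]

noncomputable def c0_Ap : Cht3 := kq0Ap (T_Ap.a true) sk_Ap cx_Ap

noncomputable def c1_Ap : Cht3 := kq1Ap (T_Ap.a true) sk_Ap cx_Ap

noncomputable def sK_Apk1 : Fn3 :=
  sl0 (sgF (w3W false) cv3p (w3K false 1 kcg) kf3q2)

noncomputable def sX_Apk1 : Fn3 :=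
  sl0 (sgF (w3W false) cv3p (w3Q false kcg) l3q2)

noncomputable def sD_Apk1 : Fn3 :=
  sl0 (sgF (w3W false) cv3p (w3D false 1 kcg) kp3q2)

noncomputable def T_Apk1 : MolT :=
  ⟨kcg, dq, sk1, 2, sK_Apk1, sX_Apk1, sD_Apk1, 0, 1, 0, 1⟩

noncomputable def sk_Apk1 : List Fn3 := [skP true 33554432, skM true 33554432]

noncomputable def cx_Apk1 : List Fn3 :=
  [f3A sk1.xs (tCX cv3p)]

noncomputable def c0_Apk1 : Cht3 := kq0Ap (T_Apk1.a true) sk_Apk1 cx_Apk1

noncomputable def c1_Apk1 : Cht3 := kq1Ap (T_Apk1.a true) sk_Apk1 cx_Apk1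

noncomputable def sK_Apk2 : Fn3 :=
  sl0 (sgF (w3W false) cv3p (w3K false 1 kcg) kf3q2)

noncomputable def sX_Apk2 : Fn3 :=
  sl0 (sgF (w3W false) cv3p (w3Q false kcg) l3q2)

noncomputable def sD_Apk2 : Fn3 :=
  sl0 (sgF (w3W false) cv3p (w3D false 1 kcg) kp3q2)

noncomputable def T_Apk2 : MolT :=
  ⟨kcg, dq, sk2, 2, sK_Apk2, sX_Apk2, sD_Apk2, 0, 1, 0, 1⟩

noncomputable def sk_Apk2 : List Fn3 := [skP true 33554432, skM true 33554432]

noncomputable def cx_Apk2 : List Fn3 :=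
  [f3A sk2.xs (tCX cv3p)]

noncomputable def c0_Apk2 : Cht3 := kq0Ap (T_Apk2.a true) sk_Apk2 cx_Apk2

noncomputable def c1_Apk2 : Cht3 := kq1Ap (T_Apk2.a true) sk_Apk2 cx_Apk2

noncomputable def sK_Am : Fn3 :=
  sl0 (sgF cv1p (w3W false) kf1q2 (w3K false 1 kcg))

noncomputable def sX_Am : Fn3 :=
  sl0 (sgF cv1p (w3W false) l1q2 (w3Q false kcg))

noncomputable def sD_Am : Fn3 :=
  sl0 (sgF cv1p (w3W false) kp1q2 (w3D false 1 kcg))

noncomputable def T_Am : MolT :=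
  ⟨kcg, dq, sm, 2, sK_Am, sX_Am, sD_Am, 0, 1, 0, 1⟩

noncomputable def sk_Am : List Fn3 := [skP true 25165824, skM true 25165824]

noncomputable def cx_Am : List Fn3 :=
  [f3A sm.xs (tCC (w3W false) cv1p),
    f3A sm.xs (tXC cv1p)]

noncomputable def c0_Am : Cht3 := kq0Am (T_Am.a false) sk_Am cx_Am

noncomputable def c1_Am : Cht3 := kq1Am (T_Am.a false) sk_Am cx_Am

noncomputable def sK_Bp : Fn3 :=
  sl0 (sgF cv1m (w3W true) kf1q1 (w3K true 1 kcg))

noncomputable def sX_Bp : Fn3 :=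
  sl0 (sgF cv1m (w3W true) l1q1 (w3Q true kcg))

noncomputable def sD_Bp : Fn3 :=
  sl0 (sgF cv1m (w3W true) kp1q1 (w3D true 1 kcg))

noncomputable def T_Bp : MolT :=
  ⟨kcg, dq, sp, 1, sK_Bp, sX_Bp, sD_Bp, 0, 1, 0, 1⟩

noncomputable def sk_Bp : List Fn3 := [skP false 25165824, skM false 25165824]

noncomputable def cx_Bp : List Fn3 :=
  [f3B sp.xs (tCC (w3W true) cv1m),
    f3B sp.xs (tXC cv1m)]

noncomputable def c0_Bp : Cht3 := kq0Bp (T_Bp.b true) sk_Bp cx_Bp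

noncomputable def c1_Bp : Cht3 := kq1Bp (T_Bp.b true) sk_Bp cx_Bp

noncomputable def sK_Bpk1 : Fn3 :=
  sl0 (sgF cv1m (w3W true) kf1q1 (w3K true 1 kcg))

noncomputable def sX_Bpk1 : Fn3 :=
  sl0 (sgF cv1m (w3W true) l1q1 (w3Q true kcg))

noncomputable def sD_Bpk1 : Fn3 :=
  sl0 (sgF cv1m (w3W true) kp1q1 (w3D true 1 kcg))

noncomputable def T_Bpk1 : MolT :=
  ⟨kcg, dq, sk1, 1, sK_Bpk1, sX_Bpk1, sD_Bpk1, 0, 1, 0, 1⟩

noncomputable def sk_Bpk1 : List Fn3 := [skP false 33554432, skM false 33554432]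

noncomputable def cx_Bpk1 : List Fn3 :=
  [f3B sk1.xs (tCC (w3W true) cv1m),
    f3B sk1.xs (tXC cv1m)]

noncomputable def c0_Bpk1 : Cht3 := kq0Bp (T_Bpk1.b true) sk_Bpk1 cx_Bpk1

noncomputable def c1_Bpk1 : Cht3 := kq1Bp (T_Bpk1.b true) sk_Bpk1 cx_Bpk1

noncomputable def sK_Bpk2 : Fn3 :=
  sl0 (sgF cv1m (w3W true) kf1q1 (w3K true 1 kcg))

noncomputable def sX_Bpk2 : Fn3 :=
  sl0 (sgF cv1m (w3W true) l1q1 (w3Q true kcg))

noncomputable def sD_Bpk2 : Fn3 :=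
  sl0 (sgF cv1m (w3W true) kp1q1 (w3D true 1 kcg))

noncomputable def T_Bpk2 : MolT :=
  ⟨kcg, dq, sk2, 1, sK_Bpk2, sX_Bpk2, sD_Bpk2, 0, 1, 0, 1⟩

noncomputable def sk_Bpk2 : List Fn3 := [skP false 33554432, skM false 33554432]

noncomputable def cx_Bpk2 : List Fn3 :=
  [f3B sk2.xs (tCC (w3W true) cv1m),
    f3B sk2.xs (tXC cv1m)]

noncomputable def c0_Bpk2 : Cht3 := kq0Bp (T_Bpk2.b true) sk_Bpk2 cx_Bpk2

noncomputable def c1_Bpk2 : Cht3 := kq1Bp (T_Bpk2.b true) sk_Bpk2 cx_Bpk2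

noncomputable def sK_Bm : Fn3 :=
  sl1 (sgF (w3W true) cv3m (w3K true 1 kcg) kf3q1) (sgF cv3m c3g kf3q1 kf4q1) (hgR (w3W true) cv3m)

noncomputable def sX_Bm : Fn3 :=
  sl1 (sgF (w3W true) cv3m (w3Q true kcg) l3q1) (sgF cv3m c3g l3q1 l4q1) (hgR (w3W true) cv3m)

noncomputable def sD_Bm : Fn3 :=
  sl1 (sgF (w3W true) cv3m (w3D true 1 kcg) kp3q1) (sgF cv3m c3g kp3q1 kp4q1) (hgR (w3W true) cv3m)

noncomputable def T_Bm : MolT :=
  ⟨kcg, dq, sm, 1, sK_Bm, sX_Bm, sD_Bm, 0, 1, 0, 1⟩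

noncomputable def sk_Bm : List Fn3 := [skP false 25165824, skM false 25165824, f3B sm.xs (tXC c3g)]

noncomputable def cx_Bm : List Fn3 :=
  [f3B sm.xs (tCC cv3m (w3W true))]

noncomputable def c0_Bm : Cht3 := kq0Bm (T_Bm.b false) sk_Bm cx_Bm

noncomputable def c1_Bm : Cht3 := kq1Bm (T_Bm.b false) sk_Bm cx_Bm

noncomputable def sk_T3 : List Fn3 := [skP false 33554432, skM false 33554432]

noncomputable def st_T3 : MolS := stT fnB sk2 (sl0 (sgF cv2p cv3p kf2q2 kf3q2)) (sl0 (sgF cv2p cv3p l2q2 l3q2)) (sl0 (sgF cv2p cv3p kp2q2 kp3q2))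

noncomputable def T_T3 : MolT :=
  ⟨kcg, dq, st_T3, 1, fZ, fZ, fZ, 0, 1, 0, 1⟩

noncomputable def cx_T3 : List Fn3 := [fTs st_T3.xs (tCX cv3p)]

noncomputable def c0_T3 : Cht3 := kq0Bp (T_T3.b true) sk_T3 cx_T3

noncomputable def c1_T3 : Cht3 := kq1Bp (T_T3.b true) sk_T3 cx_T3

noncomputable def sk_T4 : List Fn3 := [skP true 33554432, skM true 33554432]

noncomputable def st_T4 : MolS := stT fnA sk2 (sl0 (sgF cv2p cv3p kf2q2 kf3q2)) (sl0 (sgF cv2p cv3p l2q2 l3q2)) (sl0 (sgF cv2p cv3p kp2q2 kp3q2))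

noncomputable def T_T4 : MolT :=
  ⟨kcg, dq, st_T4, 2, fZ, fZ, fZ, 0, 1, 0, 1⟩

noncomputable def cx_T4 : List Fn3 := [fTs st_T4.xs (tCX cv3p)]

noncomputable def c0_T4 : Cht3 := kq0Ap (T_T4.a true) sk_T4 cx_T4

noncomputable def c1_T4 : Cht3 := kq1Ap (T_T4.a true) sk_T4 cx_T4

noncomputable def sk_T5 : List Fn3 := [skP true 25165824, skM true 25165824]

noncomputable def gK : Fn3 :=
  sl1 (sgF c1g cv1m kf0q0 kf1q0) (sgF cv1m cv2m kf1q0 kf2q0) (hgR c1g cv1m)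

noncomputable def gX : Fn3 :=
  sl1 (sgF c1g cv1m l0q0 l1q0) (sgF cv1m cv2m l1q0 l2q0) (hgR c1g cv1m)

noncomputable def gD : Fn3 :=
  sl1 (sgF c1g cv1m kp0q0 kp1q0) (sgF cv1m cv2m kp1q0 kp2q0) (hgR c1g cv1m)

noncomputable def p_T5 : Fn3 := fp1 true sm.ws fnA

noncomputable def T_T5 : MolT :=
  ⟨kcg, dq, sm, 2, fZ, fZ, fZ, 0, 1, 0, 1⟩

noncomputable def cx_T5 : List Fn3 := [f1t p_T5 (tCX cv2m), f1t p_T5 (tCC cv1m c1g)]

noncomputable def c0_T5 : Cht3 := kq0Am (shF (T_T5.a false) (fp1 true T_T5.st.ws fnA) gK gX gD) sk_T5 cx_T5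

noncomputable def c1_T5 : Cht3 := kq1Am (shF (T_T5.a false) (fp1 true T_T5.st.ws fnA) gK gX gD) sk_T5 cx_T5

noncomputable def sk_T7 : List Fn3 := [skP false 33554432, skM false 33554432]

noncomputable def p_T7 : Fn3 := fp1 false sp.ws fnB

noncomputable def T_T7 : MolT :=
  ⟨kcg, dq, sp, 1, fZ, fZ, fZ, 0, 1, 0, 1⟩

noncomputable def cx_T7 : List Fn3 := [f1t p_T7 (tCX cv2m), f1t p_T7 (tCC cv1m c1g)]

noncomputable def c0_T7 : Cht3 := kq0Bp (shF (T_T7.b true) (fp1 false T_T7.st.ws fnB) gK gX gD) sk_T7 cx_T7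

noncomputable def c1_T7 : Cht3 := kq1Bp (shF (T_T7.b true) (fp1 false T_T7.st.ws fnB) gK gX gD) sk_T7 cx_T7

noncomputable def sk_T7k1 : List Fn3 := [skP false 33554432, skM false 33554432]

noncomputable def p_T7k1 : Fn3 := fp1 false sk1.ws fnB

noncomputable def T_T7k1 : MolT :=
  ⟨kcg, dq, sk1, 1, fZ, fZ, fZ, 0, 1, 0, 1⟩

noncomputable def cx_T7k1 : List Fn3 := [f1t p_T7k1 (tCX cv2m), f1t p_T7k1 (tCC cv1m c1g)]

noncomputable def c0_T7k1 : Cht3 := kq0Bp (shF (T_T7k1.b true) (fp1 false T_T7k1.st.ws fnB) gK gX gD) sk_T7k1 cx_T7k1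

noncomputable def c1_T7k1 : Cht3 := kq1Bp (shF (T_T7k1.b true) (fp1 false T_T7k1.st.ws fnB) gK gX gD) sk_T7k1 cx_T7k1

noncomputable def sk_T7k2 : List Fn3 := [skP false 33554432, skM false 33554432]

noncomputable def p_T7k2 : Fn3 := fp1 false sk2.ws fnB

noncomputable def T_T7k2 : MolT :=
  ⟨kcg, dq, sk2, 1, fZ, fZ, fZ, 0, 1, 0, 1⟩

noncomputable def cx_T7k2 : List Fn3 := [f1t p_T7k2 (tCX cv2m), f1t p_T7k2 (tCC cv1m c1g)]

noncomputable def c0_T7k2 : Cht3 := kq0Bp (shF (T_T7k2.b true) (fp1 false T_T7k2.st.ws fnB) gK gX gD) sk_T7k2 cx_T7k2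

noncomputable def c1_T7k2 : Cht3 := kq1Bp (shF (T_T7k2.b true) (fp1 false T_T7k2.st.ws fnB) gK gX gD) sk_T7k2 cx_T7k2

end Pool.Agent.Strip051.G.I3_64_1_16.Tab.Mo
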