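import Pool.Agent.Strip051.G.I3_64_1_16.StF

/-! # Unit strips 1 (generated) -/

set_option linter.all false
set_option maxRecDepth 100000

namespace Pool.Agent.Strip051.G.I3_64_1_16.Tab.St.C

open Pool.Agent.Strip051.PB Pool.Agent.Strip051.PB.T Pool.Agent.StripNear Pool.Agent.Strip051.LC
open Pool.Agent.Strip051.G.I3_64_1_16.Tab Pool.Agent.Strip051.G.I3_64_1_16.Tab.St

noncomputable def cut_A00pm_012_s1 : Cut := Cut.of [[⟨4, 0, 0, 1449551462⟩], [⟨0, 0, 0, 12582912⟩, ⟨1, 1, 0, 12582912⟩, ⟨2, 1, 0, 12582912⟩], [⟨0, 0, 1, 25165824⟩, ⟨1, 1, 0, 8388608⟩, ⟨2, 1, 1, 25165824⟩, ⟨0, 0, 0, 83886080⟩, ⟨0, 1, 0, 1040187392⟩, ⟨2, 1, 0, 83886080⟩, ⟨2, 2, 0, 1040187392⟩]]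

noncomputable def xt_A00pm_012_s1 : Ext := strExt dd true true false .u0 .u0m .u2 .pnp 0 1 2 rfl rfl gf2 vv ndF0q0 ndF0q1

noncomputable def f_A00pm_012_s1 : ℕ → ℕ → ℕ → ℕ → Bool := onCell 1073741824 536870912 536870912 536870912 50331648 16777216
    (rowFK 2 true true false .pnp 0 1 2 (qsf 0 536870912 536870912 536870912 2) ndF0q0 ndF0q1 pcF2 cut_A00pm_012_s1 xt_A00pm_012_s1)

def k0_A00pm_012_s1 : ∃ t, chk3 f_A00pm_012_s1 t 2 2 1 = true :=
  ⟨(a (a (l 3) (l 3)) (b (a (a (a (l 3) (l 2)) (l 2)) (l 2)) (b (a (a (a (l 3) (b (a (l 3) (b (l 2) (a (a (l 3) (l 547682175)) (a (a (l 547072639) (l 9227501991)) (l 16797816))))) (a (a (l 3) (a (l 3) (l 549744255))) (a (a (l 549355135) (l 548895359)) (a (a (l 548495487) (a (l 548265343) (l 548170367))) (b (l 16813496) (l 16799440))))))) (a (b (a (a (l 14596252039) (l 2)) (l 2)) (a (a (l 16825152) (l 16814976)) (l 16830680))) (l 16937344))) (a (l 16989176) (l 2))) (a (a (a (a (l 3) (b (l 3) (l 553330303))) (a (a (b (l 551833215) (l 552984191)) (b (a (l 551404415)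 (b (l 550754943) (l 551428735))) (l 552483711))) (a (a (b (b (l 550413183) (l 551112319)) (l 552099455)) (b (l 552015487) (l 551797375))) (b (a (a (l 550066303) (l 549853823)) (b (l 16808288) (l 16819256))) (a (a (l 551530879) (l 16866624)) (l 16881832)))))) (a (b (b (l 16875776) (l 16887496)) (a (l 16897248) (l 16878856))) (a (l 16969928) (l 16990456)))) (a (l 17120696) (l 17013864)))))), by decide +kernel⟩

def k1_A00pm_012_s1 : ∃ t, chk3 f_A00pm_012_s1 t 4 6 1 = true :=
  ⟨(a (l 3) (a (b (l 3) (a (l 3) (b (l 3) (l 563074687)))) (b (a (l 3) (l 556098431)) (a (b (l 559512703) (l 561372031)) (b (l 558098559) (l 559774591)))))), by decide +kernel⟩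

def k2_A00pm_012_s1 : ∃ t, chk3 f_A00pm_012_s1 t 8 14 1 = true :=
  ⟨(b (l 3) (a (l 3) (a (l 3) (a (a (l 3) (l 572059919)) (l 571494527))))), by decide +kernel⟩

def k3_A00pm_012_s1 : ∃ t, chk3 f_A00pm_012_s1 t 8 30 1 = true :=
  ⟨(a (b (l 3) (a (l 3) (a (l 3) (b (l 3) (b (l 3) (a (l 3) (a (a (l 3) (b (l 3) (c (l 556146303) (l 538107519)))) (c (c (l 563796095) (l 555451263)) (b (c (l 548655999) (l 538943871)) (c (l 544370559) (l 536855423))))))))))) (a (b (a (l 3) (b (l 3) (a (l 570785551) (l 571429391)))) (a (b (a (a (l 3) (c (l 570829839) (b (l 3) (l 557802367)))) (c (a (l 571680271) (l 572398719)) (a (b (l 3) (a (l 559030143) (l 558982927))) (b (l 563146367) (l 560842767))))) (a (c (b (l 566588287) (a (l 562005119) (l 564059775))) (c (b (a (l 555231871) (l 557374079)) (a (b (l 551606911) (l 548793983)) (l 553003135))) (b (a (b (l 3) (l 546882943)) (l 550748287)) (a (b (l 543992191) (l 540735871)) (b (l 547020927) (l 544150143)))))) (c (a (l 567378191) (b (l 569785471) (l 567353983))) (a (b (l 555313935)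 (a (l 550238079) (l 552271743))) (b (b (l 558715151) (l 557080591)) (a (l 553692031) (l 553698431))))))) (a (b (c (l 573288831) (l 563714319)) (a (c (l 569825551) (b (l 559522319) (l 556271887))) (b (l 566252671) (l 563649039)))) (b (l 568143119) (c (l 571989119) (b (l 562717567) (l 560343055))))))) (a (b (a (l 572269951) (b (l 572344335) (l 572057215))) (b (a (l 570645007) (l 571249535)) (a (c (l 573135487) (l 563769871)) (l 569648655)))) (b (b (l 572140047) (l 572147727)) (b (l 570978319) (a (l 16945544) (l 17024944))))))), by decide +kernel⟩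

def k4_A00pm_012_s1 : ∃ t, chk3 f_A00pm_012_s1 t 32 62 1 = true :=
  ⟨(b (l 3) (a (l 3) (a (l 3) (b (l 3) (b (l 3) (b (l 3) (a (l 3) (a (l 3) (b (a (l 3) (a (a (l 3) (a (l 3) (a (l 3) (b (l 3) (l 535620991))))) (c (l 535648895) (a (b (l 3) (l 535598207)) (b (l 535604095) (l 535600511)))))) (a (b (l 3) (a (l 3) (a (l 535538959) (c (l 535632255) (l 535584271))))) (c (a (c (l 535648783) (l 535624975)) (l 535641471)) (a (a (b (c (l 535602303) (c (l 535584127) (l 535572239))) (b (a (l 535587087) (l 535588111)) (l 535585807))) (b (l 535592575) (b (l 535590015) (l 535588111)))) (c (l 535605631) (b (l 535583615) (l 535580287))))))))))))))), by decide +kernel⟩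

def k5_A00pm_012_s1 : ∃ t, chk3 f_A00pm_012_s1 t 64 126 1 = true :=
  ⟨(b (l 3) (a (l 3) (a (l 3) (b (l 3) (a (l 3) (b (l 3) (b (l 3) (a (l 3) (a (l 3) (a (l 535631743) (l 535365503))))))))))), by decide +kernel⟩

def k6_A00pm_012_s1 : ∃ t, chk3 f_A00pm_012_s1 t 260 126 1 = true :=
  ⟨(b (l 3) (b (a (l 3) (b (l 3) (a (l 3) (b (l 3) (a (l 535421567) (l 535425919)))))) (a (b (a (l 3) (a (l 3) (b (l 3) (l 535595903)))) (a (a (b (l 3) (a (l 535367551) (l 535369855))) (b (c (l 535669631) (l 535356287)) (c (l 535662975) (l 535349631)))) (a (b (c (l 535674239) (l 535360895)) (c (l 535667327) (l 535354239))) (b (c (l 535678591) (l 535365247)) (c (l 535671935) (l 535358591)))))) (a (a (b (b (l 535674239) (l 535533183)) (b (l 535526527) (l 535586831))) (b (b (l 535678591) (l 535671935)) (b (l 535665279) (l 535524223)))) (a (b (b (l 535683199) (l 535676287)) (b (l 535669631) (l 535662975))) (b (b (l 535419263) (l 535680895)) (b (l 535673983) (l 535667327)))))))), by decide +kernel⟩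

def k7_A00pm_012_s1 : ∃ t, chk3 f_A00pm_012_s1 t 261 126 1 = true :=
  ⟨(a (b (l 3) (a (b (b (l 3) (b (a (l 535437183) (l 535441791)) (a (l 535430527) (l 535434879)))) (a (b (b (l 535423615) (l 535416959)) (b (l 535410047) (l 535671935))) (b (b (l 535428223) (l 535421311)) (b (l 535414655) (l 535407743))))) (b (b (b (l 3) (a (l 535453055) (l 535457407))) (a (b (l 535446143) (l 535439487)) (b (l 535450751) (l 535443839)))) (b (a (b (l 535432575) (l 535425919)) (b (l 535437183) (l 535430271))) (a (b (l 535419007) (l 535412351)) (b (l 535423615) (l 535416703))))))) (b (b (l 3) (b (l 3) (a (l 3) (b (l 3) (c (l 535508607) (l 535462271)))))) (b (b (a (b (c (l 535626623) (l 535446399)) (c (l 535619711) (l 535439487))) (b (c (l 535501439) (l 535455359)) (c (l 535494527) (l 535448703)))) (a (b (c (l 535612799) (l 535432831)) (c (l 535605887) (l 535425919))) (b (c (l 535756159) (l 535441791)) (c (l 535749247) (l 535434879))))) (b (a (a (b (l 535441535) (l 535434879)) (b (l 535446143) (l 535439231))) (b (c (l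 535607935) (l 535428223)) (c (l 535601023) (l 535421311)))) (a (a (b (l 535427967) (l 535421311)) (b (l 535432575) (l 535425663))) (a (b (l 535436927) (l 535430271)) (b (l 535441535) (l 535434623)))))))), by decide +kernel⟩

def k8_A00pm_012_s1 : ∃ t, chk3 f_A00pm_012_s1 t 131 252 1 = true :=
  ⟨(a (b (a (l 3) (b (l 3) (b (a (l 3) (c (l 535714319) (l 535533071))) (a (l 535540607) (a (l 535548543) (l 535553039)))))) (a (b (a (l 3) (b (l 535658623) (l 535651711))) (b (a (c (l 535524735) (l 535478143)) (l 535644799)) (a (c (l 535517567) (l 535471231)) (l 535637887)))) (b (a (a (l 535661327) (l 535666047)) (a (l 535804799) (l 535809295))) (b (a (l 535653759) (l 535528575)) (a (l 535646847) (l 535521663)))))) (b (b (b (a (a (l 3) (a (l 3) (l 535592207))) (a (a (a (l 535595903) (l 535598095)) (c (l 535625343) (a (l 535576703) (l 535578895)))) (c (a (l 535629839) (c (l 535646223) (l 535622415))) (a (a (c (l 535592975) (b (l 535571215) (l 535567743))) (b (l 535585295) (l 535582079))) (b (a (l 535587599) (l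 535590015)) (l 535585039)))))) (a (a (a (l 3) (l 535576191)) (a (l 535580543) (l 535585151))) (a (c (l 535614735) (a (l 535565951) (l 535570447))) (a (a (l 535597839) (c (l 535624063) (l 535576335))) (b (a (l 535604607) (l 535606911)) (l 535601935)))))) (a (a (b (l 535699983) (a (l 535557391) (l 535561999))) (b (a (l 535573631) (l 535578239)) (l 535634959))) (a (a (b (l 535582591) (l 535575679)) (b (l 535587087) (l 535580287))) (a (b (c (l 535615615) (l 535567887)) (l 535584783)) (b (c (l 535620223) (l 535572495)) (l 535589135)))))) (a (b (a (a (b (l 535550479) (l 535543679)) (b (l 535555087) (l 535548031))) (b (c (l 535584271) (l 535537167)) (a (l 535552639) (l 535557247)))) (b (a (a (l 535536767) (l 535541119)) (a (l 535545727) (l 535550079))) (a (l 535530767) (l 535674127)))) (b (a (b (a (l 535568767) (l 535573119)) (a (l 535561599) (l 535566207))) (a (a (l 535571983) (l 535574287)) (b (l 535582335) (l 535575423)))) (a (b (l 535689999) (l 535683087)) (b (a (l 535563903) (l 535568255)) (l 535692303))))))),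 by decide +kernel⟩

def k9_A00pm_012_s1 : ∃ t, chk3 f_A00pm_012_s1 t 131 253 1 = true :=
  ⟨(a (b (a (b (a (b (c (l 535510655) (l 535464319)) (c (l 535503743) (l 535457663))) (b (l 535630975) (l 535623951))) (a (b (c (l 535496831) (l 535450751)) (c (l 535489919) (l 535443839))) (b (l 535617039) (l 535643663)))) (b (b (a (l 535639935) (l 535514751)) (a (l 535633023) (l 535776383))) (a (b (l 535626111) (l 535619199)) (b (l 535769471) (l 535762559))))) (b (b (a (a (c (l 535751295) (l 535437183)) (c (l 535491967) (l 535446143))) (a (l 535612287) (l 535621503))) (a (a (c (l 535744383) (l 535430271)) (c (l 535485055) (l 535439487))) (a (l 535672703) (l 535614591)))) (b (a (a (c (l 535737471) (l 535423615)) (c (l 535746687) (l 535432575))) (a (l 535598607) (l 535607679))) (a (a (c (l 535730559) (l 535416703)) (c (l 535739775) (l 535425919))) (a (c (l 535480447) (l 535434879)) (l 535601023)))))) (b (a (b (a (a (l 535785743) (l 535790351)) (b (l 535666959) (l 535660047))) (a (a (l 535704847) (l 535776527)) (a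 (l 535781135) (l 535785487)))) (b (a (b (l 535676175) (l 535669263)) (b (l 535685391) (l 535678223))) (a (b (l 535662351) (l 535655439)) (b (l 535671311) (l 535798799))))) (a (b (a (b (l 535630463) (l 535623551)) (a (l 535699983) (l 535771663))) (a (b (l 535616895) (l 535609983)) (b (l 535759999) (l 535753343)))) (b (a (b (l 535648527) (l 535775871)) (b (l 535791887) (l 535784975))) (a (a (l 535762447) (l 535767055)) (b (l 535778063) (l 535771407))))))), by decide +kernel⟩

def k10_A00pm_012_s1 : ∃ t, chk3 f_A00pm_012_s1 t 128 254 1 = true :=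
  ⟨(b (l 3) (l 14)), by decide +kernel⟩

def k11_A00pm_012_s1 : ∃ t, chk3 f_A00pm_012_s1 t 258 254 1 = true :=
  ⟨(b (a (l 3) (b (l 3) (a (l 3) (a (l 3) (a (l 3) (b (l 3) (b (l 3) (l 535303551)))))))) (a (l 14) (b (a (l 14) (a (l 14) (b (a (l 14) (b (l 535300223) (l 14))) (l 14)))) (l 14)))), by decide +kernel⟩

def k12_A00pm_012_s1 : ∃ t, chk3 f_A00pm_012_s1 t 259 508 1 = true :=
  ⟨(b (b (a (l 3) (a (a (l 3) (a (l 535616127) (l 535618175))) (b (a (l 535355263) (l 535359615)) (a (l 535351935) (l 535356287))))) (a (b (l 3) (a (l 3) (a (l 3) (l 535600511)))) (a (a (b (l 535339647) (l 535604863)) (a (l 535609471) (l 535611519))) (b (a (l 535348607) (l 535352959)) (a (l 535345279) (l 535349631)))))) (b (a (b (a (l 3) (a (l 535458431) (l 535597183))) (a (a (l 3) (a (l 3) (l 535318911))) (a (l 535522175) (l 535593855)))) (a (a (b (l 535601535) (l 535598207)) (b (l 535337599) (l 535602559))) (a (a (l 535607167) (l 535609215)) (a (l 535611519) (l 535613823))))) (a (b (a (a (c (l 535598975) (l 535286655)) (c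 (l 535603583) (l 535291007))) (a (l 535518735) (l 535590527))) (a (a (c (l 535595647) (l 535283327)) (c (l 535600255) (l 535287935))) (a (a (l 535314559) (l 535316607)) (l 535587199)))) (a (a (b (l 535594879) (l 535591551)) (b (l 535599231) (l 535595903))) (a (b (l 535335295) (l 535600511)) (a (l 535604863) (l 535607167))))))), by decide +kernel⟩

def k13_A00pm_012_s1 : ∃ t, chk3 f_A00pm_012_s1 t 259 509 1 = true :=
  ⟨(b (b (b (a (a (a (c (l 535592319) (l 535279999)) (c (l 535596927) (l 535284607))) (a (a (l 535311231) (l 535313279)) (l 535516799))) (a (a (l 535588223) (l 535592831)) (a (l 535597183) (l 535333247)))) (a (a (a (c (l 535588991) (l 535276927)) (c (l 535593599) (l 535281279))) (a (c (l 535597951) (l 535285631)) (l 535546895))) (a (a (l 535584895) (l 535589503)) (a (l 535593855) (l 535598207))))) (b (a (a (a (l 14) (c (l 535590271) (l 535277951))) (a (c (l 535594623) (l 535282303)) (c (l 535599231) (l 535286911)))) (a (a (l 535581567) (l 535586175)) (a (l 535590527) (l 535594879)))) (a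 (a (l 14) (a (c (l 535591295) (l 535279231)) (c (l 535595903) (l 535283583)))) (a (a (l 535511055) (l 535582847)) (a (l 535587199) (l 535591807)))))) (a (a (l 14) (a (l 14) (b (b (c (l 535592575) (l 535280255)) (l 14)) (l 14)))) (a (a (b (b (c (l 535596927) (l 535284863)) (c (l 535593599) (l 535281535))) (l 14)) (b (b (l 535579519) (l 535576079)) (a (l 14) (b (l 535306879) (l 14))))) (a (b (b (l 535583871) (l 535580799)) (b (l 535510143) (a (l 14) (l 535308159)))) (b (b (l 535588479) (l 535585151)) (b (l 535447679) (a (l 535310207) (l 535312511)))))))), by decide +kernel⟩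

def k14_A00pm_012_s1 : ∃ t, chk3 f_A00pm_012_s1 t 64 255 1 = true :=
  ⟨(a (l 14) (b (a (l 14) (a (l 14) (b (b (a (l 14) (a (l 14) (a (l 14) (b (l 16775648) (l 14))))) (l 14)) (l 14)))) (l 14))), by decide +kernel⟩

def k15_A00pm_012_s1 : ∃ t, chk3 f_A00pm_012_s1 t 130 508 1 = true :=
  ⟨(a (a (b (a (a (a (b (l 535629439) (l 535622783)) (b (l 535363199) (l 535624831))) (a (b (l 535365247) (l 535627135)) (b (l 535367551) (l 535360895)))) (a (a (b (l 535369855) (l 535363199)) (b (l 535371903) (l 535365247))) (c (b (l 535665023) (l 535658367)) (b (l 535351935) (l 535345279))))) (b (a (b (a (l 535350911) (l 535355263)) (a (l 535347583) (l 535351935))) (a (a (l 535624831) (l 535627135)) (a (l 535360895) (l 535363199)))) (a (b (a (l 535344255) (l 535348607)) (a (l 535340927) (l 535345279))) (a (a (l 535618175) (l 535620479)) (a (l 535622527) (l 535624831)))))) (a (a (c (b (b (l 535669631) (l 535662719)) (b (l 535656063) (l 535615503))) (b (b (l 535356287) (l 535349631)) (b (l 535342975) (l 535336319))))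 (b (b (l 535584639) (c (l 535667327) (l 535354239))) (a (b (l 535369855) (l 535363199)) (b (l 535371903) (l 535365247))))) (a (b (b (l 535656063) (l 535582335)) (b (c (l 535665023) (l 535351935)) (c (l 535658111) (l 535345279)))) (b (b (l 535660671) (l 535654015)) (b (l 535647103) (c (l 535662719) (l 535349631))))))) (a (a (a (b (b (l 535665023) (l 535658367)) (b (l 535651711) (l 535645055))) (b (b (l 535669631) (l 535662719)) (b (l 535656063) (l 535649407)))) (a (b (b (l 535405695) (l 535667327)) (b (l 535660671) (l 535653759))) (b (b (l 535410047) (l 535403391)) (b (l 535665023) (l 535658367))))) (b (a (a (b (l 535414399) (l 535407743)) (b (l 535419007) (l 535412351))) (a (b (l 535423359) (l 535416703)) (b (l 535427967) (l 535421311)))) (a (a (b (l 535401087) (l 535662719)) (b (l 535405439) (l 535398783))) (a (b (l 535410047) (l 535403391)) (b (l 535414399) (l 535407743))))))), by decide +kernel⟩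

def k16_A00pm_012_s1 : ∃ t, chk3 f_A00pm_012_s1 t 131 508 1 = true :=
  ⟨(b (b (a (a (a (c (l 535656831) (l 535410047)) (c (l 535732863) (l 535419007))) (a (c (l 535742079) (l 535427967)) (l 535593999))) (a (a (l 535603071) (l 535746431)) (a (l 535755391) (l 535764607)))) (a (a (a (a (l 535425663) (l 535430015)) (c (l 535726207) (l 535412351))) (a (c (l 535735167) (l 535421311)) (l 535654415))) (a (a (l 535663487) (l 535739775)) (a (l 535748735) (l 535757695))))) (b (a (a (a (a (l 535419007) (l 535423359)) (c (l 535719295) (l 535405695))) (a (c (l 535728255) (l 535414655)) (b (l 535449215) (l 16774696)))) (a (a (l 535723791) (l 535732863)) (a (l 535741823) (a (l 16774160) (l 16774064))))) (a (a (a (a (l 535412351) (l 535416703)) (c (l 535645199) (l 535667327))) (a (c (l 535721599) (l 535676287)) (b (l 16774600) (l 16774512)))) (a (a (l 535616271) (b (l 16774288) (l 16774192))) (a (b (l 16774120) (l 16774064)) (b (l 16774008) (l 16773904))))))), by decide +kernel⟩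

def k17_A00pm_012_s1 : ∃ t, chk3 f_A00pm_012_s1 t 130 1018 1 = true :=
  ⟨(a (a (b (a (a (a (l 535602559) (l 535604863)) (a (l 535607167) (l 535609215))) (b (a (l 535346559) (l 535350911)) (a (l 535343231) (l 535347583)))) (a (b (a (l 535330943) (l 535335551)) (a (l 535596159) (l 535332223))) (a (a (l 535604863) (l 535607167)) (a (l 535609215) (l 535611519))))) (a (b (a (a (l 535620479) (l 535622527)) (a (l 535624831) (l 535358591))) (a (a (l 535613823) (l 535616127)) (a (l 535618175) (l 535620479)))) (b (a (a (l 535360895) (l 535363199)) (a (l 535365247) (l 535367551))) (a (a (l 535622783) (l 535356543)) (c (l 535649151) (l 535604863)))))) (a (a (a (a (b (l 535369855) (l 535363199)) (b (l 535371903) (l 535365247))) (b (l 535642751) (a (l 535367551) (l 535369855)))) (a (b (l 535647103) (l 535573375)) (b (l 535651711) (l 535510655)))) (a (a (b (l 535656063) (l 535515263)) (b (l 535660671) (l 535519615))) (a (b (l 535396735) (l 535524223)) (b (l 535401087) (l 535528575)))))), by decide +kernel⟩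

def k18_A00pm_012_s1 : ∃ t, chk3 f_A00pm_012_s1 t 130 1019 1 = true :=
  ⟨(a (a (b (a (a (b (l 535592831) (l 535589503)) (b (l 535597183) (l 535594111))) (a (a (l 535564671) (l 535533439)) (a (l 535602815) (l 535604863)))) (a (b (a (l 535586175) (l 535590783)) (a (l 535448591) (l 535453311))) (a (b (l 535595135) (l 535457663)) (b (l 535331199) (l 535327871))))) (b (a (a (a (l 535607167) (l 535609471)) (a (l 535611519) (l 535613823))) (b (a (l 535350911) (l 16775344)) (a (l 535347583) (l 16775248)))) (b (a (a (l 535335551) (l 535339903)) (a (l 16775240) (l 16775152))) (a (a (l 535332223) (l 16775232)) (a (l 16775144) (a (l 16775072) (l 16775024))))))) (a (b (a (a (b (l 16775256) (l 16775160)) (b (l 16775168) (l 16775072))) (a (b (l 16775080) (l 16774984)) (a (l 535369855) (l 535371903)))) (a (a (b (l 16775064) (a (l 16774992) (l 16774952))) (b (l 16774968) (l 16774904))) (a (b (l 16774888) (l 16774808)) (b (l 16774824) (l 16774728))))) (a (b (a (b (l 16774912) (l 16774808)) (b (l 16774824) (l 16774736)))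 (a (b (l 16774728) (l 16774648)) (b (l 16774648) (l 16774568)))) (b (a (b (l 16774728) (l 16774664)) (b (l 16774656) (l 16774576))) (c (b (l 16774568) (l 16774488)) (b (l 16774488) (l 16774408))))))), by decide +kernel⟩

def k19_A00pm_012_s1 : ∃ t, chk3 f_A00pm_012_s1 t 131 509 1 = true :=
  ⟨(a (b (a (b (b (a (l 535677311) (l 535417983)) (a (l 535673983) (l 535414655))) (a (b (l 535536511) (a (l 16774664) (l 16774576))) (a (b (l 16774600) (l 16774520)) (b (l 16774504) (l 16774440))))) (b (a (a (l 535423359) (a (l 16774512) (l 16774464))) (b (l 16774416) (a (l 16774368) (l 16774304)))) (b (a (a (l 16774440) (l 16774376)) (l 16774248)) (a (l 16774320) (l 16774168))))) (a (b (b (a (a (l 16774592) (l 16774504)) (l 16774384)) (a (a (l 16774496) (l 16774416)) (l 16774304))) (c (a (b (l 16774416) (l 16774336)) (b (l 16774264) (l 16774184))) (a (b (l 16774328) (l 16774240)) (b (l 16774168) (l 16774088))))) (b (b (a (l 16774232) (l 16774080)) (a (l 16774152) (l 16774000))) (b (a (l 16774064) (l 16773912)) (c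 (a (l 16774032) (l 16773880)) (a (l 16773928) (l 16773768))))))) (b (b (b (a (a (a (l 16774296) (l 16774232)) (l 16774128)) (a (l 16773968) (l 16773824))) (a (a (l 16774184) (l 16774032)) (a (l 16773888) (l 16773744)))) (b (a (a (l 16774096) (l 16773952)) (a (l 16773800) (l 16773656))) (a (a (l 16774016) (l 16773864)) (a (l 16773720) (l 16773576))))) (a (b (b (a (l 16773928) (l 16773784)) (a (l 16773848) (l 16773696))) (b (a (l 16773760) (l 16773608)) (a (l 16773672) (l 16773528)))) (b (b (a (l 16773632) (l 16773488)) (a (l 16773552) (l 16773400))) (b (a (l 16773464) (l 16773320)) (a (l 16773376) (l 16773232))))))), by decide +kernel⟩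

def k20_A00pm_012_s1 : ∃ t, chk3 f_A00pm_012_s1 t 260 510 1 = true :=
  ⟨(b (a (a (b (a (a (b (l 16775608) (l 14)) (b (l 16775560) (l 16775464))) (c (b (l 535337599) (l 16775424)) (b (l 16775464) (l 16775368)))) (b (a (l 14) (b (l 16775320) (l 14))) (l 14))) (a (a (b (b (l 16775424) (l 16775320)) (b (l 16775248) (l 14))) (b (b (l 16775376) (l 16775272)) (b (l 16775192) (l 16775112)))) (b (b (c (l 16775336) (l 16775288)) (b (l 16775232) (l 16775200))) (c (b (l 16775160) (l 16775080)) (b (l 16775104) (l 16775016)))))) (b (a (b (a (c (l 16775248) (l 16775192)) (a (l 16775144) (l 16775112))) (a (a (l 16775160) (l 16775120)) (l 16775048))) (a (b (a (l 16775072) (l 16775040)) (l 16774968)) (b (l 16774976) (l 16774880)))) (a (a (b (l 16775048) (l 16774960)) (b (l 16774960) (l 16774880))) (a (b (l 16774880) (l 16774792)) (b (l 16774800) (l 16774712)))))) (a (b (b (b (a (l 14) (c (l 16775056) (l 16774992))) (l 14)) (l 14)) (l 14)) (b (a (a (c (b (l 16774912) (l 16774824)) (b (l 16774840) (l 16774752))) (b (l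 16774792) (a (l 16774728) (l 16774688)))) (a (b (l 16774712) (a (l 16774648) (l 16774600))) (b (l 16774624) (l 16774544)))) (b (a (a (l 14) (c (l 16774656) (l 16774584))) (c (a (l 16774576) (l 16774496)) (l 16774456))) (a (l 14) (c (a (l 16774496) (l 16774408)) (l 16774368))))))), by decide +kernel⟩

def k21_A00pm_012_s1 : ∃ t, chk3 f_A00pm_012_s1 t 261 510 1 = true :=
  ⟨(b (a (b (b (b (a (l 16774864) (l 16774704)) (a (l 16774824) (l 16774664))) (b (a (l 16774784) (l 16774616)) (a (l 16774736) (l 16774576)))) (a (a (b (l 16774720) (l 16774632)) (b (l 16774632) (l 16774552))) (a (b (l 16774552) (l 16774464)) (b (l 16774472) (l 16774384))))) (a (a (b (b (l 16774560) (l 16774480)) (b (l 16774392) (l 16774304))) (b (b (l 16774480) (l 16774400)) (b (l 16774312) (l 16774224)))) (b (a (b (l 16774400) (l 16774320)) (b (l 16774320) (l 16774240))) (a (b (l 16774232) (l 16774144)) (b (l 16774152) (l 16774064)))))) (a (a (b (a (b (l 16774544) (l 16774456)) (b (l 16774464) (l 16774376))) (b (a (a (l 16774392) (l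 16774352)) (l 16774288)) (c (a (l 16774328) (l 16774248)) (l 16774200)))) (a (b (b (l 16774384) (l 16774296)) (b (l 16774208) (a (l 16774136) (l 16774096)))) (b (b (l 16774296) (l 16774216)) (b (l 16774128) (l 16774040))))) (a (a (b (b (l 16774216) (l 16774128)) (b (l 16774048) (l 16773960))) (b (b (l 16774136) (l 16774048)) (b (l 16773960) (l 16773872)))) (a (b (b (l 16774056) (l 16773968)) (b (l 16773880) (l 16773792))) (b (b (l 16773976) (l 16773888)) (b (l 16773800) (l 16773712))))))), by decide +kernel⟩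

def k22_A00pm_012_s1 : ∃ t, chk3 f_A00pm_012_s1 t 130 511 1 = true :=
  ⟨(a (b (b (a (l 14) (b (b (a (l 14) (a (l 14) (l 16774304))) (l 14)) (l 14))) (l 14)) (l 14)) (b (a (b (b (c (a (a (l 16774240) (l 16774160)) (a (l 16774080) (l 16774000))) (a (l 16774104) (l 16773936))) (c (a (a (l 16774152) (l 16774072)) (a (l 16773992) (l 16773912))) (a (l 16774016) (l 16773848)))) (b (c (a (a (l 14) (l 16773984)) (a (l 16773904) (l 16773824))) (a (l 16773928) (l 16773760))) (a (l 14) (c (a (l 16773816) (l 16773736)) (l 16773664))))) (c (b (b (b (a (l 16773904) (l 16773744)) (a (l 16773856) (l 16773704))) (b (a (l 16773816) (l 16773656)) (a (l 16773768) (l 16773616)))) (b (b (a (l 16773728) (l 16773568)) (a (l 16773680) (l 16773520))) (b (a (l 16773640) (l 16773480)) (a (l 16773592) (l 16773432))))) (a (b (b (l 16773776) (l 16773680)) (b (l 16773592) (l 16773496))) (b (b (l 16773608) (l 16773520)) (b (l 16773424) (l 16773336)))))) (b (a (b (a (l 14) (a (l 14) (a (l 14) (l 16773568)))) (l 14)) (c (b (b (a (l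 16773552) (l 16773392)) (a (l 16773504) (l 16773344))) (b (a (l 16773456) (l 16773304)) (a (l 16773416) (l 16773256)))) (a (b (l 16773408) (l 16773312)) (b (l 16773240) (l 16773152))))) (a (l 14) (a (a (l 14) (b (b (l 16773264) (l 14)) (l 14))) (b (c (b (l 16773208) (l 16773168)) (l 16773056)) (b (c (l 16773120) (l 16772984)) (a (l 14) (a (l 16772984) (l 16772944)))))))))), by decide +kernel⟩

def k23_A00pm_012_s1 : ∃ t, chk3 f_A00pm_012_s1 t 262 510 1 = true :=
  ⟨(a (a (a (b (b (b (l 16774240) (l 16774160)) (b (l 16774072) (l 16773984))) (b (b (l 16773896) (l 16773808)) (b (l 16773720) (l 16773632)))) (b (b (b (l 16774168) (l 16774080)) (b (l 16773992) (l 16773904))) (b (b (l 16773816) (l 16773728)) (b (l 16773640) (l 16773552))))) (a (b (b (b (l 16774088) (l 16774000)) (b (l 16773912) (l 16773832))) (b (b (l 16773744) (l 16773656)) (b (l 16773568) (l 16773472)))) (b (b (b (l 16774008) (l 16773920)) (b (l 16773840) (l 16773752))) (b (b (l 16773664) (l 16773576)) (b (l 16773488) (l 16773400)))))) (a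 (a (b (b (b (l 16773928) (l 16773848)) (b (l 16773760) (l 16773672))) (b (b (l 16773584) (l 16773496)) (b (l 16773408) (l 16773320)))) (b (b (b (l 16773856) (l 16773768)) (b (l 16773680) (l 16773592))) (b (b (l 16773504) (l 16773416)) (b (l 16773328) (l 16773240))))) (a (b (b (b (l 16773776) (l 16773696)) (b (l 16773608) (l 16773520))) (b (b (l 16773432) (l 16773344)) (b (l 16773256) (l 16773160)))) (b (b (b (l 16773704) (l 16773616)) (b (l 16773528) (l 16773440))) (b (b (l 16773352) (l 16773264)) (b (l 16773176) (l 16773088))))))), by decide +kernel⟩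

def k24_A00pm_012_s1 : ∃ t, chk3 f_A00pm_012_s1 t 263 510 1 = true :=
  ⟨(a (a (a (b (b (b (l 16773624) (l 16773536)) (b (l 16773456) (l 16773368))) (b (b (l 16773280) (l 16773192)) (b (l 16773096) (l 16773008)))) (b (b (b (l 16773552) (l 16773464)) (b (l 16773376) (l 16773288))) (b (b (l 16773200) (l 16773112)) (b (l 16773024) (l 16772936))))) (a (b (b (b (l 16773472) (l 16773392)) (b (l 16773304) (l 16773216))) (b (b (l 16773128) (l 16773040)) (b (l 16772944) (l 16772856)))) (b (b (b (l 16773400) (l 16773312)) (b (l 16773224) (l 16773136))) (b (b (l 16773048) (l 16772960)) (b (l 16772872) (c (l 16772856) (l 16772704))))))) (a (b (b (b (c (l 16773352) (l 16773224)) (c (l 16773272) (l 16773136))) (b (c (l 16773184) (l 16773048)) (c (l 16773096) (l 16772960)))) (b (b (a (l 16772976) (l 16772904)) (a (l 16772888) (l 16772808))) (b (a (l 16772800) (l 16772720)) (b (l 16772688) (a (l 16772680) (l 16772608)))))) (b (b (b (l 16773144) (c (l 16773128) (l 16772984))) (b (c (l 16773040) (l 16772896)) (c (l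 16772952) (l 16772808)))) (b (b (c (l 16772864) (l 16772712)) (a (l 16772736) (l 16772664))) (b (a (l 16772648) (l 16772576)) (b (l 16772544) (l 16772496))))))), by decide +kernel⟩

def k25_A00pm_012_s1 : ∃ t, chk3 f_A00pm_012_s1 t 262 511 2 = true :=
  ⟨(b (b (b (b (a (a (l 16773584) (l 16773432)) (a (l 16773280) (l 16773128))) (a (a (l 16773544) (l 16773384)) (a (l 16773232) (l 16773080)))) (b (a (a (l 16773496) (l 16773344)) (a (l 16773192) (l 16773040))) (a (a (l 16773456) (l 16773296)) (a (l 16773144) (l 16772992))))) (a (b (b (a (l 16773408) (l 16773256)) (a (l 16773368) (l 16773208))) (b (a (l 16773320) (l 16773168)) (a (l 16773280) (l 16773120)))) (b (b (a (l 16773104) (l 16772944)) (a (l 16773056) (l 16772904))) (b (a (l 16773008) (l 16772856)) (a (l 16772968) (l 16772816)))))) (b (a (b (b (a (l 16773232) (l 16773072)) (a (l 16773184) (l 16773032))) (b (a (l 16773144) (l 16772984)) (a (l 16773096) (l 16772936)))) (b (b (a (l 16772920) (l 16772768)) (a (l 16772872) (l 16772720))) (b (a (l 16772832)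 (l 16772680)) (a (l 16772784) (l 16772632))))) (a (a (b (b (l 16773048) (l 16773008)) (b (l 16772960) (a (l 16772952) (l 16772872)))) (b (b (l 16772896) (l 16772848)) (b (l 16772800) (a (l 16772800) (l 16772720))))) (a (b (b (l 16772736) (c (l 16772728) (l 16772656))) (a (b (l 16772688) (l 16772640)) (b (l 16772608) (l 16772560)))) (a (b (b (l 16772624) (l 16772576)) (b (l 16772528) (l 16772488))) (b (b (l 16772544) (l 16772504)) (b (l 16772456) (l 16772408)))))))), by decide +kernel⟩

def k26_A00pm_012_s1 : ∃ t, chk3 f_A00pm_012_s1 t 263 511 2 = true :=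
  ⟨(b (b (a (a (b (a (l 16772992) (l 16772912)) (a (l 16772904) (l 16772824))) (a (b (l 16772840) (l 16772752)) (b (l 16772768) (l 16772680)))) (a (a (b (l 16772696) (l 16772600)) (b (l 16772616) (l 16772528))) (b (a (l 16772544) (l 16772472)) (a (l 16772456) (l 16772384))))) (a (b (b (a (l 16772800) (l 16772648)) (a (l 16772752) (l 16772600))) (b (a (l 16772704) (l 16772560)) (a (l 16772664) (l 16772512)))) (b (b (a (l 16772496) (l 16772352)) (a (l 16772456) (l 16772304))) (b (a (l 16772408) (l 16772264)) (a (c (l 16772400) (l 16772320)) (l 16772216)))))) (a (b (b (b (a (l 16772616) (l 16772464)) (a (l 16772568) (c (l 16772464) (l 16772376)))) (c (a (b (l 16772568) (l 16772520)) (b (l 16772416) (l 16772368))) (a (a (l 16772496) (l 16772424)) (a (l 16772344) (l 16772272))))) (b (a (b (c (l 16772472) (l 16772392)) (c (l 16772424) (l 16772344))) (b (a (l 16772320) (l 16772248)) (a (l 16772272) (l 16772200)))) (b (a (a (l 16772376) (l 16772304)) (a (l 16772224) (l 16772152))) (a (b (l 16772304) (a (l 16772320)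 (l 16772248))) (b (l 16772152) (a (l 16772168) (l 16772096))))))) (b (a (b (b (c (l 16772360) (l 16772272)) (c (l 16772312) (l 16772232))) (b (c (l 16772264) (l 16772184)) (a (l 16772216) (l 16772144)))) (b (b (l 16772168) (c (l 16772168) (l 16772080))) (b (c (l 16772120) (l 16772032)) (c (l 16772072) (l 16771984))))) (b (b (a (a (l 16772168) (l 16772096)) (a (l 16772024) (l 16771952))) (a (a (l 16772120) (l 16772048)) (a (l 16771976) (l 16771904)))) (b (a (a (l 16772080) (l 16772000)) (a (l 16771928) (l 16771856))) (a (b (c (l 16772048) (l 16771960)) (a (l 16772016) (l 16771944))) (b (l 16771856) (a (l 16771872) (l 16771800))))))))), by decide +kernel⟩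

def k27_A00pm_012_s1 : ∃ t, chk3 f_A00pm_012_s1 t 131 511 3 = true :=
  ⟨(b (a (b (a (a (b (l 16773448) (l 16773352)) (b (l 16773288) (l 16773192))) (a (b (l 16773128) (l 16773032)) (b (l 16772968) (l 16772872)))) (a (a (b (l 16773264) (l 16773168)) (b (l 16773104) (l 16773008))) (a (b (l 16772944) (l 16772848)) (b (l 16772784) (l 16772688))))) (b (a (a (b (l 16772808) (l 16772720)) (b (l 16772656) (l 16772560))) (a (b (l 16772496) (l 16772408)) (b (l 16772344) (l 16772256)))) (a (a (b (l 16772624) (l 16772528)) (b (l 16772464) (l 16772376))) (a (b (l 16772312) (l 16772216)) (b (l 16772160) (l 16772064)))))) (b (a (a (a (b (l 16773080) (l 16772984)) (b (l 16772912) (l 16772824))) (a (b (l 16772752) (l 16772664)) (b (l 16772592) (l 16772504)))) (a (a (b (l 16772440) (l 16772344)) (b (l 16772280) (l 16772184))) (a (b (l 16772128) (l 16772032)) (b (l 16771968) (l 16771880))))) (a (a (b (a (l 16772888) (l 16772728)) (b (l 16772736) (a (l 16772768) (l 16772608)))) (b (a (l 16772568) (l 16772408)) (b (l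 16772416) (a (l 16772448) (l 16772288))))) (a (b (b (l 16772192) (l 16772144)) (b (l 16772096) (a (l 16772128) (l 16771968)))) (b (a (c (l 16771976) (l 16771888)) (l 16771784)) (a (a (l 16771880) (l 16771800)) (a (l 16771720) (l 16771648)))))))), by decide +kernel⟩

def k28_A00pm_012_s1 : ∃ t, chk3 f_A00pm_012_s1 t 66 124 1 = true :=
  ⟨(a (l 3) (b (l 3) (b (l 3) (a (l 3) (b (a (l 3) (c (l 535919487) (l 535867263))) (a (a (l 535855999) (l 535865471)) (c (l 535903871) (l 535852159)))))))), by decide +kernel⟩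

def k29_A00pm_012_s1 : ∃ t, chk3 f_A00pm_012_s1 t 264 125 1 = true :=
  ⟨(b (l 3) (b (a (l 3) (b (b (l 3) (a (l 3) (a (l 3) (a (l 3) (l 535698815))))) (b (a (l 3) (c (l 535711871) (a (l 535661183) (l 535665791)))) (c (a (l 535695231) (l 535704447)) (a (a (a (l 535643775) (l 535646079)) (l 535649407)) (a (l 535654015) (l 535658367))))))) (b (a (a (b (l 3) (b (a (l 3) (a (l 3) (l 535577471))) (c (l 535660671) (a (a (l 3) (l 535612287)) (l 535615247))))) (b (c (l 535678591) (b (a (l 3) (l 535635071)) (a (l 535627135) (l 535631487)))) (c (l 535671423) (a (a (l 535620479) (l 535622783)) (c (l 535638143) (l 535613823)))))) (a (a (c (l 535681663) (b (c (l 535649919) (l 535625343)) (l 535630463))) (c (l 535686271) (b (l 535642239) (l 535635071)))) (a (b (l 535671055) (l 535663999)) (b (l 535675775) (l 535668607))))) (a (b (a (b (c (l 535657087) (c (l 535620991) (a (l 535595135) (l 535599743)))) (c (l 535653503) (a (l 535603727) (l 535608191)))) (a (a (l 535637519) (l 535639935)) (a (l 535642239) (l 535644543))))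 (a (a (c (l 535646079) (a (l 535597183) (l 535599487))) (a (l 535592207) (l 535628159))) (c (l 535656831) (a (l 535607167) (l 535611775))))) (a (a (c (l 535667071) (b (l 535623295) (l 535616383))) (b (l 535652223) (l 535645055))) (a (b (l 535656831) (l 535649663)) (b (l 535661439) (l 535654271)))))))), by decide +kernel⟩

def k30_A00pm_012_s1 : ∃ t, chk3 f_A00pm_012_s1 t 265 125 1 = true :=
  ⟨(a (b (b (l 3) (b (l 3) (a (l 3) (a (l 3) (b (l 3) (l 535730559)))))) (b (b (c (a (l 535764607) (l 535740287)) (b (a (a (l 3) (l 535689343)) (c (l 535708031) (l 535683199))) (a (a (l 535677567) (l 535682175)) (l 535688319)))) (a (a (b (l 535694719) (l 535687551)) (b (l 535699583) (l 535692159))) (c (l 535725695) (b (l 535681151) (l 535673983))))) (b (a (c (l 535701631) (b (l 535657599) (l 535650431))) (c (l 535711103) (b (l 535666815) (l 535659647)))) (a (c (l 535687039) (b (l 535643263) (l 535636095))) (a (l 535670655) (l 535675263)))))) (b (b (l 3) (a (b (l 3) (c (l 535764607) (b (l 535719295) (l 535712127))))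 (b (a (l 3) (a (l 535765887) (l 535768447))) (b (l 535719951) (l 535746431))))) (b (a (b (c (l 535749759) (a (l 535698559) (l 535703167))) (a (l 535708687) (l 535713407))) (a (b (l 535732863) (l 535718271)) (b (l 535737471) (l 535722879)))) (b (a (a (l 535694463) (l 535699071)) (c (l 535729791) (l 535680383))) (a (a (l 535679871) (l 535684479)) (c (l 535715199) (l 535666047))))))), by decide +kernel⟩

def k31_A00pm_012_s1 : ∃ t, chk3 f_A00pm_012_s1 t 133 125 1 = true :=
  ⟨(b (b (b (a (a (l 3) (a (l 3) (l 535831423))) (a (a (l 535840895) (l 535850367)) (c (l 535888767) (l 535837055)))) (a (a (a (l 3) (a (l 535795839) (l 535800447))) (c (l 535835263) (a (l 535781503) (l 535790975)))) (a (a (l 535825791) (l 535835263)) (c (l 535873407) (l 535822207))))) (b (a (a (a (a (l 535771519) (l 535776127)) (a (l 535780991) (l 535785599))) (a (l 535791999) (l 535801471))) (a (a (l 535810943) (l 535820159)) (l 535849487))) (a (a (a (a (l 535756671) (l 535761535)) (a (l 535766143) (l 535770751))) (a (l 535777151)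 (l 535786623))) (a (c (l 535823999) (l 535840527)) (l 535817743))))) (b (b (a (a (a (a (l 535742079) (l 535746687)) (l 535752975)) (a (l 535762303) (l 535771775))) (a (c (l 535809151) (l 535825791)) (l 535803007))) (a (a (a (a (l 535727487) (l 535732095)) (l 535738239)) (a (l 535747711) (l 535757183))) (a (a (l 535766399) (l 535775871)) (l 535788159)))) (b (a (a (a (l 535714319) (l 535723647)) (a (l 535733119) (l 535742335))) (a (a (l 535751807) (l 535761279)) (l 535773311))) (a (a (a (l 535699839) (l 535709311)) (a (l 535718527) (l 535727999))) (a (a (l 535737215) (l 535746687)) (l 535758719)))))), by decide +kernel⟩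

def k32_A00pm_012_s1 : ∃ t, chk3 f_A00pm_012_s1 t 264 126 1 = true :=
  ⟨(b (b (b (a (a (a (b (c (l 535638911) (b (l 535593087) (l 535589647))) (a (l 535607055) (l 535609359))) (a (b (l 535618687) (l 535611663)) (b (l 535620991) (l 535613967)))) (c (b (l 535649663) (l 535642495)) (b (a (l 535600255) (l 535604607)) (a (l 535593087) (l 535597695))))) (a (a (b (l 535633279) (l 535626367)) (b (l 535637887) (l 535630975))) (c (b (l 535668351) (l 535661183)) (b (l 535619967) (l 535612799))))) (b (a (a (c (l 535625999) (a (l 535576847) (l 535581567))) (a (l 535609871) (l 535614479))) (a (c (l 535644799) (l 535596559)) (l 535629839))) (a (a (a (l 535593743) (l 535598351)) (a (l 535602959) (l 535607679))) (a (c (l 535637631) (l 535589647)) (l 535622671))))) (b (b (a (a (a (l 535586943) (l 535591551)) (c (l 535621247) (l 535573519))) (a (c (l 535630463) (l 535582591)) (l 535615759))) (a (a (c (l 535604863) (l 535557391)) (c (l 535614079) (l 535566719))) (a (c (l 535623295) (l 535575679)) (l 535608591)))) (b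 (a (a (l 535574031) (l 535583247)) (a (l 535592463) (l 535601791))) (a (a (l 535567119) (l 535576335)) (a (l 535585551) (l 535594623)))))) (a (b (b (a (a (l 535687951) (l 535692559)) (b (l 535569423) (l 535562255))) (a (a (l 535808271) (l 535812879)) (a (l 535817487) (l 535822095)))) (b (a (a (l 535794447) (l 535799055)) (a (l 535803663) (l 535808271))) (a (a (l 535713551) (l 535785231)) (a (l 535789839) (l 535794447))))) (b (b (a (b (l 535578495) (l 535571471)) (a (l 535715711) (l 535585919))) (a (b (l 535564559) (l 535557647)) (a (l 535567375) (l 535706239)))) (b (a (a (l 535812623) (l 535548943)) (c (l 535779087) (l 535799311))) (a (a (l 535799055) (l 535803407)) (a (l 535539727) (l 535678591))))))), by decide +kernel⟩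

def k33_A00pm_012_s1 : ∃ t, chk3 f_A00pm_012_s1 t 265 126 1 = true :=
  ⟨(b (b (b (a (a (b (l 535653247) (l 535646079)) (a (l 535656319) (l 535660927))) (a (c (l 535691135) (l 535709823)) (l 535676175))) (a (a (a (l 535632767) (l 535637375)) (a (l 535641983) (l 535646591))) (a (c (l 535676799) (l 535628415)) (l 535661951)))) (a (a (a (b (l 535618575) (l 535604607)) (b (l 535623183) (l 535609215))) (b (b (l 535634047) (l 535627135)) (b (l 535619967) (l 535613055)))) (b (a (b (l 535643263) (l 535636351)) (l 535647615)) (a (b (l 535629183) (l 535622271)) (l 535633535))))) (a (a (b (b (b (l 535596927) (l 535589759)) (c (l 535735311) (l 535688207))) (b (c (l 535855375) (l 535808527)) (b (l 535555199) (l 16773920)))) (b (b (b (l 535606143) (l 535598975)) (b (l 535592063) (l 535585151))) (b (c (l 535864847) (l 535549199)) (b (l 16773952) (l 16773784))))) (b (b (a (l 535744271) (l 535619343)) (a (l 535730191) (l 535739519))) (b (a (l 535716111) (l 535792511)) (a (b (l 16773816) (l 16773624)) (b (l 16773680)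 (c (l 16773576) (l 16773440)))))))), by decide +kernel⟩

def k34_A00pm_012_s1 : ∃ t, chk3 f_A00pm_012_s1 t 133 126 1 = true :=
  ⟨(b (b (b (a (a (a (l 535685503) (l 535694719)) (a (l 535704191) (l 535713407))) (a (a (l 535722879) (l 535732095)) (l 535744127))) (a (a (a (l 535671167) (l 535680383)) (a (l 535689855) (l 535699071))) (a (a (l 535708287) (l 535717759)) (l 535729535)))) (b (a (a (a (l 535656831) (l 535666047)) (a (l 535675519) (l 535684735))) (a (a (l 535693951) (l 535703423)) (l 535715199))) (a (a (a (l 535642751) (l 535651967)) (a (l 535661183) (l 535670399))) (a (l 535816207) (l 535700863))))) (b (b (a (a (a (l 535628671) (l 535637887)) (a (l 535647103) (l 535656319))) (a (a (l 535665535) (l 535675007)) (l 535955071))) (b (a (a (l 535756047) (l 535640447)) (a (l 535659135) (l 16773400))) (a (a (l 535748879) (l 535767679)) (a (l 535651967) (l 16773216))))) (b (a (a (a (l 535869055) (l 535609727)) (a (l 535618943) (b (l 16773504) (l 16773312)))) (a (a (b (l 16773376) (l 16773224)) (b (l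 16773232) (l 16773112))) (b (c (l 16773184) (l 16773016)) (l 16772920)))) (a (a (a (b (l 16773536) (l 16773408)) (b (l 16773408) (l 16773256))) (a (b (l 16773312) (l 16773136)) (b (l 16773176) (l 16773008)))) (a (b (c (l 16773072) (l 16772912)) (c (l 16772912) (l 16772744))) (b (l 16772752) (c (l 16772680) (l 16772496)))))))), by decide +kernel⟩

def k35_A00pm_012_s1 : ∃ t, chk3 f_A00pm_012_s1 t 132 508 1 = true :=
  ⟨(a (a (a (b (b (l 535505167) (l 535498255)) (b (b (l 16774000) (l 16773944)) (c (l 16773864) (l 16773752)))) (b (a (l 535776015) (b (l 16774136) (l 16773952))) (b (b (l 16773880) (l 16773792)) (c (l 16773728) (l 16773600))))) (a (b (b (l 535523343) (a (l 16773872) (l 16773816))) (b (l 16773688) (c (l 16773592) (l 16773464)))) (b (b (l 16773888) (a (l 16773760) (l 16773704))) (b (l 16773552) (c (l 16773456) (l 16773320)))))) (b (a (a (b (c (l 16773784) (l 16773664)) (l 16773592)) (b (c (l 16773680) (l 16773552)) (l 16773448))) (a (b (l 16773504) (l 16773312)) (b (l 16773352) (l 16773184))))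 (a (a (b (l 16773416) (c (l 16773320) (l 16773176))) (b (l 16773280) (l 16773112))) (a (b (l 16773152) (l 16772984)) (b (l 16773016) (l 16772848)))))), by decide +kernel⟩

def k36_A00pm_012_s1 : ∃ t, chk3 f_A00pm_012_s1 t 132 509 1 = true :=
  ⟨(a (b (a (a (a (b (l 16773672) (l 16773504)) (b (l 16773600) (l 16773432))) (a (b (l 16773536) (l 16773360)) (b (l 16773464) (l 16773296)))) (b (c (a (l 16773424) (l 16773288)) (a (l 16773288) (l 16773152))) (a (a (l 16773224) (l 16773152)) (a (l 16773080) (l 16773016))))) (a (b (a (b (l 16773344) (l 16773256)) (b (l 16773200) (l 16773112))) (a (b (l 16773168) (l 16773088)) (b (l 16773024) (l 16772944)))) (b (a (a (l 16773048) (l 16772984)) (a (l 16772912) (l 16772840))) (a (b (l 16772888) (l 16772800)) (b (l 16772744) (l 16772656)))))) (b (a (b (c (a (l 16773152) (l 16773024)) (a (l 16773008) (l 16772872))) (c (a (l 16772984) (l 16772856)) (a (l 16772832) (l 16772696)))) (b (c (a (l 16772888) (l 16772760)) (a (l 16772736) (l 16772600))) (c (a (l 16772720) (l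 16772592)) (a (l 16772560) (l 16772424))))) (a (b (a (a (l 16772776) (l 16772704)) (a (l 16772632) (l 16772568))) (a (b (l 16772608) (l 16772520)) (b (l 16772472) (l 16772384)))) (b (a (a (l 16772496) (l 16772432)) (c (l 16772424) (l 16772240))) (a (a (l 16772320) (l 16772256)) (a (l 16772192) (l 16772120))))))), by decide +kernel⟩

def k37_A00pm_012_s1 : ∃ t, chk3 f_A00pm_012_s1 t 133 254 1 = true :=
  ⟨(b (a (b (a (a (b (l 16773224) (l 16773056)) (b (l 16773096) (l 16772928))) (a (b (l 16772968) (l 16772800)) (b (l 16772848) (l 16772680)))) (a (a (b (l 16772888) (l 16772720)) (b (l 16772760) (l 16772592))) (a (b (l 16772632) (l 16772464)) (b (l 16772512) (l 16772336))))) (b (a (b (c (l 16772752) (l 16772576)) (c (l 16772584) (l 16772400))) (b (c (l 16772520) (l 16772328)) (c (l 16772352) (l 16772160)))) (a (a (b (l 16772384) (l 16772216)) (b (l 16772264) (l 16772088))) (a (b (l 16772144) (l 16771968)) (b (l 16772024) (l 16771848)))))) (a (b (a (a (b (l 16772552) (c (l 16772464) (l 16772288))) (b (l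 16772416) (c (l 16772336) (l 16772152)))) (a (b (l 16772288) (c (l 16772216) (l 16772024))) (b (l 16772168) (l 16771992)))) (b (a (c (a (l 16772296) (l 16772168)) (a (l 16772112) (l 16771976))) (c (b (l 16772024) (l 16771936)) (a (l 16771840) (l 16771712)))) (a (a (a (l 16772056) (l 16771992)) (a (l 16771928) (l 16771856))) (c (b (l 16771848) (l 16771760)) (b (l 16771640) (l 16771552)))))) (b (a (a (b (l 16772040) (l 16771864)) (b (l 16771920) (l 16771744))) (a (b (l 16771792) (l 16771616)) (b (l 16771672) (l 16771496)))) (b (b (a (c (l 16771776) (l 16771560)) (l 16771424)) (a (c (l 16771688) (l 16771472)) (c (l 16771448) (l 16771224)))) (b (c (a (l 16771600) (l 16771360)) (a (l 16771384) (l 16771128))) (c (a (l 16771512) (l 16771272)) (a (l 16771288) (l 16771040)))))))), by decide +kernel⟩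

def k38_A00pm_012_s1 : ∃ t, chk3 f_A00pm_012_s1 t 66 1020 1 = true :=
  ⟨(b (b (a (a (a (a (l 16773000) (l 16772856)) (a (l 16772712) (l 16772568))) (a (a (l 16772432) (l 16772296)) (a (l 16772160) (l 16772024)))) (a (a (a (l 16771888) (l 16771760)) (a (l 16771624) (l 16771496))) (c (a (l 16771424) (l 16771176)) (a (l 16771200) (l 16770944))))) (a (a (a (a (l 16772912) (l 16772768)) (a (l 16772624) (l 16772480))) (a (a (l 16772344) (l 16772200)) (a (l 16772064) (l 16771936)))) (a (a (a (l 16771800) (l 16771664)) (a (l 16771536) (l 16771408))) (c (a (l 16771328) (l 16771088)) (a (l 16771104) (l 16770848)))))) (a (a (b (a (a (c (l 16772896) (l 16772744)) (c (l 16772752) (l 16772600))) (a (l 16772536) (l 16772392))) (a (a (c (l 16772808) (l 16772656)) (c (l 16772664) (l 16772504))) (a (a (l 16772480) (l 16772408)) (l 16772304)))) (a (a (b (l 16772256) (l 16772160)) (b (l 16772112) (l 16772024))) (a (b (l 16771976) (l 16771888)) (b (l 16771840) (l 16771752))))) (b (a (a (a (l 16771712) (l 16771576)) (a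 (l 16771448) (l 16771320))) (c (a (l 16771240) (l 16771000)) (a (l 16771008) (l 16770760)))) (a (a (a (l 16771616) (l 16771488)) (a (l 16771352) (l 16771224))) (a (a (l 16771096) (l 16770968)) (a (l 16770848) (l 16770720))))))), by decide +kernel⟩

def k39_A00pm_012_s1 : ∃ t, chk3 f_A00pm_012_s1 t 66 1021 1 = true :=
  ⟨(a (a (b (a (c (b (a (l 16772720) (l 16772576)) (a (l 16772632) (l 16772488))) (a (a (l 16772560) (l 16772480)) (a (l 16772408) (l 16772336)))) (c (b (a (l 16772440) (l 16772296)) (a (l 16772352) (l 16772208))) (a (a (l 16772264) (l 16772184)) (a (l 16772112) (l 16772040))))) (b (a (a (a (l 16772496) (l 16772424)) (c (l 16772400) (l 16772232))) (a (c (l 16772264) (l 16772088)) (c (l 16772120) (l 16771936)))) (a (a (a (l 16772408) (l 16772336)) (a (l 16772264) (l 16772192))) (a (c (l 16772168) (l 16771992)) (c (l 16772032) (l 16771848)))))) (b (a (a (b (c (l 16772160) (l 16771984)) (c (l 16772072) (l 16771888))) (b (l 16771936) (c (l 16771936) (l 16771744)))) (a (b (l 16771792) (l 16771704))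 (b (l 16771656) (l 16771568)))) (a (c (b (a (l 16771984) (l 16771848)) (a (l 16771896) (l 16771760))) (b (c (l 16771768) (l 16771680)) (c (l 16771680) (l 16771584)))) (c (b (a (l 16771712) (l 16771576)) (a (l 16771624) (l 16771488))) (b (l 16771440) (c (l 16771400) (l 16771296))))))) (a (b (a (a (b (l 16771528) (l 16771432)) (b (l 16771392) (l 16771304))) (a (b (l 16771264) (l 16771168)) (b (l 16771136) (l 16771040)))) (a (b (a (l 16771344) (l 16771208)) (c (a (l 16771352) (l 16771224)) (l 16771072))) (a (b (l 16771072) (a (l 16771016) (l 16770952))) (b (l 16770944) (l 16770848))))) (a (b (b (a (l 16771008) (l 16770880)) (a (l 16770912) (l 16770784))) (b (a (l 16770816) (l 16770688)) (a (l 16770720) (l 16770592)))) (b (b (a (l 16770752) (l 16770632)) (a (l 16770656) (l 16770536))) (b (a (l 16770568) (l 16770440)) (a (l 16770472) (l 16770344))))))), by decide +kernel⟩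

def k40_A00pm_012_s1 : ∃ t, chk3 f_A00pm_012_s1 t 132 1022 1 = true :=
  ⟨(a (b (a (a (b (b (l 16772304) (l 16772256)) (c (a (l 16772312) (l 16772240)) (l 16772104))) (b (b (l 16772160) (l 16772112)) (b (l 16772064) (a (l 16772056) (l 16771984))))) (a (b (a (l 16772024) (l 16771952)) (b (l 16771920) (l 16771872))) (b (a (l 16771880) (l 16771808)) (a (l 16771792) (l 16771720))))) (a (a (b (c (a (l 16772216) (l 16772144)) (l 16772008)) (c (b (l 16772112) (l 16772072)) (l 16771912))) (b (c (a (l 16772072) (l 16772008)) (l 16771856)) (c (a (l 16771984) (l 16771912)) (l 16771768)))) (a (b (c (a (l 16771936) (l 16771864)) (l 16771712)) (c (a (l 16771840) (l 16771768)) (l 16771616))) (b (b (l 16771680) (l 16771640)) (c (a (l 16771704) (l 16771632)) (l 16771472)))))) (b (b (c (a (a (l 16771800) (l 16771664)) (a (l 16771528) (l 16771392))) (a (c (l 16771584) (l 16771488)) (c (l 16771304) (l 16771200)))) (b (a (a (l 16771632) (l 16771496)) (a (l 16771360) (l 16771216))) (a (a (l 16771592) (l 16771448)) (a (l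 16771312) (l 16771176))))) (a (a (b (b (l 16771544) (l 16771496)) (b (l 16771448) (a (l 16771440) (l 16771368)))) (b (b (l 16771400) (l 16771352)) (b (l 16771304) (l 16771256)))) (a (b (a (l 16771272) (l 16771208)) (b (l 16771168) (l 16771120))) (b (c (l 16771208) (l 16770992)) (b (l 16771032) (l 16770984))))))), by decide +kernel⟩

def k41_A00pm_012_s1 : ∃ t, chk3 f_A00pm_012_s1 t 133 1022 1 = true :=
  ⟨(a (a (b (c (b (a (l 16771264) (l 16771136)) (a (l 16771168) (l 16771040))) (b (l 16770976) (l 16770880))) (a (b (c (l 16771080) (l 16770856)) (b (l 16770896) (l 16770848))) (b (c (l 16770944) (l 16770712)) (c (l 16770856) (l 16770616))))) (b (c (b (a (l 16771000) (l 16770880)) (a (l 16770912) (l 16770784))) (b (l 16770704) (l 16770608))) (c (a (b (l 16770816) (l 16770720)) (b (l 16770688) (l 16770592))) (b (l 16770512) (l 16770416))))) (b (b (c (a (a (l 16770752) (l 16770624)) (a (l 16770504) (l 16770384))) (a (l 16770440) (l 16770184))) (c (a (a (l 16770656) (l 16770528)) (a (l 16770408) (l 16770288)))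 (a (l 16770344) (l 16770088)))) (b (c (b (a (l 16770520) (l 16770280)) (a (l 16770472) (l 16770232))) (a (l 16770248) (l 16769984))) (c (b (a (l 16770432) (l 16770184)) (a (l 16770384) (l 16770136))) (a (l 16770152) (l 16769888)))))), by decide +kernel⟩

def k42_A00pm_012_s1 : ∃ t, chk3 f_A00pm_012_s1 t 66 2046 1 = true :=
  ⟨(b (b (a (a (c (a (a (l 16772024) (l 16771880)) (a (l 16771736) (l 16771592))) (a (l 16771768) (l 16771472))) (a (c (a (l 16771456) (l 16771320)) (l 16771176)) (a (l 16771072) (l 16770936)))) (a (a (a (l 16770800) (l 16770664)) (a (l 16770528) (l 16770400))) (a (c (l 16770336) (l 16770072)) (c (l 16770088) (l 16769816))))) (a (a (c (a (a (l 16771976) (l 16771832)) (a (l 16771688) (l 16771552))) (a (l 16771720) (l 16771424))) (a (c (a (l 16771408) (l 16771272)) (l 16771128)) (c (a (l 16771136) (l 16771000)) (l 16770848)))) (a (a (a (l 16770752) (l 16770616)) (a (l 16770480) (l 16770352))) (a (a (l 16770216) (l 16770088)) (a (l 16769968) (l 16769840)))))) (b (a (a (c (a (a (a (l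 16771968) (l 16771896)) (l 16771784)) (a (l 16771640) (l 16771504))) (a (l 16771672) (l 16771376))) (a (c (a (l 16771360) (l 16771224)) (l 16771080)) (c (a (l 16771088) (l 16770952)) (l 16770800)))) (a (a (c (c (l 16770808) (l 16770696)) (l 16770520)) (a (l 16770432) (l 16770304))) (a (a (l 16770168) (l 16770040)) (a (l 16769912) (l 16769792))))) (a (a (a (c (a (c (l 16771928) (l 16771840)) (l 16771744)) (l 16771624)) (c (a (l 16771600) (l 16771456)) (l 16771328))) (a (c (a (l 16771312) (l 16771176)) (l 16771032)) (c (a (l 16771040) (l 16770904)) (l 16770744)))) (c (a (c (a (l 16770768) (l 16770504)) (a (l 16770648) (l 16770384))) (c (a (l 16770256) (l 16770008)) (a (l 16770120) (l 16769872)))) (a (a (l 16770464) (l 16770192)) (a (l 16769928) (l 16769664))))))), by decide +kernel⟩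

def k43_A00pm_012_s1 : ∃ t, chk3 f_A00pm_012_s1 t 132 2047 1 = true :=
  ⟨(b (b (a (a (c (a (c (l 16771888) (l 16771792)) (c (l 16771744) (l 16771648))) (l 16771576)) (c (a (l 16771552) (l 16771408)) (l 16771280))) (a (c (a (l 16771272) (l 16771128)) (l 16770984)) (c (a (l 16770992) (l 16770856)) (l 16770696)))) (a (a (c (a (c (l 16771840) (l 16771744)) (c (l 16771696) (l 16771600))) (l 16771528)) (c (a (l 16771504) (l 16771360)) (l 16771232))) (a (c (a (l 16771224) (l 16771080)) (l 16770936)) (c (a (l 16770944) (l 16770808)) (l 16770648))))) (a (c (a (b (a (a (l 16771784) (l 16771712)) (a (l 16771640) (l 16771568))) (c (b (a (l 16771760) (l 16771616)) (a (l 16771736) (l 16771592))) (a (l 16771648) (l 16771504)))) (a (a (b (l 16771496) (l 16771448)) (b (l 16771424) (l 16771376))) (b (l 16771312) (a (l 16771304) (l 16771232))))) (a (b (l 16771480) (a (l 16771504) (l 16771352))) (b (l 16771184) (a (l 16771208) (l 16771056))))) (b (a (c (a (l 16771176) (l 16771032)) (l 16770888)) (c (a (l 16770896) (l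 16770760)) (l 16770600))) (b (c (a (a (l 16771136) (l 16771000)) (l 16770792)) (l 16770704)) (a (c (a (l 16771112) (l 16770976)) (l 16770824)) (c (a (l 16770840) (l 16770704)) (l 16770536))))))), by decide +kernel⟩

def k44_A00pm_012_s1 : ∃ t, chk3 f_A00pm_012_s1 t 133 2047 1 = true :=
  ⟨(b (b (c (a (c (a (l 16770720) (l 16770456)) (a (l 16770600) (l 16770336))) (c (a (l 16770208) (l 16769960)) (a (l 16770072) (l 16769824)))) (a (a (l 16770416) (l 16770144)) (a (l 16769880) (l 16769616)))) (c (a (a (a (l 16770680) (l 16770544)) (a (l 16770416) (l 16770280))) (c (a (l 16770160) (l 16769912)) (a (l 16770024) (l 16769776)))) (a (a (l 16770368) (l 16770096)) (a (l 16769824) (l 16769568))))) (b (c (a (a (a (l 16770632) (l 16770496)) (a (l 16770368) (l 16770232))) (c (a (l 16770112) (l 16769864)) (a (l 16769976) (l 16769728)))) (a (a (l 16770320) (l 16770048)) (a (l 16769776) (l 16769512)))) (c (b (a (a (l 16770528) (l 16770264)) (a (l 16770008) (l 16769760))) (a (a (a (l 16770568) (l 16770432)) (a (l 16770304)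 (l 16770176))) (c (a (l 16770048) (l 16769808)) (a (l 16769912) (l 16769664))))) (a (a (l 16770272) (l 16769992)) (a (l 16769728) (l 16769464)))))), by decide +kernel⟩

def k45_A00pm_012_s1 : ∃ t, chk3 f_A00pm_012_s1 t 67 62 1 = true :=
  ⟨(a (a (a (b (b (l 3) (b (b (l 3) (l 535927935)) (a (l 535899407) (l 535909247)))) (a (b (b (l 535936127) (l 535838847)) (b (l 535808895) (l 535779199))) (b (b (l 535878527) (l 535848319)) (b (l 535818367) (l 535788671))))) (a (b (b (l 3) (b (l 535949695) (l 535918719))) (b (b (l 535888255) (l 535857791)) (b (l 535827839) (l 535798143)))) (b (b (b (l 3) (l 535990399)) (b (l 535959167) (l 535928447))) (b (b (l 535897727) (l 535867519)) (b (l 535837311) (l 535807615)))))) (b (b (b (a (l 3) (b (l 3) (l 536907647))) (a (a (l 536000127) (l 536009855)) (l 536022911))) (b (a (c (l 537223039) (l 535945599)) (l 535991423)) (a (c (l 535967359) (l 535914623)) (l 535960447)))) (b (b (a (c (l 535936127) (l 535884159)) (l 535929471)) (a (b (l 535890047) (l 535874943)) (l 535899007)))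 (b (a (b (l 535860095) (l 535844991)) (l 535868799)) (a (b (l 535830399) (l 535815551)) (l 535838847)))))) (a (a (b (b (b (c (a (l 549051263) (l 550806655)) (l 536046975)) (l 536347007)) (b (l 536010879) (l 535979903))) (b (b (l 535948927) (l 535918463)) (b (l 535887999) (l 535858047)))) (b (b (b (c (l 551631999) (l 536066431)) (a (l 537687679) (l 538079103))) (b (l 536030591) (l 535999359))) (b (b (l 535968383) (l 535937663)) (b (l 535907455) (l 535877503))))) (b (b (c (c (l 558625663) (b (l 550921087) (l 546286207))) (b (l 536161919) (l 536060287))) (b (a (l 536843135) (l 537697407)) (a (l 536018815) (l 536038271)))) (b (b (a (l 535987839) (l 536007295)) (a (l 535957119) (l 535976575))) (b (a (l 535926911) (l 535946111)) (a (l 535896703) (l 535916159))))))), by decide +kernel⟩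

def k46_A00pm_012_s1 : ∃ t, chk3 f_A00pm_012_s1 t 134 126 1 = true :=
  ⟨(b (b (a (a (b (l 535763071) (l 535748479)) (b (l 535782015) (l 535767423))) (a (b (l 535800959) (l 535786367)) (l 536077695))) (a (a (a (l 535854975) (l 535998591)) (b (l 535752831) (l 535738495))) (a (b (l 535771775) (l 535757439)) (b (l 535790719) (l 535776383))))) (b (a (b (a (l 535705215) (l 535724159)) (a (b (l 16773160) (l 16773024)) (b (l 16772952) (l 16772792)))) (b (a (b (l 16773056) (l 16772888)) (b (l 16772840) (l 16772720))) (a (b (l 16772752) (l 16772584)) (c (l 16772560) (l 16772352))))) (a (b (a (b (l 16772856) (l 16772688)) (b (l 16772632) (l 16772472))) (a (b (l 16772528) (l 16772360)) (b (l 16772304) (l 16772136)))) (b (a (b (l 16772416) (l 16772256)) (b (l 16772208) (l 16772048))) (a (b (l 16772088) (l 16771920)) (b (l 16771880) (l 16771704))))))), by decide +kernel⟩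

def k47_A00pm_012_s1 : ∃ t, chk3 f_A00pm_012_s1 t 268 254 1 = true :=
  ⟨(b (b (a (b (l 16772192) (c (l 16772128) (l 16771920))) (b (l 16771968) (l 16771792))) (a (b (c (l 16771960) (l 16771744)) (c (l 16771784) (l 16771568))) (b (c (l 16771736) (l 16771504)) (c (l 16771560) (l 16771328))))) (b (a (a (b (l 16771560) (l 16771376)) (b (l 16771440) (l 16771264))) (a (b (l 16771328) (l 16771144)) (b (l 16771216) (l 16771032)))) (b (b (a (l 16771184) (l 16770952)) (a (l 16771096) (l 16770864))) (b (a (l 16771008) (l 16770768)) (a (a (l 16770976) (l 16770856)) (l 16770680)))))), by decide +kernel⟩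

def k48_A00pm_012_s1 : ∃ t, chk3 f_A00pm_012_s1 t 268 510 1 = true :=
  ⟨(b (b (b (c (a (l 16770944) (l 16770720)) (a (l 16770696) (l 16770456))) (c (a (l 16770856) (l 16770624)) (a (l 16770600) (l 16770360)))) (b (c (a (l 16770760) (l 16770536)) (a (l 16770504) (l 16770264))) (c (a (l 16770672) (l 16770440)) (a (l 16770416) (l 16770168))))) (b (b (c (a (l 16770576) (l 16770344)) (a (l 16770320) (l 16770072))) (a (a (l 16770416) (l 16770296)) (a (l 16770176) (l 16770056)))) (b (a (a (l 16770320) (l 16770200)) (a (l 16770080) (l 16769960))) (a (a (l 16770224) (l 16770104)) (a (l 16769984) (l 16769864)))))), by decide +kernel⟩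

def k49_A00pm_012_s1 : ∃ t, chk3 f_A00pm_012_s1 t 268 511 1 = true :=
  ⟨(b (b (a (b (a (l 16770128) (l 16770008)) (c (a (l 16770168) (l 16770048)) (l 16769832))) (b (a (l 16769888) (l 16769768)) (c (a (l 16769936) (l 16769816)) (l 16769584)))) (b (c (a (a (l 16770072) (l 16769952)) (a (l 16769840) (l 16769720))) (a (l 16769736) (l 16769488))) (c (b (a (l 16769944) (l 16769704)) (a (l 16769896) (l 16769656))) (a (l 16769632) (l 16769384))))) (b (c (a (a (b (l 16769880) (a (l 16769816) (l 16769752))) (b (l 16769760) (a (l 16769696) (l 16769632)))) (a (b (l 16769640) (a (l 16769576) (l 16769520))) (b (l 16769528) (a (l 16769456) (l 16769400))))) (a (c (b (l 16769608) (l 16769504)) (b (l 16769464) (l 16769360))) (c (b (l 16769360) (l 16769264)) (b (l 16769216) (l 16769112))))) (b (b (a (c (a (l 16769712) (l 16769592)) (l 16769360)) (c (c (l 16769488) (l 16769336)) (l 16769112))) (a (c (a (l 16769664) (l 16769544)) (l 16769312)) (c (c (l 16769440) (l 16769288)) (l 16769064)))) (c (b (a (a (l 16769616)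 (l 16769496)) (a (l 16769376) (l 16769256))) (b (a (l 16769512) (a (l 16769336) (l 16769224))) (a (a (l 16769552) (l 16769432)) (a (l 16769312) (l 16769192))))) (a (a (l 16769296) (l 16769168)) (a (l 16769048) (l 16768920))))))), by decide +kernel⟩

def k50_A00pm_012_s1 : ∃ t, chk3 f_A00pm_012_s1 t 269 254 1 = true :=
  ⟨(b (b (a (b (l 16771744) (l 16771576)) (b (l 16771536) (l 16771360))) (a (b (l 16771400) (c (l 16771344) (l 16771096))) (b (l 16771184) (l 16771008)))) (b (a (a (b (l 16771104) (l 16770920)) (b (l 16770992) (l 16770808))) (b (c (l 16770960) (l 16770696)) (c (l 16770784) (l 16770512)))) (b (a (a (l 16770736) (l 16770624)) (a (l 16770520) (l 16770408))) (b (a (l 16770544) (l 16770320)) (a (l 16770448) (l 16770232)))))), by decide +kernel⟩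

def k51_A00pm_012_s1 : ∃ t, chk3 f_A00pm_012_s1 t 269 510 1 = true :=
  ⟨(b (b (b (a (l 16770360) (l 16770136)) (a (a (l 16770320) (l 16770208)) (l 16770040))) (b (c (a (l 16770312) (l 16770096)) (a (l 16770032) (l 16769800))) (c (a (l 16770216) (l 16770000)) (a (l 16769936) (l 16769704))))) (b (b (c (a (l 16770120) (l 16769904)) (a (l 16769840) (l 16769608))) (c (a (l 16770032) (l 16769808)) (a (l 16769736) (l 16769504)))) (b (c (a (l 16769936) (l 16769720)) (a (l 16769640) (l 16769408))) (a (a (l 16769752) (l 16769632)) (a (l 16769520) (l 16769408)))))), by decide +kernel⟩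

def k52_A00pm_012_s1 : ∃ t, chk3 f_A00pm_012_s1 t 269 511 1 = true :=
  ⟨(a (b (b (b (c (c (l 16769816) (l 16769672)) (l 16769448)) (c (a (l 16769704) (l 16769592)) (l 16769344))) (c (a (b (l 16769608) (l 16769512)) (b (l 16769496) (l 16769400))) (c (b (l 16769320) (l 16769224)) (b (l 16769168) (l 16769072))))) (b (a (b (c (l 16769416) (l 16769104)) (c (a (l 16769344) (l 16769288)) (l 16769008))) (b (c (l 16769304) (l 16768984)) (c (a (l 16769232) (l 16769176)) (l 16768888)))) (b (b (c (a (l 16769240) (l 16769128)) (l 16768872)) (c (a (l 16769192) (l 16769080)) (l 16768816))) (b (c (a (l 16769144) (l 16769032)) (l 16768768)) (a (c (c (l 16769168) (l 16769016)) (l 16768776)) (c (c (l 16769056) (l 16768896)) (l 16768656))))))) (b (b (b (a (l 16769424) (l 16769312)) (c (a (l 16769480) (l 16769376)) (l 16769112))) (c (a (b (l 16769384) (l 16769288)) (b (l 16769272) (l 16769176))) (c (b (l 16769088) (l 16768992)) (b (l 16768936) (l 16768832))))) (b (a (b (c (a (l 16769216) (l 16769160)) (l 16768872)) (c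 (c (l 16769168) (l 16769008)) (l 16768768))) (b (c (a (l 16769104) (l 16769056)) (l 16768752)) (c (c (l 16769064) (l 16768896)) (l 16768648)))) (b (b (c (a (l 16769016) (l 16768904)) (l 16768632)) (c (a (l 16768968) (l 16768856)) (l 16768584))) (b (c (a (l 16768920) (l 16768808)) (l 16768528)) (a (c (c (l 16768952) (l 16768784)) (l 16768536)) (c (a (l 16768784) (l 16768728)) (l 16768416)))))))), by decide +kernel⟩

def k53_A00pm_012_s1 : ∃ t, chk3 f_A00pm_012_s1 t 135 126 1 = true :=
  ⟨(b (a (a (b (l 535828351) (b (l 16773192) (b (l 16772968) (l 16772792)))) (b (l 535847551) (b (l 16773008) (b (l 16772752) (l 16772664))))) (b (a (l 535867007) (l 535886207)) (a (b (l 16772784) (l 16772576)) (b (a (l 16772680) (b (l 16772640) (l 16772544))) (l 16772352))))) (a (b (b (a (b (l 16772688) (l 16772504)) (l 16772392)) (a (c (l 16772368) (l 16772144)) (l 16772064))) (b (a (b (l 16772008) (l 16771840)) (b (l 16771816) (l 16771648))) (a (b (l 16771672) (l 16771504)) (b (l 16771480) (l 16771304))))) (b (b (a (l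 16772208) (l 16772024)) (a (l 16771880) (l 16771688))) (b (a (l 16771544) (b (l 16771432) (l 16771256))) (a (b (l 16771288) (l 16771112)) (b (l 16771080) (l 16770904))))))), by decide +kernel⟩

def k54_A00pm_012_s1 : ∃ t, chk3 f_A00pm_012_s1 t 135 254 1 = true :=
  ⟨(a (b (b (a (b (l 16771328) (l 16771152)) (b (l 16771128) (l 16770952))) (a (b (l 16770976) (l 16770800)) (b (l 16770776) (l 16770592)))) (b (b (a (l 16770616) (l 16770416)) (a (c (l 16770576) (l 16770288)) (l 16770224))) (b (a (c (l 16770392) (l 16770104)) (c (l 16770192) (l 16769888))) (a (a (l 16770112) (l 16770008)) (c (l 16770008) (l 16769696)))))) (a (b (b (b (l 16770936) (l 16770760)) (b (l 16770576) (l 16770400))) (b (b (l 16770216) (l 16770032)) (b (c (l 16770000) (l 16769680)) (c (l 16769816) (l 16769488))))) (b (b (b (l 16770728) (l 16770544)) (b (l 16770360) (c (l 16770336) (l 16770016)))) (b (a (b (l 16770072) (l 16769880)) (b (l 16769968) (l 16769784))) (b (a (l 16769696) (l 16769592)) (a (l 16769504) (l 16769400))))))), by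 decide +kernel⟩

def k55_A00pm_012_s1 : ∃ t, chk3 f_A00pm_012_s1 t 135 510 1 = true :=
  ⟨(a (b (b (b (a (l 16769920) (l 16769712)) (a (l 16769824) (l 16769616))) (b (a (a (l 16769784) (l 16769680)) (l 16769520)) (a (a (l 16769688) (l 16769584)) (l 16769424)))) (b (b (c (a (l 16769696) (l 16769488)) (a (l 16769384) (l 16769160))) (c (a (l 16769600) (l 16769392)) (a (l 16769280) (l 16769064)))) (b (c (a (l 16769504) (l 16769296)) (a (l 16769184) (l 16768968))) (c (a (l 16769408) (l 16769200)) (a (l 16769088) (l 16768864)))))) (b (a (a (b (l 16769512) (l 16769320)) (b (l 16769408) (l 16769216))) (a (b (l 16769312) (l 16769120)) (b (l 16769208) (c (l 16769192) (l 16768832))))) (b (b (a (l 16769120) (a (l 16768976) (l 16768864))) (a (a (l 16769072) (l 16768976)) (a (l 16768872) (l 16768768)))) (b (a (a (l 16768976) (l 16768872)) (a (l 16768776) (l 16768664))) (a (a (l 16768880) (l 16768776)) (a (l 16768672) (a (l 16768600) (l 16768552)))))))), by decide +kernel⟩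

def k56_A00pm_012_s1 : ∃ t, chk3 f_A00pm_012_s1 t 270 511 1 = true :=
  ⟨(a (b (b (b (a (l 16769200) (l 16769096)) (c (c (l 16769296) (l 16769128)) (l 16768888))) (c (a (b (l 16769168) (l 16769072)) (b (l 16769064) (l 16768968))) (c (b (l 16768864) (l 16768768)) (b (l 16768704) (l 16768600))))) (b (a (b (c (a (l 16769000) (l 16768944)) (l 16768640)) (c (c (l 16768960) (l 16768792)) (l 16768536))) (b (c (a (l 16768888) (l 16768840)) (l 16768528)) (c (c (l 16768848) (l 16768680)) (l 16768424)))) (b (b (c (a (l 16768800) (l 16768688)) (l 16768400)) (c (a (l 16768744) (l 16768640)) (l 16768352))) (b (c (c (a (l 16768784) (l 16768680)) (l 16768560)) (l 16768296)) (a (c (a (l 16768672) (l 16768624)) (l 16768304)) (c (a (l 16768568) (a (l 16768528) (l 16768504))) (l 16768192))))))) (b (b (b (a (l 16768984) (l 16768880)) (c (c (l 16769088) (l 16768920)) (l 16768664))) (c (a (b (l 16768960) (l 16768856)) (b (l 16768856) (l 16768760))) (c (b (l 16768648) (l 16768544)) (b (l 16768480) (l 16768376))))) (b (b (b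 (c (l 16768736) (l 16768384)) (c (c (l 16768768) (l 16768600)) (l 16768336))) (b (c (c (l 16768720) (l 16768544)) (l 16768280)) (c (c (l 16768672) (l 16768496)) (l 16768232)))) (a (b (c (b (l 16768584) (l 16768536)) (l 16768208)) (b (c (c (l 16768576) (l 16768400)) (l 16768128)) (c (b (l 16768448) (a (l 16768448) (l 16768392))) (l 16768080)))) (b (c (b (l 16768480) (a (l 16768456) (l 16768408))) (l 16768096)) (b (c (c (l 16768472) (l 16768288)) (l 16768016)) (c (b (l 16768344) (a (l 16768344) (l 16768296))) (l 16767968)))))))), by decide +kernel⟩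

def k57_A00pm_012_s1 : ∃ t, chk3 f_A00pm_012_s1 t 542 511 1 = true :=
  ⟨(b (b (b (c (l 16768904) (l 16768552)) (c (c (l 16768896) (l 16768712)) (l 16768448))) (c (a (b (l 16768752) (l 16768656)) (b (l 16768656) (l 16768560))) (c (b (l 16768440) (l 16768336)) (b (l 16768256) (l 16768152))))) (b (a (b (c (c (l 16768648) (l 16768464)) (l 16768200)) (c (a (l 16768480) (l 16768432)) (l 16768096))) (b (c (c (l 16768552) (l 16768368)) (l 16768088)) (c (a (l 16768384) (l 16768328)) (l 16767984)))) (c (b (b (a (l 16768384) (l 16768280)) (c (a (l 16768424) (l 16768320)) (l 16768184))) (a (b (a (l 16768304) (l 16768256)) (b (l 16768240) (a (l 16768240) (l 16768192)))) (b (a (l 16768200) (l 16768152)) (c (a (l 16768248) (l 16768200)) (l 16768032))))) (b (a (l 16767992) (l 16767880)) (a (a (l 16767912) (l 16767856)) (a (l 16767808) (l 16767752))))))), by decide +kernel⟩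

def k58_A00pm_012_s1 : ∃ t, chk3 f_A00pm_012_s1 t 543 511 1 = true :=
  ⟨(a (b (b (b (l 16768576) (l 16768472)) (b (a (l 16768400) (l 16768352)) (c (l 16768456) (l 16768088)))) (b (b (c (l 16768360) (l 16767984)) (c (a (l 16768280) (l 16768232)) (l 16767880))) (b (c (b (l 16768184) (c (l 16768224) (l 16768032))) (l 16767776)) (b (c (c (l 16768176) (l 16767984)) (l 16767696)) (c (c (a (l 16768152) (l 16768096)) (l 16767936)) (l 16767648)))))) (a (b (b (b (l 16768504) (l 16768400)) (b (l 16768304) (a (l 16768208) (l 16768184)))) (c (b (b (l 16768288) (l 16768184)) (c (b (l 16768176) (b (l 16768104) (l 16768056))) (b (l 16767984) (l 16767880)))) (b (b (l 16767904) (l 16767800)) (b (l 16767696) (l 16767592))))) (b (b (b (l 16768448) (l 16768352)) (a (b (l 16768264) (l 16768160)) (b (l 16768240) (l 16768136)))) (c (b (b (l 16768232) (c (l 16768232) (l 16768040))) (a (b (l 16768048) (b (l 16767968) (l 16767920))) (c (b (l 16768120) (b (l 16768040) (l 16767992))) (b (l 16767928) (l 16767824))))) (b (b (l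 16767856) (l 16767752)) (b (l 16767648) (a (l 16767552) (l 16767528)))))))), by decide +kernel⟩

def k59_A00pm_012_s1 : ∃ t, chk3 f_A00pm_012_s1 t 68 62 1 = true :=
  ⟨(b (b (c (a (c (l 561150991) (a (b (l 554147967) (l 551057791)) (l 555658623))) (a (l 562131071) (l 564152703))) (a (a (b (c (l 545604991) (l 537062015)) (l 537446015)) (b (c (l 548931199) (l 540916607)) (l 539905551))) (c (a (b (l 551840127) (l 549067391)) (l 553215503)) (a (b (l 544307327) (l 541096319)) (a (l 545166975) (l 546654335)))))) (b (a (c (c (l 557430399) (a (l 547521919) (l 551193727))) (a (l 536068223) (l 537655423))) (c (a (l 558599551) (l 16818320)) (a (l 540087311) (c (l 549202815) (l 541275007))))) (a (a (a (l 537069951) (l 538444415)) (c (c (l 557289855) (l 547682687)) (l 536076415))) (c (a (l 554474623) (l 558688127)) (a (l 537863807) (l 540536591)))))) (b (a (a (b (l 536032639) (l 536001663)) (a (l 536178703) (l 536064895))) (b (c (a (c (l 557397631) (l 547842687)) (l 555120655)) (a (l 536084863) (l 538071423))) (a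 (b (l 16773888) (l 537576319)) (c (c (l 16874520) (l 548001663)) (l 536093567))))) (b (a (a (l 536105087) (l 536010367)) (a (l 536050047) (a (l 537744511) (l 538801023)))) (a (a (l 536175375) (l 536114047)) (a (b (l 16773040) (a (l 16772832) (l 16772768))) (b (a (l 16772888) (l 16773400)) (a (l 16772568) (l 16772456)))))))), by decide +kernel⟩

def k60_A00pm_012_s1 : ∃ t, chk3 f_A00pm_012_s1 t 69 62 1 = true :=
  ⟨(b (c (a (b (l 566690063) (a (l 562253183) (l 564242047))) (b (l 16881720) (l 565930623))) (a (b (a (c (l 555588991) (l 547376911)) (l 554424847)) (a (b (l 548344079) (l 544589583)) (b (l 16797952) (l 16780952)))) (b (a (l 556421247) (l 16836904)) (a (b (l 16858648) (l 16811608)) (l 552991359))))) (b (a (c (a (b (l 16797928) (l 16814136)) (c (l 16926712) (l 555256447))) (a (b (l 540448127) (l 538278271)) (b (l 544744975) (l 540895759)))) (a (b (l 16803456) (b (l 16798560) (l 16773056))) (b (l 16827024) (a (l 16773544) (l 16786288))))) (a (b (a (a (l 16776192) (b (l 16783576) (l 16774192)))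 (b (l 16771976) (l 16774096))) (a (a (b (l 16774696) (l 16776552)) (l 16772584)) (b (l 16785216) (l 16773672)))) (a (b (b (a (l 16781568) (l 16795064)) (l 16781352)) (b (l 16773016) (l 16784152))) (b (l 16770768) (a (l 16791240) (l 16785512))))))), by decide +kernel⟩

def k61_A00pm_012_s1 : ∃ t, chk3 f_A00pm_012_s1 t 68 126 1 = true :=
  ⟨(b (b (b (a (a (l 535921535) (a (l 16772832) (b (l 16772760) (l 16772592)))) (a (a (l 16772496) (l 16772400)) (l 16772176))) (a (a (a (a (l 16772840) (l 16772808)) (b (l 16772760) (l 16772560))) (a (b (l 16772568) (l 16772424)) (l 16772352))) (a (l 16772104) (l 16771808)))) (a (a (b (a (b (l 16772528) (l 16772424)) (l 16772336)) (a (l 16772176) (l 16772000))) (b (a (l 16772168) (l 16772016)) (a (l 16771832) (l 16771664)))) (a (b (a (l 16771856) (l 16771704)) (a (l 16771504) (l 16771344))) (b (l 16771432) (a (l 16771184) (l 16771032)))))) (a (b (a (b (a (l 16771848) (l 16771656)) (a (l 16771504) (l 16771312))) (b (a (l 16771480) (l 16771312)) (a (l 16771128) (l 16770952))))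 (a (b (a (b (l 16771248) (l 16771072)) (l 16770952)) (a (b (l 16770896) (l 16770712)) (b (l 16770680) (l 16770496)))) (b (a (l 16770768) (l 16770584)) (a (b (l 16770488) (l 16770304)) (b (l 16770296) (l 16770104)))))) (b (a (b (a (l 16771144) (l 16770976)) (a (l 16770776) (l 16770600))) (b (a (l 16770816) (l 16770656)) (a (l 16770432) (l 16770264)))) (a (b (a (l 16770400) (l 16770216)) (a (l 16770016) (l 16769832))) (b (a (l 16770048) (l 16769872)) (a (l 16769648) (l 16769472))))))), by decide +kernel⟩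

def k62_A00pm_012_s1 : ∃ t, chk3 f_A00pm_012_s1 t 68 254 1 = true :=
  ⟨(b (a (b (a (a (b (l 16770536) (l 16770352)) (b (l 16770312) (l 16770120))) (a (b (l 16770112) (l 16769920)) (b (l 16769912) (l 16769720)))) (a (a (b (l 16770168) (l 16769976)) (b (l 16769928) (l 16769736))) (a (b (l 16769728) (l 16769536)) (b (l 16769528) (l 16769328))))) (a (b (a (b (l 16769720) (l 16769528)) (b (l 16769536) (l 16769336))) (a (b (l 16769328) (l 16769128)) (b (l 16769128) (l 16768928)))) (b (a (b (l 16769344) (l 16769144)) (l 16769056)) (a (b (l 16768936) (l 16768728)) (b (l 16768744) (l 16768536)))))) (c (a (a (a (a (a (a (b (l 16769992) (l 16769616)) (l 22)) (l 22)) (l 22)) (l 22)) (l 22)) (l 22)) (a (b (a (a (b (l 16769624) (l 16769432)) (b (l 16769376) (l 16769176))) (a (b (l 16769152) (l 16768952)) (b (l 16768944) (l 16768736)))) (a (b (a (a (l 16769320) (l 16769192)) (l 16768976)) (a (a (l 16769120) (l 16769000)) (a (l 16768880) (l 16768768)))) (a (b (l 16768752) (a (l 16768656) (l 16768536))) (b (l 16768528)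 (a (l 16768424) (l 16768312)))))) (b (a (a (b (l 16768728) (l 16768520)) (b (l 16768520) (l 16768312))) (a (b (l 16768312) (l 16768104)) (b (l 16768112) (l 16767896)))) (a (a (b (l 16768312) (l 16768104)) (b (l 16768096) (l 16767880))) (a (b (l 16767888) (l 16767672)) (b (l 16767680) (l 16767456)))))))), by decide +kernel⟩

def k63_A00pm_012_s1 : ∃ t, chk3 f_A00pm_012_s1 t 68 255 2 = true :=
  ⟨(a (a (a (a (a (a (a (a (b (b (b (l 16769344) (l 16769152)) (b (l 16768952) (l 16768760))) (b (b (l 16768560) (l 16768360)) (b (b (l 16768208) (l 16768112)) (b (l 16768008) (b (l 16767928) (l 16767880)))))) (l 22)) (l 22)) (l 22)) (l 22)) (l 22)) (l 22)) (l 22)) (l 22)), by decide +kernel⟩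

def k64_A00pm_012_s1 : ∃ t, chk3 f_A00pm_012_s1 t 136 510 3 = true :=
  ⟨(a (b (b (a (a (l 16768928) (l 16768800)) (a (l 16768680) (l 16768568))) (a (a (l 16768728) (l 16768600)) (a (l 16768480) (l 16768360)))) (b (a (a (l 16768528) (l 16768392)) (a (l 16768272) (l 16768152))) (a (a (c (l 16768416) (l 16768232)) (c (l 16768280) (l 16768096))) (a (c (l 16768160) (l 16767968)) (c (l 16768040) (l 16767848)))))) (b (b (a (a (l 16768448) (l 16768336)) (a (l 16768216) (l 16768104))) (a (a (l 16768240) (l 16768128)) (a (l 16768008) (l 16767896)))) (b (a (a (l 16768032) (l 16767920)) (a (l 16767800) (l 16767680))) (a (a (l 16767824) (l 16767704)) (a (l 16767584) (l 16767464)))))), by decide +kernel⟩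

def k65_A00pm_012_s1 : ∃ t, chk3 f_A00pm_012_s1 t 136 1022 3 = true :=
  ⟨(a (b (b (a (a (l 16768168) (l 16768032)) (a (l 16767912) (l 16767792))) (a (a (l 16768064) (l 16767928)) (a (l 16767808) (l 16767680)))) (b (a (a (l 16767960) (l 16767824)) (a (l 16767704) (l 16767576))) (a (a (c (l 16767952) (l 16767760)) (l 16767720)) (a (l 16767592) (l 16767472))))) (b (b (a (a (l 16767664) (l 16767544)) (a (l 16767424) (l 16767304))) (a (a (l 16767560) (l 16767440)) (a (l 16767320) (l 16767200)))) (b (a (a (l 16767456) (l 16767328)) (a (l 16767208) (l 16767088))) (a (a (l 16767344) (l 16767224)) (a (l 16767104) (l 16766976)))))), by decide +kernel⟩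

def k66_A00pm_012_s1 : ∃ t, chk3 f_A00pm_012_s1 t 136 1023 3 = true :=
  ⟨(b (a (a (a (a (b (l 16767792) (l 16767688)) (b (l 16767728) (l 16767624))) (a (b (l 16767664) (l 16767560)) (b (l 16767600) (l 16767496)))) (a (a (b (l 16767536) (l 16767432)) (b (l 16767472) (l 16767368))) (a (b (l 16767408) (l 16767304)) (b (l 16767352) (l 16767240))))) (a (a (a (b (l 16767288) (l 16767176)) (b (l 16767224) (l 16767112))) (a (b (l 16767160) (l 16767056)) (b (l 16767096) (l 16766992)))) (a (a (b (l 16767040) (l 16766928)) (b (l 16766976) (l 16766864))) (a (b (l 16766912) (l 16766800)) (b (l 16766856) (l 16766744)))))) (a (a (a (a (b (l 16767584) (a (l 16767496) (l 16767464))) (b (l 16767520) (a (l 16767432) (l 16767400)))) (a (b (l 16767456) (a (l 16767368) (l 16767336))) (b (l 16767392) (a (l 16767304) (l 16767272))))) (a (a (b (l 16767328) (a (l 16767240) (l 16767208))) (b (l 16767264) (a (l 16767176) (l 16767144)))) (a (b (l 16767200) (a (l 16767112) (l 16767080))) (b (l 16767136) (a (l 16767048) (l 16767016))))))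 (a (a (a (b (l 16767072) (a (l 16766984) (l 16766952))) (b (l 16767008) (a (l 16766920) (l 16766888)))) (a (b (l 16766944) (a (l 16766856) (l 16766824))) (b (l 16766880) (a (l 16766792) (l 16766760))))) (a (a (b (l 16766816) (a (l 16766728) (l 16766696))) (b (l 16766752) (b (l 16766672) (l 16766616)))) (a (b (l 16766696) (b (l 16766608) (l 16766552))) (b (a (l 16766648) (l 16766616)) (b (l 16766544) (l 16766496)))))))), by decide +kernel⟩

def k67_A00pm_012_s1 : ∃ t, chk3 f_A00pm_012_s1 t 274 255 3 = true :=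
  ⟨(a (a (b (b (b (l 16767992) (l 16767776)) (b (l 16767568) (l 16767352))) (b (b (a (l 16767176) (l 16767112)) (b (l 16766968) (l 16766856))) (a (b (b (l 16766792) (l 16766680)) (b (a (l 16766592) (l 16766560)) (b (l 16766488) (l 16766432)))) (b (b (l 16766728) (l 16766616)) (c (l 22) (b (l 16766392) (l 16766280))))))) (c (l 22) (b (b (b (l 16767776) (l 16767560)) (b (l 16767344) (l 16767128))) (b (b (l 16766904) (b (l 16766736) (l 16766624))) (b (b (l 16766512) (l 16766400)) (a (b (l 16766336) (l 16766224)) (b (l 16766272) (l 16766160)))))))) (c (l 22) (b (b (b (l 16767560) (a (l 16767448) (l 16767336))) (b (a (l 16767224) (l 16767112)) (a (l 16767008) (l 16766888)))) (b (b (a (l 16766784) (l 16766664)) (a (b (l 16766616) (l 16766504)) (b (l 16766496) (l 16766384)))) (b (a (b (l 16766392) (l 16766280)) (b (l 16766272) (l 16766152))) (a (a (b (l 16766208) (l 16766096)) (b (l 16766144) (l 16766032))) (a (b (l 16766088) (l 16765968)) (b (l 16766024) (l 16765912))))))))), by decide +kernel⟩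

def k68_A00pm_012_s1 : ∃ t, chk3 f_A00pm_012_s1 t 275 255 3 = true :=
  ⟨(c (l 22) (b (b (a (b (l 16767344) (a (l 16767216) (l 16767104))) (b (l 16767120) (l 16766896))) (a (b (a (l 16767000) (l 16766880)) (a (l 16766776) (l 16766656))) (b (a (l 16766768) (l 16766656)) (a (l 16766544) (l 16766424))))) (a (a (b (b (l 16766544) (b (l 16766376) (l 16766264))) (b (b (l 16766152) (l 16766032)) (a (b (l 16765960) (l 16765848)) (b (l 16765904) (l 16765784))))) (c (l 22) (b (b (l 16766376) (l 16766144)) (b (b (l 16765968) (l 16765856)) (b (l 16765736) (a (l 16765664) (l 16765600))))))) (c (l 22) (b (b (a (l 16766256) (l 16766136)) (a (l 16766024) (l 16765904))) (b (a (b (l 16765848) (l 16765728)) (b (l 16765728) (l 16765608))) (a (b (l 16765616) (a (l 16765544) (l 16765480))) (b (l 16765496) (a (l 16765416) (l 16765360)))))))))), by decide +kernel⟩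

def k69_A00pm_012_s1 : ∃ t, chk3 f_A00pm_012_s1 t 69 63 1 = true :=
  ⟨(b (a (b (b (a (b (l 16771904) (l 16771528)) (b (l 16770768) (l 16771088))) (a (b (l 16771144) (l 16770744)) (b (l 16770864) (l 16770456)))) (b (a (b (a (l 16770496) (l 16770344)) (a (l 16770104) (l 16769944))) (b (l 16770048) (a (l 16769784) (l 16769632)))) (a (b (a (l 16769704) (l 16769536)) (a (l 16769296) (l 16769120))) (b (a (l 16769368) (l 16769208)) (a (l 16768944) (l 16768776)))))) (a (b (b (b (l 16772680) (l 16769888)) (b (a (l 16776704) (l 16774528)) (a (l 16779632) (l 16778720)))) (b (b (l 16769864) (a (l 16769480) (l 16769328))) (b (a (l 16769048) (l 16768896)) (a (l 16768616) (l 16768456))))) (b (b (a (l 16770920) (l 16777368)) (b (l 16770920) (c (l 16826792) (l 16769680)))) (b (b (a (l 16770328) (l 16780712)) (c (l 16769008) (l 16768792))) (b (a (l 16768744) (l 16772328)) (a (l 16768296) (l 16768136))))))) (b (a (a (a (b (b (l 16768880) (b (l 16768560) (l 16768344))) (a (b (l 16768104) (c (l 22) (l 16767448))) (l 22)))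 (b (b (l 16768696) (l 22)) (l 22))) (b (b (a (l 16768520) (l 16768344)) (l 22)) (l 22))) (b (b (a (a (l 16768176) (l 16768008)) (a (l 16767840) (l 16767672))) (l 22)) (l 22))) (c (l 22) (c (l 22) (c (l 22) (c (l 22) (a (a (a (a (a (a (b (b (l 16766856) (l 16766400)) (b (b (l 16766048) (l 16765816)) (b (l 16765584) (l 16765344)))) (l 22)) (l 22)) (l 22)) (l 22)) (l 22)) (l 22)))))))), by decide +kernel⟩

def k70_A00pm_012_s1 : ∃ t, chk3 f_A00pm_012_s1 t 35 62 1 = true :=
  ⟨(b (a (a (c (l 570317071) (b (l 560426255) (c (l 16884800) (l 553714959)))) (b (l 16893256) (a (l 16894688) (l 17000640)))) (a (b (l 17017872) (l 16949624)) (b (l 17058056) (l 17076584)))) (b (a (a (a (b (l 16850864) (a (l 16841016) (l 16853816))) (b (l 16874800) (l 16873000))) (b (l 16910608) (l 16911088))) (a (l 16959568) (l 17090480))) (a (a (b (a (l 16798496) (l 16868016)) (c (l 16906544) (a (b (l 16771872) (l 16803488)) (l 16797040)))) (a (b (l 16895328) (l 16804928)) (b (l 16922280) (l 16917848)))) (a (a (l 16905976) (l 16974800))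 (l 17013984))))), by decide +kernel⟩

def k71_A00pm_012_s1 : ∃ t, chk3 f_A00pm_012_s1 t 35 63 1 = true :=
  ⟨(b (b (b (a (a (b (a (l 16775624) (l 16807816)) (c (l 16896496) (a (l 16778168) (l 16770640)))) (a (a (l 16786392) (l 16802352)) (l 16825920))) (a (a (l 16940544) (l 16970464)) (l 17013728))) (a (c (a (a (a (l 16859824) (l 16877936)) (l 16904592)) (l 16956088)) (a (a (b (l 16773392) (l 16771904)) (b (l 16778360) (l 16773856))) (a (b (l 16792952) (l 16779992)) (b (l 16827592) (l 16816480))))) (a (a (a (l 16838848) (l 16939216)) (l 16879536)) (l 16926160)))) (b (a (c (b (a (a (l 16854496) (l 16893048)) (l 16948296)) (a (a (l 16800784) (l 16883432)) (l 16941512))) (a (a (b (l 16768960) (l 16768504)) (a (l 16768792) (l 16768680))) (a (a (l 16768216) (l 16767400)) (a (l 16766232) (b (l 16813312) (l 16799568)))))) (a (c (l 17099736) (a (b (l 16841072) (l 16828824)) (a (l 16862912) (l 16880992)))) (a (l 16902576) (l 17019280)))) (a (a (a (b (a (c (l 16818008) (l 16768184)) (l 16766224)) (a (l 16768304)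 (l 16766584))) (c (c (l 16997624) (b (l 16825424) (l 16767680))) (b (l 16766640) (l 16767256)))) (c (a (a (l 16897816) (l 16918576)) (l 16948840)) (a (b (l 16767048) (l 16767344)) (b (a (l 16783912) (l 16784096)) (l 16766024))))) (c (a (l 17006392) (l 17161424)) (a (a (a (b (l 16804816) (l 16788672)) (b (l 16825112) (l 16810120))) (b (l 16854760) (a (l 16831096) (l 16851616)))) (a (a (l 16877808) (l 16896960)) (l 16924904))))))) (b (b (b (b (b (b (a (a (a (l 16767368) (l 16769912)) (c (c (l 17050352) (l 16868208)) (a (l 16770416) (l 16765480)))) (c (a (l 17083248) (l 17157856)) (a (a (l 16789840) (l 16833128)) (l 16852376)))) (l 22)) (l 22)) (l 22)) (l 22)) (l 22)) (l 22))), by decide +kernel⟩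

def k72_A00pm_012_s1 : ∃ t, chk3 f_A00pm_012_s1 t 9 7 1 = true :=
  ⟨(a (b (a (b (a (l 3) (b (l 3) (a (l 567663887) (b (l 566818063) (l 567468159))))) (a (l 570552703) (b (l 568754047) (l 570026623)))) (b (b (l 564747135) (a (b (l 566093695) (a (l 566969359) (l 566474111))) (l 565456767))) (a (b (c (l 568947983) (l 566537743)) (l 569047823)) (b (l 566734719) (l 568042111))))) (b (a (b (a (l 571808527) (l 571105919)) (a (b (l 16943560) (a (l 17061752) (l 17097568))) (b (l 17094024) (l 17065432)))) (b (a (l 570254975) (b (l 17103544) (l 17157824))) (a (b (l 17156272) (l 17215808)) (b (l 17216800) (l 17281632))))) (b (a (a (a (b (l 17108376) (a (l 17047088) (l 17154184))) (b (l 17147608) (l 17187952))) (b (l 17203744) (l 17167816))) (a (b (l 17275640) (l 17330640)) (l 17292728))) (b (a (b (a (a (l 17068920) (l 17205840)) (l 17279032)) (a (a (b (l 17066152) (l 16976544)) (l 17124328)) (l 17122704))) (a (l 17375560) (l 17457336))) (a (b (b (a (a (a (a (l 16939976) (l 17042112)) (l 17068680)) (l 17119072))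 (l 17210160)) (a (c (l 17169936) (l 22)) (l 17125656))) (a (c (a (b (l 17208264) (l 22)) (l 17280592)) (l 22)) (a (b (l 17172448) (l 17078832)) (l 17152456)))) (a (b (l 17397088) (l 17318296)) (l 17491960))))))) (a (b (b (a (l 563958143) (l 563034751)) (b (l 565276431) (l 566562063))) (b (b (b (a (l 17155936) (l 17206784)) (a (l 17212584) (l 17269240))) (a (l 17312208) (l 17375096))) (a (b (l 17446720) (a (l 17454264) (l 17577088))) (b (l 17514624) (l 17549448))))) (b (b (l 563068943) (b (l 17046608) (a (l 17177400) (l 17224448)))) (b (b (a (l 17293928) (l 17355312)) (l 17385456)) (b (l 17613104) (b (l 17711016) (l 17764480))))))), by decide +kernel⟩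

def k73_A00pm_012_s1 : ∃ t, chk3 f_A00pm_012_s1 t 5 3 1 = true :=
  ⟨(a (b (a (a (b (a (l 555207295) (b (l 554125439) (l 555164799))) (a (l 557870463) (b (l 556402303) (l 557863039)))) (a (b (a (l 554218111) (b (l 553392511) (l 554393983))) (a (l 556634495) (l 556816255))) (b (a (a (l 553611903) (l 553398911)) (a (a (l 553211519) (l 553095039)) (b (l 16875408) (l 16922312)))) (b (a (l 16966168) (a (l 16977104) (l 16984160))) (a (l 17047368) (a (l 17148608) (l 17246072))))))) (b (b (a (a (l 16849584) (l 16916200)) (l 16950560)) (a (l 17035920) (l 16999992))) (b (a (l 17014712) (l 17063648)) (b (l 17101240) (l 17173496))))) (b (a (a (b (a (l 560413567) (b (l 17068240) (l 17132768))) (b (a (l 17172328) (l 17218984)) (a (l 17278112) (l 17343568)))) (a (b (b (l 17103912) (l 17178056)) (b (l 17286160) (l 17414112))) (b (a (b (l 17135544) (l 17231728)) (a (a (l 17210008) (l 17229808)) (l 17254776))) (a (l 17368056) (b (l 17402128) (l 17522048)))))) (b (b (l 17276464) (l 17386512)) (b (l 17503648) (l 17627472))))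 (a (b (a (b (l 17366664) (l 17595088)) (a (a (l 17476832) (l 17552728)) (a (l 17589024) (b (l 17648504) (l 17779480))))) (a (b (l 17739216) (a (l 17838216) (l 17900544))) (a (b (l 17831064) (l 17960624)) (a (a (l 17935832) (l 17951024)) (a (l 17883336) (b (l 17919352) (l 18040856))))))) (b (b (l 17757096) (l 17890552)) (b (l 18023800) (l 18148216)))))) (b (b (a (l 17203032) (l 17015496)) (b (l 17244336) (a (l 17304304) (l 17278648)))) (b (b (a (l 17468504) (l 17488248)) (a (l 17645864) (l 17775032))) (b (a (l 17845384) (l 18082896)) (b (l 18256288) (l 18397032)))))), by decide +kernel⟩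

def k74_A00pm_012_s1 : ∃ t, chk3 f_A00pm_012_s1 t 3 1 1 = true :=
  ⟨(a (b (a (b (l 2) (b (l 2) (l 17164112))) (l 2)) (b (b (l 17531424) (a (l 17548256) (l 17238816))) (a (b (b (l 17691752) (l 17848408)) (b (l 18192136) (l 6))) (b (l 6) (l 6))))) (b (l 2) (l 6))), by decide +kernel⟩

theorem t75_A00pm_012_s1 : ∃ t, chk3 f_A00pm_012_s1 t 35 31 1 = true := ex3_b k70_A00pm_012_s1 k71_A00pm_012_s1

theorem t76_A00pm_012_s1 : ∃ t, chk3 f_A00pm_012_s1 t 137 255 3 = true := ex3_a k67_A00pm_012_s1 k68_A00pm_012_s1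

theorem t77_A00pm_012_s1 : ∃ t, chk3 f_A00pm_012_s1 t 136 511 3 = true := ex3_b k65_A00pm_012_s1 k66_A00pm_012_s1

theorem t78_A00pm_012_s1 : ∃ t, chk3 f_A00pm_012_s1 t 136 255 3 = true := ex3_b k64_A00pm_012_s1 t77_A00pm_012_s1

theorem t79_A00pm_012_s1 : ∃ t, chk3 f_A00pm_012_s1 t 68 255 3 = true := ex3_a t78_A00pm_012_s1 t76_A00pm_012_s1

theorem t80_A00pm_012_s1 : ∃ t, chk3 f_A00pm_012_s1 t 68 255 1 = true := ex3_c k63_A00pm_012_s1 t79_A00pm_012_s1

theorem t81_A00pm_012_s1 : ∃ t, chk3 f_A00pm_012_s1 t 68 127 1 = true := ex3_b k62_A00pm_012_s1 t80_A00pm_012_s1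

theorem t82_A00pm_012_s1 : ∃ t, chk3 f_A00pm_012_s1 t 68 63 1 = true := ex3_b k61_A00pm_012_s1 t81_A00pm_012_s1

theorem t83_A00pm_012_s1 : ∃ t, chk3 f_A00pm_012_s1 t 34 63 1 = true := ex3_a t82_A00pm_012_s1 k69_A00pm_012_s1

theorem t84_A00pm_012_s1 : ∃ t, chk3 f_A00pm_012_s1 t 34 62 1 = true := ex3_a k59_A00pm_012_s1 k60_A00pm_012_s1

theorem t85_A00pm_012_s1 : ∃ t, chk3 f_A00pm_012_s1 t 34 31 1 = true := ex3_b t84_A00pm_012_s1 t83_A00pm_012_s1

theorem t86_A00pm_012_s1 : ∃ t, chk3 f_A00pm_012_s1 t 17 31 1 = true := ex3_a t85_A00pm_012_s1 t75_A00pm_012_s1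

theorem t87_A00pm_012_s1 : ∃ t, chk3 f_A00pm_012_s1 t 271 511 1 = true := ex3_a k57_A00pm_012_s1 k58_A00pm_012_s1

theorem t88_A00pm_012_s1 : ∃ t, chk3 f_A00pm_012_s1 t 135 511 1 = true := ex3_a k56_A00pm_012_s1 t87_A00pm_012_s1

theorem t89_A00pm_012_s1 : ∃ t, chk3 f_A00pm_012_s1 t 135 255 1 = true := ex3_b k55_A00pm_012_s1 t88_A00pm_012_s1

theorem t90_A00pm_012_s1 : ∃ t, chk3 f_A00pm_012_s1 t 135 127 1 = true := ex3_b k54_A00pm_012_s1 t89_A00pm_012_s1

theorem t91_A00pm_012_s1 : ∃ t, chk3 f_A00pm_012_s1 t 135 63 1 = true := ex3_b k53_A00pm_012_s1 t90_A00pm_012_s1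

theorem t92_A00pm_012_s1 : ∃ t, chk3 f_A00pm_012_s1 t 269 255 1 = true := ex3_b k51_A00pm_012_s1 k52_A00pm_012_s1

theorem t93_A00pm_012_s1 : ∃ t, chk3 f_A00pm_012_s1 t 269 127 1 = true := ex3_b k50_A00pm_012_s1 t92_A00pm_012_s1

theorem t94_A00pm_012_s1 : ∃ t, chk3 f_A00pm_012_s1 t 268 255 1 = true := ex3_b k48_A00pm_012_s1 k49_A00pm_012_s1

theorem t95_A00pm_012_s1 : ∃ t, chk3 f_A00pm_012_s1 t 268 127 1 = true := ex3_b k47_A00pm_012_s1 t94_A00pm_012_s1

theorem t96_A00pm_012_s1 : ∃ t, chk3 f_A00pm_012_s1 t 134 127 1 = true := ex3_a t95_A00pm_012_s1 t93_A00pm_012_s1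

theorem t97_A00pm_012_s1 : ∃ t, chk3 f_A00pm_012_s1 t 134 63 1 = true := ex3_b k46_A00pm_012_s1 t96_A00pm_012_s1

theorem t98_A00pm_012_s1 : ∃ t, chk3 f_A00pm_012_s1 t 67 63 1 = true := ex3_a t97_A00pm_012_s1 t91_A00pm_012_s1

theorem t99_A00pm_012_s1 : ∃ t, chk3 f_A00pm_012_s1 t 67 31 1 = true := ex3_b k45_A00pm_012_s1 t98_A00pm_012_s1

theorem t100_A00pm_012_s1 : ∃ t, chk3 f_A00pm_012_s1 t 66 2047 1 = true := ex3_a k43_A00pm_012_s1 k44_A00pm_012_s1

theorem t101_A00pm_012_s1 : ∃ t, chk3 f_A00pm_012_s1 t 66 1023 1 = true := ex3_b k42_A00pm_012_s1 t100_A00pm_012_s1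

theorem t102_A00pm_012_s1 : ∃ t, chk3 f_A00pm_012_s1 t 66 1022 1 = true := ex3_a k40_A00pm_012_s1 k41_A00pm_012_s1

theorem t103_A00pm_012_s1 : ∃ t, chk3 f_A00pm_012_s1 t 66 511 1 = true := ex3_b t102_A00pm_012_s1 t101_A00pm_012_s1

theorem t104_A00pm_012_s1 : ∃ t, chk3 f_A00pm_012_s1 t 66 510 1 = true := ex3_b k38_A00pm_012_s1 k39_A00pm_012_s1

theorem t105_A00pm_012_s1 : ∃ t, chk3 f_A00pm_012_s1 t 66 255 1 = true := ex3_b t104_A00pm_012_s1 t103_A00pm_012_s1

theorem t106_A00pm_012_s1 : ∃ t, chk3 f_A00pm_012_s1 t 132 254 1 = true := ex3_b k35_A00pm_012_s1 k36_A00pm_012_s1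

theorem t107_A00pm_012_s1 : ∃ t, chk3 f_A00pm_012_s1 t 66 254 1 = true := ex3_a t106_A00pm_012_s1 k37_A00pm_012_s1

theorem t108_A00pm_012_s1 : ∃ t, chk3 f_A00pm_012_s1 t 66 127 1 = true := ex3_b t107_A00pm_012_s1 t105_A00pm_012_s1

theorem t109_A00pm_012_s1 : ∃ t, chk3 f_A00pm_012_s1 t 132 126 1 = true := ex3_a k32_A00pm_012_s1 k33_A00pm_012_s1

theorem t110_A00pm_012_s1 : ∃ t, chk3 f_A00pm_012_s1 t 66 126 1 = true := ex3_a t109_A00pm_012_s1 k34_A00pm_012_s1

theorem t111_A00pm_012_s1 : ∃ t, chk3 f_A00pm_012_s1 t 66 63 1 = true := ex3_b t110_A00pm_012_s1 t108_A00pm_012_s1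

theorem t112_A00pm_012_s1 : ∃ t, chk3 f_A00pm_012_s1 t 132 125 1 = true := ex3_a k29_A00pm_012_s1 k30_A00pm_012_s1

theorem t113_A00pm_012_s1 : ∃ t, chk3 f_A00pm_012_s1 t 66 125 1 = true := ex3_a t112_A00pm_012_s1 k31_A00pm_012_s1

theorem t114_A00pm_012_s1 : ∃ t, chk3 f_A00pm_012_s1 t 66 62 1 = true := ex3_b k28_A00pm_012_s1 t113_A00pm_012_s1

theorem t115_A00pm_012_s1 : ∃ t, chk3 f_A00pm_012_s1 t 66 31 1 = true := ex3_b t114_A00pm_012_s1 t111_A00pm_012_s1

theorem t116_A00pm_012_s1 : ∃ t, chk3 f_A00pm_012_s1 t 33 31 1 = true := ex3_a t115_A00pm_012_s1 t99_A00pm_012_s1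

theorem t117_A00pm_012_s1 : ∃ t, chk3 f_A00pm_012_s1 t 131 511 2 = true := ex3_a k25_A00pm_012_s1 k26_A00pm_012_s1

theorem t118_A00pm_012_s1 : ∃ t, chk3 f_A00pm_012_s1 t 131 511 1 = true := ex3_c t117_A00pm_012_s1 k27_A00pm_012_s1

theorem t119_A00pm_012_s1 : ∃ t, chk3 f_A00pm_012_s1 t 131 510 1 = true := ex3_a k23_A00pm_012_s1 k24_A00pm_012_s1

theorem t120_A00pm_012_s1 : ∃ t, chk3 f_A00pm_012_s1 t 131 255 1 = true := ex3_b t119_A00pm_012_s1 t118_A00pm_012_s1

theorem t121_A00pm_012_s1 : ∃ t, chk3 f_A00pm_012_s1 t 130 510 1 = true := ex3_a k20_A00pm_012_s1 k21_A00pm_012_s1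

theorem t122_A00pm_012_s1 : ∃ t, chk3 f_A00pm_012_s1 t 130 255 1 = true := ex3_b t121_A00pm_012_s1 k22_A00pm_012_s1

theorem t123_A00pm_012_s1 : ∃ t, chk3 f_A00pm_012_s1 t 65 255 1 = true := ex3_a t122_A00pm_012_s1 t120_A00pm_012_s1

theorem t124_A00pm_012_s1 : ∃ t, chk3 f_A00pm_012_s1 t 130 509 1 = true := ex3_b k17_A00pm_012_s1 k18_A00pm_012_s1

theorem t125_A00pm_012_s1 : ∃ t, chk3 f_A00pm_012_s1 t 65 509 1 = true := ex3_a t124_A00pm_012_s1 k19_A00pm_012_s1

theorem t126_A00pm_012_s1 : ∃ t, chk3 f_A00pm_012_s1 t 65 508 1 = true := ex3_a k15_A00pm_012_s1 k16_A00pm_012_s1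

theorem t127_A00pm_012_s1 : ∃ t, chk3 f_A00pm_012_s1 t 65 254 1 = true := ex3_b t126_A00pm_012_s1 t125_A00pm_012_s1

theorem t128_A00pm_012_s1 : ∃ t, chk3 f_A00pm_012_s1 t 65 127 1 = true := ex3_b t127_A00pm_012_s1 t123_A00pm_012_s1

theorem t129_A00pm_012_s1 : ∃ t, chk3 f_A00pm_012_s1 t 259 254 1 = true := ex3_b k12_A00pm_012_s1 k13_A00pm_012_s1

theorem t130_A00pm_012_s1 : ∃ t, chk3 f_A00pm_012_s1 t 129 254 1 = true := ex3_a k11_A00pm_012_s1 t129_A00pm_012_s1

theorem t131_A00pm_012_s1 : ∃ t, chk3 f_A00pm_012_s1 t 64 254 1 = true := ex3_a k10_A00pm_012_s1 t130_A00pm_012_s1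

theorem t132_A00pm_012_s1 : ∃ t, chk3 f_A00pm_012_s1 t 64 127 1 = true := ex3_b t131_A00pm_012_s1 k14_A00pm_012_s1

theorem t133_A00pm_012_s1 : ∃ t, chk3 f_A00pm_012_s1 t 32 127 1 = true := ex3_a t132_A00pm_012_s1 t128_A00pm_012_s1

theorem t134_A00pm_012_s1 : ∃ t, chk3 f_A00pm_012_s1 t 131 126 1 = true := ex3_b k8_A00pm_012_s1 k9_A00pm_012_s1

theorem t135_A00pm_012_s1 : ∃ t, chk3 f_A00pm_012_s1 t 130 126 1 = true := ex3_a k6_A00pm_012_s1 k7_A00pm_012_s1

theorem t136_A00pm_012_s1 : ∃ t, chk3 f_A00pm_012_s1 t 65 126 1 = true := ex3_a t135_A00pm_012_s1 t134_A00pm_012_s1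

theorem t137_A00pm_012_s1 : ∃ t, chk3 f_A00pm_012_s1 t 32 126 1 = true := ex3_a k5_A00pm_012_s1 t136_A00pm_012_s1

theorem t138_A00pm_012_s1 : ∃ t, chk3 f_A00pm_012_s1 t 32 63 1 = true := ex3_b t137_A00pm_012_s1 t133_A00pm_012_s1

theorem t139_A00pm_012_s1 : ∃ t, chk3 f_A00pm_012_s1 t 32 31 1 = true := ex3_b k4_A00pm_012_s1 t138_A00pm_012_s1

theorem t140_A00pm_012_s1 : ∃ t, chk3 f_A00pm_012_s1 t 16 31 1 = true := ex3_a t139_A00pm_012_s1 t116_A00pm_012_s1

theorem t141_A00pm_012_s1 : ∃ t, chk3 f_A00pm_012_s1 t 8 31 1 = true := ex3_a t140_A00pm_012_s1 t86_A00pm_012_s1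

theorem t142_A00pm_012_s1 : ∃ t, chk3 f_A00pm_012_s1 t 8 15 1 = true := ex3_b k3_A00pm_012_s1 t141_A00pm_012_s1

theorem t143_A00pm_012_s1 : ∃ t, chk3 f_A00pm_012_s1 t 8 7 1 = true := ex3_b k2_A00pm_012_s1 t142_A00pm_012_s1

theorem t144_A00pm_012_s1 : ∃ t, chk3 f_A00pm_012_s1 t 4 7 1 = true := ex3_a t143_A00pm_012_s1 k72_A00pm_012_s1

theorem t145_A00pm_012_s1 : ∃ t, chk3 f_A00pm_012_s1 t 4 3 1 = true := ex3_b k1_A00pm_012_s1 t144_A00pm_012_s1

theorem t146_A00pm_012_s1 : ∃ t, chk3 f_A00pm_012_s1 t 2 3 1 = true := ex3_a t145_A00pm_012_s1 k73_A00pm_012_s1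

theorem t147_A00pm_012_s1 : ∃ t, chk3 f_A00pm_012_s1 t 2 1 1 = true := ex3_b k0_A00pm_012_s1 t146_A00pm_012_s1

theorem t148_A00pm_012_s1 : ∃ t, chk3 f_A00pm_012_s1 t 1 1 1 = true := ex3_a t147_A00pm_012_s1 k74_A00pm_012_s1

theorem c_A00pm_012_s1 : CertF 0 536870912 536870912 536870912 50331648 16777216 true true false .pnp 0 1 2
    ndF0q0 ndF0q1 pcF2 cut_A00pm_012_s1 xt_A00pm_012_s1 :=
  certFK2 (fam := true) (s1 := true) (s2 := false) (a := 0) (b := 1) (c := 2) (cn := .pnp) (n1 := ndF0q0) (n2 := ndF0q1) (pc := pcF2) (cut := cut_A00pm_012_s1) (xt := xt_A00pm_012_s1) (P1 := 0) (W1 := 536870912) (P2 := 536870912) (W2 := 536870912) (P3 := 50331648) (W3 := 16777216)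
    rfl rfl rfl (fun _ => rfl) t148_A00pm_012_s1

theorem s_A00pm_012_s1 {κ x : ℝ} (hκ : κ * h0 = ken x) (hx : ((50331648 : ℕ) : ℝ) / S ≤ x)
    (hx' : x ≤ (((50331648 : ℕ) : ℝ) + (16777216 : ℕ)) / S)
    (H : CutA (VF κ) PP tKF tL pcF (Cut.of [[⟨0, 0, 0, 12582912⟩, ⟨1, 1, 0, 12582912⟩, ⟨2, 1, 0, 12582912⟩], [⟨0, 0, 1, 25165824⟩, ⟨1, 1, 0, 8388608⟩, ⟨2, 1, 1, 25165824⟩, ⟨0, 0, 0, 83886080⟩, ⟨0, 1, 0, 1040187392⟩, ⟨2, 1, 0, 83886080⟩, ⟨2, 2, 0, 1040187392⟩]]) 0 1 2 0 0 (sgb true) (sgb false) x) :
    AltA (VF κ) PP tKF tL pcF [⟨3, 0, 0, 1449551462⟩] 0 1 2 0 0 (sgb true) (sgb false) x :=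
  strip_altA (m := 1449551462) true rfl hκ covF00 covF01 hx hx' c_A00pm_012_s1 H ((okx hx hx').extA (T := tt) (sideF hx hx') hκ rfl rfl (.O 0 true) (.O 1 false) rfl)

end Pool.Agent.Strip051.G.I3_64_1_16.Tab.St.C
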