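import Pool.Agent.Strip051.PB.StripC
import Pool.Agent.Strip051.G.I3_64_1_16.Fact

/-! # Facts about the strips of a table (generated) -/

set_option linter.all false
set_option maxRecDepth 4000

namespace Pool.Agent.Strip051.G.I3_64_1_16.Tab.St

open Pool.Agent.Strip051.PB Pool.Agent.StripNear Pool.Agent.Strip051.LC
open Pool.Agent.Strip051.G.I3_64_1_16.Tab

noncomputable def sl1 : Fn1 := ⟨_, _, fun h1 => (enc_norm (enc_subr 22909801 25000000 (enc_scale 27405257 20000000 (enc_subr 7 128 h1))))⟩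
noncomputable def sv1 : Fn1 := ⟨_, _, fun h1 => (enc_norm (enc_subr 29307 400000 (enc_scale 8096763 40000000 (enc_subr 7 128 h1))))⟩
noncomputable def sw1 : Fn1 := ⟨_, _, fun h1 => (enc_norm (enc_subr 3287 125000 (enc_scale 380443 200000 (enc_subr 7 128 h1))))⟩
noncomputable def sl2 : Fn1 := ⟨_, _, fun h1 => (enc_norm (enc_subr 248645697020593 258398100000000 (enc_scale 83356143199453 17226540000000 (enc_subr 7 128 h1))))⟩
noncomputable def sv2 : Fn1 := ⟨_, _, fun h1 => (enc_norm (enc_subr 10917967076249 129199050000000 (enc_scale 18126058681651 17226540000000 (enc_subr 7 128 h1))))⟩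
noncomputable def sw2 : Fn1 := ⟨_, _, fun h1 => (enc_norm (enc_subr 73097 1000000 (enc_scale 1088311 200000 (enc_subr 7 128 h1))))⟩
noncomputable def sl3 : Fn1 := ⟨_, _, fun h1 => (enc_norm (enc_subr 3130531094141 3187326000000 (enc_scale 22207503879261 5312210000000 (enc_subr 7 128 h1))))⟩
noncomputable def sv3 : Fn1 := ⟨_, _, fun h1 => (enc_norm (enc_subr 14223784609987 159366300000000 (enc_scale 4756231759291 5312210000000 (enc_subr 7 128 h1))))⟩
noncomputable def sw3 : Fn1 := ⟨_, _, fun h1 => (enc_norm (enc_subr 47 500 (enc_scale 950167 200000 (enc_subr 7 128 h1))))⟩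
noncomputable def sl4 : Fn1 := ⟨_, _, fun h1 => (enc_norm (enc_subr 1129085626327 1171800000000 (enc_scale 38046251977 16740000000 (enc_subr 7 128 h1))))⟩
noncomputable def sv4 : Fn1 := ⟨_, _, fun h1 => (enc_norm (enc_subr 199127798699 2343600000000 (enc_scale 3057206113 6696000000 (enc_subr 7 128 h1))))⟩
noncomputable def sw4 : Fn1 := ⟨_, _, fun h1 => (enc_norm (enc_subr 147493 2000000 (enc_scale 535451 200000 (enc_subr 7 128 h1))))⟩
noncomputable def sl5 : Fn1 := ⟨_, _, fun h1 => (enc_norm (enc_subr 26020167652537 28340200000000 (enc_scale 503008172277 404860000000 (enc_subr 7 128 h1))))⟩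
noncomputable def sv5 : Fn1 := ⟨_, _, fun h1 => (enc_norm (enc_subr 4249549406793 56680400000000 (enc_scale 186112613337 809720000000 (enc_subr 7 128 h1))))⟩
noncomputable def sw5 : Fn1 := ⟨_, _, fun h1 => (enc_norm (enc_subr 44307 2000000 (enc_scale 301329 200000 (enc_subr 7 128 h1))))⟩
noncomputable def sl6 : Fn1 := ⟨_, _, fun h1 => (enc_norm (enc_subr 133994137 150000000 (enc_scale 3894541 7500000 (enc_subr 7 128 h1))))⟩
noncomputable def sv6 : Fn1 := ⟨_, _, fun h1 => (enc_norm (enc_subr 104821937 1500000000 (enc_scale 97921391 1200000000 (enc_subr 7 128 h1))))⟩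
noncomputable def sw6 : Fn1 := ⟨_, _, fun h1 => (enc_norm (enc_add (enc_scale 124951 200000 (enc_subr 7 128 h1)) (enc_rat _ 4071 500000)))⟩
noncomputable def sl7 : Fn1 := ⟨_, _, fun h1 => (enc_norm (enc_subr 1759127 2000000 (enc_scale 195957 1000000 (enc_subr 7 128 h1))))⟩
noncomputable def sv7 : Fn1 := ⟨_, _, fun h1 => (enc_norm (enc_subr 53982743 800000000 (enc_scale 2001693 80000000 (enc_subr 7 128 h1))))⟩
noncomputable def sw7 : Fn1 := ⟨_, _, fun h1 => (enc_norm (enc_add (enc_scale 1303 8000 (enc_subr 7 128 h1)) (enc_rat _ 11103 400000)))⟩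
noncomputable def sl8 : Fn1 := ⟨_, _, fun h1 => (enc_norm (enc_subr 265263 312500 (enc_scale 40391 1000000 (enc_subr 7 128 h1))))⟩
noncomputable def sv8 : Fn1 := ⟨_, _, fun h1 => (enc_norm (enc_subr 25455269 400000000 (enc_scale 446023 80000000 (enc_subr 7 128 h1))))⟩
noncomputable def sw8 : Fn1 := ⟨_, _, fun h1 => (enc_norm (enc_sub (enc_rat _ 89201 1000000) (enc_scale 29651 200000 (enc_subr 7 128 h1))))⟩
noncomputable def sl9 : Fn1 := ⟨_, _, fun h1 => (enc_norm (enc_sub (enc_rat _ 299493787 1800000000) (enc_scale 5092061 90000000 (enc_subr 7 128 h1))))⟩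
noncomputable def sv9 : Fn1 := ⟨_, _, fun h1 => (enc_norm (enc_sub (enc_rat _ 75023081 6000000000) (enc_scale 509203 300000000 (enc_subr 7 128 h1))))⟩
noncomputable def sw9 : Fn1 := ⟨_, _, fun h1 => (enc_norm (enc_sub (enc_rat _ 6946583 2000000) (enc_scale 47149 100000 (enc_subr 7 128 h1))))⟩
noncomputable def sl10 : Fn1 := ⟨_, _, fun h1 => (enc_neg (enc_rat _ 500819 2000000))⟩
noncomputable def sv10 : Fn1 := ⟨_, _, fun h1 => (enc_pnc _ 0)⟩
noncomputable def sl11 : Fn1 := ⟨_, _, fun h1 => (enc_norm (enc_sub (enc_rat _ 299493787 1800000000) (enc_scale 5092061 90000000 (enc_subr 7 128 h1))))⟩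
noncomputable def sv11 : Fn1 := ⟨_, _, fun h1 => (enc_norm (enc_subr 75023081 6000000000 (enc_scale 509203 300000000 (enc_subr 7 128 h1))))⟩
noncomputable def sw11 : Fn1 := ⟨_, _, fun h1 => (enc_norm (enc_subr 6946583 2000000 (enc_scale 47149 100000 (enc_subr 7 128 h1))))⟩
noncomputable def sl12 : Fn1 := ⟨_, _, fun h1 => (enc_norm (enc_subr 265263 312500 (enc_scale 40391 1000000 (enc_subr 7 128 h1))))⟩
noncomputable def sv12 : Fn1 := ⟨_, _, fun h1 => (enc_norm (enc_sub (enc_rat _ 25455269 400000000) (enc_scale 446023 80000000 (enc_subr 7 128 h1))))⟩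
noncomputable def sw12 : Fn1 := ⟨_, _, fun h1 => (enc_norm (enc_subr 89201 1000000 (enc_scale 29651 200000 (enc_subr 7 128 h1))))⟩
noncomputable def sl13 : Fn1 := ⟨_, _, fun h1 => (enc_norm (enc_subr 1759127 2000000 (enc_scale 195957 1000000 (enc_subr 7 128 h1))))⟩
noncomputable def sv13 : Fn1 := ⟨_, _, fun h1 => (enc_norm (enc_sub (enc_rat _ 53982743 800000000) (enc_scale 2001693 80000000 (enc_subr 7 128 h1))))⟩
noncomputable def sw13 : Fn1 := ⟨_, _, fun h1 => (enc_norm (enc_subr 11103 400000 (enc_neg (enc_scale 1303 8000 (enc_subr 7 128 h1)))))⟩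
noncomputable def sl14 : Fn1 := ⟨_, _, fun h1 => (enc_norm (enc_subr 133994137 150000000 (enc_scale 3894541 7500000 (enc_subr 7 128 h1))))⟩
noncomputable def sv14 : Fn1 := ⟨_, _, fun h1 => (enc_norm (enc_sub (enc_rat _ 104821937 1500000000) (enc_scale 97921391 1200000000 (enc_subr 7 128 h1))))⟩
noncomputable def sw14 : Fn1 := ⟨_, _, fun h1 => (enc_norm (enc_subr 4071 500000 (enc_neg (enc_scale 124951 200000 (enc_subr 7 128 h1)))))⟩
noncomputable def sl15 : Fn1 := ⟨_, _, fun h1 => (enc_norm (enc_subr 26020167652537 28340200000000 (enc_scale 503008172277 404860000000 (enc_subr 7 128 h1))))⟩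
noncomputable def sv15 : Fn1 := ⟨_, _, fun h1 => (enc_norm (enc_sub (enc_rat _ 4249549406793 56680400000000) (enc_scale 186112613337 809720000000 (enc_subr 7 128 h1))))⟩
noncomputable def sw15 : Fn1 := ⟨_, _, fun h1 => (enc_norm (enc_sub (enc_rat _ 44307 2000000) (enc_scale 301329 200000 (enc_subr 7 128 h1))))⟩
noncomputable def sl16 : Fn1 := ⟨_, _, fun h1 => (enc_norm (enc_subr 1129085626327 1171800000000 (enc_scale 38046251977 16740000000 (enc_subr 7 128 h1))))⟩
noncomputable def sv16 : Fn1 := ⟨_, _, fun h1 => (enc_norm (enc_sub (enc_rat _ 199127798699 2343600000000) (enc_scale 3057206113 6696000000 (enc_subr 7 128 h1))))⟩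
noncomputable def sw16 : Fn1 := ⟨_, _, fun h1 => (enc_norm (enc_sub (enc_rat _ 147493 2000000) (enc_scale 535451 200000 (enc_subr 7 128 h1))))⟩
noncomputable def sl17 : Fn1 := ⟨_, _, fun h1 => (enc_norm (enc_subr 3130531094141 3187326000000 (enc_scale 22207503879261 5312210000000 (enc_subr 7 128 h1))))⟩
noncomputable def sv17 : Fn1 := ⟨_, _, fun h1 => (enc_norm (enc_sub (enc_rat _ 14223784609987 159366300000000) (enc_scale 4756231759291 5312210000000 (enc_subr 7 128 h1))))⟩
noncomputable def sw17 : Fn1 := ⟨_, _, fun h1 => (enc_norm (enc_sub (enc_rat _ 47 500) (enc_scale 950167 200000 (enc_subr 7 128 h1))))⟩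
noncomputable def sl18 : Fn1 := ⟨_, _, fun h1 => (enc_norm (enc_subr 248645697020593 258398100000000 (enc_scale 83356143199453 17226540000000 (enc_subr 7 128 h1))))⟩
noncomputable def sv18 : Fn1 := ⟨_, _, fun h1 => (enc_norm (enc_sub (enc_rat _ 10917967076249 129199050000000) (enc_scale 18126058681651 17226540000000 (enc_subr 7 128 h1))))⟩
noncomputable def sw18 : Fn1 := ⟨_, _, fun h1 => (enc_norm (enc_sub (enc_rat _ 73097 1000000) (enc_scale 1088311 200000 (enc_subr 7 128 h1))))⟩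
noncomputable def sl19 : Fn1 := ⟨_, _, fun h1 => (enc_norm (enc_subr 22909801 25000000 (enc_scale 27405257 20000000 (enc_subr 7 128 h1))))⟩
noncomputable def sv19 : Fn1 := ⟨_, _, fun h1 => (enc_norm (enc_sub (enc_rat _ 29307 400000) (enc_scale 8096763 40000000 (enc_subr 7 128 h1))))⟩
noncomputable def sw19 : Fn1 := ⟨_, _, fun h1 => (enc_norm (enc_sub (enc_rat _ 3287 125000) (enc_scale 380443 200000 (enc_subr 7 128 h1))))⟩
noncomputable def sl38 : Fn1 := ⟨_, _, fun h1 => (enc_norm (enc_add (enc_scale 419880645923 105000000000 (enc_subr 7 128 h1)) (enc_rat _ 13790384169 140000000000)))⟩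
noncomputable def sv38 : Fn1 := ⟨_, _, fun h1 => (enc_norm (enc_add (enc_scale 230078477423 210000000000 (enc_subr 7 128 h1)) (enc_rat _ 8623078669 280000000000)))⟩
noncomputable def sw38 : Fn1 := ⟨_, _, fun h1 => (enc_norm (enc_add (enc_scale 18076397 5000000 (enc_subr 7 128 h1)) (enc_rat _ 1476373 20000000)))⟩
noncomputable def sl39_2 : Fn1 := ⟨_, _, fun h1 => (enc_subr 7 128 h1)⟩
noncomputable def sl39 : Fn1 := ⟨_, _, fun h1 => (enc_norm (enc_sub (enc_subr 129103444866099447 467835100000000000 (enc_neg (enc_scale 517346059933708457 23391755000000000 (sl39_2.enc h1)))) (enc_scale 1883721 8432500 (enc_sq (enc_norm (sl39_2.enc h1))))))⟩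
noncomputable def sv39_2 : Fn1 := ⟨_, _, fun h1 => (enc_subr 7 128 h1)⟩
noncomputable def sv39 : Fn1 := ⟨_, _, fun h1 => (enc_norm (enc_sub (enc_subr 220393015311373353 3742680800000000000 (enc_neg (enc_scale 965431301296726943 187134040000000000 (sv39_2.enc h1)))) (enc_scale 902302359 8432500000 (enc_sq (enc_norm (sv39_2.enc h1))))))⟩
noncomputable def sw39 : Fn1 := ⟨_, _, fun h1 => (enc_norm (enc_subr 7926567 25000000 (enc_neg (enc_scale 29556427 1250000 (enc_subr 7 128 h1)))))⟩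
noncomputable def sl41_2 : Fn1 := ⟨_, _, fun h1 => (enc_subr 7 128 h1)⟩
noncomputable def sl41 : Fn1 := ⟨_, _, fun h1 => (enc_norm (enc_add (enc_sub (enc_rat _ 452865178480101 283402000000000) (enc_scale 2092113493748949 141701000000000 (sl41_2.enc h1))) (enc_scale 251247 4081250 (enc_sq (enc_norm (sl41_2.enc h1))))))⟩
noncomputable def sv41_2 : Fn1 := ⟨_, _, fun h1 => (enc_subr 7 128 h1)⟩
noncomputable def sv41 : Fn1 := ⟨_, _, fun h1 => (enc_norm (enc_add (enc_sub (enc_rat _ 204896803515843 566804000000000) (enc_scale 447465218578991 141701000000000 (sv41_2.enc h1))) (enc_scale 10301127 408125000 (enc_sq (enc_norm (sv41_2.enc h1))))))⟩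
noncomputable def sw41 : Fn1 := ⟨_, _, fun h1 => (enc_norm (enc_sub (enc_rat _ 35468811 20000000) (enc_scale 171200989 10000000 (enc_subr 7 128 h1))))⟩
noncomputable def sl42 : Fn1 := ⟨_, _, fun h1 => (enc_norm (enc_add (enc_scale 6794379269 1000000000 (enc_subr 7 128 h1)) (enc_rat _ 3630777199 10000000000)))⟩
noncomputable def sv42 : Fn1 := ⟨_, _, fun h1 => (enc_norm (enc_add (enc_scale 31542826393 25000000000 (enc_subr 7 128 h1)) (enc_rat _ 27086015103 250000000000)))⟩
noncomputable def sw42 : Fn1 := ⟨_, _, fun h1 => (enc_norm (enc_add (enc_scale 91709497 10000000 (enc_subr 7 128 h1)) (enc_rat _ 26748587 100000000)))⟩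
noncomputable def sl43 : Fn1 := ⟨_, _, fun h1 => (enc_norm (enc_add (enc_scale 4732231 5000000 (enc_subr 7 128 h1)) (enc_rat _ 10213823 60000000)))⟩
noncomputable def sv43 : Fn1 := ⟨_, _, fun h1 => (enc_norm (enc_add (enc_scale 5227129 25000000 (enc_subr 7 128 h1)) (enc_rat _ 460197 6250000)))⟩
noncomputable def sw43 : Fn1 := ⟨_, _, fun h1 => (enc_norm (enc_subr 143 400000 (enc_scale 52441 50000 (enc_subr 7 128 h1))))⟩
noncomputable def sl44 : Fn1 := ⟨_, _, fun h1 => (enc_norm (enc_add (enc_scale 4908257 10000000 (enc_subr 7 128 h1)) (enc_rat _ 23538241 150000000)))⟩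
noncomputable def sv44 : Fn1 := ⟨_, _, fun h1 => (enc_norm (enc_add (enc_scale 7037093 50000000 (enc_subr 7 128 h1)) (enc_rat _ 35817611 500000000)))⟩
noncomputable def sw44 : Fn1 := ⟨_, _, fun h1 => (enc_norm (enc_subr 22539 1000000 (enc_scale 57891 200000 (enc_subr 7 128 h1))))⟩
noncomputable def sl45 : Fn1 := ⟨_, _, fun h1 => (enc_norm (enc_add (enc_scale 839017 6000000 (enc_subr 7 128 h1)) (enc_rat _ 8971481 75000000)))⟩
noncomputable def sv45 : Fn1 := ⟨_, _, fun h1 => (enc_norm (enc_add (enc_scale 4931161 50000000 (enc_subr 7 128 h1)) (enc_rat _ 167897467 2500000000)))⟩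
noncomputable def sw45 : Fn1 := ⟨_, _, fun h1 => (enc_norm (enc_subr 100251 1000000 (enc_neg (enc_scale 17671 40000 (enc_subr 7 128 h1)))))⟩
noncomputable def sl46 : Fn1 := ⟨_, _, fun h1 => (enc_norm (enc_sub (enc_rat _ 3648209 60000000) (enc_scale 9743 100000 (enc_subr 7 128 h1))))⟩
noncomputable def sv46 : Fn1 := ⟨_, _, fun h1 => (enc_norm (enc_add (enc_scale 3863467 50000000 (enc_subr 7 128 h1)) (enc_rat _ 154663807 2500000000)))⟩
noncomputable def sw46 : Fn1 := ⟨_, _, fun h1 => (enc_norm (enc_subr 527259 2000000 (enc_neg (enc_scale 22017 20000 (enc_subr 7 128 h1)))))⟩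
noncomputable def sl47 : Fn1 := ⟨_, _, fun h1 => (enc_norm (enc_sub (enc_rat _ 2984159 75000000) (enc_scale 1077389 5000000 (enc_subr 7 128 h1))))⟩
noncomputable def sv47 : Fn1 := ⟨_, _, fun h1 => (enc_norm (enc_add (enc_scale 17546597 250000000 (enc_subr 7 128 h1)) (enc_rat _ 37877903 625000000)))⟩
noncomputable def sw47 : Fn1 := ⟨_, _, fun h1 => (enc_norm (enc_subr 351191 1000000 (enc_neg (enc_scale 159271 100000 (enc_subr 7 128 h1)))))⟩
noncomputable def sl48 : Fn1 := ⟨_, _, fun h1 => (enc_norm (enc_subr 5879 3000000 (enc_neg (enc_scale 2469 80000 (enc_subr 7 128 h1)))))⟩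
noncomputable def sv48 : Fn1 := ⟨_, _, fun h1 => (enc_norm (enc_add (enc_scale 18931217 250000000 (enc_subr 7 128 h1)) (enc_rat _ 296760951 5000000000)))⟩
noncomputable def sw48 : Fn1 := ⟨_, _, fun h1 => (enc_norm (enc_subr 1398189 2000000 (enc_neg (enc_scale 10851 200000 (enc_subr 7 128 h1)))))⟩
noncomputable def sl49 : Fn1 := ⟨_, _, fun h1 => (enc_norm (enc_subr 238589 12000000 (enc_neg (enc_scale 1222627 7500000 (enc_subr 7 128 h1)))))⟩
noncomputable def sv49 : Fn1 := ⟨_, _, fun h1 => (enc_norm (enc_add (enc_scale 9961193 125000000 (enc_subr 7 128 h1)) (enc_rat _ 5988987 100000000)))⟩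
noncomputable def sw49 : Fn1 := ⟨_, _, fun h1 => (enc_norm (enc_subr 43979 80000 (enc_scale 52351 50000 (enc_subr 7 128 h1))))⟩
noncomputable def sl50 : Fn1 := ⟨_, _, fun h1 => (enc_norm (enc_subr 1874323 15000000 (enc_neg (enc_scale 8671 750000 (enc_subr 7 128 h1)))))⟩
noncomputable def sv50 : Fn1 := ⟨_, _, fun h1 => (enc_norm (enc_add (enc_scale 8825267 125000000 (enc_subr 7 128 h1)) (enc_rat _ 41371389 625000000)))⟩
noncomputable def sw50 : Fn1 := ⟨_, _, fun h1 => (enc_norm (enc_subr 1749 15625 (enc_scale 10399 25000 (enc_subr 7 128 h1))))⟩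
noncomputable def sl51 : Fn1 := ⟨_, _, fun h1 => (enc_norm (enc_subr 7660151 50000000 (enc_scale 7828489 30000000 (enc_subr 7 128 h1))))⟩
noncomputable def sv51 : Fn1 := ⟨_, _, fun h1 => (enc_norm (enc_add (enc_scale 5759519 125000000 (enc_subr 7 128 h1)) (enc_rat _ 85920699 1250000000)))⟩
noncomputable def sw51 : Fn1 := ⟨_, _, fun h1 => (enc_norm (enc_subr 33469 1000000 (enc_neg (enc_scale 68203 200000 (enc_subr 7 128 h1)))))⟩
noncomputable def sl52 : Fn1 := ⟨_, _, fun h1 => (enc_norm (enc_subr 3228427 20000000 (enc_scale 11373487 15000000 (enc_subr 7 128 h1))))⟩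
noncomputable def sv52 : Fn1 := ⟨_, _, fun h1 => (enc_norm (enc_sub (enc_rat _ 1743069 25000000) (enc_scale 169973 12500000 (enc_subr 7 128 h1))))⟩
noncomputable def sw52 : Fn1 := ⟨_, _, fun h1 => (enc_norm (enc_subr 6539 400000 (enc_neg (enc_scale 68851 50000 (enc_subr 7 128 h1)))))⟩
noncomputable def sl53 : Fn1 := ⟨_, _, fun h1 => (enc_norm (enc_subr 16924159 100000000 (enc_scale 17562211 10000000 (enc_subr 7 128 h1))))⟩
noncomputable def sv53 : Fn1 := ⟨_, _, fun h1 => (enc_norm (enc_sub (enc_rat _ 17723943 250000000) (enc_scale 2041201 12500000 (enc_subr 7 128 h1))))⟩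
noncomputable def sw53 : Fn1 := ⟨_, _, fun h1 => (enc_norm (enc_subr 6627 2000000 (enc_neg (enc_scale 608067 200000 (enc_subr 7 128 h1)))))⟩
noncomputable def sl54 : Fn1 := ⟨_, _, fun h1 => (enc_norm (enc_subr 584236031 700000000 (enc_scale 15044509 14000000 (enc_subr 7 128 h1))))⟩
noncomputable def sv54 : Fn1 := ⟨_, _, fun h1 => (enc_norm (enc_sub (enc_rat _ 1668313809 8750000000) (enc_scale 7105991 175000000 (enc_subr 7 128 h1))))⟩
noncomputable def sw54 : Fn1 := ⟨_, _, fun h1 => (enc_norm (enc_sub (enc_rat _ 920827 1000000) (enc_scale 41873 20000 (enc_subr 7 128 h1))))⟩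
noncomputable def sl55 : Fn1 := ⟨_, _, fun h1 => (enc_norm (enc_subr 2937937 14000000 (enc_neg (enc_scale 505961797 140000000 (enc_subr 7 128 h1)))))⟩
noncomputable def sv55 : Fn1 := ⟨_, _, fun h1 => (enc_norm (enc_add (enc_scale 270885347 280000000 (enc_subr 7 128 h1)) (enc_rat _ 1577487 28000000)))⟩
noncomputable def sw55 : Fn1 := ⟨_, _, fun h1 => (enc_norm (enc_add (enc_scale 671647 200000 (enc_subr 7 128 h1)) (enc_rat _ 3887 20000)))⟩
noncomputable def skf0 : Fn2 := ⟨_, _, fun h1 h2 => (enc_norm (enc_add (bf1q0.enc h1 h2) (enc_mul (enc_norm (enc_sub (enc_mul (c1g.enc h1) (bf1q0.enc h1 h2)) (kf0q0.enc h1 h2))) (enc_inv (enc_sub (cv1m.enc h1) (c1g.enc h1))))))⟩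
noncomputable def sxf0 : Fn2 := ⟨_, _, fun h1 h2 => (enc_norm (enc_mul (enc_norm (enc_sub (l1q0.enc h1 h2) (l0q0.enc h1 h2))) (enc_inv (enc_sub (cv1m.enc h1) (c1g.enc h1)))))⟩
noncomputable def skl0 : Fn2 := ⟨_, _, fun h1 h2 => (enc_norm (enc_add (bf3q0.enc h1 h2) (enc_mul (enc_norm (enc_sub (kf4q0.enc h1 h2) (enc_mul (c3g.enc h1) (bf3q0.enc h1 h2)))) (enc_inv (enc_sub (c3g.enc h1) (cv3m.enc h1))))))⟩
noncomputable def sxl0 : Fn2 := ⟨_, _, fun h1 h2 => (enc_norm (enc_mul (enc_norm (enc_sub (l4q0.enc h1 h2) (l3q0.enc h1 h2))) (enc_inv (enc_sub (c3g.enc h1) (cv3m.enc h1)))))⟩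
noncomputable def skf1 : Fn2 := ⟨_, _, fun h1 h2 => (enc_norm (enc_add (bf1q1.enc h1 h2) (enc_mul (enc_norm (enc_sub (enc_mul (c1g.enc h1) (bf1q1.enc h1 h2)) (kf0q1.enc h1 h2))) (enc_inv (enc_sub (cv1m.enc h1) (c1g.enc h1))))))⟩
noncomputable def sxf1 : Fn2 := ⟨_, _, fun h1 h2 => (enc_norm (enc_mul (enc_norm (enc_sub (l1q1.enc h1 h2) (l0q1.enc h1 h2))) (enc_inv (enc_sub (cv1m.enc h1) (c1g.enc h1)))))⟩
noncomputable def skl1 : Fn2 := ⟨_, _, fun h1 h2 => (enc_norm (enc_add (bf3q1.enc h1 h2) (enc_mul (enc_norm (enc_sub (kf4q1.enc h1 h2) (enc_mul (c3g.enc h1) (bf3q1.enc h1 h2)))) (enc_inv (enc_sub (c3g.enc h1) (cv3m.enc h1))))))⟩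
noncomputable def sxl1 : Fn2 := ⟨_, _, fun h1 h2 => (enc_norm (enc_mul (enc_norm (enc_sub (l4q1.enc h1 h2) (l3q1.enc h1 h2))) (enc_inv (enc_sub (c3g.enc h1) (cv3m.enc h1)))))⟩
noncomputable def skf2 : Fn2 := ⟨_, _, fun h1 h2 => (enc_norm (enc_add (bf1q2.enc h1 h2) (enc_mul (enc_norm (enc_add (enc_mul (c1g.enc h1) (enc_norm (enc_subn 1 (bf1q2.enc h1 h2)))) (enc_mul (enc_norm (enc_subn 1 h1)) (kcg.enc (c1g.enc h1) h2)))) (enc_inv (enc_sub (cv1p.enc h1) (c1g.enc h1))))))⟩
noncomputable def sxf2 : Fn2 := ⟨_, _, fun h1 h2 => (enc_norm (enc_mul (enc_norm (enc_sub (l1q2.enc h1 h2) (l0q2.enc h1 h2))) (enc_inv (enc_sub (cv1p.enc h1) (c1g.enc h1)))))⟩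
noncomputable def skl2 : Fn2 := ⟨_, _, fun h1 h2 => (enc_norm (enc_add (bf3q2.enc h1 h2) (enc_mul (enc_norm (enc_sub (kf4q2.enc h1 h2) (enc_mul (c3g.enc h1) (bf3q2.enc h1 h2)))) (enc_inv (enc_sub (c3g.enc h1) (cv3p.enc h1))))))⟩
noncomputable def sxl2 : Fn2 := ⟨_, _, fun h1 h2 => (enc_norm (enc_mul (enc_norm (enc_sub (l4q2.enc h1 h2) (l3q2.enc h1 h2))) (enc_inv (enc_sub (c3g.enc h1) (cv3p.enc h1)))))⟩
noncomputable def skl3 : Fn2 := ⟨_, _, fun h1 h2 => (enc_norm (enc_add (bf3q3.enc h1 h2) (enc_mul (enc_norm (enc_sub (kf4q3.enc h1 h2) (enc_mul (c3g.enc h1) (bf3q3.enc h1 h2)))) (enc_inv (enc_sub (c3g.enc h1) (cv3r.enc h1))))))⟩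
noncomputable def sxl3 : Fn2 := ⟨_, _, fun h1 h2 => (enc_norm (enc_mul (enc_norm (enc_sub (l4q3.enc h1 h2) (l3q3.enc h1 h2))) (enc_inv (enc_sub (c3g.enc h1) (cv3r.enc h1)))))⟩
noncomputable def rhk : Fn2 := ⟨_, _, fun h1 h2 => (enc_norm (enc_mul (enc_norm (enc_sub (bf1q2.enc h1 h2) (n0b.enc h1 h2))) (enc_norm (enc_mul (cv1p.enc h1) (enc_inv (enc_sub (cv1p.enc h1) (c1g.enc h1)))))))⟩
noncomputable def rhx : Fn2 := ⟨_, _, fun h1 h2 => (enc_norm (enc_mul (enc_norm (enc_sub (bx1q2.enc h1 h2) (n0x.enc h1 h2))) (enc_norm (enc_mul (cv1p.enc h1) (enc_inv (enc_sub (cv1p.enc h1) (c1g.enc h1)))))))⟩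
noncomputable def sbk : Fn1 := ⟨_, _, fun h1 => (enc_norm (enc_subr 1 2900000 (enc_neg (enc_scale 2153 145000 (enc_subr 7 128 h1)))))⟩
noncomputable def sbx : Fn1 := ⟨_, _, fun h1 => (enc_norm (enc_sub (enc_rat _ 1 870000) (enc_scale 193 72500 (enc_subr 7 128 h1))))⟩
noncomputable def k0c : Fn1 := ⟨_, _, fun h1 => (enc_neg (enc_rat _ 500819 2000000))⟩
noncomputable def m0c : Fn1 := ⟨_, _, fun h1 => (enc_norm (enc_add (enc_scale 2469 40000 (enc_subr 7 128 h1)) (enc_rat _ 5879 1500000)))⟩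
noncomputable def sl73 : Fn1 := ⟨_, _, fun h1 => (enc_norm (enc_sub (enc_rat _ 1483197 50000000) (enc_scale 1156277 2500000 (enc_subr 7 128 h1))))⟩
noncomputable def sv73 : Fn1 := ⟨_, _, fun h1 => (enc_norm (enc_sub (enc_rat _ 3943931 2500000000) (enc_scale 13136767 250000000 (enc_subr 7 128 h1))))⟩
noncomputable def sw73 : Fn1 := ⟨_, _, fun h1 => (enc_norm (enc_add (enc_scale 2519 25000 (enc_subr 7 128 h1)) (enc_rat _ 33391 500000)))⟩
noncomputable def sl74 : Fn1 := ⟨_, _, fun h1 => (enc_norm (enc_add (enc_scale 141799 3000000 (enc_subr 7 128 h1)) (enc_rat _ 1204641 20000000)))⟩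
noncomputable def sv74 : Fn1 := ⟨_, _, fun h1 => (enc_norm (enc_sub (enc_rat _ 10821749 2500000000) (enc_scale 1666801 250000000 (enc_subr 7 128 h1))))⟩
noncomputable def sw74 : Fn1 := ⟨_, _, fun h1 => (enc_norm (enc_add (enc_scale 151681 100000 (enc_subr 7 128 h1)) (enc_rat _ 303387 2000000)))⟩
noncomputable def sl75 : Fn1 := ⟨_, _, fun h1 => (enc_norm (enc_subr 7147711 300000000 (enc_scale 2375773 7500000 (enc_subr 7 128 h1))))⟩
noncomputable def sv75 : Fn1 := ⟨_, _, fun h1 => (enc_norm (enc_subr 1786937 2500000000 (enc_scale 2375789 250000000 (enc_subr 7 128 h1))))⟩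
noncomputable def sw75 : Fn1 := ⟨_, _, fun h1 => (enc_norm (enc_subr 397093 2000000 (enc_scale 263973 100000 (enc_subr 7 128 h1))))⟩
noncomputable def sl76 : Fn1 := ⟨_, _, fun h1 => (enc_pnc _ 0)⟩
noncomputable def sv76 : Fn1 := ⟨_, _, fun h1 => (enc_pnc _ 0)⟩
noncomputable def sl77 : Fn1 := ⟨_, _, fun h1 => (enc_norm (enc_subr 7147711 300000000 (enc_scale 2375773 7500000 (enc_subr 7 128 h1))))⟩
noncomputable def sv77 : Fn1 := ⟨_, _, fun h1 => (enc_norm (enc_sub (enc_rat _ 1786937 2500000000) (enc_scale 2375789 250000000 (enc_subr 7 128 h1))))⟩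
noncomputable def sw77 : Fn1 := ⟨_, _, fun h1 => (enc_norm (enc_sub (enc_rat _ 397093 2000000) (enc_scale 263973 100000 (enc_subr 7 128 h1))))⟩
noncomputable def sl78 : Fn1 := ⟨_, _, fun h1 => (enc_norm (enc_add (enc_scale 141799 3000000 (enc_subr 7 128 h1)) (enc_rat _ 1204641 20000000)))⟩
noncomputable def sv78 : Fn1 := ⟨_, _, fun h1 => (enc_norm (enc_subr 10821749 2500000000 (enc_scale 1666801 250000000 (enc_subr 7 128 h1))))⟩
noncomputable def sw78 : Fn1 := ⟨_, _, fun h1 => (enc_norm (enc_subr 303387 2000000 (enc_neg (enc_scale 151681 100000 (enc_subr 7 128 h1)))))⟩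
noncomputable def sl79 : Fn1 := ⟨_, _, fun h1 => (enc_norm (enc_sub (enc_rat _ 1483197 50000000) (enc_scale 1156277 2500000 (enc_subr 7 128 h1))))⟩
noncomputable def sv79 : Fn1 := ⟨_, _, fun h1 => (enc_norm (enc_subr 3943931 2500000000 (enc_scale 13136767 250000000 (enc_subr 7 128 h1))))⟩
noncomputable def sw79 : Fn1 := ⟨_, _, fun h1 => (enc_norm (enc_subr 33391 500000 (enc_neg (enc_scale 2519 25000 (enc_subr 7 128 h1)))))⟩
noncomputable def kqf : Fn2 := ⟨_, _, fun h1 h2 => (enc_norm (enc_mul (enc_norm (enc_subn 1 h1)) (enc_norm (enc_case (enc_subr 3 50 (c1g.enc h1)) (enc_neg (enc_rat _ 500819 2000000)) (enc_mul (kcg.enc (c1g.enc h1) h2) (enc_inv (c1g.enc h1)))))))⟩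
noncomputable def skm : Fn2 := ⟨_, _, fun h1 h2 => (enc_norm (enc_sub (enc_mul (enc_norm (enc_mul (cv1p.enc h1) (enc_inv (enc_sub (cv1p.enc h1) (c1g.enc h1))))) (enc_norm (enc_add (enc_subn 1 (bf1q2.enc h1 h2)) (kqf.enc h1 h2)))) (kqf.enc h1 h2)))⟩
noncomputable def dt1 : DT := .quad sw1 sl1 sv1
noncomputable def dt2 : DT := .quad sw2 sl2 sv2
noncomputable def dt3 : DT := .quad sw3 sl3 sv3
noncomputable def dt4 : DT := .quad sw4 sl4 sv4
noncomputable def dt5 : DT := .quad sw5 sl5 sv5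
noncomputable def dt6 : DT := .quad sw6 sl6 sv6
noncomputable def dt7 : DT := .quad sw7 sl7 sv7
noncomputable def dt8 : DT := .quad sw8 sl8 sv8
noncomputable def dt9 : DT := .quad sw9 sl9 sv9
noncomputable def dt10 : DT := .lin sl10 sv10
noncomputable def dt11 : DT := .quad sw11 sl11 sv11
noncomputable def dt12 : DT := .quad sw12 sl12 sv12
noncomputable def dt13 : DT := .quad sw13 sl13 sv13
noncomputable def dt14 : DT := .quad sw14 sl14 sv14
noncomputable def dt15 : DT := .quad sw15 sl15 sv15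
noncomputable def dt16 : DT := .quad sw16 sl16 sv16
noncomputable def dt17 : DT := .quad sw17 sl17 sv17
noncomputable def dt18 : DT := .quad sw18 sl18 sv18
noncomputable def dt19 : DT := .quad sw19 sl19 sv19
noncomputable def dt20 : DT := .node ((Cn.rt 49 100).ng) dt1 dt2
noncomputable def dt21 : DT := .node ((Cn.rt 23 50).ng) dt3 dt4
noncomputable def dt22 : DT := .node ((Cn.rt 661 1387).ng) dt20 dt21
noncomputable def dt23 : DT := .node ((Cn.rt 41 100).ng) dt5 dt6
noncomputable def dt24 : DT := .node ((Cn.rt 3 20).ng) dt8 dt9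
noncomputable def dt25 : DT := .node ((Cn.rt 1 4).ng) dt7 dt24
noncomputable def dt26 : DT := .node ((Cn.rt 7 20).ng) dt23 dt25
noncomputable def dt27 : DT := .node ((Cn.rt 191 434).ng) dt22 dt26
noncomputable def dt28 : DT := .node (Cn.rt 3 50) dt10 dt11
noncomputable def dt29 : DT := .node (Cn.rt 7 20) dt13 dt14
noncomputable def dt30 : DT := .node (Cn.rt 1 4) dt12 dt29
noncomputable def dt31 : DT := .node (Cn.rt 3 20) dt28 dt30
noncomputable def dt32 : DT := .node (Cn.rt 191 434) dt15 dt16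
noncomputable def dt33 : DT := .node (Cn.rt 49 100) dt18 dt19
noncomputable def dt34 : DT := .node (Cn.rt 661 1387) dt17 dt33
noncomputable def dt35 : DT := .node (Cn.rt 23 50) dt32 dt34
noncomputable def dt36 : DT := .node (Cn.rt 41 100) dt31 dt35
noncomputable def dt37 : DT := .node ((Cn.rt 3 50).ng) dt27 dt36
noncomputable def dt38 : DT := .quad sw38 sl38 sv38
noncomputable def dt39 : DT := .quad sw39 sl39 sv39
noncomputable def dt40 : DT := .clo
noncomputable def dt41 : DT := .quad sw41 sl41 sv41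
noncomputable def dt42 : DT := .quad sw42 sl42 sv42
noncomputable def dt43 : DT := .quad sw43 sl43 sv43
noncomputable def dt44 : DT := .quad sw44 sl44 sv44
noncomputable def dt45 : DT := .quad sw45 sl45 sv45
noncomputable def dt46 : DT := .quad sw46 sl46 sv46
noncomputable def dt47 : DT := .quad sw47 sl47 sv47
noncomputable def dt48 : DT := .quad sw48 sl48 sv48
noncomputable def dt49 : DT := .quad sw49 sl49 sv49
noncomputable def dt50 : DT := .quad sw50 sl50 sv50
noncomputable def dt51 : DT := .quad sw51 sl51 sv51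
noncomputable def dt52 : DT := .quad sw52 sl52 sv52
noncomputable def dt53 : DT := .quad sw53 sl53 sv53
noncomputable def dt54 : DT := .quad sw54 sl54 sv54
noncomputable def dt55 : DT := .quad sw55 sl55 sv55
noncomputable def dt56 : DT := .node ((Cn.rt 479 1000).ng) dt38 dt39
noncomputable def dt57 : DT := .node ((Cn.rt 191 434).ng) dt40 dt41
noncomputable def dt58 : DT := .node ((Cn.rt 661 1387).ng) dt56 dt57
noncomputable def dt59 : DT := .node ((Cn.rt 9 25).ng) dt42 dt43
noncomputable def dt60 : DT := .node ((Cn.rt 9 50).ng) dt45 dt46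
noncomputable def dt61 : DT := .node ((Cn.rt 6 25).ng) dt44 dt60
noncomputable def dt62 : DT := .node ((Cn.rt 3 10).ng) dt59 dt61
noncomputable def dt63 : DT := .node ((Cn.rt 41 100).ng) dt58 dt62
noncomputable def dt64 : DT := .node ((Cn.rt 3 50).ng) dt47 dt48
noncomputable def dt65 : DT := .node (Cn.rt 3 25) dt49 dt50
noncomputable def dt66 : DT := .node (Cn.rt 3 50) dt64 dt65
noncomputable def dt67 : DT := .node (Cn.rt 6 25) dt51 dt52
noncomputable def dt68 : DT := .node (Cn.rt 43 100) dt54 dt55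
noncomputable def dt69 : DT := .node (Cn.rt 9 25) dt53 dt68
noncomputable def dt70 : DT := .node (Cn.rt 3 10) dt67 dt69
noncomputable def dt71 : DT := .node (Cn.rt 9 50) dt66 dt70
noncomputable def dt72 : DT := .node ((Cn.rt 3 25).ng) dt63 dt71
noncomputable def dt73 : DT := .quad sw73 sl73 sv73
noncomputable def dt74 : DT := .quad sw74 sl74 sv74
noncomputable def dt75 : DT := .quad sw75 sl75 sv75
noncomputable def dt76 : DT := .lin sl76 sv76
noncomputable def dt77 : DT := .quad sw77 sl77 sv77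
noncomputable def dt78 : DT := .quad sw78 sl78 sv78
noncomputable def dt79 : DT := .quad sw79 sl79 sv79
noncomputable def dt80 : DT := .node ((Cn.rt 3 25).ng) dt74 dt75
noncomputable def dt81 : DT := .node ((Cn.rt 9 50).ng) dt73 dt80
noncomputable def dt82 : DT := .node (Cn.rt 3 50) dt76 dt77
noncomputable def dt83 : DT := .node (Cn.rt 9 50) dt78 dt79
noncomputable def dt84 : DT := .node (Cn.rt 3 25) dt82 dt83
noncomputable def dt85 : DT := .node ((Cn.rt 3 50).ng) dt81 dt84
noncomputable def dd : SDat := ⟨dt37, kcg, dt72, Kh.S⟩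
noncomputable def gf0 : Sg := ⟨cv1m, skf0, sxf0⟩
noncomputable def gf1 : Sg := ⟨cv1m, skf1, sxf1⟩
noncomputable def gf2 : Sg := ⟨cv1p, skf2, sxf2⟩
noncomputable def gf3 : Sg := ⟨cv1r, skf2, sxf2⟩
noncomputable def gl0 : Sg := ⟨cv3m, skl0, sxl0⟩
noncomputable def gl1 : Sg := ⟨cv3m, skl1, sxl1⟩
noncomputable def gl2 : Sg := ⟨cv3p, skl2, sxl2⟩
noncomputable def gl3 : Sg := ⟨cv3r, skl3, sxl3⟩
noncomputable def vv : Vt := ⟨(Cn.rt 3 50), (Cn.rt 577 500), (Cn.rt 231 200), (Cn.rt 13 10), k0c, m0c, sbk, sbx, rhk, rhx, bf1q2, bx1q2, (Cn.rt 6 25), (Cn.rt 577 500), skm, dt85⟩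
noncomputable def ff (q : ℕ) : Sg := match q with
  | 0 => gf0
  | 1 => gf1
  | 2 => gf2
  | _ => gf3
noncomputable def fl (q : ℕ) : Sg := match q with
  | 0 => gl0
  | 1 => gl1
  | 2 => gl2
  | _ => gl3
noncomputable def tt : STab 4 := ⟨dd, 0, 3, ff, fl, vv⟩
theorem kcl0 {p x : ℝ} (h1 : -1 / 2 ≤ p) (h2 : p ≤ -49 / 100) : kcg.v p x = (-29307 / 400000 + (x - 7 / 128) * (8096763 / 40000000)) + (-22909801 / 25000000 + (x - 7 / 128) * (27405257 / 20000000)) * p + (-3287 / 125000 + (x - 7 / 128) * (380443 / 200000)) * p ^ 2 := by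
  simp only [kcg, kcg_3, kcg_6, kcg_9, kcg_12, kcg_13, kcg_18, kcg_30, kcg_38, kcg_43, kcg_55, kcg_63, kcg_64, kcg_69, kcg_81, kcg_88, kcg_89, kcg_94, kcg_106, kcg_111, kcg_116, kcg_128, kcg_138, kcg_141, kcg_142, kcg_147, kcg_159, kcg_164, kcg_169, kcg_180, kcg_188, kcg_189, kcg_194, kcg_203, kcg_211, kcg_216, kcg_225, kcg_230, kcg_238, kcg_239, kcg_240, kcg_259, kcg_268, kcg_288, kcg_289, kcg_309]
  rcases eq_or_lt_of_le h1 with h | h1
  · subst h
    ((try push_cast); (repeat first | rw [if_pos (by linarith)] | rw [if_neg (by linarith)] | erw [if_pos (by linarith)] | erw [if_neg (by linarith)]); (try push_cast); (try ring1))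
  rcases eq_or_lt_of_le h2 with h | h2
  · subst h
    ((try push_cast); (repeat first | rw [if_pos (by linarith)] | rw [if_neg (by linarith)] | erw [if_pos (by linarith)] | erw [if_neg (by linarith)]); (try push_cast); (try ring1))
  · ((try push_cast); (repeat first | rw [if_pos (by linarith)] | rw [if_neg (by linarith)] | erw [if_pos (by linarith)] | erw [if_neg (by linarith)]); (try push_cast); (try ring1))
theorem kcl1 {p x : ℝ} (h1 : -49 / 100 ≤ p) (h2 : p ≤ -661 / 1387) : kcg.v p x = (-10917967076249 / 129199050000000 + (x - 7 / 128) * (18126058681651 / 17226540000000)) + (-248645697020593 / 258398100000000 + (x - 7 / 128) * (83356143199453 / 17226540000000)) * p + (-73097 / 1000000 + (x - 7 / 128) * (1088311 / 200000)) * p ^ 2 := by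
  simp only [kcg, kcg_3, kcg_6, kcg_9, kcg_12, kcg_13, kcg_18, kcg_30, kcg_38, kcg_43, kcg_55, kcg_63, kcg_64, kcg_69, kcg_81, kcg_88, kcg_89, kcg_94, kcg_106, kcg_111, kcg_116, kcg_128, kcg_138, kcg_141, kcg_142, kcg_147, kcg_159, kcg_164, kcg_169, kcg_180, kcg_188, kcg_189, kcg_194, kcg_203, kcg_211, kcg_216, kcg_225, kcg_230, kcg_238, kcg_239, kcg_240, kcg_259, kcg_268, kcg_288, kcg_289, kcg_309]
  rcases eq_or_lt_of_le h1 with h | h1
  · subst h
    ((try push_cast); (repeat first | rw [if_pos (by linarith)] | rw [if_neg (by linarith)] | erw [if_pos (by linarith)] | erw [if_neg (by linarith)]); (try push_cast); (try ring1))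
  rcases eq_or_lt_of_le h2 with h | h2
  · subst h
    ((try push_cast); (repeat first | rw [if_pos (by linarith)] | rw [if_neg (by linarith)] | erw [if_pos (by linarith)] | erw [if_neg (by linarith)]); (try push_cast); (try ring1))
  · ((try push_cast); (repeat first | rw [if_pos (by linarith)] | rw [if_neg (by linarith)] | erw [if_pos (by linarith)] | erw [if_neg (by linarith)]); (try push_cast); (try ring1))
theorem kcl2 {p x : ℝ} (h1 : -661 / 1387 ≤ p) (h2 : p ≤ -23 / 50) : kcg.v p x = (-14223784609987 / 159366300000000 + (x - 7 / 128) * (4756231759291 / 5312210000000)) + (-3130531094141 / 3187326000000 + (x - 7 / 128) * (22207503879261 / 5312210000000)) * p + (-47 / 500 + (x - 7 / 128) * (950167 / 200000)) * p ^ 2 := by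
  simp only [kcg, kcg_3, kcg_6, kcg_9, kcg_12, kcg_13, kcg_18, kcg_30, kcg_38, kcg_43, kcg_55, kcg_63, kcg_64, kcg_69, kcg_81, kcg_88, kcg_89, kcg_94, kcg_106, kcg_111, kcg_116, kcg_128, kcg_138, kcg_141, kcg_142, kcg_147, kcg_159, kcg_164, kcg_169, kcg_180, kcg_188, kcg_189, kcg_194, kcg_203, kcg_211, kcg_216, kcg_225, kcg_230, kcg_238, kcg_239, kcg_240, kcg_259, kcg_268, kcg_288, kcg_289, kcg_309]
  rcases eq_or_lt_of_le h1 with h | h1
  · subst h
    ((try push_cast); (repeat first | rw [if_pos (by linarith)] | rw [if_neg (by linarith)] | erw [if_pos (by linarith)] | erw [if_neg (by linarith)]); (try push_cast); (try ring1))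
  rcases eq_or_lt_of_le h2 with h | h2
  · subst h
    ((try push_cast); (repeat first | rw [if_pos (by linarith)] | rw [if_neg (by linarith)] | erw [if_pos (by linarith)] | erw [if_neg (by linarith)]); (try push_cast); (try ring1))
  · ((try push_cast); (repeat first | rw [if_pos (by linarith)] | rw [if_neg (by linarith)] | erw [if_pos (by linarith)] | erw [if_neg (by linarith)]); (try push_cast); (try ring1))
theorem kcl3 {p x : ℝ} (h1 : -23 / 50 ≤ p) (h2 : p ≤ -191 / 434) : kcg.v p x = (-199127798699 / 2343600000000 + (x - 7 / 128) * (3057206113 / 6696000000)) + (-1129085626327 / 1171800000000 + (x - 7 / 128) * (38046251977 / 16740000000)) * p + (-147493 / 2000000 + (x - 7 / 128) * (535451 / 200000)) * p ^ 2 := by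
  simp only [kcg, kcg_3, kcg_6, kcg_9, kcg_12, kcg_13, kcg_18, kcg_30, kcg_38, kcg_43, kcg_55, kcg_63, kcg_64, kcg_69, kcg_81, kcg_88, kcg_89, kcg_94, kcg_106, kcg_111, kcg_116, kcg_128, kcg_138, kcg_141, kcg_142, kcg_147, kcg_159, kcg_164, kcg_169, kcg_180, kcg_188, kcg_189, kcg_194, kcg_203, kcg_211, kcg_216, kcg_225, kcg_230, kcg_238, kcg_239, kcg_240, kcg_259, kcg_268, kcg_288, kcg_289, kcg_309]
  rcases eq_or_lt_of_le h1 with h | h1
  · subst h
    ((try push_cast); (repeat first | rw [if_pos (by linarith)] | rw [if_neg (by linarith)] | erw [if_pos (by linarith)] | erw [if_neg (by linarith)]); (try push_cast); (try ring1))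
  rcases eq_or_lt_of_le h2 with h | h2
  · subst h
    ((try push_cast); (repeat first | rw [if_pos (by linarith)] | rw [if_neg (by linarith)] | erw [if_pos (by linarith)] | erw [if_neg (by linarith)]); (try push_cast); (try ring1))
  · ((try push_cast); (repeat first | rw [if_pos (by linarith)] | rw [if_neg (by linarith)] | erw [if_pos (by linarith)] | erw [if_neg (by linarith)]); (try push_cast); (try ring1))
theorem kcl4 {p x : ℝ} (h1 : -191 / 434 ≤ p) (h2 : p ≤ -41 / 100) : kcg.v p x = (-4249549406793 / 56680400000000 + (x - 7 / 128) * (186112613337 / 809720000000)) + (-26020167652537 / 28340200000000 + (x - 7 / 128) * (503008172277 / 404860000000)) * p + (-44307 / 2000000 + (x - 7 / 128) * (301329 / 200000)) * p ^ 2 := by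
  simp only [kcg, kcg_3, kcg_6, kcg_9, kcg_12, kcg_13, kcg_18, kcg_30, kcg_38, kcg_43, kcg_55, kcg_63, kcg_64, kcg_69, kcg_81, kcg_88, kcg_89, kcg_94, kcg_106, kcg_111, kcg_116, kcg_128, kcg_138, kcg_141, kcg_142, kcg_147, kcg_159, kcg_164, kcg_169, kcg_180, kcg_188, kcg_189, kcg_194, kcg_203, kcg_211, kcg_216, kcg_225, kcg_230, kcg_238, kcg_239, kcg_240, kcg_259, kcg_268, kcg_288, kcg_289, kcg_309]
  rcases eq_or_lt_of_le h1 with h | h1
  · subst h
    ((try push_cast); (repeat first | rw [if_pos (by linarith)] | rw [if_neg (by linarith)] | erw [if_pos (by linarith)] | erw [if_neg (by linarith)]); (try push_cast); (try ring1))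
  rcases eq_or_lt_of_le h2 with h | h2
  · subst h
    ((try push_cast); (repeat first | rw [if_pos (by linarith)] | rw [if_neg (by linarith)] | erw [if_pos (by linarith)] | erw [if_neg (by linarith)]); (try push_cast); (try ring1))
  · ((try push_cast); (repeat first | rw [if_pos (by linarith)] | rw [if_neg (by linarith)] | erw [if_pos (by linarith)] | erw [if_neg (by linarith)]); (try push_cast); (try ring1))
theorem kcl5 {p x : ℝ} (h1 : -41 / 100 ≤ p) (h2 : p ≤ -7 / 20) : kcg.v p x = (-104821937 / 1500000000 + (x - 7 / 128) * (97921391 / 1200000000)) + (-133994137 / 150000000 + (x - 7 / 128) * (3894541 / 7500000)) * p + (4071 / 500000 + (x - 7 / 128) * (124951 / 200000)) * p ^ 2 := by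
  simp only [kcg, kcg_3, kcg_6, kcg_9, kcg_12, kcg_13, kcg_18, kcg_30, kcg_38, kcg_43, kcg_55, kcg_63, kcg_64, kcg_69, kcg_81, kcg_88, kcg_89, kcg_94, kcg_106, kcg_111, kcg_116, kcg_128, kcg_138, kcg_141, kcg_142, kcg_147, kcg_159, kcg_164, kcg_169, kcg_180, kcg_188, kcg_189, kcg_194, kcg_203, kcg_211, kcg_216, kcg_225, kcg_230, kcg_238, kcg_239, kcg_240, kcg_259, kcg_268, kcg_288, kcg_289, kcg_309]
  rcases eq_or_lt_of_le h1 with h | h1
  · subst h
    ((try push_cast); (repeat first | rw [if_pos (by linarith)] | rw [if_neg (by linarith)] | erw [if_pos (by linarith)] | erw [if_neg (by linarith)]); (try push_cast); (try ring1))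
  rcases eq_or_lt_of_le h2 with h | h2
  · subst h
    ((try push_cast); (repeat first | rw [if_pos (by linarith)] | rw [if_neg (by linarith)] | erw [if_pos (by linarith)] | erw [if_neg (by linarith)]); (try push_cast); (try ring1))
  · ((try push_cast); (repeat first | rw [if_pos (by linarith)] | rw [if_neg (by linarith)] | erw [if_pos (by linarith)] | erw [if_neg (by linarith)]); (try push_cast); (try ring1))
theorem kcl6 {p x : ℝ} (h1 : -7 / 20 ≤ p) (h2 : p ≤ -1 / 4) : kcg.v p x = (-53982743 / 800000000 + (x - 7 / 128) * (2001693 / 80000000)) + (-1759127 / 2000000 + (x - 7 / 128) * (195957 / 1000000)) * p + (11103 / 400000 + (x - 7 / 128) * (1303 / 8000)) * p ^ 2 := by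
  simp only [kcg, kcg_3, kcg_6, kcg_9, kcg_12, kcg_13, kcg_18, kcg_30, kcg_38, kcg_43, kcg_55, kcg_63, kcg_64, kcg_69, kcg_81, kcg_88, kcg_89, kcg_94, kcg_106, kcg_111, kcg_116, kcg_128, kcg_138, kcg_141, kcg_142, kcg_147, kcg_159, kcg_164, kcg_169, kcg_180, kcg_188, kcg_189, kcg_194, kcg_203, kcg_211, kcg_216, kcg_225, kcg_230, kcg_238, kcg_239, kcg_240, kcg_259, kcg_268, kcg_288, kcg_289, kcg_309]
  rcases eq_or_lt_of_le h1 with h | h1
  · subst h
    ((try push_cast); (repeat first | rw [if_pos (by linarith)] | rw [if_neg (by linarith)] | erw [if_pos (by linarith)] | erw [if_neg (by linarith)]); (try push_cast); (try ring1))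
  rcases eq_or_lt_of_le h2 with h | h2
  · subst h
    ((try push_cast); (repeat first | rw [if_pos (by linarith)] | rw [if_neg (by linarith)] | erw [if_pos (by linarith)] | erw [if_neg (by linarith)]); (try push_cast); (try ring1))
  · ((try push_cast); (repeat first | rw [if_pos (by linarith)] | rw [if_neg (by linarith)] | erw [if_pos (by linarith)] | erw [if_neg (by linarith)]); (try push_cast); (try ring1))
theorem kcl7 {p x : ℝ} (h1 : -1 / 4 ≤ p) (h2 : p ≤ -3 / 20) : kcg.v p x = (-25455269 / 400000000 + (x - 7 / 128) * (446023 / 80000000)) + (-265263 / 312500 + (x - 7 / 128) * (40391 / 1000000)) * p + (89201 / 1000000 + (x - 7 / 128) * (-29651 / 200000)) * p ^ 2 := by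
  simp only [kcg, kcg_3, kcg_6, kcg_9, kcg_12, kcg_13, kcg_18, kcg_30, kcg_38, kcg_43, kcg_55, kcg_63, kcg_64, kcg_69, kcg_81, kcg_88, kcg_89, kcg_94, kcg_106, kcg_111, kcg_116, kcg_128, kcg_138, kcg_141, kcg_142, kcg_147, kcg_159, kcg_164, kcg_169, kcg_180, kcg_188, kcg_189, kcg_194, kcg_203, kcg_211, kcg_216, kcg_225, kcg_230, kcg_238, kcg_239, kcg_240, kcg_259, kcg_268, kcg_288, kcg_289, kcg_309]
  rcases eq_or_lt_of_le h1 with h | h1
  · subst h
    ((try push_cast); (repeat first | rw [if_pos (by linarith)] | rw [if_neg (by linarith)] | erw [if_pos (by linarith)] | erw [if_neg (by linarith)]); (try push_cast); (try ring1))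
  rcases eq_or_lt_of_le h2 with h | h2
  · subst h
    ((try push_cast); (repeat first | rw [if_pos (by linarith)] | rw [if_neg (by linarith)] | erw [if_pos (by linarith)] | erw [if_neg (by linarith)]); (try push_cast); (try ring1))
  · ((try push_cast); (repeat first | rw [if_pos (by linarith)] | rw [if_neg (by linarith)] | erw [if_pos (by linarith)] | erw [if_neg (by linarith)]); (try push_cast); (try ring1))
theorem kcl8 {p x : ℝ} (h1 : -3 / 20 ≤ p) (h2 : p ≤ -3 / 50) : kcg.v p x = (75023081 / 6000000000 + (x - 7 / 128) * (-509203 / 300000000)) + (299493787 / 1800000000 + (x - 7 / 128) * (-5092061 / 90000000)) * p + (6946583 / 2000000 + (x - 7 / 128) * (-47149 / 100000)) * p ^ 2 := by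
  simp only [kcg, kcg_3, kcg_6, kcg_9, kcg_12, kcg_13, kcg_18, kcg_30, kcg_38, kcg_43, kcg_55, kcg_63, kcg_64, kcg_69, kcg_81, kcg_88, kcg_89, kcg_94, kcg_106, kcg_111, kcg_116, kcg_128, kcg_138, kcg_141, kcg_142, kcg_147, kcg_159, kcg_164, kcg_169, kcg_180, kcg_188, kcg_189, kcg_194, kcg_203, kcg_211, kcg_216, kcg_225, kcg_230, kcg_238, kcg_239, kcg_240, kcg_259, kcg_268, kcg_288, kcg_289, kcg_309]
  rcases eq_or_lt_of_le h1 with h | h1
  · subst h
    ((try push_cast); (repeat first | rw [if_pos (by linarith)] | rw [if_neg (by linarith)] | erw [if_pos (by linarith)] | erw [if_neg (by linarith)]); (try push_cast); (try ring1))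
  rcases eq_or_lt_of_le h2 with h | h2
  · subst h
    ((try push_cast); (repeat first | rw [if_pos (by linarith)] | rw [if_neg (by linarith)] | erw [if_pos (by linarith)] | erw [if_neg (by linarith)]); (try push_cast); (try ring1))
  · ((try push_cast); (repeat first | rw [if_pos (by linarith)] | rw [if_neg (by linarith)] | erw [if_pos (by linarith)] | erw [if_neg (by linarith)]); (try push_cast); (try ring1))
theorem kcl9 {p x : ℝ} (h1 : -3 / 50 ≤ p) (h2 : p ≤ 3 / 50) : kcg.v p x = (0) + (-500819 / 2000000) * p := by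
  simp only [kcg, kcg_3, kcg_6, kcg_9, kcg_12, kcg_13, kcg_18, kcg_30, kcg_38, kcg_43, kcg_55, kcg_63, kcg_64, kcg_69, kcg_81, kcg_88, kcg_89, kcg_94, kcg_106, kcg_111, kcg_116, kcg_128, kcg_138, kcg_141, kcg_142, kcg_147, kcg_159, kcg_164, kcg_169, kcg_180, kcg_188, kcg_189, kcg_194, kcg_203, kcg_211, kcg_216, kcg_225, kcg_230, kcg_238, kcg_239, kcg_240, kcg_259, kcg_268, kcg_288, kcg_289, kcg_309]
  rcases eq_or_lt_of_le h1 with h | h1
  · subst h
    ((try push_cast); (repeat first | rw [if_pos (by linarith)] | rw [if_neg (by linarith)] | erw [if_pos (by linarith)] | erw [if_neg (by linarith)]); (try push_cast); (try ring1))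
  rcases eq_or_lt_of_le h2 with h | h2
  · subst h
    ((try push_cast); (repeat first | rw [if_pos (by linarith)] | rw [if_neg (by linarith)] | erw [if_pos (by linarith)] | erw [if_neg (by linarith)]); (try push_cast); (try ring1))
  rcases lt_trichotomy p 0 with h | h | h
  · ((try push_cast); (repeat first | rw [if_pos (by linarith)] | rw [if_neg (by linarith)] | erw [if_pos (by linarith)] | erw [if_neg (by linarith)]); (try push_cast); (try ring1))
  · subst h
    ((try push_cast); (repeat first | rw [if_pos (by linarith)] | rw [if_neg (by linarith)] | erw [if_pos (by linarith)] | erw [if_neg (by linarith)]); (try push_cast); (try ring1))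
  · ((try push_cast); (repeat first | rw [if_pos (by linarith)] | rw [if_neg (by linarith)] | erw [if_pos (by linarith)] | erw [if_neg (by linarith)]); (try push_cast); (try ring1))
theorem kcl10 {p x : ℝ} (h1 : 3 / 50 ≤ p) (h2 : p ≤ 3 / 20) : kcg.v p x = (-75023081 / 6000000000 + (x - 7 / 128) * (509203 / 300000000)) + (299493787 / 1800000000 + (x - 7 / 128) * (-5092061 / 90000000)) * p + (-6946583 / 2000000 + (x - 7 / 128) * (47149 / 100000)) * p ^ 2 := by
  simp only [kcg, kcg_3, kcg_6, kcg_9, kcg_12, kcg_13, kcg_18, kcg_30, kcg_38, kcg_43, kcg_55, kcg_63, kcg_64, kcg_69, kcg_81, kcg_88, kcg_89, kcg_94, kcg_106, kcg_111, kcg_116, kcg_128, kcg_138, kcg_141, kcg_142, kcg_147, kcg_159, kcg_164, kcg_169, kcg_180, kcg_188, kcg_189, kcg_194, kcg_203, kcg_211, kcg_216, kcg_225, kcg_230, kcg_238, kcg_239, kcg_240, kcg_259, kcg_268, kcg_288, kcg_289, kcg_309]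
  rcases eq_or_lt_of_le h1 with h | h1
  · subst h
    ((try push_cast); (repeat first | rw [if_pos (by linarith)] | rw [if_neg (by linarith)] | erw [if_pos (by linarith)] | erw [if_neg (by linarith)]); (try push_cast); (try ring1))
  rcases eq_or_lt_of_le h2 with h | h2
  · subst h
    ((try push_cast); (repeat first | rw [if_pos (by linarith)] | rw [if_neg (by linarith)] | erw [if_pos (by linarith)] | erw [if_neg (by linarith)]); (try push_cast); (try ring1))
  · ((try push_cast); (repeat first | rw [if_pos (by linarith)] | rw [if_neg (by linarith)] | erw [if_pos (by linarith)] | erw [if_neg (by linarith)]); (try push_cast); (try ring1))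
theorem kcl11 {p x : ℝ} (h1 : 3 / 20 ≤ p) (h2 : p ≤ 1 / 4) : kcg.v p x = (25455269 / 400000000 + (x - 7 / 128) * (-446023 / 80000000)) + (-265263 / 312500 + (x - 7 / 128) * (40391 / 1000000)) * p + (-89201 / 1000000 + (x - 7 / 128) * (29651 / 200000)) * p ^ 2 := by
  simp only [kcg, kcg_3, kcg_6, kcg_9, kcg_12, kcg_13, kcg_18, kcg_30, kcg_38, kcg_43, kcg_55, kcg_63, kcg_64, kcg_69, kcg_81, kcg_88, kcg_89, kcg_94, kcg_106, kcg_111, kcg_116, kcg_128, kcg_138, kcg_141, kcg_142, kcg_147, kcg_159, kcg_164, kcg_169, kcg_180, kcg_188, kcg_189, kcg_194, kcg_203, kcg_211, kcg_216, kcg_225, kcg_230, kcg_238, kcg_239, kcg_240, kcg_259, kcg_268, kcg_288, kcg_289, kcg_309]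
  rcases eq_or_lt_of_le h1 with h | h1
  · subst h
    ((try push_cast); (repeat first | rw [if_pos (by linarith)] | rw [if_neg (by linarith)] | erw [if_pos (by linarith)] | erw [if_neg (by linarith)]); (try push_cast); (try ring1))
  rcases eq_or_lt_of_le h2 with h | h2
  · subst h
    ((try push_cast); (repeat first | rw [if_pos (by linarith)] | rw [if_neg (by linarith)] | erw [if_pos (by linarith)] | erw [if_neg (by linarith)]); (try push_cast); (try ring1))
  · ((try push_cast); (repeat first | rw [if_pos (by linarith)] | rw [if_neg (by linarith)] | erw [if_pos (by linarith)] | erw [if_neg (by linarith)]); (try push_cast); (try ring1))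
theorem kcl12 {p x : ℝ} (h1 : 1 / 4 ≤ p) (h2 : p ≤ 7 / 20) : kcg.v p x = (53982743 / 800000000 + (x - 7 / 128) * (-2001693 / 80000000)) + (-1759127 / 2000000 + (x - 7 / 128) * (195957 / 1000000)) * p + (-11103 / 400000 + (x - 7 / 128) * (-1303 / 8000)) * p ^ 2 := by
  simp only [kcg, kcg_3, kcg_6, kcg_9, kcg_12, kcg_13, kcg_18, kcg_30, kcg_38, kcg_43, kcg_55, kcg_63, kcg_64, kcg_69, kcg_81, kcg_88, kcg_89, kcg_94, kcg_106, kcg_111, kcg_116, kcg_128, kcg_138, kcg_141, kcg_142, kcg_147, kcg_159, kcg_164, kcg_169, kcg_180, kcg_188, kcg_189, kcg_194, kcg_203, kcg_211, kcg_216, kcg_225, kcg_230, kcg_238, kcg_239, kcg_240, kcg_259, kcg_268, kcg_288, kcg_289, kcg_309]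
  rcases eq_or_lt_of_le h1 with h | h1
  · subst h
    ((try push_cast); (repeat first | rw [if_pos (by linarith)] | rw [if_neg (by linarith)] | erw [if_pos (by linarith)] | erw [if_neg (by linarith)]); (try push_cast); (try ring1))
  rcases eq_or_lt_of_le h2 with h | h2
  · subst h
    ((try push_cast); (repeat first | rw [if_pos (by linarith)] | rw [if_neg (by linarith)] | erw [if_pos (by linarith)] | erw [if_neg (by linarith)]); (try push_cast); (try ring1))
  · ((try push_cast); (repeat first | rw [if_pos (by linarith)] | rw [if_neg (by linarith)] | erw [if_pos (by linarith)] | erw [if_neg (by linarith)]); (try push_cast); (try ring1))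
theorem kcl13 {p x : ℝ} (h1 : 7 / 20 ≤ p) (h2 : p ≤ 41 / 100) : kcg.v p x = (104821937 / 1500000000 + (x - 7 / 128) * (-97921391 / 1200000000)) + (-133994137 / 150000000 + (x - 7 / 128) * (3894541 / 7500000)) * p + (-4071 / 500000 + (x - 7 / 128) * (-124951 / 200000)) * p ^ 2 := by
  simp only [kcg, kcg_3, kcg_6, kcg_9, kcg_12, kcg_13, kcg_18, kcg_30, kcg_38, kcg_43, kcg_55, kcg_63, kcg_64, kcg_69, kcg_81, kcg_88, kcg_89, kcg_94, kcg_106, kcg_111, kcg_116, kcg_128, kcg_138, kcg_141, kcg_142, kcg_147, kcg_159, kcg_164, kcg_169, kcg_180, kcg_188, kcg_189, kcg_194, kcg_203, kcg_211, kcg_216, kcg_225, kcg_230, kcg_238, kcg_239, kcg_240, kcg_259, kcg_268, kcg_288, kcg_289, kcg_309]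
  rcases eq_or_lt_of_le h1 with h | h1
  · subst h
    ((try push_cast); (repeat first | rw [if_pos (by linarith)] | rw [if_neg (by linarith)] | erw [if_pos (by linarith)] | erw [if_neg (by linarith)]); (try push_cast); (try ring1))
  rcases eq_or_lt_of_le h2 with h | h2
  · subst h
    ((try push_cast); (repeat first | rw [if_pos (by linarith)] | rw [if_neg (by linarith)] | erw [if_pos (by linarith)] | erw [if_neg (by linarith)]); (try push_cast); (try ring1))
  · ((try push_cast); (repeat first | rw [if_pos (by linarith)] | rw [if_neg (by linarith)] | erw [if_pos (by linarith)] | erw [if_neg (by linarith)]); (try push_cast); (try ring1))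
theorem kcl14 {p x : ℝ} (h1 : 41 / 100 ≤ p) (h2 : p ≤ 191 / 434) : kcg.v p x = (4249549406793 / 56680400000000 + (x - 7 / 128) * (-186112613337 / 809720000000)) + (-26020167652537 / 28340200000000 + (x - 7 / 128) * (503008172277 / 404860000000)) * p + (44307 / 2000000 + (x - 7 / 128) * (-301329 / 200000)) * p ^ 2 := by
  simp only [kcg, kcg_3, kcg_6, kcg_9, kcg_12, kcg_13, kcg_18, kcg_30, kcg_38, kcg_43, kcg_55, kcg_63, kcg_64, kcg_69, kcg_81, kcg_88, kcg_89, kcg_94, kcg_106, kcg_111, kcg_116, kcg_128, kcg_138, kcg_141, kcg_142, kcg_147, kcg_159, kcg_164, kcg_169, kcg_180, kcg_188, kcg_189, kcg_194, kcg_203, kcg_211, kcg_216, kcg_225, kcg_230, kcg_238, kcg_239, kcg_240, kcg_259, kcg_268, kcg_288, kcg_289, kcg_309]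
  rcases eq_or_lt_of_le h1 with h | h1
  · subst h
    ((try push_cast); (repeat first | rw [if_pos (by linarith)] | rw [if_neg (by linarith)] | erw [if_pos (by linarith)] | erw [if_neg (by linarith)]); (try push_cast); (try ring1))
  rcases eq_or_lt_of_le h2 with h | h2
  · subst h
    ((try push_cast); (repeat first | rw [if_pos (by linarith)] | rw [if_neg (by linarith)] | erw [if_pos (by linarith)] | erw [if_neg (by linarith)]); (try push_cast); (try ring1))
  · ((try push_cast); (repeat first | rw [if_pos (by linarith)] | rw [if_neg (by linarith)] | erw [if_pos (by linarith)] | erw [if_neg (by linarith)]); (try push_cast); (try ring1))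
theorem kcl15 {p x : ℝ} (h1 : 191 / 434 ≤ p) (h2 : p ≤ 23 / 50) : kcg.v p x = (199127798699 / 2343600000000 + (x - 7 / 128) * (-3057206113 / 6696000000)) + (-1129085626327 / 1171800000000 + (x - 7 / 128) * (38046251977 / 16740000000)) * p + (147493 / 2000000 + (x - 7 / 128) * (-535451 / 200000)) * p ^ 2 := by
  simp only [kcg, kcg_3, kcg_6, kcg_9, kcg_12, kcg_13, kcg_18, kcg_30, kcg_38, kcg_43, kcg_55, kcg_63, kcg_64, kcg_69, kcg_81, kcg_88, kcg_89, kcg_94, kcg_106, kcg_111, kcg_116, kcg_128, kcg_138, kcg_141, kcg_142, kcg_147, kcg_159, kcg_164, kcg_169, kcg_180, kcg_188, kcg_189, kcg_194, kcg_203, kcg_211, kcg_216, kcg_225, kcg_230, kcg_238, kcg_239, kcg_240, kcg_259, kcg_268, kcg_288, kcg_289, kcg_309]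
  rcases eq_or_lt_of_le h1 with h | h1
  · subst h
    ((try push_cast); (repeat first | rw [if_pos (by linarith)] | rw [if_neg (by linarith)] | erw [if_pos (by linarith)] | erw [if_neg (by linarith)]); (try push_cast); (try ring1))
  rcases eq_or_lt_of_le h2 with h | h2
  · subst h
    ((try push_cast); (repeat first | rw [if_pos (by linarith)] | rw [if_neg (by linarith)] | erw [if_pos (by linarith)] | erw [if_neg (by linarith)]); (try push_cast); (try ring1))
  · ((try push_cast); (repeat first | rw [if_pos (by linarith)] | rw [if_neg (by linarith)] | erw [if_pos (by linarith)] | erw [if_neg (by linarith)]); (try push_cast); (try ring1))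
theorem kcl16 {p x : ℝ} (h1 : 23 / 50 ≤ p) (h2 : p ≤ 661 / 1387) : kcg.v p x = (14223784609987 / 159366300000000 + (x - 7 / 128) * (-4756231759291 / 5312210000000)) + (-3130531094141 / 3187326000000 + (x - 7 / 128) * (22207503879261 / 5312210000000)) * p + (47 / 500 + (x - 7 / 128) * (-950167 / 200000)) * p ^ 2 := by
  simp only [kcg, kcg_3, kcg_6, kcg_9, kcg_12, kcg_13, kcg_18, kcg_30, kcg_38, kcg_43, kcg_55, kcg_63, kcg_64, kcg_69, kcg_81, kcg_88, kcg_89, kcg_94, kcg_106, kcg_111, kcg_116, kcg_128, kcg_138, kcg_141, kcg_142, kcg_147, kcg_159, kcg_164, kcg_169, kcg_180, kcg_188, kcg_189, kcg_194, kcg_203, kcg_211, kcg_216, kcg_225, kcg_230, kcg_238, kcg_239, kcg_240, kcg_259, kcg_268, kcg_288, kcg_289, kcg_309]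
  rcases eq_or_lt_of_le h1 with h | h1
  · subst h
    ((try push_cast); (repeat first | rw [if_pos (by linarith)] | rw [if_neg (by linarith)] | erw [if_pos (by linarith)] | erw [if_neg (by linarith)]); (try push_cast); (try ring1))
  rcases eq_or_lt_of_le h2 with h | h2
  · subst h
    ((try push_cast); (repeat first | rw [if_pos (by linarith)] | rw [if_neg (by linarith)] | erw [if_pos (by linarith)] | erw [if_neg (by linarith)]); (try push_cast); (try ring1))
  · ((try push_cast); (repeat first | rw [if_pos (by linarith)] | rw [if_neg (by linarith)] | erw [if_pos (by linarith)] | erw [if_neg (by linarith)]); (try push_cast); (try ring1))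
theorem kcl17 {p x : ℝ} (h1 : 661 / 1387 ≤ p) (h2 : p ≤ 49 / 100) : kcg.v p x = (10917967076249 / 129199050000000 + (x - 7 / 128) * (-18126058681651 / 17226540000000)) + (-248645697020593 / 258398100000000 + (x - 7 / 128) * (83356143199453 / 17226540000000)) * p + (73097 / 1000000 + (x - 7 / 128) * (-1088311 / 200000)) * p ^ 2 := by
  simp only [kcg, kcg_3, kcg_6, kcg_9, kcg_12, kcg_13, kcg_18, kcg_30, kcg_38, kcg_43, kcg_55, kcg_63, kcg_64, kcg_69, kcg_81, kcg_88, kcg_89, kcg_94, kcg_106, kcg_111, kcg_116, kcg_128, kcg_138, kcg_141, kcg_142, kcg_147, kcg_159, kcg_164, kcg_169, kcg_180, kcg_188, kcg_189, kcg_194, kcg_203, kcg_211, kcg_216, kcg_225, kcg_230, kcg_238, kcg_239, kcg_240, kcg_259, kcg_268, kcg_288, kcg_289, kcg_309]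
  rcases eq_or_lt_of_le h1 with h | h1
  · subst h
    ((try push_cast); (repeat first | rw [if_pos (by linarith)] | rw [if_neg (by linarith)] | erw [if_pos (by linarith)] | erw [if_neg (by linarith)]); (try push_cast); (try ring1))
  rcases eq_or_lt_of_le h2 with h | h2
  · subst h
    ((try push_cast); (repeat first | rw [if_pos (by linarith)] | rw [if_neg (by linarith)] | erw [if_pos (by linarith)] | erw [if_neg (by linarith)]); (try push_cast); (try ring1))
  · ((try push_cast); (repeat first | rw [if_pos (by linarith)] | rw [if_neg (by linarith)] | erw [if_pos (by linarith)] | erw [if_neg (by linarith)]); (try push_cast); (try ring1))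
theorem kcl18 {p x : ℝ} (h1 : 49 / 100 ≤ p) (h2 : p ≤ 1 / 2) : kcg.v p x = (29307 / 400000 + (x - 7 / 128) * (-8096763 / 40000000)) + (-22909801 / 25000000 + (x - 7 / 128) * (27405257 / 20000000)) * p + (3287 / 125000 + (x - 7 / 128) * (-380443 / 200000)) * p ^ 2 := by
  simp only [kcg, kcg_3, kcg_6, kcg_9, kcg_12, kcg_13, kcg_18, kcg_30, kcg_38, kcg_43, kcg_55, kcg_63, kcg_64, kcg_69, kcg_81, kcg_88, kcg_89, kcg_94, kcg_106, kcg_111, kcg_116, kcg_128, kcg_138, kcg_141, kcg_142, kcg_147, kcg_159, kcg_164, kcg_169, kcg_180, kcg_188, kcg_189, kcg_194, kcg_203, kcg_211, kcg_216, kcg_225, kcg_230, kcg_238, kcg_239, kcg_240, kcg_259, kcg_268, kcg_288, kcg_289, kcg_309]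
  rcases eq_or_lt_of_le h1 with h | h1
  · subst h
    ((try push_cast); (repeat first | rw [if_pos (by linarith)] | rw [if_neg (by linarith)] | erw [if_pos (by linarith)] | erw [if_neg (by linarith)]); (try push_cast); (try ring1))
  rcases eq_or_lt_of_le h2 with h | h2
  · subst h
    ((try push_cast); (repeat first | rw [if_pos (by linarith)] | rw [if_neg (by linarith)] | erw [if_pos (by linarith)] | erw [if_neg (by linarith)]); (try push_cast); (try ring1))
  · ((try push_cast); (repeat first | rw [if_pos (by linarith)] | rw [if_neg (by linarith)] | erw [if_pos (by linarith)] | erw [if_neg (by linarith)]); (try push_cast); (try ring1))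
theorem kvh0 {p x : ℝ} (h2 : p ≤ -49 / 100) : dt37.kv p x = (-29307 / 400000 + (x - 7 / 128) * (8096763 / 40000000)) + (-22909801 / 25000000 + (x - 7 / 128) * (27405257 / 20000000)) * p + (-3287 / 125000 + (x - 7 / 128) * (380443 / 200000)) * p ^ 2 := by
  refine (DT.kv_le (by simp only [Cn.rt_v, Cn.ng_v]; push_cast; linarith)).trans ?_
  refine (DT.kv_le (by simp only [Cn.rt_v, Cn.ng_v]; push_cast; linarith)).trans ?_
  refine (DT.kv_le (by simp only [Cn.rt_v, Cn.ng_v]; push_cast; linarith)).trans ?_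
  refine (DT.kv_le (by simp only [Cn.rt_v, Cn.ng_v]; push_cast; linarith)).trans ?_
  simp only [dt1, DT.kv, sw1, sl1, sv1]
  ((try push_cast); ring1)
theorem kvh1 {p x : ℝ} (h1 : -49 / 100 < p) (h2 : p ≤ -661 / 1387) : dt37.kv p x = (-10917967076249 / 129199050000000 + (x - 7 / 128) * (18126058681651 / 17226540000000)) + (-248645697020593 / 258398100000000 + (x - 7 / 128) * (83356143199453 / 17226540000000)) * p + (-73097 / 1000000 + (x - 7 / 128) * (1088311 / 200000)) * p ^ 2 := by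
  refine (DT.kv_le (by simp only [Cn.rt_v, Cn.ng_v]; push_cast; linarith)).trans ?_
  refine (DT.kv_le (by simp only [Cn.rt_v, Cn.ng_v]; push_cast; linarith)).trans ?_
  refine (DT.kv_le (by simp only [Cn.rt_v, Cn.ng_v]; push_cast; linarith)).trans ?_
  refine (DT.kv_gt (by simp only [Cn.rt_v, Cn.ng_v]; push_cast; linarith)).trans ?_
  simp only [dt2, DT.kv, sw2, sl2, sv2]
  ((try push_cast); ring1)
theorem kvh2 {p x : ℝ} (h1 : -661 / 1387 < p) (h2 : p ≤ -23 / 50) : dt37.kv p x = (-14223784609987 / 159366300000000 + (x - 7 / 128) * (4756231759291 / 5312210000000)) + (-3130531094141 / 3187326000000 + (x - 7 / 128) * (22207503879261 / 5312210000000)) * p + (-47 / 500 + (x - 7 / 128) * (950167 / 200000)) * p ^ 2 := by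
  refine (DT.kv_le (by simp only [Cn.rt_v, Cn.ng_v]; push_cast; linarith)).trans ?_
  refine (DT.kv_le (by simp only [Cn.rt_v, Cn.ng_v]; push_cast; linarith)).trans ?_
  refine (DT.kv_gt (by simp only [Cn.rt_v, Cn.ng_v]; push_cast; linarith)).trans ?_
  refine (DT.kv_le (by simp only [Cn.rt_v, Cn.ng_v]; push_cast; linarith)).trans ?_
  simp only [dt3, DT.kv, sw3, sl3, sv3]
  ((try push_cast); ring1)
theorem kvh3 {p x : ℝ} (h1 : -23 / 50 < p) (h2 : p ≤ -191 / 434) : dt37.kv p x = (-199127798699 / 2343600000000 + (x - 7 / 128) * (3057206113 / 6696000000)) + (-1129085626327 / 1171800000000 + (x - 7 / 128) * (38046251977 / 16740000000)) * p + (-147493 / 2000000 + (x - 7 / 128) * (535451 / 200000)) * p ^ 2 := by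
  refine (DT.kv_le (by simp only [Cn.rt_v, Cn.ng_v]; push_cast; linarith)).trans ?_
  refine (DT.kv_le (by simp only [Cn.rt_v, Cn.ng_v]; push_cast; linarith)).trans ?_
  refine (DT.kv_gt (by simp only [Cn.rt_v, Cn.ng_v]; push_cast; linarith)).trans ?_
  refine (DT.kv_gt (by simp only [Cn.rt_v, Cn.ng_v]; push_cast; linarith)).trans ?_
  simp only [dt4, DT.kv, sw4, sl4, sv4]
  ((try push_cast); ring1)
theorem kvh4 {p x : ℝ} (h1 : -191 / 434 < p) (h2 : p ≤ -41 / 100) : dt37.kv p x = (-4249549406793 / 56680400000000 + (x - 7 / 128) * (186112613337 / 809720000000)) + (-26020167652537 / 28340200000000 + (x - 7 / 128) * (503008172277 / 404860000000)) * p + (-44307 / 2000000 + (x - 7 / 128) * (301329 / 200000)) * p ^ 2 := by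
  refine (DT.kv_le (by simp only [Cn.rt_v, Cn.ng_v]; push_cast; linarith)).trans ?_
  refine (DT.kv_gt (by simp only [Cn.rt_v, Cn.ng_v]; push_cast; linarith)).trans ?_
  refine (DT.kv_le (by simp only [Cn.rt_v, Cn.ng_v]; push_cast; linarith)).trans ?_
  refine (DT.kv_le (by simp only [Cn.rt_v, Cn.ng_v]; push_cast; linarith)).trans ?_
  simp only [dt5, DT.kv, sw5, sl5, sv5]
  ((try push_cast); ring1)
theorem kvh5 {p x : ℝ} (h1 : -41 / 100 < p) (h2 : p ≤ -7 / 20) : dt37.kv p x = (-104821937 / 1500000000 + (x - 7 / 128) * (97921391 / 1200000000)) + (-133994137 / 150000000 + (x - 7 / 128) * (3894541 / 7500000)) * p + (4071 / 500000 + (x - 7 / 128) * (124951 / 200000)) * p ^ 2 := by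
  refine (DT.kv_le (by simp only [Cn.rt_v, Cn.ng_v]; push_cast; linarith)).trans ?_
  refine (DT.kv_gt (by simp only [Cn.rt_v, Cn.ng_v]; push_cast; linarith)).trans ?_
  refine (DT.kv_le (by simp only [Cn.rt_v, Cn.ng_v]; push_cast; linarith)).trans ?_
  refine (DT.kv_gt (by simp only [Cn.rt_v, Cn.ng_v]; push_cast; linarith)).trans ?_
  simp only [dt6, DT.kv, sw6, sl6, sv6]
  ((try push_cast); ring1)
theorem kvh6 {p x : ℝ} (h1 : -7 / 20 < p) (h2 : p ≤ -1 / 4) : dt37.kv p x = (-53982743 / 800000000 + (x - 7 / 128) * (2001693 / 80000000)) + (-1759127 / 2000000 + (x - 7 / 128) * (195957 / 1000000)) * p + (11103 / 400000 + (x - 7 / 128) * (1303 / 8000)) * p ^ 2 := by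
  refine (DT.kv_le (by simp only [Cn.rt_v, Cn.ng_v]; push_cast; linarith)).trans ?_
  refine (DT.kv_gt (by simp only [Cn.rt_v, Cn.ng_v]; push_cast; linarith)).trans ?_
  refine (DT.kv_gt (by simp only [Cn.rt_v, Cn.ng_v]; push_cast; linarith)).trans ?_
  refine (DT.kv_le (by simp only [Cn.rt_v, Cn.ng_v]; push_cast; linarith)).trans ?_
  simp only [dt7, DT.kv, sw7, sl7, sv7]
  ((try push_cast); ring1)
theorem kvh7 {p x : ℝ} (h1 : -1 / 4 < p) (h2 : p ≤ -3 / 20) : dt37.kv p x = (-25455269 / 400000000 + (x - 7 / 128) * (446023 / 80000000)) + (-265263 / 312500 + (x - 7 / 128) * (40391 / 1000000)) * p + (89201 / 1000000 + (x - 7 / 128) * (-29651 / 200000)) * p ^ 2 := by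
  refine (DT.kv_le (by simp only [Cn.rt_v, Cn.ng_v]; push_cast; linarith)).trans ?_
  refine (DT.kv_gt (by simp only [Cn.rt_v, Cn.ng_v]; push_cast; linarith)).trans ?_
  refine (DT.kv_gt (by simp only [Cn.rt_v, Cn.ng_v]; push_cast; linarith)).trans ?_
  refine (DT.kv_gt (by simp only [Cn.rt_v, Cn.ng_v]; push_cast; linarith)).trans ?_
  refine (DT.kv_le (by simp only [Cn.rt_v, Cn.ng_v]; push_cast; linarith)).trans ?_
  simp only [dt8, DT.kv, sw8, sl8, sv8]
  ((try push_cast); ring1)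
theorem kvh8 {p x : ℝ} (h1 : -3 / 20 < p) (h2 : p ≤ -3 / 50) : dt37.kv p x = (75023081 / 6000000000 + (x - 7 / 128) * (-509203 / 300000000)) + (299493787 / 1800000000 + (x - 7 / 128) * (-5092061 / 90000000)) * p + (6946583 / 2000000 + (x - 7 / 128) * (-47149 / 100000)) * p ^ 2 := by
  refine (DT.kv_le (by simp only [Cn.rt_v, Cn.ng_v]; push_cast; linarith)).trans ?_
  refine (DT.kv_gt (by simp only [Cn.rt_v, Cn.ng_v]; push_cast; linarith)).trans ?_
  refine (DT.kv_gt (by simp only [Cn.rt_v, Cn.ng_v]; push_cast; linarith)).trans ?_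
  refine (DT.kv_gt (by simp only [Cn.rt_v, Cn.ng_v]; push_cast; linarith)).trans ?_
  refine (DT.kv_gt (by simp only [Cn.rt_v, Cn.ng_v]; push_cast; linarith)).trans ?_
  simp only [dt9, DT.kv, sw9, sl9, sv9]
  ((try push_cast); ring1)
theorem kvh9 {p x : ℝ} (h1 : -3 / 50 < p) (h2 : p ≤ 3 / 50) : dt37.kv p x = (0) + (-500819 / 2000000) * p := by
  refine (DT.kv_gt (by simp only [Cn.rt_v, Cn.ng_v]; push_cast; linarith)).trans ?_
  refine (DT.kv_le (by simp only [Cn.rt_v, Cn.ng_v]; push_cast; linarith)).trans ?_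
  refine (DT.kv_le (by simp only [Cn.rt_v, Cn.ng_v]; push_cast; linarith)).trans ?_
  refine (DT.kv_le (by simp only [Cn.rt_v, Cn.ng_v]; push_cast; linarith)).trans ?_
  simp only [dt10, DT.kv, sl10, sv10]
  ((try push_cast); ring1)
theorem kvh10 {p x : ℝ} (h1 : 3 / 50 < p) (h2 : p ≤ 3 / 20) : dt37.kv p x = (-75023081 / 6000000000 + (x - 7 / 128) * (509203 / 300000000)) + (299493787 / 1800000000 + (x - 7 / 128) * (-5092061 / 90000000)) * p + (-6946583 / 2000000 + (x - 7 / 128) * (47149 / 100000)) * p ^ 2 := by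
  refine (DT.kv_gt (by simp only [Cn.rt_v, Cn.ng_v]; push_cast; linarith)).trans ?_
  refine (DT.kv_le (by simp only [Cn.rt_v, Cn.ng_v]; push_cast; linarith)).trans ?_
  refine (DT.kv_le (by simp only [Cn.rt_v, Cn.ng_v]; push_cast; linarith)).trans ?_
  refine (DT.kv_gt (by simp only [Cn.rt_v, Cn.ng_v]; push_cast; linarith)).trans ?_
  simp only [dt11, DT.kv, sw11, sl11, sv11]
  ((try push_cast); ring1)
theorem kvh11 {p x : ℝ} (h1 : 3 / 20 < p) (h2 : p ≤ 1 / 4) : dt37.kv p x = (25455269 / 400000000 + (x - 7 / 128) * (-446023 / 80000000)) + (-265263 / 312500 + (x - 7 / 128) * (40391 / 1000000)) * p + (-89201 / 1000000 + (x - 7 / 128) * (29651 / 200000)) * p ^ 2 := by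
  refine (DT.kv_gt (by simp only [Cn.rt_v, Cn.ng_v]; push_cast; linarith)).trans ?_
  refine (DT.kv_le (by simp only [Cn.rt_v, Cn.ng_v]; push_cast; linarith)).trans ?_
  refine (DT.kv_gt (by simp only [Cn.rt_v, Cn.ng_v]; push_cast; linarith)).trans ?_
  refine (DT.kv_le (by simp only [Cn.rt_v, Cn.ng_v]; push_cast; linarith)).trans ?_
  simp only [dt12, DT.kv, sw12, sl12, sv12]
  ((try push_cast); ring1)
theorem kvh12 {p x : ℝ} (h1 : 1 / 4 < p) (h2 : p ≤ 7 / 20) : dt37.kv p x = (53982743 / 800000000 + (x - 7 / 128) * (-2001693 / 80000000)) + (-1759127 / 2000000 + (x - 7 / 128) * (195957 / 1000000)) * p + (-11103 / 400000 + (x - 7 / 128) * (-1303 / 8000)) * p ^ 2 := by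
  refine (DT.kv_gt (by simp only [Cn.rt_v, Cn.ng_v]; push_cast; linarith)).trans ?_
  refine (DT.kv_le (by simp only [Cn.rt_v, Cn.ng_v]; push_cast; linarith)).trans ?_
  refine (DT.kv_gt (by simp only [Cn.rt_v, Cn.ng_v]; push_cast; linarith)).trans ?_
  refine (DT.kv_gt (by simp only [Cn.rt_v, Cn.ng_v]; push_cast; linarith)).trans ?_
  refine (DT.kv_le (by simp only [Cn.rt_v, Cn.ng_v]; push_cast; linarith)).trans ?_
  simp only [dt13, DT.kv, sw13, sl13, sv13]
  ((try push_cast); ring1)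
theorem kvh13 {p x : ℝ} (h1 : 7 / 20 < p) (h2 : p ≤ 41 / 100) : dt37.kv p x = (104821937 / 1500000000 + (x - 7 / 128) * (-97921391 / 1200000000)) + (-133994137 / 150000000 + (x - 7 / 128) * (3894541 / 7500000)) * p + (-4071 / 500000 + (x - 7 / 128) * (-124951 / 200000)) * p ^ 2 := by
  refine (DT.kv_gt (by simp only [Cn.rt_v, Cn.ng_v]; push_cast; linarith)).trans ?_
  refine (DT.kv_le (by simp only [Cn.rt_v, Cn.ng_v]; push_cast; linarith)).trans ?_
  refine (DT.kv_gt (by simp only [Cn.rt_v, Cn.ng_v]; push_cast; linarith)).trans ?_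
  refine (DT.kv_gt (by simp only [Cn.rt_v, Cn.ng_v]; push_cast; linarith)).trans ?_
  refine (DT.kv_gt (by simp only [Cn.rt_v, Cn.ng_v]; push_cast; linarith)).trans ?_
  simp only [dt14, DT.kv, sw14, sl14, sv14]
  ((try push_cast); ring1)
theorem kvh14 {p x : ℝ} (h1 : 41 / 100 < p) (h2 : p ≤ 191 / 434) : dt37.kv p x = (4249549406793 / 56680400000000 + (x - 7 / 128) * (-186112613337 / 809720000000)) + (-26020167652537 / 28340200000000 + (x - 7 / 128) * (503008172277 / 404860000000)) * p + (44307 / 2000000 + (x - 7 / 128) * (-301329 / 200000)) * p ^ 2 := by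
  refine (DT.kv_gt (by simp only [Cn.rt_v, Cn.ng_v]; push_cast; linarith)).trans ?_
  refine (DT.kv_gt (by simp only [Cn.rt_v, Cn.ng_v]; push_cast; linarith)).trans ?_
  refine (DT.kv_le (by simp only [Cn.rt_v, Cn.ng_v]; push_cast; linarith)).trans ?_
  refine (DT.kv_le (by simp only [Cn.rt_v, Cn.ng_v]; push_cast; linarith)).trans ?_
  simp only [dt15, DT.kv, sw15, sl15, sv15]
  ((try push_cast); ring1)
theorem kvh15 {p x : ℝ} (h1 : 191 / 434 < p) (h2 : p ≤ 23 / 50) : dt37.kv p x = (199127798699 / 2343600000000 + (x - 7 / 128) * (-3057206113 / 6696000000)) + (-1129085626327 / 1171800000000 + (x - 7 / 128) * (38046251977 / 16740000000)) * p + (147493 / 2000000 + (x - 7 / 128) * (-535451 / 200000)) * p ^ 2 := by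
  refine (DT.kv_gt (by simp only [Cn.rt_v, Cn.ng_v]; push_cast; linarith)).trans ?_
  refine (DT.kv_gt (by simp only [Cn.rt_v, Cn.ng_v]; push_cast; linarith)).trans ?_
  refine (DT.kv_le (by simp only [Cn.rt_v, Cn.ng_v]; push_cast; linarith)).trans ?_
  refine (DT.kv_gt (by simp only [Cn.rt_v, Cn.ng_v]; push_cast; linarith)).trans ?_
  simp only [dt16, DT.kv, sw16, sl16, sv16]
  ((try push_cast); ring1)
theorem kvh16 {p x : ℝ} (h1 : 23 / 50 < p) (h2 : p ≤ 661 / 1387) : dt37.kv p x = (14223784609987 / 159366300000000 + (x - 7 / 128) * (-4756231759291 / 5312210000000)) + (-3130531094141 / 3187326000000 + (x - 7 / 128) * (22207503879261 / 5312210000000)) * p + (47 / 500 + (x - 7 / 128) * (-950167 / 200000)) * p ^ 2 := by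
  refine (DT.kv_gt (by simp only [Cn.rt_v, Cn.ng_v]; push_cast; linarith)).trans ?_
  refine (DT.kv_gt (by simp only [Cn.rt_v, Cn.ng_v]; push_cast; linarith)).trans ?_
  refine (DT.kv_gt (by simp only [Cn.rt_v, Cn.ng_v]; push_cast; linarith)).trans ?_
  refine (DT.kv_le (by simp only [Cn.rt_v, Cn.ng_v]; push_cast; linarith)).trans ?_
  simp only [dt17, DT.kv, sw17, sl17, sv17]
  ((try push_cast); ring1)
theorem kvh17 {p x : ℝ} (h1 : 661 / 1387 < p) (h2 : p ≤ 49 / 100) : dt37.kv p x = (10917967076249 / 129199050000000 + (x - 7 / 128) * (-18126058681651 / 17226540000000)) + (-248645697020593 / 258398100000000 + (x - 7 / 128) * (83356143199453 / 17226540000000)) * p + (73097 / 1000000 + (x - 7 / 128) * (-1088311 / 200000)) * p ^ 2 := by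
  refine (DT.kv_gt (by simp only [Cn.rt_v, Cn.ng_v]; push_cast; linarith)).trans ?_
  refine (DT.kv_gt (by simp only [Cn.rt_v, Cn.ng_v]; push_cast; linarith)).trans ?_
  refine (DT.kv_gt (by simp only [Cn.rt_v, Cn.ng_v]; push_cast; linarith)).trans ?_
  refine (DT.kv_gt (by simp only [Cn.rt_v, Cn.ng_v]; push_cast; linarith)).trans ?_
  refine (DT.kv_le (by simp only [Cn.rt_v, Cn.ng_v]; push_cast; linarith)).trans ?_
  simp only [dt18, DT.kv, sw18, sl18, sv18]
  ((try push_cast); ring1)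
theorem kvh18 {p x : ℝ} (h1 : 49 / 100 < p) (h2 : p ≤ 1 / 2) : dt37.kv p x = (29307 / 400000 + (x - 7 / 128) * (-8096763 / 40000000)) + (-22909801 / 25000000 + (x - 7 / 128) * (27405257 / 20000000)) * p + (3287 / 125000 + (x - 7 / 128) * (-380443 / 200000)) * p ^ 2 := by
  refine (DT.kv_gt (by simp only [Cn.rt_v, Cn.ng_v]; push_cast; linarith)).trans ?_
  refine (DT.kv_gt (by simp only [Cn.rt_v, Cn.ng_v]; push_cast; linarith)).trans ?_
  refine (DT.kv_gt (by simp only [Cn.rt_v, Cn.ng_v]; push_cast; linarith)).trans ?_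
  refine (DT.kv_gt (by simp only [Cn.rt_v, Cn.ng_v]; push_cast; linarith)).trans ?_
  refine (DT.kv_gt (by simp only [Cn.rt_v, Cn.ng_v]; push_cast; linarith)).trans ?_
  simp only [dt19, DT.kv, sw19, sl19, sv19]
  ((try push_cast); ring1)
theorem kvl0 {p x : ℝ} (h1 : -1 / 2 ≤ p) (h2 : p ≤ -49 / 100) : dt37.kv p x = (-29307 / 400000 + (x - 7 / 128) * (8096763 / 40000000)) + (-22909801 / 25000000 + (x - 7 / 128) * (27405257 / 20000000)) * p + (-3287 / 125000 + (x - 7 / 128) * (380443 / 200000)) * p ^ 2 := by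
  exact kvh0 h2
theorem kvl1 {p x : ℝ} (h1 : -49 / 100 ≤ p) (h2 : p ≤ -661 / 1387) : dt37.kv p x = (-10917967076249 / 129199050000000 + (x - 7 / 128) * (18126058681651 / 17226540000000)) + (-248645697020593 / 258398100000000 + (x - 7 / 128) * (83356143199453 / 17226540000000)) * p + (-73097 / 1000000 + (x - 7 / 128) * (1088311 / 200000)) * p ^ 2 := by
  rcases eq_or_lt_of_le h1 with h | h1
  · subst h
    rw [kvh0 (by norm_num)]
    ring1
  · exact kvh1 h1 h2
theorem kvl2 {p x : ℝ} (h1 : -661 / 1387 ≤ p) (h2 : p ≤ -23 / 50) : dt37.kv p x = (-14223784609987 / 159366300000000 + (x - 7 / 128) * (4756231759291 / 5312210000000)) + (-3130531094141 / 3187326000000 + (x - 7 / 128) * (22207503879261 / 5312210000000)) * p + (-47 / 500 + (x - 7 / 128) * (950167 / 200000)) * p ^ 2 := by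
  rcases eq_or_lt_of_le h1 with h | h1
  · subst h
    rw [kvh1 (by norm_num) (by norm_num)]
    ring1
  · exact kvh2 h1 h2
theorem kvl3 {p x : ℝ} (h1 : -23 / 50 ≤ p) (h2 : p ≤ -191 / 434) : dt37.kv p x = (-199127798699 / 2343600000000 + (x - 7 / 128) * (3057206113 / 6696000000)) + (-1129085626327 / 1171800000000 + (x - 7 / 128) * (38046251977 / 16740000000)) * p + (-147493 / 2000000 + (x - 7 / 128) * (535451 / 200000)) * p ^ 2 := by
  rcases eq_or_lt_of_le h1 with h | h1
  · subst h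
    rw [kvh2 (by norm_num) (by norm_num)]
    ring1
  · exact kvh3 h1 h2
theorem kvl4 {p x : ℝ} (h1 : -191 / 434 ≤ p) (h2 : p ≤ -41 / 100) : dt37.kv p x = (-4249549406793 / 56680400000000 + (x - 7 / 128) * (186112613337 / 809720000000)) + (-26020167652537 / 28340200000000 + (x - 7 / 128) * (503008172277 / 404860000000)) * p + (-44307 / 2000000 + (x - 7 / 128) * (301329 / 200000)) * p ^ 2 := by
  rcases eq_or_lt_of_le h1 with h | h1
  · subst h
    rw [kvh3 (by norm_num) (by norm_num)]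
    ring1
  · exact kvh4 h1 h2
theorem kvl5 {p x : ℝ} (h1 : -41 / 100 ≤ p) (h2 : p ≤ -7 / 20) : dt37.kv p x = (-104821937 / 1500000000 + (x - 7 / 128) * (97921391 / 1200000000)) + (-133994137 / 150000000 + (x - 7 / 128) * (3894541 / 7500000)) * p + (4071 / 500000 + (x - 7 / 128) * (124951 / 200000)) * p ^ 2 := by
  rcases eq_or_lt_of_le h1 with h | h1
  · subst h
    rw [kvh4 (by norm_num) (by norm_num)]
    ring1
  · exact kvh5 h1 h2
theorem kvl6 {p x : ℝ} (h1 : -7 / 20 ≤ p) (h2 : p ≤ -1 / 4) : dt37.kv p x = (-53982743 / 800000000 + (x - 7 / 128) * (2001693 / 80000000)) + (-1759127 / 2000000 + (x - 7 / 128) * (195957 / 1000000)) * p + (11103 / 400000 + (x - 7 / 128) * (1303 / 8000)) * p ^ 2 := by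
  rcases eq_or_lt_of_le h1 with h | h1
  · subst h
    rw [kvh5 (by norm_num) (by norm_num)]
    ring1
  · exact kvh6 h1 h2
theorem kvl7 {p x : ℝ} (h1 : -1 / 4 ≤ p) (h2 : p ≤ -3 / 20) : dt37.kv p x = (-25455269 / 400000000 + (x - 7 / 128) * (446023 / 80000000)) + (-265263 / 312500 + (x - 7 / 128) * (40391 / 1000000)) * p + (89201 / 1000000 + (x - 7 / 128) * (-29651 / 200000)) * p ^ 2 := by
  rcases eq_or_lt_of_le h1 with h | h1
  · subst h
    rw [kvh6 (by norm_num) (by norm_num)]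
    ring1
  · exact kvh7 h1 h2
theorem kvl8 {p x : ℝ} (h1 : -3 / 20 ≤ p) (h2 : p ≤ -3 / 50) : dt37.kv p x = (75023081 / 6000000000 + (x - 7 / 128) * (-509203 / 300000000)) + (299493787 / 1800000000 + (x - 7 / 128) * (-5092061 / 90000000)) * p + (6946583 / 2000000 + (x - 7 / 128) * (-47149 / 100000)) * p ^ 2 := by
  rcases eq_or_lt_of_le h1 with h | h1
  · subst h
    rw [kvh7 (by norm_num) (by norm_num)]
    ring1
  · exact kvh8 h1 h2
theorem kvl9 {p x : ℝ} (h1 : -3 / 50 ≤ p) (h2 : p ≤ 3 / 50) : dt37.kv p x = (0) + (-500819 / 2000000) * p := by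
  rcases eq_or_lt_of_le h1 with h | h1
  · subst h
    rw [kvh8 (by norm_num) (by norm_num)]
    ring1
  · exact kvh9 h1 h2
theorem kvl10 {p x : ℝ} (h1 : 3 / 50 ≤ p) (h2 : p ≤ 3 / 20) : dt37.kv p x = (-75023081 / 6000000000 + (x - 7 / 128) * (509203 / 300000000)) + (299493787 / 1800000000 + (x - 7 / 128) * (-5092061 / 90000000)) * p + (-6946583 / 2000000 + (x - 7 / 128) * (47149 / 100000)) * p ^ 2 := by
  rcases eq_or_lt_of_le h1 with h | h1
  · subst h
    rw [kvh9 (by norm_num) (by norm_num)]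
    ring1
  · exact kvh10 h1 h2
theorem kvl11 {p x : ℝ} (h1 : 3 / 20 ≤ p) (h2 : p ≤ 1 / 4) : dt37.kv p x = (25455269 / 400000000 + (x - 7 / 128) * (-446023 / 80000000)) + (-265263 / 312500 + (x - 7 / 128) * (40391 / 1000000)) * p + (-89201 / 1000000 + (x - 7 / 128) * (29651 / 200000)) * p ^ 2 := by
  rcases eq_or_lt_of_le h1 with h | h1
  · subst h
    rw [kvh10 (by norm_num) (by norm_num)]
    ring1
  · exact kvh11 h1 h2
theorem kvl12 {p x : ℝ} (h1 : 1 / 4 ≤ p) (h2 : p ≤ 7 / 20) : dt37.kv p x = (53982743 / 800000000 + (x - 7 / 128) * (-2001693 / 80000000)) + (-1759127 / 2000000 + (x - 7 / 128) * (195957 / 1000000)) * p + (-11103 / 400000 + (x - 7 / 128) * (-1303 / 8000)) * p ^ 2 := by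
  rcases eq_or_lt_of_le h1 with h | h1
  · subst h
    rw [kvh11 (by norm_num) (by norm_num)]
    ring1
  · exact kvh12 h1 h2
theorem kvl13 {p x : ℝ} (h1 : 7 / 20 ≤ p) (h2 : p ≤ 41 / 100) : dt37.kv p x = (104821937 / 1500000000 + (x - 7 / 128) * (-97921391 / 1200000000)) + (-133994137 / 150000000 + (x - 7 / 128) * (3894541 / 7500000)) * p + (-4071 / 500000 + (x - 7 / 128) * (-124951 / 200000)) * p ^ 2 := by
  rcases eq_or_lt_of_le h1 with h | h1
  · subst h
    rw [kvh12 (by norm_num) (by norm_num)]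
    ring1
  · exact kvh13 h1 h2
theorem kvl14 {p x : ℝ} (h1 : 41 / 100 ≤ p) (h2 : p ≤ 191 / 434) : dt37.kv p x = (4249549406793 / 56680400000000 + (x - 7 / 128) * (-186112613337 / 809720000000)) + (-26020167652537 / 28340200000000 + (x - 7 / 128) * (503008172277 / 404860000000)) * p + (44307 / 2000000 + (x - 7 / 128) * (-301329 / 200000)) * p ^ 2 := by
  rcases eq_or_lt_of_le h1 with h | h1
  · subst h
    rw [kvh13 (by norm_num) (by norm_num)]
    ring1
  · exact kvh14 h1 h2
theorem kvl15 {p x : ℝ} (h1 : 191 / 434 ≤ p) (h2 : p ≤ 23 / 50) : dt37.kv p x = (199127798699 / 2343600000000 + (x - 7 / 128) * (-3057206113 / 6696000000)) + (-1129085626327 / 1171800000000 + (x - 7 / 128) * (38046251977 / 16740000000)) * p + (147493 / 2000000 + (x - 7 / 128) * (-535451 / 200000)) * p ^ 2 := by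
  rcases eq_or_lt_of_le h1 with h | h1
  · subst h
    rw [kvh14 (by norm_num) (by norm_num)]
    ring1
  · exact kvh15 h1 h2
theorem kvl16 {p x : ℝ} (h1 : 23 / 50 ≤ p) (h2 : p ≤ 661 / 1387) : dt37.kv p x = (14223784609987 / 159366300000000 + (x - 7 / 128) * (-4756231759291 / 5312210000000)) + (-3130531094141 / 3187326000000 + (x - 7 / 128) * (22207503879261 / 5312210000000)) * p + (47 / 500 + (x - 7 / 128) * (-950167 / 200000)) * p ^ 2 := by
  rcases eq_or_lt_of_le h1 with h | h1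
  · subst h
    rw [kvh15 (by norm_num) (by norm_num)]
    ring1
  · exact kvh16 h1 h2
theorem kvl17 {p x : ℝ} (h1 : 661 / 1387 ≤ p) (h2 : p ≤ 49 / 100) : dt37.kv p x = (10917967076249 / 129199050000000 + (x - 7 / 128) * (-18126058681651 / 17226540000000)) + (-248645697020593 / 258398100000000 + (x - 7 / 128) * (83356143199453 / 17226540000000)) * p + (73097 / 1000000 + (x - 7 / 128) * (-1088311 / 200000)) * p ^ 2 := by
  rcases eq_or_lt_of_le h1 with h | h1
  · subst h
    rw [kvh16 (by norm_num) (by norm_num)]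
    ring1
  · exact kvh17 h1 h2
theorem kvl18 {p x : ℝ} (h1 : 49 / 100 ≤ p) (h2 : p ≤ 1 / 2) : dt37.kv p x = (29307 / 400000 + (x - 7 / 128) * (-8096763 / 40000000)) + (-22909801 / 25000000 + (x - 7 / 128) * (27405257 / 20000000)) * p + (3287 / 125000 + (x - 7 / 128) * (-380443 / 200000)) * p ^ 2 := by
  rcases eq_or_lt_of_le h1 with h | h1
  · subst h
    rw [kvh17 (by norm_num) (by norm_num)]
    ring1
  · exact kvh18 h1 h2
theorem kfe {x p : ℝ} (h : |p| ≤ 1 / 2) : kcg.v p x = dt37.kv p x := by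
  obtain ⟨h1, h2⟩ := abs_le.1 h
  rcases le_total p (-49 / 100) with g0 | g1000
  · rw [kcl0 (by linarith) g0, kvl0 (by linarith) g0]
  rcases le_total p (-661 / 1387) with g1 | g1001
  · rw [kcl1 g1000 g1, kvl1 g1000 g1]
  rcases le_total p (-23 / 50) with g2 | g1002
  · rw [kcl2 g1001 g2, kvl2 g1001 g2]
  rcases le_total p (-191 / 434) with g3 | g1003
  · rw [kcl3 g1002 g3, kvl3 g1002 g3]
  rcases le_total p (-41 / 100) with g4 | g1004
  · rw [kcl4 g1003 g4, kvl4 g1003 g4]
  rcases le_total p (-7 / 20) with g5 | g1005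
  · rw [kcl5 g1004 g5, kvl5 g1004 g5]
  rcases le_total p (-1 / 4) with g6 | g1006
  · rw [kcl6 g1005 g6, kvl6 g1005 g6]
  rcases le_total p (-3 / 20) with g7 | g1007
  · rw [kcl7 g1006 g7, kvl7 g1006 g7]
  rcases le_total p (-3 / 50) with g8 | g1008
  · rw [kcl8 g1007 g8, kvl8 g1007 g8]
  rcases le_total p (3 / 50) with g9 | g1009
  · rw [kcl9 g1008 g9, kvl9 g1008 g9]
  rcases le_total p (3 / 20) with g10 | g1010
  · rw [kcl10 g1009 g10, kvl10 g1009 g10]
  rcases le_total p (1 / 4) with g11 | g1011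
  · rw [kcl11 g1010 g11, kvl11 g1010 g11]
  rcases le_total p (7 / 20) with g12 | g1012
  · rw [kcl12 g1011 g12, kvl12 g1011 g12]
  rcases le_total p (41 / 100) with g13 | g1013
  · rw [kcl13 g1012 g13, kvl13 g1012 g13]
  rcases le_total p (191 / 434) with g14 | g1014
  · rw [kcl14 g1013 g14, kvl14 g1013 g14]
  rcases le_total p (23 / 50) with g15 | g1015
  · rw [kcl15 g1014 g15, kvl15 g1014 g15]
  rcases le_total p (661 / 1387) with g16 | g1016
  · rw [kcl16 g1015 g16, kvl16 g1015 g16]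
  rcases le_total p (49 / 100) with g17 | g1017
  · rw [kcl17 g1016 g17, kvl17 g1016 g17]
  · rw [kcl18 g1017 (by linarith), kvl18 g1017 (by linarith)]
theorem odd {x p : ℝ} (h : |p| ≤ 1 / 2) : kcg.v (-p) x = -kcg.v p x := by
  obtain ⟨h1, h2⟩ := abs_le.1 h
  rcases le_total p (-49 / 100) with g0 | g1000
  · rw [kcl0 (by linarith) g0, kcl18 (p := -p) (by linarith) (by linarith)]; ring
  rcases le_total p (-661 / 1387) with g1 | g1001
  · rw [kcl1 g1000 g1, kcl17 (p := -p) (by linarith) (by linarith)]; ring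
  rcases le_total p (-23 / 50) with g2 | g1002
  · rw [kcl2 g1001 g2, kcl16 (p := -p) (by linarith) (by linarith)]; ring
  rcases le_total p (-191 / 434) with g3 | g1003
  · rw [kcl3 g1002 g3, kcl15 (p := -p) (by linarith) (by linarith)]; ring
  rcases le_total p (-41 / 100) with g4 | g1004
  · rw [kcl4 g1003 g4, kcl14 (p := -p) (by linarith) (by linarith)]; ring
  rcases le_total p (-7 / 20) with g5 | g1005
  · rw [kcl5 g1004 g5, kcl13 (p := -p) (by linarith) (by linarith)]; ring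
  rcases le_total p (-1 / 4) with g6 | g1006
  · rw [kcl6 g1005 g6, kcl12 (p := -p) (by linarith) (by linarith)]; ring
  rcases le_total p (-3 / 20) with g7 | g1007
  · rw [kcl7 g1006 g7, kcl11 (p := -p) (by linarith) (by linarith)]; ring
  rcases le_total p (-3 / 50) with g8 | g1008
  · rw [kcl8 g1007 g8, kcl10 (p := -p) (by linarith) (by linarith)]; ring
  rcases le_total p (3 / 50) with g9 | g1009
  · rw [kcl9 g1008 g9, kcl9 (p := -p) (by linarith) (by linarith)]; ring
  rcases le_total p (3 / 20) with g10 | g1010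
  · rw [kcl10 g1009 g10, kcl8 (p := -p) (by linarith) (by linarith)]; ring
  rcases le_total p (1 / 4) with g11 | g1011
  · rw [kcl11 g1010 g11, kcl7 (p := -p) (by linarith) (by linarith)]; ring
  rcases le_total p (7 / 20) with g12 | g1012
  · rw [kcl12 g1011 g12, kcl6 (p := -p) (by linarith) (by linarith)]; ring
  rcases le_total p (41 / 100) with g13 | g1013
  · rw [kcl13 g1012 g13, kcl5 (p := -p) (by linarith) (by linarith)]; ring
  rcases le_total p (191 / 434) with g14 | g1014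
  · rw [kcl14 g1013 g14, kcl4 (p := -p) (by linarith) (by linarith)]; ring
  rcases le_total p (23 / 50) with g15 | g1015
  · rw [kcl15 g1014 g15, kcl3 (p := -p) (by linarith) (by linarith)]; ring
  rcases le_total p (661 / 1387) with g16 | g1016
  · rw [kcl16 g1015 g16, kcl2 (p := -p) (by linarith) (by linarith)]; ring
  rcases le_total p (49 / 100) with g17 | g1017
  · rw [kcl17 g1016 g17, kcl1 (p := -p) (by linarith) (by linarith)]; ring
  · rw [kcl18 g1017 (by linarith), kcl0 (p := -p) (by linarith) (by linarith)]; ring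
theorem ctA : cT (-661 / 1387) = 2773 / 2774 := by
  unfold cT
  rw [show (3 / 4 * (1 - (-661 / 1387 : ℝ) ^ 2)) = (1056 / 1387) ^ 2 by norm_num, Real.sqrt_sq (by norm_num)]
  norm_num
theorem ctB : cT (-191 / 434) = 433 / 434 := by
  unfold cT
  rw [show (3 / 4 * (1 - (-191 / 434 : ℝ) ^ 2)) = (675 / 868) ^ 2 by norm_num, Real.sqrt_sq (by norm_num)]
  norm_num
theorem kgA {x : ℝ} : kcg.v (-661 / 1387) x = (35747501 / 100000000 + (x - 7 / 128) * (-89701 / 5000000)) := by
  rw [kcl1 (by norm_num) (by norm_num)]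
  ring
theorem kgB {x : ℝ} : kcg.v (-191 / 434) x = (16240001 / 50000000 + (x - 7 / 128) * (-251247 / 10000000)) := by
  rw [kcl3 (by norm_num) (by norm_num)]
  ring
theorem ka_dt1 (x : ℝ) : dt1.kv (-1 / 2) x = (9458863 / 25000000 + (x - 7 / 128) * (-35793 / 5000000)) := by
  simp only [dt1, DT.kv, sw1, sl1, sv1]
  ((try push_cast); ring1)
theorem kb_dt1 (x : ℝ) : dt1.kv (-49 / 100) x = (36945093 / 100000000 + (x - 7 / 128) * (-122879 / 10000000)) := by
  simp only [dt1, DT.kv, sw1, sl1, sv1]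
  ((try push_cast); ring1)
theorem ka_dt2 (x : ℝ) : dt2.kv (-49 / 100) x = (36945093 / 100000000 + (x - 7 / 128) * (-122879 / 10000000)) := by
  simp only [dt2, DT.kv, sw2, sl2, sv2]
  ((try push_cast); ring1)
theorem kb_dt2 (x : ℝ) : dt2.kv (-661 / 1387) x = (35747501 / 100000000 + (x - 7 / 128) * (-89701 / 5000000)) := by
  simp only [dt2, DT.kv, sw2, sl2, sv2]
  ((try push_cast); ring1)
theorem ka_dt20 (x : ℝ) : dt20.kv (-1 / 2) x = (9458863 / 25000000 + (x - 7 / 128) * (-35793 / 5000000)) :=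
  (DT.kv_le (by simp only [Cn.rt_v, Cn.ng_v]; norm_num)).trans (ka_dt1 x)
theorem kb_dt20 (x : ℝ) : dt20.kv (-661 / 1387) x = (35747501 / 100000000 + (x - 7 / 128) * (-89701 / 5000000)) :=
  (DT.kv_gt (by simp only [Cn.rt_v, Cn.ng_v]; norm_num)).trans (kb_dt2 x)
theorem ka_dt3 (x : ℝ) : dt3.kv (-661 / 1387) x = (35747501 / 100000000 + (x - 7 / 128) * (-89701 / 5000000)) := by
  simp only [dt3, DT.kv, sw3, sl3, sv3]
  ((try push_cast); ring1)
theorem kb_dt3 (x : ℝ) : dt3.kv (-23 / 50) x = (4283259 / 12500000 + (x - 7 / 128) * (-223973 / 10000000)) := by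
  simp only [dt3, DT.kv, sw3, sl3, sv3]
  ((try push_cast); ring1)
theorem ka_dt4 (x : ℝ) : dt4.kv (-23 / 50) x = (4283259 / 12500000 + (x - 7 / 128) * (-223973 / 10000000)) := by
  simp only [dt4, DT.kv, sw4, sl4, sv4]
  ((try push_cast); ring1)
theorem kb_dt4 (x : ℝ) : dt4.kv (-191 / 434) x = (16240001 / 50000000 + (x - 7 / 128) * (-251247 / 10000000)) := by
  simp only [dt4, DT.kv, sw4, sl4, sv4]
  ((try push_cast); ring1)
theorem ka_dt21 (x : ℝ) : dt21.kv (-661 / 1387) x = (35747501 / 100000000 + (x - 7 / 128) * (-89701 / 5000000)) :=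
  (DT.kv_le (by simp only [Cn.rt_v, Cn.ng_v]; norm_num)).trans (ka_dt3 x)
theorem kb_dt21 (x : ℝ) : dt21.kv (-191 / 434) x = (16240001 / 50000000 + (x - 7 / 128) * (-251247 / 10000000)) :=
  (DT.kv_gt (by simp only [Cn.rt_v, Cn.ng_v]; norm_num)).trans (kb_dt4 x)
theorem ka_dt22 (x : ℝ) : dt22.kv (-1 / 2) x = (9458863 / 25000000 + (x - 7 / 128) * (-35793 / 5000000)) :=
  (DT.kv_le (by simp only [Cn.rt_v, Cn.ng_v]; norm_num)).trans (ka_dt20 x)
theorem kb_dt22 (x : ℝ) : dt22.kv (-191 / 434) x = (16240001 / 50000000 + (x - 7 / 128) * (-251247 / 10000000)) :=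
  (DT.kv_gt (by simp only [Cn.rt_v, Cn.ng_v]; norm_num)).trans (kb_dt21 x)
theorem ka_dt5 (x : ℝ) : dt5.kv (-191 / 434) x = (16240001 / 50000000 + (x - 7 / 128) * (-251247 / 10000000)) := by
  simp only [dt5, DT.kv, sw5, sl5, sv5]
  ((try push_cast); ring1)
theorem kb_dt5 (x : ℝ) : dt5.kv (-41 / 100) x = (14886901 / 50000000 + (x - 7 / 128) * (-262791 / 10000000)) := by
  simp only [dt5, DT.kv, sw5, sl5, sv5]
  ((try push_cast); ring1)
theorem ka_dt6 (x : ℝ) : dt6.kv (-41 / 100) x = (14886901 / 50000000 + (x - 7 / 128) * (-262791 / 10000000)) := by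
  simp only [dt6, DT.kv, sw6, sl6, sv6]
  ((try push_cast); ring1)
theorem kb_dt6 (x : ℝ) : dt6.kv (-7 / 20) x = (24376909 / 100000000 + (x - 7 / 128) * (-59029 / 2500000)) := by
  simp only [dt6, DT.kv, sw6, sl6, sv6]
  ((try push_cast); ring1)
theorem ka_dt23 (x : ℝ) : dt23.kv (-191 / 434) x = (16240001 / 50000000 + (x - 7 / 128) * (-251247 / 10000000)) :=
  (DT.kv_le (by simp only [Cn.rt_v, Cn.ng_v]; norm_num)).trans (ka_dt5 x)
theorem kb_dt23 (x : ℝ) : dt23.kv (-7 / 20) x = (24376909 / 100000000 + (x - 7 / 128) * (-59029 / 2500000)) :=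
  (DT.kv_gt (by simp only [Cn.rt_v, Cn.ng_v]; norm_num)).trans (kb_dt6 x)
theorem ka_dt7 (x : ℝ) : dt7.kv (-7 / 20) x = (24376909 / 100000000 + (x - 7 / 128) * (-59029 / 2500000)) := by
  simp only [dt7, DT.kv, sw7, sl7, sv7]
  ((try push_cast); ring1)
theorem kb_dt7 (x : ℝ) : dt7.kv (-1 / 4) x = (15414729 / 100000000 + (x - 7 / 128) * (-34471 / 2500000)) := by
  simp only [dt7, DT.kv, sw7, sl7, sv7]
  ((try push_cast); ring1)
theorem ka_dt8 (x : ℝ) : dt8.kv (-1 / 4) x = (15414729 / 100000000 + (x - 7 / 128) * (-34471 / 2500000)) := by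
  simp only [dt8, DT.kv, sw8, sl8, sv8]
  ((try push_cast); ring1)
theorem kb_dt8 (x : ℝ) : dt8.kv (-3 / 20) x = (6569509 / 100000000 + (x - 7 / 128) * (-38191 / 10000000)) := by
  simp only [dt8, DT.kv, sw8, sl8, sv8]
  ((try push_cast); ring1)
theorem ka_dt9 (x : ℝ) : dt9.kv (-3 / 20) x = (6569509 / 100000000 + (x - 7 / 128) * (-38191 / 10000000)) := by
  simp only [dt9, DT.kv, sw9, sl9, sv9]
  ((try push_cast); ring1)
theorem kb_dt9 (x : ℝ) : dt9.kv (-3 / 50) x = (1502457 / 100000000) := by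
  simp only [dt9, DT.kv, sw9, sl9, sv9]
  ((try push_cast); ring1)
theorem ka_dt24 (x : ℝ) : dt24.kv (-1 / 4) x = (15414729 / 100000000 + (x - 7 / 128) * (-34471 / 2500000)) :=
  (DT.kv_le (by simp only [Cn.rt_v, Cn.ng_v]; norm_num)).trans (ka_dt8 x)
theorem kb_dt24 (x : ℝ) : dt24.kv (-3 / 50) x = (1502457 / 100000000) :=
  (DT.kv_gt (by simp only [Cn.rt_v, Cn.ng_v]; norm_num)).trans (kb_dt9 x)
theorem ka_dt25 (x : ℝ) : dt25.kv (-7 / 20) x = (24376909 / 100000000 + (x - 7 / 128) * (-59029 / 2500000)) :=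
  (DT.kv_le (by simp only [Cn.rt_v, Cn.ng_v]; norm_num)).trans (ka_dt7 x)
theorem kb_dt25 (x : ℝ) : dt25.kv (-3 / 50) x = (1502457 / 100000000) :=
  (DT.kv_gt (by simp only [Cn.rt_v, Cn.ng_v]; norm_num)).trans (kb_dt24 x)
theorem ka_dt26 (x : ℝ) : dt26.kv (-191 / 434) x = (16240001 / 50000000 + (x - 7 / 128) * (-251247 / 10000000)) :=
  (DT.kv_le (by simp only [Cn.rt_v, Cn.ng_v]; norm_num)).trans (ka_dt23 x)
theorem kb_dt26 (x : ℝ) : dt26.kv (-3 / 50) x = (1502457 / 100000000) :=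
  (DT.kv_gt (by simp only [Cn.rt_v, Cn.ng_v]; norm_num)).trans (kb_dt25 x)
theorem ka_dt27 (x : ℝ) : dt27.kv (-1 / 2) x = (9458863 / 25000000 + (x - 7 / 128) * (-35793 / 5000000)) :=
  (DT.kv_le (by simp only [Cn.rt_v, Cn.ng_v]; norm_num)).trans (ka_dt22 x)
theorem kb_dt27 (x : ℝ) : dt27.kv (-3 / 50) x = (1502457 / 100000000) :=
  (DT.kv_gt (by simp only [Cn.rt_v, Cn.ng_v]; norm_num)).trans (kb_dt26 x)
theorem ka_dt10 (x : ℝ) : dt10.kv (-3 / 50) x = (1502457 / 100000000) := by
  simp only [dt10, DT.kv, sl10, sv10]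
  ((try push_cast); ring1)
theorem kb_dt10 (x : ℝ) : dt10.kv (3 / 50) x = (-1502457 / 100000000) := by
  simp only [dt10, DT.kv, sl10, sv10]
  ((try push_cast); ring1)
theorem ka_dt11 (x : ℝ) : dt11.kv (3 / 50) x = (-1502457 / 100000000) := by
  simp only [dt11, DT.kv, sw11, sl11, sv11]
  ((try push_cast); ring1)
theorem kb_dt11 (x : ℝ) : dt11.kv (3 / 20) x = (-6569509 / 100000000 + (x - 7 / 128) * (38191 / 10000000)) := by
  simp only [dt11, DT.kv, sw11, sl11, sv11]
  ((try push_cast); ring1)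
theorem ka_dt28 (x : ℝ) : dt28.kv (-3 / 50) x = (1502457 / 100000000) :=
  (DT.kv_le (by simp only [Cn.rt_v, Cn.ng_v]; norm_num)).trans (ka_dt10 x)
theorem kb_dt28 (x : ℝ) : dt28.kv (3 / 20) x = (-6569509 / 100000000 + (x - 7 / 128) * (38191 / 10000000)) :=
  (DT.kv_gt (by simp only [Cn.rt_v, Cn.ng_v]; norm_num)).trans (kb_dt11 x)
theorem ka_dt12 (x : ℝ) : dt12.kv (3 / 20) x = (-6569509 / 100000000 + (x - 7 / 128) * (38191 / 10000000)) := by
  simp only [dt12, DT.kv, sw12, sl12, sv12]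
  ((try push_cast); ring1)
theorem kb_dt12 (x : ℝ) : dt12.kv (1 / 4) x = (-15414729 / 100000000 + (x - 7 / 128) * (34471 / 2500000)) := by
  simp only [dt12, DT.kv, sw12, sl12, sv12]
  ((try push_cast); ring1)
theorem ka_dt13 (x : ℝ) : dt13.kv (1 / 4) x = (-15414729 / 100000000 + (x - 7 / 128) * (34471 / 2500000)) := by
  simp only [dt13, DT.kv, sw13, sl13, sv13]
  ((try push_cast); ring1)
theorem kb_dt13 (x : ℝ) : dt13.kv (7 / 20) x = (-24376909 / 100000000 + (x - 7 / 128) * (59029 / 2500000)) := by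
  simp only [dt13, DT.kv, sw13, sl13, sv13]
  ((try push_cast); ring1)
theorem ka_dt14 (x : ℝ) : dt14.kv (7 / 20) x = (-24376909 / 100000000 + (x - 7 / 128) * (59029 / 2500000)) := by
  simp only [dt14, DT.kv, sw14, sl14, sv14]
  ((try push_cast); ring1)
theorem kb_dt14 (x : ℝ) : dt14.kv (41 / 100) x = (-14886901 / 50000000 + (x - 7 / 128) * (262791 / 10000000)) := by
  simp only [dt14, DT.kv, sw14, sl14, sv14]
  ((try push_cast); ring1)
theorem ka_dt29 (x : ℝ) : dt29.kv (1 / 4) x = (-15414729 / 100000000 + (x - 7 / 128) * (34471 / 2500000)) :=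
  (DT.kv_le (by simp only [Cn.rt_v, Cn.ng_v]; norm_num)).trans (ka_dt13 x)
theorem kb_dt29 (x : ℝ) : dt29.kv (41 / 100) x = (-14886901 / 50000000 + (x - 7 / 128) * (262791 / 10000000)) :=
  (DT.kv_gt (by simp only [Cn.rt_v, Cn.ng_v]; norm_num)).trans (kb_dt14 x)
theorem ka_dt30 (x : ℝ) : dt30.kv (3 / 20) x = (-6569509 / 100000000 + (x - 7 / 128) * (38191 / 10000000)) :=
  (DT.kv_le (by simp only [Cn.rt_v, Cn.ng_v]; norm_num)).trans (ka_dt12 x)
theorem kb_dt30 (x : ℝ) : dt30.kv (41 / 100) x = (-14886901 / 50000000 + (x - 7 / 128) * (262791 / 10000000)) :=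
  (DT.kv_gt (by simp only [Cn.rt_v, Cn.ng_v]; norm_num)).trans (kb_dt29 x)
theorem ka_dt31 (x : ℝ) : dt31.kv (-3 / 50) x = (1502457 / 100000000) :=
  (DT.kv_le (by simp only [Cn.rt_v, Cn.ng_v]; norm_num)).trans (ka_dt28 x)
theorem kb_dt31 (x : ℝ) : dt31.kv (41 / 100) x = (-14886901 / 50000000 + (x - 7 / 128) * (262791 / 10000000)) :=
  (DT.kv_gt (by simp only [Cn.rt_v, Cn.ng_v]; norm_num)).trans (kb_dt30 x)
theorem ka_dt15 (x : ℝ) : dt15.kv (41 / 100) x = (-14886901 / 50000000 + (x - 7 / 128) * (262791 / 10000000)) := by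
  simp only [dt15, DT.kv, sw15, sl15, sv15]
  ((try push_cast); ring1)
theorem kb_dt15 (x : ℝ) : dt15.kv (191 / 434) x = (-16240001 / 50000000 + (x - 7 / 128) * (251247 / 10000000)) := by
  simp only [dt15, DT.kv, sw15, sl15, sv15]
  ((try push_cast); ring1)
theorem ka_dt16 (x : ℝ) : dt16.kv (191 / 434) x = (-16240001 / 50000000 + (x - 7 / 128) * (251247 / 10000000)) := by
  simp only [dt16, DT.kv, sw16, sl16, sv16]
  ((try push_cast); ring1)
theorem kb_dt16 (x : ℝ) : dt16.kv (23 / 50) x = (-4283259 / 12500000 + (x - 7 / 128) * (223973 / 10000000)) := by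
  simp only [dt16, DT.kv, sw16, sl16, sv16]
  ((try push_cast); ring1)
theorem ka_dt32 (x : ℝ) : dt32.kv (41 / 100) x = (-14886901 / 50000000 + (x - 7 / 128) * (262791 / 10000000)) :=
  (DT.kv_le (by simp only [Cn.rt_v, Cn.ng_v]; norm_num)).trans (ka_dt15 x)
theorem kb_dt32 (x : ℝ) : dt32.kv (23 / 50) x = (-4283259 / 12500000 + (x - 7 / 128) * (223973 / 10000000)) :=
  (DT.kv_gt (by simp only [Cn.rt_v, Cn.ng_v]; norm_num)).trans (kb_dt16 x)
theorem ka_dt17 (x : ℝ) : dt17.kv (23 / 50) x = (-4283259 / 12500000 + (x - 7 / 128) * (223973 / 10000000)) := by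
  simp only [dt17, DT.kv, sw17, sl17, sv17]
  ((try push_cast); ring1)
theorem kb_dt17 (x : ℝ) : dt17.kv (661 / 1387) x = (-35747501 / 100000000 + (x - 7 / 128) * (89701 / 5000000)) := by
  simp only [dt17, DT.kv, sw17, sl17, sv17]
  ((try push_cast); ring1)
theorem ka_dt18 (x : ℝ) : dt18.kv (661 / 1387) x = (-35747501 / 100000000 + (x - 7 / 128) * (89701 / 5000000)) := by
  simp only [dt18, DT.kv, sw18, sl18, sv18]
  ((try push_cast); ring1)
theorem kb_dt18 (x : ℝ) : dt18.kv (49 / 100) x = (-36945093 / 100000000 + (x - 7 / 128) * (122879 / 10000000)) := by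
  simp only [dt18, DT.kv, sw18, sl18, sv18]
  ((try push_cast); ring1)
theorem ka_dt19 (x : ℝ) : dt19.kv (49 / 100) x = (-36945093 / 100000000 + (x - 7 / 128) * (122879 / 10000000)) := by
  simp only [dt19, DT.kv, sw19, sl19, sv19]
  ((try push_cast); ring1)
theorem kb_dt19 (x : ℝ) : dt19.kv (1 / 2) x = (-9458863 / 25000000 + (x - 7 / 128) * (35793 / 5000000)) := by
  simp only [dt19, DT.kv, sw19, sl19, sv19]
  ((try push_cast); ring1)
theorem ka_dt33 (x : ℝ) : dt33.kv (661 / 1387) x = (-35747501 / 100000000 + (x - 7 / 128) * (89701 / 5000000)) :=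
  (DT.kv_le (by simp only [Cn.rt_v, Cn.ng_v]; norm_num)).trans (ka_dt18 x)
theorem kb_dt33 (x : ℝ) : dt33.kv (1 / 2) x = (-9458863 / 25000000 + (x - 7 / 128) * (35793 / 5000000)) :=
  (DT.kv_gt (by simp only [Cn.rt_v, Cn.ng_v]; norm_num)).trans (kb_dt19 x)
theorem ka_dt34 (x : ℝ) : dt34.kv (23 / 50) x = (-4283259 / 12500000 + (x - 7 / 128) * (223973 / 10000000)) :=
  (DT.kv_le (by simp only [Cn.rt_v, Cn.ng_v]; norm_num)).trans (ka_dt17 x)
theorem kb_dt34 (x : ℝ) : dt34.kv (1 / 2) x = (-9458863 / 25000000 + (x - 7 / 128) * (35793 / 5000000)) :=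
  (DT.kv_gt (by simp only [Cn.rt_v, Cn.ng_v]; norm_num)).trans (kb_dt33 x)
theorem ka_dt35 (x : ℝ) : dt35.kv (41 / 100) x = (-14886901 / 50000000 + (x - 7 / 128) * (262791 / 10000000)) :=
  (DT.kv_le (by simp only [Cn.rt_v, Cn.ng_v]; norm_num)).trans (ka_dt32 x)
theorem kb_dt35 (x : ℝ) : dt35.kv (1 / 2) x = (-9458863 / 25000000 + (x - 7 / 128) * (35793 / 5000000)) :=
  (DT.kv_gt (by simp only [Cn.rt_v, Cn.ng_v]; norm_num)).trans (kb_dt34 x)
theorem ka_dt36 (x : ℝ) : dt36.kv (-3 / 50) x = (1502457 / 100000000) :=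
  (DT.kv_le (by simp only [Cn.rt_v, Cn.ng_v]; norm_num)).trans (ka_dt31 x)
theorem kb_dt36 (x : ℝ) : dt36.kv (1 / 2) x = (-9458863 / 25000000 + (x - 7 / 128) * (35793 / 5000000)) :=
  (DT.kv_gt (by simp only [Cn.rt_v, Cn.ng_v]; norm_num)).trans (kb_dt35 x)
theorem ka_dt37 (x : ℝ) : dt37.kv (-1 / 2) x = (9458863 / 25000000 + (x - 7 / 128) * (-35793 / 5000000)) :=
  (DT.kv_le (by simp only [Cn.rt_v, Cn.ng_v]; norm_num)).trans (ka_dt27 x)
theorem kb_dt37 (x : ℝ) : dt37.kv (1 / 2) x = (-9458863 / 25000000 + (x - 7 / 128) * (35793 / 5000000)) :=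
  (DT.kv_gt (by simp only [Cn.rt_v, Cn.ng_v]; norm_num)).trans (kb_dt36 x)
theorem ko_dt1 (x : ℝ) : dt1.KOk x := trivial
theorem ko_dt2 (x : ℝ) : dt2.KOk x := trivial
theorem ko_dt20 (x : ℝ) : dt20.KOk x :=
  DT.kOk_node (v := -49 / 100) (by simp only [Cn.rt_v, Cn.ng_v]; norm_num) (kb_dt1 x) (ka_dt2 x) (by ring1) (ko_dt1 x) (ko_dt2 x)
theorem ko_dt3 (x : ℝ) : dt3.KOk x := trivial
theorem ko_dt4 (x : ℝ) : dt4.KOk x := trivial
theorem ko_dt21 (x : ℝ) : dt21.KOk x :=
  DT.kOk_node (v := -23 / 50) (by simp only [Cn.rt_v, Cn.ng_v]; norm_num) (kb_dt3 x) (ka_dt4 x) (by ring1) (ko_dt3 x) (ko_dt4 x)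
theorem ko_dt22 (x : ℝ) : dt22.KOk x :=
  DT.kOk_node (v := -661 / 1387) (by simp only [Cn.rt_v, Cn.ng_v]; norm_num) (kb_dt20 x) (ka_dt21 x) (by ring1) (ko_dt20 x) (ko_dt21 x)
theorem ko_dt5 (x : ℝ) : dt5.KOk x := trivial
theorem ko_dt6 (x : ℝ) : dt6.KOk x := trivial
theorem ko_dt23 (x : ℝ) : dt23.KOk x :=
  DT.kOk_node (v := -41 / 100) (by simp only [Cn.rt_v, Cn.ng_v]; norm_num) (kb_dt5 x) (ka_dt6 x) (by ring1) (ko_dt5 x) (ko_dt6 x)
theorem ko_dt7 (x : ℝ) : dt7.KOk x := trivial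
theorem ko_dt8 (x : ℝ) : dt8.KOk x := trivial
theorem ko_dt9 (x : ℝ) : dt9.KOk x := trivial
theorem ko_dt24 (x : ℝ) : dt24.KOk x :=
  DT.kOk_node (v := -3 / 20) (by simp only [Cn.rt_v, Cn.ng_v]; norm_num) (kb_dt8 x) (ka_dt9 x) (by ring1) (ko_dt8 x) (ko_dt9 x)
theorem ko_dt25 (x : ℝ) : dt25.KOk x :=
  DT.kOk_node (v := -1 / 4) (by simp only [Cn.rt_v, Cn.ng_v]; norm_num) (kb_dt7 x) (ka_dt24 x) (by ring1) (ko_dt7 x) (ko_dt24 x)
theorem ko_dt26 (x : ℝ) : dt26.KOk x :=
  DT.kOk_node (v := -7 / 20) (by simp only [Cn.rt_v, Cn.ng_v]; norm_num) (kb_dt23 x) (ka_dt25 x) (by ring1) (ko_dt23 x) (ko_dt25 x)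
theorem ko_dt27 (x : ℝ) : dt27.KOk x :=
  DT.kOk_node (v := -191 / 434) (by simp only [Cn.rt_v, Cn.ng_v]; norm_num) (kb_dt22 x) (ka_dt26 x) (by ring1) (ko_dt22 x) (ko_dt26 x)
theorem ko_dt10 (x : ℝ) : dt10.KOk x := trivial
theorem ko_dt11 (x : ℝ) : dt11.KOk x := trivial
theorem ko_dt28 (x : ℝ) : dt28.KOk x :=
  DT.kOk_node (v := 3 / 50) (by simp only [Cn.rt_v, Cn.ng_v]; norm_num) (kb_dt10 x) (ka_dt11 x) (by ring1) (ko_dt10 x) (ko_dt11 x)
theorem ko_dt12 (x : ℝ) : dt12.KOk x := trivial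
theorem ko_dt13 (x : ℝ) : dt13.KOk x := trivial
theorem ko_dt14 (x : ℝ) : dt14.KOk x := trivial
theorem ko_dt29 (x : ℝ) : dt29.KOk x :=
  DT.kOk_node (v := 7 / 20) (by simp only [Cn.rt_v, Cn.ng_v]; norm_num) (kb_dt13 x) (ka_dt14 x) (by ring1) (ko_dt13 x) (ko_dt14 x)
theorem ko_dt30 (x : ℝ) : dt30.KOk x :=
  DT.kOk_node (v := 1 / 4) (by simp only [Cn.rt_v, Cn.ng_v]; norm_num) (kb_dt12 x) (ka_dt29 x) (by ring1) (ko_dt12 x) (ko_dt29 x)
theorem ko_dt31 (x : ℝ) : dt31.KOk x :=
  DT.kOk_node (v := 3 / 20) (by simp only [Cn.rt_v, Cn.ng_v]; norm_num) (kb_dt28 x) (ka_dt30 x) (by ring1) (ko_dt28 x) (ko_dt30 x)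
theorem ko_dt15 (x : ℝ) : dt15.KOk x := trivial
theorem ko_dt16 (x : ℝ) : dt16.KOk x := trivial
theorem ko_dt32 (x : ℝ) : dt32.KOk x :=
  DT.kOk_node (v := 191 / 434) (by simp only [Cn.rt_v, Cn.ng_v]; norm_num) (kb_dt15 x) (ka_dt16 x) (by ring1) (ko_dt15 x) (ko_dt16 x)
theorem ko_dt17 (x : ℝ) : dt17.KOk x := trivial
theorem ko_dt18 (x : ℝ) : dt18.KOk x := trivial
theorem ko_dt19 (x : ℝ) : dt19.KOk x := trivial
theorem ko_dt33 (x : ℝ) : dt33.KOk x :=
  DT.kOk_node (v := 49 / 100) (by simp only [Cn.rt_v, Cn.ng_v]; norm_num) (kb_dt18 x) (ka_dt19 x) (by ring1) (ko_dt18 x) (ko_dt19 x)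
theorem ko_dt34 (x : ℝ) : dt34.KOk x :=
  DT.kOk_node (v := 661 / 1387) (by simp only [Cn.rt_v, Cn.ng_v]; norm_num) (kb_dt17 x) (ka_dt33 x) (by ring1) (ko_dt17 x) (ko_dt33 x)
theorem ko_dt35 (x : ℝ) : dt35.KOk x :=
  DT.kOk_node (v := 23 / 50) (by simp only [Cn.rt_v, Cn.ng_v]; norm_num) (kb_dt32 x) (ka_dt34 x) (by ring1) (ko_dt32 x) (ko_dt34 x)
theorem ko_dt36 (x : ℝ) : dt36.KOk x :=
  DT.kOk_node (v := 41 / 100) (by simp only [Cn.rt_v, Cn.ng_v]; norm_num) (kb_dt31 x) (ka_dt35 x) (by ring1) (ko_dt31 x) (ko_dt35 x)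
theorem ko_dt37 (x : ℝ) : dt37.KOk x :=
  DT.kOk_node (v := -3 / 50) (by simp only [Cn.rt_v, Cn.ng_v]; norm_num) (kb_dt27 x) (ka_dt36 x) (by ring1) (ko_dt27 x) (ko_dt36 x)
theorem txl0 {p c x : ℝ} (h1 : -1 / 2 ≤ p) (h2 : p ≤ -479 / 1000) : txg.v p c x = dt72.val (fun p x => kcg.v p x) p c x := by
  symm
  refine (DT.val_le (by simp only [Cn.rt_v, Cn.ng_v]; push_cast; linarith)).trans ?_
  refine (DT.val_le (by simp only [Cn.rt_v, Cn.ng_v]; push_cast; linarith)).trans ?_
  refine (DT.val_le (by simp only [Cn.rt_v, Cn.ng_v]; push_cast; linarith)).trans ?_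
  refine (DT.val_le (by simp only [Cn.rt_v, Cn.ng_v]; push_cast; linarith)).trans ?_
  simp only [dt38, DT.val, cloR, sw38, sl38, sv38, txg, txg_4, txg_6, txg_27, txg_63, txg_77, txg_80, txg_83, txg_86, txg_113, txg_157, txg_160, txg_198, txg_234, txg_235, txg_236, txg_275, txg_314, txg_315, txg_353]
  rcases eq_or_lt_of_le h1 with h | h1
  · subst h
    ((try push_cast); (repeat first | rw [if_pos (by linarith)] | rw [if_neg (by linarith)] | erw [if_pos (by linarith)] | erw [if_neg (by linarith)]); (try push_cast); (try ring1))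
  rcases eq_or_lt_of_le h2 with h | h2
  · subst h
    ((try push_cast); (repeat first | rw [if_pos (by linarith)] | rw [if_neg (by linarith)] | erw [if_pos (by linarith)] | erw [if_neg (by linarith)]); (try push_cast); (try ring1))
  · ((try push_cast); (repeat first | rw [if_pos (by linarith)] | rw [if_neg (by linarith)] | erw [if_pos (by linarith)] | erw [if_neg (by linarith)]); (try push_cast); (try ring1))
theorem txl1 {p c x : ℝ} (h1 : -479 / 1000 < p) (h2 : p ≤ -661 / 1387) : txg.v p c x = dt72.val (fun p x => kcg.v p x) p c x := by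
  symm
  refine (DT.val_le (by simp only [Cn.rt_v, Cn.ng_v]; push_cast; linarith)).trans ?_
  refine (DT.val_le (by simp only [Cn.rt_v, Cn.ng_v]; push_cast; linarith)).trans ?_
  refine (DT.val_le (by simp only [Cn.rt_v, Cn.ng_v]; push_cast; linarith)).trans ?_
  refine (DT.val_gt (by simp only [Cn.rt_v, Cn.ng_v]; push_cast; linarith)).trans ?_
  simp only [dt39, DT.val, cloR, sw39, sl39, sl39_2, sv39, sv39_2, txg, txg_4, txg_6, txg_27, txg_63, txg_77, txg_80, txg_83, txg_86, txg_113, txg_157, txg_160, txg_198, txg_234, txg_235, txg_236, txg_275, txg_314, txg_315, txg_353]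
  rcases eq_or_lt_of_le h2 with h | h2
  · subst h
    ((try push_cast); (repeat first | rw [if_pos (by linarith)] | rw [if_neg (by linarith)] | erw [if_pos (by linarith)] | erw [if_neg (by linarith)]); (try push_cast); (try ring1))
  · ((try push_cast); (repeat first | rw [if_pos (by linarith)] | rw [if_neg (by linarith)] | erw [if_pos (by linarith)] | erw [if_neg (by linarith)]); (try push_cast); (try ring1))
theorem txl2 {p c x : ℝ} (h1 : -661 / 1387 < p) (h2 : p ≤ -191 / 434) : txg.v p c x = dt72.val (fun p x => kcg.v p x) p c x := by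
  symm
  refine (DT.val_le (by simp only [Cn.rt_v, Cn.ng_v]; push_cast; linarith)).trans ?_
  refine (DT.val_le (by simp only [Cn.rt_v, Cn.ng_v]; push_cast; linarith)).trans ?_
  refine (DT.val_gt (by simp only [Cn.rt_v, Cn.ng_v]; push_cast; linarith)).trans ?_
  refine (DT.val_le (by simp only [Cn.rt_v, Cn.ng_v]; push_cast; linarith)).trans ?_
  simp only [dt40, DT.val, cloR, txg, txg_4, txg_6, txg_27, txg_63, txg_77, txg_80, txg_83, txg_86, txg_113, txg_157, txg_160, txg_198, txg_234, txg_235, txg_236, txg_275, txg_314, txg_315, txg_353]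
  rcases eq_or_lt_of_le h2 with h | h2
  · subst h
    ((try push_cast); (repeat first | rw [if_pos (by linarith)] | rw [if_neg (by linarith)] | erw [if_pos (by linarith)] | erw [if_neg (by linarith)]); (try push_cast); (try ring1))
  · ((try push_cast); (repeat first | rw [if_pos (by linarith)] | rw [if_neg (by linarith)] | erw [if_pos (by linarith)] | erw [if_neg (by linarith)]); (try push_cast); (try ring1))
theorem txl3 {p c x : ℝ} (h1 : -191 / 434 < p) (h2 : p ≤ -41 / 100) : txg.v p c x = dt72.val (fun p x => kcg.v p x) p c x := by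
  symm
  refine (DT.val_le (by simp only [Cn.rt_v, Cn.ng_v]; push_cast; linarith)).trans ?_
  refine (DT.val_le (by simp only [Cn.rt_v, Cn.ng_v]; push_cast; linarith)).trans ?_
  refine (DT.val_gt (by simp only [Cn.rt_v, Cn.ng_v]; push_cast; linarith)).trans ?_
  refine (DT.val_gt (by simp only [Cn.rt_v, Cn.ng_v]; push_cast; linarith)).trans ?_
  simp only [dt41, DT.val, cloR, sw41, sl41, sl41_2, sv41, sv41_2, txg, txg_4, txg_6, txg_27, txg_63, txg_77, txg_80, txg_83, txg_86, txg_113, txg_157, txg_160, txg_198, txg_234, txg_235, txg_236, txg_275, txg_314, txg_315, txg_353]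
  rcases eq_or_lt_of_le h2 with h | h2
  · subst h
    ((try push_cast); (repeat first | rw [if_pos (by linarith)] | rw [if_neg (by linarith)] | erw [if_pos (by linarith)] | erw [if_neg (by linarith)]); (try push_cast); (try ring1))
  · ((try push_cast); (repeat first | rw [if_pos (by linarith)] | rw [if_neg (by linarith)] | erw [if_pos (by linarith)] | erw [if_neg (by linarith)]); (try push_cast); (try ring1))
theorem txl4 {p c x : ℝ} (h1 : -41 / 100 < p) (h2 : p ≤ -9 / 25) : txg.v p c x = dt72.val (fun p x => kcg.v p x) p c x := by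
  symm
  refine (DT.val_le (by simp only [Cn.rt_v, Cn.ng_v]; push_cast; linarith)).trans ?_
  refine (DT.val_gt (by simp only [Cn.rt_v, Cn.ng_v]; push_cast; linarith)).trans ?_
  refine (DT.val_le (by simp only [Cn.rt_v, Cn.ng_v]; push_cast; linarith)).trans ?_
  refine (DT.val_le (by simp only [Cn.rt_v, Cn.ng_v]; push_cast; linarith)).trans ?_
  simp only [dt42, DT.val, cloR, sw42, sl42, sv42, txg, txg_4, txg_6, txg_27, txg_63, txg_77, txg_80, txg_83, txg_86, txg_113, txg_157, txg_160, txg_198, txg_234, txg_235, txg_236, txg_275, txg_314, txg_315, txg_353]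
  rcases eq_or_lt_of_le h2 with h | h2
  · subst h
    ((try push_cast); (repeat first | rw [if_pos (by linarith)] | rw [if_neg (by linarith)] | erw [if_pos (by linarith)] | erw [if_neg (by linarith)]); (try push_cast); (try ring1))
  · ((try push_cast); (repeat first | rw [if_pos (by linarith)] | rw [if_neg (by linarith)] | erw [if_pos (by linarith)] | erw [if_neg (by linarith)]); (try push_cast); (try ring1))
theorem txl5 {p c x : ℝ} (h1 : -9 / 25 < p) (h2 : p ≤ -3 / 10) : txg.v p c x = dt72.val (fun p x => kcg.v p x) p c x := by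
  symm
  refine (DT.val_le (by simp only [Cn.rt_v, Cn.ng_v]; push_cast; linarith)).trans ?_
  refine (DT.val_gt (by simp only [Cn.rt_v, Cn.ng_v]; push_cast; linarith)).trans ?_
  refine (DT.val_le (by simp only [Cn.rt_v, Cn.ng_v]; push_cast; linarith)).trans ?_
  refine (DT.val_gt (by simp only [Cn.rt_v, Cn.ng_v]; push_cast; linarith)).trans ?_
  simp only [dt43, DT.val, cloR, sw43, sl43, sv43, txg, txg_4, txg_6, txg_27, txg_63, txg_77, txg_80, txg_83, txg_86, txg_113, txg_157, txg_160, txg_198, txg_234, txg_235, txg_236, txg_275, txg_314, txg_315, txg_353]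
  rcases eq_or_lt_of_le h2 with h | h2
  · subst h
    ((try push_cast); (repeat first | rw [if_pos (by linarith)] | rw [if_neg (by linarith)] | erw [if_pos (by linarith)] | erw [if_neg (by linarith)]); (try push_cast); (try ring1))
  · ((try push_cast); (repeat first | rw [if_pos (by linarith)] | rw [if_neg (by linarith)] | erw [if_pos (by linarith)] | erw [if_neg (by linarith)]); (try push_cast); (try ring1))
theorem txl6 {p c x : ℝ} (h1 : -3 / 10 < p) (h2 : p ≤ -6 / 25) : txg.v p c x = dt72.val (fun p x => kcg.v p x) p c x := by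
  symm
  refine (DT.val_le (by simp only [Cn.rt_v, Cn.ng_v]; push_cast; linarith)).trans ?_
  refine (DT.val_gt (by simp only [Cn.rt_v, Cn.ng_v]; push_cast; linarith)).trans ?_
  refine (DT.val_gt (by simp only [Cn.rt_v, Cn.ng_v]; push_cast; linarith)).trans ?_
  refine (DT.val_le (by simp only [Cn.rt_v, Cn.ng_v]; push_cast; linarith)).trans ?_
  simp only [dt44, DT.val, cloR, sw44, sl44, sv44, txg, txg_4, txg_6, txg_27, txg_63, txg_77, txg_80, txg_83, txg_86, txg_113, txg_157, txg_160, txg_198, txg_234, txg_235, txg_236, txg_275, txg_314, txg_315, txg_353]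
  rcases eq_or_lt_of_le h2 with h | h2
  · subst h
    ((try push_cast); (repeat first | rw [if_pos (by linarith)] | rw [if_neg (by linarith)] | erw [if_pos (by linarith)] | erw [if_neg (by linarith)]); (try push_cast); (try ring1))
  · ((try push_cast); (repeat first | rw [if_pos (by linarith)] | rw [if_neg (by linarith)] | erw [if_pos (by linarith)] | erw [if_neg (by linarith)]); (try push_cast); (try ring1))
theorem txl7 {p c x : ℝ} (h1 : -6 / 25 < p) (h2 : p ≤ -9 / 50) : txg.v p c x = dt72.val (fun p x => kcg.v p x) p c x := by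
  symm
  refine (DT.val_le (by simp only [Cn.rt_v, Cn.ng_v]; push_cast; linarith)).trans ?_
  refine (DT.val_gt (by simp only [Cn.rt_v, Cn.ng_v]; push_cast; linarith)).trans ?_
  refine (DT.val_gt (by simp only [Cn.rt_v, Cn.ng_v]; push_cast; linarith)).trans ?_
  refine (DT.val_gt (by simp only [Cn.rt_v, Cn.ng_v]; push_cast; linarith)).trans ?_
  refine (DT.val_le (by simp only [Cn.rt_v, Cn.ng_v]; push_cast; linarith)).trans ?_
  simp only [dt45, DT.val, cloR, sw45, sl45, sv45, txg, txg_4, txg_6, txg_27, txg_63, txg_77, txg_80, txg_83, txg_86, txg_113, txg_157, txg_160, txg_198, txg_234, txg_235, txg_236, txg_275, txg_314, txg_315, txg_353]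
  rcases eq_or_lt_of_le h2 with h | h2
  · subst h
    ((try push_cast); (repeat first | rw [if_pos (by linarith)] | rw [if_neg (by linarith)] | erw [if_pos (by linarith)] | erw [if_neg (by linarith)]); (try push_cast); (try ring1))
  · ((try push_cast); (repeat first | rw [if_pos (by linarith)] | rw [if_neg (by linarith)] | erw [if_pos (by linarith)] | erw [if_neg (by linarith)]); (try push_cast); (try ring1))
theorem txl8 {p c x : ℝ} (h1 : -9 / 50 < p) (h2 : p ≤ -3 / 25) : txg.v p c x = dt72.val (fun p x => kcg.v p x) p c x := by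
  symm
  refine (DT.val_le (by simp only [Cn.rt_v, Cn.ng_v]; push_cast; linarith)).trans ?_
  refine (DT.val_gt (by simp only [Cn.rt_v, Cn.ng_v]; push_cast; linarith)).trans ?_
  refine (DT.val_gt (by simp only [Cn.rt_v, Cn.ng_v]; push_cast; linarith)).trans ?_
  refine (DT.val_gt (by simp only [Cn.rt_v, Cn.ng_v]; push_cast; linarith)).trans ?_
  refine (DT.val_gt (by simp only [Cn.rt_v, Cn.ng_v]; push_cast; linarith)).trans ?_
  simp only [dt46, DT.val, cloR, sw46, sl46, sv46, txg, txg_4, txg_6, txg_27, txg_63, txg_77, txg_80, txg_83, txg_86, txg_113, txg_157, txg_160, txg_198, txg_234, txg_235, txg_236, txg_275, txg_314, txg_315, txg_353]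
  rcases eq_or_lt_of_le h2 with h | h2
  · subst h
    ((try push_cast); (repeat first | rw [if_pos (by linarith)] | rw [if_neg (by linarith)] | erw [if_pos (by linarith)] | erw [if_neg (by linarith)]); (try push_cast); (try ring1))
  · ((try push_cast); (repeat first | rw [if_pos (by linarith)] | rw [if_neg (by linarith)] | erw [if_pos (by linarith)] | erw [if_neg (by linarith)]); (try push_cast); (try ring1))
theorem txl9 {p c x : ℝ} (h1 : -3 / 25 < p) (h2 : p ≤ -3 / 50) : txg.v p c x = dt72.val (fun p x => kcg.v p x) p c x := by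
  symm
  refine (DT.val_gt (by simp only [Cn.rt_v, Cn.ng_v]; push_cast; linarith)).trans ?_
  refine (DT.val_le (by simp only [Cn.rt_v, Cn.ng_v]; push_cast; linarith)).trans ?_
  refine (DT.val_le (by simp only [Cn.rt_v, Cn.ng_v]; push_cast; linarith)).trans ?_
  refine (DT.val_le (by simp only [Cn.rt_v, Cn.ng_v]; push_cast; linarith)).trans ?_
  simp only [dt47, DT.val, cloR, sw47, sl47, sv47, txg, txg_4, txg_6, txg_27, txg_63, txg_77, txg_80, txg_83, txg_86, txg_113, txg_157, txg_160, txg_198, txg_234, txg_235, txg_236, txg_275, txg_314, txg_315, txg_353]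
  rcases eq_or_lt_of_le h2 with h | h2
  · subst h
    ((try push_cast); (repeat first | rw [if_pos (by linarith)] | rw [if_neg (by linarith)] | erw [if_pos (by linarith)] | erw [if_neg (by linarith)]); (try push_cast); (try ring1))
  · ((try push_cast); (repeat first | rw [if_pos (by linarith)] | rw [if_neg (by linarith)] | erw [if_pos (by linarith)] | erw [if_neg (by linarith)]); (try push_cast); (try ring1))
theorem txl10 {p c x : ℝ} (h1 : -3 / 50 < p) (h2 : p ≤ 3 / 50) : txg.v p c x = dt72.val (fun p x => kcg.v p x) p c x := by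
  symm
  refine (DT.val_gt (by simp only [Cn.rt_v, Cn.ng_v]; push_cast; linarith)).trans ?_
  refine (DT.val_le (by simp only [Cn.rt_v, Cn.ng_v]; push_cast; linarith)).trans ?_
  refine (DT.val_le (by simp only [Cn.rt_v, Cn.ng_v]; push_cast; linarith)).trans ?_
  refine (DT.val_gt (by simp only [Cn.rt_v, Cn.ng_v]; push_cast; linarith)).trans ?_
  simp only [dt48, DT.val, cloR, sw48, sl48, sv48, txg, txg_4, txg_6, txg_27, txg_63, txg_77, txg_80, txg_83, txg_86, txg_113, txg_157, txg_160, txg_198, txg_234, txg_235, txg_236, txg_275, txg_314, txg_315, txg_353]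
  rcases eq_or_lt_of_le h2 with h | h2
  · subst h
    ((try push_cast); (repeat first | rw [if_pos (by linarith)] | rw [if_neg (by linarith)] | erw [if_pos (by linarith)] | erw [if_neg (by linarith)]); (try push_cast); (try ring1))
  · ((try push_cast); (repeat first | rw [if_pos (by linarith)] | rw [if_neg (by linarith)] | erw [if_pos (by linarith)] | erw [if_neg (by linarith)]); (try push_cast); (try ring1))
theorem txl11 {p c x : ℝ} (h1 : 3 / 50 < p) (h2 : p ≤ 3 / 25) : txg.v p c x = dt72.val (fun p x => kcg.v p x) p c x := by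
  symm
  refine (DT.val_gt (by simp only [Cn.rt_v, Cn.ng_v]; push_cast; linarith)).trans ?_
  refine (DT.val_le (by simp only [Cn.rt_v, Cn.ng_v]; push_cast; linarith)).trans ?_
  refine (DT.val_gt (by simp only [Cn.rt_v, Cn.ng_v]; push_cast; linarith)).trans ?_
  refine (DT.val_le (by simp only [Cn.rt_v, Cn.ng_v]; push_cast; linarith)).trans ?_
  simp only [dt49, DT.val, cloR, sw49, sl49, sv49, txg, txg_4, txg_6, txg_27, txg_63, txg_77, txg_80, txg_83, txg_86, txg_113, txg_157, txg_160, txg_198, txg_234, txg_235, txg_236, txg_275, txg_314, txg_315, txg_353]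
  rcases eq_or_lt_of_le h2 with h | h2
  · subst h
    ((try push_cast); (repeat first | rw [if_pos (by linarith)] | rw [if_neg (by linarith)] | erw [if_pos (by linarith)] | erw [if_neg (by linarith)]); (try push_cast); (try ring1))
  · ((try push_cast); (repeat first | rw [if_pos (by linarith)] | rw [if_neg (by linarith)] | erw [if_pos (by linarith)] | erw [if_neg (by linarith)]); (try push_cast); (try ring1))
theorem txl12 {p c x : ℝ} (h1 : 3 / 25 < p) (h2 : p ≤ 9 / 50) : txg.v p c x = dt72.val (fun p x => kcg.v p x) p c x := by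
  symm
  refine (DT.val_gt (by simp only [Cn.rt_v, Cn.ng_v]; push_cast; linarith)).trans ?_
  refine (DT.val_le (by simp only [Cn.rt_v, Cn.ng_v]; push_cast; linarith)).trans ?_
  refine (DT.val_gt (by simp only [Cn.rt_v, Cn.ng_v]; push_cast; linarith)).trans ?_
  refine (DT.val_gt (by simp only [Cn.rt_v, Cn.ng_v]; push_cast; linarith)).trans ?_
  simp only [dt50, DT.val, cloR, sw50, sl50, sv50, txg, txg_4, txg_6, txg_27, txg_63, txg_77, txg_80, txg_83, txg_86, txg_113, txg_157, txg_160, txg_198, txg_234, txg_235, txg_236, txg_275, txg_314, txg_315, txg_353]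
  rcases eq_or_lt_of_le h2 with h | h2
  · subst h
    ((try push_cast); (repeat first | rw [if_pos (by linarith)] | rw [if_neg (by linarith)] | erw [if_pos (by linarith)] | erw [if_neg (by linarith)]); (try push_cast); (try ring1))
  · ((try push_cast); (repeat first | rw [if_pos (by linarith)] | rw [if_neg (by linarith)] | erw [if_pos (by linarith)] | erw [if_neg (by linarith)]); (try push_cast); (try ring1))
theorem txl13 {p c x : ℝ} (h1 : 9 / 50 < p) (h2 : p ≤ 6 / 25) : txg.v p c x = dt72.val (fun p x => kcg.v p x) p c x := by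
  symm
  refine (DT.val_gt (by simp only [Cn.rt_v, Cn.ng_v]; push_cast; linarith)).trans ?_
  refine (DT.val_gt (by simp only [Cn.rt_v, Cn.ng_v]; push_cast; linarith)).trans ?_
  refine (DT.val_le (by simp only [Cn.rt_v, Cn.ng_v]; push_cast; linarith)).trans ?_
  refine (DT.val_le (by simp only [Cn.rt_v, Cn.ng_v]; push_cast; linarith)).trans ?_
  simp only [dt51, DT.val, cloR, sw51, sl51, sv51, txg, txg_4, txg_6, txg_27, txg_63, txg_77, txg_80, txg_83, txg_86, txg_113, txg_157, txg_160, txg_198, txg_234, txg_235, txg_236, txg_275, txg_314, txg_315, txg_353]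
  rcases eq_or_lt_of_le h2 with h | h2
  · subst h
    ((try push_cast); (repeat first | rw [if_pos (by linarith)] | rw [if_neg (by linarith)] | erw [if_pos (by linarith)] | erw [if_neg (by linarith)]); (try push_cast); (try ring1))
  · ((try push_cast); (repeat first | rw [if_pos (by linarith)] | rw [if_neg (by linarith)] | erw [if_pos (by linarith)] | erw [if_neg (by linarith)]); (try push_cast); (try ring1))
theorem txl14 {p c x : ℝ} (h1 : 6 / 25 < p) (h2 : p ≤ 3 / 10) : txg.v p c x = dt72.val (fun p x => kcg.v p x) p c x := by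
  symm
  refine (DT.val_gt (by simp only [Cn.rt_v, Cn.ng_v]; push_cast; linarith)).trans ?_
  refine (DT.val_gt (by simp only [Cn.rt_v, Cn.ng_v]; push_cast; linarith)).trans ?_
  refine (DT.val_le (by simp only [Cn.rt_v, Cn.ng_v]; push_cast; linarith)).trans ?_
  refine (DT.val_gt (by simp only [Cn.rt_v, Cn.ng_v]; push_cast; linarith)).trans ?_
  simp only [dt52, DT.val, cloR, sw52, sl52, sv52, txg, txg_4, txg_6, txg_27, txg_63, txg_77, txg_80, txg_83, txg_86, txg_113, txg_157, txg_160, txg_198, txg_234, txg_235, txg_236, txg_275, txg_314, txg_315, txg_353]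
  rcases eq_or_lt_of_le h2 with h | h2
  · subst h
    ((try push_cast); (repeat first | rw [if_pos (by linarith)] | rw [if_neg (by linarith)] | erw [if_pos (by linarith)] | erw [if_neg (by linarith)]); (try push_cast); (try ring1))
  · ((try push_cast); (repeat first | rw [if_pos (by linarith)] | rw [if_neg (by linarith)] | erw [if_pos (by linarith)] | erw [if_neg (by linarith)]); (try push_cast); (try ring1))
theorem txl15 {p c x : ℝ} (h1 : 3 / 10 < p) (h2 : p ≤ 9 / 25) : txg.v p c x = dt72.val (fun p x => kcg.v p x) p c x := by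
  symm
  refine (DT.val_gt (by simp only [Cn.rt_v, Cn.ng_v]; push_cast; linarith)).trans ?_
  refine (DT.val_gt (by simp only [Cn.rt_v, Cn.ng_v]; push_cast; linarith)).trans ?_
  refine (DT.val_gt (by simp only [Cn.rt_v, Cn.ng_v]; push_cast; linarith)).trans ?_
  refine (DT.val_le (by simp only [Cn.rt_v, Cn.ng_v]; push_cast; linarith)).trans ?_
  simp only [dt53, DT.val, cloR, sw53, sl53, sv53, txg, txg_4, txg_6, txg_27, txg_63, txg_77, txg_80, txg_83, txg_86, txg_113, txg_157, txg_160, txg_198, txg_234, txg_235, txg_236, txg_275, txg_314, txg_315, txg_353]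
  rcases eq_or_lt_of_le h2 with h | h2
  · subst h
    ((try push_cast); (repeat first | rw [if_pos (by linarith)] | rw [if_neg (by linarith)] | erw [if_pos (by linarith)] | erw [if_neg (by linarith)]); (try push_cast); (try ring1))
  · ((try push_cast); (repeat first | rw [if_pos (by linarith)] | rw [if_neg (by linarith)] | erw [if_pos (by linarith)] | erw [if_neg (by linarith)]); (try push_cast); (try ring1))
theorem txl16 {p c x : ℝ} (h1 : 9 / 25 < p) (h2 : p ≤ 43 / 100) : txg.v p c x = dt72.val (fun p x => kcg.v p x) p c x := by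
  symm
  refine (DT.val_gt (by simp only [Cn.rt_v, Cn.ng_v]; push_cast; linarith)).trans ?_
  refine (DT.val_gt (by simp only [Cn.rt_v, Cn.ng_v]; push_cast; linarith)).trans ?_
  refine (DT.val_gt (by simp only [Cn.rt_v, Cn.ng_v]; push_cast; linarith)).trans ?_
  refine (DT.val_gt (by simp only [Cn.rt_v, Cn.ng_v]; push_cast; linarith)).trans ?_
  refine (DT.val_le (by simp only [Cn.rt_v, Cn.ng_v]; push_cast; linarith)).trans ?_
  simp only [dt54, DT.val, cloR, sw54, sl54, sv54, txg, txg_4, txg_6, txg_27, txg_63, txg_77, txg_80, txg_83, txg_86, txg_113, txg_157, txg_160, txg_198, txg_234, txg_235, txg_236, txg_275, txg_314, txg_315, txg_353]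
  rcases eq_or_lt_of_le h2 with h | h2
  · subst h
    ((try push_cast); (repeat first | rw [if_pos (by linarith)] | rw [if_neg (by linarith)] | erw [if_pos (by linarith)] | erw [if_neg (by linarith)]); (try push_cast); (try ring1))
  · ((try push_cast); (repeat first | rw [if_pos (by linarith)] | rw [if_neg (by linarith)] | erw [if_pos (by linarith)] | erw [if_neg (by linarith)]); (try push_cast); (try ring1))
theorem txl17 {p c x : ℝ} (h1 : 43 / 100 < p) (h2 : p ≤ 1 / 2) : txg.v p c x = dt72.val (fun p x => kcg.v p x) p c x := by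
  symm
  refine (DT.val_gt (by simp only [Cn.rt_v, Cn.ng_v]; push_cast; linarith)).trans ?_
  refine (DT.val_gt (by simp only [Cn.rt_v, Cn.ng_v]; push_cast; linarith)).trans ?_
  refine (DT.val_gt (by simp only [Cn.rt_v, Cn.ng_v]; push_cast; linarith)).trans ?_
  refine (DT.val_gt (by simp only [Cn.rt_v, Cn.ng_v]; push_cast; linarith)).trans ?_
  refine (DT.val_gt (by simp only [Cn.rt_v, Cn.ng_v]; push_cast; linarith)).trans ?_
  simp only [dt55, DT.val, cloR, sw55, sl55, sv55, txg, txg_4, txg_6, txg_27, txg_63, txg_77, txg_80, txg_83, txg_86, txg_113, txg_157, txg_160, txg_198, txg_234, txg_235, txg_236, txg_275, txg_314, txg_315, txg_353]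
  rcases eq_or_lt_of_le h2 with h | h2
  · subst h
    ((try push_cast); (repeat first | rw [if_pos (by linarith)] | rw [if_neg (by linarith)] | erw [if_pos (by linarith)] | erw [if_neg (by linarith)]); (try push_cast); (try ring1))
  · ((try push_cast); (repeat first | rw [if_pos (by linarith)] | rw [if_neg (by linarith)] | erw [if_pos (by linarith)] | erw [if_neg (by linarith)]); (try push_cast); (try ring1))
theorem txe {x : ℝ} (p c : ℝ) (h : |p| ≤ 1 / 2) : txg.v p c x = dt72.val (fun p x => kcg.v p x) p c x := by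
  obtain ⟨h1, h2⟩ := abs_le.1 h
  rcases le_or_gt p (-479 / 1000) with g0 | g1000
  · exact txl0 (by linarith) g0
  rcases le_or_gt p (-661 / 1387) with g1 | g1001
  · exact txl1 g1000 g1
  rcases le_or_gt p (-191 / 434) with g2 | g1002
  · exact txl2 g1001 g2
  rcases le_or_gt p (-41 / 100) with g3 | g1003
  · exact txl3 g1002 g3
  rcases le_or_gt p (-9 / 25) with g4 | g1004
  · exact txl4 g1003 g4
  rcases le_or_gt p (-3 / 10) with g5 | g1005
  · exact txl5 g1004 g5
  rcases le_or_gt p (-6 / 25) with g6 | g1006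
  · exact txl6 g1005 g6
  rcases le_or_gt p (-9 / 50) with g7 | g1007
  · exact txl7 g1006 g7
  rcases le_or_gt p (-3 / 25) with g8 | g1008
  · exact txl8 g1007 g8
  rcases le_or_gt p (-3 / 50) with g9 | g1009
  · exact txl9 g1008 g9
  rcases le_or_gt p (3 / 50) with g10 | g1010
  · exact txl10 g1009 g10
  rcases le_or_gt p (3 / 25) with g11 | g1011
  · exact txl11 g1010 g11
  rcases le_or_gt p (9 / 50) with g12 | g1012
  · exact txl12 g1011 g12
  rcases le_or_gt p (6 / 25) with g13 | g1013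
  · exact txl13 g1012 g13
  rcases le_or_gt p (3 / 10) with g14 | g1014
  · exact txl14 g1013 g14
  rcases le_or_gt p (9 / 25) with g15 | g1015
  · exact txl15 g1014 g15
  rcases le_or_gt p (43 / 100) with g16 | g1016
  · exact txl16 g1015 g16
  · exact txl17 g1016 (by linarith)
theorem ta_dt38 (x : ℝ) : dt38.val (fun p x => kcg.v p x) (-1 / 2) (cT (-1 / 2)) x = (0) := by
  simp only [dt38, DT.val, sw38, sl38, sv38]
  ((try push_cast); ring1)
theorem tb_dt38 (x : ℝ) : dt38.val (fun p x => kcg.v p x) (-479 / 1000) (cT (-479 / 1000)) x = (13773 / 25000000 + (x - 7 / 128) * (6031 / 625000)) := by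
  simp only [dt38, DT.val, sw38, sl38, sv38]
  ((try push_cast); ring1)
theorem ta_dt39 (x : ℝ) : dt39.val (fun p x => kcg.v p x) (-479 / 1000) (cT (-479 / 1000)) x = (13773 / 25000000 + (x - 7 / 128) * (6031 / 625000)) := by
  simp only [dt39, DT.val, sw39, sl39, sl39_2, sv39, sv39_2]
  ((try push_cast); ring1)
theorem tb_dt39 (x : ℝ) : dt39.val (fun p x => kcg.v p x) (-661 / 1387) (2773 / 2774) x = (1518376615161 / 2462424320000000 + (x - 7 / 128) * (33279353538039 / 3078030400000000) + (x - 7 / 128) ^ 2 * (-1883721 / 3467500000)) := by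
  simp only [dt39, DT.val, sw39, sl39, sl39_2, sv39, sv39_2]
  ((try push_cast); ring1)
theorem ta_dt56 (x : ℝ) : dt56.val (fun p x => kcg.v p x) (-1 / 2) (cT (-1 / 2)) x = (0) :=
  (DT.val_le (by simp only [Cn.rt_v, Cn.ng_v]; norm_num)).trans (ta_dt38 x)
theorem tb_dt56 (x : ℝ) : dt56.val (fun p x => kcg.v p x) (-661 / 1387) (2773 / 2774) x = (1518376615161 / 2462424320000000 + (x - 7 / 128) * (33279353538039 / 3078030400000000) + (x - 7 / 128) ^ 2 * (-1883721 / 3467500000)) :=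
  (DT.val_gt (by simp only [Cn.rt_v, Cn.ng_v]; norm_num)).trans (tb_dt39 x)
theorem ta_dt40 (x : ℝ) : dt40.val (fun p x => kcg.v p x) (-661 / 1387) (2773 / 2774) x = (1518376615161 / 2462424320000000 + (x - 7 / 128) * (33279353538039 / 3078030400000000) + (x - 7 / 128) ^ 2 * (-1883721 / 3467500000)) := by
  simp only [dt40, DT.val, cloR, kgA]
  ring1
theorem tb_dt40 (x : ℝ) : dt40.val (fun p x => kcg.v p x) (-191 / 434) (433 / 434) x = (32530319343 / 18835600000000 + (x - 7 / 128) * (451907614171 / 18835600000000) + (x - 7 / 128) ^ 2 * (-251247 / 135625000)) := by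
  simp only [dt40, DT.val, cloR, kgB]
  ring1
theorem ta_dt41 (x : ℝ) : dt41.val (fun p x => kcg.v p x) (-191 / 434) (433 / 434) x = (32530319343 / 18835600000000 + (x - 7 / 128) * (451907614171 / 18835600000000) + (x - 7 / 128) ^ 2 * (-251247 / 135625000)) := by
  simp only [dt41, DT.val, sw41, sl41, sl41_2, sv41, sv41_2]
  ((try push_cast); ring1)
theorem tb_dt41 (x : ℝ) : dt41.val (fun p x => kcg.v p x) (-41 / 100) (cT (-41 / 100)) x = (444657 / 100000000 + (x - 7 / 128) * (88271 / 5000000)) := by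
  simp only [dt41, DT.val, sw41, sl41, sl41_2, sv41, sv41_2]
  ((try push_cast); ring1)
theorem ta_dt57 (x : ℝ) : dt57.val (fun p x => kcg.v p x) (-661 / 1387) (2773 / 2774) x = (1518376615161 / 2462424320000000 + (x - 7 / 128) * (33279353538039 / 3078030400000000) + (x - 7 / 128) ^ 2 * (-1883721 / 3467500000)) :=
  (DT.val_le (by simp only [Cn.rt_v, Cn.ng_v]; norm_num)).trans (ta_dt40 x)
theorem tb_dt57 (x : ℝ) : dt57.val (fun p x => kcg.v p x) (-41 / 100) (cT (-41 / 100)) x = (444657 / 100000000 + (x - 7 / 128) * (88271 / 5000000)) :=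
  (DT.val_gt (by simp only [Cn.rt_v, Cn.ng_v]; norm_num)).trans (tb_dt41 x)
theorem ta_dt58 (x : ℝ) : dt58.val (fun p x => kcg.v p x) (-1 / 2) (cT (-1 / 2)) x = (0) :=
  (DT.val_le (by simp only [Cn.rt_v, Cn.ng_v]; norm_num)).trans (ta_dt56 x)
theorem tb_dt58 (x : ℝ) : dt58.val (fun p x => kcg.v p x) (-41 / 100) (cT (-41 / 100)) x = (444657 / 100000000 + (x - 7 / 128) * (88271 / 5000000)) :=
  (DT.val_gt (by simp only [Cn.rt_v, Cn.ng_v]; norm_num)).trans (tb_dt57 x)
theorem ta_dt42 (x : ℝ) : dt42.val (fun p x => kcg.v p x) (-41 / 100) (cT (-41 / 100)) x = (444657 / 100000000 + (x - 7 / 128) * (88271 / 5000000)) := by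
  simp only [dt42, DT.val, sw42, sl42, sv42]
  ((try push_cast); ring1)
theorem tb_dt42 (x : ℝ) : dt42.val (fun p x => kcg.v p x) (-9 / 25) (cT (-9 / 25)) x = (49209 / 4000000 + (x - 7 / 128) * (10729 / 2500000)) := by
  simp only [dt42, DT.val, sw42, sl42, sv42]
  ((try push_cast); ring1)
theorem ta_dt43 (x : ℝ) : dt43.val (fun p x => kcg.v p x) (-9 / 25) (cT (-9 / 25)) x = (49209 / 4000000 + (x - 7 / 128) * (10729 / 2500000)) := by
  simp only [dt43, DT.val, sw43, sl43, sv43]
  ((try push_cast); ring1)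
theorem tb_dt43 (x : ℝ) : dt43.val (fun p x => kcg.v p x) (-3 / 10) (cT (-3 / 10)) x = (2253023 / 100000000 + (x - 7 / 128) * (195451 / 10000000)) := by
  simp only [dt43, DT.val, sw43, sl43, sv43]
  ((try push_cast); ring1)
theorem ta_dt59 (x : ℝ) : dt59.val (fun p x => kcg.v p x) (-41 / 100) (cT (-41 / 100)) x = (444657 / 100000000 + (x - 7 / 128) * (88271 / 5000000)) :=
  (DT.val_le (by simp only [Cn.rt_v, Cn.ng_v]; norm_num)).trans (ta_dt42 x)
theorem tb_dt59 (x : ℝ) : dt59.val (fun p x => kcg.v p x) (-3 / 10) (cT (-3 / 10)) x = (2253023 / 100000000 + (x - 7 / 128) * (195451 / 10000000)) :=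
  (DT.val_gt (by simp only [Cn.rt_v, Cn.ng_v]; norm_num)).trans (tb_dt43 x)
theorem ta_dt44 (x : ℝ) : dt44.val (fun p x => kcg.v p x) (-3 / 10) (cT (-3 / 10)) x = (2253023 / 100000000 + (x - 7 / 128) * (195451 / 10000000)) := by
  simp only [dt44, DT.val, sw44, sl44, sv44]
  ((try push_cast); ring1)
theorem tb_dt44 (x : ℝ) : dt44.val (fun p x => kcg.v p x) (-6 / 25) (cT (-6 / 25)) x = (3267579 / 100000000 + (x - 7 / 128) * (396163 / 10000000)) := by
  simp only [dt44, DT.val, sw44, sl44, sv44]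
  ((try push_cast); ring1)
theorem ta_dt45 (x : ℝ) : dt45.val (fun p x => kcg.v p x) (-6 / 25) (cT (-6 / 25)) x = (3267579 / 100000000 + (x - 7 / 128) * (396163 / 10000000)) := by
  simp only [dt45, DT.val, sw45, sl45, sv45]
  ((try push_cast); ring1)
theorem tb_dt45 (x : ℝ) : dt45.val (fun p x => kcg.v p x) (-9 / 50) (cT (-9 / 50)) x = (423793 / 10000000 + (x - 7 / 128) * (18481 / 312500)) := by
  simp only [dt45, DT.val, sw45, sl45, sv45]
  ((try push_cast); ring1)
theorem ta_dt46 (x : ℝ) : dt46.val (fun p x => kcg.v p x) (-9 / 50) (cT (-9 / 50)) x = (423793 / 10000000 + (x - 7 / 128) * (18481 / 312500)) := by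
  simp only [dt46, DT.val, sw46, sl46, sv46]
  ((try push_cast); ring1)
theorem tb_dt46 (x : ℝ) : dt46.val (fun p x => kcg.v p x) (-3 / 25) (cT (-3 / 25)) x = (1269321 / 25000000 + (x - 7 / 128) * (731087 / 10000000)) := by
  simp only [dt46, DT.val, sw46, sl46, sv46]
  ((try push_cast); ring1)
theorem ta_dt60 (x : ℝ) : dt60.val (fun p x => kcg.v p x) (-6 / 25) (cT (-6 / 25)) x = (3267579 / 100000000 + (x - 7 / 128) * (396163 / 10000000)) :=
  (DT.val_le (by simp only [Cn.rt_v, Cn.ng_v]; norm_num)).trans (ta_dt45 x)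
theorem tb_dt60 (x : ℝ) : dt60.val (fun p x => kcg.v p x) (-3 / 25) (cT (-3 / 25)) x = (1269321 / 25000000 + (x - 7 / 128) * (731087 / 10000000)) :=
  (DT.val_gt (by simp only [Cn.rt_v, Cn.ng_v]; norm_num)).trans (tb_dt46 x)
theorem ta_dt61 (x : ℝ) : dt61.val (fun p x => kcg.v p x) (-3 / 10) (cT (-3 / 10)) x = (2253023 / 100000000 + (x - 7 / 128) * (195451 / 10000000)) :=
  (DT.val_le (by simp only [Cn.rt_v, Cn.ng_v]; norm_num)).trans (ta_dt44 x)
theorem tb_dt61 (x : ℝ) : dt61.val (fun p x => kcg.v p x) (-3 / 25) (cT (-3 / 25)) x = (1269321 / 25000000 + (x - 7 / 128) * (731087 / 10000000)) :=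
  (DT.val_gt (by simp only [Cn.rt_v, Cn.ng_v]; norm_num)).trans (tb_dt60 x)
theorem ta_dt62 (x : ℝ) : dt62.val (fun p x => kcg.v p x) (-41 / 100) (cT (-41 / 100)) x = (444657 / 100000000 + (x - 7 / 128) * (88271 / 5000000)) :=
  (DT.val_le (by simp only [Cn.rt_v, Cn.ng_v]; norm_num)).trans (ta_dt59 x)
theorem tb_dt62 (x : ℝ) : dt62.val (fun p x => kcg.v p x) (-3 / 25) (cT (-3 / 25)) x = (1269321 / 25000000 + (x - 7 / 128) * (731087 / 10000000)) :=
  (DT.val_gt (by simp only [Cn.rt_v, Cn.ng_v]; norm_num)).trans (tb_dt61 x)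
theorem ta_dt63 (x : ℝ) : dt63.val (fun p x => kcg.v p x) (-1 / 2) (cT (-1 / 2)) x = (0) :=
  (DT.val_le (by simp only [Cn.rt_v, Cn.ng_v]; norm_num)).trans (ta_dt58 x)
theorem tb_dt63 (x : ℝ) : dt63.val (fun p x => kcg.v p x) (-3 / 25) (cT (-3 / 25)) x = (1269321 / 25000000 + (x - 7 / 128) * (731087 / 10000000)) :=
  (DT.val_gt (by simp only [Cn.rt_v, Cn.ng_v]; norm_num)).trans (tb_dt62 x)
theorem ta_dt47 (x : ℝ) : dt47.val (fun p x => kcg.v p x) (-3 / 25) (cT (-3 / 25)) x = (1269321 / 25000000 + (x - 7 / 128) * (731087 / 10000000)) := by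
  simp only [dt47, DT.val, sw47, sl47, sv47]
  ((try push_cast); ring1)
theorem tb_dt47 (x : ℝ) : dt47.val (fun p x => kcg.v p x) (-3 / 50) (cT (-3 / 50)) x = (5695303 / 100000000 + (x - 7 / 128) * (773813 / 10000000)) := by
  simp only [dt47, DT.val, sw47, sl47, sv47]
  ((try push_cast); ring1)
theorem ta_dt48 (x : ℝ) : dt48.val (fun p x => kcg.v p x) (-3 / 50) (cT (-3 / 50)) x = (5695303 / 100000000 + (x - 7 / 128) * (773813 / 10000000)) := by
  simp only [dt48, DT.val, sw48, sl48, sv48]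
  ((try push_cast); ring1)
theorem tb_dt48 (x : ℝ) : dt48.val (fun p x => kcg.v p x) (3 / 50) (cT (3 / 50)) x = (5671787 / 100000000 + (x - 7 / 128) * (368389 / 5000000)) := by
  simp only [dt48, DT.val, sw48, sl48, sv48]
  ((try push_cast); ring1)
theorem ta_dt64 (x : ℝ) : dt64.val (fun p x => kcg.v p x) (-3 / 25) (cT (-3 / 25)) x = (1269321 / 25000000 + (x - 7 / 128) * (731087 / 10000000)) :=
  (DT.val_le (by simp only [Cn.rt_v, Cn.ng_v]; norm_num)).trans (ta_dt47 x)
theorem tb_dt64 (x : ℝ) : dt64.val (fun p x => kcg.v p x) (3 / 50) (cT (3 / 50)) x = (5671787 / 100000000 + (x - 7 / 128) * (368389 / 5000000)) :=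
  (DT.val_gt (by simp only [Cn.rt_v, Cn.ng_v]; norm_num)).trans (tb_dt48 x)
theorem ta_dt49 (x : ℝ) : dt49.val (fun p x => kcg.v p x) (3 / 50) (cT (3 / 50)) x = (5671787 / 100000000 + (x - 7 / 128) * (368389 / 5000000)) := by
  simp only [dt49, DT.val, sw49, sl49, sv49]
  ((try push_cast); ring1)
theorem tb_dt49 (x : ℝ) : dt49.val (fun p x => kcg.v p x) (3 / 25) (cT (3 / 25)) x = (619847 / 12500000 + (x - 7 / 128) * (376023 / 5000000)) := by
  simp only [dt49, DT.val, sw49, sl49, sv49]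
  ((try push_cast); ring1)
theorem ta_dt50 (x : ℝ) : dt50.val (fun p x => kcg.v p x) (3 / 25) (cT (3 / 25)) x = (619847 / 12500000 + (x - 7 / 128) * (376023 / 5000000)) := by
  simp only [dt50, DT.val, sw50, sl50, sv50]
  ((try push_cast); ring1)
theorem tb_dt50 (x : ℝ) : dt50.val (fun p x => kcg.v p x) (9 / 50) (cT (9 / 50)) x = (2003781 / 50000000 + (x - 7 / 128) * (409991 / 5000000)) := by
  simp only [dt50, DT.val, sw50, sl50, sv50]
  ((try push_cast); ring1)
theorem ta_dt65 (x : ℝ) : dt65.val (fun p x => kcg.v p x) (3 / 50) (cT (3 / 50)) x = (5671787 / 100000000 + (x - 7 / 128) * (368389 / 5000000)) :=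
  (DT.val_le (by simp only [Cn.rt_v, Cn.ng_v]; norm_num)).trans (ta_dt49 x)
theorem tb_dt65 (x : ℝ) : dt65.val (fun p x => kcg.v p x) (9 / 50) (cT (9 / 50)) x = (2003781 / 50000000 + (x - 7 / 128) * (409991 / 5000000)) :=
  (DT.val_gt (by simp only [Cn.rt_v, Cn.ng_v]; norm_num)).trans (tb_dt50 x)
theorem ta_dt66 (x : ℝ) : dt66.val (fun p x => kcg.v p x) (-3 / 25) (cT (-3 / 25)) x = (1269321 / 25000000 + (x - 7 / 128) * (731087 / 10000000)) :=
  (DT.val_le (by simp only [Cn.rt_v, Cn.ng_v]; norm_num)).trans (ta_dt64 x)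
theorem tb_dt66 (x : ℝ) : dt66.val (fun p x => kcg.v p x) (9 / 50) (cT (9 / 50)) x = (2003781 / 50000000 + (x - 7 / 128) * (409991 / 5000000)) :=
  (DT.val_gt (by simp only [Cn.rt_v, Cn.ng_v]; norm_num)).trans (tb_dt65 x)
theorem ta_dt51 (x : ℝ) : dt51.val (fun p x => kcg.v p x) (9 / 50) (cT (9 / 50)) x = (2003781 / 50000000 + (x - 7 / 128) * (409991 / 5000000)) := by
  simp only [dt51, DT.val, sw51, sl51, sv51]
  ((try push_cast); ring1)
theorem tb_dt51 (x : ℝ) : dt51.val (fun p x => kcg.v p x) (6 / 25) (cT (6 / 25)) x = (1502001 / 50000000 + (x - 7 / 128) * (111327 / 1250000)) := by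
  simp only [dt51, DT.val, sw51, sl51, sv51]
  ((try push_cast); ring1)
theorem ta_dt52 (x : ℝ) : dt52.val (fun p x => kcg.v p x) (6 / 25) (cT (6 / 25)) x = (1502001 / 50000000 + (x - 7 / 128) * (111327 / 1250000)) := by
  simp only [dt52, DT.val, sw52, sl52, sv52]
  ((try push_cast); ring1)
theorem tb_dt52 (x : ℝ) : dt52.val (fun p x => kcg.v p x) (3 / 10) (cT (3 / 10)) x = (495627 / 25000000 + (x - 7 / 128) * (899401 / 10000000)) := by
  simp only [dt52, DT.val, sw52, sl52, sv52]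
  ((try push_cast); ring1)
theorem ta_dt67 (x : ℝ) : dt67.val (fun p x => kcg.v p x) (9 / 50) (cT (9 / 50)) x = (2003781 / 50000000 + (x - 7 / 128) * (409991 / 5000000)) :=
  (DT.val_le (by simp only [Cn.rt_v, Cn.ng_v]; norm_num)).trans (ta_dt51 x)
theorem tb_dt67 (x : ℝ) : dt67.val (fun p x => kcg.v p x) (3 / 10) (cT (3 / 10)) x = (495627 / 25000000 + (x - 7 / 128) * (899401 / 10000000)) :=
  (DT.val_gt (by simp only [Cn.rt_v, Cn.ng_v]; norm_num)).trans (tb_dt52 x)
theorem ta_dt53 (x : ℝ) : dt53.val (fun p x => kcg.v p x) (3 / 10) (cT (3 / 10)) x = (495627 / 25000000 + (x - 7 / 128) * (899401 / 10000000)) := by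
  simp only [dt53, DT.val, sw53, sl53, sv53]
  ((try push_cast); ring1)
theorem tb_dt53 (x : ℝ) : dt53.val (fun p x => kcg.v p x) (9 / 25) (cT (9 / 25)) x = (953937 / 100000000 + (x - 7 / 128) * (749161 / 10000000)) := by
  simp only [dt53, DT.val, sw53, sl53, sv53]
  ((try push_cast); ring1)
theorem ta_dt54 (x : ℝ) : dt54.val (fun p x => kcg.v p x) (9 / 25) (cT (9 / 25)) x = (953937 / 100000000 + (x - 7 / 128) * (749161 / 10000000)) := by
  simp only [dt54, DT.val, sw54, sl54, sv54]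
  ((try push_cast); ring1)
theorem tb_dt54 (x : ℝ) : dt54.val (fun p x => kcg.v p x) (43 / 100) (cT (43 / 100)) x = (163 / 80000 + (x - 7 / 128) * (171799 / 5000000)) := by
  simp only [dt54, DT.val, sw54, sl54, sv54]
  ((try push_cast); ring1)
theorem ta_dt55 (x : ℝ) : dt55.val (fun p x => kcg.v p x) (43 / 100) (cT (43 / 100)) x = (163 / 80000 + (x - 7 / 128) * (171799 / 5000000)) := by
  simp only [dt55, DT.val, sw55, sl55, sv55]
  ((try push_cast); ring1)
theorem tb_dt55 (x : ℝ) : dt55.val (fun p x => kcg.v p x) (1 / 2) (cT (1 / 2)) x = (0) := by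
  simp only [dt55, DT.val, sw55, sl55, sv55]
  ((try push_cast); ring1)
theorem ta_dt68 (x : ℝ) : dt68.val (fun p x => kcg.v p x) (9 / 25) (cT (9 / 25)) x = (953937 / 100000000 + (x - 7 / 128) * (749161 / 10000000)) :=
  (DT.val_le (by simp only [Cn.rt_v, Cn.ng_v]; norm_num)).trans (ta_dt54 x)
theorem tb_dt68 (x : ℝ) : dt68.val (fun p x => kcg.v p x) (1 / 2) (cT (1 / 2)) x = (0) :=
  (DT.val_gt (by simp only [Cn.rt_v, Cn.ng_v]; norm_num)).trans (tb_dt55 x)
theorem ta_dt69 (x : ℝ) : dt69.val (fun p x => kcg.v p x) (3 / 10) (cT (3 / 10)) x = (495627 / 25000000 + (x - 7 / 128) * (899401 / 10000000)) :=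
  (DT.val_le (by simp only [Cn.rt_v, Cn.ng_v]; norm_num)).trans (ta_dt53 x)
theorem tb_dt69 (x : ℝ) : dt69.val (fun p x => kcg.v p x) (1 / 2) (cT (1 / 2)) x = (0) :=
  (DT.val_gt (by simp only [Cn.rt_v, Cn.ng_v]; norm_num)).trans (tb_dt68 x)
theorem ta_dt70 (x : ℝ) : dt70.val (fun p x => kcg.v p x) (9 / 50) (cT (9 / 50)) x = (2003781 / 50000000 + (x - 7 / 128) * (409991 / 5000000)) :=
  (DT.val_le (by simp only [Cn.rt_v, Cn.ng_v]; norm_num)).trans (ta_dt67 x)
theorem tb_dt70 (x : ℝ) : dt70.val (fun p x => kcg.v p x) (1 / 2) (cT (1 / 2)) x = (0) :=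
  (DT.val_gt (by simp only [Cn.rt_v, Cn.ng_v]; norm_num)).trans (tb_dt69 x)
theorem ta_dt71 (x : ℝ) : dt71.val (fun p x => kcg.v p x) (-3 / 25) (cT (-3 / 25)) x = (1269321 / 25000000 + (x - 7 / 128) * (731087 / 10000000)) :=
  (DT.val_le (by simp only [Cn.rt_v, Cn.ng_v]; norm_num)).trans (ta_dt66 x)
theorem tb_dt71 (x : ℝ) : dt71.val (fun p x => kcg.v p x) (1 / 2) (cT (1 / 2)) x = (0) :=
  (DT.val_gt (by simp only [Cn.rt_v, Cn.ng_v]; norm_num)).trans (tb_dt70 x)
theorem ta_dt72 (x : ℝ) : dt72.val (fun p x => kcg.v p x) (-1 / 2) (cT (-1 / 2)) x = (0) :=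
  (DT.val_le (by simp only [Cn.rt_v, Cn.ng_v]; norm_num)).trans (ta_dt63 x)
theorem tb_dt72 (x : ℝ) : dt72.val (fun p x => kcg.v p x) (1 / 2) (cT (1 / 2)) x = (0) :=
  (DT.val_gt (by simp only [Cn.rt_v, Cn.ng_v]; norm_num)).trans (tb_dt71 x)
theorem to_dt38 (x : ℝ) : dt38.Ok (fun p x => kcg.v p x) x := trivial
theorem to_dt39 (x : ℝ) : dt39.Ok (fun p x => kcg.v p x) x := trivial
theorem to_dt56 (x : ℝ) : dt56.Ok (fun p x => kcg.v p x) x :=
  DT.ok_node (v := -479 / 1000) (by simp only [Cn.rt_v, Cn.ng_v]; norm_num) (by rw [abs_le]; constructor <;> norm_num) rfl (tb_dt38 x) (ta_dt39 x) (by ring1) (to_dt38 x) (to_dt39 x)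
theorem to_dt40 (x : ℝ) : dt40.Ok (fun p x => kcg.v p x) x := trivial
theorem to_dt41 (x : ℝ) : dt41.Ok (fun p x => kcg.v p x) x := trivial
theorem to_dt57 (x : ℝ) : dt57.Ok (fun p x => kcg.v p x) x :=
  DT.ok_node (v := -191 / 434) (by simp only [Cn.rt_v, Cn.ng_v]; norm_num) (by rw [abs_le]; constructor <;> norm_num) ctB (tb_dt40 x) (ta_dt41 x) (by ring1) (to_dt40 x) (to_dt41 x)
theorem to_dt58 (x : ℝ) : dt58.Ok (fun p x => kcg.v p x) x :=
  DT.ok_node (v := -661 / 1387) (by simp only [Cn.rt_v, Cn.ng_v]; norm_num) (by rw [abs_le]; constructor <;> norm_num) ctA (tb_dt56 x) (ta_dt57 x) (by ring1) (to_dt56 x) (to_dt57 x)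
theorem to_dt42 (x : ℝ) : dt42.Ok (fun p x => kcg.v p x) x := trivial
theorem to_dt43 (x : ℝ) : dt43.Ok (fun p x => kcg.v p x) x := trivial
theorem to_dt59 (x : ℝ) : dt59.Ok (fun p x => kcg.v p x) x :=
  DT.ok_node (v := -9 / 25) (by simp only [Cn.rt_v, Cn.ng_v]; norm_num) (by rw [abs_le]; constructor <;> norm_num) rfl (tb_dt42 x) (ta_dt43 x) (by ring1) (to_dt42 x) (to_dt43 x)
theorem to_dt44 (x : ℝ) : dt44.Ok (fun p x => kcg.v p x) x := trivial
theorem to_dt45 (x : ℝ) : dt45.Ok (fun p x => kcg.v p x) x := trivial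
theorem to_dt46 (x : ℝ) : dt46.Ok (fun p x => kcg.v p x) x := trivial
theorem to_dt60 (x : ℝ) : dt60.Ok (fun p x => kcg.v p x) x :=
  DT.ok_node (v := -9 / 50) (by simp only [Cn.rt_v, Cn.ng_v]; norm_num) (by rw [abs_le]; constructor <;> norm_num) rfl (tb_dt45 x) (ta_dt46 x) (by ring1) (to_dt45 x) (to_dt46 x)
theorem to_dt61 (x : ℝ) : dt61.Ok (fun p x => kcg.v p x) x :=
  DT.ok_node (v := -6 / 25) (by simp only [Cn.rt_v, Cn.ng_v]; norm_num) (by rw [abs_le]; constructor <;> norm_num) rfl (tb_dt44 x) (ta_dt60 x) (by ring1) (to_dt44 x) (to_dt60 x)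
theorem to_dt62 (x : ℝ) : dt62.Ok (fun p x => kcg.v p x) x :=
  DT.ok_node (v := -3 / 10) (by simp only [Cn.rt_v, Cn.ng_v]; norm_num) (by rw [abs_le]; constructor <;> norm_num) rfl (tb_dt59 x) (ta_dt61 x) (by ring1) (to_dt59 x) (to_dt61 x)
theorem to_dt63 (x : ℝ) : dt63.Ok (fun p x => kcg.v p x) x :=
  DT.ok_node (v := -41 / 100) (by simp only [Cn.rt_v, Cn.ng_v]; norm_num) (by rw [abs_le]; constructor <;> norm_num) rfl (tb_dt58 x) (ta_dt62 x) (by ring1) (to_dt58 x) (to_dt62 x)
theorem to_dt47 (x : ℝ) : dt47.Ok (fun p x => kcg.v p x) x := trivial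
theorem to_dt48 (x : ℝ) : dt48.Ok (fun p x => kcg.v p x) x := trivial
theorem to_dt64 (x : ℝ) : dt64.Ok (fun p x => kcg.v p x) x :=
  DT.ok_node (v := -3 / 50) (by simp only [Cn.rt_v, Cn.ng_v]; norm_num) (by rw [abs_le]; constructor <;> norm_num) rfl (tb_dt47 x) (ta_dt48 x) (by ring1) (to_dt47 x) (to_dt48 x)
theorem to_dt49 (x : ℝ) : dt49.Ok (fun p x => kcg.v p x) x := trivial
theorem to_dt50 (x : ℝ) : dt50.Ok (fun p x => kcg.v p x) x := trivial
theorem to_dt65 (x : ℝ) : dt65.Ok (fun p x => kcg.v p x) x :=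
  DT.ok_node (v := 3 / 25) (by simp only [Cn.rt_v, Cn.ng_v]; norm_num) (by rw [abs_le]; constructor <;> norm_num) rfl (tb_dt49 x) (ta_dt50 x) (by ring1) (to_dt49 x) (to_dt50 x)
theorem to_dt66 (x : ℝ) : dt66.Ok (fun p x => kcg.v p x) x :=
  DT.ok_node (v := 3 / 50) (by simp only [Cn.rt_v, Cn.ng_v]; norm_num) (by rw [abs_le]; constructor <;> norm_num) rfl (tb_dt64 x) (ta_dt65 x) (by ring1) (to_dt64 x) (to_dt65 x)
theorem to_dt51 (x : ℝ) : dt51.Ok (fun p x => kcg.v p x) x := trivial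
theorem to_dt52 (x : ℝ) : dt52.Ok (fun p x => kcg.v p x) x := trivial
theorem to_dt67 (x : ℝ) : dt67.Ok (fun p x => kcg.v p x) x :=
  DT.ok_node (v := 6 / 25) (by simp only [Cn.rt_v, Cn.ng_v]; norm_num) (by rw [abs_le]; constructor <;> norm_num) rfl (tb_dt51 x) (ta_dt52 x) (by ring1) (to_dt51 x) (to_dt52 x)
theorem to_dt53 (x : ℝ) : dt53.Ok (fun p x => kcg.v p x) x := trivial
theorem to_dt54 (x : ℝ) : dt54.Ok (fun p x => kcg.v p x) x := trivial
theorem to_dt55 (x : ℝ) : dt55.Ok (fun p x => kcg.v p x) x := trivial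
theorem to_dt68 (x : ℝ) : dt68.Ok (fun p x => kcg.v p x) x :=
  DT.ok_node (v := 43 / 100) (by simp only [Cn.rt_v, Cn.ng_v]; norm_num) (by rw [abs_le]; constructor <;> norm_num) rfl (tb_dt54 x) (ta_dt55 x) (by ring1) (to_dt54 x) (to_dt55 x)
theorem to_dt69 (x : ℝ) : dt69.Ok (fun p x => kcg.v p x) x :=
  DT.ok_node (v := 9 / 25) (by simp only [Cn.rt_v, Cn.ng_v]; norm_num) (by rw [abs_le]; constructor <;> norm_num) rfl (tb_dt53 x) (ta_dt68 x) (by ring1) (to_dt53 x) (to_dt68 x)
theorem to_dt70 (x : ℝ) : dt70.Ok (fun p x => kcg.v p x) x :=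
  DT.ok_node (v := 3 / 10) (by simp only [Cn.rt_v, Cn.ng_v]; norm_num) (by rw [abs_le]; constructor <;> norm_num) rfl (tb_dt67 x) (ta_dt69 x) (by ring1) (to_dt67 x) (to_dt69 x)
theorem to_dt71 (x : ℝ) : dt71.Ok (fun p x => kcg.v p x) x :=
  DT.ok_node (v := 9 / 50) (by simp only [Cn.rt_v, Cn.ng_v]; norm_num) (by rw [abs_le]; constructor <;> norm_num) rfl (tb_dt66 x) (ta_dt70 x) (by ring1) (to_dt66 x) (to_dt70 x)
theorem to_dt72 (x : ℝ) : dt72.Ok (fun p x => kcg.v p x) x :=
  DT.ok_node (v := -3 / 25) (by simp only [Cn.rt_v, Cn.ng_v]; norm_num) (by rw [abs_le]; constructor <;> norm_num) rfl (tb_dt63 x) (ta_dt71 x) (by ring1) (to_dt63 x) (to_dt71 x)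
theorem dok (x : ℝ) : dd.Ok x := ⟨ko_dt37 x, fun p h => kfe h, to_dt72 x⟩
theorem K0_ (x : ℝ) : ∀ q y, OnC (0 : Fin 5) q y → TightK (tyO q) q (fun p => dd.kf.v p x) (c1n y) y (tKF 0 q y x) := by
  refine K0_of (R := fun q y => tKF 0 q y x) (kc := fun p => kcg.v p x) ?_ ?_ ?_
  · intro y h
    show tKF 0 0 y x = _
    ·
      rw [← (atF00 h).K]
      show kf0q0.v y x = _
      simp only [kf0q0, kf0q0_9, kf0q0_12, c1g_v]
      ((try push_cast); (try simp only [mul_inv]); (try ring_nf))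
  · intro y h
    show tKF 0 1 y x = _
    ·
      rw [← (atF01 h).K]
      show kf0q1.v y x = _
      simp only [kf0q1, kf0q1_10, c1g_v]
      ((try push_cast); (try simp only [mul_inv]); (try ring_nf))
  · intro y h
    show tKF 0 2 y x = _
    ·
      have ey := yag_v h.1.nonneg (h.2 rfl)
      rw [← (atF02 h).K]
      show kfc02.v (c1n y) x = _
      simp only [kfc02, c1g_v, ey]
      ((try push_cast); (try simp only [mul_inv]); (try ring_nf))
theorem L0_ (x : ℝ) : ∀ q y, OnC (0 : Fin 5) q y → TightL (tyO q) (fun p c => dd.TX.val dd.kf.v p c x) (c1n y) y (tL 0 q y x) := by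
  refine L0_of (R := fun q y => tL 0 q y x) (tx := fun p c => txg.v p c x) txe ?_ ?_ ?_
  · intro y h
    show tL 0 0 y x = _
    ·
      rw [← (atF00 h).L]
      show l0q0.v y x = _
      simp only [l0q0, c1g_v]
      ((try push_cast); (try simp only [mul_inv]); (try ring_nf))
  · intro y h
    show tL 0 1 y x = _
    ·
      rw [← (atF01 h).L]
      show l0q1.v y x = _
      simp only [l0q1, c1g_v]
      ((try push_cast); (try simp only [mul_inv]); (try ring_nf))
  · intro y h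
    show tL 0 2 y x = _
    ·
      have ey := yag_v h.1.nonneg (h.2 rfl)
      rw [← (atF02 h).L]
      show lc02.v (c1n y) x = _
      simp only [lc02, lc02_7, lc02_8, c1g_v, ey]
      ((try push_cast); (try simp only [mul_inv]); (try ring_nf))
theorem Kn_ (x : ℝ) : ∀ q y, InQ q y → TightK (tyN q) q (fun p => dd.kf.v p x) (c3n y) y (tKF (Fin.last 4) q y x) := by
  refine Kn_of (R := fun q y => tKF 4 q y x) (kc := fun p => kcg.v p x) ?_ ?_ ?_ ?_
  · intro y h
    show tKF 4 0 y x = _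
    ·
      rw [← (atF40 (onc h (by decide))).K]
      show kf4q0.v y x = _
      simp only [kf4q0, c3g_v]
      ((try push_cast); (try simp only [mul_inv]); (try ring_nf))
  · intro y h
    show tKF 4 1 y x = _
    ·
      rw [← (atF41 (onc h (by decide))).K]
      show kf4q1.v y x = _
      simp only [kf4q1, c3g_v]
      ((try push_cast); (try simp only [mul_inv]); (try ring_nf))
  · intro y h
    show tKF 4 2 y x = _
    ·
      rw [← (atF42 (onc h (by decide))).K]
      show kf4q2.v y x = _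
      simp only [kf4q2, c3g_v]
      ((try push_cast); (try simp only [mul_inv]); (try ring_nf))
  · intro y h
    show tKF 4 3 y x = _
    ·
      have ey := ycg_v h.nonneg h.le_two
      rw [← (atF43 (onc h (by decide))).K]
      show kfc43.v (c3n y) x = _
      simp only [kfc43, c3g_v, ey]
      ((try push_cast); (try simp only [mul_inv]); (try ring_nf))
theorem Ln_ (x : ℝ) : ∀ q y, InQ q y → TightL (tyN q) (fun p c => dd.TX.val dd.kf.v p c x) (c3n y) y (tL (Fin.last 4) q y x) := by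
  refine Ln_of (R := fun q y => tL 4 q y x) (tx := fun p c => txg.v p c x) txe ?_ ?_ ?_ ?_
  · intro y h
    show tL 4 0 y x = _
    ·
      rw [← (atF40 (onc h (by decide))).L]
      show l4q0.v y x = _
      simp only [l4q0, l4q0_6, l4q0_7, l4q0_8, c3g_v]
      ((try push_cast); (try simp only [mul_inv]); (try ring_nf))
  · intro y h
    show tL 4 1 y x = _
    ·
      rw [← (atF41 (onc h (by decide))).L]
      show l4q1.v y x = _
      simp only [l4q1, l4q1_7, l4q1_8, l4q1_9, c3g_v]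
      ((try push_cast); (try simp only [mul_inv]); (try ring_nf))
  · intro y h
    show tL 4 2 y x = _
    ·
      rw [← (atF42 (onc h (by decide))).L]
      show l4q2.v y x = _
      simp only [l4q2, l4q2_7, l4q2_8, l4q2_9, l4q2_12, l4q2_14, c3g_v]
      ((try push_cast); (try simp only [mul_inv]); (try ring_nf))
  · intro y h
    show tL 4 3 y x = _
    ·
      have ey := ycg_v h.nonneg h.le_two
      rw [← (atF43 (onc h (by decide))).L]
      show lc43.v (c3n y) x = _
      simp only [lc43, lc43_7, lc43_8, lc43_9, lc43_12, lc43_14, c3g_v, ey]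
      ((try push_cast); (try simp only [mul_inv]); (try ring_nf))
theorem f0_ : ∀ q y, InQ q y → (ff q).f.v y = crv PP 1 q y
  | 0, y, _ => ecv1q0.symm
  | 1, y, _ => ecv1q1.symm
  | 2, y, _ => ecv1q2.symm
  | 3, y, h => (ecv1q3 h.1).symm
theorem fn_ : ∀ q y, InQ q y → (fl q).f.v y = crv PP 3 q y
  | 0, y, _ => ecv3q0.symm
  | 1, y, _ => ecv3q1.symm
  | 2, y, _ => ecv3q2.symm
  | 3, y, h => (ecv3q3 h.1).symm
theorem yK00 {y x : ℝ} (h : OnC (0 : Fin 5) 0 y) : tKF 0 0 y x = kf0q0.v y x := (atF00 h).K.symm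
theorem yK10 {y x : ℝ} (h : InQ 0 y) : tKF 1 0 y x = kf1q0.v y x := (atF10 (onc h (by decide))).K.symm
theorem yK01 {y x : ℝ} (h : OnC (0 : Fin 5) 1 y) : tKF 0 1 y x = kf0q1.v y x := (atF01 h).K.symm
theorem yK11 {y x : ℝ} (h : InQ 1 y) : tKF 1 1 y x = kf1q1.v y x := (atF11 (onc h (by decide))).K.symm
theorem yK02 {y x : ℝ} (h : OnC (0 : Fin 5) 2 y) : tKF 0 2 y x = kf0q2.v y x := by
  rw [← (atF02 h).K]
  show kfc02.v (c1n y) x = _
  have ey := yag_v h.1.nonneg (h.2 rfl)
  simp only [kfc02, kf0q2, ey, c1g_v, c3g_v, swg_v]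
  ((try push_cast); (try ring_nf))
theorem yK12 {y x : ℝ} (h : InQ 2 y) : tKF 1 2 y x = kf1q2.v y x := (atF12 (onc h (by decide))).K.symm
theorem yK40 {y x : ℝ} (h : InQ 0 y) : tKF 4 0 y x = kf4q0.v y x := (atF40 (onc h (by decide))).K.symm
theorem yK30 {y x : ℝ} (h : InQ 0 y) : tKF 3 0 y x = kf3q0.v y x := (atF30 (onc h (by decide))).K.symm
theorem yK41 {y x : ℝ} (h : InQ 1 y) : tKF 4 1 y x = kf4q1.v y x := (atF41 (onc h (by decide))).K.symm
theorem yK31 {y x : ℝ} (h : InQ 1 y) : tKF 3 1 y x = kf3q1.v y x := (atF31 (onc h (by decide))).K.symm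
theorem yK42 {y x : ℝ} (h : InQ 2 y) : tKF 4 2 y x = kf4q2.v y x := (atF42 (onc h (by decide))).K.symm
theorem yK32 {y x : ℝ} (h : InQ 2 y) : tKF 3 2 y x = kf3q2.v y x := (atF32 (onc h (by decide))).K.symm
theorem yK43 {y x : ℝ} (h : InQ 3 y) : tKF 4 3 y x = kf4q3.v y x := by
  rw [← (atF43 (onc h (by decide))).K]
  show kfc43.v (c3n y) x = _
  have ey := ycg_v h.nonneg h.le_two
  simp only [kfc43, kf4q3, ey, c1g_v, c3g_v, swg_v]
  ((try push_cast); (try ring_nf))
theorem yK33 {y x : ℝ} (h : InQ 3 y) : tKF 3 3 y x = kf3q3.v y x := by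
  rw [← (atF33 (onc h (by decide))).K]
  show kfc33.v (c3n y) x = _
  have ey := ycg_v h.nonneg h.le_two
  simp only [kfc33, kf3q3, cv3r, ey, c1g_v, c3g_v, swg_v]
  ((try push_cast); (try ring_nf))
theorem yL00 {y x : ℝ} (h : OnC (0 : Fin 5) 0 y) : tL 0 0 y x = l0q0.v y x := (atF00 h).L.symm
theorem yL10 {y x : ℝ} (h : InQ 0 y) : tL 1 0 y x = l1q0.v y x := (atF10 (onc h (by decide))).L.symm
theorem yL01 {y x : ℝ} (h : OnC (0 : Fin 5) 1 y) : tL 0 1 y x = l0q1.v y x := (atF01 h).L.symm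
theorem yL11 {y x : ℝ} (h : InQ 1 y) : tL 1 1 y x = l1q1.v y x := (atF11 (onc h (by decide))).L.symm
theorem yL02 {y x : ℝ} (h : OnC (0 : Fin 5) 2 y) : tL 0 2 y x = l0q2.v y x := by
  rw [← (atF02 h).L]
  show lc02.v (c1n y) x = _
  have ey := yag_v h.1.nonneg (h.2 rfl)
  simp only [lc02, lc02_7, lc02_8, l0q2, l0q2_7, l0q2_8, ey, c1g_v, c3g_v, swg_v]
  ((try push_cast); (try ring_nf))
theorem yL12 {y x : ℝ} (h : InQ 2 y) : tL 1 2 y x = l1q2.v y x := (atF12 (onc h (by decide))).L.symm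
theorem yL40 {y x : ℝ} (h : InQ 0 y) : tL 4 0 y x = l4q0.v y x := (atF40 (onc h (by decide))).L.symm
theorem yL30 {y x : ℝ} (h : InQ 0 y) : tL 3 0 y x = l3q0.v y x := (atF30 (onc h (by decide))).L.symm
theorem yL41 {y x : ℝ} (h : InQ 1 y) : tL 4 1 y x = l4q1.v y x := (atF41 (onc h (by decide))).L.symm
theorem yL31 {y x : ℝ} (h : InQ 1 y) : tL 3 1 y x = l3q1.v y x := (atF31 (onc h (by decide))).L.symm
theorem yL42 {y x : ℝ} (h : InQ 2 y) : tL 4 2 y x = l4q2.v y x := (atF42 (onc h (by decide))).L.symm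
theorem yL32 {y x : ℝ} (h : InQ 2 y) : tL 3 2 y x = l3q2.v y x := (atF32 (onc h (by decide))).L.symm
theorem yL43 {y x : ℝ} (h : InQ 3 y) : tL 4 3 y x = l4q3.v y x := by
  rw [← (atF43 (onc h (by decide))).L]
  show lc43.v (c3n y) x = _
  have ey := ycg_v h.nonneg h.le_two
  simp only [lc43, lc43_7, lc43_8, lc43_9, lc43_12, lc43_14, l4q3, l4q3_7, l4q3_8, l4q3_9, l4q3_12, l4q3_14, ey, c1g_v, c3g_v, swg_v]
  ((try push_cast); (try ring_nf))
theorem yL33 {y x : ℝ} (h : InQ 3 y) : tL 3 3 y x = l3q3.v y x := by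
  rw [← (atF33 (onc h (by decide))).L]
  show lc33.v (c3n y) x = _
  have ey := ycg_v h.nonneg h.le_two
  simp only [lc33, l3q3, cv3r, ey, c1g_v, c3g_v, swg_v]
  ((try push_cast); (try ring_nf))
theorem sK0_ (x : ℝ) : ∀ q y, OnC (0 : Fin 5) q y → c1n y < crv PP 1 q y →
    (ff q).SK.v y x * (crv PP 1 q y - c1n y) = tKF 1 q y x - tKF 0 q y x := by
  intro q y h hlt
  rcases onC_q h with rfl | rfl | rfl
  · rw [yK10 h.1, yK00 h]
    rw [ecv1q0, ← c1g_v] at hlt ⊢
    have hd : 0 < cv1m.v y - c1g.v y := sub_pos.2 hlt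
    have hi := inv_mul_cancel₀ hd.ne'
    show skf0.v y x * _ = _
    simp only [skf0, kf1q0]
    (try push_cast)
    linear_combination (c1g.v y * bf1q0.v y x - kf0q0.v y x) * hi
  · rw [yK11 h.1, yK01 h]
    rw [ecv1q1, ← c1g_v] at hlt ⊢
    have hd : 0 < cv1m.v y - c1g.v y := sub_pos.2 hlt
    have hi := inv_mul_cancel₀ hd.ne'
    show skf1.v y x * _ = _
    simp only [skf1, kf1q1]
    (try push_cast)
    linear_combination (c1g.v y * bf1q1.v y x - kf0q1.v y x) * hi
  · rw [yK12 h.1, yK02 h]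
    rw [ecv1q2, ← c1g_v] at hlt ⊢
    have hd : 0 < cv1p.v y - c1g.v y := sub_pos.2 hlt
    have hi := inv_mul_cancel₀ hd.ne'
    have hb : |c1g.v y| ≤ 1 / 2 := by rw [c1g_v]; exact bnd_O h
    have eo := odd (x := x) hb
    show skf2.v y x * _ = _
    simp only [skf2, kf1q2, kf0q2, eo]
    (try push_cast)
    linear_combination (c1g.v y * (bf1q2.v y x - 1) + (y - 1) * kcg.v (c1g.v y) x) * hi
theorem sX0_ (x : ℝ) : ∀ q y, OnC (0 : Fin 5) q y → c1n y < crv PP 1 q y →
    (ff q).SX.v y x * (crv PP 1 q y - c1n y) = tL 1 q y x - tL 0 q y x := by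
  intro q y h hlt
  rcases onC_q h with rfl | rfl | rfl
  · rw [yL10 h.1, yL00 h]
    rw [ecv1q0, ← c1g_v] at hlt ⊢
    have hd : 0 < cv1m.v y - c1g.v y := sub_pos.2 hlt
    have hi := inv_mul_cancel₀ hd.ne'
    show sxf0.v y x * _ = _
    simp only [sxf0]
    (try push_cast)
    linear_combination (l1q0.v y x - l0q0.v y x) * hi
  · rw [yL11 h.1, yL01 h]
    rw [ecv1q1, ← c1g_v] at hlt ⊢
    have hd : 0 < cv1m.v y - c1g.v y := sub_pos.2 hlt
    have hi := inv_mul_cancel₀ hd.ne'
    show sxf1.v y x * _ = _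
    simp only [sxf1]
    (try push_cast)
    linear_combination (l1q1.v y x - l0q1.v y x) * hi
  · rw [yL12 h.1, yL02 h]
    rw [ecv1q2, ← c1g_v] at hlt ⊢
    have hd : 0 < cv1p.v y - c1g.v y := sub_pos.2 hlt
    have hi := inv_mul_cancel₀ hd.ne'
    show sxf2.v y x * _ = _
    simp only [sxf2]
    (try push_cast)
    linear_combination (l1q2.v y x - l0q2.v y x) * hi
theorem sKn_ (x : ℝ) : ∀ q y, InQ q y → crv PP 3 q y < c3n y →
    (fl q).SK.v y x * (c3n y - crv PP 3 q y) = tKF 4 q y x - tKF 3 q y x := by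
  intro q y h hlt
  match q, h with
  | 0, h =>
    rw [yK40 h, yK30 h]
    rw [ecv3q0, ← c3g_v] at hlt ⊢
    have hd : 0 < c3g.v y - cv3m.v y := sub_pos.2 hlt
    have hi := inv_mul_cancel₀ hd.ne'
    show skl0.v y x * _ = _
    simp only [skl0, kf3q0]
    (try push_cast)
    linear_combination (kf4q0.v y x - c3g.v y * bf3q0.v y x) * hi
  | 1, h =>
    rw [yK41 h, yK31 h]
    rw [ecv3q1, ← c3g_v] at hlt ⊢
    have hd : 0 < c3g.v y - cv3m.v y := sub_pos.2 hlt
    have hi := inv_mul_cancel₀ hd.ne'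
    show skl1.v y x * _ = _
    simp only [skl1, kf3q1]
    (try push_cast)
    linear_combination (kf4q1.v y x - c3g.v y * bf3q1.v y x) * hi
  | 2, h =>
    rw [yK42 h, yK32 h]
    rw [ecv3q2, ← c3g_v] at hlt ⊢
    have hd : 0 < c3g.v y - cv3p.v y := sub_pos.2 hlt
    have hi := inv_mul_cancel₀ hd.ne'
    show skl2.v y x * _ = _
    simp only [skl2, kf3q2]
    (try push_cast)
    linear_combination (kf4q2.v y x - c3g.v y * bf3q2.v y x) * hi
  | 3, h =>
    rw [yK43 h, yK33 h]
    rw [ecv3q3 h.1, ← c3g_v] at hlt ⊢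
    have hd : 0 < c3g.v y - cv3r.v y := sub_pos.2 hlt
    have hi := inv_mul_cancel₀ hd.ne'
    show skl3.v y x * _ = _
    simp only [skl3, kf3q3]
    (try push_cast)
    linear_combination (kf4q3.v y x - c3g.v y * bf3q3.v y x) * hi
theorem sXn_ (x : ℝ) : ∀ q y, InQ q y → crv PP 3 q y < c3n y →
    (fl q).SX.v y x * (c3n y - crv PP 3 q y) = tL 4 q y x - tL 3 q y x := by
  intro q y h hlt
  match q, h with
  | 0, h =>
    rw [yL40 h, yL30 h]
    rw [ecv3q0, ← c3g_v] at hlt ⊢
    have hd : 0 < c3g.v y - cv3m.v y := sub_pos.2 hlt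
    have hi := inv_mul_cancel₀ hd.ne'
    show sxl0.v y x * _ = _
    simp only [sxl0]
    (try push_cast)
    linear_combination (l4q0.v y x - l3q0.v y x) * hi
  | 1, h =>
    rw [yL41 h, yL31 h]
    rw [ecv3q1, ← c3g_v] at hlt ⊢
    have hd : 0 < c3g.v y - cv3m.v y := sub_pos.2 hlt
    have hi := inv_mul_cancel₀ hd.ne'
    show sxl1.v y x * _ = _
    simp only [sxl1]
    (try push_cast)
    linear_combination (l4q1.v y x - l3q1.v y x) * hi
  | 2, h =>
    rw [yL42 h, yL32 h]
    rw [ecv3q2, ← c3g_v] at hlt ⊢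
    have hd : 0 < c3g.v y - cv3p.v y := sub_pos.2 hlt
    have hi := inv_mul_cancel₀ hd.ne'
    show sxl2.v y x * _ = _
    simp only [sxl2]
    (try push_cast)
    linear_combination (l4q2.v y x - l3q2.v y x) * hi
  | 3, h =>
    rw [yL43 h, yL33 h]
    rw [ecv3q3 h.1, ← c3g_v] at hlt ⊢
    have hd : 0 < c3g.v y - cv3r.v y := sub_pos.2 hlt
    have hi := inv_mul_cancel₀ hd.ne'
    show sxl3.v y x * _ = _
    simp only [sxl3]
    (try push_cast)
    linear_combination (l4q3.v y x - l3q3.v y x) * hi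
theorem kn_ (x : ℝ) : ∀ X, |X| ≤ vv.k1.v → kcg.v (-X) x = -(k0c.v x * X) := by
  intro X h
  have h : |X| ≤ 3 / 50 := by
    refine h.trans_eq ?_
    show (Cn.rt 3 50).v = _
    rw [Cn.rt_v]
    norm_num
  obtain ⟨h1, h2⟩ := abs_le.1 h
  rw [kcl9 (p := -X) (by linarith) (by linarith)]
  simp only [k0c]
  push_cast
  ring
theorem tvm {p c x : ℝ} (h1 : -3 / 50 ≤ p) (h2 : p ≤ 3 / 50) : dt72.val (fun p x => kcg.v p x) p c x = (296760951 / 5000000000 + (x - 7 / 128) * (18931217 / 250000000)) + (-5879 / 3000000 + (x - 7 / 128) * (-2469 / 80000)) * p + (-1398189 / 2000000 + (x - 7 / 128) * (-10851 / 200000)) * p ^ 2 := by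
  rcases eq_or_lt_of_le h1 with h | h1
  · subst h
    refine (DT.val_gt (by simp only [Cn.rt_v, Cn.ng_v]; push_cast; linarith)).trans ?_
    refine (DT.val_le (by simp only [Cn.rt_v, Cn.ng_v]; push_cast; linarith)).trans ?_
    refine (DT.val_le (by simp only [Cn.rt_v, Cn.ng_v]; push_cast; linarith)).trans ?_
    refine (DT.val_le (by simp only [Cn.rt_v, Cn.ng_v]; push_cast; linarith)).trans ?_
    simp only [dt47, DT.val, sw47, sl47, sv47]
    ((try push_cast); ring1)
  ·
    refine (DT.val_gt (by simp only [Cn.rt_v, Cn.ng_v]; push_cast; linarith)).trans ?_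
    refine (DT.val_le (by simp only [Cn.rt_v, Cn.ng_v]; push_cast; linarith)).trans ?_
    refine (DT.val_le (by simp only [Cn.rt_v, Cn.ng_v]; push_cast; linarith)).trans ?_
    refine (DT.val_gt (by simp only [Cn.rt_v, Cn.ng_v]; push_cast; linarith)).trans ?_
    simp only [dt48, DT.val, sw48, sl48, sv48]
    ((try push_cast); ring1)
theorem tn_ (x : ℝ) : ∀ X, |X| ≤ vv.k1.v → dd.tF x (-X) - dd.tF x X = m0c.v x * X := by
  intro X h
  have h : |X| ≤ 3 / 50 := by
    refine h.trans_eq ?_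
    show (Cn.rt 3 50).v = _
    rw [Cn.rt_v]
    norm_num
  obtain ⟨h1, h2⟩ := abs_le.1 h
  show dt72.val (fun p x => kcg.v p x) (-X) (cT (-X)) x - dt72.val (fun p x => kcg.v p x) X (cT X) x = _
  rw [tvm (by linarith) (by linarith), tvm (by linarith) (by linarith)]
  simp only [m0c]
  push_cast
  ring
theorem vK_ (x : ℝ) : ∀ y, InQ 2 y → tKF 1 2 y x = crv PP 1 2 y * bf1q2.v y x := by
  intro y h
  rw [yK12 h, ecv1q2]
  simp only [kf1q2]
theorem vX_ (x : ℝ) : ∀ y, InQ 2 y → tL 1 2 y x = crv PP 1 2 y * bx1q2.v y x := by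
  intro y h
  rw [yL12 h, ecv1q2]
  simp only [l1q2]
theorem n0_rK (y x : ℝ) : n0b.v y x = (1 - (y - 1) * k0c.v x) := by
  simp only [n0b, k0c]
  all_goals (try push_cast)
  all_goals (try ring)
theorem rK_ (x : ℝ) : ∀ y, OnC (0 : Fin 5) 2 y → c1n y < crv PP 1 2 y →
    rhk.v y x * (crv PP 1 2 y - c1n y) = crv PP 1 2 y * (bf1q2.v y x - (1 - (y - 1) * k0c.v x)) := by
  intro y h hlt
  rw [ecv1q2, ← c1g_v] at hlt ⊢
  have hd : 0 < cv1p.v y - c1g.v y := sub_pos.2 hlt
  have hi := inv_mul_cancel₀ hd.ne'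
  rw [← n0_rK]
  simp only [rhk]
  linear_combination ((bf1q2.v y x - n0b.v y x) * cv1p.v y) * hi
theorem n0_rX (y x : ℝ) : n0x.v y x = m0c.v x := by
  simp only [n0x, m0c]
  all_goals (try push_cast)
  all_goals (try ring)
theorem rX_ (x : ℝ) : ∀ y, OnC (0 : Fin 5) 2 y → c1n y < crv PP 1 2 y →
    rhx.v y x * (crv PP 1 2 y - c1n y) = crv PP 1 2 y * (bx1q2.v y x - m0c.v x) := by
  intro y h hlt
  rw [ecv1q2, ← c1g_v] at hlt ⊢
  have hd : 0 < cv1p.v y - c1g.v y := sub_pos.2 hlt
  have hi := inv_mul_cancel₀ hd.ne'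
  rw [← n0_rX]
  simp only [rhx]
  linear_combination ((bx1q2.v y x - n0x.v y x) * cv1p.v y) * hi
theorem flat_ (x : ℝ) : ∀ y, InQ 2 y → vv.ya.v ≤ y → y ≤ vv.yb.v → bf1q2.v y x = 1 - (y - 1) * k0c.v x ∧ bx1q2.v y x = m0c.v x := by
  intro y h h1 h2
  have ea : vv.ya.v = 577 / 500 := by
    show (Cn.rt 577 500).v = _
    rw [Cn.rt_v]
    norm_num
  have eb : vv.yb.v = 231 / 200 := by
    show (Cn.rt 231 200).v = _
    rw [Cn.rt_v]
    norm_num
  rw [ea] at h1
  rw [eb] at h2
  constructor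
  · simp only [bf1q2, bf1q2_3, bf1q2_52, k0c]
    rcases eq_or_lt_of_le h1 with g | h1
    · subst g
      ((try push_cast); (repeat first | rw [if_pos (by linarith)] | rw [if_neg (by linarith)] | erw [if_pos (by linarith)] | erw [if_neg (by linarith)]); (try push_cast); (try ring1))
    rcases eq_or_lt_of_le h2 with g | h2
    · subst g
      ((try push_cast); (repeat first | rw [if_pos (by linarith)] | rw [if_neg (by linarith)] | erw [if_pos (by linarith)] | erw [if_neg (by linarith)]); (try push_cast); (try ring1))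
    · ((try push_cast); (repeat first | rw [if_pos (by linarith)] | rw [if_neg (by linarith)] | erw [if_pos (by linarith)] | erw [if_neg (by linarith)]); (try push_cast); (try ring1))
  · simp only [bx1q2, bx1q2_3, m0c]
    rcases eq_or_lt_of_le h1 with g | h1
    · subst g
      ((try push_cast); (repeat first | rw [if_pos (by linarith)] | rw [if_neg (by linarith)] | erw [if_pos (by linarith)] | erw [if_neg (by linarith)]); (try push_cast); (try ring1))
    rcases eq_or_lt_of_le h2 with g | h2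
    · subst g
      ((try push_cast); (repeat first | rw [if_pos (by linarith)] | rw [if_neg (by linarith)] | erw [if_pos (by linarith)] | erw [if_neg (by linarith)]); (try push_cast); (try ring1))
    · ((try push_cast); (repeat first | rw [if_pos (by linarith)] | rw [if_neg (by linarith)] | erw [if_pos (by linarith)] | erw [if_neg (by linarith)]); (try push_cast); (try ring1))
theorem abk_ (x : ℝ) : ∀ y, InQ 2 y → vv.yb.v ≤ y → y ≤ vv.yk.v → bf1q2.v y x = 1 - (y - 1) * k0c.v x + sbk.v x * (y - vv.yb.v) ∧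
    bx1q2.v y x = m0c.v x + sbx.v x * (y - vv.yb.v) := by
  intro y h h1 h2
  have eb : vv.yb.v = 231 / 200 := by
    show (Cn.rt 231 200).v = _
    rw [Cn.rt_v]
    norm_num
  have ek : vv.yk.v = 13 / 10 := by
    show (Cn.rt 13 10).v = _
    rw [Cn.rt_v]
    norm_num
  rw [eb] at h1 ⊢
  rw [ek] at h2
  constructor
  · simp only [bf1q2, bf1q2_3, bf1q2_52, k0c, sbk]
    rcases eq_or_lt_of_le h1 with g | h1
    · subst g
      ((try push_cast); (repeat first | rw [if_pos (by linarith)] | rw [if_neg (by linarith)] | erw [if_pos (by linarith)] | erw [if_neg (by linarith)]); (try push_cast); (try ring1))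
    rcases eq_or_lt_of_le h2 with g | h2
    · subst g
      ((try push_cast); (repeat first | rw [if_pos (by linarith)] | rw [if_neg (by linarith)] | erw [if_pos (by linarith)] | erw [if_neg (by linarith)]); (try push_cast); (try ring1))
    · ((try push_cast); (repeat first | rw [if_pos (by linarith)] | rw [if_neg (by linarith)] | erw [if_pos (by linarith)] | erw [if_neg (by linarith)]); (try push_cast); (try ring1))
  · simp only [bx1q2, bx1q2_3, m0c, sbx]
    rcases eq_or_lt_of_le h1 with g | h1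
    · subst g
      ((try push_cast); (repeat first | rw [if_pos (by linarith)] | rw [if_neg (by linarith)] | erw [if_pos (by linarith)] | erw [if_neg (by linarith)]); (try push_cast); (try ring1))
    rcases eq_or_lt_of_le h2 with g | h2
    · subst g
      ((try push_cast); (repeat first | rw [if_pos (by linarith)] | rw [if_neg (by linarith)] | erw [if_pos (by linarith)] | erw [if_neg (by linarith)]); (try push_cast); (try ring1))
    · ((try push_cast); (repeat first | rw [if_pos (by linarith)] | rw [if_neg (by linarith)] | erw [if_pos (by linarith)] | erw [if_neg (by linarith)]); (try push_cast); (try ring1))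
theorem ka_dt73 (x : ℝ) : dt73.kv (-6 / 25) x = (-169513 / 100000000 + (x - 7 / 128) * (642593 / 10000000)) := by
  simp only [dt73, DT.kv, sw73, sl73, sv73]
  ((try push_cast); ring1)
theorem kb_dt73 (x : ℝ) : dt73.kv (-9 / 50) x = (-7991 / 5000000 + (x - 7 / 128) * (67939 / 2000000)) := by
  simp only [dt73, DT.kv, sw73, sl73, sv73]
  ((try push_cast); ring1)
theorem ka_dt74 (x : ℝ) : dt74.kv (-9 / 50) x = (-7991 / 5000000 + (x - 7 / 128) * (67939 / 2000000)) := by
  simp only [dt74, DT.kv, sw74, sl74, sv74]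
  ((try push_cast); ring1)
theorem kb_dt74 (x : ℝ) : dt74.kv (-3 / 25) x = (-17869 / 25000000 + (x - 7 / 128) * (95029 / 10000000)) := by
  simp only [dt74, DT.kv, sw74, sl74, sv74]
  ((try push_cast); ring1)
theorem ka_dt75 (x : ℝ) : dt75.kv (-3 / 25) x = (-17869 / 25000000 + (x - 7 / 128) * (95029 / 10000000)) := by
  simp only [dt75, DT.kv, sw75, sl75, sv75]
  ((try push_cast); ring1)
theorem kb_dt75 (x : ℝ) : dt75.kv (-3 / 50) x = (0) := by
  simp only [dt75, DT.kv, sw75, sl75, sv75]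
  ((try push_cast); ring1)
theorem ka_dt80 (x : ℝ) : dt80.kv (-9 / 50) x = (-7991 / 5000000 + (x - 7 / 128) * (67939 / 2000000)) :=
  (DT.kv_le (by simp only [Cn.rt_v, Cn.ng_v]; norm_num)).trans (ka_dt74 x)
theorem kb_dt80 (x : ℝ) : dt80.kv (-3 / 50) x = (0) :=
  (DT.kv_gt (by simp only [Cn.rt_v, Cn.ng_v]; norm_num)).trans (kb_dt75 x)
theorem ka_dt81 (x : ℝ) : dt81.kv (-6 / 25) x = (-169513 / 100000000 + (x - 7 / 128) * (642593 / 10000000)) :=
  (DT.kv_le (by simp only [Cn.rt_v, Cn.ng_v]; norm_num)).trans (ka_dt73 x)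
theorem kb_dt81 (x : ℝ) : dt81.kv (-3 / 50) x = (0) :=
  (DT.kv_gt (by simp only [Cn.rt_v, Cn.ng_v]; norm_num)).trans (kb_dt80 x)
theorem ka_dt76 (x : ℝ) : dt76.kv (-3 / 50) x = (0) := by
  simp only [dt76, DT.kv, sl76, sv76]
  ((try push_cast); ring1)
theorem kb_dt76 (x : ℝ) : dt76.kv (3 / 50) x = (0) := by
  simp only [dt76, DT.kv, sl76, sv76]
  ((try push_cast); ring1)
theorem ka_dt77 (x : ℝ) : dt77.kv (3 / 50) x = (0) := by
  simp only [dt77, DT.kv, sw77, sl77, sv77]
  ((try push_cast); ring1)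
theorem kb_dt77 (x : ℝ) : dt77.kv (3 / 25) x = (17869 / 25000000 + (x - 7 / 128) * (-95029 / 10000000)) := by
  simp only [dt77, DT.kv, sw77, sl77, sv77]
  ((try push_cast); ring1)
theorem ka_dt82 (x : ℝ) : dt82.kv (-3 / 50) x = (0) :=
  (DT.kv_le (by simp only [Cn.rt_v, Cn.ng_v]; norm_num)).trans (ka_dt76 x)
theorem kb_dt82 (x : ℝ) : dt82.kv (3 / 25) x = (17869 / 25000000 + (x - 7 / 128) * (-95029 / 10000000)) :=
  (DT.kv_gt (by simp only [Cn.rt_v, Cn.ng_v]; norm_num)).trans (kb_dt77 x)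
theorem ka_dt78 (x : ℝ) : dt78.kv (3 / 25) x = (17869 / 25000000 + (x - 7 / 128) * (-95029 / 10000000)) := by
  simp only [dt78, DT.kv, sw78, sl78, sv78]
  ((try push_cast); ring1)
theorem kb_dt78 (x : ℝ) : dt78.kv (9 / 50) x = (7991 / 5000000 + (x - 7 / 128) * (-67939 / 2000000)) := by
  simp only [dt78, DT.kv, sw78, sl78, sv78]
  ((try push_cast); ring1)
theorem ka_dt79 (x : ℝ) : dt79.kv (9 / 50) x = (7991 / 5000000 + (x - 7 / 128) * (-67939 / 2000000)) := by
  simp only [dt79, DT.kv, sw79, sl79, sv79]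
  ((try push_cast); ring1)
theorem kb_dt79 (x : ℝ) : dt79.kv (6 / 25) x = (169513 / 100000000 + (x - 7 / 128) * (-642593 / 10000000)) := by
  simp only [dt79, DT.kv, sw79, sl79, sv79]
  ((try push_cast); ring1)
theorem ka_dt83 (x : ℝ) : dt83.kv (3 / 25) x = (17869 / 25000000 + (x - 7 / 128) * (-95029 / 10000000)) :=
  (DT.kv_le (by simp only [Cn.rt_v, Cn.ng_v]; norm_num)).trans (ka_dt78 x)
theorem kb_dt83 (x : ℝ) : dt83.kv (6 / 25) x = (169513 / 100000000 + (x - 7 / 128) * (-642593 / 10000000)) :=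
  (DT.kv_gt (by simp only [Cn.rt_v, Cn.ng_v]; norm_num)).trans (kb_dt79 x)
theorem ka_dt84 (x : ℝ) : dt84.kv (-3 / 50) x = (0) :=
  (DT.kv_le (by simp only [Cn.rt_v, Cn.ng_v]; norm_num)).trans (ka_dt82 x)
theorem kb_dt84 (x : ℝ) : dt84.kv (6 / 25) x = (169513 / 100000000 + (x - 7 / 128) * (-642593 / 10000000)) :=
  (DT.kv_gt (by simp only [Cn.rt_v, Cn.ng_v]; norm_num)).trans (kb_dt83 x)
theorem ka_dt85 (x : ℝ) : dt85.kv (-6 / 25) x = (-169513 / 100000000 + (x - 7 / 128) * (642593 / 10000000)) :=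
  (DT.kv_le (by simp only [Cn.rt_v, Cn.ng_v]; norm_num)).trans (ka_dt81 x)
theorem kb_dt85 (x : ℝ) : dt85.kv (6 / 25) x = (169513 / 100000000 + (x - 7 / 128) * (-642593 / 10000000)) :=
  (DT.kv_gt (by simp only [Cn.rt_v, Cn.ng_v]; norm_num)).trans (kb_dt84 x)
theorem ko_dt73 (x : ℝ) : dt73.KOk x := trivial
theorem ko_dt74 (x : ℝ) : dt74.KOk x := trivial
theorem ko_dt75 (x : ℝ) : dt75.KOk x := trivial
theorem ko_dt80 (x : ℝ) : dt80.KOk x :=
  DT.kOk_node (v := -3 / 25) (by simp only [Cn.rt_v, Cn.ng_v]; norm_num) (kb_dt74 x) (ka_dt75 x) (by ring1) (ko_dt74 x) (ko_dt75 x)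
theorem ko_dt81 (x : ℝ) : dt81.KOk x :=
  DT.kOk_node (v := -9 / 50) (by simp only [Cn.rt_v, Cn.ng_v]; norm_num) (kb_dt73 x) (ka_dt80 x) (by ring1) (ko_dt73 x) (ko_dt80 x)
theorem ko_dt76 (x : ℝ) : dt76.KOk x := trivial
theorem ko_dt77 (x : ℝ) : dt77.KOk x := trivial
theorem ko_dt82 (x : ℝ) : dt82.KOk x :=
  DT.kOk_node (v := 3 / 50) (by simp only [Cn.rt_v, Cn.ng_v]; norm_num) (kb_dt76 x) (ka_dt77 x) (by ring1) (ko_dt76 x) (ko_dt77 x)
theorem ko_dt78 (x : ℝ) : dt78.KOk x := trivial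
theorem ko_dt79 (x : ℝ) : dt79.KOk x := trivial
theorem ko_dt83 (x : ℝ) : dt83.KOk x :=
  DT.kOk_node (v := 9 / 50) (by simp only [Cn.rt_v, Cn.ng_v]; norm_num) (kb_dt78 x) (ka_dt79 x) (by ring1) (ko_dt78 x) (ko_dt79 x)
theorem ko_dt84 (x : ℝ) : dt84.KOk x :=
  DT.kOk_node (v := 3 / 25) (by simp only [Cn.rt_v, Cn.ng_v]; norm_num) (kb_dt82 x) (ka_dt83 x) (by ring1) (ko_dt82 x) (ko_dt83 x)
theorem ko_dt85 (x : ℝ) : dt85.KOk x :=
  DT.kOk_node (v := -3 / 50) (by simp only [Cn.rt_v, Cn.ng_v]; norm_num) (kb_dt81 x) (ka_dt84 x) (by ring1) (ko_dt81 x) (ko_dt84 x)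
theorem phl0 {p x : ℝ} (h2 : p ≤ -9 / 50) : dt85.kv p x = (3943931 / 2500000000 + (x - 7 / 128) * (-13136767 / 250000000)) + (1483197 / 50000000 + (x - 7 / 128) * (-1156277 / 2500000)) * p + (33391 / 500000 + (x - 7 / 128) * (2519 / 25000)) * p ^ 2 := by
  refine (DT.kv_le (by simp only [Cn.rt_v, Cn.ng_v]; push_cast; linarith)).trans ?_
  refine (DT.kv_le (by simp only [Cn.rt_v, Cn.ng_v]; push_cast; linarith)).trans ?_
  simp only [dt73, DT.kv, sw73, sl73, sv73]
  ((try push_cast); ring1)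
theorem phl1 {p x : ℝ} (h1 : -9 / 50 < p) (h2 : p ≤ -3 / 25) : dt85.kv p x = (10821749 / 2500000000 + (x - 7 / 128) * (-1666801 / 250000000)) + (1204641 / 20000000 + (x - 7 / 128) * (141799 / 3000000)) * p + (303387 / 2000000 + (x - 7 / 128) * (151681 / 100000)) * p ^ 2 := by
  refine (DT.kv_le (by simp only [Cn.rt_v, Cn.ng_v]; push_cast; linarith)).trans ?_
  refine (DT.kv_gt (by simp only [Cn.rt_v, Cn.ng_v]; push_cast; linarith)).trans ?_
  refine (DT.kv_le (by simp only [Cn.rt_v, Cn.ng_v]; push_cast; linarith)).trans ?_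
  simp only [dt74, DT.kv, sw74, sl74, sv74]
  ((try push_cast); ring1)
theorem phl2 {p x : ℝ} (h1 : -3 / 25 < p) (h2 : p ≤ -3 / 50) : dt85.kv p x = (-1786937 / 2500000000 + (x - 7 / 128) * (2375789 / 250000000)) + (-7147711 / 300000000 + (x - 7 / 128) * (2375773 / 7500000)) * p + (-397093 / 2000000 + (x - 7 / 128) * (263973 / 100000)) * p ^ 2 := by
  refine (DT.kv_le (by simp only [Cn.rt_v, Cn.ng_v]; push_cast; linarith)).trans ?_
  refine (DT.kv_gt (by simp only [Cn.rt_v, Cn.ng_v]; push_cast; linarith)).trans ?_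
  refine (DT.kv_gt (by simp only [Cn.rt_v, Cn.ng_v]; push_cast; linarith)).trans ?_
  simp only [dt75, DT.kv, sw75, sl75, sv75]
  ((try push_cast); ring1)
theorem phl3 {p x : ℝ} (h1 : -3 / 50 < p) (h2 : p ≤ 3 / 50) : dt85.kv p x = (0) + (0) * p := by
  refine (DT.kv_gt (by simp only [Cn.rt_v, Cn.ng_v]; push_cast; linarith)).trans ?_
  refine (DT.kv_le (by simp only [Cn.rt_v, Cn.ng_v]; push_cast; linarith)).trans ?_
  refine (DT.kv_le (by simp only [Cn.rt_v, Cn.ng_v]; push_cast; linarith)).trans ?_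
  simp only [dt76, DT.kv, sl76, sv76]
  ((try push_cast); ring1)
theorem phl4 {p x : ℝ} (h1 : 3 / 50 < p) (h2 : p ≤ 3 / 25) : dt85.kv p x = (1786937 / 2500000000 + (x - 7 / 128) * (-2375789 / 250000000)) + (-7147711 / 300000000 + (x - 7 / 128) * (2375773 / 7500000)) * p + (397093 / 2000000 + (x - 7 / 128) * (-263973 / 100000)) * p ^ 2 := by
  refine (DT.kv_gt (by simp only [Cn.rt_v, Cn.ng_v]; push_cast; linarith)).trans ?_
  refine (DT.kv_le (by simp only [Cn.rt_v, Cn.ng_v]; push_cast; linarith)).trans ?_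
  refine (DT.kv_gt (by simp only [Cn.rt_v, Cn.ng_v]; push_cast; linarith)).trans ?_
  simp only [dt77, DT.kv, sw77, sl77, sv77]
  ((try push_cast); ring1)
theorem phl5 {p x : ℝ} (h1 : 3 / 25 < p) (h2 : p ≤ 9 / 50) : dt85.kv p x = (-10821749 / 2500000000 + (x - 7 / 128) * (1666801 / 250000000)) + (1204641 / 20000000 + (x - 7 / 128) * (141799 / 3000000)) * p + (-303387 / 2000000 + (x - 7 / 128) * (-151681 / 100000)) * p ^ 2 := by
  refine (DT.kv_gt (by simp only [Cn.rt_v, Cn.ng_v]; push_cast; linarith)).trans ?_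
  refine (DT.kv_gt (by simp only [Cn.rt_v, Cn.ng_v]; push_cast; linarith)).trans ?_
  refine (DT.kv_le (by simp only [Cn.rt_v, Cn.ng_v]; push_cast; linarith)).trans ?_
  simp only [dt78, DT.kv, sw78, sl78, sv78]
  ((try push_cast); ring1)
theorem phl6 {p x : ℝ} (h1 : 9 / 50 < p) (h2 : p ≤ 6 / 25) : dt85.kv p x = (-3943931 / 2500000000 + (x - 7 / 128) * (13136767 / 250000000)) + (1483197 / 50000000 + (x - 7 / 128) * (-1156277 / 2500000)) * p + (-33391 / 500000 + (x - 7 / 128) * (-2519 / 25000)) * p ^ 2 := by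
  refine (DT.kv_gt (by simp only [Cn.rt_v, Cn.ng_v]; push_cast; linarith)).trans ?_
  refine (DT.kv_gt (by simp only [Cn.rt_v, Cn.ng_v]; push_cast; linarith)).trans ?_
  refine (DT.kv_gt (by simp only [Cn.rt_v, Cn.ng_v]; push_cast; linarith)).trans ?_
  simp only [dt79, DT.kv, sw79, sl79, sv79]
  ((try push_cast); ring1)
theorem tvc7 {p x : ℝ} (h1 : -6 / 25 ≤ p) (h2 : p ≤ -9 / 50) : dt72.val (fun p x => kcg.v p x) p (cT p) x = (167897467 / 2500000000 + (x - 7 / 128) * (4931161 / 50000000)) + (8971481 / 75000000 + (x - 7 / 128) * (839017 / 6000000)) * p + (-100251 / 1000000 + (x - 7 / 128) * (-17671 / 40000)) * p ^ 2 := by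
  rcases eq_or_lt_of_le h1 with h | h1
  · subst h
    refine (DT.val_le (by simp only [Cn.rt_v, Cn.ng_v]; push_cast; linarith)).trans ?_
    refine (DT.val_gt (by simp only [Cn.rt_v, Cn.ng_v]; push_cast; linarith)).trans ?_
    refine (DT.val_gt (by simp only [Cn.rt_v, Cn.ng_v]; push_cast; linarith)).trans ?_
    refine (DT.val_le (by simp only [Cn.rt_v, Cn.ng_v]; push_cast; linarith)).trans ?_
    simp only [dt44, DT.val, sw44, sl44, sv44]
    ((try push_cast); ring1)
  ·
    refine (DT.val_le (by simp only [Cn.rt_v, Cn.ng_v]; push_cast; linarith)).trans ?_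
    refine (DT.val_gt (by simp only [Cn.rt_v, Cn.ng_v]; push_cast; linarith)).trans ?_
    refine (DT.val_gt (by simp only [Cn.rt_v, Cn.ng_v]; push_cast; linarith)).trans ?_
    refine (DT.val_gt (by simp only [Cn.rt_v, Cn.ng_v]; push_cast; linarith)).trans ?_
    refine (DT.val_le (by simp only [Cn.rt_v, Cn.ng_v]; push_cast; linarith)).trans ?_
    simp only [dt45, DT.val, sw45, sl45, sv45]
    ((try push_cast); ring1)
theorem tvc8 {p x : ℝ} (h1 : -9 / 50 ≤ p) (h2 : p ≤ -3 / 25) : dt72.val (fun p x => kcg.v p x) p (cT p) x = (154663807 / 2500000000 + (x - 7 / 128) * (3863467 / 50000000)) + (3648209 / 60000000 + (x - 7 / 128) * (-9743 / 100000)) * p + (-527259 / 2000000 + (x - 7 / 128) * (-22017 / 20000)) * p ^ 2 := by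
  rcases eq_or_lt_of_le h1 with h | h1
  · subst h
    refine (DT.val_le (by simp only [Cn.rt_v, Cn.ng_v]; push_cast; linarith)).trans ?_
    refine (DT.val_gt (by simp only [Cn.rt_v, Cn.ng_v]; push_cast; linarith)).trans ?_
    refine (DT.val_gt (by simp only [Cn.rt_v, Cn.ng_v]; push_cast; linarith)).trans ?_
    refine (DT.val_gt (by simp only [Cn.rt_v, Cn.ng_v]; push_cast; linarith)).trans ?_
    refine (DT.val_le (by simp only [Cn.rt_v, Cn.ng_v]; push_cast; linarith)).trans ?_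
    simp only [dt45, DT.val, sw45, sl45, sv45]
    ((try push_cast); ring1)
  ·
    refine (DT.val_le (by simp only [Cn.rt_v, Cn.ng_v]; push_cast; linarith)).trans ?_
    refine (DT.val_gt (by simp only [Cn.rt_v, Cn.ng_v]; push_cast; linarith)).trans ?_
    refine (DT.val_gt (by simp only [Cn.rt_v, Cn.ng_v]; push_cast; linarith)).trans ?_
    refine (DT.val_gt (by simp only [Cn.rt_v, Cn.ng_v]; push_cast; linarith)).trans ?_
    refine (DT.val_gt (by simp only [Cn.rt_v, Cn.ng_v]; push_cast; linarith)).trans ?_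
    simp only [dt46, DT.val, sw46, sl46, sv46]
    ((try push_cast); ring1)
theorem tvc9 {p x : ℝ} (h1 : -3 / 25 ≤ p) (h2 : p ≤ -3 / 50) : dt72.val (fun p x => kcg.v p x) p (cT p) x = (37877903 / 625000000 + (x - 7 / 128) * (17546597 / 250000000)) + (2984159 / 75000000 + (x - 7 / 128) * (-1077389 / 5000000)) * p + (-351191 / 1000000 + (x - 7 / 128) * (-159271 / 100000)) * p ^ 2 := by
  rcases eq_or_lt_of_le h1 with h | h1
  · subst h
    refine (DT.val_le (by simp only [Cn.rt_v, Cn.ng_v]; push_cast; linarith)).trans ?_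
    refine (DT.val_gt (by simp only [Cn.rt_v, Cn.ng_v]; push_cast; linarith)).trans ?_
    refine (DT.val_gt (by simp only [Cn.rt_v, Cn.ng_v]; push_cast; linarith)).trans ?_
    refine (DT.val_gt (by simp only [Cn.rt_v, Cn.ng_v]; push_cast; linarith)).trans ?_
    refine (DT.val_gt (by simp only [Cn.rt_v, Cn.ng_v]; push_cast; linarith)).trans ?_
    simp only [dt46, DT.val, sw46, sl46, sv46]
    ((try push_cast); ring1)
  ·
    refine (DT.val_gt (by simp only [Cn.rt_v, Cn.ng_v]; push_cast; linarith)).trans ?_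
    refine (DT.val_le (by simp only [Cn.rt_v, Cn.ng_v]; push_cast; linarith)).trans ?_
    refine (DT.val_le (by simp only [Cn.rt_v, Cn.ng_v]; push_cast; linarith)).trans ?_
    refine (DT.val_le (by simp only [Cn.rt_v, Cn.ng_v]; push_cast; linarith)).trans ?_
    simp only [dt47, DT.val, sw47, sl47, sv47]
    ((try push_cast); ring1)
theorem tvc10 {p x : ℝ} (h1 : -3 / 50 ≤ p) (h2 : p ≤ 3 / 50) : dt72.val (fun p x => kcg.v p x) p (cT p) x = (296760951 / 5000000000 + (x - 7 / 128) * (18931217 / 250000000)) + (-5879 / 3000000 + (x - 7 / 128) * (-2469 / 80000)) * p + (-1398189 / 2000000 + (x - 7 / 128) * (-10851 / 200000)) * p ^ 2 := by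
  rcases eq_or_lt_of_le h1 with h | h1
  · subst h
    refine (DT.val_gt (by simp only [Cn.rt_v, Cn.ng_v]; push_cast; linarith)).trans ?_
    refine (DT.val_le (by simp only [Cn.rt_v, Cn.ng_v]; push_cast; linarith)).trans ?_
    refine (DT.val_le (by simp only [Cn.rt_v, Cn.ng_v]; push_cast; linarith)).trans ?_
    refine (DT.val_le (by simp only [Cn.rt_v, Cn.ng_v]; push_cast; linarith)).trans ?_
    simp only [dt47, DT.val, sw47, sl47, sv47]
    ((try push_cast); ring1)
  ·
    refine (DT.val_gt (by simp only [Cn.rt_v, Cn.ng_v]; push_cast; linarith)).trans ?_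
    refine (DT.val_le (by simp only [Cn.rt_v, Cn.ng_v]; push_cast; linarith)).trans ?_
    refine (DT.val_le (by simp only [Cn.rt_v, Cn.ng_v]; push_cast; linarith)).trans ?_
    refine (DT.val_gt (by simp only [Cn.rt_v, Cn.ng_v]; push_cast; linarith)).trans ?_
    simp only [dt48, DT.val, sw48, sl48, sv48]
    ((try push_cast); ring1)
theorem tvc11 {p x : ℝ} (h1 : 3 / 50 ≤ p) (h2 : p ≤ 3 / 25) : dt72.val (fun p x => kcg.v p x) p (cT p) x = (5988987 / 100000000 + (x - 7 / 128) * (9961193 / 125000000)) + (-238589 / 12000000 + (x - 7 / 128) * (-1222627 / 7500000)) * p + (-43979 / 80000 + (x - 7 / 128) * (52351 / 50000)) * p ^ 2 := by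
  rcases eq_or_lt_of_le h1 with h | h1
  · subst h
    refine (DT.val_gt (by simp only [Cn.rt_v, Cn.ng_v]; push_cast; linarith)).trans ?_
    refine (DT.val_le (by simp only [Cn.rt_v, Cn.ng_v]; push_cast; linarith)).trans ?_
    refine (DT.val_le (by simp only [Cn.rt_v, Cn.ng_v]; push_cast; linarith)).trans ?_
    refine (DT.val_gt (by simp only [Cn.rt_v, Cn.ng_v]; push_cast; linarith)).trans ?_
    simp only [dt48, DT.val, sw48, sl48, sv48]
    ((try push_cast); ring1)
  ·
    refine (DT.val_gt (by simp only [Cn.rt_v, Cn.ng_v]; push_cast; linarith)).trans ?_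
    refine (DT.val_le (by simp only [Cn.rt_v, Cn.ng_v]; push_cast; linarith)).trans ?_
    refine (DT.val_gt (by simp only [Cn.rt_v, Cn.ng_v]; push_cast; linarith)).trans ?_
    refine (DT.val_le (by simp only [Cn.rt_v, Cn.ng_v]; push_cast; linarith)).trans ?_
    simp only [dt49, DT.val, sw49, sl49, sv49]
    ((try push_cast); ring1)
theorem tvc12 {p x : ℝ} (h1 : 3 / 25 ≤ p) (h2 : p ≤ 9 / 50) : dt72.val (fun p x => kcg.v p x) p (cT p) x = (41371389 / 625000000 + (x - 7 / 128) * (8825267 / 125000000)) + (-1874323 / 15000000 + (x - 7 / 128) * (-8671 / 750000)) * p + (-1749 / 15625 + (x - 7 / 128) * (10399 / 25000)) * p ^ 2 := by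
  rcases eq_or_lt_of_le h1 with h | h1
  · subst h
    refine (DT.val_gt (by simp only [Cn.rt_v, Cn.ng_v]; push_cast; linarith)).trans ?_
    refine (DT.val_le (by simp only [Cn.rt_v, Cn.ng_v]; push_cast; linarith)).trans ?_
    refine (DT.val_gt (by simp only [Cn.rt_v, Cn.ng_v]; push_cast; linarith)).trans ?_
    refine (DT.val_le (by simp only [Cn.rt_v, Cn.ng_v]; push_cast; linarith)).trans ?_
    simp only [dt49, DT.val, sw49, sl49, sv49]
    ((try push_cast); ring1)
  ·
    refine (DT.val_gt (by simp only [Cn.rt_v, Cn.ng_v]; push_cast; linarith)).trans ?_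
    refine (DT.val_le (by simp only [Cn.rt_v, Cn.ng_v]; push_cast; linarith)).trans ?_
    refine (DT.val_gt (by simp only [Cn.rt_v, Cn.ng_v]; push_cast; linarith)).trans ?_
    refine (DT.val_gt (by simp only [Cn.rt_v, Cn.ng_v]; push_cast; linarith)).trans ?_
    simp only [dt50, DT.val, sw50, sl50, sv50]
    ((try push_cast); ring1)
theorem tvc13 {p x : ℝ} (h1 : 9 / 50 ≤ p) (h2 : p ≤ 6 / 25) : dt72.val (fun p x => kcg.v p x) p (cT p) x = (85920699 / 1250000000 + (x - 7 / 128) * (5759519 / 125000000)) + (-7660151 / 50000000 + (x - 7 / 128) * (7828489 / 30000000)) * p + (-33469 / 1000000 + (x - 7 / 128) * (-68203 / 200000)) * p ^ 2 := by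
  rcases eq_or_lt_of_le h1 with h | h1
  · subst h
    refine (DT.val_gt (by simp only [Cn.rt_v, Cn.ng_v]; push_cast; linarith)).trans ?_
    refine (DT.val_le (by simp only [Cn.rt_v, Cn.ng_v]; push_cast; linarith)).trans ?_
    refine (DT.val_gt (by simp only [Cn.rt_v, Cn.ng_v]; push_cast; linarith)).trans ?_
    refine (DT.val_gt (by simp only [Cn.rt_v, Cn.ng_v]; push_cast; linarith)).trans ?_
    simp only [dt50, DT.val, sw50, sl50, sv50]
    ((try push_cast); ring1)
  ·
    refine (DT.val_gt (by simp only [Cn.rt_v, Cn.ng_v]; push_cast; linarith)).trans ?_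
    refine (DT.val_gt (by simp only [Cn.rt_v, Cn.ng_v]; push_cast; linarith)).trans ?_
    refine (DT.val_le (by simp only [Cn.rt_v, Cn.ng_v]; push_cast; linarith)).trans ?_
    refine (DT.val_le (by simp only [Cn.rt_v, Cn.ng_v]; push_cast; linarith)).trans ?_
    simp only [dt51, DT.val, sw51, sl51, sv51]
    ((try push_cast); ring1)
theorem ph_ (x : ℝ) : ∀ u, |u| ≤ vv.k2.v → dd.tF x (-u) - dd.tF x u = m0c.v x * u + dt85.kv u x := by
  intro u h
  have h : |u| ≤ 6 / 25 := by
    refine h.trans_eq ?_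
    show (Cn.rt 6 25).v = _
    rw [Cn.rt_v]
    norm_num
  obtain ⟨h1, h2⟩ := abs_le.1 h
  show dt72.val (fun p x => kcg.v p x) (-u) (cT (-u)) x - dt72.val (fun p x => kcg.v p x) u (cT u) x = _
  rcases le_or_gt u (-9 / 50) with g0 | g1000
  ·
    rw [tvc13 (p := -u) (by linarith) (by linarith), tvc7 (p := u) (by linarith) (by linarith), phl0 g0]
    simp only [m0c]
    push_cast
    ring
  rcases le_or_gt u (-3 / 25) with g1 | g1001
  ·
    rw [tvc12 (p := -u) (by linarith) (by linarith), tvc8 (p := u) (by linarith) (by linarith), phl1 g1000 g1]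
    simp only [m0c]
    push_cast
    ring
  rcases le_or_gt u (-3 / 50) with g2 | g1002
  ·
    rw [tvc11 (p := -u) (by linarith) (by linarith), tvc9 (p := u) (by linarith) (by linarith), phl2 g1001 g2]
    simp only [m0c]
    push_cast
    ring
  rcases le_or_gt u (3 / 50) with g3 | g1003
  ·
    rw [tvc10 (p := -u) (by linarith) (by linarith), tvc10 (p := u) (by linarith) (by linarith), phl3 g1002 g3]
    simp only [m0c]
    push_cast
    ring
  rcases le_or_gt u (3 / 25) with g4 | g1004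
  ·
    rw [tvc9 (p := -u) (by linarith) (by linarith), tvc11 (p := u) (by linarith) (by linarith), phl4 g1003 g4]
    simp only [m0c]
    push_cast
    ring
  rcases le_or_gt u (9 / 50) with g5 | g1005
  ·
    rw [tvc8 (p := -u) (by linarith) (by linarith), tvc12 (p := u) (by linarith) (by linarith), phl5 g1004 g5]
    simp only [m0c]
    push_cast
    ring
  ·
    rw [tvc7 (p := -u) (by linarith) (by linarith), tvc13 (p := u) (by linarith) (by linarith), phl6 g1005 (by linarith)]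
    simp only [m0c]
    push_cast
    ring
theorem kqf_ {y : ℝ} (x : ℝ) (h : OnC (0 : Fin 5) 2 y) : kqf.v y x * c1g.v y = (y - 1) * kcg.v (c1g.v y) x := by
  have h0 : 0 ≤ c1g.v y := by rw [c1g_v]; exact c1n_nn y
  simp only [kqf]
  (try push_cast)
  split_ifs with hh
  · rw [kcl9 (p := c1g.v y) (by linarith) (by linarith)]
    ring
  · have hc : c1g.v y ≠ 0 := by
      intro e
      rw [e] at hh
      exact hh (by norm_num)
    have hi := inv_mul_cancel₀ hc
    linear_combination ((y - 1) * kcg.v (c1g.v y) x) * hi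
theorem sM_ (x : ℝ) : ∀ y, OnC (0 : Fin 5) 2 y → c1n y < crv PP 1 2 y →
    (1 + skm.v y x) * (crv PP 1 2 y - c1n y) = tKF 1 2 y x - tKF 0 2 y x := by
  intro y h hlt
  rw [yK12 h.1, yK02 h]
  rw [ecv1q2, ← c1g_v] at hlt ⊢
  have hd : 0 < cv1p.v y - c1g.v y := sub_pos.2 hlt
  have hi := inv_mul_cancel₀ hd.ne'
  have hb : |c1g.v y| ≤ 1 / 2 := by rw [c1g_v]; exact bnd_O h
  have eo := odd (x := x) hb
  have hk := kqf_ x h
  simp only [skm, kf1q2, kf0q2, eo]
  (try push_cast)
  linear_combination (cv1p.v y * ((bf1q2.v y x - 1) + kqf.v y x)) * hi + hk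
theorem ok {x : ℝ} (g0 : 0 < x) (g1 : x < 1) : tt.Ok PP tKF tL x where
  i0 := rfl
  il := rfl
  rl := by
    show 1 < PP.ρ 3
    have e : PP.ρ 3 = 7 / 5 := rfl
    rw [e]
    norm_num
  ok := dok x
  kh := kenS_eq g0 g1
  odd := fun p h => odd h
  K0 := K0_ x
  L0 := L0_ x
  Kn := Kn_ x
  Ln := Ln_ x
  f0 := f0_
  fn := fn_
  sK0 := sK0_ x
  sX0 := sX0_ x
  sKn := sKn_ x
  sXn := sXn_ x
  k1 := by
    show 0 ≤ (Cn.rt 3 50).v ∧ (Cn.rt 3 50).v ≤ 1 / 2
    rw [Cn.rt_v]
    constructor <;> norm_num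
  kn := kn_ x
  tn := tn_ x
  vK := vK_ x
  vX := vX_ x
  rK := rK_ x
  rX := rX_ x
  yb := by
    show 0 ≤ (Cn.rt 231 200).v ∧ 1 ≤ 3 / 4 * (Cn.rt 231 200).v ^ 2
    rw [Cn.rt_v]
    constructor <;> norm_num
  flat := flat_ x
  abk := abk_ x
  phk := ko_dt85 x
  ph := ph_ x
  sM := sM_ x
  yz := by
    show (Cn.rt 577 500).v ≤ (Cn.rt 577 500).v ∧ 0 ≤ (Cn.rt 577 500).v ∧ 1 ≤ 3 / 4 * (Cn.rt 577 500).v ^ 2 + (Cn.rt 3 50).v ^ 2
    simp only [Cn.rt_v]
    refine ⟨?_, ?_, ?_⟩ <;> norm_num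
theorem okx {x : ℝ} (hx : ((50331648 : ℕ) : ℝ) / S ≤ x) (hx' : x ≤ (((50331648 : ℕ) : ℝ) + (16777216 : ℕ)) / S) : tt.Ok PP tKF tL x :=
  ok (rng_unit rfl rfl ⟨hx, hx'⟩).1 (rng_unit rfl rfl ⟨hx, hx'⟩).2

end Pool.Agent.Strip051.G.I3_64_1_16.Tab.St
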